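import Pool.Agent.Helper66.ND.Defs

/-! part of the certificate for the constant 25/48 (generated) -/

namespace Pool.Agent.Helper91.ND1

open Pool.Agent.Helper66.IL
open Pool.Agent.Helper66.ND
open Pool.Agent.Helper66.ND.LT
open Pool.Agent.Helper66.ND.Ct

set_option maxRecDepth 100000 in
def N18 : NT :=
(.s 0xe5ffe01d10 4089 (n false (z 126) (n true (n false (n false e e) (n false e e)) e)) (u 2 3 (k v (k (t 6 1 r) (k (c 3 4092 v (t 6 1 r)) r))))
 (.s 0xe5dfe01708 4079 (n false (z 122) (n false (n true (n false e e) e) (n false e e))) (u 2 0 (k (t 6 3 r) (k (t 6 3 r) r)))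
 (.s 0xe5df601d10 4081 (n false (z 90) (n true (n false (n false e e) (n false e e)) e)) (u 2 0 (k v (k v (k r (k r (k (c 6 4096 r r) (k r r)))))))
 (.s 0xe5df500288 4088 (n false (z 154) (n false (n false e e) (n false e e))) (u 2 1 (k v (k (c 4 4100 r r) (k (c 6 4102 r r) (k (c 4 4100 r r) r)))))
 (.s 0xe5df401d10 4084 (n false (z 26) (n true (n false (n false e e) (n false e e)) e)) (u 2 9 (k v (k v (k (c 3 4092 v (u 4 1 (k v (k v r)))) r))))
 .z .z) (.s 0xe5df601708 4087 (n false (z 90) (n false (n true (n false e e) e) (n false e e))) (u 2 5 (k v (k r (k (c 6 4097 r (u 4 1 (k v (k (c 12 4097 r (u 8 0 (k v (k v r)))) r)))) (k r (k (c 4 4097 r (u 6 0 (k (u 10 0 (k v (k v r))) r))) (k (c 6 4097 r r) (k r (k (c 6 4095 r r) (k (c 4 4095 r r) r))))))))))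
 .z .z)) (.s 0xe5df601f40 4090 (n false (z 90) (n true (n true (n false (n false e e) e) e) e)) (u 2 12 (k v (k v (k r (k r (k r (k (c 4 4097 r (u 6 0 (k (u 10 0 (k v (k v r))) r))) r)))))))
 (.s 0xe5df601d40 4091 (n false (z 90) (n true (n false (n false (n false e e) e) e) e)) (u 2 11 (k v (k v (k r (k r (k (u 4 3 (k v (k v (k (u 8 1 (k v (k v r))) (k (c 8 4097 r (u 12 0 (k v (k v r)))) (k (c 8 4097 r (u 12 0 (k v (k v r)))) (k (c 8 4096 r (u 12 0 (k v (k v r)))) r))))))) (k (c 4 4097 r (u 6 0 (k (u 10 0 (k v (k v r))) r))) r)))))))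
 .z .z) (.s 0xe5dfc01708 4083 (n false (z 58) (n false (n true (n false e e) e) (n false e e))) (u 2 0 (k (t 6 1 (u 4 0 (k (t 8 3 (t 12 1 v)) r))) r))
 .z .z))) (.s 0xe5f7500288 4088 (n false (z 150) (n false (n false e e) (n false e e))) (u 2 3 (k v (k (t 6 3 r) (k (t 6 3 r) r))))
 (.s 0xe5f5e01708 4082 (n false (z 102) (n false (n true (n false e e) e) (n false e e))) (u 2 0 (k (u 4 2 (k r (k r r))) (k (u 6 2 (k r (k r r))) (k (t 4 2 r) (k (u 4 0 (k r (k r (k (c 12 4099 r (u 8 0 (k r (k r r)))) r)))) (k (u 6 23 (k r (k r r))) (k (u 4 0 (k r (k r (k (c 12 4099 r (u 6 0 (k (u 8 1 (k v (k v r))) (k (u 8 0 (k v (k v r))) (k (c 14 4099 r r) r))))) r)))) (k (u 4 0 (k r (k (c 12 4099 r (u 8 0 (k r (k r r)))) r))) (k (t 6 2 r) r)))))))))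
 (.s 0xe5dfe01d10 4088 (n false (z 122) (n true (n false (n false e e) (n false e e)) e)) (u 2 0 (k (t 6 3 (u 4 36 (k v (k v (k v r))))) (k (t 6 3 (u 4 37 (k v (k v (k v r))))) r)))
 .z .z) (.s 0xe5f5e01d10 4082 (n false (z 102) (n true (n false (n false e e) (n false e e)) e)) (u 2 0 (k (u 4 2 (k r (k r r))) (k r (k (t 4 10 r) (k r (k (u 6 1 (k r (k (c 14 4099 r r) (k r (k (c 10 4099 r r) (k (c 10 4099 r r) (k (c 10 4099 r r) r))))))) (k r (k r (k (t 6 2 r) r)))))))))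
 .z .z)) (.s 0xe5ffe01708 4082 (n false (z 126) (n false (n true (n false e e) e) (n false e e))) (u 2 1 (k v (k (t 6 1 r) (k (t 6 1 r) r))))
 (.s 0xe5fdc01d10 4082 (n false (z 46) (n true (n false (n false e e) (n false e e)) e)) (u 2 0 (k v (k (u 4 1 (k v (k v r))) (k (u 4 0 (k v (k v r))) (k (c 6 4099 r (u 4 0 (k v (k v r)))) (k (c 6 4097 r (u 4 1 (k v (k v r)))) (k (c 4 4095 r (u 6 1 (k v (k v r)))) r)))))))
 .z .z) .z))) (.s 0xe75f601d10 4081 (n false (z 89) (n true (n false (n false e e) (n false e e)) e)) (u 2 2 (k v (k v (k v (k (t 6 2 r) r)))))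
 (.s 0xe75f500288 4090 (n false (z 153) (n false (n false e e) (n false e e))) (u 2 1 (k v (k (c 4 4099 r (u 6 0 (k v (k v r)))) (k (c 4 4099 r (u 6 0 (k v (k v r)))) r))))
 (.s 0xe757500288 4088 (n false (z 145) (n false (n false e e) (n false e e))) (u 2 2 (k v (k (c 4 4099 r r) (k (c 6 4097 r r) (k (c 6 4101 r r) (k (c 6 4102 r (u 4 0 (k (u 8 0 (k v (k v r))) r))) (k (c 6 4102 r r) (k (c 6 4099 r r) (k (c 6 4101 r r) (k (c 6 4097 r r) (k (c 6 4099 r r) (k (c 6 4099 r r) (k (c 4 4101 r r) (k (c 4 4097 r r) (k (c 6 4101 r r) (k (c 6 4099 r r) r))))))))))))))))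
 (.s 0xe755e01d10 4085 (n false (z 97) (n true (n false (n false e e) (n false e e)) e)) (u 2 0 (k (t 6 1 (u 4 0 (k v (k v r)))) r))
 .z .z) (.s 0xe7575003a0 4085 (n false (z 145) (n true (n false (n false e e) e) e)) (u 2 3 (k v (k v (k (u 6 2 (k (t 4 1 v) (k r r))) (k (c 5 4094 v r) (k r (k (c 5 4094 v (t 4 2 (u 6 0 (k r r)))) (k (c 5 4094 v r) (k (c 5 4094 v r) (k (c 5 4094 v r) (k r (k (c 5 4094 v r) (k (c 5 4094 v r) (k (c 5 4094 v r) (k (c 5 4094 v r) r)))))))))))))))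
 .z .z)) (.s 0xe75f601708 4081 (n false (z 89) (n false (n true (n false e e) e) (n false e e))) (u 2 13 (k v (k v (k v (k v (k (t 6 3 (u 4 47 (k v (k v (k v (k v (k v r))))))) (k (t 6 2 r) (k (t 6 1 r) r))))))))
 (.s 0xe75f5003a0 4083 (n false (z 153) (n true (n false (n false e e) e) e)) (u 2 0 (k (t 4 1 r) (k (t 6 1 r) (k (t 4 1 r) (k (t 4 2 r) (k (t 4 1 r) (k (t 4 1 r) r)))))))
 .z .z) .z)) (.s 0xe75fe01d10 4084 (n false (z 121) (n true (n false (n false e e) (n false e e)) e)) (u 2 2 (k v (k v (k (c 6 4099 r (u 4 1 (k v (k v r)))) (k (c 4 4095 r (u 6 0 (k v (k v r)))) (k (c 4 4095 r (u 6 0 (k v (k v r)))) r))))))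
 (.s 0xe75fc01d10 4087 (n false (z 57) (n true (n false (n false e e) (n false e e)) e)) (u 2 0 (k v (k (t 4 1 (t 6 3 v)) (k (t 6 1 (u 4 6 (k v (k v r)))) r))))
 (.s 0xe75fc01708 4078 (n false (z 57) (n false (n true (n false e e) e) (n false e e))) (u 2 0 (k v (k (t 4 3 (t 6 3 v)) (k (t 6 1 (u 4 0 (k v (k v r)))) r))))
 .z .z) (.s 0xe75fe01510 4084 (n false (z 121) (n false (n false (n false e e) (n false e e)) e)) (u 2 23 (k v (k v (k v (k (c 6 4099 r (u 4 1 (k v (k v r)))) (k (c 4 4095 r (u 6 0 (k v (k v r)))) (k (c 4 4095 r (u 6 0 (k v (k v r)))) r)))))))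
 .z .z)) (.s 0xe7755003a0 4082 (n false (z 133) (n true (n false (n false e e) e) e)) (u 2 0 (k (t 6 1 r) (k (t 6 1 r) (k (t 6 1 r) (k (t 6 1 r) (k (t 4 2 r) (k (t 6 1 r) (k (t 4 2 r) (k (t 4 1 r) r)))))))))
 (.s 0xe775500288 4091 (n false (z 133) (n false (n false e e) (n false e e))) (u 2 3 (k v (k (c 6 4101 r (u 4 0 (k v (k v r)))) (k (c 6 4099 r (u 4 0 (k v (k v r)))) (k (c 6 4097 r (u 4 0 (k v (k v r)))) (k (c 6 4096 r (u 4 0 (k v (k v r)))) (k (c 4 4098 r (u 6 0 (k v (k v r)))) (k (c 4 4101 r (u 6 0 (k v (k v r)))) (k (c 4 4101 r (u 6 0 (k v (k v r)))) r)))))))))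
 .z .z) .z))))

set_option maxRecDepth 100000 in
def N19 : NT :=
(.s 0xe7d5e01708 4077 (n false (z 99) (n false (n true (n false e e) e) (n false e e))) (u 2 2 (k (u 6 0 (k (t 10 3 (t 14 1 r)) r)) (k (t 6 2 r) (k (t 6 2 r) (k (t 6 2 r) (k (t 6 2 r) r))))))
 (.s 0xe77d601d10 4085 (n false (z 77) (n true (n false (n false e e) (n false e e)) e)) (u 2 0 (k (c 6 4099 r r) (k r (k r (k r r)))))
 (.s 0xe777601d10 4082 (n false (z 85) (n true (n false (n false e e) (n false e e)) e)) (u 2 4 (k v (k (c 6 4099 r r) (k (t 6 1 (u 4 4 (k (t 12 1 (u 8 6 (k v (k v (k (u 16 4 (k v (k (t 48 1 (u 32 4 (k v (k v r)))) r))) (k (c 6 4099 v (c 3 4092 v r)) r)))))) (k (t 12 2 (c 6 4099 v r)) r)))) (k (c 6 4099 r (u 4 1 (k v (k v (k v (k (t 12 1 r) r)))))) (k r (k (c 6 4096 r (u 4 4 (k (t 12 1 r) (k (t 12 2 r) r)))) (k (c 4 4099 r r) r))))))))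
 (.s 0xe775c01d10 4084 (n false (z 37) (n true (n false (n false e e) (n false e e)) e)) (u 2 0 (k v (k (u 4 0 (k (t 8 3 (t 12 1 v)) r)) (k (u 4 0 (k (t 8 3 (t 12 1 v)) r)) (k r (k (u 4 0 (k v (k v (k (t 12 1 (u 8 0 (k (t 16 3 (t 24 1 v)) r))) r)))) (k (c 3 4092 v r) r)))))))
 (.s 0xe775601d10 4082 (n false (z 69) (n true (n false (n false e e) (n false e e)) e)) (u 2 4 (k v (k (t 6 3 r) (k (t 6 3 r) (k (t 6 2 r) r)))))
 .z .z) (.s 0xe777500288 4090 (n false (z 149) (n false (n false e e) (n false e e))) (u 2 3 (k v (k (c 6 4099 r r) (k (c 4 4098 r r) (k (c 4 4098 r r) (k (c 4 4099 r (u 6 0 (k (u 10 0 (k v (k v r))) r))) (k (c 6 4102 r r) (k (c 6 4102 r r) r))))))))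
 .z .z)) (.s 0xe777c01d10 4089 (n false (z 53) (n true (n false (n false e e) (n false e e)) e)) (u 2 0 (k (t 6 1 (u 4 14 (k v (k v (k v (k (u 8 15 (k v (k v (k v r)))) (k r (k (c 12 4097 r (u 8 15 (k v (k v (k v r))))) r)))))))) (k (t 6 1 (u 4 23 (k v (k v (k v (k (c 3 4092 v r) r)))))) r)))
 (.s 0xe777c01708 4081 (n false (z 53) (n false (n true (n false e e) e) (n false e e))) (u 2 0 (k (t 6 1 r) (k (t 6 1 r) r)))
 .z .z) (.s 0xe77d500288 4093 (n false (z 141) (n false (n false e e) (n false e e))) (u 2 2 (k v (k v (k (t 6 2 r) (k (c 6 4099 r (u 4 0 (k (u 8 0 (k v (k v r))) r))) r)))))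
 .z .z))) (.s 0xe7d5601708 4074 (n false (z 67) (n false (n true (n false e e) e) (n false e e))) (u 2 3 (k v (k (t 6 2 r) (k (t 4 2 (u 6 0 (k (u 10 0 (k v (k v r))) r))) (k (t 4 1 (u 6 0 (k (u 10 0 (k v (k v r))) r))) (k (t 6 1 r) (k (t 6 2 r) (k r (k (t 6 1 r) (k (t 6 2 r) (k (t 4 2 r) (k (t 6 2 (u 4 0 (k (u 8 0 (k v (k v r))) r))) (k (t 4 1 r) (k (t 6 2 r) (k (t 4 1 (u 6 0 (k (u 10 0 (k v (k v r))) r))) (k (t 6 1 r) (k (t 6 2 r) (k (t 6 1 r) (k (t 6 2 r) (k (t 6 2 r) (k (t 6 1 r) r)))))))))))))))))))))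
 (.s 0xe77f401708 4081 (n false (z 29) (n false (n true (n false e e) e) (n false e e))) (u 2 0 (k (u 4 0 (k (t 8 3 (t 12 1 v)) r)) r))
 (.s 0xe77dc01708 4082 (n false (z 45) (n false (n true (n false e e) e) (n false e e))) (u 2 1 (k v (k (t 6 1 r) (k (t 6 2 r) r))))
 .z .z) (.s 0xe77fe01708 4079 (n false (z 125) (n false (n true (n false e e) e) (n false e e))) (u 2 0 (k (t 6 3 r) (k (t 6 3 r) r)))
 .z .z)) (.s 0xe7d5d00288 4082 (n false (z 163) (n false (n false e e) (n false e e))) (u 2 0 (k r (k (u 6 0 (k (u 10 0 (k r (k r r))) r)) (k r (k r (k r (k r (k r (k r (k r r))))))))))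
 (.s 0xe7d5c01d10 4085 (n false (z 35) (n true (n false (n false e e) (n false e e)) e)) (u 2 1 (k v (k v (k v (k (t 6 1 (u 4 0 (k (t 8 3 (t 12 1 v)) r))) r)))))
 .z .z) .z))) (.s 0xe7ddc01708 4089 (n false (z 43) (n false (n true (n false e e) e) (n false e e))) (u 2 1 (k v (k r (k r (k (u 4 1 (k v (k v r))) (k (c 6 4099 r (u 4 0 (k (u 8 0 (k v (k v r))) r))) (k (u 4 0 (k (u 8 0 (k v (k v r))) r)) (k r (k (u 4 1 (k v (k (c 12 4099 r (u 8 1 (k v (k v r)))) (k (c 8 4098 r (u 12 1 (k v (k v r)))) (k (c 8 4097 r (u 12 1 (k v (k v r)))) (k (c 8 4099 r (u 12 1 (k v (k v r)))) (k (c 8 4095 r (u 12 0 (k v (k v r)))) r))))))) r)))))))))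
 (.s 0xe7dd5003a0 4088 (n false (z 139) (n true (n false (n false e e) e) e)) (u 2 3 (k v (k (t 6 2 (u 4 0 (k (t 12 2 (u 8 0 (k (t 24 1 r) r))) r))) r)))
 (.s 0xe7d7601708 4083 (n false (z 83) (n false (n true (n false e e) e) (n false e e))) (u 2 3 (k v (k (t 6 1 r) (k (t 6 1 (c 3 4092 v (u 4 0 (k r r)))) r))))
 (.s 0xe7d5e01d10 4084 (n false (z 99) (n true (n false (n false e e) (n false e e)) e)) (u 2 0 (k (c 6 4096 r r) (k (c 6 4096 r r) (k (c 6 4096 r (u 4 1 (k v (k (c 12 4097 r (u 8 0 (k v (k v r)))) r)))) (k (c 6 4096 r r) (k (c 6 4096 r r) r))))))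
 .z .z) (.s 0xe7d7601d10 4082 (n false (z 83) (n true (n false (n false e e) (n false e e)) e)) (u 2 4 (k v (k v (k (t 6 1 r) r))))
 .z .z)) (.s 0xe7dd601d10 4082 (n false (z 75) (n true (n false (n false e e) (n false e e)) e)) (u 2 10 (k v (k v (k (t 6 2 r) r))))
 (.s 0xe7dd601708 4082 (n false (z 75) (n false (n true (n false e e) e) (n false e e))) (u 2 16 (k v (k (t 6 3 (u 4 30 (k v (k v (k v (k (u 8 2 (k v (k v r))) (k (u 8 38 (k v (k v (k v (k v r))))) (k (u 8 2 (k v (k (c 24 4099 r (u 16 1 (k v (k v r)))) (k (c 16 4095 r (u 24 0 (k v (k v r)))) r)))) r)))))))) (k (c 3 4092 v (u 4 0 (k r r))) r))))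
 .z .z) .z)) (.s 0xe7dde01708 4076 (n false (z 107) (n false (n true (n false e e) e) (n false e e))) (u 2 3 (k v (k (t 6 2 r) (k (u 4 3 (k v (k (c 12 4099 r (u 8 4 (k v (k v r)))) r))) (k (t 6 1 (u 4 0 (k (u 8 0 (k v (k v r))) r))) r)))))
 (.s 0xe7ddc01d40 4090 (n false (n true (n false (n false (n false e e) e) e) e) (z 43)) (u 3 3 (k v (k v (k v (k (u 5 1 (k v (k v r))) (k r (k (u 5 0 (k (u 9 0 (k v (k v r))) r)) (k r (k (u 5 1 (k v (k (c 13 4099 r (u 9 1 (k v (k v r)))) (k (c 9 4098 r (u 13 1 (k v (k v r)))) (k (c 9 4097 r (u 13 1 (k v (k v r)))) (k (c 9 4099 r (u 13 1 (k v (k v r)))) (k (c 9 4095 r (u 13 0 (k v (k v r)))) r))))))) r)))))))))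
 (.s 0xe7ddc01d10 4084 (n false (z 43) (n true (n false (n false e e) (n false e e)) e)) (u 2 4 (k v (k v (k v (k r (k r (k (u 4 0 (k (u 8 0 (k v (k v r))) r)) (k r (k r r)))))))))
 .z .z) (.s 0xe7ddc01f40 4089 (n false (n true (n true (n false (n false e e) e) e) e) (z 43)) (u 3 3 (k v (k v (k v (k (u 5 1 (k v (k v r))) (k r (k (u 5 0 (k (u 9 0 (k v (k v r))) r)) (k r (k r r)))))))))
 .z .z)) (.s 0xe7dfc01d10 4082 (n false (z 59) (n true (n false (n false e e) (n false e e)) e)) (u 2 0 (k (t 6 1 (u 4 2 (k v (k (c 2 4083 (u 4 1 (k v (k v r))) v) r)))) r))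
 (.s 0xe7df601d10 4082 (n false (z 91) (n true (n false (n false e e) (n false e e)) e)) (u 2 1 (k v (k v (k v (k (u 4 0 (k v (k v r))) (k (c 4 4097 r (u 6 0 (k v (k v r)))) (k (c 4 4095 r (u 6 0 (k v (k v r)))) r)))))))
 .z .z) .z))))

set_option maxRecDepth 100000 in
def N20 : NT :=
(.s 0xe7fd401708 4089 (n false (n false (n true (n false e e) e) (n false e e)) (z 15)) (u 3 0 (k v (k (u 5 0 (k (u 9 0 (k v (k v r))) r)) r)))
 (.s 0xe7f5e01d10 4084 (n false (z 103) (n true (n false (n false e e) (n false e e)) e)) (u 2 7 (k v (k (t 4 2 r) (k (t 6 1 r) (k (t 4 1 r) r)))))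
 (.s 0xe7f5500288 4089 (n false (z 135) (n false (n false e e) (n false e e))) (u 2 1 (k v (k (u 4 0 (k (u 6 16 (k v (k v (k (u 10 1 (k v (k v r))) (k (c 14 4099 r (u 10 0 (k (u 18 0 (k v (k v r))) r))) (k (c 2 4069 r v) (k (u 10 47 (k v (k v (k v (k v (k (c 26 4099 r (u 18 1 (k v (k v r)))) r)))))) (k (u 10 29 (k v (k v (k v (k (c 26 4099 r (u 18 1 (k v (k v r)))) (k (c 18 4099 r (u 26 1 (k v (k v r)))) r)))))) r)))))))) (k (c 6 4100 r v) r))) (k (c 4 4098 r (u 6 0 (k v (k v r)))) r))))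
 (.s 0xe7dfe01d10 4083 (n false (z 123) (n true (n false (n false e e) (n false e e)) e)) (u 2 6 (k v (k v (k v (k (c 6 4099 r r) (k r r))))))
 (.s 0xe7dfe01708 4083 (n false (z 123) (n false (n true (n false e e) e) (n false e e))) (u 2 11 (k v (k r (k r (k (t 6 2 r) (k r (k (t 6 2 r) (k (t 6 1 r) (k (t 6 2 r) (k (t 6 1 r) r))))))))))
 .z .z) (.s 0xe7dfe01f40 4088 (n false (z 123) (n true (n true (n false (n false e e) e) e) e)) (u 2 32 (k v (k v (k v (k r (k r (k (t 6 1 r) (k r r))))))))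
 .z .z)) (.s 0xe7f5601d10 4085 (n false (z 71) (n true (n false (n false e e) (n false e e)) e)) (u 2 7 (k v (k v (k v (k (c 6 4099 r (u 4 1 (k v (k v r)))) r)))))
 (.s 0xe7f5601708 4085 (n false (z 71) (n false (n true (n false e e) e) (n false e e))) (u 2 17 (k r (k (t 6 1 r) (k (t 6 1 r) (k (t 6 1 r) (k r (k (t 6 1 r) r)))))))
 .z .z) (.s 0xe7f5e01708 4075 (n false (z 103) (n false (n true (n false e e) e) (n false e e))) (u 2 8 (k (t 4 1 r) (k (t 6 1 r) (k (t 6 1 r) (k (t 6 2 r) r)))))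
 .z .z))) (.s 0xe7f7e01708 4072 (n false (z 119) (n false (n true (n false e e) e) (n false e e))) (u 2 1 (k r (k (t 6 2 r) (k (t 6 1 r) (k r (k r (k (u 6 1 (k r (k (c 14 4097 r (u 10 0 (k r (k r r)))) r))) (k (u 6 0 (k (t 10 3 (t 14 1 (u 4 0 (k (u 8 0 (k v (k v r))) r)))) r)) (k r (k r (k r (k r (k r (k r r))))))))))))))
 (.s 0xe7f7c01d10 4082 (n false (z 55) (n true (n false (n false e e) (n false e e)) e)) (u 2 4 (k (t 6 1 r) (k (t 6 2 (u 4 2 (k v (k (c 3 4092 v (u 8 1 (k v (k v r)))) r)))) r)))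
 (.s 0xe7f7c01708 4085 (n false (z 55) (n false (n true (n false e e) e) (n false e e))) (u 2 4 (k (t 6 1 r) (k (c 3 4092 v (t 6 2 r)) r)))
 .z .z) (.s 0xe7f7e01510 4088 (n false (z 119) (n false (n false (n false e e) (n false e e)) e)) (u 2 26 (k v (k (c 6 4101 r r) (k (c 4 4101 r r) (k (c 4 4101 r r) r)))))
 .z .z)) (.s 0xe7f7e01f40 4090 (n false (z 119) (n true (n true (n false (n false e e) e) e) e)) (u 2 4 (k v (k v (k (c 4 4097 r (u 6 1 (k v (k v r)))) (k (c 4 4097 r r) (k (c 4 4097 r (u 6 2 (k v (k (c 14 4097 r (u 10 0 (k v (k v r)))) r)))) (k (c 6 4096 r (u 4 0 (k (u 8 0 (k v (k v r))) r))) (k (c 6 4097 r r) (k (c 6 4097 r r) (k (c 6 4097 r r) (k (c 6 4097 r r) (k (c 6 4097 r r) (k (c 6 4097 r r) r)))))))))))))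
 (.s 0xe7f7e01d10 4084 (n false (z 119) (n true (n false (n false e e) (n false e e)) e)) (u 2 18 (k v (k v (k (c 6 4101 r r) (k (c 6 4099 r r) (k (c 6 4097 r r) (k (c 6 4096 r (u 4 0 (k (u 8 0 (k v (k v r))) r))) (k (c 4 4098 r r) (k (c 4 4101 r r) (k (c 4 4099 r r) (k (c 4 4101 r r) r)))))))))))
 .z .z) .z))) (.s 0xe95df002a0 4088 (n false (n false (z 52) e) (n false (n false (n false e e) e) e)) (u 4 85 (k v (k v (k v (k v (k v (k (t 12 1 (u 8 0 (k v (k v r)))) r)))))))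
 (.s 0xe7ff601708 4085 (n false (z 95) (n false (n true (n false e e) e) (n false e e))) (u 2 0 (k (u 6 13 (k r (k r r))) (k (u 6 13 (k r (k r r))) (k (u 4 0 (k r (k (c 12 4099 r r) r))) r))))
 (.s 0xe7fd601708 4090 (n false (z 79) (n false (n true (n false e e) e) (n false e e))) (u 2 2 (k v (k r (k (c 4 4100 r (u 6 0 (k (u 10 0 (k v (k v r))) r))) r))))
 (.s 0xe7fd500288 4083 (n false (z 143) (n false (n false e e) (n false e e))) (u 2 1 (k (c 6 4096 r r) (k (c 6 4096 r r) (k (c 4 4098 r r) (k (c 6 4097 r r) (k (c 6 4096 r r) (k (c 6 4098 r r) r)))))))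
 .z .z) (.s 0xe7fde01708 4081 (n false (z 111) (n false (n true (n false e e) e) (n false e e))) (u 2 1 (k (t 6 3 r) (k (t 6 3 (u 4 0 (k (u 8 0 (k v (k v r))) r))) (k (u 4 25 (k r (k r (k r (k (u 8 0 (k r (k r r))) (k (u 8 0 (k r (k r r))) (k (c 12 4097 r (u 8 0 (k r (k r r)))) r))))))) (k (u 6 2 (k r (k r r))) (k (u 4 23 (k (u 6 0 (k (u 10 0 (k v (k v r))) r)) (k (u 6 0 (k (u 10 0 (k v (k v r))) r)) r))) r))))))
 .z .z)) (.s 0xe95df00288 4080 (n false (n false (z 52) e) (n false (n false e e) (n false e e))) (u 4 31 (k v (k v (k v (k v (k v (k v (k v (k (c 2 4081 r v) (k (t 12 2 (u 8 0 (k (u 16 2 (k v (k (c 2 4078 (u 16 1 (k v (k v r))) v) r))) r))) (k (t 12 1 (u 8 0 (k (c 24 4099 r (u 16 2 (k v (k (c 2 4078 (u 16 1 (k v (k v r))) v) r)))) r))) r)))))))))))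
 (.s 0xe955f00450 4091 (n false (n false (z 48) (n false e e)) (n false (n false e e) e)) (u 4 1 (k v (k (c 12 4099 r (t 8 3 v)) (k (u 8 4 (k v (k (t 24 1 (u 16 4 (k v (k v r)))) r))) (k r r)))))
 .z .z) .z)) (.s 0xe95ff80450 4082 (n false (n false (z 124) (n false e e)) (n false (n false e e) e)) (u 4 1 (k v (k (c 12 4097 r (u 8 1 (k v (k v r)))) (k (c 12 4096 r (u 8 1 (k v (k v r)))) (k (c 8 4098 r (u 12 0 (k v (k v r)))) (k (c 12 4096 r (u 8 1 (k v (k v r)))) (k (c 12 4097 r (u 8 1 (k v (k v r)))) (k (c 12 4097 r (u 8 1 (k v (k v r)))) (k (c 12 4096 r (u 8 1 (k v (k v r)))) (k (c 12 4099 r (u 8 1 (k v (k v r)))) (k (c 8 4097 r (u 12 1 (k v (k v r)))) r)))))))))))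
 (.s 0xe95f7803a0 4090 (n false (n false (z 108) e) (n true (n false (n false e e) e) e)) (u 4 0 (k (t 12 2 (u 8 0 (k (c 24 4099 r (u 16 0 (k v (k (u 32 4 (k v (k v r))) (k (c 48 4099 r (u 32 0 (k (u 64 0 (k v (k v r))) r))) (k (u 32 9 (k v (k v (k (u 64 1 (k v (k v r))) r)))) (k (c 2 4069 r v) (k (u 32 0 (k (u 64 0 (k v (k v r))) r)) (k (u 32 41 (k v (k v (k v (k v r))))) (k (u 32 2 (k v (k (c 96 4099 r (u 64 1 (k v (k v r)))) (k (c 64 4095 r (u 96 0 (k v (k v r)))) r)))) r)))))))))) r))) r))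
 (.s 0xe95df003a0 4086 (n false (n true (n false (n false e e) e) e) (n false (z 52) e)) (u 5 10 (k v (k v (k v (k v (k v (k (t 13 1 (u 9 0 (k v (k v r)))) r)))))))
 .z .z) (.s 0xe95fd40050 4073 (n false (n false (z 156) e) (n false (n false e e) e)) (u 4 1 (k v (k (c 12 4099 r (u 8 1 (k v (k v r)))) (k (c 8 4098 r (u 12 1 (k v (k v r)))) (k (c 8 4097 r (u 12 1 (k v (k v r)))) (k (c 8 4099 r (u 12 1 (k v (k v r)))) (k (c 8 4095 r (c 3 4094 v r)) r)))))))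
 .z .z)) (.s 0xe975f00450 4080 (n false (n false (z 50) (n false e e)) (n false (n false e e) e)) (u 4 1 (k v (k (c 12 4097 r (u 8 0 (k v (k v r)))) r)))
 (.s 0xe95ff80740 4082 (n false (n false (z 124) (n true (n false (n false e e) e) e)) e) (u 4 1 (k v (k (c 12 4097 r (u 8 1 (k v (k v r)))) (k (c 12 4096 r (u 8 1 (k v (k v r)))) (k (c 8 4098 r (u 12 0 (k v (k v r)))) (k (c 12 4096 r (u 8 1 (k v (k v r)))) (k (c 12 4097 r (u 8 1 (k v (k v r)))) (k (c 12 4097 r (u 8 1 (k v (k v r)))) (k (c 12 4096 r (u 8 1 (k v (k v r)))) (k (c 12 4099 r (u 8 1 (k v (k v r)))) (k (c 8 4097 r (u 12 1 (k v (k v r)))) r)))))))))))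
 .z .z) .z))))

set_option maxRecDepth 100000 in
def N21 : NT :=
(.s 0xe9f5700288 4085 (n false (n false (z 35) e) (n false (n false e e) (n false e e))) (u 4 1 (k v (k v (k v (k (t 12 1 (u 8 0 (k (t 16 3 (t 24 1 v)) r))) r)))))
 (.s 0xe9dd580288 4088 (n false (n false (z 69) e) (n false (n false e e) (n false e e))) (u 4 8 (k v (k v (k (t 12 3 (u 8 2 (k v (k v r)))) (k (t 12 2 (u 8 0 (k v (k (c 24 4099 r (u 16 15 (k v (k v (k v r))))) r)))) r)))))
 (.s 0xe9d7d803a0 4089 (n false (n false (z 89) e) (n true (n false (n false e e) e) e)) (u 4 0 (k v (k v (k v (k (t 12 2 r) r)))))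
 (.s 0xe97f700740 4082 (n false (n false (z 46) (n true (n false (n false e e) e) e)) e) (u 4 1 (k v (k (u 8 1 (k v (k v r))) (k (c 12 4099 r (u 8 0 (k v (k v r)))) (k (u 8 1 (k v (k v r))) (k (c 12 4097 r (u 8 1 (k v (k v r)))) (k (c 8 4095 r (u 12 1 (k v (k v r)))) r)))))))
 (.s 0xe97f700540 4083 (n false (n false (z 46) (n false (n false (n false e e) e) e)) e) (u 4 1 (k v (k (u 8 1 (k v (k v r))) (k (c 12 4099 r (u 8 0 (k v (k v r)))) (k (u 8 1 (k v (k v r))) (k (c 12 4097 r (u 8 1 (k v (k v r)))) (k (c 8 4095 r (u 12 1 (k v (k v r)))) r)))))))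
 .z .z) (.s 0xe97ff80288 4088 (n false (n false (z 126) e) (n false (n false e e) (n false e e))) (u 4 3 (k v (k (t 12 1 (u 8 20 (k v (k v (k (c 8 4092 r v) (k (c 16 4099 r (c 8 4092 r v)) r)))))) (k (c 2 4091 (t 6 1 r) v) r))))
 .z .z)) (.s 0xe9d7f80450 4084 (n false (n false (z 121) (n false e e)) (n false (n false e e) e)) (u 4 1 (k v (k (c 12 4099 r (u 8 1 (k v (k v r)))) (k (c 8 4097 r (u 12 1 (k v (k v r)))) (k (c 8 4095 r (c 3 4094 v r)) (k (c 8 4095 r (c 3 4094 v r)) r))))))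
 (.s 0xe9d7f80288 4086 (n false (n false (z 121) e) (n false (n false e e) (n false e e))) (u 4 2 (k v (k v (k (c 12 4099 r (u 8 1 (k v (k v r)))) (k (c 8 4095 r (u 12 0 (k v (k v r)))) (k (c 8 4095 r (u 12 0 (k v (k v r)))) r))))))
 .z .z) (.s 0xe9d7f80740 4084 (n false (n false (z 121) (n true (n false (n false e e) e) e)) e) (u 4 1 (k v (k (c 12 4099 r (u 8 1 (k v (k v r)))) (k (c 8 4097 r (u 12 1 (k v (k v r)))) (k (c 8 4095 r (c 10 4094 v r)) (k (c 8 4095 r (c 10 4094 v r)) r))))))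
 .z .z))) (.s 0xe9ddd80450 4082 (n false (n false (z 85) (n false e e)) (n false (n false e e) e)) (u 4 4 (k v (k (c 12 4099 r r) (k (c 12 4099 r r) (k (c 12 4099 r (u 8 1 (k v (k v (k v (k (t 24 1 r) r)))))) (k (u 8 2 (k v (k v (k v (k (t 24 2 (u 16 6 (k v (k v (k (t 48 1 (u 32 0 (k v (k v r)))) r))))) r))))) (k (c 12 4096 r r) (k (c 8 4099 r r) r))))))))
 (.s 0xe9dd700740 4084 (n false (n false (n true (n false (n false e e) e) e) (z 37)) e) (u 6 29 (k v (k (u 10 2 (k v (k v (k v (k (t 26 1 (u 18 0 (k (t 34 3 (t 50 1 v)) r))) r))))) (k (u 10 3 (k v (k v r))) (k (u 10 0 (k (t 18 3 (t 26 1 v)) r)) (k (u 10 0 (k (t 18 3 (t 26 1 v)) r)) (k r r)))))))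
 (.s 0xe9dd700450 4085 (n false (n false (z 37) (n false e e)) (n false (n false e e) e)) (u 4 0 (k v (k (c 3 4094 v (u 8 0 (k (t 16 3 (t 24 1 v)) r))) (k (u 8 0 (k (t 16 3 (t 24 1 v)) r)) (k (u 8 2 (k v (k v (k v (k (t 24 1 (u 16 0 (k (t 32 3 (t 48 1 v)) r))) r))))) (k (u 8 2 (k v (k v (k v (k (t 24 1 (u 16 0 (k (t 32 3 (t 48 1 v)) r))) r))))) (k (u 8 3 (k v (k v r))) r)))))))
 .z .z) (.s 0xe9ddd40088 4087 (n false (n false (z 149) (n false e e)) (n false e e)) (u 4 1 (k (c 12 4099 r r) (k (u 8 0 (k (t 16 1 r) (k (t 24 1 r) (k (t 24 1 r) r)))) (k (c 12 4097 r r) (k (c 12 4096 r r) (k (t 8 1 (c 2 4076 (u 6 0 (k r r)) v)) (k (t 8 2 (c 2 4076 (u 6 0 (k r r)) v)) (k (c 2 4078 (u 6 0 (k (t 4 1 r) r)) v) (k (c 12 4098 r r) r)))))))))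
 .z .z)) (.s 0xe9ddf00288 4088 (n false (n false (z 53) e) (n false (n false e e) (n false e e))) (u 4 0 (k (t 12 1 (u 8 14 (k v (k v (k v (k (u 16 15 (k v (k v (k v r)))) (k (c 2 4090 r v) (k (c 24 4097 r (u 16 15 (k v (k v (k v r))))) r)))))))) (k (t 12 1 (u 8 23 (k v (k v (k v (k (c 2 4088 r v) r)))))) r)))
 (.s 0xe9ddd80740 4082 (n false (n false (z 85) (n true (n false (n false e e) e) e)) e) (u 4 2 (k v (k r (k (c 12 4099 r r) (k (c 12 4099 r r) (k (c 12 4099 r (u 8 1 (k v (k v (k v (k (t 24 1 (u 16 6 (k v (k v (k (t 48 1 (u 32 0 (k v (k v r)))) r))))) r)))))) (k (c 12 4096 r r) (k (c 8 4099 r r) r))))))))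
 .z .z) .z))) (.s 0xea555d0010 4086 (n false (n false (n false (z 160) e) (n false e e)) e) (u 8 3 (k v (k (t 24 3 (u 16 1 (k v (k (c 48 4099 r (u 32 1 (k v (k v r)))) (k (c 32 4098 r (u 48 1 (k v (k v r)))) (k (c 32 4097 r (u 48 1 (k v (k v r)))) (k (c 32 4099 r (u 48 1 (k v (k v r)))) (k (c 32 4095 r (u 48 0 (k v (k v r)))) r)))))))) (k (c 16 4100 r r) (k (c 24 4099 r r) (k (c 24 4100 r r) (k (c 24 4099 r r) (k (c 16 4097 r r) (k (c 24 4097 r r) (k (c 16 4098 r r) r))))))))))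
 (.s 0xe9fd580288 4085 (n false (n false (z 71) e) (n false (n false e e) (n false e e))) (u 4 7 (k v (k v (k v (k (c 12 4099 r (u 8 1 (k v (k v r)))) r)))))
 (.s 0xe9f7d80540 4083 (n false (n false (z 91) (n false (n false (n false e e) e) e)) e) (u 4 2 (k v (k v (k (u 8 1 (k v (k v r))) (k (c 8 4097 r (u 12 0 (k v (k v r)))) (k (c 8 4097 r (u 12 0 (k v (k v r)))) (k (c 8 4096 r (u 12 0 (k v (k v r)))) (k (c 8 4095 r (u 12 0 (k v (k v r)))) r))))))))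
 (.s 0xe9f7d80450 4081 (n false (n false (z 91) (n false e e)) (n false (n false e e) e)) (u 4 2 (k v (k v (k (u 8 1 (k v (k v r))) (k (c 8 4097 r (u 12 0 (k v (k v r)))) (k (c 8 4097 r (u 12 0 (k v (k v r)))) (k (c 8 4096 r (u 12 0 (k v (k v r)))) (k (c 8 4095 r (u 12 0 (k v (k v r)))) r))))))))
 .z .z) (.s 0xe9f7d80740 4081 (n false (n false (z 91) (n true (n false (n false e e) e) e)) e) (u 4 2 (k v (k v (k (u 8 1 (k v (k v r))) (k (c 8 4097 r (u 12 0 (k v (k v r)))) (k (c 8 4097 r (u 12 0 (k v (k v r)))) (k (c 8 4096 r (u 12 0 (k v (k v r)))) (k (c 8 4095 r (u 12 0 (k v (k v r)))) r))))))))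
 .z .z)) (.s 0xe9fdf802a0 4091 (n false (n false (z 119) e) (n false (n false (n false e e) e) e)) (u 4 30 (k v (k v (k v (k (c 8 4097 r (u 12 1 (k v (k v r)))) (k (c 8 4097 r r) (k (c 8 4097 r (u 12 2 (k v (k (c 28 4097 r (u 20 0 (k v (k v r)))) r)))) (k (c 12 4097 r r) (k (c 12 4097 r r) (k (c 12 4097 r r) (k (c 12 4097 r r) r)))))))))))
 (.s 0xe9fd580450 4085 (n false (n false (z 71) (n false e e)) (n false (n false e e) e)) (u 4 1 (k v (k (c 12 4099 r (u 8 1 (k v (k v r)))) (k (c 3 4094 v r) (k (c 8 4099 r (u 12 1 (k v (k v r)))) (k (c 8 4099 r (u 12 1 (k v (k v r)))) (k (c 8 4099 r (u 12 1 (k v (k v r)))) r)))))))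
 .z .z) .z)) (.s 0xea5ddc00e0 4083 (n false (n false (n false (z 42) e) (n true (n false e e) e)) e) (u 8 5 (k v (k r (k r (k (c 4 4087 (t 6 1 r) v) (k (u 16 7 (k v (k (u 32 7 (k v (k v (k v (k v r))))) (k (u 32 4 (k v (k v (k v (k v r))))) (k (c 4 4087 r v) r))))) (k (c 4 4087 r v) r)))))))
 (.s 0xea55fe00e0 4083 (n false (n false (n false (z 120) e) (n true (n false e e) e)) e) (u 8 4 (k (t 24 2 r) (k (t 24 1 r) (k (t 24 2 r) (k (t 24 1 r) (k (t 16 1 r) (k (t 24 1 r) (k (t 16 4 r) (k r (k (c 4 4088 (t 6 1 (u 4 0 (k r r))) v) (k (t 24 1 (u 16 0 (k (u 32 0 (k v (k v r))) r))) (k (t 16 1 r) (k (t 16 1 r) (k (t 24 1 r) (k (t 24 1 r) (k (t 24 2 r) (k (t 16 1 r) (k (t 16 1 r) (k (t 24 1 r) r)))))))))))))))))))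
 (.s 0xea55fe0088 4079 (n false (n false (n false (z 120) e) (n false e e)) (n false e e)) (u 8 4 (k (t 24 2 r) (k (t 24 1 r) (k (t 24 2 r) (k (t 24 1 r) (k (t 16 1 r) (k (t 24 1 r) (k (t 16 4 r) (k r (k (t 24 1 (u 16 0 (k (u 32 0 (k v (k v r))) r))) (k (t 24 1 (u 16 0 (k (u 32 0 (k v (k v r))) r))) (k (t 16 1 r) (k (t 16 1 r) (k (t 24 1 r) (k (t 24 1 r) (k (t 24 2 r) (k (t 16 1 r) (k (t 16 1 r) (k (t 24 1 r) r)))))))))))))))))))
 .z .z) (.s 0xea57f50010 4085 (n false (n false (n false (z 156) e) (n false e e)) e) (u 8 1 (k v (k (c 24 4099 r (u 16 1 (k v (k v r)))) (k (c 16 4098 r (u 24 1 (k v (k v r)))) (k (c 16 4097 r (u 24 1 (k v (k v r)))) (k (c 16 4099 r (u 24 1 (k v (k v r)))) (k (c 16 4095 r (u 24 0 (k v (k v r)))) r)))))))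
 .z .z)) (.s 0xea5ffe0088 4086 (n false (n false (n false (z 126) e) (n false e e)) (n false e e)) (u 8 1 (k v (k (t 24 1 r) (k (t 24 1 (u 16 4 (k v (k (c 48 4099 r (u 32 2 (k v (k v (k v (k (t 96 2 r) r)))))) (k (c 4 4085 r v) (k (c 4 4085 r v) (k (c 32 4096 r (u 48 1 (k v (k v r)))) (k (c 48 4097 r (c 4 4085 r v)) r)))))))) r))))
 (.s 0xea5df40088 4086 (n false (n false (n false (z 26) e) (n false e e)) (n false e e)) (u 8 2 (k v (k (c 2 4088 r v) r)))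
 .z .z) .z))))

set_option maxRecDepth 100000 in
def N22 : NT :=
(.s 0xeb95df0010 4080 (n false (n false (n false (n true (z 52) e) e) (n false e e)) e) (u 16 31 (k v (k v (k v (k v (k v (k v (k v (k (c 8 4081 r v) (k (t 48 2 (u 32 0 (k (u 64 2 (k v (k (c 8 4078 (u 16 1 (k v (k v r))) v) r))) r))) (k (t 48 1 (u 32 0 (k (c 96 4099 r (u 64 2 (k v (k (c 8 4078 (u 16 1 (k v (k v r))) v) r)))) r))) r)))))))))))
 (.s 0xea7f7e00e0 4084 (n false (n false (n false (z 119) e) (n true (n false e e) e)) e) (u 8 28 (k r (k r (k (t 16 1 r) (k (t 24 2 r) (k (t 24 1 r) (k (t 16 4 r) (k (t 16 1 r) (k (t 16 1 r) (k (c 4 4088 (t 6 2 (u 4 0 (k r r))) v) (k (t 24 1 r) (k (t 24 4 r) (k (t 24 1 r) (k (t 24 4 r) r))))))))))))))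
 (.s 0xea7d5600e0 4084 (n false (n false (n false (z 67) e) (n true (n false e e) e)) e) (u 8 6 (k v (k r (k (t 24 2 r) (k (c 16 4096 r (u 24 0 (k (u 40 0 (k v (k v r))) r))) (k (c 16 4096 r (u 24 0 (k (u 40 0 (k v (k v r))) r))) (k (t 24 1 r) (k (t 24 2 r) (k (t 24 1 r) (k (t 24 2 r) (k (t 16 2 r) (k (t 24 2 (u 16 0 (k (u 32 0 (k v (k v r))) r))) (k (t 16 1 r) (k (t 24 2 r) (k (t 16 1 (u 24 0 (k (u 40 0 (k v (k v r))) r))) (k r (k (t 24 2 r) (k (t 24 1 r) (k (t 24 2 r) (k (t 24 2 r) (k (t 24 1 r) r)))))))))))))))))))))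
 (.s 0xea777c0088 4088 (n false (n false (n false (z 53) e) (n false e e)) (n false e e)) (u 8 0 (k (t 24 1 (u 16 1 (k v (k (u 32 1 (k v (k v r))) (k (c 48 4099 r (u 32 0 (k v (k v r)))) (k (u 32 1 (k v (k v r))) (k (c 48 4097 r (u 32 1 (k v (k v r)))) (k (c 32 4095 r (u 48 1 (k v (k v r)))) r)))))))) (k (t 24 1 r) r)))
 (.s 0xea75f600e0 4081 (n false (n false (n false (z 89) e) (n true (n false e e) e)) e) (u 8 13 (k v (k v (k v (k v (k (t 24 3 (u 16 74 (k v (k v (k v (k v r)))))) (k (t 24 2 r) (k (t 24 1 r) r))))))))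
 .z .z) (.s 0xea7d560088 4078 (n false (n false (n false (z 67) e) (n false e e)) (n false e e)) (u 8 3 (k v (k (t 24 2 r) (k (t 16 2 (u 24 0 (k (u 40 0 (k v (k v r))) r))) (k (t 16 1 (u 24 0 (k (u 40 0 (k v (k v r))) r))) (k (t 24 1 r) (k (t 24 2 r) (k r (k (t 24 1 r) (k (t 24 2 r) (k (t 16 2 r) (k (t 24 2 (u 16 0 (k (u 32 0 (k v (k v r))) r))) (k (t 16 1 r) (k (t 24 2 r) (k (t 16 1 (u 24 0 (k (u 40 0 (k v (k v r))) r))) (k r (k (t 24 2 r) (k (t 24 1 r) (k (t 24 2 r) (k (t 24 2 r) (k (t 24 1 r) r)))))))))))))))))))))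
 .z .z)) (.s 0xea7f7c0088 4085 (n false (n false (n false (z 55) e) (n false e e)) (n false e e)) (u 8 4 (k (t 24 1 (u 16 14 (k v (k (c 48 4099 r (t 32 3 v)) (k (u 32 4 (k v (k (t 96 1 (u 64 4 (k v (k v r)))) r))) (k (u 32 4 (k v (k (t 96 1 (u 64 2 (k v (k v r)))) r))) (k r (k r r)))))))) (k (c 4 4091 (t 6 2 r) v) r)))
 (.s 0xea7f5e0088 4082 (n false (n false (n false (z 103) e) (n false e e)) (n false e e)) (u 8 3 (k (t 16 1 r) (k (t 24 2 r) (k (t 24 1 r) (k (t 24 1 r) r)))))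
 .z .z) (.s 0xea7f7e0088 4085 (n false (n false (n false (z 119) e) (n false e e)) (n false e e)) (u 8 28 (k r (k r (k (t 16 1 r) (k (t 24 2 r) (k (t 24 1 r) (k (t 16 4 r) (k (t 16 1 r) (k (t 16 1 r) (k (c 4 4088 (t 6 2 (u 4 0 (k r r))) v) (k (t 24 1 r) (k (t 24 4 r) (k (t 24 1 r) (k (t 24 4 r) r))))))))))))))
 .z .z))) (.s 0xea9f570010 4085 (n false (n false (n false (n false (z 35) e) e) (n false e e)) e) (u 16 1 (k v (k v (k v (k (t 48 1 (u 32 0 (k (t 64 3 (t 96 1 v)) r))) r)))))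
 (.s 0xea97ff8020 4082 (n false (n false (n false (n false (z 126) e) (n false e e)) e) e) (u 16 1 (k v (k (t 48 1 r) (k (t 48 1 r) r))))
 (.s 0xea957f8020 4086 (n false (n false (n false (n false (z 120) e) (n false e e)) e) e) (u 16 4 (k (t 48 2 r) (k (t 48 2 (u 32 1 (k v (k (c 96 4097 r (u 64 0 (k v (k v r)))) r)))) (k (t 48 2 r) (k r (k (t 32 1 r) (k (t 48 1 r) (k (c 32 4097 r r) (k (c 8 4088 (t 6 1 r) v) (k (c 8 4088 (t 6 1 (u 4 0 (k r r))) v) (k (t 48 1 (u 32 0 (k (u 64 0 (k v (k v r))) r))) (k (t 32 1 r) (k (t 32 1 r) (k (t 48 1 r) (k (t 48 1 r) (k (t 48 2 r) (k (c 32 4095 r r) (k (t 32 1 r) (k (t 48 1 r) r)))))))))))))))))))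
 .z .z) (.s 0xea9f558020 4088 (n false (n false (n false (n false (z 67) e) (n false e e)) e) e) (u 16 3 (k v (k (t 48 2 r) (k (c 32 4096 r (u 48 0 (k (u 80 0 (k v (k v r))) r))) (k (c 32 4096 r (u 48 0 (k (u 80 0 (k v (k v r))) r))) (k (t 48 1 r) (k (t 48 2 r) (k (c 8 4088 r v) (k (c 48 4097 r r) (k (c 48 4099 r r) (k (t 32 2 r) (k (c 8 4091 (t 6 2 (u 4 0 (k r r))) v) (k (t 32 1 r) (k (t 48 2 r) (k (c 8 4091 (t 4 1 (u 6 0 (k r r))) v) (k (t 48 2 (c 8 4086 r v)) (k (t 48 2 r) (k (t 48 1 r) (k (t 48 2 r) (k (t 48 2 r) (k (t 48 1 r) r)))))))))))))))))))))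
 .z .z)) (.s 0xeb957f0010 4083 (n false (n false (n false (n true (z 56) e) e) (n false e e)) e) (u 16 1 (k (u 32 1 (k v (k v r))) (k (u 32 28 (k v (k v (k v (k v (k v (k v (k v (k v r))))))))) (k (c 32 4096 r (u 48 0 (k v (k v r)))) (k (c 48 4096 r r) r)))))
 (.s 0xea9fd58010 4086 (n false (n false (n false (n false (z 71) e) e) (n false e e)) e) (u 16 7 (k v (k v (k v (k (c 48 4099 r (u 32 1 (k v (k v r)))) r)))))
 .z .z) .z))) (.s 0xeb9dd70010 4084 (n false (n false (n false (n true (z 37) e) e) (n false e e)) e) (u 16 0 (k v (k (u 32 0 (k (t 64 3 (t 96 1 v)) r)) (k (u 32 0 (k (t 64 3 (t 96 1 v)) r)) (k (u 32 2 (k v (k v (k v (k (t 96 1 (u 64 0 (k (t 128 3 (t 192 1 v)) r))) r))))) (k (u 32 0 (k v (k v (k (t 96 1 (u 64 0 (k (t 128 3 (t 192 1 v)) r))) r)))) (k (c 8 4088 r v) r)))))))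
 (.s 0xeb97f70010 4083 (n false (n false (n false (n true (z 46) e) e) (n false e e)) e) (u 16 1 (k v (k (u 32 1 (k v (k v r))) (k (c 48 4099 r (u 32 0 (k v (k v r)))) (k (u 32 0 (k v (k v r))) (k (c 48 4097 r (u 32 1 (k v (k v r)))) (k (c 32 4095 r (u 48 1 (k v (k v r)))) r)))))))
 (.s 0xeb975f0010 4083 (n false (n false (n false (n true (z 50) e) e) (n false e e)) e) (u 16 1 (k v (k (c 48 4097 r (u 32 0 (k v (k v r)))) r)))
 (.s 0xeb95ff8010 4082 (n false (n false (n false (n true (z 124) e) e) (n false e e)) e) (u 16 2 (k v (k v (k (c 48 4097 r (u 32 1 (k v (k v r)))) (k (c 48 4096 r (u 32 1 (k v (k v r)))) (k (c 48 4097 r (u 32 1 (k v (k v r)))) (k (c 48 4099 r (u 32 1 (k v (k v r)))) r)))))))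
 .z .z) (.s 0xeb97770020 4085 (n false (n false (n false (n true (z 42) e) (n false e e)) e) e) (u 16 2 (k v (k (c 8 4087 (t 6 1 r) v) (k r (k (c 8 4087 r v) (k r (k r r)))))))
 .z .z)) (.s 0xeb9d7f8010 4084 (n false (n false (n false (n true (z 121) e) e) (n false e e)) e) (u 16 2 (k v (k v (k (c 48 4099 r (u 32 1 (k v (k v r)))) (k (c 32 4095 r (u 48 0 (k v (k v r)))) (k (c 32 4095 r (u 48 0 (k v (k v r)))) r))))))
 (.s 0xeb9d7d8020 4083 (n false (n false (n false (n true (z 89) e) (n false e e)) e) e) (u 16 13 (k v (k v (k v (k v (k (t 48 3 (u 32 26 (k v (k v (k v r))))) (k (t 48 2 (u 32 1 (k (u 64 1 (k v (k v r))) (k (u 64 159 (k v (k v (k v r)))) (k (c 64 4096 r (u 96 0 (k v (k v r)))) (k (c 96 4096 r (u 64 159 (k v (k v (k v r))))) r)))))) (k (t 48 1 (u 32 27 (k v (k v (k (c 8 4081 r v) (k (c 96 4096 r (c 8 4085 r v)) (k (c 64 4099 r (u 96 159 (k v (k v (k v r))))) r))))))) r))))))))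
 .z .z) .z)) (.s 0xeb9fd58010 4085 (n false (n false (n false (n true (z 71) e) e) (n false e e)) e) (u 16 7 (k v (k v (k v (k (c 48 4099 r (u 32 1 (k v (k v r)))) r)))))
 (.s 0xeb9df70020 4088 (n false (n false (n false (n true (z 45) e) (n false e e)) e) e) (u 16 4 (k v (k (t 48 1 (u 32 4 (k v (k v r)))) r)))
 (.s 0xeb9ddd8010 4082 (n false (n false (n false (n true (z 85) e) e) (n false e e)) e) (u 16 4 (k v (k (c 48 4099 r r) (k r (k (c 48 4099 r r) (k r (k (c 48 4096 r r) (k (c 32 4099 r r) r))))))))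
 .z .z) (.s 0xeb9f7d8010 4081 (n false (n false (n false (n true (z 91) e) e) (n false e e)) e) (u 16 1 (k v (k v (k v (k (u 32 0 (k v (k v r))) (k (c 32 4097 r (u 48 0 (k v (k v r)))) (k (c 32 4095 r (u 48 0 (k v (k v r)))) r)))))))
 .z .z)) (.s 0xeb9fdf8020 4087 (n false (n false (n false (n true (z 119) e) (n false e e)) e) e) (u 16 1 (k r (k (c 48 4096 r r) (k (c 48 4096 r r) (k (c 32 4097 r r) (k r (k (c 32 4097 r (u 48 1 (k v (k (c 112 4097 r (u 80 0 (k v (k v r)))) r)))) (k (c 8 4088 (t 6 2 (u 4 0 (k r r))) v) (k (c 48 4097 r r) (k (t 48 4 r) (k (t 48 1 r) (k (t 48 1 r) (k (t 48 4 r) (k (t 48 1 r) r))))))))))))))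
 (.s 0xeb9fdf8010 4085 (n false (n false (n false (n true (z 119) e) e) (n false e e)) e) (u 16 18 (k v (k v (k (c 48 4101 r r) (k (c 48 4099 r r) (k (c 48 4097 r r) (k (c 48 4096 r (u 32 0 (k (u 64 0 (k v (k v r))) r))) (k (c 32 4098 r r) (k (c 32 4101 r r) (k (c 32 4099 r r) (k (c 32 4101 r r) r)))))))))))
 .z .z) .z))))

set_option maxRecDepth 100000 in
def N23 : NT :=
(.s 0xee7ddc00e0 4089 (n false (n false (n true (z 43) e) (n true (n false e e) e)) e) (u 8 1 (k v (k r (k r (k (u 16 1 (k v (k v r))) (k (c 24 4099 r (u 16 0 (k (u 32 0 (k v (k v r))) r))) (k (u 16 0 (k (u 32 0 (k v (k v r))) r)) (k r (k r r)))))))))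
 (.s 0xee5df400e0 4086 (n false (n false (n true (z 26) e) (n true (n false e e) e)) e) (u 8 2 (k v (k (c 4 4084 (u 4 1 (k v (k v r))) v) r)))
 (.s 0xee577c0050 4076 (n false (n false (n true (z 52) e) e) (n false (n false e e) e)) (u 8 39 (k v (k v (k v (k v (k (t 24 1 (u 16 0 (k v (k v r)))) r))))))
 (.s 0xee55fe0088 4083 (n false (n false (n true (z 120) e) (n false e e)) (n false e e)) (u 8 4 (k (t 24 2 r) (k (t 24 1 r) (k (t 24 2 r) (k (t 24 1 r) (k (t 16 1 r) (k (t 24 1 r) (k (t 16 4 r) (k (t 24 1 r) (k (c 4 4088 (t 6 1 (u 4 0 (k r r))) v) (k (t 24 1 (u 16 0 (k (u 32 0 (k v (k v r))) r))) (k (t 16 1 r) (k (t 16 1 r) (k (t 24 1 r) (k (t 24 1 r) (k (t 24 2 r) (k (t 16 1 r) (k (t 16 1 r) (k (t 24 1 r) r)))))))))))))))))))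
 (.s 0xee555c0070 4085 (n false (n false (n true (z 32) e) e) (n true (n false e e) e)) (c 3 4094 v (u 8 0 (k (t 16 3 (t 24 1 v)) r)))
 .z .z) (.s 0xee575e0088 4083 (n false (n false (n true (z 100) e) (n false e e)) (n false e e)) (u 8 0 (k (t 24 1 r) (k (t 24 1 r) (k (t 24 1 r) (k (t 24 1 r) (k (t 24 1 r) (k (t 24 1 r) r)))))))
 .z .z)) (.s 0xee5ddc0088 4083 (n false (n false (n true (z 42) e) (n false e e)) (n false e e)) (u 8 27 (k v (k (c 4 4087 r v) (k r (k r (k (c 4 4087 (t 6 1 r) v) (k (u 16 26 (k v (k r (k r (k (u 32 5 (k v (k v r))) r))))) r)))))))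
 (.s 0xee57f50010 4085 (n false (n false (n true (z 156) e) (n false e e)) e) (u 8 1 (k v (k (c 24 4099 r (u 16 1 (k v (k v r)))) (k (c 16 4098 r (u 24 1 (k v (k v r)))) (k (c 16 4097 r (u 24 1 (k v (k v r)))) (k (c 16 4099 r (u 24 1 (k v (k v r)))) (k (c 16 4095 r (u 24 0 (k v (k v r)))) r)))))))
 .z .z) (.s 0xee5ddc00e0 4083 (n false (n false (n true (z 42) e) (n true (n false e e) e)) e) (u 8 6 (k v (k r (k r (k r (k (c 4 4087 (t 6 1 r) v) (k (c 4 4087 r v) r)))))))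
 .z .z))) (.s 0xee7d560088 4074 (n false (n false (n true (z 67) e) (n false e e)) (n false e e)) (u 8 3 (k v (k (t 24 2 r) (k (t 16 2 (u 24 0 (k (u 40 0 (k v (k v r))) r))) (k (t 16 1 (u 24 0 (k (u 40 0 (k v (k v r))) r))) (k (t 24 1 r) (k (t 24 2 r) (k r (k (t 24 1 r) (k (t 24 2 r) (k (t 16 2 r) (k (t 24 2 (u 16 0 (k (u 32 0 (k v (k v r))) r))) (k (t 16 1 r) (k (t 24 2 r) (k (t 16 1 (u 24 0 (k (u 40 0 (k v (k v r))) r))) (k (t 24 1 r) (k (t 24 2 r) (k (t 24 1 r) (k (t 24 2 r) (k (t 24 2 r) (k (t 24 1 r) r)))))))))))))))))))))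
 (.s 0xee75f60088 4082 (n false (n false (n true (z 89) e) (n false e e)) (n false e e)) (u 8 13 (k v (k v (k v (k v (k (t 24 3 (u 16 136 (k v (k v (k v (k v r)))))) (k (t 24 2 r) (k (t 24 1 r) r))))))))
 (.s 0xee5df60088 4088 (n false (n false (n true (z 90) e) (n false e e)) (n false e e)) (u 8 5 (k v (k r (k (c 24 4097 r (u 16 1 (k v (k (c 48 4097 r (u 32 0 (k v (k v r)))) r)))) (k r (k (c 16 4097 r (u 24 0 (k (u 40 0 (k v (k v r))) r))) (k (c 24 4097 r r) (k r (k (c 24 4095 r r) (k (c 16 4095 r r) r))))))))))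
 .z .z) (.s 0xee75f600e0 4081 (n false (n false (n true (z 89) e) (n true (n false e e) e)) e) (u 8 13 (k v (k v (k v (k v (k (t 24 3 (u 16 74 (k v (k v (k v (k v r)))))) (k (t 24 2 r) (k (t 24 1 r) r))))))))
 .z .z)) (.s 0xee7d5c0050 4085 (n false (n false (n true (z 35) e) e) (n false (n false e e) e)) (u 8 6 (k v (k v (k v (k v r)))))
 (.s 0xee7d5600e0 4080 (n false (n false (n true (z 67) e) (n true (n false e e) e)) e) (u 8 6 (k v (k r (k (t 24 2 r) (k (t 16 2 (u 24 0 (k (u 40 0 (k v (k v r))) r))) (k (t 16 1 (u 24 0 (k (u 40 0 (k v (k v r))) r))) (k (t 24 1 r) (k (t 24 2 r) (k (t 24 1 r) (k (t 24 2 r) (k (t 16 2 r) (k (t 24 2 (u 16 0 (k (u 32 0 (k v (k v r))) r))) (k (t 16 1 r) (k (t 24 2 r) (k (t 16 1 (u 24 0 (k (u 40 0 (k v (k v r))) r))) (k r (k (t 24 2 r) (k (t 24 1 r) (k (t 24 2 r) (k (t 24 2 r) (k (t 24 1 r) r)))))))))))))))))))))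
 .z .z) .z))) (.s 0xee7f7e0088 4077 (n false (n false (n true (z 119) e) (n false e e)) (n false e e)) (u 8 1 (k r (k (t 24 2 r) (k (t 24 1 r) (k (t 16 4 r) (k r (k (u 24 1 (k r (k (c 56 4097 r (u 40 0 (k r (k r r)))) r))) (k (t 24 2 (u 16 0 (k (u 32 0 (k v (k v r))) r))) (k r (k (t 24 4 r) (k r (k r (k (t 24 4 r) (k r r))))))))))))))
 (.s 0xee7f5e0088 4081 (n false (n false (n true (z 103) e) (n false e e)) (n false e e)) (u 8 3 (k (t 16 1 r) (k (t 24 2 r) (k (t 24 1 r) (k (t 24 1 r) r)))))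
 (.s 0xee7f560088 4085 (n false (n false (n true (z 71) e) (n false e e)) (n false e e)) (u 8 6 (k r (k r (k (u 16 1 (k v (k (t 48 1 r) (k (t 32 2 r) (k (t 32 1 r) r))))) (k (t 24 1 r) (k (t 24 1 r) (k (t 24 1 r) r)))))))
 (.s 0xee7dfe0088 4084 (n false (n false (n true (z 123) e) (n false e e)) (n false e e)) (u 8 42 (k v (k r (k r (k r (k r (k (t 24 2 r) (k (t 24 1 r) (k (t 24 2 r) (k (t 24 1 r) r))))))))))
 .z .z) (.s 0xee7f5600e0 4085 (n false (n false (n true (z 71) e) (n true (n false e e) e)) e) (u 8 6 (k r (k r (k (u 16 1 (k v (k (t 48 1 r) (k (t 32 2 r) (k (t 32 1 r) r))))) (k (t 24 1 r) (k (t 24 1 r) (k (t 24 1 r) r)))))))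
 .z .z)) (.s 0xee7f7c00e0 4085 (n false (n false (n true (z 55) e) (n true (n false e e) e)) e) (u 8 4 (k (t 24 1 (u 16 7 (k v (k r (k (u 32 0 (k r (k r r))) (k r (k (c 48 4099 r (t 32 3 v)) (k (u 32 4 (k v (k (t 96 1 (u 64 25 (k v (k v (k (u 128 3 (k v (k v r))) r))))) r))) r)))))))) (k (c 4 4091 (t 6 2 r) v) r)))
 (.s 0xee7f5e00e0 4085 (n false (n false (n true (z 103) e) (n true (n false e e) e)) e) (u 8 3 (k (t 16 1 r) (k (t 24 2 r) (k (t 24 1 r) (k (t 24 1 r) r)))))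
 .z .z) .z)) (.s 0xee9fd58010 4086 (n false (n false (n true (n false (z 71) e) e) (n false e e)) e) (u 16 7 (k v (k v (k v (k (c 48 4099 r (u 32 1 (k v (k v r)))) r)))))
 (.s 0xee95fd4000 4073 (n false (n false (n true (n false (z 156) e) e) e) e) (u 16 1 (k v (k (c 48 4099 r (u 32 1 (k v (k v r)))) (k (c 32 4098 r (u 48 1 (k v (k v r)))) (k (c 32 4097 r (u 48 1 (k v (k v r)))) (k (c 32 4099 r (u 48 1 (k v (k v r)))) (k (c 32 4095 r (c 4 4076 r v)) r)))))))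
 (.s 0xee7f7e00e0 4085 (n false (n false (n true (z 119) e) (n true (n false e e) e)) e) (u 8 28 (k r (k r (k (t 16 1 r) (k (t 24 2 r) (k (t 24 1 r) (k (t 16 4 r) (k (t 16 1 r) (k (t 16 1 r) (k (c 4 4088 (t 6 2 (u 4 0 (k r r))) v) (k r (k (t 24 4 r) (k (t 24 1 r) (k (t 24 4 r) r))))))))))))))
 .z .z) (.s 0xee9d7f8010 4084 (n false (n false (n true (n false (z 121) e) e) (n false e e)) e) (u 16 2 (k v (k v (k (c 48 4099 r (u 32 1 (k v (k v r)))) (k (c 32 4095 r (u 48 0 (k v (k v r)))) (k (c 32 4095 r (u 48 0 (k v (k v r)))) r))))))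
 .z .z)) (.s 0xee9ff58010 4086 (n false (n false (n true (n false (z 79) e) e) (n false e e)) e) (u 16 0 (k v (k (u 32 7 (k v (k v (k v (k (c 96 4099 r (u 64 1 (k v (k v r)))) r))))) r)))
 (.s 0xee9fdf0010 4084 (n false (n false (n true (n false (z 55) e) e) (n false e e)) e) (u 16 4 (k (t 48 1 (u 32 6 (k v (k v (k r (k r r)))))) (k (t 48 2 (u 32 2 (k v (k (c 8 4082 (u 8 1 (k v (k v r))) v) r)))) r)))
 .z .z) .z))))

set_option maxRecDepth 100000 in
def N24 : NT :=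
(.s 0xef9fdf0010 4079 (n false (n false (n true (n true (z 55) e) e) (n false e e)) e) (u 16 4 (k (t 48 1 (u 32 3 (k v (k (u 64 0 (k r (k r r))) (k r (k (c 96 4099 r (t 64 3 v)) (k (u 64 4 (k v (k (t 192 1 (u 128 4 (k v (k v r)))) r))) (k (u 64 4 (k v (k (t 192 1 (u 128 2 (k v (k v r)))) r))) r)))))))) (k (t 48 2 (u 32 2 (k v (k (c 8 4082 (u 8 1 (k v (k v r))) v) r)))) r)))
 (.s 0xef97f70010 4082 (n false (n false (n true (n true (z 46) e) e) (n false e e)) e) (u 16 1 (k v (k (u 32 1 (k v (k v r))) (k (c 48 4099 r (u 32 0 (k v (k v r)))) (k (u 32 0 (k v (k v r))) (k (c 48 4097 r (u 32 1 (k v (k v r)))) (k (c 32 4095 r (u 48 1 (k v (k v r)))) r)))))))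
 (.s 0xef95fd4000 4091 (n false (n false (n true (n true (z 156) e) e) e) e) (u 16 1 (k v (k (c 48 4099 r (u 32 1 (k v (k v r)))) (k (c 32 4098 r (u 48 1 (k v (k v r)))) (k (c 32 4097 r (u 48 1 (k v (k v r)))) (k (c 32 4099 r (u 48 1 (k v (k v r)))) (k (c 32 4095 r (u 48 0 (k v (k v r)))) r)))))))
 (.s 0xef957f0010 4080 (n false (n false (n true (n true (z 56) e) e) (n false e e)) e) (u 16 0 (k (u 32 33 (k v (k v (k v (k v (k v (k v (k v (k (t 96 2 (u 64 0 (k (u 128 2 (k v (k (c 16 4078 (u 16 1 (k v (k v r))) v) r))) r))) (k (t 96 1 (u 64 0 (k (c 192 4099 r (u 128 2 (k v (k (c 16 4078 (u 16 1 (k v (k v r))) v) r)))) r))) r)))))))))) (k (c 32 4096 r (u 48 0 (k v (k v r)))) (k (u 32 1 (k v (k v r))) (k (c 48 4096 r r) r)))))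
 (.s 0xeee7d5c000 4087 (n false (n false (n true (n false (n true (z 35) e) e) e) e) e) (u 32 7 (k v (k v (k v (k v r)))))
 .z .z) (.s 0xef95df0010 4080 (n false (n false (n true (n true (z 52) e) e) (n false e e)) e) (u 16 32 (k v (k v (k v (k v (k v (k v (k v (k (c 8 4081 r v) (k (t 48 2 (u 32 0 (k (u 64 2 (k v (k (c 8 4078 (u 16 1 (k v (k v r))) v) r))) r))) (k (t 48 1 (u 32 0 (k (c 96 4099 r (u 64 2 (k v (k (c 8 4078 (u 16 1 (k v (k v r))) v) r)))) r))) r)))))))))))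
 .z .z)) (.s 0xef975f0010 4080 (n false (n false (n true (n true (z 50) e) e) (n false e e)) e) (u 16 1 (k v (k (c 48 4097 r (u 32 0 (k v (k v r)))) r)))
 (.s 0xef95ff8010 4082 (n false (n false (n true (n true (z 124) e) e) (n false e e)) e) (u 16 2 (k v (k v (k (c 48 4097 r (u 32 1 (k v (k v r)))) (k (c 48 4096 r (u 32 1 (k v (k v r)))) (k (c 48 4097 r (u 32 1 (k v (k v r)))) (k (c 48 4099 r (u 32 1 (k v (k v r)))) r)))))))
 .z .z) (.s 0xef977d8010 4081 (n false (n false (n true (n true (z 90) e) e) (n false e e)) e) (u 16 0 (k v (k v (k (u 32 4 (k v (k (c 96 4099 r r) (k (c 96 4099 r r) (k (c 96 4099 r (u 64 1 (k v (k v (k v (k (t 192 1 (u 128 6 (k v (k v (k (t 384 1 (u 256 0 (k v (k v r)))) r))))) r)))))) (k r (k (c 96 4096 r r) (k (c 64 4099 r r) r)))))))) (k r (k (c 48 4096 r r) (k (u 32 2 (k v (k v (k (c 96 4097 r (u 64 1 (k v (k v r)))) (k (c 96 4096 r (u 64 1 (k v (k v r)))) (k (c 96 4097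 r (u 64 1 (k v (k v r)))) (k (c 96 4099 r (u 64 1 (k v (k v r)))) r))))))) r)))))))
 .z .z))) (.s 0xef9ddd8010 4082 (n false (n false (n true (n true (z 85) e) e) (n false e e)) e) (u 16 2 (k v (k r (k (c 48 4099 r r) (k r (k (c 48 4099 r r) (k (c 48 4096 r r) (k (c 32 4099 r r) r))))))))
 (.s 0xef9d7f8010 4084 (n false (n false (n true (n true (z 121) e) e) (n false e e)) e) (u 16 2 (k v (k v (k (c 48 4099 r (u 32 1 (k v (k v r)))) (k (c 32 4095 r (u 48 0 (k v (k v r)))) (k (c 32 4095 r (u 48 0 (k v (k v r)))) r))))))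
 (.s 0xef97ff0010 4078 (n false (n false (n true (n true (z 62) e) e) (n false e e)) e) (u 16 1 (k v (k v (k v (k (t 48 1 r) r)))))
 .z .z) (.s 0xef9dd70010 4084 (n false (n false (n true (n true (z 37) e) e) (n false e e)) e) (u 16 0 (k v (k (u 32 0 (k (t 64 3 (t 96 1 v)) r)) (k (u 32 0 (k (t 64 3 (t 96 1 v)) r)) (k r (k (u 32 0 (k v (k v (k (t 96 1 (u 64 0 (k (t 128 3 (t 192 1 v)) r))) r)))) (k r r)))))))
 .z .z)) (.s 0xef9f7d8010 4081 (n false (n false (n true (n true (z 91) e) e) (n false e e)) e) (u 16 1 (k v (k v (k v (k (u 32 0 (k v (k v r))) (k (c 32 4097 r (u 48 0 (k v (k v r)))) (k (c 32 4095 r (u 48 0 (k v (k v r)))) r)))))))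
 (.s 0xef9f570010 4085 (n false (n false (n true (n true (z 35) e) e) (n false e e)) e) (u 16 1 (k v (k v (k v (k (t 48 1 (u 32 0 (k (t 64 3 (t 96 1 v)) r))) r)))))
 .z .z) .z))) (.s 0xf9557803a0 4084 (n false (n true (z 96) e) (n true (n false (n false e e) e) e)) (u 4 0 (k (t 12 2 (u 8 0 (k (c 24 4099 r (u 16 0 (k v (k v (k (c 8 4084 (u 4 1 (k v (k v r))) v) r))))) r))) r))
 (.s 0xefe7d5c000 4088 (n false (n false (n true (n true (n true (z 35) e) e) e) e) e) (u 32 25 (k v (k v (k v (k v (k (t 96 1 (u 64 0 (k (t 128 3 (t 192 1 v)) r))) r))))))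
 (.s 0xefa7d5c000 4088 (n false (n false (n true (n true (n false (z 35) e) e) e) e) e) (u 32 25 (k v (k v (k v (k v (k (t 96 1 (u 64 0 (k (t 128 3 (t 192 1 v)) r))) r))))))
 (.s 0xef9fdf8010 4084 (n false (n false (n true (n true (z 119) e) e) (n false e e)) e) (u 16 18 (k v (k v (k (c 48 4101 r r) (k (c 48 4099 r r) (k (c 48 4097 r r) (k (c 48 4096 r (u 32 0 (k (u 64 0 (k v (k v r))) r))) (k (c 32 4098 r r) (k (c 32 4101 r r) (k (c 32 4099 r r) (k (c 32 4101 r r) r)))))))))))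
 .z .z) (.s 0xefa7f7c000 4084 (n false (n false (n true (n true (n false (z 55) e) e) e) e) e) (u 32 4 (k (t 96 1 (u 64 2 (k v (k (c 192 4099 r (t 128 3 v)) (k (u 128 2 (k v (k v r))) r))))) (k (t 96 2 (u 64 7 (k v (k v (k (c 16 4082 (u 8 1 (k v (k v r))) v) r))))) r)))
 .z .z)) (.s 0xf9557802a0 4085 (n false (n true (z 96) e) (n false (n false (n false e e) e) e)) (u 4 0 (k (t 12 2 (u 8 0 (k (c 24 4099 r (u 16 9 (k v (k v (k (c 8 4084 (u 4 1 (k v (k v r))) v) r))))) r))) r))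
 (.s 0xf9555803a0 4085 (n false (n true (z 64) e) (n true (n false (n false e e) e) e)) (u 4 0 (k (t 12 2 (u 8 2 (k v (k (c 2 4084 (u 8 3 (k v (k v r))) v) r)))) r))
 .z .z) .z)) (.s 0xf95df002a0 4086 (n false (n true (z 52) e) (n false (n false (n false e e) e) e)) (u 4 8 (k v (k v (k v (k v (k v (k (t 12 1 (u 8 0 (k v (k v r)))) r)))))))
 (.s 0xf957f00288 4079 (n false (n true (z 56) e) (n false (n false e e) (n false e e))) (u 4 0 (k (u 8 165 (k v (k v (k v (k v (k v (k v (k v (k (t 24 2 (u 16 0 (k (u 32 2 (k v (k (c 4 4078 (u 16 1 (k v (k v r))) v) r))) r))) (k (t 24 1 (u 16 0 (k (c 48 4099 r (u 32 2 (k v (k (c 4 4078 (u 16 1 (k v (k v r))) v) r)))) r))) r)))))))))) (k (c 8 4096 r (u 12 0 (k v (k v r)))) (k (u 8 1 (k v (k v r))) (k (c 12 4096 r r) r)))))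
 (.s 0xf955d803a0 4087 (n false (n true (z 80) e) (n true (n false (n false e e) e) e)) (u 4 0 (k (u 8 0 (k (c 24 4099 r (u 16 0 (k v (k (u 32 2 (k v (k v r))) (k (c 48 4099 r (u 32 0 (k (u 64 3 (k v (k v (k v r)))) r))) (k (u 32 9 (k v (k v (k (u 64 0 (k v (k v r))) r)))) (k (c 2 4071 r v) (k (u 32 0 (k (u 64 0 (k v (k v r))) r)) (k (u 32 13 (k v (k v (k v (k v r))))) (k (u 32 2 (k v (k (c 96 4099 r (u 64 1 (k v (k v r)))) (k (c 64 4095 r (u 96 0 (k v (k v r)))) r)))) r)))))))))) r)) r))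
 .z .z) (.s 0xf95df00288 4080 (n false (n true (z 52) e) (n false (n false e e) (n false e e))) (u 4 32 (k v (k v (k v (k v (k v (k v (k v (k (c 2 4081 r v) (k (t 12 2 (u 8 0 (k (u 16 2 (k v (k (c 2 4078 (u 16 1 (k v (k v r))) v) r))) r))) (k (t 12 1 (u 8 0 (k (c 24 4099 r (u 16 2 (k v (k (c 2 4078 (u 16 1 (k v (k v r))) v) r)))) r))) r)))))))))))
 .z .z)) (.s 0xf95ff80288 4082 (n false (n true (z 124) e) (n false (n false e e) (n false e e))) (u 4 2 (k v (k v (k (c 12 4097 r (u 8 1 (k v (k v r)))) (k (c 12 4096 r (u 8 1 (k v (k v r)))) (k (c 12 4097 r (u 8 1 (k v (k v r)))) (k (c 12 4099 r (u 8 1 (k v (k v r)))) r)))))))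
 (.s 0xf95df003a0 4086 (n false (n true (z 52) e) (n true (n false (n false e e) e) e)) (u 4 10 (k v (k v (k v (k v (k v (k (t 12 1 (u 8 0 (k v (k v r)))) r)))))))
 .z .z) .z))))

set_option maxRecDepth 100000 in
def N25 : NT :=
(.s 0xf9f7d80288 4081 (n false (n true (z 91) e) (n false (n false e e) (n false e e))) (u 4 1 (k v (k v (k v (k (u 8 0 (k v (k v r))) (k (c 8 4097 r (u 12 0 (k v (k v r)))) (k (c 8 4095 r (u 12 0 (k v (k v r)))) r)))))))
 (.s 0xf9dd700288 4084 (n false (n true (z 37) e) (n false (n false e e) (n false e e))) (u 4 0 (k v (k (u 8 0 (k (t 16 3 (t 24 1 v)) r)) (k (u 8 0 (k (t 16 3 (t 24 1 v)) r)) (k r (k r (k (c 2 4088 r v) r)))))))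
 (.s 0xf97f700288 4082 (n false (n true (z 46) e) (n false (n false e e) (n false e e))) (u 4 1 (k v (k (u 8 1 (k v (k v r))) (k (c 12 4099 r (u 8 0 (k v (k v r)))) (k (u 8 0 (k v (k v r))) (k (c 12 4097 r (u 8 1 (k v (k v r)))) (k (c 8 4095 r (u 12 1 (k v (k v r)))) r)))))))
 (.s 0xf97df80288 4084 (n false (n true (z 118) e) (n false (n false e e) (n false e e))) (u 4 2 (k v (k (t 12 1 (u 8 19 (k v (k v (k (c 24 4100 r (u 16 22 (k v (k v (k v (k v r)))))) (k (c 24 4100 r (u 16 20 (k v (k v (k v (k (c 48 4099 r (u 32 1 (k v (k v r)))) (k (c 32 4099 r (u 48 1 (k v (k v r)))) r))))))) r)))))) (k (t 12 1 (u 8 8 (k v (k (c 24 4099 r (u 16 15 (k v (k v (k (u 32 0 (k v (k v r))) (k (c 32 4099 r (u 48 1 (k v (k v r)))) (k (c 32 4099 r (u 48 1 (k v (k v r)))) (k (c 32 4099 r (u 48 1 (k v (k v r)))) r)))))))) r)))) r))))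
 (.s 0xf975f00288 4080 (n false (n true (z 50) e) (n false (n false e e) (n false e e))) (u 4 1 (k v (k (c 12 4097 r (u 8 0 (k v (k v r)))) r)))
 .z .z) (.s 0xf97df803a0 4083 (n false (n true (z 118) e) (n true (n false (n false e e) e) e)) (u 4 3 (k v (k (t 12 1 r) (k (t 12 1 (u 8 5 (k v (k (c 24 4099 r (u 16 3 (k v (k v (k (u 32 0 (k v (k v r))) (k (c 32 4099 r (u 48 1 (k v (k v r)))) (k (c 32 4099 r (u 48 1 (k v (k v r)))) (k (c 32 4099 r (u 48 1 (k v (k v r)))) r)))))))) (k (c 24 4100 r (u 16 0 (k (u 32 0 (k v (k v r))) r))) r))))) r))))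
 .z .z)) (.s 0xf97ff003a0 4084 (n false (n true (z 62) e) (n true (n false (n false e e) e) e)) (u 4 4 (k v (k v (k v (k (t 12 1 r) r)))))
 (.s 0xf97ff002a0 4085 (n false (n true (z 62) e) (n false (n false (n false e e) e) e)) (u 4 4 (k v (k v (k v (k (t 12 1 r) r)))))
 .z .z) (.s 0xf9d7f80288 4084 (n false (n true (z 121) e) (n false (n false e e) (n false e e))) (u 4 2 (k v (k v (k (c 12 4099 r (u 8 1 (k v (k v r)))) (k (c 8 4095 r (u 12 0 (k v (k v r)))) (k (c 8 4095 r (u 12 0 (k v (k v r)))) r))))))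
 .z .z))) (.s 0xf9f57003a0 4089 (n false (n true (n false (n false e e) e) e) (n true (z 35) e)) (u 5 12 (k v (k v (k v (k v (k (t 13 1 (u 9 0 (k (t 17 3 (t 25 1 v)) r))) r))))))
 (.s 0xf9df700288 4085 (n false (n true (z 45) e) (n false (n false e e) (n false e e))) (u 4 1 (k v (k r (k (t 12 3 (u 8 22 (k v (k v (k v r))))) r))))
 (.s 0xf9ddd80288 4082 (n false (n true (z 85) e) (n false (n false e e) (n false e e))) (u 4 4 (k v (k (c 12 4099 r r) (k r (k (c 12 4099 r (u 8 1 (k v (k v (k v (k (t 24 1 r) r)))))) (k r (k (c 12 4096 r r) (k (c 8 4099 r r) r))))))))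
 .z .z) (.s 0xf9f5700288 4085 (n false (n true (z 35) e) (n false (n false e e) (n false e e))) (u 4 1 (k v (k v (k v (k (t 12 1 (u 8 0 (k (t 16 3 (t 24 1 v)) r))) r)))))
 .z .z)) (.s 0xf9f5f003a0 4086 (n false (n true (z 51) e) (n true (n false (n false e e) e) e)) (u 4 0 (k (t 12 1 (u 8 0 (k (t 16 3 (t 24 3 v)) r))) r))
 (.s 0xf9f5f002a0 4086 (n false (n true (z 51) e) (n false (n false (n false e e) e) e)) (u 4 0 (k (t 12 1 (u 8 0 (k (t 16 3 (t 24 3 v)) r))) r))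
 .z .z) .z))) (.s 0xf9fdf003a0 4084 (n false (n true (z 55) e) (n true (n false (n false e e) e) e)) (u 4 4 (k (t 12 1 r) (k (t 12 2 (u 8 2 (k v (k (c 2 4082 (u 8 1 (k v (k v r))) v) r)))) r)))
 (.s 0xf9fd5803a0 4088 (n false (n true (z 71) e) (n true (n false (n false e e) e) e)) (u 4 2 (k r (k r (k (t 12 1 (u 8 16 (k v (k v (k (c 4 4090 r v) (k (c 4 4090 (c 3 4099 v r) v) (k (c 4 4090 r v) (k (c 4 4090 r v) r)))))))) (k (t 8 1 r) (k (t 8 1 r) (k (t 8 1 r) r)))))))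
 (.s 0xf9f7f803a0 4087 (n false (n true (z 123) e) (n true (n false (n false e e) e) e)) (u 4 41 (k v (k v (k r (k (t 12 1 (u 8 28 (k v (k v (k v (k (t 24 3 (u 16 271 (k v (k v (k v r))))) (k (c 24 4099 r r) (k (c 16 4099 r r) r)))))))) (k r (k (u 8 10 (k v (k (c 16 4097 r r) (k (c 24 4097 r r) (k (c 24 4097 r r) r))))) (k (t 8 1 r) (k (t 8 2 (u 12 2 (k v (k v r)))) r)))))))))
 (.s 0xf9f7f80288 4084 (n false (n true (z 123) e) (n false (n false e e) (n false e e))) (u 4 6 (k v (k v (k v (k (c 12 4099 r (u 8 2 (k v (k v (k v (k (t 24 2 r) r)))))) (k (u 8 12 (k v (k v (k (c 24 4101 r r) (k (c 24 4099 r r) (k (c 24 4096 r (u 16 0 (k (u 32 70 (k v (k v (k v r)))) r))) (k (c 16 4101 r r) (k (c 16 4099 r r) (k (c 16 4101 r r) r))))))))) r))))))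
 .z .z) (.s 0xf9fd580288 4085 (n false (n true (z 71) e) (n false (n false e e) (n false e e))) (u 4 7 (k v (k v (k v (k (c 12 4099 r (u 8 1 (k v (k v r)))) r)))))
 .z .z)) (.s 0xf9fdf00288 4080 (n false (n true (z 55) e) (n false (n false e e) (n false e e))) (u 4 4 (k (t 12 1 (u 8 14 (k v (k (c 24 4099 r (t 16 3 v)) (k (u 16 4 (k v (k (t 48 1 (u 32 4 (k v (k v r)))) r))) (k (u 16 4 (k v (k (t 48 1 (u 32 2 (k v (k v r)))) r))) (k r (k r r)))))))) (k (t 12 2 (u 8 2 (k v (k (c 2 4082 (u 8 1 (k v (k v r))) v) r)))) r)))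
 (.s 0xf9fd7803a0 4087 (n false (n true (z 103) e) (n true (n false (n false e e) e) e)) (u 4 1 (k v (k (t 12 1 r) (k (t 8 2 r) (k (t 8 1 r) r)))))
 .z .z) .z)) (.s 0xfa5fd40070 4092 (n false (n true (n false (z 14) e) e) (n true (n false e e) e)) (c 4 4096 (u 2 0 (k v (k v r))) v)
 (.s 0xf9fdf802a0 4093 (n false (n true (z 119) e) (n false (n false (n false e e) e) e)) (u 4 32 (k v (k v (k v (k (t 12 1 r) (k (c 8 4097 r r) (k (c 12 4097 r r) (k (c 12 4097 r (u 8 1 (k v (k (c 24 4097 r (u 16 1 (k v (k v r)))) (k (c 24 4096 r (u 16 1 (k v (k v r)))) (k (c 16 4098 r (u 24 0 (k v (k v r)))) (k (c 24 4096 r (u 16 1 (k v (k v r)))) (k (c 24 4097 r (u 16 1 (k v (k v r)))) (k (c 24 4097 r (u 16 1 (k v (k v r)))) (k (c 24 4096 r (u 16 1 (k v (k v r)))) (k (c 24 4099 r (u 16 1 (k v (k v r)))) (k (c 16 4097 r (u 24 1 (k v (k v r)))) r)))))))))))) (k (c 12 4097 r r) r)))))))))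
 (.s 0xf9fdf80288 4084 (n false (n true (z 119) e) (n false (n false e e) (n false e e))) (u 4 18 (k v (k v (k (c 12 4101 r r) (k (c 12 4099 r r) (k (c 12 4097 r r) (k (c 12 4096 r (u 8 0 (k (u 16 0 (k v (k v r))) r))) (k (c 8 4098 r r) (k (c 8 4101 r r) (k (c 8 4099 r r) (k (c 8 4101 r r) r)))))))))))
 .z .z) (.s 0xf9fdf803a0 4092 (n false (n true (z 119) e) (n true (n false (n false e e) e) e)) (u 4 9 (k v (k v (k v (k (c 8 4097 r (u 12 1 (k v (k v r)))) (k (c 8 4097 r r) (k (c 12 4097 r r) (k (c 12 4097 r r) (k (c 12 4097 r r) (k (c 12 4097 r r) r))))))))))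
 .z .z)) (.s 0xfa955f8020 4090 (n false (n true (n false (n false (z 112) e) (n false e e)) e) e) (u 16 1 (k (c 48 4099 r (u 32 1 (k v (k (t 96 2 (u 64 35 (k v (k v (k (c 16 4085 (t 12 1 (u 8 0 (k r r))) v) r))))) (k (c 16 4076 (u 4 0 (k r r)) v) r))))) (k (c 8 4090 r v) r)))
 (.s 0xfa7d5c0050 4088 (n false (n true (n false (z 35) e) e) (n false (n false e e) e)) (u 8 11 (k v (k v (k (t 24 1 (u 16 0 (k (t 32 3 (t 48 1 v)) r))) r))))
 .z .z) .z))))

set_option maxRecDepth 100000 in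
def N26 : NT :=
(.s 0x72aab00ee10 4084 (n false (z 64) (n true (n false (n true (n false e e) e) (n false e e)) e)) (u 2 0 (k (t 6 1 (u 4 0 (k v (k v (k (c 2 4087 r v) r))))) r))
 (.s 0xfe577c0050 4086 (n false (n true (n true (z 52) e) e) (n false (n false e e) e)) (u 8 10 (k v (k v (k v (k v (k v (k (t 24 1 (u 16 0 (k v (k v r)))) r)))))))
 (.s 0xfb9df70020 4088 (n false (n true (n false (n true (z 45) e) (n false e e)) e) e) (u 16 4 (k v (k (t 48 1 (u 32 4 (k v (k v r)))) r)))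
 (.s 0xfb95d78020 4085 (n false (n true (n false (n true (z 100) e) (n false e e)) e) e) (u 16 0 (k (t 48 1 r) (k (t 48 1 r) (k (c 48 4096 r r) (k (t 48 1 r) (k (t 48 1 r) (k (t 48 1 r) r)))))))
 (.s 0xfb957f8020 4087 (n false (n true (n false (n true (z 120) e) (n false e e)) e) e) (u 16 4 (k (t 48 2 r) (k (c 48 4100 r r) (k (t 48 2 r) (k (t 32 1 (c 8 4085 r v)) (k (t 32 1 r) (k (t 48 1 r) (k (c 32 4097 r r) (k (c 8 4088 (t 6 1 r) v) (k (c 8 4088 (t 6 1 (u 4 0 (k r r))) v) (k (t 48 1 (u 32 0 (k (u 64 0 (k v (k v r))) r))) (k (c 8 4093 (t 6 1 r) v) (k (t 32 1 r) (k (t 48 1 r) (k (t 48 1 r) (k (t 48 2 r) (k (c 32 4095 r r) (k (t 32 1 r) (k (t 48 1 r) r)))))))))))))))))))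
 .z .z) (.s 0xfb97770020 4086 (n false (n true (n false (n true (z 42) e) (n false e e)) e) e) (u 16 2 (k v (k (c 8 4087 (t 6 1 r) v) (k r (k (c 8 4087 r v) (k r (k r r)))))))
 .z .z)) (.s 0xfb9f778020 4076 (n false (n true (n false (n true (z 107) e) (n false e e)) e) e) (u 16 6 (k v (k r (k (t 48 2 r) (k (t 48 1 (u 32 0 (k (u 64 0 (k v (k v r))) r))) r)))))
 (.s 0xfb9f558020 4076 (n false (n true (n false (n true (z 67) e) (n false e e)) e) e) (u 16 3 (k v (k (t 48 2 r) (k (t 32 2 (u 48 0 (k (u 80 0 (k v (k v r))) r))) (k (t 32 1 (u 48 0 (k (u 80 0 (k v (k v r))) r))) (k (t 48 1 r) (k (t 48 2 r) (k r (k (t 48 1 r) (k (t 48 2 (u 32 1 (k v (k (c 96 4097 r (u 64 0 (k v (k v r)))) r)))) (k (t 32 2 r) (k (t 48 2 (u 32 0 (k (u 64 0 (k v (k v r))) r))) (k (t 32 1 r) (k (t 48 2 r) (k (t 32 1 (u 48 0 (k (u 80 0 (k v (k v r))) r))) (k r (k (t 48 2 r) (k (t 48 1 r) (k (t 48 2 r) (k (t 48 2 r) (k (t 48 1 r)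 r)))))))))))))))))))))
 .z .z) (.s 0xfb9fd58020 4087 (n false (n true (n false (n true (z 71) e) (n false e e)) e) e) (u 16 6 (k r (k r (k (u 32 0 (k v (k (t 96 1 r) (k (t 64 2 r) (k (t 64 1 r) r))))) (k (t 48 1 r) (k (t 48 1 r) (k (t 48 1 r) r)))))))
 .z .z))) (.s 0xfe7f7e0050 4092 (n false (n true (n true (z 119) e) e) (n false (n false e e) e)) (u 8 7 (k v (k v (k v (k (c 16 4097 r (u 24 1 (k v (k v r)))) (k (c 16 4097 r r) (k (c 24 4097 r r) (k (c 24 4097 r r) (k (c 24 4097 r r) (k (c 24 4097 r r) r))))))))))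
 (.s 0xfe7f560050 4090 (n false (n true (n true (z 71) e) e) (n false (n false e e) e)) (u 8 8 (k (u 16 57 (k v (k (c 48 4099 r r) (k (c 32 4099 r r) (k (c 48 4099 r r) (k (c 48 4099 r r) (k (c 48 4099 r r) (k (c 48 4099 r r) r)))))))) (k (t 24 1 (u 16 53 (k v (k v (k v (k (c 8 4090 r v) (k (c 2 4089 (c 4 4090 r v) v) (k (c 2 4089 (c 4 4090 r v) v) r)))))))) (k (c 8 4097 r v) (k (t 16 1 r) (k (t 16 1 r) (k (t 16 1 r) r)))))))
 (.s 0xfe7d7c0050 4086 (n false (n true (n true (z 51) e) e) (n false (n false e e) e)) (u 8 0 (k (t 24 1 (u 16 0 (k (t 32 3 (t 48 3 v)) r))) r))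
 .z .z) (.s 0xfe7f5e0050 4090 (n false (n true (n true (z 103) e) e) (n false (n false e e) e)) (u 8 6 (k v (k (t 24 1 r) (k (t 16 2 r) (k (t 16 1 r) r)))))
 .z .z)) (.s 0x72aaa801d10 4080 (n false (z 128) (n true (n false (n false e e) (n false e e)) e)) (u 2 3 (k v (k v (k (c 6 4097 r r) (k (t 6 2 (u 4 0 (k (t 12 2 (u 8 0 (k (c 24 4099 r (u 16 2 (k v (k (c 8 4090 (u 4 1 (k v (k v r))) v) r)))) r))) r))) (k (c 4 4096 r r) (k (c 4 4095 r r) (k (c 4 4095 r (u 6 0 (k v (k v r)))) (k (c 6 4095 r (u 4 1 (k v (k v r)))) (k (c 4 4095 r r) (k (c 4 4095 r (u 6 1 (k v (k v r)))) (k (c 4 4097 r r) r))))))))))))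
 (.s 0x72aaa801510 4080 (n false (z 128) (n false (n false (n false e e) (n false e e)) e)) (u 2 3 (k v (k v (k (c 6 4097 r r) (k (t 6 2 (u 4 0 (k (t 12 2 (u 8 0 (k (c 24 4099 r (u 16 2 (k v (k (c 8 4090 (u 4 1 (k v (k v r))) v) r)))) r))) r))) (k (c 4 4096 r r) (k (c 4 4095 r r) (k (c 4 4095 r (u 6 0 (k v (k v r)))) (k (c 6 4095 r (u 4 1 (k v (k v r)))) (k (c 4 4095 r r) (k (c 4 4095 r (u 6 1 (k v (k v r)))) (k (c 4 4097 r r) r))))))))))))
 .z .z) .z))) (.s 0x72afa801708 4080 (n false (z 152) (n false (n true (n false e e) e) (n false e e))) (u 2 0 (k (t 4 2 r) (k (t 4 1 r) (k (t 6 2 r) (k (t 6 2 r) r)))))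
 (.s 0x72abf00ba20 4082 (n false (z 112) (n false (n true (n false (n false e e) (n false e e)) e) e)) (u 2 1 (k (c 6 4099 r (u 4 17 (k v (k (t 12 2 (u 8 36 (k v (k v (k (u 16 2 (k v (k v r))) (k r (k (u 16 25 (k v (k v (k v (k (c 32 4097 r (u 48 1 (k v (k v r)))) r))))) (k r r)))))))) (k (c 2 4076 (u 4 0 (k r r)) v) r))))) (k (u 4 5 (k v (k (t 12 1 r) (k (t 8 2 r) (k (t 8 1 r) r))))) r)))
 (.s 0x72aae801d10 4088 (n false (z 160) (n true (n false (n false e e) (n false e e)) e)) (u 2 4 (k v (k v (k (t 6 3 r) (k (c 4 4100 r r) (k (c 6 4099 r r) (k (c 6 4100 r r) (k (c 6 4099 r r) (k (c 4 4097 r r) (k (c 6 4097 r r) r))))))))))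
 (.s 0x72aae801708 4079 (n false (z 160) (n false (n true (n false e e) e) (n false e e))) (u 2 2 (k (t 6 3 r) (k (u 4 15 (k r (k r r))) (k r (k (u 6 15 (k r (k r r))) (k r (k (u 4 16 (k r (k (c 12 4097 r r) (k (c 12 4096 r r) (k (c 12 4097 r r) r))))) (k (u 6 37 (k r (k r (k r r)))) (k (u 6 0 (k r (k (c 14 4097 r (u 4 0 (k (u 10 0 (k v (k v r))) (k (c 12 4099 r r) r)))) r))) (k (t 4 1 r) r))))))))))
 .z .z) (.s 0x72abf00ae10 4083 (n false (z 112) (n false (n false (n true (n false e e) e) (n false e e)) e)) (u 2 0 (k (u 4 1 (k v (k (t 12 1 r) (k (t 8 2 r) (k (t 8 1 r) r))))) (k (c 6 4099 r (u 4 1 (k v (k (t 12 2 r) (k (c 2 4076 (u 4 0 (k r r)) v) r))))) r)))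
 .z .z)) (.s 0x72aea801708 4083 (n false (z 136) (n false (n true (n false e e) e) (n false e e))) (u 2 2 (k r (k r (k (u 4 15 (k r (k r r))) (k (t 4 1 r) (k (t 4 2 r) (k (u 4 23 (k r (k r r))) (k (u 6 23 (k r (k r r))) (k (u 4 15 (k r (k r r))) r)))))))))
 (.s 0x72abf00ee10 4082 (n false (z 112) (n true (n false (n true (n false e e) e) (n false e e)) e)) (u 2 1 (k (c 6 4099 r (u 4 1 (k v (k (t 12 2 r) (k (c 2 4076 (u 4 0 (k r r)) v) r))))) (k (u 4 1 (k v (k (t 12 1 r) (k (t 8 2 r) (k (t 8 1 r) r))))) r)))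
 .z .z) .z)) (.s 0x72aff00ae10 4089 (n false (z 120) (n false (n false (n true (n false e e) e) (n false e e)) e)) (u 2 2 (k v (k v (k (t 6 1 r) (k r (k (c 6 4101 r r) (k (c 4 4099 r (u 6 0 (k v (k v r)))) (k (c 6 4096 r r) (k (c 3 4091 v (t 6 1 (u 4 0 (k r r)))) (k (c 6 4099 r (u 4 1 (k v (k v r)))) (k (c 4 4098 r (u 6 1 (k v (k v r)))) (k (c 4 4101 r (u 6 0 (k v (k v r)))) (k (t 6 1 r) (k (c 6 4099 r (u 4 1 (k v (k v r)))) (k (c 4 4101 r (u 6 0 (k v (k v r)))) r)))))))))))))))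
 (.s 0x72afe00ba20 4082 (n false (z 56) (n false (n true (n false (n false e e) (n false e e)) e) e)) (u 2 1 (k (u 4 1 (k v (k v r))) (k (u 4 92 (k v (k v (k v (k v (k v (k v (k v (k (c 2 4087 (t 6 2 r) v) (k (c 2 4087 (t 6 1 r) v) r)))))))))) (k (c 4 4096 r (u 6 0 (k v (k v r)))) (k (c 6 4096 r r) r)))))
 (.s 0x72afe00ae10 4086 (n false (z 56) (n false (n false (n true (n false e e) e) (n false e e)) e)) (u 2 2 (k r (k (u 4 1 (k v (k v r))) (k (c 4 4096 r (u 6 0 (k v (k v r)))) (k (c 6 4096 r r) r)))))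
 .z .z) (.s 0x72afe00ee10 4084 (n false (z 56) (n true (n false (n true (n false e e) e) (n false e e)) e)) (u 2 0 (k r (k (c 4 4096 r (u 6 0 (k v (k v r)))) (k (u 4 1 (k v (k v r))) (k (c 6 4096 r r) r)))))
 .z .z)) (.s 0x72baf00ae10 4087 (n false (z 100) (n false (n false (n true (n false e e) e) (n false e e)) e)) (u 2 0 (k r (k r (k (c 4 4097 r r) (k (c 6 4097 r r) (k r (k r r)))))))
 (.s 0x72aff00ee10 4089 (n false (z 120) (n true (n false (n true (n false e e) e) (n false e e)) e)) (u 2 3 (k v (k v (k r (k (t 6 1 r) (k r (k (c 6 4101 r r) (k (c 4 4099 r (u 6 0 (k v (k v r)))) (k (c 6 4096 r r) (k (c 3 4091 v (t 6 1 (u 4 0 (k r r)))) (k (c 6 4099 r (u 4 1 (k v (k v r)))) (k (c 4 4098 r (u 6 1 (k v (k v r)))) (k r (k (c 6 4099 r (u 4 1 (k v (k v r)))) (k (c 4 4101 r (u 6 0 (k v (k v r)))) r)))))))))))))))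
 .z .z) .z))))

set_option maxRecDepth 100000 in
def N27 : NT :=
(.s 0x72ebe00ba20 4082 (n false (z 50) (n false (n true (n false (n false e e) (n false e e)) e) e)) (u 2 1 (k v (k (c 6 4097 r (u 4 0 (k v (k v r)))) r)))
 (.s 0x72bea801708 4082 (n false (z 140) (n false (n true (n false e e) e) (n false e e))) (u 2 0 (k (t 6 3 (u 4 0 (k v (k (c 12 4101 r (u 8 1 (k v (k v r)))) (k (c 8 4101 r (u 12 1 (k v (k v r)))) (k (c 8 4101 r (u 12 1 (k v (k v r)))) r)))))) r))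
 (.s 0x72bbe00aa08 4079 (n false (n false (n false (n false (n false e e) e) e) (n false e e)) (z 52)) (u 3 55 (k v (k v (k v (k v (k v (k v (k v (k (c 2 4091 v r) (k (t 7 2 (u 5 0 (k (u 9 2 (k v (k (c 2 4091 v (u 17 1 (k v (k v r)))) r))) r))) (k (t 7 1 (u 5 0 (k (c 13 4099 r (u 9 2 (k v (k (c 2 4091 v (u 17 1 (k v (k v r)))) r)))) r))) r)))))))))))
 (.s 0x72bba801d10 4088 (n false (z 148) (n true (n false (n false e e) (n false e e)) e)) (u 2 6 (k v (k v (k (t 6 3 (u 4 37 (k v (k v (k v r))))) (k (c 6 4096 r r) (k (c 4 4099 r r) (k r (k (c 6 4099 r r) (k (c 6 4101 r r) r)))))))))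
 (.s 0x72bba801708 4079 (n false (z 148) (n false (n true (n false e e) e) (n false e e))) (u 2 9 (k (t 6 3 r) (k r (k r (k (t 6 3 r) (k (t 6 3 r) (k (t 6 2 r) (k (t 6 2 r) (k r (k (u 6 2 (k r (k r r))) r))))))))))
 .z .z) (.s 0x72bbb00ba20 4086 (n false (z 84) (n false (n true (n false (n false e e) (n false e e)) e) e)) (u 2 0 (k (u 4 0 (k v (k (u 8 7 (k v (k v (k v (k (c 24 4099 r (u 16 1 (k v (k v r)))) r))))) r))) r))
 .z .z)) (.s 0x72bbe00ba20 4082 (n false (z 52) (n false (n true (n false (n false e e) (n false e e)) e) e)) (u 2 88 (k v (k v (k v (k v (k v r))))))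
 (.s 0x72bbe00ba08 4079 (n false (n false (n true (n false (n false e e) e) e) (n false e e)) (z 52)) (u 3 55 (k v (k v (k v (k v (k v (k v (k v (k (c 2 4091 v r) (k (t 7 2 (u 5 0 (k (u 9 2 (k v (k (c 2 4091 v (u 17 1 (k v (k v r)))) r))) r))) (k (t 7 1 (u 5 0 (k (c 13 4099 r (u 9 2 (k v (k (c 2 4091 v (u 17 1 (k v (k v r)))) r)))) r))) r)))))))))))
 .z .z) (.s 0x72bbe00fa20 4079 (n false (z 52) (n true (n true (n false (n false e e) (n false e e)) e) e)) (u 2 54 (k v (k v (k v (k v (k v (k v (k v (k (t 6 2 (u 4 0 (k (u 8 2 (k v (k (c 4 4084 (u 4 1 (k v (k v r))) v) r))) r))) (k (t 6 1 (u 4 0 (k (c 12 4099 r (u 8 2 (k v (k (c 4 4084 (u 4 1 (k v (k v r))) v) r)))) r))) r))))))))))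
 .z .z))) (.s 0x72eaa801708 4081 (n false (z 130) (n false (n true (n false e e) e) (n false e e))) (u 2 0 (k (t 6 1 r) (k (t 6 1 (c 3 4092 v (u 4 0 (k r r)))) (k (t 6 1 r) (k (t 6 1 (c 3 4092 v r)) r)))))
 (.s 0x72bff00ba20 4081 (n false (z 124) (n false (n true (n false (n false e e) (n false e e)) e) e)) (u 2 2 (k v (k v (k (c 6 4097 r (u 4 1 (k v (k v r)))) (k (c 6 4096 r (u 4 1 (k v (k v r)))) (k (c 6 4097 r (u 4 1 (k v (k v r)))) (k (c 6 4099 r (u 4 1 (k v (k v r)))) r)))))))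
 (.s 0x72bfa801d10 4084 (n false (z 156) (n true (n false (n false e e) (n false e e)) e)) (u 2 2 (k v (k (c 6 4099 r (u 4 1 (k v (k v r)))) (k (c 4 4095 r (u 6 0 (k v (k v r)))) r))))
 .z .z) (.s 0x72bff00ee10 4087 (n false (z 124) (n true (n false (n true (n false e e) e) (n false e e)) e)) (u 2 1 (k v (k (c 6 4097 r (u 4 1 (k v (k v r)))) (k (c 6 4096 r (u 4 1 (k v (k v r)))) (k (c 4 4098 r (u 6 0 (k v (k v r)))) (k (c 6 4096 r (u 4 1 (k v (k v r)))) (k (c 6 4097 r (u 4 1 (k v (k v r)))) (k (c 6 4097 r (u 4 1 (k v (k v r)))) (k (c 6 4096 r (u 4 1 (k v (k v r)))) (k (c 6 4099 r (u 4 1 (k v (k v r)))) (k (c 4 4097 r (u 6 1 (k v (k v r)))) r)))))))))))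
 .z .z)) (.s 0x72eba801d10 4082 (n false (z 146) (n true (n false (n false e e) (n false e e)) e)) (u 2 0 (k (t 6 1 r) (k (t 4 2 r) (k (t 4 1 r) r))))
 (.s 0x72eba801708 4077 (n false (z 146) (n false (n true (n false e e) e) (n false e e))) (u 2 0 (k (t 4 1 r) (k (t 6 1 r) (k (t 6 1 r) r))))
 .z .z) .z))) (.s 0x72efa801708 4079 (n false (z 154) (n false (n true (n false e e) e) (n false e e))) (u 2 0 (k (u 4 18 (k r (k (c 12 4099 r (u 6 42 (k r (k r (k r (k r (k r r))))))) r))) (k (t 6 2 r) (k (t 6 1 r) (k (u 4 15 (k r (k r r))) r)))))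
 (.s 0x72eef00ae10 4084 (n false (z 106) (n false (n false (n true (n false e e) e) (n false e e)) e)) (u 2 5 (k v (k (t 6 2 r) (k (t 6 2 r) (k (t 6 1 r) (k (t 6 1 r) (k (t 4 1 r) (k (t 6 3 r) (k (t 6 1 r) (k (t 6 3 r) r))))))))))
 (.s 0x72ebf00ee10 4083 (n false (z 114) (n true (n false (n true (n false e e) e) (n false e e)) e)) (u 2 0 (k (t 6 3 (u 4 15 (k v (k v r)))) r))
 (.s 0x72ebe00ee10 4085 (n false (z 50) (n true (n false (n true (n false e e) e) (n false e e)) e)) (u 2 1 (k v (k (c 6 4097 r (u 4 0 (k v (k v r)))) r)))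
 .z .z) (.s 0x72eeb00ee10 4087 (n false (z 74) (n true (n false (n true (n false e e) e) (n false e e)) e)) (u 2 3 (k v (k (t 4 1 (u 6 2 (k v (k v r)))) (k (c 3 4091 v (t 4 1 r)) r))))
 .z .z)) (.s 0x72efa00a888 4087 (n false (n false (n false (n false e e) (n false e e)) (n false e e)) (z 26)) (u 3 2 (k v (k (c 2 4091 v (u 5 1 (k v (k v r)))) r)))
 (.s 0x72eef00ee10 4079 (n false (z 106) (n true (n false (n true (n false e e) e) (n false e e)) e)) (u 2 2 (k v (k (t 6 2 r) (k (t 6 2 (c 5 4092 v (u 4 0 (k r r)))) (k (t 6 2 r) (k (t 6 2 r) (k (t 4 2 r) (k (t 6 1 r) (k (t 4 1 r) (k (t 4 2 r) (k (t 4 1 r) (k (t 4 1 r) r))))))))))))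
 .z .z) .z)) (.s 0x72fba801708 4079 (n false (z 150) (n false (n true (n false e e) e) (n false e e))) (u 2 2 (k v (k (t 6 3 r) (k (t 6 3 r) (k (t 6 3 r) r)))))
 (.s 0x72efb00fa20 4091 (n false (z 90) (n true (n true (n false (n false e e) (n false e e)) e) e)) (u 2 9 (k v (k v (k v (k r (k (u 4 37 (k v (k v (k v r)))) r))))))
 (.s 0x72efb00ba20 4084 (n false (z 90) (n false (n true (n false (n false e e) (n false e e)) e) e)) (u 2 0 (k v (k v (k r (k r (k (c 6 4096 r r) (k r r)))))))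
 .z .z) (.s 0x72efe00ee10 4081 (n false (z 58) (n true (n false (n true (n false e e) e) (n false e e)) e)) (u 2 0 (k (t 6 1 (u 4 0 (k (t 8 3 (t 12 1 v)) r))) r))
 .z .z)) (.s 0x72fee00ae10 4087 (n false (z 46) (n false (n false (n true (n false e e) e) (n false e e)) e)) (u 2 0 (k v (k (u 4 1 (k v (k v r))) (k (u 4 1 (k v (k v r))) (k (c 6 4099 r (u 4 0 (k v (k v r)))) (k (c 6 4097 r (u 4 1 (k v (k v r)))) (k (c 4 4095 r (u 6 1 (k v (k v r)))) r)))))))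
 (.s 0x72fea801708 4084 (n false (z 142) (n false (n true (n false e e) e) (n false e e))) (u 2 0 (k (u 4 1 (k (t 6 1 v) (k (u 8 11 (k (t 6 1 v) (k (u 6 1 (k v (k v r))) (k (t 6 1 v) (k (c 24 4099 r (u 16 1 (k (u 6 1 (k v (k v r))) (k (u 6 1 (k v (k v r))) r)))) r))))) (k (c 12 4096 r (t 6 1 (u 8 1 (k v (k v r))))) r)))) r))
 .z .z) .z))))

set_option maxRecDepth 100000 in
def N28 : NT :=
(.s 0x73baa801510 4085 (n false (z 133) (n false (n false (n false e e) (n false e e)) e)) (u 2 4 (k v (k (t 6 1 r) (k (t 6 1 r) (k (t 6 1 r) (k (t 4 2 r) (k (t 6 1 (u 4 13 (k v (k (c 12 4099 r r) (k (c 12 4099 r r) (k (c 8 4095 r (u 12 1 (k v (k v r)))) (k (c 12 4097 r r) (k (c 12 4096 r r) (k (c 12 4096 r (u 8 0 (k (u 16 0 (k v (k v r))) r))) (k (c 12 4100 r (u 8 0 (k (u 16 0 (k v (k v r))) r))) (k (c 12 4101 r r) (k (c 8 4099 r r) (k (c 12 4100 r r) (k (c 12 4097 r r) (k (c 12 4099 r r) (k (c 8 4099 r r) (k (c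 12 4097 r r) r))))))))))))))))) (k (t 4 2 r) (k (t 4 1 r) r)))))))))
 (.s 0x73afb00ee10 4086 (n false (z 89) (n true (n false (n true (n false e e) e) (n false e e)) e)) (u 2 14 (k v (k r (k r (k (t 6 1 r) (k (c 6 4099 r r) (k (t 6 3 (u 4 0 (k v (k v r)))) (k (c 3 4091 v (t 4 1 r)) (k (c 3 4091 v (t 6 2 r)) r)))))))))
 (.s 0x73aae801d10 4087 (n false (z 161) (n true (n false (n false e e) (n false e e)) e)) (u 2 1 (k (t 6 1 (u 4 13 (k v (k v (k (t 12 1 (u 8 0 (k v (k (c 24 4099 r (u 16 3 (k v (k v (k v r))))) r)))) r))))) (k (c 3 4092 v r) r)))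
 (.s 0x72fee00fa20 4081 (n false (z 46) (n true (n true (n false (n false e e) (n false e e)) e) e)) (u 2 1 (k v (k (u 4 1 (k v (k v r))) (k (c 6 4099 r (u 4 0 (k v (k v r)))) (k (u 4 0 (k v (k v r))) (k (c 6 4097 r (u 4 1 (k v (k v r)))) (k (c 4 4095 r (u 6 1 (k v (k v r)))) r)))))))
 (.s 0x72fee00ee10 4087 (n false (z 46) (n true (n false (n true (n false e e) e) (n false e e)) e)) (u 2 1 (k v (k (u 4 1 (k v (k v r))) (k (c 6 4099 r (u 4 0 (k v (k v r)))) (k (u 4 1 (k v (k v r))) (k (c 6 4097 r (u 4 1 (k v (k v r)))) (k (c 4 4095 r (u 6 1 (k v (k v r)))) r)))))))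
 .z .z) (.s 0x73aaa801708 4084 (n false (z 129) (n false (n true (n false e e) e) (n false e e))) (u 2 0 (k (u 4 156 (k r (k r (k (u 6 2 (k v (k (u 10 5 (k v (k v r))) r))) (k (c 12 4101 r r) (k (c 12 4102 r r) (k (c 8 4101 r r) (k (c 8 4101 r r) r)))))))) r))
 .z .z)) (.s 0x73afa801708 4079 (n false (z 153) (n false (n true (n false e e) e) (n false e e))) (u 2 0 (k (t 6 1 r) (k (t 4 1 r) (k (t 6 1 r) (k (t 6 1 r) (k (t 6 1 r) (k (t 6 1 r) r)))))))
 (.s 0x73aba801708 4076 (n false (z 145) (n false (n true (n false e e) e) (n false e e))) (u 2 0 (k r (k (u 6 0 (k r (k (c 14 4097 r r) r))) (k r (k (t 4 1 (u 6 0 (k (u 10 0 (k v (k v r))) r))) (k (u 6 0 (k r (k (c 14 4099 r (u 10 0 (k r (k r r)))) r))) (k (u 4 0 (k r (k r (k (c 12 4099 r (u 8 0 (k r (k r r)))) r)))) (k r (k r (k r (k (t 6 2 r) (k (u 4 0 (k r (k r (k (c 12 4099 r (u 8 0 (k r (k r r)))) r)))) (k (u 4 0 (k r (k r (k (c 12 4099 r (u 8 0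 (k r (k r r)))) r)))) (k (u 6 1 (k r (k (c 14 4099 r r) (k r (k (c 10 4099 r r) (k (c 10 4099 r r) (k (c 10 4099 r r) r))))))) (k (u 6 0 (k r (k r (k (c 14 4099 r r) r)))) (k (u 4 0 (k r (k (c 12 4099 r (u 8 0 (k r (k r r)))) r))) r))))))))))))))))
 .z .z) (.s 0x73afb00ae10 4086 (n false (z 89) (n false (n false (n true (n false e e) e) (n false e e)) e)) (u 2 11 (k v (k r (k r (k (c 6 4099 r r) (k r (k (t 6 3 (u 4 0 (k v (k v r)))) (k (c 3 4091 v (t 4 1 r)) (k (c 3 4091 v (t 6 2 r)) r)))))))))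
 .z .z))) (.s 0x73aff00ae10 4089 (n false (z 121) (n false (n false (n true (n false e e) e) (n false e e)) e)) (u 2 4 (k v (k v (k (c 6 4099 r (u 4 1 (k v (k v r)))) (k (c 4 4097 r (u 6 1 (k v (k v r)))) r)))))
 (.s 0x73afe00ae10 4082 (n false (z 57) (n false (n false (n true (n false e e) e) (n false e e)) e)) (u 2 0 (k v (k (t 4 3 (t 6 3 v)) (k (t 6 1 (u 4 10 (k v (k v (k v r))))) r))))
 (.s 0x73afb00fa20 4080 (n false (z 89) (n true (n true (n false (n false e e) (n false e e)) e) e)) (u 2 2 (k v (k v (k v (k (t 6 2 r) r)))))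
 .z .z) (.s 0x73afe00ee10 4081 (n false (z 57) (n true (n false (n true (n false e e) e) (n false e e)) e)) (u 2 0 (k v (k (t 4 3 (t 6 3 v)) (k (t 6 1 (u 4 0 (k v (k v r)))) r))))
 .z .z)) (.s 0x73aff00ee10 4089 (n false (z 121) (n true (n false (n true (n false e e) e) (n false e e)) e)) (u 2 4 (k v (k v (k (c 6 4099 r (u 4 1 (k v (k v r)))) (k (c 4 4097 r (u 6 1 (k v (k v r)))) r)))))
 (.s 0x73aff00ba20 4088 (n false (z 121) (n false (n true (n false (n false e e) (n false e e)) e) e)) (u 2 61 (k v (k v (k v (k (c 6 4099 r (u 4 1 (k v (k v r)))) r)))))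
 .z .z) .z))) (.s 0x73bbb00ba20 4082 (n false (z 85) (n false (n true (n false (n false e e) (n false e e)) e) e)) (u 2 4 (k v (k (c 6 4099 r r) (k (c 6 4099 r r) (k (c 6 4099 r (u 4 1 (k v (k v (k v (k (t 12 1 (u 8 42 (k v (k v (k v (k (t 24 1 (u 16 0 (k v (k v r)))) r)))))) r)))))) (k (u 4 10 (k v (k v (k v (k (t 12 2 (u 8 6 (k v (k v (k (t 24 1 (u 16 0 (k v (k v r)))) r))))) r))))) (k (c 6 4096 r r) (k (c 4 4099 r r) r))))))))
 (.s 0x73bae00ba20 4088 (n false (n false (n true (n false (n false e e) (n false e e)) e) e) (z 37)) (u 3 23 (k v (k v (k (u 5 0 (k (t 9 3 (t 13 1 v)) r)) (k (u 5 0 (k v (k v (k (t 13 1 (u 9 0 (k (t 17 3 (t 25 1 v)) r))) r)))) (k (c 2 4091 v r) r))))))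
 (.s 0x73baa801d10 4085 (n false (z 133) (n true (n false (n false e e) (n false e e)) e)) (u 2 4 (k v (k (t 6 1 r) (k (t 6 1 r) (k (t 6 1 r) (k (t 4 2 r) (k (t 6 1 r) (k (t 4 2 r) (k (t 4 1 r) r)))))))))
 (.s 0x73baa801708 4079 (n false (z 133) (n false (n true (n false e e) e) (n false e e))) (u 2 0 (k (t 4 1 r) (k (t 4 1 r) (k (t 4 1 r) (k (t 4 1 r) (k (t 6 1 r) (k (t 4 1 r) (k (t 6 1 r) (k (t 6 1 r) r)))))))))
 .z .z) (.s 0x73baa801f40 4087 (n false (z 133) (n true (n true (n false (n false e e) e) e) e)) (u 2 6 (k v (k (t 6 1 r) (k (t 6 1 r) (k (t 4 2 r) (k (t 4 1 r) r))))))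
 .z .z)) (.s 0x73bbb00ae10 4089 (n false (z 85) (n false (n false (n true (n false e e) e) (n false e e)) e)) (u 2 9 (k v (k v (k (c 6 4099 r r) (k r (k (c 6 4101 r r) (k (c 4 4099 r r) r)))))))
 (.s 0x73bba801708 4082 (n false (z 149) (n false (n true (n false e e) e) (n false e e))) (u 2 1 (k (t 6 2 r) (k (u 4 0 (k (c 12 4101 r (u 8 12 (k v (k v r)))) (k (c 8 4101 r (u 12 12 (k v (k v r)))) (k (c 8 4101 r (u 12 12 (k v (k v r)))) r)))) (k (t 4 2 r) (k (t 4 1 r) (k (t 6 1 r) (k (t 6 1 r) (k (t 6 1 r) (k (t 4 1 r) r)))))))))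
 .z .z) .z)) (.s 0x73bfa801708 4082 (n false (z 157) (n false (n true (n false e e) e) (n false e e))) (u 2 3 (k (t 6 1 r) (k r (k (t 6 2 r) (k r r)))))
 (.s 0x73bea801708 4084 (n false (z 141) (n false (n true (n false e e) e) (n false e e))) (u 2 3 (k (t 6 3 r) (k (t 4 1 r) (k (t 6 3 (u 4 0 (k (c 12 4097 r (u 8 0 (k v (k v r)))) r))) (k (t 6 1 (u 4 1 (k v (k r (k (c 8 4098 r (c 3 4092 v r)) r))))) r)))))
 (.s 0x73bbb00ee10 4087 (n false (z 85) (n true (n false (n true (n false e e) e) (n false e e)) e)) (u 2 7 (k r (k (c 6 4099 r r) (k (c 6 4099 r r) (k (c 6 4099 r r) (k (c 6 4101 r r) (k (c 6 4096 r r) (k (c 4 4099 r r) r))))))))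
 .z .z) (.s 0x73bfa00ee10 4079 (n false (n true (n false (n true (n false e e) e) (n false e e)) e) (z 29)) (u 3 0 (k (u 5 0 (k (t 9 3 (t 13 1 v)) r)) r))
 .z .z)) (.s 0x73eab00ee10 4091 (n false (z 67) (n true (n false (n true (n false e e) e) (n false e e)) e)) (u 2 11 (k v (k v (k v (k v (k v (k r (k r (k r (k r (k r (k (t 6 1 (u 4 1 (k v (k v r)))) (k (c 4 4101 r (u 6 0 (k v (k v r)))) (k r (k (c 3 4091 v r) (k (c 3 4091 v (t 6 2 (u 4 0 (k r r)))) (k (t 6 1 r) (k (t 6 1 (u 4 3 (k v (k v (k (c 12 4099 r (u 8 1 (k v (k v r)))) r))))) r))))))))))))))))))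
 (.s 0x73eaa801708 4074 (n false (z 131) (n false (n true (n false e e) e) (n false e e))) (u 2 0 (k (u 6 2 (k (u 4 1 (k v (k (c 12 4099 r (u 8 1 (k v (k v r)))) (k (u 8 0 (k v (k v r))) (k (c 8 4099 r (u 12 1 (k v (k v r)))) (k (c 8 4099 r (u 12 1 (k v (k v r)))) (k (c 8 4099 r (u 12 1 (k v (k v r)))) r))))))) (k (u 10 5 (k r (k (u 4 1 (k v (k (c 12 4099 r (u 8 1 (k v (k v r)))) (k (u 8 0 (k v (k v r))) (k (c 8 4099 r (u 12 1 (k v (k v r)))) (k (c 8 4099 r (u 12 1 (k v (k v r)))) (k (c 8 4099 r (u 12 1 (k v (k v r)))) r))))))) r))) r))) r))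
 .z .z) .z))))

set_option maxRecDepth 100000 in
def N29 : NT :=
(.s 0x73eff00fa20 4084 (n false (z 123) (n true (n true (n false (n false e e) (n false e e)) e) e)) (u 2 6 (k v (k v (k v (k (c 6 4099 r r) (k r r))))))
 (.s 0x73eef00ee10 4083 (n false (z 107) (n true (n false (n true (n false e e) e) (n false e e)) e)) (u 2 9 (k v (k (t 6 1 (u 4 6 (k (c 12 4099 r r) (k (c 6 4099 v r) (k (c 10 4101 v (c 3 4091 v r)) (k (c 8 4099 r r) (k (c 8 4099 r r) (k (c 8 4099 r r) r)))))))) (k (c 3 4091 v r) (k (u 4 0 (k (t 6 1 (c 3 4091 v r)) r)) r)))))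
 (.s 0x73eeb00ba20 4082 (n false (z 75) (n false (n true (n false (n false e e) (n false e e)) e) e)) (u 2 6 (k v (k v (k (t 6 2 (u 4 47 (k v (k v (k v r))))) r))))
 (.s 0x73eae801d10 4082 (n false (z 163) (n true (n false (n false e e) (n false e e)) e)) (u 2 0 (k r (k (u 6 0 (k (u 10 0 (k r (k r r))) r)) (k r (k r (k r (k (u 6 19 (k r (k (c 14 4099 r (u 10 12 (k r (k r r)))) (k (c 10 4096 r (u 14 1 (k r (k r r)))) r)))) (k r (k r (k r r))))))))))
 (.s 0x73eae801708 4079 (n false (z 163) (n false (n true (n false e e) e) (n false e e))) (u 2 0 (k (u 6 0 (k r (k (c 14 4099 r (u 10 0 (k r (k r r)))) r))) (k (t 6 1 r) (k (u 4 0 (k r (k (c 12 4099 r (u 8 0 (k r (k r r)))) r))) (k (u 4 0 (k r (k (c 8 4099 r (u 12 0 (k r (k r r)))) r))) (k (u 6 0 (k r (k r (k (c 14 4099 r r) r)))) (k r (k (u 6 16 (k r (k (c 14 4097 r r) (k (c 14 4096 r r) (k (c 14 4097 r r) r))))) (k (u 4 0 (k r (k (c 12 4099 r (u 8 0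 (k r (k r r)))) r))) (k (u 4 0 (k r (k (c 12 4099 r r) r))) r))))))))))
 .z .z) (.s 0x73eea801708 4077 (n false (z 139) (n false (n true (n false e e) e) (n false e e))) (u 2 1 (k v (k (t 6 2 (u 4 0 (k (u 8 0 (k v (k v r))) r))) r)))
 .z .z)) (.s 0x73eee00ba20 4084 (n false (n false (n true (n false (n false e e) (n false e e)) e) e) (z 43)) (u 3 3 (k v (k v (k v (k r (k r (k (u 5 0 (k (u 9 0 (k v (k v r))) r)) (k r (k (u 5 2 (k v (k (c 13 4099 r (u 9 1 (k v (k v r)))) (k (c 9 4095 r (u 13 0 (k v (k v r)))) r)))) r)))))))))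
 (.s 0x73eeb00ee10 4085 (n false (z 75) (n true (n false (n true (n false e e) e) (n false e e)) e)) (u 2 1 (k v (k (t 6 2 r) (k (c 3 4091 v (u 4 0 (k r r))) r))))
 .z .z) (.s 0x73eee00fa20 4091 (n false (z 43) (n true (n true (n false (n false e e) (n false e e)) e) e)) (u 2 7 (k v (k v (k v (k r (k (u 4 0 (k (u 8 0 (k v (k v r))) r)) (k r (k r (k (u 4 15 (k v (k v (k v (k (u 8 1 (k v (k v r))) (k (u 8 0 (k v (k v r))) (k (c 12 4097 r (u 8 1 (k v (k v r)))) r))))))) r)))))))))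
 .z .z))) (.s 0x73efb00fe80 4087 (n false (z 91) (n true (n true (n true (n false (n false e e) e) e) e) e)) (u 2 4 (k v (k v (k (u 4 1 (k v (k v r))) (k (c 4 4097 r (u 6 0 (k v (k v r)))) (k (c 4 4097 r (u 6 0 (k v (k v r)))) (k (c 4 4096 r (u 6 0 (k v (k v r)))) (k (c 4 4095 r (u 6 0 (k v (k v r)))) r))))))))
 (.s 0x73efb00ba20 4082 (n false (z 91) (n false (n true (n false (n false e e) (n false e e)) e) e)) (u 2 1 (k v (k v (k v (k (u 4 0 (k v (k v r))) (k (c 4 4097 r (u 6 0 (k v (k v r)))) (k (c 4 4095 r (u 6 0 (k v (k v r)))) r)))))))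
 (.s 0x73efb00ae10 4086 (n false (z 91) (n false (n false (n true (n false e e) e) (n false e e)) e)) (u 2 4 (k v (k v (k (u 4 1 (k v (k v r))) (k (c 4 4097 r (u 6 0 (k v (k v r)))) (k (c 4 4097 r (u 6 0 (k v (k v r)))) (k (c 4 4096 r (u 6 0 (k v (k v r)))) (k (c 4 4095 r (u 6 0 (k v (k v r)))) r))))))))
 .z .z) (.s 0x73efb00ee10 4086 (n false (z 91) (n true (n false (n true (n false e e) e) (n false e e)) e)) (u 2 4 (k v (k v (k (u 4 1 (k v (k v r))) (k (c 4 4097 r (u 6 0 (k v (k v r)))) (k (c 4 4097 r (u 6 0 (k v (k v r)))) (k (c 4 4096 r (u 6 0 (k v (k v r)))) (k (c 4 4095 r (u 6 0 (k v (k v r)))) r))))))))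
 .z .z)) (.s 0x73eff00ee10 4088 (n false (z 123) (n true (n false (n true (n false e e) e) (n false e e)) e)) (u 2 5 (k v (k (u 4 4 (k v (k v (k (t 12 1 r) (k (c 8 4097 r r) (k (c 8 4097 r (u 12 2 (k v (k (c 28 4097 r (u 20 0 (k v (k v r)))) r)))) (k (c 12 4096 r (u 8 0 (k (u 16 0 (k v (k v r))) r))) (k (c 12 4097 r r) (k (c 12 4097 r r) (k (c 12 4097 r r) (k (c 12 4097 r r) (k (c 12 4097 r r) (k (c 12 4097 r r) r))))))))))))) (k (t 6 1 (u 4 6 (k v (k v r)))) (k r (k (c 4 4096 r (u 6 1 (k v (k v r)))) (k (c 3 4091 v (t 4 2 r)) r)))))))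
 (.s 0x73eff00ae10 4089 (n false (z 123) (n false (n false (n true (n false e e) e) (n false e e)) e)) (u 2 4 (k v (k (t 6 1 (u 4 6 (k v (k v r)))) (k r (k r (k (c 4 4096 r (u 6 1 (k v (k v r)))) (k (c 3 4091 v (t 4 2 r)) r)))))))
 .z .z) .z))) (.s 0x73fea801708 4077 (n false (z 143) (n false (n true (n false e e) e) (n false e e))) (u 2 1 (k (t 6 2 r) (k (t 6 2 r) (k (t 4 1 r) (k (t 6 1 r) (k (t 6 2 r) (k (t 6 1 r) r)))))))
 (.s 0x73fbf00ae10 4087 (n false (z 119) (n false (n false (n true (n false e e) e) (n false e e)) e)) (u 2 1 (k r (k (c 3 4091 v r) (k (c 4 4096 r r) (k (c 6 4099 r r) (k (c 6 4099 r r) (k (c 6 4097 r r) (k (c 3 4091 v (t 6 2 (u 4 0 (k r r)))) (k (c 4 4098 r r) (k (c 4 4101 r r) (k r (k (c 4 4099 r r) (k (c 4 4101 r r) (k r r))))))))))))))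
 (.s 0x73fab00ee10 4090 (n false (z 71) (n true (n false (n true (n false e e) e) (n false e e)) e)) (u 2 5 (k v (k (u 4 0 (k v (k v r))) (k (c 6 4099 r (u 4 1 (k v (k v r)))) (k (c 4 4099 r (u 6 1 (k v (k v r)))) (k (c 4 4099 r (u 6 1 (k v (k v r)))) (k (c 4 4099 r (u 6 1 (k v (k v r)))) r)))))))
 (.s 0x73fab00ba20 4088 (n false (z 71) (n false (n true (n false (n false e e) (n false e e)) e) e)) (u 2 7 (k v (k v (k v (k (c 6 4099 r (u 4 1 (k v (k v r)))) r)))))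
 .z .z) (.s 0x73faf00ee10 4084 (n false (z 103) (n true (n false (n true (n false e e) e) (n false e e)) e)) (u 2 1 (k v (k r (k r (k r r)))))
 .z .z)) (.s 0x73fbf00fa20 4085 (n false (z 119) (n true (n true (n false (n false e e) (n false e e)) e) e)) (u 2 11 (k v (k v (k (c 4 4097 r r) (k (c 6 4099 r r) (k (c 6 4096 r (u 4 0 (k (u 8 0 (k v (k v r))) r))) (k (c 4 4098 r r) (k (c 4 4101 r r) (k (c 4 4099 r r) (k (c 4 4101 r r) r))))))))))
 (.s 0x73fbf00ee10 4081 (n false (z 119) (n true (n false (n true (n false e e) e) (n false e e)) e)) (u 2 1 (k r (k r (k (u 6 0 (k r (k (t 4 1 v) (k r r)))) (k r (k r (k (u 6 1 (k r (k (c 14 4097 r (u 10 0 (k r (k r r)))) r))) (k (c 3 4091 v (t 6 2 (u 4 0 (k r r)))) (k r (k r (k r (k r (k r (k r r))))))))))))))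
 .z .z) .z)) (.s 0x73ffa801d10 4085 (n false (z 159) (n true (n false (n false e e) (n false e e)) e)) (u 2 0 (k (c 6 4099 r (u 4 7 (k v (k (t 12 1 r) (k (t 12 1 (u 8 10 (k v (k (c 24 4099 r (u 16 1 (k v (k (c 48 4099 r (u 32 1 (k v (k v r)))) (k (u 32 0 (k v (k v r))) (k (c 32 4099 r (u 48 1 (k v (k v r)))) (k (c 32 4099 r (u 48 1 (k v (k v r)))) (k (c 32 4099 r (u 48 1 (k v (k v r)))) r)))))))) (k (c 24 4100 r (u 16 0 (k (u 32 0 (k v (k v r))) r))) r))))) r))))) r))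
 (.s 0x73feb00ba20 4084 (n false (z 79) (n false (n true (n false (n false e e) (n false e e)) e) e)) (u 2 0 (k v (k (u 4 7 (k v (k v (k v (k (c 12 4099 r (u 8 1 (k v (k v r)))) r))))) r)))
 (.s 0x73fea801d10 4082 (n false (z 143) (n true (n false (n false e e) (n false e e)) e)) (u 2 3 (k v (k (c 6 4096 r r) (k (c 6 4096 r r) (k (c 6 4096 r r) r)))))
 .z .z) (.s 0x73feb00ee10 4086 (n false (z 79) (n true (n false (n true (n false e e) e) (n false e e)) e)) (u 2 2 (k v (k r (k (t 6 2 r) r))))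
 .z .z)) (.s 0x73fff00ba20 4084 (n false (z 127) (n false (n true (n false (n false e e) (n false e e)) e) e)) (u 2 0 (k (u 4 23 (k v (k v (k (c 12 4099 r (u 8 5 (k v (k v (k v (k (t 24 2 (u 16 6 (k v (k v (k (t 48 1 (u 32 2 (k v (k v r)))) r))))) r)))))) (k (u 8 26 (k v (k (c 24 4101 r r) (k (c 16 4101 r r) (k (c 16 4101 r r) r))))) r))))) r))
 (.s 0x73ffb00ee10 4083 (n false (z 95) (n true (n false (n true (n false e e) e) (n false e e)) e)) (u 2 0 (k (t 4 1 r) (k (t 4 2 r) (k (t 4 1 r) r))))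
 .z .z) .z))))

end Pool.Agent.Helper91.ND1
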