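import Pool.Agent.Helper66.ND.Defs

/-! part of the certificate for the constant 25/48 (generated) -/

namespace Pool.Agent.Helper91.ND1

open Pool.Agent.Helper66.IL
open Pool.Agent.Helper66.ND
open Pool.Agent.Helper66.ND.LT
open Pool.Agent.Helper66.ND.Ct

set_option maxRecDepth 100000 in
def N116 : NT :=
(.s 0x1df4bbe80208ee10 4062 (n false (n false (n true (n true (n false (z 26) (n false e e)) e) e) (n false e e)) (n true (n false (n true (n false e e) e) (n false e e)) e)) (u 32 2 (k v (k (c 8 4082 (u 8 1 (k v (k v r))) v) r)))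
 (.s 0x1df3aff0022ee108 4075 (n false (n false (n true (n true (z 121) e) e) (n false e e)) (n false (n true (n false (n true (n false e e) e) (n false e e)) e) (n false e e))) (u 16 1 (k v (k (c 48 4099 r (u 32 1 (k v (k v r)))) (k (c 32 4097 r (u 48 1 (k v (k v r)))) (k (c 32 4095 r (u 48 23 (k v (k v r)))) (k (c 32 4095 r (u 48 23 (k v (k v r)))) r))))))
 (.s 0x1df2bfa80070ee10 4076 (n false (n false (n true (n true (z 156) e) e) (n true (n false e e) e)) (n true (n false (n true (n false e e) e) (n false e e)) e)) (u 16 1 (k v (k (c 48 4099 r (u 32 1 (k v (k v r)))) (k (c 32 4098 r (u 48 1 (k v (k v r)))) (k (c 32 4097 r (u 48 1 (k v (k v r)))) (k (c 32 4099 r (u 48 1 (k v (k v r)))) (k (c 32 4095 r (u 48 0 (k v (k v r)))) r)))))))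
 (.s 0x1df2bbe003a88a20 4079 (n false (n false (n true (n true (z 52) e) e) (n true (n false (n false (n false e e) (n false e e)) (n false (n false e e) (n false e e))) e)) e) (u 16 111 (k v (k v (k v (k v (k v (k v (k v r))))))))
 (.s 0x1df2bbe0022a2288 4081 (n false (n false (n true (n true (z 52) e) e) (n false e e)) (n false (n false (n false e e) (n false e e)) (n false (n false e e) (n false e e)))) (u 16 111 (k v (k v (k v (k v (k v (k v (k v r))))))))
 .z .z) (.s 0x1df2bfa80070ae10 4077 (n false (n false (n true (n true (z 156) e) e) (n true (n false e e) e)) (n false (n false (n true (n false e e) e) (n false e e)) e)) (u 16 1 (k v (k (c 48 4099 r (u 32 1 (k v (k v r)))) (k (c 32 4098 r (u 48 1 (k v (k v r)))) (k (c 32 4097 r (u 48 1 (k v (k v r)))) (k (c 32 4099 r (u 48 1 (k v (k v r)))) (k (c 32 4095 r (u 48 0 (k v (k v r)))) r)))))))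
 .z .z)) (.s 0x1df2fee0022ee108 4072 (n false (n false (n true (n true (z 46) e) e) (n false e e)) (n false (n true (n false (n true (n false e e) e) (n false e e)) e) (n false e e))) (u 16 1 (k v (k (u 32 1 (k v (k v r))) (k (c 48 4099 r (u 32 0 (k v (k v r)))) (k (u 32 1 (k v (k v r))) (k (c 48 4097 r (u 32 1 (k v (k v r)))) (k (c 32 4095 r (u 48 1 (k v (k v r)))) r)))))))
 (.s 0x1df2bff0022ee108 4074 (n false (n false (n true (n true (z 124) e) e) (n false e e)) (n false (n true (n false (n true (n false e e) e) (n false e e)) e) (n false e e))) (u 16 12 (k v (k v (k (c 48 4097 r (u 32 1 (k v (k v r)))) (k (c 48 4096 r (u 32 1 (k v (k v r)))) (k (c 48 4097 r (u 32 1 (k v (k v r)))) (k (c 48 4097 r (u 32 1 (k v (k v r)))) (k (c 48 4099 r (u 32 1 (k v (k v r)))) (k (c 32 4097 r (u 48 1 (k v (k v r)))) r)))))))))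
 .z .z) (.s 0x1df3aff0022a2288 4084 (n false (n false (n true (n true (z 121) e) e) (n false e e)) (n false (n false (n false e e) (n false e e)) (n false (n false e e) (n false e e)))) (u 16 2 (k v (k v (k (c 48 4099 r (u 32 1 (k v (k v r)))) (k (c 32 4095 r (u 48 0 (k v (k v r)))) (k (c 32 4095 r (u 48 0 (k v (k v r)))) r))))))
 .z .z))) (.s 0x1df3fab0022ee108 4077 (n false (n false (n true (n true (z 71) e) e) (n false e e)) (n false (n true (n false (n true (n false e e) e) (n false e e)) e) (n false e e))) (u 16 21 (k v (k (c 48 4099 r (u 32 1 (k v (k v r)))) (k (u 32 0 (k v (k v r))) (k (c 32 4099 r (u 48 1 (k v (k v r)))) (k (c 32 4099 r (u 48 1 (k v (k v r)))) (k (c 32 4099 r (u 48 1 (k v (k v r)))) r)))))))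
 (.s 0x1df3bbb0022a2288 4084 (n false (n false (n true (n true (z 85) e) e) (n false e e)) (n false (n false (n false e e) (n false e e)) (n false (n false e e) (n false e e)))) (u 16 13 (k v (k v (k v (k (u 32 3 (k v (k v r))) (k (c 32 4099 r r) r))))))
 (.s 0x1df3aff00387dc20 4079 (n false (n false (n true (n true (z 121) e) e) (n true (n false e e) e)) (n true (n true (n false (n true (n false e e) e) (n false e e)) e) e)) (u 16 2 (k v (k v (k (c 48 4099 r (u 32 1 (k v (k v r)))) (k (c 32 4095 r (u 48 0 (k v (k v r)))) (k (c 32 4095 r (u 48 0 (k v (k v r)))) r))))))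
 .z .z) (.s 0x1df3efb0022a2288 4083 (n false (n false (n true (n true (z 91) e) e) (n false e e)) (n false (n false (n false e e) (n false e e)) (n false (n false e e) (n false e e)))) (u 16 19 (k v (k v (k v (k (u 32 0 (k v (k v r))) (k (c 32 4097 r (u 48 0 (k v (k v r)))) r))))))
 .z .z)) (.s 0x1df4aef803b84088 4076 (n false (n false (n true (n true (n false (z 52) (n true (n false (n true (n false e e) e) (n false e e)) e)) e) e) (n false e e)) (n false e e)) (u 32 166 (k v (k v (k v (k v (k (t 96 1 (u 64 2 (k v (k v r)))) r))))))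
 (.s 0x1df3fbf0022a2288 4085 (n false (n false (n true (n true (z 119) e) e) (n false e e)) (n false (n false (n false e e) (n false e e)) (n false (n false e e) (n false e e)))) (u 16 22 (k v (k v (k (c 48 4101 r r) (k (c 48 4099 r r) (k (c 48 4096 r (u 32 0 (k (u 64 23 (k v (k v r))) r))) (k (c 32 4098 r r) (k (c 32 4101 r r) (k (c 32 4099 r r) (k (c 32 4101 r r) r))))))))))
 .z .z) .z))) (.s 0x1df5c2070e577c00 4075 (n false (n false (n true (n true (n false (n false (n true (n false e e) e) (n false e e)) e) e) e) (n true (n false e e) e)) (n true (z 52) e)) (u 5 265 (k v (k v (k v (k v (k v (k v (k (t 13 1 (u 9 0 (k v (k v r)))) r))))))))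
 (.s 0x1df55caef8008410 4069 (n false (n false (n true (n true (n false (n false (n false (n false (n true (z 52) e) e) (n false e e)) e) (n false e e)) e) e) (n false e e)) e) (u 512 70 (k v (k v (k v (k v (k v (k v (k v (k (t 1536 2 (u 1024 0 (k (u 2048 2 (k v (k (c 256 4078 (u 16 1 (k v (k v r))) v) r))) r))) (k (t 1536 1 (u 1024 0 (k (c 3072 4099 r (u 2048 2 (k v (k (c 256 4078 (u 16 1 (k v (k v r))) v) r)))) r))) r))))))))))
 (.s 0x1df4fab80070ee10 4076 (n false (n false (n true (n true (n false (z 35) e) e) e) (n true (n false e e) e)) (n true (n false (n true (n false e e) e) (n false e e)) e)) (u 32 2 (k v (k v (k v (k (t 96 1 (u 64 0 (k (t 128 3 (t 192 1 v)) r))) r)))))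
 (.s 0x1df4bbe8020fb840 4063 (n false (n false (n true (n true (n false (z 26) (n false e e)) e) e) (n true (n true (n false (n true (n false e e) e) (n false e e)) e) e)) e) (u 32 2 (k v (k (c 8 4082 (u 8 1 (k v (k v r))) v) r)))
 .z .z) (.s 0x1df54bee801c3810 4062 (n false (n false (n true (n true (n false (n false (n false (z 22) e) (n true (n false e e) e)) (n true (n false e e) e)) e) e) (n false e e)) e) (c 48 4094 v (u 128 1 (k v (k v r))))
 .z .z)) (.s 0x1df57caef8008410 4070 (n false (n false (n true (n true (n false (n false (n false (n true (n true (z 52) e) e) (n false e e)) e) (n false e e)) e) e) (n false e e)) e) (u 512 69 (k v (k v (k v (k v (k v (k v (k v (k v r)))))))))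
 (.s 0x1df572bfa8008410 4073 (n false (n false (n true (n true (n false (n false (n false (n true (z 156) e) (n false e e)) e) (n false e e)) e) e) (n false e e)) e) (u 256 2 (k v (k (c 768 4099 r (u 512 1 (k v (k v r)))) (k (c 512 4095 r (u 768 0 (k v (k v r)))) r))))
 .z .z) .z)) (.s 0x1dfdc2070e55fc00 4077 (n false (n false (n true (n true (n true (n false (n true (n false e e) e) (n false e e)) e) e) e) (n true (n false e e) e)) (n true (z 56) e)) (u 5 1 (k (u 9 1 (k v (k v r))) (k (u 9 333 (k v (k v (k v (k v (k v r)))))) (k (c 9 4096 r (u 13 0 (k v (k v r)))) (k (c 13 4096 r r) r)))))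
 (.s 0x1dfcfef80047dc20 4062 (n false (n false (n true (n true (n true (z 55) e) e) e) (n false e e)) (n true (n true (n false (n true (n false e e) e) (n false e e)) e) e)) (u 32 4 (k (t 96 1 (u 64 14 (k v (k (c 192 4099 r (t 128 3 v)) (k (u 128 4 (k v (k (t 384 1 (u 256 4 (k v (k v r)))) r))) (k (u 128 4 (k v (k (t 384 1 (u 256 4 (k v (k v r)))) r))) (k (c 8 4080 (u 16 0 (k r (k r r))) v) (k (c 8 4082 r v) r)))))))) (k (t 96 2 (u 64 2 (k v (k (c 8 4081 (u 16 1 (k v (k v r))) v) r)))) r)))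
 (.s 0x1dfcaef80047dc20 4062 (n false (n false (n true (n true (n true (z 52) e) e) e) (n false e e)) (n true (n true (n false (n true (n false e e) e) (n false e e)) e) e)) (u 32 30 (k v (k v (k v (k v (k v (k v (k v (k (t 96 2 (u 64 0 (k (u 128 2 (k v (k (c 64 4084 (u 4 1 (k v (k v r))) v) r))) r))) (k (t 96 1 (u 64 0 (k (c 192 4099 r (u 128 2 (k v (k (c 64 4084 (u 4 1 (k v (k v r))) v) r)))) r))) r))))))))))
 .z .z) (.s 0x1dfdc20709555400 4078 (n false (z 128) (n false (n true (n true (n true (n false (n true (n false e e) e) (n false e e)) e) e) e) (n true (n false e e) e))) (u 2 21 (k v (k v (k v (k (c 6 4097 r r) (k (c 4 4095 r r) (k (c 6 4097 r r) (k (c 4 4095 r r) (k (c 4 4095 r (u 6 0 (k v (k v r)))) (k (c 6 4095 r (u 4 43 (k v (k v (k v r))))) (k (c 6 4095 r (u 4 1 (k v (k v r)))) (k (c 4 4097 r (u 6 0 (k v (k v r)))) (k (c 4 4095 r r) (k (c 4 4095 r (u 6 1 (k v (k v r)))) (k (c 6 4097 r r) r)))))))))))))))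
 .z .z)) (.s 0x1dfdc2070e5fdc00 4079 (n false (n false (n true (n true (n true (n false (n true (n false e e) e) (n false e e)) e) e) e) (n true (n false e e) e)) (n true (z 46) e)) (u 5 3 (k v (k v (k (u 9 0 (k v (k v r))) (k (c 13 4097 r (u 9 1 (k v (k v r)))) (k (c 9 4095 r (u 13 1 (k v (k v r)))) r))))))
 (.s 0x1dfdc2070e577c00 4075 (n false (n false (n true (n true (n true (n false (n true (n false e e) e) (n false e e)) e) e) e) (n true (n false e e) e)) (n true (z 52) e)) (u 5 265 (k v (k v (k v (k v (k v (k v (k (t 13 1 (u 9 0 (k v (k v r)))) r))))))))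
 .z .z) .z))))

set_option maxRecDepth 100000 in
def N117 : NT :=
(.s 0x1f4bbe8021d44510 4086 (n false (n true (n false (z 26) (n false e e)) e) (n true (n false (n false (n false e e) (n false e e)) (n false (n false e e) (n false e e))) e)) (u 8 2 (k v (k (c 2 4082 (u 8 1 (k v (k v r))) v) r)))
 (.s 0x1f4bbb80212bbe00 4088 (n false (n true (n false (z 42) (n false e e)) e) (z 52)) (u 8 35 (k r (k (u 3 148 (k v (k v (k v (k v (k v (k v r))))))) (k (c 2 4085 (t 12 1 (u 8 0 (k r r))) r) r))))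
 (.s 0x1f2bfa800ea88a20 4092 (n false (n true (z 156) e) (n true (n false (n false (n false (n false e e) (n false e e)) (n false (n false e e) (n false e e))) e) e)) (u 4 2 (k v (k (c 12 4099 r (u 8 1 (k v (k v r)))) (k (c 8 4095 r (u 12 0 (k v (k v r)))) r))))
 (.s 0x1f2bfa800aa22888 4099 (n false (n true (z 156) e) (n false (n false (n false (n false e e) (n false e e)) (n false (n false e e) (n false e e))) (n false e e))) (u 4 1 (k v (k (c 12 4099 r (u 8 1 (k v (k v r)))) (k (c 8 4098 r (u 12 1 (k v (k v r)))) (k (c 8 4097 r (u 12 1 (k v (k v r)))) (k (c 8 4099 r (u 12 1 (k v (k v r)))) (k (c 8 4095 r (u 12 0 (k v (k v r)))) r)))))))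
 (.s 0x1f2bfa800a7d5600 4096 (n false (n false (z 67) e) (n true (z 156) e)) (u 5 1 (k r (k (c 13 4099 r (u 9 1 (k r (k r r)))) (k (c 9 4098 r (u 13 1 (k r (k r r)))) (k (c 9 4097 r (u 13 31 (k r (k r (k r r))))) (k (c 9 4099 r (u 13 1 (k r (k r r)))) (k (c 9 4095 r (u 13 0 (k r (k r r)))) r)))))))
 .z .z) (.s 0x1f2bfa800e75fe00 4098 (n false (n true (z 156) e) (n true (z 121) e)) (u 4 1 (k r (k (c 12 4099 r (u 8 1 (k r (k r r)))) (k (c 8 4098 r (u 12 1 (k r (k r r)))) (k (c 8 4097 r (u 12 1 (k r (k r r)))) (k (c 8 4099 r (u 12 1 (k r (k r r)))) (k (c 8 4095 r r) r)))))))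
 .z .z)) (.s 0x1f4aef8021d44510 4085 (n false (n true (n false (z 52) (n false e e)) e) (n true (n false (n false (n false e e) (n false e e)) (n false (n false e e) (n false e e))) e)) (u 8 84 (k v (k v (k v (k v (k (t 24 1 (u 16 0 (k v (k v r)))) r))))))
 (.s 0x1f4aab800e75f600 4093 (n false (n true (z 89) e) (n true (n false (z 32) e) e)) (u 4 0 (k (u 9 0 (k (t 17 3 (t 25 1 v)) r)) (k (u 9 0 (k (t 17 3 (t 25 1 v)) r)) (k (u 9 0 (k (t 17 3 (t 25 1 v)) r)) (k (t 12 2 (u 8 134 (k (u 9 0 (k (t 17 3 (t 25 1 v)) r)) (k (t 24 1 (u 16 0 (k (c 16 4094 v (u 9 0 (k (t 17 3 (t 25 1 v)) r))) (k (u 9 0 (k (t 17 3 (t 25 1 v)) r)) r)))) (k (c 4 4089 (t 6 2 (u 4 0 (k r r))) (c 3 4094 (c 4 4096 r v) v)) r))))) r)))))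
 .z .z) (.s 0x1f4aef803b841708 4074 (n false (n true (n false (z 52) (n true (n false (n true (n false e e) e) (n false e e)) e)) e) (n false (n true (n false e e) e) (n false e e))) (u 8 161 (k v (k v (k v (k v (k v (k v (k (t 24 1 (u 16 0 (k v (k v r)))) r))))))))
 .z .z))) (.s 0x1f4bbb80213eee00 4090 (n false (n true (n false (z 42) (n false e e)) e) (z 43)) (u 8 11 (k r (k r (k (c 2 4085 (t 12 1 (u 8 0 (k r r))) (t 3 2 v)) r))))
 (.s 0x1f4bbb80213bbb00 4088 (n false (n true (n false (z 42) (n false e e)) e) (z 85)) (u 8 11 (k r (k r (k (c 2 4085 (t 12 1 (u 8 0 (k r r))) (t 3 1 v)) r))))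
 (.s 0x1f4bbb80212fee00 4088 (n false (n true (n false (z 42) (n false e e)) e) (z 46)) (u 8 11 (k r (k r (k (c 4 4086 (t 6 1 (u 4 0 (k r r))) (c 3 4099 r v)) r))))
 .z .z) (.s 0x1f4bbb80213eab00 4090 (n false (n true (n false (z 42) (n false e e)) e) (z 67)) (u 3 28 (k r (k r (k r (k (c 7 4101 r (u 5 1 (k r (k r r)))) (k r (k (c 5 4101 r (u 7 1 (k r (k r r)))) (k r (k (c 5 4101 r (u 7 1 (k r (k r r)))) r)))))))))
 .z .z)) (.s 0x1f4bbb80213fab00 4088 (n false (n true (n false (z 42) (n false e e)) e) (z 71)) (u 3 1 (k r (k (c 7 4099 r (u 5 1 (k r (k r r)))) (k (u 5 23 (k r (k r r))) (k (c 5 4099 r (u 7 1 (k r (k r r)))) (k (c 5 4099 r (u 7 1 (k r (k r r)))) (k (c 5 4099 r (u 7 1 (k r (k r r)))) r)))))))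
 (.s 0x1f4bbb80213eff00 4088 (n false (z 123) (n true (n false (z 42) (n false e e)) e)) (u 9 11 (k r (k r (k (c 3 4085 (t 12 1 (u 8 0 (k r r))) (t 2 2 v)) r))))
 .z .z) .z))) (.s 0x1f53eae005c21708 4075 (n false (n true (n false (n false (z 35) e) (n false (n true (n false e e) e) (n false e e))) e) (n false (n true (n false e e) e) (n false e e))) (u 16 2 (k v (k v (k v (k (t 48 1 (u 32 0 (k (t 64 3 (t 96 1 v)) r))) r)))))
 (.s 0x1f4feec00e7d5600 4098 (n false (n true (n false (z 87) e) e) (n true (z 67) e)) (u 5 24 (k (u 8 1 (k v (k v r))) (k (u 8 1 (k v (k v r))) (k (u 8 0 (k v (k v r))) (k (c 4 4098 (u 2 0 (k v (k v r))) v) (k (t 13 1 (u 9 1 (k (c 8 4099 r v) (k (u 8 0 (k v (k v r))) r)))) (k (c 9 4101 r (u 13 0 (k (u 8 1 (k v (k v r))) (k (u 8 1 (k v (k v r))) r)))) (k (c 4 4098 (u 2 0 (k v (k v r))) (c 3 4088 r v)) (k (c 13 4101 r r) (k r (k (c 13 4102 r r) (k (c 9 4101 r r) (k r (k (c 9 4101 r r) r))))))))))))))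
 (.s 0x1f4efb80213eab00 4096 (n false (n true (n false (z 45) (n false e e)) e) (z 67)) (u 3 15 (k (u 8 0 (k v (k v r))) (k (t 8 1 v) (k (c 2 4096 (t 4 1 v) v) (k (u 8 0 (k v (k v r))) (k (u 8 0 (k v (k v r))) (k (c 2 4096 (t 4 1 v) v) (k r (k (c 5 4101 r r) (k r (k (c 2 4096 (t 4 1 v) r) (k (c 5 4099 r r) (k (c 2 4096 (t 4 1 v) (t 7 2 (u 5 0 (k r r)))) (k (c 7 4101 r r) (k r (k (c 7 4102 r r) (k (c 5 4101 r r) (k (t 7 1 (u 5 3 (k r (k (u 8 0 (k v (k v r))) (k (c 13 4099 r r) r))))) (k (c 5 4101 r r) r)))))))))))))))))))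
 (.s 0x1f4ebec00e7f7e00 4098 (n false (n true (z 119) e) (n true (n false (z 89) e) e)) (u 9 24 (k r (k r (k (t 4 3 v) (k (t 25 2 (u 4 10 (k (c 5 4094 r v) (k (c 12 4101 r r) (k (c 8 4101 r r) (k (c 8 4101 r r) r)))))) r)))))
 .z .z) (.s 0x1f4faac00e577c00 4093 (n false (n true (n false (z 67) e) e) (n true (z 52) e)) (u 5 160 (k r (k r (k (t 8 2 v) (k (t 8 2 v) (k (t 13 1 (u 9 2 (k r (k r r)))) r))))))
 .z .z)) (.s 0x1f52bfa800e0ee10 4077 (n false (n true (n false (n false (z 156) e) (n true (n false e e) e)) e) (n true (n false (n true (n false e e) e) (n false e e)) e)) (u 16 8 (k v (k v (k (c 48 4099 r (u 32 1 (k v (k v r)))) (k (c 32 4098 r (u 48 1 (k v (k v r)))) (k (c 32 4097 r (u 48 1 (k v (k v r)))) (k (c 32 4099 r (u 48 1 (k v (k v r)))) r)))))))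
 (.s 0x1f52bbe0082a8888 4083 (n false (n true (n false (n false (z 52) (n false e e)) e) e) (n false (n false (n false (n false e e) (n false e e)) (n false e e)) (n false e e))) (u 16 36 (k v (k v (k (t 48 1 (u 32 0 (k v (k v r)))) r))))
 .z .z) .z)) (.s 0x1f544511095fd400 4099 (n false (z 156) (n true (n false (n false (n false (n false e e) (n false e e)) (n false (n false e e) (n false e e))) (n false e e)) e)) (u 2 1 (k v (k (c 6 4099 r (u 4 1 (k v (k v r)))) (k (c 4 4098 r (u 6 1 (k v (k v r)))) (k (c 4 4097 r (u 6 1 (k v (k v r)))) (k (c 4 4099 r (u 6 1 (k v (k v r)))) (k (c 4 4095 r (u 6 0 (k v (k v r)))) r)))))))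
 (.s 0x1f54451109555400 4095 (n false (z 128) (n true (n false (n false (n false (n false e e) (n false e e)) (n false (n false e e) (n false e e))) (n false e e)) e)) (u 2 1 (k v (k (c 4 4097 r r) (k (c 6 4099 r r) (k (c 6 4099 r r) (k (c 4 4096 r r) (k (c 6 4097 r r) (k (c 4 4095 r r) (k (c 4 4095 r (u 6 0 (k v (k v r)))) (k (c 4 4099 r r) (k (c 6 4097 r (u 4 1 (k v (k v r)))) (k (c 4 4098 r r) (k (c 4 4099 r r) (k (c 6 4095 r (u 4 1 (k v (k v r)))) (k (c 4 4097 r (u 6 0 (k v (k v r)))) (k (c 4 4095 r r) (k (c 4 4099 r r) (k (c 4 4095 r (u 6 1 (k v (k v r)))) (k (c 4 4097 r r) r)))))))))))))))))))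
 (.s 0x1f53fbe005c21708 4077 (n false (n true (n false (n false (z 55) e) (n false (n true (n false e e) e) (n false e e))) e) (n false (n true (n false e e) e) (n false e e))) (u 16 6 (k v (k (t 48 1 (u 32 10 (k v (k v r)))) r)))
 .z .z) (.s 0x1f5445110957d400 4093 (n false (z 152) (n true (n false (n false (n false (n false e e) (n false e e)) (n false (n false e e) (n false e e))) (n false e e)) e)) (u 2 0 (k (t 6 1 r) (k (t 6 1 r) (k (t 4 2 r) (k (t 4 1 r) r)))))
 .z .z)) (.s 0x1f54451109d55400 4094 (n false (z 129) (n true (n false (n false (n false (n false e e) (n false e e)) (n false (n false e e) (n false e e))) (n false e e)) e)) (u 2 0 (k (u 6 6 (k (u 4 57 (k v (k (c 12 4099 r r) (k (c 8 4099 r r) (k (c 12 4099 r r) (k (c 12 4099 r r) (k (c 12 4099 r r) (k (c 12 4099 r r) r)))))))) (k (c 2 4084 r v) r))) r))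
 (.s 0x1f544511097f5400 4096 (n false (z 142) (n true (n false (n false (n false (n false e e) (n false e e)) (n false (n false e e) (n false e e))) (n false e e)) e)) (u 2 0 (k (u 4 0 (k (c 2 4083 r v) (k (u 6 74 (k r (k (c 5 4099 v r) (k r r)))) r))) r))
 .z .z) .z))))

set_option maxRecDepth 100000 in
def N118 : NT :=
(.s 0x1f5445110e7f7e00 4100 (n false (n true (z 119) e) (n true (n false (n false (n false (n false e e) (n false e e)) (n false (n false e e) (n false e e))) (n false e e)) e)) (u 4 10 (k v (k (t 12 1 r) (k (c 12 4097 r (u 8 1 (k v (k (c 24 4099 r (u 16 1 (k v (k v r)))) (k (c 16 4097 r (u 24 1 (k v (k v r)))) (k (c 16 4095 r (u 24 0 (k v (k v r)))) (k (c 16 4095 r (u 24 0 (k v (k v r)))) r))))))) (k (c 12 4097 r (u 8 1 (k v (k (c 24 4099 r (u 16 1 (k v (k v r)))) (k (c 16 4098 r (u 24 1 (k v (k v r)))) (k (c 16 4097 r (u 24 1 (k v (k v r)))) (k (c 16 4099 r (u 24 1 (k v (k v r)))) (k (c 16 4095 r (u 24 0 (k v (k v r)))) r)))))))) r)))))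
 (.s 0x1f5445110a7f7e00 4099 (n false (n false (z 119) e) (n true (n false (n false (n false (n false e e) (n false e e)) (n false (n false e e) (n false e e))) (n false e e)) e)) (u 4 10 (k v (k (t 12 1 r) (k (c 12 4097 r (u 8 1 (k v (k (c 24 4099 r (u 16 1 (k v (k v r)))) (k (c 16 4097 r (u 24 1 (k v (k v r)))) (k (c 16 4095 r (u 24 23 (k v (k v r)))) (k (c 16 4095 r (u 24 23 (k v (k v r)))) r))))))) (k (c 12 4097 r (u 8 8 (k v (k v (k (c 24 4099 r (u 16 1 (k v (k v r)))) (k (c 16 4098 r (u 24 1 (k v (k v r)))) (k (c 16 4097 r (u 24 1 (k v (k v r)))) (k (c 16 4099 r (u 24 1 (k v (k v r)))) r)))))))) r)))))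
 (.s 0x1f54451109f75400 4095 (n false (z 139) (n true (n false (n false (n false (n false e e) (n false e e)) (n false (n false e e) (n false e e))) (n false e e)) e)) (u 2 0 (k (t 6 1 (u 4 0 (k (c 12 4099 r (u 8 0 (k (t 24 1 (u 16 0 (k v (k r (k (c 48 4099 r (u 32 0 (k (u 64 3 (k v (k v (k v r)))) r))) (k r (k (c 8 4088 r v) (k (u 32 0 (k (u 64 0 (k v (k v r))) r)) (k r (k (u 32 2 (k v (k (c 96 4099 r (u 64 1 (k v (k v r)))) (k (c 64 4095 r (u 96 0 (k v (k v r)))) r)))) r)))))))))) r))) r))) (k (t 6 4 (c 5 4099 v (u 4 0 (k r r)))) r)))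
 (.s 0x1f54451109dd5400 4094 (n false (z 133) (n true (n false (n false (n false (n false e e) (n false e e)) (n false (n false e e) (n false e e))) (n false e e)) e)) (u 2 0 (k r (k (c 5 4099 v r) (k (c 5 4099 v r) (k (t 6 1 r) (k (c 5 4099 v r) (k (t 6 1 r) (k r (k r r)))))))))
 (.s 0x1f54451109d7d400 4094 (n false (z 153) (n true (n false (n false (n false (n false e e) (n false e e)) (n false (n false e e) (n false e e))) (n false e e)) e)) (u 2 0 (k (t 4 1 r) (k (t 6 1 r) (k (u 4 1 (k r (k (c 12 4097 r (u 8 1 (k r (k r r)))) (k (c 12 4096 r (u 8 1 (k r (k r r)))) (k (c 8 4098 r (u 12 0 (k r (k r r)))) (k (c 12 4096 r (u 8 1 (k r (k r r)))) (k (c 12 4097 r (u 8 1 (k r (k r r)))) (k (c 12 4097 r (u 8 1 (k r (k r r)))) (k (c 12 4096 r (u 8 1 (k r (k r r)))) (k (c 12 4099 r (u 8 1 (k r (k r r)))) (k (c 8 4097 r (u 12 1 (k r (k r r)))) r))))))))))) (k (t 4 2 r) (k (t 4 1 r) (k (t 4 1 r) r)))))))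
 .z .z) (.s 0x1f54451109df5400 4094 (n false (z 141) (n true (n false (n false (n false (n false e e) (n false e e)) (n false (n false e e) (n false e e))) (n false e e)) e)) (u 2 3 (k (t 6 2 (c 5 4099 v r)) (k (c 5 4099 v (t 6 1 (u 4 0 (k r r)))) (k (c 5 4099 v r) (k (c 5 4099 v r) r)))))
 .z .z)) (.s 0x1f5445110a577c00 4094 (n false (n false (z 52) e) (n true (n false (n false (n false (n false e e) (n false e e)) (n false (n false e e) (n false e e))) (n false e e)) e)) (u 4 14 (k v (k v (k v (k v (k v (k v (k (t 12 1 (u 8 0 (k v (k v r)))) r))))))))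
 (.s 0x1f54451109fd5400 4096 (n false (z 135) (n true (n false (n false (n false (n false e e) (n false e e)) (n false (n false e e) (n false e e))) (n false e e)) e)) (u 2 0 (k (t 6 2 r) (k (t 6 2 r) (k (t 4 2 r) r))))
 .z .z) (.s 0x1f5445110a75f600 4096 (n false (n false (z 89) e) (n true (n false (n false (n false (n false e e) (n false e e)) (n false (n false e e) (n false e e))) (n false e e)) e)) (u 4 0 (k v (k v (k v (k (t 12 2 r) r)))))
 .z .z))) (.s 0x1f5445110e5ffc00 4092 (n false (n true (z 62) e) (n true (n false (n false (n false (n false e e) (n false e e)) (n false (n false e e) (n false e e))) (n false e e)) e)) (u 4 1 (k v (k v (k v (k (t 12 1 r) r)))))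
 (.s 0x1f5445110e577c00 4094 (n false (n true (z 52) e) (n true (n false (n false (n false (n false e e) (n false e e)) (n false (n false e e) (n false e e))) (n false e e)) e)) (u 4 12 (k v (k v (k v (k v (k v (k v (k (t 12 1 (u 8 0 (k v (k v r)))) r))))))))
 (.s 0x1f5445110e555e00 4092 (n false (n true (z 96) e) (n true (n false (n false (n false (n false e e) (n false e e)) (n false (n false e e) (n false e e))) (n false e e)) e)) (u 4 0 (k (t 12 2 (u 8 0 (k (c 24 4099 r (u 16 0 (k v (k v (k (c 8 4084 (u 4 1 (k v (k v r))) v) r))))) r))) r))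
 .z .z) (.s 0x1f5445110e5f7e00 4091 (n false (n true (z 118) e) (n true (n false (n false (n false (n false e e) (n false e e)) (n false (n false e e) (n false e e))) (n false e e)) e)) (u 4 6 (k v (k (t 12 1 r) (k (t 12 1 (u 8 0 (k v (k v (k r (k (c 16 4103 r (u 24 0 (k (u 40 0 (k v (k v r))) r))) (k (t 24 3 (u 16 8 (k v (k (c 48 4099 r (c 2 4087 r v)) r)))) (k (c 24 4099 r r) (k (c 16 4101 r r) (k (c 24 4103 r r) (k (c 24 4100 r r) (k (c 24 4099 r r) (k (c 24 4100 r r) r))))))))))))) r))))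
 .z .z)) (.s 0x1f5445110e7f7c00 4094 (n false (n true (z 55) e) (n true (n false (n false (n false (n false e e) (n false e e)) (n false (n false e e) (n false e e))) (n false e e)) e)) (u 4 4 (k (t 12 1 (u 8 2 (k v (k (t 16 3 (t 24 1 v)) (k (u 16 0 (k v (k v r))) r))))) (k (c 2 4091 (t 6 2 r) v) r)))
 (.s 0x1f5445110e7d7c00 4094 (n false (n true (z 51) e) (n true (n false (n false (n false (n false e e) (n false e e)) (n false (n false e e) (n false e e))) (n false e e)) e)) (u 4 0 (k (t 12 1 (u 8 0 (k (t 16 3 (t 24 3 v)) r))) r))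
 .z .z) .z))) (.s 0x1f72fee0013eab00 4093 (n false (n true (n false (n true (z 46) e) e) e) (z 67)) (u 16 2 (k r (k (c 48 4099 r (u 32 0 (k r (k r r)))) (k (u 32 1 (k r (k r r))) (k (u 32 1 (k r (k r r))) (k (c 48 4097 r (u 32 1 (k r (k r r)))) (k (c 32 4095 r (u 48 1 (k r (k r r)))) r)))))))
 (.s 0x1f5cfab800e0ee10 4079 (n false (n true (n false (n false (n true (z 35) e) e) (n true (n false e e) e)) e) (n true (n false (n true (n false e e) e) (n false e e)) e)) (u 32 10 (k v (k v (k v (k (t 96 1 (u 64 0 (k (t 128 3 (t 192 1 v)) r))) r)))))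
 (.s 0x1f57caef800843a0 4072 (n false (n true (n false (n false (n false (n true (n true (z 52) e) e) (n false e e)) e) (n false e e)) e) (n true (n false (n false e e) e) e)) (u 128 403 (k v (k v (k v (k v (k v (k v (k v r))))))))
 (.s 0x1f55caef800843a0 4071 (n false (n true (n false (n false (n false (n false (n true (z 52) e) e) (n false e e)) e) (n false e e)) e) (n true (n false (n false e e) e) e)) (u 128 163 (k v (k v (k v (k v (k v (k v (k v r))))))))
 .z .z) (.s 0x1f5cbbb800875c20 4076 (n false (n true (n false (n false (n true (z 42) e) e) (n false e e)) e) (n true (n false (n false (n true (n false e e) e) (n false e e)) e) e)) (c 2 4083 (u 16 1 (k v (k v r))) v)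
 .z .z)) (.s 0x1f72bff0013eab00 4093 (n false (n true (n false (n true (z 124) e) e) e) (z 67)) (u 16 5 (k r (k (c 48 4097 r (u 32 1 (k r (k r r)))) (k (c 48 4096 r (u 32 1 (k r (k r r)))) (k (c 32 4098 r (u 48 0 (k r (k r r)))) (k (c 48 4096 r (u 32 1 (k r (k r r)))) (k (c 48 4097 r (u 32 1 (k r (k r r)))) (k (c 48 4097 r (u 32 1 (k r (k r r)))) (k (c 48 4096 r (u 32 1 (k r (k r r)))) (k (c 32 4097 r (u 48 1 (k r (k r r)))) r))))))))))
 (.s 0x1f5d4443813eab00 4082 (n false (n true (n false (n false (n true (n false (n false (n false e e) (n false e e)) (n false e e)) e) (n true (n false e e) e)) e) e) (z 67)) (u 3 145 (k v (k v (k v (k v (k (u 7 2 (k (t 5 1 v) (k (u 5 1 (k v (k v r))) r))) (k (t 7 1 (u 5 1 (k v (k v r)))) (k (u 5 2 (k (t 7 1 v) (k (u 7 0 (k v (k v r))) r))) (k r (k (c 8 4087 v (c 2 4094 v r)) (k (t 7 1 (u 5 0 (k (u 9 0 (k v (k v r))) r))) (k (t 7 1 r) (k (c 16 4090 v (c 2 4091 v (t 5 1 (u 7 0 (k r r))))) (k (c 16 4090 v r) (k (t 7 1 r) (k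 (c 16 4090 v (c 24 4094 v (u 7 0 (k r (k (t 5 1 v) r))))) r))))))))))))))))
 .z .z) .z)) (.s 0x1f73bae0013eab00 4093 (n false (n true (n false (n true (z 37) e) e) e) (z 67)) (u 16 0 (k r (k (u 32 0 (k (t 64 3 (t 96 1 (u 3 0 (k v (k v r))))) r)) (k r (k r (k (u 32 0 (k r (k (c 16 4094 v r) (k r r)))) (k (c 8 4088 r (c 2 4094 v (t 3 2 v))) r)))))))
 (.s 0x1f73aff0013eab00 4093 (n false (n true (n false (n true (z 121) e) e) e) (z 67)) (u 16 1 (k r (k (c 48 4099 r (u 32 1 (k r (k r r)))) (k (c 32 4097 r (u 48 1 (k r (k r r)))) (k (c 32 4095 r (u 48 0 (k r (k r r)))) (k (c 32 4095 r (u 48 0 (k r (k r r)))) r))))))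
 (.s 0x1f73aff0012aff00 4095 (n false (z 120) (n true (n false (n true (z 121) e) e) e)) (u 17 1 (k r (k (c 49 4099 r (u 33 1 (k r (k r r)))) (k (c 33 4097 r r) (k (c 33 4095 r (u 49 0 (k r (k r r)))) (k (c 33 4095 r (u 49 0 (k r (k r r)))) r))))))
 .z .z) (.s 0x1f73bae0012aff00 4095 (n false (z 120) (n true (n false (n true (z 37) e) e) e)) (u 17 23 (k (c 3 4092 v (t 2 2 v)) (k r (k (t 2 3 (u 33 0 (k (t 65 3 (t 97 1 v)) r))) (k (t 2 3 r) (k (c 17 4095 r r) r))))))
 .z .z)) (.s 0x1f7552fff0043820 4069 (n false (n true (n false (n true (n false (n false (n false (n false (z 126) e) (n false e e)) e) (n true (n false e e) e)) e) (n false e e)) e) e) (u 256 2 (k v (k (t 768 1 (u 512 21 (k v (k v (k v (k (c 1024 4097 r (u 1536 1 (k v (k v r)))) r)))))) (k (t 768 1 (u 512 17 (k v (k v (k (c 1024 4096 r (u 1536 1 (k v (k v r)))) r))))) r))))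
 (.s 0x1f73efb0013eab00 4092 (n false (n true (n false (n true (z 91) e) e) e) (z 67)) (u 16 2 (k r (k (c 16 4090 v r) (k (u 32 1 (k r (k r r))) (k (c 32 4097 r (u 48 0 (k r (k r r)))) (k (c 32 4097 r (u 48 0 (k r (k r r)))) (k (c 32 4096 r (u 48 0 (k r (k r r)))) (k (c 32 4095 r (u 48 0 (k r (k r r)))) r))))))))
 .z .z) .z))))

set_option maxRecDepth 100000 in
def N119 : NT :=
(.s 0x1fcaef800e7d5600 4095 (n false (n true (n true (z 52) e) e) (n true (z 67) e)) (u 8 263 (k (u 5 0 (k v (k v r))) (k r (k r (k (u 5 0 (k v (k v r))) (k (t 24 1 r) r))))))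
 (.s 0x1f7fdd3eae002020 4066 (n false (n true (n false (n true (n true (n true (n true (n false (n true (n false (z 35) e) e) (n false e e)) e) e) e) e) (n false e e)) e) e) (u 1024 2 (k v (k v (k v (k (t 3072 1 (u 2048 0 (k (t 4096 3 (t 6144 1 v)) r))) r)))))
 (.s 0x1f7d7081c13eee00 4077 (n false (n true (n false (n true (n true (n false (n false (n true (n false e e) e) (n false e e)) e) e) e) (n true (n false e e) e)) e) (z 43)) (u 3 3 (k v (k v (k v (k r (k r (k (u 5 0 (k (u 9 0 (k v (k v r))) r)) (k r (k (u 5 2 (k v (k (c 13 4099 r (u 9 1 (k v (k v r)))) (k (c 9 4095 r (u 13 0 (k v (k v r)))) r)))) r)))))))))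
 (.s 0x1f7cbfb800e0ae10 4077 (n false (n true (n false (n true (n true (z 46) e) e) (n true (n false e e) e)) e) (n false (n false (n true (n false e e) e) (n false e e)) e)) (u 32 2 (k v (k (c 96 4099 r (u 64 0 (k v (k v r)))) (k (u 64 1 (k v (k v r))) (k (u 64 0 (k v (k v r))) (k (c 96 4097 r (u 64 1 (k v (k v r)))) (k (c 64 4095 r (u 96 1 (k v (k v r)))) r)))))))
 (.s 0x1f7cafea00075110 4081 (n false (n true (n false (n true (n true (z 156) e) e) e) e) (n true (n false (n false (n false e e) (n false e e)) (n false e e)) e)) (u 32 1 (k v (k (c 96 4099 r (u 64 1 (k v (k v r)))) (k (c 64 4098 r (u 96 1 (k v (k v r)))) (k (c 64 4097 r (u 96 1 (k v (k v r)))) (k (c 64 4099 r (u 96 1 (k v (k v r)))) (k (c 64 4095 r (u 96 0 (k v (k v r)))) r)))))))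
 .z .z) (.s 0x1f7cebfc00e0ae10 4077 (n false (n true (n false (n true (n true (z 121) e) e) (n true (n false e e) e)) e) (n false (n false (n true (n false e e) e) (n false e e)) e)) (u 32 2 (k v (k v (k (c 96 4099 r (u 64 1 (k v (k v r)))) (k (c 64 4095 r (u 96 0 (k v (k v r)))) (k (c 64 4095 r (u 96 0 (k v (k v r)))) r))))))
 .z .z)) (.s 0x1f7f7081c13eee00 4077 (n false (n true (n false (n true (n true (n true (n false (n true (n false e e) e) (n false e e)) e) e) e) (n true (n false e e) e)) e) (z 43)) (u 3 3 (k v (k v (k v (k r (k r (k (u 5 0 (k (u 9 0 (k v (k v r))) r)) (k r (k (u 5 2 (k v (k (c 13 4099 r (u 9 1 (k v (k v r)))) (k (c 9 4095 r (u 13 0 (k v (k v r)))) r)))) r)))))))))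
 (.s 0x1f7f2bbe00075110 4080 (n false (n true (n false (n true (n true (n true (z 52) e) e) e) e) e) (n true (n false (n false (n false e e) (n false e e)) (n false e e)) e)) (u 64 286 (k v (k v (k v (k v (k v r))))))
 .z .z) (.s 0x1f7fdcafea002020 4066 (n false (n true (n false (n true (n true (n true (n true (n false (n true (z 156) e) (n false e e)) e) e) e) e) (n false e e)) e) e) (u 512 1 (k v (k (c 1536 4099 r (u 1024 1 (k v (k v r)))) (k (c 1024 4098 r (u 1536 1 (k v (k v r)))) (k (c 1024 4097 r (u 1536 1 (k v (k v r)))) (k (c 1024 4099 r (u 1536 1 (k v (k v r)))) (k (c 1024 4095 r (u 1536 0 (k v (k v r)))) r)))))))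
 .z .z))) (.s 0x1fcaef800e57fe00 4092 (n false (n true (n true (z 52) e) e) (n true (z 124) e)) (u 5 1 (k r (k (c 13 4097 r (u 9 1 (k r (k r r)))) (k (c 13 4096 r (u 9 1 (k r (k r r)))) (k (c 9 4098 r (u 13 0 (k r (k r r)))) (k (c 13 4096 r (u 9 1 (k r (k r r)))) (k (c 13 4097 r (u 9 1 (k r (k r r)))) (k (c 13 4097 r (u 9 1 (k r (k r r)))) (k (c 13 4096 r (u 9 1 (k r (k r r)))) (k (c 13 4099 r (u 9 1 (k r (k r r)))) (k (c 9 4097 r (u 13 1 (k r (k r r)))) r)))))))))))
 (.s 0x1f7fdf3eae002020 4068 (n false (n true (n false (n true (n true (n true (n true (n false (n true (n true (z 35) e) e) (n false e e)) e) e) e) e) (n false e e)) e) e) (u 1024 2 (k v (k v (k v (k (t 3072 1 (u 2048 0 (k (t 4096 3 (t 6144 1 v)) r))) r)))))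
 (.s 0x1f7fdd3fbe002020 4066 (n false (n true (n false (n true (n true (n true (n true (n false (n true (n false (z 55) e) e) (n false e e)) e) e) e) e) (n false e e)) e) e) (u 1024 4 (k (t 3072 1 (u 2048 29 (k v (k v (k v (k (u 4096 2 (k v (k v r))) (k (u 4096 2 (k v (k v r))) r))))))) (k (c 512 4091 (t 6 2 r) v) r)))
 .z .z) (.s 0x1fcaef800a7d5600 4093 (n false (n false (z 67) e) (n true (n true (z 52) e) e)) (u 9 202 (k r (k (t 4 2 v) (k r (k (t 4 2 v) (k (t 25 1 (u 17 2 (k r (k r r)))) r))))))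
 .z .z)) (.s 0x1fcaef800e75fe00 4092 (n false (n true (n true (z 52) e) e) (n true (z 121) e)) (u 8 158 (k r (k r (k r (k r (k r (k r r)))))))
 (.s 0x1fcaef800e5fdc00 4092 (n false (n true (n true (z 52) e) e) (n true (z 46) e)) (u 5 1 (k r (k (u 9 1 (k r (k r r))) (k (c 13 4099 r (u 9 0 (k r (k r r)))) (k (u 9 1 (k r (k r r))) (k (c 13 4097 r (u 9 1 (k r (k r r)))) (k (c 9 4095 r (u 13 1 (k r (k r r)))) r)))))))
 .z .z) .z))) (.s 0x1fcbfb800a577c00 4093 (n false (n true (n true (z 46) e) e) (n false (z 52) e)) (u 8 17 (k r (k r (k (u 16 1 (k r (k r r))) (k (u 16 1 (k r (k r r))) (k (c 24 4097 r (u 16 1 (k r (k r r)))) (k (c 16 4095 r (u 24 1 (k r (k r r)))) r)))))))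
 (.s 0x1fcbbb800e777600 4093 (n false (n true (n true (z 42) e) e) (n true (z 85) e)) (u 5 10 (k (c 13 4099 r (u 8 1 (k r (k r r)))) (k (c 13 4099 r (c 3 4088 r r)) (k (c 13 4099 r (u 9 4 (k (u 8 32 (k v (k v (k v r)))) (k (u 8 1 (k v (k v r))) (k (u 8 1 (k v (k v r))) (k (t 25 1 (u 8 1 (k r (k r r)))) r)))))) (k (u 8 1 (k r (k r r))) (k (c 13 4101 r r) (k (c 13 4096 r (c 3 4088 r r)) (k (c 9 4099 r (u 8 1 (k r (k r r)))) r))))))))
 (.s 0x1fcaef800e7f7e00 4093 (n false (n true (z 119) e) (n true (n true (z 52) e) e)) (u 4 15 (k r (k (c 5 4096 r v) (k (c 12 4101 r r) (k (c 12 4099 r r) (k (c 12 4097 r r) (k (c 12 4096 r r) (k (c 8 4098 r r) (k (c 8 4101 r r) (k (c 8 4099 r r) (k (c 8 4101 r r) r)))))))))))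
 (.s 0x1fcaef800e7df600 4092 (n false (n true (n true (z 52) e) e) (n true (z 91) e)) (u 5 3 (k (c 4 4096 r v) (k r (k (u 9 1 (k r (k r r))) (k (c 9 4097 r (u 13 0 (k r (k r r)))) (k (c 9 4097 r (u 13 0 (k r (k r r)))) (k (c 9 4096 r (u 13 0 (k r (k r r)))) r)))))))
 .z .z) (.s 0x1fcbbb800e5d7c00 4091 (n false (n true (z 50) e) (n true (n true (z 42) e) e)) (u 4 1 (k (u 9 32 (k v (k v (k v r)))) (k (c 8 4097 r r) r)))
 .z .z)) (.s 0x1fcbbb800e7f7e00 4094 (n false (n true (z 119) e) (n true (n true (z 42) e) e)) (u 4 37 (k (u 9 1 (k v (k v r))) (k r (k (c 2 4091 r r) (k (c 8 4096 r r) (k (c 12 4099 r (u 9 1 (k r (k r r)))) (k (c 12 4097 r (u 9 1 (k r (k r r)))) (k (c 2 4088 (t 6 2 (u 4 0 (k r r))) r) (k (c 8 4098 r (u 9 1 (k r (k r r)))) (k (c 8 4101 r r) (k (u 8 2 (k r (k r (k (c 24 4099 r r) (k (c 16 4095 r r) (k (c 16 4095 r r) r)))))) (k (c 8 4099 r (u 9 1 (k r (k r r)))) (k (c 8 4101 r r) (k (u 8 32 (k r (k r (k (c 4 4064 r r) (k (c 24 4099 r r) (k (c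 16 4099 r r) r)))))) r))))))))))))))
 (.s 0x1fcbbb800e7dfe00 4095 (n false (n true (n true (z 42) e) e) (n true (z 123) e)) (u 8 76 (k r (k (u 5 40 (k v (k v (k v r)))) (k r (k r (k r r))))))
 .z .z) .z)) (.s 0x1fcfaac00e75fe00 4099 (n false (n true (n true (z 67) e) e) (n true (z 121) e)) (u 5 24 (k (u 8 0 (k v (k v r))) (k (u 8 0 (k v (k v r))) (k (u 8 0 (k v (k v r))) (k (c 13 4099 r (u 9 1 (k (u 8 0 (k v (k v r))) (k (u 8 0 (k v (k v r))) r)))) (k (c 9 4097 r (u 8 0 (k (u 13 32 (k v (k v (k v r)))) (k (u 13 1 (k v (k v r))) r)))) r))))))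
 (.s 0x1fcebfc00a577c00 4093 (n false (n true (n true (z 121) e) e) (n false (z 52) e)) (u 5 156 (k r (k (u 8 1 (k v (k (c 24 4099 r (u 16 1 (k v (k v r)))) (k (c 16 4097 r (u 24 1 (k v (k v r)))) (k (c 16 4095 r (u 24 0 (k v (k v r)))) (k (c 16 4095 r (u 24 0 (k v (k v r)))) r)))))) (k r (k (u 8 2 (k v (k v (k (c 24 4099 r (u 16 1 (k v (k v r)))) (k (c 16 4095 r (u 24 0 (k v (k v r)))) (k (c 16 4095 r (u 24 0 (k v (k v r)))) r)))))) (k (t 13 1 (u 9 0 (k r (k r r)))) r))))))
 (.s 0x1fcbff800e7d5600 4095 (n false (n true (n true (z 62) e) e) (n true (z 67) e)) (u 5 109 (k r (k (c 4 4094 r v) (k r (k (c 4 4094 r v) (k (c 9 4101 r (u 8 4 (k (u 13 0 (k v (k v r))) (k (u 13 0 (k v (k v r))) (k (u 13 0 (k v (k v r))) (k (t 24 1 (u 13 0 (k r (k r r)))) r)))))) (k (c 4 4094 r (c 3 4088 r v)) (k (c 13 4101 r r) (k (c 13 4102 r r) (k (c 9 4101 r r) (k (c 9 4101 r r) r)))))))))))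
 .z .z) (.s 0x1fceeb800a577c00 4093 (n false (n true (n true (z 37) e) e) (n false (z 52) e)) (u 8 1 (k (c 3 4096 r v) (k (u 5 4 (k v (k v (k v (k v (k (t 13 1 (u 9 0 (k v (k v r)))) r)))))) r)))
 .z .z)) (.s 0x1fcfeac00e577c00 4093 (n false (n true (n true (z 71) e) e) (n true (z 52) e)) (u 5 10 (k r (k r (k r (k r (k (u 8 7 (k v (k v (k v (k (c 24 4099 r (u 16 1 (k v (k v r)))) r))))) (k (t 13 1 (u 9 0 (k r (k r r)))) r)))))))
 (.s 0x1fcfab800a7d5600 4098 (n false (n false (z 67) e) (n true (n true (z 35) e) e)) (t 4 2 (u 9 12 (k v (k v (k v (k v (k (t 25 1 (u 17 0 (k (t 33 3 (t 49 1 v)) r))) r)))))))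
 .z .z) .z))))

set_option maxRecDepth 100000 in
def N120 : NT :=
(.s 0xe9555804aaa80288 4088 (n false (n false (z 64) (z 0)) (n false (n false e e) (n false e e))) (t 6 1 (u 4 0 (k (c 12 4099 r (u 8 4 (k v (k (c 2 4085 r v) r)))) r)))
 (.s 0x1ff2bbe0013fbf00 4093 (n false (n true (n true (n true (z 52) e) e) e) (z 119)) (u 3 15 (k r (k (c 2 4094 (c 4 4096 r v) v) (k (c 7 4101 r r) (k (c 7 4099 r r) (k (c 7 4097 r r) (k (c 7 4096 r r) (k (c 5 4098 r r) (k (c 5 4101 r r) (k (c 5 4099 r r) (k (c 5 4101 r r) r)))))))))))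
 (.s 0x1fd51144413afb00 4095 (n false (z 89) (n true (n true (n false (n false (n false (n false e e) (n false e e)) (n false (n false e e) (n false e e))) (n false e e)) e) e)) (u 2 0 (k v (k v (k v (k (t 6 2 r) r)))))
 (.s 0x1fd51144412bbe00 4094 (n false (z 52) (n true (n true (n false (n false (n false (n false e e) (n false e e)) (n false (n false e e) (n false e e))) (n false e e)) e) e)) (u 2 14 (k v (k v (k v (k v (k v (k v (k (t 6 1 (u 4 0 (k v (k v r)))) r))))))))
 (.s 0x1fcfef800e7d5600 4095 (n false (n true (n true (z 55) e) e) (n true (z 67) e)) (c 2 4088 r (c 5 4103 r v))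
 .z .z) (.s 0x1fd51144412efb00 4095 (n false (z 90) (n true (n true (n false (n false (n false (n false e e) (n false e e)) (n false (n false e e) (n false e e))) (n false e e)) e) e)) (u 2 10 (k v (k v (k r (k (u 4 2 (k v (k v (k (u 8 1 (k v (k v r))) (k (c 8 4097 r (u 12 0 (k v (k v r)))) (k (c 8 4097 r (u 12 0 (k v (k v r)))) (k (c 8 4096 r (u 12 0 (k v (k v r)))) (k (c 8 4095 r (u 12 0 (k v (k v r)))) r)))))))) (k (c 4 4097 r (u 6 0 (k (u 10 0 (k v (k v r))) r))) (k r r)))))))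
 .z .z)) (.s 0x1fd51144413eee00 4097 (n false (n true (n true (n false (n false (n false (n false e e) (n false e e)) (n false (n false e e) (n false e e))) (n false e e)) e) e) (z 43)) (u 3 4 (k v (k v (k v (k r (k r (k (u 5 0 (k (u 9 0 (k v (k v r))) r)) (k r (k r r)))))))))
 (.s 0x1fd51144413ebb00 4089 (n false (z 83) (n true (n true (n false (n false (n false (n false e e) (n false e e)) (n false (n false e e) (n false e e))) (n false e e)) e) e)) (u 2 0 (k v (k (t 6 1 (u 4 6 (k (c 12 4099 r (u 8 3 (k v (k (c 3 4097 v (t 24 1 r)) (k (u 16 2 (k v (k v r))) (k (c 3 4097 v r) (k (c 3 4097 v r) (k (c 3 4097 v r) r)))))))) (k r (k (c 3 4097 v r) (k (c 12 4100 r r) (k (c 12 4100 r r) (k (c 12 4100 r r) r)))))))) (k (t 6 1 (c 3 4097 v (u 4 0 (k r r)))) r))))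
 .z .z) (.s 0x1fd51144413faf00 4095 (n false (z 103) (n true (n true (n false (n false (n false (n false e e) (n false e e)) (n false (n false e e) (n false e e))) (n false e e)) e) e)) (u 2 1 (k v (k (t 6 1 r) (k (t 4 2 r) (k (t 4 1 r) r)))))
 .z .z))) (.s 0xe955540095550050 4089 (n false (n false (z 128) (z 0)) (n false (n false e e) e)) (t 6 1 (u 4 4 (k v (k (c 12 4097 r r) (k (c 8 4095 r (c 3 4094 v r)) (k (c 8 4098 r (c 3 4094 v (u 12 0 (k (u 20 0 (k v (k v r))) r)))) (k (c 12 4099 r r) (k (c 8 4096 r r) (k (c 8 4095 r (c 3 4094 v r)) (k (c 8 4095 r r) (k (c 8 4095 r (u 12 0 (k v (k v r)))) (k (c 12 4095 r (c 3 4094 v r)) (k (c 12 4095 r (u 8 1 (k v (k v r)))) (k (c 8 4097 r (u 12 0 (k v (k v r)))) (k (c 8 4095 r r) (k (c 8 4095 r (u 12 1 (k v (k v r)))) (k (c 8 4097 r r) r)))))))))))))))))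
 (.s 0x1ff3aeb0013fbf00 4100 (n false (n true (n true (n true (z 73) e) e) e) (z 119)) (u 3 24 (k (c 16 4102 r v) (k (c 7 4101 r r) (k (c 7 4099 r r) (k (c 2 4099 (t 8 2 v) (t 7 2 (u 5 0 (k r r)))) (k r (k (c 5 4101 r r) (k (c 5 4099 r r) (k (t 7 1 (u 16 0 (k (t 5 1 (u 32 23 (k v (k v r)))) r))) (k (c 5 4101 r r) r))))))))))
 (.s 0x1ff2bbe001d44510 4090 (n false (n true (n true (n true (z 52) e) e) e) (n true (n false (n false (n false e e) (n false e e)) (n false (n false e e) (n false e e))) e)) (u 16 133 (k v (k v (k v (k v (k v (k v (k v r))))))))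
 .z .z) (.s 0xe95554008aa22888 4091 (n false (n false (z 128) (n false e e)) (n false (n false (n false (n false e e) (n false e e)) (n false (n false e e) (n false e e))) (n false e e))) (u 4 2 (k v (k v (k (c 12 4097 r r) (k (c 8 4095 r (c 3 4099 v r)) (k (c 8 4098 r r) (k (c 8 4096 r r) (k (c 8 4095 r (c 3 4099 v r)) (k (c 8 4095 r r) (k (c 8 4095 r (u 12 0 (k v (k v r)))) (k (c 12 4095 r (c 3 4099 v r)) (k (c 12 4095 r (u 8 1 (k v (k v r)))) (k (c 8 4097 r (u 12 0 (k v (k v r)))) (k (c 8 4095 r r) (k (c 8 4095 r (u 12 1 (k v (k v r)))) (k (c 8 4097 r r) r))))))))))))))))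
 .z .z)) (.s 0xe95554009fd58050 4086 (n false (n false (z 128) (z 71)) (n false (n false e e) e)) (u 4 16 (k r (k r (k (u 6 15 (k v (k v (k (u 10 0 (k v (k v r))) (k (c 10 4099 r (u 14 1 (k v (k v r)))) (k (c 10 4099 r (u 14 1 (k v (k v r)))) (k (c 10 4099 r (u 14 1 (k v (k v r)))) r))))))) (k (c 12 4097 r (u 6 23 (k r (k r r)))) (k (c 12 4095 r r) (k (c 8 4095 r r) r)))))))
 (.s 0xe95554009dd70050 4085 (n false (n false (z 37) (z 128)) (n false (n false e e) e)) (u 6 16 (k r (k r (k (u 4 2 (k v (k v r))) (k (c 14 4097 r (u 4 2 (k r (k r r)))) (k (c 14 4095 r r) (k (c 10 4095 r r) r)))))))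
 .z .z) .z))) (.s 0xe95fd40095f50050 4086 (n false (n false (z 156) (z 12)) (n false (n false e e) e)) (t 6 3 (u 4 1 (k v (k (c 12 4099 r (u 8 1 (k v (k v r)))) (k (c 8 4098 r (u 12 1 (k v (k v r)))) (k (c 8 4097 r (u 12 1 (k v (k v r)))) (k (c 8 4099 r (u 12 1 (k v (k v r)))) (k (c 8 4095 r (u 12 0 (k v (k v r)))) r))))))))
 (.s 0xe95f5004aef803a0 4088 (n false (n false (z 52) (z 12)) (n true (n false (n false e e) e) e)) (t 6 3 (u 4 50 (k v (k v (k v (k v (k v (k (t 12 1 (u 8 0 (k v (k v r)))) r))))))))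
 (.s 0xe95df0057085d108 4072 (n false (n false (z 52) (n false (n false (n true (n false e e) e) (n false e e)) e)) (n false (n true (n false (n false e e) (n false e e)) e) (n false e e))) (u 4 204 (k v (k v (k v (k v (k v r))))))
 (.s 0xe957f0070aa22888 4083 (n false (n false (z 56) (n true (n false e e) e)) (n false (n false (n false (n false e e) (n false e e)) (n false (n false e e) (n false e e))) (n false e e))) (u 4 0 (k (u 8 203 (k v (k v (k v (k v (k v (k v (k v (k (t 24 1 (u 16 0 (k v (k v r)))) r))))))))) (k (c 8 4096 r (u 12 0 (k v (k v r)))) (k (u 8 1 (k v (k v r))) (k (c 12 4096 r r) r)))))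
 .z .z) (.s 0xe95df0077085d108 4072 (n false (n false (z 52) (n true (n false (n true (n false e e) e) (n false e e)) e)) (n false (n true (n false (n false e e) (n false e e)) e) (n false e e))) (u 4 140 (k v (k v (k v (k v (k v r))))))
 .z .z)) (.s 0xe95fd40095554008 4083 (n false (n false (z 128) (z 156)) (n false e e)) (u 6 1 (k r (k (c 14 4099 r (u 10 1 (k r (k r r)))) (k (c 10 4098 r (u 14 1 (k r (k r r)))) (k (c 10 4097 r (u 14 1 (k r (k r r)))) (k (c 10 4099 r (u 14 1 (k r (k r r)))) (k (c 10 4095 r (t 4 1 r)) r)))))))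
 (.s 0xe95fd4008aa22888 4095 (n false (n false (z 156) (n false e e)) (n false (n false (n false (n false e e) (n false e e)) (n false (n false e e) (n false e e))) (n false e e))) (u 4 1 (k v (k (c 12 4099 r (u 8 1 (k v (k v r)))) (k (c 8 4098 r (u 12 1 (k v (k v r)))) (k (c 8 4097 r r) (k (c 8 4099 r (u 12 1 (k v (k v r)))) (k (c 8 4095 r (c 3 4099 v r)) r)))))))
 .z .z) .z)) (.s 0xe95ff804aef803a0 4086 (n false (n false (z 124) (z 52)) (n true (n false (n false e e) e) e)) (u 4 5 (k r (k (c 8 4099 r (u 12 0 (k r (k r r)))) (k (c 12 4096 r r) (k (c 8 4098 r (u 12 0 (k r (k r r)))) (k (c 12 4096 r r) (k (c 12 4097 r r) (k (c 12 4097 r r) (k (c 12 4096 r r) (k (c 8 4097 r r) r))))))))))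
 (.s 0xe95fd400e82a2288 4083 (n false (n false (z 156) (n true (n false (n false e e) e) e)) (n false (n false (n false e e) (n false e e)) (n false (n false e e) (n false e e)))) (u 4 1 (k v (k (c 12 4099 r (u 8 1 (k v (k v r)))) (k (c 8 4098 r (u 12 1 (k v (k v r)))) (k (c 8 4097 r (u 12 1 (k v (k v r)))) (k (c 8 4099 r (u 12 1 (k v (k v r)))) (k (c 8 4095 r (u 12 0 (k v (k v r)))) r)))))))
 (.s 0xe95fd4009f5f0050 4077 (n false (n false (z 156) (z 51)) (n false (n false e e) e)) (t 6 1 (u 4 1 (k v (k (c 12 4099 r (u 8 1 (k v (k v r)))) (k (c 8 4098 r (u 12 1 (k v (k v r)))) (k (c 8 4097 r (u 12 1 (k v (k v r)))) (k (c 8 4099 r (u 12 1 (k v (k v r)))) (k (c 8 4095 r (u 12 0 (k v (k v r)))) r))))))))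
 .z .z) (.s 0xe95fd400ea221d10 4075 (n false (n false (n true (n false (n false (n false e e) (n false e e)) (n false e e)) e) (z 156)) (n true (n false (n false e e) (n false e e)) e)) (u 6 1 (k v (k (c 14 4099 r (u 10 1 (k v (k v r)))) (k (c 10 4098 r (u 14 1 (k v (k v r)))) (k (c 10 4097 r (u 14 1 (k v (k v r)))) (k (c 10 4099 r (u 14 1 (k v (k v r)))) (k (c 10 4095 r (u 14 0 (k v (k v r)))) r)))))))
 .z .z)) (.s 0xe975f0070aa22888 4085 (n false (n false (z 50) (n true (n false e e) e)) (n false (n false (n false (n false e e) (n false e e)) (n false (n false e e) (n false e e))) (n false e e))) (u 4 1 (k v (k (c 12 4097 r (u 8 0 (k v (k v r)))) r)))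
 (.s 0xe95ff8070aa22888 4086 (n false (n false (z 124) (n true (n false e e) e)) (n false (n false (n false (n false e e) (n false e e)) (n false (n false e e) (n false e e))) (n false e e))) (u 4 1 (k v (k (c 12 4097 r (u 8 1 (k v (k v r)))) (k (c 12 4096 r (u 8 1 (k v (k v r)))) (k (c 8 4098 r (u 12 0 (k v (k v r)))) (k (c 12 4096 r (u 8 1 (k v (k v r)))) (k (c 12 4097 r (u 8 1 (k v (k v r)))) (k (c 12 4097 r (u 8 1 (k v (k v r)))) (k (c 12 4096 r (u 8 1 (k v (k v r)))) (k (c 12 4099 r (u 8 1 (k v (k v r)))) (k (c 8 4097 r (u 12 1 (k v (k v r)))) r)))))))))))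
 .z .z) .z))))

set_option maxRecDepth 100000 in
def N121 : NT :=
(.s 0xe9dd5004bfb803a0 4093 (n false (n false (z 46) (z 5)) (n true (n false (n false e e) e) e)) (t 6 1 (u 4 1 (k v (k r (k (c 12 4099 r (u 8 0 (k v (k v r)))) (k (c 6 4099 v (u 8 15 (k v (k v (k v r))))) (k (c 12 4097 r r) (k (c 8 4095 r r) r))))))))
 (.s 0xe9d7d8077085d108 4072 (n false (n false (z 89) (n true (n false (n true (n false e e) e) (n false e e)) e)) (n false (n true (n false (n false e e) (n false e e)) e) (n false e e))) (u 4 48 (k v (k v (k v (k (c 12 4099 r (u 8 0 (k (u 16 307 (k v (k v (k v (k v (k v r)))))) (k (c 16 4096 r (u 24 0 (k v (k v r)))) (k (u 16 1 (k v (k v r))) (k (c 24 4096 r (u 16 308 (k v (k v (k v (k v (k v (k v (k v r))))))))) r)))))) r)))))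
 (.s 0xe9d5740095f50050 4086 (n false (n false (z 161) (z 12)) (n false (n false e e) e)) (t 6 3 (u 4 1 (k (c 12 4099 r (u 8 11 (k v (k v (k (t 24 1 (u 16 0 (k v (k (c 48 4099 r (u 32 8 (k v (k v r)))) r)))) r))))) (k (u 8 6 (k v (k v (k v (k (c 24 4100 r (u 16 3 (k v (k v (k (c 48 4097 r (u 32 1 (k v (k v r)))) (k (c 48 4096 r (u 32 1 (k v (k v r)))) (k (c 48 4097 r (u 32 1 (k v (k v r)))) r))))))) r))))) r))))
 (.s 0xe97f7004aef803a0 4086 (n false (n false (z 46) (z 52)) (n true (n false (n false e e) e) e)) (u 4 1 (k r (k (u 8 31 (k r (k r (k r r)))) (k (c 12 4099 r (u 8 0 (k r (k r r)))) (k (u 8 57 (k r (k r (k r (k r r))))) (k (c 12 4097 r (u 8 31 (k r (k r (k r r))))) (k (c 8 4095 r (u 12 31 (k r (k r (k r r))))) r)))))))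
 (.s 0xe97f700452afa008 4093 (n false (n false (z 46) (n false e e)) (n false (z 24) (n false e e))) (u 5 0 (k (t 9 3 (t 13 1 (u 4 2 (k v (k (c 12 4099 r (u 8 0 (k v (k v r)))) (k (c 3 4096 v r) (k (c 3 4096 v r) (k (c 12 4097 r (c 3 4096 v r)) (k (c 8 4095 r (c 3 4096 v r)) r))))))))) r))
 .z .z) (.s 0xe97f70070aa22888 4086 (n false (n false (z 46) (n true (n false e e) e)) (n false (n false (n false (n false e e) (n false e e)) (n false (n false e e) (n false e e))) (n false e e))) (u 4 2 (k v (k (c 12 4099 r (u 8 0 (k v (k v r)))) (k (c 3 4099 v r) (k r (k (c 12 4097 r (c 3 4099 v r)) (k (c 8 4095 r (c 3 4099 v r)) r)))))))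
 .z .z)) (.s 0xe9d7d8070e7df600 4091 (n false (n true (z 91) e) (n false (z 89) (n true (n false e e) e))) (u 5 57 (k r (k (u 4 9 (k v (k v (k v (k (u 8 1 (k v (k v r))) (k (c 8 4097 r (u 12 0 (k v (k v r)))) (k (c 8 4097 r (u 12 0 (k v (k v r)))) (k (c 8 4095 r (u 12 0 (k v (k v r)))) r)))))))) (k (u 4 17 (k v (k v (k v (k (u 8 1 (k v (k v r))) (k (c 8 4097 r (u 12 0 (k v (k v r)))) (k (c 8 4095 r (u 12 0 (k v (k v r)))) r))))))) r))))
 (.s 0xe9d7d8070e777600 4091 (n false (n true (z 85) e) (n false (z 89) (n true (n false e e) e))) (u 4 10 (k (c 12 4099 r r) (k (c 12 4099 r r) (k (c 12 4099 r (u 5 40 (k r (k (u 8 1 (k v (k v (k v (k (t 24 1 r) r))))) r)))) (k (u 5 40 (k r (k (u 8 0 (k v (k v (k v (k (t 24 2 (u 16 26 (k v (k v (k v r))))) r))))) r))) (k (c 12 4101 r (u 5 19 (k r (k r (k (t 8 3 v) r))))) (k (c 12 4096 r r) (k (c 8 4099 r r) r))))))))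
 .z .z) (.s 0xe9d7d8070e7f7e00 4091 (n false (n false (z 89) (n true (n false e e) e)) (n true (z 119) e)) (u 4 63 (k r (k r (k (c 6 4094 v r) (k (t 12 3 r) r)))))
 .z .z))) (.s 0xe9d7f8070aa22888 4088 (n false (n false (z 121) (n true (n false e e) e)) (n false (n false (n false (n false e e) (n false e e)) (n false (n false e e) (n false e e))) (n false e e))) (u 4 1 (k v (k (c 12 4099 r (u 8 1 (k v (k v r)))) (k (c 8 4097 r (c 3 4099 v r)) (k (c 8 4095 r (c 3 4099 v r)) (k (c 8 4095 r (c 3 4099 v r)) r))))))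
 (.s 0xe9d7f804bbb803a0 4085 (n false (n false (z 121) (z 42)) (n true (n false (n false e e) e) e)) (u 4 1 (k (u 6 1 (k v (k v r))) (k (c 12 4099 r r) (k (c 8 4097 r r) (k (c 8 4095 r r) (k (c 8 4095 r r) r))))))
 (.s 0xe9d7f804aef803a0 4086 (n false (n false (z 121) (z 52)) (n true (n false (n false e e) e) e)) (u 4 1 (k r (k (c 12 4099 r r) (k (c 8 4097 r (u 12 31 (k r (k r (k r r))))) (k (c 8 4095 r (u 12 0 (k r (k r r)))) (k (c 8 4095 r (u 12 0 (k r (k r r)))) r))))))
 .z .z) (.s 0xe9d7f804ebfc0288 4080 (n false (n false (z 121) (z 121)) (n false (n false e e) (n false e e))) (u 4 1 (k r (k (c 12 4099 r (u 8 1 (k r (k r r)))) (k (c 8 4097 r (u 12 31 (k r (k r (k r r))))) (k (c 8 4095 r (u 12 0 (k r (k r r)))) (k (c 8 4095 r (u 12 0 (k r (k r r)))) r))))))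
 .z .z)) (.s 0xe9dd5004affc03a0 4091 (n false (n false (z 124) (z 5)) (n true (n false (n false e e) e) e)) (t 6 1 (u 4 2 (k v (k v (k (c 12 4097 r (u 8 1 (k v (k v r)))) (k (c 12 4096 r (u 8 1 (k v (k v r)))) (k (c 12 4097 r (u 8 1 (k v (k v r)))) (k (c 12 4099 r (u 8 1 (k v (k v r)))) r))))))))
 (.s 0xe9dd5004abf803a0 4088 (n false (n false (z 56) (z 5)) (n true (n false (n false e e) e) e)) (t 6 1 (u 4 0 (k (u 8 49 (k v (k v (k v (k v (k v (k (t 24 1 (u 16 0 (k v (k v r)))) r))))))) (k (c 8 4096 r (u 12 0 (k v (k v r)))) (k (u 8 1 (k v (k v r))) (k (c 12 4096 r r) r))))))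
 .z .z) .z))) (.s 0xe9ddd804ebfc03a0 4085 (n false (n false (z 121) (z 85)) (n true (n false (n false e e) e) e)) (u 4 48 (k r (k (c 5 4094 v r) (k (c 8 4097 r (c 5 4094 v r)) (k (c 8 4095 r (c 5 4094 v (t 6 1 r))) (k (c 8 4095 r (c 5 4094 v (t 6 1 r))) r))))))
 (.s 0xe9dd7004ebfc0288 4082 (n false (n false (z 121) (z 37)) (n false (n false e e) (n false e e))) (u 4 1 (k r (k (c 12 4099 r (u 8 1 (k r (k r r)))) (k (c 8 4097 r (u 12 1 (k r (k r r)))) (k (c 8 4095 r (u 12 0 (k r (k r r)))) (k (c 8 4095 r (u 12 0 (k r (k r r)))) r))))))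
 (.s 0xe9dd7004aef803a0 4086 (n false (n false (z 52) (z 37)) (n true (n false (n false e e) e) e)) (u 4 170 (k r (k (t 6 1 v) (k (c 2 4085 r v) (k (t 6 1 v) (k (c 2 4085 (u 3 1 (k v (k v r))) v) (k r r)))))))
 (.s 0xe9dd5004bffc0288 4088 (n false (n false (z 126) (z 5)) (n false (n false e e) (n false e e))) (t 6 1 (u 4 3 (k v (k (t 12 1 (u 8 0 (k v (k v (k (c 24 4099 r (u 16 0 (k v (k v r)))) r))))) (k (t 12 1 (c 2 4091 r v)) r)))))
 .z .z) (.s 0xe9dd7004bfb80288 4082 (n false (n false (z 46) (z 37)) (n false (n false e e) (n false e e))) (u 4 1 (k r (k (u 8 1 (k r (k r r))) (k (c 12 4099 r (u 8 0 (k r (k r r)))) (k (u 8 1 (k r (k r r))) (k (c 12 4097 r (u 8 1 (k r (k r r)))) (k (c 8 4095 r (u 12 1 (k r (k r r)))) r)))))))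
 .z .z)) (.s 0xe9ddd80452afa008 4093 (n false (n false (z 85) (n false e e)) (n false (z 24) (n false e e))) (u 4 25 (k r (k (u 5 0 (k (t 9 3 (t 13 1 v)) r)) (k (c 12 4099 r r) (k (c 12 4099 r (c 3 4096 (c 2 4098 r v) r)) (k (c 12 4099 r (u 5 0 (k (t 9 3 (t 13 1 (u 8 7 (k v (k v (k v (k (t 24 1 (u 16 26 (k v (k v (k v r))))) r))))))) r))) (k (c 3 4096 (c 2 4098 r v) r) (k (c 8 4099 r r) r))))))))
 (.s 0xe9dd70070aa22888 4088 (n false (n false (z 37) (n true (n false e e) e)) (n false (n false (n false (n false e e) (n false e e)) (n false (n false e e) (n false e e))) (n false e e))) (u 4 9 (k v (k r (k (c 3 4099 v (u 8 0 (k (t 16 3 (t 24 1 v)) r))) (k (c 3 4099 v (u 8 0 (k (t 16 3 (t 24 1 v)) r))) (k (u 8 2 (k v (k v (k v (k (t 24 1 (u 16 0 (k (t 32 3 (t 48 1 v)) r))) r))))) (k (u 8 2 (k v (k v (k v (k (t 24 1 (u 16 0 (k (t 32 3 (t 48 1 v)) r))) r))))) r)))))))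
 .z .z) .z)) (.s 0xe9f5580544511708 4084 (n false (n false (z 67) (n false (n false (n false e e) (n false e e)) (n false (n false e e) (n false e e)))) (n false (n true (n false e e) e) (n false e e))) (u 4 27 (k v (k v (k v (k (t 12 1 (u 8 1 (k v (k v r)))) (k (c 8 4101 r (u 12 0 (k v (k v r)))) (k r (k (c 2 4087 r v) (k (c 8 4099 r (u 12 0 (k v (k v r)))) (k (t 12 1 (u 8 2 (k v (k (c 24 4097 r (u 16 0 (k v (k v r)))) r)))) (k (t 12 1 (u 8 0 (k (u 16 0 (k v (k v r))) r))) (k (c 12 4101 r (u 8 1 (k v (k v r)))) (k (t 12 1 (u 8 17 (k v (k v (k v (k (c 24 4099 r (u 16 1 (k v (k v r)))) r)))))) (k (c 12 4102 r (u 8 1 (k v (k v r)))) (k (c 8 4101 r (u 12 1 (k v (k v r)))) (k (t 12 1 (u 8 3 (k v (k v (k (c 24 4099 r (u 16 1 (k v (k v r)))) r))))) (k (c 8 4101 r (u 12 1 (k v (k v r)))) r)))))))))))))))))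
 (.s 0xe9ddd805fd101708 4070 (n false (n false (n false (n true (n true (n true (n false (n false e e) (n false e e)) e) e) e) e) (z 85)) (n false (n true (n false e e) e) (n false e e))) (u 6 4 (k v (k (c 14 4099 r r) (k (c 14 4099 r r) (k (c 14 4099 r (c 16 4091 v (u 10 5 (k v (k v r))))) (k (c 16 4091 v (u 10 12 (k v (k v r)))) (k (c 14 4096 r r) (k (c 10 4099 r r) r))))))))
 (.s 0xe9ddd8050e7d5600 4093 (n false (n false (z 85) (n false (n false e e) e)) (n true (z 67) e)) (u 5 0 (k (u 4 20 (k v (k v (k (c 12 4099 r (u 8 254 (k v (k v (k v (k (t 24 1 (u 16 7 (k v (k v r)))) r)))))) (k (t 12 1 (u 8 9 (k v (k v r)))) (k (c 4 4097 r v) (k (c 12 4096 r (c 4 4095 r v)) (k (c 12 4097 r (u 8 83 (k v (k v (k v r))))) r)))))))) (k (c 4 4099 r v) r)))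
 .z .z) (.s 0xe9ddd8070aa22888 4086 (n false (n false (z 85) (n true (n false e e) e)) (n false (n false (n false (n false e e) (n false e e)) (n false (n false e e) (n false e e))) (n false e e))) (u 4 10 (k (c 12 4099 r r) (k (c 12 4099 r r) (k (c 12 4099 r (u 8 7 (k v (k v (k v (k (t 24 1 (u 16 134 (k v (k (t 48 1 (u 32 0 (k v (k v r)))) (k (t 48 2 (u 32 0 (k (u 64 2 (k v (k (c 32 4084 (u 4 1 (k v (k v r))) v) r))) r))) r))))) r)))))) (k (c 3 4099 v r) (k (c 12 4101 r (u 8 0 (k (t 24 1 (u 16 0 (k (t 32 3 (t 48 3 v)) r))) r))) (k (c 12 4096 r r) (k (c 8 4099 r r) r))))))))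
 .z .z)) (.s 0xe9f55805c22ee108 4071 (n false (n false (z 67) (n false (n true (n false e e) e) (n false e e))) (n false (n true (n false (n true (n false e e) e) (n false e e)) e) (n false e e))) (c 9 4092 v (c 2 4074 r v))
 (.s 0xe9f5580544511f40 4086 (n false (n false (z 67) (n false (n false (n false e e) (n false e e)) (n false (n false e e) (n false e e)))) (n true (n true (n false (n false e e) e) e) e)) (u 4 78 (k v (k v (k v (k v (k (c 12 4099 r (u 8 1 (k v (k v r)))) (k (c 8 4101 r (u 12 0 (k v (k v r)))) (k (c 12 4099 r (u 8 3 (k v (k v (k (u 16 0 (k v (k v r))) (k (c 24 4097 r (u 16 1 (k v (k v r)))) (k (c 16 4095 r (u 24 1 (k v (k v r)))) r))))))) (k (c 2 4087 r v) (k (c 12 4099 r (u 8 0 (k (u 16 0 (k v (k v r))) r))) (k (c 8 4099 r (u 12 1 (k v (k v r)))) (k (c 12 4099 r r) (k (c 12 4102 r (u 8 1 (k v (k v r)))) (k (c 12 4099 r r) (k (c 12 4099 r r) (k (c 12 4099 r r) r))))))))))))))))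
 .z .z) .z))))

set_option maxRecDepth 100000 in
def N122 : NT :=
(.s 0xe9f7f804ebfc0288 4083 (n false (n false (z 123) (z 121)) (n false (n false e e) (n false e e))) (u 6 1 (k r (k (c 14 4099 r r) (k (c 10 4097 r (u 14 1 (k r (k r r)))) (k (c 10 4095 r (u 14 0 (k r (k r r)))) (k (c 10 4095 r (u 14 0 (k r (k r r)))) r))))))
 (.s 0xe9f5f004ebfc03a0 4088 (n false (n false (z 51) (z 121)) (n true (n false (n false e e) e) e)) (t 4 3 (u 6 1 (k v (k (c 14 4099 r (u 10 1 (k v (k v r)))) (k (c 10 4097 r (u 14 1 (k v (k v r)))) (k (c 10 4095 r (u 14 0 (k v (k v r)))) (k (c 10 4095 r (u 14 0 (k v (k v r)))) r)))))))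
 (.s 0xe9f57004ebfc03a0 4088 (n false (n false (z 121) (z 35)) (n true (n false (n false e e) e) e)) (u 6 0 (k r (k (t 4 2 v) (k (t 14 1 (u 4 1 (k (u 10 0 (k (t 18 3 (t 26 1 v)) r)) (k (c 12 4099 r r) (k (c 8 4097 r (t 10 1 r)) (k (c 8 4095 r r) (k (c 8 4095 r r) r))))))) r))))
 (.s 0xe9f57004baf803a0 4088 (n false (n false (z 50) (z 35)) (n true (n false (n false e e) e) e)) (u 6 0 (k (u 4 1 (k v (k (c 12 4097 r (u 8 0 (k v (k v r)))) r))) (k (t 4 1 v) (k (t 14 1 (u 4 1 (k (u 10 0 (k (t 18 3 (t 26 1 v)) r)) (k (c 12 4097 r r) r)))) r))))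
 (.s 0xe9f57004abf803a0 4086 (n false (n false (z 56) (z 35)) (n true (n false (n false e e) e) e)) (u 6 0 (k (u 4 1 (k (u 8 1 (k v (k v r))) (k (u 8 434 (k v (k v (k v (k v (k v (k v (k (t 24 1 (u 16 0 (k v (k v r)))) r)))))))) (k (c 8 4096 r (u 12 0 (k v (k v r)))) (k (c 12 4096 r (u 8 401 (k v (k v (k v (k v (k v (k v (k (t 24 1 (u 16 0 (k v (k v r)))) r))))))))) r))))) (k (t 4 1 v) (k (t 14 1 (u 4 0 (k r (k (c 8 4096 r r) (k r (k (c 12 4096 r r) r)))))) r))))
 .z .z) (.s 0xe9f57004bfb803a0 4088 (n false (n false (z 46) (z 35)) (n true (n false (n false e e) e) e)) (u 6 0 (k r (k (t 4 1 v) (k (t 14 1 (u 4 1 (k (u 10 0 (k (t 18 3 (t 26 1 v)) r)) (k (t 10 1 r) (k (c 12 4099 r r) (k (c 6 4096 (c 2 4098 r v) (u 8 15 (k v (k v (k v r))))) (k (c 12 4097 r (t 10 1 r)) (k (c 8 4095 r (t 10 1 r)) r)))))))) r))))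
 .z .z)) (.s 0xe9f5f004bfb803a0 4088 (n false (n false (z 51) (z 46)) (n true (n false (n false e e) e) e)) (t 4 3 (u 6 2 (k v (k (c 14 4099 r (u 10 0 (k v (k v r)))) (k (u 10 1 (k v (k v r))) (k (u 10 1 (k v (k v r))) (k (c 14 4097 r (u 10 1 (k v (k v r)))) (k (c 10 4095 r (u 14 1 (k v (k v r)))) r))))))))
 (.s 0xe9f57004eeb803a0 4088 (n false (n false (z 37) (z 35)) (n true (n false (n false e e) e) e)) (u 4 23 (k (c 6 4096 r v) (k (u 6 0 (k v (k v (k (t 14 1 (u 10 0 (k (t 18 3 (t 26 1 v)) r))) r)))) (k (c 6 4096 r (u 8 0 (k (t 16 3 (t 24 1 v)) r))) (k (u 6 0 (k r (k (c 8 4096 r v) (k (t 14 1 (u 8 0 (k (u 10 0 (k (t 18 3 (t 26 1 v)) r)) (k r (k (t 24 1 r) r))))) r)))) (k (c 4 4095 r r) r))))))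
 .z .z) .z)) (.s 0xe9f7d804eeb803a0 4085 (n false (n false (z 91) (z 37)) (n true (n false (n false e e) e) e)) (u 4 22 (k r (k (t 6 1 v) (k (u 8 1 (k (c 5 4094 v r) (k (c 5 4094 v r) r))) r))))
 (.s 0xe9f7d804aef803a0 4086 (n false (n false (z 52) (z 91)) (n true (n false (n false e e) e) e)) (u 6 14 (k r (k (c 4 4097 r v) (k (c 6 4093 v r) (k (u 10 1 (k r (k r r))) (k (c 10 4097 r (u 14 0 (k r (k r r)))) (k (c 10 4097 r (u 14 0 (k r (k r r)))) (k (c 10 4095 r (u 14 0 (k r (k r r)))) r))))))))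
 (.s 0xe9f7780452eef008 4094 (n false (n false (z 106) (n false e e)) (n false (z 107) (n false e e))) (u 5 5 (k r (k (c 13 4099 r (u 9 27 (k r (k r (k (c 4 4104 r v) (k (u 17 71 (k (t 4 2 v) (k r (k (c 49 4101 r r) (k (c 33 4101 r r) (k (c 33 4101 r r) r)))))) r)))))) (k (c 9 4102 r r) r))))
 .z .z) (.s 0xe9f7d804eea803a0 4091 (n false (n false (z 91) (z 5)) (n true (n false (n false e e) e) e)) (t 6 1 (u 4 1 (k v (k v (k v (k (u 8 0 (k v (k v r))) (k (c 8 4097 r (u 12 0 (k v (k v r)))) (k (c 8 4095 r (u 12 0 (k v (k v r)))) r))))))))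
 .z .z)) (.s 0xe9f7f804bfb80288 4081 (n false (n false (z 123) (z 46)) (n false (n false e e) (n false e e))) (u 6 1 (k r (k (u 10 1 (k r (k r r))) (k (c 14 4099 r (u 10 0 (k r (k r r)))) (k (u 4 19 (k (u 10 1 (k v (k v r))) (k (c 12 4099 r (u 8 12 (k (u 10 1 (k v (k v r))) (k (u 10 1 (k v (k v r))) r)))) (k (c 8 4096 r r) r)))) (k (c 14 4097 r (u 10 1 (k r (k r r)))) (k (c 10 4095 r (u 14 1 (k r (k r r)))) r)))))))
 (.s 0xe9f7d8070aa22888 4085 (n false (n false (z 91) (n true (n false e e) e)) (n false (n false (n false (n false e e) (n false e e)) (n false (n false e e) (n false e e))) (n false e e))) (u 4 5 (k v (k (u 8 1 (k v (k v r))) (k (c 8 4097 r (u 12 0 (k v (k v r)))) (k (c 8 4097 r (u 12 0 (k v (k v r)))) (k (c 8 4097 r (u 12 0 (k v (k v r)))) (k (c 8 4096 r (u 12 0 (k v (k v r)))) (k (c 8 4095 r (u 12 0 (k v (k v r)))) r))))))))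
 .z .z) .z))) (.s 0xea5ddc010ea88a20 4086 (n false (n false (n false (z 42) (n false e e)) e) (n true (n false (n false (n false (n false e e) (n false e e)) (n false (n false e e) (n false e e))) e) e)) (u 8 50 (k v (k v (k v (k (u 16 2 (k v (k v r))) (k (u 16 34 (k v (k v (k v (k v r))))) (k (u 16 20 (k v (k v (k v (k (c 48 4099 r (u 32 1 (k v (k v r)))) (k (c 32 4099 r (u 48 1 (k v (k v r)))) r)))))) r)))))))
 (.s 0xe9fd5804ebfc0288 4081 (n false (n false (z 121) (z 71)) (n false (n false e e) (n false e e))) (u 6 1 (k r (k (c 14 4099 r (u 10 31 (k r (k r (k r r))))) (k (u 4 1 (k (u 10 0 (k v (k v r))) (k (c 12 4099 r r) (k (c 8 4097 r r) (k (c 8 4095 r r) (k (c 8 4095 r r) r)))))) (k (c 10 4099 r (u 14 31 (k r (k r (k r r))))) (k (c 10 4099 r (u 14 31 (k r (k r (k r r))))) (k (c 10 4099 r (u 14 31 (k r (k r (k r r))))) r)))))))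
 (.s 0xe9fd5804affc0288 4080 (n false (n false (z 124) (z 71)) (n false (n false e e) (n false e e))) (u 6 1 (k r (k (c 14 4099 r r) (k r (k (c 10 4099 r r) (k (c 10 4099 r r) (k (c 10 4099 r r) r)))))))
 (.s 0xe9f7f8077085d108 4074 (n false (n false (z 123) (n true (n false (n true (n false e e) e) (n false e e)) e)) (n false (n true (n false (n false e e) (n false e e)) e) (n false e e))) (u 4 47 (k v (k v (k v (k (c 12 4099 r (u 8 51 (k v (k v (k v (k v (k v (k v (k (t 24 2 (u 16 26 (k v (k v (k v r))))) r))))))))) (k r r))))))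
 .z .z) (.s 0xe9fd5804bfb80288 4081 (n false (n false (z 46) (z 71)) (n false (n false e e) (n false e e))) (u 6 1 (k r (k (c 14 4099 r r) (k (u 4 1 (k (u 10 0 (k v (k v r))) (k r (k (c 12 4099 r r) (k (u 8 1 (k (u 10 0 (k v (k v r))) (k (u 10 0 (k v (k v r))) r))) (k (c 12 4097 r r) (k (c 8 4095 r r) r))))))) (k (c 10 4099 r r) (k (c 10 4099 r r) (k (c 10 4099 r r) r)))))))
 .z .z)) (.s 0xea5ddc008e7d5600 4089 (n false (n true (z 67) e) (n false (n false (z 42) e) (n false e e))) (u 4 0 (k r (k (c 9 4100 r v) r)))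
 (.s 0xe9fd5804eeb80288 4083 (n false (n false (z 71) (z 37)) (n false (n false e e) (n false e e))) (u 4 1 (k r (k (c 12 4099 r (u 8 1 (k r (k r r)))) (k (u 8 0 (k r (k r r))) (k (c 8 4099 r (u 12 1 (k r (k r r)))) (k (c 8 4099 r (u 12 1 (k r (k r r)))) (k (c 8 4099 r (u 12 1 (k r (k r r)))) r)))))))
 .z .z) .z)) (.s 0xea77dc010e7d5c00 4091 (n false (n false (n false (z 45) (n false e e)) e) (n true (z 35) e)) (u 8 0 (k r (k (u 5 11 (k v (k v (k (t 13 1 (u 9 0 (k (t 17 3 (t 25 1 v)) r))) r)))) r)))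
 (.s 0xea77dc010e5fd400 4089 (n false (n false (n false (z 45) (n false e e)) e) (n true (z 14) e)) (u 5 0 (k (u 8 0 (k v (k v r))) (k (u 8 0 (k v (k v r))) r)))
 (.s 0xea77dc010e5ddc00 4092 (n false (n true (z 42) e) (n false (n false (z 45) (n false e e)) e)) (u 4 1 (k (u 9 0 (k v (k v r))) (k (u 9 0 (k v (k v r))) r)))
 .z .z) (.s 0xea77dc010e5ffc00 4089 (n false (n false (n false (z 45) (n false e e)) e) (n true (z 62) e)) (u 5 4 (k (u 8 0 (k v (k v r))) (k (u 8 0 (k v (k v r))) (k (t 8 1 v) (k (t 13 1 (u 9 41 (k (u 8 0 (k v (k v r))) (k (t 8 1 v) (k (t 25 1 (u 17 11 (k (u 8 0 (k v (k v r))) (k (c 17 4094 v (u 8 0 (k v (k v r)))) (k (u 8 0 (k v (k v r))) r))))) r))))) r)))))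
 .z .z)) (.s 0xea77dc010e7f7600 4091 (n false (n true (z 87) e) (n false (n false (z 45) (n false e e)) e)) (u 4 1 (k (u 9 0 (k v (k v r))) (k (u 9 0 (k v (k v r))) r)))
 (.s 0xea77dc010e7f5600 4094 (n false (n false (n false (z 45) (n false e e)) e) (n true (z 71) e)) (u 5 9 (k (u 8 0 (k v (k v r))) (k (u 8 0 (k v (k v r))) (k (t 13 2 (u 9 25 (k (u 8 0 (k v (k v r))) (k (u 8 0 (k v (k v r))) (k (c 5 4090 v (c 2 4096 (t 4 1 v) v)) r))))) (k (c 5 4097 r (c 2 4096 (t 4 1 v) v)) r)))))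
 .z .z) .z))))

set_option maxRecDepth 100000 in
def N123 : NT :=
(.s 0xeaae775c00843850 4065 (n false (n false (n false (n false (n false (n false (n true (z 37) e) (n false e e)) e) (n false e e)) e) (n true (n false e e) e)) (n false (n false e e) e)) (u 128 0 (k v (k (u 256 0 (k (t 512 3 (t 768 1 v)) r)) (k (u 256 0 (k (t 512 3 (t 768 1 v)) r)) (k (u 256 2 (k v (k v (k v (k (t 768 1 (u 512 0 (k (t 1024 3 (t 1536 1 v)) r))) r))))) (k (u 256 0 (k v (k v (k (t 768 1 (u 512 0 (k (t 1024 3 (t 1536 1 v)) r))) r)))) (k (u 256 9 (k v (k v r))) r)))))))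
 (.s 0xea95df0077082288 4072 (n false (n false (n false (n false (z 52) (n true (n false (n true (n false e e) e) (n false e e)) e)) e) (n false e e)) (n false (n false e e) (n false e e))) (u 16 74 (k v (k v (k v (k v r)))))
 (.s 0xea7f7c0095df0050 4075 (n false (n false (z 52) (n false (z 55) e)) (n false (n false e e) e)) (u 10 4 (k (t 26 1 (u 18 4 (k r (k (u 4 136 (k v (k v (k v (k v r))))) (k (u 4 26 (k r (k (u 34 2 (k v (k v r))) (k (u 34 4 (k v (k (t 98 1 (u 66 4 (k v (k v r)))) r))) r)))) (k (u 34 4 (k r (k (t 98 1 (u 66 4 (k r (k (u 4 136 (k v (k v (k v (k v r))))) r)))) r))) (k (c 4 4097 r (u 34 0 (k r (k r r)))) (k (t 4 1 r) r)))))))) (k (t 4 1 r) r)))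
 (.s 0xea7d5c0095df0050 4075 (n false (n false (z 52) (n false (z 35) e)) (n false (n false e e) e)) (u 10 5 (k r (k (u 4 138 (k v (k v (k v r)))) (k (c 4 4097 r v) (k (t 26 1 (u 18 0 (k (t 34 3 (t 50 1 (u 4 136 (k v (k v (k v (k v r))))))) r))) r)))))
 (.s 0xea77dc011caab800 4088 (n false (n false (n false (z 45) (n false e e)) (n true (z 32) e)) e) (u 8 0 (k r (k (u 10 0 (k (t 18 3 (t 26 1 v)) r)) r)))
 .z .z) (.s 0xea7d5c00a7d5c008 4085 (n false (n false (n false (z 35) e) (n false (z 35) e)) (n false e e)) (u 8 2 (k r (k r (k (t 10 1 v) (k (t 24 1 (u 10 2 (k (u 16 0 (k (t 32 3 (t 48 1 v)) r)) (k (u 16 0 (k (t 32 3 (t 48 1 v)) r)) (k (c 16 4098 r v) (k (t 26 1 (u 16 0 (k (t 32 3 (t 48 1 (u 18 0 (k (t 34 3 (t 50 1 v)) r)))) r))) r)))))) r)))))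
 .z .z)) (.s 0xea95df0057082288 4072 (n false (n false (n false (n false (z 52) (n false (n false (n true (n false e e) e) (n false e e)) e)) e) (n false e e)) (n false (n false e e) (n false e e))) (u 16 268 (k v (k v (k v (k v r)))))
 (.s 0xea955f004385d108 4076 (n false (n false (n false (n false (z 48) (n false e e)) e) (n true (n false e e) e)) (n false (n true (n false (n false e e) (n false e e)) e) (n false e e))) (u 16 14 (k v (k (c 48 4099 r (t 32 3 v)) (k r (k r (k r (k (c 3 4090 v r) r)))))))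
 .z .z) .z)) (.s 0xeaae5ddc00843a08 4072 (n false (n false (n false (n false (n false (n false (n true (z 42) e) (n false e e)) e) (n false e e)) e) (n true (n false (n false e e) e) e)) (n false e e)) (c 2 4074 (u 64 1 (k v (k v r))) v)
 (.s 0xeaa2288897770050 4087 (n false (n false (z 42) (n false (n false (n false (n false e e) (n false e e)) (n false (n false e e) (n false e e))) (n false e e))) (n false (n false e e) e)) (u 4 10 (k v (k v (k (t 8 3 (t 12 1 v)) (k (c 2 4090 r v) (k (c 12 4110 r r) (k (c 12 4110 r r) (k (c 12 4110 r r) (k (c 2 4090 (c 3 4099 v r) v) (k (c 12 4110 r (c 10 4101 v (u 8 1 (k v (k v r))))) (k (c 2 4090 r v) (k (c 2 4090 r v) r))))))))))))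
 (.s 0xeaa228870e57fe00 4085 (n false (n true (z 124) e) (n false (n false (n false (n false (n false e e) (n false e e)) (n false (n false e e) (n false e e))) e) (n true (n false e e) e))) (u 4 9 (k v (k v (k (c 12 4097 r (u 8 1 (k v (k v r)))) (k (c 12 4097 r (u 8 1 (k v (k v r)))) (k (c 12 4097 r (u 8 1 (k v (k v r)))) (k (c 12 4099 r (u 8 1 (k v (k v r)))) (k (c 8 4097 r (u 12 1 (k v (k v r)))) r))))))))
 .z .z) (.s 0xeaae5d7c00843850 4065 (n false (n false (n false (n false (n false (n false (n true (z 50) e) (n false e e)) e) (n false e e)) e) (n true (n false e e) e)) (n false (n false e e) e)) (u 128 1 (k v (k (c 384 4097 r (u 256 0 (k v (k v r)))) r)))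
 .z .z)) (.s 0xeaae75fe00843850 4065 (n false (n false (n false (n false (n false (n false (n true (z 121) e) (n false e e)) e) (n false e e)) e) (n true (n false e e) e)) (n false (n false e e) e)) (u 128 2 (k v (k v (k (c 384 4099 r (u 256 1 (k v (k v r)))) (k (c 256 4095 r (u 384 0 (k v (k v r)))) (k (c 256 4095 r (u 384 0 (k v (k v r)))) r))))))
 (.s 0xeaae5fdc00843850 4065 (n false (n false (n false (n false (n false (n false (n true (z 46) e) (n false e e)) e) (n false e e)) e) (n true (n false e e) e)) (n false (n false e e) e)) (u 128 1 (k v (k (u 256 1 (k v (k v r))) (k (c 384 4099 r (u 256 0 (k v (k v r)))) (k (u 256 0 (k v (k v r))) (k (c 384 4097 r (u 256 1 (k v (k v r)))) (k (c 256 4095 r (u 384 1 (k v (k v r)))) r)))))))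
 .z .z) .z))) (.s 0xeb9f7f8021544510 4086 (n false (n false (n false (n true (z 123) e) (n false e e)) e) (n false (n false (n false (n false e e) (n false e e)) (n false (n false e e) (n false e e))) e)) (u 16 55 (k v (k v (k v (k (u 32 21 (k v (k (c 96 4101 r (u 64 381 (k v (k v (k v r))))) (k (c 64 4101 r (u 96 381 (k v (k v (k v r))))) (k (c 64 4101 r (u 96 381 (k v (k v (k v r))))) r))))) r)))))
 (.s 0xeb95fd4003a88a20 4082 (n false (n false (n false (n true (z 156) e) e) (n true (n false (n false (n false e e) (n false e e)) (n false (n false e e) (n false e e))) e)) e) (u 16 14 (k v (k v (k (c 48 4099 r (u 32 1 (k v (k v r)))) (k (c 32 4099 r (u 48 1 (k v (k v r)))) (k (c 32 4095 r (u 48 0 (k v (k v r)))) r))))))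
 (.s 0xeb95df001d05d108 4071 (n false (n false (n false (n true (z 52) e) e) (n true (n false (n false e e) e) e)) (n false (n true (n false (n false e e) (n false e e)) e) (n false e e))) (u 16 398 (k v (k v (k v (k v (k v (k v r)))))))
 (.s 0xeaae7f7e00843850 4067 (n false (n false (n false (n false (n false (n false (n true (z 119) e) (n false e e)) e) (n false e e)) e) (n true (n false e e) e)) (n false (n false e e) e)) (u 128 12 (k v (k v (k (c 384 4101 r r) (k (c 384 4099 r r) (k (c 384 4096 r (u 256 0 (k (u 512 0 (k v (k v r))) r))) (k (c 256 4101 r r) (k (c 256 4099 r r) (k (c 256 4101 r r) r)))))))))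
 .z .z) (.s 0xeb95fd40022a2288 4082 (n false (n false (n false (n true (z 156) e) e) (n false e e)) (n false (n false (n false e e) (n false e e)) (n false (n false e e) (n false e e)))) (u 16 14 (k v (k v (k (c 48 4099 r (u 32 1 (k v (k v r)))) (k (c 32 4099 r (u 48 1 (k v (k v r)))) (k (c 32 4095 r (u 48 0 (k v (k v r)))) r))))))
 .z .z)) (.s 0xeb9f558025555000 4092 (n false (n false (n false (z 128) (n true (z 67) e)) e) e) (u 20 0 (k r (k (c 4 4087 r v) r)))
 (.s 0xeb95ff8021544510 4085 (n false (n false (n false (n true (z 124) e) (n false e e)) e) (n false (n false (n false (n false e e) (n false e e)) (n false (n false e e) (n false e e))) e)) (u 16 8 (k v (k v (k (c 48 4097 r (u 32 1 (k v (k v r)))) (k (c 48 4097 r (u 32 1 (k v (k v r)))) (k (c 48 4097 r (u 32 1 (k v (k v r)))) (k (c 32 4097 r (u 48 1 (k v (k v r)))) r)))))))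
 .z .z) .z)) (.s 0xeb9fdd8039fdd800 4089 (n false (n false (n false (n true (z 87) e) (n true (z 87) e)) e) e) (u 16 1 (k (u 20 1 (k v (k v r))) (k (u 20 1 (k v (k v r))) r)))
 (.s 0xeb9fdd80397f5000 4087 (n false (n false (n false (n true (z 87) e) (n true (z 14) e)) e) e) (u 16 1 (k (u 20 0 (k v (k v r))) (k (u 20 0 (k v (k v r))) r)))
 (.s 0xeb9fdd8039777000 4086 (n false (n false (n false (n true (z 87) e) (n true (z 42) e)) e) e) (u 20 1 (k (u 16 1 (k v (k v r))) (k (u 16 1 (k v (k v r))) r)))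
 .z .z) (.s 0xeb9fdd8039d7d800 4083 (n false (n false (n false (n true (z 89) e) (n true (z 87) e)) e) e) (u 16 12 (k (u 20 1 (k v (k v r))) (k (u 20 1 (k v (k v r))) r)))
 .z .z)) (.s 0xebaa228884eeec00 4088 (n false (n false (n false (z 85) (n true (n false (n false (n false (n false e e) (n false e e)) (n false (n false e e) (n false e e))) (n false e e)) e)) e) e) (u 8 10 (k (c 24 4099 r r) (k (t 24 1 (u 16 2 (k v (k (t 48 2 (c 24 4099 v (c 4 4086 (u 8 2 (k v (k (c 2 4082 (u 8 1 (k v (k v r))) v) r))) v))) r)))) (k (c 24 4099 r r) (k (u 16 37 (k v (k v (k v r)))) (k (c 24 4101 r r) (k (c 24 4096 r (u 16 8 (k v (k v r)))) (k (c 16 4099 r r) r))))))))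
 (.s 0xeba577c010e0ee10 4078 (n false (n false (n false (n true (n false (z 52) (n false e e)) e) (n true (n false e e) e)) e) (n true (n false (n true (n false e e) e) (n false e e)) e)) (c 16 4095 (c 2 4097 r v) v)
 .z .z) .z))))

set_option maxRecDepth 100000 in
def N124 : NT :=
(.s 0xee57f50011544510 4085 (n false (n false (n true (z 156) e) (n false e e)) (n false (n false (n false (n false e e) (n false e e)) (n false (n false e e) (n false e e))) e)) (u 8 8 (k v (k v (k (c 24 4099 r (u 16 1 (k v (k v r)))) (k (c 16 4098 r (u 24 1 (k v (k v r)))) (k (c 16 4097 r (u 24 1 (k v (k v r)))) (k (c 16 4099 r (u 24 1 (k v (k v r)))) r)))))))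
 (.s 0xebe5fdc007075110 4079 (n false (n false (n false (n true (n true (z 46) e) e) (n true (n false e e) e)) e) (n true (n false (n false (n false e e) (n false e e)) (n false e e)) e)) (u 32 1 (k v (k (u 64 1 (k v (k v r))) (k (c 96 4099 r (u 64 0 (k v (k v r)))) (k (u 64 1 (k v (k v r))) (k (c 96 4097 r (u 64 1 (k v (k v r)))) (k (c 64 4095 r (u 96 1 (k v (k v r)))) r)))))))
 (.s 0xebe577c0022a2288 4078 (n false (n false (n false (n true (n true (z 52) e) e) e) (n false e e)) (n false (n false (n false e e) (n false e e)) (n false (n false e e) (n false e e)))) (u 32 89 (k v (k v (k v (k v (k v (k v (k v r))))))))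
 (.s 0xebab9d7f80210e80 4069 (n false (n false (n false (n true (n false (n false (n false (n true (z 121) e) (n false e e)) e) (n false e e)) e) (n true (n false (n false e e) e) e)) e) e) (u 256 2 (k v (k v (k (c 768 4099 r (u 512 1 (k v (k v r)))) (k (c 512 4095 r (u 768 0 (k v (k v r)))) (k (c 512 4095 r (u 768 0 (k v (k v r)))) r))))))
 (.s 0xebab97f700210e80 4069 (n false (n false (n false (n true (n false (n false (n false (n true (z 46) e) (n false e e)) e) (n false e e)) e) (n true (n false (n false e e) e) e)) e) e) (u 256 17 (k v (k v (k (u 512 1 (k v (k v r))) (k (u 512 26 (k v (k v r))) (k (c 768 4097 r (u 512 1 (k v (k v r)))) (k (c 512 4095 r (u 768 1 (k v (k v r)))) r)))))))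
 .z .z) (.s 0xebab9f5700210e80 4064 (n false (n false (n false (n true (n false (n false (n false (n true (z 35) e) (n false e e)) e) (n false e e)) e) (n true (n false (n false e e) e) e)) e) e) (u 256 36 (k v (k v (k v (k v (k (t 768 1 (u 512 0 (k (t 1024 3 (t 1536 1 v)) r))) (k (t 768 2 (u 512 6 (k v (k v (k (t 1536 1 (u 1024 6 (k v (k v r)))) r))))) r)))))))
 .z .z)) (.s 0xebe577c005445110 4078 (n false (n false (n false (n true (n true (z 52) e) e) (n false (n false (n false e e) (n false e e)) (n false (n false e e) (n false e e)))) (n false e e)) e) (u 32 30 (k v (k v (k v (k v (k v (k v (k v (k (t 96 2 (c 8 4086 r v)) (k (t 96 1 (c 8 4089 (u 8 0 (k (c 24 4099 r (u 16 2 (k v (k (c 4 4085 r v) r)))) r)) v)) r))))))))))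
 (.s 0xebe577c003a88a20 4078 (n false (n false (n false (n true (n true (z 52) e) e) e) (n true (n false (n false (n false e e) (n false e e)) (n false (n false e e) (n false e e))) e)) e) (u 32 111 (k v (k v (k v (k v (k v (k v (k v r))))))))
 .z .z) .z)) (.s 0xee577c008aa22888 4090 (n false (n false (n true (z 52) e) (n false e e)) (n false (n false (n false (n false e e) (n false e e)) (n false (n false e e) (n false e e))) (n false e e))) (u 8 3 (k v (k v (k v (k v (k v (k v (k v (k v (k (c 3 4099 v r) r))))))))))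
 (.s 0xebe775c007075110 4079 (n false (n false (n false (n true (n true (z 37) e) e) (n true (n false e e) e)) e) (n true (n false (n false (n false e e) (n false e e)) (n false e e)) e)) (u 32 0 (k v (k (c 2 4086 (u 32 0 (k (t 64 3 (t 96 1 v)) r)) v) (k (c 2 4086 (u 32 0 (k (t 64 3 (t 96 1 v)) r)) v) (k (c 2 4086 r v) (k (c 2 4086 r v) (k (c 2 4081 r v) r)))))))
 (.s 0xebe75fe007075110 4079 (n false (n false (n false (n true (n true (z 121) e) e) (n true (n false e e) e)) e) (n true (n false (n false (n false e e) (n false e e)) (n false e e)) e)) (u 32 1 (k v (k (c 96 4099 r (u 64 1 (k v (k v r)))) (k (c 64 4097 r (u 96 1 (k v (k v r)))) (k (c 64 4095 r (u 96 0 (k v (k v r)))) (k (c 64 4095 r (u 96 0 (k v (k v r)))) r))))))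
 .z .z) (.s 0xee55fe008aa22888 4082 (n false (n false (n true (z 120) e) (n false e e)) (n false (n false (n false (n false e e) (n false e e)) (n false (n false e e) (n false e e))) (n false e e))) (u 8 0 (k v (k (t 24 2 r) (k (t 24 1 (u 16 1 (k v (k (c 48 4097 r (u 32 0 (k v (k v r)))) r)))) (k (t 24 2 r) (k r (k (t 16 1 r) (k (t 24 1 r) (k r (k (t 24 1 (u 16 0 (k (u 32 0 (k v (k v r))) r))) (k (t 24 1 (u 16 0 (k (u 32 0 (k v (k v r))) r))) (k (t 16 1 r) (k (t 16 1 r) (k (t 24 1 r) (k r (k (t 24 2 r) (k (c 16 4095 r (c 3 4099 v r)) (k (t 16 1 r) (k r r)))))))))))))))))))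
 .z .z)) (.s 0xee57f500113fab00 4088 (n false (n false (n true (z 156) e) (n false e e)) (z 71)) (u 3 5 (k r (k (u 5 0 (k r (k r r))) (k (c 7 4099 r (u 5 1 (k r (k r r)))) (k (c 5 4099 r (u 7 1 (k r (k r r)))) (k (c 5 4099 r (u 7 1 (k r (k r r)))) (k (c 5 4099 r (u 7 1 (k r (k r r)))) r)))))))
 (.s 0xee57f5000e7d5600 4093 (n false (n false (n true (z 156) e) e) (n true (z 67) e)) (u 8 8 (k r (k (c 3 4102 (t 2 2 v) v) (k (c 24 4099 r (u 16 1 (k r (k r r)))) (k (c 16 4098 r (u 24 1 (k r (k r r)))) (k (c 16 4097 r (u 24 1 (k r (k r r)))) (k (c 16 4099 r (u 24 1 (k r (k r r)))) r)))))))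
 .z .z) .z))) (.s 0xee5ddc00a5ddc008 4079 (n false (n false (n false (z 42) e) (n true (z 42) e)) (n false e e)) (u 8 1 (k (u 10 1 (k v (k v r))) (k (u 10 1 (k v (k v r))) r)))
 (.s 0xee5ddc008aa22888 4088 (n false (n false (n true (z 42) e) (n false e e)) (n false (n false (n false (n false e e) (n false e e)) (n false (n false e e) (n false e e))) (n false e e))) (u 8 5 (k v (k r (k r (k (c 3 4099 v (t 24 1 r)) (k (u 16 2 (k v (k v r))) (k (c 3 4099 v r) r)))))))
 (.s 0xee5d5e00a7d5c008 4087 (n false (n false (n true (z 98) e) (n false (z 35) e)) (n false e e)) (u 8 1 (k r (k r (k (u 10 2 (k v (k v (k v (k (t 26 1 (u 18 0 (k (t 34 3 (t 50 1 v)) r))) r))))) (k (c 10 4096 r (t 24 1 r)) r)))))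
 (.s 0xee57f50011d44510 4083 (n false (n false (n true (z 156) e) (n false e e)) (n true (n false (n false (n false e e) (n false e e)) (n false (n false e e) (n false e e))) e)) (u 8 8 (k v (k v (k (c 24 4099 r (u 16 1 (k v (k v r)))) (k (c 16 4098 r (u 24 1 (k v (k v r)))) (k (c 16 4097 r (u 24 1 (k v (k v r)))) (k (c 16 4099 r (u 24 1 (k v (k v r)))) r)))))))
 .z .z) (.s 0xee5d74008aa22888 4087 (n false (n false (n true (z 18) e) (n false e e)) (n false (n false (n false (n false e e) (n false e e)) (n false (n false e e) (n false e e))) (n false e e))) (c 3 4099 v (u 8 0 (k (u 16 0 (k v (k v r))) r)))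
 .z .z)) (.s 0xee5ddc0095fd4008 4080 (n false (n false (n true (z 42) e) (z 156)) (n false e e)) (u 6 1 (k (u 8 1 (k v (k v r))) (k (c 14 4099 r r) (k (c 10 4098 r r) (k (c 10 4097 r r) (k (c 10 4099 r r) (k (c 10 4095 r (c 8 4100 r r)) r)))))))
 (.s 0xee5ddc0095df0050 4074 (n false (n false (z 52) (n true (z 42) e)) (n false (n false e e) e)) (u 10 1 (k r (k (u 4 26 (k v (k v (k v r)))) r)))
 .z .z) .z)) (.s 0xee5ddc00ee884288 4071 (n false (n false (n true (n false (n true (n false (n false e e) (n false e e)) e) (n false e e)) e) (n true (z 42) e)) (n false (n false e e) (n false e e))) (u 10 16 (k v (k v (k (u 18 2 (k v (k v r))) (k (c 6 4087 r v) (k (u 18 19 (k v (k v (k (c 34 4097 r (c 6 4085 r v)) (k (c 34 4095 r (c 6 4076 r v)) (k (c 34 4095 r (c 6 4076 r v)) r)))))) (k (u 18 1 (k v (k (c 50 4099 r (u 34 1 (k v (k v r)))) (k (c 34 4098 r (u 50 1 (k v (k v r)))) (k (c 34 4097 r (c 6 4085 r v)) (k (c 34 4099 r (u 50 1 (k v (k v r)))) (k (c 34 4095 r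 (c 6 4076 r v)) r))))))) r)))))))
 (.s 0xee5ddc00e1544510 4086 (n false (n false (n true (z 42) e) (n true (n false e e) e)) (n false (n false (n false (n false e e) (n false e e)) (n false (n false e e) (n false e e))) e)) (u 8 46 (k v (k v (k v (k (c 3 4100 v r) (k (c 3 4100 v r) (k (c 3 4100 v r) r)))))))
 (.s 0xee5ddc00a5fd4008 4079 (n false (n false (n false (z 14) e) (n true (z 42) e)) (n false e e)) (u 8 0 (k (u 10 1 (k v (k v r))) (k (u 10 1 (k v (k v r))) r)))
 .z .z) (.s 0xee5ddc00e5ddc008 4078 (n false (n false (n true (z 42) e) (n true (z 42) e)) (n false e e)) (u 8 1 (k (u 10 1 (k v (k v r))) (k (u 10 1 (k v (k v r))) r)))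
 .z .z)) (.s 0xee5fd400a577c008 4088 (n false (n false (n false (z 52) e) (n true (z 14) e)) (n false e e)) (c 2 4089 (u 5 0 (k r (k r r))) v)
 (.s 0xee5fd40095df0050 4072 (n false (n false (n true (z 14) e) (z 52)) (n false (n false e e) e)) (u 8 0 (k r (k (u 6 26 (k v (k v (k v r)))) r)))
 .z .z) .z))))

set_option maxRecDepth 100000 in
def N125 : NT :=
(.s 0xee7f7600e577c008 4074 (n false (n false (n true (z 52) e) (n true (z 87) e)) (n false e e)) (u 10 12 (k r (k r (k (t 18 4 r) (k (t 18 2 r) (k (t 18 2 r) r))))))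
 (.s 0xee7f56008e577c00 4085 (n false (n false (n true (z 71) e) (n false e e)) (n true (z 52) e)) (u 8 21 (k (c 8 4094 v r) (k (c 24 4099 r r) (k (u 16 23 (k r (k (c 8 4094 v r) r))) (k (c 16 4099 r r) (k (c 16 4099 r r) (k (c 16 4099 r r) r)))))))
 (.s 0xee7d5c00a7d5c008 4087 (n false (n false (n false (z 35) e) (n true (z 35) e)) (n false e e)) (u 10 2 (k r (k r (k (c 8 4096 r v) (k (t 26 1 (u 8 2 (k (u 18 0 (k (t 34 3 (t 50 1 v)) r)) (k (t 18 2 v) (k (c 6 4101 (u 4 0 (k (t 8 3 (t 12 1 v)) r)) v) (k (t 24 1 (u 16 0 (k (t 32 3 (t 48 1 (u 18 0 (k (t 34 3 (t 50 1 v)) r)))) r))) r)))))) r)))))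
 (.s 0xee7d560095df0050 4076 (n false (n false (n true (z 67) e) (z 52)) (n false (n false e e) e)) (u 8 0 (k r (k (u 6 26 (k v (k v (k v r)))) r)))
 (.s 0xee75fe008ea88a20 4087 (n false (n false (n true (z 121) e) (n false e e)) (n true (n false (n false (n false (n false e e) (n false e e)) (n false (n false e e) (n false e e))) e) e)) (u 8 45 (k v (k v (k v (k v r)))))
 .z .z) (.s 0xee7d5c0095df0050 4077 (n false (n false (z 52) (n true (z 35) e)) (n false (n false e e) e)) (u 10 5 (k r (k (u 4 26 (k v (k v (k v r)))) (k (c 4 4097 r v) (k (t 26 1 (u 18 0 (k (t 34 3 (t 50 1 (u 4 26 (k v (k v (k v r)))))) r))) r)))))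
 .z .z)) (.s 0xee7d5c00e7d5c008 4089 (n false (n false (n true (z 35) e) (n true (z 35) e)) (n false e e)) (u 8 2 (k r (k r (k (c 10 4096 r v) (k (t 24 1 (u 10 2 (k (u 16 0 (k (t 32 3 (t 48 1 v)) r)) (k (u 16 0 (k (t 32 3 (t 48 1 v)) r)) (k (c 8 4096 (c 2 4098 r v) v) (k (t 26 1 (u 16 0 (k (t 32 3 (t 48 1 (u 18 0 (k (t 34 3 (t 50 1 v)) r)))) r))) r)))))) r)))))
 (.s 0xee7d5c00e5d5e008 4089 (n false (n false (n true (z 98) e) (n true (z 35) e)) (n false e e)) (u 10 2 (k r (k r (k (c 8 4095 r v) (k (t 26 1 (u 18 0 (k (t 34 3 (t 50 1 (u 8 1 (k v (k v (k v (k (c 10 4096 v (t 24 1 r)) r))))))) r))) r)))))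
 .z .z) .z)) (.s 0xee7f76009fd58050 4087 (n false (n false (z 71) (n true (z 87) e)) (n false (n false e e) e)) (u 4 23 (k (u 10 1 (k v (k v r))) (k (u 10 1 (k v (k v r))) r)))
 (.s 0xee7f760095fd4008 4080 (n false (n false (z 156) (n true (z 87) e)) (n false e e)) (u 4 1 (k (u 10 1 (k v (k v r))) (k (c 12 4099 r r) (k (c 8 4098 r r) (k (c 8 4097 r r) (k (c 8 4099 r r) (k (c 8 4095 r (c 10 4099 r r)) r)))))))
 (.s 0xee7f760095df0050 4072 (n false (n false (z 52) (n true (z 87) e)) (n false (n false e e) e)) (u 4 136 (k (u 10 1 (k v (k v r))) (k (u 10 1 (k v (k v r))) (k (u 10 1 (k v (k v r))) (k (u 10 1 (k v (k v r))) r)))))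
 .z .z) (.s 0xee7f76009dd70050 4086 (n false (n false (z 37) (n true (z 87) e)) (n false (n false e e) e)) (u 4 2 (k (u 10 1 (k v (k v r))) (k (u 10 1 (k v (k v r))) r)))
 .z .z)) (.s 0xee7f7600a7d56008 4079 (n false (n false (n false (z 67) e) (n true (z 87) e)) (n false e e)) (u 8 0 (k (u 10 1 (k v (k v r))) (k (u 10 1 (k v (k v r))) r)))
 (.s 0xee7f7600a577c008 4088 (n false (n false (n true (z 87) e) (n false (z 52) e)) (n false e e)) (u 8 1 (k (u 10 99 (k v (k v (k v r)))) (k (u 10 99 (k v (k v (k v r)))) r)))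
 .z .z) .z))) (.s 0xee9557000e7d5600 4093 (n false (n false (n true (n false (z 32) e) e) e) (n true (z 67) e)) (u 16 0 (k (t 32 3 (t 48 1 (u 5 98 (k v (k v (k v (k v (k v (k v (k (t 13 1 (u 9 1 (k v (k v r)))) (k (t 13 1 (u 9 0 (k (u 17 0 (k v (k v r))) r))) (k (c 13 4101 r (u 9 1 (k v (k v r)))) (k (t 13 1 (u 9 8 (k v (k v (k v (k (c 25 4099 r (u 17 1 (k v (k v r)))) r)))))) (k (c 13 4102 r (u 9 1 (k v (k v r)))) (k (c 9 4101 r (u 13 1 (k v (k v r)))) (k r (k (c 9 4101 r (u 13 1 (k v (k v r)))) r))))))))))))))))) r))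
 (.s 0xee7f7600e82ee108 4073 (n false (n false (n true (n false (n false e e) e) e) (n true (z 87) e)) (n false (n true (n false (n true (n false e e) e) (n false e e)) e) (n false e e))) (c 9 4092 v (u 10 1 (k v (k v r))))
 (.s 0xee7f7600e5fd4008 4071 (n false (n false (n true (z 87) e) (n true (z 14) e)) (n false e e)) (u 10 0 (k (u 8 1 (k v (k v r))) (k (u 8 1 (k v (k v r))) r)))
 (.s 0xee7f7600e5ddc008 4074 (n false (n false (n true (z 87) e) (n true (z 42) e)) (n false e e)) (u 8 1 (k (u 10 1 (k v (k v r))) (k (u 10 1 (k v (k v r))) r)))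
 .z .z) (.s 0xee7f7600e7f76008 4073 (n false (n false (n true (z 87) e) (n true (z 87) e)) (n false e e)) (u 8 1 (k (u 10 1 (k v (k v r))) (k (u 10 1 (k v (k v r))) r)))
 .z .z)) (.s 0xee9555804aaa8010 4087 (n false (n false (n true (n false (z 64) (z 0)) e) (n false e e)) e) (t 24 1 (u 16 0 (k (c 48 4099 r (u 32 4 (k v (k (c 8 4085 r v) r)))) r)))
 (.s 0xee7f7c008aa22888 4091 (n false (n false (n true (z 55) e) (n false e e)) (n false (n false (n false (n false e e) (n false e e)) (n false (n false e e) (n false e e))) (n false e e))) (u 8 1 (k v (k (t 24 1 (u 16 1 (k v (k (c 48 4099 r (t 32 3 v)) (k (c 3 4099 v r) (k (c 3 4099 v r) r)))))) r)))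
 .z .z) .z)) (.s 0xee95fd40022ee108 4076 (n false (n false (n true (n false (z 156) e) e) (n false e e)) (n false (n true (n false (n true (n false e e) e) (n false e e)) e) (n false e e))) (u 16 19 (k v (k v (k (c 48 4099 r (u 32 1 (k v (k v r)))) (k (c 32 4099 r (u 48 1 (k v (k v r)))) (k (c 32 4095 r (c 4 4076 r v)) r))))))
 (.s 0xee95df0077082288 4072 (n false (n false (n true (n false (z 52) (n true (n false (n true (n false e e) e) (n false e e)) e)) e) (n false e e)) (n false (n false e e) (n false e e))) (u 16 74 (k v (k v (k v (k v r)))))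
 (.s 0xee95df0057082288 4073 (n false (n false (n true (n false (z 52) (n false (n false (n true (n false e e) e) (n false e e)) e)) e) (n false e e)) (n false (n false e e) (n false e e))) (u 16 362 (k v (k v (k v (k v r)))))
 .z .z) (.s 0xee95fd40022a2288 4082 (n false (n false (n true (n false (z 156) e) e) (n false e e)) (n false (n false (n false e e) (n false e e)) (n false (n false e e) (n false e e)))) (u 16 14 (k v (k v (k (c 48 4099 r (u 32 1 (k v (k v r)))) (k (c 32 4099 r (u 48 1 (k v (k v r)))) (k (c 32 4095 r (u 48 0 (k v (k v r)))) r))))))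
 .z .z)) (.s 0xee95fd40095df000 4074 (n false (n false (n true (n false (z 52) (z 156)) e) e) e) (u 24 1 (k r (k (c 56 4099 r (u 40 1 (k r (k r r)))) (k (c 40 4098 r (u 56 1 (k r (k r r)))) (k (c 40 4097 r (u 56 1 (k r (k r r)))) (k (c 40 4099 r (u 56 1 (k r (k r r)))) (k (c 40 4095 r (u 56 0 (k r (k r r)))) r)))))))
 (.s 0xee95fd4003a88a20 4071 (n false (n false (n true (n false (z 156) e) e) (n true (n false (n false (n false e e) (n false e e)) (n false (n false e e) (n false e e))) e)) e) (u 16 1 (k v (k (c 48 4099 r (u 32 1 (k v (k v r)))) (k (c 32 4098 r (u 48 1 (k v (k v r)))) (k (c 32 4097 r (u 48 1 (k v (k v r)))) (k (c 32 4099 r (u 48 1 (k v (k v r)))) (k (c 32 4095 r (u 48 0 (k v (k v r)))) r)))))))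
 .z .z) .z))))

set_option maxRecDepth 100000 in
def N126 : NT :=
(.s 0xeea88a22113bfe00 4091 (n false (z 61) (n false (n true (n false (n false (n false (n false e e) (n false e e)) (n false (n false e e) (n false e e))) (n false e e)) e) (n false e e))) (u 2 0 (k (t 6 1 (u 4 0 (k v (k (c 12 4097 r (u 8 3 (k v (k v (k v r))))) r)))) r))
 (.s 0xeea88a22112fff00 4093 (n false (z 126) (n false (n true (n false (n false (n false (n false e e) (n false e e)) (n false (n false e e) (n false e e))) (n false e e)) e) (n false e e))) (u 2 3 (k v (k (t 6 1 (u 4 0 (k v (k v (k (c 12 4099 r (u 8 0 (k v (k v r)))) r))))) (k (t 6 1 r) r))))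
 (.s 0xeea88a22112eaf00 4091 (n false (z 98) (n false (n true (n false (n false (n false (n false e e) (n false e e)) (n false (n false e e) (n false e e))) (n false e e)) e) (n false e e))) (u 2 0 (k v (k v (k v (k (t 6 1 (u 4 1 (k (c 12 4099 r (u 8 14 (k v (k (c 2 4079 (c 2 4076 (u 4 0 (k r r)) v) v) r)))) (k r r)))) (k (t 6 1 (u 4 0 (k (c 12 4097 r r) r))) r))))))
 (.s 0xeea88a220a7d5600 4089 (n false (n false (z 67) e) (n false (n true (n false (n false (n false (n false e e) (n false e e)) (n false (n false e e) (n false e e))) (n false e e)) e) e)) (u 4 71 (k v (k v (k (c 12 4101 r r) (k (c 8 4101 r r) (k (c 8 4101 r r) r))))))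
 (.s 0xeea7d5c003a88a20 4071 (n false (n false (n true (n false (n false (z 35) e) e) e) (n true (n false (n false (n false e e) (n false e e)) (n false (n false e e) (n false e e))) e)) e) (u 32 2 (k v (k v (k v (k (t 96 1 (u 64 0 (k (t 128 3 (t 192 1 v)) r))) r)))))
 .z .z) (.s 0xeea88a22112bbe00 4090 (n false (z 52) (n false (n true (n false (n false (n false (n false e e) (n false e e)) (n false (n false e e) (n false e e))) (n false e e)) e) (n false e e))) (u 2 13 (k v (k v (k v (k v (k v (k v (k v (k v (k (t 6 1 r) r))))))))))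
 .z .z)) (.s 0xeea88a22112eef00 4094 (n false (z 106) (n false (n true (n false (n false (n false (n false e e) (n false e e)) (n false (n false e e) (n false e e))) (n false e e)) e) (n false e e))) (u 2 4 (k v (k v (k (c 6 4096 r r) (k (c 4 4097 r r) r)))))
 (.s 0xeea88a22112eee00 4089 (n false (z 42) (n false (n true (n false (n false (n false (n false e e) (n false e e)) (n false (n false e e) (n false e e))) (n false e e)) e) (n false e e))) (u 2 2 (k v (k (t 6 1 (u 4 0 (k (u 8 4 (k v (k (c 4 4084 (u 4 1 (k v (k v r))) v) r))) r))) (k (u 4 2 (k v (k v r))) (k (c 9 4099 v (u 4 0 (k v (k r r)))) (k (c 9 4099 v r) (k (c 9 4099 v r) r)))))))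
 .z .z) .z)) (.s 0xeea88a22113bbe00 4091 (n false (z 53) (n false (n true (n false (n false (n false (n false e e) (n false e e)) (n false (n false e e) (n false e e))) (n false e e)) e) (n false e e))) (u 2 0 (k (t 6 1 (u 4 1 (k v (k r (k (c 12 4099 r (u 8 3 (k v (k v (k v r))))) (k (u 8 0 (k v (k v r))) (k (c 12 4097 r r) (k (c 8 4095 r r) r)))))))) (k (t 6 1 (u 4 24 (k v (k (c 12 4099 r r) (k (c 12 4099 r r) (k (c 12 4099 r (u 8 6 (k v (k v (k v (k (t 24 1 (u 16 6 (k v (k v (k (t 48 1 (u 32 2 (k v (k v r)))) r))))) r)))))) (k (u 8 22 (k v (k v (k v r)))) (k (c 12 4096 r r) r)))))))) r)))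
 (.s 0xeea88a22113afe00 4091 (n false (z 57) (n false (n true (n false (n false (n false (n false e e) (n false e e)) (n false (n false e e) (n false e e))) (n false e e)) e) (n false e e))) (u 2 0 (k v (k (t 4 3 (t 6 3 v)) (k (t 6 1 (u 4 3 (k v (k v r)))) r))))
 (.s 0xeea88a22113afb00 4088 (n false (z 89) (n false (n true (n false (n false (n false (n false e e) (n false e e)) (n false (n false e e) (n false e e))) (n false e e)) e) (n false e e))) (u 2 30 (k v (k v (k v (k (t 6 3 (u 4 26 (k v (k v (k v r))))) (k (c 6 4099 r (c 9 4099 v r)) (k (t 6 2 r) (k (c 6 4097 r (c 9 4099 v r)) r))))))))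
 .z .z) (.s 0xeea88a22113bab00 4088 (n false (z 69) (n false (n true (n false (n false (n false (n false e e) (n false e e)) (n false (n false e e) (n false e e))) (n false e e)) e) (n false e e))) (u 2 2 (k v (k (t 6 3 (u 4 0 (k v (k (c 9 4099 v (u 8 0 (k (t 16 3 (t 24 1 v)) r))) (k (u 8 0 (k (t 16 3 (t 24 1 v)) r)) (k (c 9 4099 v r) (k (u 8 0 (k v (k v (k (t 24 1 (u 16 0 (k (t 32 3 (t 48 1 v)) r))) r)))) (k (c 9 4099 v r) r)))))))) (k (t 6 3 (c 9 4099 v r)) (k (t 6 2 r) r)))))
 .z .z)) (.s 0xeea88a22113bfb00 4091 (n false (z 93) (n false (n true (n false (n false (n false (n false e e) (n false e e)) (n false (n false e e) (n false e e))) (n false e e)) e) (n false e e))) (u 2 0 (k (t 6 1 (u 4 0 (k v (k v (k (u 8 0 (k v (k v r))) (k (c 8 4097 r (u 12 3 (k v (k v (k v r))))) (k (c 8 4095 r (u 12 3 (k v (k v (k v r))))) r))))))) r))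
 (.s 0xeea88a22113bee00 4092 (n false (z 45) (n false (n true (n false (n false (n false (n false e e) (n false e e)) (n false (n false e e) (n false e e))) (n false e e)) e) (n false e e))) (u 2 5 (k v (k v (k (t 6 1 r) r))))
 .z .z) .z))) (.s 0xeea88a2212fee008 4086 (n false (n false (z 46) (n true (n false (n false (n false (n false e e) (n false e e)) (n false (n false e e) (n false e e))) (n false e e)) e)) (n false e e)) (u 4 0 (k v (k r (k (u 8 1 (k v (k v r))) (k (c 12 4099 r (u 8 0 (k v (k v r)))) (k (c 12 4097 r r) (k (c 8 4095 r r) r)))))))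
 (.s 0xeea88a2212aaa800 4092 (n false (n false (z 128) (n true (n false (n false (n false (n false e e) (n false e e)) (n false (n false e e) (n false e e))) (n false e e)) e)) e) (u 4 2 (k v (k v (k (c 12 4097 r r) (k (c 8 4095 r (c 10 4099 v r)) (k (c 8 4098 r (c 10 4099 v (u 12 0 (k (u 20 0 (k v (k v r))) r)))) (k (c 8 4096 r r) (k (c 8 4095 r (c 10 4099 v r)) (k (c 8 4095 r r) (k (c 8 4095 r (u 12 0 (k v (k v r)))) (k (c 12 4095 r (c 10 4099 v r)) (k (c 12 4095 r (u 8 1 (k v (k v r)))) (k (c 8 4097 r (u 12 0 (k v (k v r)))) (k (c 8 4095 r r) (k (c 8 4095 r (u 12 1 (k v (k v r)))) (k (c 8 4097 r r) r))))))))))))))))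
 (.s 0xeea88a22113eeb00 4090 (n false (z 75) (n false (n true (n false (n false (n false (n false e e) (n false e e)) (n false (n false e e) (n false e e))) (n false e e)) e) (n false e e))) (u 2 14 (k v (k (c 3 4108 v (u 4 0 (k r r))) r)))
 (.s 0xeea88a22113eab00 4088 (n false (z 67) (n false (n true (n false (n false (n false (n false e e) (n false e e)) (n false (n false e e) (n false e e))) (n false e e)) e) (n false e e))) (u 2 39 (k v (k v (k (t 6 2 r) (k (c 4 4096 r (c 9 4099 v (u 6 0 (k (u 10 0 (k v (k v r))) r)))) (k (c 4 4101 r r) (k (c 6 4099 r (c 9 4099 v r)) (k (c 9 4099 v r) (k (c 4 4099 r r) (k (c 6 4099 r (c 9 4099 v r)) (k (t 4 2 r) (k (t 6 2 (u 4 0 (k (u 8 0 (k v (k v r))) r))) (k (t 4 1 r) (k (t 6 2 r) (k (t 4 1 (u 6 0 (k (u 10 0 (k v (k v r))) r))) (k r (k (t 6 2 r) (k (t 6 1 r) (k (t 6 2 r) (k (t 6 2 r) (k (t 6 1 r) r)))))))))))))))))))))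
 .z .z) (.s 0xeea88a22113faf00 4086 (n false (z 103) (n false (n true (n false (n false (n false (n false e e) (n false e e)) (n false (n false e e) (n false e e))) (n false e e)) e) (n false e e))) (u 2 3 (k (t 4 1 r) (k (t 6 2 r) (k (t 6 1 r) (k (t 6 1 r) r)))))
 .z .z)) (.s 0xeea88a2212bff008 4086 (n false (n false (z 124) (n true (n false (n false (n false (n false e e) (n false e e)) (n false (n false e e) (n false e e))) (n false e e)) e)) (n false e e)) (u 4 1 (k v (k (c 12 4097 r (u 8 1 (k v (k v r)))) (k (c 12 4096 r (u 8 1 (k v (k v r)))) (k (c 8 4098 r (u 12 0 (k v (k v r)))) (k (c 12 4096 r (u 8 1 (k v (k v r)))) (k (c 12 4097 r (u 8 1 (k v (k v r)))) (k (c 12 4097 r (u 8 1 (k v (k v r)))) (k (c 12 4096 r (u 8 1 (k v (k v r)))) (k (c 12 4099 r (u 8 1 (k v (k v r)))) (k (c 8 4097 r (u 12 1 (k v (k v r)))) r)))))))))))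
 (.s 0xeea88a2212bfa800 4095 (n false (n false (z 156) (n true (n false (n false (n false (n false e e) (n false e e)) (n false (n false e e) (n false e e))) (n false e e)) e)) e) (u 4 1 (k v (k (c 12 4099 r (u 8 1 (k v (k v r)))) (k (c 8 4098 r (u 12 1 (k v (k v r)))) (k (c 8 4097 r r) (k (c 8 4099 r (u 12 1 (k v (k v r)))) (k (c 8 4095 r r) r)))))))
 .z .z) .z)) (.s 0xeea88a2213beb008 4087 (n false (n false (z 77) (n true (n false (n false (n false (n false e e) (n false e e)) (n false (n false e e) (n false e e))) (n false e e)) e)) (n false e e)) (u 4 0 (k (c 12 4099 r r) (k (u 8 7 (k v (k (t 24 3 (u 16 2 (k v (k v r)))) r))) (k r (k r r)))))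
 (.s 0xeea88a2213bae008 4088 (n false (n false (z 37) (n true (n false (n false (n false (n false e e) (n false e e)) (n false (n false e e) (n false e e))) (n false e e)) e)) (n false e e)) (u 4 0 (k v (k (c 10 4099 v (u 8 0 (k (t 16 3 (t 24 1 v)) r))) (k (c 10 4099 v (u 8 0 (k (t 16 3 (t 24 1 v)) r))) (k (u 8 2 (k v (k v (k v (k (t 24 1 (u 16 0 (k (t 32 3 (t 48 1 v)) r))) r))))) (k (u 8 2 (k v (k v (k v (k (t 24 1 (u 16 0 (k (t 32 3 (t 48 1 v)) r))) r))))) (k (c 10 4099 v r) r)))))))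
 (.s 0xeea88a2213aff008 4088 (n false (n false (z 121) (n true (n false (n false (n false (n false e e) (n false e e)) (n false (n false e e) (n false e e))) (n false e e)) e)) (n false e e)) (u 4 1 (k v (k (c 12 4099 r (u 8 1 (k v (k v r)))) (k (c 8 4097 r r) (k (c 8 4095 r (c 10 4099 v r)) (k (c 8 4095 r (c 10 4099 v r)) r))))))
 .z .z) (.s 0xeea88a2213bbb008 4087 (n false (n false (z 85) (n true (n false (n false (n false (n false e e) (n false e e)) (n false (n false e e) (n false e e))) (n false e e)) e)) (n false e e)) (u 4 10 (k (c 12 4099 r r) (k (c 12 4099 r r) (k (c 12 4099 r r) (k (c 10 4099 v r) (k (c 12 4101 r r) (k (c 12 4096 r r) (k (c 8 4099 r r) r))))))))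
 .z .z)) (.s 0xeea88a221caef800 4090 (n false (n false (n true (z 52) e) (n true (n false (n false (n false (n false e e) (n false e e)) (n false (n false e e) (n false e e))) (n false e e)) e)) e) (u 8 13 (k v (k v (k v (k v (k v (k v (k v (k v (k (c 10 4099 v r) r))))))))))
 (.s 0xeea88a2213fab008 4082 (n false (n false (z 71) (n true (n false (n false (n false (n false e e) (n false e e)) (n false (n false e e) (n false e e))) (n false e e)) e)) (n false e e)) (u 4 6 (k (c 12 4099 r r) (k (c 10 4099 v r) (k (c 10 4099 v r) (k (c 8 4099 r r) (k (c 8 4099 r r) (k (c 8 4099 r r) r)))))))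
 .z .z) .z))))

end Pool.Agent.Helper91.ND1
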