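import Pool.Agent.Helper66.ND.Defs

/-! part of the certificate for the constant 25/48 (generated) -/

namespace Pool.Agent.Helper91.ND1

open Pool.Agent.Helper66.IL
open Pool.Agent.Helper66.ND
open Pool.Agent.Helper66.ND.LT
open Pool.Agent.Helper66.ND.Ct

set_option maxRecDepth 100000 in
def N127 : NT :=
(.s 0xeeeae577c0084380 4062 (n false (n false (n true (n false (n true (n false (n false (n false (n true (z 52) e) (n false e e)) e) (n false e e)) e) (n true (n false e e) e)) e) e) e) (u 512 23 (k v (k v (k v (k v (k v (k v (k v (k (t 1536 2 (u 1024 0 (k (u 2048 4 (k v (k (c 256 4078 (u 16 1 (k v (k v r))) v) r))) r))) (k (t 1536 1 (u 1024 0 (k (c 3072 4099 r (u 2048 4 (k v (k (c 256 4078 (u 16 1 (k v (k v r))) v) r)))) r))) r))))))))))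
 (.s 0xeeae5d7c00843850 4063 (n false (n false (n true (n false (n false (n false (n true (z 50) e) (n false e e)) e) (n false e e)) e) (n true (n false e e) e)) (n false (n false e e) e)) (u 128 1 (k v (k (c 384 4097 r (u 256 0 (k v (k v r)))) r)))
 (.s 0xeea88a221cfaac00 4089 (n false (n false (n true (z 67) e) (n true (n false (n false (n false (n false e e) (n false e e)) (n false (n false e e) (n false e e))) (n false e e)) e)) e) (u 8 2 (k v (k v (k v (k (t 24 2 r) (k (c 16 4096 r (c 10 4099 v (u 24 0 (k (u 40 0 (k v (k v r))) r)))) (k (c 16 4101 r r) (k (c 24 4099 r (c 10 4099 v r)) (k (c 10 4099 v r) (k (c 16 4099 r r) (k (c 24 4099 r (c 10 4099 v r)) (k (c 24 4099 r (c 10 4099 v (u 16 0 (k (u 32 0 (k v (k v r))) r)))) (k (t 16 1 r) (k (t 24 2 r) (k (c 24 4102 r (c 10 4099 v (u 16 1 (k v (k v r))))) (k (c 24 4100 r (c 10 4099 v r)) (k (t 24 1 r) (k (t 24 2 r) (k (t 24 1 r) r)))))))))))))))))))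
 (.s 0xeea88a221cbffc00 4092 (n false (n false (n true (z 126) e) (n true (n false (n false (n false (n false e e) (n false e e)) (n false (n false e e) (n false e e))) (n false e e)) e)) e) (u 8 3 (k v (k (t 24 1 (u 16 0 (k v (k v (k (c 48 4099 r (u 32 0 (k v (k v r)))) r))))) (k (t 24 1 (u 16 0 (k v (k v (k (c 48 4099 r (u 32 25 (k v (k v (k v (k v r)))))) r))))) r))))
 (.s 0xeea88a221cbff800 4088 (n false (n false (n true (z 62) e) (n true (n false (n false (n false (n false e e) (n false e e)) (n false (n false e e) (n false e e))) (n false e e)) e)) e) (u 8 2 (k v (k v (k v (k (t 24 1 (u 16 24 (k v (k v (k v (k (t 48 1 (u 32 0 (k v (k v r)))) r)))))) r)))))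
 .z .z) (.s 0xeea88a221cefb800 4092 (n false (n false (n true (z 45) e) (n true (n false (n false (n false (n false e e) (n false e e)) (n false (n false e e) (n false e e))) (n false e e)) e)) e) (u 8 5 (k v (k v (k (t 24 1 (u 16 0 (k v (k (u 32 0 (k (t 64 3 (t 96 1 v)) r)) (k (u 32 0 (k (t 64 3 (t 96 1 v)) r)) (k (u 32 0 (k v (k v (k (t 96 1 (u 64 0 (k (t 128 3 (t 192 1 v)) r))) r)))) (k (u 32 0 (k v (k v (k (t 96 1 (u 64 0 (k (t 128 3 (t 192 1 v)) r))) r)))) (k (c 16 4095 r v) r)))))))) r))))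
 .z .z)) (.s 0xeeae577c00843850 4063 (n false (n false (n true (n false (n false (n false (n true (z 52) e) (n false e e)) e) (n false e e)) e) (n true (n false e e) e)) (n false (n false e e) e)) (u 128 277 (k v (k v (k v (k v (k v (k v (k v (k v r)))))))))
 (.s 0xeea88a221cfef800 4090 (n false (n false (n true (z 55) e) (n true (n false (n false (n false (n false e e) (n false e e)) (n false (n false e e) (n false e e))) (n false e e)) e)) e) (u 8 1 (k v (k (t 24 1 (u 16 1 (k v (k (c 48 4099 r (t 32 3 v)) (k (c 10 4099 v r) (k r r)))))) r)))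
 .z .z) .z)) (.s 0xeeae7f7c00843850 4063 (n false (n false (n true (n false (n false (n false (n true (z 55) e) (n false e e)) e) (n false e e)) e) (n true (n false e e) e)) (n false (n false e e) e)) (u 128 2 (k v (k (t 384 2 (u 256 2 (k v (k (c 64 4082 (u 8 1 (k v (k v r))) v) r)))) r)))
 (.s 0xeeae75fe00843850 4065 (n false (n false (n true (n false (n false (n false (n true (z 121) e) (n false e e)) e) (n false e e)) e) (n true (n false e e) e)) (n false (n false e e) e)) (u 128 2 (k v (k v (k (c 384 4099 r (u 256 1 (k v (k v r)))) (k (c 256 4095 r (u 384 0 (k v (k v r)))) (k (c 256 4095 r (u 384 0 (k v (k v r)))) r))))))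
 (.s 0xeeae5fdc00843850 4063 (n false (n false (n true (n false (n false (n false (n true (z 46) e) (n false e e)) e) (n false e e)) e) (n true (n false e e) e)) (n false (n false e e) e)) (u 128 1 (k v (k (u 256 1 (k v (k v r))) (k (c 384 4099 r (u 256 0 (k v (k v r)))) (k (u 256 0 (k v (k v r))) (k (c 384 4097 r (u 256 1 (k v (k v r)))) (k (c 256 4095 r (u 384 1 (k v (k v r)))) r)))))))
 .z .z) (.s 0xeeae775c00843850 4065 (n false (n false (n true (n false (n false (n false (n true (z 37) e) (n false e e)) e) (n false e e)) e) (n true (n false e e) e)) (n false (n false e e) e)) (u 128 0 (k v (k (u 256 0 (k (t 512 3 (t 768 1 v)) r)) (k (u 256 0 (k (t 512 3 (t 768 1 v)) r)) (k (u 256 2 (k v (k v (k v (k (t 768 1 (u 512 0 (k (t 1024 3 (t 1536 1 v)) r))) r))))) (k (u 256 22 (k v (k v (k (t 768 1 (u 512 0 (k (t 1024 3 (t 1536 1 v)) r))) r)))) (k (c 64 4088 r v) r)))))))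
 .z .z)) (.s 0xeee7d5c003a88a20 4073 (n false (n false (n true (n false (n true (z 35) e) e) e) (n true (n false (n false (n false e e) (n false e e)) (n false (n false e e) (n false e e))) e)) e) (u 32 5 (k v (k v (k v (k (t 96 1 (u 64 0 (k (t 128 3 (t 192 1 v)) r))) r)))))
 (.s 0xeeae7f7e00843850 4065 (n false (n false (n true (n false (n false (n false (n true (z 119) e) (n false e e)) e) (n false e e)) e) (n true (n false e e) e)) (n false (n false e e) e)) (u 128 18 (k v (k v (k (c 384 4101 r r) (k (c 384 4099 r r) (k (c 384 4097 r r) (k (c 384 4096 r (u 256 0 (k (u 512 0 (k v (k v r))) r))) (k (c 256 4098 r r) (k (c 256 4101 r r) (k (c 256 4099 r r) (k (c 256 4101 r r) r)))))))))))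
 .z .z) .z))) (.s 0xeeeee577c0084380 4064 (n false (n false (n true (n false (n true (n false (n true (n false (n true (z 52) e) (n false e e)) e) (n false e e)) e) (n true (n false e e) e)) e) e) e) (u 512 433 (k v (k v (k v (k v (k v (k v (k v (k v r)))))))))
 (.s 0xeeeae775c0084380 4064 (n false (n false (n true (n false (n true (n false (n false (n false (n true (z 37) e) (n false e e)) e) (n false e e)) e) (n true (n false e e) e)) e) e) e) (u 512 0 (k v (k (u 1024 0 (k (t 2048 3 (t 3072 1 v)) r)) (k (u 1024 0 (k (t 2048 3 (t 3072 1 v)) r)) (k (u 1024 2 (k v (k v (k v (k (t 3072 1 (u 2048 0 (k (t 4096 3 (t 6144 1 v)) r))) r))))) (k (u 1024 0 (k v (k v (k (t 3072 1 (u 2048 0 (k (t 4096 3 (t 6144 1 v)) r))) r)))) (k (c 256 4088 r v) r)))))))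
 (.s 0xeeeae5fdc0084380 4064 (n false (n false (n true (n false (n true (n false (n false (n false (n true (z 46) e) (n false e e)) e) (n false e e)) e) (n true (n false e e) e)) e) e) e) (u 512 1 (k v (k (u 1024 1 (k v (k v r))) (k (c 1536 4099 r (u 1024 0 (k v (k v r)))) (k (u 1024 0 (k v (k v r))) (k (c 1536 4097 r (u 1024 1 (k v (k v r)))) (k (c 1024 4095 r (u 1536 1 (k v (k v r)))) r)))))))
 (.s 0xeeeae5d7c0084380 4064 (n false (n false (n true (n false (n true (n false (n false (n false (n true (z 50) e) (n false e e)) e) (n false e e)) e) (n true (n false e e) e)) e) e) e) (u 512 1 (k v (k (c 1536 4097 r (u 1024 0 (k v (k v r)))) r)))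
 .z .z) (.s 0xeeeae75fe0084380 4064 (n false (n false (n true (n false (n true (n false (n false (n false (n true (z 121) e) (n false e e)) e) (n false e e)) e) (n true (n false e e) e)) e) e) e) (u 512 23 (k v (k v (k v (k (c 1536 4099 r (u 1024 1 (k v (k v r)))) (k (c 1024 4095 r (u 1536 0 (k v (k v r)))) (k (c 1024 4095 r (u 1536 0 (k v (k v r)))) r)))))))
 .z .z)) (.s 0xeeeae7f7e0084380 4066 (n false (n false (n true (n false (n true (n false (n false (n false (n true (z 119) e) (n false e e)) e) (n false e e)) e) (n true (n false e e) e)) e) e) e) (u 512 11 (k v (k v (k (c 1536 4101 r r) (k (c 1536 4099 r r) (k (c 1536 4096 r (u 1024 0 (k (u 2048 0 (k v (k v r))) r))) (k (c 1024 4098 r r) (k (c 1024 4101 r r) (k (c 1024 4099 r r) (k (c 1024 4101 r r) r))))))))))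
 (.s 0xeeeae7f7c0084380 4062 (n false (n false (n true (n false (n true (n false (n false (n false (n true (z 55) e) (n false e e)) e) (n false e e)) e) (n true (n false e e) e)) e) e) e) (u 512 2 (k v (k (t 1536 2 (u 1024 2 (k v (k (c 256 4082 (u 8 1 (k v (k v r))) v) r)))) r)))
 .z .z) .z)) (.s 0xef95fd40022ee108 4075 (n false (n false (n true (n true (z 156) e) e) (n false e e)) (n false (n true (n false (n true (n false e e) e) (n false e e)) e) (n false e e))) (u 16 1 (k v (k (c 48 4099 r (u 32 1 (k v (k v r)))) (k (c 32 4098 r (u 48 1 (k v (k v r)))) (k (c 32 4097 r (u 48 1 (k v (k v r)))) (k (c 32 4099 r (u 48 1 (k v (k v r)))) (k (c 32 4095 r (u 48 23 (k v (k v r)))) r)))))))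
 (.s 0xef95df0011544510 4081 (n false (n false (n true (n true (z 52) e) e) (n false e e)) (n false (n false (n false (n false e e) (n false e e)) (n false (n false e e) (n false e e))) e)) (u 16 177 (k v (k v (k v (k v (k v (k v (k v r))))))))
 (.s 0xeeeee7f7c0084380 4064 (n false (n false (n true (n false (n true (n false (n true (n false (n true (z 55) e) (n false e e)) e) (n false e e)) e) (n true (n false e e) e)) e) e) e) (u 512 2 (k v (k (t 1536 2 (u 1024 2 (k v (k (u 2048 5 (k v (k v r))) r)))) r)))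
 .z .z) (.s 0xef95df0011d44510 4080 (n false (n false (n true (n true (z 52) e) e) (n false e e)) (n true (n false (n false (n false e e) (n false e e)) (n false (n false e e) (n false e e))) e)) (u 16 111 (k v (k v (k v (k v (k v (k v (k v r))))))))
 .z .z)) (.s 0xef9d7f800a5ddc00 4093 (n false (n false (n true (n true (z 121) e) e) e) (n false (z 42) e)) (u 16 2 (k (u 5 1 (k v (k v r))) (k (u 5 1 (k v (k v r))) (k (c 48 4099 r r) (k (c 32 4095 r r) (k (c 32 4095 r r) r))))))
 (.s 0xef95fd400387dc20 4079 (n false (n false (n true (n true (z 156) e) e) (n true (n false e e) e)) (n true (n true (n false (n true (n false e e) e) (n false e e)) e) e)) (u 16 2 (k v (k (c 48 4099 r (u 32 1 (k v (k v r)))) (k (c 32 4095 r (u 48 0 (k v (k v r)))) r))))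
 .z .z) .z))))

set_option maxRecDepth 100000 in
def N128 : NT :=
(.s 0xeffab9fdf8021010 4072 (n false (n false (n true (n true (n true (n true (n false (n false (n false (n true (z 119) e) (n false e e)) e) (n false e e)) e) e) e) e) (n false e e)) e) (u 1024 11 (k v (k v (k (c 3072 4101 r r) (k (c 3072 4099 r r) (k (c 3072 4096 r (u 2048 0 (k (u 4096 0 (k v (k v r))) r))) (k (c 2048 4098 r r) (k (c 2048 4101 r r) (k (c 2048 4099 r r) (k (c 2048 4101 r r) r))))))))))
 (.s 0xefaa2288827fd600 4088 (n false (n false (z 79) (n true (n true (n false (n false (n false (n false e e) (n false e e)) (n false (n false e e) (n false e e))) (n false e e)) e) e)) e) (u 4 4 (k v (k (c 18 4099 v r) (k (c 8 4100 r (u 12 0 (k (u 20 0 (k v (k v r))) r))) r))))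
 (.s 0xefa5df401047dc20 4061 (n false (n false (n true (n true (n false (z 26) (n false e e)) e) e) (n false e e)) (n true (n true (n false (n true (n false e e) e) (n false e e)) e) e)) (u 32 2 (k v (k (c 8 4082 (u 8 1 (k v (k v r))) v) r)))
 (.s 0xef9f7d8011544510 4084 (n false (n false (n true (n true (z 91) e) e) (n false e e)) (n false (n false (n false (n false e e) (n false e e)) (n false (n false e e) (n false e e))) e)) (u 16 7 (k v (k (u 32 8 (k v (k v r))) r)))
 (.s 0xef9f57000e7d5600 4095 (n false (n false (n true (n true (z 35) e) e) e) (n true (z 67) e)) (u 16 0 (k r (k (c 8 4094 v r) (k (t 48 1 (u 32 0 (k (t 64 3 (t 96 1 (u 5 29 (k v (k v (k v r)))))) r))) r))))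
 .z .z) (.s 0xef9f7d8011d44510 4082 (n false (n false (n true (n true (z 91) e) e) (n false e e)) (n true (n false (n false (n false e e) (n false e e)) (n false (n false e e) (n false e e))) e)) (u 16 19 (k v (k v (k v (k (u 32 0 (k v (k v r))) (k (c 32 4097 r (u 48 0 (k v (k v r)))) r))))))
 .z .z)) (.s 0xefa97ff8020fb840 4064 (n false (n false (n true (n true (n false (n false (z 126) e) (n false e e)) e) e) (n true (n true (n false (n true (n false e e) e) (n false e e)) e) e)) e) (u 64 0 (k r (k r (k r (k r r)))))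
 (.s 0xefa97ff80208ee10 4063 (n false (n false (n true (n true (n false (n false (z 126) e) (n false e e)) e) e) (n false e e)) (n true (n false (n true (n false e e) e) (n false e e)) e)) (u 64 0 (k r (k r (k r (k r r)))))
 .z .z) .z)) (.s 0xeffab97f70021010 4070 (n false (n false (n true (n true (n true (n true (n false (n false (n false (n true (z 46) e) (n false e e)) e) (n false e e)) e) e) e) e) (n false e e)) e) (u 1024 1 (k v (k (u 2048 1 (k v (k v r))) (k (c 3072 4099 r (u 2048 0 (k v (k v r)))) (k (u 2048 0 (k v (k v r))) (k (c 3072 4097 r (u 2048 1 (k v (k v r)))) (k (c 2048 4095 r (u 3072 1 (k v (k v r)))) r)))))))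
 (.s 0xefea22881cebfc00 4086 (n false (n false (n true (z 121) e) (n true (n true (n true (n false (n false (n false e e) (n false e e)) (n false (n false e e) (n false e e))) e) e) e)) e) (u 8 21 (k v (k v (k v (k (c 16 4097 r (u 24 1 (k v (k v r)))) r)))))
 (.s 0xefe577c0022a2288 4080 (n false (n false (n true (n true (n true (z 52) e) e) e) (n false e e)) (n false (n false (n false e e) (n false e e)) (n false (n false e e) (n false e e)))) (u 32 181 (k v (k v (k v (k v (k v (k v (k v r))))))))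
 .z .z) (.s 0xeffab975f0021010 4070 (n false (n false (n true (n true (n true (n true (n false (n false (n false (n true (z 50) e) (n false e e)) e) (n false e e)) e) e) e) e) (n false e e)) e) (u 1024 1 (k v (k (c 3072 4097 r (u 2048 0 (k v (k v r)))) r)))
 .z .z)) (.s 0xeffab9dd70021010 4070 (n false (n false (n true (n true (n true (n true (n false (n false (n false (n true (z 37) e) (n false e e)) e) (n false e e)) e) e) e) e) (n false e e)) e) (u 1024 0 (k v (k (u 2048 0 (k (t 4096 3 (t 6144 1 v)) r)) (k (u 2048 0 (k (t 4096 3 (t 6144 1 v)) r)) (k r (k (u 2048 0 (k v (k v (k (t 6144 1 (u 4096 0 (k (t 8192 3 (t 12288 1 v)) r))) r)))) (k r r)))))))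
 (.s 0xeffab9d7f8021010 4070 (n false (n false (n true (n true (n true (n true (n false (n false (n false (n true (z 121) e) (n false e e)) e) (n false e e)) e) e) e) e) (n false e e)) e) (u 1024 16 (k v (k v (k v (k (c 3072 4099 r (u 2048 1 (k v (k v r)))) r)))))
 .z .z) .z))) (.s 0xfa577c010ea88a20 4086 (n false (n true (n false (z 52) (n false e e)) e) (n true (n false (n false (n false (n false e e) (n false e e)) (n false (n false e e) (n false e e))) e) e)) (u 8 6 (k v (k v (k (t 24 1 (u 16 0 (k v (k v r)))) r))))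
 (.s 0xfa577c010e577c00 4090 (n false (n true (z 52) e) (n true (n false (z 52) (n false e e)) e)) (u 4 4 (k r (k r (k r (k r (k (t 12 1 (u 8 2 (k r (k r r)))) r))))))
 (.s 0xf95fd4005d445108 4080 (n false (n true (z 156) e) (n false (n true (n false (n false (n false e e) (n false e e)) (n false (n false e e) (n false e e))) e) (n false e e))) (u 4 1 (k v (k (c 12 4099 r (u 8 1 (k v (k v r)))) (k (c 8 4098 r (u 12 1 (k v (k v r)))) (k (c 8 4097 r (u 12 1 (k v (k v r)))) (k (c 8 4099 r (u 12 1 (k v (k v r)))) (k (c 8 4095 r (u 12 0 (k v (k v r)))) r)))))))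
 (.s 0xf95554005fdc2070 4077 (n false (n true (z 128) e) (n false (n true (n true (n true (n false (n true (n false e e) e) (n false e e)) e) e) e) (n true (n false e e) e))) (u 4 23 (k v (k v (k v (k (c 12 4097 r r) (k (c 12 4095 r (u 8 1 (k v (k v r)))) (k (c 8 4095 r (u 12 1 (k v (k v r)))) r)))))))
 .z .z) (.s 0xfa555c0053eab008 4083 (n false (n false (z 67) (n false e e)) (n true (n false (z 32) e) e)) (u 9 0 (k (t 17 3 (t 25 1 (u 4 115 (k v (k (c 12 4099 r r) (k (c 8 4096 r r) (k (c 8 4096 r r) (k (c 12 4097 r r) (k (c 12 4099 r r) (k r (k (c 12 4097 r r) (k (c 12 4099 r (c 3 4094 v r)) (k (c 8 4100 r r) (k (c 12 4099 r (u 8 0 (k (u 16 0 (k v (k v r))) r))) (k (c 8 4099 r r) (k (c 12 4099 r r) (k (c 8 4099 r (u 12 0 (k (u 20 0 (k v (k v r))) r))) (k (c 12 4100 r r) (k (c 12 4100 r r) (k (c 12 4099 r r) (k (c 12 4099 r r) (k (c 12 4100 r r) (k (c 12 4099 r r) r))))))))))))))))))))))) r))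
 .z .z)) (.s 0xfa577c010e5ffc00 4088 (n false (n true (n false (z 52) (n false e e)) e) (n true (z 62) e)) (u 5 4 (k r (k r (k r (k (t 13 1 r) r)))))
 (.s 0xfa577c010e5fd400 4090 (n false (n true (n false (z 52) (n false e e)) e) (n true (z 14) e)) (u 8 71 (k (u 5 0 (k v (k v r))) (k (u 5 0 (k v (k v r))) (k (u 5 0 (k v (k v r))) r))))
 .z .z) .z)) (.s 0xfa5dde010a7f7e00 4091 (n false (n false (z 119) e) (n true (n false (z 106) (n false e e)) e)) (u 9 16 (k (u 4 10 (k v (k (c 8 4097 r r) (k (c 12 4097 r r) (k (c 12 4097 r r) r))))) (k (t 4 2 v) (k (c 25 4100 r (t 4 2 r)) (k (c 25 4100 r (t 4 2 r)) r)))))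
 (.s 0xfa5ddc0053eef008 4087 (n false (n false (z 107) (n false e e)) (n true (n false (z 42) e) e)) (u 9 26 (k r (k (u 4 5 (k v (k (c 12 4099 r (u 8 1 (k v (k (c 24 4099 r (u 16 1 (k v (k v r)))) (k (u 16 0 (k v (k v r))) (k (c 16 4099 r (u 24 1 (k v (k v r)))) (k (c 16 4099 r (u 24 1 (k v (k v r)))) (k (c 16 4099 r (u 24 1 (k v (k v r)))) r)))))))) (k (c 12 4100 r (u 8 0 (k (u 16 0 (k v (k v r))) r))) r)))) r)))
 (.s 0xfa57fe012bbe0050 4087 (n false (n true (n false (z 52) (z 124)) e) (n false (n false e e) e)) (u 12 4 (k r (k (c 4 4083 r v) (k (c 28 4097 r (u 20 1 (k r (k r r)))) (k (c 28 4096 r (u 20 1 (k r (k r r)))) (k (c 20 4098 r (u 28 0 (k r (k r r)))) (k (c 28 4096 r (u 20 1 (k r (k r r)))) (k (c 28 4097 r (u 20 1 (k r (k r r)))) (k (c 28 4097 r (u 20 1 (k r (k r r)))) (k (c 28 4096 r (u 20 1 (k r (k r r)))) (k (c 20 4097 r (u 28 1 (k r (k r r)))) r)))))))))))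
 .z .z) (.s 0xfa5ddc010e5fdc00 4088 (n false (n true (z 46) e) (n true (n false (z 42) (n false e e)) e)) (u 9 11 (k r (k r (k (c 5 4086 (t 6 1 (u 4 0 (k r r))) (t 4 1 v)) r))))
 .z .z)) (.s 0xfa5fdc012fea0050 4089 (n false (n true (n false (z 46) (z 14)) e) (n false (n false e e) e)) (c 8 4099 r (u 12 0 (k v (k v r))))
 (.s 0xfa5fdc012bbe0050 4087 (n false (n true (n false (z 52) (z 46)) e) (n false (n false e e) e)) (u 12 2 (k r (k (c 28 4099 r (u 20 0 (k r (k r r)))) (k (u 20 1 (k r (k r r))) (k (u 20 1 (k r (k r r))) (k (c 28 4097 r (u 20 1 (k r (k r r)))) (k (c 20 4095 r (u 28 1 (k r (k r r)))) r)))))))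
 .z .z) .z))))

set_option maxRecDepth 100000 in
def N129 : NT :=
(.s 0xfaa2288852aab008 4086 (n false (n false (z 64) (n false e e)) (n true (n false (n false (n false (n false e e) (n false e e)) (n false (n false e e) (n false e e))) (n false e e)) e)) (u 4 0 (k (c 12 4099 r (u 8 0 (k v (k v (k (c 4 4084 (u 4 1 (k v (k v r))) v) r))))) r))
 (.s 0xfa77dc010e7f7600 4091 (n false (n true (z 87) e) (n true (n false (z 45) (n false e e)) e)) (u 4 1 (k (u 9 0 (k v (k v r))) (k (u 9 0 (k v (k v r))) r)))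
 (.s 0xfa77dc010a75f600 4093 (n false (n false (z 89) e) (n true (n false (z 45) (n false e e)) e)) (u 9 0 (k r (k (u 4 73 (k v (k v (k v (k v r))))) r)))
 (.s 0xfa775c012bbe0050 4087 (n false (n true (n false (z 52) (z 37)) e) (n false (n false e e) e)) (u 12 0 (k r (k (c 2 4088 r v) (k (c 2 4088 r v) (k r (k r (k (c 12 4095 r r) r)))))))
 (.s 0xfa7754012fee0050 4093 (n false (n true (n false (z 46) (z 5)) e) (n false (n false e e) e)) (t 12 1 (u 8 2 (k v (k (c 24 4099 r (u 16 0 (k v (k v r)))) (k r (k (c 2 4088 (c 10 4101 v r) v) (k (c 24 4097 r r) (k (c 16 4095 r r) r))))))))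
 .z .z) (.s 0xfa77dc010a57de00 4093 (n false (n false (z 108) e) (n true (n false (z 45) (n false e e)) e)) (u 4 0 (k (t 12 2 (t 9 1 (u 8 0 (k (c 24 4099 r (u 16 0 (k v (k r (k (c 48 4099 r (u 32 0 (k (u 64 0 (k v (k v r))) r))) (k r (k (c 2 4069 r v) (k (u 32 0 (k (u 64 0 (k v (k v r))) r)) (k r (k r r)))))))))) r)))) r))
 .z .z)) (.s 0xfa77dc010e7d5c00 4091 (n false (n true (n false (z 45) (n false e e)) e) (n true (z 35) e)) (u 8 0 (k r (k (u 5 12 (k v (k v (k v (k v (k (t 13 1 (u 9 0 (k (t 17 3 (t 25 1 v)) r))) r)))))) r)))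
 (.s 0xfa77dc010e5fd400 4089 (n false (n true (n false (z 45) (n false e e)) e) (n true (z 14) e)) (u 8 0 (k (u 5 0 (k v (k v r))) (k (u 5 0 (k v (k v r))) r)))
 .z .z) .z)) (.s 0xfa7f76013aeb0050 4091 (n false (n true (n false (z 73) (z 87)) e) (n false (n false e e) e)) (u 8 0 (k (t 12 1 (c 2 4080 r v)) r))
 (.s 0xfa7ddc010aa22888 4092 (n false (n true (n false (z 43) (n false e e)) e) (n false (n false (n false (n false e e) (n false e e)) (n false (n false e e) (n false e e))) (n false e e))) (u 8 11 (k v (k (u 16 44 (k v (k v (k v (k (u 32 0 (k (t 64 3 (t 96 1 v)) r)) (k (u 32 10 (k v (k v (k v (k (t 96 1 (u 64 0 (k (t 128 3 (t 192 1 v)) r))) r))))) r)))))) (k (c 24 4099 r (u 16 0 (k (u 32 0 (k v (k v r))) r))) (k (u 16 18 (k v (k v (k (c 48 4099 r (u 32 0 (k v (k v r)))) (k (u 32 1 (k v (k v r))) (k (u 32 1 (k v (k v r))) (k (c 48 4097 r (u 32 1 (k v (k v r)))) r))))))) (k r (k r r)))))))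
 (.s 0xfa7d7c013aff0050 4089 (n false (n true (n false (z 121) (z 51)) e) (n false (n false e e) e)) (t 12 3 (u 8 1 (k v (k (c 24 4099 r (u 16 1 (k v (k v r)))) (k (c 16 4097 r (u 24 1 (k v (k v r)))) (k (c 16 4095 r (u 24 0 (k v (k v r)))) (k (c 16 4095 r (u 24 0 (k v (k v r)))) r)))))))
 .z .z) (.s 0xfa7df6012bbe0050 4087 (n false (n true (n false (z 91) (z 52)) e) (n false (n false e e) e)) (u 8 12 (k r (k (c 12 4097 r v) (k (c 8 4093 v r) (k (u 16 1 (k r (k r r))) (k (c 16 4097 r (u 24 0 (k r (k r r)))) (k (c 16 4095 r (u 24 0 (k r (k r r)))) r)))))))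
 .z .z)) (.s 0xfa7f7e0074bfa800 4095 (n false (n true (n false (z 119) e) e) (n true (n false (z 14) e) e)) (u 8 64 (k (u 9 0 (k v (k v r))) (k (c 3 4095 (c 4 4097 r v) v) (k (t 24 1 (u 9 0 (k (u 16 269 (k v (k v (k v r)))) (k (u 16 269 (k v (k v (k v r)))) r)))) (k (c 24 4097 r (u 9 7 (k r (k r r)))) (k (c 24 4097 r (u 9 7 (k r (k r r)))) r))))))
 (.s 0xfa7f76013aff0050 4089 (n false (n true (n false (z 87) (z 121)) e) (n false (n false e e) e)) (u 12 1 (k (u 8 0 (k v (k v r))) (k (c 28 4099 r r) (k (c 20 4097 r r) (k (c 20 4095 r (t 8 1 (c 2 4080 r v))) (k (c 20 4095 r (t 8 1 (c 2 4080 r v))) r))))))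
 .z .z) .z))) (.s 0xfaa2288853eee008 4090 (n false (n false (z 43) (n false e e)) (n true (n false (n false (n false (n false e e) (n false e e)) (n false (n false e e) (n false e e))) (n false e e)) e)) (u 4 8 (k v (k r (k r (k (u 8 0 (k (u 16 0 (k v (k v r))) r)) (k r (k r (k (c 12 4099 r (u 8 0 (k (u 16 0 (k v (k v r))) r))) (k (u 8 2 (k v (k (c 24 4099 r (u 16 0 (k v (k v r)))) (k (u 16 18 (k v (k v (k v r)))) (k (u 16 1 (k v (k v r))) (k (c 24 4097 r (u 16 18 (k v (k v (k v r))))) (k (c 16 4095 r (u 24 18 (k v (k v (k v r))))) r))))))) r)))))))))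
 (.s 0xfaa2288852efb008 4088 (n false (n false (z 90) (n false e e)) (n true (n false (n false (n false (n false e e) (n false e e)) (n false (n false e e) (n false e e))) (n false e e)) e)) (u 4 3 (k v (k r (k r (k r (k (c 12 4097 r r) (k (c 8 4097 r (u 12 0 (k (u 20 0 (k v (k v r))) r))) (k (c 12 4097 r r) (k (c 12 4095 r r) (k (c 8 4095 r r) r))))))))))
 (.s 0xfaa2288852baf008 4087 (n false (n false (z 100) (n false e e)) (n true (n false (n false (n false (n false e e) (n false e e)) (n false (n false e e) (n false e e))) (n false e e)) e)) (u 4 0 (k (c 12 4096 r r) (k (c 12 4096 r r) (k (c 12 4096 r r) (k (c 12 4097 r (c 5 4099 v r)) (k (c 12 4096 r r) (k (c 12 4096 r r) r)))))))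
 (.s 0xfaa2288852aff008 4088 (n false (n false (z 120) (n false e e)) (n true (n false (n false (n false (n false e e) (n false e e)) (n false (n false e e) (n false e e))) (n false e e)) e)) (u 4 5 (k v (k (c 12 4099 r r) (k (c 12 4100 r r) (k (c 12 4099 r r) (k (c 12 4100 r r) (k (c 8 4095 r r) (k (c 12 4097 r r) (k (c 12 4096 r (c 5 4099 v r)) (k (c 12 4096 r (u 8 0 (k (u 16 0 (k v (k v r))) r))) (k (c 12 4100 r (u 8 0 (k (u 16 0 (k v (k v r))) r))) (k (c 12 4101 r r) (k (c 8 4099 r r) (k (c 12 4100 r r) (k (c 12 4097 r r) (k (c 12 4099 r r) (k (c 8 4099 r r) (k (c 12 4097 r r) r))))))))))))))))))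
 .z .z) (.s 0xfaa2288852efa008 4087 (n false (n false (z 26) (n false e e)) (n true (n false (n false (n false (n false e e) (n false e e)) (n false (n false e e) (n false e e))) (n false e e)) e)) (u 4 2 (k v (k (c 5 4099 v (u 8 1 (k v (k v r)))) r)))
 .z .z)) (.s 0xfaa2288853eaf008 4087 (n false (n false (z 99) (n false e e)) (n true (n false (n false (n false (n false e e) (n false e e)) (n false (n false e e) (n false e e))) (n false e e)) e)) (u 4 0 (k (c 12 4096 r r) (k (c 12 4096 r r) (k (c 12 4096 r r) (k (c 12 4096 r r) (k (c 12 4096 r r) r))))))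
 (.s 0xfaa2288853eab008 4090 (n false (n false (z 67) (n false e e)) (n true (n false (n false (n false (n false e e) (n false e e)) (n false (n false e e) (n false e e))) (n false e e)) e)) (u 4 36 (k v (k v (k v (k (c 12 4099 r r) (k (c 12 4097 r r) (k (c 12 4099 r r) (k r (k (c 12 4097 r r) (k (c 12 4099 r r) (k (c 12 4099 r (u 8 0 (k (u 16 0 (k v (k v r))) r))) (k (c 8 4099 r r) (k (c 12 4099 r r) (k (c 8 4099 r (u 12 0 (k (u 20 0 (k v (k v r))) r))) (k (c 12 4100 r (c 5 4099 v r)) (k (c 12 4099 r r) (k (c 12 4099 r r) (k (c 12 4099 r r) r))))))))))))))))))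
 .z .z) .z)) (.s 0xfb95fd40012aff00 4095 (n false (n true (n false (n true (z 156) e) e) e) (z 120)) (u 16 8 (k r (k (c 2 4061 v (t 3 2 v)) (k (c 48 4099 r (u 32 1 (k r (k r r)))) (k (c 32 4098 r (u 48 1 (k r (k r r)))) (k (c 32 4097 r r) (k (c 32 4099 r (u 48 1 (k r (k r r)))) r)))))))
 (.s 0xfaa2288874faac00 4096 (n false (n true (n false (z 67) e) e) (n true (n false (n false (n false (n false e e) (n false e e)) (n false (n false e e) (n false e e))) (n false e e)) e)) (u 8 92 (k v (k v (k v (k v (k (c 24 4099 r (u 16 1 (k v (k v r)))) (k (c 24 4097 r (u 16 1 (k v (k v r)))) (k (c 24 4099 r r) (k r (k (c 24 4099 r (u 16 0 (k (u 32 0 (k v (k v r))) r))) (k (c 16 4099 r (u 24 1 (k v (k v r)))) (k (c 24 4099 r r) (k (c 16 4099 r (u 24 0 (k (u 40 0 (k v (k v r))) r))) (k (c 24 4099 r r) (k (c 24 4099 r r) (k (c 24 4099 r r) r))))))))))))))))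
 (.s 0xfaa2288853fbf008 4091 (n false (n false (z 119) (n false e e)) (n true (n false (n false (n false (n false e e) (n false e e)) (n false (n false e e) (n false e e))) (n false e e)) e)) (u 4 17 (k v (k (c 8 4097 r r) (k (c 8 4097 r r) (k (c 12 4096 r (u 8 0 (k (u 16 0 (k v (k v r))) r))) (k (c 12 4097 r r) (k (c 12 4097 r r) (k (c 12 4097 r r) (k (c 12 4097 r r) (k (c 12 4097 r r) r))))))))))
 .z .z) (.s 0xfb955540042a2288 4084 (n false (n true (n false (n true (z 128) e) (n false e e)) e) (n false (n false (n false e e) (n false e e)) (n false (n false e e) (n false e e)))) (u 16 19 (k v (k v (k v (k (c 48 4097 r r) (k (c 32 4095 r (u 48 9 (k v (k v (k (u 80 26 (k v (k v r))) r))))) (k (c 48 4095 r (u 32 65 (k v (k v (k v (k (c 64 4099 r (u 96 357 (k v (k v (k v (k v r)))))) r)))))) (k (c 48 4095 r (u 32 1 (k v (k v r)))) (k (c 32 4097 r (u 48 0 (k v (k v r)))) (k (c 32 4095 r (u 48 1 (k v (k v r)))) (k (c 32 4097 r r) r)))))))))))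
 .z .z)) (.s 0xfb95fd40042a2288 4087 (n false (n true (n false (n true (z 156) e) (n false e e)) e) (n false (n false (n false e e) (n false e e)) (n false (n false e e) (n false e e)))) (u 16 8 (k v (k v (k (c 48 4099 r (u 32 1 (k v (k v r)))) (k (c 32 4098 r (u 48 1 (k v (k v r)))) (k (c 32 4097 r (u 48 1 (k v (k v r)))) (k (c 32 4099 r (u 48 1 (k v (k v r)))) r)))))))
 (.s 0xfb95fd40013eab00 4093 (n false (n true (n false (n true (z 156) e) e) e) (z 67)) (u 16 8 (k r (k (c 2 4061 v (t 3 2 v)) (k (c 48 4099 r (u 32 1 (k r (k r r)))) (k (c 32 4098 r (u 48 1 (k r (k r r)))) (k (c 32 4097 r (u 48 1 (k r (k r r)))) (k (c 32 4099 r (u 48 1 (k r (k r r)))) r)))))))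
 .z .z) .z))))

set_option maxRecDepth 100000 in
def N130 : NT :=
(.s 0xfbeb840e0e75fe00 4077 (n false (n true (n false (n true (n true (n false (n false (n true (n false e e) e) (n false e e)) e) e) e) (n true (n false e e) e)) e) (n true (z 121) e)) (u 5 2 (k v (k v (k (c 13 4099 r (u 9 1 (k v (k v r)))) (k (c 9 4095 r (u 13 0 (k v (k v r)))) (k (c 9 4095 r (u 13 0 (k v (k v r)))) r))))))
 (.s 0xfbe5fdc007055110 4079 (n false (n true (n false (n true (n true (z 46) e) e) (n true (n false e e) e)) e) (n false (n false (n false (n false e e) (n false e e)) (n false e e)) e)) (u 32 1 (k v (k (u 64 1 (k v (k v r))) (k (c 96 4099 r (u 64 0 (k v (k v r)))) (k (u 64 1 (k v (k v r))) (k (c 96 4097 r (u 64 1 (k v (k v r)))) (k (c 64 4095 r (u 96 1 (k v (k v r)))) r)))))))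
 (.s 0xfbb842e10e7d5600 4078 (n false (n true (n false (n true (n false (n true (n false e e) e) (n false e e)) e) (n false (n true (n false e e) e) (n false e e))) e) (n true (z 67) e)) (u 5 99 (k v (k v (k v (k v (k v (k (t 13 1 (u 9 1 (k v (k v r)))) (k (c 9 4101 r (u 13 0 (k v (k v r)))) (k r (k (c 3 4088 r v) (k (c 9 4099 r (u 13 0 (k v (k v r)))) (k (t 13 1 (u 9 2 (k v (k (c 25 4097 r (u 17 0 (k v (k v r)))) r)))) (k (c 3 4091 (t 6 2 (u 4 0 (k r r))) v) (k (c 13 4101 r (u 9 1 (k v (k v r)))) (k (t 13 1 (u 9 9 (k v (k v (k v (k (c 25 4099 r (u 17 1 (k v (k v r)))) r)))))) (k (c 13 4102 r (u 9 1 (k v (k v r)))) (k (c 9 4101 r (u 13 1 (k v (k v r)))) (k r (k (c 9 4101 r (u 13 1 (k v (k v r)))) r)))))))))))))))))))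
 (.s 0xfba555c0013eab00 4093 (n false (n true (n false (n true (n false (z 32) e) e) e) e) (z 67)) (u 32 0 (k (t 64 3 (t 96 1 (u 3 103 (k v (k v (k v (k v (k v (k (t 7 1 (u 5 1 (k v (k v r)))) (k (t 7 1 (u 5 0 (k (u 9 0 (k v (k v r))) r))) (k (c 7 4101 r (u 5 1 (k v (k v r)))) (k (t 7 1 (u 5 9 (k v (k v (k v (k (c 13 4099 r (u 9 1 (k v (k v r)))) r)))))) (k (c 7 4102 r (u 5 1 (k v (k v r)))) (k (c 5 4101 r (u 7 1 (k v (k v r)))) (k r (k (c 5 4101 r (u 7 1 (k v (k v r)))) r)))))))))))))))) r))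
 (.s 0xfb9fd58021544510 4088 (n false (n true (n false (n true (z 71) e) (n false e e)) e) (n false (n false (n false (n false e e) (n false e e)) (n false (n false e e) (n false e e))) e)) (u 16 15 (k v (k v (k (u 32 23 (k v (k v r))) (k (c 32 4099 r (u 48 1 (k v (k v r)))) (k (c 32 4099 r (u 48 1 (k v (k v r)))) (k (c 32 4099 r (u 48 1 (k v (k v r)))) r)))))))
 .z .z) (.s 0xfba88a210e577c00 4076 (n false (n true (z 52) e) (n true (n false (n true (n false (n false (n false e e) (n false e e)) (n false (n false e e) (n false e e))) e) (n false e e)) e)) (u 4 19 (k v (k v (k v (k v (k v (k v (k (t 12 1 (u 8 0 (k v (k v r)))) r))))))))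
 .z .z)) (.s 0xfbe5ddc0012aff00 4094 (n false (n true (n false (n true (n true (z 42) e) e) e) e) (z 120)) (c 16 4099 (u 2 0 (k v (k v r))) r)
 (.s 0xfbe577c0042a2288 4083 (n false (n true (n false (n true (n true (z 52) e) e) (n false e e)) e) (n false (n false (n false e e) (n false e e)) (n false (n false e e) (n false e e)))) (u 32 358 (k v (k v (k v (k v (k v (k v r)))))))
 .z .z) .z)) (.s 0xfbe7d5c0013eab00 4095 (n false (n true (n false (n true (n true (z 35) e) e) e) e) (z 67)) (u 32 0 (k r (k (c 16 4094 v r) (k (t 96 1 (u 64 0 (k (t 128 3 (t 192 1 (u 3 0 (k v (k v r))))) r))) r))))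
 (.s 0xfbe75fe007055110 4079 (n false (n true (n false (n true (n true (z 121) e) e) (n true (n false e e) e)) e) (n false (n false (n false (n false e e) (n false e e)) (n false e e)) e)) (u 32 1 (k v (k (c 96 4099 r (u 64 1 (k v (k v r)))) (k (c 64 4097 r (u 96 1 (k v (k v r)))) (k (c 64 4095 r (u 96 0 (k v (k v r)))) (k (c 64 4095 r (u 96 0 (k v (k v r)))) r))))))
 (.s 0xfbe75fe001d51110 4081 (n false (n true (n false (n true (n true (z 121) e) e) e) e) (n true (n false (n false (n false (n false e e) (n false e e)) (n false e e)) (n false e e)) e)) (u 32 2 (k v (k v (k (c 96 4099 r (u 64 1 (k v (k v r)))) (k (c 64 4095 r (u 96 0 (k v (k v r)))) (k (c 64 4095 r (u 96 0 (k v (k v r)))) r))))))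
 .z .z) (.s 0xfbe775c007055110 4079 (n false (n true (n false (n true (n true (z 37) e) e) (n true (n false e e) e)) e) (n false (n false (n false (n false e e) (n false e e)) (n false e e)) e)) (u 32 0 (k v (k (c 2 4086 (u 32 0 (k (t 64 3 (t 96 1 v)) r)) v) (k (c 5 4091 v r) (k (c 2 4086 r v) (k (c 2 4086 r v) (k (c 2 4086 r v) r)))))))
 .z .z)) (.s 0xfbeb840e0e5fdc00 4077 (n false (n true (n false (n true (n true (n false (n false (n true (n false e e) e) (n false e e)) e) e) e) (n true (n false e e) e)) e) (n true (z 46) e)) (u 5 2 (k v (k (c 13 4099 r (u 9 0 (k v (k v r)))) (k (u 9 1 (k v (k v r))) (k (u 9 0 (k v (k v r))) (k (c 13 4097 r (u 9 1 (k v (k v r)))) (k (c 9 4095 r (u 13 1 (k v (k v r)))) r)))))))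
 (.s 0xfbe9557000e0ee10 4078 (n false (n true (n false (n true (n true (n false (z 32) e) e) e) (n true (n false e e) e)) e) (n true (n false (n true (n false e e) e) (n false e e)) e)) (c 16 4094 (c 4 4096 r v) v)
 .z .z) .z))) (.s 0xfe577c005fdc2070 4075 (n false (n true (n true (z 52) e) e) (n false (n true (n true (n true (n false (n true (n false e e) e) (n false e e)) e) e) e) (n true (n false e e) e))) (u 8 317 (k v (k v (k v (k v (k v (k v r)))))))
 (.s 0xfbfb840e0e775c00 4077 (n false (n true (n false (n true (n true (n true (n false (n true (n false e e) e) (n false e e)) e) e) e) (n true (n false e e) e)) e) (n true (z 37) e)) (u 5 9 (k v (k (c 3 4088 r v) (k (u 9 0 (k (t 17 3 (t 25 1 v)) r)) (k (u 9 0 (k (t 17 3 (t 25 1 v)) r)) (k (u 9 10 (k v (k v (k v (k (t 25 1 (u 17 0 (k (t 33 3 (t 49 1 v)) r))) r))))) (k (u 9 0 (k v (k v (k (t 25 1 (u 17 0 (k (t 33 3 (t 49 1 v)) r))) r)))) r)))))))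
 (.s 0xfbfb840e0e5fdc00 4077 (n false (n true (z 46) e) (n true (n false (n true (n true (n true (n false (n true (n false e e) e) (n false e e)) e) e) e) (n true (n false e e) e)) e)) (u 4 2 (k v (k (c 12 4099 r (u 8 0 (k v (k v r)))) (k (u 8 1 (k v (k v r))) (k (u 8 0 (k v (k v r))) (k (c 12 4097 r (u 8 1 (k v (k v r)))) (k (c 8 4095 r (u 12 1 (k v (k v r)))) r)))))))
 (.s 0xfbeb840e0e775c00 4077 (n false (n true (n false (n true (n true (n false (n false (n true (n false e e) e) (n false e e)) e) e) e) (n true (n false e e) e)) e) (n true (z 37) e)) (u 5 0 (k v (k (u 9 0 (k (t 17 3 (t 25 1 v)) r)) (k (u 9 0 (k (t 17 3 (t 25 1 v)) r)) (k (u 9 10 (k v (k v (k v (k (t 25 1 (u 17 0 (k (t 33 3 (t 49 1 v)) r))) r))))) (k (u 9 0 (k v (k v (k (t 25 1 (u 17 0 (k (t 33 3 (t 49 1 v)) r))) r)))) (k (c 3 4088 r v) r)))))))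
 .z .z) (.s 0xfbfb840e0e75fe00 4077 (n false (n true (z 121) e) (n true (n false (n true (n true (n true (n false (n true (n false e e) e) (n false e e)) e) e) e) (n true (n false e e) e)) e)) (u 4 2 (k v (k v (k (c 12 4099 r (u 8 1 (k v (k v r)))) (k (c 8 4095 r (u 12 0 (k v (k v r)))) (k (c 8 4095 r (u 12 0 (k v (k v r)))) r))))))
 .z .z)) (.s 0xfe577c005d445108 4076 (n false (n true (n true (z 52) e) e) (n false (n true (n false (n false (n false e e) (n false e e)) (n false (n false e e) (n false e e))) e) (n false e e))) (u 8 58 (k v (k v (k v (k v (k v (k v (k (t 24 1 (u 16 0 (k v (k v r)))) r))))))))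
 (.s 0xfe555c0053eab008 4085 (n false (n false (z 67) (n false e e)) (n true (n true (z 32) e) e)) (u 9 0 (k (t 17 3 (t 25 1 (u 4 89 (k v (k v (k v (k (c 12 4099 r r) (k (c 12 4097 r r) (k (c 12 4099 r (c 3 4094 v r)) (k (c 3 4094 v r) (k (c 12 4097 r (c 3 4094 v r)) (k (c 12 4099 r (c 3 4094 v r)) (k (c 12 4099 r r) (k (c 8 4099 r r) (k (c 12 4099 r r) (k (c 8 4099 r r) (k (c 12 4100 r (c 3 4094 v r)) (k (c 12 4099 r r) (k (c 12 4099 r r) (k (c 12 4099 r r) r)))))))))))))))))))) r))
 .z .z) .z)) (.s 0xfe5ddc0074bfa800 4090 (n false (n true (n true (z 42) e) e) (n true (n false (z 14) e) e)) (u 9 0 (k (u 8 1 (k v (k v r))) (k (u 8 1 (k v (k v r))) r)))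
 (.s 0xfe577c007caef800 4088 (n false (n true (n true (z 52) e) e) (n true (n true (z 52) e) e)) (u 8 263 (k r (k r (k r (k (u 9 283 (k v (k v (k v (k v (k v (k v (k v (k (t 25 1 (u 17 0 (k v (k v r)))) r))))))))) (k (t 24 1 (u 9 156 (k (u 16 0 (k v (k v r))) (k (u 16 0 (k v (k v r))) (k (u 16 0 (k v (k v r))) (k (t 16 1 v) (k (t 25 1 (u 16 0 (k (u 17 0 (k v (k v r))) (k (u 17 0 (k v (k v r))) r)))) r))))))) r))))))
 (.s 0xfe577c0072bfa800 4092 (n false (n true (z 156) e) (n true (n true (z 52) e) e)) (u 4 1 (k r (k (c 12 4099 r (u 8 1 (k r (k r r)))) (k (c 8 4098 r (u 12 1 (k r (k r r)))) (k (c 8 4097 r (u 12 1 (k r (k r r)))) (k (c 8 4099 r (u 12 1 (k r (k r r)))) (k (c 8 4095 r (u 12 0 (k r (k r r)))) r)))))))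
 .z .z) (.s 0xfe57f5000a577c00 4093 (n false (n true (n true (z 156) e) e) (n false (z 52) e)) (u 8 1 (k r (k (c 24 4099 r (u 16 1 (k r (k r r)))) (k (c 16 4098 r (u 24 1 (k r (k r r)))) (k (c 16 4097 r (u 24 1 (k r (k r r)))) (k (c 16 4099 r (u 24 1 (k r (k r r)))) (k (c 16 4095 r (u 24 0 (k r (k r r)))) r)))))))
 .z .z)) (.s 0xfe5fd4007cbbb800 4090 (n false (n true (n true (z 42) e) e) (n true (n true (z 14) e) e)) (u 8 1 (k (u 9 0 (k v (k v r))) (k (u 9 0 (k v (k v r))) r)))
 (.s 0xfe5fd40074bfa800 4087 (n false (n true (n true (z 14) e) e) (n true (n false (z 14) e) e)) (u 8 0 (k (u 9 0 (k v (k v r))) (k (u 9 0 (k v (k v r))) r)))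
 .z .z) .z))))

set_option maxRecDepth 100000 in
def N131 : NT :=
(.s 0xfe9d7f805c20ee10 4074 (n false (n true (n true (n false (z 121) (n false (n true (n false e e) e) (n false e e))) e) e) (n true (n false (n true (n false e e) e) (n false e e)) e)) (u 16 1 (k v (k (c 48 4099 r (u 32 1 (k v (k v r)))) (k (c 32 4097 r (u 48 1 (k v (k v r)))) (k (c 32 4095 r (u 48 0 (k v (k v r)))) (k (c 32 4095 r (u 48 0 (k v (k v r)))) r))))))
 (.s 0xfe7f760074feec00 4092 (n false (n true (n false (z 87) e) e) (n true (n true (z 87) e) e)) (u 8 1 (k (u 9 1 (k v (k v r))) (k (u 9 1 (k v (k v r))) r)))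
 (.s 0xfe7f560075445110 4098 (n false (n true (n true (z 71) e) e) (n true (n false (n false (n false (n false e e) (n false e e)) (n false (n false e e) (n false e e))) (n false e e)) e)) (u 8 1 (k v (k (c 24 4099 r (u 16 1 (k v (k v r)))) (k (u 16 0 (k v (k v r))) (k (c 16 4099 r (u 24 1 (k v (k v r)))) (k (c 16 4099 r (u 24 1 (k v (k v r)))) (k (c 16 4099 r (u 24 1 (k v (k v r)))) r)))))))
 (.s 0xfe7d5c007cbbb800 4092 (n false (n true (n true (z 42) e) e) (n true (n true (z 35) e) e)) (u 9 11 (k (u 8 1 (k v (k v r))) (k (u 8 1 (k v (k v r))) (k (t 25 1 (u 17 0 (k (t 33 3 (t 49 1 (u 8 18 (k v (k v (k v r)))))) r))) r))))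
 (.s 0xfe7d5c0053eab008 4085 (n false (n false (z 67) (n false e e)) (n true (n true (z 35) e) e)) (u 9 2 (k r (k r (k r (k (t 25 1 (u 17 0 (k (t 33 3 (t 49 1 (u 4 89 (k v (k v (k v (k (c 12 4099 r r) (k (c 12 4097 r r) (k (c 12 4099 r (c 3 4094 v r)) (k (c 3 4094 v r) (k (c 12 4097 r (c 3 4094 v r)) (k (c 12 4099 r (c 3 4094 v r)) (k (c 12 4099 r r) (k (c 8 4099 r r) (k (c 12 4099 r r) (k (c 8 4099 r r) (k (c 12 4100 r (c 3 4094 v r)) (k (c 12 4099 r r) (k (c 12 4099 r r) (k (c 12 4099 r r) r)))))))))))))))))))) r))) r)))))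
 .z .z) (.s 0xfe7d7c007cbbb800 4090 (n false (n true (n true (z 51) e) e) (n true (n true (z 42) e) e)) (u 8 0 (k (t 24 1 (u 16 0 (k (t 32 3 (t 48 3 (u 9 1 (k v (k v r))))) r))) r))
 .z .z)) (.s 0xfe7f760074bfa800 4090 (n false (n true (n true (z 87) e) e) (n true (n false (z 14) e) e)) (u 9 0 (k (u 8 1 (k v (k v r))) (k (u 8 1 (k v (k v r))) r)))
 (.s 0xfe7f760053eff008 4085 (n false (n true (n true (z 87) e) e) (n false (z 123) (n false e e))) (u 8 1 (k r (k (u 5 57 (k v (k v (k (c 13 4099 r (u 9 69 (k v (k v (k v (k v r)))))) (k (u 9 21 (k v (k (c 25 4101 r r) (k (c 17 4101 r r) (k (c 17 4101 r r) r))))) (k (c 4 4093 v r) r)))))) r)))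
 .z .z) .z)) (.s 0xfe95df0074075110 4081 (n false (n true (n true (n false (z 52) (n true (n false (n false e e) e) e)) e) e) (n true (n false (n false (n false e e) (n false e e)) (n false e e)) e)) (u 16 350 (k v (k v (k v (k v (k (t 48 1 (u 32 7 (k v (k v r)))) r))))))
 (.s 0xfe7f7e0074bfa800 4096 (n false (n true (n false (z 14) e) e) (n true (n true (z 119) e) e)) (u 8 3 (k r (k r (k (u 9 10 (k v (k (t 25 1 (u 17 71 (k v (k v (k v r))))) (k (c 25 4097 r (u 17 60 (k v (k v (k v (k v (k v r))))))) (k (c 25 4097 r (u 17 24 (k v (k v (k (c 49 4099 r (u 33 1 (k v (k v r)))) (k (c 33 4099 r (u 49 1 (k v (k v r)))) r)))))) r))))) r))))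
 (.s 0xfe7f76007cbff800 4090 (n false (n true (n true (z 62) e) e) (n true (n true (z 87) e) e)) (u 8 4 (k (u 9 1 (k v (k v r))) (k (u 9 1 (k v (k v r))) (k (u 9 1 (k v (k v r))) (k (t 24 1 (u 9 1 (k r (k r r)))) r)))))
 .z .z) (.s 0xfe95df0041d44510 4087 (n false (n true (n true (n false (z 52) (n false e e)) e) e) (n true (n false (n false (n false e e) (n false e e)) (n false (n false e e) (n false e e))) e)) (u 16 6 (k v (k v (k (t 48 1 (u 32 2 (k v (k v r)))) r))))
 .z .z)) (.s 0xfe977d0041d44510 4086 (n false (n true (n true (n false (z 26) (n false e e)) e) e) (n true (n false (n false (n false e e) (n false e e)) (n false (n false e e) (n false e e))) e)) (u 16 2 (k v (k (c 2 4081 (u 16 1 (k v (k v r))) v) r)))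
 (.s 0xfe9777000e5fd400 4092 (n false (n true (n true (n false (z 42) e) e) e) (n true (z 14) e)) (u 5 0 (k (u 16 1 (k v (k v r))) (k (u 16 1 (k v (k v r))) r)))
 .z .z) .z))) (.s 0xfea88a220e775c00 4097 (n false (n true (z 37) e) (n true (n true (n false (n false (n false (n false e e) (n false e e)) (n false (n false e e) (n false e e))) (n false e e)) e) e)) (u 4 0 (k v (k (u 8 0 (k (t 16 3 (t 24 1 v)) r)) (k (u 8 0 (k (t 16 3 (t 24 1 v)) r)) (k (u 8 0 (k v (k v (k (t 24 1 (u 16 0 (k (t 32 3 (t 48 1 v)) r))) r)))) (k (u 8 0 (k v (k v (k (t 24 1 (u 16 0 (k (t 32 3 (t 48 1 v)) r))) r)))) (k (c 4 4095 r v) r)))))))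
 (.s 0xfea88a220e57fe00 4095 (n false (n true (z 124) e) (n true (n true (n false (n false (n false (n false e e) (n false e e)) (n false (n false e e) (n false e e))) (n false e e)) e) e)) (u 4 1 (k v (k (c 12 4097 r (u 8 1 (k v (k v r)))) (k (c 12 4096 r (u 8 1 (k v (k v r)))) (k (c 8 4098 r (u 12 0 (k v (k v r)))) (k (c 12 4096 r (u 8 1 (k v (k v r)))) (k (c 12 4097 r (u 8 1 (k v (k v r)))) (k (c 12 4097 r (u 8 1 (k v (k v r)))) (k (c 12 4096 r (u 8 1 (k v (k v r)))) (k (c 12 4099 r (u 8 1 (k v (k v r)))) (k (c 8 4097 r (u 12 1 (k v (k v r)))) r)))))))))))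
 (.s 0xfea88a22095dd400 4095 (n false (z 148) (n true (n true (n false (n false (n false (n false e e) (n false e e)) (n false (n false e e) (n false e e))) (n false e e)) e) e)) (u 2 3 (k v (k v (k (t 6 3 (u 4 1 (k v (k (c 12 4099 r (u 8 1 (k v (k v r)))) (k (c 8 4097 r (c 3 4097 v r)) (k (c 8 4095 r (c 10 4099 v r)) (k (c 8 4095 r (c 10 4099 v r)) r))))))) r))))
 (.s 0xfea88a2209557400 4095 (n false (z 160) (n true (n true (n false (n false (n false (n false e e) (n false e e)) (n false (n false e e) (n false e e))) (n false e e)) e) e)) (u 2 5 (k v (k (t 6 3 (u 4 1 (k v (k (c 12 4099 r (u 8 1 (k v (k v r)))) (k (c 8 4098 r (u 12 1 (k v (k v r)))) (k (c 8 4097 r (c 3 4097 v r)) (k (c 8 4099 r (u 12 1 (k v (k v r)))) (k (c 8 4095 r (c 10 4099 v r)) r)))))))) (k (t 4 1 r) (k (t 6 3 (u 4 2 (k v (k (c 12 4099 r (u 8 1 (k v (k v (k (t 24 1 (u 16 0 (k v (k (c 48 4099 r (u 32 3 (k v (k v (k v r))))) r)))) r))))) r)))) (k (t 6 2 (c 3 4097 v r)) r))))))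
 .z .z) (.s 0xfea88a2209dd5400 4093 (n false (z 133) (n true (n true (n false (n false (n false (n false e e) (n false e e)) (n false (n false e e) (n false e e))) (n false e e)) e) e)) (u 2 0 (k (t 6 1 r) (k (c 3 4097 v (t 6 1 r)) (k (c 3 4097 v (t 6 1 r)) (k (t 6 1 r) (k (c 3 4097 v (t 4 2 r)) (k (c 3 4097 v (t 6 1 r)) (k (t 4 2 r) (k (t 4 1 r) r)))))))))
 .z .z)) (.s 0xfea88a220e75fe00 4097 (n false (n true (z 121) e) (n true (n true (n false (n false (n false (n false e e) (n false e e)) (n false (n false e e) (n false e e))) (n false e e)) e) e)) (u 4 1 (k v (k (c 12 4099 r (u 8 1 (k v (k v r)))) (k (c 8 4097 r (u 12 1 (k v (k v r)))) (k (c 8 4095 r (u 12 0 (k v (k v r)))) (k (c 8 4095 r (u 12 0 (k v (k v r)))) r))))))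
 (.s 0xfea88a220e5fdc00 4095 (n false (n true (z 46) e) (n true (n true (n false (n false (n false (n false e e) (n false e e)) (n false (n false e e) (n false e e))) (n false e e)) e) e)) (u 4 1 (k v (k (u 8 1 (k v (k v r))) (k (c 12 4099 r (u 8 0 (k v (k v r)))) (k (u 8 1 (k v (k v r))) (k (c 12 4097 r (u 8 1 (k v (k v r)))) (k (c 8 4095 r (u 12 1 (k v (k v r)))) r)))))))
 .z .z) .z)) (.s 0xfeee10b8413eab00 4078 (n false (n true (n true (n false (n true (n false (n true (n false e e) e) (n false e e)) e) (n false (n true (n false e e) e) (n false e e))) e) e) (z 67)) (u 3 100 (k v (k v (k v (k v (k v (k (t 7 1 (u 5 1 (k v (k v r)))) (k (c 5 4101 r (u 7 0 (k v (k v r)))) (k r (k (c 2 4084 v r) (k (c 5 4099 r (u 7 0 (k v (k v r)))) (k (t 7 1 (u 5 2 (k v (k (c 13 4097 r (u 9 0 (k v (k v r)))) r)))) (k (c 2 4084 v (t 7 2 (u 5 0 (k r r)))) (k (c 7 4101 r (u 5 1 (k v (k v r)))) (k (t 7 1 (u 5 9 (k v (k v (k v (k (c 13 4099 r (u 9 1 (k v (k v r)))) r)))))) (k (c 7 4102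 r (u 5 1 (k v (k v r)))) (k (c 5 4101 r (u 7 1 (k v (k v r)))) (k r (k (c 5 4101 r (u 7 1 (k v (k v r)))) r)))))))))))))))))))
 (.s 0xfea88a220e7dfe00 4096 (n false (n true (z 123) e) (n true (n true (n false (n false (n false (n false e e) (n false e e)) (n false (n false e e) (n false e e))) (n false e e)) e) e)) (u 4 12 (k v (k r (k (c 12 4099 r (u 8 0 (k v (k v (k v (k (t 24 2 r) r)))))) (k (u 8 17 (k v (k (t 24 1 r) (k (c 16 4097 r r) (k (c 24 4096 r (u 16 0 (k (u 32 0 (k v (k v r))) r))) (k (c 24 4097 r r) (k (c 24 4097 r r) (k (c 24 4097 r r) (k (c 24 4097 r r) (k (c 24 4097 r r) r)))))))))) (k (c 8 4096 r (u 12 1 (k v (k v r)))) (k (c 12 4097 r r) r)))))))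
 (.s 0xfea88a220e777600 4095 (n false (n true (z 85) e) (n true (n true (n false (n false (n false (n false e e) (n false e e)) (n false (n false e e) (n false e e))) (n false e e)) e) e)) (u 4 7 (k (u 8 0 (k v (k v (k v (k (t 24 2 r) r))))) (k (c 12 4099 r r) (k (c 12 4099 r r) (k (c 12 4099 r r) (k (c 12 4101 r r) (k (c 12 4096 r r) (k (c 8 4099 r r) r))))))))
 .z .z) (.s 0xfea88a220e7f7e00 4097 (n false (n true (z 119) e) (n true (n true (n false (n false (n false (n false e e) (n false e e)) (n false (n false e e) (n false e e))) (n false e e)) e) e)) (u 4 24 (k v (k (c 12 4101 r r) (k (c 12 4099 r r) (k (t 8 2 (u 12 0 (k (t 20 3 (t 28 1 v)) r))) (k (c 8 4101 r r) (k (c 8 4101 r r) (k (c 8 4099 r r) (k (c 8 4101 r r) (k (c 8 4101 r r) r))))))))))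
 .z .z)) (.s 0xff95df000e75d600 4095 (n false (n true (n true (n true (z 52) e) e) e) (n true (z 73) e)) (u 5 0 (k (u 16 4 (k (u 9 0 (k v (k v r))) (k r (k (u 9 29 (k v (k v (k v r)))) (k r (k r r)))))) r))
 (.s 0xff95df000e577c00 4088 (n false (n true (n true (n true (z 52) e) e) e) (n true (z 52) e)) (u 5 4 (k r (k r (k r (k r (k (t 13 1 (u 16 103 (k (u 9 0 (k v (k v r))) (k (u 9 0 (k v (k v r))) (k (t 9 1 v) (k (t 9 1 v) (k (t 48 1 (u 32 0 (k (u 9 0 (k v (k v r))) (k (u 9 0 (k v (k v r))) r)))) r))))))) r))))))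
 .z .z) .z))))

set_option maxRecDepth 100000 in
def N132 : NT :=
(.s 0x74afea004fbec0288 4082 (n false (n false (z 91) (z 156)) (n false (n false e e) (n false e e))) (u 4 4 (k r (k r (k (u 8 1 (k r (k r r))) (k (c 8 4097 r (u 12 0 (k r (k r r)))) (k (c 8 4097 r (u 12 0 (k r (k r r)))) (k (c 8 4096 r (u 12 0 (k r (k r r)))) (k (c 8 4095 r (u 12 0 (k r (k r r)))) r))))))))
 (.s 0x74aef803a0e577c00 4084 (n false (n false (z 52) (n true (n false (n false e e) e) e)) (n true (z 52) e)) (u 5 168 (k r (k r (k (c 6 4093 v r) (k (c 4 4097 r v) (k (t 13 1 (u 4 166 (k (u 9 0 (k v (k v r))) (k (t 9 1 v) (k (c 2 4077 v (c 5 4097 (t 2 1 v) v)) (k (c 2 4076 v (c 5 4097 (t 2 1 v) v)) (k (t 12 1 (u 8 2 (k (u 9 0 (k v (k v r))) (k (u 9 0 (k v (k v r))) r)))) r))))))) r))))))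
 (.s 0x74abfc03a0aa22888 4086 (n false (n false (z 120) (n true (n false (n false e e) e) e)) (n false (n false (n false (n false e e) (n false e e)) (n false (n false e e) (n false e e))) (n false e e))) (u 4 26 (k v (k (c 12 4099 r (u 8 65 (k v (k v (k v (k (c 16 4099 r r) r)))))) (k (c 12 4096 r (u 8 20 (k v (k v (k v (k v r)))))) (k (c 12 4100 r (u 8 0 (k (u 16 0 (k v (k v r))) r))) (k (c 12 4099 r (u 8 1 (k v (k v r)))) (k (c 8 4098 r (u 12 1 (k v (k v r)))) (k (c 8 4101 r (u 12 0 (k v (k v r)))) (k (c 12 4099 r (u 8 10 (k v (k v (k (c 24 4097 r (u 16 1 (k v (k v r)))) (k (c 24 4097 r (u 16 1 (k v (k v r)))) r)))))) (k (c 12 4099 r (u 8 1 (k v (k v r)))) (k (c 8 4101 r (u 12 0 (k v (k v r)))) r)))))))))))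
 (.s 0xffea22880e75fe00 4093 (n false (n true (n true (n true (n true (n false (n false (n false e e) (n false e e)) (n false (n false e e) (n false e e))) e) e) e) e) (n true (z 121) e)) (u 5 53 (k v (k v (k v (k (c 13 4099 r (u 9 1 (k v (k v r)))) (k (c 9 4095 r (u 13 0 (k v (k v r)))) (k (c 9 4095 r (u 13 0 (k v (k v r)))) r)))))))
 (.s 0xffa88a2052bbe008 4089 (n false (n false (z 52) (n false e e)) (n true (n true (n true (n false (n false (n false e e) (n false e e)) (n false (n false e e) (n false e e))) e) e) e)) (u 4 6 (k v (k v (k (t 12 1 (u 8 2 (k v (k v r)))) r))))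
 .z .z) (.s 0x74aaaa00452afa008 4088 (n false (n false (z 128) (n false e e)) (n false (z 24) (n false e e))) (u 4 2 (k (u 5 0 (k (t 9 3 (t 13 1 v)) r)) (k (u 5 0 (k (t 9 3 (t 13 1 v)) r)) (k (c 12 4097 r r) (k (c 8 4095 r (c 3 4096 (c 2 4098 r v) r)) (k (c 8 4098 r (c 3 4096 (c 2 4098 r v) (u 12 0 (k (u 20 0 (k v (k v r))) r)))) (k (c 8 4096 r r) (k (c 8 4095 r (c 3 4096 (c 2 4098 r v) r)) (k (c 8 4095 r r) (k (c 8 4095 r r) (k (c 12 4095 r (c 3 4096 (c 2 4098 r v) r)) (k (c 12 4095 r r) (k (c 8 4097 r r) (k (c 8 4095 r r) (k (c 8 4095 r r) (k (c 8 4097 r r) r))))))))))))))))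
 .z .z)) (.s 0x74aef803a0aa22888 4084 (n false (n false (n true (n false (n false e e) e) e) (z 52)) (n false (n false (n false (n false e e) (n false e e)) (n false (n false e e) (n false e e))) (n false e e))) (u 6 139 (k v (k v (k v (k v r)))))
 (.s 0x74abfc03b842ee108 4074 (n false (n false (z 120) (n true (n false (n true (n false e e) e) (n false e e)) e)) (n false (n true (n false (n true (n false e e) e) (n false e e)) e) (n false e e))) (u 4 37 (k v (k v (k v (k (c 12 4096 r (c 10 4092 v r)) (k (c 12 4099 r (u 8 1 (k v (k v r)))) (k (c 8 4098 r (u 12 1 (k v (k v r)))) (k (c 8 4101 r r) (k (c 12 4099 r (u 8 1 (k v (k v r)))) (k (c 8 4101 r r) r))))))))))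
 .z .z) .z)) (.s 0x74afea004eeb80288 4082 (n false (n false (z 156) (z 37)) (n false (n false e e) (n false e e))) (u 4 1 (k r (k (c 12 4099 r (u 8 1 (k r (k r r)))) (k (c 8 4098 r (u 12 1 (k r (k r r)))) (k (c 8 4097 r (u 12 1 (k r (k r r)))) (k (c 8 4099 r (u 12 1 (k r (k r r)))) (k (c 8 4095 r (u 12 0 (k r (k r r)))) r)))))))
 (.s 0x74afea004affc0288 4082 (n false (n false (z 124) (z 156)) (n false (n false e e) (n false e e))) (u 4 5 (k r (k (c 12 4097 r (u 8 1 (k r (k r r)))) (k (c 12 4096 r (u 8 1 (k r (k r r)))) (k (c 8 4098 r (u 12 0 (k r (k r r)))) (k (c 12 4096 r (u 8 1 (k r (k r r)))) (k (c 12 4097 r (u 8 1 (k r (k r r)))) (k (c 12 4097 r (u 8 1 (k r (k r r)))) (k (c 12 4096 r (u 8 1 (k r (k r r)))) (k (c 8 4097 r (u 12 1 (k r (k r r)))) r))))))))))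
 (.s 0x74afea004aef803a0 4086 (n false (n false (z 156) (z 52)) (n true (n false (n false e e) e) e)) (u 4 8 (k r (k (c 2 4064 r v) (k (c 12 4099 r r) (k (c 8 4098 r r) (k (c 8 4097 r (u 12 31 (k r (k r (k r r))))) (k (c 8 4099 r r) r)))))))
 .z .z) (.s 0x74afea004ebfc0288 4082 (n false (n false (z 121) (z 156)) (n false (n false e e) (n false e e))) (u 4 1 (k r (k (c 12 4099 r (u 8 1 (k r (k r r)))) (k (c 8 4097 r (u 12 1 (k r (k r r)))) (k (c 8 4095 r (u 12 0 (k r (k r r)))) (k (c 8 4095 r (u 12 0 (k r (k r r)))) r))))))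
 .z .z)) (.s 0x74afea004fab803a0 4088 (n false (n false (z 156) (z 35)) (n true (n false (n false e e) e) e)) (u 6 0 (k r (k (t 4 1 v) (k (t 14 1 (u 4 8 (k (u 10 0 (k (t 18 3 (t 26 1 v)) r)) (k (c 2 4069 (u 5 0 (k (t 9 3 (t 13 1 v)) r)) v) (k (c 12 4099 r r) (k (c 8 4098 r r) (k (c 8 4097 r (t 10 1 r)) (k (c 8 4099 r r) r)))))))) r))))
 (.s 0x74afea004eeec0288 4082 (n false (n false (z 85) (z 156)) (n false (n false e e) (n false e e))) (u 4 53 (k r (k (c 12 4099 r r) (k (c 12 4099 r r) (k (c 12 4099 r (u 8 5 (k r (k r r)))) (k (u 8 12 (k r (k r r))) (k (c 12 4096 r r) (k (c 8 4099 r r) r))))))))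
 .z .z) .z))) (.s 0x74bfb80257fe01708 4076 (n false (n false (z 124) (z 46)) (n false (n true (n false e e) e) (n false e e))) (u 4 16 (k r (k (c 12 4097 r (u 8 0 (k r (k r r)))) (k (c 12 4096 r (u 8 0 (k r (k r r)))) (k (c 12 4097 r (u 8 0 (k r (k r r)))) r)))))
 (.s 0x74affc02577c01708 4072 (n false (n false (z 124) (z 52)) (n false (n true (n false e e) e) (n false e e))) (u 4 1 (k r (k (c 12 4097 r (u 8 1 (k r (k r r)))) (k (c 12 4096 r (u 8 1 (k r (k r r)))) (k (c 8 4098 r (u 12 0 (k r (k r r)))) (k (c 12 4096 r (u 8 1 (k r (k r r)))) (k (c 12 4097 r (u 8 1 (k r (k r r)))) (k (c 12 4097 r (u 8 1 (k r (k r r)))) (k (c 12 4096 r (u 8 1 (k r (k r r)))) (k (c 12 4099 r (u 8 1 (k r (k r r)))) (k (c 8 4097 r (u 12 1 (k r (k r r)))) r)))))))))))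
 (.s 0x74afea004feac0288 4082 (n false (n false (z 71) (z 156)) (n false (n false e e) (n false e e))) (u 4 1 (k r (k (c 12 4099 r (u 8 1 (k r (k r r)))) (k (u 6 1 (k (u 8 0 (k v (k v r))) (k (c 14 4099 r r) (k (c 10 4098 r r) (k (c 10 4097 r r) (k (c 10 4099 r r) (k (c 10 4095 r r) r))))))) (k (c 8 4099 r (u 12 1 (k r (k r r)))) (k (c 8 4099 r (u 12 1 (k r (k r r)))) (k (c 8 4099 r (u 12 1 (k r (k r r)))) r)))))))
 (.s 0x74afea004fbfc0288 4082 (n false (n false (z 123) (z 156)) (n false (n false e e) (n false e e))) (u 6 1 (k r (k (c 14 4099 r r) (k (c 10 4098 r r) (k (c 10 4097 r (u 14 1 (k r (k r r)))) (k (c 10 4099 r r) (k (c 10 4095 r (u 14 0 (k r (k r r)))) r)))))))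
 .z .z) (.s 0x74afea0070aa22888 4088 (n false (n false (z 156) (n true (n false e e) e)) (n false (n false (n false (n false e e) (n false e e)) (n false (n false e e) (n false e e))) (n false e e))) (u 4 1 (k v (k (c 12 4099 r (u 8 1 (k v (k v r)))) (k (c 8 4098 r (u 12 1 (k v (k v r)))) (k (c 8 4097 r (c 3 4099 v r)) (k (c 8 4099 r (u 12 1 (k v (k v r)))) (k (c 8 4095 r (c 3 4099 v r)) r)))))))
 .z .z)) (.s 0x74bfb802577c01708 4072 (n false (n false (z 52) (z 46)) (n false (n true (n false e e) e) (n false e e))) (u 6 1 (k r (k (u 10 1 (k r (k r r))) (k (c 14 4099 r (u 10 0 (k r (k r r)))) (k (u 10 1 (k r (k (u 4 138 (k v (k v (k v r)))) r))) (k (c 14 4097 r (u 10 1 (k r (k r r)))) (k (c 10 4095 r (u 14 1 (k r (k r r)))) r)))))))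
 (.s 0x74affc03b842a2288 4071 (n false (n false (z 124) (n true (n false (n true (n false e e) e) (n false e e)) e)) (n false (n false (n false e e) (n false e e)) (n false (n false e e) (n false e e)))) (u 4 5 (k v (k (c 12 4097 r (u 8 1 (k v (k v r)))) (k (c 12 4096 r (u 8 1 (k v (k v r)))) (k (c 8 4098 r (u 12 0 (k v (k v r)))) (k (c 12 4096 r (u 8 1 (k v (k v r)))) (k (c 12 4097 r (u 8 1 (k v (k v r)))) (k (c 12 4097 r (u 8 1 (k v (k v r)))) (k (c 12 4096 r (u 8 1 (k v (k v r)))) (k (c 8 4097 r (u 12 1 (k v (k v r)))) r))))))))))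
 .z .z) .z)) (.s 0x74ebec0387caef800 4088 (n false (n false (z 89) (n true (n false e e) e)) (n true (n true (z 52) e) e)) (u 4 19 (k r (k r (k (u 9 168 (k v (k v (k v (k v (k (t 25 1 (u 17 2 (k v (k v r)))) r)))))) r))))
 (.s 0x74bfb803b842a2288 4071 (n false (n false (z 46) (n true (n false (n true (n false e e) e) (n false e e)) e)) (n false (n false (n false e e) (n false e e)) (n false (n false e e) (n false e e)))) (u 4 0 (k v (k (u 8 1 (k v (k v r))) (k (u 8 1 (k v (k v r))) (k (c 12 4099 r (u 8 0 (k v (k v r)))) (k (c 12 4097 r (u 8 1 (k v (k v r)))) (k (c 8 4095 r (u 12 1 (k v (k v r)))) r)))))))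
 (.s 0x74bfb802e113bbb00 4084 (n false (n false (z 46) (n false (n true (n false e e) e) (n false e e))) (z 85)) (u 4 2 (k r (k (c 12 4099 r (u 8 0 (k r (k r r)))) (k (u 8 1 (k r (k r r))) (k (c 3 4099 r (c 10 4094 v r)) (k (c 12 4097 r (u 8 1 (k r (k r r)))) (k (c 8 4095 r (u 12 1 (k r (k r r)))) r)))))))
 .z .z) (.s 0x74eae80288e577c00 4088 (n false (n false (z 17) (n false (n false e e) (n false e e))) (n true (z 52) e)) (t 4 3 (u 5 430 (k v (k v (k v (k v (k v (k v (k v (k (t 13 2 (c 16 4099 v (u 9 0 (k (u 17 2 (k v (k (u 33 2 (k v (k v r))) r))) r)))) (k (t 13 1 (c 16 4099 v (u 9 0 (k (c 25 4099 r (u 17 2 (k v (k (u 33 2 (k v (k v r))) r)))) r)))) r)))))))))))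
 .z .z)) (.s 0x74ebfc02577c01708 4072 (n false (n false (z 121) (z 52)) (n false (n true (n false e e) e) (n false e e))) (u 4 1 (k r (k (c 12 4099 r (u 8 1 (k r (k r r)))) (k (c 8 4097 r (u 12 1 (k r (k r r)))) (k (c 8 4095 r (u 12 0 (k r (k r r)))) (k (c 8 4095 r (u 12 0 (k r (k r r)))) r))))))
 (.s 0x74ebec0387cfef800 4088 (n false (n false (z 89) (n true (n false e e) e)) (n true (n true (z 55) e) e)) (c 3 4088 r (c 4 4098 r v))
 .z .z) .z))))

set_option maxRecDepth 100000 in
def N133 : NT :=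
(.s 0x74efea004eea80288 4088 (n false (n false (z 157) (z 5)) (n false (n false e e) (n false e e))) (t 6 1 (u 4 10 (k v (k v (k (t 12 1 (u 8 0 (k v (k (c 24 4099 r (u 16 0 (k v (k v r)))) r)))) r)))))
 (.s 0x74eeb8025fdc01d10 4082 (n false (n false (z 46) (z 37)) (n true (n false (n false e e) (n false e e)) e)) (u 6 0 (k r (k (t 4 1 (u 10 0 (k (t 18 3 (t 26 1 v)) r))) (k r (k (u 4 3 (k r (k r (k (c 10 4096 r r) (k (c 12 4097 r r) (k (c 8 4095 r r) r)))))) (k r (k (c 6 4095 r r) r)))))))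
 (.s 0x74eea8025ffe01d10 4085 (n false (n false (z 126) (z 5)) (n true (n false (n false e e) (n false e e)) e)) (t 6 1 (u 4 3 (k v (k (t 12 1 (u 8 54 (k v (k (t 24 1 (u 16 16 (k v (k v (k v r))))) (k (c 8 4092 r v) (k (c 16 4099 r (c 8 4092 r v)) r)))))) (k (t 12 1 (c 6 4099 v (u 8 34 (k v (k v (k (c 24 4099 r (u 16 36 (k v (k v (k v r))))) r)))))) r)))))
 (.s 0x74ebfc02e113fab00 4086 (n false (n false (z 121) (n false (n true (n false e e) e) (n false e e))) (z 71)) (u 3 19 (k r (k (c 10 4094 v r) (k (c 10 4094 v r) (k (c 7 4099 r (u 5 1 (k r (k r r)))) r)))))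
 (.s 0x74ebfc0275fe01d10 4082 (n false (n false (z 121) (z 121)) (n true (n false (n false e e) (n false e e)) e)) (u 4 1 (k r (k (c 12 4099 r (u 8 1 (k r (k r r)))) (k (c 8 4097 r (u 6 1 (k (u 12 1 (k v (k v r))) (k (c 14 4099 r r) (k (c 10 4097 r (u 12 1 (k (u 14 1 (k v (k v r))) (k (u 14 1 (k v (k v r))) r)))) (k (c 10 4095 r r) (k (c 10 4095 r r) r))))))) (k (c 8 4095 r (u 12 0 (k r (k r r)))) (k (c 8 4095 r (u 12 0 (k r (k r r)))) r))))))
 .z .z) (.s 0x74ebfc03b842a2288 4073 (n false (n false (z 121) (n true (n false (n true (n false e e) e) (n false e e)) e)) (n false (n false (n false e e) (n false e e)) (n false (n false e e) (n false e e)))) (u 4 1 (k v (k (c 12 4099 r (u 8 1 (k v (k v r)))) (k (c 8 4097 r (u 12 1 (k v (k v r)))) (k (c 8 4095 r (u 12 0 (k v (k v r)))) (k (c 8 4095 r (u 12 0 (k v (k v r)))) r))))))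
 .z .z)) (.s 0x74eeb80257fe01708 4076 (n false (n false (z 124) (z 37)) (n false (n true (n false e e) e) (n false e e))) (u 4 14 (k r (k (c 12 4097 r (u 8 0 (k r (k r r)))) (k (c 12 4096 r (u 8 0 (k r (k r r)))) (k (c 12 4097 r (u 8 0 (k r (k r r)))) (k (c 12 4099 r (u 8 0 (k r (k r r)))) r))))))
 (.s 0x74eeb802577c01708 4072 (n false (n false (z 52) (z 37)) (n false (n true (n false e e) e) (n false e e))) (u 6 0 (k (u 4 74 (k v (k v (k v (k v r))))) (k (u 10 0 (k (t 18 3 (t 26 1 (u 4 26 (k v (k v (k v r)))))) r)) (k (u 10 0 (k (t 18 3 (t 26 1 (u 4 74 (k v (k v (k v (k v r))))))) r)) (k r (k r (k r r)))))))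
 .z .z) .z)) (.s 0x74eeec025fdc01708 4079 (n false (n false (z 85) (z 46)) (n false (n true (n false e e) e) (n false e e))) (u 4 56 (k r (k r (k (u 8 3 (k r (k r r))) (k (c 12 4096 r (t 6 1 (u 8 4 (k r (k r r))))) r)))))
 (.s 0x74eeb803b842a2288 4080 (n false (n false (z 37) (n true (n false (n true (n false e e) e) (n false e e)) e)) (n false (n false (n false e e) (n false e e)) (n false (n false e e) (n false e e)))) (u 4 36 (k v (k v (k r (k (c 10 4092 v r) r)))))
 (.s 0x74eeb80275fe01d10 4082 (n false (n false (z 121) (z 37)) (n true (n false (n false e e) (n false e e)) e)) (u 6 0 (k r (k (u 10 0 (k (t 18 3 (t 26 1 (u 4 37 (k v (k v (k v r)))))) r)) (k (u 10 0 (k (t 18 3 (t 26 1 (u 4 37 (k v (k v (k v r)))))) r)) (k r (k (u 4 40 (k r (k r (k (c 10 4096 r v) (k r r))))) (k (c 6 4095 r r) r)))))))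
 .z .z) (.s 0x74eeec0257fe01708 4079 (n false (n false (z 85) (z 124)) (n false (n true (n false e e) e) (n false e e))) (u 6 16 (k r (k (c 14 4097 r (u 10 0 (k r (k r r)))) (k (c 14 4096 r (u 10 0 (k r (k r r)))) (k (c 14 4097 r (u 10 0 (k r (k r r)))) r)))))
 .z .z)) (.s 0x74eeec02777601708 4079 (n false (n false (z 85) (z 85)) (n false (n true (n false e e) e) (n false e e))) (u 4 56 (k r (k r (k (u 8 12 (k r (k r r))) (k (c 12 4096 r (t 6 1 (u 8 4 (k r (k r r))))) r)))))
 (.s 0x74eeec02775c01708 4076 (n false (n false (z 85) (z 37)) (n false (n true (n false e e) e) (n false e e))) (u 6 0 (k r (k r (k r (k r (k (u 10 1 (k r (k r (k r (k r r))))) (k r r)))))))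
 .z .z) .z))) (.s 0x74fbec02577c01708 4072 (n false (n false (z 91) (z 52)) (n false (n true (n false e e) e) (n false e e))) (u 4 5 (k r (k (u 8 1 (k r (k (u 6 138 (k v (k v (k v r)))) r))) (k (c 8 4097 r (u 12 0 (k r (k r r)))) (k (c 8 4097 r (u 12 0 (k r (k r r)))) (k (c 8 4097 r (u 12 0 (k r (k r r)))) (k (c 8 4096 r (u 12 0 (k r (k r r)))) (k (c 8 4095 r (u 12 0 (k r (k r r)))) r))))))))
 (.s 0x74faf8025fdc01708 4074 (n false (n false (z 51) (z 46)) (n false (n true (n false e e) e) (n false e e))) (t 4 1 (u 6 1 (k v (k (u 10 1 (k v (k v r))) (k (c 14 4099 r (u 10 0 (k v (k v r)))) (k (u 10 1 (k v (k v r))) (k (c 14 4097 r (u 10 1 (k v (k v r)))) (k (c 10 4095 r (u 14 1 (k v (k v r)))) r))))))))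
 (.s 0x74faac03a0aa22888 4086 (n false (n false (z 67) (n true (n false (n false e e) e) e)) (n false (n false (n false (n false e e) (n false e e)) (n false (n false e e) (n false e e))) (n false e e))) (u 4 79 (k v (k v (k v (k (c 12 4099 r (u 8 2 (k v (k v r)))) (k (c 8 4101 r (u 12 0 (k v (k v r)))) (k (c 12 4099 r (u 8 9 (k v (k v (k (u 16 26 (k v (k v r))) r))))) (k (u 8 20 (k v (k v (k v (k v r))))) (k (c 12 4099 r (u 8 0 (k (u 16 0 (k v (k v r))) r))) (k (c 12 4101 r (u 8 1 (k v (k v r)))) (k (c 12 4099 r (u 8 38 (k v (k v (k v (k v r)))))) (k (c 12 4102 r (u 8 1 (k v (k v r)))) (k (c 12 4100 r (u 8 10 (k v (k (c 24 4101 r r) (k (c 16 4101 r r) (k (c 16 4101 r r) r)))))) (k (c 8 4101 r (u 12 1 (k v (k v r)))) (k (c 12 4099 r (u 8 2 (k v (k (c 24 4099 r (u 16 1 (k v (k v r)))) (k (c 16 4095 r (u 24 0 (k v (k v r)))) r))))) (k (c 8 4101 r (u 12 1 (k v (k v r)))) r))))))))))))))))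
 (.s 0x74faac025d7401708 4082 (n false (n false (z 67) (z 18)) (n false (n true (n false e e) e) (n false e e))) (t 4 1 (u 6 0 (k (u 10 0 (k v (k v r))) r)))
 .z .z) (.s 0x74faac03b842ee108 4073 (n false (n false (z 67) (n true (n false (n true (n false e e) e) (n false e e)) e)) (n false (n true (n false (n true (n false e e) e) (n false e e)) e) (n false e e))) (u 4 158 (k v (k v (k v (k (c 8 4101 r r) (k (u 8 28 (k v (k v (k v (k v r))))) (k (c 12 4101 r (u 8 1 (k v (k v r)))) (k (c 12 4102 r (u 8 1 (k v (k v r)))) (k (c 8 4101 r (u 12 1 (k v (k v r)))) (k (c 8 4101 r (u 12 1 (k v (k v r)))) r))))))))))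
 .z .z)) (.s 0x74fbac02775401708 4079 (n false (n false (z 75) (z 5)) (n false (n true (n false e e) e) (n false e e))) (t 6 2 (u 4 19 (k (t 12 3 (u 8 2 (k v (k r (k r (k r (k r (k r r)))))))) (k (t 12 2 (c 6 4094 v (u 8 22 (k v (k (u 16 0 (k (u 32 0 (k v (k v r))) r)) (k r (k r (k r (k (c 24 4099 r (u 16 0 (k (u 32 0 (k v (k v r))) r))) (k r (k r r))))))))))) (k (c 2 4074 (c 3 4094 v (u 4 0 (k r r))) v) r)))))
 (.s 0x74faf80275fe01708 4074 (n false (n false (z 51) (z 121)) (n false (n true (n false e e) e) (n false e e))) (t 4 1 (u 6 1 (k v (k (c 14 4099 r (u 10 1 (k v (k v r)))) (k (c 10 4097 r (u 14 1 (k v (k v r)))) (k (c 10 4095 r (u 14 0 (k v (k v r)))) (k (c 10 4095 r (u 14 0 (k v (k v r)))) r)))))))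
 .z .z) .z)) (.s 0x74feac0275fe01708 4081 (n false (n false (z 121) (z 71)) (n false (n true (n false e e) e) (n false e e))) (u 4 0 (k r (k r (k (c 12 4099 r (u 8 0 (k r (k r r)))) r))))
 (.s 0x74fbfc0257d401d10 4088 (n false (n false (z 12) (z 123)) (n true (n false (n false e e) (n false e e)) e)) (t 4 2 (u 6 34 (k v (k v (k (c 14 4099 r (u 10 56 (k v (k v (k v (k v (k (t 26 3 (u 18 136 (k v (k v (k v (k v r)))))) r))))))) r)))))
 (.s 0x74fbec02775c01708 4076 (n false (n false (z 91) (z 37)) (n false (n true (n false e e) e) (n false e e))) (u 6 0 (k r (k r (k r (k r (k (u 10 0 (k r (k r (k r r)))) (k r r)))))))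
 .z .z) (.s 0x74feac0255fc01708 4079 (n false (n false (z 71) (z 56)) (n false (n true (n false e e) e) (n false e e))) (u 6 1 (k (u 10 0 (k r (k r r))) (k r (k (c 10 4096 r r) (k (c 14 4096 r (u 4 23 (k r (k r r)))) r)))))
 .z .z)) (.s 0x74ffaa0047cfeec00 4083 (n false (n false (z 143) (n false e e)) (n true (n true (z 87) e) e)) (u 9 1 (k r (k (u 4 5 (k v (k (c 12 4096 r (u 8 81 (k v (k v (k v (k (c 8 4097 r v) (k (c 16 4099 r r) r))))))) (k (c 8 4098 r r) (k (c 12 4097 r (u 8 62 (k v (k v (k v r))))) (k (c 12 4096 r (u 8 17 (k v (k v (k (c 24 4097 r (u 16 1 (k v (k v r)))) (k (c 24 4096 r (u 16 1 (k v (k v r)))) (k (c 24 4097 r (u 16 1 (k v (k v r)))) (k (c 24 4097 r (u 16 1 (k v (k v r)))) (k (c 16 4097 r (u 24 1 (k v (k v r)))) r))))))))) r)))))) r)))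
 (.s 0x74feac02775c01708 4081 (n false (n false (z 71) (z 37)) (n false (n true (n false e e) e) (n false e e))) (u 4 0 (k r (k (c 12 4099 r (u 8 0 (k r (k r r)))) r)))
 .z .z) .z))))

set_option maxRecDepth 100000 in
def N134 : NT :=
(.s 0x753eae004eeb80288 4082 (n false (n false (n false (z 35) e) (z 37)) (n false (n false e e) (n false e e))) (u 6 57 (k r (k r (k r (k (u 10 0 (k (t 18 3 (t 26 1 r)) r)) (k r (k (u 8 2 (k r (k r (k (c 6 4101 r v) (k (t 24 1 (u 10 2 (k (u 16 0 (k (t 32 3 (t 48 1 v)) r)) (k (u 16 0 (k (t 32 3 (t 48 1 v)) r)) (k (c 4 4101 (u 4 0 (k (t 8 3 (t 12 1 v)) r)) v) (k (t 26 1 (u 16 0 (k (t 32 3 (t 48 1 (u 18 0 (k (t 34 3 (t 50 1 v)) r)))) r))) r)))))) r))))) r)))))))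
 (.s 0x753aff00475445110 4090 (n false (n false (n false (z 121) e) (n false e e)) (n true (n false (n false (n false (n false e e) (n false e e)) (n false (n false e e) (n false e e))) (n false e e)) e)) (u 8 3 (k v (k v (k (c 24 4099 r (u 16 1 (k v (k v r)))) (k (c 16 4097 r (u 24 18 (k v (k v (k v r))))) r)))))
 (.s 0x752eee00875445110 4089 (n false (n false (n false (z 42) (n false e e)) e) (n true (n false (n false (n false (n false e e) (n false e e)) (n false (n false e e) (n false e e))) (n false e e)) e)) (u 8 23 (k v (k r (k r (k (c 2 4085 (t 12 1 (u 8 0 (k r r))) v) (k (u 16 2 (k v (k v r))) (k (c 2 4085 r v) r)))))))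
 (.s 0x752bbe00875445110 4093 (n false (n false (n false (z 52) (n false e e)) e) (n true (n false (n false (n false (n false e e) (n false e e)) (n false (n false e e) (n false e e))) (n false e e)) e)) (u 8 36 (k v (k v (k (t 24 1 (u 16 0 (k v (k v r)))) r))))
 (.s 0x752abe00852eee008 4088 (n false (n false (z 42) (n false e e)) (n false (n false (z 48) (n false e e)) e)) (u 4 15 (k (u 9 10 (k v (k v r))) (k r (k (c 2 4091 v r) r))))
 .z .z) (.s 0x752eee0070aa22888 4085 (n false (n false (n false (z 42) e) (n true (n false e e) e)) (n false (n false (n false (n false e e) (n false e e)) (n false (n false e e) (n false e e))) (n false e e))) (u 8 29 (k v (k v (k (t 24 1 (c 4 4084 r v)) (k (u 16 2 (k v (k v r))) (k (c 3 4099 v r) (k (c 3 4099 v r) r)))))))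
 .z .z)) (.s 0x753aff00474bbb800 4086 (n false (n false (n false (z 121) e) (n false e e)) (n true (n false (z 42) e) e)) (u 8 72 (k (u 9 0 (k v (k v r))) (k (c 3 4098 (c 4 4100 r v) v) (k (c 8 4094 v (u 9 0 (k v (k v r)))) (k (u 9 1 (k v (k v r))) r)))))
 (.s 0x752fee0070e5d7400 4085 (n false (n true (z 18) e) (n false (n false (z 46) e) (n true (n false e e) e))) (u 4 0 (k (u 9 2 (k (u 8 0 (k v (k v r))) (k (c 25 4099 r (u 17 0 (k (u 8 0 (k v (k v r))) (k (u 8 0 (k v (k v r))) r)))) (k r (k (u 17 1 (k (u 8 0 (k v (k v r))) (k (u 8 0 (k v (k v r))) r))) (k (c 25 4097 r r) (k (c 17 4095 r r) r))))))) r))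
 .z .z) .z)) (.s 0x753eab004affc0288 4080 (n false (n false (z 124) (n false (z 67) e)) (n false (n false e e) (n false e e))) (u 4 5 (k (u 10 0 (k v (k v r))) (k (c 12 4097 r r) (k (c 12 4096 r r) (k (c 8 4098 r r) (k (c 12 4096 r r) (k (c 12 4097 r r) (k (c 12 4097 r r) (k (c 12 4096 r r) (k (c 8 4097 r r) r))))))))))
 (.s 0x753bae00475445110 4090 (n false (n false (n false (z 37) e) (n false e e)) (n true (n false (n false (n false (n false e e) (n false e e)) (n false (n false e e) (n false e e))) (n false e e)) e)) (u 8 46 (k v (k v (k (u 16 0 (k (t 32 3 (t 48 1 v)) r)) (k (u 16 0 (k (t 32 3 (t 48 1 v)) r)) (k (u 16 0 (k v (k v (k (t 48 1 (u 32 0 (k (t 64 3 (t 96 1 v)) r))) r)))) (k (u 16 10 (k v (k v (k v (k (t 48 1 (u 32 0 (k (t 64 3 (t 96 1 v)) r))) r))))) r)))))))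
 (.s 0x753bae00474bbb800 4086 (n false (n true (n false (z 42) e) e) (n false (n false (z 37) e) (n false e e))) (u 8 1 (k r (k (u 9 62 (k v (k v (k v (k (u 17 33 (k v (k v (k v (k v r))))) r))))) r)))
 .z .z) (.s 0x753bbb00e0e7d5600 4091 (n false (n false (n false (z 85) (n true (n false e e) e)) e) (n true (z 67) e)) (u 8 25 (k (u 5 0 (k v (k v r))) (k r (k (c 24 4099 r r) (k (c 24 4099 r r) (k (c 24 4099 r r) (k (c 2 4081 r (c 5 4103 r v)) (k (c 16 4099 r r) r))))))))
 .z .z)) (.s 0x753eae00453bae008 4094 (n false (n false (n false (z 35) e) (n false e e)) (n false (z 37) (n false e e))) (u 5 28 (k r (k r (k (u 8 15 (k v (k v (k v (k (t 24 1 (u 16 0 (k (t 32 3 (t 48 1 v)) r))) (k (t 24 2 (c 4 4094 r v)) r)))))) r))))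
 (.s 0x753eab004eeec0288 4083 (n false (n false (z 85) (n false (z 67) e)) (n false (n false e e) (n false e e))) (u 4 20 (k r (k (u 10 0 (k v (k v r))) (k (c 12 4099 r r) (k (c 12 4099 r r) (k (u 8 12 (k (u 10 0 (k v (k v r))) (k (u 10 0 (k v (k v r))) r))) (k (c 12 4096 r r) (k (c 8 4099 r r) r))))))))
 .z .z) .z))) (.s 0x754abe802112bbe00 4088 (n false (n false (n false (n false (z 24) (n false e e)) e) (n false e e)) (z 52)) (u 3 242 (k (u 16 0 (k (t 32 3 (t 48 1 v)) r)) (k (u 16 0 (k (t 32 3 (t 48 1 v)) r)) (k (u 16 0 (k (t 32 3 (t 48 1 v)) r)) (k (u 16 0 (k (t 32 3 (t 48 1 v)) r)) (k (c 8 4096 (c 2 4098 r v) v) (k (c 8 4096 (c 2 4098 r v) v) (k (u 16 0 (k (t 32 3 (t 48 1 v)) r)) (k (c 8 4096 (c 2 4098 r v) v) (k (c 8 4096 (c 2 4098 r v) r) r))))))))))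
 (.s 0x753fbf00475445110 4084 (n false (n false (n false (z 119) e) (n false e e)) (n true (n false (n false (n false (n false e e) (n false e e)) (n false (n false e e) (n false e e))) (n false e e)) e)) (u 8 36 (k v (k r (k (c 24 4096 r r) (k (c 24 4096 r r) (k (c 16 4097 r r) (k (c 24 4097 r r) (k (c 24 4096 r (u 16 0 (k (u 32 0 (k v (k v r))) r))) (k (c 16 4098 r r) (k (c 24 4097 r r) (k (c 24 4097 r r) (k (c 24 4097 r r) (k (c 24 4097 r r) (k (c 24 4097 r r) r))))))))))))))
 (.s 0x753fbe004eeb80288 4082 (n false (n false (n false (z 55) e) (z 37)) (n false (n false e e) (n false e e))) (u 6 24 (k r (k r (k r (k (c 4 4095 r (u 10 0 (k (t 18 3 (t 26 1 v)) r))) (k (c 4 4095 r r) (k (u 8 6 (k r (k (t 24 1 (u 16 10 (k r (k (c 6 4095 r v) r)))) r))) r)))))))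
 (.s 0x753fab00475445110 4088 (n false (n false (n false (z 71) e) (n false e e)) (n true (n false (n false (n false (n false e e) (n false e e)) (n false (n false e e) (n false e e))) (n false e e)) e)) (u 8 1 (k v (k (c 24 4099 r (u 16 18 (k v (k v (k v r))))) (k (u 16 0 (k v (k v r))) (k (c 16 4099 r (u 24 18 (k v (k v (k v r))))) (k (c 16 4099 r (u 24 18 (k v (k v (k v r))))) (k (c 16 4099 r (u 24 18 (k v (k v (k v r))))) r)))))))
 .z .z) (.s 0x753fbe0070aa22888 4086 (n false (n false (n false (z 55) e) (n true (n false e e) e)) (n false (n false (n false (n false e e) (n false e e)) (n false (n false e e) (n false e e))) (n false e e))) (u 8 4 (k (t 24 1 (u 16 6 (k v (k v (k r (k (c 3 4099 v r) r)))))) (k (t 24 2 (c 3 4099 v r)) r)))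
 .z .z)) (.s 0x753feb00475445110 4092 (n false (n false (n false (z 79) e) (n false e e)) (n true (n false (n false (n false (n false e e) (n false e e)) (n false (n false e e) (n false e e))) (n false e e)) e)) (u 8 3 (k v (k (u 16 1 (k v (k (c 48 4099 r (u 32 1 (k v (k v r)))) (k (u 32 0 (k v (k v r))) (k (c 32 4099 r (u 48 1 (k v (k v r)))) (k (c 32 4099 r (u 48 1 (k v (k v r)))) (k (c 32 4099 r (u 48 1 (k v (k v r)))) r))))))) (k (c 24 4096 r (u 16 18 (k v (k v (k v r))))) r))))
 (.s 0x753fbf0077085d108 4074 (n false (n false (n false (z 119) e) (n true (n false (n true (n false e e) e) (n false e e)) e)) (n false (n true (n false (n false e e) (n false e e)) e) (n false e e))) (u 8 10 (k v (k (c 24 4101 r r) (k (c 16 4101 r r) (k (c 16 4101 r r) r)))))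
 .z .z) .z)) (.s 0x754abe8021cfef800 4087 (n false (n false (n true (z 55) e) (n false (n false (z 24) (n false e e)) e)) e) (u 8 1 (k (c 10 4096 (c 2 4098 r v) v) (k (t 24 1 (u 16 14 (k (c 10 4096 (c 2 4098 r v) v) (k (c 48 4099 r (t 32 3 (u 18 0 (k (t 34 3 (t 50 1 v)) r)))) (k (c 10 4096 (c 2 4098 r v) r) (k (c 10 4096 (c 2 4098 r v) r) (k (c 10 4096 (c 2 4098 r v) r) (k (c 10 4096 (c 2 4098 r v) r) r)))))))) r)))
 (.s 0x754abe8021cbfa800 4089 (n false (n false (n true (z 14) e) (n false (n false (z 24) (n false e e)) e)) e) (u 8 0 (k (u 18 0 (k (t 34 3 (t 50 1 v)) r)) (k (u 18 0 (k (t 34 3 (t 50 1 v)) r)) r)))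
 (.s 0x754abe8021caef800 4087 (n false (n false (n true (z 52) e) (n false (n false (z 24) (n false e e)) e)) e) (u 8 13 (k (u 18 0 (k (t 34 3 (t 50 1 v)) r)) (k (u 18 0 (k (t 34 3 (t 50 1 v)) r)) (k (u 18 0 (k (t 34 3 (t 50 1 v)) r)) (k (u 18 0 (k (t 34 3 (t 50 1 v)) r)) (k (c 10 4096 (c 2 4098 r v) v) (k (c 10 4096 (c 2 4098 r v) v) (k (u 18 0 (k (t 34 3 (t 50 1 v)) r)) (k (c 10 4096 (c 2 4098 r v) v) (k (c 10 4096 (c 2 4098 r v) r) r))))))))))
 .z .z) (.s 0x754abe8021cbff800 4087 (n false (n false (n true (z 62) e) (n false (n false (z 24) (n false e e)) e)) e) (u 8 7 (k (u 18 0 (k (t 34 3 (t 50 1 v)) r)) (k (u 18 0 (k (t 34 3 (t 50 1 v)) r)) (k (u 18 0 (k (t 34 3 (t 50 1 v)) r)) (k (t 24 1 (u 16 6 (k (u 18 0 (k (t 34 3 (t 50 1 v)) r)) (k (u 18 0 (k (t 34 3 (t 50 1 v)) r)) (k (t 48 1 (u 32 0 (k (c 32 4094 v (u 18 0 (k (t 34 3 (t 50 1 v)) r))) (k (u 18 0 (k (t 34 3 (t 50 1 v)) r)) r)))) r))))) r)))))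
 .z .z)) (.s 0x754ebfc02577c00e0 4076 (n false (n false (n false (n false (z 52) (z 121)) e) (n true (n false e e) e)) e) (u 24 1 (k (u 16 26 (k v (k v (k v r)))) (k (c 56 4099 r r) (k (c 40 4097 r r) (k (c 40 4095 r r) (k (c 40 4095 r r) r))))))
 (.s 0x754ebfc02577c0088 4076 (n false (n false (n false (n false (z 121) (z 52)) e) (n false e e)) (n false e e)) (u 16 1 (k (u 24 26 (k v (k v (k v r)))) (k (c 48 4099 r r) (k (c 32 4097 r r) (k (c 32 4095 r r) (k (c 32 4095 r r) r))))))
 .z .z) .z))))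

set_option maxRecDepth 100000 in
def N135 : NT :=
(.s 0x7551144470a5fd400 4092 (n false (n false (n false (n false (n false (n false e e) (n false e e)) (n false (n false e e) (n false e e))) (n false e e)) (n true (n false e e) e)) (n false (z 14) e)) (c 6 4094 v (u 5 0 (k v (k v r))))
 (.s 0x754fefc027ddc00e0 4086 (n false (n false (n false (n false (z 119) (z 43)) e) (n true (n false e e) e)) e) (t 24 1 (u 16 19 (k v (k (c 48 4101 r r) (k (c 32 4096 r (u 48 0 (k (t 80 3 (t 112 1 v)) r))) (k (c 32 4096 r r) (k (c 48 4099 r r) (k (c 48 4097 r r) (k (c 32 4102 r (u 48 0 (k (t 80 3 (t 112 1 v)) r))) (k (c 32 4098 r r) (k (c 32 4101 r r) (k (c 32 4099 r r) (k (c 32 4101 r r) r)))))))))))))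
 (.s 0x754feac027d5c0088 4079 (n false (n false (n false (n false (z 71) (z 35)) e) (n false e e)) (n false e e)) (t 24 1 (u 16 1 (k v (k (c 48 4099 r (u 32 1 (k v (k v r)))) (k (u 32 0 (k v (k v r))) (k (c 32 4099 r (u 48 1 (k v (k v r)))) (k (c 32 4099 r (u 48 1 (k v (k v r)))) (k (c 32 4099 r (u 48 1 (k v (k v r)))) r))))))))
 (.s 0x754eeb80383a88a20 4080 (n false (n false (n false (n false (z 37) (n true (n false e e) e)) e) (n true (n false (n false (n false e e) (n false e e)) (n false (n false e e) (n false e e))) e)) e) (u 16 45 (k v (k v (k r (k r r)))))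
 (.s 0x754eeb803822a2288 4080 (n false (n false (n false (n false (z 37) (n true (n false e e) e)) e) (n false e e)) (n false (n false (n false e e) (n false e e)) (n false (n false e e) (n false e e)))) (u 16 40 (k v (k v (k v (k (c 24 4094 v (u 32 0 (k v (k v (k (t 96 1 (u 64 0 (k (t 128 3 (t 192 1 v)) r))) r))))) r)))))
 .z .z) (.s 0x754feac0255fc0088 4084 (n false (n false (n false (n false (z 56) (z 71)) e) (n false e e)) (n false e e)) (t 16 1 (u 24 1 (k v (k (c 56 4099 r (u 40 1 (k v (k v r)))) (k (c 4 4087 r v) (k (c 40 4099 r (u 56 1 (k v (k v r)))) (k (c 40 4099 r (u 56 1 (k v (k v r)))) (k (c 40 4099 r (u 56 1 (k v (k v r)))) r))))))))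
 .z .z)) (.s 0x754fefc027ddc0088 4080 (n false (n false (n false (n false (z 43) (z 119)) e) (n false e e)) (n false e e)) (t 16 1 (u 24 1 (k (c 56 4101 r r) (k (c 40 4096 r (u 56 0 (k (t 88 3 (t 120 1 v)) r))) (k (c 40 4096 r r) (k (c 56 4099 r r) (k (c 56 4099 r r) (k (c 56 4097 r r) (k (c 40 4102 r (u 56 0 (k (t 88 3 (t 120 1 v)) r))) (k (c 40 4098 r r) (k (c 40 4101 r r) (k (c 40 4101 r r) (k (c 40 4099 r r) (k (c 40 4101 r r) (k (c 40 4101 r r) r)))))))))))))))
 (.s 0x754feac027d5c00e0 4083 (n false (n false (n false (n false (z 35) (z 71)) e) (n true (n false e e) e)) e) (t 16 1 (u 24 1 (k v (k (c 56 4099 r (u 40 1 (k v (k v r)))) (k (c 4 4084 r v) (k (c 40 4099 r (u 56 1 (k v (k v r)))) (k (c 40 4099 r (u 56 1 (k v (k v r)))) (k (c 40 4099 r (u 56 1 (k v (k v r)))) r))))))))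
 .z .z) .z)) (.s 0x75511444474faac00 4095 (n false (n true (n false (z 67) e) e) (n false (n false (n false (n false (n false e e) (n false e e)) (n false (n false e e) (n false e e))) (n false e e)) (n false e e))) (c 9 4101 v (u 8 0 (k v (k v r))))
 (.s 0x7551144445cbfa800 4072 (n false (n false (n true (z 14) e) e) (n false (n false (n false (n false (n false e e) (n false e e)) (n false (n false e e) (n false e e))) (n false e e)) (n false e e))) (c 9 4101 v (u 8 0 (k v (k v r))))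
 (.s 0x7551144385cfeec00 4084 (n false (n false (n true (z 87) e) e) (n false (n false (n false (n false (n false e e) (n false e e)) (n false (n false e e) (n false e e))) e) (n true (n false e e) e))) (c 9 4101 v (u 8 1 (k v (k v r))))
 .z .z) (.s 0x7551144445cfeec00 4073 (n false (n false (n true (z 87) e) e) (n false (n false (n false (n false (n false e e) (n false e e)) (n false (n false e e) (n false e e))) (n false e e)) (n false e e))) (c 9 4101 v (u 8 1 (k v (k v r))))
 .z .z)) (.s 0x755114444fbb803a0 4089 (n false (n false (z 43) (n false (n false (n false (n false e e) (n false e e)) (n false (n false e e) (n false e e))) (n false e e))) (n true (n false (n false e e) e) e)) (u 4 0 (k v (k (u 8 1 (k v (k v r))) (k (c 12 4099 r (u 8 0 (k (u 16 0 (k v (k v r))) r))) (k r (k (c 2 4088 r v) (k (u 8 0 (k (u 16 0 (k v (k v r))) r)) (k r (k r r)))))))))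
 (.s 0x755114444eeec03a0 4091 (n false (n false (z 85) (n false (n false (n false (n false e e) (n false e e)) (n false (n false e e) (n false e e))) (n false e e))) (n true (n false (n false e e) e) e)) (u 4 15 (k v (k (c 12 4099 r r) (k (c 12 4099 r r) (k (c 12 4099 r r) (k (c 6 4099 v (u 8 19 (k v (k v (k v r))))) (k (c 12 4096 r r) (k (c 12 4097 r r) r))))))))
 .z .z) .z))) (.s 0x7553bbe004385d108 4076 (n false (n false (n false (n false (n false (z 53) e) (n false e e)) e) (n true (n false e e) e)) (n false (n true (n false (n false e e) (n false e e)) e) (n false e e))) (c 3 4090 v (u 32 0 (k (t 96 1 (u 64 2 (k v (k (c 192 4099 r (u 128 0 (k v (k v r)))) (k (c 16 4090 r v) (k (u 128 0 (k v (k v r))) (k (c 192 4097 r (c 16 4090 r v)) (k (c 128 4095 r (c 16 4090 r v)) r)))))))) (k (t 96 1 (u 64 30 (k v (k v (k (c 192 4099 r (u 128 192 (k v (k v (k v (k v (k v (k v r)))))))) (k (c 16 4088 r v) (k (c 192 4096 r (c 16 4089 r v)) r))))))) r))))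
 (.s 0x7553bae0095df0020 4086 (n false (n false (n false (n false (n false (z 37) (z 52)) e) (n false e e)) e) e) (u 32 7 (k (u 48 26 (k v (k v (k v r)))) (k (u 64 35 (k (u 48 26 (k v (k v (k v r)))) (k (t 48 1 v) (k (c 48 4097 r v) (k (t 48 1 v) r))))) (k (t 48 1 r) (k (t 48 1 (u 64 5 (k v (k v r)))) r)))))
 (.s 0x7552fee0095550020 4080 (n false (n false (n false (n false (n false (z 46) (z 0)) e) (n false e e)) e) e) (t 48 1 (u 32 2 (k v (k (c 96 4099 r (u 64 0 (k v (k v r)))) (k (u 64 1 (k v (k v r))) (k (u 64 1 (k v (k v r))) (k (c 96 4097 r (u 64 1 (k v (k v r)))) (k (c 64 4095 r (u 96 1 (k v (k v r)))) r))))))))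
 (.s 0x7552afe0095570020 4086 (n false (n false (n false (n false (n false (z 56) (z 32)) e) (n false e e)) e) e) (u 32 0 (k (t 48 2 (u 64 159 (k v (k v (k v r))))) (k (c 64 4096 r (c 48 4096 r (u 96 0 (k v (k v r))))) (k (t 48 2 (u 64 1 (k v (k v r)))) (k (c 96 4096 r (t 48 2 (u 64 159 (k v (k v (k v r)))))) r)))))
 .z .z) (.s 0x7552fff00422a2288 4082 (n false (n false (n false (n false (n false (z 126) e) (n false e e)) e) (n false e e)) (n false (n false (n false e e) (n false e e)) (n false (n false e e) (n false e e)))) (u 32 2 (k v (k (t 96 1 (u 64 21 (k v (k v (k v (k (c 128 4097 r (c 16 4090 r v)) r)))))) (k (c 16 4091 (t 6 1 r) v) r))))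
 .z .z)) (.s 0x7553bbe00422a2288 4082 (n false (n false (n false (n false (n false (z 53) e) (n false e e)) e) (n false e e)) (n false (n false (n false e e) (n false e e)) (n false (n false e e) (n false e e)))) (u 32 0 (k (t 96 1 (u 64 33 (k v (k v (k (c 16 4090 r v) (k (c 16 4090 r v) r)))))) (k (t 96 1 (u 64 65 (k v (k v (k v (k (c 128 4099 r (u 192 429 (k v (k v (k v (k v (k v (k v r)))))))) r)))))) r)))
 (.s 0x7553bbb0095550020 4080 (n false (n false (n false (n false (n false (z 85) (z 0)) e) (n false e e)) e) e) (t 48 1 (u 32 4 (k v (k (c 96 4099 r r) (k (c 96 4099 r r) (k (c 96 4099 r (u 64 8 (k v (k v (k v (k v (k (t 192 1 r) r))))))) (k (u 64 2 (k v (k v (k v (k (t 192 2 (u 128 6 (k v (k v (k (t 384 1 (u 256 0 (k v (k v r)))) r))))) r))))) (k (c 96 4096 r r) (k (c 64 4099 r r) r)))))))))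
 .z .z) .z)) (.s 0x7555caef800843850 4061 (n false (n false (n false (n false (n false (n false (n false (n true (z 52) e) e) (n false e e)) e) (n false e e)) e) (n true (n false e e) e)) (n false (n false e e) e)) (u 256 224 (k v (k v (k v (k v (k v (k v (k v r))))))))
 (.s 0x7553eae00957f0020 4086 (n false (n false (n false (n false (n false (z 35) (z 56)) e) (n false e e)) e) e) (t 32 1 (u 48 2 (k (u 80 159 (k v (k v (k v r)))) (k (u 80 1 (k v (k v r))) (k (c 80 4096 r (u 112 0 (k v (k v r)))) (k (c 80 4097 r r) r))))))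
 (.s 0x7553bee004385d108 4076 (n false (n false (n false (n false (n false (z 45) e) (n false e e)) e) (n true (n false e e) e)) (n false (n true (n false (n false e e) (n false e e)) e) (n false e e))) (u 32 4 (k v (k (t 96 1 (u 64 7 (k v (k (u 128 28 (k v (k v (k v r)))) (k (c 3 4090 v r) (k (c 3 4090 v (u 128 3 (k v (k v r)))) r)))))) r)))
 .z .z) (.s 0x7553eee00957f0020 4088 (n false (n false (n false (n false (n false (z 56) (z 43)) e) (n false e e)) e) e) (t 48 2 (u 32 1 (k (u 64 1 (k v (k v r))) (k (u 64 179 (k v (k v (k v (k v (k v (k v r))))))) (k (c 64 4096 r (u 96 0 (k v (k v r)))) (k (c 96 4096 r r) r))))))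
 .z .z)) (.s 0x7557caef800843850 4062 (n false (n false (n false (n false (n false (n false (n true (n true (z 52) e) e) (n false e e)) e) (n false e e)) e) (n true (n false e e) e)) (n false (n false e e) e)) (u 256 111 (k v (k v (k v (k v (k v (k v (k v r))))))))
 (.s 0x75572bfa800843850 4065 (n false (n false (n false (n false (n false (n false (n true (z 156) e) (n false e e)) e) (n false e e)) e) (n true (n false e e) e)) (n false (n false e e) e)) (u 128 2 (k v (k (c 384 4099 r (u 256 1 (k v (k v r)))) (k (c 256 4095 r (u 384 0 (k v (k v r)))) r))))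
 .z .z) .z))))

set_option maxRecDepth 100000 in
def N136 : NT :=
(.s 0x772afe00475445110 4086 (n false (n false (n true (z 56) e) (n false e e)) (n true (n false (n false (n false (n false e e) (n false e e)) (n false (n false e e) (n false e e))) (n false e e)) e)) (u 8 1 (k (u 16 1 (k v (k v r))) (k (u 16 197 (k v (k v (k v (k v (k v (k v r))))))) (k (c 16 4096 r (u 24 0 (k v (k v r)))) (k (c 24 4096 r r) r)))))
 (.s 0x75d511444395df000 4085 (n false (n false (n false (n true (z 52) e) (n true (n false (n false (n false (n false e e) (n false e e)) (n false (n false e e) (n false e e))) (n false e e)) e)) e) e) (u 16 229 (k v (k v (k v (k v (k v (k v (k v (k (t 48 1 (u 32 0 (k v (k v r)))) r)))))))))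
 (.s 0x75d51144425555000 4086 (n false (n false (n false (z 128) (n true (n false (n false (n false (n false e e) (n false e e)) (n false (n false e e) (n false e e))) (n false e e)) e)) e) e) (u 8 13 (k v (k (c 16 4097 r r) (k (t 16 1 (c 12 4110 v r)) (k (t 16 1 (c 12 4110 v (u 24 0 (k (u 40 0 (k v (k v r))) r)))) (k (c 16 4096 r r) (k (c 24 4097 r r) (k (c 24 4097 r r) (k (c 16 4095 r (u 24 0 (k v (k v r)))) (k (c 16 4099 r r) (k (c 24 4097 r (u 16 1 (k v (k v r)))) (k (c 16 4098 r r) (k (t 24 1 (c 12 4110 v r)) (k (c 24 4095 r (u 16 1 (k v (k v r)))) (k (c 16 4097 r (u 24 0 (k v (k v r)))) (k (c 16 4095 r r) (k (c 16 4099 r r) (k (c 16 4095 r (u 24 1 (k v (k v r)))) (k (c 16 4097 r r) r)))))))))))))))))))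
 (.s 0x75d3bae0095df0020 4087 (n false (n false (n false (n true (n false (z 52) (z 37)) e) (n false e e)) e) e) (u 48 7 (k (u 32 26 (k v (k v (k v r)))) (k (u 80 35 (k (u 32 26 (k v (k v (k v r)))) (k (t 32 1 v) (k (c 32 4097 r v) (k (c 16 4078 r v) r))))) (k (u 80 4 (k (t 32 1 v) (k (c 32 4097 r v) (k (t 32 1 v) (k (u 32 26 (k v (k v (k v r)))) r))))) (k (c 32 4097 r (c 16 4088 r v)) r)))))
 (.s 0x75d2fee0095df0020 4087 (n false (n false (n false (n true (n false (z 46) (z 52)) e) (n false e e)) e) e) (t 48 1 (u 32 1 (k v (k (u 64 1 (k v (k v r))) (k (c 96 4099 r (u 64 0 (k v (k v r)))) (k (u 64 1 (k v (k v r))) (k (c 96 4097 r (u 64 1 (k v (k v r)))) (k (c 64 4095 r (u 96 1 (k v (k v r)))) r))))))))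
 .z .z) (.s 0x75d3fbe009dd50010 4082 (n false (n false (n false (n true (n false (z 55) (z 5)) e) e) (n false e e)) e) (t 48 1 (u 32 4 (k (t 96 1 (u 64 9 (k v (k v (k v (k (u 128 4 (k v (k (t 384 1 (u 256 2 (k v (k v r)))) r))) (k (c 48 4099 v (c 8 4082 r v)) r))))))) (k (t 96 2 (c 48 4099 v r)) r))))
 .z .z)) (.s 0x75d51144427dde010 4093 (n false (n false (n false (z 107) (n true (n false (n false (n false (n false e e) (n false e e)) (n false (n false e e) (n false e e))) (n false e e)) e)) (n false e e)) e) (u 8 0 (k v (k (c 24 4099 r r) (k (u 16 2 (k v (k (c 48 4099 r (u 32 3 (k v (k v r)))) r))) (k (c 16 4102 r (u 24 1 (k v (k v r)))) r)))))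
 (.s 0x75d51144427d56010 4092 (n false (n false (n false (z 67) (n true (n false (n false (n false (n false e e) (n false e e)) (n false (n false e e) (n false e e))) (n false e e)) e)) (n false e e)) e) (u 8 22 (k v (k v (k v (k (t 24 1 (u 16 1 (k v (k v r)))) (k (c 16 4101 r (u 24 0 (k v (k v r)))) (k r (k r (k (t 24 1 (u 16 0 (k (u 32 0 (k v (k v r))) r))) (k (c 24 4101 r (u 16 1 (k v (k v r)))) (k (t 24 1 (u 16 9 (k v (k v (k v (k (c 48 4099 r (u 32 1 (k v (k v r)))) r)))))) (k (c 24 4102 r (u 16 1 (k v (k v r)))) (k (c 24 4100 r (u 16 10 (k v (k (t 48 1 r) (k (t 32 2 r) (k (t 32 1 r) r)))))) (k (c 16 4101 r (u 24 1 (k v (k v r)))) (k (t 24 1 (u 16 3 (k v (k v (k (c 48 4099 r (u 32 1 (k v (k v r)))) r))))) (k (c 16 4101 r (u 24 1 (k v (k v r)))) r))))))))))))))))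
 .z .z) .z)) (.s 0x75d5cafea00210e80 4069 (n false (n false (n false (n true (n false (n false (n false (n true (z 156) e) (n false e e)) e) (n false e e)) e) (n true (n false (n false e e) e) e)) e) e) (u 256 2 (k v (k (c 768 4099 r (u 512 1 (k v (k v r)))) (k (c 512 4095 r (u 768 0 (k v (k v r)))) r))))
 (.s 0x75d51144439f5f000 4085 (n false (n false (n false (n true (z 51) e) (n true (n false (n false (n false (n false e e) (n false e e)) (n false (n false e e) (n false e e))) (n false e e)) e)) e) e) (u 16 0 (k (t 48 1 (u 32 0 (k (t 64 3 (t 96 3 v)) r))) r))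
 (.s 0x75d511444397ff000 4085 (n false (n false (n false (n true (z 62) e) (n true (n false (n false (n false (n false e e) (n false e e)) (n false (n false e e) (n false e e))) (n false e e)) e)) e) e) (u 16 7 (k v (k v (k v (k (t 48 1 (u 32 41 (k v (k v (k (t 96 1 (u 64 2 (k v (k v r)))) r))))) r)))))
 .z .z) (.s 0x75d55caef80084088 4070 (n false (n false (n false (n true (n false (n false (n false (n false (n false (n true (z 52) e) e) (n false e e)) e) (n false e e)) e) e) e) (n false e e)) (n false e e)) (u 1024 164 (k v (k v (k v (k v (k v (k v (k v r))))))))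
 .z .z)) (.s 0x772aae004eeb80288 4084 (n false (n false (n true (z 32) e) (z 37)) (n false (n false e e) (n false e e))) (u 8 0 (k (t 16 3 (t 24 1 (u 6 56 (k v (k v (k (u 10 0 (k (t 18 3 (t 26 1 v)) r)) (k (u 10 0 (k (t 18 3 (t 26 1 v)) r)) (k r (k r r))))))))) r))
 (.s 0x75f2bfa8007075110 4079 (n false (n false (n false (n true (n true (z 156) e) e) (n true (n false e e) e)) e) (n true (n false (n false (n false e e) (n false e e)) (n false e e)) e)) (u 32 1 (k v (k (c 96 4099 r (u 64 1 (k v (k v r)))) (k (c 64 4098 r (u 96 1 (k v (k v r)))) (k (c 64 4097 r (u 96 1 (k v (k v r)))) (k (c 64 4099 r (u 96 1 (k v (k v r)))) (k (c 64 4095 r (u 96 0 (k v (k v r)))) r)))))))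
 .z .z) .z))) (.s 0x772eba0070e5d7400 4082 (n false (n true (z 18) e) (n false (n true (z 18) e) (n true (n false e e) e))) (u 4 0 (k (u 9 0 (k (u 8 0 (k (u 17 0 (k v (k v r))) (k (u 17 0 (k v (k v r))) r))) r)) r))
 (.s 0x772bfa8008ea88a20 4087 (n false (n false (n true (z 156) e) (n false e e)) (n true (n false (n false (n false (n false e e) (n false e e)) (n false (n false e e) (n false e e))) e) e)) (u 8 20 (k v (k v (k v (k (c 24 4099 r (u 16 1 (k v (k v r)))) (k (c 16 4099 r (u 24 1 (k v (k v r)))) r))))))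
 (.s 0x772bbe005fd101708 4067 (n false (n false (n true (z 52) e) (n false (n true (n true (n true (n false (n false e e) (n false e e)) e) e) e) e)) (n false (n true (n false e e) e) (n false e e))) (u 8 391 (k v (k v (k v (k v (k v r))))))
 (.s 0x772bbe00452afa008 4087 (n false (n false (n true (z 52) e) (n false e e)) (n false (z 24) (n false e e))) (u 8 393 (k (u 5 0 (k (t 9 3 (t 13 1 v)) r)) (k (u 5 0 (k (t 9 3 (t 13 1 v)) r)) (k (u 5 0 (k (t 9 3 (t 13 1 v)) r)) (k (u 5 0 (k (t 9 3 (t 13 1 v)) r)) (k (c 3 4096 (c 2 4098 r v) v) (k (c 3 4096 (c 2 4098 r v) v) (k (u 5 0 (k (t 9 3 (t 13 1 v)) r)) (k (c 3 4096 (c 2 4098 r v) v) (k (c 3 4096 (c 2 4098 r v) r) r))))))))))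
 .z .z) (.s 0x772bbe0070aa22888 4083 (n false (n false (n true (z 52) e) (n true (n false e e) e)) (n false (n false (n false (n false e e) (n false e e)) (n false (n false e e) (n false e e))) (n false e e))) (u 8 135 (k v (k v (k v (k v (k v (k v (k r (k (t 24 1 (u 16 0 (k v (k v r)))) r)))))))))
 .z .z)) (.s 0x772eba004bbb80288 4079 (n false (n false (z 42) (n true (z 18) e)) (n false (n false e e) (n false e e))) (u 4 1 (k (u 10 0 (k (u 18 0 (k v (k v r))) r)) (k (u 10 0 (k (u 18 0 (k v (k v r))) r)) r)))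
 (.s 0x772bff00475445110 4085 (n false (n false (n true (z 124) e) (n false e e)) (n true (n false (n false (n false (n false e e) (n false e e)) (n false (n false e e) (n false e e))) (n false e e)) e)) (u 8 4 (k v (k v (k (c 24 4097 r (u 16 1 (k v (k v r)))) (k (c 24 4096 r (u 16 1 (k v (k v r)))) (k (c 16 4098 r (u 24 0 (k v (k v r)))) (k (c 24 4096 r (u 16 1 (k v (k v r)))) (k (c 24 4097 r (u 16 1 (k v (k v r)))) (k (c 24 4097 r (u 16 1 (k v (k v r)))) (k (c 24 4096 r (u 16 1 (k v (k v r)))) (k (c 16 4097 r (u 24 1 (k v (k v r)))) r)))))))))))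
 .z .z) .z)) (.s 0x772eee00475445110 4084 (n false (n false (n true (z 42) e) (n false e e)) (n true (n false (n false (n false (n false e e) (n false e e)) (n false (n false e e) (n false e e))) (n false e e)) e)) (u 8 5 (k v (k (c 5 4099 v r) (k (c 5 4099 v r) (k (t 24 1 (c 4 4084 r v)) (k (u 16 36 (k v (k v (k (c 5 4099 v r) (k (c 8 4088 r v) r))))) (k (c 5 4099 v (c 4 4087 r v)) r)))))))
 (.s 0x772eee00452eef008 4089 (n false (n false (z 106) (n false e e)) (n false (n true (z 42) e) (n false e e))) (u 9 63 (k r (k (t 4 2 v) (k (u 17 2 (k (t 4 2 v) (k r r))) (k (u 17 45 (k (t 4 2 v) (k r (k (u 4 11 (k v (k v (k v r)))) (k (c 3 4076 v r) r))))) (k (u 4 12 (k r (k r (k (u 17 19 (k v (k v (k (c 49 4099 r (u 33 1 (k v (k v r)))) (k (c 33 4099 r (u 49 1 (k v (k v r)))) (k (c 33 4095 r (c 5 4076 r v)) r)))))) r)))) r))))))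
 (.s 0x772ebe00475445110 4085 (n false (n false (n true (z 50) e) (n false e e)) (n true (n false (n false (n false (n false e e) (n false e e)) (n false (n false e e) (n false e e))) (n false e e)) e)) (u 8 1 (k v (k (c 24 4097 r (u 16 0 (k v (k v r)))) r)))
 .z .z) (.s 0x772eee00453faf008 4089 (n false (n false (z 103) (n false e e)) (n false (n true (z 42) e) (n false e e))) (u 4 9 (k (u 9 1 (k v (k v r))) (k (c 12 4101 r r) (k (c 8 4101 r r) (k (c 8 4101 r r) r)))))
 .z .z)) (.s 0x772eee004bbb803a0 4084 (n false (n false (n true (z 42) e) (z 42)) (n true (n false (n false e e) e) e)) (u 6 1 (k (u 8 1 (k v (k v r))) (k (u 8 1 (k v (k v r))) r)))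
 (.s 0x772eee004affc0288 4077 (n false (n false (z 124) (n true (z 42) e)) (n false (n false e e) (n false e e))) (u 4 5 (k (u 10 1 (k v (k v r))) (k (c 12 4097 r r) (k (c 12 4096 r r) (k (c 8 4098 r r) (k (c 12 4096 r r) (k (c 12 4097 r r) (k (c 12 4097 r r) (k (c 12 4096 r r) (k (c 8 4097 r r) r))))))))))
 .z .z) .z))))

end Pool.Agent.Helper91.ND1
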