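import Pool.Agent.Helper66.ND.Defs

/-! part of the certificate for the constant 25/48 (generated) -/

namespace Pool.Agent.Helper91.ND1

open Pool.Agent.Helper66.IL
open Pool.Agent.Helper66.ND
open Pool.Agent.Helper66.ND.LT
open Pool.Agent.Helper66.ND.Ct

set_option maxRecDepth 100000 in
def N137 : NT :=
(.s 0x773aff00475445110 4087 (n false (n false (n true (z 121) e) (n false e e)) (n true (n false (n false (n false (n false e e) (n false e e)) (n false (n false e e) (n false e e))) (n false e e)) e)) (u 8 3 (k v (k v (k (c 24 4099 r (u 16 1 (k v (k v r)))) (k (c 16 4097 r (u 24 1 (k v (k v r)))) r)))))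
 (.s 0x772efb00475445110 4085 (n false (n false (n true (z 90) e) (n false e e)) (n true (n false (n false (n false (n false e e) (n false e e)) (n false (n false e e) (n false e e))) (n false e e)) e)) (u 8 7 (k v (k r (k r (k (u 16 12 (k v (k v (k (c 48 4099 r r) (k (c 48 4099 r (c 8 4088 r v)) (k (u 32 3 (k v (k v r))) (k (c 48 4096 r (c 8 4088 r v)) (k (c 32 4099 r r) r)))))))) (k (c 24 4097 r (u 16 1 (k v (k (c 48 4097 r (u 32 0 (k v (k v r)))) r)))) (k (c 24 4096 r r) (k (c 24 4097 r r) (k (c 24 4095 r r) (k (c 16 4095 r r) r))))))))))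
 (.s 0x772efa0070e5d7400 4082 (n false (n false (n true (z 26) e) (n true (n false e e) e)) (n true (z 18) e)) (u 5 0 (k (u 9 0 (k (u 8 2 (k v (k (c 4 4084 (u 4 1 (k v (k v r))) v) r))) (k (u 8 2 (k v (k (c 4 4084 (u 4 1 (k v (k v r))) v) r))) r))) r))
 (.s 0x772eee00551144450 4075 (n false (n false (n true (z 42) e) (n false (n false (n false (n false e e) (n false e e)) (n false (n false e e) (n false e e))) (n false e e))) (n false (n false e e) e)) (c 10 4101 v (u 8 1 (k v (k v r))))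
 (.s 0x772eee004eeec0288 4080 (n false (n false (z 85) (n true (z 42) e)) (n false (n false e e) (n false e e))) (u 4 12 (k r (k r (k (c 12 4099 r (u 10 31 (k r (k r (k r r))))) (k (c 12 4099 r r) (k (u 8 12 (k (u 10 1 (k v (k v r))) (k (u 10 1 (k v (k v r))) r))) (k (c 12 4096 r r) (k (c 8 4099 r (u 10 31 (k r (k r (k r r))))) r))))))))
 .z .z) (.s 0x772eee005c23fb840 4075 (n false (n false (n true (z 42) e) (n false (n true (n false e e) e) (n false e e))) (n true (n true (n true (n false (n true (n false e e) e) (n false e e)) e) e) e)) (c 3 4089 v (c 10 4094 v r))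
 .z .z)) (.s 0x772efa0070e775c00 4088 (n false (n false (n true (z 26) e) (n true (n false e e) e)) (n true (z 37) e)) (u 8 2 (k (u 5 1 (k v (k v r))) (k (c 6 4094 v (c 4 4084 (u 4 1 (k v (k v r))) (t 5 1 v))) r)))
 (.s 0x772efa0070e75fe00 4088 (n false (n true (z 121) e) (n false (n true (z 26) e) (n true (n false e e) e))) (u 4 1 (k r (k (c 12 4099 r (u 8 1 (k r (k r r)))) (k (c 8 4097 r (u 12 1 (k r (k r r)))) (k (c 8 4095 r (u 12 0 (k r (k r r)))) (k (c 8 4095 r (u 12 0 (k r (k r r)))) r))))))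
 .z .z) .z)) (.s 0x772fee00475445110 4085 (n false (n false (n true (z 46) e) (n false e e)) (n true (n false (n false (n false (n false e e) (n false e e)) (n false (n false e e) (n false e e))) (n false e e)) e)) (u 8 1 (k v (k (u 16 1 (k v (k v r))) (k (c 24 4099 r (u 16 0 (k v (k v r)))) (k (u 16 1 (k v (k v r))) (k (c 24 4097 r (u 16 1 (k v (k v r)))) (k (c 16 4095 r (u 24 1 (k v (k v r)))) r)))))))
 (.s 0x772fea00551144450 4073 (n false (n false (n true (z 14) e) (n false (n false (n false (n false e e) (n false e e)) (n false (n false e e) (n false e e))) (n false e e))) (n false (n false e e) e)) (c 10 4101 v (u 8 0 (k v (k v r))))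
 (.s 0x772fea00452afa008 4087 (n false (n false (n true (z 14) e) (n false e e)) (n false (z 24) (n false e e))) (u 5 0 (k (t 9 3 (t 13 1 (u 8 0 (k v (k v r))))) r))
 .z .z) (.s 0x772fea00741d44510 4077 (n false (n false (n true (n false (n false e e) e) e) (n true (z 14) e)) (n true (n false (n false (n false e e) (n false e e)) (n false (n false e e) (n false e e))) e)) (c 5 4101 v (u 10 0 (k v (k v r))))
 .z .z)) (.s 0x773afb00475445110 4081 (n false (n false (n true (z 89) e) (n false e e)) (n true (n false (n false (n false (n false e e) (n false e e)) (n false (n false e e) (n false e e))) (n false e e)) e)) (u 8 35 (k v (k v (k v (k (t 24 3 (u 16 74 (k v (k v (k v (k v r)))))) (k (t 24 2 (c 5 4099 v r)) (k r (k r r))))))))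
 (.s 0x773aeb0070e5d7400 4089 (n false (n true (z 18) e) (n false (n true (z 73) e) (n true (n false e e) e))) (u 9 0 (k (u 17 23 (k (u 4 0 (k (u 8 0 (k v (k v r))) r)) (k (c 9 4094 v (u 4 0 (k (u 8 0 (k v (k v r))) r))) r))) r))
 .z .z) .z))) (.s 0x773eab004bbb803a0 4086 (n false (n false (n true (z 67) e) (z 42)) (n true (n false (n false e e) e) e)) (u 8 0 (k (u 6 1 (k v (k v r))) (k (u 6 1 (k v (k v r))) r)))
 (.s 0x773bae00475445110 4087 (n false (n false (n true (z 37) e) (n false e e)) (n true (n false (n false (n false (n false e e) (n false e e)) (n false (n false e e) (n false e e))) (n false e e)) e)) (u 8 0 (k v (k (u 16 0 (k (t 32 3 (t 48 1 v)) r)) (k (u 16 0 (k (t 32 3 (t 48 1 v)) r)) (k (u 16 0 (k v (k v (k (t 48 1 (u 32 0 (k (t 64 3 (t 96 1 v)) r))) r)))) (k (u 16 0 (k v (k v (k (t 48 1 (u 32 0 (k (t 64 3 (t 96 1 v)) r))) r)))) (k (u 16 6 (k v (k (t 48 1 (u 32 10 (k v (k v r)))) r))) r)))))))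
 (.s 0x773aff00551144450 4093 (n false (n false (n true (z 121) e) (n false (n false (n false (n false e e) (n false e e)) (n false (n false e e) (n false e e))) (n false e e))) (n false (n false e e) e)) (u 8 7 (k v (k v (k (c 24 4099 r (u 16 1 (k v (k v r)))) r))))
 (.s 0x773aff00544511f40 4083 (n false (n false (n true (z 121) e) (n false (n false (n false e e) (n false e e)) (n false (n false e e) (n false e e)))) (n true (n true (n false (n false e e) e) e) e)) (u 8 2 (k v (k v (k (c 24 4099 r (u 16 1 (k v (k v r)))) (k (c 16 4095 r (u 24 0 (k v (k v r)))) (k (c 16 4095 r (u 24 0 (k v (k v r)))) r))))))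
 .z .z) (.s 0x773aff0070e5d7400 4087 (n false (n true (z 18) e) (n false (n true (z 121) e) (n true (n false e e) e))) (u 4 0 (k (u 9 4 (k (u 8 0 (k v (k v r))) (k (u 8 4 (k v (k v r))) (k (c 25 4099 r r) (k (c 17 4097 r (u 8 0 (k (u 25 1 (k v (k v r))) (k (u 25 1 (k v (k v r))) r)))) r))))) r))
 .z .z)) (.s 0x773bbb00475445110 4085 (n false (n false (n true (z 85) e) (n false e e)) (n true (n false (n false (n false (n false e e) (n false e e)) (n false (n false e e) (n false e e))) (n false e e)) e)) (u 8 2 (k v (k r (k (c 24 4099 r r) (k (c 24 4099 r r) (k (c 24 4099 r (u 16 1 (k v (k v (k v (k (t 48 1 (u 32 29 (k v (k v (k v (k (t 96 1 (u 64 0 (k v (k v r)))) r)))))) r)))))) (k (c 24 4096 r r) (k (c 16 4099 r r) r))))))))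
 (.s 0x773bae0070e5d7400 4087 (n false (n true (z 18) e) (n false (n true (z 37) e) (n true (n false e e) e))) (u 4 0 (k (u 9 66 (k (u 8 0 (k v (k v r))) (k (c 2 4095 (c 4 4097 r v) v) (k (u 8 0 (k v (k v r))) (k (u 8 0 (k v (k v r))) (k r (k r r))))))) r))
 .z .z) .z)) (.s 0x773eee0070a7d5c00 4088 (n false (n false (n true (z 43) e) (n true (n false e e) e)) (n false (z 35) e)) (u 5 0 (k r (k (c 3 4094 v r) (k (t 13 1 (u 9 0 (k (t 17 3 (t 25 1 (u 8 0 (k v (k (u 16 1 (k v (k v r))) (k (c 24 4099 r (u 16 0 (k (u 32 0 (k v (k v r))) r))) (k r (k (c 3 4101 v r) (k (u 16 0 (k (u 32 0 (k v (k v r))) r)) (k r (k r r))))))))))) r))) r))))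
 (.s 0x773eee00475445110 4084 (n false (n false (n true (z 43) e) (n false e e)) (n true (n false (n false (n false (n false e e) (n false e e)) (n false (n false e e) (n false e e))) (n false e e)) e)) (u 8 0 (k v (k r (k (c 24 4099 r (u 16 0 (k (u 32 0 (k v (k v r))) r))) (k r (k (c 5 4099 v r) (k (u 16 0 (k (u 32 0 (k v (k v r))) r)) (k r (k r r)))))))))
 (.s 0x773eae004eeb80288 4084 (n false (n false (n true (z 35) e) (z 37)) (n false (n false e e) (n false e e))) (u 6 22 (k r (k r (k r (k (c 6 4095 r r) (k (u 10 0 (k (t 18 3 (t 26 1 r)) r)) (k r r)))))))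
 .z .z) (.s 0x773eee0070a555c00 4088 (n false (n false (n true (z 43) e) (n true (n false e e) e)) (n false (z 32) e)) (u 5 0 (k (t 9 3 (t 13 1 (u 8 14 (k v (k v (k v (k (u 16 1 (k v (k v r))) (k r (k (u 16 0 (k (u 32 0 (k v (k v r))) r)) (k r (k r r))))))))))) r))
 .z .z)) (.s 0x773eee0070e577c00 4085 (n false (n false (n true (z 43) e) (n true (n false e e) e)) (n true (z 52) e)) (u 8 0 (k r (k r (k (c 24 4099 r (u 16 0 (k (u 32 0 (k r (k r r))) r))) (k r (k (c 3 4096 r r) (k (u 16 0 (k (u 32 0 (k r (k r r))) r)) (k r (k r r)))))))))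
 (.s 0x773eee0070e555c00 4090 (n false (n false (n true (z 43) e) (n true (n false e e) e)) (n true (z 32) e)) (u 5 0 (k (t 9 3 (t 13 1 (u 8 0 (k v (k (u 16 1 (k v (k v r))) (k (c 24 4099 r (u 16 0 (k (u 32 0 (k v (k v r))) r))) (k r (k (c 3 4101 v r) (k (u 16 0 (k (u 32 0 (k v (k v r))) r)) (k r (k r r))))))))))) r))
 .z .z) .z))))

set_option maxRecDepth 100000 in
def N138 : NT :=
(.s 0x773fbb00741d44510 4077 (n false (n false (n true (z 87) e) (n true (n false (n false e e) e) e)) (n true (n false (n false (n false e e) (n false e e)) (n false (n false e e) (n false e e))) e)) (c 5 4101 v (u 8 1 (k v (k v r))))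
 (.s 0x773fab004bbb80288 4085 (n false (n false (n true (z 71) e) (z 42)) (n false (n false e e) (n false e e))) (u 6 1 (k (u 8 1 (k v (k (c 24 4099 r (u 16 1 (k v (k v r)))) (k (u 16 0 (k v (k v r))) (k (c 16 4099 r (u 24 1 (k v (k v r)))) (k (c 16 4099 r (u 24 1 (k v (k v r)))) (k (c 16 4099 r (u 24 1 (k v (k v r)))) r))))))) (k (u 8 1 (k v (k (c 24 4099 r (u 16 1 (k v (k v r)))) (k (u 16 0 (k v (k v r))) (k (c 16 4099 r (u 24 1 (k v (k v r)))) (k (c 16 4099 r (u 24 1 (k v (k v r)))) (k (c 16 4099 r (u 24 1 (k v (k v r)))) r))))))) r)))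
 (.s 0x773eee0070e7df600 4089 (n false (n false (n true (z 43) e) (n true (n false e e) e)) (n true (z 91) e)) (u 5 7 (k (c 3 4094 v r) (k (u 9 0 (k r (k r r))) r)))
 (.s 0x773eee0070e775c00 4089 (n false (n false (n true (z 43) e) (n true (n false e e) e)) (n true (z 37) e)) (u 5 1 (k (c 3 4094 v r) (k (u 8 0 (k v (k (u 16 1 (k v (k v r))) (k (c 24 4099 r (u 16 0 (k (u 32 2 (k v (k v (k v r)))) r))) (k (c 9 4099 v r) (k (c 3 4100 v r) (k (c 9 4099 v (u 16 0 (k (u 32 0 (k v (k v r))) r))) (k r (k (u 16 2 (k v (k (c 48 4099 r (u 32 1 (k v (k v r)))) (k (c 32 4095 r (u 48 0 (k v (k v r)))) r)))) r))))))))) r)))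
 (.s 0x773eee0070e75fe00 4090 (n false (n false (n true (z 43) e) (n true (n false e e) e)) (n true (z 121) e)) (u 8 0 (k (u 5 41 (k v (k v (k v (k v r))))) (k (u 16 2 (k (c 8 4094 v r) (k r r))) (k (c 24 4099 r r) (k r (k (c 3 4100 (t 2 2 v) r) (k r (k r (k r r)))))))))
 .z .z) (.s 0x773eee0070e7d5c00 4090 (n false (n false (n true (z 43) e) (n true (n false e e) e)) (n true (z 35) e)) (u 5 0 (k r (k (c 3 4094 v r) (k (t 13 1 (u 9 0 (k (t 17 3 (t 25 1 (u 8 0 (k v (k (u 16 1 (k v (k v r))) (k (c 24 4099 r (u 16 0 (k (u 32 0 (k v (k v r))) r))) (k r (k (c 3 4101 v r) (k (u 16 0 (k (u 32 0 (k v (k v r))) r)) (k r (k r r))))))))))) r))) r))))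
 .z .z)) (.s 0x773efb00475445110 4084 (n false (n false (n true (z 91) e) (n false e e)) (n true (n false (n false (n false (n false e e) (n false e e)) (n false (n false e e) (n false e e))) (n false e e)) e)) (u 8 2 (k v (k v (k (u 16 1 (k v (k v r))) (k (c 16 4097 r (u 24 0 (k v (k v r)))) (k (c 16 4097 r (u 24 0 (k v (k v r)))) (k (c 16 4096 r (u 24 0 (k v (k v r)))) (k (c 16 4095 r (u 24 0 (k v (k v r)))) r))))))))
 (.s 0x773eee0070e7f7c00 4085 (n false (n true (z 55) e) (n false (n true (z 43) e) (n true (n false e e) e))) (u 9 0 (k r (k r (k (c 25 4099 r r) (k r (k (c 2 4095 r r) (k (u 17 0 (k (u 33 0 (k r (k r r))) r)) (k r (k r r)))))))))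
 .z .z) .z)) (.s 0x773fbb004bfb80288 4083 (n false (n false (n true (z 87) e) (z 46)) (n false (n false e e) (n false e e))) (u 6 1 (k (u 8 1 (k v (k v r))) (k r (k (c 14 4099 r r) (k (u 8 1 (k (u 10 1 (k v (k v r))) (k (u 10 1 (k v (k v r))) r))) (k (c 14 4097 r r) (k (c 10 4095 r r) r)))))))
 (.s 0x773fbb004aef803a0 4083 (n false (n false (n true (z 87) e) (z 52)) (n true (n false (n false e e) e) e)) (u 8 12 (k r (k r (k (t 16 4 r) (k (t 16 2 r) (k (t 16 2 r) r))))))
 (.s 0x773fbb00452afa008 4089 (n false (n false (n true (z 87) e) (n false e e)) (n false (z 24) (n false e e))) (u 8 12 (k (u 5 0 (k (t 9 3 (t 13 1 v)) r)) (k (u 5 0 (k (t 9 3 (t 13 1 v)) r)) (k (t 16 4 (u 5 0 (k (t 9 3 (t 13 1 v)) r))) (k (t 16 2 (u 5 0 (k (t 9 3 (t 13 1 v)) r))) (k (t 16 2 (u 5 0 (k (t 9 3 (t 13 1 v)) r))) r))))))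
 .z .z) (.s 0x773fbb004bbb803a0 4082 (n false (n false (n true (z 87) e) (z 42)) (n true (n false (n false e e) e) e)) (u 6 1 (k (u 8 1 (k v (k v r))) (k (u 8 1 (k v (k v r))) r)))
 .z .z)) (.s 0x773fbb0050e7d5600 4086 (n false (n false (n true (z 87) e) (n false (n false e e) e)) (n true (z 67) e)) (u 5 0 (k (u 8 1 (k v (k v r))) (k (u 8 1 (k v (k v r))) r)))
 (.s 0x773fbb004fbfc0288 4079 (n false (n false (n true (z 87) e) (z 123)) (n false (n false e e) (n false e e))) (u 6 19 (k (u 8 1 (k v (k v r))) (k (c 14 4099 r (u 10 12 (k (u 8 1 (k v (k v r))) (k (u 8 1 (k v (k v r))) r)))) (k (c 10 4096 r r) r))))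
 .z .z) .z))) (.s 0x774aef80214bbb800 4086 (n false (n false (n true (n false (z 52) (n false e e)) e) (n false (z 42) e)) e) (u 16 6 (k (u 10 1 (k v (k v r))) (k (u 10 1 (k v (k v r))) (k (t 48 1 (u 32 2 (k (c 32 4094 v (u 10 1 (k v (k v r)))) (k (u 10 1 (k v (k v r))) r)))) r))))
 (.s 0x774abe802112bbe00 4090 (n false (n false (n true (n false (z 24) (n false e e)) e) (n false e e)) (z 52)) (u 3 241 (k (u 16 0 (k (t 32 3 (t 48 1 v)) r)) (k (u 16 0 (k (t 32 3 (t 48 1 v)) r)) (k (c 8 4096 (c 2 4098 r v) v) (k (u 16 0 (k (t 32 3 (t 48 1 v)) r)) (k (c 8 4096 (c 2 4098 r v) v) (k (c 8 4096 (c 2 4098 r v) v) (k (u 16 0 (k (t 32 3 (t 48 1 v)) r)) (k (c 8 4096 (c 2 4098 r v) v) (k (c 8 4096 (c 2 4098 r v) r) r))))))))))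
 (.s 0x773fbe0070aa22888 4083 (n false (n false (n true (z 55) e) (n true (n false e e) e)) (n false (n false (n false (n false e e) (n false e e)) (n false (n false e e) (n false e e))) (n false e e))) (u 8 4 (k (t 24 1 (u 16 14 (k v (k (c 48 4099 r (t 32 3 v)) (k (u 32 4 (k v (k (t 96 1 (u 64 4 (k v (k v r)))) r))) (k (u 32 4 (k v (k (t 96 1 (u 64 4 (k v (k v r)))) r))) (k (c 3 4099 v (u 32 0 (k r (k r r)))) (k (c 3 4099 v r) r)))))))) (k (t 24 2 (u 16 2 (k v (k (c 4 4082 (u 8 1 (k v (k v r))) v) r)))) r)))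
 (.s 0x773fbe005fd101708 4067 (n false (n false (n true (z 55) e) (n false (n true (n true (n true (n false (n false e e) (n false e e)) e) e) e) e)) (n false (n true (n false e e) e) (n false e e))) (c 10 4090 v (u 8 4 (k r (k r r))))
 .z .z) (.s 0x774aaac0214ebec00 4086 (n false (n false (n true (n false (z 64) (n false e e)) e) (n false (z 89) e)) e) (u 10 4 (k r (k (c 4 4087 r v) (k (u 16 0 (k (c 48 4099 r (u 32 4 (k v (k (c 8 4085 r v) r)))) r)) r))))
 .z .z)) (.s 0x774abe8021cbff800 4089 (n false (n false (n true (z 62) e) (n true (n false (z 24) (n false e e)) e)) e) (u 8 2 (k (u 18 0 (k (t 34 3 (t 50 1 v)) r)) (k (u 18 0 (k (t 34 3 (t 50 1 v)) r)) (k r (k (t 24 1 (u 18 0 (k (t 34 3 (t 50 1 (u 16 26 (k v (k v (k v r)))))) r))) r)))))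
 (.s 0x774abe8021caef800 4089 (n false (n false (n true (z 52) e) (n true (n false (z 24) (n false e e)) e)) e) (u 8 394 (k (u 18 0 (k (t 34 3 (t 50 1 v)) r)) (k (u 18 0 (k (t 34 3 (t 50 1 v)) r)) (k (u 18 0 (k (t 34 3 (t 50 1 v)) r)) (k r (k (c 10 4096 (c 2 4098 r v) v) (k (c 10 4096 (c 2 4098 r v) v) (k (u 18 0 (k (t 34 3 (t 50 1 v)) r)) (k (c 10 4096 (c 2 4098 r v) v) (k (c 10 4096 (c 2 4098 r v) r) r))))))))))
 .z .z) .z)) (.s 0x774ebfc008aa22888 4086 (n false (n false (n true (n false (z 121) e) e) (n false e e)) (n false (n false (n false (n false e e) (n false e e)) (n false (n false e e) (n false e e))) (n false e e))) (u 16 2 (k v (k v (k (c 48 4099 r (u 32 1 (k v (k v r)))) (k (c 32 4095 r (u 48 0 (k v (k v r)))) (k (c 32 4095 r (u 48 0 (k v (k v r)))) r))))))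
 (.s 0x774affc02577c0088 4073 (n false (n false (n true (n false (z 124) (z 52)) e) (n false e e)) (n false e e)) (u 16 5 (k r (k (c 48 4097 r (u 32 1 (k r (k r r)))) (k (c 48 4096 r (u 32 1 (k r (k r r)))) (k (c 32 4098 r (u 48 0 (k r (k r r)))) (k (c 48 4096 r (u 32 1 (k r (k r r)))) (k (c 48 4097 r (u 32 1 (k r (k r r)))) (k (c 48 4097 r (u 32 1 (k r (k r r)))) (k (c 48 4096 r (u 32 1 (k r (k r r)))) (k (c 32 4097 r (u 48 1 (k r (k r r)))) r))))))))))
 (.s 0x774aef8021caef800 4081 (n false (n false (n true (z 52) e) (n true (n false (z 52) (n false e e)) e)) e) (u 18 29 (k r (k r (k (u 8 245 (k v (k v (k v (k v (k v r)))))) (k r r)))))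
 .z .z) (.s 0x774bfb802577c0088 4073 (n false (n false (n true (n false (z 46) (z 52)) e) (n false e e)) (n false e e)) (u 16 2 (k r (k (c 48 4099 r (u 32 0 (k r (k r r)))) (k (u 32 1 (k r (k r r))) (k (u 32 1 (k (u 24 26 (k v (k v (k v r)))) (k (u 24 26 (k v (k v (k v r)))) r))) (k (c 48 4097 r (u 32 1 (k r (k r r)))) (k (c 32 4095 r (u 48 1 (k r (k r r)))) r)))))))
 .z .z)) (.s 0x774ebfc02577c00e0 4077 (n false (n false (n true (n false (z 52) (z 121)) e) (n true (n false e e) e)) e) (u 24 1 (k r (k (c 56 4099 r r) (k (c 40 4097 r (t 16 1 (u 56 1 (k v (k v r))))) (k (c 40 4095 r r) (k (c 40 4095 r r) r))))))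
 (.s 0x774ebfc02577c0088 4073 (n false (n false (n true (n false (z 121) (z 52)) e) (n false e e)) (n false e e)) (u 16 1 (k r (k (c 48 4099 r (u 32 1 (k r (k r r)))) (k (c 32 4097 r (u 48 1 (k r (k r r)))) (k (c 32 4095 r (u 48 0 (k r (k r r)))) (k (c 32 4095 r (u 48 0 (k r (k r r)))) r))))))
 .z .z) .z))))

set_option maxRecDepth 100000 in
def N139 : NT :=
(.s 0x77544511089dd5400 4090 (n false (z 133) (n false (n true (n false (n false (n false (n false e e) (n false e e)) (n false (n false e e) (n false e e))) (n false e e)) e) (n false e e))) (u 2 3 (k v (k (t 4 1 r) (k (t 4 1 r) (k (c 6 4097 r r) (k (c 6 4096 r r) (k (t 6 1 (u 4 1 (k v (k v (k v (k (u 8 1 (k v (k v r))) (k (c 8 4097 r (u 12 0 (k v (k v r)))) (k (c 8 4095 r (u 12 0 (k v (k v r)))) r)))))))) (k (t 6 1 r) (k (t 6 1 r) r)))))))))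
 (.s 0x7752fee00a888e0e0 4061 (n false (n false (n true (n false (n false (z 46) (n false (n false (n false e e) (n false e e)) (n false e e))) (n true (n false e e) e)) e) (n true (n false e e) e)) e) (u 32 2 (k v (k (c 96 4099 r (u 64 0 (k v (k v r)))) (k (u 64 1 (k v (k v r))) (k (u 64 0 (k v (k v r))) (k (c 96 4097 r (u 64 1 (k v (k v r)))) (k (c 64 4095 r (u 96 1 (k v (k v r)))) r)))))))
 (.s 0x774fbec02577c0088 4073 (n false (n false (n true (n false (z 52) (z 91)) e) (n false e e)) (n false e e)) (u 24 5 (k r (k (u 40 1 (k (u 16 26 (k v (k v (k v r)))) (k (u 16 26 (k v (k v (k v r)))) r))) (k (c 40 4097 r (u 56 0 (k r (k r r)))) (k (c 40 4097 r (u 56 0 (k r (k r r)))) (k (c 40 4097 r (u 56 0 (k r (k r r)))) (k (c 40 4096 r (u 56 0 (k r (k r r)))) (k (c 40 4095 r (u 56 0 (k r (k r r)))) r))))))))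
 (.s 0x774eea80275f60088 4084 (n false (n false (n true (n false (z 89) (z 5)) e) (n false e e)) (n false e e)) (t 24 2 (u 16 45 (k v (k v (k v (k v (k (c 48 4110 r r) (k (c 48 4110 r (u 32 1 (k v (k v r)))) (k (t 32 1 (c 24 4094 v (u 48 2 (k v (k v r))))) (k (t 48 2 (c 24 4094 v (u 32 19 (k v (k v (k v r)))))) r))))))))))
 (.s 0x774eea8025ddc00e0 4085 (n false (n false (n true (n false (z 42) (z 5)) e) (n true (n false e e) e)) e) (t 24 1 (u 16 10 (k v (k v (k (t 32 3 (t 48 1 v)) (k (c 8 4090 r v) (k (c 48 4110 r r) (k (c 48 4110 r r) (k (c 48 4110 r (c 40 4101 v (u 32 1 (k v (k v r))))) (k (c 8 4090 (c 3 4099 v r) v) (k (c 48 4110 r (c 40 4101 v (u 32 1 (k v (k v r))))) (k (c 8 4090 r v) (k (c 8 4090 r v) r)))))))))))))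
 .z .z) (.s 0x774eeb802577c0088 4077 (n false (n false (n true (n false (z 52) (z 37)) e) (n false e e)) (n false e e)) (u 24 0 (k (u 16 26 (k v (k v (k v r)))) (k (t 16 1 (u 40 0 (k (t 72 3 (t 104 1 v)) r))) (k (u 40 0 (k (t 72 3 (t 104 1 (u 16 26 (k v (k v (k v r)))))) r)) (k (t 16 1 r) (k r (k r r)))))))
 .z .z)) (.s 0x774fefc027ddc00e0 4082 (n false (n false (n true (n false (z 119) (z 43)) e) (n true (n false e e) e)) e) (t 24 1 (u 16 1 (k (c 48 4101 r r) (k (c 32 4096 r (u 48 0 (k (t 80 3 (t 112 1 v)) r))) (k (c 32 4096 r r) (k (t 32 1 r) (k (c 48 4099 r r) (k (c 48 4097 r r) (k (c 32 4102 r (u 48 0 (k (t 80 3 (t 112 1 v)) r))) (k (c 32 4098 r r) (k (t 48 1 r) (k (c 32 4101 r r) (k (c 32 4099 r r) (k (t 48 1 r) (k (c 32 4101 r r) r)))))))))))))))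
 (.s 0x774fbec02577c00e0 4085 (n false (n false (n true (n false (z 52) (z 91)) e) (n true (n false e e) e)) e) (t 16 1 (u 24 11 (k v (k (u 40 1 (k v (k v r))) (k (c 40 4097 r (u 56 0 (k v (k v r)))) (k (c 40 4097 r (u 56 0 (k v (k v r)))) (k (c 40 4096 r (u 56 0 (k v (k v r)))) (k (c 40 4095 r (u 56 0 (k v (k v r)))) r))))))))
 .z .z) .z)) (.s 0x775445110895dd400 4088 (n false (z 148) (n false (n true (n false (n false (n false (n false e e) (n false e e)) (n false (n false e e) (n false e e))) (n false e e)) e) (n false e e))) (u 2 12 (k v (k (t 6 3 (u 4 1 (k v (k (c 12 4099 r (u 8 1 (k v (k v r)))) (k (c 8 4097 r (c 9 4099 v r)) (k (c 8 4095 r (u 12 0 (k v (k v r)))) (k (c 8 4095 r (u 12 0 (k v (k v r)))) r))))))) (k (c 6 4096 r (c 9 4099 v r)) (k (c 4 4099 r (c 9 4099 v r)) (k (t 6 2 r) (k (t 6 2 r) (k (c 6 4099 r (c 9 4099 v r)) (k (c 6 4101 r (c 9 4099 v r)) r)))))))))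
 (.s 0x77544511052eee008 4085 (n false (n false (z 42) (n false e e)) (n false (n true (n false (n false (n false (n false e e) (n false e e)) (n false (n false e e) (n false e e))) (n false e e)) e) e)) (u 4 85 (k v (k v (k (t 12 1 (u 8 0 (k (u 16 2 (k v (k (c 8 4084 (u 4 1 (k v (k v r))) v) r))) r))) (k (u 8 2 (k v (k v r))) (k (u 8 22 (k v (k v (k v (k v r))))) (k (u 8 19 (k v (k v (k (c 24 4099 r (u 16 1 (k v (k v r)))) (k (c 16 4099 r (u 24 1 (k v (k v r)))) (k (c 16 4095 r (u 24 0 (k v (k v r)))) r)))))) r)))))))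
 (.s 0x7753aff00a888e0e0 4063 (n false (n false (n true (n false (n false (z 121) (n false (n false (n false e e) (n false e e)) (n false e e))) (n true (n false e e) e)) e) (n true (n false e e) e)) e) (u 32 2 (k v (k v (k (c 96 4099 r (u 64 1 (k v (k v r)))) (k (c 64 4095 r (u 96 0 (k v (k v r)))) (k (c 64 4095 r (u 96 0 (k v (k v r)))) r))))))
 .z .z) (.s 0x7754451105cfeec00 4084 (n false (n false (n true (z 87) e) e) (n false (n true (n false (n false (n false (n false e e) (n false e e)) (n false (n false e e) (n false e e))) (n false e e)) e) e)) (c 9 4099 v (u 8 1 (k v (k v r))))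
 .z .z)) (.s 0x77544511089d7d400 4090 (n false (z 153) (n false (n true (n false (n false (n false (n false e e) (n false e e)) (n false (n false e e) (n false e e))) (n false e e)) e) (n false e e))) (u 2 3 (k v (k r (k (t 4 1 r) (k r (k (t 6 1 r) (k (t 6 1 r) r)))))))
 (.s 0x77544511089755400 4091 (n false (z 130) (n false (n true (n false (n false (n false (n false e e) (n false e e)) (n false (n false e e) (n false e e))) (n false e e)) e) (n false e e))) (u 2 1 (k v (k (t 6 1 (u 4 0 (k v (k v (k (c 12 4097 r (u 8 0 (k v (k v r)))) (k (c 12 4096 r (u 8 0 (k v (k v r)))) (k (c 12 4097 r (u 8 0 (k v (k v r)))) (k (c 12 4099 r (u 8 0 (k v (k v r)))) r)))))))) (k (t 6 1 (u 4 11 (k v (k v (k v (k (c 12 4097 r r) (k (c 8 4095 r r) (k (c 8 4095 r (u 12 3 (k v (k v (k v r))))) (k (c 12 4095 r (u 8 0 (k v (k v r)))) (k (c 8 4095 r r) (k (c 8 4095 r (u 12 0 (k v (k v r)))) r))))))))))) r))))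
 .z .z) .z))) (.s 0x77544511095554008 4088 (n false (n false (z 128) (n true (n false (n false (n false (n false e e) (n false e e)) (n false (n false e e) (n false e e))) (n false e e)) e)) (n false e e)) (u 4 10 (k v (k v (k (c 12 4097 r r) (k (c 12 4099 r r) (k (c 8 4096 r r) (k (c 12 4097 r r) (k (c 12 4097 r r) (k (c 8 4095 r (u 12 0 (k v (k v r)))) (k (c 8 4099 r r) (k (c 12 4097 r (u 8 1 (k v (k v r)))) (k (c 8 4098 r r) (k (c 8 4099 r r) (k (c 12 4095 r (u 8 1 (k v (k v r)))) (k (c 8 4097 r (u 12 0 (k v (k v r)))) (k (c 12 4097 r (u 8 1 (k v (k v (k v (k (t 24 1 (c 10 4099 v r)) r)))))) (k (c 8 4099 r r) (k (c 8 4095 r (u 12 1 (k v (k v r)))) (k (c 8 4097 r r) r)))))))))))))))))))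
 (.s 0x7754451108e5ddc00 4086 (n false (n true (z 42) e) (n false (n true (n false (n false (n false (n false e e) (n false e e)) (n false (n false e e) (n false e e))) (n false e e)) e) (n false e e))) (c 9 4099 v (u 4 1 (k v (k v r))))
 (.s 0x77544511089dfd400 4093 (n false (z 157) (n false (n true (n false (n false (n false (n false e e) (n false e e)) (n false (n false e e) (n false e e))) (n false e e)) e) (n false e e))) (u 2 1 (k v (k v (k (t 6 1 (u 4 0 (k v (k (c 12 4099 r (u 8 0 (k v (k v r)))) r)))) r))))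
 (.s 0x77544511089df5400 4091 (n false (z 141) (n false (n true (n false (n false (n false (n false e e) (n false e e)) (n false (n false e e) (n false e e))) (n false e e)) e) (n false e e))) (u 2 4 (k v (k (t 6 3 (u 4 8 (k v (k (c 12 4099 r (u 8 13 (k v (k v (k v (k (t 24 2 (u 16 20 (k v (k v (k v r))))) r)))))) r)))) (k (c 6 4099 r (c 9 4099 v (u 4 0 (k (u 8 0 (k v (k v r))) r)))) (k (t 6 1 (u 4 0 (k (c 12 4100 r r) (k (c 8 4098 r r) (k (c 12 4100 r (c 9 4099 v r)) r))))) r)))))
 .z .z) (.s 0x7754451108a5fd400 4091 (n false (n false (n true (n false (n false (n false (n false e e) (n false e e)) (n false (n false e e) (n false e e))) (n false e e)) e) (n false e e)) (n false (z 14) e)) (c 8 4099 v (u 5 0 (k v (k v r))))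
 .z .z)) (.s 0x7754451108e7d5600 4089 (n false (n true (z 67) e) (n false (n true (n false (n false (n false (n false e e) (n false e e)) (n false (n false e e) (n false e e))) (n false e e)) e) (n false e e))) (c 9 4099 v (u 4 0 (k v (k v r))))
 (.s 0x7754451108e5fd400 4083 (n false (n true (z 14) e) (n false (n true (n false (n false (n false (n false e e) (n false e e)) (n false (n false e e) (n false e e))) (n false e e)) e) (n false e e))) (c 9 4099 v (u 4 0 (k v (k v r))))
 .z .z) .z)) (.s 0x7754451109d7f8050 4081 (n false (n false (z 121) (n true (n false (n false (n false (n false e e) (n false e e)) (n false (n false e e) (n false e e))) (n false e e)) e)) (n false (n false e e) e)) (u 4 1 (k v (k (c 12 4099 r (u 8 1 (k v (k v r)))) (k (c 8 4097 r (u 12 1 (k v (k v r)))) (k (c 8 4095 r (u 12 0 (k v (k v r)))) (k (c 8 4095 r (u 12 0 (k v (k v r)))) r))))))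
 (.s 0x77544511095ff8050 4081 (n false (n false (z 124) (n true (n false (n false (n false (n false e e) (n false e e)) (n false (n false e e) (n false e e))) (n false e e)) e)) (n false (n false e e) e)) (u 4 1 (k v (k (c 12 4097 r (u 8 1 (k v (k v r)))) (k (c 12 4096 r (u 8 1 (k v (k v r)))) (k (c 8 4098 r (u 12 0 (k v (k v r)))) (k (c 12 4096 r (u 8 1 (k v (k v r)))) (k (c 12 4097 r (u 8 1 (k v (k v r)))) (k (c 12 4097 r (u 8 1 (k v (k v r)))) (k (c 12 4096 r (u 8 1 (k v (k v r)))) (k (c 12 4099 r (u 8 1 (k v (k v r)))) (k (c 8 4097 r (u 12 1 (k v (k v r)))) r)))))))))))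
 (.s 0x77544511095fd4008 4088 (n false (n false (z 156) (n true (n false (n false (n false (n false e e) (n false e e)) (n false (n false e e) (n false e e))) (n false e e)) e)) (n false e e)) (u 4 1 (k v (k (c 12 4099 r (u 8 1 (k v (k v r)))) (k (c 8 4098 r (u 12 1 (k v (k v r)))) (k (c 8 4097 r r) (k (c 8 4099 r (u 12 1 (k v (k v r)))) (k (c 8 4095 r (c 10 4099 v r)) r)))))))
 .z .z) (.s 0x77544511097f70050 4081 (n false (n false (z 46) (n true (n false (n false (n false (n false e e) (n false e e)) (n false (n false e e) (n false e e))) (n false e e)) e)) (n false (n false e e) e)) (u 4 0 (k v (k (u 8 1 (k v (k v r))) (k (u 8 1 (k v (k v r))) (k (c 12 4099 r (u 8 0 (k v (k v r)))) (k (c 12 4097 r (u 8 1 (k v (k v r)))) (k (c 8 4095 r (u 12 1 (k v (k v r)))) r)))))))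
 .z .z)) (.s 0x7754451109f7d8050 4082 (n false (n false (z 91) (n true (n false (n false (n false (n false e e) (n false e e)) (n false (n false e e) (n false e e))) (n false e e)) e)) (n false (n false e e) e)) (u 4 23 (k v (k v (k v (k (u 8 1 (k v (k v r))) (k (c 8 4097 r (u 12 0 (k v (k v r)))) (k (c 8 4097 r (u 12 0 (k v (k v r)))) (k (c 8 4095 r (u 12 0 (k v (k v r)))) r))))))))
 (.s 0x7754451109ddd8050 4081 (n false (n false (z 85) (n true (n false (n false (n false (n false e e) (n false e e)) (n false (n false e e) (n false e e))) (n false e e)) e)) (n false (n false e e) e)) (u 4 4 (k v (k (c 12 4099 r r) (k (t 12 1 (u 8 2 (k v (k (t 24 2 (c 12 4099 v (u 16 2 (k v (k (c 4 4082 (u 8 1 (k v (k v r))) v) r))))) r)))) (k (c 12 4099 r (u 8 1 (k v (k v (k v (k (t 24 1 (u 16 26 (k v (k v (k v r))))) r)))))) (k (u 8 5 (k v (k v (k v (k (t 24 2 (u 16 26 (k v (k v (k v r))))) r))))) (k (c 12 4096 r (c 10 4099 v r)) (k (c 8 4099 r r) r))))))))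
 .z .z) .z))))

set_option maxRecDepth 100000 in
def N140 : NT :=
(.s 0x7754ebac038382288 4071 (n false (n false (n true (n false (n false (n false (z 73) (n true (n false e e) e)) e) (n true (n false e e) e)) e) (n false e e)) (n false (n false e e) (n false e e))) (c 4 4070 (u 16 0 (k (u 32 0 (k v (k v r))) r)) v)
 (.s 0x775445110e13eae00 4089 (n false (n false (n true (n false (n false (n false (n false e e) (n false e e)) (n false (n false e e) (n false e e))) (n false e e)) e) (n true (n false e e) e)) (z 35)) (u 3 2 (k v (k v (k v (k (t 7 1 (u 5 0 (k (t 9 3 (t 13 1 v)) r))) r)))))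
 (.s 0x775445110e12eaf00 4087 (n false (z 98) (n false (n true (n false (n false (n false (n false e e) (n false e e)) (n false (n false e e) (n false e e))) (n false e e)) e) (n true (n false e e) e))) (u 2 1 (k v (k v (k v (k (t 6 1 (c 9 4099 v r)) r)))))
 (.s 0x775445110a7f56008 4088 (n false (n false (n false (z 71) e) (n true (n false (n false (n false (n false e e) (n false e e)) (n false (n false e e) (n false e e))) (n false e e)) e)) (n false e e)) (u 8 9 (k v (k v (k (t 24 2 (u 16 24 (k v (k v (k v (k v (k (c 48 4110 r r) (k (c 48 4110 r r) (k (c 48 4110 r (c 10 4099 v (u 32 1 (k v (k v r))))) (k (c 48 4110 r (c 10 4099 v (u 32 1 (k v (k v r))))) r)))))))))) (k (c 6 4110 v (c 2 4077 r v)) r)))))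
 (.s 0x775445110a5775000 4094 (n false (n false (n false (z 148) e) (n true (n false (n false (n false (n false e e) (n false e e)) (n false (n false e e) (n false e e))) (n false e e)) e)) e) (c 10 4099 v (u 8 2 (k v (k v (k (t 24 3 (u 16 28 (k v (k v (k (c 48 4099 r (u 32 1 (k v (k v r)))) (k (c 32 4095 r (u 48 0 (k v (k v r)))) (k (c 32 4095 r (u 48 0 (k v (k v r)))) r))))))) (k (c 24 4096 r r) (k (c 16 4099 r r) (k (c 24 4099 r r) (k (c 24 4101 r r) r)))))))))
 .z .z) (.s 0x775445110e12bbe00 4083 (n false (n false (n true (n false (n false (n false (n false e e) (n false e e)) (n false (n false e e) (n false e e))) (n false e e)) e) (n true (n false e e) e)) (z 52)) (u 3 44 (k v (k v (k v (k v (k v (k v (k v (k (t 7 1 (u 5 0 (k v (k v r)))) r)))))))))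
 .z .z)) (.s 0x775445110e12ffe00 4085 (n false (z 62) (n false (n true (n false (n false (n false (n false e e) (n false e e)) (n false (n false e e) (n false e e))) (n false e e)) e) (n true (n false e e) e))) (u 2 7 (k v (k v (k v (k (t 6 1 r) r)))))
 (.s 0x775445110e12eee00 4084 (n false (z 42) (n false (n true (n false (n false (n false (n false e e) (n false e e)) (n false (n false e e) (n false e e))) (n false e e)) e) (n true (n false e e) e))) (u 2 29 (k v (k v (k (t 6 1 (c 3 4095 v r)) (k (u 4 2 (k v (k v r))) (k (c 9 4099 v r) (k (c 9 4099 v r) r)))))))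
 .z .z) .z)) (.s 0x775445110e77dc008 4084 (n false (n false (n true (z 45) e) (n true (n false (n false (n false (n false e e) (n false e e)) (n false (n false e e) (n false e e))) (n false e e)) e)) (n false e e)) (u 8 8 (k v (k v (k (t 24 1 (u 16 10 (k v (k v (k v (k (c 2 4084 (u 16 0 (k (t 32 3 (t 48 1 v)) r)) v) (k (u 32 9 (k v (k v (k (t 96 1 (u 64 0 (k (t 128 3 (t 192 1 v)) r))) r)))) (k (u 32 7 (k v (k v r))) r)))))))) r))))
 (.s 0x775445110e5ddc008 4077 (n false (n false (n true (z 42) e) (n true (n false (n false (n false (n false e e) (n false e e)) (n false (n false e e) (n false e e))) (n false e e)) e)) (n false e e)) (u 8 2 (k v (k r (k r (k r (k (c 10 4099 v r) (k (c 10 4099 v r) r)))))))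
 (.s 0x775445110e577c008 4084 (n false (n false (n true (z 52) e) (n true (n false (n false (n false (n false e e) (n false e e)) (n false (n false e e) (n false e e))) (n false e e)) e)) (n false e e)) (u 8 44 (k v (k v (k v (k v (k v (k v (k v (k (t 24 1 (u 16 0 (k v (k v r)))) r)))))))))
 .z .z) (.s 0x775445110e5ffc008 4084 (n false (n false (n true (z 62) e) (n true (n false (n false (n false (n false e e) (n false e e)) (n false (n false e e) (n false e e))) (n false e e)) e)) (n false e e)) (u 8 7 (k v (k v (k v (k (t 24 1 (u 16 41 (k v (k v (k (t 48 1 (u 32 2 (k v (k v r)))) r))))) r)))))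
 .z .z)) (.s 0x775445110e7f7c008 4084 (n false (n false (n true (z 55) e) (n true (n false (n false (n false (n false e e) (n false e e)) (n false (n false e e) (n false e e))) (n false e e)) e)) (n false e e)) (u 8 4 (k (t 24 1 (u 16 14 (k v (k (c 48 4099 r (t 32 3 v)) (k (u 32 4 (k v (k (t 96 1 (u 64 2 (k v (k v r)))) r))) (k (u 32 4 (k v (k (t 96 1 (u 64 4 (k v (k v r)))) r))) (k r (k r r)))))))) (k (t 24 2 (u 16 2 (k v (k (u 32 8 (k v (k v (k v r)))) r)))) r)))
 (.s 0x775445110e7d7c008 4084 (n false (n false (n true (z 51) e) (n true (n false (n false (n false (n false e e) (n false e e)) (n false (n false e e) (n false e e))) (n false e e)) e)) (n false e e)) (u 8 0 (k (t 24 1 (u 16 0 (k (t 32 3 (t 48 3 v)) r))) r))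
 .z .z) .z))) (.s 0x7772fea0055114440 4073 (n false (n false (n true (n false (n true (z 14) e) (n false (n false (n false (n false e e) (n false e e)) (n false (n false e e) (n false e e))) (n false e e))) e) e) e) (c 40 4101 v (u 32 0 (k v (k v r))))
 (.s 0x77572bfa800843850 4065 (n false (n false (n true (n false (n false (n false (n true (z 156) e) (n false e e)) e) (n false e e)) e) (n true (n false e e) e)) (n false (n false e e) e)) (u 128 2 (k v (k (c 384 4099 r (u 256 1 (k v (k v r)))) (k (c 256 4095 r (u 384 0 (k v (k v r)))) r))))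
 (.s 0x7755caef800843850 4059 (n false (n false (n true (n false (n false (n false (n false (n true (z 52) e) e) (n false e e)) e) (n false e e)) e) (n true (n false e e) e)) (n false (n false e e) e)) (u 256 238 (k v (k v (k v (k v (k v (k v (k v r))))))))
 (.s 0x7754eeec0210ee108 4064 (n false (n false (n true (n false (n false (n false (z 85) (n false e e)) e) (n false e e)) e) (n true (n false (n true (n false e e) e) (n false e e)) e)) (n false e e)) (u 64 4 (k v (k (c 192 4099 r r) (k (c 192 4099 r r) (k (c 192 4099 r (u 128 1 (k v (k v (k v (k (t 384 1 r) r)))))) (k (u 128 5 (k v (k v (k v (k (t 384 2 (u 256 6 (k v (k v (k (t 768 1 (u 512 2 (k v (k v r)))) r))))) r))))) (k (c 192 4096 r r) (k (c 128 4099 r r) r))))))))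
 .z .z) (.s 0x77572bbe004211708 4067 (n false (n false (n true (n false (n false (n false (n true (z 52) e) (n false e e)) e) (n false e e)) e) (n false e e)) (n false (n true (n false e e) e) (n false e e))) (u 128 16 (k v (k v (k v (k v (k v r))))))
 .z .z)) (.s 0x7757caef800843850 4060 (n false (n false (n true (n false (n false (n false (n true (n true (z 52) e) e) (n false e e)) e) (n false e e)) e) (n true (n false e e) e)) (n false (n false e e) e)) (u 256 237 (k v (k v (k v (k v (k v (k v (k v r))))))))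
 (.s 0x77573bee004382288 4076 (n false (n false (n true (n false (n false (n false (n true (z 45) e) (n false e e)) e) (n true (n false e e) e)) e) (n false e e)) (n false (n false e e) (n false e e))) (u 128 4 (k v (k (t 384 1 (u 256 7 (k v (k (u 512 28 (k v (k v (k v r)))) (k (c 4 4079 r v) (k (c 4 4079 (u 128 3 (k v (k v r))) v) r)))))) r)))
 .z .z) .z)) (.s 0x77cafea000a5ddc00 4093 (n false (n false (z 42) e) (n false (n true (n true (z 156) e) e) e)) (u 17 14 (k (u 4 1 (k v (k v r))) (k (u 4 1 (k v (k v r))) (k (c 49 4099 r r) (k (c 33 4099 r r) (k (c 33 4095 r r) r))))))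
 (.s 0x777572bfa80084380 4064 (n false (n false (n true (n false (n true (n false (n false (n false (n true (z 156) e) (n false e e)) e) (n false e e)) e) (n true (n false e e) e)) e) e) e) (u 512 2 (k v (k (c 1536 4099 r (u 1024 1 (k v (k v r)))) (k (c 1024 4095 r (u 1536 0 (k v (k v r)))) r))))
 (.s 0x77755caef80084380 4060 (n false (n false (n true (n false (n true (n false (n false (n false (n false (n true (z 52) e) e) (n false e e)) e) (n false e e)) e) (n true (n false e e) e)) e) e) e) (u 1024 238 (k v (k v (k v (k v (k v (k v (k v r))))))))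
 .z .z) (.s 0x77757caef80084380 4061 (n false (n false (n true (n false (n true (n false (n false (n false (n true (n true (z 52) e) e) (n false e e)) e) (n false e e)) e) (n true (n false e e) e)) e) e) e) (u 1024 237 (k v (k v (k v (k v (k v (k v (k v r))))))))
 .z .z)) (.s 0x77cbae800e12afe00 4083 (n false (z 56) (n false (n true (n true (z 18) e) e) (n true (n false e e) e))) (u 17 0 (k (u 2 0 (k (u 4 254 (k (u 33 0 (k v (k v r))) (k (u 33 0 (k v (k v r))) (k (u 33 0 (k v (k v r))) (k (t 12 1 (u 33 0 (k (u 8 0 (k v (k v r))) (k (u 8 0 (k v (k v r))) r)))) r))))) (k (c 4 4096 r r) (k r (k (c 6 4096 r (u 33 0 (k r (k r r)))) r))))) r))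
 (.s 0x77cbae800895fd400 4082 (n false (n false (n true (n true (z 18) e) e) (n false e e)) (z 156)) (u 3 5 (k r (k (u 16 0 (k (u 32 3 (k v (k v (k v r)))) r)) (k (c 7 4099 r (u 5 1 (k r (k r r)))) (k (c 5 4098 r (u 7 1 (k r (k r r)))) (k (c 5 4097 r (u 7 1 (k r (k r r)))) (k (c 5 4099 r (u 7 1 (k r (k r r)))) r)))))))
 .z .z) .z))))

set_option maxRecDepth 100000 in
def N141 : NT :=
(.s 0x77d511444112efb00 4085 (n false (z 90) (n false (n true (n true (n false (n false (n false (n false e e) (n false e e)) (n false (n false e e) (n false e e))) (n false e e)) e) e) (n false e e))) (u 2 15 (k v (k r (k r (k r (k (c 6 4097 r r) (k (c 6 4096 r r) (k (c 6 4097 r r) (k (c 6 4095 r r) (k (c 4 4095 r r) r))))))))))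
 (.s 0x77d3fbe009dd50010 4082 (n false (n false (n true (n true (n false (z 55) (z 5)) e) e) (n false e e)) e) (t 48 1 (u 32 4 (k (t 96 1 (u 64 9 (k v (k v (k v (k (u 128 4 (k v (k (t 384 1 (u 256 2 (k v (k v r)))) r))) (k (c 8 4085 (c 6 4099 v r) v) r))))))) (k (t 96 2 (c 48 4099 v r)) r))))
 (.s 0x77cebfc00e12afe00 4088 (n false (z 56) (n false (n true (n true (z 121) e) e) (n true (n false e e) e))) (u 17 1 (k r (k (c 49 4099 r (u 33 1 (k r (k r r)))) (k (c 33 4097 r r) (k (c 33 4095 r (u 49 0 (k r (k r r)))) (k (c 33 4095 r (u 49 0 (k r (k r r)))) r))))))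
 (.s 0x77cbfb80075445110 4093 (n false (n false (n true (n true (z 46) e) e) e) (n true (n false (n false (n false (n false e e) (n false e e)) (n false (n false e e) (n false e e))) (n false e e)) e)) (u 16 1 (k v (k (u 32 1 (k v (k v r))) (k (c 48 4099 r (u 32 0 (k v (k v r)))) (k (u 32 1 (k v (k v r))) (k (c 48 4097 r (u 32 1 (k v (k v r)))) (k (c 32 4095 r (u 48 1 (k v (k v r)))) r)))))))
 (.s 0x77cbfa800ea88a220 4084 (n false (n false (n true (n true (z 14) e) e) (n true (n false (n false (n false (n false e e) (n false e e)) (n false (n false e e) (n false e e))) (n false e e)) e)) e) (c 10 4099 v (u 16 0 (k v (k v r))))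
 .z .z) (.s 0x77cebfc0075445110 4093 (n false (n false (n true (n true (z 121) e) e) e) (n true (n false (n false (n false (n false e e) (n false e e)) (n false (n false e e) (n false e e))) (n false e e)) e)) (u 16 1 (k v (k (c 48 4099 r (u 32 1 (k v (k v r)))) (k (c 32 4097 r (u 48 1 (k v (k v r)))) (k (c 32 4095 r (u 48 0 (k v (k v r)))) (k (c 32 4095 r (u 48 0 (k v (k v r)))) r))))))
 .z .z)) (.s 0x77ceeb800e12afe00 4088 (n false (z 56) (n false (n true (n true (z 37) e) e) (n true (n false e e) e))) (u 17 23 (k (c 2 4096 r v) (k (u 2 1 (k (u 4 1 (k v (k v r))) (k (u 4 254 (k v (k v (k v (k (t 12 1 (u 8 7 (k v (k v r)))) r))))) (k (c 4 4096 r (u 6 0 (k v (k v r)))) (k (c 6 4096 r r) r))))) (k (c 2 4096 r (u 33 0 (k (t 65 3 (t 97 1 v)) r))) (k (c 2 4096 r r) (k (c 2 4096 r r) r))))))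
 (.s 0x77cebfc00e1d44510 4085 (n false (n false (n true (n true (z 121) e) e) (n true (n false e e) e)) (n true (n false (n false (n false e e) (n false e e)) (n false (n false e e) (n false e e))) e)) (u 16 42 (k v (k v (k (c 48 4099 r (u 32 1 (k v (k v r)))) (k (c 32 4097 r (u 48 1 (k v (k v r)))) (k (c 32 4095 r (u 48 0 (k v (k v r)))) (k (c 32 4095 r (u 48 0 (k v (k v r)))) r)))))))
 .z .z) .z)) (.s 0x77d511444112bff00 4085 (n false (z 124) (n false (n true (n true (n false (n false (n false (n false e e) (n false e e)) (n false (n false e e) (n false e e))) (n false e e)) e) e) (n false e e))) (u 2 4 (k v (k v (k (c 6 4097 r (u 4 1 (k v (k v r)))) (k (c 6 4096 r (u 4 1 (k v (k v r)))) (k (c 4 4098 r (u 6 0 (k v (k v r)))) (k (c 6 4096 r (u 4 1 (k v (k v r)))) (k (c 6 4097 r (u 4 1 (k v (k v r)))) (k (c 6 4097 r (u 4 1 (k v (k v r)))) (k (c 6 4096 r (u 4 1 (k v (k v r)))) (k (c 4 4097 r (u 6 1 (k v (k v r)))) r)))))))))))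
 (.s 0x77d5114440e7dfe00 4095 (n false (n true (z 123) e) (n false (n true (n true (n false (n false (n false (n false e e) (n false e e)) (n false (n false e e) (n false e e))) (n false e e)) e) e) e)) (u 4 37 (k v (k v (k v (k (c 12 4099 r (u 8 0 (k v (k v (k v (k (t 24 2 (u 16 26 (k v (k v (k v r))))) r)))))) (k (u 8 26 (k v (k (t 24 1 (u 16 26 (k v (k v (k v r))))) (k (c 24 4097 r (u 16 56 (k v (k v (k (c 48 4099 r (u 32 1 (k v (k v r)))) (k (c 32 4095 r (u 48 0 (k v (k v r)))) (k (c 32 4095 r (u 48 0 (k v (k v r)))) r))))))) (k (c 24 4097 r (u 16 2 (k v (k (c 48 4099 r (u 32 1 (k v (k v r)))) (k (c 32 4095 r (u 48 0 (k v (k v r)))) r))))) r))))) r))))))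
 (.s 0x77d5114440a577c00 4092 (n false (n false (n true (n true (n false (n false (n false (n false e e) (n false e e)) (n false (n false e e) (n false e e))) (n false e e)) e) e) e) (n false (z 52) e)) (u 5 12 (k v (k v (k v (k v (k v (k v (k (t 13 1 (u 9 0 (k v (k v r)))) r))))))))
 .z .z) (.s 0x77d511444112afe00 4083 (n false (n false (n true (n true (n false (n false (n false (n false e e) (n false e e)) (n false (n false e e) (n false e e))) (n false e e)) e) e) (n false e e)) (z 56)) (u 3 0 (k r (k (c 5 4096 r (u 7 0 (k v (k v r)))) (k (u 5 1 (k v (k v r))) (k (c 7 4096 r r) r)))))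
 .z .z)) (.s 0x77d511444112efa00 4085 (n false (n false (n true (n true (n false (n false (n false (n false e e) (n false e e)) (n false (n false e e) (n false e e))) (n false e e)) e) e) (n false e e)) (z 26)) (u 3 9 (k v (k v (k (c 2 4095 v (u 5 1 (k v (k v r)))) r))))
 (.s 0x77d511444112ebe00 4083 (n false (z 50) (n false (n true (n true (n false (n false (n false (n false e e) (n false e e)) (n false (n false e e) (n false e e))) (n false e e)) e) e) (n false e e))) (u 2 1 (k v (k (c 6 4097 r (u 4 0 (k v (k v r)))) r)))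
 .z .z) .z))) (.s 0x77d511444113efb00 4085 (n false (z 91) (n false (n true (n true (n false (n false (n false (n false e e) (n false e e)) (n false (n false e e) (n false e e))) (n false e e)) e) e) (n false e e))) (u 2 2 (k v (k v (k (u 4 1 (k v (k v r))) (k (c 4 4097 r (u 6 0 (k v (k v r)))) (k (c 4 4097 r (u 6 0 (k v (k v r)))) (k (c 4 4096 r (u 6 0 (k v (k v r)))) (k (c 4 4095 r (u 6 0 (k v (k v r)))) r))))))))
 (.s 0x77d511444113bae00 4087 (n false (n false (n true (n true (n false (n false (n false (n false e e) (n false e e)) (n false (n false e e) (n false e e))) (n false e e)) e) e) (n false e e)) (z 37)) (u 3 20 (k v (k (u 5 0 (k (t 9 3 (t 13 1 v)) r)) (k r (k (u 5 6 (k v (k (t 13 1 (u 9 10 (k v (k v r)))) r))) (k (u 5 0 (k (t 9 3 (t 13 1 v)) r)) (k (u 5 0 (k v (k v (k (t 13 1 (u 9 0 (k (t 17 3 (t 25 1 v)) r))) r)))) r)))))))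
 (.s 0x77d511444112fee00 4085 (n false (z 46) (n false (n true (n true (n false (n false (n false (n false e e) (n false e e)) (n false (n false e e) (n false e e))) (n false e e)) e) e) (n false e e))) (u 2 0 (k v (k (u 4 1 (k v (k v r))) (k (u 4 1 (k v (k v r))) (k (c 6 4099 r (u 4 0 (k v (k v r)))) (k (c 6 4097 r (u 4 1 (k v (k v r)))) (k (c 4 4095 r (u 6 1 (k v (k v r)))) r)))))))
 (.s 0x77d511444112fbf00 4089 (n false (z 118) (n false (n true (n true (n false (n false (n false (n false e e) (n false e e)) (n false (n false e e) (n false e e))) (n false e e)) e) e) (n false e e))) (u 2 4 (k v (k (t 6 1 r) (k (c 3 4095 v (t 6 1 r)) r))))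
 .z .z) (.s 0x77d511444113aff00 4087 (n false (z 121) (n false (n true (n true (n false (n false (n false (n false e e) (n false e e)) (n false (n false e e) (n false e e))) (n false e e)) e) e) (n false e e))) (u 2 3 (k v (k v (k (c 6 4099 r (u 4 1 (k v (k v r)))) (k (c 4 4097 r (u 6 1 (k v (k v r)))) r)))))
 .z .z)) (.s 0x77d511444113eee00 4084 (n false (n false (n true (n true (n false (n false (n false (n false e e) (n false e e)) (n false (n false e e) (n false e e))) (n false e e)) e) e) (n false e e)) (z 43)) (u 3 5 (k v (k r (k r (k (c 7 4099 r (u 5 0 (k (u 9 0 (k v (k v r))) r))) (k (c 16 4099 v r) (k (u 5 0 (k (u 9 0 (k v (k v r))) r)) (k r (k r r)))))))))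
 (.s 0x77d511444113bbb00 4085 (n false (z 85) (n false (n true (n true (n false (n false (n false (n false e e) (n false e e)) (n false (n false e e) (n false e e))) (n false e e)) e) e) (n false e e))) (u 2 4 (k v (k (c 6 4099 r r) (k (c 6 4099 r r) (k (c 6 4099 r r) (k (c 17 4099 v r) (k (c 6 4096 r r) (k (c 4 4099 r r) r))))))))
 .z .z) .z)) (.s 0x77d51144414feac00 4089 (n false (n false (n false (z 71) e) (n true (n true (n false (n false (n false (n false e e) (n false e e)) (n false (n false e e) (n false e e))) (n false e e)) e) e)) e) (u 8 1 (k v (k (c 24 4099 r (u 16 1 (k v (k v r)))) (k (u 16 0 (k v (k v r))) (k (c 16 4099 r (u 24 1 (k v (k v r)))) (k (c 16 4099 r (u 24 1 (k v (k v r)))) (k (c 16 4099 r (u 24 1 (k v (k v r)))) r)))))))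
 (.s 0x77d511444113fab00 4085 (n false (z 71) (n false (n true (n true (n false (n false (n false (n false e e) (n false e e)) (n false (n false e e) (n false e e))) (n false e e)) e) e) (n false e e))) (u 2 6 (k (t 6 1 r) (k (u 4 105 (k v (k v (k v (k (c 8 4101 r r) (k (c 2 4088 r v) (k (c 12 4101 r r) (k (c 12 4102 r r) (k (c 8 4101 r r) (k (c 8 4101 r r) r)))))))))) (k (u 4 6 (k v (k (c 12 4101 r (u 8 1 (k v (k v r)))) (k (c 8 4101 r (u 12 1 (k v (k v r)))) (k (c 8 4101 r (u 12 1 (k v (k v r)))) r))))) (k (c 6 4100 r r) (k (t 6 1 (c 17 4099 v r)) (k (c 6 4100 r r) r)))))))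
 (.s 0x77d511444113eff00 4083 (n false (z 123) (n false (n true (n true (n false (n false (n false (n false e e) (n false e e)) (n false (n false e e) (n false e e))) (n false e e)) e) e) (n false e e))) (u 2 49 (k v (k v (k r (k r (k (c 17 4099 v r) (k r (k (t 6 1 (c 17 4099 v r)) (k (t 6 2 (c 17 4099 v r)) (k (c 6 4097 r r) r))))))))))
 .z .z) (.s 0x77d511444113feb00 4087 (n false (z 79) (n false (n true (n true (n false (n false (n false (n false e e) (n false e e)) (n false (n false e e) (n false e e))) (n false e e)) e) e) (n false e e))) (u 2 1 (k v (k r (k (c 6 4096 r (u 4 1 (k v (k v r)))) r))))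
 .z .z)) (.s 0x77d5114441cebfc00 4087 (n false (n false (n true (z 121) e) (n true (n true (n false (n false (n false (n false e e) (n false e e)) (n false (n false e e) (n false e e))) (n false e e)) e) e)) e) (u 8 3 (k v (k v (k (c 24 4099 r (u 16 1 (k v (k v r)))) (k (c 16 4097 r (u 24 1 (k v (k v r)))) r)))))
 (.s 0x77d5114441cbfb800 4087 (n false (n false (n true (z 46) e) (n true (n true (n false (n false (n false (n false e e) (n false e e)) (n false (n false e e) (n false e e))) (n false e e)) e) e)) e) (u 8 1 (k v (k (u 16 1 (k v (k v r))) (k (c 24 4099 r (u 16 0 (k v (k v r)))) (k (u 16 1 (k v (k v r))) (k (c 24 4097 r (u 16 1 (k v (k v r)))) (k (c 16 4095 r (u 24 1 (k v (k v r)))) r)))))))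
 .z .z) .z))))

set_option maxRecDepth 100000 in
def N142 : NT :=
(.s 0x77fd5f2bbe0021010 4067 (n false (n false (n true (n true (n true (n true (n false (n false (n false (n true (n true (z 52) e) e) (n false e e)) e) (n false e e)) e) e) e) e) (n false e e)) e) (u 2048 22 (k v (k v (k v (k v (k v (k v (k v (k (t 6144 2 (u 4096 0 (k (u 8192 2 (k v (k (c 1024 4078 (u 16 1 (k v (k v r))) v) r))) r))) (k (t 6144 1 (u 4096 0 (k (c 12288 4099 r (u 8192 2 (k v (k (c 1024 4078 (u 16 1 (k v (k v r))) v) r)))) r))) r))))))))))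
 (.s 0x77f3eab000a5ddc00 4094 (n false (n false (n true (n true (n true (z 67) e) e) e) e) (n false (z 42) e)) (u 32 0 (k (u 5 1 (k v (k v r))) (k (u 5 1 (k v (k v r))) r)))
 (.s 0x77d5cebfc010823a0 4064 (n false (n false (n true (n true (n false (n false (n false (n true (z 121) e) (n false e e)) e) (n false e e)) e) e) (n false e e)) (n true (n false (n false e e) e) e)) (u 256 2 (k v (k v (k (c 768 4099 r (u 512 1 (k v (k v r)))) (k (c 512 4095 r (u 768 0 (k v (k v r)))) (k (c 512 4095 r (u 768 0 (k v (k v r)))) r))))))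
 (.s 0x77d5cbaf8010823a0 4064 (n false (n false (n true (n true (n false (n false (n false (n true (z 50) e) (n false e e)) e) (n false e e)) e) e) (n false e e)) (n true (n false (n false e e) e) e)) (u 256 2 (k v (k (c 768 4097 r (u 512 0 (k v (k v r)))) r)))
 (.s 0x77d5caef8010823a0 4062 (n false (n false (n true (n true (n false (n false (n false (n true (z 52) e) (n false e e)) e) (n false e e)) e) e) (n false e e)) (n true (n false (n false e e) e) e)) (u 256 302 (k v (k v (k v (k v (k v (k v (k v r))))))))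
 .z .z) (.s 0x77d5cbfb8010823a0 4064 (n false (n false (n true (n true (n false (n false (n false (n true (z 46) e) (n false e e)) e) (n false e e)) e) e) (n false e e)) (n true (n false (n false e e) e) e)) (u 256 17 (k v (k v (k (u 512 1 (k v (k v r))) (k (u 512 26 (k v (k v r))) (k (c 768 4097 r (u 512 1 (k v (k v r)))) (k (c 512 4095 r (u 768 1 (k v (k v r)))) r)))))))
 .z .z)) (.s 0x77d5cfefc010823a0 4066 (n false (n false (n true (n true (n false (n false (n false (n true (z 119) e) (n false e e)) e) (n false e e)) e) e) (n false e e)) (n true (n false (n false e e) e) e)) (u 256 33 (k v (k v (k (c 768 4101 r r) (k (c 768 4099 r r) (k (c 768 4096 r (u 512 0 (k (u 1024 126 (k v (k v (k v r)))) r))) (k (c 512 4101 r r) (k (c 512 4099 r r) (k (c 512 4101 r r) r)))))))))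
 (.s 0x77d5cfef8010823a0 4062 (n false (n false (n true (n true (n false (n false (n false (n true (z 55) e) (n false e e)) e) (n false e e)) e) e) (n false e e)) (n true (n false (n false e e) e) e)) (u 256 2 (k v (k (c 128 4091 (t 6 2 r) v) r)))
 .z .z) .z)) (.s 0x77fd572bbe0021010 4066 (n false (n false (n true (n true (n true (n true (n false (n false (n false (n false (n true (z 52) e) e) (n false e e)) e) (n false e e)) e) e) e) e) (n false e e)) e) (u 2048 70 (k v (k v (k v (k v (k v (k v (k v (k (t 6144 2 (u 4096 0 (k (u 8192 2 (k v (k (c 1024 4078 (u 16 1 (k v (k v r))) v) r))) r))) (k (t 6144 1 (u 4096 0 (k (c 12288 4099 r (u 8192 2 (k v (k (c 1024 4078 (u 16 1 (k v (k v r))) v) r)))) r))) r))))))))))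
 (.s 0x77f511440e57f5000 4086 (n false (n false (n true (n true (n true (n false (n false (n false e e) (n false e e)) (n false (n false e e) (n false e e))) e) e) e) (n true (z 156) e)) e) (u 10 8 (k v (k v (k (c 26 4099 r (u 18 1 (k v (k v r)))) (k (c 18 4098 r (u 26 1 (k v (k v r)))) (k (c 18 4097 r (u 26 1 (k v (k v r)))) (k (c 18 4099 r (u 26 1 (k v (k v r)))) r)))))))
 (.s 0x77f3fbb000a5ddc00 4090 (n false (n false (n true (n true (n true (z 87) e) e) e) e) (n false (z 42) e)) (u 32 1 (k (u 5 1 (k v (k v r))) (k (u 5 1 (k v (k v r))) r)))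
 .z .z) (.s 0x77f511440f95df000 4081 (n false (n false (n true (n true (z 52) e) e) (n true (n true (n true (n false (n false (n false e e) (n false e e)) (n false (n false e e) (n false e e))) e) e) e)) e) (u 16 298 (k v (k v (k v (k v (k v (k v (k v r))))))))
 .z .z)) (.s 0x77fd5d3fbe0021010 4070 (n false (n false (n true (n true (n true (n true (n false (n false (n false (n true (n false (z 55) e) e) (n false e e)) e) (n false e e)) e) e) e) e) (n false e e)) e) (u 2048 4 (k (t 6144 1 (u 4096 21 (k v (k v (k v (k (c 128 4079 (u 64 4 (k v (k (t 192 1 (u 128 2 (k v (k v r)))) r))) v) (k (c 128 4079 r v) r))))))) (k (c 1024 4091 (t 6 2 r) v) r)))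
 (.s 0x77fd5cafea0021010 4070 (n false (n false (n true (n true (n true (n true (n false (n false (n false (n true (z 156) e) (n false e e)) e) (n false e e)) e) e) e) e) (n false e e)) e) (u 1024 2 (k v (k (c 3072 4099 r (u 2048 1 (k v (k v r)))) (k (c 2048 4095 r (u 3072 0 (k v (k v r)))) r))))
 .z .z) .z))) (.s 0x7d2eee00e0e7f5e00 4093 (n false (n true (n false (z 42) (n true (n false e e) e)) e) (n true (z 103) e)) (c 12 4094 v (u 5 0 (k (u 8 32 (k v (k v (k v r)))) (k (t 13 1 r) (k (t 9 2 r) (k (t 9 1 r) r))))))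
 (.s 0x7d2bfa8013ebe0050 4089 (n false (n true (n false (z 51) (z 156)) e) (n false (n false e e) e)) (t 8 3 (u 12 8 (k v (k v (k (c 28 4099 r (u 20 1 (k v (k v r)))) (k (c 20 4098 r (u 28 1 (k v (k v r)))) (k (c 20 4097 r (u 28 1 (k v (k v r)))) (k (c 20 4099 r (u 28 1 (k v (k v r)))) r))))))))
 (.s 0x7d2bbe00875445110 4092 (n false (n true (n false (z 52) (n false e e)) e) (n true (n false (n false (n false (n false e e) (n false e e)) (n false (n false e e) (n false e e))) (n false e e)) e)) (u 8 25 (k v (k v (k v (k (t 24 1 (u 16 3 (k v (k v r)))) r)))))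
 (.s 0x77fd5f3eae0021010 4072 (n false (n false (n true (n true (n true (n true (n false (n false (n false (n true (n true (z 35) e) e) (n false e e)) e) (n false e e)) e) e) e) e) (n false e e)) e) (u 2048 2 (k v (k v (k v (k (t 6144 1 (u 4096 0 (k (t 8192 3 (t 12288 1 v)) r))) r)))))
 .z .z) (.s 0x7d2bfa8012bbe0050 4087 (n false (n true (n false (z 156) (z 52)) e) (n false (n false e e) e)) (u 8 8 (k r (k (c 4 4064 r v) (k (c 24 4099 r (u 16 1 (k r (k r r)))) (k (c 16 4098 r (u 24 1 (k r (k r r)))) (k (c 16 4097 r (u 24 1 (k r (k r r)))) (k (c 16 4099 r (u 24 1 (k r (k r r)))) r)))))))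
 .z .z)) (.s 0x7d2eee0087cbbb800 4087 (n false (n true (n true (z 42) e) e) (n true (n false (z 42) (n false e e)) e)) (u 9 11 (k (u 8 1 (k v (k v r))) (k (u 8 1 (k v (k v r))) (k (c 3 4085 (t 12 1 (u 8 0 (k r r))) r) r))))
 (.s 0x7d2bfa8013fbb0050 4089 (n false (n true (n false (z 156) (z 87)) e) (n false (n false e e) e)) (u 8 8 (k (u 12 0 (k v (k v r))) (k (c 4 4066 (u 3 1 (k v (k v r))) v) (k (c 24 4099 r r) (k (c 16 4098 r r) (k (c 16 4097 r r) (k (c 16 4099 r r) r)))))))
 .z .z) .z)) (.s 0x7d3afb00e0e7f7e00 4093 (n false (n true (z 119) e) (n true (n false (z 89) (n true (n false e e) e)) e)) (u 9 65 (k r (k (u 4 60 (k v (k v (k (c 8 4097 r (u 12 1 (k v (k v r)))) (k (c 8 4097 r r) (k (c 12 4096 r (u 8 0 (k (u 16 0 (k v (k v r))) r))) (k (c 12 4097 r (u 8 7 (k v (k (u 16 0 (k v (k v r))) r)))) (k (c 12 4097 r r) (k (c 12 4097 r r) (k (c 12 4097 r r) r)))))))))) (k (c 13 4094 v r) r))))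
 (.s 0x7d2eef00852eee008 4085 (n false (n true (n false (z 106) (n false e e)) e) (n false (z 42) (n false e e))) (u 8 18 (k r (k (u 5 53 (k v (k v (k v (k (u 9 2 (k v (k v r))) (k (c 2 4086 v r) (k (c 2 4086 v r) r))))))) (k (c 16 4101 r (c 2 4083 r r)) (k (c 24 4103 r (c 2 4081 r r)) (k (c 24 4100 r (c 2 4085 r r)) (k (c 24 4100 r (c 2 4085 r r)) r)))))))
 (.s 0x7d2eef00852aae008 4085 (n false (n true (n false (z 106) (n false e e)) e) (n false (z 32) (n false e e))) (u 5 0 (k (t 9 3 (t 13 1 (u 8 17 (k v (k v (k v (k (c 24 4100 r (c 2 4085 r v)) (k (c 24 4100 r (c 2 4085 r v)) r)))))))) r))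
 .z .z) (.s 0x7d3afb00e0e5ddc00 4091 (n false (n true (n false (z 89) (n true (n false e e) e)) e) (n true (z 42) e)) (u 5 1 (k (u 8 19 (k v (k v (k v r)))) (k (u 8 19 (k v (k v (k v r)))) r)))
 .z .z)) (.s 0x7d3eef00875445110 4087 (n false (n true (n false (z 107) (n false e e)) e) (n true (n false (n false (n false (n false e e) (n false e e)) (n false (n false e e) (n false e e))) (n false e e)) e)) (u 8 12 (k v (k (c 24 4099 r (u 16 1 (k v (k (c 48 4099 r (u 32 1 (k v (k v r)))) (k (u 32 0 (k v (k v r))) (k (c 32 4099 r (u 48 1 (k v (k v r)))) (k (c 32 4099 r (u 48 1 (k v (k v r)))) (k (c 32 4099 r (u 48 1 (k v (k v r)))) r)))))))) (k (u 16 3 (k v (k (c 48 4099 r (u 32 4 (k v (k v r)))) r))) (k (c 24 4100 r (u 16 0 (k (u 32 0 (k v (k v r))) r))) r)))))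
 (.s 0x7d3bae00955500288 4085 (n false (n true (n false (z 37) (z 0)) e) (n false (n false e e) (n false e e))) (t 12 1 (u 8 0 (k v (k (c 2 4089 (u 8 0 (k (t 16 3 (t 24 1 v)) r)) v) (k (c 2 4089 (u 8 0 (k (t 16 3 (t 24 1 v)) r)) v) (k (u 16 14 (k v (k v (k (t 48 1 (u 32 0 (k (t 64 3 (t 96 1 v)) r))) r)))) (k (u 16 9 (k v (k v (k (t 48 1 (u 32 0 (k (t 64 3 (t 96 1 v)) r))) r)))) (k (u 16 7 (k v (k v r))) r))))))))
 .z .z) .z))))

set_option maxRecDepth 100000 in
def N143 : NT :=
(.s 0x7dcafea0021544510 4087 (n false (n true (n false (n true (z 156) e) (n false e e)) e) (n false (n false (n false (n false e e) (n false e e)) (n false (n false e e) (n false e e))) e)) (u 16 20 (k v (k v (k v (k (c 48 4099 r (u 32 1 (k v (k v r)))) (k (c 32 4099 r (u 48 1 (k v (k v r)))) r))))))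
 (.s 0x7d4fab8012bbe0050 4087 (n false (n true (n false (z 52) (n false (z 35) e)) e) (n false (n false e e) e)) (u 20 0 (k r (k (c 8 4097 r v) (k (t 52 1 (u 8 211 (k (u 36 0 (k (t 68 3 (t 100 1 v)) r)) (k (c 20 4096 (c 2 4098 r v) v) (k (c 20 4096 (c 2 4098 r v) v) (k (c 4 4085 (u 9 0 (k (t 17 3 (t 25 1 v)) r)) v) (k (t 24 1 (u 16 0 (k (u 36 0 (k (t 68 3 (t 100 1 v)) r)) (k (u 36 0 (k (t 68 3 (t 100 1 v)) r)) r)))) r))))))) r))))
 (.s 0x7d4aef8020e75fe00 4092 (n false (n true (n false (n false (z 52) (n false e e)) e) e) (n true (z 121) e)) (u 5 4 (k r (k (u 16 6 (k v (k v (k (t 48 1 (u 32 0 (k v (k v r)))) r)))) (k (c 13 4099 r (u 9 1 (k r (k r r)))) (k (c 9 4097 r (u 13 1 (k r (k r r)))) r)))))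
 (.s 0x7d4aef8020e57fe00 4092 (n false (n true (n false (n false (z 52) (n false e e)) e) e) (n true (z 124) e)) (u 5 5 (k r (k (c 13 4097 r (u 9 1 (k r (k r r)))) (k (c 13 4096 r (u 9 1 (k r (k r r)))) (k (c 9 4098 r (u 13 0 (k r (k r r)))) (k (c 13 4096 r (u 9 1 (k r (k r r)))) (k (c 13 4097 r (u 9 1 (k r (k r r)))) (k (c 13 4097 r (u 9 1 (k r (k r r)))) (k (c 13 4096 r (u 9 1 (k r (k r r)))) (k (c 9 4097 r (u 13 1 (k r (k r r)))) r))))))))))
 (.s 0x7d4aef8013eae0050 4087 (n false (n true (n false (n false (z 52) e) (z 35)) e) (n false (n false e e) e)) (u 16 275 (k (u 12 0 (k v (k v (k (t 28 1 (u 20 0 (k (t 36 3 (t 52 1 v)) r))) r)))) (k (c 12 4096 r v) (k (c 12 4096 r v) (k (c 12 4096 r v) (k (t 48 1 (u 12 0 (k (u 32 0 (k v (k v r))) (k (c 16 4097 (t 2 1 v) v) (k (t 28 1 (u 32 0 (k (u 20 0 (k (t 36 3 (t 52 1 v)) r)) (k (u 20 0 (k (t 36 3 (t 52 1 v)) r)) r)))) r))))) r))))))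
 .z .z) (.s 0x7d4aef8020e5fdc00 4092 (n false (n true (n false (n false (z 52) (n false e e)) e) e) (n true (z 46) e)) (u 5 3 (k (c 4 4094 r v) (k r (k (u 9 1 (k (u 16 269 (k v (k v (k v r)))) (k (u 16 269 (k v (k v (k v r)))) r))) (k (c 13 4097 r (u 9 1 (k r (k r r)))) (k (c 9 4095 r (u 13 1 (k r (k r r)))) r))))))
 .z .z)) (.s 0x7d4eeec03813eab00 4091 (n false (n true (n false (n false (z 85) (n true (n false e e) e)) e) e) (z 67)) (u 16 25 (k (u 3 0 (k v (k v r))) (k r (k (c 48 4099 r r) (k (c 48 4099 r r) (k (c 48 4099 r (u 3 28 (k (c 32 4095 r v) (k (c 32 4095 r v) (k r (k (c 7 4101 r r) (k r (k (c 5 4101 r r) (k r (k (c 5 4101 r r) r)))))))))) (k (c 4 4081 r (c 3 4103 r v)) (k (c 32 4099 r r) r))))))))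
 (.s 0x7d4aef8020e7df600 4092 (n false (n true (z 91) e) (n true (n false (n false (z 52) (n false e e)) e) e)) (u 4 7 (k (c 5 4094 r v) (k (u 8 1 (k (u 17 269 (k v (k v (k v r)))) (k (u 17 269 (k v (k v (k v r)))) r))) r)))
 .z .z) .z)) (.s 0x7d572bbe00210ee10 4069 (n false (n true (n false (n false (n false (n false (n true (z 52) e) e) (n false e e)) e) (n false e e)) e) (n true (n false (n true (n false e e) e) (n false e e)) e)) (u 128 163 (k v (k v (k v (k v (k v (k v (k v r))))))))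
 (.s 0x7d52fee0095550020 4080 (n false (n true (n false (n false (n false (z 46) (z 0)) e) (n false e e)) e) e) (t 48 1 (u 32 2 (k v (k (c 96 4099 r (u 64 0 (k v (k v r)))) (k (u 64 1 (k v (k v r))) (k (u 64 1 (k v (k v r))) (k (c 96 4097 r (u 64 1 (k v (k v r)))) (k (c 64 4095 r (u 96 1 (k v (k v r)))) r))))))))
 (.s 0x7d4feac0075445110 4094 (n false (n true (n false (n false (z 71) e) e) e) (n true (n false (n false (n false (n false e e) (n false e e)) (n false (n false e e) (n false e e))) (n false e e)) e)) (u 16 1 (k v (k (c 48 4099 r (u 32 1 (k v (k v r)))) (k (c 4 4082 r v) (k (c 32 4099 r (u 48 1 (k v (k v r)))) (k (c 32 4099 r (u 48 1 (k v (k v r)))) (k (c 32 4099 r (u 48 1 (k v (k v r)))) r)))))))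
 .z .z) (.s 0x7d53bbb0095550020 4080 (n false (n true (n false (n false (n false (z 85) (z 0)) e) (n false e e)) e) e) (t 48 1 (u 32 4 (k v (k (c 96 4099 r r) (k (c 96 4099 r r) (k (c 96 4099 r (u 64 1 (k v (k v (k v (k (t 192 1 r) r)))))) (k (u 64 2 (k v (k v (k v (k (t 192 2 (u 128 6 (k v (k v (k (t 384 1 (u 256 0 (k v (k v r)))) r))))) r))))) (k (c 96 4096 r r) (k (c 64 4099 r r) r)))))))))
 .z .z)) (.s 0x7dcaef8013eae0050 4087 (n false (n true (n false (n true (z 52) e) (z 35)) e) (n false (n false e e) e)) (u 16 217 (k r (k r (k (c 12 4096 r v) (k (t 12 1 v) (k (t 48 1 (u 12 0 (k (u 32 0 (k v (k v r))) (k (c 16 4097 (t 2 1 v) v) (k (t 28 1 (u 32 0 (k (u 20 0 (k (t 36 3 (t 52 1 v)) r)) (k (u 20 0 (k (t 36 3 (t 52 1 v)) r)) r)))) r))))) r))))))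
 (.s 0x7d5f2bbe00210ee10 4070 (n false (n true (n false (n false (n false (n true (n true (z 52) e) e) (n false e e)) e) (n false e e)) e) (n true (n false (n true (n false e e) e) (n false e e)) e)) (u 128 164 (k v (k v (k v (k v (k v (k v (k v r))))))))
 .z .z) .z))) (.s 0x7dcfab8012bbe0050 4089 (n false (n true (n false (z 52) (n true (z 35) e)) e) (n false (n false e e) e)) (u 20 2 (k r (k r (k (c 4 4078 r v) (k (t 52 1 (u 8 210 (k (u 36 0 (k (t 68 3 (t 100 1 v)) r)) (k (c 20 4096 (c 2 4098 r v) v) (k (c 20 4096 (c 2 4098 r v) v) (k (u 36 0 (k (t 68 3 (t 100 1 v)) r)) (k (c 12 4101 (u 4 0 (k (t 8 3 (t 12 1 v)) r)) v) r))))))) r)))))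
 (.s 0x7dcebfc0075445110 4093 (n false (n true (n false (n true (z 121) e) e) e) (n true (n false (n false (n false (n false e e) (n false e e)) (n false (n false e e) (n false e e))) (n false e e)) e)) (u 16 4 (k v (k v (k (c 48 4099 r (u 32 1 (k v (k v r)))) (k (c 32 4097 r (u 48 1 (k v (k v r)))) r)))))
 (.s 0x7dcbbb8013fbb0050 4088 (n false (n true (n false (z 87) (n true (z 42) e)) e) (n false (n false e e) e)) (u 20 1 (k (u 8 0 (k v (k v r))) (k (u 8 0 (k v (k v r))) r)))
 (.s 0x7dcaffc0075445110 4091 (n false (n true (n false (n true (z 124) e) e) e) (n true (n false (n false (n false (n false e e) (n false e e)) (n false (n false e e) (n false e e))) (n false e e)) e)) (u 16 4 (k v (k v (k (c 48 4097 r (u 32 1 (k v (k v r)))) (k (c 48 4096 r (u 32 1 (k v (k v r)))) (k (c 32 4098 r (u 48 0 (k v (k v r)))) (k (c 48 4096 r (u 32 1 (k v (k v r)))) (k (c 48 4097 r (u 32 1 (k v (k v r)))) (k (c 48 4097 r (u 32 1 (k v (k v r)))) (k (c 48 4096 r (u 32 1 (k v (k v r))))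 (k (c 32 4097 r (u 48 1 (k v (k v r)))) r)))))))))))
 .z .z) (.s 0x7dcbfb80075445110 4091 (n false (n true (n false (n true (z 46) e) e) e) (n true (n false (n false (n false (n false e e) (n false e e)) (n false (n false e e) (n false e e))) (n false e e)) e)) (u 16 1 (k v (k (u 32 1 (k v (k v r))) (k (c 48 4099 r (u 32 0 (k v (k v r)))) (k (u 32 1 (k v (k v r))) (k (c 48 4097 r (u 32 1 (k v (k v r)))) (k (c 32 4095 r (u 48 1 (k v (k v r)))) r)))))))
 .z .z)) (.s 0x7dceeec010a7d5600 4086 (n false (n true (n false (n true (z 85) e) (n false e e)) e) (n false (z 67) e)) (t 5 2 (u 16 12 (k v (k v (k (c 48 4099 r r) (k (t 48 1 (u 32 3 (k v (k v r)))) (k (c 16 4097 r v) (k (c 48 4096 r (c 2 4080 r v)) (k (c 32 4099 r r) r)))))))))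
 (.s 0x7dcebfc010aa22888 4087 (n false (n true (n false (n true (z 121) e) (n false e e)) e) (n false (n false (n false (n false e e) (n false e e)) (n false (n false e e) (n false e e))) (n false e e))) (u 16 3 (k v (k v (k (c 48 4099 r (u 32 1 (k v (k v r)))) (k (c 32 4097 r (u 48 1 (k v (k v r)))) r)))))
 .z .z) .z)) (.s 0x7dd3baa0097770020 4087 (n false (n true (n false (n true (n false (z 42) (z 5)) e) (n false e e)) e) e) (t 48 1 (u 32 10 (k v (k v (k (t 64 3 (t 96 1 v)) (k (c 16 4090 r v) (k (c 96 4110 r r) (k (c 96 4110 r r) (k (c 96 4110 r (c 80 4101 v (u 64 1 (k v (k v r))))) (k (c 16 4090 (c 3 4099 v r) v) (k (c 96 4110 r (c 80 4101 v (u 64 1 (k v (k v r))))) (k (c 16 4090 r v) (k (c 16 4090 r v) r)))))))))))))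
 (.s 0x7dcfeec013fbb0050 4086 (n false (n true (n false (n true (z 87) e) (z 87)) e) (n false (n false e e) e)) (u 16 1 (k (u 12 0 (k v (k v r))) (k (u 12 0 (k v (k v r))) r)))
 (.s 0x7dcfeec013eae0050 4089 (n false (n true (n false (n true (z 87) e) (z 35)) e) (n false (n false e e) e)) (u 12 0 (k (u 16 1 (k v (k v r))) (k (c 16 4099 r v) (k (t 28 1 (u 16 1 (k (u 20 0 (k (t 36 3 (t 52 1 v)) r)) (k (u 20 0 (k (t 36 3 (t 52 1 v)) r)) r)))) r))))
 .z .z) (.s 0x7dcfeec015110ee10 4079 (n false (n true (n false (n true (z 87) e) (n false (n false (n false e e) (n false e e)) (n false e e))) e) (n true (n false (n true (n false e e) e) (n false e e)) e)) (c 12 4091 v (u 16 1 (k v (k v r))))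
 .z .z)) (.s 0x7dd44510e09555400 4083 (n false (z 128) (n true (n false (n true (n false (n false (n false e e) (n false e e)) (n false (n false e e) (n false e e))) e) (n true (n false e e) e)) e)) (u 2 20 (k v (k (c 6 4097 r r) (k (c 6 4099 r r) (k (t 6 2 (c 3 4084 v (u 4 0 (k (c 12 4099 r (u 8 0 (k (t 24 2 (u 16 0 (k v (k v (k (c 8 4082 r v) r))))) r))) r)))) (k (c 4 4099 r r) (k (c 6 4097 r (u 4 1 (k v (k v r)))) (k (c 4 4099 r r) (k (c 6 4095 r (u 4 1 (k v (k v r)))) (k (c 4 4097 r (u 6 0 (k v (k v r)))) (k (c 4 4099 r r) (k (c 4 4095 r (u 6 1 (k v (k v r)))) (k (c 4 4097 r r) r)))))))))))))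
 (.s 0x7dd3fbf009f770020 4078 (n false (n true (n false (n true (n false (z 119) (z 43)) e) (n false e e)) e) e) (t 48 1 (u 32 1 (k (c 96 4101 r r) (k (c 64 4096 r (u 96 0 (k (t 160 3 (t 224 1 v)) r))) (k (c 64 4096 r r) (k r (k (c 96 4099 r r) (k (c 96 4097 r r) (k (c 48 4094 v (u 96 0 (k (c 224 4101 r (t 160 3 (u 64 0 (k r r)))) r))) (k (c 64 4098 r r) (k r (k (c 64 4101 r r) (k (c 64 4099 r r) (k r (k (c 64 4101 r r) r)))))))))))))))
 .z .z) .z))))

set_option maxRecDepth 100000 in
def N144 : NT :=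
(.s 0x7f544511052bbe008 4092 (n false (n false (z 52) (n false e e)) (n true (n true (n false (n false (n false (n false e e) (n false e e)) (n false (n false e e) (n false e e))) (n false e e)) e) e)) (u 4 25 (k v (k v (k v (k (t 12 1 (u 8 0 (k v (k v r)))) r)))))
 (.s 0x7f4aef8020e5fdc00 4092 (n false (n true (n true (n false (z 52) (n false e e)) e) e) (n true (z 46) e)) (u 5 3 (k (c 4 4094 r v) (k r (k (u 9 1 (k (u 16 71 (k v (k v (k v r)))) (k (u 16 71 (k v (k v (k v r)))) r))) (k (c 13 4097 r (u 9 1 (k r (k r r)))) (k (c 9 4095 r (u 13 1 (k r (k r r)))) r))))))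
 (.s 0x7df2bfa8001d51110 4081 (n false (n true (n false (n true (n true (z 156) e) e) e) e) (n true (n false (n false (n false (n false e e) (n false e e)) (n false e e)) (n false e e)) e)) (u 32 14 (k v (k v (k (c 96 4099 r (u 64 1 (k v (k v r)))) (k (c 64 4099 r (u 96 1 (k v (k v r)))) (k (c 64 4095 r (u 96 0 (k v (k v r)))) r))))))
 (.s 0x7dd44510e0e7d7c00 4080 (n false (n true (n false (n true (n false (n false (n false e e) (n false e e)) (n false (n false e e) (n false e e))) e) (n true (n false e e) e)) e) (n true (z 51) e)) (u 5 0 (k (t 13 1 (u 9 0 (k (t 17 3 (t 25 3 v)) r))) r))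
 (.s 0x7dd44510e0e5ffc00 4080 (n false (n true (n false (n true (n false (n false (n false e e) (n false e e)) (n false (n false e e) (n false e e))) e) (n true (n false e e) e)) e) (n true (z 62) e)) (u 5 1 (k v (k v (k v (k (t 13 1 (u 9 134 (k v (k (t 25 1 (u 17 0 (k v (k v r)))) (k (c 5 4089 (t 6 2 (u 4 0 (k r r))) v) r))))) r)))))
 .z .z) (.s 0x7dd511444213eab00 4089 (n false (z 67) (n true (n false (n true (n false (n false (n false (n false e e) (n false e e)) (n false (n false e e) (n false e e))) (n false e e)) e) (n false e e)) e)) (c 17 4099 v (u 2 0 (k v (k v r))))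
 .z .z)) (.s 0x7f4aef8020e57fe00 4092 (n false (n true (n true (n false (z 52) (n false e e)) e) e) (n true (z 124) e)) (u 5 5 (k r (k (c 13 4097 r (u 9 1 (k r (k r r)))) (k (c 13 4096 r (u 9 1 (k r (k r r)))) (k (c 9 4098 r (u 13 0 (k r (k r r)))) (k (c 13 4096 r (u 9 1 (k r (k r r)))) (k (c 13 4097 r (u 9 1 (k r (k r r)))) (k (c 13 4097 r (u 9 1 (k r (k r r)))) (k (c 13 4096 r (u 9 1 (k r (k r r)))) (k (c 9 4097 r (u 13 1 (k r (k r r)))) r))))))))))
 (.s 0x7df2bfa8007055110 4079 (n false (n true (n false (n true (n true (z 156) e) e) (n true (n false e e) e)) e) (n false (n false (n false (n false e e) (n false e e)) (n false e e)) e)) (u 32 1 (k v (k (c 96 4099 r (u 64 1 (k v (k v r)))) (k (c 64 4098 r (u 96 1 (k v (k v r)))) (k (c 64 4097 r (u 96 1 (k v (k v r)))) (k (c 64 4099 r (u 96 1 (k v (k v r)))) (k (c 64 4095 r (u 96 0 (k v (k v r)))) r)))))))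
 .z .z) .z)) (.s 0x7f4bbb8020aa22888 4089 (n false (n true (n true (n false (z 42) (n false e e)) e) e) (n false (n false (n false (n false e e) (n false e e)) (n false (n false e e) (n false e e))) (n false e e))) (u 16 3 (k v (k (c 4 4085 (t 12 1 (u 8 0 (k r r))) v) (k (u 32 2 (k v (k v r))) (k (c 4 4085 r v) (k (c 4 4085 r v) (k (c 4 4085 r v) r)))))))
 (.s 0x7f4aef8020e7df600 4092 (n false (n true (n true (n false (z 52) (n false e e)) e) e) (n true (z 91) e)) (u 5 7 (k (c 4 4094 r v) (k (u 9 1 (k (u 16 71 (k v (k v (k v r)))) (k (u 16 71 (k v (k v (k v r)))) r))) r)))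
 (.s 0x7f4aef8020e75fe00 4092 (n false (n true (n true (n false (z 52) (n false e e)) e) e) (n true (z 121) e)) (u 5 5 (k r (k r (k (u 16 6 (k v (k v (k (t 48 1 (u 32 0 (k v (k v r)))) r)))) (k (c 13 4099 r (u 9 1 (k r (k r r)))) (k (c 9 4097 r (u 13 1 (k r (k r r)))) r))))))
 .z .z) (.s 0x7f4afea005c20ee10 4074 (n false (n true (n true (n false (z 156) (n false (n true (n false e e) e) (n false e e))) e) e) (n true (n false (n true (n false e e) e) (n false e e)) e)) (u 16 8 (k v (k v (k (c 48 4099 r (u 32 1 (k v (k v r)))) (k (c 32 4098 r (u 48 1 (k v (k v r)))) (k (c 32 4097 r (u 48 1 (k v (k v r)))) (k (c 32 4099 r (u 48 1 (k v (k v r)))) r)))))))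
 .z .z)) (.s 0x7f544511052aff008 4086 (n false (n false (z 120) (n false e e)) (n true (n true (n false (n false (n false (n false e e) (n false e e)) (n false (n false e e) (n false e e))) (n false e e)) e) e)) (u 4 4 (k (c 12 4099 r r) (k (c 12 4100 r r) (k (c 12 4099 r r) (k (c 12 4100 r r) (k (c 8 4095 r r) (k (c 12 4097 r r) (k (c 8 4097 r r) (k (c 12 4096 r r) (k (c 12 4096 r (u 8 0 (k (u 16 0 (k v (k v r))) r))) (k (c 12 4100 r (u 8 0 (k (u 16 0 (k v (k v r))) r))) (k (c 12 4101 r r) (k (c 8 4099 r r) (k (c 12 4100 r r) (k (c 12 4097 r r) (k (c 12 4099 r r) (k (c 8 4095 r r) (k (c 8 4099 r r) (k (c 12 4097 r r) r)))))))))))))))))))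
 (.s 0x7f4efb8020e7d5600 4095 (n false (n true (n true (n false (z 45) (n false e e)) e) e) (n true (z 67) e)) (u 5 110 (k (u 16 0 (k v (k v r))) (k (u 16 0 (k v (k v r))) (k (c 4 4096 (t 4 1 v) v) (k (t 16 1 v) (k (u 16 0 (k v (k v r))) (k r (k (c 9 4101 r r) (k (c 3 4088 r (c 4 4096 (t 4 1 v) v)) (k (c 9 4099 r r) (k (c 3 4091 (t 6 2 (u 4 0 (k r r))) (c 4 4096 (t 4 1 v) v)) (k (c 13 4101 r r) (k r (k (c 13 4102 r r) (k (c 9 4101 r r) (k (t 13 1 (u 9 3 (k r (k (u 16 0 (k v (k v r))) (k (c 25 4099 r r) r))))) (k (c 9 4101 r r) r)))))))))))))))))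
 .z .z) .z))) (.s 0x7f54451105cbfb800 4093 (n false (n false (n true (z 46) e) e) (n true (n true (n false (n false (n false (n false e e) (n false e e)) (n false (n false e e) (n false e e))) (n false e e)) e) e)) (u 8 1 (k v (k (u 16 1 (k v (k v r))) (k (c 24 4099 r (u 16 0 (k v (k v r)))) (k (u 16 1 (k v (k v r))) (k (c 24 4097 r (u 16 1 (k v (k v r)))) (k (c 16 4095 r (u 24 1 (k v (k v r)))) r)))))))
 (.s 0x7f544511053eee008 4085 (n false (n false (z 43) (n false e e)) (n true (n true (n false (n false (n false (n false e e) (n false e e)) (n false (n false e e) (n false e e))) (n false e e)) e) e)) (u 4 8 (k v (k r (k r (k (u 8 0 (k (u 16 0 (k v (k v r))) r)) (k r (k r (k (c 12 4099 r (u 8 0 (k (u 16 0 (k v (k v r))) r))) (k (u 8 1 (k v (k (u 16 1 (k v (k v r))) (k (c 24 4099 r (u 16 0 (k v (k v r)))) (k (u 16 1 (k v (k v r))) (k (c 24 4097 r (u 16 1 (k v (k v r)))) (k (c 16 4095 r (u 24 1 (k v (k v r)))) r))))))) r)))))))))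
 (.s 0x7f544511053afb008 4087 (n false (n false (z 89) (n false e e)) (n true (n true (n false (n false (n false (n false e e) (n false e e)) (n false (n false e e) (n false e e))) (n false e e)) e) e)) (u 4 15 (k v (k v (k (c 12 4099 r r) (k (c 12 4097 r r) r)))))
 (.s 0x7f544511052eee008 4089 (n false (n false (z 42) (n false e e)) (n true (n true (n false (n false (n false (n false e e) (n false e e)) (n false (n false e e) (n false e e))) (n false e e)) e) e)) (u 4 12 (k v (k r (k r (k r (k (c 3 4097 v (t 12 1 (u 8 0 (k r r)))) (k (u 8 2 (k v (k v r))) r)))))))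
 .z .z) (.s 0x7f544511053eab008 4085 (n false (n false (z 67) (n false e e)) (n true (n true (n false (n false (n false (n false e e) (n false e e)) (n false (n false e e) (n false e e))) (n false e e)) e) e)) (u 4 115 (k v (k (c 12 4099 r r) (k (c 8 4096 r (u 12 0 (k (u 20 0 (k v (k v r))) r))) (k (c 8 4096 r (u 12 0 (k (u 20 0 (k v (k v r))) r))) (k (c 12 4097 r r) (k (c 12 4099 r r) (k r (k (c 12 4097 r r) (k (c 12 4099 r r) (k (c 8 4100 r r) (k (c 12 4099 r (u 8 0 (k (u 16 0 (k v (k v r))) r))) (k (c 8 4099 r r) (k (c 12 4099 r r) (k (c 8 4099 r (u 12 0 (k (u 20 0 (k v (k v r))) r))) (k (c 12 4100 r r) (k (c 12 4100 r r) (k (c 12 4099 r r) (k (c 12 4099 r r) (k (c 12 4100 r r) (k (c 12 4099 r r) r)))))))))))))))))))))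
 .z .z)) (.s 0x7f544511054feac00 4096 (n false (n false (n false (z 71) e) e) (n true (n true (n false (n false (n false (n false e e) (n false e e)) (n false (n false e e) (n false e e))) (n false e e)) e) e)) (u 8 21 (k v (k (c 24 4099 r (u 16 19 (k v (k v (k v r))))) (k (u 16 23 (k v (k v r))) (k (c 16 4099 r (u 24 19 (k v (k v (k v r))))) (k (c 16 4099 r (u 24 19 (k v (k v (k v r))))) (k (c 16 4099 r (u 24 19 (k v (k v (k v r))))) r)))))))
 (.s 0x7f544511053eff008 4089 (n false (n false (z 123) (n false e e)) (n true (n true (n false (n false (n false (n false e e) (n false e e)) (n false (n false e e) (n false e e))) (n false e e)) e) e)) (u 4 30 (k v (k v (k r (k (c 12 4099 r (u 8 1 (k v (k v (k v (k (c 24 4097 r r) r)))))) (k (c 3 4097 v r) (k (c 3 4097 v r) (k (c 12 4100 r r) (k (c 12 4097 r r) r)))))))))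
 .z .z) .z)) (.s 0x7f54451107cbff800 4090 (n false (n true (n true (z 62) e) e) (n true (n true (n false (n false (n false (n false e e) (n false e e)) (n false (n false e e) (n false e e))) (n false e e)) e) e)) (u 8 1 (k v (k v (k v (k (t 24 1 r) r)))))
 (.s 0x7f544511072bfa800 4097 (n false (n true (z 156) e) (n true (n true (n false (n false (n false (n false e e) (n false e e)) (n false (n false e e) (n false e e))) (n false e e)) e) e)) (u 4 12 (k v (k v (k (c 12 4099 r (u 8 1 (k v (k v r)))) (k (c 8 4098 r (u 12 1 (k v (k v r)))) (k (c 8 4097 r (u 12 1 (k v (k v r)))) (k (c 8 4099 r (u 12 1 (k v (k v r)))) (k (c 8 4095 r (u 12 0 (k v (k v r)))) r))))))))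
 (.s 0x7f54451105cebfc00 4093 (n false (n false (n true (z 121) e) e) (n true (n true (n false (n false (n false (n false e e) (n false e e)) (n false (n false e e) (n false e e))) (n false e e)) e) e)) (u 8 4 (k v (k v (k (c 24 4099 r (u 16 10 (k v (k v (k v r))))) (k (c 16 4097 r (u 24 1 (k v (k v r)))) r)))))
 .z .z) (.s 0x7f54451107caef800 4092 (n false (n true (n true (z 52) e) e) (n true (n true (n false (n false (n false (n false e e) (n false e e)) (n false (n false e e) (n false e e))) (n false e e)) e) e)) (u 8 75 (k v (k v (k v (k v (k v (k v (k (t 24 1 (u 16 0 (k v (k v r)))) r))))))))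
 .z .z)) (.s 0x7f54451107cfef800 4092 (n false (n true (n true (z 55) e) e) (n true (n true (n false (n false (n false (n false e e) (n false e e)) (n false (n false e e) (n false e e))) (n false e e)) e) e)) (u 8 4 (k (t 24 1 (u 16 2 (k v (k (t 32 3 (t 48 1 v)) (k (u 32 0 (k v (k v r))) r))))) (k (c 4 4091 (t 6 2 r) v) r)))
 (.s 0x7f54451107cfaf800 4092 (n false (n true (n true (z 51) e) e) (n true (n true (n false (n false (n false (n false e e) (n false e e)) (n false (n false e e) (n false e e))) (n false e e)) e) e)) (u 8 0 (k (t 24 1 (u 16 0 (k (t 32 3 (t 48 3 v)) r))) r))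
 .z .z) .z))))

set_option maxRecDepth 100000 in
def N145 : NT :=
(.s 0x3a57f5002775c01d10 4082 (n false (n false (z 156) (z 37)) (n true (n false (n false e e) (n false e e)) e)) (u 6 0 (k r (k (u 10 0 (k (t 18 3 (t 26 1 (u 4 0 (k v (k (c 12 4099 r (u 8 0 (k v (k v r)))) r))))) r)) (k (u 10 0 (k (t 18 3 (t 26 1 (u 4 0 (k v (k (c 12 4099 r (u 8 0 (k v (k v r)))) r))))) r)) (k r (k r (k (c 6 4095 r r) r)))))))
 (.s 0x3a57d4012bbe00ae10 4086 (n false (n false (z 52) (z 12)) (n false (n false (n true (n false e e) e) (n false e e)) e)) (t 6 3 (u 4 48 (k v (k v (k v (k v (k (t 12 1 (u 8 0 (k v (k v r)))) r)))))))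
 (.s 0x7fdd44510813eab00 4080 (n false (n true (n true (n true (n false (n true (n false (n false (n false e e) (n false e e)) (n false (n false e e) (n false e e))) e) (n false e e)) e) e) e) (z 67)) (u 3 149 (k v (k v (k v (k v (k (t 7 1 (u 5 1 (k v (k v r)))) (k (c 5 4101 r (u 7 0 (k v (k v r)))) (k r (k (c 2 4083 v r) (k (c 2 4083 v (t 7 2 (u 5 0 (k r r)))) (k (c 7 4101 r (u 5 1 (k v (k v r)))) (k (t 7 1 (u 5 9 (k v (k v (k v (k (c 13 4099 r (u 9 1 (k v (k v r)))) r)))))) (k (c 7 4102 r (u 5 1 (k v (k v r)))) (k (t 5 2 (c 2 4083 v r)) (k (c 5 4101 r (u 7 1 (k v (k v r)))) (k r (k (c 5 4101 r (u 7 1 (k v (k v r)))) r)))))))))))))))))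
 (.s 0x7fcbbb8007cfeac00 4094 (n false (n true (n true (z 71) e) e) (n true (n true (n true (z 42) e) e) e)) (u 17 1 (k r (k (u 8 1 (k v (k (c 24 4099 r (u 16 1 (k v (k v r)))) (k (u 16 0 (k v (k v r))) (k (c 16 4099 r (u 24 1 (k v (k v r)))) (k (c 16 4099 r (u 24 1 (k v (k v r)))) (k (c 16 4099 r (u 24 1 (k v (k v r)))) r))))))) r)))
 (.s 0x7f73fbb0054441708 4079 (n false (n true (n true (n false (n true (z 87) e) (n false (n false (n false e e) (n false e e)) (n false e e))) e) e) (n false (n true (n false e e) e) (n false e e))) (c 24 4091 v (u 32 1 (k v (k v r))))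
 .z .z) (.s 0x7fd5114440a577c00 4092 (n false (n true (n true (n true (n false (n false (n false (n false e e) (n false e e)) (n false (n false e e) (n false e e))) (n false e e)) e) e) e) (n false (z 52) e)) (u 5 12 (k v (k v (k v (k v (k v (k v (k (t 13 1 (u 9 0 (k v (k v r)))) r))))))))
 .z .z)) (.s 0x3a577c01d075445110 4089 (n false (n false (n true (n false (n false e e) e) e) (z 52)) (n true (n false (n false (n false (n false e e) (n false e e)) (n false (n false e e) (n false e e))) (n false e e)) e)) (u 6 146 (k v (k v (k v (k v (k v (k (t 14 1 (u 10 0 (k v (k v r)))) r)))))))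
 (.s 0x3a55fc012aae00ee10 4081 (n false (n false (z 56) (z 32)) (n true (n false (n true (n false e e) e) (n false e e)) e)) (u 6 0 (k (t 10 3 (t 14 1 (u 4 0 (k (u 8 170 (k v (k v (k v (k v (k v (k (t 24 1 (u 16 0 (k v (k v r)))) r))))))) (k (c 8 4096 r (u 12 0 (k v (k v r)))) (k (u 8 1 (k v (k v r))) (k (c 12 4096 r r) r))))))) r))
 .z .z) .z)) (.s 0x3a57f500257f500288 4082 (n false (n false (z 156) (z 156)) (n false (n false e e) (n false e e))) (u 4 1 (k r (k (c 12 4099 r (u 8 1 (k r (k r r)))) (k (c 8 4098 r (u 12 1 (k r (k r r)))) (k (c 8 4097 r (u 12 1 (k r (k r r)))) (k (c 8 4099 r (u 12 1 (k r (k r r)))) (k (c 8 4095 r (u 12 0 (k r (k r r)))) r)))))))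
 (.s 0x3a57f5002555500288 4082 (n false (n false (z 128) (z 156)) (n false (n false e e) (n false e e))) (u 4 30 (k r (k r (k r (k (c 8 4097 r r) (k (c 12 4099 r (u 8 5 (k r (k r r)))) (k (c 8 4096 r r) (k (c 12 4097 r (u 8 5 (k r (k r r)))) (k (c 12 4097 r (u 8 5 (k r (k r r)))) (k (c 8 4095 r (u 12 0 (k r (k r r)))) (k (c 8 4099 r (u 12 5 (k r (k r r)))) (k (c 12 4095 r (u 8 1 (k r (k r r)))) (k (c 8 4097 r (u 12 0 (k r (k r r)))) (k (c 8 4095 r r) (k (c 8 4095 r (u 12 1 (k r (k r r)))) (k (c 8 4097 r r) r))))))))))))))))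
 (.s 0x3a57d4012bbe00ee10 4086 (n false (n false (z 52) (z 12)) (n true (n false (n true (n false e e) e) (n false e e)) e)) (t 6 3 (u 4 50 (k v (k v (k v (k v (k v (k (t 12 1 (u 8 0 (k v (k v r)))) r))))))))
 .z .z) (.s 0x3a57f5002577c01708 4072 (n false (n false (z 52) (z 156)) (n false (n true (n false e e) e) (n false e e))) (u 6 1 (k r (k (c 14 4099 r (u 10 1 (k r (k r r)))) (k (c 10 4098 r (u 14 1 (k r (k r r)))) (k (c 10 4097 r (u 14 1 (k r (k r r)))) (k (c 10 4099 r (u 14 1 (k r (k r r)))) (k (c 10 4095 r (u 14 0 (k r (k r r)))) r)))))))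
 .z .z)) (.s 0x3a57f500275fe01d10 4082 (n false (n false (z 156) (z 121)) (n true (n false (n false e e) (n false e e)) e)) (u 6 1 (k r (k (c 14 4099 r (u 10 1 (k r (k r r)))) (k (c 10 4097 r (u 14 1 (k r (k r r)))) (k (c 10 4095 r (u 14 0 (k r (k r r)))) (k (c 10 4095 r (u 14 0 (k r (k r r)))) r))))))
 (.s 0x3a57f500257fe01d10 4082 (n false (n false (z 124) (z 156)) (n true (n false (n false e e) (n false e e)) e)) (u 4 5 (k r (k (c 12 4097 r (u 8 1 (k r (k r r)))) (k (c 12 4096 r (u 8 1 (k r (k r r)))) (k (c 8 4098 r (u 12 0 (k r (k r r)))) (k (c 12 4096 r (u 8 1 (k r (k r r)))) (k (c 12 4097 r (u 8 1 (k r (k r r)))) (k (c 12 4097 r (u 8 1 (k r (k r r)))) (k (c 12 4096 r (u 8 1 (k r (k r r)))) (k (c 8 4097 r (u 12 1 (k r (k r r)))) r))))))))))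
 .z .z) .z))) (.s 0x3a57f5003b842a2288 4074 (n false (n false (z 156) (n true (n false (n true (n false e e) e) (n false e e)) e)) (n false (n false (n false e e) (n false e e)) (n false (n false e e) (n false e e)))) (u 4 1 (k v (k (c 12 4099 r (u 8 1 (k v (k v r)))) (k (c 8 4098 r (u 12 1 (k v (k v r)))) (k (c 8 4097 r (u 12 1 (k v (k v r)))) (k (c 8 4099 r (u 12 1 (k v (k v r)))) (k (c 8 4095 r (u 12 0 (k v (k v r)))) r)))))))
 (.s 0x3a57f50027dfe01708 4079 (n false (n false (z 123) (z 156)) (n false (n true (n false e e) e) (n false e e))) (u 4 18 (k r (k (c 12 4099 r (u 8 24 (k r (k r (k (u 6 1 (k v (k (c 14 4099 r (u 10 1 (k v (k v r)))) (k (c 10 4098 r (u 14 1 (k v (k v r)))) (k (c 10 4097 r (u 14 1 (k v (k v r)))) (k (c 10 4099 r (u 14 1 (k v (k v r)))) (k (c 10 4095 r (u 14 0 (k v (k v r)))) r))))))) (k (t 24 2 (u 6 0 (k r (k (c 14 4099 r (u 10 0 (k (u 16 301 (k v (k v (k v r)))) (k r r)))) r)))) r)))))) r)))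
 (.s 0x3a57f50027d7c01708 4074 (n false (n false (z 51) (z 156)) (n false (n true (n false e e) e) (n false e e))) (t 4 1 (u 6 1 (k v (k (c 14 4099 r (u 10 1 (k v (k v r)))) (k (c 10 4098 r (u 14 1 (k v (k v r)))) (k (c 10 4097 r (u 14 1 (k v (k v r)))) (k (c 10 4099 r (u 14 1 (k v (k v r)))) (k (c 10 4095 r (u 14 0 (k v (k v r)))) r))))))))
 (.s 0x3a57f5002777601d10 4082 (n false (n false (z 85) (z 156)) (n true (n false (n false e e) (n false e e)) e)) (u 6 1 (k r (k (c 14 4099 r (u 10 1 (k r (k r r)))) (k (c 10 4098 r (u 14 1 (k r (k r r)))) (k (c 10 4097 r (u 14 1 (k r (k r r)))) (k (c 10 4099 r (u 14 1 (k r (k r r)))) (k (c 10 4095 r (u 14 0 (k r (k r r)))) r)))))))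
 .z .z) (.s 0x3a57f50027df601d10 4082 (n false (n false (z 91) (z 156)) (n true (n false (n false e e) (n false e e)) e)) (u 4 11 (k r (k (u 6 1 (k (u 8 1 (k v (k v r))) (k (c 14 4099 r r) (k (c 10 4098 r r) (k (c 10 4097 r (u 14 1 (k (u 8 1 (k v (k v r))) (k (u 8 1 (k v (k v r))) r)))) (k (c 10 4099 r r) (k (c 10 4095 r (u 14 0 (k (u 8 1 (k v (k v r))) (k (u 8 1 (k v (k v r))) r)))) r))))))) (k (c 8 4097 r (u 12 0 (k r (k r r)))) (k (c 8 4097 r (u 12 0 (k r (k r r)))) (k (c 8 4096 r (u 12 0 (k r (k r r)))) (k (c 8 4095 r (u 12 0 (k r (k r r)))) r)))))))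
 .z .z)) (.s 0x3a57f5002e113fab00 4086 (n false (n false (z 156) (n false (n true (n false e e) e) (n false e e))) (z 71)) (u 3 29 (k (c 10 4094 v r) (k r (k (c 10 4094 v r) (k (c 7 4099 r (u 5 1 (k r (k r r)))) r)))))
 (.s 0x3a57f50027f5601d10 4082 (n false (n false (z 71) (z 156)) (n true (n false (n false e e) (n false e e)) e)) (u 4 1 (k r (k (c 12 4099 r (u 8 1 (k r (k r r)))) (k (u 6 1 (k (u 8 0 (k v (k v r))) (k (c 14 4099 r r) (k (c 10 4098 r r) (k (c 10 4097 r (u 14 1 (k (u 8 0 (k v (k v r))) (k (u 8 0 (k v (k v r))) r)))) (k (c 10 4099 r r) (k (c 10 4095 r (u 14 0 (k (u 8 0 (k v (k v r))) (k (u 8 0 (k v (k v r))) r)))) r))))))) (k (c 8 4099 r (u 12 1 (k r (k r r)))) (k (c 8 4099 r (u 12 1 (k r (k r r)))) (k (c 8 4099 r (u 12 1 (k r (k r r)))) r)))))))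
 .z .z) .z)) (.s 0x3a5fdc012fea00ee10 4084 (n false (n false (z 46) (z 14)) (n true (n false (n true (n false e e) e) (n false e e)) e)) (u 4 2 (k (u 6 0 (k v (k v r))) (k (c 12 4099 r (u 8 4 (k (u 6 0 (k v (k v r))) (k (u 6 0 (k v (k v r))) r)))) (k r (k (u 6 0 (k (u 8 1 (k v (k v r))) (k (u 8 1 (k v (k v r))) r))) (k (c 12 4097 r r) (k (c 8 4095 r r) r)))))))
 (.s 0x3a5fdc012aaa00a888 4088 (n false (n false (z 46) (z 0)) (n false (n false (n false e e) (n false e e)) (n false e e))) (t 6 1 (u 4 1 (k v (k (u 8 1 (k v (k v r))) (k (c 12 4099 r (u 8 0 (k v (k v r)))) (k (u 8 1 (k v (k v r))) (k (c 12 4097 r (u 8 1 (k v (k v r)))) (k (c 8 4095 r (u 12 1 (k v (k v r)))) r))))))))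
 (.s 0x3a57fe012bbe00ee10 4081 (n false (n false (z 124) (z 52)) (n true (n false (n true (n false e e) e) (n false e e)) e)) (u 4 5 (k r (k (c 12 4097 r (u 8 1 (k r (k r r)))) (k (c 12 4096 r (u 8 1 (k r (k r r)))) (k (c 8 4098 r (u 12 0 (k r (k r r)))) (k (c 12 4096 r (u 8 1 (k r (k r r)))) (k (c 12 4097 r (u 8 1 (k r (k r r)))) (k (c 12 4097 r (u 8 1 (k r (k r r)))) (k (c 12 4096 r (u 8 1 (k r (k r r)))) (k (c 8 4097 r (u 12 1 (k r (k r r)))) r))))))))))
 .z .z) (.s 0x3a5fdc012bbe00ee10 4081 (n false (n false (z 46) (z 52)) (n true (n false (n true (n false e e) e) (n false e e)) e)) (u 4 1 (k r (k (u 8 1 (k r (k r r))) (k (c 12 4099 r (u 8 0 (k r (k r r)))) (k (u 8 1 (k r (k r r))) (k (c 12 4097 r (u 8 1 (k r (k r r)))) (k (c 8 4095 r (u 12 1 (k r (k r r)))) r)))))))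
 .z .z)) (.s 0x3a755d00257d401708 4079 (n false (n false (z 161) (z 12)) (n false (n true (n false e e) e) (n false e e))) (t 6 3 (u 4 1 (k (c 12 4099 r (u 8 4 (k v (k v (k (t 24 1 (u 16 0 (k v (k (c 48 4099 r (u 32 0 (k v (k v r)))) r)))) (k (t 24 1 (c 10 4099 v r)) r)))))) (k (u 8 4 (k v (k v (k (t 24 2 (u 16 0 (k v (k (c 48 4099 r (u 32 8 (k v (k v r)))) r)))) (k (c 16 4100 r r) (k (c 24 4099 r r) (k (c 24 4100 r r) (k (c 24 4099 r r) (k (c 16 4097 r r) (k (c 24 4097 r (u 16 2 (k v (k (c 48 4099 r (u 32 1 (k v (k v r)))) (k (c 32 4095 r (u 48 0 (k v (k v r)))) r))))) r)))))))))) r))))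
 (.s 0x3a5ff5002555401708 4082 (n false (n false (z 158) (z 0)) (n false (n true (n false e e) e) (n false e e))) (t 6 1 (u 4 0 (k (u 8 2 (k v (k v (k v (k (t 24 1 (u 16 0 (k v (k (c 48 4099 r (u 32 0 (k v (k v r)))) r)))) r))))) r)))
 .z .z) .z))))

set_option maxRecDepth 100000 in
def N146 : NT :=
(.s 0x3a7d56015114454470 4082 (n false (n false (z 67) (n false (n false (n false e e) (n false e e)) (n false (n false e e) (n false e e)))) (n false (n false (n false e e) (n false e e)) (n true (n false e e) e))) (c 7 4094 v (u 4 0 (k v (k v r))))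
 (.s 0x3a775c012bbe00ae10 4087 (n false (n false (z 52) (z 37)) (n false (n false (n true (n false e e) e) (n false e e)) e)) (u 4 410 (k r (k (t 6 1 v) (k (c 6 4101 r v) (k (c 2 4085 r v) (k r r))))))
 (.s 0x3a7754012afe00ae10 4086 (n false (n false (z 56) (z 5)) (n false (n false (n true (n false e e) e) (n false e e)) e)) (t 6 1 (u 4 0 (k (u 8 51 (k v (k v (k v (k v (k v (k (t 24 1 (u 16 0 (k v (k v r)))) r))))))) (k (c 8 4096 r (u 12 0 (k v (k v r)))) (k (u 8 1 (k v (k v r))) (k (c 12 4096 r r) r))))))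
 (.s 0x3a75fe012eee00ee10 4083 (n false (n false (z 121) (z 42)) (n true (n false (n true (n false e e) e) (n false e e)) e)) (u 4 1 (k (u 6 1 (k v (k v r))) (k (c 12 4099 r r) (k (c 8 4097 r r) (k (c 8 4095 r (t 6 1 (c 3 4091 v r))) (k (c 8 4095 r (t 6 1 (c 3 4091 v r))) r))))))
 (.s 0x3a75fe012bbe00ee10 4081 (n false (n false (z 121) (z 52)) (n true (n false (n true (n false e e) e) (n false e e)) e)) (u 4 1 (k r (k (c 12 4099 r (u 8 1 (k r (k r r)))) (k (c 8 4097 r (u 12 1 (k r (k r r)))) (k (c 8 4095 r (u 12 0 (k r (k r r)))) (k (c 8 4095 r (u 12 0 (k r (k r r)))) r))))))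
 .z .z) (.s 0x3a75fe012fea00ee10 4085 (n false (n false (z 121) (z 14)) (n true (n false (n true (n false e e) e) (n false e e)) e)) (u 4 1 (k (u 6 0 (k v (k v r))) (k (c 12 4099 r (u 6 0 (k (u 8 1 (k v (k v r))) (k (u 8 1 (k v (k v r))) r)))) (k (c 8 4097 r r) (k (c 8 4095 r (t 6 1 (c 3 4091 v r))) (k (c 8 4095 r (t 6 1 (c 3 4091 v r))) r))))))
 .z .z)) (.s 0x3a7754012fee00ee10 4091 (n false (n false (z 46) (z 5)) (n true (n false (n true (n false e e) e) (n false e e)) e)) (t 6 1 (u 4 2 (k v (k (c 12 4099 r (u 8 0 (k v (k v r)))) (k r (k (c 6 4099 v (u 8 15 (k v (k v (k v r))))) (k (c 12 4097 r r) (k (c 8 4095 r r) r))))))))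
 (.s 0x3a7754012bff00ee10 4089 (n false (n false (z 124) (z 5)) (n true (n false (n true (n false e e) e) (n false e e)) e)) (t 6 1 (u 4 2 (k v (k v (k (c 12 4097 r (u 8 1 (k v (k v r)))) (k (c 12 4096 r (u 8 1 (k v (k v r)))) (k (c 12 4097 r (u 8 1 (k v (k v r)))) (k (c 12 4099 r (u 8 1 (k v (k v r)))) r))))))))
 .z .z) .z)) (.s 0x3a7776012aaa00a888 4088 (n false (n false (z 85) (z 0)) (n false (n false (n false e e) (n false e e)) (n false e e))) (t 6 1 (u 4 17 (k v (k v (k (c 3 4091 v r) (k (c 12 4096 r (u 8 4 (k (t 24 1 (u 16 6 (k v (k v (k (u 32 4 (k v (k (t 96 1 (u 64 2 (k v (k v r)))) r))) (k (u 32 5 (k v (k v (k (t 96 1 (u 64 33 (k v (k v (k v r))))) r)))) r)))))) (k (t 24 2 (u 16 5 (k v (k v (k (c 4 4082 (u 8 1 (k v (k v r))) v) r))))) r)))) (k (c 8 4099 r r) r)))))))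
 (.s 0x3a775c012eee00ee10 4084 (n false (n false (z 42) (z 37)) (n true (n false (n true (n false e e) e) (n false e e)) e)) (u 6 1 (k r (k (u 4 1 (k v (k v r))) r)))
 (.s 0x3a775c012bbe00ee10 4081 (n false (n false (z 52) (z 37)) (n true (n false (n true (n false e e) e) (n false e e)) e)) (u 6 0 (k r (k (c 3 4091 v r) (k r (k r (k (u 10 2 (k r (k r (k (c 4 4097 r v) (k (t 26 1 r) r))))) (k r r)))))))
 .z .z) (.s 0x3a775d002555401708 4082 (n false (n false (z 165) (z 0)) (n false (n true (n false e e) e) (n false e e))) (t 6 1 (u 4 0 (k (c 12 4097 r (u 8 4 (k v (k v (k (t 24 1 (u 16 0 (k v (k (c 48 4099 r (u 32 0 (k v (k v r)))) r)))) (k (t 24 1 r) r)))))) (k (c 8 4098 r (u 12 0 (k (t 28 1 (u 20 0 (k v (k v (k (u 36 0 (k v (k v r))) (k (c 36 4097 r (u 52 3 (k v (k v (k v r))))) (k (c 36 4095 r (u 52 3 (k v (k v (k v r))))) r))))))) r))) r))))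
 .z .z)) (.s 0x3a777601708e7d5600 4091 (n false (n false (z 85) (n false (n true (n false e e) e) (n false e e))) (n true (z 67) e)) (u 4 41 (k r (k r (k (c 2 4080 r (c 5 4103 r v)) (k (c 12 4096 r (c 4 4095 r (u 5 0 (k v (k v r))))) (k (c 12 4097 r (u 5 0 (k (u 8 75 (k v (k v (k v r)))) (k (c 2 4087 r v) r)))) r))))))
 (.s 0x3a7776013aff00ee10 4083 (n false (n false (z 85) (z 121)) (n true (n false (n true (n false e e) e) (n false e e)) e)) (u 6 19 (k (c 5 4092 v r) (k r (k (c 10 4097 r (c 5 4092 v r)) (k (c 10 4095 r (c 5 4092 v (t 4 1 r))) (k (c 10 4095 r (c 5 4092 v (t 4 1 r))) r))))))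
 .z .z) .z))) (.s 0x3a7d5c012fee00ee10 4085 (n false (n false (z 46) (z 35)) (n true (n false (n true (n false e e) e) (n false e e)) e)) (u 4 1 (k r (k (u 8 1 (k r (k r r))) (k (c 12 4099 r (u 8 0 (k r (k r r)))) (k (u 6 0 (k (u 8 1 (k v (k v r))) (k r (k (t 14 1 (u 8 1 (k (u 10 0 (k (t 18 3 (t 26 1 v)) r)) (k (u 10 0 (k (t 18 3 (t 26 1 v)) r)) r)))) r)))) (k (c 12 4097 r (u 8 1 (k r (k r r)))) (k (c 8 4095 r (u 12 1 (k r (k r r)))) r)))))))
 (.s 0x3a7d5601d075445110 4086 (n false (n false (z 67) (n true (n false (n false e e) e) e)) (n true (n false (n false (n false (n false e e) (n false e e)) (n false (n false e e) (n false e e))) (n false e e)) e)) (u 4 50 (k v (k v (k v (k (c 8 4101 r r) (k (c 10 4094 v r) (k (c 8 4099 r r) (k (c 12 4101 r r) (k (c 12 4102 r r) (k (c 8 4101 r r) (k (c 8 4101 r r) r)))))))))))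
 (.s 0x3a7d56015114475c20 4083 (n false (n false (z 67) (n false (n false (n false e e) (n false e e)) (n false (n false e e) (n false e e)))) (n true (n false (n false (n true (n false e e) e) (n false e e)) e) e)) (u 4 76 (k v (k v (k v (k v (k (c 12 4099 r (u 8 1 (k v (k v r)))) (k (c 8 4101 r (u 12 4 (k v (k v r)))) (k (c 12 4099 r r) (k (c 2 4087 r v) (k (c 8 4099 r (u 12 4 (k v (k v r)))) (k (c 12 4099 r (u 8 2 (k v (k (c 24 4097 r (u 16 0 (k v (k v r)))) r)))) (k (c 12 4099 r (u 8 0 (k (u 16 0 (k v (k v r))) r))) (k (c 8 4099 r (u 12 1 (k v (k v r)))) (k (c 12 4099 r r) (k (c 8 4099 r (u 12 0 (k (u 20 0 (k v (k v r))) r))) (k (c 12 4099 r r) (k (c 12 4099 r r) (k (c 12 4099 r r) r))))))))))))))))))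
 (.s 0x3a7d5601511445d070 4077 (n false (n false (z 67) (n false (n false (n false e e) (n false e e)) (n false (n false e e) (n false e e)))) (n false (n true (n false (n false e e) e) e) (n true (n false e e) e))) (u 4 119 (k v (k v (k (c 8 4096 r (c 7 4094 v (u 12 0 (k (u 20 3 (k v (k v (k v r)))) r)))) (k (c 8 4101 r r) (k (u 8 19 (k v (k v (k v (k (c 24 4099 r (u 16 1 (k v (k v r)))) r))))) (k (c 8 4099 r r) (k (c 12 4101 r r) (k (c 12 4102 r r) (k (c 12 4100 r (u 8 11 (k v (k v (k (c 24 4101 r r) (k (c 24 4099 r r) (k (c 24 4096 r (u 16 0 (k (u 32 0 (k v (k v r))) r))) (k (c 16 4098 r r) (k (c 16 4101 r r) (k (c 16 4099 r r) (k (c 16 4101 r r) r))))))))))) (k (c 8 4101 r r) (k (c 8 4101 r r) r))))))))))))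
 .z .z) (.s 0x3a7d5601511447dc20 4083 (n false (n false (z 67) (n false (n false (n false e e) (n false e e)) (n false (n false e e) (n false e e)))) (n true (n true (n false (n true (n false e e) e) (n false e e)) e) e)) (u 4 76 (k v (k v (k v (k v (k (c 12 4099 r (u 8 1 (k v (k v r)))) (k (c 8 4101 r (u 12 4 (k v (k v r)))) (k (c 12 4099 r r) (k (c 2 4087 r v) (k (c 8 4099 r (u 12 4 (k v (k v r)))) (k (c 12 4099 r (u 8 2 (k v (k (c 24 4097 r (u 16 0 (k v (k v r)))) r)))) (k (c 12 4099 r (u 8 0 (k (u 16 0 (k v (k v r))) r))) (k (c 8 4099 r (u 12 1 (k v (k v r)))) (k (c 12 4099 r r) (k (c 8 4099 r (u 12 0 (k (u 20 0 (k v (k v r))) r))) (k (c 12 4099 r r) (k (c 12 4099 r r) (k (c 12 4099 r r) r))))))))))))))))))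
 .z .z)) (.s 0x3a7d5c012fee00ae10 4087 (n false (n false (z 46) (z 35)) (n false (n false (n true (n false e e) e) (n false e e)) e)) (u 6 0 (k r (k (t 4 1 v) (k (t 14 1 (u 10 0 (k (t 18 3 (t 26 1 (u 4 2 (k v (k (c 12 4099 r (u 8 0 (k v (k v r)))) (k (u 8 1 (k v (k v r))) (k (c 3 4091 v (c 10 4098 v r)) (k (c 12 4097 r (u 8 1 (k v (k v r)))) (k (c 8 4095 r (u 12 1 (k v (k v r)))) r))))))))) r))) r))))
 (.s 0x3a7d5601dc21d44510 4080 (n false (n false (z 67) (n true (n false (n true (n false e e) e) (n false e e)) e)) (n true (n false (n false (n false e e) (n false e e)) (n false (n false e e) (n false e e))) e)) (u 4 50 (k v (k v (k v (k (c 8 4101 r r) (k (c 10 4092 v r) (k (c 8 4099 r r) (k (c 12 4101 r (u 8 1 (k v (k v r)))) (k (c 12 4102 r (u 8 1 (k v (k v r)))) (k (c 8 4101 r (u 12 1 (k v (k v r)))) (k (c 8 4101 r (u 12 1 (k v (k v r)))) r)))))))))))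
 .z .z) .z)) (.s 0x3a7d5c013bae00ee10 4085 (n false (n false (z 37) (z 35)) (n true (n false (n true (n false e e) e) (n false e e)) e)) (u 6 0 (k r (k (t 4 1 v) (k (t 14 1 (u 4 0 (k (u 10 0 (k (t 18 3 (t 26 1 v)) r)) (k (c 10 4098 r r) (k (c 6 4096 (c 2 4098 r v) (u 8 0 (k (t 16 3 (t 24 1 v)) r))) (k r (k r (k (c 2 4088 r v) r)))))))) r))))
 (.s 0x3a7d5c013aff00ee10 4085 (n false (n false (z 121) (z 35)) (n true (n false (n true (n false e e) e) (n false e e)) e)) (u 4 1 (k r (k (c 12 4099 r (u 8 1 (k r (k r r)))) (k (c 8 4097 r (u 12 1 (k r (k r r)))) (k (c 8 4095 r (t 6 1 (c 3 4091 v r))) (k (c 8 4095 r (t 6 1 (c 3 4091 v r))) r))))))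
 (.s 0x3a7d5c013aff00ae10 4087 (n false (n false (z 121) (z 35)) (n false (n false (n true (n false e e) e) (n false e e)) e)) (u 4 2 (k r (k (c 6 4096 r v) (k (c 12 4099 r (u 8 1 (k r (k r r)))) (k (c 8 4095 r (u 12 0 (k r (k r r)))) (k (c 8 4095 r (u 12 0 (k r (k r r)))) r))))))
 .z .z) (.s 0x3a7d5c013bae00ae10 4087 (n false (n false (z 37) (z 35)) (n false (n false (n true (n false e e) e) (n false e e)) e)) (u 6 0 (k r (k (t 4 1 v) (k (t 14 1 (u 4 23 (k (c 2 4094 r v) (k (u 10 0 (k (t 18 3 (t 26 1 v)) r)) (k (c 6 4096 (c 2 4098 r v) (u 8 0 (k (t 16 3 (t 24 1 v)) r))) (k (u 10 0 (k (t 18 3 (t 26 1 (u 8 0 (k v (k v (k (t 24 1 (u 16 0 (k (t 32 3 (t 48 1 v)) r))) r)))))) r)) (k (c 4 4095 r (u 10 0 (k (t 18 3 (t 26 1 v)) r))) r))))))) r))))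
 .z .z)) (.s 0x3a7d7c013aff00ee10 4083 (n false (n false (z 121) (z 51)) (n true (n false (n true (n false e e) e) (n false e e)) e)) (u 6 0 (k (t 14 1 (u 10 0 (k (t 18 3 (t 26 3 (u 4 1 (k v (k (c 12 4099 r (u 8 1 (k v (k v r)))) (k (c 8 4097 r (u 12 1 (k v (k v r)))) (k (c 8 4095 r (u 12 0 (k v (k v r)))) (k (c 8 4095 r (u 12 0 (k v (k v r)))) r)))))))) r))) r))
 (.s 0x3a7d7c012fee00ee10 4083 (n false (n false (z 46) (z 51)) (n true (n false (n true (n false e e) e) (n false e e)) e)) (u 6 0 (k (t 14 1 (u 10 0 (k (t 18 3 (t 26 3 (u 4 1 (k v (k (u 8 1 (k v (k v r))) (k (c 12 4099 r (u 8 0 (k v (k v r)))) (k (u 8 1 (k v (k v r))) (k (c 12 4097 r (u 8 1 (k v (k v r)))) (k (c 8 4095 r (u 12 1 (k v (k v r)))) r))))))))) r))) r))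
 .z .z) .z))))

end Pool.Agent.Helper91.ND1
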