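import Pool.Agent.Helper66.ND.Defs

/-! part of the certificate for the constant 25/48 (generated) -/

namespace Pool.Agent.Helper91.ND1

open Pool.Agent.Helper66.IL
open Pool.Agent.Helper66.ND
open Pool.Agent.Helper66.ND.LT
open Pool.Agent.Helper66.ND.Ct

set_option maxRecDepth 100000 in
def N147 : NT :=
(.s 0x3a95fd400475445110 4090 (n false (n false (n false (z 156) e) (n false e e)) (n true (n false (n false (n false (n false e e) (n false e e)) (n false (n false e e) (n false e e))) (n false e e)) e)) (u 8 8 (k v (k v (k (c 24 4099 r (u 16 1 (k v (k v r)))) (k (c 16 4098 r (u 24 1 (k v (k v r)))) (k (c 16 4097 r (u 24 18 (k v (k v (k v r))))) (k (c 16 4099 r (u 24 1 (k v (k v r)))) r)))))))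
 (.s 0x3a7f76013bae00ee10 4083 (n false (n false (z 87) (z 37)) (n true (n false (n true (n false e e) e) (n false e e)) e)) (u 6 0 (k (u 4 1 (k v (k v r))) (k (t 4 1 r) (k (u 4 0 (k (u 10 0 (k (t 18 3 (t 26 1 v)) r)) (k (c 10 4096 r v) r))) (k (u 4 0 (k r (k (c 10 4096 r v) r))) (k (u 4 0 (k r (k (c 10 4096 r v) r))) (k (u 4 0 (k r (k (c 10 4096 r v) r))) r)))))))
 (.s 0x3a7f76013aeb00ee10 4085 (n false (n false (z 73) (z 87)) (n true (n false (n true (n false e e) e) (n false e e)) e)) (u 4 0 (k (t 6 1 (c 3 4091 v r)) r))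
 (.s 0x3a7df6013baa00ee10 4089 (n false (n false (z 91) (z 5)) (n true (n false (n true (n false e e) e) (n false e e)) e)) (t 6 1 (u 4 1 (k v (k v (k v (k (u 8 0 (k v (k v r))) (k (c 8 4097 r (u 12 0 (k v (k v r)))) (k (c 8 4095 r (u 12 0 (k v (k v r)))) r))))))))
 (.s 0x3a7df6013baa00ae10 4089 (n false (n false (z 91) (z 5)) (n false (n false (n true (n false e e) e) (n false e e)) e)) (t 6 1 (u 4 1 (k v (k v (k v (k (u 8 0 (k v (k v r))) (k (c 8 4097 r (u 12 0 (k v (k v r)))) (k (c 8 4095 r (u 12 0 (k v (k v r)))) r))))))))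
 .z .z) (.s 0x3a7df6013bae00ee10 4083 (n false (n false (z 91) (z 37)) (n true (n false (n true (n false e e) e) (n false e e)) e)) (u 4 7 (k (t 6 1 v) (k (u 8 1 (k (c 5 4092 v r) (k (c 5 4092 v r) r))) r)))
 .z .z)) (.s 0x3a7f76013aff00ef80 4088 (n false (n false (z 121) (z 87)) (n true (n false (n true (n true (n false e e) e) e) e) e)) (c 17 4094 v (u 6 0 (k r (k (t 4 2 v) r))))
 (.s 0x3a7f76013aff00ee10 4083 (n false (n false (z 121) (z 87)) (n true (n false (n true (n false e e) e) (n false e e)) e)) (u 4 1 (k (u 6 1 (k v (k v r))) (k (c 12 4099 r r) (k (c 8 4097 r r) (k (c 8 4095 r (t 6 1 (c 3 4091 v r))) (k (c 8 4095 r (t 6 1 (c 3 4091 v r))) r))))))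
 .z .z) .z)) (.s 0x3a9557002e113bbb00 4084 (n false (n false (n false (z 32) e) (n false (n true (n false e e) e) (n false e e))) (z 85)) (u 3 14 (k (c 10 4094 v (u 8 0 (k (t 16 3 (t 24 1 v)) r))) (k (c 10 4094 v (u 8 0 (k (t 16 3 (t 24 1 v)) r))) (k (c 7 4099 r (u 8 0 (k (t 16 3 (t 24 1 (u 5 103 (k v (k v (k v (k v (k (t 13 1 (u 9 0 (k v (k v r)))) r)))))))) r))) (k (c 7 4099 r r) (k (c 7 4099 r (c 3 4094 r r)) (k (c 7 4096 r r) r)))))))
 (.s 0x3a9557002777601708 4076 (n false (n false (z 85) (n false (z 32) e)) (n false (n true (n false e e) e) (n false e e))) (u 10 0 (k (t 18 3 (t 26 1 (u 4 24 (k v (k (c 12 4099 r (u 8 382 (k v (k v (k v (k v (k v (k v (k v r))))))))) (k (c 12 4099 r r) (k (c 12 4099 r (u 8 3 (k v (k v (k v (k (t 24 1 (u 16 26 (k v (k v (k v r))))) r)))))) (k (u 8 24 (k v (k v (k v (k (t 24 2 (u 16 26 (k v (k v (k v r))))) r))))) (k (c 12 4096 r r) r))))))))) r))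
 (.s 0x3a95570025fdc01d10 4082 (n false (n false (z 46) (n false (z 32) e)) (n true (n false (n false e e) (n false e e)) e)) (u 4 9 (k (u 10 0 (k (t 18 3 (t 26 1 v)) r)) (k (u 10 0 (k (t 18 3 (t 26 1 v)) r)) (k (c 10 4096 r r) r))))
 .z .z) (.s 0x3a95570027df601708 4076 (n false (n false (z 91) (n false (z 32) e)) (n false (n true (n false e e) e) (n false e e))) (u 10 0 (k (t 18 3 (t 26 1 (u 4 0 (k v (k v (k (u 8 0 (k v (k v r))) (k (c 8 4097 r (u 12 3 (k v (k v (k v r))))) (k (c 8 4095 r (u 12 3 (k v (k v (k v r))))) r)))))))) r))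
 .z .z)) (.s 0x3a95fd400474bbb800 4086 (n false (n true (n false (z 42) e) e) (n false (n false (z 156) e) (n false e e))) (u 8 0 (k r (k (u 9 25 (k v (k v (k v (k (c 25 4099 r (u 17 1 (k v (k v r)))) (k (c 17 4099 r (u 25 1 (k v (k v r)))) r)))))) r)))
 (.s 0x3a95df0027f5601708 4079 (n false (n false (z 71) (n false (z 52) e)) (n false (n true (n false e e) e) (n false e e))) (u 10 375 (k r (k (u 4 0 (k v (k (c 12 4099 r (u 8 0 (k v (k v r)))) r))) (k (u 4 1 (k v (k (c 12 4099 r (u 8 1 (k v (k v r)))) (k (u 8 0 (k v (k v r))) (k (c 8 4099 r (u 12 1 (k v (k v r)))) (k (c 8 4099 r (u 12 1 (k v (k v r)))) (k (c 8 4099 r (u 12 1 (k v (k v r)))) r))))))) (k (u 4 3 (k v (k v (k (u 8 0 (k v (k v r))) (k (c 8 4099 r (u 12 1 (k v (k v r)))) (k (c 8 4099 r (u 12 1 (k v (k v r)))) (k (c 8 4099 r (u 12 1 (k v (k v r)))) r))))))) r)))))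
 .z .z) .z))) (.s 0x3a9f5580257fe01d10 4082 (n false (n false (z 124) (n false (z 67) e)) (n true (n false (n false e e) (n false e e)) e)) (u 4 5 (k (u 10 0 (k v (k v r))) (k (c 12 4097 r r) (k (c 12 4096 r r) (k (c 8 4098 r (u 12 0 (k (u 10 0 (k v (k v r))) (k (u 10 0 (k v (k v r))) r)))) (k (c 12 4096 r r) (k (c 12 4097 r r) (k (c 12 4097 r r) (k (c 12 4096 r r) (k (c 8 4097 r r) r))))))))))
 (.s 0x3a9dd5004bbb802288 4088 (n false (n false (n false (z 42) (z 5)) (n false e e)) (n false (n false e e) (n false e e))) (t 12 1 (u 8 2 (k v (k (c 12 4099 v (c 4 4087 (t 6 1 r) v)) (k (c 4 4090 r v) (k (c 4 4090 (c 3 4099 v r) v) (k (c 2 4089 (c 2 4090 r v) v) (k (c 4 4090 r v) r))))))))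
 (.s 0x3a977d804bae803a08 4077 (n false (n false (n false (z 18) (z 90)) (n true (n false (n false e e) e) e)) (n false e e)) (t 8 2 (c 2 4068 (u 6 1 (k v (k r (k (c 14 4097 r r) (k r (k (c 10 4097 r (u 14 0 (k (u 22 0 (k v (k v r))) r))) (k (c 14 4097 r r) (k r (k (c 14 4095 r r) (k (c 10 4095 r r) r)))))))))) v))
 (.s 0x3a9777004affc02288 4088 (n false (n false (n false (z 124) (z 42)) (n false e e)) (n false (n false e e) (n false e e))) (u 12 59 (k (c 4 4083 r v) (k (c 2 4067 r v) (k (c 8 4099 r v) (k r (k (c 8 4099 r r) (k (c 28 4110 r (c 2 4075 (u 10 1 (k r (k r r))) v)) (k (c 8 4099 r (c 4 4087 r v)) (k (c 28 4110 r (c 2 4074 r v)) (k (c 8 4099 r r) (k (c 8 4099 r r) r)))))))))))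
 .z .z) (.s 0x3a97f7004bbb802288 4088 (n false (n false (n false (z 46) (z 42)) (n false e e)) (n false (n false e e) (n false e e))) (u 12 59 (k (c 4 4083 r v) (k (c 2 4067 r v) (k (c 8 4099 r v) (k r (k (c 8 4099 r r) (k (c 28 4110 r (c 2 4079 r v)) (k (c 8 4099 r (c 4 4087 r v)) (k (c 28 4110 r (c 2 4074 (u 10 1 (k r (k r r))) v)) (k (c 8 4099 r r) (k (c 8 4099 r r) r)))))))))))
 .z .z)) (.s 0x3a9df700447cfeec00 4091 (n false (n true (n true (z 87) e) e) (n false (n false (z 45) (n false e e)) (n false e e))) (u 8 1 (k (u 9 0 (k v (k v r))) (k (u 9 3 (k v (k v r))) r)))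
 (.s 0x3a9ddd804bbb802288 4088 (n false (n false (n false (z 85) (z 42)) (n false e e)) (n false (n false e e) (n false e e))) (u 12 60 (k (c 2 4081 (c 2 4083 r v) v) (k (c 8 4099 r v) (k (c 2 4081 (c 10 4110 v r) v) (k r (k (c 8 4099 r r) (k (t 28 2 (c 4 4088 r v)) (k (c 8 4099 r (c 4 4087 r v)) (k r (k (c 8 4099 r r) (k (c 8 4099 r r) r)))))))))))
 .z .z) .z)) (.s 0x3a9f57003b842a2288 4078 (n false (n false (n false (z 35) e) (n true (n false (n true (n false e e) e) (n false e e)) e)) (n false (n false (n false e e) (n false e e)) (n false (n false e e) (n false e e)))) (u 8 4 (k v (k v (k v (k v r)))))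
 (.s 0x3a9f570025fdc01d10 4082 (n false (n false (z 46) (n false (z 35) e)) (n true (n false (n false e e) (n false e e)) e)) (u 4 13 (k r (k r (k (c 10 4096 r v) (k r (k (c 10 4096 r r) (k (c 12 4097 r r) r)))))))
 (.s 0x3a9f57002577c01708 4072 (n false (n false (z 52) (n false (z 35) e)) (n false (n true (n false e e) e) (n false e e))) (u 10 5 (k r (k (u 4 138 (k v (k v (k v r)))) (k (c 4 4097 r v) (k (t 26 1 (u 18 0 (k (t 34 3 (t 50 1 (u 4 74 (k v (k v (k v (k v r))))))) r))) r)))))
 .z .z) (.s 0x3a9f57002955700288 4082 (n false (n false (n false (z 35) e) (n false (z 32) e)) (n false (n false e e) (n false e e))) (u 8 2 (k (u 10 0 (k (t 18 3 (t 26 1 v)) r)) (k (u 10 0 (k (t 18 3 (t 26 1 v)) r)) (k (c 6 4101 (u 2 0 (k (t 4 3 (t 6 1 v)) r)) v) (k (t 24 1 (u 16 0 (k (t 32 3 (t 48 1 (u 10 0 (k (t 18 3 (t 26 1 v)) r)))) r))) r)))))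
 .z .z)) (.s 0x3a9fd5804eea802288 4089 (n false (n false (n false (z 71) (z 5)) (n false e e)) (n false (n false e e) (n false e e))) (t 12 1 (u 8 6 (k r (k r (k (u 16 1 (k v (k (t 48 1 r) (k (t 32 2 r) (k (t 32 1 r) r))))) (k (t 24 1 (c 12 4099 v r)) (k (t 24 1 (c 4 4086 r v)) (k (t 24 1 (c 4 4086 r v)) r))))))))
 (.s 0x3a9f5f004ebfc01708 4081 (n false (n false (n false (z 51) (z 121)) e) (n false (n true (n false e e) e) (n false e e))) (t 8 1 (u 12 39 (k v (k v (k (c 28 4099 r (u 20 1 (k v (k v r)))) (k (c 20 4095 r (u 28 0 (k v (k v r)))) r))))))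
 .z .z) .z))))

set_option maxRecDepth 100000 in
def N148 : NT :=
(.s 0x3aa88a2225ddc01f40 4088 (n false (n false (z 42) (n false (n false (n false (n false e e) (n false e e)) (n false (n false e e) (n false e e))) (n false e e))) (n true (n true (n false (n false e e) e) e) e)) (u 4 16 (k v (k v (k (c 2 4090 r v) (k (c 2 4090 (c 3 4099 v r) v) (k (c 2 4090 r v) (k (c 2 4090 r v) r)))))))
 (.s 0x3aa57f5002555400e0 4083 (n false (n false (n false (n false (z 156) (z 0)) e) (n true (n false e e) e)) e) (t 24 1 (u 16 1 (k v (k (c 48 4099 r (u 32 1 (k v (k v r)))) (k (c 32 4098 r (u 48 1 (k v (k v r)))) (k (c 32 4097 r (u 48 1 (k v (k v r)))) (k (c 32 4099 r (u 48 1 (k v (k v r)))) (k (c 32 4095 r (c 4 4087 r v)) r))))))))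
 (.s 0x3a9fdf0029f5700288 4082 (n false (n false (n false (z 55) e) (n false (z 35) e)) (n false (n false e e) (n false e e))) (u 10 10 (k r (k r (k (c 4 4095 r v) (k (t 26 1 (u 18 0 (k (t 34 3 (t 50 1 (u 8 6 (k v (k (t 24 1 (u 16 10 (k v (k v r)))) r))))) r))) r)))))
 (.s 0x3a9fdf0027df601708 4076 (n false (n false (z 91) (n false (z 55) e)) (n false (n true (n false e e) e) (n false e e))) (u 4 0 (k r (k (u 10 3 (k v (k v r))) (k (u 10 9 (k (u 8 1 (k v (k v r))) (k (u 8 1 (k v (k v r))) r))) (k (c 8 4097 r r) (k (c 8 4095 r r) r))))))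
 (.s 0x3a9fdf002777601708 4076 (n false (n false (n false (z 55) e) (z 85)) (n false (n true (n false e e) e) (n false e e))) (u 6 24 (k r (k (c 14 4099 r r) (k (c 14 4099 r r) (k (c 14 4099 r r) (k r (k (c 14 4096 r r) r)))))))
 .z .z) (.s 0x3a9fdf002955700288 4082 (n false (n false (n false (z 55) e) (n false (z 32) e)) (n false (n false e e) (n false e e))) (u 10 0 (k (t 18 3 (t 26 1 (u 8 9 (k v (k v r))))) r))
 .z .z)) (.s 0x3a9fdf004eea803850 4069 (n false (n false (n false (z 55) (z 5)) (n true (n false e e) e)) (n false (n false e e) e)) (t 12 1 (u 8 4 (k (t 24 1 (u 16 4 (k v (k v (k (u 32 4 (k v (k (t 96 1 (u 64 4 (k v (k v r)))) r))) (k (u 32 4 (k v (k (t 96 1 (u 64 4 (k v (k v r)))) r))) (k (c 12 4099 v r) (k (c 12 4099 v r) r)))))))) (k (t 24 2 (c 12 4099 v r)) r))))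
 (.s 0x3a9fdf002e113bbb00 4084 (n false (n false (n false (z 55) e) (n false (n true (n false e e) e) (n false e e))) (z 85)) (u 3 43 (k (c 6 4092 v (c 2 4088 r v)) (k (c 10 4094 v r) (k r r))))
 .z .z) .z)) (.s 0x3aa75fe00875445110 4085 (n false (n false (n false (n false (z 121) e) (n false e e)) e) (n true (n false (n false (n false (n false e e) (n false e e)) (n false (n false e e) (n false e e))) (n false e e)) e)) (u 16 3 (k v (k v (k (c 48 4099 r (u 32 1 (k v (k v r)))) (k (c 32 4097 r (u 48 1 (k v (k v r)))) r)))))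
 (.s 0x3aa57f5002577c00e0 4076 (n false (n false (n false (n false (z 156) (z 52)) e) (n true (n false e e) e)) e) (u 16 1 (k (u 24 26 (k v (k v (k v r)))) (k (c 48 4099 r r) (k (c 32 4098 r r) (k (c 32 4097 r r) (k (c 32 4099 r r) (k (c 32 4095 r r) r)))))))
 (.s 0x3aa57f5002577c0088 4076 (n false (n false (n false (n false (z 156) (z 52)) e) (n false e e)) (n false e e)) (u 16 1 (k (u 24 26 (k v (k v (k v r)))) (k (c 48 4099 r r) (k (c 32 4098 r r) (k (c 32 4097 r r) (k (c 32 4099 r r) (k (c 32 4095 r r) r)))))))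
 .z .z) (.s 0x3aa5ff5002555400e0 4083 (n false (n false (n false (n false (z 158) (z 0)) e) (n true (n false e e) e)) e) (t 24 1 (u 16 0 (k (u 32 1 (k v (k v (k (t 96 1 (u 64 0 (k v (k (c 192 4099 r (u 128 0 (k v (k v r)))) r)))) r)))) r)))
 .z .z)) (.s 0x3aa88a2225ddc01708 4085 (n false (n false (z 42) (n false (n false (n false (n false e e) (n false e e)) (n false (n false e e) (n false e e))) (n false e e))) (n false (n true (n false e e) e) (n false e e))) (u 4 10 (k v (k v (k (t 8 3 (t 12 1 v)) (k (c 2 4090 r v) (k (c 12 4110 r r) (k (c 12 4110 r r) (k (c 12 4110 r (c 10 4101 v (u 8 1 (k v (k v r))))) (k (c 2 4090 (c 3 4099 v r) v) (k (c 12 4110 r (c 10 4101 v (u 8 1 (k v (k v r))))) (k (c 2 4090 r v) (k (c 2 4090 r v) r))))))))))))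
 (.s 0x3aa775d002555400e0 4083 (n false (n false (n false (n false (z 165) (z 0)) e) (n true (n false e e) e)) e) (t 24 1 (u 16 0 (k (c 48 4097 r (u 32 2 (k v (k v (k v (k (t 96 1 (u 64 0 (k v (k (c 192 4099 r (u 128 0 (k v (k v r)))) r)))) r)))))) (k (c 32 4098 r (u 48 0 (k (t 112 1 (u 80 0 (k v (k v (k (u 144 0 (k v (k v r))) (k (c 144 4097 r (u 208 3 (k v (k v (k v r))))) (k (c 144 4095 r (u 208 3 (k v (k v (k v r))))) r))))))) r))) r))))
 .z .z) .z))) (.s 0x3aa88a223e0e7d5600 4094 (n false (n true (z 67) e) (n false (n true (n true (n false e e) e) e) (n false (n false (n false (n false e e) (n false e e)) (n false (n false e e) (n false e e))) (n false e e)))) (c 11 4101 v (c 9 4094 v r))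
 (.s 0x3aa88a222a0e7d5600 4091 (n false (n false (n false (n false (n false e e) e) e) (n false (n false (n false (n false e e) (n false e e)) (n false (n false e e) (n false e e))) (n false e e))) (n true (z 67) e)) (u 5 136 (k v (k v (k v (k v (k (t 13 1 (u 9 1 (k v (k v r)))) (k (u 9 2 (k (t 13 1 v) (k (u 13 0 (k v (k v r))) r))) (k r (k (c 3 4088 r v) (k (c 3 4091 (t 6 2 (u 4 0 (k r r))) v) (k (c 8 4094 v r) (k (t 13 1 (u 9 4 (k v (k v (k (c 25 4099 r (u 17 1 (k v (k v r)))) (k (c 17 4097 r r) r)))))) (k (c 3 4091 (t 4 1 (u 6 0 (k r r))) v) (k (c 8 4094 v (c 10 4101 v r)) (k r (k (c 8 4094 v (c 10 4101 v r)) r))))))))))))))))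
 (.s 0x3aa88a2227ddc01708 4091 (n false (n false (z 43) (n false (n false (n false (n false e e) (n false e e)) (n false (n false e e) (n false e e))) (n false e e))) (n false (n true (n false e e) e) (n false e e))) (u 4 10 (k v (k v (k (u 8 35 (k v (k v (k v r)))) (k (u 8 4 (k v (k v (k (c 24 4099 r (u 16 0 (k v (k v r)))) (k (u 16 1 (k v (k v r))) (k (u 16 13 (k v (k v r))) r)))))) (k (c 2 4088 r v) (k (u 8 0 (k (u 16 0 (k v (k v r))) r)) (k r (k (u 8 4 (k v (k (c 24 4099 r (u 16 1 (k v (k v r)))) r))) r)))))))))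
 (.s 0x3aa88a22275f601f40 4086 (n false (n false (z 89) (n false (n false (n false (n false e e) (n false e e)) (n false (n false e e) (n false e e))) (n false e e))) (n true (n true (n false (n false e e) e) e) e)) (u 4 28 (k v (k v (k v (k (t 12 3 (u 8 45 (k v (k v (k v (k v r)))))) (k (c 12 4099 r r) (k (c 8 4099 r r) r)))))))
 .z .z) (.s 0x3aa88a22288e7d5600 4091 (n false (n true (z 67) e) (n false (n false (n false (n false (n false e e) (n false e e)) (n false (n false e e) (n false e e))) (n false e e)) (n false (n false e e) (n false e e)))) (c 5 4099 v (u 4 0 (k v (k v r))))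
 .z .z)) (.s 0x3aa88a223a0e7d5600 4088 (n false (n true (z 67) e) (n false (n true (n false (n false e e) e) e) (n false (n false (n false (n false e e) (n false e e)) (n false (n false e e) (n false e e))) (n false e e)))) (u 4 33 (k v (k v (k v (k v (k (t 12 1 (u 8 1 (k v (k v r)))) (k (u 8 2 (k (t 12 1 v) (k (u 12 0 (k v (k v r))) r))) (k r (k (c 2 4088 r v) (k (c 7 4099 v r) (k (t 12 1 (u 8 2 (k v (k (c 24 4097 r (u 16 0 (k v (k v r)))) r)))) (k (c 2 4091 (t 6 2 (u 4 0 (k r r))) v) (k (u 12 2 (k (t 8 1 v) (k (u 8 1 (k v (k v r))) r))) (k r (k (c 2 4091 (t 4 1 (u 6 0 (k r r))) v) (k (c 7 4099 v r) (k r (k (c 7 4099 v r) r))))))))))))))))))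
 (.s 0x3aa88a222e0e7d5600 4094 (n false (n true (z 67) e) (n false (n false (n true (n false e e) e) e) (n false (n false (n false (n false e e) (n false e e)) (n false (n false e e) (n false e e))) (n false e e)))) (c 11 4101 v (c 9 4094 v r))
 .z .z) .z)) (.s 0x3aa9f5f004ebfc0380 4080 (n false (n false (n false (n false (n false (z 51) (z 121)) (n true (n false e e) e)) e) e) e) (t 32 1 (u 48 39 (k v (k v (k (c 112 4099 r (u 80 1 (k v (k v r)))) (k (c 80 4095 r (u 112 0 (k v (k v r)))) r))))))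
 (.s 0x3aa9f5700383a88a20 4069 (n false (n false (n false (n false (n false (z 35) e) (n true (n false e e) e)) e) (n true (n false (n false (n false e e) (n false e e)) (n false (n false e e) (n false e e))) e)) e) (u 32 2 (k v (k v (k v (k (t 96 1 (u 64 0 (k (t 128 3 (t 192 1 v)) r))) r)))))
 (.s 0x3aa88a223e812bbe00 4088 (n false (n false (n true (n true (n false (n false e e) e) e) e) (n false (n false (n false (n false e e) (n false e e)) (n false (n false e e) (n false e e))) (n false e e))) (z 52)) (u 3 150 (k v (k v (k v (k v (k v (k (t 7 1 (u 5 0 (k v (k v r)))) r)))))))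
 .z .z) (.s 0x3aa9f5f004bfb80380 4080 (n false (n false (n false (n false (n false (z 51) (z 46)) (n true (n false e e) e)) e) e) e) (t 32 1 (u 48 21 (k v (k v (k (c 112 4099 r (u 80 0 (k v (k v r)))) (k (u 80 1 (k v (k v r))) (k (u 80 0 (k v (k v r))) (k (c 112 4097 r (u 80 1 (k v (k v r)))) r))))))))
 .z .z)) (.s 0x3aab975f00210e1708 4062 (n false (n false (n false (n false (n false (n false (n true (z 50) e) (n false e e)) e) (n false e e)) e) (n true (n false e e) e)) (n false (n true (n false e e) e) (n false e e))) (u 128 1 (k v (k (c 384 4097 r (u 256 0 (k v (k v r)))) r)))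
 (.s 0x3aab95df00210e1708 4060 (n false (n false (n false (n false (n false (n false (n true (z 52) e) (n false e e)) e) (n false e e)) e) (n true (n false e e) e)) (n false (n true (n false e e) e) (n false e e))) (u 128 23 (k v (k v (k v (k v (k v (k v (k v (k (t 384 2 (u 256 0 (k (u 512 2 (k v (k (c 64 4078 (u 16 1 (k v (k v r))) v) r))) r))) (k (t 384 1 (u 256 0 (k (c 768 4099 r (u 512 2 (k v (k (c 64 4078 (u 16 1 (k v (k v r))) v) r)))) r))) r))))))))))
 .z .z) .z))))

set_option maxRecDepth 100000 in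
def N149 : NT :=
(.s 0x3ae577c0077085d108 4069 (n false (n false (n false (n true (z 52) e) e) (n true (n false (n true (n false e e) e) (n false e e)) e)) (n false (n true (n false (n false e e) (n false e e)) e) (n false e e))) (u 16 308 (k v (k v (k v (k v (k v (k v (k v r))))))))
 (.s 0x3ab9f55802577c0088 4077 (n false (n false (n false (n false (n true (z 67) e) (z 52)) e) (n false e e)) (n false e e)) (u 32 0 (k (u 24 26 (k v (k v (k v r)))) (k (u 24 26 (k v (k v (k v r)))) r)))
 (.s 0x3aab9fdf80210e1708 4064 (n false (n false (n false (n false (n false (n false (n true (z 119) e) (n false e e)) e) (n false e e)) e) (n true (n false e e) e)) (n false (n true (n false e e) e) (n false e e))) (u 128 11 (k v (k v (k (c 384 4101 r r) (k (c 384 4099 r r) (k (c 384 4096 r (u 256 0 (k (u 512 0 (k v (k v r))) r))) (k (c 256 4098 r r) (k (c 256 4101 r r) (k (c 256 4099 r r) (k (c 256 4101 r r) r))))))))))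
 (.s 0x3aab9dd700210e1708 4062 (n false (n false (n false (n false (n false (n false (n true (z 37) e) (n false e e)) e) (n false e e)) e) (n true (n false e e) e)) (n false (n true (n false e e) e) (n false e e))) (u 128 0 (k v (k (u 256 0 (k (t 512 3 (t 768 1 v)) r)) (k (u 256 0 (k (t 512 3 (t 768 1 v)) r)) (k (u 256 2 (k v (k v (k v (k (t 768 1 (u 512 0 (k (t 1024 3 (t 1536 1 v)) r))) r))))) (k (u 256 0 (k v (k v (k (t 768 1 (u 512 0 (k (t 1024 3 (t 1536 1 v)) r))) r)))) (k (c 64 4088 r v) r)))))))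
 (.s 0x3aab9d7f80210e1708 4062 (n false (n false (n false (n false (n false (n false (n true (z 121) e) (n false e e)) e) (n false e e)) e) (n true (n false e e) e)) (n false (n true (n false e e) e) (n false e e))) (u 128 2 (k v (k v (k (c 384 4099 r (u 256 1 (k v (k v r)))) (k (c 256 4095 r (u 384 0 (k v (k v r)))) (k (c 256 4095 r (u 384 0 (k v (k v r)))) r))))))
 .z .z) (.s 0x3aab9fdf00210e1708 4060 (n false (n false (n false (n false (n false (n false (n true (z 55) e) (n false e e)) e) (n false e e)) e) (n true (n false e e) e)) (n false (n true (n false e e) e) (n false e e))) (u 128 2 (k v (k (t 384 2 (u 256 2 (k v (k (c 64 4082 (u 8 1 (k v (k v r))) v) r)))) r)))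
 .z .z)) (.s 0x3ab9777002577c00e0 4075 (n false (n false (n false (n false (z 52) (n true (z 42) e)) e) (n true (n false e e) e)) e) (u 40 1 (k (u 16 26 (k v (k v (k v r)))) (k (u 16 26 (k v (k v (k v r)))) r)))
 (.s 0x3ab9777002577c0088 4075 (n false (n false (n false (n false (z 52) (n true (z 42) e)) e) (n false e e)) (n false e e)) (u 40 1 (k (u 16 26 (k v (k v (k v r)))) (k (u 16 26 (k v (k v (k v r)))) r)))
 .z .z) .z)) (.s 0x3ab9fdd802577c00e0 4073 (n false (n false (n false (n false (z 52) (n true (z 87) e)) e) (n true (n false e e) e)) e) (u 16 26 (k (u 40 1 (k v (k v r))) (k (u 40 1 (k v (k v r))) (k (u 40 1 (k v (k v r))) r))))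
 (.s 0x3ab9f5700383a88a20 4071 (n false (n false (n false (n false (n true (z 35) e) (n true (n false e e) e)) e) (n true (n false (n false (n false e e) (n false e e)) (n false (n false e e) (n false e e))) e)) e) (u 32 5 (k v (k v (k v (k (t 96 1 (u 64 0 (k (t 128 3 (t 192 1 v)) r))) r)))))
 (.s 0x3ab9f55802577c00e0 4077 (n false (n false (n false (n false (n true (z 67) e) (z 52)) e) (n true (n false e e) e)) e) (u 32 0 (k (u 24 26 (k v (k v (k v r)))) (k (u 24 26 (k v (k v (k v r)))) r)))
 .z .z) (.s 0x3ab9fdd802577c0088 4073 (n false (n false (n false (n false (z 52) (n true (z 87) e)) e) (n false e e)) (n false e e)) (u 16 26 (k (u 40 1 (k v (k v r))) (k (u 40 1 (k v (k v r))) (k (u 40 1 (k v (k v r))) r))))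
 .z .z)) (.s 0x3ae577c00475445110 4082 (n false (n false (n false (n true (z 52) e) e) (n false e e)) (n true (n false (n false (n false (n false e e) (n false e e)) (n false (n false e e) (n false e e))) (n false e e)) e)) (u 16 90 (k v (k v (k v (k v (k v (k v (k v r))))))))
 (.s 0x3ae55fc00475445110 4082 (n false (n false (n false (n true (z 56) e) e) (n false e e)) (n true (n false (n false (n false (n false e e) (n false e e)) (n false (n false e e) (n false e e))) (n false e e)) e)) (u 16 1 (k (u 32 1 (k v (k v r))) (k (u 32 225 (k v (k v (k v (k v (k v (k v (k v r)))))))) (k (c 32 4096 r (u 48 0 (k v (k v r)))) (k (c 48 4096 r (u 32 226 (k v (k v (k v (k v (k v (k v (k v r))))))))) r)))))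
 .z .z) .z))) (.s 0x3ae95fd40095550020 4085 (n false (n false (n false (n true (n false (z 156) (z 0)) e) (n false e e)) e) e) (t 48 1 (u 32 1 (k v (k (c 96 4099 r (u 64 1 (k v (k v r)))) (k (c 64 4098 r (u 96 1 (k v (k v r)))) (k (c 64 4097 r (u 96 1 (k v (k v r)))) (k (c 64 4099 r (u 96 1 (k v (k v r)))) (k (c 64 4095 r (c 8 4087 r v)) r))))))))
 (.s 0x3ae5ffc00e0e7d5600 4088 (n false (n false (n false (n true (z 62) e) (n true (n false e e) e)) e) (n true (z 67) e)) (u 16 4 (k (c 12 4094 v r) (k (c 12 4094 v r) (k (c 12 4094 v r) (k (t 48 1 (u 5 28 (k r (k (c 16 4095 (c 2 4097 r v) v) (k r (k (t 32 1 (c 13 4101 r (c 12 4094 v (u 9 1 (k v (k v r)))))) (k r (k (c 8 4094 r (c 12 4094 v r)) (k r (k (c 8 4094 r (c 12 4094 v r)) r)))))))))) r)))))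
 (.s 0x3ae57fe00475445110 4081 (n false (n false (n false (n true (z 124) e) e) (n false e e)) (n true (n false (n false (n false (n false e e) (n false e e)) (n false (n false e e) (n false e e))) (n false e e)) e)) (u 16 1 (k v (k (c 48 4097 r (u 32 1 (k v (k v r)))) (k (c 48 4096 r (u 32 1 (k v (k v r)))) (k (c 32 4098 r (u 48 0 (k v (k v r)))) (k (c 48 4096 r (u 32 1 (k v (k v r)))) (k (c 48 4097 r (u 32 1 (k v (k v r)))) (k (c 48 4097 r (u 32 1 (k v (k v r)))) (k (c 48 4096 r (u 32 1 (k v (k v r)))) (k (c 48 4099 r (u 32 1 (k v (k v r)))) (k (c 32 4097 r (u 48 1 (k v (k v r)))) r)))))))))))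
 (.s 0x3ae577c00e0e7d5600 4088 (n false (n false (n false (n true (z 52) e) (n true (n false e e) e)) e) (n true (z 67) e)) (u 16 336 (k r (k (c 12 4094 v r) (k (c 12 4094 v r) (k (c 12 4094 v (u 5 0 (k v (k v r)))) (k (c 12 4094 v r) (k (c 2 4082 v (c 5 4103 r v)) r)))))))
 .z .z) (.s 0x3ae5fdc00475445110 4081 (n false (n false (n false (n true (z 46) e) e) (n false e e)) (n true (n false (n false (n false (n false e e) (n false e e)) (n false (n false e e) (n false e e))) (n false e e)) e)) (u 16 1 (k v (k (u 32 1 (k v (k v r))) (k (c 48 4099 r (u 32 0 (k v (k v r)))) (k (u 32 1 (k v (k v r))) (k (c 48 4097 r (u 32 1 (k v (k v r)))) (k (c 32 4095 r (u 48 1 (k v (k v r)))) r)))))))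
 .z .z)) (.s 0x3ae7f7c00e0e7d5600 4088 (n false (n false (n false (n true (z 55) e) (n true (n false e e) e)) e) (n true (z 67) e)) (c 12 4094 v (u 5 141 (k r (k (u 16 4 (k (t 48 1 (u 32 2 (k v (k (c 96 4099 r (t 64 3 v)) (k (u 64 2 (k v (k v r))) r))))) (k (t 48 2 (c 3 4091 v (u 32 7 (k v (k v (k (c 4 4081 (u 16 1 (k v (k v r))) v) r)))))) r))) (k (c 4 4088 r v) r)))))
 (.s 0x3ae75fe00475445110 4083 (n false (n false (n false (n true (z 121) e) e) (n false e e)) (n true (n false (n false (n false (n false e e) (n false e e)) (n false (n false e e) (n false e e))) (n false e e)) e)) (u 16 1 (k v (k (c 48 4099 r (u 32 1 (k v (k v r)))) (k (c 32 4097 r (u 48 1 (k v (k v r)))) (k (c 32 4095 r (u 48 0 (k v (k v r)))) (k (c 32 4095 r (u 48 0 (k v (k v r)))) r))))))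
 .z .z) .z)) (.s 0x3aea88a221caef8010 4086 (n false (n false (n false (n true (z 52) e) (n true (n false (n false (n false (n false e e) (n false e e)) (n false (n false e e) (n false e e))) (n false e e)) e)) (n false e e)) e) (u 16 130 (k v (k v (k v (k v (k v (k v (k (t 48 1 (u 32 2 (k v (k v r)))) r))))))))
 (.s 0x3ae9dd740095550020 4085 (n false (n false (n false (n true (n false (z 165) (z 0)) e) (n false e e)) e) e) (t 48 1 (u 32 0 (k (c 96 4097 r (u 64 10 (k v (k v (k (t 192 1 (u 128 0 (k v (k (c 384 4099 r (u 256 0 (k v (k v r)))) r)))) r))))) (k (c 64 4098 r (u 96 0 (k (t 224 1 (u 160 0 (k v (k v (k (u 288 0 (k v (k v r))) (k (c 288 4097 r (u 416 3 (k v (k v (k v r))))) (k (c 288 4095 r (u 416 3 (k v (k v (k v r))))) r))))))) r))) r))))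
 (.s 0x3ae97fd40095550020 4085 (n false (n false (n false (n true (n false (z 158) (z 0)) e) (n false e e)) e) e) (t 48 1 (u 32 0 (k (u 64 1 (k v (k v (k (t 192 1 (u 128 0 (k v (k (c 384 4099 r (u 256 3 (k v (k v (k v r))))) r)))) r)))) r)))
 .z .z) (.s 0x3aea88a2214feac010 4092 (n false (n false (n false (n false (z 71) e) (n true (n false (n false (n false (n false e e) (n false e e)) (n false (n false e e) (n false e e))) (n false e e)) e)) (n false e e)) e) (u 16 10 (k v (k v (k v (k (t 48 2 (u 32 25 (k v (k v (k v r))))) r)))))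
 .z .z)) (.s 0x3aeae577c00843b840 4063 (n false (n false (n false (n true (n false (n false (n false (n true (z 52) e) (n false e e)) e) (n false e e)) e) (n true (n false (n true (n false e e) e) (n false e e)) e)) e) e) (u 256 236 (k v (k v (k v (k v (k v (k v (k v (k v r)))))))))
 (.s 0x3aea88a221cfeac010 4087 (n false (n false (n false (n true (z 71) e) (n true (n false (n false (n false (n false e e) (n false e e)) (n false (n false e e) (n false e e))) (n false e e)) e)) (n false e e)) e) (u 16 9 (k v (k v (k (t 48 1 (u 32 8 (k v (k v (k v r))))) (k (c 20 4099 v (u 32 1 (k v (k (t 96 1 r) (k (t 64 2 r) (k (t 64 1 r) r)))))) r)))))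
 .z .z) .z))))

set_option maxRecDepth 100000 in
def N150 : NT :=
(.s 0x3b95fd40070e5d7400 4087 (n false (n true (z 18) e) (n false (n true (z 156) e) (n true (n false e e) e))) (u 9 8 (k (u 4 0 (k (u 8 0 (k v (k v r))) r)) (k (c 2 4095 (t 2 2 v) v) (k (c 25 4099 r (u 4 0 (k r r))) (k (c 17 4098 r (u 4 0 (k r r))) (k (c 17 4097 r (u 25 1 (k (u 4 0 (k (u 8 0 (k v (k v r))) r)) (k (u 4 0 (k (u 8 0 (k v (k v r))) r)) r)))) (k (c 17 4099 r (u 4 0 (k r r))) r)))))))
 (.s 0x3b95570027df601708 4078 (n false (n false (z 91) (n true (z 32) e)) (n false (n true (n false e e) e) (n false e e))) (u 10 0 (k (t 18 3 (t 26 1 (u 4 0 (k v (k v (k (u 8 0 (k v (k v r))) (k (c 8 4097 r r) (k (c 8 4095 r r) r)))))))) r))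
 (.s 0x3af9d7f801c1d51110 4079 (n false (n false (n false (n true (n true (z 121) e) e) (n true (n false e e) e)) e) (n true (n false (n false (n false (n false e e) (n false e e)) (n false e e)) (n false e e)) e)) (u 32 2 (k v (k v (k (c 96 4099 r (u 64 1 (k v (k v r)))) (k (c 64 4095 r (u 96 0 (k v (k v r)))) (k (c 64 4095 r (u 96 0 (k v (k v r)))) r))))))
 (.s 0x3aeae75fe00843b840 4065 (n false (n false (n false (n true (n false (n false (n false (n true (z 121) e) (n false e e)) e) (n false e e)) e) (n true (n false (n true (n false e e) e) (n false e e)) e)) e) e) (u 256 2 (k v (k v (k (c 768 4099 r (u 512 1 (k v (k v r)))) (k (c 512 4095 r (u 768 0 (k v (k v r)))) (k (c 512 4095 r (u 768 0 (k v (k v r)))) r))))))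
 (.s 0x3aeae5fdc00843b840 4065 (n false (n false (n false (n true (n false (n false (n false (n true (z 46) e) (n false e e)) e) (n false e e)) e) (n true (n false (n true (n false e e) e) (n false e e)) e)) e) e) (u 256 1 (k v (k (u 512 1 (k v (k v r))) (k (c 768 4099 r (u 512 0 (k v (k v r)))) (k (u 512 26 (k v (k v r))) (k (c 768 4097 r (u 512 1 (k v (k v r)))) (k (c 512 4095 r (u 768 1 (k v (k v r)))) r)))))))
 .z .z) (.s 0x3aeae7d5c00843b840 4060 (n false (n false (n false (n true (n false (n false (n false (n true (z 35) e) (n false e e)) e) (n false e e)) e) (n true (n false (n true (n false e e) e) (n false e e)) e)) e) e) (u 256 36 (k v (k v (k v (k v (k (t 768 1 (u 512 0 (k (t 1024 3 (t 1536 1 v)) r))) (k (t 768 2 r) r)))))))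
 .z .z)) (.s 0x3b9557002777601708 4078 (n false (n false (z 85) (n true (z 32) e)) (n false (n true (n false e e) e) (n false e e))) (u 10 0 (k (t 18 3 (t 26 1 (u 4 49 (k v (k v (k (c 12 4099 r (u 8 390 (k v (k v (k v (k v (k v (k v r)))))))) (k (c 12 4099 r r) (k (u 8 3 (k v (k v r))) (k (c 12 4096 r r) r))))))))) r))
 (.s 0x3afaa22888213aff00 4086 (n false (z 121) (n false (n false (n true (n true (n false (n false (n false (n false e e) (n false e e)) (n false (n false e e) (n false e e))) (n false e e)) e) e) (n false e e)) e)) (u 2 2 (k v (k v (k (c 6 4099 r (u 4 1 (k v (k v r)))) (k (c 4 4095 r (u 6 0 (k v (k v r)))) (k (c 4 4095 r (u 6 0 (k v (k v r)))) r))))))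
 .z .z) .z)) (.s 0x3b95df003b842a2288 4070 (n false (n false (n true (z 52) e) (n true (n false (n true (n false e e) e) (n false e e)) e)) (n false (n false (n false e e) (n false e e)) (n false (n false e e) (n false e e)))) (u 8 178 (k v (k v (k v (k v (k (t 24 1 (u 16 2 (k v (k v r)))) (k (c 4 4081 r v) r)))))))
 (.s 0x3b95df0029f5580288 4080 (n false (n false (n true (z 52) e) (n false (z 67) e)) (n false (n false e e) (n false e e))) (u 8 254 (k (u 10 0 (k v (k v r))) (k (u 10 0 (k v (k v r))) (k (t 10 2 v) (k (t 24 1 (u 16 2 (k (u 10 0 (k v (k v r))) (k (u 10 0 (k v (k v r))) r)))) r)))))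
 (.s 0x3b95df00257f500288 4079 (n false (n false (z 156) (n true (z 52) e)) (n false (n false e e) (n false e e))) (u 10 253 (k r (k r (k r (k (t 26 1 (u 18 2 (k r (k r r)))) r)))))
 .z .z) (.s 0x3b95df002a88a223a0 4088 (n false (n false (n true (z 52) e) (n false (n false (n false (n false e e) (n false e e)) (n false (n false e e) (n false e e))) (n false e e))) (n true (n false (n false e e) e) e)) (u 8 10 (k v (k v (k v (k v (k v (k (t 24 1 (u 16 0 (k v (k v r)))) r)))))))
 .z .z)) (.s 0x3b95fd400544511f40 4083 (n false (n false (n true (z 156) e) (n false (n false (n false e e) (n false e e)) (n false (n false e e) (n false e e)))) (n true (n true (n false (n false e e) e) e) e)) (u 8 14 (k v (k v (k (c 24 4099 r (u 16 1 (k v (k v r)))) (k (c 16 4099 r (u 24 1 (k v (k v r)))) (k (c 16 4095 r (u 24 0 (k v (k v r)))) r))))))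
 (.s 0x3b95fd400475445110 4087 (n false (n false (n true (z 156) e) (n false e e)) (n true (n false (n false (n false (n false e e) (n false e e)) (n false (n false e e) (n false e e))) (n false e e)) e)) (u 8 8 (k v (k v (k (c 24 4099 r (u 16 1 (k v (k v r)))) (k (c 16 4098 r (u 24 1 (k v (k v r)))) (k (c 16 4097 r (u 24 1 (k v (k v r)))) (k (c 16 4099 r (u 24 1 (k v (k v r)))) r)))))))
 .z .z) .z))) (.s 0x3b977d003872bfa800 4088 (n false (n true (z 156) e) (n false (n true (z 26) e) (n true (n false e e) e))) (u 4 1 (k r (k (c 12 4099 r (u 8 1 (k r (k r r)))) (k (c 8 4098 r (u 12 1 (k r (k r r)))) (k (c 8 4097 r (u 12 1 (k r (k r r)))) (k (c 8 4099 r (u 12 1 (k r (k r r)))) (k (c 8 4095 r (u 12 0 (k r (k r r)))) r)))))))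
 (.s 0x3b97770029f5580288 4080 (n false (n false (n false (z 67) e) (n true (z 42) e)) (n false (n false e e) (n false e e))) (u 10 1 (k (u 8 0 (k v (k v r))) (k (u 8 0 (k v (k v r))) r)))
 (.s 0x3b977700257fe01d10 4079 (n false (n false (z 124) (n true (z 42) e)) (n true (n false (n false e e) (n false e e)) e)) (u 4 5 (k (u 10 1 (k v (k v r))) (k (c 12 4097 r r) (k (c 12 4096 r r) (k (c 8 4098 r (u 12 0 (k (u 10 1 (k v (k v r))) (k (u 10 1 (k v (k v r))) r)))) (k (c 12 4096 r r) (k (c 12 4097 r r) (k (c 12 4097 r r) (k (c 12 4096 r r) (k (c 8 4097 r r) r))))))))))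
 (.s 0x3b97770022e5ddc008 4084 (n false (n false (n true (z 42) e) (n false e e)) (n false (n true (z 42) e) (n false e e))) (u 8 43 (k r (k (u 9 1 (k v (k v r))) (k (u 9 1 (k (u 16 2 (k v (k v r))) (k (u 16 2 (k v (k v r))) r))) (k (u 9 1 (k r (k (u 16 32 (k v (k v (k v (k (c 32 4095 r r) (k (c 32 4095 r r) r)))))) r))) (k (u 9 1 (k r (k (u 16 19 (k v (k v (k (c 48 4099 r (u 32 1 (k v (k v r)))) (k (c 32 4099 r (u 48 1 (k v (k v r)))) (k (c 32 4095 r r) r)))))) r))) r))))))
 .z .z) (.s 0x3b9777002977700288 4078 (n false (n false (n false (z 42) e) (n true (z 42) e)) (n false (n false e e) (n false e e))) (u 10 1 (k (u 8 1 (k v (k v r))) (k (u 8 1 (k v (k v r))) r)))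
 .z .z)) (.s 0x3b9777003977700288 4077 (n false (n false (n true (z 42) e) (n true (z 42) e)) (n false (n false e e) (n false e e))) (u 8 1 (k (u 10 1 (k v (k v r))) (k (u 10 1 (k v (k v r))) r)))
 (.s 0x3b9777002a88a223a0 4082 (n false (n false (n true (z 42) e) (n false (n false (n false (n false e e) (n false e e)) (n false (n false e e) (n false e e))) (n false e e))) (n true (n false (n false e e) e) e)) (u 8 16 (k v (k v (k (c 10 4101 v (c 3 4093 v r)) (k (c 4 4087 r v) (k (c 3 4093 v (c 10 4101 v r)) (k (c 3 4093 v (c 10 4101 v r)) r)))))))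
 .z .z) .z)) (.s 0x3b97f5003b842ee108 4068 (n false (n false (n true (z 14) e) (n true (n false (n true (n false e e) e) (n false e e)) e)) (n false (n true (n false (n true (n false e e) e) (n false e e)) e) (n false e e))) (c 9 4092 v (u 8 0 (k v (k v r))))
 (.s 0x3b97f50029f5580288 4078 (n false (n false (n false (z 67) e) (n true (z 14) e)) (n false (n false e e) (n false e e))) (u 8 0 (k (u 10 0 (k v (k v r))) (k (u 10 0 (k v (k v r))) r)))
 (.s 0x3b97f50027f5601708 4075 (n false (n false (z 71) (n true (z 14) e)) (n false (n true (n false e e) e) (n false e e))) (u 4 0 (k (u 10 0 (k v (k v r))) (k (c 12 4099 r (u 8 0 (k (u 10 0 (k v (k v r))) (k (u 10 0 (k v (k v r))) r)))) r)))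
 .z .z) (.s 0x3b97f5003977700288 4075 (n false (n false (n true (z 42) e) (n true (z 14) e)) (n false (n false e e) (n false e e))) (u 10 0 (k (u 8 1 (k v (k v r))) (k (u 8 1 (k v (k v r))) r)))
 .z .z)) (.s 0x3b97ff002a88a223a0 4088 (n false (n false (n true (z 62) e) (n false (n false (n false (n false e e) (n false e e)) (n false (n false e e) (n false e e))) (n false e e))) (n true (n false (n false e e) e) e)) (u 8 4 (k v (k v (k v (k (t 24 1 (u 16 41 (k v (k v (k (t 48 1 (u 32 0 (k v (k v r)))) r))))) r)))))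
 (.s 0x3b97f7002a88a223a0 4089 (n false (n false (n true (z 46) e) (n false (n false (n false (n false e e) (n false e e)) (n false (n false e e) (n false e e))) (n false e e))) (n true (n false (n false e e) e) e)) (u 8 6 (k v (k v (k (u 16 1 (k v (k v r))) (k (c 24 4099 r (u 16 0 (k v (k v r)))) (k (u 16 1 (k v (k v r))) (k (c 24 4097 r (u 16 1 (k v (k v r)))) r)))))))
 .z .z) .z))))

set_option maxRecDepth 100000 in
def N151 : NT :=
(.s 0x3b9fdd80257fe01708 4073 (n false (n false (n true (z 87) e) (z 124)) (n false (n true (n false e e) e) (n false e e))) (u 6 14 (k (u 8 1 (k v (k v r))) (k (c 14 4097 r r) (k (c 14 4096 r r) (k (c 14 4097 r r) (k (c 14 4099 r r) r))))))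
 (.s 0x3b9f57002777601708 4078 (n false (n false (z 85) (n true (z 35) e)) (n false (n true (n false e e) e) (n false e e))) (u 10 0 (k r (k r (k (t 26 1 (u 18 0 (k (t 34 3 (t 50 1 (u 4 49 (k v (k v (k (c 12 4099 r (u 8 390 (k v (k v (k v (k v (k v (k v r)))))))) (k (c 12 4099 r r) (k (u 8 3 (k v (k v r))) (k (c 12 4096 r r) r))))))))) r))) r))))
 (.s 0x3b9f558029f5580288 4079 (n false (n false (n true (z 67) e) (n false (z 67) e)) (n false (n false e e) (n false e e))) (u 8 0 (k (u 10 0 (k v (k v r))) (k (u 10 0 (k v (k v r))) r)))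
 (.s 0x3b9dd70022a557c010 4083 (n false (n false (n true (z 37) e) (n false e e)) (n false (n false (z 48) (n false e e)) e)) (u 8 0 (k (u 9 16 (k v (k v (k (c 8 4101 v r) r)))) (k (c 3 4095 r (u 16 0 (k (t 32 3 (t 48 1 v)) r))) (k r (k (c 8 4101 r r) (k r (k (c 2 4086 (c 2 4088 r v) r) r)))))))
 (.s 0x3b9d7f802a88a223a0 4089 (n false (n false (n true (z 121) e) (n false (n false (n false (n false e e) (n false e e)) (n false (n false e e) (n false e e))) (n false e e))) (n true (n false (n false e e) e) e)) (u 8 1 (k v (k (c 24 4099 r (u 16 1 (k v (k v r)))) (k (c 16 4097 r (u 24 1 (k v (k v r)))) (k (c 16 4095 r (u 24 0 (k v (k v r)))) (k (c 16 4095 r (u 24 0 (k v (k v r)))) r))))))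
 .z .z) (.s 0x3b9ddd802a88a223a0 4090 (n false (n false (n true (z 85) e) (n false (n false (n false (n false e e) (n false e e)) (n false (n false e e) (n false e e))) (n false e e))) (n true (n false (n false e e) e) e)) (u 8 18 (k v (k v (k v (k (c 3 4093 v (c 10 4101 v r)) (k (c 24 4097 r (c 10 4101 v (u 16 17 (k v (k v (k (u 32 12 (k v (k v r))) (k (c 48 4096 r (c 3 4093 v (c 8 4088 r v))) (k (c 32 4099 r (u 48 67 (k v (k v (k v (k v (k v r))))))) r)))))))) r))))))
 .z .z)) (.s 0x3b9f5700275fe01d10 4084 (n false (n false (z 121) (n true (z 35) e)) (n true (n false (n false e e) (n false e e)) e)) (u 10 0 (k r (k (c 6 4094 v r) (k (t 26 1 (u 4 37 (k r (k (u 18 0 (k (t 34 3 (t 50 1 v)) r)) (k (u 18 0 (k (t 34 3 (t 50 1 v)) r)) r))))) r))))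
 (.s 0x3b9f57002577c01708 4074 (n false (n false (z 52) (n true (z 35) e)) (n false (n true (n false e e) e) (n false e e))) (u 10 5 (k r (k r (k (c 4 4097 r v) (k (t 26 1 (u 18 0 (k (t 34 3 (t 50 1 (u 4 26 (k v (k v (k v r)))))) r))) r)))))
 .z .z) .z)) (.s 0x3b9f57002e113bbb00 4086 (n false (n false (n true (z 35) e) (n false (n true (n false e e) e) (n false e e))) (z 85)) (u 3 14 (k (c 10 4094 v r) (k (c 10 4094 v r) (k (c 7 4099 r r) (k (c 7 4099 r r) (k (c 7 4099 r r) (k (c 7 4096 r r) r)))))))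
 (.s 0x3b9f57002955700288 4084 (n false (n false (n true (z 35) e) (n false (z 32) e)) (n false (n false e e) (n false e e))) (u 8 10 (k (u 10 0 (k (t 18 3 (t 26 1 v)) r)) (k (u 10 0 (k (t 18 3 (t 26 1 v)) r)) (k (c 4 4094 v (u 10 0 (k (t 18 3 (t 26 1 v)) r))) (k (t 24 1 (u 16 0 (k (t 32 3 (t 48 1 (u 10 0 (k (t 18 3 (t 26 1 v)) r)))) r))) r)))))
 (.s 0x3b9f570027df601708 4078 (n false (n false (z 91) (n true (z 35) e)) (n false (n true (n false e e) e) (n false e e))) (u 10 0 (k r (k r (k (t 26 1 (u 18 0 (k (t 34 3 (t 50 1 (u 4 0 (k v (k v (k (u 8 0 (k v (k v r))) (k (c 8 4097 r r) (k (c 8 4095 r r) r)))))))) r))) r))))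
 .z .z) (.s 0x3b9f570029f5700288 4084 (n false (n false (n false (z 35) e) (n true (z 35) e)) (n false (n false e e) (n false e e))) (u 10 10 (k r (k r (k (c 6 4094 v r) (k (t 26 1 (u 8 10 (k (u 18 0 (k (t 34 3 (t 50 1 v)) r)) (k (u 18 0 (k (t 34 3 (t 50 1 v)) r)) (k (c 6 4101 (u 4 0 (k (t 8 3 (t 12 1 v)) r)) v) (k (t 24 1 (u 16 0 (k (t 32 3 (t 48 1 (u 18 0 (k (t 34 3 (t 50 1 v)) r)))) r))) r)))))) r)))))
 .z .z)) (.s 0x3b9fdd8022e5fd4008 4082 (n false (n false (n true (z 14) e) (n false e e)) (n false (n true (z 87) e) (n false e e))) (u 8 0 (k (u 9 0 (k v (k v r))) (k (u 9 0 (k v (k v r))) r)))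
 (.s 0x3b9f570039f5700288 4086 (n false (n false (n true (z 35) e) (n true (z 35) e)) (n false (n false e e) (n false e e))) (u 8 10 (k r (k r (k (c 4 4094 v r) (k (t 24 1 (u 10 10 (k (u 16 0 (k (t 32 3 (t 48 1 v)) r)) (k (u 16 0 (k (t 32 3 (t 48 1 v)) r)) (k (c 6 4094 v (u 16 0 (k (t 32 3 (t 48 1 v)) r))) (k (t 26 1 (u 16 0 (k (t 32 3 (t 48 1 (u 18 0 (k (t 34 3 (t 50 1 v)) r)))) r))) r)))))) r)))))
 .z .z) .z))) (.s 0x3b9fdf002a88a223a0 4085 (n false (n false (n true (z 55) e) (n false (n false (n false (n false e e) (n false e e)) (n false (n false e e) (n false e e))) (n false e e))) (n true (n false (n false e e) e) e)) (u 8 4 (k (t 24 1 (u 16 2 (k v (k (c 48 4099 r (t 32 3 v)) (k (u 32 2 (k v (k v r))) r))))) (k (c 4 4091 (t 6 2 r) v) r)))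
 (.s 0x3b9fdd80397f500288 4077 (n false (n false (n true (z 87) e) (n true (z 14) e)) (n false (n false e e) (n false e e))) (u 10 0 (k (u 8 1 (k v (k v r))) (k (u 8 1 (k v (k v r))) r)))
 (.s 0x3b9fdd8029f5580288 4078 (n false (n false (n true (z 87) e) (n false (z 67) e)) (n false (n false e e) (n false e e))) (u 10 0 (k (u 8 1 (k v (k v r))) (k (u 8 1 (k v (k v r))) r)))
 (.s 0x3b9fdd8025df401708 4079 (n false (n false (n true (z 87) e) (z 26)) (n false (n true (n false e e) e) (n false e e))) (u 6 8 (k (u 8 1 (k v (k v r))) (k (u 8 1 (k v (k v r))) r)))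
 .z .z) (.s 0x3b9fdd803977700288 4075 (n false (n false (n true (z 87) e) (n true (z 42) e)) (n false (n false e e) (n false e e))) (u 10 1 (k (u 8 1 (k v (k v r))) (k (u 8 1 (k v (k v r))) r)))
 .z .z)) (.s 0x3b9fdf0029f5580288 4080 (n false (n false (n true (z 55) e) (n false (z 67) e)) (n false (n false e e) (n false e e))) (u 8 6 (k (t 10 2 v) (k (t 24 1 (u 16 10 (k (t 10 2 v) (k (u 10 0 (k v (k v r))) r)))) r)))
 (.s 0x3b9fdf00257f500288 4079 (n false (n false (n true (z 55) e) (z 156)) (n false (n false e e) (n false e e))) (u 8 6 (k r (k (t 24 1 (u 16 10 (k r (k (u 6 1 (k v (k (c 14 4099 r (u 10 1 (k v (k v r)))) (k (c 10 4098 r (u 14 1 (k v (k v r)))) (k (c 10 4097 r (c 32 4099 v r)) (k (c 10 4099 r (u 14 1 (k v (k v r)))) (k (c 10 4095 r (u 14 0 (k v (k v r)))) r))))))) r)))) r)))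
 .z .z) .z)) (.s 0x3ba57f50008aa22888 4086 (n false (n false (n true (n false (z 156) e) e) (n false e e)) (n false (n false (n false (n false e e) (n false e e)) (n false (n false e e) (n false e e))) (n false e e))) (u 16 14 (k v (k v (k (c 48 4099 r (u 32 1 (k v (k v r)))) (k (c 32 4099 r (u 48 1 (k v (k v r)))) (k (c 32 4095 r (u 48 0 (k v (k v r)))) r))))))
 (.s 0x3ba55560108aa22888 4087 (n false (n false (n true (n false (z 64) (n false e e)) e) (n false e e)) (n false (n false (n false (n false e e) (n false e e)) (n false (n false e e) (n false e e))) (n false e e))) (u 16 0 (k (c 48 4099 r (u 32 4 (k v (k (c 8 4085 r v) r)))) r))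
 (.s 0x3b9fdf003977700288 4077 (n false (n false (n true (z 42) e) (n true (z 55) e)) (n false (n false e e) (n false e e))) (u 10 12 (k r (k (u 8 0 (k v (k v r))) r)))
 .z .z) (.s 0x3ba555c0070e7d5600 4092 (n false (n false (n true (n false (z 32) e) e) (n true (n false e e) e)) (n true (z 67) e)) (u 16 0 (k (t 32 3 (t 48 1 (u 5 132 (k v (k v (k v (k v (k (t 13 1 (u 9 1 (k v (k v r)))) (k (c 13 4101 r (u 9 1 (k v (k v r)))) (k (t 13 1 (u 9 29 (k v (k v (k v (k (c 25 4099 r (u 17 1 (k v (k v r)))) r)))))) (k (c 9 4101 r (u 13 1 (k v (k v r)))) (k (t 13 1 (u 9 2 (k v (k (c 25 4099 r (u 17 1 (k v (k v r)))) (k (c 17 4095 r (u 25 0 (k v (k v r)))) r))))) (k (c 9 4101 r (u 13 1 (k v (k v r)))) r))))))))))))) r))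
 .z .z)) (.s 0x3ba57f5002577c0088 4073 (n false (n false (n true (n false (z 156) (z 52)) e) (n false e e)) (n false e e)) (u 16 1 (k r (k (c 48 4099 r (u 32 1 (k r (k r r)))) (k (c 32 4098 r (u 48 1 (k r (k r r)))) (k (c 32 4097 r (u 48 1 (k r (k r r)))) (k (c 32 4099 r (u 48 1 (k r (k r r)))) (k (c 32 4095 r (u 48 0 (k r (k r r)))) r)))))))
 (.s 0x3ba57f500255540088 4082 (n false (n false (n true (n false (z 156) (z 0)) e) (n false e e)) (n false e e)) (t 24 1 (u 16 1 (k v (k (c 48 4099 r (u 32 1 (k v (k v r)))) (k (c 32 4098 r (u 48 1 (k v (k v r)))) (k (c 32 4097 r (u 48 1 (k v (k v r)))) (k (c 32 4099 r (u 48 1 (k v (k v r)))) (k (c 32 4095 r (u 48 0 (k v (k v r)))) r))))))))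
 .z .z) .z))))

set_option maxRecDepth 100000 in
def N152 : NT :=
(.s 0x3baa22888453eff008 4085 (n false (n false (z 123) (n false e e)) (n false (n true (n false (n false (n false (n false e e) (n false e e)) (n false (n false e e) (n false e e))) (n false e e)) e) (n false e e))) (u 4 14 (k v (k r (k (c 9 4099 v r) (k (c 9 4099 v r) (k r (k (c 8 4096 r r) (k (u 8 2 (k v (k v r))) (k (c 12 4097 r (c 9 4099 v r)) r)))))))))
 (.s 0x3ba95fd400a888e0e0 4063 (n false (n false (n true (n false (n false (z 156) (n false (n false (n false e e) (n false e e)) (n false e e))) (n true (n false e e) e)) e) (n true (n false e e) e)) e) (u 32 2 (k v (k (c 96 4099 r (u 64 1 (k v (k v r)))) (k (c 64 4095 r (u 96 0 (k v (k v r)))) r))))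
 (.s 0x3ba775c01c14befc00 4087 (n false (n false (n true (n false (z 37) (n true (n false e e) e)) e) (n false (z 118) e)) e) (u 16 1 (k (t 10 3 v) (k (u 10 2 (k v (k (t 26 1 (u 18 6 (k v (k v (k v r))))) (k (t 26 1 (c 32 4099 v r)) r)))) r)))
 (.s 0x3ba75f600475445110 4082 (n false (n false (n true (n false (z 89) e) e) (n false e e)) (n true (n false (n false (n false (n false e e) (n false e e)) (n false (n false e e) (n false e e))) (n false e e)) e)) (u 16 23 (k v (k v (k v (k v (k v (k (t 48 3 (u 32 91 (k v (k v (k v (k v (k v r))))))) (k (t 48 3 (u 32 0 (k v (k v r)))) r))))))))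
 (.s 0x3ba5ff500255540088 4082 (n false (n false (n true (n false (z 158) (z 0)) e) (n false e e)) (n false e e)) (t 24 1 (u 16 0 (k (u 32 2 (k v (k v (k v (k (t 96 1 (u 64 0 (k v (k (c 192 4099 r (u 128 0 (k v (k v r)))) r)))) r))))) r)))
 .z .z) (.s 0x3ba75fe01c14befc00 4087 (n false (n false (n false (z 118) e) (n true (n false (z 121) (n true (n false e e) e)) e)) e) (u 8 2 (k (t 18 2 v) (k (t 24 1 (u 16 6 (k (t 18 2 v) (k (c 26 4094 v (u 18 28 (k v (k v (k (c 50 4099 r (u 34 6 (k v (k v (k v r))))) (k (c 34 4095 r (u 50 23 (k v (k v r)))) (k (c 34 4095 r (u 50 23 (k v (k v r)))) r))))))) (k (u 18 29 (k v (k v (k v (k (c 50 4099 r (u 34 1 (k v (k v r)))) r))))) r))))) (k (t 24 1 (c 26 4094 v (u 18 28 (k r (k (c 4 4089 r v) (k (c 50 4099 r r) (k (c 34 4095 r r) (k (c 34 4095 r r) r)))))))) r))))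
 .z .z)) (.s 0x3ba957d0040e7d5600 4093 (n false (n false (n true (n false (n false (z 24) (n false e e)) e) e) e) (n true (z 67) e)) (u 32 0 (k (t 64 3 (t 96 1 (u 5 98 (k v (k v (k v (k v (k v (k v (k (t 13 1 (u 9 1 (k v (k v r)))) (k (t 13 1 (u 9 0 (k (u 17 0 (k v (k v r))) r))) (k (c 13 4101 r (u 9 11 (k v (k v r)))) (k (t 13 1 (u 9 9 (k v (k v (k v (k (c 25 4099 r (u 17 1 (k v (k v r)))) r)))))) (k (c 13 4102 r (u 9 11 (k v (k v r)))) (k (c 9 4101 r (u 13 11 (k v (k v r)))) (k r (k (c 9 4101 r (u 13 11 (k v (k v r)))) r))))))))))))))))) r))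
 (.s 0x3ba775d00255540088 4082 (n false (n false (n true (n false (z 165) (z 0)) e) (n false e e)) (n false e e)) (t 24 1 (u 16 0 (k (c 48 4097 r (u 32 4 (k v (k v (k (t 96 1 (u 64 0 (k v (k (c 192 4099 r (u 128 0 (k v (k v r)))) r)))) (k (t 96 1 (u 64 0 (k (u 128 6 (k v (k (t 384 1 (u 256 0 (k v (k (c 768 4099 r (u 512 8 (k v (k v r)))) r)))) r))) r))) r)))))) (k (c 32 4098 r (u 48 0 (k (t 112 1 (u 80 0 (k v (k v (k (u 144 0 (k v (k v r))) (k (c 144 4097 r (u 208 3 (k v (k v (k v r))))) (k (c 144 4095 r (u 208 3 (k v (k v (k v r))))) r))))))) r))) r))))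
 .z .z) .z)) (.s 0x3baa228822e577c008 4080 (n false (n false (n true (z 52) e) (n false e e)) (n false (n true (n false (n false (n false (n false e e) (n false e e)) (n false (n false e e) (n false e e))) e) e) (n false e e))) (u 8 347 (k v (k v (k v (k v (k v (k v (k v (k v r)))))))))
 (.s 0x3ba9fdf002577c0088 4077 (n false (n false (n true (n false (n false (z 55) e) (z 52)) e) (n false e e)) (n false e e)) (u 32 4 (k r (k (c 24 4097 r (t 96 2 (u 64 2 (k v (k (u 128 2 (k v (k v r))) r))))) r)))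
 (.s 0x3ba9f57002577c0088 4077 (n false (n false (n true (n false (z 52) (n false (z 35) e)) e) (n false e e)) (n false e e)) (u 40 5 (k (u 16 26 (k v (k v (k v r)))) (k (u 16 26 (k v (k v (k v r)))) (k (c 16 4097 r v) (k (t 104 1 (u 72 0 (k (t 136 3 (t 200 1 (u 16 26 (k v (k v (k v r)))))) r))) r)))))
 .z .z) (.s 0x3baa228822a577c008 4080 (n false (n false (n false (z 52) e) (n false e e)) (n false (n true (n false (n false (n false (n false e e) (n false e e)) (n false (n false e e) (n false e e))) e) e) (n false e e))) (u 8 415 (k v (k v (k v (k v (k v (k v (k v (k v r)))))))))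
 .z .z)) (.s 0x3baa22888453bae008 4092 (n false (n false (z 37) (n false e e)) (n false (n true (n false (n false (n false (n false e e) (n false e e)) (n false (n false e e) (n false e e))) (n false e e)) e) (n false e e))) (u 4 22 (k v (k (u 8 0 (k (t 16 3 (t 24 1 v)) r)) (k r (k r (k (u 8 0 (k (t 16 3 (t 24 1 v)) r)) (k (u 8 0 (k v (k v (k (t 24 1 (u 16 0 (k (t 32 3 (t 48 1 v)) r))) r)))) r)))))))
 (.s 0x3baa22888452aab008 4087 (n false (n false (z 64) (n false e e)) (n false (n true (n false (n false (n false (n false e e) (n false e e)) (n false (n false e e) (n false e e))) (n false e e)) e) (n false e e))) (u 4 0 (k (c 12 4099 r (u 8 4 (k v (k (c 4 4084 (u 4 1 (k v (k v r))) v) r)))) r))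
 .z .z) .z))) (.s 0x3baa228884fbfc0288 4085 (n false (n false (z 123) (n true (n false (n false (n false (n false e e) (n false e e)) (n false (n false e e) (n false e e))) (n false e e)) e)) (n false (n false e e) (n false e e))) (u 4 4 (k v (k (c 12 4099 r (u 8 0 (k v (k v (k v (k (t 24 3 (u 16 26 (k v (k v (k v r))))) r)))))) (k (c 10 4099 v r) (k (c 10 4099 v r) (k (c 8 4096 r r) (k (c 12 4097 r (c 10 4099 v r)) r)))))))
 (.s 0x3baa228884ebfc0288 4087 (n false (n false (z 121) (n true (n false (n false (n false (n false e e) (n false e e)) (n false (n false e e) (n false e e))) (n false e e)) e)) (n false (n false e e) (n false e e))) (u 4 1 (k v (k (c 12 4099 r (u 8 1 (k v (k v r)))) (k (c 8 4097 r r) (k (c 8 4095 r (u 12 0 (k v (k v r)))) (k (c 8 4095 r (u 12 0 (k v (k v r)))) r))))))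
 (.s 0x3baa228884affc0288 4087 (n false (n false (z 124) (n true (n false (n false (n false (n false e e) (n false e e)) (n false (n false e e) (n false e e))) (n false e e)) e)) (n false (n false e e) (n false e e))) (u 4 5 (k v (k (c 12 4097 r (u 8 1 (k v (k v r)))) (k (c 12 4096 r (u 8 1 (k v (k v r)))) (k (c 8 4098 r (u 12 0 (k v (k v r)))) (k (c 12 4096 r (u 8 1 (k v (k v r)))) (k (c 12 4097 r (u 8 1 (k v (k v r)))) (k (c 12 4097 r (u 8 1 (k v (k v r)))) (k (c 12 4096 r (u 8 1 (k v (k v r)))) (k (c 8 4097 r (u 12 1 (k v (k v r)))) r))))))))))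
 (.s 0x3baa22888453fab008 4087 (n false (n false (z 71) (n false e e)) (n false (n true (n false (n false (n false (n false e e) (n false e e)) (n false (n false e e) (n false e e))) (n false e e)) e) (n false e e))) (u 4 6 (k (c 12 4099 r r) (k r (k (c 9 4099 v r) (k (c 8 4099 r r) (k (c 8 4099 r r) (k (c 8 4099 r r) r)))))))
 .z .z) (.s 0x3baa228884bfb80288 4084 (n false (n false (z 46) (n true (n false (n false (n false (n false e e) (n false e e)) (n false (n false e e) (n false e e))) (n false e e)) e)) (n false (n false e e) (n false e e))) (u 4 1 (k v (k r (k (c 12 4099 r (u 8 0 (k v (k v r)))) (k (u 8 1 (k v (k v r))) (k (c 12 4097 r r) (k (c 8 4095 r r) r)))))))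
 .z .z)) (.s 0x3baa228884eeec03a0 4082 (n false (n false (z 85) (n true (n false (n false (n false (n false e e) (n false e e)) (n false (n false e e) (n false e e))) (n false e e)) e)) (n true (n false (n false e e) e) e)) (u 4 34 (k v (k v (k (c 12 4099 r r) (k (c 12 4099 r (u 8 7 (k v (k v r)))) (k (c 8 4099 r r) r))))))
 (.s 0x3baa228884eeb80288 4087 (n false (n false (z 37) (n true (n false (n false (n false (n false e e) (n false e e)) (n false (n false e e) (n false e e))) (n false e e)) e)) (n false (n false e e) (n false e e))) (u 4 20 (k v (k (u 8 0 (k (t 16 3 (t 24 1 v)) r)) (k r (k r (k (u 8 0 (k (t 16 3 (t 24 1 v)) r)) (k (u 8 10 (k v (k v (k v (k (t 24 1 (u 16 0 (k (t 32 3 (t 48 1 v)) r))) r))))) r)))))))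
 .z .z) .z)) (.s 0x3baa2288870a5ddc00 4085 (n false (n false (z 42) e) (n false (n true (n false (n false (n false (n false e e) (n false e e)) (n false (n false e e) (n false e e))) (n false e e)) e) (n true (n false e e) e))) (u 4 84 (k v (k v (k v (k v (k (c 12 4110 r r) (k (c 12 4110 r r) (k (c 12 4110 r r) (k (c 12 4110 r r) r)))))))))
 (.s 0x3baa2288852bba8008 4087 (n false (n false (n false (z 148) e) (n true (n false (n false (n false (n false e e) (n false e e)) (n false (n false e e) (n false e e))) (n false e e)) e)) (n false e e)) (c 10 4099 v (u 8 5 (k v (k r (k r (k (t 24 1 r) (k (t 24 3 (u 16 22 (k v (k v (k v r))))) (k (t 24 3 (u 16 22 (k v (k v (k v r))))) (k (t 24 2 (u 16 36 (k v (k v (k v r))))) (k (t 16 1 r) (k (t 24 1 r) r)))))))))))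
 (.s 0x3baa228884feac0288 4084 (n false (n false (z 71) (n true (n false (n false (n false (n false e e) (n false e e)) (n false (n false e e) (n false e e))) (n false e e)) e)) (n false (n false e e) (n false e e))) (u 4 8 (k r (k (c 12 4099 r r) (k r (k (c 8 4099 r r) (k (c 8 4099 r r) (k (c 8 4099 r r) r)))))))
 .z .z) (.s 0x3baa2288870a55fe00 4075 (n false (n false (z 120) e) (n false (n true (n false (n false (n false (n false e e) (n false e e)) (n false (n false e e) (n false e e))) (n false e e)) e) (n true (n false e e) e))) (u 4 27 (k v (k v (k (t 8 1 r) (k (t 8 1 r) (k (c 12 4101 r r) (k (c 8 4099 r r) (k (c 12 4096 r r) (k (t 12 1 (u 8 0 (k r r))) (k (t 12 1 (u 8 0 (k r r))) (k r (k (c 12 4099 r r) (k (c 8 4098 r r) (k (c 8 4101 r r) (k (c 12 4097 r r) (k (c 12 4099 r r) (k (c 8 4101 r r) r)))))))))))))))))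
 .z .z)) (.s 0x3baa2288872bbe0050 4078 (n false (n false (n true (z 52) e) (n true (n false (n false (n false (n false e e) (n false e e)) (n false (n false e e) (n false e e))) (n false e e)) e)) (n false (n false e e) e)) (u 8 23 (k v (k v (k v (k v (k v (k v (k v (k (t 24 2 (u 16 0 (k (u 32 2 (k v (k (c 4 4078 (u 16 1 (k v (k v r))) v) r))) r))) (k (t 24 1 (u 16 0 (k (c 48 4099 r (u 32 2 (k v (k (c 4 4078 (u 16 1 (k v (k v r))) v) r)))) r))) r))))))))))
 (.s 0x3baa2288870a7f7e00 4075 (n false (n false (z 119) e) (n false (n true (n false (n false (n false (n false e e) (n false e e)) (n false (n false e e) (n false e e))) (n false e e)) e) (n true (n false e e) e))) (u 4 53 (k v (k v (k (c 12 4101 r (c 9 4099 v r)) (k (c 8 4096 r (c 9 4099 v r)) (k (c 12 4099 r (c 9 4099 v r)) (k (c 12 4097 r (c 9 4099 v r)) (k (u 8 0 (k (u 12 0 (k (t 20 3 (t 28 1 r)) r)) r)) (k (c 8 4098 r (c 9 4099 v r)) (k (c 8 4101 r (c 9 4099 v r)) (k (c 8 4099 r (c 9 4099 v r)) (k (c 8 4101 r (c 9 4099 v r))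 r))))))))))))
 .z .z) .z))))

set_option maxRecDepth 100000 in
def N153 : NT :=
(.s 0x3bab9f5700210e1708 4060 (n false (n false (n true (n false (n false (n false (n true (z 35) e) (n false e e)) e) (n false e e)) e) (n true (n false e e) e)) (n false (n true (n false e e) e) (n false e e))) (u 128 36 (k v (k v (k v (k v (k (t 384 1 (u 256 0 (k (t 512 3 (t 768 1 v)) r))) (k (t 384 2 r) r)))))))
 (.s 0x3bab975f00210e1708 4065 (n false (n false (n true (n false (n false (n false (n true (z 50) e) (n false e e)) e) (n false e e)) e) (n true (n false e e) e)) (n false (n true (n false e e) e) (n false e e))) (u 128 1 (k v (k (c 384 4097 r (u 256 0 (k v (k v r)))) r)))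
 (.s 0x3bab95df00210e1708 4063 (n false (n false (n true (n false (n false (n false (n true (z 52) e) (n false e e)) e) (n false e e)) e) (n true (n false e e) e)) (n false (n true (n false e e) e) (n false e e))) (u 128 236 (k v (k v (k v (k v (k v (k v (k v (k v r)))))))))
 (.s 0x3baa2288874ffac008 4079 (n false (n false (n true (n false (z 79) e) e) (n true (n false (n false (n false (n false e e) (n false e e)) (n false (n false e e) (n false e e))) (n false e e)) e)) (n false e e)) (u 16 1 (k v (k (u 32 9 (k v (k v (k (t 96 2 (u 64 20 (k v (k v (k v r))))) (k (c 32 4097 r v) r))))) (k (c 48 4096 r r) r))))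
 (.s 0x3baa2288874eeb8008 4077 (n false (n false (n true (n false (z 37) e) e) (n true (n false (n false (n false (n false e e) (n false e e)) (n false (n false e e) (n false e e))) (n false e e)) e)) (n false e e)) (u 16 7 (k v (k (u 32 7 (k v (k v (k v (k v r))))) (k (c 10 4099 v r) (k (u 32 2 (k v (k (t 96 2 (c 10 4099 v (u 64 8 (k v (k v r))))) r))) r)))))
 .z .z) (.s 0x3baa88a2229d7f8010 4085 (n false (n false (n true (n false (n false (z 121) e) (n false (n false (n false (n false e e) (n false e e)) (n false (n false e e) (n false e e))) (n false e e))) e) (n false e e)) e) (u 32 47 (k v (k v (k v (k v (k (c 96 4099 r (u 64 1 (k v (k v r)))) r))))))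
 .z .z)) (.s 0x3bab95df0038382288 4065 (n false (n false (n true (n false (n false (n false (n true (z 52) e) (n true (n false e e) e)) e) (n true (n false e e) e)) e) (n false e e)) (n false (n false e e) (n false e e))) (u 128 152 (k v (k v (k v (k v (k (t 384 1 (u 256 2 (k v (k v r)))) r))))))
 (.s 0x3bab95df00210ee108 4061 (n false (n false (n true (n false (n false (n false (n true (z 52) e) (n false e e)) e) (n false e e)) e) (n true (n false (n true (n false e e) e) (n false e e)) e)) (n false e e)) (u 128 316 (k v (k v (k v (k v (k v (k v (k v (k v r)))))))))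
 .z .z) .z)) (.s 0x3bab9d7f80210e1708 4065 (n false (n false (n true (n false (n false (n false (n true (z 121) e) (n false e e)) e) (n false e e)) e) (n true (n false e e) e)) (n false (n true (n false e e) e) (n false e e))) (u 128 2 (k v (k v (k (c 384 4099 r (u 256 1 (k v (k v r)))) (k (c 256 4095 r (u 384 0 (k v (k v r)))) (k (c 256 4095 r (u 384 0 (k v (k v r)))) r))))))
 (.s 0x3bab97f700210e1708 4065 (n false (n false (n true (n false (n false (n false (n true (z 46) e) (n false e e)) e) (n false e e)) e) (n true (n false e e) e)) (n false (n true (n false e e) e) (n false e e))) (u 128 1 (k v (k (u 256 1 (k v (k v r))) (k (c 384 4099 r (u 256 0 (k v (k v r)))) (k (u 256 26 (k v (k v r))) (k (c 384 4097 r (u 256 1 (k v (k v r)))) (k (c 256 4095 r (u 384 1 (k v (k v r)))) r)))))))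
 (.s 0x3bab975f00210ee108 4063 (n false (n false (n true (n false (n false (n false (n true (z 50) e) (n false e e)) e) (n false e e)) e) (n true (n false (n true (n false e e) e) (n false e e)) e)) (n false e e)) (u 128 1 (k v (k (c 384 4097 r (u 256 0 (k v (k v r)))) r)))
 .z .z) (.s 0x3bab97f700210ee108 4063 (n false (n false (n true (n false (n false (n false (n true (z 46) e) (n false e e)) e) (n false e e)) e) (n true (n false (n true (n false e e) e) (n false e e)) e)) (n false e e)) (u 128 1 (k v (k (u 256 1 (k v (k v r))) (k (c 384 4099 r (u 256 0 (k v (k v r)))) (k (u 256 0 (k v (k v r))) (k (c 384 4097 r (u 256 1 (k v (k v r)))) (k (c 256 4095 r (u 384 1 (k v (k v r)))) r)))))))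
 .z .z)) (.s 0x3bab9dd700210ee108 4063 (n false (n false (n true (n false (n false (n false (n true (z 37) e) (n false e e)) e) (n false e e)) e) (n true (n false (n true (n false e e) e) (n false e e)) e)) (n false e e)) (u 128 0 (k v (k (u 256 0 (k (t 512 3 (t 768 1 v)) r)) (k (u 256 0 (k (t 512 3 (t 768 1 v)) r)) (k (u 256 2 (k v (k v (k v (k (t 768 1 (u 512 0 (k (t 1024 3 (t 1536 1 v)) r))) r))))) (k (u 256 0 (k v (k v (k (t 768 1 (u 512 0 (k (t 1024 3 (t 1536 1 v)) r))) r)))) (k (c 64 4088 r v) r)))))))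
 (.s 0x3bab9d7f80210ee108 4063 (n false (n false (n true (n false (n false (n false (n true (z 121) e) (n false e e)) e) (n false e e)) e) (n true (n false (n true (n false e e) e) (n false e e)) e)) (n false e e)) (u 128 2 (k v (k v (k (c 384 4099 r (u 256 1 (k v (k v r)))) (k (c 256 4095 r (u 384 0 (k v (k v r)))) (k (c 256 4095 r (u 384 0 (k v (k v r)))) r))))))
 .z .z) .z))) (.s 0x3bbaba577c01084380 4059 (n false (n false (n true (n false (n true (n false (n false (n false (n true (n false (z 52) (n false e e)) e) (n false e e)) e) (n false e e)) e) (n true (n false e e) e)) e) e) e) (u 1024 29 (k v (k v (k v (k (t 3072 1 (u 2048 0 (k v (k v r)))) r)))))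
 (.s 0x3bb9f55802577c00e0 4078 (n false (n false (n true (n false (z 52) (n true (z 67) e)) e) (n true (n false e e) e)) e) (u 40 0 (k r (k (u 16 26 (k v (k v (k v r)))) r)))
 (.s 0x3bab9fdf80210ee108 4065 (n false (n false (n true (n false (n false (n false (n true (z 119) e) (n false e e)) e) (n false e e)) e) (n true (n false (n true (n false e e) e) (n false e e)) e)) (n false e e)) (u 128 12 (k v (k v (k (c 384 4101 r r) (k (c 384 4099 r r) (k (c 384 4096 r (u 256 0 (k (u 512 0 (k v (k v r))) r))) (k (c 256 4101 r r) (k (c 256 4099 r r) (k (c 256 4101 r r) r)))))))))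
 (.s 0x3bab9fdf00210ee108 4061 (n false (n false (n true (n false (n false (n false (n true (z 55) e) (n false e e)) e) (n false e e)) e) (n true (n false (n true (n false e e) e) (n false e e)) e)) (n false e e)) (u 128 2 (k v (k (t 384 2 (u 256 2 (k v (k (c 64 4082 (u 8 1 (k v (k v r))) v) r)))) r)))
 .z .z) (.s 0x3baba577c010843850 4058 (n false (n false (n true (n false (n false (n false (n true (n false (z 52) (n false e e)) e) (n false e e)) e) (n false e e)) e) (n true (n false e e) e)) (n false (n false e e) e)) (u 256 84 (k v (k v (k v (k v (k (t 768 1 (u 512 0 (k v (k v r)))) r))))))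
 .z .z)) (.s 0x3bbaa228821caef800 4077 (n false (n false (n true (n false (n true (n false (n false (n false (n false e e) (n false e e)) (n false (n false e e) (n false e e))) e) e) (n false e e)) e) (n true (z 52) e)) e) (u 10 120 (k v (k v (k v (k v (k v (k v (k v (k v (k v r))))))))))
 (.s 0x3bb9fdd802577c00e0 4074 (n false (n false (n true (n false (n true (z 87) e) (z 52)) e) (n true (n false e e) e)) e) (u 32 1 (k r (k (u 24 26 (k v (k v (k v r)))) r)))
 .z .z) .z)) (.s 0x3be57f5000e12afe00 4088 (n false (z 56) (n false (n true (n true (z 156) e) e) (n true (n false e e) e))) (u 17 1 (k r (k (c 49 4099 r (u 33 1 (k r (k r r)))) (k (c 33 4098 r (u 49 1 (k r (k r r)))) (k (c 33 4097 r r) (k (c 33 4099 r (u 49 1 (k r (k r r)))) (k (c 33 4095 r (u 49 0 (k r (k r r)))) r)))))))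
 (.s 0x3be577c00475445110 4082 (n false (n false (n true (n true (z 52) e) e) (n false e e)) (n true (n false (n false (n false (n false e e) (n false e e)) (n false (n false e e) (n false e e))) (n false e e)) e)) (u 16 90 (k v (k v (k v (k v (k v (k v (k v r))))))))
 (.s 0x3be555c0070e7d5600 4094 (n false (n true (z 67) e) (n false (n true (n true (z 32) e) e) (n true (n false e e) e))) (c 7 4094 v (u 4 23 (k (u 17 0 (k (t 33 3 (t 49 1 v)) r)) (k (c 17 4096 r v) r))))
 .z .z) (.s 0x3be57f500075445110 4093 (n false (n false (n true (n true (z 156) e) e) e) (n true (n false (n false (n false (n false e e) (n false e e)) (n false (n false e e) (n false e e))) (n false e e)) e)) (u 16 1 (k v (k (c 48 4099 r (u 32 1 (k v (k v r)))) (k (c 32 4098 r (u 48 1 (k v (k v r)))) (k (c 32 4097 r (u 48 1 (k v (k v r)))) (k (c 32 4099 r (u 48 1 (k v (k v r)))) (k (c 32 4095 r (u 48 0 (k v (k v r)))) r)))))))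
 .z .z)) (.s 0x3be57fe00475445110 4082 (n false (n false (n true (n true (z 124) e) e) (n false e e)) (n true (n false (n false (n false (n false e e) (n false e e)) (n false (n false e e) (n false e e))) (n false e e)) e)) (u 16 1 (k v (k (c 48 4097 r (u 32 1 (k v (k v r)))) (k (c 48 4096 r (u 32 1 (k v (k v r)))) (k (c 32 4098 r (u 48 0 (k v (k v r)))) (k (c 48 4096 r (u 32 1 (k v (k v r)))) (k (c 48 4097 r (u 32 1 (k v (k v r)))) (k (c 48 4097 r (u 32 1 (k v (k v r)))) (k (c 48 4096 r (u 32 1 (k v (k v r)))) (k (c 48 4099 r (u 32 1 (k v (k v r)))) (k (c 32 4097 r (u 48 1 (k v (k v r)))) r)))))))))))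
 (.s 0x3be57f5000e1d44510 4085 (n false (n false (n true (n true (z 156) e) e) (n true (n false e e) e)) (n true (n false (n false (n false e e) (n false e e)) (n false (n false e e) (n false e e))) e)) (u 16 1 (k v (k (c 48 4099 r (u 32 1 (k v (k v r)))) (k (c 32 4098 r (u 48 1 (k v (k v r)))) (k (c 32 4097 r (u 48 1 (k v (k v r)))) (k (c 32 4099 r (u 48 1 (k v (k v r)))) (k (c 32 4095 r (u 48 0 (k v (k v r)))) r)))))))
 .z .z) .z))))

set_option maxRecDepth 100000 in
def N154 : NT :=
(.s 0x3be775c00709555400 4088 (n false (z 128) (n false (n true (n true (z 37) e) e) (n true (n false e e) e))) (u 17 23 (k (c 2 4097 r v) (k r (k (c 2 4097 r (u 33 0 (k (t 65 3 (t 97 1 v)) r))) (k (c 2 4097 r r) (k (c 2 4097 r r) r))))))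
 (.s 0x3be75d60070e75fe00 4092 (n false (n true (z 121) e) (n false (n true (n true (z 73) e) e) (n true (n false e e) e))) (u 4 52 (k (u 17 0 (k (u 33 0 (k v (k v r))) r)) (k (u 17 0 (k (u 33 0 (k v (k v r))) r)) (k (u 17 0 (k (u 33 0 (k v (k v r))) r)) (k (u 17 0 (k (u 33 0 (k v (k v r))) r)) r)))))
 (.s 0x3be5fdc0070e577c00 4085 (n false (n false (n true (n true (z 46) e) e) (n true (n false e e) e)) (n true (z 52) e)) (u 16 2 (k r (k (c 48 4099 r (u 32 0 (k r (k r r)))) (k (u 32 1 (k r (k r r))) (k (u 32 1 (k r (k r r))) (k (c 48 4097 r (u 32 1 (k r (k r r)))) (k (c 32 4095 r (u 48 1 (k r (k r r)))) r)))))))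
 (.s 0x3be5d740070e7f7c00 4080 (n false (n true (z 55) e) (n false (n true (n true (z 18) e) e) (n true (n false e e) e))) (u 17 0 (k (u 4 6 (k (u 33 0 (k v (k v r))) (k (t 12 1 (u 33 0 (k (u 8 10 (k v (k v r))) (k (u 8 10 (k v (k v r))) r)))) r))) r))
 (.s 0x3be5d740070e75fe00 4085 (n false (n true (z 121) e) (n false (n true (n true (z 18) e) e) (n true (n false e e) e))) (u 17 0 (k (u 4 51 (k (u 33 0 (k v (k v r))) (k (u 33 0 (k v (k v r))) (k (u 33 0 (k v (k v r))) (k (u 33 0 (k v (k v r))) (k (u 33 0 (k v (k v r))) r)))))) r))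
 .z .z) (.s 0x3be5fdc00475445110 4083 (n false (n false (n true (n true (z 46) e) e) (n false e e)) (n true (n false (n false (n false (n false e e) (n false e e)) (n false (n false e e) (n false e e))) (n false e e)) e)) (u 16 1 (k v (k (u 32 1 (k v (k v r))) (k (c 48 4099 r (u 32 0 (k v (k v r)))) (k (u 32 1 (k v (k v r))) (k (c 48 4097 r (u 32 1 (k v (k v r)))) (k (c 32 4095 r (u 48 1 (k v (k v r)))) r)))))))
 .z .z)) (.s 0x3be5fdc0070e7f7c00 4085 (n false (n true (z 55) e) (n false (n true (n true (z 46) e) e) (n true (n false e e) e))) (u 17 2 (k r (k (c 49 4099 r (u 33 0 (k r (k r r)))) (k (u 33 31 (k r (k r (k r r)))) (k (u 4 6 (k (u 33 1 (k v (k v r))) (k (t 12 1 (u 33 1 (k (u 8 10 (k v (k v r))) (k (u 8 10 (k v (k v r))) r)))) r))) (k (c 49 4097 r (u 33 31 (k r (k r (k r r))))) (k (c 33 4095 r (u 49 31 (k r (k r (k r r))))) r)))))))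
 (.s 0x3be5fdc0070e75fe00 4090 (n false (n false (n true (n true (z 46) e) e) (n true (n false e e) e)) (n true (z 121) e)) (u 16 9 (k (c 8 4094 v r) (k r (k (u 5 41 (k (u 32 0 (k v (k v r))) (k (u 32 1 (k v (k v r))) (k (u 32 1 (k v (k v r))) (k (u 32 1 (k v (k v r))) r))))) r))))
 .z .z) .z)) (.s 0x3be75fe0070e75fe00 4090 (n false (n false (n true (n true (z 121) e) e) (n true (n false e e) e)) (n true (z 121) e)) (u 5 35 (k r (k r (k r (k (c 9 4095 r (u 13 0 (k r (k r r)))) (k (c 9 4095 r (u 13 0 (k r (k r r)))) r))))))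
 (.s 0x3be75fe00709555400 4088 (n false (z 128) (n false (n true (n true (z 121) e) e) (n true (n false e e) e))) (u 17 1 (k r (k (c 49 4099 r (u 33 1 (k r (k r r)))) (k (c 33 4097 r (u 49 1 (k r (k r r)))) (k (c 33 4095 r (u 49 0 (k r (k r r)))) (k (c 33 4095 r (u 49 0 (k r (k r r)))) r))))))
 (.s 0x3be75fe00475445110 4083 (n false (n false (n true (n true (z 121) e) e) (n false e e)) (n true (n false (n false (n false (n false e e) (n false e e)) (n false (n false e e) (n false e e))) (n false e e)) e)) (u 16 1 (k v (k (c 48 4099 r (u 32 1 (k v (k v r)))) (k (c 32 4097 r (u 48 1 (k v (k v r)))) (k (c 32 4095 r (u 48 0 (k v (k v r)))) (k (c 32 4095 r (u 48 0 (k v (k v r)))) r))))))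
 .z .z) (.s 0x3be75fe0070e577c00 4085 (n false (n false (n true (n true (z 121) e) e) (n true (n false e e) e)) (n true (z 52) e)) (u 16 18 (k r (k r (k (c 48 4099 r (u 32 1 (k r (k r r)))) (k (c 32 4097 r (u 48 1 (k r (k r r)))) (k (c 32 4095 r (u 48 0 (k r (k r r)))) (k (c 32 4095 r (u 48 0 (k r (k r r)))) r)))))))
 .z .z)) (.s 0x3be775c00475445110 4084 (n false (n false (n true (n true (z 37) e) e) (n false e e)) (n true (n false (n false (n false (n false e e) (n false e e)) (n false (n false e e) (n false e e))) (n false e e)) e)) (u 16 23 (k v (k v (k (u 32 0 (k (t 64 3 (t 96 1 v)) r)) (k (u 32 0 (k v (k v (k (t 96 1 (u 64 0 (k (t 128 3 (t 192 1 v)) r))) r)))) (k (c 8 4088 r v) r))))))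
 (.s 0x3be75fe0070e7f7c00 4085 (n false (n false (n true (n true (z 121) e) e) (n true (n false e e) e)) (n true (z 55) e)) (u 16 1 (k r (k (c 48 4099 r (u 32 1 (k r (k r r)))) (k (c 32 4097 r (u 48 31 (k r (k r (k r r))))) (k (c 32 4095 r (u 48 0 (k r (k r r)))) (k (c 32 4095 r (u 48 0 (k r (k r r)))) r))))))
 .z .z) .z))) (.s 0x3be9d7f804aef80088 4086 (n false (n false (n true (n true (n false (z 52) (z 121)) e) e) (n false e e)) (n false e e)) (u 48 1 (k r (k (c 112 4099 r (u 80 1 (k r (k r r)))) (k (c 80 4097 r (u 112 1 (k r (k r r)))) (k (c 80 4095 r (u 112 0 (k r (k r r)))) (k (c 80 4095 r (u 112 0 (k r (k r r)))) r))))))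
 (.s 0x3be7f7c00475445110 4082 (n false (n false (n true (n true (z 55) e) e) (n false e e)) (n true (n false (n false (n false (n false e e) (n false e e)) (n false (n false e e) (n false e e))) (n false e e)) e)) (u 16 4 (k (t 48 1 (u 32 2 (k v (k (c 96 4099 r (t 64 3 v)) (k (u 64 2 (k v (k v r))) r))))) (k (c 8 4091 (t 6 2 r) v) r)))
 (.s 0x3be775c0070e7f7c00 4085 (n false (n true (z 55) e) (n false (n true (n true (z 37) e) e) (n true (n false e e) e))) (u 17 0 (k (u 4 6 (k v (k (t 12 1 (u 8 10 (k v (k v r)))) r))) (k (c 2 4095 r (u 33 0 (k (t 65 3 (t 97 1 v)) r))) (k (c 2 4095 r (u 33 0 (k (t 65 3 (t 97 1 v)) r))) (k (c 3 4090 (c 16 4096 r v) r) (k (c 2 4095 r r) (k (c 2 4095 r r) r)))))))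
 (.s 0x3be775c0070e577c00 4085 (n false (n false (n true (n true (z 37) e) e) (n true (n false e e) e)) (n true (z 52) e)) (u 16 0 (k r (k (c 3 4096 r (u 32 0 (k (t 64 3 (t 96 1 v)) r))) (k r (k (c 3 4096 r r) (k r (k (c 3 4096 r r) r)))))))
 .z .z) (.s 0x3be7df600475445110 4081 (n false (n false (n true (n true (z 91) e) e) (n false e e)) (n true (n false (n false (n false (n false e e) (n false e e)) (n false (n false e e) (n false e e))) (n false e e)) e)) (u 16 9 (k v (k v (k v (k (u 32 1 (k v (k v r))) (k (c 32 4097 r (u 48 0 (k v (k v r)))) (k (c 32 4097 r (u 48 0 (k v (k v r)))) (k (c 32 4095 r (u 48 0 (k v (k v r)))) r))))))))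
 .z .z)) (.s 0x3be97f7004aef80088 4086 (n false (n false (n true (n true (n false (z 46) (z 52)) e) e) (n false e e)) (n false e e)) (u 32 1 (k r (k (u 64 1 (k r (k r r))) (k (c 96 4099 r (u 64 0 (k r (k r r)))) (k (u 48 169 (k (u 64 1 (k v (k v r))) (k (c 64 4100 r v) (k (c 16 4083 (u 4 1 (k v (k v r))) v) (k (t 112 1 (u 80 2 (k (u 64 1 (k v (k v r))) (k (u 64 1 (k v (k v r))) r)))) r))))) (k (c 96 4097 r (u 64 1 (k r (k r r)))) (k (c 64 4095 r (u 96 1 (k r (k r r)))) r)))))))
 (.s 0x3be95ff804aef80088 4086 (n false (n false (n true (n true (n false (z 52) (z 124)) e) e) (n false e e)) (n false e e)) (u 48 21 (k r (k (c 32 4097 r v) (k (c 16 4083 r v) (k (c 112 4097 r (u 80 1 (k r (k r r)))) (k (c 112 4096 r (u 80 1 (k r (k r r)))) (k (c 112 4097 r (u 80 1 (k r (k r r)))) (k (c 112 4097 r (u 80 1 (k r (k r r)))) (k (c 80 4097 r (u 112 1 (k r (k r r)))) r)))))))))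
 .z .z) .z)) (.s 0x3bea88a220895fd400 4087 (n false (z 156) (n false (n true (n true (n false (n false (n false (n false e e) (n false e e)) (n false (n false e e) (n false e e))) (n false e e)) e) e) (n false e e))) (u 2 8 (k v (k v (k (c 6 4099 r (u 4 1 (k v (k v r)))) (k (c 4 4098 r (u 6 1 (k v (k v r)))) (k (c 4 4097 r (u 6 1 (k v (k v r)))) (k (c 4 4099 r (u 6 1 (k v (k v r)))) r)))))))
 (.s 0x3be9f5f004ebfc0088 4088 (n false (n false (n true (n true (n false (z 121) (z 51)) e) e) (n false e e)) (n false e e)) (t 48 3 (u 32 1 (k v (k (c 96 4099 r (u 64 1 (k v (k v r)))) (k (c 64 4097 r (u 96 1 (k v (k v r)))) (k (c 64 4095 r (u 96 0 (k v (k v r)))) (k (c 64 4095 r (u 96 0 (k v (k v r)))) r)))))))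
 (.s 0x3be9dd7004aef80088 4086 (n false (n false (n true (n true (n false (z 52) (z 37)) e) e) (n false e e)) (n false e e)) (u 48 0 (k r (k (c 8 4088 r v) (k (c 8 4088 r v) (k r (k r (k (c 48 4095 r r) r)))))))
 .z .z) (.s 0x3bea88a22089555400 4083 (n false (z 128) (n false (n true (n true (n false (n false (n false (n false e e) (n false e e)) (n false (n false e e) (n false e e))) (n false e e)) e) e) (n false e e))) (u 2 6 (k v (k v (k (c 6 4097 r r) (k (c 4 4095 r r) (k (c 4 4098 r (u 6 0 (k (u 10 0 (k v (k v r))) r))) (k (c 4 4096 r r) (k (c 4 4095 r r) (k (c 4 4095 r r) (k (c 4 4095 r (u 6 0 (k v (k v r)))) (k (c 6 4095 r r) (k (c 6 4095 r (u 4 1 (k v (k v r)))) (k (c 4 4097 r (u 6 0 (k v (k v r)))) (k (c 4 4095 r r) (k (c 4 4095 r (u 6 1 (k v (k v r)))) (k (c 4 4097 r r) r))))))))))))))))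
 .z .z)) (.s 0x3bea88a2208a577c00 4083 (n false (n false (z 52) e) (n false (n true (n true (n false (n false (n false (n false e e) (n false e e)) (n false (n false e e) (n false e e))) (n false e e)) e) e) (n false e e))) (u 4 90 (k v (k v (k v (k v (k v (k v (k v r))))))))
 (.s 0x3bea88a2208a55fe00 4083 (n false (n false (z 120) e) (n false (n true (n true (n false (n false (n false (n false e e) (n false e e)) (n false (n false e e) (n false e e))) (n false e e)) e) e) (n false e e))) (u 4 7 (k v (k v (k v (k v (k (c 12 4101 r (c 17 4099 v (u 8 5 (k v (k v r))))) (k (c 8 4099 r r) (k (c 2 4088 (t 6 1 r) v) (k (c 2 4088 (t 6 1 (u 4 0 (k r r))) v) (k (c 12 4099 r r) (k (c 8 4098 r (c 17 4099 v (u 12 1 (k v (k v r))))) (k (c 8 4101 r r) (k (c 12 4099 r r) (k (c 8 4101 r r) r))))))))))))))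
 .z .z) .z))))

set_option maxRecDepth 100000 in
def N155 : NT :=
(.s 0x3bea88a2208e7f7e00 4084 (n false (n true (z 119) e) (n false (n true (n true (n false (n false (n false (n false e e) (n false e e)) (n false (n false e e) (n false e e))) (n false e e)) e) e) (n false e e))) (u 4 50 (k v (k v (k (c 12 4101 r r) (k (c 12 4096 r (u 8 1 (k (u 16 1 (k v (k v r))) (k (u 16 339 (k v (k v (k v (k v (k v r)))))) (k (c 16 4096 r (u 24 0 (k v (k v r)))) (k (c 24 4096 r r) r)))))) (k (c 12 4099 r r) (k (c 12 4097 r r) (k (c 12 4096 r (u 8 0 (k (u 16 0 (k v (k v r))) r))) (k (c 8 4098 r r) (k (c 8 4101 r r) (k (c 8 4099 r r) (k (c 8 4101 r r) r))))))))))))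
 (.s 0x3bea88a2208e777600 4084 (n false (n true (z 85) e) (n false (n true (n true (n false (n false (n false (n false e e) (n false e e)) (n false (n false e e) (n false e e))) (n false e e)) e) e) (n false e e))) (u 4 4 (k v (k (c 12 4099 r r) (k (c 12 4099 r (c 2 4088 r v)) (k (c 12 4099 r (u 8 1 (k v (k v (k v (k (t 24 1 r) r)))))) (k (u 8 0 (k v (k v (k v (k (t 24 2 (u 16 6 (k v (k v (k (t 48 1 (u 32 0 (k v (k v r)))) r))))) r))))) (k (c 12 4096 r (c 2 4088 r v)) (k (c 8 4099 r r) r))))))))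
 (.s 0x3bea88a2208e5ffc00 4080 (n false (n true (z 62) e) (n false (n true (n true (n false (n false (n false (n false e e) (n false e e)) (n false (n false e e) (n false e e))) (n false e e)) e) e) (n false e e))) (u 4 1 (k v (k v (k v (k (t 12 1 (u 8 162 (k v (k v (k v (k v (k (t 24 1 (u 16 0 (k v (k v r)))) r))))))) r)))))
 (.s 0x3bea88a2208e5d7c00 4083 (n false (n true (z 50) e) (n false (n true (n true (n false (n false (n false (n false e e) (n false e e)) (n false (n false e e) (n false e e))) (n false e e)) e) e) (n false e e))) (u 4 1 (k v (k (c 12 4097 r (u 8 0 (k v (k v r)))) r)))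
 (.s 0x3bea88a2208e57fe00 4081 (n false (n true (z 124) e) (n false (n true (n true (n false (n false (n false (n false e e) (n false e e)) (n false (n false e e) (n false e e))) (n false e e)) e) e) (n false e e))) (u 4 1 (k v (k (c 12 4097 r (u 8 1 (k v (k v r)))) (k (c 12 4096 r (u 8 1 (k v (k v r)))) (k (c 8 4098 r (u 12 0 (k v (k v r)))) (k (c 12 4096 r (u 8 1 (k v (k v r)))) (k (c 12 4097 r (u 8 1 (k v (k v r)))) (k (c 12 4097 r (u 8 1 (k v (k v r)))) (k (c 12 4096 r (u 8 1 (k v (k v r)))) (k (c 12 4099 r (u 8 1 (k v (k v r)))) (k (c 8 4097 r (u 12 1 (k v (k v r)))) r)))))))))))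
 .z .z) (.s 0x3bea88a2208e5fdc00 4081 (n false (n true (z 46) e) (n false (n true (n true (n false (n false (n false (n false e e) (n false e e)) (n false (n false e e) (n false e e))) (n false e e)) e) e) (n false e e))) (u 4 1 (k v (k (u 8 1 (k v (k v r))) (k (c 12 4099 r (u 8 0 (k v (k v r)))) (k (u 8 1 (k v (k v r))) (k (c 12 4097 r (u 8 1 (k v (k v r)))) (k (c 8 4095 r (u 12 1 (k v (k v r)))) r)))))))
 .z .z)) (.s 0x3bea88a2208e775c00 4083 (n false (n true (z 37) e) (n false (n true (n true (n false (n false (n false (n false e e) (n false e e)) (n false (n false e e) (n false e e))) (n false e e)) e) e) (n false e e))) (u 4 0 (k v (k (u 8 0 (k (t 16 3 (t 24 1 v)) r)) (k (u 8 0 (k (t 16 3 (t 24 1 v)) r)) (k (u 8 2 (k v (k v (k v (k (t 24 1 (u 16 0 (k (t 32 3 (t 48 1 v)) r))) r))))) (k (u 8 0 (k v (k v (k (t 24 1 (u 16 0 (k (t 32 3 (t 48 1 v)) r))) r)))) (k (c 2 4088 r v) r)))))))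
 (.s 0x3bea88a2208e75fe00 4083 (n false (n true (z 121) e) (n false (n true (n true (n false (n false (n false (n false e e) (n false e e)) (n false (n false e e) (n false e e))) (n false e e)) e) e) (n false e e))) (u 4 1 (k v (k (c 12 4099 r (u 8 1 (k v (k v r)))) (k (c 8 4097 r (u 12 1 (k v (k v r)))) (k (c 8 4095 r (u 12 0 (k v (k v r)))) (k (c 8 4095 r (u 12 0 (k v (k v r)))) r))))))
 .z .z) .z)) (.s 0x3bea88a2208e7dfe00 4087 (n false (n true (z 123) e) (n false (n true (n true (n false (n false (n false (n false e e) (n false e e)) (n false (n false e e) (n false e e))) (n false e e)) e) e) (n false e e))) (u 4 29 (k v (k v (k v (k (c 12 4099 r (u 8 5 (k v (k v (k v (k (t 24 2 r) r)))))) r)))))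
 (.s 0x3bea88a2208e7d5c00 4087 (n false (n false (n true (n true (n false (n false (n false (n false e e) (n false e e)) (n false (n false e e) (n false e e))) (n false e e)) e) e) (n false e e)) (n true (z 35) e)) (u 5 0 (k v (k v (k (t 13 1 (u 9 0 (k (t 17 3 (t 25 1 v)) r))) r))))
 (.s 0x3bea88a2208e7d5600 4085 (n false (n true (z 67) e) (n false (n true (n true (n false (n false (n false (n false e e) (n false e e)) (n false (n false e e) (n false e e))) (n false e e)) e) e) (n false e e))) (u 4 51 (k v (k v (k v (k v (k (t 12 1 (u 8 1 (k v (k v r)))) (k (c 8 4101 r (u 12 0 (k v (k v r)))) (k r (k (c 2 4088 r v) (k (c 2 4091 (t 6 2 (u 4 0 (k r r))) v) (k (c 12 4101 r (u 8 1 (k v (k v r)))) (k (t 12 1 (u 8 9 (k v (k v (k v (k (c 24 4099 r (u 16 1 (k v (k v r)))) r)))))) (k (c 12 4102 r (u 8 1 (k v (k v r)))) (k (c 8 4101 r (u 12 1 (k v (k v r)))) (k r (k (c 8 4101 r (u 12 1 (k v (k v r)))) r))))))))))))))))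
 .z .z) (.s 0x3bea88a2208e7df600 4081 (n false (n true (z 91) e) (n false (n true (n true (n false (n false (n false (n false e e) (n false e e)) (n false (n false e e) (n false e e))) (n false e e)) e) e) (n false e e))) (u 4 9 (k v (k v (k v (k (u 8 1 (k v (k v r))) (k (c 8 4097 r (u 12 0 (k v (k v r)))) (k (c 8 4097 r (u 12 0 (k v (k v r)))) (k (c 8 4095 r (u 12 0 (k v (k v r)))) r))))))))
 .z .z)) (.s 0x3bea88a2208e7f7c00 4080 (n false (n true (z 55) e) (n false (n true (n true (n false (n false (n false (n false e e) (n false e e)) (n false (n false e e) (n false e e))) (n false e e)) e) e) (n false e e))) (u 4 4 (k (t 12 1 (u 8 31 (k v (k v (k (t 16 3 (t 24 1 v)) (k (u 16 2 (k v (k v r))) (k (u 16 10 (k v (k v (k v r)))) r))))))) (k (t 12 2 (u 8 2 (k v (k (c 2 4082 (u 8 1 (k v (k v r))) v) r)))) r)))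
 (.s 0x3bea88a2208e7f5600 4085 (n false (n true (z 71) e) (n false (n true (n true (n false (n false (n false (n false e e) (n false e e)) (n false (n false e e) (n false e e))) (n false e e)) e) e) (n false e e))) (u 4 5 (k v (k (u 8 0 (k v (k v r))) (k (c 12 4099 r (u 8 1 (k v (k v r)))) (k (c 8 4099 r (u 12 1 (k v (k v r)))) (k (c 8 4099 r (u 12 1 (k v (k v r)))) (k (c 8 4099 r (u 12 1 (k v (k v r)))) r)))))))
 .z .z) .z))) (.s 0x3e95ff804aef801708 4085 (n false (n true (n false (z 52) (z 124)) e) (n false (n true (n false e e) e) (n false e e))) (u 12 5 (k r (k (c 28 4097 r (u 20 1 (k r (k r r)))) (k (c 28 4096 r (u 20 1 (k r (k r r)))) (k (c 20 4098 r (u 28 0 (k r (k r r)))) (k (c 28 4096 r (u 20 1 (k r (k r r)))) (k (c 28 4097 r (u 20 1 (k r (k r r)))) (k (c 28 4097 r (u 20 1 (k r (k r r)))) (k (c 28 4096 r (u 20 1 (k r (k r r)))) (k (c 20 4097 r (u 28 1 (k r (k r r)))) r))))))))))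
 (.s 0x3beaf95df0010823a0 4061 (n false (n false (n true (n true (n false (n false (n false (n true (n true (z 52) e) e) (n false e e)) e) (n false e e)) e) e) (n false e e)) (n true (n false (n false e e) e) e)) (u 512 182 (k v (k v (k v (k v (k v (k v (k v r))))))))
 (.s 0x3beab95df0010823a0 4060 (n false (n false (n true (n true (n false (n false (n false (n false (n true (z 52) e) e) (n false e e)) e) (n false e e)) e) e) (n false e e)) (n true (n false (n false e e) e) e)) (u 512 238 (k v (k v (k v (k v (k v (k v (k v r))))))))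
 (.s 0x3bea88a220e57f5000 4087 (n false (n false (n true (z 156) e) (n true (n true (n false (n false (n false (n false e e) (n false e e)) (n false (n false e e) (n false e e))) (n false e e)) e) e)) e) (u 8 8 (k v (k v (k (c 24 4099 r (u 16 1 (k v (k v r)))) (k (c 16 4098 r (u 24 1 (k v (k v r)))) (k (c 16 4097 r (u 24 1 (k v (k v r)))) (k (c 16 4099 r (u 24 1 (k v (k v r)))) r)))))))
 .z .z) (.s 0x3beae57f50010823a0 4064 (n false (n false (n true (n true (n false (n false (n false (n true (z 156) e) (n false e e)) e) (n false e e)) e) e) (n false e e)) (n true (n false (n false e e) e) e)) (u 256 2 (k v (k (c 768 4099 r (u 512 1 (k v (k v r)))) (k (c 512 4095 r (u 768 0 (k v (k v r)))) r))))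
 .z .z)) (.s 0x3e95df0043a577c010 4088 (n false (n true (n false (z 52) (n false e e)) e) (n true (n false (z 52) (n false e e)) e)) (u 8 71 (k r (k r (k (u 9 72 (k v (k v (k v (k (t 25 1 (u 17 0 (k v (k v r)))) r))))) r))))
 (.s 0x3bf9777000e12afe00 4087 (n false (z 56) (n false (n true (n true (n true (z 42) e) e) e) (n true (n false e e) e))) (c 2 4096 r (u 33 1 (k v (k v r))))
 .z .z) .z)) (.s 0x3e97f7004bfa801f40 4085 (n false (n true (n false (z 46) (z 14)) e) (n true (n true (n false (n false e e) e) e) e)) (u 8 2 (k (u 12 0 (k v (k v r))) (k (c 24 4099 r (u 16 0 (k (u 12 0 (k v (k v r))) (k (u 12 0 (k v (k v r))) r)))) (k r (k (u 12 0 (k (c 2 4081 (c 10 4094 v r) v) (k (u 16 1 (k v (k v r))) r))) (k (c 24 4097 r r) (k (c 16 4095 r r) r)))))))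
 (.s 0x3e9777007074faac00 4093 (n false (n true (n false (z 42) (n true (n false e e) e)) e) (n true (n false (z 67) e) e)) (u 8 61 (k r (k (u 9 57 (k v (k (c 25 4099 r r) (k (c 17 4099 r r) (k (c 25 4099 r r) (k (c 25 4099 r r) (k (c 25 4099 r r) (k (c 25 4099 r r) r)))))))) (k (t 9 2 v) r))))
 (.s 0x3e9777007052eee008 4087 (n false (n true (n false (z 42) (n true (n false e e) e)) e) (n false (z 42) (n false e e))) (c 12 4094 v (u 8 1 (k r (k r r))))
 .z .z) (.s 0x3e97f7004aef801708 4084 (n false (n true (n false (z 46) (z 52)) e) (n false (n true (n false e e) e) (n false e e))) (u 12 168 (k r (k r (k (c 8 4099 r v) (k (c 4 4083 r v) (k (t 28 1 (u 20 2 (k r (k r r)))) r))))))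
 .z .z)) (.s 0x3e9dd5004bfb801f40 4091 (n false (n true (n false (z 46) (z 5)) e) (n true (n true (n false (n false e e) e) e) e)) (t 12 1 (u 8 2 (k v (k (c 24 4099 r (u 16 0 (k v (k v r)))) (k r (k (c 2 4088 (c 10 4101 v r) v) (k (c 24 4097 r r) (k (c 16 4095 r r) r))))))))
 (.s 0x3e9d7f804aef801708 4085 (n false (n true (n false (z 121) (z 52)) e) (n false (n true (n false e e) e) (n false e e))) (u 8 1 (k r (k (c 24 4099 r (u 16 1 (k r (k r r)))) (k (c 16 4097 r (u 24 1 (k r (k r r)))) (k (c 16 4095 r (u 24 0 (k r (k r r)))) (k (c 16 4095 r (u 24 0 (k r (k r r)))) r))))))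
 .z .z) .z))))

set_option maxRecDepth 100000 in
def N156 : NT :=
(.s 0x3eb9fdf003813eab00 4088 (n false (n true (n false (n false (n true (z 55) e) (n true (n false e e) e)) e) e) (z 67)) (u 3 147 (k (c 4 4085 r v) (k (c 8 4086 (c 3 4094 v r) v) (k (c 4 4085 r v) (k (c 32 4096 r v) (k (u 32 12 (k v (k v r))) (k (t 7 1 (u 32 9 (k r (k (u 5 1 (k v (k v r))) r)))) (k (c 2 4095 r (t 7 2 (u 5 0 (k r r)))) (k (c 7 4101 r r) (k r (k (c 2 4095 r (t 5 1 (u 7 0 (k r r)))) (k (c 16 4095 r r) (k r (k (c 5 4101 r r) r))))))))))))))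
 (.s 0x3ea577c01072bfa800 4092 (n false (n true (n false (n false (z 52) (n false e e)) e) e) (n true (z 156) e)) (u 5 1 (k r (k (c 13 4099 r (u 9 1 (k r (k r r)))) (k (c 9 4098 r (u 13 1 (k r (k r r)))) (k (c 9 4097 r (u 13 1 (k r (k r r)))) (k (c 9 4099 r (u 13 1 (k r (k r r)))) (k (c 9 4095 r (u 13 0 (k r (k r r)))) r)))))))
 (.s 0x3e9fdd804ebfc01708 4084 (n false (n true (n false (z 87) (z 121)) e) (n false (n true (n false e e) e) (n false e e))) (u 12 1 (k (u 8 1 (k v (k v r))) (k (c 28 4099 r r) (k (c 20 4097 r r) (k (c 20 4095 r r) (k (c 20 4095 r r) r))))))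
 (.s 0x3e9f5f004ebfc01708 4086 (n false (n true (n false (z 51) (z 121)) e) (n false (n true (n false e e) e) (n false e e))) (t 8 3 (u 12 1 (k v (k (c 28 4099 r (u 20 1 (k v (k v r)))) (k (c 20 4097 r (u 28 1 (k v (k v r)))) (k (c 20 4095 r (u 28 0 (k v (k v r)))) (k (c 20 4095 r (u 28 0 (k v (k v r)))) r)))))))
 (.s 0x3e9dd7004aef801708 4085 (n false (n true (n false (z 52) (z 37)) e) (n false (n true (n false e e) e) (n false e e))) (u 12 0 (k r (k (c 2 4088 r v) (k (c 2 4088 r v) (k r (k r (k (c 12 4095 r r) r)))))))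
 .z .z) (.s 0x3e9f7d804aef801708 4085 (n false (n true (n false (z 52) (z 91)) e) (n false (n true (n false e e) e) (n false e e))) (u 12 12 (k r (k (c 8 4097 r v) (k (c 12 4093 v r) (k (u 8 169 (k (u 20 1 (k v (k v r))) (k (c 20 4099 r v) (k (c 4 4082 (u 5 1 (k v (k v r))) v) (k (t 24 1 (u 16 2 (k (u 20 1 (k v (k v r))) (k (u 20 1 (k v (k v r))) r)))) r))))) (k (c 20 4097 r (u 28 0 (k r (k r r)))) (k (c 20 4095 r (u 28 0 (k r (k r r)))) r)))))))
 .z .z)) (.s 0x3ea577c0105d445108 4074 (n false (n true (n false (n false (z 52) (n false e e)) e) e) (n false (n true (n false (n false (n false e e) (n false e e)) (n false (n false e e) (n false e e))) e) (n false e e))) (u 16 73 (k v (k v (k (t 48 1 (u 32 0 (k v (k v r)))) (k (t 48 2 (u 32 0 (k (u 64 2 (k v (k (c 32 4084 (u 4 1 (k v (k v r))) v) r))) r))) r)))))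
 (.s 0x3e9fdd804ebfc01f40 4085 (n false (n true (n false (z 87) (z 121)) e) (n true (n true (n false (n false e e) e) e) e)) (u 12 1 (k (u 8 1 (k v (k v r))) (k (c 28 4099 r r) (k (c 20 4097 r r) (k (c 20 4095 r r) (k (c 20 4095 r r) r))))))
 .z .z) .z)) (.s 0x3eaa22888a213eab00 4091 (n false (z 67) (n true (n false (n false (n false (n false (n false e e) (n false e e)) (n false (n false e e) (n false e e))) (n false e e)) (n false (n false e e) (n false e e))) e)) (c 9 4099 v (u 2 0 (k v (k v r))))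
 (.s 0x3ea75fe00875445110 4084 (n false (n true (n false (n false (z 121) e) (n false e e)) e) (n true (n false (n false (n false (n false e e) (n false e e)) (n false (n false e e) (n false e e))) (n false e e)) e)) (u 16 3 (k v (k v (k (c 48 4099 r (u 32 1 (k v (k v r)))) (k (c 32 4097 r (u 48 1 (k v (k v r)))) r)))))
 (.s 0x3ea577c0107caef800 4090 (n false (n true (n false (n false (z 52) (n false e e)) e) e) (n true (n true (z 52) e) e)) (u 9 266 (k r (k r (k (t 16 1 v) (k (t 16 1 v) (k (c 16 4097 r v) (k (t 16 1 v) (k (t 25 1 (u 16 269 (k (u 17 0 (k v (k v r))) (k (u 17 0 (k v (k v r))) (k (t 17 1 v) r))))) r))))))))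
 .z .z) (.s 0x3ea77dc0110e7f7600 4091 (n false (n true (n false (n false (z 45) (n false e e)) (n false e e)) e) (n true (z 87) e)) (u 5 1 (k (u 16 0 (k v (k v r))) (k (u 16 3 (k v (k v r))) r)))
 .z .z)) (.s 0x3eb95df003813eab00 4088 (n false (n true (n false (n false (n true (z 52) e) (n true (n false e e) e)) e) e) (z 67)) (u 32 336 (k r (k r (k (c 24 4094 v r) (k (c 24 4094 v (u 3 146 (k v (k v (k v (k v r)))))) (k (c 24 4094 v r) (k (c 4 4082 v (c 3 4103 r v)) r)))))))
 (.s 0x3eaa22888e813eab00 4088 (n false (n true (n false (n true (n false (n false e e) e) e) (n false (n false (n false (n false e e) (n false e e)) (n false (n false e e) (n false e e))) (n false e e))) e) (z 67)) (u 3 33 (k v (k v (k v (k v (k (t 7 1 (u 5 1 (k v (k v r)))) (k (u 5 4 (k (u 7 0 (k v (k v r))) (k (t 7 1 v) r))) (k r (k (c 2 4094 v r) (k (c 16 4094 v (c 20 4101 v r)) (k (t 7 1 (u 5 2 (k v (k (c 13 4097 r (u 9 0 (k v (k v r)))) r)))) (k (c 2 4094 v (t 7 2 (u 5 0 (k r r)))) (k (u 7 2 (k (t 5 1 v) (k (u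 5 1 (k v (k v r))) r))) (k r (k (c 2 4094 v (t 5 1 (u 7 0 (k r r)))) (k (c 16 4094 v (c 20 4101 v r)) (k r (k (c 16 4094 v (c 20 4101 v r)) r))))))))))))))))))
 .z .z) .z))) (.s 0x3eea88a2212eee0050 4084 (n false (n true (n false (z 42) (n true (n false (n false (n false (n false e e) (n false e e)) (n false (n false e e) (n false e e))) (n false e e)) e)) e) (n false (n false e e) e)) (u 8 90 (k v (k v (k r (k r (k r (k r r)))))))
 (.s 0x3ee5ddc00aa2288850 4094 (n false (n true (n false (n true (z 42) e) (n false (n false (n false (n false e e) (n false e e)) (n false (n false e e) (n false e e))) (n false e e))) e) (n false (n false e e) e)) (c 2 4088 (c 10 4101 v r) v)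
 (.s 0x3ee57f500075445110 4093 (n false (n true (n false (n true (z 156) e) e) e) (n true (n false (n false (n false (n false e e) (n false e e)) (n false (n false e e) (n false e e))) (n false e e)) e)) (u 16 8 (k v (k v (k (c 48 4099 r (u 32 1 (k v (k v r)))) (k (c 32 4098 r (u 48 1 (k v (k v r)))) (k (c 32 4097 r (u 48 1 (k v (k v r)))) (k (c 32 4099 r (u 48 1 (k v (k v r)))) r)))))))
 (.s 0x3ee55550010a7d5600 4084 (n false (n true (n false (n true (z 128) e) (n false e e)) e) (n false (z 67) e)) (t 5 2 (u 16 28 (k v (k v (k v (k (c 48 4097 r r) (k (c 32 4095 r r) (k (c 32 4096 r r) (k (c 32 4095 r r) (k (c 32 4095 r (u 48 0 (k v (k v r)))) (k (c 48 4095 r (u 32 43 (k v (k v (k v r))))) (k (c 48 4095 r (u 32 1 (k v (k v r)))) (k (c 32 4097 r (u 48 0 (k v (k v r)))) (k (c 32 4095 r r) (k (c 32 4095 r (u 48 1 (k v (k v r)))) (k (c 32 4097 r r) r))))))))))))))))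
 .z .z) (.s 0x3ee57f50010aa22888 4087 (n false (n true (n false (n true (z 156) e) (n false e e)) e) (n false (n false (n false (n false e e) (n false e e)) (n false (n false e e) (n false e e))) (n false e e))) (u 16 8 (k v (k v (k (c 48 4099 r (u 32 1 (k v (k v r)))) (k (c 32 4098 r (u 48 1 (k v (k v r)))) (k (c 32 4097 r (u 48 1 (k v (k v r)))) (k (c 32 4099 r (u 48 1 (k v (k v r)))) r)))))))
 .z .z)) (.s 0x3ee777600875445110 4083 (n false (n true (n false (n true (z 85) e) (n false e e)) e) (n true (n false (n false (n false (n false e e) (n false e e)) (n false (n false e e) (n false e e))) (n false e e)) e)) (u 16 4 (k v (k (c 48 4099 r r) (k (c 48 4099 r (c 2 4079 r v)) (k (c 48 4099 r (c 2 4078 r v)) (k (u 32 12 (k v (k v r))) (k (c 48 4096 r (c 2 4079 r v)) (k (c 32 4099 r r) r))))))))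
 (.s 0x3ee75fe00875445110 4084 (n false (n true (n false (n true (z 121) e) (n false e e)) e) (n true (n false (n false (n false (n false e e) (n false e e)) (n false (n false e e) (n false e e))) (n false e e)) e)) (u 16 3 (k v (k v (k (c 48 4099 r (u 32 1 (k v (k v r)))) (k (c 32 4097 r (u 48 1 (k v (k v r)))) r)))))
 .z .z) .z)) (.s 0x3ef97f7001c13eee00 4087 (n false (n true (n false (n true (n true (z 46) e) e) (n true (n false e e) e)) e) (z 43)) (u 32 1 (k r (k (u 64 1 (k r (k r r))) (k (c 96 4099 r (u 64 0 (k r (k r r)))) (k (u 64 1 (k r (k r r))) (k (c 96 4097 r (u 64 1 (k r (k r r)))) (k (c 64 4095 r (u 96 1 (k r (k r r)))) r)))))))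
 (.s 0x3ef95df0010aa22888 4083 (n false (n true (n false (n true (n true (z 52) e) e) (n false e e)) e) (n false (n false (n false (n false e e) (n false e e)) (n false (n false e e) (n false e e))) (n false e e))) (u 32 90 (k v (k v (k v (k v (k v (k v (k v r))))))))
 (.s 0x3eea88a221413eab00 4090 (n false (n true (n false (n true (n false (n false (n false (n false e e) (n false e e)) (n false (n false e e) (n false e e))) (n false e e)) e) (n false (n false e e) e)) e) (z 67)) (u 3 86 (k v (k v (k v (k v (k v (k (t 7 1 (u 5 1 (k v (k v r)))) (k (u 5 2 (k (t 7 1 v) (k (u 7 0 (k v (k v r))) r))) (k r (k (c 2 4094 v r) (k (c 2 4094 v (t 7 2 (u 5 0 (k r r)))) (k (u 7 2 (k (t 5 1 v) (k (u 5 1 (k v (k v r))) r))) (k r (k (c 2 4094 v (t 5 1 (u 7 0 (k r r)))) (k r (k r (k r r)))))))))))))))))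
 .z .z) (.s 0x3ef97f70010aa22888 4085 (n false (n true (n false (n true (n true (z 46) e) e) (n false e e)) e) (n false (n false (n false (n false e e) (n false e e)) (n false (n false e e) (n false e e))) (n false e e))) (u 32 2 (k v (k (c 96 4099 r (u 64 0 (k v (k v r)))) (k (u 64 1 (k v (k v r))) (k (u 64 0 (k v (k v r))) (k (c 96 4097 r (u 64 1 (k v (k v r)))) (k (c 64 4095 r (u 96 1 (k v (k v r)))) r)))))))
 .z .z)) (.s 0x3ef9dd7001c13eee00 4087 (n false (n true (n false (n true (n true (z 37) e) e) (n true (n false e e) e)) e) (z 43)) (u 32 0 (k r (k (c 2 4086 (u 32 0 (k (t 64 3 (t 96 1 v)) r)) (t 3 2 v)) (k r (k (c 2 4086 r (t 3 2 v)) (k (u 64 0 (k r (k r (k r r)))) (k (c 2 4081 r (t 3 2 v)) r)))))))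
 (.s 0x3ef9d7f801c13eee00 4087 (n false (n true (n false (n true (n true (z 121) e) e) (n true (n false e e) e)) e) (z 43)) (u 32 1 (k r (k (c 96 4099 r (u 64 1 (k r (k r r)))) (k (c 64 4097 r (u 96 1 (k r (k r r)))) (k (c 64 4095 r (u 96 0 (k r (k r r)))) (k (c 64 4095 r (u 96 0 (k r (k r r)))) r))))))
 .z .z) .z))))

end Pool.Agent.Helper91.ND1
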