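import Pool.Agent.Helper66.ND.Defs

/-! part of the certificate for the constant 25/48 (generated) -/

namespace Pool.Agent.Helper91.ND1

open Pool.Agent.Helper66.IL
open Pool.Agent.Helper66.ND
open Pool.Agent.Helper66.ND.LT
open Pool.Agent.Helper66.ND.Ct

set_option maxRecDepth 100000 in
def N166 : NT :=
(.s 0x1dd511444385cfeac00 4075 (n false (n false (n true (z 71) e) e) (n false (n true (n false (n false (n false (n false e e) (n false e e)) (n false (n false e e) (n false e e))) (n false e e)) e) (n true (n false e e) e))) (u 8 9 (k v (k v (k (t 24 2 (u 16 20 (k v (k v (k v r))))) (k (u 16 10 (k v (k (t 48 1 r) (k (t 32 2 r) (k (t 32 1 r) r))))) r)))))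
 (.s 0x1dd5114442e577c0050 4078 (n false (n false (n false (n true (z 52) e) e) (n true (n false (n false (n false (n false e e) (n false e e)) (n false (n false e e) (n false e e))) (n false e e)) e)) (n false (n false e e) e)) (u 16 278 (k v (k v (k v (k v (k v (k v (k v (k v r)))))))))
 (.s 0x1dd51144427f5601708 4080 (n false (n false (z 71) (n true (n false (n false (n false (n false e e) (n false e e)) (n false (n false e e) (n false e e))) (n false e e)) e)) (n false (n true (n false e e) e) (n false e e))) (u 4 5 (k v (k (u 8 0 (k v (k v r))) (k (c 12 4099 r (u 8 1 (k v (k v r)))) (k (c 8 4099 r (u 12 1 (k v (k v r)))) (k (c 8 4099 r (u 12 1 (k v (k v r)))) (k (c 8 4099 r (u 12 1 (k v (k v r)))) r)))))))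
 (.s 0x1dd51144427df601708 4076 (n false (n false (z 91) (n true (n false (n false (n false (n false e e) (n false e e)) (n false (n false e e) (n false e e))) (n false e e)) e)) (n false (n true (n false e e) e) (n false e e))) (u 4 2 (k v (k v (k (u 8 1 (k v (k v r))) (k (c 8 4097 r (u 12 0 (k v (k v r)))) (k (c 8 4097 r (u 12 0 (k v (k v r)))) (k (c 8 4096 r (u 12 0 (k v (k v r)))) (k (c 8 4095 r (u 12 0 (k v (k v r)))) r))))))))
 (.s 0x1dd51144427dde01708 4084 (n false (n false (z 107) (n true (n false (n false (n false (n false e e) (n false e e)) (n false (n false e e) (n false e e))) (n false e e)) e)) (n false (n true (n false e e) e) (n false e e))) (u 4 0 (k v (k (c 12 4099 r (u 8 7 (k v (k v (k v (k (c 24 4099 r (u 16 1 (k v (k v r)))) r)))))) (k (u 8 5 (k v (k v r))) (k (c 8 4102 r (u 12 1 (k v (k v r)))) r)))))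
 .z .z) (.s 0x1dd51144427dfe01708 4079 (n false (n false (z 123) (n true (n false (n false (n false (n false e e) (n false e e)) (n false (n false e e) (n false e e))) (n false e e)) e)) (n false (n true (n false e e) e) (n false e e))) (u 4 4 (k v (k (c 12 4099 r (u 8 2 (k v (k v (k v (k (t 24 2 r) r)))))) (k r (k (u 8 23 (k v (k v (k (c 24 4101 r r) (k (c 24 4099 r r) (k (c 24 4097 r r) (k (c 24 4096 r (u 16 0 (k (u 32 0 (k v (k v r))) r))) (k (c 16 4098 r r) (k (c 16 4101 r r) (k (c 16 4099 r r) (k (c 16 4101 r r) r))))))))))) (k (c 8 4096 r (u 12 1 (k v (k v r)))) (k (c 12 4097 r r) r)))))))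
 .z .z)) (.s 0x1dd51144429fdf00288 4084 (n false (n false (n false (z 55) e) (n true (n false (n false (n false (n false e e) (n false e e)) (n false (n false e e) (n false e e))) (n false e e)) e)) (n false (n false e e) (n false e e))) (u 8 4 (k (t 24 1 (u 16 19 (k v (k v (k v (k v (k (u 32 2 (k v (k v r))) r))))))) (k (c 4 4091 (t 6 2 r) v) r)))
 (.s 0x1dd51144429f5580288 4084 (n false (n false (n false (z 67) e) (n true (n false (n false (n false (n false e e) (n false e e)) (n false (n false e e) (n false e e))) (n false e e)) e)) (n false (n false e e) (n false e e))) (u 8 63 (k v (k v (k v (k (t 24 2 (u 16 2 (k v (k v r)))) (k (t 24 1 (u 16 2 (k v (k v r)))) (k r (k (c 4 4088 r v) (k (c 4 4091 (t 6 2 (u 4 0 (k r r))) v) (k (t 16 1 (u 24 2 (k v (k v r)))) (k (t 24 2 r) (k (c 4 4091 (t 4 1 (u 6 0 (k r r))) v) (k (t 24 2 (c 4 4086 r v)) (k (t 24 1 r) (k (t 24 2 r) (k (t 24 1 r) r))))))))))))))))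
 .z .z) .z)) (.s 0x1dd511444385cbbb800 4073 (n false (n false (n true (z 42) e) e) (n false (n true (n false (n false (n false (n false e e) (n false e e)) (n false (n false e e) (n false e e))) (n false e e)) e) (n true (n false e e) e))) (c 9 4099 v (u 8 1 (k v (k v r))))
 (.s 0x1dd5114443852eee008 4081 (n false (n false (z 42) (n false e e)) (n false (n true (n false (n false (n false (n false e e) (n false e e)) (n false (n false e e) (n false e e))) (n false e e)) e) (n true (n false e e) e))) (u 4 3 (k v (k (t 12 1 (u 8 0 (k (u 16 2 (k v (k (c 8 4084 (u 4 1 (k v (k v r))) v) r))) r))) (k (u 8 2 (k v (k v r))) (k (c 7 4094 v r) (k (c 7 4094 v r) (k (c 7 4094 v r) r)))))))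
 (.s 0x1dd5114443852bbe008 4085 (n false (n false (z 52) (n false e e)) (n false (n true (n false (n false (n false (n false e e) (n false e e)) (n false (n false e e) (n false e e))) (n false e e)) e) (n true (n false e e) e))) (u 4 41 (k v (k v (k (t 12 1 (u 8 2 (k v (k v r)))) r))))
 .z .z) (.s 0x1dd511444385cbabc00 4074 (n false (n false (n true (z 98) e) e) (n false (n true (n false (n false (n false (n false e e) (n false e e)) (n false (n false e e) (n false e e))) (n false e e)) e) (n true (n false e e) e))) (u 8 1 (k v (k v (k v (k (t 24 1 (u 16 6 (k v (k (c 48 4099 r (u 32 18 (k v (k v r)))) r)))) r)))))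
 .z .z)) (.s 0x1dd511444385cbff800 4070 (n false (n false (n true (z 62) e) e) (n false (n true (n false (n false (n false (n false e e) (n false e e)) (n false (n false e e) (n false e e))) (n false e e)) e) (n true (n false e e) e))) (u 8 1 (k v (k v (k v (k (t 24 1 (u 16 46 (k v (k v (k (t 48 1 (c 9 4099 v (u 32 0 (k v (k v r))))) r))))) r)))))
 (.s 0x1dd511444385cbfa800 4070 (n false (n false (n true (z 14) e) e) (n false (n true (n false (n false (n false (n false e e) (n false e e)) (n false (n false e e) (n false e e))) (n false e e)) e) (n true (n false e e) e))) (c 9 4099 v (u 8 0 (k v (k v r))))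
 .z .z) .z))) (.s 0x1dd572bbe00210e1708 4061 (n false (n false (n true (n false (n false (n false (n false (n true (z 52) e) e) (n false e e)) e) (n false e e)) e) (n true (n false e e) e)) (n false (n true (n false e e) e) (n false e e))) (u 256 234 (k v (k v (k v (k v (k v (k v (k v r))))))))
 (.s 0x1dd5114443977700288 4081 (n false (n false (n true (z 42) e) (n true (n false (n false (n false (n false e e) (n false e e)) (n false (n false e e) (n false e e))) (n false e e)) e)) (n false (n false e e) (n false e e))) (u 8 16 (k v (k v (k (u 16 2 (k v (k v r))) (k (c 4 4087 r v) (k (u 16 19 (k v (k v (k (c 32 4097 r (u 48 1 (k v (k v r)))) (k (c 32 4095 r (c 4 4076 r v)) (k (c 32 4095 r (c 4 4076 r v)) r)))))) (k (u 16 1 (k v (k (c 48 4099 r (u 32 1 (k v (k v r)))) (k (c 32 4098 r (u 48 1 (k v (k v r)))) (k (c 32 4097 r (u 48 1 (k v (k v r)))) (k (c 32 4099 r (u 48 1 (k v (k v r)))) (k (c 32 4095 r (c 4 4076 r v)) r))))))) r)))))))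
 (.s 0x1dd511444395df00288 4085 (n false (n false (n true (z 52) e) (n true (n false (n false (n false (n false e e) (n false e e)) (n false (n false e e) (n false e e))) (n false e e)) e)) (n false (n false e e) (n false e e))) (u 8 267 (k v (k v (k v (k v (k v (k v (k (t 24 1 (u 16 2 (k v (k v r)))) r))))))))
 (.s 0x1dd511444385cfeec00 4071 (n false (n false (n true (z 87) e) e) (n false (n true (n false (n false (n false (n false e e) (n false e e)) (n false (n false e e) (n false e e))) (n false e e)) e) (n true (n false e e) e))) (c 9 4099 v (u 8 1 (k v (k v r))))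
 .z .z) (.s 0x1dd511444395df003a0 4078 (n false (n false (n true (z 52) e) (n true (n false (n false (n false (n false e e) (n false e e)) (n false (n false e e) (n false e e))) (n false e e)) e)) (n true (n false (n false e e) e) e)) (u 8 292 (k v (k v (k v (k v (k v (k v (k v (k v (k (t 24 1 (c 5 4094 v r)) r))))))))))
 .z .z)) (.s 0x1dd51144439fd780288 4086 (n false (n false (n true (z 103) e) (n true (n false (n false (n false (n false e e) (n false e e)) (n false (n false e e) (n false e e))) (n false e e)) e)) (n false (n false e e) (n false e e))) (u 8 6 (k v (k (t 16 1 (u 24 2 (k v (k v r)))) (k (t 24 1 (u 16 1 (k v (k (c 48 4099 r (u 32 1 (k v (k v r)))) (k (c 32 4097 r (c 4 4083 r v)) (k (c 32 4095 r (c 4 4080 r v)) (k (c 32 4095 r (c 4 4080 r v)) r))))))) (k (t 24 1 (u 16 1 (k v (k (c 48 4099 r (u 32 1 (k v (k v r)))) (k (c 32 4098 r (u 48 1 (k v (k v r)))) (k (c 32 4097 r (c 4 4083 r v)) (k (c 32 4099 r (u 48 1 (k v (k v r)))) (k (c 32 4095 r (c 4 4080 r v)) r)))))))) r)))))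
 (.s 0x1dd51144439f5700288 4086 (n false (n false (n true (z 35) e) (n true (n false (n false (n false (n false e e) (n false e e)) (n false (n false e e) (n false e e))) (n false e e)) e)) (n false (n false e e) (n false e e))) (u 8 0 (k v (k v (k (t 24 1 (u 16 0 (k (t 32 3 (t 48 1 v)) r))) r))))
 .z .z) .z)) (.s 0x1dd5f2bbe00210e1708 4062 (n false (n false (n true (n false (n false (n false (n true (n true (z 52) e) e) (n false e e)) e) (n false e e)) e) (n true (n false e e) e)) (n false (n true (n false e e) e) (n false e e))) (u 256 235 (k v (k v (k v (k v (k v (k v (k v r))))))))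
 (.s 0x1dd5cafea00210e1708 4065 (n false (n false (n true (n false (n false (n false (n true (z 156) e) (n false e e)) e) (n false e e)) e) (n true (n false e e) e)) (n false (n true (n false e e) e) (n false e e))) (u 128 2 (k v (k (c 384 4099 r (u 256 1 (k v (k v r)))) (k (c 256 4095 r (u 384 0 (k v (k v r)))) r))))
 (.s 0x1dd572bbe00210ee108 4059 (n false (n false (n true (n false (n false (n false (n false (n true (z 52) e) e) (n false e e)) e) (n false e e)) e) (n true (n false (n true (n false e e) e) (n false e e)) e)) (n false e e)) (u 256 238 (k v (k v (k v (k v (k v (k v (k v r))))))))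
 .z .z) (.s 0x1dd5cafea00210ee108 4063 (n false (n false (n true (n false (n false (n false (n true (z 156) e) (n false e e)) e) (n false e e)) e) (n true (n false (n true (n false e e) e) (n false e e)) e)) (n false e e)) (u 128 2 (k v (k (c 384 4099 r (u 256 1 (k v (k v r)))) (k (c 256 4095 r (u 384 0 (k v (k v r)))) r))))
 .z .z)) (.s 0x1ddcbbb800754451108 4073 (n false (n false (n true (n false (n true (z 42) e) e) e) (n true (n false (n false (n false (n false e e) (n false e e)) (n false (n false e e) (n false e e))) (n false e e)) e)) (n false e e)) (c 10 4099 v (u 32 1 (k v (k v r))))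
 (.s 0x1dd5f2bbe00210ee108 4060 (n false (n false (n true (n false (n false (n false (n true (n true (z 52) e) e) (n false e e)) e) (n false e e)) e) (n true (n false (n true (n false e e) e) (n false e e)) e)) (n false e e)) (u 256 111 (k v (k v (k v (k v (k v (k v (k v r))))))))
 .z .z) .z))))

set_option maxRecDepth 100000 in
def N167 : NT :=
(.s 0x1df2bfa80070e7f7c00 4085 (n false (n true (z 55) e) (n false (n true (n true (z 156) e) e) (n true (n false e e) e))) (u 17 1 (k r (k (c 49 4099 r (u 33 1 (k r (k r r)))) (k (c 33 4098 r (u 49 1 (k r (k r r)))) (k (c 33 4097 r (u 49 31 (k r (k r (k r r))))) (k (c 33 4099 r (u 49 1 (k r (k r r)))) (k (c 33 4095 r (u 49 0 (k r (k r r)))) r)))))))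
 (.s 0x1df2bbe003a0aa22888 4079 (n false (n false (n true (n true (z 52) e) e) (n true (n false (n false e e) e) e)) (n false (n false (n false (n false e e) (n false e e)) (n false (n false e e) (n false e e))) (n false e e))) (u 16 186 (k v (k v (k v (k v (k v (k v (k v (k v r)))))))))
 (.s 0x1ddcfeec0108e57fe00 4081 (n false (n false (n true (n false (n true (z 87) e) (n false e e)) e) (n false e e)) (n true (z 124) e)) (u 5 12 (k (u 32 1 (k v (k v r))) (k (c 5 4094 v (u 32 1 (k v (k v r)))) (k (c 13 4097 r r) (k (c 13 4096 r r) (k (c 13 4097 r r) (k (c 13 4097 r r) (k (c 13 4099 r r) (k (c 9 4097 r r) r)))))))))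
 (.s 0x1ddcbfa8015445110e0 4071 (n false (n false (n true (n false (n true (z 14) e) (n false (n false (n false (n false e e) (n false e e)) (n false (n false e e) (n false e e))) (n false e e))) e) (n true (n false e e) e)) e) (c 40 4101 v (u 32 0 (k v (k v r))))
 (.s 0x1ddcbfa801544511088 4071 (n false (n false (n true (n false (n true (z 14) e) (n false (n false (n false (n false e e) (n false e e)) (n false (n false e e) (n false e e))) (n false e e))) e) (n false e e)) (n false e e)) (c 40 4101 v (u 32 0 (k v (k v r))))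
 .z .z) (.s 0x1ddcfeec00452eef008 4086 (n false (n false (n true (n false (n true (z 87) e) e) e) (n false e e)) (n false (z 106) (n false e e))) (u 5 20 (k (u 32 1 (k v (k v r))) (k (u 32 1 (k v (k v r))) (k (u 32 1 (k v (k v r))) r))))
 .z .z)) (.s 0x1df2bbe0023ea88a220 4075 (n false (n false (n true (n true (z 52) e) e) (n false e e)) (n true (n true (n false (n false (n false (n false e e) (n false e e)) (n false (n false e e) (n false e e))) (n false e e)) e) e)) (u 16 32 (k v (k v (k v (k v (k v (k v (k v (k (c 8 4081 r v) (k (t 48 2 (u 32 0 (k (u 64 2 (k v (k (c 8 4078 (u 16 1 (k v (k v r))) v) r))) r))) (k (t 48 1 (u 32 0 (k (c 96 4099 r (u 64 2 (k v (k (c 8 4078 (u 16 1 (k v (k v r))) v) r)))) r))) r)))))))))))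
 (.s 0x1df2afe0023ea88a220 4078 (n false (n false (n true (n true (z 56) e) e) (n false e e)) (n true (n true (n false (n false (n false (n false e e) (n false e e)) (n false (n false e e) (n false e e))) (n false e e)) e) e)) (u 16 1 (k (u 32 1 (k v (k v r))) (k (u 32 28 (k v (k v (k v (k v (k v (k v (k v (k v r))))))))) (k (c 32 4096 r (u 48 0 (k v (k v r)))) (k (c 48 4096 r r) r)))))
 .z .z) .z)) (.s 0x1df2bfa800709555400 4088 (n false (z 128) (n false (n true (n true (z 156) e) e) (n true (n false e e) e))) (u 17 1 (k r (k (c 49 4099 r (u 33 1 (k r (k r r)))) (k (c 33 4098 r (u 49 1 (k r (k r r)))) (k (c 33 4097 r (u 49 1 (k r (k r r)))) (k (c 33 4099 r (u 49 1 (k r (k r r)))) (k (c 33 4095 r (u 49 0 (k r (k r r)))) r)))))))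
 (.s 0x1df2bfa8003ea88a220 4090 (n false (n false (n true (n true (z 156) e) e) e) (n true (n true (n false (n false (n false (n false e e) (n false e e)) (n false (n false e e) (n false e e))) (n false e e)) e) e)) (u 16 1 (k v (k (c 48 4099 r (u 32 1 (k v (k v r)))) (k (c 32 4098 r (u 48 1 (k v (k v r)))) (k (c 32 4097 r (u 48 1 (k v (k v r)))) (k (c 32 4099 r (u 48 1 (k v (k v r)))) (k (c 32 4095 r (u 48 0 (k v (k v r)))) r)))))))
 (.s 0x1df2bbe003aa2288850 4079 (n false (n false (n true (n true (z 52) e) e) (n true (n false (n false (n false (n false e e) (n false e e)) (n false (n false e e) (n false e e))) (n false e e)) e)) (n false (n false e e) e)) (u 16 167 (k v (k v (k v (k v (k v (k v (k v (k v r)))))))))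
 .z .z) (.s 0x1df2bfa800475445110 4083 (n false (n false (n true (n true (z 156) e) e) (n false e e)) (n true (n false (n false (n false (n false e e) (n false e e)) (n false (n false e e) (n false e e))) (n false e e)) e)) (u 16 1 (k v (k (c 48 4099 r (u 32 1 (k v (k v r)))) (k (c 32 4098 r (u 48 1 (k v (k v r)))) (k (c 32 4097 r (u 48 1 (k v (k v r)))) (k (c 32 4099 r (u 48 1 (k v (k v r)))) (k (c 32 4095 r (u 48 0 (k v (k v r)))) r)))))))
 .z .z)) (.s 0x1df2bfa80070e75fe00 4090 (n false (n true (z 121) e) (n false (n true (n true (z 156) e) e) (n true (n false e e) e))) (u 4 52 (k r (k r (k r (k (u 17 1 (k v (k (c 49 4099 r (u 33 1 (k v (k v r)))) (k (c 33 4098 r (u 49 1 (k v (k v r)))) (k (c 33 4097 r (u 49 1 (k v (k v r)))) (k (c 33 4099 r (u 49 1 (k v (k v r)))) (k (c 33 4095 r (u 49 0 (k v (k v r)))) r))))))) r)))))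
 (.s 0x1df2bfa80070e577c00 4085 (n false (n false (n true (n true (z 156) e) e) (n true (n false e e) e)) (n true (z 52) e)) (u 16 1 (k r (k (c 48 4099 r (u 32 1 (k r (k r r)))) (k (c 32 4098 r (u 48 1 (k r (k r r)))) (k (c 32 4097 r (u 48 1 (k r (k r r)))) (k (c 32 4099 r (u 48 1 (k r (k r r)))) (k (c 32 4095 r (u 48 0 (k r (k r r)))) r)))))))
 .z .z) .z))) (.s 0x1df2fee0023ea88a220 4081 (n false (n false (n true (n true (z 46) e) e) (n false e e)) (n true (n true (n false (n false (n false (n false e e) (n false e e)) (n false (n false e e) (n false e e))) (n false e e)) e) e)) (u 16 1 (k v (k (u 32 1 (k v (k v r))) (k (c 48 4099 r (u 32 0 (k v (k v r)))) (k (u 32 0 (k v (k v r))) (k (c 48 4097 r (u 32 1 (k v (k v r)))) (k (c 32 4095 r (u 48 1 (k v (k v r)))) r)))))))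
 (.s 0x1df2ebe0023ea88a220 4076 (n false (n false (n true (n true (z 50) e) e) (n false e e)) (n true (n true (n false (n false (n false (n false e e) (n false e e)) (n false (n false e e) (n false e e))) (n false e e)) e) e)) (u 16 1 (k v (k (c 48 4097 r (u 32 0 (k v (k v r)))) r)))
 (.s 0x1df2bff003875445110 4093 (n false (n false (n true (n true (z 124) e) e) (n true (n false e e) e)) (n true (n false (n false (n false (n false e e) (n false e e)) (n false (n false e e) (n false e e))) (n false e e)) e)) (u 16 7 (k v (k v (k (c 48 4097 r (u 32 1 (k v (k v r)))) (k (c 48 4096 r (u 32 1 (k v (k v r)))) (k (c 48 4097 r (u 32 1 (k v (k v r)))) r))))))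
 (.s 0x1df2bff0023ea88a220 4077 (n false (n false (n true (n true (z 124) e) e) (n false e e)) (n true (n true (n false (n false (n false (n false e e) (n false e e)) (n false (n false e e) (n false e e))) (n false e e)) e) e)) (u 16 2 (k v (k v (k (c 32 4099 r (u 48 0 (k v (k v r)))) (k (c 48 4096 r (u 32 1 (k v (k v r)))) (k (c 48 4097 r (u 32 1 (k v (k v r)))) (k (c 48 4099 r (u 32 1 (k v (k v r)))) r)))))))
 .z .z) (.s 0x1df2eba0023ea88a220 4084 (n false (n false (n true (n true (z 18) e) e) (n false e e)) (n true (n true (n false (n false (n false (n false e e) (n false e e)) (n false (n false e e) (n false e e))) (n false e e)) e) e)) (c 3 4097 v (u 16 0 (k (u 32 0 (k v (k v r))) r)))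
 .z .z)) (.s 0x1df2efb0023ea88a220 4081 (n false (n false (n true (n true (z 90) e) e) (n false e e)) (n true (n true (n false (n false (n false (n false e e) (n false e e)) (n false (n false e e) (n false e e))) (n false e e)) e) e)) (u 16 0 (k v (k v (k (u 32 4 (k v (k (c 96 4099 r r) (k (c 96 4099 r (c 3 4097 v r)) (k (c 96 4099 r (u 64 5 (k v (k v r)))) (k (c 3 4097 v r) (k (c 96 4096 r (c 3 4097 v r)) (k (c 64 4099 r r) r)))))))) (k (c 3 4097 v r) (k (c 48 4096 r r) (k (u 32 3 (k v (k v (k (c 96 4097 r (u 64 1 (k v (k v r)))) (k (c 96 4096 r (u 64 1 (k v (k v r)))) (k (c 96 4097 r (u 64 1 (k v (k v r)))) r)))))) r)))))))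
 (.s 0x1df2eee0022a557c010 4082 (n false (n false (n false (z 48) (n false e e)) e) (n false (n true (n true (z 42) e) e) (n false e e))) (c 2 4095 r (u 17 1 (k v (k v r))))
 .z .z) .z)) (.s 0x1df3aff003875445110 4092 (n false (n false (n true (n true (z 121) e) e) (n true (n false e e) e)) (n true (n false (n false (n false (n false e e) (n false e e)) (n false (n false e e) (n false e e))) (n false e e)) e)) (u 16 1 (k v (k (c 48 4099 r (u 32 1 (k v (k v r)))) (k (c 32 4097 r (u 48 1 (k v (k v r)))) (k (c 32 4095 r (u 48 0 (k v (k v r)))) (k (c 32 4095 r (u 48 0 (k v (k v r)))) r))))))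
 (.s 0x1df2ffe0023ea88a220 4076 (n false (n false (n true (n true (z 62) e) e) (n false e e)) (n true (n true (n false (n false (n false (n false e e) (n false e e)) (n false (n false e e) (n false e e))) (n false e e)) e) e)) (u 16 8 (k v (k v (k v (k v (k (t 48 1 (u 32 6 (k v (k v (k (t 96 1 (u 64 0 (k v (k v r)))) r))))) r))))))
 (.s 0x1df2fee003875445110 4092 (n false (n false (n true (n true (z 46) e) e) (n true (n false e e) e)) (n true (n false (n false (n false (n false e e) (n false e e)) (n false (n false e e) (n false e e))) (n false e e)) e)) (u 16 1 (k v (k (u 32 1 (k v (k v r))) (k (c 48 4099 r (u 32 0 (k v (k v r)))) (k (u 32 0 (k v (k v r))) (k (c 48 4097 r (u 32 1 (k v (k v r)))) (k (c 32 4095 r (u 48 1 (k v (k v r)))) r)))))))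
 .z .z) (.s 0x1df3aff0023ea88a220 4081 (n false (n false (n true (n true (z 121) e) e) (n false e e)) (n true (n true (n false (n false (n false (n false e e) (n false e e)) (n false (n false e e) (n false e e))) (n false e e)) e) e)) (u 16 2 (k v (k v (k (c 48 4099 r (u 32 1 (k v (k v r)))) (k (c 32 4095 r (u 48 0 (k v (k v r)))) (k (c 32 4095 r (u 48 0 (k v (k v r)))) r))))))
 .z .z)) (.s 0x1df3bbb0023ea88a220 4077 (n false (n false (n true (n true (z 85) e) e) (n false e e)) (n true (n true (n false (n false (n false (n false e e) (n false e e)) (n false (n false e e) (n false e e))) (n false e e)) e) e)) (u 16 4 (k v (k (c 48 4099 r r) (k r (k (c 48 4099 r r) (k r (k (c 48 4096 r r) (k (c 32 4099 r r) r))))))))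
 (.s 0x1df3bae0023ea88a220 4081 (n false (n false (n true (n true (z 37) e) e) (n false e e)) (n true (n true (n false (n false (n false (n false e e) (n false e e)) (n false (n false e e) (n false e e))) (n false e e)) e) e)) (u 16 0 (k v (k (u 32 0 (k (t 64 3 (t 96 1 v)) r)) (k (u 32 0 (k (t 64 3 (t 96 1 v)) r)) (k (u 32 2 (k v (k v (k v (k (t 96 1 (u 64 0 (k (t 128 3 (t 192 1 v)) r))) r))))) (k (u 32 0 (k v (k v (k (t 96 1 (u 64 0 (k (t 128 3 (t 192 1 v)) r))) r)))) (k (c 8 4088 r v) r)))))))
 .z .z) .z))))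

set_option maxRecDepth 100000 in
def N168 : NT :=
(.s 0x1df53eae004aef80088 4086 (n false (n false (n true (n true (n false (z 52) (n false (z 35) e)) e) e) (n false e e)) (n false e e)) (u 32 257 (k (u 80 2 (k v (k v (k v (k (t 208 1 (u 144 0 (k (t 272 3 (t 400 1 v)) r))) r))))) (k (c 80 4096 r v) (k (c 16 4085 r v) (k (u 80 14 (k v (k v (k (t 208 1 (u 144 0 (k (t 272 3 (t 400 1 v)) r))) r)))) (k (c 48 4101 r v) r))))))
 (.s 0x1df4afea004aef80088 4086 (n false (n false (n true (n true (n false (z 52) (z 156)) e) e) (n false e e)) (n false e e)) (u 48 8 (k r (k (c 16 4064 r v) (k (c 112 4099 r (u 80 1 (k r (k r r)))) (k (c 80 4098 r (u 112 1 (k r (k r r)))) (k (c 80 4097 r (u 112 1 (k r (k r r)))) (k (c 80 4099 r (u 112 1 (k r (k r r)))) r)))))))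
 (.s 0x1df3fbe0023ea88a220 4079 (n false (n false (n true (n true (z 55) e) e) (n false e e)) (n true (n true (n false (n false (n false (n false e e) (n false e e)) (n false (n false e e) (n false e e))) (n false e e)) e) e)) (u 16 4 (k (t 48 1 (u 32 32 (k v (k r (k r (k (c 96 4099 r (t 64 3 v)) (k (u 64 4 (k v (k (t 192 1 (u 128 4 (k v (k v r)))) r))) (k (c 3 4097 v r) r)))))))) (k (t 48 2 r) r)))
 (.s 0x1df3fbb0022a557c010 4080 (n false (n false (n true (n true (z 87) e) e) (n false e e)) (n false (n false (z 48) (n false e e)) e)) (u 16 1 (k r (k (u 9 16 (k v (k v (k (c 8 4093 v r) r)))) r)))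
 (.s 0x1df3efb0023ea88a220 4076 (n false (n false (n true (n true (z 91) e) e) (n false e e)) (n true (n true (n false (n false (n false (n false e e) (n false e e)) (n false (n false e e) (n false e e))) (n false e e)) e) e)) (u 16 1 (k v (k v (k v (k (u 32 0 (k v (k v r))) (k (c 32 4097 r (u 48 0 (k v (k v r)))) (k (c 32 4095 r (u 48 0 (k v (k v r)))) r)))))))
 .z .z) (.s 0x1df3fbb003874bfa800 4084 (n false (n true (n false (z 14) e) e) (n false (n true (n true (z 87) e) e) (n true (n false e e) e))) (u 17 1 (k (u 8 0 (k v (k v r))) (k (u 8 0 (k v (k v r))) r)))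
 .z .z)) (.s 0x1df4aab80070e577c00 4085 (n false (n false (n true (n true (n false (z 32) e) e) e) (n true (n false e e) e)) (n true (z 52) e)) (u 5 103 (k (u 32 0 (k (t 64 3 (t 96 1 v)) r)) (k (u 32 0 (k (t 64 3 (t 96 1 v)) r)) (k (c 8 4094 (c 4 4096 r v) v) (k (c 8 4094 (c 4 4096 r v) v) (k (t 13 1 (u 9 0 (k (u 32 0 (k (t 64 3 (t 96 1 v)) r)) (k (u 32 0 (k (t 64 3 (t 96 1 v)) r)) r)))) r))))))
 (.s 0x1df3fbf0023ea88a220 4082 (n false (n false (n true (n true (z 119) e) e) (n false e e)) (n true (n true (n false (n false (n false (n false e e) (n false e e)) (n false (n false e e) (n false e e))) (n false e e)) e) e)) (u 16 12 (k v (k v (k (c 48 4101 r r) (k (c 48 4099 r r) (k (c 48 4096 r (u 32 0 (k (u 64 0 (k v (k v r))) r))) (k (c 32 4101 r r) (k (c 32 4099 r r) (k (c 32 4101 r r) r)))))))))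
 .z .z) .z)) (.s 0x1df4bfa80070e5fdc00 4084 (n false (n false (n true (n true (n false (z 14) e) e) e) (n true (n false e e) e)) (n true (z 46) e)) (u 5 3 (k r (k (u 32 0 (k v (k v r))) (k (u 9 0 (k (u 32 0 (k v (k v r))) (k (u 32 0 (k v (k v r))) r))) (k (c 13 4097 r r) (k (c 9 4095 r r) r))))))
 (.s 0x1df4bfa80070e55fc00 4082 (n false (n false (n true (n true (n false (z 14) e) e) e) (n true (n false e e) e)) (n true (z 56) e)) (u 5 0 (k (u 32 0 (k (u 9 333 (k v (k v (k v (k v (k v r)))))) (k (u 9 333 (k v (k v (k v (k v (k v r)))))) r))) (k (c 9 4096 r (u 13 0 (k (u 32 0 (k v (k v r))) (k (u 32 0 (k v (k v r))) r)))) (k r (k (c 13 4096 r r) r)))))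
 (.s 0x1df4afea004faf80088 4088 (n false (n false (n true (n true (n false (z 156) (z 51)) e) e) (n false e e)) (n false e e)) (t 48 3 (u 32 37 (k v (k v (k v (k (c 96 4099 r (u 64 1 (k v (k v r)))) (k (c 64 4099 r (u 96 1 (k v (k v r)))) r)))))))
 .z .z) (.s 0x1df4bfa80070e5fd400 4082 (n false (n false (n true (n true (n false (z 14) e) e) e) (n true (n false e e) e)) (n true (z 14) e)) (u 5 0 (k (u 32 0 (k v (k v r))) (k (u 32 0 (k v (k v r))) r)))
 .z .z)) (.s 0x1df4fab80070e577c00 4085 (n false (n false (n true (n true (n false (z 35) e) e) e) (n true (n false e e) e)) (n true (z 52) e)) (u 5 103 (k r (k r (k (c 8 4094 (c 4 4096 r v) v) (k (c 8 4094 (c 4 4096 r v) v) (k (t 13 1 (u 32 10 (k (u 9 0 (k v (k v r))) (k (u 9 0 (k v (k v r))) (k (c 6 4094 v (u 9 0 (k v (k v r)))) (k (t 96 1 (u 64 0 (k (t 128 3 (t 192 1 (u 9 0 (k v (k v r))))) r))) r)))))) r))))))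
 (.s 0x1df4bfa80070e7f7600 4084 (n false (n false (n true (n true (n false (z 14) e) e) e) (n true (n false e e) e)) (n true (z 87) e)) (u 5 1 (k (u 32 0 (k v (k v r))) (k (u 32 0 (k v (k v r))) r)))
 .z .z) .z))) (.s 0x1df544511070e7d5600 4093 (n false (n false (n true (n true (n false (n false (n false (n false e e) (n false e e)) (n false (n false e e) (n false e e))) (n false e e)) e) e) (n true (n false e e) e)) (n true (z 67) e)) (u 5 127 (k v (k v (k v (k v (k (t 13 1 (u 9 1 (k v (k v r)))) (k (c 9 4101 r (u 13 0 (k v (k v r)))) (k r (k (c 3 4088 r v) (k (c 3 4091 (t 6 2 (u 4 0 (k r r))) v) (k (c 13 4101 r (u 9 1 (k v (k v r)))) (k (t 13 1 (u 9 9 (k v (k v (k v (k (c 25 4099 r (u 17 1 (k v (k v r)))) r)))))) (k (c 13 4102 r (u 9 1 (k v (k v r)))) (k (c 9 4101 r (u 13 1 (k v (k v r)))) (k r (k (c 9 4101 r (u 13 1 (k v (k v r)))) r))))))))))))))))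
 (.s 0x1df5445110472bfa800 4083 (n false (n true (z 156) e) (n false (n true (n true (n false (n false (n false (n false e e) (n false e e)) (n false (n false e e) (n false e e))) (n false e e)) e) e) (n false e e))) (u 4 1 (k v (k (c 12 4099 r (u 8 1 (k v (k v r)))) (k (c 8 4098 r (u 12 1 (k v (k v r)))) (k (c 8 4097 r (u 12 1 (k v (k v r)))) (k (c 8 4099 r (u 12 1 (k v (k v r)))) (k (c 8 4095 r (u 12 0 (k v (k v r)))) r)))))))
 (.s 0x1df544511045cbfa800 4075 (n false (n false (n true (z 14) e) e) (n false (n true (n true (n false (n false (n false (n false e e) (n false e e)) (n false (n false e e) (n false e e))) (n false e e)) e) e) (n false e e))) (c 17 4099 v (u 8 0 (k v (k v r))))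
 (.s 0x1df5445110452eef008 4087 (n false (n false (z 106) (n false e e)) (n false (n true (n true (n false (n false (n false (n false e e) (n false e e)) (n false (n false e e) (n false e e))) (n false e e)) e) e) (n false e e))) (u 4 14 (k v (k v (k r (k (t 12 3 (c 2 4089 (u 4 0 (k (c 10 4099 v r) r)) v)) (k (c 12 4096 r r) (k (c 12 4110 r r) (k (c 12 4099 r (c 3 4095 v r)) (k (c 8 4097 r r) (k (c 8 4101 r r) (k (c 12 4099 r (c 3 4095 v r)) (k (c 8 4101 r r) r))))))))))))
 .z .z) (.s 0x1df544511045cfeec00 4075 (n false (n false (n true (z 87) e) e) (n false (n true (n true (n false (n false (n false (n false e e) (n false e e)) (n false (n false e e) (n false e e))) (n false e e)) e) e) (n false e e))) (c 17 4099 v (u 8 1 (k v (k v r))))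
 .z .z)) (.s 0x1df544511070e57fe00 4089 (n false (n true (z 124) e) (n false (n true (n true (n false (n false (n false (n false e e) (n false e e)) (n false (n false e e) (n false e e))) (n false e e)) e) e) (n true (n false e e) e))) (u 4 1 (k v (k (c 12 4097 r (u 8 1 (k v (k v r)))) (k (c 12 4096 r (u 8 1 (k v (k v r)))) (k (c 8 4098 r (u 12 0 (k v (k v r)))) (k (c 12 4096 r (u 8 1 (k v (k v r)))) (k (c 12 4097 r (u 8 1 (k v (k v r)))) (k (c 12 4097 r (u 8 1 (k v (k v r)))) (k (c 12 4096 r (u 8 1 (k v (k v r)))) (k (c 12 4099 r (u 8 1 (k v (k v r)))) (k (c 8 4097 r (u 12 1 (k v (k v r)))) r)))))))))))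
 (.s 0x1df544511047caef800 4078 (n false (n true (n true (z 52) e) e) (n false (n true (n true (n false (n false (n false (n false e e) (n false e e)) (n false (n false e e) (n false e e))) (n false e e)) e) e) (n false e e))) (u 8 61 (k v (k v (k v (k v (k v (k v (k v (k (t 24 1 (u 16 0 (k v (k v r)))) r)))))))))
 .z .z) .z)) (.s 0x1df572fee004208ee10 4062 (n false (n false (n true (n true (n false (n false (n false (n true (z 46) e) (n false e e)) e) (n false e e)) e) e) (n false e e)) (n true (n false (n true (n false e e) e) (n false e e)) e)) (u 256 17 (k v (k v (k (u 512 1 (k v (k v r))) (k (u 512 26 (k v (k v r))) (k (c 768 4097 r (u 512 1 (k v (k v r)))) (k (c 512 4095 r (u 768 1 (k v (k v r)))) r)))))))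
 (.s 0x1df572bbe00420fb840 4061 (n false (n false (n true (n true (n false (n false (n false (n true (z 52) e) (n false e e)) e) (n false e e)) e) e) (n true (n true (n false (n true (n false e e) e) (n false e e)) e) e)) e) (u 256 302 (k v (k v (k v (k v (k v (k v (k v r))))))))
 (.s 0x1df572bbe004208ee10 4060 (n false (n false (n true (n true (n false (n false (n false (n true (z 52) e) (n false e e)) e) (n false e e)) e) e) (n false e e)) (n true (n false (n true (n false e e) e) (n false e e)) e)) (u 256 302 (k v (k v (k v (k v (k v (k v (k v r))))))))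
 .z .z) (.s 0x1df572ebe004208ee10 4062 (n false (n false (n true (n true (n false (n false (n false (n true (z 50) e) (n false e e)) e) (n false e e)) e) e) (n false e e)) (n true (n false (n true (n false e e) e) (n false e e)) e)) (u 256 2 (k v (k (c 768 4097 r (u 512 0 (k v (k v r)))) r)))
 .z .z)) (.s 0x1df573aff004208ee10 4062 (n false (n false (n true (n true (n false (n false (n false (n true (z 121) e) (n false e e)) e) (n false e e)) e) e) (n false e e)) (n true (n false (n true (n false e e) e) (n false e e)) e)) (u 256 2 (k v (k v (k (c 768 4099 r (u 512 1 (k v (k v r)))) (k (c 512 4095 r (u 768 0 (k v (k v r)))) (k (c 512 4095 r (u 768 0 (k v (k v r)))) r))))))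
 (.s 0x1df572fee00420fb840 4063 (n false (n false (n true (n true (n false (n false (n false (n true (z 46) e) (n false e e)) e) (n false e e)) e) e) (n true (n true (n false (n true (n false e e) e) (n false e e)) e) e)) e) (u 256 3 (k v (k v (k (u 512 26 (k v (k v r))) (k (c 768 4097 r (u 512 1 (k v (k v r)))) (k (c 512 4095 r (u 768 1 (k v (k v r)))) r))))))
 .z .z) .z))))

set_option maxRecDepth 100000 in
def N169 : NT :=
(.s 0x1f4afa802575c00ee10 4075 (n false (n true (n false (z 36) (z 12)) e) (n true (n false (n true (n false e e) e) (n false e e)) e)) (t 12 2 (u 8 0 (k (u 16 2 (k v (k (u 32 1 (k v (k v r))) r))) r)))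
 (.s 0x1dfcaef800475445110 4082 (n false (n false (n true (n true (n true (z 52) e) e) e) (n false e e)) (n true (n false (n false (n false (n false e e) (n false e e)) (n false (n false e e) (n false e e))) (n false e e)) e)) (u 32 89 (k v (k v (k v (k v (k v (k v (k v r))))))))
 (.s 0x1df573fbf00420fb840 4065 (n false (n false (n true (n true (n false (n false (n false (n true (z 119) e) (n false e e)) e) (n false e e)) e) e) (n true (n true (n false (n true (n false e e) e) (n false e e)) e) e)) e) (u 256 10 (k v (k (c 768 4101 r r) (k (c 512 4101 r r) (k (c 512 4101 r r) r)))))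
 (.s 0x1df573fbe00420fb840 4061 (n false (n false (n true (n true (n false (n false (n false (n true (z 55) e) (n false e e)) e) (n false e e)) e) e) (n true (n true (n false (n true (n false e e) e) (n false e e)) e) e)) e) (u 256 2 (k v (k (c 128 4091 (t 6 2 r) v) r)))
 (.s 0x1df573fbe004208ee10 4060 (n false (n false (n true (n true (n false (n false (n false (n true (z 55) e) (n false e e)) e) (n false e e)) e) e) (n false e e)) (n true (n false (n true (n false e e) e) (n false e e)) e)) (u 256 2 (k v (k (c 128 4091 (t 6 2 r) v) r)))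
 .z .z) (.s 0x1df573fbf004208ee10 4064 (n false (n false (n true (n true (n false (n false (n false (n true (z 119) e) (n false e e)) e) (n false e e)) e) e) (n false e e)) (n true (n false (n true (n false e e) e) (n false e e)) e)) (u 256 33 (k v (k v (k (c 768 4101 r r) (k (c 768 4099 r r) (k (c 768 4096 r (u 512 0 (k (u 1024 126 (k v (k v (k v r)))) r))) (k (c 512 4101 r r) (k (c 512 4099 r r) (k (c 512 4101 r r) r)))))))))
 .z .z)) (.s 0x1df73eae004aef80088 4088 (n false (n false (n true (n true (n false (z 52) (n true (z 35) e)) e) e) (n false e e)) (n false e e)) (u 80 2 (k r (k r (k (c 16 4078 r v) (k (t 208 1 (u 32 323 (k (u 144 0 (k (t 272 3 (t 400 1 v)) r)) (k (c 80 4096 (c 2 4098 r v) v) (k (c 16 4085 (u 9 0 (k (t 17 3 (t 25 1 v)) r)) v) (k (u 144 0 (k (t 272 3 (t 400 1 v)) r)) r)))))) r)))))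
 (.s 0x1df574aef80210823a0 4059 (n false (n false (n true (n true (n false (n false (n false (n true (n false (z 52) (n false e e)) e) (n false e e)) e) (n false e e)) e) e) (n false e e)) (n true (n false (n false e e) e) e)) (u 512 6 (k v (k v (k (t 1536 1 (u 1024 0 (k v (k v r)))) r))))
 .z .z) .z)) (.s 0x1dff4aaf80255540010 4077 (n false (n false (n true (n true (n true (n true (n false (z 48) (z 0)) e) e) e) e) (n false e e)) e) (t 192 1 (u 128 41 (k v (k (u 256 0 (k r (k r (k (t 768 2 (u 512 0 (k (c 1536 4096 r r) (k (c 1536 4096 r r) (k (c 1536 4096 r r) (k (c 1536 4096 r r) (k (c 1536 4096 r r) r))))))) (k r r))))) (k (c 384 4099 r (t 256 3 v)) (k (u 256 4 (k v (k (t 768 1 (u 512 4 (k v (k v r)))) r))) (k (u 256 4 (k v (k (t 768 1 (u 512 2 (k v (k v r)))) r))) (k (c 16 4080 (u 16 0 (k r (k r r))) v) r))))))))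
 (.s 0x1dfcfeec0054fbbc020 4086 (n false (n false (n false (n false (z 107) (n false e e)) e) (n true (n true (n true (z 87) e) e) e)) e) (u 16 8 (k r (k (c 48 4099 r (u 32 13 (k (u 34 6 (k v (k v (k v r)))) (k r (k (u 34 1 (k v (k v r))) (k (c 96 4099 r (u 34 1 (k (u 64 1 (k v (k v r))) (k (u 64 1 (k v (k v r))) r)))) r)))))) r)))
 (.s 0x1dfcfaac0054fbbc020 4090 (n false (n false (n false (n false (z 107) (n false e e)) e) (n true (n true (n true (z 67) e) e) e)) e) (u 34 23 (k r (k (c 4 4089 r v) r)))
 .z .z) (.s 0x1dfd5114440895fd400 4084 (n false (z 156) (n false (n true (n true (n true (n false (n false (n false (n false e e) (n false e e)) (n false (n false e e) (n false e e))) (n false e e)) e) e) e) (n false e e))) (u 2 1 (k v (k (c 6 4099 r (u 4 1 (k v (k v r)))) (k (c 4 4098 r (u 6 1 (k v (k v r)))) (k (c 4 4097 r (u 6 1 (k v (k v r)))) (k (c 4 4099 r (u 6 1 (k v (k v r)))) (k (c 4 4095 r (u 6 0 (k v (k v r)))) r)))))))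
 .z .z)) (.s 0x1f4aef803b8412bbe00 4086 (n false (n true (n false (z 52) (n true (n false (n true (n false e e) e) (n false e e)) e)) e) (z 52)) (u 3 254 (k r (k r (k (c 8 4097 r v) (k (t 7 1 (u 8 275 (k (u 5 2 (k v (k v r))) (k (c 4 4075 v (c 3 4097 (t 2 1 v) v)) (k (c 20 4092 v (t 5 1 v)) (k (c 20 4092 v (c 2 4088 v (t 5 1 v))) (k (t 24 1 (u 5 2 (k (u 16 0 (k v (k v r))) (k (u 16 2 (k v (k v r))) r)))) r))))))) r)))))
 (.s 0x1f4aaac02555400ee10 4075 (n false (n true (n false (z 64) (z 0)) e) (n true (n false (n true (n false e e) e) (n false e e)) e)) (t 12 1 (u 8 0 (k (c 24 4099 r (u 16 2 (k v (k (u 32 1 (k v (k v r))) r)))) r)))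
 .z .z) .z))) (.s 0x1f4eea80275f600ae10 4085 (n false (n true (n false (z 89) (z 5)) e) (n false (n false (n true (n false e e) e) (n false e e)) e)) (t 12 1 (u 8 28 (k v (k v (k v (k (t 24 3 (u 16 136 (k v (k v (k v (k v r)))))) (k (c 24 4099 r r) (k (c 16 4099 r r) r))))))))
 (.s 0x1f4afea004feec01f40 4085 (n false (n true (n false (z 156) (z 87)) e) (n true (n true (n false (n false e e) e) e) e)) (u 8 8 (k (u 12 1 (k v (k v r))) (k (c 4 4066 (u 3 1 (k v (k v r))) v) (k (c 24 4099 r r) (k (c 16 4098 r r) (k (c 16 4097 r r) (k (c 16 4099 r r) r)))))))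
 (.s 0x1f4afea004faf801708 4086 (n false (n true (n false (z 156) (z 51)) e) (n false (n true (n false e e) e) (n false e e))) (t 12 3 (u 8 8 (k v (k v (k (c 24 4099 r (u 16 1 (k v (k v r)))) (k (c 16 4098 r (u 24 1 (k v (k v r)))) (k (c 16 4097 r (u 24 1 (k v (k v r)))) (k (c 16 4099 r (u 24 1 (k v (k v r)))) r))))))))
 (.s 0x1f4afea004aef801708 4085 (n false (n true (n false (z 156) (z 52)) e) (n false (n true (n false e e) e) (n false e e))) (u 8 8 (k r (k (c 4 4064 r v) (k (c 24 4099 r (u 16 1 (k r (k r r)))) (k (c 16 4098 r (u 24 1 (k r (k r r)))) (k (c 16 4097 r (u 24 1 (k r (k r r)))) (k (c 16 4099 r (u 24 1 (k r (k r r)))) r)))))))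
 .z .z) (.s 0x1f4afea004feec01708 4084 (n false (n true (n false (z 156) (z 87)) e) (n false (n true (n false e e) e) (n false e e))) (u 8 8 (k (u 12 1 (k v (k v r))) (k (c 4 4066 (u 3 1 (k v (k v r))) v) (k (c 24 4099 r r) (k (c 16 4098 r r) (k (c 16 4097 r r) (k (c 16 4099 r r) r)))))))
 .z .z)) (.s 0x1f4eea8025fdc00be80 4085 (n false (n true (n false (z 46) (z 5)) e) (n false (n true (n true (n false (n false e e) e) e) e) e)) (t 12 1 (u 8 2 (k v (k (c 24 4099 r (u 16 0 (k v (k v r)))) (k r (k (c 2 4088 (c 10 4101 v r) v) (k (c 24 4097 r r) (k (c 16 4095 r r) r))))))))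
 (.s 0x1f4eea8025fdc00ba80 4087 (n false (n true (n false (z 46) (z 5)) e) (n false (n true (n false (n false (n false e e) e) e) e) e)) (t 12 1 (u 8 10 (k v (k (c 24 4099 r (u 16 0 (k v (k v r)))) (k (c 2 4088 (c 10 4101 v r) v) r)))))
 .z .z) .z)) (.s 0x1f53eae004aef801708 4085 (n false (n true (n false (z 52) (n false (z 35) e)) e) (n false (n true (n false e e) e) (n false e e))) (u 8 211 (k r (k (c 20 4096 r v) (k (c 20 4096 r v) (k (c 4 4085 r v) (k (t 24 1 (u 20 0 (k (u 16 0 (k v (k v r))) (k (c 8 4097 (t 2 1 v) v) (k (t 52 1 (u 16 0 (k (u 36 0 (k (t 68 3 (t 100 1 v)) r)) (k (u 36 0 (k (t 68 3 (t 100 1 v)) r)) r)))) r))))) r))))))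
 (.s 0x1f52bbe0083ea88a220 4090 (n false (n true (n false (n false (z 52) (n false e e)) e) e) (n true (n true (n false (n false (n false (n false e e) (n false e e)) (n false (n false e e) (n false e e))) (n false e e)) e) e)) (u 16 284 (k v (k v (k v (k (t 48 1 (u 32 0 (k v (k v r)))) r)))))
 (.s 0x1f52bae0095550043a0 4078 (n false (n true (n false (n false (z 36) (z 0)) (n false e e)) e) (n true (n false (n false e e) e) e)) (t 24 1 (u 16 0 (k (u 32 2 (k v (k (c 16 4084 (u 4 1 (k v (k v r))) v) r))) r)))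
 .z .z) (.s 0x1f52bfa800875445110 4084 (n false (n true (n false (n false (z 156) e) (n false e e)) e) (n true (n false (n false (n false (n false e e) (n false e e)) (n false (n false e e) (n false e e))) (n false e e)) e)) (u 16 1 (k v (k (c 48 4099 r (u 32 1 (k v (k v r)))) (k (c 32 4098 r (u 48 1 (k v (k v r)))) (k (c 32 4097 r (u 48 1 (k v (k v r)))) (k (c 32 4099 r (u 48 1 (k v (k v r)))) (k (c 32 4095 r (u 48 0 (k v (k v r)))) r)))))))
 .z .z)) (.s 0x1f54fab800875445110 4084 (n false (n true (n false (n false (n false (z 35) e) e) (n false e e)) e) (n true (n false (n false (n false (n false e e) (n false e e)) (n false (n false e e) (n false e e))) (n false e e)) e)) (u 32 2 (k v (k v (k v (k (t 96 1 (u 64 0 (k (t 128 3 (t 192 1 v)) r))) r)))))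
 (.s 0x1f54aab800e0e7d5600 4091 (n false (n true (n false (n false (n false (z 32) e) e) (n true (n false e e) e)) e) (n true (z 67) e)) (c 4 4085 (c 3 4094 v (u 8 0 (k (t 16 3 (t 24 1 v)) r))) (c 3 4102 (t 2 2 v) v))
 .z .z) .z))))

set_option maxRecDepth 100000 in
def N170 : NT :=
(.s 0x1f72eee004feec01708 4083 (n false (n true (n false (z 87) (n true (z 42) e)) e) (n false (n true (n false e e) e) (n false e e))) (u 20 1 (k (u 8 1 (k v (k v r))) (k (u 8 1 (k v (k v r))) r)))
 (.s 0x1f5d5114442213bbb00 4092 (n false (z 85) (n true (n false (n false (n true (n false (n false (n false (n false e e) (n false e e)) (n false (n false e e) (n false e e))) (n false e e)) e) (n false e e)) (n false e e)) e)) (u 2 11 (k v (k (u 4 0 (k v (k v (k v (k (t 12 2 (u 8 41 (k v (k v (k (t 24 1 (u 16 0 (k v (k v r)))) r))))) r))))) (k (c 6 4099 r r) (k (c 6 4099 r (c 3 4093 v r)) (k (c 6 4099 r r) (k (c 6 4101 r r) (k (c 4 4099 r r) r))))))))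
 (.s 0x1f5cbff801c0e7f7600 4083 (n false (n true (n false (n false (n true (z 62) e) (n true (n false e e) e)) e) e) (n true (z 87) e)) (c 24 4094 v (u 32 5 (k (u 5 1 (k v (k v r))) (k (u 5 1 (k v (k v r))) r))))
 (.s 0x1f55114444bfb801708 4090 (n false (n true (n false (z 46) (n false (n false (n false (n false e e) (n false e e)) (n false (n false e e) (n false e e))) (n false e e))) e) (n false (n true (n false e e) e) (n false e e))) (u 8 2 (k v (k (c 24 4099 r (u 16 0 (k v (k v r)))) (k r (k (c 2 4088 (c 10 4101 v r) v) (k (c 24 4097 r r) (k (c 16 4095 r r) r)))))))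
 (.s 0x1f55114444baf801708 4088 (n false (n true (n false (z 50) (n false (n false (n false (n false e e) (n false e e)) (n false (n false e e) (n false e e))) (n false e e))) e) (n false (n true (n false e e) e) (n false e e))) (u 8 1 (k v (k (c 24 4097 r (u 16 0 (k v (k v r)))) r)))
 .z .z) (.s 0x1f55114447074feec00 4092 (n false (n true (n false (z 87) e) e) (n true (n false (n false (n false (n false (n false e e) (n false e e)) (n false (n false e e) (n false e e))) (n false e e)) (n true (n false e e) e)) e)) (c 13 4094 v (u 8 1 (k v (k v r))))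
 .z .z)) (.s 0x1f5d5114442212abb00 4090 (n false (n true (n false (n false (n true (n false (n false (n false (n false e e) (n false e e)) (n false (n false e e) (n false e e))) (n false e e)) e) (n false e e)) (n false e e)) e) (z 80)) (u 3 0 (k (u 5 0 (k (c 13 4099 r (u 9 0 (k v (k r (k (c 25 4099 r (u 17 0 (k (u 33 0 (k v (k v r))) r))) (k (c 2 4093 v r) (k (c 2 4093 v r) (k (c 2 4093 v (u 17 0 (k (u 33 0 (k v (k v r))) r))) (k r (k r r)))))))))) r)) r))
 (.s 0x1f5cfef801c0e7f7600 4083 (n false (n true (n false (n false (n true (z 55) e) (n true (n false e e) e)) e) e) (n true (z 87) e)) (c 24 4094 v (u 5 1 (k r (k r r))))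
 .z .z) .z)) (.s 0x1f72bfa8003ea88a220 4095 (n false (n true (n false (n true (z 156) e) e) e) (n true (n true (n false (n false (n false (n false e e) (n false e e)) (n false (n false e e) (n false e e))) (n false e e)) e) e)) (u 16 8 (k v (k v (k (c 48 4099 r (u 32 1 (k v (k v r)))) (k (c 32 4098 r (u 48 1 (k v (k v r)))) (k (c 32 4097 r (u 48 1 (k v (k v r)))) (k (c 32 4099 r (u 48 1 (k v (k v r)))) r)))))))
 (.s 0x1f72aaa800875445110 4081 (n false (n true (n false (n true (z 128) e) (n false e e)) e) (n true (n false (n false (n false (n false e e) (n false e e)) (n false (n false e e) (n false e e))) (n false e e)) e)) (u 16 4 (k v (k (c 48 4097 r r) (k (c 32 4095 r r) (k (c 32 4098 r (c 2 4079 (u 24 0 (k (u 40 0 (k v (k v r))) r)) v)) (k (c 48 4099 r r) (k (c 32 4096 r r) (k (c 32 4095 r (u 48 1 (k v (k (c 112 4097 r (u 80 0 (k v (k v r)))) r)))) (k (c 32 4095 r r) (k (c 32 4095 r (u 48 0 (k v (k v r)))) (k (c 48 4095 r (u 32 4 (k v (k (c 96 4099 r r) (k r (k (c 96 4099 r r) (k r (k (c 96 4096 r r) (k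 (c 64 4099 r r) r))))))))) (k (c 48 4095 r (u 32 1 (k v (k v r)))) (k (c 32 4097 r (u 48 0 (k v (k v r)))) (k (c 32 4095 r r) (k (c 32 4095 r (u 48 1 (k v (k v r)))) (k (c 32 4097 r r) r))))))))))))))))
 (.s 0x1f5d5114442213fbf00 4092 (n false (z 119) (n true (n false (n false (n true (n false (n false (n false (n false e e) (n false e e)) (n false (n false e e) (n false e e))) (n false e e)) e) (n false e e)) (n false e e)) e)) (u 2 34 (k v (k (u 6 13 (k r (k (c 2 4095 (c 2 4097 r v) v) r))) (k (c 6 4099 r r) (k (c 6 4099 r r) (k (c 6 4097 r r) (k (c 3 4093 v (t 6 2 (u 4 0 (k r r)))) (k (c 4 4098 r r) (k (c 4 4101 r r) (k r (k (c 4 4099 r r) (k (c 4 4101 r r) (k r r)))))))))))))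
 .z .z) (.s 0x1f72afe0055114443a0 4084 (n false (n true (n false (n true (z 56) e) (n false (n false (n false (n false e e) (n false e e)) (n false (n false e e) (n false e e))) (n false e e))) e) (n true (n false (n false e e) e) e)) (c 20 4101 v (u 16 0 (k (u 32 253 (k v (k v (k v (k (t 96 1 (u 64 7 (k v (k v r)))) r))))) (k (c 32 4096 r (u 48 0 (k v (k v r)))) (k (u 32 1 (k v (k v r))) (k (c 48 4096 r (u 32 253 (k v (k v (k v (k (t 96 1 (u 64 7 (k v (k v r)))) r)))))) r))))))
 .z .z)) (.s 0x1f72eee004bfa801f40 4086 (n false (n true (n false (n true (z 42) e) (z 14)) e) (n true (n true (n false (n false e e) e) e) e)) (u 16 1 (k (u 12 0 (k v (k v r))) (k (u 12 0 (k v (k v r))) r)))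
 (.s 0x1f72bfa800875445110 4084 (n false (n true (n false (n true (z 156) e) (n false e e)) e) (n true (n false (n false (n false (n false e e) (n false e e)) (n false (n false e e) (n false e e))) (n false e e)) e)) (u 16 1 (k v (k (c 48 4099 r (u 32 1 (k v (k v r)))) (k (c 32 4098 r (u 48 1 (k v (k v r)))) (k (c 32 4097 r (u 48 1 (k v (k v r)))) (k (c 32 4099 r (u 48 1 (k v (k v r)))) (k (c 32 4095 r (u 48 0 (k v (k v r)))) r)))))))
 .z .z) .z))) (.s 0x1f73fbb00510e7d5600 4085 (n false (n true (n false (n true (z 87) e) (n false (n false e e) (n false e e))) e) (n true (z 67) e)) (u 5 23 (k (u 16 1 (k v (k v r))) (k (c 4 4082 (u 4 1 (k v (k v r))) v) r)))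
 (.s 0x1f73eae004aef801708 4087 (n false (n true (n false (z 52) (n true (z 35) e)) e) (n false (n true (n false e e) e) (n false e e))) (u 20 10 (k r (k r (k (c 12 4094 v r) (k (t 52 1 (u 8 210 (k (u 36 0 (k (t 68 3 (t 100 1 v)) r)) (k (c 20 4096 (c 2 4098 r v) v) (k (c 36 4098 r v) (k (u 36 0 (k (t 68 3 (t 100 1 v)) r)) (k (c 12 4101 (u 4 0 (k (t 8 3 (t 12 1 v)) r)) v) r))))))) r)))))
 (.s 0x1f73eab004feec01708 4085 (n false (n true (n false (n true (z 67) e) (z 87)) e) (n false (n true (n false e e) e) (n false e e))) (u 16 0 (k (u 12 1 (k v (k v r))) (k (u 12 1 (k v (k v r))) r)))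
 (.s 0x1f72eee004feec01f40 4084 (n false (n true (n false (z 87) (n true (z 42) e)) e) (n true (n true (n false (n false e e) e) e) e)) (u 20 1 (k (u 8 1 (k v (k v r))) (k (u 8 1 (k v (k v r))) r)))
 .z .z) (.s 0x1f73eab004feec01f40 4086 (n false (n true (n false (n true (z 67) e) (z 87)) e) (n true (n true (n false (n false e e) e) e) e)) (u 16 0 (k (u 12 1 (k v (k v r))) (k (u 12 1 (k v (k v r))) r)))
 .z .z)) (.s 0x1f73fbb004feec01f40 4082 (n false (n true (n false (n true (z 87) e) (z 87)) e) (n true (n true (n false (n false e e) e) e) e)) (u 16 1 (k (u 12 1 (k v (k v r))) (k (u 12 1 (k v (k v r))) r)))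
 (.s 0x1f73fbb004feec01708 4081 (n false (n true (n false (n true (z 87) e) (z 87)) e) (n false (n true (n false e e) e) (n false e e))) (u 16 1 (k (u 12 1 (k v (k v r))) (k (u 12 1 (k v (k v r))) r)))
 .z .z) .z)) (.s 0x1f75445110a0a7f7e00 4088 (n false (n true (n false (n true (n false (n false (n false (n false e e) (n false e e)) (n false (n false e e) (n false e e))) (n false e e)) e) (n false (n false e e) e)) e) (n false (z 119) e)) (u 5 17 (k v (k (c 9 4097 r r) (k (c 9 4097 r r) (k (c 13 4096 r (u 9 0 (k (u 17 0 (k v (k v r))) r))) (k (c 13 4097 r r) (k (c 13 4097 r r) (k (c 13 4097 r r) (k (c 13 4097 r r) (k (c 13 4097 r r) r))))))))))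
 (.s 0x1f74aab8002aa228888 4089 (n false (n true (n false (n true (n false (z 32) e) e) e) e) (n false (n false (n false (n false (n false e e) (n false e e)) (n false (n false e e) (n false e e))) (n false e e)) (n false e e))) (c 9 4101 v (u 32 0 (k (t 64 3 (t 96 1 v)) r)))
 (.s 0x1f73fea0055114443a0 4086 (n false (n true (n false (n true (z 15) e) (n false (n false (n false (n false e e) (n false e e)) (n false (n false e e) (n false e e))) (n false e e))) e) (n true (n false (n false e e) e) e)) (c 20 4101 v (u 16 0 (k v (k (c 2 4066 (u 16 0 (k (u 32 0 (k v (k v r))) r)) v) r))))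
 .z .z) (.s 0x1f75445110a0a55fe00 4088 (n false (n true (n false (n true (n false (n false (n false (n false e e) (n false e e)) (n false (n false e e) (n false e e))) (n false e e)) e) (n false (n false e e) e)) e) (n false (z 120) e)) (u 5 6 (k v (k v (k (t 13 2 r) (k (c 13 4099 r r) (k (c 9 4095 r r) (k (t 13 1 r) (k (c 13 4096 r (c 2 4094 v r)) (k (c 13 4096 r (u 9 0 (k (u 17 0 (k v (k v r))) r))) (k (c 9 4099 r r) (k (c 13 4100 r r) (k (c 13 4097 r r) (k (c 13 4099 r r) (k (t 9 1 r) (k (c 13 4097 r r) r)))))))))))))))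
 .z .z)) (.s 0x1f75445110a75fe0050 4084 (n false (n true (n false (n false (z 121) e) (n true (n false (n false (n false (n false e e) (n false e e)) (n false (n false e e) (n false e e))) (n false e e)) e)) e) (n false (n false e e) e)) (c 20 4099 v (u 16 3 (k v (k v (k (c 48 4099 r (u 32 1 (k v (k v r)))) (k (c 32 4097 r (u 48 1 (k v (k v r)))) r))))))
 (.s 0x1f75445110a0e7f7e00 4090 (n false (n true (n false (n true (n false (n false (n false (n false e e) (n false e e)) (n false (n false e e) (n false e e))) (n false e e)) e) (n false (n false e e) e)) e) (n true (z 119) e)) (u 5 52 (k v (k v (k v (k r (k (c 9 4097 r r) (k (c 13 4097 r (u 9 327 (k v (k v (k v (k v (k v r))))))) (k (c 13 4096 r (c 16 4099 v (u 9 0 (k (u 17 0 (k v (k v r))) r)))) (k (c 13 4097 r r) (k (c 13 4097 r r) (k r (k (c 13 4097 r r) (k (c 13 4097 r r) (k r r))))))))))))))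
 .z .z) .z))))

set_option maxRecDepth 100000 in
def N171 : NT :=
(.s 0x1f7d51144410e5fdc00 4084 (n false (n true (z 46) e) (n true (n false (n true (n true (n false (n false (n false (n false e e) (n false e e)) (n false (n false e e) (n false e e))) (n false e e)) e) e) (n false e e)) e)) (u 4 1 (k v (k (u 8 1 (k v (k v r))) (k (c 12 4099 r (u 8 0 (k v (k v r)))) (k (u 8 0 (k v (k v r))) (k (c 12 4097 r (u 8 1 (k v (k v r)))) (k (c 8 4095 r (u 12 1 (k v (k v r)))) r)))))))
 (.s 0x1f7cfab8002aa228888 4091 (n false (n true (n false (n true (n true (z 35) e) e) e) e) (n false (n false (n false (n false (n false e e) (n false e e)) (n false (n false e e) (n false e e))) (n false e e)) (n false e e))) (c 9 4101 v (u 32 25 (k v (k v (k v (k v (k (t 96 1 (u 64 0 (k (t 128 3 (t 192 1 v)) r))) r)))))))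
 (.s 0x1f7caef800875445110 4080 (n false (n true (n false (n true (n true (z 52) e) e) (n false e e)) e) (n true (n false (n false (n false (n false e e) (n false e e)) (n false (n false e e) (n false e e))) (n false e e)) e)) (u 32 377 (k v (k v (k v (k v (k v (k v (k v (k (c 16 4087 (t 6 2 r) v) (k (c 16 4087 (t 6 1 r) v) r))))))))))
 (.s 0x1f7caab8002aa228888 4091 (n false (n true (n false (n true (n true (z 32) e) e) e) e) (n false (n false (n false (n false (n false e e) (n false e e)) (n false (n false e e) (n false e e))) (n false e e)) (n false e e))) (c 9 4101 v (u 32 0 (k (t 64 3 (t 96 1 v)) r)))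
 (.s 0x1f772fea00551144420 4073 (n false (n true (n false (n true (n false (n true (z 14) e) (n false (n false (n false (n false e e) (n false e e)) (n false (n false e e) (n false e e))) (n false e e))) e) (n false e e)) e) e) (c 80 4101 v (u 64 0 (k v (k v r))))
 .z .z) (.s 0x1f7caabc00875445110 4078 (n false (n true (n false (n true (n true (z 96) e) e) (n false e e)) e) (n true (n false (n false (n false (n false e e) (n false e e)) (n false (n false e e) (n false e e))) (n false e e)) e)) (u 32 0 (k (t 96 2 (u 64 0 (k (t 192 2 (u 128 2 (k v (k (c 2 4062 r v) r)))) r))) r))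
 .z .z)) (.s 0x1f7cbfb800875445110 4082 (n false (n true (n false (n true (n true (z 46) e) e) (n false e e)) e) (n true (n false (n false (n false (n false e e) (n false e e)) (n false (n false e e) (n false e e))) (n false e e)) e)) (u 32 1 (k v (k (u 64 1 (k v (k v r))) (k (c 96 4099 r (u 64 0 (k v (k v r)))) (k (u 64 0 (k v (k v r))) (k (c 96 4097 r (u 64 1 (k v (k v r)))) (k (c 64 4095 r (u 96 1 (k v (k v r)))) r)))))))
 (.s 0x1f7cafea001c13eee00 4087 (n false (n true (n false (n true (n true (z 156) e) e) (n true (n false e e) e)) e) (z 43)) (u 32 1 (k r (k (c 96 4099 r (u 64 1 (k r (k r r)))) (k (c 64 4098 r (u 96 1 (k r (k r r)))) (k (c 64 4097 r (u 96 1 (k r (k r r)))) (k (c 64 4099 r (u 96 1 (k r (k r r)))) (k (c 64 4095 r (u 96 0 (k r (k r r)))) r)))))))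
 .z .z) .z)) (.s 0x1f7d51144410a577c00 4081 (n false (n false (z 52) e) (n true (n false (n true (n true (n false (n false (n false (n false e e) (n false e e)) (n false (n false e e) (n false e e))) (n false e e)) e) e) (n false e e)) e)) (u 4 183 (k v (k v (k v (k v (k v (k v (k v r))))))))
 (.s 0x1f7d511444109555400 4080 (n false (z 128) (n true (n false (n true (n true (n false (n false (n false (n false e e) (n false e e)) (n false (n false e e) (n false e e))) (n false e e)) e) e) (n false e e)) e)) (u 2 7 (k v (k (c 6 4097 r r) (k (c 6 4099 r r) (k r (k (c 4 4096 r r) (k (c 4 4095 r r) (k (c 4 4095 r (u 6 0 (k v (k v r)))) (k (c 4 4099 r r) (k (c 6 4097 r (u 4 1 (k v (k v r)))) (k (c 4 4098 r r) (k (c 4 4099 r r) (k (c 6 4095 r (u 4 1 (k v (k v r)))) (k (c 4 4097 r (u 6 0 (k v (k v r)))) (k (c 4 4095 r r) (k (c 4 4099 r r) (k (c 4 4095 r (u 6 1 (k v (k v r)))) (k (c 4 4097 r r) r))))))))))))))))))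
 (.s 0x1f7d2aae001c13eee00 4087 (n false (n true (n false (n true (n true (n false (z 32) e) e) e) (n true (n false e e) e)) e) (z 43)) (u 3 18 (k r (k (u 64 0 (k (t 128 3 (t 192 1 v)) r)) (k (u 64 0 (k (t 128 3 (t 192 1 v)) r)) (k (u 64 0 (k (t 128 3 (t 192 1 v)) r)) (k r (k (u 5 0 (k r r)) (k r (k (u 5 2 (k r (k (c 13 4099 r r) (k (c 9 4095 r r) r)))) r)))))))))
 .z .z) (.s 0x1f7d511444109f75400 4086 (n false (z 139) (n true (n false (n true (n true (n false (n false (n false (n false e e) (n false e e)) (n false (n false e e) (n false e e))) (n false e e)) e) e) (n false e e)) e)) (u 2 5 (k v (k (c 6 4099 r (u 4 0 (k (t 12 2 r) r))) r)))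
 .z .z)) (.s 0x1f7d51144410e57fe00 4087 (n false (n true (z 124) e) (n true (n false (n true (n true (n false (n false (n false (n false e e) (n false e e)) (n false (n false e e) (n false e e))) (n false e e)) e) e) (n false e e)) e)) (u 4 3 (k v (k v (k (c 12 4097 r (u 8 1 (k v (k v r)))) (k (c 12 4096 r (u 8 1 (k v (k v r)))) (k (c 12 4097 r (u 8 1 (k v (k v r)))) r))))))
 (.s 0x1f7d51144410e577c00 4079 (n false (n true (z 52) e) (n true (n false (n true (n true (n false (n false (n false (n false e e) (n false e e)) (n false (n false e e) (n false e e))) (n false e e)) e) e) (n false e e)) e)) (u 4 56 (k v (k v (k v (k v (k v (k v (k v (k (t 12 1 (u 8 0 (k v (k v r)))) r)))))))))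
 .z .z) .z))) (.s 0x1f7d51144410e7f5600 4086 (n false (n true (z 71) e) (n true (n false (n true (n true (n false (n false (n false (n false e e) (n false e e)) (n false (n false e e) (n false e e))) (n false e e)) e) e) (n false e e)) e)) (u 4 7 (k v (k v (k v (k (c 12 4099 r (u 8 1 (k v (k v r)))) r)))))
 (.s 0x1f7d51144410e777600 4087 (n false (n true (z 85) e) (n true (n false (n true (n true (n false (n false (n false (n false e e) (n false e e)) (n false (n false e e) (n false e e))) (n false e e)) e) e) (n false e e)) e)) (u 4 57 (k v (k (c 12 4099 r r) (k (c 12 4099 r r) (k (c 12 4099 r (c 4 4094 r v)) (k (c 4 4097 r v) (k (c 12 4096 r r) r)))))))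
 (.s 0x1f7d51144410e75fe00 4086 (n false (n true (n false (n true (n true (n false (n false (n false (n false e e) (n false e e)) (n false (n false e e) (n false e e))) (n false e e)) e) e) (n false e e)) e) (n true (z 121) e)) (u 5 2 (k v (k v (k (c 13 4099 r (u 9 1 (k v (k v r)))) (k (c 9 4095 r (u 13 0 (k v (k v r)))) (k (c 9 4095 r (u 13 0 (k v (k v r)))) r))))))
 (.s 0x1f7d51144410e5ffc00 4077 (n false (n true (z 62) e) (n true (n false (n true (n true (n false (n false (n false (n false e e) (n false e e)) (n false (n false e e) (n false e e))) (n false e e)) e) e) (n false e e)) e)) (u 4 1 (k v (k v (k v (k (t 12 1 r) r)))))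
 .z .z) (.s 0x1f7d51144410e775c00 4086 (n false (n true (n false (n true (n true (n false (n false (n false (n false e e) (n false e e)) (n false (n false e e) (n false e e))) (n false e e)) e) e) (n false e e)) e) (n true (z 37) e)) (u 5 0 (k v (k (u 9 0 (k (t 17 3 (t 25 1 v)) r)) (k (u 9 0 (k (t 17 3 (t 25 1 v)) r)) (k (u 9 0 (k v (k v (k (t 25 1 (u 17 0 (k (t 33 3 (t 49 1 v)) r))) r)))) (k (u 9 0 (k v (k v (k (t 25 1 (u 17 0 (k (t 33 3 (t 49 1 v)) r))) r)))) (k (c 5 4095 r v) r)))))))
 .z .z)) (.s 0x1f7d51144410e7df600 4087 (n false (n true (z 91) e) (n true (n false (n true (n true (n false (n false (n false (n false e e) (n false e e)) (n false (n false e e) (n false e e))) (n false e e)) e) e) (n false e e)) e)) (u 4 0 (k v (k v (k (u 8 0 (k v (k v r))) (k (c 8 4097 r (u 12 0 (k v (k v r)))) (k (c 8 4095 r (u 12 0 (k v (k v r)))) r))))))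
 (.s 0x1f7d51144410e7d7c00 4079 (n false (n true (z 51) e) (n true (n false (n true (n true (n false (n false (n false (n false e e) (n false e e)) (n false (n false e e) (n false e e))) (n false e e)) e) e) (n false e e)) e)) (u 4 0 (k (t 12 1 (u 8 0 (k (t 16 3 (t 24 3 v)) r))) r))
 .z .z) .z)) (.s 0x1fd2bbe0083ea88a220 4090 (n false (n true (n true (n false (z 52) (n false e e)) e) e) (n true (n true (n false (n false (n false (n false e e) (n false e e)) (n false (n false e e) (n false e e))) (n false e e)) e) e)) (u 16 25 (k v (k v (k v (k (t 48 1 (u 32 0 (k v (k v r)))) r)))))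
 (.s 0x1f7d51144410e7f7e00 4086 (n false (n true (z 119) e) (n true (n false (n true (n true (n false (n false (n false (n false e e) (n false e e)) (n false (n false e e) (n false e e))) (n false e e)) e) e) (n false e e)) e)) (u 4 26 (k v (k (c 12 4101 r r) (k (c 8 4101 r r) (k (c 8 4101 r r) r)))))
 (.s 0x1f7d51144410e7f7c00 4078 (n false (n true (z 55) e) (n true (n false (n true (n true (n false (n false (n false (n false e e) (n false e e)) (n false (n false e e) (n false e e))) (n false e e)) e) e) (n false e e)) e)) (u 4 4 (k (t 12 1 r) (k (t 12 2 (c 33 4099 v r)) r)))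
 .z .z) (.s 0x1f7f2bbe0010aa22888 4082 (n false (n true (n false (n true (n true (n true (z 52) e) e) e) (n false e e)) e) (n false (n false (n false (n false e e) (n false e e)) (n false (n false e e) (n false e e))) (n false e e))) (u 64 111 (k v (k v (k v (k v (k v (k v (k v r))))))))
 .z .z)) (.s 0x1fdcfeec014413eab00 4084 (n false (n true (n true (n false (n true (z 87) e) (n false (n false e e) (n false e e))) e) e) (z 67)) (u 3 23 (k (u 32 1 (k v (k v r))) (k (c 8 4082 (u 4 1 (k v (k v r))) v) r)))
 (.s 0x1fd3baa009777001708 4087 (n false (n true (n true (n false (z 42) (z 5)) e) e) (n false (n true (n false e e) e) (n false e e))) (t 24 1 (u 16 53 (k v (k v (k v (k (c 8 4090 r v) (k (c 2 4089 (c 4 4090 r v) v) (k (c 2 4089 (c 4 4090 r v) v) r))))))))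
 .z .z) .z))))

set_option maxRecDepth 100000 in
def N172 : NT :=
(.s 0xe9d5740095f5005d108 4088 (n false (n false (z 161) (z 12)) (n false (n true (n false (n false e e) (n false e e)) e) (n false e e))) (t 6 3 (u 4 1 (k (c 12 4099 r (u 8 11 (k v (k v (k (t 24 1 (u 16 0 (k v (k (c 48 4099 r (u 32 0 (k v (k v r)))) r)))) r))))) (k (c 3 4090 v (c 10 4099 v r)) r))))
 (.s 0xe95fd4009d7d805d108 4082 (n false (n false (z 89) (z 156)) (n false (n true (n false (n false e e) (n false e e)) e) (n false e e))) (u 6 1 (k r (k (c 14 4099 r r) (k (c 10 4098 r r) (k (c 10 4097 r (t 4 1 (c 3 4090 v r))) (k (c 10 4099 r r) (k (c 10 4095 r (t 4 1 (c 3 4090 v r))) r)))))))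
 (.s 0xe95fd40095df005d108 4082 (n false (n false (z 156) (z 52)) (n false (n true (n false (n false e e) (n false e e)) e) (n false e e))) (u 4 1 (k r (k (c 12 4099 r (u 8 1 (k r (k r r)))) (k (c 8 4098 r (u 12 1 (k r (k r r)))) (k (c 8 4097 r (u 12 1 (k r (k r r)))) (k (c 8 4099 r (u 12 1 (k r (k r r)))) (k (c 8 4095 r (u 12 0 (k r (k r r)))) r)))))))
 (.s 0x1ffcfeec0029d7d8070 4089 (n false (n false (z 89) (n true (n false e e) e)) (n true (n true (n true (n true (z 87) e) e) e) e)) (u 33 1 (k (u 4 57 (k v (k v (k v r)))) (k (u 4 57 (k v (k v (k v r)))) r)))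
 (.s 0x1ffcfaac0029d7d8070 4093 (n false (n false (z 89) (n true (n false e e) e)) (n true (n true (n true (n true (z 67) e) e) e) e)) (u 33 0 (k (u 4 57 (k v (k v (k v r)))) (k (u 4 57 (k v (k v (k v r)))) r)))
 .z .z) (.s 0xe95df00770875445110 4086 (n false (n false (z 52) (n true (n false (n true (n false e e) e) (n false e e)) e)) (n true (n false (n false (n false (n false e e) (n false e e)) (n false (n false e e) (n false e e))) (n false e e)) e)) (u 4 131 (k v (k v (k v (k v (k v (k (t 12 1 (u 8 0 (k v (k v r)))) r)))))))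
 .z .z)) (.s 0xe95fd4009777005d108 4082 (n false (n false (z 42) (z 156)) (n false (n true (n false (n false e e) (n false e e)) e) (n false e e))) (u 6 1 (k r (k (c 14 4099 r (u 10 1 (k r (k r r)))) (k (c 10 4098 r (u 14 1 (k r (k r r)))) (k (c 10 4097 r (u 14 1 (k r (k r r)))) (k (c 10 4099 r (u 14 1 (k r (k r r)))) (k (c 10 4095 r (t 4 1 (c 3 4090 v r))) r)))))))
 (.s 0xe95fd40095f5005d108 4088 (n false (n false (z 156) (z 12)) (n false (n true (n false (n false e e) (n false e e)) e) (n false e e))) (t 6 3 (u 4 1 (k v (k (c 12 4099 r (u 8 1 (k v (k v r)))) (k (c 8 4098 r (u 12 1 (k v (k v r)))) (k (c 8 4097 r (c 3 4090 v r)) (k (c 8 4099 r (u 12 1 (k v (k v r)))) (k (c 8 4095 r (c 3 4090 v r)) r))))))))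
 .z .z) .z)) (.s 0xe97f7004bfa803fb840 4081 (n false (n false (z 46) (z 14)) (n true (n true (n true (n false (n true (n false e e) e) (n false e e)) e) e) e)) (u 6 0 (k (u 4 8 (k v (k (c 3 4089 v (c 10 4094 v r)) (k (c 12 4099 r (u 8 0 (k v (k v r)))) (k r (k (c 12 4097 r r) (k (c 8 4095 r r) r))))))) (k (u 4 2 (k v (k (c 12 4099 r (u 8 0 (k v (k v r)))) (k (u 8 1 (k v (k v r))) (k (u 8 1 (k v (k v r))) (k (c 12 4097 r (u 8 1 (k v (k v r)))) (k (c 8 4095 r (u 12 1 (k v (k v r)))) r))))))) r)))
 (.s 0xe95fd400ee10aa22888 4084 (n false (n false (z 156) (n true (n false (n true (n false e e) e) (n false e e)) e)) (n false (n false (n false (n false e e) (n false e e)) (n false (n false e e) (n false e e))) (n false e e))) (u 4 30 (k v (k v (k (c 12 4099 r (u 8 1 (k v (k v r)))) (k (c 8 4099 r (u 12 1 (k v (k v r)))) (k (c 8 4095 r (u 12 0 (k v (k v r)))) r))))))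
 (.s 0xe95fd4009f5f005d108 4084 (n false (n false (z 51) (z 156)) (n false (n true (n false (n false e e) (n false e e)) e) (n false e e))) (t 4 1 (u 6 1 (k v (k (c 14 4099 r (u 10 1 (k v (k v r)))) (k (c 10 4098 r (u 14 1 (k v (k v r)))) (k (c 10 4097 r (u 14 1 (k v (k v r)))) (k (c 10 4099 r (u 14 1 (k v (k v r)))) (k (c 10 4095 r (u 14 0 (k v (k v r)))) r))))))))
 .z .z) (.s 0xe95ff804affc02a2288 4091 (n false (n false (z 124) (z 124)) (n false (n false (n false e e) (n false e e)) (n false (n false e e) (n false e e)))) (u 4 5 (k r (k (c 12 4097 r r) (k (c 12 4096 r r) (k (c 8 4098 r (u 6 26 (k (u 12 0 (k v (k v r))) (k (c 12 4097 r v) (k (c 14 4097 r r) (k (c 14 4097 r r) (k (c 14 4097 r r) (k (c 10 4097 r r) r)))))))) (k (c 12 4096 r r) (k (c 12 4097 r r) (k (c 12 4097 r r) (k (c 12 4096 r r) (k (c 8 4097 r r) r))))))))))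
 .z .z)) (.s 0xe97f7005c23a77dc010 4083 (n false (n false (z 46) (n false (n true (n false e e) e) (n false e e))) (n true (n false (z 45) (n false e e)) e)) (u 4 1 (k (u 9 0 (k v (k v r))) (k r (k (c 12 4099 r (u 8 0 (k (u 9 0 (k v (k v r))) (k (u 9 0 (k v (k v r))) r)))) (k (c 3 4096 (t 4 1 v) (c 10 4094 v r)) (k (c 12 4097 r r) (k (c 8 4095 r r) r)))))))
 (.s 0xe97f7004bfb802a2288 4088 (n false (n false (z 46) (z 46)) (n false (n false (n false e e) (n false e e)) (n false (n false e e) (n false e e)))) (u 4 23 (k r (k r (k (t 6 1 r) (k (u 6 17 (k (u 8 1 (k v (k v r))) (k (u 8 1 (k v (k v r))) (k (c 8 4100 r r) (k (u 8 1 (k (u 10 4 (k v (k v r))) (k (u 10 1 (k v (k v r))) r))) (k (c 14 4097 r (c 8 4100 r r)) (k (c 10 4095 r (c 8 4100 r r)) r))))))) (k (c 12 4097 r (t 6 1 r)) (k (c 8 4095 r (t 6 1 r)) r)))))))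
 .z .z) .z))) (.s 0xe9dd5004bfb803fb840 4089 (n false (n false (z 46) (z 5)) (n true (n true (n true (n false (n true (n false e e) e) (n false e e)) e) e) e)) (t 6 1 (u 4 2 (k v (k (c 12 4099 r (u 8 0 (k v (k v r)))) (k r (k (c 3 4089 v (c 10 4101 v r)) (k (c 12 4097 r r) (k (c 8 4095 r r) r))))))))
 (.s 0xe9d7f805c23a77dc010 4083 (n false (n false (z 121) (n false (n true (n false e e) e) (n false e e))) (n true (n false (z 45) (n false e e)) e)) (u 4 1 (k (u 9 0 (k v (k v r))) (k (c 12 4099 r (u 8 1 (k (u 9 0 (k v (k v r))) (k (u 9 0 (k v (k v r))) r)))) (k (c 8 4097 r r) (k (c 8 4095 r r) (k (c 8 4095 r r) r))))))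
 (.s 0xe9d7f804bfb802a2288 4094 (n false (n false (z 121) (z 46)) (n false (n false (n false e e) (n false e e)) (n false (n false e e) (n false e e)))) (u 4 32 (k r (k (t 6 1 v) (k r (k (c 8 4095 r (t 6 1 r)) (k (c 8 4095 r (t 6 1 r)) r))))))
 (.s 0xe9d7f804affc02a2288 4094 (n false (n false (z 121) (z 124)) (n false (n false (n false e e) (n false e e)) (n false (n false e e) (n false e e)))) (u 6 8 (k (t 4 2 v) (k r (k (c 14 4097 r (u 10 1 (k r (k r r)))) (k (c 14 4097 r (u 10 1 (k r (k r r)))) (k (c 14 4097 r (u 10 1 (k r (k r r)))) (k (c 10 4097 r (u 14 1 (k r (k r r)))) r)))))))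
 .z .z) (.s 0xe9d7f804ebfc02a2288 4088 (n false (n false (z 121) (z 121)) (n false (n false (n false e e) (n false e e)) (n false (n false e e) (n false e e)))) (u 4 19 (k r (k r (k (c 8 4097 r (u 12 1 (k r (k r r)))) (k (c 8 4095 r (u 12 0 (k r (k r r)))) (k (c 8 4095 r (u 12 0 (k r (k r r)))) r))))))
 .z .z)) (.s 0xe9dd5004bfb803be880 4080 (n false (n false (z 46) (z 5)) (n true (n false (n true (n true (n false (n false e e) (n false e e)) e) e) e) e)) (t 6 1 (u 4 10 (k v (k (c 12 4099 r (u 8 0 (k v (k v r)))) (k (c 3 4077 v (c 10 4101 v r)) r)))))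
 (.s 0xe9dd5004aabc03ba210 4088 (n false (n false (z 96) (z 5)) (n true (n false (n true (n false (n false e e) (n false e e)) e) (n false e e)) e)) (t 6 2 (u 4 0 (k (t 12 2 (u 8 0 (k (t 24 2 (u 16 9 (k v (k v (k (c 8 4082 r v) r))))) r))) r)))
 .z .z) .z)) (.s 0xe9dd7004eeb802a2288 4088 (n false (n false (z 37) (z 37)) (n false (n false (n false e e) (n false e e)) (n false (n false e e) (n false e e)))) (u 4 7 (k r (k (u 6 4 (k r (k (c 8 4096 r v) r))) (k (u 6 2 (k (c 8 4096 r v) (k r r))) (k (t 6 1 r) r)))))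
 (.s 0xe9dd7004bfb802a2288 4088 (n false (n false (z 37) (z 46)) (n false (n false (n false e e) (n false e e)) (n false (n false e e) (n false e e)))) (u 6 17 (k r (k r (k (t 4 1 r) (k (u 4 36 (k (u 10 1 (k v (k v r))) (k (c 10 4100 r v) (k (u 8 4 (k (u 10 4 (k v (k v r))) (k (u 10 1 (k v (k v r))) (k (c 10 4100 r v) (k (u 10 1 (k v (k v r))) r))))) (k (c 10 4100 r r) r))))) (k (c 14 4097 r (t 4 1 r)) (k (c 10 4095 r (t 4 1 r)) r)))))))
 (.s 0xe9dd7004baf802a2288 4088 (n false (n false (z 50) (z 37)) (n false (n false (n false e e) (n false e e)) (n false (n false e e) (n false e e)))) (u 4 1 (k r (k (c 12 4097 r (u 6 2 (k (c 8 4097 r v) (k (u 8 0 (k v (k v r))) r)))) r)))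
 .z .z) (.s 0xe9dd7004ebfc02a2288 4088 (n false (n false (z 37) (z 121)) (n false (n false (n false e e) (n false e e)) (n false (n false e e) (n false e e)))) (u 4 7 (k r (k (u 8 7 (k r (k r (k r (k (t 6 2 v) r))))) (k (u 6 31 (k r (k r (k r (k (c 10 4097 r (c 8 4096 r r)) (k (c 10 4095 r (c 8 4096 r r)) (k (c 10 4095 r (c 8 4096 r r)) r))))))) (k (t 6 2 r) r)))))
 .z .z)) (.s 0xe9ddd804bfb802a2288 4091 (n false (n false (z 46) (z 85)) (n false (n false (n false e e) (n false e e)) (n false (n false e e) (n false e e)))) (u 6 62 (k (t 4 1 v) (k r (k r (k (c 10 4099 r (u 14 159 (k r (k r (k (t 4 1 v) r))))) r)))))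
 (.s 0xe9ddd804affc02a2288 4091 (n false (n false (z 124) (z 85)) (n false (n false (n false e e) (n false e e)) (n false (n false e e) (n false e e)))) (u 6 62 (k (t 4 1 v) (k r (k r (k (c 10 4099 r (u 4 5 (k r (k (c 12 4097 r r) (k (c 12 4096 r r) (k (c 8 4098 r (u 12 0 (k r (k (u 14 159 (k v (k v (k v r)))) r)))) (k (c 12 4096 r r) (k (c 12 4097 r r) (k (c 12 4097 r r) (k (c 12 4096 r r) (k (c 8 4097 r r) r))))))))))) r)))))
 .z .z) .z))))

set_option maxRecDepth 100000 in
def N173 : NT :=
(.s 0xea5df6012eba00ee108 4075 (n false (n false (n false (z 90) (z 18)) (n true (n false (n true (n false e e) e) (n false e e)) e)) (n false e e)) (t 12 2 (c 2 4066 (u 4 1 (k v (k r (k (c 12 4097 r r) (k r (k (c 8 4097 r (u 12 0 (k (u 20 0 (k v (k v r))) r))) (k (c 12 4097 r r) (k r (k (c 12 4095 r r) (k (c 8 4095 r r) r)))))))))) v))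
 (.s 0xe9f5580770875445110 4083 (n false (n false (z 67) (n true (n false (n true (n false e e) e) (n false e e)) e)) (n true (n false (n false (n false (n false e e) (n false e e)) (n false (n false e e) (n false e e))) (n false e e)) e)) (u 4 49 (k v (k v (k v (k (c 8 4096 r (c 10 4092 v (u 12 0 (k (u 20 0 (k v (k v r))) r)))) (k (c 8 4101 r r) (k (u 8 7 (k v (k v (k v (k (t 24 2 (u 16 49 (k v (k v (k v r))))) r))))) (k (c 8 4099 r r) (k (c 12 4101 r r) (k (c 12 4102 r r) (k (c 8 4101 r r) (k (c 8 4101 r r) r))))))))))))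
 (.s 0xe9f55804eeec02ee108 4084 (n false (n false (z 67) (z 85)) (n false (n true (n false (n true (n false e e) e) (n false e e)) e) (n false e e))) (u 6 37 (k (c 3 4089 v r) (k r (k (u 4 114 (k v (k (c 12 4099 r (u 8 1 (k v (k v r)))) (k (c 12 4101 r (u 8 1 (k v (k v r)))) (k (c 12 4099 r (u 8 69 (k v (k v (k v (k (c 24 4099 r (u 16 1 (k v (k v r)))) r)))))) (k (c 8 4101 r (u 12 1 (k v (k v r)))) (k (c 12 4099 r (u 8 41 (k v (k v (k (c 24 4099 r (u 16 1 (k v (k v r)))) r))))) (k (c 8 4101 r (u 12 1 (k v (k v r)))) r)))))))) r))))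
 (.s 0xe9f55804ebfc02a2288 4091 (n false (n false (z 121) (z 67)) (n false (n false (n false e e) (n false e e)) (n false (n false e e) (n false e e)))) (u 6 50 (k r (k r (k (t 4 2 v) (k (c 10 4101 r (u 14 0 (k r (k r r)))) (k (t 4 2 r) (k (c 10 4099 r (u 14 0 (k r (k r r)))) (k (c 14 4101 r (u 10 1 (k r (k r r)))) (k (c 14 4102 r (u 10 1 (k r (k r r)))) (k (c 10 4101 r (u 14 1 (k r (k r r)))) (k (c 10 4101 r (u 14 1 (k r (k r r)))) r)))))))))))
 (.s 0xe9f55804bfb802a2288 4091 (n false (n false (z 46) (z 67)) (n false (n false (n false e e) (n false e e)) (n false (n false e e) (n false e e)))) (u 6 50 (k r (k r (k (t 4 1 v) (k (c 10 4101 r (u 14 0 (k r (k r r)))) (k (t 4 1 r) (k (c 10 4099 r (u 14 0 (k r (k r r)))) (k (c 14 4101 r r) (k (c 14 4102 r r) (k (c 10 4101 r r) (k (c 10 4101 r r) r)))))))))))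
 .z .z) (.s 0xe9f55804eeb802a2288 4091 (n false (n false (z 67) (z 37)) (n false (n false (n false e e) (n false e e)) (n false (n false e e) (n false e e)))) (u 6 1 (k r (k (u 4 50 (k v (k v (k v (k (c 8 4101 r r) (k (c 10 4099 v (c 14 4099 v r)) (k (c 8 4099 r r) (k (c 12 4101 r r) (k (c 12 4102 r r) (k (c 8 4101 r r) (k (c 8 4101 r r) r))))))))))) r)))
 .z .z)) (.s 0xe9f558075110aa22888 4085 (n false (n false (z 67) (n true (n false (n false (n false e e) (n false e e)) (n false e e)) e)) (n false (n false (n false (n false e e) (n false e e)) (n false (n false e e) (n false e e))) (n false e e))) (u 4 81 (k v (k v (k v (k (c 12 4099 r r) (k (c 8 4101 r r) (k (c 3 4099 v (c 10 4091 v r)) (k (c 8 4099 r r) (k (c 12 4101 r (u 8 1 (k v (k v r)))) (k (c 12 4099 r (u 8 16 (k v (k v (k v (k (c 24 4099 r (u 16 1 (k v (k v r)))) r)))))) (k (c 12 4102 r (u 8 1 (k v (k v r)))) (k (c 8 4101 r (u 12 1 (k v (k v r)))) (k (c 12 4099 r (u 8 2 (k v (k (c 24 4099 r (u 16 1 (k v (k v r)))) (k (c 16 4095 r (u 24 0 (k v (k v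 r)))) r))))) (k (c 8 4101 r (u 12 1 (k v (k v r)))) r))))))))))))))
 (.s 0xe9f5580544511770870 4074 (n false (n false (z 67) (n false (n false (n false e e) (n false e e)) (n false (n false e e) (n false e e)))) (n false (n true (n false (n true (n false e e) e) (n false e e)) e) (n true (n false e e) e))) (u 4 119 (k v (k v (k (c 8 4096 r (c 7 4094 v (u 12 0 (k (u 20 0 (k v (k v r))) r)))) (k (c 8 4101 r r) (k (u 8 19 (k v (k v (k v (k (c 24 4099 r (u 16 1 (k v (k v r)))) r))))) (k (c 8 4099 r r) (k (c 12 4101 r r) (k (c 12 4102 r r) (k (c 12 4100 r (u 8 18 (k v (k v (k (c 24 4101 r r) (k (c 24 4099 r r) (k (c 24 4097 r r) (k (c 24 4096 r (u 16 0 (k (u 32 0 (k v (k v r))) r))) (k (c 16 4098 r r) (k (c 16 4101 r r) (k (c 16 4099 r r) (k (c 16 4101 r r) r)))))))))))) (k (c 8 4101 r r) (k (c 8 4101 r r) r))))))))))))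
 .z .z) .z)) (.s 0xe9fd5804affc02a2288 4088 (n false (n false (z 124) (z 71)) (n false (n false (n false e e) (n false e e)) (n false (n false e e) (n false e e)))) (u 4 8 (k r (k (u 6 5 (k v (k (u 10 0 (k v (k v r))) (k (c 14 4099 r (u 10 1 (k v (k v r)))) (k (c 10 4099 r (u 14 1 (k v (k v r)))) (k (c 10 4099 r (u 14 1 (k v (k v r)))) (k (c 10 4099 r (u 14 1 (k v (k v r)))) r))))))) (k (c 12 4097 r r) (k (c 12 4097 r r) (k (c 12 4097 r r) (k (c 8 4097 r r) r)))))))
 (.s 0xe9f75804eea802a2288 4094 (n false (n false (z 75) (z 5)) (n false (n false (n false e e) (n false e e)) (n false (n false e e) (n false e e)))) (c 6 4099 r (u 4 6 (k v (k v (k (t 12 2 (u 8 45 (k v (k v (k v (k (u 16 2 (k v (k v r))) (k (u 16 73 (k v (k v (k v (k v r))))) (k (u 16 16 (k v (k v (k v (k (c 48 4099 r (u 32 6 (k v (k v (k v r))))) (k (c 32 4099 r (u 48 6 (k v (k v (k v r))))) r)))))) r)))))))) r)))))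
 (.s 0xe9f57005c22a77dc010 4085 (n false (n false (z 35) (n false (n true (n false e e) e) (n false e e))) (n false (n false (z 45) (n false e e)) e)) (c 4 4096 r (u 9 0 (k v (k v r))))
 .z .z) (.s 0xe9f7f804affc02ee108 4081 (n false (n false (z 123) (z 124)) (n false (n true (n false (n true (n false e e) e) (n false e e)) e) (n false e e))) (c 9 4092 v (u 6 5 (k r (k (c 14 4097 r r) (k (c 14 4096 r r) (k (c 10 4098 r (u 14 0 (k r (k r r)))) (k (c 14 4096 r r) (k (c 14 4097 r r) (k (c 14 4097 r r) (k (c 14 4096 r r) (k (c 10 4097 r r) r)))))))))))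
 .z .z)) (.s 0xea5df6012eba00e1708 4074 (n false (n false (n false (z 18) (z 90)) (n true (n false e e) e)) (n false (n true (n false e e) e) (n false e e))) (t 8 2 (c 6 4094 v (u 12 5 (k v (k r (k (c 28 4097 r (u 20 1 (k v (k (c 52 4097 r (u 36 0 (k v (k v r)))) r)))) (k r (k (c 20 4097 r (u 28 0 (k (u 44 0 (k v (k v r))) r))) (k (c 28 4097 r r) (k r (k (c 28 4095 r r) (k (c 20 4095 r r) r))))))))))))
 (.s 0xe9fdd804ebfc03fb840 4081 (n false (n false (z 87) (z 121)) (n true (n true (n true (n false (n true (n false e e) e) (n false e e)) e) e) e)) (u 6 1 (k (u 4 1 (k v (k v r))) (k (c 14 4099 r r) (k (c 10 4097 r r) (k (c 10 4095 r r) (k (c 10 4095 r r) r))))))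
 .z .z) .z))) (.s 0xea95fd40095df002288 4082 (n false (n false (n false (n false (z 52) (z 156)) e) (n false e e)) (n false (n false e e) (n false e e))) (u 24 1 (k r (k (c 56 4099 r r) (k (c 40 4098 r r) (k (c 40 4097 r (u 56 1 (k r (k r r)))) (k (c 40 4099 r r) (k (c 40 4095 r (u 56 0 (k r (k r r)))) r)))))))
 (.s 0xea7f7c00b8475445110 4082 (n false (n false (n false (z 55) e) (n false (n true (n false e e) e) (n false e e))) (n true (n false (n false (n false (n false e e) (n false e e)) (n false (n false e e) (n false e e))) (n false e e)) e)) (u 8 4 (k (t 24 1 (u 16 31 (k v (k v (k (c 48 4099 r (t 32 3 v)) (k (u 32 6 (k v (k v r))) (k (u 32 6 (k v (k v r))) r))))))) (k (c 4 4091 (t 6 2 r) v) r)))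
 (.s 0xea7d5c009d7d805d108 4082 (n false (n false (z 89) (n false (z 35) e)) (n false (n true (n false (n false e e) (n false e e)) e) (n false e e))) (u 4 49 (k r (k (u 10 2 (k v (k v (k v (k (t 26 1 (u 18 0 (k (t 34 3 (t 50 1 v)) r))) r))))) (k (u 10 0 (k v (k v (k (t 26 1 (u 18 0 (k (t 34 3 (t 50 1 v)) r))) r)))) (k (c 12 4099 r (c 10 4096 r (c 3 4090 v r))) r)))))
 (.s 0xea7d5c0095df005d108 4082 (n false (n false (z 52) (n false (z 35) e)) (n false (n true (n false (n false e e) (n false e e)) e) (n false e e))) (u 10 2 (k r (k (u 4 26 (k v (k v (k v r)))) (k (t 4 1 v) (k (t 26 1 (u 18 0 (k (t 34 3 (t 50 1 (u 4 137 (k v (k v (k v (k v (k v r)))))))) r))) r)))))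
 .z .z) (.s 0xea7f7c0095df005d108 4082 (n false (n false (z 52) (n false (z 55) e)) (n false (n true (n false (n false e e) (n false e e)) e) (n false e e))) (u 10 4 (k (t 26 1 (u 4 26 (k r (k (c 6 4095 r v) (k (u 18 29 (k v (k v (k v (k (u 34 2 (k v (k v r))) (k (u 34 2 (k v (k v r))) r)))))) r))))) (k (c 6 4091 (t 6 2 r) (c 4 4097 r v)) r)))
 .z .z)) (.s 0xea88a22e8829d7f8070 4077 (n false (n false (z 121) (n true (n false e e) e)) (n false (n false (n true (n false (n false e e) (n false e e)) e) e) (n false (n false (n false e e) (n false e e)) (n false (n false e e) (n false e e))))) (u 4 32 (k v (k v (k v (k (c 8 4095 r (c 3 4083 v r)) (k (c 8 4095 r (c 3 4083 v r)) r))))))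
 (.s 0xea7f7c013baa00e1708 4069 (n false (n false (n false (z 55) (z 5)) (n true (n false e e) e)) (n false (n true (n false e e) e) (n false e e))) (t 12 1 (u 8 4 (k (t 24 1 (u 16 4 (k v (k v (k (u 32 4 (k v (k (t 96 1 (u 64 2 (k v (k v r)))) r))) (k (u 32 4 (k v (k (t 96 1 (u 64 4 (k v (k v r)))) r))) (k (c 12 4099 v r) (k (c 12 4099 v r) r)))))))) (k (t 24 2 (c 12 4099 v r)) r))))
 .z .z) .z)) (.s 0xeaa228889777007dc20 4086 (n false (n false (z 42) (n false (n false (n false (n false e e) (n false e e)) (n false (n false e e) (n false e e))) (n false e e))) (n true (n true (n false (n true (n false e e) e) (n false e e)) e) e)) (u 4 16 (k v (k v (k (c 2 4090 r v) (k (c 2 4090 (c 3 4099 v r) v) (k (c 2 4090 r v) (k (c 2 4090 r v) r)))))))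
 (.s 0xea9fdf004eea803b840 4069 (n false (n false (n false (n false (z 55) (z 5)) (n true (n false (n true (n false e e) e) (n false e e)) e)) e) e) (t 24 1 (u 16 4 (k (t 48 1 (u 32 4 (k v (k v (k (u 64 4 (k v (k (t 192 1 (u 128 4 (k v (k v r)))) r))) (k (u 64 4 (k v (k (t 192 1 (u 128 4 (k v (k v r)))) r))) (k (c 24 4099 v r) (k (c 24 4099 v r) r)))))))) (k (t 48 2 (c 24 4099 v r)) r))))
 (.s 0xea95fd4009f5f002288 4084 (n false (n false (n false (n false (z 51) (z 156)) e) (n false e e)) (n false (n false e e) (n false e e))) (t 16 1 (u 24 1 (k v (k (c 56 4099 r (u 40 1 (k v (k v r)))) (k (c 40 4098 r (u 56 1 (k v (k v r)))) (k (c 40 4097 r (u 56 1 (k v (k v r)))) (k (c 40 4099 r (u 56 1 (k v (k v r)))) (k (c 40 4095 r (u 56 0 (k v (k v r)))) r))))))))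
 .z .z) (.s 0xeaa228889777005d108 4089 (n false (n false (z 42) (n false (n false (n false (n false e e) (n false e e)) (n false (n false e e) (n false e e))) (n false e e))) (n false (n true (n false (n false e e) (n false e e)) e) (n false e e))) (u 4 58 (k v (k v (k (t 8 3 (t 12 1 v)) (k (u 8 1 (k v (k v r))) (k (t 12 3 r) (k (t 12 3 r) (k (t 12 2 (c 6 4099 v (u 8 15 (k v (k v (k v r)))))) (k (c 3 4090 v r) (k (t 12 3 (c 10 4101 v (u 8 0 (k v (k v r))))) (k (u 8 10 (k v (k v (k v (k (c 24 4099 r (u 16 1 (k v (k v r)))) r))))) (k (u 8 3 (k v (k v (k (c 24 4099 r (u 16 1 (k v (k v r)))) r)))) r))))))))))))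
 .z .z)) (.s 0xeaa228889d7d807dc20 4084 (n false (n false (z 89) (n false (n false (n false (n false e e) (n false e e)) (n false (n false e e) (n false e e))) (n false e e))) (n true (n true (n false (n true (n false e e) e) (n false e e)) e) e)) (u 4 38 (k v (k v (k v (k (t 12 3 r) (k (c 12 4099 r r) (k (c 8 4099 r r) r)))))))
 (.s 0xeaa228889d7d8075c20 4085 (n false (n false (z 89) (n false (n false (n false (n false e e) (n false e e)) (n false (n false e e) (n false e e))) (n false e e))) (n true (n false (n false (n true (n false e e) e) (n false e e)) e) e)) (u 4 28 (k v (k v (k v (k (t 12 3 (u 8 136 (k v (k v (k v (k v r)))))) (k (c 12 4099 r r) (k (c 8 4099 r r) r)))))))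
 .z .z) .z))))

set_option maxRecDepth 100000 in
def N174 : NT :=
(.s 0xeaa77dc00870aa22888 4082 (n false (n false (n false (n false (n false (z 45) e) (n false e e)) e) (n true (n false e e) e)) (n false (n false (n false (n false e e) (n false e e)) (n false (n false e e) (n false e e))) (n false e e))) (u 32 4 (k v (k (t 96 1 (u 64 4 (k v (k v r)))) r)))
 (.s 0xeaa22888e83b9dd7000 4087 (n false (n true (n false (n true (z 37) e) e) e) (n false (n true (n false (n false e e) e) e) (n false (n false (n false (n false e e) (n false e e)) (n false (n false e e) (n false e e))) (n false e e)))) (u 16 46 (k v (k v (k (c 9 4094 v r) (k (c 9 4094 v r) (k (c 9 4094 v r) (k (c 9 4094 v (c 11 4101 v r)) r)))))))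
 (.s 0xeaa22888e83a5ddc010 4082 (n false (n true (n false (z 42) (n false e e)) e) (n false (n true (n false (n false e e) e) e) (n false (n false (n false (n false e e) (n false e e)) (n false (n false e e) (n false e e))) (n false e e)))) (u 8 81 (k v (k v (k (u 16 58 (k v (k v (k v (k (c 5 4093 v r) r))))) (k (t 24 1 (u 16 0 (k (u 32 2 (k v (k (c 16 4084 (u 4 1 (k v (k v r))) v) r))) r))) (k (c 5 4093 v r) (k (c 5 4093 v r) r)))))))
 (.s 0xeaa22888a75fe00ee10 4083 (n false (n false (n false (z 121) e) (n false (n false (n false (n false e e) (n false e e)) (n false (n false e e) (n false e e))) (n false e e))) (n true (n false (n true (n false e e) e) (n false e e)) e)) (u 8 1 (k v (k (c 24 4099 r (u 16 1 (k v (k v r)))) (k (c 16 4097 r (c 2 4088 r v)) (k (c 16 4095 r (u 24 0 (k v (k v r)))) (k (c 16 4095 r (u 24 0 (k v (k v r)))) r))))))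
 (.s 0xeaa228889ddd8077d00 4085 (n false (n false (z 85) (n false (n false (n false (n false e e) (n false e e)) (n false (n false e e) (n false e e))) (n false e e))) (n true (n false (n true (n true (n false (n false e e) e) e) e) e) e)) (u 4 77 (k v (k v (k (c 12 4099 r r) (k (c 12 4099 r (c 17 4093 v r)) (k (c 12 4099 r (u 8 4 (k v (k v (k v (k (t 24 1 (u 16 26 (k v (k v (k v r))))) r)))))) (k (c 3 4090 v (c 10 4101 v r)) r)))))))
 .z .z) (.s 0xeaa22888ae10e7d5600 4084 (n false (n false (n false (n false (n true (n false e e) e) (n false e e)) e) (n false (n false (n false (n false e e) (n false e e)) (n false (n false e e) (n false e e))) (n false e e))) (n true (z 67) e)) (u 5 84 (k v (k v (k v (k r (k (u 9 2 (k (t 13 1 v) (k (u 13 0 (k v (k v r))) r))) (k r (k (c 3 4088 r v) (k r (k (t 13 1 (u 9 1 (k v (k (c 25 4097 r (u 17 0 (k v (k v r)))) r)))) (k (t 13 2 (c 3 4080 (u 4 0 (k r r)) v)) (k r (k r (k (t 9 1 (c 3 4080 (u 6 0 (k r r)) v)) (k r (k r (k r (k r r))))))))))))))))))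
 .z .z)) (.s 0xeaa22888e83b9d7f800 4087 (n false (n true (n false (n true (z 121) e) e) e) (n false (n true (n false (n false e e) e) e) (n false (n false (n false (n false e e) (n false e e)) (n false (n false e e) (n false e e))) (n false e e)))) (u 16 4 (k v (k v (k (c 48 4099 r (u 32 1 (k v (k v r)))) (k (c 32 4097 r (u 48 1 (k v (k v r)))) r)))))
 (.s 0xeaa22888e83b97f7000 4086 (n false (n true (n false (n true (z 46) e) e) e) (n false (n true (n false (n false e e) e) e) (n false (n false (n false (n false e e) (n false e e)) (n false (n false e e) (n false e e))) (n false e e)))) (u 16 0 (k v (k (u 32 1 (k v (k v r))) (k (u 32 1 (k v (k v r))) (k (c 48 4099 r (u 32 0 (k v (k v r)))) (k (c 48 4097 r (u 32 1 (k v (k v r)))) (k (c 32 4095 r (u 48 1 (k v (k v r)))) r)))))))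
 .z .z) .z)) (.s 0xeaa22888fb8413efb00 4086 (n false (z 91) (n false (n true (n true (n false (n true (n false e e) e) (n false e e)) e) e) (n false (n false (n false (n false e e) (n false e e)) (n false (n false e e) (n false e e))) (n false e e)))) (u 2 17 (k v (k v (k v (k (u 4 1 (k v (k v r))) (k (c 4 4097 r (u 6 0 (k v (k v r)))) (k (c 4 4095 r (u 6 0 (k v (k v r)))) r)))))))
 (.s 0xeaa22888ee10e7d5600 4083 (n false (n true (z 67) e) (n false (n true (n false (n true (n false e e) e) (n false e e)) e) (n false (n false (n false (n false e e) (n false e e)) (n false (n false e e) (n false e e))) (n false e e)))) (u 4 101 (k v (k v (k r (k r (k r (k r (k r (k r (k (t 12 1 (u 8 1 (k v (k (c 24 4097 r (u 16 0 (k v (k v r)))) r)))) (k (t 12 1 (u 8 0 (k (u 16 0 (k v (k v r))) r))) (k (u 12 7 (k (u 8 1 (k v (k v r))) (k r (k r (k r r))))) (k r (k (c 7 4099 v (u 12 0 (k r r))) (k r (k (c 7 4099 v r) (k r (k (c 7 4099 v r) r))))))))))))))))))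
 (.s 0xeaa22888ee10e5f7e00 4084 (n false (n true (z 118) e) (n false (n true (n false (n true (n false e e) e) (n false e e)) e) (n false (n false (n false (n false e e) (n false e e)) (n false (n false e e) (n false e e))) (n false e e)))) (u 4 3 (k v (k (t 12 1 (u 8 7 (k v (k v (k (c 16 4101 r (c 5 4091 v r)) (k (c 24 4103 r (c 5 4091 v r)) (k (c 24 4100 r (c 5 4091 v r)) (k (c 24 4100 r (c 5 4091 v r)) r)))))))) (k (c 5 4091 v (t 12 1 r)) r))))
 .z .z) (.s 0xeaa22888fb8412bbe00 4086 (n false (n false (n true (n true (n false (n true (n false e e) e) (n false e e)) e) e) (n false (n false (n false (n false e e) (n false e e)) (n false (n false e e) (n false e e))) (n false e e))) (z 52)) (u 3 150 (k v (k v (k v (k v (k v (k (t 7 1 (u 5 0 (k v (k v r)))) r)))))))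
 .z .z)) (.s 0xeaa7776012aaa0043a0 4074 (n false (n false (n false (n false (n false (z 85) (z 0)) e) (n false e e)) e) (n true (n false (n false e e) e) e)) (t 48 1 (u 32 4 (k v (k (c 96 4099 r r) (k (c 96 4099 r (c 3 4093 v r)) (k (c 96 4099 r (u 64 1 (k v (k v (k v (k (t 192 1 (u 128 6 (k v (k v (k (t 384 1 (u 256 0 (k v (k v r)))) r))))) r)))))) (k (u 64 5 (k v (k v (k v (k (t 192 3 (u 128 64 (k v (k v (k v (k v r)))))) r))))) (k (c 96 4096 r (c 3 4093 v r)) (k (c 64 4099 r r) r)))))))))
 (.s 0xeaa5fdc012aaa0043a0 4074 (n false (n false (n false (n false (n false (z 46) (z 0)) e) (n false e e)) e) (n true (n false (n false e e) e) e)) (t 48 1 (u 32 1 (k v (k (u 64 1 (k v (k v r))) (k (c 96 4099 r (u 64 0 (k v (k v r)))) (k (u 64 1 (k v (k v r))) (k (c 96 4097 r (u 64 1 (k v (k v r)))) (k (c 64 4095 r (u 96 1 (k v (k v r)))) r))))))))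
 .z .z) .z))) (.s 0xeaa97fd400955500210 4086 (n false (n false (n false (n false (n false (n false (z 158) (z 0)) e) (n false e e)) e) (n false e e)) e) (t 96 1 (u 64 0 (k (u 128 5 (k v (k v (k v (k (t 384 1 (u 256 0 (k v (k (c 768 4099 r (u 512 8 (k v (k v r)))) r)))) r))))) r)))
 (.s 0xeaa88a22297f7003870 4070 (n false (n false (n false (n false (z 46) e) (n false (n false (n false (n false e e) (n false e e)) (n false (n false e e) (n false e e))) (n false e e))) (n true (n false e e) e)) (n true (n false e e) e)) (c 12 4099 v (c 3 4094 v r))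
 (.s 0xeaa7f7c0095df002288 4082 (n false (n false (n false (n false (z 52) (n false (z 55) e)) e) (n false e e)) (n false (n false e e) (n false e e))) (u 40 4 (k (t 104 1 (u 72 29 (k (c 16 4097 r v) (k (u 16 26 (k v (k v (k v r)))) (k (u 16 74 (k v (k v (k v (k v r))))) (k (u 136 2 (k (c 16 4097 r v) (k (u 16 26 (k v (k v (k v r)))) r))) (k (u 136 2 (k (c 16 4097 r v) (k (u 16 26 (k v (k v (k v r)))) r))) r))))))) (k (c 24 4091 (t 6 2 r) (c 16 4097 r v)) r)))
 (.s 0xeaa7d5c0095df002288 4082 (n false (n false (n false (n false (z 52) (n false (z 35) e)) e) (n false e e)) (n false (n false e e) (n false e e))) (u 40 2 (k r (k (u 16 26 (k v (k v (k v r)))) (k (t 16 1 v) (k (t 104 1 (u 72 0 (k (t 136 3 (t 200 1 (u 16 74 (k v (k v (k v (k v r))))))) r))) r)))))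
 .z .z) (.s 0xeaa7f7c013baa00e088 4074 (n false (n false (n false (n false (n false (z 55) (z 5)) (n true (n false e e) e)) e) (n false e e)) (n false e e)) (t 48 1 (u 32 2 (k v (k (t 96 2 (c 48 4099 v (u 64 8 (k v (k v r))))) r))))
 .z .z)) (.s 0xeaa95fd400955500210 4086 (n false (n false (n false (n false (n false (n false (z 156) (z 0)) e) (n false e e)) e) (n false e e)) e) (t 96 1 (u 64 1 (k v (k (c 192 4099 r (u 128 1 (k v (k v r)))) (k (c 128 4098 r (u 192 1 (k v (k v r)))) (k (c 128 4097 r (u 192 1 (k v (k v r)))) (k (c 128 4099 r (u 192 1 (k v (k v r)))) (k (c 128 4095 r (c 16 4089 r v)) r))))))))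
 (.s 0xeaa88a2229f55802288 4089 (n false (n false (n false (n false (z 67) e) (n false (n false (n false (n false e e) (n false e e)) (n false (n false e e) (n false e e))) (n false e e))) (n false e e)) (n false (n false e e) (n false e e))) (u 16 4 (k v (k v (k (c 48 4096 r (c 4 4092 r v)) (k (c 32 4101 r r) (k (u 32 9 (k v (k v (k (t 96 2 (u 64 49 (k v (k v (k v r))))) (k (c 8 4084 r v) r))))) (k (c 32 4099 r r) (k (c 48 4101 r r) (k (c 48 4102 r r) (k (c 32 4101 r r) (k (c 32 4101 r r) r)))))))))))
 .z .z) .z)) (.s 0xeb9555400470aa22888 4082 (n false (n false (n false (n true (z 128) e) (n false e e)) (n true (n false e e) e)) (n false (n false (n false (n false e e) (n false e e)) (n false (n false e e) (n false e e))) (n false e e))) (c 6 4094 v (u 16 6 (k v (k v (k (c 48 4097 r r) (k (c 32 4095 r r) (k (c 32 4098 r (u 48 0 (k (u 80 3 (k v (k v (k v r)))) r))) (k (c 32 4096 r r) (k (c 32 4095 r (u 48 1 (k v (k (c 112 4097 r (u 80 0 (k v (k v r)))) r)))) (k (c 32 4095 r r) (k (c 32 4095 r (u 48 0 (k v (k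 v r)))) (k (c 48 4095 r r) (k (c 48 4095 r (u 32 1 (k v (k v r)))) (k (c 32 4097 r (u 48 0 (k v (k v r)))) (k (c 32 4095 r r) (k (c 32 4095 r (u 48 1 (k v (k v r)))) (k (c 32 4097 r r) r)))))))))))))))))
 (.s 0xeae7d5c0095df002288 4084 (n false (n false (n false (n false (z 52) (n true (z 35) e)) e) (n false e e)) (n false (n false e e) (n false e e))) (u 40 2 (k r (k r (k (c 16 4097 r v) (k (t 104 1 (u 72 0 (k (t 136 3 (t 200 1 (u 16 26 (k v (k v (k v r)))))) r))) r)))))
 (.s 0xeaae95df004210e1708 4057 (n false (n false (n false (n false (n false (n false (n true (n false (z 52) (n false e e)) e) (n false e e)) e) (n false e e)) e) (n true (n false e e) e)) (n false (n true (n false e e) e) (n false e e))) (u 256 29 (k v (k v (k v (k (t 768 1 (u 512 0 (k v (k v r)))) r)))))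
 .z .z) (.s 0xeae7f760095df002288 4079 (n false (n false (n false (n false (z 52) (n true (z 87) e)) e) (n false e e)) (n false (n false e e) (n false e e))) (u 16 74 (k (u 40 1 (k v (k v r))) (k (u 40 1 (k v (k v r))) (k (u 40 1 (k v (k v r))) (k (u 40 1 (k v (k v r))) r)))))
 .z .z)) (.s 0xeb9fdd801c2ea88a220 4082 (n false (n false (n false (n true (z 87) e) e) (n true (n false e e) e)) (n false (n true (n false (n false (n false (n false e e) (n false e e)) (n false (n false e e) (n false e e))) (n false e e)) e) e)) (c 8 4098 (u 2 0 (k v (k v r))) v)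
 (.s 0xeb9777001c3ea88a220 4092 (n false (n false (n false (n true (z 42) e) e) (n true (n false e e) e)) (n true (n true (n false (n false (n false (n false e e) (n false e e)) (n false (n false e e) (n false e e))) (n false e e)) e) e)) (c 8 4099 (u 2 0 (k v (k v r))) v)
 .z .z) .z))))

end Pool.Agent.Helper91.ND1
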