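import Pool.Agent.Helper66.ND.Defs

/-! part of the certificate for the constant 25/48 (generated) -/

namespace Pool.Agent.Helper91.ND1

open Pool.Agent.Helper66.IL
open Pool.Agent.Helper66.ND
open Pool.Agent.Helper66.ND.LT
open Pool.Agent.Helper66.ND.Ct

set_option maxRecDepth 100000 in
def N175 : NT :=
(.s 0xebe5fdc007075445110 4087 (n false (n false (n false (n true (n true (z 46) e) e) (n true (n false e e) e)) e) (n true (n false (n false (n false (n false e e) (n false e e)) (n false (n false e e) (n false e e))) (n false e e)) e)) (u 32 1 (k v (k (u 64 1 (k v (k v r))) (k (c 96 4099 r (u 64 0 (k v (k v r)))) (k (u 64 1 (k v (k v r))) (k (c 96 4097 r (u 64 1 (k v (k v r)))) (k (c 64 4095 r (u 96 1 (k v (k v r)))) r)))))))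
 (.s 0xebaa2288845112abf00 4094 (n false (z 112) (n false (n false (n true (n false (n false (n false (n false e e) (n false e e)) (n false (n false e e) (n false e e))) (n false e e)) e) (n false e e)) (n false (n false e e) (n false e e)))) (u 2 2 (k v (k (c 6 4099 r (u 4 4 (k v (k v r)))) r)))
 (.s 0xebaa22888445cbfa800 4086 (n false (n false (n true (z 14) e) e) (n false (n false (n true (n false (n false (n false (n false e e) (n false e e)) (n false (n false e e) (n false e e))) (n false e e)) e) (n false e e)) (n false e e))) (c 9 4110 v (u 8 0 (k v (k v r))))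
 (.s 0xebaa2288842e75fe008 4077 (n false (n false (n true (z 121) e) (n false e e)) (n false (n false (n true (n false (n false (n false (n false e e) (n false e e)) (n false (n false e e) (n false e e))) (n false e e)) e) (n false e e)) e)) (u 8 1 (k v (k (c 24 4099 r (u 16 1 (k v (k v r)))) (k (c 16 4097 r r) (k (c 16 4095 r (u 24 0 (k v (k v r)))) (k (c 16 4095 r (u 24 0 (k v (k v r)))) r))))))
 (.s 0xebaa2288842e75d6008 4079 (n false (n false (n true (z 73) e) (n false e e)) (n false (n false (n true (n false (n false (n false (n false e e) (n false e e)) (n false (n false e e) (n false e e))) (n false e e)) e) (n false e e)) e)) (c 17 4099 v (u 8 0 (k (u 16 0 (k v (k v r))) r)))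
 .z .z) (.s 0xebaa2288842e775c008 4077 (n false (n false (n true (z 37) e) (n false e e)) (n false (n false (n true (n false (n false (n false (n false e e) (n false e e)) (n false (n false e e) (n false e e))) (n false e e)) e) (n false e e)) e)) (u 8 23 (k v (k v (k (c 17 4099 v (u 16 0 (k (t 32 3 (t 48 1 v)) r))) (k (c 17 4099 v (u 16 26 (k v (k v (k v (k (t 48 1 (u 32 0 (k (t 64 3 (t 96 1 v)) r))) r)))))) (k (c 17 4099 v (u 16 7 (k v (k v r)))) r))))))
 .z .z)) (.s 0xebaa22888447caef800 4090 (n false (n true (n true (z 52) e) e) (n false (n false (n true (n false (n false (n false (n false e e) (n false e e)) (n false (n false e e) (n false e e))) (n false e e)) e) (n false e e)) (n false e e))) (u 8 103 (k v (k v (k v (k v (k (t 24 1 (u 16 0 (k v (k v r)))) r))))))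
 (.s 0xebaa22888445cfeec00 4088 (n false (n false (n true (z 87) e) e) (n false (n false (n true (n false (n false (n false (n false e e) (n false e e)) (n false (n false e e) (n false e e))) (n false e e)) e) (n false e e)) (n false e e))) (c 9 4110 v (u 8 1 (k v (k v r))))
 .z .z) .z)) (.s 0xebaa228884faac02288 4089 (n false (n false (n false (z 67) (n true (n false (n false (n false (n false e e) (n false e e)) (n false (n false e e) (n false e e))) (n false e e)) e)) (n false e e)) (n false (n false e e) (n false e e))) (u 8 38 (k v (k v (k r (k (c 16 4096 r r) (k (c 16 4096 r r) (k (c 16 4101 r r) (k r (k (c 2 4088 r v) (k (c 16 4099 r r) (k (t 24 2 (u 16 1 (k v (k (c 48 4097 r (u 32 0 (k v (k v r)))) r)))) (k (t 24 1 (u 16 0 (k (u 32 0 (k v (k v r))) r))) (k (c 24 4101 r r) (k r (k (c 24 4102 r r) (k (c 24 4100 r (c 2 4084 (c 10 4099 v r) v)) (k (c 16 4101 r r) (k (t 24 1 (u 16 3 (k v (k v (k (c 48 4099 r (u 32 1 (k v (k v r)))) r))))) (k (c 16 4101 r r) r)))))))))))))))))))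
 (.s 0xebaa2288845113eae00 4094 (n false (z 35) (n false (n false (n true (n false (n false (n false (n false e e) (n false e e)) (n false (n false e e) (n false e e))) (n false e e)) e) (n false e e)) (n false (n false e e) (n false e e)))) (u 2 2 (k v (k v (k v (k (t 6 1 (u 4 0 (k (t 8 3 (t 12 1 v)) r))) r)))))
 (.s 0xebaa2288845113bfa00 4094 (n false (z 29) (n false (n false (n true (n false (n false (n false (n false e e) (n false e e)) (n false (n false e e) (n false e e))) (n false e e)) e) (n false e e)) (n false (n false e e) (n false e e)))) (u 2 0 (k (u 4 0 (k (t 8 3 (t 12 1 v)) r)) r))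
 .z .z) (.s 0xebaa2288845113fab00 4091 (n false (z 71) (n false (n false (n true (n false (n false (n false (n false e e) (n false e e)) (n false (n false e e) (n false e e))) (n false e e)) e) (n false e e)) (n false (n false e e) (n false e e)))) (u 2 7 (k v (k v (k v (k (c 6 4099 r (u 4 1 (k v (k v r)))) r)))))
 .z .z)) (.s 0xebaba577c010843b840 4059 (n false (n false (n false (n true (n false (n false (n false (n true (n false (z 52) (n false e e)) e) (n false e e)) e) (n false e e)) e) (n true (n false (n true (n false e e) e) (n false e e)) e)) e) e) (u 512 6 (k v (k v (k (t 1536 1 (u 1024 6 (k v (k v r)))) r))))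
 (.s 0xebaa2288870e13eab00 4084 (n false (n false (n false (n true (n false (n false (n false (n false e e) (n false e e)) (n false (n false e e) (n false e e))) (n false e e)) e) (n true (n false e e) e)) (n true (n false e e) e)) (z 67)) (u 3 87 (k v (k v (k r (k (c 5 4096 r (c 12 4094 v (u 7 0 (k (u 11 0 (k v (k v r))) r)))) (k (t 7 1 (c 8 4110 v (c 12 4094 v r))) (k (t 7 2 r) (k (c 2 4092 v r) (k (t 7 1 r) (k (t 7 2 (c 8 4110 v (c 12 4094 v r))) (k (t 5 6 (c 16 4099 v (c 6 4094 v r))) (k (t 7 1 (u 5 0 (k (u 9 0 (k v (k v r))) r))) (k (c 16 4099 v (c 6 4094 v r)) (k r (k (c 16 4099 v (c 6 4094 v r)) (k (t 5 2 (c 16 4099 v (c 6 4094 v r))) (k (t 7 6 (c 16 4099 v (c 6 4094 v r))) (k (c 16 4099 v (c 6 4094 v r)) (k r (k (t 7 6 (c 16 4099 v (c 6 4094 v r))) (k (c 16 4099 v (c 6 4094 v r)) r)))))))))))))))))))))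
 .z .z) .z))) (.s 0xee577c00aa22888ee10 4086 (n false (n false (n true (z 52) e) (n false (n false (n false (n false e e) (n false e e)) (n false (n false e e) (n false e e))) (n false e e))) (n true (n false (n true (n false e e) e) (n false e e)) e)) (u 8 10 (k v (k v (k v (k v (k v (k (t 24 1 (u 16 0 (k v (k v r)))) r)))))))
 (.s 0xebeaf95df0010821708 4061 (n false (n false (n false (n true (n true (n false (n false (n false (n true (n true (z 52) e) e) (n false e e)) e) (n false e e)) e) e) (n false e e)) e) (n false (n true (n false e e) e) (n false e e))) (u 1024 332 (k v (k v (k v (k v (k v (k v r)))))))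
 (.s 0xebea88a220452afa008 4092 (n false (n false (n false (n true (n true (n false (n false (n false (n false e e) (n false e e)) (n false (n false e e) (n false e e))) (n false e e)) e) e) e) (n false e e)) (n false (z 24) (n false e e))) (c 3 4096 (c 2 4098 r v) v)
 (.s 0xebe75fe007075445110 4087 (n false (n false (n false (n true (n true (z 121) e) e) (n true (n false e e) e)) e) (n true (n false (n false (n false (n false e e) (n false e e)) (n false (n false e e) (n false e e))) (n false e e)) e)) (u 32 1 (k v (k (c 96 4099 r (u 64 1 (k v (k v r)))) (k (c 64 4097 r (u 96 1 (k v (k v r)))) (k (c 64 4095 r (u 96 0 (k v (k v r)))) (k (c 64 4095 r (u 96 0 (k v (k v r)))) r))))))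
 .z .z) (.s 0xebeab95df0010821708 4060 (n false (n false (n false (n true (n true (n false (n false (n false (n false (n true (z 52) e) e) (n false e e)) e) (n false e e)) e) e) (n false e e)) e) (n false (n true (n false e e) e) (n false e e))) (u 1024 331 (k v (k v (k v (k v (k v (k v (k v r))))))))
 .z .z)) (.s 0xee577c00aa22888ae10 4086 (n false (n false (n true (z 52) e) (n false (n false (n false (n false e e) (n false e e)) (n false (n false e e) (n false e e))) (n false e e))) (n false (n false (n true (n false e e) e) (n false e e)) e)) (u 8 10 (k v (k v (k v (k v (k v (k (t 24 1 (u 16 0 (k v (k v r)))) r)))))))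
 (.s 0xee555c00b8475445110 4090 (n false (n false (n true (z 32) e) (n false (n true (n false e e) e) (n false e e))) (n true (n false (n false (n false (n false e e) (n false e e)) (n false (n false e e) (n false e e))) (n false e e)) e)) (c 10 4094 v (u 8 0 (k (t 16 3 (t 24 1 v)) r)))
 .z .z) .z)) (.s 0xee5fd4009f7f805d108 4079 (n false (n false (z 123) (n true (z 14) e)) (n false (n true (n false (n false e e) (n false e e)) e) (n false e e))) (u 4 60 (k (u 10 0 (k v (k v r))) (k (u 10 4 (k v (k v r))) (k (c 12 4099 r (u 8 72 (k (u 10 0 (k v (k v r))) (k (u 10 4 (k v (k v r))) (k (u 10 0 (k v (k v r))) (k (u 10 0 (k v (k v r))) (k (t 24 2 (u 16 26 (k (u 10 4 (k v (k v r))) (k (u 10 0 (k v (k v r))) (k (u 10 0 (k v (k v r))) r))))) r))))))) (k (u 10 0 (k r (k r r))) r)))))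
 (.s 0xee57f5001511447dc20 4080 (n false (n false (n true (z 156) e) (n false (n false (n false e e) (n false e e)) (n false (n false e e) (n false e e)))) (n true (n true (n false (n true (n false e e) e) (n false e e)) e) e)) (u 8 1 (k v (k (c 24 4099 r (u 16 1 (k v (k v r)))) (k (c 16 4098 r (u 24 1 (k v (k v r)))) (k (c 16 4097 r (u 24 1 (k v (k v r)))) (k (c 16 4099 r (u 24 1 (k v (k v r)))) (k (c 16 4095 r (u 24 0 (k v (k v r)))) r)))))))
 (.s 0xee57f50015114475c20 4080 (n false (n false (n true (z 156) e) (n false (n false (n false e e) (n false e e)) (n false (n false e e) (n false e e)))) (n true (n false (n false (n true (n false e e) e) (n false e e)) e) e)) (u 8 1 (k v (k (c 24 4099 r (u 16 1 (k v (k v r)))) (k (c 16 4098 r (u 24 1 (k v (k v r)))) (k (c 16 4097 r (u 24 1 (k v (k v r)))) (k (c 16 4099 r (u 24 1 (k v (k v r)))) (k (c 16 4095 r (u 24 0 (k v (k v r)))) r)))))))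
 .z .z) (.s 0xee5ddc00aa22888ee10 4080 (n false (n false (n true (z 42) e) (n false (n false (n false (n false e e) (n false e e)) (n false (n false e e) (n false e e))) (n false e e))) (n true (n false (n true (n false e e) e) (n false e e)) e)) (u 8 16 (k v (k v (k (c 10 4101 v (c 3 4091 v r)) (k (c 4 4087 r v) (k (c 3 4091 v (c 10 4101 v r)) (k (c 3 4091 v (c 10 4101 v r)) r)))))))
 .z .z)) (.s 0xee5fdc00aa22888fe80 4087 (n false (n true (n true (n true (n false (n false e e) e) e) e) e) (n false (n true (z 46) e) (n false (n false (n false (n false e e) (n false e e)) (n false (n false e e) (n false e e))) (n false e e)))) (u 9 18 (k v (k v (k (c 25 4099 r (u 17 0 (k v (k v r)))) (k (u 17 1 (k v (k v r))) (k (u 17 1 (k v (k v r))) (k (c 25 4097 r (u 17 1 (k v (k v r)))) r)))))))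
 (.s 0xee5fdc00aa22888ee10 4087 (n false (n false (n true (z 46) e) (n false (n false (n false (n false e e) (n false e e)) (n false (n false e e) (n false e e))) (n false e e))) (n true (n false (n true (n false e e) e) (n false e e)) e)) (u 8 6 (k v (k v (k (u 16 1 (k v (k v r))) (k (c 24 4099 r (u 16 0 (k v (k v r)))) (k (u 16 1 (k v (k v r))) (k (c 24 4097 r (u 16 1 (k v (k v r)))) r)))))))
 .z .z) .z))))

set_option maxRecDepth 100000 in
def N176 : NT :=
(.s 0xee7f7c00aa22888ae10 4086 (n false (n false (n true (z 55) e) (n false (n false (n false (n false e e) (n false e e)) (n false (n false e e) (n false e e))) (n false e e))) (n false (n false (n true (n false e e) e) (n false e e)) e)) (c 2 4091 (c 3 4099 v r) v)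
 (.s 0xee777600aa22888ae10 4088 (n false (n false (n true (z 85) e) (n false (n false (n false (n false e e) (n false e e)) (n false (n false e e) (n false e e))) (n false e e))) (n false (n false (n true (n false e e) e) (n false e e)) e)) (u 8 18 (k v (k v (k v (k (c 3 4091 v (c 10 4101 v r)) (k (c 24 4097 r (c 10 4101 v (u 16 42 (k v (k v (k (u 32 12 (k v (k v r))) (k (c 48 4096 r (c 3 4091 v (c 8 4088 r v))) (k (c 32 4099 r (u 48 67 (k v (k v (k v (k v (k v r))))))) r)))))))) r))))))
 (.s 0xee75fe00aa22888ee10 4087 (n false (n false (n true (z 121) e) (n false (n false (n false (n false e e) (n false e e)) (n false (n false e e) (n false e e))) (n false e e))) (n true (n false (n true (n false e e) e) (n false e e)) e)) (u 8 1 (k v (k (c 24 4099 r (u 16 1 (k v (k v r)))) (k (c 16 4097 r (u 24 1 (k v (k v r)))) (k (c 16 4095 r (u 24 0 (k v (k v r)))) (k (c 16 4095 r (u 24 0 (k v (k v r)))) r))))))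
 (.s 0xee5ffc00aa22888ee10 4086 (n false (n false (n true (z 62) e) (n false (n false (n false (n false e e) (n false e e)) (n false (n false e e) (n false e e))) (n false e e))) (n true (n false (n true (n false e e) e) (n false e e)) e)) (u 8 4 (k v (k v (k v (k (t 24 1 (u 16 41 (k v (k v (k (t 48 1 (u 32 0 (k v (k v r)))) r))))) r)))))
 (.s 0xee5ffc00aa22888ae10 4086 (n false (n false (n true (z 62) e) (n false (n false (n false (n false e e) (n false e e)) (n false (n false e e) (n false e e))) (n false e e))) (n false (n false (n true (n false e e) e) (n false e e)) e)) (u 8 4 (k v (k v (k v (k (t 24 1 (u 16 41 (k v (k v (k (t 48 1 (u 32 0 (k v (k v r)))) r))))) r)))))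
 .z .z) (.s 0xee75fe00a88a23ea220 4082 (n false (n false (n true (z 121) e) (n false (n false (n false e e) (n false e e)) (n false (n false e e) (n false e e)))) (n true (n true (n false (n false (n false e e) (n false e e)) (n false e e)) e) e)) (u 8 1 (k v (k (c 24 4099 r (u 16 1 (k v (k v r)))) (k (c 16 4097 r (u 24 1 (k v (k v r)))) (k (c 16 4095 r (u 24 0 (k v (k v r)))) (k (c 16 4095 r (u 24 0 (k v (k v r)))) r))))))
 .z .z)) (.s 0xee75fe00b8475445110 4088 (n false (n false (n true (z 121) e) (n false (n true (n false e e) e) (n false e e))) (n true (n false (n false (n false (n false e e) (n false e e)) (n false (n false e e) (n false e e))) (n false e e)) e)) (u 8 1 (k v (k (c 24 4099 r (u 16 1 (k v (k v r)))) (k (c 16 4097 r (u 24 1 (k v (k v r)))) (k (c 16 4095 r (u 24 0 (k v (k v r)))) (k (c 16 4095 r (u 24 0 (k v (k v r)))) r))))))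
 (.s 0xee75fe00aa22888fe80 4087 (n false (n true (n true (n true (n false (n false e e) e) e) e) e) (n false (n true (z 121) e) (n false (n false (n false (n false e e) (n false e e)) (n false (n false e e) (n false e e))) (n false e e)))) (u 9 1 (k v (k (c 25 4099 r (u 17 1 (k v (k v r)))) (k (c 17 4097 r (u 25 1 (k v (k v r)))) (k (c 17 4095 r (u 25 0 (k v (k v r)))) (k (c 17 4095 r (u 25 0 (k v (k v r)))) r))))))
 .z .z) .z)) (.s 0xee7f76009d7d805d108 4079 (n false (n false (n true (z 87) e) (z 89)) (n false (n true (n false (n false e e) (n false e e)) e) (n false e e))) (u 8 1 (k r (k (u 6 48 (k v (k v (k v (k (c 14 4099 r (u 10 0 (k (u 18 309 (k v (k v (k v (k v (k v (k v r))))))) (k (c 18 4096 r (u 26 0 (k v (k v r)))) (k (u 18 1 (k v (k v r))) (k (c 26 4096 r (u 18 308 (k v (k v (k v (k v (k v (k v (k v r))))))))) r)))))) r))))) r)))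
 (.s 0xee7d5c0095df005d108 4084 (n false (n false (z 52) (n true (z 35) e)) (n false (n true (n false (n false e e) (n false e e)) e) (n false e e))) (u 10 2 (k r (k r (k (t 4 1 v) (k (t 26 1 (u 18 0 (k (t 34 3 (t 50 1 (u 4 26 (k v (k v (k v r)))))) r))) r)))))
 (.s 0xee777600aa22888ee10 4088 (n false (n false (n true (z 85) e) (n false (n false (n false (n false e e) (n false e e)) (n false (n false e e) (n false e e))) (n false e e))) (n true (n false (n true (n false e e) e) (n false e e)) e)) (u 8 18 (k v (k v (k v (k (c 10 4101 v (c 3 4091 v r)) (k (c 24 4097 r (c 10 4101 v (u 16 17 (k v (k v (k (u 32 12 (k v (k v r))) (k (c 48 4096 r (c 3 4091 v (c 8 4088 r v))) (k (c 32 4099 r (u 48 67 (k v (k v (k v (k v (k v r))))))) r)))))))) r))))))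
 .z .z) (.s 0xee7f5600b8475445110 4088 (n false (n false (n true (z 71) e) (n false (n true (n false e e) e) (n false e e))) (n true (n false (n false (n false (n false e e) (n false e e)) (n false (n false e e) (n false e e))) (n false e e)) e)) (u 8 1 (k v (k (c 24 4099 r (u 16 1 (k v (k v r)))) (k (u 16 0 (k v (k v r))) (k (c 16 4099 r (u 24 1 (k v (k v r)))) (k (c 16 4099 r (u 24 1 (k v (k v r)))) (k (c 16 4099 r (u 24 1 (k v (k v r)))) r)))))))
 .z .z)) (.s 0xee7f7600aa22888fe80 4089 (n false (n false (n true (z 87) e) (n false (n false (n false (n false e e) (n false e e)) (n false (n false e e) (n false e e))) (n false e e))) (n true (n true (n true (n false (n false e e) e) e) e) e)) (u 8 25 (k v (k v (k v (k v r)))))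
 (.s 0xee7f76009f7f805d108 4081 (n false (n false (z 123) (n true (z 87) e)) (n false (n true (n false (n false e e) (n false e e)) e) (n false e e))) (u 10 1 (k r (k (u 4 59 (k v (k v (k (c 12 4099 r (u 8 5 (k v (k v (k v (k (t 24 2 (u 16 26 (k v (k v (k v r))))) r)))))) (k r r))))) r)))
 .z .z) .z))) (.s 0xee9f75004bbe8011708 4075 (n false (n false (n true (n false (z 26) (z 11)) e) (n false e e)) (n false (n true (n false e e) e) (n false e e))) (t 24 3 (u 16 0 (k v (k v (k (c 40 4099 v (u 32 1 (k v (k v r)))) r)))))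
 (.s 0xee95fd40095df002288 4083 (n false (n false (n true (n false (z 156) (z 52)) e) (n false e e)) (n false (n false e e) (n false e e))) (u 16 1 (k r (k (c 48 4099 r r) (k (c 32 4098 r r) (k (c 32 4097 r (t 24 1 r)) (k (c 32 4099 r r) (k (c 32 4095 r (t 24 1 (c 4 4080 r v))) r)))))))
 (.s 0xee7f7e00ee10aa22888 4079 (n false (n false (n true (z 119) e) (n true (n false (n true (n false e e) e) (n false e e)) e)) (n false (n false (n false (n false e e) (n false e e)) (n false (n false e e) (n false e e))) (n false e e))) (u 8 23 (k v (k v (k (c 24 4101 r r) (k (c 24 4099 r r) (k (c 24 4097 r r) (k (c 24 4096 r (u 16 0 (k (u 32 0 (k v (k v r))) r))) (k (c 16 4098 r r) (k (c 16 4101 r r) (k (c 16 4099 r r) (k (c 16 4101 r r) r)))))))))))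
 (.s 0xee7f7c00aa22888ee10 4086 (n false (n false (n true (z 55) e) (n false (n false (n false (n false e e) (n false e e)) (n false (n false e e) (n false e e))) (n false e e))) (n true (n false (n true (n false e e) e) (n false e e)) e)) (c 2 4091 (c 3 4099 v r) v)
 .z .z) (.s 0xee955f004aaa8011708 4073 (n false (n false (n true (n false (z 48) (z 0)) e) (n false e e)) (n false (n true (n false e e) e) (n false e e))) (t 24 1 (u 16 3 (k v (k r (k r (k (c 48 4099 r (t 32 3 v)) (k (u 32 4 (k v (k (t 96 1 (u 64 7 (k v (k (u 128 20 (k v (k v (k v r)))) (k (u 128 16 (k v (k v (k v r)))) (k (u 128 3 (k v (k v r))) r)))))) r))) (k (u 32 4 (k v (k (t 96 1 (u 64 7 (k v (k (u 128 17 (k v (k v (k v r)))) (k (u 128 18 (k v (k v (k v (k v r))))) (k (u 128 3 (k v (k v r))) r)))))) r))) r))))))))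
 .z .z)) (.s 0xee95fd400e0ea88a220 4084 (n false (n false (n true (n false (z 156) (n true (n false e e) e)) e) (n true (n false (n false (n false (n false e e) (n false e e)) (n false (n false e e) (n false e e))) (n false e e)) e)) e) (u 16 14 (k v (k v (k (c 48 4099 r (u 32 1 (k v (k v r)))) (k (c 32 4099 r (u 48 1 (k v (k v r)))) (k (c 32 4095 r (u 48 0 (k v (k v r)))) r))))))
 (.s 0xee95fd4009f5f002288 4085 (n false (n false (n true (n false (z 156) (z 51)) e) (n false e e)) (n false (n false e e) (n false e e))) (t 24 1 (u 16 1 (k v (k (c 48 4099 r (u 32 1 (k v (k v r)))) (k (c 32 4098 r (u 48 1 (k v (k v r)))) (k (c 32 4097 r (u 48 1 (k v (k v r)))) (k (c 32 4099 r (u 48 1 (k v (k v r)))) (k (c 32 4095 r (u 48 0 (k v (k v r)))) r))))))))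
 .z .z) .z)) (.s 0xeea7d5c0095df002288 4083 (n false (n false (n true (n false (z 52) (n false (z 35) e)) e) (n false e e)) (n false (n false e e) (n false e e))) (u 40 2 (k r (k (u 16 138 (k v (k v (k v r)))) (k (t 16 1 v) (k (t 104 1 (u 72 0 (k (t 136 3 (t 200 1 (u 16 136 (k v (k v (k v (k v r))))))) r))) r)))))
 (.s 0xeea5ffe008754451108 4084 (n false (n false (n true (n false (n false (z 126) e) (n false e e)) e) (n true (n false (n false (n false (n false e e) (n false e e)) (n false (n false e e) (n false e e))) (n false e e)) e)) (n false e e)) (c 10 4099 v (u 32 3 (k v (k (t 96 1 (u 64 0 (k v (k v (k (c 192 4099 r (u 128 0 (k v (k v r)))) r))))) (k (t 96 1 (u 64 0 (k v (k v (k (c 192 4099 r (u 128 8 (k v (k v (k v r))))) r))))) r)))))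
 (.s 0xeea22885445112efa00 4091 (n false (z 26) (n false (n true (n false (n false (n false e e) (n false e e)) (n false (n false e e) (n false e e))) e) (n false (n false (n false e e) (n false e e)) (n false (n false e e) (n false e e))))) (u 2 10 (k v (k v (k (u 4 5 (k v (k v r))) r))))
 .z .z) (.s 0xeea777c008754451108 4084 (n false (n false (n true (n false (n false (z 53) e) (n false e e)) e) (n true (n false (n false (n false (n false e e) (n false e e)) (n false (n false e e) (n false e e))) (n false e e)) e)) (n false e e)) (u 32 0 (k (t 96 1 (u 64 29 (k v (k v (k v (k (c 10 4099 v (u 128 0 (k v (k v r)))) (k (c 192 4097 r (u 128 0 (k v (k v r)))) r))))))) (k (t 96 1 (c 10 4099 v (u 64 49 (k v (k v (k (c 192 4099 r (u 128 315 (k v (k v (k v (k v (k v (k v r)))))))) (k (t 192 1 (u 128 3 (k v (k v r)))) (k (u 128 3 (k v (k v r))) (k (c 192 4096 r (u 128 8 (k v (k v r)))) r))))))))) r)))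
 .z .z)) (.s 0xeea7d7c013aff00e088 4072 (n false (n false (n true (n false (n false (z 51) (z 121)) (n true (n false e e) e)) e) (n false e e)) (n false e e)) (t 32 1 (u 48 2 (k v (k v (k (c 112 4099 r (u 80 1 (k v (k v r)))) (k (c 80 4095 r (u 112 0 (k v (k v r)))) (k (c 80 4095 r (u 112 0 (k v (k v r)))) r)))))))
 (.s 0xeea7d7c012fee00e088 4072 (n false (n false (n true (n false (n false (z 46) (z 51)) (n true (n false e e) e)) e) (n false e e)) (n false e e)) (t 48 1 (u 32 2 (k v (k (c 96 4099 r (u 64 0 (k v (k v r)))) (k (u 64 1 (k v (k v r))) (k (u 64 0 (k v (k v r))) (k (c 96 4097 r (u 64 1 (k v (k v r)))) (k (c 64 4095 r (u 96 1 (k v (k v r)))) r))))))))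
 .z .z) .z))))

set_option maxRecDepth 100000 in
def N177 : NT :=
(.s 0xeea88a221708e7d5600 4085 (n false (n true (z 67) e) (n false (n false (n true (n false e e) e) (n false e e)) (n true (n false (n false (n false (n false e e) (n false e e)) (n false (n false e e) (n false e e))) (n false e e)) e))) (u 4 52 (k v (k v (k v (k v (k r (k (u 8 2 (k (t 12 1 v) (k (u 12 0 (k v (k v r))) r))) (k r (k (c 2 4088 r v) (k (c 11 4099 v (c 9 4094 v (u 12 0 (k r (k r r))))) (k (t 12 1 (u 8 2 (k v (k (c 24 4097 r (u 16 0 (k v (k v r)))) r)))) (k (c 2 4091 (t 6 2 (u 4 0 (k r r))) v) (k r (k r (k (c 2 4091 (t 4 1 (u 6 0 (k r r))) v) (k (c 9 4094 v (c 11 4099 v r)) (k r (k (c 9 4094 v (c 11 4099 v r)) r))))))))))))))))))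
 (.s 0xeea88a2212aaa801708 4075 (n false (n false (z 128) (n true (n false (n false (n false (n false e e) (n false e e)) (n false (n false e e) (n false e e))) (n false e e)) e)) (n false (n true (n false e e) e) (n false e e))) (u 4 4 (k v (k (c 12 4097 r r) (k (c 8 4095 r r) (k (c 8 4098 r (u 12 0 (k (u 20 0 (k v (k v r))) r))) (k (c 12 4099 r r) (k (c 8 4096 r r) (k (c 8 4095 r (u 12 1 (k v (k (c 28 4097 r (u 20 0 (k v (k v r)))) r)))) (k (c 8 4095 r r) (k (c 8 4095 r (u 12 0 (k v (k v r)))) (k (c 12 4095 r r) (k (c 12 4095 r (u 8 1 (k v (k v r)))) (k (c 8 4097 r (u 12 0 (k v (k v r)))) (k (c 8 4095 r r) (k (c 8 4095 r (u 12 1 (k v (k v r)))) (k (c 8 4097 r r) r))))))))))))))))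
 (.s 0xeea88a221172afe0070 4084 (n false (n false (n true (z 56) e) (n true (n false e e) e)) (n false (n true (n false (n false (n false (n false e e) (n false e e)) (n false (n false e e) (n false e e))) (n false e e)) e) (n false e e))) (c 9 4099 v (c 6 4094 v (u 8 1 (k (u 16 1 (k v (k v r))) (k (u 16 422 (k v (k v (k v (k v (k v (k v (k v (k (c 8 4087 (t 6 2 r) v) (k (c 8 4087 (t 6 1 r) v) r)))))))))) (k (c 16 4096 r (u 24 0 (k v (k v r)))) (k (c 24 4096 r r) r)))))))
 (.s 0xeea88a22115cbaf8008 4083 (n false (n false (n false (n true (z 50) e) e) (n false e e)) (n false (n true (n false (n false (n false (n false e e) (n false e e)) (n false (n false e e) (n false e e))) (n false e e)) e) (n false e e))) (u 16 1 (k v (k (c 48 4097 r (u 32 0 (k v (k v r)))) r)))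
 (.s 0xeea88a22114afea0070 4080 (n false (n false (z 156) (n true (n false e e) e)) (n false (n true (n false (n false (n false (n false e e) (n false e e)) (n false (n false e e) (n false e e))) (n false e e)) e) (n false e e))) (u 4 1 (k v (k (c 12 4099 r (u 8 1 (k v (k v r)))) (k (c 8 4098 r (u 12 1 (k v (k v r)))) (k (c 8 4097 r (u 12 1 (k v (k v r)))) (k (c 8 4099 r (u 12 1 (k v (k v r)))) (k (c 8 4095 r (u 12 0 (k v (k v r)))) r)))))))
 .z .z) (.s 0xeea88a22115cbfb8008 4086 (n false (n false (n false (n true (z 46) e) e) (n false e e)) (n false (n true (n false (n false (n false (n false e e) (n false e e)) (n false (n false e e) (n false e e))) (n false e e)) e) (n false e e))) (u 16 2 (k v (k (c 48 4099 r (u 32 0 (k v (k v r)))) (k (u 32 1 (k v (k v r))) (k (u 32 1 (k v (k v r))) (k (c 48 4097 r (u 32 1 (k v (k v r)))) (k (c 32 4095 r (u 48 1 (k v (k v r)))) r)))))))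
 .z .z)) (.s 0xeea88a221174ebfc008 4083 (n false (n false (n true (n false (z 121) e) e) (n false e e)) (n false (n true (n false (n false (n false (n false e e) (n false e e)) (n false (n false e e) (n false e e))) (n false e e)) e) (n false e e))) (u 16 1 (k v (k (c 48 4099 r (u 32 1 (k v (k v r)))) (k (c 32 4097 r (c 4 4085 r v)) (k (c 32 4095 r (c 4 4076 r v)) (k (c 32 4095 r (c 4 4076 r v)) r))))))
 (.s 0xeea88a221172bbe0070 4078 (n false (n false (n true (z 52) e) (n true (n false e e) e)) (n false (n true (n false (n false (n false (n false e e) (n false e e)) (n false (n false e e) (n false e e))) (n false e e)) e) (n false e e))) (u 8 256 (k v (k v (k v (k v (k (t 24 1 (u 16 0 (k v (k v r)))) r))))))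
 .z .z) .z)) (.s 0xeea88a2213bbb00ee10 4080 (n false (n false (z 85) (n true (n false (n false (n false (n false e e) (n false e e)) (n false (n false e e) (n false e e))) (n false e e)) e)) (n true (n false (n true (n false e e) e) (n false e e)) e)) (u 4 34 (k v (k v (k (c 12 4099 r r) (k (c 12 4099 r (u 8 7 (k v (k v r)))) (k (c 8 4099 r r) r))))))
 (.s 0xeea88a2212bfa801d10 4088 (n false (n false (z 156) (n true (n false (n false (n false (n false e e) (n false e e)) (n false (n false e e) (n false e e))) (n false e e)) e)) (n true (n false (n false e e) (n false e e)) e)) (u 4 0 (k v (k (c 12 4099 r (u 8 0 (k v (k v r)))) r)))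
 (.s 0xeea88a2212bfa801708 4079 (n false (n false (z 156) (n true (n false (n false (n false (n false e e) (n false e e)) (n false (n false e e) (n false e e))) (n false e e)) e)) (n false (n true (n false e e) e) (n false e e))) (u 4 1 (k v (k (c 12 4099 r (u 8 1 (k v (k v r)))) (k (c 8 4098 r (u 12 1 (k v (k v r)))) (k (c 8 4097 r (u 12 1 (k v (k v r)))) (k (c 8 4099 r (u 12 1 (k v (k v r)))) (k (c 8 4095 r (u 12 0 (k v (k v r)))) r)))))))
 .z .z) (.s 0xeea88a2213bba801708 4084 (n false (n false (z 149) (n true (n false (n false (n false (n false e e) (n false e e)) (n false (n false e e) (n false e e))) (n false e e)) e)) (n false (n true (n false e e) e) (n false e e))) (u 4 5 (k v (k v (k (c 12 4099 r (u 8 54 (k v (k v (k v (k v r)))))) (k (c 8 4099 r (u 12 0 (k (u 20 0 (k v (k v r))) r))) (k (c 12 4102 r (u 8 1 (k v (k v (k v (k (u 16 0 (k v (k v r))) (k (c 16 4097 r (u 24 0 (k v (k v r)))) (k (c 16 4095 r (u 24 0 (k v (k v r)))) r)))))))) (k (c 12 4102 r (u 8 2 (k v (k v (k (c 24 4097 r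 (u 16 1 (k v (k v r)))) (k (c 24 4096 r (u 16 1 (k v (k v r)))) (k (c 24 4097 r (u 16 1 (k v (k v r)))) (k (c 24 4099 r (u 16 1 (k v (k v r)))) r)))))))) r)))))))
 .z .z)) (.s 0xeea88a221708a577c00 4089 (n false (n false (z 52) e) (n false (n false (n true (n false e e) e) (n false e e)) (n true (n false (n false (n false (n false e e) (n false e e)) (n false (n false e e) (n false e e))) (n false e e)) e))) (u 4 191 (k v (k v (k v (k v (k v r))))))
 (.s 0xeea88a2214fab801d10 4079 (n false (n false (n false (z 35) e) (n true (n false (n false (n false (n false e e) (n false e e)) (n false (n false e e) (n false e e))) (n false e e)) e)) (n true (n false (n false e e) (n false e e)) e)) (u 8 9 (k v (k v (k (t 24 1 (u 16 0 (k (t 32 3 (t 48 1 v)) r))) r))))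
 .z .z) .z))) (.s 0xeea88a221cefb801708 4080 (n false (n false (n true (z 45) e) (n true (n false (n false (n false (n false e e) (n false e e)) (n false (n false e e) (n false e e))) (n false e e)) e)) (n false (n true (n false e e) e) (n false e e))) (u 8 4 (k v (k (t 24 1 (u 16 2 (k v (k v r)))) r)))
 (.s 0xeea88a221caef801708 4074 (n false (n false (n true (z 52) e) (n true (n false (n false (n false (n false e e) (n false e e)) (n false (n false e e) (n false e e))) (n false e e)) e)) (n false (n true (n false e e) e) (n false e e))) (u 8 68 (k v (k v (k v (k v (k v (k v (k v (k v (k (t 24 2 (u 16 0 (k (u 32 2 (k v (k (c 4 4078 (u 16 1 (k v (k v r))) v) r))) r))) (k (t 24 1 (u 16 0 (k (c 48 4099 r (u 32 2 (k v (k (c 4 4078 (u 16 1 (k v (k v r))) v) r)))) r))) r)))))))))))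
 (.s 0xeea88a221c2a7ddc010 4075 (n false (n false (n false (z 43) (n false e e)) e) (n false (n true (n false (n false (n false (n false e e) (n false e e)) (n false (n false e e) (n false e e))) (n false e e)) e) (n true (n false e e) e))) (c 9 4099 v (u 8 0 (k v (k r (k (c 24 4099 r (u 16 0 (k (u 32 0 (k v (k v r))) r))) (k r (k r (k (u 16 0 (k (u 32 0 (k v (k v r))) r)) (k r (k r r))))))))))
 (.s 0xeea88a221c2977d0070 4079 (n false (n false (z 26) (n true (n false e e) e)) (n false (n true (n false (n false (n false (n false e e) (n false e e)) (n false (n false e e) (n false e e))) (n false e e)) e) (n true (n false e e) e))) (u 4 15 (k v (k v (k (c 9 4099 v (u 8 9 (k v (k v (k v r))))) r))))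
 .z .z) (.s 0xeea88a221caabc01708 4072 (n false (n false (n true (z 96) e) (n true (n false (n false (n false (n false e e) (n false e e)) (n false (n false e e) (n false e e))) (n false e e)) e)) (n false (n true (n false e e) e) (n false e e))) (u 8 0 (k (t 24 2 (u 16 0 (k (t 48 2 (u 32 2 (k v (k (c 16 4082 r v) r)))) r))) r))
 .z .z)) (.s 0xeea88a221ceeec01708 4076 (n false (n false (n true (z 85) e) (n true (n false (n false (n false (n false e e) (n false e e)) (n false (n false e e) (n false e e))) (n false e e)) e)) (n false (n true (n false e e) e) (n false e e))) (u 8 4 (k v (k (c 24 4099 r r) (k (c 24 4099 r r) (k (c 24 4099 r (u 16 1 (k v (k v (k v (k (t 48 1 (u 32 6 (k v (k v (k (t 96 1 (u 64 0 (k v (k v r)))) r))))) r)))))) (k (u 16 2 (k v (k v (k v (k (t 48 2 (u 32 6 (k v (k v (k (t 96 1 (u 64 0 (k v (k v r)))) r))))) r))))) (k (c 24 4096 r r) (k (c 16 4099 r r) r))))))))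
 (.s 0xeea88a221cbfb801708 4076 (n false (n false (n true (z 46) e) (n true (n false (n false (n false (n false e e) (n false e e)) (n false (n false e e) (n false e e))) (n false e e)) e)) (n false (n true (n false e e) e) (n false e e))) (u 8 2 (k v (k (c 24 4099 r (u 16 0 (k v (k v r)))) (k (u 16 1 (k v (k v r))) (k (u 16 0 (k v (k v r))) (k (c 24 4097 r (u 16 1 (k v (k v r)))) (k (c 16 4095 r (u 24 1 (k v (k v r)))) r)))))))
 .z .z) .z)) (.s 0xeea97f7004aaa8010e0 4078 (n false (n false (n true (n false (n false (n false (z 46) (z 0)) e) (n false e e)) e) (n true (n false e e) e)) e) (t 96 1 (u 64 2 (k v (k (c 192 4099 r (u 128 0 (k v (k v r)))) (k (u 128 0 (k v (k v r))) (k (u 128 0 (k v (k v r))) (k (c 192 4097 r (u 128 0 (k v (k v r)))) (k (c 128 4095 r (u 192 0 (k v (k v r)))) r))))))))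
 (.s 0xeea88a221cfef801708 4073 (n false (n false (n true (z 55) e) (n true (n false (n false (n false (n false e e) (n false e e)) (n false (n false e e) (n false e e))) (n false e e)) e)) (n false (n true (n false e e) e) (n false e e))) (u 8 4 (k (t 24 1 (u 16 14 (k v (k (c 48 4099 r (t 32 3 v)) (k (u 32 4 (k v (k (t 96 1 (u 64 4 (k v (k v r)))) r))) (k (u 32 4 (k v (k (t 96 1 (u 64 4 (k v (k v r)))) r))) (k (c 10 4099 v r) (k (c 10 4099 v r) r)))))))) (k (t 24 2 (u 16 2 (k v (k (u 32 6 (k v (k v r))) r)))) r)))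
 (.s 0xeea88a221cfab801d10 4081 (n false (n false (n true (z 35) e) (n true (n false (n false (n false (n false e e) (n false e e)) (n false (n false e e) (n false e e))) (n false e e)) e)) (n true (n false (n false e e) (n false e e)) e)) (u 8 21 (k v (k v (k v (k (t 24 1 (u 16 0 (k (t 32 3 (t 48 1 v)) r))) r)))))
 .z .z) (.s 0xeea88a221cfefc01708 4080 (n false (n false (n true (z 119) e) (n true (n false (n false (n false (n false e e) (n false e e)) (n false (n false e e) (n false e e))) (n false e e)) e)) (n false (n true (n false e e) e) (n false e e))) (u 8 22 (k v (k v (k (c 24 4101 r r) (k (c 24 4099 r r) (k (c 24 4096 r (u 16 0 (k (u 32 125 (k v (k v r))) r))) (k (c 16 4098 r r) (k (c 16 4101 r r) (k (c 16 4099 r r) (k (c 16 4101 r r) r))))))))))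
 .z .z)) (.s 0xeeae95df004210e1708 4059 (n false (n false (n true (n false (n false (n false (n true (n false (z 52) (n false e e)) e) (n false e e)) e) (n false e e)) e) (n true (n false e e) e)) (n false (n true (n false e e) e) (n false e e))) (u 256 6 (k v (k v (k (t 768 1 (u 512 6 (k v (k v r)))) r))))
 (.s 0xeea9ddd804aaa8010e0 4078 (n false (n false (n true (n false (n false (n false (z 85) (z 0)) e) (n false e e)) e) (n true (n false e e) e)) e) (t 96 1 (u 64 24 (k v (k (c 192 4099 r (u 128 295 (k v (k v (k v (k v (k v (k v (k v r))))))))) (k (c 192 4099 r r) (k (c 192 4099 r (u 128 9 (k v (k v (k v (k (t 384 1 (u 256 6 (k v (k v (k (t 768 1 (u 512 2 (k v (k v r)))) r))))) r)))))) (k (u 128 22 (k v (k v (k v r)))) (k (c 192 4096 r r) r))))))))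
 .z .z) .z))))

set_option maxRecDepth 100000 in
def N178 : NT :=
(.s 0xef97f7001c3ea88a220 4086 (n false (n false (n true (n true (z 46) e) e) (n true (n false e e) e)) (n true (n true (n false (n false (n false (n false e e) (n false e e)) (n false (n false e e) (n false e e))) (n false e e)) e) e)) (u 16 0 (k v (k (u 32 1 (k v (k v r))) (k (u 32 1 (k v (k v r))) (k (c 48 4099 r (u 32 0 (k v (k v r)))) (k (c 48 4097 r (u 32 1 (k v (k v r)))) (k (c 32 4095 r (u 48 1 (k v (k v r)))) r)))))))
 (.s 0xeee97dd0010ea88a220 4081 (n false (n false (n true (n false (n true (n false (z 22) e) e) (n false e e)) e) (n true (n false (n false (n false (n false e e) (n false e e)) (n false (n false e e) (n false e e))) (n false e e)) e)) e) (c 16 4084 (u 4 1 (k v (k v r))) v)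
 (.s 0xeee7f7600847cfeec00 4080 (n false (n false (n true (n false (n true (z 87) e) (n false e e)) e) (n false e e)) (n true (n true (z 87) e) e)) (u 32 1 (k (u 9 1 (k v (k v r))) (k (u 9 1 (k v (k v r))) r)))
 (.s 0xeee5fd40095df002288 4080 (n false (n false (n true (n false (z 52) (n true (z 14) e)) e) (n false e e)) (n false (n false e e) (n false e e))) (u 40 0 (k r (k (u 16 26 (k v (k v (k v r)))) r)))
 (.s 0xeee577c00e08aa22888 4074 (n false (n false (n true (n false (n true (z 52) e) (n true (n false e e) e)) e) (n false e e)) (n false (n false (n false (n false e e) (n false e e)) (n false (n false e e) (n false e e))) (n false e e))) (u 32 421 (k v (k v (k v (k v (k v (k (t 96 1 (u 64 0 (k v (k v r)))) r)))))))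
 .z .z) (.s 0xeee7d5c0095df002288 4085 (n false (n false (n true (n false (z 52) (n true (z 35) e)) e) (n false e e)) (n false (n false e e) (n false e e))) (u 40 2 (k r (k (u 16 26 (k v (k v (k v r)))) (k (t 16 1 v) (k (t 104 1 (u 72 0 (k (t 136 3 (t 200 1 (u 16 26 (k v (k v (k v r)))))) r))) r)))))
 .z .z)) (.s 0xeee7f7c00e08aa22888 4074 (n false (n false (n true (n false (n true (z 55) e) (n true (n false e e) e)) e) (n false e e)) (n false (n false (n false (n false e e) (n false e e)) (n false (n false e e) (n false e e))) (n false e e))) (u 32 6 (k v (k (t 96 1 (u 64 40 (k v (k (t 128 3 (t 192 1 v)) r)))) r)))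
 (.s 0xeee7f760095df002288 4080 (n false (n false (n true (n false (z 52) (n true (z 87) e)) e) (n false e e)) (n false (n false e e) (n false e e))) (u 16 362 (k (u 40 1 (k v (k v r))) (k (u 40 1 (k v (k v r))) (k (u 40 1 (k v (k v r))) (k (u 40 1 (k v (k v r))) r)))))
 .z .z) .z)) (.s 0xef95df001511445d070 4070 (n false (n false (n true (n true (z 52) e) e) (n false (n false (n false e e) (n false e e)) (n false (n false e e) (n false e e)))) (n false (n true (n false (n false e e) e) e) (n true (n false e e) e))) (u 16 238 (k v (k v (k v (k v (k v (k v (k v r))))))))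
 (.s 0xeeea88a221c14fab800 4082 (n false (n false (n true (n false (n true (n false (n false (n false (n false e e) (n false e e)) (n false (n false e e) (n false e e))) (n false e e)) e) (n true (n false e e) e)) e) (n false (z 35) e)) e) (u 10 9 (k v (k v (k (t 26 1 (u 18 0 (k (t 34 3 (t 50 1 v)) r))) r))))
 (.s 0xeeea88a220452eef008 4086 (n false (n false (z 106) (n false e e)) (n false (n true (n false (n true (n false (n false (n false (n false e e) (n false e e)) (n false (n false e e) (n false e e))) (n false e e)) e) e) e) (n false e e))) (u 4 21 (k v (k v (k (t 12 3 (u 8 114 (k v (k (c 24 4099 r (u 16 2 (k v (k v r)))) (k (c 24 4101 r r) (k (c 24 4099 r (c 33 4099 v (u 16 10 (k v (k v (k v (k (c 48 4099 r (u 32 1 (k v (k v r)))) r))))))) (k (c 16 4101 r r) (k (c 24 4099 r (c 33 4099 v (u 16 4 (k v (k (c 48 4099 r (u 32 1 (k v (k v r)))) r))))) (k (c 16 4101 r r) r))))))))) r))))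
 .z .z) (.s 0xeeea88a221c1cfef800 4075 (n false (n false (n true (z 55) e) (n true (n false (n true (n false (n false (n false (n false e e) (n false e e)) (n false (n false e e) (n false e e))) (n false e e)) e) (n true (n false e e) e)) e)) e) (u 8 4 (k (t 24 1 (u 16 14 (k v (k (c 48 4099 r (t 32 3 v)) (k (c 34 4099 v r) (k (u 32 4 (k v (k (t 96 1 (u 64 4 (k v (k v r)))) r))) (k (c 34 4099 v r) (k (c 34 4099 v r) r)))))))) (k (t 24 3 (c 34 4099 v r)) r)))
 .z .z)) (.s 0xef97f70011754451108 4086 (n false (n false (n true (n true (z 46) e) e) (n false e e)) (n false (n true (n false (n false (n false (n false e e) (n false e e)) (n false (n false e e) (n false e e))) (n false e e)) e) (n false e e))) (u 16 2 (k v (k (c 48 4099 r (u 32 0 (k v (k v r)))) (k (u 32 1 (k v (k v r))) (k (u 32 1 (k v (k v r))) (k (c 48 4097 r (u 32 1 (k v (k v r)))) (k (c 32 4095 r (u 48 1 (k v (k v r)))) r)))))))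
 (.s 0xef95fd4003875445110 4092 (n false (n false (n true (n true (z 156) e) e) (n true (n false e e) e)) (n true (n false (n false (n false (n false e e) (n false e e)) (n false (n false e e) (n false e e))) (n false e e)) e)) (u 16 1 (k v (k (c 48 4099 r (u 32 1 (k v (k v r)))) (k (c 32 4098 r (u 48 1 (k v (k v r)))) (k (c 32 4097 r (u 48 1 (k v (k v r)))) (k (c 32 4099 r (u 48 1 (k v (k v r)))) (k (c 32 4095 r (u 48 0 (k v (k v r)))) r)))))))
 .z .z) .z))) (.s 0xefaa2288822e575e008 4082 (n false (n false (n true (z 100) e) (n false e e)) (n false (n true (n true (n false (n false (n false (n false e e) (n false e e)) (n false (n false e e) (n false e e))) (n false e e)) e) e) (n false e e))) (u 8 4 (k v (k (t 24 1 (u 16 1 (k v (k v r)))) (k (c 4 4093 (t 6 1 r) v) (k (t 24 1 (u 16 29 (k v (k v (k v (k (c 48 4099 r (u 32 1 (k v (k v r)))) r)))))) (k (t 24 1 (u 16 19 (k v (k v (k (c 48 4099 r (u 32 1 (k v (k v r)))) (k (c 32 4099 r (u 48 1 (k v (k v r)))) (k (c 32 4095 r (c 4 4080 r v)) r)))))))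 r))))))
 (.s 0xefa5fd400387cbbb800 4085 (n false (n false (n true (n true (n false (z 14) e) e) e) (n true (n false e e) e)) (n true (n true (z 42) e) e)) (u 9 1 (k (u 32 0 (k v (k v r))) (k (u 32 0 (k v (k v r))) r)))
 (.s 0xefa5fd4003872aaa800 4082 (n false (n false (n true (n true (n false (z 14) e) e) e) (n true (n false e e) e)) (n true (z 128) e)) (u 5 23 (k (u 32 0 (k v (k v r))) (k r (k (u 32 0 (k v (k v r))) (k (c 13 4097 r r) (k (c 13 4095 r r) (k (c 9 4095 r r) r)))))))
 (.s 0xef9d7f801c3ea88a220 4087 (n false (n false (n true (n true (z 121) e) e) (n true (n false e e) e)) (n true (n true (n false (n false (n false (n false e e) (n false e e)) (n false (n false e e) (n false e e))) (n false e e)) e) e)) (u 16 1 (k v (k (c 48 4099 r (u 32 1 (k v (k v r)))) (k (c 32 4097 r (u 48 1 (k v (k v r)))) (k (c 32 4095 r (u 48 0 (k v (k v r)))) (k (c 32 4095 r (u 48 0 (k v (k v r)))) r))))))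
 .z .z) (.s 0xefa5fd400387caef800 4081 (n false (n false (n true (n true (n false (z 14) e) e) e) (n true (n false e e) e)) (n true (n true (z 52) e) e)) (u 9 129 (k (u 32 0 (k v (k v r))) (k (u 32 0 (k v (k v r))) (k (u 32 0 (k v (k v r))) (k (u 32 0 (k v (k v r))) (k (c 8 4095 (c 4 4097 r v) v) r))))))
 .z .z)) (.s 0xefa75f60023ea88a220 4077 (n false (n false (n true (n true (n false (z 89) e) e) e) (n false e e)) (n true (n true (n false (n false (n false (n false e e) (n false e e)) (n false (n false e e) (n false e e))) (n false e e)) e) e)) (u 32 2 (k v (k v (k v (k (t 96 2 (u 64 6 (k v (k v (k (t 192 1 (u 128 0 (k v (k v r)))) r))))) r)))))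
 (.s 0xefa5fd400387cfeec00 4083 (n false (n false (n true (n true (n false (z 14) e) e) e) (n true (n false e e) e)) (n true (n true (z 87) e) e)) (u 9 1 (k (u 32 0 (k v (k v r))) (k (u 32 0 (k v (k v r))) r)))
 .z .z) .z)) (.s 0xefaa22888387caef800 4086 (n false (n true (n true (z 52) e) e) (n false (n true (n true (n false (n false (n false (n false e e) (n false e e)) (n false (n false e e) (n false e e))) (n false e e)) e) e) (n true (n false e e) e))) (u 8 318 (k v (k v (k v (k v (k v (k v (k (t 24 1 (u 16 0 (k v (k v r)))) r))))))))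
 (.s 0xefaa2288822e7dde008 4075 (n false (n false (n true (z 107) e) (n false e e)) (n false (n true (n true (n false (n false (n false (n false e e) (n false e e)) (n false (n false e e) (n false e e))) (n false e e)) e) e) (n false e e))) (u 8 3 (k v (k r (k r (k (t 24 1 (u 16 0 (k (c 4 4080 r v) r))) r)))))
 (.s 0xefaa2288822e7d56008 4086 (n false (n false (n true (z 67) e) (n false e e)) (n false (n true (n true (n false (n false (n false (n false e e) (n false e e)) (n false (n false e e) (n false e e))) (n false e e)) e) e) (n false e e))) (c 17 4099 v (c 3 4092 v r))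
 .z .z) (.s 0xefaa2288823f95df000 4082 (n false (n true (n true (n true (z 52) e) e) e) (n false (n true (n true (n false (n false (n false (n false e e) (n false e e)) (n false (n false e e) (n false e e))) (n false e e)) e) e) (n false e e))) (u 16 356 (k v (k v (k v (k v (k v (k v (k v r))))))))
 .z .z)) (.s 0xefaa5fdc012aaa00410 4075 (n false (n false (n true (n true (n false (n false (n false (z 46) (z 0)) e) (n false e e)) e) e) (n false e e)) e) (t 192 1 (u 128 1 (k v (k (u 256 1 (k v (k v r))) (k (c 384 4099 r (u 256 0 (k v (k v r)))) (k (u 256 1 (k v (k v r))) (k (c 384 4097 r (u 256 1 (k v (k v r)))) (k (c 256 4095 r (u 384 1 (k v (k v r)))) r))))))))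
 (.s 0xefaa22888387cfaf800 4086 (n false (n true (n true (z 51) e) e) (n false (n true (n true (n false (n false (n false (n false e e) (n false e e)) (n false (n false e e) (n false e e))) (n false e e)) e) e) (n true (n false e e) e))) (u 8 0 (k (t 24 1 (u 16 0 (k (t 32 3 (t 48 3 v)) r))) r))
 .z .z) .z))))

set_option maxRecDepth 100000 in
def N179 : NT :=
(.s 0xefea88a22070e75fe00 4087 (n false (n false (n true (n true (n true (n false (n false (n false (n false e e) (n false e e)) (n false (n false e e) (n false e e))) (n false e e)) e) e) e) (n true (n false e e) e)) (n true (z 121) e)) (u 5 1 (k v (k (c 13 4099 r (u 9 1 (k v (k v r)))) (k (c 9 4097 r (u 13 1 (k v (k v r)))) (k (c 9 4095 r (u 13 0 (k v (k v r)))) (k (c 9 4095 r (u 13 0 (k v (k v r)))) r))))))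
 (.s 0xefab95fd400420fb840 4063 (n false (n false (n true (n true (n false (n false (n false (n true (z 156) e) (n false e e)) e) (n false e e)) e) e) (n true (n true (n false (n true (n false e e) e) (n false e e)) e) e)) e) (u 256 2 (k v (k (c 768 4099 r (u 512 1 (k v (k v r)))) (k (c 512 4095 r (u 768 0 (k v (k v r)))) r))))
 (.s 0xefaae577c004208ee10 4058 (n false (n false (n true (n true (n false (n false (n false (n false (n true (z 52) e) e) (n false e e)) e) (n false e e)) e) e) (n false e e)) (n true (n false (n true (n false e e) e) (n false e e)) e)) (u 512 238 (k v (k v (k v (k v (k v (k v (k v r))))))))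
 (.s 0xefaa7dd4012baf00410 4076 (n false (n false (n true (n true (n false (n false (n false (z 11) (z 100)) e) (n false e e)) e) e) (n false e e)) e) (t 128 2 (u 192 0 (k (c 448 4096 r r) (k (c 448 4096 r r) (k (c 448 4096 r r) (k (c 448 4097 r (u 320 11 (k v (k v (k v (k (c 832 4099 r (u 576 1 (k v (k v r)))) r)))))) (k (c 448 4096 r r) (k (c 448 4096 r r) r))))))))
 (.s 0xefaa7776012aaa00410 4075 (n false (n false (n true (n true (n false (n false (n false (z 85) (z 0)) e) (n false e e)) e) e) (n false e e)) e) (t 192 1 (u 128 12 (k v (k v (k (c 384 4099 r r) (k (t 384 1 (u 256 2 (k v (k (t 768 2 (c 384 4099 v (u 512 2 (k v (k (u 1024 5 (k v (k v r))) r))))) r)))) (k (u 256 12 (k v (k v r))) (k (c 384 4096 r (u 256 3 (k v (k v r)))) (k (c 256 4099 r r) r)))))))))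
 .z .z) (.s 0xefaa7dfe012aaa00410 4074 (n false (n false (n true (n true (n false (n false (n false (z 123) (z 0)) e) (n false e e)) e) e) (n false e e)) e) (t 192 1 (u 128 4 (k v (k (c 384 4099 r (u 256 2 (k v (k v (k v (k (t 768 3 (u 512 26 (k v (k v (k v r))))) r)))))) (k r (k (u 256 11 (k v (k v (k (c 768 4101 r r) (k (c 768 4099 r r) (k (c 768 4096 r (u 512 0 (k (u 1024 0 (k v (k v r))) r))) (k (c 512 4098 r r) (k (c 512 4101 r r) (k (c 512 4099 r r) (k (c 512 4101 r r) r)))))))))) (k (c 256 4096 r (u 384 1 (k v (k v r)))) (k (c 384 4097 r r) r))))))))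
 .z .z)) (.s 0xefab95fd4004208ee10 4062 (n false (n false (n true (n true (n false (n false (n false (n true (z 156) e) (n false e e)) e) (n false e e)) e) e) (n false e e)) (n true (n false (n true (n false e e) e) (n false e e)) e)) (u 256 2 (k v (k (c 768 4099 r (u 512 1 (k v (k v r)))) (k (c 512 4095 r (u 768 0 (k v (k v r)))) r))))
 (.s 0xefaae577c00420fb840 4059 (n false (n false (n true (n true (n false (n false (n false (n false (n true (z 52) e) e) (n false e e)) e) (n false e e)) e) e) (n true (n true (n false (n true (n false e e) e) (n false e e)) e) e)) e) (u 512 303 (k v (k v (k v (k v (k v (k v (k v r))))))))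
 .z .z) .z)) (.s 0xefe577c0023ea88a220 4074 (n false (n false (n true (n true (n true (z 52) e) e) e) (n false e e)) (n true (n true (n false (n false (n false (n false e e) (n false e e)) (n false (n false e e) (n false e e))) (n false e e)) e) e)) (u 32 23 (k v (k v (k v (k v (k v (k v (k v (k (t 96 2 (u 64 0 (k (u 128 2 (k v (k (c 16 4078 (u 16 1 (k v (k v r))) v) r))) r))) (k (t 96 1 (u 64 0 (k (c 192 4099 r (u 128 2 (k v (k (c 16 4078 (u 16 1 (k v (k v r))) v) r)))) r))) r))))))))))
 (.s 0xefabe577c00420fb840 4060 (n false (n false (n true (n true (n false (n false (n false (n true (n true (z 52) e) e) (n false e e)) e) (n false e e)) e) e) (n true (n true (n false (n true (n false e e) e) (n false e e)) e) e)) e) (u 512 298 (k v (k v (k v (k v (k v (k v (k v r))))))))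
 (.s 0xefabe577c004208ee10 4059 (n false (n false (n true (n true (n false (n false (n false (n true (n true (z 52) e) e) (n false e e)) e) (n false e e)) e) e) (n false e e)) (n true (n false (n true (n false e e) e) (n false e e)) e)) (u 512 182 (k v (k v (k v (k v (k v (k v (k v r))))))))
 .z .z) (.s 0xefbea88a220e7d56000 4071 (n false (n false (n true (n true (n false (n true (z 67) e) (n true (n true (n false (n false (n false (n false e e) (n false e e)) (n false (n false e e) (n false e e))) (n false e e)) e) e)) e) e) e) e) (u 64 3 (k v (k (t 192 2 r) (k (t 128 2 (u 192 0 (k (u 320 0 (k v (k v r))) r))) (k (t 128 1 (u 192 0 (k (u 320 0 (k v (k v r))) r))) (k (t 192 1 r) (k (t 192 2 r) (k r (k (t 192 1 r) (k (t 192 2 (c 144 4099 v (c 8 4065 r v))) (k (t 128 2 r) (k (t 192 2 (u 128 0 (k (u 256 0 (k v (k v r))) r))) (k (t 128 1 r) (k (t 192 2 r) (k (t 128 1 (u 192 0 (k (u 320 0 (k v (k v r))) r))) (k (t 192 1 r) (k (t 192 2 r) (k (t 192 1 r) (k (t 192 2 r) (k (t 192 2 r) (k (t 192 1 r) r)))))))))))))))))))))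
 .z .z)) (.s 0xefe7f7c0023ea88a220 4077 (n false (n false (n true (n true (n true (z 55) e) e) e) (n false e e)) (n true (n true (n false (n false (n false (n false e e) (n false e e)) (n false (n false e e) (n false e e))) (n false e e)) e) e)) (u 32 4 (k (t 96 1 (u 64 9 (k v (k v (k v (k (u 128 4 (k v (k (t 384 1 (u 256 2 (k v (k v r)))) r))) (k (c 8 4082 r v) r))))))) (k (t 96 2 r) r)))
 (.s 0xefe5ffc0023ea88a220 4074 (n false (n false (n true (n true (n true (z 62) e) e) e) (n false e e)) (n true (n true (n false (n false (n false (n false e e) (n false e e)) (n false (n false e e) (n false e e))) (n false e e)) e) e)) (u 32 1 (k v (k v (k v (k (t 96 1 (u 64 6 (k v (k v (k (t 192 1 (u 128 0 (k v (k v r)))) r))))) r)))))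
 .z .z) .z))) (.s 0xfa5ddc01c153bae0070 4086 (n false (n false (n false (z 37) e) (n true (n false e e) e)) (n true (n false (z 42) (n true (n false e e) e)) e)) (u 8 2 (k (c 6 4094 v (u 9 15 (k v (k v (k v r))))) (k (u 9 16 (k v (k v (k (u 17 2 (k v (k v r))) (k (c 16 4099 v (c 6 4094 v r)) (k (c 16 4099 v (c 6 4094 v r)) (k (c 16 4099 v (c 6 4094 v r)) r))))))) r)))
 (.s 0xfa577c01dc20e7d5600 4088 (n false (n true (n false (z 52) (n true (n false (n true (n false e e) e) (n false e e)) e)) e) (n true (z 67) e)) (u 8 264 (k r (k (u 5 23 (k v (k v r))) (k (c 20 4092 v (u 5 0 (k v (k v r)))) (k (u 5 28 (k v (k v (k (t 13 1 (u 9 1 (k v (k v r)))) (k (u 13 2 (k (t 9 1 v) (k (u 9 11 (k v (k v r))) r))) (k (t 13 1 (u 9 29 (k v (k v (k v (k (c 25 4099 r (u 17 1 (k v (k v r)))) r)))))) (k r (k (t 13 1 r) (k r r))))))))) (k (c 20 4092 v (u 5 0 (k v (k v r)))) r))))))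
 (.s 0xefea88a22074abe8020 4087 (n false (n false (n true (n true (n true (n false (n false (n false (n false e e) (n false e e)) (n false (n false e e) (n false e e))) (n false e e)) e) e) e) (n true (n false (z 24) (n false e e)) e)) e) (c 10 4096 (c 2 4098 r v) v)
 (.s 0xefea88a22070e7d5600 4089 (n false (n false (n true (n true (n true (n false (n false (n false (n false e e) (n false e e)) (n false (n false e e) (n false e e))) (n false e e)) e) e) e) (n true (n false e e) e)) (n true (z 67) e)) (u 5 127 (k v (k v (k v (k v (k (t 13 1 (u 9 1 (k v (k v r)))) (k (c 9 4101 r (u 13 0 (k v (k v r)))) (k r (k (c 3 4088 r v) (k (c 3 4091 (t 6 2 (u 4 0 (k r r))) v) (k (c 13 4101 r (u 9 1 (k v (k v r)))) (k (t 13 1 (u 9 9 (k v (k v (k v (k (c 25 4099 r (u 17 1 (k v (k v r)))) r)))))) (k (c 13 4102 r (u 9 1 (k v (k v r)))) (k (c 9 4101 r (u 13 1 (k v (k v r)))) (k (t 13 1 (u 9 3 (k v (k v (k (c 25 4099 r (u 17 1 (k v (k v r)))) r))))) (k (c 9 4101 r (u 13 1 (k v (k v r)))) r))))))))))))))))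
 .z .z) (.s 0xfa577c017087cbbb800 4086 (n false (n true (n false (z 52) (n false (n true (n false e e) e) (n false e e))) e) (n true (n true (z 42) e) e)) (c 8 4097 r (u 9 32 (k v (k v (k v r)))))
 .z .z)) (.s 0xfa5ddc01c153aff0070 4086 (n false (n true (n false (z 42) (n true (n false e e) e)) e) (n false (n false (z 121) e) (n true (n false e e) e))) (c 12 4094 v (u 9 1 (k (u 8 1 (k v (k v r))) (k (c 25 4099 r r) (k (c 17 4097 r r) (k (c 17 4095 r r) (k (c 17 4095 r r) r)))))))
 (.s 0xfa57f5002775400be80 4085 (n false (n true (n false (z 156) (z 5)) e) (n false (n true (n true (n false (n false e e) e) e) e) e)) (t 12 1 (u 8 2 (k v (k (c 24 4099 r (u 16 1 (k v (k v r)))) (k (c 16 4095 r (u 24 0 (k v (k v r)))) r)))))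
 .z .z) .z)) (.s 0xfa7754013afb0075110 4087 (n false (n true (n false (z 89) (z 5)) e) (n true (n false (n false (n false e e) (n false e e)) (n false e e)) e)) (t 12 1 (u 8 20 (k v (k v (k v (k v (k (t 24 3 r) (k (t 24 2 (c 4 4083 r v)) (k (c 4 4095 (t 4 1 (c 3 4099 v r)) v) r)))))))))
 (.s 0xfa7754012fee005f440 4080 (n false (n true (n false (z 46) (z 5)) e) (n false (n true (n true (n false (n false e e) (n false e e)) e) e) e)) (t 12 1 (u 8 10 (k v (k (c 24 4099 r (u 16 0 (k v (k v r)))) (k (c 2 4088 (c 10 4101 v r) v) r)))))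
 (.s 0xfa7754012eee0075110 4088 (n false (n true (n false (z 42) (z 5)) e) (n true (n false (n false (n false e e) (n false e e)) (n false e e)) e)) (t 12 1 (u 8 16 (k v (k v (k (c 4 4090 r v) (k (c 2 4095 r v) (k (c 4 4090 r v) (k (c 4 4090 r v) r))))))))
 .z .z) (.s 0xfa7754012fee007dc20 4089 (n false (n true (n false (z 46) (z 5)) e) (n true (n true (n false (n true (n false e e) e) (n false e e)) e) e)) (t 12 1 (u 8 2 (k v (k (c 24 4099 r (u 16 0 (k v (k v r)))) (k r (k (c 2 4088 (c 10 4101 v r) v) (k (c 24 4097 r r) (k (c 16 4095 r r) r))))))))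
 .z .z)) (.s 0xfa7f76013bae0057088 4085 (n false (n true (n false (z 87) (z 37)) e) (n false (n false (n true (n false e e) e) (n false e e)) (n false e e))) (c 9 4094 v (u 8 0 (k r (k (t 12 1 v) r))))
 (.s 0xfa7f76013aff007dc20 4080 (n false (n true (n false (z 121) (z 87)) e) (n true (n true (n false (n true (n false e e) e) (n false e e)) e) e)) (u 8 1 (k (u 12 1 (k v (k v r))) (k (c 24 4099 r r) (k (c 16 4097 r r) (k (c 16 4095 r r) (k (c 16 4095 r r) r))))))
 .z .z) .z))))

set_option maxRecDepth 100000 in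
def N180 : NT :=
(.s 0xfba9f5f004bfb803820 4074 (n false (n true (n false (n true (n false (n false (z 51) (z 46)) (n true (n false e e) e)) e) (n false e e)) e) e) (t 64 1 (u 96 2 (k v (k (c 224 4099 r (u 160 0 (k v (k v r)))) (k (u 160 1 (k v (k v r))) (k (u 160 0 (k v (k v r))) (k (c 224 4097 r (u 160 1 (k v (k v r)))) (k (c 160 4095 r (u 224 1 (k v (k v r)))) r))))))))
 (.s 0xfaea88a22110a577c00 4090 (n false (n true (n false (n false (n true (n false (n false (n false (n false e e) (n false e e)) (n false (n false e e) (n false e e))) (n false e e)) e) (n false e e)) (n false e e)) e) (n false (z 52) e)) (u 5 4 (k v (k v (k v (k v (k (t 13 1 (u 9 0 (k v (k v r)))) r))))))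
 (.s 0xfaa97f7004aaa801050 4074 (n false (n true (n false (n false (n false (n false (z 46) (z 0)) e) (n false e e)) e) e) (n false (n false e e) e)) (t 96 1 (u 64 2 (k v (k (c 192 4099 r (u 128 0 (k v (k v r)))) (k (u 128 1 (k v (k v r))) (k (u 128 1 (k v (k v r))) (k (c 192 4097 r (u 128 1 (k v (k v r)))) (k (c 128 4095 r (u 192 1 (k v (k v r)))) r))))))))
 (.s 0xfaa88a223b8413eab00 4084 (n false (n true (n false (n true (n false (n true (n false e e) e) (n false e e)) e) (n false (n false (n false (n false e e) (n false e e)) (n false (n false e e) (n false e e))) (n false e e))) e) (z 67)) (u 3 84 (k v (k v (k v (k r (k (u 5 2 (k (t 7 1 v) (k (u 7 0 (k v (k v r))) r))) (k r (k (c 2 4092 v r) (k (c 12 4099 v r) (k (t 7 1 (u 5 1 (k v (k (c 13 4097 r (u 9 0 (k v (k v r)))) r)))) (k (t 7 2 (c 2 4092 v (u 5 0 (k r r)))) (k r (k r (k (t 5 1 (c 2 4092 v (u 7 0 (k r r)))) (k (t 5 2 (c 8 4091 v r)) (k (c 12 4099 v r) (k r (k (c 12 4099 v r) r))))))))))))))))))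
 (.s 0xfaa88a2225ddc00ee10 4086 (n false (n true (n false (z 42) (n false (n false (n false (n false e e) (n false e e)) (n false (n false e e) (n false e e))) (n false e e))) e) (n true (n false (n true (n false e e) e) (n false e e)) e)) (u 8 16 (k v (k v (k (c 4 4090 r v) (k (c 4 4090 (c 3 4099 v r) v) (k (c 4 4090 r v) (k (c 4 4090 r v) r)))))))
 .z .z) (.s 0xfaa88a223e8813eab00 4083 (n false (n true (n false (n true (n true (n false (n false e e) (n false e e)) e) e) (n false (n false (n false (n false e e) (n false e e)) (n false (n false e e) (n false e e))) (n false e e))) e) (z 67)) (c 20 4101 v (u 3 138 (k v (k v (k v (k v (k v (k (t 7 1 (u 5 1 (k v (k v r)))) (k (c 5 4101 r (u 7 0 (k v (k v r)))) (k r (k (c 2 4075 v r) (k (c 2 4075 v (t 7 2 (u 5 0 (k r r)))) (k (c 7 4101 r (u 5 1 (k v (k v r)))) (k r (k (c 7 4102 r (u 5 1 (k v (k v r)))) (k (c 5 4101 r (u 7 1 (k v (k v r)))) (k r (k (c 5 4101 r (u 7 1 (k v (k v r)))) r))))))))))))))))))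
 .z .z)) (.s 0xfaea88a221109555400 4090 (n false (z 128) (n true (n false (n false (n true (n false (n false (n false (n false e e) (n false e e)) (n false (n false e e) (n false e e))) (n false e e)) e) (n false e e)) (n false e e)) e)) (u 2 1 (k v (k (c 4 4097 r r) (k (c 6 4099 r r) (k (c 6 4099 r r) (k (c 4 4096 r r) (k (c 6 4097 r r) (k (c 4 4095 r r) (k (c 4 4095 r (u 6 0 (k v (k v r)))) (k (c 4 4099 r r) (k (c 6 4097 r (u 4 1 (k v (k v r)))) (k (c 4 4098 r r) (k (c 4 4099 r r) (k (c 6 4095 r (u 4 1 (k v (k v r)))) (k (c 4 4097 r (u 6 0 (k v (k v r)))) (k (c 4 4095 r r) (k (c 4 4099 r r) (k (c 4 4095 r (u 6 1 (k v (k v r)))) (k (c 4 4097 r r) r)))))))))))))))))))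
 (.s 0xfaa9ddd804aaa801050 4074 (n false (n true (n false (n false (n false (n false (z 85) (z 0)) e) (n false e e)) e) e) (n false (n false e e) e)) (t 96 1 (u 64 4 (k v (k (c 192 4099 r r) (k (c 192 4099 r (c 2 4073 r v)) (k (c 192 4099 r (u 128 1 (k v (k v (k v (k (t 384 1 (u 256 6 (k v (k v (k (t 768 1 (u 512 0 (k v (k v r)))) r))))) r)))))) (k (u 128 5 (k v (k v (k v (k (t 384 3 (u 256 64 (k v (k v (k v (k v r)))))) r))))) (k (c 192 4096 r (c 2 4073 r v)) (k (c 128 4099 r r) r)))))))))
 .z .z) .z)) (.s 0xfaea88a22110e7d7c00 4089 (n false (n true (n false (n false (n true (n false (n false (n false (n false e e) (n false e e)) (n false (n false e e) (n false e e))) (n false e e)) e) (n false e e)) (n false e e)) e) (n true (z 51) e)) (u 5 0 (k (t 13 1 (u 9 0 (k (t 17 3 (t 25 3 v)) r))) r))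
 (.s 0xfaea88a22110e577c00 4089 (n false (n true (n false (n false (n true (n false (n false (n false (n false e e) (n false e e)) (n false (n false e e) (n false e e))) (n false e e)) e) (n false e e)) (n false e e)) e) (n true (z 52) e)) (u 5 4 (k v (k v (k v (k v (k (t 13 1 (u 9 0 (k v (k v r)))) r))))))
 (.s 0xfaea88a22110e555e00 4087 (n false (n true (z 96) e) (n true (n false (n false (n true (n false (n false (n false (n false e e) (n false e e)) (n false (n false e e) (n false e e))) (n false e e)) e) (n false e e)) (n false e e)) e)) (c 33 4099 v (u 4 0 (k (t 12 1 (u 8 0 (k (t 24 2 (u 16 0 (k v (k v (k (c 4 4081 (u 8 1 (k v (k v r))) v) r))))) r))) r)))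
 .z .z) (.s 0xfaea88a22110e5ffc00 4087 (n false (n true (n false (n false (n true (n false (n false (n false (n false e e) (n false e e)) (n false (n false e e) (n false e e))) (n false e e)) e) (n false e e)) (n false e e)) e) (n true (z 62) e)) (u 5 4 (k v (k v (k v (k (t 13 1 r) r)))))
 .z .z)) (.s 0xfb9777002a88a221f40 4092 (n false (n true (n false (n true (z 42) e) (n false (n false (n false (n false e e) (n false e e)) (n false (n false e e) (n false e e))) (n false e e))) e) (n true (n true (n false (n false e e) e) e) e)) (c 2 4088 (c 10 4101 v r) v)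
 (.s 0xfb9777002a88a221708 4091 (n false (n true (n false (n true (z 42) e) (n false (n false (n false (n false e e) (n false e e)) (n false (n false e e) (n false e e))) (n false e e))) e) (n false (n true (n false e e) e) (n false e e))) (c 2 4088 (c 10 4101 v r) v)
 .z .z) .z))) (.s 0xfbaa22888507caffc00 4089 (n false (n true (n true (z 124) e) e) (n true (n false (n true (n false (n false (n false (n false e e) (n false e e)) (n false (n false e e) (n false e e))) (n false e e)) e) (n false (n false e e) e)) e)) (c 17 4099 v (u 8 1 (k v (k (c 24 4097 r (u 16 1 (k v (k v r)))) (k (c 24 4096 r (u 16 1 (k v (k v r)))) (k (c 16 4098 r (u 24 0 (k v (k v r)))) (k (c 24 4096 r (u 16 1 (k v (k v r)))) (k (c 24 4097 r (u 16 1 (k v (k v r)))) (k (c 24 4097 r (u 16 1 (k v (k v r)))) (k (c 24 4096 r (u 16 1 (k v (k v r)))) (k (c 24 4099 r (u 16 1 (k v (k v r)))) (k (c 16 4097 r (u 24 1 (k v (k v r)))) r))))))))))))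
 (.s 0xfbaa22888505cebfc00 4087 (n false (n true (n false (n true (n false (n false (n false (n false e e) (n false e e)) (n false (n false e e) (n false e e))) (n false e e)) e) (n false (n false e e) e)) e) (n false (n true (z 121) e) e)) (u 9 4 (k v (k v (k (c 25 4099 r (u 17 1 (k v (k v r)))) (k (c 17 4097 r (u 25 1 (k v (k v r)))) r)))))
 (.s 0xfbaa22888505caffc00 4085 (n false (n false (n true (z 124) e) e) (n true (n false (n true (n false (n false (n false (n false e e) (n false e e)) (n false (n false e e) (n false e e))) (n false e e)) e) (n false (n false e e) e)) e)) (u 8 5 (k v (k (c 24 4097 r (u 16 1 (k v (k v r)))) (k (c 24 4096 r (u 16 1 (k v (k v r)))) (k (c 16 4098 r (u 24 0 (k v (k v r)))) (k (c 24 4096 r (u 16 1 (k v (k v r)))) (k (c 24 4097 r (u 16 1 (k v (k v r)))) (k (c 24 4097 r (u 16 1 (k v (k v r)))) (k (c 24 4096 r (u 16 1 (k v (k v r)))) (k (c 16 4097 r (u 24 1 (k v (k v r)))) r))))))))))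
 (.s 0xfba9f5f004ebfc03820 4074 (n false (n true (n false (n true (n false (n false (z 51) (z 121)) (n true (n false e e) e)) e) (n false e e)) e) e) (t 64 1 (u 96 2 (k v (k v (k (c 224 4099 r (u 160 1 (k v (k v r)))) (k (c 160 4095 r (u 224 0 (k v (k v r)))) (k (c 160 4095 r (u 224 0 (k v (k v r)))) r)))))))
 .z .z) (.s 0xfbaa22888505cbfb800 4085 (n false (n true (n false (n true (n false (n false (n false (n false e e) (n false e e)) (n false (n false e e) (n false e e))) (n false e e)) e) (n false (n false e e) e)) e) (n false (n true (z 46) e) e)) (u 9 1 (k v (k (u 17 1 (k v (k v r))) (k (c 25 4099 r (u 17 0 (k v (k v r)))) (k (u 17 1 (k v (k v r))) (k (c 25 4097 r (u 17 1 (k v (k v r)))) (k (c 17 4095 r (u 25 1 (k v (k v r)))) r)))))))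
 .z .z)) (.s 0xfbaa22888505cfbec00 4084 (n false (n true (n false (n true (n false (n false (n false (n false e e) (n false e e)) (n false (n false e e) (n false e e))) (n false e e)) e) (n false (n false e e) e)) e) (n false (n true (z 91) e) e)) (u 9 2 (k v (k v (k (u 17 1 (k v (k v r))) (k (c 17 4097 r (u 25 0 (k v (k v r)))) (k (c 17 4097 r (u 25 0 (k v (k v r)))) (k (c 17 4096 r (u 25 0 (k v (k v r)))) (k (c 17 4095 r (u 25 0 (k v (k v r)))) r))))))))
 (.s 0xfbaa22888505ceeb800 4087 (n false (n true (n false (n true (n false (n false (n false (n false e e) (n false e e)) (n false (n false e e) (n false e e))) (n false e e)) e) (n false (n false e e) e)) e) (n false (n true (z 37) e) e)) (u 9 43 (k v (k v (k (c 16 4099 v (u 17 0 (k (t 33 3 (t 49 1 v)) r))) (k (c 16 4099 v (u 17 0 (k (t 33 3 (t 49 1 v)) r))) (k (c 16 4099 v (u 17 11 (k v (k v (k (t 49 1 (u 33 0 (k (t 65 3 (t 97 1 v)) r))) r))))) (k (c 16 4099 v (u 17 11 (k v (k v (k (t 49 1 (u 33 0 (k (t 65 3 (t 97 1 v)) r))) r))))) r)))))))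
 .z .z) .z)) (.s 0xfbaa2288852bfa80050 4084 (n false (n true (n false (n false (z 156) e) (n true (n false (n false (n false (n false e e) (n false e e)) (n false (n false e e) (n false e e))) (n false e e)) e)) e) (n false (n false e e) e)) (c 20 4099 v (u 16 5 (k v (k v (k (c 48 4099 r (u 32 1 (k v (k v r)))) (k (c 32 4098 r (u 48 1 (k v (k v r)))) (k (c 32 4097 r (u 48 1 (k v (k v r)))) (k (c 32 4099 r (u 48 1 (k v (k v r)))) r))))))))
 (.s 0xfbaa22888507cebfc00 4091 (n false (n true (n true (z 121) e) e) (n true (n false (n true (n false (n false (n false (n false e e) (n false e e)) (n false (n false e e) (n false e e))) (n false e e)) e) (n false (n false e e) e)) e)) (c 17 4099 v (u 8 4 (k v (k v (k (c 24 4099 r (u 16 1 (k v (k v r)))) (k (c 16 4097 r (u 24 1 (k v (k v r)))) r))))))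
 (.s 0xfbaa22888507cbfb800 4089 (n false (n true (n true (z 46) e) e) (n true (n false (n true (n false (n false (n false (n false e e) (n false e e)) (n false (n false e e) (n false e e))) (n false e e)) e) (n false (n false e e) e)) e)) (c 17 4099 v (u 8 2 (k v (k (c 24 4099 r (u 16 0 (k v (k v r)))) (k (u 16 1 (k v (k v r))) (k (u 16 1 (k v (k v r))) (k (c 24 4097 r (u 16 1 (k v (k v r)))) (k (c 16 4095 r (u 24 1 (k v (k v r)))) r))))))))
 .z .z) (.s 0xfbaa22888507cfbec00 4089 (n false (n true (n true (z 91) e) e) (n true (n false (n true (n false (n false (n false (n false e e) (n false e e)) (n false (n false e e) (n false e e))) (n false e e)) e) (n false (n false e e) e)) e)) (c 17 4099 v (u 8 4 (k v (k v (k (u 16 1 (k v (k v r))) (k (c 16 4097 r (u 24 0 (k v (k v r)))) (k (c 16 4097 r (u 24 0 (k v (k v r)))) (k (c 16 4096 r (u 24 0 (k v (k v r)))) (k (c 16 4095 r (u 24 0 (k v (k v r)))) r)))))))))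
 .z .z)) (.s 0xfbe9557000e0e75fe00 4087 (n false (n true (n false (n true (n true (n false (z 32) e) e) e) (n true (n false e e) e)) e) (n true (z 121) e)) (u 5 8 (k (u 64 0 (k (t 128 3 (t 192 1 v)) r)) (k (c 16 4094 (c 4 4096 r v) v) (k r (k (c 13 4099 r r) r)))))
 (.s 0xfbaa228885c213eab00 4086 (n false (n true (n false (n false (n true (n false e e) e) (n false e e)) (n true (n false (n false (n false (n false e e) (n false e e)) (n false (n false e e) (n false e e))) (n false e e)) e)) e) (z 67)) (u 3 17 (k v (k v (k v (k v (k r (k (u 7 0 (k r (k (u 5 2 (k v (k v r))) r))) (k r (k (c 2 4092 v r) (k (c 20 4099 v (c 16 4094 v r)) (k (t 7 1 (u 5 2 (k v (k (c 13 4097 r (u 9 0 (k v (k v r)))) r)))) (k (c 2 4092 v (t 7 2 (u 5 0 (k r r)))) (k (u 5 14 (k r (k (u 7 2 (k v (k v r))) (k (t 7 1 v) r)))) (k r (k (c 2 4092 v (t 5 1 (u 7 0 (k r r)))) (k (c 20 4099 v (c 16 4094 v r)) (k r (k (c 20 4099 v (c 16 4094 v r)) r))))))))))))))))))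
 .z .z) .z))))

set_option maxRecDepth 100000 in
def N181 : NT :=
(.s 0xfe95df00770813eab00 4088 (n false (n true (n true (n false (z 52) (n true (n false (n true (n false e e) e) (n false e e)) e)) e) e) (z 67)) (u 16 338 (k r (k (c 40 4092 v (u 3 0 (k v (k v r)))) (k (u 3 28 (k v (k v (k (t 7 1 (u 5 13 (k v (k v r)))) (k (u 7 4 (k (u 5 0 (k v (k v r))) (k (t 5 1 v) r))) (k (t 7 1 (u 5 29 (k v (k v (k v (k (c 13 4099 r (u 9 1 (k v (k v r)))) r)))))) (k r (k r (k r r))))))))) (k (u 3 23 (k v (k v r))) (k (c 40 4092 v (u 3 0 (k v (k v r)))) r))))))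
 (.s 0xfbea88a22087cebfc00 4082 (n false (n true (n true (z 121) e) e) (n true (n false (n true (n true (n false (n false (n false (n false e e) (n false e e)) (n false (n false e e) (n false e e))) (n false e e)) e) e) (n false e e)) e)) (u 8 1 (k v (k (c 24 4099 r (u 16 1 (k v (k v r)))) (k (c 16 4097 r (u 24 1 (k v (k v r)))) (k (c 16 4095 r (u 24 0 (k v (k v r)))) (k (c 16 4095 r (u 24 0 (k v (k v r)))) r))))))
 (.s 0xfbea88a22085ceeb800 4083 (n false (n false (n true (z 37) e) e) (n true (n false (n true (n true (n false (n false (n false (n false e e) (n false e e)) (n false (n false e e) (n false e e))) (n false e e)) e) e) (n false e e)) e)) (u 8 63 (k v (k v (k v (k (u 16 0 (k (t 32 3 (t 48 1 v)) r)) (k (u 16 10 (k v (k v (k v (k (t 48 1 (u 32 0 (k (t 64 3 (t 96 1 v)) r))) r))))) r))))))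
 (.s 0xfbea88a220852bbe008 4080 (n false (n false (z 52) (n false e e)) (n true (n false (n true (n true (n false (n false (n false (n false e e) (n false e e)) (n false (n false e e) (n false e e))) (n false e e)) e) e) (n false e e)) e)) (u 4 162 (k v (k v (k v (k v (k (t 12 1 (u 8 0 (k v (k v r)))) r))))))
 (.s 0xfbe9d7d800875445110 4077 (n false (n true (n false (n true (n true (n false (z 89) e) e) e) (n false e e)) e) (n true (n false (n false (n false (n false e e) (n false e e)) (n false (n false e e) (n false e e))) (n false e e)) e)) (u 64 2 (k v (k v (k v (k (t 192 2 (u 128 6 (k v (k v (k (t 384 1 (u 256 0 (k v (k v r)))) r))))) r)))))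
 .z .z) (.s 0xfbea88a22085cebfc00 4083 (n false (n false (n true (z 121) e) e) (n true (n false (n true (n true (n false (n false (n false (n false e e) (n false e e)) (n false (n false e e) (n false e e))) (n false e e)) e) e) (n false e e)) e)) (u 8 28 (k v (k v (k (c 24 4099 r (u 16 1 (k v (k v r)))) (k (c 16 4095 r (u 24 23 (k v (k v r)))) (k (c 16 4095 r (u 24 23 (k v (k v r)))) r))))))
 .z .z)) (.s 0xfbea88a22087cbfb800 4080 (n false (n true (n true (z 46) e) e) (n true (n false (n true (n true (n false (n false (n false (n false e e) (n false e e)) (n false (n false e e) (n false e e))) (n false e e)) e) e) (n false e e)) e)) (u 8 2 (k v (k (c 24 4099 r (u 16 0 (k v (k v r)))) (k (u 16 1 (k v (k v r))) (k (u 16 1 (k v (k v r))) (k (c 24 4097 r (u 16 1 (k v (k v r)))) (k (c 16 4095 r (u 24 1 (k v (k v r)))) r)))))))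
 (.s 0xfbea88a22087caef800 4080 (n false (n true (n true (z 52) e) e) (n true (n false (n true (n true (n false (n false (n false (n false e e) (n false e e)) (n false (n false e e) (n false e e))) (n false e e)) e) e) (n false e e)) e)) (u 8 90 (k v (k v (k v (k v (k v (k v (k v r))))))))
 .z .z) .z)) (.s 0xfbf95df000875445110 4074 (n false (n true (n false (n true (n true (n true (z 52) e) e) e) (n false e e)) e) (n true (n false (n false (n false (n false e e) (n false e e)) (n false (n false e e) (n false e e))) (n false e e)) e)) (u 64 23 (k v (k v (k v (k v (k v (k v (k v (k (t 192 2 (u 128 0 (k (u 256 2 (k v (k (c 32 4078 (u 16 1 (k v (k v r))) v) r))) r))) (k (t 192 1 (u 128 0 (k (c 384 4099 r (u 256 2 (k v (k (c 32 4078 (u 16 1 (k v (k v r))) v) r)))) r))) r))))))))))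
 (.s 0xfbea88a22087cfeac00 4085 (n false (n true (n true (z 71) e) e) (n true (n false (n true (n true (n false (n false (n false (n false e e) (n false e e)) (n false (n false e e) (n false e e))) (n false e e)) e) e) (n false e e)) e)) (u 8 7 (k v (k v (k v (k (c 24 4099 r (u 16 1 (k v (k v r)))) r)))))
 (.s 0xfbea88a22087ceeb800 4082 (n false (n true (n true (z 37) e) e) (n true (n false (n true (n true (n false (n false (n false (n false e e) (n false e e)) (n false (n false e e) (n false e e))) (n false e e)) e) e) (n false e e)) e)) (u 8 23 (k v (k v (k (u 16 0 (k (t 32 3 (t 48 1 v)) r)) (k (u 16 0 (k v (k v (k (t 48 1 (u 32 0 (k (t 64 3 (t 96 1 v)) r))) r)))) (k (c 4 4088 r v) r))))))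
 .z .z) (.s 0xfbea88a22087cfef800 4084 (n false (n true (n true (z 55) e) e) (n true (n false (n true (n true (n false (n false (n false (n false e e) (n false e e)) (n false (n false e e) (n false e e))) (n false e e)) e) e) (n false e e)) e)) (u 8 6 (k v (k (t 24 1 (u 16 10 (k v (k v r)))) r)))
 .z .z)) (.s 0xfbf9fdf000875445110 4077 (n false (n true (n false (n true (n true (n true (z 55) e) e) e) (n false e e)) e) (n true (n false (n false (n false (n false e e) (n false e e)) (n false (n false e e) (n false e e))) (n false e e)) e)) (u 64 4 (k (t 192 1 (u 128 9 (k v (k v (k v (k (u 256 4 (k v (k (t 768 1 (u 512 4 (k v (k v r)))) r))) (k (c 16 4082 r v) r))))))) (k (t 192 2 r) r)))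
 (.s 0xfbf97ff000875445110 4074 (n false (n true (n false (n true (n true (n true (z 62) e) e) e) (n false e e)) e) (n true (n false (n false (n false (n false e e) (n false e e)) (n false (n false e e) (n false e e))) (n false e e)) e)) (u 64 1 (k v (k v (k v (k (t 192 1 (u 128 6 (k v (k v (k (t 384 1 (u 256 0 (k v (k v r)))) r))))) r)))))
 .z .z) .z))) (.s 0xffa77dc0103f9fdd800 4090 (n false (n true (n true (n true (n false (z 45) (n false e e)) e) e) e) (n true (n true (n true (z 87) e) e) e)) (u 17 1 (k (u 32 7 (k v (k v r))) (k (u 32 7 (k v (k v r))) r)))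
 (.s 0xfebaa228884412bbe00 4089 (n false (n true (n true (n false (n false (n true (n false (n false (n false (n false e e) (n false e e)) (n false (n false e e) (n false e e))) (n false e e)) e) (n false e e)) (n false e e)) e) e) (z 52)) (u 3 4 (k v (k v (k v (k v (k (t 7 1 (u 5 0 (k v (k v r)))) r))))))
 (.s 0xfe9dd7004aef800ee10 4085 (n false (n true (n true (n false (z 52) (z 37)) e) e) (n true (n false (n true (n false e e) e) (n false e e)) e)) (u 24 23 (k (c 2 4093 r v) (k r (k (c 4 4088 r v) (k r (k (c 24 4095 r r) r))))))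
 (.s 0xfe9d7f804aef800ee10 4085 (n false (n true (n true (n false (z 52) (z 121)) e) e) (n true (n false (n true (n false e e) e) (n false e e)) e)) (u 16 166 (k r (k (t 24 2 v) (k (c 8 4085 r v) (k (c 8 4084 r v) (k (t 48 1 (u 32 2 (k r (k r r)))) r))))))
 .z .z) (.s 0xfe9f5f004bfb800ee10 4087 (n false (n true (n true (n false (z 51) (z 46)) e) e) (n true (n false (n true (n false e e) e) (n false e e)) e)) (t 16 1 (u 24 2 (k v (k (c 56 4099 r (u 40 0 (k v (k v r)))) (k (u 40 1 (k v (k v r))) (k (u 40 0 (k v (k v r))) (k (c 56 4097 r (u 40 1 (k v (k v r)))) (k (c 40 4095 r (u 56 1 (k v (k v r)))) r))))))))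
 .z .z)) (.s 0xfefaa2288820e75fe00 4084 (n false (n true (n true (n false (n true (n true (n false (n false (n false (n false e e) (n false e e)) (n false (n false e e) (n false e e))) (n false e e)) e) e) (n false e e)) e) e) (n true (z 121) e)) (u 5 2 (k v (k v (k (c 13 4099 r (u 9 1 (k v (k v r)))) (k (c 9 4095 r (u 13 0 (k v (k v r)))) (k (c 9 4095 r (u 13 0 (k v (k v r)))) r))))))
 (.s 0xfebaa228884413fbf00 4094 (n false (z 119) (n true (n true (n false (n false (n true (n false (n false (n false (n false e e) (n false e e)) (n false (n false e e) (n false e e))) (n false e e)) e) (n false e e)) (n false e e)) e) e)) (u 2 10 (k v (k (c 4 4097 r (u 6 1 (k v (k v r)))) (k (c 6 4097 r (u 4 5 (k v (k v (k v (k (c 12 4099 r (u 8 1 (k v (k v r)))) (k (c 8 4097 r (u 12 1 (k v (k v r)))) r))))))) (k (c 6 4097 r (u 4 11 (k v (k v (k (c 12 4099 r (u 8 1 (k v (k v r)))) (k (c 8 4098 r (u 12 1 (k v (k v r)))) (k (c 8 4097 r (u 12 1 (k v (k v r)))) (k (c 8 4099 r (u 12 1 (k v (k v r)))) r)))))))) r)))))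
 .z .z) .z)) (.s 0x74aaaa004eeb802a2288 4091 (n false (n false (z 128) (z 37)) (n false (n false (n false e e) (n false e e)) (n false (n false e e) (n false e e)))) (u 6 2 (k (t 4 1 v) (k (u 4 17 (k v (k v (k v (k (c 12 4097 r r) (k (c 8 4095 r (c 10 4099 v r)) (k (c 8 4096 r r) (k (c 12 4095 r (c 10 4099 v r)) (k (c 12 4095 r (u 8 1 (k v (k v r)))) (k (c 8 4097 r (u 12 0 (k v (k v r)))) (k (c 8 4095 r (u 12 1 (k v (k v r)))) (k (c 8 4097 r r) r)))))))))))) r)))
 (.s 0xfff9fdd8003a77dc010 4090 (n false (n true (n true (n true (n true (n true (z 87) e) e) e) e) e) (n true (n false (z 45) (n false e e)) e)) (u 9 7 (k (u 64 1 (k v (k v r))) (k (u 64 1 (k v (k v r))) r)))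
 (.s 0xffe7f76001f4efb8020 4090 (n false (n true (n true (n true (n true (z 87) e) e) e) e) (n true (n true (n false (z 45) (n false e e)) e) e)) (u 17 7 (k (u 32 1 (k v (k v r))) (k (u 32 1 (k v (k v r))) r)))
 .z .z) (.s 0x74aaaa004ebfc02a2288 4091 (n false (n false (z 128) (z 121)) (n false (n false (n false e e) (n false e e)) (n false (n false e e) (n false e e)))) (u 4 24 (k (t 6 2 v) (k r (k (c 8 4097 r r) (k (c 8 4095 r (t 6 2 r)) (k (c 8 4096 r r) (k (c 12 4095 r (t 6 2 r)) (k (c 12 4095 r (u 8 1 (k r (k r r)))) (k (c 8 4097 r (u 12 0 (k r (k r r)))) (k (c 8 4095 r (u 12 1 (k r (k r r)))) (k (c 8 4097 r r) r)))))))))))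
 .z .z)) (.s 0x74afea004abfc02ee108 4084 (n false (n false (z 156) (z 120)) (n false (n true (n false (n true (n false e e) e) (n false e e)) e) (n false e e))) (u 4 36 (k (c 3 4089 v r) (k r (k (c 3 4089 v r) (k (c 12 4099 r r) (k (c 8 4099 r r) r))))))
 (.s 0x74abe8025554012abf00 4094 (n false (z 112) (n false (z 24) (z 0))) (t 7 1 (u 5 0 (k (t 9 3 (t 13 1 (u 2 1 (k (t 6 2 (u 4 13 (k v (k (t 12 3 (u 8 45 (k v (k v (k v (k (c 3 4096 v (c 12 4110 v r)) (k (c 3 4096 v (c 12 4110 v r)) (k (c 3 4096 v (c 12 4110 v r)) r)))))))) (k (c 2 4074 (c 3 4094 v (u 4 0 (k r r))) v) r))))) (k (c 3 4096 v r) r))))) r)))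
 .z .z) .z))))

set_option maxRecDepth 100000 in
def N182 : NT :=
(.s 0x74eaba004afa802a2288 4091 (n false (n false (z 161) (z 12)) (n false (n false (n false e e) (n false e e)) (n false (n false e e) (n false e e)))) (t 6 3 (u 4 2 (k v (k (c 12 4099 r (u 8 1 (k v (k v (k (t 24 1 (u 16 0 (k v (k (c 48 4099 r (u 32 3 (k v (k v (k v r))))) r)))) r))))) r))))
 (.s 0x74baf802555c013eae00 4094 (n false (n false (z 32) (z 50)) (z 35)) (t 4 2 (u 6 1 (k r (k (c 14 4097 r (u 3 2 (k (u 10 0 (k v (k v r))) (k (u 10 0 (k v (k v r))) (k (c 10 4097 r v) (k (t 7 1 (u 10 0 (k (u 5 0 (k (t 9 3 (t 13 1 v)) r)) (k (u 5 0 (k (t 9 3 (t 13 1 v)) r)) r)))) r)))))) r))))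
 (.s 0x74afea004eeec02a2288 4094 (n false (n false (z 156) (z 85)) (n false (n false (n false e e) (n false e e)) (n false (n false e e) (n false e e)))) (u 6 79 (k (t 4 1 v) (k r (k r (k (c 10 4099 r (u 14 159 (k r (k r (k (t 4 1 v) r))))) r)))))
 (.s 0x74afea004ebfc02a2288 4094 (n false (n false (z 121) (z 156)) (n false (n false (n false e e) (n false e e)) (n false (n false e e) (n false e e)))) (u 6 1 (k r (k (c 14 4099 r (u 10 1 (k r (k r r)))) (k (c 10 4098 r (u 14 1 (k r (k r r)))) (k (c 10 4097 r (u 14 1 (k r (k r r)))) (k (c 10 4099 r (u 14 1 (k r (k r r)))) (k (c 10 4095 r (u 14 0 (k r (k r r)))) r)))))))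
 (.s 0x74afea004affc02a2288 4094 (n false (n false (z 124) (z 156)) (n false (n false (n false e e) (n false e e)) (n false (n false e e) (n false e e)))) (u 4 8 (k (t 6 1 v) (k r (k (c 8 4099 r (u 12 0 (k r (k r r)))) (k (c 12 4097 r r) (k (c 12 4097 r r) (k (c 8 4097 r r) r)))))))
 .z .z) (.s 0x74afea004eeb802a2288 4088 (n false (n false (z 156) (z 37)) (n false (n false (n false e e) (n false e e)) (n false (n false e e) (n false e e)))) (u 6 7 (k r (k (u 10 7 (k r (k r (k r (k (t 4 1 v) r))))) (k (u 4 1 (k r (k (c 12 4099 r r) (k (c 8 4098 r r) (k (c 8 4097 r (c 10 4096 r r)) (k (c 8 4099 r r) (k (c 8 4095 r (c 10 4096 r r)) r))))))) (k (t 4 1 r) r)))))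
 .z .z)) (.s 0x74afea004feec03fb840 4081 (n false (n false (z 156) (z 87)) (n true (n true (n true (n false (n true (n false e e) e) (n false e e)) e) e) e)) (u 4 8 (k (u 6 1 (k v (k v r))) (k (c 2 4066 (u 3 1 (k v (k v r))) v) (k (c 12 4099 r r) (k (c 8 4098 r r) (k (c 8 4097 r r) (k (c 8 4099 r r) r)))))))
 (.s 0x74afea004faac02a2288 4091 (n false (n false (z 67) (z 156)) (n false (n false (n false e e) (n false e e)) (n false (n false e e) (n false e e)))) (u 4 50 (k r (k r (k (t 6 1 v) (k (c 8 4101 r (u 12 0 (k r (k r r)))) (k (t 6 1 r) (k (c 8 4099 r (u 12 0 (k r (k r r)))) (k (c 12 4101 r r) (k (c 12 4102 r r) (k (c 8 4101 r r) (k (c 8 4101 r r) r)))))))))))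
 .z .z) .z)) (.s 0x74bfb802555c013bae00 4095 (n false (n false (z 46) (z 32)) (z 37)) (u 6 0 (k (t 10 3 (t 14 1 (u 3 19 (k (t 4 1 v) (k (u 4 1 (k v (k (u 8 1 (k v (k v r))) (k (c 12 4099 r (u 8 0 (k v (k v r)))) (k (u 8 1 (k v (k v r))) (k (c 12 4097 r (u 8 1 (k v (k v r)))) (k (c 8 4095 r (u 12 1 (k v (k v r)))) r))))))) (k (u 4 11 (k v (k v (k (c 12 4099 r (u 8 0 (k v (k v r)))) (k (u 8 0 (k v (k v r))) r))))) (k (t 4 1 r) (k (t 4 1 (c 2 4094 v r)) r)))))))) r))
 (.s 0x74bbbc025554012fbf00 4094 (n false (n false (z 106) (z 0)) (z 118)) (t 6 1 (u 3 3 (k r (k (t 7 1 (u 4 13 (k r (k r (k (c 12 4096 r (t 5 2 (c 3 4092 v r))) (k (c 8 4097 r (t 5 2 (c 3 4092 v r))) r)))))) (k (t 7 1 r) r)))))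
 (.s 0x74bbb80257fe012bbe00 4094 (n false (n false (z 42) (z 124)) (z 52)) (t 4 1 (u 6 5 (k r (k (c 14 4097 r (u 10 1 (k r (k r r)))) (k (c 14 4096 r (u 10 1 (k r (k r r)))) (k (c 10 4098 r (u 14 0 (k r (k r r)))) (k (c 14 4096 r (u 10 1 (k r (k r r)))) (k (c 14 4097 r (u 10 1 (k r (k r r)))) (k (c 14 4097 r (u 10 1 (k r (k r r)))) (k (c 14 4096 r (u 10 1 (k r (k r r)))) (k (c 10 4097 r (u 14 1 (k r (k r r)))) r)))))))))))
 .z .z) (.s 0x74bfb802555c013aff00 4095 (n false (n false (z 46) (z 32)) (z 121)) (u 6 0 (k (t 10 3 (t 14 1 (u 4 10 (k (c 14 4101 v r) (k (c 12 4099 r (u 8 0 (k (u 3 7 (k v (k v (k (c 7 4099 r (u 5 1 (k v (k v r)))) r)))) (k (u 3 7 (k v (k v (k (c 7 4099 r (u 5 1 (k v (k v r)))) r)))) r)))) (k (u 3 7 (k (u 8 1 (k v (k v r))) (k (u 8 0 (k v (k v r))) (k (c 7 4099 r r) r)))) r)))))) r))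
 .z .z)) (.s 0x74bfb8025ddc012bbe00 4094 (n false (n false (z 42) (z 46)) (z 52)) (t 4 1 (u 6 17 (k r (k r (k (u 10 1 (k r (k r r))) (k (c 3 4097 r r) (k (c 14 4097 r (u 10 1 (k r (k r r)))) (k (c 10 4095 r (u 14 1 (k r (k r r)))) r))))))))
 (.s 0x74bfb80255fe01d44510 4090 (n false (n false (z 46) (z 120)) (n true (n false (n false (n false e e) (n false e e)) (n false (n false e e) (n false e e))) e)) (t 4 1 (u 6 9 (k v (k (c 14 4099 r r) (k (c 14 4100 r r) (k (c 14 4099 r r) (k (c 10 4095 r (u 14 1 (k v (k v r)))) (k (c 14 4097 r r) (k (c 14 4096 r r) (k (c 14 4096 r (u 10 0 (k (u 18 0 (k v (k v r))) r))) (k (c 14 4100 r (u 10 0 (k (u 18 0 (k v (k v r))) r))) (k (c 14 4101 r r) (k (c 10 4099 r r) (k (c 14 4100 r r) (k (c 14 4097 r r) (k (c 14 4099 r r) (k (c 10 4099 r r) (k (c 14 4097 r r) r))))))))))))))))))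
 .z .z) .z))) (.s 0x74ebfc02555c013eae00 4094 (n false (n false (z 121) (z 32)) (z 35)) (u 3 4 (k (u 6 0 (k (t 10 3 (t 14 1 r)) r)) (k (t 6 2 r) (k (c 6 4096 r r) (k r r)))))
 (.s 0x74ebfc02555c013aff00 4095 (n false (n false (z 121) (z 32)) (z 121)) (u 3 7 (k (u 6 0 (k (t 10 3 (t 14 1 r)) r)) (k (u 6 0 (k (t 10 3 (t 14 1 r)) r)) (k (c 7 4099 r r) r))))
 (.s 0x74ebfc02555c012bff00 4094 (n false (n false (z 121) (z 32)) (z 124)) (u 3 3 (k (u 6 0 (k (t 10 3 (t 14 1 r)) r)) (k (u 6 0 (k (t 10 3 (t 14 1 r)) r)) (k (c 7 4097 r r) (k (c 7 4096 r r) (k (c 7 4097 r r) r))))))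
 (.s 0x74eae8027574012fff00 4094 (n false (z 126) (n false (z 17) (z 17))) (t 5 3 (t 7 3 (u 2 3 (k v (k (t 6 1 (u 4 20 (k v (k v (k (c 4 4092 r v) (k (c 8 4099 r (c 4 4092 r v)) r)))))) (k (c 3 4095 v (t 6 1 r)) r))))))
 .z .z) (.s 0x74ebfc02555c012fee00 4094 (n false (n false (z 121) (z 32)) (z 46)) (u 6 0 (k (t 10 3 (t 14 1 (u 3 26 (k r (k r (k r (k (c 7 4099 r (u 5 0 (k r (k r r)))) (k (t 4 2 r) (k (u 5 13 (k r (k r r))) r))))))))) r))
 .z .z)) (.s 0x74ebfc02555c013bbb00 4094 (n false (n false (z 121) (z 32)) (z 85)) (u 6 0 (k (t 10 3 (t 14 1 (u 3 14 (k r (k r (k (c 7 4099 r r) (k (t 4 2 r) (k (c 7 4099 r (t 4 2 (c 14 4101 v r))) (k (c 7 4096 r (t 4 2 (c 14 4101 v r))) r))))))))) r))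
 (.s 0x74ebfc02555c013bae00 4095 (n false (n false (z 121) (z 32)) (z 37)) (u 6 0 (k (t 10 3 (t 14 1 (u 3 18 (k r (k (u 4 9 (k v (k v (k v (k (c 12 4099 r (u 8 1 (k v (k v r)))) r))))) (k (t 4 2 (u 5 0 (k (t 9 3 (t 13 1 v)) r))) (k (t 4 2 r) (k (t 4 2 r) (k (t 4 2 (c 2 4094 v r)) r))))))))) r))
 .z .z) .z)) (.s 0x74eea8025ddc012bbe00 4094 (n false (n false (z 42) (z 5)) (z 52)) (t 6 1 (u 4 10 (k (c 6 4099 v r) (k (c 10 4101 v r) (k (t 8 3 (t 12 1 r)) (k (c 2 4090 r r) (k (c 12 4110 r r) (k (c 12 4110 r r) (k (c 12 4110 r (c 10 4101 v (u 8 1 (k r (k r r))))) (k (c 2 4090 (c 3 4099 v r) r) (k (c 12 4110 r (c 10 4101 v (u 8 1 (k r (k r r))))) (k (c 2 4090 r r) (k (c 2 4090 r r) r)))))))))))))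
 (.s 0x74ebfc025ddc013fab00 4094 (n false (n false (z 121) (z 42)) (z 71)) (u 3 7 (k (t 6 1 r) (k (t 6 1 r) (k r (k (c 7 4099 r (u 5 79 (k r (k (t 4 2 r) (k r (k r r)))))) r)))))
 (.s 0x74ebfc02555c013efb00 4094 (n false (n false (z 121) (z 32)) (z 91)) (u 6 0 (k (t 10 3 (t 14 1 (u 3 1 (k r (k r (k (t 4 2 v) (k (u 5 21 (k r (k r (k (u 4 9 (k v (k v (k v (k (c 12 4099 r (u 8 1 (k v (k v r)))) r))))) r)))) (k (c 5 4097 r (u 7 0 (k r (k r r)))) (k (c 5 4095 r (u 7 0 (k r (k r r)))) r))))))))) r))
 .z .z) (.s 0x74eea802577c012abb00 4096 (n false (n false (z 52) (z 5)) (z 80)) (c 6 4099 r (u 4 251 (k (u 3 0 (k (u 5 0 (k (c 13 4099 r r) r)) r)) (k (u 3 0 (k r r)) (k (c 2 4094 v r) (k (t 12 1 (u 8 2 (k (u 3 0 (k (u 5 0 (k (c 13 4099 r r) r)) r)) (k r r)))) r))))))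
 .z .z)) (.s 0x74eea8025ddc013eee00 4096 (n false (n false (z 42) (z 5)) (z 43)) (t 6 1 (u 4 51 (k r (k r (k (c 6 4099 v r) (k (c 2 4090 r (t 3 2 v)) (k (c 2 4090 (c 3 4099 v r) (t 3 2 v)) (k (c 2 4090 r (t 3 2 v)) (k (c 2 4090 r (t 3 2 v)) r)))))))))
 (.s 0x74eea8025ddc012efb00 4096 (n false (n false (z 42) (z 5)) (z 90)) (t 6 1 (u 4 53 (k r (k (c 10 4101 v r) (k (c 6 4099 v r) (k (c 2 4090 r (t 3 2 v)) (k (c 2 4090 r (t 3 2 v)) (k (c 2 4090 r (t 3 2 v)) r))))))))
 .z .z) .z))))

set_option maxRecDepth 100000 in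
def N183 : NT :=
(.s 0x74eeb802555c013bbb00 4094 (n false (n false (z 37) (z 32)) (z 85)) (u 6 0 (k (t 10 3 (t 14 1 (u 3 14 (k r (k (c 18 4099 v (c 14 4101 v r)) (k (c 7 4099 r r) (k (t 4 1 r) (k (c 7 4099 r (t 4 1 (c 14 4101 v r))) (k (c 7 4096 r (t 4 1 (c 14 4101 v r))) r))))))))) r))
 (.s 0x74eea80275f6012efb00 4096 (n false (z 90) (n false (z 89) (z 5))) (t 7 2 (u 2 16 (k r (k (c 7 4094 v r) (k r (k r (k (u 5 57 (k r (k r (k r r)))) r)))))))
 (.s 0x74eea8025fdc01fd4440 4091 (n false (n false (z 46) (z 5)) (n true (n true (n true (n false (n false (n false e e) (n false e e)) (n false e e)) e) e) e)) (t 6 1 (u 4 10 (k v (k (c 12 4099 r (u 8 0 (k v (k v r)))) (k (c 3 4088 v (c 10 4101 v r)) r)))))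
 (.s 0x74eea8025fdc01df40e0 4085 (n false (n false (z 46) (z 5)) (n true (n false (n true (n true (n false (n false e e) e) e) e) (n true (n false e e) e)) e)) (t 6 1 (u 4 10 (k v (k (c 12 4099 r (u 8 0 (k v (k v r)))) (k (c 6 4099 v (u 8 61 (k v (k v (k v r))))) r)))))
 (.s 0x74eea8025fdc01dd7080 4083 (n false (n false (z 46) (z 5)) (n true (n false (n true (n false (n false (n true (n false e e) e) (n false e e)) e) e) e) e)) (t 6 1 (u 4 2 (k v (k (c 12 4099 r (u 8 0 (k v (k v r)))) (k r (k (c 3 4088 v (c 10 4101 v r)) (k (c 12 4097 r r) (k (c 8 4095 r r) r))))))))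
 .z .z) (.s 0x74eea8025fdc01df7080 4082 (n false (n false (z 46) (z 5)) (n true (n false (n true (n true (n false (n true (n false e e) e) (n false e e)) e) e) e) e)) (t 6 1 (u 4 2 (k v (k (c 12 4099 r (u 8 0 (k v (k v r)))) (k r (k (c 3 4088 v (c 10 4101 v r)) (k (c 12 4097 r r) (k (c 8 4095 r r) r))))))))
 .z .z)) (.s 0x74eea80275f6012bbe00 4094 (n false (z 52) (n false (z 89) (z 5))) (t 7 1 (u 2 273 (k (c 11 4101 v r) (k (u 5 6 (k v (k v r))) (k r (k (c 11 4101 v r) (k (c 5 4098 r v) r)))))))
 (.s 0x74eea8025ffe01544510 4091 (n false (n false (z 126) (z 5)) (n false (n false (n false (n false e e) (n false e e)) (n false (n false e e) (n false e e))) e)) (t 6 1 (u 4 6 (k v (k (t 12 1 (u 8 11 (k v (k v (k (c 24 4099 r (u 16 6 (k v (k v (k v r))))) (k (c 16 4095 r (u 24 23 (k v (k v r)))) (k (c 16 4095 r (u 24 23 (k v (k v r)))) r))))))) (k (t 12 2 (c 6 4099 v (u 8 1 (k v (k (c 24 4096 r (u 16 2 (k v (k v r)))) (k (c 24 4096 r r) (k (c 24 4096 r r) r))))))) (k (t 12 2 (c 6 4099 v (u 8 3 (k v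 (k (c 24 4096 r (u 16 2 (k v (k v r)))) (k (c 24 4097 r r) (k (c 24 4096 r r) (k (c 24 4096 r r) r)))))))) r))))))
 .z .z) .z)) (.s 0x74eeb802555c012fee00 4094 (n false (z 46) (n false (z 37) (z 32))) (u 7 0 (k (t 11 3 (t 15 1 (u 5 1 (k (c 15 4101 v r) (k (u 2 4 (k v (k v (k (c 6 4099 r (u 4 0 (k v (k v r)))) (k (c 9 4099 v (c 13 4099 v r)) (k (u 4 68 (k v (k v r))) r)))))) r))))) r))
 (.s 0x74eea80275fe01fd4440 4091 (n false (n false (z 121) (z 5)) (n true (n true (n true (n false (n false (n false e e) (n false e e)) (n false e e)) e) e) e)) (t 6 1 (u 4 5 (k v (k v (k v (k (c 12 4099 r (u 8 1 (k v (k v r)))) (k (c 8 4097 r r) r)))))))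
 (.s 0x74eea80275f6013eff00 4094 (n false (n false (z 89) (z 5)) (z 123)) (t 6 2 (u 3 23 (k r (k r (k (t 7 1 (u 4 63 (k r (k (c 11 4101 v r) (k (c 6 4094 v (c 7 4099 v r)) (k (t 12 3 (u 5 63 (k (c 6 4094 v (u 8 364 (k v (k v (k v (k v (k v (k v r)))))))) (k (c 11 4101 v (c 12 4110 v r)) (k (c 7 4099 v r) (k (t 8 1 r) r)))))) r)))))) (k r r))))))
 .z .z) (.s 0x74eeb802555c012bff00 4094 (n false (z 124) (n false (z 37) (z 32))) (u 7 0 (k (t 11 3 (t 15 1 (u 2 3 (k r (k (u 5 1 (k v (k v r))) (k (c 6 4097 r r) (k (c 6 4096 r r) (k (c 6 4097 r r) r)))))))) r))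
 .z .z)) (.s 0x74eeb802555c013bae00 4095 (n false (n false (z 37) (z 32)) (z 37)) (u 4 1 (k (u 6 0 (k (c 14 4101 r (t 10 3 r)) r)) (k (u 6 0 (k (t 10 3 (t 14 1 (u 3 18 (k v (k v (k (c 8 4099 v (c 12 4099 v (u 5 0 (k (t 9 3 (t 13 1 v)) r)))) (k (c 8 4099 v (c 12 4099 v r)) (k (c 8 4099 v (c 12 4099 v r)) (k (c 8 4099 v (c 12 4099 v (c 2 4094 v r))) r))))))))) r)) r)))
 (.s 0x74eeb802555c013aff00 4095 (n false (z 121) (n false (z 37) (z 32))) (u 7 0 (k (t 11 3 (t 15 1 (u 5 1 (k (c 15 4101 v r) (k (u 2 7 (k v (k v (k (c 6 4099 r (u 4 1 (k v (k v r)))) r)))) r))))) r))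
 .z .z) .z))) (.s 0x74faac02775c01d44510 4090 (n false (n false (z 67) (z 37)) (n true (n false (n false (n false e e) (n false e e)) (n false (n false e e) (n false e e))) e)) (u 6 23 (k r (k (u 4 50 (k v (k v (k v (k (c 8 4101 r r) (k (c 10 4099 v (c 14 4099 v r)) (k (c 8 4099 r r) (k (c 12 4101 r r) (k (c 12 4102 r r) (k (c 8 4101 r r) (k (c 8 4101 r r) r))))))))))) (k (c 10 4096 r r) (k (c 10 4096 r r) (k (c 10 4096 r r) r))))))
 (.s 0x74faac0275fe012bbe00 4094 (n false (n false (z 67) (z 121)) (z 52)) (u 6 1 (k (t 4 1 r) (k (c 14 4099 r (t 4 1 (u 10 1 (k r (k r r))))) (k (c 10 4097 r (t 4 2 (u 14 1 (k r (k r r))))) (k (c 10 4095 r (t 4 1 (c 3 4097 r r))) (k (c 10 4095 r (t 4 1 (c 3 4097 r r))) r))))))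
 (.s 0x74eeb8025ddc013fab00 4094 (n false (n false (z 42) (z 37)) (z 71)) (u 3 7 (k (t 4 1 r) (k (t 4 1 r) (k r (k (c 7 4099 r (u 6 1 (k (u 5 1 (k r (k r r))) (k (u 5 57 (k (u 4 1 (k v (k v r))) (k (u 4 1 (k v (k v r))) (k (u 4 1 (k v (k v r))) (k (u 4 1 (k v (k v r))) r))))) r)))) r)))))
 (.s 0x74eeb802555c013efb00 4094 (n false (z 91) (n false (z 37) (z 32))) (u 7 0 (k (t 11 3 (t 15 1 (u 2 1 (k r (k (u 5 1 (k v (k v r))) (k (t 5 1 v) (k (u 5 1 (k (c 2 4098 (u 2 0 (k v (k v r))) v) (k (u 4 0 (k v (k v r))) r))) (k (c 4 4097 r (t 5 1 r)) (k (c 4 4095 r (t 5 1 r)) r))))))))) r))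
 .z .z) (.s 0x74efb8027554012fff00 4094 (n false (z 126) (n false (z 45) (z 1))) (t 7 1 (u 2 3 (k (u 5 0 (k v (k v r))) (k (t 6 1 (u 5 0 (k (c 5 4094 v r) (k (u 4 20 (k v (k v (k (c 4 4095 r v) (k (c 8 4099 r (c 4 4092 r v)) r))))) r)))) (k (c 3 4095 (u 2 0 (k v (k v r))) (t 6 1 r)) r)))))
 .z .z)) (.s 0x74faac02775c012bbe00 4094 (n false (n false (z 67) (z 37)) (z 52)) (u 6 1 (k (c 3 4097 r r) (k (t 4 1 (u 3 153 (k v (k v (k v (k (t 7 1 (u 5 0 (k v (k v r)))) r)))))) r)))
 (.s 0x74faac0275fe01d44510 4090 (n false (n false (z 121) (z 67)) (n true (n false (n false (n false e e) (n false e e)) (n false (n false e e) (n false e e))) e)) (u 4 1 (k r (k (c 12 4099 r (u 8 1 (k r (k r r)))) (k (c 8 4097 r (u 12 1 (k r (k r r)))) (k (c 8 4095 r (t 6 2 (c 5 4101 v r))) (k (c 8 4095 r (t 6 2 (c 5 4101 v r))) r))))))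
 .z .z) .z)) (.s 0x74faac02a2288e5fd400 4091 (n false (n false (z 67) (n false (n false (n false e e) (n false e e)) (n false (n false e e) (n false e e)))) (n true (z 14) e)) (u 5 0 (k (u 4 0 (k v (k v r))) (k (u 4 0 (k v (k v r))) r)))
 (.s 0x74faac02a2288e577c00 4091 (n false (n false (z 67) (n false (n false (n false e e) (n false e e)) (n false (n false e e) (n false e e)))) (n true (z 52) e)) (u 5 291 (k (u 4 0 (k v (k v r))) (k (u 4 0 (k v (k v r))) (k (u 4 0 (k v (k v r))) (k (c 4 4103 r v) (k (c 2 4095 (u 2 0 (k v (k v r))) v) (k (u 4 0 (k v (k v r))) (k (t 13 1 (u 9 0 (k (u 4 0 (k v (k v r))) (k (u 4 0 (k v (k v r))) r)))) r))))))))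
 (.s 0x74faac02a2288a75f600 4094 (n false (n false (z 67) (n false (n false (n false e e) (n false e e)) (n false (n false e e) (n false e e)))) (n false (z 89) e)) (u 5 24 (k (u 4 0 (k v (k v r))) (k r (k (u 4 0 (k v (k v r))) (k (t 13 2 (u 9 134 (k (u 4 0 (k v (k v r))) (k (t 25 1 (u 17 0 (k (c 17 4094 v (u 4 0 (k v (k v r)))) (k (u 4 0 (k v (k v r))) r)))) (k (c 5 4089 (t 6 2 (u 4 0 (k r r))) r) r))))) r)))))
 .z .z) (.s 0x74faac02a2288e5ddc00 4095 (n false (n false (z 67) (n false (n false (n false e e) (n false e e)) (n false (n false e e) (n false e e)))) (n true (z 42) e)) (u 5 1 (k (u 4 0 (k v (k v r))) (k (u 4 0 (k v (k v r))) r)))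
 .z .z)) (.s 0x74faac02a2288e75fe00 4096 (n false (n false (z 67) (n false (n false (n false e e) (n false e e)) (n false (n false e e) (n false e e)))) (n true (z 121) e)) (u 5 2 (k r (k (u 4 0 (k v (k v r))) (k (c 13 4099 r (u 9 1 (k r (k r r)))) (k (c 9 4095 r (u 13 23 (k r (k r r)))) (k (c 9 4095 r (u 13 23 (k r (k r r)))) r))))))
 (.s 0x74faac02a2288e5ffc00 4091 (n false (n false (z 67) (n false (n false (n false e e) (n false e e)) (n false (n false e e) (n false e e)))) (n true (z 62) e)) (u 5 1 (k (u 4 0 (k v (k v r))) (k (u 4 0 (k v (k v r))) (k (c 4 4103 r v) (k (t 13 1 (u 9 134 (k (u 4 0 (k v (k v r))) (k (t 25 1 (u 4 0 (k (u 17 0 (k v (k v r))) (k (u 17 0 (k v (k v r))) r)))) (k (c 5 4089 (t 6 2 (u 4 0 (k r r))) r) r))))) r)))))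
 .z .z) .z))))

set_option maxRecDepth 100000 in
def N184 : NT :=
(.s 0x752afa008e7d5c00ee10 4087 (n false (n false (n false (z 24) (n false e e)) (n true (z 35) e)) (n true (n false (n true (n false e e) e) (n false e e)) e)) (u 10 10 (k (u 8 0 (k (t 16 3 (t 24 1 v)) r)) (k (u 8 0 (k (t 16 3 (t 24 1 v)) r)) (k (c 6 4094 v (u 8 0 (k (t 16 3 (t 24 1 v)) r))) (k (t 26 1 (u 8 0 (k (t 16 3 (t 24 1 (u 18 0 (k (t 34 3 (t 50 1 v)) r)))) r))) r)))))
 (.s 0x74fab802775c013bbb00 4094 (n false (n false (z 37) (z 35)) (z 85)) (u 6 0 (k (u 4 0 (k r (k (c 3 4099 r r) (k r (k r (k (u 8 2 (k r (k r (k (c 2 4073 v (t 3 1 v)) (k r r))))) (k r r))))))) (k (t 4 1 r) (k (t 14 1 (u 4 23 (k (c 2 4094 r (t 3 1 v)) (k r (k (c 3 4099 r (c 10 4098 r (u 8 0 (k (t 16 3 (t 24 1 v)) r)))) (k r (k (c 2 4088 r (t 3 1 v)) r))))))) r))))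
 (.s 0x74faac02a2288e7f7600 4093 (n false (n true (z 87) e) (n false (z 67) (n false (n false (n false e e) (n false e e)) (n false (n false e e) (n false e e))))) (u 4 1 (k (u 5 0 (k v (k v r))) (k (u 5 0 (k v (k v r))) r)))
 (.s 0x74faac02a2288e7d7c00 4091 (n false (n false (z 67) (n false (n false (n false e e) (n false e e)) (n false (n false e e) (n false e e)))) (n true (z 51) e)) (u 5 0 (k (t 13 1 (u 9 0 (k (t 17 3 (t 25 3 (u 4 0 (k v (k v r))))) r))) r))
 (.s 0x74faac02a2288e7d5600 4096 (n false (n false (z 67) (n false (n false (n false e e) (n false e e)) (n false (n false e e) (n false e e)))) (n true (z 67) e)) (u 5 28 (k (u 4 0 (k v (k v r))) (k (u 4 0 (k v (k v r))) (k r (k (c 13 4101 r (u 9 1 (k r (k r r)))) (k r (k (c 9 4101 r (u 13 1 (k r (k r r)))) (k r (k (c 9 4101 r (u 13 1 (k r (k r r)))) r)))))))))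
 .z .z) (.s 0x74faac02a2288e7f5e00 4096 (n false (n false (z 67) (n false (n false (n false e e) (n false e e)) (n false (n false e e) (n false e e)))) (n true (z 103) e)) (u 5 6 (k (u 4 0 (k v (k v r))) (k (t 13 1 r) (k (t 9 2 r) (k (t 9 1 r) r)))))
 .z .z)) (.s 0x74fab80275fe013bbb00 4094 (n false (n false (z 121) (z 35)) (z 85)) (u 6 0 (k (u 4 1 (k r (k (c 12 4099 r (u 8 1 (k r (k r r)))) (k (c 8 4097 r (u 12 1 (k r (k r r)))) (k (c 8 4095 r (u 12 0 (k r (k r r)))) (k (c 8 4095 r (u 12 0 (k r (k r r)))) r)))))) (k (t 4 2 r) (k (t 14 1 (u 10 0 (k (t 18 3 (t 26 1 (u 4 64 (k r (k r (k r (k (c 12 4099 r r) (k (c 8 4097 r (u 12 31 (k r (k r (k r r))))) (k (c 8 4095 r (u 12 0 (k r (k r r)))) (k (c 8 4095 r (u 12 0 (k r (k r r)))) r)))))))))) r))) r))))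
 (.s 0x74fab8025d7c013bbb00 4094 (n false (n false (z 50) (z 35)) (z 85)) (u 4 1 (k (u 6 0 (k r (k (c 8 4092 v r) (k (t 14 1 (u 10 0 (k (t 18 3 (t 26 1 r)) r))) r)))) (k (c 12 4097 r (u 6 0 (k (u 8 0 (k r (k r r))) (k (c 8 4097 r r) (k (t 14 1 (u 10 0 (k (t 18 3 (t 26 1 (u 8 0 (k r (k r r))))) r))) r))))) r)))
 .z .z) .z)) (.s 0x74feec03ea220e7d5600 4086 (n false (n false (z 87) (n true (n true (n false (n false (n false e e) (n false e e)) (n false e e)) e) e)) (n true (z 67) e)) (u 4 0 (k (u 5 129 (k v (k v (k v (k (t 13 1 (u 9 1 (k v (k v r)))) (k (c 10 4090 v r) (k r (k (c 10 4090 v (c 8 4094 v r)) (k r (k (c 10 4090 v (c 8 4094 v r)) r)))))))))) (k (u 5 0 (k v (k v r))) r)))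
 (.s 0x74fbbc025554012fbf00 4094 (n false (n false (z 107) (z 0)) (z 118)) (t 6 1 (u 3 3 (k r (k (t 7 1 r) (k (t 7 1 (u 4 11 (k r (k (c 2 4092 v r) (k (c 12 4099 r (u 5 8 (k (c 3 4092 v r) (k (c 13 4099 r (u 8 13 (k r (k (c 2 4092 v r) (k r (k (t 24 1 (u 9 26 (k r (k r (k (c 24 4099 v (c 3 4092 v (u 16 1 (k v (k v r))))) (k (c 25 4099 r r) r)))))) r)))))) r)))) r))))) r)))))
 (.s 0x74fbb8027754012fea00 4096 (n false (n false (z 43) (z 5)) (z 14)) (t 6 1 (u 3 0 (k r (k (u 4 10 (k v (k v (k (u 8 35 (k v (k v (k v r)))) (k (u 8 16 (k v (k v (k (c 6 4099 v (u 16 15 (k v (k v (k v r))))) (k (c 24 4099 r (u 16 0 (k v (k v r)))) (k (c 2 4097 (u 8 1 (k v (k v r))) v) r)))))) (k (c 2 4088 r v) (k (u 8 0 (k (u 16 0 (k v (k v r))) r)) (k r (k (u 8 4 (k v (k (c 24 4099 r (u 16 1 (k v (k v r)))) r))) r))))))))) r))))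
 .z .z) (.s 0x74feec0275fe01fd4440 4091 (n false (n false (z 121) (z 87)) (n true (n true (n true (n false (n false (n false e e) (n false e e)) (n false e e)) e) e) e)) (u 4 66 (k (c 6 4099 r v) (k (u 6 0 (k v (k v r))) (k (u 6 17 (k v (k v r))) (k (c 3 4088 v (t 6 1 v)) (k (c 8 4097 r r) r))))))
 .z .z)) (.s 0x752afa008a7d5c00ee10 4085 (n false (n false (n false (z 24) (n false e e)) (n false (z 35) e)) (n true (n false (n true (n false e e) e) (n false e e)) e)) (u 10 0 (k (u 8 0 (k (t 16 3 (t 24 1 v)) r)) (k (c 4 4096 (c 2 4098 r v) v) (k (t 26 1 r) r))))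
 (.s 0x74fef802775401d44510 4090 (n false (n false (z 55) (z 5)) (n true (n false (n false (n false e e) (n false e e)) (n false (n false e e) (n false e e))) e)) (t 6 1 (u 4 4 (k (t 12 1 (u 8 23 (k v (k v (k v (k v (k (u 16 2 (k v (k v r))) r))))))) (k (t 12 2 (c 6 4099 v r)) r))))
 .z .z) .z))) (.s 0x754abe80212bbe00ee10 4081 (n false (n false (z 52) (n false (n false (z 24) (n false e e)) e)) (n true (n false (n true (n false e e) e) (n false e e)) e)) (u 4 220 (k (u 18 0 (k (t 34 3 (t 50 1 v)) r)) (k (c 10 4096 (c 2 4098 r v) v) (k (c 10 4096 (c 2 4098 r v) v) (k (c 2 4085 (u 9 0 (k (t 17 3 (t 25 1 v)) r)) v) (k (u 18 0 (k (t 34 3 (t 50 1 v)) r)) (k r (k (c 6 4101 (u 4 0 (k (t 8 3 (t 12 1 v)) r)) r) r))))))))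
 (.s 0x753bee008e7d5600ae10 4088 (n false (n false (n false (z 45) (n false e e)) (n true (z 67) e)) (n false (n false (n true (n false e e) e) (n false e e)) e)) (u 10 0 (k (u 8 2 (k v (k v r))) (k (u 8 2 (k v (k v r))) r)))
 (.s 0x752bfa800e1d2eee00e0 4086 (n false (n true (n false (z 42) (n true (n false e e) e)) e) (n false (n false (z 156) e) (n true (n false e e) e))) (c 12 4094 v (u 9 8 (k (u 8 1 (k v (k v r))) (k (c 2 4098 (c 4 4100 r v) v) (k (c 25 4099 r r) (k (c 17 4098 r r) (k (c 17 4097 r r) (k (c 17 4099 r r) r))))))))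
 (.s 0x752bae0095550047dc20 4076 (n false (n false (n false (z 36) (z 0)) (n false e e)) (n true (n true (n false (n true (n false e e) e) (n false e e)) e) e)) (t 12 1 (u 8 0 (k (u 16 2 (k v (k (c 8 4084 (u 4 1 (k v (k v r))) v) r))) r)))
 .z .z) (.s 0x753bee008e5ddc00ae10 4086 (n false (n false (n false (z 45) (n false e e)) (n true (z 42) e)) (n false (n false (n true (n false e e) e) (n false e e)) e)) (u 10 31 (k (u 8 2 (k v (k v r))) (k (u 8 2 (k v (k v r))) (k (u 8 2 (k v (k v r))) r))))
 .z .z)) (.s 0x754451174414afea0070 4077 (n false (n false (z 156) (n true (n false e e) e)) (n false (n false (n true (n false (n false e e) (n false e e)) e) e) (n false (n false (n false e e) (n false e e)) (n false (n false e e) (n false e e))))) (u 4 19 (k v (k v (k (c 12 4099 r (u 8 1 (k v (k v r)))) (k (c 8 4099 r (u 12 1 (k v (k v r)))) (k (c 8 4095 r (c 3 4083 v r)) r))))))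
 (.s 0x753bee008e7f7600ae10 4084 (n false (n false (n false (z 45) (n false e e)) (n true (z 87) e)) (n false (n false (n true (n false e e) e) (n false e e)) e)) (u 8 2 (k (u 10 1 (k v (k v r))) (k (u 10 1 (k v (k v r))) r)))
 .z .z) .z)) (.s 0x754aeb8025554010ae10 4076 (n false (n false (n false (n false (z 36) (z 0)) (n false e e)) e) (n false (n false (n true (n false e e) e) (n false e e)) e)) (t 24 1 (u 16 0 (k (u 32 2 (k v (k (c 16 4084 (u 4 1 (k v (k v r))) v) r))) r)))
 (.s 0x754abe8021708e5ffc00 4081 (n false (n false (n false (n false (z 24) (n false e e)) e) (n false (n true (n false e e) e) (n false e e))) (n true (z 62) e)) (u 16 0 (k (t 32 3 (t 48 1 (u 5 4 (k v (k v (k v (k (t 13 1 (u 9 41 (k v (k v (k (t 25 1 (u 17 0 (k v (k v r)))) r))))) r))))))) r))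
 (.s 0x754abe80214abe8023a0 4088 (n false (n false (n false (n false (z 24) (n false e e)) e) (n false (z 24) (n false e e))) (n true (n false (n false e e) e) e)) (u 10 0 (k (t 18 3 (t 26 1 (u 16 0 (k (t 32 3 (t 48 1 v)) r)))) r))
 .z .z) (.s 0x754abe8021708e7f7c00 4081 (n false (n false (n false (n false (z 24) (n false e e)) e) (n false (n true (n false e e) e) (n false e e))) (n true (z 55) e)) (u 5 4 (k (t 13 1 (u 16 0 (k (t 32 3 (t 48 1 (u 9 2 (k v (k (t 17 3 (t 25 1 v)) (k (c 4 4101 v r) r)))))) r))) (k (c 4 4101 (u 4 0 (k (t 8 3 (t 12 1 v)) r)) (t 13 2 r)) r)))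
 .z .z)) (.s 0x754fba8025df400e1708 4065 (n false (n false (n false (n false (z 11) (z 26)) e) (n true (n false e e) e)) (n false (n true (n false e e) e) (n false e e))) (t 16 2 (u 24 2 (k v (k (u 40 1 (k v (k v r))) r))))
 (.s 0x754aeb8025554010ee10 4076 (n false (n false (n false (n false (z 36) (z 0)) (n false e e)) e) (n true (n false (n true (n false e e) e) (n false e e)) e)) (t 24 1 (u 16 0 (k (u 32 2 (k v (k (c 16 4084 (u 4 1 (k v (k v r))) v) r))) r)))
 .z .z) .z))))

end Pool.Agent.Helper91.ND1
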