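import Pool.Agent.Helper66.ND.Defs

/-! part of the certificate for the constant 25/48 (generated) -/

namespace Pool.Agent.Helper91.ND1

open Pool.Agent.Helper66.IL
open Pool.Agent.Helper66.ND
open Pool.Agent.Helper66.ND.LT
open Pool.Agent.Helper66.ND.Ct

set_option maxRecDepth 100000 in
def N185 : NT :=
(.s 0x7573bee0042577c01708 4074 (n false (n false (z 52) (n false (n false (n true (z 45) e) (n false e e)) e)) (n false (n true (n false e e) e) (n false e e))) (u 34 4 (k (u 4 26 (k v (k v (k v r)))) (k (t 98 1 (u 66 4 (k (u 4 26 (k v (k v (k v r)))) (k (u 4 26 (k v (k v (k v r)))) r)))) r)))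
 (.s 0x75511444770874feac00 4083 (n false (n true (n false (z 71) e) e) (n false (n true (n false (n true (n false e e) e) (n false e e)) e) (n false (n false (n false (n false e e) (n false e e)) (n false (n false e e) (n false e e))) (n false e e)))) (u 8 6 (k (c 24 4099 r r) (k (c 2 4082 r v) (k (u 16 0 (k v (k (c 48 4101 r (u 32 1 (k v (k v r)))) (k (c 32 4101 r (u 48 1 (k v (k v r)))) (k (c 32 4101 r (u 48 1 (k v (k v r)))) r))))) (k (c 16 4099 r r) (k (c 16 4099 r r) (k (c 16 4099 r r) r)))))))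
 (.s 0x755114445c23a77dc010 4087 (n false (n true (n false (z 45) (n false e e)) e) (n false (n false (n true (n false e e) e) (n false e e)) (n false (n false (n false (n false e e) (n false e e)) (n false (n false e e) (n false e e))) (n false e e)))) (c 7 4099 v (u 8 0 (k v (k v r))))
 (.s 0x755114444fbb803fb840 4085 (n false (n true (n true (n true (n false (n true (n false e e) e) (n false e e)) e) e) e) (n false (z 43) (n false (n false (n false (n false e e) (n false e e)) (n false (n false e e) (n false e e))) (n false e e)))) (u 5 0 (k v (k (u 9 1 (k v (k v r))) (k (c 13 4099 r (u 9 0 (k (u 17 0 (k v (k v r))) r))) (k r (k (c 3 4088 r v) (k (u 9 0 (k (u 17 0 (k v (k v r))) r)) (k r (k r r)))))))))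
 (.s 0x755114444ebfc03be880 4080 (n false (n false (z 121) (n false (n false (n false (n false e e) (n false e e)) (n false (n false e e) (n false e e))) (n false e e))) (n true (n false (n true (n true (n false (n false e e) (n false e e)) e) e) e) e)) (u 4 9 (k v (k v (k v (k (c 12 4099 r (u 8 1 (k v (k v r)))) r)))))
 .z .z) (.s 0x7551144455110e7d5600 4090 (n false (n false (n false (n false (n false (n false e e) (n false e e)) (n false e e)) e) (n false (n false (n false (n false e e) (n false e e)) (n false (n false e e) (n false e e))) (n false e e))) (n true (z 67) e)) (u 5 51 (k v (k v (k v (k v (k (t 13 1 (u 9 1 (k v (k v r)))) (k (c 9 4101 r (c 10 4101 v (c 8 4091 v (u 13 0 (k v (k v r)))))) (k (t 13 1 (c 10 4101 v (c 8 4091 v r))) (k (c 10 4101 v (c 8 4091 v (c 3 4088 r v))) (k r (k (c 8 4091 v r) (k (t 13 1 (u 9 9 (k v (k v (k v (k (c 25 4099 r (u 17 1 (k v (k v r)))) r)))))) (k (c 13 4102 r (c 10 4101 v (c 8 4091 v (u 9 1 (k v (k v r)))))) (k (c 8 4091 v (c 10 4101 v r)) (k r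 (k (c 8 4091 v (c 10 4101 v r)) r))))))))))))))))
 .z .z)) (.s 0x75511444770874faac00 4088 (n false (n true (n false (z 67) e) e) (n false (n true (n false (n true (n false e e) e) (n false e e)) e) (n false (n false (n false (n false e e) (n false e e)) (n false (n false e e) (n false e e))) (n false e e)))) (u 8 55 (k v (k v (k v (k v (k (c 24 4099 r r) (k (c 24 4097 r r) (k (c 24 4099 r r) (k (c 4 4088 r v) (k (c 24 4099 r (u 16 0 (k (u 32 0 (k v (k v r))) r))) (k (c 16 4099 r r) (k (c 24 4099 r r) (k (c 16 4099 r (u 24 0 (k (u 40 0 (k v (k v r))) r))) (k (c 24 4099 r r) (k (c 24 4099 r r) (k (c 24 4099 r r) r))))))))))))))))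
 (.s 0x75511444741dcafea000 4087 (n false (n true (n false (n true (z 156) e) e) e) (n false (n true (n false (n false e e) e) e) (n false (n false (n false (n false e e) (n false e e)) (n false (n false e e) (n false e e))) (n false e e)))) (u 16 8 (k v (k v (k (c 48 4099 r (u 32 1 (k v (k v r)))) (k (c 32 4098 r (u 48 1 (k v (k v r)))) (k (c 32 4097 r (u 48 1 (k v (k v r)))) (k (c 32 4099 r (u 48 1 (k v (k v r)))) r)))))))
 .z .z) .z)) (.s 0x755445111c3852afa008 4086 (n false (n false (n false (n false (n false (n false (n false e e) (n false e e)) (n false (n false e e) (n false e e))) (n false e e)) (n true (n false e e) e)) (n true (n false e e) e)) (n false (z 24) (n false e e))) (c 12 4094 v (u 5 0 (k (t 9 3 (t 13 1 v)) r)))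
 (.s 0x7554451114ebfc011d10 4081 (n false (n false (n false (n false (z 121) e) (n false (n false (n false (n false e e) (n false e e)) (n false (n false e e) (n false e e))) (n false e e))) (n false e e)) (n true (n false (n false e e) (n false e e)) e)) (c 12 4099 v (u 16 2 (k v (k v (k (c 48 4099 r (u 32 1 (k v (k v r)))) (k (c 32 4095 r (c 4 4076 r v)) (k (c 32 4095 r (c 4 4076 r v)) r)))))))
 (.s 0x7553bee0042577c01708 4072 (n false (n false (n false (n false (n false (z 45) e) (n false e e)) e) (z 52)) (n false (n true (n false e e) e) (n false e e))) (u 32 4 (k r (k (t 96 1 (u 6 74 (k (u 64 4 (k v (k v r))) (k (c 64 4101 r v) (k (c 32 4099 (c 2 4101 r v) v) (k (u 64 4 (k v (k v r))) r)))))) r)))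
 .z .z) (.s 0x7554451114eeb8011d10 4081 (n false (n false (n false (n false (z 37) e) (n false (n false (n false (n false e e) (n false e e)) (n false (n false e e) (n false e e))) (n false e e))) (n false e e)) (n true (n false (n false e e) (n false e e)) e)) (u 16 40 (k v (k v (k v (k (c 12 4099 v (u 32 22 (k v (k v (k (t 96 1 (u 64 0 (k (t 128 3 (t 192 1 v)) r))) r))))) r)))))
 .z .z)) (.s 0x7572fea0070754451108 4069 (n false (n false (n false (n false (n true (z 14) e) (n true (n false e e) e)) e) (n true (n false (n false (n false (n false e e) (n false e e)) (n false (n false e e) (n false e e))) (n false e e)) e)) (n false e e)) (c 10 4099 v (u 32 0 (k v (k v r))))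
 (.s 0x7572fea002a88a222288 4084 (n false (n false (n false (n false (n true (z 14) e) e) (n false (n false (n false (n false e e) (n false e e)) (n false (n false e e) (n false e e))) (n false e e))) (n false e e)) (n false (n false e e) (n false e e))) (c 4 4085 (u 8 0 (k v (k v r))) v)
 .z .z) .z))) (.s 0x75d5114442288e75fe00 4091 (n false (n true (z 121) e) (n false (n false (n true (n false (n false (n false (n false e e) (n false e e)) (n false (n false e e) (n false e e))) (n false e e)) e) (n false e e)) (n false (n false e e) (n false e e)))) (u 4 2 (k v (k v (k (c 12 4099 r (u 8 1 (k v (k v r)))) (k (c 8 4095 r (u 12 0 (k v (k v r)))) (k (c 8 4095 r (u 12 0 (k v (k v r)))) r))))))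
 (.s 0x75d5114442172bfa8008 4077 (n false (n false (n true (z 156) e) (n false e e)) (n false (n false (n true (n false (n false (n false (n false e e) (n false e e)) (n false (n false e e) (n false e e))) (n false e e)) e) (n false e e)) e)) (u 8 1 (k v (k (c 24 4099 r (u 16 1 (k v (k v r)))) (k (c 16 4098 r (u 24 1 (k v (k v r)))) (k (c 16 4097 r r) (k (c 16 4099 r (u 24 1 (k v (k v r)))) (k (c 16 4095 r (u 24 0 (k v (k v r)))) r)))))))
 (.s 0x757cebfc008ea88a2210 4087 (n false (n false (n false (n false (n true (n true (z 121) e) e) (n false e e)) (n true (n false (n false (n false (n false e e) (n false e e)) (n false (n false e e) (n false e e))) (n false e e)) e)) (n false e e)) e) (u 64 1 (k v (k (c 192 4099 r (u 128 1 (k v (k v r)))) (k (c 128 4097 r (u 192 1 (k v (k v r)))) (k (c 128 4095 r (u 192 0 (k v (k v r)))) (k (c 128 4095 r (u 192 0 (k v (k v r)))) r))))))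
 (.s 0x7573fbb002a88a222288 4084 (n false (n false (n false (n false (n true (z 87) e) e) (n false (n false (n false (n false e e) (n false e e)) (n false (n false e e) (n false e e))) (n false e e))) (n false e e)) (n false (n false e e) (n false e e))) (c 12 4099 v (u 32 1 (k v (k v r))))
 .z .z) (.s 0x75d3fbe009dd50021708 4068 (n false (n false (n false (n true (n false (z 55) (z 5)) e) (n false e e)) e) (n false (n true (n false e e) e) (n false e e))) (t 48 1 (u 32 4 (k (t 96 1 (u 64 4 (k v (k v (k (u 128 4 (k v (k (t 384 1 (u 256 4 (k v (k v r)))) r))) (k (u 128 4 (k v (k (t 384 1 (u 256 4 (k v (k v r)))) r))) (k r (k r r)))))))) (k (t 96 2 (c 48 4099 v (u 64 2 (k v (k (c 16 4082 (u 8 1 (k v (k v r))) v) r))))) r))))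
 .z .z)) (.s 0x75d5114442288e5fdc00 4091 (n false (n true (z 46) e) (n false (n false (n true (n false (n false (n false (n false e e) (n false e e)) (n false (n false e e) (n false e e))) (n false e e)) e) (n false e e)) (n false (n false e e) (n false e e)))) (u 4 1 (k v (k (u 8 1 (k v (k v r))) (k (c 12 4099 r (u 8 0 (k v (k v r)))) (k (u 8 0 (k v (k v r))) (k (c 12 4097 r (u 8 1 (k v (k v r)))) (k (c 8 4095 r (u 12 1 (k v (k v r)))) r)))))))
 (.s 0x75d511444217cbbb8008 4076 (n false (n false (n true (n true (z 42) e) e) (n false e e)) (n false (n false (n true (n false (n false (n false (n false e e) (n false e e)) (n false (n false e e) (n false e e))) (n false e e)) e) (n false e e)) e)) (c 17 4099 v (u 16 1 (k v (k v r))))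
 .z .z) .z)) (.s 0x75d5114443870e7f7e00 4086 (n false (n true (z 119) e) (n false (n false (n true (n false (n false (n false (n false e e) (n false e e)) (n false (n false e e) (n false e e))) (n false e e)) e) (n true (n false e e) e)) (n true (n false e e) e))) (u 4 51 (k v (k v (k r (k (c 8 4097 r (c 17 4099 v (c 7 4094 v r))) (k r (k (c 8 4097 r r) (k (c 2 4088 (t 6 2 (u 4 0 (k r r))) v) (k (c 12 4097 r (c 17 4099 v (c 7 4094 v r))) (k (t 12 1 r) (k r (k r (k r (k r r))))))))))))))
 (.s 0x75d5114443870e7dfe00 4084 (n false (n false (n false (n true (n false (n false (n false (n false e e) (n false e e)) (n false (n false e e) (n false e e))) (n false e e)) e) (n true (n false e e) e)) (n true (n false e e) e)) (n true (z 123) e)) (u 5 53 (k v (k r (k (u 9 4 (k v (k v r))) (k r (k (c 16 4099 v (c 6 4094 v r)) (k r (k (t 9 1 r) (k (t 9 2 (c 16 4099 v r)) r)))))))))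
 (.s 0x75d5114442288e775c00 4091 (n false (n true (z 37) e) (n false (n false (n true (n false (n false (n false (n false e e) (n false e e)) (n false (n false e e) (n false e e))) (n false e e)) e) (n false e e)) (n false (n false e e) (n false e e)))) (u 4 0 (k v (k (u 8 0 (k (t 16 3 (t 24 1 v)) r)) (k (u 8 0 (k (t 16 3 (t 24 1 v)) r)) (k (u 8 2 (k v (k v (k v (k (t 24 1 (u 16 0 (k (t 32 3 (t 48 1 v)) r))) r))))) (k (u 8 0 (k v (k v (k (t 24 1 (u 16 0 (k (t 32 3 (t 48 1 v)) r))) r)))) (k (c 2 4088 r v) r)))))))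
 .z .z) (.s 0x75d5114443870e7f5600 4084 (n false (n true (z 71) e) (n false (n false (n true (n false (n false (n false (n false e e) (n false e e)) (n false (n false e e) (n false e e))) (n false e e)) e) (n true (n false e e) e)) (n true (n false e e) e))) (u 4 6 (k (t 12 2 r) (k (c 17 4099 v (c 7 4094 v r)) (k (c 17 4099 v (c 7 4094 v r)) (k (t 8 1 r) (k (t 8 1 r) (k (t 8 1 r) r)))))))
 .z .z)) (.s 0x75d5114443975d002288 4089 (n false (n false (n false (n true (z 18) e) (n true (n false (n false (n false (n false e e) (n false e e)) (n false (n false e e) (n false e e))) (n false e e)) e)) (n false e e)) (n false (n false e e) (n false e e))) (u 16 0 (k (u 32 6 (k v (k v (k v r)))) r))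
 (.s 0x75d511444395ff802288 4091 (n false (n false (n false (n true (z 124) e) (n true (n false (n false (n false (n false e e) (n false e e)) (n false (n false e e) (n false e e))) (n false e e)) e)) (n false e e)) (n false (n false e e) (n false e e))) (u 16 6 (k v (k v (k (c 48 4097 r (u 32 1 (k v (k v r)))) (k (c 48 4096 r (u 32 1 (k v (k v r)))) (k (c 48 4097 r (u 32 1 (k v (k v r)))) r))))))
 .z .z) .z))))

set_option maxRecDepth 100000 in
def N186 : NT :=
(.s 0x772eee00551144477d00 4086 (n false (n false (n true (z 42) e) (n false (n false (n false (n false e e) (n false e e)) (n false (n false e e) (n false e e))) (n false e e))) (n true (n false (n true (n true (n false (n false e e) e) e) e) e) e)) (c 3 4090 v (c 10 4101 v r))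
 (.s 0x772bbe00551144477d00 4082 (n false (n false (n true (z 52) e) (n false (n false (n false (n false e e) (n false e e)) (n false (n false e e) (n false e e))) (n false e e))) (n true (n false (n true (n true (n false (n false e e) e) e) e) e) e)) (u 8 195 (k v (k v (k v (k v (k v (k v r)))))))
 (.s 0x772afe0055114447dc20 4081 (n false (n false (n true (z 56) e) (n false (n false (n false (n false e e) (n false e e)) (n false (n false e e) (n false e e))) (n false e e))) (n true (n true (n false (n true (n false e e) e) (n false e e)) e) e)) (c 10 4101 v (u 8 1 (k (u 16 1 (k v (k v r))) (k (u 16 202 (k v (k v (k v (k v (k (t 48 1 (u 32 7 (k v (k v r)))) r)))))) (k (c 16 4096 r (u 24 0 (k v (k v r)))) (k (c 24 4096 r (u 16 202 (k v (k v (k v (k v (k (t 48 1 (u 32 7 (k v (k v r)))) r))))))) r))))))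
 (.s 0x75f2bfa8007075445110 4087 (n false (n false (n false (n true (n true (z 156) e) e) (n true (n false e e) e)) e) (n true (n false (n false (n false (n false e e) (n false e e)) (n false (n false e e) (n false e e))) (n false e e)) e)) (u 32 1 (k v (k (c 96 4099 r (u 64 1 (k v (k v r)))) (k (c 64 4098 r (u 96 1 (k v (k v r)))) (k (c 64 4097 r (u 96 1 (k v (k v r)))) (k (c 64 4099 r (u 96 1 (k v (k v r)))) (k (c 64 4095 r (u 96 0 (k v (k v r)))) r)))))))
 (.s 0x75d51144439fdd802288 4084 (n false (n false (n false (n true (z 87) e) (n true (n false (n false (n false (n false e e) (n false e e)) (n false (n false e e) (n false e e))) (n false e e)) e)) (n false e e)) (n false (n false e e) (n false e e))) (c 2 4085 (u 8 1 (k v (k v r))) v)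
 .z .z) (.s 0x772afe00551144475c20 4082 (n false (n false (n true (z 56) e) (n false (n false (n false (n false e e) (n false e e)) (n false (n false e e) (n false e e))) (n false e e))) (n true (n false (n false (n true (n false e e) e) (n false e e)) e) e)) (c 10 4101 v (u 8 0 (k (u 16 253 (k v (k v (k v (k (t 48 1 (u 32 7 (k v (k v r)))) r))))) (k (c 16 4096 r (u 24 0 (k v (k v r)))) (k (u 16 1 (k v (k v r))) (k (c 24 4096 r (u 16 254 (k v (k v (k v (k (t 48 1 (u 32 7 (k v (k v r)))) r)))))) r))))))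
 .z .z)) (.s 0x772bbe00551144477500 4084 (n false (n false (n true (z 52) e) (n false (n false (n false (n false e e) (n false e e)) (n false (n false e e) (n false e e))) (n false e e))) (n true (n false (n true (n false (n false (n false e e) e) e) e) e) e)) (u 8 437 (k v (k v (k v (k v (k v r))))))
 (.s 0x772bbe004ebfc02a2288 4090 (n false (n false (z 121) (n true (z 52) e)) (n false (n false (n false e e) (n false e e)) (n false (n false e e) (n false e e)))) (u 10 159 (k r (k r (k (t 4 2 v) r))))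
 .z .z) .z)) (.s 0x772bfa800b8475445110 4088 (n false (n false (n true (z 156) e) (n false (n true (n false e e) e) (n false e e))) (n true (n false (n false (n false (n false e e) (n false e e)) (n false (n false e e) (n false e e))) (n false e e)) e)) (u 8 1 (k v (k (c 24 4099 r (u 16 1 (k v (k v r)))) (k (c 16 4098 r (u 24 1 (k v (k v r)))) (k (c 16 4097 r (u 24 1 (k v (k v r)))) (k (c 16 4099 r (u 24 1 (k v (k v r)))) (k (c 16 4095 r (u 24 0 (k v (k v r)))) r)))))))
 (.s 0x772bfa800aa22888ee10 4087 (n false (n false (n true (z 156) e) (n false (n false (n false (n false e e) (n false e e)) (n false (n false e e) (n false e e))) (n false e e))) (n true (n false (n true (n false e e) e) (n false e e)) e)) (u 8 8 (k v (k v (k (c 24 4099 r (u 16 1 (k v (k v r)))) (k (c 16 4098 r (u 24 1 (k v (k v r)))) (k (c 16 4097 r (u 24 1 (k v (k v r)))) (k (c 16 4099 r (u 24 1 (k v (k v r)))) r)))))))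
 (.s 0x772bfa800a88a23ea220 4082 (n false (n false (n true (z 156) e) (n false (n false (n false e e) (n false e e)) (n false (n false e e) (n false e e)))) (n true (n true (n false (n false (n false e e) (n false e e)) (n false e e)) e) e)) (u 8 8 (k v (k v (k (c 24 4099 r (u 16 1 (k v (k v r)))) (k (c 16 4098 r (u 24 1 (k v (k v r)))) (k (c 16 4097 r (u 24 1 (k v (k v r)))) (k (c 16 4099 r (u 24 1 (k v (k v r)))) r)))))))
 .z .z) (.s 0x772bfa800aa22888fe80 4087 (n false (n true (n true (n true (n false (n false e e) e) e) e) e) (n false (n true (z 156) e) (n false (n false (n false (n false e e) (n false e e)) (n false (n false e e) (n false e e))) (n false e e)))) (u 9 8 (k v (k v (k (c 25 4099 r (u 17 1 (k v (k v r)))) (k (c 17 4098 r (u 25 1 (k v (k v r)))) (k (c 17 4097 r (u 25 1 (k v (k v r)))) (k (c 17 4099 r (u 25 1 (k v (k v r)))) r)))))))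
 .z .z)) (.s 0x772eee004feec03fb840 4080 (n false (n false (n true (z 42) e) (z 87)) (n true (n true (n true (n false (n true (n false e e) e) (n false e e)) e) e) e)) (u 8 1 (k (u 6 1 (k v (k v r))) (k (u 6 1 (k v (k v r))) r)))
 (.s 0x772bfa800ee10aa22888 4078 (n false (n false (n true (z 156) e) (n true (n false (n true (n false e e) e) (n false e e)) e)) (n false (n false (n false (n false e e) (n false e e)) (n false (n false e e) (n false e e))) (n false e e))) (u 8 21 (k v (k v (k (c 24 4099 r (u 16 1 (k v (k v r)))) (k (c 16 4095 r (u 24 0 (k v (k v r)))) r)))))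
 .z .z) .z))) (.s 0x773bae0075110aa22888 4082 (n false (n false (n true (n false (n false (n false e e) (n false e e)) (n false e e)) e) (n true (z 37) e)) (n false (n false (n false (n false e e) (n false e e)) (n false (n false e e) (n false e e))) (n false e e))) (u 10 0 (k v (k (c 3 4099 v (c 8 4091 v (u 18 0 (k (t 34 3 (t 50 1 v)) r)))) (k (u 18 0 (k (t 34 3 (t 50 1 v)) r)) (k (c 3 4099 v (c 8 4091 v r)) (k (u 18 22 (k v (k v (k (t 50 1 (u 34 0 (k (t 66 3 (t 98 1 v)) r))) r)))) (k (c 3 4099 v (c 8 4091 v r)) r)))))))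
 (.s 0x772fea00544511770870 4069 (n false (n false (n true (z 14) e) (n false (n false (n false e e) (n false e e)) (n false (n false e e) (n false e e)))) (n false (n true (n false (n true (n false e e) e) (n false e e)) e) (n true (n false e e) e))) (c 9 4092 v (u 8 0 (k v (k v r))))
 (.s 0x772eee005c23a77dc010 4082 (n false (n false (n true (z 42) e) (n false (n true (n false e e) e) (n false e e))) (n true (n false (z 45) (n false e e)) e)) (c 3 4096 (t 4 1 v) (c 10 4094 v r))
 (.s 0x772eee005c22a77dc010 4083 (n false (n false (n true (z 42) e) (n false (n true (n false e e) e) (n false e e))) (n false (n false (z 45) (n false e e)) e)) (c 3 4096 (t 4 1 v) (c 10 4094 v r))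
 .z .z) (.s 0x772fea005445113eab00 4089 (n false (n false (n true (z 14) e) (n false (n false (n false e e) (n false e e)) (n false (n false e e) (n false e e)))) (z 67)) (u 3 0 (k (u 8 0 (k v (k v r))) (k (u 8 0 (k v (k v r))) r)))
 .z .z)) (.s 0x772fea00770875445110 4078 (n false (n false (n true (z 14) e) (n true (n false (n true (n false e e) e) (n false e e)) e)) (n true (n false (n false (n false (n false e e) (n false e e)) (n false (n false e e) (n false e e))) (n false e e)) e)) (c 5 4099 v (u 8 0 (k v (k v r))))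
 (.s 0x772fea0075110aa22888 4080 (n false (n false (n true (n false (n false (n false e e) (n false e e)) (n false e e)) e) (n true (z 14) e)) (n false (n false (n false (n false e e) (n false e e)) (n false (n false e e) (n false e e))) (n false e e))) (c 3 4099 v (u 10 0 (k v (k v r))))
 .z .z) .z)) (.s 0x773eff004ebfc02ee108 4082 (n false (n false (n true (z 123) e) (z 121)) (n false (n true (n false (n true (n false e e) e) (n false e e)) e) (n false e e))) (u 8 63 (k (c 4 4094 v (c 9 4092 v r)) (k (c 9 4092 v r) (k (u 6 1 (k v (k (c 14 4099 r (u 10 1 (k v (k v r)))) (k (c 10 4097 r (u 14 1 (k v (k v r)))) (k (c 10 4095 r (u 14 0 (k v (k v r)))) (k (c 10 4095 r (u 14 0 (k v (k v r)))) r)))))) r))))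
 (.s 0x773eab004feec03fb840 4082 (n false (n false (n true (z 67) e) (z 87)) (n true (n true (n true (n false (n true (n false e e) e) (n false e e)) e) e) e)) (u 8 0 (k (u 6 1 (k v (k v r))) (k (u 6 1 (k v (k v r))) r)))
 (.s 0x773eab004faac02ee108 4085 (n false (n false (z 67) (n true (z 67) e)) (n false (n true (n false (n true (n false e e) e) (n false e e)) e) (n false e e))) (u 10 0 (k r (k (u 4 71 (k v (k v (k (c 12 4101 r r) (k (c 8 4101 r r) (k (c 8 4101 r r) r)))))) r)))
 .z .z) (.s 0x773eab005c23a77dc010 4084 (n false (n false (n true (z 67) e) (n false (n true (n false e e) e) (n false e e))) (n true (n false (z 45) (n false e e)) e)) (u 8 0 (k (u 9 0 (k v (k v r))) (k (u 9 0 (k v (k v r))) r)))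
 .z .z)) (.s 0x773fbb004affc02a2288 4090 (n false (n false (n true (z 87) e) (z 124)) (n false (n false (n false e e) (n false e e)) (n false (n false e e) (n false e e)))) (u 6 5 (k (u 8 1 (k v (k v r))) (k (c 14 4097 r r) (k (c 14 4096 r r) (k (c 10 4098 r r) (k (c 14 4096 r r) (k (c 14 4097 r r) (k (c 14 4097 r r) (k (c 14 4096 r r) (k (c 10 4097 r r) r))))))))))
 (.s 0x773fbb004abfc02ee108 4081 (n false (n false (z 120) (n true (z 87) e)) (n false (n true (n false (n true (n false e e) e) (n false e e)) e) (n false e e))) (u 4 37 (k (u 10 0 (k v (k v r))) (k (u 10 1 (k v (k v r))) (k (c 9 4092 v (u 10 1 (k v (k v r)))) (k (c 12 4096 r (c 10 4099 r r)) (k (c 12 4099 r r) (k (c 8 4098 r (c 9 4092 v r)) (k (c 8 4101 r (c 9 4092 v r)) (k (c 12 4099 r r) (k (c 8 4101 r (c 9 4092 v r)) r))))))))))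
 .z .z) .z))))

set_option maxRecDepth 100000 in
def N187 : NT :=
(.s 0x775445110b95df001708 4074 (n false (n false (n false (n true (z 52) e) e) (n true (n false (n false (n false (n false e e) (n false e e)) (n false (n false e e) (n false e e))) (n false e e)) e)) (n false (n true (n false e e) e) (n false e e))) (u 16 22 (k v (k v (k v (k v (k v (k v (k v (k (t 48 2 (u 32 0 (k (u 64 2 (k v (k (c 8 4078 (u 16 1 (k v (k v r))) v) r))) r))) (k (t 48 1 (u 32 0 (k (c 96 4099 r (u 64 2 (k v (k (c 8 4078 (u 16 1 (k v (k v r))) v) r)))) r))) r))))))))))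
 (.s 0x773fea00551144475c20 4084 (n false (n false (n true (z 15) e) (n false (n false (n false (n false e e) (n false e e)) (n false (n false e e) (n false e e))) (n false e e))) (n true (n false (n false (n true (n false e e) e) (n false e e)) e) e)) (c 10 4101 v (u 8 0 (k v (k (c 3 4090 v (u 16 0 (k (u 32 0 (k v (k v r))) r))) r))))
 (.s 0x773fbb005445113eab00 4089 (n false (z 67) (n false (n true (z 87) e) (n false (n false (n false e e) (n false e e)) (n false (n false e e) (n false e e))))) (u 2 0 (k (u 9 1 (k v (k v r))) (k (u 9 1 (k v (k v r))) r)))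
 (.s 0x773fbb004feac02a2288 4087 (n false (n false (n true (z 87) e) (z 71)) (n false (n false (n false e e) (n false e e)) (n false (n false e e) (n false e e)))) (u 6 3 (k (u 8 1 (k v (k v r))) (k (u 8 1 (k v (k v r))) (k (u 10 0 (k (u 8 1 (k v (k v r))) (k (u 8 1 (k v (k v r))) r))) (k (c 10 4099 r r) (k (c 10 4099 r r) (k (c 10 4099 r r) r)))))))
 (.s 0x773fbb004faac02ee108 4081 (n false (n false (z 67) (n true (z 87) e)) (n false (n true (n false (n true (n false e e) e) (n false e e)) e) (n false e e))) (u 4 157 (k (u 10 1 (k v (k v r))) (k (u 10 0 (k v (k v r))) (k (u 10 1 (k v (k v r))) (k (c 8 4101 r (c 9 4092 v r)) (k (u 8 20 (k (c 9 4092 v (u 10 1 (k v (k v r)))) (k (c 10 4099 r v) (k (c 9 4092 v (u 10 1 (k v (k v r)))) (k (u 10 1 (k v (k v r))) r))))) (k (c 12 4101 r r) (k (c 12 4102 r r) (k (c 8 4101 r r) (k (c 8 4101 r r) r))))))))))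
 .z .z) (.s 0x773fbb004feec03fb840 4078 (n false (n false (z 87) (n true (z 87) e)) (n true (n true (n true (n false (n true (n false e e) e) (n false e e)) e) e) e)) (u 10 1 (k (u 4 1 (k v (k v r))) (k (u 4 1 (k v (k v r))) r)))
 .z .z)) (.s 0x773fbb00770875445110 4069 (n false (n false (n true (z 87) e) (n true (n false (n true (n false e e) e) (n false e e)) e)) (n true (n false (n false (n false (n false e e) (n false e e)) (n false (n false e e) (n false e e))) (n false e e)) e)) (c 5 4099 v (u 8 1 (k v (k v r))))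
 (.s 0x773fbb00544511770870 4069 (n false (n false (n true (z 87) e) (n false (n false (n false e e) (n false e e)) (n false (n false e e) (n false e e)))) (n false (n true (n false (n true (n false e e) e) (n false e e)) e) (n true (n false e e) e))) (c 9 4092 v (u 8 1 (k v (k v r))))
 .z .z) .z)) (.s 0x774fef8027754008ee10 4066 (n false (n false (n true (n false (z 55) (z 5)) e) (n false e e)) (n true (n false (n true (n false e e) e) (n false e e)) e)) (t 24 1 (u 16 4 (k (t 48 1 (u 32 4 (k v (k v (k (u 64 4 (k v (k (t 192 1 (u 128 2 (k v (k v r)))) r))) (k (u 64 4 (k v (k (t 192 1 (u 128 4 (k v (k v r)))) r))) (k r (k (c 24 4099 v r) r)))))))) (k (t 48 2 (c 24 4099 v r)) r))))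
 (.s 0x774afea0011754451108 4083 (n false (n false (n true (n false (z 156) e) e) (n false e e)) (n false (n true (n false (n false (n false (n false e e) (n false e e)) (n false (n false e e) (n false e e))) (n false e e)) e) (n false e e))) (u 16 1 (k v (k (c 48 4099 r (u 32 1 (k v (k v r)))) (k (c 32 4098 r (u 48 1 (k v (k v r)))) (k (c 32 4097 r (c 4 4085 r v)) (k (c 32 4099 r (u 48 1 (k v (k v r)))) (k (c 32 4095 r (c 4 4076 r v)) r)))))))
 (.s 0x773fea0055114447dc20 4083 (n false (n false (n true (z 15) e) (n false (n false (n false (n false e e) (n false e e)) (n false (n false e e) (n false e e))) (n false e e))) (n true (n true (n false (n true (n false e e) e) (n false e e)) e) e)) (c 10 4101 v (u 8 0 (k v (k (c 3 4090 v (u 16 0 (k (u 32 0 (k v (k v r))) r))) r))))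
 .z .z) (.s 0x774eeec025ddc008ba08 4080 (n false (n false (n true (n false (z 85) (z 42)) e) (n false e e)) (n false (n true (n false (n false e e) e) e) (n false e e))) (t 24 1 (u 16 73 (k v (k v (k v (k (c 32 4099 r (u 48 359 (k v (k v (k v (k (t 112 1 (u 80 2 (k v (k v r)))) r)))))) r))))))
 .z .z)) (.s 0x7752bfa8013ebe00e088 4072 (n false (n false (n true (n false (n false (z 51) (z 156)) (n true (n false e e) e)) e) (n false e e)) (n false e e)) (t 32 1 (u 48 2 (k v (k (c 112 4099 r (u 80 1 (k v (k v r)))) (k (c 80 4095 r (u 112 0 (k v (k v r)))) r)))))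
 (.s 0x774fef802775400fb840 4067 (n false (n false (n true (n false (z 55) (z 5)) e) (n true (n true (n false (n true (n false e e) e) (n false e e)) e) e)) e) (t 24 1 (u 16 4 (k (t 48 1 (u 32 4 (k v (k v (k (u 64 4 (k v (k (t 192 1 (u 128 4 (k v (k v r)))) r))) (k (u 64 4 (k v (k (t 192 1 (u 128 2 (k v (k v r)))) r))) (k r (k (c 24 4099 v r) r)))))))) (k (t 48 2 (c 24 4099 v r)) r))))
 .z .z) .z))) (.s 0x77caef800ee10aa22888 4074 (n false (n false (n true (n true (z 52) e) e) (n true (n false (n true (n false e e) e) (n false e e)) e)) (n false (n false (n false (n false e e) (n false e e)) (n false (n false e e) (n false e e))) (n false e e))) (u 16 22 (k v (k v (k v (k v (k v (k v (k v (k (t 48 2 (u 32 0 (k (u 64 2 (k v (k (c 8 4078 (u 16 1 (k v (k v r))) v) r))) r))) (k (t 48 1 (u 32 0 (k (c 96 4099 r (u 64 2 (k v (k (c 8 4078 (u 16 1 (k v (k v r))) v) r)))) r))) r))))))))))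
 (.s 0x775445110e577c00ee10 4076 (n false (n false (n true (z 52) e) (n true (n false (n false (n false (n false e e) (n false e e)) (n false (n false e e) (n false e e))) (n false e e)) e)) (n true (n false (n true (n false e e) e) (n false e e)) e)) (u 8 292 (k v (k v (k v (k v (k v (k v (k v (k v (k (t 24 1 (c 5 4092 v r)) r))))))))))
 (.s 0x775445110b9d7f801708 4078 (n false (n false (n false (n true (z 121) e) e) (n true (n false (n false (n false (n false e e) (n false e e)) (n false (n false e e) (n false e e))) (n false e e)) e)) (n false (n true (n false e e) e) (n false e e))) (u 16 2 (k v (k v (k (c 48 4099 r (u 32 1 (k v (k v r)))) (k (c 32 4095 r (u 48 0 (k v (k v r)))) (k (c 32 4095 r (u 48 0 (k v (k v r)))) r))))))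
 (.s 0x775445110b95ff801708 4075 (n false (n false (n false (n true (z 124) e) e) (n true (n false (n false (n false (n false e e) (n false e e)) (n false (n false e e) (n false e e))) (n false e e)) e)) (n false (n true (n false e e) e) (n false e e))) (u 16 2 (k v (k v (k (c 48 4097 r (u 32 1 (k v (k v r)))) (k (c 48 4096 r (u 32 1 (k v (k v r)))) (k (c 48 4097 r (u 32 1 (k v (k v r)))) (k (c 48 4099 r (u 32 1 (k v (k v r)))) r)))))))
 .z .z) (.s 0x775445110b9f7d801708 4075 (n false (n false (n false (n true (z 91) e) e) (n true (n false (n false (n false (n false e e) (n false e e)) (n false (n false e e) (n false e e))) (n false e e)) e)) (n false (n true (n false e e) e) (n false e e))) (u 16 1 (k v (k v (k v (k (u 32 0 (k v (k v r))) (k (c 32 4097 r (u 48 0 (k v (k v r)))) (k (c 32 4095 r (u 48 0 (k v (k v r)))) r)))))))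
 .z .z)) (.s 0x77caef800ea88a221708 4073 (n false (n false (n true (n true (z 52) e) e) (n true (n false (n false (n false (n false e e) (n false e e)) (n false (n false e e) (n false e e))) (n false e e)) e)) (n false (n true (n false e e) e) (n false e e))) (u 16 23 (k v (k v (k v (k v (k v (k v (k v (k (t 48 2 (u 32 0 (k (u 64 2 (k v (k (c 8 4078 (u 16 1 (k v (k v r))) v) r))) r))) (k (t 48 1 (u 32 0 (k (c 96 4099 r (u 64 2 (k v (k (c 8 4078 (u 16 1 (k v (k v r))) v) r)))) r))) r))))))))))
 (.s 0x775445110ee10e57fe00 4075 (n false (n true (z 124) e) (n false (n true (n false (n true (n false e e) e) (n false e e)) e) (n true (n false (n false (n false (n false e e) (n false e e)) (n false (n false e e) (n false e e))) (n false e e)) e))) (u 4 2 (k v (k v (k (c 12 4097 r (u 8 1 (k v (k v r)))) (k (c 12 4096 r (u 8 1 (k v (k v r)))) (k (c 12 4097 r (u 8 1 (k v (k v r)))) (k (c 12 4099 r (u 8 1 (k v (k v r)))) r)))))))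
 .z .z) .z)) (.s 0x77d5114441174aafc008 4075 (n false (n false (n true (n false (z 112) e) e) (n false e e)) (n false (n true (n true (n false (n false (n false (n false e e) (n false e e)) (n false (n false e e) (n false e e))) (n false e e)) e) e) (n false e e))) (u 16 1 (k (c 48 4099 r (u 32 20 (k v (k v (k (c 4 4074 (c 4 4076 (u 4 0 (k r r)) v) v) r))))) (k (u 32 6 (k v (k (t 64 1 (c 4 4077 r v)) (k (t 96 1 (c 4 4071 r v)) (k (t 96 1 (c 4 4071 r v)) r))))) r)))
 (.s 0x77cfef800ea88a221708 4073 (n false (n false (n true (n true (z 55) e) e) (n true (n false (n false (n false (n false e e) (n false e e)) (n false (n false e e) (n false e e))) (n false e e)) e)) (n false (n true (n false e e) e) (n false e e))) (u 16 4 (k (t 48 1 (u 32 12 (k v (k v (k (c 96 4099 r (t 64 3 v)) (k (u 64 4 (k v (k (t 192 1 (u 128 2 (k v (k v r)))) r))) (k (c 10 4099 v (c 3 4092 v r)) r))))))) (k (t 48 2 (u 32 2 (k v (k (c 8 4082 (u 8 1 (k v (k v r))) v) r)))) r)))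
 (.s 0x77cafea001c3ea88a220 4087 (n false (n false (n true (n true (z 156) e) e) (n true (n false e e) e)) (n true (n true (n false (n false (n false (n false e e) (n false e e)) (n false (n false e e) (n false e e))) (n false e e)) e) e)) (u 16 1 (k v (k (c 48 4099 r (u 32 1 (k v (k v r)))) (k (c 32 4098 r (u 48 1 (k v (k v r)))) (k (c 32 4097 r (u 48 1 (k v (k v r)))) (k (c 32 4099 r (u 48 1 (k v (k v r)))) (k (c 32 4095 r (u 48 0 (k v (k v r)))) r)))))))
 .z .z) (.s 0x77d2efa00823ea88a220 4075 (n false (n false (n true (n true (n false (z 26) (n false e e)) e) e) (n false e e)) (n true (n true (n false (n false (n false (n false e e) (n false e e)) (n false (n false e e) (n false e e))) (n false e e)) e) e)) (u 32 2 (k v (k (c 8 4082 (u 8 1 (k v (k v r))) v) r)))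
 .z .z)) (.s 0x77d572bbe0021047dc20 4057 (n false (n false (n true (n true (n false (n false (n false (n false (n true (z 52) e) e) (n false e e)) e) (n false e e)) e) e) (n false e e)) (n true (n true (n false (n true (n false e e) e) (n false e e)) e) e)) (u 512 392 (k v (k v (k v (k v (k v r))))))
 (.s 0x77d51144411f4aef8020 4081 (n false (n true (n true (n false (z 52) (n false e e)) e) e) (n false (n true (n true (n false (n false (n false (n false e e) (n false e e)) (n false (n false e e) (n false e e))) (n false e e)) e) e) (n false e e))) (u 16 6 (k v (k v (k (t 48 1 (u 32 0 (k v (k v r)))) r))))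
 .z .z) .z))))

set_option maxRecDepth 100000 in
def N188 : NT :=
(.s 0x7d4aeb8025554010ee10 4076 (n false (n true (n false (n false (z 36) (z 0)) (n false e e)) e) (n true (n false (n true (n false e e) e) (n false e e)) e)) (t 24 1 (u 16 0 (k (u 32 2 (k v (k (c 16 4090 (u 4 1 (k v (k v r))) v) r))) r)))
 (.s 0x7d3baa0097f7002eb840 4083 (n false (n true (n false (z 46) (z 5)) e) (n false (n true (n false (n false (n true (n false e e) e) (n false e e)) e) e) e)) (t 12 1 (u 8 2 (k v (k (c 24 4099 r (u 16 0 (k v (k v r)))) (k (u 16 1 (k v (k v r))) (k (c 2 4088 (c 10 4101 v r) v) (k (c 24 4097 r (u 16 1 (k v (k v r)))) (k (c 16 4095 r (u 24 1 (k v (k v r)))) r))))))))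
 (.s 0x7d2bfa8013baa005f440 4080 (n false (n true (n false (z 156) (z 5)) e) (n false (n true (n true (n false (n false e e) (n false e e)) e) e) e)) (t 12 1 (u 8 21 (k v (k v (k (c 24 4099 r (u 16 1 (k v (k v r)))) (k (c 16 4095 r (u 24 0 (k v (k v r)))) r))))))
 (.s 0x77fcaef80023ea88a220 4078 (n false (n false (n true (n true (n true (n true (z 52) e) e) e) e) (n false e e)) (n true (n true (n false (n false (n false (n false e e) (n false e e)) (n false (n false e e) (n false e e))) (n false e e)) e) e)) (u 64 377 (k v (k v (k v (k v (k v (k v (k v (k (c 32 4087 (t 6 2 r) v) (k (c 32 4087 (t 6 1 r) v) r))))))))))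
 (.s 0x77df544511074feac000 4071 (n false (n false (n true (n true (n false (n true (n false (z 71) e) e) (n true (n true (n false (n false (n false (n false e e) (n false e e)) (n false (n false e e) (n false e e))) (n false e e)) e) e)) e) e) e) e) (u 128 1 (k v (k (c 384 4099 r (u 256 1 (k v (k v r)))) (k (u 256 0 (k v (k v r))) (k (c 256 4099 r (u 384 1 (k v (k v r)))) (k (c 256 4099 r (u 384 1 (k v (k v r)))) (k (c 256 4099 r (u 384 1 (k v (k v r)))) r)))))))
 .z .z) (.s 0x7d2bbe00ee107cbbb800 4084 (n false (n true (n true (z 42) e) e) (n true (n false (z 52) (n true (n false (n true (n false e e) e) (n false e e)) e)) e)) (u 9 169 (k (u 8 1 (k v (k v r))) (k (c 21 4092 v (u 8 1 (k v (k v r)))) (k (c 8 4100 r v) (k (t 25 1 r) r)))))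
 .z .z)) (.s 0x7d2eef009555002a2288 4091 (n false (n true (n false (z 106) (z 0)) e) (n false (n false (n false e e) (n false e e)) (n false (n false e e) (n false e e)))) (t 12 1 (u 8 7 (k v (k v (k (c 16 4101 r (u 24 65 (k v (k v (k v (k (c 40 4099 r r) r)))))) (k (c 24 4103 r r) (k (c 24 4100 r (u 16 30 (k v (k v (k v (k (c 32 4097 r (u 48 1 (k v (k v r)))) r)))))) (k (c 24 4100 r r) r))))))))
 (.s 0x7d2bfa8013fbb007dc20 4080 (n false (n true (n false (z 87) (z 156)) e) (n true (n true (n false (n true (n false e e) e) (n false e e)) e) e)) (u 12 8 (k (u 8 1 (k v (k v r))) (k (c 4 4066 (u 2 1 (k v (k v r))) v) (k (c 28 4099 r r) (k (c 20 4098 r r) (k (c 20 4097 r r) (k (c 20 4099 r r) r)))))))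
 .z .z) .z)) (.s 0x7d3eef009555002a2288 4091 (n false (n true (n false (z 107) (z 0)) e) (n false (n false (n false e e) (n false e e)) (n false (n false e e) (n false e e)))) (t 12 1 (u 8 5 (k v (k (c 24 4099 r (u 16 3 (k v (k v (k (u 32 23 (k v (k v r))) (k (c 32 4099 r (u 48 1 (k v (k v r)))) (k (c 32 4099 r (u 48 1 (k v (k v r)))) (k (c 32 4099 r (u 48 1 (k v (k v r)))) r)))))))) (k (c 24 4100 r (u 16 0 (k (u 32 23 (k v (k v r))) r))) r)))))
 (.s 0x7d3baa0097f7003ea220 4091 (n false (n true (n false (z 46) (z 5)) e) (n true (n true (n false (n false (n false e e) (n false e e)) (n false e e)) e) e)) (t 12 1 (u 8 10 (k v (k (c 24 4099 r (u 16 0 (k v (k v r)))) (k (c 2 4088 (c 10 4101 v r) v) r)))))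
 (.s 0x7d3baa0097f7002fb840 4082 (n false (n true (n false (z 46) (z 5)) e) (n false (n true (n true (n false (n true (n false e e) e) (n false e e)) e) e) e)) (t 12 1 (u 8 2 (k v (k (c 24 4099 r (u 16 0 (k v (k v r)))) (k r (k (c 2 4088 (c 10 4101 v r) v) (k (c 24 4097 r r) (k (c 16 4095 r r) r))))))))
 .z .z) (.s 0x7d3baa009d7f803ea220 4091 (n false (n true (n false (z 121) (z 5)) e) (n true (n true (n false (n false (n false e e) (n false e e)) (n false e e)) e) e)) (t 12 1 (u 8 5 (k v (k v (k v (k (c 24 4099 r (u 16 1 (k v (k v r)))) (k (c 16 4097 r r) r)))))))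
 .z .z)) (.s 0x7d4aeb8025554010ae10 4076 (n false (n true (n false (n false (z 36) (z 0)) (n false e e)) e) (n false (n false (n true (n false e e) e) (n false e e)) e)) (t 24 1 (u 16 0 (k (u 32 2 (k v (k (c 16 4084 (u 4 1 (k v (k v r))) v) r))) r)))
 (.s 0x7d3fbb009d7f803ea220 4091 (n false (n true (n false (z 87) (z 121)) e) (n true (n true (n false (n false (n false e e) (n false e e)) (n false e e)) e) e)) (u 12 58 (k (u 8 17 (k v (k v r))) (k (c 8 4099 r v) (k (u 8 1 (k v (k v r))) (k (c 2 4080 (t 4 1 v) v) (k (c 20 4097 r r) r))))))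
 .z .z) .z))) (.s 0x7dcbbb8012fea0075c20 4082 (n false (n true (n false (z 14) (n true (z 42) e)) e) (n true (n false (n false (n true (n false e e) e) (n false e e)) e) e)) (u 20 1 (k (u 8 0 (k v (k v r))) (k (u 8 0 (k v (k v r))) r)))
 (.s 0x7d75445110887cfeac00 4094 (n false (n true (n true (z 71) e) e) (n true (n false (n false (n true (n false (n false (n false (n false e e) (n false e e)) (n false (n false e e) (n false e e))) (n false e e)) e) (n false e e)) (n false e e)) e)) (u 8 1 (k v (k (c 24 4099 r (u 16 1 (k v (k v r)))) (k (u 16 0 (k v (k v r))) (k (c 16 4099 r (u 24 1 (k v (k v r)))) (k (c 16 4099 r (u 24 1 (k v (k v r)))) (k (c 16 4099 r (u 24 1 (k v (k v r)))) r)))))))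
 (.s 0x7d5445111f70812aff00 4085 (n false (z 120) (n true (n false (n true (n true (n false (n true (n false e e) e) (n false e e)) e) e) (n false (n false (n false (n false e e) (n false e e)) (n false (n false e e) (n false e e))) (n false e e))) e)) (u 2 33 (k v (k v (k v (k v (k (t 6 1 (u 4 76 (k v (k v (k (c 12 4099 r r) (k (c 8 4099 r r) r)))))) (k (t 6 1 (c 21 4101 v (c 3 4086 v r))) (k (c 6 4099 r r) (k (c 4 4098 r (c 21 4101 v (u 6 1 (k v (k v r))))) (k (c 4 4101 r r) (k r (k (c 6 4099 r r) (k (c 4 4101 r r) r)))))))))))))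
 (.s 0x7d544511170874bfa800 4086 (n false (n true (n false (n false (n true (n false e e) e) (n false e e)) (n false (n false (n false (n false e e) (n false e e)) (n false (n false e e) (n false e e))) (n false e e))) e) (n true (n false (z 14) e) e)) (c 12 4099 v (u 9 0 (k v (k v r))))
 .z .z) (.s 0x7d754451108874faac00 4090 (n false (n true (n false (z 67) e) e) (n true (n false (n false (n true (n false (n false (n false (n false e e) (n false e e)) (n false (n false e e) (n false e e))) (n false e e)) e) (n false e e)) (n false e e)) e)) (u 8 54 (k v (k v (k v (k v (k (c 24 4099 r r) (k (c 24 4097 r r) (k (c 24 4099 r (u 16 1 (k v (k (u 32 1 (k v (k v r))) (k (c 48 4099 r (u 32 0 (k v (k v r)))) (k (u 32 1 (k v (k v r))) (k (c 48 4097 r (u 32 1 (k v (k v r)))) (k (c 32 4095 r (u 48 1 (k v (k v r)))) r)))))))) (k (c 4 4088 r v) (k (c 24 4099 r r) (k (c 16 4099 r r) (k (c 24 4099 r r) (k (c 16 4099 r r) (k (c 24 4099 r r) (k (c 24 4099 r r) (k (c 24 4099 r r) r))))))))))))))))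
 .z .z)) (.s 0x7dcabf8015445110ee10 4081 (n false (n true (n false (n true (z 56) e) (n false (n false (n false (n false e e) (n false e e)) (n false (n false e e) (n false e e))) (n false e e))) e) (n true (n false (n true (n false e e) e) (n false e e)) e)) (c 20 4101 v (u 16 0 (k (u 32 202 (k v (k v (k v (k v (k (t 96 1 (u 64 7 (k v (k v r)))) r)))))) (k (c 32 4096 r (u 48 0 (k v (k v r)))) (k (u 32 1 (k v (k v r))) (k (c 48 4096 r (u 32 202 (k v (k v (k v (k v (k (t 96 1 (u 64 7 (k v (k v r)))) r))))))) r))))))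
 (.s 0x7dcabf8015445110ae10 4082 (n false (n true (n false (n true (z 56) e) (n false (n false (n false (n false e e) (n false e e)) (n false (n false e e) (n false e e))) (n false e e))) e) (n false (n false (n true (n false e e) e) (n false e e)) e)) (c 20 4101 v (u 16 0 (k (u 32 253 (k v (k v (k v (k (t 96 1 (u 64 7 (k v (k v r)))) r))))) (k (c 32 4096 r (u 48 0 (k v (k v r)))) (k (u 32 1 (k v (k v r))) (k (c 48 4096 r (u 32 254 (k v (k v (k v (k (t 96 1 (u 64 7 (k v (k v r)))) r)))))) r))))))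
 .z .z) .z)) (.s 0x7dcfaac013fbb0075c20 4082 (n false (n true (n false (n true (z 67) e) (z 87)) e) (n true (n false (n false (n true (n false e e) e) (n false e e)) e) e)) (u 16 0 (k (u 12 1 (k v (k v r))) (k (u 12 1 (k v (k v r))) r)))
 (.s 0x7dcbbb8013fbb007dc20 4079 (n false (n true (n false (z 87) (n true (z 42) e)) e) (n true (n true (n false (n true (n false e e) e) (n false e e)) e) e)) (u 20 1 (k (u 8 1 (k v (k v r))) (k (u 8 10 (k v (k v (k v r)))) r)))
 (.s 0x7dcbbb8013fbb0075c20 4080 (n false (n true (n false (z 87) (n true (z 42) e)) e) (n true (n false (n false (n true (n false e e) e) (n false e e)) e) e)) (u 20 1 (k (u 8 1 (k v (k v r))) (k (u 8 1 (k v (k v r))) r)))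
 .z .z) (.s 0x7dcbbb8015445110be80 4086 (n false (n true (n false (n true (z 42) e) (n false (n false (n false (n false e e) (n false e e)) (n false (n false e e) (n false e e))) (n false e e))) e) (n false (n true (n true (n false (n false e e) e) e) e) e)) (c 2 4088 (c 10 4101 v r) v)
 .z .z)) (.s 0x7dcfbb801c17d5114440 4086 (n false (n true (n false (n true (z 43) e) (n true (n false e e) e)) e) (n false (n true (n true (n false (n false (n false (n false e e) (n false e e)) (n false (n false e e) (n false e e))) (n false e e)) e) e) e)) (u 16 0 (k v (k (u 32 1 (k v (k v r))) (k (c 48 4099 r (u 32 0 (k (u 64 0 (k v (k v r))) r))) (k (c 2 4087 r v) (k (c 2 4069 r v) (k (u 32 0 (k (u 64 0 (k v (k v r))) r)) (k r (k r r)))))))))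
 (.s 0x7dcfaac013fbb007dc20 4081 (n false (n true (n false (z 87) (n true (z 67) e)) e) (n true (n true (n false (n true (n false e e) e) (n false e e)) e) e)) (u 20 0 (k (u 8 1 (k v (k v r))) (k (u 8 10 (k v (k v (k v r)))) r)))
 .z .z) .z))))

set_option maxRecDepth 100000 in
def N189 : NT :=
(.s 0x7df544511043e57f5000 4082 (n false (n true (n true (z 156) e) e) (n true (n false (n true (n true (n false (n false (n false (n false e e) (n false e e)) (n false (n false e e) (n false e e))) (n false e e)) e) e) (n false e e)) e)) (u 8 1 (k v (k (c 24 4099 r (u 16 1 (k v (k v r)))) (k (c 16 4098 r (u 24 1 (k v (k v r)))) (k (c 16 4097 r (u 24 1 (k v (k v r)))) (k (c 16 4099 r (u 24 1 (k v (k v r)))) (k (c 16 4095 r (u 24 0 (k v (k v r)))) r)))))))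
 (.s 0x7dd511444282e57f5000 4087 (n false (n true (n false (n true (n false (n false (n false (n false e e) (n false e e)) (n false (n false e e) (n false e e))) (n false e e)) e) (n false (n false e e) e)) e) (n false (n true (z 156) e) e)) (u 9 8 (k v (k v (k (c 25 4099 r (u 17 1 (k v (k v r)))) (k (c 17 4098 r (u 25 1 (k v (k v r)))) (k (c 17 4097 r (u 25 1 (k v (k v r)))) (k (c 17 4099 r (u 25 1 (k v (k v r)))) r)))))))
 (.s 0x7dcffa8015445110ae10 4084 (n false (n true (n false (n true (z 15) e) (n false (n false (n false (n false e e) (n false e e)) (n false (n false e e) (n false e e))) (n false e e))) e) (n false (n false (n true (n false e e) e) (n false e e)) e)) (c 20 4101 v (u 16 0 (k v (k (c 2 4066 (u 16 0 (k (u 32 0 (k v (k v r))) r)) v) r))))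
 (.s 0x7dcfeec015110e7d5600 4089 (n false (n true (n false (n true (z 87) e) (n false (n false (n false e e) (n false e e)) (n false e e))) e) (n true (z 67) e)) (u 5 28 (k r (k (c 12 4091 v (u 16 1 (k v (k v r)))) (k (t 13 1 (u 16 1 (k (u 9 1 (k v (k v r))) (k (u 9 1 (k v (k v r))) r)))) (k (u 13 2 (k (t 9 1 r) (k r r))) (k r (k r (k r (k r r)))))))))
 (.s 0x7dcfeec013fbb007dc20 4077 (n false (n true (n false (n true (z 87) e) (z 87)) e) (n true (n true (n false (n true (n false e e) e) (n false e e)) e) e)) (u 16 1 (k (u 12 1 (k v (k v r))) (k (u 12 10 (k v (k v (k v r)))) r)))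
 .z .z) (.s 0x7dcfeec0170853bee008 4083 (n false (n true (n false (n true (z 87) e) (n false (n true (n false e e) e) (n false e e))) e) (n false (z 45) (n false e e))) (u 5 2 (k (u 16 1 (k v (k v r))) (k (u 16 1 (k v (k v r))) r)))
 .z .z)) (.s 0x7dd4afea004faf803820 4074 (n false (n true (n false (n true (n false (n false (z 51) (z 156)) (n true (n false e e) e)) e) (n false e e)) e) e) (t 64 1 (u 96 2 (k v (k (c 224 4099 r (u 160 1 (k v (k v r)))) (k (c 160 4095 r (u 224 0 (k v (k v r)))) r)))))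
 (.s 0x7dcffa8015445110ee10 4083 (n false (n true (n false (n true (z 15) e) (n false (n false (n false (n false e e) (n false e e)) (n false (n false e e) (n false e e))) (n false e e))) e) (n true (n false (n true (n false e e) e) (n false e e)) e)) (c 20 4101 v (u 16 0 (k v (k (c 2 4066 (u 16 0 (k (u 32 0 (k v (k v r))) r)) v) r))))
 .z .z) .z)) (.s 0x7df544511042e57f5000 4083 (n false (n false (n true (z 156) e) e) (n true (n false (n true (n true (n false (n false (n false (n false e e) (n false e e)) (n false (n false e e) (n false e e))) (n false e e)) e) e) (n false e e)) e)) (u 8 44 (k v (k v (k v (k (c 24 4099 r (u 16 1 (k v (k v r)))) (k (c 16 4099 r (u 24 1 (k v (k v r)))) r))))))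
 (.s 0x7df4aab800707cfaac00 4088 (n false (n true (n true (z 67) e) e) (n true (n false (n true (n true (n false (z 32) e) e) e) (n true (n false e e) e)) e)) (u 8 23 (k (u 65 0 (k (t 129 3 (t 193 1 v)) r)) (k (c 3 4086 (u 32 0 (k (t 64 3 (t 96 1 v)) r)) v) r)))
 (.s 0x7dd511444283e57f5000 4091 (n false (n true (n true (z 156) e) e) (n true (n false (n true (n false (n false (n false (n false e e) (n false e e)) (n false (n false e e) (n false e e))) (n false e e)) e) (n false (n false e e) e)) e)) (c 17 4099 v (u 8 1 (k v (k (c 24 4099 r (u 16 1 (k v (k v r)))) (k (c 16 4098 r (u 24 1 (k v (k v r)))) (k (c 16 4097 r (u 24 1 (k v (k v r)))) (k (c 16 4099 r (u 24 1 (k v (k v r)))) (k (c 16 4095 r (u 24 0 (k v (k v r)))) r))))))))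
 .z .z) (.s 0x7df4aab800707cfeec00 4084 (n false (n true (n true (z 87) e) e) (n true (n false (n true (n true (n false (z 32) e) e) e) (n true (n false e e) e)) e)) (u 65 0 (k (t 129 3 (t 193 1 (u 8 1 (k v (k v r))))) r))
 .z .z)) (.s 0x7df544511043a577c010 4077 (n false (n true (n false (z 52) (n false e e)) e) (n true (n false (n true (n true (n false (n false (n false (n false e e) (n false e e)) (n false (n false e e) (n false e e))) (n false e e)) e) e) (n false e e)) e)) (u 8 73 (k v (k v (k (t 24 1 (u 16 0 (k v (k v r)))) (k (t 24 2 (u 16 0 (k (u 32 2 (k v (k (c 16 4084 (u 4 1 (k v (k v r))) v) r))) r))) r)))))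
 (.s 0x7df544511043a557c010 4078 (n false (n true (n false (n true (n true (n false (n false (n false (n false e e) (n false e e)) (n false (n false e e) (n false e e))) (n false e e)) e) e) (n false e e)) e) (n true (n false (z 48) (n false e e)) e)) (u 9 27 (k v (k v (k (c 25 4099 r (t 17 3 v)) (k (c 2 4088 v r) (k (u 17 4 (k v (k (t 49 1 (u 33 4 (k v (k v r)))) r))) (k (c 2 4088 v r) r)))))))
 .z .z) .z))) (.s 0x7f4affc02577c0075110 4089 (n false (n true (n true (n false (z 52) (z 124)) e) e) (n true (n false (n false (n false e e) (n false e e)) (n false e e)) e)) (u 24 23 (k (c 16 4097 r v) (k r (k (c 8 4083 r v) (k (c 56 4097 r (u 40 1 (k r (k r r)))) (k (c 56 4097 r (u 40 1 (k r (k r r)))) (k (c 56 4097 r (u 40 1 (k r (k r r)))) (k (c 40 4097 r (u 56 1 (k r (k r r)))) r))))))))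
 (.s 0x7df5445110707cbfb800 4091 (n false (n true (n false (n true (n true (n false (n false (n false (n false e e) (n false e e)) (n false (n false e e) (n false e e))) (n false e e)) e) e) (n true (n false e e) e)) e) (n true (n true (z 46) e) e)) (u 9 19 (k v (k (c 25 4099 r (u 17 0 (k v (k v r)))) (k (u 17 0 (k v (k v r))) (k (c 25 4097 r (u 17 1 (k v (k v r)))) (k (c 17 4095 r (u 25 1 (k v (k v r)))) r))))))
 (.s 0x7df544511043f9d75800 4087 (n false (n true (n true (n true (z 73) e) e) e) (n true (n false (n true (n true (n false (n false (n false (n false e e) (n false e e)) (n false (n false e e) (n false e e))) (n false e e)) e) e) (n false e e)) e)) (u 16 0 (k (u 32 29 (k v (k v (k v r)))) r))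
 (.s 0x7df544511043f95df000 4080 (n false (n true (n true (n true (z 52) e) e) e) (n true (n false (n true (n true (n false (n false (n false (n false e e) (n false e e)) (n false (n false e e) (n false e e))) (n false e e)) e) e) (n false e e)) e)) (u 16 89 (k v (k v (k v (k v (k v (k v (k v r))))))))
 .z .z) (.s 0x7df5445110707caffc00 4091 (n false (n true (n false (n true (n true (n false (n false (n false (n false e e) (n false e e)) (n false (n false e e) (n false e e))) (n false e e)) e) e) (n true (n false e e) e)) e) (n true (n true (z 124) e) e)) (u 9 25 (k v (k v (k (c 25 4097 r (u 17 1 (k v (k v r)))) (k (c 25 4096 r (u 17 1 (k v (k v r)))) (k (c 25 4097 r (u 17 1 (k v (k v r)))) r))))))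
 .z .z)) (.s 0x7f4afea004aef800ee10 4085 (n false (n true (n true (n false (z 156) (z 52)) e) e) (n true (n false (n true (n false e e) e) (n false e e)) e)) (u 24 166 (k r (k (t 16 1 v) (k (c 8 4085 r v) (k (c 8 4084 r v) (k r r))))))
 (.s 0x7df5445110707cebfc00 4091 (n false (n true (n true (z 121) e) e) (n true (n false (n true (n true (n false (n false (n false (n false e e) (n false e e)) (n false (n false e e) (n false e e))) (n false e e)) e) e) (n true (n false e e) e)) e)) (u 8 2 (k v (k v (k (c 24 4099 r (u 16 1 (k v (k v r)))) (k (c 16 4095 r (u 24 0 (k v (k v r)))) (k (c 16 4095 r (u 24 0 (k v (k v r)))) r))))))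
 .z .z) .z)) (.s 0x7f52bae0095550041708 4077 (n false (n true (n true (n false (n false (z 36) (z 0)) (n false e e)) e) e) (n false (n true (n false e e) e) (n false e e))) (t 48 1 (u 32 0 (k (u 64 2 (k v (k (c 32 4084 (u 4 1 (k v (k v r))) v) r))) r)))
 (.s 0x7f4ebfc02577c0075110 4089 (n false (n true (n true (n false (z 52) (z 121)) e) e) (n true (n false (n false (n false e e) (n false e e)) (n false e e)) e)) (u 24 58 (k r (k (c 16 4097 r v) (k r (k (c 8 4079 r v) (k (c 40 4097 r (u 56 1 (k r (k r r)))) r))))))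
 (.s 0x7f4bfb802577c0075110 4089 (n false (n true (n true (n false (z 52) (z 46)) e) e) (n true (n false (n false (n false e e) (n false e e)) (n false e e)) e)) (u 24 9 (k (c 16 4097 r v) (k r (k (u 16 349 (k r (k (u 40 1 (k v (k v r))) (k (c 8 4083 (u 5 1 (k v (k v r))) v) (k (c 4 4090 r v) (k (t 48 1 (u 32 7 (k r (k (u 40 1 (k v (k v r))) r)))) r)))))) r))))
 .z .z) (.s 0x7f4faf80275fe0075110 4091 (n false (n true (n true (n false (z 51) (z 121)) e) e) (n true (n false (n false (n false e e) (n false e e)) (n false e e)) e)) (t 16 3 (u 24 67 (k v (k v (k v (k v (k (c 56 4099 r (u 40 1 (k v (k v r)))) r)))))))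
 .z .z)) (.s 0x7f5d511444220a7d5600 4090 (n false (n false (z 67) e) (n true (n true (n false (n false (n true (n false (n false (n false (n false e e) (n false e e)) (n false (n false e e) (n false e e))) (n false e e)) e) (n false e e)) (n false e e)) e) e)) (u 4 108 (k v (k v (k v (k v (k (c 12 4099 r r) (k (c 12 4097 r r) (k (c 12 4099 r (u 8 1 (k v (k (u 16 1 (k v (k v r))) (k (c 24 4099 r (u 16 0 (k v (k v r)))) (k (u 16 1 (k v (k v r))) (k (c 24 4097 r (u 16 1 (k v (k v r)))) (k (c 16 4095 r (u 24 1 (k v (k v r)))) r)))))))) (k (c 65 4099 v (c 2 4088 r v)) (k (c 12 4099 r r) (k (c 8 4099 r r) (k (c 12 4099 r r) (k (c 8 4099 r r) (k (c 12 4099 r r) (k (c 12 4099 r r) (k (c 12 4099 r r) r))))))))))))))))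
 (.s 0x7f53eae004aef800ee10 4085 (n false (n true (n true (n false (z 52) (n false (z 35) e)) e) e) (n true (n false (n true (n false e e) e) (n false e e)) e)) (u 40 9 (k (c 16 4097 r v) (k (c 16 4097 r v) (k (t 104 1 (u 16 210 (k (u 72 0 (k (t 136 3 (t 200 1 v)) r)) (k (c 40 4096 (c 2 4098 r v) v) (k (c 72 4098 r v) (k (u 72 0 (k (t 136 3 (t 200 1 v)) r)) (k (c 24 4101 (u 4 0 (k (t 8 3 (t 12 1 v)) r)) v) r))))))) r))))
 .z .z) .z))))

set_option maxRecDepth 100000 in
def N190 : NT :=
(.s 0x3a57f5002555c013bbb00 4094 (n false (n false (z 156) (z 32)) (z 85)) (u 6 0 (k (t 10 3 (t 14 1 (u 3 14 (k r (k r (k (c 7 4099 r r) (k (t 4 1 r) (k (c 7 4099 r (t 4 1 (c 14 4101 v r))) (k (c 7 4096 r (t 4 1 (c 14 4101 v r))) r))))))))) r))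
 (.s 0x3a577c012aaa00e7dfe00 4096 (n false (n true (z 123) e) (n false (z 52) (z 0))) (t 7 1 (u 4 45 (k r (k r (k r (k (u 5 269 (k r (k (u 8 47 (k v (k v (k v (k (t 24 1 r) (k (c 24 4097 r (u 16 28 (k v (k v (k (c 48 4099 r (u 32 1 (k v (k v r)))) (k (c 32 4095 r (u 48 23 (k v (k v r)))) (k (c 32 4095 r (u 48 23 (k v (k v r)))) r))))))) (k (c 24 4097 r (u 16 16 (k v (k v (k v (k (c 48 4099 r (u 32 1 (k v (k v r)))) (k (c 32 4099 r (u 48 1 (k v (k v r)))) r))))))) r))))))) (k (t 8 2 v) r)))) r))))))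
 (.s 0x7fd754451108813fbf00 4092 (n false (n true (n true (n true (n false (n false (n true (n false (n false (n false (n false e e) (n false e e)) (n false (n false e e) (n false e e))) (n false e e)) e) (n false e e)) (n false e e)) e) e) e) (z 119)) (u 3 17 (k v (k (c 7 4101 r r) (k (c 7 4099 r r) (k (c 8 4093 v r) (k (t 7 1 (u 5 27 (k v (k v (k v (k v (k (c 13 4099 r (u 9 1 (k v (k v r)))) r))))))) (k (c 5 4101 r r) (k (c 5 4099 r r) (k (t 7 1 (u 5 40 (k v (k v (k (c 13 4099 r (u 9 1 (k v (k v r)))) r))))) (k (c 5 4101 r r) r))))))))))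
 (.s 0x7f73fbb00544417d1070 4068 (n false (n true (n true (n false (n true (z 87) e) (n false (n false (n false e e) (n false e e)) (n false e e))) e) e) (n false (n true (n true (n false (n false e e) (n false e e)) e) e) (n true (n false e e) e))) (c 24 4091 v (u 32 1 (k v (k v r))))
 (.s 0x7f73fbb00544413eab00 4089 (n false (n true (n true (n false (n true (z 87) e) (n false (n false (n false e e) (n false e e)) (n false e e))) e) e) (z 67)) (u 3 28 (k r (k (c 24 4091 v (u 32 1 (k v (k v r)))) (k (t 7 1 (u 5 1 (k (c 11 4101 v r) (k (u 32 1 (k v (k v r))) r)))) (k (u 7 2 (k (t 5 1 r) (k r r))) (k r (k (u 5 45 (k (t 7 1 r) (k r (k r (k (t 7 1 r) r))))) (k r (k r r)))))))))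
 .z .z) (.s 0x7f7d5114441c0e75fe00 4089 (n false (n true (n true (n false (n true (n true (n false (n false (n false (n false e e) (n false e e)) (n false (n false e e) (n false e e))) (n false e e)) e) e) (n true (n false e e) e)) e) e) (n true (z 121) e)) (u 5 1 (k v (k (c 13 4099 r (u 9 1 (k v (k v r)))) (k (c 9 4097 r (u 13 1 (k v (k v r)))) (k (c 9 4095 r (u 13 0 (k v (k v r)))) (k (c 9 4095 r (u 13 0 (k v (k v r)))) r))))))
 .z .z)) (.s 0x3a55f4012aaa009dfd400 4094 (n false (z 157) (n false (z 24) (z 0))) (t 7 1 (u 5 0 (k (t 9 3 (t 13 1 (u 2 0 (k v (k (t 6 1 (u 4 1 (k v (k (c 8 4099 r (u 12 1 (k v (k v r)))) (k (c 8 4098 r (u 12 1 (k v (k v r)))) (k (c 8 4097 r (c 3 4096 v r)) (k (c 8 4099 r (u 12 1 (k v (k v r)))) (k (c 8 4095 r (c 3 4096 v r)) r)))))))) (k (t 6 1 (u 4 0 (k (u 8 12 (k v (k v (k (t 24 1 (u 16 0 (k v (k (c 48 4099 r (u 32 8 (k v (k v r)))) r)))) r)))) r))) (k (c 6 4098 r r) r))))))) r)))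
 (.s 0x3a55f4012aaa0095dd400 4094 (n false (z 148) (n false (z 24) (z 0))) (t 7 1 (u 2 11 (k (u 5 0 (k (t 9 3 (t 13 1 v)) r)) (k (u 5 0 (k (t 9 3 (t 13 1 v)) r)) (k r (k (c 3 4096 (c 2 4098 r v) r) (k (c 3 4096 (c 2 4098 r v) r) (k (c 3 4096 (c 2 4098 r v) (t 6 2 r)) (k (c 3 4096 (c 2 4098 r v) (t 6 2 r)) (k (c 3 4096 (c 2 4098 r v) r) (k (t 6 1 r) r)))))))))))
 .z .z) .z)) (.s 0x3a57f5002555c012bff00 4094 (n false (n false (z 156) (z 32)) (z 124)) (u 6 0 (k (t 10 3 (t 14 1 (u 3 3 (k r (k r (k (c 7 4097 r r) (k (c 7 4096 r r) (k (c 7 4097 r r) r)))))))) r))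
 (.s 0x3a57d4012bbe00a5fd400 4094 (n false (n false (z 52) (z 12)) (n false (z 14) e)) (t 6 3 (u 4 321 (k (c 10 4099 v (u 5 0 (k v (k v r)))) (k r (k (c 2 4088 v (c 5 4097 r v)) (k (u 5 3 (k v (k v (k v r)))) (k (u 5 3 (k v (k v (k v r)))) r)))))))
 (.s 0x3a57d4012bbe00a577c00 4094 (n false (n false (z 52) (z 12)) (n false (z 52) e)) (t 6 3 (u 4 189 (k r (k (c 10 4099 v r) (k (c 10 4099 v r) (k (c 5 4097 r v) (k (u 5 190 (k v (k v (k v (k v (k v (k v (k (t 13 1 (u 9 0 (k v (k v r)))) r)))))))) r)))))))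
 .z .z) (.s 0x3a57d4012bbe00e7d5600 4096 (n false (n false (z 52) (z 12)) (n true (z 67) e)) (t 6 3 (u 4 259 (k r (k r (k (c 10 4099 v r) (k (c 2 4084 v (c 5 4103 r v)) (k (t 12 1 (u 5 28 (k (u 8 0 (k v (k v r))) (k (u 8 0 (k v (k v r))) (k r (k r (k r (k (c 8 4105 r (c 10 4099 v r)) (k r (k (c 8 4105 r (c 10 4099 v r)) r)))))))))) r)))))))
 .z .z)) (.s 0x3a57f5002555c013bae00 4095 (n false (n false (z 156) (z 32)) (z 37)) (u 6 0 (k (t 10 3 (t 14 1 (u 3 18 (k r (k (u 4 3 (k v (k v (k (c 12 4099 r (u 8 1 (k v (k v r)))) r)))) (k (t 4 1 (u 5 0 (k (t 9 3 (t 13 1 v)) r))) (k (t 4 1 r) (k (t 4 1 r) (k (t 4 1 (c 2 4094 v r)) r))))))))) r))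
 (.s 0x3a57f5002555c012fee00 4094 (n false (n false (z 156) (z 32)) (z 46)) (u 6 0 (k (t 10 3 (t 14 1 (u 3 4 (k r (k r (k (c 7 4099 r r) (k (t 4 1 r) (k (u 5 13 (k r (k (c 4 4101 r v) r))) r)))))))) r))
 .z .z) .z))) (.s 0x3a57f50027d56012bbe00 4094 (n false (n false (z 67) (z 156)) (z 52)) (u 6 1 (k (t 4 1 r) (k (c 14 4099 r (t 4 1 (u 10 1 (k r (k r r))))) (k (c 10 4098 r (t 4 1 (u 14 1 (k r (k r r))))) (k (c 10 4097 r (t 4 2 (u 14 1 (k r (k r r))))) (k (c 10 4099 r (t 4 1 (u 14 1 (k r (k r r))))) (k (c 10 4095 r (t 4 1 (c 3 4097 r r))) r)))))))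
 (.s 0x3a57f50025ddc013fab00 4094 (n false (n false (z 156) (z 42)) (z 71)) (u 3 7 (k (t 6 1 r) (k (t 6 1 r) (k r (k (c 7 4099 r (u 4 35 (k (u 5 1 (k r (k r r))) (k (u 5 1 (k (u 6 1 (k v (k v r))) (k (u 6 1 (k v (k v r))) r))) (k (c 2 4067 (u 3 1 (k v (k v r))) (c 5 4100 r v)) (k (c 12 4099 r (u 5 1 (k r (k r r)))) (k (c 8 4098 r (u 5 1 (k r (k r r)))) (k (c 8 4097 r (u 5 1 (k r (k r r)))) (k (c 8 4099 r (u 5 1 (k r (k r r)))) r))))))))) r)))))
 (.s 0x3a57f5002555c013efb00 4094 (n false (z 91) (n false (z 156) (z 32))) (u 7 0 (k (t 11 3 (t 15 1 (u 2 1 (k r (k r (k (t 5 1 v) (k (u 4 22 (k r (k (u 5 3 (k v (k v (k (c 13 4099 r (u 9 1 (k v (k v r)))) r)))) r))) (k (c 4 4097 r r) (k (c 4 4095 r r) r))))))))) r))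
 (.s 0x3a57f5002555c013eae00 4094 (n false (z 35) (n false (z 156) (z 32))) (u 7 0 (k (t 11 3 (t 15 1 (u 2 4 (k r (k r (k (c 7 4096 v r) (k (u 5 1 (k v (k (c 13 4099 r (u 9 1 (k v (k v r)))) (k (c 9 4098 r (u 13 1 (k v (k v r)))) (k (c 9 4097 r (c 2 4090 v r)) (k (c 9 4099 r (u 13 1 (k v (k v r)))) (k (c 9 4095 r (u 13 0 (k v (k v r)))) r))))))) r))))))) r))
 .z .z) (.s 0x3a57f500257f5002a2288 4094 (n false (n false (z 156) (z 156)) (n false (n false (n false e e) (n false e e)) (n false (n false e e) (n false e e)))) (u 4 1 (k r (k (c 12 4099 r r) (k (c 8 4098 r r) (k (c 8 4097 r (t 6 1 r)) (k (c 8 4099 r r) (k (c 8 4095 r (t 6 1 r)) r)))))))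
 .z .z)) (.s 0x3a57f5002775401fd4440 4091 (n false (n false (z 156) (z 5)) (n true (n true (n true (n false (n false (n false e e) (n false e e)) (n false e e)) e) e) e)) (t 6 1 (u 4 11 (k v (k v (k (c 12 4099 r (u 8 1 (k v (k v r)))) (k (c 8 4098 r (u 12 1 (k v (k v r)))) (k (c 8 4097 r r) (k (c 8 4099 r (u 12 1 (k v (k v r)))) r))))))))
 (.s 0x3a57f5002775401dd7080 4083 (n false (n false (z 156) (z 5)) (n true (n false (n true (n false (n false (n true (n false e e) e) (n false e e)) e) e) e) e)) (t 6 1 (u 4 2 (k v (k (c 12 4099 r (u 8 1 (k v (k v r)))) (k (c 8 4095 r (u 12 0 (k v (k v r)))) r)))))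
 .z .z) .z)) (.s 0x3a57fe012aae0095fd400 4094 (n false (z 156) (n false (z 124) (z 32))) (u 7 0 (k (t 11 3 (t 15 1 (u 5 22 (k (u 2 1 (k v (k (c 6 4099 r (u 4 1 (k v (k v r)))) (k (c 4 4098 r (u 6 1 (k v (k v r)))) (k (c 4 4097 r (u 6 1 (k v (k v r)))) (k (c 4 4099 r (u 6 1 (k v (k v r)))) (k (c 4 4095 r (u 6 0 (k v (k v r)))) r))))))) (k (c 15 4101 v r) (k (c 13 4097 r r) (k (c 13 4096 r r) (k (c 13 4097 r r) (k (c 13 4099 r r) r))))))))) r))
 (.s 0x3a57f50027d5c013bbb00 4094 (n false (n false (z 156) (z 35)) (z 85)) (u 6 0 (k (u 4 8 (k r (k (c 2 4059 v (t 3 1 v)) (k (c 12 4099 r (u 8 1 (k r (k r r)))) (k (c 8 4098 r (u 12 1 (k r (k r r)))) (k (c 8 4097 r (u 12 1 (k r (k r r)))) (k (c 8 4099 r (u 12 1 (k r (k r r)))) r))))))) (k (t 4 1 r) (k (t 14 1 (u 10 0 (k (t 18 3 (t 26 1 (u 4 8 (k r (k (c 2 4069 v (t 3 1 v)) (k (c 12 4099 r r) (k (c 8 4098 r r) (k (c 8 4097 r (u 12 31 (k r (k r (k r r))))) (k (c 8 4099 r r) r))))))))) r))) r))))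
 (.s 0x3a57f50027d5601d44510 4090 (n false (n false (z 67) (z 156)) (n true (n false (n false (n false e e) (n false e e)) (n false (n false e e) (n false e e))) e)) (u 6 1 (k r (k (c 14 4099 r (u 10 1 (k r (k r r)))) (k (c 10 4098 r (u 14 1 (k r (k r r)))) (k (c 10 4097 r (u 14 1 (k r (k r r)))) (k (c 10 4099 r (u 14 1 (k r (k r r)))) (k (c 10 4095 r (t 4 2 (c 5 4101 v r))) r)))))))
 .z .z) (.s 0x3a57f50027f7601fd4440 4091 (n false (n false (z 156) (z 87)) (n true (n true (n true (n false (n false (n false e e) (n false e e)) (n false e e)) e) e) e)) (u 4 11 (k (c 6 4099 r v) (k (c 6 4099 r v) (k (c 12 4099 r r) (k (c 8 4098 r r) (k (c 8 4097 r r) (k (c 8 4099 r r) r)))))))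
 .z .z)) (.s 0x3a57fe012bbe00e577c00 4091 (n false (n false (z 124) (z 52)) (n true (z 52) e)) (u 4 21 (k r (k (c 6 4097 r r) (k (c 2 4083 r (c 5 4097 r v)) (k (c 12 4097 r r) (k (c 12 4096 r r) (k (c 12 4097 r r) (k (c 12 4097 r r) (k (c 8 4097 r r) r)))))))))
 (.s 0x3a57fe012bbe00aa22888 4091 (n false (n false (z 124) (z 52)) (n false (n false (n false (n false e e) (n false e e)) (n false (n false e e) (n false e e))) (n false e e))) (u 4 1 (k r (k (c 12 4097 r r) (k (c 12 4096 r r) (k (c 8 4098 r (u 12 0 (k r (k r r)))) (k (c 12 4096 r r) (k (c 12 4097 r r) (k (c 12 4097 r r) (k (c 12 4096 r r) (k (c 12 4099 r r) (k (c 8 4097 r r) r)))))))))))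
 .z .z) .z))))

set_option maxRecDepth 100000 in
def N191 : NT :=
(.s 0x3a7754012bff00e7d5600 4096 (n false (n false (z 124) (z 5)) (n true (z 67) e)) (t 6 1 (u 4 5 (k r (k (c 12 4097 r (u 8 1 (k r (k r r)))) (k (c 12 4096 r (u 8 1 (k r (k r r)))) (k (c 8 4098 r (u 12 0 (k r (k r r)))) (k (c 12 4096 r (u 8 1 (k r (k r r)))) (k (c 12 4097 r (u 8 1 (k r (k r r)))) (k (c 12 4097 r (u 8 1 (k r (k r r)))) (k (c 12 4096 r (u 8 1 (k r (k r r)))) (k (c 8 4097 r (u 12 1 (k r (k r r)))) r)))))))))))
 (.s 0x3a75fe012bbe00aa22888 4091 (n false (n false (z 121) (z 52)) (n false (n false (n false (n false e e) (n false e e)) (n false (n false e e) (n false e e))) (n false e e))) (u 4 1 (k r (k (c 12 4099 r r) (k (c 8 4097 r (u 12 1 (k r (k r r)))) (k (c 8 4095 r (u 12 0 (k r (k r r)))) (k (c 8 4095 r (u 12 0 (k r (k r r)))) r))))))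
 (.s 0x3a75fe012aae00aa22888 4094 (n false (n false (z 32) (z 121)) (n false (n false (n false (n false e e) (n false e e)) (n false (n false e e) (n false e e))) (n false e e))) (u 4 0 (k (c 12 4101 r (t 8 3 (u 6 1 (k v (k (c 14 4099 r (u 10 1 (k v (k v r)))) (k (c 10 4097 r (u 14 1 (k v (k v r)))) (k (c 10 4095 r r) (k (c 10 4095 r r) r)))))))) r))
 (.s 0x3a5fdc012bbe00e577c00 4091 (n false (n false (z 46) (z 52)) (n true (z 52) e)) (u 4 1 (k r (k (u 8 1 (k r (k r r))) (k (c 12 4099 r (u 8 0 (k r (k r r)))) (k r (k (c 12 4097 r (u 8 1 (k r (k r r)))) (k (c 8 4095 r (u 12 1 (k r (k r r)))) r)))))))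
 (.s 0x3a5fdc012bbe00aa22888 4091 (n false (n false (z 46) (z 52)) (n false (n false (n false (n false e e) (n false e e)) (n false (n false e e) (n false e e))) (n false e e))) (u 4 1 (k r (k (u 8 1 (k r (k r r))) (k (c 12 4099 r (u 8 0 (k r (k r r)))) (k (u 8 1 (k r (k (u 6 138 (k v (k v (k v r)))) r))) (k (c 12 4097 r (u 8 1 (k r (k r r)))) (k (c 8 4095 r (u 12 1 (k r (k r r)))) r)))))))
 .z .z) (.s 0x3a5ffc012fee00a577c00 4094 (n false (n false (z 52) e) (n false (z 62) (z 46))) (u 5 10 (k (u 4 418 (k r (k (c 9 4094 v r) (k (c 7 4099 r v) (k (t 12 1 (u 7 2 (k (u 8 0 (k v (k v r))) (k (c 15 4099 r (u 11 0 (k (u 8 0 (k v (k v r))) (k (u 8 0 (k v (k v r))) r)))) (k r (k (c 2 4096 (t 4 1 v) (c 9 4094 v r)) (k (c 15 4097 r r) (k (c 11 4095 r r) r)))))))) r))))) (k (t 7 1 r) r)))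
 .z .z)) (.s 0x3a75fe012aff00aa22888 4094 (n false (n false (z 120) (z 121)) (n false (n false (n false (n false e e) (n false e e)) (n false (n false e e) (n false e e))) (n false e e))) (u 6 11 (k r (k (c 3 4099 v r) (k (c 14 4099 r r) (k (c 10 4095 r (t 4 1 (c 3 4099 v r))) (k (c 10 4095 r (t 4 1 (c 3 4099 v r))) r))))))
 (.s 0x3a75fe012aae00e7f7600 4092 (n false (n false (z 121) (z 32)) (n true (z 87) e)) (u 5 1 (k (u 6 0 (k (t 10 3 (t 14 1 r)) r)) (k (u 6 0 (k (t 10 3 (t 14 1 r)) r)) r)))
 .z .z) .z)) (.s 0x3a75fe012fea00e7d5600 4096 (n false (n false (z 121) (z 14)) (n true (z 67) e)) (u 5 0 (k r (k (u 6 3 (k r (k (t 4 2 v) (k (u 4 1 (k v (k (c 12 4099 r (u 8 1 (k v (k v r)))) (k (c 8 4097 r (u 12 1 (k v (k v r)))) (k (c 8 4095 r (u 12 0 (k v (k v r)))) (k (c 8 4095 r (u 12 0 (k v (k v r)))) r)))))) r)))) r)))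
 (.s 0x3a75fe012eee00a555c00 4094 (n false (n false (z 121) (z 42)) (n false (z 32) e)) (u 5 0 (k (t 9 3 (t 13 1 (u 4 1 (k (u 6 1 (k v (k v r))) (k (c 12 4099 r r) (k (c 8 4097 r r) (k (c 8 4095 r (c 5 4096 v r)) (k (c 8 4095 r (c 5 4096 v r)) r)))))))) r))
 (.s 0x3a75fe012bbe00e577c00 4091 (n false (n false (z 52) (z 121)) (n true (z 52) e)) (u 6 62 (k (c 4 4097 r r) (k r (k r (k (c 14 4099 r r) (k (c 10 4097 r (u 14 1 (k r (k r r)))) (k (c 10 4095 r (u 14 0 (k r (k r r)))) (k (c 10 4095 r (u 14 0 (k r (k r r)))) r))))))))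
 .z .z) (.s 0x3a75fe012eee00a7d5c00 4094 (n false (n false (z 42) (z 121)) (n false (z 35) e)) (u 5 8 (k (t 4 1 r) (k (t 13 1 (u 9 0 (k (t 17 3 (t 25 1 (u 6 1 (k (u 4 9 (k v (k v (k v r)))) (k (c 14 4099 r r) (k (c 10 4097 r r) (k (c 10 4095 r (c 5 4096 v r)) (k (c 10 4095 r (c 5 4096 v r)) r)))))))) r))) r)))
 .z .z)) (.s 0x3a7754012afe00e7d5600 4096 (n false (n false (z 56) (z 5)) (n true (z 67) e)) (t 6 1 (u 4 0 (k (u 8 260 (k r (k r (k (c 4 4085 v (u 5 0 (k v (k v r)))) (k r r))))) (k (c 8 4096 r (u 12 0 (k r (k r r)))) (k (u 8 1 (k r (k r r))) (k (c 12 4096 r r) r))))))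
 (.s 0x3a75fe013aff00aa22888 4094 (n false (n false (z 121) (z 121)) (n false (n false (n false (n false e e) (n false e e)) (n false (n false e e) (n false e e))) (n false e e))) (u 4 28 (k r (k r (k (c 12 4099 r (u 6 28 (k (u 8 1 (k v (k v r))) (k (u 8 1 (k v (k v r))) (k (c 14 4099 r r) (k (c 10 4095 r r) (k (c 10 4095 r r) r))))))) (k (c 8 4095 r (u 12 23 (k r (k r r)))) (k (c 8 4095 r (u 12 23 (k r (k r r)))) r))))))
 .z .z) .z))) (.s 0x3a7754013aff00e5f7e00 4093 (n false (n true (z 118) e) (n false (z 121) (z 5))) (t 7 1 (u 4 3 (k (c 7 4099 v r) (k (t 12 1 (u 8 7 (k r (k (c 7 4099 v r) (k (c 16 4101 r (c 5 4101 r r)) (k (c 24 4103 r (c 5 4101 r r)) (k (c 24 4100 r (c 5 4101 r r)) (k (c 24 4100 r (c 5 4101 r r)) r)))))))) (k (c 5 4101 r (t 12 1 r)) r)))))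
 (.s 0x3a7754012fee00efa20e0 4078 (n false (n false (z 46) (z 5)) (n true (n false (n true (n true (n false (n false e e) (n false e e)) e) e) (n true (n false e e) e)) e)) (t 6 1 (u 4 10 (k v (k (c 12 4099 r (u 8 0 (k v (k v r)))) (k (c 3 4075 v (c 10 4101 v r)) r)))))
 (.s 0x3a7754012eee00e7d5600 4096 (n false (n false (z 42) (z 5)) (n true (z 67) e)) (t 6 1 (u 4 16 (k r (k r (k (c 2 4090 r (c 5 4103 r v)) (k (c 2 4090 (c 3 4099 v r) (c 5 4103 r v)) (k (c 5 4103 r (c 2 4090 r v)) (k (c 2 4090 r (c 5 4103 r v)) r))))))))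
 (.s 0x3a7754012eee00a5df400 4094 (n false (n false (z 26) e) (n false (z 42) (z 5))) (t 7 2 (u 5 92 (k r (k (c 3 4089 v r) (k (c 7 4094 v r) (k (t 9 3 (t 13 1 (u 4 9 (k v (k v (k (c 2 4084 (u 4 1 (k v (k v r))) v) r)))))) (k (t 13 3 (c 7 4094 v (u 9 0 (k (u 4 2 (k v (k (c 2 4084 (u 4 1 (k v (k v r))) v) r))) (k (c 21 4099 v r) r))))) r)))))))
 .z .z) (.s 0x3a7754012fee00eea20e0 4078 (n false (n false (z 46) (z 5)) (n true (n false (n true (n false (n false (n false e e) (n false e e)) e) e) (n true (n false e e) e)) e)) (t 6 1 (u 4 10 (k v (k (c 12 4099 r (u 8 0 (k v (k v r)))) (k (c 3 4075 v (c 10 4101 v r)) r)))))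
 .z .z)) (.s 0x3a7754013afb00e7d5600 4096 (n false (n false (z 89) (z 5)) (n true (z 67) e)) (t 6 1 (u 4 21 (k r (k r (k r (k r (k r (k (c 12 4099 r r) (k (c 12 4097 r r) r)))))))))
 (.s 0x3a7754013afb00e775c00 4096 (n false (n false (z 89) (z 5)) (n true (z 37) e)) (t 6 1 (u 5 23 (k (c 4 4098 r v) (k r (k (c 6 4099 v r) (k (u 9 0 (k r (k (u 4 6 (k v (k v r))) (k r r)))) (k (c 3 4088 r (c 4 4098 r v)) r)))))))
 .z .z) .z)) (.s 0x3a775c012bbe00aa22888 4091 (n false (n false (z 52) (z 37)) (n false (n false (n false (n false e e) (n false e e)) (n false (n false e e) (n false e e))) (n false e e))) (u 6 0 (k (u 4 137 (k v (k v (k v (k v (k v r)))))) (k (c 3 4099 v r) (k (c 3 4099 v r) (k r (k r (k r r)))))))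
 (.s 0x3a775c012aae0095fd400 4095 (n false (z 156) (n false (z 37) (z 32))) (u 5 1 (k (u 7 0 (k (c 15 4101 r (t 11 3 r)) r)) (k (u 7 0 (k (t 11 3 (t 15 1 (u 2 4 (k v (k (c 6 4099 r (u 4 1 (k v (k v r)))) r))))) r)) r)))
 (.s 0x3a7754013aff00efa20e0 4078 (n false (n false (z 121) (z 5)) (n true (n false (n true (n true (n false (n false e e) (n false e e)) e) e) (n true (n false e e) e)) e)) (t 6 1 (u 4 9 (k v (k v (k v (k (c 12 4099 r (u 8 1 (k v (k v r)))) r))))))
 .z .z) (.s 0x3a775c012aae00aa22888 4094 (n false (n false (z 32) (z 37)) (n false (n false (n false (n false e e) (n false e e)) (n false (n false e e) (n false e e))) (n false e e))) (u 6 23 (k r (k (u 4 0 (k (c 12 4101 r (t 8 3 v)) r)) (k (c 10 4096 r r) (k (c 10 4096 r r) (k (c 10 4096 r r) r))))))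
 .z .z)) (.s 0x3a775c013aff00aa22888 4094 (n false (n false (z 121) (z 37)) (n false (n false (n false (n false e e) (n false e e)) (n false (n false e e) (n false e e))) (n false e e))) (u 4 28 (k r (k r (k (c 12 4099 r r) (k (c 8 4095 r (u 12 23 (k r (k r r)))) (k (c 8 4095 r (u 12 23 (k r (k r r)))) r))))))
 (.s 0x3a775c012bbe00e577c00 4091 (n false (n false (z 52) (z 37)) (n true (z 52) e)) (u 6 0 (k r (k (c 3 4096 r r) (k (c 3 4096 r r) (k r (k r (k (c 6 4095 r r) r)))))))
 .z .z) .z))))

set_option maxRecDepth 100000 in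
def N192 : NT :=
(.s 0x3a7d7c013aff00e577c00 4093 (n false (n false (z 121) (z 51)) (n true (z 52) e)) (t 6 3 (u 4 2 (k r (k (c 6 4094 v r) (k (c 12 4099 r r) (k (c 8 4095 r r) (k (c 8 4095 r r) r)))))))
 (.s 0x3a7d56013aff00aa22888 4094 (n false (n false (z 67) (z 121)) (n false (n false (n false (n false e e) (n false e e)) (n false (n false e e) (n false e e))) (n false e e))) (u 6 1 (k r (k (c 14 4099 r (u 10 1 (k r (k r r)))) (k (c 10 4097 r (u 14 1 (k r (k r r)))) (k (c 10 4095 r (t 4 1 (c 3 4099 v r))) (k (c 10 4095 r (t 4 1 (c 3 4099 v r))) r))))))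
 (.s 0x3a7776013baa00e7d5600 4096 (n false (n false (z 85) (z 5)) (n true (z 67) e)) (t 6 1 (u 4 68 (k r (k (c 12 4099 r r) (k (c 12 4099 r (u 8 3 (k r (k (c 10 4101 v r) r)))) (k (c 12 4099 r (u 8 5 (k r (k r r)))) (k (c 3 4102 (t 2 2 v) (c 10 4101 v r)) (k (c 8 4097 r r) (k (c 8 4099 r r) r)))))))))
 (.s 0x3a7776012aae0095fd400 4094 (n false (n false (z 85) (z 32)) (z 156)) (u 6 0 (k (t 10 3 (t 14 1 (u 4 66 (k (c 14 4101 v r) (k (u 3 1 (k v (k (c 7 4099 r (u 5 1 (k v (k v r)))) (k (c 5 4098 r (u 7 1 (k v (k v r)))) (k (c 5 4097 r (u 7 1 (k v (k v r)))) (k (c 5 4099 r (u 7 1 (k v (k v r)))) (k (c 5 4095 r (u 7 0 (k v (k v r)))) r))))))) (k (c 12 4099 r r) (k (c 12 4099 r (c 3 4101 r r)) (k (c 8 4099 r r) r)))))))) r))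
 (.s 0x3a775c013bae00aa22888 4094 (n false (n false (z 37) (z 37)) (n false (n false (n false (n false e e) (n false e e)) (n false (n false e e) (n false e e))) (n false e e))) (u 4 23 (k (u 6 1 (k v (k v r))) (k r (k (c 3 4099 v r) (k r (k (u 6 1 (k (u 8 3 (k v (k v r))) (k (u 8 3 (k v (k v r))) r))) r))))))
 .z .z) (.s 0x3a7776012ffe00a577c00 4094 (n false (n false (z 85) (z 62)) (n false (z 52) e)) (u 5 419 (k (t 4 1 (t 6 1 v)) (k (c 4 4099 r r) (k (c 6 4095 r r) (k (t 6 1 (c 9 4099 v r)) (k (t 13 1 (c 4 4099 r r)) r))))))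
 .z .z)) (.s 0x3a7d56012fee00aa22888 4094 (n false (n false (z 67) (z 46)) (n false (n false (n false (n false e e) (n false e e)) (n false (n false e e) (n false e e))) (n false e e))) (u 6 2 (k r (k (c 14 4099 r (u 10 0 (k r (k r r)))) (k (u 10 1 (k r (k r r))) (k (t 4 1 r) (k (c 14 4097 r (u 10 1 (k r (k r r)))) (k (c 10 4095 r (u 14 1 (k r (k r r)))) r)))))))
 (.s 0x3a7d56012bff00aa22888 4094 (n false (n false (z 67) (z 124)) (n false (n false (n false (n false e e) (n false e e)) (n false (n false e e) (n false e e))) (n false e e))) (u 6 8 (k (c 3 4099 v r) (k r (k (c 14 4097 r (u 10 1 (k r (k r r)))) (k (c 14 4097 r (u 10 1 (k r (k r r)))) (k (c 14 4097 r (u 10 1 (k r (k r r)))) (k (c 10 4097 r (u 14 1 (k r (k r r)))) r)))))))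
 .z .z) .z)) (.s 0x3a7d7c012fee00aa22888 4093 (n false (n false (z 46) (z 51)) (n false (n false (n false (n false e e) (n false e e)) (n false (n false e e) (n false e e))) (n false e e))) (t 6 1 (u 4 1 (k v (k (u 8 1 (k v (k v r))) (k (c 12 4099 r (u 8 0 (k v (k v r)))) (k (u 8 1 (k v (k v r))) (k (c 12 4097 r (u 8 1 (k v (k v r)))) (k (c 8 4095 r (u 12 1 (k v (k v r)))) r))))))))
 (.s 0x3a7d56015114474aab800 4096 (n false (n false (z 67) (n false (n false (n false e e) (n false e e)) (n false (n false e e) (n false e e)))) (n true (n false (z 32) e) e)) (u 9 0 (k (t 17 3 (t 25 1 (u 4 77 (k v (k v (k v (k v (k (c 12 4099 r (u 8 2 (k v (k v r)))) (k (c 12 4099 r (u 8 0 (k (u 16 0 (k v (k v r))) r))) (k (c 12 4101 r r) (k (c 12 4099 r (u 8 35 (k v (k v (k v (k (c 16 4095 r (u 24 0 (k v (k v r)))) (k (c 16 4095 r (u 24 0 (k v (k v r)))) r))))))) (k (c 12 4102 r r) (k (c 8 4101 r r) (k (c 12 4099 r (u 8 3 (k v (k v (k (c 24 4099 r (u 16 1 (k v (k v r)))) r))))) (k (c 8 4101 r r) r)))))))))))))))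 r))
 (.s 0x3a7d56015114472bfa800 4096 (n false (n false (z 67) (n false (n false (n false e e) (n false e e)) (n false (n false e e) (n false e e)))) (n true (z 156) e)) (u 5 1 (k r (k (c 13 4099 r (u 9 1 (k r (k r r)))) (k (c 9 4098 r (u 13 1 (k r (k r r)))) (k (c 9 4097 r (u 13 1 (k r (k r r)))) (k (c 9 4099 r (u 13 1 (k r (k r r)))) (k (c 9 4095 r (u 13 23 (k r (k r r)))) r)))))))
 .z .z) (.s 0x3a7d5601511447caef800 4091 (n false (n false (z 67) (n false (n false (n false e e) (n false e e)) (n false (n false e e) (n false e e)))) (n true (n true (z 52) e) e)) (u 9 296 (k r (k (u 4 123 (k v (k v (k v r)))) (k r (k r (k (u 4 0 (k v (k v r))) (k r (k (c 2 4095 (u 2 0 (k v (k v r))) v) r))))))))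
 .z .z)) (.s 0x3a7d7c013aff00aa22888 4093 (n false (n false (z 51) (z 121)) (n false (n false (n false (n false e e) (n false e e)) (n false (n false e e) (n false e e))) (n false e e))) (t 4 1 (u 6 1 (k v (k (c 14 4099 r (u 10 1 (k v (k v r)))) (k (c 10 4097 r (u 14 1 (k v (k v r)))) (k (c 10 4095 r (u 14 0 (k v (k v r)))) (k (c 10 4095 r (u 14 0 (k v (k v r)))) r)))))))
 (.s 0x3a7d7c012fee00e577c00 4093 (n false (n false (z 51) (z 46)) (n true (z 52) e)) (t 4 1 (u 5 4 (k (c 6 4099 r v) (k r (k (c 6 4099 r v) (k r (k r r)))))))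
 .z .z) .z))) (.s 0x3a7dfe012bff00e5ddc00 4091 (n false (n false (z 123) (z 124)) (n true (z 42) e)) (t 6 1 (u 5 1 (k r (k (u 4 52 (k v (k v (k r (k (c 12 4099 r (u 8 66 (k v (k v (k (c 24 4099 r r) (k (c 24 4097 r r) r)))))) (k (u 8 62 (k v (k v (k v (k (c 24 4101 r r) (k (c 24 4099 r r) (k (c 24 4097 r r) (k (c 24 4096 r (u 16 0 (k (u 32 0 (k v (k v r))) r))) (k (c 16 4098 r r) (k (c 16 4101 r r) (k (c 16 4099 r r) (k (c 16 4101 r r) r)))))))))))) (k (c 5 4094 v r) (k (c 12 4100 r r) (k (c 12 4097 r r) r))))))))) r))))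
 (.s 0x3a7df6012bbe00aa22888 4091 (n false (n false (z 52) (z 91)) (n false (n false (n false (n false e e) (n false e e)) (n false (n false e e) (n false e e))) (n false e e))) (u 6 5 (k r (k (u 10 1 (k r (k (u 4 138 (k v (k v (k v r)))) r))) (k (c 10 4097 r (u 14 0 (k r (k r r)))) (k (c 10 4097 r (u 14 0 (k r (k r r)))) (k (c 10 4097 r (u 14 0 (k r (k r r)))) (k (c 10 4096 r (u 14 0 (k r (k r r)))) (k (c 10 4095 r (u 14 0 (k r (k r r)))) r))))))))
 (.s 0x3a7dde012bea009575400 4094 (n false (n false (z 107) (z 12)) (z 136)) (t 6 2 (u 3 5 (k r (k (t 4 1 r) (k (c 7 4101 r (u 5 0 (k (u 9 0 (k r (k r r))) r))) (k (c 7 4099 r r) (k (c 5 4099 r r) (k (c 5 4100 r (u 7 2 (k r (k (c 15 4099 r (u 11 0 (k r (k r r)))) (k (u 11 1 (k r (k r r))) (k r (k (c 15 4097 r (u 11 1 (k r (k r r)))) (k (c 11 4095 r (u 15 1 (k r (k r r)))) r)))))))) (k (t 4 2 r) (k (c 5 4100 r (u 7 2 (k r (k r (k (c 15 4099 r (u 11 1 (k r (k r r)))) (k (c 11 4095 r (u 15 0 (k r (k r r)))) (k (c 11 4095 r (u 15 0 (k r (k r r))))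 r))))))) r))))))))))
 (.s 0x3a7ddc013baa00e775c00 4097 (n false (n true (z 37) e) (n false (z 43) (z 5))) (t 7 2 (u 4 23 (k (c 5 4100 r v) (k (u 5 13 (k v (k v (k r (k (c 13 4099 r (u 9 0 (k (u 17 0 (k v (k v r))) r))) (k r (k (u 9 0 (k (u 17 23 (k v (k v r))) r)) (k r (k r r))))))))) (k (t 5 2 (u 8 0 (k (t 16 3 (t 24 1 v)) r))) (k (t 5 2 (u 8 12 (k v (k v (k v (k v (k (t 24 1 (u 16 0 (k (t 32 3 (t 48 1 v)) r))) r))))))) (k (t 5 2 (c 2 4088 r v)) r)))))))
 .z .z) (.s 0x3a7df6012aae0095fd400 4094 (n false (n false (z 91) (z 32)) (z 156)) (u 6 0 (k (t 10 3 (t 14 1 (u 4 7 (k (c 14 4101 v r) (k (u 3 4 (k (c 18 4099 v (c 14 4101 v (u 8 1 (k v (k v r))))) (k (c 7 4099 r (u 8 0 (k (u 5 1 (k v (k v r))) (k (u 5 1 (k v (k v r))) r)))) r))) r))))) r))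
 .z .z)) (.s 0x3a7dfe012bff00aa22888 4094 (n false (n false (z 124) (z 123)) (n false (n false (n false (n false e e) (n false e e)) (n false (n false e e) (n false e e))) (n false e e))) (u 6 51 (k r (k r (k (c 3 4099 v (u 4 1 (k v (k (c 12 4097 r (u 8 1 (k v (k v r)))) (k (c 12 4096 r (u 8 1 (k v (k v r)))) (k (c 8 4098 r (u 12 0 (k v (k v r)))) (k (c 12 4096 r (u 8 1 (k v (k v r)))) (k (c 12 4097 r (u 8 1 (k v (k v r)))) (k (c 12 4097 r (u 8 1 (k v (k v r)))) (k (c 12 4096 r (u 8 1 (k v (k v r)))) (k (c 12 4099 r (u 8 1 (k v (k v r)))) (k (c 8 4097 r (u 12 1 (k v (k v r)))) r)))))))))))) r))))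
 (.s 0x3a7df6013baa00e7d5600 4096 (n false (n false (z 91) (z 5)) (n true (z 67) e)) (t 6 1 (u 4 20 (k r (k r (k (u 8 23 (k r (k r (k r r)))) (k (c 8 4097 r (u 12 0 (k r (k r r)))) (k (c 8 4097 r (u 12 0 (k r (k r r)))) (k (c 8 4096 r (u 12 0 (k r (k r r)))) r))))))))
 .z .z) .z)) (.s 0x3a7f76012fee00e7d5600 4096 (n false (n false (z 87) (z 46)) (n true (z 67) e)) (u 4 0 (k (u 5 0 (k (u 6 0 (k v (k (u 10 1 (k v (k v r))) (k (u 10 1 (k v (k v r))) (k (c 14 4099 r (u 10 0 (k v (k v r)))) (k (c 14 4097 r (u 10 1 (k v (k v r)))) (k (c 10 4095 r (u 14 1 (k v (k v r)))) r))))))) (k r r))) (k (t 6 1 (u 5 0 (k v (k v r)))) r)))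
 (.s 0x3a7f56013aff00aa22888 4094 (n false (n false (z 121) (z 71)) (n false (n false (n false (n false e e) (n false e e)) (n false (n false e e) (n false e e))) (n false e e))) (u 6 1 (k r (k (c 14 4099 r r) (k (u 4 0 (k (c 3 4099 v r) (k (u 10 23 (k v (k v r))) (k (c 12 4099 r r) r)))) (k (c 10 4099 r r) (k (c 10 4099 r r) (k (c 10 4099 r r) r)))))))
 (.s 0x3a7dfe013aff00aa22888 4094 (n false (n false (z 121) (z 123)) (n false (n false (n false (n false e e) (n false e e)) (n false (n false e e) (n false e e))) (n false e e))) (u 6 31 (k r (k (u 4 1 (k v (k (c 12 4099 r (u 8 1 (k v (k v r)))) (k (c 8 4097 r (u 12 1 (k v (k v r)))) (k (c 8 4095 r (u 12 23 (k v (k v r)))) (k (c 8 4095 r (u 12 23 (k v (k v r)))) r)))))) (k r r))))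
 .z .z) (.s 0x3a7f56013bae00aa22888 4094 (n false (n false (z 71) (z 37)) (n false (n false (n false (n false e e) (n false e e)) (n false (n false e e) (n false e e))) (n false e e))) (u 6 1 (k r (k (u 4 1 (k v (k (c 12 4099 r (u 8 1 (k v (k v r)))) (k (u 8 23 (k v (k v r))) (k (c 8 4099 r (u 12 1 (k v (k v r)))) (k (c 8 4099 r (u 12 1 (k v (k v r)))) (k (c 8 4099 r (u 12 1 (k v (k v r)))) r))))))) r)))
 .z .z)) (.s 0x3a957d004aaa8012abf00 4094 (n false (z 112) (n false (n false (z 24) (z 0)) e)) (t 13 1 (u 9 0 (k (t 17 3 (t 25 1 (u 2 1 (k (c 6 4099 r (u 4 1 (k v (k (t 12 2 (u 8 91 (k v (k v (k v (k (c 2 4085 (t 12 1 (u 8 0 (k r r))) v) (k (u 16 2 (k v (k v r))) (k (c 2 4085 r v) (k (c 2 4085 r v) r))))))))) (k (c 2 4076 (u 4 0 (k r r)) v) r))))) (k (u 4 6 (k v (k (t 12 1 r) (k (t 8 2 r) (k (t 8 1 r) r))))) r))))) r)))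
 (.s 0x3a7f76013bbb00e7d5600 4096 (n false (n false (z 85) (z 87)) (n true (z 67) e)) (u 4 18 (k (u 6 0 (k r (k r r))) (k (t 6 1 r) (k (u 6 0 (k r (k (c 8 4094 v (u 5 0 (k v (k v r)))) r))) (k r (k (c 12 4097 r r) r))))))
 .z .z) .z))))

set_option maxRecDepth 100000 in
def N193 : NT :=
(.s 0x3aa88a222b843b9dd7000 4086 (n false (n true (n false (n true (z 37) e) e) e) (n false (n false (n false (n true (n false e e) e) (n false e e)) e) (n false (n false (n false (n false e e) (n false e e)) (n false (n false e e) (n false e e))) (n false e e)))) (u 16 60 (k v (k v (k v (k (c 9 4092 v r) (k (c 9 4092 v (c 11 4101 v r)) r))))))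
 (.s 0x3aa777601c11754451108 4080 (n false (n false (n false (n false (z 85) (n true (n false e e) e)) e) (n false e e)) (n false (n true (n false (n false (n false (n false e e) (n false e e)) (n false (n false e e) (n false e e))) (n false e e)) e) (n false e e))) (u 16 41 (k v (k v (k (c 4 4081 r v) (k (c 48 4096 r (u 32 9 (k v (k v r)))) (k (c 32 4099 r (c 9 4099 v r)) r))))))
 (.s 0x3a9fdf004eea802777600 4091 (n false (n false (n false (z 55) (z 5)) (z 85)) e) (t 12 1 (u 8 2 (k (u 6 4 (k v (k (c 14 4099 r r) (k (c 14 4099 r r) (k (c 14 4099 r (c 8 4090 v r)) (k (c 12 4099 v (c 8 4090 v r)) (k (c 14 4096 r r) (k (c 10 4099 r r) r)))))))) (k (t 24 2 (c 12 4099 v (u 16 5 (k r (k (u 6 49 (k v (k v (k (c 14 4099 r r) (k (c 14 4099 r r) (k (c 32 4099 v (c 6 4097 r v)) (k (c 14 4096 r r) r))))))) (k (c 4 4082 (u 8 1 (k v (k v r))) (c 6 4099 r v)) r)))))) r))))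
 (.s 0x3a9dd5004aef8027dfe00 4090 (n false (n false (z 123) (n false (z 52) (z 5))) e) (t 14 1 (c 14 4099 v (u 4 4 (k r (k (c 12 4099 r (u 8 2 (k r (k r (k (u 10 312 (k v (k v (k v (k v (k v (k v (k v r)))))))) (k (t 24 2 r) r)))))) (k (c 10 4097 r r) (k (c 10 4097 r r) (k (c 8 4096 r (u 12 1 (k r (k r r)))) (k (c 12 4097 r (c 10 4097 r r)) r)))))))))
 (.s 0x3a957d004aaa8013fbf00 4094 (n false (z 119) (n false (n false (z 24) (z 0)) e)) (t 13 1 (u 9 0 (k (t 17 3 (t 25 1 (u 2 20 (k v (k r (k (t 4 1 r) (k r (k (u 6 2 (k r (k (c 14 4097 r (u 10 0 (k r (k r r)))) r))) (k (c 3 4101 v (t 6 2 (u 4 0 (k r r)))) (k r (k (t 6 1 (u 4 8 (k v (k v (k v (k (c 12 4099 r (u 8 1 (k v (k v r)))) r)))))) (k r (k r (k (t 6 1 (u 4 27 (k v (k v (k v (k (c 12 4099 r (u 8 1 (k v (k v r)))) r)))))) (k r r))))))))))))))) r)))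
 .z .z) (.s 0x3a9f57003a88875445110 4082 (n false (n false (n true (n false (n false (n false e e) (n false e e)) (n false e e)) e) (n false (z 35) e)) (n true (n false (n false (n false (n false e e) (n false e e)) (n false (n false e e) (n false e e))) (n false e e)) e)) (u 10 26 (k v (k v (k v (k (t 26 1 (u 18 0 (k (t 34 3 (t 50 1 v)) r))) r)))))
 .z .z)) (.s 0x3aa75fe01c1d511444288 4076 (n false (n false (n false (n false (z 121) (n true (n false e e) e)) e) (n true (n false (n false (n false (n false e e) (n false e e)) (n false (n false e e) (n false e e))) (n false e e)) e)) (n false (n false e e) (n false e e))) (u 16 1 (k v (k (c 48 4099 r (u 32 1 (k v (k v r)))) (k (c 32 4097 r (c 4 4083 r v)) (k (c 32 4095 r (c 4 4080 r v)) (k (c 32 4095 r (c 4 4080 r v)) r))))))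
 (.s 0x3aa57f500154451111d10 4081 (n false (n false (n false (n false (z 156) e) (n false (n false (n false (n false e e) (n false e e)) (n false (n false e e) (n false e e))) (n false e e))) (n false e e)) (n true (n false (n false e e) (n false e e)) e)) (c 12 4099 v (u 16 2 (k v (k (c 48 4099 r (u 32 1 (k v (k v r)))) (k (c 32 4095 r (c 4 4076 r v)) r)))))
 .z .z) .z)) (.s 0x3aa88a2227dd6013fea00 4096 (n false (n false (z 75) (n false (n false (n false (n false e e) (n false e e)) (n false (n false e e) (n false e e))) (n false e e))) (z 15)) (u 3 1 (k (u 4 13 (k v (k (t 12 3 (u 8 39 (k v (k v (k v (k (c 3 4097 v (c 10 4101 v (c 12 4110 v r))) (k (c 3 4097 v (c 12 4110 v (c 10 4101 v r))) (k (c 3 4097 v (c 12 4110 v (c 10 4101 v r))) r)))))))) (k (c 6 4099 v (c 5 4110 v (c 2 4076 (u 4 0 (k r r)) v))) r)))) (k (c 6 4099 v r) r)))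
 (.s 0x3aa88a22275fe01df7080 4082 (n false (n false (z 121) (n false (n false (n false (n false e e) (n false e e)) (n false (n false e e) (n false e e))) (n false e e))) (n true (n false (n true (n true (n false (n true (n false e e) e) (n false e e)) e) e) e) e)) (u 4 9 (k v (k v (k v (k (c 12 4099 r (u 8 1 (k v (k v r)))) r)))))
 (.s 0x3aa88a22257f5003be880 4080 (n false (n false (z 156) (n false (n false (n false (n false e e) (n false e e)) (n false (n false e e) (n false e e))) (n false e e))) (n true (n false (n true (n true (n false (n false e e) (n false e e)) e) e) e) e)) (u 4 21 (k v (k v (k (c 12 4099 r (u 8 1 (k v (k v r)))) (k (c 8 4095 r (u 12 0 (k v (k v r)))) r)))))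
 .z .z) (.s 0x3aa88a222777601df7080 4083 (n false (n false (z 85) (n false (n false (n false (n false e e) (n false e e)) (n false (n false e e) (n false e e))) (n false e e))) (n true (n false (n true (n true (n false (n true (n false e e) e) (n false e e)) e) e) e) e)) (u 4 77 (k v (k v (k (c 12 4099 r r) (k (c 12 4099 r (c 17 4091 v r)) (k (c 12 4099 r (u 8 4 (k v (k v (k v (k (t 24 1 (u 16 26 (k v (k v (k v r))))) r)))))) (k (c 3 4088 v (c 10 4101 v r)) r)))))))
 .z .z)) (.s 0x3aa88a222b843b9d7f800 4086 (n false (n true (n false (n true (z 121) e) e) e) (n false (n false (n false (n true (n false e e) e) (n false e e)) e) (n false (n false (n false (n false e e) (n false e e)) (n false (n false e e) (n false e e))) (n false e e)))) (u 16 4 (k v (k v (k (c 48 4099 r (u 32 1 (k v (k v r)))) (k (c 32 4097 r (u 48 1 (k v (k v r)))) r)))))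
 (.s 0x3aa88a222a2288e55fc00 4094 (n false (n true (z 56) e) (n false (n false (n false (n false (n false e e) (n false e e)) (n false (n false e e) (n false e e))) (n false e e)) (n false (n false (n false e e) (n false e e)) (n false (n false e e) (n false e e))))) (c 5 4099 v (u 4 1 (k (u 8 1 (k v (k v r))) (k (u 8 200 (k v (k v (k v (k v (k v (k v r))))))) (k (c 8 4096 r (u 12 0 (k v (k v r)))) (k (c 12 4096 r r) r))))))
 .z .z) .z))) (.s 0x3aa88a223ba210e7d5600 4087 (n false (n false (n true (n false (n true (n false (n false e e) (n false e e)) e) (n false e e)) e) (n false (n false (n false (n false e e) (n false e e)) (n false (n false e e) (n false e e))) (n false e e))) (n true (z 67) e)) (u 5 137 (k v (k v (k v (k v (k (t 13 1 (u 9 1 (k v (k v r)))) (k r (k r (k (c 3 4088 r v) (k (c 9 4099 r (c 10 4101 v (c 8 4090 v (u 13 0 (k v (k v r)))))) (k (t 13 1 (c 10 4101 v (c 8 4090 v r))) (k (t 13 2 (c 3 4080 (u 4 0 (k r r)) v)) (k (c 8 4090 v r) (k r (k (c 8 4090 v (c 10 4101 v (u 13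 0 (k r r)))) (k (c 8 4090 v (c 10 4101 v r)) (k r (k (c 8 4090 v (c 10 4101 v r)) r))))))))))))))))))
 (.s 0x3aa88a223b843b97f7000 4080 (n false (n true (n false (n true (z 46) e) e) e) (n false (n true (n false (n true (n false e e) e) (n false e e)) e) (n false (n false (n false (n false e e) (n false e e)) (n false (n false e e) (n false e e))) (n false e e)))) (u 16 1 (k v (k (u 32 1 (k v (k v r))) (k (c 48 4099 r (u 32 0 (k v (k v r)))) (k (u 32 1 (k v (k v r))) (k (c 48 4097 r (u 32 1 (k v (k v r)))) (k (c 32 4095 r (u 48 1 (k v (k v r)))) r)))))))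
 (.s 0x3aa88a223b843a5ddc010 4080 (n false (n true (n false (z 42) (n false e e)) e) (n false (n true (n false (n true (n false e e) e) (n false e e)) e) (n false (n false (n false (n false e e) (n false e e)) (n false (n false e e) (n false e e))) (n false e e)))) (u 8 81 (k v (k v (k (u 16 58 (k v (k v (k v (k (c 5 4091 v r) r))))) (k (t 24 1 (u 16 0 (k (u 32 2 (k v (k (c 16 4084 (u 4 1 (k v (k v r))) v) r))) r))) (k (c 5 4091 v r) (k (c 5 4091 v r) r)))))))
 (.s 0x3aa88a223aa220e7d5600 4087 (n false (n false (n true (n false (n false (n false (n false e e) (n false e e)) (n false e e)) e) e) (n false (n false (n false (n false e e) (n false e e)) (n false (n false e e) (n false e e))) (n false e e))) (n true (z 67) e)) (u 5 134 (k v (k v (k v (k v (k (t 13 1 (u 9 1 (k v (k v r)))) (k r (k r (k (c 3 4088 r v) (k (c 9 4099 r (c 10 4101 v (c 8 4090 v (u 13 0 (k v (k v r)))))) (k (t 13 1 (c 10 4101 v (c 8 4090 v r))) (k (c 3 4091 (t 6 2 (u 4 0 (k r r))) v) (k (c 8 4090 v r) (k (t 13 1 (u 9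 4 (k v (k v (k (c 25 4099 r (u 17 1 (k v (k v r)))) (k (c 17 4097 r r) r)))))) (k (c 8 4090 v (c 10 4101 v (u 13 0 (k r r)))) (k (c 8 4090 v (c 10 4101 v r)) (k r (k (c 8 4090 v (c 10 4101 v r)) r))))))))))))))))))
 .z .z) (.s 0x3aa88a223b843b9777000 4080 (n false (n true (n false (n true (z 42) e) e) e) (n false (n true (n false (n true (n false e e) e) (n false e e)) e) (n false (n false (n false (n false e e) (n false e e)) (n false (n false e e) (n false e e))) (n false e e)))) (u 16 80 (k v (k v (k v (k (u 32 59 (k v (k v (k (c 2 4073 r v) (k (c 2 4079 (u 32 5 (k v (k v r))) v) r))))) (k (c 2 4085 (c 4 4087 r v) v) (k (c 2 4073 r v) (k (c 2 4073 r v) r))))))))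
 .z .z)) (.s 0x3aa88a223b843b9dd7000 4084 (n false (n true (n false (n true (z 37) e) e) e) (n false (n true (n false (n true (n false e e) e) (n false e e)) e) (n false (n false (n false (n false e e) (n false e e)) (n false (n false e e) (n false e e))) (n false e e)))) (u 16 0 (k v (k (c 7 4099 v (u 32 0 (k (t 64 3 (t 96 1 v)) r))) (k (u 32 0 (k (t 64 3 (t 96 1 v)) r)) (k (c 7 4099 v (u 32 25 (k v (k v (k v (k v (k (t 96 1 (u 64 0 (k (t 128 3 (t 192 1 v)) r))) r))))))) (k (u 32 0 (k v (k v (k (t 96 1 (u 64 0 (k (t 128 3 (t 192 1 v)) r))) r)))) (k (c 16 4095 r v) r)))))))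
 (.s 0x3aa88a223b843b9d7f800 4082 (n false (n true (n false (n true (z 121) e) e) e) (n false (n true (n false (n true (n false e e) e) (n false e e)) e) (n false (n false (n false (n false e e) (n false e e)) (n false (n false e e) (n false e e))) (n false e e)))) (u 16 1 (k v (k (c 48 4099 r (u 32 1 (k v (k v r)))) (k (c 32 4097 r (u 48 1 (k v (k v r)))) (k (c 32 4095 r (u 48 0 (k v (k v r)))) (k (c 32 4095 r (u 48 0 (k v (k v r)))) r))))))
 .z .z) .z)) (.s 0x3aaa75fe012aaa0043850 4066 (n false (n false (n false (n false (n false (n false (z 121) (z 0)) e) (n false e e)) e) (n true (n false e e) e)) (n false (n false e e) e)) (t 96 1 (u 64 1 (k v (k (c 192 4099 r (u 128 1 (k v (k v r)))) (k (c 128 4097 r (u 192 1 (k v (k v r)))) (k (c 128 4095 r (u 192 0 (k v (k v r)))) (k (c 128 4095 r (u 192 0 (k v (k v r)))) r)))))))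
 (.s 0x3aaa22888ba211caef800 4082 (n false (n false (n true (z 52) e) (n false (n false (n true (n false (n false e e) (n false e e)) e) (n false e e)) (n false (n false (n false (n false e e) (n false e e)) (n false (n false e e) (n false e e))) (n false e e)))) e) (u 8 246 (k v (k v (k v (k v (k v (k v (k v (k v (k v (k (t 24 1 (u 16 0 (k (t 48 1 (u 32 2 (k v (k (c 48 4099 v (c 10 4090 v r)) r)))) r))) r)))))))))))
 (.s 0x3aa88a223ea220e7d5600 4087 (n false (n false (n true (n true (n false (n false (n false e e) (n false e e)) (n false e e)) e) e) (n false (n false (n false (n false e e) (n false e e)) (n false (n false e e) (n false e e))) (n false e e))) (n true (z 67) e)) (u 5 134 (k v (k v (k v (k v (k (t 13 1 (u 9 1 (k v (k v r)))) (k r (k r (k (c 3 4088 r v) (k (c 9 4099 r (c 10 4101 v (c 8 4090 v (u 13 0 (k v (k v r)))))) (k (t 13 1 (c 10 4101 v (c 8 4090 v r))) (k (c 3 4091 (t 6 2 (u 4 0 (k r r))) v) (k (c 8 4090 v r) (k (t 13 1 (u 9 4 (k v (k v (k (c 25 4099 r (u 17 1 (k v (k v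 r)))) (k (c 17 4097 r r) r)))))) (k (c 8 4090 v (c 10 4101 v (u 13 0 (k r r)))) (k (c 8 4090 v (c 10 4101 v r)) (k r (k (c 8 4090 v (c 10 4101 v r)) r))))))))))))))))))
 .z .z) (.s 0x3aaa22888ba211cfef800 4082 (n false (n false (n true (z 55) e) (n false (n false (n true (n false (n false e e) (n false e e)) e) (n false e e)) (n false (n false (n false (n false e e) (n false e e)) (n false (n false e e) (n false e e))) (n false e e)))) e) (u 8 4 (k (t 24 1 (u 16 14 (k v (k (c 48 4099 r (t 32 3 v)) (k (c 14 4099 v (u 32 4 (k v (k (t 96 1 (u 64 4 (k v (k v r)))) r)))) (k (u 32 4 (k v (k (t 96 1 (u 64 4 (k v (k v r)))) r))) (k (c 10 4090 v r) (k (c 10 4090 v r) r)))))))) (k (t 24 2 (c 14 4099 v (u 16 9 (k v (k v (k (u 32 1 (k v (k v r))) r)))))) r)))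
 .z .z)) (.s 0x3aaa7dfe012aaa0043850 4066 (n false (n false (n false (n false (n false (n false (z 123) (z 0)) e) (n false e e)) e) (n true (n false e e) e)) (n false (n false e e) e)) (t 96 1 (u 64 4 (k v (k (c 192 4099 r (u 128 2 (k v (k v (k v (k (t 384 2 (u 256 6 (k v (k v (k (t 768 1 (u 512 0 (k v (k v r)))) r))))) r)))))) (k r (k (u 128 11 (k v (k v (k (c 384 4101 r r) (k (c 384 4099 r r) (k (c 384 4096 r (u 256 0 (k (u 512 0 (k v (k v r))) r))) (k (c 256 4098 r r) (k (c 256 4101 r r) (k (c 256 4099 r r) (k (c 256 4101 r r) r)))))))))) (k (c 128 4096 r (u 192 1 (k v (k v r)))) (k (c 192 4097 r r) r))))))))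
 (.s 0x3aaa7dd4012baf0043850 4068 (n false (n false (n false (n false (n false (n false (z 100) (z 11)) e) (n false e e)) e) (n true (n false e e) e)) (n false (n false e e) e)) (t 96 2 (u 64 0 (k (c 192 4096 r r) (k (c 192 4096 r r) (k (c 192 4096 r r) (k (c 192 4097 r (u 128 7 (k v (k v (k v (k (c 384 4099 r (u 256 1 (k v (k v r)))) r)))))) (k (c 192 4096 r r) (k (c 192 4096 r r) r))))))))
 .z .z) .z))))

end Pool.Agent.Helper91.ND1
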