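import Pool.Agent.Helper66.ND.Defs

/-! part of the certificate for the constant 25/48 (generated) -/

namespace Pool.Agent.Helper91.ND1

open Pool.Agent.Helper66.IL
open Pool.Agent.Helper66.ND
open Pool.Agent.Helper66.ND.LT
open Pool.Agent.Helper66.ND.Ct

set_option maxRecDepth 100000 in
def N194 : NT :=
(.s 0x3aea9d7f804aaa8010e80 4070 (n false (n false (n false (n true (n false (n false (n false (z 121) (z 0)) e) (n false e e)) e) (n true (n false (n false e e) e) e)) e) e) (t 192 1 (u 128 1 (k v (k (c 384 4099 r (u 256 1 (k v (k v r)))) (k (c 256 4097 r (u 384 1 (k v (k v r)))) (k (c 256 4095 r (u 384 0 (k v (k v r)))) (k (c 256 4095 r (u 384 0 (k v (k v r)))) r)))))))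
 (.s 0x3aea88a2212bbe00e1d10 4081 (n false (n false (n false (z 52) (n true (n false (n false (n false (n false e e) (n false e e)) (n false (n false e e) (n false e e))) (n false e e)) e)) (n true (n false e e) e)) (n true (n false (n false e e) (n false e e)) e)) (c 20 4099 v (c 6 4094 v r))
 (.s 0x3ae97770042a88a222288 4085 (n false (n false (n false (n true (n false (z 42) (n false e e)) e) (n false (n false (n false (n false e e) (n false e e)) (n false (n false e e) (n false e e))) (n false e e))) (n false e e)) (n false (n false e e) (n false e e))) (u 32 11 (k v (k v (k (c 16 4086 (t 6 1 (u 4 0 (k r r))) v) r))))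
 (.s 0x3abaa22888451113eab00 4094 (n false (z 67) (n false (n false (n false (n true (n false (n false (n false (n false e e) (n false e e)) (n false (n false e e) (n false e e))) (n false e e)) e) (n false e e)) (n false (n false e e) (n false e e))) (n false e e))) (u 2 12 (k v (k v (k (t 6 2 r) (k (t 6 1 r) (k (t 6 2 (c 9 4108 v r)) (k (c 3 4096 v r) (k (t 6 1 (c 9 4108 v r)) (k (t 6 2 (c 9 4108 v r)) (k (t 4 2 r) (k (t 6 2 (c 3 4096 v (u 4 0 (k r r)))) (k (t 4 1 r) (k (t 6 2 r) (k (c 3 4096 v (t 4 1 (u 6 0 (k r r)))) (k (t 4 2 (c 3 4096 v r)) (k (t 6 2 r) (k (t 6 1 r) (k (t 6 2 r) (k (t 6 2 r) (k (t 6 1 r) r))))))))))))))))))))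
 (.s 0x3abaa22888451112aff00 4094 (n false (z 120) (n false (n false (n false (n true (n false (n false (n false (n false e e) (n false e e)) (n false (n false e e) (n false e e))) (n false e e)) e) (n false e e)) (n false (n false e e) (n false e e))) (n false e e))) (u 2 5 (k v (k (t 6 2 (c 33 4099 v r)) (k (c 6 4100 r (u 4 1 (k v (k (c 12 4097 r (u 8 0 (k v (k v r)))) r)))) (k (t 6 2 (c 9 4108 v r)) (k (t 4 1 (c 3 4096 v r)) (k (t 4 1 r) (k (t 6 1 (c 33 4099 v r)) (k (c 3 4096 v (t 6 1 r)) (k (c 3 4096 v (t 6 1 (u 4 0 (k r r)))) (k (t 6 1 (c 3 4096 v (u 4 0 (k r r)))) (k (c 3 4096 v (t 6 1 r)) (k (t 4 1 (c 9 4108 v r)) (k (t 6 1 (c 9 4108 v r)) (k (t 6 1 r) (k (t 6 2 (c 9 4108 v r)) (k (t 4 1 (c 33 4099 v r)) (k (t 6 1 r) r))))))))))))))))))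
 .z .z) (.s 0x3abe57f50008ea88a2210 4087 (n false (n false (n false (n false (n true (n true (z 156) e) e) (n false e e)) (n true (n false (n false (n false (n false e e) (n false e e)) (n false (n false e e) (n false e e))) (n false e e)) e)) (n false e e)) e) (u 64 1 (k v (k (c 192 4099 r (u 128 1 (k v (k v r)))) (k (c 128 4098 r (u 192 1 (k v (k v r)))) (k (c 128 4097 r (u 192 1 (k v (k v r)))) (k (c 128 4099 r (u 192 1 (k v (k v r)))) (k (c 128 4095 r (u 192 0 (k v (k v r)))) r)))))))
 .z .z)) (.s 0x3aea88a2211c2977d0070 4080 (n false (n false (z 26) (n true (n false e e) e)) (n false (n false (n true (n false (n false (n false (n false e e) (n false e e)) (n false (n false e e) (n false e e))) (n false e e)) e) (n false e e)) (n true (n false e e) e))) (c 17 4099 v (c 7 4094 v r))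
 (.s 0x3aea88a22114472bfa800 4091 (n false (n true (z 156) e) (n false (n false (n true (n false (n false (n false (n false e e) (n false e e)) (n false (n false e e) (n false e e))) (n false e e)) e) (n false e e)) (n false (n false e e) (n false e e)))) (u 4 2 (k v (k (c 12 4099 r (u 8 1 (k v (k v r)))) (k (c 8 4095 r (u 12 0 (k v (k v r)))) r))))
 .z .z) .z)) (.s 0x3aea88a221c3874abfc00 4084 (n false (n true (n false (z 120) e) e) (n false (n false (n true (n false (n false (n false (n false e e) (n false e e)) (n false (n false e e) (n false e e))) (n false e e)) e) (n true (n false e e) e)) (n true (n false e e) e))) (u 8 38 (k v (k v (k (t 24 2 r) (k (c 24 4099 r r) (k (t 16 1 (c 17 4099 v (c 16 4094 v (c 7 4094 v r)))) (k (t 24 1 r) (k (c 24 4096 r (c 2 4087 r v)) (k (c 24 4096 r (c 17 4099 v (c 7 4094 v (u 16 0 (k (u 32 0 (k v (k v r))) r))))) (k (c 16 4099 r (c 17 4099 v (c 7 4094 v r))) (k (c 24 4100 r r) (k (c 24 4097 r (c 17 4099 v (c 7 4094 v r))) (k (c 24 4099 r (c 17 4099 v (c 7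 4094 v r))) (k (t 16 1 r) (k (c 24 4097 r (c 17 4099 v (c 7 4094 v r))) r)))))))))))))))
 (.s 0x3aea88a22151113bae008 4085 (n false (n false (n false (n false (n false (n false e e) (n false e e)) (n false e e)) (n true (n false (n false (n false (n false e e) (n false e e)) (n false (n false e e) (n false e e))) (n false e e)) e)) (z 37)) (n false e e)) (u 6 0 (k v (k (c 8 4091 v (u 10 0 (k (t 18 3 (t 26 1 v)) r))) (k (c 8 4091 v (u 10 0 (k (t 18 3 (t 26 1 v)) r))) (k (u 10 2 (k v (k v (k v (k (t 26 1 (u 18 0 (k (t 34 3 (t 50 1 v)) r))) r))))) (k (u 10 0 (k v (k v (k (t 26 1 (u 18 0 (k (t 34 3 (t 50 1 v)) r))) r)))) (k (c 4 4092 v (c 2 4088 r v)) r)))))))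
 (.s 0x3aea88a2213fbb00e1708 4080 (n false (n false (n false (z 87) (n true (n false (n false (n false (n false e e) (n false e e)) (n false (n false e e) (n false e e))) (n false e e)) e)) (n true (n false e e) e)) (n false (n true (n false e e) e) (n false e e))) (c 12 4110 v (u 8 1 (k v (k v r))))
 .z .z) (.s 0x3aea88a221708e13eff00 4082 (n false (z 123) (n false (n false (n false (n true (n false e e) e) (n false e e)) (n true (n false (n false (n false (n false e e) (n false e e)) (n false (n false e e) (n false e e))) (n false e e)) e)) (n true (n false e e) e))) (u 2 48 (k v (k v (k v (k (t 6 1 (c 17 4094 v r)) (k (c 17 4094 v r) r))))))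
 .z .z)) (.s 0x3aea88a221c387cbaf800 4085 (n false (n true (n true (z 50) e) e) (n false (n false (n true (n false (n false (n false (n false e e) (n false e e)) (n false (n false e e) (n false e e))) (n false e e)) e) (n true (n false e e) e)) (n true (n false e e) e))) (c 17 4099 v (c 7 4094 v (u 8 1 (k v (k (c 24 4097 r (u 16 0 (k v (k v r)))) r)))))
 (.s 0x3aea88a221c3874fefc00 4081 (n false (n false (n false (n true (n false (n false (n false (n false e e) (n false e e)) (n false (n false e e) (n false e e))) (n false e e)) e) (n true (n false e e) e)) (n true (n false e e) e)) (n true (n false (z 119) e) e)) (c 16 4099 v (c 6 4094 v r))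
 .z .z) .z))) (.s 0x3b9d7f802a88a223eb840 4087 (n false (n true (n true (n false (n false (n true (n false e e) e) (n false e e)) e) e) e) (n false (n true (z 121) e) (n false (n false (n false (n false e e) (n false e e)) (n false (n false e e) (n false e e))) (n false e e)))) (u 9 2 (k v (k v (k (c 25 4099 r (u 17 1 (k v (k v r)))) (k (c 17 4095 r (u 25 0 (k v (k v r)))) (k (c 17 4095 r (u 25 0 (k v (k v r)))) r))))))
 (.s 0x3b9777002a88a223fb840 4090 (n false (n false (n true (z 42) e) (n false (n false (n false (n false e e) (n false e e)) (n false (n false e e) (n false e e))) (n false e e))) (n true (n true (n true (n false (n true (n false e e) e) (n false e e)) e) e) e)) (c 4 4099 (u 2 0 (k v (k v r))) v)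
 (.s 0x3aea9f75004fabc010e80 4072 (n false (n false (n false (n true (n false (n false (n false (z 11) (z 99)) e) (n false e e)) e) (n true (n false (n false e e) e) e)) e) e) (t 128 2 (u 192 0 (k (c 320 4101 r (u 448 0 (k (t 704 3 (t 960 1 v)) r))) (k (c 448 4096 r r) (k (c 448 4096 r r) (k (c 448 4096 r r) (k (c 448 4096 r r) r)))))))
 (.s 0x3aea9f75004aebc010e80 4072 (n false (n false (n false (n true (n false (n false (n false (z 11) (z 100)) e) (n false e e)) e) (n true (n false (n false e e) e) e)) e) e) (t 128 2 (u 192 0 (k (c 320 4101 r r) (k (c 448 4096 r r) (k (c 448 4096 r r) (k (c 448 4097 r (u 320 7 (k v (k v (k v (k (c 832 4099 r (u 576 1 (k v (k v r)))) r)))))) (k (c 448 4096 r r) (k (c 448 4096 r r) r))))))))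
 .z .z) (.s 0x3b97770027f7601fd4440 4090 (n false (n false (z 87) (n true (z 42) e)) (n true (n true (n true (n false (n false (n false e e) (n false e e)) (n false e e)) e) e) e)) (u 10 1 (k (u 4 17 (k v (k v r))) (k (u 4 0 (k v (k v r))) r)))
 .z .z)) (.s 0x3b97f7002a88a223fb840 4085 (n false (n true (n true (n true (n false (n true (n false e e) e) (n false e e)) e) e) e) (n false (n true (z 46) e) (n false (n false (n false (n false e e) (n false e e)) (n false (n false e e) (n false e e))) (n false e e)))) (u 9 6 (k v (k v (k (u 17 1 (k v (k v r))) (k (c 25 4099 r (u 17 0 (k v (k v r)))) (k (u 17 1 (k v (k v r))) (k (c 25 4097 r (u 17 1 (k v (k v r)))) r)))))))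
 (.s 0x3b97f7002a88a223eb840 4087 (n false (n true (n true (n false (n false (n true (n false e e) e) (n false e e)) e) e) e) (n false (n true (z 46) e) (n false (n false (n false (n false e e) (n false e e)) (n false (n false e e) (n false e e))) (n false e e)))) (c 7 4099 v (u 9 1 (k v (k (u 17 1 (k v (k v r))) (k (c 25 4099 r (u 17 0 (k v (k v r)))) (k (u 17 1 (k v (k v r))) (k (c 25 4097 r (u 17 1 (k v (k v r)))) (k (c 17 4095 r (u 25 1 (k v (k v r)))) r))))))))
 .z .z) .z)) (.s 0x3b9fdd8029f57002a2288 4085 (n false (n false (n false (z 35) e) (n true (z 87) e)) (n false (n false (n false e e) (n false e e)) (n false (n false e e) (n false e e)))) (u 8 4 (k (u 10 1 (k v (k v r))) (k (u 10 1 (k v (k v r))) (k (c 10 4099 r v) (k (u 10 1 (k v (k v r))) r)))))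
 (.s 0x3b9fdd80257f5002a2288 4086 (n false (n false (n true (z 87) e) (z 156)) (n false (n false (n false e e) (n false e e)) (n false (n false e e) (n false e e)))) (u 6 1 (k (u 8 1 (k v (k v r))) (k (c 14 4099 r r) (k (c 10 4098 r r) (k (c 10 4097 r r) (k (c 10 4099 r r) (k (c 10 4095 r (u 14 0 (k (u 8 1 (k v (k v r))) (k (u 8 1 (k v (k v r))) r)))) r)))))))
 (.s 0x3b9d7f802a88a223fb840 4085 (n false (n true (n true (n true (n false (n true (n false e e) e) (n false e e)) e) e) e) (n false (n true (z 121) e) (n false (n false (n false (n false e e) (n false e e)) (n false (n false e e) (n false e e))) (n false e e)))) (u 9 1 (k v (k (c 25 4099 r (u 17 1 (k v (k v r)))) (k (c 17 4097 r (u 25 1 (k v (k v r)))) (k (c 17 4095 r (u 25 0 (k v (k v r)))) (k (c 17 4095 r (u 25 0 (k v (k v r)))) r))))))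
 .z .z) (.s 0x3b9fdd8027f7601fd4440 4088 (n false (n false (n true (z 87) e) (z 87)) (n true (n true (n true (n false (n false (n false e e) (n false e e)) (n false e e)) e) e) e)) (u 8 1 (k (u 6 17 (k v (k v r))) (k (u 6 0 (k v (k v r))) r)))
 .z .z)) (.s 0x3b9fdd8039777002a2288 4084 (n false (n false (n true (z 87) e) (n true (z 42) e)) (n false (n false (n false e e) (n false e e)) (n false (n false e e) (n false e e)))) (u 10 1 (k (u 8 1 (k v (k v r))) (k (u 8 1 (k v (k v r))) r)))
 (.s 0x3b9fdd80395df002a2288 4087 (n false (n false (n true (z 87) e) (n true (z 52) e)) (n false (n false (n false e e) (n false e e)) (n false (n false e e) (n false e e)))) (u 8 1 (k r (k (u 10 159 (k v (k v (k v r)))) r)))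
 .z .z) .z))))

set_option maxRecDepth 100000 in
def N195 : NT :=
(.s 0x3baa2288870ae7d5600e0 4073 (n false (n false (n false (n true (z 67) e) (n true (n false e e) e)) e) (n false (n true (n false (n false (n false (n false e e) (n false e e)) (n false (n false e e) (n false e e))) (n false e e)) e) (n true (n false e e) e))) (u 16 140 (k v (k v (k (t 48 2 r) (k (c 32 4096 r r) (k (c 32 4096 r r) (k (t 48 1 r) (k (t 48 2 (c 2 4067 r v)) (k (c 2 4072 r v) (k (t 48 1 (c 2 4067 r v)) (k (t 48 2 (c 2 4065 r v)) (k (c 8 4091 (t 6 2 (u 4 0 (k r r))) v) (k (t 32 1 r) (k (t 48 2 (c 2 4069 r v)) (k (c 8 4091 (t 4 1 (u 6 0 (k r r))) v) (k (t 48 2 (c 8 4086 r v)) (k (t 48 1 (c 2 4069 r v)) (k (t 48 2 (c 2 4069 r v)) (k (t 48 1 (c 2 4069 r v)) r)))))))))))))))))))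
 (.s 0x3baa228884bfb802a2288 4085 (n false (n false (z 46) (n true (n false (n false (n false (n false e e) (n false e e)) (n false (n false e e) (n false e e))) (n false e e)) e)) (n false (n false (n false e e) (n false e e)) (n false (n false e e) (n false e e)))) (u 4 0 (k v (k (u 8 1 (k v (k v r))) (k (u 8 1 (k v (k v r))) (k (c 12 4099 r (u 8 0 (k v (k v r)))) (k (c 12 4097 r (u 8 1 (k v (k v r)))) (k (c 8 4095 r (u 12 1 (k v (k v r)))) r)))))))
 (.s 0x3ba7f7c013baa0047dc20 4065 (n false (n false (n true (n false (z 55) (z 5)) e) (n false e e)) (n true (n true (n false (n true (n false e e) e) (n false e e)) e) e)) (t 24 1 (u 16 4 (k (t 48 1 (u 32 33 (k v (k v (k v (k (c 24 4099 v (u 64 6 (k v (k v r)))) (k (u 64 4 (k v (k (t 192 1 (u 128 4 (k v (k v r)))) r))) (k r r)))))))) (k (t 48 2 (c 24 4099 v r)) r))))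
 (.s 0x3b9fdd8039fdd802ee108 4076 (n false (n false (n true (z 87) e) (n true (z 87) e)) (n false (n true (n false (n true (n false e e) e) (n false e e)) e) (n false e e))) (c 9 4092 v (u 8 1 (k (u 10 1 (k v (k v r))) (k (u 10 1 (k v (k v r))) r))))
 (.s 0x3b9fdd8039fdd802a2288 4083 (n false (n false (n true (z 87) e) (n true (z 87) e)) (n false (n false (n false e e) (n false e e)) (n false (n false e e) (n false e e)))) (u 8 1 (k (u 10 1 (k v (k v r))) (k (u 10 1 (k v (k v r))) r)))
 .z .z) (.s 0x3ba577c010ea88a221708 4073 (n false (n false (n true (n false (z 52) (n false e e)) e) (n true (n false (n false (n false (n false e e) (n false e e)) (n false (n false e e) (n false e e))) (n false e e)) e)) (n false (n true (n false e e) e) (n false e e))) (u 16 29 (k v (k v (k v (k (t 48 1 (u 32 0 (k v (k v r)))) r)))))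
 .z .z)) (.s 0x3baa228884affc02a2288 4084 (n false (n false (z 124) (n true (n false (n false (n false (n false e e) (n false e e)) (n false (n false e e) (n false e e))) (n false e e)) e)) (n false (n false (n false e e) (n false e e)) (n false (n false e e) (n false e e)))) (u 4 1 (k v (k (c 12 4097 r (u 8 1 (k v (k v r)))) (k (c 12 4096 r (u 8 1 (k v (k v r)))) (k (c 8 4098 r (u 12 0 (k v (k v r)))) (k (c 12 4096 r (u 8 1 (k v (k v r)))) (k (c 12 4097 r (u 8 1 (k v (k v r)))) (k (c 12 4097 r (u 8 1 (k v (k v r)))) (k (c 12 4096 r (u 8 1 (k v (k v r)))) (k (c 12 4099 r (u 8 1 (k v (k v r)))) (k (c 8 4097 r (u 12 1 (k v (k v r)))) r)))))))))))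
 (.s 0x3baa228884abfc02ee108 4081 (n false (n false (z 120) (n true (n false (n false (n false (n false e e) (n false e e)) (n false (n false e e) (n false e e))) (n false e e)) e)) (n false (n true (n false (n true (n false e e) e) (n false e e)) e) (n false e e))) (u 4 36 (k v (k v (k (c 12 4099 r (u 8 35 (k v (k v (k (c 24 4099 r (u 16 376 (k v (k v (k v (k v (k v (k v (k v r))))))))) r))))) (k (c 12 4096 r r) (k (c 12 4099 r (u 8 1 (k v (k v r)))) (k (c 8 4098 r (u 12 1 (k v (k v r)))) (k (c 8 4101 r (u 12 0 (k v (k v r)))) (k (c 12 4099 r (u 8 10 (k v (k v (k (c 24 4097 r (u 16 1 (k v (k v r)))) (k (c 24 4097 r (u 16 1 (k v (k v r)))) r)))))) (k (c 12 4099 r (u 8 1 (k v (k v r)))) (k (c 8 4101 r (u 12 0 (k v (k v r)))) r)))))))))))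
 .z .z) .z)) (.s 0x3baa228884eeb802a2288 4085 (n false (n false (z 37) (n true (n false (n false (n false (n false e e) (n false e e)) (n false (n false e e) (n false e e))) (n false e e)) e)) (n false (n false (n false e e) (n false e e)) (n false (n false e e) (n false e e)))) (u 4 21 (k v (k r (k (c 10 4099 v (u 8 0 (k (t 16 3 (t 24 1 v)) r))) (k (c 10 4099 v (u 8 0 (k (t 16 3 (t 24 1 v)) r))) (k r (k (c 10 4099 v r) r)))))))
 (.s 0x3baa228884ebfc02a2288 4085 (n false (n false (z 121) (n true (n false (n false (n false (n false e e) (n false e e)) (n false (n false e e) (n false e e))) (n false e e)) e)) (n false (n false (n false e e) (n false e e)) (n false (n false e e) (n false e e)))) (u 4 1 (k v (k (c 12 4099 r (u 8 1 (k v (k v r)))) (k (c 8 4097 r (u 12 1 (k v (k v r)))) (k (c 8 4095 r (u 12 0 (k v (k v r)))) (k (c 8 4095 r (u 12 0 (k v (k v r)))) r))))))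
 (.s 0x3baa228884bfb802ee108 4079 (n false (n false (z 46) (n true (n false (n false (n false (n false e e) (n false e e)) (n false (n false e e) (n false e e))) (n false e e)) e)) (n false (n true (n false (n true (n false e e) e) (n false e e)) e) (n false e e))) (u 4 0 (k v (k (u 8 1 (k v (k v r))) (k (u 8 1 (k v (k v r))) (k (c 12 4099 r (u 8 0 (k v (k v r)))) (k (c 12 4097 r (u 8 1 (k v (k v r)))) (k (c 8 4095 r (u 12 1 (k v (k v r)))) r)))))))
 .z .z) (.s 0x3baa228884ebfc02ee108 4073 (n false (n false (z 121) (n true (n false (n false (n false (n false e e) (n false e e)) (n false (n false e e) (n false e e))) (n false e e)) e)) (n false (n true (n false (n true (n false e e) e) (n false e e)) e) (n false e e))) (u 4 1 (k v (k (c 12 4099 r (u 8 1 (k v (k v r)))) (k (c 8 4097 r (u 12 1 (k v (k v r)))) (k (c 8 4095 r (u 12 0 (k v (k v r)))) (k (c 8 4095 r (u 12 0 (k v (k v r)))) r))))))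
 .z .z)) (.s 0x3baa228885445113eab00 4089 (n false (z 67) (n false (n true (n false (n false (n false (n false e e) (n false e e)) (n false (n false e e) (n false e e))) (n false e e)) e) (n false (n false (n false e e) (n false e e)) (n false (n false e e) (n false e e))))) (u 2 39 (k v (k v (k (t 6 2 r) (k (t 6 2 (u 4 0 (k (t 8 3 (t 12 1 v)) r))) (k (t 6 1 r) (k (t 6 2 r) (k (c 3 4096 v r) (k (t 6 1 r) (k (t 6 2 (u 4 2 (k v (k (c 12 4097 r (u 8 0 (k v (k v r)))) r)))) (k (t 4 2 r) (k (c 3 4096 v (t 6 2 (u 4 0 (k r r)))) (k (t 4 1 r) (k (t 6 2 r) (k (c 3 4096 v (t 4 1 (u 6 0 (k r r)))) (k (t 4 2 (c 3 4096 v r)) (k (t 6 2 r) (k (t 6 1 r) (k (t 6 2 r) (k (t 6 2 r) (k (t 6 1 r) r)))))))))))))))))))))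
 (.s 0x3baa228884eeec02a2288 4089 (n false (n false (z 85) (n true (n false (n false (n false (n false e e) (n false e e)) (n false (n false e e) (n false e e))) (n false e e)) e)) (n false (n false (n false e e) (n false e e)) (n false (n false e e) (n false e e)))) (u 4 25 (k v (k v (k (c 12 4099 r r) (k (c 12 4099 r (u 8 3 (k v (k v r)))) (k (c 12 4099 r (u 8 5 (k v (k v r)))) (k (u 8 12 (k v (k v r))) (k (c 8 4099 r r) r))))))))
 .z .z) .z))) (.s 0x3bbaa75fe012aaa004380 4065 (n false (n false (n true (n false (n true (n false (n false (n false (z 121) (z 0)) e) (n false e e)) e) (n true (n false e e) e)) e) e) e) (t 384 1 (u 256 1 (k v (k (c 768 4099 r (u 512 1 (k v (k v r)))) (k (c 512 4097 r (u 768 1 (k v (k v r)))) (k (c 512 4095 r (u 768 0 (k v (k v r)))) (k (c 512 4095 r (u 768 0 (k v (k v r)))) r)))))))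
 (.s 0x3bab9fdd802108aa22888 4085 (n false (n false (n true (n false (n false (n false (n true (z 87) e) (n false e e)) e) (n false e e)) e) (n false e e)) (n false (n false (n false (n false e e) (n false e e)) (n false (n false e e) (n false e e))) (n false e e))) (u 128 27 (k v (k v (k v (k v r)))))
 (.s 0x3bab95df00210ea88a220 4081 (n false (n false (n true (n false (n false (n false (n true (z 52) e) (n false e e)) e) (n false e e)) e) (n true (n false (n false (n false (n false e e) (n false e e)) (n false (n false e e) (n false e e))) (n false e e)) e)) e) (u 128 16 (k v (k v (k v (k v (k v r))))))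
 (.s 0x3baa88a2225ddc008ba08 4080 (n false (n false (n true (n false (z 42) (n false (n false (n false (n false e e) (n false e e)) (n false (n false e e) (n false e e))) (n false e e))) e) (n false e e)) (n false (n true (n false (n false e e) e) e) (n false e e))) (u 16 83 (k v (k v (k (t 32 3 (t 48 1 v)) (k (c 3 4091 v (u 32 1 (k v (k v r)))) (k (t 48 3 (c 24 4099 v (u 32 0 (k v (k v r))))) (k (c 3 4091 v r) (k (c 3 4091 v r) r))))))))
 .z .z) (.s 0x3bab9f5580210ea88a220 4085 (n false (n false (n true (n false (n false (n false (n true (z 67) e) (n false e e)) e) (n false e e)) e) (n true (n false (n false (n false (n false e e) (n false e e)) (n false (n false e e) (n false e e))) (n false e e)) e)) e) (c 10 4099 v (c 16 4087 r v))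
 .z .z)) (.s 0x3bbaa228887054fbbc020 4084 (n false (n false (n false (n false (z 107) (n false e e)) e) (n true (n false (n true (n false (n false (n false (n false e e) (n false e e)) (n false (n false e e) (n false e e))) (n false e e)) e) (n true (n false e e) e)) e)) e) (u 16 13 (k v (k v (k (c 48 4099 r (u 32 19 (k v (k v (k v (k (c 96 4099 r (u 64 1 (k v (k v r)))) r)))))) r))))
 (.s 0x3bbaa228884bbe801dc20 4074 (n false (n false (n true (n false (z 26) (n true (n false (n false (n false (n false e e) (n false e e)) (n false (n false e e) (n false e e))) (n false e e)) e)) e) (n true (n false (n true (n false e e) e) (n false e e)) e)) e) (u 16 0 (k v (k v (k (c 40 4099 v (u 32 1 (k v (k v r)))) r))))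
 .z .z) .z)) (.s 0x3be97770040baa2288870 4071 (n false (n false (n true (n true (n false (z 42) (n false e e)) e) e) e) (n false (n true (n false (n false (n false (n false e e) (n false e e)) (n false (n false e e) (n false e e))) (n false e e)) e) (n true (n false e e) e))) (u 32 2 (k v (k (c 8 4085 (t 12 1 (u 8 0 (k r r))) v) (k (u 64 7 (k v (k (u 128 28 (k v (k v (k v r)))) (k (c 8 4085 r v) (k (c 8 4085 (u 16 7 (k v (k v r))) v) r))))) (k (c 8 4085 r v) (k (c 8 4085 r v) (k (c 8 4085 r v) r)))))))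
 (.s 0x3bbaa7dfe012aaa004380 4065 (n false (n false (n true (n false (n true (n false (n false (n false (z 123) (z 0)) e) (n false e e)) e) (n true (n false e e) e)) e) e) e) (t 384 1 (u 256 4 (k v (k (c 768 4099 r (u 512 2 (k v (k v (k v (k (t 1536 2 r) r)))))) (k r (k (u 512 18 (k v (k v (k (c 1536 4101 r r) (k (c 1536 4099 r r) (k (c 1536 4097 r r) (k (c 1536 4096 r (u 1024 0 (k (u 2048 70 (k v (k v (k v r)))) r))) (k (c 1024 4098 r r) (k (c 1024 4101 r r) (k (c 1024 4099 r r) (k (c 1024 4101 r r) r))))))))))) (k (c 512 4096 r (u 768 1 (k v (k v r)))) (k (c 768 4097 r r) r))))))))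
 (.s 0x3bbaa7dd4012baf004380 4067 (n false (n false (n true (n false (n true (n false (n false (n false (z 100) (z 11)) e) (n false e e)) e) (n true (n false e e) e)) e) e) e) (t 384 2 (u 256 0 (k (c 768 4096 r r) (k (c 768 4096 r r) (k (c 768 4096 r r) (k (c 768 4097 r (u 512 7 (k v (k v (k v (k (c 1536 4099 r (u 1024 1 (k v (k v r)))) r)))))) (k (c 768 4096 r r) (k (c 768 4096 r r) r))))))))
 .z .z) (.s 0x3be577c00544511770870 4067 (n false (n false (n true (n true (z 52) e) e) (n false (n false (n false e e) (n false e e)) (n false (n false e e) (n false e e)))) (n false (n true (n false (n true (n false e e) e) (n false e e)) e) (n true (n false e e) e))) (u 16 238 (k v (k v (k v (k v (k v (k v (k v r))))))))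
 .z .z)) (.s 0x3bea777c00823ea88a220 4076 (n false (n false (n true (n true (n false (n false (z 53) e) (n false e e)) e) e) (n false e e)) (n true (n true (n false (n false (n false (n false e e) (n false e e)) (n false (n false e e) (n false e e))) (n false e e)) e) e)) (c 3 4097 v (u 64 0 (k r (k r r))))
 (.s 0x3be9fdf004eea800fb840 4068 (n false (n false (n true (n true (n false (z 55) (z 5)) e) e) (n true (n true (n false (n true (n false e e) e) (n false e e)) e) e)) e) (t 48 1 (u 32 2 (k v (k (t 96 2 (c 48 4099 v (u 64 2 (k v (k (c 8 4081 (u 16 1 (k v (k v r))) v) r))))) r))))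
 .z .z) .z))))

set_option maxRecDepth 100000 in
def N196 : NT :=
(.s 0x3e9d7f804aef8012bbe00 4096 (n false (n true (n false (z 52) (z 121)) e) (z 52)) (u 12 9 (k r (k (c 8 4097 r r) (k (c 4 4079 r (c 3 4097 r v)) (k (c 28 4099 r r) r)))))
 (.s 0x3e95df004aaa8013eab00 4096 (n false (n true (n false (z 52) (z 0)) e) (z 67)) (t 12 1 (u 8 41 (k r (k r (k (t 24 1 (u 3 24 (k (u 16 3 (k v (k v r))) (k (u 16 0 (k v (k v r))) (k (u 16 3 (k v (k v r))) (k (c 2 4094 (u 8 3 (k v (k v r))) v) (k r (k (c 5 4101 r (t 16 1 (u 7 0 (k v (k v r))))) (k (c 2 4094 (u 8 3 (k v (k v r))) r) (k (c 7 4101 r r) (k r (k (c 7 4102 r r) (k (c 5 4101 r r) (k r (k (c 5 4101 r r) r))))))))))))))) r)))))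
 (.s 0x3bfea9d7f804aaa801010 4071 (n false (n false (n true (n true (n true (n true (n false (n false (n false (z 121) (z 0)) e) (n false e e)) e) e) e) e) (n false e e)) e) (t 768 1 (u 512 1 (k v (k (c 1536 4099 r (u 1024 1 (k v (k v r)))) (k (c 1024 4097 r (u 1536 1 (k v (k v r)))) (k (c 1024 4095 r (u 1536 0 (k v (k v r)))) (k (c 1024 4095 r (u 1536 0 (k v (k v r)))) r)))))))
 (.s 0x3befaa2288839f5580088 4069 (n false (n false (n true (n true (n false (n true (z 67) e) (n true (n true (n false (n false (n false (n false e e) (n false e e)) (n false (n false e e) (n false e e))) (n false e e)) e) e)) e) e) (n false e e)) (n false e e)) (u 64 3 (k v (k (t 192 2 r) (k (t 128 2 (u 192 0 (k (u 320 0 (k v (k v r))) r))) (k (t 128 1 (u 192 0 (k (u 320 0 (k v (k v r))) r))) (k (t 192 1 r) (k (t 192 2 r) (k r (k (t 192 1 r) (k (t 192 2 (c 144 4099 v (c 8 4065 r v))) (k (t 128 2 r) (k (t 192 2 (u 128 0 (k (u 256 0 (k v (k v r))) r))) (k (t 128 1 r) (k (t 192 2 r) (k (t 128 1 (u 192 0 (k (u 320 0 (k v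 (k v r))) r))) (k (t 192 1 r) (k (t 192 2 r) (k (t 192 1 r) (k (t 192 2 r) (k (t 192 2 r) (k (t 192 1 r) r)))))))))))))))))))))
 (.s 0x3bee77dc00823ea88a220 4078 (n false (n false (n true (n true (n false (n true (z 45) e) (n false e e)) e) e) (n false e e)) (n true (n true (n false (n false (n false (n false e e) (n false e e)) (n false (n false e e) (n false e e))) (n false e e)) e) e)) (u 64 4 (k v (k (t 192 1 (u 128 4 (k v (k v r)))) r)))
 .z .z) (.s 0x3bfa5df401023ea88a220 4073 (n false (n false (n true (n true (n true (n false (z 26) (n false e e)) e) e) e) (n false e e)) (n true (n true (n false (n false (n false (n false e e) (n false e e)) (n false (n false e e) (n false e e))) (n false e e)) e) e)) (u 64 2 (k v (k (c 8 4081 (u 16 1 (k v (k v r))) v) r)))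
 .z .z)) (.s 0x3bfea9f7f804aaa801010 4071 (n false (n false (n true (n true (n true (n true (n false (n false (n false (z 123) (z 0)) e) (n false e e)) e) e) e) e) (n false e e)) e) (t 768 1 (u 512 4 (k v (k (c 1536 4099 r (u 1024 2 (k v (k v (k v (k (t 3072 3 (u 2048 26 (k v (k v (k v r))))) r)))))) (k r (k (u 1024 18 (k v (k v (k (c 3072 4101 r r) (k (c 3072 4099 r r) (k (c 3072 4097 r r) (k (c 3072 4096 r (u 2048 0 (k (u 4096 0 (k v (k v r))) r))) (k (c 2048 4098 r r) (k (c 2048 4101 r r) (k (c 2048 4099 r r) (k (c 2048 4101 r r) r))))))))))) (k (c 1024 4096 r (u 1536 1 (k v (k v r)))) (k (c 1536 4097 r r) r))))))))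
 (.s 0x3bfea9f75004aebc01010 4073 (n false (n false (n true (n true (n true (n true (n false (n false (n false (z 100) (z 11)) e) (n false e e)) e) e) e) e) (n false e e)) e) (t 768 2 (u 512 0 (k (c 1536 4096 r r) (k (c 1536 4096 r r) (k (c 1536 4096 r r) (k (c 1536 4097 r (u 1024 7 (k v (k v (k v (k (c 3072 4099 r (u 2048 1 (k v (k v r)))) r)))))) (k (c 1536 4096 r r) (k (c 1536 4096 r r) r))))))))
 .z .z) .z)) (.s 0x3e95fd4009fdd803ea220 4091 (n false (n true (n false (z 156) (z 87)) e) (n true (n true (n false (n false (n false e e) (n false e e)) (n false e e)) e) e)) (u 8 34 (k (u 12 17 (k v (k v r))) (k (c 12 4099 r v) (k (c 24 4099 r r) (k (c 16 4098 r r) (k (c 16 4097 r r) (k (c 16 4099 r r) r)))))))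
 (.s 0x3e95fd4009dd5002fb840 4082 (n false (n true (n false (z 156) (z 5)) e) (n false (n true (n true (n false (n true (n false e e) e) (n false e e)) e) e) e)) (t 12 1 (u 8 2 (k v (k (c 24 4099 r (u 16 1 (k v (k v r)))) (k (c 16 4095 r (u 24 0 (k v (k v r)))) r)))))
 (.s 0x3e95fd4009dd5002eb840 4083 (n false (n true (n false (z 156) (z 5)) e) (n false (n true (n false (n false (n true (n false e e) e) (n false e e)) e) e) e)) (t 12 1 (u 8 2 (k v (k (c 24 4099 r (u 16 1 (k v (k v r)))) (k (c 16 4095 r (u 24 0 (k v (k v r)))) r)))))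
 .z .z) (.s 0x3e95fd4009dd5003ea220 4091 (n false (n true (n false (z 156) (z 5)) e) (n true (n true (n false (n false (n false e e) (n false e e)) (n false e e)) e) e)) (t 12 1 (u 8 11 (k v (k v (k (c 24 4099 r (u 16 1 (k v (k v r)))) (k (c 16 4098 r (u 24 1 (k v (k v r)))) (k (c 16 4097 r r) (k (c 16 4099 r (u 24 1 (k v (k v r)))) r))))))))
 .z .z)) (.s 0x3e9777004afa801d44510 4088 (n false (n true (n false (z 42) (z 12)) e) (n true (n false (n false (n false e e) (n false e e)) (n false (n false e e) (n false e e))) e)) (t 12 2 (u 8 36 (k v (k v (k (u 16 2 (k v (k v r))) (k (u 16 5 (k v (k (u 32 20 (k v (k v (k v (k v r))))) (k (c 48 4096 r (u 32 1 (k v (k v r)))) r)))) (k (u 16 21 (k v (k v (k v (k (c 32 4097 r (u 48 1 (k v (k v r)))) r))))) (k (u 16 8 (k v (k v (k (c 48 4099 r (u 32 1 (k v (k v r)))) (k (c 32 4098 r (u 48 1 (k v (k v r)))) (k (c 32 4097 r (u 48 1 (k v (k v r)))) (k (c 32 4099 r (u 48 1 (k v (k v r)))) r))))))) r))))))))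
 (.s 0x3e9755004afa8013fbf00 4096 (n false (z 119) (n true (n false (z 12) (z 2)) e)) (t 9 3 (t 13 1 (u 2 24 (k v (k (c 6 4101 r r) (k (c 6 4099 r r) (k (c 3 4101 v (t 6 2 (u 4 0 (k r r)))) (k (t 6 1 (u 4 9 (k v (k v (k v (k (c 12 4099 r (u 8 1 (k v (k v r)))) r)))))) (k (c 4 4101 r r) (k (c 4 4099 r r) (k (c 4 4101 r (u 6 0 (k (t 14 1 (u 10 0 (k (t 18 3 (t 26 3 v)) r))) r))) (k (c 4 4101 r r) r))))))))))))
 .z .z) .z))) (.s 0x3e9dd5004bfb8013eab00 4096 (n false (n true (n false (z 46) (z 5)) e) (z 67)) (t 12 1 (u 8 2 (k r (k (c 24 4099 r (u 16 0 (k r (k r r)))) (k r (k (c 2 4088 (c 10 4101 v r) (t 3 2 v)) (k (c 24 4097 r r) (k (c 16 4095 r r) r))))))))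
 (.s 0x3e9dd5004bbb8013bbb00 4096 (n false (z 85) (n true (n false (z 42) (z 5)) e)) (t 13 1 (u 9 53 (k r (k (c 21 4101 v r) (k (c 13 4099 v (u 2 37 (k v (k v (k v r))))) (k (c 5 4090 r (c 2 4099 r v)) (k (c 5 4090 r (c 2 4099 r v)) (k (c 5 4090 r (c 2 4099 r v)) r))))))))
 (.s 0x3e9dd5004bbb8012aff00 4096 (n false (z 120) (n true (n false (z 42) (z 5)) e)) (t 13 1 (u 9 16 (k r (k (t 2 3 v) (k (c 5 4090 r (c 2 4101 r v)) (k (c 5 4090 (c 3 4099 v r) (c 2 4101 r v)) (k (c 5 4090 r (c 2 4101 r v)) (k (c 5 4090 r (c 2 4101 r v)) r))))))))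
 (.s 0x3e9dd5004bbb8012afe00 4096 (n false (z 56) (n true (n false (z 42) (z 5)) e)) (t 13 1 (u 9 16 (k (u 2 1 (k (u 4 1 (k v (k v r))) (k (u 4 396 (k v (k v (k v (k v (k v r)))))) (k (c 4 4096 r (u 6 0 (k v (k v r)))) (k (c 6 4096 r r) r))))) (k (c 5 4095 v (c 2 4096 r v)) (k (c 5 4090 r (c 2 4096 r v)) (k (c 3 4095 r (t 2 1 v)) (k (c 2 4096 r (c 5 4090 r v)) (k (c 2 4096 r (c 5 4090 r v)) r))))))))
 .z .z) (.s 0x3e9dd5004bbb8012fee00 4096 (n false (n true (n false (z 42) (z 5)) e) (z 46)) (t 12 1 (u 8 53 (k (u 3 1 (k v (k (u 5 1 (k v (k v r))) (k (c 7 4099 r (u 5 0 (k v (k v r)))) (k (u 5 1 (k v (k v r))) (k (c 7 4097 r (u 5 1 (k v (k v r)))) (k (c 5 4095 r (u 7 1 (k v (k v r)))) r))))))) (k (c 20 4101 v r) (k (c 12 4099 v r) (k (c 4 4090 r (c 3 4099 r v)) (k (c 4 4090 r (c 3 4099 r v)) (k (c 4 4090 r (c 3 4099 r v)) r))))))))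
 .z .z)) (.s 0x3e9dd5004bbb8013fab00 4096 (n false (n true (n false (z 42) (z 5)) e) (z 71)) (t 12 2 (u 3 6 (k r (k (c 12 4094 v (u 8 31 (k r (k r (k r r))))) (k r (k (t 5 1 r) (k (t 5 1 r) (k (t 5 1 r) r))))))))
 (.s 0x3e9dd5004bbb8013eab00 4096 (n false (n true (n false (z 42) (z 5)) e) (z 67)) (t 12 1 (u 8 16 (k r (k r (k (c 4 4090 r (c 3 4103 r v)) (k (c 4 4090 (c 3 4099 v r) (c 3 4103 r v)) (k (c 4 4090 r (c 3 4103 r v)) (k (c 4 4090 r (c 3 4103 r v)) r))))))))
 .z .z) .z)) (.s 0x3e9dd5004ebec013afb00 4096 (n false (n true (n false (z 89) (z 5)) e) (z 89)) (t 12 1 (u 3 0 (k (u 8 6 (k v (k v r))) (k (u 8 6 (k v (k v r))) (k (c 8 4098 r v) (k (t 7 3 (u 5 6 (k (c 11 4099 v (u 8 6 (k v (k v r)))) (k (c 4 4100 (c 3 4099 v r) v) (k (t 13 1 (u 8 58 (k (c 11 4099 v r) (k (u 9 2 (k v (k v r))) (k (c 11 4099 v (u 9 0 (k v (k v r)))) r))))) r))))) r))))))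
 (.s 0x3e9dd5004bfb8017d1070 4078 (n false (n true (n false (z 46) (z 5)) e) (n false (n true (n true (n false (n false e e) (n false e e)) e) e) (n true (n false e e) e))) (t 12 1 (u 8 10 (k v (k (c 24 4099 r (u 16 0 (k v (k v r)))) (k (c 2 4088 (c 10 4101 v r) v) r)))))
 (.s 0x3e9dd5004bfb801751070 4078 (n false (n true (n false (z 46) (z 5)) e) (n false (n true (n false (n false (n false e e) (n false e e)) e) e) (n true (n false e e) e))) (t 12 1 (u 8 10 (k v (k (c 24 4099 r (u 16 0 (k v (k v r)))) (k (c 2 4088 (c 10 4101 v r) v) r)))))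
 .z .z) (.s 0x3e9dd5004ebec012aff00 4096 (n false (n true (n false (z 89) (z 5)) e) (z 120)) (t 12 1 (u 8 64 (k r (k (t 3 3 v) (k r (k (t 3 3 v) (k r (k (t 3 3 (t 24 2 (c 4 4083 r v))) r))))))))
 .z .z)) (.s 0x3e9dd5004ebec013fbf00 4096 (n false (n true (n false (z 89) (z 5)) e) (z 119)) (t 12 1 (u 8 41 (k r (k (c 20 4101 v r) (k (c 12 4099 v r) (k (c 20 4101 v (c 16 4091 v r)) (k r r)))))))
 (.s 0x3e9dd5004ebec013eab00 4096 (n false (n true (n false (z 89) (z 5)) e) (z 67)) (t 12 1 (u 8 55 (k r (k r (k r (k r (k r (k (c 24 4099 r r) (k (c 24 4097 r r) r)))))))))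
 .z .z) .z))))

set_option maxRecDepth 100000 in
def N197 : NT :=
(.s 0x3ebaa22888443b9dd7000 4087 (n false (n true (n false (n true (z 37) e) e) e) (n true (n false (n false (n true (n false (n false (n false (n false e e) (n false e e)) (n false (n false e e) (n false e e))) (n false e e)) e) (n false e e)) (n false e e)) e)) (u 16 23 (k v (k v (k (c 33 4099 v (u 32 0 (k (t 64 3 (t 96 1 v)) r))) (k (c 33 4099 v (u 32 26 (k v (k v (k v (k (t 96 1 (u 64 0 (k (t 128 3 (t 192 1 v)) r))) r)))))) (k (c 16 4095 r v) r))))))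
 (.s 0x3eaa22888fb840e5fd400 4080 (n false (n true (n false (n true (n true (n false (n true (n false e e) e) (n false e e)) e) e) (n false (n false (n false (n false e e) (n false e e)) (n false (n false e e) (n false e e))) (n false e e))) e) (n true (z 14) e)) (c 20 4101 v (u 5 0 (k v (k v r))))
 (.s 0x3e9fdf004eea801d44510 4090 (n false (n true (n false (z 55) (z 5)) e) (n true (n false (n false (n false e e) (n false e e)) (n false (n false e e) (n false e e))) e)) (t 12 1 (u 8 4 (k (t 24 1 (u 16 29 (k v (k v (k v (k (c 12 4099 v (u 32 6 (k v (k v r)))) (k (u 32 2 (k v (k v r))) r))))))) (k (t 24 2 (c 12 4099 v r)) r))))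
 (.s 0x3e9df7004aaa8012aff00 4094 (n false (z 120) (n true (n false (z 45) (z 0)) e)) (t 13 1 (u 2 23 (k (t 9 1 v) (k (c 3 4096 (t 4 1 v) v) (k (t 9 1 v) (k (u 9 0 (k v (k v r))) (k r (k r (k (c 6 4101 r (u 9 0 (k r (k r r)))) (k (c 4 4099 r r) (k (c 6 4096 r (t 9 1 r)) (k (c 3 4096 (t 4 1 v) (t 6 1 (u 4 0 (k r r)))) (k (c 6 4099 r r) (k (c 4 4098 r (u 6 1 (k (u 9 0 (k v (k v r))) (k (u 9 0 (k v (k v r))) r)))) (k (c 4 4101 r r) (k r (k (c 6 4099 r r) (k (c 4 4101 r r) r))))))))))))))))))
 (.s 0x3e9dd7004aef8012bbe00 4096 (n false (n true (n false (z 52) (z 37)) e) (z 52)) (u 12 1 (k (c 3 4097 r r) (k (u 3 254 (k r (k r (k (c 12 4101 v r) (k (t 7 1 (u 8 275 (k (u 5 2 (k v (k v r))) (k (c 4 4085 v (c 3 4097 (t 2 1 v) v)) (k (t 5 1 v) (k (t 5 1 v) (k (t 24 1 (u 5 2 (k (u 16 0 (k v (k v r))) (k (u 16 2 (k v (k v r))) r)))) r))))))) r))))) r)))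
 .z .z) (.s 0x3e9df7004aaa8013eff00 4093 (n false (z 123) (n true (n false (z 45) (z 0)) e)) (t 13 1 (u 9 0 (k r (k (u 2 4 (k v (k (c 6 4099 r (u 4 0 (k v (k v (k v (k (t 12 2 r) r)))))) (k r (k r (k (c 4 4096 r (u 6 1 (k v (k v r)))) (k (c 3 4096 v (t 4 2 r)) r))))))) r))))
 .z .z)) (.s 0x3eaa22888fa88813eab00 4087 (n false (n true (n false (n true (n true (n false (n false (n false e e) (n false e e)) (n false e e)) e) e) (n false (n false (n false (n false e e) (n false e e)) (n false (n false e e) (n false e e))) (n false e e))) e) (z 67)) (u 3 137 (k v (k v (k v (k v (k (t 7 1 (u 5 1 (k v (k v r)))) (k (u 5 2 (k (t 7 1 v) (k (u 7 0 (k v (k v r))) r))) (k r (k (c 2 4090 v r) (k (c 5 4099 r (c 20 4101 v (c 16 4090 v (u 7 0 (k v (k v r)))))) (k (t 7 1 (c 20 4101 v (c 16 4090 v r))) (k (c 2 4090 v (t 7 2 (u 5 0 (k r r)))) (k (c 20 4101 v (c 16 4090 v r)) (k (t 7 1 (u 5 4 (k v (k v (k (c 13 4099 r (u 9 1 (k v (k v r)))) (k (c 9 4097 r r) r)))))) (k (c 2 4090 v (t 5 1 (u 7 0 (k r r)))) (k (c 16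 4090 v (c 20 4101 v r)) (k r (k (c 16 4090 v (c 20 4101 v r)) r))))))))))))))))))
 (.s 0x3eaa22888ea88813eab00 4087 (n false (n true (n false (n true (n false (n false (n false (n false e e) (n false e e)) (n false e e)) e) e) (n false (n false (n false (n false e e) (n false e e)) (n false (n false e e) (n false e e))) (n false e e))) e) (z 67)) (u 3 137 (k v (k v (k v (k v (k (t 7 1 (u 5 1 (k v (k v r)))) (k (u 5 2 (k (t 7 1 v) (k (u 7 3 (k v (k v (k v r)))) r))) (k r (k (c 2 4090 v r) (k (c 5 4099 r (c 20 4101 v (c 16 4090 v (u 7 0 (k v (k v r)))))) (k (t 7 1 (c 20 4101 v (c 16 4090 v r))) (k (c 2 4090 v (t 7 2 (u 5 0 (k r r)))) (k (u 7 2 (k (t 5 1 v) (k (u 5 0 (k v (k v r))) r))) (k (t 7 1 (u 5 4 (k v (k v (k (c 13 4099 r (u 9 1 (k v (k v r)))) (k (c 9 4097 r r) r)))))) (k (c 2 4090 v (t 5 1 (u 7 0 (k r r)))) (k (c 16 4090 v (c 20 4101 v r)) (k r (k (c 16 4090 v (c 20 4101 v r)) r))))))))))))))))))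
 .z .z) .z)) (.s 0x3ebaa22888443a577c010 4087 (n false (n true (n false (n false (n true (n false (n false (n false (n false e e) (n false e e)) (n false (n false e e) (n false e e))) (n false e e)) e) (n false e e)) (n false e e)) e) (n true (n false (z 52) (n false e e)) e)) (u 9 25 (k v (k v (k v (k (t 25 1 (u 17 0 (k v (k v r)))) r)))))
 (.s 0x3ebaa22888442f9d7f800 4087 (n false (n false (n true (n true (z 121) e) e) e) (n true (n false (n false (n true (n false (n false (n false (n false e e) (n false e e)) (n false (n false e e) (n false e e))) (n false e e)) e) (n false e e)) (n false e e)) e)) (u 16 1 (k v (k (c 48 4099 r (u 32 1 (k v (k v r)))) (k (c 32 4097 r r) (k (c 32 4095 r (u 48 0 (k v (k v r)))) (k (c 32 4095 r (u 48 0 (k v (k v r)))) r))))))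
 (.s 0x3eaa22888fb840e7f7600 4082 (n false (n true (n false (n true (n true (n false (n true (n false e e) e) (n false e e)) e) e) (n false (n false (n false (n false e e) (n false e e)) (n false (n false e e) (n false e e))) (n false e e))) e) (n true (z 87) e)) (c 20 4101 v (u 5 1 (k v (k v r))))
 .z .z) (.s 0x3ebaa22888442f9dd7000 4087 (n false (n true (n false (n false (n true (n false (n false (n false (n false e e) (n false e e)) (n false (n false e e) (n false e e))) (n false e e)) e) (n false e e)) (n false e e)) e) (n false (n true (n true (z 37) e) e) e)) (u 17 23 (k v (k v (k (c 2 4093 v (u 33 0 (k (t 65 3 (t 97 1 v)) r))) (k (c 2 4093 v r) (k (c 2 4093 v r) r))))))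
 .z .z)) (.s 0x3ebaa22888443b9d7f800 4087 (n false (n true (n false (n true (z 121) e) e) e) (n true (n false (n false (n true (n false (n false (n false (n false e e) (n false e e)) (n false (n false e e) (n false e e))) (n false e e)) e) (n false e e)) (n false e e)) e)) (u 16 1 (k v (k (c 48 4099 r (u 32 1 (k v (k v r)))) (k (c 32 4097 r (u 48 1 (k v (k v r)))) (k (c 32 4095 r (u 48 0 (k v (k v r)))) (k (c 32 4095 r (u 48 0 (k v (k v r)))) r))))))
 (.s 0x3ebaa22888443b9d75800 4089 (n false (n true (n false (n true (z 73) e) e) e) (n true (n false (n false (n true (n false (n false (n false (n false e e) (n false e e)) (n false (n false e e) (n false e e))) (n false e e)) e) (n false e e)) (n false e e)) e)) (c 33 4099 v (u 16 0 (k (u 32 0 (k v (k v r))) r)))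
 .z .z) .z))) (.s 0x3eea88a221442977d0070 4082 (n false (n false (z 26) (n true (n false e e) e)) (n true (n false (n true (n false (n false (n false (n false e e) (n false e e)) (n false (n false e e) (n false e e))) (n false e e)) e) (n false (n false e e) (n false e e))) e)) (c 6 4094 v (u 4 2 (k v (k (c 2 4084 (u 4 1 (k v (k v r))) v) r))))
 (.s 0x3ee5ddc00aa228887dc20 4090 (n false (n true (n false (n true (z 42) e) (n false (n false (n false (n false e e) (n false e e)) (n false (n false e e) (n false e e))) (n false e e))) e) (n true (n true (n false (n true (n false e e) e) (n false e e)) e) e)) (c 2 4088 (c 10 4101 v r) v)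
 (.s 0x3ebaa2288870e0e7d5600 4086 (n false (n true (n false (n false (n true (n false (n false (n false (n false e e) (n false e e)) (n false (n false e e) (n false e e))) (n false e e)) e) (n true (n false e e) e)) (n true (n false e e) e)) e) (n true (z 67) e)) (u 5 51 (k v (k v (k v (k v (k (t 13 1 (u 9 1 (k v (k v r)))) (k (u 9 2 (k (t 13 1 v) (k (u 13 3 (k v (k v (k v r)))) r))) (k r (k (c 3 4088 r v) (k (c 3 4091 (t 6 2 (u 4 0 (k r r))) v) (k (u 13 2 (k (t 9 1 v) (k (u 9 0 (k v (k v r))) r))) (k r (k (c 3 4091 (t 4 1 (u 6 0 (k r r))) v) (k (c 32 4099 v (c 12 4094 v r)) (k r (k (c 32 4099 v (c 12 4094 v r)) r))))))))))))))))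
 (.s 0x3ebaa22888443f95df000 4087 (n false (n true (n true (n true (z 52) e) e) e) (n true (n false (n false (n true (n false (n false (n false (n false e e) (n false e e)) (n false (n false e e) (n false e e))) (n false e e)) e) (n false e e)) (n false e e)) e)) (u 16 103 (k v (k v (k v (k v (k (t 48 1 (u 32 0 (k v (k v r)))) r))))))
 .z .z) (.s 0x3ee5ddc009fdd803ea220 4090 (n false (n true (n false (n true (z 42) e) (z 87)) e) (n true (n true (n false (n false (n false e e) (n false e e)) (n false e e)) e) e)) (u 16 1 (k (u 12 17 (k v (k v r))) (k (u 12 17 (k v (k v r))) r)))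
 .z .z)) (.s 0x3eea88a2214153bbb00e0 4083 (n false (n false (n false (z 85) (n true (n false e e) e)) e) (n true (n false (n true (n false (n false (n false (n false e e) (n false e e)) (n false (n false e e) (n false e e))) (n false e e)) e) (n false (n false e e) e)) e)) (u 8 44 (k v (k v (k (c 24 4099 r r) (k (c 24 4099 r (u 16 9 (k v (k v r)))) (k (c 24 4099 r (u 16 4 (k v (k v (k v (k (t 48 1 (u 32 26 (k v (k v (k v r))))) r)))))) (k (c 2 4081 r v) (k (c 16 4099 r r) r))))))))
 (.s 0x3ee7f76009fdd803ea220 4088 (n false (n true (n false (n true (z 87) e) (z 87)) e) (n true (n true (n false (n false (n false e e) (n false e e)) (n false e e)) e) e)) (u 16 1 (k (u 12 17 (k v (k v r))) (k (u 12 17 (k v (k v r))) r)))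
 .z .z) .z)) (.s 0x3efaa2288821d3afb00e0 4080 (n false (n true (n false (z 89) (n true (n false e e) e)) e) (n true (n false (n true (n true (n false (n false (n false (n false e e) (n false e e)) (n false (n false e e) (n false e e))) (n false e e)) e) e) (n false e e)) e)) (u 8 63 (k v (k v (k v (k (t 24 3 (u 16 26 (k v (k v (k v r))))) r)))))
 (.s 0x3efaa22888214fab803a0 4076 (n false (n false (n true (n false (n false e e) e) e) (z 35)) (n true (n false (n true (n true (n false (n false (n false (n false e e) (n false e e)) (n false (n false e e) (n false e e))) (n false e e)) e) e) (n false e e)) e)) (u 6 9 (k v (k v (k (t 14 1 (u 10 0 (k (t 18 3 (t 26 1 v)) r))) r))))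
 (.s 0x3ef9d7f801c17d5114440 4086 (n false (n true (n false (n true (n true (z 121) e) e) (n true (n false e e) e)) e) (n false (n true (n true (n false (n false (n false (n false e e) (n false e e)) (n false (n false e e) (n false e e))) (n false e e)) e) e) e)) (u 32 1 (k v (k (c 96 4099 r (u 64 1 (k v (k v r)))) (k (c 64 4097 r (u 96 1 (k v (k v r)))) (k (c 64 4095 r (u 96 0 (k v (k v r)))) (k (c 64 4095 r (u 96 0 (k v (k v r)))) r))))))
 .z .z) (.s 0x3efaa2288821d2aeb00e0 4078 (n false (n true (n false (z 72) (n true (n false e e) e)) e) (n true (n false (n true (n true (n false (n false (n false (n false e e) (n false e e)) (n false (n false e e) (n false e e))) (n false e e)) e) e) (n false e e)) e)) (u 8 0 (k (c 24 4099 r (u 16 25 (k v (k v (k (u 32 1 (k v (k v r))) (k (c 48 4099 r (u 32 0 (k (u 64 0 (k v (k v r))) r))) (k (c 5 4095 v (c 2 4069 r v)) (k (u 32 0 (k (u 64 0 (k v (k v r))) r)) (k (u 32 2 (k v (k v (k (c 96 4099 r (u 64 1 (k v (k v r)))) (k (c 64 4095 r (u 96 0 (k v (k v r))))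 (k (c 64 4095 r (u 96 0 (k v (k v r)))) r)))))) (k (u 32 2 (k v (k (c 96 4099 r (u 64 1 (k v (k v r)))) (k (c 64 4095 r (u 96 0 (k v (k v r)))) r)))) r)))))))))) r))
 .z .z)) (.s 0x3efaa22888383b9dd7000 4087 (n false (n true (n false (n true (z 37) e) e) e) (n true (n false (n true (n true (n false (n false (n false (n false e e) (n false e e)) (n false (n false e e) (n false e e))) (n false e e)) e) e) (n true (n false e e) e)) e)) (u 16 0 (k v (k (c 16 4101 (u 2 0 (k (t 4 3 (t 6 1 v)) r)) v) (k (u 32 0 (k (t 64 3 (t 96 1 v)) r)) (k (c 16 4101 r v) (k (u 32 0 (k v (k v (k (t 96 1 (u 64 0 (k (t 128 3 (t 192 1 v)) r))) r)))) (k (c 16 4095 r v) r)))))))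
 (.s 0x3efaa22888383b9d7f800 4087 (n false (n true (n false (n true (z 121) e) e) e) (n true (n false (n true (n true (n false (n false (n false (n false e e) (n false e e)) (n false (n false e e) (n false e e))) (n false e e)) e) e) (n true (n false e e) e)) e)) (u 16 28 (k v (k v (k (c 48 4099 r (u 32 6 (k v (k v (k v r))))) (k (c 32 4095 r (u 48 23 (k v (k v r)))) (k (c 32 4095 r (u 48 23 (k v (k v r)))) r))))))
 .z .z) .z))))

set_option maxRecDepth 100000 in
def N198 : NT :=
(.s 0x1d2bfa8012aae00aa22888 4094 (n false (n false (z 156) (z 32)) (n false (n false (n false (n false e e) (n false e e)) (n false (n false e e) (n false e e))) (n false e e))) (u 6 0 (k (c 14 4101 r (t 10 3 (u 4 1 (k v (k (c 12 4099 r (u 8 1 (k v (k v r)))) (k (c 8 4098 r (u 12 1 (k v (k v r)))) (k (c 8 4097 r (u 12 1 (k v (k v r)))) (k (c 8 4099 r (u 12 1 (k v (k v r)))) (k (c 8 4095 r r) r))))))))) r))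
 (.s 0x3faea88a221105cebfc00 4087 (n false (n false (n true (z 121) e) e) (n true (n true (n false (n false (n true (n false (n false (n false (n false e e) (n false e e)) (n false (n false e e) (n false e e))) (n false e e)) e) (n false e e)) (n false e e)) e) e)) (u 8 1 (k v (k (c 24 4099 r (u 16 1 (k v (k v r)))) (k (c 16 4097 r (u 24 1 (k v (k v r)))) (k (c 16 4095 r (u 24 0 (k v (k v r)))) (k (c 16 4095 r (u 24 0 (k v (k v r)))) r))))))
 (.s 0x3fa57f5002577c0075110 4089 (n false (n true (n true (n false (z 52) (z 156)) e) e) (n true (n false (n false (n false e e) (n false e e)) (n false e e)) e)) (u 24 11 (k (c 16 4097 r v) (k (c 16 4097 r v) (k (c 56 4099 r (u 40 1 (k r (k r r)))) (k (c 40 4098 r (u 56 1 (k r (k r r)))) (k (c 40 4097 r (u 56 1 (k r (k r r)))) (k (c 40 4099 r (u 56 1 (k r (k r r)))) r)))))))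
 (.s 0x3efbea88a220e7d560020 4071 (n false (n true (n false (n true (n true (n false (n true (z 67) e) (n true (n true (n false (n false (n false (n false e e) (n false e e)) (n false (n false e e) (n false e e))) (n false e e)) e) e)) e) e) (n false e e)) e) e) (u 128 3 (k v (k (t 384 2 r) (k (c 256 4096 r (u 384 0 (k (u 640 0 (k v (k v r))) r))) (k (c 256 4096 r (u 384 0 (k (u 640 0 (k v (k v r))) r))) (k (t 384 1 r) (k (t 384 2 r) (k (c 288 4099 v (c 16 4072 r v)) (k (t 384 1 r) (k (t 384 2 (c 288 4099 v (c 16 4065 r v))) (k (t 256 2 r) (k (t 384 2 r) (k (t 256 1 r) (k (t 384 2 r) (k (t 256 1 r) (k r (k (t 384 2 r) (k (t 384 1 r) (k (t 384 2 r) (k (t 384 2 r) (k (t 384 1 r) r)))))))))))))))))))))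
 (.s 0x3efaa2288839f55801708 4069 (n false (n true (n false (n true (z 67) e) (n true (n true (n false (n false (n false (n false e e) (n false e e)) (n false (n false e e) (n false e e))) (n false e e)) e) e)) e) (n false (n true (n false e e) e) (n false e e))) (u 16 3 (k v (k (t 48 2 r) (k (t 32 2 (u 48 0 (k (u 80 0 (k v (k v r))) r))) (k (t 32 1 (u 48 0 (k (u 80 0 (k v (k v r))) r))) (k (t 48 1 r) (k (t 48 2 r) (k r (k (t 48 1 r) (k (t 48 2 (c 36 4099 v (c 2 4065 r v))) (k (t 32 2 r) (k (t 48 2 (u 32 0 (k (u 64 0 (k v (k v r))) r))) (k (t 32 1 r) (k (t 48 2 r) (k (t 32 1 (u 48 0 (k (u 80 0 (k v (k v r))) r))) (k (t 48 1 r) (k (t 48 2 r) (k (t 48 1 r) (k (t 48 2 r) (k (t 48 2 r) (k (t 48 1 r) r)))))))))))))))))))))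
 .z .z) (.s 0x3efe977d0040875445110 4073 (n false (n true (n false (n true (n true (n true (n false (z 26) (n false e e)) e) e) e) (n false e e)) e) (n true (n false (n false (n false (n false e e) (n false e e)) (n false (n false e e) (n false e e))) (n false e e)) e)) (u 128 2 (k v (k (c 16 4081 (u 16 1 (k v (k v r))) v) r)))
 .z .z)) (.s 0x3faea88a221105cebac00 4089 (n false (n false (n true (z 73) e) e) (n true (n true (n false (n false (n true (n false (n false (n false (n false e e) (n false e e)) (n false (n false e e) (n false e e))) (n false e e)) e) (n false e e)) (n false e e)) e) e)) (c 65 4099 v (u 8 0 (k (u 16 0 (k v (k v r))) r)))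
 (.s 0x3fa57f50027d7c0075110 4091 (n false (n true (n true (n false (z 156) (z 51)) e) e) (n true (n false (n false (n false e e) (n false e e)) (n false e e)) e)) (t 24 3 (u 16 24 (k v (k v (k (c 48 4099 r (u 32 1 (k v (k v r)))) (k (c 32 4099 r (u 48 1 (k v (k v r)))) r))))))
 .z .z) .z)) (.s 0x3fbea88a220e072bfa800 4092 (n false (n true (n true (n false (n true (n true (n false (n false (n false (n false e e) (n false e e)) (n false (n false e e) (n false e e))) (n false e e)) e) e) (n true (n false e e) e)) e) e) (n true (z 156) e)) (u 5 21 (k v (k v (k (c 13 4099 r (u 9 1 (k v (k v r)))) (k (c 9 4095 r (u 13 0 (k v (k v r)))) r)))))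
 (.s 0x3faea88a221107caef800 4087 (n false (n true (n true (n false (n false (n true (n false (n false (n false (n false e e) (n false e e)) (n false (n false e e) (n false e e))) (n false e e)) e) (n false e e)) (n false e e)) e) e) (n true (n true (z 52) e) e)) (u 9 103 (k v (k v (k v (k v (k (t 25 1 (u 17 0 (k v (k v r)))) r))))))
 (.s 0x3faea88a221105ceeb800 4087 (n false (n false (n true (z 37) e) e) (n true (n true (n false (n false (n true (n false (n false (n false (n false e e) (n false e e)) (n false (n false e e) (n false e e))) (n false e e)) e) (n false e e)) (n false e e)) e) e)) (u 8 23 (k v (k v (k (c 65 4099 v (u 16 0 (k (t 32 3 (t 48 1 v)) r))) (k (c 65 4099 v (u 16 11 (k v (k v (k (t 48 1 (u 32 0 (k (t 64 3 (t 96 1 v)) r))) r))))) (k (c 4 4088 r v) r))))))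
 .z .z) (.s 0x3faea88a221107cfaf800 4089 (n false (n true (n true (n false (n false (n true (n false (n false (n false (n false e e) (n false e e)) (n false (n false e e) (n false e e))) (n false e e)) e) (n false e e)) (n false e e)) e) e) (n true (n true (z 51) e) e)) (u 9 0 (k (t 25 1 (u 17 0 (k (t 33 3 (t 49 3 v)) r))) r))
 .z .z)) (.s 0x3febaa22888440e577c00 4087 (n false (n true (n true (n true (n false (n false (n true (n false (n false (n false (n false e e) (n false e e)) (n false (n false e e) (n false e e))) (n false e e)) e) (n false e e)) (n false e e)) e) e) e) (n true (z 52) e)) (u 5 263 (k v (k v (k v (k v (k (t 13 1 (u 9 0 (k v (k v r)))) r))))))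
 (.s 0x3fbea88a220e07caef800 4087 (n false (n true (n true (z 52) e) e) (n true (n true (n false (n true (n true (n false (n false (n false (n false e e) (n false e e)) (n false (n false e e) (n false e e))) (n false e e)) e) e) (n true (n false e e) e)) e) e)) (u 8 111 (k v (k v (k v (k v (k v (k v (k v r))))))))
 .z .z) .z))) (.s 0x1d2bfa8012eee00a555c00 4094 (n false (n false (z 42) (z 156)) (n false (z 32) e)) (u 5 0 (k (t 9 3 (t 13 1 (u 6 8 (k (u 4 1 (k v (k v r))) (k (c 2 4067 (u 2 1 (k v (k v r))) v) (k (c 14 4099 r r) (k (c 10 4098 r r) (k (c 10 4097 r r) (k (c 10 4099 r r) r))))))))) r))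
 (.s 0x1d2bfa8012bea009557400 4094 (n false (z 160) (n false (z 12) (z 156))) (t 5 2 (u 7 0 (k r (k (c 15 4099 r (u 11 8 (k r (k (u 2 2 (k r (k (c 4 4100 r (c 11 4092 v r)) (k (c 6 4099 r (c 11 4092 v r)) (k r (k (t 4 1 (t 6 3 v)) (k (c 6 4099 r (c 11 4092 v r)) (k (c 4 4097 r (c 11 4092 v r)) (k (c 6 4097 r (c 11 4092 v r)) (k (u 4 6 (k r (k r (k r (k (c 12 4097 r r) r))))) r)))))))))) r)))) r))))
 (.s 0x1d2bfa8012bbe00aa22888 4091 (n false (n false (z 156) (z 52)) (n false (n false (n false (n false e e) (n false e e)) (n false (n false e e) (n false e e))) (n false e e))) (u 4 1 (k r (k (c 12 4099 r r) (k (c 8 4098 r r) (k (c 8 4097 r (u 12 1 (k r (k r r)))) (k (c 8 4099 r r) (k (c 8 4095 r (u 12 0 (k r (k r r)))) r)))))))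
 (.s 0x1d2bfa8012aff00aa22888 4094 (n false (n false (z 120) (z 156)) (n false (n false (n false (n false e e) (n false e e)) (n false (n false e e) (n false e e))) (n false e e))) (u 6 36 (k (c 3 4099 v r) (k r (k (c 3 4099 v r) (k (c 14 4099 r r) (k (c 10 4099 r r) r))))))
 .z .z) (.s 0x1d2bfa8012bbe00e577c00 4091 (n false (n false (z 156) (z 52)) (n true (z 52) e)) (u 4 8 (k r (k (c 2 4064 r (c 5 4097 r v)) (k (c 12 4099 r r) (k (c 8 4098 r r) (k (c 8 4097 r (u 12 1 (k r (k r r)))) (k (c 8 4099 r r) r)))))))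
 .z .z)) (.s 0x1d2bfa8012bea00e5ddc00 4091 (n false (n false (z 156) (z 12)) (n true (z 42) e)) (t 6 3 (u 4 1 (k (u 5 1 (k v (k v r))) (k (c 12 4099 r r) (k (c 8 4098 r r) (k (c 8 4097 r (c 5 4100 r r)) (k (c 8 4099 r r) (k (c 8 4095 r r) r))))))))
 (.s 0x1d2bfa8012bea00e57fe00 4090 (n false (n false (z 156) (z 12)) (n true (z 124) e)) (t 6 3 (u 4 1 (k r (k (c 12 4099 r r) (k (c 8 4098 r r) (k (c 8 4097 r (c 5 4099 r r)) (k (c 8 4099 r r) (k (c 8 4095 r r) r))))))))
 .z .z) .z)) (.s 0x1d2bfa8013baa00eea20e0 4078 (n false (n false (z 156) (z 5)) (n true (n false (n true (n false (n false (n false e e) (n false e e)) e) e) (n true (n false e e) e)) e)) (t 6 1 (u 4 26 (k v (k v (k (c 12 4099 r (u 8 1 (k v (k v r)))) (k (c 8 4095 r (u 12 0 (k v (k v r)))) r))))))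
 (.s 0x1d2bfa8012fea00e7d5600 4096 (n false (n false (z 156) (z 14)) (n true (z 67) e)) (u 6 0 (k (u 5 37 (k r (k r (k r r)))) (k (u 4 8 (k (u 5 0 (k v (k v r))) (k (c 2 4061 v (c 5 4103 r v)) (k (c 12 4099 r r) (k (c 8 4098 r r) (k (c 8 4097 r (u 12 1 (k (u 5 0 (k v (k v r))) (k (u 5 0 (k v (k v r))) r)))) (k (c 8 4099 r r) r))))))) r)))
 (.s 0x1d2bfa8012eee00a7d5c00 4094 (n false (n false (z 156) (z 42)) (n false (z 35) e)) (u 5 8 (k (t 6 1 r) (k (t 13 1 (u 9 0 (k (t 17 3 (t 25 1 (u 4 8 (k (u 6 9 (k v (k v (k v r)))) (k (c 2 4067 (u 3 1 (k v (k v r))) v) (k (c 12 4099 r r) (k (c 8 4098 r r) (k (c 8 4097 r r) (k (c 8 4099 r r) r))))))))) r))) r)))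
 .z .z) (.s 0x1d2bfa8013baa00e5f7e00 4093 (n false (n true (z 118) e) (n false (z 156) (z 5))) (t 7 1 (u 4 8 (k r (k (t 12 1 (u 8 7 (k r (k (c 7 4099 v r) (k (c 16 4101 r (c 5 4101 r r)) (k (c 24 4103 r (c 5 4101 r r)) (k (c 24 4100 r (c 5 4101 r r)) (k (c 24 4100 r (c 5 4101 r r)) r)))))))) (k (c 5 4101 r (t 12 1 r)) r)))))
 .z .z)) (.s 0x1d2bfa8013eab00aa22888 4094 (n false (n false (z 67) (z 156)) (n false (n false (n false (n false e e) (n false e e)) (n false (n false e e) (n false e e))) (n false e e))) (u 6 1 (k r (k (c 14 4099 r (u 10 1 (k r (k r r)))) (k (c 10 4098 r (u 14 1 (k r (k r r)))) (k (c 10 4097 r (u 14 1 (k r (k r r)))) (k (c 10 4099 r (u 14 1 (k r (k r r)))) (k (c 10 4095 r (t 4 1 (c 3 4099 v r))) r)))))))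
 (.s 0x1d2bfa8013baa00efa20e0 4078 (n false (n false (z 156) (z 5)) (n true (n false (n true (n true (n false (n false e e) (n false e e)) e) e) (n true (n false e e) e)) e)) (t 6 1 (u 4 2 (k v (k (c 12 4099 r (u 8 1 (k v (k v r)))) (k (c 8 4095 r (u 12 0 (k v (k v r)))) r)))))
 .z .z) .z))))

set_option maxRecDepth 100000 in
def N199 : NT :=
(.s 0x1d3baa0097770052abe008 4094 (n false (n false (z 48) (n false e e)) (n false (z 42) (z 5))) (t 7 1 (u 5 83 (k (c 7 4099 v (c 5 4094 v r)) (k (c 7 4099 v r) (k (t 9 3 (t 13 1 (u 4 16 (k v (k v (k (u 8 2 (k v (k v r))) r)))))) (k (c 3 4090 r r) (k r (k (c 3 4090 r r) (k (c 3 4090 r r) r)))))))))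
 (.s 0x1d3aae8012bea00e5ddc00 4091 (n false (n false (z 161) (z 12)) (n true (z 42) e)) (t 6 3 (u 4 2 (k r (k (c 12 4099 r (u 8 12 (k (u 5 1 (k v (k v r))) (k (c 8 4094 v r) (k (t 24 1 (u 16 0 (k (u 5 1 (k v (k v r))) (k (c 48 4099 r (u 32 8 (k (u 5 1 (k v (k v r))) (k (u 5 1 (k v (k v r))) r)))) r)))) r))))) r))))
 (.s 0x1d2fee0095df0075445110 4096 (n false (n false (z 46) (z 52)) (n true (n false (n false (n false (n false e e) (n false e e)) (n false (n false e e) (n false e e))) (n false e e)) e)) (u 4 1 (k r (k (u 8 1 (k r (k r r))) (k (c 12 4099 r (u 8 0 (k r (k r r)))) (k r (k (c 12 4097 r (u 8 1 (k r (k r r)))) (k (c 8 4095 r (u 12 1 (k r (k r r)))) r)))))))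
 (.s 0x1d2bfa8013fab00aa22888 4094 (n false (n false (z 156) (z 71)) (n false (n false (n false (n false e e) (n false e e)) (n false (n false e e) (n false e e))) (n false e e))) (u 6 1 (k r (k (c 14 4099 r r) (k (u 4 42 (k (c 3 4099 v r) (k (c 3 4099 v r) (k (c 12 4099 r r) r)))) (k (c 10 4099 r r) (k (c 10 4099 r r) (k (c 10 4099 r r) r)))))))
 (.s 0x1d2bfa8013ebe00e577c00 4093 (n false (n false (z 156) (z 51)) (n true (z 52) e)) (t 6 3 (u 5 280 (k r (k r (k (c 4 4101 r v) (k r (k (t 4 1 v) (k (t 4 1 v) (k r r)))))))))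
 .z .z) (.s 0x1d2bff0095df0075445110 4096 (n false (n false (z 124) (z 52)) (n true (n false (n false (n false (n false e e) (n false e e)) (n false (n false e e) (n false e e))) (n false e e)) e)) (u 4 15 (k r (k (c 4 4094 v r) (k (c 2 4083 r v) (k (c 12 4097 r r) (k (c 12 4096 r r) (k (c 12 4097 r r) (k (c 12 4097 r r) (k (c 8 4097 r r) r)))))))))
 .z .z)) (.s 0x1d3aae8012bea00e57fe00 4090 (n false (n false (z 161) (z 12)) (n true (z 124) e)) (t 6 2 (u 4 2 (k r (k (c 12 4099 r (u 8 12 (k (c 8 4092 v r) (k (c 8 4094 v r) (k (t 24 1 (u 16 30 (k (c 8 4092 v r) (k r (k (c 48 4099 r r) (k (c 32 4099 r r) (k (c 32 4095 r (u 48 23 (k r (k (c 8 4092 v r) r)))) r))))))) r))))) r))))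
 (.s 0x1d3aae8012bea00aa22888 4094 (n false (n false (z 161) (z 12)) (n false (n false (n false (n false e e) (n false e e)) (n false (n false e e) (n false e e))) (n false e e))) (t 6 3 (u 4 1 (k (c 12 4099 r (u 8 4 (k v (k v (k (t 24 1 (u 16 0 (k v (k (c 48 4099 r (u 32 0 (k v (k v r)))) r)))) (k r r)))))) (k (c 10 4099 v (c 3 4099 v r)) r))))
 .z .z) .z)) (.s 0x1d3aff0097770075445110 4096 (n false (n false (z 121) (z 42)) (n true (n false (n false (n false (n false e e) (n false e e)) (n false (n false e e) (n false e e))) (n false e e)) e)) (u 4 12 (k (c 2 4083 r v) (k (u 6 16 (k v (k v (k (c 8 4092 v r) (k (c 8 4092 v r) (k (c 8 4092 v r) (k (c 8 4092 v r) r))))))) (k (u 6 20 (k v (k v (k v r)))) (k (c 12 4099 r r) r)))))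
 (.s 0x1d3aff0095df0075445110 4096 (n false (n false (z 121) (z 52)) (n true (n false (n false (n false (n false e e) (n false e e)) (n false (n false e e) (n false e e))) (n false e e)) e)) (u 4 4 (k r (k (c 2 4079 r v) (k (c 12 4099 r r) (k (c 8 4097 r (u 12 1 (k r (k r r)))) r)))))
 (.s 0x1d3aee0097f70075445110 4098 (n false (n false (z 41) (z 46)) (n true (n false (n false (n false (n false e e) (n false e e)) (n false (n false e e) (n false e e))) (n false e e)) e)) (t 4 6 (u 6 8 (k v (k (u 10 18 (k v (k v (k v r)))) (k (c 14 4099 r (u 10 0 (k v (k v r)))) (k (u 10 1 (k v (k v r))) (k (c 14 4097 r (u 10 1 (k v (k v r)))) (k (c 10 4095 r (u 14 1 (k v (k v r)))) r))))))))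
 .z .z) (.s 0x1d3aff0095f50052afa008 4094 (n false (n false (z 121) (z 12)) (n false (z 24) (n false e e))) (t 6 3 (u 5 0 (k (t 9 3 (t 13 1 (u 4 28 (k v (k v (k (c 12 4099 r (u 8 6 (k v (k v (k v r))))) (k (c 8 4095 r (c 3 4096 v r)) (k (c 8 4095 r (c 3 4096 v r)) r)))))))) r)))
 .z .z)) (.s 0x1d3baa0095ff8074faac00 4096 (n false (n false (z 124) (z 5)) (n true (n false (z 67) e) e)) (t 6 1 (u 4 6 (k (c 6 4099 v r) (k r (k (c 12 4097 r (u 8 1 (k r (k r r)))) (k (c 12 4096 r (u 8 1 (k r (k r r)))) (k (c 12 4097 r (u 8 1 (k r (k r r)))) r)))))))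
 (.s 0x1d3baa0095ff8074abfc00 4096 (n false (n true (n false (z 120) e) e) (n false (z 124) (z 5))) (t 7 1 (u 5 10 (k (c 7 4099 v r) (k (c 11 4101 v (t 8 3 v)) (k (c 13 4097 r r) (k (c 13 4097 r r) r))))))
 .z .z) .z))) (.s 0x1d3bbb009dd50074abfc00 4096 (n false (n false (z 85) (z 5)) (n true (n false (z 120) e) e)) (t 6 1 (u 4 35 (k (c 10 4101 v (t 9 3 v)) (k (c 6 4099 v r) (k (c 12 4099 r (u 9 19 (k r (k (c 8 4097 r v) (k (c 25 4099 r r) (k (c 25 4096 r r) (k (c 17 4099 r r) (k (c 25 4100 r r) (k (c 25 4097 r r) (k (c 25 4099 r r) (k (c 17 4099 r r) (k (c 25 4097 r r) r)))))))))))) r)))))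
 (.s 0x1d3bae0095df0075445110 4096 (n false (n false (z 52) (z 37)) (n true (n false (n false (n false (n false e e) (n false e e)) (n false (n false e e) (n false e e))) (n false e e)) e)) (u 4 144 (k (t 6 1 v) (k r (k (c 2 4085 r v) (k (u 6 48 (k v (k v (k v (k r r))))) (k (t 6 1 v) (k (c 2 4087 r v) (k (t 12 1 (u 6 1 (k (c 2 4095 (c 2 4097 (t 2 1 v) v) v) (k (u 8 0 (k v (k v r))) r)))) r))))))))
 (.s 0x1d3baa0097f7007d708e80 4080 (n false (n false (z 46) (z 5)) (n true (n true (n false (n true (n false (n false e e) e) e) (n false (n true (n false e e) e) (n false e e))) e) e)) (t 6 1 (u 4 2 (k v (k (c 12 4099 r (u 8 0 (k v (k v r)))) (k r (k (c 3 4086 v (c 10 4101 v r)) (k (c 12 4097 r r) (k (c 8 4095 r r) r))))))))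
 (.s 0x1d3baa0097f70077dc20e0 4083 (n false (n true (n false (n true (n true (n false (n true (n false e e) e) (n false e e)) e) e) (n true (n false e e) e)) e) (n false (z 46) (z 5))) (t 7 1 (u 5 10 (k v (k (c 13 4099 r (u 9 0 (k v (k v r)))) (k (c 2 4086 v (c 11 4101 v r)) r)))))
 .z .z) (.s 0x1d3baa009d7d8052eee008 4088 (n false (n false (z 89) (z 5)) (n false (z 42) (n false e e))) (t 6 2 (u 4 60 (k r (k (c 6 4094 v r) (k (c 6 4094 v r) (k (t 5 1 v) (k (t 5 1 v) (k r (k (t 12 3 (c 6 4094 v r)) r)))))))))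
 .z .z)) (.s 0x1d3bae0097770075445110 4096 (n false (n false (z 42) (z 37)) (n true (n false (n false (n false (n false e e) (n false e e)) (n false (n false e e) (n false e e))) (n false e e)) e)) (u 4 16 (k r (k (c 2 4085 r v) (k (t 6 1 r) (k (t 6 1 r) (k (t 6 1 r) (k (t 6 1 r) r)))))))
 (.s 0x1d3bae0095f50052afa008 4094 (n false (n false (z 37) (z 12)) (n false (z 24) (n false e e))) (t 6 3 (u 4 23 (k (c 3 4096 (c 2 4098 r v) v) (k (u 5 0 (k (t 9 3 (t 13 1 v)) r)) (k (t 5 1 (u 8 0 (k (t 16 3 (t 24 1 v)) r))) (k (c 10 4099 v (u 8 26 (k r (k (u 5 0 (k (t 9 3 (t 13 1 v)) r)) (k r (k (t 24 1 (u 16 0 (k (t 32 3 (t 48 1 (u 5 0 (k (t 9 3 (t 13 1 v)) r)))) r))) r)))))) (k (c 3 4096 (c 2 4098 r v) (u 8 7 (k v (k v r)))) r)))))))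
 .z .z) .z)) (.s 0x1d3eab009d7f8075445110 4094 (n false (n false (z 67) (z 121)) (n true (n false (n false (n false (n false e e) (n false e e)) (n false (n false e e) (n false e e))) (n false e e)) e)) (u 6 1 (k r (k (c 14 4099 r (u 10 1 (k r (k r r)))) (k (c 10 4097 r (u 14 1 (k r (k r r)))) (k (c 10 4095 r (t 4 2 (c 5 4099 v r))) (k (c 10 4095 r (t 4 2 (c 5 4099 v r))) r))))))
 (.s 0x1d3bbb009dd70075445110 4091 (n false (n false (z 85) (z 37)) (n true (n false (n false (n false (n false e e) (n false e e)) (n false (n false e e) (n false e e))) (n false e e)) e)) (u 6 23 (k (t 4 1 v) (k r (k (t 4 1 (u 10 0 (k (t 18 3 (t 26 1 v)) r))) (k r (k r r))))))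
 (.s 0x1d3bbb009dd50074faac00 4096 (n false (n false (z 85) (z 5)) (n true (n false (z 67) e) e)) (t 6 1 (u 9 54 (k r (k (u 4 70 (k v (k v (k (c 12 4099 r r) (k (c 12 4099 r (c 17 4097 v r)) (k (c 8 4099 r r) r)))))) (k (t 4 1 v) (k r (k (c 25 4099 r r) (k (c 25 4097 r r) (k (c 25 4099 r (u 4 35 (k (c 10 4101 v r) (k (c 6 4099 v r) (k (c 12 4099 r r) r))))) (k r (k (c 25 4099 r (u 17 0 (k (u 33 0 (k r (k r r))) r))) (k (c 17 4099 r r) (k (c 25 4099 r r) (k (c 17 4099 r (u 25 0 (k (u 41 0 (k r (k r r))) r))) (k (c 25 4099 r r) (k (c 25 4099 r r) (k (c 25 4099 r r) r)))))))))))))))))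
 .z .z) (.s 0x1d3bfa8013baa009d57400 4094 (n false (n false (z 157) (z 5)) (z 161)) (t 6 1 (u 4 14 (k (c 6 4099 v r) (k (t 3 1 v) (k (t 12 1 (u 3 1 (k (t 7 1 (u 8 0 (k (t 5 1 v) (k (c 24 4099 r (u 5 15 (k (c 16 4099 r v) (k (c 7 4099 v (u 16 3 (k v (k v (k v r))))) (k (t 13 1 (u 9 0 (k (c 16 4099 r v) (k (c 17 4099 r (u 16 8 (k (c 25 4099 r v) (k (u 25 0 (k v (k v r))) r)))) r)))) r))))) r)))) (k (c 2 4095 r r) r)))) r)))))
 .z .z)) (.s 0x1d3eab00a88a229d7f8070 4085 (n false (n false (z 67) (n false (n false (n false e e) (n false e e)) (n false (n false e e) (n false e e)))) (n false (z 121) (n true (n false e e) e))) (u 5 1 (k r (k (c 13 4099 r (u 9 1 (k r (k r r)))) (k (c 9 4097 r r) (k (c 9 4095 r r) (k (c 9 4095 r r) r))))))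
 (.s 0x1d3eab009dd70075445110 4094 (n false (n false (z 67) (z 37)) (n true (n false (n false (n false (n false e e) (n false e e)) (n false (n false e e) (n false e e))) (n false e e)) e)) (u 4 50 (k r (k (c 5 4099 v r) (k (t 6 1 v) (k (c 8 4101 r r) (k (t 6 1 r) (k (c 8 4099 r r) (k (c 12 4101 r r) (k (c 12 4102 r r) (k (c 8 4101 r r) (k (c 8 4101 r r) r)))))))))))
 .z .z) .z))))

set_option maxRecDepth 100000 in
def N200 : NT :=
(.s 0x1d4fab8012bbe00aa22888 4091 (n false (n false (z 52) (n false (z 35) e)) (n false (n false (n false (n false e e) (n false e e)) (n false (n false e e) (n false e e))) (n false e e))) (u 10 2 (k r (k (u 4 138 (k v (k v (k v r)))) (k (t 4 1 v) (k (t 26 1 (u 18 0 (k (t 34 3 (t 50 1 (u 4 74 (k v (k v (k v (k v r))))))) r))) r)))))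
 (.s 0x1d4afa802577c013bae008 4091 (n false (n false (n false (z 52) (z 12)) (z 37)) (n false e e)) (t 12 3 (u 8 281 (k (c 12 4110 v r) (k (c 20 4099 v (c 2 4085 r v)) (k (c 20 4099 v (c 2 4087 r v)) (k (u 6 1 (k v (k v r))) (k r (k (c 4 4075 v (t 6 1 v)) r))))))))
 (.s 0x1d3fea8013aff00e5ddc00 4091 (n false (n false (z 143) (z 121)) (n true (z 42) e)) (t 6 2 (u 5 1 (k r (k (u 4 5 (k v (k (c 12 4096 r r) (k (c 8 4098 r r) (k (c 8 4100 r (u 12 0 (k v (k (c 5 4094 v (u 20 0 (k (u 36 0 (k v (k v r))) r))) r)))) (k (c 12 4096 r r) r)))))) r))))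
 (.s 0x1d3ebe009d7f8075445110 4098 (n false (n false (z 121) (z 51)) (n true (n false (n false (n false (n false e e) (n false e e)) (n false (n false e e) (n false e e))) (n false e e)) e)) (u 6 0 (k (t 14 1 (u 10 0 (k (t 18 3 (t 26 3 (u 4 26 (k v (k v (k v (k (c 12 4099 r (u 8 1 (k v (k v r)))) r))))))) r))) r))
 (.s 0x1d3eab00a88a23a5ddc010 4090 (n false (n false (z 67) (n false (n false (n false e e) (n false e e)) (n false (n false e e) (n false e e)))) (n true (n false (z 42) (n false e e)) e)) (u 4 0 (k (u 9 15 (k v (k v (k v r)))) (k (c 6 4101 v r) r)))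
 .z .z) (.s 0x1d3efb009dd50074faac00 4096 (n false (n false (z 91) (z 5)) (n true (n false (z 67) e) e)) (t 6 1 (u 4 8 (k r (k (c 6 4099 v r) (k r (k (u 8 0 (k (u 9 58 (k v (k v (k v (k v (k (c 25 4099 r r) (k (c 25 4099 r (u 17 0 (k (u 33 0 (k v (k v r))) r))) (k (c 17 4099 r r) (k (c 25 4099 r r) (k (c 17 4099 r (u 25 0 (k (u 41 0 (k v (k v r))) r))) (k (c 25 4099 r r) (k (c 25 4099 r r) (k (c 25 4099 r r) r))))))))))))) (k (c 6 4099 v r) r))) (k (c 8 4097 r (u 12 0 (k r (k r r)))) r)))))))
 .z .z)) (.s 0x1d3feb009fdd8075445110 4096 (n false (n false (z 87) (z 79)) (n true (n false (n false (n false (n false e e) (n false e e)) (n false (n false e e) (n false e e))) (n false e e)) e)) (u 4 0 (k (u 6 1 (k v (k r (k (c 10 4100 r (u 14 0 (k (u 22 0 (k v (k v r))) r))) r)))) (k (u 6 5 (k v (k (c 5 4099 v r) (k (c 10 4100 r (u 14 0 (k (u 22 0 (k v (k v r))) r))) r)))) r)))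
 (.s 0x1d3feb009dd50075445110 4096 (n false (n false (z 79) (z 5)) (n true (n false (n false (n false (n false e e) (n false e e)) (n false (n false e e) (n false e e))) (n false e e)) e)) (t 6 1 (u 4 2 (k v (k (u 8 6 (k r (k r (k r (k (t 24 1 (c 3 4110 v (c 10 4101 v r))) (k (t 24 1 r) (k (t 24 1 (c 3 4110 v (c 10 4101 v r))) r))))))) (k (t 8 1 (c 2 4083 (u 6 0 (k (u 10 0 (k v (k v r))) r)) v)) r)))))
 .z .z) .z)) (.s 0x1d4ebec013fbb00e7d5600 4096 (n false (n false (n false (z 89) e) (z 87)) (n true (z 67) e)) (u 8 12 (k (u 5 128 (k (u 6 11 (k v (k v r))) (k (u 6 1 (k v (k v r))) (k (u 6 0 (k v (k v r))) r)))) (k (u 5 0 (k (u 6 0 (k v (k v r))) (k (u 6 0 (k v (k v r))) r))) r)))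
 (.s 0x1d4bbb8012bbe00e577c00 4091 (n false (n false (z 52) (n false (z 42) e)) (n true (z 52) e)) (u 10 1 (k r (k (u 4 169 (k r (k (c 10 4094 v r) (k (c 5 4097 r v) (k (t 12 1 (u 5 160 (k (u 8 0 (k v (k v r))) (k (u 8 2 (k v (k v r))) (k (c 6 4093 v (t 8 1 v)) (k (t 8 1 v) (k (t 13 1 (u 9 0 (k (u 8 0 (k v (k v r))) (k (u 8 2 (k v (k v r))) r)))) r))))))) r))))) r)))
 (.s 0x1d4afea004afa801544510 4091 (n false (n false (n false (z 156) (z 12)) e) (n false (n false (n false (n false e e) (n false e e)) (n false (n false e e) (n false e e))) e)) (t 12 3 (u 8 20 (k v (k v (k v (k (c 24 4099 r (u 16 7 (k v (k v (k v r))))) (k (c 16 4099 r (u 24 7 (k v (k v (k v r))))) r)))))))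
 .z .z) (.s 0x1d4eaba004afa801544510 4091 (n false (n false (n false (z 161) (z 12)) e) (n false (n false (n false (n false e e) (n false e e)) (n false (n false e e) (n false e e))) e)) (t 12 3 (u 8 2 (k v (k (c 24 4099 r (u 16 9 (k v (k (t 48 1 (u 32 0 (k v (k (c 96 4099 r (u 64 8 (k v (k v r)))) r)))) r)))) r))))
 .z .z)) (.s 0x1d4faac02a22888aa22888 4088 (n false (n false (n false (z 67) (n false (n false (n false e e) (n false e e)) (n false (n false e e) (n false e e)))) (n false e e)) (n false (n false (n false (n false e e) (n false e e)) (n false (n false e e) (n false e e))) (n false e e))) (u 8 117 (k v (k v (k v (k v (k (t 24 2 (u 16 1 (k v (k v r)))) (k (c 16 4101 r (c 3 4099 v (u 24 0 (k v (k v r))))) (k (c 24 4099 r (c 3 4099 v r)) (k (c 3 4099 v r) (k (c 24 4099 r (c 3 4099 v (u 16 0 (k (u 32 0 (k v (k v r))) r)))) (k (t 16 1 (u 24 1 (k v (k v r)))) (k (t 24 2 r) (k (c 24 4102 r (c 3 4099 v (u 16 1 (k v (k v r))))) (k (c 24 4100 r (c 3 4099 v r)) (k (t 24 1 r) (k (t 24 2 r) (k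 (t 24 1 r) r)))))))))))))))))
 (.s 0x1d4eea8025fdc015114450 4086 (n false (n false (n false (z 46) (z 5)) (n false (n false (n false e e) (n false e e)) (n false (n false e e) (n false e e)))) (n false (n false e e) e)) (t 12 1 (u 8 21 (k v (k v (k (c 24 4099 r (u 16 0 (k v (k v r)))) (k (u 16 1 (k v (k v r))) (k (c 12 4099 v (u 16 61 (k v (k v (k v r))))) (k (c 24 4097 r (u 16 1 (k v (k v r)))) r))))))))
 .z .z) .z))) (.s 0x1d52afa0085c23a77dc010 4080 (n false (n false (n false (n false (z 24) (n false e e)) e) (n false (n true (n false e e) e) (n false e e))) (n true (n false (z 45) (n false e e)) e)) (u 9 0 (k (u 16 0 (k (t 32 3 (t 48 1 v)) r)) (k (u 16 0 (k (t 32 3 (t 48 1 v)) r)) r)))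
 (.s 0x1d4fef8027754014bbb800 4091 (n false (n false (n false (z 55) (z 5)) (n false (z 42) e)) e) (t 12 1 (u 8 2 (k (u 10 1 (k v (k v r))) (k (t 24 2 (c 12 4099 v (u 16 5 (k (u 10 1 (k v (k v r))) (k (u 10 0 (k v (k v r))) (k (u 10 1 (k (c 4 4082 (u 8 1 (k v (k v r))) v) (k (c 4 4082 (u 8 1 (k v (k v r))) v) r))) r)))))) r))))
 (.s 0x1d4fab8013bae00aa22888 4094 (n false (n false (n false (z 35) e) (z 37)) (n false (n false (n false (n false e e) (n false e e)) (n false (n false e e) (n false e e))) (n false e e))) (u 6 42 (k r (k (c 8 4096 r v) (k (c 8 4096 r (c 3 4099 v (u 10 0 (k (t 18 3 (t 26 1 v)) r)))) (k (c 3 4099 v r) (k (c 8 4096 r (u 10 3 (k v (k v r)))) r))))))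
 (.s 0x1d4fab8012bbe00e577c00 4091 (n false (n false (z 52) (n false (z 35) e)) (n true (z 52) e)) (u 10 0 (k r (k (c 4 4097 r r) (k (t 26 1 (u 5 343 (k r (k (c 10 4096 (c 2 4098 r v) r) (k r (k (c 10 4096 (c 2 4098 r v) r) (k (c 10 4096 (c 2 4098 r v) r) (k r r)))))))) r))))
 .z .z) (.s 0x1d4fef8012bbe00aa22888 4091 (n false (n false (z 52) (n false (z 55) e)) (n false (n false (n false (n false e e) (n false e e)) (n false (n false e e) (n false e e))) (n false e e))) (u 10 4 (k (t 26 1 (u 18 21 (k (c 4 4097 r v) (k (u 4 26 (k v (k v (k v r)))) (k (t 4 1 v) (k (t 4 1 (u 34 4 (k v (k (t 98 1 (u 66 2 (k v (k v r)))) r)))) (k (t 4 1 r) r))))))) (k (c 6 4091 (t 6 2 r) (c 4 4097 r v)) r)))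
 .z .z)) (.s 0x1d52afa00852afa008ee10 4085 (n false (n false (n false (n false (z 24) (n false e e)) e) (n false (z 24) (n false e e))) (n true (n false (n true (n false e e) e) (n false e e)) e)) (u 10 0 (k (t 18 3 (t 26 1 (u 16 0 (k (t 32 3 (t 48 1 v)) r)))) r))
 (.s 0x1d4ffaa004ebfc01544510 4091 (n false (n false (n false (z 143) (z 121)) e) (n false (n false (n false (n false e e) (n false e e)) (n false (n false e e) (n false e e))) e)) (t 12 2 (u 8 5 (k v (k (c 16 4099 r (u 24 0 (k (t 40 3 (t 56 1 v)) r))) (k (c 16 4098 r (u 24 9 (k v (k v (k (u 40 87 (k v (k v (k v (k v r))))) r))))) (k (c 24 4097 r r) (k (c 24 4096 r r) r)))))))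
 .z .z) .z)) (.s 0x1d54451113bae00eba21c0 4079 (n false (n true (n false (n false (n true (n false (n false e e) (n false e e)) e) (n true (n false e e) e)) e) e) (n false (z 37) (n false (n false (n false (n false e e) (n false e e)) (n false (n false e e) (n false e e))) (n false e e)))) (c 24 4094 v (u 5 1 (k v (k v r))))
 (.s 0x1d54451112bfa801df7080 4082 (n false (n false (z 156) (n false (n false (n false (n false e e) (n false e e)) (n false (n false e e) (n false e e))) (n false e e))) (n true (n false (n true (n true (n false (n true (n false e e) e) (n false e e)) e) e) e) e)) (u 4 2 (k v (k (c 12 4099 r (u 8 1 (k v (k v r)))) (k (c 8 4095 r (u 12 0 (k v (k v r)))) r))))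
 (.s 0x1d52bfa801c1d511444288 4076 (n false (n false (n false (n false (z 156) (n true (n false e e) e)) e) (n true (n false (n false (n false (n false e e) (n false e e)) (n false (n false e e) (n false e e))) (n false e e)) e)) (n false (n false e e) (n false e e))) (u 16 1 (k v (k (c 48 4099 r (u 32 1 (k v (k v r)))) (k (c 32 4098 r (u 48 1 (k v (k v r)))) (k (c 32 4097 r (c 4 4083 r v)) (k (c 32 4099 r (u 48 1 (k v (k v r)))) (k (c 32 4095 r (c 4 4080 r v)) r)))))))
 .z .z) (.s 0x1d54451112eee00a7d5600 4094 (n false (n false (z 42) (n false (n false (n false (n false e e) (n false e e)) (n false (n false e e) (n false e e))) (n false e e))) (n false (z 67) e)) (u 4 53 (k r (k (c 10 4101 v r) (k (t 5 2 v) (k r (k r (k r r)))))))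
 .z .z)) (.s 0x1d54451113eee00a5fd400 4096 (n false (n false (z 43) (n false (n false (n false (n false e e) (n false e e)) (n false (n false e e) (n false e e))) (n false e e))) (n false (z 14) e)) (u 4 12 (k r (k (u 5 0 (k v (k v r))) (k (c 6 4099 v (u 5 0 (k v (k v r)))) (k (c 6 4099 v (u 5 0 (k v (k v r)))) (k (u 8 2 (k r (k (u 5 0 (k v (k v r))) r))) (k (c 6 4099 v (u 8 0 (k (u 5 0 (k (u 16 0 (k v (k v r))) (k (u 16 0 (k v (k v r))) r))) r))) (k (c 6 4099 v (u 5 0 (k r (k r r)))) (k (c 6 4099 v (u 5 0 (k r (k r r)))) r)))))))))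
 (.s 0x1d54451113eee009555400 4096 (n false (z 128) (n false (z 43) (n false (n false (n false (n false e e) (n false e e)) (n false (n false e e) (n false e e))) (n false e e)))) (u 2 18 (k r (k r (k (c 4 4097 r r) (k (c 4 4096 r r) (k (c 4 4095 r r) (k (c 4 4095 r (u 6 0 (k r (k r r)))) (k (t 5 2 (c 6 4097 r (c 11 4101 v r))) (k (c 6 4097 r (u 4 1 (k r (k r r)))) (k (c 6 4097 r (t 5 2 (c 11 4101 v r))) (k (c 6 4095 r (u 4 1 (k r (k r r)))) (k (c 4 4095 r r) (k (c 6 4097 r (t 5 2 (c 11 4101 v r))) (k (c 4 4095 r (u 6 1 (k r (k r r)))) (k (c 6 4097 r (t 5 2 (c 11 4101 v r))) r)))))))))))))))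
 .z .z) .z))))

set_option maxRecDepth 100000 in
def N201 : NT :=
(.s 0x1d5d51144422257f5003a0 4085 (n false (n false (z 156) (n false (n false (n true (n false (n false (n false (n false e e) (n false e e)) (n false (n false e e) (n false e e))) (n false e e)) e) (n false e e)) (n false e e))) (n true (n false (n false e e) e) e)) (u 4 8 (k v (k v (k (c 12 4099 r (u 8 1 (k v (k v r)))) (k (c 8 4098 r (u 12 1 (k v (k v r)))) (k (c 8 4097 r (u 12 1 (k v (k v r)))) (k (c 8 4099 r (u 12 1 (k v (k v r)))) r)))))))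
 (.s 0x1d5445111dc21d4bfb8010 4077 (n false (n true (n false (n false (z 46) e) (n false e e)) e) (n false (n true (n false (n true (n false e e) e) (n false e e)) e) (n false (n false (n false (n false e e) (n false e e)) (n false (n false e e) (n false e e))) (n false e e)))) (u 16 30 (k v (k v (k v (k r (k (c 7 4099 v (u 32 1 (k v (k v r)))) (k (c 48 4097 r r) r)))))))
 (.s 0x1d544511154451113eab00 4101 (n false (z 67) (n false (n false (n false (n false (n false e e) (n false e e)) (n false (n false e e) (n false e e))) (n false e e)) (n false (n false (n false (n false e e) (n false e e)) (n false (n false e e) (n false e e))) (n false e e)))) (u 2 9 (k v (k v (k v (k v (k v (k (t 6 1 (u 4 12 (k v (k v (k v r))))) (k (c 4 4101 r (u 6 0 (k v (k v r)))) (k r (k (c 3 4101 v r) (k (c 4 4099 r (u 6 0 (k v (k v r)))) (k (c 3 4101 v (t 6 2 (u 4 0 (k r r)))) (k (c 6 4101 r (u 4 1 (k v (k v r)))) (k (t 6 1 (u 4 8 (k v (k v (k v (k (c 12 4099 r (u 8 1 (k v (k v r)))) r)))))) (k (c 6 4102 r (u 4 1 (k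 v (k v r)))) (k (c 4 4101 r (u 6 1 (k v (k v r)))) (k (t 6 1 (u 4 3 (k v (k v (k (c 12 4099 r (u 8 1 (k v (k v r)))) r))))) (k (c 4 4101 r (u 6 1 (k v (k v r)))) r))))))))))))))))))
 (.s 0x1d544511154451112baf00 4095 (n false (z 100) (n false (n false (n false (n false (n false e e) (n false e e)) (n false (n false e e) (n false e e))) (n false e e)) (n false (n false (n false (n false e e) (n false e e)) (n false (n false e e) (n false e e))) (n false e e)))) (u 2 0 (k r (k r (k (u 4 1 (k r (k (c 12 4097 r (u 8 0 (k r (k r r)))) r))) (k (c 6 4097 r r) (k r (k r r)))))))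
 (.s 0x1d544511154451112abf00 4094 (n false (z 112) (n false (n false (n false (n false (n false e e) (n false e e)) (n false (n false e e) (n false e e))) (n false e e)) (n false (n false (n false (n false e e) (n false e e)) (n false (n false e e) (n false e e))) (n false e e)))) (u 2 1 (k (c 6 4099 r (u 4 1 (k v (k (t 12 2 r) (k (c 2 4076 (u 4 0 (k r r)) v) r))))) (k (u 4 1 (k v (k (t 12 1 r) (k (t 8 2 r) (k (t 8 1 r) r))))) r)))
 .z .z) (.s 0x1d544511154451112eef00 4094 (n false (z 106) (n false (n false (n false (n false (n false e e) (n false e e)) (n false (n false e e) (n false e e))) (n false e e)) (n false (n false (n false (n false e e) (n false e e)) (n false (n false e e) (n false e e))) (n false e e)))) (u 2 5 (k v (k (t 6 2 r) (k (t 6 2 r) (k (t 6 1 r) (k (t 6 1 r) (k (t 4 1 r) (k (t 6 3 r) (k (t 6 1 r) (k (t 6 3 r) r))))))))))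
 .z .z)) (.s 0x1d54451115c21dcafea000 4086 (n false (n true (n false (n true (z 156) e) e) e) (n false (n false (n false (n true (n false e e) e) (n false e e)) e) (n false (n false (n false (n false e e) (n false e e)) (n false (n false e e) (n false e e))) (n false e e)))) (u 16 8 (k v (k v (k (c 48 4099 r (u 32 1 (k v (k v r)))) (k (c 32 4098 r (u 48 1 (k v (k v r)))) (k (c 32 4097 r (u 48 1 (k v (k v r)))) (k (c 32 4099 r (u 48 1 (k v (k v r)))) r)))))))
 (.s 0x1d544511154451113fbf00 4094 (n false (z 119) (n false (n false (n false (n false (n false e e) (n false e e)) (n false (n false e e) (n false e e))) (n false e e)) (n false (n false (n false (n false e e) (n false e e)) (n false (n false e e) (n false e e))) (n false e e)))) (u 2 1 (k r (k (t 4 1 (u 6 0 (k (c 14 4101 r (t 10 3 v)) r))) (k r (k r (k r (k (u 6 1 (k r (k (c 14 4097 r (u 10 0 (k r (k r r)))) r))) (k (c 3 4101 v (t 6 2 (u 4 0 (k r r)))) (k r (k r (k r (k r (k r (k r r))))))))))))))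
 .z .z) .z)) (.s 0x1d55d51144421095df0050 4072 (n false (n false (z 52) (n false (n false (n false (n false (n true (n false (n false (n false (n false e e) (n false e e)) (n false (n false e e) (n false e e))) (n false e e)) e) (n false e e)) e) (n false e e)) e)) (n false (n false e e) e)) (u 4 136 (k v (k v (k v (k v r)))))
 (.s 0x1d5445111dc21dceeb8010 4079 (n false (n true (n false (n true (z 37) e) (n false e e)) e) (n false (n true (n false (n true (n false e e) e) (n false e e)) e) (n false (n false (n false (n false e e) (n false e e)) (n false (n false e e) (n false e e))) (n false e e)))) (u 16 40 (k v (k v (k v (k (c 7 4099 v (u 32 0 (k v (k v (k (t 96 1 (u 64 0 (k (t 128 3 (t 192 1 v)) r))) r))))) r)))))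
 (.s 0x1d5445111dc21dcafea000 4082 (n false (n true (n false (n true (z 156) e) e) e) (n false (n true (n false (n true (n false e e) e) (n false e e)) e) (n false (n false (n false (n false e e) (n false e e)) (n false (n false e e) (n false e e))) (n false e e)))) (u 16 8 (k v (k v (k (c 48 4099 r (u 32 1 (k v (k v r)))) (k (c 32 4098 r (u 48 1 (k v (k v r)))) (k (c 32 4097 r (u 48 1 (k v (k v r)))) (k (c 32 4099 r (u 48 1 (k v (k v r)))) r)))))))
 .z .z) (.s 0x1d554451113eee00e1c3a0 4078 (n false (n false (n false (n false (z 43) (n false (n false (n false (n false e e) (n false e e)) (n false (n false e e) (n false e e))) (n false e e))) (n true (n false e e) e)) (n true (n false e e) e)) (n true (n false (n false e e) e) e)) (u 16 0 (k v (k r (k (c 48 4099 r (u 32 0 (k (u 64 0 (k v (k v r))) r))) (k r (k (c 2 4070 r v) (k (u 32 0 (k (u 64 0 (k v (k v r))) r)) (k r (k (u 32 4 (k v (k (c 96 4099 r (u 64 1 (k v (k v r)))) r))) r)))))))))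
 .z .z)) (.s 0x1d5ceeb801c3870ba88a20 4067 (n false (n false (n false (n false (n true (z 37) e) (n true (n false e e) e)) (n true (n false e e) e)) (n true (n false e e) e)) (n false (n true (n false (n false (n false e e) (n false e e)) (n false (n false e e) (n false e e))) e) e)) (u 32 0 (k v (k (c 32 4101 (u 2 0 (k (t 4 3 (t 6 1 v)) r)) v) (k (u 64 0 (k (t 128 3 (t 192 1 v)) r)) (k (c 32 4101 r v) (k (u 64 10 (k v (k v (k v (k (t 192 1 (u 128 0 (k (t 256 3 (t 384 1 v)) r))) r))))) (k (c 32 4095 r v) r)))))))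
 (.s 0x1d5cebfc01c3870ba88a20 4067 (n false (n false (n false (n false (n true (z 121) e) (n true (n false e e) e)) (n true (n false e e) e)) (n true (n false e e) e)) (n false (n true (n false (n false (n false e e) (n false e e)) (n false (n false e e) (n false e e))) e) e)) (u 32 1 (k v (k (c 96 4099 r (u 64 1 (k v (k v r)))) (k (c 64 4097 r (u 96 1 (k v (k v r)))) (k (c 64 4095 r (u 96 0 (k v (k v r)))) (k (c 64 4095 r (u 96 0 (k v (k v r)))) r))))))
 .z .z) .z))) (.s 0x1d5d51144422888e7df600 4095 (n false (n true (z 91) e) (n false (n false (n false (n true (n false (n false (n false (n false e e) (n false e e)) (n false (n false e e) (n false e e))) (n false e e)) e) (n false e e)) (n false (n false e e) (n false e e))) (n false e e))) (u 4 0 (k v (k v (k (u 8 1 (k v (k v r))) (k (c 8 4097 r (u 12 0 (k v (k v r)))) (k (c 8 4095 r (u 12 0 (k v (k v r)))) r))))))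
 (.s 0x1d5d51144422888e5fdc00 4096 (n false (n true (z 46) e) (n false (n false (n false (n true (n false (n false (n false (n false e e) (n false e e)) (n false (n false e e) (n false e e))) (n false e e)) e) (n false e e)) (n false (n false e e) (n false e e))) (n false e e))) (u 4 1 (k v (k (u 8 1 (k v (k v r))) (k (c 12 4099 r (u 8 0 (k v (k v r)))) (k (u 8 1 (k v (k v r))) (k (c 12 4097 r (u 8 1 (k v (k v r)))) (k (c 8 4095 r (u 12 1 (k v (k v r)))) r)))))))
 (.s 0x1d5d51144422888a7f7e00 4094 (n false (n false (z 119) e) (n false (n false (n false (n true (n false (n false (n false (n false e e) (n false e e)) (n false (n false e e) (n false e e))) (n false e e)) e) (n false e e)) (n false (n false e e) (n false e e))) (n false e e))) (u 4 35 (k v (k v (k (c 12 4101 r (c 9 4108 v r)) (k (c 12 4099 r (c 9 4108 v r)) (k (c 12 4097 r (c 9 4108 v r)) (k (c 12 4096 r (c 3 4096 v r)) (k (c 8 4098 r (c 9 4108 v r)) (k (c 8 4101 r (c 9 4108 v r)) (k (c 8 4099 r (c 9 4108 v r)) (k (c 8 4101 r (c 9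 4108 v r)) r)))))))))))
 (.s 0x1d5d51144422888a55fe00 4094 (n false (n false (z 120) e) (n false (n false (n false (n true (n false (n false (n false (n false e e) (n false e e)) (n false (n false e e) (n false e e))) (n false e e)) e) (n false e e)) (n false (n false e e) (n false e e))) (n false e e))) (u 4 17 (k v (k v (k v (k (c 12 4101 r (u 8 5 (k v (k v r)))) (k (c 8 4099 r r) (k (c 12 4096 r (c 3 4096 v r)) (k (c 12 4096 r (c 3 4096 v r)) (k (c 12 4099 r r) (k (c 8 4098 r (c 3 4096 v r)) (k (c 8 4101 r r) (k (c 12 4099 r r) (k (c 8 4101 r r) r)))))))))))))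
 .z .z) (.s 0x1d5d51144422888e57fe00 4094 (n false (n true (z 124) e) (n false (n false (n false (n true (n false (n false (n false (n false e e) (n false e e)) (n false (n false e e) (n false e e))) (n false e e)) e) (n false e e)) (n false (n false e e) (n false e e))) (n false e e))) (u 4 1 (k v (k (c 12 4097 r (u 8 1 (k v (k v r)))) (k (c 12 4096 r (u 8 1 (k v (k v r)))) (k (c 8 4098 r (u 12 0 (k v (k v r)))) (k (c 12 4096 r (u 8 1 (k v (k v r)))) (k (c 12 4097 r (u 8 1 (k v (k v r)))) (k (c 12 4097 r (u 8 1 (k v (k v r)))) (k (c 12 4096 r (u 8 1 (k v (k v r)))) (k (c 12 4099 r (u 8 1 (k v (k v r)))) (k (c 8 4097 r (u 12 1 (k v (k v r)))) r)))))))))))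
 .z .z)) (.s 0x1d5d51144422888e775c00 4096 (n false (n true (z 37) e) (n false (n false (n false (n true (n false (n false (n false (n false e e) (n false e e)) (n false (n false e e) (n false e e))) (n false e e)) e) (n false e e)) (n false (n false e e) (n false e e))) (n false e e))) (u 4 0 (k v (k (u 8 0 (k (t 16 3 (t 24 1 v)) r)) (k (u 8 0 (k (t 16 3 (t 24 1 v)) r)) (k (u 8 0 (k v (k v (k (t 24 1 (u 16 0 (k (t 32 3 (t 48 1 v)) r))) r)))) (k (u 8 0 (k v (k v (k (t 24 1 (u 16 0 (k (t 32 3 (t 48 1 v)) r))) r)))) (k (c 2 4088 r v) r)))))))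
 (.s 0x1d5d51144422888e75fe00 4096 (n false (n true (z 121) e) (n false (n false (n false (n true (n false (n false (n false (n false e e) (n false e e)) (n false (n false e e) (n false e e))) (n false e e)) e) (n false e e)) (n false (n false e e) (n false e e))) (n false e e))) (u 4 1 (k v (k (c 12 4099 r (u 8 1 (k v (k v r)))) (k (c 8 4097 r (u 12 1 (k v (k v r)))) (k (c 8 4095 r (u 12 0 (k v (k v r)))) (k (c 8 4095 r (u 12 0 (k v (k v r)))) r))))))
 .z .z) .z)) (.s 0x1d75445110a7fd600e1708 4076 (n false (n false (n false (n false (z 79) e) (n true (n false (n false (n false (n false e e) (n false e e)) (n false (n false e e) (n false e e))) (n false e e)) e)) (n true (n false e e) e)) (n false (n true (n false e e) e) (n false e e))) (c 20 4099 v (c 6 4094 v (u 16 1 (k v (k (u 32 24 (k v (k v (k v (k v r))))) (k (c 48 4096 r (u 32 1 (k v (k v r)))) r))))))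
 (.s 0x1d75445110a75fe00e1708 4074 (n false (n false (n false (n false (z 121) e) (n true (n false (n false (n false (n false e e) (n false e e)) (n false (n false e e) (n false e e))) (n false e e)) e)) (n true (n false e e) e)) (n false (n true (n false e e) e) (n false e e))) (c 20 4099 v (c 6 4094 v (u 16 1 (k v (k (c 48 4099 r (u 32 1 (k v (k v r)))) (k (c 32 4097 r (u 48 1 (k v (k v r)))) (k (c 32 4095 r (u 48 0 (k v (k v r)))) (k (c 32 4095 r (u 48 0 (k v (k v r)))) r))))))))
 (.s 0x1d5d51144422888e7f7e00 4096 (n false (n true (z 119) e) (n false (n false (n false (n true (n false (n false (n false (n false e e) (n false e e)) (n false (n false e e) (n false e e))) (n false e e)) e) (n false e e)) (n false (n false e e) (n false e e))) (n false e e))) (u 4 24 (k v (k (c 12 4101 r r) (k (c 12 4099 r r) (k (c 2 4088 (t 6 2 (u 4 0 (k r r))) v) (k (c 8 4101 r r) (k (c 8 4101 r r) (k (c 8 4099 r r) (k (c 8 4101 r r) (k (c 8 4101 r r) r))))))))))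
 .z .z) (.s 0x1d75445110a775c00e1708 4074 (n false (n false (n false (n false (z 37) e) (n true (n false (n false (n false (n false e e) (n false e e)) (n false (n false e e) (n false e e))) (n false e e)) e)) (n true (n false e e) e)) (n false (n true (n false e e) e) (n false e e))) (u 16 50 (k v (k v (k v (k (u 32 28 (k v (k v (k v r)))) (k (c 6 4094 v (u 32 3 (k v (k v r)))) r))))))
 .z .z)) (.s 0x1d75445110e1c3a5ddc010 4080 (n false (n false (n false (n true (n false (n false (n false (n false e e) (n false e e)) (n false (n false e e) (n false e e))) (n false e e)) e) (n true (n false e e) e)) (n true (n false e e) e)) (n true (n false (z 42) (n false e e)) e)) (c 16 4099 v (c 6 4094 v r))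
 (.s 0x1d75445110e1c297f70070 4079 (n false (n false (n false (n true (n false (n false (n false (n false e e) (n false e e)) (n false (n false e e) (n false e e))) (n false e e)) e) (n true (n false e e) e)) (n true (n false e e) e)) (n false (z 46) (n true (n false e e) e))) (c 8 4110 v (c 12 4094 v r))
 .z .z) .z))))

set_option maxRecDepth 100000 in
def N202 : NT :=
(.s 0x1dcbfa80154451112bbe00 4080 (n false (n false (n true (z 14) e) (n false (n false (n false (n false e e) (n false e e)) (n false (n false e e) (n false e e))) (n false e e))) (z 52)) (c 10 4101 v (u 8 0 (k r (k r r))))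
 (.s 0x1dcafea002a88a223fb840 4085 (n false (n false (n true (z 156) e) (n false (n false (n false (n false e e) (n false e e)) (n false (n false e e) (n false e e))) (n false e e))) (n true (n true (n true (n false (n true (n false e e) e) (n false e e)) e) e) e)) (u 8 8 (k v (k v (k (c 24 4099 r (u 16 1 (k v (k v r)))) (k (c 16 4098 r (u 24 1 (k v (k v r)))) (k (c 16 4097 r (u 24 1 (k v (k v r)))) (k (c 16 4099 r (u 24 1 (k v (k v r)))) r)))))))
 (.s 0x1dcaef8015445111dd7080 4082 (n false (n false (n true (z 52) e) (n false (n false (n false (n false e e) (n false e e)) (n false (n false e e) (n false e e))) (n false e e))) (n true (n false (n true (n false (n false (n true (n false e e) e) (n false e e)) e) e) e) e)) (u 8 414 (k v (k v (k v (k v (k v r))))))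
 (.s 0x1d7cbae800e0baa2288870 4073 (n false (n false (n false (n true (n true (z 18) e) e) (n true (n false e e) e)) e) (n false (n true (n false (n false (n false (n false e e) (n false e e)) (n false (n false e e) (n false e e))) (n false e e)) e) (n true (n false e e) e))) (c 9 4099 v (u 32 0 (k (u 64 0 (k v (k v r))) r)))
 (.s 0x1d75445110e1c3e95f7800 4083 (n false (n true (n true (n false (z 108) e) e) e) (n false (n false (n true (n false (n false (n false (n false e e) (n false e e)) (n false (n false e e) (n false e e))) (n false e e)) e) (n true (n false e e) e)) (n true (n false e e) e))) (u 16 0 (k (t 48 2 (c 17 4099 v (c 7 4094 v (u 32 0 (k (t 96 1 (u 64 24 (k v (k r (k (c 192 4099 r (u 128 0 (k (u 256 0 (k v (k v r))) r))) (k r (k (c 96 4099 v (c 8 4069 r v)) (k (c 96 4099 v (u 128 0 (k (u 256 0 (k v (k v r))) r))) (k r (k (u 128 4 (k v (k (c 384 4099 r (u 256 1 (k v (k v r)))) r))) r)))))))))) r))))) r))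
 .z .z) (.s 0x1dcaef8013eab00aa22888 4091 (n false (n false (z 67) (n true (z 52) e)) (n false (n false (n false (n false e e) (n false e e)) (n false (n false e e) (n false e e))) (n false e e))) (u 10 184 (k r (k r (k r (k (t 4 1 v) (k (c 10 4094 v (c 3 4099 v r)) (k r (k (t 4 1 r) r))))))))
 .z .z)) (.s 0x1dcafea002a88a223eb840 4087 (n false (n false (n true (z 156) e) (n false (n false (n false (n false e e) (n false e e)) (n false (n false e e) (n false e e))) (n false e e))) (n true (n true (n false (n false (n true (n false e e) e) (n false e e)) e) e) e)) (u 8 32 (k v (k v (k v (k (c 24 4099 r (u 16 1 (k v (k v r)))) (k (c 16 4099 r (u 24 1 (k v (k v r)))) r))))))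
 (.s 0x1dcaef8015445111df7080 4080 (n false (n false (n true (z 52) e) (n false (n false (n false (n false e e) (n false e e)) (n false (n false e e) (n false e e))) (n false e e))) (n true (n false (n true (n true (n false (n true (n false e e) e) (n false e e)) e) e) e) e)) (u 8 195 (k v (k v (k v (k v (k v (k v r)))))))
 .z .z) .z)) (.s 0x1dcbbb8015445111dd7080 4084 (n false (n false (n true (z 42) e) (n false (n false (n false (n false e e) (n false e e)) (n false (n false e e) (n false e e))) (n false e e))) (n true (n false (n true (n false (n false (n true (n false e e) e) (n false e e)) e) e) e) e)) (c 3 4088 v (c 10 4101 v r))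
 (.s 0x1dcbbb8013aff00aa22888 4091 (n false (n false (z 121) (n true (z 42) e)) (n false (n false (n false (n false e e) (n false e e)) (n false (n false e e) (n false e e))) (n false e e))) (u 4 46 (k (c 3 4099 v r) (k (u 10 1 (k v (k v r))) (k (u 10 1 (k v (k v r))) (k (c 12 4099 r r) (k (c 8 4097 r r) (k (c 8 4095 r r) (k (c 8 4095 r r) r))))))))
 (.s 0x1dcbae80154451113efb00 4090 (n false (z 91) (n false (n true (z 18) e) (n false (n false (n false (n false e e) (n false e e)) (n false (n false e e) (n false e e))) (n false e e)))) (u 9 0 (k (u 2 14 (k (u 17 0 (k v (k v r))) (k (u 17 5 (k v (k v (k v r)))) (k (u 17 0 (k v (k v r))) (k (u 17 0 (k (u 4 1 (k v (k v r))) (k (u 4 1 (k v (k v r))) r))) (k (c 4 4097 r r) (k (c 4 4097 r r) (k (c 4 4095 r r) r)))))))) r))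
 .z .z) (.s 0x1dcbbb80154451113bae00 4091 (n false (n false (n true (z 42) e) (n false (n false (n false (n false e e) (n false e e)) (n false (n false e e) (n false e e))) (n false e e))) (z 37)) (u 3 0 (k r (k (c 3 4101 (u 2 0 (k (t 4 3 (t 6 1 v)) r)) (c 10 4101 v r)) (k r (k (c 3 4101 r (c 10 4101 v r)) (k (u 5 8 (k r (k (t 13 1 r) r))) (k (c 3 4095 r (c 10 4101 v r)) r)))))))
 .z .z)) (.s 0x1dcbbb8015445111fd4440 4090 (n false (n false (n true (z 42) e) (n false (n false (n false (n false e e) (n false e e)) (n false (n false e e) (n false e e))) (n false e e))) (n true (n true (n true (n false (n false (n false e e) (n false e e)) (n false e e)) e) e) e)) (c 3 4088 v (c 10 4101 v r))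
 (.s 0x1dcbbb8015445111df7080 4083 (n false (n false (n true (z 42) e) (n false (n false (n false (n false e e) (n false e e)) (n false (n false e e) (n false e e))) (n false e e))) (n true (n false (n true (n true (n false (n true (n false e e) e) (n false e e)) e) e) e) e)) (c 3 4088 v (c 10 4101 v r))
 .z .z) .z))) (.s 0x1dceeec013fbb00e7d5600 4095 (n false (n false (n true (z 85) e) (z 87)) (n true (z 67) e)) (u 8 33 (k (u 6 24 (k r (k r (k (u 5 0 (k v (k v r))) r)))) (k (c 4 4094 v r) (k r (k (c 24 4099 r r) (k r (k (c 16 4099 r r) r)))))))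
 (.s 0x1dceeb80154451112bbe00 4096 (n false (n false (n true (z 37) e) (n false (n false (n false (n false e e) (n false e e)) (n false (n false e e) (n false e e))) (n false e e))) (z 52)) (u 8 1 (k (c 3 4097 r v) (k (u 3 150 (k v (k v (k v (k v (k v (k (t 7 1 (u 5 0 (k v (k v r)))) r))))))) r)))
 (.s 0x1dcbfb80154451113efb00 4096 (n false (z 91) (n false (n true (z 46) e) (n false (n false (n false (n false e e) (n false e e)) (n false (n false e e) (n false e e))) (n false e e)))) (c 7 4099 v (u 9 2 (k r (k (c 25 4099 r (u 17 0 (k r (k r r)))) (k (u 17 1 (k r (k r r))) (k (u 2 4 (k (u 17 1 (k v (k v r))) (k (u 17 1 (k v (k v r))) (k (u 4 1 (k (u 17 1 (k v (k v r))) (k (u 17 1 (k v (k v r))) r))) (k (c 4 4097 r r) (k (c 4 4097 r r) (k (c 4 4096 r r) (k (c 4 4095 r r) r)))))))) (k (c 25 4097 r (u 17 1 (k r (k r r)))) (k (c 17 4095 r (u 25 1 (k r (k r r)))) r))))))))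
 (.s 0x1dcbfb80154451112bbe00 4096 (n false (n false (n true (z 46) e) (n false (n false (n false (n false e e) (n false e e)) (n false (n false e e) (n false e e))) (n false e e))) (z 52)) (u 8 20 (k (c 10 4101 v r) (k (c 3 4097 r v) (k (c 10 4101 v r) (k (c 24 4099 r (u 16 0 (k r (k r r)))) (k (c 2 4097 (u 8 1 (k v (k v r))) r) (k (u 16 13 (k (c 10 4101 v r) (k (c 2 4087 v r) r))) r)))))))
 .z .z) (.s 0x1dcebfc0154451112ffe00 4096 (n false (n false (n true (z 121) e) (n false (n false (n false (n false e e) (n false e e)) (n false (n false e e) (n false e e))) (n false e e))) (z 62)) (u 3 4 (k r (k r (k (c 6 4099 v (u 8 2 (k v (k v (k (c 24 4099 r (u 16 1 (k v (k v r)))) (k (c 16 4095 r (u 24 0 (k v (k v r)))) (k (c 16 4095 r (u 24 0 (k v (k v r)))) r))))))) (k (t 7 1 (u 8 7 (k (t 5 1 v) (k (u 5 41 (k v (k v (k (t 13 1 (u 9 3 (k v (k v r)))) r)))) (k (c 24 4099 r r) r))))) r)))))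
 .z .z)) (.s 0x1dceeb80154451113efb00 4096 (n false (z 91) (n false (n true (z 37) e) (n false (n false (n false (n false e e) (n false e e)) (n false (n false e e) (n false e e))) (n false e e)))) (u 9 1 (k (c 5 4094 v r) (k (u 2 17 (k v (k v (k v (k (u 4 1 (k v (k v r))) (k (c 4 4097 r (u 6 0 (k v (k v r)))) (k (c 4 4095 r (u 6 0 (k v (k v r)))) r))))))) r)))
 (.s 0x1dceeb80154451112ffe00 4096 (n false (n false (n true (z 37) e) (n false (n false (n false (n false e e) (n false e e)) (n false (n false e e) (n false e e))) (n false e e))) (z 62)) (u 8 1 (k (c 3 4095 r v) (k (u 3 4 (k v (k v (k v (k (t 7 1 (u 5 41 (k v (k v (k (t 13 1 (u 9 0 (k v (k v r)))) r))))) r))))) r)))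
 .z .z) .z)) (.s 0x1dcfeec012bbe00aa22888 4088 (n false (n false (n true (z 87) e) (z 52)) (n false (n false (n false (n false e e) (n false e e)) (n false (n false e e) (n false e e))) (n false e e))) (u 6 101 (k (u 8 1 (k v (k v r))) (k (u 8 1 (k v (k v r))) (k (u 8 1 (k v (k v r))) (k (u 8 1 (k v (k v r))) (k (u 8 1 (k v (k v r))) r))))))
 (.s 0x1dcfab8012bbe00e577c00 4093 (n false (n false (z 52) (n true (z 35) e)) (n true (z 52) e)) (u 10 0 (k r (k (c 6 4094 v r) (k (t 26 1 (u 18 0 (k (t 34 3 (t 50 1 (u 5 342 (k r (k (c 10 4096 v r) (k (c 6 4101 v r) (k (c 6 4101 v r) (k (t 13 1 (u 4 323 (k (u 9 0 (k v (k v r))) (k (c 10 4096 v (t 9 1 v)) (k (c 6 4101 v (t 9 1 v)) (k (u 9 0 (k v (k v r))) r)))))) r)))))))) r))) r))))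
 (.s 0x1dcfab8012bbe00aa22888 4093 (n false (n false (z 52) (n true (z 35) e)) (n false (n false (n false (n false e e) (n false e e)) (n false (n false e e) (n false e e))) (n false e e))) (u 10 2 (k r (k r (k (t 4 1 v) (k (t 26 1 (u 18 0 (k (t 34 3 (t 50 1 (u 4 26 (k v (k v (k v r)))))) r))) r)))))
 .z .z) (.s 0x1dcfeec012aff00aa22888 4091 (n false (n false (z 120) (n true (z 87) e)) (n false (n false (n false (n false e e) (n false e e)) (n false (n false e e) (n false e e))) (n false e e))) (u 10 20 (k r (k (c 3 4099 v r) (k r r))))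
 .z .z)) (.s 0x1dcfeec013bae00aa22888 4091 (n false (n false (n true (z 87) e) (z 37)) (n false (n false (n false (n false e e) (n false e e)) (n false (n false e e) (n false e e))) (n false e e))) (u 6 23 (k (u 8 1 (k v (k v r))) (k (u 8 1 (k v (k v r))) (k (u 10 0 (k (t 18 3 (t 26 1 (u 8 1 (k v (k v r))))) r)) (k (u 10 0 (k (u 8 1 (k v (k v r))) (k (u 8 1 (k v (k v r))) (k (t 26 1 (u 18 0 (k (t 34 3 (t 50 1 (u 8 6 (k v (k v (k v r)))))) r))) r)))) (k (u 8 0 (k (u 10 3 (k v (k v r))) (k r r))) r))))))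
 (.s 0x1dcfeec012bbe00e577c00 4088 (n false (n false (z 52) (n true (z 87) e)) (n true (z 52) e)) (u 4 166 (k (u 10 1 (k r (k r r))) (k (c 10 4099 r r) (k (c 5 4097 r (c 2 4082 (u 5 1 (k v (k v r))) v)) (k (c 2 4081 (u 5 1 (k v (k v r))) (c 5 4097 r v)) (k (t 12 1 (u 8 2 (k (u 10 1 (k r (k r r))) (k r r)))) r))))))
 .z .z) .z))))

end Pool.Agent.Helper91.ND1
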