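import Pool.Agent.Helper66.ND.Defs

/-! part of the certificate for the constant 25/48 (generated) -/

namespace Pool.Agent.Helper91.ND1

open Pool.Agent.Helper66.IL
open Pool.Agent.Helper66.ND
open Pool.Agent.Helper66.ND.LT
open Pool.Agent.Helper66.ND.Ct

set_option maxRecDepth 100000 in
def N203 : NT :=
(.s 0x1dd5114443a577c005d108 4076 (n false (n false (n true (n false (z 52) e) e) (n true (n false (n false (n false (n false e e) (n false e e)) (n false (n false e e) (n false e e))) (n false e e)) e)) (n false (n true (n false (n false e e) (n false e e)) e) (n false e e))) (u 16 310 (k v (k v (k v (k v (k v (k v (k v (k (t 48 2 (c 10 4099 v (u 32 0 (k (u 64 4 (k v (k (c 8 4078 (u 16 1 (k v (k v r))) v) r))) r)))) (k (t 48 1 (u 32 0 (k (c 96 4099 r (u 64 2 (k v (k (c 8 4078 (u 16 1 (k v (k v r))) v) r)))) r))) r))))))))))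
 (.s 0x1dd5114442a2288e775c00 4096 (n false (n true (z 37) e) (n false (n true (n false (n false (n false (n false e e) (n false e e)) (n false (n false e e) (n false e e))) (n false e e)) e) (n false (n false (n false e e) (n false e e)) (n false (n false e e) (n false e e))))) (u 4 0 (k v (k (u 8 0 (k (t 16 3 (t 24 1 v)) r)) (k (u 8 0 (k (t 16 3 (t 24 1 v)) r)) (k (u 8 0 (k v (k v (k (t 24 1 (u 16 0 (k (t 32 3 (t 48 1 v)) r))) r)))) (k (u 8 0 (k v (k v (k (t 24 1 (u 16 0 (k (t 32 3 (t 48 1 v)) r))) r)))) (k (c 2 4088 r v) r)))))))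
 (.s 0x1dd5114442a2288e57fe00 4096 (n false (n true (z 124) e) (n false (n true (n false (n false (n false (n false e e) (n false e e)) (n false (n false e e) (n false e e))) (n false e e)) e) (n false (n false (n false e e) (n false e e)) (n false (n false e e) (n false e e))))) (u 4 12 (k v (k v (k (c 12 4097 r (u 8 1 (k v (k v r)))) (k (c 12 4096 r (u 8 1 (k v (k v r)))) (k (c 12 4097 r (u 8 1 (k v (k v r)))) (k (c 12 4097 r (u 8 1 (k v (k v r)))) (k (c 12 4099 r (u 8 1 (k v (k v r)))) (k (c 8 4097 r (u 12 1 (k v (k v r)))) r)))))))))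
 (.s 0x1dd511444257f5002a2288 4085 (n false (n false (z 156) (n true (n false (n false (n false (n false e e) (n false e e)) (n false (n false e e) (n false e e))) (n false e e)) e)) (n false (n false (n false e e) (n false e e)) (n false (n false e e) (n false e e)))) (u 4 1 (k v (k (c 12 4099 r (u 8 1 (k v (k v r)))) (k (c 8 4098 r (u 12 1 (k v (k v r)))) (k (c 8 4097 r (u 12 1 (k v (k v r)))) (k (c 8 4099 r (u 12 1 (k v (k v r)))) (k (c 8 4095 r (u 12 0 (k v (k v r)))) r)))))))
 (.s 0x1dd3bbb0097770022ee108 4078 (n false (n false (n true (n false (z 85) (z 42)) e) (n false e e)) (n false (n true (n false (n true (n false e e) e) (n false e e)) e) (n false e e))) (t 24 1 (u 16 60 (k v (k v (k v (k (c 32 4099 r (u 48 359 (k v (k v (k v (k (t 112 1 (u 80 2 (k v (k v r)))) r)))))) r))))))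
 .z .z) (.s 0x1dd51144429f57002a2288 4085 (n false (n false (n false (z 35) e) (n true (n false (n false (n false (n false e e) (n false e e)) (n false (n false e e) (n false e e))) (n false e e)) e)) (n false (n false (n false e e) (n false e e)) (n false (n false e e) (n false e e)))) (u 8 2 (k v (k v (k v (k (t 24 1 (u 16 0 (k (t 32 3 (t 48 1 v)) r))) r)))))
 .z .z)) (.s 0x1dd5114442a2288e75fe00 4096 (n false (n true (z 121) e) (n false (n true (n false (n false (n false (n false e e) (n false e e)) (n false (n false e e) (n false e e))) (n false e e)) e) (n false (n false (n false e e) (n false e e)) (n false (n false e e) (n false e e))))) (u 4 1 (k v (k (c 12 4099 r (u 8 1 (k v (k v r)))) (k (c 8 4097 r (u 12 1 (k v (k v r)))) (k (c 8 4095 r (u 12 0 (k v (k v r)))) (k (c 8 4095 r (u 12 0 (k v (k v r)))) r))))))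
 (.s 0x1dd5114442a2288e5fdc00 4094 (n false (n true (z 46) e) (n false (n true (n false (n false (n false (n false e e) (n false e e)) (n false (n false e e) (n false e e))) (n false e e)) e) (n false (n false (n false e e) (n false e e)) (n false (n false e e) (n false e e))))) (u 4 1 (k v (k (u 8 1 (k v (k v r))) (k (c 12 4099 r (u 8 0 (k v (k v r)))) (k (u 8 1 (k v (k v r))) (k (c 12 4097 r (u 8 1 (k v (k v r)))) (k (c 8 4095 r (u 12 1 (k v (k v r)))) r)))))))
 .z .z) .z)) (.s 0x1dd511444395df002a2288 4086 (n false (n false (n true (z 52) e) (n true (n false (n false (n false (n false e e) (n false e e)) (n false (n false e e) (n false e e))) (n false e e)) e)) (n false (n false (n false e e) (n false e e)) (n false (n false e e) (n false e e)))) (u 8 179 (k v (k v (k v (k v (k v (k v r)))))))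
 (.s 0x1dd5114442a2288e7f5e00 4097 (n false (n true (z 103) e) (n false (n true (n false (n false (n false (n false e e) (n false e e)) (n false (n false e e) (n false e e))) (n false e e)) e) (n false (n false (n false e e) (n false e e)) (n false (n false e e) (n false e e))))) (u 4 0 (k v (k (t 12 1 (u 8 15 (k v (k v (k v r))))) (k (t 8 2 (u 12 15 (k v (k v (k v r))))) (k (t 8 1 (u 12 15 (k v (k v (k v r))))) r)))))
 (.s 0x1dd5114442a2288e777600 4096 (n false (n true (z 85) e) (n false (n true (n false (n false (n false (n false e e) (n false e e)) (n false (n false e e) (n false e e))) (n false e e)) e) (n false (n false (n false e e) (n false e e)) (n false (n false e e) (n false e e))))) (u 4 10 (k (c 12 4099 r r) (k (c 12 4099 r (c 2 4088 r v)) (k (c 12 4099 r (c 4 4094 r v)) (k (c 4 4097 r v) (k (c 12 4101 r r) (k (c 12 4096 r (c 2 4088 r v)) (k (c 8 4099 r r) r))))))))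
 .z .z) (.s 0x1dd5114442a2288e7f7e00 4096 (n false (n true (z 119) e) (n false (n true (n false (n false (n false (n false e e) (n false e e)) (n false (n false e e) (n false e e))) (n false e e)) e) (n false (n false (n false e e) (n false e e)) (n false (n false e e) (n false e e))))) (u 4 24 (k v (k (c 12 4101 r r) (k (c 12 4099 r r) (k (c 2 4088 (t 6 2 (u 4 0 (k r r))) v) (k (c 8 4101 r r) (k (c 8 4101 r r) (k (c 8 4099 r r) (k (c 8 4101 r r) (k (c 8 4101 r r) r))))))))))
 .z .z)) (.s 0x1dd51144439fd5802ee108 4080 (n false (n false (n true (z 71) e) (n true (n false (n false (n false (n false e e) (n false e e)) (n false (n false e e) (n false e e))) (n false e e)) e)) (n false (n true (n false (n true (n false e e) e) (n false e e)) e) (n false e e))) (u 8 7 (k v (k v (k v (k (c 24 4099 r (u 16 1 (k v (k v r)))) r)))))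
 (.s 0x1dd51144439f57002a2288 4087 (n false (n false (n true (z 35) e) (n true (n false (n false (n false (n false e e) (n false e e)) (n false (n false e e) (n false e e))) (n false e e)) e)) (n false (n false (n false e e) (n false e e)) (n false (n false e e) (n false e e)))) (u 8 2 (k v (k v (k v (k (t 24 1 (u 16 0 (k (t 32 3 (t 48 1 v)) r))) r)))))
 .z .z) .z))) (.s 0x1ddd2bae008707d5114440 4061 (n false (n false (n true (n false (n true (n false (z 36) (n false e e)) e) (n true (n false e e) e)) e) (n true (n true (n false (n false (n false (n false e e) (n false e e)) (n false (n false e e) (n false e e))) (n false e e)) e) e)) e) (u 64 0 (k (u 128 2 (k v (k (c 18 4099 v (u 256 1 (k v (k v r)))) r))) r))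
 (.s 0x1dd5d2abe00955500210e0 4075 (n false (n false (n true (n false (n false (n false (n true (n false (z 48) (z 0)) e) (n false e e)) e) (n false e e)) e) (n true (n false e e) e)) e) (t 384 1 (u 256 14 (k v (k (c 768 4099 r (t 512 3 v)) (k (u 512 4 (k v (k (t 1536 1 (u 1024 4 (k v (k v r)))) r))) (k (u 512 4 (k v (k (t 1536 1 (u 1024 2 (k v (k v r)))) r))) (k (u 512 0 (k (t 1536 1 (u 1024 28 (k v (k v (k v (k (u 2048 13 (k v (k v r))) r)))))) (k (t 1536 1 (u 1024 6 (k v (k v (k v r))))) r))) (k (u 512 8 (k v (k (t 1536 1 (u 1024 33 (k v (k v (k v r))))) r))) r))))))))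
 (.s 0x1dd53bbe004551144423a0 4068 (n false (n false (n true (n false (n false (n false (z 53) e) (n false e e)) (n false (n false (n false (n false e e) (n false e e)) (n false (n false e e) (n false e e))) (n false e e))) e) (n false e e)) (n true (n false (n false e e) e) e)) (c 24 4099 v (u 64 0 (k (t 192 1 (u 128 1 (k v (k (u 256 1 (k v (k v r))) (k (c 384 4099 r (u 256 0 (k v (k v r)))) (k (u 256 1 (k v (k v r))) (k (c 384 4097 r (u 256 1 (k v (k v r)))) (k (c 256 4095 r (u 384 1 (k v (k v r)))) r)))))))) (k (t 192 1 (u 128 4 (k v (k (c 384 4099 r r) (k (c 384 4099 r r) (k (c 384 4099 r (u 256 7 (k v (k v (k v (k (t 768 1 r) r)))))) (k (u 256 37 (k v (k v (k v r)))) (k (c 384 4096 r r) (k (c 256 4099 r r) r))))))))) r))))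
 (.s 0x1dd52efb0095ff80211708 4073 (n false (n false (n true (n false (n false (n false (z 90) (z 124)) e) (n false e e)) e) (n false e e)) (n false (n true (n false e e) e) (n false e e))) (t 64 2 (u 96 5 (k v (k (c 224 4097 r (u 160 1 (k v (k v r)))) (k (c 224 4096 r (u 160 1 (k v (k v r)))) (k (c 160 4098 r (u 224 0 (k v (k v r)))) (k (c 224 4096 r (u 160 1 (k v (k v r)))) (k (c 224 4097 r (u 160 1 (k v (k v r)))) (k (c 224 4097 r (u 160 1 (k v (k v r)))) (k (c 224 4096 r (u 160 1 (k v (k v r)))) (k (c 160 4097 r (u 224 1 (k v (k v r)))) r)))))))))))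
 .z .z) (.s 0x1dd53fbf009f7700382288 4076 (n false (n false (n true (n false (n false (n false (z 43) (z 119)) e) (n true (n false e e) e)) e) (n false e e)) (n false (n false e e) (n false e e))) (t 64 1 (u 96 15 (k v (k v (k (c 224 4101 r r) (k (c 224 4099 r r) (k (c 224 4097 r r) (k (c 160 4102 r (c 4 4069 (u 56 0 (k (t 88 3 (t 120 1 v)) r)) v)) (k (c 160 4098 r r) (k (c 160 4101 r r) (k (c 160 4099 r r) (k (c 160 4101 r r) r))))))))))))
 .z .z)) (.s 0x1ddd2abe00955500382288 4078 (n false (n false (n true (n false (n true (n false (z 48) (z 0)) e) (n true (n false e e) e)) e) (n false e e)) (n false (n false e e) (n false e e))) (t 96 1 (u 64 26 (k v (k v (k (c 192 4099 r (t 128 3 v)) (k (c 4 4085 r v) (k (u 128 4 (k v (k (t 384 1 (u 256 36 (k v (k v (k (c 4 4079 (u 128 0 (k v (k v (k (t 384 1 (u 256 0 (k (t 512 3 (t 768 1 v)) r))) r)))) v) (k (c 4 4079 (u 128 3 (k v (k v r))) v) r)))))) r))) (k (c 4 4079 r v) r))))))))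
 (.s 0x1ddd2aab008707d5114440 4064 (n false (n false (n true (n false (n true (n false (z 64) (n false e e)) e) (n true (n false e e) e)) e) (n true (n true (n false (n false (n false (n false e e) (n false e e)) (n false (n false e e) (n false e e))) (n false e e)) e) e)) e) (u 64 0 (k (c 192 4099 r (u 128 2 (k v (k (c 18 4099 v (u 256 1 (k v (k v r)))) r)))) r))
 .z .z) .z)) (.s 0x1df54ebfc02555400823a0 4065 (n false (n false (n true (n true (n false (n false (n false (z 121) (z 0)) e) (n false e e)) e) e) (n false e e)) (n true (n false (n false e e) e) e)) (t 192 1 (u 128 1 (k v (k (c 384 4099 r (u 256 1 (k v (k v r)))) (k (c 256 4097 r (u 384 1 (k v (k v r)))) (k (c 256 4095 r (u 384 0 (k v (k v r)))) (k (c 256 4095 r (u 384 0 (k v (k v r)))) r)))))))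
 (.s 0x1ddf544511043a75fe01c0 4080 (n false (n false (n true (n false (z 121) (n true (n false e e) e)) e) (n true (n false (n true (n true (n false (n false (n false (n false e e) (n false e e)) (n false (n false e e) (n false e e))) (n false e e)) e) e) (n false e e)) e)) e) (u 16 29 (k v (k v (k v (k (c 48 4099 r (u 32 1 (k v (k v r)))) r)))))
 (.s 0x1ddd3eea00977d00382288 4080 (n false (n false (n true (n false (n true (n false (z 26) (z 11)) e) (n true (n false e e) e)) e) (n false e e)) (n false (n false e e) (n false e e))) (t 96 2 (c 4 4082 (u 16 14 (k v (k v (k (c 4 4082 (u 8 1 (k v (k v r))) v) r)))) v))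
 .z .z) (.s 0x1df2bbe003aa228885d108 4076 (n false (n false (n true (n true (z 52) e) e) (n true (n false (n false (n false (n false e e) (n false e e)) (n false (n false e e) (n false e e))) (n false e e)) e)) (n false (n true (n false (n false e e) (n false e e)) e) (n false e e))) (u 16 311 (k v (k v (k v (k v (k v (k v (k v (k (t 48 2 (c 10 4099 v (u 32 0 (k (u 64 4 (k v (k (c 8 4078 (u 16 1 (k v (k v r))) v) r))) r)))) (k (t 48 1 (u 32 0 (k (c 96 4099 r (u 64 2 (k v (k (c 8 4078 (u 16 1 (k v (k v r))) v) r)))) r))) r))))))))))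
 .z .z)) (.s 0x1df54fba8027d5e00823a0 4067 (n false (n false (n true (n true (n false (n false (n false (z 99) (z 11)) e) (n false e e)) e) e) (n false e e)) (n true (n false (n false e e) e) e)) (t 192 2 (u 128 0 (k (c 384 4096 r (u 256 1 (k v (k v r)))) (k (c 384 4096 r r) (k (c 384 4096 r r) (k (c 384 4096 r r) (k (c 384 4096 r r) r)))))))
 (.s 0x1df54fba802575e00823a0 4067 (n false (n false (n true (n true (n false (n false (n false (z 100) (z 11)) e) (n false e e)) e) e) (n false e e)) (n true (n false (n false e e) e) e)) (t 192 2 (u 128 0 (k (c 384 4096 r (u 256 1 (k v (k v r)))) (k (c 384 4096 r r) (k (c 384 4096 r r) (k (c 384 4097 r (u 256 7 (k v (k v (k v (k (c 768 4099 r (u 512 1 (k v (k v r)))) r)))))) (k (c 384 4096 r r) (k (c 384 4096 r r) r))))))))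
 .z .z) .z))))

set_option maxRecDepth 100000 in
def N204 : NT :=
(.s 0x1f53bee008ee107cbbb800 4084 (n false (n true (n true (z 42) e) e) (n true (n false (n false (z 45) (n false e e)) (n true (n false (n true (n false e e) e) (n false e e)) e)) e)) (u 17 2 (k (u 8 1 (k v (k v r))) (k (u 8 1 (k v (k v r))) r)))
 (.s 0x1f4afea004eea8013eab00 4096 (n false (n true (n false (z 156) (z 5)) e) (z 67)) (t 12 1 (u 8 1 (k r (k (c 24 4099 r (u 16 1 (k r (k r r)))) (k (c 16 4098 r (u 24 1 (k r (k r r)))) (k (c 16 4097 r r) (k (c 16 4099 r (u 24 1 (k r (k r r)))) (k (c 16 4095 r (u 24 0 (k r (k r r)))) r))))))))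
 (.s 0x1df74fefc0383ea88a2200 4067 (n false (n false (n true (n true (n false (n true (n false (z 119) (n true (n false e e) e)) e) (n true (n true (n false (n false (n false (n false e e) (n false e e)) (n false (n false e e) (n false e e))) (n false e e)) e) e)) e) e) e) e) (u 128 1 (k (c 384 4101 r r) (k (c 256 4096 r (u 384 0 (k (t 640 3 (t 896 1 v)) r))) (k (c 256 4096 r r) (k (t 256 1 (c 144 4099 v (c 8 4061 r v))) (k (c 384 4099 r r) (k (c 384 4097 r r) (k (c 64 4086 r v) (k (c 256 4098 r r) (k (t 384 1 (c 144 4099 v (c 8 4063 r v))) (k (c 256 4101 r r) (k (c 256 4099 r r) (k (t 384 1 (c 144 4099 v (c 8 4063 r v))) (k (c 256 4101 r r) r))))))))))))))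
 (.s 0x1df74ebfc0383ea88a2200 4066 (n false (n false (n true (n true (n false (n true (n false (z 121) (n true (n false e e) e)) e) (n true (n true (n false (n false (n false (n false e e) (n false e e)) (n false (n false e e) (n false e e))) (n false e e)) e) e)) e) e) e) e) (u 128 1 (k v (k (c 384 4099 r (u 256 1 (k v (k v r)))) (k (c 256 4097 r (u 384 1 (k v (k v r)))) (k (c 256 4095 r (u 384 0 (k v (k v r)))) (k (c 256 4095 r (u 384 0 (k v (k v r)))) r))))))
 (.s 0x1df74bfb80383ea88a2200 4066 (n false (n false (n true (n true (n false (n true (n false (z 46) (n true (n false e e) e)) e) (n true (n true (n false (n false (n false (n false e e) (n false e e)) (n false (n false e e) (n false e e))) (n false e e)) e) e)) e) e) e) e) (u 128 1 (k v (k (u 256 1 (k v (k v r))) (k (c 384 4099 r (u 256 0 (k v (k v r)))) (k (u 256 1 (k v (k v r))) (k (c 384 4097 r (u 256 1 (k v (k v r)))) (k (c 256 4095 r (u 384 1 (k v (k v r)))) r)))))))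
 .z .z) (.s 0x1df74eeb80383ea88a2200 4066 (n false (n false (n true (n true (n false (n true (n false (z 37) (n true (n false e e) e)) e) (n true (n true (n false (n false (n false (n false e e) (n false e e)) (n false (n false e e) (n false e e))) (n false e e)) e) e)) e) e) e) e) (u 128 0 (k v (k (u 256 0 (k (t 512 3 (t 768 1 v)) r)) (k (u 256 0 (k (t 512 3 (t 768 1 v)) r)) (k r (k r (k r r)))))))
 .z .z)) (.s 0x1f4afea004aef8012bbe00 4096 (n false (n true (n false (z 52) (z 156)) e) (z 52)) (u 12 32 (k (c 8 4097 r r) (k r (k (c 4 4064 r (c 3 4097 r v)) (k (c 28 4099 r r) (k (c 20 4099 r r) r))))))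
 (.s 0x1df7d5114441d3fab00088 4069 (n false (n false (n true (n true (n false (n true (n false (z 71) e) e) (n true (n true (n false (n false (n false (n false e e) (n false e e)) (n false (n false e e) (n false e e))) (n false e e)) e) e)) e) e) (n false e e)) (n false e e)) (u 128 1 (k v (k (c 384 4099 r (u 256 1 (k v (k v r)))) (k (u 256 0 (k v (k v r))) (k (c 256 4099 r (u 384 1 (k v (k v r)))) (k (c 256 4099 r (u 384 1 (k v (k v r)))) (k (c 256 4099 r (u 384 1 (k v (k v r)))) r)))))))
 .z .z) .z)) (.s 0x1f4eea8025fdc00bae1070 4082 (n false (n true (n false (z 46) (z 5)) e) (n false (n true (n false (n false (n true (n false e e) e) (n false e e)) e) e) (n true (n false e e) e))) (t 12 1 (u 8 19 (k v (k (c 24 4099 r (u 16 0 (k v (k v r)))) (k (c 2 4088 (c 10 4101 v r) v) (k (c 24 4097 r r) (k (c 16 4095 r r) r)))))))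
 (.s 0x1f4afea004eea8017d1070 4078 (n false (n true (n false (z 156) (z 5)) e) (n false (n true (n true (n false (n false e e) (n false e e)) e) e) (n true (n false e e) e))) (t 12 1 (u 8 2 (k v (k (c 24 4099 r (u 16 1 (k v (k v r)))) (k (c 16 4095 r (u 24 0 (k v (k v r)))) r)))))
 (.s 0x1f4afea004eea801751070 4078 (n false (n true (n false (z 156) (z 5)) e) (n false (n true (n false (n false (n false e e) (n false e e)) e) e) (n true (n false e e) e))) (t 12 1 (u 8 2 (k v (k (c 24 4099 r (u 16 1 (k v (k v r)))) (k (c 16 4095 r (u 24 0 (k v (k v r)))) r)))))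
 .z .z) (.s 0x1f4eea8025ddc00e7d5600 4096 (n false (n true (n false (z 42) (z 5)) e) (n true (z 67) e)) (t 12 2 (u 8 16 (k r (k (c 12 4094 v (u 5 0 (k v (k v r)))) (k (u 16 0 (k (u 5 0 (k v (k v r))) (k (c 4 4085 r (c 3 4102 (t 2 2 v) v)) (k r (k (u 5 23 (k r (k (c 32 4096 r v) r))) (k r (k (c 16 4095 r (u 5 0 (k v (k v r)))) r))))))) (k (u 5 0 (k r (k r r))) (k (u 5 0 (k r (k r r))) (k (u 5 0 (k r (k r r))) r))))))))
 .z .z)) (.s 0x1f4eeb802577c00e7d5600 4098 (n false (n true (n false (z 52) (z 37)) e) (n true (z 67) e)) (u 12 1 (k (u 5 0 (k r (k r r))) (k (u 5 19 (k r (k (c 8 4097 r v) (k (c 8 4097 r v) (k r (k (c 13 4101 r (u 9 1 (k r (k r r)))) (k r (k (c 9 4101 r (u 13 1 (k r (k r r)))) (k r (k (c 9 4101 r (u 13 1 (k r (k r r)))) r)))))))))) r)))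
 (.s 0x1f4eea8025fdc00eb84740 4080 (n false (n true (n false (z 46) (z 5)) e) (n true (n false (n true (n false (n false e e) e) e) (n false (n true (n false e e) e) (n false e e))) e)) (t 12 1 (u 8 2 (k v (k (c 24 4099 r (u 16 0 (k v (k v r)))) (k r (k (c 2 4088 (c 10 4101 v r) v) (k (c 24 4097 r r) (k (c 16 4095 r r) r))))))))
 .z .z) .z))) (.s 0x1f5d51144439fdd8021d10 4077 (n false (n true (n false (n false (n true (z 87) e) (n true (n false (n false (n false (n false e e) (n false e e)) (n false (n false e e) (n false e e))) (n false e e)) e)) (n false e e)) e) (n true (n false (n false e e) (n false e e)) e)) (u 32 29 (k v (k v (k v (k v (k v r))))))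
 (.s 0x1f5d5114442217cafea000 4087 (n false (n true (n false (n false (n true (n false (n false (n false (n false e e) (n false e e)) (n false (n false e e) (n false e e))) (n false e e)) e) (n false e e)) (n false e e)) e) (n false (n true (n true (z 156) e) e) e)) (u 17 1 (k v (k (c 49 4099 r (u 33 1 (k v (k v r)))) (k (c 33 4098 r (u 49 1 (k v (k v r)))) (k (c 33 4097 r r) (k (c 33 4099 r (u 49 1 (k v (k v r)))) (k (c 33 4095 r (u 49 0 (k v (k v r)))) r)))))))
 (.s 0x1f55114445c21f4efb8020 4086 (n false (n true (n true (n false (z 45) (n false e e)) e) e) (n true (n false (n false (n true (n false e e) e) (n false e e)) (n false (n false (n false (n false e e) (n false e e)) (n false (n false e e) (n false e e))) (n false e e))) e)) (c 13 4099 v (u 16 0 (k v (k v r))))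
 (.s 0x1f55114445c2153bee0088 4085 (n false (n true (n false (n false (n true (n false e e) e) (n false e e)) (n false (n false (n false (n false e e) (n false e e)) (n false (n false e e) (n false e e))) (n false e e))) e) (n false (n false (z 45) (n false e e)) (n false e e))) (c 12 4099 v (u 9 0 (k v (k v r))))
 .z .z) (.s 0x1f5d5114442214aef803a0 4084 (n false (n false (n true (n false (n false e e) e) e) (z 52)) (n true (n false (n false (n true (n false (n false (n false (n false e e) (n false e e)) (n false (n false e e) (n false e e))) (n false e e)) e) (n false e e)) (n false e e)) e)) (c 33 4099 v (u 6 216 (k v (k v (k v (k v (k (t 14 1 (u 10 0 (k v (k v r)))) r)))))))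
 .z .z)) (.s 0x1f5d511444221dcafea000 4087 (n false (n true (n false (n true (z 156) e) e) e) (n true (n false (n false (n true (n false (n false (n false (n false e e) (n false e e)) (n false (n false e e) (n false e e))) (n false e e)) e) (n false e e)) (n false e e)) e)) (u 16 8 (k v (k v (k (c 48 4099 r (u 32 1 (k v (k v r)))) (k (c 32 4098 r (u 48 1 (k v (k v r)))) (k (c 32 4097 r (u 48 1 (k v (k v r)))) (k (c 32 4099 r (u 48 1 (k v (k v r)))) r)))))))
 (.s 0x1f5d5114442217f2eee000 4086 (n false (n false (n true (n true (n true (z 42) e) e) e) e) (n true (n false (n false (n true (n false (n false (n false (n false e e) (n false e e)) (n false (n false e e) (n false e e))) (n false e e)) e) (n false e e)) (n false e e)) e)) (c 3 4093 v (u 32 1 (k v (k v r))))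
 .z .z) .z)) (.s 0x1f75445110a0ae577c00e0 4080 (n false (n false (n false (n true (z 52) e) (n true (n false e e) e)) e) (n true (n false (n true (n false (n false (n false (n false e e) (n false e e)) (n false (n false e e) (n false e e))) (n false e e)) e) (n false (n false e e) e)) e)) (u 16 195 (k v (k v (k v (k v (k v (k v r)))))))
 (.s 0x1f72eee0055114443ea220 4090 (n false (n true (n false (n true (z 42) e) (n false (n false (n false (n false e e) (n false e e)) (n false (n false e e) (n false e e))) (n false e e))) e) (n true (n true (n false (n false (n false e e) (n false e e)) (n false e e)) e) e)) (c 2 4088 (c 10 4101 v r) v)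
 (.s 0x1f72eee0055114442fb840 4083 (n false (n true (n false (n true (z 42) e) (n false (n false (n false (n false e e) (n false e e)) (n false (n false e e) (n false e e))) (n false e e))) e) (n false (n true (n true (n false (n true (n false e e) e) (n false e e)) e) e) e)) (c 2 4088 (c 10 4101 v r) v)
 .z .z) (.s 0x1f73fbb004aef8012bbe00 4093 (n false (n true (n false (n true (z 87) e) (z 52)) e) (z 52)) (u 3 254 (k (u 16 1 (k r (k r r))) (k (u 16 1 (k r (k r r))) (k (c 8 4098 (u 2 0 (k v (k v r))) r) (k r r)))))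
 .z .z)) (.s 0x1f7d5114441c1dcafea000 4087 (n false (n true (n false (n true (z 156) e) e) e) (n true (n false (n true (n true (n false (n false (n false (n false e e) (n false e e)) (n false (n false e e) (n false e e))) (n false e e)) e) e) (n true (n false e e) e)) e)) (u 16 30 (k v (k v (k (c 48 4099 r (u 32 6 (k v (k v (k v r))))) (k (c 32 4099 r (u 48 6 (k v (k v (k v r))))) (k (c 32 4095 r (u 48 23 (k v (k v r)))) r))))))
 (.s 0x1f7cafea001c17d5114440 4086 (n false (n true (n false (n true (n true (z 156) e) e) (n true (n false e e) e)) e) (n false (n true (n true (n false (n false (n false (n false e e) (n false e e)) (n false (n false e e) (n false e e))) (n false e e)) e) e) e)) (u 32 1 (k v (k (c 96 4099 r (u 64 1 (k v (k v r)))) (k (c 64 4098 r (u 96 1 (k v (k v r)))) (k (c 64 4097 r (u 96 1 (k v (k v r)))) (k (c 64 4099 r (u 96 1 (k v (k v r)))) (k (c 64 4095 r (u 96 0 (k v (k v r)))) r)))))))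
 .z .z) .z))))

set_option maxRecDepth 100000 in
def N205 : NT :=
(.s 0xe9dd5004affc03a77dc010 4094 (n false (n false (z 124) (z 5)) (n true (n false (z 45) (n false e e)) e)) (t 6 1 (u 4 18 (k (u 9 0 (k v (k v r))) (k r (k (c 12 4097 r r) (k (c 12 4096 r r) (k (c 12 4097 r r) (k (c 12 4099 r r) r))))))))
 (.s 0xe95fd40097770075445110 4096 (n false (n false (z 42) (z 156)) (n true (n false (n false (n false (n false e e) (n false e e)) (n false (n false e e) (n false e e))) (n false e e)) e)) (u 6 3 (k (c 2 4083 r v) (k (c 2 4067 (u 2 1 (k v (k v r))) v) (k (c 14 4099 r r) r))))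
 (.s 0x1fdd5114442577c0075110 4086 (n false (n true (n true (n false (z 52) (n true (n false (n false (n false (n false e e) (n false e e)) (n false (n false e e) (n false e e))) (n false e e)) e)) e) e) (n true (n false (n false (n false e e) (n false e e)) (n false e e)) e)) (u 16 221 (k v (k v (k v (k v (k (t 48 1 (u 32 0 (k v (k v r)))) r))))))
 (.s 0x1fd4efb80239fdd800ee10 4082 (n false (n true (n true (n false (n false (z 45) (n false e e)) (n true (z 87) e)) e) e) (n true (n false (n true (n false e e) e) (n false e e)) e)) (u 32 2 (k (u 40 1 (k v (k v r))) (k (u 40 1 (k v (k v r))) r)))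
 (.s 0x1fd3bae0095df0013eab00 4098 (n false (n true (n true (n false (z 52) (z 37)) e) e) (z 67)) (u 24 1 (k (u 3 142 (k r (k (c 4 4094 r v) r))) (k (u 3 28 (k (c 16 4097 r v) (k (c 16 4097 r v) (k r (k (c 7 4101 r r) (k r (k (c 5 4101 r r) (k r (k (c 5 4101 r r) r))))))))) r)))
 .z .z) (.s 0x1fd75445110882e57f5000 4087 (n false (n false (n true (z 156) e) e) (n true (n true (n false (n false (n true (n false (n false (n false (n false e e) (n false e e)) (n false (n false e e) (n false e e))) (n false e e)) e) (n false e e)) (n false e e)) e) e)) (u 8 8 (k v (k v (k (c 24 4099 r (u 16 1 (k v (k v r)))) (k (c 16 4098 r (u 24 1 (k v (k v r)))) (k (c 16 4097 r (u 24 1 (k v (k v r)))) (k (c 16 4099 r (u 24 1 (k v (k v r)))) r)))))))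
 .z .z)) (.s 0xe95fd40095df0075445110 4096 (n false (n false (z 156) (z 52)) (n true (n false (n false (n false (n false e e) (n false e e)) (n false (n false e e) (n false e e))) (n false e e)) e)) (u 4 8 (k r (k (c 2 4064 r v) (k (c 12 4099 r r) (k (c 8 4098 r r) (k (c 8 4097 r (u 12 1 (k r (k r r)))) (k (c 8 4099 r r) r)))))))
 (.s 0xe95f5004aef803a77dc010 4091 (n false (n false (z 52) (z 12)) (n true (n false (z 45) (n false e e)) e)) (t 6 3 (u 4 397 (k (t 9 1 v) (k (t 9 1 v) (k (c 5 4097 (t 2 1 v) v) (k (u 9 0 (k v (k v r))) (k (t 12 1 (u 9 0 (k (u 8 0 (k v (k v r))) (k (u 8 0 (k v (k v r))) r)))) r)))))))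
 .z .z) .z)) (.s 0xe9dd5004abf803a77dc010 4091 (n false (n false (z 56) (z 5)) (n true (n false (z 45) (n false e e)) e)) (t 6 1 (u 9 0 (k r (k (u 4 0 (k (u 8 51 (k v (k v (k v (k v (k v (k (t 24 1 (u 16 0 (k v (k v r)))) r))))))) (k (c 8 4096 r (u 12 0 (k v (k v r)))) (k (u 8 1 (k v (k v r))) (k (c 12 4096 r r) r))))) r))))
 (.s 0xe95fd4009f558075445110 4094 (n false (n false (z 67) (z 156)) (n true (n false (n false (n false (n false e e) (n false e e)) (n false (n false e e) (n false e e))) (n false e e)) e)) (u 6 1 (k r (k (c 14 4099 r (u 10 1 (k r (k r r)))) (k (c 10 4098 r (u 14 1 (k r (k r r)))) (k (c 10 4097 r (u 14 1 (k r (k r r)))) (k (c 10 4099 r (u 14 1 (k r (k r r)))) (k (c 10 4095 r (t 4 2 (c 5 4099 v r))) r)))))))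
 (.s 0xe95fd4009dd5007d708e80 4080 (n false (n false (z 156) (z 5)) (n true (n true (n false (n true (n false (n false e e) e) e) (n false (n true (n false e e) e) (n false e e))) e) e)) (t 6 1 (u 4 2 (k v (k (c 12 4099 r (u 8 1 (k v (k v r)))) (k (c 8 4095 r (u 12 0 (k v (k v r)))) r)))))
 .z .z) (.s 0xe95fd4009f5f0075445110 4098 (n false (n false (z 156) (z 51)) (n true (n false (n false (n false (n false e e) (n false e e)) (n false (n false e e) (n false e e))) (n false e e)) e)) (u 6 0 (k (t 14 1 (u 10 0 (k (t 18 3 (t 26 3 (u 4 16 (k v (k v (k v (k (c 12 4099 r (u 8 1 (k v (k v r)))) (k (c 8 4099 r (u 12 1 (k v (k v r)))) r)))))))) r))) r))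
 .z .z)) (.s 0xe9dd5004affc02a77dc010 4094 (n false (n false (z 124) (z 5)) (n false (n false (z 45) (n false e e)) e)) (t 6 1 (u 9 0 (k r (k (u 4 2 (k v (k v (k (c 12 4097 r (u 8 1 (k v (k v r)))) (k (c 12 4096 r (u 8 1 (k v (k v r)))) (k (c 12 4097 r (u 8 1 (k v (k v r)))) (k (c 12 4099 r (u 8 1 (k v (k v r)))) r))))))) r))))
 (.s 0xe9dd5004afbc03ea88a220 4098 (n false (n false (z 108) (z 5)) (n true (n true (n false (n false (n false (n false e e) (n false e e)) (n false (n false e e) (n false e e))) (n false e e)) e) e)) (t 6 2 (u 4 0 (k (c 12 4099 r (u 8 0 (k (t 24 1 (u 16 10 (k v (k v (k (u 32 68 (k v (k v (k v (k v (k (u 64 8 (k v (k (t 192 1 (u 128 0 (k (t 256 3 (t 384 1 v)) r))) r))) r)))))) (k (c 8 4097 r v) (k (c 8 4088 r v) (k (u 32 0 (k (u 64 0 (k v (k v r))) r)) (k (u 32 7 (k v (k v (k (c 96 4099 r (u 64 1 (k v (k v r)))) r)))) (k (u 32 4 (k v (k (c 96 4099 r (u 64 1 (k v (k v r)))) r))) r)))))))))) r))) r)))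
 .z .z) .z))) (.s 0xe9dd5004ebfc03a77dc010 4096 (n false (n false (z 121) (z 5)) (n true (n false (z 45) (n false e e)) e)) (t 6 1 (u 4 9 (k (u 9 0 (k v (k v r))) (k r (k (c 3 4096 (t 4 1 v) v) (k (c 12 4099 r r) r))))))
 (.s 0xe9dd5004ebec02977d0070 4089 (n false (n false (z 26) (n true (n false e e) e)) (n false (z 89) (z 5))) (t 7 2 (u 5 71 (k r (k (c 7 4094 v r) (k (t 13 3 (u 9 189 (k r (k r (k (c 21 4099 v (c 7 4094 v (u 4 2 (k v (k (c 3 4088 v (u 8 3 (k v (k v r)))) r))))) (k (c 7 4094 v r) (k (u 4 7 (k v (k v (k (c 2 4082 r v) r)))) r))))))) (k (t 13 3 (u 9 0 (k r (k r r)))) (k (c 3 4090 (t 6 2 (c 3 4094 v r)) r) r)))))))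
 (.s 0xe9dd5004bfb803a77dc010 4096 (n false (n false (z 46) (z 5)) (n true (n false (z 45) (n false e e)) e)) (t 6 1 (u 4 2 (k (u 9 0 (k v (k v r))) (k (c 12 4099 r r) (k r (k (c 3 4096 (t 4 1 v) (c 10 4101 v r)) (k (c 12 4097 r r) (k (c 8 4095 r r) r))))))))
 (.s 0xe9dd5004bbb802aa228870 4089 (n false (n false (z 42) (z 5)) (n false (n false (n false (n false (n false e e) (n false e e)) (n false (n false e e) (n false e e))) e) (n true (n false e e) e))) (t 6 1 (u 4 48 (k v (k v (k v (k (t 8 3 (t 12 1 v)) (k (c 2 4090 r v) (k (t 12 3 (c 6 4099 v (u 8 0 (k v (k v r))))) (k (c 2 4090 r v) (k (c 2 4090 r v) r))))))))))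
 .z .z) (.s 0xe9dd5004bfb803aea221c0 4082 (n false (n true (n false (n false (n true (n false (n false (n false e e) (n false e e)) (n false e e)) e) (n true (n false e e) e)) e) e) (n false (z 46) (z 5))) (t 7 1 (u 5 10 (k v (k (c 13 4099 r (u 9 0 (k v (k v r)))) (k (c 11 4101 v (c 32 4091 v (c 2 4090 v r))) r)))))
 .z .z)) (.s 0xe9dd5004ebfc03a5ddc010 4090 (n false (n false (z 121) (z 5)) (n true (n false (z 42) (n false e e)) e)) (t 6 1 (u 4 9 (k r (k (c 6 4099 v r) (k (c 10 4101 v (u 9 3 (k v (k (c 3 4085 (t 12 1 (u 8 0 (k r r))) v) (k (u 17 36 (k v (k v (k (c 3 4085 r v) (k (c 3 4085 (u 16 7 (k v (k v r))) v) r))))) (k (c 3 4085 r v) (k (c 3 4085 r v) (k (c 3 4085 r v) r)))))))) (k (c 12 4099 r (u 8 1 (k r (k r r)))) r))))))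
 (.s 0xe9dd5004ebec03a5dde010 4091 (n false (n true (n false (z 106) (n false e e)) e) (n false (z 89) (z 5))) (t 7 1 (u 5 5 (k (c 7 4099 v r) (k (c 7 4099 v r) (k (c 7 4099 v (c 17 4099 v r)) (k (t 13 2 (c 7 4099 v (u 8 16 (k r (k r (k (c 24 4100 r (t 9 1 r)) (k (c 24 4100 r (t 9 1 r)) r))))))) r))))))
 .z .z) .z)) (.s 0xe9ddd804eea803a77dc010 4094 (n false (n false (z 85) (z 5)) (n true (n false (z 45) (n false e e)) e)) (t 6 1 (u 9 0 (k r (k (u 4 15 (k v (k (c 12 4099 r r) (k (c 12 4099 r r) (k (c 12 4099 r r) (k (c 3 4096 v (c 10 4101 v r)) (k (c 12 4096 r r) (k (c 12 4097 r r) r)))))))) r))))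
 (.s 0xe9dd7004eea803a77dc010 4096 (n false (n true (n false (z 45) (n false e e)) e) (n false (z 37) (z 5))) (t 7 1 (u 5 1 (k (c 4 4097 (t 2 1 v) v) (k (u 8 0 (k v (k v r))) r))))
 (.s 0xe9dd7004eea803a5ddc010 4090 (n false (n true (n false (z 42) (n false e e)) e) (n false (z 37) (z 5))) (t 7 1 (u 8 52 (k (u 5 1 (k v (k v r))) (k (c 7 4099 v r) (k (t 24 1 (u 5 1 (k (c 4 4086 (u 4 0 (k r r)) v) (k (u 16 0 (k (u 32 2 (k v (k (c 16 4084 (u 4 1 (k v (k v r))) v) r))) r)) r)))) (k (u 5 1 (k (c 16 4101 r v) (k (u 16 40 (k v (k v (k v (k (c 5 4101 v r) r))))) r))) (k (c 5 4101 r r) (k (c 5 4101 r r) r))))))))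
 .z .z) (.s 0xe9ddd804eea802a77dc010 4094 (n false (n false (z 85) (z 5)) (n false (n false (z 45) (n false e e)) e)) (t 6 1 (u 9 0 (k r (k (u 4 15 (k v (k (c 12 4099 r r) (k (c 12 4099 r r) (k (c 12 4099 r r) (k (c 3 4096 v (c 10 4101 v r)) (k (c 12 4096 r r) (k (c 12 4097 r r) r)))))))) r))))
 .z .z)) (.s 0xe9f55804ebfc0295fd4008 4094 (n false (n false (z 67) (z 121)) (n false (z 156) (n false e e))) (u 6 2 (k (u 5 0 (k (t 4 1 v) (k (c 13 4099 r (u 9 0 (k r (k (t 4 1 v) r)))) r))) (k (t 5 1 (c 2 4074 r v)) (k (c 14 4099 r r) (k (c 10 4095 r r) (k (c 10 4095 r r) r))))))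
 (.s 0xe9f55804bfb80295fd4008 4094 (n false (n false (z 156) (n false e e)) (n false (z 67) (z 46))) (u 4 0 (k (t 5 1 r) (k (c 8 4099 r (u 5 160 (k (u 12 0 (k r (k r r))) (k (t 7 1 (u 12 1 (k v (k v r)))) (k (u 12 8 (k r (k r r))) (k (c 13 4101 r (c 12 4099 r r)) (k (c 9 4101 r (c 12 4099 r r)) (k (c 9 4101 r (c 12 4099 r r)) r)))))))) r)))
 .z .z) .z))))

set_option maxRecDepth 100000 in
def N206 : NT :=
(.s 0xea5ddc012bea008aa22888 4094 (n false (n false (n false (z 42) (z 12)) (n false e e)) (n false (n false (n false (n false e e) (n false e e)) (n false (n false e e) (n false e e))) (n false e e))) (t 12 3 (u 8 38 (k v (k v (k (t 16 3 (t 24 1 v)) (k r (k (u 16 1 (k v (k v r))) (k r (k (t 24 3 (c 3 4099 v (u 16 1 (k v (k v r))))) (k (u 16 29 (k v (k v (k v (k (c 48 4099 r (u 32 1 (k v (k v r)))) r))))) (k (u 16 18 (k v (k v (k v (k v (k (c 48 4099 r (u 32 1 (k v (k v r)))) r)))))) r)))))))))))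
 (.s 0xe9f57004eeb803a77dc010 4093 (n false (n false (z 37) (z 35)) (n true (n false (z 45) (n false e e)) e)) (u 9 0 (k r (k (u 4 1 (k (c 6 4096 r v) (k (u 6 0 (k v (k v (k (t 14 1 (u 10 0 (k (t 18 3 (t 26 1 v)) r))) r)))) r))) r)))
 (.s 0xe9f5580544511f75114420 4081 (n false (n false (z 67) (n false (n false (n false e e) (n false e e)) (n false (n false e e) (n false e e)))) (n true (n true (n false (n true (n false (n false (n false e e) (n false e e)) (n false (n false e e) (n false e e))) e) (n false e e)) e) e)) (u 4 114 (k v (k (c 12 4099 r (u 8 2 (k v (k v r)))) (k (c 12 4101 r r) (k (c 12 4099 r (u 8 32 (k v (k v (k v (k (c 16 4095 r (u 24 0 (k v (k v r)))) (k (c 16 4095 r (u 24 0 (k v (k v r)))) r))))))) (k (c 8 4101 r r) (k (c 12 4099 r (u 8 3 (k v (k v (k (c 24 4099 r (u 16 1 (k v (k v r)))) r))))) (k (c 8 4101 r r) r))))))))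
 (.s 0xe9f558054451172eee0070 4084 (n false (n false (z 67) (n false (n false (n false e e) (n false e e)) (n false (n false e e) (n false e e)))) (n false (n true (z 42) e) (n true (n false e e) e))) (c 2 4095 (u 2 0 (k v (k v r))) r)
 (.s 0xe9f55805445114afea0070 4085 (n false (n false (z 67) (n false (n false (n false e e) (n false e e)) (n false (n false e e) (n false e e)))) (n false (z 156) (n true (n false e e) e))) (u 5 1 (k r (k (c 13 4099 r (u 9 1 (k r (k r r)))) (k (c 9 4098 r (u 13 1 (k r (k r r)))) (k (c 9 4097 r r) (k (c 9 4099 r (u 13 1 (k r (k r r)))) (k (c 9 4095 r r) r)))))))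
 .z .z) (.s 0xe9f558054451173eab0070 4086 (n false (n false (z 67) (n false (n false (n false e e) (n false e e)) (n false (n false e e) (n false e e)))) (n false (n true (z 67) e) (n true (n false e e) e))) (c 2 4095 (u 2 0 (k v (k v r))) r)
 .z .z)) (.s 0xe9f57004eeb802a77dc010 4094 (n false (n false (z 37) (z 35)) (n false (n false (z 45) (n false e e)) e)) (u 9 0 (k r (k (u 4 1 (k (c 6 4096 r v) (k (u 6 0 (k v (k v (k (t 14 1 (u 10 0 (k (t 18 3 (t 26 1 v)) r))) r)))) r))) r)))
 (.s 0xe9f57004ebfc02a77dc010 4094 (n false (n false (z 121) (z 35)) (n false (n false (z 45) (n false e e)) e)) (u 4 8 (k (u 9 0 (k r (k (u 6 0 (k v (k v (k (t 14 1 (u 10 0 (k (t 18 3 (t 26 1 v)) r))) r)))) r))) (k (c 3 4096 (t 4 1 v) (t 6 1 v)) (k r (k (c 12 4099 r r) r)))))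
 .z .z) .z)) (.s 0xea55f40114fab8013bbb00 4094 (n false (n false (n false (z 24) (n false e e)) (n false (z 35) e)) (z 85)) (u 10 0 (k (u 8 0 (k (t 16 3 (t 24 1 r)) r)) (k (c 4 4096 (c 2 4098 r v) r) (k (t 26 1 (u 3 31 (k (c 10 4096 (c 2 4098 r v) (c 2 4094 r v)) (k (c 8 4098 r (u 18 0 (k (t 34 3 (t 50 1 v)) r))) (k (c 7 4099 r r) (k (c 7 4099 r (c 10 4096 (c 2 4098 r v) (c 2 4094 r r))) r)))))) r))))
 (.s 0xe9f7d804eea802a77dc010 4094 (n false (n false (z 91) (z 5)) (n false (n false (z 45) (n false e e)) e)) (t 6 1 (u 4 26 (k (u 9 0 (k v (k v r))) (k (c 6 4099 v (u 9 0 (k v (k v r)))) (k (c 4 4090 v (u 9 0 (k v (k v r)))) (k (u 8 0 (k (u 9 0 (k v (k v r))) (k (c 6 4099 v (u 9 0 (k v (k v r)))) r))) (k (c 8 4097 r r) (k (c 8 4095 r r) r))))))))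
 (.s 0xe9f5f004ebfc03f9d75800 4102 (n false (n true (n true (n true (z 73) e) e) e) (n false (z 51) (z 121))) (c 5 4097 r (u 16 0 (k (u 7 71 (k r (k (u 32 0 (k v (k v r))) (k (u 32 0 (k v (k v r))) (k (u 32 0 (k v (k v r))) (k (u 32 163 (k v (k v r))) r)))))) r)))
 .z .z) (.s 0xe9f7d804eea803a77dc010 4094 (n false (n false (z 91) (z 5)) (n true (n false (z 45) (n false e e)) e)) (t 6 1 (u 4 1 (k r (k (u 9 0 (k v (k v r))) (k (c 4 4090 v (u 9 0 (k v (k v r)))) (k (u 9 0 (k (u 8 0 (k v (k v r))) (k (u 8 0 (k v (k v r))) r))) (k (c 8 4097 r r) (k (c 8 4095 r r) r))))))))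
 .z .z)) (.s 0xea5ddc0095df0075445110 4096 (n false (n false (z 52) (n false (z 42) e)) (n true (n false (n false (n false (n false e e) (n false e e)) (n false (n false e e) (n false e e))) (n false e e)) e)) (u 4 145 (k (u 10 18 (k v (k v (k v r)))) (k (c 2 4083 (u 5 1 (k v (k v r))) v) (k (c 10 4100 r v) (k (c 2 4085 (u 5 1 (k v (k v r))) v) (k (t 12 1 (u 8 0 (k (u 10 18 (k v (k v (k v r)))) (k (u 10 1 (k v (k v r))) r)))) r))))))
 (.s 0xea57d4012bbe00e13afb00 4089 (n false (n false (n false (z 52) (z 12)) (n true (n false e e) e)) (z 89)) (t 12 3 (u 3 0 (k (c 12 4110 v r) (k (c 12 4110 v r) (k (c 6 4094 v (c 20 4099 v r)) (k r r))))))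
 .z .z) .z))) (.s 0xeaa2288897770052eee008 4090 (n false (n false (z 42) (n false (n false (n false (n false e e) (n false e e)) (n false (n false e e) (n false e e))) (n false e e))) (n false (z 42) (n false e e))) (u 4 70 (k (c 6 4099 v r) (k (c 6 4099 v r) (k (c 6 4099 v r) (k r (k (c 2 4090 r r) (k (t 12 3 (c 6 4099 v r)) (k (c 2 4090 r r) (k (c 2 4090 r r) r)))))))))
 (.s 0xea7f76013eea00e13afb00 4091 (n false (z 89) (n false (n false (z 87) (z 11)) (n true (n false e e) e))) (t 13 3 (u 2 0 (k r (k (c 13 4110 v (u 9 1 (k v (k v r)))) (k (t 9 1 v) (k (t 6 2 (u 4 41 (k r (k r (k (t 12 1 r) r))))) r))))))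
 (.s 0xea77dc012aaa008e7d5600 4096 (n false (n true (z 67) e) (n false (n false (z 45) (z 0)) (n false e e))) (t 13 1 (u 4 24 (k (u 9 0 (k v (k v r))) (k (u 9 0 (k v (k v r))) (k (u 9 0 (k v (k v r))) (k (c 2 4094 v (u 9 3 (k v (k v r)))) (k r (k (c 8 4101 r (t 9 1 (u 12 0 (k v (k v r))))) (k (c 2 4088 r (u 9 3 (k v (k v r)))) (k (c 12 4101 r r) (k r (k (c 12 4102 r r) (k (c 8 4101 r r) (k (t 12 1 (u 8 3 (k r (k (u 9 0 (k v (k v r))) (k (c 24 4099 r r) r))))) (k (c 8 4101 r r) r)))))))))))))))
 (.s 0xea5ddc012bea00ea88a220 4093 (n false (n false (n false (z 42) (z 12)) (n true (n false (n false (n false (n false e e) (n false e e)) (n false (n false e e) (n false e e))) (n false e e)) e)) e) (t 12 3 (u 8 37 (k v (k v (k v (k (t 16 3 (t 24 1 v)) (k r (k (u 16 1 (k v (k v r))) (k (t 24 3 (c 10 4099 v (u 16 1 (k v (k v r))))) (k r (k (t 24 3 (c 10 4099 v (u 16 1 (k v (k v r))))) (k (u 16 9 (k v (k v (k v (k (c 48 4099 r (u 32 1 (k v (k v r)))) r))))) (k (u 16 17 (k v (k v (k v (k (c 48 4099 r (u 32 1 (k v (k v r)))) r)))))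 r)))))))))))))
 .z .z) (.s 0xea7d5c009ddd8075445110 4091 (n false (n false (z 85) (n false (z 35) e)) (n true (n false (n false (n false (n false e e) (n false e e)) (n false (n false e e) (n false e e))) (n false e e)) e)) (u 4 26 (k r (k (c 10 4096 r v) (k r (k (c 8 4099 r (u 12 305 (k r (k (c 5 4099 v r) (k (c 10 4096 r v) (k (t 10 1 v) r)))))) r)))))
 .z .z)) (.s 0xeaa2288897770052aae008 4088 (n false (n false (z 32) (n false e e)) (n false (z 42) (n false (n false (n false (n false e e) (n false e e)) (n false (n false e e) (n false e e))) (n false e e)))) (u 5 10 (k (c 7 4099 v (u 4 0 (k (t 8 3 (t 12 1 v)) r))) (k (c 11 4101 v (u 4 0 (k (t 8 3 (t 12 1 v)) r))) (k (t 9 3 (t 13 1 (u 4 0 (k (t 8 3 (t 12 1 v)) r)))) (k (c 3 4090 r (u 4 0 (k (t 8 3 (t 12 1 v)) r))) (k (c 13 4110 r r) (k (c 13 4110 r r) (k (c 13 4110 r r) (k (c 3 4090 (c 3 4099 v r) (u 4 0 (k (t 8 3 (t 12 1 v)) r))) (k (c 13 4110 r r) (k (c 3 4090 r (u 4 0 (k (t 8 3 (t 12 1 v)) r))) (k (c 3 4090 r (u 4 0 (k (t 8 3 (t 12 1 v)) r))) r))))))))))))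
 (.s 0xea7f7c009ddd8075445110 4091 (n false (n false (z 85) (n false (z 55) e)) (n true (n false (n false (n false (n false e e) (n false e e)) (n false (n false e e) (n false e e))) (n false e e)) e)) (u 4 67 (k (c 10 4096 r v) (k (u 10 7 (k v (k v r))) (k (u 10 3 (k v (k v r))) (k (c 8 4099 r (u 12 306 (k (c 10 4096 r v) (k (u 10 7 (k v (k v r))) (k (c 5 4099 v r) (k (t 10 1 v) r)))))) r)))))
 .z .z) .z)) (.s 0xeaa228889f77007cbfb800 4095 (n false (n true (n true (z 46) e) e) (n false (z 43) (n false (n false (n false (n false e e) (n false e e)) (n false (n false e e) (n false e e))) (n false e e)))) (u 8 21 (k r (k (c 11 4101 v r) (k (c 24 4099 r (u 16 0 (k r (k r r)))) (k r (k (u 16 0 (k (u 5 0 (k v (k (u 9 1 (k v (k v r))) (k (c 13 4099 r (u 9 0 (k (u 17 0 (k v (k v r))) r))) (k r (k (c 4 4090 v (c 3 4088 r v)) (k (c 7 4099 v (u 9 0 (k (u 17 0 (k v (k v r))) r))) (k r (k r r))))))))) (k (c 11 4101 v r) r))) (k (c 24 4097 r r) r)))))))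
 (.s 0xeaa228889dd70075dc21c0 4083 (n false (n true (n false (n false (n true (n false (n true (n false e e) e) (n false e e)) e) (n true (n false e e) e)) e) e) (n false (z 37) (n false (n false (n false (n false e e) (n false e e)) (n false (n false e e) (n false e e))) (n false e e)))) (c 24 4094 v (u 5 1 (k v (k v r))))
 (.s 0xeaa2288897770074bbb800 4094 (n false (n true (n false (z 42) e) e) (n false (z 42) (n false (n false (n false (n false e e) (n false e e)) (n false (n false e e) (n false e e))) (n false e e)))) (u 8 1 (k (u 5 16 (k v (k v (k (c 3 4090 r v) (k (c 3 4090 (c 3 4099 v r) v) (k (c 3 4090 r v) (k (c 3 4090 r v) r))))))) (k (u 5 16 (k v (k v (k (c 3 4090 r v) (k (c 3 4090 (c 3 4099 v r) v) (k (c 3 4090 r v) (k (c 3 4090 r v) r))))))) r)))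
 .z .z) (.s 0xeaa228889f770075445110 4097 (n false (n false (z 43) (n false (n false (n false (n false e e) (n false e e)) (n false (n false e e) (n false e e))) (n false e e))) (n true (n false (n false (n false (n false e e) (n false e e)) (n false (n false e e) (n false e e))) (n false e e)) e)) (u 4 0 (k v (k r (k (c 12 4099 r (u 8 0 (k (u 16 0 (k v (k v r))) r))) (k r (k (c 2 4088 r v) (k (u 8 0 (k (u 16 0 (k v (k v r))) r)) (k r (k r r)))))))))
 .z .z)) (.s 0xeaa228889f77007ceeb800 4095 (n false (n true (n true (z 37) e) e) (n false (z 43) (n false (n false (n false (n false e e) (n false e e)) (n false (n false e e) (n false e e))) (n false e e)))) (u 8 1 (k (c 3 4099 r v) (k (u 5 0 (k v (k (u 9 1 (k v (k v r))) (k (c 13 4099 r (u 9 0 (k (u 17 0 (k v (k v r))) r))) (k r (k (c 4 4100 v (c 3 4088 r v)) (k (u 9 0 (k (u 17 0 (k v (k v r))) r)) (k r (k r r))))))))) r)))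
 (.s 0xeaa228889f77007cebfc00 4095 (n false (n true (n true (z 121) e) e) (n false (z 43) (n false (n false (n false (n false e e) (n false e e)) (n false (n false e e) (n false e e))) (n false e e)))) (u 8 39 (k r (k (c 11 4101 v r) (k (c 24 4099 r (u 16 1 (k r (k r r)))) (k (c 16 4095 r (u 24 0 (k r (k r r)))) r)))))
 .z .z) .z))))

set_option maxRecDepth 100000 in
def N207 : NT :=
(.s 0xeaa22888aa22888e7f5600 4096 (n false (n true (z 71) e) (n false (n false (n false (n false (n false e e) (n false e e)) (n false (n false e e) (n false e e))) (n false e e)) (n false (n false (n false (n false e e) (n false e e)) (n false (n false e e) (n false e e))) (n false e e)))) (u 4 6 (k r (k r (k (u 8 0 (k v (k (t 24 1 r) (k (t 16 2 r) (k (t 16 1 r) r))))) (k (t 8 1 r) (k (t 8 1 r) (k (t 8 1 r) r)))))))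
 (.s 0xeaa22888aa22888a7f7e00 4098 (n false (n false (z 119) e) (n false (n false (n false (n false (n false e e) (n false e e)) (n false (n false e e) (n false e e))) (n false e e)) (n false (n false (n false (n false e e) (n false e e)) (n false (n false e e) (n false e e))) (n false e e)))) (u 4 14 (k v (k v (k (t 12 1 r) (k (c 8 4097 r r) (k (c 8 4097 r (c 5 4099 v (u 12 1 (k v (k (c 28 4097 r (u 20 0 (k v (k v r)))) r))))) (k (c 12 4096 r (u 8 0 (k (u 16 0 (k v (k v r))) r))) (k (c 12 4097 r r) (k (c 12 4097 r r) (k (c 12 4097 r r) (k (c 12 4097 r r) (k (c 12 4097 r r) (k (c 12 4097 r r) r)))))))))))))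
 (.s 0xeaa22888aa228889ff5400 4094 (n false (z 143) (n false (n false (n false (n false (n false e e) (n false e e)) (n false (n false e e) (n false e e))) (n false e e)) (n false (n false (n false (n false e e) (n false e e)) (n false (n false e e) (n false e e))) (n false e e)))) (u 2 4 (k v (k r (k (u 6 0 (k (t 10 3 (t 14 1 (u 4 7 (k v (k (u 8 0 (k v (k v r))) r))))) r)) (k (c 3 4101 v (t 6 1 r)) (k r r))))))
 (.s 0xeaa22888a775c00a7d5600 4094 (n false (n false (n false (z 37) e) (n false (n false (n false (n false e e) (n false e e)) (n false (n false e e) (n false e e))) (n false e e))) (n false (z 67) e)) (u 8 36 (k r (k (c 6 4099 v (u 5 0 (k v (k v r)))) (k (u 16 8 (k (t 5 2 v) (k (t 48 1 (u 5 23 (k (u 32 0 (k (t 64 3 (t 96 1 v)) r)) (k (c 2 4090 (u 16 0 (k (t 32 3 (t 48 1 v)) r)) v) r)))) r))) (k (c 2 4087 r (c 5 4103 r v)) r)))))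
 (.s 0xeaa22888a75fe00a7d5600 4094 (n false (n false (z 67) e) (n false (n false (z 121) e) (n false (n false (n false (n false e e) (n false e e)) (n false (n false e e) (n false e e))) (n false e e)))) (u 9 48 (k r (k (u 4 23 (k v (k v r))) (k (c 17 4097 r (c 3 4088 r (c 4 4103 r v))) (k (c 17 4095 r r) (k (c 17 4095 r r) r))))))
 .z .z) (.s 0xeaa22888aa228889555400 4095 (n false (z 128) (n false (n false (n false (n false (n false e e) (n false e e)) (n false (n false e e) (n false e e))) (n false e e)) (n false (n false (n false (n false e e) (n false e e)) (n false (n false e e) (n false e e))) (n false e e)))) (u 2 1 (k v (k (c 4 4097 r r) (k (c 6 4099 r r) (k (c 6 4099 r r) (k (c 4 4096 r r) (k (c 6 4097 r r) (k (c 4 4095 r r) (k (c 4 4095 r (u 6 0 (k v (k v r)))) (k (c 4 4099 r r) (k (c 6 4097 r (u 4 1 (k v (k v r)))) (k (c 4 4098 r r) (k (c 4 4099 r r) (k (c 6 4095 r (u 4 1 (k v (k v r)))) (k (c 4 4097 r (u 6 0 (k v (k v r)))) (k (c 4 4095 r r) (k (c 4 4099 r r) (k (c 4 4095 r (u 6 1 (k v (k v r)))) (k (c 4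 4097 r r) r)))))))))))))))))))
 .z .z)) (.s 0xeaa22888aa22888a57de00 4098 (n false (n false (z 108) e) (n false (n false (n false (n false (n false e e) (n false e e)) (n false (n false e e) (n false e e))) (n false e e)) (n false (n false (n false (n false e e) (n false e e)) (n false (n false e e) (n false e e))) (n false e e)))) (u 4 0 (k (t 12 2 (c 5 4099 v (u 8 0 (k (c 24 4099 r (u 16 0 (k v (k (u 32 1 (k v (k v r))) (k (c 48 4099 r (u 32 0 (k (u 64 0 (k v (k v r))) r))) (k r (k (c 2 4069 r v) (k (u 32 0 (k (u 64 0 (k v (k v r))) r)) (k r (k r r)))))))))) r)))) r))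
 (.s 0xeaa22888aa22888a55d600 4096 (n false (n false (z 72) e) (n false (n false (n false (n false (n false e e) (n false e e)) (n false (n false e e) (n false e e))) (n false e e)) (n false (n false (n false (n false e e) (n false e e)) (n false (n false e e) (n false e e))) (n false e e)))) (u 4 0 (k (c 12 4099 r (u 8 0 (k v (k r (k (c 24 4099 r (u 16 0 (k (u 32 0 (k v (k v r))) r))) (k r (k (c 3 4101 v r) (k (u 16 0 (k (u 32 0 (k v (k v r))) r)) (k r (k r r)))))))))) r))
 .z .z) .z)) (.s 0xeaa22888aa22888e5ffc00 4092 (n false (n true (z 62) e) (n false (n false (n false (n false (n false e e) (n false e e)) (n false (n false e e) (n false e e))) (n false e e)) (n false (n false (n false (n false e e) (n false e e)) (n false (n false e e) (n false e e))) (n false e e)))) (u 4 4 (k v (k v (k v (k (t 12 1 r) r)))))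
 (.s 0xeaa22888aa22888e557600 4095 (n false (n true (z 80) e) (n false (n false (n false (n false (n false e e) (n false e e)) (n false (n false e e) (n false e e))) (n false e e)) (n false (n false (n false (n false e e) (n false e e)) (n false (n false e e) (n false e e))) (n false e e)))) (u 4 0 (k (u 8 0 (k (c 24 4099 r (u 16 2 (k v (k (u 32 2 (k v (k v r))) (k (c 48 4099 r (c 5 4099 v (u 32 0 (k (u 64 0 (k v (k v r))) r)))) (k (u 32 9 (k v (k v (k (c 5 4099 v (u 64 1 (k v (k v r)))) r)))) (k (c 2 4071 r v) (k (c 5 4099 v (u 32 0 (k (u 64 0 (k v (k v r))) r))) (k r (k r r)))))))))) r)) r))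
 (.s 0xeaa22888aa22888e555e00 4092 (n false (n true (z 96) e) (n false (n false (n false (n false (n false e e) (n false e e)) (n false (n false e e) (n false e e))) (n false e e)) (n false (n false (n false (n false e e) (n false e e)) (n false (n false e e) (n false e e))) (n false e e)))) (u 4 0 (k (t 12 2 (u 8 0 (k (c 24 4099 r (u 16 0 (k v (k v (k (c 8 4084 (u 4 1 (k v (k v r))) v) r))))) r))) r))
 .z .z) (.s 0xeaa22888aa22888e577c00 4094 (n false (n true (z 52) e) (n false (n false (n false (n false (n false e e) (n false e e)) (n false (n false e e) (n false e e))) (n false e e)) (n false (n false (n false (n false e e) (n false e e)) (n false (n false e e) (n false e e))) (n false e e)))) (u 4 8 (k v (k v (k v (k v (k v (k (t 12 1 (u 8 0 (k v (k v r)))) r)))))))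
 .z .z)) (.s 0xeaa22888aa22888e7dfe00 4096 (n false (n true (z 123) e) (n false (n false (n false (n false (n false e e) (n false e e)) (n false (n false e e) (n false e e))) (n false e e)) (n false (n false (n false (n false e e) (n false e e)) (n false (n false e e) (n false e e))) (n false e e)))) (u 4 9 (k v (k v (k v (k r (k r (k (u 8 10 (k v (k (c 16 4097 r r) (k (c 24 4097 r r) (k (c 24 4097 r r) r))))) (k r r))))))))
 (.s 0xeaa22888aa22888e7d7c00 4094 (n false (n true (z 51) e) (n false (n false (n false (n false (n false e e) (n false e e)) (n false (n false e e) (n false e e))) (n false e e)) (n false (n false (n false (n false e e) (n false e e)) (n false (n false e e) (n false e e))) (n false e e)))) (u 4 0 (k (t 12 1 (u 8 0 (k (t 16 3 (t 24 3 v)) r))) r))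
 .z .z) .z))) (.s 0xeaa97f7004aaa8010e1708 4063 (n false (n false (n false (n false (n false (n false (z 46) (z 0)) e) (n false e e)) e) (n true (n false e e) e)) (n false (n true (n false e e) e) (n false e e))) (t 96 1 (u 64 1 (k v (k (u 128 1 (k v (k v r))) (k (c 192 4099 r (u 128 0 (k v (k v r)))) (k (u 128 1 (k v (k v r))) (k (c 192 4097 r (u 128 1 (k v (k v r)))) (k (c 128 4095 r (u 192 1 (k v (k v r)))) r))))))))
 (.s 0xeaa88a222a88a222777600 4090 (n false (n false (z 85) (n false (n false (n false (n false (n false e e) (n false e e)) (n false (n false e e) (n false e e))) (n false e e)) (n false (n false (n false (n false e e) (n false e e)) (n false (n false e e) (n false e e))) (n false e e)))) e) (u 4 4 (k v (k (c 12 4099 r r) (k (c 12 4099 r r) (k (c 12 4099 r (u 8 7 (k v (k v (k v (k (t 24 1 (u 16 6 (k v (k v (k (t 48 1 (u 32 0 (k v (k v r)))) r))))) r)))))) (k (u 8 8 (k v (k v (k v r)))) (k (c 12 4096 r r) (k (c 8 4099 r r) r))))))))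
 (.s 0xeaa22888ee10eb97770010 4078 (n false (n true (n false (n false (n true (z 42) e) e) (n false e e)) e) (n false (n true (n false (n true (n false e e) e) (n false e e)) e) (n false (n false (n false (n false e e) (n false e e)) (n false (n false e e) (n false e e))) (n false e e)))) (c 5 4091 v (u 32 1 (k v (k v r))))
 (.s 0xeaa22888aa22888e7f7e00 4100 (n false (n true (z 119) e) (n false (n false (n false (n false (n false e e) (n false e e)) (n false (n false e e) (n false e e))) (n false e e)) (n false (n false (n false (n false e e) (n false e e)) (n false (n false e e) (n false e e))) (n false e e)))) (u 4 13 (k v (k v (k v (k (t 12 1 r) (k (c 8 4097 r r) (k (c 12 4097 r r) (k (c 12 4097 r r) (k (c 12 4097 r r) (k (c 12 4097 r r) r))))))))))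
 .z .z) (.s 0xeaa88a222a88a222775c00 4093 (n false (n false (n false (n false (n false (n false (n false e e) (n false e e)) (n false (n false e e) (n false e e))) (n false e e)) (n false (n false (n false (n false e e) (n false e e)) (n false (n false e e) (n false e e))) (n false e e))) (z 37)) e) (u 6 8 (k v (k (u 10 0 (k (t 18 3 (t 26 1 v)) r)) (k (c 8 4099 v (c 12 4099 v (u 10 0 (k (t 18 3 (t 26 1 v)) r)))) (k r (k r (k (u 10 3 (k v (k v r))) r)))))))
 .z .z)) (.s 0xeaa88a222a88a2227dfe00 4090 (n false (n false (z 123) (n false (n false (n false (n false (n false e e) (n false e e)) (n false (n false e e) (n false e e))) (n false e e)) (n false (n false (n false (n false e e) (n false e e)) (n false (n false e e) (n false e e))) (n false e e)))) e) (u 4 14 (k v (k (c 12 4099 r r) (k r (k r (k r (k (c 8 4096 r (c 10 4099 v r)) (k (u 8 1 (k v (k (t 24 2 (c 4 4080 (u 4 0 (k r r)) v)) r))) (k (c 12 4097 r r) r)))))))))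
 (.s 0xeaa88a222a88a2227df600 4090 (n false (n false (z 91) (n false (n false (n false (n false (n false e e) (n false e e)) (n false (n false e e) (n false e e))) (n false e e)) (n false (n false (n false (n false e e) (n false e e)) (n false (n false e e) (n false e e))) (n false e e)))) e) (u 4 2 (k v (k v (k (u 8 1 (k v (k v r))) (k (c 8 4097 r (u 12 0 (k v (k v r)))) (k (c 8 4097 r (u 12 0 (k v (k v r)))) (k (c 8 4096 r (u 12 0 (k v (k v r)))) (k (c 8 4095 r (u 12 0 (k v (k v r)))) r))))))))
 .z .z) .z)) (.s 0xeaa9f7f804aaa8010e1708 4063 (n false (n false (n false (n false (n false (n false (z 123) (z 0)) e) (n false e e)) e) (n true (n false e e) e)) (n false (n true (n false e e) e) (n false e e))) (t 96 1 (u 64 4 (k v (k (c 192 4099 r (u 128 2 (k v (k v (k v (k (t 384 2 r) r)))))) (k r (k (u 128 18 (k v (k v (k (c 384 4101 r r) (k (c 384 4099 r r) (k (c 384 4097 r r) (k (c 384 4096 r (u 256 0 (k (u 512 0 (k v (k v r))) r))) (k (c 256 4098 r r) (k (c 256 4101 r r) (k (c 256 4099 r r) (k (c 256 4101 r r) r)))))))))))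 (k (c 128 4096 r (u 192 1 (k v (k v r)))) (k (c 192 4097 r r) r))))))))
 (.s 0xeaa9ddd804aaa8010e1708 4063 (n false (n false (n false (n false (n false (n false (z 85) (z 0)) e) (n false e e)) e) (n true (n false e e) e)) (n false (n true (n false e e) e) (n false e e))) (t 96 1 (u 64 4 (k v (k (c 192 4099 r r) (k (c 192 4099 r r) (k (c 192 4099 r (u 128 1 (k v (k v (k v (k (t 384 1 r) r)))))) (k (u 128 5 (k v (k v (k v (k (t 384 2 (u 256 6 (k v (k v (k (t 768 1 (u 512 2 (k v (k v r)))) r))))) r))))) (k (c 192 4096 r r) (k (c 128 4099 r r) r)))))))))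
 (.s 0xeaa9d7f804aaa8010e1708 4063 (n false (n false (n false (n false (n false (n false (z 121) (z 0)) e) (n false e e)) e) (n true (n false e e) e)) (n false (n true (n false e e) e) (n false e e))) (t 96 1 (u 64 1 (k v (k (c 192 4099 r (u 128 1 (k v (k v r)))) (k (c 128 4097 r (u 192 1 (k v (k v r)))) (k (c 128 4095 r (u 192 0 (k v (k v r)))) (k (c 128 4095 r (u 192 0 (k v (k v r)))) r)))))))
 .z .z) (.s 0xeaa9f75004aebc010e1708 4065 (n false (n false (n false (n false (n false (n false (z 100) (z 11)) e) (n false e e)) e) (n true (n false e e) e)) (n false (n true (n false e e) e) (n false e e))) (t 96 2 (u 64 0 (k (c 192 4096 r r) (k (c 192 4096 r r) (k (c 192 4096 r r) (k (c 192 4097 r (u 128 7 (k v (k v (k v (k (c 384 4099 r (u 256 1 (k v (k v r)))) r)))))) (k (c 192 4096 r r) (k (c 192 4096 r r) r))))))))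
 .z .z)) (.s 0xeae57f5001c3870ba88a20 4067 (n false (n false (n false (n false (n true (z 156) e) (n true (n false e e) e)) (n true (n false e e) e)) (n true (n false e e) e)) (n false (n true (n false (n false (n false e e) (n false e e)) (n false (n false e e) (n false e e))) e) e)) (u 32 1 (k v (k (c 96 4099 r (u 64 1 (k v (k v r)))) (k (c 64 4098 r (u 96 1 (k v (k v r)))) (k (c 64 4097 r (u 96 1 (k v (k v r)))) (k (c 64 4099 r (u 96 1 (k v (k v r)))) (k (c 64 4095 r (u 96 0 (k v (k v r)))) r)))))))
 (.s 0xeabaa2288845110e7f5600 4096 (n false (n true (z 71) e) (n false (n false (n false (n false (n true (n false (n false (n false (n false e e) (n false e e)) (n false (n false e e) (n false e e))) (n false e e)) e) (n false e e)) (n false (n false e e) (n false e e))) (n false e e)) e)) (u 4 9 (k v (k v (k (t 12 1 (u 8 8 (k v (k v (k v r))))) (k (u 8 0 (k v (k (c 24 4101 r (u 16 1 (k v (k v r)))) (k (c 16 4101 r (u 24 1 (k v (k v r)))) (k (c 16 4101 r (u 24 1 (k v (k v r)))) r))))) r)))))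
 .z .z) .z))))

set_option maxRecDepth 100000 in
def N208 : NT :=
(.s 0xebaa2288870e153fbb00e0 4078 (n false (n false (n false (z 87) (n true (n false e e) e)) e) (n false (n false (n true (n false (n false (n false (n false e e) (n false e e)) (n false (n false e e) (n false e e))) (n false e e)) e) (n true (n false e e) e)) (n true (n false e e) e))) (c 9 4110 v (c 13 4094 v r))
 (.s 0xeaea88a22114447caef800 4091 (n false (n true (n true (z 52) e) e) (n false (n false (n false (n true (n false (n false (n false (n false e e) (n false e e)) (n false (n false e e) (n false e e))) (n false e e)) e) (n false e e)) (n false (n false e e) (n false e e))) (n false e e))) (u 8 14 (k v (k v (k v (k v (k v (k v (k (t 24 1 (u 16 0 (k v (k v r)))) r))))))))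
 (.s 0xeaea88a22114445cfeec00 4091 (n false (n false (n true (z 87) e) e) (n false (n false (n false (n true (n false (n false (n false (n false e e) (n false e e)) (n false (n false e e) (n false e e))) (n false e e)) e) (n false e e)) (n false (n false e e) (n false e e))) (n false e e))) (c 9 4108 v (u 8 1 (k v (k v r))))
 (.s 0xeae775c00aa22888e1c3a0 4078 (n false (n false (n false (n false (n true (z 37) e) (n false (n false (n false (n false e e) (n false e e)) (n false (n false e e) (n false e e))) (n false e e))) (n true (n false e e) e)) (n true (n false e e) e)) (n true (n false (n false e e) e) e)) (u 32 51 (k v (k v (k v (k (c 24 4099 v (c 6 4094 v (u 64 21 (k v (k v (k v (k (t 192 1 (u 128 0 (k (t 256 3 (t 384 1 v)) r))) r))))))) (k (c 16 4088 r v) r))))))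
 (.s 0xeae75fe00aa22888e1c3a0 4078 (n false (n false (n false (n false (n true (z 121) e) (n false (n false (n false (n false e e) (n false e e)) (n false (n false e e) (n false e e))) (n false e e))) (n true (n false e e) e)) (n true (n false e e) e)) (n true (n false (n false e e) e) e)) (u 32 39 (k v (k v (k (c 96 4099 r (u 64 1 (k v (k v r)))) (k (c 64 4095 r (u 96 0 (k v (k v r)))) r)))))
 .z .z) (.s 0xeaea88a22114445cbfa800 4089 (n false (n false (n true (z 14) e) e) (n false (n false (n false (n true (n false (n false (n false (n false e e) (n false e e)) (n false (n false e e) (n false e e))) (n false e e)) e) (n false e e)) (n false (n false e e) (n false e e))) (n false e e))) (c 9 4108 v (u 8 0 (k v (k v r))))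
 .z .z)) (.s 0xeaea88a221144474fefc00 4096 (n false (n true (n false (z 119) e) e) (n false (n false (n false (n true (n false (n false (n false (n false e e) (n false e e)) (n false (n false e e) (n false e e))) (n false e e)) e) (n false e e)) (n false (n false e e) (n false e e))) (n false e e))) (u 8 10 (k v (k (t 24 1 (u 16 36 (k v (k v (k (t 48 1 (u 32 0 (k v (k v r)))) r))))) (k (c 24 4097 r (u 16 1 (k v (k (c 48 4099 r (u 32 1 (k v (k v r)))) (k (c 32 4097 r (u 48 1 (k v (k v r)))) (k (c 32 4095 r (u 48 0 (k v (k v r)))) (k (c 32 4095 r (u 48 0 (k v (k v r)))) r))))))) (k (c 24 4097 r (u 16 8 (k v (k v (k (c 48 4099 r (u 32 1 (k v (k v r)))) (k (c 32 4098 r (u 48 1 (k v (k v r)))) (k (c 32 4097 r (u 48 1 (k v (k v r)))) (k (c 32 4099 r (u 48 1 (k v (k v r)))) r)))))))) r)))))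
 (.s 0xeaea88a221144472bfa800 4096 (n false (n true (z 156) e) (n false (n false (n false (n true (n false (n false (n false (n false e e) (n false e e)) (n false (n false e e) (n false e e))) (n false e e)) e) (n false e e)) (n false (n false e e) (n false e e))) (n false e e))) (u 4 1 (k v (k (c 12 4099 r (u 8 1 (k v (k v r)))) (k (c 8 4098 r (u 12 1 (k v (k v r)))) (k (c 8 4097 r (u 12 1 (k v (k v r)))) (k (c 8 4099 r (u 12 1 (k v (k v r)))) (k (c 8 4095 r (u 12 0 (k v (k v r)))) r)))))))
 .z .z) .z)) (.s 0xebaa228885445114faac00 4088 (n false (n false (n false (z 67) e) (n false (n true (n false (n false (n false (n false e e) (n false e e)) (n false (n false e e) (n false e e))) (n false e e)) e) (n false (n false (n false e e) (n false e e)) (n false (n false e e) (n false e e))))) e) (u 8 120 (k v (k (t 24 2 r) (k (c 16 4096 r r) (k (c 16 4096 r r) (k (t 24 1 r) (k r (k (c 4 4088 r v) (k (c 24 4097 r r) (k (c 24 4099 r (c 14 4101 v (u 16 1 (k v (k (c 48 4097 r (u 32 0 (k v (k v r)))) r))))) (k (t 16 2 r) (k (c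 4 4091 (t 6 2 (u 4 0 (k r r))) v) (k (t 16 1 r) (k (t 24 2 r) (k (c 4 4091 (t 4 1 (u 6 0 (k r r))) v) (k (t 24 2 (c 4 4086 r v)) (k (t 24 2 r) (k (t 24 1 r) (k (t 24 2 r) (k (t 24 2 r) (k (t 24 1 r) r)))))))))))))))))))))
 (.s 0xeaea88a22114447cfaf800 4093 (n false (n true (n true (z 51) e) e) (n false (n false (n false (n true (n false (n false (n false (n false e e) (n false e e)) (n false (n false e e) (n false e e))) (n false e e)) e) (n false e e)) (n false (n false e e) (n false e e))) (n false e e))) (u 8 0 (k (t 24 1 (u 16 0 (k (t 32 3 (t 48 3 v)) r))) r))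
 (.s 0xeaea88a22114447cebec00 4093 (n false (n true (n true (z 89) e) e) (n false (n false (n false (n true (n false (n false (n false (n false e e) (n false e e)) (n false (n false e e) (n false e e))) (n false e e)) e) (n false e e)) (n false (n false e e) (n false e e))) (n false e e))) (u 8 0 (k v (k v (k v (k (t 24 2 (u 16 36 (k v (k v (k (t 48 1 (u 32 0 (k v (k v r)))) r))))) r)))))
 .z .z) (.s 0xebaa2288852bfa800e1708 4074 (n false (n false (n false (n false (z 156) e) (n true (n false (n false (n false (n false e e) (n false e e)) (n false (n false e e) (n false e e))) (n false e e)) e)) (n true (n false e e) e)) (n false (n true (n false e e) e) (n false e e))) (c 20 4099 v (c 6 4094 v (u 16 1 (k v (k (c 48 4099 r (u 32 1 (k v (k v r)))) (k (c 32 4098 r (u 48 1 (k v (k v r)))) (k (c 32 4097 r (u 48 1 (k v (k v r)))) (k (c 32 4099 r (u 48 1 (k v (k v r)))) (k (c 32 4095 r (u 48 0 (k v (k v r)))) r)))))))))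
 .z .z)) (.s 0xebaa22888544511cfef800 4086 (n false (n false (n true (z 55) e) (n false (n true (n false (n false (n false (n false e e) (n false e e)) (n false (n false e e) (n false e e))) (n false e e)) e) (n false (n false (n false e e) (n false e e)) (n false (n false e e) (n false e e))))) e) (u 8 4 (k (t 24 1 (u 16 14 (k v (k (c 48 4099 r (t 32 3 v)) (k (c 14 4101 v (u 32 4 (k v (k (t 96 1 (u 64 4 (k v (k v r)))) r)))) (k (u 32 4 (k v (k (t 96 1 (u 64 4 (k v (k v r)))) r))) (k (c 14 4101 v (c 18 4099 v (u 32 0 (k r (k r r))))) (k r r)))))))) (k (t 24 2 (u 16 9 (k v (k v (k (c 4 4082 (u 8 1 (k v (k v r))) v) r))))) r)))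
 (.s 0xebaa22888544511cbbb800 4085 (n false (n false (n true (z 42) e) (n false (n true (n false (n false (n false (n false e e) (n false e e)) (n false (n false e e) (n false e e))) (n false e e)) e) (n false (n false (n false e e) (n false e e)) (n false (n false e e) (n false e e))))) e) (u 8 2 (k v (k (c 4 4087 (t 6 1 r) v) (k (u 16 7 (k v (k (c 10 4110 v r) (k (c 10 4110 v r) (k (c 4 4087 r v) r))))) (k (c 4 4087 r v) (k (c 10 4110 v r) (k (c 10 4110 v r) r)))))))
 .z .z) .z))) (.s 0xee577c00aa22888e7d5600 4093 (n false (n false (n true (z 52) e) (n false (n false (n false (n false e e) (n false e e)) (n false (n false e e) (n false e e))) (n false e e))) (n true (z 67) e)) (u 8 261 (k r (k (c 6 4099 v (u 5 0 (k v (k v r)))) (k (c 6 4099 v (u 5 0 (k v (k v r)))) (k r (k r (k (t 24 1 (u 16 0 (k r (k r r)))) r)))))))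
 (.s 0xebaa7dd4013eaf0043b840 4068 (n false (n false (n false (n true (n false (n false (n false (z 11) (z 99)) e) (n false e e)) e) (n true (n false (n true (n false e e) e) (n false e e)) e)) e) e) (t 128 2 (u 192 0 (k (c 320 4101 r (u 448 0 (k (t 704 3 (t 960 1 v)) r))) (k (c 448 4096 r r) (k (c 448 4096 r r) (k (c 448 4096 r r) (k (c 448 4096 r r) r)))))))
 (.s 0xebaa75fe012aaa0043b840 4066 (n false (n false (n false (n true (n false (n false (n false (z 121) (z 0)) e) (n false e e)) e) (n true (n false (n true (n false e e) e) (n false e e)) e)) e) e) (t 192 1 (u 128 1 (k v (k (c 384 4099 r (u 256 1 (k v (k v r)))) (k (c 256 4097 r (u 384 1 (k v (k v r)))) (k (c 256 4095 r (u 384 0 (k v (k v r)))) (k (c 256 4095 r (u 384 0 (k v (k v r)))) r)))))))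
 (.s 0xebaa2288870e1d2eee00e0 4078 (n false (n true (n false (z 42) (n true (n false e e) e)) e) (n false (n false (n true (n false (n false (n false (n false e e) (n false e e)) (n false (n false e e) (n false e e))) (n false e e)) e) (n true (n false e e) e)) (n true (n false e e) e))) (u 8 16 (k v (k v (k r (k (c 17 4099 v (c 7 4094 v r)) (k (c 17 4099 v (c 7 4094 v r)) (k (c 17 4099 v (c 7 4094 v r)) r)))))))
 .z .z) (.s 0xebaa7dd4012baf0043b840 4068 (n false (n false (n false (n true (n false (n false (n false (z 100) (z 11)) e) (n false e e)) e) (n true (n false (n true (n false e e) e) (n false e e)) e)) e) e) (t 192 2 (u 128 0 (k (c 256 4101 r r) (k (c 384 4096 r r) (k (c 384 4096 r r) (k (c 384 4097 r (u 256 7 (k v (k v (k v (k (c 768 4099 r (u 512 1 (k v (k v r)))) r)))))) (k (c 384 4096 r r) (k (c 384 4096 r r) r))))))))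
 .z .z)) (.s 0xee55fc00aa22888e7d5600 4093 (n false (n false (n true (z 56) e) (n false (n false (n false (n false e e) (n false e e)) (n false (n false e e) (n false e e))) (n false e e))) (n true (z 67) e)) (u 8 0 (k (u 16 334 (k (c 10 4101 v r) (k r (k r (k (c 10 4101 v r) (k r r)))))) (k (c 16 4096 r (u 24 0 (k (u 5 0 (k v (k v r))) (k (u 5 0 (k v (k v r))) r)))) (k (u 16 1 (k (u 5 0 (k v (k v r))) (k (u 5 0 (k v (k v r))) r))) (k (c 24 4096 r r) r)))))
 (.s 0xebaa7dfe012aaa0043b840 4066 (n false (n false (n false (n true (n false (n false (n false (z 123) (z 0)) e) (n false e e)) e) (n true (n false (n true (n false e e) e) (n false e e)) e)) e) e) (t 192 1 (u 128 27 (k v (k (c 384 4099 r (u 256 5 (k v (k v (k v (k (t 768 2 r) r)))))) (k (u 256 26 (k v (k (c 768 4101 r r) (k (c 512 4101 r r) (k (c 512 4101 r r) r))))) (k (c 256 4096 r (u 384 1 (k v (k v r)))) (k (c 384 4097 r (u 256 26 (k v (k (c 768 4101 r r) (k (c 512 4101 r r) (k (c 512 4101 r r) r)))))) r)))))))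
 .z .z) .z)) (.s 0xee5ddc00e5ddc00aa22888 4090 (n false (n false (n true (z 42) e) (n true (z 42) e)) (n false (n false (n false (n false e e) (n false e e)) (n false (n false e e) (n false e e))) (n false e e))) (u 8 9 (k (u 10 1 (k v (k v r))) (k (c 3 4099 v r) (k (u 10 1 (k v (k v r))) r))))
 (.s 0xee5ddc0095fd400aa22888 4091 (n false (n false (z 156) (n true (z 42) e)) (n false (n false (n false (n false e e) (n false e e)) (n false (n false e e) (n false e e))) (n false e e))) (u 4 1 (k (u 10 1 (k v (k v r))) (k (c 12 4099 r r) (k (c 8 4098 r r) (k (c 8 4097 r r) (k (c 8 4099 r r) (k (c 8 4095 r r) r)))))))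
 (.s 0xee57f500154451112ffe00 4096 (n false (n false (n true (z 156) e) (n false (n false (n false (n false e e) (n false e e)) (n false (n false e e) (n false e e))) (n false e e))) (z 62)) (u 8 4 (k r (k (c 16 4099 r (u 3 4 (k (u 24 1 (k v (k v r))) (k (u 24 1 (k v (k v r))) (k (c 6 4099 v (u 24 1 (k v (k v r)))) (k (t 7 1 r) r)))))) r)))
 .z .z) (.s 0xee5ddc00aa22888a555c00 4091 (n false (n false (n true (z 42) e) (n false (n false (n false (n false e e) (n false e e)) (n false (n false e e) (n false e e))) (n false e e))) (n false (z 32) e)) (u 8 67 (k (u 5 0 (k (t 9 3 (t 13 1 v)) r)) (k (t 5 4 v) (k (c 5 4096 r v) (k (c 3 4101 (u 2 0 (k (t 4 3 (t 6 1 v)) r)) (c 10 4101 v r)) (k (c 3 4101 (u 2 0 (k (t 4 3 (t 6 1 v)) r)) (c 10 4101 v r)) (k (c 3 4101 (u 2 0 (k (t 4 3 (t 6 1 v)) r)) (c 10 4101 v r)) r)))))))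
 .z .z)) (.s 0xee75fe00ea228875445110 4088 (n false (n false (n true (z 121) e) (n true (n false (n false (n false e e) (n false e e)) (n false (n false e e) (n false e e))) e)) (n true (n false (n false (n false (n false e e) (n false e e)) (n false (n false e e) (n false e e))) (n false e e)) e)) (u 8 43 (k v (k v (k v (k (c 24 4099 r (u 16 6 (k v (k v (k v r))))) r)))))
 (.s 0xee5fd4009dd70075445110 4089 (n false (n false (n true (z 14) e) (z 37)) (n true (n false (n false (n false (n false e e) (n false e e)) (n false (n false e e) (n false e e))) (n false e e)) e)) (c 5 4099 v (u 8 0 (k r (k r r))))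
 .z .z) .z))))

set_option maxRecDepth 100000 in
def N209 : NT :=
(.s 0xee7f7600e7f7600aa22888 4086 (n false (n false (n true (z 87) e) (n true (z 87) e)) (n false (n false (n false (n false e e) (n false e e)) (n false (n false e e) (n false e e))) (n false e e))) (u 8 1 (k (u 10 1 (k v (k v r))) (k (u 10 1 (k v (k v r))) r)))
 (.s 0xee7f760095fd400aa22888 4091 (n false (n false (z 156) (n true (z 87) e)) (n false (n false (n false (n false e e) (n false e e)) (n false (n false e e) (n false e e))) (n false e e))) (u 4 30 (k (u 10 1 (k v (k v r))) (k (u 10 1 (k v (k v r))) (k (c 12 4099 r r) (k (c 8 4099 r r) (k (c 8 4095 r r) r))))))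
 (.s 0xee7d560095fd400aa22888 4095 (n false (n false (n true (z 67) e) (z 156)) (n false (n false (n false (n false e e) (n false e e)) (n false (n false e e) (n false e e))) (n false e e))) (u 6 0 (k (c 3 4099 v r) (k (c 14 4099 r r) r)))
 (.s 0xee775c00ea228875445110 4088 (n false (n false (n true (z 37) e) (n true (n false (n false (n false e e) (n false e e)) (n false (n false e e) (n false e e))) e)) (n true (n false (n false (n false (n false e e) (n false e e)) (n false (n false e e) (n false e e))) (n false e e)) e)) (u 8 0 (k v (k (c 8 4101 (u 2 0 (k (t 4 3 (t 6 1 v)) r)) v) (k (u 16 0 (k (t 32 3 (t 48 1 v)) r)) (k (c 8 4101 r v) (k (u 16 0 (k v (k v (k (t 48 1 (u 32 0 (k (t 64 3 (t 96 1 v)) r))) r)))) (k (c 8 4095 r v) r)))))))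
 (.s 0xee775c00aa22888e7d5600 4097 (n false (n true (z 67) e) (n false (n true (z 37) e) (n false (n false (n false (n false e e) (n false e e)) (n false (n false e e) (n false e e))) (n false e e)))) (c 11 4101 v (u 9 0 (k r (k r (k r (k (c 7 4094 v (u 4 23 (k r (k (c 17 4096 r v) r)))) (k (u 17 0 (k r (k (c 9 4094 v r) (k r r)))) (k (c 9 4095 r r) r))))))))
 .z .z) (.s 0xee777600aa22888e7d5600 4097 (n false (n false (n true (z 85) e) (n false (n false (n false (n false e e) (n false e e)) (n false (n false e e) (n false e e))) (n false e e))) (n true (z 67) e)) (u 8 69 (k r (k (c 10 4101 v r) (k (c 24 4099 r r) (k (c 24 4099 r r) (k (u 16 54 (k (c 10 4101 v r) (k r (k r r)))) (k (c 24 4096 r r) r)))))))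
 .z .z)) (.s 0xee7f760095df0075445110 4093 (n false (n false (n true (z 87) e) (z 52)) (n true (n false (n false (n false (n false e e) (n false e e)) (n false (n false e e) (n false e e))) (n false e e)) e)) (u 6 132 (k (u 8 1 (k v (k v r))) (k r (k (c 8 4099 r v) (k (c 8 4099 r v) (k (c 2 4084 (u 4 1 (k v (k v r))) v) (k (t 14 1 (u 10 0 (k (u 8 1 (k v (k v r))) (k (u 8 1 (k v (k v r))) r)))) r)))))))
 (.s 0xee7d5600e5ddc00aa22888 4092 (n false (n false (n true (z 67) e) (n true (z 42) e)) (n false (n false (n false (n false e e) (n false e e)) (n false (n false e e) (n false e e))) (n false e e))) (u 10 0 (k (u 8 0 (k v (k v r))) (k (c 3 4099 v r) r)))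
 .z .z) .z)) (.s 0xee7f7600aa22888eba21c0 4075 (n false (n false (n true (z 87) e) (n false (n false (n false (n false e e) (n false e e)) (n false (n false e e) (n false e e))) (n false e e))) (n true (n false (n false (n true (n false (n false e e) (n false e e)) e) (n true (n false e e) e)) e) e)) (c 25 4094 v (u 8 1 (k v (k v r))))
 (.s 0xee7f76009dd70075445110 4089 (n false (n false (z 37) (n true (z 87) e)) (n true (n false (n false (n false (n false e e) (n false e e)) (n false (n false e e) (n false e e))) (n false e e)) e)) (c 5 4099 v (u 10 1 (k r (k r r))))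
 (.s 0xee7f760097770075445110 4093 (n false (n false (n true (z 87) e) (z 42)) (n true (n false (n false (n false (n false e e) (n false e e)) (n false (n false e e) (n false e e))) (n false e e)) e)) (u 6 21 (k r (k r (k (u 8 1 (k v (k v r))) (k (u 8 1 (k v (k v r))) (k (c 8 4099 r r) (k (c 8 4099 r r) (k (c 8 4099 r r) (k (c 8 4099 r r) r)))))))))
 .z .z) (.s 0xee7f7600a7d5600aa22888 4091 (n false (n false (n false (z 67) e) (n true (z 87) e)) (n false (n false (n false (n false e e) (n false e e)) (n false (n false e e) (n false e e))) (n false e e))) (u 10 0 (k (u 8 23 (k v (k v r))) (k (c 3 4099 v r) r)))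
 .z .z)) (.s 0xee7f7600e7d5600aa22888 4092 (n false (n false (n true (z 67) e) (n true (z 87) e)) (n false (n false (n false (n false e e) (n false e e)) (n false (n false e e) (n false e e))) (n false e e))) (u 8 23 (k (u 10 1 (k v (k v r))) (k (u 10 1 (k v (k v r))) r)))
 (.s 0xee7f7600e5ddc00aa22888 4088 (n false (n false (n true (z 87) e) (n true (z 42) e)) (n false (n false (n false (n false e e) (n false e e)) (n false (n false e e) (n false e e))) (n false e e))) (u 10 1 (k (u 8 1 (k v (k v r))) (k (u 8 1 (k v (k v r))) r)))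
 .z .z) .z))) (.s 0xeea88a2213aff00aa22888 4092 (n false (n false (z 121) (n true (n false (n false (n false (n false e e) (n false e e)) (n false (n false e e) (n false e e))) (n false e e)) e)) (n false (n false (n false (n false e e) (n false e e)) (n false (n false e e) (n false e e))) (n false e e))) (u 4 1 (k v (k (c 12 4099 r (u 8 1 (k v (k v r)))) (k (c 8 4097 r r) (k (c 8 4095 r (u 12 0 (k v (k v r)))) (k (c 8 4095 r (u 12 0 (k v (k v r)))) r))))))
 (.s 0xeea7d5600e08bea88a2208 4070 (n false (n false (n true (n false (n false (z 67) e) (n true (n false e e) e)) e) (n false e e)) (n false (n true (n true (n false (n false (n false (n false e e) (n false e e)) (n false (n false e e) (n false e e))) (n false e e)) e) e) (n false e e))) (u 32 153 (k v (k v (k v (k (t 96 2 (c 4 4075 r v)) (k (t 64 2 (c 4 4064 (u 24 0 (k (u 40 0 (k v (k v r))) r)) v)) (k (t 96 1 (c 4 4075 r v)) (k (t 96 2 (c 4 4067 r v)) (k (c 4 4072 r v) (k (t 96 1 (c 4 4067 r v)) (k (t 96 2 (c 4 4065 r v)) (k (t 64 2 (c 4 4075 r v)) (k (t 96 2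 r) (k (t 64 1 (c 4 4075 r v)) (k (t 96 2 (c 4 4069 r v)) (k (t 64 1 r) (k (t 96 2 (c 4 4069 r v)) (k (t 96 1 (c 4 4069 r v)) (k (t 96 2 (c 4 4069 r v)) (k (t 96 2 (c 4 4069 r v)) (k (t 96 1 (c 4 4069 r v)) r)))))))))))))))))))))
 (.s 0xee95f5004aeb801caef800 4083 (n false (n false (n true (z 52) e) (n true (n false (z 12) (z 36)) e)) e) (t 18 2 (u 8 248 (k r (k (c 6 4084 r v) (k r (k r (k (c 6 4084 r v) (k (t 26 3 v) (k (c 6 4084 r v) (k (c 4 4087 (t 6 2 r) (c 6 4084 r v)) (k (c 4 4087 (t 6 1 r) (c 6 4084 r v)) r)))))))))))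
 (.s 0xee9555804aaa801caef800 4083 (n false (n false (n true (n false (z 64) (z 0)) e) (n true (z 52) e)) e) (t 24 1 (u 10 248 (k r (k (c 4 4087 r v) (k r (k r (k (c 4 4087 r v) (k (t 16 2 v) (k (c 6 4084 v (c 4 4087 r v)) (k (c 6 4087 (t 6 2 r) (c 4 4087 r v)) (k (c 6 4090 (t 6 1 r) (c 4 4087 r v)) r)))))))))))
 .z .z) (.s 0xee9d7d8013fbb00e7d5600 4095 (n false (n false (n true (n false (z 89) e) e) (z 87)) (n true (z 67) e)) (u 5 0 (k (t 6 1 (c 3 4091 v r)) (k (c 4 4096 (c 4 4098 r v) (u 6 1 (k v (k v r)))) r)))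
 .z .z)) (.s 0xeea88a2212fee00aa22888 4091 (n false (n false (z 46) (n true (n false (n false (n false (n false e e) (n false e e)) (n false (n false e e) (n false e e))) (n false e e)) e)) (n false (n false (n false (n false e e) (n false e e)) (n false (n false e e) (n false e e))) (n false e e))) (u 4 1 (k v (k r (k (c 12 4099 r (u 8 0 (k v (k v r)))) (k (u 8 1 (k v (k v r))) (k (c 12 4097 r r) (k (c 8 4095 r r) r)))))))
 (.s 0xeea88a2212bff00aa22888 4092 (n false (n false (z 124) (n true (n false (n false (n false (n false e e) (n false e e)) (n false (n false e e) (n false e e))) (n false e e)) e)) (n false (n false (n false (n false e e) (n false e e)) (n false (n false e e) (n false e e))) (n false e e))) (u 4 1 (k v (k (c 12 4097 r (u 8 1 (k v (k v r)))) (k (c 12 4096 r (u 8 1 (k v (k v r)))) (k (c 8 4098 r (u 12 0 (k v (k v r)))) (k (c 12 4096 r (u 8 1 (k v (k v r)))) (k (c 12 4097 r (u 8 1 (k v (k v r)))) (k (c 12 4097 r (u 8 1 (k v (k v r)))) (k (c 12 4096 r (u 8 1 (k v (k v r)))) (k (c 12 4099 r (u 8 1 (k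 v (k v r)))) (k (c 8 4097 r (u 12 1 (k v (k v r)))) r)))))))))))
 .z .z) .z)) (.s 0xeea88a2215114474fefc00 4096 (n false (n true (n false (z 119) e) e) (n false (n true (n false (n false (n false (n false e e) (n false e e)) (n false (n false e e) (n false e e))) (n false e e)) e) (n false (n false (n false e e) (n false e e)) (n false (n false e e) (n false e e))))) (u 8 10 (k v (k (t 24 1 (u 16 36 (k v (k v (k (t 48 1 (u 32 0 (k v (k v r)))) r))))) (k (c 24 4097 r (u 16 1 (k v (k (c 48 4099 r (u 32 1 (k v (k v r)))) (k (c 32 4097 r (u 48 1 (k v (k v r)))) (k (c 32 4095 r (u 48 0 (k v (k v r)))) (k (c 32 4095 r (u 48 0 (k v (k v r)))) r))))))) (k (c 24 4097 r (u 16 8 (k v (k v (k (c 48 4099 r (u 32 1 (k v (k v r)))) (k (c 32 4098 r (u 48 1 (k v (k v r)))) (k (c 32 4097 r (u 48 1 (k v (k v r)))) (k (c 32 4099 r (u 48 1 (k v (k v r)))) r)))))))) r)))))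
 (.s 0xeea88a2215114453eff008 4090 (n false (n false (z 123) (n false e e)) (n false (n true (n false (n false (n false (n false e e) (n false e e)) (n false (n false e e) (n false e e))) (n false e e)) e) (n false (n false (n false e e) (n false e e)) (n false (n false e e) (n false e e))))) (u 4 46 (k v (k v (k v (k (c 12 4099 r (u 8 47 (k v (k v (k v (k v r)))))) (k (c 3 4096 v r) (k (c 3 4096 v r) r)))))))
 (.s 0xeea88a2213bae00aa22888 4094 (n false (n false (z 37) (n true (n false (n false (n false (n false e e) (n false e e)) (n false (n false e e) (n false e e))) (n false e e)) e)) (n false (n false (n false (n false e e) (n false e e)) (n false (n false e e) (n false e e))) (n false e e))) (u 4 8 (k v (k (u 8 0 (k (t 16 3 (t 24 1 v)) r)) (k (c 10 4099 v (c 3 4099 v (u 8 0 (k (t 16 3 (t 24 1 v)) r)))) (k (u 8 2 (k v (k v (k v (k (t 24 1 (u 16 0 (k (t 32 3 (t 48 1 v)) r))) r))))) (k (u 8 2 (k v (k v (k v (k (t 24 1 (u 16 0 (k (t 32 3 (t 48 1 v)) r))) r))))) (k (u 8 7 (k v (k v r))) r)))))))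
 .z .z) (.s 0xeea88a2215114472bfa800 4096 (n false (n true (z 156) e) (n false (n true (n false (n false (n false (n false e e) (n false e e)) (n false (n false e e) (n false e e))) (n false e e)) e) (n false (n false (n false e e) (n false e e)) (n false (n false e e) (n false e e))))) (u 4 1 (k v (k (c 12 4099 r (u 8 1 (k v (k v r)))) (k (c 8 4098 r (u 12 1 (k v (k v r)))) (k (c 8 4097 r (u 12 1 (k v (k v r)))) (k (c 8 4099 r (u 12 1 (k v (k v r)))) (k (c 8 4095 r (u 12 0 (k v (k v r)))) r)))))))
 .z .z)) (.s 0xeea88a221511447cebec00 4093 (n false (n true (n true (z 89) e) e) (n false (n true (n false (n false (n false (n false e e) (n false e e)) (n false (n false e e) (n false e e))) (n false e e)) e) (n false (n false (n false e e) (n false e e)) (n false (n false e e) (n false e e))))) (u 8 0 (k v (k v (k v (k (t 24 2 (u 16 36 (k v (k v (k (t 48 1 (u 32 0 (k v (k v r)))) r))))) r)))))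
 (.s 0xeea88a221511447caef800 4091 (n false (n true (n true (z 52) e) e) (n false (n true (n false (n false (n false (n false e e) (n false e e)) (n false (n false e e) (n false e e))) (n false e e)) e) (n false (n false (n false e e) (n false e e)) (n false (n false e e) (n false e e))))) (u 8 14 (k v (k v (k v (k v (k v (k v (k (t 24 1 (u 16 0 (k v (k v r)))) r))))))))
 .z .z) .z))))

set_option maxRecDepth 100000 in
def N210 : NT :=
(.s 0xeebb9fdd80055114442288 4083 (n false (n false (n true (n false (n false (n true (n false (n true (z 87) e) e) e) e) (n false (n false (n false (n false e e) (n false e e)) (n false (n false e e) (n false e e))) (n false e e))) e) (n false e e)) (n false (n false e e) (n false e e))) (c 24 4099 v (c 8 4070 (u 32 1 (k v (k v r))) v))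
 (.s 0xeea9f75004fabc010e1708 4068 (n false (n false (n true (n false (n false (n false (z 11) (z 99)) e) (n false e e)) e) (n true (n false e e) e)) (n false (n true (n false e e) e) (n false e e))) (t 64 2 (u 96 0 (k (c 160 4101 r (u 224 0 (k (t 352 3 (t 480 1 v)) r))) (k (c 224 4096 r r) (k (c 224 4096 r r) (k (c 224 4096 r r) (k (c 224 4096 r r) r)))))))
 (.s 0xeea9d7f804aaa8010ee108 4064 (n false (n false (n true (n false (n false (n false (z 121) (z 0)) e) (n false e e)) e) (n true (n false (n true (n false e e) e) (n false e e)) e)) (n false e e)) (t 96 1 (u 64 1 (k v (k (c 192 4099 r (u 128 1 (k v (k v r)))) (k (c 128 4097 r (u 192 1 (k v (k v r)))) (k (c 128 4095 r (u 192 0 (k v (k v r)))) (k (c 128 4095 r (u 192 0 (k v (k v r)))) r)))))))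
 (.s 0xeea97fd400955500211708 4071 (n false (n false (n true (n false (n false (n false (z 158) (z 0)) e) (n false e e)) e) (n false e e)) (n false (n true (n false e e) e) (n false e e))) (t 96 1 (u 64 0 (k (u 128 1 (k v (k v (k (t 384 1 (u 256 0 (k v (k (c 768 4099 r (u 512 30 (k v (k v (k v r))))) r)))) r)))) r)))
 (.s 0xeea95fd400955500211708 4071 (n false (n false (n true (n false (n false (n false (z 156) (z 0)) e) (n false e e)) e) (n false e e)) (n false (n true (n false e e) e) (n false e e))) (t 96 1 (u 64 1 (k v (k (c 192 4099 r (u 128 1 (k v (k v r)))) (k (c 128 4098 r (u 192 1 (k v (k v r)))) (k (c 128 4097 r (u 192 1 (k v (k v r)))) (k (c 128 4099 r (u 192 1 (k v (k v r)))) (k (c 128 4095 r (u 192 0 (k v (k v r)))) r))))))))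
 .z .z) (.s 0xeea9d7f804aaa8010e1708 4066 (n false (n false (n true (n false (n false (n false (z 121) (z 0)) e) (n false e e)) e) (n true (n false e e) e)) (n false (n true (n false e e) e) (n false e e))) (t 96 1 (u 64 1 (k v (k (c 192 4099 r (u 128 1 (k v (k v r)))) (k (c 128 4097 r (u 192 1 (k v (k v r)))) (k (c 128 4095 r (u 192 0 (k v (k v r)))) (k (c 128 4095 r (u 192 0 (k v (k v r)))) r)))))))
 .z .z)) (.s 0xeea9f75004aebc010ee108 4066 (n false (n false (n true (n false (n false (n false (z 11) (z 100)) e) (n false e e)) e) (n true (n false (n true (n false e e) e) (n false e e)) e)) (n false e e)) (t 64 2 (u 96 0 (k (c 224 4096 r r) (k (c 224 4096 r r) (k (c 224 4096 r r) (k (c 224 4097 r (u 160 7 (k v (k v (k v (k (c 416 4099 r (u 288 1 (k v (k v r)))) r)))))) (k (c 224 4096 r r) (k (c 224 4096 r r) r))))))))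
 (.s 0xeea9f75004aebc010e1708 4068 (n false (n false (n true (n false (n false (n false (z 11) (z 100)) e) (n false e e)) e) (n true (n false e e) e)) (n false (n true (n false e e) e) (n false e e))) (t 64 2 (u 96 0 (k (c 160 4101 r r) (k (c 224 4096 r r) (k (c 224 4096 r r) (k (c 224 4097 r (u 160 7 (k v (k v (k v (k (c 416 4099 r (u 288 1 (k v (k v r)))) r)))))) (k (c 224 4096 r r) (k (c 224 4096 r r) r))))))))
 .z .z) .z)) (.s 0xeeaa77dc008707d5114440 4069 (n false (n false (n true (n false (n false (n false (n false (z 45) e) (n false e e)) e) (n true (n false e e) e)) e) (n true (n true (n false (n false (n false (n false e e) (n false e e)) (n false (n false e e) (n false e e))) (n false e e)) e) e)) e) (u 128 4 (k v (k (t 384 1 (u 256 4 (k v (k v r)))) r)))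
 (.s 0xeea9f7f804aaa8010ee108 4064 (n false (n false (n true (n false (n false (n false (z 123) (z 0)) e) (n false e e)) e) (n true (n false (n true (n false e e) e) (n false e e)) e)) (n false e e)) (t 96 1 (u 64 4 (k v (k (c 192 4099 r (u 128 2 (k v (k v (k v (k (t 384 2 r) r)))))) (k r (k (u 128 11 (k v (k v (k (c 384 4101 r r) (k (c 384 4099 r r) (k (c 384 4096 r (u 256 0 (k (u 512 70 (k v (k v (k v r)))) r))) (k (c 256 4098 r r) (k (c 256 4101 r r) (k (c 256 4099 r r) (k (c 256 4101 r r) r)))))))))) (k (c 128 4096 r (u 192 1 (k v (k v r)))) (k (c 192 4097 r r) r))))))))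
 (.s 0xeea9f7f804aaa8010e1708 4066 (n false (n false (n true (n false (n false (n false (z 123) (z 0)) e) (n false e e)) e) (n true (n false e e) e)) (n false (n true (n false e e) e) (n false e e))) (t 96 1 (u 64 27 (k v (k (c 192 4099 r (u 128 5 (k v (k v (k v (k (t 384 2 r) r)))))) (k (u 128 26 (k v (k (c 384 4101 r r) (k (c 256 4101 r r) (k (c 256 4101 r r) r))))) (k (c 128 4096 r (u 192 1 (k v (k v r)))) (k (c 192 4097 r (u 128 26 (k v (k (c 384 4101 r r) (k (c 256 4101 r r) (k (c 256 4101 r r) r)))))) r)))))))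
 .z .z) (.s 0xeeaa2288897770022ee108 4078 (n false (n false (n true (n false (z 42) (n false (n false (n false (n false e e) (n false e e)) (n false (n false e e) (n false e e))) (n false e e))) e) (n false e e)) (n false (n true (n false (n true (n false e e) e) (n false e e)) e) (n false e e))) (u 16 83 (k v (k v (k (t 32 3 (t 48 1 v)) (k (c 3 4089 v (u 32 1 (k v (k v r)))) (k (t 48 3 (c 24 4099 v (u 32 0 (k v (k v r))))) (k (c 3 4089 v r) (k (c 3 4089 v r) r))))))))
 .z .z)) (.s 0xeebaa2288844257f500288 4076 (n false (n false (n true (n false (n false (n true (n false (n false (n false (n false e e) (n false e e)) (n false (n false e e) (n false e e))) (n false e e)) e) (n false e e)) (n false e e)) e) (z 156)) (n false (n false e e) (n false e e))) (u 6 1 (k v (k (c 14 4099 r (u 10 1 (k v (k v r)))) (k (c 10 4098 r (u 14 1 (k v (k v r)))) (k (c 10 4097 r (c 64 4099 v r)) (k (c 10 4099 r (u 14 1 (k v (k v r)))) (k (c 10 4095 r (u 14 0 (k v (k v r)))) r)))))))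
 (.s 0xeeae77dc008707d5114440 4069 (n false (n false (n true (n false (n false (n false (n true (z 45) e) (n false e e)) e) (n true (n false e e) e)) e) (n true (n true (n false (n false (n false (n false e e) (n false e e)) (n false (n false e e) (n false e e))) (n false e e)) e) e)) e) (u 128 4 (k v (k (t 384 1 (u 256 4 (k v (k v r)))) r)))
 .z .z) .z))) (.s 0xefba9f5700383ea88a2200 4066 (n false (n false (n true (n true (n false (n true (n false (n false (z 35) e) (n true (n false e e) e)) e) (n true (n true (n false (n false (n false (n false e e) (n false e e)) (n false (n false e e) (n false e e))) (n false e e)) e) e)) e) e) e) e) (u 256 2 (k v (k v (k v (k (t 768 1 (u 512 0 (k (t 1024 3 (t 1536 1 v)) r))) r)))))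
 (.s 0xef9f5580154451113efb00 4097 (n false (z 91) (n false (n true (n true (z 67) e) e) (n false (n false (n false (n false e e) (n false e e)) (n false (n false e e) (n false e e))) (n false e e)))) (u 17 0 (k r (k (c 7 4099 v r) r)))
 (.s 0xeefaa2288821d2bfa801c0 4080 (n false (n false (n true (n false (z 156) (n true (n false e e) e)) e) (n true (n false (n true (n true (n false (n false (n false (n false e e) (n false e e)) (n false (n false e e) (n false e e))) (n false e e)) e) e) (n false e e)) e)) e) (u 16 19 (k v (k v (k (c 48 4099 r (u 32 1 (k v (k v r)))) (k (c 32 4099 r (u 48 1 (k v (k v r)))) (k (c 32 4095 r (u 48 0 (k v (k v r)))) r))))))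
 (.s 0xeee5ddc00e08bea88a2208 4067 (n false (n false (n true (n false (n true (z 42) e) (n true (n false e e) e)) e) (n false e e)) (n false (n true (n true (n false (n false (n false (n false e e) (n false e e)) (n false (n false e e) (n false e e))) (n false e e)) e) e) (n false e e))) (u 32 16 (k v (k v (k (c 4 4075 r v) (k (u 64 1 (k v (k (u 128 9 (k v (k v (k (t 384 2 (u 256 40 (k v (k v (k v r))))) (k (c 128 4097 r v) r))))) (k (c 192 4096 r (c 4 4069 (u 32 1 (k v (k v r))) v)) r)))) (k (c 4 4071 r v) (k (c 4 4071 r v) r)))))))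
 .z .z) (.s 0xef95df0013fbb00e7d5600 4092 (n false (n false (n true (n true (z 52) e) e) (z 87)) (n true (z 67) e)) (u 6 0 (k (u 5 0 (k (u 16 319 (k v (k v (k v (k v (k v (k v (k (t 48 1 (u 32 0 (k v (k v r)))) r)))))))) (k (u 16 320 (k v (k v (k v (k v (k v r)))))) r))) (k (c 8 4096 r (u 5 0 (k v (k v r)))) r)))
 .z .z)) (.s 0xefba57f500383ea88a2200 4066 (n false (n false (n true (n true (n false (n true (n false (z 156) (n true (n false e e) e)) e) (n true (n true (n false (n false (n false (n false e e) (n false e e)) (n false (n false e e) (n false e e))) (n false e e)) e) e)) e) e) e) e) (u 128 1 (k v (k (c 384 4099 r (u 256 1 (k v (k v r)))) (k (c 256 4098 r (u 384 1 (k v (k v r)))) (k (c 256 4097 r (u 384 1 (k v (k v r)))) (k (c 256 4099 r (u 384 1 (k v (k v r)))) (k (c 256 4095 r (u 384 0 (k v (k v r)))) r)))))))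
 (.s 0xef9fdd80154451113efb00 4093 (n false (z 91) (n false (n true (n true (z 87) e) e) (n false (n false (n false (n false e e) (n false e e)) (n false (n false e e) (n false e e))) (n false e e)))) (u 2 17 (k (u 17 1 (k v (k v r))) (k (u 17 1 (k v (k v r))) (k (u 17 1 (k v (k v r))) (k (u 4 1 (k (u 17 1 (k v (k v r))) (k (u 17 1 (k v (k v r))) r))) (k (c 4 4097 r r) (k (c 4 4095 r r) r)))))))
 .z .z) .z)) (.s 0xefea228813eab00aa22888 4092 (n false (n false (n true (n true (n true (n false (n false (n false e e) (n false e e)) (n false (n false e e) (n false e e))) e) e) e) (z 67)) (n false (n false (n false (n false e e) (n false e e)) (n false (n false e e) (n false e e))) (n false e e))) (c 3 4099 v (u 6 82 (k v (k v (k v (k (c 14 4099 r (u 10 2 (k v (k v r)))) (k (c 14 4099 r (u 10 0 (k (u 18 0 (k v (k v r))) r))) (k (c 10 4099 r (u 14 2 (k v (k v r)))) (k (c 14 4099 r r) (k (c 10 4099 r (u 14 0 (k (u 22 0 (k v (k v r))) r))) (k (c 14 4100 r (u 10 10 (k v (k (c 26 4101 r r) (k (c 18 4101 r r) (k (c 18 4101 r r)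 r)))))) (k (c 14 4099 r r) (k (c 14 4099 r r) (k (c 14 4099 r r) r))))))))))))))
 (.s 0xefbb95df00383ea88a2200 4062 (n false (n false (n true (n true (n false (n true (n false (n true (z 52) e) (n true (n false e e) e)) e) (n true (n true (n false (n false (n false (n false e e) (n false e e)) (n false (n false e e) (n false e e))) (n false e e)) e) e)) e) e) e) e) (u 256 123 (k v (k v (k v (k v (k v (k v (k (t 768 1 (u 512 0 (k v (k v r)))) (k (t 768 2 (c 8 4061 r v)) (k (t 768 1 (c 8 4064 r v)) r))))))))))
 (.s 0xefba9fdf00383ea88a2200 4066 (n false (n false (n true (n true (n false (n true (n false (n false (z 55) e) (n true (n false e e) e)) e) (n true (n true (n false (n false (n false (n false e e) (n false e e)) (n false (n false e e) (n false e e))) (n false e e)) e) e)) e) e) e) e) (u 256 4 (k (t 768 1 (u 512 18 (k v (k v (k (c 8 4069 r v) (k (c 8 4069 r v) (k (c 64 4078 r v) (k (c 64 4080 (c 3 4094 v r) v) r)))))))) (k (t 768 2 (c 144 4099 v (c 8 4062 r v))) r)))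
 .z .z) (.s 0xefbb9f5700383ea88a2200 4067 (n false (n false (n true (n true (n false (n true (n false (n true (z 35) e) (n true (n false e e) e)) e) (n true (n true (n false (n false (n false (n false e e) (n false e e)) (n false (n false e e) (n false e e))) (n false e e)) e) e)) e) e) e) e) (u 256 5 (k v (k v (k v (k (t 768 1 (u 512 0 (k (t 1024 3 (t 1536 1 v)) r))) r)))))
 .z .z)) (.s 0xfa57f5002775400bae1070 4082 (n false (n true (n false (z 156) (z 5)) e) (n false (n true (n false (n false (n true (n false e e) e) (n false e e)) e) e) (n true (n false e e) e))) (t 12 1 (u 8 2 (k v (k (c 24 4099 r (u 16 1 (k v (k v r)))) (k (c 16 4095 r (u 24 0 (k v (k v r)))) r)))))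
 (.s 0xfa57f5002577c00e7d5600 4098 (n false (n true (n false (z 52) (z 156)) e) (n true (z 67) e)) (u 12 20 (k (u 5 0 (k r (k r r))) (k r (k (c 4 4064 r (c 3 4102 (t 2 2 v) v)) (k (c 28 4099 r r) (k (c 20 4099 r r) r))))))
 .z .z) .z))))

set_option maxRecDepth 100000 in
def N211 : NT :=
(.s 0xfb957f002a88a2213eab00 4093 (n false (n true (n false (n true (z 56) e) (n false (n false (n false (n false e e) (n false e e)) (n false (n false e e) (n false e e))) (n false e e))) e) (z 67)) (u 16 0 (k (u 32 339 (k r (k (c 20 4101 v r) (k (u 3 0 (k v (k v r))) (k r (k r r)))))) (k (c 32 4096 r (c 20 4101 v (u 48 0 (k r (k r r))))) (k (c 20 4101 v (u 32 1 (k r (k r r)))) (k (c 48 4096 r r) r)))))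
 (.s 0xfa775c012bbe0052bbe008 4093 (n false (n true (n false (z 52) (z 37)) e) (n false (z 52) (n false e e))) (u 12 1 (k (c 2 4094 r r) (k (u 8 212 (k (c 4 4085 v r) (k (c 12 4101 v r) (k (t 5 1 v) (k (t 5 1 v) (k (t 24 1 (t 5 1 (u 16 0 (k v (k v r))))) r)))))) r)))
 (.s 0xfa7754013aff00575110e0 4082 (n false (n true (n false (z 121) (z 5)) e) (n false (n false (n true (n false (n false (n false e e) (n false e e)) (n false e e)) e) (n true (n false e e) e)) e)) (t 12 1 (u 8 4 (k v (k v (k (c 24 4099 r (u 16 1 (k v (k v r)))) (k (c 16 4097 r (u 24 1 (k v (k v r)))) r))))))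
 (.s 0xfa7754012fee00575110e0 4082 (n false (n true (n false (z 46) (z 5)) e) (n false (n false (n true (n false (n false (n false e e) (n false e e)) (n false e e)) e) (n true (n false e e) e)) e)) (t 12 1 (u 8 10 (k v (k (c 24 4099 r (u 16 0 (k v (k v r)))) (k (c 20 4101 v (c 17 4091 v (c 2 4083 r v))) r)))))
 (.s 0xfa57fe012bbe0052bbe008 4093 (n false (n true (n false (z 124) (z 52)) e) (n false (z 52) (n false e e))) (u 8 18 (k (t 5 1 r) (k (c 12 4097 r r) (k (c 16 4099 r (t 5 1 (u 24 0 (k r (k r r))))) (k (c 24 4096 r r) (k (c 24 4097 r r) (k (c 24 4099 r r) r)))))))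
 .z .z) (.s 0xfa7754013aeb0074bfa800 4097 (n false (n true (n false (z 73) (z 5)) e) (n true (n false (z 14) e) e)) (c 2 4091 (t 6 2 (u 4 0 (k r r))) (c 5 4096 (u 2 0 (k v (k v r))) v))
 .z .z)) (.s 0xfa7754013aff0074feec00 4098 (n false (n true (n false (z 121) (z 5)) e) (n true (n false (z 87) e) e)) (t 12 1 (u 8 26 (k (u 9 0 (k v (k v r))) (k r (k (c 5 4098 (u 2 0 (k v (k v r))) v) (k (c 24 4099 r r) r))))))
 (.s 0xfa7754013aff0074bfa800 4095 (n false (n true (n false (z 121) (z 5)) e) (n true (n false (z 14) e) e)) (t 12 1 (u 8 9 (k (u 9 3 (k v (k v (k v r)))) (k r (k (c 5 4096 (u 2 0 (k v (k v r))) v) (k (c 24 4099 r r) r))))))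
 .z .z) .z)) (.s 0xfabaa2288845110e577c00 4091 (n false (n true (z 52) e) (n true (n false (n false (n false (n true (n false (n false (n false (n false e e) (n false e e)) (n false (n false e e) (n false e e))) (n false e e)) e) (n false e e)) (n false (n false e e) (n false e e))) (n false e e)) e)) (u 4 75 (k v (k v (k v (k v (k v (k v (k (t 12 1 (u 8 0 (k v (k v r)))) r))))))))
 (.s 0xfa775c013baa0074bfa800 4095 (n false (n true (n false (z 14) e) e) (n true (n false (z 37) (z 5)) e)) (t 13 1 (u 9 1 (k (c 8 4097 r v) (k (u 8 3 (k v (k v (k v r)))) r))))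
 (.s 0xfa775c012bbe007cbbb800 4094 (n false (n true (n true (z 42) e) e) (n true (n false (z 52) (z 37)) e)) (u 13 23 (k (c 3 4094 r r) (k (u 8 1 (k r (k r r))) (k (c 3 4088 r r) (k r (k (c 13 4095 r (u 8 1 (k r (k r r)))) r))))))
 .z .z) (.s 0xfabaa22888444bfb801708 4081 (n false (n true (n false (z 46) (n false (n false (n true (n false (n false (n false (n false e e) (n false e e)) (n false (n false e e) (n false e e))) (n false e e)) e) (n false e e)) (n false e e))) e) (n false (n true (n false e e) e) (n false e e))) (u 8 2 (k v (k (c 24 4099 r (u 16 0 (k v (k v r)))) (k (u 16 1 (k v (k v r))) (k (u 16 1 (k v (k v r))) (k (c 24 4097 r (u 16 1 (k v (k v r)))) (k (c 16 4095 r (u 24 1 (k v (k v r)))) r)))))))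
 .z .z)) (.s 0xfabaa2288845110e7f5600 4098 (n false (n true (z 71) e) (n true (n false (n false (n false (n true (n false (n false (n false (n false e e) (n false e e)) (n false (n false e e) (n false e e))) (n false e e)) e) (n false e e)) (n false (n false e e) (n false e e))) (n false e e)) e)) (u 4 13 (k v (k v (k v (k (t 12 1 (u 8 8 (k v (k v (k v r))))) r)))))
 (.s 0xfabaa2288845110e7d7c00 4091 (n false (n true (z 51) e) (n true (n false (n false (n false (n true (n false (n false (n false (n false e e) (n false e e)) (n false (n false e e) (n false e e))) (n false e e)) e) (n false e e)) (n false (n false e e) (n false e e))) (n false e e)) e)) (u 4 0 (k (t 12 1 (u 8 0 (k (t 16 3 (t 24 3 v)) r))) r))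
 .z .z) .z))) (.s 0xfe95fd40095df0013eab00 4098 (n false (n true (n true (n false (z 156) (z 52)) e) e) (z 67)) (u 16 32 (k (c 24 4097 r r) (k r (k (c 8 4064 r (c 2 4094 v (t 3 2 v))) (k (c 48 4099 r r) (k (c 32 4099 r r) r))))))
 (.s 0xfb9fdd802577c00e7d5600 4095 (n false (n true (n false (z 52) (n true (z 87) e)) e) (n true (z 67) e)) (u 8 333 (k (u 20 1 (k r (k r r))) (k (c 20 4099 r (u 5 0 (k v (k v r)))) (k r (k r (k (c 20 4099 r (u 5 0 (k v (k v r)))) r))))))
 (.s 0xfb9ddd802a88a2213eab00 4097 (n false (n true (n false (n true (z 85) e) (n false (n false (n false (n false e e) (n false e e)) (n false (n false e e) (n false e e))) (n false e e))) e) (z 67)) (u 16 69 (k r (k (u 3 0 (k v (k v r))) (k (c 48 4099 r r) (k (c 48 4099 r r) (k (c 16 4097 r (c 20 4101 v r)) (k (c 48 4096 r r) r)))))))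
 (.s 0xfb9777002a88a2213eab00 4095 (n false (n true (n false (n true (z 42) e) (n false (n false (n false (n false e e) (n false e e)) (n false (n false e e) (n false e e))) (n false e e))) e) (z 67)) (c 2 4088 (c 10 4101 v r) (t 3 2 v))
 .z .z) (.s 0xfb9f55802577c00e7d5600 4099 (n false (n true (n false (z 52) (n true (z 67) e)) e) (n true (z 67) e)) (t 8 1 (c 2 4080 r (c 5 4103 r v)))
 .z .z)) (.s 0xfbea88a220853eae00ee10 4074 (n false (n false (n true (n false (n true (n false e e) e) (n false e e)) e) (z 35)) (n true (n false (n true (n true (n false (n false (n false (n false e e) (n false e e)) (n false (n false e e) (n false e e))) (n false e e)) e) e) (n false e e)) e)) (u 6 9 (k v (k v (k (t 14 1 (u 10 0 (k (t 18 3 (t 26 1 v)) r))) r))))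
 (.s 0xfbaa22888544510e577c00 4091 (n false (n true (z 52) e) (n true (n false (n true (n false (n false (n false (n false e e) (n false e e)) (n false (n false e e) (n false e e))) (n false e e)) e) (n false (n false (n false e e) (n false e e)) (n false (n false e e) (n false e e)))) e)) (u 4 207 (k v (k v (k v (k v (k v (k v (k (t 12 1 (u 8 0 (k v (k v r)))) r))))))))
 .z .z) .z)) (.s 0x74afea004eea803a5ddc010 4090 (n false (n false (z 156) (z 5)) (n true (n false (z 42) (n false e e)) e)) (t 6 1 (u 4 47 (k (c 10 4101 v r) (k (c 6 4099 v r) (k (c 12 4099 r (u 8 1 (k r (k r r)))) (k (c 8 4095 r (u 12 0 (k r (k r r)))) r))))))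
 (.s 0xfee7d560095df0013eab00 4099 (n false (n true (n true (n false (z 52) (n true (z 67) e)) e) e) (z 67)) (u 40 0 (k r (k (c 16 4097 r (u 3 0 (k v (k v r)))) r)))
 (.s 0xfe9df7004aaa800e75fe00 4092 (n false (n true (n true (n false (z 45) (z 0)) e) e) (n true (z 121) e)) (t 24 1 (u 5 4 (k (u 16 0 (k v (k v r))) (k (t 16 1 v) (k (c 13 4099 r r) (k (c 9 4097 r (u 13 1 (k (u 16 0 (k v (k v r))) (k (u 16 0 (k v (k v r))) r)))) r))))))
 .z .z) (.s 0xfee7f760095df0013eab00 4095 (n false (n true (n true (n false (n true (z 87) e) (z 52)) e) e) (z 67)) (u 24 264 (k (u 32 1 (k r (k r r))) (k r (k (c 32 4099 r (u 3 0 (k v (k v r)))) (k r (k (c 32 4099 r (u 3 0 (k v (k v r)))) r))))))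
 .z .z)) (.s 0x74afea004fab803a77dc010 4093 (n false (n false (z 156) (z 35)) (n true (n false (z 45) (n false e e)) e)) (u 4 3 (k (c 6 4096 r (u 9 0 (k v (k v r)))) (k (c 2 4069 r (c 5 4097 (t 2 1 v) v)) (k (c 12 4099 r (u 9 0 (k (u 8 1 (k r (k r r))) (k (u 6 0 (k (u 8 1 (k v (k v r))) (k (c 8 4099 r v) (k (t 14 1 (u 10 0 (k (t 18 3 (t 26 1 (u 8 1 (k v (k v r))))) r))) r)))) r)))) r))))
 (.s 0x74afea004fab802a77dc010 4094 (n false (n false (z 156) (z 35)) (n false (n false (z 45) (n false e e)) e)) (u 4 3 (k r (k (c 2 4069 r (c 5 4097 (t 2 1 v) v)) (k (c 8 4099 r r) r))))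
 .z .z) .z))))

end Pool.Agent.Helper91.ND1
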