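import Pool.Agent.Helper66.ND.Defs

/-! part of the certificate for the constant 25/48 (generated) -/

namespace Pool.Agent.Helper91.ND1

open Pool.Agent.Helper66.IL
open Pool.Agent.Helper66.ND
open Pool.Agent.Helper66.ND.LT
open Pool.Agent.Helper66.ND.Ct

set_option maxRecDepth 100000 in
def N30 : NT :=
(.s 0x74afea00450 4084 (n false (n false (z 156) (n false e e)) (n false (n false e e) e)) (u 4 1 (k v (k (c 12 4099 r (u 8 1 (k v (k v r)))) (k (c 8 4098 r (u 12 1 (k v (k v r)))) (k (c 8 4097 r (u 12 1 (k v (k v r)))) (k (c 8 4099 r (u 12 1 (k v (k v r)))) (k (c 8 4095 r (c 3 4094 v r)) r)))))))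
 (.s 0x74abfc02a08 4087 (n false (n false (z 120) (n false (n false (n false e e) e) e)) (n false e e)) (u 4 10 (k v (k v (k v (k (c 12 4101 r (u 8 5 (k v (k v r)))) (k (c 8 4099 r (u 12 0 (k v (k v r)))) (k (c 12 4096 r (c 10 4094 v r)) (k (c 8 4102 r r) (k (c 12 4099 r (u 8 1 (k v (k v r)))) (k (c 8 4098 r (u 12 1 (k v (k v r)))) (k (c 8 4101 r (u 12 0 (k v (k v r)))) (k (c 12 4097 r (c 2 4087 r v)) (k (c 12 4099 r (u 8 1 (k v (k v r)))) (k (c 8 4101 r (u 12 0 (k v (k v r)))) r))))))))))))))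
 (.s 0x74abf803850 4067 (n false (n false (z 56) (n true (n false e e) e)) (n false (n false e e) e)) (u 4 0 (k (u 8 102 (k v (k v (k v (k v (k v (k v (k (t 24 1 (u 16 0 (k v (k v r)))) (k (t 24 2 (u 16 0 (k (u 32 2 (k v (k (u 64 2 (k v (k v r))) r))) r))) (k (t 24 1 (u 16 0 (k (c 48 4099 r (u 32 2 (k v (k (u 64 2 (k v (k v r))) r)))) r))) r)))))))))) (k (c 8 4096 r (u 12 0 (k v (k v r)))) (k (u 8 1 (k v (k v r))) (k (c 12 4096 r r) r)))))
 (.s 0x74abac01d10 4081 (n false (n false (z 72) e) (n true (n false (n false e e) (n false e e)) e)) (u 4 0 (k (c 12 4099 r (u 8 0 (k v (k (u 16 1 (k v (k v r))) (k (c 24 4099 r (u 16 0 (k (u 32 0 (k v (k v r))) r))) (k (u 16 10 (k v (k (c 48 4099 r (u 32 0 (k v (k v r)))) (k (u 32 1 (k v (k v r))) r)))) (k (c 3 4092 v r) (k (u 16 0 (k (u 32 0 (k v (k v r))) r)) (k r (k r r)))))))))) r))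
 (.s 0x74aaba00288 4088 (n false (n false (z 160) e) (n false (n false e e) (n false e e))) (u 4 4 (k v (k v (k (t 12 3 (u 8 0 (k v (k (c 24 4099 r (u 16 0 (k v (k v r)))) r)))) (k (c 8 4100 r (u 12 1 (k v (k v (k v (k (u 20 0 (k v (k v r))) (k (c 20 4097 r (u 28 0 (k v (k v r)))) (k (c 20 4095 r (u 28 0 (k v (k v r)))) r)))))))) (k (c 12 4099 r r) (k (c 12 4100 r r) (k (c 12 4099 r r) (k (c 8 4097 r (u 12 61 (k v (k v (k v (k (c 28 4099 r (u 20 1 (k v (k v r)))) r)))))) (k (c 12 4097 r (u 8 40 (k v (k v (k (c 24 4099 r (u 16 1 (k v (k v r)))) r))))) r))))))))))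
 .z .z) (.s 0x74abe802288 4092 (n false (n false (z 24) (n false e e)) (n false (n false e e) (n false e e))) (c 2 4096 (c 2 4098 r v) v)
 .z .z)) (.s 0x74abfc01f40 4086 (n false (n false (z 120) e) (n true (n true (n false (n false e e) e) e) e)) (u 4 6 (k v (k v (k (c 12 4099 r r) (k (c 12 4099 r r) (k (c 8 4095 r r) (k (c 12 4097 r r) (k (c 12 4096 r (c 3 4092 v r)) (k (c 12 4096 r (u 8 0 (k (u 16 0 (k v (k v r))) r))) (k (c 8 4099 r r) (k (c 12 4100 r r) (k (c 12 4097 r r) (k (c 12 4099 r r) (k (c 8 4099 r r) (k (c 12 4097 r r) r)))))))))))))))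
 (.s 0x74abfc01708 4083 (n false (n false (z 120) e) (n false (n true (n false e e) e) (n false e e))) (u 4 10 (k v (k v (k v (k (c 12 4101 r (u 8 5 (k v (k v r)))) (k (c 8 4099 r (u 12 0 (k v (k v r)))) (k (c 12 4096 r (c 3 4092 v r)) (k (c 2 4088 (t 6 1 (u 4 0 (k r r))) v) (k (c 12 4099 r (u 8 1 (k v (k v r)))) (k (c 8 4098 r (u 12 1 (k v (k v r)))) (k (c 8 4101 r (u 12 0 (k v (k v r)))) (k (c 12 4097 r (u 8 3 (k v (k v (k v r))))) (k (c 12 4099 r (u 8 1 (k v (k v r)))) (k (c 8 4101 r (u 12 0 (k v (k v r)))) r))))))))))))))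
 .z .z) (.s 0x74abfc023a0 4075 (n false (n false (z 120) (n false e e)) (n true (n false (n false e e) e) e)) (u 4 4 (k (c 12 4099 r r) (k (c 12 4100 r r) (k (c 12 4099 r r) (k (c 12 4100 r r) (k (c 8 4095 r r) (k (c 12 4097 r r) (k (c 8 4097 r r) (k (c 12 4096 r r) (k (c 12 4096 r (u 8 0 (k (u 16 0 (k v (k v r))) r))) (k (c 12 4100 r (u 8 0 (k (u 16 0 (k v (k v r))) r))) (k (c 12 4101 r r) (k (c 8 4099 r r) (k (c 12 4100 r r) (k (c 12 4097 r r) (k (c 12 4099 r r) (k (c 8 4095 r r) (k (c 8 4099 r r) (k (c 12 4097 r r) r)))))))))))))))))))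
 .z .z))) (.s 0x74aef801d10 4079 (n false (n false (z 52) e) (n true (n false (n false e e) (n false e e)) e)) (u 4 21 (k v (k v (k v (k v (k v (k v (k v (k (t 12 2 (u 8 0 (k (u 16 2 (k v (k (c 2 4078 (u 16 1 (k v (k v r))) v) r))) r))) (k (t 12 1 (u 8 0 (k (c 24 4099 r (u 16 2 (k v (k (c 2 4078 (u 16 1 (k v (k v r))) v) r)))) r))) r))))))))))
 (.s 0x74aebc023a0 4080 (n false (n false (z 100) (n false e e)) (n true (n false (n false e e) e) e)) (u 4 3 (k v (k (c 12 4096 r r) (k (c 12 4097 r r) (k (c 12 4096 r r) (k (c 12 4096 r r) r))))))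
 (.s 0x74abfc03a08 4086 (n false (n false (z 120) (n true (n false (n false e e) e) e)) (n false e e)) (u 4 11 (k v (k v (k v (k (c 12 4101 r (u 8 5 (k v (k v r)))) (k (c 8 4099 r (u 12 0 (k v (k v r)))) (k (c 12 4096 r (c 2 4088 r v)) (k (c 8 4102 r r) (k (c 12 4099 r (u 8 1 (k v (k v r)))) (k (c 8 4098 r (u 12 1 (k v (k v r)))) (k (c 8 4101 r (u 12 0 (k v (k v r)))) (k (c 12 4097 r r) (k (c 12 4099 r (u 8 1 (k v (k v r)))) (k (c 8 4101 r (u 12 0 (k v (k v r)))) r))))))))))))))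
 .z .z) (.s 0x74aeea00288 4088 (n false (n false (z 148) e) (n false (n false e e) (n false e e))) (u 4 6 (k v (k v (k (t 12 3 (u 8 37 (k v (k v (k v r))))) (k (c 12 4096 r r) (k (c 8 4099 r r) (k (t 12 2 (u 8 18 (k v (k (c 24 4099 r (u 16 27 (k v (k v r)))) r)))) (k (c 12 4099 r r) (k (c 12 4101 r r) r)))))))))
 .z .z)) (.s 0x74afea00288 4086 (n false (n false (z 156) e) (n false (n false e e) (n false e e))) (u 4 2 (k v (k (c 12 4099 r (u 8 1 (k v (k v r)))) (k (c 8 4095 r (u 12 0 (k v (k v r)))) r))))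
 (.s 0x74aef8023e0 4091 (n false (n false (z 52) (n false e e)) (n true (n true (n false e e) e) e)) (c 2 4095 (c 2 4097 r v) v)
 .z .z) .z))) (.s 0x74bbbc02288 4089 (n false (n false (z 106) (n false e e)) (n false (n false e e) (n false e e))) (u 4 2 (k v (k (t 12 3 r) (k (t 12 2 (c 2 4076 (u 4 0 (k r r)) v)) (k (c 2 4088 (u 6 0 (k (u 10 0 (k r (k r r))) r)) v) (k (t 12 2 (c 2 4089 r v)) (k (t 12 3 (c 2 4088 r v)) (k (c 12 4099 r r) (k (c 8 4097 r r) (k (c 8 4101 r r) (k (t 12 3 (c 2 4088 r v)) (k (c 8 4101 r r) r))))))))))))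
 (.s 0x74baf803850 4067 (n false (n false (z 50) (n true (n false e e) e)) (n false (n false e e) e)) (u 4 1 (k v (k (c 12 4097 r (u 8 0 (k v (k v r)))) r)))
 (.s 0x74affc03850 4069 (n false (n false (z 124) (n true (n false e e) e)) (n false (n false e e) e)) (u 4 1 (k v (k (c 12 4097 r (u 8 1 (k v (k v r)))) (k (c 12 4096 r (u 8 1 (k v (k v r)))) (k (c 8 4098 r (u 12 0 (k v (k v r)))) (k (c 12 4096 r (u 8 1 (k v (k v r)))) (k (c 12 4097 r (u 8 1 (k v (k v r)))) (k (c 12 4097 r (u 8 1 (k v (k v r)))) (k (c 12 4096 r (u 8 1 (k v (k v r)))) (k (c 12 4099 r (u 8 1 (k v (k v r)))) (k (c 8 4097 r (u 12 1 (k v (k v r)))) r)))))))))))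
 (.s 0x74afea00740 4084 (n false (n false (z 156) (n true (n false (n false e e) e) e)) e) (u 4 1 (k v (k (c 12 4099 r (u 8 1 (k v (k v r)))) (k (c 8 4098 r (u 12 1 (k v (k v r)))) (k (c 8 4097 r (u 12 1 (k v (k v r)))) (k (c 8 4099 r (u 12 1 (k v (k v r)))) (k (c 8 4095 r (c 10 4094 v r)) r)))))))
 .z .z) (.s 0x74affc03a08 4069 (n false (n false (z 124) (n true (n false (n false e e) e) e)) (n false e e)) (u 4 1 (k v (k (c 12 4097 r (u 8 1 (k v (k v r)))) (k (c 12 4096 r (u 8 1 (k v (k v r)))) (k (c 8 4098 r (u 12 0 (k v (k v r)))) (k (c 12 4096 r (u 8 1 (k v (k v r)))) (k (c 12 4097 r (u 8 1 (k v (k v r)))) (k (c 12 4097 r (u 8 1 (k v (k v r)))) (k (c 12 4096 r (u 8 1 (k v (k v r)))) (k (c 12 4099 r (u 8 1 (k v (k v r)))) (k (c 8 4097 r (u 12 1 (k v (k v r)))) r)))))))))))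
 .z .z)) (.s 0x74bbb8023a0 4082 (n false (n false (z 42) (n false e e)) (n true (n false (n false e e) e) e)) (u 4 11 (k v (k v (k (c 2 4086 (t 6 1 (u 4 0 (k r r))) v) r))))
 (.s 0x74bbb8022a0 4082 (n false (n false (z 42) (n false e e)) (n false (n false (n false e e) e) e)) (u 4 11 (k v (k v (k (c 2 4086 (t 6 1 (u 4 0 (k r r))) v) r))))
 .z .z) .z)) (.s 0x74bfb801708 4069 (n false (n false (z 46) e) (n false (n true (n false e e) e) (n false e e))) (u 4 0 (k v (k (u 8 1 (k v (k v r))) (k (u 8 1 (k v (k v r))) (k (c 12 4099 r (u 8 0 (k v (k v r)))) (k (c 12 4097 r (u 8 1 (k v (k v r)))) (k (c 8 4095 r (u 12 1 (k v (k v r)))) r)))))))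
 (.s 0x74bbe801d10 4084 (n false (n false (z 26) e) (n true (n false (n false e e) (n false e e)) e)) (u 4 7 (k v (k v (k (c 2 4084 (u 4 1 (k v (k v r))) v) r))))
 (.s 0x74bbe801708 4084 (n false (n false (z 26) e) (n false (n true (n false e e) e) (n false e e))) (u 4 9 (k v (k v (k (c 2 4084 (u 4 1 (k v (k v r))) v) r))))
 .z .z) (.s 0x74bbe803850 4080 (n false (n false (z 26) (n true (n false e e) e)) (n false (n false e e) e)) (u 4 0 (k v (k v (k (c 2 4082 r v) r))))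
 .z .z)) (.s 0x74bfb803a08 4069 (n false (n false (z 46) (n true (n false (n false e e) e) e)) (n false e e)) (u 4 1 (k v (k (u 8 1 (k v (k v r))) (k (c 12 4099 r (u 8 0 (k v (k v r)))) (k (u 8 1 (k v (k v r))) (k (c 12 4097 r (u 8 1 (k v (k v r)))) (k (c 8 4095 r (u 12 1 (k v (k v r)))) r)))))))
 (.s 0x74bfb803850 4069 (n false (n false (z 46) (n true (n false e e) e)) (n false (n false e e) e)) (u 4 1 (k v (k (u 8 1 (k v (k v r))) (k (c 12 4099 r (u 8 0 (k v (k v r)))) (k (u 8 1 (k v (k v r))) (k (c 12 4097 r (u 8 1 (k v (k v r)))) (k (c 8 4095 r (u 12 1 (k v (k v r)))) r)))))))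
 .z .z) .z))))

set_option maxRecDepth 100000 in
def N31 : NT :=
(.s 0x74faac022a0 4079 (n false (n false (z 67) (n false e e)) (n false (n false (n false e e) e) e)) (u 4 89 (k v (k v (k v (k (c 12 4099 r r) (k (c 12 4097 r r) (k (c 12 4099 r r) (k r (k (c 12 4097 r r) (k (c 12 4099 r (u 8 1 (k v (k (c 24 4097 r (u 16 0 (k v (k v r)))) r)))) (k (c 12 4099 r (u 8 0 (k (u 16 0 (k v (k v r))) r))) (k (c 8 4099 r r) (k (c 12 4099 r r) (k (c 8 4099 r (u 12 0 (k (u 20 0 (k v (k v r))) r))) (k (c 12 4100 r (c 5 4094 v r)) (k (c 12 4099 r r) (k (c 12 4099 r r) (k (c 12 4099 r r) r))))))))))))))))))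
 (.s 0x74eeb803850 4071 (n false (n false (z 37) (n true (n false e e) e)) (n false (n false e e) e)) (u 4 8 (k v (k (u 8 0 (k (t 16 3 (t 24 1 v)) r)) (k (u 8 0 (k (t 16 3 (t 24 1 v)) r)) (k r (k (u 8 5 (k v (k v (k v (k (t 24 1 (u 16 0 (k (t 32 3 (t 48 1 v)) r))) r))))) (k (u 8 0 (k r (k (t 24 1 r) r))) r)))))))
 (.s 0x74ebfc03850 4071 (n false (n false (z 121) (n true (n false e e) e)) (n false (n false e e) e)) (u 4 1 (k v (k (c 12 4099 r (u 8 1 (k v (k v r)))) (k (c 8 4097 r (u 12 1 (k v (k v r)))) (k (c 8 4095 r (u 12 0 (k v (k v r)))) (k (c 8 4095 r (u 12 0 (k v (k v r)))) r))))))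
 (.s 0x74ebec03850 4080 (n false (n false (z 89) (n true (n false e e) e)) (n false (n false e e) e)) (u 4 18 (k v (k v (k v (k v (k (c 12 4110 r r) (k (c 12 4110 r (u 8 1 (k v (k v r)))) (k (t 8 1 (c 6 4094 v (u 12 2 (k v (k v r))))) (k (t 12 2 (c 6 4094 v (u 8 19 (k v (k v (k v r)))))) r)))))))))
 (.s 0x74ebec01d10 4082 (n false (n false (z 89) e) (n true (n false (n false e e) (n false e e)) e)) (u 4 2 (k v (k v (k v (k (t 12 2 (u 8 6 (k v (k v (k (t 24 1 (u 16 0 (k v (k v r)))) r))))) r)))))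
 .z .z) (.s 0x74ebfc01708 4077 (n false (n false (z 121) e) (n false (n true (n false e e) e) (n false e e))) (u 4 1 (k v (k (c 12 4099 r (u 8 1 (k v (k v r)))) (k (c 8 4097 r (u 12 1 (k v (k v r)))) (k (c 8 4095 r (c 3 4092 v r)) (k (c 8 4095 r (c 3 4092 v r)) r))))))
 .z .z)) (.s 0x74eeb801708 4077 (n false (n false (z 37) e) (n false (n true (n false e e) e) (n false e e))) (u 4 5 (k v (k (u 8 0 (k (t 16 3 (t 24 1 v)) r)) (k r (k (u 8 0 (k (t 16 3 (t 24 1 v)) r)) (k (u 8 2 (k v (k v (k v (k (t 24 1 (u 16 0 (k (t 32 3 (t 48 1 v)) r))) r))))) (k (u 8 5 (k v (k v r))) r)))))))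
 (.s 0x74eeac01d10 4085 (n false (n false (z 69) e) (n true (n false (n false e e) (n false e e)) e)) (u 4 9 (k v (k v (k (t 12 3 (u 8 2 (k v (k v r)))) (k (t 12 2 (c 3 4092 v r)) r)))))
 .z .z) (.s 0x74eeb802a08 4081 (n false (n false (z 37) (n false (n false (n false e e) e) e)) (n false e e)) (u 4 34 (k v (k v (k r (k (u 8 5 (k v (k v r))) (k (u 8 0 (k (t 16 3 (t 24 1 v)) r)) (k r r)))))))
 .z .z))) (.s 0x74faac01708 4085 (n false (n false (z 67) e) (n false (n true (n false e e) e) (n false e e))) (u 4 4 (k v (k v (k (c 12 4096 r r) (k (c 8 4101 r (u 12 0 (k v (k v r)))) (k (c 2 4088 r v) (k (c 8 4099 r (u 12 0 (k v (k v r)))) (k (c 12 4101 r (u 8 1 (k v (k v r)))) (k (c 12 4102 r (u 8 1 (k v (k v r)))) (k (c 8 4101 r (u 12 1 (k v (k v r)))) (k (c 8 4101 r (u 12 1 (k v (k v r)))) r)))))))))))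
 (.s 0x74eeec03850 4069 (n false (n false (z 85) (n true (n false e e) e)) (n false (n false e e) e)) (u 4 10 (k (c 12 4099 r r) (k r (k (c 12 4099 r (u 8 1 (k v (k v (k v (k (t 24 1 r) r)))))) (k (u 8 2 (k v (k v (k v (k (t 24 2 r) r))))) (k (c 12 4101 r r) (k (c 12 4096 r r) (k (c 8 4099 r r) r))))))))
 (.s 0x74eeb803a08 4073 (n false (n false (n true (n false (n false e e) e) e) (z 37)) (n false e e)) (u 6 9 (k v (k r (k (u 10 0 (k (t 18 3 (t 26 1 v)) r)) (k (u 10 0 (k (t 18 3 (t 26 1 v)) r)) (k r (k r r)))))))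
 .z .z) (.s 0x74eeec03a08 4075 (n false (n false (z 85) (n true (n false (n false e e) e) e)) (n false e e)) (u 4 7 (k (u 8 12 (k v (k v r))) (k (c 12 4099 r r) (k (t 12 1 (u 8 2 (k v (k (t 24 2 (c 12 4099 v (u 16 8 (k v (k v r))))) r)))) (k (c 12 4099 r (u 8 5 (k v (k v r)))) (k (c 12 4101 r r) (k (c 12 4096 r r) (k (c 8 4099 r r) r))))))))
 .z .z)) (.s 0x74faac01f40 4087 (n false (n false (z 67) e) (n true (n true (n false (n false e e) e) e) e)) (u 4 54 (k v (k v (k v (k v (k (c 12 4099 r r) (k (c 12 4097 r r) (k (c 12 4099 r r) (k (c 2 4088 r v) (k (c 12 4099 r (u 8 0 (k (u 16 0 (k v (k v r))) r))) (k (c 8 4099 r r) (k (c 12 4099 r r) (k (c 8 4099 r (u 12 0 (k (u 20 0 (k v (k v r))) r))) (k (c 12 4099 r r) (k (c 12 4099 r r) (k (c 12 4099 r r) r))))))))))))))))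
 (.s 0x74faac01d40 4088 (n false (n false (z 67) e) (n true (n false (n false (n false e e) e) e) e)) (u 4 55 (k v (k v (k v (k v (k (c 12 4099 r r) (k (c 12 4097 r r) (k (c 12 4099 r (u 8 1 (k v (k (u 16 1 (k v (k v r))) (k (c 24 4099 r (u 16 0 (k v (k v r)))) (k (u 16 1 (k v (k v r))) (k (c 24 4097 r (u 16 1 (k v (k v r)))) (k (c 16 4095 r (u 24 1 (k v (k v r)))) r)))))))) (k (c 2 4088 r v) (k (c 12 4099 r (u 8 0 (k (u 16 0 (k v (k v r))) r))) (k (c 8 4099 r r) (k (c 12 4099 r r) (k (c 8 4099 r (u 12 0 (k (u 20 0 (k v (k v r))) r))) (k (c 12 4099 r r) (k (c 12 4099 r r) (k (c 12 4099 r r) r))))))))))))))))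
 .z .z) .z))) (.s 0x74fbbc023a0 4079 (n false (n false (z 107) (n false e e)) (n true (n false (n false e e) e) e)) (u 4 7 (k v (k v (k (c 12 4099 r r) (k (c 12 4100 r (u 8 0 (k (u 16 0 (k v (k v r))) r))) r)))))
 (.s 0x74fabc023a0 4079 (n false (n false (z 99) (n false e e)) (n true (n false (n false e e) e) e)) (u 4 3 (k v (k (c 12 4096 r r) (k (c 12 4096 r r) (k (c 12 4096 r r) (k (c 12 4096 r r) r))))))
 (.s 0x74faac02a08 4085 (n false (n false (z 67) (n false (n false (n false e e) e) e)) (n false e e)) (u 4 4 (k v (k v (k (c 12 4096 r r) (k (c 8 4101 r (u 12 0 (k v (k v r)))) (k (c 6 4093 v (c 2 4088 r v)) (k (c 8 4099 r (u 12 0 (k v (k v r)))) (k (c 12 4101 r (u 8 1 (k v (k v r)))) (k (c 12 4102 r (u 8 1 (k v (k v r)))) (k (c 8 4101 r (u 12 1 (k v (k v r)))) (k (c 8 4101 r (u 12 1 (k v (k v r)))) r)))))))))))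
 (.s 0x74faac023a0 4075 (n false (n false (z 67) (n false e e)) (n true (n false (n false e e) e) e)) (u 4 115 (k v (k (c 12 4099 r r) (k (c 8 4096 r (u 12 0 (k (u 20 0 (k v (k v r))) r))) (k (c 8 4096 r (u 12 0 (k (u 20 0 (k v (k v r))) r))) (k (c 12 4097 r r) (k (c 12 4099 r r) (k r (k (c 12 4097 r r) (k (c 12 4099 r r) (k (c 8 4100 r r) (k (c 12 4099 r (u 8 0 (k (u 16 0 (k v (k v r))) r))) (k (c 8 4099 r r) (k (c 12 4099 r r) (k (c 8 4099 r (u 12 0 (k (u 20 0 (k v (k v r))) r))) (k (c 12 4100 r r) (k (c 12 4100 r r) (k (c 12 4099 r r) (k (c 12 4099 r r) (k (c 12 4100 r r) (k (c 12 4099 r r) r)))))))))))))))))))))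
 .z .z) (.s 0x74faac03a08 4085 (n false (n false (n true (n false (n false e e) e) e) (z 67)) (n false e e)) (u 6 4 (k v (k v (k (c 14 4096 r r) (k (c 10 4101 r (u 14 0 (k v (k v r)))) (k (c 4 4093 v (c 2 4088 r v)) (k (c 10 4099 r (u 14 0 (k v (k v r)))) (k (c 14 4101 r (u 10 1 (k v (k v r)))) (k (c 14 4102 r (u 10 1 (k v (k v r)))) (k (c 10 4101 r (u 14 1 (k v (k v r)))) (k (c 10 4101 r (u 14 1 (k v (k v r)))) r)))))))))))
 .z .z)) (.s 0x74fbbc022a0 4084 (n false (n false (z 107) (n false e e)) (n false (n false (n false e e) e) e)) (u 4 5 (k v (k (c 12 4099 r (u 8 1 (k v (k (c 24 4099 r (u 16 1 (k v (k v r)))) (k (u 16 0 (k v (k v r))) (k (c 16 4099 r (u 24 1 (k v (k v r)))) (k (c 16 4099 r (u 24 1 (k v (k v r)))) (k (c 16 4099 r (u 24 1 (k v (k v r)))) r)))))))) (k (c 12 4100 r (u 8 0 (k (u 16 0 (k v (k v r))) r))) r))))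
 (.s 0x74fbbc02288 4089 (n false (n false (z 107) (n false e e)) (n false (n false e e) (n false e e))) (u 4 4 (k v (k r (k r (k (c 2 4091 (u 4 0 (k r r)) v) r)))))
 .z .z) .z)) (.s 0x74feac02288 4088 (n false (n false (z 71) (n false e e)) (n false (n false e e) (n false e e))) (u 4 12 (k r (k r (k r (k r (k r (k r r)))))))
 (.s 0x74fbfc03850 4074 (n false (n false (z 123) (n true (n false e e) e)) (n false (n false e e) e)) (u 4 27 (k v (k (c 12 4099 r (u 8 2 (k v (k v (k v (k (t 24 2 r) r)))))) (k (u 8 26 (k v (k (t 24 1 r) (k (c 3 4094 v r) (k (c 3 4094 v r) r))))) (k (c 8 4096 r (u 12 1 (k v (k v r)))) (k (c 12 4097 r (u 8 26 (k v (k (t 24 1 r) (k (c 3 4094 v r) (k (c 3 4094 v r) r)))))) r))))))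
 (.s 0x74fbec03850 4068 (n false (n false (z 91) (n true (n false e e) e)) (n false (n false e e) e)) (u 4 5 (k v (k (u 8 1 (k v (k v r))) (k (c 8 4097 r (u 12 0 (k v (k v r)))) (k (c 8 4097 r (u 12 0 (k v (k v r)))) (k (c 8 4097 r (u 12 0 (k v (k v r)))) (k (c 8 4096 r (u 12 0 (k v (k v r)))) (k (c 8 4095 r (u 12 0 (k v (k v r)))) r))))))))
 .z .z) (.s 0x74feac01708 4072 (n false (n false (z 71) e) (n false (n true (n false e e) e) (n false e e))) (u 4 1 (k v (k (c 12 4099 r (u 8 1 (k v (k v r)))) (k (u 8 0 (k v (k v r))) (k (c 8 4099 r (u 12 1 (k v (k v r)))) (k (c 8 4099 r (u 12 1 (k v (k v r)))) (k (c 8 4099 r (u 12 1 (k v (k v r)))) r)))))))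
 .z .z)) (.s 0x74febc01708 4079 (n false (n false (z 103) e) (n false (n true (n false e e) e) (n false e e))) (u 4 0 (k v (k (c 12 4101 r (u 8 1 (k v (k v r)))) (k (c 8 4101 r (u 12 1 (k v (k v r)))) (k (c 8 4101 r (u 12 1 (k v (k v r)))) r)))))
 (.s 0x74feac03850 4072 (n false (n false (z 71) (n true (n false e e) e)) (n false (n false e e) e)) (u 4 1 (k v (k (c 12 4099 r (u 8 1 (k v (k v r)))) (k (u 8 0 (k v (k v r))) (k (c 8 4099 r (u 12 1 (k v (k v r)))) (k (c 8 4099 r (u 12 1 (k v (k v r)))) (k (c 8 4099 r (u 12 1 (k v (k v r)))) r)))))))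
 .z .z) .z))))

set_option maxRecDepth 100000 in
def N32 : NT :=
(.s 0x754feac00e0 4072 (n false (n false (n false (n false (z 71) e) e) (n true (n false e e) e)) e) (u 16 1 (k v (k (c 48 4099 r (u 32 1 (k v (k v r)))) (k (u 32 0 (k v (k v r))) (k (c 32 4099 r (u 48 1 (k v (k v r)))) (k (c 32 4099 r (u 48 1 (k v (k v r)))) (k (c 32 4099 r (u 48 1 (k v (k v r)))) r)))))))
 (.s 0x754aaba0020 4088 (n false (n false (n false (n false (z 160) e) (n false e e)) e) e) (u 16 3 (k v (k (t 48 2 (u 32 1 (k v (k (c 96 4099 r (u 64 1 (k v (k v r)))) (k (c 64 4098 r (u 96 1 (k v (k v r)))) (k (c 64 4097 r (u 96 1 (k v (k v r)))) (k (c 64 4099 r (u 96 1 (k v (k v r)))) (k (c 64 4095 r (c 8 4087 r v)) r)))))))) (k (t 48 2 r) (k (c 8 4091 r v) (k (t 32 1 r) (k (c 8 4091 r v) (k (c 8 4091 r v) (k (c 8 4091 r v) (k (t 32 2 r) r))))))))))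
 (.s 0x752bbe00450 4079 (n false (n false (n false (z 52) e) (n false e e)) (n false (n false e e) e)) (u 8 155 (k v (k v (k v (k v (k v (k v (k v (k (c 4 4081 r v) (k (t 24 2 (u 16 0 (k (u 32 2 (k v (k (c 4 4078 (u 16 1 (k v (k v r))) v) r))) r))) (k (t 24 1 (u 16 0 (k (c 48 4099 r (u 32 2 (k v (k (c 4 4078 (u 16 1 (k v (k v r))) v) r)))) r))) r)))))))))))
 (.s 0x74fefc03850 4080 (n false (n false (z 119) (n true (n false e e) e)) (n false (n false e e) e)) (u 4 2 (k v (k (c 12 4101 r r) (k (c 8 4096 r (u 12 0 (k (t 20 3 (t 28 1 v)) r))) (k (c 8 4096 r r) (k (c 12 4099 r r) (k (c 12 4097 r r) (k (c 8 4102 r (u 12 0 (k (t 20 3 (t 28 1 v)) r))) (k (c 8 4098 r r) (k (c 8 4101 r r) (k (c 8 4101 r r) (k (c 8 4099 r r) (k (c 8 4101 r r) (k (c 8 4101 r r) r))))))))))))))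
 (.s 0x74fefc01f40 4086 (n false (n false (z 119) e) (n true (n true (n false (n false e e) e) e) e)) (u 4 17 (k v (k (c 8 4097 r r) (k (c 8 4097 r r) (k (c 12 4096 r (u 8 0 (k (u 16 0 (k v (k v r))) r))) (k (c 12 4097 r r) (k (c 12 4097 r r) (k (c 12 4097 r r) (k (c 12 4097 r r) (k (c 12 4097 r r) r))))))))))
 .z .z) (.s 0x752aae80088 4085 (n false (n false (n false (z 160) e) (n false e e)) (n false e e)) (u 8 2 (k (t 24 2 r) (k (t 16 2 (u 24 2 (k v (k v (k (u 40 1 (k v (k v r))) (k (c 40 4097 r (u 56 0 (k v (k v r)))) (k (c 40 4097 r (u 56 0 (k v (k v r)))) (k (c 40 4096 r (u 56 0 (k v (k v r)))) (k (c 40 4095 r (u 56 0 (k v (k v r)))) r))))))))) (k (t 16 1 r) (k (t 24 2 r) (k (t 16 1 (t 24 3 v)) (k (t 16 1 r) (k (t 24 2 r) (k (t 24 1 r) (k (t 16 2 r) r))))))))))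
 .z .z)) (.s 0x753afb00740 4082 (n false (n false (n false (z 89) e) (n true (n false (n false e e) e) e)) e) (u 8 2 (k v (k v (k v (k (t 24 2 (u 16 6 (k v (k v (k (t 48 1 (u 32 0 (k v (k v r)))) r))))) r)))))
 (.s 0x752fff00450 4086 (n false (n false (n false (z 126) e) (n false e e)) (n false (n false e e) e)) (u 8 3 (k v (k (t 24 1 (u 16 0 (k v (k v (k (c 48 4099 r (u 32 0 (k v (k v r)))) r))))) (k (c 4 4091 (t 6 1 r) v) r))))
 .z .z) (.s 0x753bbb00e80 4073 (n false (n false (n false (z 85) (n true (n false (n false e e) e) e)) e) e) (u 8 10 (k (c 24 4099 r r) (k (c 24 4099 r r) (k (c 24 4099 r (u 16 5 (k v (k v r)))) (k (u 16 12 (k v (k v r))) (k (c 24 4101 r (u 16 0 (k (t 48 1 (u 32 0 (k (t 64 3 (t 96 3 v)) r))) r))) (k (c 24 4096 r r) (k (c 16 4099 r r) r))))))))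
 .z .z))) (.s 0x754ebfc0380 4071 (n false (n false (n false (n false (z 121) (n true (n false e e) e)) e) e) e) (u 16 1 (k v (k (c 48 4099 r (u 32 1 (k v (k v r)))) (k (c 32 4097 r (u 48 1 (k v (k v r)))) (k (c 32 4095 r (u 48 0 (k v (k v r)))) (k (c 32 4095 r (u 48 0 (k v (k v r)))) r))))))
 (.s 0x754bfb80380 4071 (n false (n false (n false (n false (z 46) (n true (n false e e) e)) e) e) e) (u 16 1 (k v (k (u 32 1 (k v (k v r))) (k (c 48 4099 r (u 32 0 (k v (k v r)))) (k (u 32 1 (k v (k v r))) (k (c 48 4097 r (u 32 1 (k v (k v r)))) (k (c 32 4095 r (u 48 1 (k v (k v r)))) r)))))))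
 (.s 0x754bbe80110 4085 (n false (n false (n false (n false (z 26) e) (n false e e)) (n false e e)) e) (u 16 2 (k v (k (c 8 4084 (u 4 1 (k v (k v r))) v) r)))
 .z .z) (.s 0x754ebfc00e0 4082 (n false (n false (n false (n false (z 121) e) e) (n true (n false e e) e)) e) (u 16 1 (k v (k (c 48 4099 r (u 32 1 (k v (k v r)))) (k (c 32 4097 r (u 48 1 (k v (k v r)))) (k (c 32 4095 r (c 4 4076 r v)) (k (c 32 4095 r (c 4 4076 r v)) r))))))
 .z .z)) (.s 0x754feac0088 4078 (n false (n false (n false (n false (z 71) e) e) (n false e e)) (n false e e)) (u 16 1 (k v (k (c 48 4099 r (u 32 1 (k v (k v r)))) (k (c 4 4082 r v) (k (c 32 4099 r (u 48 1 (k v (k v r)))) (k (c 32 4099 r (u 48 1 (k v (k v r)))) (k (c 32 4099 r (u 48 1 (k v (k v r)))) r)))))))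
 (.s 0x754eeb80380 4077 (n false (n false (n false (n false (z 37) (n true (n false e e) e)) e) e) e) (u 16 0 (k v (k (u 32 0 (k (t 64 3 (t 96 1 v)) r)) (k (u 32 0 (k (t 64 3 (t 96 1 v)) r)) (k r (k (u 32 2 (k v (k v (k v (k (t 96 1 (u 64 0 (k (t 128 3 (t 192 1 v)) r))) r))))) (k (u 32 5 (k v (k v r))) r)))))))
 .z .z) .z))) (.s 0x75cfef801c0 4095 (n false (n false (n false (n true (z 55) e) (n true (n false e e) e)) e) e) (c 4 4086 (c 3 4094 v r) v)
 (.s 0x7572fee0020 4087 (n false (n false (n false (n false (n true (z 46) e) e) (n false e e)) e) e) (u 32 2 (k v (k (c 96 4099 r (u 64 0 (k v (k v r)))) (k (u 64 1 (k v (k v r))) (k (u 64 1 (k v (k v r))) (k (c 96 4097 r (u 64 1 (k v (k v r)))) (k (c 64 4095 r (u 96 1 (k v (k v r)))) r)))))))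
 (.s 0x7553bbe0040 4084 (n false (n false (n false (n false (n false (z 53) e) (n false e e)) e) e) e) (u 32 0 (k (t 96 1 (u 64 2 (k v (k (c 192 4099 r (u 128 3 (k v (k v (k v r))))) (k (u 128 0 (k v (k v r))) (k (u 128 0 (k v (k v r))) (k (c 192 4097 r (u 128 0 (k v (k v r)))) (k (c 128 4095 r (u 192 0 (k v (k v r)))) r)))))))) (k (t 96 1 (u 64 30 (k v (k v (k (c 192 4099 r (u 128 154 (k v (k v (k v (k v (k v (k v r)))))))) (k (u 128 3 (k v (k v r))) (k (c 192 4096 r (u 128 8 (k v (k v r)))) r))))))) r)))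
 (.s 0x7552fff0040 4084 (n false (n false (n false (n false (n false (z 126) e) (n false e e)) e) e) e) (u 32 3 (k v (k (t 96 1 (u 64 0 (k v (k v (k (c 192 4099 r (u 128 0 (k v (k v r)))) r))))) (k (t 96 1 (u 64 18 (k v (k (c 192 4099 r (u 128 26 (k v (k v (k v r))))) r)))) r))))
 .z .z) (.s 0x7572ebe0020 4085 (n false (n false (n false (n false (n true (z 50) e) e) (n false e e)) e) e) (u 32 1 (k v (k (c 96 4097 r (u 64 0 (k v (k v r)))) r)))
 .z .z)) (.s 0x75cafea0010 4084 (n false (n false (n false (n true (z 156) e) e) (n false e e)) e) (u 16 2 (k v (k (c 48 4099 r (u 32 1 (k v (k v r)))) (k (c 32 4095 r (u 48 0 (k v (k v r)))) r))))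
 (.s 0x75caaaa0010 4083 (n false (n false (n false (n true (z 128) e) e) (n false e e)) e) (u 16 3 (k v (k v (k (c 48 4097 r r) (k (t 48 2 (u 32 0 (k (t 96 2 (u 64 0 (k (c 192 4099 r (u 128 2 (k v (k (c 64 4090 (u 4 1 (k v (k v r))) v) r)))) r))) r))) (k (c 32 4096 r r) (k (c 32 4095 r r) (k (c 32 4095 r (u 48 0 (k v (k v r)))) (k (c 48 4095 r (u 32 1 (k v (k v r)))) (k (c 32 4095 r r) (k (c 32 4095 r (u 48 1 (k v (k v r)))) (k (c 32 4097 r r) r))))))))))))
 .z .z) .z)) (.s 0x75f2afe0020 4087 (n false (n false (n false (n true (n true (z 56) e) e) (n false e e)) e) e) (u 32 0 (k (u 64 4 (k v (k v (k v (k v (k (t 192 1 (u 128 7 (k v (k v r)))) r)))))) (k (c 64 4096 r (u 96 0 (k v (k v r)))) (k (u 64 1 (k v (k v r))) (k (c 96 4096 r (u 64 156 (k v (k v (k v (k v (k (t 192 1 (u 128 7 (k v (k v r)))) r))))))) r)))))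
 (.s 0x75d3aff0020 4085 (n false (n false (n false (n true (n false (z 121) e) e) (n false e e)) e) e) (u 32 19 (k v (k v (k (c 64 4097 r (c 8 4085 r v)) (k (c 64 4095 r (c 8 4076 r v)) (k (c 64 4095 r (c 8 4076 r v)) r))))))
 (.s 0x75d3afb0010 4082 (n false (n false (n false (n true (n false (z 89) e) e) e) (n false e e)) e) (u 32 2 (k v (k v (k v (k (t 96 2 (u 64 6 (k v (k v (k (t 192 1 (u 128 0 (k v (k v r)))) r))))) r)))))
 .z .z) (.s 0x75d3bae0020 4085 (n false (n false (n false (n true (n false (z 37) e) e) (n false e e)) e) e) (u 32 7 (k v (k (u 64 7 (k v (k v (k v (k v r))))) (k (u 64 4 (k v (k v (k v (k v r))))) (k (c 8 4087 r v) r)))))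
 .z .z)) (.s 0x75f2bff0010 4082 (n false (n false (n false (n true (n true (z 124) e) e) e) (n false e e)) e) (u 32 2 (k v (k v (k (c 96 4097 r (u 64 1 (k v (k v r)))) (k (c 96 4096 r (u 64 1 (k v (k v r)))) (k (c 96 4097 r (u 64 1 (k v (k v r)))) (k (c 96 4099 r (u 64 1 (k v (k v r)))) r)))))))
 (.s 0x75f2bbe0010 4079 (n false (n false (n false (n true (n true (z 52) e) e) e) (n false e e)) e) (u 32 30 (k v (k v (k v (k v (k v (k v (k v (k (t 96 2 (u 64 0 (k (u 128 2 (k v (k (c 16 4078 (u 16 1 (k v (k v r))) v) r))) r))) (k (t 96 1 (u 64 0 (k (c 192 4099 r (u 128 2 (k v (k (c 16 4078 (u 16 1 (k v (k v r))) v) r)))) r))) r))))))))))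
 .z .z) .z))))

set_option maxRecDepth 100000 in
def N33 : NT :=
(.s 0x772fee00288 4085 (n false (n false (n true (z 46) e) e) (n false (n false e e) (n false e e))) (u 8 1 (k v (k (u 16 1 (k v (k v r))) (k (c 24 4099 r (u 16 0 (k v (k v r)))) (k (u 16 0 (k v (k v r))) (k (c 24 4097 r (u 16 1 (k v (k v r)))) (k (c 16 4095 r (u 24 1 (k v (k v r)))) r)))))))
 (.s 0x772bbe00288 4079 (n false (n false (n true (z 52) e) e) (n false (n false e e) (n false e e))) (u 8 86 (k v (k v (k v (k v (k v r))))))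
 (.s 0x75f3efb0020 4086 (n false (n false (n false (n true (n true (z 91) e) e) (n false e e)) e) e) (u 32 4 (k v (k v (k (u 64 1 (k v (k v r))) (k (c 64 4097 r (u 96 0 (k v (k v r)))) (k (c 64 4097 r (u 96 0 (k v (k v r)))) (k (c 64 4096 r (u 96 0 (k v (k v r)))) (k (c 64 4095 r (u 96 0 (k v (k v r)))) r))))))))
 (.s 0x75f3bbb0010 4082 (n false (n false (n false (n true (n true (z 85) e) e) e) (n false e e)) e) (u 32 4 (k v (k (c 96 4099 r r) (k (c 96 4099 r r) (k (c 96 4099 r (u 64 1 (k v (k v (k v (k (t 192 1 (u 128 6 (k v (k v (k (t 384 1 (u 256 0 (k v (k v r)))) r))))) r)))))) (k (u 64 10 (k v (k v (k v (k (t 192 2 (u 128 6 (k v (k v (k (t 384 1 (u 256 0 (k v (k v r)))) r))))) r))))) (k (c 96 4096 r r) (k (c 64 4099 r r) r))))))))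
 (.s 0x75f2ffe0010 4079 (n false (n false (n false (n true (n true (z 62) e) e) e) (n false e e)) e) (u 32 1 (k v (k v (k v (k (t 96 1 (u 64 6 (k v (k v (k (t 192 1 (u 128 0 (k v (k v r)))) r))))) r)))))
 .z .z) (.s 0x75f3efb0010 4082 (n false (n false (n false (n true (n true (z 91) e) e) e) (n false e e)) e) (u 32 1 (k v (k v (k v (k (u 64 0 (k v (k v r))) (k (c 64 4097 r (u 96 0 (k v (k v r)))) (k (c 64 4095 r (u 96 0 (k v (k v r)))) r)))))))
 .z .z)) (.s 0x772aaf00450 4077 (n false (n false (n true (z 96) e) (n false e e)) (n false (n false e e) e)) (u 8 0 (k (t 24 2 (u 16 0 (k (t 48 2 (u 32 2 (k v (k (c 3 4094 v r) r)))) r))) r))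
 (.s 0x75f3fbe0010 4082 (n false (n false (n false (n true (n true (z 55) e) e) e) (n false e e)) e) (u 32 4 (k (t 96 1 (u 64 20 (k v (k v (k v (k (c 8 4082 r v) (k (u 128 4 (k v (k (t 384 1 (u 256 2 (k v (k v r)))) r))) r))))))) (k (t 96 2 r) r)))
 .z .z) (.s 0x772aaf00740 4078 (n false (n false (n true (z 96) e) (n true (n false (n false e e) e) e)) e) (u 8 0 (k (t 24 2 (u 16 0 (k (t 48 2 (u 32 2 (k v (k (c 10 4094 v r) r)))) r))) r))
 .z .z))) (.s 0x772bff00288 4084 (n false (n false (n true (z 124) e) e) (n false (n false e e) (n false e e))) (u 8 3 (k v (k v (k (c 24 4097 r (u 16 1 (k v (k v r)))) (k (c 24 4096 r (u 16 1 (k v (k v r)))) (k (c 24 4097 r (u 16 1 (k v (k v r)))) r))))))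
 (.s 0x772bbe00540 4082 (n false (n false (n true (z 52) e) (n false (n false (n false e e) e) e)) e) (u 8 9 (k v (k v (k v (k v (k v (k v (k v (k v (k (c 4 4087 (t 6 2 r) v) (k (t 24 1 (c 4 4087 r v)) r)))))))))))
 (.s 0x772bbe00450 4079 (n false (n false (n true (z 52) e) (n false e e)) (n false (n false e e) e)) (u 8 35 (k v (k v (k v (k v (k v (k v (k v (k (c 4 4081 r v) (k (t 24 2 (u 16 0 (k (u 32 2 (k v (k (u 64 2 (k v (k v r))) r))) r))) (k (t 24 1 (u 16 0 (k (c 48 4099 r (u 32 2 (k v (k (c 4 4078 (u 16 1 (k v (k v r))) v) r)))) r))) r)))))))))))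
 .z .z) (.s 0x772bbe00740 4079 (n false (n false (n true (z 52) e) (n true (n false (n false e e) e) e)) e) (u 8 18 (k v (k v (k v (k v (k v (k v (k v (k (c 4 4081 r v) (k (t 24 2 r) (k (t 24 1 r) r)))))))))))
 .z .z)) (.s 0x772bff003a0 4089 (n false (n false (n true (z 124) e) e) (n true (n false (n false e e) e) e)) (u 8 4 (k v (k v (k (c 24 4097 r (u 16 1 (k v (k v r)))) (k (c 24 4096 r (u 16 1 (k v (k v r)))) (k (c 16 4098 r (u 24 0 (k v (k v r)))) (k (c 24 4096 r (u 16 1 (k v (k v r)))) (k (c 24 4097 r (u 16 1 (k v (k v r)))) (k (c 24 4097 r (u 16 1 (k v (k v r)))) (k (c 24 4096 r (u 16 1 (k v (k v r)))) (k (c 16 4097 r (u 24 1 (k v (k v r)))) r)))))))))))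
 (.s 0x772bff002a0 4090 (n false (n false (n true (z 124) e) e) (n false (n false (n false e e) e) e)) (u 8 5 (k v (k (c 24 4097 r (u 16 1 (k v (k v r)))) (k (c 24 4096 r (u 16 1 (k v (k v r)))) (k (c 16 4098 r (u 24 0 (k v (k v r)))) (k (c 24 4096 r (u 16 1 (k v (k v r)))) (k (c 24 4097 r (u 16 1 (k v (k v r)))) (k (c 24 4097 r (u 16 1 (k v (k v r)))) (k (c 24 4096 r (u 16 1 (k v (k v r)))) (k (c 16 4097 r (u 24 1 (k v (k v r)))) r))))))))))
 .z .z) .z))) (.s 0x773eee003a0 4084 (n false (n false (n true (z 43) e) e) (n true (n false (n false e e) e) e)) (u 8 0 (k v (k r (k (c 24 4099 r (u 16 0 (k (u 32 0 (k v (k v r))) r))) (k r (k (c 3 4093 v r) (k (u 16 0 (k (u 32 0 (k v (k v r))) r)) (k r (k r r)))))))))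
 (.s 0x773aff003a0 4089 (n false (n false (n true (z 121) e) e) (n true (n false (n false e e) e) e)) (u 8 5 (k v (k v (k v (k (c 24 4099 r (u 16 1 (k v (k v r)))) (k (c 16 4097 r (u 24 1 (k v (k v r)))) r))))))
 (.s 0x772fee003a0 4089 (n false (n false (n true (z 46) e) e) (n true (n false (n false e e) e) e)) (u 8 6 (k v (k v (k (u 16 1 (k v (k v r))) (k (c 24 4099 r (u 16 0 (k v (k v r)))) (k (u 16 1 (k v (k v r))) (k (c 24 4097 r (u 16 1 (k v (k v r)))) r)))))))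
 (.s 0x772fee002a0 4090 (n false (n false (n true (z 46) e) e) (n false (n false (n false e e) e) e)) (u 8 12 (k v (k v (k v (k (u 16 1 (k v (k v r))) (k (u 16 1 (k v (k v r))) (k (c 24 4097 r (u 16 1 (k v (k v r)))) r)))))))
 .z .z) (.s 0x773aff002a0 4090 (n false (n false (n true (z 121) e) e) (n false (n false (n false e e) e) e)) (u 8 5 (k v (k v (k v (k (c 24 4099 r (u 16 1 (k v (k v r)))) (k (c 16 4097 r (u 24 1 (k v (k v r)))) r))))))
 .z .z)) (.s 0x773eae00740 4086 (n false (n false (n true (n false (n false e e) e) e) (n true (z 35) e)) e) (u 10 2 (k v (k v (k v (k (t 26 1 (u 18 0 (k (t 34 3 (t 50 1 v)) r))) r)))))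
 (.s 0x773bbb00288 4085 (n false (n false (n true (z 85) e) e) (n false (n false e e) (n false e e))) (u 8 12 (k v (k v (k (c 24 4099 r r) (k (t 24 1 (u 16 2 (k v (k (t 48 2 (c 24 4099 v (u 32 2 (k v (k (c 8 4082 (u 8 1 (k v (k v r))) v) r))))) r)))) (k (u 16 3 (k v (k v r))) (k (c 24 4096 r (c 4 4088 r v)) (k (c 16 4099 r r) r))))))))
 .z .z) .z)) (.s 0x773fbe00450 4078 (n false (n false (n true (z 55) e) (n false e e)) (n false (n false e e) e)) (u 8 4 (k (t 24 1 (u 16 14 (k v (k (c 48 4099 r (t 32 3 v)) (k (u 32 4 (k v (k (t 96 1 (u 64 2 (k v (k v r)))) r))) (k (u 32 4 (k v (k (t 96 1 (u 64 2 (k v (k v r)))) r))) (k r (k r r)))))))) (k (t 24 2 (u 16 0 (k v (k v (k (c 4 4082 (u 8 1 (k v (k v r))) v) r))))) r)))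
 (.s 0x773efb003a0 4089 (n false (n false (n true (z 91) e) e) (n true (n false (n false e e) e) e)) (u 8 3 (k v (k v (k (u 16 1 (k v (k v r))) (k (c 16 4097 r (u 24 0 (k v (k v r)))) (k (c 16 4097 r (u 24 0 (k v (k v r)))) (k (c 16 4096 r (u 24 0 (k v (k v r)))) r)))))))
 (.s 0x773efb002a0 4090 (n false (n false (n true (z 91) e) e) (n false (n false (n false e e) e) e)) (u 8 6 (k v (k v (k (u 16 1 (k v (k v r))) (k (c 16 4097 r (u 24 0 (k v (k v r)))) (k (c 16 4097 r (u 24 0 (k v (k v r)))) r))))))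
 .z .z) (.s 0x773fab00288 4088 (n false (n false (n true (z 71) e) e) (n false (n false e e) (n false e e))) (u 8 7 (k v (k v (k v (k (c 24 4099 r (u 16 1 (k v (k v r)))) r)))))
 .z .z)) (.s 0x774abf80380 4076 (n false (n false (n true (n false (z 56) (n true (n false e e) e)) e) e) e) (u 16 1 (k (u 32 1 (k v (k v r))) (k (u 32 250 (k v (k v (k v (k (t 96 1 (u 64 0 (k v (k v r)))) r))))) (k (c 32 4096 r (u 48 0 (k v (k v r)))) (k (c 32 4097 r r) r)))))
 (.s 0x773fbe00740 4079 (n false (n false (n true (z 55) e) (n true (n false (n false e e) e) e)) e) (u 8 4 (k (t 24 1 (u 16 14 (k v (k (c 48 4099 r (t 32 3 v)) (k (u 32 4 (k v (k (t 96 1 (u 64 4 (k v (k v r)))) r))) (k (u 32 4 (k v (k (t 96 1 (u 64 2 (k v (k v r)))) r))) (k r (k r r)))))))) (k (t 24 2 (u 16 0 (k v (k v (k (c 4 4082 (u 8 1 (k v (k v r))) v) r))))) r)))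
 .z .z) .z))))

set_option maxRecDepth 100000 in
def N34 : NT :=
(.s 0x774faac0088 4085 (n false (n false (n true (n false (z 67) e) e) (n false e e)) (n false e e)) (u 16 4 (k v (k v (k (c 48 4096 r r) (k (c 32 4101 r (u 48 0 (k v (k v r)))) (k (c 8 4088 r v) (k (c 32 4099 r (u 48 0 (k v (k v r)))) (k (c 48 4101 r (u 32 1 (k v (k v r)))) (k (c 48 4102 r (u 32 1 (k v (k v r)))) (k (c 32 4101 r (u 48 1 (k v (k v r)))) (k (c 32 4101 r (u 48 1 (k v (k v r)))) r)))))))))))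
 (.s 0x774ebec00e0 4082 (n false (n false (n true (n false (z 89) e) e) (n true (n false e e) e)) e) (u 16 18 (k v (k v (k v (k v (k (t 48 3 (u 32 205 (k v (k v (k v (k v (k v (k (t 96 1 (c 16 4086 r v)) r)))))))) (k (c 48 4110 r (u 32 1 (k v (k v r)))) (k (t 32 1 (u 48 3 (k v (k v r)))) (k (t 48 2 (u 32 27 (k v (k v r)))) r)))))))))
 (.s 0x774baf80380 4071 (n false (n false (n true (n false (z 50) (n true (n false e e) e)) e) e) e) (u 16 1 (k v (k (c 48 4097 r (u 32 0 (k v (k v r)))) r)))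
 (.s 0x774afea0010 4084 (n false (n false (n true (n false (z 156) e) e) (n false e e)) e) (u 16 2 (k v (k (c 48 4099 r (u 32 1 (k v (k v r)))) (k (c 32 4095 r (u 48 0 (k v (k v r)))) r))))
 (.s 0x774aeb80210 4084 (n false (n false (n true (n false (z 36) (n false e e)) e) (n false e e)) e) (u 16 0 (k (u 32 4 (k v (k (c 8 4088 r v) r))) r))
 .z .z) (.s 0x774affc0380 4069 (n false (n false (n true (n false (z 124) (n true (n false e e) e)) e) e) e) (u 16 1 (k v (k (c 48 4097 r (u 32 1 (k v (k v r)))) (k (c 48 4096 r (u 32 1 (k v (k v r)))) (k (c 32 4098 r (u 48 0 (k v (k v r)))) (k (c 48 4096 r (u 32 1 (k v (k v r)))) (k (c 48 4097 r (u 32 1 (k v (k v r)))) (k (c 48 4097 r (u 32 1 (k v (k v r)))) (k (c 48 4096 r (u 32 1 (k v (k v r)))) (k (c 48 4099 r (u 32 1 (k v (k v r)))) (k (c 32 4097 r (u 48 1 (k v (k v r)))) r)))))))))))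
 .z .z)) (.s 0x774bfb800e0 4069 (n false (n false (n true (n false (z 46) e) e) (n true (n false e e) e)) e) (u 16 2 (k v (k (c 48 4099 r (u 32 0 (k v (k v r)))) (k (u 32 1 (k v (k v r))) (k (u 32 1 (k v (k v r))) (k (c 48 4097 r (u 32 1 (k v (k v r)))) (k (c 32 4095 r (u 48 1 (k v (k v r)))) r)))))))
 (.s 0x774bfb80088 4070 (n false (n false (n true (n false (z 46) e) e) (n false e e)) (n false e e)) (u 16 1 (k v (k (u 32 1 (k v (k v r))) (k (c 48 4099 r (u 32 0 (k v (k v r)))) (k (u 32 1 (k v (k v r))) (k (c 48 4097 r (u 32 1 (k v (k v r)))) (k (c 32 4095 r (u 48 1 (k v (k v r)))) r)))))))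
 .z .z) (.s 0x774bfb80380 4069 (n false (n false (n true (n false (z 46) (n true (n false e e) e)) e) e) e) (u 16 2 (k v (k (c 48 4099 r (u 32 0 (k v (k v r)))) (k (u 32 1 (k v (k v r))) (k (u 32 1 (k v (k v r))) (k (c 48 4097 r (u 32 1 (k v (k v r)))) (k (c 32 4095 r (u 48 1 (k v (k v r)))) r)))))))
 .z .z))) (.s 0x774eeb800e0 4075 (n false (n false (n true (n false (z 37) e) e) (n true (n false e e) e)) e) (u 16 30 (k v (k r (k r (k (u 32 0 (k (t 64 3 (t 96 1 v)) r)) (k (u 32 0 (k (t 64 3 (t 96 1 v)) r)) (k r r)))))))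
 (.s 0x774ebfc00e0 4071 (n false (n false (n true (n false (z 121) e) e) (n true (n false e e) e)) e) (u 16 1 (k v (k (c 48 4099 r (u 32 1 (k v (k v r)))) (k (c 32 4097 r (u 48 1 (k v (k v r)))) (k (c 32 4095 r (c 4 4076 r v)) (k (c 32 4095 r (c 4 4076 r v)) r))))))
 (.s 0x774ebfc0088 4074 (n false (n false (n true (n false (z 121) e) e) (n false e e)) (n false e e)) (u 16 1 (k v (k (c 48 4099 r (u 32 1 (k v (k v r)))) (k (c 32 4097 r (u 48 1 (k v (k v r)))) (k (c 32 4095 r (c 4 4076 r v)) (k (c 32 4095 r (c 4 4076 r v)) r))))))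
 .z .z) (.s 0x774ebfc0380 4071 (n false (n false (n true (n false (z 121) (n true (n false e e) e)) e) e) e) (u 16 1 (k v (k (c 48 4099 r (u 32 1 (k v (k v r)))) (k (c 32 4097 r (u 48 1 (k v (k v r)))) (k (c 32 4095 r (u 48 0 (k v (k v r)))) (k (c 32 4095 r (u 48 0 (k v (k v r)))) r))))))
 .z .z)) (.s 0x774eeec0380 4069 (n false (n false (n true (n false (z 85) (n true (n false e e) e)) e) e) e) (u 16 10 (k (c 48 4099 r r) (k (c 48 4099 r r) (k (c 48 4099 r r) (k r (k (c 48 4101 r r) (k (c 48 4096 r r) (k (c 32 4099 r r) r))))))))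
 (.s 0x774eeb80380 4071 (n false (n false (n true (n false (z 37) (n true (n false e e) e)) e) e) e) (u 16 5 (k v (k (u 32 0 (k (t 64 3 (t 96 1 v)) r)) (k r (k (u 32 0 (k (t 64 3 (t 96 1 v)) r)) (k r (k r r)))))))
 .z .z) .z))) (.s 0x7772bbe0010 4079 (n false (n false (n true (n false (n true (z 52) e) e) e) (n false e e)) e) (u 32 86 (k v (k v (k v (k v (k v r))))))
 (.s 0x774feac00e0 4072 (n false (n false (n true (n false (z 71) e) e) (n true (n false e e) e)) e) (u 16 1 (k v (k (c 48 4099 r (u 32 1 (k v (k v r)))) (k (u 32 0 (k v (k v r))) (k (c 32 4099 r (u 48 1 (k v (k v r)))) (k (c 32 4099 r (u 48 1 (k v (k v r)))) (k (c 32 4099 r (u 48 1 (k v (k v r)))) r)))))))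
 (.s 0x774fbec0380 4075 (n false (n false (n true (n false (z 91) (n true (n false e e) e)) e) e) e) (u 16 5 (k v (k (u 32 1 (k v (k v r))) (k (c 32 4097 r (u 48 0 (k v (k v r)))) (k (c 32 4097 r (u 48 0 (k v (k v r)))) (k (c 32 4097 r (u 48 0 (k v (k v r)))) (k (c 32 4096 r (u 48 0 (k v (k v r)))) (k (c 32 4095 r (u 48 0 (k v (k v r)))) r))))))))
 (.s 0x774faac00e0 4085 (n false (n false (n true (n false (z 67) e) e) (n true (n false e e) e)) e) (u 16 4 (k v (k v (k (c 48 4096 r r) (k (c 32 4101 r (u 48 0 (k v (k v r)))) (k (c 8 4088 r v) (k (c 32 4099 r (u 48 0 (k v (k v r)))) (k (c 48 4101 r (u 32 1 (k v (k v r)))) (k (c 48 4102 r (u 32 1 (k v (k v r)))) (k (c 32 4101 r (u 48 1 (k v (k v r)))) (k (c 32 4101 r (u 48 1 (k v (k v r)))) r)))))))))))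
 .z .z) (.s 0x774feac0088 4072 (n false (n false (n true (n false (z 71) e) e) (n false e e)) (n false e e)) (u 16 1 (k v (k (c 48 4099 r (u 32 1 (k v (k v r)))) (k (u 32 0 (k v (k v r))) (k (c 32 4099 r (u 48 1 (k v (k v r)))) (k (c 32 4099 r (u 48 1 (k v (k v r)))) (k (c 32 4099 r (u 48 1 (k v (k v r)))) r)))))))
 .z .z)) (.s 0x774fefc0380 4072 (n false (n false (n true (n false (z 119) (n true (n false e e) e)) e) e) e) (u 16 1 (k (c 48 4101 r r) (k (c 32 4096 r (u 48 0 (k (t 80 3 (t 112 1 v)) r))) (k (c 32 4096 r r) (k (c 48 4099 r r) (k (c 48 4099 r r) (k (c 48 4097 r r) (k (c 24 4094 v (u 48 0 (k (c 112 4101 r (t 80 3 (u 32 0 (k r r)))) r))) (k (c 32 4098 r r) (k (c 32 4101 r r) (k (c 32 4101 r r) (k (c 32 4099 r r) (k (c 32 4101 r r) (k (c 32 4101 r r) r))))))))))))))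
 (.s 0x774fefc0088 4084 (n false (n false (n true (n false (z 119) e) e) (n false e e)) (n false e e)) (u 16 29 (k v (k v (k (c 48 4101 r (u 32 159 (k v (k v (k v r))))) (k (c 32 4096 r r) (k (c 48 4099 r (u 32 159 (k v (k v (k v r))))) (k (c 48 4097 r (u 32 159 (k v (k v (k v r))))) (k (c 32 4102 r (u 48 0 (k (t 80 3 (t 112 1 v)) r))) (k (c 32 4098 r (u 48 159 (k v (k v (k v r))))) (k (c 32 4101 r (u 48 159 (k v (k v (k v r))))) (k (c 32 4099 r (u 48 159 (k v (k v (k v r))))) (k (c 32 4101 r (u 48 159 (k v (k v (k v r))))) r))))))))))))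
 .z .z) .z)) (.s 0x77cebfc00e0 4089 (n false (n false (n true (n true (z 121) e) e) (n true (n false e e) e)) e) (u 16 5 (k v (k v (k v (k (c 48 4099 r (u 32 1 (k v (k v r)))) (k (c 32 4097 r (u 48 1 (k v (k v r)))) r))))))
 (.s 0x77caffc0088 4087 (n false (n false (n true (n true (z 124) e) e) (n false e e)) (n false e e)) (u 16 1 (k v (k (c 48 4097 r (u 32 1 (k v (k v r)))) (k (c 48 4096 r (u 32 1 (k v (k v r)))) (k (c 32 4098 r (u 48 0 (k v (k v r)))) (k (c 48 4096 r (u 32 1 (k v (k v r)))) (k (c 48 4097 r (u 32 1 (k v (k v r)))) (k (c 48 4097 r (u 32 1 (k v (k v r)))) (k (c 48 4096 r (u 32 1 (k v (k v r)))) (k (c 48 4099 r (u 32 1 (k v (k v r)))) (k (c 32 4097 r (u 48 1 (k v (k v r)))) r)))))))))))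
 (.s 0x77cafea0010 4084 (n false (n false (n true (n true (z 156) e) e) (n false e e)) e) (u 16 2 (k v (k (c 48 4099 r (u 32 1 (k v (k v r)))) (k (c 32 4095 r (u 48 0 (k v (k v r)))) r))))
 .z .z) (.s 0x77cbfb800e0 4087 (n false (n false (n true (n true (z 46) e) e) (n true (n false e e) e)) e) (u 16 2 (k v (k (c 48 4099 r (u 32 0 (k v (k v r)))) (k (u 32 1 (k v (k v r))) (k (u 32 1 (k v (k v r))) (k (c 48 4097 r (u 32 1 (k v (k v r)))) (k (c 32 4095 r (u 48 1 (k v (k v r)))) r)))))))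
 .z .z)) (.s 0x77cfbec0088 4087 (n false (n false (n true (n true (z 91) e) e) (n false e e)) (n false e e)) (u 16 4 (k v (k v (k (u 32 1 (k v (k v r))) (k (c 32 4097 r (u 48 0 (k v (k v r)))) (k (c 32 4097 r (u 48 0 (k v (k v r)))) (k (c 32 4096 r (u 48 0 (k v (k v r)))) (k (c 32 4095 r (u 48 0 (k v (k v r)))) r))))))))
 (.s 0x77ceeec0088 4088 (n false (n false (n true (n true (z 85) e) e) (n false e e)) (n false e e)) (u 16 29 (k v (k (c 48 4099 r r) (k (c 48 4099 r (c 8 4088 r v)) (k (u 32 4 (k v (k v (k v r)))) (k (c 48 4101 r r) (k (c 48 4096 r (c 8 4088 r v)) (k (c 32 4099 r r) r))))))))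
 .z .z) .z))))

set_option maxRecDepth 100000 in
def N35 : NT :=
(.s 0x7cafea00288 4084 (n false (n true (z 156) e) (n false (n false e e) (n false e e))) (u 4 2 (k v (k (c 12 4099 r (u 8 1 (k v (k v r)))) (k (c 8 4095 r (u 12 0 (k v (k v r)))) r))))
 (.s 0x77f3bae0010 4084 (n false (n false (n true (n true (n true (z 37) e) e) e) (n false e e)) e) (u 32 0 (k v (k (u 64 0 (k (t 128 3 (t 192 1 v)) r)) (k (u 64 0 (k (t 128 3 (t 192 1 v)) r)) (k (u 64 1 (k v (k v (k v (k (t 192 1 (u 128 0 (k (t 256 3 (t 384 1 v)) r))) r))))) (k (u 64 0 (k v (k v (k (t 192 1 (u 128 0 (k (t 256 3 (t 384 1 v)) r))) r)))) (k (c 16 4088 r v) r)))))))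
 (.s 0x77f2bbe0010 4079 (n false (n false (n true (n true (n true (z 52) e) e) e) (n false e e)) e) (u 32 23 (k v (k v (k v (k v (k v (k v (k v (k (t 96 2 (u 64 0 (k (u 128 2 (k v (k (c 16 4078 (u 16 1 (k v (k v r))) v) r))) r))) (k (t 96 1 (u 64 0 (k (c 192 4099 r (u 128 2 (k v (k (c 16 4078 (u 16 1 (k v (k v r))) v) r)))) r))) r))))))))))
 (.s 0x77d3afb0010 4081 (n false (n false (n true (n true (n false (z 89) e) e) e) (n false e e)) e) (u 32 2 (k v (k v (k v (k (t 96 2 (u 64 29 (k v (k v (k v (k (t 192 1 (u 128 0 (k v (k v r)))) r)))))) r)))))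
 (.s 0x77d2eee0080 4082 (n false (n false (n true (n true (n false (z 42) (n false e e)) e) e) e) e) (u 32 11 (k v (k v (k (c 8 4085 (t 12 1 (u 8 0 (k r r))) v) r))))
 .z .z) (.s 0x77d3fbe0010 4083 (n false (n false (n true (n true (n false (z 55) e) e) e) (n false e e)) e) (u 32 4 (k (t 96 1 (u 64 9 (k v (k v (k v (k (u 128 4 (k v (k (t 384 1 (u 256 2 (k v (k v r)))) r))) (k (c 8 4082 r v) r))))))) (k (t 96 2 (u 64 2 (k v (k (c 16 4082 (u 8 1 (k v (k v r))) v) r)))) r)))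
 .z .z)) (.s 0x77f2ffe0010 4079 (n false (n false (n true (n true (n true (z 62) e) e) e) (n false e e)) e) (u 32 1 (k v (k v (k v (k (t 96 1 (u 64 6 (k v (k v (k (t 192 1 (u 128 0 (k v (k v r)))) r))))) r)))))
 (.s 0x77f2fee0010 4084 (n false (n false (n true (n true (n true (z 46) e) e) e) (n false e e)) e) (u 32 2 (k v (k (c 96 4099 r (u 64 0 (k v (k v r)))) (k (u 64 1 (k v (k v r))) (k (u 64 0 (k v (k v r))) (k (c 96 4097 r (u 64 1 (k v (k v r)))) (k (c 64 4095 r (u 96 1 (k v (k v r)))) r)))))))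
 .z .z) (.s 0x77f3aff0010 4084 (n false (n false (n true (n true (n true (z 121) e) e) e) (n false e e)) e) (u 32 2 (k v (k v (k (c 96 4099 r (u 64 1 (k v (k v r)))) (k (c 64 4095 r (u 96 0 (k v (k v r)))) (k (c 64 4095 r (u 96 0 (k v (k v r)))) r))))))
 .z .z))) (.s 0x7caaaa00288 4080 (n false (n true (z 128) e) (n false (n false e e) (n false e e))) (u 4 3 (k v (k v (k (c 12 4097 r r) (k (t 12 2 (u 8 0 (k (t 24 2 (u 16 0 (k (c 48 4099 r (u 32 2 (k v (k (c 16 4084 (u 4 1 (k v (k v r))) v) r)))) r))) r))) (k (c 8 4096 r r) (k (c 8 4095 r r) (k (c 8 4095 r (u 12 0 (k v (k v r)))) (k (c 12 4095 r (u 8 1 (k v (k v r)))) (k (c 8 4095 r r) (k (c 8 4095 r (u 12 1 (k v (k v r)))) (k (c 8 4097 r r) r))))))))))))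
 (.s 0x77f3efb0010 4080 (n false (n false (n true (n true (n true (z 91) e) e) e) (n false e e)) e) (u 32 1 (k v (k v (k v (k (u 64 8 (k v (k v r))) (k (c 64 4097 r (u 96 0 (k v (k v r)))) (k (c 64 4095 r (u 96 0 (k v (k v r)))) r)))))))
 (.s 0x77f3eae0010 4086 (n false (n false (n true (n true (n true (z 35) e) e) e) (n false e e)) e) (u 32 2 (k v (k v (k v (k (t 96 1 (u 64 0 (k (t 128 3 (t 192 1 v)) r))) r)))))
 .z .z) (.s 0x77f3fbe0010 4082 (n false (n false (n true (n true (n true (z 55) e) e) e) (n false e e)) e) (u 32 4 (k (t 96 1 (u 64 9 (k v (k v (k v (k (u 128 4 (k v (k (t 384 1 (u 256 2 (k v (k v r)))) r))) (k (c 8 4082 r v) r))))))) (k (t 96 2 r) r)))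
 .z .z)) (.s 0x7caef801d10 4079 (n false (n true (z 52) e) (n true (n false (n false e e) (n false e e)) e)) (u 4 23 (k v (k v (k v (k v (k v (k v (k v (k (t 12 2 (u 8 0 (k (u 16 2 (k v (k (c 2 4078 (u 16 1 (k v (k v r))) v) r))) r))) (k (t 12 1 (u 8 0 (k (c 24 4099 r (u 16 2 (k v (k (c 2 4078 (u 16 1 (k v (k v r))) v) r)))) r))) r))))))))))
 (.s 0x7caef801510 4079 (n false (n true (z 52) e) (n false (n false (n false e e) (n false e e)) e)) (u 4 22 (k v (k v (k v (k v (k v (k v (k v (k (t 12 2 (u 8 0 (k (u 16 2 (k v (k (c 2 4078 (u 16 1 (k v (k v r))) v) r))) r))) (k (t 12 1 (u 8 0 (k (c 24 4099 r (u 16 2 (k v (k (c 2 4078 (u 16 1 (k v (k v r))) v) r)))) r))) r))))))))))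
 .z .z) .z))) (.s 0x7cbfb801d10 4081 (n false (n true (z 46) e) (n true (n false (n false e e) (n false e e)) e)) (u 4 1 (k v (k (u 8 1 (k v (k v r))) (k (c 12 4099 r (u 8 0 (k v (k v r)))) (k (u 8 0 (k v (k v r))) (k (c 12 4097 r (u 8 1 (k v (k v r)))) (k (c 8 4095 r (u 12 1 (k v (k v r)))) r)))))))
 (.s 0x7caffc01f40 4087 (n false (n true (z 124) e) (n true (n true (n false (n false e e) e) e) e)) (u 4 1 (k v (k (c 12 4097 r (u 8 1 (k v (k v r)))) (k (c 12 4096 r (u 8 1 (k v (k v r)))) (k (c 8 4098 r (u 12 0 (k v (k v r)))) (k (c 12 4096 r (u 8 1 (k v (k v r)))) (k (c 12 4097 r (u 8 1 (k v (k v r)))) (k (c 12 4097 r (u 8 1 (k v (k v r)))) (k (c 12 4096 r (u 8 1 (k v (k v r)))) (k (c 12 4099 r (u 8 1 (k v (k v r)))) (k (c 8 4097 r (u 12 1 (k v (k v r)))) r)))))))))))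
 (.s 0x7caffc01d10 4081 (n false (n true (z 124) e) (n true (n false (n false e e) (n false e e)) e)) (u 4 2 (k v (k v (k (c 12 4097 r (u 8 1 (k v (k v r)))) (k (c 12 4096 r (u 8 1 (k v (k v r)))) (k (c 12 4097 r (u 8 1 (k v (k v r)))) (k (c 12 4099 r (u 8 1 (k v (k v r)))) r)))))))
 (.s 0x7caffc01708 4087 (n false (n true (z 124) e) (n false (n true (n false e e) e) (n false e e))) (u 4 1 (k v (k (c 12 4097 r (u 8 1 (k v (k v r)))) (k (c 12 4096 r (u 8 1 (k v (k v r)))) (k (c 8 4098 r (u 12 0 (k v (k v r)))) (k (c 12 4096 r (u 8 1 (k v (k v r)))) (k (c 12 4097 r (u 8 1 (k v (k v r)))) (k (c 12 4097 r (u 8 1 (k v (k v r)))) (k (c 12 4096 r (u 8 1 (k v (k v r)))) (k (c 12 4099 r (u 8 1 (k v (k v r)))) (k (c 8 4097 r (u 12 1 (k v (k v r)))) r)))))))))))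
 .z .z) (.s 0x7caffc01d40 4089 (n false (n true (z 124) e) (n true (n false (n false (n false e e) e) e) e)) (u 4 1 (k v (k (c 12 4097 r (u 8 1 (k v (k v r)))) (k (c 12 4096 r (u 8 1 (k v (k v r)))) (k (c 8 4098 r (u 12 0 (k v (k v r)))) (k (c 12 4096 r (u 8 1 (k v (k v r)))) (k (c 12 4097 r (u 8 1 (k v (k v r)))) (k (c 12 4097 r (u 8 1 (k v (k v r)))) (k (c 12 4096 r (u 8 1 (k v (k v r)))) (k (c 12 4099 r (u 8 1 (k v (k v r)))) (k (c 8 4097 r (u 12 1 (k v (k v r)))) r)))))))))))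
 .z .z)) (.s 0x7cbfb801708 4087 (n false (n true (z 46) e) (n false (n true (n false e e) e) (n false e e))) (u 4 1 (k v (k (u 8 1 (k v (k v r))) (k (c 12 4099 r (u 8 0 (k v (k v r)))) (k (u 8 1 (k v (k v r))) (k (c 12 4097 r (u 8 1 (k v (k v r)))) (k (c 8 4095 r (u 12 1 (k v (k v r)))) r)))))))
 (.s 0x7cbefc01708 4084 (n false (n true (z 118) e) (n false (n true (n false e e) e) (n false e e))) (u 4 5 (k v (k (t 12 1 (u 8 15 (k v (k v r)))) r)))
 .z .z) .z)) (.s 0x7cebfc01708 4089 (n false (n true (z 121) e) (n false (n true (n false e e) e) (n false e e))) (u 4 4 (k v (k v (k (c 12 4099 r (u 8 1 (k v (k v r)))) (k (c 8 4097 r (u 12 1 (k v (k v r)))) r)))))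
 (.s 0x7cbfb801f40 4087 (n false (n true (n true (n false (n false e e) e) e) e) (n true (z 46) e)) (u 5 1 (k v (k (u 9 1 (k v (k v r))) (k (c 13 4099 r (u 9 0 (k v (k v r)))) (k (u 9 1 (k v (k v r))) (k (c 13 4097 r (u 9 1 (k v (k v r)))) (k (c 9 4095 r (u 13 1 (k v (k v r)))) r)))))))
 (.s 0x7cbfb801d40 4089 (n false (n true (n false (n false (n false e e) e) e) e) (n true (z 46) e)) (u 5 2 (k v (k (c 13 4099 r (u 9 0 (k v (k v r)))) (k (u 9 1 (k v (k v r))) (k (u 9 1 (k v (k v r))) (k (c 13 4097 r (u 9 1 (k v (k v r)))) (k (c 9 4095 r (u 13 1 (k v (k v r)))) r)))))))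
 .z .z) (.s 0x7cebec01d10 4080 (n false (n true (z 89) e) (n true (n false (n false e e) (n false e e)) e)) (u 4 2 (k v (k v (k v (k (t 12 2 r) r)))))
 .z .z)) (.s 0x7cebfc01d40 4089 (n false (n true (n false (n false (n false e e) e) e) e) (n true (z 121) e)) (u 5 4 (k v (k v (k (c 13 4099 r (u 9 1 (k v (k v r)))) (k (c 9 4097 r (u 13 1 (k v (k v r)))) r)))))
 (.s 0x7cebfc01d10 4083 (n false (n true (z 121) e) (n true (n false (n false e e) (n false e e)) e)) (u 4 2 (k v (k v (k (c 12 4099 r (u 8 1 (k v (k v r)))) (k (c 8 4095 r (u 12 0 (k v (k v r)))) (k (c 8 4095 r (u 12 0 (k v (k v r)))) r))))))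
 .z .z) .z))))

set_option maxRecDepth 100000 in
def N36 : NT :=
(.s 0x7cfbfc01f40 4089 (n false (n true (z 123) e) (n true (n true (n false (n false e e) e) e) e)) (u 4 4 (k v (k (t 12 1 (u 8 6 (k v (k v r)))) (k r (k r (k (c 8 4096 r (u 12 1 (k v (k v r)))) (k (c 2 4094 (t 4 2 r) v) r)))))))
 (.s 0x7cfaac01f40 4091 (n false (n true (z 67) e) (n true (n true (n false (n false e e) e) e) e)) (u 4 21 (k v (k v (k v (k v (k v (k r (k r (k r (k (t 12 1 (u 8 1 (k v (k v r)))) (k (c 8 4101 r (u 12 0 (k v (k v r)))) (k r (k (c 2 4088 r v) (k (c 2 4091 (t 6 2 (u 4 0 (k r r))) v) (k (c 12 4101 r (u 8 1 (k v (k v r)))) (k (t 12 1 (u 8 9 (k v (k v (k v (k (c 24 4099 r (u 16 1 (k v (k v r)))) r)))))) (k (c 12 4102 r (u 8 1 (k v (k v r)))) (k (t 12 1 (u 8 3 (k v (k v (k (c 24 4099 r (u 16 1 (k v (k v r)))) r))))) r))))))))))))))))))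
 (.s 0x7ceeec01d40 4091 (n false (n true (z 85) e) (n true (n false (n false (n false e e) e) e) e)) (u 4 0 (k v (k v (k v (k (c 8 4099 r r) r)))))
 (.s 0x7ceeec01708 4087 (n false (n true (z 85) e) (n false (n true (n false e e) e) (n false e e))) (u 4 10 (k (c 12 4099 r r) (k (c 12 4099 r (c 2 4088 r v)) (k (c 12 4099 r r) (k r (k (c 12 4101 r r) (k (c 12 4096 r (c 2 4088 r v)) (k (c 8 4099 r r) r))))))))
 (.s 0x7ceeb801d10 4083 (n false (n true (z 37) e) (n true (n false (n false e e) (n false e e)) e)) (u 4 21 (k v (k (u 8 0 (k v (k v (k (t 24 1 (u 16 0 (k (t 32 3 (t 48 1 v)) r))) r)))) (k (u 8 0 (k (t 16 3 (t 24 1 v)) r)) (k (u 8 0 (k (t 16 3 (t 24 1 v)) r)) (k (u 8 1 (k v (k v (k v (k (t 24 1 (u 16 0 (k (t 32 3 (t 48 1 v)) r))) r))))) (k (c 2 4088 r v) r)))))))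
 .z .z) (.s 0x7ceeec01d10 4081 (n false (n true (z 85) e) (n true (n false (n false e e) (n false e e)) e)) (u 4 4 (k v (k (c 12 4099 r r) (k (c 12 4099 r r) (k (c 12 4099 r r) (k (u 8 2 (k v (k v (k v (k (t 24 2 (u 16 6 (k v (k v (k (t 48 1 (u 32 0 (k v (k v r)))) r))))) r))))) (k (c 12 4096 r r) (k (c 8 4099 r r) r))))))))
 .z .z)) (.s 0x7cefb801d10 4082 (n false (n true (z 45) e) (n true (n false (n false e e) (n false e e)) e)) (u 4 1 (k v (k (t 12 1 (u 8 1 (k v (k v r)))) (k (t 12 3 (u 8 47 (k v (k v (k v r))))) r))))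
 (.s 0x7ceeec01f40 4090 (n false (n true (z 85) e) (n true (n true (n false (n false e e) e) e) e)) (u 4 18 (k v (k v (k v (k r (k (c 8 4099 r r) r))))))
 .z .z) (.s 0x7cfaac01708 4091 (n false (n true (z 67) e) (n false (n true (n false e e) e) (n false e e))) (u 4 5 (k v (k v (k v (k v (k v (k (c 2 4088 r v) (k (u 12 0 (k r (k r r))) (k (u 8 0 (k r (k (t 12 1 v) r))) (k (u 12 0 (k r r)) (k r (k r (k (t 12 1 (u 8 1 (k v (k v r)))) (k (c 8 4101 r (u 12 0 (k v (k v r)))) (k (t 12 1 r) (k (c 2 4091 (t 6 2 (u 4 0 (k r r))) v) (k r (k (t 12 1 (u 8 3 (k v (k v (k (c 24 4099 r (u 16 1 (k v (k v r)))) r))))) r))))))))))))))))))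
 .z .z))) (.s 0x7cfbec01f40 4087 (n false (n true (z 91) e) (n true (n true (n false (n false e e) e) e) e)) (u 4 4 (k v (k v (k (u 8 1 (k v (k v r))) (k (c 8 4097 r (u 12 0 (k v (k v r)))) (k (c 8 4097 r (u 12 0 (k v (k v r)))) (k (c 8 4096 r (u 12 0 (k v (k v r)))) (k (c 8 4095 r (u 12 0 (k v (k v r)))) r))))))))
 (.s 0x7cfbec01708 4086 (n false (n true (z 91) e) (n false (n true (n false e e) e) (n false e e))) (u 4 4 (k v (k v (k (u 8 1 (k v (k v r))) (k (c 8 4097 r (u 12 0 (k v (k v r)))) (k (c 8 4097 r (u 12 0 (k v (k v r)))) (k (c 8 4096 r (u 12 0 (k v (k v r)))) (k (c 8 4095 r (u 12 0 (k v (k v r)))) r))))))))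
 (.s 0x7cfab801d10 4086 (n false (n true (z 35) e) (n true (n false (n false e e) (n false e e)) e)) (u 4 2 (k v (k v (k v (k (t 12 1 (u 8 0 (k (t 16 3 (t 24 1 v)) r))) r)))))
 .z .z) (.s 0x7cfbec01d10 4081 (n false (n true (z 91) e) (n true (n false (n false e e) (n false e e)) e)) (u 4 1 (k v (k v (k v (k (u 8 0 (k v (k v r))) (k (c 8 4097 r (u 12 0 (k v (k v r)))) (k (c 8 4095 r (u 12 0 (k v (k v r)))) r)))))))
 .z .z)) (.s 0x7cfbfc01d10 4082 (n false (n true (z 123) e) (n true (n false (n false e e) (n false e e)) e)) (u 4 6 (k v (k v (k v (k (c 12 4099 r r) (k (u 8 11 (k v (k v (k (c 24 4101 r r) (k (c 24 4099 r r) (k (c 24 4096 r (u 16 0 (k (u 32 0 (k v (k v r))) r))) (k (c 16 4098 r r) (k (c 16 4101 r r) (k (c 16 4099 r r) (k (c 16 4101 r r) r)))))))))) r))))))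
 (.s 0x7cfbfc01708 4088 (n false (n true (z 123) e) (n false (n true (n false e e) e) (n false e e))) (u 4 5 (k v (k r (k (t 12 1 (u 8 6 (k v (k v r)))) (k r (k (c 8 4096 r (u 12 1 (k v (k v r)))) (k (c 2 4094 (t 4 2 r) v) r)))))))
 .z .z) .z))) (.s 0x7cffac01708 4087 (n false (n true (z 79) e) (n false (n true (n false e e) e) (n false e e))) (u 4 1 (k v (k r (k (t 12 2 r) r))))
 (.s 0x7cfefc01708 4085 (n false (n true (z 119) e) (n false (n true (n false e e) e) (n false e e))) (u 4 5 (k (t 8 3 r) (k r (k (u 8 0 (k (u 12 0 (k (c 28 4101 r (t 20 3 r)) r)) r)) (k r (k r (k r (k r (k (t 8 1 (u 12 0 (k (c 28 4101 r (t 20 3 v)) r))) (k (u 12 0 (k r (k (t 8 1 v) (k r r)))) (k (c 12 4097 r r) (k r (k r (k r r))))))))))))))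
 (.s 0x7cfeac01d10 4084 (n false (n true (z 71) e) (n true (n false (n false e e) (n false e e)) e)) (u 4 7 (k v (k v (k v (k (c 12 4099 r (u 8 1 (k v (k v r)))) r)))))
 (.s 0x7cfeac01708 4090 (n false (n true (z 71) e) (n false (n true (n false e e) e) (n false e e))) (u 4 5 (k v (k (u 8 0 (k v (k v r))) (k (c 12 4099 r (u 8 1 (k v (k v r)))) (k (c 8 4099 r (u 12 1 (k v (k v r)))) (k (c 8 4099 r (u 12 1 (k v (k v r)))) (k (c 8 4099 r (u 12 1 (k v (k v r)))) r)))))))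
 .z .z) (.s 0x7cfebc01708 4086 (n false (n true (z 103) e) (n false (n true (n false e e) e) (n false e e))) (u 4 1 (k v (k (t 12 1 r) (k (t 8 2 r) (k (t 8 1 r) r)))))
 .z .z)) (.s 0x7cfefc01f40 4090 (n false (n true (z 119) e) (n true (n true (n false (n false e e) e) e) e)) (u 4 15 (k v (k v (k (c 12 4101 r r) (k (c 12 4099 r r) (k (c 12 4097 r r) (k (c 12 4096 r (u 8 0 (k r r))) (k (c 8 4098 r r) (k (c 8 4101 r r) (k (c 8 4099 r r) (k (c 8 4101 r r) r)))))))))))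
 (.s 0x7cfefc01d10 4084 (n false (n true (z 119) e) (n true (n false (n false e e) (n false e e)) e)) (u 4 18 (k v (k v (k (c 12 4101 r r) (k (c 12 4099 r r) (k (c 12 4097 r r) (k (c 12 4096 r (u 8 0 (k (u 16 0 (k v (k v r))) r))) (k (c 8 4098 r r) (k (c 8 4101 r r) (k (c 8 4099 r r) (k (c 8 4101 r r) r)))))))))))
 .z .z) .z)) (.s 0x7d3afb00288 4080 (n false (n true (n false (z 89) e) e) (n false (n false e e) (n false e e))) (u 8 2 (k v (k v (k v (k (t 24 2 (u 16 40 (k v (k v (k v (k v (k (t 48 1 (u 32 0 (k v (k v r)))) r))))))) r)))))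
 (.s 0x7d2aff003a0 4087 (n false (n true (n false (z 120) e) e) (n true (n false (n false e e) e) e)) (u 8 18 (k v (k v (k (c 24 4099 r r) (k (c 24 4099 r r) (k (c 24 4096 r (c 2 4087 r v)) (k (c 16 4099 r r) (k (c 24 4100 r r) (k (c 24 4097 r r) (k (c 24 4099 r (u 16 5 (k v (k (c 48 4097 r (u 32 1 (k v (k v r)))) (k (c 48 4096 r (u 32 1 (k v (k v r)))) (k (c 32 4098 r (u 48 0 (k v (k v r)))) (k (c 48 4096 r (u 32 1 (k v (k v r)))) (k (c 48 4097 r (u 32 1 (k v (k v r)))) (k (c 48 4097 r (u 32 1 (k v (k v r)))) (k (c 48 4096 r (u 32 1 (k v (k v r)))) (k (c 32 4097 r (u 48 1 (k v (k v r)))) r))))))))))) (k (c 16 4099 r r) (k (c 24 4097 r r) r))))))))))))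
 (.s 0x7cffac01f40 4091 (n false (n true (z 79) e) (n true (n true (n false (n false e e) e) e) e)) (u 4 1 (k v (k r (k (c 12 4096 r (u 8 1 (k v (k v r)))) r))))
 .z .z) (.s 0x7d2eee00850 4082 (n false (n true (n false (z 42) (n false e e)) e) (n false (n false e e) e)) (u 8 11 (k v (k v (k (c 2 4085 (t 12 1 (u 8 0 (k r r))) v) r))))
 .z .z)) (.s 0x7d3eab003a0 4082 (n false (n true (n false (z 67) e) e) (n true (n false (n false e e) e) e)) (u 8 53 (k v (k v (k (c 24 4099 r r) (k (c 16 4096 r (u 24 0 (k (u 40 0 (k v (k v r))) r))) (k (c 16 4096 r (u 24 0 (k (u 40 0 (k v (k v r))) r))) (k (c 24 4097 r r) (k (c 24 4099 r r) (k r (k (c 24 4097 r r) (k (c 24 4099 r (u 16 1 (k v (k (c 48 4097 r (u 32 0 (k v (k v r)))) r)))) (k (c 24 4099 r (u 16 0 (k (u 32 0 (k v (k v r))) r))) (k (c 16 4099 r r) (k (c 24 4099 r r) (k (c 16 4099 r (u 24 0 (k (u 40 0 (k v (k v r))) r))) (k (c 24 4100 r (c 2 4084 r v)) (k (c 24 4099 r r)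 (k (c 24 4099 r r) (k (c 24 4099 r r) r)))))))))))))))))))
 (.s 0x7d3eab002a0 4090 (n false (n true (n false (z 67) e) e) (n false (n false (n false e e) e) e)) (u 8 57 (k v (k (c 24 4099 r r) (k (c 16 4099 r r) (k (c 24 4099 r r) (k (c 24 4099 r r) (k (c 24 4099 r r) (k (c 24 4099 r r) r))))))))
 .z .z) .z))))

set_option maxRecDepth 100000 in
def N37 : NT :=
(.s 0x7f2fee002a0 4087 (n false (n true (n true (z 46) e) e) (n false (n false (n false e e) e) e)) (u 8 1 (k v (k (u 16 1 (k v (k v r))) (k (c 24 4099 r (u 16 0 (k v (k v r)))) (k (u 16 1 (k v (k v r))) (k (c 24 4097 r (u 16 1 (k v (k v r)))) (k (c 16 4095 r (u 24 1 (k v (k v r)))) r)))))))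
 (.s 0x7dd3bae0020 4086 (n false (n true (n false (n true (n false (z 37) e) e) (n false e e)) e) e) (u 32 7 (k v (k r (k (u 64 4 (k v (k v (k v (k v r))))) (k (c 8 4087 r v) r)))))
 (.s 0x7dcebfc0050 4089 (n false (n true (n false (n true (z 121) e) e) e) (n false (n false e e) e)) (u 16 4 (k v (k v (k (c 48 4099 r (u 32 1 (k v (k v r)))) (k (c 32 4097 r (u 48 1 (k v (k v r)))) r)))))
 (.s 0x7dcaffc0050 4089 (n false (n true (n false (n true (z 124) e) e) e) (n false (n false e e) e)) (u 16 4 (k v (k v (k (c 48 4097 r (u 32 1 (k v (k v r)))) (k (c 48 4096 r (u 32 1 (k v (k v r)))) (k (c 32 4098 r (u 48 0 (k v (k v r)))) (k (c 48 4096 r (u 32 1 (k v (k v r)))) (k (c 48 4097 r (u 32 1 (k v (k v r)))) (k (c 48 4097 r (u 32 1 (k v (k v r)))) (k (c 48 4096 r (u 32 1 (k v (k v r)))) (k (c 32 4097 r (u 48 1 (k v (k v r)))) r)))))))))))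
 (.s 0x7d3eef00850 4083 (n false (n true (n false (z 107) (n false e e)) e) (n false (n false e e) e)) (u 8 5 (k v (k (c 24 4099 r (u 16 1 (k v (k (c 48 4099 r (u 32 1 (k v (k v r)))) (k (u 32 0 (k v (k v r))) (k (c 32 4099 r (u 48 1 (k v (k v r)))) (k (c 32 4099 r (u 48 1 (k v (k v r)))) (k (c 32 4099 r (u 48 1 (k v (k v r)))) r)))))))) (k (c 24 4100 r (u 16 0 (k (u 32 23 (k v (k v r))) r))) r))))
 .z .z) (.s 0x7dcbfb80050 4089 (n false (n true (n false (n true (z 46) e) e) e) (n false (n false e e) e)) (u 16 22 (k v (k v (k (u 32 1 (k v (k v r))) (k (u 32 1 (k v (k v r))) (k (c 48 4099 r (u 32 0 (k v (k v r)))) (k (c 48 4097 r (u 32 1 (k v (k v r)))) r)))))))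
 .z .z)) (.s 0x7dd2abf0020 4074 (n false (n true (n false (n true (n false (z 112) e) e) (n false e e)) e) e) (u 32 3 (k v (k (c 96 4099 r (u 64 4 (k v (k v r)))) r)))
 (.s 0x7dcfbec0050 4089 (n false (n true (n false (n true (z 91) e) e) e) (n false (n false e e) e)) (u 16 3 (k v (k v (k (u 32 1 (k v (k v r))) (k (c 32 4097 r (u 48 0 (k v (k v r)))) (k (c 32 4097 r (u 48 0 (k v (k v r)))) (k (c 32 4096 r (u 48 0 (k v (k v r)))) r)))))))
 .z .z) (.s 0x7dd3aff0020 4086 (n false (n true (n false (n true (n false (z 121) e) e) (n false e e)) e) e) (u 32 19 (k v (k v (k (c 64 4097 r (u 96 1 (k v (k v r)))) (k (c 64 4095 r (c 8 4076 r v)) (k (c 64 4095 r (c 8 4076 r v)) r))))))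
 .z .z))) (.s 0x7f2bbe00288 4079 (n false (n true (n true (z 52) e) e) (n false (n false e e) (n false e e))) (u 8 23 (k v (k v (k v (k v (k v (k v (k v (k (t 24 2 (u 16 0 (k (u 32 2 (k v (k (c 4 4078 (u 16 1 (k v (k v r))) v) r))) r))) (k (t 24 1 (u 16 0 (k (c 48 4099 r (u 32 2 (k v (k (c 4 4078 (u 16 1 (k v (k v r))) v) r)))) r))) r))))))))))
 (.s 0x7dd3fab0020 4072 (n false (n true (n false (n true (n false (z 71) e) e) (n false e e)) e) e) (u 32 1 (k v (k (c 96 4099 r (u 64 1 (k v (k v r)))) (k (u 64 0 (k v (k v r))) (k (c 64 4099 r (u 96 1 (k v (k v r)))) (k (c 64 4099 r (u 96 1 (k v (k v r)))) (k (c 64 4099 r (u 96 1 (k v (k v r)))) r)))))))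
 (.s 0x7dd3eab0020 4087 (n false (n true (n false (n true (n false (z 67) e) e) (n false e e)) e) e) (u 32 4 (k v (k v (k (c 96 4096 r r) (k (c 64 4101 r (u 96 0 (k v (k v r)))) (k (c 16 4088 r v) (k (c 64 4099 r (u 96 0 (k v (k v r)))) (k (c 96 4101 r (u 64 1 (k v (k v r)))) (k (c 96 4102 r (u 64 1 (k v (k v r)))) (k (c 64 4101 r (u 96 1 (k v (k v r)))) (k (c 64 4101 r (u 96 1 (k v (k v r)))) r)))))))))))
 .z .z) (.s 0x7df2ebe0020 4085 (n false (n true (n false (n true (n true (z 50) e) e) (n false e e)) e) e) (u 32 1 (k v (k (c 96 4097 r (u 64 0 (k v (k v r)))) r)))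
 .z .z)) (.s 0x7f2bff003a0 4087 (n false (n true (n true (z 124) e) e) (n true (n false (n false e e) e) e)) (u 8 1 (k v (k (c 24 4097 r (u 16 1 (k v (k v r)))) (k (c 24 4096 r (u 16 1 (k v (k v r)))) (k (c 16 4098 r (u 24 0 (k v (k v r)))) (k (c 24 4096 r (u 16 1 (k v (k v r)))) (k (c 24 4097 r (u 16 1 (k v (k v r)))) (k (c 24 4097 r (u 16 1 (k v (k v r)))) (k (c 24 4096 r (u 16 1 (k v (k v r)))) (k (c 24 4099 r (u 16 1 (k v (k v r)))) (k (c 16 4097 r (u 24 1 (k v (k v r)))) r)))))))))))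
 (.s 0x7f2bff00288 4081 (n false (n true (n true (z 124) e) e) (n false (n false e e) (n false e e))) (u 8 2 (k v (k v (k (c 24 4097 r (u 16 1 (k v (k v r)))) (k (c 24 4096 r (u 16 1 (k v (k v r)))) (k (c 24 4097 r (u 16 1 (k v (k v r)))) (k (c 24 4099 r (u 16 1 (k v (k v r)))) r)))))))
 .z .z) .z))) (.s 0x7f3efb003a0 4087 (n false (n true (n true (z 91) e) e) (n true (n false (n false e e) e) e)) (u 8 4 (k v (k v (k (u 16 1 (k v (k v r))) (k (c 16 4097 r (u 24 0 (k v (k v r)))) (k (c 16 4097 r (u 24 0 (k v (k v r)))) (k (c 16 4096 r (u 24 0 (k v (k v r)))) (k (c 16 4095 r (u 24 0 (k v (k v r)))) r))))))))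
 (.s 0x7f3bbb00288 4081 (n false (n true (n true (z 85) e) e) (n false (n false e e) (n false e e))) (u 8 4 (k v (k (c 24 4099 r r) (k (c 24 4099 r r) (k (c 24 4099 r (u 16 1 (k v (k v (k v (k (t 48 1 (u 32 6 (k v (k v (k (t 96 1 (u 64 0 (k v (k v r)))) r))))) r)))))) (k (u 16 2 (k v (k v (k v (k (t 48 2 (u 32 6 (k v (k v (k (t 96 1 (u 64 0 (k v (k v r)))) r))))) r))))) (k (c 24 4096 r r) (k (c 16 4099 r r) r))))))))
 (.s 0x7f3aff002a0 4090 (n false (n true (n true (z 121) e) e) (n false (n false (n false e e) e) e)) (u 8 5 (k v (k v (k v (k (c 24 4099 r (u 16 1 (k v (k v r)))) (k (c 16 4097 r (u 24 1 (k v (k v r)))) r))))))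
 (.s 0x7f2fee003a0 4087 (n false (n true (n true (z 46) e) e) (n true (n false (n false e e) e) e)) (u 8 0 (k v (k (u 16 1 (k v (k v r))) (k (u 16 1 (k v (k v r))) (k (c 24 4099 r (u 16 0 (k v (k v r)))) (k (c 24 4097 r (u 16 1 (k v (k v r)))) (k (c 16 4095 r (u 24 1 (k v (k v r)))) r)))))))
 .z .z) (.s 0x7f3aff003a0 4089 (n false (n true (n true (z 121) e) e) (n true (n false (n false e e) e) e)) (u 8 5 (k v (k v (k v (k (c 24 4099 r (u 16 1 (k v (k v r)))) (k (c 16 4097 r (u 24 1 (k v (k v r)))) r))))))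
 .z .z)) (.s 0x7f3efb00288 4081 (n false (n true (n true (z 91) e) e) (n false (n false e e) (n false e e))) (u 8 1 (k v (k v (k v (k (u 16 0 (k v (k v r))) (k (c 16 4097 r (u 24 0 (k v (k v r)))) (k (c 16 4095 r (u 24 0 (k v (k v r)))) r)))))))
 (.s 0x7f3eae00288 4084 (n false (n true (n true (z 35) e) e) (n false (n false e e) (n false e e))) (u 8 2 (k v (k v (k v (k (t 24 1 (u 16 0 (k (t 32 3 (t 48 1 v)) r))) r)))))
 .z .z) .z)) (.s 0x7f3fbe00288 4082 (n false (n true (n true (z 55) e) e) (n false (n false e e) (n false e e))) (u 8 4 (k (t 24 1 (u 16 6 (k v (k v (k (u 32 4 (k v (k (t 96 1 (u 64 4 (k v (k v r)))) r))) (k (c 2 4082 r v) r)))))) (k (t 24 2 r) r)))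
 (.s 0x7f3fab003a0 4090 (n false (n true (n true (z 71) e) e) (n true (n false (n false e e) e) e)) (u 8 1 (k v (k (c 24 4099 r (u 16 1 (k v (k v r)))) (k (u 16 0 (k v (k v r))) (k (c 16 4099 r (u 24 1 (k v (k v r)))) (k (c 16 4099 r (u 24 1 (k v (k v r)))) (k (c 16 4099 r (u 24 1 (k v (k v r)))) r)))))))
 (.s 0x7f3fab00288 4084 (n false (n true (n true (z 71) e) e) (n false (n false e e) (n false e e))) (u 8 7 (k v (k v (k v (k (c 24 4099 r (u 16 1 (k v (k v r)))) r)))))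
 .z .z) (.s 0x7f3faf003a0 4086 (n false (n true (n true (z 103) e) e) (n true (n false (n false e e) e) e)) (u 8 1 (k v (k (t 24 1 r) (k (t 16 2 r) (k (t 16 1 r) r)))))
 .z .z)) (.s 0x7fcaffc0050 4090 (n false (n true (n true (n true (z 124) e) e) e) (n false (n false e e) e)) (u 16 5 (k v (k (c 48 4097 r (u 32 1 (k v (k v r)))) (k (c 48 4096 r (u 32 1 (k v (k v r)))) (k (c 32 4098 r (u 48 0 (k v (k v r)))) (k (c 48 4096 r (u 32 1 (k v (k v r)))) (k (c 48 4097 r (u 32 1 (k v (k v r)))) (k (c 48 4097 r (u 32 1 (k v (k v r)))) (k (c 48 4096 r (u 32 1 (k v (k v r)))) (k (c 32 4097 r (u 48 1 (k v (k v r)))) r))))))))))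
 (.s 0x7f3fbf003a0 4089 (n false (n true (n true (z 119) e) e) (n true (n false (n false e e) e) e)) (u 8 38 (k v (k v (k (c 24 4101 r r) (k (c 24 4099 r r) (k (c 24 4097 r r) (k (c 4 4088 (t 6 2 (u 4 0 (k r r))) v) (k (c 16 4098 r r) (k (t 24 1 (u 16 8 (k v (k v (k v (k (c 48 4099 r (u 32 1 (k v (k v r)))) r)))))) (k (c 16 4101 r r) (k (c 16 4099 r r) (k (t 24 1 (u 16 3 (k v (k v (k (c 48 4099 r (u 32 1 (k v (k v r)))) r))))) (k (c 16 4101 r r) r)))))))))))))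
 .z .z) .z))))

set_option maxRecDepth 100000 in
def N38 : NT :=
(.s 0x395df007f440 4078 (n false (z 52) (n true (n true (n true (n false (n false e e) (n false e e)) e) e) e)) (u 2 27 (k v (k v (k v (k v (k v (k v (k v (k (c 3 4090 v r) (k (t 6 2 (u 4 0 (k (u 8 2 (k v (k (c 3 4090 v (u 16 1 (k v (k v r)))) r))) r))) (k (t 6 1 (u 4 0 (k (c 12 4099 r (u 8 2 (k v (k (c 3 4090 v (u 16 1 (k v (k v r)))) r)))) r))) r)))))))))))
 (.s 0x3957f805d108 4089 (n false (z 120) (n false (n true (n false (n false e e) (n false e e)) e) (n false e e))) (u 2 5 (k v (k (t 6 2 r) (k (c 6 4100 r (u 4 1 (k v (k (c 12 4097 r (u 8 0 (k v (k v r)))) r)))) (k (t 6 2 r) (k (t 6 1 r) (k (t 4 1 r) (k (t 6 1 r) (k (c 3 4090 v (t 6 1 r)) (k (c 6 4096 r (u 4 0 (k (u 8 0 (k v (k v r))) r))) (k (t 6 1 (u 4 0 (k (c 3 4090 v r) r))) (k (c 3 4090 v (t 6 1 r)) (k (t 4 1 r) (k (t 6 1 r) (k (t 6 1 r) (k (t 6 2 r) (k (t 4 1 r) (k (t 6 1 r) r))))))))))))))))))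
 (.s 0x39555400ba20 4082 (n false (z 128) (n false (n true (n false (n false e e) (n false e e)) e) e)) (u 2 3 (k v (k v (k (c 6 4097 r r) (k (t 6 2 (u 4 0 (k (t 12 2 (u 8 0 (k (c 24 4099 r (u 16 2 (k v (k (c 8 4084 (u 4 1 (k v (k v r))) v) r)))) r))) r))) (k (c 4 4096 r r) (k (c 4 4095 r r) (k (c 4 4095 r (u 6 0 (k v (k v r)))) (k (c 6 4095 r (u 4 1 (k v (k v r)))) (k (c 4 4095 r r) (k (c 4 4095 r (u 6 1 (k v (k v r)))) (k (c 4 4097 r r) r))))))))))))
 (.s 0x7fcfbec0050 4090 (n false (n true (n true (n true (z 91) e) e) e) (n false (n false e e) e)) (u 16 6 (k v (k v (k (u 32 1 (k v (k v r))) (k (c 32 4097 r (u 48 0 (k v (k v r)))) (k (c 32 4097 r (u 48 0 (k v (k v r)))) r))))))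
 (.s 0x7fcebfc0050 4089 (n false (n true (n true (n true (z 121) e) e) e) (n false (n false e e) e)) (u 16 4 (k v (k v (k (c 48 4099 r (u 32 1 (k v (k v r)))) (k (c 32 4097 r (u 48 1 (k v (k v r)))) r)))))
 .z .z) (.s 0x39555400ae10 4085 (n false (z 128) (n false (n false (n true (n false e e) e) (n false e e)) e)) (u 2 1 (k v (k (c 6 4097 r r) (k (c 6 4099 r r) (k (c 6 4099 r r) (k (c 4 4096 r r) (k (c 6 4097 r r) (k (c 4 4095 r r) (k (c 4 4095 r (u 6 0 (k v (k v r)))) (k (c 4 4099 r r) (k (c 6 4097 r (u 4 1 (k v (k v r)))) (k (c 4 4098 r r) (k (c 4 4099 r r) (k (c 6 4095 r (u 4 1 (k v (k v r)))) (k (c 4 4097 r (u 6 0 (k v (k v r)))) (k (c 4 4095 r r) (k (c 4 4099 r r) (k (c 4 4095 r (u 6 1 (k v (k v r)))) (k (c 4 4097 r r) r)))))))))))))))))))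
 .z .z)) (.s 0x3955f8075110 4087 (n false (z 112) (n true (n false (n false (n false e e) (n false e e)) (n false e e)) e)) (u 2 1 (k (c 6 4099 r (u 4 1 (k v (k (t 12 2 (u 8 11 (k v (k v (k (c 2 4085 (t 12 1 (u 8 0 (k r r))) v) r))))) (k (c 2 4076 (u 4 0 (k r r)) v) r))))) (k (c 3 4090 v r) r)))
 (.s 0x39555400ee10 4085 (n false (z 128) (n true (n false (n true (n false e e) e) (n false e e)) e)) (u 2 1 (k v (k (c 4 4097 r r) (k (c 6 4099 r r) (k (c 6 4099 r r) (k (c 4 4096 r r) (k (c 6 4097 r r) (k (c 4 4095 r r) (k (c 4 4095 r (u 6 0 (k v (k v r)))) (k (c 4 4099 r r) (k (c 6 4097 r (u 4 1 (k v (k v r)))) (k (c 4 4098 r r) (k (c 4 4099 r r) (k (c 6 4095 r (u 4 1 (k v (k v r)))) (k (c 4 4097 r (u 6 0 (k v (k v r)))) (k (c 4 4095 r r) (k (c 4 4099 r r) (k (c 4 4095 r (u 6 1 (k v (k v r)))) (k (c 4 4097 r r) r)))))))))))))))))))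
 .z .z) (.s 0x3957d400ee10 4079 (n false (z 152) (n true (n false (n true (n false e e) e) (n false e e)) e)) (u 2 0 (k (t 6 1 r) (k (t 6 1 r) (k (t 4 2 r) (k (t 4 1 r) r)))))
 .z .z))) (.s 0x395df005dc20 4074 (n false (n false (n true (n false (n true (n false e e) e) (n false e e)) e) e) (z 52)) (u 3 39 (k v (k v (k v (k v (k (t 7 1 (u 5 0 (k v (k v r)))) r))))))
 (.s 0x395d7805d108 4082 (n false (z 100) (n false (n true (n false (n false e e) (n false e e)) e) (n false e e))) (u 2 0 (k (t 6 1 r) (k (t 6 1 r) (k (t 6 1 r) (k (t 6 1 (c 3 4090 v r)) (k (t 6 1 r) (k (t 6 1 r) r)))))))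
 (.s 0x3957f8077d00 4087 (n false (z 120) (n true (n false (n true (n true (n false (n false e e) e) e) e) e) e)) (u 2 32 (k v (k v (k v (k (t 6 1 r) (k (c 6 4096 r (c 17 4093 v r)) (k (c 6 4099 r (u 4 1 (k v (k v r)))) (k (c 4 4098 r (u 6 1 (k v (k v r)))) (k (c 4 4101 r (u 6 0 (k v (k v r)))) (k (t 6 1 (u 4 10 (k v (k v (k (c 12 4097 r (u 8 1 (k v (k v r)))) (k (c 12 4097 r (u 8 1 (k v (k v r)))) r)))))) (k (c 6 4099 r (u 4 1 (k v (k v r)))) (k (c 4 4101 r (u 6 0 (k v (k v r)))) r))))))))))))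
 .z .z) (.s 0x395df005d070 4070 (n false (n false (n true (n false (n false e e) e) e) (n true (n false e e) e)) (z 52)) (u 3 149 (k v (k v (k v (k v (k v (k v (k (t 7 1 (u 5 0 (k v (k v r)))) (k (t 7 2 (u 5 0 (k (u 9 2 (k v (k (u 17 2 (k v (k v r))) r))) r))) (k (t 7 1 (u 5 0 (k (c 13 4099 r (u 9 2 (k v (k (u 17 2 (k v (k v r))) r)))) r))) r))))))))))
 .z .z)) (.s 0x395df007dc20 4084 (n false (n true (n true (n false (n true (n false e e) e) (n false e e)) e) e) (z 52)) (u 3 10 (k v (k v (k v (k v (k v (k (t 7 1 (u 5 0 (k v (k v r)))) r)))))))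
 (.s 0x395df0075c20 4084 (n false (n true (n false (n false (n true (n false e e) e) (n false e e)) e) e) (z 52)) (u 3 8 (k v (k v (k v (k v (k v (k (t 7 1 (u 5 0 (k v (k v r)))) r)))))))
 .z .z) .z))) (.s 0x3977d807dc20 4088 (n false (z 90) (n true (n true (n false (n true (n false e e) e) (n false e e)) e) e)) (u 2 11 (k v (k v (k r (k r (k r (k (c 4 4097 r (u 6 0 (k (u 10 0 (k v (k v r))) r))) r)))))))
 (.s 0x39775400ee10 4085 (n false (z 138) (n true (n false (n true (n false e e) e) (n false e e)) e)) (u 2 0 (k (t 6 6 (u 4 4 (k v (k (u 8 1 (k v (k (c 24 4099 r (u 16 1 (k v (k v r)))) (k (u 16 0 (k v (k v r))) (k (c 16 4099 r (u 24 1 (k v (k v r)))) (k (c 16 4099 r (u 24 1 (k v (k v r)))) (k (c 16 4099 r (u 24 1 (k v (k v r)))) r))))))) (k (c 8 4100 r (u 12 0 (k (u 20 0 (k v (k v r))) r))) r))))) r))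
 (.s 0x395fd400ee10 4089 (n false (z 156) (n true (n false (n true (n false e e) e) (n false e e)) e)) (u 2 1 (k v (k (c 6 4099 r (u 4 1 (k v (k v r)))) (k (c 4 4098 r (u 6 1 (k v (k v r)))) (k (c 4 4097 r (u 6 1 (k v (k v r)))) (k (c 4 4099 r (u 6 1 (k v (k v r)))) (k (c 4 4095 r (u 6 0 (k v (k v r)))) r)))))))
 (.s 0x395fd400ba20 4088 (n false (z 156) (n false (n true (n false (n false e e) (n false e e)) e) e)) (u 2 40 (k v (k v (k (c 6 4099 r (u 4 1 (k v (k v r)))) r))))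
 .z .z) (.s 0x3975d400ee10 4084 (n false (z 146) (n true (n false (n true (n false e e) e) (n false e e)) e)) (u 2 0 (k (t 6 1 (u 4 19 (k v (k v (k v r))))) (k (t 4 2 (u 6 19 (k v (k v (k v r))))) (k (t 4 1 (u 6 19 (k v (k v (k v r))))) r))))
 .z .z)) (.s 0x3977d8075c20 4087 (n false (z 90) (n true (n false (n false (n true (n false e e) e) (n false e e)) e) e)) (u 2 11 (k v (k v (k r (k r (k r (k (c 4 4097 r (u 6 0 (k (u 10 0 (k v (k v r))) r))) r)))))))
 (.s 0x3977d005d108 4088 (n false (z 26) (n false (n true (n false (n false e e) (n false e e)) e) (n false e e))) (u 2 4 (k v (k (c 3 4090 v (u 4 1 (k v (k v r)))) r)))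
 .z .z) .z)) (.s 0x39d7d805d108 4088 (n false (z 89) (n false (n true (n false (n false e e) (n false e e)) e) (n false e e))) (u 2 29 (k v (k v (k v (k v (k (t 6 3 (u 4 26 (k v (k v (k v r))))) (k (t 6 2 r) (k (c 3 4090 v (t 4 1 r)) r))))))))
 (.s 0x39d5d400ee10 4083 (n false (z 145) (n true (n false (n true (n false e e) e) (n false e e)) e)) (u 2 3 (k v (k v (k (u 6 4 (k r (k (t 4 1 v) r))) (k (c 5 4092 v r) (k r (k (c 5 4092 v (t 4 2 (u 6 0 (k r r)))) (k (c 5 4092 v r) (k (c 5 4092 v r) (k (c 5 4092 v r) (k r (k (c 5 4092 v r) (k (c 5 4092 v r) (k (c 5 4092 v r) (k (c 5 4092 v r) r)))))))))))))))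
 (.s 0x397ff805d108 4087 (n false (z 126) (n false (n true (n false (n false e e) (n false e e)) e) (n false e e))) (u 2 1 (k v (k (t 6 1 (u 4 1 (k v (k (c 12 4099 r (u 8 1 (k v (k v r)))) (k (c 8 4097 r (c 3 4090 v r)) (k (c 8 4095 r (c 3 4090 v r)) (k (c 8 4095 r (c 3 4090 v r)) r))))))) (k (c 3 4090 v (t 6 1 r)) r))))
 .z .z) (.s 0x39d7d400ee10 4079 (n false (z 153) (n true (n false (n true (n false e e) e) (n false e e)) e)) (u 2 0 (k (t 4 1 r) (k (t 6 1 r) (k (t 4 1 r) (k (t 4 2 r) (k (t 4 1 r) (k (t 4 1 r) r)))))))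
 .z .z)) (.s 0x39d7d807dc20 4086 (n false (z 89) (n true (n true (n false (n true (n false e e) e) (n false e e)) e) e)) (u 2 0 (k v (k v (k v (k (t 6 2 r) r)))))
 (.s 0x39d7d8075110 4089 (n false (z 89) (n true (n false (n false (n false e e) (n false e e)) (n false e e)) e)) (u 2 11 (k v (k r (k r (k (c 6 4099 r r) (k (c 2 4097 r v) (k (t 6 3 (u 4 0 (k v (k v r)))) (k (c 3 4090 v (t 4 1 r)) (k (c 3 4090 v (t 6 2 r)) r)))))))))
 .z .z) .z))))

set_option maxRecDepth 100000 in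
def N39 : NT :=
(.s 0x39fd5400ee10 4085 (n false (z 135) (n true (n false (n true (n false e e) e) (n false e e)) e)) (u 2 0 (k (t 6 2 r) (k (t 4 2 r) (k (t 4 2 r) r))))
 (.s 0x39f558077500 4087 (n false (n true (n false (n true (n false (n false (n false e e) e) e) e) e) e) (z 67)) (u 3 32 (k v (k v (k v (k v (k (t 7 1 (u 5 1 (k v (k v r)))) (k (c 5 4101 r (u 7 0 (k v (k v r)))) (k r (k (c 2 4090 v r) (k (c 2 4090 v (t 7 2 (u 5 0 (k r r)))) (k (c 7 4101 r (u 5 1 (k v (k v r)))) (k (t 7 1 (u 5 10 (k v (k v (k v (k (c 13 4099 r (u 9 1 (k v (k v r)))) r)))))) (k (c 7 4102 r (u 5 1 (k v (k v r)))) (k (c 5 4101 r (u 7 1 (k v (k v r)))) (k (t 7 1 (u 5 3 (k v (k v (k (c 13 4099 r (u 9 1 (k v (k v r)))) r))))) (k (c 5 4101 r (u 7 1 (k v (k v r)))) r))))))))))))))))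
 (.s 0x39df5400ee10 4083 (n false (z 141) (n true (n false (n true (n false e e) e) (n false e e)) e)) (u 2 3 (k (t 6 2 r) (k (c 5 4092 v (t 6 1 (u 4 0 (k r r)))) (k (t 6 2 (u 4 0 (k (c 12 4097 r (c 5 4092 v r)) r))) (k (c 5 4092 v r) r)))))
 (.s 0x39dd5400ee10 4078 (n false (z 133) (n true (n false (n true (n false e e) e) (n false e e)) e)) (u 2 0 (k (t 6 1 r) (k (t 6 1 r) (k (t 6 1 r) (k (t 6 1 r) (k (t 4 2 r) (k (t 6 1 r) (k (t 4 2 r) (k (t 4 1 r) r)))))))))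
 (.s 0x39dd5400ae10 4082 (n false (z 133) (n false (n false (n true (n false e e) e) (n false e e)) e)) (u 2 0 (k (t 6 1 r) (k (t 6 1 r) (k (t 6 1 r) (k (t 6 1 r) (k (t 4 2 r) (k (t 6 1 r) (k (t 4 2 r) (k (t 4 1 r) r)))))))))
 .z .z) (.s 0x39ddf005d108 4087 (n false (z 53) (n false (n true (n false (n false e e) (n false e e)) e) (n false e e))) (u 2 0 (k (t 6 1 r) (k (t 6 1 r) r)))
 .z .z)) (.s 0x39dfd400a888 4088 (n false (z 157) (n false (n false (n false e e) (n false e e)) (n false e e))) (u 2 3 (k r (k r (k (t 6 2 r) (k r r)))))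
 (.s 0x39df7005d108 4087 (n false (n false (n true (n false (n false e e) (n false e e)) e) (n false e e)) (z 45)) (u 3 1 (k v (k (t 7 1 (u 5 1 (k v (k v r)))) (k (t 7 2 r) r))))
 .z .z) (.s 0x39f55805d108 4088 (n false (z 67) (n false (n true (n false (n false e e) (n false e e)) e) (n false e e))) (u 2 12 (k v (k v (k (t 6 2 r) (k (t 6 1 r) (k (t 6 2 r) (k (c 3 4090 v r) (k (t 6 1 r) (k (t 6 2 r) (k (t 4 2 r) (k (c 3 4090 v (t 6 2 (u 4 0 (k r r)))) (k (t 4 1 r) (k (t 6 2 r) (k (c 3 4090 v (t 4 1 (u 6 0 (k r r)))) (k (t 6 2 (c 3 4090 v r)) (k (t 6 2 r) (k (t 6 1 r) (k (t 6 2 r) (k (t 6 2 r) (k (t 6 1 r) r))))))))))))))))))))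
 .z .z))) (.s 0x39f77007dc20 4087 (n false (n true (n true (n false (n true (n false e e) e) (n false e e)) e) e) (z 43)) (u 3 3 (k v (k v (k v (k (u 5 1 (k v (k v r))) (k r (k (u 5 0 (k (u 9 0 (k v (k v r))) r)) (k r (k r r)))))))))
 (.s 0x39f75400ae10 4088 (n false (z 139) (n false (n false (n true (n false e e) e) (n false e e)) e)) (u 2 3 (k v (k (c 6 4099 r (u 4 0 (k (t 12 2 (u 8 0 (k (c 24 4099 r (u 16 0 (k v (k (u 32 1 (k v (k v r))) (k (c 48 4099 r (u 32 0 (k (u 64 3 (k v (k v (k v r)))) r))) (k r (k (c 2 4069 r v) (k (u 32 0 (k (u 64 0 (k v (k v r))) r)) (k r (k (u 32 2 (k v (k (c 96 4099 r (u 64 1 (k v (k v r)))) (k (c 64 4095 r (u 96 0 (k v (k v r)))) r)))) r)))))))))) r))) r))) r)))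
 (.s 0x39f558077d00 4085 (n false (n true (n false (n true (n true (n false (n false e e) e) e) e) e) e) (z 67)) (u 3 17 (k v (k v (k v (k v (k (t 7 1 (u 5 1 (k v (k v r)))) (k (c 5 4101 r (u 7 0 (k v (k v r)))) (k r (k (c 2 4090 v r) (k (c 5 4099 r (u 7 0 (k v (k v r)))) (k (t 7 1 (u 5 2 (k v (k (c 13 4097 r (u 9 0 (k v (k v r)))) r)))) (k (c 2 4090 v (t 7 2 (u 5 0 (k r r)))) (k (c 7 4101 r (u 5 1 (k v (k v r)))) (k (t 7 1 r) (k (c 7 4102 r (u 5 1 (k v (k v r)))) (k (c 5 4101 r (u 7 1 (k v (k v r)))) (k (t 7 1 r) (k (c 5 4101 r (u 7 1 (k v (k v r)))) r))))))))))))))))))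
 .z .z) (.s 0x39f770075c20 4087 (n false (n true (n false (n false (n true (n false e e) e) (n false e e)) e) e) (z 43)) (u 3 4 (k v (k v (k v (k r (k (u 5 1 (k v (k v r))) (k (u 5 0 (k (u 9 0 (k v (k v r))) r)) (k r (k r r)))))))))
 .z .z)) (.s 0x39f7f807dc20 4086 (n false (z 123) (n true (n true (n false (n true (n false e e) e) (n false e e)) e) e)) (u 2 32 (k v (k v (k v (k r (k r (k (t 6 1 r) (k r r))))))))
 (.s 0x39f7f8075c20 4085 (n false (z 123) (n true (n false (n false (n true (n false e e) e) (n false e e)) e) e)) (u 2 13 (k v (k v (k (t 6 1 r) (k r (k (u 4 10 (k v (k (c 8 4097 r r) (k (c 12 4097 r r) (k (c 12 4097 r r) r))))) (k r (k r (k (t 4 2 (u 6 2 (k v (k v r)))) r)))))))))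
 .z .z) .z))) (.s 0x3a557c011d10 4082 (n false (n false (z 48) (n false e e)) (n true (n false (n false e e) (n false e e)) e)) (u 4 18 (k v (k v (k (u 8 4 (k v (k (t 24 1 (u 16 2 (k v (k v r)))) r))) (k (u 8 4 (k v (k (t 24 1 (u 16 2 (k v (k v r)))) r))) (k r (k r r)))))))
 (.s 0x39fdf807dc20 4088 (n false (z 119) (n true (n true (n false (n true (n false e e) e) (n false e e)) e) e)) (u 2 4 (k v (k v (k (c 4 4097 r (u 6 1 (k v (k v r)))) (k (c 4 4097 r r) (k (c 4 4097 r r) (k (c 6 4096 r (u 4 0 (k (u 8 0 (k v (k v r))) r))) (k (c 6 4097 r r) (k (c 6 4097 r r) (k (c 6 4097 r r) (k (c 6 4097 r r) (k (c 6 4097 r r) (k (c 6 4097 r r) r)))))))))))))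
 (.s 0x39fdf805d108 4082 (n false (z 119) (n false (n true (n false (n false e e) (n false e e)) e) (n false e e))) (u 2 1 (k r (k (t 6 2 r) (k (t 6 1 r) (k r (k r (k (u 6 1 (k r (k (c 14 4097 r (u 10 0 (k r (k r r)))) r))) (k (c 3 4090 v (t 6 2 (u 4 0 (k r r)))) (k r (k r (k r (k r (k r (k r r))))))))))))))
 (.s 0x39fd7805d108 4088 (n false (z 103) (n false (n true (n false (n false e e) (n false e e)) e) (n false e e))) (u 2 11 (k v (k r (k r (k (t 4 1 r) r)))))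
 .z .z) (.s 0x39fdf8075c20 4088 (n false (z 119) (n true (n false (n false (n true (n false e e) e) (n false e e)) e) e)) (u 2 4 (k v (k v (k (c 4 4097 r (u 6 1 (k v (k v r)))) (k (c 4 4097 r r) (k (c 4 4097 r (u 6 2 (k v (k (c 14 4097 r (u 10 0 (k v (k v r)))) r)))) (k (c 6 4096 r (u 4 0 (k (u 8 0 (k v (k v r))) r))) (k (c 6 4097 r r) (k (c 6 4097 r r) (k (c 6 4097 r r) (k (c 6 4097 r r) (k (c 6 4097 r r) (k (c 6 4097 r r) r)))))))))))))
 .z .z)) (.s 0x3a557c011708 4085 (n false (n false (z 48) (n false e e)) (n false (n true (n false e e) e) (n false e e))) (u 4 14 (k v (k (c 12 4099 r (t 8 3 v)) (k (u 8 4 (k v (k (t 24 1 (u 16 4 (k v (k v r)))) r))) (k (u 8 4 (k v (k (t 24 1 (u 16 4 (k v (k v r)))) r))) (k r (k r r)))))))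
 (.s 0x3a5555003a08 4075 (n false (n false (z 128) (n true (n false (n false e e) e) e)) (n false e e)) (u 4 5 (k v (k (c 12 4097 r r) (k (c 12 4099 r (u 8 5 (k v (k v r)))) (k r (k (c 8 4096 r r) (k (c 12 4097 r (u 8 5 (k v (k v r)))) (k (c 12 4097 r (u 8 5 (k v (k v r)))) (k (c 8 4095 r (u 12 0 (k v (k v r)))) (k (c 8 4099 r r) (k (c 12 4097 r (u 8 1 (k v (k v r)))) (k (c 8 4098 r r) (k (c 8 4099 r (u 12 5 (k v (k v r)))) (k (c 12 4095 r (u 8 1 (k v (k v r)))) (k (c 8 4097 r (u 12 0 (k v (k v r)))) (k (c 8 4095 r r) (k (c 8 4099 r r) (k (c 8 4095 r (u 12 1 (k v (k v r)))) (k (c 8 4097 r r) r)))))))))))))))))))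
 .z .z) .z)) (.s 0x3a5775001d10 4085 (n false (n false (z 148) e) (n true (n false (n false e e) (n false e e)) e)) (c 3 4092 v (u 4 7 (k v (k r (k (t 12 1 r) (k r (k (t 12 2 r) (k (t 12 2 r) (k r (k r r))))))))))
 (.s 0x3a55fc01dc20 4080 (n false (n false (z 56) (n true (n false (n true (n false e e) e) (n false e e)) e)) e) (u 4 1 (k (u 8 1 (k v (k v r))) (k (u 8 105 (k v (k v (k v (k v (k v (k v (k v (k v (k (c 4 4087 (t 6 2 r) v) (k (c 4 4087 (t 6 1 r) v) r))))))))))) (k (c 8 4096 r (u 12 0 (k v (k v r)))) (k (c 12 4096 r r) r)))))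
 (.s 0x3a557e011708 4084 (n false (n false (z 112) (n false e e)) (n false (n true (n false e e) e) (n false e e))) (u 4 3 (k v (k (c 12 4099 r (u 8 4 (k v (k v r)))) r)))
 .z .z) (.s 0x3a55fe011d10 4079 (n false (n false (z 120) (n false e e)) (n true (n false (n false e e) (n false e e)) e)) (u 4 13 (k v (k (c 12 4099 r r) (k (c 12 4099 r r) (k (c 8 4095 r (u 12 1 (k v (k v r)))) (k (c 12 4097 r r) (k (c 12 4096 r r) (k (c 12 4096 r (u 8 0 (k (u 16 0 (k v (k v r))) r))) (k (c 12 4100 r (u 8 0 (k (u 16 0 (k v (k v r))) r))) (k (c 12 4101 r r) (k (c 8 4099 r r) (k (c 12 4100 r r) (k (c 12 4097 r r) (k (c 12 4099 r r) (k (c 8 4099 r r) (k (c 12 4097 r r) r))))))))))))))))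
 .z .z)) (.s 0x3a577c00ee10 4084 (n false (n false (z 52) e) (n true (n false (n true (n false e e) e) (n false e e)) e)) (u 4 10 (k v (k v (k v (k v (k v (k (t 12 1 (u 8 0 (k v (k v r)))) r)))))))
 (.s 0x3a577c00ae10 4084 (n false (n false (z 52) e) (n false (n false (n true (n false e e) e) (n false e e)) e)) (u 4 8 (k v (k v (k v (k v (k v (k (t 12 1 (u 8 0 (k v (k v r)))) r)))))))
 .z .z) .z))))

set_option maxRecDepth 100000 in
def N40 : NT :=
(.s 0x3a5fdc015c20 4080 (n false (n false (z 46) (n false (n false (n true (n false e e) e) (n false e e)) e)) e) (u 4 0 (k v (k (u 8 1 (k v (k v r))) (k (u 8 1 (k v (k v r))) (k (c 12 4099 r (u 8 0 (k v (k v r)))) (k (c 12 4097 r (u 8 1 (k v (k v r)))) (k (c 8 4095 r (u 12 1 (k v (k v r)))) r)))))))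
 (.s 0x3a57fe011708 4080 (n false (n false (z 124) (n false e e)) (n false (n true (n false e e) e) (n false e e))) (u 4 1 (k v (k (c 12 4097 r (u 8 1 (k v (k v r)))) (k (c 12 4096 r (u 8 1 (k v (k v r)))) (k (c 8 4098 r (u 12 0 (k v (k v r)))) (k (c 12 4096 r (u 8 1 (k v (k v r)))) (k (c 12 4097 r (u 8 1 (k v (k v r)))) (k (c 12 4097 r (u 8 1 (k v (k v r)))) (k (c 12 4096 r (u 8 1 (k v (k v r)))) (k (c 12 4099 r (u 8 1 (k v (k v r)))) (k (c 8 4097 r (u 12 1 (k v (k v r)))) r)))))))))))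
 (.s 0x3a57de00ae10 4088 (n false (n false (z 108) e) (n false (n false (n true (n false e e) e) (n false e e)) e)) (u 4 0 (k (t 12 2 (u 8 0 (k (c 24 4099 r (u 16 0 (k v (k (u 32 2 (k v (k v r))) (k (c 48 4099 r (u 32 0 (k (u 64 0 (k v (k v r))) r))) (k (u 32 9 (k v (k v (k (u 64 1 (k v (k v r))) r)))) (k (c 2 4069 r v) (k (u 32 0 (k (u 64 0 (k v (k v r))) r)) (k (u 32 41 (k v (k v (k v (k v r))))) (k (u 32 2 (k v (k (c 96 4099 r (u 64 1 (k v (k v r)))) (k (c 64 4095 r (u 96 0 (k v (k v r)))) r)))) r)))))))))) r))) r))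
 (.s 0x3a577c011d10 4078 (n false (n false (z 52) (n false e e)) (n true (n false (n false e e) (n false e e)) e)) (u 4 43 (k v (k v (k v (k v (k (t 12 1 (u 8 0 (k v (k v r)))) r))))))
 (.s 0x3a577c00fe80 4084 (n false (n true (n true (n true (n false (n false e e) e) e) e) e) (n false (z 52) e)) (u 5 10 (k v (k v (k v (k v (k v (k (t 13 1 (u 9 0 (k v (k v r)))) r)))))))
 .z .z) (.s 0x3a577c011f40 4084 (n false (n false (z 52) (n false e e)) (n true (n true (n false (n false e e) e) e) e)) (u 4 25 (k v (k v (k v (k (t 12 1 (u 8 3 (k v (k v r)))) r)))))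
 .z .z)) (.s 0x3a57f5001708 4077 (n false (n false (z 156) e) (n false (n true (n false e e) e) (n false e e))) (u 4 1 (k v (k (c 12 4099 r (u 8 1 (k v (k v r)))) (k (c 8 4098 r (u 12 1 (k v (k v r)))) (k (c 8 4097 r (u 12 1 (k v (k v r)))) (k (c 8 4099 r (u 12 1 (k v (k v r)))) (k (c 8 4095 r (c 3 4092 v r)) r)))))))
 (.s 0x3a57de00ee10 4087 (n false (n false (z 108) e) (n true (n false (n true (n false e e) e) (n false e e)) e)) (u 4 0 (k (t 12 2 (u 8 0 (k (c 24 4099 r (u 16 0 (k v (k (u 32 1 (k v (k v r))) (k (c 48 4099 r (u 32 0 (k (u 64 0 (k v (k v r))) r))) (k r (k (c 2 4069 r v) (k (u 32 0 (k (u 64 0 (k v (k v r))) r)) (k r (k (u 32 2 (k v (k (c 96 4099 r (u 64 1 (k v (k v r)))) (k (c 64 4095 r (u 96 0 (k v (k v r)))) r)))) r)))))))))) r))) r))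
 .z .z) (.s 0x3a57f5003850 4071 (n false (n false (z 156) (n true (n false e e) e)) (n false (n false e e) e)) (u 4 1 (k v (k (c 12 4099 r (u 8 1 (k v (k v r)))) (k (c 8 4098 r (u 12 1 (k v (k v r)))) (k (c 8 4097 r (u 12 1 (k v (k v r)))) (k (c 8 4099 r (u 12 1 (k v (k v r)))) (k (c 8 4095 r (u 12 0 (k v (k v r)))) r)))))))
 .z .z))) (.s 0x3a5ddc011d10 4078 (n false (n false (z 42) (n false e e)) (n true (n false (n false e e) (n false e e)) e)) (u 4 36 (k v (k v (k (u 8 2 (k v (k v r))) (k r (k (u 8 25 (k v (k v (k v (k (c 16 4097 r (u 24 1 (k v (k v r)))) r))))) (k r r)))))))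
 (.s 0x3a5d7c011708 4078 (n false (n false (z 50) (n false e e)) (n false (n true (n false e e) e) (n false e e))) (u 4 1 (k v (k (c 12 4097 r (u 8 0 (k v (k v r)))) r)))
 (.s 0x3a57fe01dc20 4080 (n false (n false (z 124) (n true (n false (n true (n false e e) e) (n false e e)) e)) e) (u 4 1 (k v (k (c 12 4097 r (u 8 1 (k v (k v r)))) (k (c 12 4096 r (u 8 1 (k v (k v r)))) (k (c 8 4098 r (u 12 0 (k v (k v r)))) (k (c 12 4096 r (u 8 1 (k v (k v r)))) (k (c 12 4097 r (u 8 1 (k v (k v r)))) (k (c 12 4097 r (u 8 1 (k v (k v r)))) (k (c 12 4096 r (u 8 1 (k v (k v r)))) (k (c 12 4099 r (u 8 1 (k v (k v r)))) (k (c 8 4097 r (u 12 1 (k v (k v r)))) r)))))))))))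
 .z .z) (.s 0x3a5ddc011510 4079 (n false (n false (z 42) (n false e e)) (n false (n false (n false e e) (n false e e)) e)) (u 4 30 (k v (k v (k v (k (u 8 2 (k v (k v r))) (k (u 8 25 (k v (k v (k v (k (c 16 4097 r (u 24 1 (k v (k v r)))) r))))) (k (u 8 8 (k v (k v (k (c 24 4099 r (u 16 1 (k v (k v r)))) (k (c 16 4098 r (u 24 1 (k v (k v r)))) (k (c 16 4097 r (u 24 1 (k v (k v r)))) (k (c 16 4099 r (u 24 1 (k v (k v r)))) r))))))) r)))))))
 .z .z)) (.s 0x3a5fdc011708 4080 (n false (n false (z 46) (n false e e)) (n false (n true (n false e e) e) (n false e e))) (u 4 1 (k v (k (u 8 1 (k v (k v r))) (k (c 12 4099 r (u 8 0 (k v (k v r)))) (k (u 8 1 (k v (k v r))) (k (c 12 4097 r (u 8 1 (k v (k v r)))) (k (c 8 4095 r (u 12 1 (k v (k v r)))) r)))))))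
 (.s 0x3a5ddc011f40 4080 (n false (n false (z 42) (n false e e)) (n true (n true (n false (n false e e) e) e) e)) (u 4 52 (k v (k v (k (t 12 1 (u 8 0 (k (u 16 2 (k v (k (c 8 4084 (u 4 1 (k v (k v r))) v) r))) r))) (k (u 8 52 (k v (k v (k v (k (u 16 30 (k v (k v (k v (k v r))))) r))))) (k (u 8 49 (k v (k v (k v (k v r))))) (k (u 8 25 (k v (k v (k v (k (c 24 4099 r (u 16 1 (k v (k v r)))) (k (c 16 4099 r (u 24 1 (k v (k v r)))) r)))))) r)))))))
 .z .z) .z))) (.s 0x3a75fe011d10 4089 (n false (n false (z 121) (n false e e)) (n true (n false (n false e e) (n false e e)) e)) (u 4 20 (k v (k v (k (c 4 4092 r v) (k (c 8 4099 r (c 4 4092 r v)) r)))))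
 (.s 0x3a75f600ee10 4087 (n false (n false (z 89) e) (n true (n false (n true (n false e e) e) (n false e e)) e)) (u 4 0 (k v (k v (k v (k (t 12 2 r) r)))))
 (.s 0x3a5ffe00ba20 4089 (n false (n false (z 126) e) (n false (n true (n false (n false e e) (n false e e)) e) e)) (u 4 3 (k v (k (t 12 1 (u 8 20 (k v (k v (k (c 8 4092 r v) (k (c 16 4099 r (c 8 4092 r v)) r)))))) (k (c 2 4091 (t 6 1 r) v) r))))
 (.s 0x3a5fdc01dc20 4080 (n false (n false (z 46) (n true (n false (n true (n false e e) e) (n false e e)) e)) e) (u 4 0 (k v (k (u 8 1 (k v (k v r))) (k (u 8 1 (k v (k v r))) (k (c 12 4099 r (u 8 0 (k v (k v r)))) (k (c 12 4097 r (u 8 1 (k v (k v r)))) (k (c 8 4095 r (u 12 1 (k v (k v r)))) r)))))))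
 .z .z) (.s 0x3a75f600ae10 4087 (n false (n false (z 89) e) (n false (n false (n true (n false e e) e) (n false e e)) e)) (u 4 0 (k v (k v (k v (k (t 12 2 r) r)))))
 .z .z)) (.s 0x3a75fe011708 4082 (n false (n false (z 121) (n false e e)) (n false (n true (n false e e) e) (n false e e))) (u 4 1 (k v (k (c 12 4099 r (u 8 1 (k v (k v r)))) (k (c 8 4097 r (u 12 1 (k v (k v r)))) (k (c 8 4095 r (c 3 4092 v r)) (k (c 8 4095 r (c 3 4092 v r)) r))))))
 (.s 0x3a75f6011d10 4076 (n false (n false (z 89) (n false e e)) (n true (n false (n false e e) (n false e e)) e)) (u 4 15 (k v (k v (k (c 12 4099 r (u 8 1 (k (u 16 1 (k v (k v r))) (k (u 16 288 (k v (k v (k v (k v (k v (k v (k v r)))))))) (k (c 16 4096 r (u 24 0 (k v (k v r)))) (k (c 24 4096 r r) r)))))) (k (c 12 4097 r r) r)))))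
 .z .z) .z)) (.s 0x3a775c01dc20 4082 (n false (n false (n true (n false (n true (n false e e) e) (n false e e)) e) (z 37)) e) (u 6 22 (k v (k (u 10 0 (k (t 18 3 (t 26 1 v)) r)) (k r (k (u 10 3 (k v (k v r))) (k (u 10 0 (k (t 18 3 (t 26 1 v)) r)) (k r r)))))))
 (.s 0x3a775c011708 4082 (n false (n false (z 37) (n false e e)) (n false (n true (n false e e) e) (n false e e))) (u 4 29 (k v (k (u 8 2 (k v (k v (k v (k (t 24 1 (u 16 0 (k (t 32 3 (t 48 1 v)) r))) r))))) (k (u 8 3 (k v (k v r))) (k (u 8 0 (k (t 16 3 (t 24 1 v)) r)) (k (u 8 0 (k (t 16 3 (t 24 1 v)) r)) (k (u 8 2 (k v (k v (k v (k (t 24 1 (u 16 0 (k (t 32 3 (t 48 1 v)) r))) r))))) r)))))))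
 (.s 0x3a75fe01dc20 4082 (n false (n false (z 121) (n true (n false (n true (n false e e) e) (n false e e)) e)) e) (u 4 1 (k v (k (c 12 4099 r (u 8 1 (k v (k v r)))) (k (c 8 4097 r (u 12 1 (k v (k v r)))) (k (c 8 4095 r (c 10 4092 v r)) (k (c 8 4095 r (c 10 4092 v r)) r))))))
 .z .z) (.s 0x3a775c011d10 4082 (n false (n false (z 37) (n false e e)) (n true (n false (n false e e) (n false e e)) e)) (u 4 0 (k v (k (u 8 0 (k (t 16 3 (t 24 1 v)) r)) (k (u 8 0 (k (t 16 3 (t 24 1 v)) r)) (k r (k (u 8 9 (k v (k v (k (t 24 1 (u 16 0 (k (t 32 3 (t 48 1 v)) r))) r)))) (k (u 8 3 (k v (k v r))) r)))))))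
 .z .z)) (.s 0x3a7776011708 4080 (n false (n false (z 85) (n false e e)) (n false (n true (n false e e) e) (n false e e))) (u 4 4 (k v (k (c 12 4099 r r) (k (c 12 4099 r (u 8 4 (k r (k r r)))) (k (c 12 4099 r (u 8 1 (k v (k v (k v (k (t 24 1 r) r)))))) (k (u 8 2 (k v (k v (k v (k (t 24 2 (u 16 6 (k v (k v (k (t 48 1 (u 32 0 (k v (k v r)))) r))))) r))))) (k (c 12 4096 r (u 8 4 (k r (k r r)))) (k (c 8 4099 r r) r))))))))
 (.s 0x3a77750023a0 4080 (n false (n false (z 149) (n false e e)) (n true (n false (n false e e) e) e)) (u 4 4 (k v (k (c 12 4099 r (u 8 19 (k v (k (c 24 4099 r (u 16 12 (k v (k v r)))) (k (c 16 4096 r (u 24 1 (k v (k v r)))) r))))) (k (c 8 4099 r (u 12 0 (k (u 20 0 (k v (k v r))) r))) (k (c 12 4102 r r) (k (c 12 4102 r r) (k (c 8 4101 r r) r)))))))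
 .z .z) .z))))

end Pool.Agent.Helper91.ND1
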