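import Pool.Agent.Helper66.ND.Defs

/-! part of the certificate for the constant 25/48 (generated) -/

namespace Pool.Agent.Helper91.ND1

open Pool.Agent.Helper66.IL
open Pool.Agent.Helper66.ND
open Pool.Agent.Helper66.ND.LT
open Pool.Agent.Helper66.ND.Ct

set_option maxRecDepth 100000 in
def N212 : NT :=
(.s 0x755114444ebec03f9d7f800 4097 (n false (n false (z 89) (n false (n false (n false (n false e e) (n false e e)) (n false (n false e e) (n false e e))) (n false e e))) (n true (n true (n true (z 121) e) e) e)) (c 10 4101 v (u 17 2 (k (u 4 57 (k v (k v (k v r)))) (k r (k (c 49 4099 r r) (k (c 33 4095 r r) (k (c 33 4095 r r) r)))))))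
 (.s 0x752bae00955500474bbb800 4086 (n false (n true (n false (z 42) e) e) (n false (n false (z 36) (z 0)) (n false e e))) (t 13 1 (u 9 0 (k (u 8 1 (k r (k (u 17 2 (k v (k (c 9 4084 (u 4 1 (k v (k v r))) v) r))) r))) r)))
 (.s 0x74faac02777601754451108 4090 (n false (n false (z 67) (z 85)) (n false (n true (n false (n false (n false (n false e e) (n false e e)) (n false (n false e e) (n false e e))) (n false e e)) e) (n false e e))) (t 4 1 (u 6 74 (k v (k v (k (c 14 4099 r r) (k (c 14 4099 r (c 9 4099 v (u 10 6 (k v (k (t 26 1 (u 18 40 (k v (k (c 50 4099 r (t 34 3 v)) r)))) r))))) (k (u 10 12 (k v (k v r))) (k (c 14 4101 r (u 10 0 (k (t 26 1 (u 18 0 (k (t 34 3 (t 50 3 v)) r))) r))) (k (c 10 4099 r r) r)))))))))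
 (.s 0x74eea80275f601d3afb00e0 4091 (n false (n true (n false (z 89) (n true (n false e e) e)) e) (n false (z 89) (z 5))) (c 7 4099 r (u 5 0 (k (u 8 19 (k v (k v (k v r)))) (k (u 8 19 (k v (k v (k v r)))) (k (c 12 4094 v r) (k r r))))))
 (.s 0x74eea8025fdc01f77085c20 4078 (n false (n false (z 46) (z 5)) (n true (n true (n false (n true (n false (n true (n false e e) e) (n false e e)) e) (n false (n true (n false e e) e) (n false e e))) e) e)) (t 6 1 (u 4 2 (k v (k (c 12 4099 r (u 8 0 (k v (k v r)))) (k r (k (c 3 4084 v (c 10 4101 v r)) (k (c 12 4097 r r) (k (c 8 4095 r r) r))))))))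
 .z .z) (.s 0x74faac0257fe01754451108 4090 (n false (n false (z 124) (z 67)) (n false (n true (n false (n false (n false (n false e e) (n false e e)) (n false (n false e e) (n false e e))) (n false e e)) e) (n false e e))) (t 6 1 (u 4 5 (k v (k (c 12 4097 r (u 8 1 (k v (k v r)))) (k (c 12 4096 r (u 8 1 (k v (k v r)))) (k (c 8 4098 r (u 12 0 (k v (k v r)))) (k (c 12 4096 r (u 8 1 (k v (k v r)))) (k (c 12 4097 r (u 8 1 (k v (k v r)))) (k (c 12 4097 r (u 8 1 (k v (k v r)))) (k (c 12 4096 r (u 8 1 (k v (k v r)))) (k (c 8 4097 r (u 12 1 (k v (k v r)))) r)))))))))))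
 .z .z)) (.s 0x74fefc027ddc01754451108 4090 (n false (n false (z 119) (z 43)) (n false (n true (n false (n false (n false (n false e e) (n false e e)) (n false (n false e e) (n false e e))) (n false e e)) e) (n false e e))) (t 6 1 (u 4 50 (k v (k v (k (c 12 4101 r r) (k (c 12 4096 r r) (k (c 12 4099 r r) (k (c 12 4097 r r) (k (c 12 4096 r (c 9 4099 v (c 6 4094 v (u 8 0 (k (u 16 0 (k v (k v r))) r))))) (k (c 8 4098 r r) (k (c 8 4101 r r) (k (c 8 4099 r r) (k (c 8 4101 r r) r)))))))))))))
 (.s 0x74faac02a2288baa2288870 4086 (n false (n false (z 67) (n false (n false (n false e e) (n false e e)) (n false (n false e e) (n false e e)))) (n false (n true (n false (n false (n false (n false e e) (n false e e)) (n false (n false e e) (n false e e))) (n false e e)) e) (n true (n false e e) e))) (u 4 104 (k v (k v (k v (k r (k (c 8 4101 r r) (k (c 12 4099 r r) (k (c 2 4087 r v) (k (c 8 4099 r r) (k (c 12 4099 r (u 8 2 (k v (k (c 24 4097 r (u 16 0 (k v (k v r)))) r)))) (k (c 12 4099 r (u 8 0 (k (u 16 0 (k v (k v r))) r))) (k (c 12 4101 r r) (k r (k (c 12 4102 r r) (k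 (c 8 4101 r r) (k (t 12 1 (u 8 3 (k v (k v (k (c 24 4099 r (u 16 1 (k v (k v r)))) r))))) (k (c 8 4101 r r) r)))))))))))))))))
 .z .z) .z)) (.s 0x753baa0097ff80754451108 4087 (n false (n false (n false (z 126) (z 5)) (n true (n false (n false (n false (n false e e) (n false e e)) (n false (n false e e) (n false e e))) (n false e e)) e)) (n false e e)) (t 12 1 (u 8 1 (k v (k r (k (t 24 1 (c 12 4099 v (u 16 31 (k v (k v (k v r)))))) r)))))
 (.s 0x752eef0095550070aa22888 4089 (n false (n false (n false (z 106) (z 0)) (n true (n false e e) e)) (n false (n false (n false (n false e e) (n false e e)) (n false (n false e e) (n false e e))) (n false e e))) (t 12 1 (u 8 2 (k v (k (t 24 3 r) (k (t 24 3 (c 4 4089 (u 4 0 (k (c 10 4099 v r) r)) v)) (k (c 16 4103 r (c 6 4094 v (u 24 0 (k (u 40 0 (k v (k v r))) r)))) (k (c 24 4110 r (c 3 4099 v (c 6 4094 v r))) (k (c 24 4099 r (c 6 4094 v r)) (k (c 16 4101 r r) (k (c 24 4103 r r) (k (c 24 4100 r (c 6 4094 v r)) (k (c 24 4099 r (c 6 4094 v r)) (k (c 24 4100 r (c 6 4094 v r)) r)))))))))))))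
 (.s 0x752bfa800aa22888a7d5600 4094 (n false (n false (n false (z 156) e) (n false (n false (n false (n false e e) (n false e e)) (n false (n false e e) (n false e e))) (n false e e))) (n false (z 67) e)) (c 10 4101 v (u 8 4 (k (t 5 2 v) (k (c 24 4099 r (u 5 95 (k r (k r (k (c 16 4099 r v) (k r (k (c 9 4101 r r) (k (c 8 4098 (u 2 0 (k v (k v r))) (c 3 4088 r v)) (k (c 9 4099 r r) (k (c 13 4101 r r) (k r (k (c 13 4102 r r) (k (c 9 4101 r r) (k (t 13 1 (u 9 4 (k (c 13 4099 v r) (k (c 25 4099 r r) r)))) (k (c 9 4101 r r) r))))))))))))))) r))))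
 .z .z) (.s 0x753baa0097f700544511708 4084 (n false (n false (n false (z 46) (z 5)) (n false (n false (n false e e) (n false e e)) (n false (n false e e) (n false e e)))) (n false (n true (n false e e) e) (n false e e))) (t 12 1 (u 8 21 (k v (k v (k (c 24 4099 r (u 16 0 (k v (k v r)))) (k (u 16 1 (k v (k v r))) (k (c 12 4099 v (u 16 25 (k v (k v (k v r))))) (k (c 24 4097 r (u 16 1 (k v (k v r)))) r))))))))
 .z .z)) (.s 0x753eef0095550070aa22888 4089 (n false (n false (n false (z 107) (z 0)) (n true (n false e e) e)) (n false (n false (n false (n false e e) (n false e e)) (n false (n false e e) (n false e e))) (n false e e))) (t 12 1 (c 6 4094 v (u 8 5 (k v (k (c 24 4099 r (u 16 1 (k v (k (c 48 4099 r (u 32 1 (k v (k v r)))) (k (u 32 0 (k v (k v r))) (k (c 32 4099 r (u 48 1 (k v (k v r)))) (k (c 32 4099 r (u 48 1 (k v (k v r)))) (k (c 32 4099 r (u 48 1 (k v (k v r)))) r)))))))) (k (c 24 4100 r (u 16 0 (k (u 32 0 (k v (k v r))) r))) r))))))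
 (.s 0x753bee009555004eeb803a0 4086 (n false (n false (n false (z 45) (z 0)) (z 37)) (n true (n false (n false e e) e) e)) (t 12 1 (u 6 0 (k (u 8 0 (k v (k v r))) (k (c 3 4093 v r) (k (c 3 4093 v r) (k (t 8 1 (u 10 25 (k v (k v (k v (k v (k (t 26 1 (u 18 0 (k (t 34 3 (t 50 1 v)) r))) r))))))) (k (u 8 0 (k r (k (u 10 0 (k v (k v (k (t 26 1 (u 18 0 (k (t 34 3 (t 50 1 v)) r))) r)))) r))) (k (c 6 4095 r (u 8 0 (k v (k v r)))) r))))))))
 .z .z) .z))) (.s 0x7551144452aae0075445110 4095 (n false (n false (n false (z 32) e) (n false (n false (n false (n false e e) (n false e e)) (n false (n false e e) (n false e e))) (n false e e))) (n true (n false (n false (n false (n false e e) (n false e e)) (n false (n false e e) (n false e e))) (n false e e)) e)) (c 10 4101 v (u 8 0 (k (t 16 3 (t 24 1 v)) r)))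
 (.s 0x755114444eeec03b9dd7000 4093 (n false (n false (z 85) (n false (n false (n false (n false e e) (n false e e)) (n false (n false e e) (n false e e))) (n false e e))) (n true (n false (n true (z 37) e) e) e)) (u 17 0 (k r (k (t 4 1 r) (k (t 4 1 r) (k (t 4 1 r) (k (t 4 1 (c 10 4101 v r)) (k (c 17 4095 r r) r)))))))
 (.s 0x755114444eeec03a9fd5800 4096 (n false (n false (z 85) (n false (n false (n false (n false e e) (n false e e)) (n false (n false e e) (n false e e))) (n false e e))) (n true (n false (n false (z 71) e) e) e)) (u 4 35 (k (c 5 4088 r v) (k (c 6 4099 v r) (k (c 12 4099 r (c 5 4088 r (c 2 4098 (c 4 4097 r v) v))) r))))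
 (.s 0x755114444ebfc03aea221c0 4082 (n false (n true (n false (n false (n true (n false (n false (n false e e) (n false e e)) (n false e e)) e) (n true (n false e e) e)) e) e) (n false (z 121) (n false (n false (n false (n false e e) (n false e e)) (n false (n false e e) (n false e e))) (n false e e)))) (u 5 4 (k v (k v (k (c 13 4099 r (u 9 1 (k v (k v r)))) (k (c 9 4097 r (u 13 1 (k v (k v r)))) r)))))
 .z .z) (.s 0x755114444eeec03b9d7f800 4093 (n false (n false (z 85) (n false (n false (n false (n false e e) (n false e e)) (n false (n false e e) (n false e e))) (n false e e))) (n true (n false (n true (z 121) e) e) e)) (u 17 1 (k r (k (c 49 4099 r (u 33 1 (k r (k r r)))) (k (c 33 4097 r (u 49 31 (k r (k r (k r r))))) (k (c 33 4095 r (u 49 0 (k r (k r r)))) (k (c 33 4095 r (u 49 0 (k r (k r r)))) r))))))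
 .z .z)) (.s 0x755114444fbb803f9777000 4096 (n false (n true (n true (n true (z 42) e) e) e) (n false (z 43) (n false (n false (n false (n false e e) (n false e e)) (n false (n false e e) (n false e e))) (n false e e)))) (c 7 4099 v (u 16 1 (k (u 5 4 (k v (k v (k v (k r (k (u 9 1 (k v (k v r))) (k (u 9 0 (k (u 17 0 (k v (k v r))) r)) (k r (k r r))))))))) (k (u 5 3 (k v (k v (k v (k (u 9 1 (k v (k v r))) (k r (k (u 9 0 (k (u 17 0 (k v (k v r))) r)) (k r (k r r))))))))) r))))
 (.s 0x755114444fbb803e57f5000 4095 (n false (n true (n true (z 156) e) e) (n false (z 43) (n false (n false (n false (n false e e) (n false e e)) (n false (n false e e) (n false e e))) (n false e e)))) (u 8 2 (k (c 11 4101 v r) (k (c 16 4099 r (u 24 1 (k r (k r r)))) (k (c 16 4095 r (u 24 0 (k r (k r r)))) r))))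
 .z .z) .z)) (.s 0x75511444551144452aff008 4088 (n false (n false (z 120) (n false e e)) (n false (n false (n false (n false (n false e e) (n false e e)) (n false (n false e e) (n false e e))) (n false e e)) (n false (n false (n false (n false e e) (n false e e)) (n false (n false e e) (n false e e))) (n false e e)))) (u 4 16 (k v (k (c 12 4099 r r) (k (c 12 4099 r r) (k (c 8 4095 r r) (k (c 12 4097 r r) (k (c 12 4096 r r) (k (c 12 4096 r (u 8 0 (k (u 16 0 (k v (k v r))) r))) (k (c 12 4100 r (u 8 0 (k (u 16 0 (k v (k v r))) r))) (k (c 12 4101 r r) (k (c 8 4099 r r) (k (c 12 4100 r r) (k (c 12 4097 r r) (k (c 12 4099 r r) (k (c 8 4099 r r) (k (c 12 4097 r r) r))))))))))))))))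
 (.s 0x7551144453fbf0075445110 4097 (n false (n false (n false (z 119) e) (n false (n false (n false (n false e e) (n false e e)) (n false (n false e e) (n false e e))) (n false e e))) (n true (n false (n false (n false (n false e e) (n false e e)) (n false (n false e e) (n false e e))) (n false e e)) e)) (c 6 4099 v (u 8 17 (k v (k (c 16 4097 r (u 24 1 (k v (k v r)))) (k (c 16 4097 r r) (k (c 24 4096 r (u 16 0 (k (u 32 0 (k v (k v r))) r))) (k (c 24 4097 r r) (k (c 24 4097 r r) (k (c 24 4097 r r) (k (c 24 4097 r r) (k (c 24 4097 r r) r)))))))))))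
 (.s 0x7551144452aff0075445110 4097 (n false (n false (n false (z 120) e) (n false (n false (n false (n false e e) (n false e e)) (n false (n false e e) (n false e e))) (n false e e))) (n true (n false (n false (n false (n false e e) (n false e e)) (n false (n false e e) (n false e e))) (n false e e)) e)) (u 8 6 (k v (k v (k r (k (c 24 4099 r r) (k (c 24 4101 r (c 2 4089 (u 8 5 (k v (k v r))) v)) (k (c 16 4099 r r) (k (c 24 4096 r (c 6 4099 v (c 2 4087 r v))) (k (c 24 4096 r (c 6 4099 v (u 16 0 (k (u 32 0 (k v (k v r))) r)))) (k (c 24 4099 r r) (k (c 16 4098 r (c 2 4088 r v)) (k (c 16 4101 r r) (k (c 24 4099 r (c 6 4099 v r)) (k (c 24 4099 r r) (k (c 16 4101 r r) r)))))))))))))))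
 .z .z) (.s 0x7551144454451153bee0088 4089 (n false (n false (n false (z 45) (n false e e)) (n false e e)) (n false (n false (n false (n false (n false e e) (n false e e)) (n false (n false e e) (n false e e))) (n false e e)) (n false (n false (n false e e) (n false e e)) (n false (n false e e) (n false e e))))) (c 5 4099 v (u 8 0 (k v (k v r))))
 .z .z)) (.s 0x75511444551144453eaf008 4088 (n false (n false (z 99) (n false e e)) (n false (n false (n false (n false (n false e e) (n false e e)) (n false (n false e e) (n false e e))) (n false e e)) (n false (n false (n false (n false e e) (n false e e)) (n false (n false e e) (n false e e))) (n false e e)))) (u 4 1 (k v (k (c 12 4096 r r) (k (c 12 4096 r r) (k (c 12 4096 r r) r)))))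
 (.s 0x75511444551144453eab008 4086 (n false (n false (z 67) (n false e e)) (n false (n false (n false (n false (n false e e) (n false e e)) (n false (n false e e) (n false e e))) (n false e e)) (n false (n false (n false (n false e e) (n false e e)) (n false (n false e e) (n false e e))) (n false e e)))) (u 4 90 (k v (k v (k v (k (c 12 4099 r r) (k (c 12 4097 r r) (k (c 12 4099 r r) (k r (k (c 12 4097 r r) (k (c 12 4099 r (u 8 1 (k v (k (c 24 4097 r (u 16 0 (k v (k v r)))) r)))) (k (c 12 4099 r (u 8 0 (k (u 16 0 (k v (k v r))) r))) (k (c 8 4099 r r) (k (c 12 4099 r r) (k (c 8 4099 r (u 12 0 (k (u 20 0 (k v (k v r))) r))) (k (c 12 4100 r (c 5 4099 v (c 7 4099 v r))) (k (c 12 4099 r r) (k (c 12 4099 r r) (k (c 12 4099 r r) r))))))))))))))))))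
 .z .z) .z))))

set_option maxRecDepth 100000 in
def N213 : NT :=
(.s 0x75544511154451113bae008 4085 (n false (n false (n false (n false (n false (n false (n false e e) (n false e e)) (n false (n false e e) (n false e e))) (n false e e)) (n false (n false (n false (n false e e) (n false e e)) (n false (n false e e) (n false e e))) (n false e e))) (z 37)) (n false e e)) (u 6 29 (k v (k r (k (u 10 5 (k v (k v r))) (k (u 10 0 (k (t 18 3 (t 26 1 v)) r)) (k (u 10 0 (k (t 18 3 (t 26 1 v)) r)) (k r r)))))))
 (.s 0x7551144455114447caffc00 4095 (n false (n true (n true (z 124) e) e) (n false (n false (n false (n false (n false e e) (n false e e)) (n false (n false e e) (n false e e))) (n false e e)) (n false (n false (n false (n false e e) (n false e e)) (n false (n false e e) (n false e e))) (n false e e)))) (u 8 1 (k v (k (c 24 4097 r (u 16 1 (k v (k v r)))) (k (c 24 4096 r (u 16 1 (k v (k v r)))) (k (c 16 4098 r (u 24 0 (k v (k v r)))) (k (c 24 4096 r (u 16 1 (k v (k v r)))) (k (c 24 4097 r (u 16 1 (k v (k v r)))) (k (c 24 4097 r (u 16 1 (k v (k v r)))) (k (c 24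 4096 r (u 16 1 (k v (k v r)))) (k (c 24 4099 r (u 16 1 (k v (k v r)))) (k (c 16 4097 r (u 24 1 (k v (k v r)))) r)))))))))))
 (.s 0x7551144455114445cfbec00 4097 (n false (n false (n true (z 91) e) e) (n false (n false (n false (n false (n false e e) (n false e e)) (n false (n false e e) (n false e e))) (n false e e)) (n false (n false (n false (n false e e) (n false e e)) (n false (n false e e) (n false e e))) (n false e e)))) (c 5 4099 v (u 8 2 (k v (k v (k (u 16 1 (k v (k v r))) (k (c 16 4097 r (u 24 0 (k v (k v r)))) (k (c 16 4097 r (u 24 0 (k v (k v r)))) (k (c 16 4096 r (u 24 0 (k v (k v r)))) (k (c 16 4095 r (u 24 0 (k v (k v r)))) r)))))))))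
 (.s 0x7551144455114445cbfb800 4097 (n false (n false (n true (z 46) e) e) (n false (n false (n false (n false (n false e e) (n false e e)) (n false (n false e e) (n false e e))) (n false e e)) (n false (n false (n false (n false e e) (n false e e)) (n false (n false e e) (n false e e))) (n false e e)))) (u 8 6 (k v (k v (k (u 16 1 (k v (k v r))) (k (c 24 4099 r (u 16 0 (k v (k v r)))) (k (u 16 1 (k v (k v r))) (k (c 24 4097 r (u 16 1 (k v (k v r)))) r)))))))
 (.s 0x7551144455114445caffc00 4097 (n false (n false (n true (z 124) e) e) (n false (n false (n false (n false (n false e e) (n false e e)) (n false (n false e e) (n false e e))) (n false e e)) (n false (n false (n false (n false e e) (n false e e)) (n false (n false e e) (n false e e))) (n false e e)))) (u 8 4 (k v (k v (k (c 24 4097 r (u 16 1 (k v (k v r)))) (k (c 24 4096 r (u 16 1 (k v (k v r)))) (k (c 16 4098 r (u 24 0 (k v (k v r)))) (k (c 24 4096 r (u 16 1 (k v (k v r)))) (k (c 24 4097 r (u 16 1 (k v (k v r)))) (k (c 24 4097 r (u 16 1 (k v (k v r)))) (k (c 24 4096 r (u 16 1 (k v (k v r)))) (k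 (c 16 4097 r (u 24 1 (k v (k v r)))) r)))))))))))
 .z .z) (.s 0x7551144455114445cebfc00 4097 (n false (n false (n true (z 121) e) e) (n false (n false (n false (n false (n false e e) (n false e e)) (n false (n false e e) (n false e e))) (n false e e)) (n false (n false (n false (n false e e) (n false e e)) (n false (n false e e) (n false e e))) (n false e e)))) (u 8 5 (k v (k v (k v (k (c 24 4099 r (u 16 1 (k v (k v r)))) (k (c 16 4097 r (u 24 1 (k v (k v r)))) r))))))
 .z .z)) (.s 0x75511444551144474faac00 4096 (n false (n true (n false (z 67) e) e) (n false (n false (n false (n false (n false e e) (n false e e)) (n false (n false e e) (n false e e))) (n false e e)) (n false (n false (n false (n false e e) (n false e e)) (n false (n false e e) (n false e e))) (n false e e)))) (u 8 54 (k v (k v (k v (k v (k (c 24 4099 r r) (k (c 24 4097 r r) (k (c 24 4099 r r) (k (c 4 4088 r v) (k (c 24 4099 r (u 16 0 (k (u 32 0 (k v (k v r))) r))) (k (c 16 4099 r r) (k (c 24 4099 r r) (k (c 16 4099 r (u 24 0 (k (u 40 0 (k v (k v r))) r))) (k (c 24 4099 r r) (k (c 24 4099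 r r) (k (c 24 4099 r r) r))))))))))))))))
 (.s 0x75511444551144474abfc00 4096 (n false (n true (n false (z 120) e) e) (n false (n false (n false (n false (n false e e) (n false e e)) (n false (n false e e) (n false e e))) (n false e e)) (n false (n false (n false (n false e e) (n false e e)) (n false (n false e e) (n false e e))) (n false e e)))) (u 8 19 (k v (k v (k (c 24 4099 r r) (k (c 24 4096 r (c 2 4087 r v)) (k (c 16 4099 r r) (k (c 24 4100 r r) (k (c 24 4097 r r) (k (c 24 4099 r r) (k (c 16 4099 r r) (k (c 24 4097 r r) r)))))))))))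
 .z .z) .z)) (.s 0x7551144455114447cfefc00 4098 (n false (n true (n true (z 119) e) e) (n false (n false (n false (n false (n false e e) (n false e e)) (n false (n false e e) (n false e e))) (n false e e)) (n false (n false (n false (n false e e) (n false e e)) (n false (n false e e) (n false e e))) (n false e e)))) (u 8 15 (k v (k v (k (c 24 4101 r r) (k (c 24 4099 r r) (k (c 24 4097 r r) (k (c 24 4096 r (u 16 0 (k (u 32 107 (k v (k v (k v (k v (k (c 64 4101 r (c 5 4099 v (u 96 0 (k v (k v r))))) (k (c 16 4088 r v) (k (c 96 4101 r r) (k (c 96 4102 r r) (k (c 64 4101 r r) (k (c 64 4101 r r) r))))))))))) r))) (k (c 16 4098 r r) (k (c 16 4101 r r) (k (c 16 4099 r r) (k (c 16 4101 r r) r)))))))))))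
 (.s 0x7551144455114447cebfc00 4099 (n false (n true (n true (z 121) e) e) (n false (n false (n false (n false (n false e e) (n false e e)) (n false (n false e e) (n false e e))) (n false e e)) (n false (n false (n false (n false e e) (n false e e)) (n false (n false e e) (n false e e))) (n false e e)))) (u 8 4 (k v (k v (k (c 24 4099 r (u 16 1 (k v (k v r)))) (k (c 16 4097 r (u 24 1 (k v (k v r)))) r)))))
 (.s 0x7551144455114447cbfb800 4099 (n false (n true (n true (z 46) e) e) (n false (n false (n false (n false (n false e e) (n false e e)) (n false (n false e e) (n false e e))) (n false e e)) (n false (n false (n false (n false e e) (n false e e)) (n false (n false e e) (n false e e))) (n false e e)))) (c 5 4099 v (u 8 1 (k v (k (u 16 1 (k v (k v r))) (k (c 24 4099 r (u 16 0 (k v (k v r)))) (k (u 16 1 (k v (k v r))) (k (c 24 4097 r (u 16 1 (k v (k v r)))) (k (c 16 4095 r (u 24 1 (k v (k v r)))) r))))))))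
 .z .z) (.s 0x7551144455114447cfbec00 4095 (n false (n true (n true (z 91) e) e) (n false (n false (n false (n false (n false e e) (n false e e)) (n false (n false e e) (n false e e))) (n false e e)) (n false (n false (n false (n false e e) (n false e e)) (n false (n false e e) (n false e e))) (n false e e)))) (u 8 4 (k v (k v (k (u 16 1 (k v (k v r))) (k (c 16 4097 r (u 24 0 (k v (k v r)))) (k (c 16 4097 r (u 24 0 (k v (k v r)))) (k (c 16 4096 r (u 24 0 (k v (k v r)))) (k (c 16 4095 r (u 24 0 (k v (k v r)))) r))))))))
 .z .z)) (.s 0x755445111544511112bbe00 4088 (n false (n false (n false (n false (n false (n false (n false e e) (n false e e)) (n false (n false e e) (n false e e))) (n false e e)) (n false (n false (n false (n false e e) (n false e e)) (n false (n false e e) (n false e e))) (n false e e))) (n false e e)) (z 52)) (u 3 239 (k v (k v (k v (k v (k v (k v (k v (k v (k v (k (t 7 1 (u 5 0 (k (c 13 4099 r (u 9 2 (k v (k (c 2 4099 v (u 17 1 (k v (k v r)))) r)))) r))) r)))))))))))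
 (.s 0x7554451112efa00aa228888 4094 (n false (n false (n false (z 26) (n false (n false (n false (n false e e) (n false e e)) (n false (n false e e) (n false e e))) (n false e e))) (n false (n false (n false (n false e e) (n false e e)) (n false (n false e e) (n false e e))) (n false e e))) (n false e e)) (c 6 4099 v (c 20 4101 v (c 2 4087 r v)))
 .z .z) .z))) (.s 0x7554451115445111cfef800 4087 (n false (n false (n true (z 55) e) (n false (n false (n false (n false (n false e e) (n false e e)) (n false (n false e e) (n false e e))) (n false e e)) (n false (n false (n false (n false e e) (n false e e)) (n false (n false e e) (n false e e))) (n false e e)))) e) (u 8 4 (k (t 24 1 (u 16 14 (k v (k (c 48 4099 r (t 32 3 v)) (k (u 32 4 (k v (k (t 96 1 (u 64 4 (k v (k v r)))) r))) (k (u 32 4 (k v (k (t 96 1 (u 64 4 (k v (k v r)))) r))) (k (c 10 4099 v r) (k (c 10 4099 v r) r)))))))) (k (t 24 3 (u 16 8 (k v (k v r)))) r)))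
 (.s 0x7554451115445111caef800 4087 (n false (n false (n true (z 52) e) (n false (n false (n false (n false (n false e e) (n false e e)) (n false (n false e e) (n false e e))) (n false e e)) (n false (n false (n false (n false e e) (n false e e)) (n false (n false e e) (n false e e))) (n false e e)))) e) (u 8 143 (k v (k v (k v (k v (k v (k v (k v (k (c 4 4081 r v) (k (t 24 1 r) r))))))))))
 (.s 0x75544511154451114fab800 4093 (n false (n false (n false (z 35) e) (n false (n false (n false (n false (n false e e) (n false e e)) (n false (n false e e) (n false e e))) (n false e e)) (n false (n false (n false (n false e e) (n false e e)) (n false (n false e e) (n false e e))) (n false e e)))) e) (u 8 2 (k v (k v (k v (k (t 24 1 (u 16 0 (k (t 32 3 (t 48 1 v)) r))) r)))))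
 (.s 0x75544511154451114abfc00 4090 (n false (n false (n false (z 120) e) (n false (n false (n false (n false (n false e e) (n false e e)) (n false (n false e e) (n false e e))) (n false e e)) (n false (n false (n false (n false e e) (n false e e)) (n false (n false e e) (n false e e))) (n false e e)))) e) (u 8 40 (k v (k v (k (t 24 2 r) (k r (k (t 24 1 (c 4 4080 (u 4 0 (k r r)) v)) (k r (k r (k (t 24 1 r) (k r (k (t 16 1 r) (k (t 24 1 r) r))))))))))))
 .z .z) (.s 0x75544511154451114fefc00 4090 (n false (n false (n false (z 119) e) (n false (n false (n false (n false (n false e e) (n false e e)) (n false (n false e e) (n false e e))) (n false e e)) (n false (n false (n false (n false e e) (n false e e)) (n false (n false e e) (n false e e))) (n false e e)))) e) (u 8 50 (k v (k v (k (u 24 2 (k (u 16 6 (k v (k v (k (t 48 1 (u 32 2 (k v (k v r)))) r)))) (k (u 16 26 (k v (k v (k v r)))) r))) (k (c 24 4096 r (c 10 4099 v (c 14 4099 v r))) (k (c 24 4099 r r) (k (c 24 4097 r r) (k (c 24 4096 r (c 10 4099 v (c 14 4099 v (u 16 0 (k (u 32 0 (k v (k v r))) r))))) (k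 (c 16 4098 r r) (k (t 24 1 r) (k (c 16 4099 r r) (k (t 24 1 r) r))))))))))))
 .z .z)) (.s 0x7554451115445111cfab800 4095 (n false (n false (n true (z 35) e) (n false (n false (n false (n false (n false e e) (n false e e)) (n false (n false e e) (n false e e))) (n false e e)) (n false (n false (n false (n false e e) (n false e e)) (n false (n false e e) (n false e e))) (n false e e)))) e) (u 8 2 (k v (k v (k v (k (t 24 1 (u 16 0 (k (t 32 3 (t 48 1 v)) r))) r)))))
 (.s 0x7554451115445111cebec00 4087 (n false (n false (n true (z 89) e) (n false (n false (n false (n false (n false e e) (n false e e)) (n false (n false e e) (n false e e))) (n false e e)) (n false (n false (n false (n false e e) (n false e e)) (n false (n false e e) (n false e e))) (n false e e)))) e) (u 8 50 (k v (k v (k v (k v (k (t 24 3 (u 16 26 (k v (k v (k v r))))) (k (t 24 2 (c 10 4099 v (u 16 0 (k (u 32 313 (k v (k v (k v (k v (k (t 96 1 (u 64 0 (k v (k v r)))) r)))))) (k (c 32 4096 r (u 48 0 (k v (k v r)))) (k (u 32 1 (k v (k v r))) (k (c 48 4096 r (u 32 314 (k v (k v (k v (k v (k (t 96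 1 (u 64 0 (k v (k v r)))) r))))))) r))))))) (k (t 24 2 r) r))))))))
 .z .z) .z)) (.s 0x755d5114442288852bbe008 4093 (n false (n false (z 52) (n false e e)) (n false (n false (n false (n false (n true (n false (n false (n false (n false e e) (n false e e)) (n false (n false e e) (n false e e))) (n false e e)) e) (n false e e)) (n false (n false e e) (n false e e))) (n false e e)) e)) (c 2 4095 (c 2 4097 r v) v)
 (.s 0x7555114444fbb803870ee10 4076 (n false (n false (n false (n false (z 43) (n false (n false (n false (n false e e) (n false e e)) (n false (n false e e) (n false e e))) (n false e e))) (n true (n false e e) e)) (n true (n false e e) e)) (n true (n false (n true (n false e e) e) (n false e e)) e)) (u 16 0 (k v (k r (k (c 48 4099 r (u 32 0 (k (u 64 0 (k v (k v r))) r))) (k r (k (c 2 4070 r v) (k (u 32 0 (k (u 64 0 (k v (k v r))) r)) (k r (k (u 32 9 (k v (k v (k (c 96 4099 r (u 64 1 (k v (k v r)))) r)))) r)))))))))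
 (.s 0x7554451115445111cfefc00 4091 (n false (n false (n true (z 119) e) (n false (n false (n false (n false (n false e e) (n false e e)) (n false (n false e e) (n false e e))) (n false e e)) (n false (n false (n false (n false e e) (n false e e)) (n false (n false e e) (n false e e))) (n false e e)))) e) (c 10 4099 v (c 14 4099 v r))
 .z .z) (.s 0x75575445110842577c01708 4069 (n false (n false (z 52) (n false (n false (n false (n false (n true (n false (n false (n false (n false e e) (n false e e)) (n false (n false e e) (n false e e))) (n false e e)) e) (n false e e)) e) (n false e e)) e)) (n false (n true (n false e e) e) (n false e e))) (u 4 45 (k v (k v (k v (k v r)))))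
 .z .z)) (.s 0x75754451108895fd400ee10 4085 (n false (n false (z 156) (n false (n false (n true (n false (n false (n false (n false e e) (n false e e)) (n false (n false e e) (n false e e))) (n false e e)) e) (n false e e)) (n false e e))) (n true (n false (n true (n false e e) e) (n false e e)) e)) (u 4 28 (k v (k v (k v (k (c 8 4099 r (u 12 1 (k v (k v r)))) (k (c 8 4099 r (u 12 1 (k v (k v r)))) r))))))
 (.s 0x755d5114442288853eab008 4086 (n false (n false (z 67) (n false e e)) (n false (n false (n false (n false (n true (n false (n false (n false (n false e e) (n false e e)) (n false (n false e e) (n false e e))) (n false e e)) e) (n false e e)) (n false (n false e e) (n false e e))) (n false e e)) e)) (u 4 89 (k v (k v (k v (k (c 12 4099 r r) (k (c 12 4097 r r) (k (c 12 4099 r r) (k r (k (c 12 4097 r r) (k (c 12 4099 r (u 8 1 (k v (k (c 24 4097 r (u 16 0 (k v (k v r)))) r)))) (k (c 12 4099 r (u 8 0 (k (u 16 0 (k v (k v r))) r))) (k (c 8 4099 r r) (k (c 12 4099 r r) (k (c 8 4099 r (u 12 0 (k (u 20 0 (k v (k v r))) r))) (k (c 12 4100 r (c 5 4096 v r))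 (k (c 12 4099 r r) (k (c 12 4099 r r) (k (c 12 4099 r r) r))))))))))))))))))
 .z .z) .z))))

set_option maxRecDepth 100000 in
def N214 : NT :=
(.s 0x75d5114442e11c2977d0070 4077 (n false (n false (z 26) (n true (n false e e) e)) (n false (n false (n false (n true (n false e e) e) (n false e e)) (n true (n false (n false (n false (n false e e) (n false e e)) (n false (n false e e) (n false e e))) (n false e e)) e)) (n true (n false e e) e))) (u 4 2 (k v (k (c 7 4094 v (c 2 4082 r v)) r)))
 (.s 0x75d5114442a22888e5ddc00 4090 (n false (n true (z 42) e) (n false (n false (n true (n false (n false (n false (n false e e) (n false e e)) (n false (n false e e) (n false e e))) (n false e e)) e) (n false (n false (n false e e) (n false e e)) (n false (n false e e) (n false e e)))) (n false e e))) (c 13 4101 v (u 4 1 (k v (k v r))))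
 (.s 0x75d3bae00e0e0baa2288870 4068 (n false (n false (n false (n true (n false (z 37) (n true (n false e e) e)) e) (n true (n false e e) e)) e) (n false (n true (n false (n false (n false (n false e e) (n false e e)) (n false (n false e e) (n false e e))) (n false e e)) e) (n true (n false e e) e))) (u 32 7 (k v (k (c 2 4069 r v) (k (c 2 4069 r v) (k (u 64 5 (k v (k v r))) r)))))
 (.s 0x75754451108a2229dd70070 4086 (n false (n false (z 37) (n true (n false e e) e)) (n false (n false (n false (n true (n false (n false (n false (n false e e) (n false e e)) (n false (n false e e) (n false e e))) (n false e e)) e) (n false e e)) (n false (n false e e) (n false e e))) (n false e e))) (u 4 0 (k v (k (c 3 4096 v (u 8 0 (k (t 16 3 (t 24 1 v)) r))) (k (c 3 4096 v (u 8 0 (k (t 16 3 (t 24 1 v)) r))) (k (u 8 2 (k v (k v (k v (k (t 24 1 (u 16 0 (k (t 32 3 (t 48 1 v)) r))) r))))) (k (u 8 2 (k v (k v (k v (k (t 24 1 (u 16 0 (k (t 32 3 (t 48 1 v)) r))) r))))) (k (u 8 5 (k v (k v r))) r)))))))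
 (.s 0x75754451108a2229d7f8070 4089 (n false (n false (z 121) (n true (n false e e) e)) (n false (n false (n false (n true (n false (n false (n false (n false e e) (n false e e)) (n false (n false e e) (n false e e))) (n false e e)) e) (n false e e)) (n false (n false e e) (n false e e))) (n false e e))) (u 4 1 (k v (k (c 12 4099 r (u 8 1 (k v (k v r)))) (k (c 8 4097 r (c 3 4096 v r)) (k (c 8 4095 r (c 3 4096 v r)) (k (c 8 4095 r (c 3 4096 v r)) r))))))
 .z .z) (.s 0x75cfaac00aa22888a7d5600 4095 (n false (n false (n false (n true (z 67) e) e) (n false (n false (n false (n false e e) (n false e e)) (n false (n false e e) (n false e e))) (n false e e))) (n false (z 67) e)) (c 2 4079 (c 3 4099 v r) (c 5 4103 r v))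
 .z .z)) (.s 0x75d5114442a22888a7d5c00 4089 (n false (n false (n false (n true (n false (n false (n false (n false e e) (n false e e)) (n false (n false e e) (n false e e))) (n false e e)) e) (n false (n false (n false e e) (n false e e)) (n false (n false e e) (n false e e)))) (n false e e)) (n false (z 35) e)) (u 5 9 (k v (k v (k (t 13 1 (u 9 0 (k (t 17 3 (t 25 1 v)) r))) r))))
 (.s 0x75d5114442a228853eab008 4086 (n false (n false (z 67) (n false e e)) (n false (n false (n true (n false (n false (n false (n false e e) (n false e e)) (n false (n false e e) (n false e e))) (n false e e)) e) (n false (n false (n false e e) (n false e e)) (n false (n false e e) (n false e e)))) e)) (u 4 89 (k v (k v (k v (k (c 12 4099 r r) (k (c 12 4097 r r) (k (c 12 4099 r r) (k r (k (c 12 4097 r r) (k (c 12 4099 r (u 8 1 (k v (k (c 24 4097 r (u 16 0 (k v (k v r)))) r)))) (k (c 12 4099 r (u 8 0 (k (u 16 0 (k v (k v r))) r))) (k (c 8 4099 r r) (k (c 12 4099 r r) (k (c 8 4099 r (u 12 0 (k (u 20 0 (k v (k v r))) r))) (k (c 12 4100 r (c 5 4096 v r)) (k (c 12 4099 r r) (k (c 12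 4099 r r) (k (c 12 4099 r r) r))))))))))))))))))
 .z .z) .z)) (.s 0x75d5114442a2288b975d000 4088 (n false (n false (n false (n true (z 18) e) e) (n false (n true (n false (n false (n false (n false e e) (n false e e)) (n false (n false e e) (n false e e))) (n false e e)) e) (n false (n false (n false e e) (n false e e)) (n false (n false e e) (n false e e))))) e) (c 14 4101 v (u 16 0 (k (u 32 0 (k v (k v r))) r)))
 (.s 0x75d5114442a22888e7d5c00 4091 (n false (n false (n false (n true (n false (n false (n false (n false e e) (n false e e)) (n false (n false e e) (n false e e))) (n false e e)) e) (n false (n false (n false e e) (n false e e)) (n false (n false e e) (n false e e)))) (n false e e)) (n true (z 35) e)) (u 5 9 (k v (k v (k (t 13 1 (u 9 0 (k (t 17 3 (t 25 1 v)) r))) r))))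
 (.s 0x75d5114442a22888e5fd400 4087 (n false (n false (n false (n true (n false (n false (n false (n false e e) (n false e e)) (n false (n false e e) (n false e e))) (n false e e)) e) (n false (n false (n false e e) (n false e e)) (n false (n false e e) (n false e e)))) (n false e e)) (n true (z 14) e)) (c 12 4101 v (u 5 0 (k v (k v r))))
 .z .z) (.s 0x75d5114442a22889d7f8050 4076 (n false (n false (z 121) (n false (n true (n false (n false (n false (n false e e) (n false e e)) (n false (n false e e) (n false e e))) (n false e e)) e) (n false (n false (n false e e) (n false e e)) (n false (n false e e) (n false e e))))) (n false (n false e e) e)) (u 4 1 (k v (k (c 12 4099 r (u 8 1 (k v (k v r)))) (k (c 8 4097 r (u 12 1 (k v (k v r)))) (k (c 8 4095 r (u 12 0 (k v (k v r)))) (k (c 8 4095 r (u 12 0 (k v (k v r)))) r))))))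
 .z .z)) (.s 0x75d5114442a2288f97f7000 4087 (n false (n false (n true (n true (z 46) e) e) (n false (n true (n false (n false (n false (n false e e) (n false e e)) (n false (n false e e) (n false e e))) (n false e e)) e) (n false (n false (n false e e) (n false e e)) (n false (n false e e) (n false e e))))) e) (c 14 4101 v (u 16 2 (k v (k (c 48 4099 r (u 32 0 (k v (k v r)))) (k (u 32 1 (k v (k v r))) (k (u 32 1 (k v (k v r))) (k (c 48 4097 r (u 32 1 (k v (k v r)))) (k (c 32 4095 r (u 48 1 (k v (k v r)))) r))))))))
 (.s 0x75d5114442a2288b97f7000 4086 (n false (n false (n false (n true (z 46) e) e) (n false (n true (n false (n false (n false (n false e e) (n false e e)) (n false (n false e e) (n false e e))) (n false e e)) e) (n false (n false (n false e e) (n false e e)) (n false (n false e e) (n false e e))))) e) (c 14 4101 v (u 16 2 (k v (k (c 48 4099 r (u 32 0 (k v (k v r)))) (k (u 32 1 (k v (k v r))) (k (u 32 1 (k v (k v r))) (k (c 48 4097 r (u 32 1 (k v (k v r)))) (k (c 32 4095 r (u 48 1 (k v (k v r)))) r))))))))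
 .z .z) .z))) (.s 0x75d53bbe004551144421708 4068 (n false (n false (n false (n true (n false (n false (n false (z 53) e) (n false e e)) (n false (n false (n false (n false e e) (n false e e)) (n false (n false e e) (n false e e))) (n false e e))) e) (n false e e)) e) (n false (n true (n false e e) e) (n false e e))) (c 48 4099 v (u 128 0 (k (t 384 1 (u 256 1 (k v (k (u 512 1 (k v (k v r))) (k (c 768 4099 r (u 512 0 (k v (k v r)))) (k (u 512 1 (k v (k v r))) (k (c 768 4097 r (u 512 1 (k v (k v r)))) (k (c 512 4095 r (u 768 1 (k v (k v r)))) r)))))))) (k (t 384 1 (u 256 32 (k v (k v (k (c 768 4099 r r) (k (c 256 4097 r v) (k (c 768 4096 r (c 256 4095 r v)) (k (c 512 4099 r r) r)))))))) r))))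
 (.s 0x75d5114443870ea777601c0 4076 (n false (n true (n false (n false (z 85) (n true (n false e e) e)) e) e) (n false (n false (n true (n false (n false (n false (n false e e) (n false e e)) (n false (n false e e) (n false e e))) (n false e e)) e) (n true (n false e e) e)) (n true (n false e e) e))) (c 17 4099 v (c 24 4094 v (c 7 4094 v r)))
 (.s 0x75d5114443870e95df00740 4079 (n false (n false (n false (n true (n false (n false (n false (n false e e) (n false e e)) (n false (n false e e) (n false e e))) (n false e e)) e) (n true (n false e e) e)) (n true (n false e e) e)) (n true (n false (n true (n false (n false e e) e) e) (z 52)) e)) (u 13 324 (k v (k v (k v (k v (k v r))))))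
 (.s 0x75d5114443870a9ff500470 4075 (n false (n false (n false (z 15) (n false e e)) (n true (n false e e) e)) (n false (n false (n true (n false (n false (n false (n false e e) (n false e e)) (n false (n false e e) (n false e e))) (n false e e)) e) (n true (n false e e) e)) (n true (n false e e) e))) (c 17 4099 v (c 6 4094 v r))
 .z .z) (.s 0x75d5114443870ea775c00e0 4078 (n false (n true (n false (n false (z 37) e) (n true (n false e e) e)) e) (n false (n false (n true (n false (n false (n false (n false e e) (n false e e)) (n false (n false e e) (n false e e))) (n false e e)) e) (n true (n false e e) e)) (n true (n false e e) e))) (c 17 4099 v (c 7 4094 v (u 16 0 (k v (k (c 4 4085 r v) (k (u 32 0 (k (t 64 3 (t 96 1 v)) r)) (k r (k (u 32 2 (k v (k v (k v (k (t 96 1 (u 64 0 (k (t 128 3 (t 192 1 v)) r))) r))))) (k (u 32 6 (k v (k (t 96 1 (u 64 10 (k v (k v r)))) r))) r)))))))))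
 .z .z)) (.s 0x75d52fff004551144421708 4068 (n false (n false (n false (n true (n false (n false (n false (z 126) e) (n false e e)) (n false (n false (n false (n false e e) (n false e e)) (n false (n false e e) (n false e e))) (n false e e))) e) (n false e e)) e) (n false (n true (n false e e) e) (n false e e))) (c 48 4099 v (u 128 4 (k v (k (t 384 1 (u 256 1 (k v (k (c 768 4099 r (u 512 1 (k v (k v r)))) (k (c 512 4097 r (u 768 1 (k v (k v r)))) (k (c 512 4095 r (u 768 0 (k v (k v r)))) (k (c 512 4095 r (u 768 0 (k v (k v r)))) r))))))) (k (t 384 1 (u 256 27 (k v (k (c 768 4099 r (u 512 8 (k v (k v (k v r))))) (k (u 512 26 (k v (k (c 1536 4101 r r) (k (c 1024 4101 r r) (k (c 1024 4101 r r) r))))) (k (c 512 4096 r (u 768 1 (k v (k v r)))) (k (c 768 4097 r (u 512 10 (k v (k (c 1536 4101 r r) (k (c 1024 4101 r r) (k (c 1024 4101 r r) r)))))) r))))))) r)))))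
 (.s 0x75d51144439fdd8022ee108 4076 (n false (n false (n false (n true (z 87) e) (n true (n false (n false (n false (n false e e) (n false e e)) (n false (n false e e) (n false e e))) (n false e e)) e)) (n false e e)) (n false (n true (n false (n true (n false e e) e) (n false e e)) e) (n false e e))) (u 16 18 (k v (k v (k v (k v r)))))
 .z .z) .z)) (.s 0x772bff00551144475445110 4095 (n false (n false (n true (z 124) e) (n false (n false (n false (n false e e) (n false e e)) (n false (n false e e) (n false e e))) (n false e e))) (n true (n false (n false (n false (n false e e) (n false e e)) (n false (n false e e) (n false e e))) (n false e e)) e)) (u 8 1 (k v (k (c 24 4097 r (u 16 1 (k v (k v r)))) (k (c 24 4096 r (u 16 1 (k v (k v r)))) (k (c 16 4098 r (u 24 0 (k v (k v r)))) (k (c 24 4096 r (u 16 1 (k v (k v r)))) (k (c 24 4097 r (u 16 1 (k v (k v r)))) (k (c 24 4097 r (u 16 1 (k v (k v r)))) (k (c 24 4096 r (u 16 1 (k v (k v r)))) (k (c 24 4099 r (u 16 1 (k v (k v r)))) (k (c 16 4097 r (u 24 1 (k v (k v r)))) r)))))))))))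
 (.s 0x772bfa800aa22888a5ddc00 4096 (n false (n false (n true (z 156) e) (n false (n false (n false (n false e e) (n false e e)) (n false (n false e e) (n false e e))) (n false e e))) (n false (z 42) e)) (u 8 8 (k (u 5 1 (k v (k v r))) (k (c 3 4099 (u 2 0 (k v (k v r))) v) (k (c 24 4099 r r) (k (c 16 4098 r r) (k (c 16 4097 r r) (k (c 16 4099 r r) r)))))))
 (.s 0x772bbe00551144477f51100 4080 (n false (n false (n true (z 52) e) (n false (n false (n false (n false e e) (n false e e)) (n false (n false e e) (n false e e))) (n false e e))) (n true (n false (n true (n true (n true (n false (n false (n false e e) (n false e e)) (n false e e)) e) e) e) e) e)) (u 8 428 (k v (k v (k v (k v (k v (k v r)))))))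
 .z .z) (.s 0x772bfa800ea228875445110 4088 (n false (n false (n true (z 156) e) (n true (n false (n false (n false e e) (n false e e)) (n false (n false e e) (n false e e))) e)) (n true (n false (n false (n false (n false e e) (n false e e)) (n false (n false e e) (n false e e))) (n false e e)) e)) (u 8 16 (k v (k v (k v (k (c 24 4099 r (u 16 6 (k v (k v (k v r))))) (k (c 16 4099 r (u 24 6 (k v (k v (k v r))))) r))))))
 .z .z)) (.s 0x772eee00551144475445110 4096 (n false (n false (n true (z 42) e) (n false (n false (n false (n false e e) (n false e e)) (n false (n false e e) (n false e e))) (n false e e))) (n true (n false (n false (n false (n false e e) (n false e e)) (n false (n false e e) (n false e e))) (n false e e)) e)) (u 8 16 (k v (k v (k (u 16 14 (k v (k v r))) (k (c 4 4087 r v) (k (c 3 4110 v (c 10 4101 v r)) (k (c 3 4110 v (c 10 4101 v r)) r)))))))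
 (.s 0x772eee00551144452aae008 4076 (n false (n false (n true (z 42) e) (n false (n false (n false (n false e e) (n false e e)) (n false (n false e e) (n false e e))) (n false e e))) (n false (z 32) (n false e e))) (c 10 4101 v (u 8 1 (k (u 5 0 (k (t 9 3 (t 13 1 v)) r)) (k (u 5 0 (k (t 9 3 (t 13 1 v)) r)) r))))
 .z .z) .z))))

set_option maxRecDepth 100000 in
def N215 : NT :=
(.s 0x774bfa800aa22888e5fd400 4087 (n false (n false (n true (n false (z 14) e) e) (n false (n false (n false (n false e e) (n false e e)) (n false (n false e e) (n false e e))) (n false e e))) (n true (z 14) e)) (u 5 0 (k (u 16 0 (k v (k v r))) (k (u 16 0 (k v (k v r))) r)))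
 (.s 0x773faf00551144475445110 4101 (n false (n false (n true (z 103) e) (n false (n false (n false (n false e e) (n false e e)) (n false (n false e e) (n false e e))) (n false e e))) (n true (n false (n false (n false (n false e e) (n false e e)) (n false (n false e e) (n false e e))) (n false e e)) e)) (u 8 0 (k v (k (c 24 4101 r (u 16 1 (k v (k v r)))) (k (c 16 4101 r (u 24 1 (k v (k v r)))) (k (c 16 4101 r (u 24 1 (k v (k v r)))) r)))))
 (.s 0x773aff00551144475445110 4097 (n false (n false (n true (z 121) e) (n false (n false (n false (n false e e) (n false e e)) (n false (n false e e) (n false e e))) (n false e e))) (n true (n false (n false (n false (n false e e) (n false e e)) (n false (n false e e) (n false e e))) (n false e e)) e)) (u 8 1 (k v (k (c 24 4099 r (u 16 1 (k v (k v r)))) (k (c 16 4097 r (u 24 1 (k v (k v r)))) (k (c 16 4095 r (u 24 0 (k v (k v r)))) (k (c 16 4095 r (u 24 0 (k v (k v r)))) r))))))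
 (.s 0x772fee00551144475445110 4095 (n false (n false (n true (z 46) e) (n false (n false (n false (n false e e) (n false e e)) (n false (n false e e) (n false e e))) (n false e e))) (n true (n false (n false (n false (n false e e) (n false e e)) (n false (n false e e) (n false e e))) (n false e e)) e)) (u 8 1 (k v (k (u 16 1 (k v (k v r))) (k (c 24 4099 r (u 16 0 (k v (k v r)))) (k (u 16 1 (k v (k v r))) (k (c 24 4097 r (u 16 1 (k v (k v r)))) (k (c 16 4095 r (u 24 1 (k v (k v r)))) r)))))))
 (.s 0x772fea00551144452aae008 4074 (n false (n false (z 32) (n false e e)) (n false (n true (z 14) e) (n false (n false (n false (n false e e) (n false e e)) (n false (n false e e) (n false e e))) (n false e e)))) (c 11 4101 v (u 9 0 (k (u 4 0 (k (t 8 3 (t 12 1 v)) r)) (k (u 4 0 (k (t 8 3 (t 12 1 v)) r)) r))))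
 .z .z) (.s 0x773afb00551144475445110 4094 (n false (n false (n true (z 89) e) (n false (n false (n false (n false e e) (n false e e)) (n false (n false e e) (n false e e))) (n false e e))) (n true (n false (n false (n false (n false e e) (n false e e)) (n false (n false e e) (n false e e))) (n false e e)) e)) (u 8 20 (k v (k v (k v (k v (k (t 24 3 (u 16 76 (k v (k v (k v (k (t 48 1 (u 32 0 (k v (k v r)))) r)))))) (k (t 24 2 (c 10 4101 v (c 3 4110 v r))) (k (t 24 1 r) r))))))))
 .z .z)) (.s 0x773eab004faac0295fd4008 4095 (n false (n false (n true (z 67) e) (z 67)) (n false (z 156) (n false e e))) (u 5 43 (k r (k (t 6 1 (u 8 0 (k v (k v r)))) (k (c 13 4099 r (u 9 0 (k r (k (t 6 1 (u 8 0 (k v (k v r)))) r)))) r))))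
 (.s 0x773bae00551144475445110 4097 (n false (n false (n true (z 37) e) (n false (n false (n false (n false e e) (n false e e)) (n false (n false e e) (n false e e))) (n false e e))) (n true (n false (n false (n false (n false e e) (n false e e)) (n false (n false e e) (n false e e))) (n false e e)) e)) (u 8 0 (k v (k (u 16 0 (k (t 32 3 (t 48 1 v)) r)) (k (u 16 0 (k (t 32 3 (t 48 1 v)) r)) (k (u 16 10 (k v (k v (k v (k (t 48 1 (u 32 0 (k (t 64 3 (t 96 1 v)) r))) r))))) (k (u 16 0 (k v (k v (k (t 48 1 (u 32 0 (k (t 64 3 (t 96 1 v)) r))) r)))) (k (c 4 4088 r v) r)))))))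
 .z .z) .z)) (.s 0x773fbb00551144452aae008 4074 (n false (n false (z 32) (n false e e)) (n false (n true (z 87) e) (n false (n false (n false (n false e e) (n false e e)) (n false (n false e e) (n false e e))) (n false e e)))) (c 11 4101 v (u 9 1 (k (u 4 0 (k (t 8 3 (t 12 1 v)) r)) (k (u 4 0 (k (t 8 3 (t 12 1 v)) r)) r))))
 (.s 0x773fbb004fab802a77dc010 4091 (n false (n false (n true (z 87) e) (z 35)) (n false (n false (z 45) (n false e e)) e)) (u 6 0 (k (u 8 1 (k (u 9 0 (k v (k v r))) (k (u 9 0 (k v (k v r))) r))) (k (c 8 4099 r (t 9 1 v)) (k (t 14 1 (u 10 0 (k (t 18 3 (t 26 1 (u 8 1 (k (u 9 0 (k v (k v r))) (k (u 9 0 (k v (k v r))) r))))) r))) r))))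
 (.s 0x773fbb004faac0295fd4008 4091 (n false (n false (n true (z 87) e) (z 67)) (n false (z 156) (n false e e))) (u 5 0 (k (t 6 1 (u 8 1 (k v (k v r)))) (k (c 13 4099 r (u 9 0 (k r (k (t 6 1 (u 8 1 (k v (k v r)))) r)))) r)))
 .z .z) (.s 0x773fbb00544511f75114420 4076 (n false (n false (n true (z 87) e) (n false (n false (n false e e) (n false e e)) (n false (n false e e) (n false e e)))) (n true (n true (n false (n true (n false (n false (n false e e) (n false e e)) (n false (n false e e) (n false e e))) e) (n false e e)) e) e)) (u 8 18 (k v (k v (k v (k v r)))))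
 .z .z)) (.s 0x773fbf00551144475445110 4099 (n false (n false (n true (z 119) e) (n false (n false (n false (n false e e) (n false e e)) (n false (n false e e) (n false e e))) (n false e e))) (n true (n false (n false (n false (n false e e) (n false e e)) (n false (n false e e) (n false e e))) (n false e e)) e)) (c 10 4101 v (u 8 16 (k v (k (c 16 4097 r (u 24 1 (k v (k v r)))) (k (c 16 4097 r r) (k (c 24 4096 r (u 16 0 (k (u 32 0 (k v (k v r))) r))) (k (c 24 4097 r (u 16 7 (k v (k (u 32 0 (k v (k v r))) r)))) (k (c 24 4097 r r) (k (c 24 4097 r r) (k (c 24 4097 r r) (k (c 24 4097 r r) (k (c 24 4097 r r) r))))))))))))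
 (.s 0x773fbb00551144474abfc00 4095 (n false (n false (n true (z 87) e) (n false (n false (n false (n false e e) (n false e e)) (n false (n false e e) (n false e e))) (n false e e))) (n true (n false (z 120) e) e)) (u 9 19 (k (u 8 1 (k v (k v r))) (k (c 8 4099 r v) (k (t 25 2 r) (k (c 25 4096 r (c 3 4087 r (c 4 4098 (u 2 0 (k v (k v r))) v))) (k (c 17 4099 r (u 8 1 (k r (k r r)))) (k (c 25 4100 r r) (k (c 25 4097 r (u 8 1 (k r (k r r)))) (k (c 25 4099 r r) (k (t 17 1 r) (k (c 25 4097 r (u 8 1 (k r (k r r)))) r)))))))))))
 .z .z) .z))) (.s 0x775445110a88a2297f70070 4077 (n false (n false (z 46) (n true (n false e e) e)) (n false (n true (n false (n false (n false (n false e e) (n false e e)) (n false (n false e e) (n false e e))) (n false e e)) e) (n false (n false (n false e e) (n false e e)) (n false (n false e e) (n false e e))))) (u 4 2 (k v (k (c 12 4099 r (u 8 0 (k v (k v r)))) (k (u 8 1 (k v (k v r))) (k (u 8 1 (k v (k v r))) (k (c 12 4097 r (u 8 1 (k v (k v r)))) (k (c 8 4095 r (u 12 1 (k v (k v r)))) r)))))))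
 (.s 0x77544511095fd400aa22888 4092 (n false (n false (z 156) (n true (n false (n false (n false (n false e e) (n false e e)) (n false (n false e e) (n false e e))) (n false e e)) e)) (n false (n false (n false (n false e e) (n false e e)) (n false (n false e e) (n false e e))) (n false e e))) (u 4 1 (k v (k (c 12 4099 r (u 8 1 (k v (k v r)))) (k (c 8 4098 r (u 12 1 (k v (k v r)))) (k (c 8 4097 r r) (k (c 8 4099 r (u 12 1 (k v (k v r)))) (k (c 8 4095 r (u 12 0 (k v (k v r)))) r)))))))
 (.s 0x774fbb80255fc008aa22888 4084 (n false (n false (n true (n false (z 43) (z 56)) e) (n false e e)) (n false (n false (n false (n false e e) (n false e e)) (n false (n false e e) (n false e e))) (n false e e))) (t 16 1 (u 24 0 (k (u 40 438 (k v (k v (k v (k v (k (t 104 1 (u 72 0 (k v (k v r)))) r)))))) (k (c 40 4096 r (u 56 0 (k v (k v r)))) (k (u 40 1 (k v (k v r))) (k (c 56 4096 r r) r))))))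
 (.s 0x774ebfc025fd4008aa22888 4082 (n false (n false (n true (n false (z 14) (z 121)) e) (n false e e)) (n false (n false (n false (n false e e) (n false e e)) (n false (n false e e) (n false e e))) (n false e e))) (t 16 1 (u 24 1 (k v (k (c 56 4099 r (u 40 1 (k v (k v r)))) (k (c 40 4097 r (u 56 1 (k v (k v r)))) (k (c 40 4095 r (u 56 0 (k v (k v r)))) (k (c 40 4095 r (u 56 0 (k v (k v r)))) r)))))))
 .z .z) (.s 0x774feac027d5c008aa22888 4082 (n false (n false (n true (n false (z 71) (z 35)) e) (n false e e)) (n false (n false (n false (n false e e) (n false e e)) (n false (n false e e) (n false e e))) (n false e e))) (t 24 1 (u 16 1 (k v (k (c 48 4099 r (u 32 1 (k v (k v r)))) (k (u 32 0 (k v (k v r))) (k (c 32 4099 r (u 48 1 (k v (k v r)))) (k (c 32 4099 r (u 48 1 (k v (k v r)))) (k (c 32 4099 r (u 48 1 (k v (k v r)))) r))))))))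
 .z .z)) (.s 0x775445110a775600aa22888 4094 (n false (n false (n false (z 69) e) (n true (n false (n false (n false (n false e e) (n false e e)) (n false (n false e e) (n false e e))) (n false e e)) e)) (n false (n false (n false (n false e e) (n false e e)) (n false (n false e e) (n false e e))) (n false e e))) (u 8 6 (k v (k v (k (t 24 3 (u 16 2 (k v (k v r)))) (k (t 24 2 (u 16 0 (k v (k (c 48 4099 r (u 32 0 (k v (k v r)))) r)))) r)))))
 (.s 0x7754451109dd70075445110 4088 (n false (n false (z 37) (n true (n false (n false (n false (n false e e) (n false e e)) (n false (n false e e) (n false e e))) (n false e e)) e)) (n true (n false (n false (n false (n false e e) (n false e e)) (n false (n false e e) (n false e e))) (n false e e)) e)) (u 4 9 (k v (k (u 8 3 (k v (k v r))) (k (c 10 4099 v (u 8 0 (k (t 16 3 (t 24 1 v)) r))) (k (c 10 4099 v (u 8 0 (k (t 16 3 (t 24 1 v)) r))) (k (u 8 2 (k v (k v (k v (k (t 24 1 (u 16 0 (k (t 32 3 (t 48 1 v)) r))) r))))) (k r r)))))))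
 .z .z) .z)) (.s 0x775445110e5ddc00aa22888 4089 (n false (n false (n true (z 42) e) (n true (n false (n false (n false (n false e e) (n false e e)) (n false (n false e e) (n false e e))) (n false e e)) e)) (n false (n false (n false (n false e e) (n false e e)) (n false (n false e e) (n false e e))) (n false e e))) (u 8 29 (k v (k v (k (t 24 1 (u 16 0 (k (u 32 2 (k v (k (c 10 4099 v (c 16 4084 (u 4 1 (k v (k v r))) v)) r))) r))) (k (u 16 2 (k v (k v r))) (k (c 10 4099 v r) (k (c 10 4099 v r) r)))))))
 (.s 0x775445110a88a229dd70070 4084 (n false (n false (z 37) (n true (n false e e) e)) (n false (n true (n false (n false (n false (n false e e) (n false e e)) (n false (n false e e) (n false e e))) (n false e e)) e) (n false (n false (n false e e) (n false e e)) (n false (n false e e) (n false e e))))) (u 4 23 (k v (k v (k (u 8 0 (k (t 16 3 (t 24 1 v)) r)) (k (u 8 2 (k v (k v (k v (k (t 24 1 (u 16 0 (k (t 32 3 (t 48 1 v)) r))) r))))) (k (u 8 2 (k v (k (t 24 2 (c 3 4096 v r)) r))) r))))))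
 (.s 0x775445110a88a229d7f8070 4084 (n false (n false (z 121) (n true (n false e e) e)) (n false (n true (n false (n false (n false (n false e e) (n false e e)) (n false (n false e e) (n false e e))) (n false e e)) e) (n false (n false (n false e e) (n false e e)) (n false (n false e e) (n false e e))))) (u 4 1 (k v (k (c 12 4099 r (u 8 1 (k v (k v r)))) (k (c 8 4097 r (u 12 1 (k v (k v r)))) (k (c 8 4095 r (c 3 4096 v r)) (k (c 8 4095 r (c 3 4096 v r)) r))))))
 .z .z) (.s 0x775445110e577c00aa22888 4090 (n false (n false (n true (z 52) e) (n true (n false (n false (n false (n false e e) (n false e e)) (n false (n false e e) (n false e e))) (n false e e)) e)) (n false (n false (n false (n false e e) (n false e e)) (n false (n false e e) (n false e e))) (n false e e))) (u 8 142 (k v (k v (k v (k v (k v (k v (k v (k v (k (t 24 1 (c 10 4099 v r)) r))))))))))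
 .z .z)) (.s 0x775445110e7d5600e57fe00 4086 (n false (n true (z 124) e) (n false (n true (z 67) e) (n true (n false (n false (n false (n false e e) (n false e e)) (n false (n false e e) (n false e e))) (n false e e)) e))) (c 4 4099 r (c 11 4099 v r))
 (.s 0x775445110e5ffe00aa22888 4091 (n false (n false (n true (z 126) e) (n true (n false (n false (n false (n false e e) (n false e e)) (n false (n false e e) (n false e e))) (n false e e)) e)) (n false (n false (n false (n false e e) (n false e e)) (n false (n false e e) (n false e e))) (n false e e))) (u 8 3 (k v (k (t 24 1 (u 16 0 (k v (k v (k (c 48 4099 r (u 32 0 (k v (k v r)))) r))))) (k (t 24 1 (u 16 18 (k v (k (c 48 4099 r (u 32 26 (k v (k v (k v r))))) r)))) r))))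
 .z .z) .z))))

set_option maxRecDepth 100000 in
def N216 : NT :=
(.s 0x77cfeec00aa22888e5fd400 4092 (n false (n false (n true (n true (z 87) e) e) (n false (n false (n false (n false e e) (n false e e)) (n false (n false e e) (n false e e))) (n false e e))) (n true (z 14) e)) (c 6 4099 v (u 5 0 (k (u 16 1 (k v (k v r))) (k (u 16 1 (k v (k v r))) r))))
 (.s 0x77573bae00421f544511050 4066 (n false (n false (n true (n false (n false (n false (n true (z 37) e) (n false e e)) e) (n false e e)) e) (n true (n true (n false (n false (n false (n false e e) (n false e e)) (n false (n false e e) (n false e e))) (n false e e)) e) e)) (n false (n false e e) e)) (u 128 23 (k v (k v (k (u 256 0 (k (t 512 3 (t 768 1 v)) r)) (k (u 256 9 (k v (k v (k (t 768 1 (u 512 0 (k (t 1024 3 (t 1536 1 v)) r))) r)))) (k (u 256 3 (k v (k v r))) r))))))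
 (.s 0x7754eef801154451108ee10 4066 (n false (n false (n true (n false (n false (n false (z 53) e) (n false e e)) (n false (n false (n false (n false e e) (n false e e)) (n false (n false e e) (n false e e))) (n false e e))) e) (n false e e)) (n true (n false (n true (n false e e) e) (n false e e)) e)) (c 24 4099 v (u 64 0 (k (t 192 1 (u 128 1 (k v (k (u 256 1 (k v (k v r))) (k (c 384 4099 r (u 256 0 (k v (k v r)))) (k (u 256 1 (k v (k v r))) (k (c 384 4097 r (u 256 1 (k v (k v r)))) (k (c 256 4095 r (u 384 1 (k v (k v r)))) r)))))))) (k (t 192 1 (u 128 4 (k v (k (c 384 4099 r r) (k (c 384 4099 r r) (k (c 384 4099 r (u 256 7 (k v (k v (k v (k (t 768 1 r) r)))))) (k (u 256 37 (k v (k v (k v r)))) (k (c 384 4096 r r) (k (c 256 4099 r r) r))))))))) r))))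
 (.s 0x775445110e7f7600e57fe00 4082 (n false (n false (n true (z 87) e) (n true (n false (n false (n false (n false e e) (n false e e)) (n false (n false e e) (n false e e))) (n false e e)) e)) (n true (z 124) e)) (u 8 1 (k r (k (u 5 2 (k v (k v (k (c 13 4097 r (u 9 1 (k v (k v r)))) (k (c 13 4096 r (u 9 1 (k v (k v r)))) (k (c 13 4097 r (u 9 1 (k v (k v r)))) (k (c 13 4099 r (u 9 1 (k v (k v r)))) r))))))) r)))
 (.s 0x775445110e7f5600aa22888 4091 (n false (n false (n true (z 71) e) (n true (n false (n false (n false (n false e e) (n false e e)) (n false (n false e e) (n false e e))) (n false e e)) e)) (n false (n false (n false (n false e e) (n false e e)) (n false (n false e e) (n false e e))) (n false e e))) (u 8 1 (k v (k r (k (u 16 71 (k v (k v (k (c 48 4101 r r) (k (c 32 4101 r r) (k (c 32 4101 r r) r)))))) (k (t 24 1 (c 10 4099 v r)) (k (t 24 1 (c 10 4099 v r)) (k (t 24 1 (c 10 4099 v r)) r)))))))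
 .z .z) (.s 0x775445110e7f7600e5ddc00 4085 (n false (n false (n true (z 87) e) (n true (n false (n false (n false (n false e e) (n false e e)) (n false (n false e e) (n false e e))) (n false e e)) e)) (n true (z 42) e)) (u 8 1 (k (u 5 1 (k v (k v r))) (k (u 5 1 (k v (k v r))) r)))
 .z .z)) (.s 0x77573aff00421f544511050 4066 (n false (n false (n true (n false (n false (n false (n true (z 121) e) (n false e e)) e) (n false e e)) e) (n true (n true (n false (n false (n false (n false e e) (n false e e)) (n false (n false e e) (n false e e))) (n false e e)) e) e)) (n false (n false e e) e)) (u 128 2 (k v (k v (k (c 384 4099 r (u 256 1 (k v (k v r)))) (k (c 256 4095 r (u 384 0 (k v (k v r)))) (k (c 256 4095 r (u 384 0 (k v (k v r)))) r))))))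
 (.s 0x7754eef80115445110fb840 4067 (n false (n false (n true (n false (n false (n false (z 53) e) (n false e e)) (n false (n false (n false (n false e e) (n false e e)) (n false (n false e e) (n false e e))) (n false e e))) e) (n true (n true (n false (n true (n false e e) e) (n false e e)) e) e)) e) (c 24 4099 v (u 64 0 (k (t 192 1 (u 128 1 (k v (k (u 256 1 (k v (k v r))) (k (c 384 4099 r (u 256 0 (k v (k v r)))) (k (u 256 9 (k v (k v (k v r)))) (k (c 384 4097 r (u 256 1 (k v (k v r)))) (k (c 256 4095 r (u 384 1 (k v (k v r)))) r)))))))) (k (t 192 1 (u 128 12 (k v (k v (k (c 384 4099 r r) (k (c 384 4099 r r) (k (c 128 4097 r v) (k (c 384 4096 r r) (k (c 256 4099 r r) r))))))))) r))))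
 .z .z) .z)) (.s 0x77cbbb800aa22888a5ddc00 4095 (n false (n false (n true (n true (z 42) e) e) (n false (n false (n false (n false e e) (n false e e)) (n false (n false e e) (n false e e))) (n false e e))) (n false (z 42) e)) (u 16 1 (k (u 5 1 (k v (k v r))) (k (u 5 1 (k v (k v r))) r)))
 (.s 0x7775445110e0e1d3fbb00e0 4074 (n false (n true (n false (z 87) (n true (n false e e) e)) e) (n false (n true (n false (n true (n false (n false (n false (n false e e) (n false e e)) (n false (n false e e) (n false e e))) (n false e e)) e) (n true (n false e e) e)) e) (n true (n false e e) e))) (c 12 4094 v (u 8 1 (k v (k v r))))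
 (.s 0x775d511444221708e7d5600 4083 (n false (n false (n true (n false (n false (n true (n false (n false (n false (n false e e) (n false e e)) (n false (n false e e) (n false e e))) (n false e e)) e) (n false e e)) (n false e e)) e) (n false (n true (n false e e) e) (n false e e))) (n true (z 67) e)) (u 5 28 (k v (k v (k (t 13 1 (u 9 1 (k v (k v r)))) (k (c 8 4094 v r) (k (t 13 1 (u 9 29 (k v (k v (k v (k (c 25 4099 r (u 17 1 (k v (k v r)))) r)))))) (k (c 8 4094 v (c 10 4094 v r)) (k r (k (c 8 4094 v (c 10 4094 v r)) r)))))))))
 .z .z) (.s 0x77caef800aa22888e7d5600 4093 (n false (n false (n true (n true (z 52) e) e) (n false (n false (n false (n false e e) (n false e e)) (n false (n false e e) (n false e e))) (n false e e))) (n true (z 67) e)) (u 16 335 (k (u 5 0 (k v (k v r))) (k (c 10 4101 v r) (k (u 5 0 (k v (k v r))) (k (c 6 4099 v (u 5 0 (k v (k v r)))) (k r (k (t 5 2 v) r)))))))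
 .z .z)) (.s 0x77cfeec00aa22888a5ddc00 4093 (n false (n false (n true (n true (z 87) e) e) (n false (n false (n false (n false e e) (n false e e)) (n false (n false e e) (n false e e))) (n false e e))) (n false (z 42) e)) (u 5 1 (k (u 16 1 (k v (k v r))) (k (u 16 1 (k v (k v r))) r)))
 (.s 0x77cfaac00aa22888a5ddc00 4097 (n false (n false (n true (n true (z 67) e) e) (n false (n false (n false (n false e e) (n false e e)) (n false (n false e e) (n false e e))) (n false e e))) (n false (z 42) e)) (u 16 0 (k (u 5 1 (k v (k v r))) (k (u 5 1 (k v (k v r))) r)))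
 .z .z) .z))) (.s 0x77d53eea009f578020fb840 4066 (n false (n false (n true (n true (n false (n false (n false (z 99) (z 11)) e) (n false e e)) e) e) (n true (n true (n false (n true (n false e e) e) (n false e e)) e) e)) e) (t 192 2 (u 128 4 (k v (k (c 384 4096 r (u 256 1 (k v (k v r)))) (k (c 384 4096 r r) (k (c 384 4096 r r) (k (c 384 4096 r r) r)))))))
 (.s 0x77d53eea0095d780208ee10 4065 (n false (n false (n true (n true (n false (n false (n false (z 100) (z 11)) e) (n false e e)) e) e) (n false e e)) (n true (n false (n true (n false e e) e) (n false e e)) e)) (t 192 2 (u 128 0 (k (c 384 4096 r (u 256 1 (k v (k v r)))) (k (c 384 4096 r r) (k (c 384 4096 r r) (k (c 384 4097 r (u 256 7 (k v (k v (k v (k (c 768 4099 r (u 512 1 (k v (k v r)))) r)))))) (k (c 384 4096 r r) (k (c 384 4096 r r) r))))))))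
 (.s 0x77d53aff00955500208ee10 4063 (n false (n false (n true (n true (n false (n false (n false (z 121) (z 0)) e) (n false e e)) e) e) (n false e e)) (n true (n false (n true (n false e e) e) (n false e e)) e)) (t 192 1 (u 128 1 (k v (k (c 384 4099 r (u 256 1 (k v (k v r)))) (k (c 256 4097 r (u 384 1 (k v (k v r)))) (k (c 256 4095 r (u 384 0 (k v (k v r)))) (k (c 256 4095 r (u 384 0 (k v (k v r)))) r)))))))
 (.s 0x77cfef800aa22888e7d5600 4094 (n false (n false (n true (n true (z 55) e) e) (n false (n false (n false (n false e e) (n false e e)) (n false (n false e e) (n false e e))) (n false e e))) (n true (z 67) e)) (c 4 4088 r (u 5 0 (k v (k v r))))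
 .z .z) (.s 0x77d53aff0095550020fb840 4064 (n false (n false (n true (n true (n false (n false (n false (z 121) (z 0)) e) (n false e e)) e) e) (n true (n true (n false (n true (n false e e) e) (n false e e)) e) e)) e) (t 192 1 (u 128 1 (k v (k (c 384 4099 r (u 256 1 (k v (k v r)))) (k (c 256 4097 r (u 384 1 (k v (k v r)))) (k (c 256 4095 r (u 384 0 (k v (k v r)))) (k (c 256 4095 r (u 384 0 (k v (k v r)))) r)))))))
 .z .z)) (.s 0x77d53eea009f5780208ee10 4065 (n false (n false (n true (n true (n false (n false (n false (z 11) (z 99)) e) (n false e e)) e) e) (n false e e)) (n true (n false (n true (n false e e) e) (n false e e)) e)) (t 128 2 (u 192 0 (k (c 448 4096 r (u 320 1 (k v (k v r)))) (k (c 448 4096 r r) (k (c 448 4096 r r) (k (c 448 4096 r r) (k (c 448 4096 r r) r)))))))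
 (.s 0x77d53eea0095d78020fb840 4066 (n false (n false (n true (n true (n false (n false (n false (z 100) (z 11)) e) (n false e e)) e) e) (n true (n true (n false (n true (n false e e) e) (n false e e)) e) e)) e) (t 192 2 (u 128 2 (k v (k (c 384 4096 r (u 256 1 (k v (k v r)))) (k (c 384 4096 r r) (k (c 384 4097 r (u 256 11 (k v (k v (k v (k (c 768 4099 r (u 512 1 (k v (k v r)))) r)))))) (k (c 384 4096 r r) (k (c 384 4096 r r) r))))))))
 .z .z) .z)) (.s 0x77dd3aff00e0faa22888088 4064 (n false (n false (n true (n true (n false (n true (n false (z 121) (n true (n false e e) e)) e) (n true (n true (n false (n false (n false (n false e e) (n false e e)) (n false (n false e e) (n false e e))) (n false e e)) e) e)) e) e) (n false e e)) (n false e e)) (u 128 1 (k v (k (c 384 4099 r (u 256 1 (k v (k v r)))) (k (c 256 4097 r (u 384 1 (k v (k v r)))) (k (c 256 4095 r (u 384 0 (k v (k v r)))) (k (c 256 4095 r (u 384 0 (k v (k v r)))) r))))))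
 (.s 0x77d53eff0095550020fb840 4064 (n false (n false (n true (n true (n false (n false (n false (z 123) (z 0)) e) (n false e e)) e) e) (n true (n true (n false (n true (n false e e) e) (n false e e)) e) e)) e) (t 192 1 (u 128 4 (k v (k (c 384 4099 r (u 256 8 (k v (k v (k v r))))) (k r (k (u 256 33 (k v (k v (k (c 768 4101 r r) (k (c 768 4099 r r) (k (c 768 4096 r (u 512 0 (k (u 1024 126 (k v (k v (k v r)))) r))) (k (c 512 4101 r r) (k (c 512 4099 r r) (k (c 512 4101 r r) r))))))))) (k (c 256 4096 r (u 384 1 (k v (k v r)))) (k (c 384 4097 r r) r))))))))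
 (.s 0x77d53eff00955500208ee10 4063 (n false (n false (n true (n true (n false (n false (n false (z 123) (z 0)) e) (n false e e)) e) e) (n false e e)) (n true (n false (n true (n false e e) e) (n false e e)) e)) (t 192 1 (u 128 4 (k v (k (c 384 4099 r (u 256 2 (k v (k v (k v (k (t 768 2 r) r)))))) (k r (k (u 256 22 (k v (k v (k (c 768 4101 r r) (k (c 768 4099 r r) (k (c 768 4096 r (u 512 0 (k (u 1024 23 (k v (k v r))) r))) (k (c 512 4098 r r) (k (c 512 4101 r r) (k (c 512 4099 r r) (k (c 512 4101 r r) r)))))))))) (k (c 256 4096 r (u 384 1 (k v (k v r)))) (k (c 384 4097 r r) r))))))))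
 .z .z) (.s 0x77dd2fee00e0faa22888088 4064 (n false (n false (n true (n true (n false (n true (n false (z 46) (n true (n false e e) e)) e) (n true (n true (n false (n false (n false (n false e e) (n false e e)) (n false (n false e e) (n false e e))) (n false e e)) e) e)) e) e) (n false e e)) (n false e e)) (u 128 1 (k v (k (u 256 1 (k v (k v r))) (k (c 384 4099 r (u 256 0 (k v (k v r)))) (k (u 256 1 (k v (k v r))) (k (c 384 4097 r (u 256 1 (k v (k v r)))) (k (c 256 4095 r (u 384 1 (k v (k v r)))) r)))))))
 .z .z)) (.s 0x77dd3fbf00e0faa22888088 4065 (n false (n false (n true (n true (n false (n true (n false (z 119) (n true (n false e e) e)) e) (n true (n true (n false (n false (n false (n false e e) (n false e e)) (n false (n false e e) (n false e e))) (n false e e)) e) e)) e) e) (n false e e)) (n false e e)) (u 128 1 (k (c 384 4101 r r) (k (c 256 4096 r (u 384 0 (k (t 640 3 (t 896 1 v)) r))) (k (c 256 4096 r r) (k (t 256 1 (c 144 4099 v (c 8 4061 r v))) (k (c 384 4099 r r) (k (c 384 4097 r r) (k (c 64 4086 r v) (k (c 256 4098 r r) (k (t 384 1 (c 144 4099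 v (c 8 4063 r v))) (k (c 256 4101 r r) (k (c 256 4099 r r) (k (t 384 1 (c 144 4099 v (c 8 4063 r v))) (k (c 256 4101 r r) r))))))))))))))
 (.s 0x77dd3bae00e0faa22888088 4064 (n false (n false (n true (n true (n false (n true (n false (z 37) (n true (n false e e) e)) e) (n true (n true (n false (n false (n false (n false e e) (n false e e)) (n false (n false e e) (n false e e))) (n false e e)) e) e)) e) e) (n false e e)) (n false e e)) (u 128 0 (k v (k (u 256 0 (k (t 512 3 (t 768 1 v)) r)) (k (u 256 0 (k (t 512 3 (t 768 1 v)) r)) (k r (k r (k r r)))))))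
 .z .z) .z))))

set_option maxRecDepth 100000 in
def N217 : NT :=
(.s 0x7dcbbb8012bbe0052bbe008 4092 (n false (n true (n false (n true (z 42) e) (z 52)) e) (n false (z 52) (n false e e))) (u 16 1 (k (t 5 1 r) (k (t 5 1 r) r)))
 (.s 0x7d4abe80255540053eab008 4083 (n false (n false (z 67) (n false e e)) (n true (n false (n false (z 24) (z 0)) e) e)) (t 25 1 (u 17 0 (k (t 33 3 (t 49 1 (u 4 115 (k v (k (c 12 4099 r r) (k (c 8 4096 r r) (k (c 8 4096 r r) (k (c 12 4097 r r) (k (c 12 4099 r r) (k r (k (c 12 4097 r r) (k (c 12 4099 r (c 3 4094 v r)) (k (c 8 4100 r r) (k (c 12 4099 r (u 8 0 (k (u 16 0 (k v (k v r))) r))) (k (c 8 4099 r r) (k (c 12 4099 r r) (k (c 8 4099 r (u 12 0 (k (u 20 0 (k v (k v r))) r))) (k (c 12 4100 r r) (k (c 12 4100 r r) (k (c 12 4099 r r) (k (c 12 4099 r r) (k (c 12 4100 r r) (k (c 12 4099 r r) r))))))))))))))))))))))) r)))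
 (.s 0x7d3baa0097f7003bb842e10 4078 (n false (n true (n false (z 46) (z 5)) e) (n true (n false (n true (n false (n true (n false e e) e) (n false e e)) e) (n false (n true (n false e e) e) (n false e e))) e)) (t 12 1 (u 8 2 (k v (k (c 24 4099 r (u 16 0 (k v (k v r)))) (k r (k (c 2 4088 (c 10 4101 v r) v) (k (c 24 4097 r r) (k (c 16 4095 r r) r))))))))
 (.s 0x7d2bfa8013baa00575110e0 4082 (n false (n true (n false (z 156) (z 5)) e) (n false (n false (n true (n false (n false (n false e e) (n false e e)) (n false e e)) e) (n true (n false e e) e)) e)) (t 12 1 (u 8 8 (k v (k v (k (c 24 4099 r (u 16 1 (k v (k v r)))) (k (c 16 4098 r (u 24 1 (k v (k v r)))) (k (c 16 4097 r (u 24 1 (k v (k v r)))) (k (c 16 4099 r (u 24 1 (k v (k v r)))) r))))))))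
 (.s 0x7d2bfa8012bbe0052bbe008 4093 (n false (n false (z 52) (n false e e)) (n true (n false (z 52) (z 156)) e)) (u 13 8 (k (t 4 1 r) (k (c 5 4064 r r) (k (c 29 4099 r r) (k (c 21 4098 r r) (k (c 21 4097 r r) (k (c 21 4099 r r) r)))))))
 .z .z) (.s 0x7d2bfa8013baa0074feec00 4098 (n false (n true (n false (z 87) e) e) (n true (n false (z 156) (z 5)) e)) (t 13 1 (u 9 33 (k r (k (u 8 0 (k v (k v r))) (k (c 13 4099 v (u 8 1 (k v (k v r)))) (k (u 8 0 (k v (k v r))) (k (c 25 4099 r r) r)))))))
 .z .z)) (.s 0x7d3fbb009dd7002aa228888 4092 (n false (n true (n false (z 87) (z 37)) e) (n false (n false (n false (n false (n false e e) (n false e e)) (n false (n false e e) (n false e e))) (n false e e)) (n false e e))) (c 9 4101 v (u 8 0 (k r (k (t 12 1 v) r))))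
 (.s 0x7d3bee009555003f9d75800 4095 (n false (n true (n true (n true (z 73) e) e) e) (n true (n false (z 45) (z 0)) e)) (t 13 1 (u 16 0 (k (u 32 164 (k (u 9 7 (k v (k v r))) (k (u 9 0 (k v (k v r))) (k (c 3 4096 (t 4 1 v) v) (k (t 9 1 v) (k (c 64 4101 r (u 96 0 (k (u 9 7 (k v (k v r))) (k (u 9 7 (k v (k v r))) r)))) (k (c 16 4088 r (c 3 4096 (t 4 1 v) v)) (k (c 96 4101 r r) (k (c 96 4102 r r) (k (c 64 4101 r r) (k (c 64 4101 r r) r))))))))))) r)))
 .z .z) .z)) (.s 0x7d54451115445110e7dfe00 4098 (n false (n true (z 123) e) (n true (n false (n false (n false (n false (n false e e) (n false e e)) (n false (n false e e) (n false e e))) (n false e e)) (n false (n false (n false (n false e e) (n false e e)) (n false (n false e e) (n false e e))) (n false e e))) e)) (u 4 4 (k v (k (c 12 4099 r (u 8 0 (k v (k v (k v (k (t 24 2 r) r)))))) (k (c 9 4099 v r) (k (u 8 40 (k v (k v (k v (k (t 24 1 r) (k (c 16 4097 r (c 9 4099 v r)) (k (c 24 4097 r r) (k (c 24 4097 r (u 16 4 (k v (k v (k (c 48 4099 r (u 32 1 (k v (k v r)))) (k (c 32 4097 r r) r)))))) (k (c 24 4097 r (c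 9 4099 v r)) (k (c 24 4097 r r) r)))))))))) (k (c 8 4096 r (u 12 1 (k v (k v r)))) (k (c 12 4097 r (c 9 4099 v r)) r)))))))
 (.s 0x7d54451115445110a7d5600 4096 (n false (n false (z 67) e) (n true (n false (n false (n false (n false (n false e e) (n false e e)) (n false (n false e e) (n false e e))) (n false e e)) (n false (n false (n false (n false e e) (n false e e)) (n false (n false e e) (n false e e))) (n false e e))) e)) (u 4 54 (k v (k v (k v (k v (k (c 12 4099 r r) (k (c 12 4097 r r) (k (c 12 4099 r r) (k (c 2 4088 r v) (k (c 12 4099 r (u 8 0 (k (u 16 0 (k v (k v r))) r))) (k (c 8 4099 r r) (k (c 12 4099 r r) (k (c 8 4099 r (u 12 0 (k (u 20 0 (k v (k v r))) r))) (k (c 12 4099 r r) (k (c 12 4099 r r) (k (c 12 4099 r r) r))))))))))))))))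
 (.s 0x7d4fab8012bbe007cbbb800 4094 (n false (n true (n false (z 52) (n false (z 35) e)) e) (n true (n true (z 42) e) e)) (u 20 9 (k (c 8 4097 r (u 9 1 (k v (k v r)))) (k (c 8 4097 r (u 9 1 (k v (k v r)))) (k (t 52 1 (u 36 0 (k (t 68 3 (t 100 1 (u 8 323 (k (u 9 1 (k v (k v r))) (k (c 20 4096 v (u 9 1 (k v (k v r)))) (k (c 4 4085 v r) (k (u 9 1 (k v (k v r))) r))))))) r))) r))))
 .z .z) (.s 0x7d54451115445110e75fe00 4098 (n false (n true (z 121) e) (n true (n false (n false (n false (n false (n false e e) (n false e e)) (n false (n false e e) (n false e e))) (n false e e)) (n false (n false (n false (n false e e) (n false e e)) (n false (n false e e) (n false e e))) (n false e e))) e)) (u 4 4 (k v (k v (k (c 12 4099 r (u 8 1 (k v (k v r)))) (k (c 8 4097 r (u 12 1 (k v (k v r)))) r)))))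
 .z .z)) (.s 0x7d754451108852bbe00ee10 4082 (n false (n false (z 52) (n true (n false (n true (n false e e) e) (n false e e)) e)) (n true (n false (n false (n true (n false (n false (n false (n false e e) (n false e e)) (n false (n false e e) (n false e e))) (n false e e)) e) (n false e e)) (n false e e)) e)) (c 33 4099 v (u 4 213 (k v (k v (k v (k v (k (t 12 1 (u 8 0 (k v (k v r)))) r)))))))
 (.s 0x7d54451115445110e7f7e00 4098 (n false (n true (z 119) e) (n true (n false (n false (n false (n false (n false e e) (n false e e)) (n false (n false e e) (n false e e))) (n false e e)) (n false (n false (n false (n false e e) (n false e e)) (n false (n false e e) (n false e e))) (n false e e))) e)) (u 4 15 (k v (k v (k (c 12 4101 r r) (k (c 12 4099 r r) (k (c 12 4097 r r) (k (c 12 4096 r (u 8 0 (k (u 16 25 (k v (k v (k v (k v (k (c 32 4101 r (c 9 4099 v (u 48 0 (k v (k v r))))) (k (c 8 4088 r v) (k (c 48 4101 r r) (k (c 48 4102 r r) (k (c 32 4101 r r) (k (c 32 4101 r r) r))))))))))) r))) (k (c 8 4098 r r) (k (c 8 4101 r r) (k (c 8 4099 r r) (k (c 8 4101 r r) r)))))))))))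
 .z .z) .z))) (.s 0x7dd3aff00e0faa228881708 4064 (n false (n true (n false (n true (n false (z 121) (n true (n false e e) e)) e) (n true (n true (n false (n false (n false (n false e e) (n false e e)) (n false (n false e e) (n false e e))) (n false e e)) e) e)) e) (n false (n true (n false e e) e) (n false e e))) (u 32 1 (k v (k (c 96 4099 r (u 64 1 (k v (k v r)))) (k (c 64 4097 r (u 96 1 (k v (k v r)))) (k (c 64 4095 r (u 96 0 (k v (k v r)))) (k (c 64 4095 r (u 96 0 (k v (k v r)))) r))))))
 (.s 0x7dcfeec012bbe0052bbe008 4090 (n false (n true (n false (z 52) (n true (z 87) e)) e) (n false (z 52) (n false e e))) (u 20 1 (k (t 5 1 r) (k (t 5 1 r) r)))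
 (.s 0x7dcbbb8015445110eb84740 4081 (n false (n true (n false (n true (z 42) e) (n false (n false (n false (n false e e) (n false e e)) (n false (n false e e) (n false e e))) (n false e e))) e) (n true (n false (n true (n false (n false e e) e) e) (n false (n true (n false e e) e) (n false e e))) e)) (c 2 4088 (c 10 4101 v r) v)
 (.s 0x7dcbbb8015445110bae1070 4083 (n false (n true (n false (n true (z 42) e) (n false (n false (n false (n false e e) (n false e e)) (n false (n false e e) (n false e e))) (n false e e))) e) (n false (n true (n false (n false (n true (n false e e) e) (n false e e)) e) e) (n true (n false e e) e))) (c 2 4088 (c 10 4101 v r) v)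
 .z .z) (.s 0x7dcfaac012bbe007cbbb800 4095 (n false (n true (n false (z 52) (n true (z 67) e)) e) (n true (n true (z 42) e) e)) (u 20 0 (k r (k (c 12 4093 v (u 9 1 (k r (k r r)))) r)))
 .z .z)) (.s 0x7dd2fee00e0faa228881708 4064 (n false (n true (n false (n true (n false (z 46) (n true (n false e e) e)) e) (n true (n true (n false (n false (n false (n false e e) (n false e e)) (n false (n false e e) (n false e e))) (n false e e)) e) e)) e) (n false (n true (n false e e) e) (n false e e))) (u 32 1 (k v (k (u 64 1 (k v (k v r))) (k (c 96 4099 r (u 64 0 (k v (k v r)))) (k (u 64 1 (k v (k v r))) (k (c 96 4097 r (u 64 1 (k v (k v r)))) (k (c 64 4095 r (u 96 1 (k v (k v r)))) r)))))))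
 (.s 0x7dcfeec012bbe007cbbb800 4091 (n false (n true (n true (z 42) e) e) (n true (n false (z 52) (n true (z 87) e)) e)) (u 9 169 (k (u 21 1 (k (u 8 1 (k v (k v r))) (k (u 8 1 (k v (k v r))) r))) (k (c 21 4099 r (u 8 1 (k v (k v r)))) (k (c 5 4082 (u 5 1 (k v (k v r))) r) (k (t 25 1 (u 21 1 (k r (k (u 17 2 (k (u 8 1 (k v (k v r))) (k (u 8 1 (k v (k v r))) r))) r)))) r)))))
 .z .z) .z)) (.s 0x7dd5114442e10a775c01708 4079 (n false (n false (z 37) (n false (n true (n false e e) e) (n false e e))) (n true (n false (n false (n true (n false e e) e) (n false e e)) (n true (n false (n false (n false (n false e e) (n false e e)) (n false (n false e e) (n false e e))) (n false e e)) e)) e)) (c 21 4099 v (c 17 4094 v r))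
 (.s 0x7dd3fbf00e0faa228881708 4065 (n false (n true (n false (n true (n false (z 119) (n true (n false e e) e)) e) (n true (n true (n false (n false (n false (n false e e) (n false e e)) (n false (n false e e) (n false e e))) (n false e e)) e) e)) e) (n false (n true (n false e e) e) (n false e e))) (u 32 1 (k (c 96 4101 r r) (k (c 64 4096 r (u 96 0 (k (t 160 3 (t 224 1 v)) r))) (k (c 64 4096 r r) (k (t 64 1 (c 36 4099 v (c 2 4061 r v))) (k (c 96 4099 r r) (k (c 96 4097 r r) (k (c 16 4086 r v) (k (c 64 4098 r r) (k (t 96 1 (c 36 4099 v (c 2 4063 r v))) (k (c 64 4101 r r) (k (c 64 4099 r r) (k (t 96 1 (c 36 4099 v (c 2 4063 r v))) (k (c 64 4101 r r) r))))))))))))))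
 (.s 0x7dd3bae00e0faa228881708 4064 (n false (n true (n false (n true (n false (z 37) (n true (n false e e) e)) e) (n true (n true (n false (n false (n false (n false e e) (n false e e)) (n false (n false e e) (n false e e))) (n false e e)) e) e)) e) (n false (n true (n false e e) e) (n false e e))) (u 32 0 (k v (k (u 64 0 (k (t 128 3 (t 192 1 v)) r)) (k (u 64 0 (k (t 128 3 (t 192 1 v)) r)) (k r (k r (k r r)))))))
 .z .z) (.s 0x7dd4abe80255540013eab00 4093 (n false (n true (n false (n true (n false (n false (z 24) (z 0)) e) e) e) e) (z 67)) (t 96 1 (u 64 0 (k (t 128 3 (t 192 1 (u 3 103 (k v (k v (k v (k v (k v (k (t 7 1 (u 5 1 (k v (k v r)))) (k (t 7 1 (u 5 0 (k (u 9 0 (k v (k v r))) r))) (k (c 7 4101 r (u 5 1 (k v (k v r)))) (k (t 7 1 (u 5 9 (k v (k v (k v (k (c 13 4099 r (u 9 1 (k v (k v r)))) r)))))) (k (c 7 4102 r (u 5 1 (k v (k v r)))) (k (c 5 4101 r (u 7 1 (k v (k v r)))) (k r (k (c 5 4101 r (u 7 1 (k v (k v r)))) r)))))))))))))))) r)))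
 .z .z)) (.s 0x7df2bbe002a88a2213eab00 4093 (n false (n true (n false (n true (n true (z 52) e) e) (n false (n false (n false (n false e e) (n false e e)) (n false (n false e e) (n false e e))) (n false e e))) e) (z 67)) (u 32 340 (k r (k (c 20 4101 v r) (k (c 12 4099 v (u 3 0 (k v (k v r)))) (k (c 20 4101 v r) (k r (k (t 3 2 v) r)))))))
 (.s 0x7dd5114442e10aa5df40088 4080 (n false (n false (n false (n false (z 26) e) (n false e e)) (n false e e)) (n true (n false (n false (n true (n false e e) e) (n false e e)) (n true (n false (n false (n false (n false e e) (n false e e)) (n false (n false e e) (n false e e))) (n false e e)) e)) e)) (u 16 2 (k v (k (c 8 4084 (u 4 1 (k v (k v r))) v) r)))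
 .z .z) .z))))

set_option maxRecDepth 100000 in
def N218 : NT :=
(.s 0x3aa7754012fee00ea88a2210 4092 (n false (n false (n false (n false (z 46) (z 5)) (n true (n false (n false (n false (n false e e) (n false e e)) (n false (n false e e) (n false e e))) (n false e e)) e)) (n false e e)) e) (t 24 1 (u 16 10 (k v (k (c 48 4099 r (u 32 0 (k v (k v r)))) (k (u 32 0 (k v (k v r))) r)))))
 (.s 0x3a7754013afb00bea88a2208 4083 (n false (n false (z 89) (z 5)) (n false (n true (n true (n false (n false (n false (n false e e) (n false e e)) (n false (n false e e) (n false e e))) (n false e e)) e) e) (n false e e))) (t 6 2 (u 4 59 (k v (k v (k v (k v (k (t 12 3 r) (k (t 12 3 r) (k (t 8 1 (c 6 4094 v (u 12 2 (k v (k v r))))) (k (t 12 2 (c 6 4094 v (u 8 19 (k v (k v (k v r)))))) r))))))))))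
 (.s 0x7df74eeb80383ea88a22020 4066 (n false (n true (n false (n true (n true (n false (n true (n false (z 37) (n true (n false e e) e)) e) (n true (n true (n false (n false (n false (n false e e) (n false e e)) (n false (n false e e) (n false e e))) (n false e e)) e) e)) e) e) (n false e e)) e) e) (u 256 0 (k v (k (c 288 4099 v (c 16 4069 (u 32 0 (k (t 64 3 (t 96 1 v)) r)) v)) (k (u 512 0 (k (t 1024 3 (t 1536 1 v)) r)) (k (c 16 4072 (c 18 4099 v r) v) (k r (k r r)))))))
 (.s 0x7df74ebac0383ea88a22020 4068 (n false (n true (n false (n true (n true (n false (n true (n false (z 73) (n true (n false e e) e)) e) (n true (n true (n false (n false (n false (n false e e) (n false e e)) (n false (n false e e) (n false e e))) (n false e e)) e) e)) e) e) (n false e e)) e) e) (c 288 4099 v (c 16 4070 (u 16 0 (k (u 32 0 (k v (k v r))) r)) v))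
 (.s 0x7df74bfb80383ea88a22020 4066 (n false (n true (n false (n true (n true (n false (n true (n false (z 46) (n true (n false e e) e)) e) (n true (n true (n false (n false (n false (n false e e) (n false e e)) (n false (n false e e) (n false e e))) (n false e e)) e) e)) e) e) (n false e e)) e) e) (c 288 4099 v (c 16 4067 r v))
 .z .z) (.s 0x7df74ebfc0383ea88a22020 4066 (n false (n true (n false (n true (n true (n false (n true (n false (z 121) (n true (n false e e) e)) e) (n true (n true (n false (n false (n false (n false e e) (n false e e)) (n false (n false e e) (n false e e))) (n false e e)) e) e)) e) e) (n false e e)) e) e) (u 256 1 (k v (k (c 768 4099 r (u 512 1 (k v (k v r)))) (k (c 512 4097 r r) (k (c 512 4095 r (u 768 0 (k v (k v r)))) (k (c 512 4095 r (u 768 0 (k v (k v r)))) r))))))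
 .z .z)) (.s 0x3a7754012fee00feea228840 4080 (n false (n false (z 46) (z 5)) (n true (n true (n true (n false (n true (n false (n false (n false e e) (n false e e)) (n false (n false e e) (n false e e))) e) (n false e e)) e) e) e)) (t 6 1 (u 4 10 (k v (k (c 12 4099 r (u 8 0 (k v (k v r)))) (k (c 3 4083 v (c 10 4101 v r)) r)))))
 (.s 0x3a57f5002775401f77085c20 4078 (n false (n false (z 156) (z 5)) (n true (n true (n false (n true (n false (n true (n false e e) e) (n false e e)) e) (n false (n true (n false e e) e) (n false e e))) e) e)) (t 6 1 (u 4 2 (k v (k (c 12 4099 r (u 8 1 (k v (k v r)))) (k (c 8 4095 r (u 12 0 (k v (k v r)))) r)))))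
 .z .z) .z)) (.s 0x3a95f5004aef803852eee008 4083 (n false (n false (n false (z 52) (z 12)) (n true (n false e e) e)) (n false (z 42) (n false e e))) (t 12 3 (u 5 86 (k r (k (c 12 4110 v r) (k r (k r (k (t 8 1 (c 20 4099 v (c 6 4094 v r))) (k (t 8 1 (c 20 4099 v (c 6 4094 v r))) r))))))))
 (.s 0x3a775c013baa00ea77dc0110 4096 (n false (n true (n false (n false (z 45) (n false e e)) (n false e e)) e) (n false (z 37) (z 5))) (t 7 1 (u 16 0 (k (c 16 4094 v (u 5 1 (k v (k v r)))) (k (u 5 12 (k v (k v (k v r)))) r))))
 (.s 0x3a7754013aff00ea77dc0110 4096 (n false (n false (z 121) (z 5)) (n true (n false (n false (z 45) (n false e e)) (n false e e)) e)) (t 6 1 (u 17 0 (k (c 17 4094 v r) (k (u 4 26 (k v (k v (k v (k (c 12 4099 r (u 8 1 (k v (k v r)))) r))))) r))))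
 .z .z) (.s 0x3a7f76013aff00fbb842a220 4082 (n false (n false (z 121) (z 87)) (n true (n true (n false (n false (n false (n false e e) (n false e e)) (n false e e)) (n true (n false (n true (n false e e) e) (n false e e)) e)) e) e)) (u 4 65 (k (u 6 0 (k v (k v r))) (k (u 6 0 (k v (k v r))) (k (t 6 1 v) (k (t 6 1 v) r)))))
 .z .z)) (.s 0x3aa7754012bff00ea88a2210 4091 (n false (n false (n false (n false (z 124) (z 5)) (n true (n false (n false (n false (n false e e) (n false e e)) (n false (n false e e) (n false e e))) (n false e e)) e)) (n false e e)) e) (t 24 1 (u 16 6 (k v (k v (k (c 48 4097 r (u 32 1 (k v (k v r)))) (k (c 48 4096 r (u 32 1 (k v (k v r)))) (k (c 48 4097 r (u 32 1 (k v (k v r)))) r)))))))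
 (.s 0x3aa75fe01c2a22888aa22888 4083 (n false (n false (n false (n false (z 121) (n true (n false e e) e)) (n false (n false (n false e e) (n false e e)) (n false (n false e e) (n false e e)))) (n false e e)) (n false (n false (n false (n false e e) (n false e e)) (n false (n false e e) (n false e e))) (n false e e))) (u 16 2 (k v (k v (k (c 48 4099 r (u 32 1 (k v (k v r)))) (k (c 32 4095 r (u 48 0 (k v (k v r)))) (k (c 32 4095 r (u 48 0 (k v (k v r)))) r))))))
 .z .z) .z))) (.s 0x3aa88a22275f601fcafea000 4097 (n false (n true (n true (n true (z 156) e) e) e) (n false (z 89) (n false (n false (n false (n false e e) (n false e e)) (n false (n false e e) (n false e e))) (n false e e)))) (c 11 4101 v (u 16 14 (k r (k (u 5 57 (k v (k v (k v r)))) (k (c 48 4099 r r) (k (c 32 4099 r r) (k (c 32 4095 r r) r)))))))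
 (.s 0x3aa7ddc013aeb00ea88a2210 4095 (n false (n false (n false (n false (z 73) (z 43)) (n true (n false (n false (n false (n false e e) (n false e e)) (n false (n false e e) (n false e e))) (n false e e)) e)) (n false e e)) e) (t 24 2 (u 16 0 (k (u 32 62 (k v (k v (k v (k v (k (t 96 2 (u 64 2 (k v (k v r)))) (k (c 96 4099 r (u 64 0 (k (u 128 0 (k v (k v r))) r))) (k (t 64 1 (u 96 2 (k v (k v r)))) (k (c 96 4099 r r) (k (c 64 4099 r (u 96 0 (k (u 160 0 (k v (k v r))) r))) (k (t 96 2 (c 16 4086 r v)) (k (c 96 4099 r r) (k (c 96 4099 r r) (k (c 96 4099 r r) r)))))))))))))) r)))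
 (.s 0x3aa775c012efb00ea88a2210 4093 (n false (n false (n false (n false (z 37) (z 90)) (n true (n false (n false (n false (n false e e) (n false e e)) (n false (n false e e) (n false e e))) (n false e e)) e)) (n false e e)) e) (u 16 2 (k (c 8 4096 (c 3 4098 r v) v) (k (u 24 8 (k v (k v (k v (k (u 40 35 (k v (k v (k (c 104 4099 r (u 72 128 (k v (k v (k v (k v (k v (k v (k v r))))))))) r)))) (k (c 56 4096 r (c 8 4094 r v)) (k (u 40 10 (k v (k v (k (c 104 4097 r (u 72 7 (k v (k v (k v r))))) (k (c 104 4097 r (u 72 7 (k v (k v (k v r))))) r))))) r))))))) r)))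
 (.s 0x3aa775c012bbe00475445110 4084 (n false (n false (n false (n false (z 52) (z 37)) e) (n false e e)) (n true (n false (n false (n false (n false e e) (n false e e)) (n false (n false e e) (n false e e))) (n false e e)) e)) (u 16 74 (k (c 5 4099 v r) (k (c 8 4085 (u 3 1 (k v (k v r))) v) (k (c 8 4085 r v) (k (u 24 45 (k v (k v (k (u 40 28 (k v (k v (k v r)))) (k (u 40 33 (k v (k v (k v (k v r))))) r))))) r)))))
 .z .z) (.s 0x3aa7776013baa00ea88a2210 4091 (n false (n false (n false (n false (z 85) (z 5)) (n true (n false (n false (n false (n false e e) (n false e e)) (n false (n false e e) (n false e e))) (n false e e)) e)) (n false e e)) e) (t 24 1 (u 16 34 (k v (k v (k (c 48 4099 r r) (k (c 48 4099 r (c 8 4091 (c 3 4099 v r) v)) (k (c 32 4099 r r) r)))))))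
 .z .z)) (.s 0x3aa88a2225ddc0153bee0088 4091 (n false (n false (n false (z 45) (n false e e)) (n false e e)) (n false (z 42) (n false (n false (n false (n false e e) (n false e e)) (n false (n false e e) (n false e e))) (n false e e)))) (u 5 71 (k (c 11 4101 v (u 8 6 (k v (k v r)))) (k (c 8 4105 r v) (k (t 9 3 (t 13 1 (u 8 2 (k v (k v r))))) (k (c 3 4090 r (u 8 3 (k v (k v r)))) (k (c 13 4110 r (c 8 4105 r r)) (k r (k r (k (c 3 4090 (c 3 4099 v r) (u 8 3 (k v (k v r)))) (k (c 3 4092 (t 6 2 (c 3 4099 v r)) (u 8 3 (k v (k v r)))) (k (t 13 3 (c 11 4101 v r)) (k (c 3 4090 r (u 8 3 (k v (k v r)))) (k (c 3 4090 r (u 8 3 (k v (k v r)))) r)))))))))))))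
 (.s 0x3aa88a22257f5003aea221c0 4082 (n false (n true (n false (n false (n true (n false (n false (n false e e) (n false e e)) (n false e e)) e) (n true (n false e e) e)) e) e) (n false (z 156) (n false (n false (n false (n false e e) (n false e e)) (n false (n false e e) (n false e e))) (n false e e)))) (u 5 8 (k v (k v (k (c 13 4099 r (u 9 1 (k v (k v r)))) (k (c 9 4098 r (u 13 1 (k v (k v r)))) (k (c 9 4097 r (u 13 1 (k v (k v r)))) (k (c 9 4099 r (u 13 1 (k v (k v r)))) r)))))))
 .z .z) .z)) (.s 0x3aa88a222a88a222a7f56008 4086 (n false (n false (n false (z 71) e) (n false e e)) (n false (n false (n false (n false (n false e e) (n false e e)) (n false (n false e e) (n false e e))) (n false e e)) (n false (n false (n false (n false e e) (n false e e)) (n false (n false e e) (n false e e))) (n false e e)))) (u 8 1 (k v (k (c 24 4099 r (u 16 1 (k v (k v r)))) (k (u 16 116 (k v (k v (k v r)))) (k (c 16 4099 r (u 24 1 (k v (k v r)))) (k (c 16 4099 r (u 24 1 (k v (k v r)))) (k (c 16 4099 r (u 24 1 (k v (k v r)))) r)))))))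
 (.s 0x3aa88a222a88a222a577c010 4092 (n false (n false (n false (z 52) (n false e e)) e) (n false (n false (n false (n false (n false e e) (n false e e)) (n false (n false e e) (n false e e))) (n false e e)) (n false (n false (n false (n false e e) (n false e e)) (n false (n false e e) (n false e e))) (n false e e)))) (u 8 25 (k v (k v (k v (k (t 24 1 (u 16 0 (k v (k v r)))) r)))))
 (.s 0x3aa88a222777601dcafea000 4093 (n false (n false (z 85) (n false (n false (n false (n false e e) (n false e e)) (n false (n false e e) (n false e e))) (n false e e))) (n true (n false (n true (z 156) e) e) e)) (u 17 46 (k r (k (t 4 1 v) (k (t 4 1 v) (k (c 49 4099 r (u 33 1 (k r (k r r)))) (k (c 33 4098 r (u 49 1 (k r (k r r)))) (k (c 33 4097 r (u 49 31 (k r (k r (k r r))))) (k (c 33 4099 r (u 49 1 (k r (k r r)))) r))))))))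
 .z .z) (.s 0x3aa88a222a88a222a5ddc010 4088 (n false (n false (n false (z 42) (n false e e)) e) (n false (n false (n false (n false (n false e e) (n false e e)) (n false (n false e e) (n false e e))) (n false e e)) (n false (n false (n false (n false e e) (n false e e)) (n false (n false e e) (n false e e))) (n false e e)))) (u 8 52 (k v (k v (k (t 24 1 (u 16 0 (k (u 32 2 (k v (k (c 16 4084 (u 4 1 (k v (k v r))) v) r))) r))) (k (u 16 40 (k v (k v (k v (k (u 32 33 (k v (k v (k v (k v r))))) r))))) (k (c 5 4099 v r) (k (c 5 4099 v r) r)))))))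
 .z .z)) (.s 0x3aa88a222a88a222e57fe008 4081 (n false (n false (n true (z 124) e) (n false e e)) (n false (n false (n false (n false (n false e e) (n false e e)) (n false (n false e e) (n false e e))) (n false e e)) (n false (n false (n false (n false e e) (n false e e)) (n false (n false e e) (n false e e))) (n false e e)))) (u 8 5 (k v (k (c 24 4097 r (u 16 1 (k v (k v r)))) (k (c 24 4096 r (u 16 1 (k v (k v r)))) (k (c 16 4098 r (u 24 0 (k v (k v r)))) (k (c 24 4096 r (u 16 1 (k v (k v r)))) (k (c 24 4097 r (u 16 1 (k v (k v r)))) (k (c 24 4097 r (u 16 1 (k v (k v r)))) (k (c 24 4096 r (u 16 1 (k v (k v r)))) (k (c 16 4097 r (u 24 1 (k v (k v r)))) r))))))))))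
 (.s 0x3aa88a222a88a222e57f5000 4097 (n false (n false (n true (z 156) e) e) (n false (n false (n false (n false (n false e e) (n false e e)) (n false (n false e e) (n false e e))) (n false e e)) (n false (n false (n false (n false e e) (n false e e)) (n false (n false e e) (n false e e))) (n false e e)))) (u 8 5 (k v (k v (k (c 24 4099 r (u 16 1 (k v (k v r)))) (k (c 16 4098 r (u 24 1 (k v (k v r)))) (k (c 16 4097 r (u 24 1 (k v (k v r)))) (k (c 16 4099 r (u 24 1 (k v (k v r)))) r)))))))
 .z .z) .z))))

set_option maxRecDepth 100000 in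
def N219 : NT :=
(.s 0x3aa88a222a88a223b9d7f800 4088 (n false (n true (n false (n true (z 121) e) e) e) (n false (n false (n false (n false (n false e e) (n false e e)) (n false (n false e e) (n false e e))) (n false e e)) (n false (n false (n false (n false e e) (n false e e)) (n false (n false e e) (n false e e))) (n false e e)))) (u 16 1 (k v (k (c 48 4099 r (u 32 1 (k v (k v r)))) (k (c 32 4097 r (u 48 1 (k v (k v r)))) (k (c 32 4095 r (u 48 0 (k v (k v r)))) (k (c 32 4095 r (u 48 0 (k v (k v r)))) r))))))
 (.s 0x3aa88a222a88a222f97f7000 4093 (n false (n false (n true (n true (z 46) e) e) e) (n false (n false (n false (n false (n false e e) (n false e e)) (n false (n false e e) (n false e e))) (n false e e)) (n false (n false (n false (n false e e) (n false e e)) (n false (n false e e) (n false e e))) (n false e e)))) (u 16 1 (k v (k (u 32 1 (k v (k v r))) (k (c 48 4099 r (u 32 0 (k v (k v r)))) (k (u 32 19 (k v (k v (k v r)))) (k (c 48 4097 r (u 32 1 (k v (k v r)))) (k (c 32 4095 r (u 48 1 (k v (k v r)))) r)))))))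
 (.s 0x3aa88a222a88a222e7776008 4085 (n false (n false (n true (z 85) e) (n false e e)) (n false (n false (n false (n false (n false e e) (n false e e)) (n false (n false e e) (n false e e))) (n false e e)) (n false (n false (n false (n false e e) (n false e e)) (n false (n false e e) (n false e e))) (n false e e)))) (u 8 4 (k v (k (c 24 4099 r r) (k (t 24 1 (u 16 3 (k v (k v r)))) (k (c 24 4099 r (u 16 5 (k v (k v r)))) (k (c 5 4099 v r) (k (c 24 4096 r (c 8 4095 r v)) (k (c 16 4099 r r) r))))))))
 (.s 0x3aa88a222a88a222e75fe008 4083 (n false (n false (n true (z 121) e) (n false e e)) (n false (n false (n false (n false (n false e e) (n false e e)) (n false (n false e e) (n false e e))) (n false e e)) (n false (n false (n false (n false e e) (n false e e)) (n false (n false e e) (n false e e))) (n false e e)))) (u 8 1 (k v (k (c 24 4099 r (u 16 1 (k v (k v r)))) (k (c 16 4097 r (u 24 1 (k v (k v r)))) (k (c 16 4095 r (u 24 0 (k v (k v r)))) (k (c 16 4095 r (u 24 0 (k v (k v r)))) r))))))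
 (.s 0x3aa88a222a88a222e5fdc008 4083 (n false (n false (n true (z 46) e) (n false e e)) (n false (n false (n false (n false (n false e e) (n false e e)) (n false (n false e e) (n false e e))) (n false e e)) (n false (n false (n false (n false e e) (n false e e)) (n false (n false e e) (n false e e))) (n false e e)))) (u 8 1 (k v (k (u 16 1 (k v (k v r))) (k (c 24 4099 r (u 16 0 (k v (k v r)))) (k (u 16 1 (k v (k v r))) (k (c 24 4097 r (u 16 1 (k v (k v r)))) (k (c 16 4095 r (u 24 1 (k v (k v r)))) r)))))))
 .z .z) (.s 0x3aa88a222a88a222e775c008 4083 (n false (n false (n true (z 37) e) (n false e e)) (n false (n false (n false (n false (n false e e) (n false e e)) (n false (n false e e) (n false e e))) (n false e e)) (n false (n false (n false (n false e e) (n false e e)) (n false (n false e e) (n false e e))) (n false e e)))) (u 8 0 (k v (k (u 16 0 (k (t 32 3 (t 48 1 v)) r)) (k (u 16 0 (k (t 32 3 (t 48 1 v)) r)) (k (u 16 0 (k v (k v (k (t 48 1 (u 32 0 (k (t 64 3 (t 96 1 v)) r))) r)))) (k (u 16 2 (k v (k v (k v (k (t 48 1 (u 32 0 (k (t 64 3 (t 96 1 v)) r)))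 r))))) (k (u 16 10 (k v (k (t 48 1 (u 32 19 (k v (k v (k v (k v (k (u 64 2 (k v (k v r))) r))))))) r))) r)))))))
 .z .z)) (.s 0x3aa88a222a88a222e7f56008 4088 (n false (n false (n true (z 71) e) (n false e e)) (n false (n false (n false (n false (n false e e) (n false e e)) (n false (n false e e) (n false e e))) (n false e e)) (n false (n false (n false (n false e e) (n false e e)) (n false (n false e e) (n false e e))) (n false e e)))) (u 8 1 (k v (k (c 24 4099 r (u 16 1 (k v (k v r)))) (k (u 16 0 (k v (k v r))) (k (c 16 4099 r (u 24 1 (k v (k v r)))) (k (c 16 4099 r (u 24 1 (k v (k v r)))) (k (c 16 4099 r (u 24 1 (k v (k v r)))) r)))))))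
 (.s 0x3aa88a222a88a222e7df6008 4084 (n false (n false (n true (z 91) e) (n false e e)) (n false (n false (n false (n false (n false e e) (n false e e)) (n false (n false e e) (n false e e))) (n false e e)) (n false (n false (n false (n false e e) (n false e e)) (n false (n false e e) (n false e e))) (n false e e)))) (u 8 11 (k v (k (u 16 1 (k v (k v r))) (k (c 16 4097 r (u 24 0 (k v (k v r)))) (k (c 16 4097 r (u 24 0 (k v (k v r)))) (k (c 16 4096 r (u 24 0 (k v (k v r)))) (k (c 16 4095 r (u 24 0 (k v (k v r)))) r)))))))
 .z .z) .z)) (.s 0x3aa88a222a88a223a5ddc010 4087 (n false (n true (n false (z 42) (n false e e)) e) (n false (n false (n false (n false (n false e e) (n false e e)) (n false (n false e e) (n false e e))) (n false e e)) (n false (n false (n false (n false e e) (n false e e)) (n false (n false e e) (n false e e))) (n false e e)))) (u 8 52 (k v (k v (k (t 24 1 (u 16 0 (k (u 32 2 (k v (k (c 16 4084 (u 4 1 (k v (k v r))) v) r))) r))) (k (u 16 40 (k v (k v (k v (k (c 5 4099 v r) r))))) (k (c 5 4099 v r) (k (c 5 4099 v r) r)))))))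
 (.s 0x3aa88a222a88a222f9dd7000 4093 (n false (n false (n true (n true (z 37) e) e) e) (n false (n false (n false (n false (n false e e) (n false e e)) (n false (n false e e) (n false e e))) (n false e e)) (n false (n false (n false (n false e e) (n false e e)) (n false (n false e e) (n false e e))) (n false e e)))) (u 16 0 (k v (k (c 3 4101 v (u 32 0 (k (t 64 3 (t 96 1 v)) r))) (k (c 3 4101 v (u 32 0 (k (t 64 3 (t 96 1 v)) r))) (k (c 3 4101 v r) (k (c 3 4101 v r) (k (c 3 4101 v r) r)))))))
 (.s 0x3aa88a222a88a222f9d7f800 4093 (n false (n false (n true (n true (z 121) e) e) e) (n false (n false (n false (n false (n false e e) (n false e e)) (n false (n false e e) (n false e e))) (n false e e)) (n false (n false (n false (n false e e) (n false e e)) (n false (n false e e) (n false e e))) (n false e e)))) (u 16 1 (k v (k (c 48 4099 r (u 32 1 (k v (k v r)))) (k (c 32 4097 r (u 48 1 (k v (k v r)))) (k (c 32 4095 r (u 48 0 (k v (k v r)))) (k (c 32 4095 r (u 48 0 (k v (k v r)))) r))))))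
 .z .z) (.s 0x3aa88a222a88a223a577c010 4092 (n false (n true (n false (z 52) (n false e e)) e) (n false (n false (n false (n false (n false e e) (n false e e)) (n false (n false e e) (n false e e))) (n false e e)) (n false (n false (n false (n false e e) (n false e e)) (n false (n false e e) (n false e e))) (n false e e)))) (u 8 25 (k v (k v (k v (k (t 24 1 (u 16 0 (k v (k v r)))) r)))))
 .z .z)) (.s 0x3aa88a222a88a223b97f7000 4088 (n false (n true (n false (n true (z 46) e) e) e) (n false (n false (n false (n false (n false e e) (n false e e)) (n false (n false e e) (n false e e))) (n false e e)) (n false (n false (n false (n false e e) (n false e e)) (n false (n false e e) (n false e e))) (n false e e)))) (u 16 2 (k v (k (c 48 4099 r (u 32 0 (k v (k v r)))) (k (u 32 1 (k v (k v r))) (k (u 32 1 (k v (k v r))) (k (c 48 4097 r (u 32 1 (k v (k v r)))) (k (c 32 4095 r (u 48 1 (k v (k v r)))) r)))))))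
 (.s 0x3aa88a222a88a223b95ff800 4093 (n false (n true (n false (n true (z 124) e) e) e) (n false (n false (n false (n false (n false e e) (n false e e)) (n false (n false e e) (n false e e))) (n false e e)) (n false (n false (n false (n false e e) (n false e e)) (n false (n false e e) (n false e e))) (n false e e)))) (u 16 17 (k v (k v (k (c 48 4097 r (u 32 1 (k v (k v r)))) (k (c 48 4096 r (u 32 1 (k v (k v r)))) (k (c 48 4097 r (u 32 1 (k v (k v r)))) (k (c 48 4097 r (u 32 1 (k v (k v r)))) (k (c 32 4097 r (u 48 1 (k v (k v r)))) r))))))))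
 .z .z) .z))) (.s 0x3aaa22888aa22888b95df000 4087 (n false (n false (n false (n true (z 52) e) e) (n false (n false (n false (n false (n false e e) (n false e e)) (n false (n false e e) (n false e e))) (n false e e)) (n false (n false (n false (n false e e) (n false e e)) (n false (n false e e) (n false e e))) (n false e e)))) e) (c 10 4099 v (c 14 4099 v r))
 (.s 0x3aa88a222a88a223e57f5000 4099 (n false (n true (n true (z 156) e) e) (n false (n false (n false (n false (n false e e) (n false e e)) (n false (n false e e) (n false e e))) (n false e e)) (n false (n false (n false (n false e e) (n false e e)) (n false (n false e e) (n false e e))) (n false e e)))) (u 8 1 (k v (k (c 24 4099 r (u 16 1 (k v (k v r)))) (k (c 16 4098 r (u 24 1 (k v (k v r)))) (k (c 16 4097 r (u 24 1 (k v (k v r)))) (k (c 16 4099 r (u 24 1 (k v (k v r)))) (k (c 16 4095 r (u 24 0 (k v (k v r)))) r)))))))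
 (.s 0x3aa88a222a88a223b9ddd800 4093 (n false (n true (n false (n true (z 85) e) e) e) (n false (n false (n false (n false (n false e e) (n false e e)) (n false (n false e e) (n false e e))) (n false e e)) (n false (n false (n false (n false e e) (n false e e)) (n false (n false e e) (n false e e))) (n false e e)))) (u 16 55 (k v (k v (k v (k (c 48 4099 r (u 32 251 (k v (k v (k v (k (t 96 1 (u 64 2 (k v (k v r)))) r)))))) (k (c 2 4082 r v) (k (c 48 4097 r (u 32 37 (k v (k v (k v r))))) r)))))))
 (.s 0x3aa88a222a88a223b9dd7000 4093 (n false (n true (n false (n true (z 37) e) e) e) (n false (n false (n false (n false (n false e e) (n false e e)) (n false (n false e e) (n false e e))) (n false e e)) (n false (n false (n false (n false e e) (n false e e)) (n false (n false e e) (n false e e))) (n false e e)))) (u 16 43 (k v (k v (k (u 32 0 (k (t 64 3 (t 96 1 v)) r)) (k (u 32 0 (k (t 64 3 (t 96 1 v)) r)) (k (u 32 0 (k v (k v (k (t 96 1 (u 64 0 (k (t 128 3 (t 192 1 v)) r))) r)))) (k (u 32 0 (k v (k v (k (t 96 1 (u 64 0 (k (t 128 3 (t 192 1 v)) r))) r)))) r)))))))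
 .z .z) (.s 0x3aa88a222a88a223b9f7d800 4092 (n false (n true (n false (n true (z 91) e) e) e) (n false (n false (n false (n false (n false e e) (n false e e)) (n false (n false e e) (n false e e))) (n false e e)) (n false (n false (n false (n false e e) (n false e e)) (n false (n false e e) (n false e e))) (n false e e)))) (u 16 15 (k v (k v (k (u 32 1 (k v (k v r))) (k (c 32 4097 r (u 48 0 (k v (k v r)))) (k (c 32 4095 r (u 48 0 (k v (k v r)))) r))))))
 .z .z)) (.s 0x3aaa22888aa22888a7d5c008 4085 (n false (n false (n false (z 35) e) (n false (n false (n false (n false (n false e e) (n false e e)) (n false (n false e e) (n false e e))) (n false e e)) (n false (n false (n false (n false e e) (n false e e)) (n false (n false e e) (n false e e))) (n false e e)))) (n false e e)) (u 8 2 (k v (k v (k v (k (t 24 1 (u 16 0 (k (t 32 3 (t 48 1 v)) r))) r)))))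
 (.s 0x3aa88a222a88a223f95df000 4092 (n false (n true (n true (n true (z 52) e) e) e) (n false (n false (n false (n false (n false e e) (n false e e)) (n false (n false e e) (n false e e))) (n false e e)) (n false (n false (n false (n false e e) (n false e e)) (n false (n false e e) (n false e e))) (n false e e)))) (u 16 10 (k v (k v (k v (k v (k v (k (t 48 1 (u 32 0 (k v (k v r)))) r)))))))
 .z .z) .z)) (.s 0x3aaea88a22114442e57fe008 4087 (n false (n false (n true (z 124) e) (n false e e)) (n false (n false (n false (n false (n true (n false (n false (n false (n false e e) (n false e e)) (n false (n false e e) (n false e e))) (n false e e)) e) (n false e e)) (n false (n false e e) (n false e e))) (n false e e)) e)) (u 8 17 (k v (k v (k (c 24 4097 r (u 16 1 (k v (k v r)))) (k (c 24 4096 r (u 16 1 (k v (k v r)))) (k (c 24 4097 r (u 16 1 (k v (k v r)))) (k (c 24 4097 r (u 16 1 (k v (k v r)))) (k (c 16 4097 r (u 24 1 (k v (k v r)))) r))))))))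
 (.s 0x3aaea88a22114442a5ddc010 4088 (n false (n false (n false (z 42) (n false e e)) e) (n false (n false (n false (n false (n true (n false (n false (n false (n false e e) (n false e e)) (n false (n false e e) (n false e e))) (n false e e)) e) (n false e e)) (n false (n false e e) (n false e e))) (n false e e)) e)) (u 8 73 (k v (k v (k v (k (c 2 4085 (t 12 1 (u 8 0 (k r r))) v) (k (u 16 2 (k v (k v r))) (k (c 2 4085 r v) (k (c 2 4085 r v) r))))))))
 (.s 0x3aaa22888aa22888e7d5c008 4087 (n false (n false (n true (z 35) e) (n false (n false (n false (n false (n false e e) (n false e e)) (n false (n false e e) (n false e e))) (n false e e)) (n false (n false (n false (n false e e) (n false e e)) (n false (n false e e) (n false e e))) (n false e e)))) (n false e e)) (u 8 2 (k v (k v (k v (k (t 24 1 (u 16 0 (k (t 32 3 (t 48 1 v)) r))) r)))))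
 .z .z) (.s 0x3aaea88a22114442a7f56008 4086 (n false (n false (n false (z 71) e) (n false e e)) (n false (n false (n false (n false (n true (n false (n false (n false (n false e e) (n false e e)) (n false (n false e e) (n false e e))) (n false e e)) e) (n false e e)) (n false (n false e e) (n false e e))) (n false e e)) e)) (u 8 1 (k v (k (c 24 4099 r (u 16 1 (k v (k v r)))) (k (u 16 0 (k v (k v r))) (k (c 16 4099 r (u 24 1 (k v (k v r)))) (k (c 16 4099 r (u 24 1 (k v (k v r)))) (k (c 16 4099 r (u 24 1 (k v (k v r)))) r)))))))
 .z .z)) (.s 0x3aaea88a22114442e75fe008 4083 (n false (n false (n true (z 121) e) (n false e e)) (n false (n false (n false (n false (n true (n false (n false (n false (n false e e) (n false e e)) (n false (n false e e) (n false e e))) (n false e e)) e) (n false e e)) (n false (n false e e) (n false e e))) (n false e e)) e)) (u 8 1 (k v (k (c 24 4099 r (u 16 1 (k v (k v r)))) (k (c 16 4097 r (u 24 1 (k v (k v r)))) (k (c 16 4095 r (u 24 0 (k v (k v r)))) (k (c 16 4095 r (u 24 0 (k v (k v r)))) r))))))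
 (.s 0x3aaea88a22114442e5fdc008 4083 (n false (n false (n true (z 46) e) (n false e e)) (n false (n false (n false (n false (n true (n false (n false (n false (n false e e) (n false e e)) (n false (n false e e) (n false e e))) (n false e e)) e) (n false e e)) (n false (n false e e) (n false e e))) (n false e e)) e)) (u 8 0 (k v (k (u 16 1 (k v (k v r))) (k (u 16 1 (k v (k v r))) (k (c 24 4099 r (u 16 0 (k v (k v r)))) (k (c 24 4097 r (u 16 1 (k v (k v r)))) (k (c 16 4095 r (u 24 1 (k v (k v r)))) r)))))))
 .z .z) .z))))

end Pool.Agent.Helper91.ND1
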