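import Pool.Agent.Helper66.ND.Defs

/-! part of the certificate for the constant 25/48 (generated) -/

namespace Pool.Agent.Helper91.ND1

open Pool.Agent.Helper66.IL
open Pool.Agent.Helper66.ND
open Pool.Agent.Helper66.ND.LT
open Pool.Agent.Helper66.ND.Ct

set_option maxRecDepth 100000 in
def N220 : NT :=
(.s 0x3aea88a221511442a5ddc010 4088 (n false (n false (n false (z 42) (n false e e)) e) (n false (n false (n true (n false (n false (n false (n false e e) (n false e e)) (n false (n false e e) (n false e e))) (n false e e)) e) (n false (n false (n false e e) (n false e e)) (n false (n false e e) (n false e e)))) e)) (u 8 73 (k v (k v (k v (k (c 2 4085 (t 12 1 (u 8 0 (k r r))) v) (k (u 16 2 (k v (k v r))) (k (c 2 4085 r v) (k (c 2 4085 r v) r))))))))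
 (.s 0x3abaa22888451114afea0070 4089 (n false (n false (z 156) (n true (n false e e) e)) (n false (n false (n false (n true (n false (n false (n false (n false e e) (n false e e)) (n false (n false e e) (n false e e))) (n false e e)) e) (n false e e)) (n false (n false e e) (n false e e))) (n false e e))) (u 4 1 (k v (k (c 12 4099 r (u 8 1 (k v (k v r)))) (k (c 8 4098 r (u 12 1 (k v (k v r)))) (k (c 8 4097 r (c 3 4096 v r)) (k (c 8 4099 r (u 12 1 (k v (k v r)))) (k (c 8 4095 r (c 3 4096 v r)) r)))))))
 (.s 0x3ab97f7002a88a223870ee10 4076 (n false (n false (n false (n false (n true (z 46) e) (n false (n false (n false (n false e e) (n false e e)) (n false (n false e e) (n false e e))) (n false e e))) (n true (n false e e) e)) (n true (n false e e) e)) (n true (n false (n true (n false e e) e) (n false e e)) e)) (c 24 4099 v (c 6 4094 v (u 32 8 (k v (k (u 64 0 (k v (k v r))) (k (c 96 4099 r (u 64 0 (k v (k v r)))) (k (u 64 1 (k v (k v r))) (k (c 96 4097 r (u 64 1 (k v (k v r)))) (k (c 64 4095 r (u 96 1 (k v (k v r)))) r)))))))))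
 (.s 0x3aaea88a22114442e7df6008 4086 (n false (n false (n true (z 91) e) (n false e e)) (n false (n false (n false (n false (n true (n false (n false (n false (n false e e) (n false e e)) (n false (n false e e) (n false e e))) (n false e e)) e) (n false e e)) (n false (n false e e) (n false e e))) (n false e e)) e)) (u 8 13 (k v (k v (k (u 16 1 (k v (k v r))) (k (c 16 4097 r (u 24 0 (k v (k v r)))) (k (c 16 4095 r (u 24 0 (k v (k v r)))) r))))))
 (.s 0x3aaea88a22114442e7776008 4087 (n false (n false (n true (z 85) e) (n false e e)) (n false (n false (n false (n false (n true (n false (n false (n false (n false e e) (n false e e)) (n false (n false e e) (n false e e))) (n false e e)) e) (n false e e)) (n false (n false e e) (n false e e))) (n false e e)) e)) (u 8 45 (k v (k v (k v (k (c 24 4099 r r) (k (c 8 4097 r v) (k (c 16 4099 r r) r)))))))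
 .z .z) (.s 0x3aaea88a22114447413bbb00 4087 (n false (n false (n true (n false (n false e e) e) e) (n false (n false (n false (n true (n false (n false (n false (n false e e) (n false e e)) (n false (n false e e) (n false e e))) (n false e e)) e) (n false e e)) (n false (n false e e) (n false e e))) (n false e e))) (z 85)) (u 3 14 (k v (k v (k (c 7 4099 r r) (k (c 7 4099 r (c 2 4092 v r)) (k (c 7 4099 r r) (k (c 7 4096 r (c 2 4092 v r)) r)))))))
 .z .z)) (.s 0x3ab9dd7002a88a223870ee10 4076 (n false (n false (n false (n false (n true (z 37) e) (n false (n false (n false (n false e e) (n false e e)) (n false (n false e e) (n false e e))) (n false e e))) (n true (n false e e) e)) (n true (n false e e) e)) (n true (n false (n true (n false e e) e) (n false e e)) e)) (u 32 65 (k v (k v (k v (k (c 24 4099 v (c 6 4094 v (u 64 9 (k v (k v (k (t 192 1 (u 128 0 (k (t 256 3 (t 384 1 v)) r))) r)))))) (k (c 16 4088 r v) r))))))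
 (.s 0x3ab9d7f802a88a223870ee10 4076 (n false (n false (n false (n false (n true (z 121) e) (n false (n false (n false (n false e e) (n false e e)) (n false (n false e e) (n false e e))) (n false e e))) (n true (n false e e) e)) (n true (n false e e) e)) (n true (n false (n true (n false e e) e) (n false e e)) e)) (u 32 39 (k v (k v (k (c 96 4099 r (u 64 1 (k v (k v r)))) (k (c 64 4095 r (u 96 0 (k v (k v r)))) r)))))
 .z .z) .z)) (.s 0x3aea88a220aa22888a7d5600 4091 (n false (n false (n false (n true (n false (n false (n false (n false e e) (n false e e)) (n false (n false e e) (n false e e))) (n false e e)) e) e) (n false (n false (n false (n false e e) (n false e e)) (n false (n false e e) (n false e e))) (n false e e))) (n false (z 67) e)) (u 5 96 (k v (k v (k v (k v (k v (k v (k r (k (c 9 4101 r (c 8 4110 v r)) (k (c 3 4088 r v) (k (c 9 4099 r (c 8 4110 v r)) (k r (k r (k (c 13 4102 r (c 8 4110 v r)) (k r (k r (k r r)))))))))))))))))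
 (.s 0x3ae7df600551144475445110 4094 (n false (n false (n false (n true (z 91) e) e) (n false (n false (n false (n false e e) (n false e e)) (n false (n false e e) (n false e e))) (n false e e))) (n true (n false (n false (n false (n false e e) (n false e e)) (n false (n false e e) (n false e e))) (n false e e)) e)) (c 6 4099 v (u 16 2 (k v (k v (k (u 32 1 (k v (k v r))) (k (c 32 4097 r (u 48 0 (k v (k v r)))) (k (c 32 4097 r (u 48 0 (k v (k v r)))) (k (c 32 4096 r (u 48 0 (k v (k v r)))) (k (c 32 4095 r (u 48 0 (k v (k v r)))) r)))))))))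
 (.s 0x3ae5fd400551144475445110 4092 (n false (n false (n false (n true (z 14) e) e) (n false (n false (n false (n false e e) (n false e e)) (n false (n false e e) (n false e e))) (n false e e))) (n true (n false (n false (n false (n false e e) (n false e e)) (n false (n false e e) (n false e e))) (n false e e)) e)) (c 2 4085 (u 8 0 (k v (k v r))) v)
 .z .z) (.s 0x3ae7f7600551144475445110 4094 (n false (n false (n false (n true (z 87) e) e) (n false (n false (n false (n false e e) (n false e e)) (n false (n false e e) (n false e e))) (n false e e))) (n true (n false (n false (n false (n false e e) (n false e e)) (n false (n false e e) (n false e e))) (n false e e)) e)) (c 2 4087 (u 8 1 (k v (k v r))) v)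
 .z .z)) (.s 0x3aea88a2213eab008aa22888 4094 (n false (n false (n false (z 67) (n true (n false (n false (n false (n false e e) (n false e e)) (n false (n false e e) (n false e e))) (n false e e)) e)) (n false e e)) (n false (n false (n false (n false e e) (n false e e)) (n false (n false e e) (n false e e))) (n false e e))) (u 8 60 (k v (k v (k v (k (t 24 1 (u 16 6 (k v (k v (k v r))))) (k (c 16 4101 r (c 3 4099 v (u 24 0 (k v (k v r))))) (k r (k (u 16 11 (k v (k v (k v (k (c 48 4099 r (u 32 1 (k v (k v r)))) r))))) (k (t 24 2 (u 16 0 (k (u 32 0 (k v (k v r))) r))) (k (c 24 4101 r r) (k r (k (c 24 4102 r r) (k r (k (c 16 4101 r r) (k (t 24 1 (u 16 3 (k v (k v (k (c 48 4099 r (u 32 1 (k v (k v r)))) r))))) (k (c 16 4101 r r) r))))))))))))))))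
 (.s 0x3aea88a2212fea00e13eff00 4089 (n false (n false (n false (z 14) (n true (n false (n false (n false (n false e e) (n false e e)) (n false (n false e e) (n false e e))) (n false e e)) e)) (n true (n false e e) e)) (z 123)) (u 8 3 (k r (k r (k (c 6 4094 v (u 3 13 (k v (k v (k r (k r (k r (k r (k r (k (t 5 2 (c 20 4099 v (u 7 2 (k v (k v r))))) r)))))))))) r))))
 .z .z) .z))) (.s 0x3aea88a221511442e7df6008 4086 (n false (n false (n true (z 91) e) (n false e e)) (n false (n false (n true (n false (n false (n false (n false e e) (n false e e)) (n false (n false e e) (n false e e))) (n false e e)) e) (n false (n false (n false e e) (n false e e)) (n false (n false e e) (n false e e)))) e)) (u 8 13 (k v (k v (k (u 16 1 (k v (k v r))) (k (c 16 4097 r (u 24 0 (k v (k v r)))) (k (c 16 4095 r (u 24 0 (k v (k v r)))) r))))))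
 (.s 0x3aea88a221511442e75fe008 4083 (n false (n false (n true (z 121) e) (n false e e)) (n false (n false (n true (n false (n false (n false (n false e e) (n false e e)) (n false (n false e e) (n false e e))) (n false e e)) e) (n false (n false (n false e e) (n false e e)) (n false (n false e e) (n false e e)))) e)) (u 8 1 (k v (k (c 24 4099 r (u 16 1 (k v (k v r)))) (k (c 16 4097 r (u 24 1 (k v (k v r)))) (k (c 16 4095 r (u 24 0 (k v (k v r)))) (k (c 16 4095 r (u 24 0 (k v (k v r)))) r))))))
 (.s 0x3aea88a221511442e57fe008 4087 (n false (n false (n true (z 124) e) (n false e e)) (n false (n false (n true (n false (n false (n false (n false e e) (n false e e)) (n false (n false e e) (n false e e))) (n false e e)) e) (n false (n false (n false e e) (n false e e)) (n false (n false e e) (n false e e)))) e)) (u 8 17 (k v (k v (k (c 24 4097 r (u 16 1 (k v (k v r)))) (k (c 24 4096 r (u 16 1 (k v (k v r)))) (k (c 24 4097 r (u 16 1 (k v (k v r)))) (k (c 24 4097 r (u 16 1 (k v (k v r)))) (k (c 16 4097 r (u 24 1 (k v (k v r)))) r))))))))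
 (.s 0x3aea88a221511442a7f56008 4086 (n false (n false (n false (z 71) e) (n false e e)) (n false (n false (n true (n false (n false (n false (n false e e) (n false e e)) (n false (n false e e) (n false e e))) (n false e e)) e) (n false (n false (n false e e) (n false e e)) (n false (n false e e) (n false e e)))) e)) (u 8 1 (k v (k (c 24 4099 r (u 16 1 (k v (k v r)))) (k (u 16 0 (k v (k v r))) (k (c 16 4099 r (u 24 1 (k v (k v r)))) (k (c 16 4099 r (u 24 1 (k v (k v r)))) (k (c 16 4099 r (u 24 1 (k v (k v r)))) r)))))))
 .z .z) (.s 0x3aea88a221511442e5fdc008 4083 (n false (n false (n true (z 46) e) (n false e e)) (n false (n false (n true (n false (n false (n false (n false e e) (n false e e)) (n false (n false e e) (n false e e))) (n false e e)) e) (n false (n false (n false e e) (n false e e)) (n false (n false e e) (n false e e)))) e)) (u 8 1 (k v (k (u 16 1 (k v (k v r))) (k (c 24 4099 r (u 16 0 (k v (k v r)))) (k (u 16 1 (k v (k v r))) (k (c 24 4097 r (u 16 1 (k v (k v r)))) (k (c 16 4095 r (u 24 1 (k v (k v r)))) r)))))))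
 .z .z)) (.s 0x3aea88a221511442e7776008 4087 (n false (n false (n true (z 85) e) (n false e e)) (n false (n false (n true (n false (n false (n false (n false e e) (n false e e)) (n false (n false e e) (n false e e))) (n false e e)) e) (n false (n false (n false e e) (n false e e)) (n false (n false e e) (n false e e)))) e)) (u 8 45 (k v (k v (k v (k (c 24 4099 r r) (k (c 8 4097 r v) (k (c 16 4099 r r) r)))))))
 (.s 0x3aea88a221511442e775c008 4083 (n false (n false (n true (z 37) e) (n false e e)) (n false (n false (n true (n false (n false (n false (n false e e) (n false e e)) (n false (n false e e) (n false e e))) (n false e e)) e) (n false (n false (n false e e) (n false e e)) (n false (n false e e) (n false e e)))) e)) (u 8 0 (k v (k (u 16 0 (k (t 32 3 (t 48 1 v)) r)) (k (u 16 0 (k (t 32 3 (t 48 1 v)) r)) (k (u 16 0 (k v (k v (k (t 48 1 (u 32 0 (k (t 64 3 (t 96 1 v)) r))) r)))) (k (u 16 2 (k v (k v (k v (k (t 48 1 (u 32 0 (k (t 64 3 (t 96 1 v)) r))) r))))) (k (u 16 6 (k v (k (t 48 1 (u 32 10 (k v (k v r)))) r))) r)))))))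
 .z .z) .z)) (.s 0x3aea88a2215114473fbe0050 4075 (n false (n false (n true (z 55) e) (n false (n true (n false (n false (n false (n false e e) (n false e e)) (n false (n false e e) (n false e e))) (n false e e)) e) (n false (n false (n false e e) (n false e e)) (n false (n false e e) (n false e e))))) (n false (n false e e) e)) (u 8 4 (k (t 24 1 (u 16 36 (k v (k v (k r (k (c 14 4101 v (u 32 4 (k v (k (t 96 1 (u 64 4 (k v (k v r)))) r)))) (k (u 32 4 (k v (k (t 96 1 (u 64 4 (k v (k v r)))) r))) (k (c 14 4101 v (c 18 4099 v r)) r)))))))) (k (t 24 2 r) r)))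
 (.s 0x3aea88a221511444ebfc03a0 4087 (n false (n false (z 121) (n false (n true (n false (n false (n false (n false e e) (n false e e)) (n false (n false e e) (n false e e))) (n false e e)) e) (n false (n false (n false e e) (n false e e)) (n false (n false e e) (n false e e))))) (n true (n false (n false e e) e) e)) (u 4 9 (k v (k v (k v (k (c 12 4099 r (u 8 1 (k v (k v r)))) r)))))
 (.s 0x3aea88a221511444afea0050 4076 (n false (n false (z 156) (n false (n true (n false (n false (n false (n false e e) (n false e e)) (n false (n false e e) (n false e e))) (n false e e)) e) (n false (n false (n false e e) (n false e e)) (n false (n false e e) (n false e e))))) (n false (n false e e) e)) (u 4 1 (k v (k (c 12 4099 r (u 8 1 (k v (k v r)))) (k (c 8 4098 r (u 12 1 (k v (k v r)))) (k (c 8 4097 r (u 12 1 (k v (k v r)))) (k (c 8 4099 r (u 12 1 (k v (k v r)))) (k (c 8 4095 r (u 12 0 (k v (k v r)))) r)))))))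
 .z .z) (.s 0x3aea88a2215114472bbe0050 4072 (n false (n false (n true (z 52) e) (n false (n true (n false (n false (n false (n false e e) (n false e e)) (n false (n false e e) (n false e e))) (n false e e)) e) (n false (n false (n false e e) (n false e e)) (n false (n false e e) (n false e e))))) (n false (n false e e) e)) (u 8 102 (k v (k v (k v (k v (k v (k v (k (t 24 1 (u 16 0 (k v (k v r)))) (k (t 24 2 (u 16 0 (k (u 32 2 (k v (k (c 14 4101 v (c 18 4099 v (u 64 1 (k v (k v r))))) r))) r))) (k (t 24 1 (u 16 0 (k (c 48 4099 r (u 32 2 (k v (k (c 6 4096 v (u 64 1 (k v (k v r)))) r)))) r))) r))))))))))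
 .z .z)) (.s 0x3b95df002a88a223b95ff800 4090 (n false (n false (n true (z 52) e) (n false (n false (n false (n false e e) (n false e e)) (n false (n false e e) (n false e e))) (n false e e))) (n true (n false (n true (z 124) e) e) e)) (u 17 4 (k r (k (c 8 4097 r v) (k (c 49 4097 r (u 33 1 (k r (k r r)))) (k (c 49 4096 r (u 33 1 (k r (k r r)))) (k (c 33 4098 r (u 49 0 (k r (k r r)))) (k (c 49 4096 r (u 33 1 (k r (k r r)))) (k (c 49 4097 r (u 33 1 (k r (k r r)))) (k (c 49 4097 r (u 33 1 (k r (k r r)))) (k (c 49 4096 r (u 33 1 (k r (k r r)))) (k (c 33 4097 r (u 49 1 (k r (k r r)))) r)))))))))))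
 (.s 0x3aea88a221c3874aef802e10 4080 (n false (n true (n false (z 52) (n false (n true (n false e e) e) (n false e e))) e) (n false (n false (n true (n false (n false (n false (n false e e) (n false e e)) (n false (n false e e) (n false e e))) (n false e e)) e) (n true (n false e e) e)) (n true (n false e e) e))) (c 13 4094 v (c 8 4097 r v))
 .z .z) .z))))

set_option maxRecDepth 100000 in
def N221 : NT :=
(.s 0x3b9fdd802a2288baa2288870 4077 (n false (n false (n true (z 87) e) (n false (n false (n false e e) (n false e e)) (n false (n false e e) (n false e e)))) (n false (n true (n false (n false (n false (n false e e) (n false e e)) (n false (n false e e) (n false e e))) (n false e e)) e) (n true (n false e e) e))) (c 9 4099 v (u 8 1 (k v (k v r))))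
 (.s 0x3b9777002a88a223a77dc010 4097 (n false (n true (n false (z 45) (n false e e)) e) (n false (n true (z 42) e) (n false (n false (n false (n false e e) (n false e e)) (n false (n false e e) (n false e e))) (n false e e)))) (c 2 4096 (t 4 1 v) (c 11 4101 v r))
 (.s 0x3b95df002a88a223b9fd5800 4093 (n false (n false (n true (z 52) e) (n false (n false (n false (n false e e) (n false e e)) (n false (n false e e) (n false e e))) (n false e e))) (n true (n false (n true (z 71) e) e) e)) (u 17 1 (k r (k (c 49 4099 r (u 33 1 (k r (k r r)))) (k (u 33 0 (k r (k r r))) (k (c 33 4099 r (u 49 1 (k r (k r r)))) (k (c 33 4099 r (u 49 1 (k r (k r r)))) (k (c 33 4099 r (u 49 1 (k r (k r r)))) r)))))))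
 (.s 0x3b95df002a88a223b9ddd800 4090 (n false (n false (n true (z 52) e) (n false (n false (n false (n false e e) (n false e e)) (n false (n false e e) (n false e e))) (n false e e))) (n true (n false (n true (z 85) e) e) e)) (u 17 53 (k r (k (c 49 4099 r r) (k (t 49 1 (c 17 4098 (c 3 4099 v r) r)) (k (c 49 4099 r (c 17 4094 r r)) (k (c 17 4097 r r) (k (c 49 4096 r (c 17 4095 r r)) (k (c 49 4097 r r) r))))))))
 (.s 0x3b95df002a88a223b9d7f800 4092 (n false (n false (n true (z 52) e) (n false (n false (n false (n false e e) (n false e e)) (n false (n false e e) (n false e e))) (n false e e))) (n true (n false (n true (z 121) e) e) e)) (u 17 1 (k r (k (c 49 4099 r (u 33 1 (k r (k r r)))) (k (c 33 4097 r (u 49 1 (k r (k r r)))) (k (c 33 4095 r r) (k (c 33 4095 r r) r))))))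
 .z .z) (.s 0x3b95df002a88a223b9f7d800 4089 (n false (n false (n true (z 52) e) (n false (n false (n false (n false e e) (n false e e)) (n false (n false e e) (n false e e))) (n false e e))) (n true (n false (n true (z 91) e) e) e)) (u 17 4 (k r (k r (k (u 33 1 (k r (k r r))) (k (c 33 4097 r (u 49 0 (k r (k r r)))) (k (c 33 4097 r (u 49 0 (k r (k r r)))) (k (c 33 4096 r (u 49 0 (k r (k r r)))) (k (c 33 4095 r (u 49 0 (k r (k r r)))) r))))))))
 .z .z)) (.s 0x3b9777002a88a222a55f4010 4091 (n false (n false (n true (z 42) e) (n false (n false (n false (n false e e) (n false e e)) (n false (n false e e) (n false e e))) (n false e e))) (n false (n false (z 24) (n false e e)) e)) (u 8 16 (k (u 9 0 (k (t 17 3 (t 25 1 v)) r)) (k (c 5 4096 (c 2 4098 r v) v) (k (c 3 4101 (u 4 0 (k (t 8 3 (t 12 1 v)) r)) (c 10 4101 v r)) (k (c 4 4087 r (u 9 0 (k (t 17 3 (t 25 1 v)) r))) (k (c 3 4101 (u 4 0 (k (t 8 3 (t 12 1 v)) r)) (c 10 4101 v r)) (k (c 3 4101 (u 4 0 (k (t 8 3 (t 12 1 v)) r)) (c 10 4101 v r)) r)))))))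
 (.s 0x3b95fd400551144475445110 4097 (n false (n false (n true (z 156) e) (n false (n false (n false (n false e e) (n false e e)) (n false (n false e e) (n false e e))) (n false e e))) (n true (n false (n false (n false (n false e e) (n false e e)) (n false (n false e e) (n false e e))) (n false e e)) e)) (u 8 1 (k v (k (c 24 4099 r (u 16 1 (k v (k v r)))) (k (c 16 4098 r (u 24 1 (k v (k v r)))) (k (c 16 4097 r (u 24 1 (k v (k v r)))) (k (c 16 4099 r (u 24 1 (k v (k v r)))) (k (c 16 4095 r (u 24 0 (k v (k v r)))) r)))))))
 .z .z) .z)) (.s 0x3b97f7002a2288baa2288870 4083 (n false (n false (n true (z 46) e) (n false (n false (n false e e) (n false e e)) (n false (n false e e) (n false e e)))) (n false (n true (n false (n false (n false (n false e e) (n false e e)) (n false (n false e e) (n false e e))) (n false e e)) e) (n true (n false e e) e))) (u 8 2 (k v (k (c 24 4099 r (u 16 0 (k v (k v r)))) (k (u 16 1 (k v (k v r))) (k (c 9 4099 v (u 16 25 (k v (k v (k v r))))) (k (c 24 4097 r (u 16 1 (k v (k v r)))) (k (c 16 4095 r (u 24 1 (k v (k v r)))) r)))))))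
 (.s 0x3b97f5002a88a222a77dc010 4093 (n false (n false (n true (z 14) e) (n false (n false (n false (n false e e) (n false e e)) (n false (n false e e) (n false e e))) (n false e e))) (n false (n false (z 45) (n false e e)) e)) (u 8 0 (k (u 9 0 (k v (k v r))) (k (u 9 0 (k v (k v r))) r)))
 (.s 0x3b97f5002a2288baa2288870 4077 (n false (n false (n true (z 14) e) (n false (n false (n false e e) (n false e e)) (n false (n false e e) (n false e e)))) (n false (n true (n false (n false (n false (n false e e) (n false e e)) (n false (n false e e) (n false e e))) (n false e e)) e) (n true (n false e e) e))) (c 9 4099 v (u 8 0 (k v (k v r))))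
 .z .z) (.s 0x3b97f5002a88a223a77dc010 4093 (n false (n false (n true (z 14) e) (n false (n false (n false (n false e e) (n false e e)) (n false (n false e e) (n false e e))) (n false e e))) (n true (n false (z 45) (n false e e)) e)) (u 9 0 (k (u 8 0 (k v (k v r))) (k (u 8 0 (k v (k v r))) r)))
 .z .z)) (.s 0x3b9d7f802a88a223a77dc010 4093 (n false (n false (n true (z 121) e) (n false (n false (n false (n false e e) (n false e e)) (n false (n false e e) (n false e e))) (n false e e))) (n true (n false (z 45) (n false e e)) e)) (u 8 1 (k (u 9 0 (k v (k v r))) (k (c 24 4099 r r) (k (c 16 4097 r r) (k (c 16 4095 r r) (k (c 16 4095 r r) r))))))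
 (.s 0x3b97f7002a88a223a77dc010 4093 (n false (n true (n false (z 45) (n false e e)) e) (n false (n true (z 46) e) (n false (n false (n false (n false e e) (n false e e)) (n false (n false e e) (n false e e))) (n false e e)))) (u 9 1 (k (u 8 0 (k v (k v r))) (k r (k (c 25 4099 r (u 17 0 (k (u 8 0 (k v (k v r))) (k (u 8 0 (k v (k v r))) r)))) (k (u 17 0 (k (u 8 0 (k v (k v r))) (k (u 8 0 (k v (k v r))) r))) (k (c 25 4097 r r) (k (c 17 4095 r r) r)))))))
 .z .z) .z))) (.s 0x3ba7d5600551144475445110 4096 (n false (n false (n true (n false (z 67) e) e) (n false (n false (n false (n false e e) (n false e e)) (n false (n false e e) (n false e e))) (n false e e))) (n true (n false (n false (n false (n false e e) (n false e e)) (n false (n false e e) (n false e e))) (n false e e)) e)) (u 16 61 (k v (k v (k v (k v (k (t 48 1 (u 32 1 (k v (k v r)))) (k (c 8 4091 (t 6 2 (u 4 0 (k r r))) v) (k (c 48 4101 r r) (k (t 48 1 (u 32 9 (k v (k v (k v (k (c 96 4099 r (u 64 9 (k v (k v (k v r))))) r)))))) (k (c 48 4102 r r) (k (t 32 2 (c 8 4085 r v)) (k (c 32 4101 r r) (k (t 48 1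 (u 32 3 (k v (k v (k (c 96 4099 r (u 64 9 (k v (k v (k v r))))) r))))) (k (c 32 4101 r r) r))))))))))))))
 (.s 0x3ba5556012aaa0070aa22888 4082 (n false (n false (n true (n false (z 64) (z 0)) e) (n true (n false e e) e)) (n false (n false (n false (n false e e) (n false e e)) (n false (n false e e) (n false e e))) (n false e e))) (t 24 1 (u 16 0 (k (c 48 4099 r (u 32 2 (k v (k (c 4 4078 (u 16 1 (k v (k v r))) v) r)))) r)))
 (.s 0x3b9fdd802a88a223b95ff800 4091 (n false (n true (n false (n true (z 124) e) e) e) (n false (n true (z 87) e) (n false (n false (n false (n false e e) (n false e e)) (n false (n false e e) (n false e e))) (n false e e)))) (u 16 5 (k (u 9 1 (k v (k v r))) (k (c 48 4097 r r) (k (c 48 4096 r r) (k (c 32 4098 r r) (k (c 48 4096 r r) (k (c 48 4097 r r) (k (c 48 4097 r r) (k (c 48 4096 r r) (k (c 32 4097 r r) r))))))))))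
 (.s 0x3b9fdd802a88a223a77dc010 4093 (n false (n false (n true (z 87) e) (n false (n false (n false (n false e e) (n false e e)) (n false (n false e e) (n false e e))) (n false e e))) (n true (n false (z 45) (n false e e)) e)) (u 8 1 (k (u 9 0 (k v (k v r))) (k (u 9 0 (k v (k v r))) r)))
 .z .z) (.s 0x3b9fdd802a88a223b9f7d800 4091 (n false (n false (n true (z 87) e) (n false (n false (n false (n false e e) (n false e e)) (n false (n false e e) (n false e e))) (n false e e))) (n true (n false (n true (z 91) e) e) e)) (u 17 24 (k (u 8 1 (k v (k v r))) (k (u 8 1 (k v (k v r))) (k (c 17 4094 v (u 8 1 (k v (k v r)))) (k (u 33 1 (k (u 8 1 (k v (k v r))) (k (u 8 1 (k v (k v r))) r))) (k (c 33 4097 r r) (k (c 33 4095 r r) r)))))))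
 .z .z)) (.s 0x3ba57f50025fd4008aa22888 4082 (n false (n false (n true (n false (z 14) (z 156)) e) (n false e e)) (n false (n false (n false (n false e e) (n false e e)) (n false (n false e e) (n false e e))) (n false e e))) (t 16 1 (u 24 1 (k v (k (c 56 4099 r (u 40 1 (k v (k v r)))) (k (c 40 4098 r (u 56 1 (k v (k v r)))) (k (c 40 4097 r (u 56 1 (k v (k v r)))) (k (c 40 4099 r (u 56 1 (k v (k v r)))) (k (c 40 4095 r (u 56 0 (k v (k v r)))) r))))))))
 (.s 0x3ba575c012aaa00754451108 4077 (n false (n false (n true (n false (z 36) (z 0)) e) (n true (n false (n false (n false (n false e e) (n false e e)) (n false (n false e e) (n false e e))) (n false e e)) e)) (n false e e)) (t 24 1 (u 16 0 (k (u 32 2 (k v (k (c 4 4078 (u 16 1 (k v (k v r))) v) r))) r)))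
 .z .z) .z)) (.s 0x3baa2288852bba800aa22888 4094 (n false (n false (n false (z 148) e) (n true (n false (n false (n false (n false e e) (n false e e)) (n false (n false e e) (n false e e))) (n false e e)) e)) (n false (n false (n false (n false e e) (n false e e)) (n false (n false e e) (n false e e))) (n false e e))) (u 8 4 (k v (k (t 24 2 (u 16 0 (k v (k v (k (c 48 4099 r (u 32 0 (k v (k v r)))) r))))) (k (c 24 4096 r (c 10 4099 v (c 3 4099 v r))) (k (c 16 4099 r (c 10 4099 v (c 3 4099 v r))) (k (t 24 2 r) (k (t 24 2 r) (k (c 24 4099 r (c 10 4099 v (c 3 4099 v r))) (k (c 24 4101 r (c 10 4099 v (c 3 4099 v r))) r)))))))))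
 (.s 0x3ba7fd4013bbb00475445110 4083 (n false (n false (n true (n false (z 15) (z 85)) e) (n false e e)) (n true (n false (n false (n false (n false e e) (n false e e)) (n false (n false e e) (n false e e))) (n false e e)) e)) (t 16 1 (u 24 41 (k v (k v (k (c 5 4099 v (u 40 12 (k v (k v r)))) (k (c 56 4096 r (c 8 4086 (c 2 4094 v r) v)) (k (c 40 4099 r (c 5 4099 v r)) r)))))))
 (.s 0x3ba7dd4012aab00475445110 4083 (n false (n false (n true (n false (z 64) (z 11)) e) (n false e e)) (n true (n false (n false (n false (n false e e) (n false e e)) (n false (n false e e) (n false e e))) (n false e e)) e)) (t 24 3 (c 5 4099 v (u 16 0 (k (c 48 4099 r (u 32 2 (k v (k (c 16 4084 (u 4 1 (k v (k v r))) v) r)))) r))))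
 .z .z) (.s 0x3ba9df7004aaa8021caef800 4081 (n false (n false (n true (z 52) e) (n true (n false (n false (z 45) (z 0)) (n false e e)) e)) e) (t 50 1 (u 34 0 (k (c 34 4094 v r) (k (u 8 412 (k v (k v (k v (k v (k v (k v (k v (k v (k (t 24 2 (u 16 0 (k (u 32 2 (k v (k (c 34 4105 v (u 64 2 (k v (k v r)))) r))) r))) (k (t 24 1 (u 16 0 (k (c 48 4099 r (u 32 2 (k v (k (c 34 4105 v (u 64 2 (k v (k v r)))) r)))) r))) r))))))))))) r))))
 .z .z)) (.s 0x3baa228885445114afea0070 4084 (n false (n false (z 156) (n true (n false e e) e)) (n false (n true (n false (n false (n false (n false e e) (n false e e)) (n false (n false e e) (n false e e))) (n false e e)) e) (n false (n false (n false e e) (n false e e)) (n false (n false e e) (n false e e))))) (u 4 1 (k v (k (c 12 4099 r (u 8 1 (k v (k v r)))) (k (c 8 4098 r (u 12 1 (k v (k v r)))) (k (c 8 4097 r (u 12 1 (k v (k v r)))) (k (c 8 4099 r (u 12 1 (k v (k v r)))) (k (c 8 4095 r (c 3 4096 v r)) r)))))))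
 (.s 0x3baa2288853eae0075445110 4088 (n false (n false (n false (z 35) e) (n true (n false (n false (n false (n false e e) (n false e e)) (n false (n false e e) (n false e e))) (n false e e)) e)) (n true (n false (n false (n false (n false e e) (n false e e)) (n false (n false e e) (n false e e))) (n false e e)) e)) (u 8 26 (k v (k v (k v (k (t 24 1 (u 16 0 (k (t 32 3 (t 48 1 v)) r))) r)))))
 .z .z) .z))))

set_option maxRecDepth 100000 in
def N222 : NT :=
(.s 0x3e95f5004aef801d3afb00e0 4088 (n false (n true (n false (z 89) (n true (n false e e) e)) e) (n true (n false (z 52) (z 12)) e)) (t 13 2 (u 9 53 (k (u 8 19 (k v (k v (k v r)))) (k r (k (c 2 4094 (c 4 4098 r v) v) (k (t 25 1 (u 8 57 (k (u 17 0 (k v (k v r))) (k (u 17 0 (k v (k v r))) (k (c 17 4105 r v) r))))) (k (c 5 4089 (t 6 2 (u 4 0 (k r r))) (c 2 4094 (c 4 4098 r v) v)) r)))))))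
 (.s 0x3be7f7600551144452bbe008 4093 (n false (n false (n true (n true (z 87) e) e) (n false (n false (n false (n false e e) (n false e e)) (n false (n false e e) (n false e e))) (n false e e))) (n false (z 52) (n false e e))) (u 5 41 (k (u 16 1 (k v (k v r))) (k (c 6 4099 v (u 16 1 (k v (k v r)))) (k (t 13 1 (u 9 0 (k (c 9 4094 v (u 16 1 (k v (k v r)))) (k (u 16 1 (k v (k v r))) r)))) r))))
 (.s 0x3bab95fd400421f544511050 4066 (n false (n false (n true (n false (n false (n false (n true (z 156) e) (n false e e)) e) (n false e e)) e) (n true (n true (n false (n false (n false (n false e e) (n false e e)) (n false (n false e e) (n false e e))) (n false e e)) e) e)) (n false (n false e e) e)) (u 128 2 (k v (k (c 384 4099 r (u 256 1 (k v (k v r)))) (k (c 256 4095 r (u 384 0 (k v (k v r)))) r))))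
 (.s 0x3baaa22888a88a221caef800 4084 (n false (n false (n true (z 52) e) (n true (n false (n false (n false (n false (n false (n false e e) (n false e e)) (n false (n false e e) (n false e e))) (n false e e)) (n false (n false (n false e e) (n false e e)) (n false (n false e e) (n false e e)))) (n false e e)) e)) e) (u 8 247 (k v (k v (k v (k v (k v (k v (k v (k v r)))))))))
 (.s 0x3baa88a222a88a220e7d5600 4093 (n false (n true (z 67) e) (n false (n true (n false (n false (n false (n false (n false e e) (n false e e)) (n false (n false e e) (n false e e))) (n false e e)) (n false (n false (n false (n false e e) (n false e e)) (n false (n false e e) (n false e e))) (n false e e))) e) e)) (u 4 31 (k v (k v (k v (k v (k (t 12 1 (u 8 1 (k v (k v r)))) (k (c 8 4101 r (u 12 0 (k v (k v r)))) (k r (k (c 2 4088 r v) (k (c 8 4099 r (u 12 0 (k v (k v r)))) (k (t 12 1 (u 8 2 (k v (k (c 24 4097 r (u 16 0 (k v (k v r)))) r)))) (k (c 2 4091 (t 6 2 (u 4 0 (k r r))) v) (k (c 12 4101 r (u 8 1 (k v (k v r)))) (k (t 12 1 (u 8 9 (k v (k v (k v (k (c 24 4099 r (u 16 1 (k v (k v r))))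 r)))))) (k (c 12 4102 r (u 8 1 (k v (k v r)))) (k (c 8 4101 r (u 12 1 (k v (k v r)))) (k r (k (c 8 4101 r (u 12 1 (k v (k v r)))) r))))))))))))))))))
 .z .z) (.s 0x3baaa22888a88a221cfef800 4084 (n false (n false (n true (z 55) e) (n true (n false (n false (n false (n false (n false (n false e e) (n false e e)) (n false (n false e e) (n false e e))) (n false e e)) (n false (n false (n false e e) (n false e e)) (n false (n false e e) (n false e e)))) (n false e e)) e)) e) (u 8 2 (k v (k (c 4 4091 (t 6 2 r) v) r)))
 .z .z)) (.s 0x3be7f5e00551144475445110 4098 (n false (n false (n true (n true (z 103) e) e) (n false (n false (n false (n false e e) (n false e e)) (n false (n false e e) (n false e e))) (n false e e))) (n true (n false (n false (n false (n false e e) (n false e e)) (n false (n false e e) (n false e e))) (n false e e)) e)) (c 2 4095 (u 8 1 (k v (k (t 24 1 r) (k (t 16 2 r) (k (t 16 1 r) r))))) v)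
 (.s 0x3bbaa228887511441caef800 4082 (n false (n false (n true (n false (n true (n false (n false (n false (n false e e) (n false e e)) (n false (n false e e) (n false e e))) (n false e e)) e) (n true (n false (n false (n false e e) (n false e e)) (n false (n false e e) (n false e e))) e)) e) (n true (z 52) e)) e) (u 10 119 (k v (k v (k v (k v (k v (k v (k v (k v r)))))))))
 .z .z) .z)) (.s 0x3beea7f7c00e0faa22888088 4064 (n false (n false (n true (n true (n false (n true (n false (n false (z 55) e) (n true (n false e e) e)) e) (n true (n true (n false (n false (n false (n false e e) (n false e e)) (n false (n false e e) (n false e e))) (n false e e)) e) e)) e) e) (n false e e)) (n false e e)) (u 256 4 (k (t 768 1 (u 512 18 (k v (k v (k (c 8 4069 r v) (k (c 8 4069 r v) (k (c 64 4078 r v) (k (c 64 4080 (c 3 4094 v r) v) r)))))))) (k (t 768 2 (c 144 4099 v (c 8 4062 r v))) r)))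
 (.s 0x3bee95fd400e0faa22888088 4064 (n false (n false (n true (n true (n false (n true (n false (z 156) (n true (n false e e) e)) e) (n true (n true (n false (n false (n false (n false e e) (n false e e)) (n false (n false e e) (n false e e))) (n false e e)) e) e)) e) e) (n false e e)) (n false e e)) (u 128 1 (k v (k (c 384 4099 r (u 256 1 (k v (k v r)))) (k (c 256 4098 r (u 384 1 (k v (k v r)))) (k (c 256 4097 r (u 384 1 (k v (k v r)))) (k (c 256 4099 r (u 384 1 (k v (k v r)))) (k (c 256 4095 r (u 384 0 (k v (k v r)))) r)))))))
 (.s 0x3bea88a220e7d5600aa22888 4090 (n false (n false (n true (z 67) e) (n true (n true (n false (n false (n false (n false e e) (n false e e)) (n false (n false e e) (n false e e))) (n false e e)) e) e)) (n false (n false (n false (n false e e) (n false e e)) (n false (n false e e) (n false e e))) (n false e e))) (c 18 4099 v (c 3 4099 v r))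
 .z .z) (.s 0x3beea7d5c00e0faa22888088 4064 (n false (n false (n true (n true (n false (n true (n false (n false (z 35) e) (n true (n false e e) e)) e) (n true (n true (n false (n false (n false (n false e e) (n false e e)) (n false (n false e e) (n false e e))) (n false e e)) e) e)) e) e) (n false e e)) (n false e e)) (u 256 2 (k v (k v (k v (k (t 768 1 (u 512 0 (k (t 1024 3 (t 1536 1 v)) r))) r)))))
 .z .z)) (.s 0x3beee7d5c00e0faa22888088 4065 (n false (n false (n true (n true (n false (n true (n false (n true (z 35) e) (n true (n false e e) e)) e) (n true (n true (n false (n false (n false (n false e e) (n false e e)) (n false (n false e e) (n false e e))) (n false e e)) e) e)) e) e) (n false e e)) (n false e e)) (u 256 5 (k v (k v (k v (k (t 768 1 (u 512 0 (k (t 1024 3 (t 1536 1 v)) r))) r)))))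
 (.s 0x3beee577c00e0faa22888088 4060 (n false (n false (n true (n true (n false (n true (n false (n true (z 52) e) (n true (n false e e) e)) e) (n true (n true (n false (n false (n false (n false e e) (n false e e)) (n false (n false e e) (n false e e))) (n false e e)) e) e)) e) e) (n false e e)) (n false e e)) (u 256 123 (k v (k v (k v (k v (k v (k v (k (t 768 1 (u 512 0 (k v (k v r)))) (k (t 768 2 (c 8 4061 r v)) (k (t 768 1 (c 8 4064 r v)) r))))))))))
 .z .z) .z))) (.s 0x3e9dd7004eea80153bee0088 4096 (n false (n true (n false (z 37) (z 5)) e) (n false (n false (z 45) (n false e e)) (n false e e))) (t 12 1 (u 8 1 (k (c 5 4097 (t 2 1 v) v) (k (u 9 0 (k v (k v r))) r))))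
 (.s 0x3e9dd5004ebfc0153bee0088 4096 (n false (n true (n false (z 121) (z 5)) e) (n false (n false (z 45) (n false e e)) (n false e e))) (t 12 1 (u 8 12 (k r (k (u 9 3 (k v (k v r))) (k (c 2 4080 v (u 9 3 (k v (k v r)))) (k (c 24 4099 r r) r))))))
 (.s 0x3e97f50057082aa22888ee10 4073 (n false (n true (n false (n false (n false (n true (n false e e) e) (n false e e)) e) (z 14)) e) (n false (n true (n false (n true (n false e e) e) (n false e e)) e) (n false (n false (n false (n false e e) (n false e e)) (n false (n false e e) (n false e e))) (n false e e)))) (c 7 4099 v (u 12 0 (k v (k v r))))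
 (.s 0x3e95fd4009dd5003bb842e10 4078 (n false (n true (n false (z 156) (z 5)) e) (n true (n false (n true (n false (n true (n false e e) e) (n false e e)) e) (n false (n true (n false e e) e) (n false e e))) e)) (t 12 1 (u 8 2 (k v (k (c 24 4099 r (u 16 1 (k v (k v r)))) (k (c 16 4095 r (u 24 0 (k v (k v r)))) r)))))
 .z .z) (.s 0x3e9dd5004bbb801d2eee00e0 4093 (n false (n true (n false (z 42) (n true (n false e e) e)) e) (n true (n false (z 42) (z 5)) e)) (t 13 1 (u 8 20 (k r (k (u 9 39 (k v (k v (k v (k (c 5 4090 r v) (k (c 2 4091 v (c 5 4090 r v)) (k (c 2 4092 v (c 5 4090 r v)) r))))))) (k (c 9 4100 r v) r)))))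
 .z .z)) (.s 0x3e9dd5004ebfc01f4efb8020 4095 (n false (n true (n false (z 121) (z 5)) e) (n true (n true (n false (z 45) (n false e e)) e) e)) (t 12 1 (u 8 9 (k (u 17 0 (k v (k v r))) (k r (k (c 5 4096 (t 4 1 v) v) (k (c 24 4099 r r) r))))))
 (.s 0x3e9dd5004ebfc017d4441708 4079 (n false (n true (n false (z 121) (z 5)) e) (n false (n true (n true (n false (n false (n false e e) (n false e e)) (n false e e)) e) e) (n false (n true (n false e e) e) (n false e e)))) (t 12 1 (u 8 11 (k v (k v (k (c 24 4099 r (u 16 1 (k v (k v r)))) (k (c 16 4095 r (u 24 0 (k v (k v r)))) (k (c 16 4095 r (u 24 0 (k v (k v r)))) r)))))))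
 .z .z) .z)) (.s 0x3eaa22888aa2288853eab008 4083 (n false (n false (z 67) (n false e e)) (n true (n false (n false (n false (n false (n false e e) (n false e e)) (n false (n false e e) (n false e e))) (n false e e)) (n false (n false (n false (n false e e) (n false e e)) (n false (n false e e) (n false e e))) (n false e e))) e)) (u 4 115 (k v (k (c 12 4099 r r) (k (c 8 4096 r r) (k (c 8 4096 r r) (k (c 12 4097 r r) (k (c 12 4099 r r) (k r (k (c 12 4097 r r) (k (c 12 4099 r (c 9 4099 v r)) (k (c 8 4100 r r) (k (c 12 4099 r (u 8 0 (k (u 16 0 (k v (k v r))) r))) (k (c 8 4099 r r) (k (c 12 4099 r r) (k (c 8 4099 r (u 12 0 (k (u 20 0 (k v (k v r))) r))) (k (c 12 4100 r r) (k (c 12 4100 r r) (k (c 12 4099 r r) (k (c 12 4099 r r) (k (c 12 4100 r r) (k (c 12 4099 r r) r)))))))))))))))))))))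
 (.s 0x3e9fdd804ebfc01ddc215110 4082 (n false (n true (n false (z 121) (z 87)) e) (n true (n false (n false (n false (n false e e) (n false e e)) (n false e e)) (n true (n false (n true (n false e e) e) (n false e e)) e)) e)) (u 8 45 (k (t 12 1 v) (k (u 12 11 (k v (k v r))) (k (u 12 0 (k v (k v r))) (k (t 12 1 v) r)))))
 (.s 0x3e9dd7004eea801f4efb8020 4095 (n false (n true (n false (z 37) (z 5)) e) (n true (n true (n false (z 45) (n false e e)) e) e)) (t 12 1 (u 8 1 (k (c 9 4097 (t 2 1 v) v) (k (u 17 0 (k v (k v r))) r))))
 .z .z) (.s 0x3ea7d56012bea00875445110 4091 (n false (n true (n false (n false (z 67) (z 12)) (n false e e)) e) (n true (n false (n false (n false (n false e e) (n false e e)) (n false (n false e e) (n false e e))) (n false e e)) e)) (t 24 3 (u 16 155 (k v (k v (k v (k (t 48 1 (u 32 1 (k v (k v r)))) (k (t 48 1 (u 32 0 (k (u 64 0 (k v (k v r))) r))) (k (c 48 4101 r r) (k (t 48 1 (u 32 9 (k v (k v (k v (k (c 96 4099 r (u 64 1 (k v (k v r)))) r)))))) (k (c 48 4102 r r) (k (c 48 4100 r r) (k (c 32 4101 r r) (k (t 48 1 (u 32 22 (k v (k v (k v (k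 (c 96 4099 r (u 64 1 (k v (k v r)))) r)))))) (k (c 32 4101 r r) r))))))))))))))
 .z .z)) (.s 0x3eaa22888aa228885cbfb800 4093 (n false (n false (n true (z 46) e) e) (n true (n false (n false (n false (n false (n false e e) (n false e e)) (n false (n false e e) (n false e e))) (n false e e)) (n false (n false (n false (n false e e) (n false e e)) (n false (n false e e) (n false e e))) (n false e e))) e)) (u 8 1 (k v (k (u 16 1 (k v (k v r))) (k (c 24 4099 r (u 16 0 (k v (k v r)))) (k (u 16 1 (k v (k v r))) (k (c 24 4097 r (u 16 1 (k v (k v r)))) (k (c 16 4095 r (u 24 1 (k v (k v r)))) r)))))))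
 (.s 0x3eaa22888aa228885caffc00 4093 (n false (n false (n true (z 124) e) e) (n true (n false (n false (n false (n false (n false e e) (n false e e)) (n false (n false e e) (n false e e))) (n false e e)) (n false (n false (n false (n false e e) (n false e e)) (n false (n false e e) (n false e e))) (n false e e))) e)) (u 8 17 (k v (k v (k (c 24 4097 r (u 16 1 (k v (k v r)))) (k (c 24 4096 r (u 16 1 (k v (k v r)))) (k (c 24 4097 r (u 16 1 (k v (k v r)))) (k (c 24 4097 r (u 16 1 (k v (k v r)))) (k (c 16 4097 r (u 24 1 (k v (k v r)))) r))))))))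
 .z .z) .z))))

set_option maxRecDepth 100000 in
def N223 : NT :=
(.s 0x3eea88a2213fbb0052eee008 4087 (n false (n true (n false (z 87) (n true (n false (n false (n false (n false e e) (n false e e)) (n false (n false e e) (n false e e))) (n false e e)) e)) e) (n false (z 42) (n false e e))) (u 8 0 (k (u 5 52 (k v (k v (k (t 13 1 (u 9 0 (k r r))) (k (u 9 62 (k v (k v (k v (k (c 20 4099 v (c 16 4094 v (u 17 0 (k v (k v (k (t 49 1 (u 33 0 (k (t 65 3 (t 97 1 v)) r))) r)))))) r))))) (k (c 20 4099 v (c 16 4094 v r)) (k (c 20 4099 v (c 16 4094 v r)) r))))))) (k (c 20 4099 v r) r)))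
 (.s 0x3eaea88a22114442e75fe008 4085 (n false (n false (n true (z 121) e) (n false e e)) (n true (n false (n false (n false (n true (n false (n false (n false (n false e e) (n false e e)) (n false (n false e e) (n false e e))) (n false e e)) e) (n false e e)) (n false (n false e e) (n false e e))) (n false e e)) e)) (u 8 3 (k v (k v (k (c 24 4099 r (u 16 1 (k v (k v r)))) (k (c 16 4097 r (u 24 1 (k v (k v r)))) r)))))
 (.s 0x3eaa22888aa228887caef800 4092 (n false (n true (n true (z 52) e) e) (n true (n false (n false (n false (n false (n false e e) (n false e e)) (n false (n false e e) (n false e e))) (n false e e)) (n false (n false (n false (n false e e) (n false e e)) (n false (n false e e) (n false e e))) (n false e e))) e)) (u 8 10 (k v (k v (k v (k v (k v (k (t 24 1 (u 16 0 (k v (k v r)))) r)))))))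
 (.s 0x3eaa22888aa228885ceeec00 4093 (n false (n false (n true (z 85) e) e) (n true (n false (n false (n false (n false (n false e e) (n false e e)) (n false (n false e e) (n false e e))) (n false e e)) (n false (n false (n false (n false e e) (n false e e)) (n false (n false e e) (n false e e))) (n false e e))) e)) (u 8 51 (k v (k v (k v (k (c 24 4099 r (u 16 251 (k v (k v (k v (k (t 48 1 (u 32 2 (k v (k v r)))) r)))))) (k (c 8 4097 r v) (k (c 24 4097 r (u 16 37 (k v (k v (k v r))))) r)))))))
 (.s 0x3eaa22888aa228885ceeb800 4093 (n false (n false (n true (z 37) e) e) (n true (n false (n false (n false (n false (n false e e) (n false e e)) (n false (n false e e) (n false e e))) (n false e e)) (n false (n false (n false (n false e e) (n false e e)) (n false (n false e e) (n false e e))) (n false e e))) e)) (u 8 43 (k v (k v (k (u 16 0 (k (t 32 3 (t 48 1 v)) r)) (k (u 16 0 (k (t 32 3 (t 48 1 v)) r)) (k (u 16 0 (k v (k v (k (t 48 1 (u 32 0 (k (t 64 3 (t 96 1 v)) r))) r)))) (k (u 16 23 (k v (k v (k v (k (t 48 1 (u 32 0 (k (t 64 3 (t 96 1 v)) r))) r))))) r)))))))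
 .z .z) (.s 0x3eaa22888aa228885cfbec00 4092 (n false (n false (n true (z 91) e) e) (n true (n false (n false (n false (n false (n false e e) (n false e e)) (n false (n false e e) (n false e e))) (n false e e)) (n false (n false (n false (n false e e) (n false e e)) (n false (n false e e) (n false e e))) (n false e e))) e)) (u 8 15 (k v (k v (k (u 16 1 (k v (k v r))) (k (c 16 4097 r (u 24 0 (k v (k v r)))) (k (c 16 4095 r (u 24 0 (k v (k v r)))) r))))))
 .z .z)) (.s 0x3eaea88a22114442e5fdc008 4085 (n false (n false (n true (z 46) e) (n false e e)) (n true (n false (n false (n false (n true (n false (n false (n false (n false e e) (n false e e)) (n false (n false e e) (n false e e))) (n false e e)) e) (n false e e)) (n false (n false e e) (n false e e))) (n false e e)) e)) (u 8 6 (k v (k v (k (u 16 1 (k v (k v r))) (k (c 24 4099 r (u 16 0 (k v (k v r)))) (k (u 16 1 (k v (k v r))) (k (c 24 4097 r (u 16 1 (k v (k v r)))) r)))))))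
 (.s 0x3eaea88a22114442a7f56008 4088 (n false (n false (n false (z 71) e) (n false e e)) (n true (n false (n false (n false (n true (n false (n false (n false (n false e e) (n false e e)) (n false (n false e e) (n false e e))) (n false e e)) e) (n false e e)) (n false (n false e e) (n false e e))) (n false e e)) e)) (u 8 1 (k v (k (c 24 4099 r (u 16 1 (k v (k v r)))) (k (u 16 0 (k v (k v r))) (k (c 16 4099 r (u 24 1 (k v (k v r)))) (k (c 16 4099 r (u 24 1 (k v (k v r)))) (k (c 16 4099 r (u 24 1 (k v (k v r)))) r)))))))
 .z .z) .z)) (.s 0x3ee95fd400e0faa228881708 4064 (n false (n true (n false (n true (n false (z 156) (n true (n false e e) e)) e) (n true (n true (n false (n false (n false (n false e e) (n false e e)) (n false (n false e e) (n false e e))) (n false e e)) e) e)) e) (n false (n true (n false e e) e) (n false e e))) (u 32 1 (k v (k (c 96 4099 r (u 64 1 (k v (k v r)))) (k (c 64 4098 r (u 96 1 (k v (k v r)))) (k (c 64 4097 r (u 96 1 (k v (k v r)))) (k (c 64 4099 r (u 96 1 (k v (k v r)))) (k (c 64 4095 r (u 96 0 (k v (k v r)))) r)))))))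
 (.s 0x3ee7f7600aa2288874bfa800 4092 (n false (n true (n false (n true (z 87) e) (n false (n false (n false (n false e e) (n false e e)) (n false (n false e e) (n false e e))) (n false e e))) e) (n true (n false (z 14) e) e)) (u 16 1 (k (u 9 3 (k v (k v (k v r)))) (k (u 9 3 (k v (k v (k v r)))) r)))
 (.s 0x3eaea88a22114442e775c008 4085 (n false (n false (n true (z 37) e) (n false e e)) (n true (n false (n false (n false (n true (n false (n false (n false (n false e e) (n false e e)) (n false (n false e e) (n false e e))) (n false e e)) e) (n false e e)) (n false (n false e e) (n false e e))) (n false e e)) e)) (u 8 0 (k v (k (u 16 0 (k (t 32 3 (t 48 1 v)) r)) (k (u 16 0 (k (t 32 3 (t 48 1 v)) r)) (k (u 16 10 (k v (k v (k v (k (t 48 1 (u 32 0 (k (t 64 3 (t 96 1 v)) r))) r))))) (k (u 16 10 (k v (k v (k v (k (t 48 1 (u 32 0 (k (t 64 3 (t 96 1 v)) r))) r))))) (k (c 8 4095 r v) r)))))))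
 .z .z) (.s 0x3ee7f7600aa2288874feec00 4095 (n false (n true (n false (n true (z 87) e) (n false (n false (n false (n false e e) (n false e e)) (n false (n false e e) (n false e e))) (n false e e))) e) (n true (n false (z 87) e) e)) (u 16 6 (k (u 9 0 (k v (k v r))) (k r (k (u 9 0 (k v (k v r))) r))))
 .z .z)) (.s 0x3eea7f7c00e0faa228881708 4064 (n false (n true (n false (n true (n false (n false (z 55) e) (n true (n false e e) e)) e) (n true (n true (n false (n false (n false (n false e e) (n false e e)) (n false (n false e e) (n false e e))) (n false e e)) e) e)) e) (n false (n true (n false e e) e) (n false e e))) (u 64 4 (k (t 192 1 (u 128 18 (k v (k v (k (c 2 4069 r v) (k (c 2 4069 r v) (k (c 16 4078 r v) (k (c 16 4080 (c 3 4094 v r) v) r)))))))) (k (t 192 2 (c 36 4099 v (c 2 4062 r v))) r)))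
 (.s 0x3eea7d5c00e0faa228881708 4064 (n false (n true (n false (n true (n false (n false (z 35) e) (n true (n false e e) e)) e) (n true (n true (n false (n false (n false (n false e e) (n false e e)) (n false (n false e e) (n false e e))) (n false e e)) e) e)) e) (n false (n true (n false e e) e) (n false e e))) (u 64 2 (k v (k v (k v (k (t 192 1 (u 128 0 (k (t 256 3 (t 384 1 v)) r))) r)))))
 .z .z) .z))) (.s 0x3eee577c00e0faa228881708 4060 (n false (n true (n false (n true (n false (n true (z 52) e) (n true (n false e e) e)) e) (n true (n true (n false (n false (n false (n false e e) (n false e e)) (n false (n false e e) (n false e e))) (n false e e)) e) e)) e) (n false (n true (n false e e) e) (n false e e))) (u 64 123 (k v (k v (k v (k v (k v (k v (k (t 192 1 (u 128 0 (k v (k v r)))) (k (t 192 2 (c 2 4061 r v)) (k (t 192 1 (c 2 4064 r v)) r))))))))))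
 (.s 0x3eea88a221511442e775c008 4085 (n false (n false (n true (z 37) e) (n false e e)) (n true (n false (n true (n false (n false (n false (n false e e) (n false e e)) (n false (n false e e) (n false e e))) (n false e e)) e) (n false (n false (n false e e) (n false e e)) (n false (n false e e) (n false e e)))) e)) (u 8 0 (k v (k (u 16 0 (k (t 32 3 (t 48 1 v)) r)) (k (u 16 0 (k (t 32 3 (t 48 1 v)) r)) (k (u 16 0 (k v (k v (k (t 48 1 (u 32 0 (k (t 64 3 (t 96 1 v)) r))) r)))) (k (u 16 10 (k v (k v (k v (k (t 48 1 (u 32 0 (k (t 64 3 (t 96 1 v)) r))) r))))) (k (c 2 4086 (c 2 4088 r v) v) r)))))))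
 (.s 0x3eea88a221511442e5fdc008 4085 (n false (n false (n true (z 46) e) (n false e e)) (n true (n false (n true (n false (n false (n false (n false e e) (n false e e)) (n false (n false e e) (n false e e))) (n false e e)) e) (n false (n false (n false e e) (n false e e)) (n false (n false e e) (n false e e)))) e)) (u 8 6 (k v (k v (k (u 16 1 (k v (k v r))) (k (c 24 4099 r (u 16 0 (k v (k v r)))) (k (u 16 1 (k v (k v r))) (k (c 24 4097 r (u 16 1 (k v (k v r)))) r)))))))
 (.s 0x3eea88a221511442a7f56008 4088 (n false (n false (n false (z 71) e) (n false e e)) (n true (n false (n true (n false (n false (n false (n false e e) (n false e e)) (n false (n false e e) (n false e e))) (n false e e)) e) (n false (n false (n false e e) (n false e e)) (n false (n false e e) (n false e e)))) e)) (u 8 1 (k v (k (c 24 4099 r (u 16 1 (k v (k v r)))) (k (u 16 0 (k v (k v r))) (k (c 16 4099 r (u 24 1 (k v (k v r)))) (k (c 16 4099 r (u 24 1 (k v (k v r)))) (k (c 16 4099 r (u 24 1 (k v (k v r)))) r)))))))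
 .z .z) (.s 0x3eea88a221511442e75fe008 4085 (n false (n false (n true (z 121) e) (n false e e)) (n true (n false (n true (n false (n false (n false (n false e e) (n false e e)) (n false (n false e e) (n false e e))) (n false e e)) e) (n false (n false (n false e e) (n false e e)) (n false (n false e e) (n false e e)))) e)) (u 8 3 (k v (k v (k (c 24 4099 r (u 16 1 (k v (k v r)))) (k (c 16 4097 r (u 24 1 (k v (k v r)))) r)))))
 .z .z)) (.s 0x3eeaa22888aa2288813eab00 4093 (n false (n true (n false (n true (n false (n false (n false (n false (n false e e) (n false e e)) (n false (n false e e) (n false e e))) (n false e e)) (n false (n false (n false (n false e e) (n false e e)) (n false (n false e e) (n false e e))) (n false e e))) e) e) e) (z 67)) (u 3 102 (k v (k v (k v (k v (k v (k (t 7 1 (u 5 1 (k v (k v r)))) (k (c 5 4101 r (u 7 0 (k v (k v r)))) (k r (k (c 2 4098 v r) (k (c 5 4099 r (u 7 0 (k v (k v r)))) (k (t 7 1 (u 5 2 (k v (k (c 13 4097 r (u 9 0 (k v (k v r)))) r)))) (k (c 2 4098 v (t 7 2 (u 5 0 (k r r)))) (k (c 7 4101 r (u 5 1 (k v (k v r)))) (k (t 7 1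 (u 5 9 (k v (k v (k v (k (c 13 4099 r (u 9 1 (k v (k v r)))) r)))))) (k (c 7 4102 r (u 5 1 (k v (k v r)))) (k (c 5 4101 r (u 7 1 (k v (k v r)))) (k r (k (c 5 4101 r (u 7 1 (k v (k v r)))) r)))))))))))))))))))
 (.s 0x3eeaa22888aa2288812aff00 4095 (n false (z 120) (n true (n false (n true (n false (n false (n false (n false (n false e e) (n false e e)) (n false (n false e e) (n false e e))) (n false e e)) (n false (n false (n false (n false e e) (n false e e)) (n false (n false e e) (n false e e))) (n false e e))) e) e) e)) (u 2 35 (k v (k v (k v (k (t 6 1 r) (k (c 6 4096 r (c 17 4101 v r)) (k (c 6 4099 r (u 4 1 (k v (k v r)))) (k (c 4 4098 r (u 6 1 (k v (k v r)))) (k (c 4 4101 r (u 6 0 (k v (k v r)))) (k (t 6 1 (u 4 10 (k v (k v (k (c 12 4097 r (u 8 1 (k v (k v r)))) (k (c 12 4097 r (u 8 1 (k v (k v r)))) r)))))) (k (c 6 4099 r (u 4 1 (k v (k v r)))) (k (c 4 4101 r (u 6 0 (k v (k v r)))) r))))))))))))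
 .z .z) .z)) (.s 0x3efba9fdf00383ea88a22020 4066 (n false (n true (n false (n true (n true (n false (n true (n false (n false (z 55) e) (n true (n false e e) e)) e) (n true (n true (n false (n false (n false (n false e e) (n false e e)) (n false (n false e e) (n false e e))) (n false e e)) e) e)) e) e) (n false e e)) e) e) (u 512 4 (k (t 1536 1 (u 1024 6 (k v (k v (k (c 16 4069 r v) (k (c 128 4080 (c 3 4094 v r) v) r)))))) (k (t 1536 2 (c 288 4099 v (c 16 4062 r v))) r)))
 (.s 0x3efba57f500383ea88a22020 4066 (n false (n true (n false (n true (n true (n false (n true (n false (z 156) (n true (n false e e) e)) e) (n true (n true (n false (n false (n false (n false e e) (n false e e)) (n false (n false e e) (n false e e))) (n false e e)) e) e)) e) e) (n false e e)) e) e) (u 256 1 (k v (k (c 768 4099 r (u 512 1 (k v (k v r)))) (k (c 512 4098 r (u 768 1 (k v (k v r)))) (k (c 512 4097 r r) (k (c 512 4099 r (u 768 1 (k v (k v r)))) (k (c 512 4095 r (u 768 0 (k v (k v r)))) r)))))))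
 (.s 0x3eee7d5c00e0faa228881708 4065 (n false (n true (n false (n true (n false (n true (z 35) e) (n true (n false e e) e)) e) (n true (n true (n false (n false (n false (n false e e) (n false e e)) (n false (n false e e) (n false e e))) (n false e e)) e) e)) e) (n false (n true (n false e e) e) (n false e e))) (u 64 5 (k v (k v (k v (k (t 192 1 (u 128 0 (k (t 256 3 (t 384 1 v)) r))) r)))))
 .z .z) (.s 0x3efba9f5700383ea88a22020 4066 (n false (n true (n false (n true (n true (n false (n true (n false (n false (z 35) e) (n true (n false e e) e)) e) (n true (n true (n false (n false (n false (n false e e) (n false e e)) (n false (n false e e) (n false e e))) (n false e e)) e) e)) e) e) (n false e e)) e) e) (u 512 2 (k v (k v (k v (k (t 1536 1 (u 1024 0 (k (t 2048 3 (t 3072 1 v)) r))) r)))))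
 .z .z)) (.s 0x3fa77dc012aaa003f9f55800 4095 (n false (n true (n true (n true (z 67) e) e) e) (n true (n true (n false (z 45) (z 0)) e) e)) (t 25 1 (u 16 8 (k (u 17 0 (k v (k v r))) (k (u 17 7 (k v (k v r))) (k (c 5 4096 (t 4 1 v) v) (k (t 17 1 v) (k (c 32 4101 r (u 48 0 (k (u 17 7 (k v (k v r))) (k (u 17 7 (k v (k v r))) r)))) (k (c 8 4097 r (c 5 4096 (t 4 1 v) v)) (k (c 48 4101 r r) (k (c 48 4102 r r) (k (c 32 4101 r r) (k (c 32 4101 r r) r))))))))))))
 (.s 0x3efbb977700383ea88a22020 4065 (n false (n true (n false (n true (n true (n false (n true (n false (n true (z 42) e) (n true (n false e e) e)) e) (n true (n true (n false (n false (n false (n false e e) (n false e e)) (n false (n false e e) (n false e e))) (n false e e)) e) e)) e) e) (n false e e)) e) e) (c 288 4099 v (c 16 4067 (u 32 1 (k v (k v r))) v))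
 .z .z) .z))))

set_option maxRecDepth 100000 in
def N224 : NT :=
(.s 0x1d3baa0097f700775445110a0 4090 (n false (n false (z 46) (z 5)) (n true (n false (n true (n false (n false (n false (n false e e) (n false e e)) (n false (n false e e) (n false e e))) (n false e e)) e) (n false (n false e e) e)) e)) (t 6 1 (u 4 19 (k v (k (c 12 4099 r (u 8 0 (k v (k v r)))) (k (c 3 4094 v (c 10 4101 v r)) (k (c 12 4097 r r) (k (c 8 4095 r r) r)))))))
 (.s 0x1d2bfa8013baa00feea228840 4080 (n false (n false (z 156) (z 5)) (n true (n true (n true (n false (n true (n false (n false (n false e e) (n false e e)) (n false (n false e e) (n false e e))) e) (n false e e)) e) e) e)) (t 6 1 (u 4 2 (k v (k (c 12 4099 r (u 8 1 (k v (k v r)))) (k (c 8 4095 r (u 12 0 (k v (k v r)))) r)))))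
 (.s 0x3fe9df7004aaa8007cfaac00 4095 (n false (n true (n true (n true (n false (z 45) (z 0)) e) e) e) (n true (n true (z 67) e) e)) (t 48 1 (u 9 8 (k (u 32 0 (k v (k v r))) (k (u 32 7 (k v (k v r))) (k (c 8 4096 (t 4 1 v) v) (k (t 32 1 v) (k (c 17 4101 r (u 25 0 (k (u 32 7 (k v (k v r))) (k (u 32 7 (k v (k v r))) r)))) (k (c 5 4097 r (c 8 4096 (t 4 1 v) v)) (k (c 25 4101 r r) (k (c 25 4102 r r) (k (c 17 4101 r r) (k (c 17 4101 r r) r))))))))))))
 (.s 0x3fab9dd7002a88a22380ee10 4077 (n false (n true (n true (n false (n false (n false (n true (z 37) e) (n false (n false (n false (n false e e) (n false e e)) (n false (n false e e) (n false e e))) (n false e e))) (n true (n false e e) e)) e) e) e) (n true (n false (n true (n false e e) e) (n false e e)) e)) (u 128 51 (k v (k v (k v (k (c 96 4099 v (u 256 9 (k v (k v (k (t 768 1 (u 512 0 (k (t 1024 3 (t 1536 1 v)) r))) r))))) (k (c 96 4099 v (c 8 4081 r v)) r))))))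
 (.s 0x3fab9d7f802a88a22380ee10 4077 (n false (n true (n true (n false (n false (n false (n true (z 121) e) (n false (n false (n false (n false e e) (n false e e)) (n false (n false e e) (n false e e))) (n false e e))) (n true (n false e e) e)) e) e) e) (n true (n false (n true (n false e e) e) (n false e e)) e)) (u 128 39 (k v (k v (k (c 384 4099 r (u 256 1 (k v (k v r)))) (k (c 256 4095 r (u 384 0 (k v (k v r)))) r)))))
 .z .z) (.s 0x3fabaa22888444ebfc00ee10 4082 (n false (n true (n true (n false (z 121) (n false (n false (n true (n false (n false (n false (n false e e) (n false e e)) (n false (n false e e) (n false e e))) (n false e e)) e) (n false e e)) (n false e e))) e) e) (n true (n false (n true (n false e e) e) (n false e e)) e)) (u 16 1 (k v (k (c 48 4099 r (u 32 1 (k v (k v r)))) (k (c 32 4097 r (u 48 1 (k v (k v r)))) (k (c 32 4095 r (u 48 0 (k v (k v r)))) (k (c 32 4095 r (u 48 0 (k v (k v r)))) r))))))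
 .z .z)) (.s 0x1d2bfa8013baa00fbb842a220 4082 (n false (n false (z 156) (z 5)) (n true (n true (n false (n false (n false (n false e e) (n false e e)) (n false e e)) (n true (n false (n true (n false e e) e) (n false e e)) e)) e) e)) (t 6 1 (u 4 20 (k v (k v (k v (k (c 12 4099 r (u 8 1 (k v (k v r)))) (k (c 8 4099 r (u 12 1 (k v (k v r)))) r)))))))
 (.s 0x1d2bfa8013baa00ea77dc0110 4096 (n false (n false (z 156) (z 5)) (n true (n false (n false (z 45) (n false e e)) (n false e e)) e)) (t 6 1 (u 4 3 (k (c 6 4099 v (u 17 0 (k v (k v r)))) (k (u 17 0 (k v (k v r))) (k (c 12 4099 r (u 17 3 (k (u 8 1 (k v (k v r))) (k (c 17 4094 v (u 8 1 (k v (k v r)))) r)))) r)))))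
 .z .z) .z)) (.s 0x1d3baa0095ff8077d51144410 4084 (n false (n false (z 124) (z 5)) (n true (n false (n true (n true (n false (n false (n false (n false e e) (n false e e)) (n false (n false e e) (n false e e))) (n false e e)) e) e) (n false e e)) e)) (t 6 1 (u 4 22 (k v (k v (k (c 12 4097 r (u 8 1 (k v (k v r)))) (k (c 12 4096 r (u 8 1 (k v (k v r)))) (k (c 12 4097 r (u 8 1 (k v (k v r)))) (k (c 12 4099 r (u 8 1 (k v (k v r)))) r))))))))
 (.s 0x1d2eee00957f00775445110a0 4088 (n false (n true (n false (n true (n false (n false (n false (n false e e) (n false e e)) (n false (n false e e) (n false e e))) (n false e e)) e) (n false (n false e e) e)) e) (n false (z 56) (z 42))) (t 5 1 (c 16 4099 v (u 7 11 (k v (k v (k (c 3 4086 (t 7 1 (u 5 0 (k r r))) v) r))))))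
 (.s 0x1d2bfa8013fbb00fbb842a220 4082 (n false (n false (z 156) (z 87)) (n true (n true (n false (n false (n false (n false e e) (n false e e)) (n false e e)) (n true (n false (n true (n false e e) e) (n false e e)) e)) e) e)) (u 4 20 (k (t 6 1 v) (k (u 6 0 (k v (k v r))) (k (c 2 4066 (u 3 1 (k v (k v r))) v) (k (c 12 4099 r r) (k (c 8 4099 r r) r))))))
 .z .z) (.s 0x1d3baa0095578077d51144410 4080 (n false (n false (z 96) (z 5)) (n true (n false (n true (n true (n false (n false (n false (n false e e) (n false e e)) (n false (n false e e) (n false e e))) (n false e e)) e) e) (n false e e)) e)) (t 6 2 (u 4 0 (k (t 12 2 (u 8 0 (k (c 24 4099 r (u 16 9 (k v (k v (k (c 8 4084 (u 4 1 (k v (k v r))) v) r))))) r))) r)))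
 .z .z)) (.s 0x1d3baa0097f70075511444740 4088 (n false (n true (n false (n true (n false (n false e e) e) e) (n false (n false (n false (n false e e) (n false e e)) (n false (n false e e) (n false e e))) (n false e e))) e) (n false (z 46) (z 5))) (t 7 1 (u 5 1 (k v (k r (k (c 13 4099 r (u 9 0 (k v (k v r)))) (k (c 2 4094 v (c 11 4101 v r)) (k (c 13 4097 r r) (k (c 9 4095 r r) r))))))))
 (.s 0x1d3baa0097770057544511088 4093 (n false (n false (z 42) (z 5)) (n false (n false (n true (n false (n false (n false (n false e e) (n false e e)) (n false (n false e e) (n false e e))) (n false e e)) e) (n false e e)) (n false e e))) (t 6 1 (u 4 58 (k v (k v (k (t 8 3 (t 12 1 v)) (k (c 2 4090 r v) (k (t 12 3 r) (k (t 12 3 r) (k (t 12 2 (c 2 4094 (c 3 4099 v r) v)) (k (c 3 4094 v r) (k (t 12 3 (c 17 4099 v (u 8 0 (k v (k v r))))) (k (c 2 4090 r v) (k (c 2 4090 r v) r)))))))))))))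
 .z .z) .z))) (.s 0x1d3bbb009dd50077d51144410 4084 (n false (n false (z 85) (z 5)) (n true (n false (n true (n true (n false (n false (n false (n false e e) (n false e e)) (n false (n false e e) (n false e e))) (n false e e)) e) e) (n false e e)) e)) (t 6 1 (u 4 66 (k v (k v (k (c 12 4099 r r) (k (c 12 4099 r (c 10 4101 v (u 8 1 (k v (k (t 24 1 (u 16 42 (k v (k v (k v (k (c 48 4099 r (t 32 3 v)) (k (u 32 2 (k v (k v r))) r))))))) r))))) (k (c 8 4099 r r) r)))))))
 (.s 0x1d3baa009d7f8075cfef801c0 4088 (n false (n true (n false (n false (n true (z 55) e) (n true (n false e e) e)) e) e) (n false (z 121) (z 5))) (t 7 1 (u 5 4 (k (u 32 12 (k v (k v r))) (k (c 32 4096 r v) (k (c 13 4099 r r) (k (c 9 4097 r r) r))))))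
 (.s 0x1d3baa009d7f8075511444740 4088 (n false (n false (z 121) (z 5)) (n true (n false (n true (n false (n false e e) e) e) (n false (n false (n false (n false e e) (n false e e)) (n false (n false e e) (n false e e))) (n false e e))) e)) (t 6 1 (u 4 1 (k v (k (c 12 4099 r (u 8 1 (k v (k v r)))) (k (c 8 4097 r r) (k (c 8 4095 r (u 12 0 (k v (k v r)))) (k (c 8 4095 r (u 12 0 (k v (k v r)))) r)))))))
 (.s 0x1d3baa009d7d80775445110a0 4088 (n false (n true (n false (n true (n false (n false (n false (n false e e) (n false e e)) (n false (n false e e) (n false e e))) (n false e e)) e) (n false (n false e e) e)) e) (n false (z 89) (z 5))) (t 7 1 (u 5 38 (k v (k v (k v (k (t 13 3 (u 9 26 (k v (k v (k v r))))) (k (c 13 4099 r (u 9 0 (k (u 17 326 (k v (k v (k v (k v (k v r)))))) (k (c 17 4096 r (c 16 4099 v (u 25 0 (k v (k v r))))) (k (u 17 1 (k v (k v r))) (k (c 25 4096 r r) r)))))) (k (c 13 4097 r (u 9 69 (k v (k v (k (c 25 4099 r r) (k (c 25 4099 r (c 5 4088 r v)) (k (c 9 4097 r v) (k (c 25 4096 r (c 5 4088 r v)) r)))))))) r))))))))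
 .z .z) (.s 0x1d3baa009d7f8075cbff801c0 4088 (n false (n true (n false (n false (n true (z 62) e) (n true (n false e e) e)) e) e) (n false (z 121) (z 5))) (t 7 1 (u 32 13 (k r (k (c 24 4094 v r) (k (c 24 4094 v r) (k (c 24 4094 v r) (k (t 96 1 (u 64 26 (k (c 24 4094 v r) (k r (k (u 5 29 (k v (k v (k v (k (c 13 4099 r (u 9 1 (k v (k v r)))) r))))) r))))) r)))))))
 .z .z)) (.s 0x1d3bae009dd50075cbff801c0 4088 (n false (n true (n false (n false (n true (z 62) e) (n true (n false e e) e)) e) e) (n false (z 37) (z 5))) (t 7 1 (u 32 12 (k r (k r (k (c 24 4094 v (u 5 1 (k v (k v r)))) (k (t 96 1 (u 64 26 (k r (k (u 5 1 (k v (k v r))) (k (u 5 1 (k v (k v r))) r))))) r))))))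
 (.s 0x1d3baa009d7f80775445110a0 4090 (n false (n true (n false (n true (n false (n false (n false (n false e e) (n false e e)) (n false (n false e e) (n false e e))) (n false e e)) e) (n false (n false e e) e)) e) (n false (z 121) (z 5))) (t 7 1 (u 5 1 (k v (k (c 13 4099 r (u 9 1 (k v (k v r)))) (k (c 9 4097 r r) (k (c 9 4095 r (u 13 0 (k v (k v r)))) (k (c 9 4095 r (u 13 0 (k v (k v r)))) r)))))))
 .z .z) .z)) (.s 0x1d4eea80275f6011754451108 4085 (n false (n false (n false (z 89) (z 5)) (n false e e)) (n false (n true (n false (n false (n false (n false e e) (n false e e)) (n false (n false e e) (n false e e))) (n false e e)) e) (n false e e))) (t 12 1 (u 8 13 (k v (k v (k v (k v (k (t 24 3 (u 16 26 (k v (k v (k v r))))) (k (t 24 2 (c 4 4083 r v)) (k (t 16 1 (c 12 4099 v (u 24 0 (k v (k (c 4 4080 (u 10 0 (k (u 18 0 (k v (k v r))) r)) v) r))))) r)))))))))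
 (.s 0x1d4abe8025554012afe00ee10 4081 (n false (n false (z 56) (n false (z 24) (z 0))) (n true (n false (n true (n false e e) e) (n false e e)) e)) (t 14 1 (u 10 0 (k (t 18 3 (t 26 1 (u 4 0 (k (u 8 401 (k v (k v (k v (k v (k v (k v (k (t 24 1 (u 16 0 (k v (k v r)))) r)))))))) (k (c 8 4096 r (u 12 0 (k v (k v r)))) (k (u 8 1 (k v (k v r))) (k (c 12 4096 r (u 8 401 (k v (k v (k v (k v (k v (k v (k (t 24 1 (u 16 0 (k v (k v r)))) r))))))))) r))))))) r)))
 (.s 0x1d3fbb009d7f80775445110a0 4090 (n false (n false (z 121) (z 87)) (n true (n false (n true (n false (n false (n false (n false e e) (n false e e)) (n false (n false e e) (n false e e))) (n false e e)) e) (n false (n false e e) e)) e)) (c 17 4099 v (u 4 1 (k (u 6 0 (k v (k v r))) (k (c 12 4099 r r) (k (c 8 4097 r r) (k (c 8 4095 r r) (k (c 8 4095 r r) r)))))))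
 .z .z) (.s 0x1d4bfa80257d401c2977d0070 4084 (n false (n false (n false (z 14) (z 12)) (n true (n false e e) e)) (n false (z 26) (n true (n false e e) e))) (t 12 3 (c 6 4094 v (u 8 1 (k r (k (u 5 2 (k v (k (c 2 4094 v (u 9 3 (k v (k v r)))) r))) (k (u 5 2 (k v (k (c 3 4082 r v) r))) r))))))
 .z .z)) (.s 0x1d4eeb8025df600baa2288870 4077 (n false (n false (n false (z 90) (z 37)) e) (n false (n true (n false (n false (n false (n false e e) (n false e e)) (n false (n false e e) (n false e e))) (n false e e)) e) (n true (n false e e) e))) (t 12 1 (c 9 4099 v (u 8 1 (k v (k (u 16 4 (k v (k (c 48 4099 r r) (k r (k (c 48 4099 r r) (k r (k (c 48 4096 r r) (k (c 32 4099 r r) r)))))))) (k (c 24 4097 r (u 16 1 (k v (k (c 48 4097 r (u 32 0 (k v (k v r)))) r)))) (k r (k (c 16 4097 r (u 24 0 (k (u 40 0 (k v (k v r))) r))) (k (c 24 4097 r r) (k r (k (c 24 4095 r r) (k (c 16 4095 r r) r))))))))))))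
 (.s 0x1d4eea80275fe00ae7f760070 4086 (n false (n false (n false (n true (z 87) e) e) (n true (n false e e) e)) (n false (n false (z 121) (z 5)) e)) (t 13 1 (u 9 10 (k (u 16 1 (k v (k v r))) (k (c 13 4099 v r) (k (u 16 1 (k v (k v r))) (k (c 25 4099 r r) r))))))
 .z .z) .z))))

set_option maxRecDepth 100000 in
def N225 : NT :=
(.s 0x1d544511154451114aef802a0 4088 (n false (n false (z 52) (n false (n false (n false e e) e) e)) (n false (n false (n false (n false (n false e e) (n false e e)) (n false (n false e e) (n false e e))) (n false e e)) (n false (n false (n false (n false e e) (n false e e)) (n false (n false e e) (n false e e))) (n false e e)))) (u 4 166 (k v (k v (k v (k v (k (t 12 1 (u 8 2 (k v (k v r)))) r))))))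
 (.s 0x1d53baa0095f5004affc02288 4088 (n false (n false (n false (z 124) (n false (z 12) (z 5))) (n false e e)) (n false (n false e e) (n false e e))) (t 20 3 (t 28 1 (u 8 3 (k v (k v (k (c 24 4097 r (u 16 1 (k v (k v r)))) (k (c 24 4096 r (u 16 1 (k v (k v r)))) (k (c 24 4097 r (u 16 1 (k v (k v r)))) r))))))))
 (.s 0x1d52afa0095550027df601708 4076 (n false (n false (z 91) (n false (n false (z 24) (z 0)) e)) (n false (n true (n false e e) e) (n false e e))) (t 26 1 (u 18 0 (k (t 34 3 (t 50 1 (u 4 0 (k v (k v (k (u 8 0 (k v (k v r))) (k (c 8 4097 r (u 12 3 (k v (k v (k v r))))) (k (c 8 4095 r (u 12 3 (k v (k v (k v r))))) r)))))))) r)))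
 (.s 0x1d52afa00852afa008e577c00 4091 (n false (n false (n false (n false (z 24) (n false e e)) e) (n false (z 24) (n false e e))) (n true (z 52) e)) (u 5 103 (k r (k r (k (c 8 4096 (c 2 4098 r v) (c 10 4098 r v)) (k (c 8 4096 (c 2 4098 r v) (c 10 4098 r v)) (k (t 13 1 (u 10 0 (k (t 18 3 (t 26 1 (u 9 0 (k (u 16 0 (k (t 32 3 (t 48 1 v)) r)) (k (u 16 0 (k (t 32 3 (t 48 1 v)) r)) r))))) r))) r))))))
 (.s 0x1d4efb8025554013bae00ae10 4087 (n false (n false (n false (z 45) (z 0)) (z 37)) (n false (n false (n true (n false e e) e) (n false e e)) e)) (t 12 1 (u 6 10 (k (u 8 0 (k v (k v r))) (k (c 2 4095 (c 2 4097 (t 2 1 v) v) v) (k (u 8 2 (k v (k v r))) (k (c 4 4097 (t 2 1 v) (u 10 0 (k (t 18 3 (t 26 1 v)) r))) (k (t 8 1 (u 10 14 (k v (k v (k (t 26 1 (u 18 0 (k (t 34 3 (t 50 1 v)) r))) r))))) (k (c 6 4095 r (u 8 0 (k v (k v r)))) r))))))))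
 .z .z) (.s 0x1d52afa009555002777601708 4076 (n false (n false (z 85) (n false (n false (z 24) (z 0)) e)) (n false (n true (n false e e) e) (n false e e))) (t 26 1 (u 18 0 (k (t 34 3 (t 50 1 (u 4 24 (k v (k (c 12 4099 r (u 8 382 (k v (k v (k v (k v (k v (k v (k v r))))))))) (k (c 12 4099 r r) (k (c 12 4099 r (u 8 3 (k v (k v (k v (k (t 24 1 (u 16 26 (k v (k v (k v r))))) r)))))) (k (u 8 24 (k v (k v (k v (k (t 24 2 (u 16 26 (k v (k v (k v r))))) r))))) (k (c 12 4096 r r) r))))))))) r)))
 .z .z)) (.s 0x1d52bfa801c2a22888aa22888 4083 (n false (n false (n false (n false (z 156) (n true (n false e e) e)) (n false (n false (n false e e) (n false e e)) (n false (n false e e) (n false e e)))) (n false e e)) (n false (n false (n false (n false e e) (n false e e)) (n false (n false e e) (n false e e))) (n false e e))) (u 16 14 (k v (k v (k (c 48 4099 r (u 32 1 (k v (k v r)))) (k (c 32 4099 r (u 48 1 (k v (k v r)))) (k (c 32 4095 r (u 48 0 (k v (k v r)))) r))))))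
 (.s 0x1d52afa009555002e113bbb00 4084 (n false (n false (n false (n false (z 24) (z 0)) e) (n false (n true (n false e e) e) (n false e e))) (z 85)) (t 24 1 (u 3 14 (k (c 10 4094 v (u 16 0 (k (t 32 3 (t 48 1 v)) r))) (k (c 10 4094 v (u 16 0 (k (t 32 3 (t 48 1 v)) r))) (k r (k (c 7 4099 r r) (k (c 7 4099 r r) (k (c 7 4096 r r) r))))))))
 .z .z) .z)) (.s 0x1d53eff00875445110aa22888 4091 (n false (n false (n false (n false (z 123) (n false e e)) e) (n true (n false (n false (n false (n false e e) (n false e e)) (n false (n false e e) (n false e e))) (n false e e)) e)) (n false (n false (n false (n false e e) (n false e e)) (n false (n false e e) (n false e e))) (n false e e))) (u 16 18 (k v (k (c 48 4099 r (u 32 22 (k v (k v (k v r))))) r)))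
 (.s 0x1d53baa0095f5004eeec02288 4088 (n false (n false (n false (z 85) (n false (z 12) (z 5))) (n false e e)) (n false (n false e e) (n false e e))) (t 20 3 (t 28 1 (u 8 80 (k v (k (t 24 2 (u 16 400 (k v (k v (k v (k v (k v r))))))) (k (c 24 4099 r r) (k (c 24 4099 r (c 8 4094 r v)) (k (c 8 4097 r v) (k (c 24 4096 r r) (k (t 16 1 (c 44 4101 v (c 4 4085 r v))) r))))))))))
 (.s 0x1d53baa0095f5004bfb802288 4088 (n false (n false (n false (n false (z 12) (z 5)) (z 46)) (n false e e)) (n false (n false e e) (n false e e))) (t 16 3 (t 24 1 (u 12 2 (k v (k (c 28 4099 r (u 20 0 (k v (k v r)))) (k r (k (c 4 4094 (c 10 4101 v r) v) (k (c 28 4097 r r) (k (c 20 4095 r r) r)))))))))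
 .z .z) (.s 0x1d53bbb009dd5007544511088 4091 (n false (n false (n false (n false (z 85) (z 5)) (n true (n false (n false (n false (n false e e) (n false e e)) (n false (n false e e) (n false e e))) (n false e e)) e)) (n false e e)) (n false e e)) (t 24 2 (u 16 15 (k v (k (c 48 4099 r (c 12 4110 v r)) (k (c 48 4099 r r) (k (c 48 4099 r (c 12 4110 v (u 32 5 (k v (k v r))))) (k (c 12 4110 v (u 32 12 (k v (k v r)))) (k (c 48 4096 r r) (k (c 32 4099 r (c 12 4110 v r)) r)))))))))
 .z .z)) (.s 0x1d54451112eee00bea88a2208 4085 (n false (n false (z 42) (n false (n false (n false (n false e e) (n false e e)) (n false (n false e e) (n false e e))) (n false e e))) (n false (n true (n true (n false (n false (n false (n false e e) (n false e e)) (n false (n false e e) (n false e e))) (n false e e)) e) e) (n false e e))) (u 4 72 (k v (k v (k v (k (t 8 3 (t 12 1 v)) (k (c 2 4090 r v) (k (t 12 3 (c 6 4099 v (u 8 0 (k v (k v r))))) (k (t 12 2 (c 6 4099 v (u 8 15 (k v (k v (k v r)))))) (k (c 2 4090 (c 3 4099 v r) v) (k (t 12 3 (c 6 4099 v (u 8 1 (k v (k v r))))) (k (c 2 4090 r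 v) (k (c 2 4090 r v) r))))))))))))
 (.s 0x1d53fbb0095f5004eeec02288 4088 (n false (n false (n false (n false (z 87) (z 12)) (z 85)) (n false e e)) (n false (n false e e) (n false e e))) (t 24 3 (c 2 4088 (u 8 0 (k (c 12 4110 v r) (k (c 20 4099 v (c 2 4083 r v)) r))) v))
 .z .z) .z))) (.s 0x1d54451115445111dcafea000 4088 (n false (n true (n false (n true (z 156) e) e) e) (n false (n false (n false (n false (n false e e) (n false e e)) (n false (n false e e) (n false e e))) (n false e e)) (n false (n false (n false (n false e e) (n false e e)) (n false (n false e e) (n false e e))) (n false e e)))) (u 16 8 (k v (k v (k (c 48 4099 r (u 32 1 (k v (k v r)))) (k (c 32 4098 r (u 48 1 (k v (k v r)))) (k (c 32 4097 r (u 48 1 (k v (k v r)))) (k (c 32 4099 r (u 48 1 (k v (k v r)))) r)))))))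
 (.s 0x1d5445111544511173eee0070 4088 (n false (n false (n true (z 43) e) (n true (n false e e) e)) (n false (n false (n false (n false (n false e e) (n false e e)) (n false (n false e e) (n false e e))) (n false e e)) (n false (n false (n false (n false e e) (n false e e)) (n false (n false e e) (n false e e))) (n false e e)))) (u 8 0 (k v (k r (k (c 24 4099 r (u 16 0 (k (u 32 0 (k v (k v r))) r))) (k r (k (c 3 4101 v r) (k (u 16 0 (k (u 32 0 (k v (k v r))) r)) (k r (k r r)))))))))
 (.s 0x1d544511154451114fab803a0 4087 (n false (n false (n true (n false (n false e e) e) e) (z 35)) (n false (n false (n false (n false (n false e e) (n false e e)) (n false (n false e e) (n false e e))) (n false e e)) (n false (n false (n false (n false e e) (n false e e)) (n false (n false e e) (n false e e))) (n false e e)))) (u 6 0 (k v (k v (k (t 14 1 (u 10 0 (k (t 18 3 (t 26 1 v)) r))) r))))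
 (.s 0x1d544511154451114aef803a0 4087 (n false (n false (n true (n false (n false e e) e) e) (z 52)) (n false (n false (n false (n false (n false e e) (n false e e)) (n false (n false e e) (n false e e))) (n false e e)) (n false (n false (n false (n false e e) (n false e e)) (n false (n false e e) (n false e e))) (n false e e)))) (u 6 171 (k v (k v (k v (k v (k (t 14 1 (u 10 0 (k v (k v r)))) r))))))
 .z .z) (.s 0x1d5445111544511172bfa8008 4083 (n false (n false (n true (z 156) e) (n false e e)) (n false (n false (n false (n false (n false e e) (n false e e)) (n false (n false e e) (n false e e))) (n false e e)) (n false (n false (n false (n false e e) (n false e e)) (n false (n false e e) (n false e e))) (n false e e)))) (u 8 1 (k v (k (c 24 4099 r (u 16 1 (k v (k v r)))) (k (c 16 4098 r (u 24 1 (k v (k v r)))) (k (c 16 4097 r (u 24 1 (k v (k v r)))) (k (c 16 4099 r (u 24 1 (k v (k v r)))) (k (c 16 4095 r (u 24 0 (k v (k v r)))) r)))))))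
 .z .z)) (.s 0x1d544511154451117cafea000 4093 (n false (n false (n true (n true (z 156) e) e) e) (n false (n false (n false (n false (n false e e) (n false e e)) (n false (n false e e) (n false e e))) (n false e e)) (n false (n false (n false (n false e e) (n false e e)) (n false (n false e e) (n false e e))) (n false e e)))) (u 16 1 (k v (k (c 48 4099 r (u 32 1 (k v (k v r)))) (k (c 32 4098 r (u 48 1 (k v (k v r)))) (k (c 32 4097 r (u 48 1 (k v (k v r)))) (k (c 32 4099 r (u 48 1 (k v (k v r)))) (k (c 32 4095 r (u 48 0 (k v (k v r)))) r)))))))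
 (.s 0x1d544511154451117caef8008 4079 (n false (n false (n true (n true (z 52) e) e) (n false e e)) (n false (n false (n false (n false (n false e e) (n false e e)) (n false (n false e e) (n false e e))) (n false e e)) (n false (n false (n false (n false e e) (n false e e)) (n false (n false e e) (n false e e))) (n false e e)))) (u 16 63 (k v (k v (k v (k v (k v r))))))
 .z .z) .z)) (.s 0x1d551144455114444eeb80288 4082 (n false (n false (n false (n false (n false (n false (n false e e) (n false e e)) (n false (n false e e) (n false e e))) (n false e e)) (n false (n false (n false (n false e e) (n false e e)) (n false (n false e e) (n false e e))) (n false e e))) (z 37)) (n false (n false e e) (n false e e))) (u 6 22 (k v (k (u 10 0 (k (t 18 3 (t 26 1 v)) r)) (k r (k r (k (u 10 0 (k (t 18 3 (t 26 1 v)) r)) (k r r)))))))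
 (.s 0x1d54451115445111f4bbb8020 4092 (n false (n true (n true (n false (z 42) (n false e e)) e) e) (n false (n false (n false (n false (n false e e) (n false e e)) (n false (n false e e) (n false e e))) (n false e e)) (n false (n false (n false (n false e e) (n false e e)) (n false (n false e e) (n false e e))) (n false e e)))) (u 16 11 (k v (k v (k (c 4 4085 (t 12 1 (u 8 0 (k r r))) v) r))))
 (.s 0x1d54451115445111df3aff000 4092 (n false (n true (n false (n true (n true (z 121) e) e) e) e) (n false (n false (n false (n false (n false e e) (n false e e)) (n false (n false e e) (n false e e))) (n false e e)) (n false (n false (n false (n false e e) (n false e e)) (n false (n false e e) (n false e e))) (n false e e)))) (c 5 4099 v (u 32 1 (k v (k (c 96 4099 r (u 64 1 (k v (k v r)))) (k (c 64 4097 r (u 96 1 (k v (k v r)))) (k (c 64 4095 r (u 96 0 (k v (k v r)))) (k (c 64 4095 r (u 96 0 (k v (k v r)))) r)))))))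
 .z .z) (.s 0x1d55114445511444453bae008 4094 (n false (n false (n false (n false (n false (n false (n false e e) (n false e e)) (n false (n false e e) (n false e e))) (n false e e)) (n false (n false (n false (n false e e) (n false e e)) (n false (n false e e) (n false e e))) (n false e e))) (n false e e)) (n false (z 37) (n false e e))) (u 5 37 (k v (k v (k v (k r (k (c 2 4099 v (u 9 0 (k (t 17 3 (t 25 1 v)) r))) (k (c 8 4099 v r) r)))))))
 .z .z)) (.s 0x1d5754451108a2214aef803a0 4087 (n false (n false (n true (n false (n false e e) e) e) (z 52)) (n false (n false (n false (n false (n true (n false (n false (n false (n false e e) (n false e e)) (n false (n false e e) (n false e e))) (n false e e)) e) (n false e e)) (n false (n false e e) (n false e e))) (n false e e)) e)) (u 6 217 (k v (k v (k v (k v (k (t 14 1 (u 10 0 (k v (k v r)))) r))))))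
 (.s 0x1d5511444551144474aaac020 4086 (n false (n false (n true (n false (z 64) (n false e e)) e) (n false (n false (n false (n false (n false e e) (n false e e)) (n false (n false e e) (n false e e))) (n false e e)) (n false (n false (n false (n false e e) (n false e e)) (n false (n false e e) (n false e e))) (n false e e)))) e) (u 16 0 (k (t 48 1 (u 32 2 (k v (k (c 48 4099 v (c 4 4078 (u 16 1 (k v (k v r))) v)) r)))) r))
 .z .z) .z))))

set_option maxRecDepth 100000 in
def N226 : NT :=
(.s 0x1d75445110a88a22a75fe01c0 4083 (n false (n false (n false (n false (z 121) (n true (n false e e) e)) e) (n false (n true (n false (n false (n false (n false e e) (n false e e)) (n false (n false e e) (n false e e))) (n false e e)) e) (n false (n false (n false e e) (n false e e)) (n false (n false e e) (n false e e))))) e) (c 10 4110 v (u 16 1 (k v (k (c 48 4099 r (u 32 1 (k v (k v r)))) (k (c 32 4097 r (u 48 1 (k v (k v r)))) (k (c 32 4095 r (u 48 0 (k v (k v r)))) (k (c 32 4095 r (u 48 0 (k v (k v r)))) r)))))))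
 (.s 0x1d75445110a88a2172bfa8008 4083 (n false (n false (n true (z 156) e) (n false e e)) (n false (n false (n true (n false (n false (n false (n false e e) (n false e e)) (n false (n false e e) (n false e e))) (n false e e)) e) (n false (n false (n false e e) (n false e e)) (n false (n false e e) (n false e e)))) e)) (u 8 8 (k v (k v (k (c 24 4099 r (u 16 1 (k v (k v r)))) (k (c 16 4098 r (u 24 1 (k v (k v r)))) (k (c 16 4097 r (u 24 1 (k v (k v r)))) (k (c 16 4099 r (u 24 1 (k v (k v r)))) r)))))))
 (.s 0x1d5cbfb8015445111c3875110 4079 (n false (n false (n false (n false (n true (z 46) e) (n false (n false (n false (n false e e) (n false e e)) (n false (n false e e) (n false e e))) (n false e e))) (n true (n false e e) e)) (n true (n false e e) e)) (n true (n false (n false (n false e e) (n false e e)) (n false e e)) e)) (c 24 4099 v (c 6 4094 v (u 32 2 (k v (k (c 96 4099 r (u 64 0 (k v (k v r)))) (k (u 64 1 (k v (k v r))) (k (u 64 1 (k v (k v r))) (k (c 96 4097 r (u 64 1 (k v (k v r)))) (k (c 64 4095 r (u 96 1 (k v (k v r)))) r)))))))))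
 (.s 0x1d5754451108a223a0e577c00 4083 (n false (n false (n true (n false (n false e e) e) e) (n false (n false (n false (n true (n false (n false (n false (n false e e) (n false e e)) (n false (n false e e) (n false e e))) (n false e e)) e) (n false e e)) (n false (n false e e) (n false e e))) (n false e e))) (n true (z 52) e)) (u 5 14 (k v (k v (k v (k v (k v (k v (k (t 13 1 (u 9 0 (k v (k v r)))) r))))))))
 (.s 0x1d5754451108a2217caef8008 4084 (n false (n false (n true (n true (z 52) e) e) (n false e e)) (n false (n false (n false (n false (n true (n false (n false (n false (n false e e) (n false e e)) (n false (n false e e) (n false e e))) (n false e e)) e) (n false e e)) (n false (n false e e) (n false e e))) (n false e e)) e)) (u 16 196 (k v (k v (k v (k v r)))))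
 .z .z) (.s 0x1d5754451108a223a0e5ffc00 4083 (n false (n false (n true (n false (n false e e) e) e) (n false (n false (n false (n true (n false (n false (n false (n false e e) (n false e e)) (n false (n false e e) (n false e e))) (n false e e)) e) (n false e e)) (n false (n false e e) (n false e e))) (n false e e))) (n true (z 62) e)) (u 5 4 (k v (k v (k v (k (t 13 1 (u 9 41 (k v (k v (k (t 25 1 (u 17 0 (k v (k v r)))) r))))) r)))))
 .z .z)) (.s 0x1d7544511095df0070e7f7e00 4091 (n false (n false (n false (z 52) (n true (n false (n false (n false (n false e e) (n false e e)) (n false (n false e e) (n false e e))) (n false e e)) e)) (n true (n false e e) e)) (n true (z 119) e)) (u 5 57 (k (c 8 4097 r v) (k (c 8 4097 r v) (k r (k (c 3 4091 r (c 8 4097 r v)) (k (c 8 4097 r (c 13 4099 r r)) (k (c 13 4097 r (c 8 4097 r r)) (k (c 3 4088 (t 6 2 (u 4 0 (k r r))) (c 8 4097 r v)) (k (c 8 4097 r (c 9 4098 r r)) (k (c 8 4097 r (c 9 4101 r r)) (k (u 9 2 (k r (k r (k (c 25 4099 r r) (k (c 17 4095 r r) (k (c 17 4095 r r) r)))))) (k (c 8 4097 r (c 9 4099 r r)) (k (c 8 4097 r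 (c 9 4101 r r)) (k (u 9 14 (k r (k r (k (c 25 4099 r r) (k (c 17 4099 r r) (k (c 17 4095 r r) r)))))) r))))))))))))))
 (.s 0x1d5ceeb8015445111c3875110 4079 (n false (n false (n false (n false (n true (z 37) e) (n false (n false (n false (n false e e) (n false e e)) (n false (n false e e) (n false e e))) (n false e e))) (n true (n false e e) e)) (n true (n false e e) e)) (n true (n false (n false (n false e e) (n false e e)) (n false e e)) e)) (u 32 18 (k v (k v (k (c 24 4099 v (c 2 4084 (c 3 4094 v (u 32 0 (k (t 64 3 (t 96 1 v)) r))) v)) (k (c 24 4099 v (c 2 4084 (c 3 4094 v r) v)) (k (u 64 8 (k v (k (t 192 1 (u 128 0 (k (t 256 3 (t 384 1 v)) r))) r))) (k (c 24 4099 v (c 6 4094 v (c 2 4081 r v))) r)))))))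
 .z .z) .z)) (.s 0x1d75445110a88a2275fe01510 4093 (n false (n false (z 121) (n false (n true (n false (n false (n false (n false e e) (n false e e)) (n false (n false e e) (n false e e))) (n false e e)) e) (n false (n false (n false e e) (n false e e)) (n false (n false e e) (n false e e))))) (n false (n false (n false e e) (n false e e)) e)) (c 6 4096 v (u 4 2 (k v (k v (k (c 12 4099 r (u 8 1 (k v (k v r)))) (k (c 8 4095 r (u 12 0 (k v (k v r)))) (k (c 8 4095 r (u 12 0 (k v (k v r)))) r)))))))
 (.s 0x1d75445110a88a222a577c008 4083 (n false (n false (n false (z 52) e) (n false e e)) (n false (n false (n true (n false (n false (n false (n false e e) (n false e e)) (n false (n false e e) (n false e e))) (n false e e)) e) (n false (n false (n false e e) (n false e e)) (n false (n false e e) (n false e e)))) (n false e e))) (u 8 416 (k v (k v (k v (k v (k v (k v (k v (k v r)))))))))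
 (.s 0x1d75445110a88a217caef8008 4084 (n false (n false (n true (n true (z 52) e) e) (n false e e)) (n false (n false (n true (n false (n false (n false (n false e e) (n false e e)) (n false (n false e e) (n false e e))) (n false e e)) e) (n false (n false (n false e e) (n false e e)) (n false (n false e e) (n false e e)))) e)) (u 16 196 (k v (k v (k v (k v r)))))
 .z .z) (.s 0x1d75445110a88a222e577c008 4083 (n false (n false (n true (z 52) e) (n false e e)) (n false (n false (n true (n false (n false (n false (n false e e) (n false e e)) (n false (n false e e) (n false e e))) (n false e e)) e) (n false (n false (n false e e) (n false e e)) (n false (n false e e) (n false e e)))) (n false e e))) (u 8 346 (k v (k v (k v (k v (k v (k v (k v (k v r)))))))))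
 .z .z)) (.s 0x1d75445110a88a22775c01708 4081 (n false (n false (z 37) (n false (n true (n false (n false (n false (n false e e) (n false e e)) (n false (n false e e) (n false e e))) (n false e e)) e) (n false (n false (n false e e) (n false e e)) (n false (n false e e) (n false e e))))) (n false (n true (n false e e) e) (n false e e))) (c 18 4099 v (c 14 4101 v r))
 (.s 0x1d75445110a88a2275fe01708 4074 (n false (n false (z 121) (n false (n true (n false (n false (n false (n false e e) (n false e e)) (n false (n false e e) (n false e e))) (n false e e)) e) (n false (n false (n false e e) (n false e e)) (n false (n false e e) (n false e e))))) (n false (n true (n false e e) e) (n false e e))) (u 4 1 (k v (k (c 12 4099 r (u 8 1 (k v (k v r)))) (k (c 8 4097 r (u 12 1 (k v (k v r)))) (k (c 8 4095 r (u 12 0 (k v (k v r)))) (k (c 8 4095 r (u 12 0 (k v (k v r)))) r))))))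
 .z .z) .z))) (.s 0x1d75445110e1c3a75fe015110 4082 (n false (n true (n false (z 121) (n false (n false (n false e e) (n false e e)) (n false e e))) e) (n false (n false (n true (n false (n false (n false (n false e e) (n false e e)) (n false (n false e e) (n false e e))) (n false e e)) e) (n true (n false e e) e)) (n true (n false e e) e))) (u 8 2 (k v (k v (k (c 24 4099 r (u 16 1 (k v (k v r)))) (k (c 16 4095 r (u 24 0 (k v (k v r)))) (k (c 16 4095 r (u 24 0 (k v (k v r)))) r))))))
 (.s 0x1d75445110e154451112efb00 4091 (n false (n false (n false (n true (n false (n false (n false (n false e e) (n false e e)) (n false (n false e e) (n false e e))) (n false e e)) e) (n true (n false e e) e)) (n false (n false (n false (n false e e) (n false e e)) (n false (n false e e) (n false e e))) (n false e e))) (z 90)) (u 3 5 (k v (k r (k (c 7 4097 r r) (k r (k (c 5 4097 r (u 7 0 (k (u 11 0 (k v (k v r))) r))) (k (c 7 4097 r r) (k r (k (c 7 4095 r r) (k (c 5 4095 r r) r))))))))))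
 (.s 0x1d75445110a88a23a97ff8020 4086 (n false (n false (n true (n false (n false (z 126) e) (n false e e)) e) (n false (n true (n false (n false (n false (n false e e) (n false e e)) (n false (n false e e) (n false e e))) (n false e e)) e) (n false (n false (n false e e) (n false e e)) (n false (n false e e) (n false e e))))) e) (c 14 4101 v (u 32 0 (k (t 96 1 (u 64 63 (k v (k v (k (c 192 4099 r (u 128 6 (k v (k v (k v r))))) (k (c 128 4095 r (c 16 4087 r v)) (k (c 128 4095 r (c 16 4087 r v)) r))))))) (k (c 16 4091 (t 6 1 r) v) (k (t 96 2 (c 16 4085 r v)) (k (t 96 2 (c 16 4085 r v)) r))))))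
 (.s 0x1d75445110a88a22a775c01c0 4083 (n false (n false (n false (n false (z 37) (n true (n false e e) e)) e) (n false (n true (n false (n false (n false (n false e e) (n false e e)) (n false (n false e e) (n false e e))) (n false e e)) e) (n false (n false (n false e e) (n false e e)) (n false (n false e e) (n false e e))))) e) (u 16 7 (k v (k (c 10 4110 v r) (k (c 10 4110 v r) (k (c 8 4086 (c 3 4094 v r) v) r)))))
 .z .z) (.s 0x1d75445110aa22888e13eff00 4089 (n false (z 123) (n false (n false (n true (n false (n false (n false (n false e e) (n false e e)) (n false (n false e e) (n false e e))) (n false e e)) e) (n false (n false (n false (n false e e) (n false e e)) (n false (n false e e) (n false e e))) (n false e e))) (n true (n false e e) e))) (u 2 13 (k v (k v (k (t 6 1 (c 21 4101 v r)) (k (c 21 4101 v r) (k (c 9 4110 v r) (k (c 9 4110 v r) (k (t 4 1 (c 17 4099 v (c 21 4101 v (c 7 4094 v r)))) (k (t 4 2 (c 17 4099 v (c 21 4101 v (c 7 4094 v (u 6 2 (k v (k v r))))))) r)))))))))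
 .z .z)) (.s 0x1d75445110e1c3a577c01dc20 4076 (n false (n false (n false (n true (n false (n false (n false (n false e e) (n false e e)) (n false (n false e e) (n false e e))) (n false e e)) e) (n true (n false e e) e)) (n true (n false e e) e)) (n true (n false (z 52) (n true (n false (n true (n false e e) e) (n false e e)) e)) e)) (u 9 321 (k v (k v (k v (k v (k v r))))))
 (.s 0x1d75445110e154451113eee00 4091 (n false (n false (n false (n true (n false (n false (n false (n false e e) (n false e e)) (n false (n false e e) (n false e e))) (n false e e)) e) (n true (n false e e) e)) (n false (n false (n false (n false e e) (n false e e)) (n false (n false e e) (n false e e))) (n false e e))) (z 43)) (u 3 0 (k v (k r (k (c 7 4099 r (u 5 0 (k (u 9 0 (k v (k v r))) r))) (k r (k (c 8 4110 v (c 10 4101 v (c 12 4094 v r))) (k (u 5 0 (k (u 9 0 (k v (k v r))) r)) (k r (k r r)))))))))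
 .z .z) .z)) (.s 0x1dcaef8015445111df2bbe000 4087 (n false (n false (n true (z 52) e) (n false (n false (n false (n false e e) (n false e e)) (n false (n false e e) (n false e e))) (n false e e))) (n true (n false (n true (n true (z 52) e) e) e) e)) (u 33 425 (k r (k r (k (c 8 4097 r v) (k (u 8 426 (k v (k v (k v (k v (k v (k v (k v r)))))))) (k (c 17 4084 v r) (k (c 4 4096 r v) (k (t 97 1 (u 65 2 (k r (k r r)))) r))))))))
 (.s 0x1d75445110ea88a22112eee00 4094 (n false (n false (n false (n true (n false (n false (n false (n false e e) (n false e e)) (n false (n false e e) (n false e e))) (n false e e)) e) (n true (n false (n false (n false (n false e e) (n false e e)) (n false (n false e e) (n false e e))) (n false e e)) e)) (n false e e)) (z 42)) (u 3 16 (k v (k v (k (c 8 4110 v (c 20 4099 v r)) (k (c 2 4097 v r) (k (c 8 4110 v (c 20 4099 v r)) (k (c 8 4110 v (c 20 4099 v r)) r)))))))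
 (.s 0x1d75445110e7f76008aa22888 4089 (n false (n false (n false (n true (z 87) e) (n true (n false (n false (n false (n false e e) (n false e e)) (n false (n false e e) (n false e e))) (n false e e)) e)) (n false e e)) (n false (n false (n false (n false e e) (n false e e)) (n false (n false e e) (n false e e))) (n false e e))) (c 3 4099 v (u 16 1 (k v (k v r))))
 .z .z) (.s 0x1dcaef8015445111dcafea000 4092 (n false (n false (n true (z 52) e) (n false (n false (n false (n false e e) (n false e e)) (n false (n false e e) (n false e e))) (n false e e))) (n true (n false (n true (z 156) e) e) e)) (u 17 8 (k r (k (c 8 4097 r v) (k (c 49 4099 r (u 33 1 (k r (k r r)))) (k (c 33 4098 r (u 49 1 (k r (k r r)))) (k (c 33 4097 r (u 49 1 (k r (k r r)))) (k (c 33 4099 r (u 49 1 (k r (k r r)))) r)))))))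
 .z .z)) (.s 0x1dcaef8015445111df3eab000 4091 (n false (n false (n true (z 52) e) (n false (n false (n false (n false e e) (n false e e)) (n false (n false e e) (n false e e))) (n false e e))) (n true (n false (n true (n true (z 67) e) e) e) e)) (u 8 367 (k (u 33 0 (k v (k v r))) (k (u 33 0 (k v (k v r))) (k (u 33 0 (k v (k v r))) (k (c 17 4102 (t 2 2 v) v) (k (u 33 0 (k v (k v r))) (k (c 17 4102 (t 2 2 v) v) r)))))))
 (.s 0x1dcaef8015445111df3bbb000 4089 (n false (n false (n true (z 52) e) (n false (n false (n false (n false e e) (n false e e)) (n false (n false e e) (n false e e))) (n false e e))) (n true (n false (n true (n true (z 85) e) e) e) e)) (u 33 82 (k r (k r (k (c 17 4094 v r) (k (c 17 4096 (c 4 4098 r v) r) (k (c 65 4099 r (u 97 427 (k (c 8 4097 r v) (k r (k (c 4 4096 r v) (k (c 4 4096 r v) (k (c 8 4097 r v) r))))))) r))))))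
 .z .z) .z))))

set_option maxRecDepth 100000 in
def N227 : NT :=
(.s 0x1df3eab002a88a223a77dc010 4094 (n false (n true (n false (z 45) (n false e e)) e) (n false (n true (n true (z 67) e) e) (n false (n false (n false (n false e e) (n false e e)) (n false (n false e e) (n false e e))) (n false e e)))) (u 17 0 (k (u 8 0 (k v (k v r))) (k (u 8 0 (k v (k v r))) r)))
 (.s 0x1dd5114443aa2288853bae008 4094 (n false (n false (z 37) (n false e e)) (n false (n true (n false (n false (n false (n false e e) (n false e e)) (n false (n false e e) (n false e e))) (n false e e)) e) (n true (n false (n false (n false (n false e e) (n false e e)) (n false (n false e e) (n false e e))) (n false e e)) e))) (u 4 23 (k v (k v (k (c 9 4099 v (u 8 0 (k (t 16 3 (t 24 1 v)) r))) (k (u 8 0 (k v (k v (k (t 24 1 (u 16 0 (k (t 32 3 (t 48 1 v)) r))) r)))) (k (c 9 4099 v r) r))))))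
 (.s 0x1dcfeec015445111df3fbb000 4087 (n false (n true (n false (n true (n true (z 87) e) e) e) e) (n false (n true (z 87) e) (n false (n false (n false (n false e e) (n false e e)) (n false (n false e e) (n false e e))) (n false e e)))) (u 32 1 (k (u 9 1 (k v (k v r))) (k (u 9 1 (k v (k v r))) r)))
 (.s 0x1dcfeec013fbb00fbb842a220 4079 (n false (n false (n true (z 87) e) (z 87)) (n true (n true (n false (n false (n false (n false e e) (n false e e)) (n false e e)) (n true (n false (n true (n false e e) e) (n false e e)) e)) e) e)) (u 6 0 (k (u 8 1 (k v (k v r))) (k (c 25 4091 v (c 8 4099 r v)) r)))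
 (.s 0x1dcbbb8015445111f77085c20 4079 (n false (n true (n true (n false (n true (n false (n true (n false e e) e) (n false e e)) e) (n false (n true (n false e e) e) (n false e e))) e) e) (n false (n true (z 42) e) (n false (n false (n false (n false e e) (n false e e)) (n false (n false e e) (n false e e))) (n false e e)))) (c 2 4084 v (c 11 4101 v r))
 .z .z) (.s 0x1dcfeec015445111df2fea000 4088 (n false (n false (n true (z 87) e) (n false (n false (n false (n false e e) (n false e e)) (n false (n false e e) (n false e e))) (n false e e))) (n true (n false (n true (n true (z 14) e) e) e) e)) (u 33 0 (k (u 8 1 (k v (k v r))) (k (u 8 1 (k v (k v r))) r)))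
 .z .z)) (.s 0x1dd4abe80255540070e7d5600 4092 (n false (n false (n true (n false (n false (z 24) (z 0)) e) e) (n true (n false e e) e)) (n true (z 67) e)) (t 48 1 (u 32 0 (k (t 64 3 (t 96 1 (u 5 28 (k v (k v (k (t 13 1 (u 9 1 (k v (k v r)))) (k (c 13 4101 r (u 9 1 (k v (k v r)))) (k (t 13 1 (u 9 29 (k v (k v (k v (k (c 25 4099 r (u 17 1 (k v (k v r)))) r)))))) (k (c 9 4101 r (u 13 1 (k v (k v r)))) (k (t 13 1 (u 9 2 (k v (k (c 25 4099 r (u 17 1 (k v (k v r)))) (k (c 17 4095 r (u 25 0 (k v (k v r)))) r))))) (k (c 9 4101 r (u 13 1 (k v (k v r)))) r))))))))))) r)))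
 (.s 0x1dd3fbe009dd50023ea88a220 4079 (n false (n false (n true (n false (z 55) (z 5)) e) (n false e e)) (n true (n true (n false (n false (n false (n false e e) (n false e e)) (n false (n false e e) (n false e e))) (n false e e)) e) e)) (t 24 1 (u 16 4 (k (t 48 1 (u 32 4 (k v (k v (k (c 24 4099 v r) (k (u 64 4 (k v (k (t 192 1 (u 128 4 (k v (k v r)))) r))) (k (c 24 4099 v r) (k (c 3 4097 v (c 24 4099 v r)) r)))))))) (k (t 48 2 (c 24 4099 v r)) r))))
 .z .z) .z)) (.s 0x1ddcfeec00551144475445110 4091 (n false (n false (n true (n false (n true (z 87) e) e) e) (n false (n false (n false (n false e e) (n false e e)) (n false (n false e e) (n false e e))) (n false e e))) (n true (n false (n false (n false (n false e e) (n false e e)) (n false (n false e e) (n false e e))) (n false e e)) e)) (c 3 4110 v (c 10 4101 v (u 32 1 (k v (k v r)))))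
 (.s 0x1dd53aeb00e0e08bea88a2208 4067 (n false (n false (n true (n false (n false (n false (z 73) (n true (n false e e) e)) e) (n true (n false e e) e)) e) (n false e e)) (n false (n true (n true (n false (n false (n false (n false e e) (n false e e)) (n false (n false e e) (n false e e))) (n false e e)) e) e) (n false e e))) (c 4 4070 (u 16 0 (k (u 32 0 (k v (k v r))) r)) v)
 (.s 0x1dd52abe009555002577c0088 4077 (n false (n false (n true (n false (n false (n false (z 48) (z 0)) e) (z 52)) e) (n false e e)) (n false e e)) (t 96 1 (u 24 26 (k r (k (u 64 16 (k v (k v (k (c 8 4078 r v) r)))) (k (u 64 9 (k v (k v (k v (k (u 128 4 (k v (k (t 384 1 (u 256 2 (k v (k v r)))) r))) (k (c 24 4091 v (u 128 7 (k v (k v (k (t 384 1 (u 256 28 (k v (k v (k (c 768 4099 r (u 512 1 (k v (k v r)))) (k (c 512 4095 r (u 768 23 (k v (k v r)))) (k (c 512 4095 r (u 768 23 (k v (k v r)))) r))))))) r))))) r)))))) r)))))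
 .z .z) (.s 0x1dd75445110a88a221caef800 4080 (n false (n false (n true (n false (n false (n true (n false (n false (n false (n false e e) (n false e e)) (n false (n false e e) (n false e e))) (n false e e)) e) (n false (n false (n false e e) (n false e e)) (n false (n false e e) (n false e e)))) (n false e e)) e) (n true (z 52) e)) e) (u 10 118 (k v (k v (k v (k v (k v (k v (k v (k v (k (t 26 2 (c 6 4084 r v)) (k (c 6 4087 (t 6 1 r) v) r)))))))))))
 .z .z)) (.s 0x1df2eee002a88a223a77dc010 4092 (n false (n false (n true (n true (z 42) e) e) (n false (n false (n false (n false e e) (n false e e)) (n false (n false e e) (n false e e))) (n false e e))) (n true (n false (z 45) (n false e e)) e)) (u 16 1 (k (u 9 0 (k v (k v r))) (k (u 9 0 (k v (k v r))) r)))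
 (.s 0x1ddcfeec0075445110aa22888 4086 (n false (n false (n true (n false (n true (z 87) e) e) e) (n true (n false (n false (n false (n false e e) (n false e e)) (n false (n false e e) (n false e e))) (n false e e)) e)) (n false (n false (n false (n false e e) (n false e e)) (n false (n false e e) (n false e e))) (n false e e))) (c 10 4099 v (u 32 1 (k v (k v r))))
 .z .z) .z))) (.s 0x1f4eea80275fe00aa88a223a0 4088 (n false (n true (n false (z 121) (z 5)) e) (n false (n true (n false (n false e e) e) e) (n false (n false (n false (n false e e) (n false e e)) (n false (n false e e) (n false e e))) (n false e e)))) (t 12 1 (u 8 1 (k v (k (c 24 4099 r (u 16 1 (k v (k v r)))) (k (c 16 4097 r r) (k (c 16 4095 r (u 24 0 (k v (k v r)))) (k (c 16 4095 r (u 24 0 (k v (k v r)))) r)))))))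
 (.s 0x1f4eea8025fdc00aa88a222a0 4091 (n false (n false (n false (n false (n false e e) e) e) (n false (n false (n false (n false e e) (n false e e)) (n false (n false e e) (n false e e))) (n false e e))) (n true (n false (z 46) (z 5)) e)) (t 13 1 (u 9 10 (k v (k (c 25 4099 r (u 17 0 (k v (k v r)))) (k (c 3 4088 (c 10 4101 v r) v) r)))))
 (.s 0x1f4afea004eea8017d4441708 4079 (n false (n true (n false (z 156) (z 5)) e) (n false (n true (n true (n false (n false (n false e e) (n false e e)) (n false e e)) e) e) (n false (n true (n false e e) e) (n false e e)))) (t 12 1 (u 8 19 (k v (k v (k (c 24 4099 r (u 16 1 (k v (k v r)))) (k (c 16 4099 r (u 24 1 (k v (k v r)))) (k (c 16 4095 r (u 24 0 (k v (k v r)))) r)))))))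
 (.s 0x1df3fbb002a88a223a77dc010 4090 (n false (n false (n true (n true (z 87) e) e) (n false (n false (n false (n false e e) (n false e e)) (n false (n false e e) (n false e e))) (n false e e))) (n true (n false (z 45) (n false e e)) e)) (u 16 1 (k (u 9 0 (k v (k v r))) (k (u 9 0 (k v (k v r))) r)))
 .z .z) (.s 0x1f4afea004feec01ddc215110 4082 (n false (n true (n false (z 156) (z 87)) e) (n true (n false (n false (n false (n false e e) (n false e e)) (n false e e)) (n true (n false (n true (n false e e) e) (n false e e)) e)) e)) (u 8 20 (k (t 12 1 v) (k (u 12 0 (k v (k v r))) (k (c 4 4066 (u 3 1 (k v (k v r))) v) (k (c 24 4099 r r) (k (c 16 4099 r r) r))))))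
 .z .z)) (.s 0x1f4eea8025fdc00bea88a2208 4085 (n false (n true (n false (z 46) (z 5)) e) (n false (n true (n true (n false (n false (n false (n false e e) (n false e e)) (n false (n false e e) (n false e e))) (n false e e)) e) e) (n false e e))) (t 12 1 (u 8 10 (k v (k (c 24 4099 r (u 16 0 (k v (k v r)))) (k (c 2 4088 (c 10 4101 v r) v) r)))))
 (.s 0x1f4eea8025fdc00aa88a223a0 4088 (n false (n true (n false (z 46) (z 5)) e) (n false (n true (n false (n false e e) e) e) (n false (n false (n false (n false e e) (n false e e)) (n false (n false e e) (n false e e))) (n false e e)))) (t 12 1 (u 8 2 (k v (k (c 24 4099 r (u 16 0 (k v (k v r)))) (k r (k (c 2 4088 (c 10 4101 v r) v) (k (c 24 4097 r r) (k (c 16 4095 r r) r))))))))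
 .z .z) .z)) (.s 0x1f551144455114442e57f5000 4092 (n false (n false (n true (z 156) e) e) (n true (n false (n false (n false (n false (n false e e) (n false e e)) (n false (n false e e) (n false e e))) (n false e e)) (n false (n false (n false (n false e e) (n false e e)) (n false (n false e e) (n false e e))) (n false e e))) e)) (u 8 8 (k v (k v (k (c 24 4099 r (u 16 1 (k v (k v r)))) (k (c 16 4098 r (u 24 1 (k v (k v r)))) (k (c 16 4097 r (u 24 1 (k v (k v r)))) (k (c 16 4099 r (u 24 1 (k v (k v r)))) r)))))))
 (.s 0x1f52bae009555007544511050 4084 (n false (n true (n false (n false (z 36) (z 0)) (n true (n false (n false (n false (n false e e) (n false e e)) (n false (n false e e) (n false e e))) (n false e e)) e)) e) (n false (n false e e) e)) (t 24 1 (c 4 4086 (u 4 0 (k (u 8 2 (k v (k (c 4 4084 (u 4 1 (k v (k v r))) v) r))) r)) v))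
 (.s 0x1f52afa009555004abf801708 4085 (n false (n true (n false (z 56) (n false (z 24) (z 0))) e) (n false (n true (n false e e) e) (n false e e))) (t 28 1 (u 20 0 (k (t 36 3 (t 52 1 (u 8 0 (k (u 16 275 (k v (k v (k v (k v (k (t 48 1 (u 32 0 (k v (k v r)))) r)))))) (k (c 16 4096 r (u 24 0 (k v (k v r)))) (k (u 16 1 (k v (k v r))) (k (c 24 4096 r (u 16 217 (k v (k v (k v (k v (k (t 48 1 (u 32 0 (k v (k v r)))) r))))))) r))))))) r)))
 .z .z) (.s 0x1f551144455114442a7f56008 4083 (n false (n false (n false (z 71) e) (n false e e)) (n true (n false (n false (n false (n false (n false e e) (n false e e)) (n false (n false e e) (n false e e))) (n false e e)) (n false (n false (n false (n false e e) (n false e e)) (n false (n false e e) (n false e e))) (n false e e))) e)) (u 8 1 (k v (k (c 24 4099 r (u 16 1 (k v (k v r)))) (k (u 16 0 (k v (k v r))) (k (c 16 4099 r (u 24 1 (k v (k v r)))) (k (c 16 4099 r (u 24 1 (k v (k v r)))) (k (c 16 4099 r (u 24 1 (k v (k v r)))) r)))))))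
 .z .z)) (.s 0x1f551144455114442e5fdc008 4080 (n false (n false (n true (z 46) e) (n false e e)) (n true (n false (n false (n false (n false (n false e e) (n false e e)) (n false (n false e e) (n false e e))) (n false e e)) (n false (n false (n false (n false e e) (n false e e)) (n false (n false e e) (n false e e))) (n false e e))) e)) (u 8 1 (k v (k (u 16 1 (k v (k v r))) (k (c 24 4099 r (u 16 0 (k v (k v r)))) (k (u 16 1 (k v (k v r))) (k (c 24 4097 r (u 16 1 (k v (k v r)))) (k (c 16 4095 r (u 24 1 (k v (k v r)))) r)))))))
 (.s 0x1f551144455114442e5d74008 4083 (n false (n false (n true (z 18) e) (n false e e)) (n true (n false (n false (n false (n false (n false e e) (n false e e)) (n false (n false e e) (n false e e))) (n false e e)) (n false (n false (n false (n false e e) (n false e e)) (n false (n false e e) (n false e e))) (n false e e))) e)) (c 9 4099 v (u 8 0 (k (u 16 0 (k v (k v r))) r)))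
 .z .z) .z))))

end Pool.Agent.Helper91.ND1
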