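import Pool.Agent.Helper66.ND.Defs

/-! part of the certificate for the constant 25/48 (generated) -/

namespace Pool.Agent.Helper91.ND1

open Pool.Agent.Helper66.IL
open Pool.Agent.Helper66.ND
open Pool.Agent.Helper66.ND.LT
open Pool.Agent.Helper66.ND.Ct

set_option maxRecDepth 100000 in
def N228 : NT :=
(.s 0x1f5d5114442a22882e5fdc008 4080 (n false (n false (n true (z 46) e) (n false e e)) (n true (n false (n false (n true (n false (n false (n false (n false e e) (n false e e)) (n false (n false e e) (n false e e))) (n false e e)) e) (n false (n false (n false e e) (n false e e)) (n false (n false e e) (n false e e)))) e) e)) (u 8 1 (k v (k (u 16 1 (k v (k v r))) (k (c 24 4099 r (u 16 0 (k v (k v r)))) (k (u 16 1 (k v (k v r))) (k (c 24 4097 r (u 16 1 (k v (k v r)))) (k (c 16 4095 r (u 24 1 (k v (k v r)))) r)))))))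
 (.s 0x1f55d511444228882e5fdc008 4080 (n false (n false (n true (z 46) e) (n false e e)) (n true (n false (n false (n false (n false (n true (n false (n false (n false (n false e e) (n false e e)) (n false (n false e e) (n false e e))) (n false e e)) e) (n false e e)) (n false (n false e e) (n false e e))) (n false e e)) e) e)) (u 8 2 (k v (k (c 24 4099 r (u 16 0 (k v (k v r)))) (k (u 16 1 (k v (k v r))) (k (u 16 1 (k v (k v r))) (k (c 24 4097 r (u 16 1 (k v (k v r)))) (k (c 16 4095 r (u 24 1 (k v (k v r)))) r)))))))
 (.s 0x1f5544511154451112bbe0050 4087 (n false (n true (n false (z 52) (n false (n false (n false (n false (n false e e) (n false e e)) (n false (n false e e) (n false e e))) (n false e e)) (n false (n false (n false (n false e e) (n false e e)) (n false (n false e e) (n false e e))) (n false e e)))) e) (n false (n false e e) e)) (u 8 255 (k v (k v (k v (k v (k (t 24 1 (u 16 0 (k v (k v r)))) r))))))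
 (.s 0x1f551144455114442e7f7e008 4081 (n false (n false (n true (z 119) e) (n false e e)) (n true (n false (n false (n false (n false (n false e e) (n false e e)) (n false (n false e e) (n false e e))) (n false e e)) (n false (n false (n false (n false e e) (n false e e)) (n false (n false e e) (n false e e))) (n false e e))) e)) (u 8 0 (k v (k (c 24 4101 r r) (k (c 24 4096 r (c 9 4099 v r)) (k (c 24 4096 r (c 9 4099 v r)) (k (c 24 4099 r r) (k (c 24 4097 r r) (k (c 24 4096 r (c 9 4099 v (u 16 0 (k (u 32 0 (k v (k v r))) r)))) (k (c 16 4098 r r) (k (c 16 4101 r r) (k (c 16 4099 r r) (k (c 16 4101 r r) r))))))))))))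
 (.s 0x1f551144455114442e775c008 4080 (n false (n false (n true (z 37) e) (n false e e)) (n true (n false (n false (n false (n false (n false e e) (n false e e)) (n false (n false e e) (n false e e))) (n false e e)) (n false (n false (n false (n false e e) (n false e e)) (n false (n false e e) (n false e e))) (n false e e))) e)) (u 8 0 (k v (k (u 16 0 (k (t 32 3 (t 48 1 v)) r)) (k (u 16 0 (k (t 32 3 (t 48 1 v)) r)) (k (u 16 2 (k v (k v (k v (k (t 48 1 (u 32 0 (k (t 64 3 (t 96 1 v)) r))) r))))) (k (u 16 2 (k v (k v (k v (k (t 48 1 (u 32 0 (k (t 64 3 (t 96 1 v)) r))) r))))) (k (u 16 9 (k v (k v r))) r)))))))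
 .z .z) (.s 0x1f551144455114443b9f7d800 4097 (n false (n true (n false (n true (z 91) e) e) e) (n true (n false (n false (n false (n false (n false e e) (n false e e)) (n false (n false e e) (n false e e))) (n false e e)) (n false (n false (n false (n false e e) (n false e e)) (n false (n false e e) (n false e e))) (n false e e))) e)) (c 9 4099 v (u 16 18 (k v (k v (k v (k (u 32 1 (k v (k v r))) (k (c 32 4097 r (u 48 0 (k v (k v r)))) (k (c 32 4095 r (u 48 0 (k v (k v r)))) r))))))))
 .z .z)) (.s 0x1f55d511444228882e5d74008 4083 (n false (n false (n true (z 18) e) (n false e e)) (n true (n false (n false (n false (n false (n true (n false (n false (n false (n false e e) (n false e e)) (n false (n false e e) (n false e e))) (n false e e)) e) (n false e e)) (n false (n false e e) (n false e e))) (n false e e)) e) e)) (c 3 4094 v (u 8 0 (k (u 16 0 (k v (k v r))) r)))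
 (.s 0x1f55d511444228882a7f56008 4083 (n false (n false (n false (z 71) e) (n false e e)) (n true (n false (n false (n false (n false (n true (n false (n false (n false (n false e e) (n false e e)) (n false (n false e e) (n false e e))) (n false e e)) e) (n false e e)) (n false (n false e e) (n false e e))) (n false e e)) e) e)) (u 8 1 (k v (k (c 24 4099 r (u 16 1 (k v (k v r)))) (k (u 16 0 (k v (k v r))) (k (c 16 4099 r (u 24 1 (k v (k v r)))) (k (c 16 4099 r (u 24 1 (k v (k v r)))) (k (c 16 4099 r (u 24 1 (k v (k v r)))) r)))))))
 .z .z) .z)) (.s 0x1f5754451108a22172bfa8008 4085 (n false (n false (n true (z 156) e) (n false e e)) (n true (n false (n false (n false (n true (n false (n false (n false (n false e e) (n false e e)) (n false (n false e e) (n false e e))) (n false e e)) e) (n false e e)) (n false (n false e e) (n false e e))) (n false e e)) e)) (u 8 8 (k v (k v (k (c 24 4099 r (u 16 1 (k v (k v r)))) (k (c 16 4098 r (u 24 1 (k v (k v r)))) (k (c 16 4097 r (u 24 1 (k v (k v r)))) (k (c 16 4099 r (u 24 1 (k v (k v r)))) r)))))))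
 (.s 0x1f55d511444228882e775c008 4080 (n false (n false (n true (z 37) e) (n false e e)) (n true (n false (n false (n false (n false (n true (n false (n false (n false (n false e e) (n false e e)) (n false (n false e e) (n false e e))) (n false e e)) e) (n false e e)) (n false (n false e e) (n false e e))) (n false e e)) e) e)) (u 8 0 (k v (k (u 16 0 (k (t 32 3 (t 48 1 v)) r)) (k (u 16 0 (k (t 32 3 (t 48 1 v)) r)) (k (u 16 2 (k v (k v (k v (k (t 48 1 (u 32 0 (k (t 64 3 (t 96 1 v)) r))) r))))) (k (u 16 2 (k v (k v (k v (k (t 48 1 (u 32 0 (k (t 64 3 (t 96 1 v)) r))) r))))) (k (u 16 9 (k v (k v r))) r)))))))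
 (.s 0x1f55d511444228882e75fe008 4080 (n false (n false (n true (z 121) e) (n false e e)) (n true (n false (n false (n false (n false (n true (n false (n false (n false (n false e e) (n false e e)) (n false (n false e e) (n false e e))) (n false e e)) e) (n false e e)) (n false (n false e e) (n false e e))) (n false e e)) e) e)) (u 8 3 (k v (k v (k (c 24 4099 r (u 16 1 (k v (k v r)))) (k (c 16 4097 r (u 24 1 (k v (k v r)))) r)))))
 .z .z) (.s 0x1f55d511444228882e7f7e008 4081 (n false (n false (n true (z 119) e) (n false e e)) (n true (n false (n false (n false (n false (n true (n false (n false (n false (n false e e) (n false e e)) (n false (n false e e) (n false e e))) (n false e e)) e) (n false e e)) (n false (n false e e) (n false e e))) (n false e e)) e) e)) (u 8 0 (k v (k (c 24 4101 r r) (k (c 24 4096 r (c 3 4094 v r)) (k (c 24 4096 r (c 3 4094 v r)) (k (c 24 4099 r r) (k (c 24 4097 r r) (k (c 24 4096 r (c 3 4094 v (u 16 0 (k (u 32 0 (k v (k v r))) r)))) (k (c 16 4098 r r) (k (c 16 4101 r r) (k (c 16 4099 r r) (k (c 16 4101 r r) r))))))))))))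
 .z .z)) (.s 0x1f5d5114442a22882e5d74008 4083 (n false (n false (n true (z 18) e) (n false e e)) (n true (n false (n false (n true (n false (n false (n false (n false e e) (n false e e)) (n false (n false e e) (n false e e))) (n false e e)) e) (n false (n false (n false e e) (n false e e)) (n false (n false e e) (n false e e)))) e) e)) (c 3 4094 v (u 8 0 (k (u 16 0 (k v (k v r))) r)))
 (.s 0x1f5d5114442a22882a7f56008 4083 (n false (n false (n false (z 71) e) (n false e e)) (n true (n false (n false (n true (n false (n false (n false (n false e e) (n false e e)) (n false (n false e e) (n false e e))) (n false e e)) e) (n false (n false (n false e e) (n false e e)) (n false (n false e e) (n false e e)))) e) e)) (u 8 1 (k v (k (c 24 4099 r (u 16 1 (k v (k v r)))) (k (u 16 0 (k v (k v r))) (k (c 16 4099 r (u 24 1 (k v (k v r)))) (k (c 16 4099 r (u 24 1 (k v (k v r)))) (k (c 16 4099 r (u 24 1 (k v (k v r)))) r)))))))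
 .z .z) .z))) (.s 0x1f73fbb0054443a7f7601dc20 4079 (n false (n true (n false (z 87) (n true (n false (n true (n false e e) e) (n false e e)) e)) e) (n true (n false (n true (z 87) e) (n false (n false (n false e e) (n false e e)) (n false e e))) e)) (u 8 0 (k (u 17 1 (k v (k v r))) (k (c 9 4098 (u 2 0 (k v (k v r))) v) r)))
 (.s 0x1f5d51144438705cbbb801708 4078 (n false (n true (n false (n false (n true (n false (n false (n false (n false e e) (n false e e)) (n false (n false e e) (n false e e))) (n false e e)) e) (n true (n false e e) e)) (n true (n false e e) e)) e) (n false (n true (z 42) e) (n false (n true (n false e e) e) (n false e e)))) (c 2 4091 v (c 11 4094 v r))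
 (.s 0x1f5d5114442a22882e775c008 4080 (n false (n false (n true (z 37) e) (n false e e)) (n true (n false (n false (n true (n false (n false (n false (n false e e) (n false e e)) (n false (n false e e) (n false e e))) (n false e e)) e) (n false (n false (n false e e) (n false e e)) (n false (n false e e) (n false e e)))) e) e)) (u 8 0 (k v (k (u 16 0 (k (t 32 3 (t 48 1 v)) r)) (k (u 16 0 (k (t 32 3 (t 48 1 v)) r)) (k (u 16 2 (k v (k v (k v (k (t 48 1 (u 32 0 (k (t 64 3 (t 96 1 v)) r))) r))))) (k (u 16 2 (k v (k v (k v (k (t 48 1 (u 32 0 (k (t 64 3 (t 96 1 v)) r))) r))))) (k (u 16 9 (k v (k v r))) r)))))))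
 (.s 0x1f5d5114442a22882e75fe008 4080 (n false (n false (n true (z 121) e) (n false e e)) (n true (n false (n false (n true (n false (n false (n false (n false e e) (n false e e)) (n false (n false e e) (n false e e))) (n false e e)) e) (n false (n false (n false e e) (n false e e)) (n false (n false e e) (n false e e)))) e) e)) (u 8 3 (k v (k v (k (c 24 4099 r (u 16 1 (k v (k v r)))) (k (c 16 4097 r (u 24 1 (k v (k v r)))) r)))))
 .z .z) (.s 0x1f5d5114442a22882e7f7e008 4081 (n false (n false (n true (z 119) e) (n false e e)) (n true (n false (n false (n true (n false (n false (n false (n false e e) (n false e e)) (n false (n false e e) (n false e e))) (n false e e)) e) (n false (n false (n false e e) (n false e e)) (n false (n false e e) (n false e e)))) e) e)) (u 8 0 (k v (k (c 24 4101 r r) (k (c 24 4096 r (c 3 4094 v r)) (k (c 24 4096 r (c 3 4094 v r)) (k (c 24 4099 r r) (k (c 24 4097 r r) (k (c 24 4096 r (c 3 4094 v (u 16 0 (k (u 32 0 (k v (k v r))) r)))) (k (c 16 4098 r r) (k (c 16 4101 r r) (k (c 16 4099 r r) (k (c 16 4101 r r) r))))))))))))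
 .z .z)) (.s 0x1f73fbb004feec01ddc215110 4079 (n false (n true (n false (z 87) (n true (z 87) e)) e) (n true (n false (n false (n false (n false e e) (n false e e)) (n false e e)) (n true (n false (n true (n false e e) e) (n false e e)) e)) e)) (u 20 1 (k (u 8 0 (k v (k v r))) (k (u 8 0 (k v (k v r))) r)))
 (.s 0x1f72eee0055114443bb842e10 4079 (n false (n true (n false (n true (z 42) e) (n false (n false (n false (n false e e) (n false e e)) (n false (n false e e) (n false e e))) (n false e e))) e) (n true (n false (n true (n false (n true (n false e e) e) (n false e e)) e) (n false (n true (n false e e) e) (n false e e))) e)) (c 2 4088 (c 10 4101 v r) v)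
 .z .z) .z)) (.s 0x1fd5d511444228882e775c008 4082 (n false (n false (n true (z 37) e) (n false e e)) (n true (n true (n false (n false (n false (n true (n false (n false (n false (n false e e) (n false e e)) (n false (n false e e) (n false e e))) (n false e e)) e) (n false e e)) (n false (n false e e) (n false e e))) (n false e e)) e) e)) (u 8 0 (k v (k (c 3 4094 v (u 16 0 (k (t 32 3 (t 48 1 v)) r))) (k (u 16 0 (k (t 32 3 (t 48 1 v)) r)) (k (c 3 4094 v r) (k (u 16 2 (k v (k v (k v (k (t 48 1 (u 32 0 (k (t 64 3 (t 96 1 v)) r))) r))))) (k (c 3 4094 v r) r)))))))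
 (.s 0x1fd5d511444228882e75d6008 4084 (n false (n false (n true (z 73) e) (n false e e)) (n true (n true (n false (n false (n false (n true (n false (n false (n false (n false e e) (n false e e)) (n false (n false e e) (n false e e))) (n false e e)) e) (n false e e)) (n false (n false e e) (n false e e))) (n false e e)) e) e)) (c 3 4094 v (u 8 0 (k (u 16 0 (k v (k v r))) r)))
 (.s 0x1f75445110a88a2172bfa8008 4085 (n false (n false (n true (z 156) e) (n false e e)) (n true (n false (n true (n false (n false (n false (n false e e) (n false e e)) (n false (n false e e) (n false e e))) (n false e e)) e) (n false (n false (n false e e) (n false e e)) (n false (n false e e) (n false e e)))) e)) (u 8 8 (k v (k v (k (c 24 4099 r (u 16 1 (k v (k v r)))) (k (c 16 4098 r (u 24 1 (k v (k v r)))) (k (c 16 4097 r (u 24 1 (k v (k v r)))) (k (c 16 4099 r (u 24 1 (k v (k v r)))) r)))))))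
 .z .z) (.s 0x1fd5d511444228882e75fe008 4082 (n false (n false (n true (z 121) e) (n false e e)) (n true (n true (n false (n false (n false (n true (n false (n false (n false (n false e e) (n false e e)) (n false (n false e e) (n false e e))) (n false e e)) e) (n false e e)) (n false (n false e e) (n false e e))) (n false e e)) e) e)) (u 8 3 (k v (k v (k (c 24 4099 r (u 16 1 (k v (k v r)))) (k (c 16 4097 r r) r)))))
 .z .z)) (.s 0x1fdd5114442a22882e75d6008 4084 (n false (n false (n true (z 73) e) (n false e e)) (n true (n true (n false (n true (n false (n false (n false (n false e e) (n false e e)) (n false (n false e e) (n false e e))) (n false e e)) e) (n false (n false (n false e e) (n false e e)) (n false (n false e e) (n false e e)))) e) e)) (c 3 4094 v (u 8 0 (k (u 16 0 (k v (k v r))) r)))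
 (.s 0x1fdcfeec01511053fbb00ee10 4079 (n false (n true (n true (n false (n true (z 87) e) (n false (n false (n false e e) (n false e e)) (n false e e))) e) e) (n false (z 87) (n true (n false (n true (n false e e) e) (n false e e)) e))) (u 5 0 (k (u 32 1 (k v (k v r))) (k (c 16 4098 (u 2 0 (k v (k v r))) v) r)))
 .z .z) .z))))

set_option maxRecDepth 100000 in
def N229 : NT :=
(.s 0xea9dd5004affc011754451108 4085 (n false (n false (n false (n false (z 124) (z 5)) e) (n false e e)) (n false (n true (n false (n false (n false (n false e e) (n false e e)) (n false (n false e e) (n false e e))) (n false e e)) e) (n false e e))) (t 24 2 (c 9 4099 v (u 16 1 (k v (k (c 48 4097 r (u 32 1 (k v (k v r)))) (k (c 48 4096 r (u 32 1 (k v (k v r)))) (k (c 32 4098 r (u 48 0 (k v (k v r)))) (k (c 48 4096 r (u 32 1 (k v (k v r)))) (k (c 48 4097 r (u 32 1 (k v (k v r)))) (k (c 48 4097 r (u 32 1 (k v (k v r)))) (k (c 48 4096 r (u 32 1 (k v (k v r)))) (k (c 48 4099 r (u 32 1 (k v (k v r)))) (k (c 32 4097 r (u 48 1 (k v (k v r)))) r)))))))))))))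
 (.s 0xe9d7f804aef803aea88a22110 4092 (n false (n false (z 52) (z 121)) (n true (n false (n false (n true (n false (n false (n false (n false e e) (n false e e)) (n false (n false e e) (n false e e))) (n false e e)) e) (n false e e)) (n false e e)) e)) (u 6 4 (k r (k (c 2 4079 r v) (k (c 14 4099 r (u 10 1 (k r (k r r)))) (k (c 10 4097 r (u 14 1 (k r (k r r)))) r)))))
 (.s 0xe95fd4009dd50075cfef801c0 4088 (n false (n false (z 156) (z 5)) (n true (n false (n false (n true (z 55) e) (n true (n false e e) e)) e) e)) (t 6 1 (u 4 8 (k (u 33 12 (k v (k v r))) (k (t 33 1 v) (k (c 12 4099 r r) (k (c 8 4098 r r) (k (c 8 4097 r r) (k (c 8 4099 r r) r))))))))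
 (.s 0xe95fd4009dd50075511444740 4088 (n false (n true (n false (n true (n false (n false e e) e) e) (n false (n false (n false (n false e e) (n false e e)) (n false (n false e e) (n false e e))) (n false e e))) e) (n false (z 156) (z 5))) (t 7 1 (u 5 1 (k v (k (c 13 4099 r (u 9 1 (k v (k v r)))) (k (c 9 4098 r (u 13 1 (k v (k v r)))) (k (c 9 4097 r r) (k (c 9 4099 r (u 13 1 (k v (k v r)))) (k (c 9 4095 r (u 13 0 (k v (k v r)))) r))))))))
 (.s 0x1fdd5114442a22882e775c008 4082 (n false (n false (n true (z 37) e) (n false e e)) (n true (n true (n false (n true (n false (n false (n false (n false e e) (n false e e)) (n false (n false e e) (n false e e))) (n false e e)) e) (n false (n false (n false e e) (n false e e)) (n false (n false e e) (n false e e)))) e) e)) (u 8 0 (k v (k (c 3 4094 v (u 16 0 (k (t 32 3 (t 48 1 v)) r))) (k (u 16 0 (k (t 32 3 (t 48 1 v)) r)) (k (c 3 4094 v r) (k (u 16 2 (k v (k v (k v (k (t 48 1 (u 32 0 (k (t 64 3 (t 96 1 v)) r))) r))))) (k (c 3 4094 v r) r)))))))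
 .z .z) (.s 0xe95fd4009dd50075cbff801c0 4088 (n false (n true (n false (n false (n true (z 62) e) (n true (n false e e) e)) e) e) (n false (z 156) (z 5))) (t 7 1 (u 32 13 (k r (k (c 24 4094 v r) (k (c 24 4094 v r) (k (c 24 4094 v r) (k (t 96 1 (u 5 23 (k (c 32 4095 (c 2 4097 r v) v) (k (c 32 4095 (c 2 4097 r v) v) (k (c 64 4097 r v) (k (c 13 4099 r r) (k (c 9 4099 r r) r))))))) r)))))))
 .z .z)) (.s 0xe95fd4009fdd80775445110a0 4090 (n false (n false (z 87) (z 156)) (n true (n false (n true (n false (n false (n false (n false e e) (n false e e)) (n false (n false e e) (n false e e))) (n false e e)) e) (n false (n false e e) e)) e)) (c 17 4099 v (u 6 8 (k (u 4 0 (k v (k v r))) (k (c 2 4066 (u 2 1 (k v (k v r))) v) (k (c 14 4099 r r) (k (c 10 4098 r r) (k (c 10 4097 r r) (k (c 10 4099 r r) r))))))))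
 (.s 0xe95fd4009dd500775445110a0 4090 (n false (n false (z 156) (z 5)) (n true (n false (n true (n false (n false (n false (n false e e) (n false e e)) (n false (n false e e) (n false e e))) (n false e e)) e) (n false (n false e e) e)) e)) (t 6 1 (u 4 1 (k v (k (c 12 4099 r (u 8 1 (k v (k v r)))) (k (c 8 4098 r (u 12 1 (k v (k v r)))) (k (c 8 4097 r r) (k (c 8 4099 r (u 12 1 (k v (k v r)))) (k (c 8 4095 r (u 12 0 (k v (k v r)))) r))))))))
 .z .z) .z)) (.s 0xea7d56012bea008bea88a2208 4087 (n false (n false (n false (z 67) (z 12)) (n false e e)) (n false (n true (n true (n false (n false (n false (n false e e) (n false e e)) (n false (n false e e) (n false e e))) (n false e e)) e) e) (n false e e))) (t 12 3 (u 8 152 (k v (k v (k v (k r (k (c 16 4101 r r) (k r (k (c 2 4088 r v) (k (c 16 4099 r r) (k (c 24 4099 r (u 16 1 (k v (k (c 48 4097 r (u 32 0 (k v (k v r)))) r)))) (k (t 24 2 (c 12 4110 v (u 16 0 (k (c 4 4080 r v) r)))) (k (c 24 4101 r r) (k r (k (c 24 4102 r r) (k (c 16 4101 r r) (k (t 24 1 (u 16 17 (k v (k v (k v (k (c 48 4099 r (u 32 1 (k v (k v r)))) r)))))) (k (c 16 4101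 r r) r))))))))))))))))))
 (.s 0xea7754012fee0057544511088 4093 (n false (n false (n false (z 46) (z 5)) e) (n false (n false (n true (n false (n false (n false (n false e e) (n false e e)) (n false (n false e e) (n false e e))) (n false e e)) e) (n false e e)) (n false e e))) (t 12 1 (u 8 21 (k v (k v (k (c 24 4099 r (u 16 0 (k v (k v r)))) (k r (k (c 2 4088 (c 10 4101 v r) v) (k (c 24 4097 r r) r))))))))
 (.s 0xea7754012bff0057544511088 4091 (n false (n false (n false (z 124) (z 5)) e) (n false (n false (n true (n false (n false (n false (n false e e) (n false e e)) (n false (n false e e) (n false e e))) (n false e e)) e) (n false e e)) (n false e e))) (t 12 1 (u 8 3 (k v (k v (k (c 24 4097 r (u 16 1 (k v (k v r)))) (k (c 24 4096 r (u 16 1 (k v (k v r)))) (k (c 24 4097 r (u 16 1 (k v (k v r)))) r)))))))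
 .z .z) (.s 0xea7776013baa0057544511088 4091 (n false (n false (n false (z 85) (z 5)) e) (n false (n false (n true (n false (n false (n false (n false e e) (n false e e)) (n false (n false e e) (n false e e))) (n false e e)) e) (n false e e)) (n false e e))) (t 12 1 (u 8 57 (k v (k (c 24 4099 r (u 16 10 (k v (k v (k v (k v (k v (k (t 48 1 (u 32 0 (k v (k v r)))) r)))))))) (k (c 24 4099 r r) (k (c 24 4099 r (u 16 4 (k v (k v (k v (k (t 48 1 (u 32 41 (k v (k v (k (t 96 1 (u 64 0 (k v (k v r)))) r))))) r)))))) (k (c 2 4090 (c 10 4101 v r) v) (k (c 24 4096 r r) r))))))))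
 .z .z)) (.s 0xea9777804aaa801d2bfa801c0 4087 (n false (n false (n true (n false (z 156) (n true (n false e e) e)) e) (n false (n false (z 106) (z 0)) e)) e) (t 26 1 (u 18 6 (k (t 16 1 v) (k (c 24 4094 v (u 16 45 (k v (k v (k (c 48 4099 r (u 32 6 (k v (k v (k v r))))) (k (c 32 4099 r (u 48 6 (k v (k v (k v r))))) (k (c 32 4095 r (u 48 23 (k v (k v r)))) r))))))) (k (u 16 19 (k v (k v (k (c 48 4099 r (u 32 1 (k v (k v r)))) (k (c 32 4099 r (u 48 1 (k v (k v r)))) (k (c 32 4095 r (u 48 0 (k v (k v r)))) r)))))) r)))))
 (.s 0xea7df6013baa0057544511088 4091 (n false (n false (n false (z 91) (z 5)) e) (n false (n false (n true (n false (n false (n false (n false e e) (n false e e)) (n false (n false e e) (n false e e))) (n false e e)) e) (n false e e)) (n false e e))) (t 12 1 (u 8 17 (k v (k v (k v (k (u 16 0 (k v (k v r))) (k (c 16 4097 r (u 24 0 (k v (k v r)))) (k (c 16 4095 r (u 24 0 (k v (k v r)))) r))))))))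
 .z .z) .z))) (.s 0xeaa22888aa22888a775c01708 4085 (n false (n false (z 37) (n false (n true (n false e e) e) (n false e e))) (n false (n false (n false (n false (n false e e) (n false e e)) (n false (n false e e) (n false e e))) (n false e e)) (n false (n false (n false (n false e e) (n false e e)) (n false (n false e e) (n false e e))) (n false e e)))) (u 4 21 (k v (k (u 8 2 (k v (k v (k v (k (t 24 1 (u 16 0 (k (t 32 3 (t 48 1 v)) r))) r))))) (k (u 8 0 (k (t 16 3 (t 24 1 v)) r)) (k (u 8 0 (k (t 16 3 (t 24 1 v)) r)) (k (u 8 2 (k v (k v (k v (k (t 24 1 (u 16 0 (k (t 32 3 (t 48 1 v)) r))) r))))) (k (c 5 4099 v r) r)))))))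
 (.s 0xeaa228889d7f8077d51144410 4086 (n false (n false (z 121) (n false (n false (n false (n false e e) (n false e e)) (n false (n false e e) (n false e e))) (n false e e))) (n true (n false (n true (n true (n false (n false (n false (n false e e) (n false e e)) (n false (n false e e) (n false e e))) (n false e e)) e) e) (n false e e)) e)) (u 4 9 (k v (k v (k v (k (c 12 4099 r (u 8 1 (k v (k v r)))) r)))))
 (.s 0xea9dd5004bfb801d511444288 4084 (n false (n false (n false (n false (z 5) (z 46)) e) (n true (n false (n false (n false (n false e e) (n false e e)) (n false (n false e e) (n false e e))) (n false e e)) e)) (n false (n false e e) (n false e e))) (t 16 2 (u 24 1 (k v (k (c 4 4083 r v) (k (c 56 4099 r (u 40 0 (k v (k v r)))) (k (c 4 4083 r v) (k (c 56 4097 r (c 4 4083 r v)) (k (c 40 4095 r (c 4 4083 r v)) r))))))))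
 (.s 0xea9dd5004bbb802a88a222288 4089 (n false (n false (n false (n false (z 42) (z 5)) (n false (n false (n false (n false e e) (n false e e)) (n false (n false e e) (n false e e))) (n false e e))) (n false e e)) (n false (n false e e) (n false e e))) (t 24 1 (u 16 58 (k v (k v (k (t 32 3 (t 48 1 v)) (k r (k (c 48 4110 r (c 40 4101 v (u 32 0 (k v (k v r))))) (k (t 48 3 (c 40 4101 v (u 32 3 (k v (k v (k v r)))))) (k (t 48 2 (c 24 4099 v r)) (k r (k (t 48 3 (c 40 4101 v (u 32 0 (k v (k v r))))) (k r (k (u 32 4 (k v (k (c 96 4099 r (u 64 1 (k v (k v r)))) r))) r)))))))))))))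
 .z .z) (.s 0xea9f77804aaa801d2bfa801c0 4087 (n false (n false (n true (n false (z 156) (n true (n false e e) e)) e) (n false (n false (z 107) (z 0)) e)) e) (t 26 1 (c 24 4094 v (u 16 30 (k (c 6 4089 r v) (k r (k (c 48 4099 r r) (k (c 32 4099 r r) (k (c 32 4095 r r) r))))))))
 .z .z)) (.s 0xeaa22888aa22888a75fe01708 4085 (n false (n false (z 121) (n false (n true (n false e e) e) (n false e e))) (n false (n false (n false (n false (n false e e) (n false e e)) (n false (n false e e) (n false e e))) (n false e e)) (n false (n false (n false (n false e e) (n false e e)) (n false (n false e e) (n false e e))) (n false e e)))) (u 4 1 (k v (k (c 12 4099 r (u 8 1 (k v (k v r)))) (k (c 8 4097 r (u 12 1 (k v (k v r)))) (k (c 8 4095 r (u 12 0 (k v (k v r)))) (k (c 8 4095 r (u 12 0 (k v (k v r)))) r))))))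
 (.s 0xeaa228889f770077d51144410 4085 (n false (n true (n false (n true (n true (n false (n false (n false (n false e e) (n false e e)) (n false (n false e e) (n false e e))) (n false e e)) e) e) (n false e e)) e) (n false (z 43) (n false (n false (n false (n false e e) (n false e e)) (n false (n false e e) (n false e e))) (n false e e)))) (c 7 4099 v (u 5 3 (k v (k v (k v (k r (k r (k (u 9 0 (k (u 17 0 (k v (k v r))) r)) (k r (k r r))))))))))
 .z .z) .z)) (.s 0xeaa22888aa22888ef95fd4000 4092 (n false (n true (n false (n true (n true (z 156) e) e) e) e) (n false (n false (n false (n false (n false e e) (n false e e)) (n false (n false e e) (n false e e))) (n false e e)) (n false (n false (n false (n false e e) (n false e e)) (n false (n false e e) (n false e e))) (n false e e)))) (c 5 4099 v (u 32 1 (k v (k (c 96 4099 r (u 64 1 (k v (k v r)))) (k (c 64 4098 r (u 96 1 (k v (k v r)))) (k (c 64 4097 r (u 96 1 (k v (k v r)))) (k (c 64 4099 r (u 96 1 (k v (k v r)))) (k (c 64 4095 r (u 96 0 (k v (k v r)))) r))))))))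
 (.s 0xeaa22888aa22888be75fe0070 4087 (n false (n false (n true (n true (z 121) e) e) (n true (n false e e) e)) (n false (n false (n false (n false (n false e e) (n false e e)) (n false (n false e e) (n false e e))) (n false e e)) (n false (n false (n false (n false e e) (n false e e)) (n false (n false e e) (n false e e))) (n false e e)))) (u 16 1 (k v (k (c 48 4099 r (u 32 1 (k v (k v r)))) (k (c 32 4097 r (u 48 1 (k v (k v r)))) (k (c 32 4095 r (u 48 0 (k v (k v r)))) (k (c 32 4095 r (u 48 0 (k v (k v r)))) r))))))
 (.s 0xeaa22888aa22888be5fdc0070 4088 (n false (n false (n true (n true (z 46) e) e) (n true (n false e e) e)) (n false (n false (n false (n false (n false e e) (n false e e)) (n false (n false e e) (n false e e))) (n false e e)) (n false (n false (n false (n false e e) (n false e e)) (n false (n false e e) (n false e e))) (n false e e)))) (u 16 1 (k v (k (u 32 1 (k v (k v r))) (k (c 48 4099 r (u 32 0 (k v (k v r)))) (k (u 32 1 (k v (k v r))) (k (c 48 4097 r (u 32 1 (k v (k v r)))) (k (c 32 4095 r (u 48 1 (k v (k v r)))) r)))))))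
 .z .z) (.s 0xeaa22888aa22888be775c0070 4088 (n false (n false (n true (n true (z 37) e) e) (n true (n false e e) e)) (n false (n false (n false (n false (n false e e) (n false e e)) (n false (n false e e) (n false e e))) (n false e e)) (n false (n false (n false (n false e e) (n false e e)) (n false (n false e e) (n false e e))) (n false e e)))) (u 16 0 (k v (k (u 32 0 (k (t 64 3 (t 96 1 v)) r)) (k (u 32 0 (k (t 64 3 (t 96 1 v)) r)) (k (u 32 2 (k v (k v (k v (k (t 96 1 (u 64 0 (k (t 128 3 (t 192 1 v)) r))) r))))) (k (u 32 10 (k v (k v (k v (k (t 96 1 (u 64 0 (k (t 128 3 (t 192 1 v)) r))) r))))) (k (c 3 4101 v r) r)))))))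
 .z .z)) (.s 0xeaa88a222a88a2222a7d5c008 4094 (n false (n false (n false (z 35) e) (n false e e)) (n false (n false (n false (n false (n false (n false e e) (n false e e)) (n false (n false e e) (n false e e))) (n false e e)) (n false (n false (n false (n false e e) (n false e e)) (n false (n false e e) (n false e e))) (n false e e))) (n false e e))) (u 8 0 (k v (k v (k (t 24 1 (u 16 0 (k (t 32 3 (t 48 1 v)) r))) r))))
 (.s 0xeaa22888aa22888ffe7f76000 4095 (n false (n true (n true (n true (n true (n true (z 87) e) e) e) e) e) (n false (n false (n false (n false (n false e e) (n false e e)) (n false (n false e e) (n false e e))) (n false e e)) (n false (n false (n false (n false e e) (n false e e)) (n false (n false e e) (n false e e))) (n false e e)))) (c 5 4099 v (u 64 1 (k v (k v r))))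
 .z .z) .z))))

set_option maxRecDepth 100000 in
def N230 : NT :=
(.s 0xeabaa2288845110be75fe0070 4087 (n false (n false (n true (n true (z 121) e) e) (n true (n false e e) e)) (n false (n false (n false (n false (n true (n false (n false (n false (n false e e) (n false e e)) (n false (n false e e) (n false e e))) (n false e e)) e) (n false e e)) (n false (n false e e) (n false e e))) (n false e e)) e)) (u 16 1 (k v (k (c 48 4099 r (u 32 1 (k v (k v r)))) (k (c 32 4097 r (u 48 1 (k v (k v r)))) (k (c 32 4095 r (u 48 0 (k v (k v r)))) (k (c 32 4095 r (u 48 0 (k v (k v r)))) r))))))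
 (.s 0xeaa88a222a88a222a777601c0 4085 (n false (n false (n false (n false (z 85) (n true (n false e e) e)) e) (n false (n false (n false (n false (n false e e) (n false e e)) (n false (n false e e) (n false e e))) (n false e e)) (n false (n false (n false (n false e e) (n false e e)) (n false (n false e e) (n false e e))) (n false e e)))) e) (u 16 60 (k v (k v (k v (k (c 32 4099 r (u 48 386 (k v (k v (k v (k (t 112 1 (u 80 2 (k v (k v r)))) r)))))) r)))))
 (.s 0xeaa88a222a88a2229f5700288 4082 (n false (n false (n false (z 35) e) (n false (n false (n false (n false (n false e e) (n false e e)) (n false (n false e e) (n false e e))) (n false e e)) (n false (n false (n false (n false e e) (n false e e)) (n false (n false e e) (n false e e))) (n false e e)))) (n false (n false e e) (n false e e))) (u 8 2 (k v (k v (k v (k (t 24 1 (u 16 0 (k (t 32 3 (t 48 1 v)) r))) r)))))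
 (.s 0xeaa88a222a88a222777601708 4076 (n false (n false (z 85) (n false (n false (n false (n false (n false e e) (n false e e)) (n false (n false e e) (n false e e))) (n false e e)) (n false (n false (n false (n false e e) (n false e e)) (n false (n false e e) (n false e e))) (n false e e)))) (n false (n true (n false e e) e) (n false e e))) (u 4 24 (k v (k (c 12 4099 r (u 8 382 (k v (k v (k v (k v (k v (k v (k v r))))))))) (k (t 12 1 (u 8 3 (k v (k v r)))) (k (c 12 4099 r (u 8 3 (k v (k v (k v (k (t 24 1 (u 16 26 (k v (k v (k v r))))) r)))))) (k (u 8 24 (k v (k v (k v (k (t 24 2 (u 16 26 (k v (k v (k v r))))) r))))) (k (c 12 4096 r (c 10 4099 v r)) r)))))))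
 (.s 0xeaa88a222a88a22275fe01d10 4082 (n false (n false (z 121) (n false (n false (n false (n false (n false e e) (n false e e)) (n false (n false e e) (n false e e))) (n false e e)) (n false (n false (n false (n false e e) (n false e e)) (n false (n false e e) (n false e e))) (n false e e)))) (n true (n false (n false e e) (n false e e)) e)) (u 4 19 (k v (k v (k (c 8 4097 r (u 12 1 (k v (k v r)))) (k (c 8 4095 r (u 12 0 (k v (k v r)))) (k (c 8 4095 r (u 12 0 (k v (k v r)))) r))))))
 .z .z) (.s 0xeaa88a222a88a2227df601708 4076 (n false (n false (z 91) (n false (n false (n false (n false (n false e e) (n false e e)) (n false (n false e e) (n false e e))) (n false e e)) (n false (n false (n false (n false e e) (n false e e)) (n false (n false e e) (n false e e))) (n false e e)))) (n false (n true (n false e e) e) (n false e e))) (u 4 0 (k v (k v (k (u 8 0 (k v (k v r))) (k (c 8 4097 r (u 12 3 (k v (k v (k v r))))) (k (c 8 4095 r (u 12 3 (k v (k v (k v r))))) r))))))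
 .z .z)) (.s 0xeaa88a222a88a222a75fe01c0 4081 (n false (n false (n false (n false (z 121) (n true (n false e e) e)) e) (n false (n false (n false (n false (n false e e) (n false e e)) (n false (n false e e) (n false e e))) (n false e e)) (n false (n false (n false (n false e e) (n false e e)) (n false (n false e e) (n false e e))) (n false e e)))) e) (u 16 1 (k v (k (c 48 4099 r (u 32 1 (k v (k v r)))) (k (c 32 4097 r r) (k (c 32 4095 r (u 48 0 (k v (k v r)))) (k (c 32 4095 r (u 48 0 (k v (k v r)))) r))))))
 (.s 0xeaa88a222a88a2229fdf00288 4082 (n false (n false (n false (z 55) e) (n false (n false (n false (n false (n false e e) (n false e e)) (n false (n false e e) (n false e e))) (n false e e)) (n false (n false (n false (n false e e) (n false e e)) (n false (n false e e) (n false e e))) (n false e e)))) (n false (n false e e) (n false e e))) (u 8 6 (k v (k (t 24 1 (u 16 10 (k v (k v r)))) r)))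
 .z .z) .z)) (.s 0xeabaa2288845110a75fe01708 4085 (n false (n false (z 121) (n false (n true (n false e e) e) (n false e e))) (n false (n false (n false (n false (n true (n false (n false (n false (n false e e) (n false e e)) (n false (n false e e) (n false e e))) (n false e e)) e) (n false e e)) (n false (n false e e) (n false e e))) (n false e e)) e)) (u 4 1 (k v (k (c 12 4099 r (u 8 1 (k v (k v r)))) (k (c 8 4097 r (u 12 1 (k v (k v r)))) (k (c 8 4095 r (u 12 0 (k v (k v r)))) (k (c 8 4095 r (u 12 0 (k v (k v r)))) r))))))
 (.s 0xeaa88a222a88a2239f5700288 4084 (n false (n false (n true (z 35) e) (n false (n false (n false (n false (n false e e) (n false e e)) (n false (n false e e) (n false e e))) (n false e e)) (n false (n false (n false (n false e e) (n false e e)) (n false (n false e e) (n false e e))) (n false e e)))) (n false (n false e e) (n false e e))) (u 8 10 (k v (k v (k v (k (t 24 1 (u 16 0 (k (t 32 3 (t 48 1 v)) r))) r)))))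
 (.s 0xeaa88a222a88a222e113bbb00 4084 (n false (z 85) (n false (n false (n false (n false (n false (n false e e) (n false e e)) (n false (n false e e) (n false e e))) (n false e e)) (n false (n false (n false (n false e e) (n false e e)) (n false (n false e e) (n false e e))) (n false e e))) (n false (n true (n false e e) e) (n false e e)))) (u 2 14 (k v (k v (k (c 6 4099 r r) (k (c 6 4099 r r) (k (c 6 4099 r r) (k (c 6 4096 r r) r)))))))
 .z .z) (.s 0xeabaa2288845110a5fdc01708 4085 (n false (n false (z 46) (n false (n true (n false e e) e) (n false e e))) (n false (n false (n false (n false (n true (n false (n false (n false (n false e e) (n false e e)) (n false (n false e e) (n false e e))) (n false e e)) e) (n false e e)) (n false (n false e e) (n false e e))) (n false e e)) e)) (u 4 1 (k v (k (u 8 1 (k v (k v r))) (k (c 12 4099 r (u 8 0 (k v (k v r)))) (k (u 8 1 (k v (k v r))) (k (c 12 4097 r (u 8 1 (k v (k v r)))) (k (c 8 4095 r (u 12 1 (k v (k v r)))) r)))))))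
 .z .z)) (.s 0xeabaa2288845110be5fdc0070 4088 (n false (n false (n true (n true (z 46) e) e) (n true (n false e e) e)) (n false (n false (n false (n false (n true (n false (n false (n false (n false e e) (n false e e)) (n false (n false e e) (n false e e))) (n false e e)) e) (n false e e)) (n false (n false e e) (n false e e))) (n false e e)) e)) (u 16 1 (k v (k (u 32 1 (k v (k v r))) (k (c 48 4099 r (u 32 0 (k v (k v r)))) (k (u 32 1 (k v (k v r))) (k (c 48 4097 r (u 32 1 (k v (k v r)))) (k (c 32 4095 r (u 48 1 (k v (k v r)))) r)))))))
 (.s 0xeabaa2288845110a775c01708 4085 (n false (n false (z 37) (n false (n true (n false e e) e) (n false e e))) (n false (n false (n false (n false (n true (n false (n false (n false (n false e e) (n false e e)) (n false (n false e e) (n false e e))) (n false e e)) e) (n false e e)) (n false (n false e e) (n false e e))) (n false e e)) e)) (u 4 0 (k v (k (c 10 4094 v (u 8 0 (k (t 16 3 (t 24 1 v)) r))) (k (c 10 4094 v (u 8 0 (k (t 16 3 (t 24 1 v)) r))) (k (u 8 0 (k v (k v (k (t 24 1 (u 16 0 (k (t 32 3 (t 48 1 v)) r))) r)))) (k (u 8 10 (k v (k v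 (k v (k (t 24 1 (u 16 0 (k (t 32 3 (t 48 1 v)) r))) r))))) (k (c 4 4095 r v) r)))))))
 .z .z) .z))) (.s 0xebaa2288853feb0070aa22888 4091 (n false (n false (n false (n false (z 79) e) (n true (n false (n false (n false (n false e e) (n false e e)) (n false (n false e e) (n false e e))) (n false e e)) e)) (n true (n false e e) e)) (n false (n false (n false (n false e e) (n false e e)) (n false (n false e e) (n false e e))) (n false e e))) (c 20 4099 v (c 6 4094 v (u 16 1 (k v (k (u 32 14 (k v (k v (k v (k v r))))) (k (c 48 4096 r (u 32 1 (k v (k v r)))) r))))))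
 (.s 0xeb9d7f802a88a223852afa008 4091 (n false (n false (n false (n true (z 121) e) (n false (n false (n false (n false e e) (n false e e)) (n false (n false e e) (n false e e))) (n false e e))) (n true (n false e e) e)) (n false (z 24) (n false e e))) (u 16 11 (k (u 5 0 (k (t 9 3 (t 13 1 v)) r)) (k r (k (c 48 4099 r r) (k (c 32 4095 r r) (k (c 32 4095 r r) r))))))
 (.s 0xeabaa2288845111dc213bbb00 4084 (n false (n false (n true (n false (n true (n false e e) e) (n false e e)) e) (n false (n false (n false (n true (n false (n false (n false (n false e e) (n false e e)) (n false (n false e e) (n false e e))) (n false e e)) e) (n false e e)) (n false (n false e e) (n false e e))) (n false e e))) (z 85)) (u 3 14 (k v (k v (k (c 7 4099 r r) (k (t 7 1 (u 5 11 (k v (k (t 13 1 (u 9 37 (k v (k v (k v (k (u 17 6 (k v (k v r))) r)))))) r)))) (k (c 7 4099 r r) (k (c 7 4096 r (c 2 4090 v r)) r)))))))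
 (.s 0xeabaa22888451115c213bbb00 4084 (n false (z 85) (n false (n false (n false (n false (n true (n false (n false (n false (n false e e) (n false e e)) (n false (n false e e) (n false e e))) (n false e e)) e) (n false e e)) (n false (n false e e) (n false e e))) (n false e e)) (n false (n false (n true (n false e e) e) (n false e e)) e))) (u 2 14 (k v (k v (k r (k r (k (c 6 4099 r r) (k (c 6 4096 r (c 11 4092 v (c 3 4094 v r))) r)))))))
 .z .z) (.s 0xeae577c00aa22888ea88a2210 4088 (n false (n false (n false (n false (n true (z 52) e) (n false (n false (n false (n false e e) (n false e e)) (n false (n false e e) (n false e e))) (n false e e))) (n true (n false (n false (n false (n false e e) (n false e e)) (n false (n false e e) (n false e e))) (n false e e)) e)) (n false e e)) e) (u 32 129 (k v (k v (k v (k v (k v r))))))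
 .z .z)) (.s 0xebaa2288853feb00475445110 4096 (n false (n false (n false (n false (z 79) e) (n true (n false (n false (n false (n false e e) (n false e e)) (n false (n false e e) (n false e e))) (n false e e)) e)) (n false e e)) (n true (n false (n false (n false (n false e e) (n false e e)) (n false (n false e e) (n false e e))) (n false e e)) e)) (c 2 4093 (c 10 4099 v (u 8 2 (k v (k (u 16 1 (k v (k (c 48 4099 r (u 32 1 (k v (k v r)))) (k (u 32 0 (k v (k v r))) (k (c 32 4099 r (u 48 1 (k v (k v r)))) (k (c 32 4099 r (u 48 1 (k v (k v r)))) (k (c 32 4099 r (u 48 1 (k v (k v r)))) r))))))) (k (c 16 4100 r (u 24 0 (k (u 40 0 (k v (k v r))) r))) r))))) v)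
 (.s 0xebaa2288853bae0070aa22888 4089 (n false (n false (n false (n false (z 37) e) (n true (n false (n false (n false (n false e e) (n false e e)) (n false (n false e e) (n false e e))) (n false e e)) e)) (n true (n false e e) e)) (n false (n false (n false (n false e e) (n false e e)) (n false (n false e e) (n false e e))) (n false e e))) (c 12 4110 v (u 16 7 (k v (k (c 3 4099 v r) (k (c 3 4099 v r) (k (u 32 2 (k v (k (t 96 2 (c 3 4099 v (u 64 8 (k v (k v r))))) r))) r))))))
 .z .z) .z)) (.s 0xebaa228885445112bfa801708 4074 (n false (n false (z 156) (n false (n true (n false (n false (n false (n false e e) (n false e e)) (n false (n false e e) (n false e e))) (n false e e)) e) (n false (n false (n false e e) (n false e e)) (n false (n false e e) (n false e e))))) (n false (n true (n false e e) e) (n false e e))) (u 4 1 (k v (k (c 12 4099 r (u 8 1 (k v (k v r)))) (k (c 8 4098 r (u 12 1 (k v (k v r)))) (k (c 8 4097 r (u 12 1 (k v (k v r)))) (k (c 8 4099 r (u 12 1 (k v (k v r)))) (k (c 8 4095 r (u 12 0 (k v (k v r)))) r)))))))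
 (.s 0xebaa22888544510be5fdc0070 4088 (n false (n false (n true (n true (z 46) e) e) (n true (n false e e) e)) (n false (n false (n true (n false (n false (n false (n false e e) (n false e e)) (n false (n false e e) (n false e e))) (n false e e)) e) (n false (n false (n false e e) (n false e e)) (n false (n false e e) (n false e e)))) e)) (u 16 1 (k v (k (u 32 1 (k v (k v r))) (k (c 48 4099 r (u 32 0 (k v (k v r)))) (k (u 32 1 (k v (k v r))) (k (c 48 4097 r (u 32 1 (k v (k v r)))) (k (c 32 4095 r (u 48 1 (k v (k v r)))) r)))))))
 (.s 0xebaa22888544510a75fe01708 4086 (n false (n false (z 121) (n false (n true (n false e e) e) (n false e e))) (n false (n false (n true (n false (n false (n false (n false e e) (n false e e)) (n false (n false e e) (n false e e))) (n false e e)) e) (n false (n false (n false e e) (n false e e)) (n false (n false e e) (n false e e)))) e)) (u 4 1 (k v (k (c 12 4099 r (u 8 1 (k v (k v r)))) (k (c 8 4097 r (u 12 1 (k v (k v r)))) (k (c 8 4095 r (u 12 0 (k v (k v r)))) (k (c 8 4095 r (u 12 0 (k v (k v r)))) r))))))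
 .z .z) (.s 0xebaa22888544510be75fe0070 4087 (n false (n false (n true (n true (z 121) e) e) (n true (n false e e) e)) (n false (n false (n true (n false (n false (n false (n false e e) (n false e e)) (n false (n false e e) (n false e e))) (n false e e)) e) (n false (n false (n false e e) (n false e e)) (n false (n false e e) (n false e e)))) e)) (u 16 1 (k v (k (c 48 4099 r (u 32 1 (k v (k v r)))) (k (c 32 4097 r (u 48 1 (k v (k v r)))) (k (c 32 4095 r (u 48 0 (k v (k v r)))) (k (c 32 4095 r (u 48 0 (k v (k v r)))) r))))))
 .z .z)) (.s 0xebaa2288854451152bfa801c0 4083 (n false (n false (n false (n false (z 156) (n true (n false e e) e)) e) (n false (n true (n false (n false (n false (n false e e) (n false e e)) (n false (n false e e) (n false e e))) (n false e e)) e) (n false (n false (n false e e) (n false e e)) (n false (n false e e) (n false e e))))) e) (c 14 4101 v (c 18 4099 v r))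
 (.s 0xebaa228885445113aff00ee10 4085 (n false (n false (z 121) (n false (n true (n false (n false (n false (n false e e) (n false e e)) (n false (n false e e) (n false e e))) (n false e e)) e) (n false (n false (n false e e) (n false e e)) (n false (n false e e) (n false e e))))) (n true (n false (n true (n false e e) e) (n false e e)) e)) (u 4 8 (k v (k v (k v (k (c 12 4099 r (u 8 1 (k v (k v r)))) r)))))
 .z .z) .z))))

set_option maxRecDepth 100000 in
def N231 : NT :=
(.s 0xebaa22888754451108e7dfe00 4096 (n false (n true (z 123) e) (n false (n false (n true (n false (n false (n false (n false e e) (n false e e)) (n false (n false e e) (n false e e))) (n false e e)) e) (n true (n false (n false (n false (n false e e) (n false e e)) (n false (n false e e) (n false e e))) (n false e e)) e)) (n false e e))) (u 4 43 (k v (k v (k r (k (u 8 6 (k v (k v (k v (k (t 24 1 (u 16 269 (k v (k v (k v r))))) (k (c 16 4097 r r) (k (c 24 4097 r r) (k (c 24 4097 r r) (k (c 24 4097 r r) r))))))))) (k (c 8 4096 r (u 12 1 (k v (k v r)))) (k (c 12 4097 r r) r)))))))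
 (.s 0xebaa2288870aa22888e75fe00 4091 (n false (n true (z 121) e) (n false (n false (n true (n false (n false (n false (n false e e) (n false e e)) (n false (n false e e) (n false e e))) (n false e e)) e) (n true (n false e e) e)) (n false (n false (n false (n false e e) (n false e e)) (n false (n false e e) (n false e e))) (n false e e)))) (u 4 1 (k v (k (c 12 4099 r (u 8 1 (k v (k v r)))) (k (c 8 4097 r (u 12 1 (k v (k v r)))) (k (c 8 4095 r (u 12 0 (k v (k v r)))) (k (c 8 4095 r (u 12 0 (k v (k v r)))) r))))))
 (.s 0xebaa2288870aa22888e57fe00 4091 (n false (n false (n false (n true (n false (n false (n false (n false e e) (n false e e)) (n false (n false e e) (n false e e))) (n false e e)) e) (n true (n false e e) e)) (n false (n false (n false (n false e e) (n false e e)) (n false (n false e e) (n false e e))) (n false e e))) (n true (z 124) e)) (u 5 19 (k v (k v (k (c 13 4097 r (u 9 1 (k v (k v r)))) (k (c 13 4096 r (u 9 1 (k v (k v r)))) (k (c 13 4097 r (u 9 1 (k v (k v r)))) (k (c 13 4097 r (u 9 1 (k v (k v r)))) (k (c 13 4099 r (u 9 1 (k v (k v r)))) (k (c 9 4097 r (u 13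 1 (k v (k v r)))) r)))))))))
 (.s 0xebaa22888709dd70075445110 4091 (n false (n false (n false (n true (n false (n false (n false (n false e e) (n false e e)) (n false (n false e e) (n false e e))) (n false e e)) e) (n true (n false e e) e)) (z 37)) (n true (n false (n false (n false (n false e e) (n false e e)) (n false (n false e e) (n false e e))) (n false e e)) e)) (u 6 67 (k v (k v (k (c 16 4099 v r) (k (u 10 0 (k v (k v (k (t 26 1 (u 18 0 (k (t 34 3 (t 50 1 v)) r))) r)))) (k (u 10 0 (k v (k v (k (t 26 1 (u 18 0 (k (t 34 3 (t 50 1 v)) r))) r)))) (k (c 16 4099 v r) r)))))))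
 (.s 0xebaa22888544511d2efa00850 4071 (n false (n false (n true (n false (z 26) (n false e e)) e) (n false (n true (n false (n false (n false (n false e e) (n false e e)) (n false (n false e e) (n false e e))) (n false e e)) e) (n false (n false (n false e e) (n false e e)) (n false (n false e e) (n false e e))))) (n false (n false e e) e)) (u 16 2 (k v (k (u 32 6 (k v (k v r))) r)))
 .z .z) (.s 0xebaa2288870aa22888a7d5600 4089 (n false (n false (n false (n true (n false (n false (n false (n false e e) (n false e e)) (n false (n false e e) (n false e e))) (n false e e)) e) (n true (n false e e) e)) (n false (n false (n false (n false e e) (n false e e)) (n false (n false e e) (n false e e))) (n false e e))) (n false (z 67) e)) (u 5 94 (k v (k v (k v (k v (k r (k (c 9 4101 r r) (k (c 3 4088 r v) (k (c 9 4099 r r) (k r (k r (k (c 13 4102 r r) (k r (k r (k r r)))))))))))))))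
 .z .z)) (.s 0xebaa2288870aa22888e5fdc00 4091 (n false (n false (n false (n true (n false (n false (n false (n false e e) (n false e e)) (n false (n false e e) (n false e e))) (n false e e)) e) (n true (n false e e) e)) (n false (n false (n false (n false e e) (n false e e)) (n false (n false e e) (n false e e))) (n false e e))) (n true (z 46) e)) (u 5 1 (k v (k (u 9 1 (k v (k v r))) (k (c 13 4099 r (u 9 0 (k v (k v r)))) (k (u 9 1 (k v (k v r))) (k (c 13 4097 r (u 9 1 (k v (k v r)))) (k (c 9 4095 r (u 13 1 (k v (k v r)))) r)))))))
 (.s 0xebaa2288870aa22888e5d7c00 4090 (n false (n false (n false (n true (n false (n false (n false (n false e e) (n false e e)) (n false (n false e e) (n false e e))) (n false e e)) e) (n true (n false e e) e)) (n false (n false (n false (n false e e) (n false e e)) (n false (n false e e) (n false e e))) (n false e e))) (n true (z 50) e)) (c 10 4101 v (c 12 4094 v (u 5 1 (k v (k (c 13 4097 r (u 9 0 (k v (k v r)))) r)))))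
 .z .z) .z)) (.s 0xebaa2288870aa22888e7df600 4090 (n false (n false (n false (n true (n false (n false (n false (n false e e) (n false e e)) (n false (n false e e) (n false e e))) (n false e e)) e) (n true (n false e e) e)) (n false (n false (n false (n false e e) (n false e e)) (n false (n false e e) (n false e e))) (n false e e))) (n true (z 91) e)) (u 5 1 (k v (k v (k v (k (u 9 1 (k v (k v r))) (k (c 9 4097 r (u 13 0 (k v (k v r)))) (k (c 9 4095 r (u 13 0 (k v (k v r)))) r)))))))
 (.s 0xebaa2288870aa22888e777600 4091 (n false (n true (z 85) e) (n false (n false (n true (n false (n false (n false (n false e e) (n false e e)) (n false (n false e e) (n false e e))) (n false e e)) e) (n true (n false e e) e)) (n false (n false (n false (n false e e) (n false e e)) (n false (n false e e) (n false e e))) (n false e e)))) (u 4 10 (k (c 12 4099 r r) (k (c 12 4099 r (c 2 4088 r v)) (k (c 12 4099 r (u 8 4 (k v (k v (k v (k (t 24 1 r) r)))))) (k (c 17 4099 v (c 7 4099 v r)) (k (t 8 1 (c 11 4101 v (u 12 13 (k v (k v r))))) (k (c 12 4096 r (c 2 4088 r v)) (k (c 8 4099 r r) r))))))))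
 (.s 0xebaa2288870aa22888e775c00 4091 (n false (n false (n false (n true (n false (n false (n false (n false e e) (n false e e)) (n false (n false e e) (n false e e))) (n false e e)) e) (n true (n false e e) e)) (n false (n false (n false (n false e e) (n false e e)) (n false (n false e e) (n false e e))) (n false e e))) (n true (z 37) e)) (u 5 0 (k v (k (u 9 0 (k (t 17 3 (t 25 1 v)) r)) (k (c 16 4099 v (c 6 4099 v (u 9 0 (k (t 17 3 (t 25 1 v)) r)))) (k (u 9 2 (k v (k v (k v (k (t 25 1 (u 17 0 (k (t 33 3 (t 49 1 v)) r))) r))))) (k (u 9 10 (k v (k v (k v (k (t 25 1 (u 17 0 (k (t 33 3 (t 49 1 v)) r))) r))))) (k (c 3 4088 r v) r)))))))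
 .z .z) (.s 0xebaa2288870aa22888e7d5600 4091 (n false (n false (n false (n true (n false (n false (n false (n false e e) (n false e e)) (n false (n false e e) (n false e e))) (n false e e)) e) (n true (n false e e) e)) (n false (n false (n false (n false e e) (n false e e)) (n false (n false e e) (n false e e))) (n false e e))) (n true (z 67) e)) (u 5 85 (k v (k v (k v (k v (k (t 13 1 (u 9 1 (k v (k v r)))) (k (c 9 4101 r (u 13 0 (k v (k v r)))) (k r (k (c 3 4088 r v) (k (c 9 4099 r (u 13 0 (k v (k v r)))) (k (t 13 1 (u 9 2 (k v (k (c 25 4097 r (u 17 0 (k v (k v r)))) r)))) (k (c 3 4091 (t 6 2 (u 4 0 (k r r))) v) (k (u 13 2 (k (t 9 1 v) (k (u 9 0 (k v (k v r))) r))) (k (t 13 1 (u 9 4 (k v (k v (k (c 25 4099 r (u 17 1 (k v (k v r)))) (k (c 17 4097 r r) r)))))) (k (c 3 4091 (t 4 1 (u 6 0 (k r r))) v) (k r (k r (k r r))))))))))))))))))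
 .z .z)) (.s 0xebaa22888754451108e7d5600 4096 (n false (n true (z 67) e) (n false (n false (n true (n false (n false (n false (n false e e) (n false e e)) (n false (n false e e) (n false e e))) (n false e e)) e) (n true (n false (n false (n false (n false e e) (n false e e)) (n false (n false e e) (n false e e))) (n false e e)) e)) (n false e e))) (u 4 68 (k v (k v (k v (k v (k v (k (t 12 1 (u 8 1 (k v (k v r)))) (k (c 8 4101 r (u 12 0 (k v (k v r)))) (k r (k (c 2 4088 r v) (k (c 8 4099 r (u 12 0 (k v (k v r)))) (k (c 2 4091 (t 6 2 (u 4 0 (k r r))) v) (k (c 12 4101 r (u 8 1 (k v (k v r)))) (k (t 12 1 (u 8 12 (k v (k v (k v (k (c 24 4099 r (u 16 1 (k v (k v r)))) r)))))) (k (c 12 4102 r (u 8 1 (k v (k v r)))) (k (c 8 4101 r (u 12 1 (k v (k v r)))) (k (t 12 1 (u 8 3 (k v (k v (k (c 24 4099 r (u 16 1 (k v (k v r)))) r))))) (k (c 8 4101 r (u 12 1 (k v (k v r)))) r))))))))))))))))))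
 (.s 0xebaa22888754451108e777600 4095 (n false (n true (z 85) e) (n false (n false (n true (n false (n false (n false (n false e e) (n false e e)) (n false (n false e e) (n false e e))) (n false e e)) e) (n true (n false (n false (n false (n false e e) (n false e e)) (n false (n false e e) (n false e e))) (n false e e)) e)) (n false e e))) (u 4 18 (k v (k v (k v (k (u 8 6 (k v (k v r))) (k (c 8 4099 r (c 9 4110 v r)) r))))))
 .z .z) .z))) (.s 0xefa7f7c013baa0023ea88a220 4077 (n false (n false (n true (n true (n false (z 55) (z 5)) e) e) (n false e e)) (n true (n true (n false (n false (n false (n false e e) (n false e e)) (n false (n false e e) (n false e e))) (n false e e)) e) e)) (t 48 1 (u 32 4 (k (t 96 1 (u 64 9 (k v (k v (k v (k (u 128 4 (k v (k (t 384 1 (u 256 4 (k v (k v r)))) r))) (k (c 8 4085 (c 6 4099 v r) v) r))))))) (k (t 96 2 (c 48 4099 v r)) r))))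
 (.s 0xeeea88a2215114429f5700288 4084 (n false (n false (n true (n false (n true (n false (n false (n false (n false e e) (n false e e)) (n false (n false e e) (n false e e))) (n false e e)) e) (n false (n false (n false e e) (n false e e)) (n false (n false e e) (n false e e)))) e) (n false (z 35) e)) (n false (n false e e) (n false e e))) (u 10 10 (k v (k v (k v (k (t 26 1 (u 18 0 (k (t 34 3 (t 50 1 v)) r))) r)))))
 (.s 0xee9ddd8070551144475445110 4090 (n false (n false (n true (n false (z 85) (n true (n false e e) e)) e) (n false (n false (n false (n false e e) (n false e e)) (n false (n false e e) (n false e e))) (n false e e))) (n true (n false (n false (n false (n false e e) (n false e e)) (n false (n false e e) (n false e e))) (n false e e)) e)) (u 16 20 (k v (k v (k (c 48 4099 r r) (k (t 48 1 (c 10 4101 v (u 32 2 (k v (k (t 96 2 (c 3 4110 v (c 48 4099 v (u 64 2 (k v (k (u 128 1 (k v (k v r))) r)))))) r))))) (k (c 4 4081 r v) (k (c 48 4096 r (c 8 4086 (c 3 4094 v r) v)) (k (c 32 4099 r r) r))))))))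
 (.s 0xee7f7600aa22888ea777601c0 4089 (n false (n true (n false (n false (z 85) (n true (n false e e) e)) e) e) (n false (n true (z 87) e) (n false (n false (n false (n false e e) (n false e e)) (n false (n false e e) (n false e e))) (n false e e)))) (u 16 34 (k (c 9 4099 r v) (k (u 9 1 (k v (k v r))) (k (c 48 4099 r r) (k (c 48 4099 r r) (k (c 32 4099 r r) r))))))
 .z .z) (.s 0xeeaa22888aa2288870e7d5600 4092 (n false (n false (n true (n false (n false (n false (n false (n false e e) (n false e e)) (n false (n false e e) (n false e e))) (n false e e)) (n false (n false (n false (n false e e) (n false e e)) (n false (n false e e) (n false e e))) (n false e e))) e) (n true (n false e e) e)) (n true (z 67) e)) (u 5 131 (k v (k v (k v (k v (k v (k (t 13 1 (u 9 1 (k v (k v r)))) (k (c 9 4101 r (u 13 0 (k v (k v r)))) (k r (k (c 3 4088 r v) (k (t 13 1 (u 9 0 (k (u 17 0 (k v (k v r))) r))) (k (c 13 4101 r (u 9 1 (k v (k v r)))) (k (t 13 1 (u 9 9 (k v (k v (k v (k (c 25 4099 r (u 17 1 (k v (k v r)))) r)))))) (k (c 13 4102 r (u 9 1 (k v (k v r)))) (k (c 9 4101 r (u 13 1 (k v (k v r))))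 (k r (k (c 9 4101 r (u 13 1 (k v (k v r)))) r)))))))))))))))))
 .z .z)) (.s 0xeefaa228880aa22888e7d5600 4093 (n false (n false (n true (n false (n true (n true (n false (n false (n false (n false e e) (n false e e)) (n false (n false e e) (n false e e))) (n false e e)) e) e) e) e) (n false (n false (n false (n false e e) (n false e e)) (n false (n false e e) (n false e e))) (n false e e))) (n true (z 67) e)) (u 5 135 (k v (k v (k v (k (t 13 1 (u 9 1 (k v (k v r)))) (k (u 9 2 (k (t 13 1 v) (k (u 13 0 (k v (k v r))) r))) (k r (k (c 3 4088 r v) (k (c 3 4091 (t 6 2 (u 4 0 (k r r))) v) (k (u 13 2 (k (t 9 1 v) (k (u 9 1 (k v (k v r))) r))) (k (t 13 1 (u 9 4 (k v (k v (k (c 25 4099 r (u 17 1 (k v (k v r)))) (k (c 17 4097 r r) r)))))) (k (c 3 4091 (t 4 1 (u 6 0 (k r r))) v) (k (t 9 2 (c 3 4085 r v)) (k r (k r (k r r))))))))))))))))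
 (.s 0xeeea88a2215114439f5700288 4086 (n false (n false (n true (n false (n true (n false (n false (n false (n false e e) (n false e e)) (n false (n false e e) (n false e e))) (n false e e)) e) (n false (n false (n false e e) (n false e e)) (n false (n false e e) (n false e e)))) e) (n true (z 35) e)) (n false (n false e e) (n false e e))) (u 10 18 (k v (k v (k v (k v r)))))
 .z .z) .z)) (.s 0xfa75fe012bbe00775445110a0 4090 (n false (n true (n false (z 121) (z 52)) e) (n true (n false (n true (n false (n false (n false (n false e e) (n false e e)) (n false (n false e e) (n false e e))) (n false e e)) e) (n false (n false e e) e)) e)) (u 8 2 (k r (k (c 12 4097 r v) (k (c 24 4099 r r) (k (c 16 4095 r (t 12 1 (c 2 4080 r v))) (k (c 16 4095 r (t 12 1 (c 2 4080 r v))) r))))))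
 (.s 0xfa57f5002775400aa88a223a0 4088 (n false (n true (n false (z 156) (z 5)) e) (n false (n true (n false (n false e e) e) e) (n false (n false (n false (n false e e) (n false e e)) (n false (n false e e) (n false e e))) (n false e e)))) (t 12 1 (u 8 1 (k v (k (c 24 4099 r (u 16 1 (k v (k v r)))) (k (c 16 4098 r (u 24 1 (k v (k v r)))) (k (c 16 4097 r r) (k (c 16 4099 r (u 24 1 (k v (k v r)))) (k (c 16 4095 r (u 24 0 (k v (k v r)))) r))))))))
 (.s 0xfa57f5002775400aa88a222a0 4091 (n false (n true (n false (z 156) (z 5)) e) (n false (n false (n false (n false e e) e) e) (n false (n false (n false (n false e e) (n false e e)) (n false (n false e e) (n false e e))) (n false e e)))) (t 12 1 (u 8 8 (k v (k v (k (c 24 4099 r (u 16 1 (k v (k v r)))) (k (c 16 4098 r (u 24 1 (k v (k v r)))) (k (c 16 4097 r r) (k (c 16 4099 r (u 24 1 (k v (k v r)))) r))))))))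
 .z .z) (.s 0xfa57f5002775400bea88a2208 4085 (n false (n true (n false (z 156) (z 5)) e) (n false (n true (n true (n false (n false (n false (n false e e) (n false e e)) (n false (n false e e) (n false e e))) (n false e e)) e) e) (n false e e))) (t 12 1 (u 8 2 (k v (k (c 24 4099 r (u 16 1 (k v (k v r)))) (k (c 16 4095 r (u 24 0 (k v (k v r)))) r)))))
 .z .z)) (.s 0xfa775c012bbe00775445110a0 4090 (n false (n true (n false (n true (n false (n false (n false (n false e e) (n false e e)) (n false (n false e e) (n false e e))) (n false e e)) e) (n false (n false e e) e)) e) (n true (n false (z 52) (z 37)) e)) (u 13 1 (k (c 12 4094 v (u 9 25 (k v (k v (k v (k (t 25 1 (u 17 0 (k v (k v r)))) r)))))) (k (u 9 264 (k v (k v (k v (k v (k v r)))))) r)))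
 (.s 0xfa7754012fee005f544511070 4093 (n false (n true (n false (z 46) (z 5)) e) (n false (n true (n true (n false (n false (n false (n false e e) (n false e e)) (n false (n false e e) (n false e e))) (n false e e)) e) e) (n true (n false e e) e))) (t 12 1 (u 8 10 (k v (k (c 24 4099 r (u 16 0 (k v (k v r)))) (k (c 2 4088 (c 10 4101 v r) v) r)))))
 .z .z) .z))))

set_option maxRecDepth 100000 in
def N232 : NT :=
(.s 0xfaaea88a221144417caef8008 4076 (n false (n false (n true (n true (z 52) e) e) (n false e e)) (n true (n false (n false (n false (n false (n true (n false (n false (n false (n false e e) (n false e e)) (n false (n false e e) (n false e e))) (n false e e)) e) (n false e e)) (n false (n false e e) (n false e e))) (n false e e)) e) e)) (u 16 237 (k v (k v (k v (k v (k v (k v (k v r))))))))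
 (.s 0xfaa88a222a88a221d4aef8020 4092 (n false (n true (n false (n false (z 52) (n false e e)) e) e) (n true (n false (n false (n false (n false (n false e e) (n false e e)) (n false (n false e e) (n false e e))) (n false e e)) (n false (n false (n false (n false e e) (n false e e)) (n false (n false e e) (n false e e))) (n false e e))) e)) (u 16 41 (k v (k v (k (t 48 1 (u 32 11 (k v (k v (k v r))))) r))))
 (.s 0xfaa88a222a88a22173aff0070 4092 (n false (n false (n true (z 121) e) (n true (n false e e) e)) (n true (n false (n false (n false (n false (n false e e) (n false e e)) (n false (n false e e) (n false e e))) (n false e e)) (n false (n false (n false (n false e e) (n false e e)) (n false (n false e e) (n false e e))) (n false e e))) e)) (u 8 4 (k v (k v (k (c 24 4099 r (u 16 1 (k v (k v r)))) (k (c 16 4097 r (u 24 1 (k v (k v r)))) r)))))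
 (.s 0xfaa88a222a88a22152fee0070 4090 (n false (n false (n false (z 46) e) (n true (n false e e) e)) (n true (n false (n false (n false (n false (n false e e) (n false e e)) (n false (n false e e) (n false e e))) (n false e e)) (n false (n false (n false (n false e e) (n false e e)) (n false (n false e e) (n false e e))) (n false e e))) e)) (u 8 2 (k v (k (c 24 4099 r (u 16 0 (k v (k v r)))) (k (u 16 1 (k v (k v r))) (k (u 16 1 (k v (k v r))) (k (c 24 4097 r (u 16 1 (k v (k v r)))) (k (c 16 4095 r (u 24 1 (k v (k v r)))) r)))))))
 (.s 0xfaa88a22257f5001ddc215110 4082 (n false (n true (n false (z 156) (n false (n false (n false (n false e e) (n false e e)) (n false (n false e e) (n false e e))) (n false e e))) e) (n true (n false (n false (n false (n false e e) (n false e e)) (n false e e)) (n true (n false (n true (n false e e) e) (n false e e)) e)) e)) (u 8 20 (k v (k v (k v (k (c 24 4099 r (u 16 1 (k v (k v r)))) (k (c 16 4099 r (u 24 1 (k v (k v r)))) r))))))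
 .z .z) (.s 0xfaa88a222a88a22172bfa8008 4080 (n false (n false (n true (z 156) e) (n false e e)) (n true (n false (n false (n false (n false (n false e e) (n false e e)) (n false (n false e e) (n false e e))) (n false e e)) (n false (n false (n false (n false e e) (n false e e)) (n false (n false e e) (n false e e))) (n false e e))) e)) (u 8 1 (k v (k (c 24 4099 r (u 16 1 (k v (k v r)))) (k (c 16 4098 r (u 24 1 (k v (k v r)))) (k (c 16 4097 r (u 24 1 (k v (k v r)))) (k (c 16 4099 r (u 24 1 (k v (k v r)))) (k (c 16 4095 r (u 24 0 (k v (k v r)))) r)))))))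
 .z .z)) (.s 0xfaa88a222a88a2217caef8008 4076 (n false (n false (n true (n true (z 52) e) e) (n false e e)) (n true (n false (n false (n false (n false (n false e e) (n false e e)) (n false (n false e e) (n false e e))) (n false e e)) (n false (n false (n false (n false e e) (n false e e)) (n false (n false e e) (n false e e))) (n false e e))) e)) (u 16 237 (k v (k v (k v (k v (k v (k v (k v r))))))))
 (.s 0xfaa88a222a88a22173bae0070 4092 (n false (n false (n true (z 37) e) (n true (n false e e) e)) (n true (n false (n false (n false (n false (n false e e) (n false e e)) (n false (n false e e) (n false e e))) (n false e e)) (n false (n false (n false (n false e e) (n false e e)) (n false (n false e e) (n false e e))) (n false e e))) e)) (u 8 44 (k v (k v (k v (k (c 6 4094 v (u 16 0 (k (t 32 3 (t 48 1 v)) r))) (k (u 16 0 (k v (k v (k (t 48 1 (u 32 0 (k (t 64 3 (t 96 1 v)) r))) r)))) r))))))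
 .z .z) .z)) (.s 0xfaa88a222a88a221ff3fbb000 4095 (n false (n true (n true (n true (n true (z 87) e) e) e) e) (n true (n false (n false (n false (n false (n false e e) (n false e e)) (n false (n false e e) (n false e e))) (n false e e)) (n false (n false (n false (n false e e) (n false e e)) (n false (n false e e) (n false e e))) (n false e e))) e)) (c 9 4099 v (u 32 1 (k v (k v r))))
 (.s 0xfaa88a222a88a221df2eee000 4096 (n false (n true (n false (n true (n true (z 42) e) e) e) e) (n true (n false (n false (n false (n false (n false e e) (n false e e)) (n false (n false e e) (n false e e))) (n false e e)) (n false (n false (n false (n false e e) (n false e e)) (n false (n false e e) (n false e e))) (n false e e))) e)) (c 9 4099 v (u 32 1 (k v (k v r))))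
 (.s 0xfaa88a222a88a221dcafea000 4097 (n false (n true (n false (n true (z 156) e) e) e) (n true (n false (n false (n false (n false (n false e e) (n false e e)) (n false (n false e e) (n false e e))) (n false e e)) (n false (n false (n false (n false e e) (n false e e)) (n false (n false e e) (n false e e))) (n false e e))) e)) (u 16 5 (k v (k v (k (c 48 4099 r (u 32 1 (k v (k v r)))) (k (c 32 4098 r (u 48 1 (k v (k v r)))) (k (c 32 4097 r r) (k (c 32 4099 r (u 48 1 (k v (k v r)))) r)))))))
 .z .z) (.s 0xfaa88a222a88a221f4aef8020 4092 (n false (n true (n true (n false (z 52) (n false e e)) e) e) (n true (n false (n false (n false (n false (n false e e) (n false e e)) (n false (n false e e) (n false e e))) (n false e e)) (n false (n false (n false (n false e e) (n false e e)) (n false (n false e e) (n false e e))) (n false e e))) e)) (u 16 41 (k v (k v (k (t 48 1 (u 32 0 (k v (k v r)))) r))))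
 .z .z)) (.s 0xfaaea88a2211444172bfa8008 4080 (n false (n false (n true (z 156) e) (n false e e)) (n true (n false (n false (n false (n false (n true (n false (n false (n false (n false e e) (n false e e)) (n false (n false e e) (n false e e))) (n false e e)) e) (n false e e)) (n false (n false e e) (n false e e))) (n false e e)) e) e)) (u 8 1 (k v (k (c 24 4099 r (u 16 1 (k v (k v r)))) (k (c 16 4098 r (u 24 1 (k v (k v r)))) (k (c 16 4097 r (u 24 1 (k v (k v r)))) (k (c 16 4099 r (u 24 1 (k v (k v r)))) (k (c 16 4095 r (u 24 0 (k v (k v r)))) r)))))))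
 (.s 0xfaa88a223b8414faac02a2288 4086 (n false (n false (z 67) (n false (n false (n false e e) (n false e e)) (n false (n false e e) (n false e e)))) (n true (n false (n true (n false (n true (n false e e) e) (n false e e)) e) (n false (n false (n false (n false e e) (n false e e)) (n false (n false e e) (n false e e))) (n false e e))) e)) (u 4 161 (k v (k v (k v (k v (k v (k (c 12 4099 r (u 8 1 (k v (k v r)))) (k (c 8 4099 r (u 12 1 (k v (k v r)))) (k (c 12 4099 r r) (k (c 12 4099 r r) (k (c 12 4099 r r) (k (c 12 4099 r r) r))))))))))))
 .z .z) .z))) (.s 0xfaea88a221c2a88a2213eab00 4091 (n false (n true (n false (n false (n true (n false (n false (n false (n false e e) (n false e e)) (n false (n false e e) (n false e e))) (n false e e)) e) (n true (n false e e) e)) (n false (n false (n false (n false e e) (n false e e)) (n false (n false e e) (n false e e))) (n false e e))) e) (z 67)) (u 3 17 (k v (k v (k v (k v (k (t 7 1 (u 5 1 (k v (k v r)))) (k (c 5 4101 r (u 7 0 (k v (k v r)))) (k r (k (c 2 4097 v r) (k (c 5 4099 r (u 7 0 (k v (k v r)))) (k (t 7 1 (u 5 2 (k v (k (c 13 4097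 r (u 9 0 (k v (k v r)))) r)))) (k (c 2 4096 v (t 7 2 (u 5 0 (k r r)))) (k (u 5 0 (k (u 7 2 (k v (k v r))) (k (t 7 1 v) r))) (k (t 7 1 (u 5 4 (k v (k v (k (c 13 4099 r (u 9 1 (k v (k v r)))) (k (c 9 4097 r r) r)))))) (k (c 2 4096 v (t 5 1 (u 7 0 (k r r)))) (k (u 7 15 (k r (k r (k (t 5 2 v) r)))) (k r (k r r))))))))))))))))))
 (.s 0xfaea88a2215114417caef8008 4076 (n false (n false (n true (n true (z 52) e) e) (n false e e)) (n true (n false (n false (n true (n false (n false (n false (n false e e) (n false e e)) (n false (n false e e) (n false e e))) (n false e e)) e) (n false (n false (n false e e) (n false e e)) (n false (n false e e) (n false e e)))) e) e)) (u 16 237 (k v (k v (k v (k v (k v (k v (k v r))))))))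
 (.s 0xfabaa2288845110be75fe0070 4089 (n false (n false (n true (n true (z 121) e) e) (n true (n false e e) e)) (n true (n false (n false (n false (n true (n false (n false (n false (n false e e) (n false e e)) (n false (n false e e) (n false e e))) (n false e e)) e) (n false e e)) (n false (n false e e) (n false e e))) (n false e e)) e)) (u 16 1 (k v (k (c 48 4099 r (u 32 1 (k v (k v r)))) (k (c 32 4097 r (u 48 1 (k v (k v r)))) (k (c 32 4095 r (u 48 0 (k v (k v r)))) (k (c 32 4095 r (u 48 0 (k v (k v r)))) r))))))
 (.s 0xfabaa2288845110be5fdc0070 4090 (n false (n false (n true (n true (z 46) e) e) (n true (n false e e) e)) (n true (n false (n false (n false (n true (n false (n false (n false (n false e e) (n false e e)) (n false (n false e e) (n false e e))) (n false e e)) e) (n false e e)) (n false (n false e e) (n false e e))) (n false e e)) e)) (u 16 19 (k v (k (c 48 4099 r (u 32 0 (k v (k v r)))) (k (u 32 1 (k v (k v r))) (k (c 48 4097 r (u 32 1 (k v (k v r)))) (k (c 32 4095 r (u 48 1 (k v (k v r)))) r))))))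
 .z .z) (.s 0xfaea88a22151144172bfa8008 4080 (n false (n false (n true (z 156) e) (n false e e)) (n true (n false (n false (n true (n false (n false (n false (n false e e) (n false e e)) (n false (n false e e) (n false e e))) (n false e e)) e) (n false (n false (n false e e) (n false e e)) (n false (n false e e) (n false e e)))) e) e)) (u 8 1 (k v (k (c 24 4099 r (u 16 1 (k v (k v r)))) (k (c 16 4098 r (u 24 1 (k v (k v r)))) (k (c 16 4097 r (u 24 1 (k v (k v r)))) (k (c 16 4099 r (u 24 1 (k v (k v r)))) (k (c 16 4095 r (u 24 0 (k v (k v r)))) r)))))))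
 .z .z)) (.s 0xfaea88a221c2a88a2213bbb00 4091 (n false (n true (n false (n false (n true (n false (n false (n false (n false e e) (n false e e)) (n false (n false e e) (n false e e))) (n false e e)) e) (n true (n false e e) e)) (n false (n false (n false (n false e e) (n false e e)) (n false (n false e e) (n false e e))) (n false e e))) e) (z 85)) (u 3 10 (k (c 7 4099 r r) (k (c 7 4099 r (c 2 4096 v r)) (k (c 7 4099 r (u 5 4 (k v (k v (k v (k r r)))))) (k (c 32 4099 v (c 12 4099 v (u 5 19 (k v (k v (k v r)))))) (k (t 5 1 (u 7 2 (k v (k v r)))) (k (c 7 4096 r (c 2 4096 v r)) (k (c 5 4099 r r) r))))))))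
 (.s 0xfaea88a221c2a88a2212aff00 4091 (n false (z 120) (n true (n false (n false (n true (n false (n false (n false (n false e e) (n false e e)) (n false (n false e e) (n false e e))) (n false e e)) e) (n true (n false e e) e)) (n false (n false (n false (n false e e) (n false e e)) (n false (n false e e) (n false e e))) (n false e e))) e)) (u 2 29 (k v (k v (k v (k r (k r (k r (k (c 4 4099 r (u 6 0 (k v (k v r)))) (k (c 3 4096 v (t 6 1 r)) (k (c 3 4096 v (t 6 1 (u 4 0 (k r r)))) (k (c 6 4099 r (u 4 1 (k v (k v r)))) (k (c 4 4098 r (u 6 1 (k v (k v r)))) (k (c 4 4101 r (u 6 0 (k v (k v r)))) (k r (k (c 6 4099 r (u 4 1 (k v (k v r)))) (k (c 4 4101 r (u 6 0 (k v (k v r)))) r))))))))))))))))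
 .z .z) .z)) (.s 0xfb9fdd802a88a22153bee0088 4093 (n false (n true (n false (n true (z 87) e) (n false (n false (n false (n false e e) (n false e e)) (n false (n false e e) (n false e e))) (n false e e))) e) (n false (n false (z 45) (n false e e)) (n false e e))) (u 9 0 (k (c 9 4094 v (u 16 1 (k v (k v r)))) (k (u 16 1 (k v (k v r))) r)))
 (.s 0xfaea88a221c38295fd400a888 4082 (n false (n false (z 156) (n false (n false (n false e e) (n false e e)) (n false e e))) (n true (n false (n false (n true (n false (n false (n false (n false e e) (n false e e)) (n false (n false e e) (n false e e))) (n false e e)) e) (n true (n false e e) e)) (n true (n false e e) e)) e)) (u 4 32 (k v (k v (k v (k (c 12 4099 r (u 8 1 (k v (k v r)))) (k (c 8 4099 r (u 12 1 (k v (k v r)))) r))))))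
 (.s 0xfaea88a221c2a88a2213fbf00 4091 (n false (n true (n false (n false (n true (n false (n false (n false (n false e e) (n false e e)) (n false (n false e e) (n false e e))) (n false e e)) e) (n true (n false e e) e)) (n false (n false (n false (n false e e) (n false e e)) (n false (n false e e) (n false e e))) (n false e e))) e) (z 119)) (u 3 8 (k v (k v (k v (k (c 7 4101 r r) (k (c 7 4099 r r) (k (c 7 4097 r r) (k (c 2 4096 v (t 7 2 (u 5 0 (k r r)))) (k (c 5 4098 r r) (k (t 7 1 r) (k (c 5 4101 r r) (k (c 5 4099 r r) (k (t 7 1 (c 20 4101 v r)) (k (c 5 4101 r r) r))))))))))))))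
 .z .z) (.s 0xfaea88a221d511444212aaf00 4091 (n false (z 96) (n true (n false (n false (n true (n false (n false (n false (n false e e) (n false e e)) (n false (n false e e) (n false e e))) (n false e e)) e) (n true (n false (n false (n false (n false e e) (n false e e)) (n false (n false e e) (n false e e))) (n false e e)) e)) (n false e e)) e)) (u 2 0 (k (c 6 4099 r (u 4 0 (k (t 12 2 (u 8 2 (k v (k (c 2 4084 (u 8 3 (k v (k v r))) v) r)))) r))) r))
 .z .z)) (.s 0xfbaa22888544510be5fdc0070 4090 (n false (n false (n true (n true (z 46) e) e) (n true (n false e e) e)) (n true (n false (n true (n false (n false (n false (n false e e) (n false e e)) (n false (n false e e) (n false e e))) (n false e e)) e) (n false (n false (n false e e) (n false e e)) (n false (n false e e) (n false e e)))) e)) (u 16 19 (k v (k (c 48 4099 r (u 32 0 (k v (k v r)))) (k (u 32 1 (k v (k v r))) (k (c 48 4097 r (u 32 1 (k v (k v r)))) (k (c 32 4095 r (u 48 1 (k v (k v r)))) r))))))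
 (.s 0xfb9fdd802a88a221f4efb8020 4092 (n false (n true (n false (n true (z 87) e) (n false (n false (n false (n false e e) (n false e e)) (n false (n false e e) (n false e e))) (n false e e))) e) (n true (n true (n false (z 45) (n false e e)) e) e)) (u 17 0 (k (u 16 1 (k v (k v r))) (k (u 16 1 (k v (k v r))) r)))
 .z .z) .z))))

set_option maxRecDepth 100000 in
def N233 : NT :=
(.s 0x74eea80275fe015d5114443870 4084 (n false (n false (z 121) (z 5)) (n false (n false (n true (n false (n false (n false (n false e e) (n false e e)) (n false (n false e e) (n false e e))) (n false e e)) e) (n true (n false e e) e)) (n true (n false e e) e))) (t 6 1 (u 4 1 (k v (k (c 12 4099 r (u 8 1 (k v (k v r)))) (k (c 8 4097 r (u 12 1 (k v (k v r)))) (k (c 8 4095 r (u 12 0 (k v (k v r)))) (k (c 8 4095 r (u 12 0 (k v (k v r)))) r)))))))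
 (.s 0xfeea88a22151144172bfa8008 4082 (n false (n false (n true (z 156) e) (n false e e)) (n true (n true (n false (n true (n false (n false (n false (n false e e) (n false e e)) (n false (n false e e) (n false e e))) (n false e e)) e) (n false (n false (n false e e) (n false e e)) (n false (n false e e) (n false e e)))) e) e)) (u 8 1 (k v (k (c 24 4099 r (u 16 1 (k v (k v r)))) (k (c 16 4098 r (u 24 1 (k v (k v r)))) (k (c 16 4097 r r) (k (c 16 4099 r (u 24 1 (k v (k v r)))) (k (c 16 4095 r (u 24 0 (k v (k v r)))) r)))))))
 (.s 0xfbea55f4012aaa001c13eee00 4087 (n false (n true (n false (n true (n true (n false (n false (z 24) (z 0)) e) e) e) (n true (n false e e) e)) e) (z 43)) (t 192 1 (u 128 0 (k (t 256 3 (t 384 1 (u 3 19 (k v (k v (k v (k v (k (u 5 1 (k v (k v r))) (k (u 5 0 (k (u 9 0 (k v (k v r))) r)) (k (u 5 9 (k v (k v (k v (k (c 13 4099 r (u 9 1 (k v (k v r)))) r))))) (k (u 5 2 (k v (k (c 13 4099 r (u 9 1 (k v (k v r)))) (k (c 9 4095 r (u 13 0 (k v (k v r)))) r)))) r))))))))))) r)))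
 (.s 0xfbbea88a2202a88a2213eab00 4093 (n false (n true (n false (n true (n false (n true (n true (n false (n false (n false (n false e e) (n false e e)) (n false (n false e e) (n false e e))) (n false e e)) e) e) e) e) (n false (n false (n false (n false e e) (n false e e)) (n false (n false e e) (n false e e))) (n false e e))) e) (z 67)) (u 3 135 (k v (k v (k v (k (t 7 1 (u 5 1 (k v (k v r)))) (k (u 5 2 (k (t 7 1 v) (k (u 7 3 (k v (k v (k v r)))) r))) (k r (k (c 2 4096 v r) (k (c 2 4096 v (t 7 2 (u 5 0 (k r r)))) (k (u 7 2 (k (t 5 1 v) (k (u 5 0 (k v (k v r))) r))) (k (t 7 1 (u 5 4 (k v (k v (k (c 13 4099 r (u 9 1 (k v (k v r)))) (k (c 9 4097 r r) r)))))) (k (c 2 4096 v (t 5 1 (u 7 0 (k r r)))) (k (t 5 2 (c 2 4096 v r)) (k r (k r (k r r))))))))))))))))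
 (.s 0xfbaa228885c214faac02a2288 4084 (n false (n false (z 67) (n false (n false (n false e e) (n false e e)) (n false (n false e e) (n false e e)))) (n true (n false (n false (n true (n false e e) e) (n false e e)) (n true (n false (n false (n false (n false e e) (n false e e)) (n false (n false e e) (n false e e))) (n false e e)) e)) e)) (u 4 121 (k v (k v (k v (k v (k v (k (c 12 4099 r (u 8 1 (k v (k v r)))) (k (c 12 4097 r (u 8 1 (k v (k v r)))) (k (c 12 4099 r r) (k (c 2 4087 r v) (k (c 12 4099 r (u 8 0 (k (u 16 0 (k v (k v r))) r))) (k (c 8 4099 r (u 12 1 (k v (k v r)))) (k (c 12 4099 r r) (k (c 8 4099 r (u 12 0 (k (u 20 0 (k v (k v r))) r))) (k (c 12 4099 r r) (k (c 12 4099 r r) (k (c 12 4099 r r) r)))))))))))))))))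
 .z .z) (.s 0xfbe9fdf004eea800875445110 4077 (n false (n true (n false (n true (n true (n false (z 55) (z 5)) e) e) (n false e e)) e) (n true (n false (n false (n false (n false e e) (n false e e)) (n false (n false e e) (n false e e))) (n false e e)) e)) (t 96 1 (u 64 4 (k (t 192 1 (u 128 9 (k v (k v (k v (k (u 256 4 (k v (k (t 768 1 (u 512 2 (k v (k v r)))) r))) (k (c 16 4085 (c 6 4099 v r) v) r))))))) (k (t 192 2 (c 96 4099 v r)) r))))
 .z .z)) (.s 0xfeaea88a221144417cbbb8008 4081 (n false (n false (n true (n true (z 42) e) e) (n false e e)) (n true (n true (n false (n false (n false (n true (n false (n false (n false (n false e e) (n false e e)) (n false (n false e e) (n false e e))) (n false e e)) e) (n false e e)) (n false (n false e e) (n false e e))) (n false e e)) e) e)) (c 3 4094 v (u 16 1 (k v (k v r))))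
 (.s 0xfeaea88a2211444172bfa8008 4082 (n false (n false (n true (z 156) e) (n false e e)) (n true (n true (n false (n false (n false (n true (n false (n false (n false (n false e e) (n false e e)) (n false (n false e e) (n false e e))) (n false e e)) e) (n false e e)) (n false (n false e e) (n false e e))) (n false e e)) e) e)) (u 8 1 (k v (k (c 24 4099 r (u 16 1 (k v (k v r)))) (k (c 16 4098 r (u 24 1 (k v (k v r)))) (k (c 16 4097 r r) (k (c 16 4099 r (u 24 1 (k v (k v r)))) (k (c 16 4095 r (u 24 0 (k v (k v r)))) r)))))))
 .z .z) .z)) (.s 0x74eea8025ddc014faac02a2288 4094 (n false (n false (z 67) (n false (n false (n false e e) (n false e e)) (n false (n false e e) (n false e e)))) (n false (z 42) (z 5))) (t 7 2 (u 5 77 (k r (k r (k (c 7 4094 v r) (k r (k (t 9 3 (t 13 1 r)) (k (t 13 3 (c 7 4094 v (u 4 118 (k (t 9 1 v) (k (t 9 1 v) (k (t 9 1 v) (k (c 12 4099 r r) (k (c 8 4099 r r) (k (c 12 4099 r r) (k (c 12 4099 r r) (k (c 12 4099 r r) (k (c 12 4099 r r) r)))))))))))) (k (t 13 3 r) (k (t 13 3 r) r))))))))))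
 (.s 0x74afea004aef803aea88a22110 4092 (n false (n false (z 156) (z 52)) (n true (n false (n false (n true (n false (n false (n false (n false e e) (n false e e)) (n false (n false e e) (n false e e))) (n false e e)) e) (n false e e)) (n false e e)) e)) (u 4 8 (k r (k (c 2 4064 r v) (k (c 12 4099 r (u 8 1 (k r (k r r)))) (k (c 8 4098 r (u 12 1 (k r (k r r)))) (k (c 8 4097 r (u 12 1 (k r (k r r)))) (k (c 8 4099 r (u 12 1 (k r (k r r)))) r)))))))
 (.s 0xfeea88a2215114417cbbb8008 4081 (n false (n false (n true (n true (z 42) e) e) (n false e e)) (n true (n true (n false (n true (n false (n false (n false (n false e e) (n false e e)) (n false (n false e e) (n false e e))) (n false e e)) e) (n false (n false (n false e e) (n false e e)) (n false (n false e e) (n false e e)))) e) e)) (c 3 4094 v (u 16 1 (k v (k v r))))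
 .z .z) (.s 0x74eea802577c0154abe8021708 4084 (n false (n false (z 5) (z 52)) (n false (n false (n false (z 24) (n false e e)) e) (n false (n true (n false e e) e) (n false e e)))) (c 4 4099 r (u 6 12 (k (u 17 0 (k (t 33 3 (t 49 1 v)) r)) (k (u 17 0 (k (t 33 3 (t 49 1 v)) r)) (k (c 9 4096 (c 2 4098 r v) v) (k (c 5 4101 (u 4 0 (k (t 8 3 (t 12 1 v)) r)) v) (k (u 17 0 (k (t 33 3 (t 49 1 v)) r)) (k (c 5 4101 (u 4 0 (k (t 8 3 (t 12 1 v)) r)) v) (k (t 14 1 r) r)))))))))
 .z .z)) (.s 0x74eea8025fdc01dd5114442e10 4086 (n false (n false (z 46) (z 5)) (n true (n false (n false (n true (n false e e) e) (n false e e)) (n true (n false (n false (n false (n false e e) (n false e e)) (n false (n false e e) (n false e e))) (n false e e)) e)) e)) (t 6 1 (u 4 1 (k v (k r (k (c 12 4099 r (u 8 0 (k v (k v r)))) (k (u 8 1 (k v (k v r))) (k (c 12 4097 r r) (k (c 8 4095 r r) r))))))))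
 (.s 0x74eea8025fdc01d5445111dc20 4084 (n false (n false (z 46) (z 5)) (n true (n false (n true (n false (n true (n false e e) e) (n false e e)) e) (n false (n false (n false (n false e e) (n false e e)) (n false (n false e e) (n false e e))) (n false e e))) e)) (t 6 1 (u 4 1 (k v (k (u 8 1 (k v (k v r))) (k (c 12 4099 r (u 8 0 (k v (k v r)))) (k (c 3 4092 v (c 10 4101 v r)) (k (c 12 4097 r (u 8 1 (k v (k v r)))) (k (c 8 4095 r (u 12 1 (k v (k v r)))) r))))))))
 .z .z) .z))) (.s 0x74feec02775c01d5445111dc20 4084 (n false (n false (z 87) (z 37)) (n true (n false (n true (n false (n true (n false e e) e) (n false e e)) e) (n false (n false (n false (n false e e) (n false e e)) (n false (n false e e) (n false e e))) (n false e e))) e)) (u 6 50 (k (u 4 1 (k v (k v r))) (k (t 4 1 v) (k (u 4 1 (k v (k v r))) (k (u 10 29 (k (c 13 4099 v (u 4 11 (k v (k v r)))) (k (c 13 4099 v (u 4 11 (k v (k v r)))) (k (c 4 4099 r v) (k (u 4 1 (k v (k v r))) r))))) (k (u 4 0 (k (u 10 9 (k v (k v r))) (k (c 10 4096 r v) r))) r))))))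
 (.s 0x74eeb802775401d5445111dc20 4084 (n false (n true (n false (n true (n false (n true (n false e e) e) (n false e e)) e) (n false (n false (n false (n false e e) (n false e e)) (n false (n false e e) (n false e e))) (n false e e))) e) (n false (z 37) (z 5))) (t 7 1 (u 5 23 (k v (k v (k (c 11 4101 v (u 9 0 (k (t 17 3 (t 25 1 v)) r))) (k (u 9 2 (k v (k v (k v (k (t 25 1 (u 17 0 (k (t 33 3 (t 49 1 v)) r))) r))))) (k (u 9 3 (k v (k v r))) r)))))))
 (.s 0x74eea80275fe01dd5114442e10 4086 (n false (n false (z 121) (z 5)) (n true (n false (n false (n true (n false e e) e) (n false e e)) (n true (n false (n false (n false (n false e e) (n false e e)) (n false (n false e e) (n false e e))) (n false e e)) e)) e)) (t 6 1 (u 4 1 (k v (k (c 12 4099 r (u 8 1 (k v (k v r)))) (k (c 8 4097 r r) (k (c 8 4095 r (u 12 0 (k v (k v r)))) (k (c 8 4095 r (u 12 0 (k v (k v r)))) r)))))))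
 (.s 0x74eea80275fe01d5445111dc20 4084 (n false (n false (z 121) (z 5)) (n true (n false (n true (n false (n true (n false e e) e) (n false e e)) e) (n false (n false (n false (n false e e) (n false e e)) (n false (n false e e) (n false e e))) (n false e e))) e)) (t 6 1 (u 4 1 (k v (k (c 12 4099 r (u 8 1 (k v (k v r)))) (k (c 8 4097 r (u 12 1 (k v (k v r)))) (k (c 8 4095 r (u 12 0 (k v (k v r)))) (k (c 8 4095 r (u 12 0 (k v (k v r)))) r)))))))
 .z .z) (.s 0x74eeb8027754015d5114443870 4084 (n false (n false (n false (n true (n false (n false (n false (n false e e) (n false e e)) (n false (n false e e) (n false e e))) (n false e e)) e) (n true (n false e e) e)) (n true (n false e e) e)) (n false (z 37) (z 5))) (t 7 1 (u 5 0 (k v (k (c 2 4092 v (c 11 4101 v (u 9 0 (k (t 17 3 (t 25 1 v)) r)))) (k (u 9 0 (k (t 17 3 (t 25 1 v)) r)) (k (c 8 4110 v (c 11 4101 v (c 12 4094 v r))) (k r (k r r))))))))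
 .z .z)) (.s 0x74fbfc027754015d5114443870 4084 (n false (n false (z 123) (z 5)) (n false (n false (n true (n false (n false (n false (n false e e) (n false e e)) (n false (n false e e) (n false e e))) (n false e e)) e) (n true (n false e e) e)) (n true (n false e e) e))) (t 6 2 (u 4 14 (k v (k (c 12 4099 r (u 8 75 (k v (k v (k v (k v (k (t 24 2 (c 3 4092 v r)) r))))))) (k (c 3 4092 v r) (k (c 6 4094 v r) (k (c 3 4092 v r) (k (c 8 4096 r (c 3 4092 v r)) (k (c 6 4094 v (u 8 4 (k v (k v r)))) (k (t 8 2 r) r))))))))))
 (.s 0x74eeb802775401dd5114442e10 4086 (n false (n false (z 37) (z 5)) (n true (n false (n false (n true (n false e e) e) (n false e e)) (n true (n false (n false (n false (n false e e) (n false e e)) (n false (n false e e) (n false e e))) (n false e e)) e)) e)) (t 6 1 (u 4 23 (k v (k v (k (c 10 4101 v (u 8 0 (k (t 16 3 (t 24 1 v)) r))) (k (u 8 2 (k v (k v (k v (k (t 24 1 (u 16 0 (k (t 32 3 (t 48 1 v)) r))) r))))) (k (u 8 3 (k v (k v r))) r)))))))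
 .z .z) .z)) (.s 0x754eeec02775401d5114442288 4094 (n false (n false (n false (n false (z 85) (z 5)) (n true (n false (n false (n false (n false e e) (n false e e)) (n false (n false e e) (n false e e))) (n false e e)) e)) (n false e e)) (n false (n false e e) (n false e e))) (c 24 4099 r (u 16 31 (k v (k v (k (c 48 4099 r (u 32 103 (k v (k v (k v (k v (k (t 96 1 (u 64 0 (k v (k v r)))) r))))))) (k (c 48 4099 r (c 8 4088 r v)) r))))))
 (.s 0x754eea80275fe01d5114442288 4089 (n false (n false (n false (n false (z 121) (z 5)) (n true (n false (n false (n false (n false e e) (n false e e)) (n false (n false e e) (n false e e))) (n false e e)) e)) (n false e e)) (n false (n false e e) (n false e e))) (t 24 1 (u 16 2 (k v (k v (k (c 48 4099 r (u 32 1 (k v (k v r)))) (k (c 32 4095 r (u 48 0 (k v (k v r)))) (k (c 32 4095 r (u 48 0 (k v (k v r)))) r)))))))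
 (.s 0x754eea8025fdc01d5114442288 4089 (n false (n false (n false (n false (z 46) (z 5)) (n true (n false (n false (n false (n false e e) (n false e e)) (n false (n false e e) (n false e e))) (n false e e)) e)) (n false e e)) (n false (n false e e) (n false e e))) (t 24 1 (u 16 2 (k v (k (c 48 4099 r (u 32 0 (k v (k v r)))) (k (u 32 1 (k v (k v r))) (k (u 32 0 (k v (k v r))) (k (c 48 4097 r (u 32 1 (k v (k v r)))) (k (c 32 4095 r (u 48 1 (k v (k v r)))) r))))))))
 .z .z) (.s 0x754eeb802775401d5114442288 4089 (n false (n false (n false (n false (z 37) (z 5)) (n true (n false (n false (n false (n false e e) (n false e e)) (n false (n false e e) (n false e e))) (n false e e)) e)) (n false e e)) (n false (n false e e) (n false e e))) (t 24 1 (u 16 0 (k v (k (c 40 4101 v (c 4 4090 (u 8 0 (k (t 16 3 (t 24 1 v)) r)) v)) (k (c 4 4095 r v) (k (u 32 2 (k v (k v (k v (k (t 96 1 (u 64 0 (k (t 128 3 (t 192 1 v)) r))) r))))) (k (u 32 0 (k v (k v (k (t 96 1 (u 64 0 (k (t 128 3 (t 192 1 v)) r))) r)))) (k (c 8 4091 (c 3 4099 v r) v) r))))))))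
 .z .z)) (.s 0x7551144453bae0055445111708 4086 (n false (n false (n false (z 37) e) (n false (n false (n false (n false e e) (n false e e)) (n false (n false e e) (n false e e))) (n false e e))) (n false (n false (n true (n false e e) e) (n false e e)) (n false (n false (n false (n false e e) (n false e e)) (n false (n false e e) (n false e e))) (n false e e)))) (c 7 4099 v (u 8 23 (k v (k v (k (c 6 4099 v (u 16 0 (k (t 32 3 (t 48 1 v)) r))) (k (u 16 2 (k v (k v (k v (k (t 48 1 (u 32 0 (k (t 64 3 (t 96 1 v)) r))) r))))) (k (c 2 4087 r v) r)))))))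
 (.s 0x755114444afea0077d51144410 4086 (n false (n false (z 156) (n false (n false (n false (n false e e) (n false e e)) (n false (n false e e) (n false e e))) (n false e e))) (n true (n false (n true (n true (n false (n false (n false (n false e e) (n false e e)) (n false (n false e e) (n false e e))) (n false e e)) e) e) (n false e e)) e)) (u 4 21 (k v (k v (k (c 12 4099 r (u 8 1 (k v (k v r)))) (k (c 8 4095 r (u 12 0 (k v (k v r)))) r)))))
 .z .z) .z))))

set_option maxRecDepth 100000 in
def N234 : NT :=
(.s 0x7555114444fbb803870a7d5c00 4086 (n false (n false (n false (n false (z 43) (n false (n false (n false (n false e e) (n false e e)) (n false (n false e e) (n false e e))) (n false e e))) (n true (n false e e) e)) (n true (n false e e) e)) (n false (z 35) e)) (c 24 4099 v (c 6 4094 v (u 5 9 (k r (k r (k (t 13 1 (u 9 0 (k (t 17 3 r) r))) r))))))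
 (.s 0x75544511154451112bfa801d10 4082 (n false (n false (z 156) (n false (n false (n false (n false (n false e e) (n false e e)) (n false (n false e e) (n false e e))) (n false e e)) (n false (n false (n false (n false e e) (n false e e)) (n false (n false e e) (n false e e))) (n false e e)))) (n true (n false (n false e e) (n false e e)) e)) (u 4 1 (k v (k (c 12 4099 r (u 8 1 (k v (k v r)))) (k (c 8 4098 r (u 12 1 (k v (k v r)))) (k (c 8 4097 r (u 12 1 (k v (k v r)))) (k (c 8 4099 r (u 12 1 (k v (k v r)))) (k (c 8 4095 r (u 12 0 (k v (k v r)))) r)))))))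
 (.s 0x75511444551144453eae00ee10 4085 (n false (n false (n true (n false (n true (n false e e) e) (n false e e)) e) (z 35)) (n false (n false (n false (n false (n false e e) (n false e e)) (n false (n false e e) (n false e e))) (n false e e)) (n false (n false (n false (n false e e) (n false e e)) (n false (n false e e) (n false e e))) (n false e e)))) (u 6 0 (k v (k v (k (t 14 1 (u 10 0 (k (t 18 3 (t 26 1 v)) r))) r))))
 (.s 0x75511444551144452bfa801708 4085 (n false (n false (z 156) (n false (n true (n false e e) e) (n false e e))) (n false (n false (n false (n false (n false e e) (n false e e)) (n false (n false e e) (n false e e))) (n false e e)) (n false (n false (n false (n false e e) (n false e e)) (n false (n false e e) (n false e e))) (n false e e)))) (u 4 8 (k v (k v (k (c 12 4099 r (u 8 1 (k v (k v r)))) (k (c 8 4098 r (u 12 1 (k v (k v r)))) (k (c 8 4097 r (u 12 1 (k v (k v r)))) (k (c 8 4099 r (u 12 1 (k v (k v r)))) r)))))))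
 (.s 0x75511444551144452bbe00ee10 4084 (n false (n false (z 52) (n true (n false (n true (n false e e) e) (n false e e)) e)) (n false (n false (n false (n false (n false e e) (n false e e)) (n false (n false e e) (n false e e))) (n false e e)) (n false (n false (n false (n false e e) (n false e e)) (n false (n false e e) (n false e e))) (n false e e)))) (u 4 170 (k v (k v (k v (k v (k v (k (t 12 1 (u 8 0 (k v (k v r)))) r)))))))
 .z .z) (.s 0x75511444551144453eae00ae10 4087 (n false (n false (z 35) (n false (n false (n true (n false e e) e) (n false e e)) e)) (n false (n false (n false (n false (n false e e) (n false e e)) (n false (n false e e) (n false e e))) (n false e e)) (n false (n false (n false (n false e e) (n false e e)) (n false (n false e e) (n false e e))) (n false e e)))) (u 4 0 (k v (k v (k (t 12 1 (u 8 0 (k (t 16 3 (t 24 1 v)) r))) r))))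
 .z .z)) (.s 0x75544511154451112bbe00ee10 4080 (n false (n false (z 52) (n false (n false (n false (n false (n false e e) (n false e e)) (n false (n false e e) (n false e e))) (n false e e)) (n false (n false (n false (n false e e) (n false e e)) (n false (n false e e) (n false e e))) (n false e e)))) (n true (n false (n true (n false e e) e) (n false e e)) e)) (u 4 123 (k v (k v (k v (k v (k v (k v (k (t 12 1 (u 8 0 (k v (k v r)))) (k (c 6 4101 v r) (k (c 6 4101 v r) r))))))))))
 (.s 0x7551144455114445f2bfa80070 4087 (n false (n false (n true (n true (z 156) e) e) (n true (n false e e) e)) (n false (n false (n false (n false (n false e e) (n false e e)) (n false (n false e e) (n false e e))) (n false e e)) (n false (n false (n false (n false e e) (n false e e)) (n false (n false e e) (n false e e))) (n false e e)))) (u 16 1 (k v (k (c 48 4099 r (u 32 1 (k v (k v r)))) (k (c 32 4098 r (u 48 1 (k v (k v r)))) (k (c 32 4097 r (u 48 1 (k v (k v r)))) (k (c 32 4099 r (u 48 1 (k v (k v r)))) (k (c 32 4095 r (u 48 0 (k v (k v r)))) r)))))))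
 .z .z) .z)) (.s 0x7554451115445111708e5ffc00 4081 (n false (n false (n false (n false (n false (n false (n false e e) (n false e e)) (n false (n false e e) (n false e e))) (n false e e)) (n false (n false (n false (n false e e) (n false e e)) (n false (n false e e) (n false e e))) (n false e e))) (n false (n true (n false e e) e) (n false e e))) (n true (z 62) e)) (u 5 1 (k v (k v (k v (k (t 13 1 (u 9 134 (k v (k (t 25 1 (u 17 0 (k v (k v r)))) (k (t 25 2 (u 17 0 (k (u 33 2 (k v (k (c 17 4084 (u 4 1 (k v (k v r))) v) r))) r))) r))))) r)))))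
 (.s 0x75544511154451115cbbb801c0 4080 (n false (n false (n false (n false (n true (z 42) e) (n true (n false e e) e)) e) (n false (n false (n false (n false (n false e e) (n false e e)) (n false (n false e e) (n false e e))) (n false e e)) (n false (n false (n false (n false e e) (n false e e)) (n false (n false e e) (n false e e))) (n false e e)))) e) (c 10 4099 v (u 32 1 (k v (k v r))))
 (.s 0x755445111544511152bfa801c0 4081 (n false (n false (n false (n false (z 156) (n true (n false e e) e)) e) (n false (n false (n false (n false (n false e e) (n false e e)) (n false (n false e e) (n false e e))) (n false e e)) (n false (n false (n false (n false e e) (n false e e)) (n false (n false e e) (n false e e))) (n false e e)))) e) (u 16 1 (k v (k (c 48 4099 r (u 32 1 (k v (k v r)))) (k (c 32 4098 r (u 48 1 (k v (k v r)))) (k (c 32 4097 r r) (k (c 32 4099 r (u 48 1 (k v (k v r)))) (k (c 32 4095 r (u 48 0 (k v (k v r)))) r)))))))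
 .z .z) (.s 0x7554451115445111708e577c00 4080 (n false (n false (n false (n false (n false (n false (n false e e) (n false e e)) (n false (n false e e) (n false e e))) (n false e e)) (n false (n false (n false (n false e e) (n false e e)) (n false (n false e e) (n false e e))) (n false e e))) (n false (n true (n false e e) e) (n false e e))) (n true (z 52) e)) (u 5 174 (k v (k v (k v (k v (k v (k v (k (t 13 1 (u 9 0 (k v (k v r)))) (k (c 4 4101 v r) (k (c 4 4101 v r) r))))))))))
 .z .z)) (.s 0x7554451115445111cebec01708 4076 (n false (n false (n true (z 89) e) (n false (n false (n false (n false (n false e e) (n false e e)) (n false (n false e e) (n false e e))) (n false e e)) (n false (n false (n false (n false e e) (n false e e)) (n false (n false e e) (n false e e))) (n false e e)))) (n false (n true (n false e e) e) (n false e e))) (u 8 24 (k v (k v (k v (k (t 24 2 (u 16 26 (k v (k v (k v r))))) r)))))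
 (.s 0x7554451115445111708e7f7c00 4081 (n false (n false (n false (n false (n false (n false (n false e e) (n false e e)) (n false (n false e e) (n false e e))) (n false e e)) (n false (n false (n false (n false e e) (n false e e)) (n false (n false e e) (n false e e))) (n false e e))) (n false (n true (n false e e) e) (n false e e))) (n true (z 55) e)) (u 5 4 (k (t 13 1 (u 9 38 (k v (k v (k (t 17 3 (t 25 1 v)) (k (u 17 2 (k v (k v r))) (k (c 4 4101 v r) (k (c 4 4101 v r) r)))))))) (k (c 4 4101 v (t 13 2 r)) r)))
 .z .z) .z))) (.s 0x755d51144422888ae10e5ffc00 4081 (n false (n false (n false (n false (n false (n true (n false (n false (n false (n false e e) (n false e e)) (n false (n false e e) (n false e e))) (n false e e)) e) (n false e e)) (n false (n false e e) (n false e e))) (n false e e)) (n false (n false (n true (n false e e) e) (n false e e)) e)) (n true (z 62) e)) (u 5 4 (k v (k v (k v (k (t 13 1 (u 9 41 (k v (k v (k (t 25 1 (u 17 0 (k v (k v r)))) r))))) r)))))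
 (.s 0x755d5114442288852bfa801708 4085 (n false (n false (z 156) (n false (n true (n false e e) e) (n false e e))) (n false (n false (n false (n false (n true (n false (n false (n false (n false e e) (n false e e)) (n false (n false e e) (n false e e))) (n false e e)) e) (n false e e)) (n false (n false e e) (n false e e))) (n false e e)) e)) (u 4 8 (k v (k v (k (c 12 4099 r (u 8 1 (k v (k v r)))) (k (c 8 4098 r (u 12 1 (k v (k v r)))) (k (c 8 4097 r (u 12 1 (k v (k v r)))) (k (c 8 4099 r (u 12 1 (k v (k v r)))) r)))))))
 (.s 0x755754451108a221cfef801708 4073 (n false (n false (n true (z 55) e) (n false (n false (n false (n false (n true (n false (n false (n false (n false e e) (n false e e)) (n false (n false e e) (n false e e))) (n false e e)) e) (n false e e)) (n false (n false e e) (n false e e))) (n false e e)) e)) (n false (n true (n false e e) e) (n false e e))) (c 10 4096 v (u 8 4 (k r (k r r))))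
 (.s 0x7555114444fbb803870ba88a20 4072 (n false (n false (n false (n false (z 43) (n false (n false (n false (n false e e) (n false e e)) (n false (n false e e) (n false e e))) (n false e e))) (n true (n false e e) e)) (n true (n false e e) e)) (n false (n true (n false (n false (n false e e) (n false e e)) (n false (n false e e) (n false e e))) e) e)) (c 40 4101 v (u 16 13 (k v (k v (k r (k (c 48 4099 r (u 32 0 (k (u 64 0 (k v (k v r))) r))) (k (c 2 4065 (c 12 4094 v (c 3 4094 v r)) v) (k (u 32 0 (k (u 64 0 (k v (k v r))) r)) (k r (k r r))))))))))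
 .z .z) (.s 0x755d5114442288852bbe00ee10 4084 (n false (n false (z 52) (n true (n false (n true (n false e e) e) (n false e e)) e)) (n false (n false (n false (n false (n true (n false (n false (n false (n false e e) (n false e e)) (n false (n false e e) (n false e e))) (n false e e)) e) (n false e e)) (n false (n false e e) (n false e e))) (n false e e)) e)) (u 4 216 (k v (k v (k v (k v (k (t 12 1 (u 8 0 (k v (k v r)))) r))))))
 .z .z)) (.s 0x755d511444228885f2bfa80070 4087 (n false (n false (n true (n true (z 156) e) e) (n true (n false e e) e)) (n false (n false (n false (n false (n true (n false (n false (n false (n false e e) (n false e e)) (n false (n false e e) (n false e e))) (n false e e)) e) (n false e e)) (n false (n false e e) (n false e e))) (n false e e)) e)) (u 16 1 (k v (k (c 48 4099 r (u 32 1 (k v (k v r)))) (k (c 32 4098 r (u 48 1 (k v (k v r)))) (k (c 32 4097 r (u 48 1 (k v (k v r)))) (k (c 32 4099 r (u 48 1 (k v (k v r)))) (k (c 32 4095 r (u 48 0 (k v (k v r)))) r)))))))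
 (.s 0x755d5114442288852fee00a888 4088 (n false (n false (z 46) (n false (n false (n false e e) (n false e e)) (n false e e))) (n false (n false (n false (n false (n true (n false (n false (n false (n false e e) (n false e e)) (n false (n false e e) (n false e e))) (n false e e)) e) (n false e e)) (n false (n false e e) (n false e e))) (n false e e)) e)) (u 4 2 (k v (k (c 12 4099 r (u 8 0 (k v (k v r)))) (k (u 8 1 (k v (k v r))) (k (u 8 0 (k v (k v r))) (k (c 12 4097 r (u 8 1 (k v (k v r)))) (k (c 8 4095 r (u 12 1 (k v (k v r)))) r)))))))
 .z .z) .z)) (.s 0x757544511088e7d5600e577c00 4089 (n false (n false (n true (z 67) e) (n false (n false (n true (n false (n false (n false (n false e e) (n false e e)) (n false (n false e e) (n false e e))) (n false e e)) e) (n false e e)) (n false e e))) (n true (z 52) e)) (u 5 344 (k (u 8 0 (k v (k v r))) (k (u 8 0 (k v (k v r))) (k (c 4 4102 (t 2 2 v) v) (k (c 4 4102 (t 2 2 v) v) (k (c 34 4099 v (u 8 0 (k v (k v r)))) (k (c 8 4103 r v) (k (t 13 1 (u 8 0 (k (u 9 0 (k v (k v r))) (k (u 9 0 (k v (k v r))) r)))) r))))))))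
 (.s 0x755d51144422888ee10e5ffc00 4081 (n false (n false (n true (n false (n true (n false e e) e) (n false e e)) e) (n false (n false (n false (n true (n false (n false (n false (n false e e) (n false e e)) (n false (n false e e) (n false e e))) (n false e e)) e) (n false e e)) (n false (n false e e) (n false e e))) (n false e e))) (n true (z 62) e)) (u 5 4 (k v (k v (k v (k (t 13 1 (u 9 41 (k v (k v (k (t 25 1 (u 17 3 (k v (k v r)))) r))))) r)))))
 (.s 0x755d51144422888ee10e577c00 4081 (n false (n false (n true (n false (n true (n false e e) e) (n false e e)) e) (n false (n false (n false (n true (n false (n false (n false (n false e e) (n false e e)) (n false (n false e e) (n false e e))) (n false e e)) e) (n false e e)) (n false (n false e e) (n false e e))) (n false e e))) (n true (z 52) e)) (u 5 14 (k v (k v (k v (k v (k v (k v (k (t 13 1 (u 9 0 (k v (k v r)))) r))))))))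
 .z .z) (.s 0x7572bbe004754451108aa22888 4086 (n false (n false (n false (n false (n true (z 52) e) (n false e e)) (n true (n false (n false (n false (n false e e) (n false e e)) (n false (n false e e) (n false e e))) (n false e e)) e)) (n false e e)) (n false (n false (n false (n false e e) (n false e e)) (n false (n false e e) (n false e e))) (n false e e))) (u 32 125 (k v (k v (k v (k v (k v (k v (k v (k v r)))))))))
 .z .z)) (.s 0x75754451109f5580470aa22888 4089 (n false (n false (n false (n false (z 67) (n true (n false (n false (n false (n false e e) (n false e e)) (n false (n false e e) (n false e e))) (n false e e)) e)) (n false e e)) (n true (n false e e) e)) (n false (n false (n false (n false e e) (n false e e)) (n false (n false e e) (n false e e))) (n false e e))) (u 16 154 (k v (k v (k (t 48 2 (c 24 4110 v (c 3 4099 v (c 6 4094 v r)))) (k (c 32 4096 r r) (k (c 32 4096 r r) (k (c 32 4101 r r) (k (t 48 2 (c 24 4110 v (c 3 4099 v (c 6 4094 v r)))) (k (c 4 4088 r v) (k (c 32 4099 r r) (k (c 48 4099 r (c 6 4094 v (u 32 1 (k v (k (c 96 4097 r (u 64 0 (k v (k v r)))) r)))))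 (k r (k (c 48 4101 r r) (k (t 48 2 (c 24 4110 v (c 3 4099 v (c 6 4094 v r)))) (k (c 48 4102 r r) (k (c 48 4100 r (c 4 4084 (c 10 4099 v r) v)) (k (c 32 4101 r r) (k (t 48 2 (c 24 4110 v (c 3 4099 v (c 6 4094 v r)))) (k (c 32 4101 r r) r)))))))))))))))))))
 (.s 0x757544511088e7f7600e577c00 4085 (n false (n false (n true (z 87) e) (n false (n false (n true (n false (n false (n false (n false e e) (n false e e)) (n false (n false e e) (n false e e))) (n false e e)) e) (n false e e)) (n false e e))) (n true (z 52) e)) (u 5 297 (k (u 8 1 (k v (k v r))) (k (c 34 4099 v (u 8 1 (k v (k v r)))) (k (u 8 1 (k v (k v r))) (k (c 4 4098 (u 2 0 (k v (k v r))) v) (k (c 4 4098 (u 2 0 (k v (k v r))) v) (k (c 8 4099 r v) (k (t 13 1 r) r))))))))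
 .z .z) .z))))

end Pool.Agent.Helper91.ND1
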