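import Pool.Agent.Helper66.ND.Defs

/-! part of the certificate for the constant 25/48 (generated) -/

namespace Pool.Agent.Helper91.ND1

open Pool.Agent.Helper66.IL
open Pool.Agent.Helper66.ND
open Pool.Agent.Helper66.ND.LT
open Pool.Agent.Helper66.ND.Ct

set_option maxRecDepth 100000 in
def N235 : NT :=
(.s 0x75d5114443855114445cbfa800 4084 (n false (n false (n false (n true (n false (n false (n false (n false e e) (n false e e)) (n false (n false e e) (n false e e))) (n false e e)) e) (n true (n false e e) e)) (n false (n false (n false (n false e e) (n false e e)) (n false (n false e e) (n false e e))) (n false e e))) (n false (n true (z 14) e) e)) (c 8 4110 v (c 12 4094 v r))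
 (.s 0x75cfeec015445110ae7f760070 4083 (n false (n false (n false (n true (z 87) e) e) (n true (n false e e) e)) (n false (n false (n true (z 87) e) (n false (n false (n false (n false e e) (n false e e)) (n false (n false e e) (n false e e))) (n false e e))) e)) (u 17 1 (k (u 16 1 (k v (k v r))) (k (u 16 1 (k v (k v r))) r)))
 (.s 0x7575445110ea88a2210e7f7e00 4096 (n false (n true (z 119) e) (n false (n false (n false (n true (n false (n false (n false (n false e e) (n false e e)) (n false (n false e e) (n false e e))) (n false e e)) e) (n true (n false (n false (n false (n false e e) (n false e e)) (n false (n false e e) (n false e e))) (n false e e)) e)) (n false e e)) e)) (u 4 65 (k v (k v (k v (k (t 12 1 (u 8 411 (k v (k v (k v r))))) (k (c 8 4097 r r) (k (c 12 4097 r r) (k (c 12 4097 r r) (k (c 12 4097 r r) r)))))))))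
 (.s 0x7575445110e15445111cabfc00 4086 (n false (n false (n true (z 120) e) (n false (n false (n true (n false (n false (n false (n false e e) (n false e e)) (n false (n false e e) (n false e e))) (n false e e)) e) (n true (n false e e) e)) (n false (n false (n false (n false e e) (n false e e)) (n false (n false e e) (n false e e))) (n false e e)))) e) (u 8 39 (k v (k v (k (c 24 4096 r (c 14 4099 v (c 26 4094 v (u 16 7 (k v (k v (k v (k (c 48 4099 r (u 32 1 (k v (k v r)))) r)))))))) (k (c 24 4100 r (c 14 4099 v (c 26 4094 v (u 16 0 (k (u 32 0 (k v (k v r))) r))))) (k (c 24 4099 r r) (k (c 16 4098 r (c 14 4099 v (c 26 4094 v (u 24 1 (k v (k v r)))))) (k (c 16 4101 r r) (k (c 24 4099 r r) (k (c 16 4101 r r) r))))))))))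
 (.s 0x7575445110e154451114befc00 4087 (n false (n false (n false (z 118) e) (n false (n false (n true (n false (n false (n false (n false e e) (n false e e)) (n false (n false e e) (n false e e))) (n false e e)) e) (n true (n false e e) e)) (n false (n false (n false (n false e e) (n false e e)) (n false (n false e e) (n false e e))) (n false e e)))) e) (u 8 2 (k v (k (t 24 1 (u 16 6 (k v (k v (k v r))))) (k (t 24 1 (c 14 4099 v r)) r))))
 .z .z) (.s 0x7575445110ea88a2210a7f7e00 4094 (n false (n false (z 119) e) (n false (n false (n false (n true (n false (n false (n false (n false e e) (n false e e)) (n false (n false e e) (n false e e))) (n false e e)) e) (n true (n false (n false (n false (n false e e) (n false e e)) (n false (n false e e) (n false e e))) (n false e e)) e)) (n false e e)) e)) (u 4 66 (k v (k v (k v (k (c 8 4097 r (u 12 6 (k v (k v (k v r))))) (k (c 8 4097 r r) (k (c 8 4097 r (c 17 4110 v (u 12 1 (k v (k (c 28 4097 r (u 20 0 (k v (k v r)))) r))))) (k (c 12 4097 r r) (k (c 12 4097 r r) (k (c 12 4097 r r) (k (c 12 4097 r r) r)))))))))))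
 .z .z)) (.s 0x75cfeec013fbb0057544511070 4083 (n false (n false (n false (n true (z 87) e) (z 87)) e) (n false (n false (n true (n false (n false (n false (n false e e) (n false e e)) (n false (n false e e) (n false e e))) (n false e e)) e) e) (n true (n false e e) e))) (u 16 6 (k (u 12 1 (k v (k v r))) (k (c 9 4110 v r) (k (u 12 1 (k v (k v r))) r))))
 (.s 0x75cafea002a88a223852afa008 4091 (n false (n false (n false (n true (z 156) e) (n false (n false (n false (n false e e) (n false e e)) (n false (n false e e) (n false e e))) (n false e e))) (n true (n false e e) e)) (n false (z 24) (n false e e))) (u 16 20 (k r (k (u 5 0 (k (t 9 3 (t 13 1 v)) r)) (k (c 2 4062 v (u 5 0 (k (t 9 3 (t 13 1 v)) r))) (k (c 32 4099 r r) (k (c 32 4099 r r) r))))))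
 .z .z) .z)) (.s 0x75d5114442a228895fd400ee10 4085 (n false (n false (z 156) (n false (n true (n false (n false (n false (n false e e) (n false e e)) (n false (n false e e) (n false e e))) (n false e e)) e) (n false (n false (n false e e) (n false e e)) (n false (n false e e) (n false e e))))) (n true (n false (n true (n false e e) e) (n false e e)) e)) (u 4 3 (k v (k v (k (c 12 4099 r (u 8 1 (k v (k v r)))) r))))
 (.s 0x75d5114442a228852bfa801708 4086 (n false (n false (z 156) (n false (n true (n false e e) e) (n false e e))) (n false (n false (n true (n false (n false (n false (n false e e) (n false e e)) (n false (n false e e) (n false e e))) (n false e e)) e) (n false (n false (n false e e) (n false e e)) (n false (n false e e) (n false e e)))) e)) (u 4 8 (k v (k v (k (c 12 4099 r (u 8 1 (k v (k v r)))) (k (c 8 4098 r (u 12 1 (k v (k v r)))) (k (c 8 4097 r (u 12 1 (k v (k v r)))) (k (c 8 4099 r (u 12 1 (k v (k v r)))) r)))))))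
 (.s 0x75d5114442577c01c2a775c008 4083 (n false (n false (n false (z 37) e) (n false e e)) (n false (n false (z 52) (n true (n false (n false (n false (n false e e) (n false e e)) (n false (n false e e) (n false e e))) (n false e e)) e)) (n true (n false e e) e))) (u 8 2 (k (u 9 360 (k v (k v (k v (k v (k v (k v r))))))) (k (u 9 361 (k v (k v (k v r)))) r)))
 .z .z) (.s 0x75d5114442a22885f2bfa80070 4087 (n false (n false (n true (n true (z 156) e) e) (n true (n false e e) e)) (n false (n false (n true (n false (n false (n false (n false e e) (n false e e)) (n false (n false e e) (n false e e))) (n false e e)) e) (n false (n false (n false e e) (n false e e)) (n false (n false e e) (n false e e)))) e)) (u 16 1 (k v (k (c 48 4099 r (u 32 1 (k v (k v r)))) (k (c 32 4098 r (u 48 1 (k v (k v r)))) (k (c 32 4097 r (u 48 1 (k v (k v r)))) (k (c 32 4099 r (u 48 1 (k v (k v r)))) (k (c 32 4095 r (u 48 0 (k v (k v r)))) r)))))))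
 .z .z)) (.s 0x75d5114442a2288ea5ffe00850 4072 (n false (n false (n true (n false (n false (z 126) e) (n false e e)) e) (n false (n true (n false (n false (n false (n false e e) (n false e e)) (n false (n false e e) (n false e e))) (n false e e)) e) (n false (n false (n false e e) (n false e e)) (n false (n false e e) (n false e e))))) (n false (n false e e) e)) (c 14 4101 v (u 32 0 (k r (k (t 96 1 (c 18 4099 v r)) (k r (k r r))))))
 (.s 0x75d5114442a2288e577c00ee10 4081 (n false (n false (n true (z 52) e) (n false (n true (n false (n false (n false (n false e e) (n false e e)) (n false (n false e e) (n false e e))) (n false e e)) e) (n false (n false (n false e e) (n false e e)) (n false (n false e e) (n false e e))))) (n true (n false (n true (n false e e) e) (n false e e)) e)) (u 8 363 (k v (k v (k v (k v (k v (k v (k (t 24 1 (u 16 0 (k v (k v r)))) r))))))))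
 .z .z) .z))) (.s 0x772bbe00551144477d51144410 4081 (n false (n false (n true (z 52) e) (n false (n false (n false (n false e e) (n false e e)) (n false (n false e e) (n false e e))) (n false e e))) (n true (n false (n true (n true (n false (n false (n false (n false e e) (n false e e)) (n false (n false e e) (n false e e))) (n false e e)) e) e) (n false e e)) e)) (u 8 388 (k v (k v (k v (k v (k v (k v (k (t 24 1 (u 16 0 (k v (k v r)))) r))))))))
 (.s 0x75d5114443aa2288847cfefc00 4097 (n false (n true (n true (z 119) e) e) (n false (n false (n true (n false (n false (n false (n false e e) (n false e e)) (n false (n false e e) (n false e e))) (n false e e)) e) (n true (n false (n false (n false (n false e e) (n false e e)) (n false (n false e e) (n false e e))) (n false e e)) e)) (n false e e))) (u 8 26 (k v (k (t 24 1 (u 16 395 (k v (k v (k v r))))) (k (c 24 4097 r r) (k (c 24 4097 r r) r)))))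
 (.s 0x75d51144438551144472bfa800 4091 (n false (n false (n false (n true (n false (n false (n false (n false e e) (n false e e)) (n false (n false e e) (n false e e))) (n false e e)) e) (n true (n false e e) e)) (n false (n false (n false (n false e e) (n false e e)) (n false (n false e e) (n false e e))) (n false e e))) (n true (z 156) e)) (u 5 1 (k v (k (c 13 4099 r (u 9 1 (k v (k v r)))) (k (c 9 4098 r (u 13 1 (k v (k v r)))) (k (c 9 4097 r (u 13 1 (k v (k v r)))) (k (c 9 4099 r (u 13 1 (k v (k v r)))) (k (c 9 4095 r (u 13 0 (k v (k v r)))) r)))))))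
 (.s 0x75d5114443855114445cfeec00 4085 (n false (n false (n true (z 87) e) e) (n false (n false (n true (n false (n false (n false (n false e e) (n false e e)) (n false (n false e e) (n false e e))) (n false e e)) e) (n true (n false e e) e)) (n false (n false (n false (n false e e) (n false e e)) (n false (n false e e) (n false e e))) (n false e e)))) (c 9 4110 v (c 13 4094 v r))
 .z .z) (.s 0x75d5114443855114447caef800 4086 (n false (n true (n true (z 52) e) e) (n false (n false (n true (n false (n false (n false (n false e e) (n false e e)) (n false (n false e e) (n false e e))) (n false e e)) e) (n true (n false e e) e)) (n false (n false (n false (n false e e) (n false e e)) (n false (n false e e) (n false e e))) (n false e e)))) (u 8 262 (k v (k v (k v (k v (k v (k v (k (t 24 1 (u 16 0 (k v (k v r)))) r))))))))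
 .z .z)) (.s 0x75f3fbb002a88a223852afa008 4088 (n false (n false (n false (n true (n true (z 87) e) e) (n false (n false (n false (n false e e) (n false e e)) (n false (n false e e) (n false e e))) (n false e e))) (n true (n false e e) e)) (n false (z 24) (n false e e))) (u 5 0 (k (t 9 3 (t 13 1 (u 32 1 (k v (k v r))))) r))
 (.s 0x75f3eab002a88a223852afa008 4092 (n false (n false (n false (n true (n true (z 67) e) e) (n false (n false (n false (n false e e) (n false e e)) (n false (n false e e) (n false e e))) (n false e e))) (n true (n false e e) e)) (n false (z 24) (n false e e))) (u 32 0 (k (u 5 0 (k (t 9 3 (t 13 1 v)) r)) (k (c 8 4092 v (u 5 0 (k (t 9 3 (t 13 1 v)) r))) r)))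
 .z .z) .z)) (.s 0x772eee00551144475cfef801c0 4087 (n false (n true (n false (n false (n true (z 55) e) (n true (n false e e) e)) e) e) (n false (n true (z 42) e) (n false (n false (n false (n false e e) (n false e e)) (n false (n false e e) (n false e e))) (n false e e)))) (c 2 4095 r (c 11 4101 v r))
 (.s 0x772eee004feec03fbea88a2200 4089 (n false (n false (z 87) (n true (z 42) e)) (n true (n true (n true (n false (n true (n true (n false (n false (n false (n false e e) (n false e e)) (n false (n false e e) (n false e e))) (n false e e)) e) e) e) e) e) e)) (u 10 1 (k (u 4 1 (k v (k v r))) (k (u 4 1 (k v (k v r))) r)))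
 (.s 0x772bbe00551144477f54451100 4087 (n false (n false (n true (z 52) e) (n false (n false (n false (n false e e) (n false e e)) (n false (n false e e) (n false e e))) (n false e e))) (n true (n false (n true (n true (n true (n false (n false (n false (n false e e) (n false e e)) (n false (n false e e) (n false e e))) (n false e e)) e) e) e) e) e)) (u 8 177 (k v (k v (k v (k v (k v (k v (k v r))))))))
 .z .z) (.s 0x772eee00551144475511444740 4087 (n false (n true (n false (n true (n false (n false e e) e) e) (n false (n false (n false (n false e e) (n false e e)) (n false (n false e e) (n false e e))) (n false e e))) e) (n false (n true (z 42) e) (n false (n false (n false (n false e e) (n false e e)) (n false (n false e e) (n false e e))) (n false e e)))) (c 2 4094 v (c 11 4101 v r))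
 .z .z)) (.s 0x772fee00544511dd5114442e10 4081 (n false (n false (n true (z 46) e) (n false (n false (n false e e) (n false e e)) (n false (n false e e) (n false e e)))) (n true (n false (n false (n true (n false e e) e) (n false e e)) (n true (n false (n false (n false (n false e e) (n false e e)) (n false (n false e e) (n false e e))) (n false e e)) e)) e)) (u 8 1 (k v (k (u 16 1 (k v (k v r))) (k (c 24 4099 r (u 16 0 (k v (k v r)))) (k (u 16 1 (k v (k v r))) (k (c 24 4097 r (u 16 1 (k v (k v r)))) (k (c 16 4095 r (u 24 1 (k v (k v r)))) r)))))))
 (.s 0x772eee005511444775445110a0 4089 (n false (n false (n true (z 42) e) (n false (n false (n false (n false e e) (n false e e)) (n false (n false e e) (n false e e))) (n false e e))) (n true (n false (n true (n false (n false (n false (n false e e) (n false e e)) (n false (n false e e) (n false e e))) (n false e e)) e) (n false (n false e e) e)) e)) (c 3 4094 v (c 10 4101 v r))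
 .z .z) .z))))

set_option maxRecDepth 100000 in
def N236 : NT :=
(.s 0x77d54451115445110709555400 4088 (n false (z 128) (n false (n true (n true (n false (n false (n false (n false (n false e e) (n false e e)) (n false (n false e e) (n false e e))) (n false e e)) (n false (n false (n false (n false e e) (n false e e)) (n false (n false e e) (n false e e))) (n false e e))) e) e) (n true (n false e e) e))) (u 2 21 (k v (k v (k v (k (c 6 4097 r r) (k (c 4 4095 r r) (k (c 6 4097 r r) (k (c 4 4095 r r) (k (c 4 4095 r (u 6 0 (k v (k v r)))) (k (c 6 4095 r (u 4 43 (k v (k v (k v r))))) (k (c 6 4095 r (u 4 1 (k v (k v r)))) (k (c 4 4097 r (u 6 0 (k v (k v r)))) (k (c 4 4095 r r) (k (c 4 4095 r (u 6 1 (k v (k v r)))) (k (c 6 4097 r (u 4 23 (k v (k v (k v (k (c 12 4097 r r) (k (c 12 4095 r r) (k (c 8 4095 r r) r)))))))) r)))))))))))))))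
 (.s 0x775754451108a2212bbe00ee10 4083 (n false (n false (n true (n false (n false (n false (n true (n false (n false (n false (n false e e) (n false e e)) (n false (n false e e) (n false e e))) (n false e e)) e) (n false e e)) (n false (n false e e) (n false e e))) (n false e e)) e) (z 52)) (n true (n false (n true (n false e e) e) (n false e e)) e)) (u 6 221 (k v (k v (k v (k v (k (t 14 1 (u 10 0 (k v (k v r)))) r))))))
 (.s 0x773fbb00551144475cfef801c0 4085 (n false (n false (n true (z 87) e) (n false (n false (n false (n false e e) (n false e e)) (n false (n false e e) (n false e e))) (n false e e))) (n true (n false (n false (n true (z 55) e) (n true (n false e e) e)) e) e)) (u 33 9 (k r (k (u 8 1 (k v (k v r))) r)))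
 (.s 0x773fbb004feec03fbea88a2200 4087 (n false (n false (n true (z 87) e) (z 87)) (n true (n true (n true (n false (n true (n true (n false (n false (n false (n false e e) (n false e e)) (n false (n false e e) (n false e e))) (n false e e)) e) e) e) e) e) e)) (u 8 1 (k (u 6 1 (k v (k v r))) (k (u 6 1 (k v (k v r))) r)))
 (.s 0x773aff00544511dd5114442e10 4081 (n false (n false (n true (z 121) e) (n false (n false (n false e e) (n false e e)) (n false (n false e e) (n false e e)))) (n true (n false (n false (n true (n false e e) e) (n false e e)) (n true (n false (n false (n false (n false e e) (n false e e)) (n false (n false e e) (n false e e))) (n false e e)) e)) e)) (u 8 1 (k v (k (c 24 4099 r (u 16 1 (k v (k v r)))) (k (c 16 4097 r (u 24 1 (k v (k v r)))) (k (c 16 4095 r (u 24 0 (k v (k v r)))) (k (c 16 4095 r (u 24 0 (k v (k v r)))) r))))))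
 .z .z) (.s 0x773fbb00551144475caef801c0 4086 (n false (n true (n false (n false (n true (z 52) e) (n true (n false e e) e)) e) e) (n false (n true (z 87) e) (n false (n false (n false (n false e e) (n false e e)) (n false (n false e e) (n false e e))) (n false e e)))) (c 24 4094 v (u 32 263 (k (u 9 1 (k v (k v r))) (k (u 9 1 (k v (k v r))) (k (u 9 1 (k v (k v r))) (k (c 5 4098 (u 2 0 (k v (k v r))) v) (k (t 96 1 (u 64 2 (k (u 9 1 (k v (k v r))) (k (u 9 1 (k v (k v r))) r)))) r)))))))
 .z .z)) (.s 0x7755114444bbb80117cbbb8008 4085 (n false (n false (n true (n false (z 42) (n false (n false (n false (n false e e) (n false e e)) (n false (n false e e) (n false e e))) (n false e e))) e) (n false e e)) (n false (n true (n true (z 42) e) e) (n false e e))) (u 16 83 (k (c 2 4093 v (u 17 1 (k v (k v r)))) (k (c 24 4099 v (u 17 1 (k v (k v r)))) (k (t 32 3 (t 48 1 (u 17 1 (k v (k v r))))) (k (c 3 4096 r (u 32 1 (k v (k v r)))) (k (t 48 3 (c 24 4099 v (u 32 0 (k (u 17 1 (k v (k v r))) (k (c 80 4099 v (u 17 1 (k v (k v r)))) r))))) (k (c 3 4096 r r) (k (c 3 4096 r r) r))))))))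
 (.s 0x774feac027754008bea88a2208 4075 (n false (n false (n true (n false (z 71) (z 5)) e) (n false e e)) (n false (n true (n true (n false (n false (n false (n false e e) (n false e e)) (n false (n false e e) (n false e e))) (n false e e)) e) e) (n false e e))) (t 24 2 (u 16 6 (k (c 48 4099 r r) (k r (k (u 32 1 (k v (k (t 64 1 (c 4 4075 r v)) (k (t 96 1 (c 4 4069 r v)) (k (t 96 1 (c 4 4069 r v)) r))))) (k (c 32 4099 r r) (k (c 32 4099 r r) (k (c 32 4099 r r) r))))))))
 .z .z) .z)) (.s 0x7775445110a88a21cbfa801708 4077 (n false (n false (n true (n false (n true (n false (n false (n false (n false e e) (n false e e)) (n false (n false e e) (n false e e))) (n false e e)) e) (n false (n false (n false e e) (n false e e)) (n false (n false e e) (n false e e)))) e) (n true (z 14) e)) (n false (n true (n false e e) e) (n false e e))) (c 8 4096 v (u 10 0 (k v (k v r))))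
 (.s 0x775754451108a221cfef801708 4075 (n false (n false (n true (z 55) e) (n true (n false (n false (n false (n true (n false (n false (n false (n false e e) (n false e e)) (n false (n false e e) (n false e e))) (n false e e)) e) (n false e e)) (n false (n false e e) (n false e e))) (n false e e)) e)) (n false (n true (n false e e) e) (n false e e))) (c 10 4096 v (u 8 4 (k r (k r r))))
 (.s 0x775754451108a221cbfa801708 4077 (n false (n false (n true (n false (n false (n false (n true (n false (n false (n false (n false e e) (n false e e)) (n false (n false e e) (n false e e))) (n false e e)) e) (n false e e)) (n false (n false e e) (n false e e))) (n false e e)) e) (n true (z 14) e)) (n false (n true (n false e e) e) (n false e e))) (c 8 4096 v (u 10 0 (k v (k v r))))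
 .z .z) (.s 0x7772bbe0070551144475445110 4087 (n false (n false (n true (n false (n true (z 52) e) (n true (n false e e) e)) e) (n false (n false (n false (n false e e) (n false e e)) (n false (n false e e) (n false e e))) (n false e e))) (n true (n false (n false (n false (n false e e) (n false e e)) (n false (n false e e) (n false e e))) (n false e e)) e)) (c 3 4110 v (c 10 4101 v r))
 .z .z)) (.s 0x7775445110e0aa22888e7d5600 4085 (n false (n false (n true (n false (n true (n false (n false (n false (n false e e) (n false e e)) (n false (n false e e) (n false e e))) (n false e e)) e) (n true (n false e e) e)) e) (n false (n false (n false (n false e e) (n false e e)) (n false (n false e e) (n false e e))) (n false e e))) (n true (z 67) e)) (u 5 28 (k v (k v (k (t 13 1 (u 9 1 (k v (k v r)))) (k (u 13 2 (k (t 9 1 v) (k (u 9 0 (k v (k v r))) r))) (k (t 13 1 (u 9 29 (k v (k v (k v (k (c 25 4099 r (u 17 1 (k v (k v r)))) r)))))) (k r (k r (k r r)))))))))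
 (.s 0x7775445110a88a21cfef801708 4075 (n false (n false (n true (z 55) e) (n true (n false (n true (n false (n false (n false (n false e e) (n false e e)) (n false (n false e e) (n false e e))) (n false e e)) e) (n false (n false (n false e e) (n false e e)) (n false (n false e e) (n false e e)))) e)) (n false (n true (n false e e) e) (n false e e))) (c 10 4096 v (u 8 4 (k r (k r r))))
 .z .z) .z))) (.s 0x7d2fee0097f5002aa22888ae10 4084 (n false (n true (n false (z 14) (z 46)) e) (n false (n false (n false (n true (n false e e) e) (n false e e)) e) (n false (n false (n false (n false e e) (n false e e)) (n false (n false e e) (n false e e))) (n false e e)))) (c 7 4099 v (u 12 2 (k (u 8 0 (k v (k v r))) (k (c 28 4099 r (u 20 0 (k (u 8 0 (k v (k v r))) (k (u 8 0 (k v (k v r))) r)))) (k r (k (u 20 1 (k (u 8 0 (k v (k v r))) (k (u 8 0 (k v (k v r))) r))) (k (c 28 4097 r r) (k (c 20 4095 r r) r))))))))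
 (.s 0x77d551144455114444aef80088 4086 (n false (n false (n true (n true (n false (z 52) (n false (n false (n false (n false (n false e e) (n false e e)) (n false (n false e e) (n false e e))) (n false e e)) (n false (n false (n false (n false e e) (n false e e)) (n false (n false e e) (n false e e))) (n false e e)))) e) e) (n false e e)) (n false e e)) (u 32 166 (k v (k v (k v (k v (k (t 96 1 (u 64 2 (k v (k v r)))) r))))))
 (.s 0x77d5445111544511070e577c00 4085 (n false (n false (n true (n true (n false (n false (n false (n false (n false e e) (n false e e)) (n false (n false e e) (n false e e))) (n false e e)) (n false (n false (n false (n false e e) (n false e e)) (n false (n false e e) (n false e e))) (n false e e))) e) e) (n true (n false e e) e)) (n true (z 52) e)) (u 5 265 (k v (k v (k v (k v (k v (k v (k (t 13 1 (u 9 0 (k v (k v r)))) r))))))))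
 (.s 0x77d5445111544511070e55fc00 4087 (n false (n false (n true (n true (n false (n false (n false (n false (n false e e) (n false e e)) (n false (n false e e) (n false e e))) (n false e e)) (n false (n false (n false (n false e e) (n false e e)) (n false (n false e e) (n false e e))) (n false e e))) e) e) (n true (n false e e) e)) (n true (z 56) e)) (u 5 0 (k (u 9 339 (k v (k v (k v (k v (k v r)))))) (k (c 9 4096 r (c 32 4099 v (u 13 0 (k v (k v r))))) (k r (k (c 13 4096 r r) r)))))
 .z .z) (.s 0x77d5445111544511070e5fdc00 4089 (n false (n true (z 46) e) (n false (n true (n true (n false (n false (n false (n false (n false e e) (n false e e)) (n false (n false e e) (n false e e))) (n false e e)) (n false (n false (n false (n false e e) (n false e e)) (n false (n false e e) (n false e e))) (n false e e))) e) e) (n true (n false e e) e))) (c 33 4099 v (u 4 1 (k v (k (u 8 1 (k v (k v r))) (k (c 12 4099 r (u 8 0 (k v (k v r)))) (k (u 8 1 (k v (k v r))) (k (c 12 4097 r (u 8 1 (k v (k v r)))) (k (c 8 4095 r (u 12 1 (k v (k v r)))) r))))))))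
 .z .z)) (.s 0x7d2bfa8013baa005f544511070 4093 (n false (n true (n false (z 156) (z 5)) e) (n false (n true (n true (n false (n false (n false (n false e e) (n false e e)) (n false (n false e e) (n false e e))) (n false e e)) e) e) (n true (n false e e) e))) (t 12 1 (u 8 2 (k v (k (c 24 4099 r (u 16 1 (k v (k v r)))) (k (c 16 4095 r (u 24 0 (k v (k v r)))) r)))))
 (.s 0x7d2bfa8012bbe00775445110a0 4090 (n false (n true (n false (n true (n false (n false (n false (n false e e) (n false e e)) (n false (n false e e) (n false e e))) (n false e e)) e) (n false (n false e e) e)) e) (n true (n false (z 156) (z 52)) e)) (u 9 32 (k (c 13 4097 r v) (k r (k (c 16 4099 v (c 5 4064 r v)) (k (c 25 4099 r r) (k (c 17 4099 r r) r))))))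
 .z .z) .z)) (.s 0x7d3baa0097f7002ea88a221708 4085 (n false (n true (n false (z 46) (z 5)) e) (n false (n false (n true (n false e e) e) (n false e e)) (n true (n false (n false (n false (n false e e) (n false e e)) (n false (n false e e) (n false e e))) (n false e e)) e))) (t 12 1 (u 8 1 (k v (k r (k (c 24 4099 r (u 16 0 (k v (k v r)))) (k (c 2 4088 (c 10 4101 v r) v) (k (c 24 4097 r r) (k (c 16 4095 r r) r))))))))
 (.s 0x7d3baa0097f7002aa22888ae10 4084 (n false (n true (n false (z 46) (z 5)) e) (n false (n false (n false (n true (n false e e) e) (n false e e)) e) (n false (n false (n false (n false e e) (n false e e)) (n false (n false e e) (n false e e))) (n false e e)))) (t 12 1 (u 8 1 (k v (k (u 16 1 (k v (k v r))) (k (c 24 4099 r (u 16 0 (k v (k v r)))) (k (c 2 4088 (c 10 4101 v r) v) (k (c 24 4097 r (u 16 1 (k v (k v r)))) (k (c 16 4095 r (u 24 1 (k v (k v r)))) r))))))))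
 (.s 0x7d2fee0097f5002aa22888ee10 4083 (n false (n true (n false (z 46) (z 14)) e) (n false (n true (n false (n true (n false e e) e) (n false e e)) e) (n false (n false (n false (n false e e) (n false e e)) (n false (n false e e) (n false e e))) (n false e e)))) (u 8 27 (k r (k (u 12 0 (k v (k v r))) (k (c 7 4099 v (u 12 0 (k v (k v r)))) (k (t 12 1 (c 2 4083 r v)) (k (c 7 4099 v (u 16 1 (k (u 12 0 (k v (k v r))) (k (u 12 0 (k v (k v r))) r)))) (k (c 24 4097 r (t 12 1 (c 2 4083 r v))) (k (c 16 4095 r (t 12 1 (c 2 4083 r v))) r))))))))
 .z .z) (.s 0x7d3baa0097f7002aa22888ee10 4083 (n false (n true (n false (z 46) (z 5)) e) (n false (n true (n false (n true (n false e e) e) (n false e e)) e) (n false (n false (n false (n false e e) (n false e e)) (n false (n false e e) (n false e e))) (n false e e)))) (t 12 1 (u 8 1 (k v (k (u 16 1 (k v (k v r))) (k (c 24 4099 r (u 16 0 (k v (k v r)))) (k (u 16 1 (k v (k v r))) (k (c 24 4097 r (u 16 1 (k v (k v r)))) (k (c 16 4095 r (u 24 1 (k v (k v r)))) r))))))))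
 .z .z)) (.s 0x7d3baa009d7f802aa22888ae10 4084 (n false (n true (n false (z 121) (z 5)) e) (n false (n false (n false (n true (n false e e) e) (n false e e)) e) (n false (n false (n false (n false e e) (n false e e)) (n false (n false e e) (n false e e))) (n false e e)))) (t 12 1 (u 8 1 (k v (k (c 24 4099 r (u 16 1 (k v (k v r)))) (k (c 16 4097 r (u 24 1 (k v (k v r)))) (k (c 16 4095 r (u 24 0 (k v (k v r)))) (k (c 16 4095 r (u 24 0 (k v (k v r)))) r)))))))
 (.s 0x7d3baa0097f7002fea88a22070 4089 (n false (n true (n false (z 46) (z 5)) e) (n false (n true (n true (n true (n false (n false (n false (n false e e) (n false e e)) (n false (n false e e) (n false e e))) (n false e e)) e) e) e) (n true (n false e e) e))) (t 12 1 (u 8 10 (k v (k (c 24 4099 r (u 16 0 (k v (k v r)))) (k (c 2 4088 (c 10 4101 v r) v) r)))))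
 .z .z) .z))))

set_option maxRecDepth 100000 in
def N237 : NT :=
(.s 0x7d54451115445110b95fd40070 4092 (n false (n false (n true (z 156) e) (n true (n false e e) e)) (n true (n false (n false (n false (n false (n false e e) (n false e e)) (n false (n false e e) (n false e e))) (n false e e)) (n false (n false (n false (n false e e) (n false e e)) (n false (n false e e) (n false e e))) (n false e e))) e)) (u 8 8 (k v (k v (k (c 24 4099 r (u 16 1 (k v (k v r)))) (k (c 16 4098 r (u 24 1 (k v (k v r)))) (k (c 16 4097 r (u 24 1 (k v (k v r)))) (k (c 16 4099 r (u 24 1 (k v (k v r)))) r)))))))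
 (.s 0x7d3bae009dd5002ea88a221708 4085 (n false (n true (n false (z 37) (z 5)) e) (n false (n false (n true (n false e e) e) (n false e e)) (n true (n false (n false (n false (n false e e) (n false e e)) (n false (n false e e) (n false e e))) (n false e e)) e))) (t 12 1 (u 8 23 (k v (k v (k (c 20 4101 v (u 16 0 (k (t 32 3 (t 48 1 v)) r))) (k (u 16 2 (k v (k v (k v (k (t 48 1 (u 32 0 (k (t 64 3 (t 96 1 v)) r))) r))))) (k (u 16 3 (k v (k v r))) r)))))))
 (.s 0x7d3bae009dd5002aa22888ae10 4084 (n false (n true (n false (z 37) (z 5)) e) (n false (n false (n false (n true (n false e e) e) (n false e e)) e) (n false (n false (n false (n false e e) (n false e e)) (n false (n false e e) (n false e e))) (n false e e)))) (t 12 1 (u 8 42 (k v (k v (k (c 20 4101 v (u 16 0 (k (t 32 3 (t 48 1 v)) r))) (k (u 16 26 (k v (k v (k v (k (t 48 1 (u 32 0 (k (t 64 3 (t 96 1 v)) r))) r))))) (k (u 16 7 (k v (k v r))) r)))))))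
 (.s 0x7d3baa009d7f802ea88a221708 4085 (n false (n true (n false (z 121) (z 5)) e) (n false (n false (n true (n false e e) e) (n false e e)) (n true (n false (n false (n false (n false e e) (n false e e)) (n false (n false e e) (n false e e))) (n false e e)) e))) (t 12 1 (u 8 1 (k v (k (c 24 4099 r (u 16 1 (k v (k v r)))) (k (c 16 4097 r r) (k (c 16 4095 r (u 24 0 (k v (k v r)))) (k (c 16 4095 r (u 24 0 (k v (k v r)))) r)))))))
 (.s 0x7d3baa009d7f802ba577c010e0 4088 (n false (n false (n false (n true (n false (z 52) (n false e e)) e) (n true (n false e e) e)) e) (n true (n false (z 121) (z 5)) e)) (t 13 1 (u 9 15 (k (u 32 408 (k v (k v (k v r)))) (k (c 32 4097 r v) (k (c 21 4101 v r) (k (c 25 4099 r r) r))))))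
 .z .z) (.s 0x7d3bae0097f5002aa22888ee10 4083 (n false (n true (n false (z 37) (z 14)) e) (n false (n true (n false (n true (n false e e) e) (n false e e)) e) (n false (n false (n false (n false e e) (n false e e)) (n false (n false e e) (n false e e))) (n false e e)))) (u 8 36 (k (u 12 0 (k v (k v r))) (k (t 12 1 v) (k (u 16 29 (k r (k (c 7 4099 v (u 12 0 (k v (k v r)))) (k (c 12 4097 r v) (k (u 12 0 (k v (k v r))) r))))) (k (u 16 9 (k (c 7 4099 v (u 12 0 (k v (k v r)))) (k (u 12 3 (k v (k v (k v r)))) r))) r)))))
 .z .z)) (.s 0x7d3bae009dd5002ba577c010e0 4088 (n false (n false (n false (n true (n false (z 52) (n false e e)) e) (n true (n false e e) e)) e) (n true (n false (z 37) (z 5)) e)) (t 13 1 (u 32 407 (k (c 12 4094 v (u 9 1 (k v (k v r)))) (k (u 9 1 (k v (k v r))) (k (c 12 4094 v (u 9 1 (k v (k v r)))) (k (u 9 1 (k v (k v r))) r))))))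
 (.s 0x7d3bae009dd5002aa22888ee10 4083 (n false (n true (n false (z 37) (z 5)) e) (n false (n true (n false (n true (n false e e) e) (n false e e)) e) (n false (n false (n false (n false e e) (n false e e)) (n false (n false e e) (n false e e))) (n false e e)))) (t 12 1 (u 8 0 (k v (k (c 20 4101 v (u 16 0 (k (t 32 3 (t 48 1 v)) r))) (k (c 20 4101 v (u 16 0 (k (t 32 3 (t 48 1 v)) r))) (k (u 16 2 (k v (k v (k v (k (t 48 1 (u 32 0 (k (t 64 3 (t 96 1 v)) r))) r))))) (k (u 16 2 (k v (k v (k v (k (t 48 1 (u 32 0 (k (t 64 3 (t 96 1 v)) r))) r))))) (k (u 16 3 (k v (k v r))) r))))))))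
 .z .z) .z)) (.s 0x7d3fbb009dd7002ea88a221708 4085 (n false (n true (n false (z 87) (z 37)) e) (n false (n false (n true (n false e e) e) (n false e e)) (n true (n false (n false (n false (n false e e) (n false e e)) (n false (n false e e) (n false e e))) (n false e e)) e))) (u 12 36 (k (u 8 1 (k v (k v r))) (k (t 8 1 v) (k (c 11 4099 v (c 9 4094 v (u 8 0 (k r (k (c 20 4096 r v) r))))) (k (u 8 0 (k (c 11 4099 v (c 9 4094 v r)) (k (c 20 4096 r v) r))) r)))))
 (.s 0x7d3fbb009d7f802aa22888ae10 4084 (n false (n true (n false (z 121) (z 87)) e) (n false (n false (n false (n true (n false e e) e) (n false e e)) e) (n false (n false (n false (n false e e) (n false e e)) (n false (n false e e) (n false e e))) (n false e e)))) (c 7 4099 v (u 8 1 (k (u 12 1 (k v (k v r))) (k (c 24 4099 r r) (k (c 16 4097 r r) (k (c 16 4095 r r) (k (c 16 4095 r r) r)))))))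
 (.s 0x7d3eae00975d002aa22888ee10 4083 (n false (n true (n false (z 35) (z 18)) e) (n false (n true (n false (n true (n false e e) e) (n false e e)) e) (n false (n false (n false (n false e e) (n false e e)) (n false (n false e e) (n false e e))) (n false e e)))) (u 12 0 (k (u 8 24 (k (c 7 4099 v (u 20 0 (k v (k v r)))) (k (c 20 4097 r v) (k (u 20 0 (k v (k v r))) r)))) r))
 .z .z) (.s 0x7d3fbb009dd7002aa22888ae10 4084 (n false (n true (n false (z 87) (z 37)) e) (n false (n false (n false (n true (n false e e) e) (n false e e)) e) (n false (n false (n false (n false e e) (n false e e)) (n false (n false e e) (n false e e))) (n false e e)))) (u 12 50 (k (u 8 1 (k v (k v r))) (k (t 8 1 v) (k (u 8 1 (k v (k v r))) (k (u 20 35 (k (u 8 1 (k v (k v r))) (k (c 7 4099 v (u 8 1 (k v (k v r)))) (k (c 7 4099 v (u 8 11 (k v (k v r)))) (k (c 8 4099 r v) r))))) (k (u 8 0 (k (u 20 9 (k v (k v r))) (k (c 20 4096 r v) r))) r))))))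
 .z .z)) (.s 0x7d3fbf009f77002aa22888ee10 4085 (n false (n true (n false (z 119) (z 43)) e) (n false (n true (n false (n true (n false e e) e) (n false e e)) e) (n false (n false (n false (n false e e) (n false e e)) (n false (n false e e) (n false e e))) (n false e e)))) (t 8 2 (u 12 21 (k v (k v (k r (k (c 28 4099 r (c 7 4099 v (u 20 0 (k (u 36 0 (k v (k v r))) r)))) (k r (k (c 5 4091 v (u 20 0 (k (u 36 0 (k v (k v r))) r))) (k (c 5 4091 v r) (k (c 5 4091 v r) r))))))))))
 (.s 0x7d3fbf009f77002aa22888ae10 4086 (n false (n true (n false (z 119) (z 43)) e) (n false (n false (n false (n true (n false e e) e) (n false e e)) e) (n false (n false (n false (n false e e) (n false e e)) (n false (n false e e) (n false e e))) (n false e e)))) (t 8 2 (u 12 11 (k v (k (u 20 40 (k v (k v (k v (k (u 36 33 (k v (k v (k v (k v r))))) r))))) (k (c 28 4099 r (c 5 4091 v (u 20 0 (k (u 36 0 (k v (k v r))) r)))) (k (c 7 4099 v (u 20 18 (k v (k v (k (c 52 4099 r (u 36 0 (k v (k v r)))) (k r (k (u 36 1 (k v (k v r))) (k (c 52 4097 r r) r)))))))) (k (c 5 4091 v r) (k (c 5 4091 v r) r))))))))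
 .z .z) .z))) (.s 0x7d75445110e7f7e00875445110 4089 (n false (n true (n false (n false (n true (z 119) e) (n true (n false (n false (n false (n false e e) (n false e e)) (n false (n false e e) (n false e e))) (n false e e)) e)) (n false e e)) e) (n true (n false (n false (n false (n false e e) (n false e e)) (n false (n false e e) (n false e e))) (n false e e)) e)) (u 32 10 (k v (k (c 2 4086 (t 48 1 r) v) (k (c 96 4097 r (u 64 28 (k v (k v (k (c 192 4099 r (u 128 6 (k v (k v (k v r))))) (k (c 128 4095 r (u 192 23 (k v (k v r)))) (k (c 128 4095 r (u 192 23 (k v (k v r)))) r))))))) (k (c 96 4097 r (u 64 30 (k v (k v (k (c 192 4099 r (u 128 6 (k v (k v (k v r))))) (k (c 128 4099 r (u 192 6 (k v (k v (k v r))))) (k (c 128 4095 r (u 192 23 (k v (k v r)))) r))))))) r)))))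
 (.s 0x7d5d511444228885f2bfa80070 4089 (n false (n false (n true (n true (z 156) e) e) (n true (n false e e) e)) (n true (n false (n false (n false (n true (n false (n false (n false (n false e e) (n false e e)) (n false (n false e e) (n false e e))) (n false e e)) e) (n false e e)) (n false (n false e e) (n false e e))) (n false e e)) e)) (u 16 1 (k v (k (c 48 4099 r (u 32 1 (k v (k v r)))) (k (c 32 4098 r (u 48 1 (k v (k v r)))) (k (c 32 4097 r (u 48 1 (k v (k v r)))) (k (c 32 4099 r (u 48 1 (k v (k v r)))) (k (c 32 4095 r (u 48 0 (k v (k v r)))) r)))))))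
 (.s 0x7d551144455114444aef801708 4085 (n false (n true (n false (z 52) (n false (n false (n false (n false (n false e e) (n false e e)) (n false (n false e e) (n false e e))) (n false e e)) (n false (n false (n false (n false e e) (n false e e)) (n false (n false e e) (n false e e))) (n false e e)))) e) (n false (n true (n false e e) e) (n false e e))) (u 8 209 (k v (k v (k v (k v (k (t 24 1 (u 16 0 (k v (k v r)))) r))))))
 (.s 0x7d54451115445110be75fe0070 4089 (n false (n false (n true (n true (z 121) e) e) (n true (n false e e) e)) (n true (n false (n false (n false (n false (n false e e) (n false e e)) (n false (n false e e) (n false e e))) (n false e e)) (n false (n false (n false (n false e e) (n false e e)) (n false (n false e e) (n false e e))) (n false e e))) e)) (u 16 56 (k v (k v (k (c 48 4099 r (u 32 1 (k v (k v r)))) (k (c 32 4095 r (u 48 0 (k v (k v r)))) (k (c 32 4095 r (u 48 0 (k v (k v r)))) r))))))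
 .z .z) (.s 0x7d551144455114444aef801f40 4088 (n false (n true (n false (z 52) (n false (n false (n false (n false (n false e e) (n false e e)) (n false (n false e e) (n false e e))) (n false e e)) (n false (n false (n false (n false e e) (n false e e)) (n false (n false e e) (n false e e))) (n false e e)))) e) (n true (n true (n false (n false e e) e) e) e)) (u 8 169 (k v (k v (k v (k (t 24 1 (u 16 2 (k v (k v r)))) r)))))
 .z .z)) (.s 0x7d75445110e7f7600875445110 4086 (n false (n true (n false (n false (n true (z 87) e) (n true (n false (n false (n false (n false e e) (n false e e)) (n false (n false e e) (n false e e))) (n false e e)) e)) (n false e e)) e) (n true (n false (n false (n false (n false e e) (n false e e)) (n false (n false e e) (n false e e))) (n false e e)) e)) (c 2 4084 (u 16 1 (k v (k v r))) v)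
 (.s 0x7d75445110e15445110e577c00 4086 (n false (n true (n false (n false (n true (n false (n false (n false (n false e e) (n false e e)) (n false (n false e e) (n false e e))) (n false e e)) e) (n true (n false e e) e)) (n false (n false (n false (n false e e) (n false e e)) (n false (n false e e) (n false e e))) (n false e e))) e) (n true (z 52) e)) (u 5 14 (k v (k v (k v (k v (k v (k v (k (t 13 1 (u 9 0 (k v (k v r)))) r))))))))
 .z .z) .z)) (.s 0x7d75445110ea88a2210e555e00 4088 (n false (n true (z 96) e) (n true (n false (n false (n true (n false (n false (n false (n false e e) (n false e e)) (n false (n false e e) (n false e e))) (n false e e)) e) (n true (n false (n false (n false (n false e e) (n false e e)) (n false (n false e e) (n false e e))) (n false e e)) e)) (n false e e)) e)) (u 4 0 (k (t 12 2 (u 8 0 (k (c 24 4099 r (u 16 9 (k v (k v (k (c 8 4084 (u 4 1 (k v (k v r))) v) r))))) r))) r))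
 (.s 0x7d75445110ea88a2210a577c00 4089 (n false (n true (n false (n false (n true (n false (n false (n false (n false e e) (n false e e)) (n false (n false e e) (n false e e))) (n false e e)) e) (n true (n false (n false (n false (n false e e) (n false e e)) (n false (n false e e) (n false e e))) (n false e e)) e)) (n false e e)) e) (n false (z 52) e)) (u 5 150 (k v (k v (k v (k v (k v (k (t 13 1 (u 9 0 (k v (k v r)))) r)))))))
 (.s 0x7d75445110ea88a22109555400 4091 (n false (z 128) (n true (n false (n false (n true (n false (n false (n false (n false e e) (n false e e)) (n false (n false e e) (n false e e))) (n false e e)) e) (n true (n false (n false (n false (n false e e) (n false e e)) (n false (n false e e) (n false e e))) (n false e e)) e)) (n false e e)) e)) (u 2 1 (k v (k (c 4 4097 r r) (k (c 6 4099 r r) (k (c 6 4099 r r) (k (c 4 4096 r r) (k (c 6 4097 r r) (k (c 6 4097 r r) (k (c 4 4095 r (u 6 0 (k v (k v r)))) (k (c 4 4099 r r) (k (c 6 4097 r (u 4 1 (k v (k v r)))) (k (c 4 4098 r r) (k (c 4 4099 r r) (k (c 6 4095 r (u 4 1 (k v (k v r)))) (k (c 4 4097 r (u 6 0 (k v (k v r)))) (k (c 6 4097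 r (u 4 2 (k v (k v (k v (k v r)))))) (k (c 4 4099 r r) (k (c 4 4095 r (u 6 1 (k v (k v r)))) (k (c 4 4097 r r) r)))))))))))))))))))
 .z .z) (.s 0x7d75445110ea88a2210a7f7e00 4093 (n false (n false (z 119) e) (n true (n false (n false (n true (n false (n false (n false (n false e e) (n false e e)) (n false (n false e e) (n false e e))) (n false e e)) e) (n true (n false (n false (n false (n false e e) (n false e e)) (n false (n false e e) (n false e e))) (n false e e)) e)) (n false e e)) e)) (u 4 14 (k v (k v (k (c 8 4097 r (u 12 1 (k v (k v r)))) (k (c 8 4097 r r) (k (c 8 4097 r (c 17 4110 v (u 12 1 (k v (k (c 28 4097 r (u 20 0 (k v (k v r)))) r))))) (k (c 12 4096 r (u 8 0 (k (u 16 0 (k v (k v r))) r))) (k (c 12 4097 r r) (k (c 12 4097 r r) (k (c 12 4097 r r) (k (c 12 4097 r r) (k (c 12 4097 r r) (k (c 12 4097 r r) r)))))))))))))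
 .z .z)) (.s 0x7d75445110ea88a2210e5ffc00 4088 (n false (n true (n false (n false (n true (n false (n false (n false (n false e e) (n false e e)) (n false (n false e e) (n false e e))) (n false e e)) e) (n true (n false (n false (n false (n false e e) (n false e e)) (n false (n false e e) (n false e e))) (n false e e)) e)) (n false e e)) e) (n true (z 62) e)) (u 5 4 (k v (k v (k v (k (t 13 1 r) r)))))
 (.s 0x7d75445110ea88a2210e577c00 4089 (n false (n true (n false (n false (n true (n false (n false (n false (n false e e) (n false e e)) (n false (n false e e) (n false e e))) (n false e e)) e) (n true (n false (n false (n false (n false e e) (n false e e)) (n false (n false e e) (n false e e))) (n false e e)) e)) (n false e e)) e) (n true (z 52) e)) (u 5 8 (k v (k v (k v (k v (k v (k (t 13 1 (u 9 0 (k v (k v r)))) r)))))))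
 .z .z) .z))))

set_option maxRecDepth 100000 in
def N238 : NT :=
(.s 0x3a95fd400551144455445111708 4086 (n false (n false (n false (z 156) e) (n false (n false (n false (n false e e) (n false e e)) (n false (n false e e) (n false e e))) (n false e e))) (n false (n false (n true (n false e e) e) (n false e e)) (n false (n false (n false (n false e e) (n false e e)) (n false (n false e e) (n false e e))) (n false e e)))) (c 7 4099 v (u 8 8 (k v (k v (k (c 24 4099 r (u 16 1 (k v (k v r)))) (k (c 16 4098 r (u 24 1 (k v (k v r)))) (k (c 16 4097 r (c 2 4088 r v)) (k (c 16 4099 r (u 24 1 (k v (k v r)))) r))))))))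
 (.s 0x7dcfeec013fbb007df54451100 4087 (n false (n true (n false (n true (z 87) e) (z 87)) e) (n true (n true (n false (n true (n true (n false (n false (n false (n false e e) (n false e e)) (n false (n false e e) (n false e e))) (n false e e)) e) e) e) e) e)) (u 16 1 (k (u 12 1 (k v (k v r))) (k (u 12 1 (k v (k v r))) r)))
 (.s 0x7dcbbb8015445110aa88a223a0 4087 (n false (n true (n false (n true (z 42) e) (n false (n false (n false (n false e e) (n false e e)) (n false (n false e e) (n false e e))) (n false e e))) e) (n false (n true (n false (n false e e) e) e) (n false (n false (n false (n false e e) (n false e e)) (n false (n false e e) (n false e e))) (n false e e)))) (c 2 4088 (c 10 4101 v r) v)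
 (.s 0x7dcbbb8013fbb007df54451100 4089 (n false (n true (n false (n true (z 42) e) (z 87)) e) (n true (n true (n false (n true (n true (n false (n false (n false (n false e e) (n false e e)) (n false (n false e e) (n false e e))) (n false e e)) e) e) e) e) e)) (u 16 1 (k (u 12 1 (k v (k v r))) (k (u 12 1 (k v (k v r))) r)))
 (.s 0x7d75445110ea88a2210e7f7e00 4095 (n false (n true (z 119) e) (n true (n false (n false (n true (n false (n false (n false (n false e e) (n false e e)) (n false (n false e e) (n false e e))) (n false e e)) e) (n true (n false (n false (n false (n false e e) (n false e e)) (n false (n false e e) (n false e e))) (n false e e)) e)) (n false e e)) e)) (u 4 9 (k v (k v (k v (k (t 12 1 r) (k (c 8 4097 r (c 17 4110 v r)) (k (c 12 4097 r r) (k (c 12 4097 r r) (k (c 12 4097 r r) (k (c 12 4097 r r) r))))))))))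
 .z .z) (.s 0x7dcbbb8015445110aa88a222a0 4090 (n false (n true (n false (n true (z 42) e) (n false (n false (n false (n false e e) (n false e e)) (n false (n false e e) (n false e e))) (n false e e))) e) (n false (n false (n false (n false e e) e) e) (n false (n false (n false (n false e e) (n false e e)) (n false (n false e e) (n false e e))) (n false e e)))) (c 2 4088 (c 10 4101 v r) v)
 .z .z)) (.s 0x7dcfeec012bbe00775445110a0 4087 (n false (n true (n false (n true (z 87) e) (z 52)) e) (n true (n false (n true (n false (n false (n false (n false e e) (n false e e)) (n false (n false e e) (n false e e))) (n false e e)) e) (n false (n false e e) e)) e)) (u 16 1 (k r (k (u 12 328 (k v (k v (k v (k v (k v r)))))) r)))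
 (.s 0x7dcfaac013fbb007df54451100 4091 (n false (n true (n false (n true (z 67) e) (z 87)) e) (n true (n true (n false (n true (n true (n false (n false (n false (n false e e) (n false e e)) (n false (n false e e) (n false e e))) (n false e e)) e) e) e) e) e)) (u 16 0 (k (u 12 1 (k v (k v r))) (k (u 12 1 (k v (k v r))) r)))
 .z .z) .z)) (.s 0x3a57f5002775401d5445111dc20 4084 (n false (n false (z 156) (z 5)) (n true (n false (n true (n false (n true (n false e e) e) (n false e e)) e) (n false (n false (n false (n false e e) (n false e e)) (n false (n false e e) (n false e e))) (n false e e))) e)) (t 6 1 (u 4 1 (k v (k (c 12 4099 r (u 8 1 (k v (k v r)))) (k (c 8 4098 r (u 12 1 (k v (k v r)))) (k (c 8 4097 r (u 12 1 (k v (k v r)))) (k (c 8 4099 r (u 12 1 (k v (k v r)))) (k (c 8 4095 r (u 12 0 (k v (k v r)))) r))))))))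
 (.s 0x7df551144455114441c13eee00 4087 (n false (n true (n false (n true (n true (n false (n false (n false (n false (n false e e) (n false e e)) (n false (n false e e) (n false e e))) (n false e e)) (n false (n false (n false (n false e e) (n false e e)) (n false (n false e e) (n false e e))) (n false e e))) e) e) (n true (n false e e) e)) e) (z 43)) (u 3 17 (k v (k v (k v (k r (k r (k (u 5 0 (k (u 9 0 (k v (k v r))) r)) (k r (k (u 5 2 (k v (k (c 13 4099 r (u 9 1 (k v (k v r)))) (k (c 9 4095 r (u 13 0 (k v (k v r)))) r)))) r)))))))))
 (.s 0x7dd5114442a22885f2bfa80070 4089 (n false (n false (n true (n true (z 156) e) e) (n true (n false e e) e)) (n true (n false (n true (n false (n false (n false (n false e e) (n false e e)) (n false (n false e e) (n false e e))) (n false e e)) e) (n false (n false (n false e e) (n false e e)) (n false (n false e e) (n false e e)))) e)) (u 16 1 (k v (k (c 48 4099 r (u 32 1 (k v (k v r)))) (k (c 32 4098 r (u 48 1 (k v (k v r)))) (k (c 32 4097 r (u 48 1 (k v (k v r)))) (k (c 32 4099 r (u 48 1 (k v (k v r)))) (k (c 32 4095 r (u 48 0 (k v (k v r)))) r)))))))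
 .z .z) (.s 0x3a57f50027754015d5114443870 4084 (n false (n false (z 156) (z 5)) (n false (n false (n true (n false (n false (n false (n false e e) (n false e e)) (n false (n false e e) (n false e e))) (n false e e)) e) (n true (n false e e) e)) (n true (n false e e) e))) (t 6 1 (u 4 1 (k v (k (c 12 4099 r (u 8 1 (k v (k v r)))) (k (c 8 4098 r (u 12 1 (k v (k v r)))) (k (c 8 4097 r (u 12 1 (k v (k v r)))) (k (c 8 4099 r (u 12 1 (k v (k v r)))) (k (c 8 4095 r (u 12 0 (k v (k v r)))) r))))))))
 .z .z)) (.s 0x3a957d004aaa8025fdc013bbb00 4094 (n false (n false (z 46) (n false (z 24) (z 0))) (z 85)) (t 14 1 (u 10 0 (k (t 18 3 (t 26 1 (u 4 1 (k r (k (u 8 31 (k r (k r (k r r)))) (k (c 12 4099 r (u 8 0 (k r (k r r)))) (k (c 3 4099 r (c 10 4098 v r)) (k (c 12 4097 r (u 8 31 (k r (k r (k r r))))) (k (c 8 4095 r (u 12 31 (k r (k r (k r r))))) r))))))))) r)))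
 (.s 0x3a57f5002775401dd5114442e10 4086 (n false (n false (z 156) (z 5)) (n true (n false (n false (n true (n false e e) e) (n false e e)) (n true (n false (n false (n false (n false e e) (n false e e)) (n false (n false e e) (n false e e))) (n false e e)) e)) e)) (t 6 1 (u 4 1 (k v (k (c 12 4099 r (u 8 1 (k v (k v r)))) (k (c 8 4098 r (u 12 1 (k v (k v r)))) (k (c 8 4097 r r) (k (c 8 4099 r (u 12 1 (k v (k v r)))) (k (c 8 4095 r (u 12 0 (k v (k v r)))) r))))))))
 .z .z) .z))) (.s 0x3aaa88a2229d7f802a88a222288 4089 (n false (n false (n false (n false (n false (z 121) e) (n false (n false (n false (n false e e) (n false e e)) (n false (n false e e) (n false e e))) (n false e e))) (n false (n false (n false (n false e e) (n false e e)) (n false (n false e e) (n false e e))) (n false e e))) (n false e e)) (n false (n false e e) (n false e e))) (u 32 39 (k v (k v (k (c 96 4099 r (u 64 1 (k v (k v r)))) (k (c 64 4095 r (u 96 0 (k v (k v r)))) r)))))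
 (.s 0x3aa88a222a2288a775c012bbe00 4094 (n false (n false (z 52) (z 37)) (n false (n false (n false (n false (n false e e) (n false e e)) (n false (n false e e) (n false e e))) (n false e e)) (n false (n false (n false e e) (n false e e)) (n false (n false e e) (n false e e))))) (u 4 199 (k (u 6 1 (k v (k v r))) (k (c 5 4099 v (u 6 1 (k v (k v r)))) (k (t 6 1 v) (k (t 6 1 v) (k (t 12 1 (u 6 1 (k r (k (u 8 0 (k v (k v r))) r)))) r))))))
 (.s 0x3aa88a22275f6015d5114443870 4084 (n false (n false (z 89) (n false (n false (n false (n false e e) (n false e e)) (n false (n false e e) (n false e e))) (n false e e))) (n false (n false (n true (n false (n false (n false (n false e e) (n false e e)) (n false (n false e e) (n false e e))) (n false e e)) e) (n true (n false e e) e)) (n true (n false e e) e))) (u 4 52 (k v (k v (k v (k r (k (t 12 2 (c 2 4083 r v)) (k (t 12 3 (u 8 0 (k v (k v r)))) (k (t 8 1 (c 10 4101 v r)) (k (t 12 3 (u 8 8 (k v (k v (k v r))))) r)))))))))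
 (.s 0x3a9df7004aaa802a55f4010ee10 4081 (n false (n false (n false (z 45) (z 0)) (n false (n false (z 24) (n false e e)) e)) (n true (n false (n true (n false e e) e) (n false e e)) e)) (t 12 1 (u 8 0 (k (u 18 0 (k (t 34 3 (t 50 1 v)) r)) (k (u 18 0 (k (t 34 3 (t 50 1 v)) r)) r))))
 .z .z) (.s 0x3aa88a222a2288a75fe012bbe00 4094 (n false (n false (z 121) (z 52)) (n false (n false (n false (n false (n false e e) (n false e e)) (n false (n false e e) (n false e e))) (n false e e)) (n false (n false (n false e e) (n false e e)) (n false (n false e e) (n false e e))))) (u 6 199 (k (u 4 29 (k v (k v (k v (k (c 12 4099 r (u 8 1 (k v (k v r)))) r))))) (k (c 5 4099 v (u 4 3 (k v (k v (k (c 12 4099 r (u 8 1 (k v (k v r)))) (k (c 8 4097 r (u 12 1 (k v (k v r)))) r)))))) (k (t 4 2 v) (k (t 4 2 v) (k (t 14 1 (u 4 15 (k (u 10 0 (k v (k v r))) (k (c 5 4099 v (u 10 2 (k v (k v r)))) (k r (k (c 12 4099 r r) r)))))) r))))))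
 .z .z)) (.s 0x3aaa22888aa22888a55f4011d10 4083 (n false (n false (n false (z 24) (n false e e)) (n false (n false (n false (n false (n false e e) (n false e e)) (n false (n false e e) (n false e e))) (n false e e)) (n false (n false (n false (n false e e) (n false e e)) (n false (n false e e) (n false e e))) (n false e e)))) (n true (n false (n false e e) (n false e e)) e)) (c 4 4096 (c 2 4098 r v) v)
 (.s 0x3aaa22888aa228889d7d805d108 4082 (n false (n false (z 89) (n false (n false (n false (n false (n false e e) (n false e e)) (n false (n false e e) (n false e e))) (n false e e)) (n false (n false (n false (n false e e) (n false e e)) (n false (n false e e) (n false e e))) (n false e e)))) (n false (n true (n false (n false e e) (n false e e)) e) (n false e e))) (u 4 48 (k v (k v (k v (k (c 12 4099 r (c 10 4099 v (u 8 0 (k r (k (c 16 4096 r (u 24 0 (k v (k v r)))) (k (u 16 1 (k v (k v r))) (k (c 24 4096 r r) r))))))) r)))))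
 .z .z) .z)) (.s 0x3abaa22888451114faac02a2288 4094 (n false (n false (z 67) (n false (n false (n false e e) (n false e e)) (n false (n false e e) (n false e e)))) (n false (n false (n false (n true (n false (n false (n false (n false e e) (n false e e)) (n false (n false e e) (n false e e))) (n false e e)) e) (n false e e)) (n false (n false e e) (n false e e))) (n false e e))) (u 4 72 (k v (k v (k v (k (t 12 1 (u 8 1 (k v (k v r)))) (k (c 8 4101 r (u 12 0 (k v (k v r)))) (k r (k (c 2 4087 r v) (k (t 12 1 (u 8 0 (k (u 16 0 (k v (k v r))) r))) (k (c 12 4101 r (u 8 1 (k v (k v r)))) (k (t 12 1 (u 8 10 (k v (k v (k v (k (c 24 4099 r (u 16 1 (k v (k v r)))) r)))))) (k (c 12 4102 r (u 8 1 (k v (k v r)))) (k (c 8 4101 r (u 12 1 (k v (k v r)))) (k (t 12 1 (u 8 3 (k v (k v (k (c 24 4099 r (u 16 1 (k v (k v r)))) r))))) (k (c 8 4101 r (u 12 1 (k v (k v r)))) r)))))))))))))))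
 (.s 0x3aaa88a2229ff5802a88a222288 4091 (n false (n false (n false (n false (n false (z 79) e) (n false (n false (n false (n false e e) (n false e e)) (n false (n false e e) (n false e e))) (n false e e))) (n false (n false (n false (n false e e) (n false e e)) (n false (n false e e) (n false e e))) (n false e e))) (n false e e)) (n false (n false e e) (n false e e))) (c 12 4099 v (u 32 0 (k v (k (u 64 1 (k v (k r (k (u 128 71 (k v (k v (k (c 384 4101 r r) (k (c 256 4101 r r) (k (c 256 4101 r r) r)))))) (k (t 192 1 (c 8 4072 (c 3 4099 v r) v)) (k (t 192 1 (c 24 4099 v (c 8 4069 r v))) (k (t 192 1 (c 24 4099 v (c 8 4069 r v))) r))))))) r))))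
 (.s 0x3aaa88a2229dd7002a88a222288 4089 (n false (n false (n false (n false (n false (z 37) e) (n false (n false (n false (n false e e) (n false e e)) (n false (n false e e) (n false e e))) (n false e e))) (n false (n false (n false (n false e e) (n false e e)) (n false (n false e e) (n false e e))) (n false e e))) (n false e e)) (n false (n false e e) (n false e e))) (u 32 0 (k v (k (c 24 4099 v (c 4 4092 (u 16 0 (k (t 32 3 (t 48 1 v)) r)) v)) (k (c 40 4101 v (u 64 0 (k (c 192 4101 r (t 128 3 v)) r))) (k (u 64 2 (k v (k v (k v (k (t 192 1 (u 128 0 (k (t 256 3 (t 384 1 v)) r))) r))))) (k (u 64 8 (k v (k (t 192 1 (u 128 0 (k (t 256 3 (t 384 1 v)) r))) r))) (k (c 8 4087 r v) r)))))))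
 .z .z) (.s 0x3aaea88a22114442a55f4011708 4086 (n false (n false (n false (z 24) (n false e e)) (n false (n true (n false e e) e) (n false e e))) (n false (n false (n false (n false (n true (n false (n false (n false (n false e e) (n false e e)) (n false (n false e e) (n false e e))) (n false e e)) e) (n false e e)) (n false (n false e e) (n false e e))) (n false e e)) e)) (c 4 4096 (c 2 4098 r v) v)
 .z .z)) (.s 0x3abaa2288870aa22888f9fdd800 4083 (n false (n false (n true (n true (z 87) e) e) (n false (n false (n true (n false (n false (n false (n false e e) (n false e e)) (n false (n false e e) (n false e e))) (n false e e)) e) (n true (n false e e) e)) (n false (n false (n false (n false e e) (n false e e)) (n false (n false e e) (n false e e))) (n false e e)))) e) (c 14 4099 v (c 26 4094 v (u 16 1 (k v (k v r)))))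
 (.s 0x3abaa2288870aa22888f97f5000 4081 (n false (n false (n false (n false (n true (n false (n false (n false (n false e e) (n false e e)) (n false (n false e e) (n false e e))) (n false e e)) e) (n true (n false e e) e)) (n false (n false (n false (n false e e) (n false e e)) (n false (n false e e) (n false e e))) (n false e e))) (n true (n true (z 14) e) e)) e) (c 12 4099 v (c 24 4094 v (u 18 0 (k v (k v r)))))
 .z .z) .z))))

set_option maxRecDepth 100000 in
def N239 : NT :=
(.s 0x3aea88a221d51144423b97f7000 4095 (n false (n true (n false (n true (z 46) e) e) e) (n false (n false (n true (n false (n false (n false (n false e e) (n false e e)) (n false (n false e e) (n false e e))) (n false e e)) e) (n true (n false (n false (n false (n false e e) (n false e e)) (n false (n false e e) (n false e e))) (n false e e)) e)) (n false e e))) (c 9 4110 v (u 16 6 (k v (k v (k (u 32 1 (k v (k v r))) (k (c 48 4099 r (u 32 0 (k v (k v r)))) (k (u 32 1 (k v (k v r))) (k (c 48 4097 r (u 32 1 (k v (k v r)))) r))))))))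
 (.s 0x3abaa228887544511087caffc00 4095 (n false (n true (n true (z 124) e) e) (n false (n false (n false (n true (n false (n false (n false (n false e e) (n false e e)) (n false (n false e e) (n false e e))) (n false e e)) e) (n true (n false (n false (n false (n false e e) (n false e e)) (n false (n false e e) (n false e e))) (n false e e)) e)) (n false e e)) e)) (c 17 4110 v (u 8 1 (k v (k (c 24 4097 r (u 16 1 (k v (k v r)))) (k (c 24 4096 r (u 16 1 (k v (k v r)))) (k (c 16 4098 r (u 24 0 (k v (k v r)))) (k (c 24 4096 r (u 16 1 (k v (k v r)))) (k (c 24 4097 r (u 16 1 (k v (k v r)))) (k (c 24 4097 r (u 16 1 (k v (k v r)))) (k (c 24 4096 r (u 16 1 (k v (k v r)))) (k (c 24 4099 r (u 16 1 (k v (k v r)))) (k (c 16 4097 r (u 24 1 (k v (k v r)))) r))))))))))))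
 (.s 0x3abaa228887544511085cbfb800 4093 (n false (n false (n true (z 46) e) e) (n false (n false (n false (n true (n false (n false (n false (n false e e) (n false e e)) (n false (n false e e) (n false e e))) (n false e e)) e) (n true (n false (n false (n false (n false e e) (n false e e)) (n false (n false e e) (n false e e))) (n false e e)) e)) (n false e e)) e)) (u 8 12 (k v (k v (k v (k (u 16 1 (k v (k v r))) (k (c 17 4110 v (u 16 1 (k v (k v r)))) (k (c 24 4097 r (u 16 1 (k v (k v r)))) r)))))))
 (.s 0x3abaa2288873fbb00470aa22888 4084 (n false (n false (n false (n false (n true (z 87) e) (n true (n false (n false (n false (n false e e) (n false e e)) (n false (n false e e) (n false e e))) (n false e e)) e)) (n false e e)) (n true (n false e e) e)) (n false (n false (n false (n false e e) (n false e e)) (n false (n false e e) (n false e e))) (n false e e))) (c 4 4085 (u 8 1 (k v (k v r))) v)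
 (.s 0x3abaa2288872fea00470aa22888 4084 (n false (n false (n false (n false (n true (z 14) e) (n true (n false (n false (n false (n false e e) (n false e e)) (n false (n false e e) (n false e e))) (n false e e)) e)) (n false e e)) (n true (n false e e) e)) (n false (n false (n false (n false e e) (n false e e)) (n false (n false e e) (n false e e))) (n false e e))) (c 4 4083 (u 8 0 (k v (k v r))) v)
 .z .z) (.s 0x3abaa228887544511085caffc00 4093 (n false (n false (n true (z 124) e) e) (n false (n false (n false (n true (n false (n false (n false (n false e e) (n false e e)) (n false (n false e e) (n false e e))) (n false e e)) e) (n true (n false (n false (n false (n false e e) (n false e e)) (n false (n false e e) (n false e e))) (n false e e)) e)) (n false e e)) e)) (c 17 4110 v (u 8 4 (k v (k v (k (c 24 4097 r (u 16 1 (k v (k v r)))) (k (c 24 4096 r (u 16 1 (k v (k v r)))) (k (c 16 4098 r (u 24 0 (k v (k v r)))) (k (c 24 4096 r (u 16 1 (k v (k v r)))) (k (c 24 4097 r (u 16 1 (k v (k v r)))) (k (c 24 4097 r (u 16 1 (k v (k v r)))) (k (c 24 4096 r (u 16 1 (k v (k v r)))) (k (c 16 4097 r (u 24 1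 (k v (k v r)))) r))))))))))))
 .z .z)) (.s 0x3abaa228887544511085cfbec00 4093 (n false (n false (n true (z 91) e) e) (n false (n false (n false (n true (n false (n false (n false (n false e e) (n false e e)) (n false (n false e e) (n false e e))) (n false e e)) e) (n true (n false (n false (n false (n false e e) (n false e e)) (n false (n false e e) (n false e e))) (n false e e)) e)) (n false e e)) e)) (c 17 4110 v (u 8 27 (k v (k v (k v (k (u 16 1 (k v (k v r))) (k (c 16 4097 r (u 24 0 (k v (k v r)))) (k (c 16 4097 r (u 24 0 (k v (k v r)))) (k (c 16 4095 r (u 24 0 (k v (k v r)))) r)))))))))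
 (.s 0x3abaa228887544511085cebfc00 4093 (n false (n false (n true (z 121) e) e) (n false (n false (n false (n true (n false (n false (n false (n false e e) (n false e e)) (n false (n false e e) (n false e e))) (n false e e)) e) (n true (n false (n false (n false (n false e e) (n false e e)) (n false (n false e e) (n false e e))) (n false e e)) e)) (n false e e)) e)) (u 8 4 (k v (k v (k (c 24 4099 r (u 16 1 (k v (k v r)))) (k (c 16 4097 r (u 24 1 (k v (k v r)))) r)))))
 .z .z) .z)) (.s 0x3ae7f7c00aa2288857544511088 4088 (n false (n false (n false (n true (z 55) e) (n false (n false (n false (n false e e) (n false e e)) (n false (n false e e) (n false e e))) (n false e e))) e) (n false (n false (n true (n false (n false (n false (n false e e) (n false e e)) (n false (n false e e) (n false e e))) (n false e e)) e) (n false e e)) (n false e e))) (c 4 4091 (c 3 4099 v r) v)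
 (.s 0x3abaa228887544511087cebfc00 4093 (n false (n false (n false (n false (n true (n false (n false (n false (n false e e) (n false e e)) (n false (n false e e) (n false e e))) (n false e e)) e) (n true (n false (n false (n false (n false e e) (n false e e)) (n false (n false e e) (n false e e))) (n false e e)) e)) (n false e e)) e) (n true (n true (z 121) e) e)) (u 9 4 (k v (k v (k (c 25 4099 r (u 17 1 (k v (k v r)))) (k (c 17 4097 r (u 25 1 (k v (k v r)))) r)))))
 (.s 0x3abaa228887544511087cbfb800 4095 (n false (n false (n false (n false (n true (n false (n false (n false (n false e e) (n false e e)) (n false (n false e e) (n false e e))) (n false e e)) e) (n true (n false (n false (n false (n false e e) (n false e e)) (n false (n false e e) (n false e e))) (n false e e)) e)) (n false e e)) e) (n true (n true (z 46) e) e)) (c 16 4110 v (u 9 2 (k v (k (c 25 4099 r (u 17 0 (k v (k v r)))) (k (u 17 1 (k v (k v r))) (k (u 17 1 (k v (k v r))) (k (c 25 4097 r (u 17 1 (k v (k v r)))) (k (c 17 4095 r (u 25 1 (k v (k v r)))) r))))))))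
 .z .z) (.s 0x3ae5ddc00aa2288857544511088 4094 (n false (n false (n false (n true (z 42) e) (n false (n false (n false (n false e e) (n false e e)) (n false (n false e e) (n false e e))) (n false e e))) e) (n false (n false (n true (n false (n false (n false (n false e e) (n false e e)) (n false (n false e e) (n false e e))) (n false e e)) e) (n false e e)) (n false e e))) (c 2 4088 (c 10 4101 v r) v)
 .z .z)) (.s 0x3aea88a221d51144423b95ff800 4095 (n false (n true (n false (n true (z 124) e) e) e) (n false (n false (n true (n false (n false (n false (n false e e) (n false e e)) (n false (n false e e) (n false e e))) (n false e e)) e) (n true (n false (n false (n false (n false e e) (n false e e)) (n false (n false e e) (n false e e))) (n false e e)) e)) (n false e e))) (c 9 4110 v (u 16 15 (k v (k v (k v (k (c 48 4097 r (u 32 1 (k v (k v r)))) (k (c 48 4096 r (u 32 1 (k v (k v r)))) (k (c 48 4097 r (u 32 1 (k v (k v r)))) (k (c 48 4097 r (u 32 1 (k v (k v r)))) (k (c 32 4097 r (u 48 1 (k v (k v r)))) r))))))))))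
 (.s 0x3aea88a2213fbb00e153bee0088 4086 (n false (n false (n false (z 87) (n true (n false (n false (n false (n false e e) (n false e e)) (n false (n false e e) (n false e e))) (n false e e)) e)) (n true (n false e e) e)) (n false (n false (z 45) (n false e e)) (n false e e))) (u 9 2 (k (c 9 4094 v r) (k (u 8 1 (k v (k v r))) r)))
 .z .z) .z))) (.s 0x3beaa22888aa22888387caef800 4086 (n false (n false (n true (n true (n false (n false (n false (n false (n false e e) (n false e e)) (n false (n false e e) (n false e e))) (n false e e)) (n false (n false (n false (n false e e) (n false e e)) (n false (n false e e) (n false e e))) (n false e e))) e) e) (n true (n false e e) e)) (n true (n true (z 52) e) e)) (u 9 129 (k v (k v (k v (k v (k v r))))))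
 (.s 0x3b95fd400544511dd5114442e10 4081 (n false (n false (n true (z 156) e) (n false (n false (n false e e) (n false e e)) (n false (n false e e) (n false e e)))) (n true (n false (n false (n true (n false e e) e) (n false e e)) (n true (n false (n false (n false (n false e e) (n false e e)) (n false (n false e e) (n false e e))) (n false e e)) e)) e)) (u 8 1 (k v (k (c 24 4099 r (u 16 1 (k v (k v r)))) (k (c 16 4098 r (u 24 1 (k v (k v r)))) (k (c 16 4097 r (u 24 1 (k v (k v r)))) (k (c 16 4099 r (u 24 1 (k v (k v r)))) (k (c 16 4095 r (u 24 0 (k v (k v r)))) r)))))))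
 (.s 0x3aea88a221d51144423f9d7f800 4096 (n false (n true (n true (n true (z 121) e) e) e) (n false (n false (n true (n false (n false (n false (n false e e) (n false e e)) (n false (n false e e) (n false e e))) (n false e e)) e) (n true (n false (n false (n false (n false e e) (n false e e)) (n false (n false e e) (n false e e))) (n false e e)) e)) (n false e e))) (c 9 4110 v (u 16 36 (k v (k v (k (c 48 4099 r (u 32 1 (k v (k v r)))) (k (c 32 4097 r (u 48 1 (k v (k v r)))) (k (c 32 4095 r (u 48 0 (k v (k v r)))) (k (c 32 4095 r (u 48 0 (k v (k v r)))) r))))))))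
 (.s 0x3aea88a221d51144423b9d7f800 4095 (n false (n true (n false (n true (z 121) e) e) e) (n false (n false (n true (n false (n false (n false (n false e e) (n false e e)) (n false (n false e e) (n false e e))) (n false e e)) e) (n true (n false (n false (n false (n false e e) (n false e e)) (n false (n false e e) (n false e e))) (n false e e)) e)) (n false e e))) (c 9 4110 v (u 16 1 (k v (k (c 48 4099 r (u 32 1 (k v (k v r)))) (k (c 32 4097 r (u 48 1 (k v (k v r)))) (k (c 32 4095 r (u 48 0 (k v (k v r)))) (k (c 32 4095 r (u 48 0 (k v (k v r)))) r)))))))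
 .z .z) (.s 0x3b95fd400544511d5445111dc20 4083 (n false (n false (n true (z 156) e) (n false (n false (n false e e) (n false e e)) (n false (n false e e) (n false e e)))) (n true (n false (n true (n false (n true (n false e e) e) (n false e e)) e) (n false (n false (n false (n false e e) (n false e e)) (n false (n false e e) (n false e e))) (n false e e))) e)) (u 8 14 (k v (k v (k (c 16 4099 r (u 24 1 (k v (k v r)))) (k (c 16 4099 r (u 24 1 (k v (k v r)))) (k (c 16 4095 r (u 24 0 (k v (k v r)))) r))))))
 .z .z)) (.s 0x3be577c005511444775445110a0 4085 (n false (n true (n false (n true (n false (n false (n false (n false e e) (n false e e)) (n false (n false e e) (n false e e))) (n false e e)) e) (n false (n false e e) e)) e) (n false (n true (n true (z 52) e) e) (n false (n false (n false (n false e e) (n false e e)) (n false (n false e e) (n false e e))) (n false e e)))) (u 17 329 (k v (k v (k v (k v (k v (k v r)))))))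
 (.s 0x3baa228885445114faac02a2288 4094 (n false (n false (z 67) (n false (n false (n false e e) (n false e e)) (n false (n false e e) (n false e e)))) (n false (n true (n false (n false (n false (n false e e) (n false e e)) (n false (n false e e) (n false e e))) (n false e e)) e) (n false (n false (n false e e) (n false e e)) (n false (n false e e) (n false e e))))) (u 4 72 (k v (k v (k v (k (t 12 1 (u 8 1 (k v (k v r)))) (k (c 8 4101 r (u 12 0 (k v (k v r)))) (k r (k (c 2 4087 r v) (k (t 12 2 (c 2 4085 (c 3 4101 v (u 4 0 (k r r))) v)) (k (c 12 4101 r (u 8 1 (k v (k v r)))) (k (t 12 1 (u 8 10 (k v (k v (k v (k (c 24 4099 r (u 16 1 (k v (k v r)))) r)))))) (k (c 12 4102 r (u 8 1 (k v (k v r)))) (k (c 8 4101 r (u 12 1 (k v (k v r)))) (k (t 12 1 (u 8 3 (k v (k v (k (c 24 4099 r (u 16 1 (k v (k v r)))) r))))) (k (c 8 4101 r (u 12 1 (k v (k v r)))) r)))))))))))))))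
 .z .z) .z)) (.s 0x3e95fd4009dd5002ba577c010e0 4088 (n false (n false (n false (n true (n false (z 52) (n false e e)) e) (n true (n false e e) e)) e) (n true (n false (z 156) (z 5)) e)) (t 13 1 (u 9 20 (k (c 21 4101 v r) (k (u 32 408 (k v (k v (k v r)))) (k (c 32 4097 r v) (k (c 25 4099 r r) (k (c 17 4099 r r) r)))))))
 (.s 0x3e95fd4009dd5002aa22888ae10 4084 (n false (n true (n false (z 156) (z 5)) e) (n false (n false (n false (n true (n false e e) e) (n false e e)) e) (n false (n false (n false (n false e e) (n false e e)) (n false (n false e e) (n false e e))) (n false e e)))) (t 12 1 (u 8 1 (k v (k (c 24 4099 r (u 16 1 (k v (k v r)))) (k (c 16 4098 r (u 24 1 (k v (k v r)))) (k (c 16 4097 r (u 24 1 (k v (k v r)))) (k (c 16 4099 r (u 24 1 (k v (k v r)))) (k (c 16 4095 r (u 24 0 (k v (k v r)))) r))))))))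
 (.s 0x3beaa22888aa22888387cfeec00 4088 (n false (n true (n true (z 87) e) e) (n false (n true (n true (n false (n false (n false (n false (n false e e) (n false e e)) (n false (n false e e) (n false e e))) (n false e e)) (n false (n false (n false (n false e e) (n false e e)) (n false (n false e e) (n false e e))) (n false e e))) e) e) (n true (n false e e) e))) (c 33 4099 v (u 8 1 (k v (k v r))))
 .z .z) (.s 0x3e95fd4009dd5002aa22888ee10 4083 (n false (n true (n false (z 156) (z 5)) e) (n false (n true (n false (n true (n false e e) e) (n false e e)) e) (n false (n false (n false (n false e e) (n false e e)) (n false (n false e e) (n false e e))) (n false e e)))) (t 12 1 (u 8 1 (k v (k (c 24 4099 r (u 16 1 (k v (k v r)))) (k (c 16 4098 r (u 24 1 (k v (k v r)))) (k (c 16 4097 r (u 24 1 (k v (k v r)))) (k (c 16 4099 r (u 24 1 (k v (k v r)))) (k (c 16 4095 r (u 24 0 (k v (k v r)))) r))))))))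
 .z .z)) (.s 0x3e95fd4009fdd802aa22888ae10 4084 (n false (n true (n false (z 156) (z 87)) e) (n false (n false (n false (n true (n false e e) e) (n false e e)) e) (n false (n false (n false (n false e e) (n false e e)) (n false (n false e e) (n false e e))) (n false e e)))) (c 7 4099 v (u 8 8 (k (u 12 1 (k v (k v r))) (k (c 4 4066 (u 3 1 (k v (k v r))) v) (k (c 24 4099 r r) (k (c 16 4098 r r) (k (c 16 4097 r r) (k (c 16 4099 r r) r))))))))
 (.s 0x3e95fd4009dd5002ea88a221708 4085 (n false (n true (n false (z 156) (z 5)) e) (n false (n false (n true (n false e e) e) (n false e e)) (n true (n false (n false (n false (n false e e) (n false e e)) (n false (n false e e) (n false e e))) (n false e e)) e))) (t 12 1 (u 8 1 (k v (k (c 24 4099 r (u 16 1 (k v (k v r)))) (k (c 16 4098 r (u 24 1 (k v (k v r)))) (k (c 16 4097 r r) (k (c 16 4099 r (u 24 1 (k v (k v r)))) (k (c 16 4095 r (u 24 0 (k v (k v r)))) r))))))))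
 .z .z) .z))))

set_option maxRecDepth 100000 in
def N240 : NT :=
(.s 0x3ebaa228887544511085cbfb800 4092 (n false (n false (n true (z 46) e) e) (n true (n false (n false (n true (n false (n false (n false (n false e e) (n false e e)) (n false (n false e e) (n false e e))) (n false e e)) e) (n true (n false (n false (n false (n false e e) (n false e e)) (n false (n false e e) (n false e e))) (n false e e)) e)) (n false e e)) e)) (u 8 6 (k v (k v (k (u 16 1 (k v (k v r))) (k (c 24 4099 r (u 16 0 (k v (k v r)))) (k (u 16 1 (k v (k v r))) (k (c 24 4097 r (u 16 1 (k v (k v r)))) r)))))))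
 (.s 0x3e9dd7004aef8015d5114443870 4086 (n false (n true (n false (z 52) (z 37)) e) (n false (n false (n true (n false (n false (n false (n false e e) (n false e e)) (n false (n false e e) (n false e e))) (n false e e)) e) (n true (n false e e) e)) (n true (n false e e) e))) (u 8 321 (k (t 12 1 v) (k (t 12 1 v) (k (c 4 4085 r v) (k (c 13 4094 v (u 12 13 (k v (k v r)))) (k (u 12 13 (k v (k v r))) r))))))
 (.s 0x3e9dd5004ebec015d5114443870 4084 (n false (n true (n false (z 89) (z 5)) e) (n false (n false (n true (n false (n false (n false (n false e e) (n false e e)) (n false (n false e e) (n false e e))) (n false e e)) e) (n true (n false e e) e)) (n true (n false e e) e))) (c 12 4099 r (u 8 67 (k v (k v (k r (k r (k r (k (t 24 3 (u 16 0 (k v (k v r)))) (k (t 16 1 (c 17 4099 v (c 7 4094 v (u 24 2 (k v (k v r)))))) (k (t 24 2 (c 17 4099 v (c 7 4094 v (u 16 27 (k v (k v r)))))) r))))))))))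
 (.s 0x3e9d7f804aef8015d5114443870 4086 (n false (n false (n false (n true (n false (n false (n false (n false e e) (n false e e)) (n false (n false e e) (n false e e))) (n false e e)) e) (n true (n false e e) e)) (n true (n false e e) e)) (n true (n false (z 121) (z 52)) e)) (u 9 36 (k r (k r (k (c 25 4099 r r) (k (c 17 4097 r (u 25 1 (k r (k r r)))) (k (c 17 4095 r (u 25 0 (k r (k r r)))) (k (c 17 4095 r (u 25 0 (k r (k r r)))) r)))))))
 (.s 0x3e97f7004aef8015d5114443870 4086 (n false (n true (n false (z 46) (z 52)) e) (n false (n false (n true (n false (n false (n false (n false e e) (n false e e)) (n false (n false e e) (n false e e))) (n false e e)) e) (n true (n false e e) e)) (n true (n false e e) e))) (u 8 10 (k (c 17 4099 v (c 7 4094 v r)) (k (c 24 4099 r (u 16 0 (k r (k r r)))) (k (u 12 26 (k (c 2 4083 r v) (k (c 17 4099 v (c 7 4094 v (u 16 1 (k v (k v r))))) (k (u 16 1 (k v (k v r))) r)))) r))))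
 .z .z) (.s 0x3e9dd5004ebac01551144455110 4092 (n false (n false (n false (n false (n false (n false e e) (n false e e)) (n false e e)) e) (n false (n false (n false (n false e e) (n false e e)) (n false (n false e e) (n false e e))) (n false e e))) (n true (n false (z 73) (z 5)) e)) (t 13 1 (c 10 4101 v (c 21 4101 v (c 8 4091 v (c 3 4080 (u 4 0 (k r r)) v)))))
 .z .z)) (.s 0x3e9dd5004ebfc01dcfeec015110 4089 (n false (n true (n false (z 121) (z 5)) e) (n true (n false (n true (z 87) e) (n false (n false (n false e e) (n false e e)) (n false e e))) e)) (t 12 1 (u 8 15 (k (u 17 1 (k v (k v r))) (k (c 20 4101 v (u 17 1 (k v (k v r)))) (k (c 20 4101 v r) (k (c 24 4099 r (u 17 1 (k (u 16 1 (k v (k v r))) (k (u 16 1 (k v (k v r))) r)))) r))))))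
 (.s 0x3e9dd5004ebfc014faac02a2288 4096 (n false (n true (n false (z 121) (z 5)) e) (n false (z 67) (n false (n false (n false e e) (n false e e)) (n false (n false e e) (n false e e))))) (t 12 1 (u 8 56 (k (c 12 4099 v r) (k r (k (c 24 4099 r r) (k (c 16 4095 r r) (k (c 16 4095 r r) r)))))))
 .z .z) .z)) (.s 0x3ea7f7c009fdd802aa22888ee10 4083 (n false (n true (n false (n false (z 55) e) (z 87)) e) (n false (n true (n false (n true (n false e e) e) (n false e e)) e) (n false (n false (n false (n false e e) (n false e e)) (n false (n false e e) (n false e e))) (n false e e)))) (u 16 9 (k (c 7 4099 v (u 12 1 (k v (k v r)))) (k (u 12 0 (k v (k v r))) r)))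
 (.s 0x3e9fdd804ebfc01dcfeec015110 4089 (n false (n true (n false (z 121) (z 87)) e) (n true (n false (n true (z 87) e) (n false (n false (n false e e) (n false e e)) (n false e e))) e)) (u 8 34 (k r (k (t 12 1 r) (k r (k (t 12 1 (u 17 1 (k v (k v r)))) r)))))
 (.s 0x3e9dd7004eea8014faac02a2288 4096 (n false (n false (z 67) (n false (n false (n false e e) (n false e e)) (n false (n false e e) (n false e e)))) (n true (n false (z 37) (z 5)) e)) (t 13 1 (u 4 118 (k (t 9 1 v) (k (t 9 1 v) (k (t 9 1 v) (k (c 12 4099 r r) (k (c 8 4099 r r) (k (c 12 4099 r r) (k (c 12 4099 r r) (k (c 12 4099 r r) (k (c 12 4099 r r) r)))))))))))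
 .z .z) (.s 0x3ea7d5c009fdd802aa22888ee10 4083 (n false (n true (n false (z 87) (n false (z 35) e)) e) (n false (n true (n false (n true (n false e e) e) (n false e e)) e) (n false (n false (n false (n false e e) (n false e e)) (n false (n false e e) (n false e e))) (n false e e)))) (u 20 29 (k (c 7 4099 v (u 8 1 (k v (k v r)))) (k (c 7 4099 v (u 8 1 (k v (k v r)))) (k (c 8 4099 r v) (k (u 8 1 (k v (k v r))) r)))))
 .z .z)) (.s 0x3ebaa228887544511085caffc00 4092 (n false (n false (n true (z 124) e) e) (n true (n false (n false (n true (n false (n false (n false (n false e e) (n false e e)) (n false (n false e e) (n false e e))) (n false e e)) e) (n true (n false (n false (n false (n false e e) (n false e e)) (n false (n false e e) (n false e e))) (n false e e)) e)) (n false e e)) e)) (u 8 4 (k v (k v (k (c 24 4097 r (u 16 1 (k v (k v r)))) (k (c 24 4096 r (u 16 1 (k v (k v r)))) (k (c 16 4098 r (u 24 0 (k v (k v r)))) (k (c 24 4096 r (u 16 1 (k v (k v r)))) (k (c 24 4097 r (u 16 1 (k v (k v r)))) (k (c 24 4097 r (u 16 1 (k v (k v r)))) (k (c 24 4096 r (u 16 1 (k v (k v r)))) (k (c 16 4097 r (u 24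 1 (k v (k v r)))) r)))))))))))
 (.s 0x3eaa22888fb840a7754012bff00 4085 (n false (n false (z 124) (z 5)) (n true (n false (n true (n true (n false (n true (n false e e) e) (n false e e)) e) e) (n false (n false (n false (n false e e) (n false e e)) (n false (n false e e) (n false e e))) (n false e e))) e)) (t 6 1 (c 21 4101 v (u 4 6 (k v (k v (k (c 12 4097 r (u 8 1 (k v (k v r)))) (k (c 12 4096 r (u 8 1 (k v (k v r)))) (k (c 12 4097 r (u 8 1 (k v (k v r)))) r))))))))
 .z .z) .z))) (.s 0x3ee7d5c009fdd802aa22888ee10 4085 (n false (n true (n false (z 87) (n true (z 35) e)) e) (n false (n true (n false (n true (n false e e) e) (n false e e)) e) (n false (n false (n false (n false e e) (n false e e)) (n false (n false e e) (n false e e))) (n false e e)))) (u 20 35 (k (u 8 1 (k v (k v r))) (k (c 7 4099 v (u 8 1 (k v (k v r)))) (k (c 7 4099 v (u 8 10 (k v (k v (k v r))))) (k (c 4 4080 (u 2 1 (k v (k v r))) v) r)))))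
 (.s 0x3ebaa228887544511087cebfc00 4094 (n false (n true (n false (n false (n true (n false (n false (n false (n false e e) (n false e e)) (n false (n false e e) (n false e e))) (n false e e)) e) (n true (n false (n false (n false (n false e e) (n false e e)) (n false (n false e e) (n false e e))) (n false e e)) e)) (n false e e)) e) (n true (n true (z 121) e) e)) (u 9 4 (k v (k v (k (c 25 4099 r (u 17 1 (k v (k v r)))) (k (c 17 4097 r (u 25 1 (k v (k v r)))) r)))))
 (.s 0x3ebaa228887544511085cfbec00 4092 (n false (n false (n true (z 91) e) e) (n true (n false (n false (n true (n false (n false (n false (n false e e) (n false e e)) (n false (n false e e) (n false e e))) (n false e e)) e) (n true (n false (n false (n false (n false e e) (n false e e)) (n false (n false e e) (n false e e))) (n false e e)) e)) (n false e e)) e)) (c 17 4110 v (u 8 2 (k v (k v (k (u 16 1 (k v (k v r))) (k (c 16 4097 r (u 24 0 (k v (k v r)))) (k (c 16 4097 r (u 24 0 (k v (k v r)))) (k (c 16 4096 r (u 24 0 (k v (k v r)))) (k (c 16 4095 r (u 24 0 (k v (k v r)))) r)))))))))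
 (.s 0x3ebaa228887544511085cebfc00 4092 (n false (n false (n true (z 121) e) e) (n true (n false (n false (n true (n false (n false (n false (n false e e) (n false e e)) (n false (n false e e) (n false e e))) (n false e e)) e) (n true (n false (n false (n false (n false e e) (n false e e)) (n false (n false e e) (n false e e))) (n false e e)) e)) (n false e e)) e)) (u 8 4 (k v (k v (k (c 24 4099 r (u 16 1 (k v (k v r)))) (k (c 16 4097 r (u 24 1 (k v (k v r)))) r)))))
 .z .z) (.s 0x3ebaa228887544511087caffc00 4094 (n false (n true (n true (z 124) e) e) (n true (n false (n false (n true (n false (n false (n false (n false e e) (n false e e)) (n false (n false e e) (n false e e))) (n false e e)) e) (n true (n false (n false (n false (n false e e) (n false e e)) (n false (n false e e) (n false e e))) (n false e e)) e)) (n false e e)) e)) (c 17 4110 v (u 8 1 (k v (k (c 24 4097 r (u 16 1 (k v (k v r)))) (k (c 24 4096 r (u 16 1 (k v (k v r)))) (k (c 16 4098 r (u 24 0 (k v (k v r)))) (k (c 24 4096 r (u 16 1 (k v (k v r)))) (k (c 24 4097 r (u 16 1 (k v (k v r)))) (k (c 24 4097 r (u 16 1 (k v (k v r)))) (k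 (c 24 4096 r (u 16 1 (k v (k v r)))) (k (c 24 4099 r (u 16 1 (k v (k v r)))) (k (c 16 4097 r (u 24 1 (k v (k v r)))) r))))))))))))
 .z .z)) (.s 0x3ebaa228887544511087cfeac00 4093 (n false (n true (n true (z 71) e) e) (n true (n false (n false (n true (n false (n false (n false (n false e e) (n false e e)) (n false (n false e e) (n false e e))) (n false e e)) e) (n true (n false (n false (n false (n false e e) (n false e e)) (n false (n false e e) (n false e e))) (n false e e)) e)) (n false e e)) e)) (u 8 1 (k v (k (c 24 4099 r (u 16 1 (k v (k v r)))) (k (u 16 0 (k v (k v r))) (k (c 16 4099 r (u 24 1 (k v (k v r)))) (k (c 16 4099 r (u 24 1 (k v (k v r)))) (k (c 16 4099 r (u 24 1 (k v (k v r)))) r)))))))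
 (.s 0x3ebaa228887544511087cfbec00 4094 (n false (n true (n true (z 91) e) e) (n true (n false (n false (n true (n false (n false (n false (n false e e) (n false e e)) (n false (n false e e) (n false e e))) (n false e e)) e) (n true (n false (n false (n false (n false e e) (n false e e)) (n false (n false e e) (n false e e))) (n false e e)) e)) (n false e e)) e)) (c 17 4110 v (u 8 1 (k v (k v (k v (k (u 16 1 (k v (k v r))) (k (c 16 4097 r (u 24 0 (k v (k v r)))) (k (c 16 4095 r (u 24 0 (k v (k v r)))) r))))))))
 .z .z) .z)) (.s 0x3fa9df7004aaa80257f5000ee10 4085 (n false (n true (n true (n false (z 156) (n false (z 45) (z 0))) e) e) (n true (n false (n true (n false e e) e) (n false e e)) e)) (t 56 1 (u 16 8 (k (u 40 2 (k v (k v r))) (k (c 8 4064 (u 5 0 (k v (k v r))) v) (k (c 48 4099 r r) (k (c 32 4098 r r) (k (c 32 4097 r (u 40 2 (k (u 48 1 (k v (k v r))) (k (u 48 1 (k v (k v r))) r)))) (k (c 32 4099 r r) r))))))))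
 (.s 0x3efaa88a222a88a220e0e75fe00 4087 (n false (n true (z 121) e) (n true (n false (n true (n true (n false (n false (n false (n false (n false e e) (n false e e)) (n false (n false e e) (n false e e))) (n false e e)) (n false (n false (n false (n false e e) (n false e e)) (n false (n false e e) (n false e e))) (n false e e))) e) e) (n true (n false e e) e)) e)) (u 4 2 (k v (k v (k (c 12 4099 r (u 8 1 (k v (k v r)))) (k (c 8 4095 r (u 12 0 (k v (k v r)))) (k (c 8 4095 r (u 12 0 (k v (k v r)))) r))))))
 (.s 0x3efaa88a222a88a220e0e5fdc00 4087 (n false (n true (z 46) e) (n true (n false (n true (n true (n false (n false (n false (n false (n false e e) (n false e e)) (n false (n false e e) (n false e e))) (n false e e)) (n false (n false (n false (n false e e) (n false e e)) (n false (n false e e) (n false e e))) (n false e e))) e) e) (n true (n false e e) e)) e)) (u 4 2 (k v (k (c 12 4099 r (u 8 0 (k v (k v r)))) (k (u 8 1 (k v (k v r))) (k (u 8 0 (k v (k v r))) (k (c 12 4097 r (u 8 1 (k v (k v r)))) (k (c 8 4095 r (u 12 1 (k v (k v r)))) r)))))))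
 .z .z) (.s 0x3efaa88a222a88a220e0e775c00 4087 (n false (n true (n false (n true (n true (n false (n false (n false (n false (n false e e) (n false e e)) (n false (n false e e) (n false e e))) (n false e e)) (n false (n false (n false (n false e e) (n false e e)) (n false (n false e e) (n false e e))) (n false e e))) e) e) (n true (n false e e) e)) e) (n true (z 37) e)) (u 5 0 (k v (k (u 9 0 (k (t 17 3 (t 25 1 v)) r)) (k (u 9 0 (k (t 17 3 (t 25 1 v)) r)) (k (u 9 10 (k v (k v (k v (k (t 25 1 (u 17 0 (k (t 33 3 (t 49 1 v)) r))) r))))) (k (u 9 0 (k v (k v (k (t 25 1 (u 17 0 (k (t 33 3 (t 49 1 v)) r))) r)))) (k (c 3 4088 r v) r)))))))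
 .z .z)) (.s 0x1d2bfa8012bbe00aa88a222a2288 4094 (n false (n false (z 156) (z 52)) (n false (n false (n false (n false (n false e e) (n false e e)) (n false (n false e e) (n false e e))) (n false e e)) (n false (n false (n false e e) (n false e e)) (n false (n false e e) (n false e e))))) (u 4 23 (k (c 5 4099 v r) (k (c 6 4097 r v) (k (c 2 4064 r v) (k (c 8 4099 r r) (k (c 8 4099 r r) r))))))
 (.s 0x3fb9fdd802a220a7754013aff00 4089 (n false (n false (z 121) (z 5)) (n true (n true (n false (n true (z 87) e) (n false (n false (n false e e) (n false e e)) (n false e e))) e) e)) (t 6 1 (u 4 29 (k (u 33 1 (k v (k v r))) (k (c 10 4101 v r) (k (c 10 4101 v r) (k (c 12 4099 r r) r))))))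
 .z .z) .z))))

set_option maxRecDepth 100000 in
def N241 : NT :=
(.s 0x1d73fbb004feec015d5114443870 4081 (n false (n false (n false (n true (z 87) e) (z 87)) e) (n false (n false (n true (n false (n false (n false (n false e e) (n false e e)) (n false (n false e e) (n false e e))) (n false e e)) e) (n true (n false e e) e)) (n true (n false e e) e))) (u 16 6 (k (u 12 1 (k v (k v r))) (k r (k (u 12 1 (k v (k v r))) r))))
 (.s 0x1d551144455114444faac02ee108 4084 (n false (n false (z 67) (n false (n false (n false (n false (n false e e) (n false e e)) (n false (n false e e) (n false e e))) (n false e e)) (n false (n false (n false (n false e e) (n false e e)) (n false (n false e e) (n false e e))) (n false e e)))) (n false (n true (n false (n true (n false e e) e) (n false e e)) e) (n false e e))) (u 4 157 (k v (k v (k v (k (c 8 4101 r (c 10 4099 v (u 12 0 (k v (k v r))))) (k (c 10 4099 v (u 8 7 (k v (k v (k v (k (c 24 4099 r (u 16 1 (k v (k v r)))) r)))))) (k (c 12 4101 r r) (k (c 12 4102 r r) (k (c 8 4101 r r) (k (c 8 4101 r r) r))))))))))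
 (.s 0x1d52bae0095550075445110e1708 4074 (n false (n false (n false (n false (z 36) (z 0)) (n true (n false (n false (n false (n false e e) (n false e e)) (n false (n false e e) (n false e e))) (n false e e)) e)) (n true (n false e e) e)) (n false (n true (n false e e) e) (n false e e))) (t 24 1 (u 16 0 (k (u 32 2 (k v (k (c 12 4110 v (u 64 1 (k v (k v r)))) r))) r)))
 (.s 0x1d4eea80275fe015114453bee008 4094 (n false (n false (n false (z 121) (z 5)) (n false (n false (n false e e) (n false e e)) (n false (n false e e) (n false e e)))) (n false (z 45) (n false e e))) (t 12 1 (u 8 29 (k (u 5 2 (k v (k v r))) (k (c 12 4099 v (t 5 1 v)) (k (t 5 1 v) (k (c 24 4099 r r) r))))))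
 (.s 0x1d2bfa8013fbb00fb9fdd802a220 4089 (n false (n false (z 156) (z 87)) (n true (n true (n false (n true (z 87) e) (n false (n false (n false e e) (n false e e)) (n false e e))) e) e)) (u 4 20 (k (t 6 1 r) (k r (k (c 2 4066 (u 3 1 (k v (k v r))) (c 5 4091 r v)) (k (c 12 4099 r r) (k (c 8 4099 r r) r))))))
 .z .z) (.s 0x1d4eeb8027754015114453bee008 4094 (n false (n false (n false (z 37) (z 5)) (n false (n false (n false e e) (n false e e)) (n false (n false e e) (n false e e)))) (n false (z 45) (n false e e))) (t 12 1 (u 8 1 (k (c 12 4099 v (t 5 1 v)) (k (u 5 2 (k v (k v r))) r))))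
 .z .z)) (.s 0x1d54451114fef8015d5114443870 4084 (n false (n false (n false (z 55) e) (n false (n false (n false (n false e e) (n false e e)) (n false (n false e e) (n false e e))) (n false e e))) (n false (n false (n true (n false (n false (n false (n false e e) (n false e e)) (n false (n false e e) (n false e e))) (n false e e)) e) (n true (n false e e) e)) (n true (n false e e) e))) (c 10 4101 v (c 13 4094 v (u 8 4 (k (t 24 1 (c 6 4094 v (u 16 27 (k v (k v (k (c 48 4099 r (t 32 3 v)) (k (c 2 4088 r v) (k (u 32 4 (k v (k (t 96 1 (u 64 4 (k v (k v r)))) r))) (k (c 2 4082 r v) r))))))))) (k (c 9 4110 v r) r)))))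
 (.s 0x1d54451114fab8015d5114443870 4084 (n false (n false (n false (z 35) e) (n false (n false (n false (n false e e) (n false e e)) (n false (n false e e) (n false e e))) (n false e e))) (n false (n false (n true (n false (n false (n false (n false e e) (n false e e)) (n false (n false e e) (n false e e))) (n false e e)) e) (n true (n false e e) e)) (n true (n false e e) e))) (u 8 2 (k v (k v (k v (k (t 24 1 (u 16 0 (k (t 32 3 (t 48 1 v)) r))) r)))))
 .z .z) .z)) (.s 0x1d5d5114442a88a2239fdf002288 4085 (n false (n false (n false (n false (n true (n false (n false (n false (n false e e) (n false e e)) (n false (n false e e) (n false e e))) (n false e e)) e) (n false (n false (n false (n false e e) (n false e e)) (n false (n false e e) (n false e e))) (n false e e))) (n true (z 55) e)) (n false e e)) (n false (n false e e) (n false e e))) (u 20 6 (k v (k (t 52 1 (u 36 40 (k v (k (t 68 3 (t 100 1 v)) r)))) r)))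
 (.s 0x1d5d51144422888a7754013afb00 4094 (n false (n false (z 89) (z 5)) (n false (n false (n false (n true (n false (n false (n false (n false e e) (n false e e)) (n false (n false e e) (n false e e))) (n false e e)) e) (n false e e)) (n false (n false e e) (n false e e))) (n false e e))) (t 6 2 (u 4 33 (k v (k v (k v (k v (k (t 12 3 (u 8 208 (k v (k v (k v (k v (k v r))))))) (k (c 12 4110 r (u 8 1 (k v (k v r)))) (k (t 8 1 (c 6 4094 v (u 12 2 (k v (k v r))))) (k (t 12 2 (c 6 4094 v (u 8 19 (k v (k v (k v r)))))) r))))))))))
 (.s 0x1d5d5114442239fdd803a77dc010 4085 (n false (n false (n true (z 87) e) (n false (n false (n true (n false (n false (n false (n false e e) (n false e e)) (n false (n false e e) (n false e e))) (n false e e)) e) (n false e e)) (n false e e))) (n true (n false (z 45) (n false e e)) e)) (u 9 0 (k (u 8 1 (k v (k v r))) (k (u 8 1 (k v (k v r))) r)))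
 .z .z) (.s 0x1d5d5114442a88a2239777002288 4089 (n false (n false (n false (n true (z 42) e) (n false (n true (n false (n false (n false (n false e e) (n false e e)) (n false (n false e e) (n false e e))) (n false e e)) e) (n false (n false (n false (n false e e) (n false e e)) (n false (n false e e) (n false e e))) (n false e e)))) (n false e e)) (n false (n false e e) (n false e e))) (c 20 4110 v (c 2 4077 r v))
 .z .z)) (.s 0x1d5d5114443aa2288843e57f5000 4095 (n false (n true (n true (z 156) e) e) (n false (n false (n false (n true (n false (n false (n false (n false e e) (n false e e)) (n false (n false e e) (n false e e))) (n false e e)) e) (n true (n false (n false (n false (n false e e) (n false e e)) (n false (n false e e) (n false e e))) (n false e e)) e)) (n false e e)) e)) (c 17 4110 v (u 8 1 (k v (k (c 24 4099 r (u 16 1 (k v (k v r)))) (k (c 16 4098 r (u 24 1 (k v (k v r)))) (k (c 16 4097 r (u 24 1 (k v (k v r)))) (k (c 16 4099 r (u 24 1 (k v (k v r)))) (k (c 16 4095 r (u 24 0 (k v (k v r)))) r))))))))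
 (.s 0x1d5d5114443aa2288842e57f5000 4093 (n false (n false (n true (z 156) e) e) (n false (n false (n false (n true (n false (n false (n false (n false e e) (n false e e)) (n false (n false e e) (n false e e))) (n false e e)) e) (n true (n false (n false (n false (n false e e) (n false e e)) (n false (n false e e) (n false e e))) (n false e e)) e)) (n false e e)) e)) (u 8 5 (k v (k v (k (c 24 4099 r (u 16 1 (k v (k v r)))) (k (c 16 4098 r (u 24 1 (k v (k v r)))) (k (c 16 4097 r (u 24 1 (k v (k v r)))) (k (c 16 4099 r (u 24 1 (k v (k v r)))) r)))))))
 .z .z) .z))) (.s 0x1d75445110e5fd4008bea88a2208 4082 (n false (n false (n false (n true (z 14) e) (n true (n false (n false (n false (n false e e) (n false e e)) (n false (n false e e) (n false e e))) (n false e e)) e)) (n false e e)) (n false (n true (n true (n false (n false (n false (n false e e) (n false e e)) (n false (n false e e) (n false e e))) (n false e e)) e) e) (n false e e))) (c 2 4083 (u 8 0 (k v (k v r))) v)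
 (.s 0x1d754451109fdd8070bea88a2208 4080 (n false (n false (n false (z 87) (n true (n false (n false (n false (n false e e) (n false e e)) (n false (n false e e) (n false e e))) (n false e e)) e)) (n true (n false e e) e)) (n false (n true (n true (n false (n false (n false (n false e e) (n false e e)) (n false (n false e e) (n false e e))) (n false e e)) e) e) (n false e e))) (c 6 4094 v (u 8 1 (k v (k v r))))
 (.s 0x1d7544511095df0070bea88a2208 4078 (n false (n false (n false (z 52) (n true (n false (n false (n false (n false e e) (n false e e)) (n false (n false e e) (n false e e))) (n false e e)) e)) (n true (n false e e) e)) (n false (n true (n true (n false (n false (n false (n false e e) (n false e e)) (n false (n false e e) (n false e e))) (n false e e)) e) e) (n false e e))) (u 8 355 (k v (k v (k v (k v (k v (k v r)))))))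
 (.s 0x1d7544511095df0055114447dc20 4084 (n false (n false (n false (z 52) (n true (n false (n false (n false (n false e e) (n false e e)) (n false (n false e e) (n false e e))) (n false e e)) e)) (n false (n false (n false (n false e e) (n false e e)) (n false (n false e e) (n false e e))) (n false e e))) (n true (n true (n false (n true (n false e e) e) (n false e e)) e) e)) (u 8 45 (k v (k v (k v (k v r)))))
 .z .z) (.s 0x1d7544511097f50055114445d108 4089 (n false (n false (n false (z 14) (n true (n false (n false (n false (n false e e) (n false e e)) (n false (n false e e) (n false e e))) (n false e e)) e)) (n false (n false (n false (n false e e) (n false e e)) (n false (n false e e) (n false e e))) (n false e e))) (n false (n true (n false (n false e e) (n false e e)) e) (n false e e))) (c 10 4101 v (u 8 3 (k v (k v (k v r)))))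
 .z .z)) (.s 0x1d75445110e15445111f4aef8020 4088 (n false (n true (n true (n false (z 52) (n false e e)) e) e) (n false (n false (n true (n false (n false (n false (n false e e) (n false e e)) (n false (n false e e) (n false e e))) (n false e e)) e) (n true (n false e e) e)) (n false (n false (n false (n false e e) (n false e e)) (n false (n false e e) (n false e e))) (n false e e)))) (c 11 4101 v (c 13 4094 v r))
 (.s 0x1d75445110a888aa22888e7d5600 4090 (n false (n false (n false (n false (n false (n false e e) (n false e e)) (n false e e)) (n true (n false (n false (n false (n false e e) (n false e e)) (n false (n false e e) (n false e e))) (n false e e)) e)) (n false (n false (n false (n false e e) (n false e e)) (n false (n false e e) (n false e e))) (n false e e))) (n true (z 67) e)) (u 5 130 (k v (k v (k v (k v (k v (k v (k (t 13 1 (u 9 1 (k v (k v r)))) (k (c 9 4101 r (u 13 0 (k v (k v r)))) (k r (k (c 10 4101 v (c 3 4088 r v)) (k (t 13 1 (u 9 0 (k (u 17 0 (k v (k v r))) r))) (k (c 13 4101 r (u 9 1 (k v (k v r)))) (k (t 13 1 (u 9 9 (k v (k v (k v (k (c 25 4099 r (u 17 1 (k v (k v r)))) r))))))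 (k (c 13 4102 r (u 9 1 (k v (k v r)))) (k (c 9 4101 r (u 13 1 (k v (k v r)))) (k (t 13 1 (u 9 22 (k v (k v (k v (k (c 25 4099 r (u 17 1 (k v (k v r)))) r)))))) (k (c 9 4101 r (u 13 1 (k v (k v r)))) r))))))))))))))))))
 .z .z) .z)) (.s 0x1dcbbb8015445111dd5114442e10 4085 (n false (n false (n true (z 42) e) (n false (n false (n false (n false e e) (n false e e)) (n false (n false e e) (n false e e))) (n false e e))) (n true (n false (n false (n true (n false e e) e) (n false e e)) (n true (n false (n false (n false (n false e e) (n false e e)) (n false (n false e e) (n false e e))) (n false e e)) e)) e)) (c 3 4092 v (c 10 4101 v r))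
 (.s 0x1d75445110ea88a2211dcafea000 4095 (n false (n true (n false (n true (z 156) e) e) e) (n false (n false (n true (n false (n false (n false (n false e e) (n false e e)) (n false (n false e e) (n false e e))) (n false e e)) e) (n true (n false (n false (n false (n false e e) (n false e e)) (n false (n false e e) (n false e e))) (n false e e)) e)) (n false e e))) (c 9 4110 v (u 16 8 (k v (k v (k (c 48 4099 r (u 32 1 (k v (k v r)))) (k (c 32 4098 r (u 48 1 (k v (k v r)))) (k (c 32 4097 r (u 48 1 (k v (k v r)))) (k (c 32 4099 r (u 48 1 (k v (k v r)))) r))))))))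
 (.s 0x1d75445110e7f76008bea88a2208 4082 (n false (n false (n false (n true (z 87) e) (n true (n false (n false (n false (n false e e) (n false e e)) (n false (n false e e) (n false e e))) (n false e e)) e)) (n false e e)) (n false (n true (n true (n false (n false (n false (n false e e) (n false e e)) (n false (n false e e) (n false e e))) (n false e e)) e) e) (n false e e))) (c 2 4085 (u 8 1 (k v (k v r))) v)
 .z .z) (.s 0x1d75445110ea88a2211fcafea000 4096 (n false (n true (n true (n true (z 156) e) e) e) (n false (n false (n true (n false (n false (n false (n false e e) (n false e e)) (n false (n false e e) (n false e e))) (n false e e)) e) (n true (n false (n false (n false (n false e e) (n false e e)) (n false (n false e e) (n false e e))) (n false e e)) e)) (n false e e))) (c 9 4110 v (u 16 1 (k v (k (c 48 4099 r (u 32 1 (k v (k v r)))) (k (c 32 4098 r (u 48 1 (k v (k v r)))) (k (c 32 4097 r (u 48 1 (k v (k v r)))) (k (c 32 4099 r (u 48 1 (k v (k v r)))) (k (c 32 4095 r (u 48 0 (k v (k v r)))) r))))))))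
 .z .z)) (.s 0x1dcfeec013fbb00fb9fdd802a220 4086 (n false (n false (z 87) (n true (z 87) e)) (n true (n true (n false (n true (z 87) e) (n false (n false (n false e e) (n false e e)) (n false e e))) e) e)) (u 4 0 (k (u 33 1 (k (u 10 1 (k v (k v r))) (k (u 10 1 (k v (k v r))) r))) (k (c 17 4098 (u 2 0 (k v (k v r))) (c 10 4099 r v)) r)))
 (.s 0x1dcfeec012bbe00aa88a222a2288 4091 (n false (n false (n true (z 87) e) (z 52)) (n false (n false (n false (n false (n false e e) (n false e e)) (n false (n false e e) (n false e e))) (n false e e)) (n false (n false (n false e e) (n false e e)) (n false (n false e e) (n false e e))))) (u 6 199 (k (u 8 1 (k v (k v r))) (k (c 5 4099 v (u 8 1 (k v (k v r)))) (k (c 8 4099 r v) (k (c 8 4099 r v) (k (t 14 1 r) r))))))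
 .z .z) .z))))

end Pool.Agent.Helper91.ND1
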