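import Pool.Agent.Helper66.ND.Defs

/-! part of the certificate for the constant 25/48 (generated) -/

namespace Pool.Agent.Helper91.ND1

open Pool.Agent.Helper66.IL
open Pool.Agent.Helper66.ND
open Pool.Agent.Helper66.ND.LT
open Pool.Agent.Helper66.ND.Ct

set_option maxRecDepth 100000 in
def N242 : NT :=
(.s 0x1f4eea8025fdc00aa88a223ba210 4087 (n false (n true (n false (z 46) (z 5)) e) (n false (n true (n false (n true (n false (n false e e) (n false e e)) e) (n false e e)) e) (n false (n false (n false (n false e e) (n false e e)) (n false (n false e e) (n false e e))) (n false e e)))) (t 12 1 (u 8 1 (k v (k (u 16 1 (k v (k v r))) (k (c 24 4099 r (u 16 0 (k v (k v r)))) (k (c 2 4088 (c 10 4101 v r) v) (k (c 24 4097 r (u 16 1 (k v (k v r)))) (k (c 16 4095 r (u 24 1 (k v (k v r)))) r))))))))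
 (.s 0x1f4afea004aef8015d5114443870 4086 (n false (n false (n false (n true (n false (n false (n false (n false e e) (n false e e)) (n false (n false e e) (n false e e))) (n false e e)) e) (n true (n false e e) e)) (n true (n false e e) e)) (n true (n false (z 156) (z 52)) e)) (u 9 8 (k r (k (c 5 4064 r v) (k (c 25 4099 r r) (k (c 17 4098 r r) (k (c 17 4097 r (u 25 1 (k r (k r r)))) (k (c 17 4099 r r) r)))))))
 (.s 0x1dd53eea0095d78021f544511050 4069 (n false (n false (n true (n false (n false (n false (z 100) (z 11)) e) (n false e e)) e) (n true (n true (n false (n false (n false (n false e e) (n false e e)) (n false (n false e e) (n false e e))) (n false e e)) e) e)) (n false (n false e e) e)) (t 96 2 (u 64 0 (k (c 192 4096 r r) (k (c 192 4096 r (c 18 4099 v r)) (k (c 192 4096 r (c 18 4099 v r)) (k (c 192 4097 r (u 128 7 (k v (k v (k v (k (c 384 4099 r (u 256 1 (k v (k v r)))) r)))))) (k (c 192 4096 r r) (k (c 192 4096 r r) r))))))))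
 (.s 0x1dd5114442a2288a7754013afb00 4094 (n false (n false (z 89) (z 5)) (n false (n true (n false (n false (n false (n false e e) (n false e e)) (n false (n false e e) (n false e e))) (n false e e)) e) (n false (n false (n false e e) (n false e e)) (n false (n false e e) (n false e e))))) (t 6 2 (u 4 34 (k v (k v (k v (k v (k (t 12 3 (u 8 208 (k v (k v (k v (k v (k v r))))))) (k (c 12 4110 r (u 8 1 (k v (k v r)))) (k (t 12 2 (c 6 4094 v (u 8 19 (k v (k v (k v r)))))) r)))))))))
 (.s 0x1dd5114442a2288a7754012eee00 4095 (n false (n false (z 42) (z 5)) (n false (n true (n false (n false (n false (n false e e) (n false e e)) (n false (n false e e) (n false e e))) (n false e e)) e) (n false (n false (n false e e) (n false e e)) (n false (n false e e) (n false e e))))) (t 6 1 (u 4 17 (k v (k v (k v (k v (k (t 8 3 (t 12 1 v)) (k (c 12 4110 r (c 10 4101 v (u 8 0 (k v (k v r))))) (k (c 12 4110 r (c 10 4101 v (u 8 1 (k v (k v r))))) (k (c 12 4110 r (c 10 4101 v (u 8 1 (k v (k v r))))) r))))))))))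
 .z .z) (.s 0x1dd53aff0095550021f544511050 4067 (n false (n false (n true (n false (n false (n false (z 121) (z 0)) e) (n false e e)) e) (n true (n true (n false (n false (n false (n false e e) (n false e e)) (n false (n false e e) (n false e e))) (n false e e)) e) e)) (n false (n false e e) e)) (t 96 1 (u 64 1 (k v (k (c 192 4099 r (u 128 1 (k v (k v r)))) (k (c 128 4097 r (c 18 4099 v (u 192 1 (k v (k v r))))) (k (c 128 4095 r (u 192 0 (k v (k v r)))) (k (c 128 4095 r (u 192 0 (k v (k v r)))) r)))))))
 .z .z)) (.s 0x1dd74eea8025ddc0055114442288 4088 (n false (n false (n true (n false (n false (n true (n false (z 42) (z 5)) e) e) (n false (n false (n false (n false e e) (n false e e)) (n false (n false e e) (n false e e))) (n false e e))) e) (n false e e)) (n false (n false e e) (n false e e))) (t 192 1 (u 128 45 (k v (k v (k v (k (c 64 4090 r v) (k (c 16 4089 (c 4 4090 r v) v) (k (c 16 4089 (c 4 4090 r v) v) r))))))))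
 (.s 0x1dd53eea009f578021f544511050 4069 (n false (n false (n true (n false (n false (n false (z 11) (z 99)) e) (n false e e)) e) (n true (n true (n false (n false (n false (n false e e) (n false e e)) (n false (n false e e) (n false e e))) (n false e e)) e) e)) (n false (n false e e) e)) (t 64 2 (u 96 0 (k (c 224 4096 r r) (k (c 224 4096 r (c 18 4099 v r)) (k (c 224 4096 r (c 18 4099 v r)) (k (c 224 4096 r r) (k (c 224 4096 r r) r)))))))
 .z .z) .z)) (.s 0x1f4afea004faf8015d5114443870 4088 (n false (n true (n false (z 51) (z 156)) e) (n false (n false (n true (n false (n false (n false (n false e e) (n false e e)) (n false (n false e e) (n false e e))) (n false e e)) e) (n true (n false e e) e)) (n true (n false e e) e))) (t 8 1 (u 12 32 (k v (k v (k v (k (c 28 4099 r (u 20 1 (k v (k v r)))) (k (c 20 4099 r (u 28 1 (k v (k v r)))) r)))))))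
 (.s 0x1f4afea004eea801551144455110 4090 (n false (n false (n false (n false (n false (n false e e) (n false e e)) (n false e e)) e) (n false (n false (n false (n false e e) (n false e e)) (n false (n false e e) (n false e e))) (n false e e))) (n true (n false (z 156) (z 5)) e)) (t 13 1 (u 9 14 (k v (k v (k (c 25 4099 r (u 17 1 (k v (k v r)))) (k (c 17 4099 r (u 25 1 (k v (k v r)))) (k (c 17 4095 r (u 25 0 (k v (k v r)))) r)))))))
 (.s 0x1f4afea004eea8014faac02a2288 4096 (n false (n false (z 67) (n false (n false (n false e e) (n false e e)) (n false (n false e e) (n false e e)))) (n true (n false (z 156) (z 5)) e)) (t 13 1 (u 9 3 (k (c 13 4099 v r) (k (u 4 0 (k v (k v r))) (k (c 17 4099 r r) r)))))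
 .z .z) (.s 0x1f4afea004eea801dcfeec015110 4089 (n false (n true (n false (z 156) (z 5)) e) (n true (n false (n true (z 87) e) (n false (n false (n false e e) (n false e e)) (n false e e))) e)) (t 12 1 (u 17 1 (k r (k (u 8 20 (k v (k v (k v (k (c 24 4099 r (u 16 1 (k v (k v r)))) (k (c 16 4099 r (u 24 1 (k v (k v r)))) r)))))) r))))
 .z .z)) (.s 0x1f4eea8025fdc00aa88a223aa220 4087 (n false (n false (n true (n false (n false (n false (n false e e) (n false e e)) (n false e e)) e) e) (n false (n false (n false (n false e e) (n false e e)) (n false (n false e e) (n false e e))) (n false e e))) (n true (n false (z 46) (z 5)) e)) (t 13 1 (u 9 1 (k v (k r (k (c 25 4099 r (u 17 0 (k v (k v r)))) (k (c 3 4088 (c 10 4101 v r) v) (k (c 25 4097 r r) (k (c 17 4095 r r) r))))))))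
 (.s 0x1f4afea004feec01dcfeec015110 4089 (n false (n true (n false (z 156) (z 87)) e) (n true (n false (n true (z 87) e) (n false (n false (n false e e) (n false e e)) (n false e e))) e)) (u 8 20 (k (t 12 1 r) (k r (k (c 4 4066 (u 3 1 (k v (k v r))) (c 3 4091 r v)) (k (c 24 4099 r r) (k (c 16 4099 r r) r))))))
 .z .z) .z))) (.s 0x1f4eeb8025fd400aa88a223ea220 4087 (n false (n true (n false (z 37) (z 14)) e) (n false (n true (n true (n false (n false (n false e e) (n false e e)) (n false e e)) e) e) (n false (n false (n false (n false e e) (n false e e)) (n false (n false e e) (n false e e))) (n false e e)))) (u 12 0 (k (c 9 4090 v (c 11 4101 v r)) (k (u 8 4 (k v (k v r))) r)))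
 (.s 0x1f4eea80275fe00ebaa2288870e0 4086 (n false (n true (n false (z 121) (z 5)) e) (n true (n false (n false (n true (n false (n false (n false (n false e e) (n false e e)) (n false (n false e e) (n false e e))) (n false e e)) e) (n true (n false e e) e)) (n true (n false e e) e)) e)) (t 12 1 (u 8 1 (k v (k (c 24 4099 r (u 16 1 (k v (k v r)))) (k (c 16 4097 r r) (k (c 16 4095 r (u 24 0 (k v (k v r)))) (k (c 16 4095 r (u 24 0 (k v (k v r)))) r)))))))
 (.s 0x1f4eea8025fdc00ebaa2288870e0 4086 (n false (n true (n false (n false (n true (n false (n false (n false (n false e e) (n false e e)) (n false (n false e e) (n false e e))) (n false e e)) e) (n true (n false e e) e)) (n true (n false e e) e)) e) (n true (n false (z 46) (z 5)) e)) (t 13 1 (u 9 19 (k v (k (c 25 4099 r (u 17 0 (k v (k v r)))) (k (c 3 4088 (c 10 4101 v r) v) (k (c 25 4097 r r) (k (c 17 4095 r r) r)))))))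
 (.s 0x1f4eea8025fdc00aa88a223ea220 4087 (n false (n true (n false (z 46) (z 5)) e) (n false (n true (n true (n false (n false (n false e e) (n false e e)) (n false e e)) e) e) (n false (n false (n false (n false e e) (n false e e)) (n false (n false e e) (n false e e))) (n false e e)))) (t 12 1 (u 8 1 (k v (k r (k (c 24 4099 r (u 16 0 (k v (k v r)))) (k (c 2 4088 (c 10 4101 v r) v) (k (c 24 4097 r r) (k (c 16 4095 r r) r))))))))
 .z .z) (.s 0x1f4eea80275fe00aa88a223ba210 4087 (n false (n true (n false (z 121) (z 5)) e) (n false (n true (n false (n true (n false (n false e e) (n false e e)) e) (n false e e)) e) (n false (n false (n false (n false e e) (n false e e)) (n false (n false e e) (n false e e))) (n false e e)))) (t 12 1 (u 8 4 (k v (k v (k (c 24 4099 r (u 16 1 (k v (k v r)))) (k (c 16 4097 r (u 24 1 (k v (k v r)))) r))))))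
 .z .z)) (.s 0x1f4eeb8025fd400aa88a223ba210 4087 (n false (n true (n false (z 37) (z 14)) e) (n false (n true (n false (n true (n false (n false e e) (n false e e)) e) (n false e e)) e) (n false (n false (n false (n false e e) (n false e e)) (n false (n false e e) (n false e e))) (n false e e)))) (u 12 0 (k (c 9 4090 v (c 11 4101 v r)) (k (u 8 2 (k v (k v r))) r)))
 (.s 0x1f4eeb8025fd400aa88a223aa220 4087 (n false (n true (n false (z 37) (z 14)) e) (n false (n true (n false (n false (n false (n false e e) (n false e e)) (n false e e)) e) e) (n false (n false (n false (n false e e) (n false e e)) (n false (n false e e) (n false e e))) (n false e e)))) (u 12 0 (k (c 9 4090 v (c 11 4101 v r)) (k (u 8 4 (k v (k v r))) r)))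
 .z .z) .z)) (.s 0x1f5544511154451112bbe007dc20 4086 (n false (n true (n false (z 52) (n false (n false (n false (n false (n false e e) (n false e e)) (n false (n false e e) (n false e e))) (n false e e)) (n false (n false (n false (n false e e) (n false e e)) (n false (n false e e) (n false e e))) (n false e e)))) e) (n true (n true (n false (n true (n false e e) e) (n false e e)) e) e)) (u 8 169 (k v (k v (k v (k (t 24 1 (u 16 2 (k v (k v r)))) r)))))
 (.s 0x1f5511444754440a7754012fee00 4087 (n false (n false (z 46) (z 5)) (n true (n false (n true (n false (n false (n false (n false e e) (n false e e)) (n false e e)) e) e) (n false (n false (n false (n false e e) (n false e e)) (n false (n false e e) (n false e e))) (n false e e))) e)) (t 6 1 (u 4 2 (k v (k (c 12 4099 r (u 8 0 (k v (k v r)))) (k r (k (c 3 4090 v (c 10 4101 v r)) (k (c 12 4097 r r) (k (c 8 4095 r r) r))))))))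
 (.s 0x1f52afa0095550014faac02a2288 4096 (n false (n false (z 67) (n false (n false (n false e e) (n false e e)) (n false (n false e e) (n false e e)))) (n true (n false (n false (z 24) (z 0)) e) e)) (t 25 1 (u 17 0 (k (t 33 3 (t 49 1 (u 4 77 (k v (k v (k v (k v (k (c 12 4099 r (u 8 2 (k v (k v r)))) (k (c 12 4099 r (u 8 0 (k (u 16 0 (k v (k v r))) r))) (k (c 12 4101 r r) (k (c 12 4099 r (u 8 35 (k v (k v (k v (k (c 16 4095 r (u 24 0 (k v (k v r)))) (k (c 16 4095 r (u 24 0 (k v (k v r)))) r))))))) (k (c 12 4102 r r) (k (c 8 4101 r r) (k (c 12 4099 r (u 8 3 (k v (k v (k (c 24 4099 r (u 16 1 (k v (k v r)))) r))))) (k (c 8 4101 r r) r))))))))))))))) r)))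
 .z .z) (.s 0x1f55114447d4440a7754012fee00 4087 (n false (n true (n false (n true (n true (n false (n false (n false e e) (n false e e)) (n false e e)) e) e) (n false (n false (n false (n false e e) (n false e e)) (n false (n false e e) (n false e e))) (n false e e))) e) (n false (z 46) (z 5))) (t 7 1 (u 5 1 (k v (k r (k (c 13 4099 r (u 9 0 (k v (k v r)))) (k (c 2 4090 v (c 11 4101 v r)) (k (c 13 4097 r r) (k (c 9 4095 r r) r))))))))
 .z .z)) (.s 0x1f575445110ea88a22110e557600 4090 (n false (n true (z 80) e) (n true (n false (n false (n false (n true (n false (n false (n false (n false e e) (n false e e)) (n false (n false e e) (n false e e))) (n false e e)) e) (n true (n false (n false (n false (n false e e) (n false e e)) (n false (n false e e) (n false e e))) (n false e e)) e)) (n false e e)) (n false e e)) e)) (u 4 0 (k (u 8 0 (k (c 24 4099 r (c 65 4099 v (c 81 4099 v (u 16 0 (k v (k (u 32 1 (k v (k v r))) (k (c 48 4099 r (u 32 0 (k (u 64 0 (k v (k v r))) r))) (k (c 2 4089 r v) (k (c 2 4071 r v) (k (c 2 4092 (u 16 0 (k (u 32 0 (k v (k v r))) r)) v) (k r (k r r)))))))))))) r))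 r))
 (.s 0x1f575445110ea88a22110a57de00 4093 (n false (n false (z 108) e) (n true (n false (n false (n false (n true (n false (n false (n false (n false e e) (n false e e)) (n false (n false e e) (n false e e))) (n false e e)) e) (n true (n false (n false (n false (n false e e) (n false e e)) (n false (n false e e) (n false e e))) (n false e e)) e)) (n false e e)) (n false e e)) e)) (u 4 0 (k (t 12 2 (u 8 0 (k (c 24 4099 r (c 65 4099 v (c 81 4099 v (u 16 0 (k v (k (u 32 1 (k v (k v r))) (k (c 48 4099 r (u 32 0 (k (u 64 0 (k v (k v r))) r))) (k (c 2 4087 r v) (k (c 2 4069 r v) (k (c 2 4090 (u 16 0 (k (u 32 0 (k v (k v r))) r)) v) (k r (k r r)))))))))))) r))) r))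
 .z .z) .z))))

set_option maxRecDepth 100000 in
def N243 : NT :=
(.s 0xea57d4012bbe00e14faac02a2288 4089 (n false (n false (n false (z 52) (z 12)) (n true (n false e e) e)) (n false (z 67) (n false (n false (n false e e) (n false e e)) (n false (n false e e) (n false e e))))) (t 12 3 (c 6 4094 v (u 8 345 (k r (k (c 20 4099 v (u 5 0 (k v (k v r)))) (k (c 4 4088 v r) (k (c 20 4099 v (u 5 0 (k v (k v r)))) (k (t 24 1 (u 5 28 (k (c 20 4099 v (u 16 0 (k v (k v r)))) (k (c 20 4099 v (u 16 0 (k v (k v r)))) (k (c 13 4099 r r) (k (c 9 4099 r r) (k (c 13 4099 r r) (k (c 13 4099 r r) (k (c 13 4099 r r) (k (c 13 4099 r r) r)))))))))) r))))))))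
 (.s 0x1f73fbb004feec01dcfeec015110 4086 (n false (n true (n false (z 87) (n true (z 87) e)) e) (n true (n false (n true (z 87) e) (n false (n false (n false e e) (n false e e)) (n false e e))) e)) (u 20 1 (k r (k (u 8 0 (k (u 17 1 (k v (k v r))) (k (c 9 4098 (u 2 0 (k v (k v r))) v) r))) r)))
 (.s 0x1f72eee0055114442ea88a221708 4084 (n false (n true (n false (n true (z 42) e) (n false (n false (n false (n false e e) (n false e e)) (n false (n false e e) (n false e e))) (n false e e))) e) (n false (n false (n true (n false e e) e) (n false e e)) (n true (n false (n false (n false (n false e e) (n false e e)) (n false (n false e e) (n false e e))) (n false e e)) e))) (c 2 4088 (c 10 4101 v r) v)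
 (.s 0x1f5d5114443aa2288843a577c010 4087 (n false (n true (n false (n false (n true (n false (n false (n false (n false e e) (n false e e)) (n false (n false e e) (n false e e))) (n false e e)) e) (n true (n false (n false (n false (n false e e) (n false e e)) (n false (n false e e) (n false e e))) (n false e e)) e)) (n false e e)) e) (n true (n false (z 52) (n false e e)) e)) (u 9 25 (k v (k v (k v (k (t 25 1 (u 17 0 (k v (k v r)))) r)))))
 (.s 0x1f5d5114443aa2288842e57f5000 4092 (n false (n false (n true (z 156) e) e) (n true (n false (n false (n true (n false (n false (n false (n false e e) (n false e e)) (n false (n false e e) (n false e e))) (n false e e)) e) (n true (n false (n false (n false (n false e e) (n false e e)) (n false (n false e e) (n false e e))) (n false e e)) e)) (n false e e)) e)) (u 8 5 (k v (k v (k (c 24 4099 r (u 16 1 (k v (k v r)))) (k (c 16 4098 r (u 24 1 (k v (k v r)))) (k (c 16 4097 r (u 24 1 (k v (k v r)))) (k (c 16 4099 r (u 24 1 (k v (k v r)))) r)))))))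
 .z .z) (.s 0x1f5d5114443aa2288843e57f5000 4094 (n false (n true (n false (n false (n true (n false (n false (n false (n false e e) (n false e e)) (n false (n false e e) (n false e e))) (n false e e)) e) (n true (n false (n false (n false (n false e e) (n false e e)) (n false (n false e e) (n false e e))) (n false e e)) e)) (n false e e)) e) (n true (n true (z 156) e) e)) (u 9 1 (k v (k (c 25 4099 r (u 17 1 (k v (k v r)))) (k (c 17 4098 r (u 25 1 (k v (k v r)))) (k (c 17 4097 r (u 25 1 (k v (k v r)))) (k (c 17 4099 r (u 25 1 (k v (k v r)))) (k (c 17 4095 r (u 25 0 (k v (k v r)))) r)))))))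
 .z .z)) (.s 0x1f73fbb004feec015d5114443870 4083 (n false (n true (n false (n true (z 87) e) (z 87)) e) (n false (n false (n true (n false (n false (n false (n false e e) (n false e e)) (n false (n false e e) (n false e e))) (n false e e)) e) (n true (n false e e) e)) (n true (n false e e) e))) (u 16 1 (k (u 12 0 (k v (k v r))) (k (u 12 0 (k v (k v r))) r)))
 (.s 0x1f73fbb004aef8015d5114443870 4083 (n false (n true (n false (z 52) (n true (z 87) e)) e) (n false (n false (n true (n false (n false (n false (n false e e) (n false e e)) (n false (n false e e) (n false e e))) (n false e e)) e) (n true (n false e e) e)) (n true (n false e e) e))) (u 8 322 (k (u 20 1 (k v (k v r))) (k (c 17 4099 v (c 7 4094 v (u 20 1 (k v (k v r))))) (k (u 20 1 (k v (k v r))) (k (c 20 4099 r v) (k (c 20 4099 r v) r))))))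
 .z .z) .z)) (.s 0x1fd3baa00957f0015d5114443870 4081 (n false (n true (n true (n false (z 56) (z 5)) e) e) (n false (n false (n true (n false (n false (n false (n false e e) (n false e e)) (n false (n false e e) (n false e e))) (n false e e)) e) (n true (n false e e) e)) (n true (n false e e) e))) (t 24 1 (u 16 0 (k (u 32 261 (k v (k v (k v (k v (k v (k (t 96 1 (u 64 0 (k v (k v r)))) r))))))) (k (c 32 4096 r (u 48 0 (k v (k v r)))) (k (u 32 1 (k v (k v r))) (k (c 48 4096 r (u 32 379 (k v (k v (k v (k v (k v (k (t 96 1 (u 64 0 (k v (k v r)))) r)))))))) r))))))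
 (.s 0x1f7dd3fbf009f77003ea88a22020 4073 (n false (n true (n false (n true (n true (n false (n true (n false (z 119) (z 43)) e) (n true (n true (n false (n false (n false (n false e e) (n false e e)) (n false (n false e e) (n false e e))) (n false e e)) e) e)) e) e) (n false e e)) e) e) (t 256 2 (c 96 4097 v (u 384 0 (k v (k r (k (c 896 4099 r (u 640 0 (k (u 1152 0 (k v (k v r))) r))) (k r (k r (k (u 640 0 (k (u 1152 0 (k v (k v r))) r)) (k r (k r r)))))))))))
 (.s 0x1f73fbb0055114442ba577c010e0 4085 (n false (n false (n false (n true (n false (z 52) (n false e e)) e) (n true (n false e e) e)) e) (n true (n false (n true (z 87) e) (n false (n false (n false (n false e e) (n false e e)) (n false (n false e e) (n false e e))) (n false e e))) e)) (u 32 407 (k (c 12 4094 v (u 17 1 (k v (k v r)))) (k (u 17 1 (k v (k v r))) (k (c 12 4094 v (u 17 1 (k v (k v r)))) (k (u 17 1 (k v (k v r))) r)))))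
 .z .z) (.s 0x1fd2bea0095df0015d5114443870 4081 (n false (n true (n true (n false (z 52) (z 12)) e) e) (n false (n false (n true (n false (n false (n false (n false e e) (n false e e)) (n false (n false e e) (n false e e))) (n false e e)) e) (n true (n false e e) e)) (n true (n false e e) e))) (t 24 3 (u 16 378 (k v (k v (k v (k v (k v (k (t 48 1 (u 32 0 (k v (k v r)))) (k (t 48 1 (c 17 4099 v (c 7 4094 v (c 8 4086 r v)))) r)))))))))
 .z .z)) (.s 0xea57d4012bbe00aa22888e7d5600 4096 (n false (n false (n false (z 52) (z 12)) (n false (n false (n false (n false e e) (n false e e)) (n false (n false e e) (n false e e))) (n false e e))) (n true (z 67) e)) (t 12 3 (u 8 26 (k r (k (c 4 4088 v (u 5 0 (k v (k v r)))) (k r r)))))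
 (.s 0x1fd551144455114444aef800ee10 4085 (n false (n true (n true (n false (z 52) (n false (n false (n false (n false (n false e e) (n false e e)) (n false (n false e e) (n false e e))) (n false e e)) (n false (n false (n false (n false e e) (n false e e)) (n false (n false e e) (n false e e))) (n false e e)))) e) e) (n true (n false (n true (n false e e) e) (n false e e)) e)) (u 16 166 (k v (k v (k v (k v (k (t 48 1 (u 32 2 (k v (k v r)))) r))))))
 .z .z) .z))) (.s 0xeaa22888aa22888a7754012afe00 4096 (n false (n false (z 56) (z 5)) (n false (n false (n false (n false (n false e e) (n false e e)) (n false (n false e e) (n false e e))) (n false e e)) (n false (n false (n false (n false e e) (n false e e)) (n false (n false e e) (n false e e))) (n false e e)))) (t 6 1 (u 4 0 (k (u 8 49 (k v (k v (k v (k v (k v (k (t 24 1 (u 16 0 (k v (k v r)))) r))))))) (k (c 8 4096 r (u 12 0 (k v (k v r)))) (k (u 8 1 (k v (k v r))) (k (c 12 4096 r r) r))))))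
 (.s 0xeaa22888aa22888a57fe012bbe00 4094 (n false (n false (z 52) (z 124)) (n false (n false (n false (n false (n false e e) (n false e e)) (n false (n false e e) (n false e e))) (n false e e)) (n false (n false (n false (n false e e) (n false e e)) (n false (n false e e) (n false e e))) (n false e e)))) (u 6 4 (k r (k (c 2 4083 r v) (k (c 14 4097 r r) (k (c 14 4096 r r) (k (c 10 4098 r (u 14 0 (k r (k r r)))) (k (c 14 4096 r r) (k (c 14 4097 r r) (k (c 14 4097 r r) (k (c 14 4096 r r) (k (c 10 4097 r r) r)))))))))))
 (.s 0xeaa22888aa22888a57d4012bbe00 4096 (n false (n false (z 52) (z 12)) (n false (n false (n false (n false (n false e e) (n false e e)) (n false (n false e e) (n false e e))) (n false e e)) (n false (n false (n false (n false e e) (n false e e)) (n false (n false e e) (n false e e))) (n false e e)))) (t 6 3 (u 4 48 (k v (k v (k v (k v (k (t 12 1 (u 8 0 (k v (k v r)))) r)))))))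
 (.s 0xea57f50027754015114453bee008 4094 (n false (n false (n false (z 156) (z 5)) (n false (n false (n false e e) (n false e e)) (n false (n false e e) (n false e e)))) (n false (z 45) (n false e e))) (t 12 1 (u 8 18 (k (c 12 4099 v (t 5 1 v)) (k (u 5 2 (k v (k v r))) (k (c 12 4099 v (u 5 7 (k v (k v r)))) (k (t 5 1 v) (k (c 24 4099 r r) r)))))))
 .z .z) (.s 0xeaa22888aa22888a57fe012aae00 4094 (n false (n false (z 124) (z 32)) (n false (n false (n false (n false (n false e e) (n false e e)) (n false (n false e e) (n false e e))) (n false e e)) (n false (n false (n false (n false e e) (n false e e)) (n false (n false e e) (n false e e))) (n false e e)))) (u 6 0 (k (t 10 3 (t 14 1 (u 4 22 (k v (k v (k (c 12 4097 r (u 8 1 (k v (k v r)))) (k (c 12 4096 r (u 8 1 (k v (k v r)))) (k (c 12 4097 r (u 8 1 (k v (k v r)))) (k (c 12 4099 r (u 8 1 (k v (k v r)))) r))))))))) r))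
 .z .z)) (.s 0xeaa22888aa22888a75fe012bbe00 4094 (n false (n false (z 121) (z 52)) (n false (n false (n false (n false (n false e e) (n false e e)) (n false (n false e e) (n false e e))) (n false e e)) (n false (n false (n false (n false e e) (n false e e)) (n false (n false e e) (n false e e))) (n false e e)))) (u 4 18 (k r (k r (k (c 12 4099 r r) (k (c 8 4097 r (u 12 1 (k r (k r r)))) (k (c 8 4095 r (u 12 0 (k r (k r r)))) (k (c 8 4095 r (u 12 0 (k r (k r r)))) r)))))))
 (.s 0xeaa22888aa22888a5fdc012bbe00 4094 (n false (n false (z 52) (z 46)) (n false (n false (n false (n false (n false e e) (n false e e)) (n false (n false e e) (n false e e))) (n false e e)) (n false (n false (n false (n false e e) (n false e e)) (n false (n false e e) (n false e e))) (n false e e)))) (u 6 2 (k r (k (c 14 4099 r (u 10 0 (k r (k r r)))) (k (u 10 1 (k r (k r r))) (k (u 10 1 (k r (k r r))) (k (c 14 4097 r (u 10 1 (k r (k r r)))) (k (c 10 4095 r (u 14 1 (k r (k r r)))) r)))))))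
 .z .z) .z)) (.s 0xeaa22888aa22888a7776012aae00 4094 (n false (n false (z 85) (z 32)) (n false (n false (n false (n false (n false e e) (n false e e)) (n false (n false e e) (n false e e))) (n false e e)) (n false (n false (n false (n false e e) (n false e e)) (n false (n false e e) (n false e e))) (n false e e)))) (u 6 0 (k (t 10 3 (t 14 1 (u 4 66 (k v (k v (k (c 12 4099 r r) (k (c 12 4099 r (c 3 4101 v r)) (k (c 8 4099 r r) r)))))))) r))
 (.s 0xeaa22888aa22888a7754012fee00 4101 (n false (n false (z 46) (z 5)) (n false (n false (n false (n false (n false e e) (n false e e)) (n false (n false e e) (n false e e))) (n false e e)) (n false (n false (n false (n false e e) (n false e e)) (n false (n false e e) (n false e e))) (n false e e)))) (t 6 1 (u 4 1 (k v (k r (k (c 12 4099 r (u 8 0 (k v (k v r)))) (k (c 3 4101 v (c 10 4101 v r)) (k (c 12 4097 r r) (k (c 8 4095 r r) r))))))))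
 (.s 0xeaa22888aa22888a7754012bff00 4099 (n false (n false (z 124) (z 5)) (n false (n false (n false (n false (n false e e) (n false e e)) (n false (n false e e) (n false e e))) (n false e e)) (n false (n false (n false (n false e e) (n false e e)) (n false (n false e e) (n false e e))) (n false e e)))) (t 6 1 (u 4 2 (k v (k v (k (c 12 4097 r (u 8 1 (k v (k v r)))) (k (c 12 4096 r (u 8 1 (k v (k v r)))) (k (c 12 4097 r (u 8 1 (k v (k v r)))) (k (c 12 4099 r (u 8 1 (k v (k v r)))) r))))))))
 .z .z) (.s 0xeaa22888aa22888a775c012bbe00 4094 (n false (n false (z 52) (z 37)) (n false (n false (n false (n false (n false e e) (n false e e)) (n false (n false e e) (n false e e))) (n false e e)) (n false (n false (n false (n false e e) (n false e e)) (n false (n false e e) (n false e e))) (n false e e)))) (u 4 170 (k r (k (t 6 1 v) (k (c 2 4085 r v) (k (t 6 1 v) (k (c 2 4085 (u 3 1 (k v (k v r))) v) (k (t 12 1 (u 6 0 (k (u 8 0 (k v (k v r))) (k (c 3 4101 v r) (k (c 3 4101 v r) (k r (k r (k (c 6 4095 r (u 8 0 (k v (k v r)))) r)))))))) r)))))))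
 .z .z)) (.s 0xeaa22888aa22888a7d5c012afe00 4094 (n false (n false (z 56) (z 35)) (n false (n false (n false (n false (n false e e) (n false e e)) (n false (n false e e) (n false e e))) (n false e e)) (n false (n false (n false (n false e e) (n false e e)) (n false (n false e e) (n false e e))) (n false e e)))) (u 4 1 (k (u 8 1 (k r (k r r))) (k r (k (c 8 4096 r (u 12 0 (k r (k r r)))) (k (c 12 4096 r r) r)))))
 (.s 0xeaa22888aa22888a7776013baa00 4099 (n false (n false (z 85) (z 5)) (n false (n false (n false (n false (n false e e) (n false e e)) (n false (n false e e) (n false e e))) (n false e e)) (n false (n false (n false (n false e e) (n false e e)) (n false (n false e e) (n false e e))) (n false e e)))) (t 6 1 (u 4 15 (k v (k (c 12 4099 r r) (k (c 12 4099 r r) (k (c 12 4099 r r) (k (c 3 4101 v (c 10 4101 v r)) (k (c 12 4096 r r) (k (c 12 4097 r r) r)))))))))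
 .z .z) .z))))

set_option maxRecDepth 100000 in
def N244 : NT :=
(.s 0xeabaa2288845110a75fe012bbe00 4094 (n false (n false (z 121) (z 52)) (n false (n false (n false (n false (n true (n false (n false (n false (n false e e) (n false e e)) (n false (n false e e) (n false e e))) (n false e e)) e) (n false e e)) (n false (n false e e) (n false e e))) (n false e e)) e)) (u 4 4 (k r (k (c 2 4079 r v) (k (c 12 4099 r r) (k (c 8 4097 r (u 12 1 (k r (k r r)))) r)))))
 (.s 0xeaa88a222a2288aa22888e577c00 4091 (n false (n false (n false (n false (n false (n false (n false e e) (n false e e)) (n false (n false e e) (n false e e))) (n false e e)) (n false (n false (n false e e) (n false e e)) (n false (n false e e) (n false e e)))) (n false (n false (n false (n false e e) (n false e e)) (n false (n false e e) (n false e e))) (n false e e))) (n true (z 52) e)) (u 5 201 (k v (k v (k v (k v (k (t 13 1 (u 9 0 (k v (k v r)))) r))))))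
 (.s 0xeaa22888aa22888a7d7c013aff00 4096 (n false (n false (z 121) (z 51)) (n false (n false (n false (n false (n false e e) (n false e e)) (n false (n false e e) (n false e e))) (n false e e)) (n false (n false (n false (n false e e) (n false e e)) (n false (n false e e) (n false e e))) (n false e e)))) (t 6 3 (u 4 1 (k v (k (c 12 4099 r (u 8 1 (k v (k v r)))) (k (c 8 4097 r (u 12 1 (k v (k v r)))) (k (c 8 4095 r (u 12 0 (k v (k v r)))) (k (c 8 4095 r (u 12 0 (k v (k v r)))) r)))))))
 (.s 0xeaa22888aa22888a7d5c013bae00 4095 (n false (n false (z 37) (z 35)) (n false (n false (n false (n false (n false e e) (n false e e)) (n false (n false e e) (n false e e))) (n false e e)) (n false (n false (n false (n false e e) (n false e e)) (n false (n false e e) (n false e e))) (n false e e)))) (u 6 0 (k r (k (t 4 1 v) (k (t 14 1 (u 10 0 (k (t 18 3 (t 26 1 (u 4 0 (k v (k (c 3 4101 v (c 10 4098 v (u 8 0 (k (t 16 3 (t 24 1 v)) r)))) (k (c 3 4101 v (c 10 4098 v (u 8 0 (k (t 16 3 (t 24 1 v)) r)))) (k r (k r (k (c 2 4088 (c 3 4096 v r) v) r))))))))) r))) r))))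
 (.s 0xeaa22888aa22888a7d5c013aff00 4095 (n false (n false (z 121) (z 35)) (n false (n false (n false (n false (n false e e) (n false e e)) (n false (n false e e) (n false e e))) (n false e e)) (n false (n false (n false (n false e e) (n false e e)) (n false (n false e e) (n false e e))) (n false e e)))) (u 4 1 (k r (k (c 12 4099 r (u 8 1 (k r (k r r)))) (k (c 8 4097 r (u 12 1 (k r (k r r)))) (k (c 8 4095 r (u 12 0 (k r (k r r)))) (k (c 8 4095 r (u 12 0 (k r (k r r)))) r))))))
 .z .z) (.s 0xeaa22888aa22888a7d7c012fee00 4096 (n false (n false (z 46) (z 51)) (n false (n false (n false (n false (n false e e) (n false e e)) (n false (n false e e) (n false e e))) (n false e e)) (n false (n false (n false (n false e e) (n false e e)) (n false (n false e e) (n false e e))) (n false e e)))) (t 6 3 (u 4 1 (k v (k (u 8 1 (k v (k v r))) (k (c 12 4099 r (u 8 0 (k v (k v r)))) (k (u 8 4 (k v (k v r))) (k (c 12 4097 r (u 8 1 (k v (k v r)))) (k (c 8 4095 r (u 12 1 (k v (k v r)))) r))))))))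
 .z .z)) (.s 0xeaa22888aa22888a7df6013baa00 4099 (n false (n false (z 91) (z 5)) (n false (n false (n false (n false (n false e e) (n false e e)) (n false (n false e e) (n false e e))) (n false e e)) (n false (n false (n false (n false e e) (n false e e)) (n false (n false e e) (n false e e))) (n false e e)))) (t 6 1 (u 4 1 (k v (k v (k v (k (u 8 0 (k v (k v r))) (k (c 8 4097 r (u 12 0 (k v (k v r)))) (k (c 8 4095 r (u 12 0 (k v (k v r)))) r))))))))
 (.s 0xeaa22888aa22888a7df6012bbe00 4094 (n false (n false (z 52) (z 91)) (n false (n false (n false (n false (n false e e) (n false e e)) (n false (n false e e) (n false e e))) (n false e e)) (n false (n false (n false (n false e e) (n false e e)) (n false (n false e e) (n false e e))) (n false e e)))) (u 6 14 (k r (k (c 4 4097 r v) (k (c 6 4093 v r) (k (u 10 1 (k r (k r r))) (k (c 10 4097 r (u 14 0 (k r (k r r)))) (k (c 10 4097 r (u 14 0 (k r (k r r)))) (k (c 10 4095 r (u 14 0 (k r (k r r)))) r))))))))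
 .z .z) .z)) (.s 0xeaa88a222a88a2239fdd802ee108 4079 (n false (n false (n true (z 87) e) (n false (n false (n false (n false (n false e e) (n false e e)) (n false (n false e e) (n false e e))) (n false e e)) (n false (n false (n false (n false e e) (n false e e)) (n false (n false e e) (n false e e))) (n false e e)))) (n false (n true (n false (n true (n false e e) e) (n false e e)) e) (n false e e))) (c 10 4099 v (u 8 1 (k v (k v r))))
 (.s 0xeaa88a222a88a22397f5002a2288 4086 (n false (n false (n true (z 14) e) (n false (n false (n false (n false (n false e e) (n false e e)) (n false (n false e e) (n false e e))) (n false e e)) (n false (n false (n false (n false e e) (n false e e)) (n false (n false e e) (n false e e))) (n false e e)))) (n false (n false (n false e e) (n false e e)) (n false (n false e e) (n false e e)))) (c 10 4099 v (u 8 0 (k v (k v r))))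
 (.s 0xeaa88a222a88a2225ddc013bae00 4094 (n false (n false (z 42) (n false (n false (n false (n false (n false e e) (n false e e)) (n false (n false e e) (n false e e))) (n false e e)) (n false (n false (n false (n false e e) (n false e e)) (n false (n false e e) (n false e e))) (n false e e)))) (z 37)) (u 3 0 (k (u 4 1 (k v (k v r))) (k (c 10 4099 v (c 14 4099 v r)) (k (u 5 0 (k (t 9 3 (t 13 1 (u 4 1 (k v (k v r))))) r)) (k (c 10 4099 v (c 14 4099 v r)) (k (u 5 8 (k (t 4 1 v) (k (t 13 1 (u 9 0 (k (t 17 3 (t 25 1 (u 4 1 (k v (k v r))))) r))) r))) (k (u 5 11 (k (t 4 1 v) (k (t 13 1 (c 10 4099 v (c 14 4099 v r))) r))) r)))))))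
 .z .z) (.s 0xeaa88a222a88a2239fdd802a2288 4086 (n false (n false (n true (z 87) e) (n false (n false (n false (n false (n false e e) (n false e e)) (n false (n false e e) (n false e e))) (n false e e)) (n false (n false (n false (n false e e) (n false e e)) (n false (n false e e) (n false e e))) (n false e e)))) (n false (n false (n false e e) (n false e e)) (n false (n false e e) (n false e e)))) (c 10 4099 v (u 8 1 (k v (k v r))))
 .z .z)) (.s 0xeabaa2288845110a5fdc012bbe00 4094 (n false (n false (z 46) (z 52)) (n false (n false (n false (n false (n true (n false (n false (n false (n false e e) (n false e e)) (n false (n false e e) (n false e e))) (n false e e)) e) (n false e e)) (n false (n false e e) (n false e e))) (n false e e)) e)) (u 6 214 (k r (k (c 2 4083 r v) (k (t 4 1 v) (k r (k (c 10 4096 r (t 4 1 (t 14 3 v))) r))))))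
 (.s 0xeabaa2288845110a57fe012bbe00 4094 (n false (n false (z 124) (z 52)) (n false (n false (n false (n false (n true (n false (n false (n false (n false e e) (n false e e)) (n false (n false e e) (n false e e))) (n false e e)) e) (n false e e)) (n false (n false e e) (n false e e))) (n false e e)) e)) (u 4 18 (k r (k (c 6 4097 r v) (k (c 12 4097 r r) (k (c 12 4096 r r) (k (c 12 4097 r r) (k (c 12 4099 r r) r)))))))
 .z .z) .z))) (.s 0xeaea88a221144452bfa8012bea00 4094 (n false (n false (z 156) (z 12)) (n false (n false (n false (n true (n false (n false (n false (n false e e) (n false e e)) (n false (n false e e) (n false e e))) (n false e e)) e) (n false e e)) (n false (n false e e) (n false e e))) (n false e e))) (t 6 3 (u 4 30 (k v (k v (k (c 12 4099 r (u 8 6 (k v (k v (k v r))))) (k (c 8 4099 r (u 12 6 (k v (k v (k v r))))) (k (c 8 4095 r (c 3 4096 v r)) r)))))))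
 (.s 0xeabaa2288845110a7d5c013bae00 4095 (n false (n false (z 37) (z 35)) (n false (n false (n false (n false (n true (n false (n false (n false (n false e e) (n false e e)) (n false (n false e e) (n false e e))) (n false e e)) e) (n false e e)) (n false (n false e e) (n false e e))) (n false e e)) e)) (u 6 0 (k r (k (t 4 1 v) (k (t 14 1 (u 4 1 (k (c 2 4094 r v) (k (u 10 0 (k (t 18 3 (t 26 1 v)) r)) r)))) r))))
 (.s 0xeabaa2288845110a7d5c012fee00 4095 (n false (n false (z 46) (z 35)) (n false (n false (n false (n false (n true (n false (n false (n false (n false e e) (n false e e)) (n false (n false e e) (n false e e))) (n false e e)) e) (n false e e)) (n false (n false e e) (n false e e))) (n false e e)) e)) (u 6 0 (k r (k (t 4 1 v) (k (t 14 1 (u 4 10 (k (c 2 4094 r v) (k (c 12 4099 r (u 10 0 (k (t 18 3 (t 26 1 (u 8 0 (k v (k v r))))) r))) (k (c 10 4098 r (c 3 4101 v r)) r))))) r))))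
 (.s 0xeabaa2288845110a775c012bbe00 4094 (n false (n false (z 52) (z 37)) (n false (n false (n false (n false (n true (n false (n false (n false (n false e e) (n false e e)) (n false (n false e e) (n false e e))) (n false e e)) e) (n false e e)) (n false (n false e e) (n false e e))) (n false e e)) e)) (u 4 213 (k r (k (c 2 4085 r v) (k (t 6 1 v) (k (t 6 1 v) (k (t 12 1 (u 6 1 (k (c 2 4095 (c 2 4097 (t 2 1 v) v) v) (k (u 8 0 (k v (k v r))) r)))) r))))))
 .z .z) (.s 0xeabaa2288845110a7d5c013aff00 4095 (n false (n false (z 121) (z 35)) (n false (n false (n false (n false (n true (n false (n false (n false (n false e e) (n false e e)) (n false (n false e e) (n false e e))) (n false e e)) e) (n false e e)) (n false (n false e e) (n false e e))) (n false e e)) e)) (u 6 0 (k r (k (t 4 2 v) (k (t 14 1 (u 4 14 (k r (k (c 2 4094 r v) (k (u 10 0 (k (t 18 3 (t 26 1 v)) r)) (k (u 10 0 (k (t 18 3 (t 26 1 v)) r)) (k (c 12 4099 r r) r))))))) r))))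
 .z .z)) (.s 0xeabaa2288845111cfeec013bbb00 4091 (n false (n false (n true (z 87) e) (n false (n false (n false (n true (n false (n false (n false (n false e e) (n false e e)) (n false (n false e e) (n false e e))) (n false e e)) e) (n false e e)) (n false (n false e e) (n false e e))) (n false e e))) (z 85)) (u 3 14 (k (c 10 4098 v (u 8 1 (k v (k v r)))) (k (c 10 4098 v (u 8 1 (k v (k v r)))) (k (c 7 4099 r (u 8 1 (k r (k r r)))) (k r (k (c 7 4099 r (u 8 1 (k r (k r r)))) (k (c 7 4096 r (c 8 4099 r (c 2 4094 v r))) r)))))))
 (.s 0xeabaa2288845110a7df6012bbe00 4094 (n false (n false (z 91) (z 52)) (n false (n false (n false (n false (n true (n false (n false (n false (n false e e) (n false e e)) (n false (n false e e) (n false e e))) (n false e e)) e) (n false e e)) (n false (n false e e) (n false e e))) (n false e e)) e)) (u 4 8 (k r (k (c 6 4097 r v) (k r (k (u 6 215 (k (u 8 1 (k v (k v r))) (k (c 2 4082 (u 4 1 (k v (k v r))) v) (k (c 8 4099 r v) (k (u 8 0 (k v (k v r))) r))))) (k (c 8 4097 r (u 12 0 (k r (k r r)))) r))))))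
 .z .z) .z)) (.s 0xebaa228885445113bae00e577c00 4091 (n false (n false (z 37) (n false (n true (n false (n false (n false (n false e e) (n false e e)) (n false (n false e e) (n false e e))) (n false e e)) e) (n false (n false (n false e e) (n false e e)) (n false (n false e e) (n false e e))))) (n true (z 52) e)) (u 5 176 (k (u 4 1 (k v (k v r))) (k (c 6 4096 v r) (k (t 4 1 v) (k (u 4 1 (k v (k v r))) (k (u 4 1 (k v (k v r))) (k (t 4 1 v) (k (t 13 1 (u 4 1 (k (c 3 4096 (t 4 1 v) v) (k (u 9 0 (k v (k v r))) r)))) r))))))))
 (.s 0xebaa228884aef803874aef802e10 4083 (n false (n false (n false (z 52) (n true (n false (n false (n false (n false e e) (n false e e)) (n false (n false e e) (n false e e))) (n false e e)) e)) (n true (n false e e) e)) (n true (n false (z 52) (n false (n true (n false e e) e) (n false e e))) e)) (c 8 4097 r (c 9 4097 r v))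
 (.s 0xeaea88a221144453aae8012bea00 4094 (n false (n false (z 161) (z 12)) (n false (n false (n false (n true (n false (n false (n false (n false e e) (n false e e)) (n false (n false e e) (n false e e))) (n false e e)) e) (n false e e)) (n false (n false e e) (n false e e))) (n false e e))) (t 6 3 (u 4 1 (k (c 12 4099 r (u 8 6 (k v (k (t 24 1 (u 16 0 (k v (k (c 48 4099 r (u 32 0 (k v (k v r)))) r)))) r)))) (k (c 3 4096 v (c 10 4099 v r)) r))))
 .z .z) (.s 0xebaa228885445113aff00e577c00 4091 (n false (n false (z 121) (n false (n true (n false (n false (n false (n false e e) (n false e e)) (n false (n false e e) (n false e e))) (n false e e)) e) (n false (n false (n false e e) (n false e e)) (n false (n false e e) (n false e e))))) (n true (z 52) e)) (u 5 12 (k r (k r (k (c 6 4096 v r) (k (t 4 2 v) (k (u 4 9 (k v (k v (k v (k (c 12 4099 r (u 8 1 (k v (k v r)))) r))))) (k (t 4 2 v) (k (t 13 1 (u 4 9 (k (u 9 0 (k v (k v r))) (k (u 9 0 (k v (k v r))) (k (t 9 1 v) (k (c 12 4099 r r) r)))))) r))))))))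
 .z .z)) (.s 0xebaa2288873fbb0045dd51144408 4081 (n false (n false (n false (n true (z 87) e) (n true (n false (n false (n false (n false e e) (n false e e)) (n false (n false e e) (n false e e))) (n false e e)) e)) (n false e e)) (n false (n true (n false (n true (n false (n false (n false (n false e e) (n false e e)) (n false (n false e e) (n false e e))) (n false e e)) e) e) e) (n false e e))) (c 2 4085 (u 8 1 (k v (k v r))) v)
 (.s 0xebaa228885445113bae00e7f7600 4093 (n false (n false (z 37) (n false (n true (n false (n false (n false (n false e e) (n false e e)) (n false (n false e e) (n false e e))) (n false e e)) e) (n false (n false (n false e e) (n false e e)) (n false (n false e e) (n false e e))))) (n true (z 87) e)) (u 4 13 (k (u 5 1 (k v (k v r))) (k (c 3 4098 (u 2 0 (k v (k v r))) v) r)))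
 .z .z) .z))))

set_option maxRecDepth 100000 in
def N245 : NT :=
(.s 0xfaa88a222775c00b9dd7002a2288 4093 (n false (n true (n false (z 37) (n false (n false (n false (n false e e) (n false e e)) (n false (n false e e) (n false e e))) (n false e e))) e) (n false (n true (z 37) e) (n false (n false (n false e e) (n false e e)) (n false (n false e e) (n false e e))))) (u 9 1 (k (t 8 1 v) (k (u 8 1 (k v (k v r))) r)))
 (.s 0xfa57f5002775400aa88a223ea220 4087 (n false (n true (n false (z 156) (z 5)) e) (n false (n true (n true (n false (n false (n false e e) (n false e e)) (n false e e)) e) e) (n false (n false (n false (n false e e) (n false e e)) (n false (n false e e) (n false e e))) (n false e e)))) (t 12 1 (u 8 1 (k v (k (c 24 4099 r (u 16 1 (k v (k v r)))) (k (c 16 4098 r (u 24 1 (k v (k v r)))) (k (c 16 4097 r r) (k (c 16 4099 r (u 24 1 (k v (k v r)))) (k (c 16 4095 r (u 24 0 (k v (k v r)))) r))))))))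
 (.s 0xeea88a2215114453aae8012bea00 4094 (n false (n false (z 161) (z 12)) (n false (n true (n false (n false (n false (n false e e) (n false e e)) (n false (n false e e) (n false e e))) (n false e e)) e) (n false (n false (n false e e) (n false e e)) (n false (n false e e) (n false e e))))) (t 6 2 (u 4 1 (k (c 12 4099 r (u 8 8 (k v (k v (k (t 24 1 (u 16 30 (k v (k v (k (c 48 4099 r (u 32 6 (k v (k v (k v r))))) (k (c 32 4099 r (u 48 6 (k v (k v (k v r))))) (k (c 32 4095 r (u 48 23 (k v (k v r)))) r))))))) r))))) (k (c 3 4096 v r) r))))
 (.s 0xeea88a2213fbb00fb9fdd802a220 4086 (n false (n false (z 87) (n true (n false (n false (n false (n false e e) (n false e e)) (n false (n false e e) (n false e e))) (n false e e)) e)) (n true (n true (n false (n true (z 87) e) (n false (n false (n false e e) (n false e e)) (n false e e))) e) e)) (u 4 0 (k (u 33 1 (k v (k v r))) (k (c 17 4098 (u 2 0 (k v (k v r))) v) r)))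
 (.s 0xee7f7600aa22888fb9fdd802a220 4086 (n false (n false (n true (z 87) e) (n false (n false (n false (n false e e) (n false e e)) (n false (n false e e) (n false e e))) (n false e e))) (n true (n true (n false (n true (z 87) e) (n false (n false (n false e e) (n false e e)) (n false e e))) e) e)) (u 33 1 (k (u 8 1 (k v (k v r))) (k (u 8 1 (k v (k v r))) r)))
 .z .z) (.s 0xeea88a2215114452bfa8012bea00 4094 (n false (n false (z 156) (z 12)) (n false (n true (n false (n false (n false (n false e e) (n false e e)) (n false (n false e e) (n false e e))) (n false e e)) e) (n false (n false (n false e e) (n false e e)) (n false (n false e e) (n false e e))))) (t 6 3 (u 4 30 (k v (k v (k (c 12 4099 r (u 8 6 (k v (k v (k v r))))) (k (c 8 4099 r (u 12 6 (k v (k v (k v r))))) (k (c 8 4095 r (c 3 4096 v r)) r)))))))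
 .z .z)) (.s 0xfa57f5002775400aa88a223ba210 4087 (n false (n true (n false (z 156) (z 5)) e) (n false (n true (n false (n true (n false (n false e e) (n false e e)) e) (n false e e)) e) (n false (n false (n false (n false e e) (n false e e)) (n false (n false e e) (n false e e))) (n false e e)))) (t 12 1 (u 8 1 (k v (k (c 24 4099 r (u 16 1 (k v (k v r)))) (k (c 16 4098 r (u 24 1 (k v (k v r)))) (k (c 16 4097 r (u 24 1 (k v (k v r)))) (k (c 16 4099 r (u 24 1 (k v (k v r)))) (k (c 16 4095 r (u 24 0 (k v (k v r)))) r))))))))
 (.s 0xfa57f5002775400aa88a223aa220 4087 (n false (n true (n false (z 156) (z 5)) e) (n false (n true (n false (n false (n false (n false e e) (n false e e)) (n false e e)) e) e) (n false (n false (n false (n false e e) (n false e e)) (n false (n false e e) (n false e e))) (n false e e)))) (t 12 1 (u 8 1 (k v (k (c 24 4099 r (u 16 1 (k v (k v r)))) (k (c 16 4098 r (u 24 1 (k v (k v r)))) (k (c 16 4097 r r) (k (c 16 4099 r (u 24 1 (k v (k v r)))) (k (c 16 4095 r (u 24 0 (k v (k v r)))) r))))))))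
 .z .z) .z)) (.s 0xfa95f5004aef802a88a2213eab00 4096 (n false (n true (n false (n false (z 52) (z 12)) (n false (n false (n false (n false e e) (n false e e)) (n false (n false e e) (n false e e))) (n false e e))) e) (z 67)) (t 24 3 (u 16 26 (k r (k (c 8 4088 v (u 3 0 (k v (k v r)))) (k r r)))))
 (.s 0xfa77dc012aaa00554451113eee00 4093 (n false (n true (n false (z 45) (z 0)) e) (n false (z 43) (n false (n false (n false (n false e e) (n false e e)) (n false (n false e e) (n false e e))) (n false e e)))) (t 12 1 (u 5 0 (k (u 8 0 (k v (k v r))) (k (u 8 0 (k (u 9 1 (k v (k v r))) (k (u 9 1 (k v (k v r))) r))) (k (c 13 4099 r (u 9 0 (k (u 8 0 (k (u 17 0 (k v (k v r))) (k (u 17 0 (k v (k v r))) r))) r))) (k r (k (c 3 4088 r (c 4 4097 (t 2 1 v) v)) (k (u 9 0 (k r r)) (k r (k r r))))))))))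
 (.s 0xfa57f5002775400ebaa2288870e0 4086 (n false (n true (n false (z 156) (z 5)) e) (n true (n false (n false (n true (n false (n false (n false (n false e e) (n false e e)) (n false (n false e e) (n false e e))) (n false e e)) e) (n true (n false e e) e)) (n true (n false e e) e)) e)) (t 12 1 (u 8 1 (k v (k (c 24 4099 r (u 16 1 (k v (k v r)))) (k (c 16 4098 r (u 24 1 (k v (k v r)))) (k (c 16 4097 r r) (k (c 16 4099 r (u 24 1 (k v (k v r)))) (k (c 16 4095 r (u 24 0 (k v (k v r)))) r))))))))
 .z .z) (.s 0xfa95f5004aef802a88a2212aff00 4096 (n false (z 120) (n true (n false (n false (z 52) (z 12)) (n false (n false (n false (n false e e) (n false e e)) (n false (n false e e) (n false e e))) (n false e e))) e)) (t 25 3 (u 17 26 (k r (k (t 2 3 v) (k (u 2 34 (k v (k v (k v (k (t 6 1 (u 4 5 (k v (k v (k (c 12 4099 r r) (k (c 8 4099 r r) r)))))) (k (t 6 1 (c 21 4101 v (c 3 4088 v r))) (k (c 6 4099 r (u 4 1 (k v (k v r)))) (k (c 4 4098 r (u 6 1 (k v (k v r)))) (k (c 4 4101 r (u 6 0 (k v (k v r)))) (k r (k (c 6 4099 r (u 4 1 (k v (k v r)))) (k (c 4 4101 r (u 6 0 (k v (k v r)))) r))))))))))))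 r)))))
 .z .z)) (.s 0xfaa88a222775c00b9d7f802a2288 4093 (n false (n false (n true (z 121) e) (n false (n false (n false e e) (n false e e)) (n false (n false e e) (n false e e)))) (n true (n false (z 37) (n false (n false (n false (n false e e) (n false e e)) (n false (n false e e) (n false e e))) (n false e e))) e)) (u 9 1 (k (t 8 2 v) (k (u 8 2 (k v (k v (k (c 24 4099 r (u 16 1 (k v (k v r)))) (k (c 16 4095 r (u 24 0 (k v (k v r)))) (k (c 16 4095 r (u 24 0 (k v (k v r)))) r)))))) r)))
 (.s 0xfa95f5004aef802a88a2213fbf00 4096 (n false (n true (n false (n false (z 52) (z 12)) (n false (n false (n false (n false e e) (n false e e)) (n false (n false e e) (n false e e))) (n false e e))) e) (z 119)) (t 24 3 (u 3 59 (k r (k (c 16 4097 r v) (k (c 40 4099 v (c 12 4099 v r)) (k (c 7 4101 r r) (k (c 7 4099 r r) (k (c 7 4097 r r) (k (c 7 4096 r (c 16 4097 r (u 5 0 (k (u 9 0 (k v (k v r))) r)))) (k (c 5 4098 r r) (k (c 5 4101 r r) (k (c 5 4099 r r) (k (c 5 4101 r r) r)))))))))))))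
 .z .z) .z))) (.s 0xfb9f55802a88a2214faac02a2288 4097 (n false (n false (z 67) (n false (n false (n false e e) (n false e e)) (n false (n false e e) (n false e e)))) (n true (n false (n true (z 67) e) (n false (n false (n false (n false e e) (n false e e)) (n false (n false e e) (n false e e))) (n false e e))) e)) (c 4 4103 r (c 21 4101 v (c 3 4080 r v)))
 (.s 0xfabaa2288845110a7d5c013aff00 4097 (n false (n false (z 121) (z 35)) (n true (n false (n false (n false (n true (n false (n false (n false (n false e e) (n false e e)) (n false (n false e e) (n false e e))) (n false e e)) e) (n false e e)) (n false (n false e e) (n false e e))) (n false e e)) e)) (u 6 0 (k (u 4 1 (k v (k (c 12 4099 r (u 8 1 (k v (k v r)))) (k (c 8 4097 r (u 12 1 (k v (k v r)))) (k (c 8 4095 r (u 12 0 (k v (k v r)))) (k (c 8 4095 r (u 12 0 (k v (k v r)))) r)))))) (k (t 4 2 v) (k (t 14 1 (u 4 15 (k (u 10 0 (k (t 18 3 (t 26 1 v)) r)) (k (u 10 0 (k (t 18 3 (t 26 1 v)) r)) (k (c 2 4094 r v) (k (c 12 4099 r r) r)))))) r))))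
 (.s 0xfaa88a223aa22052bfa8013baa00 4087 (n false (n false (z 156) (z 5)) (n true (n false (n true (n false (n false (n false (n false e e) (n false e e)) (n false e e)) e) e) (n false (n false (n false (n false e e) (n false e e)) (n false (n false e e) (n false e e))) (n false e e))) e)) (t 6 1 (u 4 1 (k v (k (c 12 4099 r (u 8 1 (k v (k v r)))) (k (c 8 4098 r (u 12 1 (k v (k v r)))) (k (c 8 4097 r r) (k (c 8 4099 r (u 12 1 (k v (k v r)))) (k (c 8 4095 r (u 12 0 (k v (k v r)))) r))))))))
 (.s 0xfaa88a222a88a2214faac02a2288 4096 (n false (n false (z 67) (n false (n false (n false e e) (n false e e)) (n false (n false e e) (n false e e)))) (n true (n false (n false (n false (n false (n false e e) (n false e e)) (n false (n false e e) (n false e e))) (n false e e)) (n false (n false (n false (n false e e) (n false e e)) (n false (n false e e) (n false e e))) (n false e e))) e)) (u 4 77 (k v (k v (k v (k v (k (c 12 4099 r (u 8 2 (k v (k v r)))) (k (c 12 4099 r (u 8 0 (k (u 16 0 (k v (k v r))) r))) (k (c 12 4101 r r) (k (c 12 4099 r (u 8 35 (k v (k v (k v (k (c 16 4095 r (u 24 0 (k v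 (k v r)))) (k (c 16 4095 r (u 24 0 (k v (k v r)))) r))))))) (k (c 12 4102 r r) (k (c 8 4101 r r) (k (c 12 4099 r (u 8 3 (k v (k v (k (c 24 4099 r (u 16 1 (k v (k v r)))) r))))) (k (c 8 4101 r r) r)))))))))))))
 .z .z) (.s 0xfaa88a223ea22052bfa8013baa00 4087 (n false (n true (n false (n true (n true (n false (n false (n false e e) (n false e e)) (n false e e)) e) e) (n false (n false (n false (n false e e) (n false e e)) (n false (n false e e) (n false e e))) (n false e e))) e) (n false (z 156) (z 5))) (t 7 1 (u 5 1 (k v (k (c 13 4099 r (u 9 1 (k v (k v r)))) (k (c 9 4098 r (u 13 1 (k v (k v r)))) (k (c 9 4097 r r) (k (c 9 4099 r (u 13 1 (k v (k v r)))) (k (c 9 4095 r (u 13 0 (k v (k v r)))) r))))))))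
 .z .z)) (.s 0xfaea88a2212bbe00aa2288875110 4087 (n false (n true (n false (n false (z 52) (n true (n false (n false (n false (n false e e) (n false e e)) (n false (n false e e) (n false e e))) (n false e e)) e)) (n false (n false (n false (n false e e) (n false e e)) (n false (n false e e) (n false e e))) (n false e e))) e) (n true (n false (n false (n false e e) (n false e e)) (n false e e)) e)) (u 16 136 (k v (k v (k v (k v r)))))
 (.s 0xfabaa2288845110a7d5c013bae00 4097 (n false (n false (z 37) (z 35)) (n true (n false (n false (n false (n true (n false (n false (n false (n false e e) (n false e e)) (n false (n false e e) (n false e e))) (n false e e)) e) (n false e e)) (n false (n false e e) (n false e e))) (n false e e)) e)) (u 4 1 (k (c 6 4096 r v) (k (u 6 0 (k v (k v (k (t 14 1 (u 10 0 (k (t 18 3 (t 26 1 v)) r))) r)))) r)))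
 .z .z) .z)) (.s 0xfbaa228884feec01dcfeec015110 4086 (n false (n true (n false (n true (z 87) e) (n false (n false (n false e e) (n false e e)) (n false e e))) e) (n true (n false (z 87) (n true (n false (n false (n false (n false e e) (n false e e)) (n false (n false e e) (n false e e))) (n false e e)) e)) e)) (u 16 1 (k (u 9 11 (k v (k v r))) (k (u 9 11 (k v (k v r))) r)))
 (.s 0xfb9fdd8027f7600bbaa228887070 4077 (n false (n true (n false (n true (z 87) e) (z 87)) e) (n false (n true (n false (n true (n false (n false (n false (n false e e) (n false e e)) (n false (n false e e) (n false e e))) (n false e e)) e) (n true (n false e e) e)) e) (n true (n false e e) e))) (u 16 6 (k (u 12 0 (k v (k v r))) (k r (k (u 12 0 (k v (k v r))) r))))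
 (.s 0xfb9fdd802577c00a77dc012aaa00 4093 (n false (n true (n false (n true (z 87) e) (z 52)) e) (n false (z 45) (z 0))) (t 7 1 (u 12 275 (k r (k (c 4 4082 (u 4 1 (k v (k v r))) (c 3 4097 (t 2 1 v) v)) (k (c 16 4099 r (t 5 1 v)) (k (c 16 4099 r (c 2 4088 v (t 5 1 v))) (k (t 28 1 (u 20 2 (k r (k (u 5 2 (k (u 16 1 (k v (k v r))) (k (u 16 1 (k v (k v r))) r))) r)))) r)))))))
 .z .z) (.s 0xfb9fdd802a88a2214faac02a2288 4093 (n false (n true (n false (n true (z 87) e) (n false (n false (n false (n false e e) (n false e e)) (n false (n false e e) (n false e e))) (n false e e))) e) (n false (z 67) (n false (n false (n false e e) (n false e e)) (n false (n false e e) (n false e e))))) (u 5 162 (k (u 16 1 (k v (k v r))) (k (c 16 4099 r v) (k (u 16 1 (k v (k v r))) (k (c 16 4099 r v) (k (c 16 4099 r v) (k (c 13 4099 r r) (k (c 9 4099 r r) (k (c 13 4099 r r) (k (c 13 4099 r r) (k (c 13 4099 r r) (k (c 13 4099 r r) r))))))))))))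
 .z .z)) (.s 0xfbaa22888544510a7d5c013bae00 4097 (n false (n false (z 37) (z 35)) (n true (n false (n true (n false (n false (n false (n false e e) (n false e e)) (n false (n false e e) (n false e e))) (n false e e)) e) (n false (n false (n false e e) (n false e e)) (n false (n false e e) (n false e e)))) e)) (u 4 1 (k (c 6 4096 r v) (k (u 6 0 (k v (k v (k (t 14 1 (u 10 0 (k (t 18 3 (t 26 1 v)) r))) r)))) r)))
 (.s 0xfbaa22888544510a7d5c013aff00 4097 (n false (n false (z 121) (z 35)) (n true (n false (n true (n false (n false (n false (n false e e) (n false e e)) (n false (n false e e) (n false e e))) (n false e e)) e) (n false (n false (n false e e) (n false e e)) (n false (n false e e) (n false e e)))) e)) (u 6 0 (k (u 4 1 (k v (k (c 12 4099 r (u 8 1 (k v (k v r)))) (k (c 8 4097 r (u 12 1 (k v (k v r)))) (k (c 8 4095 r (u 12 0 (k v (k v r)))) (k (c 8 4095 r (u 12 0 (k v (k v r)))) r)))))) (k (t 4 2 v) (k (t 14 1 (u 4 15 (k (u 10 0 (k (t 18 3 (t 26 1 v)) r)) (k (u 10 0 (k (t 18 3 (t 26 1 v)) r)) (k (c 2 4094 r v) (k (c 12 4099 r r) r)))))) r))))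
 .z .z) .z))))

set_option maxRecDepth 100000 in
def N246 : NT :=
(.s 0x7551144455114445cfaac012eee00 4095 (n false (n false (n true (z 67) e) (z 42)) (n false (n false (n false (n false (n false e e) (n false e e)) (n false (n false e e) (n false e e))) (n false e e)) (n false (n false (n false (n false e e) (n false e e)) (n false (n false e e) (n false e e))) (n false e e)))) (u 6 1 (k (u 8 0 (k v (k v r))) (k (u 8 0 (k v (k v r))) r)))
 (.s 0x75511444551144452bfa8012bbe00 4094 (n false (n false (z 156) (z 52)) (n false (n false (n false (n false (n false e e) (n false e e)) (n false (n false e e) (n false e e))) (n false e e)) (n false (n false (n false (n false e e) (n false e e)) (n false (n false e e) (n false e e))) (n false e e)))) (u 4 8 (k r (k (c 2 4064 r v) (k (c 12 4099 r r) (k (c 8 4098 r r) (k (c 8 4097 r (u 12 1 (k r (k r r)))) (k (c 8 4099 r r) r)))))))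
 (.s 0x753fbb0095f500551144452abe008 4094 (n false (n false (z 48) (n false e e)) (n false (n false (z 87) (z 12)) (n false (n false (n false (n false e e) (n false e e)) (n false (n false e e) (n false e e))) (n false e e)))) (t 13 3 (c 7 4099 v (u 9 0 (k (u 4 2 (k v (k (c 12 4099 r (t 8 3 v)) (k (u 8 2 (k v (k v r))) r)))) (k (c 21 4099 v r) r)))))
 (.s 0x753baa0095f500551144452eee008 4090 (n false (n false (n false (z 12) (z 5)) (n false (n false (n false (n false e e) (n false e e)) (n false (n false e e) (n false e e))) (n false e e))) (n false (z 42) (n false e e))) (t 8 3 (t 12 1 (u 5 52 (k v (k v (k (t 13 1 (u 9 0 (k (u 17 2 (k v (k (c 9 4084 (u 4 1 (k v (k v r))) v) r))) r))) (k (u 9 2 (k v (k v r))) (k (c 16 4099 v (c 6 4099 v (c 20 4101 v r))) (k (c 16 4099 v (c 6 4099 v (c 20 4101 v r))) r)))))))))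
 (.s 0x752afa009555004ebfc03a77dc010 4093 (n false (n false (z 121) (n false (z 24) (z 0))) (n true (n false (z 45) (n false e e)) e)) (t 14 1 (u 10 0 (k (t 18 3 (t 26 1 (u 4 8 (k (u 9 0 (k v (k v r))) (k (c 6 4096 v (t 9 1 v)) (k (c 6 4096 v (u 9 0 (k v (k v r)))) (k (c 12 4099 r (u 8 1 (k (u 9 0 (k v (k v r))) (k (u 9 0 (k v (k v r))) r)))) r))))))) r)))
 .z .z) (.s 0x753bee008e7f7600aa88a222a2288 4091 (n false (n false (n true (z 87) e) (n false (z 45) (n false e e))) (n false (n false (n false (n false (n false e e) (n false e e)) (n false (n false e e) (n false e e))) (n false e e)) (n false (n false (n false e e) (n false e e)) (n false (n false e e) (n false e e))))) (u 10 0 (k (u 8 1 (k v (k v r))) (k (u 8 1 (k v (k v r))) r)))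
 .z .z)) (.s 0x7551144453bae00554451112eee00 4094 (n false (n false (n false (z 37) e) (n false (n false (n false (n false e e) (n false e e)) (n false (n false e e) (n false e e))) (n false e e))) (n false (z 42) (n false (n false (n false (n false e e) (n false e e)) (n false (n false e e) (n false e e))) (n false e e)))) (u 5 1 (k r (k (c 7 4099 v (u 8 23 (k v (k v (k (c 6 4099 v (u 16 0 (k (t 32 3 (t 48 1 v)) r))) (k (u 16 2 (k v (k v (k v (k (t 48 1 (u 32 0 (k (t 64 3 (t 96 1 v)) r))) r))))) (k (c 2 4087 r v) r))))))) r)))
 (.s 0x7551144453aff00554451112eee00 4094 (n false (n false (n false (z 121) e) (n false (n false (n false (n false e e) (n false e e)) (n false (n false e e) (n false e e))) (n false e e))) (n false (z 42) (n false (n false (n false (n false e e) (n false e e)) (n false (n false e e) (n false e e))) (n false e e)))) (c 7 4099 v (u 5 1 (k r (k (u 8 1 (k v (k (c 24 4099 r (u 16 1 (k v (k v r)))) (k (c 16 4097 r (c 2 4088 r v)) (k (c 16 4095 r r) (k (c 16 4095 r r) r)))))) r))))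
 .z .z) .z)) (.s 0x75511444551144454aef8013eae00 4094 (n false (n false (n false (z 52) e) (z 35)) (n false (n false (n false (n false (n false e e) (n false e e)) (n false (n false e e) (n false e e))) (n false e e)) (n false (n false (n false (n false e e) (n false e e)) (n false (n false e e) (n false e e))) (n false e e)))) (u 8 212 (k (c 6 4096 r v) (k r (k (c 6 4096 r v) (k (c 6 4096 r v) (k (t 24 1 (u 6 0 (k (u 16 0 (k v (k v r))) (k (c 8 4097 (t 2 1 v) v) (k (t 14 1 (u 16 0 (k (u 10 0 (k (t 18 3 (t 26 1 v)) r)) (k (u 10 0 (k (t 18 3 (t 26 1 v)) r)) r)))) r))))) r))))))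
 (.s 0x75511444551144452bfa8013eae00 4095 (n false (n false (z 156) (z 35)) (n false (n false (n false (n false (n false e e) (n false e e)) (n false (n false e e) (n false e e))) (n false e e)) (n false (n false (n false (n false e e) (n false e e)) (n false (n false e e) (n false e e))) (n false e e)))) (u 4 8 (k r (k (c 2 4069 r v) (k (c 12 4099 r (u 8 1 (k r (k r r)))) (k (c 8 4098 r (u 12 1 (k r (k r r)))) (k (c 8 4097 r (u 12 1 (k r (k r r)))) (k (c 8 4099 r (u 12 1 (k r (k r r)))) r)))))))
 (.s 0x75511444551144452bfa8012eee00 4094 (n false (n false (z 42) (z 156)) (n false (n false (n false (n false (n false e e) (n false e e)) (n false (n false e e) (n false e e))) (n false e e)) (n false (n false (n false (n false e e) (n false e e)) (n false (n false e e) (n false e e))) (n false e e)))) (u 6 8 (k (u 4 1 (k v (k v r))) (k (c 2 4067 (u 2 1 (k v (k v r))) v) (k (c 14 4099 r r) (k (c 10 4098 r r) (k (c 10 4097 r r) (k (c 10 4099 r r) r)))))))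
 .z .z) (.s 0x75511444551144452bfa8013ebe00 4096 (n false (n false (z 156) (z 51)) (n false (n false (n false (n false (n false e e) (n false e e)) (n false (n false e e) (n false e e))) (n false e e)) (n false (n false (n false (n false e e) (n false e e)) (n false (n false e e) (n false e e))) (n false e e)))) (t 6 3 (u 4 8 (k v (k v (k (c 12 4099 r (u 8 1 (k v (k v r)))) (k (c 8 4098 r (u 12 1 (k v (k v r)))) (k (c 8 4097 r (u 12 1 (k v (k v r)))) (k (c 8 4099 r (u 12 1 (k v (k v r)))) r))))))))
 .z .z)) (.s 0x7551144455114445cbbb8012eee00 4093 (n false (n false (z 42) (n true (z 42) e)) (n false (n false (n false (n false (n false e e) (n false e e)) (n false (n false e e) (n false e e))) (n false e e)) (n false (n false (n false (n false e e) (n false e e)) (n false (n false e e) (n false e e))) (n false e e)))) (u 4 1 (k (u 10 1 (k v (k v r))) (k (u 10 1 (k v (k v r))) r)))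
 (.s 0x7551144455114445caef8013eae00 4094 (n false (n false (n true (z 52) e) (z 35)) (n false (n false (n false (n false (n false e e) (n false e e)) (n false (n false e e) (n false e e))) (n false e e)) (n false (n false (n false (n false e e) (n false e e)) (n false (n false e e) (n false e e))) (n false e e)))) (u 8 103 (k r (k r (k (c 6 4096 r v) (k (c 6 4096 r v) (k (t 24 1 (u 6 0 (k (u 16 0 (k v (k v r))) (k (c 8 4097 (t 2 1 v) v) (k (t 14 1 (u 10 0 (k (t 18 3 (t 26 1 (u 16 0 (k v (k v r))))) r))) r))))) r))))))
 .z .z) .z))) (.s 0x75544511154451112bbe00e577c00 4091 (n false (n false (z 52) (n false (n false (n false (n false (n false e e) (n false e e)) (n false (n false e e) (n false e e))) (n false e e)) (n false (n false (n false (n false e e) (n false e e)) (n false (n false e e) (n false e e))) (n false e e)))) (n true (z 52) e)) (u 5 341 (k r (k (c 6 4101 v r) (k (u 4 166 (k v (k v (k v (k v (k (t 12 1 (u 8 0 (k v (k v r)))) r)))))) (k (c 4 4097 r v) (k (t 13 1 (u 9 2 (k r (k r r)))) r))))))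
 (.s 0x75511444551144474eea80275f600 4096 (n false (n true (n false (z 89) (z 5)) e) (n false (n false (n false (n false (n false e e) (n false e e)) (n false (n false e e) (n false e e))) (n false e e)) (n false (n false (n false (n false e e) (n false e e)) (n false (n false e e) (n false e e))) (n false e e)))) (t 12 1 (u 8 42 (k v (k v (k v (k v (k (t 24 3 (u 16 26 (k v (k v (k v r))))) (k (c 24 4099 r (c 20 4101 v (u 16 0 (k (u 32 251 (k v (k v (k v (k (t 96 1 (u 64 7 (k v (k v r)))) r))))) (k (c 32 4096 r (u 48 0 (k v (k v r)))) (k (u 32 1 (k v (k v r))) (k (c 48 4096 r (u 32 254 (k v (k v (k v (k (t 96 1 (u 64 7 (k v (k v r)))) r)))))) r))))))) r))))))))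
 (.s 0x7551144455114445cfeec012eee00 4091 (n false (n false (n true (z 87) e) (z 42)) (n false (n false (n false (n false (n false e e) (n false e e)) (n false (n false e e) (n false e e))) (n false e e)) (n false (n false (n false (n false e e) (n false e e)) (n false (n false e e) (n false e e))) (n false e e)))) (u 6 9 (k (u 8 1 (k v (k v r))) (k (c 8 4099 r v) (k (u 8 1 (k v (k v r))) r))))
 (.s 0x7551144455114445cfeec012bbe00 4091 (n false (n false (n true (z 87) e) (z 52)) (n false (n false (n false (n false (n false e e) (n false e e)) (n false (n false e e) (n false e e))) (n false e e)) (n false (n false (n false (n false e e) (n false e e)) (n false (n false e e) (n false e e))) (n false e e)))) (u 6 170 (k (u 8 1 (k v (k v r))) (k (c 8 4099 r v) (k (c 2 4082 (u 4 1 (k v (k v r))) v) (k (c 8 4099 r v) (k (c 2 4081 (u 4 1 (k v (k v r))) v) (k (t 14 1 (u 10 0 (k (u 8 1 (k v (k v r))) (k (u 8 1 (k v (k v r))) r)))) r)))))))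
 .z .z) (.s 0x75511444551144474eea8025ddc00 4096 (n false (n true (n false (z 42) (z 5)) e) (n false (n false (n false (n false (n false e e) (n false e e)) (n false (n false e e) (n false e e))) (n false e e)) (n false (n false (n false (n false e e) (n false e e)) (n false (n false e e) (n false e e))) (n false e e)))) (t 12 1 (u 8 16 (k v (k v (k (c 4 4090 r v) (k (c 4 4090 (c 3 4099 v r) v) (k (c 4 4090 r v) (k (c 4 4090 r v) r))))))))
 .z .z)) (.s 0x75544511154451112aff00aa22888 4094 (n false (n false (z 120) (n false (n false (n false (n false (n false e e) (n false e e)) (n false (n false e e) (n false e e))) (n false e e)) (n false (n false (n false (n false e e) (n false e e)) (n false (n false e e) (n false e e))) (n false e e)))) (n false (n false (n false (n false e e) (n false e e)) (n false (n false e e) (n false e e))) (n false e e))) (u 4 26 (k v (k (c 12 4099 r (u 8 65 (k v (k v (k v (k (c 16 4099 r r) r)))))) (k (c 12 4096 r (c 10 4099 v r)) (k (c 12 4100 r (u 8 0 (k (u 16 0 (k v (k v r))) r))) (k (c 12 4099 r (u 8 1 (k v (k v r)))) (k (c 8 4098 r (u 12 1 (k v (k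 v r)))) (k (c 8 4101 r (u 12 0 (k v (k v r)))) (k (c 12 4099 r (u 8 10 (k v (k v (k (c 24 4097 r (u 16 1 (k v (k v r)))) (k (c 24 4097 r (u 16 1 (k v (k v r)))) r)))))) (k (c 12 4099 r (u 8 1 (k v (k v r)))) (k (c 8 4101 r (u 12 0 (k v (k v r)))) r)))))))))))
 (.s 0x7553eab00e8845511444754451108 4078 (n false (n false (n false (n false (n false (z 67) (n true (n false (n false e e) (n false e e)) e)) (n false e e)) (n false (n false (n false (n false e e) (n false e e)) (n false (n false e e) (n false e e))) (n false e e))) (n true (n false (n false (n false (n false e e) (n false e e)) (n false (n false e e) (n false e e))) (n false e e)) e)) (n false e e)) (c 12 4099 v (u 32 0 (k v (k v r))))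
 .z .z) .z)) (.s 0x7554451115445111cfeec01d44510 4085 (n false (n false (n true (z 87) e) (n false (n false (n false (n false (n false e e) (n false e e)) (n false (n false e e) (n false e e))) (n false e e)) (n false (n false (n false (n false e e) (n false e e)) (n false (n false e e) (n false e e))) (n false e e)))) (n true (n false (n false (n false e e) (n false e e)) (n false (n false e e) (n false e e))) e)) (c 10 4099 v (u 8 1 (k v (k v r))))
 (.s 0x75544511154451113eab00aa22888 4094 (n false (n false (z 67) (n false (n false (n false (n false (n false e e) (n false e e)) (n false (n false e e) (n false e e))) (n false e e)) (n false (n false (n false (n false e e) (n false e e)) (n false (n false e e) (n false e e))) (n false e e)))) (n false (n false (n false (n false e e) (n false e e)) (n false (n false e e) (n false e e))) (n false e e))) (u 4 79 (k v (k v (k v (k (c 12 4099 r (u 8 2 (k v (k v r)))) (k (c 8 4101 r (u 12 0 (k v (k v r)))) (k (c 12 4099 r (u 8 9 (k v (k v (k (u 16 26 (k v (k v r))) r))))) (k (u 8 20 (k v (k v (k v (k v r))))) (k (c 12 4099 r (u 8 0 (k (u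 16 0 (k v (k v r))) r))) (k (c 12 4101 r (u 8 1 (k v (k v r)))) (k (c 12 4099 r (u 8 44 (k v (k v (k v (k v (k v r))))))) (k (c 12 4102 r (u 8 1 (k v (k v r)))) (k (c 12 4100 r (u 8 10 (k v (k (c 24 4101 r r) (k (c 16 4101 r r) (k (c 16 4101 r r) r)))))) (k (c 8 4101 r (u 12 1 (k v (k v r)))) (k (c 12 4099 r (u 8 3 (k v (k v (k (c 24 4099 r (u 16 1 (k v (k v r)))) r))))) (k (c 8 4101 r (u 12 1 (k v (k v r)))) r))))))))))))))))
 (.s 0x75544511154451113bae00aa22888 4094 (n false (n false (n false (n false (n false (n false (n false e e) (n false e e)) (n false (n false e e) (n false e e))) (n false e e)) (n false (n false (n false (n false e e) (n false e e)) (n false (n false e e) (n false e e))) (n false e e))) (z 37)) (n false (n false (n false (n false e e) (n false e e)) (n false (n false e e) (n false e e))) (n false e e))) (u 6 41 (k v (k v (k r (k (u 10 3 (k v (k v r))) (k (c 8 4099 v (u 10 0 (k (t 18 3 (t 26 1 v)) r))) r))))))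
 .z .z) (.s 0x7554451115445111cbfa801d44510 4085 (n false (n false (n true (z 14) e) (n false (n false (n false (n false (n false e e) (n false e e)) (n false (n false e e) (n false e e))) (n false e e)) (n false (n false (n false (n false e e) (n false e e)) (n false (n false e e) (n false e e))) (n false e e)))) (n true (n false (n false (n false e e) (n false e e)) (n false (n false e e) (n false e e))) e)) (c 10 4099 v (u 8 0 (k v (k v r))))
 .z .z)) (.s 0x755d5114442288852bfa8012bbe00 4094 (n false (n false (z 156) (z 52)) (n false (n false (n false (n false (n true (n false (n false (n false (n false e e) (n false e e)) (n false (n false e e) (n false e e))) (n false e e)) e) (n false e e)) (n false (n false e e) (n false e e))) (n false e e)) e)) (u 4 8 (k r (k (c 2 4064 r v) (k (c 12 4099 r r) (k (c 8 4098 r r) (k (c 8 4097 r (u 12 1 (k r (k r r)))) (k (c 8 4099 r r) r)))))))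
 (.s 0x755d511444227554010ee7ddc00e0 4085 (n false (n true (n false (n true (z 43) e) (n true (n false e e) e)) e) (n false (n false (n false (n false (n true (n false (n false (n false (n false e e) (n false e e)) (n false (n false e e) (n false e e))) (n false e e)) e) (n false e e)) (z 1)) (n false e e)) e)) (t 25 1 (u 16 0 (k v (k (u 32 1 (k v (k v r))) (k (c 48 4099 r (u 32 0 (k (u 64 0 (k v (k v r))) r))) (k (c 2 4087 r v) (k (c 2 4069 r v) (k (u 32 0 (k (u 64 0 (k v (k v r))) r)) (k (u 32 2 (k v (k v (k (c 96 4099 r (u 64 1 (k v (k v r)))) (k (c 64 4095 r (u 96 0 (k v (k v r)))) (k (c 64 4095 r (u 96 0 (k v (k v r)))) r)))))) (k (u 32 2 (k v (k (c 96 4099 r (u 64 1 (k v (k v r)))) (k (c 64 4095 r (u 96 0 (k v (k v r)))) r)))) r))))))))))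
 .z .z) .z))))

set_option maxRecDepth 100000 in
def N247 : NT :=
(.s 0x75d5114442a2288a9dd5004bfb800 4088 (n false (n false (n false (n false (z 46) (z 5)) e) (n false (n true (n false (n false (n false (n false e e) (n false e e)) (n false (n false e e) (n false e e))) (n false e e)) e) (n false (n false (n false e e) (n false e e)) (n false (n false e e) (n false e e))))) e) (t 24 2 (c 10 4110 v (u 16 1 (k v (k (u 32 1 (k v (k v r))) (k (c 48 4099 r (u 32 0 (k v (k v r)))) (k (u 32 1 (k v (k v r))) (k (c 48 4097 r (u 32 1 (k v (k v r)))) (k (c 32 4095 r (u 48 1 (k v (k v r)))) r)))))))))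
 (.s 0x75d5114442a22885cbbb8012eee00 4093 (n false (n false (z 42) (n true (z 42) e)) (n false (n false (n true (n false (n false (n false (n false e e) (n false e e)) (n false (n false e e) (n false e e))) (n false e e)) e) (n false (n false (n false e e) (n false e e)) (n false (n false e e) (n false e e)))) e)) (u 4 1 (k (u 10 1 (k v (k v r))) (k (u 10 1 (k v (k v r))) r)))
 (.s 0x7575445110e154451114faac03a20 4078 (n false (n false (n false (z 67) (n true (n false (n false e e) (n false e e)) e)) (n false (n false (n true (n false (n false (n false (n false e e) (n false e e)) (n false (n false e e) (n false e e))) (n false e e)) e) (n true (n false e e) e)) (n false (n false (n false (n false e e) (n false e e)) (n false (n false e e) (n false e e))) (n false e e)))) e) (c 14 4099 v (u 8 0 (k v (k v r))))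
 (.s 0x755d511444228885cfeec012bbe00 4091 (n false (n false (n true (z 87) e) (z 52)) (n false (n false (n false (n false (n true (n false (n false (n false (n false e e) (n false e e)) (n false (n false e e) (n false e e))) (n false e e)) e) (n false e e)) (n false (n false e e) (n false e e))) (n false e e)) e)) (u 6 216 (k (u 8 1 (k v (k v r))) (k (c 8 4099 r v) (k (c 2 4082 (u 4 1 (k v (k v r))) v) (k (c 8 4099 r v) (k (t 14 1 (u 10 0 (k (u 8 1 (k v (k v r))) (k (u 8 1 (k v (k v r))) r)))) r))))))
 (.s 0x755d511444228885cbbb8012eee00 4093 (n false (n false (n true (z 42) e) (z 42)) (n false (n false (n false (n false (n true (n false (n false (n false (n false e e) (n false e e)) (n false (n false e e) (n false e e))) (n false e e)) e) (n false e e)) (n false (n false e e) (n false e e))) (n false e e)) e)) (u 8 1 (k (u 6 9 (k v (k v (k v r)))) (k (u 6 1 (k v (k v r))) r)))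
 .z .z) (.s 0x755d511444228885cfeec012eee00 4091 (n false (n false (n true (z 87) e) (z 42)) (n false (n false (n false (n false (n true (n false (n false (n false (n false e e) (n false e e)) (n false (n false e e) (n false e e))) (n false e e)) e) (n false e e)) (n false (n false e e) (n false e e))) (n false e e)) e)) (u 8 1 (k (u 6 9 (k v (k v (k v r)))) (k (u 6 1 (k v (k v r))) r)))
 .z .z)) (.s 0x75d5114442577c01c3a577c01dc20 4081 (n false (n false (n false (z 52) (n true (n false (n false (n false (n false e e) (n false e e)) (n false (n false e e) (n false e e))) (n false e e)) e)) (n true (n false e e) e)) (n true (n false (z 52) (n true (n false (n true (n false e e) e) (n false e e)) e)) e)) (u 9 366 (k (u 8 26 (k v (k v (k v r)))) (k (t 8 1 v) (k (c 21 4092 v r) (k (t 8 1 v) (k (c 8 4097 r v) r))))))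
 (.s 0x75cfeec0154451115114453bee008 4091 (n false (n false (n false (n true (z 87) e) (n false (n false (n false (n false e e) (n false e e)) (n false (n false e e) (n false e e))) (n false e e))) (n false (n false (n false e e) (n false e e)) (n false (n false e e) (n false e e)))) (n false (z 45) (n false e e))) (u 5 2 (k (u 16 1 (k v (k v r))) (k (u 16 1 (k v (k v r))) r)))
 .z .z) .z)) (.s 0x75d5114442a228895fd400e5fd400 4091 (n false (n false (z 156) (n false (n true (n false (n false (n false (n false e e) (n false e e)) (n false (n false e e) (n false e e))) (n false e e)) e) (n false (n false (n false e e) (n false e e)) (n false (n false e e) (n false e e))))) (n true (z 14) e)) (u 4 22 (k r (k (u 5 0 (k v (k v r))) (k (c 2 4069 v (c 5 4097 r v)) (k (c 12 4099 r (u 5 0 (k (u 8 1 (k v (k v r))) (k (u 8 1 (k v (k v r))) r)))) r)))))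
 (.s 0x75d5114442a22888a7f7c013baa00 4088 (n false (n false (z 55) (z 5)) (n false (n false (n true (n false (n false (n false (n false e e) (n false e e)) (n false (n false e e) (n false e e))) (n false e e)) e) (n false (n false (n false e e) (n false e e)) (n false (n false e e) (n false e e)))) (n false e e))) (c 6 4099 r (c 13 4101 v r))
 (.s 0x75d5114442a22885cfeec012eee00 4091 (n false (n false (n true (z 87) e) (z 42)) (n false (n false (n true (n false (n false (n false (n false e e) (n false e e)) (n false (n false e e) (n false e e))) (n false e e)) e) (n false (n false (n false e e) (n false e e)) (n false (n false e e) (n false e e)))) e)) (u 6 1 (k (u 8 1 (k v (k v r))) (k (u 8 1 (k v (k v r))) r)))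
 .z .z) (.s 0x75d5114442a228895fd400e577c00 4091 (n false (n false (z 156) (n false (n true (n false (n false (n false (n false e e) (n false e e)) (n false (n false e e) (n false e e))) (n false e e)) e) (n false (n false (n false e e) (n false e e)) (n false (n false e e) (n false e e))))) (n true (z 52) e)) (u 4 3 (k (u 5 156 (k v (k v (k v (k v (k (t 13 1 (u 9 0 (k v (k v r)))) r)))))) (k (c 2 4069 v (c 5 4097 r v)) (k (c 12 4099 r (u 5 297 (k (u 8 1 (k v (k v r))) (k (u 8 1 (k v (k v r))) (k (u 8 1 (k v (k v r))) (k (c 8 4099 r v) (k (c 8 4099 r v) (k (c 8 4099 r v) (k (t 13 1 r) r))))))))) r))))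
 .z .z)) (.s 0x75d5114442a2288a5ddc00e7f7600 4092 (n false (n false (n false (z 42) e) (n false (n true (n false (n false (n false (n false e e) (n false e e)) (n false (n false e e) (n false e e))) (n false e e)) e) (n false (n false (n false e e) (n false e e)) (n false (n false e e) (n false e e))))) (n true (z 87) e)) (u 8 0 (k (u 5 1 (k v (k v r))) (k (u 5 1 (k v (k v r))) r)))
 (.s 0x75d5114442a228895fd400e7f7600 4092 (n false (n true (z 87) e) (n false (z 156) (n false (n true (n false (n false (n false (n false e e) (n false e e)) (n false (n false e e) (n false e e))) (n false e e)) e) (n false (n false (n false e e) (n false e e)) (n false (n false e e) (n false e e)))))) (u 5 3 (k (u 4 1 (k v (k v r))) (k (c 3 4069 v (c 4 4099 r v)) (k (c 13 4099 r r) r))))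
 .z .z) .z))) (.s 0x774ebfc025ddc00baa22888544510 4090 (n false (n false (n true (n false (z 121) (z 42)) e) (n false (n true (n false (n false (n false (n false e e) (n false e e)) (n false (n false e e) (n false e e))) (n false e e)) e) (n false (n false (n false e e) (n false e e)) (n false (n false e e) (n false e e))))) e) (t 24 1 (c 10 4110 v (u 16 1 (k v (k (c 48 4099 r (u 32 1 (k v (k v r)))) (k (c 32 4097 r (u 48 1 (k v (k v r)))) (k (c 32 4095 r (u 48 0 (k v (k v r)))) (k (c 32 4095 r (u 48 0 (k v (k v r)))) r))))))))
 (.s 0x772bbe00551144477d75445110880 4084 (n false (n true (n false (n true (n true (n false (n false (n true (n false (n false (n false (n false e e) (n false e e)) (n false (n false e e) (n false e e))) (n false e e)) e) (n false e e)) (n false e e)) e) e) e) e) (n false (n true (z 52) e) (n false (n false (n false (n false e e) (n false e e)) (n false (n false e e) (n false e e))) (n false e e)))) (u 9 424 (k v (k v (k v (k v (k v (k v (k (t 25 1 (u 17 2 (k v (k v r)))) r))))))))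
 (.s 0x75d5114442a2288e7f760095fd400 4092 (n false (n false (n true (z 87) e) (n false (n true (n false (n false (n false (n false e e) (n false e e)) (n false (n false e e) (n false e e))) (n false e e)) e) (n false (n false (n false e e) (n false e e)) (n false (n false e e) (n false e e))))) (z 156)) (u 3 4 (k (u 8 1 (k v (k v r))) (k (c 7 4099 r r) r)))
 (.s 0x75d5114442a2288e577c0095fd400 4091 (n false (z 156) (n false (n true (z 52) e) (n false (n true (n false (n false (n false (n false e e) (n false e e)) (n false (n false e e) (n false e e))) (n false e e)) e) (n false (n false (n false e e) (n false e e)) (n false (n false e e) (n false e e)))))) (u 2 9 (k r (k r (k (u 4 0 (k (c 6 4099 r r) (k (t 6 1 r) r))) r))))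
 .z .z) (.s 0x75d5114442a2288e7f7600e7f7600 4089 (n false (n false (n true (z 87) e) (n false (n true (n false (n false (n false (n false e e) (n false e e)) (n false (n false e e) (n false e e))) (n false e e)) e) (n false (n false (n false e e) (n false e e)) (n false (n false e e) (n false e e))))) (n true (z 87) e)) (u 8 1 (k (u 5 1 (k v (k v r))) (k (u 5 1 (k v (k v r))) r)))
 .z .z)) (.s 0x772eee005511444755114447d4440 4086 (n false (n false (n true (z 42) e) (n false (n false (n false (n false e e) (n false e e)) (n false (n false e e) (n false e e))) (n false e e))) (n true (n false (n true (n true (n false (n false (n false e e) (n false e e)) (n false e e)) e) e) (n false (n false (n false (n false e e) (n false e e)) (n false (n false e e) (n false e e))) (n false e e))) e)) (c 3 4090 v (c 10 4101 v r))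
 (.s 0x772eee00551144475511444754440 4086 (n false (n true (n false (n true (n false (n false (n false (n false e e) (n false e e)) (n false e e)) e) e) (n false (n false (n false (n false e e) (n false e e)) (n false (n false e e) (n false e e))) (n false e e))) e) (n false (n true (z 42) e) (n false (n false (n false (n false e e) (n false e e)) (n false (n false e e) (n false e e))) (n false e e)))) (c 2 4090 v (c 11 4101 v r))
 .z .z) .z)) (.s 0x7d54451115445110b9fdd802a2288 4091 (n false (n false (n true (z 87) e) (n false (n false (n false e e) (n false e e)) (n false (n false e e) (n false e e)))) (n true (n false (n false (n false (n false (n false e e) (n false e e)) (n false (n false e e) (n false e e))) (n false e e)) (n false (n false (n false (n false e e) (n false e e)) (n false (n false e e) (n false e e))) (n false e e))) e)) (u 8 13 (k v (k v (k v (k v r)))))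
 (.s 0x7d4abe802555400554451113afb00 4096 (n false (n false (z 89) (n false (n false (n false (n false e e) (n false e e)) (n false (n false e e) (n false e e))) (n false e e))) (n true (n false (n false (z 24) (z 0)) e) e)) (t 25 1 (u 4 70 (k (u 17 0 (k (t 33 3 (t 49 1 v)) r)) (k (c 10 4101 v (u 17 0 (k (t 33 3 (t 49 1 v)) r))) (k (c 10 4101 v (u 17 0 (k (t 33 3 (t 49 1 v)) r))) (k (c 6 4099 v (u 17 0 (k (t 33 3 (t 49 1 v)) r))) (k (t 12 3 (u 8 26 (k (u 17 0 (k (t 33 3 (t 49 1 v)) r)) (k (c 17 4098 r v) (k (u 17 0 (k (t 33 3 (t 49 1 v)) r)) r))))) r)))))))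
 (.s 0x774eeb8025ddc00baa22888544510 4090 (n false (n false (n true (n false (z 42) (z 37)) e) (n false (n true (n false (n false (n false (n false e e) (n false e e)) (n false (n false e e) (n false e e))) (n false e e)) e) (n false (n false (n false e e) (n false e e)) (n false (n false e e) (n false e e))))) e) (t 16 1 (u 24 7 (k v (k (c 14 4101 v (c 18 4099 v r)) (k (u 40 17 (k v (k v (k v r)))) (k (c 8 4086 (c 2 4094 v r) v) r))))))
 .z .z) (.s 0x7d54451113bae005cafea002a2288 4093 (n false (n true (n false (z 37) (n false (n false (n false (n false e e) (n false e e)) (n false (n false e e) (n false e e))) (n false e e))) e) (n false (n true (z 156) e) (n false (n false (n false e e) (n false e e)) (n false (n false e e) (n false e e))))) (u 8 1 (k (t 9 1 v) (k (u 9 14 (k v (k v (k (c 25 4099 r (u 17 1 (k v (k v r)))) (k (c 17 4099 r (u 25 1 (k v (k v r)))) (k (c 17 4095 r (u 25 0 (k v (k v r)))) r)))))) r)))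
 .z .z)) (.s 0x7d5d5114442288852bfa8013eae00 4097 (n false (n false (z 156) (z 35)) (n true (n false (n false (n false (n true (n false (n false (n false (n false e e) (n false e e)) (n false (n false e e) (n false e e))) (n false e e)) e) (n false e e)) (n false (n false e e) (n false e e))) (n false e e)) e)) (u 4 10 (k (c 6 4096 r v) (k (c 6 4096 r v) (k (c 2 4069 r v) (k (c 8 4099 r (u 6 0 (k (u 12 1 (k v (k v r))) (k (c 12 4099 r v) (k (t 14 1 r) r))))) r)))))
 (.s 0x7d5754451108a220b9fdd802a2288 4091 (n false (n false (n true (z 87) e) (n false (n false (n false e e) (n false e e)) (n false (n false e e) (n false e e)))) (n true (n false (n false (n false (n false (n true (n false (n false (n false (n false e e) (n false e e)) (n false (n false e e) (n false e e))) (n false e e)) e) (n false e e)) (n false (n false e e) (n false e e))) (n false e e)) e) e)) (u 8 13 (k v (k v (k v (k v r)))))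
 .z .z) .z))))

set_option maxRecDepth 100000 in
def N248 : NT :=
(.s 0x3aa55f401095df0074efb802555400 4091 (n false (n true (n false (z 45) (z 0)) e) (n false (z 52) (n false (n false (z 24) (n false e e)) e))) (t 12 1 (u 5 257 (k r (k (c 11 4096 (c 2 4098 r v) (t 8 1 v)) (k (c 3 4085 (u 9 0 (k (t 17 3 (t 25 1 v)) r)) (c 4 4097 (t 2 1 v) v)) (k (u 19 0 (k (t 35 3 (t 51 1 (u 8 0 (k v (k v r))))) r)) (k (c 7 4101 (u 4 0 (k (t 8 3 (t 12 1 v)) r)) (u 8 0 (k v (k v r)))) r)))))))
 (.s 0x7dd51144425fd400b9d7f802a2288 4088 (n false (n false (n true (z 121) e) (n false (n false (n false e e) (n false e e)) (n false (n false e e) (n false e e)))) (n true (n false (z 14) (n true (n false (n false (n false (n false e e) (n false e e)) (n false (n false e e) (n false e e))) (n false e e)) e)) e)) (u 9 0 (k r (k (u 8 2 (k v (k v (k (c 24 4099 r (u 16 1 (k v (k v r)))) (k (c 16 4095 r (u 24 0 (k v (k v r)))) (k (c 16 4095 r (u 24 0 (k v (k v r)))) r)))))) r)))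
 (.s 0x7dcbbb8015445110ebaa2288870e0 4085 (n false (n true (n false (n true (z 42) e) (n false (n false (n false (n false e e) (n false e e)) (n false (n false e e) (n false e e))) (n false e e))) e) (n true (n false (n false (n true (n false (n false (n false (n false e e) (n false e e)) (n false (n false e e) (n false e e))) (n false e e)) e) (n true (n false e e) e)) (n true (n false e e) e)) e)) (c 2 4088 (c 10 4101 v r) v)
 (.s 0x7dcbbb8015445110aa88a223aa220 4086 (n false (n false (n true (n false (n false (n false (n false e e) (n false e e)) (n false e e)) e) e) (n false (n false (n false (n false e e) (n false e e)) (n false (n false e e) (n false e e))) (n false e e))) (n true (n false (n true (z 42) e) (n false (n false (n false (n false e e) (n false e e)) (n false (n false e e) (n false e e))) (n false e e))) e)) (c 3 4088 (c 10 4101 v r) v)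
 (.s 0x7d75445110e15445110a75fe01708 4084 (n false (n true (n false (n false (n true (n false (n false (n false (n false e e) (n false e e)) (n false (n false e e) (n false e e))) (n false e e)) e) (n true (n false e e) e)) (n false (n false (n false (n false e e) (n false e e)) (n false (n false e e) (n false e e))) (n false e e))) e) (n false (z 121) (n false (n true (n false e e) e) (n false e e)))) (c 20 4101 v (u 5 4 (k v (k v (k (c 13 4099 r (u 9 1 (k v (k v r)))) (k (c 9 4097 r r) r))))))
 .z .z) (.s 0x7dcbbb8015445110aa88a223ea220 4086 (n false (n true (n false (n true (z 42) e) (n false (n false (n false (n false e e) (n false e e)) (n false (n false e e) (n false e e))) (n false e e))) e) (n false (n true (n true (n false (n false (n false e e) (n false e e)) (n false e e)) e) e) (n false (n false (n false (n false e e) (n false e e)) (n false (n false e e) (n false e e))) (n false e e)))) (c 2 4088 (c 10 4101 v r) v)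
 .z .z)) (.s 0x7dcfeec015445110b9dd7002a2288 4090 (n false (n true (n false (n true (z 87) e) (n false (n false (n false (n false e e) (n false e e)) (n false (n false e e) (n false e e))) (n false e e))) e) (n false (n true (z 37) e) (n false (n false (n false e e) (n false e e)) (n false (n false e e) (n false e e))))) (u 9 1 (k (c 16 4099 r v) (k (u 16 1 (k v (k v r))) r)))
 (.s 0x7dcfeec015445110b9d7f802a2288 4090 (n false (n true (n false (n true (z 87) e) (n false (n false (n false (n false e e) (n false e e)) (n false (n false e e) (n false e e))) (n false e e))) e) (n false (n true (z 121) e) (n false (n false (n false e e) (n false e e)) (n false (n false e e) (n false e e))))) (u 9 2 (k (u 16 1 (k v (k v r))) (k (u 16 1 (k v (k v r))) (k (c 25 4099 r r) (k (c 17 4095 r r) (k (c 17 4095 r r) r))))))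
 .z .z) .z)) (.s 0x3a95fd4005511444554451112eee00 4094 (n false (n false (z 42) (n false (n false (n false (n false e e) (n false e e)) (n false (n false e e) (n false e e))) (n false e e))) (n false (n false (z 156) e) (n false (n false (n false (n false e e) (n false e e)) (n false (n false e e) (n false e e))) (n false e e)))) (u 4 1 (k r (k (c 6 4099 v (u 9 8 (k v (k v (k (c 25 4099 r (u 17 1 (k v (k v r)))) (k (c 17 4098 r (u 25 1 (k v (k v r)))) (k (c 17 4097 r (c 3 4088 r v)) (k (c 17 4099 r (u 25 1 (k v (k v r)))) r)))))))) r)))
 (.s 0x7dd5114442a228852bfa8013eae00 4097 (n false (n false (z 156) (z 35)) (n true (n false (n true (n false (n false (n false (n false e e) (n false e e)) (n false (n false e e) (n false e e))) (n false e e)) e) (n false (n false (n false e e) (n false e e)) (n false (n false e e) (n false e e)))) e)) (u 4 10 (k (c 6 4096 r v) (k (c 6 4096 r v) (k (c 2 4069 r v) (k (c 12 4099 r (u 6 0 (k (u 8 1 (k v (k v r))) (k (c 8 4099 r v) (k (t 14 1 r) r))))) r)))))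
 (.s 0x7dd51144425fd400b9dd7002a2288 4088 (n false (n true (n false (z 14) (n true (n false (n false (n false (n false e e) (n false e e)) (n false (n false e e) (n false e e))) (n false e e)) e)) e) (n false (n true (z 37) e) (n false (n false (n false e e) (n false e e)) (n false (n false e e) (n false e e))))) (u 9 1 (k (t 8 1 v) (k (u 8 0 (k v (k v r))) r)))
 .z .z) (.s 0x7f4eeb802577c00554451113afb00 4098 (n false (n true (n true (n false (z 52) (z 37)) e) e) (n false (z 89) (n false (n false (n false (n false e e) (n false e e)) (n false (n false e e) (n false e e))) (n false e e)))) (t 24 1 (u 5 39 (k r (k (t 16 1 v) (k (c 11 4101 v r) (k (c 7 4099 v r) (k (t 13 3 (u 16 6 (k r (k (u 9 26 (k v (k v (k v r)))) (k (c 9 4097 r (c 11 4101 v (t 48 1 (u 32 0 (k v (k v r)))))) r))))) (k (c 13 4099 r (c 11 4101 v (c 9 4096 r r))) r))))))))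
 .z .z)) (.s 0x3a9dd7004eea802a2288baa2288870 4086 (n false (n false (n false (z 37) (z 5)) (n false (n false (n false e e) (n false e e)) (n false (n false e e) (n false e e)))) (n false (n true (n false (n false (n false (n false e e) (n false e e)) (n false (n false e e) (n false e e))) (n false e e)) e) (n true (n false e e) e))) (t 12 1 (u 8 23 (k v (k v (k (u 16 0 (k (t 32 3 (t 48 1 v)) r)) (k (u 16 0 (k v (k v (k (t 48 1 (u 32 0 (k (t 64 3 (t 96 1 v)) r))) r)))) (k (c 4 4091 (c 3 4099 v r) v) r)))))))
 (.s 0x3a9dd5004ebfc02a2288baa2288870 4086 (n false (n false (n false (z 121) (z 5)) (n false (n false (n false e e) (n false e e)) (n false (n false e e) (n false e e)))) (n false (n true (n false (n false (n false (n false e e) (n false e e)) (n false (n false e e) (n false e e))) (n false e e)) e) (n true (n false e e) e))) (t 12 1 (u 8 53 (k v (k v (k v (k (c 24 4099 r (u 16 1 (k v (k v r)))) (k (c 16 4095 r (u 24 0 (k v (k v r)))) (k (c 16 4095 r (u 24 0 (k v (k v r)))) r))))))))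
 .z .z) .z))) (.s 0x3aaa22888aa22888a9fd5804fab800 4090 (n false (n false (n false (n false (z 71) (z 35)) e) (n false (n false (n false (n false (n false e e) (n false e e)) (n false (n false e e) (n false e e))) (n false e e)) (n false (n false (n false (n false e e) (n false e e)) (n false (n false e e) (n false e e))) (n false e e)))) e) (t 24 1 (c 10 4099 v (u 16 1 (k v (k (c 48 4099 r (u 32 1 (k v (k v r)))) (k (u 32 0 (k v (k v r))) (k (c 32 4099 r (u 48 1 (k v (k v r)))) (k (c 32 4099 r (u 48 1 (k v (k v r)))) (k (c 32 4099 r (u 48 1 (k v (k v r)))) r)))))))))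
 (.s 0x3aaa22888aa22888a7d5c00aa22888 4094 (n false (n false (n false (z 35) e) (n false (n false (n false (n false (n false e e) (n false e e)) (n false (n false e e) (n false e e))) (n false e e)) (n false (n false (n false (n false e e) (n false e e)) (n false (n false e e) (n false e e))) (n false e e)))) (n false (n false (n false (n false e e) (n false e e)) (n false (n false e e) (n false e e))) (n false e e))) (u 8 0 (k v (k v (k (t 24 1 (u 16 0 (k (t 32 3 (t 48 1 v)) r))) r))))
 (.s 0x3aaa22888aa228889ddd8075445110 4091 (n false (n false (z 85) (n false (n false (n false (n false (n false e e) (n false e e)) (n false (n false e e) (n false e e))) (n false e e)) (n false (n false (n false (n false e e) (n false e e)) (n false (n false e e) (n false e e))) (n false e e)))) (n true (n false (n false (n false (n false e e) (n false e e)) (n false (n false e e) (n false e e))) (n false e e)) e)) (u 4 41 (k v (k v (k (c 10 4099 v (c 14 4099 v (c 5 4099 v r))) (k (c 12 4096 r (c 10 4099 v (c 5 4099 v r))) (k (c 8 4099 r (u 12 304 (k v (k v (k v (k (t 28 1 (u 20 2 (k v (k v r))))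 r)))))) r))))))
 (.s 0x3aa7776013baa00551144475445110 4097 (n false (n false (n false (n false (z 85) (z 5)) e) (n false (n false (n false (n false e e) (n false e e)) (n false (n false e e) (n false e e))) (n false e e))) (n true (n false (n false (n false (n false e e) (n false e e)) (n false (n false e e) (n false e e))) (n false e e)) e)) (t 24 2 (u 16 21 (k v (k v (k (c 4 4081 r v) (k (c 48 4096 r (c 8 4086 (c 3 4094 v r) v)) r))))))
 .z .z) (.s 0x3aaa22888aa22888a55f40113bbb00 4094 (n false (n false (n false (z 24) (n false e e)) (n false (n false (n false (n false (n false e e) (n false e e)) (n false (n false e e) (n false e e))) (n false e e)) (n false (n false (n false (n false e e) (n false e e)) (n false (n false e e) (n false e e))) (n false e e)))) (z 85)) (u 3 14 (k (c 8 4098 r v) (k (c 8 4098 r v) (k (c 7 4099 r r) (k r (k (c 7 4099 r r) (k (c 7 4096 r (c 4 4096 (c 2 4098 r v) (c 2 4100 v r))) r)))))))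
 .z .z)) (.s 0x3aaa22888aa22888a9f7d804bbb800 4090 (n false (n false (n false (n false (z 42) (z 91)) e) (n false (n false (n false (n false (n false e e) (n false e e)) (n false (n false e e) (n false e e))) (n false e e)) (n false (n false (n false (n false e e) (n false e e)) (n false (n false e e) (n false e e))) (n false e e)))) e) (t 16 1 (c 10 4099 v (u 24 1 (k v (k v (k v (k (u 40 1 (k v (k v r))) (k (c 40 4097 r (u 56 0 (k v (k v r)))) (k (c 40 4095 r (u 56 0 (k v (k v r)))) r)))))))))
 (.s 0x3aaa22888aa22888a9dd5004affc00 4090 (n false (n false (n false (n false (z 124) (z 5)) e) (n false (n false (n false (n false (n false e e) (n false e e)) (n false (n false e e) (n false e e))) (n false e e)) (n false (n false (n false (n false e e) (n false e e)) (n false (n false e e) (n false e e))) (n false e e)))) e) (t 24 2 (c 10 4099 v (u 16 20 (k v (k v (k (c 48 4097 r (u 32 1 (k v (k v r)))) (k (c 48 4096 r (u 32 1 (k v (k v r)))) (k (c 48 4097 r (u 32 1 (k v (k v r)))) (k (c 48 4097 r (u 32 1 (k v (k v r)))) (k (c 32 4097 r (u 48 1 (k v (k v r)))) r))))))))))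
 .z .z) .z)) (.s 0x3aea88a2213fbb00e14faac02a2288 4089 (n false (n false (n false (z 87) (n true (n false (n false (n false (n false e e) (n false e e)) (n false (n false e e) (n false e e))) (n false e e)) e)) (n true (n false e e) e)) (n false (z 67) (n false (n false (n false e e) (n false e e)) (n false (n false e e) (n false e e))))) (u 8 26 (k (c 6 4094 v r) (k (c 20 4099 v r) (k (c 16 4100 r (c 20 4099 v r)) (k (c 16 4100 r (c 20 4099 v r)) (k (c 16 4100 r (c 20 4099 v r)) r))))))
 (.s 0x3abaa22888444afea0077d51144410 4082 (n false (n false (z 156) (n false (n false (n true (n false (n false (n false (n false e e) (n false e e)) (n false (n false e e) (n false e e))) (n false e e)) e) (n false e e)) (n false e e))) (n true (n false (n true (n true (n false (n false (n false (n false e e) (n false e e)) (n false (n false e e) (n false e e))) (n false e e)) e) e) (n false e e)) e)) (c 34 4099 v (u 4 21 (k v (k v (k (c 12 4099 r (u 8 1 (k v (k v r)))) (k (c 8 4095 r (u 12 0 (k v (k v r)))) r))))))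
 (.s 0x3aaa22888aa22888a9fdd804bfb800 4090 (n false (n false (n false (n false (z 87) (z 46)) e) (n false (n false (n false (n false (n false e e) (n false e e)) (n false (n false e e) (n false e e))) (n false e e)) (n false (n false (n false (n false e e) (n false e e)) (n false (n false e e) (n false e e))) (n false e e)))) e) (t 16 1 (c 10 4099 v (u 24 1 (k v (k (u 40 1 (k v (k v r))) (k (c 56 4099 r (u 40 0 (k v (k v r)))) (k (u 40 1 (k v (k v r))) (k (c 56 4097 r (u 40 1 (k v (k v r)))) (k (c 40 4095 r (u 56 1 (k v (k v r)))) r)))))))))
 .z .z) (.s 0x3aea88a2212eee00e14faac02a2288 4089 (n false (n false (z 67) (n false (n false (n false e e) (n false e e)) (n false (n false e e) (n false e e)))) (n false (n false (z 42) (n true (n false (n false (n false (n false e e) (n false e e)) (n false (n false e e) (n false e e))) (n false e e)) e)) (n true (n false e e) e))) (u 9 82 (k (c 7 4094 v r) (k (u 4 151 (k v (k v (k v r)))) (k (c 21 4099 v r) (k (c 5 4088 v r) (k (c 2 4095 (u 2 0 (k v (k v r))) (c 13 4110 v r)) (k (c 2 4095 (u 2 0 (k v (k v r))) (c 13 4110 v r)) (k (c 2 4095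 (u 2 0 (k v (k v r))) (c 13 4110 v r)) r))))))))
 .z .z)) (.s 0x3aea88a2215114453fbe009dd50050 4075 (n false (n false (n false (z 55) (z 5)) (n false (n true (n false (n false (n false (n false e e) (n false e e)) (n false (n false e e) (n false e e))) (n false e e)) e) (n false (n false (n false e e) (n false e e)) (n false (n false e e) (n false e e))))) (n false (n false e e) e)) (t 12 1 (u 8 4 (k (t 24 1 (u 16 9 (k v (k v (k v (k (u 32 4 (k v (k (t 96 1 (u 64 2 (k v (k v r)))) r))) (k (c 12 4099 v r) r))))))) (k (t 24 2 (c 12 4099 v r)) r))))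
 (.s 0x3aea88a2215114453eab0075445110 4094 (n false (n false (n false (z 67) e) (n false (n true (n false (n false (n false (n false e e) (n false e e)) (n false (n false e e) (n false e e))) (n false e e)) e) (n false (n false (n false e e) (n false e e)) (n false (n false e e) (n false e e))))) (n true (n false (n false (n false (n false e e) (n false e e)) (n false (n false e e) (n false e e))) (n false e e)) e)) (u 8 83 (k v (k v (k v (k v (k (c 24 4099 r (u 16 1 (k v (k v r)))) (k (c 24 4099 r (u 16 0 (k (u 32 23 (k v (k v r))) r))) (k (c 24 4101 r r) (k (c 24 4099 r (u 16 10 (k v (k v (k v (k (c 48 4099 r (u 32 9 (k v (k v (k v r))))) r)))))) (k (c 24 4102 r r) (k (c 16 4101 r r) (k (c 24 4099 r (u 16 4 (k v (k (c 48 4099 r (u 32 9 (k v (k v (k v r))))) r)))) (k (c 16 4101 r r) r)))))))))))))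
 .z .z) .z))))

end Pool.Agent.Helper91.ND1
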