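import Pool.Agent.Helper66.ND.Defs

/-! part of the certificate for the constant 25/48 (generated) -/

namespace Pool.Agent.Helper91.ND1

open Pool.Agent.Helper66.IL
open Pool.Agent.Helper66.ND
open Pool.Agent.Helper66.ND.LT
open Pool.Agent.Helper66.ND.Ct

set_option maxRecDepth 100000 in
def N249 : NT :=
(.s 0x3ba7dd4013bbb0075445110aa22888 4093 (n false (n false (n true (n false (z 85) (z 11)) e) (n true (n false (n false (n false (n false e e) (n false e e)) (n false (n false e e) (n false e e))) (n false e e)) e)) (n false (n false (n false (n false e e) (n false e e)) (n false (n false e e) (n false e e))) (n false e e))) (t 24 2 (u 16 24 (k v (k (c 48 4099 r (u 32 127 (k v (k v (k v (k v (k v (k v r)))))))) (k (t 48 1 (u 32 3 (k v (k v r)))) (k (c 48 4099 r (u 32 9 (k v (k v (k v (k (t 96 1 (u 64 6 (k v (k v (k (t 192 1 (u 128 2 (k v (k v r)))) r))))) r)))))) (k (u 32 22 (k v (k v (k v r)))) (k (c 48 4096 r (u 32 8 (k v (k v r)))) r))))))))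
 (.s 0x3b9d7f802a88a222aa22888aa22888 4097 (n false (n false (n true (z 121) e) (n false (n false (n false (n false e e) (n false e e)) (n false (n false e e) (n false e e))) (n false e e))) (n false (n false (n false (n false (n false e e) (n false e e)) (n false (n false e e) (n false e e))) (n false e e)) (n false (n false (n false (n false e e) (n false e e)) (n false (n false e e) (n false e e))) (n false e e)))) (u 8 1 (k v (k (c 24 4099 r (u 16 2 (k v (k v (k v r))))) (k (c 16 4097 r (u 24 18 (k v (k v (k v r))))) (k (c 16 4095 r (u 24 0 (k v (k v r)))) (k (c 16 4095 r (u 24 0 (k v (k v r)))) r))))))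
 (.s 0x3b9777002a88a222aa22888aa22888 4091 (n false (n false (n true (z 42) e) (n false (n false (n false (n false e e) (n false e e)) (n false (n false e e) (n false e e))) (n false e e))) (n false (n false (n false (n false (n false e e) (n false e e)) (n false (n false e e) (n false e e))) (n false e e)) (n false (n false (n false (n false e e) (n false e e)) (n false (n false e e) (n false e e))) (n false e e)))) (u 8 14 (k v (k v (k v (k (c 3 4101 v (c 10 4101 v r)) (k (c 4 4087 r v) (k (c 3 4101 v (c 10 4101 v r)) (k (c 3 4101 v (c 10 4101 v r)) r))))))))
 (.s 0x3aea88a221544511154451112bbe00 4094 (n false (n false (n false (n true (n false (n false (n false (n false e e) (n false e e)) (n false (n false e e) (n false e e))) (n false e e)) e) (n false (n false (n false (n false e e) (n false e e)) (n false (n false e e) (n false e e))) (n false e e))) (n false (n false (n false (n false e e) (n false e e)) (n false (n false e e) (n false e e))) (n false e e))) (z 52)) (u 3 14 (k v (k v (k v (k v (k v (k v (k (t 7 1 (u 5 0 (k v (k v r)))) r))))))))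
 (.s 0x3aea88a2215114473faf0075445110 4096 (n false (n false (n true (z 103) e) (n false (n true (n false (n false (n false (n false e e) (n false e e)) (n false (n false e e) (n false e e))) (n false e e)) e) (n false (n false (n false e e) (n false e e)) (n false (n false e e) (n false e e))))) (n true (n false (n false (n false (n false e e) (n false e e)) (n false (n false e e) (n false e e))) (n false e e)) e)) (u 8 9 (k v (k (t 16 1 (u 24 4 (k v (k v r)))) (k (c 24 4100 r (u 16 2 (k v (k v (k (c 48 4099 r (u 32 1 (k v (k v r)))) (k (c 32 4095 r (u 48 0 (k v (k v r)))) (k (c 32 4095 r (u 48 0 (k v (k v r)))) r))))))) (k (c 24 4100 r (u 16 14 (k v (k v (k (c 48 4099 r (u 32 1 (k v (k v r)))) (k (c 32 4099 r (u 48 1 (k v (k v r)))) (k (c 32 4095 r (u 48 0 (k v (k v r)))) r))))))) r)))))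
 .z .z) (.s 0x3b95df002a88a222aa22888aa22888 4096 (n false (n false (n true (z 52) e) (n false (n false (n false (n false e e) (n false e e)) (n false (n false e e) (n false e e))) (n false e e))) (n false (n false (n false (n false (n false e e) (n false e e)) (n false (n false e e) (n false e e))) (n false e e)) (n false (n false (n false (n false e e) (n false e e)) (n false (n false e e) (n false e e))) (n false e e)))) (u 8 10 (k v (k v (k v (k v (k v (k (t 24 1 (u 16 0 (k v (k v r)))) r)))))))
 .z .z)) (.s 0x3b97ff002a88a222aa22888aa22888 4096 (n false (n false (n true (z 62) e) (n false (n false (n false (n false e e) (n false e e)) (n false (n false e e) (n false e e))) (n false e e))) (n false (n false (n false (n false (n false e e) (n false e e)) (n false (n false e e) (n false e e))) (n false e e)) (n false (n false (n false (n false e e) (n false e e)) (n false (n false e e) (n false e e))) (n false e e)))) (u 8 4 (k v (k v (k v (k (t 24 1 (u 16 41 (k v (k v (k (t 48 1 (u 32 0 (k v (k v r)))) r))))) r)))))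
 (.s 0x3b97f7002a88a222aa22888aa22888 4097 (n false (n false (n true (z 46) e) (n false (n false (n false (n false e e) (n false e e)) (n false (n false e e) (n false e e))) (n false e e))) (n false (n false (n false (n false (n false e e) (n false e e)) (n false (n false e e) (n false e e))) (n false e e)) (n false (n false (n false (n false e e) (n false e e)) (n false (n false e e) (n false e e))) (n false e e)))) (u 8 7 (k v (k v (k v (k (c 24 4099 r (u 16 1 (k v (k v (k v r))))) (k (u 16 18 (k v (k v (k v r)))) (k (u 16 19 (k v (k v (k v r)))) (k (c 24 4097 r (u 16 18 (k v (k v (k v r))))) r))))))))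
 .z .z) .z)) (.s 0x3ba7754012eee00551144475445110 4096 (n false (n false (n true (n false (z 42) (z 5)) e) (n false (n false (n false (n false e e) (n false e e)) (n false (n false e e) (n false e e))) (n false e e))) (n true (n false (n false (n false (n false e e) (n false e e)) (n false (n false e e) (n false e e))) (n false e e)) e)) (t 24 1 (u 16 56 (k v (k v (k v (k v (k (t 32 3 (t 48 1 v)) (k (c 8 4090 r v) (k (t 48 2 (c 2 4092 (c 12 4099 v r) v)) (k (t 48 2 (c 8 4089 (c 3 4099 v r) v)) (k (t 48 3 (c 40 4101 v (u 32 1 (k v (k v r))))) (k (c 8 4090 r v) (k (c 8 4090 r v) r)))))))))))))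
 (.s 0x3b9fdf002a88a222aa22888aa22888 4096 (n false (n false (n true (z 55) e) (n false (n false (n false (n false e e) (n false e e)) (n false (n false e e) (n false e e))) (n false e e))) (n false (n false (n false (n false (n false e e) (n false e e)) (n false (n false e e) (n false e e))) (n false e e)) (n false (n false (n false (n false e e) (n false e e)) (n false (n false e e) (n false e e))) (n false e e)))) (c 2 4091 (c 3 4099 v r) v)
 (.s 0x3b9ddd802a88a222aa22888aa22888 4098 (n false (n false (n true (z 85) e) (n false (n false (n false (n false e e) (n false e e)) (n false (n false e e) (n false e e))) (n false e e))) (n false (n false (n false (n false (n false e e) (n false e e)) (n false (n false e e) (n false e e))) (n false e e)) (n false (n false (n false (n false e e) (n false e e)) (n false (n false e e) (n false e e))) (n false e e)))) (u 8 16 (k v (k v (k v (k (c 3 4101 v (c 10 4101 v r)) (k (c 24 4097 r (c 10 4101 v (u 16 17 (k v (k v (k (u 32 12 (k v (k v r))) (k (c 48 4096 r (c 3 4101 v (c 8 4088 r v))) (k (c 32 4099 r (u 48 66 (k v (k v (k v (k v (k v r))))))) r)))))))) r))))))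
 .z .z) (.s 0x3ba57f50025ddc00baa22888544510 4090 (n false (n false (n true (n false (z 156) (z 42)) e) (n false (n true (n false (n false (n false (n false e e) (n false e e)) (n false (n false e e) (n false e e))) (n false e e)) e) (n false (n false (n false e e) (n false e e)) (n false (n false e e) (n false e e))))) e) (t 24 1 (c 10 4110 v (u 16 1 (k v (k (c 48 4099 r (u 32 1 (k v (k v r)))) (k (c 32 4098 r (u 48 1 (k v (k v r)))) (k (c 32 4097 r (u 48 1 (k v (k v r)))) (k (c 32 4099 r (u 48 1 (k v (k v r)))) (k (c 32 4095 r (u 48 0 (k v (k v r)))) r)))))))))
 .z .z)) (.s 0x3ba775c012aaa0075445110aa22888 4091 (n false (n false (n true (n false (z 37) (z 0)) e) (n true (n false (n false (n false (n false e e) (n false e e)) (n false (n false e e) (n false e e))) (n false e e)) e)) (n false (n false (n false (n false e e) (n false e e)) (n false (n false e e) (n false e e))) (n false e e))) (t 24 1 (u 16 0 (k v (k (c 10 4099 v (u 32 0 (k (t 64 3 (t 96 1 v)) r))) (k (u 32 0 (k (t 64 3 (t 96 1 v)) r)) (k (u 32 22 (k v (k v (k (t 96 1 (u 64 0 (k (t 128 3 (t 192 1 v)) r))) r)))) (k (u 32 0 (k v (k v (k (t 96 1 (u 64 0 (k (t 128 3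 (t 192 1 v)) r))) r)))) (k (u 32 3 (k v (k v r))) r))))))))
 (.s 0x3ba7754012eee0075445110aa22888 4091 (n false (n false (n true (n false (z 42) (z 5)) e) (n true (n false (n false (n false (n false e e) (n false e e)) (n false (n false e e) (n false e e))) (n false e e)) e)) (n false (n false (n false (n false e e) (n false e e)) (n false (n false e e) (n false e e))) (n false e e))) (t 24 1 (u 16 69 (k v (k v (k v (k v (k (t 32 3 (t 48 1 v)) (k (c 10 4099 v (c 3 4099 v (u 32 1 (k v (k v r))))) (k r (k (t 48 3 (c 10 4099 v (u 32 1 (k v (k v r))))) (k (c 10 4099 v (c 3 4099 v r)) (k (c 10 4099 v (c 3 4099 v r)) r))))))))))))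
 .z .z) .z))) (.s 0x3eea88a2212fea005cafea002a2288 4088 (n false (n true (n false (z 14) (n true (n false (n false (n false (n false e e) (n false e e)) (n false (n false e e) (n false e e))) (n false e e)) e)) e) (n false (n true (z 156) e) (n false (n false (n false e e) (n false e e)) (n false (n false e e) (n false e e))))) (u 8 0 (k r (k (u 9 14 (k v (k v (k (c 25 4099 r (u 17 1 (k v (k v r)))) (k (c 17 4099 r (u 25 1 (k v (k v r)))) (k (c 17 4095 r (u 25 0 (k v (k v r)))) r)))))) r)))
 (.s 0x3ee7f7600aa228885cafea002a2288 4090 (n false (n true (n false (n true (z 87) e) (n false (n false (n false (n false e e) (n false e e)) (n false (n false e e) (n false e e))) (n false e e))) e) (n false (n true (z 156) e) (n false (n false (n false e e) (n false e e)) (n false (n false e e) (n false e e))))) (u 9 14 (k (u 16 1 (k v (k v r))) (k (u 16 1 (k v (k v r))) (k (c 25 4099 r r) (k (c 17 4099 r r) (k (c 17 4095 r r) r))))))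
 (.s 0x3eaa88a222a88a222a88a2213eab00 4096 (n false (n true (n false (n false (n false (n false (n false (n false e e) (n false e e)) (n false (n false e e) (n false e e))) (n false e e)) (n false (n false (n false (n false e e) (n false e e)) (n false (n false e e) (n false e e))) (n false e e))) (n false (n false (n false (n false e e) (n false e e)) (n false (n false e e) (n false e e))) (n false e e))) e) (z 67)) (u 3 85 (k v (k v (k v (k v (k (t 7 1 (u 5 1 (k v (k v r)))) (k (u 5 2 (k (t 7 1 v) (k (u 7 0 (k v (k v r))) r))) (k r (k (c 2 4102 v r) (k (c 16 4099 v (c 24 4099 v (c 20 4101 v r))) (k (t 7 1 (u 5 2 (k v (k (c 13 4097 r (u 9 0 (k v (k v r)))) r)))) (k (c 2 4102 v (t 7 2 (u 5 0 (k r r)))) (k (u 5 0 (k (u 7 2 (k v (k v r))) (k (t 7 1 v) r))) (k r (k (c 2 4102 v (t 5 1 (u 7 0 (k r r)))) (k (c 16 4099 v (c 24 4099 v (c 20 4101 v r))) (k r (k (c 16 4099 v (c 24 4099 v (c 20 4101 v r))) r))))))))))))))))))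
 (.s 0x3eaa22888aa22888554451113afb00 4096 (n false (n false (z 89) (n false (n false (n false (n false e e) (n false e e)) (n false (n false e e) (n false e e))) (n false e e))) (n true (n false (n false (n false (n false (n false e e) (n false e e)) (n false (n false e e) (n false e e))) (n false e e)) (n false (n false (n false (n false e e) (n false e e)) (n false (n false e e) (n false e e))) (n false e e))) e)) (u 4 39 (k v (k v (k v (k v (k (t 12 3 (u 8 26 (k v (k v (k v r))))) (k (c 12 4099 r (c 10 4101 v (u 8 0 (k (u 16 251 (k v (k v (k v (k (t 48 1 (u 32 7 (k v (k v r)))) r))))) (k (c 16 4096 r (u 24 0 (k v (k v r)))) (k (u 16 1 (k v (k v r))) (k (c 24 4096 r (u 16 252 (k v (k v (k v (k (t 48 1 (u 32 7 (k v (k v r)))) r)))))) r))))))) r)))))))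
 .z .z) (.s 0x3ebaa2288870aa2288853aff00a888 4087 (n false (n true (n false (n false (n true (n false (n false (n false (n false e e) (n false e e)) (n false (n false e e) (n false e e))) (n false e e)) e) (n true (n false e e) e)) (n false (n false (n false (n false e e) (n false e e)) (n false (n false e e) (n false e e))) (n false e e))) e) (n false (z 121) (n false (n false (n false e e) (n false e e)) (n false e e)))) (c 20 4101 v (u 5 2 (k v (k v (k (c 13 4099 r (u 9 1 (k v (k v r)))) (k (c 9 4095 r (u 13 0 (k v (k v r)))) (k (c 9 4095 r (u 13 0 (k v (k v r)))) r)))))))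
 .z .z)) (.s 0x3ee7f7600aa228885f3fbb002a2288 4087 (n false (n true (n false (n true (z 87) e) (n false (n false (n false (n false e e) (n false e e)) (n false (n false e e) (n false e e))) (n false e e))) e) (n false (n true (n true (z 87) e) e) (n false (n false (n false e e) (n false e e)) (n false (n false e e) (n false e e))))) (u 16 1 (k (u 17 1 (k v (k v r))) (k (u 17 1 (k v (k v r))) r)))
 (.s 0x3ee7f7600aa228885f3eab002a2288 4091 (n false (n false (n true (n true (z 67) e) e) (n false (n false (n false e e) (n false e e)) (n false (n false e e) (n false e e)))) (n true (n false (n true (z 87) e) (n false (n false (n false (n false e e) (n false e e)) (n false (n false e e) (n false e e))) (n false e e))) e)) (u 17 1 (k (u 16 0 (k v (k v r))) (k (u 16 0 (k v (k v r))) r)))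
 .z .z) .z)) (.s 0x1d4bfa80257d401544511153bee0088 4091 (n false (n false (n false (z 14) (z 12)) (n false (n false (n false (n false e e) (n false e e)) (n false (n false e e) (n false e e))) (n false e e))) (n false (n false (z 45) (n false e e)) (n false e e))) (t 12 3 (c 10 4101 v (u 9 2 (k (c 12 4110 v (c 9 4094 v (u 8 0 (k v (k v r))))) (k (u 8 0 (k v (k v r))) r)))))
 (.s 0x1d4abe80239fdd803abaa2288845110 4094 (n false (n false (n true (z 87) e) (n false (z 24) (n false e e))) (n true (n false (n false (n false (n true (n false (n false (n false (n false e e) (n false e e)) (n false (n false e e) (n false e e))) (n false e e)) e) (n false e e)) (n false (n false e e) (n false e e))) (n false e e)) e)) (u 10 0 (k (t 18 3 (t 26 1 (u 8 1 (k v (k v r))))) r))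
 (.s 0x1d4abe80239fdd802abaa2288845110 4092 (n false (n false (n true (z 87) e) (n false (z 24) (n false e e))) (n false (n false (n false (n false (n true (n false (n false (n false (n false e e) (n false e e)) (n false (n false e e) (n false e e))) (n false e e)) e) (n false e e)) (n false (n false e e) (n false e e))) (n false e e)) e)) (u 10 0 (k (t 18 3 (t 26 1 (u 8 1 (k v (k v r))))) r))
 .z .z) (.s 0x1d4abe80239fdd803baa22888544510 4094 (n false (n false (n true (z 87) e) (n false (z 24) (n false e e))) (n true (n false (n true (n false (n false (n false (n false e e) (n false e e)) (n false (n false e e) (n false e e))) (n false e e)) e) (n false (n false (n false e e) (n false e e)) (n false (n false e e) (n false e e)))) e)) (u 8 1 (k (u 10 0 (k (t 18 3 (t 26 1 v)) r)) (k (u 10 0 (k (t 18 3 (t 26 1 v)) r)) r)))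
 .z .z)) (.s 0x1d4efb80239f57002aa22888aa22888 4096 (n false (n false (n false (z 45) (n false e e)) (n true (z 35) e)) (n false (n false (n false (n false (n false e e) (n false e e)) (n false (n false e e) (n false e e))) (n false e e)) (n false (n false (n false (n false e e) (n false e e)) (n false (n false e e) (n false e e))) (n false e e)))) (t 8 1 (u 10 11 (k v (k v (k (t 26 1 (u 18 0 (k (t 34 3 (t 50 1 v)) r))) r)))))
 (.s 0x1d4efb80229f57002aa22888aa22888 4094 (n false (n false (n false (z 45) (n false e e)) (n false (z 35) e)) (n false (n false (n false (n false (n false e e) (n false e e)) (n false (n false e e) (n false e e))) (n false e e)) (n false (n false (n false (n false e e) (n false e e)) (n false (n false e e) (n false e e))) (n false e e)))) (u 10 10 (k (u 8 0 (k v (k v r))) (k (u 8 2 (k v (k v r))) (k (c 4 4097 (t 2 1 v) v) (k (t 26 1 (u 8 0 (k (u 18 0 (k (t 34 3 (t 50 1 v)) r)) (k (u 18 0 (k (t 34 3 (t 50 1 v)) r)) r)))) r)))))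
 .z .z) .z))))

set_option maxRecDepth 100000 in
def N250 : NT :=
(.s 0x1d75445110551144454eea80275fe00 4091 (n false (n false (n false (z 121) (z 5)) e) (n false (n false (n true (n false (n false (n false (n false e e) (n false e e)) (n false (n false e e) (n false e e))) (n false e e)) e) e) (n false (n false (n false (n false e e) (n false e e)) (n false (n false e e) (n false e e))) (n false e e)))) (t 12 1 (u 8 26 (k v (k v (k v (k (c 24 4099 r (u 16 6 (k v (k v (k v r))))) r))))))
 (.s 0x1d53feb0095f500754451108aa22888 4096 (n false (n false (n false (n false (z 79) (z 12)) (n true (n false (n false (n false (n false e e) (n false e e)) (n false (n false e e) (n false e e))) (n false e e)) e)) (n false e e)) (n false (n false (n false (n false e e) (n false e e)) (n false (n false e e) (n false e e))) (n false e e))) (t 24 2 (u 16 3 (k v (k (u 32 13 (k v (k v (k v (k (c 96 4099 r (u 64 1 (k v (k v r)))) r))))) (k (c 48 4096 r (u 32 1 (k v (k v r)))) r)))))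
 (.s 0x1d53baa0097f700754451108aa22888 4094 (n false (n false (n false (n false (z 5) (z 46)) (n true (n false (n false (n false (n false e e) (n false e e)) (n false (n false e e) (n false e e))) (n false e e)) e)) (n false e e)) (n false (n false (n false (n false e e) (n false e e)) (n false (n false e e) (n false e e))) (n false e e))) (t 16 2 (u 24 19 (k v (k (c 56 4099 r (u 40 0 (k v (k v r)))) (k (c 3 4099 v (c 16 4094 v (u 40 25 (k v (k v (k v r)))))) (k (c 56 4097 r (u 40 1 (k v (k v r)))) (k (c 40 4095 r (u 56 1 (k v (k v r)))) r)))))))
 (.s 0x1d52bae0095550075445110ea88a220 4093 (n false (n false (n false (n false (z 36) (z 0)) (n true (n false (n false (n false (n false e e) (n false e e)) (n false (n false e e) (n false e e))) (n false e e)) e)) (n true (n false (n false (n false (n false e e) (n false e e)) (n false (n false e e) (n false e e))) (n false e e)) e)) e) (t 24 1 (c 20 4099 v (u 16 0 (k (u 32 2 (k v (k (c 8 4088 r v) r))) r))))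
 (.s 0x1d52bae00955500754451108aa22888 4094 (n false (n false (n false (n false (z 36) (z 0)) (n true (n false (n false (n false (n false e e) (n false e e)) (n false (n false e e) (n false e e))) (n false e e)) e)) (n false e e)) (n false (n false (n false (n false e e) (n false e e)) (n false (n false e e) (n false e e))) (n false e e))) (t 24 1 (c 20 4099 v (u 16 0 (k (u 32 2 (k v (k (c 16 4084 (u 4 1 (k v (k v r))) v) r))) r))))
 .z .z) (.s 0x1d53aff009555005511444754451108 4087 (n false (n false (n false (n false (z 121) (z 0)) (n false (n false (n false (n false e e) (n false e e)) (n false (n false e e) (n false e e))) (n false e e))) (n true (n false (n false (n false (n false e e) (n false e e)) (n false (n false e e) (n false e e))) (n false e e)) e)) (n false e e)) (t 24 1 (u 16 57 (k v (k (t 48 1 (u 32 1 (k v (k v r)))) (k (u 32 2 (k v (k (t 96 1 (u 64 6 (k v (k v (k v r))))) (k (t 96 1 (c 12 4099 v (u 64 8 (k v (k (c 192 4099 r (u 128 13 (k v (k v (k v (k (c 384 4099 r (u 256 1 (k v (k v r)))) r)))))) r))))) r)))) (k (t 32 1 r) (k (c 48 4097 r (c 4 4082 r v)) (k (c 32 4099 r (u 48 0 (k (t 112 1 (u 80 12 (k v (k v r))))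 r))) (k (t 32 1 r) r)))))))))
 .z .z)) (.s 0x1d53fbf009f7700754451108aa22888 4096 (n false (n false (n false (n false (z 119) (z 43)) (n true (n false (n false (n false (n false e e) (n false e e)) (n false (n false e e) (n false e e))) (n false e e)) e)) (n false e e)) (n false (n false (n false (n false e e) (n false e e)) (n false (n false e e) (n false e e))) (n false e e))) (t 24 2 (u 16 25 (k v (k v (k (c 48 4101 r r) (k (c 48 4099 r r) (k (c 48 4096 r (u 32 0 (k (u 64 0 (k v (k v r))) r))) (k (c 32 4101 r r) (k (c 32 4099 r r) (k (c 32 4101 r r) r))))))))))
 (.s 0x1d53baa009d7f80754451108aa22888 4094 (n false (n false (n false (n false (z 121) (z 5)) (n true (n false (n false (n false (n false e e) (n false e e)) (n false (n false e e) (n false e e))) (n false e e)) e)) (n false e e)) (n false (n false (n false (n false e e) (n false e e)) (n false (n false e e) (n false e e))) (n false e e))) (t 24 1 (u 16 2 (k v (k v (k (c 48 4099 r (u 32 1 (k v (k v r)))) (k (c 32 4095 r (u 48 0 (k v (k v r)))) (k (c 32 4095 r (u 48 0 (k v (k v r)))) r)))))))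
 .z .z) .z)) (.s 0x1d5511444551144470b9fdf802a2288 4083 (n false (n false (n true (z 119) e) (n false (n false (n false e e) (n false e e)) (n false (n false e e) (n false e e)))) (n false (n false (n false (n false (n false (n false e e) (n false e e)) (n false (n false e e) (n false e e))) (n false e e)) (n false (n false (n false (n false e e) (n false e e)) (n false (n false e e) (n false e e))) (n false e e))) (n true (n false e e) e))) (u 8 11 (k v (k v (k (c 24 4101 r r) (k (c 24 4099 r r) (k (c 24 4096 r (u 16 0 (k (u 32 0 (k v (k v r))) r))) (k (c 16 4098 r r) (k (c 16 4101 r r) (k (c 16 4099 r r) (k (c 16 4101 r r) r))))))))))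
 (.s 0x1d5511444551144452afa008e577c00 4091 (n false (n false (n false (z 24) (n false e e)) (n false (n false (n false (n false (n false e e) (n false e e)) (n false (n false e e) (n false e e))) (n false e e)) (n false (n false (n false (n false e e) (n false e e)) (n false (n false e e) (n false e e))) (n false e e)))) (n true (z 52) e)) (u 8 0 (k (t 16 3 (t 24 1 (u 5 297 (k v (k v (k v (k v (k v (k v (k (t 13 1 (u 9 0 (k v (k v r)))) r)))))))))) r))
 (.s 0x1d53feb0095f50075445110ea88a220 4095 (n false (n false (n false (n false (z 79) (z 12)) (n true (n false (n false (n false (n false e e) (n false e e)) (n false (n false e e) (n false e e))) (n false e e)) e)) (n true (n false (n false (n false (n false e e) (n false e e)) (n false (n false e e) (n false e e))) (n false e e)) e)) e) (t 24 2 (u 16 3 (k v (k (u 32 7 (k v (k v (k v (k (c 96 4099 r (u 64 1 (k v (k v r)))) r))))) (k (c 48 4096 r (u 32 1 (k v (k v r)))) r)))))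
 .z .z) (.s 0x1d5511444551144452afa008e5ffc00 4091 (n false (n false (n false (z 24) (n false e e)) (n false (n false (n false (n false (n false e e) (n false e e)) (n false (n false e e) (n false e e))) (n false e e)) (n false (n false (n false (n false e e) (n false e e)) (n false (n false e e) (n false e e))) (n false e e)))) (n true (z 62) e)) (u 5 4 (k (u 8 0 (k (t 16 3 (t 24 1 v)) r)) (k (u 8 0 (k (t 16 3 (t 24 1 v)) r)) (k r (k (t 13 1 (u 9 41 (k (u 8 0 (k (t 16 3 (t 24 1 v)) r)) (k (u 8 0 (k (t 16 3 (t 24 1 v)) r)) (k (t 25 1 (u 17 0 (k (c 17 4094 v (u 8 0 (k (t 16 3 (t 24 1 v)) r))) (k (u 8 0 (k (t 16 3 (t 24 1 v)) r)) r)))) r))))) r)))))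
 .z .z)) (.s 0x1d5754451108a2239777003a77dc010 4094 (n false (n false (n true (z 42) e) (n false (n false (n false (n true (n false (n false (n false (n false e e) (n false e e)) (n false (n false e e) (n false e e))) (n false e e)) e) (n false e e)) (n false (n false e e) (n false e e))) (n false e e))) (n true (n false (z 45) (n false e e)) e)) (c 4 4099 (u 2 0 (k v (k v r))) (u 9 0 (k v (k v r))))
 (.s 0x1d551144455114447caef800aa22888 4087 (n false (n false (n true (n true (z 52) e) e) (n false (n false (n false (n false (n false e e) (n false e e)) (n false (n false e e) (n false e e))) (n false e e)) (n false (n false (n false (n false e e) (n false e e)) (n false (n false e e) (n false e e))) (n false e e)))) (n false (n false (n false (n false e e) (n false e e)) (n false (n false e e) (n false e e))) (n false e e))) (u 16 185 (k v (k v (k v (k v (k v (k v (k v r))))))))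
 .z .z) .z))) (.s 0x1d75445110a88a23a75fe0075445110 4091 (n false (n false (n true (n false (z 121) e) e) (n false (n true (n false (n false (n false (n false e e) (n false e e)) (n false (n false e e) (n false e e))) (n false e e)) e) (n false (n false (n false e e) (n false e e)) (n false (n false e e) (n false e e))))) (n true (n false (n false (n false (n false e e) (n false e e)) (n false (n false e e) (n false e e))) (n false e e)) e)) (c 10 4110 v (u 16 1 (k v (k (c 48 4099 r (u 32 1 (k v (k v r)))) (k (c 32 4097 r (u 48 1 (k v (k v r)))) (k (c 32 4095 r (u 48 0 (k v (k v r)))) (k (c 32 4095 r (u 48 0 (k v (k v r)))) r)))))))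
 (.s 0x1d7544511095df0070a57d4012bbe00 4089 (n false (n false (n false (z 52) (n true (n false (n false (n false (n false e e) (n false e e)) (n false (n false e e) (n false e e))) (n false e e)) e)) (n true (n false e e) e)) (n false (z 52) (z 12))) (t 7 2 (u 8 348 (k (u 5 41 (k v (k v (k (t 13 1 (u 9 6 (k v (k v r)))) r)))) (k (c 20 4099 v (c 6 4094 v r)) (k (t 5 1 v) (k (c 4 4084 v r) (k (c 4 4088 v r) (k (u 5 41 (k v (k v (k (t 13 1 (u 9 2 (k v (k v r)))) r)))) (k (t 5 1 v) (k (c 4 4089 (t 6 1 r) r) r))))))))))
 (.s 0x1d75445110551144454feec0275fe00 4091 (n false (n false (n false (z 121) (z 87)) e) (n false (n false (n true (n false (n false (n false (n false e e) (n false e e)) (n false (n false e e) (n false e e))) (n false e e)) e) e) (n false (n false (n false (n false e e) (n false e e)) (n false (n false e e) (n false e e))) (n false e e)))) (c 11 4101 v (u 8 50 (k (u 12 1 (k v (k v r))) (k (u 12 0 (k v (k v r))) (k (c 9 4110 v r) (k (c 24 4099 r r) r))))))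
 (.s 0x1d75445110551144454eeb802775400 4091 (n false (n false (n false (z 37) (z 5)) e) (n false (n false (n true (n false (n false (n false (n false e e) (n false e e)) (n false (n false e e) (n false e e))) (n false e e)) e) e) (n false (n false (n false (n false e e) (n false e e)) (n false (n false e e) (n false e e))) (n false e e)))) (t 12 1 (u 8 23 (k v (k v (k (c 17 4099 v (c 7 4099 v (c 20 4101 v (u 16 0 (k (t 32 3 (t 48 1 v)) r))))) (k (u 16 0 (k v (k v (k (t 48 1 (u 32 0 (k (t 64 3 (t 96 1 v)) r))) r)))) (k (c 8 4095 r v) r)))))))
 .z .z) (.s 0x1d75445110551144454feec02775c00 4091 (n false (n false (n false (z 87) (z 37)) e) (n false (n false (n true (n false (n false (n false (n false e e) (n false e e)) (n false (n false e e) (n false e e))) (n false e e)) e) e) (n false (n false (n false (n false e e) (n false e e)) (n false (n false e e) (n false e e))) (n false e e)))) (u 12 53 (k (u 8 1 (k v (k v r))) (k (u 8 1 (k v (k v r))) (k (t 8 1 v) (k (u 8 1 (k v (k v r))) (k (u 20 32 (k (u 8 1 (k v (k v r))) (k (u 8 1 (k v (k v r))) (k (c 12 4094 v (c 9 4110 v r)) (k (c 11 4101 v (u 8 1 (k v (k v r)))) r))))) r))))))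
 .z .z)) (.s 0x1d75445110a88a239fdd803a77dc010 4088 (n false (n false (n true (z 87) e) (n false (n true (n false (n false (n false (n false e e) (n false e e)) (n false (n false e e) (n false e e))) (n false e e)) e) (n false (n false (n false e e) (n false e e)) (n false (n false e e) (n false e e))))) (n true (n false (z 45) (n false e e)) e)) (u 8 1 (k (u 9 0 (k v (k v r))) (k (u 9 0 (k v (k v r))) r)))
 (.s 0x1d75445110a88a22e7f760075445110 4089 (n false (n false (n false (n true (z 87) e) e) (n false (n true (n false (n false (n false (n false e e) (n false e e)) (n false (n false e e) (n false e e))) (n false e e)) e) (n false (n false (n false e e) (n false e e)) (n false (n false e e) (n false e e))))) (n true (n false (n false (n false (n false e e) (n false e e)) (n false (n false e e) (n false e e))) (n false e e)) e)) (c 2 4078 (u 8 1 (k v (k v r))) v)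
 .z .z) .z)) (.s 0x1dd51144429df700474eea80275fe00 4096 (n false (n true (n false (z 121) (z 5)) e) (n false (n false (z 45) (n false e e)) (n true (n false (n false (n false (n false e e) (n false e e)) (n false (n false e e) (n false e e))) (n false e e)) e))) (t 12 1 (u 8 9 (k (u 9 2 (k v (k v r))) (k (c 11 4099 v r) (k (u 9 2 (k v (k v r))) (k (c 24 4099 r r) r))))))
 (.s 0x1dcafea002a88a222aa22888aa22888 4097 (n false (n false (n true (z 156) e) (n false (n false (n false (n false e e) (n false e e)) (n false (n false e e) (n false e e))) (n false e e))) (n false (n false (n false (n false (n false e e) (n false e e)) (n false (n false e e) (n false e e))) (n false e e)) (n false (n false (n false (n false e e) (n false e e)) (n false (n false e e) (n false e e))) (n false e e)))) (u 8 6 (k v (k v (k v (k (c 24 4099 r (u 16 2 (k v (k v (k v r))))) (k (c 16 4098 r (u 24 2 (k v (k v (k v r))))) (k (c 16 4097 r (u 24 18 (k v (k v (k v r))))) (k (c 16 4099 r (u 24 2 (k v (k v (k v r))))) r))))))))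
 (.s 0x1d75445110aa22888e14faac02a2288 4089 (n false (n false (n false (n true (n false (n false (n false (n false e e) (n false e e)) (n false (n false e e) (n false e e))) (n false e e)) e) (n false (n false (n false (n false e e) (n false e e)) (n false (n false e e) (n false e e))) (n false e e))) (n true (n false e e) e)) (n false (z 67) (n false (n false (n false e e) (n false e e)) (n false (n false e e) (n false e e))))) (u 5 51 (k v (k v (k v (k v (k (t 13 1 (u 9 1 (k v (k v r)))) (k (c 9 4101 r (c 12 4099 v (u 13 0 (k v (k v r))))) (k r (k (c 3 4087 r v) (k (t 13 1 (u 9 0 (k (u 17 0 (k v (k v r))) r))) (k (c 13 4101 r r) (k r (k (c 13 4102 r r) (k (c 9 4101 r r) (k (t 13 1 (u 9 3 (k v (k v (k (c 25 4099 r (u 17 1 (k v (k v r)))) r))))) (k (c 9 4101 r r) r))))))))))))))))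
 .z .z) (.s 0x1dd2ffa8012aaa0075445110aa22888 4091 (n false (n false (n true (n false (z 158) (z 0)) e) (n true (n false (n false (n false (n false e e) (n false e e)) (n false (n false e e) (n false e e))) (n false e e)) e)) (n false (n false (n false (n false e e) (n false e e)) (n false (n false e e) (n false e e))) (n false e e))) (t 24 1 (c 10 4099 v (u 16 0 (k (u 32 4 (k v (k v (k (t 96 1 (u 64 25 (k v (k v (k v (k (c 192 4099 r r) (k (c 128 4099 r r) r))))))) (k (t 96 1 (c 3 4099 v (u 64 0 (k (u 128 4 (k v (k v (k (t 384 1 (u 256 0 (k v (k (c 768 4099 r (u 512 8 (k v (k v r)))) r)))) (k (t 384 1 (c 16 4086 (u 16 0 (k (u 32 0 (k v (k r (k r (k r r))))) r)) v)) r))))) r)))) r))))) r))))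
 .z .z)) (.s 0x1dd51144429df700474feec02775c00 4096 (n false (n false (n false (z 45) (n false e e)) (n true (n false (n false (n false (n false e e) (n false e e)) (n false (n false e e) (n false e e))) (n false e e)) e)) (n true (n false (z 87) (z 37)) e)) (u 9 0 (k (c 8 4105 r (c 10 4099 v r)) (k (t 13 1 (c 10 4099 v (u 8 0 (k v (k v r))))) r)))
 (.s 0x1dd51144429df700474eeb802775400 4096 (n false (n false (n false (z 45) (n false e e)) (n true (n false (n false (n false (n false e e) (n false e e)) (n false (n false e e) (n false e e))) (n false e e)) e)) (n true (n false (z 37) (z 5)) e)) (t 13 1 (u 9 1 (k (c 21 4101 v (u 8 0 (k v (k v r)))) (k (u 8 2 (k v (k v r))) r))))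
 .z .z) .z))))

set_option maxRecDepth 100000 in
def N251 : NT :=
(.s 0xeea88a2214efb8023a57f5002775400 4096 (n false (n true (n false (z 156) (z 5)) e) (n false (n false (z 45) (n false e e)) (n true (n false (n false (n false (n false e e) (n false e e)) (n false (n false e e) (n false e e))) (n false e e)) e))) (t 12 1 (u 8 14 (k (c 11 4099 v r) (k (u 9 2 (k v (k v r))) (k (c 24 4099 r r) (k (c 16 4099 r r) (k (c 16 4095 r (u 9 2 (k (u 24 0 (k v (k v r))) (k (u 24 0 (k v (k v r))) r)))) r)))))))
 (.s 0x1fd551144455114444aef800e7f7600 4093 (n false (n true (n true (n false (z 52) (n false (n false (n false (n false (n false e e) (n false e e)) (n false (n false e e) (n false e e))) (n false e e)) (n false (n false (n false (n false e e) (n false e e)) (n false (n false e e) (n false e e))) (n false e e)))) e) e) (n true (z 87) e)) (u 16 169 (k (u 5 1 (k v (k v r))) (k (c 40 4099 v (c 56 4099 v (u 5 1 (k v (k v r))))) (k (c 5 4099 r v) (k (t 48 1 (u 32 2 (k (u 5 1 (k v (k v r))) (k (u 5 1 (k v (k v r))) r)))) r)))))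
 (.s 0x1f75445110a77dc010b9d7f802a2288 4088 (n false (n false (n true (z 121) e) (n false (n false (n false e e) (n false e e)) (n false (n false e e) (n false e e)))) (n true (n false (n false (z 45) (n false e e)) (n true (n false (n false (n false (n false e e) (n false e e)) (n false (n false e e) (n false e e))) (n false e e)) e)) e)) (u 17 0 (k r (k (u 8 2 (k v (k v (k (c 24 4099 r (u 16 1 (k v (k v r)))) (k (c 16 4095 r (u 24 0 (k v (k v r)))) (k (c 16 4095 r (u 24 0 (k v (k v r)))) r)))))) r)))
 (.s 0x1f5d5114442577c015445110e577c00 4091 (n false (n true (n false (n false (z 52) (n true (n false (n false (n false (n false e e) (n false e e)) (n false (n false e e) (n false e e))) (n false e e)) e)) (n false (n false (n false (n false e e) (n false e e)) (n false (n false e e) (n false e e))) (n false e e))) e) (n true (z 52) e)) (u 16 26 (k r (k (u 5 372 (k v (k v (k v (k v (k v r)))))) (k (u 5 373 (k v (k v (k v (k v (k v (k v (k (t 13 1 (u 9 0 (k v (k v r)))) r)))))))) r))))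
 (.s 0x1dd75445110885c23a57f5002775400 4083 (n false (n true (n false (z 156) (z 5)) e) (n false (n true (n false (n false (n true (n false (n false (n false (n false e e) (n false e e)) (n false (n false e e) (n false e e))) (n false e e)) e) (n false e e)) (n false e e)) e) (n false (n true (n false e e) e) (n false e e)))) (t 12 1 (u 8 19 (k v (k v (k (c 24 4099 r (u 16 1 (k v (k v r)))) (k (c 16 4099 r (u 24 1 (k v (k v r)))) (k (c 16 4095 r (u 24 0 (k v (k v r)))) r)))))))
 .z .z) (.s 0x1f5d5114443855114442a55f4011708 4082 (n false (n false (n false (z 24) (n false e e)) (n false (n true (n false e e) e) (n false e e))) (n true (n false (n false (n true (n false (n false (n false (n false e e) (n false e e)) (n false (n false e e) (n false e e))) (n false e e)) e) (n true (n false e e) e)) (n false (n false (n false (n false e e) (n false e e)) (n false (n false e e) (n false e e))) (n false e e))) e)) (c 4 4096 (c 2 4098 r v) v)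
 .z .z)) (.s 0x1f7551144455114440a7754012fee00 4093 (n false (n false (z 46) (z 5)) (n true (n false (n true (n false (n false (n false (n false (n false e e) (n false e e)) (n false (n false e e) (n false e e))) (n false e e)) (n false (n false (n false (n false e e) (n false e e)) (n false (n false e e) (n false e e))) (n false e e))) e) e) e)) (t 6 1 (u 4 2 (k v (k (c 12 4099 r (u 8 0 (k v (k v r)))) (k r (k (c 3 4098 v (c 10 4101 v r)) (k (c 12 4097 r r) (k (c 8 4095 r r) r))))))))
 (.s 0x1f75445110a77dc010b9dd7002a2288 4088 (n false (n false (n true (z 37) e) (n false (n false (n false e e) (n false e e)) (n false (n false e e) (n false e e)))) (n true (n false (n false (z 45) (n false e e)) (n true (n false (n false (n false (n false e e) (n false e e)) (n false (n false e e) (n false e e))) (n false e e)) e)) e)) (u 8 1 (k (c 21 4099 v (c 4 4094 v (u 17 0 (k v (k v r))))) (k (u 17 0 (k v (k v r))) r)))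
 .z .z) .z)) (.s 0xebaa228884aef803874eeb802577c00 4091 (n false (n false (n false (z 52) (n true (n false (n false (n false (n false e e) (n false e e)) (n false (n false e e) (n false e e))) (n false e e)) e)) (n true (n false e e) e)) (n true (n false (z 52) (z 37)) e)) (u 13 1 (k (c 20 4099 v (c 6 4094 v r)) (k (u 9 365 (k (c 8 4097 r v) (k (c 21 4099 v (c 29 4099 v r)) (k (t 8 1 v) (k (c 8 4097 r v) (k (u 8 26 (k v (k v (k v r)))) r)))))) r)))
 (.s 0xebaa228882a88a222a57f5002775400 4091 (n false (n false (n false (z 156) (z 5)) e) (n false (n false (n true (n false (n false (n false (n false e e) (n false e e)) (n false (n false e e) (n false e e))) (n false e e)) e) e) (n false (n false (n false (n false e e) (n false e e)) (n false (n false e e) (n false e e))) (n false e e)))) (t 12 1 (u 8 16 (k v (k v (k v (k (c 24 4099 r (u 16 6 (k v (k v (k v r))))) (k (c 16 4099 r (u 24 6 (k v (k v (k v r))))) r)))))))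
 (.s 0xeaa88a222a88a22385f2bbe002a2288 4078 (n false (n false (n true (n true (z 52) e) e) (n false (n false (n false e e) (n false e e)) (n false (n false e e) (n false e e)))) (n false (n false (n false (n false (n false (n false e e) (n false e e)) (n false (n false e e) (n false e e))) (n false e e)) (n false (n false (n false (n false e e) (n false e e)) (n false (n false e e) (n false e e))) (n false e e))) (n true (n false e e) e))) (u 16 238 (k v (k v (k v (k v (k v (k v (k v r))))))))
 .z .z) (.s 0xebaa228882a88a222a57f50027f7600 4091 (n false (n false (n false (z 156) (z 87)) e) (n false (n false (n true (n false (n false (n false (n false e e) (n false e e)) (n false (n false e e) (n false e e))) (n false e e)) e) e) (n false (n false (n false (n false e e) (n false e e)) (n false (n false e e) (n false e e))) (n false e e)))) (c 11 4101 v (u 8 16 (k (c 9 4110 v r) (k (u 12 1 (k v (k v r))) (k (c 12 4099 r v) (k (c 24 4099 r r) (k (c 16 4099 r r) r)))))))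
 .z .z)) (.s 0xebaa22888551144470b9fdd802a2288 4084 (n false (n false (n true (z 87) e) (n false (n false (n false e e) (n false e e)) (n false (n false e e) (n false e e)))) (n false (n false (n true (n false (n false (n false (n false e e) (n false e e)) (n false (n false e e) (n false e e))) (n false e e)) e) (n false (n false (n false (n false e e) (n false e e)) (n false (n false e e) (n false e e))) (n false e e))) (n true (n false e e) e))) (c 13 4099 v (u 8 1 (k v (k v r))))
 (.s 0xebaa22888544511d2bfa80075445110 4091 (n false (n false (n true (n false (z 156) e) e) (n false (n true (n false (n false (n false (n false e e) (n false e e)) (n false (n false e e) (n false e e))) (n false e e)) e) (n false (n false (n false e e) (n false e e)) (n false (n false e e) (n false e e))))) (n true (n false (n false (n false (n false e e) (n false e e)) (n false (n false e e) (n false e e))) (n false e e)) e)) (c 10 4110 v (u 16 1 (k v (k (c 48 4099 r (u 32 1 (k v (k v r)))) (k (c 32 4098 r (u 48 1 (k v (k v r)))) (k (c 32 4097 r (u 48 1 (k v (k v r)))) (k (c 32 4099 r (u 48 1 (k v (k v r)))) (k (c 32 4095 r (u 48 0 (k v (k v r))))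 r))))))))
 .z .z) .z))) (.s 0xfbaa2288853bee0085cafea002a2288 4088 (n false (n false (n true (z 156) e) (n false (n false (n false e e) (n false e e)) (n false (n false e e) (n false e e)))) (n true (n false (n false (z 45) (n false e e)) (n true (n false (n false (n false (n false e e) (n false e e)) (n false (n false e e) (n false e e))) (n false e e)) e)) e)) (u 17 0 (k r (k (u 8 14 (k v (k v (k (c 24 4099 r (u 16 1 (k v (k v r)))) (k (c 16 4099 r (u 24 1 (k v (k v r)))) (k (c 16 4095 r (u 24 0 (k v (k v r)))) r)))))) r)))
 (.s 0xeee5fdc00aa22888551144475445110 4092 (n false (n false (n true (n false (n true (z 46) e) (n false (n false (n false (n false e e) (n false e e)) (n false (n false e e) (n false e e))) (n false e e))) e) (n false (n false (n false (n false e e) (n false e e)) (n false (n false e e) (n false e e))) (n false e e))) (n true (n false (n false (n false (n false e e) (n false e e)) (n false (n false e e) (n false e e))) (n false e e)) e)) (u 32 2 (k v (k (c 96 4099 r (u 64 0 (k v (k v r)))) (k (u 64 1 (k v (k v r))) (k (u 64 0 (k v (k v r))) (k (c 96 4097 r (u 64 1 (k v (k v r)))) (k (c 64 4095 r (u 96 1 (k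 v (k v r)))) r)))))))
 (.s 0xeeabaa22888451103a57f5002775400 4093 (n false (n true (n false (z 156) (z 5)) e) (n false (n true (n false (n false (n false (n false (n true (n false (n false (n false (n false e e) (n false e e)) (n false (n false e e) (n false e e))) (n false e e)) e) (n false e e)) (n false (n false e e) (n false e e))) (n false e e)) e) e) e)) (t 12 1 (u 8 2 (k v (k (c 24 4099 r (u 16 1 (k v (k v r)))) (k (c 16 4095 r (u 24 0 (k v (k v r)))) r)))))
 (.s 0xeeaa22888aa228883a57f5002775400 4093 (n false (n true (n false (z 156) (z 5)) e) (n false (n true (n false (n false (n false (n false (n false e e) (n false e e)) (n false (n false e e) (n false e e))) (n false e e)) (n false (n false (n false (n false e e) (n false e e)) (n false (n false e e) (n false e e))) (n false e e))) e) e)) (t 12 1 (u 8 21 (k v (k v (k (c 24 4099 r (u 16 1 (k v (k v r)))) (k (c 16 4095 r (u 24 0 (k v (k v r)))) r))))))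
 .z .z) (.s 0xeebaa228885445103a57f5002775400 4093 (n false (n true (n false (z 156) (z 5)) e) (n false (n true (n false (n false (n true (n false (n false (n false (n false e e) (n false e e)) (n false (n false e e) (n false e e))) (n false e e)) e) (n false (n false (n false e e) (n false e e)) (n false (n false e e) (n false e e)))) e) e) e)) (t 12 1 (u 8 2 (k v (k (c 24 4099 r (u 16 1 (k v (k v r)))) (k (c 16 4095 r (u 24 0 (k v (k v r)))) r)))))
 .z .z)) (.s 0xeee775c00aa22888551144475445110 4092 (n false (n false (n true (n false (n true (z 37) e) (n false (n false (n false (n false e e) (n false e e)) (n false (n false e e) (n false e e))) (n false e e))) e) (n false (n false (n false (n false e e) (n false e e)) (n false (n false e e) (n false e e))) (n false e e))) (n true (n false (n false (n false (n false e e) (n false e e)) (n false (n false e e) (n false e e))) (n false e e)) e)) (u 32 0 (k v (k (u 64 0 (k (t 128 3 (t 192 1 v)) r)) (k (u 64 0 (k (t 128 3 (t 192 1 v)) r)) (k (u 64 2 (k v (k v (k v (k (t 192 1 (u 128 0 (k (t 256 3 (t 384 1 v)) r))) r))))) (k (u 64 0 (k v (k v (k (t 192 1 (u 128 0 (k (t 256 3 (t 384 1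 v)) r))) r)))) (k (u 64 3 (k v (k v r))) r)))))))
 (.s 0xeee75fe00aa22888551144475445110 4092 (n false (n false (n true (n false (n true (z 121) e) (n false (n false (n false (n false e e) (n false e e)) (n false (n false e e) (n false e e))) (n false e e))) e) (n false (n false (n false (n false e e) (n false e e)) (n false (n false e e) (n false e e))) (n false e e))) (n true (n false (n false (n false (n false e e) (n false e e)) (n false (n false e e) (n false e e))) (n false e e)) e)) (u 32 2 (k v (k v (k (c 96 4099 r (u 64 1 (k v (k v r)))) (k (c 64 4095 r (u 96 0 (k v (k v r)))) (k (c 64 4095 r (u 96 0 (k v (k v r)))) r))))))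
 .z .z) .z)) (.s 0xfbaea88a22151144052bfa8013baa00 4093 (n false (n false (z 156) (z 5)) (n true (n false (n true (n false (n false (n true (n false (n false (n false (n false e e) (n false e e)) (n false (n false e e) (n false e e))) (n false e e)) e) (n false (n false (n false e e) (n false e e)) (n false (n false e e) (n false e e)))) e) e) e) e)) (t 6 1 (u 4 2 (k v (k (c 12 4099 r (u 8 1 (k v (k v r)))) (k (c 8 4095 r (u 12 0 (k v (k v r)))) r)))))
 (.s 0xfbaa88a222a88a220554451113bbb00 4093 (n false (n false (z 85) (n false (n false (n false (n false e e) (n false e e)) (n false (n false e e) (n false e e))) (n false e e))) (n true (n false (n true (n false (n false (n false (n false (n false e e) (n false e e)) (n false (n false e e) (n false e e))) (n false e e)) (n false (n false (n false (n false e e) (n false e e)) (n false (n false e e) (n false e e))) (n false e e))) e) e) e)) (u 4 77 (k v (k v (k (c 12 4099 r (u 8 195 (k v (k v (k v (k v (k v (k v r)))))))) (k (c 12 4099 r (c 17 4101 v r)) (k (c 12 4099 r (u 8 4 (k v (k v (k v (k (t 24 1 (u 16 26 (k v (k v (k v r))))) r)))))) (k (c 3 4098 v (c 10 4101 v r)) r)))))))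
 (.s 0xfbaa88a222a88a22052bfa8013baa00 4093 (n false (n false (z 156) (z 5)) (n true (n false (n true (n false (n false (n false (n false (n false e e) (n false e e)) (n false (n false e e) (n false e e))) (n false e e)) (n false (n false (n false (n false e e) (n false e e)) (n false (n false e e) (n false e e))) (n false e e))) e) e) e)) (t 6 1 (u 4 2 (k v (k (c 12 4099 r (u 8 1 (k v (k v r)))) (k (c 8 4095 r (u 12 0 (k v (k v r)))) r)))))
 .z .z) (.s 0xfbaaea88a2211444052bfa8013baa00 4093 (n false (n false (z 156) (z 5)) (n true (n false (n true (n false (n false (n false (n false (n true (n false (n false (n false (n false e e) (n false e e)) (n false (n false e e) (n false e e))) (n false e e)) e) (n false e e)) (n false (n false e e) (n false e e))) (n false e e)) e) e) e) e)) (t 6 1 (u 4 26 (k v (k v (k (c 12 4099 r (u 8 1 (k v (k v r)))) (k (c 8 4095 r (u 12 0 (k v (k v r)))) r))))))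
 .z .z)) (.s 0xfeaa22888aa228882e75fe00aa22888 4095 (n false (n true (n true (n false (n false (n false (n false (n false e e) (n false e e)) (n false (n false e e) (n false e e))) (n false e e)) (n false (n false (n false (n false e e) (n false e e)) (n false (n false e e) (n false e e))) (n false e e))) e) e) (n false (n true (z 121) e) (n false (n false (n false (n false e e) (n false e e)) (n false (n false e e) (n false e e))) (n false e e)))) (u 9 1 (k v (k (c 25 4099 r (u 17 1 (k v (k v r)))) (k (c 17 4097 r (u 25 1 (k v (k v r)))) (k (c 17 4095 r (u 25 0 (k v (k v r)))) (k (c 17 4095 r (u 25 0 (k v (k v r)))) r))))))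
 (.s 0xfeaa22888aa228882e5fdc00aa22888 4095 (n false (n true (n true (n false (n false (n false (n false (n false e e) (n false e e)) (n false (n false e e) (n false e e))) (n false e e)) (n false (n false (n false (n false e e) (n false e e)) (n false (n false e e) (n false e e))) (n false e e))) e) e) (n false (n true (z 46) e) (n false (n false (n false (n false e e) (n false e e)) (n false (n false e e) (n false e e))) (n false e e)))) (u 9 6 (k v (k v (k (u 17 1 (k v (k v r))) (k (c 25 4099 r (u 17 0 (k v (k v r)))) (k (u 17 1 (k v (k v r))) (k (c 25 4097 r (u 17 1 (k v (k v r)))) r)))))))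
 .z .z) .z))))

set_option maxRecDepth 100000 in
def N252 : NT :=
(.s 0x77551144455114441dcbbb8015445110 4094 (n false (n true (n false (n true (z 42) e) (n false (n false (n false (n false e e) (n false e e)) (n false (n false e e) (n false e e))) (n false e e))) e) (n false (n true (n false (n false (n false (n false (n false e e) (n false e e)) (n false (n false e e) (n false e e))) (n false e e)) (n false (n false (n false (n false e e) (n false e e)) (n false (n false e e) (n false e e))) (n false e e))) e) e)) (c 2 4088 (c 10 4101 v r) v)
 (.s 0x75d51144438551144454feec0275fe00 4089 (n false (n false (n false (z 87) (z 121)) e) (n false (n false (n true (n false (n false (n false (n false e e) (n false e e)) (n false (n false e e) (n false e e))) (n false e e)) e) (n true (n false e e) e)) (n false (n false (n false (n false e e) (n false e e)) (n false (n false e e) (n false e e))) (n false e e)))) (c 11 4101 v (u 12 50 (k (u 8 1 (k v (k v r))) (k (u 8 0 (k v (k v r))) (k r (k (c 28 4099 r r) r))))))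
 (.s 0x75d5114442577c01c3b9fdd802577c00 4088 (n false (n false (n false (z 52) (n true (n false (n false (n false (n false e e) (n false e e)) (n false (n false e e) (n false e e))) (n false e e)) e)) (n true (n false e e) e)) (n true (n false (z 52) (n true (z 87) e)) e)) (u 21 1 (k r (k (u 9 366 (k (u 8 26 (k v (k v (k v r)))) (k (t 8 1 v) (k (c 21 4094 v r) (k (t 8 1 v) (k (c 8 4097 r v) r)))))) r)))
 (.s 0x75d5114442577c01c2a575c012aaa008 4083 (n false (n false (n false (z 52) (n true (n false (n false (n false (n false e e) (n false e e)) (n false (n false e e) (n false e e))) (n false e e)) e)) (n true (n false e e) e)) (n false (n false (z 36) (z 0)) (n false e e))) (t 13 1 (u 9 0 (k (c 6 4094 v (u 8 199 (k r (k (c 3 4086 r v) (k (c 17 4097 r v) (k (c 2 4093 v r) (k (t 24 1 (u 16 2 (k r (k (u 17 2 (k v (k (c 9 4090 (u 4 1 (k v (k v r))) v) r))) r)))) r))))))) r)))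
 (.s 0x755d51144422888ae10a7f7c013baa00 4084 (n false (n false (n false (n false (n false (n true (n false (n false (n false (n false e e) (n false e e)) (n false (n false e e) (n false e e))) (n false e e)) e) (n false e e)) (n false (n false e e) (n false e e))) (n false e e)) (n false (n false (n true (n false e e) e) (n false e e)) e)) (n false (z 55) (z 5))) (t 7 1 (u 5 11 (k v (k (t 13 1 (u 9 16 (k v (k v (k (u 17 2 (k v (k v r))) r))))) r))))
 .z .z) (.s 0x75d5114442577c01c3b9f55802577c00 4092 (n false (n false (n false (z 52) (n true (n false (n false (n false (n false e e) (n false e e)) (n false (n false e e) (n false e e))) (n false e e)) e)) (n true (n false e e) e)) (n true (n false (n true (z 67) e) (z 52)) e)) (u 13 365 (k (c 8 4097 r (u 17 0 (k v (k v r)))) (k (c 3 4087 r (c 8 4097 r v)) (k (t 8 1 (c 20 4099 v (c 6 4094 v (u 17 0 (k v (k v r)))))) (k (c 8 4097 r (c 17 4103 r v)) (k (u 17 0 (k (u 8 26 (k v (k v (k v r)))) (k (u 8 26 (k v (k v (k v r)))) r))) r))))))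
 .z .z)) (.s 0x75d51144438551144454eeb802775400 4089 (n false (n false (n false (z 37) (z 5)) e) (n false (n false (n true (n false (n false (n false (n false e e) (n false e e)) (n false (n false e e) (n false e e))) (n false e e)) e) (n true (n false e e) e)) (n false (n false (n false (n false e e) (n false e e)) (n false (n false e e) (n false e e))) (n false e e)))) (t 12 1 (u 8 23 (k v (k v (k (c 17 4099 v (c 7 4099 v (c 20 4101 v (u 16 0 (k (t 32 3 (t 48 1 v)) r))))) (k (u 16 0 (k v (k v (k (t 48 1 (u 32 0 (k (t 64 3 (t 96 1 v)) r))) r)))) (k (c 8 4095 r v) r)))))))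
 (.s 0x75d51144438551144454eea80275fe00 4089 (n false (n false (n false (z 121) (z 5)) e) (n false (n false (n true (n false (n false (n false (n false e e) (n false e e)) (n false (n false e e) (n false e e))) (n false e e)) e) (n true (n false e e) e)) (n false (n false (n false (n false e e) (n false e e)) (n false (n false e e) (n false e e))) (n false e e)))) (t 12 1 (u 8 26 (k v (k v (k v (k (c 24 4099 r (u 16 6 (k v (k v (k v r))))) r))))))
 .z .z) .z)) (.s 0x75d51144438551144474feec0275fe00 4091 (n false (n true (n false (z 121) (z 87)) e) (n false (n false (n true (n false (n false (n false (n false e e) (n false e e)) (n false (n false e e) (n false e e))) (n false e e)) e) (n true (n false e e) e)) (n false (n false (n false (n false e e) (n false e e)) (n false (n false e e) (n false e e))) (n false e e)))) (c 11 4101 v (u 12 15 (k r (k (u 8 4 (k v (k v (k (c 24 4099 r (u 16 1 (k v (k v r)))) (k (c 16 4097 r (u 24 1 (k v (k v r)))) r))))) (k (t 8 2 v) r)))))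
 (.s 0x75d511444385511444554451112eee00 4089 (n false (n false (n false (n true (n false (n false (n false (n false e e) (n false e e)) (n false (n false e e) (n false e e))) (n false e e)) e) (n true (n false e e) e)) (n false (n false (n false (n false e e) (n false e e)) (n false (n false e e) (n false e e))) (n false e e))) (n false (z 42) (n false (n false (n false (n false e e) (n false e e)) (n false (n false e e) (n false e e))) (n false e e)))) (u 5 71 (k v (k v (k (t 9 3 (t 13 1 v)) (k (c 16 4099 v r) (k (t 13 3 r) (k (t 13 3 r) (k (t 13 2 (c 7 4099 v (c 10 4101 v r))) (k (c 3 4090 (c 3 4099 v r) v) (k r (k (t 13 3 (c 11 4101 v (u 9 1 (k v (k v r))))) (k (c 16 4099 v (c 6 4099 v r)) (k (c 16 4099 v r) r)))))))))))))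
 (.s 0x75d51144438551144454feec02775c00 4089 (n false (n false (n false (z 87) (z 37)) e) (n false (n false (n true (n false (n false (n false (n false e e) (n false e e)) (n false (n false e e) (n false e e))) (n false e e)) e) (n true (n false e e) e)) (n false (n false (n false (n false e e) (n false e e)) (n false (n false e e) (n false e e))) (n false e e)))) (u 12 53 (k (u 8 1 (k v (k v r))) (k (u 8 1 (k v (k v r))) (k (t 8 1 v) (k (u 8 1 (k v (k v r))) (k (u 20 31 (k (u 8 1 (k v (k v r))) (k (c 12 4094 v r) (k (c 11 4101 v (u 8 1 (k v (k v r)))) (k (u 8 1 (k v (k v r))) r))))) r))))))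
 .z .z) (.s 0x75d51144438551144474eea8025fdc00 4091 (n false (n true (n false (z 46) (z 5)) e) (n false (n false (n true (n false (n false (n false (n false e e) (n false e e)) (n false (n false e e) (n false e e))) (n false e e)) e) (n true (n false e e) e)) (n false (n false (n false (n false e e) (n false e e)) (n false (n false e e) (n false e e))) (n false e e)))) (t 12 1 (u 8 2 (k v (k (c 24 4099 r (u 16 0 (k v (k v r)))) (k r (k (c 2 4088 (c 10 4101 v r) v) (k (c 24 4097 r r) (k (c 16 4095 r r) r))))))))
 .z .z)) (.s 0x775445110a77dc011dcfeec015445110 4093 (n false (n false (n false (z 45) (n false e e)) (n true (n false (n false (n false (n false e e) (n false e e)) (n false (n false e e) (n false e e))) (n false e e)) e)) (n true (n false (n true (z 87) e) (n false (n false (n false (n false e e) (n false e e)) (n false (n false e e) (n false e e))) (n false e e))) e)) (u 8 2 (k (u 17 1 (k v (k v r))) (k (u 17 1 (k v (k v r))) r)))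
 (.s 0x75d5114443aa22888474eea8025fdc00 4096 (n false (n true (n false (z 46) (z 5)) e) (n false (n false (n true (n false (n false (n false (n false e e) (n false e e)) (n false (n false e e) (n false e e))) (n false e e)) e) (n true (n false (n false (n false (n false e e) (n false e e)) (n false (n false e e) (n false e e))) (n false e e)) e)) (n false e e))) (t 12 1 (u 8 2 (k v (k (c 24 4099 r (u 16 0 (k v (k v r)))) (k r (k (c 2 4088 (c 10 4101 v r) v) (k (c 24 4097 r r) (k (c 16 4095 r r) r))))))))
 .z .z) .z))) (.s 0x7d75445110e15445110a7776013baa00 4091 (n false (n false (z 85) (z 5)) (n true (n false (n false (n true (n false (n false (n false (n false e e) (n false e e)) (n false (n false e e) (n false e e))) (n false e e)) e) (n true (n false e e) e)) (n false (n false (n false (n false e e) (n false e e)) (n false (n false e e) (n false e e))) (n false e e))) e)) (t 6 1 (u 4 25 (k v (k v (k (c 12 4099 r r) (k (c 12 4099 r (u 8 9 (k v (k v r)))) (k (c 12 4099 r (u 8 4 (k v (k v (k v (k (t 24 1 (u 16 26 (k v (k v (k v r))))) r)))))) (k (c 3 4096 v (c 10 4101 v r)) (k (c 8 4099 r r) r)))))))))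
 (.s 0x7d75445110e15445110a7754012bff00 4091 (n false (n false (z 124) (z 5)) (n true (n false (n false (n true (n false (n false (n false (n false e e) (n false e e)) (n false (n false e e) (n false e e))) (n false e e)) e) (n true (n false e e) e)) (n false (n false (n false (n false e e) (n false e e)) (n false (n false e e) (n false e e))) (n false e e))) e)) (t 6 1 (u 4 7 (k v (k v (k (c 12 4097 r (u 8 1 (k v (k v r)))) (k (c 12 4096 r (u 8 1 (k v (k v r)))) (k (c 12 4097 r (u 8 1 (k v (k v r)))) r)))))))
 (.s 0x777d5114440551144474eea8025fdc00 4093 (n false (n true (n false (z 46) (z 5)) e) (n false (n true (n false (n true (n true (n false (n false (n false (n false e e) (n false e e)) (n false (n false e e) (n false e e))) (n false e e)) e) e) e) e) (n false (n false (n false (n false e e) (n false e e)) (n false (n false e e) (n false e e))) (n false e e)))) (t 12 1 (u 8 10 (k v (k (c 24 4099 r (u 16 0 (k v (k v r)))) (k (c 2 4088 (c 10 4101 v r) v) r)))))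
 (.s 0x77551144455114443874eea8025fdc00 4092 (n false (n true (n false (z 46) (z 5)) e) (n false (n true (n false (n false (n false (n false (n false e e) (n false e e)) (n false (n false e e) (n false e e))) (n false e e)) (n false (n false (n false (n false e e) (n false e e)) (n false (n false e e) (n false e e))) (n false e e))) e) (n true (n false e e) e))) (t 12 1 (u 8 19 (k v (k (c 24 4099 r (u 16 0 (k v (k v r)))) (k (c 2 4088 (c 10 4101 v r) v) (k (c 24 4097 r r) (k (c 16 4095 r r) r)))))))
 .z .z) (.s 0x777d5114440551144474feec0275fe00 4093 (n false (n true (n false (z 87) (z 121)) e) (n false (n true (n false (n true (n true (n false (n false (n false (n false e e) (n false e e)) (n false (n false e e) (n false e e))) (n false e e)) e) e) e) e) (n false (n false (n false (n false e e) (n false e e)) (n false (n false e e) (n false e e))) (n false e e)))) (u 12 48 (k (u 8 1 (k v (k v r))) (k (c 7 4099 v (u 8 1 (k v (k v r)))) (k (c 20 4097 r (c 7 4099 v r)) (k (c 20 4095 r (c 7 4099 v r)) (k (c 20 4095 r (c 7 4099 v r)) r))))))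
 .z .z)) (.s 0x7d75445110e15445110a775c012ffe00 4091 (n false (n false (z 62) (z 37)) (n true (n false (n false (n true (n false (n false (n false (n false e e) (n false e e)) (n false (n false e e) (n false e e))) (n false e e)) e) (n true (n false e e) e)) (n false (n false (n false (n false e e) (n false e e)) (n false (n false e e) (n false e e))) (n false e e))) e)) (u 4 11 (k (u 6 2 (k v (k v r))) (k (t 6 1 v) (k (t 6 1 v) (k (c 6 4101 r r) r)))))
 (.s 0x7d75445110e15445110a7754012fee00 4091 (n false (n false (z 46) (z 5)) (n true (n false (n false (n true (n false (n false (n false (n false e e) (n false e e)) (n false (n false e e) (n false e e))) (n false e e)) e) (n true (n false e e) e)) (n false (n false (n false (n false e e) (n false e e)) (n false (n false e e) (n false e e))) (n false e e))) e)) (t 6 1 (u 4 1 (k v (k r (k (c 12 4099 r (u 8 0 (k v (k v r)))) (k (u 8 0 (k v (k v r))) (k (c 12 4097 r r) (k (c 8 4095 r r) r))))))))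
 .z .z) .z)) (.s 0x7dd544511154451102e5ddc00aa22888 4094 (n false (n true (n false (n true (n false (n false (n false (n false (n false e e) (n false e e)) (n false (n false e e) (n false e e))) (n false e e)) (n false (n false (n false (n false e e) (n false e e)) (n false (n false e e) (n false e e))) (n false e e))) e) e) e) (n false (n true (z 42) e) (n false (n false (n false (n false e e) (n false e e)) (n false (n false e e) (n false e e))) (n false e e)))) (c 2 4098 v (c 11 4101 v r))
 (.s 0x7d75445110e15445110a7d5c013bae00 4091 (n false (n true (n false (n false (n true (n false (n false (n false (n false e e) (n false e e)) (n false (n false e e) (n false e e))) (n false e e)) e) (n true (n false e e) e)) (n false (n false (n false (n false e e) (n false e e)) (n false (n false e e) (n false e e))) (n false e e))) e) (n false (z 37) (z 35))) (u 7 21 (k (t 5 1 v) (k (u 5 2 (k v (k v r))) (k (t 5 1 v) (k (t 15 1 (u 11 0 (k (t 19 3 (t 27 1 (u 5 1 (k v (k v r))))) r))) r)))))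
 (.s 0x7d75445110e15445110a7d5c013aff00 4091 (n false (n true (n false (n false (n true (n false (n false (n false (n false e e) (n false e e)) (n false (n false e e) (n false e e))) (n false e e)) e) (n true (n false e e) e)) (n false (n false (n false (n false e e) (n false e e)) (n false (n false e e) (n false e e))) (n false e e))) e) (n false (z 121) (z 35))) (u 7 21 (k (t 5 2 v) (k r (k (t 5 2 v) (k (t 15 1 (u 5 8 (k (u 11 0 (k (t 19 3 (t 27 1 v)) r)) (k (c 11 4098 r v) (k r (k (c 13 4099 r r) r)))))) r)))))
 .z .z) (.s 0x7d75445110e15445110a7df6013baa00 4091 (n false (n true (n false (n false (n true (n false (n false (n false (n false e e) (n false e e)) (n false (n false e e) (n false e e))) (n false e e)) e) (n true (n false e e) e)) (n false (n false (n false (n false e e) (n false e e)) (n false (n false e e) (n false e e))) (n false e e))) e) (n false (z 91) (z 5))) (t 7 1 (u 5 8 (k v (k v (k v (k (u 9 0 (k v (k v r))) (k (c 9 4097 r (u 13 0 (k v (k v r)))) r)))))))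
 .z .z)) (.s 0x7ddf544511015445110a7f76013aff00 4093 (n false (n true (n false (n true (n false (n true (n true (n false (n false (n false (n false e e) (n false e e)) (n false (n false e e) (n false e e))) (n false e e)) e) e) e) e) (n false (n false (n false (n false e e) (n false e e)) (n false (n false e e) (n false e e))) (n false e e))) e) (n false (z 121) (z 87))) (c 12 4099 v (u 5 4 (k (u 7 1 (k v (k v r))) (k (u 7 1 (k v (k v r))) (k (c 13 4099 r r) (k (c 9 4097 r r) r))))))
 (.s 0x7ddf544511015445110a7754012fee00 4093 (n false (n false (z 46) (z 5)) (n true (n false (n true (n false (n true (n true (n false (n false (n false (n false e e) (n false e e)) (n false (n false e e) (n false e e))) (n false e e)) e) e) e) e) (n false (n false (n false (n false e e) (n false e e)) (n false (n false e e) (n false e e))) (n false e e))) e)) (t 6 1 (u 4 10 (k v (k (c 12 4099 r (u 8 0 (k v (k v r)))) (k (c 3 4096 v (c 10 4101 v r)) r)))))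
 .z .z) .z))))

set_option maxRecDepth 100000 in
def N253 : NT :=
(.s 0x3ebaa2288870aa2288852bfa8013fbb00 4091 (n false (n false (z 87) (z 156)) (n true (n false (n false (n true (n false (n false (n false (n false e e) (n false e e)) (n false (n false e e) (n false e e))) (n false e e)) e) (n true (n false e e) e)) (n false (n false (n false (n false e e) (n false e e)) (n false (n false e e) (n false e e))) (n false e e))) e)) (c 21 4101 v (u 4 15 (k r (k (u 6 8 (k v (k v (k (c 14 4099 r (u 10 1 (k v (k v r)))) (k (c 10 4098 r (u 14 1 (k v (k v r)))) (k (c 10 4097 r r) (k (c 10 4099 r (u 14 1 (k v (k v r)))) r))))))) (k (t 6 1 v) r)))))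
 (.s 0x3aea88a221c2a88a223a57f50027f7600 4091 (n false (n true (n false (z 156) (z 87)) e) (n false (n false (n true (n false (n false (n false (n false e e) (n false e e)) (n false (n false e e) (n false e e))) (n false e e)) e) (n true (n false e e) e)) (n false (n false (n false (n false e e) (n false e e)) (n false (n false e e) (n false e e))) (n false e e)))) (c 11 4101 v (u 8 8 (k (u 12 0 (k v (k v r))) (k (c 4 4066 (u 3 1 (k v (k v r))) v) (k (c 24 4099 r r) (k (c 16 4098 r r) (k (c 16 4097 r (u 24 1 (k (u 12 0 (k v (k v r))) (k (u 12 0 (k v (k v r))) r)))) (k (c 16 4099 r r) r))))))))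
 (.s 0x3aea88a221c2a88a222a57f5002775400 4089 (n false (n false (n false (z 156) (z 5)) e) (n false (n false (n true (n false (n false (n false (n false e e) (n false e e)) (n false (n false e e) (n false e e))) (n false e e)) e) (n true (n false e e) e)) (n false (n false (n false (n false e e) (n false e e)) (n false (n false e e) (n false e e))) (n false e e)))) (t 12 1 (u 8 16 (k v (k v (k v (k (c 24 4099 r (u 16 6 (k v (k v (k v r))))) (k (c 16 4099 r (u 24 6 (k v (k v (k v r))))) r)))))))
 (.s 0x3abaa22888444afea0074efb802555400 4090 (n false (n false (z 156) (n false (n false (n true (n false (n false (n false (n false e e) (n false e e)) (n false (n false e e) (n false e e))) (n false e e)) e) (n false e e)) (n false e e))) (n true (n false (z 45) (z 0)) e)) (t 13 1 (u 4 37 (k (u 9 0 (k v (k v r))) (k (c 6 4094 v (u 9 0 (k v (k v r)))) (k (u 9 0 (k v (k v r))) (k (c 12 4099 r r) (k (c 8 4099 r r) r)))))))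
 (.s 0x3aa9dd5004ebac03aa22888470aa22888 4091 (n false (n false (n false (n false (n false (z 73) (z 5)) (n true (n false (n false (n false (n false e e) (n false e e)) (n false (n false e e) (n false e e))) (n false e e)) e)) (n false e e)) (n true (n false e e) e)) (n false (n false (n false (n false e e) (n false e e)) (n false (n false e e) (n false e e))) (n false e e))) (t 48 2 (c 24 4110 v (c 3 4099 v (c 6 4094 v (u 32 0 (k (u 64 0 (k v (k v r))) r))))))
 .z .z) (.s 0x3abaa22888544511cfaac00baa2288870 4077 (n false (n false (n false (n true (z 67) e) (n false (n true (n false (n false (n false (n false e e) (n false e e)) (n false (n false e e) (n false e e))) (n false e e)) e) (n false (n false (n false e e) (n false e e)) (n false (n false e e) (n false e e))))) e) (n false (n true (n false (n false (n false (n false e e) (n false e e)) (n false (n false e e) (n false e e))) (n false e e)) e) (n true (n false e e) e))) (u 16 139 (k v (k v (k v (k v (k (t 48 2 (u 32 2 (k v (k v r)))) (k (c 32 4101 r (u 48 0 (k v (k v r)))) (k (c 48 4099 r r) (k (c 8 4097 r v) (k (c 48 4099 r (u 32 0 (k (u 64 0 (k v (k v r))) r))) (k (c 48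 4101 r (u 32 1 (k v (k v r)))) (k (c 48 4099 r r) (k (c 48 4102 r (u 32 1 (k v (k v r)))) (k (c 32 4101 r (u 48 1 (k v (k v r)))) (k (c 48 4099 r (u 32 2 (k v (k (c 96 4099 r (u 64 1 (k v (k v r)))) (k (c 64 4095 r (u 96 0 (k v (k v r)))) r))))) (k (c 32 4101 r (u 48 1 (k v (k v r)))) r))))))))))))))))
 .z .z)) (.s 0x3aea88a221c2a88a223a57f5002775400 4091 (n false (n true (n false (z 156) (z 5)) e) (n false (n false (n true (n false (n false (n false (n false e e) (n false e e)) (n false (n false e e) (n false e e))) (n false e e)) e) (n true (n false e e) e)) (n false (n false (n false (n false e e) (n false e e)) (n false (n false e e) (n false e e))) (n false e e)))) (t 12 1 (u 8 1 (k v (k (c 24 4099 r (u 16 1 (k v (k v r)))) (k (c 16 4098 r (u 24 1 (k v (k v r)))) (k (c 16 4097 r r) (k (c 16 4099 r (u 24 1 (k v (k v r)))) (k (c 16 4095 r (u 24 0 (k v (k v r)))) r))))))))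
 (.s 0x3aea88a221c2a88a222a57f50027f7600 4089 (n false (n false (n false (z 87) (z 156)) e) (n false (n false (n true (n false (n false (n false (n false e e) (n false e e)) (n false (n false e e) (n false e e))) (n false e e)) e) (n true (n false e e) e)) (n false (n false (n false (n false e e) (n false e e)) (n false (n false e e) (n false e e))) (n false e e)))) (c 11 4101 v (u 12 16 (k r (k (u 8 1 (k v (k v r))) (k (c 4 4066 (u 2 1 (k v (k v r))) v) (k (c 28 4099 r r) (k (c 20 4099 r r) r)))))))
 .z .z) .z)) (.s 0x3bbea88a2202a88a223a57f50027f7600 4093 (n false (n true (n false (z 156) (z 87)) e) (n false (n true (n false (n true (n true (n false (n false (n false (n false e e) (n false e e)) (n false (n false e e) (n false e e))) (n false e e)) e) e) e) e) (n false (n false (n false (n false e e) (n false e e)) (n false (n false e e) (n false e e))) (n false e e)))) (c 7 4099 v (u 8 1 (k (u 12 1 (k v (k v r))) (k (c 24 4099 r r) (k (c 16 4098 r r) (k (c 16 4097 r r) (k (c 16 4099 r r) (k (c 16 4095 r r) r))))))))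
 (.s 0x3bbaa2288870551144474feec0275fe00 4085 (n false (n true (n false (z 121) (z 87)) e) (n false (n true (n false (n true (n false (n false (n false (n false e e) (n false e e)) (n false (n false e e) (n false e e))) (n false e e)) e) (n true (n false e e) e)) e) (n false (n false (n false (n false e e) (n false e e)) (n false (n false e e) (n false e e))) (n false e e)))) (c 11 4101 v (u 8 50 (k (u 12 0 (k v (k v r))) (k (c 2 4080 (t 6 1 v) v) (k r (k (c 24 4099 r r) r))))))
 (.s 0x3baa88a222a88a221c3a57f5002775400 4092 (n false (n true (n false (z 156) (z 5)) e) (n false (n true (n false (n false (n false (n false (n false e e) (n false e e)) (n false (n false e e) (n false e e))) (n false e e)) (n false (n false (n false (n false e e) (n false e e)) (n false (n false e e) (n false e e))) (n false e e))) e) (n true (n false e e) e))) (t 12 1 (u 8 2 (k v (k (c 24 4099 r (u 16 1 (k v (k v r)))) (k (c 16 4095 r (u 24 0 (k v (k v r)))) r)))))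
 .z .z) (.s 0x3bbea88a2202a88a223a57f5002775400 4093 (n false (n true (n false (z 156) (z 5)) e) (n false (n true (n false (n true (n true (n false (n false (n false (n false e e) (n false e e)) (n false (n false e e) (n false e e))) (n false e e)) e) e) e) e) (n false (n false (n false (n false e e) (n false e e)) (n false (n false e e) (n false e e))) (n false e e)))) (t 12 1 (u 8 1 (k v (k (c 24 4099 r (u 16 1 (k v (k v r)))) (k (c 16 4098 r (u 24 1 (k v (k v r)))) (k (c 16 4097 r r) (k (c 16 4099 r (u 24 1 (k v (k v r)))) (k (c 16 4095 r (u 24 0 (k v (k v r)))) r))))))))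
 .z .z)) (.s 0x3ebaa2288870aa2288852bfa8013eae00 4091 (n false (n true (n false (n false (n true (n false (n false (n false (n false e e) (n false e e)) (n false (n false e e) (n false e e))) (n false e e)) e) (n true (n false e e) e)) (n false (n false (n false (n false e e) (n false e e)) (n false (n false e e) (n false e e))) (n false e e))) e) (n false (z 156) (z 35))) (u 7 9 (k (t 5 1 v) (k (c 20 4101 v (t 5 1 v)) (k (t 15 1 (u 5 3 (k r (k (c 3 4069 (u 5 0 (k (t 9 3 (t 13 1 v)) r)) v) (k (c 13 4099 r r) r))))) r))))
 (.s 0x3ebaa2288870aa2288852bfa8013baa00 4091 (n false (n false (z 156) (z 5)) (n true (n false (n false (n true (n false (n false (n false (n false e e) (n false e e)) (n false (n false e e) (n false e e))) (n false e e)) e) (n true (n false e e) e)) (n false (n false (n false (n false e e) (n false e e)) (n false (n false e e) (n false e e))) (n false e e))) e)) (t 6 1 (u 4 1 (k v (k (c 12 4099 r (u 8 1 (k v (k v r)))) (k (c 8 4098 r (u 12 1 (k v (k v r)))) (k (c 8 4097 r r) (k (c 8 4099 r (u 12 1 (k v (k v r)))) (k (c 8 4095 r (u 12 0 (k v (k v r)))) r))))))))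
 .z .z) .z))) (.s 0x1d53baa0097f700754451108bea88a2208 4087 (n false (n false (n false (n false (z 5) (z 46)) (n true (n false (n false (n false (n false e e) (n false e e)) (n false (n false e e) (n false e e))) (n false e e)) e)) (n false e e)) (n false (n true (n true (n false (n false (n false (n false e e) (n false e e)) (n false (n false e e) (n false e e))) (n false e e)) e) e) (n false e e))) (t 16 2 (u 24 2 (k v (k (c 56 4099 r (u 40 0 (k v (k v r)))) (k (c 12 4110 v r) (k (c 2 4083 (c 8 4094 v (u 20 84 (k v (k v (k v (k v (k (c 52 4110 r r) (k (c 52 4110 r r) (k (c 52 4110 r r) (k (c 52 4110 r (c 10 4099 v (u 36 1 (k v (k v r))))) r)))))))))) v) (k (c 56 4097 r (c 12 4110 v r)) (k (c 40 4095 r (c 12 4110 v r)) r))))))))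
 (.s 0x1d4afa802577c0154451115d5114443870 4080 (n false (n false (n false (z 52) (z 12)) (n false (n false (n false (n false e e) (n false e e)) (n false (n false e e) (n false e e))) (n false e e))) (n false (n false (n true (n false (n false (n false (n false e e) (n false e e)) (n false (n false e e) (n false e e))) (n false e e)) e) (n true (n false e e) e)) (n true (n false e e) e))) (t 12 3 (u 8 325 (k v (k v (k v (k v (k v (k v (k v (k (t 24 1 (u 16 2 (k v (k v r)))) (k (t 24 1 (c 4 4086 r v)) r)))))))))))
 (.s 0x3eefaa228880aa2288852bfa8013baa00 4093 (n false (n false (z 156) (z 5)) (n true (n false (n true (n false (n true (n true (n false (n false (n false (n false e e) (n false e e)) (n false (n false e e) (n false e e))) (n false e e)) e) e) e) e) (n false (n false (n false (n false e e) (n false e e)) (n false (n false e e) (n false e e))) (n false e e))) e)) (t 6 1 (u 4 1 (k v (k (c 12 4099 r (u 8 1 (k v (k v r)))) (k (c 8 4098 r (u 12 1 (k v (k v r)))) (k (c 8 4097 r r) (k (c 8 4099 r (u 12 1 (k v (k v r)))) (k (c 8 4095 r (u 12 0 (k v (k v r)))) r))))))))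
 (.s 0x3ebaa2288870aa2288874aef802555400 4086 (n false (n true (n false (n false (n true (n false (n false (n false (n false e e) (n false e e)) (n false (n false e e) (n false e e))) (n false e e)) e) (n true (n false e e) e)) (n false (n false (n false (n false e e) (n false e e)) (n false (n false e e) (n false e e))) (n false e e))) e) (n true (n false (z 52) (z 0)) e)) (t 13 1 (u 9 41 (k v (k v (k (t 25 1 (u 17 0 (k v (k v r)))) r)))))
 .z .z) (.s 0x3eefaa228880aa2288852bfa8013fbb00 4093 (n false (n true (n false (n true (n false (n true (n true (n false (n false (n false (n false e e) (n false e e)) (n false (n false e e) (n false e e))) (n false e e)) e) e) e) e) (n false (n false (n false (n false e e) (n false e e)) (n false (n false e e) (n false e e))) (n false e e))) e) (n false (z 156) (z 87))) (c 12 4099 v (u 5 1 (k (u 7 1 (k v (k v r))) (k (c 13 4099 r r) (k (c 9 4098 r r) (k (c 9 4097 r r) (k (c 9 4099 r r) (k (c 9 4095 r (u 13 0 (k (u 7 1 (k v (k v r))) (k (u 7 1 (k v (k v r))) r)))) r))))))))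
 .z .z)) (.s 0x1d4eea8025fdc01511445d5114442a2288 4094 (n false (n false (n false (z 46) (z 5)) (n false (n false (n false e e) (n false e e)) (n false (n false e e) (n false e e)))) (n false (n true (n false (n false (n false (n false e e) (n false e e)) (n false (n false e e) (n false e e))) (n false e e)) e) (n false (n false (n false e e) (n false e e)) (n false (n false e e) (n false e e))))) (t 12 1 (u 8 10 (k v (k (c 24 4099 r (u 16 0 (k v (k v r)))) (k (c 12 4099 v (u 16 61 (k v (k v (k v r))))) r)))))
 (.s 0x1d4eea8025fdc015114455d51144422888 4094 (n false (n false (n false (z 46) (z 5)) (n false (n false (n false e e) (n false e e)) (n false (n false e e) (n false e e)))) (n false (n false (n false (n true (n false (n false (n false (n false e e) (n false e e)) (n false (n false e e) (n false e e))) (n false e e)) e) (n false e e)) (n false (n false e e) (n false e e))) (n false e e))) (t 12 1 (u 8 10 (k v (k (c 24 4099 r (u 16 0 (k v (k v r)))) (k (c 12 4099 v (u 16 61 (k v (k v (k v r))))) r)))))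
 .z .z) .z)) (.s 0x1d554451113eee00e1c2aa22888aa22888 4086 (n false (n false (n false (n false (z 43) (n false (n false (n false (n false e e) (n false e e)) (n false (n false e e) (n false e e))) (n false e e))) (n true (n false e e) e)) (n true (n false e e) e)) (n false (n false (n false (n false (n false e e) (n false e e)) (n false (n false e e) (n false e e))) (n false e e)) (n false (n false (n false (n false e e) (n false e e)) (n false (n false e e) (n false e e))) (n false e e)))) (u 16 0 (k v (k r (k (c 48 4099 r (u 32 0 (k (u 64 0 (k v (k v r))) r))) (k r (k (c 2 4070 r v) (k (u 32 0 (k (u 64 0 (k v (k v r))) r)) (k r (k (u 32 4 (k v (k (c 96 4099 r (u 64 1 (k v (k v r)))) r))) r)))))))))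
 (.s 0x1d53bae009dd500754451108bea88a2208 4087 (n false (n false (n false (n false (z 37) (z 5)) (n true (n false (n false (n false (n false e e) (n false e e)) (n false (n false e e) (n false e e))) (n false e e)) e)) (n false e e)) (n false (n true (n true (n false (n false (n false (n false e e) (n false e e)) (n false (n false e e) (n false e e))) (n false e e)) e) e) (n false e e))) (t 24 1 (u 16 44 (k v (k v (k v (k (c 4 4095 r v) (k (u 32 23 (k v (k v (k v (k (t 96 1 (u 64 0 (k (t 128 3 (t 192 1 v)) r))) r))))) r)))))))
 (.s 0x1d53baa009d7f80754451108bea88a2208 4087 (n false (n false (n false (n false (z 121) (z 5)) (n true (n false (n false (n false (n false e e) (n false e e)) (n false (n false e e) (n false e e))) (n false e e)) e)) (n false e e)) (n false (n true (n true (n false (n false (n false (n false e e) (n false e e)) (n false (n false e e) (n false e e))) (n false e e)) e) e) (n false e e))) (t 24 1 (u 16 2 (k v (k v (k (c 48 4099 r (u 32 1 (k v (k v r)))) (k (c 32 4095 r (u 48 0 (k v (k v r)))) (k (c 32 4095 r (u 48 0 (k v (k v r)))) r)))))))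
 .z .z) (.s 0x1d551144455114444aef803aea88a22110 4088 (n false (n false (z 52) (n false (n false (n false (n false (n false e e) (n false e e)) (n false (n false e e) (n false e e))) (n false e e)) (n false (n false (n false (n false e e) (n false e e)) (n false (n false e e) (n false e e))) (n false e e)))) (n true (n false (n false (n true (n false (n false (n false (n false e e) (n false e e)) (n false (n false e e) (n false e e))) (n false e e)) e) (n false e e)) (n false e e)) e)) (u 4 345 (k v (k v (k v (k v (k (t 12 1 (u 8 0 (k v (k v r)))) r))))))
 .z .z)) (.s 0x1d5d5114442a2288f9d7f800baa2288870 4074 (n false (n false (n false (n true (n true (z 121) e) e) (n false (n true (n false (n false (n false (n false e e) (n false e e)) (n false (n false e e) (n false e e))) (n false e e)) e) (n false (n false (n false e e) (n false e e)) (n false (n false e e) (n false e e))))) e) (n false (n true (n false (n false (n false (n false e e) (n false e e)) (n false (n false e e) (n false e e))) (n false e e)) e) (n true (n false e e) e))) (u 32 2 (k v (k v (k (c 96 4099 r (u 64 1 (k v (k v r)))) (k (c 64 4095 r (u 96 0 (k v (k v r))))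 (k (c 64 4095 r (u 96 0 (k v (k v r)))) r))))))
 (.s 0x1d5d5114442a2288f97f7000baa2288870 4074 (n false (n false (n false (n true (n true (z 46) e) e) (n false (n true (n false (n false (n false (n false e e) (n false e e)) (n false (n false e e) (n false e e))) (n false e e)) e) (n false (n false (n false e e) (n false e e)) (n false (n false e e) (n false e e))))) e) (n false (n true (n false (n false (n false (n false e e) (n false e e)) (n false (n false e e) (n false e e))) (n false e e)) e) (n true (n false e e) e))) (u 32 2 (k v (k (c 96 4099 r (u 64 0 (k v (k v r)))) (k r (k (u 64 26 (k v (k v r))) (k (c 96 4097 r r) (k (c 64 4095 r r) r)))))))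
 .z .z) .z))))

set_option maxRecDepth 100000 in
def N254 : NT :=
(.s 0x1f5d5114443855114442e577c00aa22888 4088 (n false (n false (n true (z 52) e) (n false (n false (n false (n false e e) (n false e e)) (n false (n false e e) (n false e e))) (n false e e))) (n true (n false (n false (n true (n false (n false (n false (n false e e) (n false e e)) (n false (n false e e) (n false e e))) (n false e e)) e) (n true (n false e e) e)) (n false (n false (n false (n false e e) (n false e e)) (n false (n false e e) (n false e e))) (n false e e))) e)) (u 8 195 (k v (k v (k v (k v (k v (k v r)))))))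
 (.s 0x1dd54451115445110e1dcbbb8015445110 4093 (n false (n true (n false (n true (z 42) e) (n false (n false (n false (n false e e) (n false e e)) (n false (n false e e) (n false e e))) (n false e e))) e) (n false (n true (n false (n false (n false (n false (n false e e) (n false e e)) (n false (n false e e) (n false e e))) (n false e e)) (n false (n false (n false (n false e e) (n false e e)) (n false (n false e e) (n false e e))) (n false e e))) e) (n true (n false e e) e))) (c 2 4088 (c 10 4101 v r) v)
 (.s 0x1d7544511097f500551144457544511088 4093 (n false (n false (n false (z 14) (n true (n false (n false (n false (n false e e) (n false e e)) (n false (n false e e) (n false e e))) (n false e e)) e)) (n false (n false (n false (n false e e) (n false e e)) (n false (n false e e) (n false e e))) (n false e e))) (n false (n false (n true (n false (n false (n false (n false e e) (n false e e)) (n false (n false e e) (n false e e))) (n false e e)) e) (n false e e)) (n false e e))) (c 17 4099 v (u 8 3 (k v (k v (k v r)))))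
 (.s 0x1d5d5114443aa2288842e777600aa22888 4093 (n false (n false (n true (z 85) e) (n false (n false (n false (n false e e) (n false e e)) (n false (n false e e) (n false e e))) (n false e e))) (n false (n false (n false (n true (n false (n false (n false (n false e e) (n false e e)) (n false (n false e e) (n false e e))) (n false e e)) e) (n true (n false (n false (n false (n false e e) (n false e e)) (n false (n false e e) (n false e e))) (n false e e)) e)) (n false e e)) e)) (u 8 18 (k v (k v (k v (k (c 3 4096 v (c 10 4101 v r)) (k (c 24 4097 r (c 10 4101 v (u 16 17 (k v (k v (k (u 32 12 (k v (k v r))) (k (c 48 4096 r (c 3 4096 v (c 8 4088 r v))) (k (c 32 4099 r (u 48 66 (k v (k v (k v (k v (k v r))))))) r)))))))) r))))))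
 (.s 0x1d5d5114443aa2288842e5ffc00aa22888 4091 (n false (n false (n true (z 62) e) (n false (n false (n false (n false e e) (n false e e)) (n false (n false e e) (n false e e))) (n false e e))) (n false (n false (n false (n true (n false (n false (n false (n false e e) (n false e e)) (n false (n false e e) (n false e e))) (n false e e)) e) (n true (n false (n false (n false (n false e e) (n false e e)) (n false (n false e e) (n false e e))) (n false e e)) e)) (n false e e)) e)) (u 8 4 (k v (k v (k v (k (t 24 1 (u 16 41 (k v (k v (k (t 48 1 (u 32 0 (k v (k v r)))) r))))) r)))))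
 .z .z) (.s 0x1d5d5114443aa2288842e7f7c00aa22888 4091 (n false (n false (n true (z 55) e) (n false (n false (n false (n false e e) (n false e e)) (n false (n false e e) (n false e e))) (n false e e))) (n false (n false (n false (n true (n false (n false (n false (n false e e) (n false e e)) (n false (n false e e) (n false e e))) (n false e e)) e) (n true (n false (n false (n false (n false e e) (n false e e)) (n false (n false e e) (n false e e))) (n false e e)) e)) (n false e e)) e)) (c 2 4091 (c 3 4099 v r) v)
 .z .z)) (.s 0x1d75445110ea88a2211dcbbb8015445110 4097 (n false (n true (n false (n true (z 42) e) (n false (n false (n false (n false e e) (n false e e)) (n false (n false e e) (n false e e))) (n false e e))) e) (n false (n false (n true (n false (n false (n false (n false e e) (n false e e)) (n false (n false e e) (n false e e))) (n false e e)) e) (n true (n false (n false (n false (n false e e) (n false e e)) (n false (n false e e) (n false e e))) (n false e e)) e)) (n false e e))) (c 2 4088 (c 10 4101 v r) v)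
 (.s 0x1d75445110e15445111dcbbb8015445110 4090 (n false (n true (n false (n true (z 42) e) (n false (n false (n false (n false e e) (n false e e)) (n false (n false e e) (n false e e))) (n false e e))) e) (n false (n false (n true (n false (n false (n false (n false e e) (n false e e)) (n false (n false e e) (n false e e))) (n false e e)) e) (n true (n false e e) e)) (n false (n false (n false (n false e e) (n false e e)) (n false (n false e e) (n false e e))) (n false e e)))) (c 2 4088 (c 10 4101 v r) v)
 .z .z) .z)) (.s 0x1ddf544511015445111dcbbb8015445110 4092 (n false (n true (n false (n true (z 42) e) (n false (n false (n false (n false e e) (n false e e)) (n false (n false e e) (n false e e))) (n false e e))) e) (n false (n true (n false (n true (n true (n false (n false (n false (n false e e) (n false e e)) (n false (n false e e) (n false e e))) (n false e e)) e) e) e) e) (n false (n false (n false (n false e e) (n false e e)) (n false (n false e e) (n false e e))) (n false e e)))) (c 2 4088 (c 10 4101 v r) v)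
 (.s 0x1ddd511444382a88a223a57f5002775400 4085 (n false (n true (n false (z 156) (z 5)) e) (n false (n true (n false (n true (n false (n false (n false (n false e e) (n false e e)) (n false (n false e e) (n false e e))) (n false e e)) e) (n true (n false e e) e)) e) (n false (n false (n false (n false e e) (n false e e)) (n false (n false e e) (n false e e))) (n false e e)))) (t 12 1 (u 8 19 (k v (k v (k (c 24 4099 r (u 16 1 (k v (k v r)))) (k (c 16 4099 r (u 24 1 (k v (k v r)))) (k (c 16 4095 r (u 24 0 (k v (k v r)))) r)))))))
 (.s 0x1dd75445110ea88a2210aa22888e7d5600 4093 (n false (n false (n true (n false (n false (n true (n false (n false (n false (n false e e) (n false e e)) (n false (n false e e) (n false e e))) (n false e e)) e) (n true (n false (n false (n false (n false e e) (n false e e)) (n false (n false e e) (n false e e))) (n false e e)) e)) (n false e e)) e) (n false (n false (n false (n false e e) (n false e e)) (n false (n false e e) (n false e e))) (n false e e))) (n true (z 67) e)) (u 5 51 (k v (k v (k v (k v (k (t 13 1 (u 9 1 (k v (k v r)))) (k r (k r (k (c 64 4099 v (c 80 4099 v (c 3 4088 r v))) (k r (k (c 8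 4097 v r) (k r (k (c 8 4097 v (c 10 4101 v (u 13 0 (k r r)))) (k (c 8 4097 v (c 10 4101 v r)) (k r (k (c 8 4097 v (c 10 4101 v r)) r))))))))))))))))
 .z .z) (.s 0x1ddd511444382a88a223a57f50027f7600 4085 (n false (n true (n false (z 156) (z 87)) e) (n false (n true (n false (n true (n false (n false (n false (n false e e) (n false e e)) (n false (n false e e) (n false e e))) (n false e e)) e) (n true (n false e e) e)) e) (n false (n false (n false (n false e e) (n false e e)) (n false (n false e e) (n false e e))) (n false e e)))) (c 11 4101 v (u 8 30 (k r (k (u 12 0 (k v (k v r))) (k (c 24 4099 r r) (k (c 16 4099 r r) (k (c 16 4095 r (u 24 23 (k (u 12 0 (k v (k v r))) (k r r)))) r)))))))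
 .z .z)) (.s 0x1f575445110ea88a22110a7754012afe00 4091 (n false (n false (z 56) (z 5)) (n true (n false (n false (n false (n true (n false (n false (n false (n false e e) (n false e e)) (n false (n false e e) (n false e e))) (n false e e)) e) (n true (n false (n false (n false (n false e e) (n false e e)) (n false (n false e e) (n false e e))) (n false e e)) e)) (n false e e)) (n false e e)) e)) (t 6 1 (u 4 0 (k (u 8 212 (k v (k v (k v (k v (k (t 24 1 (u 16 0 (k v (k v r)))) r)))))) (k (c 8 4096 r (u 12 0 (k v (k v r)))) (k (u 8 1 (k v (k v r))) (k (c 12 4096 r (u 8 409 (k v (k v (k v (k v (k (t 24 1 (u 16 0 (k v (k v r)))) r))))))) r))))))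
 (.s 0x1f575445110ea88a22110a57d4012bbe00 4091 (n false (n false (z 52) (z 12)) (n true (n false (n false (n false (n true (n false (n false (n false (n false e e) (n false e e)) (n false (n false e e) (n false e e))) (n false e e)) e) (n true (n false (n false (n false (n false e e) (n false e e)) (n false (n false e e) (n false e e))) (n false e e)) e)) (n false e e)) (n false e e)) e)) (t 6 3 (u 4 48 (k v (k v (k v (k v (k (t 12 1 (u 8 0 (k v (k v r)))) r)))))))
 .z .z) .z))) (.s 0xeae5fdc00aa22888e1c2aa22888aa22888 4086 (n false (n false (n false (n false (n true (z 46) e) (n false (n false (n false (n false e e) (n false e e)) (n false (n false e e) (n false e e))) (n false e e))) (n true (n false e e) e)) (n true (n false e e) e)) (n false (n false (n false (n false (n false e e) (n false e e)) (n false (n false e e) (n false e e))) (n false e e)) (n false (n false (n false (n false e e) (n false e e)) (n false (n false e e) (n false e e))) (n false e e)))) (c 24 4099 v (c 6 4094 v (u 32 2 (k v (k (c 96 4099 r (u 64 0 (k v (k v r)))) (k (u 64 1 (k v (k v r))) (k (u 64 15 (k v (k v (k v r)))) (k (c 96 4097 r (u 64 1 (k v (k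 v r)))) (k (c 64 4095 r (u 96 1 (k v (k v r)))) r)))))))))
 (.s 0x1f5d5114443aa2288842e777600aa22888 4093 (n false (n false (n true (z 85) e) (n false (n false (n false (n false e e) (n false e e)) (n false (n false e e) (n false e e))) (n false e e))) (n true (n false (n false (n true (n false (n false (n false (n false e e) (n false e e)) (n false (n false e e) (n false e e))) (n false e e)) e) (n true (n false (n false (n false (n false e e) (n false e e)) (n false (n false e e) (n false e e))) (n false e e)) e)) (n false e e)) e)) (u 8 16 (k v (k v (k v (k (c 3 4096 v (c 10 4101 v r)) (k (c 24 4097 r (c 10 4101 v (u 16 17 (k v (k v (k (u 32 12 (k v (k v r))) (k (c 48 4096 r (c 3 4096 v (c 8 4088 r v))) (k (c 32 4099 r (u 48 67 (k v (k v (k v (k v (k v r))))))) r)))))))) r))))))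
 (.s 0x1f5d5114443aa2288842e577c00aa22888 4091 (n false (n false (n true (z 52) e) (n false (n false (n false (n false e e) (n false e e)) (n false (n false e e) (n false e e))) (n false e e))) (n true (n false (n false (n true (n false (n false (n false (n false e e) (n false e e)) (n false (n false e e) (n false e e))) (n false e e)) e) (n true (n false (n false (n false (n false e e) (n false e e)) (n false (n false e e) (n false e e))) (n false e e)) e)) (n false e e)) e)) (u 8 10 (k v (k v (k v (k v (k v (k (t 24 1 (u 16 0 (k v (k v r)))) r)))))))
 (.s 0x1f5d5114443855114442e5ddc00aa22888 4090 (n false (n false (n true (z 42) e) (n false (n false (n false (n false e e) (n false e e)) (n false (n false e e) (n false e e))) (n false e e))) (n true (n false (n false (n true (n false (n false (n false (n false e e) (n false e e)) (n false (n false e e) (n false e e))) (n false e e)) e) (n true (n false e e) e)) (n false (n false (n false (n false e e) (n false e e)) (n false (n false e e) (n false e e))) (n false e e))) e)) (c 3 4096 v (c 10 4101 v r))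
 .z .z) (.s 0x1f5d5114443aa2288842e5ffc00aa22888 4091 (n false (n false (n true (z 62) e) (n false (n false (n false (n false e e) (n false e e)) (n false (n false e e) (n false e e))) (n false e e))) (n true (n false (n false (n true (n false (n false (n false (n false e e) (n false e e)) (n false (n false e e) (n false e e))) (n false e e)) e) (n true (n false (n false (n false (n false e e) (n false e e)) (n false (n false e e) (n false e e))) (n false e e)) e)) (n false e e)) e)) (u 8 4 (k v (k v (k v (k (t 24 1 (u 16 41 (k v (k v (k (t 48 1 (u 32 0 (k v (k v r)))) r))))) r)))))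
 .z .z)) (.s 0x1f77d511444055114442e5ddc00aa22888 4092 (n false (n false (n true (z 42) e) (n false (n false (n false (n false e e) (n false e e)) (n false (n false e e) (n false e e))) (n false e e))) (n true (n false (n true (n false (n true (n true (n false (n false (n false (n false e e) (n false e e)) (n false (n false e e) (n false e e))) (n false e e)) e) e) e) e) (n false (n false (n false (n false e e) (n false e e)) (n false (n false e e) (n false e e))) (n false e e))) e)) (c 3 4096 v (c 10 4101 v r))
 (.s 0x1f5d5114443aa2288842e7f7c00aa22888 4091 (n false (n false (n true (z 55) e) (n false (n false (n false (n false e e) (n false e e)) (n false (n false e e) (n false e e))) (n false e e))) (n true (n false (n false (n true (n false (n false (n false (n false e e) (n false e e)) (n false (n false e e) (n false e e))) (n false e e)) e) (n true (n false (n false (n false (n false e e) (n false e e)) (n false (n false e e) (n false e e))) (n false e e)) e)) (n false e e)) e)) (c 2 4091 (c 3 4099 v r) v)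
 .z .z) .z)) (.s 0xebaa228885444551144474eea8025fdc00 4090 (n false (n true (n false (z 46) (z 5)) e) (n false (n false (n false (n false (n false e e) (n false e e)) (n false e e)) (n true (n false (n false (n false (n false e e) (n false e e)) (n false (n false e e) (n false e e))) (n false e e)) e)) (n false (n false (n false (n false e e) (n false e e)) (n false (n false e e) (n false e e))) (n false e e)))) (t 12 1 (u 8 10 (k v (k (c 24 4099 r (u 16 0 (k v (k v r)))) (k (c 20 4101 v (c 11 4101 v (c 2 4083 r v))) r)))))
 (.s 0xeae775c00aa22888e1c2aa22888aa22888 4086 (n false (n false (n false (n false (n true (z 37) e) (n false (n false (n false (n false e e) (n false e e)) (n false (n false e e) (n false e e))) (n false e e))) (n true (n false e e) e)) (n true (n false e e) e)) (n false (n false (n false (n false (n false e e) (n false e e)) (n false (n false e e) (n false e e))) (n false e e)) (n false (n false (n false (n false e e) (n false e e)) (n false (n false e e) (n false e e))) (n false e e)))) (u 32 51 (k v (k v (k v (k (c 24 4099 v (c 6 4094 v (u 64 9 (k v (k v (k (t 192 1 (u 128 0 (k (t 256 3 (t 384 1 v)) r)))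 r)))))) (k (c 24 4099 v (c 6 4094 v (c 2 4081 r v))) r))))))
 (.s 0xeae75fe00aa22888e1c2aa22888aa22888 4086 (n false (n false (n false (n false (n true (z 121) e) (n false (n false (n false (n false e e) (n false e e)) (n false (n false e e) (n false e e))) (n false e e))) (n true (n false e e) e)) (n true (n false e e) e)) (n false (n false (n false (n false (n false e e) (n false e e)) (n false (n false e e) (n false e e))) (n false e e)) (n false (n false (n false (n false e e) (n false e e)) (n false (n false e e) (n false e e))) (n false e e)))) (u 32 39 (k v (k v (k (c 96 4099 r (u 64 1 (k v (k v r)))) (k (c 64 4095 r (u 96 0 (k v (k v r)))) r)))))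
 .z .z) (.s 0xeaea88a221511447f2eee000baa2288870 4075 (n false (n false (n false (n true (n true (n true (z 42) e) e) e) (n false (n true (n false (n false (n false (n false e e) (n false e e)) (n false (n false e e) (n false e e))) (n false e e)) e) (n false (n false (n false e e) (n false e e)) (n false (n false e e) (n false e e))))) e) (n false (n true (n false (n false (n false (n false e e) (n false e e)) (n false (n false e e) (n false e e))) (n false e e)) e) (n true (n false e e) e))) (c 32 4099 (u 2 0 (k v (k v r))) v)
 .z .z)) (.s 0xfaea88a22151115445110a7754012fee00 4090 (n false (n false (z 46) (z 5)) (n true (n false (n false (n false (n false (n false e e) (n false e e)) (n false e e)) (n true (n false (n false (n false (n false e e) (n false e e)) (n false (n false e e) (n false e e))) (n false e e)) e)) (n false (n false (n false (n false e e) (n false e e)) (n false (n false e e) (n false e e))) (n false e e))) e)) (t 6 1 (u 4 10 (k v (k (c 12 4099 r (u 8 0 (k v (k v r)))) (k (c 10 4101 v (c 21 4101 v (c 3 4088 v r))) r)))))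
 (.s 0xfaea88a22151115445110a7754012bff00 4090 (n false (n false (z 124) (z 5)) (n true (n false (n false (n false (n false (n false e e) (n false e e)) (n false e e)) (n true (n false (n false (n false (n false e e) (n false e e)) (n false (n false e e) (n false e e))) (n false e e)) e)) (n false (n false (n false (n false e e) (n false e e)) (n false (n false e e) (n false e e))) (n false e e))) e)) (t 6 1 (u 4 24 (k v (k v (k v (k (c 12 4097 r (u 8 1 (k v (k v r)))) (k (c 12 4097 r (u 8 1 (k v (k v r)))) r)))))))
 .z .z) .z))))

end Pool.Agent.Helper91.ND1
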