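import Pool.Agent.Helper66.ND.Defs

/-! part of the certificate for the constant 25/48 (generated) -/

namespace Pool.Agent.Helper91.ND1

open Pool.Agent.Helper66.IL
open Pool.Agent.Helper66.ND
open Pool.Agent.Helper66.ND.LT
open Pool.Agent.Helper66.ND.Ct

set_option maxRecDepth 100000 in
def N255 : NT :=
(.s 0xea7754013aff00a88a22baa22888551144470 4089 (n false (n false (n false (n true (n false (n false (n false (n false e e) (n false e e)) (n false (n false e e) (n false e e))) (n false e e)) e) (n false (n false (n false (n false e e) (n false e e)) (n false (n false e e) (n false e e))) (n false e e))) (n true (n false e e) e)) (n false (n false (z 121) (z 5)) (n false (n false (n false e e) (n false e e)) (n false (n false e e) (n false e e))))) (t 13 1 (u 9 2 (k v (k v (k (c 25 4099 r (u 17 1 (k v (k v r)))) (k (c 17 4095 r (u 25 0 (k v (k v r)))) (k (c 17 4095 r (u 25 0 (k v (k v r)))) r)))))))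
 (.s 0x1f5544511154451112bbe0074eea80275fe00 4098 (n false (n true (n false (z 121) (z 5)) e) (n true (n false (z 52) (n false (n false (n false (n false (n false e e) (n false e e)) (n false (n false e e) (n false e e))) (n false e e)) (n false (n false (n false (n false e e) (n false e e)) (n false (n false e e) (n false e e))) (n false e e)))) e)) (t 12 1 (u 9 264 (k (u 8 8 (k v (k v (k v (k (c 24 4099 r (u 16 1 (k v (k v r)))) r))))) (k (t 8 2 v) (k (t 8 2 v) (k (u 8 29 (k v (k v (k v (k (c 24 4099 r (u 16 1 (k v (k v r)))) r))))) (k (t 8 2 v) r)))))))
 (.s 0x1d5754451108a2229f57002aa22888aa22888 4095 (n false (n false (n false (n false (n false (n true (n false (n false (n false (n false e e) (n false e e)) (n false (n false e e) (n false e e))) (n false e e)) e) (n false e e)) (n false (n false e e) (n false e e))) (n false e e)) (n false (z 35) e)) (n false (n false (n false (n false (n false e e) (n false e e)) (n false (n false e e) (n false e e))) (n false e e)) (n false (n false (n false (n false e e) (n false e e)) (n false (n false e e) (n false e e))) (n false e e)))) (u 10 10 (k v (k v (k v (k (t 26 1 (u 18 0 (k (t 34 3 (t 50 1 v)) r))) r)))))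
 (.s 0x3ebaa22888544455114442e577c00aa22888 4087 (n false (n false (n true (z 52) e) (n false (n false (n false (n false e e) (n false e e)) (n false (n false e e) (n false e e))) (n false e e))) (n true (n false (n false (n false (n false (n false e e) (n false e e)) (n false e e)) (n true (n false (n false (n false (n false e e) (n false e e)) (n false (n false e e) (n false e e))) (n false e e)) e)) (n false (n false (n false (n false e e) (n false e e)) (n false (n false e e) (n false e e))) (n false e e))) e)) (u 8 368 (k v (k v (k v (k v (k v (k v r)))))))
 (.s 0x755d51144422888e7f7600a7f7c013baa00 4091 (n false (n false (n true (z 87) e) (n false (n false (n false (n true (n false (n false (n false (n false e e) (n false e e)) (n false (n false e e) (n false e e))) (n false e e)) e) (n false e e)) (n false (n false e e) (n false e e))) (n false e e))) (n false (z 55) (z 5))) (t 7 1 (u 5 11 (k (c 10 4098 v (c 11 4101 v (u 8 1 (k v (k v r))))) (k (t 13 1 (u 9 16 (k (c 8 4099 r v) (k (u 8 1 (k v (k v r))) (k (u 17 6 (k (u 8 1 (k v (k v r))) (k (c 17 4094 v (c 8 4099 r v)) r))) r))))) r))))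
 .z .z) (.s 0x1d5511444551144452afa008a7f7c013baa00 4094 (n false (n false (n false (z 24) (n false e e)) (n false (n false (n false (n false (n false e e) (n false e e)) (n false (n false e e) (n false e e))) (n false e e)) (n false (n false (n false (n false e e) (n false e e)) (n false (n false e e) (n false e e))) (n false e e)))) (n false (z 55) (z 5))) (t 7 1 (u 5 11 (k (c 8 4098 r v) (k (t 13 1 (u 9 16 (k (c 7 4099 v r) (k (u 8 0 (k (t 16 3 (t 24 1 v)) r)) (k (u 17 2 (k (c 17 4094 v (c 7 4099 v r)) (k (u 8 0 (k (t 16 3 (t 24 1 v)) r)) r))) r))))) r))))
 .z .z)) (.s 0x1d75445110a88a2395df002aa22888aa22888 4091 (n false (n false (n true (z 52) e) (n false (n true (n false (n false (n false (n false e e) (n false e e)) (n false (n false e e) (n false e e))) (n false e e)) e) (n false (n false (n false e e) (n false e e)) (n false (n false e e) (n false e e))))) (n false (n false (n false (n false (n false e e) (n false e e)) (n false (n false e e) (n false e e))) (n false e e)) (n false (n false (n false (n false e e) (n false e e)) (n false (n false e e) (n false e e))) (n false e e)))) (u 8 294 (k v (k v (k v (k v (k v (k v (k (t 24 1 (u 16 0 (k v (k v r))))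 r))))))))
 (.s 0x1d5754451108a2239f57002aa22888aa22888 4097 (n false (n false (n false (n false (n false (n true (n false (n false (n false (n false e e) (n false e e)) (n false (n false e e) (n false e e))) (n false e e)) e) (n false e e)) (n false (n false e e) (n false e e))) (n false e e)) (n true (z 35) e)) (n false (n false (n false (n false (n false e e) (n false e e)) (n false (n false e e) (n false e e))) (n false e e)) (n false (n false (n false (n false e e) (n false e e)) (n false (n false e e) (n false e e))) (n false e e)))) (u 10 10 (k v (k v (k v (k (t 26 1 (u 18 0 (k (t 34 3 (t 50 1 v)) r))) r)))))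
 .z .z) .z)) (.s 0x1fd551144455114444aef800a7754013aff00 4098 (n false (n true (n true (n false (z 52) (n false (n false (n false (n false (n false e e) (n false e e)) (n false (n false e e) (n false e e))) (n false e e)) (n false (n false (n false (n false e e) (n false e e)) (n false (n false e e) (n false e e))) (n false e e)))) e) e) (n false (z 121) (z 5))) (t 7 1 (u 16 264 (k (u 5 8 (k v (k v (k v (k (c 13 4099 r (u 9 1 (k v (k v r)))) r))))) (k (t 5 2 v) (k (c 5 4101 r v) (k (u 5 29 (k v (k v (k v (k (c 13 4099 r (u 9 1 (k v (k v r)))) r))))) (k (t 5 2 v) r)))))))
 (.s 0x1f5544511154451115445110a7754012fee00 4096 (n false (n false (z 46) (z 5)) (n true (n false (n false (n false (n false (n false (n false e e) (n false e e)) (n false (n false e e) (n false e e))) (n false e e)) (n false (n false (n false (n false e e) (n false e e)) (n false (n false e e) (n false e e))) (n false e e))) (n false (n false (n false (n false e e) (n false e e)) (n false (n false e e) (n false e e))) (n false e e))) e)) (t 6 1 (u 4 1 (k v (k r (k (c 12 4099 r (u 8 0 (k v (k v r)))) (k (u 8 1 (k v (k v r))) (k (c 12 4097 r r) (k (c 8 4095 r r) r))))))))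
 (.s 0x1f5544511154451112bbe0074eeb802775400 4098 (n false (n true (n false (z 52) (n false (n false (n false (n false (n false e e) (n false e e)) (n false (n false e e) (n false e e))) (n false e e)) (n false (n false (n false (n false e e) (n false e e)) (n false (n false e e) (n false e e))) (n false e e)))) e) (n true (n false (z 37) (z 5)) e)) (t 13 1 (u 8 264 (k (u 9 1 (k v (k v r))) (k (t 9 1 v) (k (t 9 1 v) (k (u 9 1 (k v (k v r))) (k (t 9 1 v) r)))))))
 .z .z) (.s 0x1f5544511154451115445110a7754013aff00 4096 (n false (n false (z 121) (z 5)) (n true (n false (n false (n false (n false (n false (n false e e) (n false e e)) (n false (n false e e) (n false e e))) (n false e e)) (n false (n false (n false (n false e e) (n false e e)) (n false (n false e e) (n false e e))) (n false e e))) (n false (n false (n false (n false e e) (n false e e)) (n false (n false e e) (n false e e))) (n false e e))) e)) (t 6 1 (u 4 1 (k v (k (c 12 4099 r (u 8 1 (k v (k v r)))) (k (c 8 4097 r r) (k (c 8 4095 r (u 12 0 (k v (k v r)))) (k (c 8 4095 r (u 12 0 (k v (k v r)))) r)))))))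
 .z .z)) (.s 0xea7754012fee00a88a22baa22888551144470 4089 (n false (n false (n false (z 46) (z 5)) (n false (n false (n false e e) (n false e e)) (n false (n false e e) (n false e e)))) (n false (n false (n true (n false (n false (n false (n false e e) (n false e e)) (n false (n false e e) (n false e e))) (n false e e)) e) (n false (n false (n false (n false e e) (n false e e)) (n false (n false e e) (n false e e))) (n false e e))) (n true (n false e e) e))) (t 12 1 (u 8 10 (k v (k (c 24 4099 r (u 16 0 (k v (k v r)))) (k (u 16 0 (k v (k v r))) r)))))
 (.s 0x1fd551144455114444aef800a775c013baa00 4098 (n false (n true (n true (n false (z 52) (n false (n false (n false (n false (n false e e) (n false e e)) (n false (n false e e) (n false e e))) (n false e e)) (n false (n false (n false (n false e e) (n false e e)) (n false (n false e e) (n false e e))) (n false e e)))) e) e) (n false (z 37) (z 5))) (t 7 1 (u 16 264 (k (u 5 1 (k v (k v r))) (k (t 5 1 v) (k (c 5 4101 r v) (k (u 5 1 (k v (k v r))) (k (t 5 1 v) r)))))))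
 .z .z) .z))) (.s 0xebaa228884bfa802a88a222baa2288870aa22888 4089 (n false (n false (n false (z 14) (n true (n false (n false (n false (n false e e) (n false e e)) (n false (n false e e) (n false e e))) (n false e e)) e)) (n false (n false (n false (n false e e) (n false e e)) (n false (n false e e) (n false e e))) (n false e e))) (n false (n false (n true (n false (n false (n false (n false e e) (n false e e)) (n false (n false e e) (n false e e))) (n false e e)) e) (n true (n false e e) e)) (n false (n false (n false (n false e e) (n false e e)) (n false (n false e e) (n false e e))) (n false e e)))) (c 6 4099 v (u 8 0 (k v (k v r))))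
 (.s 0xfeaa88a222a88a222577c0052bfa8013baa00 4098 (n false (n true (n true (n false (z 52) (n false (n false (n false (n false (n false e e) (n false e e)) (n false (n false e e) (n false e e))) (n false e e)) (n false (n false (n false (n false e e) (n false e e)) (n false (n false e e) (n false e e))) (n false e e)))) e) e) (n false (z 156) (z 5))) (t 7 1 (u 5 3 (k (c 7 4099 v r) (k (c 16 4097 r v) (k (c 9 4099 r (u 16 436 (k (u 13 1 (k v (k v r))) (k (u 13 1 (k v (k v r))) (k (c 13 4099 r v) (k (c 5 4098 (u 3 0 (k v (k v r))) v) (k (c 13 4099 r v) r))))))) r)))))
 (.s 0xfaaa22888aa2288895df003a57f5002775400 4098 (n false (n true (n false (z 52) (n false (n false (n false (n false (n false e e) (n false e e)) (n false (n false e e) (n false e e))) (n false e e)) (n false (n false (n false (n false e e) (n false e e)) (n false (n false e e) (n false e e))) (n false e e)))) e) (n true (n false (z 156) (z 5)) e)) (t 13 1 (u 9 3 (k (c 13 4099 v r) (k (c 8 4097 r v) (k (c 25 4099 r (u 8 264 (k (u 17 1 (k v (k v r))) (k (c 17 4099 r v) (k (c 17 4099 r v) (k (u 17 1 (k v (k v r))) (k (c 17 4099 r v) r))))))) r)))))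
 (.s 0xeea7fd6012bea00aa2288875445110aa22888 4093 (n false (n false (n true (n false (n false (z 79) (z 12)) (n false (n false (n false (n false e e) (n false e e)) (n false (n false e e) (n false e e))) (n false e e))) e) (n true (n false (n false (n false (n false e e) (n false e e)) (n false (n false e e) (n false e e))) (n false e e)) e)) (n false (n false (n false (n false e e) (n false e e)) (n false (n false e e) (n false e e))) (n false e e))) (t 48 2 (c 24 4099 v (c 10 4099 v (c 3 4099 v (u 32 3 (k v (k (u 64 15 (k v (k v (k (u 128 0 (k v (k v r))) (k (c 128 4099 r (u 192 1 (k v (k v r)))) (k (c 128 4099 r (u 192 1 (k v (k v r)))) (k (c 128 4099 r (u 192 1 (k v (k v r)))) r))))))) (k (c 64 4100 r (u 96 0 (k (u 160 0 (k v (k v r))) r))) r))))))))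
 .z .z) (.s 0xfaaa22888aa22888aa2288852bfa8013baa00 4096 (n false (n false (z 156) (z 5)) (n true (n false (n false (n false (n false (n false (n false e e) (n false e e)) (n false (n false e e) (n false e e))) (n false e e)) (n false (n false (n false (n false e e) (n false e e)) (n false (n false e e) (n false e e))) (n false e e))) (n false (n false (n false (n false e e) (n false e e)) (n false (n false e e) (n false e e))) (n false e e))) e)) (t 6 1 (u 4 1 (k v (k (c 12 4099 r (u 8 1 (k v (k v r)))) (k (c 8 4098 r (u 12 1 (k v (k v r)))) (k (c 8 4097 r r) (k (c 8 4099 r (u 12 1 (k v (k v r)))) (k (c 8 4095 r (u 12 0 (k v (k v r)))) r))))))))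
 .z .z)) (.s 0x3a9ff5804afa802a88a222baa2288870aa22888 4091 (n false (n false (n false (z 79) (z 12)) (n false (n false (n false (n false e e) (n false e e)) (n false (n false e e) (n false e e))) (n false e e))) (n false (n false (n true (n false (n false (n false (n false e e) (n false e e)) (n false (n false e e) (n false e e))) (n false e e)) e) (n true (n false e e) e)) (n false (n false (n false (n false e e) (n false e e)) (n false (n false e e) (n false e e))) (n false e e)))) (t 12 2 (c 6 4099 v (c 17 4099 v (c 7 4099 v (u 8 5 (k v (k r (k (c 16 4100 r (u 24 0 (k (u 40 0 (k v (k v r))) r))) r))))))))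
 (.s 0x7d5511444551144455114442e5ddc00aa22888 4095 (n false (n false (n true (z 42) e) (n false (n false (n false (n false e e) (n false e e)) (n false (n false e e) (n false e e))) (n false e e))) (n true (n false (n false (n false (n false (n false (n false e e) (n false e e)) (n false (n false e e) (n false e e))) (n false e e)) (n false (n false (n false (n false e e) (n false e e)) (n false (n false e e) (n false e e))) (n false e e))) (n false (n false (n false (n false e e) (n false e e)) (n false (n false e e) (n false e e))) (n false e e))) e)) (c 3 4102 v (c 10 4101 v r))
 .z .z) .z)) (.s 0xeebaa22888754451108551144474eeb8025fd400 4093 (n false (n true (n false (z 37) (z 14)) e) (n false (n true (n false (n false (n true (n false (n false (n false (n false e e) (n false e e)) (n false (n false e e) (n false e e))) (n false e e)) e) (n true (n false (n false (n false (n false e e) (n false e e)) (n false (n false e e) (n false e e))) (n false e e)) e)) (n false e e)) e) (n false (n false (n false (n false e e) (n false e e)) (n false (n false e e) (n false e e))) (n false e e)))) (c 65 4099 v (c 81 4099 v (u 12 0 (k (c 9 4091 v (c 11 4101 v r)) (k (u 8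 2 (k v (k v r))) r)))))
 (.s 0xeebaa22888754451108551144474eea80275d600 4095 (n false (n true (n false (z 73) (z 5)) e) (n false (n true (n false (n false (n true (n false (n false (n false (n false e e) (n false e e)) (n false (n false e e) (n false e e))) (n false e e)) e) (n true (n false (n false (n false (n false e e) (n false e e)) (n false (n false e e) (n false e e))) (n false e e)) e)) (n false e e)) e) (n false (n false (n false (n false e e) (n false e e)) (n false (n false e e) (n false e e))) (n false e e)))) (t 12 2 (c 65 4099 v (c 81 4099 v (c 2 4080 (u 4 0 (k r r)) v))))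
 (.s 0xeebaa22888754451108551144474eea8025fdc00 4093 (n false (n true (n false (z 46) (z 5)) e) (n false (n true (n false (n false (n true (n false (n false (n false (n false e e) (n false e e)) (n false (n false e e) (n false e e))) (n false e e)) e) (n true (n false (n false (n false (n false e e) (n false e e)) (n false (n false e e) (n false e e))) (n false e e)) e)) (n false e e)) e) (n false (n false (n false (n false e e) (n false e e)) (n false (n false e e) (n false e e))) (n false e e)))) (t 12 1 (c 65 4099 v (c 81 4099 v (u 8 1 (k v (k (u 16 1 (k v (k v r))) (k (c 24 4099 r (u 16 0 (k v (k v r)))) (k (c 2 4088 (c 10 4101 v r) v) (k (c 24 4097 r (u 16 1 (k v (k v r)))) (k (c 16 4095 r (u 24 1 (k v (k v r)))) r))))))))))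
 .z .z) (.s 0xeebaa22888754451108551144474eea80275fe00 4093 (n false (n true (n false (z 121) (z 5)) e) (n false (n true (n false (n false (n true (n false (n false (n false (n false e e) (n false e e)) (n false (n false e e) (n false e e))) (n false e e)) e) (n true (n false (n false (n false (n false e e) (n false e e)) (n false (n false e e) (n false e e))) (n false e e)) e)) (n false e e)) e) (n false (n false (n false (n false e e) (n false e e)) (n false (n false e e) (n false e e))) (n false e e)))) (t 12 1 (u 8 1 (k v (k (c 24 4099 r (u 16 1 (k v (k v r)))) (k (c 16 4097 r r) (k (c 16 4095 r (u 24 0 (k v (k v r)))) (k (c 16 4095 r (u 24 0 (k v (k v r)))) r)))))))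
 .z .z)) (.s 0x3baea88a221d511444215445111dcbbb8015445110 4092 (n false (n true (n false (n true (z 42) e) (n false (n false (n false (n false e e) (n false e e)) (n false (n false e e) (n false e e))) (n false e e))) e) (n false (n true (n false (n false (n true (n false (n false (n false (n false e e) (n false e e)) (n false (n false e e) (n false e e))) (n false e e)) e) (n true (n false (n false (n false (n false e e) (n false e e)) (n false (n false e e) (n false e e))) (n false e e)) e)) (n false e e)) e) (n false (n false (n false (n false e e) (n false e e)) (n false (n false e e) (n false e e))) (n false e e)))) (c 65 4099 v (c 81 4099 v (u 16 1 (k v (k v r)))))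
 (.s 0x775d5114443aa2288842a88a223a57f5002775400 4093 (n false (n true (n false (z 156) (z 5)) e) (n false (n true (n false (n false (n true (n false (n false (n false (n false e e) (n false e e)) (n false (n false e e) (n false e e))) (n false e e)) e) (n true (n false (n false (n false (n false e e) (n false e e)) (n false (n false e e) (n false e e))) (n false e e)) e)) (n false e e)) e) (n false (n false (n false (n false e e) (n false e e)) (n false (n false e e) (n false e e))) (n false e e)))) (t 12 1 (u 8 7 (k v (k v (k (c 24 4099 r (u 16 1 (k v (k v r)))) (k (c 16 4098 r (u 24 1 (k v (k v r)))) (k (c 16 4097 r r) (k (c 16 4099 r (u 24 1 (k v (k v r)))) (k (c 16 4095 r (u 24 0 (k v (k v r)))) r)))))))))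
 .z .z) .z))))

end Pool.Agent.Helper91.ND1
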