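import Pool.Agent.Helper66.ND.Defs

/-! part of the certificate for the constant 25/48 (generated) -/

namespace Pool.Agent.Helper91.ND1

open Pool.Agent.Helper66.IL
open Pool.Agent.Helper66.ND
open Pool.Agent.Helper66.ND.LT
open Pool.Agent.Helper66.ND.Ct

set_option maxRecDepth 100000 in
def N41 : NT :=
(.s 0x3a9557002e10 4083 (n false (n false (n false (z 32) e) (n false (n true (n false e e) e) (n false e e))) e) (c 10 4094 v (u 8 0 (k (t 16 3 (t 24 1 v)) r)))
 (.s 0x3a7df601dc20 4079 (n false (n false (z 91) (n true (n false (n true (n false e e) e) (n false e e)) e)) e) (u 4 2 (k v (k v (k (u 8 1 (k v (k v r))) (k (c 8 4097 r (u 12 0 (k v (k v r)))) (k (c 8 4097 r (u 12 0 (k v (k v r)))) (k (c 8 4096 r (u 12 0 (k v (k v r)))) (k (c 8 4095 r (u 12 0 (k v (k v r)))) r))))))))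
 (.s 0x3a7d56011f40 4075 (n false (n false (z 67) (n false e e)) (n true (n true (n false (n false e e) e) e) e)) (u 4 115 (k v (k (c 12 4099 r r) (k (c 8 4096 r (u 12 0 (k (u 20 0 (k v (k v r))) r))) (k (c 8 4096 r (u 12 0 (k (u 20 0 (k v (k v r))) r))) (k (c 12 4097 r r) (k (c 12 4099 r r) (k r (k (c 12 4097 r r) (k (c 12 4099 r (u 8 1 (k v (k (c 24 4097 r (u 16 0 (k v (k v r)))) r)))) (k (c 8 4100 r r) (k (c 12 4099 r (u 8 0 (k (u 16 0 (k v (k v r))) r))) (k (c 8 4099 r r) (k (c 12 4099 r r) (k (c 8 4099 r (u 12 0 (k (u 20 0 (k v (k v r))) r))) (k (c 12 4100 r r) (k (c 12 4100 r r) (k (c 12 4099 r r) (k (c 12 4099 r r) (k (c 12 4100 r r) (k (c 12 4099 r r) r)))))))))))))))))))))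
 (.s 0x3a7d56011510 4079 (n false (n false (z 67) (n false e e)) (n false (n false (n false e e) (n false e e)) e)) (u 4 43 (k v (k v (k (c 12 4099 r (u 8 1 (k v (k v r)))) (k (c 12 4097 r (u 8 1 (k v (k v r)))) (k (c 12 4099 r r) (k r (k (c 12 4097 r r) (k (c 12 4099 r r) (k (c 8 4100 r (u 12 1 (k v (k v r)))) (k (c 12 4099 r (u 8 0 (k (u 16 0 (k v (k v r))) r))) (k (c 8 4099 r (u 12 1 (k v (k v r)))) (k (c 12 4099 r r) (k (c 8 4099 r (u 12 0 (k (u 20 0 (k v (k v r))) r))) (k (c 12 4100 r r) (k (c 12 4100 r r) (k (c 12 4099 r r) (k (c 12 4099 r r) (k (c 12 4100 r r) (k (c 12 4099 r r) r))))))))))))))))))))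
 (.s 0x3a777c00ba20 4089 (n false (n false (z 53) e) (n false (n true (n false (n false e e) (n false e e)) e) e)) (u 4 0 (k (t 12 1 (u 8 9 (k v (k v (k (c 2 4090 r v) r))))) (k (t 12 1 (u 8 36 (k v (k v (k v r))))) r)))
 .z .z) (.s 0x3a7d56011d10 4079 (n false (n false (z 67) (n false e e)) (n true (n false (n false e e) (n false e e)) e)) (u 4 43 (k v (k v (k (c 12 4099 r (u 8 1 (k v (k v r)))) (k (c 12 4097 r (u 8 1 (k v (k v r)))) (k (c 12 4099 r r) (k r (k (c 12 4097 r r) (k (c 12 4099 r (u 8 2 (k v (k (c 24 4097 r (u 16 0 (k v (k v r)))) r)))) (k (c 8 4100 r (u 12 1 (k v (k v r)))) (k (c 12 4099 r (u 8 0 (k (u 16 0 (k v (k v r))) r))) (k (c 8 4099 r (u 12 1 (k v (k v r)))) (k (c 12 4099 r r) (k (c 8 4099 r (u 12 0 (k (u 20 0 (k v (k v r))) r))) (k (c 12 4100 r r) (k (c 12 4100 r r) (k (c 12 4099 r r) (k (c 12 4099 r r) (k (c 12 4100 r r) (k (c 12 4099 r r) r))))))))))))))))))))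
 .z .z)) (.s 0x3a7df6011708 4079 (n false (n false (z 91) (n false e e)) (n false (n true (n false e e) e) (n false e e))) (u 4 2 (k v (k v (k (u 8 1 (k v (k v r))) (k (c 8 4097 r (u 12 0 (k v (k v r)))) (k (c 8 4097 r (u 12 0 (k v (k v r)))) (k (c 8 4096 r (u 12 0 (k v (k v r)))) (k (c 8 4095 r (u 12 0 (k v (k v r)))) r))))))))
 (.s 0x3a7dde011f40 4079 (n false (n false (z 107) (n false e e)) (n true (n true (n false (n false e e) e) e) e)) (u 4 5 (k v (k (c 12 4099 r (u 8 1 (k v (k (c 24 4099 r (u 16 1 (k v (k v r)))) (k (u 16 0 (k v (k v r))) (k (c 16 4099 r (u 24 1 (k v (k v r)))) (k (c 16 4099 r (u 24 1 (k v (k v r)))) (k (c 16 4099 r (u 24 1 (k v (k v r)))) r)))))))) (k (c 12 4100 r (u 8 0 (k (u 16 0 (k v (k v r))) r))) r))))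
 .z .z) (.s 0x3a7df6015c20 4079 (n false (n false (z 91) (n false (n false (n true (n false e e) e) (n false e e)) e)) e) (u 4 2 (k v (k v (k (u 8 1 (k v (k v r))) (k (c 8 4097 r (u 12 0 (k v (k v r)))) (k (c 8 4097 r (u 12 0 (k v (k v r)))) (k (c 8 4096 r (u 12 0 (k v (k v r)))) (k (c 8 4095 r (u 12 0 (k v (k v r)))) r))))))))
 .z .z))) (.s 0x3a7f56011d10 4081 (n false (n false (z 71) (n false e e)) (n true (n false (n false e e) (n false e e)) e)) (u 4 6 (k (t 12 1 (u 8 44 (k v (k v (k v (k r (k r (k r r)))))))) (k r (k r (k (c 12 4100 r r) (k (c 12 4100 r r) (k (c 12 4100 r r) r)))))))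
 (.s 0x3a7dfe01dc20 4083 (n false (n false (z 123) (n true (n false (n true (n false e e) e) (n false e e)) e)) e) (u 4 4 (k v (k (c 12 4099 r (u 8 2 (k v (k v (k v (k (t 24 2 r) r)))))) (k (c 10 4092 v r) (k (c 10 4092 v r) (k (c 8 4096 r (u 12 1 (k v (k v r)))) (k (c 12 4097 r (c 10 4092 v r)) r)))))))
 (.s 0x3a7dfe011708 4082 (n false (n false (z 123) (n false e e)) (n false (n true (n false e e) e) (n false e e))) (u 4 4 (k v (k (c 12 4099 r r) (k (c 3 4092 v r) (k (c 3 4092 v r) (k (c 8 4096 r (u 12 1 (k v (k v r)))) (k (c 12 4097 r (c 3 4092 v r)) r)))))))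
 .z .z) (.s 0x3a7f56011708 4083 (n false (n false (z 71) (n false e e)) (n false (n true (n false e e) e) (n false e e))) (u 4 1 (k v (k (c 12 4099 r (u 8 1 (k v (k v r)))) (k (c 3 4092 v r) (k (c 8 4099 r (u 12 1 (k v (k v r)))) (k (c 8 4099 r (u 12 1 (k v (k v r)))) (k (c 8 4099 r (u 12 1 (k v (k v r)))) r)))))))
 .z .z)) (.s 0x3a7f7e00ae10 4089 (n false (n false (z 119) e) (n false (n false (n true (n false e e) e) (n false e e)) e)) (u 4 3 (k v (k v (k v (k (t 12 1 r) (k (c 8 4097 r r) (k (c 8 4097 r (u 12 2 (k v (k (c 28 4097 r (u 20 0 (k v (k v r)))) r)))) (k (c 12 4097 r r) (k (c 12 4097 r r) (k (c 12 4097 r r) (k (c 12 4097 r r) r)))))))))))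
 (.s 0x3a7f5601dc20 4083 (n false (n false (z 71) (n true (n false (n true (n false e e) e) (n false e e)) e)) e) (u 4 1 (k v (k (c 12 4099 r (u 8 1 (k v (k v r)))) (k (c 10 4092 v r) (k (c 8 4099 r (u 12 1 (k v (k v r)))) (k (c 8 4099 r (u 12 1 (k v (k v r)))) (k (c 8 4099 r (u 12 1 (k v (k v r)))) r)))))))
 .z .z) .z))) (.s 0x3a9f57002a08 4075 (n false (n false (n false (z 35) e) (n false (n false (n false e e) e) e)) (n false e e)) (u 8 5 (k v (k v (k v (k (t 24 1 (u 16 0 (k (t 32 3 (t 48 1 v)) r))) r)))))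
 (.s 0x3a9777004288 4079 (n false (n false (n false (z 42) (n false e e)) e) (n false (n false e e) (n false e e))) (u 8 30 (k v (k v (k v (k (u 16 2 (k v (k v r))) (k (u 16 25 (k v (k v (k v (k (c 32 4097 r (u 48 1 (k v (k v r)))) r))))) (k (u 16 8 (k v (k v (k (c 48 4099 r (u 32 1 (k v (k v r)))) (k (c 32 4098 r (u 48 1 (k v (k v r)))) (k (c 32 4097 r (u 48 1 (k v (k v r)))) (k (c 32 4099 r (u 48 1 (k v (k v r)))) r))))))) r)))))))
 (.s 0x3a955f802288 4089 (n false (n false (n false (z 112) e) (n false e e)) (n false (n false e e) (n false e e))) (u 8 1 (k (t 24 2 (u 16 13 (k v (k (t 48 3 (u 32 39 (k v (k v (k v (k (c 4 4089 (c 12 4110 v r) v) (k (c 4 4089 (c 12 4110 v r) v) (k (c 4 4089 (c 12 4110 v r) v) r)))))))) (k (c 8 4074 (c 3 4094 v (u 4 0 (k r r))) v) r))))) (k (c 4 4090 r v) r)))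
 (.s 0x3a955f004288 4079 (n false (n false (n false (z 48) (n false e e)) e) (n false (n false e e) (n false e e))) (u 8 43 (k v (k r (k (c 24 4099 r (t 16 3 v)) (k (u 16 4 (k v (k (t 48 1 (u 32 2 (k v (k v r)))) r))) (k r (k r r)))))))
 .z .z) (.s 0x3a95df0043a0 4084 (n false (n false (n false (z 52) (n false e e)) e) (n true (n false (n false e e) e) e)) (u 8 25 (k v (k v (k v (k (t 24 1 (u 16 3 (k v (k v r)))) r)))))
 .z .z)) (.s 0x3a9f55802288 4088 (n false (n false (n false (z 67) e) (n false e e)) (n false (n false e e) (n false e e))) (u 8 12 (k v (k v (k (t 24 2 r) (k (t 24 1 r) (k (t 24 2 r) (k (c 4 4088 r v) (k (t 24 1 r) (k (t 24 2 (u 16 1 (k v (k (c 48 4097 r (u 32 0 (k v (k v r)))) r)))) (k (t 16 2 r) (k (c 4 4091 (t 6 2 (u 4 0 (k r r))) v) (k (t 16 1 r) (k (t 24 2 r) (k (c 4 4091 (t 4 1 (u 6 0 (k r r))) v) (k (t 16 2 (c 4 4085 r v)) (k (t 24 2 r) (k (t 24 1 r) (k (t 24 2 r) (k (t 24 2 r) (k (t 24 1 r) r))))))))))))))))))))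
 (.s 0x3a97770043a0 4079 (n false (n false (n false (z 42) (n false e e)) e) (n true (n false (n false e e) e) e)) (u 8 52 (k v (k v (k r (k r (k r (k r r)))))))
 .z .z) .z)) (.s 0x3a9fdf003a08 4073 (n false (n false (n false (z 55) e) (n true (n false (n false e e) e) e)) (n false e e)) (u 8 4 (k (t 24 1 (u 16 4 (k v (k v (k (u 32 4 (k v (k (t 96 1 (u 64 4 (k v (k v r)))) r))) (k (u 32 4 (k v (k (t 96 1 (u 64 4 (k v (k v r)))) r))) (k (c 2 4074 (u 16 0 (k r (k r r))) v) (k (u 32 2 (k v (k (t 96 1 (u 64 21 (k v (k v (k v (k (c 128 4097 r r) r)))))) (k (t 96 1 (u 64 17 (k v (k v (k (c 128 4096 r r) r))))) r)))) r)))))))) (k (t 24 2 (u 16 8 (k v (k v r)))) r)))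
 (.s 0x3a9fd58022a0 4079 (n false (n false (n false (z 71) e) (n false e e)) (n false (n false (n false e e) e) e)) (u 8 1 (k v (k (c 24 4099 r (u 16 1 (k v (k v r)))) (k (u 16 0 (k v (k v r))) (k (c 16 4099 r (u 24 1 (k v (k v r)))) (k (c 16 4099 r (u 24 1 (k v (k v r)))) (k (c 16 4099 r (u 24 1 (k v (k v r)))) r)))))))
 (.s 0x3a9f57003a08 4073 (n false (n false (n true (n false (n false e e) e) e) (n false (z 35) e)) (n false e e)) (u 10 5 (k v (k v (k v (k (t 26 1 (u 18 0 (k (t 34 3 (t 50 1 v)) r))) r)))))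
 .z .z) (.s 0x3a9fd58023a0 4075 (n false (n false (n false (z 71) e) (n false e e)) (n true (n false (n false e e) e) e)) (u 8 1 (k v (k (c 24 4099 r (u 16 1 (k v (k v r)))) (k (u 16 0 (k v (k v r))) (k (c 16 4099 r (u 24 1 (k v (k v r)))) (k (c 16 4099 r (u 24 1 (k v (k v r)))) (k (c 16 4099 r (u 24 1 (k v (k v r)))) r)))))))
 .z .z)) (.s 0x3a9fdf803a08 4074 (n false (n false (n false (z 119) e) (n true (n false (n false e e) e) e)) (n false e e)) (u 8 26 (k v (k (t 24 1 (u 16 134 (k v (k (t 48 1 (u 32 0 (k v (k v r)))) (k (t 48 3 (u 32 0 (k (u 64 6 (k v (k v r))) r))) r))))) (k (c 10 4094 v r) (k (c 10 4094 v r) r)))))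
 (.s 0x3a9fdf802288 4082 (n false (n false (n false (z 119) e) (n false e e)) (n false (n false e e) (n false e e))) (u 8 1 (k r (k (t 24 2 r) (k (t 24 1 r) (k r (k r (k (u 24 1 (k r (k (c 56 4097 r (u 40 0 (k r (k r r)))) r))) (k (c 4 4088 (t 6 2 (u 4 0 (k r r))) v) (k r (k r (k r (k r (k r (k r r))))))))))))))
 .z .z) .z))))

set_option maxRecDepth 100000 in
def N42 : NT :=
(.s 0x3afe7f7c0010 4079 (n false (n false (n false (n true (n true (n true (z 55) e) e) e) e) (n false e e)) e) (u 64 4 (k (t 192 1 (u 128 14 (k v (k (c 384 4099 r (t 256 3 v)) (k (u 256 4 (k v (k (t 768 1 (u 512 4 (k v (k v r)))) r))) (k (u 256 4 (k v (k (t 768 1 (u 512 4 (k v (k v r)))) r))) (k (c 16 4080 (u 16 0 (k r (k r r))) v) (k (c 16 4082 r v) r)))))))) (k (t 192 2 (u 128 2 (k v (k (c 16 4081 (u 16 1 (k v (k v r))) v) r)))) r)))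
 (.s 0x3aa9f7f80420 4082 (n false (n false (n false (n false (n false (z 123) (n false e e)) e) (n false e e)) e) e) (u 32 4 (k v (k (c 96 4099 r (u 64 2 (k v (k v (k v (k (t 192 2 r) r)))))) (k (c 8 4085 r v) (k (c 8 4085 r v) (k (c 64 4096 r (u 96 1 (k v (k v r)))) (k (c 96 4097 r (c 8 4085 r v)) r)))))))
 (.s 0x3aa75fe01088 4082 (n false (n false (n false (n false (z 121) (n false e e)) e) (n false e e)) (n false e e)) (u 16 1 (k v (k (c 48 4099 r (u 32 1 (k v (k v r)))) (k (c 32 4097 r (u 48 1 (k v (k v r)))) (k (c 32 4095 r (u 48 0 (k v (k v r)))) (k (c 32 4095 r (u 48 0 (k v (k v r)))) r))))))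
 (.s 0x3aa57fe01088 4080 (n false (n false (n false (n false (z 124) (n false e e)) e) (n false e e)) (n false e e)) (u 16 1 (k v (k (c 48 4097 r (u 32 1 (k v (k v r)))) (k (c 48 4096 r (u 32 1 (k v (k v r)))) (k (c 32 4098 r (u 48 0 (k v (k v r)))) (k (c 48 4096 r (u 32 1 (k v (k v r)))) (k (c 48 4097 r (u 32 1 (k v (k v r)))) (k (c 48 4097 r (u 32 1 (k v (k v r)))) (k (c 48 4096 r (u 32 1 (k v (k v r)))) (k (c 48 4099 r (u 32 1 (k v (k v r)))) (k (c 32 4097 r (u 48 1 (k v (k v r)))) r)))))))))))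
 (.s 0x3aa57f500380 4071 (n false (n false (n false (n false (z 156) (n true (n false e e) e)) e) e) e) (u 16 1 (k v (k (c 48 4099 r (u 32 1 (k v (k v r)))) (k (c 32 4098 r (u 48 1 (k v (k v r)))) (k (c 32 4097 r (u 48 1 (k v (k v r)))) (k (c 32 4099 r (u 48 1 (k v (k v r)))) (k (c 32 4095 r (u 48 0 (k v (k v r)))) r)))))))
 .z .z) (.s 0x3aa5df4010e0 4082 (n false (n false (n false (n false (z 26) (n false e e)) e) (n true (n false e e) e)) e) (u 16 9 (k v (k v (k (c 4 4082 (u 8 1 (k v (k v r))) v) r))))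
 .z .z)) (.s 0x3aa777c00870 4078 (n false (n false (n false (n false (z 53) e) (n false e e)) e) (n true (n false e e) e)) (c 3 4094 v (u 16 0 (k r (k r r))))
 (.s 0x3aa777601088 4080 (n false (n false (n false (n false (z 85) (n false e e)) e) (n false e e)) (n false e e)) (u 16 4 (k v (k (c 48 4099 r r) (k (c 48 4099 r r) (k (c 48 4099 r (u 32 1 (k v (k v (k v (k (t 96 1 r) r)))))) (k (u 32 2 (k v (k v (k v (k (t 96 2 (u 64 6 (k v (k v (k (t 192 1 (u 128 0 (k v (k v r)))) r))))) r))))) (k (c 48 4096 r r) (k (c 32 4099 r r) r))))))))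
 .z .z) (.s 0x3aa9d7f80420 4082 (n false (n false (n false (n false (n false (z 121) (n false e e)) e) (n false e e)) e) e) (u 32 1 (k v (k (c 96 4099 r (u 64 1 (k v (k v r)))) (k (c 64 4097 r (u 96 1 (k v (k v r)))) (k (c 64 4095 r (c 8 4087 r v)) (k (c 64 4095 r (c 8 4087 r v)) r))))))
 .z .z))) (.s 0x3ae7f7c00e80 4070 (n false (n false (n false (n true (z 55) e) (n true (n false (n false e e) e) e)) e) e) (u 16 4 (k (t 48 1 (u 32 14 (k v (k (t 64 3 (t 96 1 v)) (k (u 64 4 (k v (k (t 192 1 (u 128 4 (k v (k v r)))) r))) (k r (k r (k r r)))))))) (k (t 48 2 (u 32 2 (k v (k (u 64 6 (k v (k v r))) r)))) r)))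
 (.s 0x3ab9f5700380 4078 (n false (n false (n false (n false (n true (z 35) e) (n true (n false e e) e)) e) e) e) (u 32 2 (k v (k v (k v (k (t 96 1 (u 64 0 (k (t 128 3 (t 192 1 v)) r))) r)))))
 (.s 0x3ab95df00380 4073 (n false (n false (n false (n false (n true (z 52) e) (n true (n false e e) e)) e) e) e) (u 32 39 (k v (k v (k v (k v (k (t 96 1 (u 64 0 (k v (k v r)))) r))))))
 .z .z) (.s 0x3ae577c00e80 4070 (n false (n false (n false (n true (z 52) e) (n true (n false (n false e e) e) e)) e) e) (u 16 102 (k v (k v (k v (k v (k v (k v (k (t 48 1 (u 32 0 (k v (k v r)))) (k (t 48 2 (u 32 0 (k (u 64 2 (k v (k (u 128 2 (k v (k v r))) r))) r))) (k (t 48 1 (u 32 0 (k (c 96 4099 r (u 64 2 (k v (k (u 128 2 (k v (k v r))) r)))) r))) r))))))))))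
 .z .z)) (.s 0x3afe577c0010 4079 (n false (n false (n false (n true (n true (n true (z 52) e) e) e) e) (n false e e)) e) (u 64 23 (k v (k v (k v (k v (k v (k v (k v (k (t 192 2 (u 128 0 (k (u 256 2 (k v (k (c 32 4078 (u 16 1 (k v (k v r))) v) r))) r))) (k (t 192 1 (u 128 0 (k (c 384 4099 r (u 256 2 (k v (k (c 32 4078 (u 16 1 (k v (k v r))) v) r)))) r))) r))))))))))
 (.s 0x3ae95fd40020 4085 (n false (n false (n false (n true (n false (z 156) e) e) (n false e e)) e) e) (u 32 1 (k v (k (c 96 4099 r (u 64 1 (k v (k v r)))) (k (c 64 4098 r (u 96 1 (k v (k v r)))) (k (c 64 4097 r (c 8 4085 r v)) (k (c 64 4099 r (u 96 1 (k v (k v r)))) (k (c 64 4095 r (c 8 4076 r v)) r)))))))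
 .z .z) .z))) (.s 0x3b95df003850 4066 (n false (n false (n true (z 52) e) (n true (n false e e) e)) (n false (n false e e) e)) (u 8 37 (k v (k v (k v (k v (k v (k v (k (t 24 1 (u 16 0 (k v (k v r)))) (k (t 24 3 (u 16 7 (k v (k v (k (c 40 4101 v (u 32 1 (k v (k v r)))) r))))) (k (t 24 2 (u 16 0 (k (u 32 2 (k v (k (u 64 1 (k v (k v r))) r))) r))) (k (t 24 1 (u 16 0 (k (c 48 4099 r (u 32 2 (k v (k (c 6 4094 v (u 64 1 (k v (k v r)))) r)))) r))) r)))))))))))
 (.s 0x3b957f802288 4086 (n false (n false (n true (z 120) e) (n false e e)) (n false (n false e e) (n false e e))) (u 8 4 (k (t 24 2 r) (k (t 16 1 (c 4 4085 r v)) (k (t 24 2 r) (k (t 16 1 (c 4 4085 r v)) (k (t 16 1 r) (k (t 24 1 r) (k (c 16 4097 r r) (k (c 4 4088 (t 6 1 r) v) (k (c 4 4088 (t 6 1 (u 4 0 (k r r))) v) (k (t 24 2 (c 4 4087 (u 4 0 (k r r)) v)) (k (c 4 4093 (t 6 1 r) v) (k (t 16 1 r) (k (t 24 1 r) (k (t 24 1 r) (k r (k (c 16 4095 r r) (k (t 16 1 r) (k (t 24 1 r)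 r)))))))))))))))))))
 (.s 0x3b9557002e10 4083 (n false (n false (n true (z 32) e) (n false (n true (n false e e) e) (n false e e))) e) (c 10 4094 v (u 8 0 (k (t 16 3 (t 24 1 v)) r)))
 (.s 0x3b9555400288 4083 (n false (n false (n true (z 128) e) e) (n false (n false e e) (n false e e))) (u 8 3 (k v (k v (k (c 24 4097 r r) (k (t 24 2 (u 16 0 (k (t 48 2 (u 32 0 (k (c 96 4099 r (u 64 2 (k v (k (c 32 4090 (u 4 1 (k v (k v r))) v) r)))) r))) r))) (k (c 16 4096 r r) (k (c 16 4095 r r) (k (c 16 4095 r (u 24 0 (k v (k v r)))) (k (c 24 4095 r (u 16 1 (k v (k v r)))) (k (c 16 4095 r r) (k (c 16 4095 r (u 24 1 (k v (k v r)))) (k (c 16 4097 r r) r))))))))))))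
 .z .z) (.s 0x3b957f0023a0 4073 (n false (n false (n true (z 56) e) (n false e e)) (n true (n false (n false e e) e) e)) (u 8 1 (k (u 16 1 (k v (k v r))) (k (u 16 110 (k v (k v (k v (k v (k v r)))))) (k (c 16 4096 r (u 24 0 (k v (k v r)))) (k (c 24 4096 r r) r)))))
 .z .z)) (.s 0x3b95df001708 4066 (n false (n false (n true (z 52) e) e) (n false (n true (n false e e) e) (n false e e))) (u 8 52 (k v (k v (k v (k v (k v (k v (k (t 24 1 (u 16 0 (k v (k v r)))) (k (t 24 3 (u 16 7 (k v (k v (k (u 32 2 (k v (k v r))) r))))) (k (t 24 2 (u 16 0 (k (u 32 2 (k v (k (u 64 2 (k v (k v r))) r))) r))) (k (t 24 1 (u 16 0 (k (c 48 4099 r (u 32 2 (k v (k (u 64 2 (k v (k v r))) r)))) r))) r)))))))))))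
 (.s 0x3b95d7802288 4084 (n false (n false (n true (z 100) e) (n false e e)) (n false (n false e e) (n false e e))) (u 8 0 (k (t 24 1 r) (k (t 24 1 r) (k (t 24 1 r) (k (t 24 1 (u 16 6 (k (c 48 4099 r r) (k r (k (u 32 1 (k v (k (t 64 1 (c 4 4075 r v)) (k (t 96 1 (c 4 4069 r v)) (k (t 96 1 (c 4 4069 r v)) r))))) (k (c 32 4099 r r) (k (c 32 4099 r r) (k (c 32 4099 r r) r)))))))) (k (t 24 1 r) (k (t 24 1 r) r)))))))
 .z .z) .z)) (.s 0x3b95ff801f40 4083 (n false (n false (n true (z 124) e) e) (n true (n true (n false (n false e e) e) e) e)) (u 8 5 (k v (k (c 24 4097 r (u 16 1 (k v (k v r)))) (k (c 24 4096 r (u 16 1 (k v (k v r)))) (k (c 16 4098 r (u 24 0 (k v (k v r)))) (k (c 24 4096 r (u 16 1 (k v (k v r)))) (k (c 24 4097 r (u 16 1 (k v (k v r)))) (k (c 24 4097 r (u 16 1 (k v (k v r)))) (k (c 24 4096 r (u 16 1 (k v (k v r)))) (k (c 16 4097 r (u 24 1 (k v (k v r)))) r))))))))))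
 (.s 0x3b95fd4002a0 4090 (n false (n false (n true (z 156) e) e) (n false (n false (n false e e) e) e)) (u 8 5 (k v (k v (k (c 24 4099 r (u 16 1 (k v (k v r)))) (k (c 16 4098 r (u 24 1 (k v (k v r)))) (k (c 16 4097 r (u 24 1 (k v (k v r)))) (k (c 16 4099 r (u 24 1 (k v (k v r)))) r)))))))
 (.s 0x3b95df003a08 4069 (n false (n false (n true (z 52) e) (n true (n false (n false e e) e) e)) (n false e e)) (u 8 102 (k v (k v (k v (k v (k v (k v (k (t 24 1 (u 16 0 (k v (k v r)))) (k (t 24 2 (u 16 0 (k (u 32 2 (k v (k (u 64 2 (k v (k v r))) r))) r))) (k (t 24 1 (u 16 0 (k (c 48 4099 r (u 32 2 (k v (k (u 64 2 (k v (k v r))) r)))) r))) r))))))))))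
 .z .z) (.s 0x3b95fd4003a0 4089 (n false (n false (n true (z 156) e) e) (n true (n false (n false e e) e) e)) (u 8 5 (k v (k v (k (c 24 4099 r (u 16 1 (k v (k v r)))) (k (c 16 4098 r (u 24 1 (k v (k v r)))) (k (c 16 4097 r (u 24 1 (k v (k v r)))) (k (c 16 4099 r (u 24 1 (k v (k v r)))) r)))))))
 .z .z)) (.s 0x3b9757803a08 4076 (n false (n false (n true (z 98) e) (n true (n false (n false e e) e) e)) (n false e e)) (u 8 1 (k v (k v (k v (k (t 24 1 (u 16 4 (k v (k v r)))) r)))))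
 (.s 0x3b95ff8023a0 4068 (n false (n false (n true (z 124) e) (n false e e)) (n true (n false (n false e e) e) e)) (u 8 1 (k v (k (c 24 4097 r (u 16 1 (k v (k v r)))) (k (c 24 4096 r (u 16 1 (k v (k v r)))) (k (c 16 4098 r (u 24 0 (k v (k v r)))) (k (c 24 4096 r (u 16 1 (k v (k v r)))) (k (c 24 4097 r (u 16 1 (k v (k v r)))) (k (c 24 4097 r (u 16 1 (k v (k v r)))) (k (c 24 4096 r (u 16 1 (k v (k v r)))) (k (c 24 4099 r (u 16 1 (k v (k v r)))) (k (c 16 4097 r (u 24 1 (k v (k v r)))) r)))))))))))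
 .z .z) .z))))

set_option maxRecDepth 100000 in
def N43 : NT :=
(.s 0x3b9dd70023a0 4072 (n false (n false (n true (z 37) e) (n false e e)) (n true (n false (n false e e) e) e)) (u 8 0 (k v (k (u 16 0 (k (t 32 3 (t 48 1 v)) r)) (k (u 16 0 (k (t 32 3 (t 48 1 v)) r)) (k r (k r (k r r)))))))
 (.s 0x3b9d7f801d40 4084 (n false (n false (n true (z 121) e) e) (n true (n false (n false (n false e e) e) e) e)) (u 8 1 (k v (k (c 24 4099 r (u 16 1 (k v (k v r)))) (k (c 16 4097 r (u 24 1 (k v (k v r)))) (k (c 16 4095 r (u 24 0 (k v (k v r)))) (k (c 16 4095 r (u 24 0 (k v (k v r)))) r))))))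
 (.s 0x3b97f7001f40 4083 (n false (n false (n true (z 46) e) e) (n true (n true (n false (n false e e) e) e) e)) (u 8 1 (k v (k (u 16 1 (k v (k v r))) (k (c 24 4099 r (u 16 0 (k v (k v r)))) (k (u 16 1 (k v (k v r))) (k (c 24 4097 r (u 16 1 (k v (k v r)))) (k (c 16 4095 r (u 24 1 (k v (k v r)))) r)))))))
 (.s 0x3b9777002288 4087 (n false (n false (n true (z 42) e) (n false e e)) (n false (n false e e) (n false e e))) (u 8 16 (k v (k v (k r (k (c 4 4087 r v) (k r (k r r)))))))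
 (.s 0x3b9777001d10 4080 (n false (n false (n true (z 42) e) e) (n true (n false (n false e e) (n false e e)) e)) (u 8 89 (k v (k v (k (t 24 1 (c 4 4084 r v)) (k (u 16 2 (k v (k v r))) (k (c 3 4092 v r) (k (c 3 4092 v r) r)))))))
 .z .z) (.s 0x3b977d8023a0 4072 (n false (n false (n true (z 90) e) (n false e e)) (n true (n false (n false e e) e) e)) (u 8 2 (k v (k r (k (c 24 4097 r (u 16 1 (k v (k (c 48 4097 r (u 32 0 (k v (k v r)))) r)))) (k r (k (c 24 4096 r r) (k (c 24 4097 r r) (k (u 16 3 (k v (k v (k (c 48 4097 r (u 32 1 (k v (k v r)))) (k (c 48 4096 r (u 32 1 (k v (k v r)))) (k (c 48 4097 r (u 32 1 (k v (k v r)))) r)))))) (k (c 24 4095 r r) (k (c 16 4095 r r) r))))))))))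
 .z .z)) (.s 0x3b97f70023a0 4072 (n false (n false (n true (z 46) e) (n false e e)) (n true (n false (n false e e) e) e)) (u 8 0 (k v (k (u 16 1 (k v (k v r))) (k (u 16 1 (k v (k v r))) (k (c 24 4099 r (u 16 0 (k v (k v r)))) (k (c 24 4097 r (u 16 1 (k v (k v r)))) (k (c 16 4095 r (u 24 1 (k v (k v r)))) r)))))))
 (.s 0x3b97f70022a0 4076 (n false (n false (n true (z 46) e) (n false e e)) (n false (n false (n false e e) e) e)) (u 8 18 (k v (k v (k (c 24 4099 r (u 16 0 (k v (k v r)))) (k (u 16 1 (k v (k v r))) (k (u 16 1 (k v (k v r))) (k (c 24 4097 r (u 16 1 (k v (k v r)))) r)))))))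
 .z .z) (.s 0x3b9d7d803a08 4071 (n false (n false (n true (z 89) e) (n true (n false (n false e e) e) e)) (n false e e)) (u 8 2 (k v (k v (k v (k (t 24 3 (u 16 46 (k v (k v (k (t 48 1 (c 40 4099 v (u 32 0 (k v (k v r))))) r))))) r)))))
 .z .z))) (.s 0x3b9dd7001d40 4085 (n false (n false (n true (z 37) e) e) (n true (n false (n false (n false e e) e) e) e)) (u 8 43 (k v (k v (k (u 16 0 (k (t 32 3 (t 48 1 v)) r)) (k (u 16 0 (k (t 32 3 (t 48 1 v)) r)) (k (u 16 10 (k v (k v (k v (k (t 48 1 (u 32 0 (k (t 64 3 (t 96 1 v)) r))) r))))) (k (u 16 10 (k v (k v (k v (k (t 48 1 (u 32 0 (k (t 64 3 (t 96 1 v)) r))) r))))) r)))))))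
 (.s 0x3b9d7f8022a0 4076 (n false (n false (n true (z 121) e) (n false e e)) (n false (n false (n false e e) e) e)) (u 8 3 (k v (k v (k (c 24 4099 r (u 16 1 (k v (k v r)))) (k (c 16 4097 r (u 24 1 (k v (k v r)))) r)))))
 (.s 0x3b9d7f801f40 4083 (n false (n false (n true (z 121) e) e) (n true (n true (n false (n false e e) e) e) e)) (u 8 1 (k v (k (c 24 4099 r (u 16 1 (k v (k v r)))) (k (c 16 4097 r (u 24 1 (k v (k v r)))) (k (c 16 4095 r (u 24 0 (k v (k v r)))) (k (c 16 4095 r (u 24 0 (k v (k v r)))) r))))))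
 .z .z) (.s 0x3b9d7f8023a0 4072 (n false (n false (n true (z 121) e) (n false e e)) (n true (n false (n false e e) e) e)) (u 8 1 (k v (k (c 24 4099 r (u 16 1 (k v (k v r)))) (k (c 16 4097 r (u 24 1 (k v (k v r)))) (k (c 16 4095 r (u 24 0 (k v (k v r)))) (k (c 16 4095 r (u 24 0 (k v (k v r)))) r))))))
 .z .z)) (.s 0x3b9dd70022a0 4076 (n false (n false (n true (z 37) e) (n false e e)) (n false (n false (n false e e) e) e)) (u 8 0 (k v (k (u 16 0 (k (t 32 3 (t 48 1 v)) r)) (k (u 16 0 (k (t 32 3 (t 48 1 v)) r)) (k (u 16 0 (k v (k v (k (t 48 1 (u 32 0 (k (t 64 3 (t 96 1 v)) r))) r)))) (k (u 16 0 (k v (k v (k (t 48 1 (u 32 0 (k (t 64 3 (t 96 1 v)) r))) r)))) (k (c 8 4095 r v) r)))))))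
 (.s 0x3b9dd7001f40 4084 (n false (n false (n true (z 37) e) e) (n true (n true (n false (n false e e) e) e) e)) (u 8 0 (k v (k (u 16 0 (k (t 32 3 (t 48 1 v)) r)) (k (u 16 0 (k (t 32 3 (t 48 1 v)) r)) (k (u 16 0 (k v (k v (k (t 48 1 (u 32 0 (k (t 64 3 (t 96 1 v)) r))) r)))) (k (u 16 10 (k v (k v (k v (k (t 48 1 (u 32 0 (k (t 64 3 (t 96 1 v)) r))) r))))) (k (c 4 4088 r v) r)))))))
 .z .z) .z))) (.s 0x3b9f57003a08 4075 (n false (n false (n true (n false (n false e e) e) e) (n true (z 35) e)) (n false e e)) (u 10 5 (k v (k v (k v (k (t 26 1 (u 18 0 (k (t 34 3 (t 50 1 v)) r))) r)))))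
 (.s 0x3b9f57001708 4072 (n false (n false (n true (z 35) e) e) (n false (n true (n false e e) e) (n false e e))) (u 8 5 (k v (k v (k v (k (t 24 1 (u 16 0 (k (t 32 3 (t 48 1 v)) r))) r)))))
 (.s 0x3b9ddd8023a0 4068 (n false (n false (n true (z 85) e) (n false e e)) (n true (n false (n false e e) e) e)) (u 8 4 (k v (k (c 24 4099 r r) (k r (k (c 24 4099 r r) (k r (k (c 24 4096 r r) (k (c 16 4099 r r) r))))))))
 (.s 0x3b9ddd801f40 4083 (n false (n false (n true (z 85) e) e) (n true (n true (n false (n false e e) e) e) e)) (u 8 53 (k v (k (c 24 4099 r (u 16 202 (k v (k v (k v (k v (k (t 48 1 (u 32 2 (k v (k v r)))) r))))))) (k (c 24 4099 r r) (k (c 24 4099 r (u 16 5 (k v (k v r)))) (k (c 3 4092 v r) (k (c 24 4096 r r) (k (c 24 4097 r (u 16 54 (k v (k v (k v (k (u 32 53 (k v (k v (k v r)))) r)))))) r))))))))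
 .z .z) (.s 0x3b9f55802288 4088 (n false (n false (n true (z 67) e) (n false e e)) (n false (n false e e) (n false e e))) (u 8 12 (k v (k v (k (t 24 2 r) (k (t 24 1 r) (k (t 24 2 r) (k (c 2 4086 (c 2 4088 r v) v) (k (t 24 1 r) (k (t 24 2 r) (k (t 16 2 r) (k (c 4 4091 (t 6 2 (u 4 0 (k r r))) v) (k (t 16 1 r) (k (t 24 2 r) (k (c 4 4091 (t 4 1 (u 6 0 (k r r))) v) (k (t 16 2 (c 4 4085 r v)) (k (t 24 2 r) (k (t 24 1 r) (k (t 24 2 r) (k (t 24 2 r) (k (t 24 1 r) r))))))))))))))))))))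
 .z .z)) (.s 0x3b9f57003850 4073 (n false (n false (n true (z 35) e) (n true (n false e e) e)) (n false (n false e e) e)) (u 8 5 (k v (k v (k v (k (t 24 1 (u 16 0 (k (t 32 3 (t 48 1 v)) r))) r)))))
 (.s 0x3b9f57002a08 4083 (n false (n false (n true (z 35) e) (n false (n false (n false e e) e) e)) (n false e e)) (u 8 6 (k v (k v (k v (k v r)))))
 .z .z) .z)) (.s 0x3b9f7d8023a0 4067 (n false (n false (n true (z 91) e) (n false e e)) (n true (n false (n false e e) e) e)) (u 8 2 (k v (k v (k (u 16 1 (k v (k v r))) (k (c 16 4097 r (u 24 0 (k v (k v r)))) (k (c 16 4097 r (u 24 0 (k v (k v r)))) (k (c 16 4096 r (u 24 0 (k v (k v r)))) (k (c 16 4095 r (u 24 0 (k v (k v r)))) r))))))))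
 (.s 0x3b9f5f003a08 4072 (n false (n false (n true (z 51) e) (n true (n false (n false e e) e) e)) (n false e e)) (u 8 0 (k (t 24 1 (u 16 0 (k (t 32 3 (t 48 3 v)) r))) r))
 (.s 0x3b9f5f003850 4066 (n false (n false (n true (z 51) e) (n true (n false e e) e)) (n false (n false e e) e)) (u 8 0 (k (t 24 1 (u 16 0 (k (t 32 3 (t 48 3 v)) r))) r))
 .z .z) (.s 0x3b9f7d801f40 4082 (n false (n false (n true (z 91) e) e) (n true (n true (n false (n false e e) e) e) e)) (u 8 4 (k v (k v (k (u 16 1 (k v (k v r))) (k (c 16 4097 r (u 24 0 (k v (k v r)))) (k (c 16 4097 r (u 24 0 (k v (k v r)))) (k (c 16 4096 r (u 24 0 (k v (k v r)))) (k (c 16 4095 r (u 24 0 (k v (k v r)))) r))))))))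
 .z .z)) (.s 0x3b9fd7802288 4086 (n false (n false (n true (z 103) e) (n false e e)) (n false (n false e e) (n false e e))) (u 8 3 (k (t 16 1 r) (k (t 24 2 r) (k (t 24 1 r) (k (t 24 1 r) r)))))
 (.s 0x3b9fd58023a0 4075 (n false (n false (n true (z 71) e) (n false e e)) (n true (n false (n false e e) e) e)) (u 8 1 (k v (k (c 24 4099 r (u 16 1 (k v (k v r)))) (k (u 16 0 (k v (k v r))) (k (c 16 4099 r (u 24 1 (k v (k v r)))) (k (c 16 4099 r (u 24 1 (k v (k v r)))) (k (c 16 4099 r (u 24 1 (k v (k v r)))) r)))))))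
 .z .z) .z))))

set_option maxRecDepth 100000 in
def N44 : NT :=
(.s 0x3ba9f5700380 4071 (n false (n false (n true (n false (n false (z 35) e) (n true (n false e e) e)) e) e) e) (u 32 5 (k v (k v (k v (k (t 96 1 (u 64 0 (k (t 128 3 (t 192 1 v)) r))) r)))))
 (.s 0x3ba57f500380 4071 (n false (n false (n true (n false (z 156) (n true (n false e e) e)) e) e) e) (u 16 1 (k v (k (c 48 4099 r (u 32 1 (k v (k v r)))) (k (c 32 4098 r (u 48 1 (k v (k v r)))) (k (c 32 4097 r (u 48 1 (k v (k v r)))) (k (c 32 4099 r (u 48 1 (k v (k v r)))) (k (c 32 4095 r (u 48 0 (k v (k v r)))) r)))))))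
 (.s 0x3ba557e01088 4084 (n false (n false (n true (n false (z 112) (n false e e)) e) (n false e e)) (n false e e)) (u 16 3 (k v (k (c 48 4099 r (u 32 4 (k v (k v r)))) r)))
 (.s 0x3b9fdf802288 4083 (n false (n false (n true (z 119) e) (n false e e)) (n false (n false e e) (n false e e))) (u 8 1 (k r (k (t 24 2 r) (k (t 24 1 r) (k r (k r (k (u 24 1 (k r (k (c 56 4097 r r) r))) (k (c 4 4088 (t 6 2 (u 4 0 (k r r))) v) (k r (k r (k r (k r (k r (k r r))))))))))))))
 (.s 0x3b9fdf003a08 4075 (n false (n false (n true (z 55) e) (n true (n false (n false e e) e) e)) (n false e e)) (u 8 4 (k (t 24 1 (u 16 6 (k v (k v (k (u 32 4 (k v (k (t 96 1 (u 64 4 (k v (k v r)))) r))) (k (c 2 4076 r v) r)))))) (k (t 24 2 (u 16 8 (k v (k v r)))) r)))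
 .z .z) (.s 0x3b9fdf8023a0 4073 (n false (n false (n true (z 119) e) (n false e e)) (n true (n false (n false e e) e) e)) (u 8 0 (k v (k (c 24 4101 r r) (k (c 24 4096 r r) (k (c 24 4096 r r) (k (c 24 4099 r r) (k (c 24 4097 r r) (k (c 24 4096 r (u 16 0 (k (u 32 0 (k v (k v r))) r))) (k (c 16 4098 r r) (k (c 16 4101 r r) (k (c 16 4099 r r) (k (c 16 4101 r r) r))))))))))))
 .z .z)) (.s 0x3ba57f500088 4074 (n false (n false (n true (n false (z 156) e) e) (n false e e)) (n false e e)) (u 16 1 (k v (k (c 48 4099 r (u 32 1 (k v (k v r)))) (k (c 32 4098 r (u 48 1 (k v (k v r)))) (k (c 32 4097 r (u 48 1 (k v (k v r)))) (k (c 32 4099 r (u 48 1 (k v (k v r)))) (k (c 32 4095 r (c 4 4076 r v)) r)))))))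
 (.s 0x3ba577c01d00 4066 (n false (n false (n true (n false (z 52) (n true (n false (n false e e) e) e)) e) e) e) (u 16 74 (k v (k v (k v (k v r)))))
 .z .z) (.s 0x3ba57f5000e0 4071 (n false (n false (n true (n false (z 156) e) e) (n true (n false e e) e)) e) (u 16 1 (k v (k (c 48 4099 r (u 32 1 (k v (k v r)))) (k (c 32 4098 r (u 48 1 (k v (k v r)))) (k (c 32 4097 r (u 48 1 (k v (k v r)))) (k (c 32 4099 r (u 48 1 (k v (k v r)))) (k (c 32 4095 r (c 4 4076 r v)) r)))))))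
 .z .z))) (.s 0x3ba9df700210 4087 (n false (n false (n true (n false (n false (z 45) e) (n false e e)) e) (n false e e)) e) (u 32 1 (k v (k (t 96 1 (u 64 6 (k v (k v (k v r))))) (k (t 96 2 r) r))))
 (.s 0x3ba9d7d80380 4069 (n false (n false (n true (n false (n false (z 89) e) (n true (n false e e) e)) e) e) e) (u 32 2 (k v (k v (k v (k (t 96 2 (u 64 134 (k v (k (t 192 1 (u 128 3 (k v (k v r)))) (k (t 192 3 (u 128 0 (k (u 256 2 (k v (k (c 128 4090 (u 4 1 (k v (k v r))) v) r))) r))) r))))) r)))))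
 (.s 0x3ba97ff80210 4086 (n false (n false (n true (n false (n false (z 126) e) (n false e e)) e) (n false e e)) e) (u 32 1 (k v (k (t 96 1 (u 64 1 (k v (k (c 192 4099 r (u 128 1 (k v (k v r)))) (k (c 128 4097 r (c 16 4090 r v)) (k (c 128 4095 r (c 16 4087 r v)) (k (c 128 4095 r (c 16 4087 r v)) r))))))) (k (c 16 4091 (t 6 1 r) v) r))))
 .z .z) (.s 0x3ba9ddf00210 4084 (n false (n false (n true (n false (n false (z 53) e) (n false e e)) e) (n false e e)) e) (u 32 0 (k (t 96 1 (u 64 2 (k v (k (c 192 4099 r (u 128 0 (k v (k v r)))) (k (c 16 4090 r v) (k (c 16 4090 r v) (k (c 192 4097 r (c 16 4090 r v)) (k (c 128 4095 r (c 16 4090 r v)) r)))))))) (k (t 96 1 r) r)))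
 .z .z)) (.s 0x3ba9f57000e0 4072 (n false (n false (n true (n false (n false (z 35) e) e) e) (n true (n false e e) e)) e) (u 32 5 (k v (k v (k v (k (t 96 1 (u 64 0 (k (t 128 3 (t 192 1 v)) r))) r)))))
 (.s 0x3ba9f5700088 4074 (n false (n false (n true (n false (n false (z 35) e) e) e) (n false e e)) (n false e e)) (u 32 5 (k v (k v (k v (k (t 96 1 (u 64 0 (k (t 128 3 (t 192 1 v)) r))) r)))))
 .z .z) .z))) (.s 0x3bb9f57000e0 4074 (n false (n false (n true (n false (n true (z 35) e) e) e) (n true (n false e e) e)) e) (u 32 5 (k v (k v (k v (k (t 96 1 (u 64 0 (k (t 128 3 (t 192 1 v)) r))) r)))))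
 (.s 0x3bb97ff00380 4066 (n false (n false (n true (n false (n true (z 62) e) (n true (n false e e) e)) e) e) e) (u 32 1 (k v (k v (k v (k (t 96 1 (u 64 134 (k v (k (t 192 1 (u 128 0 (k v (k v r)))) (k (t 192 3 (u 128 0 (k (u 256 2 (k v (k (c 128 4090 (u 4 1 (k v (k v r))) v) r))) r))) r))))) r)))))
 (.s 0x3ba9fdf00380 4071 (n false (n false (n true (n false (n false (z 55) e) (n true (n false e e) e)) e) e) e) (u 32 4 (k (t 96 1 (u 64 4 (k v (k v (k (u 128 4 (k v (k (t 384 1 (u 256 4 (k v (k v r)))) r))) (k (u 128 4 (k v (k (t 384 1 (u 256 2 (k v (k v r)))) r))) (k r (k r r)))))))) (k (t 96 2 (u 64 8 (k v (k v r)))) r)))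
 (.s 0x3ba9fdf000e0 4075 (n false (n false (n true (n false (n false (z 55) e) e) e) (n true (n false e e) e)) e) (u 32 4 (k (t 96 1 (u 64 9 (k v (k v (k v (k (u 128 4 (k v (k (t 384 1 (u 256 2 (k v (k v r)))) r))) (k (u 128 2 (k v (k (t 384 1 (u 256 21 (k v (k v (k v (k (c 512 4097 r (u 768 1 (k v (k v r)))) r)))))) (k (t 384 1 (u 256 16 (k v (k v (k v r))))) r)))) r))))))) (k (t 96 2 (u 64 8 (k v (k v r)))) r)))
 .z .z) (.s 0x3bb95df00380 4066 (n false (n false (n true (n false (n true (z 52) e) (n true (n false e e) e)) e) e) e) (u 32 122 (k v (k v (k v (k v (k v (k v (k (t 96 3 (u 64 7 (k v (k v (k (c 160 4101 v (u 128 1 (k v (k v r)))) r))))) (k (t 96 2 (u 64 0 (k (u 128 2 (k v (k (u 256 2 (k v (k v r))) r))) r))) (k (t 96 1 (u 64 0 (k (c 192 4099 r (u 128 2 (k v (k (u 256 2 (k v (k v r))) r)))) r))) (k (t 96 1 (u 64 0 (k v (k v r)))) r)))))))))))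
 .z .z)) (.s 0x3bb9f5700088 4084 (n false (n false (n true (n false (n true (z 35) e) e) e) (n false e e)) (n false e e)) (u 32 6 (k v (k v (k v (k v r)))))
 (.s 0x3bb9df700210 4089 (n false (n false (n true (n false (n true (z 45) e) (n false e e)) e) (n false e e)) e) (u 32 4 (k v (k (t 96 1 (u 64 4 (k v (k v r)))) r)))
 .z .z) .z)) (.s 0x3be577c00288 4082 (n false (n false (n true (n true (z 52) e) e) e) (n false (n false e e) (n false e e))) (u 16 141 (k v (k v (k v (k v (k v (k v (k v (k (c 8 4087 (t 6 2 r) v) (k (c 8 4087 (t 6 1 r) v) r))))))))))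
 (.s 0x3bb9f5f00380 4066 (n false (n false (n true (n false (n true (z 51) e) (n true (n false e e) e)) e) e) e) (u 32 0 (k (t 96 1 (u 64 0 (k (t 128 3 (t 192 3 v)) r))) r))
 (.s 0x3bb9f5700380 4071 (n false (n false (n true (n false (n true (z 35) e) (n true (n false e e) e)) e) e) e) (u 32 5 (k v (k v (k v (k (t 96 1 (u 64 0 (k (t 128 3 (t 192 1 v)) r))) r)))))
 .z .z) (.s 0x3bb9fdf00380 4066 (n false (n false (n true (n false (n true (z 55) e) (n true (n false e e) e)) e) e) e) (u 32 4 (k (t 96 1 (u 64 30 (k (t 128 3 (t 192 1 v)) (k (u 128 0 (k (t 256 3 (t 384 3 v)) r)) (k r (k r (k r (k r r)))))))) (k (t 96 2 (u 64 2 (k v (k (u 128 1 (k v (k v r))) r)))) r)))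
 .z .z)) (.s 0x3be5fdc003a0 4084 (n false (n false (n true (n true (z 46) e) e) e) (n true (n false (n false e e) e) e)) (u 16 1 (k v (k (u 32 1 (k v (k v r))) (k (c 48 4099 r (u 32 0 (k v (k v r)))) (k (u 32 1 (k v (k v r))) (k (c 48 4097 r (u 32 1 (k v (k v r)))) (k (c 32 4095 r (u 48 1 (k v (k v r)))) r)))))))
 (.s 0x3be57f5000e0 4089 (n false (n false (n true (n true (z 156) e) e) (n true (n false e e) e)) e) (u 16 7 (k v (k v (k (c 48 4099 r (u 32 1 (k v (k v r)))) (k (c 32 4098 r (u 48 1 (k v (k v r)))) (k (c 32 4097 r (u 48 1 (k v (k v r)))) (k (c 32 4099 r (u 48 1 (k v (k v r)))) (k (c 32 4095 r (u 48 0 (k v (k v r)))) r))))))))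
 .z .z) .z))))

set_option maxRecDepth 100000 in
def N45 : NT :=
(.s 0x3e555e00ae10 4082 (n false (n true (z 96) e) (n false (n false (n true (n false e e) e) (n false e e)) e)) (u 4 0 (k (t 12 2 (u 8 0 (k (c 24 4099 r (u 16 0 (k v (k v (k (c 8 4084 (u 4 1 (k v (k v r))) v) r))))) r))) r))
 (.s 0x3bf9f5f00088 4085 (n false (n false (n true (n true (n true (z 51) e) e) e) (n false e e)) (n false e e)) (u 32 0 (k (t 96 1 (u 64 0 (k (t 128 3 (t 192 3 v)) r))) r))
 (.s 0x3be9fdf000e0 4081 (n false (n false (n true (n true (n false (z 55) e) e) e) (n true (n false e e) e)) e) (u 32 4 (k (t 96 1 (u 64 17 (k v (k (u 128 2 (k v (k v r))) (k (c 192 4099 r (t 128 3 v)) r))))) (k (t 96 2 (u 64 7 (k v (k v (k (c 16 4082 (u 8 1 (k v (k v r))) v) r))))) r)))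
 (.s 0x3be95df00410 4078 (n false (n false (n true (n true (n false (z 52) (n false e e)) e) e) (n false e e)) e) (u 32 43 (k v (k v (k v (k v (k (t 96 1 (u 64 0 (k v (k v r)))) r))))))
 (.s 0x3be775c003a0 4084 (n false (n false (n true (n true (z 37) e) e) e) (n true (n false (n false e e) e) e)) (u 16 0 (k v (k (c 3 4093 v (u 32 0 (k (t 64 3 (t 96 1 v)) r))) (k (u 32 0 (k (t 64 3 (t 96 1 v)) r)) (k (c 3 4093 v r) (k (u 32 0 (k v (k v (k (t 96 1 (u 64 0 (k (t 128 3 (t 192 1 v)) r))) r)))) (k (c 8 4088 r v) r)))))))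
 .z .z) (.s 0x3be9f57000e0 4086 (n false (n false (n true (n true (n false (z 35) e) e) e) (n true (n false e e) e)) e) (u 32 25 (k v (k v (k v (k v (k (t 96 1 (u 64 0 (k (t 128 3 (t 192 1 v)) r))) r))))))
 .z .z)) (.s 0x3bf9f5700088 4086 (n false (n false (n true (n true (n true (z 35) e) e) e) (n false e e)) (n false e e)) (u 32 25 (k v (k v (k v (k v (k (t 96 1 (u 64 0 (k (t 128 3 (t 192 1 v)) r))) r))))))
 (.s 0x3bf95df00088 4084 (n false (n false (n true (n true (n true (z 52) e) e) e) (n false e e)) (n false e e)) (u 32 97 (k v (k v (k v (k v (k v (k (t 96 1 (u 64 0 (k v (k v r)))) r)))))))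
 .z .z) (.s 0x3bf9f57000e0 4086 (n false (n false (n true (n true (n true (z 35) e) e) e) (n true (n false e e) e)) e) (u 32 25 (k v (k v (k v (k v (k (t 96 1 (u 64 0 (k (t 128 3 (t 192 1 v)) r))) r))))))
 .z .z))) (.s 0x3e5555001708 4085 (n false (n true (z 128) e) (n false (n true (n false e e) e) (n false e e))) (u 4 1 (k v (k (c 8 4097 r r) (k (c 12 4099 r r) (k (c 12 4099 r r) (k (c 8 4096 r r) (k (c 12 4097 r r) (k (c 8 4095 r r) (k (c 8 4095 r (u 12 0 (k v (k v r)))) (k (c 8 4099 r r) (k (c 12 4097 r (u 8 1 (k v (k v r)))) (k (c 8 4098 r r) (k (c 8 4099 r r) (k (c 12 4095 r (u 8 1 (k v (k v r)))) (k (c 8 4097 r (u 12 0 (k v (k v r)))) (k (c 8 4095 r r) (k (c 8 4099 r r) (k (c 8 4095 r (u 12 1 (k v (k v r)))) (k (c 8 4097 r r) r)))))))))))))))))))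
 (.s 0x3bfe577c0010 4078 (n false (n false (n true (n true (n true (n true (z 52) e) e) e) e) (n false e e)) e) (u 64 32 (k v (k v (k v (k v (k v (k v (k v (k (c 32 4081 r v) (k (t 192 2 (u 128 0 (k (u 256 2 (k v (k (c 128 4084 (u 4 1 (k v (k v r))) v) r))) r))) (k (t 192 1 (u 128 0 (k (c 384 4099 r (u 256 2 (k v (k (c 32 4078 (u 16 1 (k v (k v r))) v) r)))) r))) r)))))))))))
 (.s 0x3bfa75f60010 4080 (n false (n false (n true (n true (n true (n false (z 89) e) e) e) e) (n false e e)) e) (u 64 2 (k v (k v (k v (k (t 192 2 (u 128 29 (k v (k v (k v (k (t 384 1 (u 256 0 (k v (k v r)))) r)))))) r)))))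
 .z .z) (.s 0x3bfe7f7c0010 4077 (n false (n false (n true (n true (n true (n true (z 55) e) e) e) e) (n false e e)) e) (u 64 4 (k r (k (t 192 2 (u 128 2 (k v (k (c 32 4082 (u 8 1 (k v (k v r))) v) r)))) r)))
 .z .z)) (.s 0x3e555600ee10 4083 (n false (n true (z 64) e) (n true (n false (n true (n false e e) e) (n false e e)) e)) (u 4 0 (k (t 12 2 (u 8 2 (k v (k (c 2 4084 (u 8 3 (k v (k v r))) v) r)))) r))
 (.s 0x3e5555001d10 4083 (n false (n true (z 128) e) (n true (n false (n false e e) (n false e e)) e)) (u 4 3 (k v (k v (k (c 12 4097 r r) (k (t 12 2 (u 8 0 (k (t 24 2 (u 16 0 (k (c 48 4099 r (u 32 2 (k v (k (c 16 4090 (u 4 1 (k v (k v r))) v) r)))) r))) r))) (k (c 8 4096 r r) (k (c 8 4095 r r) (k (c 8 4095 r (u 12 0 (k v (k v r)))) (k (c 12 4095 r (u 8 1 (k v (k v r)))) (k (c 8 4095 r r) (k (c 8 4095 r (u 12 1 (k v (k v r)))) (k (c 8 4097 r r) r))))))))))))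
 .z .z) .z))) (.s 0x3e577c00fa20 4078 (n false (n true (z 52) e) (n true (n true (n false (n false e e) (n false e e)) e) e)) (u 4 31 (k v (k v (k v (k v (k v (k v (k v (k (c 2 4081 r v) (k (t 12 2 (u 8 0 (k (u 16 2 (k v (k (c 2 4078 (u 16 1 (k v (k v r))) v) r))) r))) (k (t 12 1 (u 8 0 (k (c 24 4099 r (u 16 2 (k v (k (c 2 4078 (u 16 1 (k v (k v r))) v) r)))) r))) r)))))))))))
 (.s 0x3e577c00ae10 4084 (n false (n true (z 52) e) (n false (n false (n true (n false e e) e) (n false e e)) e)) (u 4 10 (k v (k v (k v (k v (k v (k (t 12 1 (u 8 0 (k v (k v r)))) r)))))))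
 (.s 0x3e557600ae10 4085 (n false (n true (z 80) e) (n false (n false (n true (n false e e) e) (n false e e)) e)) (u 4 0 (k (u 8 0 (k (c 24 4099 r (u 16 0 (k v (k (u 32 2 (k v (k v r))) (k (c 48 4099 r (u 32 0 (k (u 64 3 (k v (k v (k v r)))) r))) (k (u 32 9 (k v (k v (k (u 64 78 (k v (k v r))) r)))) (k (c 2 4071 r v) (k (u 32 0 (k (u 64 0 (k v (k v r))) r)) (k (u 32 13 (k v (k v (k v (k v r))))) (k (u 32 2 (k v (k (c 96 4099 r (u 64 19 (k v (k v (k v r))))) (k (c 64 4095 r (u 96 0 (k v (k v r)))) r)))) r)))))))))) r)) r))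
 (.s 0x3e555e00ee10 4082 (n false (n true (z 96) e) (n true (n false (n true (n false e e) e) (n false e e)) e)) (u 4 0 (k (t 12 2 (u 8 0 (k (c 24 4099 r (u 16 0 (k v (k v (k (c 8 4084 (u 4 1 (k v (k v r))) v) r))))) r))) r))
 .z .z) (.s 0x3e557600ee10 4085 (n false (n true (z 80) e) (n true (n false (n true (n false e e) e) (n false e e)) e)) (u 4 0 (k (u 8 0 (k (c 24 4099 r (u 16 0 (k v (k (u 32 2 (k v (k v r))) (k (c 48 4099 r (u 32 0 (k (u 64 2 (k v (k v (k v r)))) r))) (k (u 32 9 (k v (k v (k (u 64 0 (k v (k v r))) r)))) (k (c 2 4071 r v) (k (u 32 0 (k (u 64 0 (k v (k v r))) r)) (k (u 32 13 (k v (k v (k v (k v r))))) (k (u 32 2 (k v (k (c 96 4099 r (u 64 1 (k v (k v r)))) (k (c 64 4095 r (u 96 0 (k v (k v r)))) r)))) r)))))))))) r)) r))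
 .z .z)) (.s 0x3e577c00ee10 4084 (n false (n true (z 52) e) (n true (n false (n true (n false e e) e) (n false e e)) e)) (u 4 10 (k v (k v (k v (k v (k v (k (t 12 1 (u 8 0 (k v (k v r)))) r)))))))
 (.s 0x3e577c00ba20 4079 (n false (n true (z 52) e) (n false (n true (n false (n false e e) (n false e e)) e) e)) (u 4 23 (k v (k v (k v (k v (k v (k v (k v (k (t 12 2 (u 8 0 (k (u 16 2 (k v (k (c 2 4078 (u 16 1 (k v (k v r))) v) r))) r))) (k (t 12 1 (u 8 0 (k (c 24 4099 r (u 16 2 (k v (k (c 2 4078 (u 16 1 (k v (k v r))) v) r)))) r))) r))))))))))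
 .z .z) .z)) (.s 0x3e57fe00fa20 4080 (n false (n true (z 124) e) (n true (n true (n false (n false e e) (n false e e)) e) e)) (u 4 2 (k v (k v (k (c 12 4097 r (u 8 1 (k v (k v r)))) (k (c 12 4096 r (u 8 1 (k v (k v r)))) (k (c 12 4097 r (u 8 1 (k v (k v r)))) (k (c 12 4099 r (u 8 1 (k v (k v r)))) r)))))))
 (.s 0x3e57f5001f40 4089 (n false (n true (n true (n false (n false e e) e) e) e) (n true (z 156) e)) (u 5 1 (k v (k (c 13 4099 r (u 9 1 (k v (k v r)))) (k (c 9 4098 r (u 13 1 (k v (k v r)))) (k (c 9 4097 r (u 13 1 (k v (k v r)))) (k (c 9 4099 r (u 13 1 (k v (k v r)))) (k (c 9 4095 r (u 13 0 (k v (k v r)))) r)))))))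
 (.s 0x3e57f5001d10 4083 (n false (n true (z 156) e) (n true (n false (n false e e) (n false e e)) e)) (u 4 2 (k v (k (c 12 4099 r (u 8 1 (k v (k v r)))) (k (c 8 4095 r (u 12 0 (k v (k v r)))) r))))
 .z .z) (.s 0x3e57fe00ba20 4084 (n false (n true (z 124) e) (n false (n true (n false (n false e e) (n false e e)) e) e)) (u 4 3 (k v (k v (k (c 12 4097 r (u 8 1 (k v (k v r)))) (k (c 12 4096 r (u 8 1 (k v (k v r)))) (k (c 12 4097 r (u 8 1 (k v (k v r)))) r))))))
 .z .z)) (.s 0x3e5fdc00ba20 4084 (n false (n true (z 46) e) (n false (n true (n false (n false e e) (n false e e)) e) e)) (u 4 1 (k v (k (u 8 1 (k v (k v r))) (k (c 12 4099 r (u 8 0 (k v (k v r)))) (k (u 8 0 (k v (k v r))) (k (c 12 4097 r (u 8 1 (k v (k v r)))) (k (c 8 4095 r (u 12 1 (k v (k v r)))) r)))))))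
 (.s 0x3e5f7e00ee10 4080 (n false (n true (z 118) e) (n true (n false (n true (n false e e) e) (n false e e)) e)) (u 4 3 (k v (k (t 12 1 r) (k (t 12 1 r) r))))
 .z .z) .z))))

set_option maxRecDepth 100000 in
def N46 : NT :=
(.s 0x3e7dfe00ae10 4085 (n false (n true (z 123) e) (n false (n false (n true (n false e e) e) (n false e e)) e)) (u 4 13 (k v (k v (k r (k r (k (u 8 10 (k v (k (c 16 4097 r r) (k (c 24 4097 r r) (k (c 24 4097 r r) r))))) (k r (k (t 8 1 r) (k (t 8 2 (u 12 2 (k v (k v r)))) r)))))))))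
 (.s 0x3e7d5600ba80 4087 (n false (n true (z 67) e) (n false (n true (n false (n false (n false e e) e) e) e) e)) (u 4 32 (k v (k v (k v (k v (k (t 12 1 (u 8 1 (k v (k v r)))) (k (c 8 4101 r (u 12 0 (k v (k v r)))) (k r (k (c 2 4088 r v) (k (c 2 4091 (t 6 2 (u 4 0 (k r r))) v) (k (c 12 4101 r (u 8 1 (k v (k v r)))) (k (t 12 1 (u 8 10 (k v (k v (k v (k (c 24 4099 r (u 16 1 (k v (k v r)))) r)))))) (k (c 12 4102 r (u 8 1 (k v (k v r)))) (k (c 8 4101 r (u 12 1 (k v (k v r)))) (k (t 12 1 (u 8 3 (k v (k v (k (c 24 4099 r (u 16 1 (k v (k v r)))) r))))) (k (c 8 4101 r (u 12 1 (k v (k v r)))) r))))))))))))))))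
 (.s 0x3e75fe00fa20 4082 (n false (n true (z 121) e) (n true (n true (n false (n false e e) (n false e e)) e) e)) (u 4 2 (k v (k v (k (c 12 4099 r (u 8 1 (k v (k v r)))) (k (c 8 4095 r (u 12 0 (k v (k v r)))) (k (c 8 4095 r (u 12 0 (k v (k v r)))) r))))))
 (.s 0x3e75f600fa20 4081 (n false (n true (z 89) e) (n true (n true (n false (n false e e) (n false e e)) e) e)) (u 4 2 (k v (k v (k v (k (t 12 2 r) r)))))
 (.s 0x3e5ffc00ee10 4082 (n false (n true (z 62) e) (n true (n false (n true (n false e e) e) (n false e e)) e)) (u 4 4 (k v (k v (k v (k (t 12 1 r) r)))))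
 .z .z) (.s 0x3e75fe00ba20 4084 (n false (n true (z 121) e) (n false (n true (n false (n false e e) (n false e e)) e) e)) (u 4 2 (k v (k v (k (c 12 4099 r (u 8 1 (k v (k v r)))) (k (c 8 4095 r (u 12 0 (k v (k v r)))) (k (c 8 4095 r (u 12 0 (k v (k v r)))) r))))))
 .z .z)) (.s 0x3e775c00fa20 4084 (n false (n true (z 37) e) (n true (n true (n false (n false e e) (n false e e)) e) e)) (u 4 0 (k v (k (u 8 0 (k (t 16 3 (t 24 1 v)) r)) (k (u 8 0 (k (t 16 3 (t 24 1 v)) r)) (k (u 8 2 (k v (k v (k v (k (t 24 1 (u 16 0 (k (t 32 3 (t 48 1 v)) r))) r))))) (k (u 8 0 (k v (k v (k (t 24 1 (u 16 0 (k (t 32 3 (t 48 1 v)) r))) r)))) (k (c 2 4088 r v) r)))))))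
 (.s 0x3e775c00ba20 4084 (n false (n true (z 37) e) (n false (n true (n false (n false e e) (n false e e)) e) e)) (u 4 0 (k v (k (u 8 0 (k (t 16 3 (t 24 1 v)) r)) (k (u 8 0 (k (t 16 3 (t 24 1 v)) r)) (k (u 8 2 (k v (k v (k v (k (t 24 1 (u 16 0 (k (t 32 3 (t 48 1 v)) r))) r))))) (k (u 8 0 (k v (k v (k (t 24 1 (u 16 0 (k (t 32 3 (t 48 1 v)) r))) r)))) (k (c 2 4088 r v) r)))))))
 .z .z) (.s 0x3e777600ba20 4084 (n false (n true (z 85) e) (n false (n true (n false (n false e e) (n false e e)) e) e)) (u 4 12 (k v (k v (k (c 12 4099 r r) (k (t 12 1 (u 8 2 (k v (k (t 24 2 (c 12 4099 v (u 16 2 (k v (k (c 2 4081 (u 16 1 (k v (k v r))) v) r))))) r)))) (k (u 8 3 (k v (k v r))) (k (c 12 4096 r (c 2 4088 r v)) (k (c 8 4099 r r) r))))))))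
 .z .z))) (.s 0x3e7d7c00ae10 4084 (n false (n true (z 51) e) (n false (n false (n true (n false e e) e) (n false e e)) e)) (u 4 0 (k (t 12 1 (u 8 0 (k (t 16 3 (t 24 3 v)) r))) r))
 (.s 0x3e7d5c00ae10 4086 (n false (n true (z 35) e) (n false (n false (n true (n false e e) e) (n false e e)) e)) (u 4 11 (k v (k v (k (t 12 1 (u 8 0 (k (t 16 3 (t 24 1 v)) r))) r))))
 (.s 0x3e7d5600be80 4085 (n false (n true (z 67) e) (n false (n true (n true (n false (n false e e) e) e) e) e)) (u 4 33 (k v (k v (k v (k v (k (t 12 1 (u 8 1 (k v (k v r)))) (k (c 8 4101 r (u 12 0 (k v (k v r)))) (k r (k (c 2 4088 r v) (k (c 8 4099 r (u 12 0 (k v (k v r)))) (k (t 12 1 (u 8 2 (k v (k (c 24 4097 r (u 16 0 (k v (k v r)))) r)))) (k (c 2 4091 (t 6 2 (u 4 0 (k r r))) v) (k (c 12 4101 r (u 8 1 (k v (k v r)))) (k (t 12 1 (u 8 9 (k v (k v (k v (k (c 24 4099 r (u 16 1 (k v (k v r)))) r)))))) (k (c 12 4102 r (u 8 1 (k v (k v r)))) (k (c 8 4101 r (u 12 1 (k v (k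 v r)))) (k r (k (c 8 4101 r (u 12 1 (k v (k v r)))) r))))))))))))))))))
 .z .z) (.s 0x3e7d5c00ee10 4086 (n false (n true (n false (n true (n false e e) e) (n false e e)) e) (n true (z 35) e)) (u 5 11 (k v (k v (k (t 13 1 (u 9 0 (k (t 17 3 (t 25 1 v)) r))) r))))
 .z .z)) (.s 0x3e7df600ba20 4084 (n false (n true (z 91) e) (n false (n true (n false (n false e e) (n false e e)) e) e)) (u 4 1 (k v (k v (k v (k (u 8 0 (k v (k v r))) (k (c 8 4097 r (u 12 0 (k v (k v r)))) (k (c 8 4095 r (u 12 0 (k v (k v r)))) r)))))))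
 (.s 0x3e7d7c00ee10 4084 (n false (n true (z 51) e) (n true (n false (n true (n false e e) e) (n false e e)) e)) (u 4 0 (k (t 12 1 (u 8 0 (k (t 16 3 (t 24 3 v)) r))) r))
 .z .z) .z))) (.s 0x3e7f7e00ae10 4091 (n false (n true (z 119) e) (n false (n false (n true (n false e e) e) (n false e e)) e)) (u 4 6 (k v (k v (k v (k (t 12 1 r) (k (c 8 4097 r r) (k (c 12 4097 r r) (k (c 12 4097 r (u 8 1 (k v (k (c 24 4097 r (u 16 1 (k v (k v r)))) (k (c 24 4096 r (u 16 1 (k v (k v r)))) (k (c 16 4098 r (u 24 0 (k v (k v r)))) (k (c 24 4096 r (u 16 1 (k v (k v r)))) (k (c 24 4097 r (u 16 1 (k v (k v r)))) (k (c 24 4097 r (u 16 1 (k v (k v r)))) (k (c 24 4096 r (u 16 1 (k v (k v r)))) (k (c 24 4099 r (u 16 1 (k v (k v r)))) (k (c 16 4097 r (u 24 1 (k v (k v r)))) r)))))))))))) (k (c 12 4097 r r) r)))))))))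
 (.s 0x3e7f5e00ee10 4083 (n false (n true (z 103) e) (n true (n false (n true (n false e e) e) (n false e e)) e)) (u 4 1 (k v (k (t 12 1 r) (k (t 8 2 r) (k (t 8 1 r) r)))))
 (.s 0x3e7f5600ae10 4086 (n false (n true (z 71) e) (n false (n false (n true (n false e e) e) (n false e e)) e)) (u 4 8 (k r (k (t 12 1 (u 8 16 (k v (k v (k (c 4 4090 r v) (k (c 4 4090 (c 3 4099 v r) v) (k (c 4 4090 r v) (k (c 4 4090 r v) r)))))))) (k (u 8 0 (k v (k (t 24 1 r) (k (t 16 2 r) (k (t 16 1 r) r))))) (k (t 8 1 r) (k (t 8 1 r) (k (t 8 1 r) r)))))))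
 (.s 0x3e7dfe00ee10 4084 (n false (n true (z 123) e) (n true (n false (n true (n false e e) e) (n false e e)) e)) (u 4 38 (k v (k v (k r (k r (k (t 12 1 (u 8 28 (k v (k v (k v (k (t 24 3 (u 16 268 (k v (k v (k v (k v r)))))) (k (c 24 4099 r r) (k (c 16 4099 r r) r)))))))) (k r (k (t 8 1 r) (k (c 12 4097 r r) r)))))))))
 .z .z) (.s 0x3e7f5600ee10 4086 (n false (n true (z 71) e) (n true (n false (n true (n false e e) e) (n false e e)) e)) (u 4 2 (k r (k r (k (t 12 1 r) (k (t 8 1 r) (k (t 8 1 r) (k (t 8 1 r) r)))))))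
 .z .z)) (.s 0x3e7f7c00ee10 4081 (n false (n true (z 55) e) (n true (n false (n true (n false e e) e) (n false e e)) e)) (u 4 0 (k (t 12 2 r) (k (t 12 1 r) r)))
 (.s 0x3e7f7c00ba20 4079 (n false (n true (z 55) e) (n false (n true (n false (n false e e) (n false e e)) e) e)) (u 4 4 (k (t 12 1 (u 8 14 (k v (k (c 24 4099 r (t 16 3 v)) (k (u 16 4 (k v (k (t 48 1 (u 32 4 (k v (k v r)))) r))) (k (u 16 4 (k v (k (t 48 1 (u 32 4 (k v (k v r)))) r))) (k (c 3 4091 v (u 16 0 (k r (k r r)))) (k (c 3 4091 v r) r)))))))) (k (t 12 2 (u 8 2 (k v (k (u 16 5 (k v (k v r))) r)))) r)))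
 .z .z) .z)) (.s 0x3e7fd600fa20 4082 (n false (n true (z 79) e) (n true (n true (n false (n false e e) (n false e e)) e) e)) (u 4 0 (k v (k (u 8 7 (k v (k v (k v (k (c 24 4099 r (u 16 1 (k v (k v r)))) r))))) r)))
 (.s 0x3e7f7e00fa20 4086 (n false (n true (z 119) e) (n true (n true (n false (n false e e) (n false e e)) e) e)) (u 4 26 (k v (k (c 12 4101 r r) (k (c 8 4101 r r) (k (c 8 4101 r r) r)))))
 (.s 0x3e7f7e00ee10 4090 (n false (n true (z 119) e) (n true (n false (n true (n false e e) e) (n false e e)) e)) (u 4 7 (k v (k v (k v (k (c 8 4097 r (u 12 1 (k v (k v r)))) (k (c 8 4097 r r) (k (c 12 4097 r r) (k (c 12 4097 r r) (k (c 12 4097 r r) (k (c 12 4097 r r) r))))))))))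
 .z .z) (.s 0x3e7f7e00fe80 4091 (n false (n true (z 119) e) (n true (n true (n true (n false (n false e e) e) e) e) e)) (u 4 43 (k v (k v (k v (k (c 8 4097 r (u 12 1 (k v (k v r)))) (k (c 8 4097 r r) (k (c 12 4097 r r) (k (c 12 4097 r (u 8 8 (k v (k v (k (c 24 4097 r (u 16 1 (k v (k v r)))) (k (c 24 4097 r (u 16 1 (k v (k v r)))) (k (c 24 4097 r (u 16 1 (k v (k v r)))) (k (c 16 4097 r (u 24 1 (k v (k v r)))) r)))))))) (k (c 12 4097 r r) r)))))))))
 .z .z)) (.s 0x3e95df004288 4079 (n false (n true (n false (z 52) (n false e e)) e) (n false (n false e e) (n false e e))) (u 8 42 (k v (k v (k v (k (t 24 1 (u 16 3 (k v (k v r)))) r)))))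
 (.s 0x3e955f0043a0 4084 (n false (n true (n false (z 48) (n false e e)) e) (n true (n false (n false e e) e) e)) (u 8 2 (k v (k (c 24 4099 r (t 16 3 v)) (k (u 16 2 (k v (k v r))) r))))
 .z .z) .z))))

set_option maxRecDepth 100000 in
def N47 : NT :=
(.s 0x3ee775c002a0 4087 (n false (n true (n false (n true (z 37) e) e) e) (n false (n false (n false e e) e) e)) (u 16 47 (k v (k v (k v (k (u 32 0 (k (t 64 3 (t 96 1 v)) r)) (k (u 32 0 (k v (k v (k (t 96 1 (u 64 0 (k (t 128 3 (t 192 1 v)) r))) r)))) r))))))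
 (.s 0x3e9fdf801f40 4089 (n false (n true (n false (z 119) e) e) (n true (n true (n false (n false e e) e) e) e)) (u 8 41 (k v (k v (k v (k (t 24 1 r) (k (c 16 4097 r r) (k (c 16 4097 r (u 24 2 (k v (k (c 56 4097 r (u 40 0 (k v (k v r)))) r)))) (k (c 24 4097 r r) (k (c 24 4097 r r) (k (c 24 4097 r r) (k (c 24 4097 r r) r)))))))))))
 (.s 0x3e97778043a0 4082 (n false (n true (n false (z 106) (n false e e)) e) (n true (n false (n false e e) e) e)) (u 8 8 (k v (k (c 16 4103 r (u 24 0 (k (u 40 0 (k v (k v r))) r))) (k (c 16 4101 r r) (k (c 24 4103 r r) (k (c 24 4100 r r) (k (c 24 4100 r r) r)))))))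
 (.s 0x3e9777004288 4078 (n false (n true (n false (z 42) (n false e e)) e) (n false (n false e e) (n false e e))) (u 8 36 (k v (k v (k (u 16 2 (k v (k v r))) (k r (k (u 16 25 (k v (k v (k v (k (c 32 4097 r (u 48 1 (k v (k v r)))) r))))) (k r r)))))))
 (.s 0x3e95df0043a0 4084 (n false (n true (n false (z 52) (n false e e)) e) (n true (n false (n false e e) e) e)) (u 8 25 (k v (k v (k v (k (t 24 1 (u 16 3 (k v (k v r)))) r)))))
 .z .z) (.s 0x3e97770043a0 4078 (n false (n true (n false (z 42) (n false e e)) e) (n true (n false (n false e e) e) e)) (u 8 3 (k v (k r (k r (k r (k r (k r r)))))))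
 .z .z)) (.s 0x3e9d7d801f40 4087 (n false (n true (n false (z 89) e) e) (n true (n true (n false (n false e e) e) e) e)) (u 8 0 (k v (k v (k v (k (t 24 2 r) r)))))
 (.s 0x3e9d7d801708 4085 (n false (n true (n false (z 89) e) e) (n false (n true (n false e e) e) (n false e e))) (u 8 0 (k v (k v (k v (k (t 24 2 r) r)))))
 .z .z) (.s 0x3e9fdf801708 4088 (n false (n true (n false (z 119) e) e) (n false (n true (n false e e) e) (n false e e))) (u 8 31 (k v (k v (k (t 24 1 r) (k (c 16 4097 r r) (k (c 16 4097 r (u 24 2 (k v (k (c 56 4097 r (u 40 0 (k v (k v r)))) r)))) (k (c 24 4096 r (u 16 0 (k (u 32 0 (k v (k v r))) r))) (k (c 24 4097 r r) (k (c 24 4097 r r) (k (c 24 4097 r r) (k (c 24 4097 r r) (k (c 24 4097 r r) (k (c 24 4097 r r) r)))))))))))))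
 .z .z))) (.s 0x3ee75fe002a0 4087 (n false (n true (n false (n true (z 121) e) e) e) (n false (n false (n false e e) e) e)) (u 16 26 (k v (k v (k v (k (c 48 4099 r (u 32 10 (k v (k v (k v r))))) r)))))
 (.s 0x3ee57f500050 4089 (n false (n true (n false (n true (z 156) e) e) e) (n false (n false e e) e)) (u 16 5 (k v (k v (k (c 48 4099 r (u 32 1 (k v (k v r)))) (k (c 32 4098 r (u 48 1 (k v (k v r)))) (k (c 32 4097 r (u 48 1 (k v (k v r)))) (k (c 32 4099 r (u 48 1 (k v (k v r)))) r)))))))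
 (.s 0x3ea7f56003a0 4082 (n false (n true (n false (n false (z 71) e) e) e) (n true (n false (n false e e) e) e)) (u 16 1 (k v (k (c 48 4099 r (u 32 1 (k v (k v r)))) (k (c 4 4082 r v) (k (c 32 4099 r (u 48 1 (k v (k v r)))) (k (c 32 4099 r (u 48 1 (k v (k v r)))) (k (c 32 4099 r (u 48 1 (k v (k v r)))) r)))))))
 .z .z) (.s 0x3ee5fdc003a0 4079 (n false (n true (n false (n true (z 46) e) e) e) (n true (n false (n false e e) e) e)) (u 16 2 (k v (k (c 48 4099 r (u 32 0 (k v (k v r)))) (k (u 32 1 (k v (k v r))) (k (u 32 1 (k v (k v r))) (k (c 48 4097 r (u 32 1 (k v (k v r)))) (k (c 32 4095 r (u 48 1 (k v (k v r)))) r)))))))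
 .z .z)) (.s 0x3ee75fe00850 4079 (n false (n true (n false (n true (z 121) e) (n false e e)) e) (n false (n false e e) e)) (u 16 3 (k v (k v (k (c 48 4099 r (u 32 1 (k v (k v r)))) (k (c 32 4097 r (u 48 1 (k v (k v r)))) r)))))
 (.s 0x3ee75fe003a0 4079 (n false (n true (n false (n true (z 121) e) e) e) (n true (n false (n false e e) e) e)) (u 16 1 (k v (k (c 48 4099 r (u 32 1 (k v (k v r)))) (k (c 32 4097 r (u 48 1 (k v (k v r)))) (k (c 32 4095 r (u 48 0 (k v (k v r)))) (k (c 32 4095 r (u 48 0 (k v (k v r)))) r))))))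
 .z .z) .z))) (.s 0x3f95df001708 4084 (n false (n true (n true (z 52) e) e) (n false (n true (n false e e) e) (n false e e))) (u 8 8 (k v (k v (k v (k v (k v (k (t 24 1 (u 16 0 (k v (k v r)))) r)))))))
 (.s 0x3ee95fd40020 4086 (n false (n true (n false (n true (n false (z 156) e) e) (n false e e)) e) e) (u 32 1 (k v (k (c 96 4099 r (u 64 1 (k v (k v r)))) (k (c 64 4098 r (u 96 1 (k v (k v r)))) (k (c 64 4097 r (u 96 1 (k v (k v r)))) (k (c 64 4099 r (u 96 1 (k v (k v r)))) (k (c 64 4095 r (c 8 4076 r v)) r)))))))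
 (.s 0x3ee7776003a0 4084 (n false (n true (n false (n true (z 85) e) e) e) (n true (n false (n false e e) e) e)) (u 16 20 (k v (k v (k (c 48 4099 r (u 32 253 (k v (k v (k v (k (t 96 1 (u 64 2 (k v (k v r)))) r)))))) (k (c 48 4099 r r) (k (c 2 4082 r v) (k (c 48 4096 r r) (k (c 48 4097 r (u 32 43 (k v (k v (k v r))))) r))))))))
 (.s 0x3ee775c003a0 4079 (n false (n true (n false (n true (z 37) e) e) e) (n true (n false (n false e e) e) e)) (u 16 0 (k v (k (u 32 0 (k (t 64 3 (t 96 1 v)) r)) (k (u 32 0 (k (t 64 3 (t 96 1 v)) r)) (k (u 32 2 (k v (k v (k v (k (t 96 1 (u 64 0 (k (t 128 3 (t 192 1 v)) r))) r))))) (k (u 32 2 (k v (k v (k v (k (t 96 1 (u 64 0 (k (t 128 3 (t 192 1 v)) r))) r))))) (k (u 32 6 (k v (k (t 96 1 (u 64 10 (k v (k v r)))) r))) r)))))))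
 .z .z) (.s 0x3ee7df6003a0 4081 (n false (n true (n false (n true (z 91) e) e) e) (n true (n false (n false e e) e) e)) (u 16 4 (k v (k v (k (u 32 1 (k v (k v r))) (k (c 32 4097 r (u 48 0 (k v (k v r)))) (k (c 32 4097 r (u 48 0 (k v (k v r)))) (k (c 32 4096 r (u 48 0 (k v (k v r)))) (k (c 32 4095 r (u 48 0 (k v (k v r)))) r))))))))
 .z .z)) (.s 0x3f9557801708 4082 (n false (n true (n true (z 96) e) e) (n false (n true (n false e e) e) (n false e e))) (u 8 0 (k (t 24 2 (u 16 0 (k (c 48 4099 r (u 32 0 (k v (k v (k (c 16 4084 (u 4 1 (k v (k v r))) v) r))))) r))) r))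
 (.s 0x3eee7d5c0020 4087 (n false (n true (n false (n true (n false (n true (z 35) e) e) e) (n false e e)) e) e) (u 64 7 (k v (k v (k v (k v r)))))
 .z .z) .z)) (.s 0x3f95fd4002a0 4090 (n false (n true (n true (z 156) e) e) (n false (n false (n false e e) e) e)) (u 8 1 (k v (k (c 24 4099 r (u 16 1 (k v (k v r)))) (k (c 16 4098 r (u 24 1 (k v (k v r)))) (k (c 16 4097 r (u 24 1 (k v (k v r)))) (k (c 16 4099 r (u 24 1 (k v (k v r)))) (k (c 16 4095 r (u 24 0 (k v (k v r)))) r)))))))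
 (.s 0x3f95df001d40 4086 (n false (n true (n true (z 52) e) e) (n true (n false (n false (n false e e) e) e) e)) (u 8 4 (k v (k v (k v (k v (k (t 24 1 (u 16 0 (k v (k v r)))) r))))))
 (.s 0x3f95df001d10 4078 (n false (n true (n true (z 52) e) e) (n true (n false (n false e e) (n false e e)) e)) (u 8 32 (k v (k v (k v (k v (k v (k v (k v (k (c 4 4081 r v) (k (t 24 2 (u 16 0 (k (u 32 2 (k v (k (c 4 4078 (u 16 1 (k v (k v r))) v) r))) r))) (k (t 24 1 (u 16 0 (k (c 48 4099 r (u 32 2 (k v (k (c 4 4078 (u 16 1 (k v (k v r))) v) r)))) r))) r)))))))))))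
 .z .z) (.s 0x3f95df001f40 4084 (n false (n true (n true (z 52) e) e) (n true (n true (n false (n false e e) e) e) e)) (u 8 8 (k v (k v (k v (k v (k v (k (t 24 1 (u 16 0 (k v (k v r)))) r)))))))
 .z .z)) (.s 0x3f97ff001708 4082 (n false (n true (n true (z 62) e) e) (n false (n true (n false e e) e) (n false e e))) (u 8 4 (k v (k v (k v (k (t 24 1 r) r)))))
 (.s 0x3f95fd4003a0 4089 (n false (n true (n true (z 156) e) e) (n true (n false (n false e e) e) e)) (u 8 1 (k v (k (c 24 4099 r (u 16 1 (k v (k v r)))) (k (c 16 4098 r (u 24 1 (k v (k v r)))) (k (c 16 4097 r (u 24 1 (k v (k v r)))) (k (c 16 4099 r (u 24 1 (k v (k v r)))) (k (c 16 4095 r (u 24 0 (k v (k v r)))) r)))))))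
 .z .z) .z))))

set_option maxRecDepth 100000 in
def N48 : NT :=
(.s 0x3fe57f500050 4089 (n false (n true (n true (n true (z 156) e) e) e) (n false (n false e e) e)) (u 16 1 (k v (k (c 48 4099 r (u 32 1 (k v (k v r)))) (k (c 32 4098 r (u 48 1 (k v (k v r)))) (k (c 32 4097 r (u 48 1 (k v (k v r)))) (k (c 32 4099 r (u 48 1 (k v (k v r)))) (k (c 32 4095 r (u 48 0 (k v (k v r)))) r)))))))
 (.s 0x3f9fdf801708 4089 (n false (n true (n true (z 119) e) e) (n false (n true (n false e e) e) (n false e e))) (u 8 30 (k v (k v (k v (k (t 24 1 r) (k (c 16 4097 r r) (k (c 16 4097 r (u 24 2 (k v (k (c 56 4097 r (u 40 0 (k v (k v r)))) r)))) (k (c 24 4097 r r) (k (c 24 4097 r r) (k (c 24 4097 r r) (k (c 24 4097 r r) r)))))))))))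
 (.s 0x3f9fd5801d10 4083 (n false (n true (n true (z 71) e) e) (n true (n false (n false e e) (n false e e)) e)) (u 8 7 (k v (k v (k v (k (c 24 4099 r (u 16 1 (k v (k v r)))) r)))))
 (.s 0x3f9f5f001708 4084 (n false (n true (n true (z 51) e) e) (n false (n true (n false e e) e) (n false e e))) (u 8 0 (k (t 24 1 (u 16 0 (k (t 32 3 (t 48 3 v)) r))) r))
 (.s 0x3f9d7d801d10 4079 (n false (n true (n true (z 89) e) e) (n true (n false (n false e e) (n false e e)) e)) (u 8 2 (k v (k v (k v (k (t 24 2 r) r)))))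
 .z .z) (.s 0x3f9fd5801708 4087 (n false (n true (n true (z 71) e) e) (n false (n true (n false e e) e) (n false e e))) (u 8 6 (k r (k r (k (u 16 0 (k v (k (t 48 1 r) (k (t 32 2 r) (k (t 32 1 r) r))))) (k (t 16 1 r) (k (t 16 1 r) (k (t 16 1 r) r)))))))
 .z .z)) (.s 0x3f9fd7801708 4083 (n false (n true (n true (z 103) e) e) (n false (n true (n false e e) e) (n false e e))) (u 8 1 (k v (k (t 24 1 r) (k (t 16 2 r) (k (t 16 1 r) r)))))
 (.s 0x3f9fd5801f40 4091 (n false (n true (n true (z 71) e) e) (n true (n true (n false (n false e e) e) e) e)) (u 8 9 (k v (k v (k (t 24 2 (u 16 15 (k v (k v (k v r))))) (k (c 8 4097 r v) r)))))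
 .z .z) (.s 0x3f9fdf001d10 4078 (n false (n true (n true (z 55) e) e) (n true (n false (n false e e) (n false e e)) e)) (u 8 4 (k (t 24 1 (u 16 14 (k v (k (c 48 4099 r (t 32 3 v)) (k (u 32 4 (k v (k (t 96 1 (u 64 4 (k v (k v r)))) r))) (k (u 32 4 (k v (k (t 96 1 (u 64 4 (k v (k v r)))) r))) (k (c 2 4080 (u 16 0 (k r (k r r))) v) (k (c 2 4082 r v) r)))))))) (k (t 24 2 (u 16 2 (k v (k (c 2 4081 (u 16 1 (k v (k v r))) v) r)))) r)))
 .z .z))) (.s 0x3fb9dd700050 4087 (n false (n true (n true (n false (n true (z 37) e) e) e) e) (n false (n false e e) e)) (u 32 47 (k v (k v (k v (k (u 64 0 (k (t 128 3 (t 192 1 v)) r)) (k (u 64 23 (k v (k v (k v (k (t 192 1 (u 128 0 (k (t 256 3 (t 384 1 v)) r))) r))))) r))))))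
 (.s 0x3fa5ddc01050 4084 (n false (n true (n true (n false (z 42) (n false e e)) e) e) (n false (n false e e) e)) (u 16 11 (k v (k v (k (c 4 4085 (t 12 1 (u 8 0 (k r r))) v) r))))
 (.s 0x3f9fdf801f40 4091 (n false (n true (n true (z 119) e) e) (n true (n true (n false (n false e e) e) e) e)) (u 8 43 (k v (k v (k v (k (t 24 1 r) (k (c 16 4097 r (u 24 9 (k v (k v (k (u 40 1 (k v (k v r))) r))))) (k (c 24 4097 r (u 16 30 (k v (k v (k v (k (c 32 4097 r (u 48 1 (k v (k v r)))) r)))))) (k (c 24 4097 r r) (k (c 24 4097 r r) r)))))))))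
 .z .z) (.s 0x3fb9d7f80050 4087 (n false (n true (n true (n false (n true (z 121) e) e) e) e) (n false (n false e e) e)) (u 32 26 (k v (k v (k v (k (c 96 4099 r (u 64 6 (k v (k v (k v r))))) r)))))
 .z .z)) (.s 0x3fe577c003a0 4084 (n false (n true (n true (n true (z 52) e) e) e) (n true (n false (n false e e) e) e)) (u 16 8 (k v (k v (k v (k v (k v (k (t 48 1 (u 32 0 (k v (k v r)))) r)))))))
 (.s 0x3fe577c00288 4078 (n false (n true (n true (n true (z 52) e) e) e) (n false (n false e e) (n false e e))) (u 16 258 (k v (k v (k v (k v (k v (k v (k v (k (c 8 4081 r v) (k (t 48 2 (u 32 0 (k (u 64 2 (k v (k (c 8 4078 (u 16 1 (k v (k v r))) v) r))) r))) (k (t 48 1 (u 32 0 (k (c 96 4099 r (u 64 2 (k v (k (c 8 4078 (u 16 1 (k v (k v r))) v) r)))) r))) r)))))))))))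
 .z .z) .z))) (.s 0x1cebf802a2288 4091 (n false (z 57) (n false (n false (n false e e) (n false e e)) (n false (n false e e) (n false e e)))) (u 2 0 (k v (k (t 4 3 (t 6 3 v)) (k (t 6 1 (u 4 0 (k v (k v r)))) r))))
 (.s 0x1caef802ee108 4077 (n false (z 52) (n false (n true (n false (n true (n false e e) e) (n false e e)) e) (n false e e))) (u 2 55 (k v (k v (k v (k v (k v (k v (k v (k (c 3 4089 v r) (k (t 6 2 (u 4 0 (k (u 8 2 (k v (k (c 3 4089 v (u 16 1 (k v (k v r)))) r))) r))) (k (t 6 1 (u 4 0 (k (c 12 4099 r (u 8 2 (k v (k (c 3 4089 v (u 16 1 (k v (k v r)))) r)))) r))) r)))))))))))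
 (.s 0x3fe7f7c00288 4078 (n false (n true (n true (n true (z 55) e) e) e) (n false (n false e e) (n false e e))) (u 16 4 (k (t 48 1 (u 32 14 (k v (k (c 96 4099 r (t 64 3 v)) (k (u 64 4 (k v (k (t 192 1 (u 128 4 (k v (k v r)))) r))) (k (u 64 4 (k v (k (t 192 1 (u 128 4 (k v (k v r)))) r))) (k (c 4 4080 (u 16 0 (k r (k r r))) v) (k (c 4 4082 r v) r)))))))) (k (t 48 2 (u 32 2 (k v (k (c 4 4081 (u 16 1 (k v (k v r))) v) r)))) r)))
 (.s 0x3fe75d6003a0 4092 (n false (n true (n true (n true (z 73) e) e) e) (n true (n false (n false e e) e) e)) (u 16 0 (k (u 32 112 (k v (k v (k v (k v (k (c 64 4101 r (u 96 0 (k v (k v r)))) (k (c 16 4097 r v) (k (c 96 4101 r (u 64 1 (k v (k v r)))) (k (c 96 4102 r (u 64 1 (k v (k v r)))) (k (c 64 4101 r (u 96 1 (k v (k v r)))) (k (c 64 4101 r (u 96 1 (k v (k v r)))) r))))))))))) r))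
 .z .z) (.s 0x1caef802ae108 4077 (n false (z 52) (n false (n false (n false (n true (n false e e) e) (n false e e)) e) (n false e e))) (u 2 55 (k v (k v (k v (k v (k v (k v (k v (k (c 3 4089 v r) (k (t 6 2 (u 4 0 (k (u 8 2 (k v (k (c 3 4089 v (u 16 1 (k v (k v r)))) r))) r))) (k (t 6 1 (u 4 0 (k (c 12 4099 r (u 8 2 (k v (k (c 3 4089 v (u 16 1 (k v (k v r)))) r)))) r))) r)))))))))))
 .z .z)) (.s 0x1cbffc02ee108 4082 (n false (z 126) (n false (n true (n false (n true (n false e e) e) (n false e e)) e) (n false e e))) (u 2 3 (k v (k (t 6 1 r) (k (t 6 1 (u 4 0 (k v (k v (k (c 12 4099 r (u 8 8 (k v (k v (k v r))))) r))))) r))))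
 (.s 0x1cbff802a2288 4091 (n false (z 62) (n false (n false (n false e e) (n false e e)) (n false (n false e e) (n false e e)))) (u 2 1 (k v (k v (k v (k (t 6 1 r) r)))))
 .z .z) .z)) (.s 0x1cefb802ba208 4082 (n false (n false (n false (n true (n false (n false e e) (n false e e)) e) e) (n false e e)) (z 45)) (u 3 4 (k v (k (t 7 1 (u 5 2 (k v (k v r)))) r)))
 (.s 0x1ceeaa007dc20 4077 (n false (z 133) (n true (n true (n false (n true (n false e e) e) (n false e e)) e) e)) (u 2 0 (k (t 6 1 r) (k (t 6 1 r) (k (t 6 1 r) (k (t 6 1 r) (k (t 4 2 r) (k (t 6 1 r) (k (t 4 2 r) (k (t 4 1 r) r)))))))))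
 (.s 0x1ceeaa0075110 4085 (n false (z 133) (n true (n false (n false (n false e e) (n false e e)) (n false e e)) e)) (u 2 6 (k v (k (t 6 1 r) (k (t 6 1 r) (k (t 4 2 r) (k (t 4 1 r) r))))))
 .z .z) (.s 0x1ceef802ee108 4082 (n false (z 53) (n false (n true (n false (n true (n false e e) e) (n false e e)) e) (n false e e))) (u 2 0 (k (t 6 1 r) (k (t 6 1 (u 4 49 (k v (k v (k (c 12 4099 r r) (k (t 12 1 (u 8 3 (k v (k v r)))) (k (c 3 4089 v r) (k (c 12 4096 r (u 8 8 (k v (k v r)))) r)))))))) r)))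
 .z .z)) (.s 0x1cefea005d108 4087 (n false (z 157) (n false (n true (n false (n false e e) (n false e e)) e) (n false e e))) (u 2 0 (k v (k (t 6 1 (u 4 1 (k v (k (c 12 4099 r (u 8 1 (k v (k v r)))) (k (c 8 4098 r (u 12 1 (k v (k v r)))) (k (c 8 4097 r (c 3 4090 v r)) (k (c 8 4099 r (u 12 1 (k v (k v r)))) (k (c 8 4095 r (c 3 4090 v r)) r)))))))) (k (t 6 1 (u 4 0 (k (u 8 7 (k v (k v (k (t 24 1 (u 16 0 (k v (k (c 48 4099 r (u 32 0 (k v (k v r)))) r)))) r)))) r))) (k (t 6 2 r) r)))))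
 (.s 0x1cefb802ee108 4084 (n false (n false (n true (n false (n true (n false e e) e) (n false e e)) e) (n false e e)) (z 45)) (u 3 8 (k v (k v (k (t 7 1 (u 5 0 (k v (k (u 9 0 (k (t 17 3 (t 25 1 v)) r)) (k (u 9 0 (k (t 17 3 (t 25 1 v)) r)) (k (u 9 0 (k v (k v (k (t 25 1 (u 17 0 (k (t 33 3 (t 49 1 v)) r))) r)))) (k (u 9 0 (k v (k v (k (t 25 1 (u 17 0 (k (t 33 3 (t 49 1 v)) r))) r)))) (k (u 9 3 (k v (k v r))) r)))))))) r))))
 .z .z) .z))))

set_option maxRecDepth 100000 in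
def N49 : NT :=
(.s 0x1d2aff00fb840 4071 (n false (n false (z 120) (n true (n true (n false (n true (n false e e) e) (n false e e)) e) e)) e) (u 4 4 (k (c 12 4099 r r) (k (c 12 4100 r r) (k (c 12 4099 r r) (k (c 12 4100 r r) (k (c 8 4095 r r) (k (c 12 4097 r r) (k (c 8 4097 r r) (k (c 12 4096 r r) (k (c 12 4096 r (u 8 0 (k (u 16 0 (k v (k v r))) r))) (k (c 12 4100 r (u 8 0 (k (u 16 0 (k v (k v r))) r))) (k (c 12 4101 r r) (k (c 8 4099 r r) (k (c 12 4100 r r) (k (c 12 4097 r r) (k (c 12 4099 r r) (k (c 8 4095 r r) (k (c 8 4099 r r) (k (c 12 4097 r r) r)))))))))))))))))))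
 (.s 0x1d2aff005d108 4089 (n false (n false (z 120) e) (n false (n true (n false (n false e e) (n false e e)) e) (n false e e))) (u 4 30 (k v (k v (k v (k (c 12 4101 r (u 8 5 (k v (k v r)))) (k (c 8 4099 r (u 12 0 (k v (k v r)))) (k (c 12 4096 r (c 3 4090 v r)) (k (c 12 4096 r (c 3 4090 v r)) (k (c 12 4099 r (u 8 1 (k v (k v r)))) (k (c 8 4098 r (c 3 4090 v r)) (k (c 8 4101 r (u 12 0 (k v (k v r)))) (k (c 12 4099 r (u 8 1 (k v (k v r)))) (k (c 8 4101 r (u 12 0 (k v (k v r)))) r)))))))))))))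
 (.s 0x1d2aaa8011708 4078 (n false (n false (z 128) (n false e e)) (n false (n true (n false e e) e) (n false e e))) (u 4 4 (k v (k (c 12 4097 r r) (k (c 8 4095 r (c 3 4092 v r)) (k (c 8 4098 r (c 3 4092 v (u 12 0 (k (u 20 0 (k v (k v r))) r)))) (k (c 12 4099 r r) (k (c 8 4096 r r) (k (c 8 4095 r (c 3 4092 v r)) (k (c 8 4095 r r) (k (c 8 4095 r (u 12 0 (k v (k v r)))) (k (c 12 4095 r (c 3 4092 v r)) (k (c 12 4095 r (u 8 1 (k v (k v r)))) (k (c 8 4097 r (u 12 0 (k v (k v r)))) (k (c 8 4095 r r) (k (c 8 4095 r (u 12 1 (k v (k v r)))) (k (c 8 4097 r r) r))))))))))))))))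
 (.s 0x1cfbec03fb840 4084 (n false (z 91) (n true (n true (n true (n false (n true (n false e e) e) (n false e e)) e) e) e)) (u 2 4 (k v (k v (k (u 4 1 (k v (k v r))) (k (c 4 4097 r (u 6 0 (k v (k v r)))) (k (c 4 4097 r (u 6 0 (k v (k v r)))) (k (c 4 4096 r (u 6 0 (k v (k v r)))) (k (c 4 4095 r (u 6 0 (k v (k v r)))) r))))))))
 (.s 0x1cfbaa0075110 4089 (n false (z 139) (n true (n false (n false (n false e e) (n false e e)) (n false e e)) e)) (u 2 3 (k v (k (t 6 2 (u 4 0 (k (t 12 2 (u 8 0 (k (t 24 1 (u 16 10 (k v (k v (k r (k r (k (c 2 4070 r v) (k (c 24 4099 v (c 6 4094 v (u 32 0 (k (u 64 0 (k v (k v r))) r)))) (k (u 32 7 (k v (k v (k (c 96 4099 r (u 64 1 (k v (k v r)))) r)))) (k (u 32 4 (k v (k (c 96 4099 r (u 64 1 (k v (k v r)))) r))) r)))))))))) r))) r))) r)))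
 .z .z) (.s 0x1cfebc03fb840 4085 (n false (z 103) (n true (n true (n true (n false (n true (n false e e) e) (n false e e)) e) e) e)) (u 2 1 (k v (k (t 6 1 r) (k (t 4 2 r) (k (t 4 1 r) r)))))
 .z .z)) (.s 0x1d2aeb008ee10 4075 (n false (n false (z 72) (n false e e)) (n true (n false (n true (n false e e) e) (n false e e)) e)) (u 4 0 (k (c 12 4099 r (u 8 9 (k v (k (u 16 0 (k (u 32 0 (k v (k v r))) r)) (k r (k (c 24 4099 r r) (k r (k (c 5 4092 v r) (k r (k (u 16 2 (k v (k (c 48 4099 r (u 32 1 (k v (k v r)))) (k (c 32 4095 r (u 48 0 (k v (k v r)))) r)))) r)))))))))) r))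
 (.s 0x1d2aaa801dc20 4079 (n false (n false (z 128) (n true (n false (n true (n false e e) e) (n false e e)) e)) e) (u 4 4 (k v (k (c 12 4097 r r) (k (c 8 4095 r (c 10 4092 v r)) (k (c 8 4098 r (c 10 4092 v (u 12 0 (k (u 20 0 (k v (k v r))) r)))) (k (c 12 4099 r r) (k (c 8 4096 r r) (k (c 8 4095 r (c 10 4092 v r)) (k (c 8 4095 r r) (k (c 8 4095 r (u 12 0 (k v (k v r)))) (k (c 12 4095 r (c 10 4092 v r)) (k (c 12 4095 r (u 8 1 (k v (k v r)))) (k (c 8 4097 r (u 12 0 (k v (k v r)))) (k (c 8 4095 r r) (k (c 8 4095 r (u 12 1 (k v (k v r)))) (k (c 8 4097 r r) r))))))))))))))))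
 .z .z) (.s 0x1d2afe00e1708 4064 (n false (n false (z 56) (n true (n false e e) e)) (n false (n true (n false e e) e) (n false e e))) (u 4 0 (k r (k (c 8 4096 r (u 12 0 (k v (k v r)))) (k (u 8 1 (k v (k v r))) (k (c 12 4096 r r) r)))))
 .z .z))) (.s 0x1d2aff008ee10 4069 (n false (n false (z 120) (n false e e)) (n true (n false (n true (n false e e) e) (n false e e)) e)) (u 4 4 (k (c 12 4099 r r) (k (c 12 4100 r r) (k (c 12 4099 r r) (k (c 12 4100 r r) (k (c 8 4095 r r) (k (c 12 4097 r r) (k (c 8 4097 r r) (k (c 12 4096 r r) (k (c 12 4096 r (u 8 0 (k (u 16 0 (k v (k v r))) r))) (k (c 12 4100 r (u 8 0 (k (u 16 0 (k v (k v r))) r))) (k (c 12 4101 r r) (k (c 8 4099 r r) (k (c 12 4100 r r) (k (c 12 4097 r r) (k (c 12 4099 r r) (k (c 8 4095 r r) (k (c 8 4099 r r) (k (c 12 4097 r r) r)))))))))))))))))))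
 (.s 0x1d2aff007dc20 4084 (n false (n false (z 120) e) (n true (n true (n false (n true (n false e e) e) (n false e e)) e) e)) (u 4 6 (k v (k v (k (c 12 4099 r r) (k (c 12 4099 r r) (k (c 8 4095 r r) (k (c 12 4097 r r) (k (c 12 4096 r (c 3 4090 v r)) (k (c 12 4096 r (u 8 0 (k (u 16 0 (k v (k v r))) r))) (k (c 8 4099 r r) (k (c 12 4100 r r) (k (c 12 4097 r r) (k (c 12 4099 r r) (k (c 8 4099 r r) (k (c 12 4097 r r) r)))))))))))))))
 (.s 0x1d2aff0075c20 4085 (n false (n false (z 120) e) (n true (n false (n false (n true (n false e e) e) (n false e e)) e) e)) (u 4 18 (k v (k v (k (c 12 4099 r r) (k (c 12 4099 r r) (k (c 12 4096 r (c 3 4090 v r)) (k (c 8 4099 r r) (k (c 12 4100 r r) (k (c 12 4097 r r) (k (c 12 4099 r (u 8 5 (k v (k (c 24 4097 r (u 16 1 (k v (k v r)))) (k (c 24 4096 r (u 16 1 (k v (k v r)))) (k (c 16 4098 r (u 24 0 (k v (k v r)))) (k (c 24 4096 r (u 16 1 (k v (k v r)))) (k (c 24 4097 r (u 16 1 (k v (k v r)))) (k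 (c 24 4097 r (u 16 1 (k v (k v r)))) (k (c 24 4096 r (u 16 1 (k v (k v r)))) (k (c 16 4097 r (u 24 1 (k v (k v r)))) r))))))))))) (k (c 8 4099 r r) (k (c 12 4097 r r) r))))))))))))
 .z .z) (.s 0x1d2aff008ae10 4076 (n false (n false (z 120) (n false e e)) (n false (n false (n true (n false e e) e) (n false e e)) e)) (u 4 5 (k v (k (c 12 4099 r r) (k (c 12 4100 r r) (k (c 12 4099 r r) (k (c 12 4100 r r) (k (c 8 4095 r r) (k (c 12 4097 r r) (k (c 12 4096 r r) (k (c 12 4096 r (u 8 0 (k (u 16 0 (k v (k v r))) r))) (k (c 12 4100 r (u 8 0 (k (u 16 0 (k v (k v r))) r))) (k (c 12 4101 r r) (k (c 8 4099 r r) (k (c 12 4100 r r) (k (c 12 4097 r r) (k (c 12 4099 r r) (k (c 8 4099 r r) (k (c 12 4097 r r) r))))))))))))))))))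
 .z .z)) (.s 0x1d2aff00ee108 4083 (n false (n false (z 120) (n true (n false (n true (n false e e) e) (n false e e)) e)) (n false e e)) (u 4 10 (k v (k v (k v (k (c 12 4101 r r) (k (c 8 4099 r (u 12 0 (k v (k v r)))) (k (c 12 4096 r (c 10 4092 v r)) (k (c 8 4102 r r) (k (c 12 4099 r (u 8 1 (k v (k v r)))) (k (c 8 4098 r (u 12 1 (k v (k v r)))) (k (c 8 4101 r (u 12 0 (k v (k v r)))) (k (c 12 4097 r r) (k (c 12 4099 r (u 8 1 (k v (k v r)))) (k (c 8 4101 r (u 12 0 (k v (k v r)))) r))))))))))))))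
 (.s 0x1d2aff00ae108 4084 (n false (n false (z 120) (n false (n false (n true (n false e e) e) (n false e e)) e)) (n false e e)) (u 4 10 (k v (k v (k v (k (c 12 4101 r (u 8 5 (k v (k v r)))) (k (c 8 4099 r (u 12 0 (k v (k v r)))) (k (c 12 4096 r (c 2 4086 r v)) (k (c 8 4102 r r) (k (c 12 4099 r (u 8 1 (k v (k v r)))) (k (c 8 4098 r (u 12 1 (k v (k v r)))) (k (c 8 4101 r (u 12 0 (k v (k v r)))) (k (c 12 4097 r (u 8 1 (k v (k v (k v (k (t 24 1 (u 16 4 (k v (k v r)))) r)))))) (k (c 12 4099 r (u 8 1 (k v (k v r)))) (k (c 8 4101 r (u 12 0 (k v (k v r)))) r))))))))))))))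
 .z .z) .z))) (.s 0x1d2bff008a888 4085 (n false (n false (z 124) (n false e e)) (n false (n false (n false e e) (n false e e)) (n false e e))) (u 4 5 (k v (k (c 12 4097 r (u 8 1 (k v (k v r)))) (k (c 12 4096 r (u 8 1 (k v (k v r)))) (k (c 8 4098 r (u 12 0 (k v (k v r)))) (k (c 12 4096 r (u 8 1 (k v (k v r)))) (k (c 12 4097 r (u 8 1 (k v (k v r)))) (k (c 12 4097 r (u 8 1 (k v (k v r)))) (k (c 12 4096 r (u 8 1 (k v (k v r)))) (k (c 8 4097 r (u 12 1 (k v (k v r)))) r))))))))))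
 (.s 0x1d2bbe00e83a0 4078 (n false (n false (n true (n false (n false e e) e) e) (z 52)) (n true (n false (n false e e) e) e)) (u 6 223 (k v (k v (k v (k v (k v (k v (k (t 14 1 (u 10 0 (k v (k v r)))) r))))))))
 (.s 0x1d2bbe008fa20 4077 (n false (n false (z 52) (n false e e)) (n true (n true (n false (n false e e) (n false e e)) e) e)) (u 4 40 (k v (k v (k v (k v (k (t 12 1 (u 8 0 (k v (k v r)))) r))))))
 (.s 0x1d2baf008ee10 4073 (n false (n false (z 100) (n false e e)) (n true (n false (n true (n false e e) e) (n false e e)) e)) (u 4 0 (k (c 12 4096 r r) (k (c 12 4096 r r) (k (c 12 4096 r r) (k (c 12 4097 r r) (k (c 12 4096 r r) (k (c 12 4096 r r) r)))))))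
 .z .z) (.s 0x1d2bbe00a83a0 4080 (n false (n false (z 52) (n false (n false (n false e e) e) e)) (n true (n false (n false e e) e) e)) (u 4 166 (k v (k v (k v (k v (k (t 12 1 (u 8 2 (k v (k v r)))) r))))))
 .z .z)) (.s 0x1d2bfa801dc20 4082 (n false (n false (z 156) (n true (n false (n true (n false e e) e) (n false e e)) e)) e) (u 4 1 (k v (k (c 12 4099 r (u 8 1 (k v (k v r)))) (k (c 8 4098 r (u 12 1 (k v (k v r)))) (k (c 8 4097 r (u 12 1 (k v (k v r)))) (k (c 8 4099 r (u 12 1 (k v (k v r)))) (k (c 8 4095 r (c 10 4092 v r)) r)))))))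
 (.s 0x1d2bfa8011708 4082 (n false (n false (z 156) (n false e e)) (n false (n true (n false e e) e) (n false e e))) (u 4 1 (k v (k (c 12 4099 r (u 8 1 (k v (k v r)))) (k (c 8 4098 r (u 12 1 (k v (k v r)))) (k (c 8 4097 r (u 12 1 (k v (k v r)))) (k (c 8 4099 r (u 12 1 (k v (k v r)))) (k (c 8 4095 r (c 3 4092 v r)) r)))))))
 .z .z) .z)) (.s 0x1d2eee008ae10 4080 (n false (n false (z 42) (n false e e)) (n false (n false (n true (n false e e) e) (n false e e)) e)) (u 4 11 (k v (k v (k (c 2 4086 (t 6 1 (u 4 0 (k r r))) v) r))))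
 (.s 0x1d2bff00ee108 4067 (n false (n false (z 124) (n true (n false (n true (n false e e) e) (n false e e)) e)) (n false e e)) (u 4 1 (k v (k (c 12 4097 r (u 8 1 (k v (k v r)))) (k (c 12 4096 r (u 8 1 (k v (k v r)))) (k (c 8 4098 r (u 12 0 (k v (k v r)))) (k (c 12 4096 r (u 8 1 (k v (k v r)))) (k (c 12 4097 r (u 8 1 (k v (k v r)))) (k (c 12 4097 r (u 8 1 (k v (k v r)))) (k (c 12 4096 r (u 8 1 (k v (k v r)))) (k (c 12 4099 r (u 8 1 (k v (k v r)))) (k (c 8 4097 r (u 12 1 (k v (k v r)))) r)))))))))))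
 (.s 0x1d2bff00e1708 4067 (n false (n false (z 124) (n true (n false e e) e)) (n false (n true (n false e e) e) (n false e e))) (u 4 1 (k v (k (c 12 4097 r (u 8 1 (k v (k v r)))) (k (c 12 4096 r (u 8 1 (k v (k v r)))) (k (c 8 4098 r (u 12 0 (k v (k v r)))) (k (c 12 4096 r (u 8 1 (k v (k v r)))) (k (c 12 4097 r (u 8 1 (k v (k v r)))) (k (c 12 4097 r (u 8 1 (k v (k v r)))) (k (c 12 4096 r (u 8 1 (k v (k v r)))) (k (c 12 4099 r (u 8 1 (k v (k v r)))) (k (c 8 4097 r (u 12 1 (k v (k v r)))) r)))))))))))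
 .z .z) (.s 0x1d2ebe00e1708 4065 (n false (n false (z 50) (n true (n false e e) e)) (n false (n true (n false e e) e) (n false e e))) (u 4 1 (k v (k (c 12 4097 r (u 8 0 (k v (k v r)))) r)))
 .z .z)) (.s 0x1d2eee008fe80 4081 (n false (n false (z 42) (n false e e)) (n true (n true (n true (n false (n false e e) e) e) e) e)) (u 4 11 (k v (k v (k (c 2 4086 (t 6 1 (u 4 0 (k r r))) v) r))))
 (.s 0x1d2eee008ee10 4080 (n false (n false (z 42) (n false e e)) (n true (n false (n true (n false e e) e) (n false e e)) e)) (u 4 11 (k v (k v (k (c 2 4086 (t 6 1 (u 4 0 (k r r))) v) r))))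
 .z .z) .z))))

set_option maxRecDepth 100000 in
def N50 : NT :=
(.s 0x1d3bae00ae108 4078 (n false (n false (z 37) (n false (n false (n true (n false e e) e) (n false e e)) e)) (n false e e)) (u 4 33 (k v (k r (k r (k (u 8 5 (k v (k v r))) (k (u 8 0 (k (t 16 3 (t 24 1 v)) r)) (k (u 8 0 (k (t 16 3 (t 24 1 v)) r)) r)))))))
 (.s 0x1d3afb00e1708 4078 (n false (n false (z 89) (n true (n false e e) e)) (n false (n true (n false e e) e) (n false e e))) (u 4 18 (k v (k v (k v (k v (k (c 12 4110 r r) (k (c 12 4110 r (u 8 1 (k v (k v r)))) (k (t 8 1 (c 6 4094 v (u 12 2 (k v (k v r))))) (k (t 12 2 (c 6 4094 v (u 8 19 (k v (k v (k v r)))))) r)))))))))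
 (.s 0x1d2fee005d108 4082 (n false (n false (n true (n false (n false e e) (n false e e)) e) (n false e e)) (n false (z 46) e)) (u 5 1 (k v (k (c 2 4090 v r) (k (c 13 4099 r (u 9 0 (k v (k v r)))) (k (u 9 1 (k v (k v r))) (k (c 13 4097 r (c 2 4090 v r)) (k (c 9 4095 r (c 2 4090 v r)) r)))))))
 (.s 0x1d2efa00e1708 4077 (n false (n false (z 26) (n true (n false e e) e)) (n false (n true (n false e e) e) (n false e e))) (u 4 0 (k v (k v (k (u 8 9 (k v (k v (k v r)))) r))))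
 (.s 0x1d2efa008ee10 4077 (n false (n false (z 26) (n false e e)) (n true (n false (n true (n false e e) e) (n false e e)) e)) (u 4 2 (k v (k (c 3 4091 v (u 8 1 (k v (k v r)))) r)))
 .z .z) (.s 0x1d2efa00e1d10 4079 (n false (n false (z 26) (n true (n false e e) e)) (n true (n false (n false e e) (n false e e)) e)) (u 4 2 (k v (k (u 8 2 (k v (k v r))) r)))
 .z .z)) (.s 0x1d2fee00e1708 4067 (n false (n false (z 46) (n true (n false e e) e)) (n false (n true (n false e e) e) (n false e e))) (u 4 1 (k v (k (u 8 1 (k v (k v r))) (k (c 12 4099 r (u 8 0 (k v (k v r)))) (k (u 8 1 (k v (k v r))) (k (c 12 4097 r (u 8 1 (k v (k v r)))) (k (c 8 4095 r (u 12 1 (k v (k v r)))) r)))))))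
 (.s 0x1d2fee00a1708 4073 (n false (n false (z 46) (n false (n false e e) e)) (n false (n true (n false e e) e) (n false e e))) (u 4 1 (k v (k (u 8 1 (k v (k v r))) (k (c 12 4099 r (u 8 0 (k v (k v r)))) (k (u 8 1 (k v (k v r))) (k (c 12 4097 r (u 8 1 (k v (k v r)))) (k (c 8 4095 r (u 12 1 (k v (k v r)))) r)))))))
 .z .z) (.s 0x1d2fee00ee108 4067 (n false (n false (z 46) (n true (n false (n true (n false e e) e) (n false e e)) e)) (n false e e)) (u 4 0 (k v (k (u 8 1 (k v (k v r))) (k (u 8 1 (k v (k v r))) (k (c 12 4099 r (u 8 0 (k v (k v r)))) (k (c 12 4097 r (u 8 1 (k v (k v r)))) (k (c 8 4095 r (u 12 1 (k v (k v r)))) r)))))))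
 .z .z))) (.s 0x1d3aff00e8288 4072 (n false (n false (z 121) (n true (n false (n false e e) e) e)) (n false (n false e e) (n false e e))) (u 4 1 (k v (k (c 12 4099 r (u 8 1 (k v (k v r)))) (k (c 8 4097 r (u 12 1 (k v (k v r)))) (k (c 8 4095 r (u 12 0 (k v (k v r)))) (k (c 8 4095 r (u 12 0 (k v (k v r)))) r))))))
 (.s 0x1d3aff005d108 4082 (n false (n false (z 121) e) (n false (n true (n false (n false e e) (n false e e)) e) (n false e e))) (u 4 1 (k v (k (c 12 4099 r (u 8 1 (k v (k v r)))) (k (c 8 4097 r (c 3 4090 v r)) (k (c 8 4095 r (c 3 4090 v r)) (k (c 8 4095 r (c 3 4090 v r)) r))))))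
 (.s 0x1d3afb00ee108 4081 (n false (n false (z 89) (n true (n false (n true (n false e e) e) (n false e e)) e)) (n false e e)) (u 4 7 (k v (k v (k v (k (c 12 4110 r r) (k (c 12 4110 r (u 8 1 (k v (k v r)))) (k (t 8 1 (c 2 4077 (u 6 2 (k v (k v r))) v)) (k (c 12 4110 r r) r))))))))
 .z .z) (.s 0x1d3aff00e1708 4069 (n false (n false (z 121) (n true (n false e e) e)) (n false (n true (n false e e) e) (n false e e))) (u 4 1 (k v (k (c 12 4099 r (u 8 1 (k v (k v r)))) (k (c 8 4097 r (u 12 1 (k v (k v r)))) (k (c 8 4095 r (u 12 0 (k v (k v r)))) (k (c 8 4095 r (u 12 0 (k v (k v r)))) r))))))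
 .z .z)) (.s 0x1d3bae00a8288 4074 (n false (n false (z 37) (n false (n false (n false e e) e) e)) (n false (n false e e) (n false e e))) (u 4 22 (k v (k (u 8 0 (k (t 16 3 (t 24 1 v)) r)) (k r (k r (k (u 8 0 (k (t 16 3 (t 24 1 v)) r)) (k (u 8 10 (k v (k v (k v (k (t 24 1 (u 16 0 (k (t 32 3 (t 48 1 v)) r))) r))))) r)))))))
 (.s 0x1d3aff00ee108 4069 (n false (n false (z 121) (n true (n false (n true (n false e e) e) (n false e e)) e)) (n false e e)) (u 4 1 (k v (k (c 12 4099 r (u 8 1 (k v (k v r)))) (k (c 8 4097 r (u 12 1 (k v (k v r)))) (k (c 8 4095 r (u 12 0 (k v (k v r)))) (k (c 8 4095 r (u 12 0 (k v (k v r)))) r))))))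
 .z .z) .z))) (.s 0x1d3eab005d108 4089 (n false (n false (z 67) e) (n false (n true (n false (n false e e) (n false e e)) e) (n false e e))) (u 4 50 (k v (k v (k v (k (c 8 4101 r (u 12 0 (k v (k v r)))) (k (u 8 9 (k v (k v (k (t 24 2 (u 16 61 (k v (k v (k v r))))) (k (c 2 4084 r v) r))))) (k (c 8 4099 r (u 12 0 (k v (k v r)))) (k (c 12 4101 r (u 8 1 (k v (k v r)))) (k (c 12 4102 r (u 8 1 (k v (k v r)))) (k (c 8 4101 r (u 12 1 (k v (k v r)))) (k (c 8 4101 r (u 12 1 (k v (k v r)))) r)))))))))))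
 (.s 0x1d3bbb00e1708 4069 (n false (n false (z 85) (n true (n false e e) e)) (n false (n true (n false e e) e) (n false e e))) (u 4 10 (k (c 12 4099 r r) (k r (k (c 12 4099 r r) (k r (k (c 12 4101 r r) (k (c 12 4096 r r) (k (c 8 4099 r r) r))))))))
 (.s 0x1d3bae00e8288 4072 (n false (n false (n true (n false (n false e e) e) e) (z 37)) (n false (n false e e) (n false e e))) (u 6 24 (k v (k (u 10 0 (k (t 18 3 (t 26 1 v)) r)) (k r (k (u 10 0 (k (t 18 3 (t 26 1 v)) r)) (k r (k (u 10 6 (k v (k (t 26 1 (u 18 10 (k v (k v r)))) r))) r)))))))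
 (.s 0x1d3bae00e1708 4069 (n false (n false (z 37) (n true (n false e e) e)) (n false (n true (n false e e) e) (n false e e))) (u 4 0 (k v (k (u 8 0 (k (t 16 3 (t 24 1 v)) r)) (k (u 8 0 (k (t 16 3 (t 24 1 v)) r)) (k r (k (u 8 5 (k v (k v (k v (k (t 24 1 (u 16 0 (k (t 32 3 (t 48 1 v)) r))) r))))) (k r r)))))))
 .z .z) (.s 0x1d3bae00ee108 4070 (n false (n false (n true (n false (n true (n false e e) e) (n false e e)) e) (z 37)) (n false e e)) (u 6 33 (k v (k r (k r (k r (k (u 10 0 (k (t 18 3 (t 26 1 v)) r)) (k (u 10 0 (k (t 18 3 (t 26 1 v)) r)) r)))))))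
 .z .z)) (.s 0x1d3bbb00ee108 4067 (n false (n false (z 85) (n true (n false (n true (n false e e) e) (n false e e)) e)) (n false e e)) (u 4 10 (k (c 12 4099 r r) (k (t 12 1 (u 8 4 (k (t 24 1 (u 16 4 (k v (k v (k (u 32 4 (k v (k (t 96 1 (u 64 4 (k v (k v r)))) r))) (k (u 32 4 (k v (k (t 96 1 (u 64 4 (k v (k v r)))) r))) (k (c 12 4099 v r) (k (c 12 4099 v r) r)))))))) (k (t 24 2 (c 12 4099 v r)) r)))) (k (c 12 4099 r r) (k (u 8 2 (k v (k v (k v (k (t 24 2 r) r))))) (k (c 12 4101 r r) (k (c 12 4096 r r) (k (c 8 4099 r r) r))))))))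
 (.s 0x1d3bbb00ea220 4082 (n false (n false (n true (n false (n false (n false e e) (n false e e)) (n false e e)) e) (z 85)) e) (u 6 2 (k v (k r (k (c 14 4099 r r) (k (t 14 1 (u 10 2 (k v (k (t 26 2 (c 14 4099 v (u 18 5 (k v (k v (k (c 6 4082 (u 8 1 (k v (k v r))) v) r)))))) r)))) (k (c 14 4099 r r) (k (c 14 4096 r (u 10 3 (k v (k v r)))) (k (c 10 4099 r r) r))))))))
 .z .z) .z)) (.s 0x1d3eab008ee10 4072 (n false (n false (z 67) (n false e e)) (n true (n false (n true (n false e e) e) (n false e e)) e)) (u 4 115 (k v (k (c 12 4099 r r) (k (c 8 4096 r (u 12 0 (k (u 20 0 (k v (k v r))) r))) (k (c 8 4096 r (u 12 0 (k (u 20 0 (k v (k v r))) r))) (k (c 12 4097 r r) (k (c 12 4099 r r) (k r (k (c 12 4097 r r) (k (c 12 4099 r r) (k (c 8 4100 r r) (k (c 12 4099 r (u 8 0 (k (u 16 0 (k v (k v r))) r))) (k (c 8 4099 r r) (k (c 12 4099 r r) (k (c 8 4099 r (u 12 0 (k (u 20 0 (k v (k v r))) r))) (k (c 12 4100 r r) (k (c 12 4100 r r) (k (c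 12 4099 r r) (k (c 12 4099 r r) (k (c 12 4100 r r) (k (c 12 4099 r r) r)))))))))))))))))))))
 (.s 0x1d3eab007dc20 4080 (n false (n false (z 67) e) (n true (n true (n false (n true (n false e e) e) (n false e e)) e) e)) (u 4 53 (k v (k v (k (c 12 4099 r r) (k (c 8 4096 r (u 12 0 (k (u 20 0 (k v (k v r))) r))) (k (c 8 4096 r (u 12 0 (k (u 20 0 (k v (k v r))) r))) (k (c 12 4097 r r) (k (c 12 4099 r r) (k r (k (c 12 4097 r r) (k (c 12 4099 r r) (k (c 12 4099 r (u 8 0 (k (u 16 0 (k v (k v r))) r))) (k (c 8 4099 r r) (k (c 12 4099 r r) (k (c 8 4099 r (u 12 0 (k (u 20 0 (k v (k v r))) r))) (k (c 12 4100 r (c 3 4090 v r)) (k (c 12 4099 r r) (k (c 12 4099 r r) (k (c 12 4099 r r) r)))))))))))))))))))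
 (.s 0x1d3eab0075c20 4084 (n false (n false (z 67) e) (n true (n false (n false (n true (n false e e) e) (n false e e)) e) e)) (u 4 34 (k v (k v (k v (k v (k (c 12 4099 r r) (k (c 12 4097 r r) (k (c 12 4099 r r) (k (c 2 4088 r v) (k (c 12 4097 r r) (k (c 12 4099 r (u 8 1 (k v (k (c 24 4097 r (u 16 0 (k v (k v r)))) r)))) (k (c 12 4099 r (u 8 0 (k (u 16 0 (k v (k v r))) r))) (k (c 8 4099 r r) (k (c 12 4099 r r) (k (c 8 4099 r (u 12 0 (k (u 20 0 (k v (k v r))) r))) (k (c 12 4099 r r) (k (c 12 4099 r r) (k (c 12 4099 r r) r))))))))))))))))))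
 .z .z) (.s 0x1d3eab008ae10 4075 (n false (n false (z 67) (n false e e)) (n false (n false (n true (n false e e) e) (n false e e)) e)) (u 4 91 (k v (k v (k (c 12 4099 r r) (k (c 12 4097 r r) (k (c 12 4099 r r) (k r (k (c 12 4097 r r) (k (c 12 4099 r r) (k (c 8 4100 r r) (k (c 12 4099 r (u 8 0 (k (u 16 0 (k v (k v r))) r))) (k (c 8 4099 r r) (k (c 12 4099 r r) (k (c 8 4099 r (u 12 0 (k (u 20 0 (k v (k v r))) r))) (k (c 12 4100 r (c 5 4092 v r)) (k (c 12 4100 r r) (k (c 12 4099 r r) (k (c 12 4099 r r) (k (c 12 4100 r r) (k (c 12 4099 r r) r))))))))))))))))))))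
 .z .z)) (.s 0x1d3eab00ee108 4083 (n false (n false (z 67) (n true (n false (n true (n false e e) e) (n false e e)) e)) (n false e e)) (u 4 4 (k v (k v (k (c 12 4096 r r) (k (c 8 4101 r (u 12 0 (k v (k v r)))) (k (c 6 4091 v (c 2 4088 r v)) (k (c 8 4099 r (u 12 0 (k v (k v r)))) (k (c 12 4101 r (u 8 1 (k v (k v r)))) (k (c 12 4102 r (u 8 1 (k v (k v r)))) (k (c 8 4101 r (u 12 1 (k v (k v r)))) (k (c 8 4101 r (u 12 1 (k v (k v r)))) r)))))))))))
 (.s 0x1d3eab00ae108 4083 (n false (n false (z 67) (n false (n false (n true (n false e e) e) (n false e e)) e)) (n false e e)) (u 4 4 (k v (k v (k (c 12 4096 r r) (k (c 8 4101 r (u 12 0 (k v (k v r)))) (k (c 6 4091 v (c 2 4088 r v)) (k (c 8 4099 r (u 12 0 (k v (k v r)))) (k (c 12 4101 r (u 8 1 (k v (k v r)))) (k (c 12 4102 r (u 8 1 (k v (k v r)))) (k (c 8 4101 r (u 12 1 (k v (k v r)))) (k (c 8 4101 r (u 12 1 (k v (k v r)))) r)))))))))))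
 .z .z) .z))))

set_option maxRecDepth 100000 in
def N51 : NT :=
(.s 0x1d3fbf005d108 4089 (n false (n false (z 119) e) (n false (n true (n false (n false e e) (n false e e)) e) (n false e e))) (u 4 55 (k v (k v (k (c 8 4098 r r) (k (c 8 4099 r r) (k (c 12 4101 r r) (k (c 12 4099 r r) (k (c 12 4096 r (c 3 4090 v r)) (k (c 8 4101 r r) (k (c 8 4101 r r) r))))))))))
 (.s 0x1d3efb00ee108 4068 (n false (n false (z 91) (n true (n false (n true (n false e e) e) (n false e e)) e)) (n false e e)) (u 4 5 (k v (k (u 8 1 (k v (k v r))) (k (c 8 4097 r (u 12 0 (k v (k v r)))) (k (c 8 4097 r (u 12 0 (k v (k v r)))) (k (c 8 4097 r (u 12 0 (k v (k v r)))) (k (c 8 4096 r (u 12 0 (k v (k v r)))) (k (c 8 4095 r (u 12 0 (k v (k v r)))) r))))))))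
 (.s 0x1d3eef008ae10 4076 (n false (n false (z 107) (n false e e)) (n false (n false (n true (n false e e) e) (n false e e)) e)) (u 4 7 (k v (k v (k (c 12 4099 r r) (k (c 12 4100 r (u 8 0 (k (u 16 0 (k v (k v r))) r))) r)))))
 (.s 0x1d3eee008ee10 4079 (n false (n false (z 43) (n false e e)) (n true (n false (n true (n false e e) e) (n false e e)) e)) (u 4 11 (k v (k r (k (c 12 4099 r (u 8 0 (k (u 16 0 (k v (k v r))) r))) (k (u 8 6 (k v (k v (k (u 16 1 (k v (k v r))) (k (c 24 4099 r (u 16 0 (k v (k v r)))) (k (u 16 1 (k v (k v r))) (k (c 24 4097 r (u 16 1 (k v (k v r)))) r))))))) (k r (k r r)))))))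
 (.s 0x1d3eeb00e1d10 4080 (n false (n false (z 75) (n true (n false e e) e)) (n true (n false (n false e e) (n false e e)) e)) (u 4 21 (k v (k v (k (t 12 3 (u 8 88 (k v (k v (k v (k (c 20 4099 v (c 6 4094 v (u 16 1 (k v (k v r))))) (k (c 20 4099 v (c 6 4094 v (u 16 29 (k v (k v (k v (k (c 48 4099 r (u 32 1 (k v (k v r)))) r))))))) (k (c 20 4099 v (c 6 4094 v (u 16 20 (k v (k v (k v (k (c 48 4099 r (u 32 1 (k v (k v r)))) (k (c 32 4099 r (u 48 1 (k v (k v r)))) r)))))))) r)))))))) r))))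
 .z .z) (.s 0x1d3eee00e1f40 4084 (n false (n false (z 43) (n true (n false e e) e)) (n true (n true (n false (n false e e) e) e) e)) (u 4 13 (k v (k v (k r (k (c 12 4099 r (u 8 0 (k (u 16 0 (k v (k v r))) r))) (k r (k (u 8 0 (k (u 16 23 (k v (k v r))) r)) (k r (k r r)))))))))
 .z .z)) (.s 0x1d3efb00a1708 4075 (n false (n false (z 91) (n false (n false e e) e)) (n false (n true (n false e e) e) (n false e e))) (u 4 11 (k v (k (u 8 1 (k v (k v r))) (k (c 8 4097 r (u 12 0 (k v (k v r)))) (k (c 8 4097 r (u 12 0 (k v (k v r)))) (k (c 8 4096 r (u 12 0 (k v (k v r)))) (k (c 8 4095 r (u 12 0 (k v (k v r)))) r)))))))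
 (.s 0x1d3eef008ee10 4076 (n false (n false (z 107) (n false e e)) (n true (n false (n true (n false e e) e) (n false e e)) e)) (u 4 7 (k v (k v (k (c 12 4099 r r) (k (c 12 4100 r (u 8 0 (k (u 16 0 (k v (k v r))) r))) r)))))
 .z .z) (.s 0x1d3efb00e1708 4066 (n false (n false (z 91) (n true (n false e e) e)) (n false (n true (n false e e) e) (n false e e))) (u 4 5 (k v (k (u 8 1 (k v (k v r))) (k (c 8 4097 r (u 12 0 (k v (k v r)))) (k (c 8 4097 r (u 12 0 (k v (k v r)))) (k (c 8 4097 r (u 12 0 (k v (k v r)))) (k (c 8 4096 r (u 12 0 (k v (k v r)))) (k (c 8 4095 r (u 12 0 (k v (k v r)))) r))))))))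
 .z .z))) (.s 0x1d3eff00ee108 4072 (n false (n false (z 123) (n true (n false (n true (n false e e) e) (n false e e)) e)) (n false e e)) (u 4 20 (k v (k r (k (c 12 4099 r r) (k (c 8 4096 r (u 12 1 (k v (k v r)))) (k (c 12 4097 r (c 10 4092 v r)) r))))))
 (.s 0x1d3eff00e1708 4076 (n false (n false (z 123) (n true (n false e e) e)) (n false (n true (n false e e) e) (n false e e))) (u 4 19 (k v (k (c 12 4099 r (u 8 12 (k v (k v r)))) (k (c 8 4096 r (u 12 1 (k v (k v r)))) r))))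
 (.s 0x1d3eff008ee10 4075 (n false (n false (z 123) (n false e e)) (n true (n false (n true (n false e e) e) (n false e e)) e)) (u 4 52 (k v (k v (k r (k (c 12 4099 r (u 8 66 (k v (k v (k (c 24 4099 r r) (k (c 24 4097 r r) r)))))) (k (u 8 61 (k v (k v (k (c 24 4101 r r) (k (c 24 4099 r r) (k (c 24 4097 r r) (k (c 24 4096 r (u 16 0 (k (u 32 0 (k v (k v r))) r))) (k (c 16 4098 r r) (k (c 16 4101 r r) (k (c 16 4099 r r) (k (c 16 4101 r r) r))))))))))) (k (c 5 4092 v r) (k (c 12 4100 r r) (k (c 12 4097 r r) r)))))))))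
 .z .z) (.s 0x1d3eff00e8288 4075 (n false (n false (z 123) (n true (n false (n false e e) e) e)) (n false (n false e e) (n false e e))) (u 4 19 (k v (k (c 12 4099 r (u 8 12 (k v (k v r)))) (k (c 8 4096 r (u 12 1 (k v (k v r)))) r))))
 .z .z)) (.s 0x1d3fab00e1708 4071 (n false (n false (z 71) (n true (n false e e) e)) (n false (n true (n false e e) e) (n false e e))) (u 4 5 (k v (k (u 8 0 (k v (k v r))) (k (c 12 4099 r (u 8 1 (k v (k v r)))) (k (c 8 4099 r (u 12 1 (k v (k v r)))) (k (c 8 4099 r (u 12 1 (k v (k v r)))) (k (c 8 4099 r (u 12 1 (k v (k v r)))) r)))))))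
 (.s 0x1d3fab00a1708 4071 (n false (n false (z 71) (n false (n false e e) e)) (n false (n true (n false e e) e) (n false e e))) (u 4 1 (k v (k (c 12 4099 r (u 8 1 (k v (k v r)))) (k (u 8 0 (k v (k v r))) (k (c 8 4099 r (u 12 1 (k v (k v r)))) (k (c 8 4099 r (u 12 1 (k v (k v r)))) (k (c 8 4099 r (u 12 1 (k v (k v r)))) r)))))))
 .z .z) .z))) (.s 0x1d4bffc011d10 4082 (n false (n false (n false (z 126) e) (n false e e)) (n true (n false (n false e e) (n false e e)) e)) (u 8 4 (k v (k (t 24 1 (u 16 19 (k v (k v (k (c 32 4097 r (u 48 1 (k v (k v r)))) (k (c 32 4095 r (c 4 4087 r v)) (k (c 32 4095 r (c 4 4087 r v)) r))))))) (k (t 24 1 (u 16 17 (k v (k v (k (c 32 4096 r (u 48 1 (k v (k v r)))) r))))) r))))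
 (.s 0x1d4affc03b840 4072 (n false (n false (n false (z 124) (n true (n false (n true (n false e e) e) (n false e e)) e)) e) e) (u 8 5 (k v (k (c 24 4097 r (u 16 1 (k v (k v r)))) (k (c 24 4096 r (u 16 1 (k v (k v r)))) (k (c 16 4098 r (u 24 0 (k v (k v r)))) (k (c 24 4096 r (u 16 1 (k v (k v r)))) (k (c 24 4097 r (u 16 1 (k v (k v r)))) (k (c 24 4097 r (u 16 1 (k v (k v r)))) (k (c 24 4096 r (u 16 1 (k v (k v r)))) (k (c 16 4097 r (u 24 1 (k v (k v r)))) r))))))))))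
 (.s 0x1d3fbf00e1708 4070 (n false (n false (z 119) (n true (n false e e) e)) (n false (n true (n false e e) e) (n false e e))) (u 4 1 (k (c 12 4101 r r) (k (c 8 4096 r (u 12 0 (k (t 20 3 (t 28 1 v)) r))) (k (c 8 4096 r r) (k (c 12 4099 r r) (k (c 12 4099 r r) (k (c 12 4097 r r) (k (c 6 4094 v (u 8 0 (k (u 12 0 (k (c 28 4101 r (t 20 3 r)) r)) r))) (k (c 8 4098 r r) (k (c 8 4101 r r) (k (c 8 4101 r r) (k (c 8 4099 r r) (k (c 8 4101 r r) (k (c 8 4101 r r) r))))))))))))))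
 (.s 0x1d3fbf007dc20 4081 (n false (n false (z 119) e) (n true (n true (n false (n true (n false e e) e) (n false e e)) e) e)) (u 4 34 (k v (k (c 8 4097 r r) (k (c 8 4097 r r) (k (c 8 4097 r r) (k (c 8 4097 r r) (k (c 12 4096 r (u 8 0 (k (u 16 0 (k v (k v r))) r))) (k (c 12 4097 r r) (k (c 12 4097 r r) (k (c 12 4097 r r) (k (c 12 4097 r r) (k (c 12 4097 r r) (k (c 12 4097 r r) r)))))))))))))
 .z .z) (.s 0x1d4aef8011708 4081 (n false (n false (n false (z 52) e) (n false e e)) (n false (n true (n false e e) e) (n false e e))) (u 8 105 (k v (k v (k v (k v (k v (k v (k v (k v (k (c 4 4087 (t 6 2 r) v) (k (c 4 4087 (t 6 1 r) v) r)))))))))))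
 .z .z)) (.s 0x1d4bffc011708 4082 (n false (n false (n false (z 126) e) (n false e e)) (n false (n true (n false e e) e) (n false e e))) (u 8 3 (k v (k (t 24 1 (u 16 0 (k v (k v (k (c 48 4099 r (u 32 0 (k v (k v r)))) r))))) (k (t 24 1 (u 16 18 (k v (k (c 48 4099 r (u 32 26 (k v (k v (k v r))))) r)))) r))))
 (.s 0x1d4bbb8011d10 4080 (n false (n false (n false (z 42) e) (n false e e)) (n true (n false (n false e e) (n false e e)) e)) (u 8 28 (k v (k v (k v (k v (k v r))))))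
 .z .z) .z)) (.s 0x1d4eef8011d10 4082 (n false (n false (n false (z 53) e) (n false e e)) (n true (n false (n false e e) (n false e e)) e)) (u 8 0 (k (t 24 1 (u 16 9 (k v (k v (k (u 32 34 (k v (k v (k v (k v r))))) r))))) (k (t 24 1 (u 16 26 (k v (k v (k v (k (c 32 4099 r (u 48 87 (k v (k v (k v (k v r)))))) r)))))) r)))
 (.s 0x1d4eeec03b840 4069 (n false (n false (n false (z 85) (n true (n false (n true (n false e e) e) (n false e e)) e)) e) e) (u 8 10 (k (c 24 4099 r r) (k r (k (c 24 4099 r r) (k r (k (c 24 4101 r (u 16 0 (k (t 48 1 (u 32 0 (k (t 64 3 (t 96 3 v)) r))) r))) (k (c 24 4096 r r) (k (c 16 4099 r r) r))))))))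
 (.s 0x1d4ebec01dc20 4080 (n false (n false (n false (z 89) e) (n true (n false (n true (n false e e) e) (n false e e)) e)) e) (u 8 2 (k v (k v (k v (k (t 24 2 (u 16 6 (k v (k v (k (t 48 1 (u 32 0 (k v (k v r)))) r))))) r)))))
 .z .z) (.s 0x1d4eef8011708 4082 (n false (n false (n false (z 53) e) (n false e e)) (n false (n true (n false e e) e) (n false e e))) (u 8 0 (k (t 24 1 (u 16 2 (k v (k (c 48 4099 r (u 32 3 (k v (k v (k v r))))) (k (c 4 4090 r v) (k (u 32 0 (k v (k v r))) (k (c 48 4097 r (c 4 4090 r v)) (k (c 32 4095 r (c 4 4090 r v)) r)))))))) (k (t 24 1 (u 16 30 (k v (k v (k (c 48 4099 r (u 32 100 (k v (k v (k v (k v (k v (k v r)))))))) (k (c 4 4088 r v) (k (c 48 4096 r (c 4 4089 r v)) r))))))) r)))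
 .z .z)) (.s 0x1d4fab801dc20 4082 (n false (n false (n true (n false (n true (n false e e) e) (n false e e)) e) (n false (z 35) e)) e) (u 10 2 (k v (k v (k v (k (t 26 1 (u 18 0 (k (t 34 3 (t 50 1 v)) r))) r)))))
 (.s 0x1d4faac011d10 4081 (n false (n false (n false (z 67) e) (n false e e)) (n true (n false (n false e e) (n false e e)) e)) (u 8 42 (k v (k v (k v (k (c 24 4101 r (u 16 1 (k v (k v r)))) (k (c 24 4102 r (u 16 1 (k v (k v r)))) (k (c 24 4100 r (u 16 21 (k v (k (c 48 4101 r r) (k (c 32 4101 r r) (k (c 32 4101 r r) r)))))) (k (c 16 4101 r (u 24 1 (k v (k v r)))) (k (c 16 4101 r (u 24 1 (k v (k v r)))) r)))))))))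
 .z .z) .z))))

end Pool.Agent.Helper91.ND1
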