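import Pool.Agent.Helper66.ND.Defs

/-! part of the certificate for the constant 25/48 (generated) -/

namespace Pool.Agent.Helper91.ND1

open Pool.Agent.Helper66.IL
open Pool.Agent.Helper66.ND
open Pool.Agent.Helper66.ND.LT
open Pool.Agent.Helper66.ND.Ct

set_option maxRecDepth 100000 in
def N52 : NT :=
(.s 0x1d53aff0043a0 4073 (n false (n false (n false (n false (z 121) e) (n false e e)) e) (n true (n false (n false e e) e) e)) (u 16 1 (k v (k (c 48 4099 r (u 32 1 (k v (k v r)))) (k (c 32 4097 r (u 48 1 (k v (k v r)))) (k (c 32 4095 r (u 48 0 (k v (k v r)))) (k (c 32 4095 r (u 48 0 (k v (k v r)))) r))))))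
 (.s 0x1d52bff00e088 4074 (n false (n false (n false (n false (z 124) (n true (n false e e) e)) e) (n false e e)) (n false e e)) (u 16 5 (k v (k (c 48 4097 r (u 32 1 (k v (k v r)))) (k (c 48 4096 r (u 32 1 (k v (k v r)))) (k (c 32 4098 r (u 48 0 (k v (k v r)))) (k (c 48 4096 r (u 32 1 (k v (k v r)))) (k (c 48 4097 r (u 32 1 (k v (k v r)))) (k (c 48 4097 r (u 32 1 (k v (k v r)))) (k (c 48 4096 r (u 32 1 (k v (k v r)))) (k (c 32 4097 r (u 48 1 (k v (k v r)))) r))))))))))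
 (.s 0x1d52aaa801088 4078 (n false (n false (n false (n false (z 128) (n false e e)) e) (n false e e)) (n false e e)) (u 16 4 (k v (k (c 48 4097 r r) (k (c 32 4095 r (c 4 4083 r v)) (k (c 32 4098 r (c 4 4080 (u 12 0 (k (u 20 0 (k v (k v r))) r)) v)) (k (c 48 4099 r r) (k (c 32 4096 r r) (k (c 32 4095 r (c 4 4081 r v)) (k (c 32 4095 r r) (k (c 32 4095 r (u 48 0 (k v (k v r)))) (k (c 48 4095 r (c 4 4083 r v)) (k (c 48 4095 r (u 32 1 (k v (k v r)))) (k (c 32 4097 r (u 48 0 (k v (k v r)))) (k (c 32 4095 r r) (k (c 32 4095 r (u 48 1 (k v (k v r)))) (k (c 32 4097 r r) r))))))))))))))))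
 (.s 0x1d4feac011f40 4075 (n false (n false (n false (z 71) e) (n false e e)) (n true (n true (n false (n false e e) e) e) e)) (u 8 1 (k v (k (c 24 4099 r (u 16 1 (k v (k v r)))) (k (u 16 0 (k v (k v r))) (k (c 16 4099 r (u 24 1 (k v (k v r)))) (k (c 16 4099 r (u 24 1 (k v (k v r)))) (k (c 16 4099 r (u 24 1 (k v (k v r)))) r)))))))
 (.s 0x1d4feac011d10 4079 (n false (n false (n false (z 71) e) (n false e e)) (n true (n false (n false e e) (n false e e)) e)) (u 8 3 (k v (k v (k (u 16 0 (k v (k v r))) (k (c 16 4099 r (u 24 1 (k v (k v r)))) (k (c 16 4099 r (u 24 1 (k v (k v r)))) (k (c 16 4099 r (u 24 1 (k v (k v r)))) r)))))))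
 .z .z) (.s 0x1d4ffac011d10 4080 (n false (n false (n false (z 79) e) (n false e e)) (n true (n false (n false e e) (n false e e)) e)) (u 8 5 (k v (k (u 16 18 (k v (k v (k v (k (c 48 4099 r (u 32 9 (k v (k v (k v r))))) r))))) (k (c 24 4096 r (u 16 1 (k v (k v r)))) r))))
 .z .z)) (.s 0x1d52afe00e0e0 4076 (n false (n false (n false (n false (z 56) (n true (n false e e) e)) e) (n true (n false e e) e)) e) (u 16 1 (k (u 32 1 (k v (k v r))) (k (u 32 99 (k v (k v (k v r)))) (k (c 32 4096 r (u 48 0 (k v (k v r)))) (k (c 48 4096 r r) r)))))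
 (.s 0x1d52afe00e088 4075 (n false (n false (n false (n false (z 56) (n true (n false e e) e)) e) (n false e e)) (n false e e)) (u 16 1 (k (u 32 1 (k v (k v r))) (k (u 32 153 (k v (k v (k v (k (t 96 1 (u 64 0 (k v (k v r)))) r))))) (k (c 32 4096 r (u 48 0 (k v (k v r)))) (k (c 32 4097 r r) r)))))
 .z .z) (.s 0x1d52bfa801088 4082 (n false (n false (n false (n false (z 156) (n false e e)) e) (n false e e)) (n false e e)) (u 16 1 (k v (k (c 48 4099 r (u 32 1 (k v (k v r)))) (k (c 32 4098 r (u 48 1 (k v (k v r)))) (k (c 32 4097 r (u 48 1 (k v (k v r)))) (k (c 32 4099 r (u 48 1 (k v (k v r)))) (k (c 32 4095 r (u 48 0 (k v (k v r)))) r)))))))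
 .z .z))) (.s 0x1d52fee00e088 4073 (n false (n false (n false (n false (z 46) (n true (n false e e) e)) e) (n false e e)) (n false e e)) (u 16 1 (k v (k (u 32 1 (k v (k v r))) (k (c 48 4099 r (u 32 0 (k v (k v r)))) (k (u 32 1 (k v (k v r))) (k (c 48 4097 r (u 32 1 (k v (k v r)))) (k (c 32 4095 r (u 48 1 (k v (k v r)))) r)))))))
 (.s 0x1d52ebe00e088 4072 (n false (n false (n false (n false (z 50) (n true (n false e e) e)) e) (n false e e)) (n false e e)) (u 16 1 (k v (k (c 48 4097 r (u 32 0 (k v (k v r)))) r)))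
 (.s 0x1d52bff00e0e0 4075 (n false (n false (n false (n false (z 124) (n true (n false e e) e)) e) (n true (n false e e) e)) e) (u 16 5 (k v (k (c 48 4097 r (u 32 1 (k v (k v r)))) (k (c 48 4096 r (u 32 1 (k v (k v r)))) (k (c 32 4098 r (u 48 0 (k v (k v r)))) (k (c 48 4096 r (u 32 1 (k v (k v r)))) (k (c 48 4097 r (u 32 1 (k v (k v r)))) (k (c 48 4097 r (u 32 1 (k v (k v r)))) (k (c 48 4096 r (u 32 1 (k v (k v r)))) (k (c 32 4097 r (u 48 1 (k v (k v r)))) r))))))))))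
 .z .z) (.s 0x1d52ebe00e0e0 4065 (n false (n false (n false (n false (z 50) (n true (n false e e) e)) e) (n true (n false e e) e)) e) (u 16 1 (k v (k (c 48 4097 r (u 32 0 (k v (k v r)))) r)))
 .z .z)) (.s 0x1d52fff004288 4079 (n false (n false (n false (n false (z 126) e) (n false e e)) e) (n false (n false e e) (n false e e))) (u 16 2 (k v (k (t 48 1 (u 32 19 (k v (k v (k (c 64 4097 r (u 96 1 (k v (k v r)))) (k (c 64 4095 r (c 8 4087 r v)) (k (c 64 4095 r (c 8 4087 r v)) r))))))) (k (t 48 1 (u 32 17 (k v (k v (k (c 64 4096 r (u 96 1 (k v (k v r)))) r))))) r))))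
 (.s 0x1d52fee00e0e0 4067 (n false (n false (n false (n false (z 46) (n true (n false e e) e)) e) (n true (n false e e) e)) e) (u 16 2 (k v (k (c 48 4099 r (u 32 0 (k v (k v r)))) (k (u 32 1 (k v (k v r))) (k (u 32 1 (k v (k v r))) (k (c 48 4097 r (u 32 1 (k v (k v r)))) (k (c 32 4095 r (u 48 1 (k v (k v r)))) r)))))))
 .z .z) .z))) (.s 0x1d53bbb00e0e0 4078 (n false (n false (n false (n false (z 85) (n true (n false e e) e)) e) (n true (n false e e) e)) e) (u 16 39 (k v (k (c 48 4099 r r) (k (c 4 4081 r v) (k (c 48 4101 r (u 32 0 (k (t 96 1 (u 64 0 (k (t 128 3 (t 192 3 v)) r))) r))) (k (c 48 4096 r (u 32 5 (k v (k v r)))) (k (c 32 4099 r r) r)))))))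
 (.s 0x1d53bae00e088 4073 (n false (n false (n false (n false (z 37) (n true (n false e e) e)) e) (n false e e)) (n false e e)) (u 16 0 (k v (k (u 32 0 (k (t 64 3 (t 96 1 v)) r)) (k (u 32 0 (k (t 64 3 (t 96 1 v)) r)) (k r (k r (k r r)))))))
 (.s 0x1d53aff00e0e0 4069 (n false (n false (n false (n false (z 121) (n true (n false e e) e)) e) (n true (n false e e) e)) e) (u 16 1 (k v (k (c 48 4099 r (u 32 1 (k v (k v r)))) (k (c 32 4097 r (u 48 1 (k v (k v r)))) (k (c 32 4095 r (u 48 0 (k v (k v r)))) (k (c 32 4095 r (u 48 0 (k v (k v r)))) r))))))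
 (.s 0x1d53aff00e088 4073 (n false (n false (n false (n false (z 121) (n true (n false e e) e)) e) (n false e e)) (n false e e)) (u 16 1 (k v (k (c 48 4099 r (u 32 1 (k v (k v r)))) (k (c 32 4097 r (u 48 1 (k v (k v r)))) (k (c 32 4095 r (u 48 0 (k v (k v r)))) (k (c 32 4095 r (u 48 0 (k v (k v r)))) r))))))
 .z .z) (.s 0x1d53bae0043a0 4079 (n false (n false (n false (n false (z 37) e) (n false e e)) e) (n true (n false (n false e e) e) e)) (u 16 58 (k v (k v (k v (k (u 32 33 (k v (k v (k v (k v r))))) r)))))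
 .z .z)) (.s 0x1d53bbb00e088 4074 (n false (n false (n false (n false (z 85) (n true (n false e e) e)) e) (n false e e)) (n false e e)) (u 16 10 (k (c 48 4099 r r) (k r (k (c 48 4099 r (u 32 5 (k v (k v r)))) (k (u 32 12 (k v (k v r))) (k (c 48 4101 r r) (k (c 48 4096 r r) (k (c 32 4099 r r) r))))))))
 (.s 0x1d53bae00e0e0 4075 (n false (n false (n false (n false (z 37) (n true (n false e e) e)) e) (n true (n false e e) e)) e) (u 16 31 (k v (k (u 32 0 (k (t 64 3 (t 96 1 v)) r)) (k (u 32 5 (k v (k v (k v (k (t 96 1 (u 64 0 (k (t 128 3 (t 192 1 v)) r))) r))))) (k (u 32 5 (k v (k v r))) (k (u 32 0 (k (t 64 3 (t 96 1 v)) r)) (k r r)))))))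
 .z .z) .z)) (.s 0x1d53efb00e0e0 4075 (n false (n false (n false (n false (z 91) (n true (n false e e) e)) e) (n true (n false e e) e)) e) (u 16 11 (k v (k (u 32 1 (k v (k v r))) (k (c 32 4097 r (u 48 0 (k v (k v r)))) (k (c 32 4097 r (u 48 0 (k v (k v r)))) (k (c 32 4096 r (u 48 0 (k v (k v r)))) (k (c 32 4095 r (u 48 0 (k v (k v r)))) r)))))))
 (.s 0x1d53bee004288 4078 (n false (n false (n false (n false (z 45) e) (n false e e)) e) (n false (n false e e) (n false e e))) (u 16 8 (k v (k v (k (t 48 1 (u 32 10 (k v (k v (k v (k (u 64 0 (k (t 128 3 (t 192 1 v)) r)) (k (u 64 2 (k v (k v (k v (k (t 192 1 (u 128 0 (k (t 256 3 (t 384 1 v)) r))) r))))) (k (u 64 3 (k v (k v r))) r)))))))) r))))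
 (.s 0x1d53bbe004288 4079 (n false (n false (n false (n false (z 53) e) (n false e e)) e) (n false (n false e e) (n false e e))) (u 16 0 (k (t 48 1 (u 32 32 (k v (k v (k v (k v (k (u 64 1 (k v (k v r))) (k (u 64 1 (k v (k v r))) (k (c 96 4097 r (u 64 1 (k v (k v r)))) r))))))))) (k (t 48 1 (u 32 13 (k v (k v (k v (k (u 64 12 (k v (k v r))) (k (c 64 4099 r (u 96 16 (k v (k v (k v (k v (k v r))))))) r))))))) r)))
 .z .z) (.s 0x1d53efb00e088 4073 (n false (n false (n false (n false (z 91) (n true (n false e e) e)) e) (n false e e)) (n false e e)) (u 16 5 (k v (k (u 32 1 (k v (k v r))) (k (c 32 4097 r (u 48 0 (k v (k v r)))) (k (c 32 4097 r (u 48 0 (k v (k v r)))) (k (c 32 4097 r (u 48 0 (k v (k v r)))) (k (c 32 4096 r (u 48 0 (k v (k v r)))) (k (c 32 4095 r (u 48 0 (k v (k v r)))) r))))))))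
 .z .z)) (.s 0x1d54bfb803820 4077 (n false (n false (n false (n false (n false (z 46) (n true (n false e e) e)) e) (n false e e)) e) e) (u 32 1 (k v (k (u 64 1 (k v (k v r))) (k (c 96 4099 r (u 64 0 (k v (k v r)))) (k (u 64 1 (k v (k v r))) (k (c 96 4097 r (u 64 1 (k v (k v r)))) (k (c 64 4095 r (u 96 1 (k v (k v r)))) r)))))))
 (.s 0x1d54affc03820 4077 (n false (n false (n false (n false (n false (z 124) (n true (n false e e) e)) e) (n false e e)) e) e) (u 32 5 (k v (k (c 96 4097 r (u 64 1 (k v (k v r)))) (k (c 96 4096 r (u 64 1 (k v (k v r)))) (k (c 64 4098 r (u 96 0 (k v (k v r)))) (k (c 96 4096 r (u 64 1 (k v (k v r)))) (k (c 96 4097 r (u 64 1 (k v (k v r)))) (k (c 96 4097 r (u 64 1 (k v (k v r)))) (k (c 96 4096 r (u 64 1 (k v (k v r)))) (k (c 64 4097 r (u 96 1 (k v (k v r)))) r))))))))))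
 .z .z) .z))))

set_option maxRecDepth 100000 in
def N53 : NT :=
(.s 0x1d74ebfc03820 4078 (n false (n false (n false (n true (n false (z 121) (n true (n false e e) e)) e) (n false e e)) e) e) (u 32 1 (k v (k (c 96 4099 r (u 64 1 (k v (k v r)))) (k (c 64 4097 r (u 96 1 (k v (k v r)))) (k (c 64 4095 r (c 8 4080 r v)) (k (c 64 4095 r (c 8 4080 r v)) r))))))
 (.s 0x1d572bbe00420 4077 (n false (n false (n false (n false (n false (n true (z 52) e) (n false e e)) e) (n false e e)) e) e) (u 64 35 (k v (k v (k v (k v (k v (k v (k v (k (c 32 4081 r v) (k (t 192 2 (u 128 0 (k (u 256 2 (k v (k (c 128 4084 (u 4 1 (k v (k v r))) v) r))) r))) (k (t 192 1 (u 128 0 (k (c 384 4099 r (u 256 2 (k v (k (c 128 4084 (u 4 1 (k v (k v r))) v) r)))) r))) r)))))))))))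
 (.s 0x1d54eeec03820 4081 (n false (n false (n false (n false (n false (z 85) (n true (n false e e) e)) e) (n false e e)) e) e) (u 32 27 (k v (k v (k (c 8 4081 r v) (k (c 96 4096 r (c 8 4085 r v)) (k (c 64 4099 r (u 96 159 (k v (k v (k v r))))) r))))))
 (.s 0x1d54ebfc03820 4077 (n false (n false (n false (n false (n false (z 121) (n true (n false e e) e)) e) (n false e e)) e) e) (u 32 1 (k v (k (c 96 4099 r (u 64 1 (k v (k v r)))) (k (c 64 4097 r (u 96 1 (k v (k v r)))) (k (c 64 4095 r (u 96 0 (k v (k v r)))) (k (c 64 4095 r (u 96 0 (k v (k v r)))) r))))))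
 (.s 0x1d54bffc010e0 4080 (n false (n false (n false (n false (n false (z 126) e) (n false e e)) e) (n true (n false e e) e)) e) (u 32 3 (k v (k (t 96 1 (u 64 0 (k v (k v (k (c 192 4099 r (u 128 0 (k v (k v r)))) r))))) (k (t 96 1 (u 64 0 (k v (k v (k (c 192 4099 r (u 128 8 (k v (k v (k v r))))) r))))) r))))
 .z .z) (.s 0x1d54eeb803820 4083 (n false (n false (n false (n false (n false (z 37) (n true (n false e e) e)) e) (n false e e)) e) e) (u 32 7 (k v (k r (k r (k (u 64 5 (k v (k v r))) r)))))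
 .z .z)) (.s 0x1d54efb8010e0 4085 (n false (n false (n false (n false (n false (z 45) e) (n false e e)) e) (n true (n false e e) e)) e) (u 32 4 (k v (k (t 96 1 (u 64 36 (k v (k v (k r (k (u 128 3 (k v (k v r))) r)))))) r)))
 (.s 0x1d54eef801088 4085 (n false (n false (n false (n false (n false (z 53) e) (n false e e)) e) (n false e e)) (n false e e)) (u 32 0 (k (t 96 1 (u 64 25 (k v (k v (k v (k (c 16 4090 r v) (k (c 16 4090 r v) (k (c 192 4097 r (c 16 4090 r v)) r)))))))) (k (t 96 1 (u 64 23 (k v (k v (k v (k (c 16 4088 r v) r)))))) r)))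
 .z .z) (.s 0x1d54fbec03820 4077 (n false (n false (n false (n false (n false (z 91) (n true (n false e e) e)) e) (n false e e)) e) e) (u 32 11 (k v (k (u 64 1 (k v (k v r))) (k (c 64 4097 r (u 96 0 (k v (k v r)))) (k (c 64 4097 r (u 96 0 (k v (k v r)))) (k (c 64 4096 r (u 96 0 (k v (k v r)))) (k (c 64 4095 r (u 96 0 (k v (k v r)))) r)))))))
 .z .z))) (.s 0x1d5cfef801088 4077 (n false (n false (n false (n false (n true (z 55) e) (n false e e)) e) (n false e e)) (n false e e)) (u 32 4 (k (t 96 1 (u 64 14 (k v (k (c 192 4099 r (t 128 3 v)) (k (u 128 4 (k v (k (t 384 1 (u 256 2 (k v (k v r)))) r))) (k (u 128 4 (k v (k (t 384 1 (u 256 2 (k v (k v r)))) r))) (k r (k r r)))))))) (k (t 96 2 (u 64 0 (k v (k v (k (c 16 4082 (u 8 1 (k v (k v r))) v) r))))) r)))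
 (.s 0x1d5caabc01088 4075 (n false (n false (n false (n false (n true (z 96) e) (n false e e)) e) (n false e e)) (n false e e)) (u 32 0 (k (t 96 2 (u 64 0 (k (t 192 2 (u 128 2 (k v (k (c 4 4069 r v) r)))) r))) r))
 (.s 0x1d573fbe00420 4073 (n false (n false (n false (n false (n false (n true (z 55) e) (n false e e)) e) (n false e e)) e) e) (u 64 4 (k (t 192 1 (u 128 14 (k v (k (c 384 4099 r (t 256 3 v)) (k r (k r (k r (k r r)))))))) (k (t 192 3 (u 128 0 (k v (k v (k (c 320 4099 v (u 256 1 (k v (k v r)))) r))))) r)))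
 .z .z) (.s 0x1d5caef801088 4077 (n false (n false (n false (n false (n true (z 52) e) (n false e e)) e) (n false e e)) (n false e e)) (u 32 35 (k v (k v (k v (k v (k v (k v (k v (k (c 16 4081 r v) (k (t 96 2 (u 64 0 (k (u 128 2 (k v (k (c 16 4078 (u 16 1 (k v (k v r))) v) r))) r))) (k (t 96 1 (u 64 0 (k (c 192 4099 r (u 128 2 (k v (k (c 16 4078 (u 16 1 (k v (k v r))) v) r)))) r))) r)))))))))))
 .z .z)) (.s 0x1d74affc03820 4078 (n false (n false (n false (n true (n false (z 124) (n true (n false e e) e)) e) (n false e e)) e) e) (u 32 5 (k v (k (c 96 4097 r (u 64 1 (k v (k v r)))) (k (c 96 4096 r (u 64 1 (k v (k v r)))) (k (c 64 4098 r (u 96 0 (k v (k v r)))) (k (c 96 4096 r (u 64 1 (k v (k v r)))) (k (c 96 4097 r (u 64 1 (k v (k v r)))) (k (c 96 4097 r (u 64 1 (k v (k v r)))) (k (c 96 4096 r (u 64 1 (k v (k v r)))) (k (c 64 4097 r (u 96 1 (k v (k v r)))) r))))))))))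
 (.s 0x1d72bbe0023a0 4072 (n false (n false (n false (n true (z 52) e) e) (n false e e)) (n true (n false (n false e e) e) e)) (u 16 110 (k v (k v (k v (k v (k v r))))))
 .z .z) .z))) (.s 0x1dcafea001f40 4083 (n false (n false (n true (z 156) e) e) (n true (n true (n false (n false e e) e) e) e)) (u 8 8 (k v (k v (k (c 24 4099 r (u 16 1 (k v (k v r)))) (k (c 16 4098 r (u 24 1 (k v (k v r)))) (k (c 16 4097 r (u 24 1 (k v (k v r)))) (k (c 16 4099 r (u 24 1 (k v (k v r)))) r)))))))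
 (.s 0x1dcaef8011708 4077 (n false (n false (n true (z 52) e) (n false e e)) (n false (n true (n false e e) e) (n false e e))) (u 8 82 (k v (k v (k v (k v (k v (k v (k v (k (c 4 4081 r v) (k (t 24 2 (u 16 0 (k (u 32 2 (k v (k (u 64 2 (k v (k v r))) r))) r))) (k (t 24 1 (u 16 0 (k (c 48 4099 r (u 32 2 (k v (k (c 4 4078 (u 16 1 (k v (k v r))) v) r)))) r))) r)))))))))))
 (.s 0x1dcaabc011708 4075 (n false (n false (n true (z 96) e) (n false e e)) (n false (n true (n false e e) e) (n false e e))) (u 8 0 (k (t 24 2 (u 16 0 (k (t 48 2 (u 32 2 (k v (k (c 3 4092 v r) r)))) r))) r))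
 (.s 0x1d7d2efa00810 4078 (n false (n false (n false (n true (n true (n false (z 26) (n false e e)) e) e) e) (n false e e)) e) (u 64 2 (k v (k (c 8 4081 (u 16 1 (k v (k v r))) v) r)))
 .z .z) (.s 0x1dcaabc01dc20 4076 (n false (n false (n true (z 96) e) (n true (n false (n true (n false e e) e) (n false e e)) e)) e) (u 8 0 (k (t 24 2 (u 16 0 (k (t 48 2 (u 32 2 (k v (k (c 10 4092 v r) r)))) r))) r))
 .z .z)) (.s 0x1dcafea001d40 4084 (n false (n false (n true (z 156) e) e) (n true (n false (n false (n false e e) e) e) e)) (u 8 8 (k v (k v (k (c 24 4099 r (u 16 1 (k v (k v r)))) (k (c 16 4098 r (u 24 1 (k v (k v r)))) (k (c 16 4097 r (u 24 1 (k v (k v r)))) (k (c 16 4099 r (u 24 1 (k v (k v r)))) r)))))))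
 (.s 0x1dcaef801dc20 4077 (n false (n false (n true (z 52) e) (n true (n false (n true (n false e e) e) (n false e e)) e)) e) (u 8 18 (k v (k v (k v (k v (k v (k v (k v (k (c 4 4081 r v) (k (t 24 2 r) (k (t 24 1 r) r)))))))))))
 .z .z) .z)) (.s 0x1dcaffc00ee10 4087 (n false (n false (n true (z 124) e) e) (n true (n false (n true (n false e e) e) (n false e e)) e)) (u 8 4 (k v (k v (k (c 24 4097 r (u 16 1 (k v (k v r)))) (k (c 24 4096 r (u 16 1 (k v (k v r)))) (k (c 16 4098 r (u 24 0 (k v (k v r)))) (k (c 24 4096 r (u 16 1 (k v (k v r)))) (k (c 24 4097 r (u 16 1 (k v (k v r)))) (k (c 24 4097 r (u 16 1 (k v (k v r)))) (k (c 24 4096 r (u 16 1 (k v (k v r)))) (k (c 16 4097 r (u 24 1 (k v (k v r)))) r)))))))))))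
 (.s 0x1dcafea0023a0 4072 (n false (n false (n true (z 156) e) (n false e e)) (n true (n false (n false e e) e) e)) (u 8 1 (k v (k (c 24 4099 r (u 16 1 (k v (k v r)))) (k (c 16 4098 r (u 24 1 (k v (k v r)))) (k (c 16 4097 r (u 24 1 (k v (k v r)))) (k (c 16 4099 r (u 24 1 (k v (k v r)))) (k (c 16 4095 r (u 24 0 (k v (k v r)))) r)))))))
 (.s 0x1dcafea0022a0 4076 (n false (n false (n true (z 156) e) (n false e e)) (n false (n false (n false e e) e) e)) (u 8 1 (k v (k (c 24 4099 r (u 16 1 (k v (k v r)))) (k (c 16 4098 r (u 24 1 (k v (k v r)))) (k (c 16 4097 r (u 24 1 (k v (k v r)))) (k (c 16 4099 r (u 24 1 (k v (k v r)))) (k (c 16 4095 r (u 24 0 (k v (k v r)))) r)))))))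
 .z .z) (.s 0x1dcaffc00ae10 4088 (n false (n false (n true (z 124) e) e) (n false (n false (n true (n false e e) e) (n false e e)) e)) (u 8 5 (k v (k (c 24 4097 r (u 16 1 (k v (k v r)))) (k (c 24 4096 r (u 16 1 (k v (k v r)))) (k (c 16 4098 r (u 24 0 (k v (k v r)))) (k (c 24 4096 r (u 16 1 (k v (k v r)))) (k (c 24 4097 r (u 16 1 (k v (k v r)))) (k (c 24 4097 r (u 16 1 (k v (k v r)))) (k (c 24 4096 r (u 16 1 (k v (k v r)))) (k (c 16 4097 r (u 24 1 (k v (k v r)))) r))))))))))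
 .z .z)) (.s 0x1dcaffc011d10 4076 (n false (n false (n true (z 124) e) (n false e e)) (n true (n false (n false e e) (n false e e)) e)) (u 8 5 (k v (k (c 24 4097 r (u 16 1 (k v (k v r)))) (k (c 24 4096 r (u 16 1 (k v (k v r)))) (k (c 16 4098 r (u 24 0 (k v (k v r)))) (k (c 24 4096 r (u 16 1 (k v (k v r)))) (k (c 24 4097 r (u 16 1 (k v (k v r)))) (k (c 24 4097 r (u 16 1 (k v (k v r)))) (k (c 24 4096 r (u 16 1 (k v (k v r)))) (k (c 16 4097 r (u 24 1 (k v (k v r)))) r))))))))))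
 (.s 0x1dcaffc011510 4076 (n false (n false (n true (z 124) e) (n false e e)) (n false (n false (n false e e) (n false e e)) e)) (u 8 5 (k v (k (c 24 4097 r (u 16 1 (k v (k v r)))) (k (c 24 4096 r (u 16 1 (k v (k v r)))) (k (c 16 4098 r (u 24 0 (k v (k v r)))) (k (c 24 4096 r (u 16 1 (k v (k v r)))) (k (c 24 4097 r (u 16 1 (k v (k v r)))) (k (c 24 4097 r (u 16 1 (k v (k v r)))) (k (c 24 4096 r (u 16 1 (k v (k v r)))) (k (c 16 4097 r (u 24 1 (k v (k v r)))) r))))))))))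
 .z .z) .z))))

set_option maxRecDepth 100000 in
def N54 : NT :=
(.s 0x1dceeec011510 4076 (n false (n false (n true (z 85) e) (n false e e)) (n false (n false (n false e e) (n false e e)) e)) (u 8 13 (k v (k v (k v (k (u 16 6 (k v (k v r))) (k (c 16 4099 r r) r))))))
 (.s 0x1dcebec011708 4078 (n false (n false (n true (z 89) e) (n false e e)) (n false (n true (n false e e) e) (n false e e))) (u 8 2 (k v (k v (k v (k (t 24 2 r) r)))))
 (.s 0x1dcbfb800ee10 4087 (n false (n false (n true (z 46) e) e) (n true (n false (n true (n false e e) e) (n false e e)) e)) (u 8 6 (k v (k v (k (u 16 1 (k v (k v r))) (k (c 24 4099 r (u 16 0 (k v (k v r)))) (k (u 16 1 (k v (k v r))) (k (c 24 4097 r (u 16 1 (k v (k v r)))) r)))))))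
 (.s 0x1dcbbec011d10 4076 (n false (n false (n true (z 90) e) (n false e e)) (n true (n false (n false e e) (n false e e)) e)) (u 8 5 (k v (k r (k (c 24 4097 r (u 16 1 (k v (k (c 48 4097 r (u 32 0 (k v (k v r)))) r)))) (k r (k (c 24 4096 r r) (k (c 24 4097 r r) (k r (k (c 24 4095 r r) (k (c 16 4095 r r) r))))))))))
 (.s 0x1dcbbec011510 4076 (n false (n false (n true (z 90) e) (n false e e)) (n false (n false (n false e e) (n false e e)) e)) (u 8 5 (k v (k r (k (c 24 4097 r (u 16 1 (k v (k (c 48 4097 r (u 32 0 (k v (k v r)))) r)))) (k r (k (c 24 4096 r r) (k (c 24 4097 r r) (k r (k (c 24 4095 r r) (k (c 16 4095 r r) r))))))))))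
 .z .z) (.s 0x1dcbfb800ae10 4088 (n false (n false (n true (z 46) e) e) (n false (n false (n true (n false e e) e) (n false e e)) e)) (u 8 12 (k v (k v (k v (k (u 16 1 (k v (k v r))) (k (u 16 1 (k v (k v r))) (k (c 24 4097 r (u 16 1 (k v (k v r)))) r)))))))
 .z .z)) (.s 0x1dcbfb8011d10 4076 (n false (n false (n true (z 46) e) (n false e e)) (n true (n false (n false e e) (n false e e)) e)) (u 8 17 (k v (k v (k (u 16 1 (k v (k v r))) (k (u 16 1 (k v (k v r))) (k (c 24 4097 r (u 16 1 (k v (k v r)))) (k (c 16 4095 r (u 24 1 (k v (k v r)))) r)))))))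
 (.s 0x1dcbfb8011510 4074 (n false (n false (n true (z 46) e) (n false e e)) (n false (n false (n false e e) (n false e e)) e)) (u 8 2 (k v (k (c 24 4099 r (u 16 0 (k v (k v r)))) (k (u 16 1 (k v (k v r))) (k (u 16 1 (k v (k v r))) (k (c 24 4097 r (u 16 1 (k v (k v r)))) (k (c 16 4095 r (u 24 1 (k v (k v r)))) r)))))))
 .z .z) (.s 0x1dcbfb8011f40 4071 (n false (n false (n true (z 46) e) (n false e e)) (n true (n true (n false (n false e e) e) e) e)) (u 8 2 (k v (k (c 24 4099 r (u 16 0 (k v (k v r)))) (k (u 16 1 (k v (k v r))) (k (u 16 1 (k v (k v r))) (k (c 24 4097 r (u 16 1 (k v (k v r)))) (k (c 16 4095 r (u 24 1 (k v (k v r)))) r)))))))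
 .z .z))) (.s 0x1dcebfc011d10 4076 (n false (n false (n true (z 121) e) (n false e e)) (n true (n false (n false e e) (n false e e)) e)) (u 8 3 (k v (k v (k (c 24 4099 r (u 16 1 (k v (k v r)))) (k (c 16 4097 r (u 24 1 (k v (k v r)))) r)))))
 (.s 0x1dcebfc00ee10 4087 (n false (n false (n true (z 121) e) e) (n true (n false (n true (n false e e) e) (n false e e)) e)) (u 8 5 (k v (k v (k v (k (c 24 4099 r (u 16 1 (k v (k v r)))) (k (c 16 4097 r (u 24 1 (k v (k v r)))) r))))))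
 (.s 0x1dcebfc00ae10 4088 (n false (n false (n true (z 121) e) e) (n false (n false (n true (n false e e) e) (n false e e)) e)) (u 8 4 (k v (k v (k (c 24 4099 r (u 16 1 (k v (k v r)))) (k (c 16 4097 r (u 24 1 (k v (k v r)))) r)))))
 .z .z) (.s 0x1dcebfc011510 4076 (n false (n false (n true (z 121) e) (n false e e)) (n false (n false (n false e e) (n false e e)) e)) (u 8 3 (k v (k v (k (c 24 4099 r (u 16 1 (k v (k v r)))) (k (c 16 4097 r (u 24 1 (k v (k v r)))) r)))))
 .z .z)) (.s 0x1dceeb8011f40 4072 (n false (n false (n true (z 37) e) (n false e e)) (n true (n true (n false (n false e e) e) e) e)) (u 8 0 (k v (k (u 16 0 (k (t 32 3 (t 48 1 v)) r)) (k (u 16 0 (k (t 32 3 (t 48 1 v)) r)) (k (u 16 2 (k v (k v (k v (k (t 48 1 (u 32 0 (k (t 64 3 (t 96 1 v)) r))) r))))) (k (u 16 2 (k v (k v (k v (k (t 48 1 (u 32 0 (k (t 64 3 (t 96 1 v)) r))) r))))) (k (u 16 9 (k v (k v r))) r)))))))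
 (.s 0x1dcebfc011f40 4072 (n false (n false (n true (z 121) e) (n false e e)) (n true (n true (n false (n false e e) e) e) e)) (u 8 1 (k v (k (c 24 4099 r (u 16 1 (k v (k v r)))) (k (c 16 4097 r (u 24 1 (k v (k v r)))) (k (c 16 4095 r (u 24 0 (k v (k v r)))) (k (c 16 4095 r (u 24 0 (k v (k v r)))) r))))))
 .z .z) .z))) (.s 0x1dcfbec00ee10 4087 (n false (n false (n true (z 91) e) e) (n true (n false (n true (n false e e) e) (n false e e)) e)) (u 8 3 (k v (k v (k (u 16 1 (k v (k v r))) (k (c 16 4097 r (u 24 0 (k v (k v r)))) (k (c 16 4097 r (u 24 0 (k v (k v r)))) (k (c 16 4096 r (u 24 0 (k v (k v r)))) r)))))))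
 (.s 0x1dcfbb800ee10 4079 (n false (n false (n true (z 43) e) e) (n true (n false (n true (n false e e) e) (n false e e)) e)) (u 8 0 (k v (k r (k (c 24 4099 r (u 16 0 (k (u 32 0 (k v (k v r))) r))) (k r (k (c 3 4091 v r) (k (u 16 0 (k (u 32 0 (k v (k v r))) r)) (k r (k r r)))))))))
 (.s 0x1dcfab8011d10 4082 (n false (n false (n true (z 35) e) (n false e e)) (n true (n false (n false e e) (n false e e)) e)) (u 8 27 (k v (k v (k v (k (t 24 1 (u 16 0 (k (t 32 3 (t 48 1 v)) r))) r)))))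
 (.s 0x1dceeec011d10 4076 (n false (n false (n true (z 85) e) (n false e e)) (n true (n false (n false e e) (n false e e)) e)) (u 8 13 (k v (k v (k v (k (u 16 6 (k v (k v r))) (k (c 16 4099 r r) r))))))
 .z .z) (.s 0x1dcfab801dc20 4084 (n false (n false (n true (n false (n true (n false e e) e) (n false e e)) e) (n true (z 35) e)) e) (u 10 2 (k v (k v (k v (k (t 26 1 (u 18 0 (k (t 34 3 (t 50 1 v)) r))) r)))))
 .z .z)) (.s 0x1dcfbec00ae10 4088 (n false (n false (n true (z 91) e) e) (n false (n false (n true (n false e e) e) (n false e e)) e)) (u 8 6 (k v (k v (k (u 16 1 (k v (k v r))) (k (c 16 4097 r (u 24 0 (k v (k v r)))) (k (c 16 4097 r (u 24 0 (k v (k v r)))) r))))))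
 (.s 0x1dcfbb801c3a0 4079 (n false (n false (n true (z 43) e) (n true (n false e e) e)) (n true (n false (n false e e) e) e)) (u 8 0 (k v (k r (k (c 24 4099 r (u 16 0 (k (u 32 0 (k v (k v r))) r))) (k (u 16 1 (k v (k (u 32 1 (k v (k v r))) (k (c 48 4099 r (u 32 0 (k v (k v r)))) (k (u 32 1 (k v (k v r))) (k (c 48 4097 r (u 32 1 (k v (k v r)))) (k (c 32 4095 r (u 48 1 (k v (k v r)))) r))))))) (k (c 3 4093 v r) (k (u 16 0 (k (u 32 0 (k v (k v r))) r)) (k r (k r r)))))))))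
 .z .z) .z)) (.s 0x1dcfeac011d10 4079 (n false (n false (n true (z 71) e) (n false e e)) (n true (n false (n false e e) (n false e e)) e)) (u 8 3 (k v (k v (k (u 16 0 (k v (k v r))) (k (c 16 4099 r (u 24 1 (k v (k v r)))) (k (c 16 4099 r (u 24 1 (k v (k v r)))) (k (c 16 4099 r (u 24 1 (k v (k v r)))) r)))))))
 (.s 0x1dcfbec011d10 4075 (n false (n false (n true (z 91) e) (n false e e)) (n true (n false (n false e e) (n false e e)) e)) (u 8 3 (k v (k v (k (u 16 1 (k v (k v r))) (k (c 16 4097 r (u 24 0 (k v (k v r)))) (k (c 16 4097 r (u 24 0 (k v (k v r)))) (k (c 16 4096 r (u 24 0 (k v (k v r)))) r)))))))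
 (.s 0x1dcfbec011510 4075 (n false (n false (n true (z 91) e) (n false e e)) (n false (n false (n false e e) (n false e e)) e)) (u 8 3 (k v (k v (k (u 16 1 (k v (k v r))) (k (c 16 4097 r (u 24 0 (k v (k v r)))) (k (c 16 4097 r (u 24 0 (k v (k v r)))) (k (c 16 4096 r (u 24 0 (k v (k v r)))) r)))))))
 .z .z) (.s 0x1dcfeac011510 4079 (n false (n false (n true (z 71) e) (n false e e)) (n false (n false (n false e e) (n false e e)) e)) (u 8 3 (k v (k v (k (u 16 0 (k v (k v r))) (k (c 16 4099 r (u 24 1 (k v (k v r)))) (k (c 16 4099 r (u 24 1 (k v (k v r)))) (k (c 16 4099 r (u 24 1 (k v (k v r)))) r)))))))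
 .z .z)) (.s 0x1dcfeec015110 4091 (n false (n false (n true (z 87) e) (n false (n false (n false e e) (n false e e)) (n false e e))) e) (c 4 4098 (u 2 0 (k v (k v r))) v)
 (.s 0x1dcfebc011d10 4083 (n false (n false (n true (z 103) e) (n false e e)) (n true (n false (n false e e) (n false e e)) e)) (u 8 5 (k v (k (c 24 4101 r (u 16 1 (k v (k v r)))) (k (c 16 4101 r (u 24 1 (k v (k v r)))) (k (c 16 4101 r (u 24 1 (k v (k v r)))) r)))))
 .z .z) .z))))

set_option maxRecDepth 100000 in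
def N55 : NT :=
(.s 0x1dd2fee00e0e0 4067 (n false (n false (n true (n false (z 46) (n true (n false e e) e)) e) (n true (n false e e) e)) e) (u 16 1 (k v (k (u 32 1 (k v (k v r))) (k (c 48 4099 r (u 32 0 (k v (k v r)))) (k (u 32 1 (k v (k v r))) (k (c 48 4097 r (u 32 1 (k v (k v r)))) (k (c 32 4095 r (u 48 1 (k v (k v r)))) r)))))))
 (.s 0x1dd2bae008740 4076 (n false (n false (n true (n false (z 36) (n false e e)) e) (n true (n false (n false e e) e) e)) e) (u 16 0 (k (u 32 2 (k v (k (c 4 4078 (u 16 1 (k v (k v r))) v) r))) r))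
 (.s 0x1dcfefc011f40 4073 (n false (n false (n true (z 119) e) (n false e e)) (n true (n true (n false (n false e e) e) e) e)) (u 8 0 (k v (k (c 24 4101 r r) (k (c 24 4096 r r) (k (c 24 4096 r r) (k (c 24 4099 r r) (k (c 24 4097 r r) (k (c 24 4096 r (u 16 0 (k (u 32 0 (k v (k v r))) r))) (k (c 16 4098 r r) (k (c 16 4101 r r) (k (c 16 4099 r r) (k (c 16 4101 r r) r))))))))))))
 (.s 0x1dcfefc011510 4075 (n false (n false (n true (z 119) e) (n false e e)) (n false (n false (n false e e) (n false e e)) e)) (u 8 23 (k v (k v (k (c 24 4101 r r) (k (c 24 4099 r r) (k (c 24 4097 r r) (k (c 24 4096 r (u 16 0 (k (u 32 0 (k v (k v r))) r))) (k (c 16 4098 r r) (k (c 16 4101 r r) (k (c 16 4099 r r) (k (c 16 4101 r r) r)))))))))))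
 (.s 0x1dcfef801dc20 4073 (n false (n false (n true (z 55) e) (n true (n false (n true (n false e e) e) (n false e e)) e)) e) (u 8 4 (k (t 24 1 (u 16 3 (k v (k r (k r (k (c 48 4099 r (t 32 3 v)) (k r (k (u 32 4 (k v (k (t 96 1 (u 64 7 (k v (k (u 128 18 (k v (k v (k v (k v r))))) (k (u 128 18 (k v (k v (k v (k v r))))) (k (u 128 3 (k v (k v r))) r)))))) r))) r)))))))) (k (t 24 3 r) r)))
 .z .z) (.s 0x1dcfefc011d10 4077 (n false (n false (n true (z 119) e) (n false e e)) (n true (n false (n false e e) (n false e e)) e)) (u 8 22 (k v (k v (k (c 24 4101 r r) (k (c 24 4099 r r) (k (c 24 4096 r (u 16 0 (k (u 32 0 (k v (k v r))) r))) (k (c 16 4098 r r) (k (c 16 4101 r r) (k (c 16 4099 r r) (k (c 16 4101 r r) r))))))))))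
 .z .z)) (.s 0x1dd2afe00e088 4069 (n false (n false (n true (n false (z 56) (n true (n false e e) e)) e) (n false e e)) (n false e e)) (u 16 0 (k (u 32 94 (k v (k v (k v (k v (k v (k v (k (t 96 1 (u 64 0 (k v (k v r)))) (k (t 96 2 (u 64 0 (k (u 128 2 (k v (k (u 256 2 (k v (k v r))) r))) r))) (k (t 96 1 (u 64 0 (k (c 192 4099 r (u 128 2 (k v (k (u 256 2 (k v (k v r))) r)))) r))) r)))))))))) (k (c 32 4096 r (u 48 0 (k v (k v r)))) (k (u 32 1 (k v (k v r))) (k (c 48 4096 r r) r)))))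
 (.s 0x1dd2aab008740 4079 (n false (n false (n true (n false (z 64) (n false e e)) e) (n true (n false (n false e e) e) e)) e) (u 16 0 (k (c 48 4099 r (u 32 2 (k v (k (c 4 4078 (u 16 1 (k v (k v r))) v) r)))) r))
 .z .z) (.s 0x1dd2afe00e0e0 4070 (n false (n false (n true (n false (z 56) (n true (n false e e) e)) e) (n true (n false e e) e)) e) (u 16 1 (k (u 32 1 (k v (k v r))) (k (u 32 152 (k v (k v (k v (k v (k (t 96 1 (u 64 0 (k v (k v r)))) r)))))) (k (c 32 4096 r (u 48 0 (k v (k v r)))) (k (c 32 4097 r r) r)))))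
 .z .z))) (.s 0x1dd2ebe00e088 4068 (n false (n false (n true (n false (z 50) (n true (n false e e) e)) e) (n false e e)) (n false e e)) (u 16 1 (k v (k (c 48 4097 r (u 32 0 (k v (k v r)))) r)))
 (.s 0x1dd2bff00e088 4068 (n false (n false (n true (n false (z 124) (n true (n false e e) e)) e) (n false e e)) (n false e e)) (u 16 1 (k v (k (c 48 4097 r (u 32 1 (k v (k v r)))) (k (c 48 4096 r (u 32 1 (k v (k v r)))) (k (c 32 4098 r (u 48 0 (k v (k v r)))) (k (c 48 4096 r (u 32 1 (k v (k v r)))) (k (c 48 4097 r (u 32 1 (k v (k v r)))) (k (c 48 4097 r (u 32 1 (k v (k v r)))) (k (c 48 4096 r (u 32 1 (k v (k v r)))) (k (c 48 4099 r (u 32 1 (k v (k v r)))) (k (c 32 4097 r (u 48 1 (k v (k v r)))) r)))))))))))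
 (.s 0x1dd2bbe008450 4079 (n false (n false (n true (n false (z 52) (n false e e)) e) (n false e e)) (n false (n false e e) e)) (u 16 6 (k v (k v (k (t 48 1 (u 32 0 (k v (k v r)))) r))))
 .z .z) (.s 0x1dd2bff00e0e0 4071 (n false (n false (n true (n false (z 124) (n true (n false e e) e)) e) (n true (n false e e) e)) e) (u 16 5 (k v (k (c 48 4097 r (u 32 1 (k v (k v r)))) (k (c 48 4096 r (u 32 1 (k v (k v r)))) (k (c 32 4098 r (u 48 0 (k v (k v r)))) (k (c 48 4096 r (u 32 1 (k v (k v r)))) (k (c 48 4097 r (u 32 1 (k v (k v r)))) (k (c 48 4097 r (u 32 1 (k v (k v r)))) (k (c 48 4096 r (u 32 1 (k v (k v r)))) (k (c 32 4097 r (u 48 1 (k v (k v r)))) r))))))))))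
 .z .z)) (.s 0x1dd2fee00e088 4068 (n false (n false (n true (n false (z 46) (n true (n false e e) e)) e) (n false e e)) (n false e e)) (u 16 2 (k v (k (c 48 4099 r (u 32 0 (k v (k v r)))) (k (u 32 1 (k v (k v r))) (k (u 32 1 (k v (k v r))) (k (c 48 4097 r (u 32 1 (k v (k v r)))) (k (c 32 4095 r (u 48 1 (k v (k v r)))) r)))))))
 (.s 0x1dd2ebe00e0e0 4065 (n false (n false (n true (n false (z 50) (n true (n false e e) e)) e) (n true (n false e e) e)) e) (u 16 1 (k v (k (c 48 4097 r (u 32 0 (k v (k v r)))) r)))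
 .z .z) .z))) (.s 0x1dd3bae00e0e0 4075 (n false (n false (n true (n false (z 37) (n true (n false e e) e)) e) (n true (n false e e) e)) e) (u 16 32 (k v (k (u 32 0 (k (t 64 3 (t 96 1 v)) r)) (k r (k r (k (u 32 0 (k (t 64 3 (t 96 1 v)) r)) (k (u 32 5 (k v (k v r))) r)))))))
 (.s 0x1dd3aff00e0e0 4069 (n false (n false (n true (n false (z 121) (n true (n false e e) e)) e) (n true (n false e e) e)) e) (u 16 1 (k v (k (c 48 4099 r (u 32 1 (k v (k v r)))) (k (c 32 4097 r (u 48 1 (k v (k v r)))) (k (c 32 4095 r (u 48 0 (k v (k v r)))) (k (c 32 4095 r (u 48 0 (k v (k v r)))) r))))))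
 (.s 0x1dd3aff002288 4081 (n false (n false (n true (n false (z 121) e) e) (n false e e)) (n false (n false e e) (n false e e))) (u 16 1 (k v (k (c 48 4099 r (u 32 1 (k v (k v r)))) (k (c 32 4097 r (c 4 4085 r v)) (k (c 32 4095 r (c 4 4076 r v)) (k (c 32 4095 r (c 4 4076 r v)) r))))))
 (.s 0x1dd3afb0023a0 4068 (n false (n false (n true (n false (z 89) e) e) (n false e e)) (n true (n false (n false e e) e) e)) (u 16 2 (k v (k v (k v (k (t 48 2 (u 32 6 (k v (k v (k (t 96 1 (u 64 3 (k v (k v r)))) r))))) r)))))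
 .z .z) (.s 0x1dd3aff00e088 4069 (n false (n false (n true (n false (z 121) (n true (n false e e) e)) e) (n false e e)) (n false e e)) (u 16 1 (k v (k (c 48 4099 r (u 32 1 (k v (k v r)))) (k (c 32 4097 r (u 48 1 (k v (k v r)))) (k (c 32 4095 r (u 48 0 (k v (k v r)))) (k (c 32 4095 r (u 48 0 (k v (k v r)))) r))))))
 .z .z)) (.s 0x1dd3bae00e088 4069 (n false (n false (n true (n false (z 37) (n true (n false e e) e)) e) (n false e e)) (n false e e)) (u 16 0 (k v (k (u 32 0 (k (t 64 3 (t 96 1 v)) r)) (k (u 32 0 (k (t 64 3 (t 96 1 v)) r)) (k r (k (u 32 5 (k v (k v (k v (k (t 96 1 (u 64 0 (k (t 128 3 (t 192 1 v)) r))) r))))) (k (u 32 4 (k (t 96 1 r) (k (t 96 2 (u 64 8 (k v (k v r)))) r))) r)))))))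
 (.s 0x1dd3bae002288 4081 (n false (n false (n true (n false (z 37) e) e) (n false e e)) (n false (n false e e) (n false e e))) (u 16 0 (k v (k (c 4 4087 (u 8 0 (k (t 16 3 (t 24 1 v)) r)) v) (k (c 4 4087 (u 8 0 (k (t 16 3 (t 24 1 v)) r)) v) (k (u 32 2 (k v (k v (k v (k (t 96 1 (u 64 0 (k (t 128 3 (t 192 1 v)) r))) r))))) (k (u 32 2 (k v (k v (k v (k (t 96 1 (u 64 0 (k (t 128 3 (t 192 1 v)) r))) r))))) (k (c 4 4087 r v) r)))))))
 .z .z) .z)) (.s 0x1dd3efb00e088 4068 (n false (n false (n true (n false (z 91) (n true (n false e e) e)) e) (n false e e)) (n false e e)) (u 16 5 (k v (k (u 32 1 (k v (k v r))) (k (c 32 4097 r (u 48 0 (k v (k v r)))) (k (c 32 4097 r (u 48 0 (k v (k v r)))) (k (c 32 4097 r (u 48 0 (k v (k v r)))) (k (c 32 4096 r (u 48 0 (k v (k v r)))) (k (c 32 4095 r (u 48 0 (k v (k v r)))) r))))))))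
 (.s 0x1dd3bbb00e0e0 4079 (n false (n false (n true (n false (z 85) (n true (n false e e) e)) e) (n true (n false e e) e)) e) (u 16 27 (k v (k v (k (c 4 4081 r v) (k (c 48 4096 r (u 32 5 (k v (k v r)))) (k (c 32 4099 r r) r))))))
 (.s 0x1dd3bbb00e088 4078 (n false (n false (n true (n false (z 85) (n true (n false e e) e)) e) (n false e e)) (n false e e)) (u 16 28 (k v (k (u 32 12 (k v (k v r))) (k (c 48 4099 r r) (k (c 48 4101 r (u 32 0 (k (t 96 1 (u 64 0 (k (t 128 3 (t 192 3 v)) r))) r))) (k (c 48 4096 r (u 32 5 (k v (k v r)))) (k (c 32 4099 r r) r)))))))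
 .z .z) (.s 0x1dd3eae0023a0 4072 (n false (n false (n true (n false (z 35) e) e) (n false e e)) (n true (n false (n false e e) e) e)) (u 16 2 (k v (k v (k v (k (t 48 1 (u 32 0 (k (t 64 3 (t 96 1 v)) r))) r)))))
 .z .z)) (.s 0x1dd3fbe0023a0 4072 (n false (n false (n true (n false (z 55) e) e) (n false e e)) (n true (n false (n false e e) e) e)) (u 16 4 (k (t 48 1 (u 32 28 (k v (k v (k v (k (u 64 2 (k v (k v r))) (k (u 64 6 (k v (k v r))) r))))))) (k (c 8 4091 (t 6 2 r) v) r)))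
 (.s 0x1dd3fab00e088 4071 (n false (n false (n true (n false (z 71) (n true (n false e e) e)) e) (n false e e)) (n false e e)) (u 16 1 (k v (k (c 48 4099 r (u 32 1 (k v (k v r)))) (k (u 32 0 (k v (k v r))) (k (c 32 4099 r (u 48 1 (k v (k v r)))) (k (c 32 4099 r (u 48 1 (k v (k v r)))) (k (c 32 4099 r (u 48 1 (k v (k v r)))) r)))))))
 .z .z) .z))))

set_option maxRecDepth 100000 in
def N56 : NT :=
(.s 0x1df3fbe001f40 4080 (n false (n false (n true (n true (z 55) e) e) e) (n true (n true (n false (n false e e) e) e) e)) (u 16 6 (k v (k (t 48 1 (u 32 10 (k v (k v r)))) r)))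
 (.s 0x1df2eba0023a0 4074 (n false (n false (n true (n true (z 18) e) e) (n false e e)) (n true (n false (n false e e) e) e)) (u 16 0 (k (u 32 6 (k v (k v (k v r)))) r))
 (.s 0x1ddcefb8010e0 4085 (n false (n false (n true (n false (n true (z 45) e) (n false e e)) e) (n true (n false e e) e)) e) (u 32 4 (k v (k (t 96 1 (u 64 4 (k v (k v r)))) r)))
 (.s 0x1dd52fff00410 4081 (n false (n false (n true (n false (n false (n false (z 126) e) (n false e e)) e) e) (n false e e)) e) (u 64 2 (k v (k (t 192 1 (u 128 19 (k v (k v (k (c 256 4097 r (u 384 1 (k v (k v r)))) (k (c 256 4095 r (u 384 0 (k v (k v r)))) (k (c 256 4095 r (u 384 0 (k v (k v r)))) r))))))) (k (t 192 1 (u 128 17 (k v (k v (k (c 256 4096 r (u 384 1 (k v (k v r)))) r))))) r))))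
 (.s 0x1dd4bffc010e0 4079 (n false (n false (n true (n false (n false (z 126) e) (n false e e)) e) (n true (n false e e) e)) e) (u 32 3 (k v (k (t 96 1 (u 64 0 (k v (k v (k (c 192 4099 r (u 128 0 (k v (k v r)))) r))))) (k (t 96 1 (u 64 0 (k v (k v (k (c 192 4099 r (u 128 8 (k v (k v (k v r))))) r))))) r))))
 .z .z) (.s 0x1dd53bee00410 4079 (n false (n false (n true (n false (n false (n false (z 45) e) (n false e e)) e) e) (n false e e)) e) (u 64 4 (k v (k (t 192 1 (u 128 4 (k v (k v r)))) r)))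
 .z .z)) (.s 0x1df2bbe0023a0 4065 (n false (n false (n true (n true (z 52) e) e) (n false e e)) (n true (n false (n false e e) e) e)) (u 16 23 (k v (k v (k v (k v (k v (k v (k v (k (t 48 2 (u 32 0 (k (u 64 2 (k v (k (c 8 4078 (u 16 1 (k v (k v r))) v) r))) r))) (k (t 48 1 (u 32 0 (k (c 96 4099 r (u 64 2 (k v (k (c 8 4078 (u 16 1 (k v (k v r))) v) r)))) r))) r))))))))))
 (.s 0x1df2afe0023a0 4071 (n false (n false (n true (n true (z 56) e) e) (n false e e)) (n true (n false (n false e e) e) e)) (u 16 1 (k (u 32 1 (k v (k v r))) (k (u 32 257 (k v (k v (k v (k v (k v r)))))) (k (c 32 4096 r (u 48 0 (k v (k v r)))) (k (c 48 4096 r r) r)))))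
 .z .z) (.s 0x1df2bfa8003a0 4084 (n false (n false (n true (n true (z 156) e) e) e) (n true (n false (n false e e) e) e)) (u 16 1 (k v (k (c 48 4099 r (u 32 1 (k v (k v r)))) (k (c 32 4098 r (u 48 1 (k v (k v r)))) (k (c 32 4097 r (u 48 1 (k v (k v r)))) (k (c 32 4099 r (u 48 1 (k v (k v r)))) (k (c 32 4095 r (u 48 0 (k v (k v r)))) r)))))))
 .z .z))) (.s 0x1df3bbb0023a0 4072 (n false (n false (n true (n true (z 85) e) e) (n false e e)) (n true (n false (n false e e) e) e)) (u 16 32 (k v (k v (k (c 48 4099 r r) (k (u 32 3 (k v (k v r))) (k (c 48 4096 r (c 8 4088 r v)) (k (c 32 4099 r r) r)))))))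
 (.s 0x1df2ffe0023a0 4065 (n false (n false (n true (n true (z 62) e) e) (n false e e)) (n true (n false (n false e e) e) e)) (u 16 1 (k v (k v (k v (k (t 48 1 (u 32 6 (k v (k v (k (t 96 1 (u 64 3 (k v (k v r)))) r))))) r)))))
 (.s 0x1df2ebe002288 4086 (n false (n false (n true (n true (z 50) e) e) (n false e e)) (n false (n false e e) (n false e e))) (u 16 1 (k v (k (c 48 4097 r (u 32 0 (k v (k v r)))) r)))
 .z .z) (.s 0x1df3aff001d10 4078 (n false (n false (n true (n true (z 121) e) e) e) (n true (n false (n false e e) (n false e e)) e)) (u 16 1 (k v (k (c 48 4099 r (u 32 1 (k v (k v r)))) (k (c 32 4097 r (u 48 1 (k v (k v r)))) (k (c 32 4095 r (u 48 0 (k v (k v r)))) (k (c 32 4095 r (u 48 0 (k v (k v r)))) r))))))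
 .z .z)) (.s 0x1df3efb0023a0 4071 (n false (n false (n true (n true (z 91) e) e) (n false e e)) (n true (n false (n false e e) e) e)) (u 16 1 (k v (k v (k v (k (u 32 0 (k v (k v r))) (k (c 32 4097 r (u 48 0 (k v (k v r)))) (k (c 32 4095 r (u 48 0 (k v (k v r)))) r)))))))
 (.s 0x1df3eae0023a0 4074 (n false (n false (n true (n true (z 35) e) e) (n false e e)) (n true (n false (n false e e) e) e)) (u 16 2 (k v (k v (k v (k (t 48 1 (u 32 0 (k (t 64 3 (t 96 1 v)) r))) r)))))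
 .z .z) .z))) (.s 0x1f2bfa800fa20 4085 (n false (n true (z 156) e) (n true (n true (n false (n false e e) (n false e e)) e) e)) (u 4 2 (k v (k (c 12 4099 r (u 8 1 (k v (k v r)))) (k (c 8 4095 r (u 12 0 (k v (k v r)))) r))))
 (.s 0x1df52fff00410 4074 (n false (n false (n true (n true (n false (n false (z 126) e) (n false e e)) e) e) (n false e e)) e) (u 64 0 (k r (k r (k (t 192 2 (u 128 0 (k (c 384 4096 r r) (k (c 384 4096 r r) (k (c 384 4096 r r) (k (c 384 4096 r r) (k (c 384 4096 r r) r))))))) (k r r)))))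
 (.s 0x1df4bbb802088 4081 (n false (n false (n true (n true (n false (z 42) (n false e e)) e) e) (n false e e)) (n false e e)) (u 32 11 (k v (k v (k (c 8 4085 (t 12 1 (u 8 0 (k r r))) v) r))))
 (.s 0x1df3fbe0023a0 4068 (n false (n false (n true (n true (z 55) e) e) (n false e e)) (n true (n false (n false e e) e) e)) (u 16 4 (k (t 48 1 (u 32 35 (k v (k v (k r (k (t 64 3 (t 96 1 v)) (k (u 64 2 (k v (k v r))) (k (u 64 5 (k v (k v (k (t 192 1 (u 128 10 (k v (k v (k v (k (u 256 0 (k (t 512 3 (t 768 1 v)) r)) (k (u 256 37 (k v (k v (k v r)))) (k (c 128 4095 r v) r)))))))) r)))) r)))))))) (k (t 48 2 r) r)))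
 .z .z) (.s 0x1df4bbb8020e0 4081 (n false (n false (n true (n true (n false (z 42) (n false e e)) e) e) (n true (n false e e) e)) e) (u 32 11 (k v (k v (k (c 8 4085 (t 12 1 (u 8 0 (k r r))) v) r))))
 .z .z)) (.s 0x1f2abb0075110 4084 (n false (n true (z 80) e) (n true (n false (n false (n false e e) (n false e e)) (n false e e)) e)) (u 4 0 (k (u 8 0 (k (c 24 4099 r (u 16 0 (k v (k r (k (c 48 4099 r (u 32 0 (k (u 64 0 (k v (k v r))) r))) (k r (k (c 2 4071 r v) (k (u 32 0 (k (u 64 0 (k v (k v r))) r)) (k r (k r r)))))))))) r)) r))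
 (.s 0x1dfd2efa00810 4075 (n false (n false (n true (n true (n true (n false (z 26) (n false e e)) e) e) e) (n false e e)) e) (u 64 2 (k v (k (u 128 2 (k v (k v r))) r)))
 .z .z) .z)) (.s 0x1f2fee0075c20 4085 (n false (n true (n false (n false (n true (n false e e) e) (n false e e)) e) e) (n true (z 46) e)) (u 5 1 (k v (k (u 9 1 (k v (k v r))) (k (c 13 4099 r (u 9 0 (k v (k v r)))) (k (u 9 1 (k v (k v r))) (k (c 13 4097 r (u 9 1 (k v (k v r)))) (k (c 9 4095 r (u 13 1 (k v (k v r)))) r)))))))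
 (.s 0x1f2bff007dc20 4085 (n false (n true (z 124) e) (n true (n true (n false (n true (n false e e) e) (n false e e)) e) e)) (u 4 1 (k v (k (c 12 4097 r (u 8 1 (k v (k v r)))) (k (c 12 4096 r (u 8 1 (k v (k v r)))) (k (c 8 4098 r (u 12 0 (k v (k v r)))) (k (c 12 4096 r (u 8 1 (k v (k v r)))) (k (c 12 4097 r (u 8 1 (k v (k v r)))) (k (c 12 4097 r (u 8 1 (k v (k v r)))) (k (c 12 4096 r (u 8 1 (k v (k v r)))) (k (c 12 4099 r (u 8 1 (k v (k v r)))) (k (c 8 4097 r (u 12 1 (k v (k v r)))) r)))))))))))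
 (.s 0x1f2bff0075c20 4085 (n false (n true (z 124) e) (n true (n false (n false (n true (n false e e) e) (n false e e)) e) e)) (u 4 1 (k v (k (c 12 4097 r (u 8 1 (k v (k v r)))) (k (c 12 4096 r (u 8 1 (k v (k v r)))) (k (c 8 4098 r (u 12 0 (k v (k v r)))) (k (c 12 4096 r (u 8 1 (k v (k v r)))) (k (c 12 4097 r (u 8 1 (k v (k v r)))) (k (c 12 4097 r (u 8 1 (k v (k v r)))) (k (c 12 4096 r (u 8 1 (k v (k v r)))) (k (c 12 4099 r (u 8 1 (k v (k v r)))) (k (c 8 4097 r (u 12 1 (k v (k v r)))) r)))))))))))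
 .z .z) (.s 0x1f2ebe007dc20 4087 (n false (n true (z 50) e) (n true (n true (n false (n true (n false e e) e) (n false e e)) e) e)) (u 4 2 (k v (k (c 12 4097 r (u 8 0 (k v (k v r)))) r)))
 .z .z)) (.s 0x1f2fee007fd00 4088 (n false (n true (z 46) e) (n true (n true (n true (n true (n false (n false e e) e) e) e) e) e)) (u 4 17 (k v (k v (k (u 8 1 (k v (k v r))) (k (u 8 1 (k v (k v r))) (k (c 12 4097 r (u 8 1 (k v (k v r)))) (k (c 8 4095 r (u 12 1 (k v (k v r)))) r)))))))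
 (.s 0x1f2fee007dc20 4085 (n false (n true (z 46) e) (n true (n true (n false (n true (n false e e) e) (n false e e)) e) e)) (u 4 1 (k v (k (u 8 32 (k v (k v (k v r)))) (k (c 12 4099 r (u 8 0 (k v (k v r)))) (k (u 8 1 (k v (k v r))) (k (c 12 4097 r (u 8 32 (k v (k v (k v r))))) (k (c 8 4095 r (u 12 32 (k v (k v (k v r))))) r)))))))
 .z .z) .z))))

set_option maxRecDepth 100000 in
def N57 : NT :=
(.s 0x1f3fab007dc20 4088 (n false (n true (z 71) e) (n true (n true (n false (n true (n false e e) e) (n false e e)) e) e)) (u 4 5 (k v (k (u 8 0 (k v (k v r))) (k (c 12 4099 r (u 8 32 (k v (k v (k v r))))) (k (c 8 4099 r (u 12 32 (k v (k v (k v r))))) (k (c 8 4099 r (u 12 32 (k v (k v (k v r))))) (k (c 8 4099 r (u 12 32 (k v (k v (k v r))))) r)))))))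
 (.s 0x1f3eab007dc20 4089 (n false (n true (z 67) e) (n true (n true (n false (n true (n false e e) e) (n false e e)) e) e)) (u 4 20 (k v (k v (k v (k v (k v (k (t 12 1 (u 8 13 (k v (k v r)))) (k (c 8 4101 r (u 12 0 (k v (k v r)))) (k r (k (c 2 4088 r v) (k (c 8 4099 r (u 12 0 (k v (k v r)))) (k (c 2 4091 (t 6 2 (u 4 0 (k r r))) v) (k (c 12 4101 r (u 8 1 (k v (k v r)))) (k (t 12 1 (u 8 9 (k v (k v (k v (k (c 24 4099 r (u 16 1 (k v (k v r)))) r)))))) (k (c 12 4102 r (u 8 1 (k v (k v r)))) (k (c 8 4101 r (u 12 1 (k v (k v r)))) (k (t 12 1 (u 8 3 (k v (k v (k (c 24 4099 r (u 16 1 (k v (k v r)))) r))))) (k (c 8 4101 r (u 12 1 (k v (k v r)))) r))))))))))))))))))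
 (.s 0x1f3bae005d108 4091 (n false (n false (n true (n false (n false e e) (n false e e)) e) (n false e e)) (n true (z 37) e)) (u 5 0 (k v (k (c 5 4101 (u 2 0 (k (t 4 3 (t 6 1 v)) r)) v) (k (u 9 0 (k (t 17 3 (t 25 1 v)) r)) (k (c 5 4101 r v) (k (u 9 0 (k v (k v (k (t 25 1 (u 17 0 (k (t 33 3 (t 49 1 v)) r))) r)))) (k (c 5 4095 r v) r)))))))
 (.s 0x1f3aff007dc20 4087 (n false (n true (z 121) e) (n true (n true (n false (n true (n false e e) e) (n false e e)) e) e)) (u 4 4 (k v (k v (k (c 12 4099 r (u 8 1 (k v (k v r)))) (k (c 8 4097 r (u 12 32 (k v (k v (k v r))))) r)))))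
 (.s 0x1f3aff0075c20 4087 (n false (n true (n false (n false (n true (n false e e) e) (n false e e)) e) e) (n true (z 121) e)) (u 5 4 (k v (k v (k (c 13 4099 r (u 9 1 (k v (k v r)))) (k (c 9 4097 r (u 13 1 (k v (k v r)))) r)))))
 .z .z) (.s 0x1f3aff007fd00 4088 (n false (n true (n true (n true (n true (n false (n false e e) e) e) e) e) e) (n true (z 121) e)) (u 5 4 (k v (k v (k (c 13 4099 r (u 9 1 (k v (k v r)))) (k (c 9 4097 r (u 13 1 (k v (k v r)))) r)))))
 .z .z)) (.s 0x1f3bbb007dc20 4088 (n false (n true (z 85) e) (n true (n true (n false (n true (n false e e) e) (n false e e)) e) e)) (u 4 18 (k v (k v (k v (k r (k (c 8 4099 r r) r))))))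
 (.s 0x1f3bbb0075c20 4087 (n false (n true (z 85) e) (n true (n false (n false (n true (n false e e) e) (n false e e)) e) e)) (u 4 9 (k v (k v (k (c 12 4099 r r) (k (u 8 6 (k v (k v r))) (k (c 12 4101 r r) (k (c 8 4099 r r) r)))))))
 .z .z) (.s 0x1f3eab005f440 4080 (n false (n true (z 67) e) (n false (n true (n true (n false (n false e e) (n false e e)) e) e) e)) (u 4 30 (k v (k v (k v (k v (k (t 12 1 (u 8 1 (k v (k v r)))) (k (c 8 4101 r (u 12 0 (k v (k v r)))) (k r (k (c 2 4088 r v) (k (c 2 4091 (t 6 2 (u 4 0 (k r r))) v) (k (c 12 4101 r (u 8 1 (k v (k v r)))) (k (t 12 1 (u 8 9 (k v (k v (k v (k (c 24 4099 r (u 16 1 (k v (k v r)))) r)))))) (k (c 12 4102 r (u 8 1 (k v (k v r)))) (k (c 8 4101 r (u 12 1 (k v (k v r)))) (k r (k (c 8 4101 r (u 12 1 (k v (k v r)))) r))))))))))))))))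
 .z .z))) (.s 0x1f3eff0075c20 4090 (n false (n true (z 123) e) (n true (n false (n false (n true (n false e e) e) (n false e e)) e) e)) (u 4 39 (k v (k v (k (u 8 26 (k v (k (t 24 1 (u 16 269 (k v (k v (k v r))))) (k (c 24 4097 r r) (k (c 24 4097 r r) r))))) (k (c 8 4096 r (u 12 1 (k v (k v r)))) (k (c 12 4097 r r) r))))))
 (.s 0x1f3efb007dc20 4085 (n false (n true (z 91) e) (n true (n true (n false (n true (n false e e) e) (n false e e)) e) e)) (u 4 4 (k v (k v (k (u 8 1 (k v (k v r))) (k (c 8 4097 r (u 12 0 (k v (k v r)))) (k (c 8 4097 r (u 12 0 (k v (k v r)))) (k (c 8 4096 r (u 12 0 (k v (k v r)))) (k (c 8 4095 r (u 12 0 (k v (k v r)))) r))))))))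
 (.s 0x1f3efb0075c20 4087 (n false (n true (z 91) e) (n true (n false (n false (n true (n false e e) e) (n false e e)) e) e)) (u 4 3 (k v (k v (k (u 8 1 (k v (k v r))) (k (c 8 4097 r (u 12 0 (k v (k v r)))) (k (c 8 4097 r (u 12 0 (k v (k v r)))) (k (c 8 4096 r (u 12 0 (k v (k v r)))) r)))))))
 .z .z) (.s 0x1f3eff0075110 4087 (n false (n true (z 123) e) (n true (n false (n false (n false e e) (n false e e)) (n false e e)) e)) (u 4 13 (k v (k v (k r (k r (k r (k r (k (c 2 4092 (t 4 1 r) v) (k (c 2 4094 (t 4 2 r) v) r)))))))))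
 .z .z)) (.s 0x1f3fab0075110 4088 (n false (n true (z 71) e) (n true (n false (n false (n false e e) (n false e e)) (n false e e)) e)) (u 4 6 (k r (k r (k (c 4 4097 r v) (k (c 2 4095 (t 4 1 r) v) (k (c 2 4095 (t 4 1 r) v) (k (c 2 4095 (t 4 1 r) v) r)))))))
 (.s 0x1f3eff007dc20 4087 (n false (n true (z 123) e) (n true (n true (n false (n true (n false e e) e) (n false e e)) e) e)) (u 4 4 (k v (k (c 12 4099 r (u 8 0 (k v (k v (k v (k (t 24 2 r) r)))))) (k r (k r (k (c 8 4096 r (u 12 32 (k v (k v (k v r))))) (k (c 2 4094 (t 4 2 r) v) r)))))))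
 .z .z) .z))) (.s 0x1f4abfc00ae10 4085 (n false (n true (n false (z 120) e) e) (n false (n false (n true (n false e e) e) (n false e e)) e)) (u 8 18 (k v (k v (k (c 24 4099 r r) (k (c 24 4099 r r) (k (c 24 4096 r (c 2 4087 r v)) (k (c 16 4099 r r) (k (c 24 4100 r r) (k (c 24 4097 r r) (k (c 24 4099 r (u 16 5 (k v (k (c 48 4097 r (u 32 1 (k v (k v r)))) (k (c 48 4096 r (u 32 1 (k v (k v r)))) (k (c 32 4098 r (u 48 0 (k v (k v r)))) (k (c 48 4096 r (u 32 1 (k v (k v r)))) (k (c 48 4097 r (u 32 1 (k v (k v r)))) (k (c 48 4097 r (u 32 1 (k v (k v r)))) (k (c 48 4096 r (u 32 1 (k v (k v r)))) (k (c 32 4097 r (u 48 1 (k v (k v r)))) r))))))))))) (k (c 16 4099 r r) (k (c 24 4097 r r) r))))))))))))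
 (.s 0x1f3fbf007dc20 4088 (n false (n true (z 119) e) (n true (n true (n false (n true (n false e e) e) (n false e e)) e) e)) (u 4 15 (k v (k v (k (c 12 4101 r r) (k (c 12 4099 r r) (k (c 12 4097 r r) (k (c 12 4096 r (u 8 0 (k r r))) (k (c 8 4098 r r) (k (c 8 4101 r r) (k (c 8 4099 r r) (k (c 8 4101 r r) r)))))))))))
 (.s 0x1f3fbf005d108 4091 (n false (n true (z 119) e) (n false (n true (n false (n false e e) (n false e e)) e) (n false e e))) (u 4 21 (k v (k (c 12 4101 r r) (k (c 8 4101 r r) (k (c 8 4101 r r) r)))))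
 (.s 0x1f3faf005d108 4091 (n false (n true (z 103) e) (n false (n true (n false (n false e e) (n false e e)) e) (n false e e))) (u 4 0 (k v (k (t 12 1 (u 8 15 (k v (k v (k v r))))) (k (t 8 2 (u 12 15 (k v (k v (k v r))))) (k (t 8 1 (u 12 15 (k v (k v (k v r))))) r)))))
 .z .z) (.s 0x1f3fbf0075c20 4087 (n false (n true (z 119) e) (n true (n false (n false (n true (n false e e) e) (n false e e)) e) e)) (u 4 38 (k v (k v (k (c 12 4101 r r) (k (c 12 4099 r r) (k (c 12 4097 r r) (k (c 2 4088 (t 6 2 (u 4 0 (k r r))) v) (k (c 8 4098 r r) (k (c 8 4101 r r) (k (c 8 4101 r r) (k (c 8 4099 r r) (k (c 8 4101 r r) (k (c 8 4101 r r) r)))))))))))))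
 .z .z)) (.s 0x1f4aaf8021d10 4082 (n false (n true (n false (z 48) (n false e e)) e) (n true (n false (n false e e) (n false e e)) e)) (u 8 24 (k v (k v (k (c 3 4092 v r) (k (u 16 4 (k v (k (t 48 1 (u 32 4 (k v (k v r)))) r))) r)))))
 (.s 0x1f3feb007dc20 4089 (n false (n true (z 79) e) (n true (n true (n false (n true (n false e e) e) (n false e e)) e) e)) (u 4 1 (k v (k (u 8 9 (k v (k v (k (t 24 2 (u 16 15 (k v (k v (k v r))))) (k (c 8 4097 r v) r))))) (k (c 12 4096 r (u 8 32 (k v (k v (k v r))))) r))))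
 .z .z) .z)) (.s 0x1f4aef803a050 4079 (n false (n true (n false (n true (n false (n false e e) e) e) (z 52)) e) (n false (n false e e) e)) (u 12 171 (k v (k v (k v (k v (k (t 28 1 (u 20 0 (k v (k v r)))) r))))))
 (.s 0x1f4aef8021d10 4077 (n false (n true (n false (z 52) (n false e e)) e) (n true (n false (n false e e) (n false e e)) e)) (u 8 40 (k v (k v (k v (k v (k (t 24 1 (u 16 0 (k v (k v r)))) r))))))
 (.s 0x1f4abfc00ee10 4078 (n false (n true (n false (z 120) e) e) (n true (n false (n true (n false e e) e) (n false e e)) e)) (u 8 24 (k v (k (c 24 4099 r r) (k (c 24 4099 r r) (k (c 16 4095 r r) (k (c 24 4097 r r) (k (c 16 4097 r r) (k (c 24 4096 r r) (k (c 24 4096 r (u 16 0 (k (u 32 0 (k v (k v r))) r))) (k (c 24 4100 r (u 16 0 (k (u 32 0 (k v (k v r))) r))) (k (c 16 4098 r r) (k (c 16 4099 r r) (k (c 24 4100 r r) (k (c 24 4097 r r) (k (c 24 4099 r r) (k (c 16 4095 r r) (k (c 16 4099 r r) (k (c 24 4097 r r) r))))))))))))))))))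
 .z .z) (.s 0x1f4aef802a050 4081 (n false (n true (n false (z 52) (n false (n false (n false e e) e) e)) e) (n false (n false e e) e)) (u 8 166 (k v (k v (k v (k v (k (t 24 1 (u 16 2 (k v (k v r)))) r))))))
 .z .z)) (.s 0x1f4bbbc021d10 4082 (n false (n true (n false (z 106) (n false e e)) e) (n true (n false (n false e e) (n false e e)) e)) (u 8 9 (k v (k v (k r (k (c 24 4110 r r) (k (c 16 4101 r (u 24 5 (k v (k v (k (c 56 4099 r r) (k (c 40 4099 r r) r)))))) (k (c 24 4103 r r) (k (c 24 4100 r r) (k (c 24 4100 r r) r)))))))))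
 (.s 0x1f4bbb8021708 4080 (n false (n true (n false (z 42) (n false e e)) e) (n false (n true (n false e e) e) (n false e e))) (u 8 11 (k v (k v (k (c 2 4085 (t 12 1 (u 8 0 (k r r))) v) r))))
 .z .z) .z))))

set_option maxRecDepth 100000 in
def N58 : NT :=
(.s 0x1f573fbe00420 4073 (n false (n true (n false (n false (n false (n true (z 55) e) (n false e e)) e) (n false e e)) e) e) (u 64 4 (k (t 192 1 (u 128 14 (k v (k (c 384 4099 r (t 256 3 v)) (k r (k r (k r (k r r)))))))) (k (t 192 3 (u 128 0 (k v (k v (k (c 320 4099 v (u 256 1 (k v (k v r)))) r))))) r)))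
 (.s 0x1f52fff0043a0 4076 (n false (n true (n false (n false (z 126) e) (n false e e)) e) (n true (n false (n false e e) e) e)) (u 16 4 (k v (k (t 48 1 (u 32 55 (k v (k v (k (c 96 4099 r (u 64 1 (k v (k v r)))) (k (c 64 4097 r (u 96 1 (k v (k v r)))) (k (c 64 4095 r (u 96 0 (k v (k v r)))) (k (c 64 4095 r (u 96 0 (k v (k v r)))) r)))))))) (k (t 48 1 (u 32 7 (k v (k v (k (t 96 1 (u 64 8 (k v (k v (k v r))))) (k (u 64 10 (k v (k (c 192 4101 r r) (k (c 128 4101 r r) (k (c 128 4101 r r) r))))) (k (c 64 4096 r (u 96 1 (k v (k v r)))) (k (c 96 4097 r (u 64 10 (k v (k (c 192 4101 r r) (k (c 128 4101 r r) (k (c 128 4101 r r) r)))))) r)))))))) r))))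
 (.s 0x1f4fab803a050 4084 (n false (n true (n false (n true (n false (n false e e) e) e) (z 35)) e) (n false (n false e e) e)) (u 12 0 (k v (k v (k (t 28 1 (u 20 0 (k (t 36 3 (t 52 1 v)) r))) r))))
 (.s 0x1f4faac00ae10 4080 (n false (n true (n false (z 67) e) e) (n false (n false (n true (n false e e) e) (n false e e)) e)) (u 8 53 (k v (k v (k (c 24 4099 r r) (k (c 16 4096 r (u 24 0 (k (u 40 0 (k v (k v r))) r))) (k (c 16 4096 r (u 24 0 (k (u 40 0 (k v (k v r))) r))) (k (c 24 4097 r r) (k (c 24 4099 r r) (k r (k (c 24 4097 r r) (k (c 24 4099 r (u 16 1 (k v (k (c 48 4097 r (u 32 0 (k v (k v r)))) r)))) (k (c 24 4099 r (u 16 0 (k (u 32 0 (k v (k v r))) r))) (k (c 16 4099 r r) (k (c 24 4099 r r) (k (c 16 4099 r (u 24 0 (k (u 40 0 (k v (k v r))) r))) (k (c 24 4100 r (c 2 4084 r v)) (k (c 24 4099 r r) (k (c 24 4099 r r) (k (c 24 4099 r r) r)))))))))))))))))))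
 (.s 0x1f4ebec00ee10 4085 (n false (n true (n false (z 89) e) e) (n true (n false (n true (n false e e) e) (n false e e)) e)) (u 8 17 (k v (k v (k v (k v r)))))
 .z .z) (.s 0x1f4faac00ee10 4080 (n false (n true (n false (z 67) e) e) (n true (n false (n true (n false e e) e) (n false e e)) e)) (u 8 59 (k v (k v (k (c 24 4099 r r) (k (c 16 4096 r (u 24 0 (k (u 40 0 (k v (k v r))) r))) (k (c 16 4096 r (u 24 0 (k (u 40 0 (k v (k v r))) r))) (k (c 24 4097 r r) (k (c 24 4099 r r) (k r (k (c 24 4097 r r) (k (c 24 4099 r r) (k (c 24 4099 r (u 16 0 (k (u 32 0 (k v (k v r))) r))) (k (c 16 4099 r r) (k (c 24 4099 r r) (k (c 16 4099 r (u 24 0 (k (u 40 0 (k v (k v r))) r))) (k (c 24 4100 r (c 2 4084 r v)) (k (c 24 4099 r r) (k (c 24 4099 r r) (k (c 24 4099 r r) r)))))))))))))))))))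
 .z .z)) (.s 0x1f4fefc00ee10 4080 (n false (n true (n false (z 119) e) e) (n true (n false (n true (n false e e) e) (n false e e)) e)) (u 8 1 (k (c 16 4097 r r) (k (c 24 4096 r r) (k (c 24 4096 r r) (k (c 16 4097 r r) (k (c 16 4097 r r) (k (c 16 4097 r r) (k (c 24 4096 r (u 16 0 (k (u 32 0 (k v (k v r))) r))) (k (c 24 4097 r r) (k (c 24 4097 r r) (k (c 24 4097 r r) (k (c 24 4097 r r) (k (c 24 4097 r r) (k (c 24 4097 r r) r))))))))))))))
 (.s 0x1f4fbbc021708 4073 (n false (n true (n false (z 107) (n false e e)) e) (n false (n true (n false e e) e) (n false e e))) (u 8 12 (k v (k (c 24 4099 r (u 16 1 (k v (k (c 48 4099 r (u 32 1 (k v (k v r)))) (k (u 32 0 (k v (k v r))) (k (c 32 4099 r (u 48 1 (k v (k v r)))) (k (c 32 4099 r (u 48 1 (k v (k v r)))) (k (c 32 4099 r (u 48 1 (k v (k v r)))) r)))))))) (k (u 16 3 (k v (k (c 48 4099 r (u 32 4 (k v (k v r)))) r))) (k (c 24 4100 r (u 16 0 (k (u 32 0 (k v (k v r))) r))) r)))))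
 .z .z) (.s 0x1f52fff004288 4080 (n false (n true (n false (n false (z 126) e) (n false e e)) e) (n false (n false e e) (n false e e))) (u 16 2 (k v (k (t 48 1 (u 32 19 (k v (k v (k (c 64 4097 r (u 96 1 (k v (k v r)))) (k (c 64 4095 r (u 96 0 (k v (k v r)))) (k (c 64 4095 r (u 96 0 (k v (k v r)))) r))))))) (k (t 48 1 (u 32 17 (k v (k v (k (c 64 4096 r (u 96 1 (k v (k v r)))) r))))) r))))
 .z .z))) (.s 0x1f53feb004288 4080 (n false (n true (n false (n false (z 79) e) (n false e e)) e) (n false (n false e e) (n false e e))) (u 16 5 (k v (k (u 32 18 (k v (k v (k v (k (c 96 4099 r (u 64 19 (k v (k v (k v r))))) r))))) (k (c 48 4096 r (u 32 1 (k v (k v r)))) r))))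
 (.s 0x1f53bae0043a0 4078 (n false (n true (n false (n false (z 37) e) (n false e e)) e) (n true (n false (n false e e) e) e)) (u 16 45 (k v (k v (k (u 32 24 (k v (k v (k v r)))) (k (u 32 17 (k v (k v (k v r)))) r)))))
 (.s 0x1f53aff0043a0 4073 (n false (n true (n false (n false (z 121) e) (n false e e)) e) (n true (n false (n false e e) e) e)) (u 16 1 (k v (k (c 48 4099 r (u 32 1 (k v (k v r)))) (k (c 32 4097 r (u 48 1 (k v (k v r)))) (k (c 32 4095 r (u 48 0 (k v (k v r)))) (k (c 32 4095 r (u 48 0 (k v (k v r)))) r))))))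
 .z .z) (.s 0x1f53bbe004288 4080 (n false (n true (n false (n false (z 53) e) (n false e e)) e) (n false (n false e e) (n false e e))) (u 16 0 (k (t 48 1 (u 32 13 (k v (k v (k v (k (u 64 1 (k v (k v r))) (k (u 64 1 (k v (k v r))) (k (c 96 4097 r (u 64 1 (k v (k v r)))) r)))))))) (k (t 48 1 (u 32 13 (k v (k v (k v (k (u 64 12 (k v (k v r))) (k (c 64 4099 r (u 96 16 (k v (k v (k v (k v (k v r))))))) r))))))) r)))
 .z .z)) (.s 0x1f572bbe00420 4077 (n false (n true (n false (n false (n false (n true (z 52) e) (n false e e)) e) (n false e e)) e) e) (u 64 35 (k v (k v (k v (k v (k v (k v (k v (k (c 32 4081 r v) (k (t 192 2 (u 128 0 (k (u 256 2 (k v (k (c 128 4084 (u 4 1 (k v (k v r))) v) r))) r))) (k (t 192 1 (u 128 0 (k (c 384 4099 r (u 256 2 (k v (k (c 128 4084 (u 4 1 (k v (k v r))) v) r)))) r))) r)))))))))))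
 (.s 0x1f53feb0043a0 4080 (n false (n true (n false (n false (z 79) e) (n false e e)) e) (n true (n false (n false e e) e) e)) (u 16 3 (k v (k (u 32 20 (k v (k v (k v (k v r))))) (k (c 48 4096 r (u 32 1 (k v (k v r)))) r))))
 .z .z) .z))) (.s 0x1f72fee001f40 4088 (n false (n true (n false (n true (z 46) e) e) e) (n true (n true (n false (n false e e) e) e) e)) (u 16 12 (k v (k v (k v (k (u 32 1 (k v (k v r))) (k (u 32 1 (k v (k v r))) (k (c 48 4097 r (u 32 1 (k v (k v r)))) r)))))))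
 (.s 0x1f72bff001708 4086 (n false (n true (n false (n true (z 124) e) e) e) (n false (n true (n false e e) e) (n false e e))) (u 16 4 (k v (k v (k (c 48 4097 r (u 32 1 (k v (k v r)))) (k (c 48 4096 r (u 32 1 (k v (k v r)))) (k (c 32 4098 r (u 48 0 (k v (k v r)))) (k (c 48 4096 r (u 32 1 (k v (k v r)))) (k (c 48 4097 r (u 32 1 (k v (k v r)))) (k (c 48 4097 r (u 32 1 (k v (k v r)))) (k (c 48 4096 r (u 32 1 (k v (k v r)))) (k (c 32 4097 r (u 48 1 (k v (k v r)))) r)))))))))))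
 (.s 0x1f72bfa8003a0 4079 (n false (n true (n false (n true (z 156) e) e) e) (n true (n false (n false e e) e) e)) (u 16 8 (k v (k v (k (c 48 4099 r (u 32 1 (k v (k v r)))) (k (c 32 4098 r (u 48 1 (k v (k v r)))) (k (c 32 4097 r (u 48 1 (k v (k v r)))) (k (c 32 4099 r (u 48 1 (k v (k v r)))) r)))))))
 (.s 0x1f72bfa8002a0 4087 (n false (n true (n false (n true (z 156) e) e) e) (n false (n false (n false e e) e) e)) (u 16 16 (k v (k v (k v (k (c 48 4099 r (u 32 10 (k v (k v (k v r))))) (k (c 32 4099 r (u 48 10 (k v (k v (k v r))))) r))))))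
 .z .z) (.s 0x1f72bfa800850 4079 (n false (n true (n false (n true (z 156) e) (n false e e)) e) (n false (n false e e) e)) (u 16 5 (k v (k v (k (c 48 4099 r (u 32 1 (k v (k v r)))) (k (c 32 4098 r (u 48 1 (k v (k v r)))) (k (c 32 4097 r (u 48 1 (k v (k v r)))) (k (c 32 4099 r (u 48 1 (k v (k v r)))) r)))))))
 .z .z)) (.s 0x1f72fee001708 4085 (n false (n true (n false (n true (z 46) e) e) e) (n false (n true (n false e e) e) (n false e e))) (u 16 6 (k v (k v (k (u 32 1 (k v (k v r))) (k (c 48 4099 r (u 32 0 (k v (k v r)))) (k (u 32 1 (k v (k v r))) (k (c 48 4097 r (u 32 1 (k v (k v r)))) r)))))))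
 (.s 0x1f72bff001f40 4088 (n false (n true (n false (n true (z 124) e) e) e) (n true (n true (n false (n false e e) e) e) e)) (u 16 5 (k v (k (c 48 4097 r (u 32 1 (k v (k v r)))) (k (c 48 4096 r (u 32 1 (k v (k v r)))) (k (c 32 4098 r (u 48 0 (k v (k v r)))) (k (c 48 4096 r (u 32 1 (k v (k v r)))) (k (c 48 4097 r (u 32 1 (k v (k v r)))) (k (c 48 4097 r (u 32 1 (k v (k v r)))) (k (c 48 4096 r (u 32 1 (k v (k v r)))) (k (c 32 4097 r (u 48 1 (k v (k v r)))) r))))))))))
 .z .z) .z)) (.s 0x1f73bbb0043a0 4075 (n false (n true (n false (n true (z 85) e) (n false e e)) e) (n true (n false (n false e e) e) e)) (u 16 32 (k v (k v (k (c 48 4099 r r) (k (u 32 12 (k v (k v r))) (k (c 48 4096 r (c 2 4079 r v)) (k (c 32 4099 r r) r)))))))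
 (.s 0x1f73aff001f40 4088 (n false (n true (n false (n true (z 121) e) e) e) (n true (n true (n false (n false e e) e) e) e)) (u 16 4 (k v (k v (k (c 48 4099 r (u 32 1 (k v (k v r)))) (k (c 32 4097 r (u 48 1 (k v (k v r)))) r)))))
 (.s 0x1f73aff001708 4087 (n false (n true (n false (n true (z 121) e) e) e) (n false (n true (n false e e) e) (n false e e))) (u 16 4 (k v (k v (k (c 48 4099 r (u 32 1 (k v (k v r)))) (k (c 32 4097 r (u 48 1 (k v (k v r)))) r)))))
 .z .z) (.s 0x1f73aff0043a0 4076 (n false (n true (n false (n true (z 121) e) (n false e e)) e) (n true (n false (n false e e) e) e)) (u 16 3 (k v (k v (k (c 48 4099 r (u 32 1 (k v (k v r)))) (k (c 32 4097 r (u 48 1 (k v (k v r)))) r)))))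
 .z .z)) (.s 0x1f73efb001708 4086 (n false (n true (n false (n true (z 91) e) e) e) (n false (n true (n false e e) e) (n false e e))) (u 16 4 (k v (k v (k (u 32 1 (k v (k v r))) (k (c 32 4097 r (u 48 0 (k v (k v r)))) (k (c 32 4097 r (u 48 0 (k v (k v r)))) (k (c 32 4096 r (u 48 0 (k v (k v r)))) (k (c 32 4095 r (u 48 0 (k v (k v r)))) r))))))))
 (.s 0x1f73eee007050 4081 (n false (n true (n false (n true (z 43) e) (n true (n false e e) e)) e) (n false (n false e e) e)) (u 16 0 (k v (k r (k (c 48 4099 r (u 32 0 (k (u 64 0 (k v (k v r))) r))) (k r (k (c 2 4069 r v) (k (u 32 0 (k (u 64 0 (k v (k v r))) r)) (k r (k r r)))))))))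
 .z .z) .z))))

set_option maxRecDepth 100000 in
def N59 : NT :=
(.s 0x1fcbfb800ae10 4085 (n false (n true (n true (z 46) e) e) (n false (n false (n true (n false e e) e) (n false e e)) e)) (u 8 0 (k v (k (u 16 1 (k v (k v r))) (k (u 16 1 (k v (k v r))) (k (c 24 4099 r (u 16 0 (k v (k v r)))) (k (c 24 4097 r (u 16 1 (k v (k v r)))) (k (c 16 4095 r (u 24 1 (k v (k v r)))) r)))))))
 (.s 0x1f7caef800850 4075 (n false (n true (n false (n true (n true (z 52) e) e) (n false e e)) e) (n false (n false e e) e)) (u 32 194 (k v (k v (k v (k v r)))))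
 (.s 0x1f74eeb803820 4069 (n false (n true (n false (n true (n false (z 37) (n true (n false e e) e)) e) (n false e e)) e) e) (u 32 0 (k v (k (u 64 0 (k (t 128 3 (t 192 1 v)) r)) (k (u 64 0 (k (t 128 3 (t 192 1 v)) r)) (k r (k r (k r r)))))))
 (.s 0x1f74bfb803820 4069 (n false (n true (n false (n true (n false (z 46) (n true (n false e e) e)) e) (n false e e)) e) e) (u 32 2 (k v (k (c 96 4099 r (u 64 0 (k v (k v r)))) (k (u 64 1 (k v (k v r))) (k (u 64 1 (k v (k v r))) (k (c 96 4097 r (u 64 1 (k v (k v r)))) (k (c 64 4095 r (u 96 1 (k v (k v r)))) r)))))))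
 (.s 0x1f74affc03820 4081 (n false (n true (n false (n true (n false (z 124) (n true (n false e e) e)) e) (n false e e)) e) e) (u 32 5 (k v (k (c 96 4097 r (u 64 1 (k v (k v r)))) (k (c 96 4096 r (u 64 1 (k v (k v r)))) (k (c 64 4098 r (u 96 0 (k v (k v r)))) (k (c 96 4096 r (u 64 1 (k v (k v r)))) (k (c 96 4097 r (u 64 1 (k v (k v r)))) (k (c 96 4097 r (u 64 1 (k v (k v r)))) (k (c 96 4096 r (u 64 1 (k v (k v r)))) (k (c 64 4097 r (u 96 1 (k v (k v r)))) r))))))))))
 .z .z) (.s 0x1f74ebfc03820 4069 (n false (n true (n false (n true (n false (z 121) (n true (n false e e) e)) e) (n false e e)) e) e) (u 32 1 (k v (k (c 96 4099 r (u 64 1 (k v (k v r)))) (k (c 64 4097 r (u 96 1 (k v (k v r)))) (k (c 64 4095 r (u 96 0 (k v (k v r)))) (k (c 64 4095 r (u 96 0 (k v (k v r)))) r))))))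
 .z .z)) (.s 0x1f74fbec03820 4081 (n false (n true (n false (n true (n false (z 91) (n true (n false e e) e)) e) (n false e e)) e) e) (u 32 11 (k v (k (u 64 1 (k v (k v r))) (k (c 64 4097 r (u 96 0 (k v (k v r)))) (k (c 64 4097 r (u 96 0 (k v (k v r)))) (k (c 64 4096 r (u 96 0 (k v (k v r)))) (k (c 64 4095 r (u 96 0 (k v (k v r)))) r)))))))
 (.s 0x1f74eeec03820 4081 (n false (n true (n false (n true (n false (z 85) (n true (n false e e) e)) e) (n false e e)) e) e) (u 32 27 (k v (k v (k (c 8 4081 r v) (k (c 96 4096 r (c 8 4085 r v)) (k (c 64 4099 r r) r))))))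
 .z .z) (.s 0x1f74feac03820 4071 (n false (n true (n false (n true (n false (z 71) (n true (n false e e) e)) e) (n false e e)) e) e) (u 32 1 (k v (k (c 96 4099 r (u 64 1 (k v (k v r)))) (k (u 64 0 (k v (k v r))) (k (c 64 4099 r (u 96 1 (k v (k v r)))) (k (c 64 4099 r (u 96 1 (k v (k v r)))) (k (c 64 4099 r (u 96 1 (k v (k v r)))) r)))))))
 .z .z))) (.s 0x1fcaef800ba20 4081 (n false (n true (n true (z 52) e) e) (n false (n true (n false (n false e e) (n false e e)) e) e)) (u 8 124 (k v (k v (k v (k v (k v (k v (k v (k v r)))))))))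
 (.s 0x1f7cfef8003a0 4080 (n false (n true (n false (n true (n true (z 55) e) e) e) e) (n true (n false (n false e e) e) e)) (u 32 6 (k v (k (t 96 1 (u 64 10 (k v (k v r)))) r)))
 (.s 0x1f7cbfb800850 4067 (n false (n true (n false (n true (n true (z 46) e) e) (n false e e)) e) (n false (n false e e) e)) (u 32 2 (k v (k (c 96 4099 r (u 64 0 (k v (k v r)))) (k (u 64 1 (k v (k v r))) (k (u 64 26 (k v (k v r))) (k (c 96 4097 r (u 64 1 (k v (k v r)))) (k (c 64 4095 r (u 96 1 (k v (k v r)))) r)))))))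
 .z .z) (.s 0x1f7d2eee00820 4083 (n false (n true (n false (n true (n true (n false (z 42) (n false e e)) e) e) (n false e e)) e) e) (u 64 11 (k v (k v (k (c 16 4085 (t 12 1 (u 8 0 (k r r))) v) r))))
 .z .z)) (.s 0x1fcaffc00ee10 4085 (n false (n true (n true (z 124) e) e) (n true (n false (n true (n false e e) e) (n false e e)) e)) (u 8 1 (k v (k (c 24 4097 r (u 16 1 (k v (k v r)))) (k (c 24 4096 r (u 16 1 (k v (k v r)))) (k (c 16 4098 r (u 24 0 (k v (k v r)))) (k (c 24 4096 r (u 16 1 (k v (k v r)))) (k (c 24 4097 r (u 16 1 (k v (k v r)))) (k (c 24 4097 r (u 16 1 (k v (k v r)))) (k (c 24 4096 r (u 16 1 (k v (k v r)))) (k (c 24 4099 r (u 16 1 (k v (k v r)))) (k (c 16 4097 r (u 24 1 (k v (k v r)))) r)))))))))))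
 (.s 0x1fcaef800fa20 4077 (n false (n true (n true (z 52) e) e) (n true (n true (n false (n false e e) (n false e e)) e) e)) (u 8 22 (k v (k v (k v (k v (k v (k v (k v (k (t 24 2 (u 16 0 (k (u 32 2 (k v (k (c 4 4078 (u 16 1 (k v (k v r))) v) r))) r))) (k (t 24 1 (u 16 0 (k (c 48 4099 r (u 32 2 (k v (k (c 4 4078 (u 16 1 (k v (k v r))) v) r)))) r))) r))))))))))
 .z .z) .z))) (.s 0x1fcfbec00ee10 4084 (n false (n true (n true (z 91) e) e) (n true (n false (n true (n false e e) e) (n false e e)) e)) (u 8 4 (k v (k v (k (u 16 1 (k v (k v r))) (k (c 16 4097 r (u 24 0 (k v (k v r)))) (k (c 16 4097 r (u 24 0 (k v (k v r)))) (k (c 16 4096 r (u 24 0 (k v (k v r)))) (k (c 16 4095 r (u 24 0 (k v (k v r)))) r))))))))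
 (.s 0x1fcebfc00ee10 4087 (n false (n true (n true (z 121) e) e) (n true (n false (n true (n false e e) e) (n false e e)) e)) (u 8 4 (k v (k v (k (c 24 4099 r (u 16 1 (k v (k v r)))) (k (c 16 4097 r (u 24 1 (k v (k v r)))) r)))))
 (.s 0x1fcbfb800fe80 4087 (n false (n true (n true (z 46) e) e) (n true (n true (n true (n false (n false e e) e) e) e) e)) (u 8 1 (k v (k (u 16 1 (k v (k v r))) (k (c 24 4099 r (u 16 0 (k v (k v r)))) (k (u 16 1 (k v (k v r))) (k (c 24 4097 r (u 16 1 (k v (k v r)))) (k (c 16 4095 r (u 24 1 (k v (k v r)))) r)))))))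
 (.s 0x1fcbfb800ee10 4085 (n false (n true (n true (z 46) e) e) (n true (n false (n true (n false e e) e) (n false e e)) e)) (u 8 0 (k v (k (u 16 1 (k v (k v r))) (k (u 16 1 (k v (k v r))) (k (c 24 4099 r (u 16 0 (k v (k v r)))) (k (c 24 4097 r (u 16 1 (k v (k v r)))) (k (c 16 4095 r (u 24 1 (k v (k v r)))) r)))))))
 .z .z) (.s 0x1fcebfc00ae10 4088 (n false (n true (n true (z 121) e) e) (n false (n false (n true (n false e e) e) (n false e e)) e)) (u 8 4 (k v (k v (k (c 24 4099 r (u 16 1 (k v (k v r)))) (k (c 16 4097 r (u 24 1 (k v (k v r)))) r)))))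
 .z .z)) (.s 0x1fcfaac00fe80 4092 (n false (n true (n true (z 67) e) e) (n true (n true (n true (n false (n false e e) e) e) e) e)) (u 8 56 (k v (k v (k v (k v (k (c 16 4101 r (u 24 0 (k v (k v r)))) (k (c 4 4088 r v) (k (c 24 4101 r (u 16 1 (k v (k v r)))) (k (c 24 4102 r (u 16 1 (k v (k v r)))) (k (c 16 4101 r (u 24 1 (k v (k v r)))) (k (c 16 4101 r (u 24 1 (k v (k v r)))) r)))))))))))
 (.s 0x1fcebfc00fe80 4087 (n false (n true (n true (z 121) e) e) (n true (n true (n true (n false (n false e e) e) e) e) e)) (u 8 5 (k v (k v (k v (k (c 24 4099 r (u 16 1 (k v (k v r)))) (k (c 16 4097 r (u 24 1 (k v (k v r)))) r))))))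
 .z .z) .z)) (.s 0x1fcfefc00ae10 4087 (n false (n true (n true (z 119) e) e) (n false (n false (n true (n false e e) e) (n false e e)) e)) (u 8 39 (k v (k v (k (c 24 4101 r r) (k (c 24 4099 r r) (k (c 24 4097 r r) (k (c 4 4088 (t 6 2 (u 4 0 (k r r))) v) (k (c 16 4098 r r) (k (t 24 1 (u 16 9 (k v (k v (k v (k (c 48 4099 r (u 32 1 (k v (k v r)))) r)))))) (k (c 16 4101 r r) (k (c 16 4099 r r) (k (c 16 4101 r (u 24 0 (k (t 56 1 (u 40 0 (k (t 72 3 (t 104 3 v)) r))) r))) (k (c 16 4101 r r) r)))))))))))))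
 (.s 0x1fcfeac00ee10 4088 (n false (n true (n true (z 71) e) e) (n true (n false (n true (n false e e) e) (n false e e)) e)) (u 8 5 (k v (k (u 16 0 (k v (k v r))) (k (c 24 4099 r (u 16 1 (k v (k v r)))) (k (c 16 4099 r (u 24 1 (k v (k v r)))) (k (c 16 4099 r (u 24 1 (k v (k v r)))) (k (c 16 4099 r (u 24 1 (k v (k v r)))) r)))))))
 (.s 0x1fcfeac00ae10 4088 (n false (n true (n true (z 71) e) e) (n false (n false (n true (n false e e) e) (n false e e)) e)) (u 8 1 (k v (k (c 24 4099 r (u 16 1 (k v (k v r)))) (k (u 16 0 (k v (k v r))) (k (c 16 4099 r (u 24 1 (k v (k v r)))) (k (c 16 4099 r (u 24 1 (k v (k v r)))) (k (c 16 4099 r (u 24 1 (k v (k v r)))) r)))))))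
 .z .z) (.s 0x1fcfebc00ee10 4085 (n false (n true (n true (z 103) e) e) (n true (n false (n true (n false e e) e) (n false e e)) e)) (u 8 1 (k v (k (t 24 1 r) (k (t 16 2 r) (k (t 16 1 r) r)))))
 .z .z)) (.s 0x1fd2bbe008288 4077 (n false (n true (n true (n false (z 52) (n false e e)) e) e) (n false (n false e e) (n false e e))) (u 16 40 (k v (k v (k v (k v (k (t 48 1 (u 32 0 (k v (k v r)))) r))))))
 (.s 0x1fcfefc00ee10 4085 (n false (n true (n true (z 119) e) e) (n true (n false (n true (n false e e) e) (n false e e)) e)) (u 8 1 (k r (k (c 4 4091 r v) (k (c 16 4096 r r) (k r (k (c 24 4099 r r) (k (c 24 4097 r r) (k (c 4 4088 (t 6 2 (u 4 0 (k r r))) v) (k (c 16 4098 r r) (k (t 24 3 r) (k r (k (c 16 4099 r r) (k (t 24 1 (u 16 17 (k v (k v (k v (k (c 48 4099 r (u 32 1 (k v (k v r)))) r)))))) (k r r))))))))))))))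
 .z .z) .z))))

set_option maxRecDepth 100000 in
def N60 : NT :=
(.s 0xe57fe012aff00 4099 (n false (z 120) (z 124)) (u 3 6 (k r (k (c 2 4101 r v) (k (c 7 4097 r (u 5 1 (k r (k r r)))) (k (c 7 4096 r (u 5 1 (k r (k r r)))) (k (c 7 4097 r (u 5 1 (k r (k r r)))) r))))))
 (.s 0x1ff3aff001708 4088 (n false (n true (n true (n true (z 121) e) e) e) (n false (n true (n false e e) e) (n false e e))) (u 16 5 (k v (k v (k v (k (c 48 4099 r (u 32 1 (k v (k v r)))) (k (c 32 4097 r (u 48 1 (k v (k v r)))) r))))))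
 (.s 0x1ff2bbe001d10 4077 (n false (n true (n true (n true (z 52) e) e) e) (n true (n false (n false e e) (n false e e)) e)) (u 16 22 (k v (k v (k v (k v (k v (k v (k v (k (t 48 2 (u 32 0 (k (u 64 2 (k v (k (c 8 4078 (u 16 1 (k v (k v r))) v) r))) r))) (k (t 48 1 (u 32 0 (k (c 96 4099 r (u 64 2 (k v (k (c 8 4078 (u 16 1 (k v (k v r))) v) r)))) r))) r))))))))))
 (.s 0x1fd3eab001708 4087 (n false (n true (n true (n false (z 67) e) e) e) (n false (n true (n false e e) e) (n false e e))) (u 16 58 (k v (k v (k v (k v (k (c 48 4099 r r) (k (c 48 4099 r (u 32 0 (k (u 64 0 (k v (k v r))) r))) (k (c 32 4099 r r) (k (c 48 4099 r r) (k (c 32 4099 r (u 48 0 (k (u 80 0 (k v (k v r))) r))) (k (c 48 4099 r r) (k (c 48 4099 r r) (k (c 48 4099 r r) r)))))))))))))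
 (.s 0x1fd2efa008288 4076 (n false (n true (n true (n false (z 26) (n false e e)) e) e) (n false (n false e e) (n false e e))) (u 16 2 (k v (k (u 32 4 (k v (k v r))) r)))
 .z .z) (.s 0x1fdcafea00050 4087 (n false (n true (n true (n false (n true (z 156) e) e) e) e) (n false (n false e e) e)) (u 32 16 (k v (k v (k v (k (c 96 4099 r (u 64 6 (k v (k v (k v r))))) (k (c 64 4099 r (u 96 6 (k v (k v (k v r))))) r))))))
 .z .z)) (.s 0x1ff2bff001f40 4089 (n false (n true (n true (n true (z 124) e) e) e) (n true (n true (n false (n false e e) e) e) e)) (u 16 5 (k v (k (c 48 4097 r (u 32 1 (k v (k v r)))) (k (c 48 4096 r (u 32 1 (k v (k v r)))) (k (c 32 4098 r (u 48 0 (k v (k v r)))) (k (c 48 4096 r (u 32 1 (k v (k v r)))) (k (c 48 4097 r (u 32 1 (k v (k v r)))) (k (c 48 4097 r (u 32 1 (k v (k v r)))) (k (c 48 4096 r (u 32 1 (k v (k v r)))) (k (c 32 4097 r (u 48 1 (k v (k v r)))) r))))))))))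
 (.s 0x1ff2bff001708 4085 (n false (n true (n true (n true (z 124) e) e) e) (n false (n true (n false e e) e) (n false e e))) (u 16 1 (k v (k (c 48 4097 r (u 32 1 (k v (k v r)))) (k (c 48 4096 r (u 32 1 (k v (k v r)))) (k (c 32 4098 r (u 48 0 (k v (k v r)))) (k (c 48 4096 r (u 32 1 (k v (k v r)))) (k (c 48 4097 r (u 32 1 (k v (k v r)))) (k (c 48 4097 r (u 32 1 (k v (k v r)))) (k (c 48 4096 r (u 32 1 (k v (k v r)))) (k (c 48 4099 r (u 32 1 (k v (k v r)))) (k (c 32 4097 r (u 48 1 (k v (k v r)))) r)))))))))))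
 .z .z) (.s 0x1ff2fee001708 4086 (n false (n true (n true (n true (z 46) e) e) e) (n false (n true (n false e e) e) (n false e e))) (u 16 1 (k v (k (u 32 1 (k v (k v r))) (k (c 48 4099 r (u 32 0 (k v (k v r)))) (k (u 32 1 (k v (k v r))) (k (c 48 4097 r (u 32 1 (k v (k v r)))) (k (c 32 4095 r (u 48 1 (k v (k v r)))) r)))))))
 .z .z))) (.s 0xe55d5002a2288 4091 (n false (z 136) (n false (n false (n false e e) (n false e e)) (n false (n false e e) (n false e e)))) (u 2 4 (k v (k (t 6 1 r) (k (t 6 1 (u 4 0 (k r r))) (k (t 6 1 r) (k (t 4 1 r) (k (t 6 1 r) (k (t 4 2 r) (k (u 4 17 (k r (k r (k (c 8 4096 r (u 12 1 (k r (k r r)))) r)))) r)))))))))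
 (.s 0x1ff3efb001708 4085 (n false (n true (n true (n true (z 91) e) e) e) (n false (n true (n false e e) e) (n false e e))) (u 16 4 (k v (k v (k (u 32 1 (k v (k v r))) (k (c 32 4097 r (u 48 0 (k v (k v r)))) (k (c 32 4097 r (u 48 0 (k v (k v r)))) (k (c 32 4096 r (u 48 0 (k v (k v r)))) (k (c 32 4095 r (u 48 0 (k v (k v r)))) r))))))))
 (.s 0x1ff3eab001f40 4092 (n false (n true (n true (n true (z 67) e) e) e) (n true (n true (n false (n false e e) e) e) e)) (u 16 8 (k v (k v (k v (k v (k (c 32 4101 r (u 48 0 (k v (k v r)))) (k (c 8 4088 r v) (k (c 48 4101 r (u 32 1 (k v (k v r)))) (k (c 48 4102 r (u 32 1 (k v (k v r)))) (k (c 32 4101 r (u 48 1 (k v (k v r)))) (k (c 32 4101 r (u 48 1 (k v (k v r)))) r)))))))))))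
 .z .z) (.s 0xe555d002a2288 4091 (n false (z 160) (n false (n false (n false e e) (n false e e)) (n false (n false e e) (n false e e)))) (u 2 2 (k (t 6 3 r) (k (t 6 2 r) (k r (k (t 4 1 r) (k r (k r (k r (k (u 6 2 (k (t 4 1 v) (k (c 14 4097 r (u 10 0 (k r (k r r)))) r))) (k (t 6 2 (u 4 1 (k (c 12 4096 r r) (k (c 12 4096 r r) (k (c 8 4098 r r) (k (c 12 4097 r r) (k (c 12 4096 r r) (k (c 12 4098 r r) r)))))))) r))))))))))
 .z .z)) (.s 0xe57f5002fe808 4079 (n false (n false (n true (n true (n true (n false (n false e e) e) e) e) e) (n false e e)) (z 156)) (u 3 5 (k v (k v (k (c 7 4099 r (u 5 1 (k v (k v r)))) (k (c 5 4098 r (u 7 1 (k v (k v r)))) (k (c 5 4097 r (u 7 1 (k v (k v r)))) (k (c 5 4099 r (u 7 1 (k v (k v r)))) r)))))))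
 (.s 0xe5775002a2288 4091 (n false (z 148) (n false (n false (n false e e) (n false e e)) (n false (n false e e) (n false e e)))) (u 2 10 (k v (k v (k (t 6 3 r) (k (t 6 1 r) (k r (k (t 6 2 r) (k r (k r r)))))))))
 .z .z) .z))) (.s 0xe75fe012bff00 4097 (n false (z 121) (z 124)) (u 3 1 (k r (k (c 7 4097 r (u 5 1 (k r (k r r)))) (k (c 7 4096 r (u 5 1 (k r (k r r)))) (k (c 5 4098 r r) (k (c 7 4096 r (u 5 1 (k r (k r r)))) (k (c 7 4097 r (u 5 1 (k r (k r r)))) (k (c 7 4097 r (u 5 1 (k r (k r r)))) (k (c 7 4096 r (u 5 1 (k r (k r r)))) (k (c 7 4099 r (u 5 1 (k r (k r r)))) (k (c 5 4097 r (u 7 1 (k r (k r r)))) r)))))))))))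
 (.s 0xe5fdc012bff00 4095 (n false (z 124) (z 46)) (u 2 1 (k r (k (c 6 4097 r (u 4 1 (k r (k r r)))) (k (c 6 4096 r (u 4 1 (k r (k r r)))) (k (c 4 4098 r (u 6 0 (k r (k r r)))) (k (c 6 4096 r (u 4 1 (k r (k r r)))) (k (c 6 4097 r (u 4 1 (k r (k r r)))) (k (c 6 4097 r (u 4 1 (k r (k r r)))) (k (c 6 4096 r (u 4 1 (k r (k r r)))) (k (c 6 4099 r (u 4 1 (k r (k r r)))) (k (c 4 4097 r (u 6 1 (k r (k r r)))) r)))))))))))
 (.s 0xe5d55002ee108 4084 (n false (z 130) (n false (n true (n false (n true (n false e e) e) (n false e e)) e) (n false e e))) (u 2 1 (k v (k (t 6 1 r) (k (t 6 1 r) r))))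
 (.s 0xe57fe012bff00 4095 (n false (z 124) (z 124)) (u 2 1 (k r (k (c 6 4097 r r) (k (c 6 4096 r r) (k (c 4 4098 r r) (k (c 6 4096 r r) (k (c 6 4097 r r) (k (c 6 4097 r r) (k (c 6 4096 r r) (k (c 6 4099 r r) (k (c 4 4097 r r) r)))))))))))
 .z .z) (.s 0xe5fdc012aff00 4101 (n false (z 120) (z 46)) (u 2 1 (k (c 3 4099 r v) (k r (k r (k (c 6 4096 r r) (k (c 6 4099 r (u 4 1 (k r (k r r)))) (k (c 4 4098 r (u 6 1 (k r (k r r)))) (k (c 4 4101 r (u 6 0 (k r (k r r)))) (k (c 6 4099 r (u 4 1 (k r (k r r)))) (k (c 4 4101 r (u 6 0 (k r (k r r)))) r))))))))))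
 .z .z)) (.s 0xe75f5002ee108 4084 (n false (z 153) (n false (n true (n false (n true (n false e e) e) (n false e e)) e) (n false e e))) (u 2 4 (k v (k r (k (u 6 2 (k (c 3 4089 v r) (k r r))) (k (u 4 20 (k r (k r (k (c 12 4097 r r) (k (c 12 4096 r r) (k (c 12 4097 r r) (k (c 12 4097 r r) (k (c 8 4097 r r) r)))))))) (k (u 4 68 (k r (k r (k (t 6 3 v) (k (c 3 4089 v r) r))))) (k r r)))))))
 (.s 0xe5fdc012fee00 4095 (n false (z 46) (z 46)) (u 2 2 (k r (k (c 6 4099 r (u 4 0 (k r (k r r)))) (k (u 4 1 (k r (k r r))) (k (u 4 1 (k r (k r r))) (k (c 6 4097 r (u 4 1 (k r (k r r)))) (k (c 4 4095 r (u 6 1 (k r (k r r)))) r)))))))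
 .z .z) .z)) (.s 0xe7755002ee108 4084 (n false (z 133) (n false (n true (n false (n true (n false e e) e) (n false e e)) e) (n false e e))) (u 2 5 (k v (k (u 6 1 (k (c 3 4089 v r) (k r r))) (k (u 4 71 (k r (k r (k (c 12 4101 r (c 9 4092 v r)) (k (c 8 4101 r (c 9 4092 v r)) (k (c 8 4101 r (c 9 4092 v r)) r)))))) (k (u 4 2 (k r (k r (k (c 12 4099 r r) (k (c 8 4095 r r) (k (c 8 4095 r r) r)))))) (k (u 4 2 (k r (k (c 12 4099 r r) (k (c 8 4095 r r) r)))) r))))))
 (.s 0xe75fe013aff00 4099 (n false (z 121) (z 121)) (u 2 5 (k r (k r (k (u 3 2 (k v (k v (k (c 7 4099 r (u 5 1 (k v (k v r)))) (k (c 5 4095 r (u 7 0 (k v (k v r)))) (k (c 5 4095 r (u 7 0 (k v (k v r)))) r)))))) (k (c 6 4099 r (u 4 1 (k r (k r r)))) (k (c 4 4097 r (u 6 1 (k r (k r r)))) r))))))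
 (.s 0xe75fe012fee00 4097 (n false (z 121) (z 46)) (u 2 5 (k r (k r (k r (k (c 6 4099 r (u 4 1 (k r (k r r)))) (k (c 4 4097 r (u 6 1 (k r (k r r)))) r))))))
 .z .z) (.s 0xe7755002a2288 4091 (n false (z 133) (n false (n false (n false e e) (n false e e)) (n false (n false e e) (n false e e)))) (u 2 0 (k r (k r (k (t 6 1 r) (k (t 6 1 r) (k (t 4 2 r) (k (t 6 1 r) (k r (k r r)))))))))
 .z .z)) (.s 0xe775c012baf00 4095 (n false (z 100) (z 37)) (u 3 18 (k r (k r (k r (k r (k r (k (c 2 4100 r r) r)))))))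
 (.s 0xe775c012aff00 4099 (n false (z 120) (z 37)) (u 3 1 (k (c 2 4101 r v) (k (u 2 2 (k v (k v (k r (k r (k (c 6 4101 r r) (k (c 4 4099 r (u 6 0 (k v (k v r)))) (k (c 6 4096 r r) (k (c 3 4101 v (t 6 1 (u 4 0 (k r r)))) (k (c 6 4099 r (u 4 1 (k v (k v r)))) (k (c 4 4098 r (u 6 1 (k v (k v r)))) (k (c 4 4101 r (u 6 0 (k v (k v r)))) (k r (k (c 6 4099 r (u 4 1 (k v (k v r)))) (k (c 4 4101 r (u 6 0 (k v (k v r)))) r))))))))))))))) r)))
 .z .z) .z))))

set_option maxRecDepth 100000 in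
def N61 : NT :=
(.s 0xe7d5e013bae00 4095 (n false (z 99) (z 37)) (u 2 0 (k r (k r (k (t 4 1 (u 6 0 (k (c 14 4101 r (t 10 3 r)) r))) (k r (k r r))))))
 (.s 0xe77d5002ee108 4083 (n false (z 141) (n false (n true (n false (n true (n false e e) e) (n false e e)) e) (n false e e))) (u 2 6 (k v (k (t 6 3 (u 4 10 (k v (k (c 12 4099 r r) (k (c 8 4102 r (u 12 1 (k v (k v r)))) r))))) r)))
 (.s 0xe7776012bff00 4099 (n false (z 85) (z 124)) (u 3 5 (k r (k (c 7 4097 r (u 5 1 (k r (k r r)))) (k (c 7 4096 r (u 5 1 (k r (k r r)))) (k (c 5 4098 r (u 7 0 (k r (k r r)))) (k (c 7 4096 r (u 5 1 (k r (k r r)))) (k (c 7 4097 r (u 5 1 (k r (k r r)))) (k (c 7 4097 r (u 5 1 (k r (k r r)))) (k (c 7 4096 r (u 5 1 (k r (k r r)))) (k (c 5 4097 r (u 7 1 (k r (k r r)))) r))))))))))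
 (.s 0xe775c013aeb00 4102 (n false (z 73) (z 37)) (u 2 0 (k (u 3 1 (k (c 2 4102 (t 2 2 v) v) (k (u 4 0 (k v (k v r))) r))) r))
 (.s 0xe775c012fee00 4099 (n false (z 46) (z 37)) (u 3 6 (k r (k (c 2 4099 r v) (k (u 2 1 (k v (k (u 4 1 (k v (k v r))) (k (c 6 4099 r (u 4 0 (k v (k v r)))) (k (u 4 1 (k v (k v r))) (k (c 6 4097 r (u 4 1 (k v (k v r)))) (k (c 4 4095 r (u 6 1 (k v (k v r)))) r))))))) r))))
 .z .z) (.s 0xe775c013aff00 4099 (n false (z 121) (z 37)) (u 3 1 (k (c 2 4101 r v) (k (u 2 4 (k v (k v (k (c 6 4099 r (u 4 1 (k v (k v r)))) (k (c 4 4097 r (u 6 1 (k v (k v r)))) r))))) r)))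
 .z .z)) (.s 0xe7776013aff00 4097 (n false (z 121) (z 85)) (u 3 10 (k (c 7 4099 r r) (k (c 7 4099 r (c 2 4101 r r)) (k (c 7 4099 r r) (k r (k (c 7 4101 r r) (k (c 7 4096 r (c 2 4101 r r)) (k (c 5 4099 r r) r))))))))
 (.s 0xe7776012fee00 4099 (n false (z 46) (z 85)) (u 2 3 (k (c 3 4099 r v) (k r (k (u 4 1 (k r (k r r))) (k (c 6 4097 r (u 4 1 (k r (k r r)))) (k (c 4 4095 r (u 6 1 (k r (k r r)))) r))))))
 .z .z) (.s 0xe7776013bae00 4097 (n false (z 85) (z 37)) (u 3 1 (k (c 2 4099 r v) (k (u 2 10 (k (c 6 4099 r r) (k (c 6 4099 r (c 3 4101 v r)) (k (c 6 4099 r r) (k (u 4 0 (k v (k v (k v (k (t 12 2 r) r))))) (k (c 6 4101 r r) (k (c 6 4096 r (c 3 4101 v r)) (k (c 4 4099 r r) r)))))))) r)))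
 .z .z))) (.s 0xe7d56012fee00 4101 (n false (z 46) (z 67)) (u 2 4 (k r (k r (k (c 6 4099 r (u 4 0 (k r (k r r)))) (k (u 4 1 (k r (k r r))) (k (u 4 13 (k r (k (u 3 0 (k v (k v r))) r))) r))))))
 (.s 0xe7d56012afe00 4101 (n false (z 67) (z 56)) (u 2 7 (k (c 2 4094 v (t 3 1 v)) (k r (k (c 6 4101 r r) (k (c 4 4101 r r) (k (c 4 4101 r r) r))))))
 (.s 0xe77f5002ee108 4082 (n false (z 157) (n false (n true (n false (n true (n false e e) e) (n false e e)) e) (n false e e))) (u 2 2 (k v (k v (k v (k (t 6 1 (u 4 0 (k v (k (c 12 4099 r (u 8 0 (k v (k v r)))) r)))) r)))))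
 .z .z) (.s 0xe7d56012bff00 4099 (n false (z 124) (z 67)) (u 2 3 (k r (k r (k (c 6 4097 r (u 4 1 (k r (k r r)))) (k (c 6 4096 r (u 4 1 (k r (k r r)))) (k (c 6 4097 r (u 4 1 (k r (k r r)))) r))))))
 .z .z)) (.s 0xe7d5e013aff00 4095 (n false (z 121) (z 99)) (u 3 0 (k r (k r (k (t 5 1 (u 7 0 (k (c 15 4101 r (t 11 3 r)) r))) (k r (k (u 7 0 (k (t 11 3 (t 15 1 (u 2 7 (k r (k r (k (c 6 4099 r r) r)))))) r)) r))))))
 (.s 0xe7d56013bbb00 4099 (n false (z 85) (z 67)) (u 2 14 (k r (k r (k (c 6 4099 r (u 4 10 (k r (k (u 3 0 (k v (k v r))) (k r (k r (k (u 3 0 (k v (k v r))) (k (t 12 1 r) r)))))))) (k (c 6 4099 r (c 3 4103 r r)) (k (c 6 4099 r (u 4 4 (k r (k r (k (u 3 0 (k v (k v r))) (k r r)))))) (k (c 6 4096 r (c 3 4103 r r)) r)))))))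
 .z .z) .z))) (.s 0xe7dfe013bbb00 4098 (n false (z 123) (z 85)) (u 3 19 (k r (k (c 2 4100 r v) (k r (k (c 7 4099 r r) (k (c 7 4099 r (c 2 4100 r r)) (k (u 2 8 (k r (k r (k r (k r (k (c 3 4097 r v) r)))))) r)))))))
 (.s 0xe7dfe012bff00 4099 (n false (z 123) (z 124)) (u 3 6 (k r (k (c 2 4100 r v) (k (c 7 4097 r (u 5 1 (k r (k r r)))) (k (c 7 4096 r (u 5 1 (k r (k r r)))) (k (c 7 4097 r (u 5 1 (k r (k r r)))) r))))))
 (.s 0xe7df6013bae00 4097 (n false (z 91) (z 37)) (u 3 1 (k (c 2 4098 r v) (k (u 2 4 (k v (k v (k (u 4 1 (k v (k v r))) (k (c 4 4097 r (u 6 0 (k v (k v r)))) (k (c 4 4097 r (u 6 0 (k v (k v r)))) (k (c 4 4096 r (u 6 0 (k v (k v r)))) (k (c 4 4095 r (u 6 0 (k v (k v r)))) r)))))))) r)))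
 (.s 0xe7df6013aff00 4096 (n false (z 91) (z 121)) (u 3 4 (k r (k (u 2 1 (k v (k v (k v (k (u 4 0 (k v (k v r))) (k (c 4 4097 r (u 6 0 (k v (k v r)))) (k (c 4 4095 r (u 6 0 (k v (k v r)))) r))))))) (k (c 7 4099 r (u 5 1 (k r (k r r)))) (k (c 5 4097 r (u 7 1 (k r (k r r)))) r)))))
 .z .z) (.s 0xe7df6013eab00 4101 (n false (z 91) (z 67)) (u 3 8 (k r (k r (k (c 2 4098 r v) (k r (k (c 5 4101 r (u 7 0 (k r (k r r)))) (k (c 2 4098 r r) (k (c 7 4101 r (u 5 1 (k r (k r r)))) (k (c 7 4102 r (u 5 1 (k r (k r r)))) (k (c 5 4101 r (u 7 1 (k r (k r r)))) (k (c 5 4101 r (u 7 1 (k r (k r r)))) r)))))))))))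
 .z .z)) (.s 0xe7dfe013bae00 4098 (n false (z 123) (z 37)) (u 3 1 (k (c 2 4100 r v) (k (u 2 4 (k v (k (c 6 4099 r (u 4 0 (k v (k v (k v (k (t 12 2 r) r)))))) (k r (k r (k (c 4 4096 r (u 6 1 (k v (k v r)))) (k (c 3 4101 v (t 4 2 r)) r))))))) r)))
 (.s 0xe7dfe012fee00 4100 (n false (z 123) (z 46)) (u 3 5 (k (c 2 4100 r v) (k r (k r (k (u 5 0 (k r (k r r))) (k (c 7 4097 r (u 5 1 (k r (k r r)))) r))))))
 .z .z) .z)) (.s 0xe7f56012eba00 4095 (n false (z 71) (z 18)) (u 2 1 (k (u 3 0 (k (u 5 0 (k v (k v r))) r)) (k (c 6 4099 r (u 3 0 (k r r))) (k (u 4 0 (k (u 3 0 (k (u 5 0 (k v (k v r))) r)) (k (u 3 0 (k (u 5 0 (k v (k v r))) r)) r))) (k (c 4 4099 r (u 3 0 (k r r))) (k (c 4 4099 r (u 3 0 (k r r))) (k (c 4 4099 r (u 3 0 (k r r))) r)))))))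
 (.s 0xe7f56012afe00 4099 (n false (z 56) (z 71)) (u 3 3 (k r (k r (k (u 5 0 (k r (k r r))) (k (c 5 4099 r (u 7 1 (k r (k r r)))) (k (c 5 4099 r (u 7 1 (k r (k r r)))) (k (c 5 4099 r (u 7 1 (k r (k r r)))) r)))))))
 (.s 0xe7dfe013efb00 4099 (n false (z 123) (z 91)) (u 3 8 (k (c 2 4100 r v) (k r (k r (k (u 5 0 (k r (k r r))) (k (c 5 4097 r (u 7 0 (k r (k r r)))) r))))))
 .z .z) (.s 0xe7f56012bff00 4099 (n false (z 71) (z 124)) (u 3 3 (k r (k r (k (c 7 4097 r (u 5 1 (k r (k r r)))) (k (c 7 4096 r (u 5 1 (k r (k r r)))) (k (c 7 4097 r (u 5 1 (k r (k r r)))) r))))))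
 .z .z)) (.s 0xe7f56013aff00 4100 (n false (z 121) (z 71)) (u 3 1 (k r (k (c 7 4099 r (u 5 1 (k r (k r r)))) (k (u 5 0 (k r (k r r))) (k (c 5 4099 r (u 7 1 (k r (k r r)))) (k (c 5 4099 r (u 7 1 (k r (k r r)))) (k (c 5 4099 r (u 7 1 (k r (k r r)))) r)))))))
 (.s 0xe7f56012fee00 4100 (n false (z 46) (z 71)) (u 3 1 (k r (k (c 7 4099 r (u 5 1 (k r (k r r)))) (k (u 5 0 (k r (k r r))) (k (c 5 4099 r (u 7 1 (k r (k r r)))) (k (c 5 4099 r (u 7 1 (k r (k r r)))) (k (c 5 4099 r (u 7 1 (k r (k r r)))) r)))))))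
 .z .z) .z))))

set_option maxRecDepth 100000 in
def N62 : NT :=
(.s 0xe95fd4005d108 4082 (n false (n false (z 156) e) (n false (n true (n false (n false e e) (n false e e)) e) (n false e e))) (u 4 1 (k v (k (c 12 4099 r (u 8 1 (k v (k v r)))) (k (c 8 4098 r (u 12 1 (k v (k v r)))) (k (c 8 4097 r (c 3 4090 v r)) (k (c 8 4099 r (u 12 1 (k v (k v r)))) (k (c 8 4095 r (c 3 4090 v r)) r)))))))
 (.s 0xe95df003fb840 4082 (n false (n true (n true (n true (n false (n true (n false e e) e) (n false e e)) e) e) e) (n false (z 52) e)) (u 5 10 (k v (k v (k v (k v (k v (k (t 13 1 (u 9 0 (k v (k v r)))) r)))))))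
 (.s 0xe9555400ee108 4073 (n false (n false (z 128) (n true (n false (n true (n false e e) e) (n false e e)) e)) (n false e e)) (u 4 5 (k v (k (c 12 4097 r r) (k (c 12 4099 r r) (k r (k (c 8 4096 r r) (k (c 12 4097 r r) (k (c 12 4097 r r) (k (c 8 4095 r (u 12 0 (k v (k v r)))) (k (c 8 4099 r r) (k (c 12 4097 r (u 8 1 (k v (k v r)))) (k (c 8 4098 r r) (k (c 8 4099 r r) (k (c 12 4095 r (u 8 1 (k v (k v r)))) (k (c 8 4097 r (u 12 0 (k v (k v r)))) (k (c 8 4095 r r) (k (c 8 4099 r r) (k (c 8 4095 r (u 12 1 (k v (k v r)))) (k (c 8 4097 r r) r)))))))))))))))))))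
 (.s 0xe7f56013efb00 4097 (n false (z 91) (z 71)) (u 3 1 (k r (k (c 7 4099 r (u 5 1 (k r (k r r)))) (k (u 5 0 (k r (k r r))) (k (c 5 4099 r (u 7 1 (k r (k r r)))) (k (c 5 4099 r (u 7 1 (k r (k r r)))) (k (c 5 4099 r (u 7 1 (k r (k r r)))) r)))))))
 (.s 0xe7f56013bbb00 4100 (n false (z 85) (z 71)) (u 3 1 (k r (k (c 7 4099 r (u 5 1 (k r (k r r)))) (k (u 5 0 (k r (k r r))) (k (c 5 4099 r (u 7 1 (k r (k r r)))) (k (c 5 4099 r (u 7 1 (k r (k r r)))) (k (c 5 4099 r (u 7 1 (k r (k r r)))) r)))))))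
 .z .z) (.s 0xe9555400e1708 4072 (n false (n false (z 128) (n true (n false e e) e)) (n false (n true (n false e e) e) (n false e e))) (u 4 5 (k v (k (c 8 4097 r r) (k (c 12 4099 r r) (k r (k (c 8 4096 r r) (k (c 12 4097 r r) (k (c 12 4097 r r) (k (c 8 4095 r (u 12 0 (k v (k v r)))) (k (c 8 4099 r r) (k (c 12 4097 r (u 8 1 (k v (k v r)))) (k (c 8 4098 r r) (k (c 8 4099 r r) (k (c 12 4095 r (u 8 1 (k v (k v r)))) (k (c 8 4097 r (u 12 0 (k v (k v r)))) (k (c 8 4095 r r) (k (c 8 4099 r r) (k (c 8 4095 r (u 12 1 (k v (k v r)))) (k (c 8 4097 r r) r)))))))))))))))))))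
 .z .z)) (.s 0xe95d78047dc20 4068 (n false (n false (z 100) (n false e e)) (n true (n true (n false (n true (n false e e) e) (n false e e)) e) e)) (u 4 0 (k (c 12 4096 r r) (k (c 12 4096 r r) (k (c 12 4096 r r) (k (c 12 4097 r r) (k (c 12 4096 r r) (k (c 12 4096 r r) r)))))))
 (.s 0xe957f8047dc20 4068 (n false (n false (z 120) (n false e e)) (n true (n true (n false (n true (n false e e) e) (n false e e)) e) e)) (u 4 4 (k (c 12 4099 r r) (k (c 12 4100 r r) (k (c 12 4099 r r) (k (c 12 4100 r r) (k (c 8 4095 r r) (k (c 12 4097 r r) (k (c 8 4097 r r) (k (c 12 4096 r r) (k (c 12 4096 r (u 8 0 (k (u 16 0 (k v (k v r))) r))) (k (c 12 4100 r (u 8 0 (k (u 16 0 (k v (k v r))) r))) (k (c 12 4101 r r) (k (c 8 4099 r r) (k (c 12 4100 r r) (k (c 12 4097 r r) (k (c 12 4099 r r) (k (c 8 4095 r r) (k (c 8 4099 r r) (k (c 12 4097 r r) r)))))))))))))))))))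
 .z .z) (.s 0xe95df003eb840 4082 (n false (n true (n true (n false (n false (n true (n false e e) e) (n false e e)) e) e) e) (n false (z 52) e)) (u 5 157 (k v (k v (k v (k v (k v (k (t 13 1 (u 9 0 (k v (k v r)))) r)))))))
 .z .z))) (.s 0xe95df00741708 4064 (n false (n false (z 52) (n true (n false (n false e e) e) e)) (n false (n true (n false e e) e) (n false e e))) (u 4 45 (k v (k v (k v (k v r)))))
 (.s 0xe95df0047f440 4077 (n false (n false (z 52) (n false e e)) (n true (n true (n true (n false (n false e e) (n false e e)) e) e) e)) (u 4 42 (k v (k v (k v (k (t 12 1 (u 8 0 (k v (k v r)))) r)))))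
 (.s 0xe95df0047dc20 4082 (n false (n false (z 52) (n false e e)) (n true (n true (n false (n true (n false e e) e) (n false e e)) e) e)) (u 4 25 (k v (k v (k v (k (t 12 1 (u 8 0 (k v (k v r)))) r)))))
 .z .z) (.s 0xe95df00570850 4064 (n false (n false (z 52) (n false (n false (n true (n false e e) e) (n false e e)) e)) (n false (n false e e) e)) (u 4 45 (k v (k v (k v (k v r)))))
 .z .z)) (.s 0xe95f78070ee10 4081 (n false (n false (z 108) (n true (n false e e) e)) (n true (n false (n true (n false e e) e) (n false e e)) e)) (u 4 0 (k (t 12 2 (u 8 0 (k (t 24 1 r) r))) r))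
 (.s 0xe95df00770850 4064 (n false (n false (z 52) (n true (n false (n true (n false e e) e) (n false e e)) e)) (n false (n false e e) e)) (u 4 74 (k v (k v (k v (k v r)))))
 .z .z) .z))) (.s 0xe95ff80770850 4076 (n false (n false (z 124) (n true (n false (n true (n false e e) e) (n false e e)) e)) (n false (n false e e) e)) (u 4 16 (k v (k (c 12 4097 r (u 8 0 (k v (k v r)))) (k (c 12 4096 r (u 8 0 (k v (k v r)))) (k (c 12 4097 r (u 8 0 (k v (k v r)))) r)))))
 (.s 0xe95fd400e8288 4073 (n false (n false (z 156) (n true (n false (n false e e) e) e)) (n false (n false e e) (n false e e))) (u 4 1 (k v (k (c 12 4099 r (u 8 1 (k v (k v r)))) (k (c 8 4098 r (u 12 1 (k v (k v r)))) (k (c 8 4097 r (u 12 1 (k v (k v r)))) (k (c 8 4099 r (u 12 1 (k v (k v r)))) (k (c 8 4095 r (u 12 0 (k v (k v r)))) r)))))))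
 (.s 0xe95fd400a8288 4077 (n false (n false (z 156) (n false (n false (n false e e) e) e)) (n false (n false e e) (n false e e))) (u 4 1 (k v (k (c 12 4099 r (u 8 1 (k v (k v r)))) (k (c 8 4098 r (u 12 1 (k v (k v r)))) (k (c 8 4097 r (u 12 1 (k v (k v r)))) (k (c 8 4099 r (u 12 1 (k v (k v r)))) (k (c 8 4095 r (u 12 0 (k v (k v r)))) r)))))))
 (.s 0xe95fd400a2288 4080 (n false (n false (z 156) (n false (n false e e) (n false e e))) (n false (n false e e) (n false e e))) (u 4 1 (k v (k (c 12 4099 r (u 8 1 (k v (k v r)))) (k (c 8 4098 r (u 12 1 (k v (k v r)))) (k (c 8 4097 r (u 12 1 (k v (k v r)))) (k (c 8 4099 r (u 12 1 (k v (k v r)))) (k (c 8 4095 r (u 12 0 (k v (k v r)))) r)))))))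
 .z .z) (.s 0xe95fd400e1708 4069 (n false (n false (z 156) (n true (n false e e) e)) (n false (n true (n false e e) e) (n false e e))) (u 4 1 (k v (k (c 12 4099 r (u 8 1 (k v (k v r)))) (k (c 8 4098 r (u 12 1 (k v (k v r)))) (k (c 8 4097 r (u 12 1 (k v (k v r)))) (k (c 8 4099 r (u 12 1 (k v (k v r)))) (k (c 8 4095 r (u 12 0 (k v (k v r)))) r)))))))
 .z .z)) (.s 0xe95ff8045d108 4084 (n false (n false (z 124) (n false e e)) (n false (n true (n false (n false e e) (n false e e)) e) (n false e e))) (u 4 1 (k v (k (c 12 4097 r (u 8 1 (k v (k v r)))) (k (c 12 4096 r (u 8 1 (k v (k v r)))) (k (c 8 4098 r (u 12 0 (k v (k v r)))) (k (c 12 4096 r (u 8 1 (k v (k v r)))) (k (c 12 4097 r (u 8 1 (k v (k v r)))) (k (c 12 4097 r (u 8 1 (k v (k v r)))) (k (c 12 4096 r (u 8 1 (k v (k v r)))) (k (c 12 4099 r (u 8 1 (k v (k v r)))) (k (c 8 4097 r (u 12 1 (k v (k v r)))) r)))))))))))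
 (.s 0xe95fd400ee108 4069 (n false (n false (z 156) (n true (n false (n true (n false e e) e) (n false e e)) e)) (n false e e)) (u 4 1 (k v (k (c 12 4099 r (u 8 1 (k v (k v r)))) (k (c 8 4098 r (u 12 1 (k v (k v r)))) (k (c 8 4097 r (u 12 1 (k v (k v r)))) (k (c 8 4099 r (u 12 1 (k v (k v r)))) (k (c 8 4095 r (u 12 0 (k v (k v r)))) r)))))))
 .z .z) .z)) (.s 0xe97f700770850 4076 (n false (n false (n true (n false (n true (n false e e) e) (n false e e)) e) (z 46)) (n false (n false e e) e)) (u 6 24 (k v (k v (k v (k (u 10 0 (k v (k v r))) (k (c 14 4097 r (u 10 0 (k v (k v r)))) r))))))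
 (.s 0xe97f70045d108 4084 (n false (n false (z 46) (n false e e)) (n false (n true (n false (n false e e) (n false e e)) e) (n false e e))) (u 4 1 (k v (k (c 3 4090 v r) (k (c 12 4099 r (u 8 0 (k v (k v r)))) (k (u 8 1 (k v (k v r))) (k (c 12 4097 r (c 3 4090 v r)) (k (c 8 4095 r (c 3 4090 v r)) r)))))))
 (.s 0xe97770047dc20 4076 (n false (n false (z 42) (n false e e)) (n true (n true (n false (n true (n false e e) e) (n false e e)) e) e)) (u 4 3 (k v (k r (k r (k r (k (u 8 25 (k v (k v (k v (k (c 16 4097 r (u 24 1 (k v (k v r)))) r))))) (k r r)))))))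
 .z .z) (.s 0xe97f7005c23a0 4075 (n false (n false (z 46) (n false (n true (n false e e) e) (n false e e))) (n true (n false (n false e e) e) e)) (u 4 2 (k v (k (c 12 4099 r (u 8 0 (k v (k v r)))) (k (u 8 1 (k v (k v r))) (k (u 8 1 (k v (k v r))) (k (c 12 4097 r (u 8 1 (k v (k v r)))) (k (c 8 4095 r (u 12 1 (k v (k v r)))) r)))))))
 .z .z)) (.s 0xe9d7f80741d10 4074 (n false (n false (z 121) (n true (n false (n false e e) e) e)) (n true (n false (n false e e) (n false e e)) e)) (u 4 1 (k v (k (c 12 4099 r (u 8 1 (k v (k v r)))) (k (c 8 4097 r (u 12 1 (k v (k v r)))) (k (c 8 4095 r (u 12 0 (k v (k v r)))) (k (c 8 4095 r (u 12 0 (k v (k v r)))) r))))))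
 (.s 0xe9d7f805c23a0 4077 (n false (n false (z 121) (n false (n true (n false e e) e) (n false e e))) (n true (n false (n false e e) e) e)) (u 4 1 (k v (k (c 12 4099 r (u 8 1 (k v (k v r)))) (k (c 8 4097 r (u 12 1 (k v (k v r)))) (k (c 8 4095 r (u 12 0 (k v (k v r)))) (k (c 8 4095 r (u 12 0 (k v (k v r)))) r))))))
 .z .z) .z))))

end Pool.Agent.Helper91.ND1
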