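import Pool.Agent.Helper66.ND.Defs

/-! part of the certificate for the constant 25/48 (generated) -/

namespace Pool.Agent.Helper91.ND1

open Pool.Agent.Helper66.IL
open Pool.Agent.Helper66.ND
open Pool.Agent.Helper66.ND.LT
open Pool.Agent.Helper66.ND.Ct

set_option maxRecDepth 100000 in
def N63 : NT :=
(.s 0xea5555002b840 4079 (n false (n false (n false (z 128) (n false (n false (n true (n false e e) e) (n false e e)) e)) e) e) (u 8 12 (k v (k v (k (c 24 4097 r (u 16 159 (k v (k v (k v r))))) (k (c 16 4095 r r) (k (c 16 4096 r (u 24 159 (k v (k v (k v r))))) (k (c 16 4095 r (u 24 1 (k v (k (c 56 4097 r (u 40 0 (k v (k v r)))) r)))) (k (c 24 4097 r (u 16 5 (k v (k v r)))) (k (c 16 4095 r (u 24 0 (k v (k v r)))) (k (c 16 4099 r (u 24 5 (k v (k v r)))) (k (c 24 4095 r (u 16 1 (k v (k v r)))) (k (c 16 4097 r (u 24 0 (k v (k v r)))) (k (c 24 4097 r (u 16 1 (k v (k v (k v (k (t 48 1 (u 32 4 (k v (k v r)))) r)))))) (k (c 16 4095 r (u 24 1 (k v (k v r)))) (k (c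 24 4097 r r) r)))))))))))))))
 (.s 0xe9f778047dc20 4071 (n false (n false (z 107) (n false e e)) (n true (n true (n false (n true (n false e e) e) (n false e e)) e) e)) (u 4 12 (k v (k (c 12 4099 r r) (k (u 8 3 (k v (k (c 24 4099 r (u 16 4 (k v (k v r)))) r))) (k (c 12 4100 r (u 8 0 (k (u 16 0 (k v (k v r))) r))) r)))))
 (.s 0xe9ddd80741d10 4074 (n false (n false (z 85) (n true (n false (n false e e) e) e)) (n true (n false (n false e e) (n false e e)) e)) (u 4 4 (k v (k (c 12 4099 r r) (k (t 12 1 (u 8 3 (k v (k v r)))) (k (c 12 4099 r (u 8 5 (k v (k v r)))) (k (u 8 12 (k v (k v r))) (k (c 12 4096 r (c 4 4095 r v)) (k (c 8 4099 r r) r))))))))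
 (.s 0xe9ddd8045d108 4084 (n false (n false (n true (n false (n false e e) (n false e e)) e) (n false e e)) (n false (z 85) (n false e e))) (u 5 4 (k v (k (c 13 4099 r r) (k (c 13 4099 r r) (k (c 13 4099 r (u 9 2 (k v (k v (k v (k (t 25 1 (u 17 6 (k v (k v (k (t 49 1 (u 33 0 (k v (k v r)))) r))))) r)))))) (k (c 2 4090 v r) (k (c 13 4096 r r) (k (c 9 4099 r r) r))))))))
 (.s 0xe9ddd4008ee10 4078 (n false (n false (z 149) (n false e e)) (n true (n false (n true (n false e e) e) (n false e e)) e)) (u 4 4 (k v (k (c 12 4099 r (u 8 19 (k v (k (c 24 4099 r (u 16 12 (k v (k v r)))) (k (c 16 4096 r (u 24 1 (k v (k v r)))) r))))) (k (c 8 4099 r (u 12 0 (k (u 20 0 (k v (k v r))) r))) (k (c 12 4102 r r) (k (c 12 4102 r r) (k (c 8 4101 r r) r)))))))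
 .z .z) (.s 0xe9ddd80541708 4074 (n false (n false (z 85) (n false (n false (n false e e) e) e)) (n false (n true (n false e e) e) (n false e e))) (u 4 23 (k v (k v (k v (k (u 8 68 (k v (k v (k v r)))) r)))))
 .z .z)) (.s 0xe9f5580475c20 4073 (n false (n false (z 67) (n false e e)) (n true (n false (n false (n true (n false e e) e) (n false e e)) e) e)) (u 4 115 (k v (k (c 12 4099 r r) (k (c 8 4096 r (u 12 0 (k (u 20 0 (k v (k v r))) r))) (k (c 8 4096 r (u 12 0 (k (u 20 0 (k v (k v r))) r))) (k (c 12 4097 r r) (k (c 12 4099 r r) (k r (k (c 12 4097 r r) (k (c 12 4099 r (u 8 1 (k v (k (c 24 4097 r (u 16 0 (k v (k v r)))) r)))) (k (c 8 4100 r r) (k (c 12 4099 r (u 8 0 (k (u 16 0 (k v (k v r))) r))) (k (c 8 4099 r r) (k (c 12 4099 r r) (k (c 8 4099 r (u 12 0 (k (u 20 0 (k v (k v r))) r))) (k (c 12 4100 r r) (k (c 12 4100 r r) (k (c 12 4099 r r) (k (c 12 4099 r r) (k (c 12 4100 r r) (k (c 12 4099 r r) r)))))))))))))))))))))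
 (.s 0xe9f5580475110 4076 (n false (n false (z 67) (n false e e)) (n true (n false (n false (n false e e) (n false e e)) (n false e e)) e)) (u 4 90 (k v (k v (k v (k (c 12 4099 r r) (k (c 12 4097 r r) (k (c 12 4099 r r) (k r (k (c 12 4097 r r) (k (c 12 4099 r (u 8 1 (k v (k (c 24 4097 r (u 16 0 (k v (k v r)))) r)))) (k (c 12 4099 r (u 8 0 (k (u 16 0 (k v (k v r))) r))) (k (c 8 4099 r r) (k (c 12 4099 r r) (k (c 8 4099 r (u 12 0 (k (u 20 0 (k v (k v r))) r))) (k (c 12 4100 r (c 5 4091 v r)) (k (c 12 4099 r r) (k (c 12 4099 r r) (k (c 12 4099 r r) r))))))))))))))))))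
 .z .z) (.s 0xe9f558047dc20 4071 (n false (n false (z 67) (n false e e)) (n true (n true (n false (n true (n false e e) e) (n false e e)) e) e)) (u 4 35 (k v (k r (k (c 12 4099 r r) (k (c 8 4096 r (u 12 0 (k (u 20 0 (k v (k v r))) r))) (k (c 8 4096 r (u 12 0 (k (u 20 0 (k v (k v r))) r))) (k (c 12 4097 r r) (k (c 12 4099 r r) (k (c 12 4097 r r) (k (c 12 4099 r r) (k (c 8 4100 r r) (k (c 12 4099 r (u 8 0 (k (u 16 0 (k v (k v r))) r))) (k (c 8 4099 r r) (k (c 12 4099 r r) (k (c 8 4099 r (u 12 0 (k (u 20 0 (k v (k v r))) r))) (k (c 12 4100 r r) (k (c 12 4100 r r) (k (c 12 4099 r r) (k (c 12 4099 r r) (k (c 12 4100 r r) (k (c 12 4099 r r) r)))))))))))))))))))))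
 .z .z))) (.s 0xe9fd5802a2288 4087 (n false (n false (z 71) e) (n false (n false (n false e e) (n false e e)) (n false (n false e e) (n false e e)))) (u 4 6 (k (c 12 4099 r r) (k (c 3 4101 v r) (k (c 3 4101 v r) (k (c 8 4099 r r) (k (c 8 4099 r r) (k (c 8 4099 r r) r)))))))
 (.s 0xe9f7d80770850 4076 (n false (n false (z 91) (n true (n false (n true (n false e e) e) (n false e e)) e)) (n false (n false e e) e)) (u 4 7 (k v (k (u 8 0 (k v (k v r))) r)))
 (.s 0xe9f7d8045d108 4083 (n false (n false (z 91) (n false e e)) (n false (n true (n false (n false e e) (n false e e)) e) (n false e e))) (u 4 2 (k v (k v (k (u 8 1 (k v (k v r))) (k (c 8 4097 r (u 12 0 (k v (k v r)))) (k (c 8 4097 r (u 12 0 (k v (k v r)))) (k (c 8 4096 r (u 12 0 (k v (k v r)))) (k (c 8 4095 r (u 12 0 (k v (k v r)))) r))))))))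
 .z .z) (.s 0xe9f7f8047dc20 4078 (n false (n false (z 123) (n false e e)) (n true (n true (n false (n true (n false e e) e) (n false e e)) e) e)) (u 4 57 (k v (k v (k (c 12 4099 r (u 8 69 (k v (k v (k v (k v r)))))) (k (u 8 21 (k v (k (c 24 4101 r r) (k (c 16 4101 r r) (k (c 16 4101 r r) r))))) (k (c 5 4091 v r) r))))))
 .z .z)) (.s 0xe9ff54008ee10 4074 (n false (n false (z 143) (n false e e)) (n true (n false (n true (n false e e) e) (n false e e)) e)) (u 4 1 (k (c 12 4096 r r) (k (c 12 4096 r r) (k (c 8 4098 r r) (k (c 8 4100 r (u 12 0 (k v (k (c 5 4092 v (u 20 0 (k (u 36 0 (k v (k v r))) r))) r)))) (k (c 12 4096 r r) (k (c 12 4098 r r) r)))))))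
 (.s 0xe9fd7802a2288 4094 (n false (n false (z 103) e) (n false (n false (n false e e) (n false e e)) (n false (n false e e) (n false e e)))) (u 4 5 (k v (k (c 12 4101 r r) (k (c 8 4101 r r) (k (c 8 4101 r r) r)))))
 .z .z) .z))) (.s 0xea57f50011d10 4078 (n false (n false (n false (z 156) e) (n false e e)) (n true (n false (n false e e) (n false e e)) e)) (u 8 8 (k v (k v (k (c 24 4099 r (u 16 1 (k v (k v r)))) (k (c 16 4098 r (u 24 1 (k v (k v r)))) (k (c 16 4097 r (u 24 1 (k v (k v r)))) (k (c 16 4099 r (u 24 1 (k v (k v r)))) r)))))))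
 (.s 0xea577c00e1708 4064 (n false (n false (n false (z 52) e) (n true (n false e e) e)) (n false (n true (n false e e) e) (n false e e))) (u 8 52 (k v (k v (k v (k v (k v (k v (k (t 24 1 (u 16 0 (k v (k v r)))) (k (t 24 3 (u 16 7 (k v (k v (k (c 40 4101 v (u 32 1 (k v (k v r)))) r))))) (k (t 24 2 (u 16 0 (k (u 32 2 (k v (k (u 64 2 (k v (k v r))) r))) r))) (k (t 24 1 (u 16 0 (k (c 48 4099 r (u 32 2 (k v (k (u 64 2 (k v (k v r))) r)))) r))) r)))))))))))
 (.s 0xea55f401143a0 4085 (n false (n false (n false (z 24) (n false e e)) (n false (n false e e) e)) (n true (n false (n false e e) e) e)) (c 4 4096 (c 2 4098 r v) v)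
 (.s 0xea5555003b840 4081 (n false (n false (n false (z 128) (n true (n false (n true (n false e e) e) (n false e e)) e)) e) e) (u 8 12 (k v (k v (k (c 24 4097 r r) (k (c 16 4095 r r) (k (c 16 4096 r r) (k (c 16 4095 r (c 12 4091 v (u 24 1 (k v (k (c 56 4097 r (u 40 0 (k v (k v r)))) r))))) (k (c 24 4097 r r) (k (c 16 4095 r (u 24 0 (k v (k v r)))) (k (c 16 4099 r r) (k (c 24 4095 r (u 16 1 (k v (k v r)))) (k (c 16 4097 r (u 24 0 (k v (k v r)))) (k (c 24 4097 r (u 16 3 (k v (k v (k v r))))) (k (c 16 4095 r (u 24 1 (k v (k v r)))) (k (c 24 4097 r r) r)))))))))))))))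
 .z .z) (.s 0xea577c008a888 4080 (n false (n false (n false (z 52) e) (n false e e)) (n false (n false (n false e e) (n false e e)) (n false e e))) (u 8 272 (k v (k v (k v (k v (k v (k v (k v (k v (k (c 4 4087 (t 6 2 r) v) (k (c 4 4087 (t 6 1 r) v) r)))))))))))
 .z .z)) (.s 0xea577c010ee10 4082 (n false (n false (n false (z 52) (n false e e)) e) (n true (n false (n true (n false e e) e) (n false e e)) e)) (u 8 25 (k v (k v (k v (k (t 24 1 (u 16 3 (k v (k v r)))) r)))))
 (.s 0xea577c010ae10 4083 (n false (n false (n false (z 52) (n false e e)) e) (n false (n false (n true (n false e e) e) (n false e e)) e)) (u 8 36 (k v (k v (k (t 24 1 (u 16 0 (k v (k v r)))) r))))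
 .z .z) .z)) (.s 0xea5ddc010ee10 4076 (n false (n false (n false (z 42) (n false e e)) e) (n true (n false (n true (n false e e) e) (n false e e)) e)) (u 8 3 (k v (k r (k r (k r (k r (k r r)))))))
 (.s 0xea5ddc010ae10 4076 (n false (n false (n false (z 42) (n false e e)) e) (n false (n false (n true (n false e e) e) (n false e e)) e)) (u 8 3 (k v (k r (k r (k r (k (u 16 25 (k v (k v (k v (k (c 32 4097 r (u 48 1 (k v (k v r)))) r))))) (k r r)))))))
 (.s 0xea5ddc008ee10 4078 (n false (n false (n false (z 42) e) (n false e e)) (n true (n false (n true (n false e e) e) (n false e e)) e)) (u 8 66 (k v (k v (k (t 24 1 (c 4 4084 r v)) (k (u 16 2 (k v (k v r))) (k r (k r r)))))))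
 .z .z) (.s 0xea5ddc010ba20 4076 (n false (n false (n false (z 42) (n false e e)) e) (n false (n true (n false (n false e e) (n false e e)) e) e)) (u 8 36 (k v (k v (k (u 16 2 (k v (k v r))) (k r (k (u 16 25 (k v (k v (k v (k (c 32 4097 r (u 48 1 (k v (k v r)))) r))))) (k r r)))))))
 .z .z)) (.s 0xea75f600e1708 4069 (n false (n false (n false (z 89) e) (n true (n false e e) e)) (n false (n true (n false e e) e) (n false e e))) (u 8 2 (k v (k v (k v (k (t 24 3 (u 16 46 (k v (k v (k (t 48 1 (u 32 2 (k v (k v r)))) r))))) r)))))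
 (.s 0xea5fdc00e1f40 4082 (n false (n false (n false (z 46) e) (n true (n false e e) e)) (n true (n true (n false (n false e e) e) e) e)) (u 8 2 (k v (k (c 24 4099 r (u 16 0 (k v (k v r)))) (k (u 16 1 (k v (k v r))) (k (u 16 1 (k v (k v r))) (k (c 24 4097 r (u 16 1 (k v (k v r)))) (k (c 16 4095 r (u 24 1 (k v (k v r)))) r)))))))
 .z .z) .z))))

set_option maxRecDepth 100000 in
def N64 : NT :=
(.s 0xea88a212efa00 4091 (n false (z 26) (n false (n false (n false (n false e e) (n false e e)) (n false (n false e e) (n false e e))) e)) (u 2 4 (k v (k (c 3 4100 v (u 4 1 (k v (k v r)))) r)))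
 (.s 0xea7f56008ee10 4071 (n false (n false (n false (z 71) e) (n false e e)) (n true (n false (n true (n false e e) e) (n false e e)) e)) (u 8 1 (k v (k (c 24 4099 r (u 16 1 (k v (k v r)))) (k (u 16 0 (k v (k v r))) (k (c 16 4099 r (u 24 1 (k v (k v r)))) (k (c 16 4099 r (u 24 1 (k v (k v r)))) (k (c 16 4099 r (u 24 1 (k v (k v r)))) r)))))))
 (.s 0xea7d5c00e8288 4072 (n false (n false (n true (n false (n false e e) e) e) (n false (z 35) e)) (n false (n false e e) (n false e e))) (u 10 2 (k v (k v (k v (k (t 26 1 (u 18 0 (k (t 34 3 (t 50 1 v)) r))) r)))))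
 (.s 0xea7d5c00a8288 4074 (n false (n false (n false (z 35) e) (n false (n false (n false e e) e) e)) (n false (n false e e) (n false e e))) (u 8 2 (k v (k v (k v (k (t 24 1 (u 16 0 (k (t 32 3 (t 48 1 v)) r))) r)))))
 (.s 0xea75fe008ee10 4073 (n false (n false (n false (z 121) e) (n false e e)) (n true (n false (n true (n false e e) e) (n false e e)) e)) (u 8 1 (k v (k (c 24 4099 r (u 16 1 (k v (k v r)))) (k (c 16 4097 r (u 24 1 (k v (k v r)))) (k (c 16 4095 r (u 24 0 (k v (k v r)))) (k (c 16 4095 r (u 24 0 (k v (k v r)))) r))))))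
 .z .z) (.s 0xea7d5c00ae108 4071 (n false (n false (n false (z 35) e) (n false (n false (n true (n false e e) e) (n false e e)) e)) (n false e e)) (u 8 5 (k v (k v (k v (k (t 24 1 (u 16 0 (k (t 32 3 (t 48 1 v)) r))) r)))))
 .z .z)) (.s 0xea7f56007dc20 4080 (n false (n false (n false (z 71) e) e) (n true (n true (n false (n true (n false e e) e) (n false e e)) e) e)) (u 8 1 (k v (k (c 24 4099 r (u 16 1 (k v (k v r)))) (k (c 2 4082 r v) (k (c 16 4099 r (u 24 1 (k v (k v r)))) (k (c 16 4099 r (u 24 1 (k v (k v r)))) (k (c 16 4099 r (u 24 1 (k v (k v r)))) r)))))))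
 (.s 0xea7d5c00ee108 4069 (n false (n false (n true (n false (n true (n false e e) e) (n false e e)) e) (n false (z 35) e)) (n false e e)) (u 10 5 (k v (k v (k v (k (t 26 1 (u 18 0 (k (t 34 3 (t 50 1 v)) r))) r)))))
 .z .z) (.s 0xea7f56008ae10 4075 (n false (n false (n false (z 71) e) (n false e e)) (n false (n false (n true (n false e e) e) (n false e e)) e)) (u 8 1 (k v (k (c 24 4099 r (u 16 1 (k v (k v r)))) (k (u 16 0 (k v (k v r))) (k (c 16 4099 r (u 24 1 (k v (k v r)))) (k (c 16 4099 r (u 24 1 (k v (k v r)))) (k (c 16 4099 r (u 24 1 (k v (k v r)))) r)))))))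
 .z .z))) (.s 0xea7f7c00ee108 4069 (n false (n false (n false (z 55) e) (n true (n false (n true (n false e e) e) (n false e e)) e)) (n false e e)) (u 8 4 (k (t 24 1 (u 16 4 (k v (k v (k (u 32 4 (k v (k (t 96 1 (u 64 4 (k v (k v r)))) r))) (k (u 32 4 (k v (k (t 96 1 (u 64 2 (k v (k v r)))) r))) (k r (k r r)))))))) (k (t 24 2 (u 16 8 (k v (k v r)))) r)))
 (.s 0xea7f7c00a8288 4074 (n false (n false (n false (z 55) e) (n false (n false (n false e e) e) e)) (n false (n false e e) (n false e e))) (u 8 6 (k v (k (t 24 1 (u 16 10 (k v (k v r)))) r)))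
 (.s 0xea7f7601c1708 4066 (n false (n false (n false (z 87) (n true (n false e e) e)) e) (n false (n true (n false e e) e) (n false e e))) (c 12 4094 v (u 8 1 (k v (k v r))))
 .z .z) (.s 0xea7f7c00e1708 4069 (n false (n false (n false (z 55) e) (n true (n false e e) e)) (n false (n true (n false e e) e) (n false e e))) (u 8 0 (k r (k (t 24 1 (u 16 5 (k v (k v (k (u 32 0 (k r (k r r))) (k r (k (u 32 4 (k v (k (t 96 1 (u 64 2 (k v (k v r)))) r))) (k (u 32 4 (k v (k (t 96 1 (u 64 4 (k v (k v r)))) r))) r)))))))) r)))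
 .z .z)) (.s 0xea88a212eaf00 4091 (n false (z 98) (n false (n false (n false (n false e e) (n false e e)) (n false (n false e e) (n false e e))) e)) (u 2 0 (k v (k v (k v (k (t 6 1 (u 4 1 (k (c 12 4099 r (u 8 12 (k v (k v r)))) (k (c 5 4101 v r) r)))) (k (t 6 1 (c 5 4101 v (u 4 0 (k (c 12 4097 r r) r)))) r))))))
 (.s 0xea7f7e00ee108 4072 (n false (n false (n false (z 119) e) (n true (n false (n true (n false e e) e) (n false e e)) e)) (n false e e)) (u 8 26 (k v (k (t 24 1 r) (k (c 10 4092 v r) (k (c 10 4092 v r) r)))))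
 .z .z) .z))) (.s 0xea95fd400e0e0 4069 (n false (n false (n false (n false (z 156) (n true (n false e e) e)) e) (n true (n false e e) e)) e) (u 16 1 (k v (k (c 48 4099 r (u 32 1 (k v (k v r)))) (k (c 32 4098 r (u 48 1 (k v (k v r)))) (k (c 32 4097 r (u 48 1 (k v (k v r)))) (k (c 32 4099 r (u 48 1 (k v (k v r)))) (k (c 32 4095 r (u 48 0 (k v (k v r)))) r)))))))
 (.s 0xea95df0043850 4066 (n false (n false (n false (n false (z 52) (n false e e)) e) (n true (n false e e) e)) (n false (n false e e) e)) (u 16 134 (k v (k (t 48 1 (u 32 0 (k v (k v r)))) (k (t 48 3 (u 32 0 (k (u 64 2 (k v (k (c 32 4084 (u 4 1 (k v (k v r))) v) r))) r))) r))))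
 (.s 0xea88a213eae00 4091 (n false (z 35) (n false (n false (n false (n false e e) (n false e e)) (n false (n false e e) (n false e e))) e)) (u 2 13 (k v (k v (k v (k v (k (t 6 1 (u 4 0 (k (t 8 3 (t 12 1 v)) r))) (k (t 6 2 r) r)))))))
 (.s 0xea88a213afe00 4091 (n false (z 57) (n false (n false (n false (n false e e) (n false e e)) (n false (n false e e) (n false e e))) e)) (u 2 0 (k v (k (t 4 3 (t 6 3 v)) (k (t 6 1 (u 4 0 (k v (k v r)))) r))))
 .z .z) (.s 0xea955f0043850 4071 (n false (n false (n false (n false (z 48) (n false e e)) e) (n true (n false e e) e)) (n false (n false e e) e)) (u 16 11 (k v (k v (k r (k r (k (u 32 4 (k v (k (t 96 1 (u 64 2 (k v (k v r)))) r))) (k (u 32 0 (k (t 96 1 (u 64 12 (k v (k v (k v (k (u 128 1 (k v (k v r))) (k (u 128 1 (k v (k v r))) (k (c 192 4097 r (u 128 1 (k v (k v r)))) r)))))))) (k (t 96 1 (u 64 13 (k v (k v (k v (k (u 128 16 (k v (k v r))) (k (c 128 4099 r (u 192 63 (k v (k v (k v (k v (k v r))))))) r))))))) r)))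 r)))))))
 .z .z)) (.s 0xea95fd400e088 4073 (n false (n false (n false (n false (z 156) (n true (n false e e) e)) e) (n false e e)) (n false e e)) (u 16 1 (k v (k (c 48 4099 r (u 32 1 (k v (k v r)))) (k (c 32 4098 r (u 48 1 (k v (k v r)))) (k (c 32 4097 r (u 48 1 (k v (k v r)))) (k (c 32 4099 r (u 48 1 (k v (k v r)))) (k (c 32 4095 r (u 48 0 (k v (k v r)))) r)))))))
 (.s 0xea95fd40043a0 4073 (n false (n false (n false (n false (z 156) e) (n false e e)) e) (n true (n false (n false e e) e) e)) (u 16 1 (k v (k (c 48 4099 r (u 32 1 (k v (k v r)))) (k (c 32 4098 r (u 48 1 (k v (k v r)))) (k (c 32 4097 r (u 48 1 (k v (k v r)))) (k (c 32 4099 r (u 48 1 (k v (k v r)))) (k (c 32 4095 r (u 48 0 (k v (k v r)))) r)))))))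
 .z .z) .z)) (.s 0xeaa7d5c00e088 4073 (n false (n false (n false (n false (n false (z 35) e) (n true (n false e e) e)) e) (n false e e)) (n false e e)) (u 32 5 (k v (k v (k v (k (t 96 1 (u 64 0 (k (t 128 3 (t 192 1 v)) r))) r)))))
 (.s 0xea9d7d803b840 4069 (n false (n false (n false (n false (z 89) e) (n true (n false (n true (n false e e) e) (n false e e)) e)) e) e) (u 16 2 (k v (k v (k v (k (t 48 2 (u 32 134 (k v (k (t 96 1 (u 64 0 (k v (k v r)))) (k (t 96 3 (u 64 0 (k (u 128 6 (k v (k v r))) r))) r))))) r)))))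
 (.s 0xea97f70021708 4070 (n false (n false (n false (n false (z 46) e) (n false e e)) e) (n false (n true (n false e e) e) (n false e e))) (u 16 2 (k v (k (c 48 4099 r (u 32 0 (k v (k v r)))) (k (u 32 1 (k v (k v r))) (k (u 32 1 (k v (k v r))) (k (c 48 4097 r (u 32 1 (k v (k v r)))) (k (c 32 4095 r (u 48 1 (k v (k v r)))) r)))))))
 .z .z) (.s 0xeaa57f5003820 4077 (n false (n false (n false (n false (n false (z 156) (n true (n false e e) e)) e) (n false e e)) e) e) (u 32 1 (k v (k (c 96 4099 r (u 64 1 (k v (k v r)))) (k (c 64 4098 r (u 96 1 (k v (k v r)))) (k (c 64 4097 r (u 96 1 (k v (k v r)))) (k (c 64 4099 r (u 96 1 (k v (k v r)))) (k (c 64 4095 r (u 96 0 (k v (k v r)))) r)))))))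
 .z .z)) (.s 0xeaa9f57003820 4077 (n false (n false (n false (n false (n false (n false (z 35) e) (n true (n false e e) e)) e) (n false e e)) e) e) (u 64 2 (k v (k v (k v (k (t 192 1 (u 128 0 (k (t 256 3 (t 384 1 v)) r))) r)))))
 (.s 0xeaa7f7c00e088 4073 (n false (n false (n false (n false (n false (z 55) e) (n true (n false e e) e)) e) (n false e e)) (n false e e)) (u 32 4 (k (t 96 1 (u 64 9 (k v (k v (k v (k (u 128 4 (k v (k (t 384 1 (u 256 2 (k v (k v r)))) r))) (k r r))))))) (k (t 96 2 (c 24 4094 v (u 64 2 (k v (k (u 128 2 (k v (k v r))) r))))) r)))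
 .z .z) .z))))

set_option maxRecDepth 100000 in
def N65 : NT :=
(.s 0xeb97f7003b840 4082 (n false (n false (n false (n true (z 46) e) (n true (n false (n true (n false e e) e) (n false e e)) e)) e) e) (u 16 4 (k v (k v (k (c 48 4099 r (u 32 0 (k v (k v r)))) (k (c 12 4091 v (u 32 1 (k v (k v r)))) (k (u 32 13 (k v (k v r))) r))))))
 (.s 0xeb845413bbb00 4078 (n false (z 85) (n false (n false (n true (n false e e) e) (n false e e)) (n false (n false (n false e e) e) e))) (u 2 14 (k v (k v (k (c 6 4099 r r) (k (c 6 4099 r r) (k (c 6 4099 r (u 4 1 (k v (k v (k v (k (t 12 1 (u 8 41 (k v (k v (k (t 24 1 (u 16 0 (k v (k v r)))) r))))) r)))))) (k (c 6 4096 r r) r)))))))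
 (.s 0xeae7d5c00e0e0 4077 (n false (n false (n false (n false (n true (z 35) e) (n true (n false e e) e)) e) (n true (n false e e) e)) e) (u 32 2 (k v (k v (k v (k (t 96 1 (u 64 0 (k (t 128 3 (t 192 1 v)) r))) r)))))
 (.s 0xeae577c00e0e0 4075 (n false (n false (n false (n false (n true (z 52) e) (n true (n false e e) e)) e) (n true (n false e e) e)) e) (u 32 153 (k v (k v (k v (k (t 96 1 (u 64 0 (k v (k v r)))) r)))))
 (.s 0xeae577c00e088 4069 (n false (n false (n false (n false (n true (z 52) e) (n true (n false e e) e)) e) (n false e e)) (n false e e)) (u 32 94 (k v (k v (k v (k v (k v (k v (k (t 96 1 (u 64 0 (k v (k v r)))) (k (t 96 2 (u 64 0 (k (u 128 2 (k v (k (u 256 2 (k v (k v r))) r))) r))) (k (t 96 1 (u 64 0 (k (c 192 4099 r (u 128 2 (k v (k (u 256 2 (k v (k v r))) r)))) r))) r))))))))))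
 .z .z) (.s 0xeae7d5c00e088 4074 (n false (n false (n false (n false (n true (z 35) e) (n true (n false e e) e)) e) (n false e e)) (n false e e)) (u 32 5 (k v (k v (k v (k (t 96 1 (u 64 0 (k (t 128 3 (t 192 1 v)) r))) r)))))
 .z .z)) (.s 0xeae7f7c00e088 4074 (n false (n false (n false (n false (n true (z 55) e) (n true (n false e e) e)) e) (n false e e)) (n false e e)) (u 32 4 (k (t 96 1 (u 64 9 (k v (k v (k v (k (u 128 4 (k v (k (t 384 1 (u 256 2 (k v (k v r)))) r))) (k (c 24 4094 v (u 128 7 (k v (k v (k (t 384 1 (u 256 28 (k v (k v (k (c 768 4099 r (u 512 6 (k v (k v (k v r))))) (k (c 512 4095 r (u 768 23 (k v (k v r)))) (k (c 512 4095 r (u 768 23 (k v (k v r)))) r))))))) r))))) r))))))) (k (t 96 2 (u 64 8 (k v (k v r)))) r)))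
 (.s 0xeae7d7c00e088 4071 (n false (n false (n false (n false (n true (z 51) e) (n true (n false e e) e)) e) (n false e e)) (n false e e)) (u 32 0 (k (t 96 1 (u 64 0 (k (t 128 3 (t 192 3 v)) r))) r))
 .z .z) (.s 0xeae97dd0010e0 4077 (n false (n false (n false (n false (n true (n false (z 22) e) e) (n false e e)) e) (n true (n false e e) e)) e) (c 4 4078 (u 16 1 (k v (k v r))) v)
 .z .z))) (.s 0xeb95ff8021708 4068 (n false (n false (n false (n true (z 124) e) (n false e e)) e) (n false (n true (n false e e) e) (n false e e))) (u 16 1 (k v (k (c 48 4097 r (u 32 1 (k v (k v r)))) (k (c 48 4096 r (u 32 1 (k v (k v r)))) (k (c 32 4098 r (u 48 0 (k v (k v r)))) (k (c 48 4096 r (u 32 1 (k v (k v r)))) (k (c 48 4097 r (u 32 1 (k v (k v r)))) (k (c 48 4097 r (u 32 1 (k v (k v r)))) (k (c 48 4096 r (u 32 1 (k v (k v r)))) (k (c 48 4099 r (u 32 1 (k v (k v r)))) (k (c 32 4097 r (u 48 1 (k v (k v r)))) r)))))))))))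
 (.s 0xeb95df0011f40 4075 (n false (n false (n false (n true (z 52) e) e) (n false e e)) (n true (n true (n false (n false e e) e) e) e)) (u 16 196 (k v (k v (k v (k v r)))))
 (.s 0xeb847413bbb00 4076 (n false (z 85) (n false (n true (n false (n false e e) e) e) (n false (n true (n false e e) e) (n false e e)))) (u 2 14 (k v (k v (k (c 6 4099 r r) (k (c 6 4099 r r) (k (c 6 4099 r (u 4 1 (k v (k v (k v (k (t 12 1 (u 8 402 (k v (k v (k v (k (t 24 1 (u 16 0 (k v (k v r)))) (k (t 24 2 (u 16 0 (k (u 32 2 (k v (k (c 16 4084 (u 4 1 (k v (k v r))) v) r))) r))) r))))))) r)))))) (k (c 6 4096 r r) r)))))))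
 .z .z) (.s 0xeb95df003b840 4066 (n false (n false (n false (n true (z 52) e) (n true (n false (n true (n false e e) e) (n false e e)) e)) e) e) (u 16 231 (k v (k v (k v (k v (k v (k v (k (t 48 1 (u 32 0 (k v (k v r)))) (k (t 48 2 (u 32 0 (k (u 64 2 (k v (k (c 4 4063 (u 32 1 (k v (k v r))) v) r))) r))) (k (t 48 1 (u 32 0 (k (c 96 4099 r (u 64 2 (k v (k (c 4 4063 (u 32 1 (k v (k v r))) v) r)))) r))) r))))))))))
 .z .z)) (.s 0xeb97f7002b840 4080 (n false (n false (n false (n true (z 46) e) (n false (n false (n true (n false e e) e) (n false e e)) e)) e) e) (u 16 4 (k v (k v (k (c 48 4099 r (u 32 0 (k v (k v r)))) (k (u 32 1 (k v (k v r))) (k (u 32 13 (k v (k v r))) r))))))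
 (.s 0xeb97f70021708 4072 (n false (n false (n false (n true (z 46) e) (n false e e)) e) (n false (n true (n false e e) e) (n false e e))) (u 16 2 (k v (k (c 48 4099 r (u 32 0 (k v (k v r)))) (k (u 32 1 (k v (k v r))) (k (u 32 1 (k v (k v r))) (k (c 48 4097 r (u 32 1 (k v (k v r)))) (k (c 32 4095 r (u 48 1 (k v (k v r)))) r)))))))
 .z .z) .z))) (.s 0xebe9777004110 4080 (n false (n false (n false (n true (n true (n false (z 42) (n false e e)) e) e) (n false e e)) (n false e e)) e) (u 64 11 (k v (k v (k (c 16 4085 (t 12 1 (u 8 0 (k r r))) v) r))))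
 (.s 0xeb9f7d8021708 4067 (n false (n false (n false (n true (z 91) e) (n false e e)) e) (n false (n true (n false e e) e) (n false e e))) (u 16 2 (k v (k v (k (u 32 1 (k v (k v r))) (k (c 32 4097 r (u 48 0 (k v (k v r)))) (k (c 32 4097 r (u 48 0 (k v (k v r)))) (k (c 32 4096 r (u 48 0 (k v (k v r)))) (k (c 32 4095 r (u 48 0 (k v (k v r)))) r))))))))
 (.s 0xeb9d7f8021708 4072 (n false (n false (n false (n true (z 121) e) (n false e e)) e) (n false (n true (n false e e) e) (n false e e))) (u 16 1 (k v (k (c 48 4099 r (u 32 1 (k v (k v r)))) (k (c 32 4097 r (u 48 1 (k v (k v r)))) (k (c 32 4095 r (u 48 0 (k v (k v r)))) (k (c 32 4095 r (u 48 0 (k v (k v r)))) r))))))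
 (.s 0xeb97ff003b840 4066 (n false (n false (n false (n true (z 62) e) (n true (n false (n true (n false e e) e) (n false e e)) e)) e) e) (u 16 1 (k v (k v (k v (k (t 48 1 (u 32 134 (k v (k (t 96 1 (u 64 0 (k v (k v r)))) (k (t 96 3 (u 64 0 (k (u 128 6 (k v (k v r))) r))) r))))) r)))))
 .z .z) (.s 0xeb9dd70021708 4072 (n false (n false (n false (n true (z 37) e) (n false e e)) e) (n false (n true (n false e e) e) (n false e e))) (u 16 0 (k v (k (u 32 0 (k (t 64 3 (t 96 1 v)) r)) (k (u 32 0 (k (t 64 3 (t 96 1 v)) r)) (k (u 32 10 (k v (k v (k v (k (t 96 1 (u 64 0 (k (t 128 3 (t 192 1 v)) r))) r))))) (k (u 32 2 (k v (k v (k v (k (t 96 1 (u 64 0 (k (t 128 3 (t 192 1 v)) r))) r))))) (k (u 32 10 (k v (k (t 96 1 (u 64 19 (k v (k v (k v (k v (k (u 128 2 (k v (k v r))) r))))))) r))) r)))))))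
 .z .z)) (.s 0xeba57f5003820 4078 (n false (n false (n false (n true (n false (z 156) (n true (n false e e) e)) e) (n false e e)) e) e) (u 32 1 (k v (k (c 96 4099 r (u 64 1 (k v (k v r)))) (k (c 64 4098 r (u 96 1 (k v (k v r)))) (k (c 64 4097 r (u 96 1 (k v (k v r)))) (k (c 64 4099 r (u 96 1 (k v (k v r)))) (k (c 64 4095 r (c 8 4080 r v)) r)))))))
 (.s 0xeb9fdf003b840 4069 (n false (n false (n false (n true (z 55) e) (n true (n false (n true (n false e e) e) (n false e e)) e)) e) e) (u 16 4 (k (t 48 1 (u 32 8 (k v (k v (k r (k r (k (u 64 4 (k v (k (t 192 1 (u 128 2 (k v (k v r)))) r))) (k (u 64 4 (k v (k (t 192 1 (u 128 17 (k v (k v (k r r))))) r))) r)))))))) (k (t 48 2 r) r)))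
 .z .z) .z)) (.s 0xee577c005d108 4077 (n false (n false (n true (z 52) e) e) (n false (n true (n false (n false e e) (n false e e)) e) (n false e e))) (u 8 187 (k v (k v (k v (k v (k v (k v (k v (k (t 24 1 (u 16 0 (k v (k v r)))) (k (t 24 1 (u 16 0 (k (c 48 4099 r (u 32 2 (k v (k (c 4 4078 (u 16 1 (k v (k v r))) v) r)))) r))) r))))))))))
 (.s 0xee55fc008ee10 4067 (n false (n false (n true (z 56) e) (n false e e)) (n true (n false (n true (n false e e) e) (n false e e)) e)) (u 8 1 (k (u 16 1 (k v (k v r))) (k (u 16 293 (k v (k v (k v (k v (k v (k v (k v (k v r))))))))) (k (c 16 4096 r (u 24 0 (k v (k v r)))) (k (c 24 4096 r r) r)))))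
 (.s 0xee55fc008ae10 4074 (n false (n false (n true (z 56) e) (n false e e)) (n false (n false (n true (n false e e) e) (n false e e)) e)) (u 8 1 (k (u 16 1 (k v (k v r))) (k (u 16 380 (k v (k v (k v (k v (k v r)))))) (k (c 16 4096 r (u 24 0 (k v (k v r)))) (k (c 24 4096 r r) r)))))
 .z .z) (.s 0xee55fc00fb840 4069 (n false (n false (n true (z 56) e) (n true (n true (n false (n true (n false e e) e) (n false e e)) e) e)) e) (u 8 1 (k (u 16 1 (k v (k v r))) (k (u 16 110 (k v (k v (k v (k v (k v r)))))) (k (c 16 4096 r (u 24 0 (k v (k v r)))) (k (c 24 4096 r r) r)))))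
 .z .z)) (.s 0xee577c00e1708 4064 (n false (n false (n true (z 52) e) (n true (n false e e) e)) (n false (n true (n false e e) e) (n false e e))) (u 8 37 (k v (k v (k v (k v (k v (k v (k (t 24 1 (u 16 0 (k v (k v r)))) (k (t 24 3 (u 16 7 (k v (k v (k (c 40 4101 v (u 32 1 (k v (k v r)))) r))))) (k (t 24 2 r) (k (t 24 1 (u 16 0 (k (c 48 4099 r (u 32 2 (k v (k (u 64 2 (k v (k v r))) r)))) r))) r)))))))))))
 (.s 0xee577c008a888 4080 (n false (n false (n true (z 52) e) (n false e e)) (n false (n false (n false e e) (n false e e)) (n false e e))) (u 8 105 (k v (k v (k v (k v (k v (k v (k v (k v (k (c 4 4087 (t 6 2 r) v) (k (c 4 4087 (t 6 1 r) v) r)))))))))))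
 .z .z) .z))))

set_option maxRecDepth 100000 in
def N66 : NT :=
(.s 0xee5d7c008ee10 4065 (n false (n false (n true (z 50) e) (n false e e)) (n true (n false (n true (n false e e) e) (n false e e)) e)) (u 8 1 (k v (k (c 24 4097 r (u 16 0 (k v (k v r)))) r)))
 (.s 0xee57fe007dc20 4080 (n false (n false (n true (z 124) e) e) (n true (n true (n false (n true (n false e e) e) (n false e e)) e) e)) (u 8 5 (k v (k (c 24 4097 r (u 16 1 (k v (k v r)))) (k (c 24 4096 r (u 16 1 (k v (k v r)))) (k (c 16 4098 r (u 24 0 (k v (k v r)))) (k (c 24 4096 r (u 16 1 (k v (k v r)))) (k (c 24 4097 r (u 16 1 (k v (k v r)))) (k (c 24 4097 r (u 16 1 (k v (k v r)))) (k (c 24 4096 r (u 16 1 (k v (k v r)))) (k (c 16 4097 r (u 24 1 (k v (k v r)))) r))))))))))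
 (.s 0xee57f5000ee10 4087 (n false (n false (n true (z 156) e) e) (n true (n false (n true (n false e e) e) (n false e e)) e)) (u 8 5 (k v (k v (k (c 24 4099 r (u 16 1 (k v (k v r)))) (k (c 16 4098 r (u 24 1 (k v (k v r)))) (k (c 16 4097 r (u 24 1 (k v (k v r)))) (k (c 16 4099 r (u 24 1 (k v (k v r)))) r)))))))
 (.s 0xee577c00ee108 4064 (n false (n false (n true (z 52) e) (n true (n false (n true (n false e e) e) (n false e e)) e)) (n false e e)) (u 8 37 (k v (k v (k v (k v (k v (k v (k (t 24 1 (u 16 0 (k v (k v r)))) (k (t 24 3 (u 16 7 (k v (k v (k (c 40 4101 v (u 32 1 (k v (k v r)))) r))))) (k (t 24 2 (u 16 0 (k (u 32 2 (k v (k (c 2 4063 (u 32 1 (k v (k v r))) v) r))) r))) (k (t 24 1 (u 16 0 (k (c 48 4099 r (u 32 2 (k v (k (c 2 4063 (u 32 1 (k v (k v r))) v) r)))) r))) r)))))))))))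
 (.s 0xee577c00ea220 4077 (n false (n false (n true (z 52) e) (n true (n false (n false (n false e e) (n false e e)) (n false e e)) e)) e) (u 8 11 (k v (k v (k v (k v (k v (k v (k v (k v (k (t 24 2 r) (k (t 24 1 r) r)))))))))))
 .z .z) (.s 0xee57f5000ae10 4088 (n false (n false (n true (z 156) e) e) (n false (n false (n true (n false e e) e) (n false e e)) e)) (u 8 5 (k v (k v (k (c 24 4099 r (u 16 1 (k v (k v r)))) (k (c 16 4098 r (u 24 1 (k v (k v r)))) (k (c 16 4097 r (u 24 1 (k v (k v r)))) (k (c 16 4099 r (u 24 1 (k v (k v r)))) r)))))))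
 .z .z)) (.s 0xee57f50011d10 4076 (n false (n false (n true (z 156) e) (n false e e)) (n true (n false (n false e e) (n false e e)) e)) (u 8 1 (k v (k (c 24 4099 r (u 16 1 (k v (k v r)))) (k (c 16 4098 r (u 24 1 (k v (k v r)))) (k (c 16 4097 r (u 24 1 (k v (k v r)))) (k (c 16 4099 r (u 24 1 (k v (k v r)))) (k (c 16 4095 r (u 24 0 (k v (k v r)))) r)))))))
 (.s 0xee57f50011510 4076 (n false (n false (n true (z 156) e) (n false e e)) (n false (n false (n false e e) (n false e e)) e)) (u 8 1 (k v (k (c 24 4099 r (u 16 1 (k v (k v r)))) (k (c 16 4098 r (u 24 1 (k v (k v r)))) (k (c 16 4097 r (u 24 1 (k v (k v r)))) (k (c 16 4099 r (u 24 1 (k v (k v r)))) (k (c 16 4095 r (u 24 0 (k v (k v r)))) r)))))))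
 .z .z) (.s 0xee57f50011f40 4072 (n false (n false (n true (z 156) e) (n false e e)) (n true (n true (n false (n false e e) e) e) e)) (u 8 1 (k v (k (c 24 4099 r (u 16 1 (k v (k v r)))) (k (c 16 4098 r (u 24 1 (k v (k v r)))) (k (c 16 4097 r (u 24 1 (k v (k v r)))) (k (c 16 4099 r (u 24 1 (k v (k v r)))) (k (c 16 4095 r (u 24 0 (k v (k v r)))) r)))))))
 .z .z))) (.s 0xee5d5e00ee108 4075 (n false (n false (n true (z 98) e) (n true (n false (n true (n false e e) e) (n false e e)) e)) (n false e e)) (u 8 1 (k v (k v (k v (k (t 24 1 (c 2 4076 (u 8 1 (k (c 24 4099 r (u 16 5 (k v (k (c 4 4079 (c 2 4076 (u 4 0 (k r r)) v) v) r)))) (k (u 16 0 (k v (k (c 48 4101 r (u 32 1 (k v (k v r)))) (k (c 32 4101 r (u 48 1 (k v (k v r)))) (k (c 32 4101 r (u 48 1 (k v (k v r)))) r))))) r))) v)) r)))))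
 (.s 0xee57fe008ee10 4066 (n false (n false (n true (z 124) e) (n false e e)) (n true (n false (n true (n false e e) e) (n false e e)) e)) (u 8 1 (k v (k (c 24 4097 r (u 16 1 (k v (k v r)))) (k (c 24 4096 r (u 16 1 (k v (k v r)))) (k (c 16 4098 r (u 24 0 (k v (k v r)))) (k (c 24 4096 r (u 16 1 (k v (k v r)))) (k (c 24 4097 r (u 16 1 (k v (k v r)))) (k (c 24 4097 r (u 16 1 (k v (k v r)))) (k (c 24 4096 r (u 16 1 (k v (k v r)))) (k (c 24 4099 r (u 16 1 (k v (k v r)))) (k (c 16 4097 r (u 24 1 (k v (k v r)))) r)))))))))))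
 (.s 0xee57fe008ae10 4071 (n false (n false (n true (z 124) e) (n false e e)) (n false (n false (n true (n false e e) e) (n false e e)) e)) (u 8 5 (k v (k (c 24 4097 r (u 16 1 (k v (k v r)))) (k (c 24 4096 r (u 16 1 (k v (k v r)))) (k (c 16 4098 r (u 24 0 (k v (k v r)))) (k (c 24 4096 r (u 16 1 (k v (k v r)))) (k (c 24 4097 r (u 16 1 (k v (k v r)))) (k (c 24 4097 r (u 16 1 (k v (k v r)))) (k (c 24 4096 r (u 16 1 (k v (k v r)))) (k (c 16 4097 r (u 24 1 (k v (k v r)))) r))))))))))
 .z .z) (.s 0xee57fe00fb840 4068 (n false (n false (n true (z 124) e) (n true (n true (n false (n true (n false e e) e) (n false e e)) e) e)) e) (u 8 1 (k v (k (c 24 4097 r (u 16 1 (k v (k v r)))) (k (c 24 4096 r (u 16 1 (k v (k v r)))) (k (c 16 4098 r (u 24 0 (k v (k v r)))) (k (c 24 4096 r (u 16 1 (k v (k v r)))) (k (c 24 4097 r (u 16 1 (k v (k v r)))) (k (c 24 4097 r (u 16 1 (k v (k v r)))) (k (c 24 4096 r (u 16 1 (k v (k v r)))) (k (c 24 4099 r (u 16 1 (k v (k v r)))) (k (c 16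 4097 r (u 24 1 (k v (k v r)))) r)))))))))))
 .z .z)) (.s 0xee5d7c008ae10 4072 (n false (n false (n true (z 50) e) (n false e e)) (n false (n false (n true (n false e e) e) (n false e e)) e)) (u 8 1 (k v (k (c 24 4097 r (u 16 0 (k v (k v r)))) r)))
 (.s 0xee5d7c007dc20 4077 (n false (n false (n true (z 50) e) e) (n true (n true (n false (n true (n false e e) e) (n false e e)) e) e)) (u 8 1 (k v (k (c 24 4097 r (u 16 0 (k v (k v r)))) r)))
 .z .z) .z))) (.s 0xee5fdc0075c20 4081 (n false (n false (n true (z 46) e) e) (n true (n false (n false (n true (n false e e) e) (n false e e)) e) e)) (u 8 1 (k v (k (u 16 1 (k v (k v r))) (k (c 24 4099 r (u 16 0 (k v (k v r)))) (k (u 16 1 (k v (k v r))) (k (c 24 4097 r (u 16 1 (k v (k v r)))) (k (c 16 4095 r (u 24 1 (k v (k v r)))) r)))))))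
 (.s 0xee5df6008ae10 4073 (n false (n false (n true (z 90) e) (n false e e)) (n false (n false (n true (n false e e) e) (n false e e)) e)) (u 8 1 (k v (k (u 16 72 (k v (k v (k v (k (u 32 3 (k v (k v r))) r))))) (k (c 24 4097 r (u 16 1 (k v (k (c 48 4097 r (u 32 0 (k v (k v r)))) r)))) (k r (k (c 24 4096 r r) (k (c 24 4097 r r) (k (u 16 6 (k v (k v (k (c 48 4097 r (u 32 1 (k v (k v r)))) (k (c 48 4096 r (u 32 1 (k v (k v r)))) (k (c 48 4097 r (u 32 1 (k v (k v r)))) r)))))) (k (c 24 4095 r r) (k (c 16 4095 r r) r))))))))))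
 (.s 0xee5ddc008ee10 4076 (n false (n false (n true (z 42) e) (n false e e)) (n true (n false (n true (n false e e) e) (n false e e)) e)) (u 8 3 (k v (k (t 24 1 (c 4 4084 r v)) (k (u 16 2 (k v (k v r))) (k (u 16 0 (k v (k (u 32 18 (k v (k v (k v (k (c 96 4099 r (u 64 65 (k v (k v (k v (k v r)))))) r))))) r))) (k (c 5 4092 v r) (k (c 5 4092 v r) r)))))))
 (.s 0xee5d7c00fb840 4067 (n false (n false (n true (z 50) e) (n true (n true (n false (n true (n false e e) e) (n false e e)) e) e)) e) (u 8 1 (k v (k (c 24 4097 r (u 16 0 (k v (k v r)))) r)))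
 .z .z) (.s 0xee5df400e1f40 4079 (n false (n false (n true (z 26) e) (n true (n false e e) e)) (n true (n true (n false (n false e e) e) e) e)) (u 8 2 (k v (k (c 6 4094 v (c 4 4084 (u 4 1 (k v (k v r))) v)) r)))
 .z .z)) (.s 0xee5df600fb840 4068 (n false (n false (n true (z 90) e) (n true (n true (n false (n true (n false e e) e) (n false e e)) e) e)) e) (u 8 2 (k v (k (u 16 4 (k v (k (c 48 4099 r r) (k r (k (c 48 4099 r r) (k r (k (c 48 4096 r (c 8 4088 r v)) (k (c 32 4099 r r) r)))))))) (k (c 24 4097 r (u 16 1 (k v (k (c 48 4097 r (u 32 0 (k v (k v r)))) r)))) (k r (k (c 24 4096 r r) (k (c 24 4097 r r) (k (u 16 3 (k v (k v (k (c 48 4097 r (u 32 1 (k v (k v r)))) (k (c 48 4096 r (u 32 1 (k v (k v r)))) (k (c 48 4097 r (u 32 1 (k v (k v r)))) r)))))) (k (c 24 4095 r r) (k (c 16 4095 r r) r))))))))))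
 (.s 0xee5df6008ee10 4066 (n false (n false (n true (z 90) e) (n false e e)) (n true (n false (n true (n false e e) e) (n false e e)) e)) (u 8 2 (k v (k r (k (c 24 4097 r (u 16 1 (k v (k (c 48 4097 r (u 32 0 (k v (k v r)))) r)))) (k r (k (c 24 4096 r r) (k (c 24 4097 r r) (k (u 16 2 (k v (k v (k (c 48 4097 r (u 32 1 (k v (k v r)))) (k (c 48 4096 r (u 32 1 (k v (k v r)))) (k (c 48 4097 r (u 32 1 (k v (k v r)))) (k (c 48 4099 r (u 32 1 (k v (k v r)))) r))))))) (k (c 24 4095 r r) (k (c 16 4095 r r) r))))))))))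
 .z .z) .z)) (.s 0xee5fdc00fb840 4067 (n false (n false (n true (z 46) e) (n true (n true (n false (n true (n false e e) e) (n false e e)) e) e)) e) (u 8 2 (k v (k (c 24 4099 r (u 16 0 (k v (k v r)))) (k (u 16 1 (k v (k v r))) (k (u 16 1 (k v (k v r))) (k (c 24 4097 r (u 16 1 (k v (k v r)))) (k (c 16 4095 r (u 24 1 (k v (k v r)))) r)))))))
 (.s 0xee5fdc008ae10 4072 (n false (n false (n true (z 46) e) (n false e e)) (n false (n false (n true (n false e e) e) (n false e e)) e)) (u 8 2 (k v (k (c 24 4099 r (u 16 0 (k v (k v r)))) (k (u 16 1 (k v (k v r))) (k (u 16 1 (k v (k v r))) (k (c 24 4097 r (u 16 1 (k v (k v r)))) (k (c 16 4095 r (u 24 1 (k v (k v r)))) r)))))))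
 (.s 0xee5fdc007dc20 4077 (n false (n false (n true (z 46) e) e) (n true (n true (n false (n true (n false e e) e) (n false e e)) e) e)) (u 8 1 (k v (k (u 16 1 (k v (k v r))) (k (c 24 4099 r (u 16 0 (k v (k v r)))) (k (u 16 1 (k v (k v r))) (k (c 24 4097 r (u 16 1 (k v (k v r)))) (k (c 16 4095 r (u 24 1 (k v (k v r)))) r)))))))
 .z .z) (.s 0xee5fdc008ee10 4066 (n false (n false (n true (z 46) e) (n false e e)) (n true (n false (n true (n false e e) e) (n false e e)) e)) (u 8 1 (k v (k (u 16 1 (k v (k v r))) (k (c 24 4099 r (u 16 0 (k v (k v r)))) (k (u 16 1 (k v (k v r))) (k (c 24 4097 r (u 16 1 (k v (k v r)))) (k (c 16 4095 r (u 24 1 (k v (k v r)))) r)))))))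
 .z .z)) (.s 0xee5ffc00ea220 4079 (n false (n false (n true (z 62) e) (n true (n false (n false (n false e e) (n false e e)) (n false e e)) e)) e) (u 8 1 (k v (k v (k v (k (t 24 1 (u 16 29 (k v (k v (k v (k (t 48 1 (u 32 0 (k v (k v r)))) r)))))) r)))))
 (.s 0xee5ffc00e1708 4066 (n false (n false (n true (z 62) e) (n true (n false e e) e)) (n false (n true (n false e e) e) (n false e e))) (u 8 1 (k v (k v (k v (k (t 24 1 r) r)))))
 .z .z) .z))))

set_option maxRecDepth 100000 in
def N67 : NT :=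
(.s 0xee7776007dc20 4081 (n false (n false (n true (z 85) e) e) (n true (n true (n false (n true (n false e e) e) (n false e e)) e) e)) (u 8 53 (k v (k (c 24 4099 r (u 16 202 (k v (k v (k v (k v (k (t 48 1 (u 32 2 (k v (k v r)))) r))))))) (k (c 24 4099 r r) (k (c 24 4099 r (u 16 5 (k v (k v r)))) (k (u 16 12 (k v (k v r))) (k (c 24 4096 r r) (k (c 24 4097 r (u 16 54 (k v (k v (k v (k (u 32 40 (k v (k v r))) r)))))) r))))))))
 (.s 0xee775c0075c20 4081 (n false (n false (n true (z 37) e) e) (n true (n false (n false (n true (n false e e) e) (n false e e)) e) e)) (u 8 0 (k v (k (u 16 0 (k (t 32 3 (t 48 1 v)) r)) (k (u 16 0 (k (t 32 3 (t 48 1 v)) r)) (k (u 16 0 (k v (k v (k (t 48 1 (u 32 0 (k (t 64 3 (t 96 1 v)) r))) r)))) (k (u 16 10 (k v (k v (k v (k (t 48 1 (u 32 0 (k (t 64 3 (t 96 1 v)) r))) r))))) (k (c 4 4088 r v) r)))))))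
 (.s 0xee75fe008ae10 4072 (n false (n false (n true (z 121) e) (n false e e)) (n false (n false (n true (n false e e) e) (n false e e)) e)) (u 8 1 (k v (k (c 24 4099 r (u 16 1 (k v (k v r)))) (k (c 16 4097 r (u 24 1 (k v (k v r)))) (k (c 16 4095 r (u 24 0 (k v (k v r)))) (k (c 16 4095 r (u 24 0 (k v (k v r)))) r))))))
 (.s 0xee75fe0075c20 4081 (n false (n false (n true (z 121) e) e) (n true (n false (n false (n true (n false e e) e) (n false e e)) e) e)) (u 8 1 (k v (k (c 24 4099 r (u 16 1 (k v (k v r)))) (k (c 16 4097 r (u 24 1 (k v (k v r)))) (k (c 16 4095 r (u 24 0 (k v (k v r)))) (k (c 16 4095 r (u 24 0 (k v (k v r)))) r))))))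
 (.s 0xee75f600ee108 4069 (n false (n false (n true (z 89) e) (n true (n false (n true (n false e e) e) (n false e e)) e)) (n false e e)) (u 8 2 (k v (k v (k v (k (t 24 2 r) r)))))
 .z .z) (.s 0xee75fe007dc20 4077 (n false (n false (n true (z 121) e) e) (n true (n true (n false (n true (n false e e) e) (n false e e)) e) e)) (u 8 1 (k v (k (c 24 4099 r (u 16 1 (k v (k v r)))) (k (c 16 4097 r (u 24 1 (k v (k v r)))) (k (c 16 4095 r (u 24 0 (k v (k v r)))) (k (c 16 4095 r (u 24 0 (k v (k v r)))) r))))))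
 .z .z)) (.s 0xee75fe00e1f40 4084 (n false (n false (n true (z 121) e) (n true (n false e e) e)) (n true (n true (n false (n false e e) e) e) e)) (u 8 4 (k v (k v (k (c 24 4099 r (u 16 1 (k v (k v r)))) (k (c 16 4097 r (u 24 1 (k v (k v r)))) r)))))
 (.s 0xee75fe008ee10 4068 (n false (n false (n true (z 121) e) (n false e e)) (n true (n false (n true (n false e e) e) (n false e e)) e)) (u 8 1 (k v (k (c 24 4099 r (u 16 1 (k v (k v r)))) (k (c 16 4097 r (u 24 1 (k v (k v r)))) (k (c 16 4095 r (u 24 0 (k v (k v r)))) (k (c 16 4095 r (u 24 0 (k v (k v r)))) r))))))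
 .z .z) (.s 0xee75fe00fb840 4070 (n false (n false (n true (z 121) e) (n true (n true (n false (n true (n false e e) e) (n false e e)) e) e)) e) (u 8 1 (k v (k (c 24 4099 r (u 16 1 (k v (k v r)))) (k (c 16 4097 r (u 24 1 (k v (k v r)))) (k (c 16 4095 r (u 24 0 (k v (k v r)))) (k (c 16 4095 r (u 24 0 (k v (k v r)))) r))))))
 .z .z))) (.s 0xee775c00e1f40 4084 (n false (n false (n true (z 37) e) (n true (n false e e) e)) (n true (n true (n false (n false e e) e) e) e)) (u 8 64 (k v (k v (k v (k v (k (c 6 4094 v (u 16 0 (k (t 32 3 (t 48 1 v)) r))) (k (u 16 10 (k v (k v (k v (k (t 48 1 (u 32 0 (k (t 64 3 (t 96 1 v)) r))) r))))) r)))))))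
 (.s 0xee775c008ae10 4072 (n false (n false (n true (z 37) e) (n false e e)) (n false (n false (n true (n false e e) e) (n false e e)) e)) (u 8 0 (k v (k (u 16 0 (k (t 32 3 (t 48 1 v)) r)) (k (u 16 0 (k (t 32 3 (t 48 1 v)) r)) (k (u 16 0 (k v (k v (k (t 48 1 (u 32 0 (k (t 64 3 (t 96 1 v)) r))) r)))) (k (u 16 2 (k v (k v (k v (k (t 48 1 (u 32 0 (k (t 64 3 (t 96 1 v)) r))) r))))) (k (u 16 10 (k v (k (t 48 1 (u 32 19 (k v (k v (k v (k v (k (u 64 2 (k v (k v r))) r))))))) r))) r)))))))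
 (.s 0xee775c007dc20 4077 (n false (n false (n true (z 37) e) e) (n true (n true (n false (n true (n false e e) e) (n false e e)) e) e)) (u 8 0 (k v (k (u 16 0 (k (t 32 3 (t 48 1 v)) r)) (k (u 16 0 (k (t 32 3 (t 48 1 v)) r)) (k (u 16 2 (k v (k v (k v (k (t 48 1 (u 32 0 (k (t 64 3 (t 96 1 v)) r))) r))))) (k (u 16 2 (k v (k v (k v (k (t 48 1 (u 32 0 (k (t 64 3 (t 96 1 v)) r))) r))))) (k (u 16 6 (k v (k (t 48 1 (u 32 10 (k v (k v r)))) r))) r)))))))
 .z .z) (.s 0xee775c008ee10 4069 (n false (n false (n true (z 37) e) (n false e e)) (n true (n false (n true (n false e e) e) (n false e e)) e)) (u 8 0 (k v (k (u 16 0 (k (t 32 3 (t 48 1 v)) r)) (k (u 16 0 (k (t 32 3 (t 48 1 v)) r)) (k r (k r (k r r)))))))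
 .z .z)) (.s 0xee77760075c20 4082 (n false (n false (n true (z 85) e) e) (n true (n false (n false (n true (n false e e) e) (n false e e)) e) e)) (u 8 52 (k v (k v (k (c 24 4099 r (u 16 253 (k v (k v (k v (k (t 48 1 (u 32 2 (k v (k v r)))) r)))))) (k (c 24 4099 r r) (k (c 8 4097 r v) (k (c 24 4096 r r) (k (c 24 4097 r (u 16 43 (k v (k v (k v r))))) r))))))))
 (.s 0xee775c00fb840 4072 (n false (n false (n true (z 37) e) (n true (n true (n false (n true (n false e e) e) (n false e e)) e) e)) e) (u 8 0 (k v (k (u 16 0 (k (t 32 3 (t 48 1 v)) r)) (k (u 16 0 (k (t 32 3 (t 48 1 v)) r)) (k (u 16 0 (k v (k v (k (t 48 1 (u 32 0 (k (t 64 3 (t 96 1 v)) r))) r)))) (k (u 16 2 (k v (k v (k v (k (t 48 1 (u 32 0 (k (t 64 3 (t 96 1 v)) r))) r))))) (k (u 16 10 (k v (k (t 48 1 (u 32 16 (k v (k v (k (u 64 2 (k v (k v r))) r))))) r))) r)))))))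
 .z .z) .z))) (.s 0xee7d5c00ee108 4069 (n false (n false (n true (n false (n true (n false e e) e) (n false e e)) e) (n true (z 35) e)) (n false e e)) (u 10 5 (k v (k v (k v (k (t 26 1 (u 18 0 (k (t 34 3 (t 50 1 v)) r))) r)))))
 (.s 0xee7d5c00ae108 4071 (n false (n false (n true (z 35) e) (n false (n false (n true (n false e e) e) (n false e e)) e)) (n false e e)) (u 8 5 (k v (k v (k v (k (t 24 1 (u 16 0 (k (t 32 3 (t 48 1 v)) r))) r)))))
 (.s 0xee7776008ee10 4066 (n false (n false (n true (z 85) e) (n false e e)) (n true (n false (n true (n false e e) e) (n false e e)) e)) (u 8 4 (k v (k (c 24 4099 r r) (k r (k (c 24 4099 r r) (k r (k (c 24 4096 r r) (k (c 16 4099 r r) r))))))))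
 (.s 0xee7776008ae10 4073 (n false (n false (n true (z 85) e) (n false e e)) (n false (n false (n true (n false e e) e) (n false e e)) e)) (u 8 4 (k v (k (c 24 4099 r r) (k (t 24 1 (u 16 2 (k v (k (c 8 4094 (c 3 4099 v (t 6 2 r)) v) r)))) (k (c 24 4099 r (u 16 5 (k v (k v r)))) (k (u 16 12 (k v (k v r))) (k (c 24 4096 r (u 16 10 (k v (k (t 48 1 (u 32 16 (k v (k v (k (u 64 2 (k v (k v r))) r))))) r)))) (k (c 16 4099 r r) r))))))))
 .z .z) (.s 0xee777600fb840 4067 (n false (n false (n true (z 85) e) (n true (n true (n false (n true (n false e e) e) (n false e e)) e) e)) e) (u 8 4 (k v (k (c 24 4099 r r) (k r (k (c 24 4099 r r) (k r (k (c 24 4096 r r) (k (c 16 4099 r r) r))))))))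
 .z .z)) (.s 0xee7d5c00e8288 4074 (n false (n false (n true (n false (n false e e) e) e) (n true (z 35) e)) (n false (n false e e) (n false e e))) (u 10 2 (k v (k v (k v (k (t 26 1 (u 18 0 (k (t 34 3 (t 50 1 v)) r))) r)))))
 (.s 0xee7d5c00e1708 4069 (n false (n false (n true (z 35) e) (n true (n false e e) e)) (n false (n true (n false e e) e) (n false e e))) (u 8 5 (k v (k v (k v (k (t 24 1 (u 16 0 (k (t 32 3 (t 48 1 v)) r))) r)))))
 .z .z) .z)) (.s 0xee7ddc00e1f40 4081 (n false (n false (n true (z 43) e) (n true (n false e e) e)) (n true (n true (n false (n false e e) e) e) e)) (u 8 0 (k v (k (u 16 1 (k v (k v r))) (k (c 24 4099 r (u 16 0 (k (u 32 0 (k v (k v r))) r))) (k (u 16 3 (k v (k v (k (u 32 0 (k v (k v r))) (k (c 48 4097 r (u 32 1 (k v (k v r)))) (k (c 32 4095 r (u 48 1 (k v (k v r)))) r)))))) (k (c 3 4092 v r) (k (u 16 0 (k (u 32 0 (k v (k v r))) r)) (k r (k (u 16 2 (k v (k (c 48 4099 r (u 32 1 (k v (k v r)))) (k (c 32 4095 r (u 48 0 (k v (k v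 r)))) r)))) r)))))))))
 (.s 0xee7d7c00ee108 4064 (n false (n false (n true (z 51) e) (n true (n false (n true (n false e e) e) (n false e e)) e)) (n false e e)) (u 8 0 (k (t 24 1 (u 16 0 (k (t 32 3 (t 48 3 v)) r))) r))
 (.s 0xee7d7c00e1708 4066 (n false (n false (n true (z 51) e) (n true (n false e e) e)) (n false (n true (n false e e) e) (n false e e))) (u 8 0 (k (t 24 1 (u 16 0 (k (t 32 3 (t 48 3 v)) r))) r))
 .z .z) (.s 0xee7ddc00e1d40 4082 (n false (n false (n true (z 43) e) (n true (n false e e) e)) (n true (n false (n false (n false e e) e) e) e)) (u 8 0 (k v (k (u 16 3 (k v (k v (k v r)))) (k (c 24 4099 r (u 16 0 (k (u 32 3 (k v (k v (k v r)))) r))) (k (u 16 31 (k v (k v (k v (k (u 32 0 (k v (k v r))) r))))) (k (c 3 4092 v r) (k (u 16 0 (k (u 32 0 (k v (k v r))) r)) (k (u 16 41 (k v (k v (k v (k v r))))) (k (u 16 2 (k v (k (c 48 4099 r (u 32 2 (k v (k v (k v r))))) (k (c 32 4095 r (u 48 0 (k v (k v r)))) r)))) r)))))))))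
 .z .z)) (.s 0xee7df6007dc20 4080 (n false (n false (n true (z 91) e) e) (n true (n true (n false (n true (n false e e) e) (n false e e)) e) e)) (u 8 4 (k v (k v (k (u 16 1 (k v (k v r))) (k (c 16 4097 r (u 24 0 (k v (k v r)))) (k (c 16 4097 r (u 24 0 (k v (k v r)))) (k (c 16 4096 r (u 24 0 (k v (k v r)))) (k (c 16 4095 r (u 24 0 (k v (k v r)))) r))))))))
 (.s 0xee7df60075c20 4081 (n false (n false (n true (z 91) e) e) (n true (n false (n false (n true (n false e e) e) (n false e e)) e) e)) (u 8 16 (k v (k v (k v (k (u 16 1 (k v (k v r))) (k (c 16 4097 r (u 24 0 (k v (k v r)))) (k (c 16 4097 r (u 24 0 (k v (k v r)))) (k (c 16 4095 r (u 24 0 (k v (k v r)))) r))))))))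
 .z .z) .z))))

set_option maxRecDepth 100000 in
def N68 : NT :=
(.s 0xee95fd400e0e0 4069 (n false (n false (n true (n false (z 156) (n true (n false e e) e)) e) (n true (n false e e) e)) e) (u 16 1 (k v (k (c 48 4099 r (u 32 1 (k v (k v r)))) (k (c 32 4098 r (u 48 1 (k v (k v r)))) (k (c 32 4097 r (u 48 1 (k v (k v r)))) (k (c 32 4099 r (u 48 1 (k v (k v r)))) (k (c 32 4095 r (u 48 0 (k v (k v r)))) r)))))))
 (.s 0xee7f7c00ee108 4067 (n false (n false (n true (z 55) e) (n true (n false (n true (n false e e) e) (n false e e)) e)) (n false e e)) (u 8 0 (k (t 24 2 r) (k (t 24 1 (u 16 3 (k v (k r (k r (k (t 32 3 (t 48 1 v)) (k (u 32 4 (k v (k (t 96 1 (u 64 2 (k v (k v r)))) r))) (k (u 32 1 (k v (k (t 96 1 (u 64 10 (k v (k v (k v (k (u 128 0 (k (t 256 3 (t 384 1 v)) r)) (k (u 128 4 (k v (k v (k v (k v r))))) (k (u 128 5 (k v (k v r))) r)))))))) (k (t 96 2 r) r)))) r)))))))) r)))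
 (.s 0xee7f56008ba08 4080 (n false (n false (n true (z 71) e) (n false e e)) (n false (n true (n false (n false e e) e) e) (n false e e))) (u 8 16 (k v (k (t 24 1 r) (k r (k (c 24 4100 r r) (k r (k (c 24 4100 r r) r)))))))
 (.s 0xee7df600fb840 4067 (n false (n false (n true (z 91) e) (n true (n true (n false (n true (n false e e) e) (n false e e)) e) e)) e) (u 8 2 (k v (k v (k (u 16 1 (k v (k v r))) (k (c 16 4097 r (u 24 0 (k v (k v r)))) (k (c 16 4097 r (u 24 0 (k v (k v r)))) (k (c 16 4096 r (u 24 0 (k v (k v r)))) (k (c 16 4095 r (u 24 0 (k v (k v r)))) r))))))))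
 (.s 0xee7df6008ee10 4065 (n false (n false (n true (z 91) e) (n false e e)) (n true (n false (n true (n false e e) e) (n false e e)) e)) (u 8 2 (k v (k v (k (u 16 1 (k v (k v r))) (k (c 16 4097 r (u 24 0 (k v (k v r)))) (k (c 16 4097 r (u 24 0 (k v (k v r)))) (k (c 16 4096 r (u 24 0 (k v (k v r)))) (k (c 16 4095 r (u 24 0 (k v (k v r)))) r))))))))
 .z .z) (.s 0xee7f56008ae10 4073 (n false (n false (n true (z 71) e) (n false e e)) (n false (n false (n true (n false e e) e) (n false e e)) e)) (u 8 1 (k v (k (c 24 4099 r (u 16 1 (k v (k v r)))) (k (u 16 0 (k v (k v r))) (k (c 16 4099 r (u 24 1 (k v (k v r)))) (k (c 16 4099 r (u 24 1 (k v (k v r)))) (k (c 16 4099 r (u 24 1 (k v (k v r)))) r)))))))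
 .z .z)) (.s 0xee7f5600fb840 4071 (n false (n false (n true (z 71) e) (n true (n true (n false (n true (n false e e) e) (n false e e)) e) e)) e) (u 8 1 (k v (k (c 24 4099 r (u 16 1 (k v (k v r)))) (k (u 16 0 (k v (k v r))) (k (c 16 4099 r (u 24 1 (k v (k v r)))) (k (c 16 4099 r (u 24 1 (k v (k v r)))) (k (c 16 4099 r (u 24 1 (k v (k v r)))) r)))))))
 (.s 0xee7f56008ee10 4069 (n false (n false (n true (z 71) e) (n false e e)) (n true (n false (n true (n false e e) e) (n false e e)) e)) (u 8 1 (k v (k (c 24 4099 r (u 16 1 (k v (k v r)))) (k (u 16 0 (k v (k v r))) (k (c 16 4099 r (u 24 1 (k v (k v r)))) (k (c 16 4099 r (u 24 1 (k v (k v r)))) (k (c 16 4099 r (u 24 1 (k v (k v r)))) r)))))))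
 .z .z) (.s 0xee7f7c00e1708 4069 (n false (n false (n true (z 55) e) (n true (n false e e) e)) (n false (n true (n false e e) e) (n false e e))) (u 8 4 (k (t 24 1 (u 16 8 (k v (k v (k r (k r (k (u 32 4 (k v (k (t 96 1 (u 64 2 (k v (k v r)))) r))) (k (u 32 4 (k v (k (t 96 1 (u 64 17 (k v (k v (k r r))))) r))) r)))))))) (k (t 24 2 r) r)))
 .z .z))) (.s 0xee95df0077080 4064 (n false (n false (n true (n false (z 52) (n true (n false (n true (n false e e) e) (n false e e)) e)) e) e) e) (u 16 74 (k v (k v (k v (k v r)))))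
 (.s 0xee95df0043850 4066 (n false (n false (n true (n false (z 52) (n false e e)) e) (n true (n false e e) e)) (n false (n false e e) e)) (u 16 134 (k v (k (t 48 1 (u 32 0 (k v (k v r)))) (k (t 48 3 (u 32 0 (k (u 64 2 (k v (k (c 32 4090 (u 4 1 (k v (k v r))) v) r))) r))) r))))
 (.s 0xee7f7e008ee10 4070 (n false (n false (n true (z 119) e) (n false e e)) (n true (n false (n true (n false e e) e) (n false e e)) e)) (u 8 0 (k v (k (c 24 4101 r r) (k (c 24 4096 r r) (k (c 24 4096 r r) (k (c 24 4099 r r) (k (c 24 4097 r r) (k (c 24 4096 r (u 16 0 (k (u 32 0 (k v (k v r))) r))) (k (c 16 4098 r r) (k (c 16 4101 r r) (k (c 16 4099 r r) (k (c 16 4101 r r) r))))))))))))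
 .z .z) (.s 0xee95df0074088 4065 (n false (n false (n true (n false (z 52) (n true (n false (n false e e) e) e)) e) (n false e e)) (n false e e)) (u 16 136 (k v (k v (k v (k v r)))))
 .z .z)) (.s 0xee95fd400e088 4069 (n false (n false (n true (n false (z 156) (n true (n false e e) e)) e) (n false e e)) (n false e e)) (u 16 1 (k v (k (c 48 4099 r (u 32 1 (k v (k v r)))) (k (c 32 4098 r (u 48 1 (k v (k v r)))) (k (c 32 4097 r (u 48 1 (k v (k v r)))) (k (c 32 4099 r (u 48 1 (k v (k v r)))) (k (c 32 4095 r (u 48 0 (k v (k v r)))) r)))))))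
 (.s 0xee95fd4002288 4081 (n false (n false (n true (n false (z 156) e) e) (n false e e)) (n false (n false e e) (n false e e))) (u 16 1 (k v (k (c 48 4099 r (u 32 1 (k v (k v r)))) (k (c 32 4098 r (u 48 1 (k v (k v r)))) (k (c 32 4097 r (c 4 4085 r v)) (k (c 32 4099 r (u 48 1 (k v (k v r)))) (k (c 32 4095 r (c 4 4076 r v)) r)))))))
 .z .z) .z))) (.s 0xeea7d5c00e0e0 4069 (n false (n false (n true (n false (n false (z 35) e) (n true (n false e e) e)) e) (n true (n false e e) e)) e) (u 32 5 (k v (k v (k v (k (t 96 1 (u 64 0 (k (t 128 3 (t 192 1 v)) r))) r)))))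
 (.s 0xeea5ffe008740 4079 (n false (n false (n true (n false (n false (z 126) e) (n false e e)) e) (n true (n false (n false e e) e) e)) e) (u 32 3 (k v (k (t 96 1 (u 64 37 (k v (k v (k v r))))) (k (t 96 1 (u 64 35 (k v (k v (k v r))))) r))))
 (.s 0xeea22112bbe00 4080 (n false (z 52) (n false (n true (n false (n false (n false e e) (n false e e)) (n false e e)) e) (n false e e))) (u 2 106 (k v (k v (k v (k v (k v (k v (k v (k v (k (c 3 4089 v (t 6 2 r)) (k (c 3 4089 v (t 6 1 r)) r)))))))))))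
 (.s 0xee977d0043850 4065 (n false (n false (n true (n false (z 26) (n false e e)) e) (n true (n false e e) e)) (n false (n false e e) e)) (u 16 2 (k v (k (u 32 1 (k v (k v r))) r)))
 .z .z) (.s 0xeea5ffe008450 4078 (n false (n false (n true (n false (n false (z 126) e) (n false e e)) e) (n false e e)) (n false (n false e e) e)) (u 32 3 (k v (k (t 96 1 (u 64 37 (k v (k v (k v r))))) (k (t 96 1 (u 64 31 (k v (k v (k v r))))) r))))
 .z .z)) (.s 0xeea777c008740 4079 (n false (n false (n true (n false (n false (z 53) e) (n false e e)) e) (n true (n false (n false e e) e) e)) e) (u 32 0 (k (t 96 1 (u 64 12 (k v (k v (k v (k (u 128 75 (k v (k v (k v r)))) (k (u 128 0 (k v (k v r))) (k (c 192 4097 r (u 128 75 (k v (k v (k v r))))) r)))))))) (k (t 96 1 (u 64 23 (k v (k v (k v (k (u 128 3 (k v (k v r))) r)))))) r)))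
 (.s 0xeea777c008450 4078 (n false (n false (n true (n false (n false (z 53) e) (n false e e)) e) (n false e e)) (n false (n false e e) e)) (u 32 0 (k (t 96 1 (u 64 13 (k v (k v (k v (k (u 128 0 (k v (k v r))) (k (u 128 0 (k v (k v r))) (k (c 192 4097 r (u 128 0 (k v (k v r)))) r)))))))) (k (t 96 1 (u 64 23 (k v (k v (k v (k (u 128 3 (k v (k v r))) r)))))) r)))
 .z .z) .z)) (.s 0xeee10e13eae00 4069 (n false (n false (n true (n false (n true (n false e e) e) (n false e e)) e) (n true (n false e e) e)) (z 35)) (u 3 5 (k v (k v (k v (k (t 7 1 (u 5 0 (k (t 9 3 (t 13 1 v)) r))) r)))))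
 (.s 0xeeb84113fab00 4077 (n false (z 71) (n false (n true (n false (n false (n true (n false e e) e) (n false e e)) e) e) (n false e e))) (u 2 1 (k v (k (c 6 4099 r (u 4 1 (k v (k v r)))) (k (u 4 0 (k v (k v r))) (k (c 4 4099 r (u 6 1 (k v (k v r)))) (k (c 4 4099 r (u 6 1 (k v (k v r)))) (k (c 4 4099 r (u 6 1 (k v (k v r)))) r)))))))
 (.s 0xeea9ddd804210 4084 (n false (n false (n true (n false (n false (n false (z 85) (n false e e)) e) (n false e e)) e) (n false e e)) e) (u 64 4 (k v (k (c 192 4099 r r) (k (c 192 4099 r r) (k (c 192 4099 r (u 128 2 (k v (k v (k v (k (t 384 1 (u 256 6 (k v (k v (k (t 768 1 (u 512 0 (k v (k v r)))) r))))) r)))))) (k (c 16 4088 r v) (k (c 192 4096 r r) (k (c 128 4099 r r) r))))))))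
 .z .z) (.s 0xeee10e12bbe00 4064 (n false (n false (n true (n false (n true (n false e e) e) (n false e e)) e) (n true (n false e e) e)) (z 52)) (u 3 147 (k v (k v (k v (k v (k v (k v (k (t 7 1 (u 5 0 (k v (k v r)))) (k (t 7 3 (u 5 7 (k v (k v (k (c 11 4101 v (u 9 1 (k v (k v r)))) r))))) (k (t 7 2 (u 5 0 (k (u 9 2 (k v (k (u 17 2 (k v (k v r))) r))) r))) (k (t 7 1 (u 5 0 (k (c 13 4099 r (u 9 2 (k v (k (u 17 2 (k v (k v r))) r)))) r))) r)))))))))))
 .z .z)) (.s 0xeee577c00e0e0 4064 (n false (n false (n true (n false (n true (z 52) e) (n true (n false e e) e)) e) (n true (n false e e) e)) e) (u 32 52 (k v (k v (k v (k v (k v (k v (k (t 96 1 (u 64 0 (k v (k v r)))) (k (t 96 3 (u 64 2 (k v (k (c 160 4101 v (u 128 1 (k v (k v r)))) r)))) (k (t 96 2 (u 64 0 (k (u 128 2 (k v (k (u 256 1 (k v (k v r))) r))) r))) (k (t 96 1 (u 64 0 (k (c 192 4099 r (u 128 2 (k v (k (u 256 1 (k v (k v r))) r)))) r))) r)))))))))))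
 (.s 0xeee577c00e088 4065 (n false (n false (n true (n false (n true (z 52) e) (n true (n false e e) e)) e) (n false e e)) (n false e e)) (u 32 93 (k v (k v (k v (k v (k v (k v (k (t 96 1 (u 64 0 (k v (k v r)))) (k (t 96 2 (u 64 0 (k (u 128 2 (k v (k (u 256 2 (k v (k v r))) r))) r))) (k (t 96 1 (u 64 0 (k (c 192 4099 r (u 128 2 (k v (k (u 256 2 (k v (k v r))) r)))) r))) r))))))))))
 .z .z) .z))))

set_option maxRecDepth 100000 in
def N69 : NT :=
(.s 0xef9d7f801c3a0 4078 (n false (n false (n true (n true (z 121) e) e) (n true (n false e e) e)) (n true (n false (n false e e) e) e)) (u 16 1 (k v (k (c 48 4099 r (u 32 1 (k v (k v r)))) (k (c 32 4097 r (u 48 1 (k v (k v r)))) (k (c 32 4095 r (u 48 0 (k v (k v r)))) (k (c 32 4095 r (u 48 0 (k v (k v r)))) r))))))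
 (.s 0xef95ff8011510 4076 (n false (n false (n true (n true (z 124) e) e) (n false e e)) (n false (n false (n false e e) (n false e e)) e)) (u 16 3 (k v (k v (k (c 48 4097 r (u 32 1 (k v (k v r)))) (k (c 48 4096 r (u 32 1 (k v (k v r)))) (k (c 48 4097 r (u 32 1 (k v (k v r)))) r))))))
 (.s 0xef95df0011510 4070 (n false (n false (n true (n true (z 52) e) e) (n false e e)) (n false (n false (n false e e) (n false e e)) e)) (u 16 22 (k v (k v (k v (k v (k v (k v (k v (k (t 48 2 (u 32 0 (k (u 64 2 (k v (k (c 16 4088 r v) r))) r))) (k (t 48 1 (u 32 0 (k (c 96 4099 r (u 64 2 (k v (k (c 16 4085 r v) r)))) r))) r))))))))))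
 (.s 0xeee97dd0010e0 4077 (n false (n false (n true (n false (n true (n false (z 22) e) e) (n false e e)) e) (n true (n false e e) e)) e) (c 4 4078 (u 16 1 (k v (k v r))) v)
 (.s 0xeee7d5c00e0e0 4069 (n false (n false (n true (n false (n true (z 35) e) (n true (n false e e) e)) e) (n true (n false e e) e)) e) (u 32 5 (k v (k v (k v (k (t 96 1 (u 64 0 (k (t 128 3 (t 192 1 v)) r))) r)))))
 .z .z) (.s 0xef957f0011f40 4073 (n false (n false (n true (n true (z 56) e) e) (n false e e)) (n true (n true (n false (n false e e) e) e) e)) (u 16 0 (k (u 32 370 (k v (k v (k v (k v r))))) (k (c 32 4096 r (u 48 0 (k v (k v r)))) (k (u 32 1 (k v (k v r))) (k (c 48 4096 r (u 32 385 (k v (k v (k v (k v (k v (k v (k v (k v r)))))))))) r)))))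
 .z .z)) (.s 0xef95df0011f40 4068 (n false (n false (n true (n true (z 52) e) e) (n false e e)) (n true (n true (n false (n false e e) e) e) e)) (u 16 90 (k v (k v (k v (k v (k v (k v (k v r))))))))
 (.s 0xef95df0011d10 4072 (n false (n false (n true (n true (z 52) e) e) (n false e e)) (n true (n false (n false e e) (n false e e)) e)) (u 16 109 (k v (k v (k v (k v (k v (k v (k v (k (t 48 2 (u 32 0 (k (u 64 2 (k v (k (c 16 4088 r v) r))) r))) (k (t 48 1 (u 32 0 (k (c 96 4099 r (u 64 2 (k v (k (c 16 4085 r v) r)))) r))) r))))))))))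
 .z .z) (.s 0xef95fd4001d10 4078 (n false (n false (n true (n true (z 156) e) e) e) (n true (n false (n false e e) (n false e e)) e)) (u 16 1 (k v (k (c 48 4099 r (u 32 1 (k v (k v r)))) (k (c 32 4098 r (u 48 1 (k v (k v r)))) (k (c 32 4097 r (u 48 1 (k v (k v r)))) (k (c 32 4099 r (u 48 1 (k v (k v r)))) (k (c 32 4095 r (u 48 0 (k v (k v r)))) r)))))))
 .z .z))) (.s 0xef9d7f800ee10 4079 (n false (n false (n true (n true (z 121) e) e) e) (n true (n false (n true (n false e e) e) (n false e e)) e)) (u 16 1 (k v (k (c 48 4099 r (u 32 1 (k v (k v r)))) (k (c 32 4097 r (u 48 1 (k v (k v r)))) (k (c 32 4095 r (u 48 0 (k v (k v r)))) (k (c 32 4095 r (u 48 0 (k v (k v r)))) r))))))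
 (.s 0xef97f7000ee10 4079 (n false (n false (n true (n true (z 46) e) e) e) (n true (n false (n true (n false e e) e) (n false e e)) e)) (u 16 1 (k v (k (u 32 1 (k v (k v r))) (k (c 48 4099 r (u 32 0 (k v (k v r)))) (k (u 32 1 (k v (k v r))) (k (c 48 4097 r (u 32 1 (k v (k v r)))) (k (c 32 4095 r (u 48 1 (k v (k v r)))) r)))))))
 (.s 0xef95ff8011d10 4076 (n false (n false (n true (n true (z 124) e) e) (n false e e)) (n true (n false (n false e e) (n false e e)) e)) (u 16 3 (k v (k v (k (c 48 4097 r (u 32 1 (k v (k v r)))) (k (c 48 4096 r (u 32 1 (k v (k v r)))) (k (c 48 4097 r (u 32 1 (k v (k v r)))) r))))))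
 .z .z) (.s 0xef97f7001c2a0 4081 (n false (n false (n true (n true (z 46) e) e) (n true (n false e e) e)) (n false (n false (n false e e) e) e)) (u 16 1 (k v (k (u 32 1 (k v (k v r))) (k (c 48 4099 r (u 32 0 (k v (k v r)))) (k (u 32 1 (k v (k v r))) (k (c 48 4097 r (u 32 1 (k v (k v r)))) (k (c 32 4095 r (u 48 1 (k v (k v r)))) r)))))))
 .z .z)) (.s 0xef9d7f801c2a0 4081 (n false (n false (n true (n true (z 121) e) e) (n true (n false e e) e)) (n false (n false (n false e e) e) e)) (u 16 1 (k v (k (c 48 4099 r (u 32 1 (k v (k v r)))) (k (c 32 4097 r (u 48 1 (k v (k v r)))) (k (c 32 4095 r (u 48 0 (k v (k v r)))) (k (c 32 4095 r (u 48 0 (k v (k v r)))) r))))))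
 (.s 0xef9d7f800fa20 4077 (n false (n false (n true (n true (z 121) e) e) e) (n true (n true (n false (n false e e) (n false e e)) e) e)) (u 16 1 (k v (k (c 48 4099 r (u 32 1 (k v (k v r)))) (k (c 32 4097 r (u 48 1 (k v (k v r)))) (k (c 32 4095 r (u 48 0 (k v (k v r)))) (k (c 32 4095 r (u 48 0 (k v (k v r)))) r))))))
 .z .z) .z))) (.s 0xef9f7d8011d10 4075 (n false (n false (n true (n true (z 91) e) e) (n false e e)) (n true (n false (n false e e) (n false e e)) e)) (u 16 1 (k v (k v (k v (k (u 32 8 (k v (k v r))) (k (c 32 4097 r (u 48 0 (k v (k v r)))) (k (c 32 4095 r (u 48 0 (k v (k v r)))) r)))))))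
 (.s 0xef9ddd8011510 4076 (n false (n false (n true (n true (z 85) e) e) (n false e e)) (n false (n false (n false e e) (n false e e)) e)) (u 16 4 (k v (k (c 48 4099 r r) (k (t 48 1 (u 32 2 (k v (k (c 16 4094 (c 3 4099 v (t 6 2 r)) v) r)))) (k (c 48 4099 r (c 16 4094 r v)) (k (u 32 3 (k v (k v r))) (k (c 48 4096 r (c 16 4095 r v)) (k (c 32 4099 r r) r))))))))
 (.s 0xef9dd7001c2a0 4081 (n false (n false (n true (n true (z 37) e) e) (n true (n false e e) e)) (n false (n false (n false e e) e) e)) (u 16 0 (k v (k (c 3 4093 v (u 32 0 (k (t 64 3 (t 96 1 v)) r))) (k (u 32 0 (k (t 64 3 (t 96 1 v)) r)) (k (c 3 4093 v r) (k (u 32 10 (k v (k v (k v (k (t 96 1 (u 64 0 (k (t 128 3 (t 192 1 v)) r))) r))))) (k (c 3 4093 v r) r)))))))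
 (.s 0xef9dd7000ee10 4079 (n false (n false (n true (n true (z 37) e) e) e) (n true (n false (n true (n false e e) e) (n false e e)) e)) (u 16 0 (k v (k (u 32 0 (k (t 64 3 (t 96 1 v)) r)) (k (u 32 0 (k (t 64 3 (t 96 1 v)) r)) (k (u 32 2 (k v (k v (k v (k (t 96 1 (u 64 0 (k (t 128 3 (t 192 1 v)) r))) r))))) (k (u 32 2 (k v (k v (k v (k (t 96 1 (u 64 0 (k (t 128 3 (t 192 1 v)) r))) r))))) (k (c 3 4091 v r) r)))))))
 .z .z) (.s 0xef9dd7001c3a0 4078 (n false (n false (n true (n true (z 37) e) e) (n true (n false e e) e)) (n true (n false (n false e e) e) e)) (u 16 24 (k v (k (u 32 0 (k (t 64 3 (t 96 1 v)) r)) (k r (k (u 32 0 (k (t 64 3 (t 96 1 v)) r)) (k (u 32 2 (k v (k v (k v (k (t 96 1 (u 64 0 (k (t 128 3 (t 192 1 v)) r))) r))))) (k (c 3 4093 v r) r)))))))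
 .z .z)) (.s 0xef9f7d8011510 4075 (n false (n false (n true (n true (z 91) e) e) (n false e e)) (n false (n false (n false e e) (n false e e)) e)) (u 16 1 (k v (k v (k v (k (u 32 0 (k v (k v r))) (k (c 32 4097 r (u 48 0 (k v (k v r)))) (k (c 32 4095 r (u 48 0 (k v (k v r)))) r)))))))
 (.s 0xef9ddd8011d10 4076 (n false (n false (n true (n true (z 85) e) e) (n false e e)) (n true (n false (n false e e) (n false e e)) e)) (u 16 4 (k v (k (c 48 4099 r r) (k (t 48 1 (u 32 2 (k v (k (c 16 4094 (c 3 4099 v (t 6 2 r)) v) r)))) (k (c 48 4099 r (c 16 4094 r v)) (k (c 16 4097 r v) (k (c 48 4096 r (c 16 4095 r v)) (k (c 32 4099 r r) r))))))))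
 .z .z) .z)) (.s 0xf95df002a2288 4089 (n false (n true (z 52) e) (n false (n false (n false e e) (n false e e)) (n false (n false e e) (n false e e)))) (u 4 77 (k v (k v (k v (k v (k v (k v (k v r))))))))
 (.s 0xefe577c0023a0 4064 (n false (n false (n true (n true (n true (z 52) e) e) e) (n false e e)) (n true (n false (n false e e) e) e)) (u 32 27 (k v (k v (k v (k v (k v (k v (k v (k (t 96 3 (u 64 12 (k v (k v (k v r))))) (k (t 96 2 (u 64 0 (k (u 128 2 (k v (k (c 64 4084 (u 4 1 (k v (k v r))) v) r))) r))) (k (t 96 1 (u 64 0 (k (c 192 4099 r (u 128 2 (k v (k (c 64 4084 (u 4 1 (k v (k v r))) v) r)))) r))) r)))))))))))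
 (.s 0xefa5fd4003870 4082 (n false (n false (n true (n true (n false (z 14) e) e) e) (n true (n false e e) e)) (n true (n false e e) e)) (c 3 4094 v (u 32 0 (k v (k v r))))
 .z .z) (.s 0xefe80e12afe00 4080 (n false (z 56) (n false (n true (n true (n true (n false (n false e e) e) e) e) e) (n true (n false e e) e))) (u 2 1 (k (u 4 1 (k v (k v r))) (k (u 4 254 (k v (k v (k v (k (t 12 1 (u 8 0 (k v (k v r)))) r))))) (k (c 4 4096 r (u 6 0 (k v (k v r)))) (k (c 6 4096 r r) r)))))
 .z .z)) (.s 0xf95fd4005d108 4090 (n false (n true (z 156) e) (n false (n true (n false (n false e e) (n false e e)) e) (n false e e))) (u 4 1 (k v (k (c 12 4099 r (u 8 1 (k v (k v r)))) (k (c 8 4098 r (u 12 1 (k v (k v r)))) (k (c 8 4097 r (u 12 1 (k v (k v r)))) (k (c 8 4099 r (u 12 1 (k v (k v r)))) (k (c 8 4095 r (u 12 0 (k v (k v r)))) r)))))))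
 (.s 0xf95df003ba210 4087 (n false (n true (z 52) e) (n true (n false (n true (n false (n false e e) (n false e e)) e) (n false e e)) e)) (u 4 17 (k v (k v (k v (k v (k v (k v (k (t 12 1 (u 8 0 (k v (k v r)))) r))))))))
 .z .z) .z))))

set_option maxRecDepth 100000 in
def N70 : NT :=
(.s 0xfa55fe0075110 4087 (n false (n true (n false (z 120) e) e) (n true (n false (n false (n false e e) (n false e e)) (n false e e)) e)) (u 8 2 (k v (k v (k (c 24 4099 r r) (k (c 24 4099 r r) (k (c 16 4095 r (u 24 1 (k v (k v r)))) (k (c 24 4097 r r) (k (c 24 4096 r (c 2 4087 r v)) (k (c 24 4096 r (u 16 0 (k (u 32 0 (k v (k v r))) r))) (k (c 16 4099 r r) (k (c 24 4100 r r) (k (c 24 4097 r r) (k (c 24 4099 r r) (k (c 16 4099 r r) (k (c 24 4097 r r) r)))))))))))))))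
 (.s 0xf9f55802fb840 4082 (n false (n true (z 67) e) (n false (n true (n true (n false (n true (n false e e) e) (n false e e)) e) e) e)) (u 4 17 (k v (k v (k v (k v (k (t 12 1 (u 8 1 (k v (k v r)))) (k (c 8 4101 r (u 12 0 (k v (k v r)))) (k r (k (c 2 4088 r v) (k (c 8 4099 r (u 12 0 (k v (k v r)))) (k (t 12 1 (u 8 2 (k v (k (c 24 4097 r (u 16 0 (k v (k v r)))) r)))) (k (c 2 4091 (t 6 2 (u 4 0 (k r r))) v) (k (c 12 4101 r (u 8 1 (k v (k v r)))) (k (t 12 1 (u 8 9 (k v (k v (k v (k (c 24 4099 r (u 16 1 (k v (k v r)))) r)))))) (k (c 12 4102 r (u 8 1 (k v (k v r)))) (k (c 8 4101 r (u 12 1 (k v (k v r)))) (k r (k (c 8 4101 r (u 12 1 (k v (k v r)))) r))))))))))))))))))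
 (.s 0xf97ff003ba210 4085 (n false (n true (z 62) e) (n true (n false (n true (n false (n false e e) (n false e e)) e) (n false e e)) e)) (u 4 1 (k v (k v (k v (k (t 12 1 r) r)))))
 (.s 0xf95fd4007fd00 4088 (n false (n true (n true (n true (n true (n false (n false e e) e) e) e) e) e) (n true (z 156) e)) (u 5 1 (k v (k (c 13 4099 r (u 9 1 (k v (k v r)))) (k (c 9 4098 r (u 13 1 (k v (k v r)))) (k (c 9 4097 r (u 13 1 (k v (k v r)))) (k (c 9 4099 r (u 13 1 (k v (k v r)))) (k (c 9 4095 r (u 13 0 (k v (k v r)))) r)))))))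
 (.s 0xf95fd4007dc20 4087 (n false (n true (z 156) e) (n true (n true (n false (n true (n false e e) e) (n false e e)) e) e)) (u 4 1 (k v (k (c 12 4099 r (u 8 1 (k v (k v r)))) (k (c 8 4098 r (u 12 1 (k v (k v r)))) (k (c 8 4097 r (u 12 32 (k v (k v (k v r))))) (k (c 8 4099 r (u 12 1 (k v (k v r)))) (k (c 8 4095 r (u 12 0 (k v (k v r)))) r)))))))
 .z .z) (.s 0xf97f7002a2288 4094 (n false (n true (z 46) e) (n false (n false (n false e e) (n false e e)) (n false (n false e e) (n false e e)))) (u 4 1 (k v (k (u 8 1 (k v (k v r))) (k (c 12 4099 r (u 8 0 (k v (k v r)))) (k (u 8 0 (k v (k v r))) (k (c 12 4097 r (u 8 1 (k v (k v r)))) (k (c 8 4095 r (u 12 1 (k v (k v r)))) r)))))))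
 .z .z)) (.s 0xf9dd7002a2288 4093 (n false (n true (z 37) e) (n false (n false (n false e e) (n false e e)) (n false (n false e e) (n false e e)))) (u 4 0 (k v (k (u 8 0 (k (t 16 3 (t 24 1 v)) r)) (k (u 8 0 (k (t 16 3 (t 24 1 v)) r)) (k (u 8 2 (k v (k v (k v (k (t 24 1 (u 16 0 (k (t 32 3 (t 48 1 v)) r))) r))))) (k (u 8 0 (k v (k v (k (t 24 1 (u 16 0 (k (t 32 3 (t 48 1 v)) r))) r)))) (k (c 2 4088 r v) r)))))))
 (.s 0xf9d7f802a2288 4093 (n false (n true (z 121) e) (n false (n false (n false e e) (n false e e)) (n false (n false e e) (n false e e)))) (u 4 2 (k v (k v (k (c 12 4099 r (u 8 1 (k v (k v r)))) (k (c 8 4095 r (u 12 0 (k v (k v r)))) (k (c 8 4095 r (u 12 0 (k v (k v r)))) r))))))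
 .z .z) (.s 0xf9f55802eb840 4083 (n false (n true (z 67) e) (n false (n true (n false (n false (n true (n false e e) e) (n false e e)) e) e) e)) (u 4 33 (k v (k v (k v (k v (k (t 12 1 (u 8 1 (k v (k v r)))) (k (c 8 4101 r (u 12 0 (k v (k v r)))) (k r (k (c 2 4088 r v) (k (c 8 4099 r (u 12 0 (k v (k v r)))) (k (t 12 1 (u 8 2 (k v (k (c 24 4097 r (u 16 0 (k v (k v r)))) r)))) (k (c 2 4091 (t 6 2 (u 4 0 (k r r))) v) (k (c 12 4101 r (u 8 1 (k v (k v r)))) (k (t 12 1 (u 8 9 (k v (k v (k v (k (c 24 4099 r (u 16 1 (k v (k v r)))) r)))))) (k (c 12 4102 r (u 8 1 (k v (k v r)))) (k (c 8 4101 r (u 12 1 (k v (k v r)))) (k r (k (c 8 4101 r (u 12 1 (k v (k v r)))) r))))))))))))))))))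
 .z .z))) (.s 0xf9fdf803fb840 4089 (n false (n true (z 119) e) (n true (n true (n true (n false (n true (n false e e) e) (n false e e)) e) e) e)) (u 4 43 (k v (k v (k v (k (c 8 4097 r (u 12 1 (k v (k v r)))) (k (c 8 4097 r r) (k (c 12 4097 r r) (k (c 12 4097 r r) (k (c 12 4097 r r) r)))))))))
 (.s 0xf9f5f003ba210 4087 (n false (n true (z 51) e) (n true (n false (n true (n false (n false e e) (n false e e)) e) (n false e e)) e)) (u 4 0 (k (t 12 1 (u 8 0 (k (t 16 3 (t 24 3 v)) r))) r))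
 (.s 0xf9f55803ea220 4091 (n false (n true (z 67) e) (n true (n true (n false (n false (n false e e) (n false e e)) (n false e e)) e) e)) (u 4 18 (k v (k v (k v (k v (k (t 12 1 (u 8 1 (k v (k v r)))) (k (u 8 2 (k (c 12 4097 r v) (k (u 12 0 (k v (k v r))) r))) (k r (k (c 2 4088 r v) (k (c 2 4091 (t 6 2 (u 4 0 (k r r))) v) (k (u 12 4 (k (u 8 1 (k v (k v r))) (k (c 8 4099 r v) r))) (k r (k (c 2 4091 (t 4 1 (u 6 0 (k r r))) v) (k r (k r (k r r))))))))))))))))
 .z .z) (.s 0xf9fdf002a2288 4091 (n false (n true (z 55) e) (n false (n false (n false e e) (n false e e)) (n false (n false e e) (n false e e)))) (u 4 4 (k (t 12 1 (u 8 2 (k v (k (c 24 4099 r (t 16 3 v)) (k (u 16 2 (k v (k v r))) r))))) (k (t 12 2 (u 8 7 (k v (k v (k (c 2 4082 (u 8 1 (k v (k v r))) v) r))))) r)))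
 .z .z)) (.s 0xfa557c010ee10 4081 (n false (n true (n false (z 48) (n false e e)) e) (n true (n false (n true (n false e e) e) (n false e e)) e)) (u 8 17 (k v (k r (k (c 24 4099 r (t 16 3 v)) r))))
 (.s 0xf9ff5802a2288 4096 (n false (n true (z 79) e) (n false (n false (n false e e) (n false e e)) (n false (n false e e) (n false e e)))) (u 4 0 (k v (k (u 8 7 (k v (k v (k v (k (c 24 4099 r (u 16 1 (k v (k v r)))) r))))) r)))
 .z .z) .z))) (.s 0xfa5df4010ee10 4074 (n false (n true (n false (z 26) (n false e e)) e) (n true (n false (n true (n false e e) e) (n false e e)) e)) (u 8 2 (k v (k (u 16 4 (k v (k v r))) r)))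
 (.s 0xfa5ddc010ae10 4076 (n false (n true (n false (z 42) (n false e e)) e) (n false (n false (n true (n false e e) e) (n false e e)) e)) (u 8 55 (k v (k r (k r (k r (k (u 16 25 (k v (k v (k v (k (c 32 4097 r (u 48 1 (k v (k v r)))) r))))) (k r r)))))))
 (.s 0xfa577c010ee10 4082 (n false (n true (n false (z 52) (n false e e)) e) (n true (n false (n true (n false e e) e) (n false e e)) e)) (u 8 25 (k v (k v (k v (k (t 24 1 (u 16 0 (k v (k v r)))) r)))))
 (.s 0xfa577c010ae10 4082 (n false (n true (n false (z 52) (n false e e)) e) (n false (n false (n true (n false e e) e) (n false e e)) e)) (u 8 25 (k v (k v (k v (k (t 24 1 (u 16 3 (k v (k v r)))) r)))))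
 .z .z) (.s 0xfa577c010fa20 4076 (n false (n true (n false (z 52) (n false e e)) e) (n true (n true (n false (n false e e) (n false e e)) e) e)) (u 8 43 (k v (k v (k v (k v (k (t 24 1 (u 16 0 (k v (k v r)))) r))))))
 .z .z)) (.s 0xfa5dde010ee10 4080 (n false (n true (n false (z 106) (n false e e)) e) (n true (n false (n true (n false e e) e) (n false e e)) e)) (u 8 8 (k v (k (c 16 4103 r (u 24 0 (k (u 40 0 (k v (k v r))) r))) (k (c 16 4101 r r) (k (c 24 4103 r r) (k (c 24 4100 r r) (k (c 24 4100 r r) r)))))))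
 (.s 0xfa5ddc010ee10 4076 (n false (n true (n false (z 42) (n false e e)) e) (n true (n false (n true (n false e e) e) (n false e e)) e)) (u 8 3 (k v (k r (k r (k r (k r (k r r)))))))
 .z .z) .z)) (.s 0xfa7dde010ee10 4078 (n false (n true (n false (z 107) (n false e e)) e) (n true (n false (n true (n false e e) e) (n false e e)) e)) (u 8 5 (k v (k (c 24 4099 r r) (k (c 24 4100 r (u 16 0 (k (u 32 0 (k v (k v r))) r))) r))))
 (.s 0xfa75f6007dc20 4085 (n false (n true (n false (z 89) e) e) (n true (n true (n false (n true (n false e e) e) (n false e e)) e) e)) (u 8 0 (k v (k v (k v (k (t 24 2 r) r)))))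
 (.s 0xfa5fdc0141708 4075 (n false (n true (n false (z 46) (n false (n false e e) e)) e) (n false (n true (n false e e) e) (n false e e))) (u 8 2 (k v (k (c 24 4099 r (u 16 0 (k v (k v r)))) (k (u 16 1 (k v (k v r))) (k (u 16 1 (k v (k v r))) (k (c 24 4097 r (u 16 1 (k v (k v r)))) (k (c 16 4095 r (u 24 1 (k v (k v r)))) r)))))))
 .z .z) (.s 0xfa7d560075110 4088 (n false (n true (n false (z 67) e) e) (n true (n false (n false (n false e e) (n false e e)) (n false e e)) e)) (u 8 34 (k v (k v (k v (k v (k (c 24 4099 r (u 16 1 (k v (k v r)))) (k (c 24 4097 r (u 16 1 (k v (k v r)))) (k (c 24 4099 r r) (k (c 4 4088 r v) (k (c 24 4097 r r) (k (c 24 4099 r r) (k (c 24 4099 r (u 16 0 (k (u 32 0 (k v (k v r))) r))) (k (c 16 4099 r (u 24 1 (k v (k v r)))) (k (c 24 4099 r r) (k (c 16 4099 r (u 24 0 (k (u 40 0 (k v (k v r))) r))) (k (c 24 4099 r r) (k (c 24 4099 r r) (k (c 24 4099 r r) r))))))))))))))))))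
 .z .z)) (.s 0xfa7f7e0075110 4087 (n false (n true (n false (z 119) e) e) (n true (n false (n false (n false e e) (n false e e)) (n false e e)) e)) (u 8 34 (k v (k (c 16 4097 r (u 24 1 (k v (k v r)))) (k (c 16 4097 r r) (k (c 16 4097 r r) (k (c 16 4097 r r) (k (c 24 4096 r (u 16 0 (k (u 32 0 (k v (k v r))) r))) (k (c 24 4097 r r) (k (c 24 4097 r r) (k (c 24 4097 r r) (k (c 24 4097 r r) (k (c 24 4097 r r) (k (c 24 4097 r r) r)))))))))))))
 (.s 0xfa7f7e005d108 4091 (n false (n true (n false (z 119) e) e) (n false (n true (n false (n false e e) (n false e e)) e) (n false e e))) (u 8 10 (k v (k (t 24 1 (u 16 41 (k v (k v (k (t 48 1 (u 32 0 (k v (k v r)))) r))))) (k (c 24 4097 r (u 16 28 (k v (k v (k (c 48 4099 r (u 32 6 (k v (k v (k v r))))) (k (c 32 4095 r (u 48 23 (k v (k v r)))) (k (c 32 4095 r (u 48 23 (k v (k v r)))) r))))))) (k (c 24 4097 r (u 16 39 (k v (k v (k v (k (c 48 4099 r (u 32 6 (k v (k v (k v r))))) (k (c 32 4099 r (u 48 6 (k v (k v (k v r)))))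 r))))))) r)))))
 .z .z) .z))))

set_option maxRecDepth 100000 in
def N71 : NT :=
(.s 0xfa88a213eaf00 4091 (n false (z 99) (n true (n false (n false (n false e e) (n false e e)) (n false (n false e e) (n false e e))) e)) (u 2 0 (k (c 6 4096 r r) (k (c 6 4096 r r) (k (c 6 4096 r (u 4 1 (k v (k (c 12 4097 r (u 8 0 (k v (k v r)))) r)))) (k (c 6 4096 r r) (k (c 6 4096 r r) r))))))
 (.s 0xfa88a212fee00 4090 (n false (z 46) (n true (n false (n false (n false e e) (n false e e)) (n false (n false e e) (n false e e))) e)) (u 2 1 (k v (k (u 4 1 (k v (k v r))) (k (c 6 4099 r (u 4 0 (k v (k v r)))) (k (u 4 0 (k v (k v r))) (k (c 6 4097 r (u 4 1 (k v (k v r)))) (k (c 4 4095 r (u 6 1 (k v (k v r)))) r)))))))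
 (.s 0xfa88a212bbe00 4089 (n false (z 52) (n true (n false (n false (n false e e) (n false e e)) (n false (n false e e) (n false e e))) e)) (u 2 77 (k v (k v (k v (k v (k v (k v (k v r))))))))
 (.s 0xfa88a212afe00 4090 (n false (z 56) (n true (n false (n false (n false e e) (n false e e)) (n false (n false e e) (n false e e))) e)) (u 2 1 (k (u 4 1 (k v (k v r))) (k (u 4 80 (k v (k v (k v (k v (k v (k v (k v r)))))))) (k (c 4 4096 r (u 6 0 (k v (k v r)))) (k (c 6 4096 r r) r)))))
 (.s 0xfa88a212abf00 4091 (n false (z 112) (n true (n false (n false (n false e e) (n false e e)) (n false (n false e e) (n false e e))) e)) (u 2 1 (k (c 6 4099 r (u 4 1 (k v (k r (k (c 2 4076 (u 4 0 (k r r)) v) r))))) (k (u 4 5 (k v (k (t 12 1 r) (k (t 8 2 r) (k (t 8 1 r) r))))) r)))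
 .z .z) (.s 0xfa88a212bbb00 4094 (n false (z 84) (n true (n false (n false (n false e e) (n false e e)) (n false (n false e e) (n false e e))) e)) (u 2 0 (k (u 4 0 (k v (k (u 8 7 (k v (k v (k v (k (c 24 4099 r (u 16 1 (k v (k v r)))) r))))) r))) r))
 .z .z)) (.s 0xfa88a212ebe00 4091 (n false (z 50) (n true (n false (n false (n false e e) (n false e e)) (n false (n false e e) (n false e e))) e)) (u 2 1 (k v (k (c 6 4097 r (u 4 0 (k v (k v r)))) r)))
 (.s 0xfa88a212bff00 4090 (n false (z 124) (n true (n false (n false (n false e e) (n false e e)) (n false (n false e e) (n false e e))) e)) (u 2 2 (k v (k v (k (c 6 4097 r (u 4 1 (k v (k v r)))) (k (c 6 4096 r (u 4 1 (k v (k v r)))) (k (c 6 4097 r (u 4 1 (k v (k v r)))) (k (c 6 4099 r (u 4 1 (k v (k v r)))) r)))))))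
 .z .z) (.s 0xfa88a212efb00 4092 (n false (z 90) (n true (n false (n false (n false e e) (n false e e)) (n false (n false e e) (n false e e))) e)) (u 2 4 (k v (k v (k r (k r (k r (k (c 6 4096 r r) r)))))))
 .z .z))) (.s 0xfa88a213aff00 4092 (n false (z 121) (n true (n false (n false (n false e e) (n false e e)) (n false (n false e e) (n false e e))) e)) (u 2 2 (k v (k v (k (c 6 4099 r (u 4 1 (k v (k v r)))) (k (c 4 4095 r (u 6 0 (k v (k v r)))) (k (c 4 4095 r (u 6 0 (k v (k v r)))) r))))))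
 (.s 0xfa88a213afb00 4091 (n false (z 89) (n true (n false (n false (n false e e) (n false e e)) (n false (n false e e) (n false e e))) e)) (u 2 0 (k v (k v (k v (k (t 6 2 r) r)))))
 (.s 0xfa88a212ffe00 4089 (n false (z 62) (n true (n false (n false (n false e e) (n false e e)) (n false (n false e e) (n false e e))) e)) (u 2 1 (k v (k v (k v (k (t 6 1 r) r)))))
 .z .z) (.s 0xfa88a213afe00 4091 (n false (z 57) (n true (n false (n false (n false e e) (n false e e)) (n false (n false e e) (n false e e))) e)) (u 2 0 (k v (k (t 4 3 (t 6 3 v)) (k (t 6 1 (u 4 0 (k v (k v r)))) r))))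
 .z .z)) (.s 0xfa88a213bbb00 4090 (n false (z 85) (n true (n false (n false (n false e e) (n false e e)) (n false (n false e e) (n false e e))) e)) (u 2 4 (k v (k (c 6 4099 r r) (k r (k (c 6 4099 r (u 4 1 (k v (k v (k v (k (t 12 1 r) r)))))) (k r (k (c 6 4096 r r) (k (c 4 4099 r r) r))))))))
 (.s 0xfa88a213bae00 4092 (n false (z 37) (n true (n false (n false (n false e e) (n false e e)) (n false (n false e e) (n false e e))) e)) (u 2 5 (k v (k (u 4 0 (k (t 8 3 (t 12 1 v)) r)) (k r (k (u 4 0 (k (t 8 3 (t 12 1 v)) r)) (k (u 4 0 (k v (k v (k (t 12 1 (u 8 0 (k (t 16 3 (t 24 1 v)) r))) r)))) (k (c 3 4100 v r) r)))))))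
 .z .z) .z))) (.s 0xfa88a213faf00 4093 (n false (z 103) (n true (n false (n false (n false e e) (n false e e)) (n false (n false e e) (n false e e))) e)) (u 2 6 (k v (k (t 6 1 r) (k (t 4 2 r) (k (t 4 1 r) r)))))
 (.s 0xfa88a213efe00 4093 (n false (z 59) (n true (n false (n false (n false e e) (n false e e)) (n false (n false e e) (n false e e))) e)) (u 2 0 (k (t 6 1 (u 4 2 (k v (k (c 2 4083 (u 4 1 (k v (k v r))) v) r)))) r))
 (.s 0xfa88a213eee00 4092 (n false (z 43) (n true (n false (n false (n false e e) (n false e e)) (n false (n false e e) (n false e e))) e)) (u 2 4 (k v (k v (k v (k r (k r (k (u 4 0 (k (u 8 0 (k v (k v r))) r)) (k r (k r r)))))))))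
 (.s 0xfa88a213eeb00 4091 (n false (z 75) (n true (n false (n false (n false e e) (n false e e)) (n false (n false e e) (n false e e))) e)) (u 2 6 (k v (k v (k (t 6 2 r) r))))
 .z .z) (.s 0xfa88a213efb00 4090 (n false (z 91) (n true (n false (n false (n false e e) (n false e e)) (n false (n false e e) (n false e e))) e)) (u 2 1 (k v (k v (k v (k (u 4 0 (k v (k v r))) (k (c 4 4097 r (u 6 0 (k v (k v r)))) (k (c 4 4095 r (u 6 0 (k v (k v r)))) r)))))))
 .z .z)) (.s 0xfa88a213fab00 4093 (n false (z 71) (n true (n false (n false (n false e e) (n false e e)) (n false (n false e e) (n false e e))) e)) (u 2 7 (k v (k v (k v (k (c 6 4099 r (u 4 1 (k v (k v r)))) r)))))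
 (.s 0xfa88a213eff00 4091 (n false (z 123) (n true (n false (n false (n false e e) (n false e e)) (n false (n false e e) (n false e e))) e)) (u 2 6 (k v (k v (k v (k (c 6 4099 r (u 4 0 (k v (k v (k v (k (t 12 2 r) r)))))) (k (u 4 11 (k v (k v (k (c 12 4101 r r) (k (c 12 4099 r r) (k (c 12 4096 r (u 8 0 (k (u 16 0 (k v (k v r))) r))) (k (c 8 4098 r r) (k (c 8 4101 r r) (k (c 8 4099 r r) (k (c 8 4101 r r) r)))))))))) r))))))
 .z .z) .z)) (.s 0xfa95df0041708 4082 (n false (n true (n false (n false (z 52) (n false e e)) e) e) (n false (n true (n false e e) e) (n false e e))) (u 16 25 (k v (k v (k v (k (t 48 1 (u 32 0 (k v (k v r)))) r)))))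
 (.s 0xfa88a213feb00 4093 (n false (z 79) (n true (n false (n false (n false e e) (n false e e)) (n false (n false e e) (n false e e))) e)) (u 2 0 (k v (k (u 4 7 (k v (k v (k v (k (c 12 4099 r (u 8 1 (k v (k v r)))) r))))) r)))
 (.s 0xfa88a213fbf00 4092 (n false (z 119) (n true (n false (n false (n false e e) (n false e e)) (n false (n false e e) (n false e e))) e)) (u 2 18 (k v (k v (k (c 6 4101 r r) (k (c 6 4099 r r) (k (c 6 4097 r r) (k (c 6 4096 r (u 4 0 (k (u 8 0 (k v (k v r))) r))) (k (c 4 4098 r r) (k (c 4 4101 r r) (k (c 4 4099 r r) (k (c 4 4101 r r) r)))))))))))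
 .z .z) (.s 0xfa88a213fff00 4093 (n false (z 127) (n true (n false (n false (n false e e) (n false e e)) (n false (n false e e) (n false e e))) e)) (u 2 0 (k (u 4 23 (k v (k v (k (c 12 4099 r (u 8 0 (k v (k v (k v (k (t 24 2 r) r)))))) (k (u 8 26 (k v (k (c 24 4101 r r) (k (c 16 4101 r r) (k (c 16 4101 r r) r))))) r))))) r))
 .z .z)) (.s 0xfa95fd4004288 4078 (n false (n true (n false (n false (z 156) e) (n false e e)) e) (n false (n false e e) (n false e e))) (u 16 8 (k v (k v (k (c 48 4099 r (u 32 1 (k v (k v r)))) (k (c 32 4098 r (u 48 1 (k v (k v r)))) (k (c 32 4097 r (u 48 1 (k v (k v r)))) (k (c 32 4099 r (u 48 1 (k v (k v r)))) r)))))))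
 (.s 0xfa95df0041f40 4083 (n false (n true (n false (n false (z 52) (n false e e)) e) e) (n true (n true (n false (n false e e) e) e) e)) (u 16 36 (k v (k v (k (t 48 1 (u 32 0 (k v (k v r)))) r))))
 .z .z) .z))))

set_option maxRecDepth 100000 in
def N72 : NT :=
(.s 0xfb97f7000ee10 4075 (n false (n true (n false (n true (z 46) e) e) e) (n true (n false (n true (n false e e) e) (n false e e)) e)) (u 16 1 (k v (k (u 32 1 (k v (k v r))) (k (c 48 4099 r (u 32 0 (k v (k v r)))) (k (u 32 1 (k v (k v r))) (k (c 48 4097 r (u 32 1 (k v (k v r)))) (k (c 32 4095 r (u 48 1 (k v (k v r)))) r)))))))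
 (.s 0xfb95fd4001708 4087 (n false (n true (n false (n true (z 156) e) e) e) (n false (n true (n false e e) e) (n false e e))) (u 16 5 (k v (k v (k (c 48 4099 r (u 32 1 (k v (k v r)))) (k (c 32 4098 r (u 48 1 (k v (k v r)))) (k (c 32 4097 r (u 48 1 (k v (k v r)))) (k (c 32 4099 r (u 48 1 (k v (k v r)))) r)))))))
 (.s 0xfa9fd5800ee10 4080 (n false (n true (n false (n false (z 71) e) e) e) (n true (n false (n true (n false e e) e) (n false e e)) e)) (u 16 1 (k v (k (c 48 4099 r (u 32 1 (k v (k v r)))) (k (c 4 4082 r v) (k (c 32 4099 r (u 48 1 (k v (k v r)))) (k (c 32 4099 r (u 48 1 (k v (k v r)))) (k (c 32 4099 r (u 48 1 (k v (k v r)))) r)))))))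
 (.s 0xfa9d7f80383a0 4082 (n false (n true (n false (n false (z 121) e) (n true (n false e e) e)) e) (n true (n false (n false e e) e) e)) (u 16 1 (k v (k (c 48 4099 r (u 32 1 (k v (k v r)))) (k (c 32 4097 r (u 48 1 (k v (k v r)))) (k (c 32 4095 r (u 48 0 (k v (k v r)))) (k (c 32 4095 r (u 48 0 (k v (k v r)))) r))))))
 (.s 0xfa97f70021708 4075 (n false (n true (n false (n false (z 46) e) (n false e e)) e) (n false (n true (n false e e) e) (n false e e))) (u 16 6 (k v (k v (k (u 32 1 (k v (k v r))) (k (c 48 4099 r (u 32 0 (k v (k v r)))) (k (u 32 1 (k v (k v r))) (k (c 48 4097 r (u 32 1 (k v (k v r)))) r)))))))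
 .z .z) (.s 0xfa9fd5800ae10 4080 (n false (n true (n false (n false (z 71) e) e) e) (n false (n false (n true (n false e e) e) (n false e e)) e)) (u 16 1 (k v (k (c 48 4099 r (u 32 1 (k v (k v r)))) (k (c 4 4082 r v) (k (c 32 4099 r (u 48 1 (k v (k v r)))) (k (c 32 4099 r (u 48 1 (k v (k v r)))) (k (c 32 4099 r (u 48 1 (k v (k v r)))) r)))))))
 .z .z)) (.s 0xfb955540043a0 4073 (n false (n true (n false (n true (z 128) e) (n false e e)) e) (n true (n false (n false e e) e) e)) (u 16 27 (k v (k v (k (c 48 4097 r r) (k (c 32 4095 r r) (k (c 32 4098 r (u 48 0 (k (u 80 6 (k v (k v (k v r)))) r))) (k (c 32 4096 r r) (k (c 32 4095 r (u 48 2 (k v (k (c 112 4097 r (u 80 0 (k v (k v r)))) r)))) (k (c 32 4095 r r) (k (c 32 4095 r (u 48 0 (k v (k v r)))) (k (c 48 4095 r (u 32 54 (k v (k v (k v (k (u 64 3 (k v (k v r))) r)))))) (k (c 48 4095 r (u 32 1 (k v (k v r)))) (k (c 32 4097 r (u 48 0 (k v (k v r)))) (k (c 32 4095 r r) (k (c 32 4095 r (u 48 1 (k v (k v r)))) (k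 (c 32 4097 r r) r))))))))))))))))
 (.s 0xfa9ff580383a0 4084 (n false (n true (n false (n false (z 79) e) (n true (n false e e) e)) e) (n true (n false (n false e e) e) e)) (u 16 1 (k v (k (c 4 4085 (c 3 4094 v r) v) (k (c 48 4096 r (u 32 1 (k v (k v r)))) r))))
 .z .z) (.s 0xfb957f000ee10 4080 (n false (n true (n false (n true (z 56) e) e) e) (n true (n false (n true (n false e e) e) (n false e e)) e)) (u 16 1 (k (u 32 1 (k v (k v r))) (k (u 32 253 (k v (k v (k v (k (t 96 1 (u 64 7 (k v (k v r)))) r))))) (k (c 32 4096 r (u 48 0 (k v (k v r)))) (k (c 48 4096 r r) r)))))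
 .z .z))) (.s 0xfb95ff8021708 4075 (n false (n true (n false (n true (z 124) e) (n false e e)) e) (n false (n true (n false e e) e) (n false e e))) (u 16 5 (k v (k (c 48 4097 r (u 32 1 (k v (k v r)))) (k (c 48 4096 r (u 32 1 (k v (k v r)))) (k (c 32 4098 r (u 48 0 (k v (k v r)))) (k (c 48 4096 r (u 32 1 (k v (k v r)))) (k (c 48 4097 r (u 32 1 (k v (k v r)))) (k (c 48 4097 r (u 32 1 (k v (k v r)))) (k (c 48 4096 r (u 32 1 (k v (k v r)))) (k (c 32 4097 r (u 48 1 (k v (k v r)))) r))))))))))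
 (.s 0xfb95fd40043a0 4078 (n false (n true (n false (n true (z 156) e) (n false e e)) e) (n true (n false (n false e e) e) e)) (u 16 5 (k v (k v (k (c 48 4099 r (u 32 1 (k v (k v r)))) (k (c 32 4098 r (u 48 1 (k v (k v r)))) (k (c 32 4097 r (u 48 1 (k v (k v r)))) (k (c 32 4099 r (u 48 1 (k v (k v r)))) r)))))))
 (.s 0xfb95fd4001f40 4088 (n false (n true (n false (n true (z 156) e) e) e) (n true (n true (n false (n false e e) e) e) e)) (u 16 5 (k v (k v (k (c 48 4099 r (u 32 1 (k v (k v r)))) (k (c 32 4098 r (u 48 1 (k v (k v r)))) (k (c 32 4097 r (u 48 1 (k v (k v r)))) (k (c 32 4099 r (u 48 1 (k v (k v r)))) r)))))))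
 .z .z) (.s 0xfb95ff800ee10 4075 (n false (n true (n false (n true (z 124) e) e) e) (n true (n false (n true (n false e e) e) (n false e e)) e)) (u 16 1 (k v (k (c 48 4097 r (u 32 1 (k v (k v r)))) (k (c 48 4096 r (u 32 1 (k v (k v r)))) (k (c 32 4098 r (u 48 0 (k v (k v r)))) (k (c 48 4096 r (u 32 1 (k v (k v r)))) (k (c 48 4097 r (u 32 1 (k v (k v r)))) (k (c 48 4097 r (u 32 1 (k v (k v r)))) (k (c 48 4096 r (u 32 1 (k v (k v r)))) (k (c 48 4099 r (u 32 1 (k v (k v r)))) (k (c 32 4097 r (u 48 1 (k v (k v r)))) r)))))))))))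
 .z .z)) (.s 0xfb97f7000ae10 4077 (n false (n true (n false (n true (z 46) e) e) e) (n false (n false (n true (n false e e) e) (n false e e)) e)) (u 16 1 (k v (k (u 32 1 (k v (k v r))) (k (c 48 4099 r (u 32 0 (k v (k v r)))) (k (u 32 1 (k v (k v r))) (k (c 48 4097 r (u 32 1 (k v (k v r)))) (k (c 32 4095 r (u 48 1 (k v (k v r)))) r)))))))
 (.s 0xfb975f000ee10 4073 (n false (n true (n false (n true (z 50) e) e) e) (n true (n false (n true (n false e e) e) (n false e e)) e)) (u 16 1 (k v (k (c 48 4097 r (u 32 0 (k v (k v r)))) r)))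
 .z .z) .z))) (.s 0xfb9dd7000ee10 4077 (n false (n true (n false (n true (z 37) e) e) e) (n true (n false (n true (n false e e) e) (n false e e)) e)) (u 16 0 (k v (k (u 32 0 (k (t 64 3 (t 96 1 v)) r)) (k (u 32 0 (k (t 64 3 (t 96 1 v)) r)) (k (u 32 2 (k v (k v (k v (k (t 96 1 (u 64 0 (k (t 128 3 (t 192 1 v)) r))) r))))) (k (u 32 2 (k v (k v (k v (k (t 96 1 (u 64 0 (k (t 128 3 (t 192 1 v)) r))) r))))) (k (u 32 6 (k v (k (t 96 1 (u 64 10 (k v (k v r)))) r))) r)))))))
 (.s 0xfb9d7f8021708 4072 (n false (n true (n false (n true (z 121) e) (n false e e)) e) (n false (n true (n false e e) e) (n false e e))) (u 16 1 (k v (k (c 48 4099 r (u 32 1 (k v (k v r)))) (k (c 32 4097 r (u 48 1 (k v (k v r)))) (k (c 32 4095 r (u 48 0 (k v (k v r)))) (k (c 32 4095 r (u 48 0 (k v (k v r)))) r))))))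
 (.s 0xfb9d7f800ae10 4077 (n false (n true (n false (n true (z 121) e) e) e) (n false (n false (n true (n false e e) e) (n false e e)) e)) (u 16 1 (k v (k (c 48 4099 r (u 32 1 (k v (k v r)))) (k (c 32 4097 r (u 48 1 (k v (k v r)))) (k (c 32 4095 r (u 48 0 (k v (k v r)))) (k (c 32 4095 r (u 48 0 (k v (k v r)))) r))))))
 (.s 0xfb97f70021708 4077 (n false (n true (n false (n true (z 46) e) (n false e e)) e) (n false (n true (n false e e) e) (n false e e))) (u 16 6 (k v (k v (k (u 32 1 (k v (k v r))) (k (c 48 4099 r (u 32 0 (k v (k v r)))) (k (u 32 1 (k v (k v r))) (k (c 48 4097 r (u 32 1 (k v (k v r)))) r)))))))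
 .z .z) (.s 0xfb9d7f800ee10 4077 (n false (n true (n false (n true (z 121) e) e) e) (n true (n false (n true (n false e e) e) (n false e e)) e)) (u 16 1 (k v (k (c 48 4099 r (u 32 1 (k v (k v r)))) (k (c 32 4097 r (u 48 1 (k v (k v r)))) (k (c 32 4095 r (u 48 0 (k v (k v r)))) (k (c 32 4095 r (u 48 0 (k v (k v r)))) r))))))
 .z .z)) (.s 0xfb9dd7000ae10 4077 (n false (n true (n false (n true (z 37) e) e) e) (n false (n false (n true (n false e e) e) (n false e e)) e)) (u 16 0 (k v (k (u 32 0 (k (t 64 3 (t 96 1 v)) r)) (k (u 32 0 (k (t 64 3 (t 96 1 v)) r)) (k (u 32 2 (k v (k v (k v (k (t 96 1 (u 64 0 (k (t 128 3 (t 192 1 v)) r))) r))))) (k (u 32 2 (k v (k v (k v (k (t 96 1 (u 64 0 (k (t 128 3 (t 192 1 v)) r))) r))))) (k (u 32 6 (k v (k (t 96 1 (u 64 10 (k v (k v r)))) r))) r)))))))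
 (.s 0xfb9d7f8021d10 4078 (n false (n true (n false (n true (z 121) e) (n false e e)) e) (n true (n false (n false e e) (n false e e)) e)) (u 16 4 (k v (k v (k (c 48 4099 r (u 32 1 (k v (k v r)))) (k (c 32 4097 r (u 48 1 (k v (k v r)))) r)))))
 .z .z) .z)) (.s 0xfb9ddd8021708 4071 (n false (n true (n false (n true (z 85) e) (n false e e)) e) (n false (n true (n false e e) e) (n false e e))) (u 16 4 (k v (k (c 48 4099 r r) (k (c 48 4099 r r) (k (c 48 4099 r (u 32 5 (k v (k v r)))) (k (u 32 12 (k v (k v r))) (k (c 48 4096 r r) (k (c 32 4099 r r) r))))))))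
 (.s 0xfb9ddd800ae10 4082 (n false (n true (n false (n true (z 85) e) e) e) (n false (n false (n true (n false e e) e) (n false e e)) e)) (u 16 52 (k v (k v (k (c 48 4099 r (u 32 253 (k v (k v (k v (k (t 96 1 (u 64 2 (k v (k v r)))) r)))))) (k (c 48 4099 r r) (k (c 2 4082 r v) (k (c 48 4096 r r) (k (c 48 4097 r (u 32 43 (k v (k v (k v r))))) r))))))))
 (.s 0xfb9dd70021708 4077 (n false (n true (n false (n true (z 37) e) (n false e e)) e) (n false (n true (n false e e) e) (n false e e))) (u 16 0 (k v (k (u 32 0 (k (t 64 3 (t 96 1 v)) r)) (k (u 32 0 (k (t 64 3 (t 96 1 v)) r)) (k (u 32 0 (k v (k v (k (t 96 1 (u 64 0 (k (t 128 3 (t 192 1 v)) r))) r)))) (k (u 32 0 (k v (k v (k (t 96 1 (u 64 0 (k (t 128 3 (t 192 1 v)) r))) r)))) (k (c 16 4095 r v) r)))))))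
 .z .z) (.s 0xfb9ddd800ee10 4075 (n false (n true (n false (n true (z 85) e) e) e) (n true (n false (n true (n false e e) e) (n false e e)) e)) (u 16 10 (k (c 48 4099 r r) (k (c 48 4099 r r) (k (c 48 4099 r (u 32 1 (k v (k v (k v (k (t 96 1 (u 64 41 (k v (k v (k (t 192 1 (u 128 0 (k v (k v r)))) r))))) r)))))) (k (u 32 0 (k v (k v (k v (k (t 96 3 (u 64 269 (k v (k v (k v r))))) r))))) (k (t 32 4 (c 2 4071 r v)) (k (c 48 4096 r r) (k (c 32 4099 r r) r))))))))
 .z .z)) (.s 0xfb9f7d800ae10 4081 (n false (n true (n false (n true (z 91) e) e) e) (n false (n false (n true (n false e e) e) (n false e e)) e)) (u 16 16 (k v (k v (k v (k (u 32 1 (k v (k v r))) (k (c 32 4097 r (u 48 0 (k v (k v r)))) (k (c 32 4097 r (u 48 0 (k v (k v r)))) (k (c 32 4095 r (u 48 0 (k v (k v r)))) r))))))))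
 (.s 0xfb9f778021d10 4070 (n false (n true (n false (n true (z 107) e) (n false e e)) e) (n true (n false (n false e e) (n false e e)) e)) (u 16 3 (k v (k (t 48 2 (u 32 1 (k v (k (c 96 4099 r (u 64 1 (k v (k v r)))) (k (u 64 0 (k v (k v r))) (k (c 64 4099 r (u 96 1 (k v (k v r)))) (k (c 64 4099 r (u 96 1 (k v (k v r)))) (k (c 64 4099 r (u 96 1 (k v (k v r)))) r)))))))) (k (c 3 4092 v r) (k (t 48 1 (c 3 4092 v (u 32 0 (k (u 64 0 (k v (k v r))) r)))) r)))))
 .z .z) .z))))

end Pool.Agent.Helper91.ND1
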