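import Pool.Agent.Helper66.ND.Defs

/-! part of the certificate for the constant 25/48 (generated) -/

namespace Pool.Agent.Helper91.ND1

open Pool.Agent.Helper66.IL
open Pool.Agent.Helper66.ND
open Pool.Agent.Helper66.ND.LT
open Pool.Agent.Helper66.ND.Ct

set_option maxRecDepth 100000 in
def N73 : NT :=
(.s 0xfbe81c13eab00 4085 (n false (n true (n false (n true (n true (n false (n false e e) e) e) e) (n true (n false e e) e)) e) (z 67)) (u 3 148 (k v (k v (k v (k v (k v (k (t 7 1 (u 5 1 (k v (k v r)))) (k (c 5 4101 r (u 7 0 (k v (k v r)))) (k r (k (c 12 4094 v (c 2 4090 v r)) (k (t 7 1 (u 5 0 (k (u 9 0 (k v (k v r))) r))) (k (c 7 4101 r (u 5 1 (k v (k v r)))) (k (t 7 1 (u 5 10 (k v (k v (k v (k (c 13 4099 r (u 9 1 (k v (k v r)))) r)))))) (k (c 7 4102 r (u 5 1 (k v (k v r)))) (k (c 5 4101 r (u 7 1 (k v (k v r)))) (k (t 7 1 (u 5 3 (k v (k v (k (c 13 4099 r (u 9 1 (k v (k v r)))) r))))) (k (c 5 4101 r (u 7 1 (k v (k v r)))) r)))))))))))))))))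
 (.s 0xfbb95df003820 4067 (n false (n true (n false (n true (n false (n true (z 52) e) (n true (n false e e) e)) e) (n false e e)) e) e) (u 64 93 (k v (k v (k v (k v (k v (k v (k (t 192 1 (u 128 0 (k v (k v r)))) (k (t 192 2 (u 128 0 (k (u 256 2 (k v (k (u 512 2 (k v (k v r))) r))) r))) (k (t 192 1 (u 128 0 (k (c 384 4099 r (u 256 2 (k v (k (u 512 2 (k v (k v r))) r)))) r))) r))))))))))
 (.s 0xfba7d5c001708 4084 (n false (n true (n false (n true (n false (z 35) e) e) e) e) (n false (n true (n false e e) e) (n false e e))) (u 32 25 (k v (k v (k v (k v (k (t 96 1 (u 64 0 (k (t 128 3 (t 192 1 v)) r))) r))))))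
 (.s 0xfb9fd5800ee10 4078 (n false (n true (n false (n true (z 71) e) e) e) (n true (n false (n true (n false e e) e) (n false e e)) e)) (u 16 1 (k v (k (c 48 4099 r (u 32 1 (k v (k v r)))) (k (u 32 0 (k v (k v r))) (k (c 32 4099 r (u 48 1 (k v (k v r)))) (k (c 32 4099 r (u 48 1 (k v (k v r)))) (k (c 32 4099 r (u 48 1 (k v (k v r)))) r)))))))
 (.s 0xfb9f7d8021708 4074 (n false (n true (n false (n true (z 91) e) (n false e e)) e) (n false (n true (n false e e) e) (n false e e))) (u 16 11 (k v (k (u 32 1 (k v (k v r))) (k (c 32 4097 r (u 48 0 (k v (k v r)))) (k (c 32 4097 r (u 48 0 (k v (k v r)))) (k (c 32 4096 r (u 48 0 (k v (k v r)))) (k (c 32 4095 r (u 48 0 (k v (k v r)))) r)))))))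
 .z .z) (.s 0xfba57f5003820 4069 (n false (n true (n false (n true (n false (z 156) (n true (n false e e) e)) e) (n false e e)) e) e) (u 32 1 (k v (k (c 96 4099 r (u 64 1 (k v (k v r)))) (k (c 64 4098 r (u 96 1 (k v (k v r)))) (k (c 64 4097 r (u 96 1 (k v (k v r)))) (k (c 64 4099 r (u 96 1 (k v (k v r)))) (k (c 64 4095 r (u 96 0 (k v (k v r)))) r)))))))
 .z .z)) (.s 0xfba9fdf003820 4069 (n false (n true (n false (n true (n false (n false (z 55) e) (n true (n false e e) e)) e) (n false e e)) e) e) (u 64 4 (k (t 192 1 (u 128 4 (k v (k v (k (u 256 4 (k v (k (t 768 1 (u 512 4 (k v (k v r)))) r))) (k (u 256 4 (k v (k (t 768 1 (u 512 2 (k v (k v r)))) r))) (k r (k r r)))))))) (k (t 192 2 (u 128 8 (k v (k v r)))) r)))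
 (.s 0xfba9f57003820 4069 (n false (n true (n false (n true (n false (n false (z 35) e) (n true (n false e e) e)) e) (n false e e)) e) e) (u 64 5 (k v (k v (k v (k (t 192 1 (u 128 0 (k (t 256 3 (t 384 1 v)) r))) r)))))
 .z .z) (.s 0xfbae1013eab00 4083 (n false (n true (n false (n true (n false (n false (n true (n false e e) e) (n false e e)) e) e) e) e) (z 67)) (u 3 33 (k v (k v (k v (k v (k (t 7 1 (u 5 1 (k v (k v r)))) (k (c 5 4101 r (u 7 0 (k v (k v r)))) (k r (k (c 2 4088 v r) (k (c 5 4099 r (u 7 0 (k v (k v r)))) (k (t 7 1 (u 5 2 (k v (k (c 13 4097 r (u 9 0 (k v (k v r)))) r)))) (k (c 2 4088 v (t 7 2 (u 5 0 (k r r)))) (k (c 7 4101 r (u 5 1 (k v (k v r)))) (k (t 7 1 (u 5 9 (k v (k v (k v (k (c 13 4099 r (u 9 1 (k v (k v r)))) r)))))) (k (c 7 4102 r (u 5 1 (k v (k v r)))) (k (c 5 4101 r (u 7 1 (k v (k v r)))) (k r (k (c 5 4101 r (u 7 1 (k v (k v r)))) r))))))))))))))))))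
 .z .z))) (.s 0xfbe5fdc007050 4080 (n false (n true (n false (n true (n true (z 46) e) e) (n true (n false e e) e)) e) (n false (n false e e) e)) (u 32 1 (k v (k (u 64 1 (k v (k v r))) (k (c 96 4099 r (u 64 0 (k v (k v r)))) (k (u 64 1 (k v (k v r))) (k (c 96 4097 r (u 64 1 (k v (k v r)))) (k (c 64 4095 r (u 96 1 (k v (k v r)))) r)))))))
 (.s 0xfbe577c0043a0 4072 (n false (n true (n false (n true (n true (z 52) e) e) (n false e e)) e) (n true (n false (n false e e) e) e)) (u 32 67 (k v (k v (k v (k v (k v r))))))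
 (.s 0xfbb9f57003820 4071 (n false (n true (n false (n true (n false (n true (z 35) e) (n true (n false e e) e)) e) (n false e e)) e) e) (u 64 5 (k v (k v (k v (k (t 192 1 (u 128 0 (k (t 256 3 (t 384 1 v)) r))) r)))))
 .z .z) (.s 0xfbe5fdc0043a0 4074 (n false (n true (n false (n true (n true (z 46) e) e) (n false e e)) e) (n true (n false (n false e e) e) e)) (u 32 15 (k v (k v (k v (k (u 64 1 (k v (k v r))) (k (u 64 0 (k v (k v r))) (k (c 96 4097 r (u 64 1 (k v (k v r)))) r)))))))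
 .z .z)) (.s 0xfbe775c007050 4081 (n false (n true (n false (n true (n true (z 37) e) e) (n true (n false e e) e)) e) (n false (n false e e) e)) (u 32 8 (k v (k (u 64 0 (k (t 128 3 (t 192 1 v)) r)) (k (c 2 4086 (u 32 0 (k (t 64 3 (t 96 1 v)) r)) v) (k (c 2 4086 r v) (k (u 64 10 (k v (k v (k v (k (t 192 1 (u 128 0 (k (t 256 3 (t 384 1 v)) r))) r))))) (k (c 2 4081 r v) r)))))))
 (.s 0xfbe75fe007050 4081 (n false (n true (n false (n true (n true (z 121) e) e) (n true (n false e e) e)) e) (n false (n false e e) e)) (u 32 1 (k v (k (c 96 4099 r (u 64 1 (k v (k v r)))) (k (c 64 4097 r (u 96 1 (k v (k v r)))) (k (c 64 4095 r (u 96 0 (k v (k v r)))) (k (c 64 4095 r (u 96 0 (k v (k v r)))) r))))))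
 .z .z) .z))) (.s 0xfe577c007dc20 4082 (n false (n true (n true (z 52) e) e) (n true (n true (n false (n true (n false e e) e) (n false e e)) e) e)) (u 8 8 (k v (k v (k v (k v (k v (k (t 24 1 (u 16 0 (k v (k v r)))) r)))))))
 (.s 0xfbee1013eab00 4082 (n false (n true (n false (n true (n true (n false (n true (n false e e) e) (n false e e)) e) e) e) e) (z 67)) (u 3 17 (k v (k v (k v (k v (k (t 7 1 (u 5 1 (k v (k v r)))) (k (c 5 4101 r (u 7 0 (k v (k v r)))) (k r (k (c 2 4088 v r) (k (c 5 4099 r (u 7 0 (k v (k v r)))) (k (t 7 1 (u 5 2 (k v (k (c 13 4097 r (u 9 0 (k v (k v r)))) r)))) (k (c 2 4088 v (t 7 2 (u 5 0 (k r r)))) (k (c 7 4101 r (u 5 1 (k v (k v r)))) (k (t 7 1 r) (k (c 7 4102 r (u 5 1 (k v (k v r)))) (k (c 5 4101 r (u 7 1 (k v (k v r)))) (k (t 7 1 r) (k (c 5 4101 r (u 7 1 (k v (k v r)))) r))))))))))))))))))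
 (.s 0xfbe9557000e08 4084 (n false (n true (n false (n true (n true (n false (z 32) e) e) e) (n true (n false e e) e)) e) (n false e e)) (c 2 4086 (u 32 0 (k (t 64 3 (t 96 1 v)) r)) v)
 (.s 0xfbe81c13eee00 4086 (n false (n true (n false (n true (n true (n false (n false e e) e) e) e) (n true (n false e e) e)) e) (z 43)) (c 12 4094 v (u 3 3 (k v (k v (k v (k (u 5 6 (k v (k v (k v r)))) (k r (k (u 5 0 (k (u 9 0 (k v (k v r))) r)) (k r (k r r))))))))))
 .z .z) (.s 0xfbee1012aff00 4085 (n false (z 120) (n true (n false (n true (n true (n false (n true (n false e e) e) (n false e e)) e) e) e) e)) (u 2 35 (k v (k v (k v (k (t 6 1 r) (k (c 6 4096 r (c 17 4091 v r)) (k (c 6 4099 r (u 4 1 (k v (k v r)))) (k (c 4 4098 r (u 6 1 (k v (k v r)))) (k (c 4 4101 r (u 6 0 (k v (k v r)))) (k (t 6 1 (u 4 10 (k v (k v (k (c 12 4097 r (u 8 1 (k v (k v r)))) (k (c 12 4097 r (u 8 1 (k v (k v r)))) r)))))) (k (c 6 4099 r (u 4 1 (k v (k v r)))) (k (c 4 4101 r (u 6 0 (k v (k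 v r)))) r))))))))))))
 .z .z)) (.s 0xfe577c0075c20 4082 (n false (n true (n true (z 52) e) e) (n true (n false (n false (n true (n false e e) e) (n false e e)) e) e)) (u 8 10 (k v (k v (k v (k v (k v (k (t 24 1 (u 16 0 (k v (k v r)))) r)))))))
 (.s 0xfe577c005d108 4086 (n false (n true (n true (z 52) e) e) (n false (n true (n false (n false e e) (n false e e)) e) (n false e e))) (u 8 14 (k v (k v (k v (k v (k v (k v (k (t 24 1 (u 16 0 (k v (k v r)))) r))))))))
 .z .z) .z)) (.s 0xfe75f6005d108 4088 (n false (n true (n true (z 89) e) e) (n false (n true (n false (n false e e) (n false e e)) e) (n false e e))) (u 8 0 (k v (k v (k v (k (t 24 2 (u 16 41 (k v (k v (k (t 48 1 (u 32 0 (k v (k v r)))) r))))) r)))))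
 (.s 0xfe57f5000ee10 4087 (n false (n true (n true (z 156) e) e) (n true (n false (n true (n false e e) e) (n false e e)) e)) (u 8 1 (k v (k (c 24 4099 r (u 16 1 (k v (k v r)))) (k (c 16 4098 r (u 24 1 (k v (k v r)))) (k (c 16 4097 r (u 24 1 (k v (k v r)))) (k (c 16 4099 r (u 24 1 (k v (k v r)))) (k (c 16 4095 r (u 24 0 (k v (k v r)))) r)))))))
 (.s 0xfe57f5000ae10 4088 (n false (n true (n true (z 156) e) e) (n false (n false (n true (n false e e) e) (n false e e)) e)) (u 8 1 (k v (k (c 24 4099 r (u 16 1 (k v (k v r)))) (k (c 16 4098 r (u 24 1 (k v (k v r)))) (k (c 16 4097 r (u 24 1 (k v (k v r)))) (k (c 16 4099 r (u 24 1 (k v (k v r)))) (k (c 16 4095 r (u 24 0 (k v (k v r)))) r)))))))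
 .z .z) (.s 0xfe57f5000fe80 4087 (n false (n true (n true (z 156) e) e) (n true (n true (n true (n false (n false e e) e) e) e) e)) (u 8 1 (k v (k (c 24 4099 r (u 16 1 (k v (k v r)))) (k (c 16 4098 r (u 24 1 (k v (k v r)))) (k (c 16 4097 r (u 24 1 (k v (k v r)))) (k (c 16 4099 r (u 24 1 (k v (k v r)))) (k (c 16 4095 r (u 24 0 (k v (k v r)))) r)))))))
 .z .z)) (.s 0xfe7f7e0075110 4089 (n false (n true (n true (z 119) e) e) (n true (n false (n false (n false e e) (n false e e)) (n false e e)) e)) (u 8 54 (k v (k r (k (u 24 2 (k (c 16 4097 r v) (k r r))) (k r (k (c 4 4088 (t 6 2 (u 4 0 (k r r))) v) (k r (k r (k r (k r r))))))))))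
 (.s 0xfe7d7c0075c20 4084 (n false (n true (n true (z 51) e) e) (n true (n false (n false (n true (n false e e) e) (n false e e)) e) e)) (u 8 0 (k (t 24 1 (u 16 0 (k (t 32 3 (t 48 3 v)) r))) r))
 .z .z) .z))))

set_option maxRecDepth 100000 in
def N74 : NT :=
(.s 0x72aaa8013aff00 4095 (n false (z 128) (z 121)) (u 3 5 (k r (k r (k (u 2 3 (k v (k v (k (c 6 4097 r r) (k (t 6 2 (u 4 0 (k (t 12 2 (u 8 0 (k (c 24 4099 r (u 16 2 (k v (k (c 8 4090 (u 4 1 (k v (k v r))) v) r)))) r))) r))) (k (c 4 4096 r r) (k (c 4 4095 r r) (k (c 4 4095 r (u 6 0 (k v (k v r)))) (k (c 6 4095 r (u 4 1 (k v (k v r)))) (k (c 4 4095 r r) (k (c 4 4095 r (u 6 1 (k v (k v r)))) (k (c 4 4097 r r) r)))))))))))) (k (c 7 4099 r (u 5 1 (k r (k r r)))) (k (c 5 4097 r (u 7 1 (k r (k r r)))) r))))))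
 (.s 0xff95df000ae10 4082 (n false (n true (n true (n true (z 52) e) e) e) (n false (n false (n true (n false e e) e) (n false e e)) e)) (u 16 150 (k v (k v (k v (k v (k v (k (t 48 1 (u 32 0 (k v (k v r)))) r)))))))
 (.s 0xfe95df0041f40 4084 (n false (n true (n true (n false (z 52) (n false e e)) e) e) (n true (n true (n false (n false e e) e) e) e)) (u 16 41 (k v (k v (k (t 48 1 (u 32 0 (k v (k v r)))) r))))
 (.s 0xfe95df0041708 4082 (n false (n true (n true (n false (z 52) (n false e e)) e) e) (n false (n true (n false e e) e) (n false e e))) (u 16 25 (k v (k v (k v (k (t 48 1 (u 32 0 (k v (k v r)))) r)))))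
 (.s 0xfe7f7e007dc20 4089 (n false (n true (n true (z 119) e) e) (n true (n true (n false (n true (n false e e) e) (n false e e)) e) e)) (u 8 42 (k v (k v (k v (k (t 24 1 r) (k (c 16 4097 r (u 24 9 (k v (k v (k (u 40 1 (k v (k v r))) r))))) (k (c 24 4097 r (u 16 30 (k v (k v (k v (k (c 32 4097 r (u 48 1 (k v (k v r)))) r)))))) (k (c 24 4097 r r) (k (c 24 4097 r r) r)))))))))
 .z .z) (.s 0xfe95df0041d10 4076 (n false (n true (n true (n false (z 52) (n false e e)) e) e) (n true (n false (n false e e) (n false e e)) e)) (u 16 40 (k v (k v (k v (k v (k (t 48 1 (u 32 0 (k v (k v r)))) r))))))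
 .z .z)) (.s 0xfee75fe001708 4084 (n false (n true (n true (n false (n true (z 121) e) e) e) e) (n false (n true (n false e e) e) (n false e e))) (u 32 4 (k v (k v (k (c 96 4099 r (u 64 1 (k v (k v r)))) (k (c 64 4097 r (u 96 1 (k v (k v r)))) r)))))
 (.s 0xfe97770041708 4077 (n false (n true (n true (n false (z 42) (n false e e)) e) e) (n false (n true (n false e e) e) (n false e e))) (u 16 52 (k v (k v (k r (k r (k (u 32 25 (k v (k v (k v (k (c 64 4097 r (u 96 1 (k v (k v r)))) r))))) (k r r)))))))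
 .z .z) (.s 0xfee775c001708 4084 (n false (n true (n true (n false (n true (z 37) e) e) e) e) (n false (n true (n false e e) e) (n false e e))) (u 32 44 (k v (k v (k v (k (u 64 0 (k (t 128 3 (t 192 1 v)) r)) (k (u 64 23 (k v (k v (k v (k (t 192 1 (u 128 0 (k (t 256 3 (t 384 1 v)) r))) r))))) r))))))
 .z .z))) (.s 0xff95fd4001f40 4090 (n false (n true (n true (n true (z 156) e) e) e) (n true (n true (n false (n false e e) e) e) e)) (u 16 11 (k v (k v (k (c 48 4099 r (u 32 1 (k v (k v r)))) (k (c 32 4098 r (u 48 1 (k v (k v r)))) (k (c 32 4097 r (u 48 1 (k v (k v r)))) (k (c 32 4099 r (u 48 1 (k v (k v r)))) r)))))))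
 (.s 0xff95df000ee10 4082 (n false (n true (n true (n true (z 52) e) e) e) (n true (n false (n true (n false e e) e) (n false e e)) e)) (u 16 8 (k v (k v (k v (k v (k v (k (t 48 1 (u 32 0 (k v (k v r)))) r)))))))
 (.s 0xff95df000ba20 4081 (n false (n true (n true (n true (z 52) e) e) e) (n false (n true (n false (n false e e) (n false e e)) e) e)) (u 16 227 (k v (k v (k v (k v (k v (k v (k v (k (c 8 4087 (t 6 2 r) v) (k (c 8 4087 (t 6 1 r) v) r))))))))))
 .z .z) (.s 0xff95fd4001708 4088 (n false (n true (n true (n true (z 156) e) e) e) (n false (n true (n false e e) e) (n false e e))) (u 16 1 (k v (k (c 48 4099 r (u 32 1 (k v (k v r)))) (k (c 32 4098 r (u 48 1 (k v (k v r)))) (k (c 32 4097 r (u 48 1 (k v (k v r)))) (k (c 32 4099 r (u 48 1 (k v (k v r)))) (k (c 32 4095 r (u 48 0 (k v (k v r)))) r)))))))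
 .z .z)) (.s 0xffa88813eab00 4091 (n false (n true (n true (n true (n false (n false (n false e e) (n false e e)) (n false e e)) e) e) e) (z 67)) (u 3 18 (k v (k v (k v (k v (k (t 7 1 (u 5 1 (k v (k v r)))) (k (u 5 2 (k (c 7 4097 r v) (k (u 7 0 (k v (k v r))) r))) (k r (k (c 2 4088 v r) (k (c 2 4088 v (t 7 2 (u 5 0 (k r r)))) (k (u 7 2 (k (c 5 4099 r v) (k (u 5 0 (k v (k v r))) r))) (k r (k (c 2 4088 v (t 5 1 (u 7 0 (k r r)))) (k r (k r (k r r))))))))))))))))
 (.s 0xff9f57000ee10 4085 (n false (n true (n true (n true (z 35) e) e) e) (n true (n false (n true (n false e e) e) (n false e e)) e)) (u 16 26 (k v (k v (k v (k (t 48 1 (u 32 0 (k (t 64 3 (t 96 1 v)) r))) r)))))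
 .z .z) .z))) (.s 0x72bfa8013bae00 4099 (n false (z 156) (z 37)) (u 3 1 (k (c 2 4101 r v) (k (u 2 1 (k v (k (c 6 4099 r (u 4 1 (k v (k v r)))) (k (c 4 4098 r (u 6 1 (k v (k v r)))) (k (c 4 4097 r (u 6 1 (k v (k v r)))) (k (c 4 4099 r (u 6 1 (k v (k v r)))) (k (c 4 4095 r (u 6 0 (k v (k v r)))) r))))))) r)))
 (.s 0x72bfa8012bff00 4100 (n false (z 156) (z 124)) (u 3 5 (k r (k (c 7 4097 r r) (k (c 7 4096 r r) (k (c 5 4098 r r) (k (c 7 4096 r r) (k (c 7 4097 r r) (k (c 7 4097 r r) (k (c 7 4096 r r) (k (c 5 4097 r r) r))))))))))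
 (.s 0x72aaa8017f4070 4080 (n false (z 128) (n false (n true (n true (n true (n false (n false e e) e) e) e) e) (n true (n false e e) e))) (u 2 21 (k v (k v (k v (k (c 6 4097 r r) (k (c 4 4095 r r) (k (c 6 4097 r r) (k (c 4 4095 r r) (k (c 4 4095 r (u 6 0 (k v (k v r)))) (k (c 6 4095 r (u 4 43 (k v (k v (k v r))))) (k (c 6 4095 r (u 4 1 (k v (k v r)))) (k (c 4 4097 r (u 6 0 (k v (k v r)))) (k (c 4 4095 r r) (k (c 4 4095 r (u 6 1 (k v (k v r)))) (k (c 6 4097 r r) r)))))))))))))))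
 (.s 0x72aaa8013fab00 4097 (n false (z 128) (z 71)) (u 3 1 (k r (k (c 7 4099 r (u 5 1 (k r (k r r)))) (k (u 5 0 (k r (k r r))) (k (c 5 4099 r (u 7 1 (k r (k r r)))) (k (c 5 4099 r (u 7 1 (k r (k r r)))) (k (c 5 4099 r (u 7 1 (k r (k r r)))) r)))))))
 .z .z) (.s 0x72aaa801d44510 4090 (n false (z 128) (n true (n false (n false (n false e e) (n false e e)) (n false (n false e e) (n false e e))) e)) (u 2 3 (k v (k v (k (c 6 4097 r r) (k (t 6 2 (u 4 0 (k (t 12 2 (u 8 0 (k (c 24 4099 r (u 16 2 (k v (k (c 8 4084 (u 4 1 (k v (k v r))) v) r)))) r))) r))) (k (c 4 4096 r r) (k (c 4 4095 r r) (k (c 4 4095 r (u 6 0 (k v (k v r)))) (k (c 6 4095 r (u 4 1 (k v (k v r)))) (k (c 4 4095 r r) (k (c 4 4095 r (u 6 1 (k v (k v r)))) (k (c 4 4097 r r) r))))))))))))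
 .z .z)) (.s 0x72bfa8013aff00 4100 (n false (z 121) (z 156)) (u 3 1 (k r (k (c 7 4099 r (u 5 1 (k r (k r r)))) (k (c 5 4098 r (u 7 1 (k r (k r r)))) (k (c 5 4097 r (u 7 1 (k r (k r r)))) (k (c 5 4099 r (u 7 1 (k r (k r r)))) (k (c 5 4095 r (u 7 0 (k r (k r r)))) r)))))))
 (.s 0x72bfa8012fee00 4097 (n false (z 156) (z 46)) (u 2 1 (k r (k (c 4 4099 r (u 6 1 (k r (k r r)))) (k (c 4 4098 r (u 6 1 (k r (k r r)))) (k (c 4 4097 r (u 6 1 (k r (k r r)))) (k (c 4 4099 r (u 6 1 (k r (k r r)))) (k (c 4 4095 r (u 6 0 (k r (k r r)))) r)))))))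
 .z .z) .z)) (.s 0x72bfa8017dc208 4068 (n false (z 156) (n false (n true (n true (n false (n true (n false e e) e) (n false e e)) e) e) (n false e e))) (u 2 1 (k v (k (c 6 4099 r (u 4 1 (k v (k v r)))) (k (c 4 4098 r (u 6 1 (k v (k v r)))) (k (c 4 4097 r (u 6 1 (k v (k v r)))) (k (c 4 4099 r (u 6 1 (k v (k v r)))) (k (c 4 4095 r (u 6 0 (k v (k v r)))) r)))))))
 (.s 0x72bfa8013eaf00 4095 (n false (z 99) (z 156)) (u 2 0 (k r (k r (k (t 4 1 (u 6 0 (k (c 14 4101 r (t 10 3 r)) r))) (k (u 3 4 (k (u 6 0 (k (t 10 3 (t 14 1 r)) r)) (k (c 7 4099 r r) r))) (k (u 6 0 (k (t 10 3 (t 14 1 (u 3 4 (k r (k (c 5 4099 r r) r))))) r)) r))))))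
 (.s 0x72bfa8013bbb00 4100 (n false (z 85) (z 156)) (u 3 11 (k r (k (c 2 4099 r v) (k (c 7 4099 r (u 5 1 (k r (k r r)))) (k (c 5 4098 r (u 7 1 (k r (k r r)))) (k (c 5 4097 r (u 7 1 (k r (k r r)))) (k (c 5 4099 r (u 7 1 (k r (k r r)))) r)))))))
 .z .z) (.s 0x72bfa8013efb00 4096 (n false (z 156) (z 91)) (u 2 1 (k r (k (c 6 4099 r (u 4 1 (k r (k r r)))) (k (c 4 4098 r (u 6 1 (k r (k r r)))) (k (c 4 4097 r (u 6 1 (k r (k r r)))) (k (c 4 4099 r (u 6 1 (k r (k r r)))) (k (c 4 4095 r (u 6 0 (k r (k r r)))) r)))))))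
 .z .z)) (.s 0x73baa801d44510 4090 (n false (z 133) (n true (n false (n false (n false e e) (n false e e)) (n false (n false e e) (n false e e))) e)) (u 2 0 (k r (k (t 6 1 r) (k (t 6 1 r) (k (t 6 1 r) (k (u 4 7 (k r (k (c 8 4099 r r) r))) (k r (k r (k r r)))))))))
 (.s 0x72bfa801d44510 4092 (n false (z 156) (n true (n false (n false (n false e e) (n false e e)) (n false (n false e e) (n false e e))) e)) (u 2 2 (k v (k (c 6 4099 r (u 4 1 (k v (k v r)))) (k (c 4 4095 r (u 6 0 (k v (k v r)))) r))))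
 .z .z) .z))))

set_option maxRecDepth 100000 in
def N75 : NT :=
(.s 0x74aef8022a2288 4090 (n false (n false (z 52) (n false e e)) (n false (n false (n false e e) (n false e e)) (n false (n false e e) (n false e e)))) (u 4 6 (k v (k v (k (t 12 1 (u 8 2 (k v (k v r)))) r))))
 (.s 0x74abfc012bbe00 4094 (n false (n false (z 120) e) (z 52)) (u 3 274 (k r (k r (k r (k (t 4 3 v) (k (t 4 2 v) (k (t 7 1 (u 5 2 (k r (k r r)))) r)))))))
 (.s 0x74aab8012eef00 4094 (n false (z 106) (n false (z 32) e)) (u 5 0 (k (t 9 3 (t 13 1 (u 2 5 (k v (k (t 6 2 r) (k (t 6 2 (c 5 4096 v r)) (k (t 6 1 r) (k (t 6 1 (u 4 15 (k v (k (c 12 4099 r r) (k (c 12 4096 r (c 5 4096 v r)) (k (c 12 4100 r (u 8 0 (k (u 16 0 (k v (k v r))) r))) (k (c 8 4099 r r) (k (c 12 4100 r r) (k (c 12 4097 r r) (k (c 12 4099 r r) (k (c 8 4099 r r) (k (c 12 4097 r r) r)))))))))))) (k (t 4 1 r) (k (t 6 3 r) (k (t 6 1 r) (k (t 6 3 r) r)))))))))))) r))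
 (.s 0x74aaaa0045d108 4082 (n false (n false (z 128) (n false e e)) (n false (n true (n false (n false e e) (n false e e)) e) (n false e e))) (u 4 2 (k v (k v (k (c 12 4097 r r) (k (c 8 4095 r (c 3 4090 v r)) (k (c 8 4098 r (c 3 4090 v (u 12 0 (k (u 20 0 (k v (k v r))) r)))) (k (c 8 4096 r r) (k (c 8 4095 r (c 3 4090 v r)) (k (c 8 4095 r r) (k (c 8 4095 r (u 12 0 (k v (k v r)))) (k (c 12 4095 r (c 3 4090 v r)) (k (c 12 4095 r (u 8 1 (k v (k v r)))) (k (c 8 4097 r (u 12 0 (k v (k v r)))) (k (c 8 4095 r r) (k (c 8 4095 r (u 12 1 (k v (k v r)))) (k (c 8 4097 r r) r))))))))))))))))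
 (.s 0x73fea801d44510 4090 (n false (z 143) (n true (n false (n false (n false e e) (n false e e)) (n false (n false e e) (n false e e))) e)) (u 2 3 (k v (k (c 6 4096 r r) (k (c 6 4096 r r) (k (c 6 4096 r r) r)))))
 .z .z) (.s 0x74aab8012abf00 4094 (n false (z 112) (n false (z 32) e)) (u 5 0 (k (t 9 3 (t 13 1 (u 2 1 (k (c 6 4099 r (u 4 1 (k v (k (t 12 2 (u 8 91 (k v (k v (k v (k (c 2 4085 (t 12 1 (u 8 0 (k r r))) v) (k (u 16 2 (k v (k v r))) (k (c 2 4085 r v) (k (c 2 4085 r v) r))))))))) (k (c 2 4076 (u 4 0 (k r r)) v) r))))) (k (u 4 6 (k v (k (t 12 1 r) (k (t 8 2 r) (k (t 8 1 r) r))))) r))))) r))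
 .z .z)) (.s 0x74abf802555c00 4091 (n false (n false (z 56) (z 32)) e) (t 4 1 (u 6 0 (k (t 10 3 (t 14 1 v)) r)))
 (.s 0x74aafc022a2288 4088 (n false (n false (z 112) (n false e e)) (n false (n false (n false e e) (n false e e)) (n false (n false e e) (n false e e)))) (u 4 1 (k (c 12 4099 r (u 8 14 (k v (k (c 2 4079 (c 2 4076 (u 4 0 (k r r)) v) v) r)))) (k (u 8 0 (k v (k (c 24 4101 r (u 16 1 (k v (k v r)))) (k (c 16 4101 r (u 24 1 (k v (k v r)))) (k (c 16 4101 r (u 24 1 (k v (k v r)))) r))))) r)))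
 .z .z) (.s 0x74abf80385d108 4074 (n false (n false (z 56) (n true (n false e e) e)) (n false (n true (n false (n false e e) (n false e e)) e) (n false e e))) (u 4 0 (k (u 8 187 (k v (k v (k v (k v (k v (k v (k v (k (t 24 1 (u 16 0 (k v (k v r)))) (k (t 24 1 (u 16 0 (k (c 48 4099 r (u 32 2 (k v (k (c 4 4078 (u 16 1 (k v (k v r))) v) r)))) r))) r)))))))))) (k (c 8 4096 r (u 12 0 (k v (k v r)))) (k (u 8 1 (k v (k v r))) (k (c 12 4096 r r) r)))))
 .z .z))) (.s 0x74aef8013efb00 4094 (n false (z 91) (n false (z 52) e)) (u 2 3 (k (c 3 4096 r v) (k r (k (u 4 1 (k r (k r r))) (k (c 4 4097 r (u 6 0 (k r (k r r)))) (k (c 4 4097 r (u 6 0 (k r (k r r)))) (k (c 4 4096 r (u 6 0 (k r (k r r)))) r)))))))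
 (.s 0x74aebc022a2288 4088 (n false (n false (z 100) (n false e e)) (n false (n false (n false e e) (n false e e)) (n false (n false e e) (n false e e)))) (u 4 3 (k v (k (c 12 4096 r (u 8 1 (k v (k v r)))) (k (c 12 4097 r r) (k (c 12 4096 r r) (k (c 12 4096 r r) r))))))
 (.s 0x74abfc022a2288 4087 (n false (n false (z 120) (n false e e)) (n false (n false (n false e e) (n false e e)) (n false (n false e e) (n false e e)))) (u 4 9 (k v (k (c 12 4099 r r) (k (c 12 4100 r r) (k (c 12 4099 r r) (k (c 8 4095 r (u 12 1 (k v (k v r)))) (k (c 12 4097 r r) (k (c 12 4096 r r) (k (c 12 4096 r (u 8 0 (k (u 16 0 (k v (k v r))) r))) (k (c 12 4100 r (u 8 0 (k (u 16 0 (k v (k v r))) r))) (k (c 12 4101 r r) (k (c 8 4099 r r) (k (c 12 4100 r r) (k (c 12 4097 r r) (k (c 12 4099 r r) (k (c 8 4099 r r) (k (c 12 4097 r r) r)))))))))))))))))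
 .z .z) (.s 0x74aef8012aff00 4094 (n false (z 120) (n false (z 52) e)) (u 5 276 (k r (k r (k (t 2 3 v) (k (t 13 1 (u 2 2 (k (t 9 1 v) (k (c 3 4096 (t 4 1 v) v) (k r (k r (k (c 6 4101 r r) (k (c 4 4099 r r) (k (c 6 4096 r r) (k (c 3 4096 (t 4 1 v) (t 6 1 (u 4 0 (k r r)))) (k (c 6 4099 r r) (k (c 4 4098 r r) (k (c 4 4101 r r) (k r (k (c 6 4099 r r) (k (c 4 4101 r r) r)))))))))))))))) r)))))
 .z .z)) (.s 0x74aef8013fbf00 4094 (n false (z 119) (n false (z 52) e)) (u 2 38 (k (c 3 4096 r v) (k r (k (c 6 4101 r r) (k (c 6 4099 r r) (k (c 6 4097 r r) (k (c 3 4096 r (t 6 2 (u 4 0 (k r r)))) (k (c 4 4098 r r) (k (c 4 4101 r r) (k (c 4 4101 r r) (k (c 4 4099 r r) (k (c 4 4101 r r) (k (c 4 4101 r r) r)))))))))))))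
 (.s 0x74aef8013eff00 4094 (n false (z 123) (n false (z 52) e)) (u 5 190 (k r (k r (k r (k (c 2 4100 r v) (k (c 3 4084 v (t 2 2 v)) (k (u 2 44 (k v (k v (k v (k (t 6 1 (u 4 6 (k v (k v r)))) r))))) (k (t 13 1 (u 9 0 (k r (k (u 2 4 (k v (k (t 6 1 (u 4 6 (k v (k v r)))) (k r (k r (k (c 4 4096 r (u 6 1 (k v (k v r)))) (k (c 3 4096 v (t 4 2 r)) r))))))) r)))) r))))))))
 .z .z) .z))) (.s 0x74afea00744288 4068 (n false (n false (z 156) (n true (n false (n false e e) (n false e e)) e)) (n false (n false e e) (n false e e))) (u 4 0 (k v (k (c 12 4099 r (u 8 0 (k v (k v r)))) r)))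
 (.s 0x74aef803b843a0 4075 (n false (n false (z 52) (n true (n false (n true (n false e e) e) (n false e e)) e)) (n true (n false (n false e e) e) e)) (u 4 223 (k v (k v (k v (k v (k v (k v (k (t 12 1 (u 8 0 (k v (k v r)))) r))))))))
 (.s 0x74aef802b843a0 4078 (n false (n false (z 52) (n false (n false (n true (n false e e) e) (n false e e)) e)) (n true (n false (n false e e) e) e)) (u 4 166 (k v (k v (k v (k v (k (t 12 1 (u 8 2 (k v (k v r)))) r))))))
 (.s 0x74aef802a0ee10 4075 (n false (n false (z 52) (n false (n false (n false e e) e) e)) (n true (n false (n true (n false e e) e) (n false e e)) e)) (u 4 222 (k v (k v (k v (k v (k v (k (t 12 1 (u 8 0 (k v (k v r)))) r)))))))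
 .z .z) (.s 0x74aef803a0ee10 4073 (n false (n false (n true (n false (n false e e) e) e) (z 52)) (n true (n false (n true (n false e e) e) (n false e e)) e)) (u 6 219 (k v (k v (k v (k v (k v (k v (k (t 14 1 (u 10 0 (k v (k v r)))) (k (c 4 4093 v r) (k (c 4 4093 v r) r))))))))))
 .z .z)) (.s 0x74afea00741d10 4073 (n false (n false (z 156) (n true (n false (n false e e) e) e)) (n true (n false (n false e e) (n false e e)) e)) (u 4 1 (k v (k (c 12 4099 r (u 8 1 (k v (k v r)))) (k (c 8 4098 r (u 12 1 (k v (k v r)))) (k (c 8 4097 r (u 12 1 (k v (k v r)))) (k (c 8 4099 r (u 12 1 (k v (k v r)))) (k (c 8 4095 r (u 12 0 (k v (k v r)))) r)))))))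
 (.s 0x74afea005c23a0 4077 (n false (n false (z 156) (n false (n true (n false e e) e) (n false e e))) (n true (n false (n false e e) e) e)) (u 4 8 (k v (k v (k (c 12 4099 r (u 8 1 (k v (k v r)))) (k (c 8 4098 r (u 12 1 (k v (k v r)))) (k (c 8 4097 r (u 12 1 (k v (k v r)))) (k (c 8 4099 r (u 12 1 (k v (k v r)))) r)))))))
 .z .z) .z)) (.s 0x74affc03b84288 4069 (n false (n false (z 124) (n true (n false (n true (n false e e) e) (n false e e)) e)) (n false (n false e e) (n false e e))) (u 4 5 (k v (k (c 12 4097 r (u 8 1 (k v (k v r)))) (k (c 12 4096 r (u 8 1 (k v (k v r)))) (k (c 8 4098 r (u 12 0 (k v (k v r)))) (k (c 12 4096 r (u 8 1 (k v (k v r)))) (k (c 12 4097 r (u 8 1 (k v (k v r)))) (k (c 12 4097 r (u 8 1 (k v (k v r)))) (k (c 12 4096 r (u 8 1 (k v (k v r)))) (k (c 8 4097 r (u 12 1 (k v (k v r)))) r))))))))))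
 (.s 0x74affc0257fe00 4091 (n false (n false (z 124) (z 124)) e) (u 4 5 (k r (k (c 12 4097 r (u 8 1 (k r (k r r)))) (k (c 12 4096 r (u 8 1 (k r (k r r)))) (k (c 8 4098 r (u 12 0 (k r (k r r)))) (k (c 12 4096 r (u 8 1 (k r (k r r)))) (k (c 12 4097 r (u 8 1 (k r (k r r)))) (k (c 12 4097 r (u 8 1 (k r (k r r)))) (k (c 12 4096 r (u 8 1 (k r (k r r)))) (k (c 8 4097 r (u 12 1 (k r (k r r)))) r))))))))))
 (.s 0x74affc022ee108 4077 (n false (n false (z 124) (n false e e)) (n false (n true (n false (n true (n false e e) e) (n false e e)) e) (n false e e))) (u 4 0 (k v (k v (k (c 12 4097 r (u 8 0 (k v (k v r)))) (k (c 12 4096 r (u 8 0 (k v (k v r)))) (k (c 12 4097 r (u 8 0 (k v (k v r)))) (k (c 12 4099 r (u 8 0 (k v (k v r)))) r)))))))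
 .z .z) (.s 0x74affc0385d108 4077 (n false (n false (z 124) (n true (n false e e) e)) (n false (n true (n false (n false e e) (n false e e)) e) (n false e e))) (u 4 1 (k v (k (c 12 4097 r (u 8 1 (k v (k v r)))) (k (c 12 4096 r (u 8 1 (k v (k v r)))) (k (c 8 4098 r (u 12 0 (k v (k v r)))) (k (c 12 4096 r (u 8 1 (k v (k v r)))) (k (c 12 4097 r (u 8 1 (k v (k v r)))) (k (c 12 4097 r (u 8 1 (k v (k v r)))) (k (c 12 4096 r (u 8 1 (k v (k v r)))) (k (c 12 4099 r (u 8 1 (k v (k v r)))) (k (c 8 4097 r (u 12 1 (k v (k v r)))) r)))))))))))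
 .z .z)) (.s 0x74bbb8022a2288 4088 (n false (n false (z 42) (n false e e)) (n false (n false (n false e e) (n false e e)) (n false (n false e e) (n false e e)))) (u 4 45 (k v (k v (k v (k (u 8 2 (k v (k v r))) (k (u 8 30 (k v (k v (k v (k (c 16 4097 r (u 24 1 (k v (k v r)))) r))))) (k (u 8 8 (k v (k v (k (c 24 4099 r (u 16 1 (k v (k v r)))) (k (c 16 4098 r (u 24 1 (k v (k v r)))) (k (c 16 4097 r (u 24 1 (k v (k v r)))) (k (c 16 4099 r (u 24 1 (k v (k v r)))) r))))))) r)))))))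
 (.s 0x74baf80385d108 4077 (n false (n false (z 50) (n true (n false e e) e)) (n false (n true (n false (n false e e) (n false e e)) e) (n false e e))) (u 4 1 (k v (k (c 12 4097 r (u 8 0 (k v (k v r)))) r)))
 .z .z) .z))))

set_option maxRecDepth 100000 in
def N76 : NT :=
(.s 0x74ebfc025fdc00 4090 (n false (n false (z 121) (z 46)) e) (u 6 1 (k r (k (u 10 1 (k r (k r r))) (k (c 14 4099 r (u 10 0 (k r (k r r)))) (k (u 4 0 (k r (k (u 10 1 (k v (k v r))) (k (c 12 4099 r r) r)))) (k (c 14 4097 r (u 10 1 (k r (k r r)))) (k (c 10 4095 r (u 14 1 (k r (k r r)))) r)))))))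
 (.s 0x74bfb803b84288 4066 (n false (n false (z 46) (n true (n false (n true (n false e e) e) (n false e e)) e)) (n false (n false e e) (n false e e))) (u 4 0 (k v (k (u 8 1 (k v (k v r))) (k (u 8 1 (k v (k v r))) (k (c 12 4099 r (u 8 0 (k v (k v r)))) (k (c 12 4097 r (u 8 1 (k v (k v r)))) (k (c 8 4095 r (u 12 1 (k v (k v r)))) r)))))))
 (.s 0x74bfb802555c00 4094 (n false (n false (z 46) (z 32)) e) (t 4 1 (u 6 0 (k (t 10 3 (t 14 1 v)) r)))
 (.s 0x74bbe8022a2288 4083 (n false (n false (z 26) (n false e e)) (n false (n false (n false e e) (n false e e)) (n false (n false e e) (n false e e)))) (u 4 2 (k v (k (u 8 2 (k v (k v r))) r)))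
 (.s 0x74bbbc022ee108 4081 (n false (n false (z 106) (n false e e)) (n false (n true (n false (n true (n false e e) e) (n false e e)) e) (n false e e))) (u 4 10 (k v (k (t 12 3 (u 8 114 (k v (k (c 24 4099 r (u 16 1 (k v (k v r)))) (k (c 24 4101 r r) (k (c 24 4099 r (u 16 10 (k v (k v (k v (k (c 48 4099 r (u 32 1 (k v (k v r)))) r)))))) (k (c 16 4101 r r) (k (c 24 4099 r (u 16 4 (k v (k (c 48 4099 r (u 32 1 (k v (k v r)))) r)))) (k (c 16 4101 r r) r))))))))) (k (c 8 4101 r r) (k (c 8 4101 r r) r)))))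
 .z .z) (.s 0x74bfb8022ee108 4077 (n false (n false (z 46) (n false e e)) (n false (n true (n false (n true (n false e e) e) (n false e e)) e) (n false e e))) (u 4 1 (k v (k r (k (c 12 4099 r (u 8 0 (k v (k v r)))) (k (u 8 0 (k v (k v r))) (k (c 12 4097 r r) (k (c 8 4095 r r) r)))))))
 .z .z)) (.s 0x74bfb802a223a0 4085 (n false (n false (z 46) (n false (n false (n false e e) (n false e e)) (n false e e))) (n true (n false (n false e e) e) e)) (u 4 2 (k v (k (c 12 4099 r (u 8 0 (k v (k v r)))) (k (u 8 1 (k v (k v r))) (k (c 6 4091 v (u 8 15 (k v (k v (k v r))))) (k (c 12 4097 r (u 8 1 (k v (k v r)))) (k (c 8 4095 r (u 12 1 (k v (k v r)))) r)))))))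
 (.s 0x74bfb80257fe00 4090 (n false (n false (z 124) (z 46)) e) (u 6 2 (k r (k (c 14 4099 r (u 10 0 (k r (k r r)))) (k (u 10 1 (k r (k r r))) (k (u 4 14 (k r (k (c 12 4097 r r) (k (c 12 4096 r r) (k (c 12 4097 r r) (k (c 12 4099 r r) r)))))) (k (c 14 4097 r (u 10 1 (k r (k r r)))) (k (c 10 4095 r (u 14 1 (k r (k r r)))) r)))))))
 .z .z) (.s 0x74bfb80385d108 4077 (n false (n false (z 46) (n true (n false e e) e)) (n false (n true (n false (n false e e) (n false e e)) e) (n false e e))) (u 4 1 (k v (k (c 3 4090 v r) (k (c 12 4099 r (u 8 0 (k v (k v r)))) (k (c 3 4090 v r) (k (c 12 4097 r (c 3 4090 v r)) (k (c 8 4095 r (c 3 4090 v r)) r)))))))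
 .z .z))) (.s 0x74ebfc022ee108 4079 (n false (n false (z 121) (n false e e)) (n false (n true (n false (n true (n false e e) e) (n false e e)) e) (n false e e))) (u 4 0 (k v (k v (k (c 12 4099 r (u 8 0 (k v (k v r)))) r))))
 (.s 0x74ebec013aff00 4097 (n false (n false (z 89) e) (z 121)) (u 4 0 (k r (k r (k r (k (t 12 2 (u 8 41 (k r (k r (k (t 24 1 (u 16 0 (k (c 16 4094 v r) (k (u 3 5 (k v (k v (k v (k (c 7 4099 r (u 5 1 (k v (k v r)))) (k (c 5 4097 r (u 7 1 (k v (k v r)))) r)))))) r)))) r))))) r)))))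
 (.s 0x74ebac022b8470 4079 (n false (n false (z 73) (n false e e)) (n false (n false (n true (n false e e) e) (n false e e)) (n true (n false e e) e))) (c 7 4094 v (c 5 4092 v (u 4 0 (k r r))))
 .z .z) (.s 0x74ebec01d44510 4090 (n false (n false (z 89) e) (n true (n false (n false (n false e e) (n false e e)) (n false (n false e e) (n false e e))) e)) (u 4 0 (k v (k v (k v (k (t 12 2 (u 8 6 (k v (k v (k (t 24 1 (u 16 0 (k v (k v r)))) r))))) r)))))
 .z .z)) (.s 0x74ebfc025df400 4091 (n false (n false (z 121) (z 26)) e) (u 6 0 (k (u 4 1 (k v (k (c 12 4099 r (u 8 1 (k v (k v r)))) (k (c 8 4097 r (c 10 4099 v r)) (k (c 8 4095 r (u 12 0 (k v (k v r)))) (k (c 8 4095 r (u 12 0 (k v (k v r)))) r)))))) (k (c 4 4101 r v) (k (t 4 2 (u 10 1 (k v (k v r)))) r))))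
 (.s 0x74ebfc0257fe00 4090 (n false (n false (z 124) (z 121)) e) (u 4 1 (k r (k (c 12 4097 r (u 8 1 (k r (k r r)))) (k (c 12 4096 r (u 8 1 (k r (k r r)))) (k (c 8 4098 r (u 12 0 (k r (k r r)))) (k (c 12 4096 r (u 8 1 (k r (k r r)))) (k (c 12 4097 r (u 8 1 (k r (k r r)))) (k (c 12 4097 r (u 8 1 (k r (k r r)))) (k (c 12 4096 r (u 8 1 (k r (k r r)))) (k (c 12 4099 r (u 8 1 (k r (k r r)))) (k (c 8 4097 r (u 12 1 (k r (k r r)))) r)))))))))))
 .z .z) .z))) (.s 0x74eeb80275fe00 4093 (n false (n false (z 121) (z 37)) e) (u 4 1 (k r (k (c 12 4099 r (u 8 1 (k r (k r r)))) (k (c 8 4097 r (u 12 1 (k r (k r r)))) (k (c 8 4095 r (t 6 1 r)) (k (c 8 4095 r (t 6 1 r)) r))))))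
 (.s 0x74eeb80257fe00 4090 (n false (n false (z 124) (z 37)) e) (u 4 13 (k r (k r (k (c 12 4097 r (u 8 1 (k r (k r r)))) (k (c 12 4096 r (u 8 1 (k r (k r r)))) (k (c 8 4098 r (u 12 0 (k r (k r r)))) (k (c 12 4096 r (u 8 1 (k r (k r r)))) (k (c 12 4097 r (u 8 1 (k r (k r r)))) (k (c 12 4097 r (u 8 1 (k r (k r r)))) (k (c 12 4096 r (u 8 1 (k r (k r r)))) (k (c 12 4099 r (u 8 1 (k r (k r r)))) (k (c 8 4097 r (u 12 1 (k r (k r r)))) r))))))))))))
 (.s 0x74ebfc0385d108 4079 (n false (n false (z 121) (n true (n false e e) e)) (n false (n true (n false (n false e e) (n false e e)) e) (n false e e))) (u 4 1 (k v (k (c 12 4099 r (u 8 1 (k v (k v r)))) (k (c 8 4097 r (c 3 4090 v r)) (k (c 8 4095 r (c 3 4090 v r)) (k (c 8 4095 r (c 3 4090 v r)) r))))))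
 (.s 0x74ebfc0275fe00 4092 (n false (n false (z 121) (z 121)) e) (u 4 1 (k r (k (c 12 4099 r (u 8 1 (k r (k r r)))) (k (c 8 4097 r (u 12 1 (k r (k r r)))) (k (c 8 4095 r r) (k (c 8 4095 r r) r))))))
 .z .z) (.s 0x74ebfc03b84288 4067 (n false (n false (z 121) (n true (n false (n true (n false e e) e) (n false e e)) e)) (n false (n false e e) (n false e e))) (u 4 1 (k v (k (c 12 4099 r (u 8 1 (k v (k v r)))) (k (c 8 4097 r (u 12 1 (k v (k v r)))) (k (c 8 4095 r (u 12 0 (k v (k v r)))) (k (c 8 4095 r (u 12 0 (k v (k v r)))) r))))))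
 .z .z)) (.s 0x74eeb8025fdc00 4093 (n false (n false (z 46) (z 37)) e) (u 4 1 (k r (k (u 8 1 (k r (k r r))) (k (c 12 4099 r (u 8 0 (k r (k r r)))) (k (u 6 1 (k r (k (u 8 1 (k v (k v r))) r))) (k (c 12 4097 r (u 8 1 (k r (k r r)))) (k (c 8 4095 r (u 12 1 (k r (k r r)))) r)))))))
 (.s 0x74eeb8025df400 4091 (n false (n false (z 37) (z 26)) e) (u 6 0 (k (u 4 1 (k v (k v r))) (k (c 4 4101 r v) (k (t 4 1 (u 10 1 (k v (k v r)))) r))))
 .z .z) .z)) (.s 0x74eeb803b84288 4070 (n false (n false (n true (n false (n true (n false e e) e) (n false e e)) e) (z 37)) (n false (n false e e) (n false e e))) (u 6 22 (k v (k (u 10 0 (k (t 18 3 (t 26 1 v)) r)) (k r (k (u 10 6 (k v (k (t 26 1 (u 18 10 (k v (k v r)))) r))) (k (u 10 0 (k (t 18 3 (t 26 1 v)) r)) (k r r)))))))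
 (.s 0x74eeb802b84288 4070 (n false (n false (z 37) (n false (n false (n true (n false e e) e) (n false e e)) e)) (n false (n false e e) (n false e e))) (u 4 22 (k v (k (u 8 0 (k (t 16 3 (t 24 1 v)) r)) (k r (k r (k (u 8 0 (k (t 16 3 (t 24 1 v)) r)) (k (u 8 2 (k v (k v (k v (k (t 24 1 (u 16 0 (k (t 32 3 (t 48 1 v)) r))) r))))) r)))))))
 (.s 0x74eeb802775c00 4093 (n false (n false (z 37) (z 37)) e) (u 4 8 (k r (k r (k (t 6 1 (u 8 0 (k (t 16 3 (t 24 1 v)) r))) (k (u 6 1 (k (c 8 4096 r v) (k r r))) (k (u 6 27 (k r (k (c 8 4096 r v) (k r r)))) (k r r)))))))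
 .z .z) (.s 0x74eeb80385d108 4080 (n false (n false (z 37) (n true (n false e e) e)) (n false (n true (n false (n false e e) (n false e e)) e) (n false e e))) (u 4 22 (k v (k (u 8 0 (k (t 16 3 (t 24 1 v)) r)) (k r (k r (k (u 8 0 (k (t 16 3 (t 24 1 v)) r)) (k (u 8 2 (k v (k v (k v (k (t 24 1 (u 16 0 (k (t 32 3 (t 48 1 v)) r))) r))))) r)))))))
 .z .z)) (.s 0x74eeec025fdc00 4091 (n false (n false (z 85) (z 46)) e) (u 6 1 (k r (k (u 10 1 (k r (k r r))) (k (c 14 4099 r (u 10 0 (k r (k r r)))) (k (u 4 3 (k r (k r (k (c 12 4099 r r) (k r (k (c 12 4099 r r) (k r r))))))) (k (c 14 4097 r (u 10 1 (k r (k r r)))) (k (c 10 4095 r (u 14 1 (k r (k r r)))) r)))))))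
 (.s 0x74eeec0257fe00 4091 (n false (n false (z 85) (z 124)) e) (u 6 5 (k r (k (c 14 4097 r (u 10 1 (k r (k r r)))) (k (c 14 4096 r (u 10 1 (k r (k r r)))) (k (c 10 4098 r (u 14 0 (k r (k r r)))) (k (c 14 4096 r (u 10 1 (k r (k r r)))) (k (c 14 4097 r (u 10 1 (k r (k r r)))) (k (c 14 4097 r (u 10 1 (k r (k r r)))) (k (c 14 4096 r (u 10 1 (k r (k r r)))) (k (c 10 4097 r (u 14 1 (k r (k r r)))) r))))))))))
 .z .z) .z))))

set_option maxRecDepth 100000 in
def N77 : NT :=
(.s 0x74fabc022a2288 4088 (n false (n false (z 99) (n false e e)) (n false (n false (n false e e) (n false e e)) (n false (n false e e) (n false e e)))) (u 4 1 (k v (k (c 12 4096 r (u 8 1 (k v (k v r)))) (k (c 12 4096 r r) (k (c 12 4096 r r) r)))))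
 (.s 0x74faac013fab00 4094 (n false (n false (z 67) e) (z 71)) (u 3 6 (k (t 7 1 r) (k (u 4 71 (k r (k r (k (c 12 4101 r (t 5 2 (u 8 1 (k v (k v r))))) (k (c 8 4101 r (t 5 2 (u 12 1 (k v (k v r))))) (k (c 8 4101 r (t 5 2 (u 12 1 (k v (k v r))))) r)))))) (k (t 4 2 r) (k (t 5 1 r) (k (t 5 1 r) (k (t 5 1 r) r)))))))
 (.s 0x74faa8025df400 4081 (n false (n false (z 26) (z 3)) e) (t 6 3 (u 4 2 (k v (k (u 8 2 (k v (k v r))) r))))
 (.s 0x74eeec0385d108 4082 (n false (n false (z 85) (n true (n false e e) e)) (n false (n true (n false (n false e e) (n false e e)) e) (n false e e))) (u 4 39 (k v (k (c 12 4099 r r) (k (c 3 4090 v r) (k (c 12 4101 r (u 8 0 (k (t 24 1 (u 16 0 (k (t 32 3 (t 48 3 v)) r))) r))) (k (c 12 4096 r (c 3 4090 v r)) (k (c 8 4099 r r) r)))))))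
 (.s 0x74eeec02777600 4091 (n false (n false (z 85) (z 85)) e) (u 4 4 (k r (k (c 12 4099 r r) (k r (k (c 12 4099 r r) (k (u 6 5 (k r (k r (k (c 14 4099 r r) (k (c 10 4099 r r) r))))) (k (c 12 4096 r (u 6 6 (k r (k r (k r r))))) (k (c 8 4099 r r) r))))))))
 .z .z) (.s 0x74eeec03b84288 4073 (n false (n false (z 85) (n true (n false (n true (n false e e) e) (n false e e)) e)) (n false (n false e e) (n false e e))) (u 4 78 (k v (k v (k (c 12 4099 r r) (k (c 12 4099 r (u 8 6 (k v (k (t 24 1 (u 16 10 (k v (k v r)))) r)))) (k (c 12 4099 r (u 8 5 (k v (k v r)))) (k (u 8 12 (k v (k v r))) (k (c 8 4099 r r) r))))))))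
 .z .z)) (.s 0x74faac012efb00 4096 (n false (z 90) (n false (z 67) e)) (u 2 10 (k r (k (t 5 2 v) (k r (k r (k (c 4 4097 r (u 6 0 (k (u 10 0 (k r (k r r))) r))) (k r r)))))))
 (.s 0x74faac012bbe00 4094 (n false (n false (z 67) e) (z 52)) (u 4 67 (k r (k r (k (c 3 4097 r v) (k r (k (c 8 4101 r r) (k (c 2 4088 r r) (k (c 8 4099 r r) (k (c 12 4101 r r) (k (c 12 4102 r r) (k (c 8 4101 r r) (k (c 8 4101 r r) r))))))))))))
 .z .z) (.s 0x74faac013eee00 4096 (n false (n false (z 67) e) (z 43)) (u 3 4 (k r (k r (k r (k r (k r (k (u 5 0 (k (u 9 0 (k r (k r r))) r)) (k r (k r r)))))))))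
 .z .z))) (.s 0x74fab8012baf00 4095 (n false (z 100) (n false (z 35) e)) (u 5 8 (k r (k (t 13 1 (u 9 0 (k (t 17 3 (t 25 1 (u 2 2 (k v (k r (k r (k (c 6 4097 r r) (k r (k r r))))))))) r))) r)))
 (.s 0x74faac023fe880 4080 (n false (n false (z 67) (n false e e)) (n true (n true (n true (n true (n false (n false e e) (n false e e)) e) e) e) e)) (u 4 114 (k v (k (c 12 4099 r (u 8 1 (k v (k v r)))) (k (c 8 4099 r (u 12 1 (k v (k v r)))) (k (c 12 4099 r r) (k (c 12 4099 r r) (k (c 12 4099 r r) (k (c 12 4099 r r) r))))))))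
 (.s 0x74faac022a2288 4088 (n false (n false (z 67) (n false e e)) (n false (n false (n false e e) (n false e e)) (n false (n false e e) (n false e e)))) (u 4 44 (k v (k v (k v (k r (k (c 12 4099 r (u 8 1 (k v (k v r)))) (k (c 12 4097 r (u 8 1 (k v (k v r)))) (k (c 12 4099 r r) (k (c 12 4097 r r) (k (c 12 4099 r r) (k (c 12 4099 r (u 8 0 (k (u 16 0 (k v (k v r))) r))) (k (c 8 4099 r (u 12 1 (k v (k v r)))) (k (c 12 4099 r r) (k (c 8 4099 r (u 12 0 (k (u 20 0 (k v (k v r))) r))) (k (c 12 4100 r r) (k (c 12 4099 r r) (k (c 12 4099 r r) (k (c 12 4099 r r) r))))))))))))))))))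
 .z .z) (.s 0x74faac02a22888 4093 (n false (n false (z 67) (n false (n false (n false e e) (n false e e)) (n false (n false e e) (n false e e)))) (n false e e)) (c 2 4095 (u 2 0 (k v (k v r))) v)
 .z .z)) (.s 0x74fab803a0ee10 4077 (n false (n false (n true (n false (n false e e) e) e) (z 35)) (n true (n false (n true (n false e e) e) (n false e e)) e)) (u 6 0 (k v (k v (k (t 14 1 (u 10 0 (k (t 18 3 (t 26 1 v)) r))) r))))
 (.s 0x74fab803a0ae10 4079 (n false (n false (n true (n false (n false e e) e) e) (z 35)) (n false (n false (n true (n false e e) e) (n false e e)) e)) (u 6 0 (k v (k v (k (t 14 1 (u 10 0 (k (t 18 3 (t 26 1 v)) r))) r))))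
 .z .z) .z))) (.s 0x74fbfc022a2288 4087 (n false (n false (z 123) (n false e e)) (n false (n false (n false e e) (n false e e)) (n false (n false e e) (n false e e)))) (u 4 30 (k v (k v (k r (k (c 12 4099 r (u 8 1 (k v (k v (k v (k (c 24 4097 r r) r)))))) (k r (k r (k (c 12 4100 r r) (k (c 12 4097 r r) r)))))))))
 (.s 0x74fbec0275fe00 4090 (n false (n false (z 91) (z 121)) e) (u 6 1 (k r (k (c 14 4099 r (u 10 1 (k r (k r r)))) (k (c 10 4097 r r) (k (c 10 4095 r (t 4 2 r)) (k (c 10 4095 r (t 4 2 r)) r))))))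
 (.s 0x74fbbc022a2288 4091 (n false (n false (z 107) (n false e e)) (n false (n false (n false e e) (n false e e)) (n false (n false e e) (n false e e)))) (u 4 5 (k v (k (c 12 4099 r r) (k (c 12 4100 r (u 8 0 (k (u 16 0 (k v (k v r))) r))) r))))
 (.s 0x74fbb80387dc20 4075 (n false (n false (z 43) (n true (n false e e) e)) (n true (n true (n false (n true (n false e e) e) (n false e e)) e) e)) (u 4 0 (k v (k r (k (c 12 4099 r (u 8 0 (k (u 16 0 (k v (k v r))) r))) (k r (k r (k (u 8 0 (k (u 16 0 (k v (k v r))) r)) (k r (k r r)))))))))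
 .z .z) (.s 0x74fbec022ee108 4080 (n false (n false (z 91) (n false e e)) (n false (n true (n false (n true (n false e e) e) (n false e e)) e) (n false e e))) (u 4 0 (k v (k v (k (u 8 0 (k v (k v r))) (k (c 8 4097 r (u 12 0 (k v (k v r)))) (k (c 8 4095 r (u 12 0 (k v (k v r)))) r))))))
 .z .z)) (.s 0x74fbec0385d108 4076 (n false (n false (z 91) (n true (n false e e) e)) (n false (n true (n false (n false e e) (n false e e)) e) (n false e e))) (u 4 5 (k v (k (u 8 1 (k v (k v r))) (k (c 8 4097 r (u 12 0 (k v (k v r)))) (k (c 8 4097 r (u 12 0 (k v (k v r)))) (k (c 8 4097 r (u 12 0 (k v (k v r)))) (k (c 8 4096 r (u 12 0 (k v (k v r)))) (k (c 8 4095 r (u 12 0 (k v (k v r)))) r))))))))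
 (.s 0x74fbec02775c00 4090 (n false (n false (z 91) (z 37)) e) (u 6 0 (k r (k (t 4 2 (u 10 0 (k (t 18 3 (t 26 1 v)) r))) (k r (k r (k r (k r r)))))))
 .z .z) .z)) (.s 0x74feac0255fc00 4091 (n false (n false (z 56) (z 71)) e) (u 6 1 (k r (k (c 14 4099 r r) (k (t 4 1 r) (k (c 10 4099 r r) (k (c 10 4099 r r) (k (c 10 4099 r r) r)))))))
 (.s 0x74fbfc03b84288 4072 (n false (n false (z 123) (n true (n false (n true (n false e e) e) (n false e e)) e)) (n false (n false e e) (n false e e))) (u 4 19 (k v (k (c 12 4099 r (u 8 12 (k v (k v r)))) (k (c 8 4096 r (u 12 1 (k v (k v r)))) r))))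
 (.s 0x74fbfc025fdc00 4092 (n false (n false (z 46) (z 123)) e) (u 4 17 (k r (k r (k (u 8 0 (k r (k r r))) (k (u 6 18 (k r (k (c 14 4099 r (u 10 10 (k (u 8 1 (k v (k v r))) (k r (k (u 8 0 (k v (k v r))) (k (t 26 2 r) r)))))) r))) (k (c 12 4097 r (u 8 0 (k r (k r r)))) (k (c 8 4095 r (u 12 0 (k r (k r r)))) r)))))))
 .z .z) (.s 0x74feac022a2288 4085 (n false (n false (z 71) (n false e e)) (n false (n false (n false e e) (n false e e)) (n false (n false e e) (n false e e)))) (u 4 6 (k (c 12 4099 r r) (k r (k r (k (c 8 4099 r r) (k (c 8 4099 r r) (k (c 8 4099 r r) r)))))))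
 .z .z)) (.s 0x74feac025d7c00 4090 (n false (n false (z 50) (z 71)) e) (u 4 0 (k r (k (c 12 4097 r (u 6 1 (k (u 8 0 (k v (k v r))) (k (c 14 4099 r r) (k (c 8 4097 r r) (k (c 10 4099 r r) (k (c 10 4099 r r) (k (c 10 4099 r r) r)))))))) r)))
 (.s 0x74feac0257fe00 4091 (n false (n false (z 124) (z 71)) e) (u 4 0 (k r (k r (k (c 12 4097 r (u 8 0 (k r (k r r)))) (k (c 12 4096 r (u 8 0 (k r (k r r)))) (k (c 12 4097 r (u 8 0 (k r (k r r)))) (k (c 12 4099 r (u 8 0 (k r (k r r)))) r)))))))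
 .z .z) .z))))

set_option maxRecDepth 100000 in
def N78 : NT :=
(.s 0x754451113eab00 4094 (n false (z 67) (n false (n false (n false (n false e e) (n false e e)) (n false (n false e e) (n false e e))) (n false e e))) (u 2 3 (k v (k (t 6 2 r) (k (c 4 4096 r (u 6 0 (k (u 10 0 (k v (k v r))) r))) (k (c 4 4096 r (u 6 0 (k (u 10 0 (k v (k v r))) r))) (k (t 6 1 r) (k (t 6 2 r) (k (c 3 4099 v r) (k (t 6 1 r) (k (t 6 2 r) (k (t 4 2 r) (k (c 3 4099 v (t 6 2 (u 4 0 (k r r)))) (k (t 4 1 r) (k (t 6 2 r) (k (c 3 4099 v (t 4 1 (u 6 0 (k r r)))) (k (t 4 2 (c 3 4099 v r)) (k (t 6 2 r) (k (t 6 1 r) (k (t 6 2 r) (k (t 6 2 r) (k (t 6 1 r) r)))))))))))))))))))))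
 (.s 0x753eae005c23a0 4077 (n false (n false (n false (z 35) e) (n false (n true (n false e e) e) (n false e e))) (n true (n false (n false e e) e) e)) (u 8 2 (k v (k v (k v (k (t 24 1 (u 16 0 (k (t 32 3 (t 48 1 v)) r))) r)))))
 (.s 0x74ffaa0047dc20 4076 (n false (n false (z 143) (n false e e)) (n true (n true (n false (n true (n false e e) e) (n false e e)) e) e)) (u 4 5 (k v (k (c 12 4096 r r) (k (c 8 4098 r r) (k (c 12 4097 r (u 8 62 (k v (k v (k v r))))) (k (c 12 4096 r r) r))))))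
 (.s 0x74feac027df600 4090 (n false (n false (z 91) (z 71)) e) (u 6 1 (k r (k (c 14 4099 r r) (k (u 10 65 (k r (k r (k r r)))) (k (c 10 4099 r r) (k (c 10 4099 r r) (k (c 10 4099 r r) r)))))))
 (.s 0x74feac02777600 4091 (n false (n false (z 85) (z 71)) e) (u 6 1 (k r (k (c 14 4099 r (u 10 1 (k r (k r r)))) (k (t 4 1 r) (k (c 10 4099 r (u 14 1 (k r (k r r)))) (k (c 10 4099 r (u 14 1 (k r (k r r)))) (k (c 10 4099 r (u 14 1 (k r (k r r)))) r)))))))
 .z .z) (.s 0x74fefc012bbe00 4094 (n false (n false (z 119) e) (z 52)) (u 4 46 (k r (k r (k (c 3 4097 r v) (k (c 12 4101 r r) (k (c 12 4099 r r) (k (c 12 4097 r r) (k (c 2 4088 (t 6 2 (u 4 0 (k r r))) r) (k (c 8 4098 r r) (k (c 8 4101 r r) (k (c 8 4099 r r) (k (c 8 4101 r r) r))))))))))))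
 .z .z)) (.s 0x753bae00475c20 4076 (n false (n false (n false (z 37) e) (n false e e)) (n true (n false (n false (n true (n false e e) e) (n false e e)) e) e)) (u 8 45 (k v (k v (k (u 16 24 (k v (k v (k v r)))) (k (u 16 30 (k v (k v (k v (k v r))))) r)))))
 (.s 0x752bfa8008ee10 4073 (n false (n false (n false (z 156) e) (n false e e)) (n true (n false (n true (n false e e) e) (n false e e)) e)) (u 8 1 (k v (k (c 24 4099 r (u 16 1 (k v (k v r)))) (k (c 16 4098 r (u 24 1 (k v (k v r)))) (k (c 16 4097 r (u 24 1 (k v (k v r)))) (k (c 16 4099 r (u 24 1 (k v (k v r)))) (k (c 16 4095 r (u 24 0 (k v (k v r)))) r)))))))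
 .z .z) (.s 0x753bae0047dc20 4076 (n false (n false (n false (z 37) e) (n false e e)) (n true (n true (n false (n true (n false e e) e) (n false e e)) e) e)) (u 8 54 (k v (k v (k (u 16 24 (k v (k v (k v r)))) (k (u 16 17 (k v (k v (k v r)))) r)))))
 .z .z))) (.s 0x753fbe00544288 4070 (n false (n false (n false (z 55) e) (n false (n false (n false e e) (n false e e)) e)) (n false (n false e e) (n false e e))) (u 8 6 (k v (k (t 24 1 (u 16 10 (k v (k v r)))) r)))
 (.s 0x753fab00475c20 4073 (n false (n false (n false (z 71) e) (n false e e)) (n true (n false (n false (n true (n false e e) e) (n false e e)) e) e)) (u 8 1 (k v (k (c 24 4099 r (u 16 1 (k v (k v r)))) (k (u 16 0 (k v (k v r))) (k (c 16 4099 r (u 24 1 (k v (k v r)))) (k (c 16 4099 r (u 24 1 (k v (k v r)))) (k (c 16 4099 r (u 24 1 (k v (k v r)))) r)))))))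
 (.s 0x753fab00475110 4076 (n false (n false (n false (z 71) e) (n false e e)) (n true (n false (n false (n false e e) (n false e e)) (n false e e)) e)) (u 8 1 (k v (k (c 24 4099 r (u 16 1 (k v (k v r)))) (k (u 16 0 (k v (k v r))) (k (c 16 4099 r (u 24 1 (k v (k v r)))) (k (c 16 4099 r (u 24 1 (k v (k v r)))) (k (c 16 4099 r (u 24 1 (k v (k v r)))) r)))))))
 .z .z) (.s 0x753fab0047dc20 4070 (n false (n false (n false (z 71) e) (n false e e)) (n true (n true (n false (n true (n false e e) e) (n false e e)) e) e)) (u 8 1 (k v (k (c 24 4099 r (u 16 1 (k v (k v r)))) (k (u 16 0 (k v (k v r))) (k (c 16 4099 r (u 24 1 (k v (k v r)))) (k (c 16 4099 r (u 24 1 (k v (k v r)))) (k (c 16 4099 r (u 24 1 (k v (k v r)))) r)))))))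
 .z .z)) (.s 0x754451112aff00 4094 (n false (z 120) (n false (n false (n false (n false e e) (n false e e)) (n false (n false e e) (n false e e))) (n false e e))) (u 2 4 (k (t 6 2 r) (k (t 6 2 r) (k (t 6 2 r) (k (t 4 1 (c 3 4099 v r)) (k (t 4 1 r) (k (t 6 1 r) (k (c 4 4097 r r) (k (c 3 4099 v (t 6 1 r)) (k (c 3 4099 v (t 6 1 (u 4 0 (k r r)))) (k (t 4 2 (c 3 4099 v r)) (k (c 3 4099 v (t 6 1 r)) (k (t 4 1 r) (k (t 6 1 r) (k (t 6 1 r) (k (t 6 2 r) (k (c 4 4095 r r) (k (t 4 1 r) (k (t 6 1 r) r)))))))))))))))))))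
 (.s 0x753feb0047dc20 4078 (n false (n false (n false (z 79) e) (n false e e)) (n true (n true (n false (n true (n false e e) e) (n false e e)) e) e)) (u 8 3 (k v (k (u 16 14 (k v (k v (k v (k v r))))) (k (c 24 4096 r (u 16 1 (k v (k v r)))) r))))
 .z .z) .z))) (.s 0x754ebfc0382288 4079 (n false (n false (n false (n false (z 121) (n true (n false e e) e)) e) (n false e e)) (n false (n false e e) (n false e e))) (u 16 1 (k v (k (c 48 4099 r (u 32 1 (k v (k v r)))) (k (c 32 4097 r (c 4 4083 r v)) (k (c 32 4095 r (c 4 4080 r v)) (k (c 32 4095 r (c 4 4080 r v)) r))))))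
 (.s 0x754bfb80382288 4077 (n false (n false (n false (n false (z 46) (n true (n false e e) e)) e) (n false e e)) (n false (n false e e) (n false e e))) (u 16 2 (k v (k (c 48 4099 r (u 32 0 (k v (k v r)))) (k (c 4 4083 r v) (k (c 4 4083 r v) (k (c 48 4097 r (c 4 4083 r v)) (k (c 32 4095 r (c 4 4083 r v)) r)))))))
 (.s 0x754451113fbf00 4091 (n false (z 119) (n false (n false (n false (n false e e) (n false e e)) (n false (n false e e) (n false e e))) (n false e e))) (u 2 1 (k r (k (t 6 2 r) (k (t 6 1 r) (k r (k r (k (u 6 1 (k r (k (c 14 4097 r (u 10 0 (k r (k r r)))) r))) (k (c 3 4099 v (t 6 2 (u 4 0 (k r r)))) (k r (k r (k r (k r (k r (k r r))))))))))))))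
 (.s 0x754451113eee00 4099 (n false (z 43) (n false (n false (n false (n false e e) (n false e e)) (n false (n false e e) (n false e e))) (n false e e))) (u 2 0 (k v (k r (k (c 6 4099 r (u 4 0 (k (u 8 0 (k v (k v r))) r))) (k r (k r (k (u 4 0 (k (u 8 0 (k v (k v r))) r)) (k r (k r r)))))))))
 .z .z) (.s 0x754abf80382288 4074 (n false (n false (n false (n false (z 56) (n true (n false e e) e)) e) (n false e e)) (n false (n false e e) (n false e e))) (u 16 0 (k (u 32 188 (k v (k v (k v (k v (k v (k v (k (t 96 1 (u 64 0 (k v (k v r)))) (k (t 96 1 (u 64 0 (k (c 192 4099 r (u 128 2 (k v (k (c 4 4077 r v) r)))) r))) r))))))))) (k (c 32 4096 r (u 48 0 (k v (k v r)))) (k (u 32 1 (k v (k v r))) (k (c 48 4096 r r) r)))))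
 .z .z)) (.s 0x754ebfc010ee10 4075 (n false (n false (n false (n false (z 121) e) (n false e e)) e) (n true (n false (n true (n false e e) e) (n false e e)) e)) (u 16 3 (k v (k v (k (c 48 4099 r (u 32 1 (k v (k v r)))) (k (c 32 4097 r (u 48 1 (k v (k v r)))) r)))))
 (.s 0x754ebfc008ee10 4078 (n false (n false (n false (n false (z 121) e) e) (n false e e)) (n true (n false (n true (n false e e) e) (n false e e)) e)) (c 5 4092 v (u 16 1 (k v (k (c 48 4099 r (u 32 1 (k v (k v r)))) (k (c 32 4097 r (u 48 1 (k v (k v r)))) (k (c 32 4095 r (c 4 4076 r v)) (k (c 32 4095 r (c 4 4076 r v)) r)))))))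
 .z .z) .z)) (.s 0x754fbec0382288 4076 (n false (n false (n false (n false (z 91) (n true (n false e e) e)) e) (n false e e)) (n false (n false e e) (n false e e))) (u 16 5 (k v (k (u 32 1 (k v (k v r))) (k (c 32 4097 r (u 48 0 (k v (k v r)))) (k (c 32 4097 r (u 48 0 (k v (k v r)))) (k (c 32 4097 r (u 48 0 (k v (k v r)))) (k (c 32 4096 r (u 48 0 (k v (k v r)))) (k (c 32 4095 r (u 48 0 (k v (k v r)))) r))))))))
 (.s 0x754eeb8010ee10 4076 (n false (n false (n false (n false (z 37) e) (n false e e)) e) (n true (n false (n true (n false e e) e) (n false e e)) e)) (u 16 45 (k v (k v (k (u 32 24 (k v (k v (k v r)))) (k (u 32 33 (k v (k v (k v (k v r))))) r)))))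
 (.s 0x754eeb8010ae10 4076 (n false (n false (n false (n false (z 37) e) (n false e e)) e) (n false (n false (n true (n false e e) e) (n false e e)) e)) (u 16 45 (k v (k v (k (u 32 24 (k v (k v (k v r)))) (k (u 32 33 (k v (k v (k v (k v r))))) r)))))
 .z .z) (.s 0x754eeb80382288 4083 (n false (n false (n false (n false (z 37) (n true (n false e e) e)) e) (n false e e)) (n false (n false e e) (n false e e))) (u 16 23 (k v (k v (k (c 4 4085 (u 8 0 (k (t 16 3 (t 24 1 v)) r)) v) (k (u 32 2 (k v (k v (k v (k (t 96 1 (u 64 0 (k (t 128 3 (t 192 1 v)) r))) r))))) (k (u 32 1 (k v (k (t 96 1 (u 64 16 (k v (k v (k (c 4 4085 r v) r))))) r))) r))))))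
 .z .z)) (.s 0x754ffac010ba20 4078 (n false (n false (n false (n false (z 79) e) (n false e e)) e) (n false (n true (n false (n false e e) (n false e e)) e) e)) (u 16 5 (k v (k (u 32 18 (k v (k v (k v (k (c 96 4099 r (u 64 19 (k v (k v (k v r))))) r))))) (k (c 48 4096 r (u 32 1 (k v (k v r)))) r))))
 (.s 0x754ffac010ae10 4078 (n false (n false (n false (n false (z 79) e) (n false e e)) e) (n false (n false (n true (n false e e) e) (n false e e)) e)) (u 16 3 (k v (k (u 32 20 (k v (k v (k v (k v r))))) (k (c 48 4096 r (u 32 1 (k v (k v r)))) r))))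
 .z .z) .z))))

set_option maxRecDepth 100000 in
def N79 : NT :=
(.s 0x75f2bbe002b840 4077 (n false (n false (n false (n true (n true (z 52) e) e) (n false (n false (n true (n false e e) e) (n false e e)) e)) e) e) (u 32 233 (k v (k v (k v (k v (k v (k v (k (t 96 1 (u 64 0 (k v (k v r)))) r))))))))
 (.s 0x75cafea0021708 4072 (n false (n false (n false (n true (z 156) e) (n false e e)) e) (n false (n true (n false e e) e) (n false e e))) (u 16 1 (k v (k (c 48 4099 r (u 32 1 (k v (k v r)))) (k (c 32 4098 r (u 48 1 (k v (k v r)))) (k (c 32 4097 r (u 48 1 (k v (k v r)))) (k (c 32 4099 r (u 48 1 (k v (k v r)))) (k (c 32 4095 r (u 48 0 (k v (k v r)))) r)))))))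
 (.s 0x7574aef8021088 4077 (n false (n false (n false (n false (n true (n false (z 52) (n false e e)) e) (n false e e)) e) (n false e e)) (n false e e)) (u 64 6 (k v (k v (k (t 192 1 (u 128 0 (k v (k v r)))) r))))
 (.s 0x755d2bbe008420 4076 (n false (n false (n false (n false (n false (n true (n false (z 52) (n false e e)) e) (n false e e)) e) (n false e e)) e) e) (u 128 29 (k v (k v (k v (k (t 384 1 (u 256 0 (k v (k v r)))) r)))))
 (.s 0x7552fff0043850 4066 (n false (n false (n false (n false (n false (z 126) e) (n false e e)) e) (n true (n false e e) e)) (n false (n false e e) e)) (u 32 0 (k r (k r (k (t 96 2 (u 64 0 (k (c 192 4096 r r) (k (c 192 4096 r r) (k (c 192 4096 r r) (k (c 192 4096 r r) (k (c 192 4096 r r) r))))))) (k r r)))))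
 .z .z) (.s 0x7573bee0043850 4072 (n false (n false (n false (n false (n true (z 45) e) (n false e e)) e) (n true (n false e e) e)) (n false (n false e e) e)) (u 32 4 (k v (k (t 96 1 (u 64 4 (k v (k v r)))) r)))
 .z .z)) (.s 0x75caaaa003b840 4080 (n false (n false (n false (n true (z 128) e) (n true (n false (n true (n false e e) e) (n false e e)) e)) e) e) (u 16 14 (k v (k v (k (c 32 4097 r r) (k (c 32 4095 r r) (k (c 32 4095 r (u 48 0 (k v (k v r)))) (k (c 48 4095 r (u 32 1 (k v (k v r)))) (k (c 32 4095 r r) (k (c 32 4095 r (u 48 1 (k v (k v r)))) r)))))))))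
 (.s 0x75caaaa002b840 4078 (n false (n false (n false (n true (z 128) e) (n false (n false (n true (n false e e) e) (n false e e)) e)) e) e) (u 16 15 (k v (k (c 48 4097 r r) (k (c 32 4095 r r) (k (c 32 4095 r (u 48 0 (k v (k v r)))) (k (c 48 4097 r (u 32 1 (k v (k v r)))) (k (c 48 4095 r (u 32 1 (k v (k v r)))) (k (c 32 4095 r r) (k (c 32 4095 r (u 48 1 (k v (k v r)))) r)))))))))
 .z .z) (.s 0x75caef8008ee10 4070 (n false (n false (n false (n true (z 52) e) e) (n false e e)) (n true (n false (n true (n false e e) e) (n false e e)) e)) (u 16 110 (k v (k v (k v (k v (k v r))))))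
 .z .z))) (.s 0x75d4efb8010e80 4070 (n false (n false (n false (n true (n false (n false (z 45) e) (n false e e)) e) (n true (n false (n false e e) e) e)) e) e) (u 64 8 (k v (k v (k (t 192 1 (u 128 55 (k v (k v (k r (k (u 256 0 (k (t 512 3 (t 768 1 v)) r)) (k (u 256 6 (k v (k v (k v (k v r))))) (k (u 256 3 (k v (k v r))) r)))))))) r))))
 (.s 0x75d4bffc010e80 4070 (n false (n false (n false (n true (n false (n false (z 126) e) (n false e e)) e) (n true (n false (n false e e) e) e)) e) e) (u 64 0 (k r (k (t 192 1 (u 128 17 (k v (k v (k (c 256 4096 r (u 384 1 (k v (k v r)))) r))))) (k r (k r r)))))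
 (.s 0x75d3afb0021708 4068 (n false (n false (n false (n true (n false (z 89) e) e) (n false e e)) e) (n false (n true (n false e e) e) (n false e e))) (u 32 5 (k v (k v (k v (k (t 96 2 (u 64 6 (k v (k v (k (t 192 1 (u 128 0 (k v (k v r)))) r))))) r)))))
 .z .z) (.s 0x75d4eef8010e80 4070 (n false (n false (n false (n true (n false (n false (z 53) e) (n false e e)) e) (n true (n false (n false e e) e) e)) e) e) (u 64 0 (k (t 192 1 (u 128 17 (k v (k v (k (u 256 1 (k v (k v r))) (k (u 256 1 (k v (k v r))) (k (c 384 4097 r (u 256 1 (k v (k v r)))) (k (c 256 4095 r (u 384 1 (k v (k v r)))) r)))))))) (k (t 192 1 (u 128 17 (k v (k v (k (u 256 12 (k v (k v r))) (k (c 384 4096 r (c 12 4093 v (c 4 4073 r v))) (k (c 256 4099 r (u 384 63 (k v (k v (k v (k v (k v r))))))) r))))))) r)))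
 .z .z)) (.s 0x75f2bbe0021708 4065 (n false (n false (n false (n true (n true (z 52) e) e) (n false e e)) e) (n false (n true (n false e e) e) (n false e e))) (u 32 23 (k v (k v (k v (k v (k v (k v (k v (k (t 96 2 (u 64 0 (k (u 128 2 (k v (k (c 16 4078 (u 16 1 (k v (k v r))) v) r))) r))) (k (t 96 1 (u 64 0 (k (c 192 4099 r (u 128 2 (k v (k (c 16 4078 (u 16 1 (k v (k v r))) v) r)))) r))) r))))))))))
 (.s 0x75f2bbe0011d10 4074 (n false (n false (n false (n true (n true (z 52) e) e) e) (n false e e)) (n true (n false (n false e e) (n false e e)) e)) (u 32 108 (k v (k v (k v (k v (k v r))))))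
 .z .z) .z))) (.s 0x772bbe00741708 4066 (n false (n false (n true (z 52) e) (n true (n false (n false e e) e) e)) (n false (n true (n false e e) e) (n false e e))) (u 8 352 (k v (k v (k v (k v (k v (k v r)))))))
 (.s 0x772aae0070ee10 4080 (n false (n false (n true (z 32) e) (n true (n false e e) e)) (n true (n false (n true (n false e e) e) (n false e e)) e)) (c 3 4091 v (u 8 0 (k (t 16 3 (t 24 1 v)) r)))
 (.s 0x75f2ffe0021708 4065 (n false (n false (n false (n true (n true (z 62) e) e) (n false e e)) e) (n false (n true (n false e e) e) (n false e e))) (u 32 8 (k v (k v (k v (k v (k (t 96 1 (u 64 6 (k v (k v (k (t 192 1 (u 128 0 (k v (k v r)))) r))))) r))))))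
 (.s 0x75f2bbe003b840 4078 (n false (n false (n false (n true (n true (z 52) e) e) (n true (n false (n true (n false e e) e) (n false e e)) e)) e) e) (u 32 168 (k v (k v (k v (k v (k (t 96 1 (u 64 2 (k v (k v r)))) r))))))
 .z .z) (.s 0x75f3fbe0021708 4068 (n false (n false (n false (n true (n true (z 55) e) e) (n false e e)) e) (n false (n true (n false e e) e) (n false e e))) (u 32 4 (k (t 96 1 (u 64 29 (k v (k v (k v (k (u 128 2 (k v (k v r))) (k (u 128 2 (k v (k v r))) r))))))) (k (c 16 4091 (t 6 2 r) v) r)))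
 .z .z)) (.s 0x772bbe0045d108 4081 (n false (n false (n true (n false (n false e e) (n false e e)) e) (n false e e)) (n false (n true (z 52) e) (n false e e))) (u 9 112 (k v (k v (k v (k v (k v (k v (k v (k v (k (c 2 4090 v r) r))))))))))
 (.s 0x772afe0047dc20 4066 (n false (n false (n true (z 56) e) (n false e e)) (n true (n true (n false (n true (n false e e) e) (n false e e)) e) e)) (u 8 1 (k (u 16 1 (k v (k v r))) (k (u 16 90 (k v (k v (k v (k v (k v (k v (k v r)))))))) (k (c 16 4096 r (u 24 0 (k v (k v r)))) (k (c 24 4096 r r) r)))))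
 .z .z) .z)) (.s 0x772bfa8008ae10 4072 (n false (n false (n true (z 156) e) (n false e e)) (n false (n false (n true (n false e e) e) (n false e e)) e)) (u 8 1 (k v (k (c 24 4099 r (u 16 1 (k v (k v r)))) (k (c 16 4098 r (u 24 1 (k v (k v r)))) (k (c 16 4097 r (u 24 1 (k v (k v r)))) (k (c 16 4099 r (u 24 1 (k v (k v r)))) (k (c 16 4095 r (u 24 0 (k v (k v r)))) r)))))))
 (.s 0x772bfa80075c20 4081 (n false (n false (n true (z 156) e) e) (n true (n false (n false (n true (n false e e) e) (n false e e)) e) e)) (u 8 8 (k v (k v (k (c 24 4099 r (u 16 1 (k v (k v r)))) (k (c 16 4098 r (u 24 1 (k v (k v r)))) (k (c 16 4097 r (u 24 1 (k v (k v r)))) (k (c 16 4099 r (u 24 1 (k v (k v r)))) r)))))))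
 (.s 0x772bbe00741d10 4071 (n false (n false (n true (z 52) e) (n true (n false (n false e e) e) e)) (n true (n false (n false e e) (n false e e)) e)) (u 8 63 (k v (k v (k v (k v (k v r))))))
 .z .z) (.s 0x772bfa8007dc20 4077 (n false (n false (n true (z 156) e) e) (n true (n true (n false (n true (n false e e) e) (n false e e)) e) e)) (u 8 8 (k v (k v (k (c 24 4099 r (u 16 1 (k v (k v r)))) (k (c 16 4098 r (u 24 1 (k v (k v r)))) (k (c 16 4097 r (u 24 1 (k v (k v r)))) (k (c 16 4099 r (u 24 1 (k v (k v r)))) r)))))))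
 .z .z)) (.s 0x772bfa800e1f40 4084 (n false (n false (n true (z 156) e) (n true (n false e e) e)) (n true (n true (n false (n false e e) e) e) e)) (u 8 8 (k v (k v (k (c 24 4099 r (u 16 1 (k v (k v r)))) (k (c 16 4098 r (u 24 1 (k v (k v r)))) (k (c 16 4097 r (u 24 1 (k v (k v r)))) (k (c 16 4099 r (u 24 1 (k v (k v r)))) r)))))))
 (.s 0x772bfa8008ee10 4068 (n false (n false (n true (z 156) e) (n false e e)) (n true (n false (n true (n false e e) e) (n false e e)) e)) (u 8 1 (k v (k (c 24 4099 r (u 16 1 (k v (k v r)))) (k (c 16 4098 r (u 24 1 (k v (k v r)))) (k (c 16 4097 r (u 24 1 (k v (k v r)))) (k (c 16 4099 r (u 24 1 (k v (k v r)))) (k (c 16 4095 r (u 24 0 (k v (k v r)))) r)))))))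
 .z .z) .z))))

set_option maxRecDepth 100000 in
def N80 : NT :=
(.s 0x773bae0047dc20 4068 (n false (n false (n true (z 37) e) (n false e e)) (n true (n true (n false (n true (n false e e) e) (n false e e)) e) e)) (u 8 9 (k v (k (u 16 4 (k (t 48 1 (u 32 16 (k v (k v (k (u 64 2 (k v (k v r))) r))))) (k (c 8 4091 (t 6 2 r) v) r))) (k (u 16 0 (k (t 32 3 (t 48 1 v)) r)) (k (u 16 0 (k (t 32 3 (t 48 1 v)) r)) (k (u 16 2 (k v (k v (k v (k (t 48 1 (u 32 0 (k (t 64 3 (t 96 1 v)) r))) r))))) (k (u 16 2 (k v (k v (k v (k (t 48 1 (u 32 0 (k (t 64 3 (t 96 1 v)) r))) r))))) r)))))))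
 (.s 0x772fee00475c20 4070 (n false (n false (n true (z 46) e) (n false e e)) (n true (n false (n false (n true (n false e e) e) (n false e e)) e) e)) (u 8 1 (k v (k (u 16 1 (k v (k v r))) (k (c 24 4099 r (u 16 0 (k v (k v r)))) (k (u 16 1 (k v (k v r))) (k (c 24 4097 r (u 16 1 (k v (k v r)))) (k (c 16 4095 r (u 24 1 (k v (k v r)))) r)))))))
 (.s 0x772eee002a2288 4084 (n false (n false (n true (z 42) e) e) (n false (n false (n false e e) (n false e e)) (n false (n false e e) (n false e e)))) (u 8 62 (k v (k v (k (u 16 2 (k v (k v r))) (k (u 16 1 (k v (k (u 32 9 (k v (k v (k (t 96 2 (u 64 40 (k v (k v (k v r))))) (k (c 32 4097 r v) r))))) (k (c 48 4096 r (c 3 4101 v (u 32 1 (k v (k v r))))) r)))) (k (c 3 4101 v r) (k (c 3 4101 v r) r)))))))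
 (.s 0x772bff0047dc20 4065 (n false (n false (n true (z 124) e) (n false e e)) (n true (n true (n false (n true (n false e e) e) (n false e e)) e) e)) (u 8 1 (k v (k (c 24 4097 r (u 16 1 (k v (k v r)))) (k (c 24 4096 r (u 16 1 (k v (k v r)))) (k (c 16 4098 r (u 24 0 (k v (k v r)))) (k (c 24 4096 r (u 16 1 (k v (k v r)))) (k (c 24 4097 r (u 16 1 (k v (k v r)))) (k (c 24 4097 r (u 16 1 (k v (k v r)))) (k (c 24 4096 r (u 16 1 (k v (k v r)))) (k (c 24 4099 r (u 16 1 (k v (k v r)))) (k (c 16 4097 r (u 24 1 (k v (k v r)))) r)))))))))))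
 (.s 0x772bff00475110 4074 (n false (n false (n true (z 124) e) (n false e e)) (n true (n false (n false (n false e e) (n false e e)) (n false e e)) e)) (u 8 5 (k v (k (c 24 4097 r (u 16 1 (k v (k v r)))) (k (c 24 4096 r (u 16 1 (k v (k v r)))) (k (c 16 4098 r (u 24 0 (k v (k v r)))) (k (c 24 4096 r (u 16 1 (k v (k v r)))) (k (c 24 4097 r (u 16 1 (k v (k v r)))) (k (c 24 4097 r (u 16 1 (k v (k v r)))) (k (c 24 4096 r (u 16 1 (k v (k v r)))) (k (c 16 4097 r (u 24 1 (k v (k v r)))) r))))))))))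
 .z .z) (.s 0x772ebe0047dc20 4066 (n false (n false (n true (z 50) e) (n false e e)) (n true (n true (n false (n true (n false e e) e) (n false e e)) e) e)) (u 8 1 (k v (k (c 24 4097 r (u 16 0 (k v (k v r)))) r)))
 .z .z)) (.s 0x772efb0047dc20 4065 (n false (n false (n true (z 90) e) (n false e e)) (n true (n true (n false (n true (n false e e) e) (n false e e)) e) e)) (u 8 2 (k v (k r (k (c 24 4097 r (u 16 1 (k v (k (c 48 4097 r (u 32 0 (k v (k v r)))) r)))) (k r (k (c 24 4096 r r) (k (c 24 4097 r r) (k r (k (c 24 4095 r r) (k (c 16 4095 r r) r))))))))))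
 (.s 0x772efb00475110 4074 (n false (n false (n true (z 90) e) (n false e e)) (n true (n false (n false (n false e e) (n false e e)) (n false e e)) e)) (u 8 5 (k v (k (u 16 43 (k v (k v (k v r)))) (k (c 24 4097 r (u 16 1 (k v (k (c 48 4097 r (u 32 0 (k v (k v r)))) r)))) (k r (k (c 24 4096 r r) (k (c 24 4097 r r) (k (u 16 6 (k v (k v (k (c 48 4097 r (u 32 1 (k v (k v r)))) (k (c 48 4096 r (u 32 1 (k v (k v r)))) (k (c 48 4097 r (u 32 1 (k v (k v r)))) r)))))) (k (c 24 4095 r r) (k (c 16 4095 r r) r))))))))))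
 .z .z) (.s 0x772fee00475110 4073 (n false (n false (n true (z 46) e) (n false e e)) (n true (n false (n false (n false e e) (n false e e)) (n false e e)) e)) (u 8 6 (k v (k v (k (u 16 1 (k v (k v r))) (k (c 24 4099 r (u 16 0 (k v (k v r)))) (k (u 16 1 (k v (k v r))) (k (c 24 4097 r (u 16 1 (k v (k v r)))) r)))))))
 .z .z))) (.s 0x773aff0047dc20 4067 (n false (n false (n true (z 121) e) (n false e e)) (n true (n true (n false (n true (n false e e) e) (n false e e)) e) e)) (u 8 1 (k v (k (c 24 4099 r (u 16 1 (k v (k v r)))) (k (c 16 4097 r (u 24 1 (k v (k v r)))) (k (c 16 4095 r (u 24 0 (k v (k v r)))) (k (c 16 4095 r (u 24 0 (k v (k v r)))) r))))))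
 (.s 0x773aff00475110 4073 (n false (n false (n true (z 121) e) (n false e e)) (n true (n false (n false (n false e e) (n false e e)) (n false e e)) e)) (u 8 3 (k v (k v (k (c 24 4099 r (u 16 1 (k v (k v r)))) (k (c 16 4097 r (u 24 1 (k v (k v r)))) r)))))
 (.s 0x772fee0047dc20 4065 (n false (n false (n true (z 46) e) (n false e e)) (n true (n true (n false (n true (n false e e) e) (n false e e)) e) e)) (u 8 2 (k v (k (c 24 4099 r (u 16 0 (k v (k v r)))) (k (u 16 1 (k v (k v r))) (k (u 16 1 (k v (k v r))) (k (c 24 4097 r (u 16 1 (k v (k v r)))) (k (c 16 4095 r (u 24 1 (k v (k v r)))) r)))))))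
 .z .z) (.s 0x773aff00475c20 4070 (n false (n false (n true (z 121) e) (n false e e)) (n true (n false (n false (n true (n false e e) e) (n false e e)) e) e)) (u 8 1 (k v (k (c 24 4099 r (u 16 1 (k v (k v r)))) (k (c 16 4097 r (u 24 1 (k v (k v r)))) (k (c 16 4095 r (u 24 0 (k v (k v r)))) (k (c 16 4095 r (u 24 0 (k v (k v r)))) r))))))
 .z .z)) (.s 0x773bae00475c20 4070 (n false (n false (n true (z 37) e) (n false e e)) (n true (n false (n false (n true (n false e e) e) (n false e e)) e) e)) (u 8 0 (k v (k (u 16 0 (k (t 32 3 (t 48 1 v)) r)) (k (u 16 0 (k (t 32 3 (t 48 1 v)) r)) (k (u 16 2 (k v (k v (k v (k (t 48 1 (u 32 0 (k (t 64 3 (t 96 1 v)) r))) r))))) (k (u 16 2 (k v (k v (k v (k (t 48 1 (u 32 0 (k (t 64 3 (t 96 1 v)) r))) r))))) (k (u 16 9 (k v (k v r))) r)))))))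
 (.s 0x773bae00475110 4073 (n false (n false (n true (z 37) e) (n false e e)) (n true (n false (n false (n false e e) (n false e e)) (n false e e)) e)) (u 8 0 (k v (k (u 16 0 (k (t 32 3 (t 48 1 v)) r)) (k (u 16 0 (k (t 32 3 (t 48 1 v)) r)) (k (u 16 0 (k v (k v (k (t 48 1 (u 32 0 (k (t 64 3 (t 96 1 v)) r))) r)))) (k (u 16 0 (k v (k v (k (t 48 1 (u 32 0 (k (t 64 3 (t 96 1 v)) r))) r)))) (k (c 8 4095 r v) r)))))))
 .z .z) .z))) (.s 0x773efb0047dc20 4064 (n false (n false (n true (z 91) e) (n false e e)) (n true (n true (n false (n true (n false e e) e) (n false e e)) e) e)) (u 8 2 (k v (k v (k (u 16 1 (k v (k v r))) (k (c 16 4097 r (u 24 0 (k v (k v r)))) (k (c 16 4097 r (u 24 0 (k v (k v r)))) (k (c 16 4096 r (u 24 0 (k v (k v r)))) (k (c 16 4095 r (u 24 0 (k v (k v r)))) r))))))))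
 (.s 0x773eee0070ae10 4077 (n false (n false (n true (z 43) e) (n true (n false e e) e)) (n false (n false (n true (n false e e) e) (n false e e)) e)) (u 8 0 (k v (k r (k (c 24 4099 r (u 16 0 (k (u 32 0 (k v (k v r))) r))) (k r (k (c 3 4091 v r) (k (u 16 0 (k (u 32 0 (k v (k v r))) r)) (k r (k r r)))))))))
 (.s 0x773bbb0047dc20 4065 (n false (n false (n true (z 85) e) (n false e e)) (n true (n true (n false (n true (n false e e) e) (n false e e)) e) e)) (u 8 4 (k v (k (c 24 4099 r r) (k r (k (c 24 4099 r r) (k r (k (c 24 4096 r r) (k (c 16 4099 r r) r))))))))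
 (.s 0x773bbb00475110 4074 (n false (n false (n true (z 85) e) (n false e e)) (n true (n false (n false (n false e e) (n false e e)) (n false e e)) e)) (u 8 4 (k v (k (c 24 4099 r r) (k (t 24 1 (u 16 3 (k v (k v r)))) (k (c 24 4099 r (u 16 5 (k v (k v r)))) (k (u 16 12 (k v (k v r))) (k (c 24 4096 r (c 8 4095 r v)) (k (c 16 4099 r r) r))))))))
 .z .z) (.s 0x773eae005c23a0 4079 (n false (n false (n true (z 35) e) (n false (n true (n false e e) e) (n false e e))) (n true (n false (n false e e) e) e)) (u 8 2 (k v (k v (k v (k (t 24 1 (u 16 0 (k (t 32 3 (t 48 1 v)) r))) r)))))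
 .z .z)) (.s 0x773efb00475110 4073 (n false (n false (n true (z 91) e) (n false e e)) (n true (n false (n false (n false e e) (n false e e)) (n false e e)) e)) (u 8 11 (k v (k (u 16 1 (k v (k v r))) (k (c 16 4097 r (u 24 0 (k v (k v r)))) (k (c 16 4097 r (u 24 0 (k v (k v r)))) (k (c 16 4096 r (u 24 0 (k v (k v r)))) (k (c 16 4095 r (u 24 0 (k v (k v r)))) r)))))))
 (.s 0x773eee0070ee10 4076 (n false (n false (n true (z 43) e) (n true (n false e e) e)) (n true (n false (n true (n false e e) e) (n false e e)) e)) (u 8 0 (k v (k r (k (c 24 4099 r (u 16 0 (k (u 32 0 (k v (k v r))) r))) (k r (k (c 3 4091 v r) (k (u 16 0 (k (u 32 0 (k v (k v r))) r)) (k r (k r r)))))))))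
 .z .z) .z)) (.s 0x773fbe0045d108 4081 (n false (n false (n true (z 55) e) (n false e e)) (n false (n true (n false (n false e e) (n false e e)) e) (n false e e))) (u 8 1 (k v (k (t 24 1 (u 16 14 (k v (k (c 48 4099 r (t 32 3 v)) (k (c 3 4090 v r) (k (c 3 4090 v r) (k (c 3 4090 v r) (k (c 3 4090 v r) r)))))))) r)))
 (.s 0x773fab0047dc20 4068 (n false (n false (n true (z 71) e) (n false e e)) (n true (n true (n false (n true (n false e e) e) (n false e e)) e) e)) (u 8 1 (k v (k (c 24 4099 r (u 16 1 (k v (k v r)))) (k (u 16 0 (k v (k v r))) (k (c 16 4099 r (u 24 1 (k v (k v r)))) (k (c 16 4099 r (u 24 1 (k v (k v r)))) (k (c 16 4099 r (u 24 1 (k v (k v r)))) r)))))))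
 (.s 0x773fab00475110 4077 (n false (n false (n true (z 71) e) (n false e e)) (n true (n false (n false (n false e e) (n false e e)) (n false e e)) e)) (u 8 1 (k v (k (c 24 4099 r (u 16 1 (k v (k v r)))) (k (u 16 0 (k v (k v r))) (k (c 16 4099 r (u 24 1 (k v (k v r)))) (k (c 16 4099 r (u 24 1 (k v (k v r)))) (k (c 16 4099 r (u 24 1 (k v (k v r)))) r)))))))
 .z .z) (.s 0x773fbb0045f440 4076 (n false (n false (n true (z 87) e) (n false e e)) (n false (n true (n true (n false (n false e e) (n false e e)) e) e) e)) (u 8 18 (k v (k v (k v (k v r)))))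
 .z .z)) (.s 0x773fbf0047dc20 4069 (n false (n false (n true (z 119) e) (n false e e)) (n true (n true (n false (n true (n false e e) e) (n false e e)) e) e)) (u 8 0 (k v (k (c 24 4101 r r) (k (c 24 4096 r r) (k (c 24 4096 r r) (k (c 24 4099 r r) (k (c 24 4097 r r) (k (c 24 4096 r (u 16 0 (k (u 32 0 (k v (k v r))) r))) (k (c 16 4098 r r) (k (c 16 4101 r r) (k (c 16 4099 r r) (k (c 16 4101 r r) r))))))))))))
 (.s 0x773fbf00475c20 4071 (n false (n false (n true (z 119) e) (n false e e)) (n true (n false (n false (n true (n false e e) e) (n false e e)) e) e)) (u 8 0 (k v (k (c 24 4101 r r) (k (c 24 4096 r r) (k (c 24 4096 r r) (k (c 24 4099 r r) (k (c 24 4097 r r) (k (c 24 4096 r (u 16 0 (k (u 32 0 (k v (k v r))) r))) (k (c 16 4098 r r) (k (c 16 4101 r r) (k (c 16 4099 r r) (k (c 16 4101 r r) r))))))))))))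
 .z .z) .z))))

set_option maxRecDepth 100000 in
def N81 : NT :=
(.s 0x774fbec0382288 4080 (n false (n false (n true (n false (z 91) (n true (n false e e) e)) e) (n false e e)) (n false (n false e e) (n false e e))) (u 16 4 (k v (k v (k (u 32 1 (k v (k v r))) (k (c 32 4097 r (u 48 0 (k v (k v r)))) (k (c 32 4097 r (u 48 0 (k v (k v r)))) (k (c 32 4096 r (u 48 0 (k v (k v r)))) (k (c 32 4095 r (u 48 0 (k v (k v r)))) r))))))))
 (.s 0x774ebec008ee10 4066 (n false (n false (n true (n false (z 89) e) e) (n false e e)) (n true (n false (n true (n false e e) e) (n false e e)) e)) (u 16 2 (k v (k v (k v (k (t 48 2 (u 32 6 (k v (k v (k (t 96 1 (u 64 0 (k v (k v r)))) r))))) r)))))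
 (.s 0x774aef80211708 4075 (n false (n false (n true (n false (z 52) (n false e e)) e) (n false e e)) (n false (n true (n false e e) e) (n false e e))) (u 16 40 (k v (k v (k v (k v (k (t 48 1 (u 32 0 (k v (k v r)))) r))))))
 (.s 0x774abf80382288 4075 (n false (n false (n true (n false (z 56) (n true (n false e e) e)) e) (n false e e)) (n false (n false e e) (n false e e))) (u 16 0 (k (u 32 187 (k v (k v (k v (k v (k v (k v (k v (k (t 96 1 (u 64 0 (k v (k v r)))) (k (t 96 1 (u 64 0 (k (c 192 4099 r (u 128 2 (k v (k (c 4 4077 r v) r)))) r))) r)))))))))) (k (c 32 4096 r (u 48 0 (k v (k v r)))) (k (u 32 1 (k v (k v r))) (k (c 48 4096 r r) r)))))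
 (.s 0x774aaac021dc20 4077 (n false (n false (n true (n false (z 64) (n false e e)) e) (n true (n false (n true (n false e e) e) (n false e e)) e)) e) (u 16 0 (k (c 48 4099 r (u 32 2 (k v (k (u 64 2 (k v (k v r))) r)))) r))
 .z .z) (.s 0x774aeb8021dc20 4074 (n false (n false (n true (n false (z 36) (n false e e)) e) (n true (n false (n true (n false e e) e) (n false e e)) e)) e) (u 16 0 (k (u 32 2 (k v (k (u 64 2 (k v (k v r))) r))) r))
 .z .z)) (.s 0x774baf80382288 4082 (n false (n false (n true (n false (z 50) (n true (n false e e) e)) e) (n false e e)) (n false (n false e e) (n false e e))) (u 16 1 (k v (k (c 48 4097 r (u 32 0 (k v (k v r)))) r)))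
 (.s 0x774aef8021dc20 4076 (n false (n false (n true (n false (z 52) (n false e e)) e) (n true (n false (n true (n false e e) e) (n false e e)) e)) e) (u 16 29 (k v (k v (k v (k (t 48 1 (u 32 3 (k v (k v r)))) r)))))
 .z .z) (.s 0x774bfb80382288 4080 (n false (n false (n true (n false (z 46) (n true (n false e e) e)) e) (n false e e)) (n false (n false e e) (n false e e))) (u 16 1 (k v (k r (k (c 48 4099 r (u 32 0 (k v (k v r)))) (k (c 4 4083 r v) (k (c 48 4097 r r) (k (c 32 4095 r r) r)))))))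
 .z .z))) (.s 0x774eeec0382288 4081 (n false (n false (n true (n false (z 85) (n true (n false e e) e)) e) (n false e e)) (n false (n false e e) (n false e e))) (u 16 29 (k v (k (c 48 4099 r r) (k (c 48 4099 r (u 32 4 (k r (k r r)))) (k (c 4 4081 r v) (k (c 48 4101 r (u 32 0 (k (t 96 1 (u 64 0 (k (t 128 3 (t 192 3 v)) r))) r))) (k (c 48 4096 r (u 32 4 (k r (k r r)))) (k (c 32 4099 r r) r))))))))
 (.s 0x774ebfc0382288 4079 (n false (n false (n true (n false (z 121) (n true (n false e e) e)) e) (n false e e)) (n false (n false e e) (n false e e))) (u 16 1 (k v (k (c 48 4099 r (u 32 1 (k v (k v r)))) (k (c 32 4097 r r) (k (c 32 4095 r (c 4 4080 r v)) (k (c 32 4095 r (c 4 4080 r v)) r))))))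
 (.s 0x774ebec00fb840 4067 (n false (n false (n true (n false (z 89) e) e) (n true (n true (n false (n true (n false e e) e) (n false e e)) e) e)) e) (u 16 5 (k v (k v (k v (k (t 48 2 (u 32 6 (k v (k v (k (t 96 1 (u 64 0 (k v (k v r)))) r))))) r)))))
 .z .z) (.s 0x774eeb80382288 4080 (n false (n false (n true (n false (z 37) (n true (n false e e) e)) e) (n false e e)) (n false (n false e e) (n false e e))) (u 16 0 (k v (k (u 32 0 (k (t 64 3 (t 96 1 v)) r)) (k (c 4 4085 (u 8 0 (k (t 16 3 (t 24 1 v)) r)) v) (k r (k r (k r r)))))))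
 .z .z)) (.s 0x774fab8008ee10 4069 (n false (n false (n true (n false (z 35) e) e) (n false e e)) (n true (n false (n true (n false e e) e) (n false e e)) e)) (u 16 2 (k v (k v (k v (k (t 48 1 (u 32 0 (k (t 64 3 (t 96 1 v)) r))) r)))))
 (.s 0x774faac008ba08 4080 (n false (n false (n true (n false (z 67) e) e) (n false e e)) (n false (n true (n false (n false e e) e) e) (n false e e))) (u 16 71 (k v (k v (k (c 48 4101 r (u 32 1 (k v (k v r)))) (k (c 32 4101 r (u 48 1 (k v (k v r)))) (k (c 32 4101 r (u 48 1 (k v (k v r)))) r))))))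
 .z .z) .z))) (.s 0x77573fbe004210 4081 (n false (n false (n true (n false (n false (n false (n true (z 55) e) (n false e e)) e) (n false e e)) e) (n false e e)) e) (u 128 1 (k v (k (t 384 1 (u 256 14 (k v (k (c 768 4099 r (t 512 3 v)) (k (c 16 4089 r v) (k (c 16 4087 r v) (k (c 16 4084 r v) (k (c 16 4086 r v) r)))))))) r)))
 (.s 0x77552fff004380 4071 (n false (n false (n true (n false (n false (n false (n false (z 126) e) (n false e e)) e) (n true (n false e e) e)) e) e) e) (u 128 2 (k v (k (t 384 1 (u 256 21 (k v (k v (k v (k (c 512 4097 r (u 768 1 (k v (k v r)))) r)))))) (k (t 384 1 (u 256 17 (k v (k v (k (c 512 4096 r (u 768 1 (k v (k v r)))) r))))) r))))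
 (.s 0x7752fff0043850 4066 (n false (n false (n true (n false (n false (z 126) e) (n false e e)) e) (n true (n false e e) e)) (n false (n false e e) e)) (u 32 0 (k (t 96 1 (u 64 1 (k v (k (c 192 4099 r (u 128 1 (k v (k v r)))) (k (c 128 4097 r (u 192 1 (k v (k v r)))) (k (c 128 4095 r (u 192 0 (k v (k v r)))) (k (c 128 4095 r (u 192 0 (k v (k v r)))) r))))))) (k (t 96 1 r) (k (t 96 2 (u 64 0 (k (c 192 4096 r r) (k (c 192 4096 r r) (k (c 192 4096 r r) (k (c 192 4096 r r) (k (c 192 4096 r r) r))))))) (k (t 96 2 (u 64 0 (k (c 192 4096 r r) (k (c 192 4096 r r) (k (c 192 4096 r r) (k (c 192 4097 r (u 128 7 (k v (k v (k v (k (c 384 4099 r (u 256 1 (k v (k v r)))) r)))))) (k (c 192 4096 r r) (k (c 192 4096 r r) r)))))))) r)))))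
 (.s 0x774fef8008ee10 4069 (n false (n false (n true (n false (z 55) e) e) (n false e e)) (n true (n false (n true (n false e e) e) (n false e e)) e)) (u 16 4 (k (t 48 1 (u 32 28 (k v (k v (k v (k (u 64 2 (k v (k v r))) (k (u 64 6 (k v (k v r))) r))))))) (k (c 8 4091 (t 6 2 r) v) r)))
 .z .z) (.s 0x7753bbe0043850 4066 (n false (n false (n true (n false (n false (z 53) e) (n false e e)) e) (n true (n false e e) e)) (n false (n false e e) e)) (u 32 0 (k (t 96 1 (u 64 1 (k v (k (u 128 1 (k v (k v r))) (k (c 192 4099 r (u 128 0 (k v (k v r)))) (k (u 128 1 (k v (k v r))) (k (c 192 4097 r (u 128 1 (k v (k v r)))) (k (c 128 4095 r (u 192 1 (k v (k v r)))) r)))))))) (k (t 96 1 r) r)))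
 .z .z)) (.s 0x77572bbe004210 4081 (n false (n false (n true (n false (n false (n false (n true (z 52) e) (n false e e)) e) (n false e e)) e) (n false e e)) e) (u 128 96 (k v (k v (k v (k v (k v (k v (k v (k v (k v (k (c 16 4087 r v) r)))))))))))
 (.s 0x77553bbe004380 4071 (n false (n false (n true (n false (n false (n false (n false (z 53) e) (n false e e)) e) (n true (n false e e) e)) e) e) e) (u 128 0 (k (t 384 1 (u 256 13 (k v (k v (k v (k (u 512 1 (k v (k v r))) (k (u 512 1 (k v (k v r))) (k (c 768 4097 r (u 512 1 (k v (k v r)))) r)))))))) (k (t 384 1 (u 256 13 (k v (k v (k v (k (u 512 12 (k v (k v r))) (k (c 512 4099 r (u 768 63 (k v (k v (k v (k v (k v r))))))) r))))))) r)))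
 .z .z) .z)) (.s 0x77773bee004380 4068 (n false (n false (n true (n false (n true (n false (n true (z 45) e) (n false e e)) e) (n true (n false e e) e)) e) e) e) (u 128 1 (k v (k (t 384 1 (u 256 0 (k v (k (u 512 0 (k (t 1024 3 (t 1536 1 v)) r)) (k (u 512 0 (k (t 1024 3 (t 1536 1 v)) r)) (k (u 512 4 (k v (k v (k v (k v r))))) (k (u 512 6 (k v (k v (k v (k v r))))) (k (u 512 3 (k v (k v r))) r)))))))) (k (t 384 2 (u 256 12 (k v (k v (k (c 768 4099 r r) (k (c 768 4099 r r) (k (u 512 12 (k v (k v r))) (k (c 768 4096 r r) (k (c 512 4099 r r) r))))))))) r))))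
 (.s 0x77753bbe004380 4065 (n false (n false (n true (n false (n true (n false (n false (z 53) e) (n false e e)) e) (n true (n false e e) e)) e) e) e) (u 128 0 (k (t 384 1 (u 256 1 (k v (k (u 512 1 (k v (k v r))) (k (c 768 4099 r (u 512 0 (k v (k v r)))) (k (u 512 1 (k v (k v r))) (k (c 768 4097 r (u 512 1 (k v (k v r)))) (k (c 512 4095 r (u 768 1 (k v (k v r)))) r)))))))) (k (t 384 1 r) r)))
 (.s 0x77752fff004380 4065 (n false (n false (n true (n false (n true (n false (n false (z 126) e) (n false e e)) e) (n true (n false e e) e)) e) e) e) (u 128 0 (k r (k r (k (t 384 2 (u 256 0 (k (c 768 4096 r r) (k (c 768 4096 r r) (k (c 768 4096 r r) (k (c 768 4096 r r) (k (c 768 4096 r r) r))))))) (k r r)))))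
 .z .z) (.s 0x77753bee004380 4066 (n false (n false (n true (n false (n true (n false (n false (z 45) e) (n false e e)) e) (n true (n false e e) e)) e) e) e) (u 128 1 (k v (k (t 384 1 (u 256 0 (k v (k (u 512 0 (k (t 1024 3 (t 1536 1 v)) r)) (k (u 512 0 (k (t 1024 3 (t 1536 1 v)) r)) (k (u 512 38 (k v (k v (k v r)))) (k (u 512 4 (k v (k v (k v (k v r))))) (k (u 512 3 (k v (k v r))) r)))))))) (k (t 384 2 r) r))))
 .z .z)) (.s 0x77caef8008ae10 4068 (n false (n false (n true (n true (z 52) e) e) (n false e e)) (n false (n false (n true (n false e e) e) (n false e e)) e)) (u 16 198 (k v (k v (k v (k v (k v (k v (k v (k v r)))))))))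
 (.s 0x77cabf8008ee10 4069 (n false (n false (n true (n true (z 56) e) e) (n false e e)) (n true (n false (n true (n false e e) e) (n false e e)) e)) (u 16 1 (k (u 32 1 (k v (k v r))) (k (u 32 285 (k v (k v (k v (k v (k v r)))))) (k (c 32 4096 r (u 48 0 (k v (k v r)))) (k (c 48 4096 r r) r)))))
 .z .z) .z))))

set_option maxRecDepth 100000 in
def N82 : NT :=
(.s 0x77ceeec008ee10 4066 (n false (n false (n true (n true (z 85) e) e) (n false e e)) (n true (n false (n true (n false e e) e) (n false e e)) e)) (u 16 4 (k v (k (c 48 4099 r r) (k (c 48 4099 r r) (k (c 48 4099 r (u 32 1 (k v (k v (k v (k (t 96 1 (u 64 6 (k v (k v (k (t 192 1 (u 128 0 (k v (k v r)))) r))))) r)))))) (k (u 32 10 (k v (k v (k v (k (t 96 2 (u 64 6 (k v (k v (k (t 192 1 (u 128 0 (k v (k v r)))) r))))) r))))) (k (c 48 4096 r r) (k (c 32 4099 r r) r))))))))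
 (.s 0x77cbfb8008ba08 4074 (n false (n false (n true (n true (z 46) e) e) (n false e e)) (n false (n true (n false (n false e e) e) e) (n false e e))) (u 16 2 (k v (k (c 48 4099 r (u 32 0 (k v (k v r)))) (k (u 32 1 (k v (k v r))) (k (u 32 1 (k v (k v r))) (k (c 48 4097 r (u 32 1 (k v (k v r)))) (k (c 32 4095 r (u 48 1 (k v (k v r)))) r)))))))
 (.s 0x77cafea001c2a0 4081 (n false (n false (n true (n true (z 156) e) e) (n true (n false e e) e)) (n false (n false (n false e e) e) e)) (u 16 1 (k v (k (c 48 4099 r (u 32 1 (k v (k v r)))) (k (c 32 4098 r (u 48 1 (k v (k v r)))) (k (c 32 4097 r (u 48 1 (k v (k v r)))) (k (c 32 4099 r (u 48 1 (k v (k v r)))) (k (c 32 4095 r (u 48 0 (k v (k v r)))) r)))))))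
 (.s 0x77cafea000ee10 4079 (n false (n false (n true (n true (z 156) e) e) e) (n true (n false (n true (n false e e) e) (n false e e)) e)) (u 16 1 (k v (k (c 48 4099 r (u 32 1 (k v (k v r)))) (k (c 32 4098 r (u 48 1 (k v (k v r)))) (k (c 32 4097 r (u 48 1 (k v (k v r)))) (k (c 32 4099 r (u 48 1 (k v (k v r)))) (k (c 32 4095 r (u 48 0 (k v (k v r)))) r)))))))
 (.s 0x77caef800fb840 4064 (n false (n false (n true (n true (z 52) e) e) (n true (n true (n false (n true (n false e e) e) (n false e e)) e) e)) e) (u 16 193 (k v (k v (k v (k v (k v (k v (k v (k (t 48 2 (u 32 0 (k (u 64 2 (k v (k (c 8 4078 (u 16 1 (k v (k v r))) v) r))) r))) (k (t 48 1 (u 32 0 (k (c 96 4099 r (u 64 2 (k v (k (c 8 4078 (u 16 1 (k v (k v r))) v) r)))) r))) r))))))))))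
 .z .z) (.s 0x77cafea000fa20 4077 (n false (n false (n true (n true (z 156) e) e) e) (n true (n true (n false (n false e e) (n false e e)) e) e)) (u 16 1 (k v (k (c 48 4099 r (u 32 1 (k v (k v r)))) (k (c 32 4098 r (u 48 1 (k v (k v r)))) (k (c 32 4097 r (u 48 1 (k v (k v r)))) (k (c 32 4099 r (u 48 1 (k v (k v r)))) (k (c 32 4095 r (u 48 0 (k v (k v r)))) r)))))))
 .z .z)) (.s 0x77caffc008ba08 4076 (n false (n false (n true (n true (z 124) e) e) (n false e e)) (n false (n true (n false (n false e e) e) e) (n false e e))) (u 16 12 (k v (k v (k (c 48 4097 r (u 32 1 (k v (k v r)))) (k (c 48 4096 r (u 32 1 (k v (k v r)))) (k (c 48 4097 r (u 32 1 (k v (k v r)))) (k (c 48 4097 r (u 32 1 (k v (k v r)))) (k (c 48 4099 r (u 32 1 (k v (k v r)))) (k (c 32 4097 r (u 48 1 (k v (k v r)))) r)))))))))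
 (.s 0x77cafea001c3a0 4078 (n false (n false (n true (n true (z 156) e) e) (n true (n false e e) e)) (n true (n false (n false e e) e) e)) (u 16 1 (k v (k (c 48 4099 r (u 32 1 (k v (k v r)))) (k (c 32 4098 r (u 48 1 (k v (k v r)))) (k (c 32 4097 r (u 48 1 (k v (k v r)))) (k (c 32 4099 r (u 48 1 (k v (k v r)))) (k (c 32 4095 r (u 48 0 (k v (k v r)))) r)))))))
 .z .z) (.s 0x77cbae8008ee10 4067 (n false (n false (n true (n true (z 18) e) e) (n false e e)) (n true (n false (n true (n false e e) e) (n false e e)) e)) (u 16 0 (k (u 32 3 (k v (k v (k v r)))) r))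
 .z .z))) (.s 0x77cebfc008ee10 4072 (n false (n false (n true (n true (z 121) e) e) (n false e e)) (n true (n false (n true (n false e e) e) (n false e e)) e)) (u 16 2 (k v (k v (k (c 48 4099 r (u 32 1 (k v (k v r)))) (k (c 32 4095 r (u 48 0 (k v (k v r)))) (k (c 32 4095 r (u 48 0 (k v (k v r)))) r))))))
 (.s 0x77cbff8008ee10 4063 (n false (n false (n true (n true (z 62) e) e) (n false e e)) (n true (n false (n true (n false e e) e) (n false e e)) e)) (u 16 1 (k v (k v (k v (k (t 48 1 (u 32 6 (k v (k v (k (t 96 1 (u 64 0 (k v (k v r)))) r))))) r)))))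
 (.s 0x77cbfb8008ee10 4065 (n false (n false (n true (n true (z 46) e) e) (n false e e)) (n true (n false (n true (n false e e) e) (n false e e)) e)) (u 16 2 (k v (k (c 48 4099 r (u 32 0 (k v (k v r)))) (k (u 32 1 (k v (k v r))) (k (u 32 0 (k v (k v r))) (k (c 48 4097 r (u 32 1 (k v (k v r)))) (k (c 32 4095 r (u 48 1 (k v (k v r)))) r)))))))
 .z .z) (.s 0x77cbff800fb840 4064 (n false (n false (n true (n true (z 62) e) e) (n true (n true (n false (n true (n false e e) e) (n false e e)) e) e)) e) (u 16 1 (k v (k v (k v (k (t 48 1 (u 32 6 (k v (k v (k (t 96 1 (u 64 0 (k v (k v r)))) r))))) r)))))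
 .z .z)) (.s 0x77ceeb8008ee10 4072 (n false (n false (n true (n true (z 37) e) e) (n false e e)) (n true (n false (n true (n false e e) e) (n false e e)) e)) (u 16 61 (k v (k v (k v (k (u 32 0 (k (t 64 3 (t 96 1 v)) r)) (k (u 32 0 (k v (k v (k (t 96 1 (u 64 0 (k (t 128 3 (t 192 1 v)) r))) r)))) (k (c 8 4088 r v) r)))))))
 (.s 0x77cebfc00e1f40 4081 (n false (n false (n true (n true (z 121) e) e) (n true (n false e e) e)) (n true (n true (n false (n false e e) e) e) e)) (u 16 2 (k v (k v (k (c 48 4099 r (u 32 1 (k v (k v r)))) (k (c 32 4095 r (u 48 0 (k v (k v r)))) (k (c 32 4095 r (u 48 0 (k v (k v r)))) r))))))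
 .z .z) .z))) (.s 0x77cfef8008ee10 4066 (n false (n false (n true (n true (z 55) e) e) (n false e e)) (n true (n false (n true (n false e e) e) (n false e e)) e)) (u 16 4 (k (t 48 1 (u 32 35 (k v (k v (k r (k (t 64 3 (t 96 1 v)) (k (u 64 2 (k v (k v r))) (k (u 64 5 (k v (k v (k (t 192 1 (u 128 10 (k v (k v (k v (k (u 256 0 (k (t 512 3 (t 768 1 v)) r)) (k (u 256 17 (k v (k v (k v r)))) (k (c 128 4095 r v) r)))))))) r)))) r)))))))) (k (t 48 2 r) r)))
 (.s 0x77cfbec00fb840 4067 (n false (n false (n true (n true (z 91) e) e) (n true (n true (n false (n true (n false e e) e) (n false e e)) e) e)) e) (u 16 1 (k v (k v (k v (k (u 32 0 (k v (k v r))) (k (c 32 4097 r (u 48 0 (k v (k v r)))) (k (c 32 4095 r (u 48 0 (k v (k v r)))) r)))))))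
 (.s 0x77cfbec008ae10 4072 (n false (n false (n true (n true (z 91) e) e) (n false e e)) (n false (n false (n true (n false e e) e) (n false e e)) e)) (u 16 1 (k v (k v (k v (k (u 32 0 (k v (k v r))) (k (c 32 4097 r (u 48 0 (k v (k v r)))) (k (c 32 4095 r (u 48 0 (k v (k v r)))) r)))))))
 (.s 0x77cfab8008ee10 4071 (n false (n false (n true (n true (z 35) e) e) (n false e e)) (n true (n false (n true (n false e e) e) (n false e e)) e)) (u 16 2 (k v (k v (k v (k (t 48 1 (u 32 0 (k (t 64 3 (t 96 1 v)) r))) r)))))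
 .z .z) (.s 0x77cfbec008ee10 4065 (n false (n false (n true (n true (z 91) e) e) (n false e e)) (n true (n false (n true (n false e e) e) (n false e e)) e)) (u 16 1 (k v (k v (k v (k (u 32 0 (k v (k v r))) (k (c 32 4097 r (u 48 0 (k v (k v r)))) (k (c 32 4095 r (u 48 0 (k v (k v r)))) r)))))))
 .z .z)) (.s 0x77cfef8007dc20 4078 (n false (n false (n true (n true (z 55) e) e) e) (n true (n true (n false (n true (n false e e) e) (n false e e)) e) e)) (u 16 6 (k v (k (t 48 1 (u 32 10 (k v (k v r)))) r)))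
 (.s 0x77cfef80075c20 4079 (n false (n false (n true (n true (z 55) e) e) e) (n true (n false (n false (n true (n false e e) e) (n false e e)) e) e)) (u 16 6 (k v (k (t 48 1 (u 32 10 (k v (k v r)))) r)))
 .z .z) .z)) (.s 0x77d3eae001c3a0 4078 (n false (n false (n true (n true (n false (z 35) e) e) e) (n true (n false e e) e)) (n true (n false (n false e e) e) e)) (u 32 2 (k v (k v (k v (k (t 96 1 (u 64 0 (k (t 128 3 (t 192 1 v)) r))) r)))))
 (.s 0x77d2bbe00e8088 4078 (n false (n false (n true (n true (n false (n true (n false (n false e e) e) e) (z 52)) e) e) (n false e e)) (n false e e)) (u 48 166 (k v (k v (k v (k v (k (t 112 1 (u 80 2 (k v (k v r)))) r))))))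
 (.s 0x77cfef800fb840 4067 (n false (n false (n true (n true (z 55) e) e) (n true (n true (n false (n true (n false e e) e) (n false e e)) e) e)) e) (u 16 4 (k (t 48 1 (u 32 39 (k v (k v (k r (k (t 64 3 (t 96 1 v)) (k (u 64 2 (k v (k v r))) (k (u 64 9 (k v (k v (k (t 192 1 (u 128 10 (k v (k v (k v (k (u 256 0 (k (t 512 3 (t 768 1 v)) r)) (k (u 256 17 (k v (k v (k v r)))) (k (c 128 4095 r v) r)))))))) r)))) r)))))))) (k (t 48 2 r) r)))
 .z .z) (.s 0x77d2efa00823a0 4064 (n false (n false (n true (n true (n false (z 26) (n false e e)) e) e) (n false e e)) (n true (n false (n false e e) e) e)) (u 32 2 (k v (k (c 8 4082 (u 8 1 (k v (k v r))) v) r)))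
 .z .z)) (.s 0x77f2bbe0011d10 4073 (n false (n false (n true (n true (n true (z 52) e) e) e) (n false e e)) (n true (n false (n false e e) (n false e e)) e)) (u 32 110 (k v (k v (k v (k v (k v r))))))
 (.s 0x77f2bbe0011510 4073 (n false (n false (n true (n true (n true (z 52) e) e) e) (n false e e)) (n false (n false (n false e e) (n false e e)) e)) (u 32 110 (k v (k v (k v (k v (k v r))))))
 .z .z) .z))))

set_option maxRecDepth 100000 in
def N83 : NT :=
(.s 0x7caef801544510 4089 (n false (n true (z 52) e) (n false (n false (n false (n false e e) (n false e e)) (n false (n false e e) (n false e e))) e)) (u 4 79 (k v (k v (k v (k v (k v (k v (k v (k v r)))))))))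
 (.s 0x7caef8013afb00 4091 (n false (z 89) (n true (z 52) e)) (u 5 10 (k r (k r (k r (k r (k (u 2 0 (k v (k v (k v (k (t 6 2 r) r))))) (k (t 13 1 (u 2 31 (k (t 9 1 v) (k r (k r (k (c 6 4099 r (t 9 1 r)) (k r (k (t 6 3 (u 4 0 (k (u 9 0 (k v (k v r))) (k (t 9 1 v) r)))) (k (c 3 4096 (t 4 1 v) (t 4 1 r)) (k (c 3 4096 (t 4 1 v) (t 6 2 r)) r)))))))))) r)))))))
 (.s 0x7caef8012abf00 4093 (n false (z 112) (n true (z 52) e)) (u 5 110 (k r (k r (k r (k r (k (c 2 4097 r v) r))))))
 (.s 0x7cabf8017f4070 4079 (n false (n true (z 56) e) (n false (n true (n true (n true (n false (n false e e) e) e) e) e) (n true (n false e e) e))) (u 4 1 (k (u 8 1 (k v (k v r))) (k (u 8 333 (k v (k v (k v (k v (k v r)))))) (k (c 8 4096 r (u 12 0 (k v (k v r)))) (k (c 12 4096 r r) r)))))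
 (.s 0x7caab8012baf00 4097 (n false (z 100) (n true (z 32) e)) (u 5 0 (k (t 9 3 (t 13 1 (u 2 1 (k v (k r (k (c 3 4101 v (t 6 1 r)) (k r (k r r)))))))) r))
 .z .z) (.s 0x7caef8012aaf00 4091 (n false (z 96) (n true (z 52) e)) (u 5 420 (k r (k (u 2 0 (k (c 6 4099 r r) r)) (k (c 3 4090 v (u 2 0 (k (t 6 2 (u 4 0 (k (c 12 4099 r r) r))) r))) (k (u 2 0 (k (c 6 4099 r r) r)) (k (c 2 4095 r v) (k (c 3 4084 v (u 2 0 (k (t 6 2 (u 4 0 (k (c 12 4099 r r) r))) r))) (k (t 13 1 (u 9 0 (k (u 2 0 (k (c 6 4099 r r) r)) (k r r)))) r))))))))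
 .z .z)) (.s 0x7caef8012baf00 4093 (n false (z 100) (n true (z 52) e)) (u 5 10 (k r (k (t 2 3 v) (k r (k r (k (t 2 3 v) (k (t 13 1 (u 2 0 (k r (k (u 6 0 (k r (k (t 4 1 (t 9 1 v)) (k r r)))) (k (c 4 4097 r r) (k (c 6 4097 r (t 9 1 r)) (k (u 6 0 (k r (k (t 4 1 (t 9 1 v)) (k r r)))) (k r r)))))))) r)))))))
 (.s 0x7caef8012aff00 4094 (n false (z 120) (n true (z 52) e)) (u 5 10 (k r (k (t 2 3 v) (k r (k r (k (t 2 3 v) (k r r)))))))
 .z .z) (.s 0x7caef8012fba00 4089 (n false (n true (z 52) e) (z 22)) (u 3 1 (k (c 2 4096 r v) (k (u 4 286 (k v (k v (k v (k v (k v r)))))) r)))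
 .z .z))) (.s 0x7caef8013efb00 4094 (n false (n true (z 52) e) (z 91)) (u 3 3 (k (c 2 4096 r v) (k r (k (u 5 1 (k r (k r r))) (k (c 5 4097 r (u 7 0 (k r (k r r)))) (k (c 5 4097 r (u 7 0 (k r (k r r)))) (k (c 5 4096 r (u 7 0 (k r (k r r)))) r)))))))
 (.s 0x7caef8013bbb00 4094 (n false (z 85) (n true (z 52) e)) (u 5 4 (k r (k r (k r (k r (k (t 13 1 (u 2 8 (k (u 9 0 (k v (k v r))) (k (c 3 4096 (t 4 1 v) v) (k r (k (c 6 4099 r (u 9 0 (k r (k r r)))) (k (c 6 4101 r (u 9 0 (k r (k r r)))) (k (c 4 4099 r (u 9 0 (k r (k r r)))) r)))))))) r))))))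
 (.s 0x7caef8013aff00 4094 (n false (z 121) (n true (z 52) e)) (u 2 4 (k r (k r (k (c 6 4099 r (u 4 1 (k r (k r r)))) (k (c 4 4097 r (u 6 1 (k r (k r r)))) r)))))
 .z .z) (.s 0x7caef8013bfa00 4089 (n false (n true (z 52) e) (z 29)) (u 4 417 (k r (k r (k (t 3 3 v) (k (t 3 3 v) (k (u 3 0 (k (u 5 0 (k (t 9 3 (t 13 1 v)) r)) r)) (k (t 3 3 v) (k (u 3 0 (k (u 5 0 (k (t 9 3 (t 13 1 v)) r)) r)) (k (c 2 4087 (t 6 2 r) (t 3 4 v)) (k (c 2 4087 (t 6 1 r) (t 3 4 v)) r))))))))))
 .z .z)) (.s 0x7caef8013fbf00 4091 (n false (z 119) (n true (z 52) e)) (u 2 1 (k r (k (c 3 4096 r r) (k (c 4 4096 r r) (k r (k r (k (u 6 1 (k r (k (c 14 4097 r (u 10 0 (k r (k r r)))) r))) (k (c 3 4096 r (t 6 2 (u 4 0 (k r r)))) (k (c 4 4098 r r) (k r (k r (k r (k r (k r r))))))))))))))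
 (.s 0x7caef8013eff00 4093 (n false (z 123) (n true (z 52) e)) (u 5 10 (k r (k r (k r (k r (k r (k r r)))))))
 .z .z) .z))) (.s 0x7cafea002a2288 4093 (n false (n true (z 156) e) (n false (n false (n false e e) (n false e e)) (n false (n false e e) (n false e e)))) (u 4 2 (k v (k (c 12 4099 r (u 8 1 (k v (k v r)))) (k (c 8 4095 r (u 12 0 (k v (k v r)))) r))))
 (.s 0x7caef8017d4070 4077 (n false (n false (n true (n true (n false (n false (n false e e) e) e) e) e) (n true (n false e e) e)) (n true (z 52) e)) (u 5 266 (k v (k v (k v (k v (k v (k v (k (t 13 1 (u 9 0 (k v (k v r)))) r))))))))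
 (.s 0x7caef8015c23a0 4072 (n false (n false (n true (n false (n false e e) e) e) (n false (n true (n false e e) e) (n false e e))) (n true (z 52) e)) (u 5 244 (k v (k v (k v (k v (k v (k v (k (t 13 1 (u 9 0 (k v (k v r)))) (k (c 4 4093 v r) (k (c 4 4093 v r) r))))))))))
 (.s 0x7caef8015c22a0 4074 (n false (n false (n false (n true (n false e e) e) (n false e e)) (n false (n false (n false e e) e) e)) (n true (z 52) e)) (u 5 175 (k v (k v (k v (k v (k v (k v (k v (k (t 13 1 (u 9 0 (k v (k v r)))) (k (c 6 4093 v r) (k (c 6 4093 v r) r)))))))))))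
 .z .z) (.s 0x7caef80175c208 4074 (n false (n true (z 52) e) (n false (n true (n false (n false (n true (n false e e) e) (n false e e)) e) e) (n false e e))) (u 4 95 (k v (k v (k v (k v r)))))
 .z .z)) (.s 0x7caef801d44510 4087 (n false (n true (z 52) e) (n true (n false (n false (n false e e) (n false e e)) (n false (n false e e) (n false e e))) e)) (u 4 77 (k v (k v (k v (k v (k v (k v (k v r))))))))
 (.s 0x7caef8017f4070 4077 (n false (n false (n true (n true (n true (n false (n false e e) e) e) e) e) (n true (n false e e) e)) (n true (z 52) e)) (u 5 265 (k v (k v (k v (k v (k v (k v (k (t 13 1 (u 9 0 (k v (k v r)))) r))))))))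
 .z .z) .z)) (.s 0x7caffc013fbf00 4096 (n false (z 119) (n true (z 124) e)) (u 5 3 (k r (k r (k (c 13 4097 r (u 9 1 (k r (k r r)))) (k (c 13 4096 r (u 9 1 (k r (k r r)))) (k (c 13 4097 r (u 9 1 (k r (k r r)))) r))))))
 (.s 0x7caffc012bbe00 4096 (n false (z 52) (n true (z 124) e)) (u 5 5 (k r (k (c 13 4097 r (u 9 1 (k r (k r r)))) (k (c 13 4096 r (u 9 1 (k r (k r r)))) (k (c 9 4098 r (u 13 0 (k r (k r r)))) (k (c 13 4096 r (u 9 1 (k r (k r r)))) (k (c 13 4097 r (u 9 1 (k r (k r r)))) (k (c 13 4097 r (u 9 1 (k r (k r r)))) (k (c 13 4096 r (u 9 1 (k r (k r r)))) (k (c 9 4097 r (u 13 1 (k r (k r r)))) r))))))))))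
 (.s 0x7caffc012bbb00 4100 (n false (z 84) (n true (z 124) e)) (u 5 10 (k (u 2 0 (k (u 4 0 (k v (k r r))) r)) (k (c 3 4094 v (t 2 2 v)) (k (c 13 4097 r (u 2 0 (k (u 9 1 (k r (k r r))) r))) (k (c 13 4097 r (u 2 0 (k (u 9 1 (k r (k r r))) r))) r)))))
 .z .z) (.s 0x7caffc012efb00 4098 (n false (n true (z 124) e) (z 90)) (u 3 8 (k r (k (c 4 4099 r v) (k r (k r (k (c 5 4097 r (u 7 0 (k (u 11 0 (k r (k r r))) r))) (k (u 4 1 (k r (k (c 12 4097 r (u 8 1 (k r (k r r)))) (k (c 12 4096 r (u 8 1 (k r (k r r)))) (k (c 8 4098 r (u 12 0 (k r (k r r)))) (k (c 12 4096 r (u 8 1 (k r (k r r)))) (k (c 12 4097 r (u 8 1 (k r (k r r)))) (k (c 12 4097 r (u 8 1 (k r (k r r)))) (k (c 12 4096 r (u 8 1 (k r (k r r)))) (k (c 12 4099 r (u 8 1 (k r (k r r)))) (k (c 8 4097 r (u 12 1 (k r (k r r)))) r))))))))))) r)))))))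
 .z .z)) (.s 0x7caffc01d44510 4090 (n false (n true (z 124) e) (n true (n false (n false (n false e e) (n false e e)) (n false (n false e e) (n false e e))) e)) (u 4 2 (k v (k v (k (c 12 4097 r (u 8 1 (k v (k v r)))) (k (c 12 4096 r (u 8 1 (k v (k v r)))) (k (c 12 4097 r (u 8 1 (k v (k v r)))) (k (c 12 4099 r (u 8 1 (k v (k v r)))) r)))))))
 (.s 0x7caffc013fff00 4098 (n false (z 127) (n true (z 124) e)) (u 2 0 (k (u 5 6 (k r (k (c 4 4100 r v) (k (c 13 4097 r (u 9 1 (k r (k r r)))) (k (c 13 4096 r (u 9 1 (k r (k r r)))) (k (c 13 4097 r (u 9 1 (k r (k r r)))) r)))))) r))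
 .z .z) .z))))

end Pool.Agent.Helper91.ND1
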