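import Pool.Agent.Helper66.ND.Defs

/-! part of the certificate for the constant 25/48 (generated) -/

namespace Pool.Agent.Helper91.ND1

open Pool.Agent.Helper66.IL
open Pool.Agent.Helper66.ND
open Pool.Agent.Helper66.ND.LT
open Pool.Agent.Helper66.ND.Ct

set_option maxRecDepth 100000 in
def N84 : NT :=
(.s 0x7cbfa8013bae00 4094 (n false (n true (z 14) e) (z 37)) (u 3 1 (k r (k (u 4 0 (k v (k v r))) r)))
 (.s 0x7cbefc013eff00 4091 (n false (n true (z 118) e) (z 123)) (u 4 3 (k r (k (t 12 1 (u 3 56 (k r (k (u 8 15 (k v (k v r))) (k r (k (u 8 15 (k r (k r r))) (k r r))))))) (k (t 12 1 (u 3 54 (k r (k r (k r (k r r)))))) r))))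
 (.s 0x7cbbb8012aeb00 4097 (n false (z 72) (n true (z 42) e)) (u 5 1 (k (u 2 0 (k (t 6 1 r) r)) (k (u 2 0 (k (t 6 1 r) r)) r)))
 (.s 0x7cbaf8013fab00 4094 (n false (n true (z 50) e) (z 71)) (u 3 6 (k (t 7 1 (u 4 1 (k r (k (c 8 4097 r (u 12 0 (k r (k r r)))) r)))) (k (u 4 1 (k r (k (c 8 4097 r (u 12 0 (k r (k r r)))) r))) (k (u 5 0 (k r (k (c 13 4101 r r) (k (c 9 4101 r r) (k (c 9 4101 r r) r))))) (k (t 5 1 r) (k (t 5 1 r) (k (t 5 1 r) r)))))))
 (.s 0x7cbae8013fff00 4095 (n false (z 127) (n true (z 18) e)) (u 5 0 (k (u 2 0 (k (u 4 61 (k (u 9 0 (k v (k v r))) (k (u 9 0 (k v (k v r))) (k r (k r (k (c 8 4096 r r) (k (c 12 4097 r r) r))))))) r)) r))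
 .z .z) (.s 0x7cbbb8012aab00 4095 (n false (n true (z 42) e) (z 64)) (c 2 4099 (u 2 0 (k v (k v r))) (u 3 0 (k (t 7 2 r) r)))
 .z .z)) (.s 0x7cbefc013aff00 4091 (n false (n true (z 118) e) (z 121)) (u 3 1 (k r (k (c 7 4099 r (u 5 1 (k r (k r r)))) (k (c 5 4097 r (u 7 1 (k r (k r r)))) (k (c 5 4095 r (u 7 0 (k r (k r r)))) (k (c 5 4095 r (u 7 0 (k r (k r r)))) r))))))
 (.s 0x7cbbb8012bef00 4093 (n false (z 108) (n true (z 42) e)) (u 5 1 (k (u 2 0 (k (t 6 2 (u 4 0 (k (c 12 4099 r r) r))) r)) (k (u 2 0 (k (t 6 2 (u 4 0 (k (c 12 4099 r r) r))) r)) r)))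
 .z .z) (.s 0x7cbefc013bae00 4091 (n false (n true (z 118) e) (z 37)) (u 3 1 (k (c 2 4092 r v) (k (u 4 3 (k v (k (t 12 1 (u 8 7 (k v (k v (k (c 16 4101 r (c 5 4099 v r)) (k (c 24 4103 r (c 5 4099 v r)) (k (c 24 4100 r (c 5 4099 v r)) (k (c 24 4100 r (c 5 4099 v r)) r)))))))) (k (c 5 4099 v (t 12 1 r)) r)))) r)))
 .z .z))) (.s 0x7cbfa8012bff00 4092 (n false (z 124) (n true (z 14) e)) (u 2 1 (k (u 5 0 (k v (k v r))) (k (c 6 4097 r r) (k (c 6 4096 r r) (k (c 4 4098 r r) (k (c 6 4096 r r) (k (c 6 4097 r r) (k (c 6 4097 r r) (k (c 6 4096 r r) (k (c 6 4099 r r) (k (c 4 4097 r r) r)))))))))))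
 (.s 0x7cbfa8012aeb00 4093 (n false (z 72) (n true (z 14) e)) (u 5 0 (k (u 2 0 (k (t 6 1 r) r)) (k (u 2 0 (k (t 6 1 r) r)) r)))
 (.s 0x7cbefc013fab00 4091 (n false (n true (z 118) e) (z 71)) (u 4 3 (k r (k (t 12 1 (u 3 1 (k r (k (c 7 4099 r (u 5 1 (k r (k r r)))) (k (u 8 8 (k (u 5 0 (k v (k v r))) (k (c 16 4103 r (t 5 2 (u 24 0 (k (u 40 0 (k v (k v r))) r)))) (k (c 16 4101 r r) (k (c 24 4103 r r) (k (c 24 4100 r (t 5 2 r)) (k (c 24 4100 r (t 5 2 r)) r))))))) (k (c 5 4099 r (u 7 1 (k r (k r r)))) (k (c 5 4099 r (u 7 1 (k r (k r r)))) (k (c 5 4099 r (u 7 1 (k r (k r r)))) r)))))))) (k (t 12 1 (u 3 14 (k r (k r (k r (k r r)))))) r))))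
 .z .z) (.s 0x7cbfa8012bef00 4093 (n false (z 108) (n true (z 14) e)) (u 5 0 (k (u 2 0 (k (t 6 2 (u 4 0 (k (c 12 4099 r r) r))) r)) (k (u 2 0 (k (t 6 2 (u 4 0 (k (c 12 4099 r r) r))) r)) r)))
 .z .z)) (.s 0x7cbfa8013aff00 4094 (n false (z 121) (n true (z 14) e)) (u 2 4 (k (u 5 0 (k v (k v r))) (k (u 5 0 (k v (k v r))) (k (c 6 4099 r r) (k (c 4 4097 r r) r)))))
 (.s 0x7cbfa8012eba00 4091 (n false (n true (z 14) e) (z 18)) (u 4 0 (k (u 3 0 (k (u 5 0 (k v (k v r))) r)) (k (u 3 0 (k (u 5 0 (k v (k v r))) r)) r)))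
 .z .z) .z))) (.s 0x7cbfb8017f4070 4081 (n false (n true (z 46) e) (n false (n true (n true (n true (n false (n false e e) e) e) e) e) (n true (n false e e) e))) (u 4 3 (k v (k v (k (u 8 0 (k v (k v r))) (k (c 12 4097 r (u 8 1 (k v (k v r)))) (k (c 8 4095 r (u 12 1 (k v (k v r)))) r))))))
 (.s 0x7cbfb8013eff00 4096 (n false (z 123) (n true (z 46) e)) (u 5 2 (k r (k (c 13 4099 r (u 9 0 (k r (k r r)))) (k r (k (u 9 0 (k r (k r r))) (k (c 13 4097 r r) (k (c 9 4095 r r) r)))))))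
 (.s 0x7cbfb8012efb00 4098 (n false (n true (z 46) e) (z 90)) (u 4 3 (k (c 2 4094 v (t 3 2 v)) (k r (k (u 8 1 (k r (k r r))) (k (c 12 4097 r r) (k (c 8 4095 r r) r))))))
 (.s 0x7cbfb8012bbe00 4093 (n false (n true (z 46) e) (z 52)) (u 4 1 (k r (k (u 8 1 (k r (k r r))) (k (c 12 4099 r (u 8 0 (k r (k r r)))) (k (u 8 1 (k r (k r r))) (k (c 12 4097 r (u 8 1 (k r (k r r)))) (k (c 8 4095 r (u 12 1 (k r (k r r)))) r)))))))
 .z .z) (.s 0x7cbfb8013eee00 4096 (n false (n true (z 46) e) (z 43)) (u 4 2 (k r (k (c 12 4099 r (u 8 0 (k r (k r r)))) (k r (k (u 8 1 (k r (k r r))) (k (c 12 4097 r r) (k (c 8 4095 r r) r)))))))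
 .z .z)) (.s 0x7cbfb801544510 4094 (n false (n true (z 46) e) (n false (n false (n false (n false e e) (n false e e)) (n false (n false e e) (n false e e))) e)) (u 4 1 (k v (k (u 8 1 (k v (k v r))) (k (c 12 4099 r (u 8 0 (k v (k v r)))) (k (u 8 0 (k v (k v r))) (k (c 12 4097 r (u 8 1 (k v (k v r)))) (k (c 8 4095 r (u 12 1 (k v (k v r)))) r)))))))
 (.s 0x7cbfb8013fab00 4094 (n false (n true (z 46) e) (z 71)) (u 3 8 (k r (k (t 7 1 (u 4 2 (k r (k (c 12 4099 r (u 8 0 (k r (k r r)))) (k (u 8 1 (k r (k r r))) (k r (k (c 12 4097 r (u 8 1 (k r (k r r)))) (k (c 8 4095 r (u 12 1 (k r (k r r)))) r)))))))) (k (u 5 0 (k r (k (t 13 1 r) (k (t 9 2 r) (k (t 9 1 r) r))))) (k (t 5 1 r) (k (t 5 1 r) (k (t 5 1 r) r)))))))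
 .z .z) .z)) (.s 0x7cebac012bfa00 4100 (n false (n true (z 73) e) (z 28)) (u 4 0 (k (u 8 23 (k (u 3 0 (k (u 5 4 (k v (k v r))) r)) (k (c 3 4097 r v) r))) r))
 (.s 0x7cbff8013afb00 4091 (n false (z 89) (n true (z 62) e)) (u 5 4 (k r (k r (k r (k (t 13 1 (u 9 41 (k r (k r (k (t 25 1 (u 17 0 (k (c 17 4094 v r) (k (u 2 11 (k v (k r (k r (k (c 6 4099 r r) (k r (k (t 6 3 (u 4 0 (k v (k v r)))) (k (c 4 4099 r (u 6 1 (k v (k v r)))) (k (c 3 4094 v (t 6 2 r)) r))))))))) r)))) r))))) r)))))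
 (.s 0x7cbfb801d44510 4089 (n false (n true (z 46) e) (n true (n false (n false (n false e e) (n false e e)) (n false (n false e e) (n false e e))) e)) (u 4 1 (k v (k (u 8 1 (k v (k v r))) (k (c 12 4099 r (u 8 0 (k v (k v r)))) (k (u 8 0 (k v (k v r))) (k (c 12 4097 r (u 8 1 (k v (k v r)))) (k (c 8 4095 r (u 12 1 (k v (k v r)))) r)))))))
 .z .z) (.s 0x7cbff8013aff00 4094 (n false (z 121) (n true (z 62) e)) (u 5 4 (k r (k r (k r (k (t 13 1 (u 2 4 (k r (k r (k (c 6 4099 r (u 4 1 (k r (k r r)))) (k (c 4 4097 r (u 6 1 (k r (k r r)))) r)))))) r)))))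
 .z .z)) (.s 0x7cebfc012bfa00 4098 (n false (n true (z 121) e) (z 28)) (u 4 74 (k (u 3 0 (k (u 5 1 (k v (k v r))) r)) (k (u 3 0 (k (u 5 1 (k v (k v r))) r)) (k (c 3 4097 r v) (k (u 3 0 (k (u 5 1 (k v (k v r))) r)) (k (u 3 0 (k (u 5 1 (k v (k v r))) r)) r))))))
 (.s 0x7cebfc012bbe00 4094 (n false (n true (z 121) e) (z 52)) (u 4 4 (k r (k r (k (c 12 4099 r (u 8 1 (k r (k r r)))) (k (c 8 4097 r (u 12 1 (k r (k r r)))) r)))))
 .z .z) .z))))

set_option maxRecDepth 100000 in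
def N85 : NT :=
(.s 0x7cfaac012aff00 4096 (n false (z 120) (n true (z 67) e)) (u 2 20 (k (u 5 0 (k v (k v r))) (k r (k r (k r (k (u 4 10 (k (u 5 0 (k r (k r r))) (k (t 6 1 (u 5 0 (k v (k v r)))) r))) (k (u 6 0 (k r (k r r))) (k (c 4 4097 r r) (k (c 6 4096 r r) (k (c 3 4102 (t 2 2 v) (t 6 1 (u 4 0 (k r r)))) (k r (k (t 4 2 (u 5 0 (k r (k r r)))) (k r (k r (k r (k r r))))))))))))))))
 (.s 0x7ceeb801d44510 4091 (n false (n true (z 37) e) (n true (n false (n false (n false e e) (n false e e)) (n false (n false e e) (n false e e))) e)) (u 4 5 (k v (k (u 8 0 (k (t 16 3 (t 24 1 v)) r)) (k r (k (u 8 0 (k (t 16 3 (t 24 1 v)) r)) (k (u 8 0 (k v (k v (k (t 24 1 (u 16 0 (k (t 32 3 (t 48 1 v)) r))) r)))) (k (c 2 4088 r v) r)))))))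
 (.s 0x7ceeb8012bbe00 4096 (n false (n true (z 37) e) (z 52)) (u 3 4 (k r (k (u 4 1 (k v (k v r))) (k r (k (u 4 1 (k v (k v r))) (k (t 7 1 (u 5 0 (k (u 4 1 (k v (k v r))) (k (u 4 1 (k v (k v r))) r)))) r))))))
 (.s 0x7cebfc01544510 4093 (n false (n true (z 121) e) (n false (n false (n false (n false e e) (n false e e)) (n false (n false e e) (n false e e))) e)) (u 4 2 (k v (k v (k (c 12 4099 r (u 8 1 (k v (k v r)))) (k (c 8 4095 r (u 12 0 (k v (k v r)))) (k (c 8 4095 r (u 12 0 (k v (k v r)))) r))))))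
 (.s 0x7cebfc013eff00 4096 (n false (z 123) (n true (z 121) e)) (u 5 2 (k r (k r (k (c 13 4099 r (u 9 1 (k r (k r r)))) (k (c 9 4095 r (u 13 0 (k r (k r r)))) (k (c 9 4095 r (u 13 0 (k r (k r r)))) r))))))
 .z .z) (.s 0x7cebfc01d44510 4091 (n false (n true (z 121) e) (n true (n false (n false (n false e e) (n false e e)) (n false (n false e e) (n false e e))) e)) (u 4 2 (k v (k v (k (c 12 4099 r (u 8 1 (k v (k v r)))) (k (c 8 4095 r (u 12 0 (k v (k v r)))) (k (c 8 4095 r (u 12 0 (k v (k v r)))) r))))))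
 .z .z)) (.s 0x7ceeb8013eee00 4098 (n false (n true (z 37) e) (z 43)) (u 4 1 (k (c 2 4094 v (t 3 2 v)) (k (u 3 3 (k v (k v (k v (k (u 5 1 (k v (k v r))) (k (c 8 4099 v r) (k (u 5 0 (k (u 9 0 (k v (k v r))) r)) (k r (k (u 5 1 (k v (k (c 13 4099 r (u 9 1 (k v (k v r)))) (k (c 9 4098 r (u 13 1 (k v (k v r)))) (k (c 9 4097 r (u 13 1 (k v (k v r)))) (k (c 9 4099 r (u 13 1 (k v (k v r)))) (k (c 9 4095 r (u 13 0 (k v (k v r)))) r))))))) r))))))))) r)))
 (.s 0x7ceeb8012bfa00 4098 (n false (n true (z 37) e) (z 28)) (u 3 0 (k (u 4 52 (k (u 5 1 (k v (k v r))) (k (u 5 1 (k v (k v r))) (k (c 5 4104 r v) (k (u 5 1 (k (c 2 4094 (c 4 4096 r v) v) (k (u 8 39 (k v (k v r))) r))) r))))) r))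
 .z .z) (.s 0x7ceeb8013eff00 4096 (n false (z 123) (n true (z 37) e)) (u 2 9 (k (u 5 1 (k v (k v r))) (k r (k (t 5 1 v) (k r (k (u 5 1 (k (c 4 4101 r v) (k r r))) (k r (k r r))))))))
 .z .z))) (.s 0x7ceeec012efb00 4098 (n false (z 90) (n true (z 85) e)) (u 2 13 (k r (k (c 3 4098 (t 2 1 v) v) (k (u 5 37 (k v (k v (k v r)))) (k (u 4 58 (k r (k (c 5 4099 r v) (k (u 5 59 (k v (k (c 13 4099 r r) (k (c 13 4101 r r) (k (c 9 4099 r r) r))))) (k (c 8 4099 r (u 5 60 (k (c 4 4096 r v) (k r (k r (k (c 9 4099 r r) r)))))) r))))) (k (c 4 4097 r (u 6 0 (k (u 10 0 (k r (k r r))) r))) (k r r)))))))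
 (.s 0x7ceeec012bbb00 4100 (n false (z 84) (n true (z 85) e)) (u 2 0 (k (u 4 5 (k (c 5 4099 r v) (k (u 8 26 (k r (k r (k (c 3 4098 (t 2 1 v) v) (k (t 24 2 (u 16 25 (k r (k (u 5 5 (k v (k v (k (c 13 4099 r r) (k (c 9 4099 r r) r))))) (k (c 4 4089 v (c 3 4098 (t 2 1 v) v)) r))))) r))))) (k (c 12 4096 r r) r)))) r))
 (.s 0x7ceeec012abb00 4095 (n false (z 80) (n true (z 85) e)) (u 5 37 (k (c 3 4094 v r) (k (u 2 0 (k (u 4 0 (k (c 12 4099 r r) r)) r)) (k (u 2 0 (k (u 4 0 (k (c 12 4099 r (u 8 0 (k v (k (u 16 1 (k v (k v r))) (k (c 24 4099 r (u 16 0 (k (u 32 0 (k v (k v r))) r))) (k (c 3 4097 v r) (k (c 3 4097 v r) (k (u 16 0 (k (u 32 0 (k v (k v r))) r)) (k r (k r r)))))))))) r)) r)) r))))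
 .z .z) (.s 0x7ceeec012bbe00 4095 (n false (n true (z 85) e) (z 52)) (u 3 4 (k r (k r (k r (k r (k (t 7 1 (u 5 0 (k r (k r r)))) r))))))
 .z .z)) (.s 0x7ceeec01d44510 4090 (n false (n true (z 85) e) (n true (n false (n false (n false e e) (n false e e)) (n false (n false e e) (n false e e))) e)) (u 4 4 (k v (k (c 12 4099 r r) (k r (k (c 12 4099 r (u 8 1 (k v (k v (k v (k (t 24 1 r) r)))))) (k r (k (c 12 4096 r r) (k (c 8 4099 r r) r))))))))
 (.s 0x7ceeec013fbf00 4096 (n false (z 119) (n true (z 85) e)) (u 5 57 (k r (k (c 13 4099 r r) (k (c 13 4099 r (t 2 2 (c 3 4088 r v))) (k (c 13 4099 r r) (k r (k (c 13 4096 r (t 2 2 (c 3 4088 r v))) r)))))))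
 .z .z) .z))) (.s 0x7cfaac013fab00 4096 (n false (z 71) (n true (z 67) e)) (u 2 6 (k r (k r (k (u 5 0 (k r (k r r))) (k (t 4 1 (u 5 0 (k r (k r r)))) (k (t 4 1 (u 5 0 (k r (k r r)))) (k (t 4 1 (u 5 0 (k r (k r r)))) r)))))))
 (.s 0x7cfaac012ebb00 4091 (n false (z 82) (n true (z 67) e)) (u 2 0 (k (u 5 0 (k v (k v r))) (k (u 5 0 (k v (k v r))) r)))
 (.s 0x7cfaac012bef00 4097 (n false (z 108) (n true (z 67) e)) (u 5 0 (k (u 2 0 (k (t 6 2 (u 4 0 (k (c 12 4099 r r) r))) r)) (k (u 2 0 (k (t 6 2 (u 4 0 (k (c 12 4099 r r) r))) r)) r)))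
 (.s 0x7cfaac012bbb00 4099 (n false (z 84) (n true (z 67) e)) (u 5 0 (k (u 2 0 (k (u 4 0 (k v (k r r))) r)) (k (u 2 0 (k (u 4 0 (k v (k r r))) r)) r)))
 .z .z) (.s 0x7cfaac012eba00 4095 (n false (n true (z 67) e) (z 18)) (u 4 37 (k (u 3 0 (k (u 5 0 (k v (k v r))) r)) (k (u 3 0 (k (u 5 0 (k v (k v r))) r)) (k (u 3 0 (k (u 5 0 (k v (k v r))) r)) r))))
 .z .z)) (.s 0x7cfaac013eff00 4096 (n false (z 123) (n true (z 67) e)) (u 2 13 (k r (k (c 3 4102 (t 2 2 v) v) (k r (k r (k r (k r (k (t 4 1 (u 5 0 (k r (k r r)))) (k (t 4 2 (u 6 2 (k r (k (u 5 0 (k v (k v r))) r)))) r)))))))))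
 (.s 0x7cfaac013eab00 4096 (n false (n true (z 67) e) (z 67)) (u 4 17 (k r (k (u 3 0 (k v (k v r))) (k r (k r (k (t 12 1 (u 8 1 (k (c 20 4101 v r) (k r r)))) (k (u 8 2 (k (t 12 1 r) (k (u 12 3 (k r (k r (k r r)))) r))) (k r (k (c 2 4088 r (t 3 2 v)) (k (u 3 0 (k (u 12 0 (k r (k r r))) (k r r))) (k (t 12 1 (u 8 2 (k (c 20 4101 v r) (k (c 24 4097 r (u 16 0 (k r (k r r)))) r)))) (k (c 2 4091 (t 6 2 (u 4 0 (k r r))) (t 3 2 v)) (k (u 12 2 (k (t 8 1 r) (k (u 8 0 (k r (k r r))) r))) (k r (k (c 2 4091 (t 4 1 (u 6 0 (k r r))) (t 3 2 v)) (k (u 3 0 (k r (k r r))) (k r (k (u 3 0 (k r (k r r))) r))))))))))))))))))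
 .z .z) .z)) (.s 0x7cfab8012baf00 4097 (n false (z 100) (n true (z 35) e)) (u 5 2 (k r (k r (k (t 2 3 v) (k (t 13 1 (u 9 0 (k (t 17 3 (t 25 1 (u 2 1 (k v (k r (k (c 6 4097 r r) (k r (k r r)))))))) r))) r)))))
 (.s 0x7cfaac01751070 4078 (n false (n false (n true (n false (n false (n false e e) (n false e e)) e) e) (n true (n false e e) e)) (n true (z 67) e)) (u 5 138 (k v (k v (k v (k v (k v (k (t 13 1 (u 9 1 (k v (k v r)))) (k (c 9 4101 r (u 13 0 (k v (k v r)))) (k r (k (c 3 4088 r v) (k (c 3 4091 (t 6 2 (u 4 0 (k r r))) v) (k (c 13 4101 r (u 9 1 (k v (k v r)))) (k (t 13 1 (u 9 9 (k v (k v (k v (k (c 25 4099 r (u 17 1 (k v (k v r)))) r)))))) (k (c 13 4102 r (u 9 1 (k v (k v r)))) (k (c 9 4101 r (u 13 1 (k v (k v r)))) (k r (k (c 9 4101 r (u 13 1 (k v (k v r)))) r)))))))))))))))))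
 (.s 0x7cfaac013fff00 4097 (n false (z 127) (n true (z 67) e)) (u 5 0 (k (u 2 0 (k r r)) (k (u 2 0 (k r r)) r)))
 .z .z) (.s 0x7cfaac017d1070 4078 (n false (n false (n true (n true (n false (n false e e) (n false e e)) e) e) (n true (n false e e) e)) (n true (z 67) e)) (u 5 122 (k v (k v (k v (k v (k v (k (t 13 1 (u 9 1 (k v (k v r)))) (k (c 9 4101 r (u 13 0 (k v (k v r)))) (k r (k (c 3 4088 r v) (k (c 3 4091 (t 6 2 (u 4 0 (k r r))) v) (k (c 13 4101 r (u 9 11 (k v (k v r)))) (k (t 13 1 (u 9 9 (k v (k v (k v (k (c 25 4099 r (u 17 1 (k v (k v r)))) r)))))) (k (c 13 4102 r (u 9 11 (k v (k v r)))) (k (c 9 4101 r (u 13 11 (k v (k v r)))) (k r (k (c 9 4101 r (u 13 11 (k v (k v r)))) r)))))))))))))))))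
 .z .z)) (.s 0x7cfab801d44510 4092 (n false (n true (z 35) e) (n true (n false (n false (n false e e) (n false e e)) (n false (n false e e) (n false e e))) e)) (u 4 3 (k v (k v (k (t 12 1 (u 8 0 (k (t 16 3 (t 24 1 v)) r))) r))))
 (.s 0x7cfab8013fbf00 4096 (n false (z 119) (n true (z 35) e)) (u 5 2 (k r (k r (k (t 2 3 v) (k (t 13 1 (u 9 0 (k (t 17 3 (t 25 1 (u 2 24 (k v (k (c 6 4101 r r) (k (c 6 4099 r r) (k (c 3 4101 v (t 6 2 (u 4 0 (k r r)))) (k (c 4 4101 r r) (k (c 4 4101 r r) (k (c 4 4099 r r) (k (c 4 4101 r r) (k (c 4 4101 r r) r)))))))))))) r))) r)))))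
 .z .z) .z))))

set_option maxRecDepth 100000 in
def N86 : NT :=
(.s 0x7cfeec012eba00 4091 (n false (n true (z 87) e) (z 18)) (u 4 1 (k (u 3 0 (k (u 5 0 (k v (k v r))) r)) (k (u 3 0 (k (u 5 0 (k v (k v r))) r)) r)))
 (.s 0x7cfeec012aaf00 4093 (n false (z 96) (n true (z 87) e)) (u 5 12 (k (u 2 0 (k (c 6 4099 r r) r)) (k (u 2 0 (k (c 6 4099 r r) r)) (k (t 9 4 (u 2 0 (k (c 6 4099 r r) r))) (k (t 9 2 (u 2 0 (k (c 6 4099 r r) r))) (k (t 9 2 (u 2 0 (k (c 6 4099 r r) r))) r))))))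
 (.s 0x7cfeac012fba00 4093 (n false (n true (z 71) e) (z 22)) (u 3 1 (k (c 2 4101 (t 2 1 v) v) (k (u 4 7 (k v (k v (k v (k (c 12 4099 r (u 8 1 (k v (k v r)))) r))))) r)))
 (.s 0x7cfbec013fbf00 4096 (n false (n true (z 91) e) (z 119)) (u 4 17 (k r (k r (k r (k (u 8 0 (k r (k r r))) (k (c 8 4097 r (u 12 0 (k r (k r r)))) (k (c 8 4095 r (u 12 0 (k r (k r r)))) r)))))))
 (.s 0x7cfbec012bbe00 4091 (n false (n true (z 91) e) (z 52)) (u 4 4 (k r (k r (k (u 8 1 (k r (k r r))) (k (c 8 4097 r (u 12 0 (k r (k r r)))) (k (c 8 4097 r (u 12 0 (k r (k r r)))) (k (c 8 4096 r (u 12 0 (k r (k r r)))) (k (c 8 4095 r (u 12 0 (k r (k r r)))) r))))))))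
 .z .z) (.s 0x7cfbec01d44510 4090 (n false (n true (z 91) e) (n true (n false (n false (n false e e) (n false e e)) (n false (n false e e) (n false e e))) e)) (u 4 1 (k v (k v (k v (k (u 8 0 (k v (k v r))) (k (c 8 4097 r (u 12 0 (k v (k v r)))) (k (c 8 4095 r (u 12 0 (k v (k v r)))) r)))))))
 .z .z)) (.s 0x7cfeac013bae00 4096 (n false (n true (z 71) e) (z 37)) (u 3 0 (k r (k r (k r (k r (k (u 5 0 (k r (k r (k (t 13 1 (u 9 0 (k (t 17 3 (t 25 1 r)) r))) r)))) (k (c 2 4101 (t 2 1 v) r) r)))))))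
 (.s 0x7cfeac012fee00 4096 (n false (z 46) (n true (z 71) e)) (u 5 6 (k r (k r (k (c 5 4097 r (c 2 4099 r v)) (k (t 9 1 r) (k (t 9 1 r) (k (t 9 1 r) r)))))))
 .z .z) (.s 0x7cfeac013feb00 4098 (n false (n true (z 71) e) (z 79)) (u 4 7 (k r (k r (k (u 3 0 (k v (k r r))) (k (t 12 2 (u 3 7 (k (c 12 4094 v (u 8 1 (k v (k v r)))) (k (u 5 1 (k (c 12 4094 v (u 8 32 (k v (k v (k v r))))) (k r (k r (k (t 9 1 (c 12 4094 v r)) (k (t 9 1 (c 12 4094 v r)) (k (t 9 1 (c 12 4094 v r)) r))))))) (k (t 7 2 r) r))))) r)))))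
 .z .z))) (.s 0x7cfeec012bef00 4093 (n false (z 108) (n true (z 87) e)) (u 5 1 (k (u 2 0 (k (t 6 2 (u 4 0 (k (c 12 4099 r r) r))) r)) (k (u 2 0 (k (t 6 2 (u 4 0 (k (c 12 4099 r r) r))) r)) r)))
 (.s 0x7cfeec012afe00 4091 (n false (n true (z 87) e) (z 56)) (u 3 0 (k (u 4 1 (k r (k r r))) (k (c 5 4096 r r) (k r (k (c 7 4096 r (u 4 1 (k r (k r r)))) r)))))
 (.s 0x7cfeec012aeb00 4095 (n false (n true (z 87) e) (z 72)) (u 4 1 (k (u 3 0 (k (t 7 1 r) r)) (k (u 3 0 (k (t 7 1 r) r)) r)))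
 .z .z) (.s 0x7cfeec012bbb00 4095 (n false (z 84) (n true (z 87) e)) (u 2 0 (k (u 4 0 (k (u 5 1 (k v (k v r))) (k (u 5 1 (k r (k r r))) r))) r))
 .z .z)) (.s 0x7cfeec012bff00 4094 (n false (n true (z 87) e) (z 124)) (u 3 1 (k (u 4 1 (k v (k v r))) (k (c 7 4097 r r) (k (c 7 4096 r r) (k (c 5 4098 r r) (k (c 7 4096 r r) (k (c 7 4097 r r) (k (c 7 4097 r r) (k (c 7 4096 r r) (k (c 7 4099 r r) (k (c 5 4097 r r) r)))))))))))
 (.s 0x7cfeec012bfa00 4093 (n false (n true (z 87) e) (z 28)) (u 4 1 (k (u 3 0 (k (u 5 1 (k v (k v r))) r)) (k (u 3 0 (k (u 5 3 (k v (k v r))) r)) r)))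
 .z .z) .z))) (.s 0x7cfef801d44510 4090 (n false (n true (z 55) e) (n true (n false (n false (n false e e) (n false e e)) (n false (n false e e) (n false e e))) e)) (u 4 4 (k (t 12 1 (u 8 16 (k v (k v (k (u 16 2 (k v (k v r))) r))))) (k (t 12 2 r) r)))
 (.s 0x7cfef8015c22a0 4075 (n false (n false (n false (n true (n false e e) e) (n false e e)) (n false (n false (n false e e) e) e)) (n true (z 55) e)) (u 5 4 (k (t 13 1 (u 9 31 (k v (k v (k (c 25 4099 r (t 17 3 v)) (k (c 6 4093 v (u 17 2 (k v (k v r)))) (k (c 6 4093 v r) r))))))) (k (c 6 4093 v (t 13 2 r)) r)))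
 (.s 0x7cfeec013bae00 4096 (n false (n true (z 87) e) (z 37)) (u 3 38 (k (u 4 1 (k v (k v r))) (k (u 4 1 (k v (k v r))) (k (c 2 4098 (u 2 0 (k v (k v r))) v) r))))
 (.s 0x7cfeec012fba00 4091 (n false (n true (z 87) e) (z 22)) (u 4 1 (k (u 3 3 (k v (k v r))) (k (u 3 3 (k v (k v r))) r)))
 .z .z) (.s 0x7cfef8013fbf00 4091 (n false (z 119) (n true (z 55) e)) (u 2 21 (k (c 2 4094 v r) (k (c 6 4101 r r) (k (c 4 4101 r r) (k (c 4 4101 r r) r)))))
 .z .z)) (.s 0x7cfef8017f4070 4077 (n false (n false (n true (n true (n true (n false (n false e e) e) e) e) e) (n true (n false e e) e)) (n true (z 55) e)) (u 5 6 (k v (k (t 13 1 (u 9 10 (k v (k v r)))) r)))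
 (.s 0x7cfef8015c23a0 4073 (n false (n false (n true (n false (n false e e) e) e) (n false (n true (n false e e) e) (n false e e))) (n true (z 55) e)) (u 5 4 (k (t 13 1 (u 9 38 (k v (k v (k (t 17 3 (t 25 1 v)) (k (u 17 2 (k v (k v r))) (k (c 4 4093 v r) (k (c 4 4093 v r) r)))))))) (k (c 4 4093 v (t 13 2 r)) r)))
 .z .z) .z)) (.s 0x7cffac01544510 4096 (n false (n true (z 79) e) (n false (n false (n false (n false e e) (n false e e)) (n false (n false e e) (n false e e))) e)) (u 4 0 (k v (k (u 8 7 (k v (k v (k v (k (c 24 4099 r (u 16 1 (k v (k v r)))) r))))) r)))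
 (.s 0x7cfefc012efb00 4098 (n false (n true (z 119) e) (z 90)) (u 3 16 (k r (k r (k (u 5 71 (k (c 4 4101 r v) (k r (k r (k r (k (c 9 4099 r r) r)))))) (k (u 5 8 (k (c 4 4101 r v) (k r (k r (k (u 9 0 (k r (k r r))) (k (c 9 4097 r (u 13 0 (k r (k r r)))) r)))))) (k (u 5 22 (k r (k (c 4 4101 r v) (k (c 13 4097 r (u 9 1 (k r (k r r)))) (k (c 13 4096 r (u 9 1 (k r (k r r)))) (k (c 13 4097 r (u 9 1 (k r (k r r)))) (k (c 13 4099 r (u 9 1 (k r (k r r)))) r))))))) r))))))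
 (.s 0x7cfefc012bbe00 4096 (n false (z 52) (n true (z 119) e)) (u 5 45 (k (c 3 4094 v r) (k r (k r (k (c 13 4099 r r) (k (c 3 4088 (t 6 2 (u 4 0 (k r r))) r) (k (c 9 4098 r r) (k r (k (c 9 4099 r r) (k r r))))))))))
 .z .z) (.s 0x7cfefc013eff00 4096 (n false (n true (z 119) e) (z 123)) (u 3 23 (k r (k r (k (t 7 2 r) (k (u 4 56 (k (c 5 4101 r v) (k r (k (c 12 4101 r r) (k (c 12 4099 r r) (k (c 12 4097 r r) (k (c 12 4096 r (u 8 0 (k (u 16 0 (k r (k r r))) r))) (k (c 8 4098 r r) (k (c 8 4101 r r) (k (c 8 4099 r r) (k (c 8 4101 r r) r))))))))))) r)))))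
 .z .z)) (.s 0x7d2bbe00e81708 4076 (n false (n true (n false (n true (n false (n false e e) e) e) (z 52)) e) (n false (n true (n false e e) e) (n false e e))) (u 12 170 (k v (k v (k v (k v (k v (k (t 28 1 (u 20 0 (k v (k v r)))) r)))))))
 (.s 0x7d2bbe00ae1050 4077 (n false (n true (n false (z 52) (n false (n false (n true (n false e e) e) (n false e e)) e)) e) (n false (n false e e) e)) (u 8 172 (k v (k v (k v (k v (k (t 24 1 (u 16 0 (k v (k v r)))) r))))))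
 .z .z) .z))))

set_option maxRecDepth 100000 in
def N87 : NT :=
(.s 0x7d5114412fee00 4092 (n false (z 46) (n true (n false (n false (n false (n false e e) (n false e e)) (n false (n false e e) (n false e e))) e) e)) (u 2 1 (k v (k (u 4 1 (k v (k v r))) (k (c 6 4099 r (u 4 0 (k v (k v r)))) (k (u 4 0 (k v (k v r))) (k (c 6 4097 r (u 4 1 (k v (k v r)))) (k (c 4 4095 r (u 6 1 (k v (k v r)))) r)))))))
 (.s 0x7d4ffac010ae10 4078 (n false (n true (n false (n false (z 79) e) (n false e e)) e) (n false (n false (n true (n false e e) e) (n false e e)) e)) (u 16 3 (k v (k (u 32 20 (k v (k v (k v (k v r))))) (k (c 48 4096 r (u 32 1 (k v (k v r)))) r))))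
 (.s 0x7d4ebfc010ee10 4075 (n false (n true (n false (n false (z 121) e) (n false e e)) e) (n true (n false (n true (n false e e) e) (n false e e)) e)) (u 16 3 (k v (k v (k (c 48 4099 r (u 32 1 (k v (k v r)))) (k (c 32 4097 r (u 48 1 (k v (k v r)))) r)))))
 (.s 0x7d4afea00383a0 4082 (n false (n true (n false (n false (z 156) e) (n true (n false e e) e)) e) (n true (n false (n false e e) e) e)) (u 16 8 (k v (k v (k (c 48 4099 r (u 32 1 (k v (k v r)))) (k (c 32 4098 r (u 48 1 (k v (k v r)))) (k (c 32 4097 r (u 48 1 (k v (k v r)))) (k (c 32 4099 r (u 48 1 (k v (k v r)))) r)))))))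
 (.s 0x7d3eae00ee1050 4077 (n false (n true (n false (n true (n false (n true (n false e e) e) (n false e e)) e) (z 35)) e) (n false (n false e e) e)) (u 12 0 (k v (k v (k (t 28 1 (u 20 0 (k (t 36 3 (t 52 1 v)) r))) r))))
 .z .z) (.s 0x7d4bffc010ee10 4074 (n false (n true (n false (n false (z 126) e) (n false e e)) e) (n true (n false (n true (n false e e) e) (n false e e)) e)) (u 16 4 (k v (k (t 48 1 (u 32 1 (k v (k (c 96 4099 r (u 64 1 (k v (k v r)))) (k (c 64 4097 r (u 96 1 (k v (k v r)))) (k (c 64 4095 r (u 96 0 (k v (k v r)))) (k (c 64 4095 r (u 96 0 (k v (k v r)))) r))))))) (k (t 48 1 (u 32 7 (k v (k v (k (t 96 1 (u 64 8 (k v (k v (k v r))))) (k (u 64 10 (k v (k (c 192 4101 r r) (k (c 128 4101 r r) (k (c 128 4101 r r) r))))) (k (c 64 4096 r (u 96 1 (k v (k v r)))) (k (c 96 4097 r (u 64 10 (k v (k (c 192 4101 r r) (k (c 128 4101 r r) (k (c 128 4101 r r) r)))))) r)))))))) r))))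
 .z .z)) (.s 0x7d4eeb8010ee10 4076 (n false (n true (n false (n false (z 37) e) (n false e e)) e) (n true (n false (n true (n false e e) e) (n false e e)) e)) (u 16 45 (k v (k v (k (u 32 24 (k v (k v (k v r)))) (k (u 32 17 (k v (k v (k v r)))) r)))))
 (.s 0x7d4eeb8010ae10 4076 (n false (n true (n false (n false (z 37) e) (n false e e)) e) (n false (n false (n true (n false e e) e) (n false e e)) e)) (u 16 45 (k v (k v (k (u 32 24 (k v (k v (k v r)))) (k (u 32 17 (k v (k v (k v r)))) r)))))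
 .z .z) (.s 0x7d4efb8010ee10 4076 (n false (n true (n false (n false (z 45) e) (n false e e)) e) (n true (n false (n true (n false e e) e) (n false e e)) e)) (u 16 9 (k v (k v (k (t 48 1 (u 32 0 (k v (k (c 32 4101 (u 2 0 (k (t 4 3 (t 6 1 v)) r)) v) (k (u 64 0 (k (t 128 3 (t 192 1 v)) r)) (k (c 32 4101 r v) (k (u 64 22 (k v (k v (k (t 192 1 (u 128 0 (k (t 256 3 (t 384 1 v)) r))) r)))) (k (c 32 4095 r v) r)))))))) r))))
 .z .z))) (.s 0x7d5114412bbe00 4092 (n false (z 52) (n true (n false (n false (n false (n false e e) (n false e e)) (n false (n false e e) (n false e e))) e) e)) (u 2 81 (k v (k v (k v (k v (k v (k v (k v r))))))))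
 (.s 0x7d4ffac010ee10 4078 (n false (n true (n false (n false (z 79) e) (n false e e)) e) (n true (n false (n true (n false e e) e) (n false e e)) e)) (u 16 3 (k v (k (u 32 20 (k v (k v (k v (k v r))))) (k (c 48 4096 r (u 32 1 (k v (k v r)))) r))))
 (.s 0x7d4ffac010ba20 4078 (n false (n true (n false (n false (z 79) e) (n false e e)) e) (n false (n true (n false (n false e e) (n false e e)) e) e)) (u 16 5 (k v (k (u 32 18 (k v (k v (k v (k (c 96 4099 r (u 64 19 (k v (k v (k v r))))) r))))) (k (c 48 4096 r (u 32 1 (k v (k v r)))) r))))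
 .z .z) (.s 0x7d5114412abf00 4092 (n false (z 112) (n true (n false (n false (n false (n false e e) (n false e e)) (n false (n false e e) (n false e e))) e) e)) (u 2 1 (k (c 6 4099 r (u 4 6 (k v (k v (k (t 12 2 (u 8 50 (k v (k v (k v (k (u 16 2 (k v (k v r))) (k (u 16 34 (k v (k v (k v (k v r))))) (k (u 16 20 (k v (k v (k v (k (c 48 4099 r (u 32 6 (k v (k v (k v r))))) (k (c 32 4099 r (u 48 6 (k v (k v (k v r))))) r)))))) r)))))))) r))))) (k (u 4 5 (k v (k (t 12 1 r) (k (t 8 2 r) (k (t 8 1 r) r))))) r)))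
 .z .z)) (.s 0x7d5114412ebe00 4092 (n false (z 50) (n true (n false (n false (n false (n false e e) (n false e e)) (n false (n false e e) (n false e e))) e) e)) (u 2 1 (k v (k (c 6 4097 r (u 4 0 (k v (k v r)))) r)))
 (.s 0x7d5114412bff00 4092 (n false (z 124) (n true (n false (n false (n false (n false e e) (n false e e)) (n false (n false e e) (n false e e))) e) e)) (u 2 3 (k v (k v (k (c 6 4097 r (u 4 1 (k v (k v r)))) (k (c 6 4096 r (u 4 1 (k v (k v r)))) (k (c 6 4097 r (u 4 1 (k v (k v r)))) r))))))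
 .z .z) .z))) (.s 0x7d5114413fab00 4092 (n false (z 71) (n true (n false (n false (n false (n false e e) (n false e e)) (n false (n false e e) (n false e e))) e) e)) (u 2 7 (k v (k v (k v (k (c 6 4099 r (u 4 1 (k v (k v r)))) r)))))
 (.s 0x7d5114413bbb00 4092 (n false (z 85) (n true (n false (n false (n false (n false e e) (n false e e)) (n false (n false e e) (n false e e))) e) e)) (u 2 4 (k v (k (c 6 4099 r r) (k (c 6 4099 r r) (k (c 6 4099 r (u 4 1 (k v (k v (k v (k (t 12 1 r) r)))))) (k (u 4 24 (k v (k v (k v (k (t 12 2 (u 8 6 (k v (k v (k (t 24 1 (u 16 2 (k v (k v r)))) r))))) r))))) (k (c 6 4096 r r) (k (c 4 4099 r r) r))))))))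
 (.s 0x7d5114413aff00 4092 (n false (z 121) (n true (n false (n false (n false (n false e e) (n false e e)) (n false (n false e e) (n false e e))) e) e)) (u 2 2 (k v (k v (k (c 6 4099 r (u 4 1 (k v (k v r)))) (k (c 4 4095 r (u 6 0 (k v (k v r)))) (k (c 4 4095 r (u 6 0 (k v (k v r)))) r))))))
 (.s 0x7d5114413afb00 4092 (n false (z 89) (n true (n false (n false (n false (n false e e) (n false e e)) (n false (n false e e) (n false e e))) e) e)) (u 2 0 (k v (k v (k v (k (t 6 2 (u 4 6 (k v (k v (k (t 12 1 (u 8 2 (k v (k v r)))) r))))) r)))))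
 .z .z) (.s 0x7d5114413bae00 4092 (n false (z 37) (n true (n false (n false (n false (n false e e) (n false e e)) (n false (n false e e) (n false e e))) e) e)) (u 2 0 (k v (k (u 4 0 (k (t 8 3 (t 12 1 v)) r)) (k (u 4 0 (k (t 8 3 (t 12 1 v)) r)) (k (u 4 3 (k v (k v (k (t 12 1 (u 8 0 (k (t 16 3 (t 24 1 v)) r))) r)))) (k (u 4 0 (k v (k v (k (t 12 1 (u 8 0 (k (t 16 3 (t 24 1 v)) r))) r)))) (k (c 3 4099 v r) r)))))))
 .z .z)) (.s 0x7d5114413efb00 4092 (n false (z 91) (n true (n false (n false (n false (n false e e) (n false e e)) (n false (n false e e) (n false e e))) e) e)) (u 2 1 (k v (k v (k v (k (u 4 0 (k v (k v r))) (k (c 4 4097 r (u 6 0 (k v (k v r)))) (k (c 4 4095 r (u 6 0 (k v (k v r)))) r)))))))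
 (.s 0x7d5114413eee00 4094 (n false (z 43) (n true (n false (n false (n false (n false e e) (n false e e)) (n false (n false e e) (n false e e))) e) e)) (u 2 3 (k v (k v (k v (k r (k r (k (u 4 0 (k (u 8 0 (k v (k v r))) r)) (k r (k r r)))))))))
 .z .z) .z)) (.s 0x7d5d2bbe008420 4076 (n false (n true (n false (n false (n false (n true (n false (z 52) (n false e e)) e) (n false e e)) e) (n false e e)) e) e) (u 128 29 (k v (k v (k v (k (t 384 1 (u 256 0 (k v (k v r)))) r)))))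
 (.s 0x7d5114413feb00 4094 (n false (z 79) (n true (n false (n false (n false (n false e e) (n false e e)) (n false (n false e e) (n false e e))) e) e)) (u 2 0 (k v (k (u 4 7 (k v (k v (k v (k (c 12 4099 r (u 8 1 (k v (k v r)))) r))))) r)))
 (.s 0x7d5114413fbf00 4092 (n false (z 119) (n true (n false (n false (n false (n false e e) (n false e e)) (n false (n false e e) (n false e e))) e) e)) (u 2 18 (k v (k v (k (c 6 4101 r r) (k (c 6 4099 r r) (k (c 6 4097 r r) (k (c 6 4096 r (u 4 0 (k (u 8 0 (k v (k v r))) r))) (k (c 4 4098 r r) (k (c 4 4101 r r) (k (c 4 4099 r r) (k (c 4 4101 r r) r)))))))))))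
 .z .z) (.s 0x7d5114413fff00 4094 (n false (z 127) (n true (n false (n false (n false (n false e e) (n false e e)) (n false (n false e e) (n false e e))) e) e)) (u 2 0 (k (u 4 24 (k v (k v (k v (k (c 12 4099 r (u 8 0 (k v (k v (k v (k (t 24 2 (u 16 6 (k v (k v (k (t 48 1 (u 32 2 (k v (k v r)))) r))))) r)))))) r))))) r))
 .z .z)) (.s 0x7dcaaaa0021708 4069 (n false (n true (n false (n true (z 128) e) (n false e e)) e) (n false (n true (n false e e) e) (n false e e))) (u 16 4 (k v (k (c 48 4097 r r) (k (c 32 4095 r r) (k (c 32 4098 r (u 48 0 (k (u 80 3 (k v (k v (k v r)))) r))) (k (c 48 4099 r r) (k (c 32 4096 r r) (k (c 32 4095 r (u 48 1 (k v (k (c 112 4097 r (u 80 0 (k v (k v r)))) r)))) (k (c 32 4095 r r) (k (c 32 4095 r (u 48 0 (k v (k v r)))) (k (c 48 4095 r r) (k (c 48 4095 r (u 32 1 (k v (k v r)))) (k (c 32 4097 r (u 48 0 (k v (k v r)))) (k (c 32 4095 r r) (k (c 32 4095 r (u 48 1 (k v (k v r)))) (k (c 32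 4097 r r) r))))))))))))))))
 (.s 0x7d7443813eab00 4078 (n false (n true (n false (n false (n true (n false (n false e e) (n false e e)) e) (n true (n false e e) e)) e) e) (z 67)) (c 24 4094 v (u 3 30 (k v (k v (k v (k v (k (t 7 1 (u 5 1 (k v (k v r)))) (k (c 5 4101 r (u 7 0 (k v (k v r)))) (k r (k (c 2 4077 v r) (k (c 2 4077 v (t 7 2 (u 5 0 (k r r)))) (k (c 7 4101 r (u 5 1 (k v (k v r)))) (k (t 7 1 r) (k (c 7 4102 r (u 5 1 (k v (k v r)))) (k (c 5 4101 r (u 7 1 (k v (k v r)))) (k (t 7 1 r) (k (c 5 4101 r (u 7 1 (k v (k v r)))) r)))))))))))))))))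
 .z .z) .z))))

set_option maxRecDepth 100000 in
def N88 : NT :=
(.s 0x7dceeec010ee10 4073 (n false (n true (n false (n true (z 85) e) (n false e e)) e) (n true (n false (n true (n false e e) e) (n false e e)) e)) (u 16 32 (k v (k v (k (c 48 4099 r r) (k (u 32 12 (k v (k v r))) (k (c 48 4096 r (c 2 4079 r v)) (k (c 32 4099 r r) r)))))))
 (.s 0x7dcbfb80075110 4084 (n false (n true (n false (n true (z 46) e) e) e) (n true (n false (n false (n false e e) (n false e e)) (n false e e)) e)) (u 16 1 (k v (k (u 32 1 (k v (k v r))) (k (c 48 4099 r (u 32 0 (k v (k v r)))) (k (u 32 1 (k v (k v r))) (k (c 48 4097 r (u 32 1 (k v (k v r)))) (k (c 32 4095 r (u 48 1 (k v (k v r)))) r)))))))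
 (.s 0x7dcafea0021d10 4078 (n false (n true (n false (n true (z 156) e) (n false e e)) e) (n true (n false (n false e e) (n false e e)) e)) (u 16 8 (k v (k v (k (c 48 4099 r (u 32 1 (k v (k v r)))) (k (c 32 4098 r (u 48 1 (k v (k v r)))) (k (c 32 4097 r (u 48 1 (k v (k v r)))) (k (c 32 4099 r (u 48 1 (k v (k v r)))) r)))))))
 (.s 0x7dcafea000ee10 4077 (n false (n true (n false (n true (z 156) e) e) e) (n true (n false (n true (n false e e) e) (n false e e)) e)) (u 16 8 (k v (k v (k (c 48 4099 r (u 32 1 (k v (k v r)))) (k (c 32 4098 r (u 48 1 (k v (k v r)))) (k (c 32 4097 r (u 48 1 (k v (k v r)))) (k (c 32 4099 r (u 48 1 (k v (k v r)))) r)))))))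
 (.s 0x7dcafea000ae10 4077 (n false (n true (n false (n true (z 156) e) e) e) (n false (n false (n true (n false e e) e) (n false e e)) e)) (u 16 8 (k v (k v (k (c 48 4099 r (u 32 1 (k v (k v r)))) (k (c 32 4098 r (u 48 1 (k v (k v r)))) (k (c 32 4097 r (u 48 1 (k v (k v r)))) (k (c 32 4099 r (u 48 1 (k v (k v r)))) r)))))))
 .z .z) (.s 0x7dcafea0021708 4072 (n false (n true (n false (n true (z 156) e) (n false e e)) e) (n false (n true (n false e e) e) (n false e e))) (u 16 1 (k v (k (c 48 4099 r (u 32 1 (k v (k v r)))) (k (c 32 4098 r (u 48 1 (k v (k v r)))) (k (c 32 4097 r (u 48 1 (k v (k v r)))) (k (c 32 4099 r (u 48 1 (k v (k v r)))) (k (c 32 4095 r (u 48 0 (k v (k v r)))) r)))))))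
 .z .z)) (.s 0x7dcaffc007dc20 4086 (n false (n true (n false (n true (z 124) e) e) e) (n true (n true (n false (n true (n false e e) e) (n false e e)) e) e)) (u 16 5 (k v (k (c 48 4097 r (u 32 1 (k v (k v r)))) (k (c 48 4096 r (u 32 1 (k v (k v r)))) (k (c 32 4098 r (u 48 0 (k v (k v r)))) (k (c 48 4096 r (u 32 1 (k v (k v r)))) (k (c 48 4097 r (u 32 1 (k v (k v r)))) (k (c 48 4097 r (u 32 1 (k v (k v r)))) (k (c 48 4096 r (u 32 1 (k v (k v r)))) (k (c 32 4097 r (u 48 1 (k v (k v r)))) r))))))))))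
 (.s 0x7dcaffc0075110 4084 (n false (n true (n false (n true (z 124) e) e) e) (n true (n false (n false (n false e e) (n false e e)) (n false e e)) e)) (u 16 4 (k v (k v (k (c 48 4097 r (u 32 1 (k v (k v r)))) (k (c 48 4096 r (u 32 1 (k v (k v r)))) (k (c 32 4098 r (u 48 0 (k v (k v r)))) (k (c 48 4096 r (u 32 1 (k v (k v r)))) (k (c 48 4097 r (u 32 1 (k v (k v r)))) (k (c 48 4097 r (u 32 1 (k v (k v r)))) (k (c 48 4096 r (u 32 1 (k v (k v r)))) (k (c 32 4097 r (u 48 1 (k v (k v r)))) r)))))))))))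
 .z .z) (.s 0x7dcbaf80075110 4085 (n false (n true (n false (n true (z 50) e) e) e) (n true (n false (n false (n false e e) (n false e e)) (n false e e)) e)) (u 16 2 (k v (k (c 48 4097 r (u 32 0 (k v (k v r)))) r)))
 .z .z))) (.s 0x7dcebfc007dc20 4086 (n false (n true (n false (n true (z 121) e) e) e) (n true (n true (n false (n true (n false e e) e) (n false e e)) e) e)) (u 16 4 (k v (k v (k (c 48 4099 r (u 32 1 (k v (k v r)))) (k (c 32 4097 r (u 48 1 (k v (k v r)))) r)))))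
 (.s 0x7dcebfc0075110 4085 (n false (n true (n false (n true (z 121) e) e) e) (n true (n false (n false (n false e e) (n false e e)) (n false e e)) e)) (u 16 4 (k v (k v (k (c 48 4099 r (u 32 1 (k v (k v r)))) (k (c 32 4097 r (u 48 1 (k v (k v r)))) r)))))
 (.s 0x7dcbfb8007dc20 4086 (n false (n true (n false (n true (z 46) e) e) e) (n true (n true (n false (n true (n false e e) e) (n false e e)) e) e)) (u 16 12 (k v (k v (k v (k (u 32 1 (k v (k v r))) (k (u 32 1 (k v (k v r))) (k (c 48 4097 r (u 32 1 (k v (k v r)))) r)))))))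
 .z .z) (.s 0x7dcebfc0075c20 4089 (n false (n true (n false (n true (z 121) e) e) e) (n true (n false (n false (n true (n false e e) e) (n false e e)) e) e)) (u 16 58 (k v (k v (k v (k v (k (c 32 4097 r (u 48 1 (k v (k v r)))) r))))))
 .z .z)) (.s 0x7dceeec0075110 4084 (n false (n true (n false (n true (z 85) e) e) e) (n true (n false (n false (n false e e) (n false e e)) (n false e e)) e)) (u 16 29 (k v (k (c 48 4099 r r) (k (c 48 4099 r (c 8 4088 r v)) (k (c 2 4082 r v) (k (c 32 4097 r r) (k (c 48 4096 r (c 8 4088 r v)) (k (c 48 4097 r r) r))))))))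
 (.s 0x7dcebfc010ee10 4072 (n false (n true (n false (n true (z 121) e) (n false e e)) e) (n true (n false (n true (n false e e) e) (n false e e)) e)) (u 16 1 (k v (k (c 48 4099 r (u 32 1 (k v (k v r)))) (k (c 32 4097 r (u 48 1 (k v (k v r)))) (k (c 32 4095 r (u 48 0 (k v (k v r)))) (k (c 32 4095 r (u 48 0 (k v (k v r)))) r))))))
 .z .z) .z))) (.s 0x7df2bbe0021708 4068 (n false (n true (n false (n true (n true (z 52) e) e) (n false e e)) e) (n false (n true (n false e e) e) (n false e e))) (u 32 387 (k v (k v (k v (k v (k v (k v (k v (k v r)))))))))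
 (.s 0x7dd441c13eab00 4078 (n false (n true (n false (n true (n false (n false (n false e e) (n false e e)) e) e) (n true (n false e e) e)) e) (z 67)) (u 3 144 (k v (k v (k v (k v (k (t 7 1 (u 5 1 (k v (k v r)))) (k (c 5 4101 r (u 7 0 (k v (k v r)))) (k r (k (c 2 4075 v r) (k (c 2 4075 v (t 7 2 (u 5 0 (k r r)))) (k (c 7 4101 r (u 5 1 (k v (k v r)))) (k (t 7 1 (u 5 9 (k v (k v (k v (k (c 13 4099 r (u 9 1 (k v (k v r)))) r)))))) (k (c 7 4102 r (u 5 1 (k v (k v r)))) (k (c 5 4101 r (u 7 1 (k v (k v r)))) (k r (k (c 5 4101 r (u 7 1 (k v (k v r)))) r))))))))))))))))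
 (.s 0x7dcfbec007dc20 4086 (n false (n true (n false (n true (z 91) e) e) e) (n true (n true (n false (n true (n false e e) e) (n false e e)) e) e)) (u 16 6 (k v (k v (k (u 32 1 (k v (k v r))) (k (c 32 4097 r (u 48 0 (k v (k v r)))) (k (c 32 4097 r (u 48 0 (k v (k v r)))) r))))))
 (.s 0x7dcfbec0075110 4083 (n false (n true (n false (n true (z 91) e) e) e) (n true (n false (n false (n false e e) (n false e e)) (n false e e)) e)) (u 16 4 (k v (k v (k (u 32 1 (k v (k v r))) (k (c 32 4097 r (u 48 0 (k v (k v r)))) (k (c 32 4097 r (u 48 0 (k v (k v r)))) (k (c 32 4096 r (u 48 0 (k v (k v r)))) (k (c 32 4095 r (u 48 0 (k v (k v r)))) r))))))))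
 .z .z) (.s 0x7dcfeac010ee10 4075 (n false (n true (n false (n true (z 71) e) (n false e e)) e) (n true (n false (n true (n false e e) e) (n false e e)) e)) (u 16 1 (k v (k (c 48 4099 r (u 32 1 (k v (k v r)))) (k (u 32 0 (k v (k v r))) (k (c 32 4099 r (u 48 1 (k v (k v r)))) (k (c 32 4099 r (u 48 1 (k v (k v r)))) (k (c 32 4099 r (u 48 1 (k v (k v r)))) r)))))))
 .z .z)) (.s 0x7df2bbe000ee10 4072 (n false (n true (n false (n true (n true (z 52) e) e) e) e) (n true (n false (n true (n false e e) e) (n false e e)) e)) (u 32 176 (k v (k v (k v (k v (k v (k v (k (t 96 1 (u 64 0 (k v (k v r)))) r))))))))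
 (.s 0x7df2aaf0021708 4066 (n false (n true (n false (n true (n true (z 96) e) e) (n false e e)) e) (n false (n true (n false e e) e) (n false e e))) (u 32 0 (k (t 96 1 (u 64 0 (k (c 192 4099 r (u 128 2 (k v (k (c 64 4084 (u 4 1 (k v (k v r))) v) r)))) r))) r))
 .z .z) .z)) (.s 0x7df3bbb0021708 4070 (n false (n true (n false (n true (n true (z 85) e) e) (n false e e)) e) (n false (n true (n false e e) e) (n false e e))) (u 32 32 (k v (k v (k (c 96 4099 r r) (k (u 64 3 (k v (k v r))) (k (c 96 4096 r (c 16 4088 r v)) (k (c 64 4099 r r) r)))))))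
 (.s 0x7df2bfa8007050 4081 (n false (n true (n false (n true (n true (z 156) e) e) (n true (n false e e) e)) e) (n false (n false e e) e)) (u 32 1 (k v (k (c 96 4099 r (u 64 1 (k v (k v r)))) (k (c 64 4098 r (u 96 1 (k v (k v r)))) (k (c 64 4097 r (u 96 1 (k v (k v r)))) (k (c 64 4099 r (u 96 1 (k v (k v r)))) (k (c 64 4095 r (u 96 0 (k v (k v r)))) r)))))))
 (.s 0x7df2bbe0021d10 4074 (n false (n true (n false (n true (n true (z 52) e) e) (n false e e)) e) (n true (n false (n false e e) (n false e e)) e)) (u 32 383 (k v (k v (k v (k v (k v (k v (k v r))))))))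
 .z .z) (.s 0x7df2fee0021708 4065 (n false (n true (n false (n true (n true (z 46) e) e) (n false e e)) e) (n false (n true (n false e e) e) (n false e e))) (u 32 2 (k v (k (c 96 4099 r (u 64 0 (k v (k v r)))) (k (u 64 1 (k v (k v r))) (k (u 64 0 (k v (k v r))) (k (c 96 4097 r (u 64 1 (k v (k v r)))) (k (c 64 4095 r (u 96 1 (k v (k v r)))) r)))))))
 .z .z)) (.s 0x7df3fbe000ee10 4072 (n false (n true (n false (n true (n true (z 55) e) e) e) e) (n true (n false (n true (n false e e) e) (n false e e)) e)) (u 32 4 (k (t 96 1 (u 64 31 (k v (k v (k (t 128 3 (t 192 1 v)) (k (u 128 2 (k v (k v r))) (k (u 128 0 (k v (k v r))) r))))))) (k (t 96 2 (u 64 2 (k v (k (c 16 4082 (u 8 1 (k v (k v r))) v) r)))) r)))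
 (.s 0x7df3fbe000ae10 4079 (n false (n true (n false (n true (n true (z 55) e) e) e) e) (n false (n false (n true (n false e e) e) (n false e e)) e)) (u 32 6 (k v (k (t 96 1 (u 64 10 (k v (k v r)))) r)))
 .z .z) .z))))

set_option maxRecDepth 100000 in
def N89 : NT :=
(.s 0x7fcfaac007dc20 4090 (n false (n true (n true (n true (z 67) e) e) e) (n true (n true (n false (n true (n false e e) e) (n false e e)) e) e)) (u 16 8 (k v (k v (k v (k v (k (c 32 4101 r (u 48 0 (k v (k v r)))) (k (c 8 4088 r v) (k (c 48 4101 r (u 32 1 (k v (k v r)))) (k (c 48 4102 r (u 32 1 (k v (k v r)))) (k (c 32 4101 r (u 48 1 (k v (k v r)))) (k (c 32 4101 r (u 48 1 (k v (k v r)))) r)))))))))))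
 (.s 0x7f3eab003fb840 4090 (n false (n true (n true (z 67) e) e) (n true (n true (n true (n false (n true (n false e e) e) (n false e e)) e) e) e)) (u 8 8 (k v (k v (k v (k v (k (c 16 4101 r (u 24 0 (k v (k v r)))) (k (c 4 4088 r v) (k (c 24 4101 r (u 16 1 (k v (k v r)))) (k (c 24 4102 r (u 16 1 (k v (k v r)))) (k (c 16 4101 r (u 24 1 (k v (k v r)))) (k (c 16 4101 r (u 24 1 (k v (k v r)))) r)))))))))))
 (.s 0x7f2bbe002a8888 4085 (n false (n true (n true (z 52) e) e) (n false (n false (n false (n false e e) (n false e e)) (n false e e)) (n false e e))) (u 8 14 (k v (k v (k v (k v (k v (k v (k (t 24 1 (u 16 0 (k v (k v r)))) r))))))))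
 (.s 0x7dfd01c13eee00 4079 (n false (n true (n false (n true (n true (n true (n false (n false e e) e) e) e) e) (n true (n false e e) e)) e) (z 43)) (u 3 3 (k v (k v (k v (k r (k r (k (u 5 0 (k (u 9 0 (k v (k v r))) r)) (k r (k (u 5 2 (k v (k (c 13 4099 r (u 9 1 (k v (k v r)))) (k (c 9 4095 r (u 13 0 (k v (k v r)))) r)))) r)))))))))
 (.s 0x7df501c13eee00 4079 (n false (n true (n false (n true (n true (n false (n false (n false e e) e) e) e) e) (n true (n false e e) e)) e) (z 43)) (u 3 3 (k v (k v (k v (k r (k r (k (u 5 0 (k (u 9 0 (k v (k v r))) r)) (k r (k (u 5 2 (k v (k (c 13 4099 r (u 9 1 (k v (k v r)))) (k (c 9 4095 r (u 13 0 (k v (k v r)))) r)))) r)))))))))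
 .z .z) (.s 0x7f2bbe002a2288 4091 (n false (n true (n true (z 52) e) e) (n false (n false (n false e e) (n false e e)) (n false (n false e e) (n false e e)))) (u 8 126 (k v (k v (k v (k v (k v (k v (k v r))))))))
 .z .z)) (.s 0x7f2fee003fb840 4083 (n false (n true (n true (z 46) e) e) (n true (n true (n true (n false (n true (n false e e) e) (n false e e)) e) e) e)) (u 8 1 (k v (k (u 16 1 (k v (k v r))) (k (c 24 4099 r (u 16 0 (k v (k v r)))) (k (u 16 1 (k v (k v r))) (k (c 24 4097 r (u 16 1 (k v (k v r)))) (k (c 16 4095 r (u 24 1 (k v (k v r)))) r)))))))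
 (.s 0x7f2bff003fb840 4083 (n false (n true (n true (z 124) e) e) (n true (n true (n true (n false (n true (n false e e) e) (n false e e)) e) e) e)) (u 8 1 (k v (k (c 24 4097 r (u 16 1 (k v (k v r)))) (k (c 24 4096 r (u 16 1 (k v (k v r)))) (k (c 16 4098 r (u 24 0 (k v (k v r)))) (k (c 24 4096 r (u 16 1 (k v (k v r)))) (k (c 24 4097 r (u 16 1 (k v (k v r)))) (k (c 24 4097 r (u 16 1 (k v (k v r)))) (k (c 24 4096 r (u 16 1 (k v (k v r)))) (k (c 24 4099 r (u 16 1 (k v (k v r)))) (k (c 16 4097 r (u 24 1 (k v (k v r)))) r)))))))))))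
 .z .z) (.s 0x7f3aff003fb840 4085 (n false (n true (n true (z 121) e) e) (n true (n true (n true (n false (n true (n false e e) e) (n false e e)) e) e) e)) (u 8 4 (k v (k v (k (c 24 4099 r (u 16 1 (k v (k v r)))) (k (c 16 4097 r (u 24 1 (k v (k v r)))) r)))))
 .z .z))) (.s 0x7f53bae0041708 4077 (n false (n true (n true (n false (n false (z 37) e) (n false e e)) e) e) (n false (n true (n false e e) e) (n false e e))) (u 32 58 (k v (k v (k v (k (u 64 33 (k v (k v (k v (k v r))))) r)))))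
 (.s 0x7f4bbb8020ae10 4081 (n false (n true (n true (n false (z 42) (n false e e)) e) e) (n false (n false (n true (n false e e) e) (n false e e)) e)) (u 16 35 (k v (k v (k (c 4 4085 (t 12 1 (u 8 0 (k r r))) v) r))))
 (.s 0x7f3fab003fb840 4086 (n false (n true (n true (z 71) e) e) (n true (n true (n true (n false (n true (n false e e) e) (n false e e)) e) e) e)) (u 8 5 (k v (k (u 16 0 (k v (k v r))) (k (c 24 4099 r (u 16 1 (k v (k v r)))) (k (c 16 4099 r (u 24 1 (k v (k v r)))) (k (c 16 4099 r (u 24 1 (k v (k v r)))) (k (c 16 4099 r (u 24 1 (k v (k v r)))) r)))))))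
 .z .z) (.s 0x7f4bbb8020ee10 4079 (n false (n true (n true (n false (z 42) (n false e e)) e) e) (n true (n false (n true (n false e e) e) (n false e e)) e)) (u 16 11 (k v (k v (k (c 4 4085 (t 12 1 (u 8 0 (k r r))) v) r))))
 .z .z)) (.s 0x7fcaffc007dc20 4086 (n false (n true (n true (n true (z 124) e) e) e) (n true (n true (n false (n true (n false e e) e) (n false e e)) e) e)) (u 16 5 (k v (k (c 48 4097 r (u 32 1 (k v (k v r)))) (k (c 48 4096 r (u 32 1 (k v (k v r)))) (k (c 32 4098 r (u 48 0 (k v (k v r)))) (k (c 48 4096 r (u 32 1 (k v (k v r)))) (k (c 48 4097 r (u 32 1 (k v (k v r)))) (k (c 48 4097 r (u 32 1 (k v (k v r)))) (k (c 48 4096 r (u 32 1 (k v (k v r)))) (k (c 32 4097 r (u 48 1 (k v (k v r)))) r))))))))))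
 (.s 0x7f72bfa8001708 4084 (n false (n true (n true (n false (n true (z 156) e) e) e) e) (n false (n true (n false e e) e) (n false e e))) (u 32 8 (k v (k v (k (c 96 4099 r (u 64 1 (k v (k v r)))) (k (c 64 4098 r (u 96 1 (k v (k v r)))) (k (c 64 4097 r (u 96 1 (k v (k v r)))) (k (c 64 4099 r (u 96 1 (k v (k v r)))) r)))))))
 .z .z) .z))) (.s 0x3a55550027f5600 4090 (n false (n false (z 128) (z 71)) e) (u 6 1 (k r (k (c 14 4099 r (u 10 1 (k r (k r r)))) (k (t 4 1 r) (k (c 10 4099 r (u 14 1 (k r (k r r)))) (k (c 10 4099 r (u 14 1 (k r (k r r)))) (k (c 10 4099 r (u 14 1 (k r (k r r)))) r)))))))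
 (.s 0x395fd40095fd400 4100 (n false (z 156) (z 156)) (u 2 1 (k r (k (c 6 4099 r r) (k (c 4 4098 r r) (k (c 4 4097 r (u 3 1 (k (u 6 1 (k v (k v r))) (k (c 7 4099 r r) (k (c 5 4098 r r) (k (c 5 4097 r (u 6 1 (k (u 7 1 (k v (k v r))) (k (u 7 1 (k v (k v r))) r)))) (k (c 5 4099 r r) (k (c 5 4095 r (u 6 1 (k (u 7 0 (k v (k v r))) (k (u 7 0 (k v (k v r))) r)))) r)))))))) (k (c 4 4099 r r) (k (c 4 4095 r (u 3 2 (k r (k (c 7 4099 r r) (k (c 5 4095 r r) r))))) r)))))))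
 (.s 0x7ff3eab000ee10 4090 (n false (n true (n true (n true (n true (z 67) e) e) e) e) (n true (n false (n true (n false e e) e) (n false e e)) e)) (u 32 111 (k v (k v (k v (k v (k (c 64 4101 r (u 96 0 (k v (k v r)))) (k (c 16 4088 r v) (k (c 96 4101 r (u 64 1 (k v (k v r)))) (k (c 96 4102 r (u 64 1 (k v (k v r)))) (k (c 64 4101 r (u 96 1 (k v (k v r)))) (k (c 64 4101 r (u 96 1 (k v (k v r)))) r)))))))))))
 (.s 0x7fd2eee0081708 4083 (n false (n true (n true (n true (n false (z 42) (n false e e)) e) e) e) (n false (n true (n false e e) e) (n false e e))) (u 32 35 (k v (k v (k (c 8 4085 (t 12 1 (u 8 0 (k r r))) v) r))))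
 .z .z) (.s 0x395fd4009555400 4095 (n false (z 128) (z 156)) (u 3 1 (k r (k (c 7 4099 r (u 5 1 (k r (k r r)))) (k (c 5 4098 r (u 7 1 (k r (k r r)))) (k (c 5 4097 r (u 7 1 (k r (k r r)))) (k (c 5 4099 r (u 7 1 (k r (k r r)))) (k (c 5 4095 r (u 7 0 (k r (k r r)))) r)))))))
 .z .z)) (.s 0x3a555500275fe00 4091 (n false (n false (z 128) (z 121)) e) (u 6 1 (k r (k (c 14 4099 r (u 10 1 (k r (k r r)))) (k (c 10 4097 r (u 14 1 (k r (k r r)))) (k (c 10 4095 r (t 4 1 r)) (k (c 10 4095 r (t 4 1 r)) r))))))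
 (.s 0x3a55550022ee108 4078 (n false (n false (z 128) (n false e e)) (n false (n true (n false (n true (n false e e) e) (n false e e)) e) (n false e e))) (u 4 11 (k v (k v (k v (k (c 12 4097 r r) (k (c 8 4095 r r) (k (c 8 4095 r (u 12 0 (k v (k v r)))) (k (c 12 4095 r (u 8 0 (k v (k v r)))) (k (c 8 4095 r r) (k (c 8 4095 r (u 12 0 (k v (k v r)))) r))))))))))
 .z .z) .z)) (.s 0x3a555c0113fab00 4088 (n false (n false (z 32) (n false e e)) (z 71)) (u 3 6 (k (t 7 1 r) (k r (k (u 4 0 (k (t 8 3 (t 12 1 (u 5 6 (k v (k (t 13 1 (u 9 15 (k v (k v (k v r))))) (k (t 9 2 (u 13 15 (k v (k v (k v r))))) (k (t 9 1 (u 13 15 (k v (k v (k v r))))) r))))))) r)) (k (t 4 2 (t 7 1 r)) (k (t 4 2 (t 7 1 r)) (k (t 4 2 (t 7 1 r)) r)))))))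
 (.s 0x3a555c0112eba00 4088 (n false (n false (z 32) (n false e e)) (z 18)) (u 4 0 (k (c 12 4101 r (t 8 3 (u 3 0 (k (u 5 0 (k v (k v r))) r)))) r))
 (.s 0x3a555c0112bbb00 4092 (n false (z 84) (n false (z 32) (n false e e))) (u 5 0 (k (c 13 4101 r (t 9 3 (u 2 0 (k (u 4 0 (k v (k (u 8 7 (k v (k v (k v (k (c 24 4099 r (u 16 1 (k v (k v r)))) r))))) r))) r)))) r))
 .z .z) (.s 0x3a555c0112ebe00 4088 (n false (n false (z 32) (n false e e)) (z 50)) (u 4 0 (k (c 12 4101 r (t 8 3 r)) r))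
 .z .z)) (.s 0x3a55f40115f4408 4086 (n false (n false (z 24) (n false e e)) (n false (n false (n true (n true (n false (n false e e) (n false e e)) e) e) e) (n false e e))) (c 2 4096 (c 2 4098 r v) v)
 (.s 0x3a557c0112bbe00 4094 (n false (z 52) (n false (z 48) (n false e e))) (u 5 22 (k r (k (c 3 4090 v r) (k (c 13 4099 r (t 9 3 (u 2 113 (k v (k v (k v (k v (k v (k v r))))))))) (k (u 9 4 (k r (k (t 25 1 (u 17 4 (k r (k (c 5 4092 v (c 3 4094 v r)) r)))) r))) (k (u 9 3 (k r (k (t 25 1 (u 17 33 (k r (k r (k (u 2 114 (k v (k v (k v (k v r))))) r))))) (k (c 5 4091 (t 6 1 r) (c 3 4094 v r)) r)))) r))))))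
 .z .z) .z))))

set_option maxRecDepth 100000 in
def N90 : NT :=
(.s 0x3a57f50025df400 4091 (n false (n false (z 156) (z 26)) e) (u 6 0 (k (u 4 13 (k v (k v (k (c 12 4099 r (u 8 1 (k v (k v r)))) (k (c 8 4098 r (u 12 1 (k v (k v r)))) (k (c 8 4097 r (c 10 4099 v r)) (k (c 8 4099 r (u 12 1 (k v (k v r)))) (k (c 8 4095 r (u 12 0 (k v (k v r)))) r)))))))) (k (c 4 4101 r v) (k (t 4 1 (u 10 1 (k v (k v r)))) r))))
 (.s 0x3a577c011544510 4090 (n false (n false (z 52) (n false e e)) (n false (n false (n false (n false e e) (n false e e)) (n false (n false e e) (n false e e))) e)) (u 4 6 (k v (k v (k (t 12 1 (u 8 6 (k v (k v r)))) r))))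
 (.s 0x3a575e011544510 4088 (n false (n false (z 100) (n false e e)) (n false (n false (n false (n false e e) (n false e e)) (n false (n false e e) (n false e e))) e)) (u 4 3 (k v (k (c 12 4096 r (u 8 1 (k v (k v r)))) (k (c 12 4097 r r) (k (c 12 4096 r r) (k (c 12 4096 r r) r))))))
 (.s 0x3a55fe0113fab00 4090 (n false (z 71) (n false (z 120) (n false e e))) (u 2 1 (k r (k (c 6 4099 r (u 4 1 (k r (k r r)))) (k (u 4 23 (k r (k (c 2 4094 v r) r))) (k (c 4 4099 r (u 6 1 (k r (k r r)))) (k (c 4 4099 r (u 6 1 (k r (k r r)))) (k (c 4 4099 r (u 6 1 (k r (k r r)))) r)))))))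
 (.s 0x3a55fc01708ee10 4071 (n false (n false (z 56) (n false (n true (n false e e) e) (n false e e))) (n true (n false (n true (n false e e) e) (n false e e)) e)) (u 4 0 (k (u 8 207 (k v (k v (k v (k v (k v (k v (k (t 24 1 (u 16 0 (k v (k v r)))) r)))))))) (k (c 8 4096 r (u 12 0 (k v (k v r)))) (k (u 8 1 (k v (k v r))) (k (c 12 4096 r (u 8 176 (k v (k v (k v (k v (k v (k v (k (t 24 1 (u 16 0 (k v (k v r)))) r))))))))) r)))))
 .z .z) (.s 0x3a55fe011544510 4088 (n false (n false (z 120) (n false e e)) (n false (n false (n false (n false e e) (n false e e)) (n false (n false e e) (n false e e))) e)) (u 4 25 (k v (k (c 12 4099 r r) (k (c 12 4099 r r) (k (c 12 4096 r r) (k (c 12 4100 r (u 8 0 (k (u 16 0 (k v (k v r))) r))) (k (c 12 4101 r r) (k (c 8 4099 r r) (k (c 12 4100 r r) (k (c 12 4097 r r) (k (c 12 4099 r r) (k (c 8 4099 r r) (k (c 12 4097 r r) r)))))))))))))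
 .z .z)) (.s 0x3a577c00a577c00 4094 (n false (n false (z 52) e) (n false (z 52) e)) (u 4 115 (k r (k r (k r (k (u 5 116 (k v (k v (k v (k v (k v (k v (k v (k v r))))))))) (k (t 12 1 (u 5 115 (k (u 8 0 (k v (k v r))) (k (u 8 0 (k v (k v r))) (k (u 8 0 (k v (k v r))) (k (t 8 1 v) (k (t 13 1 (u 8 7 (k (u 9 0 (k v (k v r))) (k (u 9 0 (k v (k v r))) r)))) r))))))) r))))))
 (.s 0x3a5775001544510 4091 (n false (n false (z 148) e) (n false (n false (n false (n false e e) (n false e e)) (n false (n false e e) (n false e e))) e)) (u 4 3 (k v (k v (k (t 12 3 (u 8 29 (k v (k v (k v (k (c 24 4099 r (u 16 7 (k v (k v (k v r))))) r)))))) r))))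
 .z .z) (.s 0x3a577c0113eee00 4096 (n false (n false (z 52) (n false e e)) (z 43)) (u 3 13 (k r (k r (k (u 5 3 (k r (k r (k (c 3 4094 v r) r)))) (k (c 7 4099 r r) (k (t 4 1 r) (k (u 5 0 (k (u 9 0 (k r (k r r))) r)) (k (u 5 30 (k r (k r (k r (k (c 9 4097 r (u 13 1 (k r (k r r)))) r))))) (k (u 5 1 (k r (k (c 13 4099 r (u 9 1 (k r (k r r)))) (k (c 9 4098 r (u 13 1 (k r (k r r)))) (k (c 9 4097 r (u 13 1 (k r (k r r)))) (k (c 9 4099 r (u 13 1 (k r (k r r)))) (k (c 9 4095 r (u 13 0 (k r (k r r)))) r))))))) r)))))))))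
 .z .z))) (.s 0x3a577c01dc21708 4062 (n false (n false (z 52) (n true (n false (n true (n false e e) e) (n false e e)) e)) (n false (n true (n false e e) e) (n false e e))) (u 4 45 (k v (k v (k v (k v r)))))
 (.s 0x3a577c015c21708 4062 (n false (n false (z 52) (n false (n false (n true (n false e e) e) (n false e e)) e)) (n false (n true (n false e e) e) (n false e e))) (u 4 45 (k v (k v (k v (k v r)))))
 (.s 0x3a577c011d44510 4086 (n false (n false (z 52) (n false e e)) (n true (n false (n false (n false e e) (n false e e)) (n false (n false e e) (n false e e))) e)) (u 4 84 (k v (k v (k v (k v (k (t 12 1 (u 8 0 (k v (k v r)))) r))))))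
 .z .z) (.s 0x3a577c01d05d108 4074 (n false (n false (z 52) (n true (n false (n false e e) e) e)) (n false (n true (n false (n false e e) (n false e e)) e) (n false e e))) (u 4 204 (k v (k v (k v (k v (k v r))))))
 .z .z)) (.s 0x3a57f50025d7c00 4091 (n false (n false (z 50) (z 156)) e) (u 4 1 (k r (k (c 12 4097 r (u 8 0 (k r (k r r)))) r)))
 (.s 0x3a57f500257fe00 4091 (n false (n false (z 124) (z 156)) e) (u 4 1 (k r (k (c 12 4097 r (u 8 1 (k r (k r r)))) (k (c 12 4096 r (u 8 1 (k r (k r r)))) (k (c 8 4098 r (u 12 0 (k r (k r r)))) (k (c 12 4096 r (u 8 1 (k r (k r r)))) (k (c 12 4097 r (u 8 1 (k r (k r r)))) (k (c 12 4097 r (u 8 1 (k r (k r r)))) (k (c 12 4096 r (u 8 1 (k r (k r r)))) (k (c 12 4099 r (u 8 1 (k r (k r r)))) (k (c 8 4097 r (u 12 1 (k r (k r r)))) r)))))))))))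
 .z .z) .z))) (.s 0x3a57f500385d108 4080 (n false (n false (z 156) (n true (n false e e) e)) (n false (n true (n false (n false e e) (n false e e)) e) (n false e e))) (u 4 1 (k v (k (c 12 4099 r (u 8 1 (k v (k v r)))) (k (c 8 4098 r (u 12 1 (k v (k v r)))) (k (c 8 4097 r (c 3 4090 v r)) (k (c 8 4099 r (u 12 1 (k v (k v r)))) (k (c 8 4095 r (c 3 4090 v r)) r)))))))
 (.s 0x3a57f5002777600 4091 (n false (n false (z 156) (z 85)) e) (u 4 1 (k r (k (c 12 4099 r (u 8 1 (k r (k r r)))) (k (c 8 4098 r (u 12 1 (k r (k r r)))) (k (c 8 4097 r (u 12 1 (k r (k r r)))) (k (c 8 4099 r (u 12 1 (k r (k r r)))) (k (c 8 4095 r (t 6 1 r)) r)))))))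
 (.s 0x3a57f500275fe00 4092 (n false (n false (z 156) (z 121)) e) (u 6 1 (k r (k (c 14 4099 r (u 10 1 (k r (k r r)))) (k (c 10 4097 r (u 14 1 (k r (k r r)))) (k (c 10 4095 r (t 4 1 r)) (k (c 10 4095 r (t 4 1 r)) r))))))
 (.s 0x3a57f50025fdc00 4090 (n false (n false (z 156) (z 46)) e) (u 6 1 (k r (k (u 10 1 (k r (k r r))) (k (c 14 4099 r (u 10 0 (k r (k r r)))) (k (u 4 0 (k r (k (c 12 4099 r r) r))) (k (c 14 4097 r (u 10 1 (k r (k r r)))) (k (c 10 4095 r (u 14 1 (k r (k r r)))) r)))))))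
 .z .z) (.s 0x3a57f5002775c00 4093 (n false (n false (z 156) (z 37)) e) (u 4 1 (k r (k (c 12 4099 r (u 8 1 (k r (k r r)))) (k (c 8 4098 r (u 12 1 (k r (k r r)))) (k (c 8 4097 r (u 12 1 (k r (k r r)))) (k (c 8 4099 r (u 12 1 (k r (k r r)))) (k (c 8 4095 r (t 6 1 r)) r)))))))
 .z .z)) (.s 0x3a57f5002b84288 4070 (n false (n false (z 156) (n false (n false (n true (n false e e) e) (n false e e)) e)) (n false (n false e e) (n false e e))) (u 4 1 (k v (k (c 12 4099 r (u 8 1 (k v (k v r)))) (k (c 8 4098 r (u 12 1 (k v (k v r)))) (k (c 8 4097 r (u 12 1 (k v (k v r)))) (k (c 8 4099 r (u 12 1 (k v (k v r)))) (k (c 8 4095 r (u 12 0 (k v (k v r)))) r)))))))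
 (.s 0x3a57f50027df600 4091 (n false (n false (z 91) (z 156)) e) (u 6 1 (k r (k (c 14 4099 r (u 10 1 (k r (k r r)))) (k (c 10 4098 r (u 14 1 (k r (k r r)))) (k (c 10 4097 r r) (k (c 10 4099 r (u 14 1 (k r (k r r)))) (k (c 10 4095 r (t 4 2 r)) r)))))))
 .z .z) .z)) (.s 0x3a57fe012bff008 4086 (n false (n false (z 124) (z 124)) (n false e e)) (u 4 5 (k r (k (c 12 4097 r r) (k (c 12 4096 r r) (k (c 8 4098 r (u 12 0 (k r (k r r)))) (k (c 12 4096 r r) (k (c 12 4097 r r) (k (c 12 4097 r r) (k (c 12 4096 r r) (k (c 8 4097 r r) r))))))))))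
 (.s 0x3a57fe0112bbe00 4089 (n false (n false (z 124) (n false e e)) (z 52)) (u 4 5 (k r (k (c 12 4097 r (u 8 1 (k r (k r r)))) (k (c 12 4096 r (u 8 1 (k r (k r r)))) (k (c 8 4098 r (u 12 0 (k r (k r r)))) (k (c 12 4096 r (u 8 1 (k r (k r r)))) (k (c 12 4097 r (u 8 1 (k r (k r r)))) (k (c 12 4097 r (u 8 1 (k r (k r r)))) (k (c 12 4096 r (u 8 1 (k r (k r r)))) (k (c 8 4097 r (u 12 1 (k r (k r r)))) r))))))))))
 (.s 0x3a57f5003b84288 4067 (n false (n false (z 156) (n true (n false (n true (n false e e) e) (n false e e)) e)) (n false (n false e e) (n false e e))) (u 4 1 (k v (k (c 12 4099 r (u 8 1 (k v (k v r)))) (k (c 8 4098 r (u 12 1 (k v (k v r)))) (k (c 8 4097 r (u 12 1 (k v (k v r)))) (k (c 8 4099 r (u 12 1 (k v (k v r)))) (k (c 8 4095 r (u 12 0 (k v (k v r)))) r)))))))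
 .z .z) (.s 0x3a57fe012aff008 4094 (n false (n false (z 120) (z 124)) (n false e e)) (u 6 5 (k r (k (c 14 4097 r (u 10 1 (k r (k r r)))) (k (c 14 4096 r (u 10 1 (k r (k r r)))) (k (c 10 4098 r (u 14 0 (k r (k r r)))) (k (c 14 4096 r (u 10 1 (k r (k r r)))) (k (c 14 4097 r (u 10 1 (k r (k r r)))) (k (c 14 4097 r (u 10 1 (k r (k r r)))) (k (c 14 4096 r (u 10 1 (k r (k r r)))) (k (c 10 4097 r (u 14 1 (k r (k r r)))) r))))))))))
 .z .z)) (.s 0x3a57fe01dc21d10 4071 (n false (n false (z 124) (n true (n false (n true (n false e e) e) (n false e e)) e)) (n true (n false (n false e e) (n false e e)) e)) (u 4 5 (k v (k (c 12 4097 r (u 8 1 (k v (k v r)))) (k (c 12 4096 r (u 8 1 (k v (k v r)))) (k (c 8 4098 r (u 12 0 (k v (k v r)))) (k (c 12 4096 r (u 8 1 (k v (k v r)))) (k (c 12 4097 r (u 8 1 (k v (k v r)))) (k (c 12 4097 r (u 8 1 (k v (k v r)))) (k (c 12 4096 r (u 8 1 (k v (k v r)))) (k (c 8 4097 r (u 12 1 (k v (k v r))))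 r))))))))))
 (.s 0x3a57fe01dc21708 4066 (n false (n false (z 124) (n true (n false (n true (n false e e) e) (n false e e)) e)) (n false (n true (n false e e) e) (n false e e))) (u 4 14 (k v (k (c 12 4097 r (u 8 0 (k v (k v r)))) (k (c 12 4096 r (u 8 0 (k v (k v r)))) (k (c 12 4097 r (u 8 0 (k v (k v r)))) (k (c 12 4099 r (u 8 0 (k v (k v r)))) r))))))
 .z .z) .z))))

set_option maxRecDepth 100000 in
def N91 : NT :=
(.s 0x3a5df40112eee00 4086 (n false (n false (z 26) (n false e e)) (z 42)) (u 4 2 (k r (k (c 3 4100 r (u 8 1 (k v (k v r)))) r)))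
 (.s 0x3a5ddc0113efb00 4088 (n false (z 91) (n false (z 42) (n false e e))) (u 5 11 (k r (k r (k (c 2 4098 r (t 13 1 (u 9 0 (k r r)))) r))))
 (.s 0x3a5ddc0113aff00 4091 (n false (n false (z 42) (n false e e)) (z 121)) (u 4 11 (k r (k r (k (c 2 4086 (t 6 1 (u 4 0 (k r r))) (t 3 2 v)) r))))
 (.s 0x3a5ddc0112efb00 4090 (n false (z 90) (n false (z 42) (n false e e))) (u 5 11 (k r (k r (k (c 2 4098 r (t 13 1 (u 9 0 (k r r)))) r))))
 (.s 0x3a5ddc0112efa00 4088 (n false (n false (z 42) (n false e e)) (z 26)) (u 4 64 (k r (k r (k r (k r (k (u 8 2 (k (u 3 2 (k v (k (c 2 4092 v (u 5 1 (k v (k v r)))) r))) (k (u 3 9 (k v (k v (k (c 4 4097 v r) r)))) r))) (k (c 3 4097 r r) (k (c 3 4097 r r) r))))))))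
 .z .z) (.s 0x3a5ddc0112fee00 4088 (n false (z 46) (n false (z 42) (n false e e))) (u 5 11 (k r (k r (k (c 2 4099 r (t 13 1 (u 9 0 (k r r)))) r))))
 .z .z)) (.s 0x3a5ddc0113bbb00 4088 (n false (z 85) (n false (z 42) (n false e e))) (u 5 11 (k r (k r (k (c 2 4099 r (t 13 1 (u 9 0 (k r r)))) r))))
 (.s 0x3a5ddc0113bae00 4091 (n false (n false (z 42) (n false e e)) (z 37)) (u 4 11 (k r (k r (k (c 3 4101 r (t 12 1 (u 8 0 (k r r)))) r))))
 .z .z) (.s 0x3a5ddc0113eee00 4090 (n false (n false (z 42) (n false e e)) (z 43)) (u 4 11 (k r (k r (k (c 2 4086 (t 6 1 (u 4 0 (k r r))) (t 3 2 v)) r))))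
 .z .z))) (.s 0x3a5ddc011544510 4088 (n false (n false (z 42) (n false e e)) (n false (n false (n false (n false e e) (n false e e)) (n false (n false e e) (n false e e))) e)) (u 4 45 (k v (k v (k v (k (u 8 2 (k v (k v r))) (k (u 8 34 (k v (k v (k v (k v r))))) (k (u 8 20 (k v (k v (k v (k (c 24 4099 r (u 16 1 (k v (k v r)))) (k (c 16 4099 r (u 24 1 (k v (k v r)))) r)))))) r)))))))
 (.s 0x3a5ddc0113fab00 4090 (n false (n false (z 42) (n false e e)) (z 71)) (u 3 5 (k r (k r (k (t 7 1 r) (k (c 7 4100 r r) (k (t 7 1 (t 4 1 r)) (k (c 7 4100 r (u 5 11 (k r (k r (k (c 13 4097 r (u 9 1 (k r (k r r)))) (k (c 13 4096 r (u 9 1 (k r (k r r)))) (k (c 13 4097 r (u 9 1 (k r (k r r)))) (k (c 13 4097 r (u 9 1 (k r (k r r)))) (k (c 13 4099 r (u 9 1 (k r (k r r)))) (k (c 9 4097 r (u 13 1 (k r (k r r)))) r)))))))))) r)))))))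
 (.s 0x3a5ddc0113eff00 4088 (n false (z 123) (n false (z 42) (n false e e))) (u 2 49 (k r (k (t 5 1 v) (k r (k r (k (t 5 1 r) (k r (k (c 4 4096 r (u 6 1 (k r (k r r)))) (k (t 6 2 (t 5 1 r)) (k (c 6 4097 r r) r))))))))))
 .z .z) (.s 0x3a5ddc0113feb00 4090 (n false (n false (z 42) (n false e e)) (z 79)) (u 4 11 (k r (k r (k (c 3 4101 r (t 12 1 (u 8 0 (k r r)))) r))))
 .z .z)) (.s 0x3a5ddc01d05d108 4074 (n false (n false (z 42) (n true (n false (n false e e) e) e)) (n false (n true (n false (n false e e) (n false e e)) e) (n false e e))) (u 4 36 (k v (k v (k (u 8 2 (k v (k v r))) (k (u 8 0 (k v (k (u 16 18 (k v (k v (k v (k (c 48 4099 r (u 32 19 (k v (k v (k v r))))) r))))) r))) (k (u 8 38 (k v (k v (k v (k v r))))) (k (u 8 2 (k v (k (c 24 4099 r (u 16 1 (k v (k v r)))) (k (c 16 4095 r (u 24 0 (k v (k v r)))) r)))) r)))))))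
 (.s 0x3a5ddc011d44510 4087 (n false (n false (z 42) (n false e e)) (n true (n false (n false (n false e e) (n false e e)) (n false (n false e e) (n false e e))) e)) (u 4 45 (k v (k v (k v (k (u 8 2 (k v (k v r))) (k (u 8 21 (k v (k v (k v (k (c 16 4097 r (u 24 1 (k v (k v r)))) r))))) (k (u 8 8 (k v (k v (k (c 24 4099 r (u 16 1 (k v (k v r)))) (k (c 16 4098 r (u 24 1 (k v (k v r)))) (k (c 16 4097 r (u 24 1 (k v (k v r)))) (k (c 16 4099 r (u 24 1 (k v (k v r)))) r))))))) r)))))))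
 .z .z) .z))) (.s 0x3a5fdc012bff008 4085 (n false (n false (z 124) (z 46)) (n false e e)) (u 4 5 (k r (k (c 12 4097 r (u 8 1 (k r (k r r)))) (k (c 12 4096 r (u 8 1 (k r (k r r)))) (k (c 8 4098 r (u 12 0 (k r (k r r)))) (k (c 12 4096 r (u 8 1 (k r (k r r)))) (k (c 12 4097 r (u 8 1 (k r (k r r)))) (k (c 12 4097 r (u 8 1 (k r (k r r)))) (k (c 12 4096 r (u 8 1 (k r (k r r)))) (k (c 8 4097 r (u 12 1 (k r (k r r)))) r))))))))))
 (.s 0x3a5df40113fab00 4088 (n false (n false (z 26) (n false e e)) (z 71)) (u 4 2 (k (u 3 1 (k v (k (c 7 4099 r (u 5 1 (k v (k v r)))) (k (u 5 0 (k v (k v r))) (k (c 5 4099 r (u 7 1 (k v (k v r)))) (k (c 5 4099 r (u 7 1 (k v (k v r)))) (k (c 5 4099 r (u 7 1 (k v (k v r)))) r))))))) (k (c 3 4102 r (u 8 1 (k v (k v r)))) r)))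
 (.s 0x3a5df40113bae00 4088 (n false (n false (z 26) (n false e e)) (z 37)) (u 4 2 (k (u 3 1 (k v (k v r))) (k (c 3 4101 r (u 8 1 (k v (k v r)))) r)))
 (.s 0x3a5df40113aff00 4087 (n false (n false (z 26) (n false e e)) (z 121)) (u 4 2 (k r (k (c 3 4101 r (u 8 1 (k v (k v r)))) r)))
 .z .z) (.s 0x3a5df40113eff00 4088 (n false (z 123) (n false (z 26) (n false e e))) (u 5 2 (k r (k (c 2 4100 r (u 9 1 (k v (k v r)))) r)))
 .z .z)) (.s 0x3a5fdc012aff008 4093 (n false (n false (z 120) (z 46)) (n false e e)) (u 6 1 (k r (k (t 4 2 r) (k (c 14 4099 r (u 10 0 (k r (k r r)))) (k (u 10 1 (k r (k r r))) (k (c 14 4097 r (t 4 2 r)) (k (c 10 4095 r (t 4 2 r)) r)))))))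
 (.s 0x3a5df4011d44510 4082 (n false (n false (z 26) (n false e e)) (n true (n false (n false (n false e e) (n false e e)) (n false (n false e e) (n false e e))) e)) (u 4 2 (k v (k (u 8 2 (k v (k v r))) r)))
 .z .z) .z)) (.s 0x3a5fdc01dc21708 4066 (n false (n false (z 46) (n true (n false (n true (n false e e) e) (n false e e)) e)) (n false (n true (n false e e) e) (n false e e))) (u 4 1 (k v (k (u 8 0 (k v (k v r))) (k (c 12 4099 r (u 8 0 (k v (k v r)))) (k (u 8 0 (k v (k v r))) (k (c 12 4097 r (u 8 0 (k v (k v r)))) (k (c 8 4095 r (u 12 0 (k v (k v r)))) r)))))))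
 (.s 0x3a5fdc015c21708 4067 (n false (n false (z 46) (n false (n false (n true (n false e e) e) (n false e e)) e)) (n false (n true (n false e e) e) (n false e e))) (u 4 0 (k v (k (u 8 0 (k v (k v r))) (k (u 8 0 (k v (k v r))) (k (c 12 4099 r (u 8 3 (k v (k v (k v r))))) (k (c 12 4097 r (u 8 0 (k v (k v r)))) (k (c 8 4095 r (u 12 0 (k v (k v r)))) r)))))))
 (.s 0x3a5fdc012fee008 4082 (n false (n false (z 46) (z 46)) (n false e e)) (u 4 1 (k r (k r (k (c 12 4099 r (u 8 0 (k r (k r r)))) (k (u 6 2 (k (u 8 1 (k v (k v r))) (k (c 14 4099 r (u 10 0 (k (u 8 1 (k v (k v r))) (k (u 8 1 (k v (k v r))) r)))) (k r (k (u 8 1 (k (u 10 1 (k v (k v r))) (k (u 10 1 (k v (k v r))) r))) (k (c 14 4097 r r) (k (c 10 4095 r r) r))))))) (k (c 12 4097 r r) (k (c 8 4095 r r) r)))))))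
 .z .z) (.s 0x3a5fdc01708ae10 4077 (n false (n false (z 46) (n false (n true (n false e e) e) (n false e e))) (n false (n false (n true (n false e e) e) (n false e e)) e)) (u 4 1 (k v (k (u 8 1 (k v (k v r))) (k (c 12 4099 r (u 8 0 (k v (k v r)))) (k (c 3 4091 v (c 10 4094 v r)) (k (c 12 4097 r (u 8 1 (k v (k v r)))) (k (c 8 4095 r (u 12 1 (k v (k v r)))) r)))))))
 .z .z)) (.s 0x3a75f60112efa00 4088 (n false (n false (z 89) (n false e e)) (z 26)) (u 4 19 (k r (k r (k (c 3 4097 r v) r))))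
 (.s 0x3a5fde012bea008 4091 (n false (n false (z 110) (z 12)) (n false e e)) (t 6 3 (u 4 0 (k (c 12 4097 r (c 10 4099 v r)) r)))
 .z .z) .z))))

set_option maxRecDepth 100000 in
def N92 : NT :=
(.s 0x3a75fe01dc21d10 4072 (n false (n false (z 121) (n true (n false (n true (n false e e) e) (n false e e)) e)) (n true (n false (n false e e) (n false e e)) e)) (u 4 1 (k v (k (c 12 4099 r (u 8 1 (k v (k v r)))) (k (c 8 4097 r (u 12 1 (k v (k v r)))) (k (c 8 4095 r (u 12 0 (k v (k v r)))) (k (c 8 4095 r (u 12 0 (k v (k v r)))) r))))))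
 (.s 0x3a75fe012aff008 4094 (n false (n false (z 120) (z 121)) (n false e e)) (u 6 1 (k r (k (c 14 4099 r (u 10 1 (k r (k r r)))) (k (c 10 4097 r (t 4 2 r)) (k (c 10 4095 r (c 2 4096 r v)) (k (c 10 4095 r (c 2 4096 r v)) r))))))
 (.s 0x3a75f60113fab00 4088 (n false (n false (z 89) (n false e e)) (z 71)) (u 4 62 (k r (k r (k r (k (c 12 4099 r r) r)))))
 (.s 0x3a75f60113bae00 4088 (n false (n false (z 89) (n false e e)) (z 37)) (u 4 19 (k r (k r (k (u 3 0 (k v (k (u 5 0 (k (t 9 3 (t 13 1 v)) r)) (k (u 5 0 (k (t 9 3 (t 13 1 v)) r)) (k (u 5 10 (k v (k v (k v (k (t 13 1 (u 9 0 (k (t 17 3 (t 25 1 v)) r))) r))))) (k (u 5 10 (k v (k v (k v (k (t 13 1 (u 9 0 (k (t 17 3 (t 25 1 v)) r))) r))))) (k (c 3 4095 r v) r))))))) r))))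
 (.s 0x3a75f60113aff00 4088 (n false (n false (z 89) (n false e e)) (z 121)) (u 4 43 (k r (k r (k (u 3 1 (k v (k (c 7 4099 r (u 5 1 (k v (k v r)))) (k (c 5 4097 r (u 7 1 (k v (k v r)))) (k (c 5 4095 r (u 7 0 (k v (k v r)))) (k (c 5 4095 r (u 7 0 (k v (k v r)))) r)))))) r))))
 .z .z) (.s 0x3a75f60113bbb00 4088 (n false (z 85) (n false (z 89) (n false e e))) (u 5 19 (k r (k r (k (u 2 32 (k v (k v (k (c 6 4099 r r) (k (c 2 4097 r v) (k (c 6 4096 r (c 9 4091 v r)) (k (c 4 4099 r r) r))))))) r))))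
 .z .z)) (.s 0x3a75f601c3fb840 4084 (n false (n false (z 89) (n true (n false e e) e)) (n true (n true (n true (n false (n true (n false e e) e) (n false e e)) e) e) e)) (c 6 4094 v (u 4 0 (k v (k v (k v (k (t 12 2 (u 8 25 (k v (k v (k v (k (t 24 1 (u 16 3 (k v (k v r)))) r)))))) r))))))
 (.s 0x3a75f60113feb00 4090 (n false (z 79) (n false (z 89) (n false e e))) (u 5 19 (k r (k r (k (u 2 3 (k v (k (u 4 20 (k v (k v (k v (k v r))))) (k (c 6 4096 r (u 4 1 (k v (k v r)))) r)))) r))))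
 .z .z) (.s 0x3a75fe0112bbe00 4088 (n false (n false (z 121) (n false e e)) (z 52)) (u 4 1 (k r (k (c 12 4099 r (u 8 1 (k r (k r r)))) (k (c 8 4097 r (u 12 1 (k r (k r r)))) (k (c 8 4095 r (c 3 4097 r r)) (k (c 8 4095 r (c 3 4097 r r)) r))))))
 .z .z))) (.s 0x3a75fe01708ae10 4076 (n false (n false (z 121) (n false (n true (n false e e) e) (n false e e))) (n false (n false (n true (n false e e) e) (n false e e)) e)) (u 4 1 (k v (k (c 12 4099 r (u 8 1 (k v (k v r)))) (k (c 8 4097 r (u 12 1 (k v (k v r)))) (k (c 8 4095 r (u 12 0 (k v (k v r)))) (k (c 8 4095 r (u 12 0 (k v (k v r)))) r))))))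
 (.s 0x3a75fe012fee008 4085 (n false (n false (z 121) (z 46)) (n false e e)) (u 4 1 (k r (k (c 12 4099 r (u 8 1 (k r (k r r)))) (k (c 8 4097 r r) (k (c 8 4095 r (t 6 1 r)) (k (c 8 4095 r (t 6 1 r)) r))))))
 (.s 0x3a75fe012bff008 4085 (n false (n false (z 121) (z 124)) (n false e e)) (u 6 5 (k r (k (c 14 4097 r r) (k (c 14 4096 r r) (k (c 10 4098 r r) (k (c 14 4096 r r) (k (c 14 4097 r r) (k (c 14 4097 r r) (k (c 14 4096 r r) (k (c 10 4097 r r) r))))))))))
 .z .z) (.s 0x3a75fe013afb008 4091 (n false (n false (z 121) (z 89)) (n false e e)) (u 4 56 (k (c 2 4081 r v) (k r (k (c 12 4099 r r) (k (c 8 4095 r (t 6 2 r)) (k (c 8 4095 r (t 6 2 r)) r))))))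
 .z .z)) (.s 0x3a75fe01dc21708 4068 (n false (n false (z 121) (n true (n false (n true (n false e e) e) (n false e e)) e)) (n false (n true (n false e e) e) (n false e e))) (u 4 0 (k v (k v (k (c 12 4099 r (u 8 0 (k v (k v r)))) r))))
 (.s 0x3a75fe01708ee10 4075 (n false (n false (z 121) (n false (n true (n false e e) e) (n false e e))) (n true (n false (n true (n false e e) e) (n false e e)) e)) (u 4 1 (k v (k (c 12 4099 r (u 8 1 (k v (k v r)))) (k (c 8 4097 r (u 12 1 (k v (k v r)))) (k (c 8 4095 r r) (k (c 8 4095 r r) r))))))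
 .z .z) .z))) (.s 0x3a775c013bae008 4085 (n false (n false (z 37) (z 37)) (n false e e)) (u 4 0 (k r (k r (k r (k r (k r (k (u 6 1 (k r (k (u 8 5 (k v (k v r))) r))) r)))))))
 (.s 0x3a775c012fee008 4087 (n false (n false (z 46) (z 37)) (n false e e)) (u 4 1 (k r (k (u 8 1 (k r (k r r))) (k (c 12 4099 r (u 8 0 (k r (k r r)))) (k (u 8 31 (k r (k r (k r r)))) (k (c 12 4097 r (u 8 1 (k r (k r r)))) (k (c 8 4095 r (u 12 1 (k r (k r r)))) r)))))))
 (.s 0x3a775c012aff008 4094 (n false (n false (z 120) (z 37)) (n false e e)) (u 4 10 (k (c 2 4085 r v) (k r (k r (k (c 12 4101 r (u 8 5 (k r (k r r)))) (k (c 8 4099 r (u 12 0 (k r (k r r)))) (k (c 12 4096 r (c 2 4096 r v)) (k (c 8 4102 r r) (k (c 12 4099 r (u 8 1 (k r (k r r)))) (k (c 8 4098 r (u 12 1 (k r (k r r)))) (k (c 8 4101 r (u 12 0 (k r (k r r)))) (k (c 12 4097 r r) (k (c 12 4099 r (u 8 1 (k r (k r r)))) (k (c 8 4101 r (u 12 0 (k r (k r r)))) r))))))))))))))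
 (.s 0x3a775c0112bbe00 4088 (n false (n false (z 37) (n false e e)) (z 52)) (u 4 0 (k r (k (c 3 4097 r (u 8 0 (k (t 16 3 (t 24 1 v)) r))) (k r (k (u 8 2 (k r (k r (k (c 3 4097 r v) (k (t 24 1 r) r))))) (k (u 8 2 (k r (k r (k (c 3 4097 r v) (k (t 24 1 r) r))))) (k r r)))))))
 .z .z) (.s 0x3a775c012bff008 4087 (n false (n false (z 124) (z 37)) (n false e e)) (u 4 5 (k r (k (c 12 4097 r (u 8 1 (k r (k r r)))) (k (c 12 4096 r (u 8 1 (k r (k r r)))) (k (c 8 4098 r (u 12 0 (k r (k r r)))) (k (c 12 4096 r (u 8 1 (k r (k r r)))) (k (c 12 4097 r (u 8 1 (k r (k r r)))) (k (c 12 4097 r (u 8 1 (k r (k r r)))) (k (c 12 4096 r (u 8 1 (k r (k r r)))) (k (c 8 4097 r (u 12 1 (k r (k r r)))) r))))))))))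
 .z .z)) (.s 0x3a775c013aff008 4087 (n false (n false (z 121) (z 37)) (n false e e)) (u 4 1 (k r (k (c 12 4099 r (u 8 1 (k r (k r r)))) (k (c 8 4097 r (u 12 1 (k r (k r r)))) (k (c 8 4095 r (t 6 1 r)) (k (c 8 4095 r (t 6 1 r)) r))))))
 (.s 0x3a775c013afb008 4091 (n false (n false (z 89) (z 37)) (n false e e)) (u 4 7 (k (c 2 4085 r v) (k r (k r (k r (k (c 12 4110 r (u 8 1 (k r (k r r)))) (k (t 8 1 (c 2 4088 (u 6 2 (k r (k r r))) v)) (k (t 12 2 (c 2 4088 r v)) r))))))))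
 .z .z) .z)) (.s 0x3a7776012bff008 4088 (n false (n false (z 85) (z 124)) (n false e e)) (u 6 5 (k r (k (c 14 4097 r (u 10 1 (k r (k r r)))) (k (c 14 4096 r (u 10 1 (k r (k r r)))) (k (c 10 4098 r (u 14 0 (k r (k r r)))) (k (c 14 4096 r (u 10 1 (k r (k r r)))) (k (c 14 4097 r (u 10 1 (k r (k r r)))) (k (c 14 4097 r (u 10 1 (k r (k r r)))) (k (c 14 4096 r (u 10 1 (k r (k r r)))) (k (c 10 4097 r (u 14 1 (k r (k r r)))) r))))))))))
 (.s 0x3a775c01708ee10 4075 (n false (n false (z 37) (n false (n true (n false e e) e) (n false e e))) (n true (n false (n true (n false e e) e) (n false e e)) e)) (u 4 22 (k v (k (u 8 0 (k (t 16 3 (t 24 1 v)) r)) (k r (k r (k (u 8 0 (k (t 16 3 (t 24 1 v)) r)) (k r r)))))))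
 (.s 0x3a775c01708ae10 4076 (n false (n false (z 37) (n false (n true (n false e e) e) (n false e e))) (n false (n false (n true (n false e e) e) (n false e e)) e)) (u 4 21 (k v (k (u 8 2 (k v (k v (k v (k (t 24 1 (u 16 0 (k (t 32 3 (t 48 1 v)) r))) r))))) (k (c 3 4091 v r) (k (u 8 0 (k (t 16 3 (t 24 1 v)) r)) (k (u 8 10 (k v (k v (k v (k (t 24 1 (u 16 0 (k (t 32 3 (t 48 1 v)) r))) r))))) (k (u 8 6 (k v (k (t 24 1 (u 16 10 (k v (k v r)))) r))) r)))))))
 .z .z) (.s 0x3a775c01dc21708 4068 (n false (n false (n true (n false (n true (n false e e) e) (n false e e)) e) (z 37)) (n false (n true (n false e e) e) (n false e e))) (u 6 22 (k v (k (u 10 0 (k (t 18 3 (t 26 1 v)) r)) (k (u 10 0 (k v (k v (k (t 26 1 (u 18 0 (k (t 34 3 (t 50 1 v)) r))) r)))) (k (u 10 9 (k v (k v r))) (k (u 10 0 (k (t 18 3 (t 26 1 v)) r)) (k (u 10 0 (k v (k v (k (t 26 1 (u 18 0 (k (t 34 3 (t 50 1 v)) r))) r)))) r)))))))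
 .z .z)) (.s 0x3a7776013aff008 4088 (n false (n false (z 85) (z 121)) (n false e e)) (u 6 1 (k r (k (c 14 4099 r (u 10 1 (k r (k r r)))) (k (c 10 4097 r r) (k (c 10 4095 r (t 4 1 r)) (k (c 10 4095 r (t 4 1 r)) r))))))
 (.s 0x3a7776012fee008 4088 (n false (n false (z 46) (z 85)) (n false e e)) (u 4 17 (k r (k r (k r (k (u 6 27 (k (u 8 1 (k v (k v r))) (k (u 8 1 (k v (k v r))) (k (u 10 12 (k (u 8 1 (k v (k v r))) (k (u 8 1 (k v (k v r))) r))) (k (c 14 4096 r (u 8 1 (k (u 10 5 (k v (k v r))) (k (u 10 5 (k v (k v r))) r)))) (k (c 10 4099 r (u 14 159 (k (u 8 1 (k v (k v r))) (k (u 8 1 (k v (k v r))) (k (c 8 4100 r v) r))))) r)))))) (k (c 12 4097 r r) (k (c 8 4095 r r) r)))))))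
 .z .z) .z))))

set_option maxRecDepth 100000 in
def N93 : NT :=
(.s 0x3a7d56013aff008 4093 (n false (n false (z 67) (z 121)) (n false e e)) (u 6 1 (k r (k (c 14 4099 r (u 10 1 (k r (k r r)))) (k (c 10 4097 r (t 4 2 r)) (k (c 10 4095 r (c 2 4096 r v)) (k (c 10 4095 r (c 2 4096 r v)) r))))))
 (.s 0x3a7d560113fab00 4086 (n false (n false (z 67) (n false e e)) (z 71)) (u 3 1 (k r (k (c 7 4099 r (u 5 1 (k r (k r r)))) (k (u 5 0 (k r (k r r))) (k (c 5 4099 r (u 7 1 (k r (k r r)))) (k (c 5 4099 r (u 7 1 (k r (k r r)))) (k (c 5 4099 r (u 7 1 (k r (k r r)))) r)))))))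
 (.s 0x3a7d5600a5df400 4094 (n false (n false (z 67) e) (n false (z 26) e)) (u 5 16 (k r (k r (k (c 3 4084 (u 4 1 (k v (k v r))) (c 4 4103 r v)) r))))
 (.s 0x3a777601dc21708 4066 (n false (n false (z 85) (n true (n false (n true (n false e e) e) (n false e e)) e)) (n false (n true (n false e e) e) (n false e e))) (u 4 24 (k v (k (c 12 4099 r r) (k (t 12 1 (u 8 3 (k v (k v r)))) (k (c 12 4099 r (u 8 3 (k v (k v (k v (k (t 24 1 (u 16 301 (k v (k v (k v r))))) r)))))) (k (u 8 0 (k v (k v (k v (k (t 24 2 (u 16 26 (k v (k v (k v r))))) r))))) (k (c 12 4096 r (u 8 9 (k v (k v r)))) r)))))))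
 (.s 0x3a7776015c21708 4066 (n false (n false (z 85) (n false (n false (n true (n false e e) e) (n false e e)) e)) (n false (n true (n false e e) e) (n false e e))) (u 4 24 (k v (k (c 12 4099 r r) (k (t 12 1 (u 8 3 (k v (k v r)))) (k (c 12 4099 r (u 8 3 (k v (k v (k v (k (t 24 1 (u 16 26 (k v (k v (k v r))))) r)))))) (k (u 8 24 (k v (k v (k v (k (t 24 2 (u 16 26 (k v (k v (k v r))))) r))))) (k (c 12 4096 r (u 8 9 (k v (k v r)))) r)))))))
 .z .z) (.s 0x3a777601dc21d10 4072 (n false (n false (z 85) (n true (n false (n true (n false e e) e) (n false e e)) e)) (n true (n false (n false e e) (n false e e)) e)) (u 4 4 (k v (k (c 12 4099 r r) (k (c 12 4099 r (c 3 4092 v r)) (k (c 12 4099 r (u 8 5 (k v (k v r)))) (k (u 8 12 (k v (k v r))) (k (c 12 4096 r (c 3 4092 v r)) (k (c 8 4099 r r) r))))))))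
 .z .z)) (.s 0x3a7d560113aff00 4086 (n false (z 121) (n false (z 67) (n false e e))) (u 2 1 (k r (k (c 6 4099 r (u 4 1 (k r (k r r)))) (k (c 4 4097 r (u 6 1 (k r (k r r)))) (k (c 4 4095 r (u 6 0 (k r (k r r)))) (k (c 4 4095 r (u 6 0 (k r (k r r)))) r))))))
 (.s 0x3a7d560112faf00 4088 (n false (n false (z 67) (n false e e)) (z 102)) (u 3 2 (k r (k (c 5 4101 r r) (k (c 5 4099 r r) (k (c 5 4101 r r) (k (t 4 2 r) (k (t 4 2 r) (k (c 5 4101 r r) r))))))))
 .z .z) (.s 0x3a7d560113bae00 4086 (n false (n false (z 67) (n false e e)) (z 37)) (u 3 0 (k r (k r (k (u 5 0 (k (t 9 3 (t 13 1 r)) r)) (k r (k r (k r r)))))))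
 .z .z))) (.s 0x3a7d56012bff008 4091 (n false (n false (z 124) (z 67)) (n false e e)) (u 4 1 (k r (k (c 12 4097 r (u 8 1 (k r (k r r)))) (k (c 12 4096 r (u 8 1 (k r (k r r)))) (k (c 8 4098 r (u 12 0 (k r (k r r)))) (k (c 12 4096 r (u 8 1 (k r (k r r)))) (k (c 12 4097 r (u 8 1 (k r (k r r)))) (k (c 12 4097 r (u 8 1 (k r (k r r)))) (k (c 12 4096 r (u 8 1 (k r (k r r)))) (k (c 12 4099 r (u 8 1 (k r (k r r)))) (k (c 8 4097 r (u 12 1 (k r (k r r)))) r)))))))))))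
 (.s 0x3a7d56011d44510 4086 (n false (n false (z 67) (n false e e)) (n true (n false (n false (n false e e) (n false e e)) (n false (n false e e) (n false e e))) e)) (u 4 44 (k v (k v (k v (k r (k (c 12 4099 r (u 8 1 (k v (k v r)))) (k (c 12 4097 r (u 8 1 (k v (k v r)))) (k (c 12 4099 r r) (k (c 12 4097 r r) (k (c 12 4099 r r) (k (c 12 4099 r (u 8 0 (k (u 16 0 (k v (k v r))) r))) (k (c 8 4099 r (u 12 1 (k v (k v r)))) (k (c 12 4099 r r) (k (c 8 4099 r (u 12 0 (k (u 20 0 (k v (k v r))) r))) (k (c 12 4100 r (c 5 4101 v r)) (k (c 12 4099 r r) (k (c 12 4099 r r) (k (c 12 4099 r r) r))))))))))))))))))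
 (.s 0x3a7d56011544510 4088 (n false (n false (z 67) (n false e e)) (n false (n false (n false (n false e e) (n false e e)) (n false (n false e e) (n false e e))) e)) (u 4 46 (k v (k v (k v (k (c 12 4099 r (u 8 1 (k v (k v r)))) (k (c 12 4097 r (u 8 1 (k v (k v r)))) (k (c 12 4099 r r) (k r (k (c 12 4099 r (u 8 0 (k (u 16 0 (k v (k v r))) r))) (k (c 8 4099 r (u 12 1 (k v (k v r)))) (k (c 12 4099 r r) (k (c 8 4099 r (u 12 0 (k (u 20 0 (k v (k v r))) r))) (k (c 12 4100 r (c 5 4101 v r)) (k (c 12 4099 r r) (k (c 12 4099 r r) (k (c 12 4099 r r) r))))))))))))))))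
 .z .z) (.s 0x3a7d56012afe008 4093 (n false (n false (z 67) (z 56)) (n false e e)) (u 6 1 (k (u 10 1 (k r (k r r))) (k r (k (c 10 4096 r (u 14 0 (k r (k r r)))) (k (c 14 4096 r r) r)))))
 .z .z)) (.s 0x3a7d56012fee008 4091 (n false (n false (z 67) (z 46)) (n false e e)) (u 6 2 (k r (k (c 14 4099 r (u 10 0 (k r (k r r)))) (k (t 4 2 r) (k (u 10 1 (k r (k r r))) (k (c 14 4097 r (t 4 2 r)) (k (c 10 4095 r (t 4 2 r)) r)))))))
 (.s 0x3a7d56012ebe008 4089 (n false (n false (z 67) (z 50)) (n false e e)) (u 6 1 (k r (k (c 14 4097 r (u 10 0 (k r (k r r)))) r)))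
 .z .z) .z))) (.s 0x3a7ddc0113fab00 4090 (n false (n false (z 43) (n false e e)) (z 71)) (u 3 1 (k r (k (c 7 4099 r r) (k (u 5 125 (k (c 3 4094 v r) (k (u 4 20 (k v (k r (k r (k r (k (c 12 4099 r (u 8 0 (k (u 16 0 (k v (k v r))) r))) (k (u 8 6 (k v (k v (k (u 16 1 (k v (k v r))) (k (c 24 4099 r (u 16 0 (k v (k v r)))) (k (u 16 1 (k v (k v r))) (k (c 24 4097 r (u 16 1 (k v (k v r)))) r))))))) r))))))) r))) (k (c 5 4099 r r) (k (c 5 4099 r r) (k (c 5 4099 r r) r)))))))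
 (.s 0x3a7d5c009ff5400 4094 (n false (z 143) (n false (z 35) e)) (u 2 4 (k r (k (t 4 1 (u 6 0 (k (t 10 3 (t 14 1 r)) r))) (k (t 4 2 (u 6 0 (k (t 10 3 (t 14 1 r)) r))) (k (c 3 4101 r (t 6 1 r)) (k (t 4 1 (u 6 0 (k (t 10 3 (t 14 1 r)) r))) r))))))
 (.s 0x3a7d56013bbb008 4094 (n false (n false (z 85) (z 67)) (n false e e)) (u 6 4 (k r (k r (k (c 14 4096 r (u 10 7 (k r (k r (k r (k (t 4 1 v) r)))))) (k (c 10 4101 r (u 14 0 (k r (k r r)))) (k (c 4 4099 r (c 2 4088 r v)) (k (c 10 4099 r (u 14 0 (k r (k r r)))) (k (c 14 4101 r (u 10 1 (k r (k r r)))) (k (c 14 4102 r (u 10 1 (k r (k r r)))) (k (c 10 4101 r (u 14 1 (k r (k r r)))) (k (c 10 4101 r (u 14 1 (k r (k r r)))) r)))))))))))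
 (.s 0x3a7d56013bae008 4093 (n false (n false (z 67) (z 37)) (n false e e)) (u 4 4 (k r (k r (k (c 12 4096 r r) (k (c 8 4101 r (u 12 0 (k r (k r r)))) (k (c 6 4101 r (c 2 4088 r v)) (k (c 8 4099 r (u 12 0 (k r (k r r)))) (k (c 12 4101 r (u 8 1 (k r (k r r)))) (k (c 12 4102 r (u 8 1 (k r (k r r)))) (k (c 8 4101 r (u 12 1 (k r (k r r)))) (k (c 8 4101 r (u 12 1 (k r (k r r)))) r)))))))))))
 .z .z) (.s 0x3a7d56015114450 4086 (n false (n false (z 67) (n false (n false (n false e e) (n false e e)) (n false (n false e e) (n false e e)))) (n false (n false e e) e)) (u 4 47 (k v (k v (k v (k (c 2 4087 r v) (k (t 12 1 (u 8 1 (k v (k v r)))) (k (c 8 4101 r (u 12 0 (k v (k v r)))) (k r (k (c 8 4099 r (u 12 0 (k v (k v r)))) (k (t 12 1 (u 8 2 (k v (k (c 24 4097 r (u 16 0 (k v (k v r)))) r)))) (k (t 12 1 (u 8 0 (k (u 16 0 (k v (k v r))) r))) (k (c 12 4101 r (u 8 1 (k v (k v r)))) (k (t 12 1 (u 8 10 (k v (k v (k v (k (c 24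 4099 r (u 16 1 (k v (k v r)))) r)))))) (k (c 12 4102 r (u 8 1 (k v (k v r)))) (k (c 8 4101 r (u 12 1 (k v (k v r)))) (k (t 12 1 (u 8 3 (k v (k v (k (c 24 4099 r (u 16 1 (k v (k v r)))) r))))) (k (c 8 4101 r (u 12 1 (k v (k v r)))) r)))))))))))))))))
 .z .z)) (.s 0x3a7d5e011544510 4088 (n false (n false (z 99) (n false e e)) (n false (n false (n false (n false e e) (n false e e)) (n false (n false e e) (n false e e))) e)) (u 4 1 (k v (k (c 12 4096 r (u 8 1 (k v (k v r)))) (k (c 12 4096 r r) (k (c 12 4096 r r) r)))))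
 (.s 0x3a7d5c00a55d600 4096 (n false (n false (z 72) e) (n false (z 35) e)) (t 4 1 (u 5 11 (k v (k v (k (t 13 1 (u 9 0 (k (t 17 3 (t 25 1 v)) r))) r)))))
 .z .z) .z)) (.s 0x3a7df6013bae008 4088 (n false (n false (z 91) (z 37)) (n false e e)) (u 4 11 (k r (k (u 8 1 (k r (k r r))) (k (c 8 4097 r (u 12 0 (k r (k r r)))) (k (c 8 4097 r (u 12 0 (k r (k r r)))) (k (c 8 4096 r (u 12 0 (k r (k r r)))) (k (c 8 4095 r (u 12 0 (k r (k r r)))) r)))))))
 (.s 0x3a7df60112bbe00 4086 (n false (n false (z 91) (n false e e)) (z 52)) (u 4 2 (k r (k r (k (u 8 1 (k r (k r r))) (k (c 8 4097 r (u 12 0 (k r (k r r)))) (k (c 8 4097 r (u 12 0 (k r (k r r)))) (k (c 8 4096 r (u 12 0 (k r (k r r)))) (k (c 8 4095 r (u 12 0 (k r (k r r)))) r))))))))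
 (.s 0x3a7dde0113fab00 4091 (n false (z 71) (n false (z 107) (n false e e))) (u 2 1 (k r (k (c 6 4099 r (u 4 1 (k r (k r r)))) (k (u 4 0 (k r (k r r))) (k (c 4 4099 r (u 6 1 (k r (k r r)))) (k (c 4 4099 r (u 6 1 (k r (k r r)))) (k (c 4 4099 r (u 6 1 (k r (k r r)))) r)))))))
 .z .z) (.s 0x3a7df6013aff008 4085 (n false (n false (z 91) (z 121)) (n false e e)) (u 6 1 (k r (k (c 14 4099 r r) (k (c 10 4097 r r) (k (c 10 4095 r (t 4 2 r)) (k (c 10 4095 r (t 4 2 r)) r))))))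
 .z .z)) (.s 0x3a7df6015c21708 4066 (n false (n false (z 91) (n false (n false (n true (n false e e) e) (n false e e)) e)) (n false (n true (n false e e) e) (n false e e))) (u 4 0 (k v (k v (k (u 8 0 (k v (k v r))) (k (c 8 4097 r (u 12 3 (k v (k v (k v r))))) (k (c 8 4095 r (u 12 3 (k v (k v (k v r))))) r))))))
 (.s 0x3a7df6013eab008 4091 (n false (n false (z 91) (z 67)) (n false e e)) (u 4 5 (k r (k (u 8 1 (k r (k r r))) (k (c 8 4097 r (u 12 0 (k r (k r r)))) (k (c 8 4097 r (u 12 0 (k r (k r r)))) (k (c 8 4097 r (u 12 0 (k r (k r r)))) (k (c 8 4096 r (u 12 0 (k r (k r r)))) (k (c 8 4095 r (u 12 0 (k r (k r r)))) r))))))))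
 .z .z) .z))))

set_option maxRecDepth 100000 in
def N94 : NT :=
(.s 0x3a9557002777600 4090 (n false (n false (z 85) (n false (z 32) e)) e) (u 4 3 (k (u 10 0 (k (t 18 3 (t 26 1 v)) r)) (k (u 10 0 (k (t 18 3 (t 26 1 v)) r)) (k (c 12 4099 r r) (k (c 12 4099 r (u 10 0 (k (t 18 3 (t 26 1 (u 8 7 (k v (k v r))))) r))) (k (c 12 4099 r r) (k (c 10 4096 r r) r)))))))
 (.s 0x3a7f56013aff008 4082 (n false (n false (z 121) (z 71)) (n false e e)) (u 6 1 (k r (k (c 14 4099 r r) (k (u 4 1 (k (u 10 0 (k v (k v r))) (k (c 12 4099 r r) (k (c 8 4097 r (u 10 0 (k (u 12 1 (k v (k v r))) (k (u 12 1 (k v (k v r))) r)))) (k (c 8 4095 r (c 10 4103 r r)) (k (c 8 4095 r (c 10 4103 r r)) r)))))) (k (c 10 4099 r r) (k (c 10 4099 r r) (k (c 10 4099 r r) r)))))))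
 (.s 0x3a7f560112bbe00 4088 (n false (z 52) (n false (z 71) (n false e e))) (u 5 1 (k r (k (c 13 4099 r (u 9 1 (k r (k r r)))) (k (c 2 4097 r r) (k (c 9 4099 r (u 13 1 (k r (k r r)))) (k (c 9 4099 r (u 13 1 (k r (k r r)))) (k (c 9 4099 r (u 13 1 (k r (k r r)))) r)))))))
 (.s 0x3a7dfe0112bbe00 4091 (n false (n false (z 123) (n false e e)) (z 52)) (u 3 281 (k r (k r (k r (k r (k (u 4 2 (k v (k (c 12 4099 r (u 8 2 (k v (k v (k v (k (t 24 2 (u 16 6 (k v (k v (k (t 48 1 (u 32 2 (k v (k v r)))) r))))) r)))))) (k (c 3 4091 v r) (k (c 8 4096 r (u 12 1 (k v (k v r)))) r))))) (k (c 3 4089 v r) r)))))))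
 (.s 0x3a7df601dc21708 4065 (n false (n false (z 91) (n true (n false (n true (n false e e) e) (n false e e)) e)) (n false (n true (n false e e) e) (n false e e))) (u 4 0 (k v (k v (k (u 8 0 (k v (k v r))) (k (c 8 4097 r (u 12 0 (k v (k v r)))) (k (c 8 4095 r (u 12 0 (k v (k v r)))) r))))))
 .z .z) (.s 0x3a7dfe013aff008 4082 (n false (n false (z 121) (z 123)) (n false e e)) (u 4 1 (k r (k (c 12 4099 r r) (k (c 8 4097 r r) (k (c 8 4095 r (t 6 2 r)) (k (c 8 4095 r (t 6 2 r)) r))))))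
 .z .z)) (.s 0x3a7f56012eba008 4082 (n false (n false (z 18) (z 71)) (n false e e)) (u 4 0 (k (u 6 1 (k (u 8 0 (k v (k v r))) (k (c 14 4099 r r) (k (c 8 4097 r r) (k (c 10 4099 r r) (k (c 10 4099 r r) (k (c 10 4099 r r) r))))))) r))
 (.s 0x3a7f56012bff008 4085 (n false (n false (z 124) (z 71)) (n false e e)) (u 6 1 (k r (k (c 14 4099 r (u 10 1 (k r (k r r)))) (k (t 4 1 r) (k (c 10 4099 r (u 14 1 (k r (k r r)))) (k (c 10 4099 r (u 14 1 (k r (k r r)))) (k (c 10 4099 r (u 14 1 (k r (k r r)))) r)))))))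
 .z .z) (.s 0x3a7f56012ebe008 4085 (n false (n false (z 71) (z 50)) (n false e e)) (u 6 2 (k r (k (c 14 4097 r (u 4 1 (k (u 10 0 (k v (k v r))) (k (c 12 4099 r r) (k (c 10 4097 r r) (k (c 8 4099 r r) (k (c 8 4099 r r) (k (c 8 4099 r r) r)))))))) r)))
 .z .z))) (.s 0x3a9555400ae8840 4077 (n false (n false (n false (z 128) (n false (n false (n true (n false (n false e e) (n false e e)) e) (n false e e)) e)) e) e) (u 8 13 (k v (k (c 24 4097 r r) (k (t 16 1 (c 12 4101 v r)) (k (t 16 1 (c 12 4101 v (u 24 0 (k (u 40 0 (k v (k v r))) r)))) (k (c 16 4096 r r) (k (c 24 4097 r r) (k (c 24 4097 r r) (k (c 16 4095 r (u 24 0 (k v (k v r)))) (k (c 16 4099 r r) (k (c 24 4097 r (u 16 1 (k v (k v r)))) (k (c 16 4098 r r) (k (t 24 1 (c 12 4101 v r)) (k (c 24 4095 r (u 16 1 (k v (k v r)))) (k (c 16 4097 r (u 24 0 (k v (k v r)))) (k (c 16 4095 r r) (k (c 16 4099 r r) (k (c 16 4095 r (u 24 1 (k v (k v r)))) (k (c 16 4097 r r) r)))))))))))))))))))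
 (.s 0x3a7f56013efb008 4085 (n false (n false (z 71) (z 91)) (n false e e)) (u 4 1 (k r (k (c 12 4099 r r) (k (t 6 2 r) (k (c 8 4099 r r) (k (c 8 4099 r r) (k (c 8 4099 r r) r)))))))
 (.s 0x3a7f56013bae008 4082 (n false (n false (z 71) (z 37)) (n false e e)) (u 4 1 (k r (k (c 12 4099 r (u 8 1 (k r (k r r)))) (k (u 6 1 (k r (k (u 8 0 (k v (k v r))) r))) (k (c 8 4099 r (u 12 1 (k r (k r r)))) (k (c 8 4099 r (u 12 1 (k r (k r r)))) (k (c 8 4099 r (u 12 1 (k r (k r r)))) r)))))))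
 .z .z) (.s 0x3a7f5601dc21708 4068 (n false (n false (z 71) (n true (n false (n true (n false e e) e) (n false e e)) e)) (n false (n true (n false e e) e) (n false e e))) (u 4 0 (k v (k (c 12 4099 r (u 8 0 (k v (k v r)))) r)))
 .z .z)) (.s 0x3a9557002775c00 4091 (n false (n false (n false (z 32) e) (z 37)) e) (u 6 1 (k (u 8 0 (k (t 16 3 (t 24 1 v)) r)) (k (u 8 0 (k (t 16 3 (t 24 1 v)) r)) r)))
 (.s 0x3a9557002577c00 4088 (n false (n false (z 52) (n false (z 32) e)) e) (u 4 53 (k (u 10 0 (k (t 18 3 (t 26 1 v)) r)) (k (u 10 0 (k (t 18 3 (t 26 1 v)) r)) (k (c 10 4096 r v) (k (t 12 1 r) (k (c 10 4096 r (t 12 2 (u 8 0 (k r r)))) r))))))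
 .z .z) .z))) (.s 0x3a97f700387dc20 4073 (n false (n false (n false (z 46) e) (n true (n false e e) e)) (n true (n true (n false (n true (n false e e) e) (n false e e)) e) e)) (u 8 2 (k v (k (c 24 4099 r (u 16 0 (k v (k v r)))) (k (u 16 1 (k v (k v r))) (k (u 16 1 (k v (k v r))) (k (c 24 4097 r (u 16 1 (k v (k v r)))) (k (c 16 4095 r (u 24 1 (k v (k v r)))) r)))))))
 (.s 0x3a95fd400475c20 4076 (n false (n false (n false (z 156) e) (n false e e)) (n true (n false (n false (n true (n false e e) e) (n false e e)) e) e)) (u 8 5 (k v (k v (k (c 24 4099 r (u 16 1 (k v (k v r)))) (k (c 16 4098 r (u 24 1 (k v (k v r)))) (k (c 16 4097 r (u 24 1 (k v (k v r)))) (k (c 16 4099 r (u 24 1 (k v (k v r)))) r)))))))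
 (.s 0x3a95570027dfe00 4090 (n false (n false (z 123) (n false (z 32) e)) e) (u 4 46 (k (u 10 0 (k (t 18 3 (t 26 1 v)) r)) (k (c 10 4096 r v) (k (u 10 0 (k (t 18 3 (t 26 1 v)) r)) (k (c 12 4099 r (u 8 47 (k (u 10 0 (k (t 18 3 (t 26 1 v)) r)) (k (u 10 0 (k (t 18 3 (t 26 1 v)) r)) (k (u 10 0 (k (t 18 3 (t 26 1 v)) r)) (k (c 10 4096 r v) r)))))) (k (c 10 4096 r r) (k (c 10 4096 r r) r)))))))
 (.s 0x3a95570027df600 4090 (n false (n false (z 91) (n false (z 32) e)) e) (u 10 0 (k (t 18 3 (t 26 1 (u 4 10 (k v (k v (k (u 8 0 (k v (k v r))) (k (c 8 4097 r (u 12 0 (k v (k v r)))) r))))))) r))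
 .z .z) (.s 0x3a957f8022a2288 4087 (n false (n false (n false (z 120) e) (n false e e)) (n false (n false (n false e e) (n false e e)) (n false (n false e e) (n false e e)))) (u 8 14 (k v (k v (k (c 16 4095 r (u 24 2 (k v (k v r)))) (k (c 16 4099 r (u 24 0 (k v (k v r)))) (k (c 24 4096 r (u 16 14 (k v (k v (k v (k v r)))))) (k (c 24 4096 r (u 16 0 (k (u 32 0 (k v (k v r))) r))) (k (c 24 4100 r (u 16 0 (k (u 32 0 (k v (k v r))) r))) (k (c 24 4101 r r) (k (c 24 4099 r (u 16 1 (k v (k v r)))) (k (c 16 4098 r (u 24 1 (k v (k v r)))) (k (c 16 4101 r (u 24 0 (k v (k v r)))) (k (c 24 4099 r (u 16 1 (k v (k v r)))) (k (c 16 4101 r (u 24 0 (k v (k v r)))) r))))))))))))))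
 .z .z)) (.s 0x3a95ff804affc00 4091 (n false (n false (n false (z 124) (z 124)) e) e) (u 8 5 (k r (k (c 24 4097 r r) (k (c 24 4096 r r) (k (c 16 4098 r (u 12 5 (k (u 24 0 (k v (k v r))) (k (c 28 4097 r r) (k (c 28 4096 r r) (k (c 20 4098 r (c 4 4089 r v)) (k (c 28 4096 r r) (k (c 28 4097 r r) (k (c 28 4097 r r) (k (c 28 4096 r r) (k (c 20 4097 r r) r))))))))))) (k (c 24 4096 r r) (k (c 24 4097 r r) (k (c 24 4097 r r) (k (c 24 4096 r r) (k (c 16 4097 r r) r))))))))))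
 (.s 0x3a95fd40047dc20 4067 (n false (n false (n false (z 156) e) (n false e e)) (n true (n true (n false (n true (n false e e) e) (n false e e)) e) e)) (u 8 1 (k v (k (c 24 4099 r (u 16 1 (k v (k v r)))) (k (c 16 4098 r (u 24 1 (k v (k v r)))) (k (c 16 4097 r (u 24 1 (k v (k v r)))) (k (c 16 4099 r (u 24 1 (k v (k v r)))) (k (c 16 4095 r (u 24 0 (k v (k v r)))) r)))))))
 .z .z) .z)) (.s 0x3a9ddd804bfb800 4089 (n false (n false (n false (z 85) (z 46)) e) e) (u 12 2 (k r (k (c 28 4099 r (u 20 0 (k r (k r r)))) (k (t 8 1 r) (k r (k (c 28 4097 r (t 8 1 r)) (k (c 20 4095 r (t 8 1 r)) r)))))))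
 (.s 0x3a9d7f804afa800 4089 (n false (n false (n false (z 121) (z 12)) e) e) (t 12 3 (u 8 1 (k v (k (c 24 4099 r (u 16 1 (k v (k v r)))) (k (c 16 4097 r (u 24 1 (k v (k v r)))) (k (c 16 4095 r (u 24 0 (k v (k v r)))) (k (c 16 4095 r (u 24 0 (k v (k v r)))) r)))))))
 (.s 0x3a9d7d8027dfe00 4090 (n false (n false (z 123) (n false (z 89) e)) e) (u 4 18 (k r (k (c 12 4099 r (u 8 44 (k r (k r (k (t 24 3 (u 16 74 (k (c 40 4099 v r) (k (c 8 4084 v r) (k (c 8 4088 v r) (k (u 10 27 (k v (k v r))) r)))))) (k (t 24 2 r) r)))))) r)))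
 .z .z) (.s 0x3a9ddd804affc00 4091 (n false (n false (n false (z 85) (z 124)) e) e) (u 12 5 (k r (k (c 28 4097 r (u 20 1 (k r (k r r)))) (k (c 28 4096 r (u 20 1 (k r (k r r)))) (k (c 20 4098 r (u 28 0 (k r (k r r)))) (k (c 28 4096 r (u 20 1 (k r (k r r)))) (k (c 28 4097 r (u 20 1 (k r (k r r)))) (k (c 28 4097 r (u 20 1 (k r (k r r)))) (k (c 28 4096 r (u 20 1 (k r (k r r)))) (k (c 20 4097 r (u 28 1 (k r (k r r)))) r))))))))))
 .z .z)) (.s 0x3a9f558022a2288 4085 (n false (n false (n false (z 67) e) (n false e e)) (n false (n false (n false e e) (n false e e)) (n false (n false e e) (n false e e)))) (u 8 41 (k v (k v (k v (k v (k (t 24 2 r) (k (c 16 4101 r (u 24 0 (k v (k v r)))) (k (c 24 4099 r r) (k (u 16 14 (k v (k v (k v (k v r))))) (k (c 16 4099 r (u 24 0 (k v (k v r)))) (k (c 24 4099 r (u 16 0 (k (u 32 0 (k v (k v r))) r))) (k (t 16 1 r) (k (c 24 4099 r r) (k (c 24 4102 r (u 16 1 (k v (k v r)))) (k (c 24 4100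 r r) (k (c 24 4099 r r) (k (c 24 4099 r r) (k (c 24 4099 r r) r))))))))))))))))))
 (.s 0x3a9ddd804eeec00 4089 (n false (n false (n false (z 85) (z 85)) e) e) (u 8 48 (k r (k r (k (c 12 4099 r r) (k (c 24 4096 r (c 12 4099 r (c 4 4088 r v))) (k (c 16 4099 r (u 24 159 (k r (k r (k (c 12 4099 r v) r))))) r))))))
 .z .z) .z))))

end Pool.Agent.Helper91.ND1
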