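import Pool.Agent.Helper66.ND.Defs

/-! part of the certificate for the constant 25/48 (generated) -/

namespace Pool.Agent.Helper91.ND1

open Pool.Agent.Helper66.IL
open Pool.Agent.Helper66.ND
open Pool.Agent.Helper66.ND.LT
open Pool.Agent.Helper66.ND.Ct

set_option maxRecDepth 100000 in
def N95 : NT :=
(.s 0x3a9fdf002b84288 4070 (n false (n false (n false (z 55) e) (n false (n false (n true (n false e e) e) (n false e e)) e)) (n false (n false e e) (n false e e))) (u 8 6 (k v (k (t 24 1 (u 16 10 (k v (k v r)))) r)))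
 (.s 0x3a9fd58022a2288 4085 (n false (n false (n false (z 71) e) (n false e e)) (n false (n false (n false e e) (n false e e)) (n false (n false e e) (n false e e)))) (u 8 1 (k v (k (c 24 4099 r (u 16 1 (k v (k v r)))) (k (u 16 0 (k v (k v r))) (k (c 16 4099 r (u 24 1 (k v (k v r)))) (k (c 16 4099 r (u 24 1 (k v (k v r)))) (k (c 16 4099 r (u 24 1 (k v (k v r)))) r)))))))
 (.s 0x3a9f570027dfe00 4090 (n false (n false (z 123) (n false (z 35) e)) e) (u 4 58 (k r (k (c 10 4096 r v) (k r (k (c 12 4099 r r) (k (c 10 4096 r r) (k (c 10 4096 r r) (k (c 10 4096 r r) (k (c 8 4096 r (c 10 4096 r r)) (k (c 12 4097 r (c 10 4096 r r)) r))))))))))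
 (.s 0x3a9f57002777600 4090 (n false (n false (z 85) (n false (z 35) e)) e) (u 10 26 (k (t 4 1 v) (k (u 4 17 (k v (k v (k (u 8 2 (k v (k v (k v (k (t 24 2 (u 16 6 (k v (k v (k (t 48 1 (u 32 2 (k v (k v r)))) r))))) r))))) (k (c 12 4096 r (c 10 4094 v r)) (k (c 8 4099 r r) r)))))) (k (t 4 1 v) (k (t 26 1 (u 4 4 (k (u 18 0 (k (t 34 3 (t 50 1 v)) r)) (k (c 12 4099 r r) (k (c 12 4099 r r) (k (c 12 4099 r r) (k (c 10 4096 (c 2 4098 r v) r) (k (c 12 4096 r r) (k (c 8 4099 r r) r))))))))) r)))))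
 (.s 0x3a9f55805445110 4086 (n false (n false (n false (z 67) (n false (n false (n false e e) (n false e e)) (n false (n false e e) (n false e e)))) (n false e e)) e) (u 8 45 (k v (k v (k v (k (c 24 4099 r (u 16 1 (k v (k v r)))) (k (c 16 4101 r (u 24 0 (k v (k v r)))) (k (c 24 4099 r r) (k r (k (c 16 4099 r (u 24 0 (k v (k v r)))) (k (c 24 4099 r (u 16 2 (k v (k (c 48 4097 r (u 32 0 (k v (k v r)))) r)))) (k (c 24 4099 r (u 16 0 (k (u 32 0 (k v (k v r))) r))) (k (c 24 4101 r (u 16 1 (k v (k v r)))) (k (c 24 4099 r r) (k (c 24 4102 r (u 16 1 (k v (k v r)))) (k (c 24 4100 r r) (k (c 16 4101 r (u 24 1 (k v (k v r)))) (k (c 24 4099 r (u 16 2 (k v (k (c 48 4099 r (u 32 1 (k v (k v r)))) (k (c 32 4095 r (u 48 0 (k v (k v r)))) r))))) (k (c 16 4101 r (u 24 1 (k v (k v r)))) r))))))))))))))))))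
 .z .z) (.s 0x3a9f570027df600 4090 (n false (n false (z 91) (n false (z 35) e)) e) (u 10 2 (k r (k r (k (t 4 2 v) (k (t 26 1 (u 4 2 (k (u 18 0 (k (t 34 3 (t 50 1 v)) r)) (k (u 18 0 (k (t 34 3 (t 50 1 v)) r)) (k (u 18 0 (k (t 34 3 (t 50 1 (u 8 11 (k v (k v r))))) r)) (k (c 8 4097 r r) (k (c 8 4097 r r) (k (c 8 4096 r r) (k (c 8 4095 r r) r))))))))) r)))))
 .z .z)) (.s 0x3a9f5700385d108 4079 (n false (n false (n false (z 35) e) (n true (n false e e) e)) (n false (n true (n false (n false e e) (n false e e)) e) (n false e e))) (u 8 2 (k v (k v (k v (k (t 24 1 (u 16 0 (k (t 32 3 (t 48 1 v)) r))) r)))))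
 (.s 0x3a9f57002b84288 4070 (n false (n false (n false (z 35) e) (n false (n false (n true (n false e e) e) (n false e e)) e)) (n false (n false e e) (n false e e))) (u 8 2 (k v (k v (k v (k (t 24 1 (u 16 0 (k (t 32 3 (t 48 1 v)) r))) r)))))
 .z .z) (.s 0x3a9f57003b84288 4070 (n false (n false (n true (n false (n true (n false e e) e) (n false e e)) e) (n false (z 35) e)) (n false (n false e e) (n false e e))) (u 10 2 (k v (k v (k v (k (t 26 1 (u 18 0 (k (t 34 3 (t 50 1 v)) r))) r)))))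
 .z .z))) (.s 0x3a9fdf002777600 4090 (n false (n false (z 85) (n false (z 55) e)) e) (u 4 4 (k (u 10 3 (k v (k v r))) (k (c 12 4099 r r) (k (c 12 4099 r r) (k (c 12 4099 r r) (k (c 10 4096 r r) (k (c 12 4096 r r) (k (c 8 4099 r r) r))))))))
 (.s 0x3a9fdf0022a2288 4082 (n false (n false (n false (z 55) e) (n false e e)) (n false (n false (n false e e) (n false e e)) (n false (n false e e) (n false e e)))) (u 8 1 (k v (k (t 24 1 (u 16 14 (k v (k (c 48 4099 r (t 32 3 v)) (k (u 32 4 (k v (k (t 96 1 (u 64 4 (k v (k v r)))) r))) (k (u 32 4 (k v (k (t 96 1 (u 64 2 (k v (k v r)))) r))) (k r (k r r)))))))) r)))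
 (.s 0x3a9fd5803a88a20 4085 (n false (n false (n false (z 71) e) (n true (n false (n false (n false e e) (n false e e)) (n false (n false e e) (n false e e))) e)) e) (u 8 1 (k v (k (c 24 4099 r (u 16 1 (k v (k v r)))) (k (u 16 73 (k v (k v (k v r)))) (k (c 16 4099 r (u 24 1 (k v (k v r)))) (k (c 16 4099 r (u 24 1 (k v (k v r)))) (k (c 16 4099 r (u 24 1 (k v (k v r)))) r)))))))
 .z .z) (.s 0x3a9fdf002775c00 4093 (n false (n false (n false (z 55) e) (z 37)) e) (u 6 28 (k (u 8 7 (k v (k v r))) (k (u 8 3 (k v (k v r))) (k (c 8 4096 r v) r))))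
 .z .z)) (.s 0x3a9fdf0027dfe00 4090 (n false (n false (z 123) (n false (z 55) e)) e) (u 4 3 (k (u 10 7 (k v (k v r))) (k (c 10 4096 r v) (k (c 12 4099 r r) (k (c 10 4096 r r) (k (c 10 4096 r r) (k (c 10 4096 r r) (k (c 8 4096 r (c 10 4096 r r)) (k (c 12 4097 r (c 10 4096 r r)) r)))))))))
 (.s 0x3a9fdf0027df600 4090 (n false (n false (n false (z 55) e) (z 91)) e) (u 8 3 (k (u 6 2 (k v (k v (k (u 10 1 (k v (k v r))) (k (c 10 4097 r (u 14 0 (k v (k v r)))) (k (c 10 4097 r (u 14 0 (k v (k v r)))) (k (c 10 4096 r (u 14 0 (k v (k v r)))) (k (c 10 4095 r (u 14 0 (k v (k v r)))) r)))))))) (k (t 6 2 v) r)))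
 .z .z) .z))) (.s 0x3aa2288e12efa00 4085 (n false (n false (n false (n false (n false e e) (n false e e)) (n false (n false e e) (n false e e))) (n true (n false e e) e)) (z 26)) (u 3 4 (k v (k (u 5 7 (k v (k v r))) r)))
 (.s 0x3aa22888a5fdc00 4088 (n false (n false (z 46) e) (n false (n false (n false (n false e e) (n false e e)) (n false (n false e e) (n false e e))) (n false e e))) (u 4 2 (k v (k (c 12 4099 r (u 8 0 (k v (k v r)))) (k r (k (u 8 1 (k v (k v r))) (k (c 12 4097 r r) (k (c 8 4095 r r) r)))))))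
 (.s 0x3a9fdf8022a2288 4087 (n false (n false (n false (z 119) e) (n false e e)) (n false (n false (n false e e) (n false e e)) (n false (n false e e) (n false e e)))) (u 8 33 (k v (k v (k (c 24 4101 r r) (k (c 24 4099 r r) (k (c 24 4096 r (u 16 0 (k (u 32 0 (k v (k v r))) r))) (k (c 16 4101 r r) (k (c 16 4099 r r) (k (c 16 4101 r r) r)))))))))
 (.s 0x3a9fdf00385d108 4078 (n false (n false (n false (z 55) e) (n true (n false e e) e)) (n false (n true (n false (n false e e) (n false e e)) e) (n false e e))) (u 8 4 (k (t 24 1 r) (k (t 24 2 (c 3 4090 v r)) r)))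
 .z .z) (.s 0x3aa22888a5f7400 4087 (n false (n false (z 22) e) (n false (n false (n false (n false e e) (n false e e)) (n false (n false e e) (n false e e))) (n false e e))) (c 3 4099 v (u 4 1 (k v (k v r))))
 .z .z)) (.s 0x3aa22888a775c00 4090 (n false (n false (z 37) e) (n false (n false (n false (n false e e) (n false e e)) (n false (n false e e) (n false e e))) (n false e e))) (u 4 9 (k v (k r (k (c 3 4099 v (u 8 0 (k (t 16 3 (t 24 1 v)) r))) (k (c 3 4099 v (u 8 0 (k (t 16 3 (t 24 1 v)) r))) (k r (k (u 8 2 (k v (k v (k v (k (t 24 1 (u 16 0 (k (t 32 3 (t 48 1 v)) r))) r))))) r)))))))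
 (.s 0x3aa22888a75fe00 4090 (n false (n false (z 121) e) (n false (n false (n false (n false e e) (n false e e)) (n false (n false e e) (n false e e))) (n false e e))) (u 4 1 (k v (k (c 12 4099 r (u 8 1 (k v (k v r)))) (k (c 8 4097 r r) (k (c 8 4095 r (c 3 4099 v r)) (k (c 8 4095 r (c 3 4099 v r)) r))))))
 .z .z) .z)) (.s 0x3aa57f50010ae10 4076 (n false (n false (n false (n false (z 156) e) (n false e e)) e) (n false (n false (n true (n false e e) e) (n false e e)) e)) (u 16 5 (k v (k v (k (c 48 4099 r (u 32 1 (k v (k v r)))) (k (c 32 4098 r (u 48 1 (k v (k v r)))) (k (c 32 4097 r (u 48 1 (k v (k v r)))) (k (c 32 4099 r (u 48 1 (k v (k v r)))) r)))))))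
 (.s 0x3aa577c01d02288 4075 (n false (n false (n false (n false (n true (n false (n false e e) e) e) (z 52)) e) (n false e e)) (n false (n false e e) (n false e e))) (u 24 136 (k v (k v (k v (k v r)))))
 (.s 0x3aa577c010ee108 4064 (n false (n false (n false (n false (z 52) (n false e e)) e) (n true (n false (n true (n false e e) e) (n false e e)) e)) (n false e e)) (u 16 134 (k v (k (t 48 1 (u 32 0 (k v (k v r)))) (k (t 48 3 (u 32 0 (k (u 64 2 (k v (k (c 32 4090 (u 4 1 (k v (k v r))) v) r))) r))) r))))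
 .z .z) (.s 0x3aa57f50008ee10 4078 (n false (n false (n false (n false (z 156) e) e) (n false e e)) (n true (n false (n true (n false e e) e) (n false e e)) e)) (c 5 4092 v (u 16 1 (k v (k (c 48 4099 r (u 32 1 (k v (k v r)))) (k (c 32 4098 r (u 48 1 (k v (k v r)))) (k (c 32 4097 r (u 48 1 (k v (k v r)))) (k (c 32 4099 r (u 48 1 (k v (k v r)))) (k (c 32 4095 r (c 4 4076 r v)) r))))))))
 .z .z)) (.s 0x3aa57f50010ee10 4075 (n false (n false (n false (n false (z 156) e) (n false e e)) e) (n true (n false (n true (n false e e) e) (n false e e)) e)) (u 16 1 (k v (k (c 48 4099 r (u 32 1 (k v (k v r)))) (k (c 32 4098 r (u 48 1 (k v (k v r)))) (k (c 32 4097 r (u 48 1 (k v (k v r)))) (k (c 32 4099 r (u 48 1 (k v (k v r)))) (k (c 32 4095 r (u 48 0 (k v (k v r)))) r)))))))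
 (.s 0x3aa57f50010ba20 4076 (n false (n false (n false (n false (z 156) e) (n false e e)) e) (n false (n true (n false (n false e e) (n false e e)) e) e)) (u 16 8 (k v (k v (k (c 48 4099 r (u 32 1 (k v (k v r)))) (k (c 32 4098 r (u 48 1 (k v (k v r)))) (k (c 32 4097 r (u 48 1 (k v (k v r)))) (k (c 32 4099 r (u 48 1 (k v (k v r)))) r)))))))
 .z .z) .z))))

set_option maxRecDepth 100000 in
def N96 : NT :=
(.s 0x3ae7d7c00ae8840 4076 (n false (n false (n false (n true (z 51) e) (n false (n false (n true (n false (n false e e) (n false e e)) e) (n false e e)) e)) e) e) (u 16 0 (k (t 48 1 (u 32 0 (k (t 64 3 (t 96 3 v)) r))) r))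
 (.s 0x3ab95df00382288 4074 (n false (n false (n false (n false (n true (z 52) e) (n true (n false e e) e)) e) (n false e e)) (n false (n false e e) (n false e e))) (u 32 188 (k v (k v (k v (k v (k v (k v (k (t 96 1 (u 64 0 (k v (k v r)))) (k (t 96 1 (u 64 0 (k (c 192 4099 r (u 128 2 (k v (k (c 4 4077 r v) r)))) r))) r)))))))))
 (.s 0x3aaea777c008420 4073 (n false (n false (n false (n false (n false (n true (n false (n false (z 53) e) (n false e e)) e) (n false e e)) e) (n false e e)) e) e) (u 256 0 (k (t 768 1 (u 512 13 (k v (k v (k v (k (u 1024 1 (k v (k v r))) (k (u 1024 1 (k v (k v r))) (k (c 1536 4097 r (u 1024 1 (k v (k v r)))) r)))))))) (k (t 768 1 (u 512 17 (k v (k v (k (u 1024 12 (k v (k v r))) (k (c 1536 4096 r (u 1024 3 (k v (k v r)))) (k (c 1024 4099 r (u 1536 95 (k v (k v (k v (k v r)))))) r))))))) r)))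
 (.s 0x3aae577c00843a0 4071 (n false (n false (n false (n false (n false (n true (z 52) e) (n false e e)) e) (n false e e)) e) (n true (n false (n false e e) e) e)) (u 64 65 (k v (k v (k v (k v (k v (k v (k v (k v r)))))))))
 (.s 0x3aaa9f5700210e0 4082 (n false (n false (n false (n false (n false (n false (n false (z 35) e) (n false e e)) e) (n false e e)) e) (n true (n false e e) e)) e) (u 128 0 (k v (k v (k (t 384 1 (u 256 0 (k (t 512 3 (t 768 1 v)) r))) r))))
 .z .z) (.s 0x3aaea5ffe008420 4073 (n false (n false (n false (n false (n false (n true (n false (n false (z 126) e) (n false e e)) e) (n false e e)) e) (n false e e)) e) e) (u 256 2 (k v (k (t 768 1 (u 512 19 (k v (k v (k (c 1024 4097 r (u 1536 1 (k v (k v r)))) (k (c 1024 4095 r (u 1536 0 (k v (k v r)))) (k (c 1024 4095 r (u 1536 0 (k v (k v r)))) r))))))) (k (t 768 1 (u 512 17 (k v (k v (k (c 1024 4096 r (u 1536 1 (k v (k v r)))) r))))) r))))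
 .z .z)) (.s 0x3aaee77dc008420 4075 (n false (n false (n false (n false (n false (n true (n false (n true (z 45) e) (n false e e)) e) (n false e e)) e) (n false e e)) e) e) (u 256 4 (k v (k (t 768 1 (u 512 36 (k v (k v (k (u 1024 16 (k v (k v (k v r)))) (k (u 1024 3 (k v (k v r))) r)))))) r)))
 (.s 0x3aaea77dc008420 4073 (n false (n false (n false (n false (n false (n true (n false (n false (z 45) e) (n false e e)) e) (n false e e)) e) (n false e e)) e) e) (u 256 4 (k v (k (t 768 1 (u 512 7 (k v (k (u 1024 17 (k v (k v (k v r)))) (k (u 1024 18 (k v (k v (k v (k v r))))) (k (u 1024 3 (k v (k v r))) r)))))) r)))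
 .z .z) (.s 0x3ab842e113bbb00 4074 (n false (z 85) (n false (n false (n false (n true (n false e e) e) (n false e e)) e) (n false (n true (n false e e) e) (n false e e)))) (u 2 14 (k v (k v (k (c 6 4099 r r) (k (c 6 4099 r r) (k (c 6 4099 r (u 4 1 (k v (k v (k v (k (t 12 1 (u 8 134 (k v (k (t 24 1 (u 16 0 (k v (k v r)))) (k (t 24 2 (u 16 0 (k (u 32 2 (k v (k (c 16 4084 (u 4 1 (k v (k v r))) v) r))) r))) r))))) r)))))) (k (c 6 4096 r r) r)))))))
 .z .z))) (.s 0x3ae577c0047dc20 4073 (n false (n false (n false (n true (z 52) e) e) (n false e e)) (n true (n true (n false (n true (n false e e) e) (n false e e)) e) e)) (u 16 196 (k v (k v (k v (k v r)))))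
 (.s 0x3aba9ddf0021088 4077 (n false (n false (n false (n false (n true (n false (n false (z 53) e) (n false e e)) e) (n false e e)) e) (n false e e)) (n false e e)) (u 128 0 (k (t 384 1 (u 256 13 (k v (k v (k v (k (u 512 0 (k v (k v r))) (k (u 512 0 (k v (k v r))) (k (c 768 4097 r (u 512 0 (k v (k v r)))) r)))))))) (k (t 384 1 (u 256 23 (k v (k v (k v (k (u 512 3 (k v (k v r))) r)))))) r)))
 (.s 0x3aba97ff8021088 4077 (n false (n false (n false (n false (n true (n false (n false (z 126) e) (n false e e)) e) (n false e e)) e) (n false e e)) (n false e e)) (u 128 3 (k v (k (t 384 1 (u 256 37 (k v (k v (k v r))))) (k (t 384 1 (u 256 31 (k v (k v (k v r))))) r))))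
 .z .z) (.s 0x3aba9f5700210e0 4079 (n false (n false (n false (n false (n true (n false (n false (z 35) e) (n false e e)) e) (n false e e)) e) (n true (n false e e) e)) e) (u 128 0 (k v (k v (k (t 384 1 (u 256 0 (k (t 512 3 (t 768 1 v)) r))) r))))
 .z .z)) (.s 0x3ae5ffc00ae8840 4076 (n false (n false (n false (n true (z 62) e) (n false (n false (n true (n false (n false e e) (n false e e)) e) (n false e e)) e)) e) e) (u 16 7 (k v (k v (k v (k (t 48 1 (u 32 41 (k v (k v (k (t 96 1 (u 64 2 (k v (k v r)))) r))))) r)))))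
 (.s 0x3ae577c00ae8840 4076 (n false (n false (n false (n true (z 52) e) (n false (n false (n true (n false (n false e e) (n false e e)) e) (n false e e)) e)) e) e) (u 16 232 (k v (k v (k v (k v (k v (k v (k (t 48 1 (u 32 0 (k v (k v r)))) (k (t 48 1 (u 32 0 (k (c 96 4099 r (u 64 2 (k v (k (c 20 4090 v (c 8 4078 (u 16 1 (k v (k v r))) v)) r)))) r))) r)))))))))
 .z .z) .z))) (.s 0x3b95df0022ee108 4076 (n false (n false (n true (z 52) e) (n false e e)) (n false (n true (n false (n true (n false e e) e) (n false e e)) e) (n false e e))) (u 8 151 (k v (k v (k v (k v (k v (k v r)))))))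
 (.s 0x3b957f0022a2288 4083 (n false (n false (n true (z 56) e) (n false e e)) (n false (n false (n false e e) (n false e e)) (n false (n false e e) (n false e e)))) (u 8 1 (k (u 16 1 (k v (k v r))) (k (u 16 180 (k v (k v (k v (k v (k v (k v (k v r)))))))) (k (c 16 4096 r (u 24 0 (k v (k v r)))) (k (c 24 4096 r r) r)))))
 (.s 0x3b9557002577c00 4088 (n false (n false (z 52) (n true (z 32) e)) e) (u 4 59 (k (u 10 0 (k (t 18 3 (t 26 1 v)) r)) (k (u 10 0 (k (t 18 3 (t 26 1 v)) r)) (k (t 12 1 r) (k (c 10 4096 r (t 12 2 (u 8 0 (k r r)))) r)))))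
 (.s 0x3ae977d0043b840 4065 (n false (n false (n false (n true (n false (z 26) (n false e e)) e) (n true (n false (n true (n false e e) e) (n false e e)) e)) e) e) (u 32 2 (k v (k (u 64 6 (k v (k v r))) r)))
 .z .z) (.s 0x3b9557002777600 4092 (n false (n false (z 85) (n true (z 32) e)) e) (u 4 46 (k (u 10 0 (k (t 18 3 (t 26 1 v)) r)) (k (u 10 0 (k (t 18 3 (t 26 1 v)) r)) (k (c 12 4099 r (u 8 206 (k (u 10 0 (k (t 18 3 (t 26 1 v)) r)) (k (u 10 0 (k (t 18 3 (t 26 1 v)) r)) (k (c 10 4096 r v) (k (c 8 4094 v (u 10 0 (k (t 18 3 (t 26 1 v)) r))) (k (u 10 0 (k (t 18 3 (t 26 1 v)) r)) (k (u 10 0 (k (t 18 3 (t 26 1 v)) r)) (k (c 10 4096 r r) r))))))))) r))))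
 .z .z)) (.s 0x3b95df0012bbe00 4089 (n false (z 52) (n false (n true (z 52) e) e)) (u 2 99 (k r (k r (k (u 9 230 (k v (k v (k v r)))) r))))
 (.s 0x3b95d78022ee108 4076 (n false (n false (n true (z 100) e) (n false e e)) (n false (n true (n false (n true (n false e e) e) (n false e e)) e) (n false e e))) (u 8 3 (k v (k (t 24 1 (u 16 2 (k v (k v r)))) (k (c 24 4097 r r) (k (c 24 4096 r r) (k (c 24 4096 r r) r))))))
 .z .z) .z)) (.s 0x3b95fd400475110 4073 (n false (n false (n true (z 156) e) (n false e e)) (n true (n false (n false (n false e e) (n false e e)) (n false e e)) e)) (u 8 1 (k v (k (c 24 4099 r (u 16 1 (k v (k v r)))) (k (c 16 4098 r (u 24 1 (k v (k v r)))) (k (c 16 4097 r (u 24 1 (k v (k v r)))) (k (c 16 4099 r (u 24 1 (k v (k v r)))) (k (c 16 4095 r (u 24 0 (k v (k v r)))) r)))))))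
 (.s 0x3b95df00385d108 4074 (n false (n false (n true (z 52) e) (n true (n false e e) e)) (n false (n true (n false (n false e e) (n false e e)) e) (n false e e))) (u 8 188 (k v (k v (k v (k v (k v (k v (k (t 24 1 (u 16 0 (k v (k v r)))) (k (t 24 1 (u 16 0 (k (c 48 4099 r (u 32 2 (k v (k (c 4 4078 (u 16 1 (k v (k v r))) v) r)))) r))) r)))))))))
 (.s 0x3b95df002777600 4088 (n false (n false (z 85) (n true (z 52) e)) e) (u 4 2 (k r (k r (k (c 12 4099 r r) (k (t 12 1 (u 8 2 (k r (k (t 24 2 (c 12 4099 v (u 16 5 (k r (k r (k (c 4 4082 (u 8 1 (k v (k v r))) (c 6 4096 r v)) r)))))) r)))) (k (c 12 4099 r r) (k (c 12 4096 r (u 10 5 (k r (k r (k (u 8 3 (k v (k v r))) (k r r)))))) (k (c 8 4099 r r) r))))))))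
 .z .z) (.s 0x3b95df003b84288 4069 (n false (n false (n true (z 52) e) (n true (n false (n true (n false e e) e) (n false e e)) e)) (n false (n false e e) (n false e e))) (u 8 253 (k v (k v (k v (k (t 24 1 (u 16 2 (k v (k v r)))) r)))))
 .z .z)) (.s 0x3b95fd40047dc20 4067 (n false (n false (n true (z 156) e) (n false e e)) (n true (n true (n false (n true (n false e e) e) (n false e e)) e) e)) (u 8 1 (k v (k (c 24 4099 r (u 16 1 (k v (k v r)))) (k (c 16 4098 r (u 24 1 (k v (k v r)))) (k (c 16 4097 r (u 24 1 (k v (k v r)))) (k (c 16 4099 r (u 24 1 (k v (k v r)))) (k (c 16 4095 r (u 24 0 (k v (k v r)))) r)))))))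
 (.s 0x3b95fd400475c20 4070 (n false (n false (n true (z 156) e) (n false e e)) (n true (n false (n false (n true (n false e e) e) (n false e e)) e) e)) (u 8 1 (k v (k (c 24 4099 r (u 16 1 (k v (k v r)))) (k (c 16 4098 r (u 24 1 (k v (k v r)))) (k (c 16 4097 r (u 24 1 (k v (k v r)))) (k (c 16 4099 r (u 24 1 (k v (k v r)))) (k (c 16 4095 r (u 24 0 (k v (k v r)))) r)))))))
 .z .z) .z))))

set_option maxRecDepth 100000 in
def N97 : NT :=
(.s 0x3b9d7f8023fe880 4077 (n false (n false (n true (z 121) e) (n false e e)) (n true (n true (n true (n true (n false (n false e e) (n false e e)) e) e) e) e)) (u 8 29 (k v (k v (k v (k (c 24 4099 r (u 16 1 (k v (k v r)))) r)))))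
 (.s 0x3b977d8022a2288 4084 (n false (n false (n true (z 90) e) (n false e e)) (n false (n false (n false e e) (n false e e)) (n false (n false e e) (n false e e)))) (u 8 5 (k v (k r (k (c 24 4097 r (u 16 2 (k v (k (c 48 4097 r (u 32 0 (k v (k v r)))) r)))) (k r (k (c 24 4096 r r) (k (c 24 4097 r r) (k (u 16 6 (k v (k v (k (c 48 4097 r (u 32 1 (k v (k v r)))) (k (c 48 4096 r (u 32 1 (k v (k v r)))) (k (c 48 4097 r (u 32 1 (k v (k v r)))) r)))))) (k (c 24 4095 r r) (k (c 16 4095 r r) r))))))))))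
 (.s 0x3b977700255fc00 4088 (n false (n false (z 56) (n true (z 42) e)) e) (u 10 1 (k r (k (u 4 1 (k (u 8 1 (k v (k v r))) (k (u 8 105 (k v (k v (k v (k v (k v (k v (k v (k v (k (c 4 4087 (t 6 2 r) v) (k (c 4 4087 (t 6 1 r) v) r))))))))))) (k (c 8 4096 r (u 12 0 (k v (k v r)))) (k (c 12 4096 r r) r))))) r)))
 (.s 0x3b97770022a2288 4082 (n false (n false (n true (z 42) e) (n false e e)) (n false (n false (n false e e) (n false e e)) (n false (n false e e) (n false e e)))) (u 8 2 (k v (k (t 24 1 (u 16 0 (k (u 32 4 (k v (k (c 8 4088 r v) r))) r))) (k (u 16 39 (k v (k v (k v (k (u 32 19 (k v (k v (k v r)))) r))))) (k r (k r (k r r)))))))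
 (.s 0x3b975f0022a2288 4085 (n false (n false (n true (z 50) e) (n false e e)) (n false (n false (n false e e) (n false e e)) (n false (n false e e) (n false e e)))) (u 8 2 (k v (k (c 24 4097 r (u 16 0 (k v (k v r)))) r)))
 .z .z) (.s 0x3b97770022ee108 4076 (n false (n false (n true (z 42) e) (n false e e)) (n false (n true (n false (n true (n false e e) e) (n false e e)) e) (n false e e))) (u 8 42 (k v (k v (k (u 16 2 (k v (k v r))) (k r (k r (k (t 24 1 (c 4 4084 r v)) r)))))))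
 .z .z)) (.s 0x3b9777003a88a20 4082 (n false (n false (n true (z 42) e) (n true (n false (n false (n false e e) (n false e e)) (n false (n false e e) (n false e e))) e)) e) (u 8 5 (k v (k r (k r (k (t 24 1 (u 16 0 (k (u 32 4 (k v (k (c 8 4088 r v) r))) r))) (k (u 16 45 (k v (k v (k r (k r r))))) (k (u 16 0 (k v (k (u 32 7 (k v (k v (k v (k (c 96 4099 r (u 64 1 (k v (k v r)))) r))))) r))) r)))))))
 (.s 0x3b97770027df600 4087 (n false (n false (z 91) (n true (z 42) e)) e) (u 10 57 (k r (k r (k r (k r r)))))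
 .z .z) (.s 0x3b977d00387dc20 4077 (n false (n false (n true (z 26) e) (n true (n false e e) e)) (n true (n true (n false (n true (n false e e) e) (n false e e)) e) e)) (u 8 2 (k v (k (c 4 4084 (u 4 1 (k v (k v r))) v) r)))
 .z .z))) (.s 0x3b97f7003a88a20 4082 (n false (n false (n true (z 46) e) (n true (n false (n false (n false e e) (n false e e)) (n false (n false e e) (n false e e))) e)) e) (u 8 1 (k v (k (u 16 1 (k v (k v r))) (k (c 24 4099 r (u 16 0 (k v (k v r)))) (k (u 16 1 (k v (k v r))) (k (c 24 4097 r (u 16 1 (k v (k v r)))) (k (c 16 4095 r (u 24 1 (k v (k v r)))) r)))))))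
 (.s 0x3b97f70022a2288 4084 (n false (n false (n true (z 46) e) (n false e e)) (n false (n false (n false e e) (n false e e)) (n false (n false e e) (n false e e)))) (u 8 1 (k v (k (u 16 1 (k v (k v r))) (k (c 24 4099 r (u 16 0 (k v (k v r)))) (k (u 16 1 (k v (k v r))) (k (c 24 4097 r (u 16 1 (k v (k v r)))) (k (c 16 4095 r (u 24 1 (k v (k v r)))) r)))))))
 (.s 0x3b97f50012bbe00 4089 (n false (n false (n true (z 14) e) e) (z 52)) (u 3 159 (k (u 8 0 (k v (k v r))) (k (u 8 0 (k v (k v r))) (k (c 8 4097 r v) r))))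
 .z .z) (.s 0x3b97f700387dc20 4075 (n false (n false (n true (z 46) e) (n true (n false e e) e)) (n true (n true (n false (n true (n false e e) e) (n false e e)) e) e)) (u 8 1 (k v (k (u 16 1 (k v (k v r))) (k (c 24 4099 r (u 16 0 (k v (k v r)))) (k (u 16 1 (k v (k v r))) (k (c 24 4097 r (u 16 1 (k v (k v r)))) (k (c 16 4095 r (u 24 1 (k v (k v r)))) r)))))))
 .z .z)) (.s 0x3b9d7f8022a2288 4085 (n false (n false (n true (z 121) e) (n false e e)) (n false (n false (n false e e) (n false e e)) (n false (n false e e) (n false e e)))) (u 8 3 (k v (k v (k (c 24 4099 r (u 16 1 (k v (k v r)))) (k (c 16 4097 r (u 24 1 (k v (k v r)))) r)))))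
 (.s 0x3b97ff002777600 4088 (n false (n false (n true (z 62) e) (z 85)) e) (u 6 50 (k r (k r (k (c 14 4099 r r) (k (c 8 4095 r r) (k (c 14 4096 r (c 8 4095 r r)) (k (c 10 4099 r r) r)))))))
 .z .z) .z))) (.s 0x3b9f57002777600 4092 (n false (n false (z 85) (n true (z 35) e)) e) (u 10 2 (k r (k r (k (t 4 1 v) (k (t 26 1 (u 4 25 (k (c 10 4096 (c 2 4098 r v) v) (k (u 18 0 (k (t 34 3 (t 50 1 v)) r)) (k (c 12 4099 r r) (k (c 12 4099 r (c 10 4096 (c 2 4098 r v) r)) (k (c 12 4099 r r) (k (c 10 4096 (c 2 4098 r v) r) (k (c 8 4099 r r) r))))))))) r)))))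
 (.s 0x3b9ddd8022a2288 4084 (n false (n false (n true (z 85) e) (n false e e)) (n false (n false (n false e e) (n false e e)) (n false (n false e e) (n false e e)))) (u 8 33 (k v (k v (k v (k (c 24 4099 r r) (k (u 16 6 (k v (k v r))) (k (c 16 4099 r r) r)))))))
 (.s 0x3b9d7f803a88a20 4084 (n false (n false (n true (z 121) e) (n true (n false (n false (n false e e) (n false e e)) (n false (n false e e) (n false e e))) e)) e) (u 8 3 (k v (k v (k (c 24 4099 r (u 16 1 (k v (k v r)))) (k (c 16 4097 r (u 24 1 (k v (k v r)))) r)))))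
 (.s 0x3b9d7f80387dc20 4075 (n false (n false (n true (z 121) e) (n true (n false e e) e)) (n true (n true (n false (n true (n false e e) e) (n false e e)) e) e)) (u 8 1 (k v (k (c 24 4099 r (u 16 1 (k v (k v r)))) (k (c 16 4097 r (u 24 1 (k v (k v r)))) (k (c 16 4095 r (u 24 0 (k v (k v r)))) (k (c 16 4095 r (u 24 0 (k v (k v r)))) r))))))
 .z .z) (.s 0x3b9dd700387dc20 4075 (n false (n false (n true (z 37) e) (n true (n false e e) e)) (n true (n true (n false (n true (n false e e) e) (n false e e)) e) e)) (u 8 24 (k v (k (u 16 0 (k (t 32 3 (t 48 1 v)) r)) (k (u 16 2 (k v (k v (k v (k (t 48 1 (u 32 0 (k (t 64 3 (t 96 1 v)) r))) r))))) (k (u 16 0 (k (t 32 3 (t 48 1 v)) r)) (k (u 16 2 (k v (k v (k v (k (t 48 1 (u 32 0 (k (t 64 3 (t 96 1 v)) r))) r))))) (k (u 16 6 (k v (k (t 48 1 (u 32 10 (k v (k v r)))) r))) r)))))))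
 .z .z)) (.s 0x3b9f5580275fe00 4092 (n false (n false (z 121) (n true (z 67) e)) e) (u 4 20 (k r (k r (k r (k (c 8 4099 r r) r)))))
 (.s 0x3b9f558022a2288 4087 (n false (n false (n true (z 67) e) (n false e e)) (n false (n false (n false e e) (n false e e)) (n false (n false e e) (n false e e)))) (u 8 40 (k v (k v (k v (k v (k (t 24 2 (u 16 2 (k v (k v r)))) (k (c 16 4101 r (u 24 0 (k v (k v r)))) (k (u 16 14 (k v (k v (k v (k v r))))) (k (c 16 4099 r (u 24 0 (k v (k v r)))) (k (c 24 4099 r (u 16 0 (k (u 32 0 (k v (k v r))) r))) (k (c 24 4101 r (u 16 1 (k v (k v r)))) (k (c 24 4099 r r) (k (c 24 4102 r (u 16 1 (k v (k v r)))) (k (c 24 4100 r r) (k (c 16 4101 r (u 24 1 (k v (k v r)))) (k (c 24 4099 r (u 16 2 (k v (k (c 48 4099 r (u 32 1 (k v (k v r)))) (k (c 32 4095 r (u 48 0 (k v (k v r)))) r))))) (k (c 16 4101 r (u 24 1 (k v (k v r)))) r)))))))))))))))))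
 .z .z) .z)) (.s 0x3b9f7700387dc20 4079 (n false (n false (n true (z 43) e) (n true (n false e e) e)) (n true (n true (n false (n true (n false e e) e) (n false e e)) e) e)) (u 8 0 (k v (k (u 16 1 (k v (k v r))) (k (c 24 4099 r (u 16 0 (k (u 32 0 (k v (k v r))) r))) (k (u 16 3 (k v (k v (k (u 32 0 (k v (k v r))) (k (c 48 4097 r (u 32 1 (k v (k v r)))) (k (c 32 4095 r (u 48 1 (k v (k v r)))) r)))))) (k (c 3 4090 v r) (k (u 16 0 (k (u 32 0 (k v (k v r))) r)) (k r (k r r)))))))))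
 (.s 0x3b9f57003b84288 4072 (n false (n false (n true (n false (n true (n false e e) e) (n false e e)) e) (n true (z 35) e)) (n false (n false e e) (n false e e))) (u 10 2 (k v (k v (k v (k (t 26 1 (u 18 0 (k (t 34 3 (t 50 1 v)) r))) r)))))
 (.s 0x3b9f570027df600 4092 (n false (n false (z 91) (n true (z 35) e)) e) (u 4 3 (k (c 10 4096 r v) (k r (k (u 10 2 (k (u 8 1 (k v (k v r))) (k (u 8 1 (k v (k v r))) (k (c 8 4099 r v) (k (t 26 1 (u 18 0 (k (t 34 3 (t 50 1 (u 8 1 (k v (k v r))))) r))) r))))) (k (c 8 4097 r (u 12 0 (k r (k r r)))) (k (c 8 4097 r (u 12 0 (k r (k r r)))) (k (c 8 4096 r (u 12 0 (k r (k r r)))) r)))))))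
 .z .z) (.s 0x3b9f77003875c20 4080 (n false (n false (n true (z 43) e) (n true (n false e e) e)) (n true (n false (n false (n true (n false e e) e) (n false e e)) e) e)) (u 8 0 (k v (k (u 16 2 (k v (k v r))) (k (c 24 4099 r (u 16 0 (k (u 32 0 (k v (k v r))) r))) (k (u 16 9 (k v (k v (k (u 32 0 (k v (k v r))) r)))) (k (c 3 4090 v r) (k (u 16 0 (k (u 32 0 (k v (k v r))) r)) (k (u 16 41 (k v (k v (k v (k v r))))) (k (u 16 2 (k v (k (c 48 4099 r (u 32 1 (k v (k v r)))) (k (c 32 4095 r (u 48 0 (k v (k v r)))) r)))) r)))))))))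
 .z .z)) (.s 0x3b9f7f8022a2288 4086 (n false (n false (n true (z 123) e) (n false e e)) (n false (n false (n false e e) (n false e e)) (n false (n false e e) (n false e e)))) (u 8 43 (k v (k v (k r (k (u 16 48 (k v (k v (k v (k (c 48 4101 r (u 32 230 (k v (k v (k v r))))) (k (c 48 4099 r (u 32 230 (k v (k v (k v r))))) (k (c 32 4101 r (u 48 230 (k v (k v (k v r))))) (k (c 32 4099 r (u 48 230 (k v (k v (k v r))))) (k (c 32 4101 r (u 48 230 (k v (k v (k v r))))) r))))))))) (k (c 16 4096 r (u 24 1 (k v (k v r)))) (k (c 24 4097 r r) r)))))))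
 (.s 0x3b9f7d8022a2288 4083 (n false (n false (n true (z 91) e) (n false e e)) (n false (n false (n false e e) (n false e e)) (n false (n false e e) (n false e e)))) (u 8 2 (k v (k v (k (u 16 1 (k v (k v r))) (k (c 16 4097 r (u 24 0 (k v (k v r)))) (k (c 16 4097 r (u 24 0 (k v (k v r)))) (k (c 16 4096 r (u 24 0 (k v (k v r)))) (k (c 16 4095 r (u 24 0 (k v (k v r)))) r))))))))
 .z .z) .z))))

set_option maxRecDepth 100000 in
def N98 : NT :=
(.s 0x3ba577c01dc20e0 4062 (n false (n false (n true (n false (z 52) (n true (n false (n true (n false e e) e) (n false e e)) e)) e) (n true (n false e e) e)) e) (u 16 74 (k v (k v (k v (k v r)))))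
 (.s 0x3ba5556010ea220 4077 (n false (n false (n true (n false (z 64) (n false e e)) e) (n true (n false (n false (n false e e) (n false e e)) (n false e e)) e)) e) (u 16 0 (k (c 48 4099 r (u 32 2 (k v (k (c 4 4078 (u 16 1 (k v (k v r))) v) r)))) r))
 (.s 0x3b9fdd8012bbe00 4089 (n false (n false (n true (z 87) e) e) (z 52)) (u 3 99 (k (u 8 1 (k v (k v r))) (k (u 8 1 (k v (k v r))) (k (u 8 1 (k v (k v r))) r))))
 (.s 0x3b9fd78022a2288 4087 (n false (n false (n true (z 103) e) (n false e e)) (n false (n false (n false e e) (n false e e)) (n false (n false e e) (n false e e)))) (u 8 0 (k v (k (c 24 4101 r (u 16 1 (k v (k v r)))) (k (c 16 4101 r (u 24 1 (k v (k v r)))) (k (c 16 4101 r (u 24 1 (k v (k v r)))) r)))))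
 (.s 0x3b9fd58022ee108 4078 (n false (n false (n true (z 71) e) (n false e e)) (n false (n true (n false (n true (n false e e) e) (n false e e)) e) (n false e e))) (u 8 25 (k v (k r (k (t 24 1 r) (k (c 24 4100 r r) (k r (k (c 24 4100 r r) r)))))))
 .z .z) (.s 0x3b9fd7803a88a20 4087 (n false (n false (n true (z 103) e) (n true (n false (n false (n false e e) (n false e e)) (n false (n false e e) (n false e e))) e)) e) (u 8 0 (k v (k (c 24 4101 r (u 16 1 (k v (k v r)))) (k (c 16 4101 r (u 24 1 (k v (k v r)))) (k (c 16 4101 r (u 24 1 (k v (k v r)))) r)))))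
 .z .z)) (.s 0x3b9fdf8022a2288 4086 (n false (n false (n true (z 119) e) (n false e e)) (n false (n false (n false e e) (n false e e)) (n false (n false e e) (n false e e)))) (u 8 22 (k v (k v (k (c 24 4101 r r) (k (c 24 4099 r r) (k (c 24 4096 r (u 16 0 (k (u 32 0 (k v (k v r))) r))) (k (c 16 4098 r r) (k (c 16 4101 r r) (k (c 16 4099 r r) (k (c 16 4101 r r) r))))))))))
 (.s 0x3b9fdf0027dfe00 4087 (n false (n false (z 123) (n true (z 55) e)) e) (u 4 2 (k r (k (c 12 4099 r (u 8 37 (k r (k r (k r r))))) (k (c 10 4096 r r) (k (c 8 4096 r (u 12 1 (k r (k r r)))) r)))))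
 .z .z) (.s 0x3b9fdf803a88a20 4085 (n false (n false (n true (z 119) e) (n true (n false (n false (n false e e) (n false e e)) (n false (n false e e) (n false e e))) e)) e) (u 8 23 (k v (k v (k (c 24 4101 r r) (k (c 24 4099 r r) (k (c 24 4097 r r) (k (c 24 4096 r (u 16 0 (k (u 32 0 (k v (k v r))) r))) (k (c 16 4098 r r) (k (c 16 4101 r r) (k (c 16 4099 r r) (k (c 16 4101 r r) r)))))))))))
 .z .z))) (.s 0x3ba577c010e1708 4066 (n false (n false (n true (n false (z 52) (n false e e)) e) (n true (n false e e) e)) (n false (n true (n false e e) e) (n false e e))) (u 16 134 (k v (k (t 48 1 (u 32 0 (k v (k v r)))) (k (t 48 3 (u 32 0 (k (u 64 6 (k v (k v r))) r))) r))))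
 (.s 0x3ba575c010e1708 4061 (n false (n false (n true (n false (z 36) (n false e e)) e) (n true (n false e e) e)) (n false (n true (n false e e) e) (n false e e))) (u 16 0 (k (u 32 2 (k v (k (u 64 1 (k v (k v r))) r))) r))
 (.s 0x3ba55f4010e1d10 4077 (n false (n false (n true (n false (z 24) (n false e e)) e) (n true (n false e e) e)) (n true (n false (n false e e) (n false e e)) e)) (c 8 4096 (c 2 4098 r v) v)
 .z .z) (.s 0x3ba575c010ea220 4074 (n false (n false (n true (n false (z 36) (n false e e)) e) (n true (n false (n false (n false e e) (n false e e)) (n false e e)) e)) e) (u 16 0 (k (u 32 2 (k v (k (c 4 4078 (u 16 1 (k v (k v r))) v) r))) r))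
 .z .z)) (.s 0x3ba577c01dc2088 4062 (n false (n false (n true (n false (z 52) (n true (n false (n true (n false e e) e) (n false e e)) e)) e) (n false e e)) (n false e e)) (u 16 74 (k v (k v (k v (k v r)))))
 (.s 0x3ba577c010ee108 4064 (n false (n false (n true (n false (z 52) (n false e e)) e) (n true (n false (n true (n false e e) e) (n false e e)) e)) (n false e e)) (u 16 134 (k v (k (t 48 1 (u 32 0 (k v (k v r)))) (k (t 48 3 (u 32 0 (k (u 64 2 (k v (k (c 32 4084 (u 4 1 (k v (k v r))) v) r))) r))) r))))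
 .z .z) .z))) (.s 0x3ba88a2113aff00 4084 (n false (z 121) (n false (n true (n false (n false (n false e e) (n false e e)) (n false (n false e e) (n false e e))) e) (n false e e))) (u 2 3 (k v (k v (k (c 6 4099 r (u 4 1 (k v (k v r)))) (k (c 4 4097 r (u 6 1 (k v (k v r)))) r)))))
 (.s 0x3ba5ff500211708 4071 (n false (n false (n true (n false (z 158) (n false e e)) e) (n false e e)) (n false (n true (n false e e) e) (n false e e))) (u 16 0 (k (u 32 0 (k v (k r (k r (k r r))))) r))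
 (.s 0x3ba5df4010e1708 4065 (n false (n false (n true (n false (z 26) (n false e e)) e) (n true (n false e e) e)) (n false (n true (n false e e) e) (n false e e))) (u 16 2 (k v (k (u 32 1 (k v (k v r))) r)))
 (.s 0x3ba57f500382288 4079 (n false (n false (n true (n false (z 156) (n true (n false e e) e)) e) (n false e e)) (n false (n false e e) (n false e e))) (u 16 1 (k v (k (c 48 4099 r (u 32 1 (k v (k v r)))) (k (c 32 4098 r (u 48 1 (k v (k v r)))) (k (c 32 4097 r r) (k (c 32 4099 r (u 48 1 (k v (k v r)))) (k (c 32 4095 r (c 4 4080 r v)) r)))))))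
 .z .z) (.s 0x3ba5df4010ee108 4063 (n false (n false (n true (n false (z 26) (n false e e)) e) (n true (n false (n true (n false e e) e) (n false e e)) e)) (n false e e)) (u 16 2 (k v (k (u 32 1 (k v (k v r))) r)))
 .z .z)) (.s 0x3ba88a2112eee00 4083 (n false (z 42) (n false (n true (n false (n false (n false e e) (n false e e)) (n false (n false e e) (n false e e))) e) (n false e e))) (u 2 2 (k v (k (t 6 1 (u 4 0 (k (u 8 2 (k v (k (c 2 4088 r v) r))) r))) (k (u 4 2 (k v (k v r))) (k (u 4 0 (k v (k (u 8 7 (k v (k v (k v (k (c 24 4099 r (u 16 1 (k v (k v r)))) r))))) r))) (k (u 4 35 (k v (k v (k v (k (c 8 4095 r (u 12 0 (k v (k v r)))) (k (c 8 4095 r (u 12 0 (k v (k v r)))) r)))))) (k (u 4 2 (k v (k (c 12 4099 r (u 8 1 (k v (k v r)))) (k (c 8 4095 r (u 12 0 (k v (k v r)))) r)))) r)))))))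
 (.s 0x3ba75f60047dc20 4065 (n false (n false (n true (n false (z 89) e) e) (n false e e)) (n true (n true (n false (n true (n false e e) e) (n false e e)) e) e)) (u 16 2 (k v (k v (k v (k (t 48 2 (u 32 6 (k v (k v (k (t 96 1 (u 64 0 (k v (k v r)))) r))))) r)))))
 .z .z) .z)) (.s 0x3ba88a2113faf00 4085 (n false (z 103) (n false (n true (n false (n false (n false e e) (n false e e)) (n false (n false e e) (n false e e))) e) (n false e e))) (u 2 0 (k v (k (c 4 4100 r r) (k (c 6 4100 r r) (k (c 6 4100 r r) r)))))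
 (.s 0x3ba88a2113eaf00 4085 (n false (z 99) (n false (n true (n false (n false (n false e e) (n false e e)) (n false (n false e e) (n false e e))) e) (n false e e))) (u 2 3 (k v (k (c 6 4096 r r) (k (c 6 4096 r r) (k (c 6 4096 r r) (k (c 6 4096 r r) r))))))
 (.s 0x3ba88a2113eab00 4085 (n false (z 67) (n false (n true (n false (n false (n false e e) (n false e e)) (n false (n false e e) (n false e e))) e) (n false e e))) (u 2 41 (k v (k v (k v (k v (k (c 6 4099 r r) (k (c 4 4101 r (u 6 0 (k v (k v r)))) (k (c 6 4099 r r) (k (u 4 14 (k v (k v (k v (k v r))))) (k (c 4 4099 r (u 6 0 (k v (k v r)))) (k (c 6 4099 r (u 4 0 (k (u 8 0 (k v (k v r))) r))) (k (c 4 4099 r r) (k (c 6 4099 r r) (k (c 6 4102 r (u 4 1 (k v (k v r)))) (k (c 6 4100 r r) (k (c 6 4099 r r) (k (c 6 4099 r r) (k (c 6 4099 r r) r))))))))))))))))))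
 .z .z) (.s 0x3ba88a2113eff00 4085 (n false (z 123) (n false (n true (n false (n false (n false e e) (n false e e)) (n false (n false e e) (n false e e))) e) (n false e e))) (u 2 12 (k v (k r (k (t 6 1 (u 4 6 (k v (k v r)))) (k (u 4 49 (k v (k v (k v (k (c 12 4101 r (u 8 230 (k v (k v (k v r))))) (k (c 12 4099 r (u 8 230 (k v (k v (k v r))))) (k (c 8 4098 r (u 12 230 (k v (k v (k v r))))) (k (c 8 4101 r (u 12 230 (k v (k v (k v r))))) (k (c 8 4099 r (u 12 230 (k v (k v (k v r))))) (k (c 8 4101 r (u 12 230 (k v (k v (k v r))))) r)))))))))) (k (c 4 4096 r (u 6 1 (k v (k v r)))) (k (c 6 4097 r r) r)))))))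
 .z .z)) (.s 0x3ba977d00215c20 4074 (n false (n false (n true (n false (n false (z 26) e) (n false e e)) e) (n false (n false (n true (n false e e) e) (n false e e)) e)) e) (u 32 2 (k v (k (c 4 4078 (u 16 1 (k v (k v r))) v) r)))
 (.s 0x3ba88a2113fbf00 4084 (n false (z 119) (n false (n true (n false (n false (n false e e) (n false e e)) (n false (n false e e) (n false e e))) e) (n false e e))) (u 2 23 (k v (k v (k (c 6 4101 r r) (k (c 6 4099 r r) (k (c 6 4097 r r) (k (c 6 4096 r (u 4 0 (k (u 8 0 (k v (k v r))) r))) (k (c 4 4098 r r) (k (c 4 4101 r r) (k (c 4 4099 r r) (k (c 4 4101 r r) r)))))))))))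
 .z .z) .z))))

set_option maxRecDepth 100000 in
def N99 : NT :=
(.s 0x3bb9f558008ba08 4079 (n false (n false (n true (n false (n true (z 67) e) e) e) (n false e e)) (n false (n true (n false (n false e e) e) e) (n false e e))) (c 9 4094 v (c 4 4076 r v))
 (.s 0x3baa5df4010e0e0 4062 (n false (n false (n true (n false (n false (n false (z 26) (n false e e)) e) (n true (n false e e) e)) e) (n true (n false e e) e)) e) (u 64 2 (k v (k (u 128 5 (k v (k v r))) r)))
 (.s 0x3ba9f5580382288 4074 (n false (n false (n true (n false (n false (z 67) e) (n true (n false e e) e)) e) (n false e e)) (n false (n false e e) (n false e e))) (u 32 39 (k v (k v (k (t 96 2 (c 4 4075 r v)) (k (t 64 2 (c 4 4064 (u 24 0 (k (u 40 0 (k v (k v r))) r)) v)) (k (t 96 1 (c 4 4075 r v)) (k (t 96 2 (c 4 4067 r v)) (k (c 4 4072 r v) (k (t 96 1 (c 4 4067 r v)) (k (t 96 2 (c 4 4065 r v)) (k (t 64 2 (c 4 4075 r v)) (k (t 96 2 r) (k (t 64 1 (c 4 4075 r v)) (k (t 96 2 (c 4 4069 r v))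 (k (t 64 1 r) (k r (k (t 96 2 (c 4 4069 r v)) (k (t 96 1 (c 4 4069 r v)) (k (t 96 2 (c 4 4069 r v)) (k (t 96 2 (c 4 4069 r v)) (k (t 96 1 (c 4 4069 r v)) r)))))))))))))))))))))
 (.s 0x3ba9ddf00211708 4070 (n false (n false (n true (n false (n false (z 53) e) (n false e e)) e) (n false e e)) (n false (n true (n false e e) e) (n false e e))) (u 32 0 (k (t 96 1 (u 64 6 (k v (k v (k (u 128 1 (k v (k v r))) (k (c 192 4099 r (u 128 0 (k v (k v r)))) (k (u 128 1 (k v (k v r))) (k (c 192 4097 r (u 128 1 (k v (k v r)))) r)))))))) (k (t 96 1 (u 64 32 (k v (k v (k (c 192 4099 r r) (k (u 128 12 (k v (k v r))) (k (c 192 4096 r (u 128 3 (k v (k v r)))) (k (c 128 4099 r r) r)))))))) r)))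
 (.s 0x3ba97ff8021dc20 4072 (n false (n false (n true (n false (n false (z 126) e) (n false e e)) e) (n true (n false (n true (n false e e) e) (n false e e)) e)) e) (u 32 1 (k v (k (t 96 1 (u 64 1 (k v (k (c 192 4099 r (u 128 1 (k v (k v r)))) (k (c 128 4097 r (u 192 1 (k v (k v r)))) (k (c 128 4095 r (u 192 0 (k v (k v r)))) (k (c 128 4095 r (u 192 0 (k v (k v r)))) r))))))) (k (t 96 1 (u 64 17 (k v (k v (k (c 128 4096 r (u 192 1 (k v (k v r)))) r))))) r))))
 .z .z) (.s 0x3ba9ddf0021dc20 4072 (n false (n false (n true (n false (n false (z 53) e) (n false e e)) e) (n true (n false (n true (n false e e) e) (n false e e)) e)) e) (u 32 0 (k (t 96 1 (u 64 13 (k v (k v (k v (k (u 128 1 (k v (k v r))) (k (u 128 1 (k v (k v r))) (k (c 192 4097 r (u 128 1 (k v (k v r)))) r)))))))) (k (t 96 1 (u 64 17 (k v (k v (k (u 128 12 (k v (k v r))) (k (c 192 4096 r (u 128 3 (k v (k v r)))) (k (c 128 4099 r (u 192 194 (k v (k v (k v (k v r)))))) r))))))) r)))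
 .z .z)) (.s 0x3ba9fdf00382288 4080 (n false (n false (n true (n false (n false (z 55) e) (n true (n false e e) e)) e) (n false e e)) (n false (n false e e) (n false e e))) (u 32 4 (k (t 96 1 (u 64 25 (k v (k v (k v (k r (k (c 4 4085 r v) r))))))) (k (t 96 2 (c 4 4082 r v)) r)))
 (.s 0x3ba9f5700382288 4080 (n false (n false (n true (n false (n false (z 35) e) (n true (n false e e) e)) e) (n false e e)) (n false (n false e e) (n false e e))) (u 32 2 (k v (k v (k v (k (t 96 1 (u 64 0 (k (t 128 3 (t 192 1 v)) r))) r)))))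
 .z .z) (.s 0x3baa557c010e088 4069 (n false (n false (n true (n false (n false (n false (z 48) (n false e e)) e) (n true (n false e e) e)) e) (n false e e)) (n false e e)) (u 64 4 (k v (k v (k (u 128 4 (k v (k (t 384 1 (u 256 4 (k v (k v r)))) r))) (k (u 128 4 (k v (k (t 384 1 (u 256 2 (k v (k v r)))) r))) (k r (k r r)))))))
 .z .z))) (.s 0x3bb95df00382288 4075 (n false (n false (n true (n false (n true (z 52) e) (n true (n false e e) e)) e) (n false e e)) (n false (n false e e) (n false e e))) (u 32 104 (k v (k v (k v (k v (k v (k v (k (t 96 1 (u 64 0 (k v (k v r)))) (k (t 96 1 (u 64 0 (k (c 192 4099 r (u 128 2 (k v (k (c 4 4077 r v) r)))) r))) r)))))))))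
 (.s 0x3bab9fdf00210e0 4075 (n false (n false (n true (n false (n false (n false (n true (z 55) e) (n false e e)) e) (n false e e)) e) (n true (n false e e) e)) e) (u 128 4 (k r (k (t 384 2 (u 256 2 (k v (k (c 64 4082 (u 8 1 (k v (k v r))) v) r)))) r)))
 (.s 0x3baa5f7400e1c10 4069 (n false (n false (n true (n false (n false (n false (z 22) e) (n true (n false e e) e)) (n true (n false e e) e)) e) (n false e e)) e) (c 24 4094 v (u 64 2 (k v (k v r))))
 .z .z) (.s 0x3bb842e113bbb00 4074 (n false (z 85) (n false (n true (n false (n true (n false e e) e) (n false e e)) e) (n false (n true (n false e e) e) (n false e e)))) (u 2 14 (k v (k v (k (c 6 4099 r r) (k (c 6 4099 r r) (k (c 6 4099 r (u 4 1 (k v (k v (k v (k (t 12 1 (u 8 134 (k v (k (t 24 1 (u 16 3 (k v (k v r)))) (k (t 24 2 (u 16 0 (k (u 32 2 (k v (k (c 16 4084 (u 4 1 (k v (k v r))) v) r))) r))) r))))) r)))))) (k (c 6 4096 r r) r)))))))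
 .z .z)) (.s 0x3bb9df70021dc20 4074 (n false (n false (n true (n false (n true (z 45) e) (n false e e)) e) (n true (n false (n true (n false e e) e) (n false e e)) e)) e) (u 32 4 (k v (k (t 96 1 (u 64 36 (k v (k v (k (u 128 16 (k v (k v (k v r)))) (k (u 128 3 (k v (k v r))) r)))))) r)))
 (.s 0x3bb977700382288 4071 (n false (n false (n true (n false (n true (z 42) e) (n true (n false e e) e)) e) (n false e e)) (n false (n false e e) (n false e e))) (u 32 2 (k v (k (t 96 1 (u 64 0 (k (u 128 2 (k v (k (c 4 4077 (c 4 4078 (u 16 1 (k v (k v r))) v) v) r))) r))) (k (c 4 4075 r v) (k (u 64 1 (k v (k (u 128 9 (k v (k v (k (t 384 2 (u 256 40 (k v (k v (k v r))))) (k (c 128 4097 r v) r))))) (k (c 192 4096 r (c 4 4069 (u 32 1 (k v (k v r))) v)) r)))) (k (c 4 4071 r v) (k (c 4 4071 r v) r)))))))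
 .z .z) .z))) (.s 0x3be57fe0047dc20 4065 (n false (n false (n true (n true (z 124) e) e) (n false e e)) (n true (n true (n false (n true (n false e e) e) (n false e e)) e) e)) (u 16 2 (k v (k v (k (c 48 4097 r (u 32 1 (k v (k v r)))) (k (c 48 4096 r (u 32 1 (k v (k v r)))) (k (c 48 4097 r (u 32 1 (k v (k v r)))) (k (c 48 4099 r (u 32 1 (k v (k v r)))) r)))))))
 (.s 0x3be577c00475110 4070 (n false (n false (n true (n true (z 52) e) e) (n false e e)) (n true (n false (n false (n false e e) (n false e e)) (n false e e)) e)) (u 16 63 (k v (k v (k v (k v (k v r))))))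
 (.s 0x3be55fc00475c20 4071 (n false (n false (n true (n true (z 56) e) e) (n false e e)) (n true (n false (n false (n true (n false e e) e) (n false e e)) e) e)) (u 16 0 (k (u 32 370 (k v (k v (k v (k v r))))) (k (c 32 4096 r (u 48 0 (k v (k v r)))) (k (u 32 1 (k v (k v r))) (k (c 48 4096 r (u 32 371 (k v (k v (k v (k v r)))))) r)))))
 (.s 0x3bb9f5700382288 4082 (n false (n false (n true (n false (n true (z 35) e) (n true (n false e e) e)) e) (n false e e)) (n false (n false e e) (n false e e))) (u 32 2 (k v (k v (k v (k (t 96 1 (u 64 0 (k (t 128 3 (t 192 1 v)) r))) r)))))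
 .z .z) (.s 0x3be55fc0047dc20 4069 (n false (n false (n true (n true (z 56) e) e) (n false e e)) (n true (n true (n false (n true (n false e e) e) (n false e e)) e) e)) (u 16 1 (k (u 32 1 (k v (k v r))) (k (u 32 287 (k v (k v (k v (k v (k v r)))))) (k (c 32 4096 r (u 48 0 (k v (k v r)))) (k (c 48 4096 r r) r)))))
 .z .z)) (.s 0x3be577c0047dc20 4062 (n false (n false (n true (n true (z 52) e) e) (n false e e)) (n true (n true (n false (n true (n false e e) e) (n false e e)) e) e)) (u 16 23 (k v (k v (k v (k v (k v (k v (k v (k (t 48 2 (u 32 0 (k (u 64 2 (k v (k (c 8 4078 (u 16 1 (k v (k v r))) v) r))) r))) (k (t 48 1 (u 32 0 (k (c 96 4099 r (u 64 2 (k v (k (c 8 4078 (u 16 1 (k v (k v r))) v) r)))) r))) r))))))))))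
 (.s 0x3be577c00475c20 4066 (n false (n false (n true (n true (z 52) e) e) (n false e e)) (n true (n false (n false (n true (n false e e) e) (n false e e)) e) e)) (u 16 237 (k v (k v (k v (k v (k v (k v (k v r))))))))
 .z .z) .z)) (.s 0x3be75fe0070ae10 4077 (n false (n false (n true (n true (z 121) e) e) (n true (n false e e) e)) (n false (n false (n true (n false e e) e) (n false e e)) e)) (u 16 1 (k v (k (c 48 4099 r (u 32 1 (k v (k v r)))) (k (c 32 4097 r (u 48 1 (k v (k v r)))) (k (c 32 4095 r (u 48 0 (k v (k v r)))) (k (c 32 4095 r (u 48 0 (k v (k v r)))) r))))))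
 (.s 0x3be5fdc0070ee10 4076 (n false (n false (n true (n true (z 46) e) e) (n true (n false e e) e)) (n true (n false (n true (n false e e) e) (n false e e)) e)) (u 16 2 (k v (k (c 48 4099 r (u 32 0 (k v (k v r)))) (k (u 32 1 (k v (k v r))) (k (u 32 1 (k v (k v r))) (k (c 48 4097 r (u 32 1 (k v (k v r)))) (k (c 32 4095 r (u 48 1 (k v (k v r)))) r)))))))
 (.s 0x3be5fdc0070ae10 4077 (n false (n false (n true (n true (z 46) e) e) (n true (n false e e) e)) (n false (n false (n true (n false e e) e) (n false e e)) e)) (u 16 1 (k v (k (u 32 1 (k v (k v r))) (k (c 48 4099 r (u 32 0 (k v (k v r)))) (k (u 32 1 (k v (k v r))) (k (c 48 4097 r (u 32 1 (k v (k v r)))) (k (c 32 4095 r (u 48 1 (k v (k v r)))) r)))))))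
 .z .z) (.s 0x3be5ffc0047dc20 4062 (n false (n false (n true (n true (z 62) e) e) (n false e e)) (n true (n true (n false (n true (n false e e) e) (n false e e)) e) e)) (u 16 1 (k v (k v (k v (k (t 48 1 (u 32 6 (k v (k v (k (t 96 1 (u 64 0 (k v (k v r)))) r))))) r)))))
 .z .z)) (.s 0x3be775c0070ae10 4077 (n false (n false (n true (n true (z 37) e) e) (n true (n false e e) e)) (n false (n false (n true (n false e e) e) (n false e e)) e)) (u 16 0 (k v (k (u 32 0 (k (t 64 3 (t 96 1 v)) r)) (k (u 32 0 (k (t 64 3 (t 96 1 v)) r)) (k (u 32 2 (k v (k v (k v (k (t 96 1 (u 64 0 (k (t 128 3 (t 192 1 v)) r))) r))))) (k (u 32 2 (k v (k v (k v (k (t 96 1 (u 64 0 (k (t 128 3 (t 192 1 v)) r))) r))))) (k (c 3 4091 v r) r)))))))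
 (.s 0x3be75fe0070ee10 4076 (n false (n false (n true (n true (z 121) e) e) (n true (n false e e) e)) (n true (n false (n true (n false e e) e) (n false e e)) e)) (u 16 1 (k v (k (c 48 4099 r (u 32 1 (k v (k v r)))) (k (c 32 4097 r (u 48 1 (k v (k v r)))) (k (c 32 4095 r (u 48 0 (k v (k v r)))) (k (c 32 4095 r (u 48 0 (k v (k v r)))) r))))))
 .z .z) .z))))

set_option maxRecDepth 100000 in
def N100 : NT :=
(.s 0x3bf97ff000fb840 4065 (n false (n false (n true (n true (n true (z 62) e) e) e) (n true (n true (n false (n true (n false e e) e) (n false e e)) e) e)) e) (u 32 1 (k v (k v (k v (k (t 96 1 (u 64 6 (k v (k v (k (t 192 1 (u 128 0 (k v (k v r)))) r))))) r)))))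
 (.s 0x3beae5d7c008410 4073 (n false (n false (n true (n true (n false (n false (n false (n true (z 50) e) (n false e e)) e) (n false e e)) e) e) (n false e e)) e) (u 256 1 (k v (k (c 768 4097 r (u 512 0 (k v (k v r)))) r)))
 (.s 0x3be7f7c0047dc20 4064 (n false (n false (n true (n true (z 55) e) e) (n false e e)) (n true (n true (n false (n true (n false e e) e) (n false e e)) e) e)) (u 16 4 (k (t 48 1 (u 32 34 (k v (k v (k (u 64 6 (k v (k v r))) (k (c 96 4099 r (t 64 3 v)) (k (u 64 2 (k v (k v r))) r))))))) (k (t 48 2 r) r)))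
 (.s 0x3be7df600475110 4073 (n false (n false (n true (n true (z 91) e) e) (n false e e)) (n true (n false (n false (n false e e) (n false e e)) (n false e e)) e)) (u 16 8 (k v (k v (k v (k (u 32 17 (k v (k v r))) (k (c 32 4097 r (u 48 0 (k v (k v r)))) r))))))
 (.s 0x3be77760047dc20 4065 (n false (n false (n true (n true (z 85) e) e) (n false e e)) (n true (n true (n false (n true (n false e e) e) (n false e e)) e) e)) (u 16 4 (k v (k (c 48 4099 r r) (k (c 48 4099 r r) (k (c 48 4099 r (u 32 1 (k v (k v (k v (k (t 96 1 (u 64 6 (k v (k v (k (t 192 1 (u 128 0 (k v (k v r)))) r))))) r)))))) (k (u 32 46 (k v (k v (k v (k (t 96 2 (u 64 6 (k v (k v (k (t 192 1 (u 128 0 (k v (k v r)))) r))))) r))))) (k (c 48 4096 r r) (k (c 32 4099 r r) r))))))))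
 .z .z) (.s 0x3be7df60047dc20 4064 (n false (n false (n true (n true (z 91) e) e) (n false e e)) (n true (n true (n false (n true (n false e e) e) (n false e e)) e) e)) (u 16 1 (k v (k v (k v (k (u 32 0 (k v (k v r))) (k (c 32 4097 r (u 48 0 (k v (k v r)))) (k (c 32 4095 r (u 48 0 (k v (k v r)))) r)))))))
 .z .z)) (.s 0x3bea5ffe00823a0 4065 (n false (n false (n true (n true (n false (n false (z 126) e) (n false e e)) e) e) (n false e e)) (n true (n false (n false e e) e) e)) (u 64 0 (k r (k r (k r (k r r)))))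
 (.s 0x3be9d7d800fb840 4068 (n false (n false (n true (n true (n false (z 89) e) e) e) (n true (n true (n false (n true (n false e e) e) (n false e e)) e) e)) e) (u 32 10 (k v (k v (k v (k (t 96 2 (u 64 6 (k v (k v (k (t 192 1 (u 128 0 (k v (k v r)))) r))))) r)))))
 .z .z) (.s 0x3beae577c008410 4072 (n false (n false (n true (n true (n false (n false (n false (n true (z 52) e) (n false e e)) e) (n false e e)) e) e) (n false e e)) e) (u 256 62 (k v (k v (k v (k v (k v (k v (k v (k (t 768 1 (u 512 0 (k (c 1536 4099 r (u 1024 7 (k v (k v (k (c 256 4085 r v) r))))) r))) r)))))))))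
 .z .z))) (.s 0x3beae7f7e008410 4075 (n false (n false (n true (n true (n false (n false (n false (n true (z 119) e) (n false e e)) e) (n false e e)) e) e) (n false e e)) e) (u 256 12 (k v (k v (k (c 768 4101 r r) (k (c 768 4099 r r) (k (c 768 4096 r (u 512 0 (k (u 1024 0 (k v (k v r))) r))) (k (c 512 4101 r r) (k (c 512 4099 r r) (k (c 512 4101 r r) r)))))))))
 (.s 0x3beae75fe008410 4073 (n false (n false (n true (n true (n false (n false (n false (n true (z 121) e) (n false e e)) e) (n false e e)) e) e) (n false e e)) e) (u 256 16 (k v (k v (k v (k (c 768 4099 r (u 512 1 (k v (k v r)))) r)))))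
 (.s 0x3beae5fdc008410 4073 (n false (n false (n true (n true (n false (n false (n false (n true (z 46) e) (n false e e)) e) (n false e e)) e) e) (n false e e)) e) (u 256 1 (k v (k (u 512 1 (k v (k v r))) (k (c 768 4099 r (u 512 0 (k v (k v r)))) (k (u 512 0 (k v (k v r))) (k (c 768 4097 r (u 512 1 (k v (k v r)))) (k (c 512 4095 r (u 768 1 (k v (k v r)))) r)))))))
 .z .z) (.s 0x3beae775c008410 4073 (n false (n false (n true (n true (n false (n false (n false (n true (z 37) e) (n false e e)) e) (n false e e)) e) e) (n false e e)) e) (u 256 0 (k v (k (u 512 0 (k (t 1024 3 (t 1536 1 v)) r)) (k (u 512 0 (k (t 1024 3 (t 1536 1 v)) r)) (k (u 512 2 (k v (k v (k v (k (t 1536 1 (u 1024 0 (k (t 2048 3 (t 3072 1 v)) r))) r))))) (k (u 512 0 (k v (k v (k (t 1536 1 (u 1024 0 (k (t 2048 3 (t 3072 1 v)) r))) r)))) (k (u 512 4 (k (t 1536 1 (u 1024 13 (k v (k v (k v (k (c 32 4079 r v) r)))))) (k (c 256 4091 (t 6 2 r) v) r))) r)))))))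
 .z .z)) (.s 0x3bf95df000fb840 4065 (n false (n false (n true (n true (n true (z 52) e) e) e) (n true (n true (n false (n true (n false e e) e) (n false e e)) e) e)) e) (u 32 279 (k v (k v (k v (k v (k v (k v (k v (k (t 96 2 (u 64 0 (k (u 128 2 (k v (k (c 64 4084 (u 4 1 (k v (k v r))) v) r))) r))) (k (t 96 1 (u 64 0 (k (c 192 4099 r (u 128 2 (k v (k (c 32 4085 r v) r)))) r))) r))))))))))
 (.s 0x3bf95df0008ee10 4062 (n false (n false (n true (n true (n true (z 52) e) e) e) (n false e e)) (n true (n false (n true (n false e e) e) (n false e e)) e)) (u 32 32 (k v (k v (k v (k v (k v (k v (k v (k (t 96 3 (u 64 12 (k v (k v (k v r))))) (k (t 96 2 (u 64 0 (k (u 128 2 (k v (k (c 64 4084 (u 4 1 (k v (k v r))) v) r))) r))) (k (t 96 1 (u 64 0 (k (c 192 4099 r (u 128 2 (k v (k (c 64 4084 (u 4 1 (k v (k v r))) v) r)))) r))) r)))))))))))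
 .z .z) .z))) (.s 0x3e577c009f75400 4096 (n false (z 139) (n true (z 52) e)) (u 5 406 (k (u 2 3 (k v (k (t 6 2 r) r))) (k (t 2 6 v) (k r (k r (k r (k (t 2 6 v) r)))))))
 (.s 0x3e55550017f4070 4079 (n false (n false (n true (n true (n true (n false (n false e e) e) e) e) e) (n true (n false e e) e)) (n true (z 128) e)) (u 5 23 (k v (k v (k v (k (c 13 4097 r r) (k (c 13 4095 r (u 9 1 (k v (k v r)))) (k (c 9 4095 r (u 13 1 (k v (k v r)))) r)))))))
 (.s 0x3bfb840895fd400 4068 (n false (n false (n true (n true (n true (n false (n true (n false e e) e) (n false e e)) e) e) e) (n false e e)) (z 156)) (u 3 1 (k v (k (c 7 4099 r (u 5 1 (k v (k v r)))) (k (c 5 4098 r (u 7 1 (k v (k v r)))) (k (c 5 4097 r (u 7 1 (k v (k v r)))) (k (c 5 4099 r (u 7 1 (k v (k v r)))) (k (c 5 4095 r (u 7 0 (k v (k v r)))) r)))))))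
 (.s 0x3bf9fdf0008ee10 4063 (n false (n false (n true (n true (n true (z 55) e) e) e) (n false e e)) (n true (n false (n true (n false e e) e) (n false e e)) e)) (u 32 4 (k (t 96 1 (u 64 14 (k v (k (c 192 4099 r (t 128 3 v)) (k (u 128 4 (k v (k (t 384 1 (u 256 4 (k v (k v r)))) r))) (k (u 128 4 (k v (k (t 384 1 (u 256 4 (k v (k v r)))) r))) (k (c 8 4080 (u 16 0 (k r (k r r))) v) (k (c 8 4082 r v) r)))))))) (k (t 96 2 (u 64 2 (k v (k (c 8 4081 (u 16 1 (k v (k v r))) v) r)))) r)))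
 .z .z) (.s 0x3bfb840e12afe00 4078 (n false (z 56) (n false (n true (n true (n true (n false (n true (n false e e) e) (n false e e)) e) e) e) (n true (n false e e) e))) (u 2 1 (k (u 4 1 (k v (k v r))) (k (u 4 254 (k v (k v (k v (k (t 12 1 (u 8 0 (k v (k v r)))) r))))) (k (c 4 4096 r (u 6 0 (k v (k v r)))) (k (c 6 4096 r r) r)))))
 .z .z)) (.s 0x3e577c009dd5400 4091 (n false (z 133) (n true (z 52) e)) (u 5 110 (k r (k r (k r (k r (k (c 3 4085 v r) r))))))
 (.s 0x3e577c009555400 4091 (n false (z 128) (n true (z 52) e)) (u 5 4 (k r (k r (k r (k r (k (t 13 1 (u 9 0 (k r (k r r)))) r))))))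
 .z .z) .z)) (.s 0x3e57f50012bbe00 4094 (n false (n true (z 156) e) (z 52)) (u 4 1 (k r (k (c 12 4099 r (u 8 1 (k r (k r r)))) (k (c 8 4098 r (u 12 1 (k r (k r r)))) (k (c 8 4097 r (u 12 1 (k r (k r r)))) (k (c 8 4099 r (u 12 1 (k r (k r r)))) (k (c 8 4095 r (u 12 0 (k r (k r r)))) r)))))))
 (.s 0x3e577c00a75f600 4093 (n false (n false (z 89) e) (n true (z 52) e)) (u 5 4 (k r (k r (k (u 4 3 (k v (k v r))) (k r (k (t 13 1 r) r))))))
 (.s 0x3e577c00a577c00 4089 (n false (n true (z 52) e) (n false (z 52) e)) (u 4 10 (k r (k r (k r (k r (k (u 5 117 (k v (k v (k v (k v (k v (k v r))))))) (k (t 12 1 (u 8 0 (k r (k r r)))) r)))))))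
 .z .z) (.s 0x3e577c00e577c00 4089 (n false (n true (z 52) e) (n true (z 52) e)) (u 4 8 (k r (k r (k r (k r (k r (k (t 12 1 (u 8 0 (k r (k r r)))) r)))))))
 .z .z)) (.s 0x3e57f50012efb00 4098 (n false (z 90) (n true (z 156) e)) (u 5 11 (k r (k (c 3 4094 v (t 2 2 v)) (k (c 13 4099 r (u 9 1 (k r (k r r)))) (k (c 9 4098 r (u 13 1 (k r (k r r)))) (k (c 9 4097 r r) (k (c 9 4099 r (u 13 1 (k r (k r r)))) r)))))))
 (.s 0x3e57f50012bfa00 4098 (n false (n true (z 156) e) (z 28)) (u 3 0 (k (u 4 4 (k (u 5 1 (k v (k v r))) (k (c 12 4099 r (u 8 1 (k (u 5 4 (k v (k v r))) (k (u 5 4 (k v (k v r))) r)))) r))) r))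
 .z .z) .z))))

set_option maxRecDepth 100000 in
def N101 : NT :=
(.s 0x3e5fd40095fd400 4094 (n false (z 156) (n true (z 14) e)) (u 2 1 (k (u 5 0 (k v (k v r))) (k (c 6 4099 r r) (k (c 4 4098 r r) (k (c 4 4097 r r) (k (c 4 4099 r r) (k (c 4 4095 r r) r)))))))
 (.s 0x3e5d7c00aa22888 4095 (n false (n true (z 50) e) (n false (n false (n false (n false e e) (n false e e)) (n false (n false e e) (n false e e))) (n false e e))) (u 4 1 (k v (k (c 12 4097 r (u 8 0 (k v (k v r)))) r)))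
 (.s 0x3e57fe009557400 4090 (n false (z 160) (n true (z 124) e)) (u 2 5 (k r (k r (k (t 4 1 (u 5 3 (k r (k r (k (c 13 4097 r r) (k (c 13 4096 r r) (k (c 13 4097 r r) r))))))) (k r (k (t 6 2 (u 5 3 (k r (k r (k (c 13 4097 r r) (k (c 13 4096 r r) (k (c 13 4097 r r) r))))))) r))))))
 (.s 0x3e57f5001544510 4093 (n false (n true (z 156) e) (n false (n false (n false (n false e e) (n false e e)) (n false (n false e e) (n false e e))) e)) (u 4 2 (k v (k (c 12 4099 r (u 8 1 (k v (k v r)))) (k (c 8 4095 r (u 12 0 (k v (k v r)))) r))))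
 (.s 0x3e57f50013eff00 4096 (n false (z 123) (n true (z 156) e)) (u 5 31 (k r (k r (k (c 13 4099 r (u 9 1 (k r (k r r)))) (k (c 9 4099 r (u 13 1 (k r (k r r)))) (k (c 9 4095 r (u 13 0 (k r (k r r)))) r))))))
 .z .z) (.s 0x3e57f5001d44510 4091 (n false (n true (z 156) e) (n true (n false (n false (n false e e) (n false e e)) (n false (n false e e) (n false e e))) e)) (u 4 2 (k v (k (c 12 4099 r (u 8 1 (k v (k v r)))) (k (c 8 4095 r (u 12 0 (k v (k v r)))) r))))
 .z .z)) (.s 0x3e57fe00bae1070 4080 (n false (n true (z 124) e) (n false (n true (n false (n false (n true (n false e e) e) (n false e e)) e) e) (n true (n false e e) e))) (u 4 5 (k v (k (c 12 4097 r (u 8 1 (k v (k v r)))) (k (c 12 4096 r (u 8 1 (k v (k v r)))) (k (c 8 4098 r (u 12 0 (k v (k v r)))) (k (c 12 4096 r (u 8 1 (k v (k v r)))) (k (c 12 4097 r (u 8 1 (k v (k v r)))) (k (c 12 4097 r (u 8 1 (k v (k v r)))) (k (c 12 4096 r (u 8 1 (k v (k v r)))) (k (c 8 4097 r (u 12 1 (k v (k v r))))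 r))))))))))
 (.s 0x3e57fe00a7d5600 4096 (n false (n false (z 67) e) (n true (z 124) e)) (u 5 20 (k r (k (u 4 0 (k v (k v r))) (k (c 13 4097 r (u 9 1 (k r (k r r)))) (k (c 13 4096 r (u 9 1 (k r (k r r)))) (k (c 13 4097 r (u 9 1 (k r (k r r)))) (k (c 13 4097 r (u 9 1 (k r (k r r)))) (k (c 9 4097 r (u 13 1 (k r (k r r)))) r))))))))
 .z .z) (.s 0x3e5d5e009555400 4093 (n false (z 128) (n true (z 98) e)) (u 5 2 (k r (k r (k r (k (u 2 26 (k v (k (c 4 4097 r r) (k (c 6 4099 r r) (k r (k (c 4 4095 r r) (k (c 4 4095 r (u 6 0 (k v (k v r)))) (k (c 4 4099 r r) (k (c 6 4097 r (u 4 1 (k v (k v r)))) (k (c 4 4099 r r) (k (c 6 4095 r (u 4 1 (k v (k v r)))) (k (c 4 4097 r (u 6 0 (k v (k v r)))) (k (c 4 4095 r r) (k (c 4 4099 r r) (k (c 4 4095 r (u 6 1 (k v (k v r)))) (k (c 4 4097 r r) r)))))))))))))))) r)))))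
 .z .z))) (.s 0x3e5f7400e5ddc00 4097 (n false (n true (z 22) e) (n true (z 42) e)) (u 5 1 (k (u 4 1 (k v (k v r))) (k (u 4 3 (k v (k v r))) r)))
 (.s 0x3e5ddc009f75400 4097 (n false (z 139) (n true (z 42) e)) (u 5 1 (k (u 2 3 (k v (k (t 6 2 r) r))) (k r r)))
 (.s 0x3e5ddc009d75400 4093 (n false (z 137) (n true (z 42) e)) (u 5 1 (k (u 2 0 (k (t 4 1 r) r)) (k (u 2 0 (k (t 4 1 r) r)) r)))
 .z .z) (.s 0x3e5ddc00a5fd400 4092 (n false (n true (z 42) e) (n false (z 14) e)) (u 4 1 (k (u 5 0 (k v (k v r))) (k (u 5 0 (k v (k v r))) r)))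
 .z .z)) (.s 0x3e5f7e00e577c00 4088 (n false (n true (z 118) e) (n true (z 52) e)) (u 4 5 (k r (k (t 12 1 (u 8 15 (k r (k r r)))) r)))
 (.s 0x3e5f7e0095fd400 4091 (n false (n true (z 118) e) (z 156)) (u 3 1 (k r (k (c 7 4099 r (u 5 1 (k r (k r r)))) (k (c 5 4098 r (u 7 1 (k r (k r r)))) (k (c 5 4097 r (u 7 1 (k r (k r r)))) (k (c 5 4099 r (u 7 1 (k r (k r r)))) (k (c 5 4095 r (u 7 0 (k r (k r r)))) r)))))))
 .z .z) .z))) (.s 0x3e75fe00a7d5600 4096 (n false (n false (z 67) e) (n true (z 121) e)) (u 5 36 (k (u 4 0 (k v (k v r))) (k r (k (c 13 4099 r (u 9 1 (k r (k r r)))) (k (c 9 4097 r (u 13 31 (k r (k r (k r r))))) (k (c 9 4095 r (u 13 0 (k r (k r r)))) (k (c 9 4095 r (u 13 0 (k r (k r r)))) r)))))))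
 (.s 0x3e5fdc00a7d5600 4094 (n false (n true (z 46) e) (n false (z 67) e)) (u 4 2 (k r (k (c 12 4099 r (u 8 0 (k r (k r r)))) (k (u 8 31 (k r (k r (k r r)))) (k (u 8 1 (k r (k r r))) (k (c 12 4097 r (u 8 31 (k r (k r (k r r))))) (k (c 8 4095 r (u 12 31 (k r (k r (k r r))))) r)))))))
 (.s 0x3e5fd400e5ddc00 4092 (n false (n true (z 14) e) (n true (z 42) e)) (u 5 1 (k (u 4 0 (k v (k v r))) (k (u 4 0 (k v (k v r))) r)))
 (.s 0x3e5fd4009f75400 4095 (n false (z 139) (n true (z 14) e)) (u 5 0 (k (u 2 3 (k v (k (t 6 2 r) r))) (k r r)))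
 .z .z) (.s 0x3e5fd400e5fd400 4089 (n false (n true (z 14) e) (n true (z 14) e)) (u 4 0 (k (u 5 0 (k v (k v r))) (k (u 5 0 (k v (k v r))) r)))
 .z .z)) (.s 0x3e5ffc009555400 4091 (n false (z 128) (n true (z 62) e)) (u 5 4 (k r (k r (k r (k (t 13 1 (u 2 25 (k r (k r (k r (k (c 6 4097 r r) (k (c 6 4099 r r) (k (c 4 4096 r r) (k (c 6 4097 r r) (k (c 6 4097 r r) (k (c 4 4095 r r) (k (c 4 4099 r r) (k (c 6 4095 r (u 4 1 (k r (k r r)))) (k (c 4 4097 r r) (k (c 6 4097 r (u 4 2 (k r (k r (k r (k r r)))))) (k (c 4 4095 r (u 6 1 (k r (k r r)))) (k (c 4 4097 r r) r))))))))))))))))) r)))))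
 (.s 0x3e5fdc00aa22888 4097 (n false (n true (z 46) e) (n false (n false (n false (n false e e) (n false e e)) (n false (n false e e) (n false e e))) (n false e e))) (u 4 1 (k v (k (u 8 1 (k v (k v r))) (k (c 12 4099 r (u 8 0 (k v (k v r)))) (k (u 8 1 (k v (k v r))) (k (c 12 4097 r (u 8 1 (k v (k v r)))) (k (c 8 4095 r (u 12 1 (k v (k v r)))) r)))))))
 .z .z) .z)) (.s 0x3e775c00a55fe00 4096 (n false (n false (z 120) e) (n true (z 37) e)) (u 5 23 (k (c 4 4101 r v) (k (u 4 19 (k v (k v (k (c 12 4099 r r) (k (c 12 4096 r (c 3 4100 v r)) (k (c 8 4099 r r) (k (c 12 4100 r r) (k (c 12 4097 r r) (k (c 12 4099 r r) (k (c 8 4099 r r) (k (c 12 4097 r r) r))))))))))) (k (t 4 2 (u 9 0 (k (t 17 3 (t 25 1 v)) r))) (k (t 4 2 r) (k (c 4 4101 r (c 3 4088 r v)) r))))))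
 (.s 0x3e75fe00e5fdc00 4095 (n false (n true (z 121) e) (n true (z 46) e)) (u 5 1 (k r (k (u 9 1 (k r (k r r))) (k (c 13 4099 r (u 9 0 (k r (k r r)))) (k (u 9 1 (k r (k r r))) (k (c 13 4097 r (u 9 1 (k r (k r r)))) (k (c 9 4095 r (u 13 1 (k r (k r r)))) r)))))))
 (.s 0x3e75fe00aa22888 4099 (n false (n true (z 121) e) (n false (n false (n false (n false e e) (n false e e)) (n false (n false e e) (n false e e))) (n false e e))) (u 4 1 (k v (k (c 12 4099 r (u 8 1 (k v (k v r)))) (k (c 8 4097 r (u 12 1 (k v (k v r)))) (k (c 8 4095 r (u 12 0 (k v (k v r)))) (k (c 8 4095 r (u 12 0 (k v (k v r)))) r))))))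
 .z .z) (.s 0x3e75fe00e75fe00 4098 (n false (n true (z 121) e) (n true (z 121) e)) (u 4 24 (k r (k r (k (u 5 2 (k v (k v (k (c 13 4099 r (u 9 1 (k v (k v r)))) (k (c 9 4095 r (u 13 0 (k v (k v r)))) (k (c 9 4095 r (u 13 0 (k v (k v r)))) r)))))) (k (c 12 4099 r (u 8 1 (k r (k r r)))) (k (c 8 4097 r (u 12 1 (k r (k r r)))) r))))))
 .z .z)) (.s 0x3e775c00a7f7e00 4096 (n false (n false (z 119) e) (n true (z 37) e)) (u 5 23 (k (c 4 4101 r v) (k (u 4 10 (k v (k (c 8 4097 r r) (k (c 12 4097 r r) (k (c 12 4097 r r) r))))) (k (t 4 2 (u 9 0 (k (t 17 3 (t 25 1 v)) r))) (k (t 4 2 r) (k (c 4 4101 r (c 3 4088 r v)) r))))))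
 (.s 0x3e775c00a7d5600 4096 (n false (n false (z 67) e) (n true (z 37) e)) (u 5 0 (k r (k (t 4 2 (u 9 0 (k (t 17 3 (t 25 1 v)) r))) (k (t 4 2 (u 9 0 (k (t 17 3 (t 25 1 v)) r))) (k r (k (t 4 2 r) (k (c 3 4088 r (c 4 4103 r v)) r)))))))
 .z .z) .z))))

set_option maxRecDepth 100000 in
def N102 : NT :=
(.s 0x3e7df600a7d5600 4095 (n false (n false (z 67) e) (n true (z 91) e)) (u 5 17 (k (u 4 0 (k v (k v r))) (k r (k r (k (u 9 1 (k r (k r r))) (k (c 9 4097 r (u 13 0 (k r (k r r)))) (k (c 9 4095 r (u 13 0 (k r (k r r)))) r)))))))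
 (.s 0x3e7d5600e5d7400 4095 (n false (n true (z 67) e) (n true (z 18) e)) (u 5 0 (k (u 4 26 (k (u 9 0 (k v (k v r))) (k (u 9 0 (k v (k v r))) (k r (k (u 9 3 (k v (k v (k v r)))) (k (u 9 0 (k v (k v r))) (k r (k (c 8 4101 r r) (k (c 5 4096 (u 2 0 (k v (k v r))) (c 2 4088 r v)) (k (c 8 4099 r r) (k r (k (c 12 4101 r r) (k r (k (c 12 4102 r r) (k (c 8 4101 r r) (k (t 12 1 (u 8 3 (k r (k (u 9 3 (k v (k v (k v r)))) (k (c 24 4099 r r) r))))) (k (c 8 4101 r r) r))))))))))))))))) r))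
 (.s 0x3e7d5600a7d5600 4096 (n false (n false (z 67) e) (n true (z 67) e)) (u 4 34 (k (c 3 4102 (t 2 2 v) v) (k r (k (u 5 0 (k v (k v r))) (k r (k (c 12 4099 r r) (k (c 12 4097 r r) (k (c 12 4099 r r) (k (c 2 4088 r (c 5 4103 r v)) (k (c 12 4097 r r) (k (c 12 4099 r (u 8 1 (k r (k (c 24 4097 r (u 16 0 (k r (k r r)))) r)))) (k (c 12 4099 r (u 8 0 (k (u 16 0 (k r (k r r))) r))) (k (c 8 4099 r r) (k (c 12 4099 r r) (k (c 8 4099 r (u 12 0 (k (u 20 0 (k r (k r r))) r))) (k (c 12 4099 r r) (k (c 12 4099 r r) (k (c 12 4099 r r) r))))))))))))))))))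
 (.s 0x3e777600e57fe00 4098 (n false (n true (z 85) e) (n true (z 124) e)) (u 4 58 (k r (k (c 5 4099 r v) (k (u 5 9 (k v (k v (k (c 13 4097 r (u 9 1 (k v (k v r)))) (k (c 13 4097 r (u 9 1 (k v (k v r)))) (k (c 13 4097 r (u 9 1 (k v (k v r)))) (k (c 13 4099 r (u 9 1 (k v (k v r)))) (k (c 9 4097 r (u 13 1 (k v (k v r)))) r)))))))) (k (c 8 4099 r r) r)))))
 (.s 0x3e777600a7d5600 4096 (n false (n false (z 67) e) (n true (z 85) e)) (u 5 38 (k (u 4 66 (k v (k v (k v (k v (k (c 12 4099 r (u 8 1 (k v (k v r)))) (k (c 12 4097 r (u 8 1 (k v (k v r)))) (k (c 12 4099 r r) (k r (k (c 12 4099 r (u 8 0 (k (u 16 23 (k v (k v r))) r))) (k (c 8 4099 r (u 12 1 (k v (k v r)))) (k (c 12 4099 r r) (k (c 8 4099 r (u 12 0 (k (u 20 23 (k v (k v r))) r))) (k (c 12 4099 r r) (k (c 12 4099 r r) (k (c 12 4099 r r) r)))))))))))))))) (k r (k (c 13 4099 r r) (k (u 9 12 (k r (k r r))) (k (c 13 4096 r (c 3 4088 r (c 4 4103 r v))) (k (c 9 4099 r r) r)))))))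
 .z .z) (.s 0x3e7d5600a55fe00 4096 (n false (n false (z 120) e) (n true (z 67) e)) (u 4 6 (k r (k (u 5 0 (k v (k v r))) (k (t 12 2 r) (k (c 12 4099 r r) (k (c 8 4095 r r) (k (t 12 1 r) (k (c 12 4096 r (c 3 4102 (t 2 2 v) r)) (k (c 12 4096 r (u 8 0 (k (u 16 0 (k r (k r r))) r))) (k (c 8 4099 r r) (k (c 12 4100 r r) (k (c 12 4097 r r) (k (c 12 4099 r r) (k (t 8 1 r) (k (c 12 4097 r r) r)))))))))))))))
 .z .z)) (.s 0x3e7d5600bae1070 4082 (n false (n true (z 67) e) (n false (n true (n false (n false (n true (n false e e) e) (n false e e)) e) e) (n true (n false e e) e))) (u 4 133 (k v (k v (k v (k v (k (t 12 1 (u 8 1 (k v (k v r)))) (k (c 8 4101 r (u 12 0 (k v (k v r)))) (k r (k (c 2 4088 r v) (k (c 2 4091 (t 6 2 (u 4 0 (k r r))) v) (k (c 12 4101 r (u 8 1 (k v (k v r)))) (k (t 12 1 (u 8 12 (k v (k v (k v (k (c 24 4099 r (u 16 1 (k v (k v r)))) r)))))) (k (c 12 4102 r (u 8 1 (k v (k v r)))) (k (c 8 4101 r (u 12 1 (k v (k v r)))) (k r (k (c 8 4101 r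 (u 12 1 (k v (k v r)))) r))))))))))))))))
 (.s 0x3e7d5600a7f7e00 4096 (n false (n false (z 119) e) (n true (z 67) e)) (u 4 17 (k r (k (c 8 4097 r r) (k (c 8 4097 r r) (k (c 12 4096 r (u 8 0 (k (u 16 0 (k r (k r r))) r))) (k (c 12 4097 r r) (k (c 12 4097 r r) (k (c 12 4097 r r) (k (c 12 4097 r r) (k (c 12 4097 r r) r))))))))))
 .z .z) (.s 0x3e7d5600e57fe00 4098 (n false (n true (z 67) e) (n true (z 124) e)) (u 5 2 (k (u 4 0 (k v (k v r))) (k r (k (c 13 4097 r (u 9 1 (k r (k r r)))) (k (c 13 4096 r (u 9 1 (k r (k r r)))) (k (c 13 4097 r (u 9 1 (k r (k r r)))) (k (c 13 4099 r (u 9 1 (k r (k r r)))) r)))))))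
 .z .z))) (.s 0x3e7d5600e7d5600 4101 (n false (n true (z 67) e) (n true (z 67) e)) (u 4 0 (k (u 5 0 (k v (k v r))) (k (u 5 0 (k v (k v r))) r)))
 (.s 0x3e7d5600e5fd400 4095 (n false (n true (z 67) e) (n true (z 14) e)) (u 5 0 (k (u 4 0 (k v (k v r))) (k (u 4 0 (k v (k v r))) r)))
 (.s 0x3e7d5600e5d7c00 4096 (n false (n true (z 67) e) (n true (z 50) e)) (u 5 1 (k r (k (c 13 4097 r (u 9 0 (k r (k r r)))) r)))
 .z .z) (.s 0x3e7d5600e777600 4098 (n false (n true (z 85) e) (n true (z 67) e)) (u 4 10 (k (c 12 4099 r r) (k (c 12 4099 r r) (k (c 12 4099 r r) (k (u 5 0 (k r (k (u 8 19 (k v (k v (k v r)))) r))) (k (c 8 4097 r (u 5 0 (k (u 12 1 (k v (k v r))) (k (u 12 1 (k v (k v r))) r)))) (k (c 12 4096 r r) (k (c 8 4099 r r) r))))))))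
 .z .z)) (.s 0x3e7d7c00a577c00 4091 (n false (n true (z 51) e) (n false (z 52) e)) (u 4 0 (k (t 12 1 (u 8 0 (k (t 16 3 (t 24 3 r)) r))) r))
 (.s 0x3e7d5c00e577c00 4091 (n false (n true (z 52) e) (n true (z 35) e)) (u 4 243 (k r (k r (k (c 5 4096 r v) (k (u 5 2 (k v (k v (k v (k (t 13 1 (u 9 0 (k (t 17 3 (t 25 1 v)) r))) r))))) (k r (k (t 5 1 v) (k (t 12 1 r) r))))))))
 .z .z) .z))) (.s 0x3e7f5600a555c00 4096 (n false (n true (z 71) e) (n false (z 32) e)) (u 5 0 (k (t 9 3 (t 13 1 (u 4 7 (k v (k v (k v (k (c 12 4099 r (u 8 1 (k v (k v r)))) r))))))) r))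
 (.s 0x3e7dfe00e577c00 4093 (n false (n true (z 123) e) (n true (z 52) e)) (u 5 286 (k r (k r (k r (k r (k (u 4 23 (k v (k v (k (t 12 2 r) (k (u 8 33 (k v (k v (k (c 24 4101 r r) (k (c 24 4099 r r) (k (c 24 4096 r r) (k (c 16 4101 r r) (k (c 16 4099 r r) (k (c 16 4101 r r) r))))))))) r))))) r))))))
 (.s 0x3e7dfe00a555c00 4096 (n false (n true (z 123) e) (n false (z 32) e)) (u 5 0 (k (t 9 3 (t 13 1 (u 4 36 (k v (k v (k v (k (c 12 4099 r (u 8 0 (k v (k v (k v (k (t 24 2 (u 16 134 (k v (k (t 48 1 (u 32 0 (k v (k v r)))) (k (c 8 4089 (t 6 2 (u 4 0 (k r r))) v) r))))) r)))))) r))))))) r))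
 (.s 0x3e7df600e7d5600 4098 (n false (n true (z 67) e) (n true (z 91) e)) (u 5 1 (k (u 4 0 (k v (k v r))) (k r (k r (k r (k (c 9 4097 r (u 13 0 (k r (k r r)))) (k (c 9 4095 r (u 13 0 (k r (k r r)))) r)))))))
 .z .z) (.s 0x3e7dfe00a7d5c00 4096 (n false (n true (z 123) e) (n false (z 35) e)) (u 5 0 (k r (k r (k (t 13 1 (u 9 0 (k (t 17 3 (t 25 1 (u 4 36 (k v (k v (k v (k (t 12 1 (u 8 41 (k v (k v (k v (k v (k (t 24 3 (u 16 26 (k v (k v (k v r))))) r))))))) r))))))) r))) r))))
 .z .z)) (.s 0x3e7dfe00e75fe00 4098 (n false (n true (z 123) e) (n true (z 121) e)) (u 5 59 (k r (k r (k r (k (c 13 4099 r (u 9 1 (k r (k r r)))) (k (c 9 4095 r (u 13 0 (k r (k r r)))) r))))))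
 (.s 0x3e7dfe00e5fdc00 4098 (n false (n true (z 123) e) (n true (z 46) e)) (u 5 3 (k (c 4 4100 r v) (k r (k (u 9 0 (k r (k r r))) (k (c 13 4097 r r) (k (c 9 4095 r r) r))))))
 .z .z) .z)) (.s 0x3e7f5600e5fdc00 4096 (n false (n true (z 71) e) (n true (z 46) e)) (u 4 1 (k r (k (c 12 4099 r (u 8 1 (k r (k r r)))) (k (u 8 0 (k r (k r r))) (k (c 8 4099 r (u 12 1 (k r (k r r)))) (k (c 8 4099 r (u 12 1 (k r (k r r)))) (k (c 8 4099 r (u 12 1 (k r (k r r)))) r)))))))
 (.s 0x3e7f5600e577c00 4095 (n false (n true (z 71) e) (n true (z 52) e)) (u 5 173 (k r (k r (k r (k r (k r r))))))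
 (.s 0x3e7f5600e555c00 4098 (n false (n true (z 71) e) (n true (z 32) e)) (u 4 13 (k (u 5 0 (k (t 9 3 (t 13 1 v)) r)) (k (c 5 4096 r v) (k (u 5 0 (k (t 9 3 (t 13 1 v)) r)) (k (t 12 1 (u 8 8 (k (u 5 0 (k (t 9 3 (t 13 1 v)) r)) (k (c 20 4101 v (u 5 0 (k (t 9 3 (t 13 1 v)) r))) (k (c 5 4096 r v) r))))) r)))))
 .z .z) (.s 0x3e7f5600e5d7c00 4096 (n false (n true (z 50) e) (n true (z 71) e)) (u 4 1 (k r (k (c 12 4097 r (u 5 1 (k (u 8 0 (k v (k v r))) (k (c 13 4099 r r) (k (u 9 0 (k (u 8 0 (k v (k v r))) (k (u 8 0 (k v (k v r))) r))) (k (c 9 4099 r r) (k (c 9 4099 r r) (k (c 9 4099 r r) r)))))))) r)))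
 .z .z)) (.s 0x3e7f5600e7d5c00 4098 (n false (n true (z 71) e) (n true (z 35) e)) (u 5 2 (k r (k r (k (u 4 7 (k v (k v (k v (k (c 12 4099 r (u 8 1 (k v (k v r)))) r))))) (k (t 13 1 (u 9 0 (k (t 17 3 (t 25 1 r)) r))) r)))))
 (.s 0x3e7f5600e7d5600 4096 (n false (n true (z 71) e) (n true (z 67) e)) (u 4 6 (k r (k (u 5 0 (k r (k r r))) (k (u 5 0 (k r (k r r))) (k (t 8 1 (u 5 0 (k r (k r r)))) (k (t 8 1 (u 5 0 (k r (k r r)))) (k (t 8 1 (u 5 0 (k r (k r r)))) r)))))))
 .z .z) .z))))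

set_option maxRecDepth 100000 in
def N103 : NT :=
(.s 0x3e7fd600e5fd400 4093 (n false (n true (z 79) e) (n true (z 14) e)) (u 4 0 (k (u 5 0 (k v (k v r))) (k (u 5 0 (k r (k r r))) r)))
 (.s 0x3e7f7600e5fd400 4091 (n false (n true (z 87) e) (n true (z 14) e)) (u 4 1 (k (u 5 0 (k v (k v r))) (k (u 5 0 (k v (k v r))) r)))
 (.s 0x3e7f76009f75400 4093 (n false (n true (z 87) e) (z 139)) (u 4 31 (k (u 3 3 (k v (k (t 7 2 r) r))) (k (t 3 6 v) (k r (k (u 3 3 (k v (k (t 7 2 r) r))) (k (t 8 1 r) (k (t 8 4 r) (k (t 8 2 r) (k (t 8 2 r) (k (t 8 1 r) (k (t 8 4 r) r)))))))))))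
 (.s 0x3e7f76009775400 4093 (n false (z 138) (n true (z 87) e)) (u 5 9 (k r (k r (k (u 2 0 (k (t 6 6 (u 4 8 (k v (k (u 8 1 (k v (k (c 24 4099 r (u 16 1 (k v (k v r)))) (k (u 16 0 (k v (k v r))) (k (c 16 4099 r (u 24 1 (k v (k v r)))) (k (c 16 4099 r (u 24 1 (k v (k v r)))) (k (c 16 4099 r (u 24 1 (k v (k v r)))) r))))))) (k (c 8 4100 r (u 12 0 (k (u 20 0 (k v (k v r))) r))) r))))) r)) r))))
 (.s 0x3e7f7600975d400 4091 (n false (z 146) (n true (z 87) e)) (u 2 0 (k (t 6 1 r) (k (t 4 2 r) (k (t 4 1 r) r))))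
 .z .z) (.s 0x3e7f76009df5400 4091 (n false (z 141) (n true (z 87) e)) (u 2 7 (k (u 5 1 (k v (k v r))) (k (t 6 2 (u 5 1 (k r (k r r)))) r)))
 .z .z)) (.s 0x3e7f7600a55d600 4093 (n false (n true (z 87) e) (n false (z 72) e)) (u 4 1 (k (u 5 0 (k (c 13 4099 r r) r)) (k (u 5 0 (k (c 13 4099 r r) r)) r)))
 (.s 0x3e7f76009ff5400 4093 (n false (n true (z 87) e) (z 143)) (u 3 0 (k (u 4 1 (k v (k v r))) (k (u 4 1 (k v (k v r))) (k (c 2 4098 (u 2 0 (k v (k v r))) (t 7 1 r)) r))))
 .z .z) (.s 0x3e7f7600e5ddc00 4094 (n false (n true (z 87) e) (n true (z 42) e)) (u 4 1 (k (u 5 1 (k v (k v r))) (k (u 5 1 (k v (k v r))) r)))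
 .z .z))) (.s 0x3e7f7c00e577c00 4086 (n false (n true (z 55) e) (n true (z 52) e)) (u 4 4 (k (t 12 1 (u 5 14 (k r (k r (k r (k r (k (c 3 4085 v r) (k (c 3 4084 v r) (k (t 13 1 (u 9 0 (k r (k (u 8 2 (k v (k (c 24 4099 r (t 16 3 v)) (k (u 16 2 (k v (k v r))) r)))) r)))) r))))))))) (k (t 12 2 (u 8 2 (k r (k (c 3 4096 r (u 16 1 (k v (k v r)))) r)))) r)))
 (.s 0x3e7f7600e7f7600 4093 (n false (n true (z 87) e) (n true (z 87) e)) (u 4 1 (k (u 5 1 (k v (k v r))) (k (u 5 1 (k v (k v r))) r)))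
 (.s 0x3e7f7600e7d5600 4097 (n false (n true (z 87) e) (n true (z 67) e)) (u 5 0 (k (u 4 1 (k v (k v r))) (k (u 4 1 (k v (k v r))) r)))
 .z .z) (.s 0x3e7f7c00a7f7600 4091 (n false (n false (z 87) e) (n true (z 55) e)) (c 2 4098 (u 2 0 (k v (k v r))) r)
 .z .z)) (.s 0x3e7fd600e5ddc00 4097 (n false (n true (z 79) e) (n true (z 42) e)) (u 5 1 (k (u 4 0 (k v (k r r))) (k (u 4 0 (k v (k r r))) r)))
 (.s 0x3e7f7e00e7d5600 4098 (n false (n true (z 119) e) (n true (z 67) e)) (u 4 8 (k (u 5 0 (k v (k v r))) (k r (k (u 5 0 (k v (k v r))) (k r (k (c 8 4097 r (u 5 0 (k r (k r r)))) (k (c 12 4097 r r) (k (c 12 4096 r (u 8 0 (k (u 5 0 (k (u 16 0 (k v (k v r))) (k (u 16 0 (k v (k v r))) r))) r))) (k (c 12 4097 r (u 5 0 (k r (k r r)))) (k (c 12 4097 r (u 5 0 (k r (k r r)))) (k (u 8 11 (k r (k (u 5 0 (k r (k r r))) (k (c 24 4099 r r) (k (c 16 4095 r r) (k (c 16 4095 r r) r)))))) (k (c 12 4097 r (u 5 0 (k r (k r r)))) (k (c 12 4097 r (u 5 0 (k r (k r r)))) (k r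 r))))))))))))))
 .z .z) .z))) (.s 0x3e9d7d8013fbf00 4096 (n false (n true (n false (z 89) e) e) (z 119)) (u 8 24 (k r (k r (k (t 3 3 v) (k (t 24 2 (u 3 7 (k (c 4 4094 r v) (k r (k r (k (c 5 4097 r (u 7 1 (k (c 4 4094 r v) (k r r)))) (k (c 5 4097 r r) (k (c 7 4097 r r) (k (c 7 4097 r r) (k (c 7 4097 r r) (k (c 7 4097 r r) r))))))))))) r)))))
 (.s 0x3e95df0042a2288 4088 (n false (n true (n false (z 52) (n false e e)) e) (n false (n false (n false e e) (n false e e)) (n false (n false e e) (n false e e)))) (u 8 6 (k v (k v (k (t 24 1 (u 16 0 (k v (k v r)))) r))))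
 (.s 0x3e957f8012aff00 4096 (n false (z 120) (n true (n false (z 120) e) e)) (u 2 32 (k (t 9 3 v) (k r (k (t 9 2 v) (k r (k (c 6 4096 r (t 9 2 r)) (k (c 6 4099 r (u 4 1 (k r (k r r)))) (k (c 4 4098 r (u 6 1 (k r (k r r)))) (k (c 4 4101 r (u 6 0 (k r (k r r)))) (k r (k (c 6 4099 r (u 4 1 (k r (k r r)))) (k (c 4 4101 r (u 6 0 (k r (k r r)))) r))))))))))))
 (.s 0x3e957f005c21708 4075 (n false (n true (n false (z 56) (n false (n true (n false e e) e) (n false e e))) e) (n false (n true (n false e e) e) (n false e e))) (u 8 1 (k (u 16 1 (k v (k v r))) (k (u 16 404 (k v (k v (k v (k v (k v (k (t 48 1 (u 32 0 (k v (k v r)))) r))))))) (k (c 16 4096 r (u 24 0 (k v (k v r)))) (k (c 24 4096 r (u 16 405 (k v (k v (k v (k v (k v (k (t 48 1 (u 32 0 (k v (k v r)))) r)))))))) r)))))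
 .z .z) (.s 0x3e957f8013eab00 4096 (n false (n true (n false (z 120) e) e) (z 67)) (u 8 6 (k r (k (u 3 0 (k v (k v r))) (k (t 24 2 r) (k (c 24 4099 r r) (k (c 16 4095 r r) (k (t 24 1 r) (k (c 24 4096 r (c 2 4087 r (t 3 2 v))) (k (c 24 4096 r (u 16 0 (k (u 32 0 (k r (k r r))) r))) (k (c 16 4099 r r) (k (c 24 4100 r r) (k (c 24 4097 r r) (k (c 24 4099 r r) (k (t 16 1 r) (k (c 24 4097 r r) r)))))))))))))))
 .z .z)) (.s 0x3e97f7005c21708 4073 (n false (n true (n false (z 46) (n false (n true (n false e e) e) (n false e e))) e) (n false (n true (n false e e) e) (n false e e))) (u 8 8 (k v (k (u 16 1 (k v (k v r))) (k (c 24 4099 r (u 16 0 (k v (k v r)))) (k (u 16 1 (k v (k v r))) (k (c 24 4097 r (u 16 1 (k v (k v r)))) (k (c 16 4095 r (u 24 1 (k v (k v r)))) r)))))))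
 (.s 0x3e95df0043ba210 4085 (n false (n true (n false (z 52) (n false e e)) e) (n true (n false (n true (n false (n false e e) (n false e e)) e) (n false e e)) e)) (u 8 41 (k v (k v (k (t 24 1 (u 16 0 (k v (k v r)))) r))))
 .z .z) .z)) (.s 0x3e9f558012fee00 4096 (n false (n true (n false (z 67) e) e) (z 46)) (u 3 1 (k r (k (u 5 1 (k r (k r r))) (k (c 7 4099 r (u 5 0 (k r (k r r)))) (k (u 5 1 (k r (k r r))) (k (c 7 4097 r (u 5 1 (k r (k r r)))) (k (c 5 4095 r (u 7 1 (k r (k r r)))) r)))))))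
 (.s 0x3e9dd7005c21708 4077 (n false (n true (n false (z 37) (n false (n true (n false e e) e) (n false e e))) e) (n false (n true (n false e e) e) (n false e e))) (u 8 29 (k v (k r (k r (k (c 2 4083 r v) (k (u 16 0 (k (t 32 3 (t 48 1 v)) r)) (k (u 16 2 (k v (k v (k v (k (t 48 1 (u 32 0 (k (t 64 3 (t 96 1 v)) r))) r))))) r)))))))
 (.s 0x3e9d7d801d44510 4090 (n false (n true (n false (z 89) e) e) (n true (n false (n false (n false e e) (n false e e)) (n false (n false e e) (n false e e))) e)) (u 8 24 (k v (k v (k v (k (t 24 2 (u 16 6 (k v (k v (k (t 48 1 (u 32 2 (k v (k v r)))) r))))) r)))))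
 .z .z) (.s 0x3e9f558012aff00 4096 (n false (n true (n false (z 67) e) e) (z 120)) (u 3 28 (k (u 8 0 (k v (k v r))) (k r (k (t 8 2 v) (k r (k r (k (c 7 4101 r (u 5 5 (k r (k r r)))) (k (c 5 4099 r (u 7 0 (k r (k r r)))) (k (c 7 4096 r (t 8 2 r)) (k (c 2 4101 (c 4 4103 r v) (t 7 1 (u 5 0 (k r r)))) (k (c 7 4099 r (u 5 1 (k r (k r r)))) (k (c 5 4098 r (u 7 1 (k r (k r r)))) (k (c 5 4101 r (u 7 0 (k r (k r r)))) (k r (k (c 7 4099 r (u 5 1 (k r (k r r)))) (k (c 5 4101 r (u 7 0 (k r (k r r)))) r))))))))))))))))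
 .z .z)) (.s 0x3e9f558013eab00 4096 (n false (n true (n false (z 67) e) e) (z 67)) (u 8 34 (k (c 2 4080 v (t 3 2 v)) (k r (k (u 3 0 (k v (k v r))) (k r (k (c 24 4099 r r) (k (c 24 4097 r r) (k (c 24 4099 r r) (k (c 4 4088 r (c 3 4103 r v)) (k (c 24 4097 r r) (k (c 24 4099 r (u 16 1 (k r (k (c 48 4097 r (u 32 0 (k r (k r r)))) r)))) (k (c 24 4099 r (u 16 0 (k (u 32 0 (k r (k r r))) r))) (k (c 16 4099 r r) (k (c 24 4099 r r) (k (c 16 4099 r (u 24 0 (k (u 40 0 (k r (k r r))) r))) (k (c 24 4099 r r) (k (c 24 4099 r r) (k (c 24 4099 r r) r))))))))))))))))))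
 (.s 0x3e9f558013bbb00 4096 (n false (n true (n false (z 67) e) e) (z 85)) (u 3 38 (k r (k r (k (c 7 4099 r r) (k (u 5 12 (k r (k r r))) (k (c 7 4096 r (c 2 4101 (c 4 4103 r v) r)) (k (c 5 4099 r r) r)))))))
 .z .z) .z))))

set_option maxRecDepth 100000 in
def N104 : NT :=
(.s 0x3ea88a20e7f7c00 4089 (n false (n true (z 55) e) (n true (n false (n false (n false (n false e e) (n false e e)) (n false (n false e e) (n false e e))) e) e)) (u 4 4 (k (t 12 1 (u 8 2 (k v (k (c 24 4099 r (t 16 3 v)) (k (u 16 2 (k v (k v r))) r))))) (k (t 12 2 (u 8 2 (k v (k (c 3 4099 v (u 16 1 (k v (k v r)))) r)))) r)))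
 (.s 0x3ea7fd600e0ee10 4079 (n false (n true (n false (n false (z 79) e) (n true (n false e e) e)) e) (n true (n false (n true (n false e e) e) (n false e e)) e)) (u 16 1 (k v (k (c 4 4085 (c 3 4094 v r) v) (k (c 48 4096 r (u 32 1 (k v (k v r)))) r))))
 (.s 0x3ea57f50010ae10 4076 (n false (n true (n false (n false (z 156) e) (n false e e)) e) (n false (n false (n true (n false e e) e) (n false e e)) e)) (u 16 5 (k v (k v (k (c 48 4099 r (u 32 1 (k v (k v r)))) (k (c 32 4098 r (u 48 1 (k v (k v r)))) (k (c 32 4097 r (u 48 1 (k v (k v r)))) (k (c 32 4099 r (u 48 1 (k v (k v r)))) r)))))))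
 (.s 0x3e9ff50042b8470 4074 (n false (n true (n false (z 15) (n false e e)) e) (n false (n false (n true (n false e e) e) (n false e e)) (n true (n false e e) e))) (c 7 4094 v (u 8 2 (k v (k v r))))
 (.s 0x3e9fdf8013eab00 4096 (n false (n true (n false (z 119) e) e) (z 67)) (u 8 17 (k r (k (c 16 4097 r r) (k (c 16 4097 r r) (k (c 24 4096 r (u 16 0 (k (u 32 0 (k r (k r r))) r))) (k (c 24 4097 r r) (k (c 24 4097 r r) (k (c 24 4097 r r) (k (c 24 4097 r r) (k (c 24 4097 r r) r))))))))))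
 .z .z) (.s 0x3ea577c0107dc20 4080 (n false (n true (n false (n false (z 52) (n false e e)) e) e) (n true (n true (n false (n true (n false e e) e) (n false e e)) e) e)) (u 16 25 (k v (k v (k v (k (t 48 1 (u 32 0 (k v (k v r)))) r)))))
 .z .z)) (.s 0x3ea57f50010ee10 4075 (n false (n true (n false (n false (z 156) e) (n false e e)) e) (n true (n false (n true (n false e e) e) (n false e e)) e)) (u 16 1 (k v (k (c 48 4099 r (u 32 1 (k v (k v r)))) (k (c 32 4098 r (u 48 1 (k v (k v r)))) (k (c 32 4097 r (u 48 1 (k v (k v r)))) (k (c 32 4099 r (u 48 1 (k v (k v r)))) (k (c 32 4095 r (u 48 0 (k v (k v r)))) r)))))))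
 (.s 0x3ea57f50010ba20 4076 (n false (n true (n false (n false (z 156) e) (n false e e)) e) (n false (n true (n false (n false e e) (n false e e)) e) e)) (u 16 8 (k v (k v (k (c 48 4099 r (u 32 1 (k v (k v r)))) (k (c 32 4098 r (u 48 1 (k v (k v r)))) (k (c 32 4097 r (u 48 1 (k v (k v r)))) (k (c 32 4099 r (u 48 1 (k v (k v r)))) r)))))))
 .z .z) (.s 0x3ea75fe00e0ee10 4077 (n false (n true (n false (n false (z 121) e) (n true (n false e e) e)) e) (n true (n false (n true (n false e e) e) (n false e e)) e)) (u 16 1 (k v (k (c 48 4099 r (u 32 1 (k v (k v r)))) (k (c 32 4097 r (u 48 1 (k v (k v r)))) (k (c 32 4095 r (u 48 0 (k v (k v r)))) (k (c 32 4095 r (u 48 0 (k v (k v r)))) r))))))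
 .z .z))) (.s 0x3ea88a20e5fdc00 4092 (n false (n true (z 46) e) (n true (n false (n false (n false (n false e e) (n false e e)) (n false (n false e e) (n false e e))) e) e)) (u 4 1 (k v (k (u 8 1 (k v (k v r))) (k (c 12 4099 r (u 8 0 (k v (k v r)))) (k (u 8 0 (k v (k v r))) (k (c 12 4097 r (u 8 1 (k v (k v r)))) (k (c 8 4095 r (u 12 1 (k v (k v r)))) r)))))))
 (.s 0x3ea88a2095fd400 4092 (n false (z 156) (n true (n false (n false (n false (n false e e) (n false e e)) (n false (n false e e) (n false e e))) e) e)) (u 2 2 (k v (k (c 6 4099 r (u 4 1 (k v (k v r)))) (k (c 4 4095 r (u 6 0 (k v (k v r)))) r))))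
 (.s 0x3ea88a209555400 4092 (n false (z 128) (n true (n false (n false (n false (n false e e) (n false e e)) (n false (n false e e) (n false e e))) e) e)) (u 2 9 (k v (k v (k (c 6 4097 r r) (k (t 6 2 (u 4 0 (k (t 12 2 (u 8 0 (k (c 24 4099 r (u 16 2 (k v (k (c 8 4084 (u 4 1 (k v (k v r))) v) r)))) r))) r))) (k (c 4 4095 r r) (k (c 4 4095 r (u 6 0 (k v (k v r)))) (k (c 6 4095 r (u 4 1 (k v (k v r)))) (k (c 4 4095 r r) (k (c 4 4095 r (u 6 1 (k v (k v r)))) (k (c 4 4097 r r) r)))))))))))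
 .z .z) (.s 0x3ea88a20e577c00 4087 (n false (n true (z 52) e) (n true (n false (n false (n false (n false e e) (n false e e)) (n false (n false e e) (n false e e))) e) e)) (u 4 77 (k v (k v (k v (k v (k v (k v (k v r))))))))
 .z .z)) (.s 0x3ea88a20e775c00 4092 (n false (n true (z 37) e) (n true (n false (n false (n false (n false e e) (n false e e)) (n false (n false e e) (n false e e))) e) e)) (u 4 0 (k v (k (u 8 0 (k (t 16 3 (t 24 1 v)) r)) (k (u 8 0 (k (t 16 3 (t 24 1 v)) r)) (k (u 8 2 (k v (k v (k v (k (t 24 1 (u 16 0 (k (t 32 3 (t 48 1 v)) r))) r))))) (k (u 8 0 (k v (k v (k (t 24 1 (u 16 0 (k (t 32 3 (t 48 1 v)) r))) r)))) (k (c 5 4100 v (c 2 4088 r v)) r)))))))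
 (.s 0x3ea88a20e75fe00 4092 (n false (n true (z 121) e) (n true (n false (n false (n false (n false e e) (n false e e)) (n false (n false e e) (n false e e))) e) e)) (u 4 2 (k v (k v (k (c 12 4099 r (u 8 1 (k v (k v r)))) (k (c 8 4095 r (u 12 0 (k v (k v r)))) (k (c 8 4095 r (u 12 0 (k v (k v r)))) r))))))
 .z .z) .z))) (.s 0x3ea88a2212ebe00 4095 (n false (z 50) (n true (n false (n false (n false (n false e e) (n false e e)) (n false (n false e e) (n false e e))) (n false e e)) e)) (u 2 1 (k v (k (c 6 4097 r (u 4 0 (k v (k v r)))) r)))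
 (.s 0x3ea88a2212aef00 4096 (n false (z 104) (n true (n false (n false (n false (n false e e) (n false e e)) (n false (n false e e) (n false e e))) (n false e e)) e)) (u 2 2 (k v (k (t 6 1 r) (k (t 4 1 r) (k (t 4 2 r) (k (t 4 1 r) (k (t 4 1 r) r)))))))
 (.s 0x3ea88a2212abb00 4096 (n false (z 80) (n true (n false (n false (n false (n false e e) (n false e e)) (n false (n false e e) (n false e e))) (n false e e)) e)) (u 2 0 (k (u 4 0 (k (c 12 4099 r (u 8 0 (k v (k (u 16 1 (k v (k v r))) (k (c 24 4099 r (u 16 0 (k (u 32 0 (k v (k v r))) r))) (k r (k (c 3 4110 v r) (k (u 16 0 (k (u 32 0 (k v (k v r))) r)) (k r (k r r)))))))))) r)) r))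
 (.s 0x3ea88a2212aaf00 4094 (n false (z 96) (n true (n false (n false (n false (n false e e) (n false e e)) (n false (n false e e) (n false e e))) (n false e e)) e)) (u 2 0 (k (t 6 1 (u 4 0 (k (t 12 1 (u 8 9 (k v (k v (k (c 2 4086 r v) r))))) r))) r))
 .z .z) (.s 0x3ea88a2212abf00 4095 (n false (z 112) (n true (n false (n false (n false (n false e e) (n false e e)) (n false (n false e e) (n false e e))) (n false e e)) e)) (u 2 1 (k (c 6 4099 r (u 4 1 (k v (k (t 12 2 (u 8 22 (k v (k (u 16 15 (k v (k v (k r r)))) (k r (k r (k (c 2 4085 (t 12 1 (u 8 0 (k r r))) v) (k (c 2 4085 r v) r)))))))) (k (c 2 4076 (u 4 0 (k r r)) v) r))))) (k (u 4 1 (k v (k (t 12 1 r) (k (t 8 2 r) (k (t 8 1 r) r))))) r)))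
 .z .z)) (.s 0x3ea88a2212bff00 4097 (n false (z 124) (n true (n false (n false (n false (n false e e) (n false e e)) (n false (n false e e) (n false e e))) (n false e e)) e)) (u 2 1 (k v (k (c 6 4097 r (u 4 1 (k v (k v r)))) (k (c 6 4096 r (u 4 1 (k v (k v r)))) (k (c 4 4098 r (u 6 0 (k v (k v r)))) (k (c 6 4096 r (u 4 1 (k v (k v r)))) (k (c 6 4097 r (u 4 1 (k v (k v r)))) (k (c 6 4097 r (u 4 1 (k v (k v r)))) (k (c 6 4096 r (u 4 1 (k v (k v r)))) (k (c 6 4099 r (u 4 1 (k v (k v r)))) (k (c 4 4097 r (u 6 1 (k v (k v r)))) r)))))))))))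
 (.s 0x3ea88a2212afe00 4094 (n false (z 56) (n true (n false (n false (n false (n false e e) (n false e e)) (n false (n false e e) (n false e e))) (n false e e)) e)) (u 2 0 (k r (k (c 4 4096 r (u 6 0 (k v (k v r)))) (k (u 4 1 (k v (k v r))) (k (c 6 4096 r r) r)))))
 .z .z) .z)) (.s 0x3ea88a2212fee00 4097 (n false (z 46) (n true (n false (n false (n false (n false e e) (n false e e)) (n false (n false e e) (n false e e))) (n false e e)) e)) (u 2 1 (k v (k (u 4 1 (k v (k v r))) (k (c 6 4099 r (u 4 0 (k v (k v r)))) (k (u 4 1 (k v (k v r))) (k (c 6 4097 r (u 4 1 (k v (k v r)))) (k (c 4 4095 r (u 6 1 (k v (k v r)))) r)))))))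
 (.s 0x3ea88a2212fbb00 4094 (n false (z 86) (n true (n false (n false (n false (n false e e) (n false e e)) (n false (n false e e) (n false e e))) (n false e e)) e)) (u 2 0 (k (t 6 1 (u 4 9 (k v (k (t 12 3 (u 8 36 (k v (k v (k (u 16 2 (k v (k v r))) (k r (k (c 12 4110 v (c 5 4099 v r)) (k (c 12 4110 v (c 5 4099 v r)) r)))))))) (k (c 12 4110 r r) r))))) r))
 (.s 0x3ea88a2212eef00 4093 (n false (z 106) (n true (n false (n false (n false (n false e e) (n false e e)) (n false (n false e e) (n false e e))) (n false e e)) e)) (u 2 2 (k v (k (t 6 2 r) (k (t 6 2 (c 5 4099 v (u 4 0 (k r r)))) (k (c 5 4099 v (u 6 0 (k (u 10 0 (k r (k r r))) r))) (k (t 6 2 (c 5 4099 v r)) (k (t 4 2 (u 6 0 (k (c 14 4099 r r) r))) (k (t 6 1 r) (k (t 4 1 r) (k (t 4 2 r) (k (t 4 1 (u 6 0 (k (c 14 4099 r r) r))) (k (t 4 1 r) r))))))))))))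
 .z .z) (.s 0x3ea88a2212feb00 4094 (n false (z 78) (n true (n false (n false (n false (n false e e) (n false e e)) (n false (n false e e) (n false e e))) (n false e e)) e)) (u 2 1 (k v (k (t 6 1 r) (k (t 6 2 (u 4 0 (k (c 12 4099 r r) r))) (k (t 6 2 (u 4 2 (k v (k v (k (c 12 4097 r r) r))))) (k (t 6 1 (u 4 1 (k v (k (c 8 4100 r r) (k (c 12 4100 r r) (k (c 12 4100 r r) r)))))) (k (t 6 2 r) (k (t 6 2 r) (k (t 4 1 r) (k (t 6 1 (c 5 4099 v r)) (k (t 4 2 r) (k (t 6 2 (c 5 4099 v r)) (k (t 4 1 r) (k (t 4 2 r) (k (t 4 1 r) r)))))))))))))))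
 .z .z)) (.s 0x3ea88a2213aef00 4096 (n false (z 105) (n true (n false (n false (n false (n false e e) (n false e e)) (n false (n false e e) (n false e e))) (n false e e)) e)) (u 2 0 (k (t 6 2 r) (k (t 6 2 r) (k (t 6 2 r) r))))
 (.s 0x3ea88a2213abf00 4096 (n false (z 113) (n true (n false (n false (n false (n false e e) (n false e e)) (n false (n false e e) (n false e e))) (n false e e)) e)) (u 2 1 (k r (k (t 6 2 (c 5 4099 v (u 4 0 (k r r)))) (k r r))))
 .z .z) .z))))

set_option maxRecDepth 100000 in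
def N105 : NT :=
(.s 0x3eaee77dc008420 4075 (n false (n true (n false (n false (n false (n true (n false (n true (z 45) e) (n false e e)) e) (n false e e)) e) (n false e e)) e) e) (u 256 4 (k v (k (t 768 1 (u 512 36 (k v (k v (k (u 1024 16 (k v (k v (k v r)))) (k (u 1024 3 (k v (k v r))) r)))))) r)))
 (.s 0x3ea88a2213fab00 4100 (n false (z 71) (n true (n false (n false (n false (n false e e) (n false e e)) (n false (n false e e) (n false e e))) (n false e e)) e)) (u 2 1 (k v (k (c 6 4099 r (u 4 1 (k v (k v r)))) (k (u 4 0 (k v (k v r))) (k (c 4 4099 r (u 6 1 (k v (k v r)))) (k (c 4 4099 r (u 6 1 (k v (k v r)))) (k (c 4 4099 r (u 6 1 (k v (k v r)))) r)))))))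
 (.s 0x3ea88a2213bfa00 4092 (n false (z 29) (n true (n false (n false (n false (n false e e) (n false e e)) (n false (n false e e) (n false e e))) (n false e e)) e)) (u 2 0 (k (u 4 0 (k (t 8 3 (t 12 1 v)) r)) r))
 (.s 0x3ea88a2213bae00 4099 (n false (z 37) (n true (n false (n false (n false (n false e e) (n false e e)) (n false (n false e e) (n false e e))) (n false e e)) e)) (u 2 0 (k v (k (u 4 0 (k (t 8 3 (t 12 1 v)) r)) (k (u 4 0 (k (t 8 3 (t 12 1 v)) r)) (k (u 4 0 (k v (k v (k (t 12 1 (u 8 0 (k (t 16 3 (t 24 1 v)) r))) r)))) (k (u 4 0 (k v (k v (k (t 12 1 (u 8 0 (k (t 16 3 (t 24 1 v)) r))) r)))) (k (c 2 4095 r v) r)))))))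
 (.s 0x3ea88a2213aff00 4099 (n false (z 121) (n true (n false (n false (n false (n false e e) (n false e e)) (n false (n false e e) (n false e e))) (n false e e)) e)) (u 2 1 (k v (k (c 6 4099 r (u 4 1 (k v (k v r)))) (k (c 4 4097 r (u 6 1 (k v (k v r)))) (k (c 4 4095 r (u 6 0 (k v (k v r)))) (k (c 4 4095 r (u 6 0 (k v (k v r)))) r))))))
 .z .z) (.s 0x3ea88a2213bbb00 4097 (n false (z 85) (n true (n false (n false (n false (n false e e) (n false e e)) (n false (n false e e) (n false e e))) (n false e e)) e)) (u 2 7 (k r (k (c 6 4099 r r) (k (c 6 4099 r r) (k (c 6 4099 r r) (k (c 6 4101 r r) (k (c 6 4096 r r) (k (c 4 4099 r r) r))))))))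
 .z .z)) (.s 0x3ea88a2213efb00 4096 (n false (z 91) (n true (n false (n false (n false (n false e e) (n false e e)) (n false (n false e e) (n false e e))) (n false e e)) e)) (u 2 2 (k v (k v (k (u 4 1 (k v (k v r))) (k (c 4 4097 r (u 6 0 (k v (k v r)))) (k (c 4 4097 r (u 6 0 (k v (k v r)))) (k (c 4 4096 r (u 6 0 (k v (k v r)))) (k (c 4 4095 r (u 6 0 (k v (k v r)))) r))))))))
 (.s 0x3ea88a2213eeb00 4096 (n false (z 75) (n true (n false (n false (n false (n false e e) (n false e e)) (n false (n false e e) (n false e e))) (n false e e)) e)) (u 2 1 (k v (k (t 6 3 (u 4 8 (k v (k v (k v r))))) (k (c 3 4110 v (u 4 0 (k r r))) r))))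
 .z .z) (.s 0x3ea88a2213eff00 4099 (n false (z 123) (n true (n false (n false (n false (n false e e) (n false e e)) (n false (n false e e) (n false e e))) (n false e e)) e)) (u 2 7 (k v (k v (k (c 6 4099 r (u 4 0 (k v (k v (k v (k (t 12 2 r) r)))))) (k r (k (c 4 4096 r (u 6 1 (k v (k v r)))) (k (c 6 4097 r r) r)))))))
 .z .z))) (.s 0x3eaea5ffe008420 4073 (n false (n true (n false (n false (n false (n true (n false (n false (z 126) e) (n false e e)) e) (n false e e)) e) (n false e e)) e) e) (u 256 2 (k v (k (t 768 1 (u 512 19 (k v (k v (k (c 1024 4097 r (u 1536 1 (k v (k v r)))) (k (c 1024 4095 r (u 1536 0 (k v (k v r)))) (k (c 1024 4095 r (u 1536 0 (k v (k v r)))) r))))))) (k (t 768 1 (u 512 17 (k v (k v (k (c 1024 4096 r (u 1536 1 (k v (k v r)))) r))))) r))))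
 (.s 0x3ea88a2213fbf00 4096 (n false (z 119) (n true (n false (n false (n false (n false e e) (n false e e)) (n false (n false e e) (n false e e))) (n false e e)) e)) (u 2 20 (k v (k r (k (c 6 4099 r r) (k r (k (c 6 4097 r r) (k (t 6 4 (c 5 4099 v (u 4 0 (k r r)))) (k (c 4 4098 r r) (k r (k r (k r (k r (k r r)))))))))))))
 (.s 0x3ea88a2213faf00 4096 (n false (z 103) (n true (n false (n false (n false (n false e e) (n false e e)) (n false (n false e e) (n false e e))) (n false e e)) e)) (u 2 3 (k r (k r (k r (k r r)))))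
 .z .z) (.s 0x3eab95df0021050 4071 (n false (n true (n false (n false (n false (n false (n true (z 52) e) (n false e e)) e) (n false e e)) e) e) (n false (n false e e) e)) (u 128 65 (k v (k v (k v (k v (k v (k v (k v (k v r)))))))))
 .z .z)) (.s 0x3eaea77dc008420 4073 (n false (n true (n false (n false (n false (n true (n false (n false (z 45) e) (n false e e)) e) (n false e e)) e) (n false e e)) e) e) (u 256 4 (k v (k (t 768 1 (u 512 7 (k v (k (u 1024 17 (k v (k v (k v r)))) (k (u 1024 18 (k v (k v (k v (k v r))))) (k (u 1024 3 (k v (k v r))) r)))))) r)))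
 (.s 0x3eaea777c008420 4073 (n false (n true (n false (n false (n false (n true (n false (n false (z 53) e) (n false e e)) e) (n false e e)) e) (n false e e)) e) e) (u 256 0 (k (t 768 1 (u 512 13 (k v (k v (k v (k (u 1024 1 (k v (k v r))) (k (u 1024 1 (k v (k v r))) (k (c 1536 4097 r (u 1024 1 (k v (k v r)))) r)))))))) (k (t 768 1 (u 512 17 (k v (k v (k (u 1024 12 (k v (k v r))) (k (c 1536 4096 r (u 1024 3 (k v (k v r)))) (k (c 1024 4099 r (u 1536 95 (k v (k v (k v (k v r)))))) r))))))) r)))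
 .z .z) .z))) (.s 0x3ef95df00075110 4081 (n false (n true (n false (n true (n true (z 52) e) e) e) e) (n true (n false (n false (n false e e) (n false e e)) (n false e e)) e)) (u 32 103 (k v (k v (k v (k v (k (t 96 1 (u 64 0 (k v (k v r)))) r))))))
 (.s 0x3ee57f500075c20 4089 (n false (n true (n false (n true (z 156) e) e) e) (n true (n false (n false (n true (n false e e) e) (n false e e)) e) e)) (u 16 38 (k v (k v (k (c 48 4099 r (u 32 1 (k v (k v r)))) (k (c 32 4098 r (u 48 1 (k v (k v r)))) (k (c 32 4097 r (u 48 1 (k v (k v r)))) (k (c 32 4099 r (u 48 1 (k v (k v r)))) r)))))))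
 (.s 0x3ee55550010ee10 4071 (n false (n true (n false (n true (z 128) e) (n false e e)) e) (n true (n false (n true (n false e e) e) (n false e e)) e)) (u 16 27 (k v (k v (k (c 48 4097 r r) (k (c 32 4095 r r) (k (c 32 4098 r (u 48 0 (k (u 80 6 (k v (k v (k v r)))) r))) (k (c 32 4096 r r) (k (c 32 4095 r (u 48 2 (k v (k (c 112 4097 r (u 80 0 (k v (k v r)))) r)))) (k (c 32 4095 r r) (k (c 32 4095 r (u 48 0 (k v (k v r)))) (k (c 48 4095 r (u 32 54 (k v (k v (k v (k (u 64 3 (k v (k v r))) r)))))) (k (c 48 4095 r (u 32 1 (k v (k v r)))) (k (c 32 4097 r (u 48 0 (k v (k v r)))) (k (c 32 4095 r r) (k (c 32 4095 r (u 48 1 (k v (k v r)))) (k (c 32 4097 r r) r))))))))))))))))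
 (.s 0x3eb84740e7d5600 4080 (n false (n true (n false (n true (n false (n false e e) e) e) (n false (n true (n false e e) e) (n false e e))) e) (n true (z 67) e)) (u 5 100 (k v (k v (k v (k v (k v (k (t 13 1 (u 9 1 (k v (k v r)))) (k (c 9 4101 r (u 13 0 (k v (k v r)))) (k r (k (c 3 4088 r v) (k (c 9 4099 r (u 13 0 (k v (k v r)))) (k (t 13 1 (u 9 2 (k v (k (c 25 4097 r (u 17 0 (k v (k v r)))) r)))) (k (c 3 4091 (t 6 2 (u 4 0 (k r r))) v) (k (c 13 4101 r (u 9 1 (k v (k v r)))) (k (t 13 1 (u 9 9 (k v (k v (k v (k (c 25 4099 r (u 17 1 (k v (k v r)))) r)))))) (k (c 13 4102 r (u 9 1 (k v (k v r)))) (k (c 9 4101 r (u 13 1 (k v (k v r)))) (k r (k (c 9 4101 r (u 13 1 (k v (k v r)))) r)))))))))))))))))))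
 .z .z) (.s 0x3ee57f500075110 4085 (n false (n true (n false (n true (z 156) e) e) e) (n true (n false (n false (n false e e) (n false e e)) (n false e e)) e)) (u 16 8 (k v (k v (k (c 48 4099 r (u 32 1 (k v (k v r)))) (k (c 32 4098 r (u 48 1 (k v (k v r)))) (k (c 32 4097 r (u 48 1 (k v (k v r)))) (k (c 32 4099 r (u 48 1 (k v (k v r)))) r)))))))
 .z .z)) (.s 0x3ee57f50010ee10 4072 (n false (n true (n false (n true (z 156) e) (n false e e)) e) (n true (n false (n true (n false e e) e) (n false e e)) e)) (u 16 1 (k v (k (c 48 4099 r (u 32 1 (k v (k v r)))) (k (c 32 4098 r (u 48 1 (k v (k v r)))) (k (c 32 4097 r (u 48 1 (k v (k v r)))) (k (c 32 4099 r (u 48 1 (k v (k v r)))) (k (c 32 4095 r (u 48 0 (k v (k v r)))) r)))))))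
 (.s 0x3ee57f50007dc20 4086 (n false (n true (n false (n true (z 156) e) e) e) (n true (n true (n false (n true (n false e e) e) (n false e e)) e) e)) (u 16 5 (k v (k v (k (c 48 4099 r (u 32 1 (k v (k v r)))) (k (c 32 4098 r (u 48 1 (k v (k v r)))) (k (c 32 4097 r (u 48 1 (k v (k v r)))) (k (c 32 4099 r (u 48 1 (k v (k v r)))) r)))))))
 .z .z) .z)) (.s 0x3ef9d7f80075110 4081 (n false (n true (n false (n true (n true (z 121) e) e) e) e) (n true (n false (n false (n false e e) (n false e e)) (n false e e)) e)) (u 32 1 (k v (k (c 96 4099 r (u 64 1 (k v (k v r)))) (k (c 64 4097 r (u 96 1 (k v (k v r)))) (k (c 64 4095 r (u 96 0 (k v (k v r)))) (k (c 64 4095 r (u 96 0 (k v (k v r)))) r))))))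
 (.s 0x3ef97f700075110 4081 (n false (n true (n false (n true (n true (z 46) e) e) e) e) (n true (n false (n false (n false e e) (n false e e)) (n false e e)) e)) (u 32 1 (k v (k (u 64 1 (k v (k v r))) (k (c 96 4099 r (u 64 0 (k v (k v r)))) (k (u 64 1 (k v (k v r))) (k (c 96 4097 r (u 64 1 (k v (k v r)))) (k (c 64 4095 r (u 96 1 (k v (k v r)))) r)))))))
 (.s 0x3ef95df0010ee10 4070 (n false (n true (n false (n true (n true (z 52) e) e) (n false e e)) e) (n true (n false (n true (n false e e) e) (n false e e)) e)) (u 32 67 (k v (k v (k v (k v (k v r))))))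
 .z .z) (.s 0x3ef97f70010ee10 4072 (n false (n true (n false (n true (n true (z 46) e) e) (n false e e)) e) (n true (n false (n true (n false e e) e) (n false e e)) e)) (u 32 15 (k v (k v (k v (k (u 64 1 (k v (k v r))) (k (u 64 0 (k v (k v r))) (k (c 96 4097 r (u 64 1 (k v (k v r)))) r)))))))
 .z .z)) (.s 0x3ef9ddd80075110 4083 (n false (n true (n false (n true (n true (z 85) e) e) e) e) (n true (n false (n false (n false e e) (n false e e)) (n false e e)) e)) (u 32 12 (k v (k v (k (c 96 4099 r r) (k (c 96 4099 r (c 16 4088 r v)) (k (c 2 4090 (u 32 0 (k v (k v (k v (k (t 96 2 (u 64 41 (k v (k v (k (t 192 1 (u 128 0 (k v (k v r)))) r))))) r))))) v) (k (c 96 4096 r (c 16 4088 r v)) (k (c 64 4099 r r) r))))))))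
 (.s 0x3ef9dd700075110 4081 (n false (n true (n false (n true (n true (z 37) e) e) e) e) (n true (n false (n false (n false e e) (n false e e)) (n false e e)) e)) (u 32 0 (k v (k (c 2 4088 (u 32 0 (k (t 64 3 (t 96 1 v)) r)) v) (k (c 2 4088 (u 32 0 (k (t 64 3 (t 96 1 v)) r)) v) (k (c 2 4088 r v) (k (c 2 4088 r v) (k (c 2 4084 r v) r)))))))
 .z .z) .z))))

end Pool.Agent.Helper91.ND1
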