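import Pool.Agent.Helper66.ND.Defs

/-! part of the certificate for the constant 25/48 (generated) -/

namespace Pool.Agent.Helper91.ND1

open Pool.Agent.Helper66.IL
open Pool.Agent.Helper66.ND
open Pool.Agent.Helper66.ND.LT
open Pool.Agent.Helper66.ND.Ct

set_option maxRecDepth 100000 in
def N106 : NT :=
(.s 0x3f95df0013fbf00 4093 (n false (z 119) (n true (n true (z 52) e) e)) (u 2 4 (k r (k r (k (c 4 4097 r (u 6 1 (k (c 5 4096 r v) (k r r)))) (k (c 4 4097 r r) (k (c 4 4097 r (u 6 2 (k (c 5 4096 r v) (k (c 14 4097 r (u 10 0 (k r (k r r)))) r)))) (k (c 6 4096 r (u 4 0 (k (u 8 0 (k r (k r r))) r))) (k (c 6 4097 r r) (k (c 6 4097 r r) (k (c 6 4097 r r) (k (c 6 4097 r r) (k (c 6 4097 r r) (k (c 6 4097 r r) r)))))))))))))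
 (.s 0x3efe80e0e75fe00 4079 (n false (n true (n false (n true (n true (n true (n false (n false e e) e) e) e) e) (n true (n false e e) e)) e) (n true (z 121) e)) (u 5 2 (k v (k v (k (c 13 4099 r (u 9 1 (k v (k v r)))) (k (c 9 4095 r (u 13 0 (k v (k v r)))) (k (c 9 4095 r (u 13 0 (k v (k v r)))) r))))))
 (.s 0x3efe577c0021708 4067 (n false (n true (n false (n true (n true (n true (z 52) e) e) e) (n false e e)) e) (n false (n true (n false e e) e) (n false e e))) (u 64 389 (k v (k v (k v (k v (k v (k v (k v (k (t 192 2 (u 128 0 (k (u 256 2 (k v (k (c 128 4084 (u 4 1 (k v (k v r))) v) r))) r))) (k (t 192 1 (u 128 0 (k (c 384 4099 r (u 256 2 (k v (k (c 64 4085 r v) r)))) r))) r))))))))))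
 (.s 0x3efa80e0e775c00 4079 (n false (n true (n false (n true (n true (n false (n false (n false e e) e) e) e) e) (n true (n false e e) e)) e) (n true (z 37) e)) (u 5 0 (k v (k (u 9 0 (k (t 17 3 (t 25 1 v)) r)) (k (u 9 0 (k (t 17 3 (t 25 1 v)) r)) (k (u 9 10 (k v (k v (k v (k (t 25 1 (u 17 0 (k (t 33 3 (t 49 1 v)) r))) r))))) (k (u 9 0 (k v (k v (k (t 25 1 (u 17 0 (k (t 33 3 (t 49 1 v)) r))) r)))) (k (c 3 4088 r v) r)))))))
 (.s 0x3efa80e0e75fe00 4079 (n false (n true (n false (n true (n true (n false (n false (n false e e) e) e) e) e) (n true (n false e e) e)) e) (n true (z 121) e)) (u 5 23 (k v (k v (k v (k (c 13 4099 r (u 9 1 (k v (k v r)))) (k (c 9 4095 r (u 13 0 (k v (k v r)))) (k (c 9 4095 r (u 13 0 (k v (k v r)))) r)))))))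
 .z .z) (.s 0x3efb841c13eab00 4083 (n false (n true (n false (n true (n true (n false (n true (n false e e) e) (n false e e)) e) e) (n true (n false e e) e)) e) (z 67)) (u 3 148 (k v (k v (k v (k v (k v (k (t 7 1 (u 5 1 (k v (k v r)))) (k (c 5 4101 r (u 7 0 (k v (k v r)))) (k r (k (c 2 4086 v r) (k (c 2 4086 v (t 7 2 (u 5 0 (k r r)))) (k (c 7 4101 r (u 5 1 (k v (k v r)))) (k (t 7 1 (u 5 10 (k v (k v (k v (k (c 13 4099 r (u 9 1 (k v (k v r)))) r)))))) (k (c 7 4102 r (u 5 1 (k v (k v r)))) (k (c 5 4101 r (u 7 1 (k v (k v r)))) (k (t 7 1 (u 5 3 (k v (k v (k (c 13 4099 r (u 9 1 (k v (k v r)))) r))))) (k (c 5 4101 r (u 7 1 (k v (k v r)))) r)))))))))))))))))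
 .z .z)) (.s 0x3efe5ddc0021d10 4077 (n false (n true (n false (n true (n true (n true (z 42) e) e) e) (n false e e)) e) (n true (n false (n false e e) (n false e e)) e)) (c 2 4082 (u 32 1 (k v (k v r))) v)
 (.s 0x3efe577c0021d10 4073 (n false (n true (n false (n true (n true (n true (z 52) e) e) e) (n false e e)) e) (n true (n false (n false e e) (n false e e)) e)) (u 64 384 (k v (k v (k v (k v (k v r))))))
 .z .z) (.s 0x3efe80e0e5fdc00 4079 (n false (n true (n false (n true (n true (n true (n false (n false e e) e) e) e) e) (n true (n false e e) e)) e) (n true (z 46) e)) (u 5 2 (k v (k (c 13 4099 r (u 9 0 (k v (k v r)))) (k (u 9 1 (k v (k v r))) (k (u 9 0 (k v (k v r))) (k (c 13 4097 r (u 9 1 (k v (k v r)))) (k (c 9 4095 r (u 13 1 (k v (k v r)))) r)))))))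
 .z .z))) (.s 0x3effb9d7f802020 4066 (n false (n true (n false (n true (n true (n true (n true (n false (n true (z 121) e) (n false e e)) e) e) e) e) (n false e e)) e) e) (u 512 1 (k v (k (c 1536 4099 r (u 1024 1 (k v (k v r)))) (k (c 1024 4097 r (u 1536 1 (k v (k v r)))) (k (c 1024 4095 r (u 1536 0 (k v (k v r)))) (k (c 1024 4095 r (u 1536 0 (k v (k v r)))) r))))))
 (.s 0x3effa97f7002020 4064 (n false (n true (n false (n true (n true (n true (n true (n false (n false (z 46) e) (n false e e)) e) e) e) e) (n false e e)) e) e) (u 512 2 (k v (k (c 1536 4099 r (u 1024 0 (k v (k v r)))) (k (u 1024 1 (k v (k v r))) (k (u 1024 1 (k v (k v r))) (k (c 1536 4097 r (u 1024 1 (k v (k v r)))) (k (c 1024 4095 r (u 1536 1 (k v (k v r)))) r)))))))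
 (.s 0x3efe80e0e775c00 4079 (n false (n true (n false (n true (n true (n true (n false (n false e e) e) e) e) e) (n true (n false e e) e)) e) (n true (z 37) e)) (u 5 0 (k v (k (u 9 0 (k (t 17 3 (t 25 1 v)) r)) (k (u 9 0 (k (t 17 3 (t 25 1 v)) r)) (k (u 9 10 (k v (k v (k v (k (t 25 1 (u 17 0 (k (t 33 3 (t 49 1 v)) r))) r))))) (k (u 9 0 (k v (k v (k (t 25 1 (u 17 0 (k (t 33 3 (t 49 1 v)) r))) r)))) (k (c 3 4088 r v) r)))))))
 .z .z) (.s 0x3effb97f7002020 4066 (n false (n true (n false (n true (n true (n true (n true (n false (n true (z 46) e) (n false e e)) e) e) e) e) (n false e e)) e) e) (u 512 1 (k v (k (u 1024 1 (k v (k v r))) (k (c 1536 4099 r (u 1024 0 (k v (k v r)))) (k (u 1024 1 (k v (k v r))) (k (c 1536 4097 r (u 1024 1 (k v (k v r)))) (k (c 1024 4095 r (u 1536 1 (k v (k v r)))) r)))))))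
 .z .z)) (.s 0x3f95df0012bbe00 4092 (n false (n true (n true (z 52) e) e) (z 52)) (u 3 4 (k r (k r (k r (k r (k (t 7 1 (u 5 7 (k r (k r r)))) r))))))
 (.s 0x3effb9dd7002020 4066 (n false (n true (n false (n true (n true (n true (n true (n false (n true (z 37) e) (n false e e)) e) e) e) e) (n false e e)) e) e) (u 512 0 (k v (k (u 1024 0 (k (t 2048 3 (t 3072 1 v)) r)) (k (u 1024 0 (k (t 2048 3 (t 3072 1 v)) r)) (k r (k r (k r r)))))))
 .z .z) .z))) (.s 0x3f97770013eee00 4095 (n false (n true (n true (z 42) e) e) (z 43)) (u 8 33 (k r (k r (k r (k r r)))))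
 (.s 0x3f95fd4003fb840 4085 (n false (n true (n true (z 156) e) e) (n true (n true (n true (n false (n true (n false e e) e) (n false e e)) e) e) e)) (u 8 1 (k v (k (c 24 4099 r (u 16 1 (k v (k v r)))) (k (c 16 4098 r (u 24 1 (k v (k v r)))) (k (c 16 4097 r (u 24 1 (k v (k v r)))) (k (c 16 4099 r (u 24 1 (k v (k v r)))) (k (c 16 4095 r (u 24 0 (k v (k v r)))) r)))))))
 (.s 0x3f95df0017f4070 4077 (n false (n true (n true (z 52) e) e) (n false (n true (n true (n true (n false (n false e e) e) e) e) e) (n true (n false e e) e))) (u 8 317 (k v (k v (k v (k v (k v (k v r)))))))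
 (.s 0x3f95df001544510 4091 (n false (n true (n true (z 52) e) e) (n false (n false (n false (n false e e) (n false e e)) (n false (n false e e) (n false e e))) e)) (u 8 133 (k v (k v (k v (k v (k v (k v (k v r))))))))
 .z .z) (.s 0x3f95df001d44510 4087 (n false (n true (n true (z 52) e) e) (n true (n false (n false (n false e e) (n false e e)) (n false (n false e e) (n false e e))) e)) (u 8 77 (k v (k v (k v (k v (k v (k v (k v r))))))))
 .z .z)) (.s 0x3f97770013afb00 4093 (n false (z 89) (n true (n true (z 42) e) e)) (u 2 0 (k (u 9 1 (k v (k v r))) (k (u 9 1 (k v (k v r))) (k (u 9 1 (k v (k v r))) (k (t 6 2 (u 9 1 (k r (k r r)))) r)))))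
 (.s 0x3f97770012efb00 4093 (n false (z 90) (n true (n true (z 42) e) e)) (u 2 10 (k (u 9 1 (k v (k v r))) (k (u 9 1 (k v (k v r))) (k r (k (u 9 1 (k r (k r r))) (k (c 4 4097 r (u 6 0 (k r r))) (k (u 9 1 (k r (k r r))) r)))))))
 .z .z) .z)) (.s 0x3f9f558013afb00 4097 (n false (z 89) (n true (n true (z 67) e) e)) (u 2 0 (k (u 9 0 (k v (k v r))) (k (u 9 0 (k v (k v r))) (k (u 9 0 (k v (k v r))) (k (t 6 2 (u 9 0 (k r (k r r)))) r)))))
 (.s 0x3f97ff0013fbf00 4093 (n false (n true (n true (z 62) e) e) (z 119)) (u 8 4 (k r (k r (k r (k (t 24 1 (u 3 13 (k (c 4 4094 r v) (k r (k (u 16 25 (k v (k v (k v (k (t 48 1 (u 32 0 (k v (k v r)))) r))))) (k (c 5 4097 r (u 7 1 (k (c 4 4094 r v) (k r r)))) (k (c 5 4097 r r) (k (c 7 4097 r r) (k (c 7 4097 r r) (k (c 7 4097 r r) (k (c 7 4097 r r) r))))))))))) r)))))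
 (.s 0x3f97770013eff00 4092 (n false (n true (n true (z 42) e) e) (z 123)) (u 3 13 (k (u 8 1 (k v (k v r))) (k (c 2 4098 (c 4 4100 r v) v) (k (t 7 1 (u 8 1 (k r (k r r)))) (k r (k (u 8 31 (k r (k r (k r r)))) (k (u 8 1 (k r (k r r))) (k (t 5 1 (u 8 1 (k r (k r r)))) (k (t 5 2 (u 7 2 (k (u 8 1 (k v (k v r))) (k (u 8 1 (k v (k v r))) r)))) r)))))))))
 .z .z) (.s 0x3f9f558012aeb00 4099 (n false (n true (n true (z 67) e) e) (z 72)) (u 8 0 (k (u 3 0 (k (t 7 2 r) r)) (k (u 3 0 (k (t 7 2 r) r)) r)))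
 .z .z)) (.s 0x3f9fd58013eee00 4100 (n false (n true (n true (z 71) e) e) (z 43)) (u 8 9 (k r (k r (k (t 24 2 (u 16 25 (k r (k (u 3 15 (k v (k v (k v (k r (k (u 5 1 (k v (k v r))) (k (u 5 10 (k v (k (c 13 4099 r (u 9 0 (k v (k v r)))) (k (u 9 1 (k v (k v r))) r)))) (k (u 5 0 (k (u 9 0 (k v (k v r))) r)) (k r r))))))))) (k (c 8 4090 v (c 2 4094 v (t 3 2 v))) r))))) (k (c 8 4097 r (c 2 4094 v (t 3 2 v))) r)))))
 (.s 0x3f9f57001d44510 4091 (n false (n true (n true (z 35) e) e) (n true (n false (n false (n false e e) (n false e e)) (n false (n false e e) (n false e e))) e)) (u 8 2 (k v (k v (k v (k (t 24 1 (u 16 0 (k (t 32 3 (t 48 1 v)) r))) r)))))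
 .z .z) .z))))

set_option maxRecDepth 100000 in
def N107 : NT :=
(.s 0x1d2aae008a7d5600 4088 (n false (n false (z 32) (n false e e)) (n false (z 67) e)) (u 5 50 (k (u 4 0 (k (t 8 3 (t 12 1 v)) r)) (k (t 4 2 v) (k (c 3 4094 v (u 4 0 (k (t 8 3 (t 12 1 v)) r))) (k (c 9 4101 r (t 4 2 (u 13 0 (k v (k v r))))) (k (c 3 4088 r (u 4 0 (k (t 8 3 (t 12 1 v)) r))) (k (c 9 4099 r (t 4 2 (u 13 0 (k v (k v r))))) (k (c 13 4101 r (t 4 2 (u 9 1 (k v (k v r))))) (k (c 13 4102 r (t 4 2 (u 9 1 (k v (k v r))))) (k (c 9 4101 r (t 4 2 (u 13 1 (k v (k v r))))) (k (c 9 4101 r (t 4 2 (u 13 1 (k v (k v r))))) r)))))))))))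
 (.s 0x3fe57f50007dc20 4088 (n false (n true (n true (n true (z 156) e) e) e) (n true (n true (n false (n true (n false e e) e) (n false e e)) e) e)) (u 16 11 (k v (k v (k (c 48 4099 r (u 32 1 (k v (k v r)))) (k (c 32 4098 r (u 48 1 (k v (k v r)))) (k (c 32 4097 r (u 48 1 (k v (k v r)))) (k (c 32 4099 r (u 48 1 (k v (k v r)))) r)))))))
 (.s 0x3f9fdf8013fbf00 4098 (n false (n true (n true (z 119) e) e) (z 119)) (u 8 58 (k r (k r (k (c 24 4101 r r) (k (c 24 4099 r r) (k (c 24 4097 r r) (k (c 24 4096 r r) (k (c 16 4098 r r) (k (c 16 4101 r r) (k (c 16 4099 r r) (k (c 16 4101 r r) r)))))))))))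
 (.s 0x3f9fdf001d44510 4089 (n false (n true (n true (z 55) e) e) (n true (n false (n false (n false e e) (n false e e)) (n false (n false e e) (n false e e))) e)) (u 8 4 (k (t 24 1 (u 16 2 (k v (k (c 48 4099 r (t 32 3 v)) (k (u 32 2 (k v (k v r))) r))))) (k (t 24 2 r) r)))
 (.s 0x3f9fdd8013afb00 4093 (n false (n true (n true (z 87) e) e) (z 89)) (u 3 0 (k (u 8 1 (k v (k v r))) (k (u 8 1 (k v (k v r))) (k (u 8 1 (k v (k v r))) (k (t 7 2 (u 8 1 (k r (k r r)))) r)))))
 .z .z) (.s 0x3f9fdf8013eab00 4098 (n false (n true (n true (z 119) e) e) (z 67)) (u 8 8 (k (u 3 0 (k v (k v r))) (k r (k (u 3 0 (k v (k v r))) (k r (k (c 16 4097 r (u 3 0 (k r (k r r)))) (k (c 24 4097 r (u 16 337 (k (u 3 0 (k v (k v r))) (k r (k r (k r (k r r))))))) (k (c 24 4096 r (u 16 0 (k (u 3 0 (k (u 32 0 (k v (k v r))) (k (u 32 0 (k v (k v r))) r))) r))) (k (c 24 4097 r (u 3 0 (k r (k r r)))) (k (c 24 4097 r (u 3 0 (k r (k r r)))) (k (u 16 2 (k r (k (c 24 4097 r r) (k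 (c 48 4099 r r) (k (c 32 4095 r r) (k (c 32 4095 r r) r)))))) (k (c 24 4097 r (u 3 0 (k r (k r r)))) (k (c 24 4097 r (u 3 0 (k r (k r r)))) (k r r))))))))))))))
 .z .z)) (.s 0x3fa95fd40041708 4077 (n false (n true (n true (n false (n false (z 156) e) (n false e e)) e) e) (n false (n true (n false e e) e) (n false e e))) (u 32 5 (k v (k v (k (c 96 4099 r (u 64 1 (k v (k v r)))) (k (c 64 4098 r (u 96 1 (k v (k v r)))) (k (c 64 4097 r (u 96 1 (k v (k v r)))) (k (c 64 4099 r (u 96 1 (k v (k v r)))) r)))))))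
 (.s 0x3fa577c0107dc20 4080 (n false (n true (n true (n false (z 52) (n false e e)) e) e) (n true (n true (n false (n true (n false e e) e) (n false e e)) e) e)) (u 16 25 (k v (k v (k v (k (t 48 1 (u 32 0 (k v (k v r)))) r)))))
 .z .z) (.s 0x3fae11d013eab00 4080 (n false (n true (n true (n false (n true (n false (n false e e) e) e) (n false (n true (n false e e) e) (n false e e))) e) e) (z 67)) (u 3 100 (k v (k v (k v (k v (k v (k (t 7 1 (u 5 1 (k v (k v r)))) (k (c 5 4101 r (u 7 0 (k v (k v r)))) (k r (k (c 2 4086 v r) (k (c 5 4099 r (u 7 0 (k v (k v r)))) (k (t 7 1 (u 5 2 (k v (k (c 13 4097 r (u 9 0 (k v (k v r)))) r)))) (k (c 2 4086 v (t 7 2 (u 5 0 (k r r)))) (k (c 7 4101 r (u 5 1 (k v (k v r)))) (k (t 7 1 (u 5 9 (k v (k v (k v (k (c 13 4099 r (u 9 1 (k v (k v r)))) r)))))) (k (c 7 4102 r (u 5 1 (k v (k v r)))) (k (c 5 4101 r (u 7 1 (k v (k v r)))) (k r (k (c 5 4101 r (u 7 1 (k v (k v r)))) r)))))))))))))))))))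
 .z .z))) (.s 0x1d2aaa8013bae008 4088 (n false (n false (z 128) (z 37)) (n false e e)) (u 4 8 (k r (k (c 2 4085 r v) (k (c 12 4094 v r) (k (c 8 4097 r r) (k (c 12 4099 r (u 8 5 (k r (k r r)))) (k (c 8 4096 r r) (k (c 12 4097 r (u 8 5 (k r (k r r)))) (k (c 12 4097 r (u 8 5 (k r (k r r)))) (k (c 8 4095 r (u 12 0 (k r (k r r)))) (k (c 8 4099 r (t 12 2 r)) (k (c 8 4099 r (u 12 5 (k r (k r r)))) (k (c 12 4095 r (u 8 1 (k r (k r r)))) (k (c 8 4097 r (u 12 0 (k r (k r r)))) (k (c 12 4097 r r) (k (c 8 4099 r (t 12 2 r)) (k (c 8 4095 r (u 12 1 (k r (k r r)))) (k (c 8 4097 r r) r))))))))))))))))))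
 (.s 0x1d2aaa80112bbe00 4088 (n false (z 52) (n false (z 128) (n false e e))) (u 5 4 (k r (k (c 13 4097 r r) (k (c 9 4095 r (c 2 4097 r r)) (k (c 9 4098 r (c 2 4097 r (u 13 0 (k (u 21 0 (k v (k v r))) r)))) (k (c 13 4099 r r) (k (c 9 4096 r r) (k (c 9 4095 r (c 2 4097 r r)) (k (c 9 4095 r r) (k (c 9 4095 r (u 13 0 (k r (k r r)))) (k (c 13 4095 r (c 2 4097 r r)) (k (c 13 4095 r (u 9 1 (k r (k r r)))) (k (c 9 4097 r (u 13 0 (k r (k r r)))) (k (c 9 4095 r r) (k (c 9 4095 r (u 13 1 (k r (k r r)))) (k (c 9 4097 r r) r))))))))))))))))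
 (.s 0x3fea228813eff00 4094 (n false (z 123) (n true (n true (n true (n false (n false (n false e e) (n false e e)) (n false (n false e e) (n false e e))) e) e) e)) (u 2 29 (k v (k v (k v (k (c 6 4099 r (u 4 0 (k v (k v (k v (k (t 12 2 (u 8 6 (k v (k v (k (t 24 1 (u 16 2 (k v (k v r)))) r))))) r)))))) r)))))
 .z .z) (.s 0x1d2aaa8013aff008 4088 (n false (n false (z 121) (z 128)) (n false e e)) (u 4 1 (k r (k (c 12 4099 r (u 8 1 (k r (k r r)))) (k (c 8 4097 r (u 12 1 (k r (k r r)))) (k (c 8 4095 r (t 6 1 r)) (k (c 8 4095 r (t 6 1 r)) r))))))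
 .z .z)) (.s 0x1d2aaa801dc21708 4062 (n false (n false (z 128) (n true (n false (n true (n false e e) e) (n false e e)) e)) (n false (n true (n false e e) e) (n false e e))) (u 4 0 (k v (k v (k (c 12 4097 r r) (k (c 12 4099 r (u 8 0 (k (t 24 2 (u 16 0 (k (c 48 4099 r (u 32 2 (k v (k (c 16 4084 (u 4 1 (k v (k v r))) v) r)))) r))) r))) (k (c 8 4095 r r) (k (c 8 4095 r (u 12 0 (k v (k v r)))) (k (c 12 4095 r (u 8 0 (k v (k v r)))) (k (c 8 4095 r r) (k (c 8 4095 r (u 12 0 (k v (k v r)))) r))))))))))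
 (.s 0x1d2aaa8013fab008 4087 (n false (n false (z 128) (z 71)) (n false e e)) (u 6 1 (k r (k (c 14 4099 r (u 10 1 (k r (k r r)))) (k (t 4 1 r) (k (c 10 4099 r (u 14 1 (k r (k r r)))) (k (c 10 4099 r (u 14 1 (k r (k r r)))) (k (c 10 4099 r (u 14 1 (k r (k r r)))) r)))))))
 .z .z) .z))) (.s 0x1d2aff008e577c00 4083 (n false (n false (z 120) (n false e e)) (n true (z 52) e)) (u 5 374 (k r (k r (k r (k (c 3 4085 v r) (k (u 4 16 (k v (k (c 12 4099 r r) (k (c 12 4099 r r) (k (c 8 4095 r r) (k (c 12 4097 r r) (k (c 12 4096 r r) (k (c 12 4096 r (u 8 0 (k (u 16 0 (k v (k v r))) r))) (k (c 12 4100 r (u 8 0 (k (u 16 0 (k v (k v r))) r))) (k (c 12 4101 r r) (k (c 8 4099 r r) (k (c 12 4100 r r) (k (c 12 4097 r r) (k (c 12 4099 r r) (k (c 8 4099 r r) (k (c 12 4097 r r) r)))))))))))))))) r))))))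
 (.s 0x1d2aeb00895fd400 4090 (n false (z 156) (n false (z 72) (n false e e))) (u 5 0 (k (c 13 4099 r (u 9 25 (k (c 9 4094 v r) (k r (k (u 17 2 (k (c 9 4094 v r) (k r r))) (k (c 25 4099 r r) (k (t 2 1 r) (k (u 17 0 (k (u 33 0 (k r (k r r))) r)) (k (u 17 70 (k r (k r (k r (k (c 33 4095 r (u 49 0 (k r (k r r)))) r))))) (k (u 17 4 (k r (k (c 49 4099 r (u 33 1 (k r (k r r)))) r))) r)))))))))) r))
 (.s 0x1d2aae008e7dfe00 4090 (n false (n false (z 32) (n false e e)) (n true (z 123) e)) (u 4 0 (k (t 8 3 (t 12 1 (u 5 50 (k v (k v (k v (k v (k (c 12 4101 v (u 9 26 (k v (k (c 25 4101 r r) (k (c 17 4101 r r) (k (c 17 4101 r r) r)))))) r)))))))) r))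
 (.s 0x1d2aae008aa22888 4094 (n false (n false (z 32) (n false e e)) (n false (n false (n false (n false e e) (n false e e)) (n false (n false e e) (n false e e))) (n false e e))) (c 3 4099 v (u 4 0 (k (t 8 3 (t 12 1 v)) r)))
 .z .z) (.s 0x1d2abe008a7d5600 4094 (n false (n false (z 48) (n false e e)) (n false (z 67) e)) (u 5 165 (k r (k (c 5 4094 v r) (k (u 4 6 (k v (k v (k (u 8 4 (k v (k (t 24 1 (u 16 4 (k v (k v r)))) r))) (k (c 9 4099 v r) r))))) (k (c 13 4101 r (t 4 1 (u 9 1 (k v (k v r))))) (k (c 9 4101 r (t 4 1 (u 13 1 (k v (k v r))))) (k (c 9 4101 r (t 4 1 (u 13 1 (k v (k v r))))) r)))))))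
 .z .z)) (.s 0x1d2aff00895fd400 4088 (n false (n false (z 120) (n false e e)) (z 156)) (u 3 5 (k r (k r (k (c 7 4099 r (u 5 1 (k r (k r r)))) (k (c 5 4098 r (u 7 1 (k r (k r r)))) (k (c 5 4097 r (u 7 1 (k r (k r r)))) (k (c 5 4099 r (u 7 1 (k r (k r r)))) r)))))))
 (.s 0x1d2afa008a7f7c00 4088 (n false (n false (z 55) e) (n false (z 24) (n false e e))) (c 3 4096 (c 2 4098 r v) r)
 .z .z) .z)) (.s 0x1d2bbe00ae10ee10 4071 (n false (n false (z 52) (n false (n false (n true (n false e e) e) (n false e e)) e)) (n true (n false (n true (n false e e) e) (n false e e)) e)) (u 4 219 (k v (k v (k v (k v (k v (k v (k (t 12 1 (u 8 0 (k v (k v r)))) (k (c 6 4091 v r) (k (c 6 4091 v r) r))))))))))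
 (.s 0x1d2bbe008e5d7400 4090 (n false (n false (z 52) (n false e e)) (n true (z 18) e)) (u 5 0 (k (u 4 71 (k (u 9 0 (k v (k v r))) (k (u 9 0 (k v (k v r))) (k (u 9 0 (k v (k v r))) r)))) r))
 (.s 0x1d2baf00895fd400 4088 (n false (z 156) (n false (z 100) (n false e e))) (u 2 5 (k r (k r (k (c 6 4099 r (u 4 20 (k r (k r (k r r))))) (k (c 4 4098 r (u 6 20 (k r (k r (k r r))))) (k (c 4 4097 r (u 6 1 (k r (k r r)))) (k (c 4 4099 r (u 6 20 (k r (k r (k r r))))) r)))))))
 .z .z) (.s 0x1d2bbe008e7f7e00 4093 (n false (n true (z 119) e) (n false (z 52) (n false e e))) (u 4 20 (k r (k r (k (t 5 1 (t 8 3 r)) (k (t 5 1 r) (k (u 12 1 (k (t 5 1 r) (k (c 28 4097 r (t 5 1 (u 20 0 (k r (k r r))))) r))) (k (c 2 4088 (t 6 2 (u 4 0 (k r r))) r) (k (u 5 269 (k r (k (c 8 4098 r r) (k (c 8 4098 r r) r)))) (k (t 5 1 r) (k (u 8 4 (k (t 5 1 r) (k (c 4 4079 r r) (k (c 24 4099 r r) (k (c 16 4097 r r) r))))) (k r (k (t 5 1 r) (k r r)))))))))))))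
 .z .z)) (.s 0x1d2bfa800aa22888 4090 (n false (n false (z 156) e) (n false (n false (n false (n false e e) (n false e e)) (n false (n false e e) (n false e e))) (n false e e))) (u 4 1 (k v (k (c 12 4099 r (u 8 1 (k v (k v r)))) (k (c 8 4098 r (u 12 1 (k v (k v r)))) (k (c 8 4097 r r) (k (c 8 4099 r (u 12 1 (k v (k v r)))) (k (c 8 4095 r (c 3 4099 v r)) r)))))))
 (.s 0x1d2bbe00ee10ee10 4070 (n false (n false (z 52) (n true (n false (n true (n false e e) e) (n false e e)) e)) (n true (n false (n true (n false e e) e) (n false e e)) e)) (u 4 123 (k v (k v (k v (k v (k v (k v (k (t 12 1 (u 8 0 (k v (k v r)))) (k (c 6 4091 v r) (k (c 6 4091 v r) r))))))))))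
 .z .z) .z))))

set_option maxRecDepth 100000 in
def N108 : NT :=
(.s 0x1d2bff008aa22888 4093 (n false (n false (z 124) (n false e e)) (n false (n false (n false (n false e e) (n false e e)) (n false (n false e e) (n false e e))) (n false e e))) (u 4 1 (k v (k (c 12 4097 r (u 8 1 (k v (k v r)))) (k (c 12 4096 r (u 8 1 (k v (k v r)))) (k (c 8 4098 r (u 12 0 (k v (k v r)))) (k (c 12 4096 r (u 8 1 (k v (k v r)))) (k (c 12 4097 r (u 8 1 (k v (k v r)))) (k (c 12 4097 r (u 8 1 (k v (k v r)))) (k (c 12 4096 r (u 8 1 (k v (k v r)))) (k (c 12 4099 r (u 8 1 (k v (k v r)))) (k (c 8 4097 r (u 12 1 (k v (k v r)))) r)))))))))))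
 (.s 0x1d2bfa8013bbb008 4083 (n false (n false (z 156) (z 85)) (n false e e)) (u 4 1 (k r (k (c 12 4099 r (u 8 1 (k r (k r r)))) (k (c 8 4098 r (u 12 1 (k r (k r r)))) (k (c 8 4097 r r) (k (c 8 4099 r (u 12 1 (k r (k r r)))) (k (c 8 4095 r (t 6 1 r)) r)))))))
 (.s 0x1d2bfa8012ebe008 4086 (n false (n false (z 50) (z 156)) (n false e e)) (u 4 1 (k r (k (c 12 4097 r (u 6 1 (k (u 8 0 (k v (k v r))) (k (c 14 4099 r r) (k (c 10 4098 r r) (k (c 10 4097 r r) (k (c 10 4099 r r) (k (c 10 4095 r (c 8 4097 r r)) r)))))))) r)))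
 (.s 0x1d2bfa8012bfa800 4092 (n false (n false (z 156) (z 156)) e) (u 4 1 (k r (k (c 12 4099 r (u 8 1 (k r (k r r)))) (k (c 8 4098 r (u 12 1 (k r (k r r)))) (k (c 8 4097 r (u 12 1 (k r (k r r)))) (k (c 8 4099 r (u 12 1 (k r (k r r)))) (k (c 8 4095 r (t 6 1 r)) r)))))))
 (.s 0x1d2bfa8012aff008 4094 (n false (n false (z 120) (z 156)) (n false e e)) (u 6 1 (k r (k (c 14 4099 r (u 10 1 (k r (k r r)))) (k (c 10 4098 r (u 14 1 (k r (k r r)))) (k (c 10 4097 r (t 4 2 r)) (k (c 10 4099 r (u 14 1 (k r (k r r)))) (k (c 10 4095 r (c 2 4096 r v)) r)))))))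
 .z .z) (.s 0x1d2bfa8012bff008 4083 (n false (n false (z 124) (z 156)) (n false e e)) (u 6 1 (k r (k (c 14 4099 r r) (k (c 10 4098 r r) (k (c 10 4097 r (u 14 1 (k r (k r r)))) (k (c 10 4099 r r) (k (c 10 4095 r (t 4 1 r)) r)))))))
 .z .z)) (.s 0x1d2bfa8013afb008 4091 (n false (n false (z 89) (z 156)) (n false e e)) (u 6 3 (k (c 2 4081 r v) (k (c 2 4071 (u 2 12 (k v (k v r))) v) (k (c 14 4099 r r) r))))
 (.s 0x1d2bfa8012fee008 4085 (n false (n false (z 156) (z 46)) (n false e e)) (u 4 1 (k r (k (c 12 4099 r (u 8 1 (k r (k r r)))) (k (c 8 4098 r (u 12 1 (k r (k r r)))) (k (c 8 4097 r r) (k (c 8 4099 r (u 12 1 (k r (k r r)))) (k (c 8 4095 r (t 6 1 r)) r)))))))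
 .z .z) (.s 0x1d2bfa8013bae008 4086 (n false (n false (z 156) (z 37)) (n false e e)) (u 4 1 (k r (k (c 12 4099 r (u 8 1 (k r (k r r)))) (k (c 8 4098 r (u 12 1 (k r (k r r)))) (k (c 8 4097 r (u 12 1 (k r (k r r)))) (k (c 8 4099 r (u 12 1 (k r (k r r)))) (k (c 8 4095 r (t 6 1 r)) r)))))))
 .z .z))) (.s 0x1d2bfa801708ee10 4075 (n false (n false (z 156) (n false (n true (n false e e) e) (n false e e))) (n true (n false (n true (n false e e) e) (n false e e)) e)) (u 4 8 (k v (k v (k (c 12 4099 r (u 8 1 (k v (k v r)))) (k (c 8 4098 r (u 12 1 (k v (k v r)))) (k (c 8 4097 r (u 12 1 (k v (k v r)))) (k (c 8 4099 r (u 12 1 (k v (k v r)))) r)))))))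
 (.s 0x1d2bfa8013fab008 4083 (n false (n false (z 156) (z 71)) (n false e e)) (u 6 1 (k r (k (c 14 4099 r r) (k (u 4 19 (k r (k (u 10 0 (k v (k v r))) (k (c 12 4099 r r) (k (c 8 4099 r r) (k (c 8 4095 r (c 10 4103 r r)) r)))))) (k (c 10 4099 r r) (k (c 10 4099 r r) (k (c 10 4099 r r) r)))))))
 (.s 0x1d2bfa8013eab008 4093 (n false (n false (z 67) (z 156)) (n false e e)) (u 6 1 (k r (k (c 14 4099 r (u 10 1 (k r (k r r)))) (k (c 10 4098 r (u 14 1 (k r (k r r)))) (k (c 10 4097 r (t 4 2 r)) (k (c 10 4099 r (u 14 1 (k r (k r r)))) (k (c 10 4095 r (c 2 4096 r v)) r)))))))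
 .z .z) (.s 0x1d2bfa801708ae10 4076 (n false (n false (z 156) (n false (n true (n false e e) e) (n false e e))) (n false (n false (n true (n false e e) e) (n false e e)) e)) (u 4 8 (k v (k v (k (c 12 4099 r (u 8 1 (k v (k v r)))) (k (c 8 4098 r (u 12 1 (k v (k v r)))) (k (c 8 4097 r (u 12 1 (k v (k v r)))) (k (c 8 4099 r (u 12 1 (k v (k v r)))) r)))))))
 .z .z)) (.s 0x1d2bfa801dc21d10 4066 (n false (n false (z 156) (n true (n false (n true (n false e e) e) (n false e e)) e)) (n true (n false (n false e e) (n false e e)) e)) (u 4 1 (k v (k (c 12 4099 r (u 8 1 (k v (k v r)))) (k (c 8 4098 r (u 12 1 (k v (k v r)))) (k (c 8 4097 r (u 12 1 (k v (k v r)))) (k (c 8 4099 r (u 12 1 (k v (k v r)))) (k (c 8 4095 r (u 12 0 (k v (k v r)))) r)))))))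
 (.s 0x1d2bfa801dc21708 4068 (n false (n false (z 156) (n true (n false (n true (n false e e) e) (n false e e)) e)) (n false (n true (n false e e) e) (n false e e))) (u 4 0 (k v (k (c 12 4099 r (u 8 0 (k v (k v r)))) r)))
 .z .z) .z))) (.s 0x1d2eee008a7d5600 4090 (n false (n false (z 42) (n false e e)) (n false (z 67) e)) (u 5 64 (k r (k r (k r (k (c 13 4101 r (t 4 1 (u 9 1 (k v (k v r))))) (k (c 9 4101 r (t 4 1 (u 13 1 (k v (k v r))))) (k (c 9 4101 r (t 4 1 (u 13 1 (k v (k v r))))) r)))))))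
 (.s 0x1d2eee0089555400 4088 (n false (n false (z 42) (n false e e)) (z 128)) (u 4 11 (k r (k r (k (c 3 4097 r (t 12 1 (u 8 0 (k r r)))) r))))
 (.s 0x1d2bff0095df0050 4075 (n false (n false (z 52) (z 124)) (n false (n false e e) e)) (u 6 5 (k r (k (c 14 4097 r r) (k (c 14 4096 r r) (k (c 10 4098 r r) (k (c 14 4096 r r) (k (c 14 4097 r r) (k (c 14 4097 r r) (k (c 14 4096 r r) (k (c 10 4097 r r) r))))))))))
 (.s 0x1d2bff0095570050 4075 (n false (n false (z 124) (z 32)) (n false (n false e e) e)) (u 6 0 (k (t 10 3 (t 14 1 (u 4 5 (k v (k (c 12 4097 r (u 8 1 (k v (k v r)))) (k (c 12 4096 r (u 8 1 (k v (k v r)))) (k (c 8 4098 r (u 12 0 (k v (k v r)))) (k (c 12 4096 r (u 8 1 (k v (k v r)))) (k (c 12 4097 r (u 8 1 (k v (k v r)))) (k (c 12 4097 r (u 8 1 (k v (k v r)))) (k (c 12 4096 r (u 8 1 (k v (k v r)))) (k (c 8 4097 r (u 12 1 (k v (k v r)))) r)))))))))))) r))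
 .z .z) (.s 0x1d2ebe008aa22888 4091 (n false (n false (z 50) (n false e e)) (n false (n false (n false (n false e e) (n false e e)) (n false (n false e e) (n false e e))) (n false e e))) (u 4 1 (k v (k (c 12 4097 r (u 8 0 (k v (k v r)))) r)))
 .z .z)) (.s 0x1d2eee008a55fe00 4088 (n false (n false (z 120) e) (n false (z 42) (n false e e))) (u 4 31 (k r (k r (k r (k (t 5 1 v) (k (c 2 4088 (t 6 1 r) r) (k (c 12 4099 r (t 5 1 (u 8 1 (k v (k v r))))) (k (c 8 4098 r (t 5 1 (u 12 1 (k v (k v r))))) (k (c 8 4101 r (t 5 1 (u 12 0 (k v (k v r))))) (k (c 12 4099 r (t 5 1 (u 8 1 (k v (k v r))))) (k (c 8 4101 r (t 5 1 (u 12 0 (k v (k v r))))) r)))))))))))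
 (.s 0x1d2eee00895fd400 4091 (n false (z 156) (n false (z 42) (n false e e))) (u 5 11 (k r (k r (k (c 2 4101 r (t 13 1 (u 9 0 (k r r)))) r))))
 .z .z) .z)) (.s 0x1d2eee008e7d5c00 4090 (n false (n false (z 42) (n false e e)) (n true (z 35) e)) (u 4 54 (k r (k r (k r (k (c 5 4096 r v) r)))))
 (.s 0x1d2eee008e5d7c00 4090 (n false (n true (z 50) e) (n false (z 42) (n false e e))) (u 4 2 (k (c 2 4094 v r) (k (c 8 4097 r (u 12 0 (k r (k r r)))) r)))
 (.s 0x1d2eee008e555c00 4090 (n false (n false (z 42) (n false e e)) (n true (z 32) e)) (u 4 54 (k (u 5 0 (k (t 9 3 (t 13 1 v)) r)) (k (u 5 0 (k (t 9 3 (t 13 1 v)) r)) (k (u 5 0 (k (t 9 3 (t 13 1 v)) r)) (k (c 5 4096 r v) r)))))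
 .z .z) (.s 0x1d2eee008e5fdc00 4086 (n false (n false (z 42) (n false e e)) (n true (z 46) e)) (u 5 2 (k r (k (c 13 4099 r (u 9 0 (k r (k r r)))) (k (u 9 1 (k r (k r r))) (k (u 4 52 (k (u 9 1 (k v (k v r))) (k (u 9 0 (k v (k v r))) (k r (k r (k r (k r r))))))) (k (c 13 4097 r (u 9 1 (k r (k r r)))) (k (c 9 4095 r (u 13 1 (k r (k r r)))) r)))))))
 .z .z)) (.s 0x1d2eee008e7f7e00 4089 (n false (n false (z 42) (n false e e)) (n true (z 119) e)) (u 4 11 (k r (k r (k (c 2 4086 (t 6 1 (u 4 0 (k r r))) (c 5 4101 r v)) r))))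
 (.s 0x1d2eee008e7dfe00 4090 (n false (n true (z 123) e) (n false (z 42) (n false e e))) (u 5 11 (k r (k r (k (c 2 4099 (t 2 2 v) (t 13 1 (u 9 0 (k r r)))) r))))
 .z .z) .z))))

set_option maxRecDepth 100000 in
def N109 : NT :=
(.s 0x1d3eab00895fd400 4086 (n false (n false (z 67) (n false e e)) (z 156)) (u 3 1 (k r (k (c 7 4099 r (u 5 1 (k r (k r r)))) (k (c 5 4098 r (u 7 1 (k r (k r r)))) (k (c 5 4097 r (u 7 1 (k r (k r r)))) (k (c 5 4099 r (u 7 1 (k r (k r r)))) (k (c 5 4095 r (u 7 0 (k r (k r r)))) r)))))))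
 (.s 0x1d3afb008e7f7600 4085 (n false (n true (z 87) e) (n false (z 89) (n false e e))) (u 5 43 (k (u 4 1 (k v (k v r))) (k (u 4 1 (k v (k v r))) (k (u 4 1 (k v (k v r))) r))))
 (.s 0x1d2fee00a888ee10 4082 (n false (n false (z 46) (n false (n false (n false e e) (n false e e)) (n false e e))) (n true (n false (n true (n false e e) e) (n false e e)) e)) (u 4 2 (k v (k (c 12 4099 r (u 8 0 (k v (k v r)))) (k (u 8 1 (k v (k v r))) (k (c 6 4091 v (u 8 15 (k v (k v (k v r))))) (k (c 12 4097 r (u 8 1 (k v (k v r)))) (k (c 8 4095 r (u 12 1 (k v (k v r)))) r)))))))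
 (.s 0x1d2fee008aa22888 4093 (n false (n false (z 46) (n false e e)) (n false (n false (n false (n false e e) (n false e e)) (n false (n false e e) (n false e e))) (n false e e))) (u 4 1 (k v (k r (k (c 12 4099 r (u 8 0 (k v (k v r)))) (k (c 3 4099 v r) (k (c 12 4097 r r) (k (c 8 4095 r r) r)))))))
 (.s 0x1d2efa00895fd400 4087 (n false (z 156) (n false (z 26) (n false e e))) (u 5 2 (k r (k (c 2 4101 r (u 9 1 (k v (k v r)))) r)))
 .z .z) (.s 0x1d2fee0095df0050 4075 (n false (n false (z 46) (z 52)) (n false (n false e e) e)) (u 4 1 (k r (k r (k (c 12 4099 r r) (k (u 8 1 (k r (k (u 6 138 (k v (k v (k v r)))) r))) (k (c 12 4097 r r) (k (c 8 4095 r r) r)))))))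
 .z .z)) (.s 0x1d3aae8012bea008 4088 (n false (n false (z 161) (z 12)) (n false e e)) (t 6 2 (u 4 1 (k (c 12 4099 r (u 8 3 (k r (k r (k (t 24 1 r) (k r r)))))) (k r r))))
 (.s 0x1d2fee00e82a2288 4083 (n false (n false (z 46) (n true (n false (n false e e) e) e)) (n false (n false (n false e e) (n false e e)) (n false (n false e e) (n false e e)))) (u 4 17 (k v (k v (k (u 8 1 (k v (k v r))) (k (u 8 1 (k v (k v r))) (k (c 12 4097 r (u 8 1 (k v (k v r)))) (k (c 8 4095 r (u 12 1 (k v (k v r)))) r)))))))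
 .z .z) (.s 0x1d3aeb0095570070 4086 (n false (n false (z 73) (z 32)) (n true (n false e e) e)) (c 3 4094 v (t 6 2 (u 4 0 (k r r))))
 .z .z))) (.s 0x1d3bae00e13eae00 4086 (n false (n false (z 37) (n true (n false e e) e)) (z 35)) (u 3 2 (k r (k r (k (t 4 1 v) (k (t 7 1 (u 5 0 (k (t 9 3 (t 13 1 r)) r))) r)))))
 (.s 0x1d3aff00e82a2288 4081 (n false (n false (z 121) (n true (n false (n false e e) e) e)) (n false (n false (n false e e) (n false e e)) (n false (n false e e) (n false e e)))) (u 4 19 (k v (k v (k (c 8 4097 r (u 12 1 (k v (k v r)))) (k (c 8 4095 r (u 12 0 (k v (k v r)))) (k (c 8 4095 r (u 12 0 (k v (k v r)))) r))))))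
 (.s 0x1d3aff00a22ee108 4076 (n false (n false (z 121) (n false (n false e e) (n false e e))) (n false (n true (n false (n true (n false e e) e) (n false e e)) e) (n false e e))) (c 9 4092 v (u 4 3 (k v (k v (k (c 12 4099 r (u 8 1 (k v (k v r)))) (k (c 8 4097 r (u 12 1 (k v (k v r)))) r))))))
 .z .z) (.s 0x1d3bae0095df0050 4075 (n false (n false (z 52) (z 37)) (n false (n false e e) e)) (u 6 0 (k (u 4 136 (k v (k v (k v (k v r))))) (k (u 10 0 (k (t 18 3 (t 26 1 (u 4 26 (k v (k v (k v r)))))) r)) (k (u 10 0 (k (t 18 3 (t 26 1 (u 4 136 (k v (k v (k v (k v r))))))) r)) (k r (k r (k r r)))))))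
 .z .z)) (.s 0x1d3bbb0095570050 4075 (n false (n false (z 85) (z 32)) (n false (n false e e) e)) (u 6 0 (k (t 10 3 (t 14 1 (u 4 10 (k (c 12 4099 r r) (k r (k (c 12 4099 r (u 8 5 (k v (k v r)))) (k (u 8 12 (k v (k v r))) (k (c 12 4101 r (u 8 0 (k (t 24 1 (u 16 0 (k (t 32 3 (t 48 3 v)) r))) r))) (k (c 12 4096 r r) (k (c 8 4099 r r) r)))))))))) r))
 (.s 0x1d3bbb008aa22888 4094 (n false (n false (z 85) (n false e e)) (n false (n false (n false (n false e e) (n false e e)) (n false (n false e e) (n false e e))) (n false e e))) (u 4 2 (k v (k (c 3 4099 v r) (k (c 12 4099 r r) (k (c 12 4099 r r) (k (c 12 4099 r (u 8 0 (k v (k v (k v (k (t 24 1 (u 16 2 (k v (k v (k v r))))) r)))))) (k (c 12 4096 r r) (k (c 8 4099 r r) r))))))))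
 .z .z) .z))) (.s 0x1d3eab008ea88a20 4090 (n false (n false (z 67) (n false e e)) (n true (n false (n false (n false (n false e e) (n false e e)) (n false (n false e e) (n false e e))) e) e)) (u 4 57 (k v (k (c 12 4099 r (u 8 2 (k v (k v r)))) (k (c 8 4099 r (u 12 2 (k v (k v r)))) (k (c 12 4099 r r) (k (c 12 4099 r r) (k (c 12 4099 r r) (k (c 12 4099 r r) r))))))))
 (.s 0x1d3eab008e577c00 4083 (n false (n false (z 67) (n false e e)) (n true (z 52) e)) (u 5 110 (k r (k r (k r (k r (k (c 3 4085 v r) r))))))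
 (.s 0x1d3eab008a7f7c00 4086 (n false (n false (z 67) (n false e e)) (n false (z 55) e)) (u 5 10 (k (u 4 43 (k v (k v (k (c 12 4099 r r) (k (c 12 4097 r r) (k (c 12 4099 r (c 17 4099 v r)) (k (c 17 4099 v r) (k (c 12 4097 r (c 17 4099 v r)) (k (c 12 4099 r (c 17 4099 v r)) (k (c 8 4100 r r) (k (c 12 4099 r r) (k (c 8 4099 r r) (k (c 12 4099 r r) (k (c 8 4099 r r) (k (c 12 4100 r (c 17 4099 v r)) (k (c 12 4100 r r) (k (c 12 4099 r r) (k (c 12 4099 r r) (k (c 12 4100 r r) (k (c 12 4099 r r) r)))))))))))))))))))) (k (t 13 1 (u 4 57 (k r (k (c 12 4099 r r) (k (c 8 4099 r r) (k (c 12 4099 r r) (k (c 12 4099 r r) (k (c 12 4099 r r) (k (c 12 4099 r r) r))))))))) r)))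
 (.s 0x1d3eab008a7d5c00 4086 (n false (n false (z 67) (n false e e)) (n false (z 35) e)) (u 5 2 (k r (k r (k (u 4 114 (k v (k (c 12 4099 r (u 8 2 (k v (k v r)))) (k (c 12 4101 r r) (k (c 12 4099 r (u 8 22 (k v (k v (k v (k v r)))))) (k (c 8 4101 r r) (k (c 12 4099 r (u 8 18 (k v (k v (k v (k v (k (c 24 4099 r (u 16 1 (k v (k v r)))) r))))))) (k (c 8 4101 r r) r)))))))) (k (t 13 1 (u 9 0 (k (t 17 3 (t 25 1 r)) r))) r)))))
 .z .z) (.s 0x1d3eab008e555c00 4088 (n false (n false (z 67) (n false e e)) (n true (z 32) e)) (u 5 0 (k (t 9 3 (t 13 1 (u 4 113 (k v (k v (k v (k (c 12 4099 r r) (k (c 12 4097 r r) (k (c 12 4099 r r) (k r (k (c 12 4097 r r) (k (c 12 4099 r (u 8 1 (k v (k (c 24 4097 r (u 16 0 (k v (k v r)))) r)))) (k (c 12 4099 r (u 8 0 (k (u 16 0 (k v (k v r))) r))) (k (c 8 4099 r r) (k (c 12 4099 r r) (k (c 8 4099 r (u 12 0 (k (u 20 0 (k v (k v r))) r))) (k (c 12 4100 r (c 5 4096 v r)) (k (c 12 4099 r r) (k (c 12 4099 r r) (k (c 12 4099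 r r) r)))))))))))))))))))) r))
 .z .z)) (.s 0x1d3eab008e7d5c00 4088 (n false (n false (z 67) (n false e e)) (n true (z 35) e)) (u 5 1 (k r (k r (k r (k (t 13 1 (u 9 0 (k (t 17 3 (t 25 1 (u 4 89 (k v (k v (k v (k (c 12 4099 r r) (k (c 12 4097 r r) (k (c 12 4099 r r) (k r (k (c 12 4097 r r) (k (c 12 4099 r (u 8 1 (k v (k (c 24 4097 r (u 16 0 (k v (k v r)))) r)))) (k (c 12 4099 r (u 8 0 (k (u 16 0 (k v (k v r))) r))) (k (c 8 4099 r r) (k (c 12 4099 r r) (k (c 8 4099 r (u 12 0 (k (u 20 0 (k v (k v r))) r))) (k (c 12 4100 r (c 5 4096 v r)) (k (c 12 4099 r r) (k (c 12 4099 r r) (k (c 12 4099 r r) r)))))))))))))))))))) r))) r)))))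
 (.s 0x1d3eab008e775c00 4083 (n false (n false (z 67) (n false e e)) (n true (z 37) e)) (u 5 0 (k r (k r (k r (k r (k (u 9 22 (k r (k r (k r r)))) (k (c 3 4088 r r) r)))))))
 .z .z) .z)) (.s 0x1d3ebe0097f70050 4077 (n false (n false (z 51) (z 46)) (n false (n false e e) e)) (t 4 1 (u 6 2 (k v (k (c 14 4099 r (u 10 0 (k v (k v r)))) (k (u 10 1 (k v (k v r))) (k (u 10 1 (k v (k v r))) (k (c 14 4097 r (u 10 1 (k v (k v r)))) (k (c 10 4095 r (u 14 1 (k v (k v r)))) r))))))))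
 (.s 0x1d3eae00ee10ae10 4077 (n false (n false (n true (n false (n true (n false e e) e) (n false e e)) e) (z 35)) (n false (n false (n true (n false e e) e) (n false e e)) e)) (u 6 0 (k v (k v (k (t 14 1 (u 10 0 (k (t 18 3 (t 26 1 v)) r))) r))))
 (.s 0x1d3eab00a88a23e0 4091 (n false (n false (z 67) (n false (n false (n false e e) (n false e e)) (n false (n false e e) (n false e e)))) (n true (n true (n false e e) e) e)) (c 2 4095 (u 2 0 (k v (k v r))) v)
 .z .z) (.s 0x1d3eae00ee10ee10 4075 (n false (n false (n true (n false (n true (n false e e) e) (n false e e)) e) (z 35)) (n true (n false (n true (n false e e) e) (n false e e)) e)) (u 6 10 (k v (k v (k v (k (t 14 1 (u 10 0 (k (t 18 3 (t 26 1 v)) r))) r)))))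
 .z .z)) (.s 0x1d3eee008e5ddc00 4087 (n false (n false (z 43) (n false e e)) (n true (z 42) e)) (u 5 1 (k r (k (u 4 20 (k v (k r (k r (k r (k (c 12 4099 r (u 8 0 (k (u 16 0 (k v (k v r))) r))) (k (u 8 6 (k v (k v (k (u 16 1 (k v (k v r))) (k (c 24 4099 r (u 16 0 (k v (k v r)))) (k (u 16 1 (k v (k v r))) (k (c 24 4097 r (u 16 1 (k v (k v r)))) r))))))) r))))))) r)))
 (.s 0x1d3ebe009d7f8050 4077 (n false (n false (z 51) (z 121)) (n false (n false e e) e)) (t 4 1 (u 6 1 (k v (k (c 14 4099 r (u 10 1 (k v (k v r)))) (k (c 10 4097 r (u 14 1 (k v (k v r)))) (k (c 10 4095 r (u 14 0 (k v (k v r)))) (k (c 10 4095 r (u 14 0 (k v (k v r)))) r)))))))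
 .z .z) .z))))

set_option maxRecDepth 100000 in
def N110 : NT :=
(.s 0x1d4afa80255fe010 4091 (n false (n false (n false (z 120) (z 12)) (n false e e)) e) (t 12 3 (u 8 12 (k v (k r (k (t 24 1 (u 16 7 (k v (k (u 32 0 (k v (k v r))) r)))) (k (c 24 4096 r r) (k r (k r (k (c 24 4099 r (u 16 1 (k v (k v r)))) (k (c 16 4098 r (u 24 1 (k v (k v r)))) (k (c 16 4101 r (u 24 0 (k v (k v r)))) (k r (k (c 24 4099 r (u 16 1 (k v (k v r)))) (k (c 16 4101 r (u 24 0 (k v (k v r)))) r))))))))))))))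
 (.s 0x1d3fab00957f0050 4085 (n false (n false (z 71) (z 56)) (n false (n false e e) e)) (u 4 23 (k r (k (u 6 1 (k (u 10 1 (k v (k v r))) (k (u 10 270 (k v (k v (k v (k v (k v (k v (k v (k v r))))))))) (k (c 10 4096 r (u 14 0 (k v (k v r)))) (k (c 14 4096 r r) r))))) r)))
 (.s 0x1d3efb0095df0050 4075 (n false (n false (z 91) (z 52)) (n false (n false e e) e)) (u 4 5 (k r (k (u 8 1 (k r (k (u 6 138 (k v (k v (k v r)))) r))) (k (c 8 4097 r r) (k (c 8 4097 r r) (k (c 8 4097 r r) (k (c 8 4096 r r) (k (c 8 4095 r r) r))))))))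
 (.s 0x1d3efb008aa22888 4093 (n false (n false (z 91) (n false e e)) (n false (n false (n false (n false e e) (n false e e)) (n false (n false e e) (n false e e))) (n false e e))) (u 4 2 (k v (k v (k (u 8 1 (k v (k v r))) (k (c 8 4097 r (u 12 0 (k v (k v r)))) (k (c 8 4097 r (u 12 0 (k v (k v r)))) (k (c 8 4096 r (u 12 0 (k v (k v r)))) (k (c 8 4095 r (u 12 0 (k v (k v r)))) r))))))))
 (.s 0x1d3eef008e7f5600 4088 (n false (n false (z 107) (n false e e)) (n true (z 71) e)) (u 4 5 (k r (k (c 12 4099 r (u 5 14 (k r (k r (k r (k r r)))))) (k (c 12 4100 r (u 5 14 (k (u 8 0 (k (u 16 0 (k v (k v r))) r)) (k (u 8 0 (k (u 16 0 (k v (k v r))) r)) (k (u 8 0 (k (u 16 0 (k v (k v r))) r)) (k (u 8 0 (k (u 16 0 (k v (k v r))) r)) r)))))) r))))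
 .z .z) (.s 0x1d3efb0095570050 4075 (n false (n false (z 91) (z 32)) (n false (n false e e) e)) (u 6 0 (k (t 10 3 (t 14 1 (u 4 4 (k v (k v (k (u 8 1 (k v (k v r))) (k (c 8 4097 r (u 12 0 (k v (k v r)))) (k (c 8 4097 r (u 12 0 (k v (k v r)))) (k (c 8 4096 r (u 12 0 (k v (k v r)))) (k (c 8 4095 r (u 12 0 (k v (k v r)))) r)))))))))) r))
 .z .z)) (.s 0x1d3faa8012aaa008 4089 (n false (n false (z 135) (z 0)) (n false e e)) (t 6 1 (u 4 0 (k (c 12 4100 r r) (k (c 8 4098 r r) (k (c 12 4100 r r) r)))))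
 (.s 0x1d3eff008aa22888 4091 (n false (n false (z 123) (n false e e)) (n false (n false (n false (n false e e) (n false e e)) (n false (n false e e) (n false e e))) (n false e e))) (u 4 3 (k v (k v (k (c 12 4099 r (u 8 9 (k v (k v (k v (k (t 24 3 (u 16 26 (k v (k v (k v r))))) (k (c 24 4099 r (c 3 4099 v r)) (k (t 24 2 r) (k (c 24 4097 r (c 3 4099 v r)) r))))))))) (k (c 3 4099 v r) (k (c 3 4099 v r) (k (c 3 4099 v r) (k (c 12 4100 r (c 3 4099 v r)) (k (c 12 4097 r (c 3 4099 v r)) r)))))))))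
 .z .z) (.s 0x1d3fab008aa22888 4091 (n false (n false (z 71) (n false e e)) (n false (n false (n false (n false e e) (n false e e)) (n false (n false e e) (n false e e))) (n false e e))) (u 4 8 (k (c 3 4099 v r) (k (c 12 4099 r r) (k (c 3 4099 v r) (k (c 12 4100 r (c 3 4099 v r)) (k (c 12 4100 r (c 3 4099 v r)) (k (c 12 4100 r (c 3 4099 v r)) r)))))))
 .z .z))) (.s 0x1d4aab8013bae008 4085 (n false (n false (n false (z 32) e) (z 37)) (n false e e)) (u 6 1 (k (u 8 0 (k (t 16 3 (t 24 1 v)) r)) (k (u 8 0 (k (t 16 3 (t 24 1 v)) r)) r)))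
 (.s 0x1d4aaaa004eeb800 4089 (n false (n false (n false (z 128) (z 37)) e) e) (u 12 7 (k r (k (u 20 7 (k r (k (c 4 4087 r v) (k r (k (c 8 4097 r v) r))))) (k (u 20 34 (k r (k r (k (c 4 4088 r v) (k (c 8 4097 r v) r))))) (k (u 20 9 (k (c 4 4080 r v) (k r r))) r)))))
 (.s 0x1d3fea8013aff008 4088 (n false (n false (z 143) (z 121)) (n false e e)) (u 4 4 (k (c 2 4085 r v) (k (c 8 4099 r r) (k (c 8 4098 r r) (k (t 8 2 (c 2 4087 (u 6 2 (k r (k r r))) v)) (k (c 8 4099 r r) r))))))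
 .z .z) (.s 0x1d4aab80112bbe00 4088 (n false (z 52) (n false (n false (z 32) e) (n false e e))) (u 9 0 (k (t 17 3 (t 25 1 (u 2 206 (k v (k v (k v (k v (k v (k v (k (c 9 4096 v r) r)))))))))) r))
 .z .z)) (.s 0x1d4aef8013eab008 4093 (n false (n false (z 67) (n false (z 52) e)) (n false e e)) (u 4 48 (k (u 10 99 (k v (k v (k v r)))) (k (u 10 121 (k v (k v (k v (k v (k v (k v (k (t 26 1 (u 18 0 (k v (k v r)))) r)))))))) (k (c 2 4094 (c 3 4096 r v) v) (k (c 8 4101 r r) (k (c 6 4096 r (c 2 4088 r v)) (k (c 8 4099 r r) (k (c 12 4101 r r) (k (c 12 4102 r r) (k (c 8 4101 r r) (k (c 8 4101 r r) r)))))))))))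
 (.s 0x1d4aaf80217dc208 4073 (n false (n false (n false (z 48) (n false e e)) e) (n false (n true (n true (n false (n true (n false e e) e) (n false e e)) e) e) (n false e e))) (u 8 16 (k v (k v (k (c 9 4091 v r) r))))
 .z .z) .z))) (.s 0x1d4fab8014fab800 4091 (n false (n false (n false (z 35) e) (n false (z 35) e)) e) (u 8 26 (k (c 10 4096 r v) (k (u 10 2 (k v (k v (k v (k (t 26 1 (u 18 0 (k (t 34 3 (t 50 1 v)) r))) r))))) (k (c 10 4096 r v) (k (t 24 1 (u 10 40 (k (u 16 0 (k (t 32 3 (t 48 1 v)) r)) (k (c 8 4096 (c 2 4098 r v) v) (k (c 8 4096 (c 2 4098 r v) v) (k (t 26 1 (u 16 0 (k (t 32 3 (t 48 1 (u 18 0 (k (t 34 3 (t 50 1 v)) r)))) r))) r)))))) r)))))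
 (.s 0x1d4eaba004afa800 4091 (n false (n false (n false (z 161) (z 12)) e) e) (t 12 2 (u 8 1 (k (c 24 4099 r (u 16 3 (k r (k r (k (t 48 1 r) (k r r)))))) (k r r))))
 (.s 0x1d4afea004baf800 4091 (n false (n false (n false (z 156) (z 50)) e) e) (u 8 8 (k (u 12 1 (k v (k (c 28 4097 r (u 20 0 (k v (k v r)))) r))) (k (c 12 4097 r v) (k (c 24 4099 r r) (k (c 16 4098 r r) (k (c 16 4097 r (t 12 1 r)) (k (c 16 4099 r r) r)))))))
 (.s 0x1d4afea004afa800 4091 (n false (n false (n false (z 156) (z 12)) e) e) (t 12 3 (u 8 1 (k v (k (c 24 4099 r (u 16 1 (k v (k v r)))) (k (c 16 4098 r (u 24 1 (k v (k v r)))) (k (c 16 4097 r (u 24 1 (k v (k v r)))) (k (c 16 4099 r (u 24 1 (k v (k v r)))) (k (c 16 4095 r (u 24 0 (k v (k v r)))) r))))))))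
 .z .z) (.s 0x1d4bbb8021d44510 4085 (n false (n false (n false (z 42) (n false e e)) e) (n true (n false (n false (n false e e) (n false e e)) (n false (n false e e) (n false e e))) e)) (u 8 36 (k v (k v (k (u 16 2 (k v (k v r))) (k (u 16 5 (k v (k (u 32 20 (k v (k v (k v (k v r))))) (k (c 48 4096 r (u 32 1 (k v (k v r)))) r)))) (k (u 16 21 (k v (k v (k v (k (c 32 4097 r (u 48 1 (k v (k v r)))) r))))) (k (u 16 8 (k v (k v (k (c 48 4099 r (u 32 1 (k v (k v r)))) (k (c 32 4098 r (u 48 1 (k v (k v r)))) (k (c 32 4097 r (u 48 1 (k v (k v r)))) (k (c 32 4099 r (u 48 1 (k v (k v r)))) r))))))) r)))))))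
 .z .z)) (.s 0x1d4fab8013bae008 4085 (n false (n false (n false (z 35) e) (z 37)) (n false e e)) (u 6 0 (k r (k (c 8 4096 r (u 10 0 (k (t 18 3 (t 26 1 v)) r))) (k (c 8 4096 r (u 10 0 (k (t 18 3 (t 26 1 v)) r))) (k r (k r (k (c 8 4096 r r) r)))))))
 (.s 0x1d4ebec014bbb800 4091 (n false (n false (n false (z 89) e) (n false (z 42) e)) e) (u 8 2 (k (u 10 1 (k v (k v r))) (k (u 10 1 (k v (k v r))) (k (u 10 4 (k v (k v r))) (k (t 24 2 (u 16 6 (k (u 10 1 (k v (k v r))) (k (u 10 4 (k v (k v r))) (k (t 48 1 (u 32 2 (k (c 32 4094 v (u 10 1 (k v (k v r)))) (k (u 10 4 (k v (k v r))) r)))) r))))) r)))))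
 .z .z) .z)) (.s 0x1d4feac011d44510 4084 (n false (n false (n false (z 71) e) (n false e e)) (n true (n false (n false (n false e e) (n false e e)) (n false (n false e e) (n false e e))) e)) (u 8 1 (k v (k (c 24 4099 r (u 16 1 (k v (k v r)))) (k (u 16 0 (k v (k v r))) (k (c 16 4099 r (u 24 1 (k v (k v r)))) (k (c 16 4099 r (u 24 1 (k v (k v r)))) (k (c 16 4099 r (u 24 1 (k v (k v r)))) r)))))))
 (.s 0x1d4fab801dc21d10 4072 (n false (n false (n true (n false (n true (n false e e) e) (n false e e)) e) (n false (z 35) e)) (n true (n false (n false e e) (n false e e)) e)) (u 10 10 (k v (k v (k v (k (t 26 1 (u 18 0 (k (t 34 3 (t 50 1 v)) r))) r)))))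
 (.s 0x1d4fab801708ee10 4075 (n false (n false (n false (z 35) e) (n false (n true (n false e e) e) (n false e e))) (n true (n false (n true (n false e e) e) (n false e e)) e)) (u 8 2 (k v (k v (k v (k (t 24 1 (u 16 0 (k (t 32 3 (t 48 1 v)) r))) r)))))
 .z .z) (.s 0x1d4feac011544510 4088 (n false (n false (n false (z 71) e) (n false e e)) (n false (n false (n false (n false e e) (n false e e)) (n false (n false e e) (n false e e))) e)) (u 8 3 (k v (k v (k (u 16 23 (k v (k v r))) (k (c 16 4099 r (u 24 1 (k v (k v r)))) (k (c 16 4099 r (u 24 1 (k v (k v r)))) (k (c 16 4099 r (u 24 1 (k v (k v r)))) r)))))))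
 .z .z)) (.s 0x1d4fef80112bbe00 4088 (n false (n false (n false (z 55) e) (n false e e)) (z 52)) (u 3 240 (k (u 8 3 (k v (k v r))) (k (u 8 3 (k v (k v r))) (k (u 8 3 (k v (k v r))) (k (c 4 4095 r v) (k (u 8 7 (k v (k v r))) (k (c 8 4096 r v) (k (c 8 4096 r v) (k (c 8 4096 r r) r)))))))))
 (.s 0x1d4fef800aa22888 4087 (n false (n false (n false (z 55) e) e) (n false (n false (n false (n false e e) (n false e e)) (n false (n false e e) (n false e e))) (n false e e))) (u 8 4 (k (t 24 1 (u 16 4 (k v (k v (k (u 32 4 (k v (k (t 96 1 (u 64 2 (k v (k v r)))) r))) (k (u 32 4 (k v (k (t 96 1 (u 64 4 (k v (k v r)))) r))) (k (c 3 4099 v r) (k (c 3 4099 v r) r)))))))) (k (t 24 2 (u 16 2 (k v (k (c 4 4082 (u 8 1 (k v (k v r))) v) r)))) r)))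
 .z .z) .z))))

set_option maxRecDepth 100000 in
def N111 : NT :=
(.s 0x1d54eef8010ee108 4069 (n false (n false (n false (n false (n false (z 53) e) (n false e e)) e) (n true (n false (n true (n false e e) e) (n false e e)) e)) (n false e e)) (u 32 0 (k (t 96 1 (u 64 13 (k v (k v (k v (k (u 128 1 (k v (k v r))) (k (u 128 1 (k v (k v r))) (k (c 192 4097 r (u 128 1 (k v (k v r)))) r)))))))) (k (t 96 1 (u 64 13 (k v (k v (k v (k (u 128 12 (k v (k v r))) (k (c 128 4099 r (u 192 63 (k v (k v (k v (k v (k v r))))))) r))))))) r)))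
 (.s 0x1d53eef0087f7080 4079 (n false (n false (n false (n false (z 107) (n false e e)) e) (n true (n true (n true (n false (n true (n false e e) e) (n false e e)) e) e) e)) e) (u 16 8 (k v (k (c 48 4099 r (u 32 13 (k v (k v (k v (k (c 96 4099 r (u 64 1 (k v (k v r)))) r)))))) r)))
 (.s 0x1d52eee004eeec00 4089 (n false (n false (n false (n false (z 42) e) (z 85)) e) e) (u 16 1 (k (u 12 27 (k v (k v (k (c 8 4091 v r) (k (c 28 4096 r (c 8 4091 v (c 4 4088 r v))) (k (c 20 4099 r (u 28 159 (k v (k v (k v r))))) r)))))) (k (u 12 27 (k v (k v (k (c 8 4093 v r) (k (c 28 4096 r (c 8 4093 v (c 4 4088 r v))) (k (t 28 1 (c 8 4093 v r)) r)))))) r)))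
 (.s 0x1d4fefc0257d4010 4091 (n false (n false (n false (z 119) (z 12)) (n false e e)) e) (t 12 3 (u 8 21 (k v (k (c 24 4101 r r) (k (c 16 4101 r r) (k (c 16 4101 r r) r))))))
 (.s 0x1d4fefc01d05d108 4076 (n false (n false (n false (z 119) e) (n true (n false (n false e e) e) e)) (n false (n true (n false (n false e e) (n false e e)) e) (n false e e))) (u 8 10 (k v (k (c 24 4101 r r) (k (c 16 4101 r r) (k (c 16 4101 r r) r)))))
 .z .z) (.s 0x1d4ffaa004ebfc00 4091 (n false (n false (n false (z 143) (z 121)) e) e) (c 12 4101 r (u 8 1 (k (t 24 2 r) (k (t 24 2 r) (k (t 16 1 r) (k (t 24 1 (c 4 4084 r v)) (k (t 24 2 r) (k (t 24 1 r) r))))))))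
 .z .z)) (.s 0x1d52fee009555000 4090 (n false (n false (n false (n false (z 46) (z 0)) e) e) e) (t 24 1 (u 16 13 (k v (k v (k v (k (c 4 4090 r v) (k (c 4 4090 r v) (k (c 48 4097 r (c 4 4090 r v)) r))))))))
 (.s 0x1d52efa004475c20 4076 (n false (n false (n false (n false (z 26) e) (n false e e)) (n false e e)) (n true (n false (n false (n true (n false e e) e) (n false e e)) e) e)) (u 16 2 (k v (k (c 8 4084 (u 4 1 (k v (k v r))) v) r)))
 .z .z) (.s 0x1d53bbb009555000 4090 (n false (n false (n false (n false (z 85) (z 0)) e) e) e) (t 24 1 (u 16 13 (k v (k v (k v (k (c 4 4088 r v) (k (c 32 4099 r (u 48 78 (k v (k v (k v (k v (k v (k v (k v (k v (k (t 112 2 (u 80 0 (k (u 144 2 (k v (k (c 80 4084 (u 4 1 (k v (k v r))) v) r))) r))) (k (t 112 1 (u 80 0 (k (c 208 4099 r (u 144 2 (k v (k (c 80 4084 (u 4 1 (k v (k v r))) v) r)))) r))) r)))))))))))) r)))))))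
 .z .z))) (.s 0x1d54451114ffac00 4095 (n false (n false (n false (z 79) e) (n false (n false (n false (n false e e) (n false e e)) (n false (n false e e) (n false e e))) (n false e e))) e) (c 10 4101 v (u 8 2 (k v (k (u 16 1 (k v (k (c 48 4099 r (u 32 1 (k v (k v r)))) (k (u 32 0 (k v (k v r))) (k (c 32 4099 r (u 48 1 (k v (k v r)))) (k (c 32 4099 r (u 48 1 (k v (k v r)))) (k (c 32 4099 r (u 48 1 (k v (k v r)))) r))))))) (k (c 16 4100 r (u 24 0 (k (u 40 0 (k v (k v r))) r))) r)))))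
 (.s 0x1d53fab005445110 4085 (n false (n false (n false (n false (z 71) e) (n false (n false (n false e e) (n false e e)) (n false (n false e e) (n false e e)))) (n false e e)) e) (u 16 19 (k v (k v (k v (k (c 48 4099 r (u 32 1 (k v (k v r)))) r)))))
 (.s 0x1d53fab003a88a20 4074 (n false (n false (n false (n false (z 71) e) e) (n true (n false (n false (n false e e) (n false e e)) (n false (n false e e) (n false e e))) e)) e) (u 16 1 (k v (k (c 48 4099 r (u 32 1 (k v (k v r)))) (k (u 32 0 (k v (k v r))) (k (c 32 4099 r (u 48 1 (k v (k v r)))) (k (c 32 4099 r (u 48 1 (k v (k v r)))) (k (c 32 4099 r (u 48 1 (k v (k v r)))) r)))))))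
 .z .z) (.s 0x1d53fbf009f77000 4084 (n false (n false (n false (n false (z 119) (z 43)) e) e) e) (t 24 1 (u 16 1 (k (c 48 4101 r r) (k (c 32 4096 r (u 48 0 (k (t 80 3 (t 112 1 v)) r))) (k (c 32 4096 r r) (k r (k (c 48 4099 r r) (k (c 48 4097 r r) (k (c 32 4102 r (u 48 0 (k (t 80 3 (t 112 1 v)) r))) (k (c 32 4098 r r) (k r (k (c 32 4101 r r) (k (c 32 4099 r r) (k (t 48 1 (u 32 4 (k v (k (c 96 4099 r (u 64 1 (k v (k v r)))) r)))) (k (c 32 4101 r r) r)))))))))))))))
 .z .z)) (.s 0x1d54bffc010ee108 4069 (n false (n false (n false (n false (n false (z 126) e) (n false e e)) e) (n true (n false (n true (n false e e) e) (n false e e)) e)) (n false e e)) (u 32 2 (k v (k (t 96 1 (u 64 21 (k v (k v (k v (k (c 128 4097 r (u 192 1 (k v (k v r)))) r)))))) (k (t 96 1 (u 64 17 (k v (k v (k (c 128 4096 r (u 192 1 (k v (k v r)))) r))))) r))))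
 (.s 0x1d54bffc010e1708 4063 (n false (n false (n false (n false (n false (z 126) e) (n false e e)) e) (n true (n false e e) e)) (n false (n true (n false e e) e) (n false e e))) (u 32 0 (k r (k r (k (t 96 2 (u 64 0 (k (c 192 4096 r r) (k (c 192 4096 r r) (k (c 192 4096 r r) (k (c 192 4096 r r) (k (c 192 4096 r r) r))))))) (k r r)))))
 .z .z) .z))) (.s 0x1d72fee0022a2288 4082 (n false (n false (n false (n true (z 46) e) e) (n false e e)) (n false (n false (n false e e) (n false e e)) (n false (n false e e) (n false e e)))) (u 16 2 (k v (k (c 48 4099 r (u 32 0 (k v (k v r)))) (k (u 32 1 (k v (k v r))) (k (u 32 0 (k v (k v r))) (k (c 48 4097 r (u 32 1 (k v (k v r)))) (k (c 32 4095 r (u 48 1 (k v (k v r)))) r)))))))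
 (.s 0x1d72bbe0022a2288 4082 (n false (n false (n false (n true (z 52) e) e) (n false e e)) (n false (n false (n false e e) (n false e e)) (n false (n false e e) (n false e e)))) (u 16 182 (k v (k v (k v (k v (k v (k v (k v r))))))))
 (.s 0x1d5c21708e577c00 4070 (n false (n false (n false (n false (n true (n false e e) e) (n false e e)) e) (n false (n true (n false e e) e) (n false e e))) (n true (z 52) e)) (u 5 174 (k v (k v (k v (k v (k v (k v (k (t 13 1 (u 9 0 (k v (k v r)))) (k (c 4 4091 v r) (k (c 4 4091 v r) r))))))))))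
 (.s 0x1d554bffc010e088 4073 (n false (n false (n false (n false (n false (n false (n false (z 126) e) (n false e e)) e) (n true (n false e e) e)) e) (n false e e)) (n false e e)) (c 24 4094 v (u 128 4 (k v (k (t 384 1 (u 256 1 (k v (k (c 768 4099 r (u 512 1 (k v (k v r)))) (k (c 512 4097 r (u 768 1 (k v (k v r)))) (k (c 512 4095 r (u 768 23 (k v (k v r)))) (k (c 512 4095 r (u 768 23 (k v (k v r)))) r))))))) (k (t 384 1 (u 256 60 (k v (k v (k (c 768 4099 r (u 512 5 (k v (k v (k v (k (t 1536 3 (u 1024 64 (k v (k v (k v (k v r)))))) r)))))) (k (u 512 67 (k v (k v (k v (k (c 1536 4101 r r) (k (c 1024 4101 r r) (k (c 1024 4101 r r) r))))))) r)))))) r)))))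
 .z .z) (.s 0x1d5c21708e7f7c00 4071 (n false (n false (n false (n false (n true (n false e e) e) (n false e e)) e) (n false (n true (n false e e) e) (n false e e))) (n true (z 55) e)) (u 5 4 (k (t 13 1 (u 9 38 (k v (k v (k (t 17 3 (t 25 1 v)) (k (u 17 2 (k v (k v r))) (k (c 4 4091 v r) (k (c 4 4091 v r) r)))))))) (k (c 4 4091 v (t 13 2 r)) r)))
 .z .z)) (.s 0x1d72efb0022a2288 4084 (n false (n false (n false (n true (z 90) e) e) (n false e e)) (n false (n false (n false e e) (n false e e)) (n false (n false e e) (n false e e)))) (u 16 10 (k v (k v (k (u 32 43 (k v (k v (k v r)))) (k (u 32 7 (k v (k (u 64 8 (k v (k v r))) r))) (k (c 48 4096 r r) (k (u 32 6 (k v (k v (k (c 96 4097 r (u 64 1 (k v (k v r)))) (k (c 96 4096 r (u 64 1 (k v (k v r)))) (k (c 96 4097 r (u 64 1 (k v (k v r)))) r)))))) r)))))))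
 (.s 0x1d72eee004affc00 4087 (n false (n false (n false (z 124) (n true (z 42) e)) e) e) (u 8 27 (k r (k (u 20 1 (k v (k v r))) (k (c 24 4097 r r) (k (c 24 4096 r r) (k (c 16 4098 r (u 24 0 (k (u 20 1 (k v (k v r))) (k (u 20 1 (k v (k v r))) r)))) (k (c 24 4096 r r) (k (c 24 4097 r r) (k (c 24 4097 r r) (k (c 24 4096 r r) (k (c 16 4097 r r) r)))))))))))
 .z .z) .z)) (.s 0x1d73aff0022a2288 4082 (n false (n false (n false (n true (z 121) e) e) (n false e e)) (n false (n false (n false e e) (n false e e)) (n false (n false e e) (n false e e)))) (u 16 2 (k v (k v (k (c 48 4099 r (u 32 1 (k v (k v r)))) (k (c 32 4095 r (u 48 0 (k v (k v r)))) (k (c 32 4095 r (u 48 0 (k v (k v r)))) r))))))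
 (.s 0x1d72fee005445110 4082 (n false (n false (n false (n true (z 46) e) (n false (n false (n false e e) (n false e e)) (n false (n false e e) (n false e e)))) (n false e e)) e) (u 16 2 (k v (k (c 48 4099 r (u 32 0 (k v (k v r)))) (k (u 32 1 (k v (k v r))) (k (u 32 26 (k v (k v r))) (k (c 48 4097 r (u 32 1 (k v (k v r)))) (k (c 32 4095 r (u 48 1 (k v (k v r)))) r)))))))
 (.s 0x1d72fee003a88a20 4082 (n false (n false (n false (n true (z 46) e) e) (n true (n false (n false (n false e e) (n false e e)) (n false (n false e e) (n false e e))) e)) e) (u 16 2 (k v (k (c 48 4099 r (u 32 0 (k v (k v r)))) (k (u 32 1 (k v (k v r))) (k (u 32 26 (k v (k v r))) (k (c 48 4097 r (u 32 1 (k v (k v r)))) (k (c 32 4095 r (u 48 1 (k v (k v r)))) r)))))))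
 .z .z) (.s 0x1d73afb004affc00 4084 (n false (n false (n false (z 124) (n true (z 89) e)) e) e) (u 8 27 (k r (k (u 20 12 (k v (k v r))) (k (c 24 4097 r r) (k (c 24 4096 r r) (k (c 16 4098 r (u 24 0 (k (u 20 12 (k v (k v r))) (k (u 20 12 (k v (k v r))) r)))) (k (c 24 4096 r r) (k (c 24 4097 r r) (k (c 24 4097 r r) (k (c 24 4096 r r) (k (c 16 4097 r r) r)))))))))))
 .z .z)) (.s 0x1d73aff005445110 4083 (n false (n false (n false (n true (z 121) e) (n false (n false (n false e e) (n false e e)) (n false (n false e e) (n false e e)))) (n false e e)) e) (u 16 2 (k v (k v (k (c 48 4099 r (u 32 1 (k v (k v r)))) (k (c 32 4095 r (u 48 0 (k v (k v r)))) (k (c 32 4095 r (u 48 0 (k v (k v r)))) r))))))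
 (.s 0x1d73aff003a88a20 4082 (n false (n false (n false (n true (z 121) e) e) (n true (n false (n false (n false e e) (n false e e)) (n false (n false e e) (n false e e))) e)) e) (u 16 2 (k v (k v (k (c 48 4099 r (u 32 1 (k v (k v r)))) (k (c 32 4095 r (u 48 0 (k v (k v r)))) (k (c 32 4095 r (u 48 0 (k v (k v r)))) r))))))
 .z .z) .z))))

set_option maxRecDepth 100000 in
def N112 : NT :=
(.s 0x1dcaef80112bbe00 4086 (n false (z 52) (n false (n true (z 52) e) (n false e e))) (u 2 105 (k r (k r (k r (k r (k (c 9 4097 r v) (k (c 9 4097 r v) (k r (k (u 9 107 (k v (k v (k v (k v (k v (k v r))))))) (k (c 3 4094 (c 2 4096 r v) (t 6 2 r)) (k (c 3 4094 (c 2 4096 r v) (t 6 1 r)) r)))))))))))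
 (.s 0x1d753bbe0043b840 4066 (n false (n false (n false (n true (n false (n false (z 53) e) (n false e e)) e) (n true (n false (n true (n false e e) e) (n false e e)) e)) e) e) (u 64 0 (k (t 192 1 (u 128 1 (k v (k (u 256 1 (k v (k v r))) (k (c 384 4099 r (u 256 0 (k v (k v r)))) (k (u 256 1 (k v (k v r))) (k (c 384 4097 r (u 256 1 (k v (k v r)))) (k (c 256 4095 r (u 384 1 (k v (k v r)))) r)))))))) (k (t 192 1 (u 128 32 (k v (k v (k (c 384 4099 r r) (k (u 256 12 (k v (k v r))) (k (c 384 4096 r (c 12 4091 v (c 4 4073 r v))) (k (c 256 4099 r r) r)))))))) r)))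
 (.s 0x1d73fbf003a88a20 4083 (n false (n false (n false (n true (z 119) e) e) (n true (n false (n false (n false e e) (n false e e)) (n false (n false e e) (n false e e))) e)) e) (u 16 18 (k v (k v (k (c 48 4101 r r) (k (c 48 4099 r r) (k (c 48 4097 r r) (k (c 48 4096 r (u 32 0 (k (u 64 75 (k v (k v (k v r)))) r))) (k (c 32 4098 r r) (k (c 32 4101 r r) (k (c 32 4099 r r) (k (c 32 4101 r r) r)))))))))))
 (.s 0x1d73fbb004baf800 4088 (n false (n false (n false (z 50) (n true (z 87) e)) e) e) (u 8 1 (k (u 20 1 (k v (k v r))) (k (c 24 4097 r r) r)))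
 (.s 0x1d73fbb004affc00 4090 (n false (n false (n false (z 124) (n true (z 87) e)) e) e) (u 8 5 (k (u 20 1 (k v (k v r))) (k (c 24 4097 r r) (k (c 24 4096 r r) (k (c 16 4098 r r) (k (c 24 4096 r r) (k (c 24 4097 r r) (k (c 24 4097 r r) (k (c 24 4096 r r) (k (c 16 4097 r r) r))))))))))
 .z .z) (.s 0x1d73fbf0022a2288 4083 (n false (n false (n false (n true (z 119) e) e) (n false e e)) (n false (n false (n false e e) (n false e e)) (n false (n false e e) (n false e e)))) (u 16 23 (k v (k v (k (c 48 4101 r r) (k (c 48 4099 r r) (k (c 48 4097 r r) (k (c 48 4096 r (u 32 0 (k (u 64 0 (k v (k v r))) r))) (k (c 32 4098 r r) (k (c 32 4101 r r) (k (c 32 4099 r r) (k (c 32 4101 r r) r)))))))))))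
 .z .z)) (.s 0x1d75110e0e7d5600 4082 (n false (n false (n false (n true (n false (n false (n false e e) (n false e e)) (n false e e)) e) (n true (n false e e) e)) e) (n true (z 67) e)) (u 5 136 (k v (k v (k v (k v (k (t 13 1 (u 9 1 (k v (k v r)))) (k (u 9 2 (k (t 13 1 v) (k (u 13 0 (k v (k v r))) r))) (k r (k (c 4 4087 v (c 3 4088 r v)) (k (t 13 1 (u 9 0 (k (u 17 0 (k v (k v r))) r))) (k (u 13 2 (k (t 9 1 v) (k (u 9 1 (k v (k v r))) r))) (k r (k (c 8 4090 v (c 12 4094 v r)) (k (c 8 4090 v (c 12 4094 v r)) (k r (k (c 8 4090 v (c 12 4094 v r)) r))))))))))))))))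
 (.s 0x1d73fbf005445110 4083 (n false (n false (n false (n true (z 119) e) (n false (n false (n false e e) (n false e e)) (n false (n false e e) (n false e e)))) (n false e e)) e) (u 16 23 (k v (k v (k (c 48 4101 r r) (k (c 48 4099 r r) (k (c 48 4097 r r) (k (c 48 4096 r (u 32 0 (k (u 64 0 (k v (k v r))) r))) (k (c 32 4098 r r) (k (c 32 4101 r r) (k (c 32 4099 r r) (k (c 32 4101 r r) r)))))))))))
 .z .z) (.s 0x1d752fff0043b840 4066 (n false (n false (n false (n true (n false (n false (z 126) e) (n false e e)) e) (n true (n false (n true (n false e e) e) (n false e e)) e)) e) e) (u 64 0 (k r (k r (k r (k r r)))))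
 .z .z))) (.s 0x1dcaab8013bae008 4087 (n false (n false (n true (z 32) e) (z 37)) (n false e e)) (u 6 1 (k (u 8 0 (k (t 16 3 (t 24 1 v)) r)) (k (u 8 0 (k (t 16 3 (t 24 1 v)) r)) r)))
 (.s 0x1d7cebfc00e0ee10 4079 (n false (n false (n false (n true (n true (z 121) e) e) (n true (n false e e) e)) e) (n true (n false (n true (n false e e) e) (n false e e)) e)) (u 32 2 (k v (k v (k (c 96 4099 r (u 64 1 (k v (k v r)))) (k (c 64 4095 r (u 96 0 (k v (k v r)))) (k (c 64 4095 r (u 96 0 (k v (k v r)))) r))))))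
 (.s 0x1d7cbfb800e0ee10 4079 (n false (n false (n false (n true (n true (z 46) e) e) (n true (n false e e) e)) e) (n true (n false (n true (n false e e) e) (n false e e)) e)) (u 32 3 (k v (k v (k (u 64 1 (k v (k v r))) (k (c 96 4097 r (u 64 1 (k v (k v r)))) (k (c 64 4095 r (u 96 1 (k v (k v r)))) r))))))
 .z .z) (.s 0x1dcaab8013aff008 4085 (n false (n false (z 121) (n true (z 32) e)) (n false e e)) (u 4 1 (k (u 10 0 (k (t 18 3 (t 26 1 v)) r)) (k (c 12 4099 r (u 8 1 (k (u 10 0 (k (t 18 3 (t 26 1 v)) r)) (k (u 10 0 (k (t 18 3 (t 26 1 v)) r)) r)))) (k (c 8 4097 r (c 10 4096 r r)) (k (c 8 4095 r (c 10 4096 r r)) (k (c 8 4095 r (c 10 4096 r r)) r))))))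
 .z .z)) (.s 0x1dcabf80113fab00 4085 (n false (n false (n true (z 56) e) (n false e e)) (z 71)) (u 3 1 (k r (k (c 7 4099 r (u 5 1 (k r (k r r)))) (k (u 5 23 (k r (k (c 3 4094 v r) r))) (k (c 5 4099 r (u 7 1 (k r (k r r)))) (k (c 5 4099 r (u 7 1 (k r (k r r)))) (k (c 5 4099 r (u 7 1 (k r (k r r)))) r)))))))
 (.s 0x1dcaabc0112bbe00 4085 (n false (n false (n true (z 96) e) (n false e e)) (z 52)) (c 3 4097 r (u 8 0 (k (c 24 4099 r (u 16 0 (k (t 48 1 (u 32 2 (k v (k (c 80 4101 v (u 64 2 (k v (k v r)))) r)))) r))) r)))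
 .z .z) .z))) (.s 0x1dcaef8015c21708 4063 (n false (n false (n true (z 52) e) (n false (n false (n true (n false e e) e) (n false e e)) e)) (n false (n true (n false e e) e) (n false e e))) (u 8 382 (k v (k v (k v (k v (k v (k v (k v r))))))))
 (.s 0x1dcaef8014bbb800 4088 (n false (n false (n true (z 52) e) (n false (z 42) e)) e) (u 10 1 (k (u 8 20 (k v (k v (k v (k v (k v (k v (k v (k (c 4 4081 r v) (k (t 24 2 (u 16 0 (k r r))) (k (t 24 1 r) r))))))))))) (k r r)))
 (.s 0x1dcaef8013eab008 4091 (n false (n false (n true (z 52) e) (z 67)) (n false e e)) (u 6 4 (k r (k r (k (c 14 4096 r (c 2 4091 r v)) (k (c 10 4101 r (u 14 0 (k r (k r r)))) (k (c 4 4096 r (c 2 4088 r v)) (k (c 10 4099 r (u 14 0 (k r (k r r)))) (k (c 14 4101 r r) (k (c 14 4102 r r) (k (c 10 4101 r r) (k (c 10 4101 r r) r)))))))))))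
 (.s 0x1dcaef8013bae008 4087 (n false (n false (n true (z 52) e) (z 37)) (n false e e)) (u 8 159 (k r (k r (k (t 6 1 v) r))))
 .z .z) (.s 0x1dcaef8014aab800 4087 (n false (n false (n true (z 52) e) (n false (z 32) e)) e) (u 8 413 (k (u 10 0 (k (t 18 3 (t 26 1 v)) r)) (k (u 10 0 (k (t 18 3 (t 26 1 v)) r)) (k (u 10 0 (k (t 18 3 (t 26 1 v)) r)) (k (u 10 0 (k (t 18 3 (t 26 1 v)) r)) (k (c 10 4096 r v) (k (c 10 4096 r v) (k (u 10 0 (k (t 18 3 (t 26 1 v)) r)) (k (c 10 4096 r r) r)))))))))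
 .z .z)) (.s 0x1dcaef8014fef800 4087 (n false (n false (n false (z 55) e) (n true (z 52) e)) e) (u 10 432 (k (u 8 3 (k v (k v r))) (k (u 8 3 (k v (k v r))) (k (u 8 7 (k v (k v r))) (k (u 8 3 (k v (k v r))) (k (c 8 4096 r v) (k (c 8 4096 r v) (k (c 4 4095 r v) (k (c 8 4096 r v) (k (c 8 4096 r r) r))))))))))
 (.s 0x1dcaef8014ebec00 4088 (n false (n false (n false (z 89) e) (n true (z 52) e)) e) (u 10 7 (k r (k r (k r (k (c 4 4097 r v) (k (c 8 4098 r v) (k (u 8 4 (k v (k v (k v r)))) (k (u 8 5 (k v (k v (k v (k (t 24 2 (u 16 6 (k v (k v (k (t 48 1 (u 32 2 (k v (k v r)))) r))))) r))))) (k (t 26 2 (u 18 0 (k (u 8 6 (k r (k (u 34 4 (k v (k (c 10 4088 r v) r))) r))) r))) (k (t 26 1 r) r))))))))))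
 .z .z) .z)) (.s 0x1dcafea0022a2288 4085 (n false (n false (n true (z 156) e) (n false e e)) (n false (n false (n false e e) (n false e e)) (n false (n false e e) (n false e e)))) (u 8 8 (k v (k v (k (c 24 4099 r (u 16 1 (k v (k v r)))) (k (c 16 4098 r (u 24 1 (k v (k v r)))) (k (c 16 4097 r (u 24 1 (k v (k v r)))) (k (c 16 4099 r (u 24 1 (k v (k v r)))) r)))))))
 (.s 0x1dcaef801dc21708 4061 (n false (n false (n true (z 52) e) (n true (n false (n true (n false e e) e) (n false e e)) e)) (n false (n true (n false e e) e) (n false e e))) (u 8 351 (k v (k v (k v (k v (k v (k v (k v r))))))))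
 (.s 0x1dcaef801caef800 4083 (n false (n false (n true (z 52) e) (n true (z 52) e)) e) (u 8 15 (k r (k r (k r (k r (k r (k (u 10 16 (k v (k v (k v (k v (k v r)))))) (k (c 10 4097 r v) (k r (k r (k r r)))))))))))
 .z .z) (.s 0x1dcaef801dc21d10 4069 (n false (n false (n true (z 52) e) (n true (n false (n true (n false e e) e) (n false e e)) e)) (n true (n false (n false e e) (n false e e)) e)) (u 8 63 (k v (k v (k v (k v (k v r))))))
 .z .z)) (.s 0x1dcafea00387dc20 4075 (n false (n false (n true (z 156) e) (n true (n false e e) e)) (n true (n true (n false (n true (n false e e) e) (n false e e)) e) e)) (u 8 8 (k v (k v (k (c 24 4099 r (u 16 1 (k v (k v r)))) (k (c 16 4098 r (u 24 1 (k v (k v r)))) (k (c 16 4097 r (u 24 1 (k v (k v r)))) (k (c 16 4099 r (u 24 1 (k v (k v r)))) r)))))))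
 (.s 0x1dcafea0023fe880 4077 (n false (n false (n true (z 156) e) (n false e e)) (n true (n true (n true (n true (n false (n false e e) (n false e e)) e) e) e) e)) (u 8 20 (k v (k v (k v (k (c 24 4099 r (u 16 1 (k v (k v r)))) (k (c 16 4099 r (u 24 1 (k v (k v r)))) r))))))
 .z .z) .z))))

set_option maxRecDepth 100000 in
def N113 : NT :=
(.s 0x1dcbbec011544510 4085 (n false (n false (n true (z 90) e) (n false e e)) (n false (n false (n false (n false e e) (n false e e)) (n false (n false e e) (n false e e))) e)) (u 8 14 (k v (k v (k (u 16 65 (k v (k v (k v (k (c 32 4099 r (u 48 215 (k v (k v (k v (k v r)))))) r))))) (k (c 24 4096 r r) (k (c 24 4097 r r) (k (u 16 10 (k v (k v (k (c 48 4097 r (u 32 6 (k v (k v (k v r))))) (k (c 48 4097 r (u 32 6 (k v (k v (k v r))))) r))))) (k (c 24 4095 r r) (k (c 16 4095 r r) r)))))))))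
 (.s 0x1dcbbb8013aff008 4079 (n false (n false (z 121) (n true (z 42) e)) (n false e e)) (u 4 1 (k (u 10 1 (k v (k v r))) (k (c 12 4099 r r) (k (c 8 4097 r r) (k (c 8 4095 r (c 10 4100 r r)) (k (c 8 4095 r (c 10 4100 r r)) r))))))
 (.s 0x1dcbabc013bae008 4087 (n false (n false (n true (z 98) e) (z 37)) (n false e e)) (u 6 0 (k (u 8 1 (k v (k v (k v (k (t 24 1 (u 16 4 (k v (k v r)))) r))))) (k (c 8 4095 r (u 10 0 (k (t 18 3 (t 26 1 v)) r))) (k (c 8 4095 r (u 10 0 (k (t 18 3 (t 26 1 v)) r))) (k r (k r (k (c 8 4095 r r) r)))))))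
 (.s 0x1dcaffc011544510 4085 (n false (n false (n true (z 124) e) (n false e e)) (n false (n false (n false (n false e e) (n false e e)) (n false (n false e e) (n false e e))) e)) (u 8 5 (k v (k (c 24 4097 r (u 16 1 (k v (k v r)))) (k (c 24 4096 r (u 16 1 (k v (k v r)))) (k (c 16 4098 r (u 24 0 (k v (k v r)))) (k (c 24 4096 r (u 16 1 (k v (k v r)))) (k (c 24 4097 r (u 16 1 (k v (k v r)))) (k (c 24 4097 r (u 16 1 (k v (k v r)))) (k (c 24 4096 r (u 16 1 (k v (k v r)))) (k (c 16 4097 r (u 24 1 (k v (k v r)))) r))))))))))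
 (.s 0x1dcaffc00e7d5600 4093 (n false (n false (n true (z 124) e) e) (n true (z 67) e)) (u 8 5 (k r (k (c 24 4097 r (u 16 1 (k r (k r r)))) (k (c 24 4096 r (u 16 1 (k r (k r r)))) (k (c 16 4098 r (u 24 0 (k r (k r r)))) (k (c 24 4096 r (u 16 1 (k r (k r r)))) (k (c 24 4097 r (u 16 1 (k r (k r r)))) (k (c 24 4097 r (u 16 1 (k r (k r r)))) (k (c 24 4096 r (u 16 1 (k r (k r r)))) (k (c 16 4097 r (u 24 1 (k r (k r r)))) r))))))))))
 .z .z) (.s 0x1dcaffc011d44510 4083 (n false (n false (n true (z 124) e) (n false e e)) (n true (n false (n false (n false e e) (n false e e)) (n false (n false e e) (n false e e))) e)) (u 8 4 (k v (k v (k (c 24 4097 r (u 16 1 (k v (k v r)))) (k (c 24 4096 r (u 16 1 (k v (k v r)))) (k (c 16 4098 r (u 24 0 (k v (k v r)))) (k (c 24 4096 r (u 16 1 (k v (k v r)))) (k (c 24 4097 r (u 16 1 (k v (k v r)))) (k (c 24 4097 r (u 16 1 (k v (k v r)))) (k (c 24 4096 r (u 16 1 (k v (k v r)))) (k (c 16 4097 r (u 24 1 (k v (k v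 r)))) r)))))))))))
 .z .z)) (.s 0x1dcbbb800aa22888 4088 (n false (n false (n true (z 42) e) e) (n false (n false (n false (n false e e) (n false e e)) (n false (n false e e) (n false e e))) (n false e e))) (c 3 4099 v r)
 (.s 0x1dcbaf8011d44510 4083 (n false (n false (n true (z 50) e) (n false e e)) (n true (n false (n false (n false e e) (n false e e)) (n false (n false e e) (n false e e))) e)) (u 8 2 (k v (k (c 24 4097 r (u 16 0 (k v (k v r)))) r)))
 .z .z) (.s 0x1dcbbb8012fee008 4079 (n false (n false (z 46) (n true (z 42) e)) (n false e e)) (u 4 2 (k (u 10 1 (k v (k v r))) (k (c 12 4099 r r) (k r (k r (k (c 12 4097 r r) (k (c 8 4095 r r) r)))))))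
 .z .z))) (.s 0x1dcbbb8014bfa800 4086 (n false (n false (n true (z 42) e) (n false (z 14) e)) e) (u 10 0 (k (u 8 1 (k v (k v r))) (k (u 8 1 (k v (k v r))) r)))
 (.s 0x1dcbbb8013efb008 4082 (n false (n false (z 91) (n true (z 42) e)) (n false e e)) (u 4 5 (k (u 10 1 (k v (k v r))) (k (u 10 1 (k (u 8 1 (k v (k v r))) (k (u 8 1 (k v (k v r))) r))) (k (c 8 4097 r r) (k (c 8 4097 r r) (k (c 8 4097 r r) (k (c 8 4096 r r) (k (c 8 4095 r r) r))))))))
 (.s 0x1dcbbb8013bbb008 4079 (n false (n false (z 85) (n true (z 42) e)) (n false e e)) (u 10 63 (k r (k r (k (u 18 2 (k r (k (u 4 41 (k v (k v (k (c 34 4099 v (u 8 12 (k v (k v r)))) (k (c 12 4096 r (u 8 2 (k v (k (c 34 4099 v (t 24 2 (u 16 8 (k v (k v r))))) r)))) (k (c 8 4099 r (c 34 4099 v r)) r)))))) r))) (k (t 4 1 r) (k (t 4 1 r) r))))))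
 .z .z) (.s 0x1dcbbb8013eff008 4081 (n false (n false (z 123) (n true (z 42) e)) (n false e e)) (u 4 21 (k (u 10 1 (k v (k v r))) (k r (k (u 10 1 (k r (k r r))) (k (c 8 4096 r r) r)))))
 .z .z)) (.s 0x1dcbbb801d444288 4071 (n false (n false (n true (z 42) e) (n true (n false (n false (n false e e) (n false e e)) (n false e e)) e)) (n false (n false e e) (n false e e))) (u 8 16 (k v (k v (k (u 16 4 (k v (k v r))) (k (c 4 4087 r v) (k (u 16 21 (k v (k v (k v (k (c 32 4097 r (c 4 4085 r v)) r))))) (k (u 16 1 (k v (k (c 48 4099 r (u 32 1 (k v (k v r)))) (k (c 32 4098 r (u 48 1 (k v (k v r)))) (k (c 32 4097 r (c 4 4085 r v)) (k (c 32 4099 r (u 48 1 (k v (k v r)))) (k (c 32 4095 r (c 4 4076 r v)) r))))))) r)))))))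
 (.s 0x1dcbbb801c2a2288 4086 (n false (n false (n true (z 42) e) (n true (n false e e) e)) (n false (n false (n false e e) (n false e e)) (n false (n false e e) (n false e e)))) (u 8 41 (k v (k v (k v (k (c 3 4101 v r) (k (c 3 4101 v r) (k (c 3 4101 v r) r)))))))
 .z .z) .z))) (.s 0x1dcbff8014aab800 4087 (n false (n false (n true (z 62) e) (n false (z 32) e)) e) (u 8 11 (k (u 10 0 (k (t 18 3 (t 26 1 v)) r)) (k (u 10 0 (k (t 18 3 (t 26 1 v)) r)) (k (u 10 0 (k (t 18 3 (t 26 1 v)) r)) (k (t 24 1 (u 10 0 (k (t 18 3 (t 26 1 (u 16 6 (k v (k v (k (t 48 1 (u 32 0 (k v (k v r)))) r)))))) r))) r)))))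
 (.s 0x1dcbfb800e7d5600 4093 (n false (n false (n true (z 46) e) e) (n true (z 67) e)) (u 8 2 (k r (k (c 24 4099 r (u 16 0 (k r (k r r)))) (k (u 16 1 (k r (k r r))) (k (u 16 1 (k r (k r r))) (k (c 24 4097 r (u 16 1 (k r (k r r)))) (k (c 16 4095 r (u 24 1 (k r (k r r)))) r)))))))
 (.s 0x1dcbfa8013aff008 4080 (n false (n false (z 121) (n true (z 14) e)) (n false e e)) (u 4 1 (k (u 10 0 (k v (k v r))) (k (c 12 4099 r r) (k (c 8 4097 r r) (k (c 8 4095 r (c 10 4097 r r)) (k (c 8 4095 r (c 10 4097 r r)) r))))))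
 (.s 0x1dcbbec011d44510 4083 (n false (n false (n true (z 90) e) (n false e e)) (n true (n false (n false (n false e e) (n false e e)) (n false (n false e e) (n false e e))) e)) (u 8 5 (k v (k (u 16 13 (k v (k v (k v (k (u 32 3 (k v (k v r))) (k (c 32 4099 r (u 48 181 (k v (k v (k v (k v (k v (k v (k v r))))))))) r)))))) (k (c 24 4097 r (u 16 2 (k v (k (c 48 4097 r (u 32 0 (k v (k v r)))) r)))) (k r (k (c 24 4096 r r) (k (c 24 4097 r r) (k (u 16 6 (k v (k v (k (c 48 4097 r (u 32 1 (k v (k v r)))) (k (c 48 4096 r (u 32 1 (k v (k v r)))) (k (c 48 4097 r (u 32 1 (k v (k v r)))) r)))))) (k (c 24 4095 r r) (k (c 16 4095 r r) r))))))))))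
 .z .z) (.s 0x1dcbfa801cbbb800 4085 (n false (n false (n true (z 42) e) (n true (z 14) e)) e) (u 8 1 (k (u 10 0 (k v (k v r))) (k (u 10 0 (k v (k v r))) r)))
 .z .z)) (.s 0x1dcbfb8011d44510 4083 (n false (n false (n true (z 46) e) (n false e e)) (n true (n false (n false (n false e e) (n false e e)) (n false (n false e e) (n false e e))) e)) (u 8 1 (k v (k (u 16 1 (k v (k v r))) (k (c 24 4099 r (u 16 0 (k v (k v r)))) (k (u 16 1 (k v (k v r))) (k (c 24 4097 r (u 16 1 (k v (k v r)))) (k (c 16 4095 r (u 24 1 (k v (k v r)))) r)))))))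
 (.s 0x1dcbfb8011544510 4085 (n false (n false (n true (z 46) e) (n false e e)) (n false (n false (n false (n false e e) (n false e e)) (n false (n false e e) (n false e e))) e)) (u 8 3 (k v (k v (k (u 16 1 (k v (k v r))) (k (c 24 4097 r (u 16 1 (k v (k v r)))) (k (c 16 4095 r (u 24 1 (k v (k v r)))) r))))))
 .z .z) .z)) (.s 0x1dcebec014fab800 4087 (n false (n false (n true (z 89) e) (n false (z 35) e)) e) (u 8 74 (k r (k r (k (c 10 4096 r v) (k (t 24 3 (u 16 26 (k r (k (c 10 4096 r v) (k (u 10 9 (k v (k v (k (t 26 1 (u 18 0 (k (t 34 3 (t 50 1 v)) r))) r)))) r))))) (k (c 24 4099 r (c 10 4096 r r)) (k (c 10 4096 r r) r)))))))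
 (.s 0x1dcbff8014fef800 4087 (n false (n false (n false (z 55) e) (n true (z 62) e)) e) (u 10 7 (k (u 8 3 (k v (k v r))) (k (u 8 3 (k v (k v r))) (k (u 8 7 (k v (k v r))) (k (t 26 1 (u 18 6 (k (u 8 3 (k v (k v r))) (k (u 8 3 (k v (k v r))) (k (t 50 1 (u 8 3 (k (u 34 0 (k v (k v r))) (k (c 10 4095 (c 2 4097 (t 2 1 v) v) v) r)))) r))))) r)))))
 (.s 0x1dcbff8014bbb800 4088 (n false (n false (n false (z 42) e) (n true (z 62) e)) e) (u 10 3 (k (u 8 1 (k v (k v r))) (k r (k (u 8 1 (k v (k v r))) (k (t 26 1 r) r)))))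
 .z .z) (.s 0x1dcbff801caef800 4085 (n false (n false (n true (z 52) e) (n true (z 62) e)) e) (u 10 1 (k r (k r (k r (k (t 26 1 r) r)))))
 .z .z)) (.s 0x1dcebfc00e7d5600 4093 (n false (n false (n true (z 121) e) e) (n true (z 67) e)) (u 8 18 (k r (k r (k (c 24 4099 r (u 16 1 (k r (k r r)))) (k (c 16 4097 r (u 24 1 (k r (k r r)))) (k (c 16 4095 r (u 24 0 (k r (k r r)))) (k (c 16 4095 r (u 24 0 (k r (k r r)))) r)))))))
 (.s 0x1dcebec014fef800 4087 (n false (n false (n true (z 89) e) (n false (z 55) e)) e) (u 8 76 (k (u 10 7 (k v (k v r))) (k (u 10 3 (k v (k v r))) (k (c 10 4096 r v) (k (c 10 4096 r v) (k (t 24 3 (u 16 26 (k (u 10 7 (k v (k v r))) (k (c 10 4096 r v) (k (u 10 7 (k v (k v r))) r))))) (k (c 24 4099 r (c 10 4096 r r)) (k (c 10 4096 r r) r))))))))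
 .z .z) .z))))

set_option maxRecDepth 100000 in
def N114 : NT :=
(.s 0x1dcfbec011544510 4084 (n false (n false (n true (z 91) e) (n false e e)) (n false (n false (n false (n false e e) (n false e e)) (n false (n false e e) (n false e e))) e)) (u 8 6 (k v (k v (k (u 16 1 (k v (k v r))) (k (c 16 4097 r (u 24 0 (k v (k v r)))) (k (c 16 4097 r (u 24 0 (k v (k v r)))) r))))))
 (.s 0x1dcfaac01708ee10 4076 (n false (n false (n true (z 67) e) (n false (n true (n false e e) e) (n false e e))) (n true (n false (n true (n false e e) e) (n false e e)) e)) (c 10 4094 v (c 3 4091 v r))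
 (.s 0x1dceeec011544510 4085 (n false (n false (n true (z 85) e) (n false e e)) (n false (n false (n false (n false e e) (n false e e)) (n false (n false e e) (n false e e))) e)) (u 8 63 (k v (k v (k v (k (c 16 4099 r r) r)))))
 (.s 0x1dcebfc011d44510 4083 (n false (n false (n true (z 121) e) (n false e e)) (n true (n false (n false (n false e e) (n false e e)) (n false (n false e e) (n false e e))) e)) (u 8 3 (k v (k v (k (c 24 4099 r (u 16 1 (k v (k v r)))) (k (c 16 4097 r (u 24 1 (k v (k v r)))) r)))))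
 (.s 0x1dcebfc011544510 4085 (n false (n false (n true (z 121) e) (n false e e)) (n false (n false (n false (n false e e) (n false e e)) (n false (n false e e) (n false e e))) e)) (u 8 3 (k v (k v (k (c 24 4099 r (u 16 1 (k v (k v r)))) (k (c 16 4097 r (u 24 1 (k v (k v r)))) r)))))
 .z .z) (.s 0x1dceeb800e7d5600 4093 (n false (n false (n true (z 37) e) e) (n true (z 67) e)) (u 8 0 (k r (k (u 16 0 (k (t 32 3 (t 48 1 (u 5 29 (k v (k v (k v r)))))) r)) (k r (k r (k (u 16 10 (k r (k r (k (c 8 4094 v r) (k (t 48 1 r) r))))) (k (c 4 4088 r (c 3 4102 (t 2 2 v) v)) r)))))))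
 .z .z)) (.s 0x1dcfaac012eee008 4091 (n false (n false (n true (z 67) e) (z 42)) (n false e e)) (u 6 13 (k r (k (c 2 4086 (u 4 0 (k v (k v r))) v) r)))
 (.s 0x1dceeec011d44510 4083 (n false (n false (n true (z 85) e) (n false e e)) (n true (n false (n false (n false e e) (n false e e)) (n false (n false e e) (n false e e))) e)) (u 8 33 (k v (k v (k v (k (c 24 4099 r r) (k (u 16 4 (k v (k v (k v r)))) (k (c 16 4099 r r) r)))))))
 .z .z) (.s 0x1dcfaac014befc00 4092 (n false (n false (n false (z 118) e) (n true (z 67) e)) e) (u 10 28 (k (t 8 3 v) (k (t 8 3 v) (k (t 26 2 r) (k (t 18 1 r) (k (t 26 2 r) (k (t 26 1 r) (k (t 26 2 r) (k (t 26 1 r) r)))))))))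
 .z .z))) (.s 0x1dcfab801708ee10 4077 (n false (n false (n true (z 35) e) (n false (n true (n false e e) e) (n false e e))) (n true (n false (n true (n false e e) e) (n false e e)) e)) (u 8 2 (k v (k v (k v (k (t 24 1 (u 16 0 (k (t 32 3 (t 48 1 v)) r))) r)))))
 (.s 0x1dcfab800aa22888 4092 (n false (n false (n true (z 35) e) e) (n false (n false (n false (n false e e) (n false e e)) (n false (n false e e) (n false e e))) (n false e e))) (u 8 2 (k v (k v (k v (k (t 24 1 (u 16 0 (k (t 32 3 (t 48 1 v)) r))) r)))))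
 (.s 0x1dcfaac01cbeec00 4089 (n false (n false (n true (z 67) e) (n true (z 86) e)) e) (u 10 0 (k (t 26 1 (u 18 12 (k (c 10 4092 v r) (k (u 8 28 (k v (k v (k (t 24 2 (u 16 1 (k v (k v r)))) (k (t 16 1 (u 24 1 (k v (k v r)))) (k (t 24 2 r) (k (t 24 1 r) (k (t 24 2 r) (k (t 24 1 r) r))))))))) r)))) r))
 .z .z) (.s 0x1dcfab8013bae008 4087 (n false (n false (n true (z 35) e) (z 37)) (n false e e)) (u 6 29 (k r (k r (k (c 8 4096 r r) (k (c 8 4096 r (u 10 0 (k (t 18 3 (t 26 1 v)) r))) (k (c 8 4096 r (u 10 0 (k (t 18 3 (t 26 1 v)) r))) (k r r)))))))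
 .z .z)) (.s 0x1dcfbec00e7d5600 4092 (n false (n false (n true (z 91) e) e) (n true (z 67) e)) (u 8 2 (k r (k (c 8 4090 v r) (k (u 16 1 (k r (k r r))) (k (c 16 4097 r (u 24 0 (k r (k r r)))) (k (c 16 4097 r (u 24 0 (k r (k r r)))) (k (c 16 4096 r (u 24 0 (k r (k r r)))) (k (c 16 4095 r (u 24 0 (k r (k r r)))) r))))))))
 (.s 0x1dcfbb800a5ddc00 4093 (n false (n false (n true (z 43) e) e) (n false (z 42) e)) (u 8 14 (k (u 5 1 (k v (k v r))) (k (u 5 13 (k v (k v r))) (k (u 5 13 (k v (k v r))) (k r (k (c 3 4099 (u 2 0 (k v (k v r))) r) (k (c 3 4099 (u 2 0 (k v (k v r))) (u 16 0 (k (u 32 0 (k v (k v r))) r))) (k r (k r r)))))))))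
 .z .z) .z))) (.s 0x1dcfeec013aff008 4079 (n false (n false (z 121) (n true (z 87) e)) (n false e e)) (u 4 1 (k (u 10 1 (k v (k v r))) (k (c 12 4099 r r) (k (c 8 4097 r r) (k (c 8 4095 r (c 10 4099 r r)) (k (c 8 4095 r (c 10 4099 r r)) r))))))
 (.s 0x1dcfeec0113bfb00 4093 (n false (z 93) (n false (n true (z 87) e) (n false e e))) (u 9 0 (k (u 2 0 (k (t 6 1 r) r)) (k (u 2 0 (k (t 6 1 r) r)) r)))
 (.s 0x1dcfeac011544510 4088 (n false (n false (n true (z 71) e) (n false e e)) (n false (n false (n false (n false e e) (n false e e)) (n false (n false e e) (n false e e))) e)) (u 8 3 (k v (k v (k (u 16 0 (k v (k v r))) (k (c 16 4099 r (u 24 1 (k v (k v r)))) (k (c 16 4099 r (u 24 1 (k v (k v r)))) (k (c 16 4099 r (u 24 1 (k v (k v r)))) r)))))))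
 (.s 0x1dcfbec011d44510 4082 (n false (n false (n true (z 91) e) (n false e e)) (n true (n false (n false (n false e e) (n false e e)) (n false (n false e e) (n false e e))) e)) (u 8 2 (k v (k v (k (u 16 1 (k v (k v r))) (k (c 16 4097 r (u 24 0 (k v (k v r)))) (k (c 16 4097 r (u 24 0 (k v (k v r)))) (k (c 16 4096 r (u 24 0 (k v (k v r)))) (k (c 16 4095 r (u 24 0 (k v (k v r)))) r))))))))
 .z .z) (.s 0x1dcfeac011d44510 4084 (n false (n false (n true (z 71) e) (n false e e)) (n true (n false (n false (n false e e) (n false e e)) (n false (n false e e) (n false e e))) e)) (u 8 1 (k v (k (c 24 4099 r (u 16 1 (k v (k v r)))) (k (u 16 0 (k v (k v r))) (k (c 16 4099 r (u 24 1 (k v (k v r)))) (k (c 16 4099 r (u 24 1 (k v (k v r)))) (k (c 16 4099 r (u 24 1 (k v (k v r)))) r)))))))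
 .z .z)) (.s 0x1dcfeec013afb008 4088 (n false (n false (z 89) (n true (z 87) e)) (n false e e)) (u 10 1 (k r (k (u 4 7 (k v (k v (k v (k (c 12 4110 r r) (k (c 12 4110 r (u 8 1 (k v (k v r)))) (k (t 8 1 (c 2 4082 (u 6 2 (k v (k v r))) v)) (k (c 12 4110 r r) r)))))))) r)))
 (.s 0x1dcfeec012bff008 4074 (n false (n false (n true (z 87) e) (z 124)) (n false e e)) (u 6 1 (k (u 8 1 (k v (k v r))) (k (c 14 4097 r r) (k (c 14 4096 r r) (k (c 10 4098 r r) (k (c 14 4096 r r) (k (c 14 4097 r r) (k (c 14 4097 r r) (k (c 14 4096 r r) (k (c 14 4099 r r) (k (c 10 4097 r r) r)))))))))))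
 .z .z) .z)) (.s 0x1dcfef8014fef800 4087 (n false (n false (n false (z 55) e) (n true (z 55) e)) e) (u 10 1 (k (c 8 4096 r v) (k (t 26 1 (u 18 14 (k (c 8 4096 r v) (k (c 50 4099 r (t 34 3 (u 8 3 (k v (k v r))))) (k (c 8 4096 r r) (k (c 8 4096 r r) (k (c 8 4096 r r) (k (c 8 4096 r r) r)))))))) r)))
 (.s 0x1dcfeec013eff008 4079 (n false (n false (z 123) (n true (z 87) e)) (n false e e)) (u 4 27 (k (u 10 1 (k v (k v r))) (k (c 12 4099 r (u 10 1 (k r (k r r)))) (k (u 10 1 (k r (k r r))) (k (c 8 4096 r r) (k (c 12 4097 r (c 10 4099 r r)) r))))))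
 (.s 0x1dcfeec013efb008 4080 (n false (n false (n true (z 87) e) (z 91)) (n false e e)) (u 6 5 (k (u 8 1 (k v (k v r))) (k (u 10 1 (k (u 8 1 (k v (k v r))) (k (u 8 1 (k v (k v r))) r))) (k (c 10 4097 r r) (k (c 10 4097 r r) (k (c 10 4097 r r) (k (c 10 4096 r r) (k (c 10 4095 r r) r))))))))
 .z .z) (.s 0x1dcfeec014bbb800 4087 (n false (n false (n true (z 87) e) (n false (z 42) e)) e) (u 8 0 (k (u 10 1 (k v (k v r))) (k r r)))
 .z .z)) (.s 0x1dd3aff0022ee108 4076 (n false (n false (n true (n false (z 121) e) e) (n false e e)) (n false (n true (n false (n true (n false e e) e) (n false e e)) e) (n false e e))) (u 16 32 (k v (k v (k v (k (c 32 4095 r (c 4 4076 r v)) (k (c 32 4095 r (c 4 4076 r v)) r))))))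
 (.s 0x1dd3aff0022a2288 4082 (n false (n false (n true (n false (z 121) e) e) (n false e e)) (n false (n false (n false e e) (n false e e)) (n false (n false e e) (n false e e)))) (u 16 35 (k v (k v (k v (k (c 32 4095 r (u 48 0 (k v (k v r)))) (k (c 32 4095 r (u 48 0 (k v (k v r)))) r))))))
 .z .z) .z))))

set_option maxRecDepth 100000 in
def N115 : NT :=
(.s 0x1dd4eef8010ee108 4064 (n false (n false (n true (n false (n false (z 53) e) (n false e e)) e) (n true (n false (n true (n false e e) e) (n false e e)) e)) (n false e e)) (u 32 0 (k (t 96 1 (u 64 1 (k v (k (u 128 1 (k v (k v r))) (k (c 192 4099 r (u 128 0 (k v (k v r)))) (k (u 128 1 (k v (k v r))) (k (c 192 4097 r (u 128 1 (k v (k v r)))) (k (c 128 4095 r (u 192 1 (k v (k v r)))) r)))))))) (k (t 96 1 r) r)))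
 (.s 0x1dd445108e5fdc00 4078 (n false (n true (z 46) e) (n false (n true (n false (n false (n false e e) (n false e e)) (n false (n false e e) (n false e e))) e) (n false e e))) (u 4 2 (k v (k (c 12 4099 r (u 8 0 (k v (k v r)))) (k (u 8 1 (k v (k v r))) (k (u 8 1 (k v (k v r))) (k (c 12 4097 r (u 8 1 (k v (k v r)))) (k (c 8 4095 r (u 12 1 (k v (k v r)))) r)))))))
 (.s 0x1dd3feb0022a2288 4084 (n false (n false (n true (n false (z 79) e) e) (n false e e)) (n false (n false (n false e e) (n false e e)) (n false (n false e e) (n false e e)))) (u 16 0 (k v (k (u 32 7 (k v (k v (k v (k (c 96 4099 r (u 64 1 (k v (k v r)))) r))))) r)))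
 (.s 0x1dd3baa009777000 4087 (n false (n false (n true (n false (z 42) (z 5)) e) e) e) (t 24 1 (u 16 10 (k v (k v (k (t 32 3 (t 48 1 v)) (k (c 8 4090 r v) (k (c 48 4110 r r) (k (c 48 4110 r r) (k (c 48 4110 r (c 40 4101 v (u 32 1 (k v (k v r))))) (k (c 8 4090 (c 3 4099 v r) v) (k (c 48 4110 r (c 40 4101 v (u 32 1 (k v (k v r))))) (k (c 8 4090 r v) (k (c 8 4090 r v) r)))))))))))))
 (.s 0x1dd3aff0095df000 4074 (n false (n false (n true (n false (z 121) (z 52)) e) e) e) (u 16 1 (k r (k (c 48 4099 r (u 32 1 (k r (k r r)))) (k (c 32 4097 r (u 48 1 (k r (k r r)))) (k (c 32 4095 r (u 48 0 (k r (k r r)))) (k (c 32 4095 r (u 48 0 (k r (k r r)))) r))))))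
 .z .z) (.s 0x1dd3eab0022ee108 4078 (n false (n false (n true (n false (z 67) e) e) (n false e e)) (n false (n true (n false (n true (n false e e) e) (n false e e)) e) (n false e e))) (u 16 71 (k v (k v (k (c 48 4101 r (u 32 1 (k v (k v r)))) (k (c 32 4101 r (u 48 1 (k v (k v r)))) (k (c 32 4101 r (u 48 1 (k v (k v r)))) r))))))
 .z .z)) (.s 0x1dd445108a5fdc00 4078 (n false (n false (z 46) e) (n false (n true (n false (n false (n false e e) (n false e e)) (n false (n false e e) (n false e e))) e) (n false e e))) (u 4 17 (k v (k v (k (u 8 1 (k v (k v r))) (k (u 8 1 (k v (k v r))) (k (c 12 4097 r (u 8 1 (k v (k v r)))) (k (c 8 4095 r (u 12 1 (k v (k v r)))) r)))))))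
 (.s 0x1dd44510895fd400 4084 (n false (z 156) (n false (n true (n false (n false (n false e e) (n false e e)) (n false (n false e e) (n false e e))) e) (n false e e))) (u 2 8 (k v (k v (k (c 6 4099 r (u 4 1 (k v (k v r)))) (k (c 4 4098 r (u 6 1 (k v (k v r)))) (k (c 4 4097 r (u 6 1 (k v (k v r)))) (k (c 4 4099 r (u 6 1 (k v (k v r)))) r)))))))
 .z .z) (.s 0x1dd445108e577c00 4079 (n false (n true (z 52) e) (n false (n true (n false (n false (n false e e) (n false e e)) (n false (n false e e) (n false e e))) e) (n false e e))) (u 4 57 (k v (k v (k v (k v (k v (k v (k v r))))))))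
 .z .z))) (.s 0x1dd4bffc010e1708 4066 (n false (n false (n true (n false (n false (z 126) e) (n false e e)) e) (n true (n false e e) e)) (n false (n true (n false e e) e) (n false e e))) (u 32 0 (k r (k r (k r (k r r)))))
 (.s 0x1dd445108e775c00 4080 (n false (n true (z 37) e) (n false (n true (n false (n false (n false e e) (n false e e)) (n false (n false e e) (n false e e))) e) (n false e e))) (u 4 0 (k v (k (u 8 0 (k (t 16 3 (t 24 1 v)) r)) (k (u 8 0 (k (t 16 3 (t 24 1 v)) r)) (k (u 8 2 (k v (k v (k v (k (t 24 1 (u 16 0 (k (t 32 3 (t 48 1 v)) r))) r))))) (k (u 8 0 (k v (k v (k (t 24 1 (u 16 0 (k (t 32 3 (t 48 1 v)) r))) r)))) (k (c 2 4088 r v) r)))))))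
 (.s 0x1dd445108e75fe00 4080 (n false (n true (z 121) e) (n false (n true (n false (n false (n false e e) (n false e e)) (n false (n false e e) (n false e e))) e) (n false e e))) (u 4 1 (k v (k (c 12 4099 r (u 8 1 (k v (k v r)))) (k (c 8 4097 r (u 12 1 (k v (k v r)))) (k (c 8 4095 r (u 12 0 (k v (k v r)))) (k (c 8 4095 r (u 12 0 (k v (k v r)))) r))))))
 .z .z) (.s 0x1dd445108e7f7e00 4083 (n false (n true (z 119) e) (n false (n true (n false (n false (n false e e) (n false e e)) (n false (n false e e) (n false e e))) e) (n false e e))) (u 4 27 (k v (k v (k (c 12 4101 r r) (k (c 12 4099 r r) (k (c 12 4097 r r) (k (c 12 4096 r (u 8 0 (k (u 16 70 (k v (k v (k v r)))) r))) (k (c 8 4098 r r) (k (c 8 4101 r r) (k (c 8 4099 r r) (k (c 8 4101 r r) r)))))))))))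
 .z .z)) (.s 0x1dd4eef8010e1708 4066 (n false (n false (n true (n false (n false (z 53) e) (n false e e)) e) (n true (n false e e) e)) (n false (n true (n false e e) e) (n false e e))) (u 32 0 (k (t 96 1 (u 64 1 (k v (k (u 128 1 (k v (k v r))) (k (c 192 4099 r (u 128 0 (k v (k v r)))) (k (u 128 1 (k v (k v r))) (k (c 192 4097 r (u 128 1 (k v (k v r)))) (k (c 128 4095 r (u 192 1 (k v (k v r)))) r)))))))) (k (t 96 1 (u 64 32 (k v (k v (k (c 192 4099 r r) (k (u 128 12 (k v (k v r))) (k (c 192 4096 r (c 2 4071 (c 3 4094 v r) v)) (k (c 128 4099 r r) r)))))))) r)))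
 (.s 0x1dd4bffc010ee108 4064 (n false (n false (n true (n false (n false (z 126) e) (n false e e)) e) (n true (n false (n true (n false e e) e) (n false e e)) e)) (n false e e)) (u 32 0 (k r (k r (k (t 96 2 (u 64 0 (k (c 192 4096 r r) (k (c 192 4096 r r) (k (c 192 4096 r r) (k (c 192 4096 r r) (k (c 192 4096 r r) r))))))) (k r r)))))
 .z .z) .z))) (.s 0x1dd53bbb00843850 4066 (n false (n false (n true (n false (n false (n false (z 85) (n false e e)) e) (n false e e)) e) (n true (n false e e) e)) (n false (n false e e) e)) (u 64 4 (k v (k (c 192 4099 r r) (k (c 192 4099 r r) (k (c 192 4099 r (u 128 1 (k v (k v (k v (k (t 384 1 r) r)))))) (k (u 128 5 (k v (k v (k v (k (t 384 2 (u 256 6 (k v (k v (k (t 768 1 (u 512 2 (k v (k v r)))) r))))) r))))) (k (c 192 4096 r r) (k (c 128 4099 r r) r))))))))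
 (.s 0x1dd511444275fe00 4095 (n false (n false (z 121) (n true (n false (n false (n false (n false e e) (n false e e)) (n false (n false e e) (n false e e))) (n false e e)) e)) e) (u 4 1 (k v (k (c 12 4099 r (u 8 1 (k v (k v r)))) (k (c 8 4097 r r) (k (c 8 4095 r r) (k (c 8 4095 r r) r))))))
 (.s 0x1dd511444257fe00 4093 (n false (n false (z 124) (n true (n false (n false (n false (n false e e) (n false e e)) (n false (n false e e) (n false e e))) (n false e e)) e)) e) (u 4 1 (k v (k (c 12 4097 r (u 8 1 (k v (k v r)))) (k (c 12 4096 r (u 8 1 (k v (k v r)))) (k (c 8 4098 r (u 12 0 (k v (k v r)))) (k (c 12 4096 r (u 8 1 (k v (k v r)))) (k (c 12 4097 r (u 8 1 (k v (k v r)))) (k (c 12 4097 r (u 8 1 (k v (k v r)))) (k (c 12 4096 r (u 8 1 (k v (k v r)))) (k (c 12 4099 r (u 8 1 (k v (k v r)))) (k (c 8 4097 r (u 12 1 (k v (k v r)))) r)))))))))))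
 (.s 0x1dd51144412bbe00 4089 (n false (z 52) (n false (n true (n false (n false (n false (n false e e) (n false e e)) (n false (n false e e) (n false e e))) (n false e e)) e) e)) (u 2 98 (k v (k v (k v (k v (k v (k v (k v (k (t 6 1 (u 4 0 (k v (k v r)))) r)))))))))
 .z .z) (.s 0x1dd51144425fdc00 4093 (n false (n false (z 46) (n true (n false (n false (n false (n false e e) (n false e e)) (n false (n false e e) (n false e e))) (n false e e)) e)) e) (u 4 1 (k v (k r (k (c 12 4099 r (u 8 0 (k v (k v r)))) (k (c 10 4099 v r) (k (c 12 4097 r r) (k (c 8 4095 r r) r)))))))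
 .z .z)) (.s 0x1dd51144427f5600 4090 (n false (n false (z 71) (n true (n false (n false (n false (n false e e) (n false e e)) (n false (n false e e) (n false e e))) (n false e e)) e)) e) (u 4 6 (k (c 12 4099 r r) (k (c 10 4099 v r) (k (c 10 4099 v r) (k (c 12 4100 r (c 10 4099 v r)) (k (c 12 4100 r (c 10 4099 v r)) (k (c 12 4100 r (c 10 4099 v r)) r)))))))
 (.s 0x1dd51144427dfe00 4091 (n false (n false (z 123) (n true (n false (n false (n false (n false e e) (n false e e)) (n false (n false e e) (n false e e))) (n false e e)) e)) e) (u 4 33 (k v (k v (k (c 10 4099 v r) (k (c 10 4099 v r) (k (c 12 4099 r (u 8 32 (k v (k v (k (t 24 3 (u 16 26 (k v (k v (k v r))))) (k (c 24 4099 r (c 10 4099 v r)) (k (t 24 2 (u 16 0 (k (c 48 4099 r (u 32 4 (k v (k r r)))) r))) (k (c 24 4097 r (c 10 4099 v r)) r)))))))) (k (c 10 4099 v r) (k (c 12 4100 r (c 10 4099 v r)) (k (c 12 4097 r (c 10 4099 v r)) r)))))))))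
 .z .z) .z)) (.s 0x1ddc21708e577c00 4070 (n false (n false (n true (n false (n true (n false e e) e) (n false e e)) e) (n false (n true (n false e e) e) (n false e e))) (n true (z 52) e)) (u 5 174 (k v (k v (k v (k v (k v (k v (k (t 13 1 (u 9 0 (k v (k v r)))) (k (c 4 4091 v r) (k (c 4 4091 v r) r))))))))))
 (.s 0x1dd54bffc010e088 4069 (n false (n false (n true (n false (n false (n false (n false (z 126) e) (n false e e)) e) (n true (n false e e) e)) e) (n false e e)) (n false e e)) (u 128 2 (k v (k (t 384 1 (u 256 21 (k v (k v (k v (k (c 512 4097 r (u 768 1 (k v (k v r)))) r)))))) (k (t 384 1 (u 256 17 (k v (k v (k (c 512 4096 r (u 768 1 (k v (k v r)))) r))))) r))))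
 (.s 0x1dd53eff00843850 4064 (n false (n false (n true (n false (n false (n false (z 123) (n false e e)) e) (n false e e)) e) (n true (n false e e) e)) (n false (n false e e) e)) (u 64 4 (k v (k (c 192 4099 r (u 128 2 (k v (k v (k v (k (t 384 2 r) r)))))) (k r (k (u 128 18 (k v (k v (k (c 384 4101 r r) (k (c 384 4099 r r) (k (c 384 4097 r r) (k (c 384 4096 r (u 256 0 (k (u 512 70 (k v (k v (k v r)))) r))) (k (c 256 4098 r r) (k (c 256 4101 r r) (k (c 256 4099 r r) (k (c 256 4101 r r) r))))))))))) (k (c 128 4096 r (u 192 1 (k v (k v r)))) (k (c 192 4097 r r) r)))))))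
 .z .z) (.s 0x1dd54eef8010e088 4069 (n false (n false (n true (n false (n false (n false (n false (z 53) e) (n false e e)) e) (n true (n false e e) e)) e) (n false e e)) (n false e e)) (u 128 0 (k (t 384 1 (u 256 13 (k v (k v (k v (k (u 512 1 (k v (k v r))) (k (u 512 1 (k v (k v r))) (k (c 768 4097 r (u 512 1 (k v (k v r)))) r)))))))) (k (t 384 1 (u 256 13 (k v (k v (k v (k (u 512 12 (k v (k v r))) (k (c 512 4099 r (u 768 63 (k v (k v (k v (k v (k v r))))))) r))))))) r)))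
 .z .z)) (.s 0x1ddd53bbb0084380 4065 (n false (n false (n true (n false (n true (n false (n false (n false (z 85) (n false e e)) e) (n false e e)) e) (n true (n false e e) e)) e) e) e) (u 256 4 (k v (k (c 768 4099 r r) (k (c 768 4099 r r) (k (c 768 4099 r (u 512 1 (k v (k v (k v (k (t 1536 1 r) r)))))) (k (u 512 5 (k v (k v (k v (k (t 1536 2 (u 1024 6 (k v (k v (k (t 3072 1 (u 2048 2 (k v (k v r)))) r))))) r))))) (k (c 768 4096 r r) (k (c 512 4099 r r) r))))))))
 (.s 0x1ddc21708e7f7c00 4071 (n false (n false (n true (n false (n true (n false e e) e) (n false e e)) e) (n false (n true (n false e e) e) (n false e e))) (n true (z 55) e)) (u 5 4 (k (t 13 1 (u 9 38 (k v (k v (k (t 17 3 (t 25 1 v)) (k (u 17 2 (k v (k v r))) (k (c 4 4091 v r) (k (c 4 4091 v r) r)))))))) (k (c 4 4091 v (t 13 2 r)) r)))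
 .z .z) .z))))

end Pool.Agent.Helper91.ND1
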