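import Pool.Agent.Helper91.ND1.LN0
import Pool.Agent.Helper91.ND1.LN1
import Pool.Agent.Helper91.ND1.LN2
import Pool.Agent.Helper91.ND1.LN3
import Pool.Agent.Helper91.ND1.LN4
import Pool.Agent.Helper91.ND1.LN5
import Pool.Agent.Helper91.ND1.LN6
import Pool.Agent.Helper91.ND1.LN7
import Pool.Agent.Helper91.ND1.LN8
import Pool.Agent.Helper91.ND1.LN9
import Pool.Agent.Helper91.ND1.LN10
import Pool.Agent.Helper91.ND1.LN11
import Pool.Agent.Helper91.ND1.LN12
import Pool.Agent.Helper91.ND1.LN13
import Pool.Agent.Helper91.ND1.LN14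
import Pool.Agent.Helper91.ND1.LN15
import Pool.Agent.Helper91.ND1.LN16
import Pool.Agent.Helper91.ND1.LN17
import Pool.Agent.Helper91.ND1.LN18
import Pool.Agent.Helper91.ND1.LN19
import Pool.Agent.Helper91.ND1.LN20
import Pool.Agent.Helper91.ND1.LN21
import Pool.Agent.Helper91.ND1.LN22
import Pool.Agent.Helper91.ND1.LN23
import Pool.Agent.Helper91.ND1.LN24
import Pool.Agent.Helper91.ND1.LN25
import Pool.Agent.Helper91.ND1.LN26

/-! part of the certificate for the constant 25/48 (generated) -/

namespace Pool.Agent.Helper91.ND1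

open Pool.Agent.Helper66.IL
open Pool.Agent.Helper66.ND
open Pool.Agent.Helper66.ND.LT
open Pool.Agent.Helper66.ND.Ct

set_option maxRecDepth 100000 in
def T128 : NT :=
(.s 0x12bfa00 4097 (z 28) (u 1 0 (k (u 2 0 (k v (k v r))) r))
 N0 N1)

set_option maxRecDepth 100000 in
def T129 : NT :=
(.s 0x13bbe00 4097 (z 53) (t 1 2 v)
 N2 N3)

set_option maxRecDepth 100000 in
def T64 : NT :=
(.s 0x12feb00 4101 (z 78) (t 1 2 v)
 T128 T129)

set_option maxRecDepth 100000 in
def T130 : NT :=
(.s 0x97d7400 4100 (z 166) (t 1 2 v)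
 N4 N5)

set_option maxRecDepth 100000 in
def T131 : NT :=
(.s 0xe7f5e00 4097 (n false (z 103) e) (u 2 1 (k v (k (t 6 1 r) (k (t 4 2 r) (k (t 4 1 r) r)))))
 N6 N7)

set_option maxRecDepth 100000 in
def T65 : NT :=
(.s 0xe57fc00 4094 (n false (z 60) e) (u 2 0 (k (t 6 1 (u 4 0 (k (u 8 0 (k (t 16 3 (t 24 1 v)) r)) r))) r))
 T130 T131)

set_option maxRecDepth 100000 in
def T32 : NT :=
(.s 0x13faf00 4104 (z 103) (t 1 1 v)
 T64 T65)

set_option maxRecDepth 100000 in
def T132 : NT :=
(.s 0x397ff8050 4088 (n false (z 126) (n false (n false e e) e)) (u 2 1 (k v (k (t 6 1 r) (k (t 6 1 (u 4 27 (k v (k (c 12 4099 r (u 8 2 (k v (k v (k v (k (t 24 2 r) r)))))) (k (c 3 4094 v r) (k (c 8 4096 r (u 12 1 (k v (k v r)))) (k (c 12 4097 r (c 3 4094 v r)) r))))))) r))))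
 N8 N9)

set_option maxRecDepth 100000 in
def T133 : NT :=
(.s 0x3e5fd4008 4094 (n false (n true (z 14) e) (n false e e)) (c 2 4096 (u 2 0 (k v (k v r))) v)
 N10 N11)

set_option maxRecDepth 100000 in
def T66 : NT :=
(.s 0x3a575e010 4085 (n false (n false (z 100) (n false e e)) e) (u 4 0 (k (c 12 4096 r r) (k (c 12 4096 r r) (k (c 12 4096 r r) (k (c 12 4097 r r) (k (c 12 4096 r r) (k (c 12 4096 r r) r)))))))
 T132 T133)

set_option maxRecDepth 100000 in
def T134 : NT :=
(.s 0x1cefaa0050 4088 (n false (z 141) (n false (n false e e) e)) (u 2 4 (k v (k (t 6 3 (u 4 10 (k v (k (c 12 4099 r (u 8 14 (k v (k v (k v (k v r)))))) (k (c 8 4102 r (u 12 1 (k v (k v r)))) r))))) (k (c 3 4094 v (t 6 1 (u 4 0 (k r r)))) (k (t 6 1 (u 4 1 (k v (k (c 12 4100 r (c 3 4094 v r)) (k (c 8 4098 r (c 3 4094 v r)) r))))) r)))))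
 N12 N13)

set_option maxRecDepth 100000 in
def T135 : NT :=
(.s 0x1d4aafc010 4088 (n false (n false (n false (z 112) e) (n false e e)) e) (u 8 3 (k v (k (c 24 4099 r (u 16 4 (k v (k v r)))) r)))
 N14 N15)

set_option maxRecDepth 100000 in
def T67 : NT :=
(.s 0x1cffa80288 4090 (n false (z 15) (n false (n false e e) (n false e e))) (u 2 0 (k v (k (u 4 0 (k (u 8 3 (k v (k v (k v r)))) r)) r)))
 T134 T135)

set_option maxRecDepth 100000 in
def T33 : NT :=
(.s 0x1cbbb80288 4090 (n false (z 42) (n false (n false e e) (n false e e))) (u 2 12 (k v (k (u 4 0 (k v (k r r))) (k r (k r (k (t 6 1 (u 4 0 (k (u 8 4 (k v (k (c 2 4088 r v) r))) r))) (k (u 4 2 (k v (k v r))) r)))))))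
 T66 T67)

set_option maxRecDepth 100000 in
def T16 : NT :=
(.s 0x73faa800 4093 (n false (z 135) e) (u 2 0 (k (t 4 2 r) (k (t 6 2 r) (k (t 4 2 r) r))))
 T32 T33)

set_option maxRecDepth 100000 in
def T136 : NT :=
(.s 0x1fcbbb8008 4096 (n false (n true (n true (z 42) e) e) (n false e e)) (c 2 4098 (c 4 4100 r v) v)
 N16 N17)

set_option maxRecDepth 100000 in
def T137 : NT :=
(.s 0xe775601708 4079 (n false (z 69) (n false (n true (n false e e) e) (n false e e))) (u 2 5 (k v (k (t 6 3 r) (k (t 6 3 r) (k (t 6 3 r) r)))))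
 N18 N19)

set_option maxRecDepth 100000 in
def T68 : NT :=
(.s 0xe5df401708 4086 (n false (z 26) (n false (n true (n false e e) e) (n false e e))) (u 2 2 (k v (k (c 3 4092 v (u 4 1 (k v (k v r)))) r)))
 T136 T137)

set_option maxRecDepth 100000 in
def T138 : NT :=
(.s 0xe97f700450 4082 (n false (n false (z 46) (n false e e)) (n false (n false e e) e)) (u 4 1 (k v (k (u 8 1 (k v (k v r))) (k (c 12 4099 r (u 8 0 (k v (k v r)))) (k (u 8 1 (k v (k v r))) (k (c 12 4097 r (u 8 1 (k v (k v r)))) (k (c 8 4095 r (u 12 1 (k v (k v r)))) r)))))))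
 N20 N21)

set_option maxRecDepth 100000 in
def T139 : NT :=
(.s 0xee55550010 4081 (n false (n false (n true (z 128) e) (n false e e)) e) (u 8 4 (k v (k (c 24 4097 r r) (k (c 16 4095 r r) (k (c 16 4098 r (u 24 0 (k (u 40 0 (k v (k v r))) r))) (k (c 24 4099 r (u 16 0 (k (t 48 2 (u 32 0 (k (t 96 2 (u 64 2 (k v (k r r)))) r))) r))) (k (c 16 4096 r r) (k (c 16 4095 r r) (k (c 16 4095 r r) (k (c 16 4095 r (u 24 0 (k v (k v r)))) (k (c 24 4095 r r) (k (c 24 4095 r (u 16 1 (k v (k v r)))) (k (c 16 4097 r (u 24 0 (k v (k v r)))) (k (c 16 4095 r r) (k (c 16 4095 r (u 24 1 (k v (k v r)))) (k (c 16 4097 r r) r))))))))))))))))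
 N22 N23)

set_option maxRecDepth 100000 in
def T69 : NT :=
(.s 0xea75f60088 4082 (n false (n false (n false (z 89) e) (n false e e)) (n false e e)) (u 8 13 (k v (k v (k v (k v (k (t 24 3 (u 16 136 (k v (k v (k v (k v r)))))) (k (t 24 2 r) (k (t 24 1 r) r))))))))
 T138 T139)

set_option maxRecDepth 100000 in
def T34 : NT :=
(.s 0xe7dfe01510 4088 (n false (z 123) (n false (n false (n false e e) (n false e e)) e)) (u 2 29 (k v (k v (k v (k (c 6 4099 r (u 4 5 (k v (k v (k v (k (t 12 2 (u 8 6 (k v (k v (k (t 24 1 (u 16 2 (k v (k v r)))) r))))) r)))))) r)))))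
 T68 T69)

set_option maxRecDepth 100000 in
def T140 : NT :=
(.s 0xf9757802a0 4087 (n false (n true (z 98) e) (n false (n false (n false e e) e) e)) (u 4 2 (k v (k v (k v (k v r)))))
 N24 N25)

set_option maxRecDepth 100000 in
def T141 : NT :=
(.s 0x72baf00ee10 4085 (n false (z 100) (n true (n false (n true (n false e e) e) (n false e e)) e)) (u 2 0 (k r (k r (k (u 4 1 (k r (k (c 12 4097 r (u 8 0 (k r (k r r)))) r))) (k (c 6 4097 r r) (k r (k r r)))))))
 N26 N27)

set_option maxRecDepth 100000 in
def T70 : NT :=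
(.s 0xfa97ff8020 4082 (n false (n true (n false (n false (z 126) e) (n false e e)) e) e) (u 16 1 (k v (k (t 48 1 (u 32 1 (k v (k (c 96 4099 r (u 64 1 (k v (k v r)))) (k (c 64 4097 r (u 96 1 (k v (k v r)))) (k (c 64 4095 r (c 8 4087 r v)) (k (c 64 4095 r (c 8 4087 r v)) r))))))) (k (t 48 1 (u 32 4 (k v (k (c 96 4099 r (u 64 2 (k v (k v (k v (k (t 192 2 r) r)))))) (k (c 8 4085 r v) (k (c 8 4085 r v) (k (c 64 4096 r (u 96 1 (k v (k v r)))) (k (c 96 4097 r (c 8 4085 r v)) r)))))))) r))))
 T140 T141)

set_option maxRecDepth 100000 in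
def T142 : NT :=
(.s 0x73eab00fe80 4092 (n false (n true (n true (n true (n false (n false e e) e) e) e) e) (z 67)) (u 3 88 (k v (k v (k v (k v (k v (k (t 7 1 (u 5 1 (k v (k v r)))) (k (c 5 4101 r (u 7 0 (k v (k v r)))) (k (c 2 4091 v r) (k (c 5 4099 r (u 7 0 (k v (k v r)))) (k (c 2 4091 v (t 7 2 (u 5 0 (k r r)))) (k (c 7 4101 r (u 5 1 (k v (k v r)))) (k (t 7 1 (u 5 9 (k v (k v (k v (k (c 13 4099 r r) r)))))) (k (c 7 4102 r (u 5 1 (k v (k v r)))) (k (c 5 4101 r (u 7 1 (k v (k v r)))) (k (t 7 1 (u 5 17 (k v (k v (k v (k (c 13 4099 r r) r)))))) (k (c 5 4101 r (u 7 1 (k v (k v r)))) r)))))))))))))))))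
 N28 N29)

set_option maxRecDepth 100000 in
def T143 : NT :=
(.s 0x74ebec01708 4080 (n false (n false (z 89) e) (n false (n true (n false e e) e) (n false e e))) (u 4 18 (k v (k v (k v (k v (k (c 12 4110 r r) (k (c 12 4110 r (u 8 1 (k v (k v r)))) (k (t 8 1 (u 12 2 (k v (k v r)))) (k (t 12 2 (u 8 19 (k v (k v (k v r))))) r)))))))))
 N30 N31)

set_option maxRecDepth 100000 in
def T71 : NT :=
(.s 0x74aaaa00740 4081 (n false (n false (z 128) (n true (n false (n false e e) e) e)) e) (u 4 4 (k v (k (c 12 4097 r r) (k (c 8 4095 r (c 10 4094 v r)) (k (c 8 4098 r (c 10 4094 v (u 12 0 (k (u 20 0 (k v (k v r))) r)))) (k (c 12 4099 r r) (k (c 8 4096 r r) (k (c 8 4095 r (c 10 4094 v r)) (k (c 8 4095 r r) (k (c 8 4095 r (u 12 0 (k v (k v r)))) (k (c 12 4095 r (c 10 4094 v r)) (k (c 12 4095 r (u 8 1 (k v (k v r)))) (k (c 8 4097 r (u 12 0 (k v (k v r)))) (k (c 8 4095 r r) (k (c 8 4095 r (u 12 1 (k v (k v r)))) (k (c 8 4097 r r) r))))))))))))))))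
 T142 T143)

set_option maxRecDepth 100000 in
def T35 : NT :=
(.s 0x72fee00ba20 4082 (n false (z 46) (n false (n true (n false (n false e e) (n false e e)) e) e)) (u 2 1 (k v (k (u 4 1 (k v (k v r))) (k (c 6 4099 r (u 4 0 (k v (k v r)))) (k (u 4 0 (k v (k v r))) (k (c 6 4097 r (u 4 1 (k v (k v r)))) (k (c 4 4095 r (u 6 1 (k v (k v r)))) r)))))))
 T70 T71)

set_option maxRecDepth 100000 in
def T17 : NT :=
(.s 0xeea7d5c000 4073 (n false (n false (n true (n false (n false (z 35) e) e) e) e) e) (u 32 5 (k v (k v (k v (k (t 96 1 (u 64 0 (k (t 128 3 (t 192 1 v)) r))) r)))))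
 T34 T35)

set_option maxRecDepth 100000 in
def T8 : NT :=
(.s 0x1dcfef8010 4089 (n false (n false (n true (z 55) e) (n false e e)) e) (u 8 1 (k v (k (t 24 1 (u 16 7 (k v (k r (k r (k r (k (c 48 4099 r (t 32 3 v)) (k r r)))))))) r)))
 T16 T17)

set_option maxRecDepth 100000 in
def T144 : NT :=
(.s 0x75f2fee0020 4088 (n false (n false (n false (n true (n true (z 46) e) e) (n false e e)) e) e) (u 32 2 (k v (k (c 96 4099 r (u 64 0 (k v (k v r)))) (k (u 64 1 (k v (k v r))) (k (u 64 1 (k v (k v r))) (k (c 96 4097 r (u 64 1 (k v (k v r)))) (k (c 64 4095 r (u 96 1 (k v (k v r)))) r)))))))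
 N32 N33)

set_option maxRecDepth 100000 in
def T145 : NT :=
(.s 0x77cfefc0088 4086 (n false (n false (n true (n true (z 119) e) e) (n false e e)) (n false e e)) (u 16 44 (k (u 48 0 (k (c 112 4101 r (t 80 3 (u 32 0 (k r r)))) r)) (k r (k (c 8 4091 r v) (k (c 32 4096 r r) (k (c 48 4099 r r) (k r (k (c 48 4097 r r) (k (c 32 4098 r r) (k r (k r (k r (k r (k r r))))))))))))))
 N34 N35)

set_option maxRecDepth 100000 in
def T72 : NT :=
(.s 0x774abfc0088 4084 (n false (n false (n true (n false (z 120) e) e) (n false e e)) (n false e e)) (u 16 11 (k v (k v (k v (k (c 48 4101 r (u 32 5 (k v (k v r)))) (k (c 32 4099 r (u 48 0 (k v (k v r)))) (k (c 48 4096 r (c 4 4087 r v)) (k (c 8 4088 (t 6 1 (u 4 0 (k r r))) v) (k (c 48 4099 r (u 32 1 (k v (k v r)))) (k (c 32 4098 r (u 48 1 (k v (k v r)))) (k (c 32 4101 r (u 48 0 (k v (k v r)))) (k (c 48 4097 r (u 32 3 (k v (k v (k v r))))) (k (c 48 4099 r (u 32 1 (k v (k v r)))) (k (c 32 4101 r (u 48 0 (k v (k v r)))) r))))))))))))))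
 T144 T145)

set_option maxRecDepth 100000 in
def T146 : NT :=
(.s 0x7d3eae00288 4084 (n false (n true (n false (z 35) e) e) (n false (n false e e) (n false e e))) (u 8 0 (k v (k v (k (t 24 1 (u 16 0 (k (t 32 3 (t 48 1 v)) r))) r))))
 N36 N37)

set_option maxRecDepth 100000 in
def T147 : NT :=
(.s 0x39d7d807f440 4080 (n false (z 89) (n true (n true (n true (n false (n false e e) (n false e e)) e) e) e)) (u 2 2 (k v (k v (k v (k (t 6 2 r) r)))))
 N38 N39)

set_option maxRecDepth 100000 in
def T73 : NT :=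
(.s 0x7fcbfb80050 4089 (n false (n true (n true (n true (z 46) e) e) e) (n false (n false e e) e)) (u 16 1 (k v (k (u 32 1 (k v (k v r))) (k (c 48 4099 r (u 32 0 (k v (k v r)))) (k (u 32 1 (k v (k v r))) (k (c 48 4097 r (u 32 1 (k v (k v r)))) (k (c 32 4095 r (u 48 1 (k v (k v r)))) r)))))))
 T146 T147)

set_option maxRecDepth 100000 in
def T36 : NT :=
(.s 0x7cebfc01f40 4089 (n false (n true (n true (n false (n false e e) e) e) e) (n true (z 121) e)) (u 5 4 (k v (k v (k (c 13 4099 r (u 9 1 (k v (k v r)))) (k (c 9 4097 r (u 13 1 (k v (k v r)))) r)))))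
 T72 T73)

set_option maxRecDepth 100000 in
def T148 : NT :=
(.s 0x3a777601dc20 4080 (n false (n false (z 85) (n true (n false (n true (n false e e) e) (n false e e)) e)) e) (u 4 2 (k v (k r (k (c 12 4099 r r) (k (c 12 4099 r r) (k (c 12 4099 r (u 8 1 (k v (k v (k v (k (t 24 1 r) r)))))) (k (c 12 4096 r r) (k (c 8 4099 r r) r))))))))
 N40 N41)

set_option maxRecDepth 100000 in
def T149 : NT :=
(.s 0x3b975f0023a0 4067 (n false (n false (n true (z 50) e) (n false e e)) (n true (n false (n false e e) e) e)) (u 8 1 (k v (k (c 24 4097 r (u 16 0 (k v (k v r)))) r)))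
 N42 N43)

set_option maxRecDepth 100000 in
def T74 : NT :=
(.s 0x3aa57f5000e0 4082 (n false (n false (n false (n false (z 156) e) e) (n true (n false e e) e)) e) (u 16 1 (k v (k (c 48 4099 r (u 32 1 (k v (k v r)))) (k (c 32 4098 r (u 48 1 (k v (k v r)))) (k (c 32 4097 r (u 48 1 (k v (k v r)))) (k (c 32 4099 r (u 48 1 (k v (k v r)))) (k (c 32 4095 r (c 4 4076 r v)) r)))))))
 T148 T149)

set_option maxRecDepth 100000 in
def T150 : NT :=
(.s 0x3be75fe003a0 4084 (n false (n false (n true (n true (z 121) e) e) e) (n true (n false (n false e e) e) e)) (u 16 1 (k v (k (c 48 4099 r (u 32 1 (k v (k v r)))) (k (c 32 4097 r (u 48 1 (k v (k v r)))) (k (c 32 4095 r (u 48 0 (k v (k v r)))) (k (c 32 4095 r (u 48 0 (k v (k v r)))) r))))))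
 N44 N45)

set_option maxRecDepth 100000 in
def T151 : NT :=
(.s 0x3e95df0042a0 4085 (n false (n true (n false (z 52) (n false e e)) e) (n false (n false (n false e e) e) e)) (u 8 36 (k v (k v (k (t 24 1 (u 16 0 (k v (k v r)))) r))))
 N46 N47)

set_option maxRecDepth 100000 in
def T75 : NT :=
(.s 0x3e5ffc00ae10 4082 (n false (n true (z 62) e) (n false (n false (n true (n false e e) e) (n false e e)) e)) (u 4 4 (k v (k v (k v (k (t 12 1 r) r)))))
 T150 T151)

set_option maxRecDepth 100000 in
def T37 : NT :=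
(.s 0x3b9fdf003850 4069 (n false (n false (n true (z 55) e) (n true (n false e e) e)) (n false (n false e e) e)) (u 8 4 (k (t 24 1 (u 16 3 (k v (k r (k r (k (t 32 3 (t 48 1 v)) (k (u 32 4 (k v (k (t 96 1 (u 64 4 (k v (k v r)))) r))) (k (u 32 1 (k v (k (t 96 1 (u 64 10 (k v (k v (k v (k (u 128 0 (k (t 256 3 (t 384 1 v)) r)) (k (u 128 4 (k v (k v (k v (k v r))))) (k (u 128 5 (k v (k v r))) r)))))))) (k (t 96 2 r) r)))) r)))))))) (k (t 24 2 r) r)))
 T74 T75)

set_option maxRecDepth 100000 in
def T18 : NT :=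
(.s 0x3a577c00fa80 4086 (n false (n true (n true (n false (n false (n false e e) e) e) e) e) (n false (z 52) e)) (u 5 156 (k v (k v (k v (k v (k (t 13 1 (u 9 0 (k v (k v r)))) r))))))
 T36 T37)

set_option maxRecDepth 100000 in
def T152 : NT :=
(.s 0x1cfaac03fb840 4089 (n false (n true (n true (n true (n false (n true (n false e e) e) (n false e e)) e) e) e) (z 67)) (u 3 21 (k v (k v (k v (k v (k v (k r (k r (k r (k (t 7 1 (u 5 1 (k v (k v r)))) (k (c 5 4101 r (u 7 0 (k v (k v r)))) (k r (k (c 2 4089 v r) (k (c 2 4089 v (t 7 2 (u 5 0 (k r r)))) (k (c 7 4101 r (u 5 1 (k v (k v r)))) (k (t 7 1 (u 5 9 (k v (k v (k v (k (c 13 4099 r (u 9 1 (k v (k v r)))) r)))))) (k (c 7 4102 r (u 5 1 (k v (k v r)))) (k (t 7 1 (u 5 3 (k v (k v (k (c 13 4099 r (u 9 1 (k v (k v r)))) r))))) r))))))))))))))))))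
 N48 N49)

set_option maxRecDepth 100000 in
def T153 : NT :=
(.s 0x1d3eaf008ee10 4073 (n false (n false (z 99) (n false e e)) (n true (n false (n true (n false e e) e) (n false e e)) e)) (u 4 0 (k (c 12 4096 r r) (k (c 12 4096 r r) (k (c 12 4096 r r) (k (c 12 4096 r r) (k (c 12 4096 r r) r))))))
 N50 N51)

set_option maxRecDepth 100000 in
def T76 : NT :=
(.s 0x1d2efa008ba20 4067 (n false (n false (z 26) (n false e e)) (n false (n true (n false (n false e e) (n false e e)) e) e)) (u 4 2 (k v (k (u 8 2 (k v (k v r))) r)))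
 T152 T153)

set_option maxRecDepth 100000 in
def T154 : NT :=
(.s 0x1d54bffc01088 4085 (n false (n false (n false (n false (n false (z 126) e) (n false e e)) e) (n false e e)) (n false e e)) (u 32 3 (k v (k (t 96 1 (u 64 37 (k v (k v (k v r))))) (k (c 16 4091 (t 6 1 r) v) r))))
 N52 N53)

set_option maxRecDepth 100000 in
def T155 : NT :=
(.s 0x1dcfef801d108 4073 (n false (n false (n true (z 55) e) (n true (n false (n false e e) (n false e e)) e)) (n false e e)) (u 8 6 (k v (k (t 24 1 (u 16 40 (k v (k (c 48 4099 r (t 32 3 v)) r)))) r)))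
 N54 N55)

set_option maxRecDepth 100000 in
def T77 : NT :=
(.s 0x1dcbaf8011510 4074 (n false (n false (n true (z 50) e) (n false e e)) (n false (n false (n false e e) (n false e e)) e)) (u 8 2 (k v (k (c 24 4097 r (u 16 0 (k v (k v r)))) r)))
 T154 T155)

set_option maxRecDepth 100000 in
def T38 : NT :=
(.s 0x1d4feac011510 4077 (n false (n false (n false (z 71) e) (n false e e)) (n false (n false (n false e e) (n false e e)) e)) (u 8 1 (k v (k (c 24 4099 r (u 16 1 (k v (k v r)))) (k (u 16 0 (k v (k v r))) (k (c 16 4099 r (u 24 1 (k v (k v r)))) (k (c 16 4099 r (u 24 1 (k v (k v r)))) (k (c 16 4099 r (u 24 1 (k v (k v r)))) r)))))))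
 T76 T77)

set_option maxRecDepth 100000 in
def T156 : NT :=
(.s 0x1f3aff005d108 4090 (n false (n false (n true (n false (n false e e) (n false e e)) e) (n false e e)) (n true (z 121) e)) (u 5 1 (k v (k (c 13 4099 r (u 9 1 (k v (k v r)))) (k (c 9 4097 r (u 13 1 (k v (k v r)))) (k (c 9 4095 r (u 13 0 (k v (k v r)))) (k (c 9 4095 r (u 13 0 (k v (k v r)))) r))))))
 N56 N57)

set_option maxRecDepth 100000 in
def T157 : NT :=
(.s 0x1f73efb001f40 4088 (n false (n true (n false (n true (z 91) e) e) e) (n true (n true (n false (n false e e) e) e) e)) (u 16 6 (k v (k v (k (u 32 1 (k v (k v r))) (k (c 32 4097 r (u 48 0 (k v (k v r)))) (k (c 32 4097 r (u 48 0 (k v (k v r)))) r))))))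
 N58 N59)

set_option maxRecDepth 100000 in
def T78 : NT :=
(.s 0x1f4bbe8021d10 4075 (n false (n true (n false (z 26) (n false e e)) e) (n true (n false (n false e e) (n false e e)) e)) (u 8 2 (k v (k (u 16 8 (k v (k v (k v r)))) r)))
 T156 T157)

set_option maxRecDepth 100000 in
def T158 : NT :=
(.s 0xe775c012bff00 4097 (n false (z 124) (z 37)) (u 2 1 (k (u 3 1 (k v (k v r))) (k (c 6 4097 r r) (k (c 6 4096 r r) (k (c 4 4098 r r) (k (c 6 4096 r r) (k (c 6 4097 r r) (k (c 6 4097 r r) (k (c 6 4096 r r) (k (c 6 4099 r r) (k (c 4 4097 r r) r)))))))))))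
 N60 N61)

set_option maxRecDepth 100000 in
def T159 : NT :=
(.s 0xe9dd7005c23a0 4077 (n false (n false (z 37) (n false (n true (n false e e) e) (n false e e))) (n true (n false (n false e e) e) e)) (u 4 22 (k v (k (u 8 0 (k (t 16 3 (t 24 1 v)) r)) (k r (k (u 8 6 (k v (k (t 24 1 (u 16 10 (k v (k v r)))) r))) (k (u 8 0 (k (t 16 3 (t 24 1 v)) r)) (k r r)))))))
 N62 N63)

set_option maxRecDepth 100000 in
def T79 : NT :=
(.s 0xe7f56013bae00 4100 (n false (z 71) (z 37)) (u 3 1 (k (c 2 4102 r v) (k (u 2 1 (k v (k (c 6 4099 r (u 4 1 (k v (k v r)))) (k (u 4 0 (k v (k v r))) (k (c 4 4099 r (u 6 1 (k v (k v r)))) (k (c 4 4099 r (u 6 1 (k v (k v r)))) (k (c 4 4099 r (u 6 1 (k v (k v r)))) r))))))) r)))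
 T158 T159)

set_option maxRecDepth 100000 in
def T39 : NT :=
(.s 0x1fd2eee0083a0 4080 (n false (n true (n true (n false (z 42) (n false e e)) e) e) (n true (n false (n false e e) e) e)) (u 16 11 (k v (k v (k (c 4 4085 (t 12 1 (u 8 0 (k r r))) v) r))))
 T78 T79)

set_option maxRecDepth 100000 in
def T19 : NT :=
(.s 0x1dd3fbf00e088 4070 (n false (n false (n true (n false (z 119) (n true (n false e e) e)) e) (n false e e)) (n false e e)) (u 16 1 (k (c 48 4101 r r) (k (c 32 4096 r (u 48 0 (k (t 80 3 (t 112 1 v)) r))) (k (c 32 4096 r r) (k r (k (c 48 4099 r r) (k (c 48 4097 r r) (k (c 24 4094 v (u 48 0 (k (c 112 4101 r (t 80 3 (u 32 0 (k r r)))) r))) (k (c 32 4098 r r) (k r (k (c 32 4101 r r) (k (c 32 4099 r r) (k r (k (c 32 4101 r r) r))))))))))))))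
 T38 T39)

set_option maxRecDepth 100000 in
def T9 : NT :=
(.s 0x3f97ff001d10 4078 (n false (n true (n true (z 62) e) e) (n true (n false (n false e e) (n false e e)) e)) (u 8 1 (k v (k v (k v (k (t 24 1 r) r)))))
 T18 T19)

set_option maxRecDepth 100000 in
def T4 : NT :=
(.s 0x74fefc01708 4079 (n false (n false (z 119) e) (n false (n true (n false e e) e) (n false e e))) (u 4 2 (k v (k (c 12 4101 r r) (k (c 8 4096 r (u 12 0 (k (t 20 3 (t 28 1 v)) r))) (k (c 8 4096 r r) (k (c 12 4099 r r) (k (c 12 4097 r r) (k (c 8 4102 r (u 12 0 (k (t 20 3 (t 28 1 v)) r))) (k (c 8 4098 r r) (k r (k (c 8 4101 r r) (k (c 8 4099 r r) (k (t 12 1 (u 8 4 (k v (k (c 24 4099 r (u 16 1 (k v (k v r)))) r)))) (k (c 8 4101 r r) r))))))))))))))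
 T8 T9)

set_option maxRecDepth 100000 in
def T160 : NT :=
(.s 0xeab9f57003820 4083 (n false (n false (n false (n false (n false (n true (z 35) e) (n true (n false e e) e)) e) (n false e e)) e) e) (u 64 29 (k v (k v (k v (k v r)))))
 N64 N65)

set_option maxRecDepth 100000 in
def T161 : NT :=
(.s 0xee5ffc00ee108 4064 (n false (n false (n true (z 62) e) (n true (n false (n true (n false e e) e) (n false e e)) e)) (n false e e)) (u 8 1 (k v (k v (k v (k (t 24 1 r) r)))))
 N66 N67)

set_option maxRecDepth 100000 in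
def T80 : NT :=
(.s 0xee577c00e8288 4071 (n false (n false (n true (z 52) e) (n true (n false (n false e e) e) e)) (n false (n false e e) (n false e e))) (u 8 254 (k v (k v (k v (k (t 24 1 (u 16 2 (k v (k v r)))) r)))))
 T160 T161)

set_option maxRecDepth 100000 in
def T162 : NT :=
(.s 0xeee7d5c00e088 4070 (n false (n false (n true (n false (n true (z 35) e) (n true (n false e e) e)) e) (n false e e)) (n false e e)) (u 32 5 (k v (k v (k v (k (t 96 1 (u 64 0 (k (t 128 3 (t 192 1 v)) r))) r)))))
 N68 N69)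

set_option maxRecDepth 100000 in
def T163 : NT :=
(.s 0xfa7f7e007dc20 4087 (n false (n true (n false (z 119) e) e) (n true (n true (n false (n true (n false e e) e) (n false e e)) e) e)) (u 8 41 (k v (k v (k v (k (t 24 1 r) (k (c 16 4097 r r) (k (c 16 4097 r (u 24 2 (k v (k (c 56 4097 r (u 40 0 (k v (k v r)))) r)))) (k (c 24 4097 r r) (k (c 24 4097 r r) (k (c 24 4097 r r) (k (c 24 4097 r r) r)))))))))))
 N70 N71)

set_option maxRecDepth 100000 in
def T81 : NT :=
(.s 0xf95fd40075c20 4087 (n false (n true (n false (n false (n true (n false e e) e) (n false e e)) e) e) (n true (z 156) e)) (u 5 1 (k v (k (c 13 4099 r (u 9 1 (k v (k v r)))) (k (c 9 4098 r (u 13 1 (k v (k v r)))) (k (c 9 4097 r (u 13 1 (k v (k v r)))) (k (c 9 4099 r (u 13 1 (k v (k v r)))) (k (c 9 4095 r (u 13 0 (k v (k v r)))) r)))))))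
 T162 T163)

set_option maxRecDepth 100000 in
def T40 : NT :=
(.s 0xee7df6008ae10 4072 (n false (n false (n true (z 91) e) (n false e e)) (n false (n false (n true (n false e e) e) (n false e e)) e)) (u 8 2 (k v (k v (k (u 16 1 (k v (k v r))) (k (c 16 4097 r (u 24 0 (k v (k v r)))) (k (c 16 4097 r (u 24 0 (k v (k v r)))) (k (c 16 4096 r (u 24 0 (k v (k v r)))) (k (c 16 4095 r (u 24 0 (k v (k v r)))) r))))))))
 T80 T81)

set_option maxRecDepth 100000 in
def T164 : NT :=
(.s 0xfb9f7d800ee10 4074 (n false (n true (n false (n true (z 91) e) e) e) (n true (n false (n true (n false e e) e) (n false e e)) e)) (u 16 5 (k v (k (u 32 1 (k v (k v r))) (k (c 32 4097 r (u 48 0 (k v (k v r)))) (k (c 32 4097 r (u 48 0 (k v (k v r)))) (k (c 32 4097 r (u 48 0 (k v (k v r)))) (k (c 32 4096 r (u 48 0 (k v (k v r)))) (k (c 32 4095 r (u 48 0 (k v (k v r)))) r))))))))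
 N72 N73)

set_option maxRecDepth 100000 in
def T165 : NT :=
(.s 0x73eea801d44510 4093 (n false (z 139) (n true (n false (n false (n false e e) (n false e e)) (n false (n false e e) (n false e e))) e)) (u 2 3 (k v (k (t 6 2 (u 4 0 (k (t 12 2 (u 8 0 (k (t 24 1 (u 16 26 (k v (k v (k (u 32 1 (k v (k v r))) (k (c 8 4097 r v) (k (c 2 4070 r v) (k (c 8 4100 (u 4 0 (k (u 8 0 (k v (k v r))) r)) v) (k (u 32 10 (k v (k v (k v (k (c 96 4099 r (u 64 1 (k v (k v r)))) r))))) (k (u 32 2 (k v (k (c 96 4099 r (u 64 1 (k v (k v r)))) (k (c 64 4095 r (u 96 0 (k v (k v r)))) r)))) r)))))))))) r))) r))) r)))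
 N74 N75)

set_option maxRecDepth 100000 in
def T82 : NT :=
(.s 0xfe7f7e0075c20 4091 (n false (n true (n true (z 119) e) e) (n true (n false (n false (n true (n false e e) e) (n false e e)) e) e)) (u 8 10 (k v (k (t 24 1 (u 16 71 (k v (k v (k v r))))) (k (c 24 4097 r (u 16 60 (k v (k v (k v (k v (k v r))))))) (k (c 24 4097 r (u 16 24 (k v (k v (k (c 48 4099 r (u 32 1 (k v (k v r)))) (k (c 32 4099 r (u 48 1 (k v (k v r)))) r)))))) r)))))
 T164 T165)

set_option maxRecDepth 100000 in
def T166 : NT :=
(.s 0x74eeec0275fe00 4090 (n false (n false (z 85) (z 121)) e) (u 6 1 (k r (k (c 14 4099 r (u 10 1 (k r (k r r)))) (k (c 10 4097 r (u 14 1 (k r (k r r)))) (k (c 10 4095 r (t 4 1 r)) (k (c 10 4095 r (t 4 1 r)) r))))))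
 N76 N77)

set_option maxRecDepth 100000 in
def T167 : NT :=
(.s 0x754ffac010ee10 4078 (n false (n false (n false (n false (z 79) e) (n false e e)) e) (n true (n false (n true (n false e e) e) (n false e e)) e)) (u 16 3 (k v (k (u 32 20 (k v (k v (k v (k v r))))) (k (c 48 4096 r (u 32 1 (k v (k v r)))) r))))
 N78 N79)

set_option maxRecDepth 100000 in
def T83 : NT :=
(.s 0x74feac025fdc00 4091 (n false (n false (z 46) (z 71)) e) (u 6 1 (k r (k (c 14 4099 r (u 10 1 (k r (k r r)))) (k (u 10 0 (k r (k r r))) (k (c 10 4099 r (u 14 1 (k r (k r r)))) (k (c 10 4099 r (u 14 1 (k r (k r r)))) (k (c 10 4099 r (u 14 1 (k r (k r r)))) r)))))))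
 T166 T167)

set_option maxRecDepth 100000 in
def T41 : NT :=
(.s 0x74bbb8023fb840 4079 (n false (n false (z 42) (n false e e)) (n true (n true (n true (n false (n true (n false e e) e) (n false e e)) e) e) e)) (u 4 11 (k v (k v (k (c 2 4086 (t 6 1 (u 4 0 (k r r))) v) r))))
 T82 T83)

set_option maxRecDepth 100000 in
def T20 : NT :=
(.s 0xfa95fd40043a0 4073 (n false (n true (n false (n false (z 156) e) (n false e e)) e) (n true (n false (n false e e) e) e)) (u 16 1 (k v (k (c 48 4099 r (u 32 1 (k v (k v r)))) (k (c 32 4098 r (u 48 1 (k v (k v r)))) (k (c 32 4097 r (u 48 1 (k v (k v r)))) (k (c 32 4099 r (u 48 1 (k v (k v r)))) (k (c 32 4095 r (u 48 0 (k v (k v r)))) r)))))))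
 T40 T41)

set_option maxRecDepth 100000 in
def T168 : NT :=
(.s 0x774aaac0215c20 4077 (n false (n false (n true (n false (z 64) (n false e e)) e) (n false (n false (n true (n false e e) e) (n false e e)) e)) e) (u 16 0 (k (c 48 4099 r (u 32 2 (k v (k (c 4 4078 (u 16 1 (k v (k v r))) v) r)))) r))
 N80 N81)

set_option maxRecDepth 100000 in
def T169 : NT :=
(.s 0x77f3fbb0015c20 4077 (n false (n false (n true (n true (n true (z 87) e) e) e) (n false (n false (n true (n false e e) e) (n false e e)) e)) e) (c 10 4092 v (u 32 1 (k v (k v r))))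
 N82 N83)

set_option maxRecDepth 100000 in
def T84 : NT :=
(.s 0x77caef8008ee10 4063 (n false (n false (n true (n true (z 52) e) e) (n false e e)) (n true (n false (n true (n false e e) e) (n false e e)) e)) (u 16 23 (k v (k v (k v (k v (k v (k v (k v (k (t 48 2 (u 32 0 (k (u 64 2 (k v (k (c 8 4078 (u 16 1 (k v (k v r))) v) r))) r))) (k (t 48 1 (u 32 0 (k (c 96 4099 r (u 64 2 (k v (k (c 8 4078 (u 16 1 (k v (k v r))) v) r)))) r))) r))))))))))
 T168 T169)

set_option maxRecDepth 100000 in
def T170 : NT :=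
(.s 0x7cebfc013eee00 4098 (n false (n true (z 121) e) (z 43)) (u 3 3 (k r (k r (k r (k (u 5 28 (k r (k r (k (c 4 4101 r v) r)))) (k r (k (u 5 0 (k r r)) (k r (k r r)))))))))
 N84 N85)

set_option maxRecDepth 100000 in
def T171 : NT :=
(.s 0x7d2bbe00ee1050 4077 (n false (n true (n false (z 52) (n true (n false (n true (n false e e) e) (n false e e)) e)) e) (n false (n false e e) e)) (u 8 171 (k v (k v (k v (k v (k (t 24 1 (u 16 0 (k v (k v r)))) r))))))
 N86 N87)

set_option maxRecDepth 100000 in
def T85 : NT :=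
(.s 0x7cfaf8013aff00 4094 (n false (z 121) (n true (z 51) e)) (u 2 4 (k r (k (t 5 1 v) (k (c 6 4099 r (u 4 1 (k r (k r r)))) (k (c 4 4097 r (u 6 1 (k r (k r r)))) r)))))
 T170 T171)

set_option maxRecDepth 100000 in
def T42 : NT :=
(.s 0x7cbae8012aeb00 4092 (n false (z 72) (n true (z 18) e)) (u 2 0 (k (t 6 2 (u 4 13 (k (u 5 0 (k (u 9 0 (k v (k v r))) r)) (k (u 5 0 (k (u 9 0 (k v (k v r))) r)) (k r (k (c 12 4099 r r) (k r (k r (k r (k r r)))))))))) r))
 T84 T85)

set_option maxRecDepth 100000 in
def T172 : NT :=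
(.s 0x7df3fbe0021708 4068 (n false (n true (n false (n true (n true (z 55) e) e) (n false e e)) e) (n false (n true (n false e e) e) (n false e e))) (u 32 4 (k (t 96 1 (u 64 28 (k v (k v (k v (k (u 128 2 (k v (k v r))) (k (u 128 6 (k v (k v r))) r))))))) (k (c 16 4091 (t 6 2 r) v) r)))
 N88 N89)

set_option maxRecDepth 100000 in
def T173 : NT :=
(.s 0x3a5ddc0112afe00 4088 (n false (n false (z 42) (n false e e)) (z 56)) (u 4 11 (k r (k r (k (c 3 4096 r (t 12 1 (u 8 0 (k r r)))) r))))
 N90 N91)

set_option maxRecDepth 100000 in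
def T86 : NT :=
(.s 0x3a55fc0112bbe00 4086 (n false (n false (z 56) (n false e e)) (z 52)) (u 4 1 (k (u 8 1 (k r (k r r))) (k (u 3 299 (k r (k r (k r (k r (k (c 8 4097 r v) (k (c 8 4097 r v) (k r (k (u 8 300 (k v (k v (k v (k v (k v (k v (k v r)))))))) (k (c 2 4094 (c 2 4096 r v) (t 7 2 r)) (k (c 2 4094 (c 2 4096 r v) (t 7 1 r)) r))))))))))) (k (c 8 4096 r (u 12 0 (k r (k r r)))) (k (c 12 4096 r r) r)))))
 T172 T173)

set_option maxRecDepth 100000 in
def T174 : NT :=
(.s 0x3a7776013bbb008 4088 (n false (n false (z 85) (z 85)) (n false e e)) (u 4 27 (k r (k r (k (t 6 1 r) (k (c 12 4096 r (u 6 40 (k r (k r (k r (k (c 8 4096 r r) (k (c 10 4099 r (u 14 160 (k r (k r (k r (k (c 8 4096 r v) (k (t 30 1 (u 8 2 (k (u 22 0 (k v (k v r))) (k (t 22 2 (t 24 2 r)) r)))) r))))))) r))))))) (k (c 8 4099 r (u 12 159 (k r (k r (k (t 6 1 v) r))))) r))))))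
 N92 N93)

set_option maxRecDepth 100000 in
def T175 : NT :=
(.s 0x3a9f55803a88a20 4085 (n false (n false (n false (z 67) e) (n true (n false (n false (n false e e) (n false e e)) (n false (n false e e) (n false e e))) e)) e) (u 8 74 (k v (k v (k v (k v (k r (k (t 24 2 r) (k (c 16 4101 r (u 24 0 (k v (k v r)))) (k (c 24 4099 r r) (k (c 16 4099 r (u 24 0 (k v (k v r)))) (k (c 24 4099 r (u 16 0 (k (u 32 0 (k v (k v r))) r))) (k (t 16 1 r) (k (c 24 4099 r r) (k (c 24 4102 r (u 16 1 (k v (k v r)))) (k (c 24 4100 r r) (k (c 24 4099 r r) (k (c 24 4099 r r) (k (c 24 4099 r r) r))))))))))))))))))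
 N94 N95)

set_option maxRecDepth 100000 in
def T87 : NT :=
(.s 0x3a7df601708ee10 4076 (n false (n false (z 91) (n false (n true (n false e e) e) (n false e e))) (n true (n false (n true (n false e e) e) (n false e e)) e)) (u 4 4 (k v (k v (k (u 8 1 (k v (k v r))) (k (c 8 4097 r (u 12 0 (k v (k v r)))) (k (c 8 4097 r (u 12 0 (k v (k v r)))) (k (c 8 4096 r (u 12 0 (k v (k v r)))) (k (c 8 4095 r (u 12 0 (k v (k v r)))) r))))))))
 T174 T175)

set_option maxRecDepth 100000 in
def T43 : NT :=
(.s 0x3a75f60112fee00 4088 (n false (n false (z 89) (n false e e)) (z 46)) (u 4 19 (k r (k r (k (u 3 6 (k v (k v (k (u 5 1 (k v (k v r))) (k (c 7 4099 r (u 5 0 (k v (k v r)))) (k (u 5 1 (k v (k v r))) (k (c 7 4097 r (u 5 1 (k v (k v r)))) r))))))) r))))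
 T86 T87)

set_option maxRecDepth 100000 in
def T21 : NT :=
(.s 0x7dcaaaa0021d10 4075 (n false (n true (n false (n true (z 128) e) (n false e e)) e) (n true (n false (n false e e) (n false e e)) e)) (u 16 19 (k v (k v (k v (k (c 48 4097 r r) (k (c 32 4095 r (u 48 2 (k v (k (c 112 4099 r (u 80 0 (k v (k v r)))) (k r (k (u 80 26 (k v (k v r))) (k (c 112 4097 r r) (k (c 80 4095 r r) r)))))))) (k (c 48 4095 r (u 32 45 (k v (k v (k v (k (c 96 4099 r r) (k (c 2 4081 r v) (k (c 64 4099 r r) r)))))))) (k (c 48 4095 r (u 32 1 (k v (k v r)))) (k (c 32 4097 r (u 48 0 (k v (k v r)))) (k (c 32 4095 r (u 48 1 (k v (k v r)))) (k (c 32 4097 r r) r)))))))))))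
 T42 T43)

set_option maxRecDepth 100000 in
def T10 : NT :=
(.s 0x772bfa800fb840 4070 (n false (n false (n true (z 156) e) (n true (n true (n false (n true (n false e e) e) (n false e e)) e) e)) e) (u 8 1 (k v (k (c 24 4099 r (u 16 1 (k v (k v r)))) (k (c 16 4098 r (u 24 1 (k v (k v r)))) (k (c 16 4097 r (u 24 1 (k v (k v r)))) (k (c 16 4099 r (u 24 1 (k v (k v r)))) (k (c 16 4095 r (u 24 0 (k v (k v r)))) r)))))))
 T20 T21)

set_option maxRecDepth 100000 in
def T176 : NT :=
(.s 0x3b95ff8022a2288 4084 (n false (n false (n true (z 124) e) (n false e e)) (n false (n false (n false e e) (n false e e)) (n false (n false e e) (n false e e)))) (u 8 4 (k v (k v (k (c 24 4097 r (u 16 1 (k v (k v r)))) (k (c 24 4096 r (u 16 1 (k v (k v r)))) (k (c 16 4098 r (u 24 0 (k v (k v r)))) (k (c 24 4096 r (u 16 1 (k v (k v r)))) (k (c 24 4097 r (u 16 1 (k v (k v r)))) (k (c 24 4097 r (u 16 1 (k v (k v r)))) (k (c 24 4096 r (u 16 1 (k v (k v r)))) (k (c 16 4097 r (u 24 1 (k v (k v r)))) r)))))))))))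
 N96 N97)

set_option maxRecDepth 100000 in
def T177 : NT :=
(.s 0x3ba97ff80211708 4070 (n false (n false (n true (n false (n false (z 126) e) (n false e e)) e) (n false e e)) (n false (n true (n false e e) e) (n false e e))) (u 32 1 (k v (k (t 96 1 (u 64 1 (k v (k (c 192 4099 r (u 128 1 (k v (k v r)))) (k (c 128 4097 r (u 192 1 (k v (k v r)))) (k (c 128 4095 r (u 192 0 (k v (k v r)))) (k (c 128 4095 r (u 192 0 (k v (k v r)))) r))))))) (k (t 96 1 (u 64 19 (k v (k (c 192 4099 r (u 128 12 (k v (k v r)))) (k (c 128 4096 r (u 192 1 (k v (k v r)))) r))))) r))))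
 N98 N99)

set_option maxRecDepth 100000 in
def T88 : NT :=
(.s 0x3b9fd58022a2288 4087 (n false (n false (n true (z 71) e) (n false e e)) (n false (n false (n false e e) (n false e e)) (n false (n false e e) (n false e e)))) (u 8 1 (k v (k (c 24 4099 r (u 16 1 (k v (k v r)))) (k (u 16 0 (k v (k v r))) (k (c 16 4099 r (u 24 1 (k v (k v r)))) (k (c 16 4099 r (u 24 1 (k v (k v r)))) (k (c 16 4099 r (u 24 1 (k v (k v r)))) r)))))))
 T176 T177)

set_option maxRecDepth 100000 in
def T178 : NT :=
(.s 0x3e57f50013eee00 4098 (n false (n true (z 156) e) (z 43)) (u 4 1 (k r (k (c 12 4099 r (u 8 1 (k r (k r r)))) (k (c 8 4098 r (u 12 1 (k r (k r r)))) (k (c 8 4097 r r) (k (c 8 4099 r (u 12 1 (k r (k r r)))) (k (c 8 4095 r (u 12 0 (k r (k r r)))) r)))))))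
 N100 N101)

set_option maxRecDepth 100000 in
def T179 : NT :=
(.s 0x3e7f760095fd400 4096 (n false (z 156) (n true (z 87) e)) (u 2 1 (k (u 5 1 (k v (k v r))) (k (c 6 4099 r r) (k (c 4 4098 r r) (k (c 4 4097 r r) (k (c 4 4099 r r) (k (c 4 4095 r r) r)))))))
 N102 N103)

set_option maxRecDepth 100000 in
def T89 : NT :=
(.s 0x3e775c00aa22888 4099 (n false (n true (z 37) e) (n false (n false (n false (n false e e) (n false e e)) (n false (n false e e) (n false e e))) (n false e e))) (u 4 0 (k v (k (u 8 0 (k (t 16 3 (t 24 1 v)) r)) (k (u 8 0 (k (t 16 3 (t 24 1 v)) r)) (k (u 8 0 (k v (k v (k (t 24 1 (u 16 0 (k (t 32 3 (t 48 1 v)) r))) r)))) (k (u 8 0 (k v (k v (k (t 24 1 (u 16 0 (k (t 32 3 (t 48 1 v)) r))) r)))) (k (c 4 4095 r v) r)))))))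
 T178 T179)

set_option maxRecDepth 100000 in
def T44 : NT :=
(.s 0x3be775c0070ee10 4076 (n false (n false (n true (n true (z 37) e) e) (n true (n false e e) e)) (n true (n false (n true (n false e e) e) (n false e e)) e)) (u 16 24 (k v (k (u 32 0 (k (t 64 3 (t 96 1 v)) r)) (k r (k (u 32 0 (k (t 64 3 (t 96 1 v)) r)) (k (u 32 2 (k v (k v (k v (k (t 96 1 (u 64 0 (k (t 128 3 (t 192 1 v)) r))) r))))) (k (c 3 4091 v r) r)))))))
 T88 T89)

set_option maxRecDepth 100000 in
def T180 : NT :=
(.s 0x3ea88a2213afe00 4091 (n false (z 57) (n true (n false (n false (n false (n false e e) (n false e e)) (n false (n false e e) (n false e e))) (n false e e)) e)) (u 2 0 (k v (k (t 4 3 (t 6 3 v)) (k (t 6 1 (u 4 0 (k v (k v r)))) r))))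
 N104 N105)

set_option maxRecDepth 100000 in
def T181 : NT :=
(.s 0x3f9fdd8012aeb00 4095 (n false (n true (n true (z 87) e) e) (z 72)) (u 8 1 (k (u 3 0 (k (t 7 2 r) r)) (k (u 3 0 (k (t 7 2 r) r)) r)))
 N106 N107)

set_option maxRecDepth 100000 in
def T90 : NT :=
(.s 0x3efa80e0e5fdc00 4079 (n false (n true (n false (n true (n true (n false (n false (n false e e) e) e) e) e) (n true (n false e e) e)) e) (n true (z 46) e)) (u 5 2 (k v (k (c 13 4099 r (u 9 0 (k v (k v r)))) (k (u 9 1 (k v (k v r))) (k (u 9 0 (k v (k v r))) (k (c 13 4097 r (u 9 1 (k v (k v r)))) (k (c 9 4095 r (u 13 1 (k v (k v r)))) r)))))))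
 T180 T181)

set_option maxRecDepth 100000 in
def T182 : NT :=
(.s 0x1d2eee008ea88a20 4085 (n false (n false (z 42) (n false e e)) (n true (n false (n false (n false (n false e e) (n false e e)) (n false (n false e e) (n false e e))) e) e)) (u 4 36 (k v (k v (k (u 8 2 (k v (k v r))) (k (u 8 5 (k v (k (u 16 22 (k v (k v (k v (k v r))))) (k (c 24 4096 r (u 16 1 (k v (k v r)))) r)))) (k (u 8 21 (k v (k v (k v (k (c 16 4097 r (u 24 1 (k v (k v r)))) r))))) (k (u 8 8 (k v (k v (k (c 24 4099 r (u 16 1 (k v (k v r)))) (k (c 16 4098 r (u 24 1 (k v (k v r)))) (k (c 16 4097 r (u 24 1 (k v (k v r)))) (k (c 16 4099 r (u 24 1 (k v (k v r)))) r))))))) r)))))))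
 N108 N109)

set_option maxRecDepth 100000 in
def T183 : NT :=
(.s 0x1d4fef801708ee10 4075 (n false (n false (n false (z 55) e) (n false (n true (n false e e) e) (n false e e))) (n true (n false (n true (n false e e) e) (n false e e)) e)) (u 8 6 (k v (k (t 24 1 (u 16 10 (k v (k v r)))) r)))
 N110 N111)

set_option maxRecDepth 100000 in
def T91 : NT :=
(.s 0x1d3eef00895fd400 4091 (n false (n false (z 107) (n false e e)) (z 156)) (u 3 5 (k r (k r (k (c 7 4099 r (u 5 1 (k r (k r r)))) (k (c 5 4098 r (u 7 1 (k r (k r r)))) (k (c 5 4097 r (u 7 1 (k r (k r r)))) (k (c 5 4099 r (u 7 1 (k r (k r r)))) r)))))))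
 T182 T183)

set_option maxRecDepth 100000 in
def T45 : NT :=
(.s 0x1d2bfa8012aaa800 4091 (n false (n false (z 128) (z 156)) e) (u 6 1 (k r (k (c 14 4099 r (u 10 1 (k r (k r r)))) (k (c 10 4098 r (u 14 1 (k r (k r r)))) (k (c 10 4097 r (u 14 1 (k r (k r r)))) (k (c 10 4099 r (u 14 1 (k r (k r r)))) (k (c 10 4095 r (t 4 1 r)) r)))))))
 T90 T91)

set_option maxRecDepth 100000 in
def T22 : NT :=
(.s 0x3e9f558013fab00 4096 (n false (z 71) (n true (n false (z 67) e) e)) (u 2 1 (k r (k (c 6 4099 r (u 4 1 (k r (k r r)))) (k (u 9 0 (k r (k r r))) (k (c 4 4099 r (u 6 1 (k r (k r r)))) (k (c 4 4099 r (u 6 1 (k r (k r r)))) (k (c 4 4099 r (u 6 1 (k r (k r r)))) r)))))))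
 T44 T45)

set_option maxRecDepth 100000 in
def T184 : NT :=
(.s 0x1dcafea003a88a20 4084 (n false (n false (n true (z 156) e) (n true (n false (n false (n false e e) (n false e e)) (n false (n false e e) (n false e e))) e)) e) (u 8 8 (k v (k v (k (c 24 4099 r (u 16 1 (k v (k v r)))) (k (c 16 4098 r (u 24 1 (k v (k v r)))) (k (c 16 4097 r (u 24 1 (k v (k v r)))) (k (c 16 4099 r (u 24 1 (k v (k v r)))) r)))))))
 N112 N113)

set_option maxRecDepth 100000 in
def T185 : NT :=
(.s 0x1dd3aff003a88a20 4071 (n false (n false (n true (n false (z 121) e) e) (n true (n false (n false (n false e e) (n false e e)) (n false (n false e e) (n false e e))) e)) e) (u 16 1 (k v (k (c 48 4099 r (u 32 1 (k v (k v r)))) (k (c 32 4097 r (u 48 1 (k v (k v r)))) (k (c 32 4095 r (u 48 0 (k v (k v r)))) (k (c 32 4095 r (u 48 0 (k v (k v r)))) r))))))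
 N114 N115)

set_option maxRecDepth 100000 in
def T92 : NT :=
(.s 0x1dcebfc0113fab00 4088 (n false (n false (n true (z 121) e) (n false e e)) (z 71)) (u 3 1 (k r (k (c 7 4099 r (u 5 1 (k r (k r r)))) (k (u 5 0 (k r (k r r))) (k (c 5 4099 r (u 7 1 (k r (k r r)))) (k (c 5 4099 r (u 7 1 (k r (k r r)))) (k (c 5 4099 r (u 7 1 (k r (k r r)))) r)))))))
 T184 T185)

set_option maxRecDepth 100000 in
def T186 : NT :=
(.s 0x1dfdc2070e7f7c00 4075 (n false (n true (z 55) e) (n false (n true (n true (n true (n false (n true (n false e e) e) (n false e e)) e) e) e) (n true (n false e e) e))) (u 4 6 (k v (k (t 12 1 (u 8 10 (k v (k v r)))) r)))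
 N116 N117)

set_option maxRecDepth 100000 in
def T187 : NT :=
(.s 0x1f7553bbe0043820 4069 (n false (n true (n false (n true (n false (n false (n false (n false (z 53) e) (n false e e)) e) (n true (n false e e) e)) e) (n false e e)) e) e) (u 256 0 (k (t 768 1 (u 512 13 (k v (k v (k v (k (u 1024 1 (k v (k v r))) (k (u 1024 1 (k v (k v r))) (k (c 1536 4097 r (u 1024 1 (k v (k v r)))) r)))))))) (k (t 768 1 (u 512 13 (k v (k v (k v (k (u 1024 12 (k v (k v r))) (k (c 1024 4099 r (u 1536 63 (k v (k v (k v (k v (k v r))))))) r))))))) r)))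
 N118 N119)

set_option maxRecDepth 100000 in
def T93 : NT :=
(.s 0x1f54451109d5d400 4091 (n false (z 145) (n true (n false (n false (n false (n false e e) (n false e e)) (n false (n false e e) (n false e e))) (n false e e)) e)) (u 2 1 (k v (k r (k (c 5 4099 v r) (k (c 5 4099 v r) (k (c 5 4099 v (t 4 2 (u 6 0 (k r r)))) (k (c 5 4099 v r) (k (c 5 4099 v r) (k (c 5 4099 v r) (k (c 5 4099 v (u 6 1 (k r (k (c 14 4097 r r) r)))) (k (c 5 4099 v r) (k (c 5 4099 v r) (k (c 5 4099 v r) (k (c 5 4099 v r) (k (c 5 4099 v r) (k (c 5 4099 v r) r))))))))))))))))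
 T186 T187)

set_option maxRecDepth 100000 in
def T46 : NT :=
(.s 0x1dddc2108e57fe00 4074 (n false (n false (n true (n false (n true (n false (n true (n false e e) e) (n false e e)) e) (n false e e)) e) (n false e e)) (n true (z 124) e)) (u 5 12 (k v (k v (k (c 13 4097 r (u 9 1 (k v (k v r)))) (k (c 13 4096 r (u 9 1 (k v (k v r)))) (k (c 13 4097 r (u 9 1 (k v (k v r)))) (k (c 13 4097 r (u 9 1 (k v (k v r)))) (k (c 13 4099 r (u 9 1 (k v (k v r)))) (k (c 9 4097 r (u 13 1 (k v (k v r)))) r)))))))))
 T92 T93)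

set_option maxRecDepth 100000 in
def T188 : NT :=
(.s 0xe97770077085d108 4072 (n false (n false (z 42) (n true (n false (n true (n false e e) e) (n false e e)) e)) (n false (n true (n false (n false e e) (n false e e)) e) (n false e e))) (u 4 36 (k v (k v (k (u 8 2 (k v (k v r))) (k (u 8 0 (k v (k (u 16 19 (k v (k v (k v (k (c 48 4099 r (u 32 1 (k v (k v r)))) r))))) r))) (k (u 8 38 (k v (k v (k v (k v r))))) (k (u 8 2 (k v (k (c 24 4099 r (u 16 1 (k v (k v r)))) (k (c 16 4095 r (u 24 0 (k v (k v r)))) r)))) r)))))))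
 N120 N121)

set_option maxRecDepth 100000 in
def T189 : NT :=
(.s 0xea77dc0114aab800 4088 (n false (n false (n false (z 45) (n false e e)) (n false (z 32) e)) e) (u 8 0 (k r (k (u 10 0 (k (t 18 3 (t 26 1 v)) r)) r)))
 N122 N123)

set_option maxRecDepth 100000 in
def T94 : NT :=
(.s 0xe9f5580741d44510 4082 (n false (n false (z 67) (n true (n false (n false e e) e) e)) (n true (n false (n false (n false e e) (n false e e)) (n false (n false e e) (n false e e))) e)) (u 4 50 (k v (k v (k v (k (c 8 4101 r r) (k (c 10 4094 v r) (k (c 8 4099 r r) (k (c 12 4101 r r) (k (c 12 4102 r r) (k (c 8 4101 r r) (k (c 8 4101 r r) r)))))))))))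
 T188 T189)

set_option maxRecDepth 100000 in
def T190 : NT :=
(.s 0xee5fd400e5ddc008 4073 (n false (n false (n true (z 42) e) (n true (z 14) e)) (n false e e)) (u 8 1 (k (u 10 0 (k v (k v r))) (k (u 10 0 (k v (k v r))) r)))
 N124 N125)

set_option maxRecDepth 100000 in
def T191 : NT :=
(.s 0xeea88a221cbbb800 4087 (n false (n false (n true (z 42) e) (n true (n false (n false (n false (n false e e) (n false e e)) (n false (n false e e) (n false e e))) (n false e e)) e)) e) (u 8 2 (k v (k (t 24 1 (c 10 4099 v r)) (k (u 16 2 (k v (k v r))) (k (c 10 4099 v r) (k (c 10 4099 v r) (k (c 10 4099 v r) r)))))))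
 N126 N127)

set_option maxRecDepth 100000 in
def T95 : NT :=
(.s 0xee9f75004aaac010 4089 (n false (n false (n true (n false (z 64) (z 11)) e) (n false e e)) e) (t 24 3 (u 16 0 (k (c 48 4099 r (u 32 4 (k v (k (c 16 4084 (u 4 1 (k v (k v r))) v) r)))) r)))
 T190 T191)

set_option maxRecDepth 100000 in
def T47 : NT :=
(.s 0xebab975f00210e80 4069 (n false (n false (n false (n true (n false (n false (n false (n true (z 50) e) (n false e e)) e) (n false e e)) e) (n true (n false (n false e e) e) e)) e) e) (c 4 4071 (u 64 2 (k v (k (c 192 4097 r (u 128 0 (k v (k v r)))) r))) v)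
 T94 T95)

set_option maxRecDepth 100000 in
def T23 : NT :=
(.s 0x1fcfeac00e7d7c00 4095 (n false (n true (n true (z 71) e) e) (n true (z 51) e)) (u 5 0 (k (t 13 1 (u 9 0 (k (t 17 3 (t 25 3 r)) r))) r))
 T46 T47)

set_option maxRecDepth 100000 in
def T11 : NT :=
(.s 0x1d73fbb00385dc20 4063 (n false (n false (n false (n true (z 87) e) e) (n true (n false e e) e)) (n false (n true (n false (n true (n false e e) e) (n false e e)) e) e)) (c 8 4098 (u 2 0 (k v (k v r))) v)
 T22 T23)

set_option maxRecDepth 100000 in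
def T5 : NT :=
(.s 0x3aa57f500382288 4079 (n false (n false (n false (n false (z 156) (n true (n false e e) e)) e) (n false e e)) (n false (n false e e) (n false e e))) (u 16 1 (k v (k (c 48 4099 r (u 32 1 (k v (k v r)))) (k (c 32 4098 r (u 48 1 (k v (k v r)))) (k (c 32 4097 r (c 4 4083 r v)) (k (c 32 4099 r (u 48 1 (k v (k v r)))) (k (c 32 4095 r (c 4 4080 r v)) r)))))))
 T10 T11)

set_option maxRecDepth 100000 in
def T2 : NT :=
(.s 0xea75f600ea220 4082 (n false (n false (n false (z 89) e) (n true (n false (n false (n false e e) (n false e e)) (n false e e)) e)) e) (u 8 2 (k v (k v (k v (k (t 24 2 (u 16 6 (k v (k v (k (t 48 1 (u 32 2 (k v (k v r)))) r))))) r)))))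
 T4 T5)

set_option maxRecDepth 100000 in
def T192 : NT :=
(.s 0xfa75fe012bbe0050 4087 (n false (n true (n false (z 121) (z 52)) e) (n false (n false e e) e)) (u 8 18 (k r (k r (k (c 24 4099 r (u 16 1 (k r (k r r)))) (k (c 16 4097 r (u 24 1 (k r (k r r)))) (k (c 16 4095 r (u 24 0 (k r (k r r)))) (k (c 16 4095 r (u 24 0 (k r (k r r)))) r)))))))
 N128 N129)

set_option maxRecDepth 100000 in
def T193 : NT :=
(.s 0xfe75d6007caef800 4095 (n false (n true (n true (z 73) e) e) (n true (n true (z 52) e) e)) (u 8 0 (k (u 9 12 (k r (k r (k (u 16 0 (k v (k v r))) (k (c 2 4100 (c 4 4102 (t 2 2 v) v) v) (k (u 16 29 (k v (k v (k v r)))) (k (c 2 4100 (c 4 4102 (t 2 2 v) v) v) (k r r)))))))) r))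
 N130 N131)

set_option maxRecDepth 100000 in
def T96 : NT :=
(.s 0xfb9d7f8021544510 4087 (n false (n true (n false (n true (z 121) e) (n false e e)) e) (n false (n false (n false (n false e e) (n false e e)) (n false (n false e e) (n false e e))) e)) (u 16 34 (k v (k v (k v (k v r)))))
 T192 T193)

set_option maxRecDepth 100000 in
def T194 : NT :=
(.s 0x74ebfc025d7c01708 4076 (n false (n false (z 121) (z 50)) (n false (n true (n false e e) e) (n false e e))) (u 6 0 (k r (k (c 14 4097 r (u 4 0 (k (u 10 0 (k v (k v r))) (k (u 10 0 (k v (k v r))) (k (c 12 4099 r r) r))))) r)))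
 N132 N133)

set_option maxRecDepth 100000 in
def T195 : NT :=
(.s 0x754ebfc0257d40088 4084 (n false (n false (n false (n false (z 121) (z 12)) e) (n false e e)) (n false e e)) (t 24 3 (u 16 28 (k v (k v (k (c 48 4099 r (u 32 6 (k v (k v (k v r))))) (k (c 32 4095 r (c 4 4089 r v)) (k (c 32 4095 r (c 4 4089 r v)) r)))))))
 N134 N135)

set_option maxRecDepth 100000 in
def T97 : NT :=
(.s 0x752aae004eeb80288 4082 (n false (n false (n false (z 32) e) (z 37)) (n false (n false e e) (n false e e))) (u 6 29 (k (u 8 0 (k (t 16 3 (t 24 1 v)) r)) (k r (k r (k (u 10 0 (k (t 18 3 (t 26 1 (u 8 0 (k (t 16 3 (t 24 1 v)) r)))) r)) (k (u 8 0 (k (t 16 3 (t 24 1 (u 10 0 (k (t 18 3 (t 26 1 v)) r)))) r)) (k r r)))))))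
 T194 T195)

set_option maxRecDepth 100000 in
def T48 : NT :=
(.s 0xff9d75800e577c00 4095 (n false (n true (n true (n true (z 73) e) e) e) (n true (z 52) e)) (u 5 176 (k (u 16 0 (k r r)) (k (u 16 0 (k (u 32 0 (k v (k v r))) r)) (k (c 2 4099 (t 8 2 v) v) (k r (k r (k (c 16 4102 r v) (k r r))))))))
 T96 T97)

set_option maxRecDepth 100000 in
def T196 : NT :=
(.s 0x772eee004bfb80288 4078 (n false (n false (z 46) (n true (z 42) e)) (n false (n false e e) (n false e e))) (u 4 2 (k (u 10 1 (k v (k v r))) (k (c 12 4099 r r) (k r (k r (k (c 12 4097 r r) (k (c 8 4095 r r) r)))))))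
 N136 N137)

set_option maxRecDepth 100000 in
def T197 : NT :=
(.s 0x774eea8025ddc0088 4085 (n false (n false (n true (n false (z 42) (z 5)) e) (n false e e)) (n false e e)) (t 24 1 (u 16 10 (k v (k v (k (t 32 3 (t 48 1 v)) (k (c 8 4090 r v) (k (c 48 4110 r r) (k (c 48 4110 r r) (k (c 48 4110 r (c 40 4101 v (u 32 1 (k v (k v r))))) (k (c 8 4090 (c 3 4099 v r) v) (k (c 48 4110 r (c 40 4101 v (u 32 1 (k v (k v r))))) (k (c 8 4090 r v) (k (c 8 4090 r v) r)))))))))))))
 N138 N139)

set_option maxRecDepth 100000 in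
def T98 : NT :=
(.s 0x773eee0070e5d7400 4085 (n false (n false (n true (z 43) e) (n true (n false e e) e)) (n true (z 18) e)) (u 5 0 (k (u 9 3 (k r (k r (k r r)))) r))
 T196 T197)

set_option maxRecDepth 100000 in
def T198 : NT :=
(.s 0x77cbbb8008e577c00 4082 (n false (n false (n true (n true (z 42) e) e) (n false e e)) (n true (z 52) e)) (u 5 87 (k (u 16 1 (k v (k v r))) (k (u 16 1 (k v (k v r))) (k (u 16 1 (k v (k v r))) (k (u 16 1 (k v (k v r))) r)))))
 N140 N141)

set_option maxRecDepth 100000 in
def T199 : NT :=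
(.s 0x7d3fbe009dd500288 4082 (n false (n true (n false (z 55) (z 5)) e) (n false (n false e e) (n false e e))) (t 12 1 (u 8 4 (k (t 24 1 (u 16 9 (k v (k v (k v (k (u 32 4 (k v (k (t 96 1 (u 64 2 (k v (k v r)))) r))) (k (c 2 4085 (c 6 4099 v r) v) r))))))) (k (t 24 2 (c 12 4099 v r)) r))))
 N142 N143)

set_option maxRecDepth 100000 in
def T99 : NT :=
(.s 0x77d5114441ceeb800 4087 (n false (n false (n true (z 37) e) (n true (n true (n false (n false (n false (n false e e) (n false e e)) (n false (n false e e) (n false e e))) (n false e e)) e) e)) e) (u 8 0 (k v (k (u 16 0 (k (t 32 3 (t 48 1 v)) r)) (k (u 16 0 (k (t 32 3 (t 48 1 v)) r)) (k (u 16 0 (k v (k v (k (t 48 1 (u 32 0 (k (t 64 3 (t 96 1 v)) r))) r)))) (k (u 16 10 (k v (k v (k v (k (t 48 1 (u 32 0 (k (t 64 3 (t 96 1 v)) r))) r))))) (k (c 8 4095 r v) r)))))))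
 T198 T199)

set_option maxRecDepth 100000 in
def T49 : NT :=
(.s 0x7754451109f7f8050 4083 (n false (n false (z 123) (n true (n false (n false (n false (n false e e) (n false e e)) (n false (n false e e) (n false e e))) (n false e e)) e)) (n false (n false e e) e)) (u 4 4 (k v (k (c 12 4099 r (u 8 5 (k v (k v (k v (k (t 24 2 (u 16 26 (k v (k v (k v r))))) r)))))) (k r (k (u 8 33 (k v (k v (k (c 24 4101 r r) (k (c 24 4099 r r) (k (c 24 4096 r (u 16 0 (k (u 32 0 (k v (k v r))) r))) (k (c 16 4101 r r) (k (c 16 4099 r r) (k (c 16 4101 r r) r))))))))) (k (c 8 4096 r (u 12 1 (k v (k v r)))) (k (c 12 4097 r r) r)))))))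
 T98 T99)

set_option maxRecDepth 100000 in
def T24 : NT :=
(.s 0x7573bee004385d108 4078 (n false (n false (n false (n false (n true (z 45) e) (n false e e)) e) (n true (n false e e) e)) (n false (n true (n false (n false e e) (n false e e)) e) (n false e e))) (u 32 4 (k v (k (t 96 1 (u 64 36 (k v (k v (k (c 3 4090 v r) (k (c 3 4090 v (u 128 3 (k v (k v r)))) r)))))) r)))
 T48 T49)

set_option maxRecDepth 100000 in
def T200 : NT :=
(.s 0x7f54451107cfefc00 4096 (n false (n true (n true (z 119) e) e) (n true (n true (n false (n false (n false (n false e e) (n false e e)) (n false (n false e e) (n false e e))) (n false e e)) e) e)) (u 8 17 (k v (k (t 24 1 r) (k (c 16 4097 r r) (k (c 24 4096 r (u 16 0 (k (u 32 0 (k v (k v r))) r))) (k (c 24 4097 r r) (k (c 24 4097 r r) (k (c 24 4097 r r) (k (c 24 4097 r r) (k (c 24 4097 r r) r))))))))))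
 N144 N145)

set_option maxRecDepth 100000 in
def T201 : NT :=
(.s 0x3a7df6012bbe00ee10 4081 (n false (n false (z 91) (z 52)) (n true (n false (n true (n false e e) e) (n false e e)) e)) (u 6 170 (k r (k (t 4 2 v) (k (c 2 4083 r v) (k (t 4 2 v) (k (c 4 4098 r v) (k (t 14 1 (u 10 0 (k r (k (u 4 4 (k v (k v (k (u 8 1 (k v (k v r))) (k (c 8 4097 r (u 12 0 (k v (k v r)))) (k (c 8 4097 r (u 12 0 (k v (k v r)))) (k (c 8 4096 r (u 12 0 (k v (k v r)))) (k (c 8 4095 r (u 12 0 (k v (k v r)))) r)))))))) r)))) r)))))))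
 N146 N147)

set_option maxRecDepth 100000 in
def T100 : NT :=
(.s 0x3a75fe012bbe00ae10 4087 (n false (n false (z 52) (z 121)) (n false (n false (n true (n false e e) e) (n false e e)) e)) (u 4 166 (k r (k (t 6 2 v) (k (c 2 4085 r v) (k (c 2 4084 r v) (k (t 12 1 (u 6 1 (k (u 8 2 (k v (k v r))) (k (c 14 4099 r r) (k (c 10 4097 r r) (k (c 10 4095 r r) (k (c 10 4095 r r) r))))))) r))))))
 T200 T201)

set_option maxRecDepth 100000 in
def T202 : NT :=
(.s 0x3aab97f700210e1708 4062 (n false (n false (n false (n false (n false (n false (n true (z 46) e) (n false e e)) e) (n false e e)) e) (n true (n false e e) e)) (n false (n true (n false e e) e) (n false e e))) (u 128 1 (k v (k (u 256 1 (k v (k v r))) (k (c 384 4099 r (u 256 0 (k v (k v r)))) (k (u 256 0 (k v (k v r))) (k (c 384 4097 r (u 256 1 (k v (k v r)))) (k (c 256 4095 r (u 384 1 (k v (k v r)))) r)))))))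
 N148 N149)

set_option maxRecDepth 100000 in
def T203 : NT :=
(.s 0x3b9d7f8022a557c010 4083 (n false (n false (n true (z 121) e) (n false e e)) (n false (n false (z 48) (n false e e)) e)) (u 8 3 (k r (k (c 3 4095 r v) (k (c 24 4099 r r) (k (c 16 4097 r r) r)))))
 N150 N151)

set_option maxRecDepth 100000 in
def T101 : NT :=
(.s 0x3aeae5d7c00843b840 4065 (n false (n false (n false (n true (n false (n false (n false (n true (z 50) e) (n false e e)) e) (n false e e)) e) (n true (n false (n true (n false e e) e) (n false e e)) e)) e) e) (u 256 1 (k v (k (c 768 4097 r (u 512 0 (k v (k v r)))) r)))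
 T202 T203)

set_option maxRecDepth 100000 in
def T50 : NT :=
(.s 0x3a9fdf002577c01708 4072 (n false (n false (z 52) (n false (z 55) e)) (n false (n true (n false e e) e) (n false e e))) (u 10 4 (k (t 26 1 (u 18 18 (k (u 4 74 (k v (k v (k v (k v r))))) (k r (k r (k r (k (t 4 1 (u 34 0 (k r (k r r)))) (k (t 4 1 r) r)))))))) (k (t 4 1 r) r)))
 T100 T101)

set_option maxRecDepth 100000 in
def T204 : NT :=
(.s 0x3baa2288873fbf0050 4084 (n false (n false (n true (z 119) e) (n true (n false (n false (n false (n false e e) (n false e e)) (n false (n false e e) (n false e e))) (n false e e)) e)) (n false (n false e e) e)) (u 8 10 (k v (k (c 24 4101 r r) (k (c 16 4101 r r) (k (c 16 4101 r r) r)))))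
 N152 N153)

set_option maxRecDepth 100000 in
def T205 : NT :=
(.s 0x3bea88a2208e577c00 4082 (n false (n false (n true (n true (n false (n false (n false (n false e e) (n false e e)) (n false (n false e e) (n false e e))) (n false e e)) e) e) (n false e e)) (n true (z 52) e)) (u 5 60 (k v (k v (k v (k v (k v (k v (k v r))))))))
 N154 N155)

set_option maxRecDepth 100000 in
def T102 : NT :=
(.s 0x3be5d7400709555400 4083 (n false (n false (n true (n true (z 18) e) e) (n true (n false e e) e)) (z 128)) (u 16 0 (k (u 3 22 (k (u 32 0 (k v (k v r))) (k (u 32 0 (k v (k v r))) (k r (k (c 7 4097 r (u 32 0 (k r (k r r)))) (k (c 5 4095 r r) (k (c 7 4097 r r) (k (c 5 4095 r (u 32 0 (k r (k r r)))) (k (c 5 4095 r r) (k (c 7 4095 r (u 5 75 (k (u 32 0 (k v (k v r))) (k (u 32 0 (k v (k v r))) (k r r))))) (k (c 7 4095 r r) (k (c 5 4097 r r) (k (c 5 4095 r (u 32 0 (k r (k r r)))) (k (c 5 4095 r r) (k (c 7 4097 r r) r))))))))))))))) r))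
 T204 T205)

set_option maxRecDepth 100000 in
def T206 : NT :=
(.s 0x3ef9ddd8010aa22888 4085 (n false (n true (n false (n true (n true (z 85) e) e) (n false e e)) e) (n false (n false (n false (n false e e) (n false e e)) (n false (n false e e) (n false e e))) (n false e e))) (u 32 12 (k v (k v (k (c 96 4099 r r) (k (c 96 4099 r (c 16 4088 r v)) (k (u 64 3 (k v (k v r))) (k (c 96 4096 r (c 16 4088 r v)) (k (c 64 4099 r r) r))))))))
 N156 N157)

set_option maxRecDepth 100000 in
def T207 : NT :=
(.s 0x1d2bfa8013ebe00ee10 4083 (n false (n false (z 156) (z 51)) (n true (n false (n true (n false e e) e) (n false e e)) e)) (u 6 0 (k (t 14 1 (u 10 0 (k (t 18 3 (t 26 3 (u 4 8 (k v (k v (k (c 12 4099 r (u 8 1 (k v (k v r)))) (k (c 8 4098 r (u 12 1 (k v (k v r)))) (k (c 8 4097 r (u 12 1 (k v (k v r)))) (k (c 8 4099 r (u 12 1 (k v (k v r)))) r))))))))) r))) r))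
 N158 N159)

set_option maxRecDepth 100000 in
def T103 : NT :=
(.s 0x3faa228882e75fe008 4081 (n false (n false (n true (z 121) e) (n false e e)) (n true (n true (n false (n false (n false (n false e e) (n false e e)) (n false (n false e e) (n false e e))) (n false e e)) e) e)) (u 8 3 (k v (k v (k (c 24 4099 r (u 16 1 (k v (k v r)))) (k (c 16 4097 r (u 24 1 (k v (k v r)))) r)))))
 T206 T207)

set_option maxRecDepth 100000 in
def T51 : NT :=
(.s 0x3e9dd5004ebfc01708 4091 (n false (n true (n false (z 121) (z 5)) e) (n false (n true (n false e e) e) (n false e e))) (t 12 1 (u 8 27 (k v (k v (k v (k v (k (c 24 4099 r (u 16 1 (k v (k v r)))) r)))))))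
 T102 T103)

set_option maxRecDepth 100000 in
def T25 : NT :=
(.s 0x3ba57f5002577c00e0 4077 (n false (n false (n true (n false (z 156) (z 52)) e) (n true (n false e e) e)) e) (u 16 1 (k r (k (c 48 4099 r r) (k (c 32 4098 r r) (k (c 32 4097 r (t 24 1 (u 48 1 (k v (k v r))))) (k (c 32 4099 r r) (k (c 32 4095 r r) r)))))))
 T50 T51)

set_option maxRecDepth 100000 in
def T12 : NT :=
(.s 0x7dd44510e0e577c00 4080 (n false (n true (n false (n true (n false (n false (n false e e) (n false e e)) (n false (n false e e) (n false e e))) e) (n true (n false e e) e)) e) (n true (z 52) e)) (u 5 290 (k v (k v (k v (k v (k v (k v (k (t 13 1 (u 9 0 (k v (k v r)))) r))))))))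
 T24 T25)

set_option maxRecDepth 100000 in
def T208 : NT :=
(.s 0x1d54451113bbb00ee10 4089 (n false (n false (z 85) (n false (n false (n false (n false e e) (n false e e)) (n false (n false e e) (n false e e))) (n false e e))) (n true (n false (n true (n false e e) e) (n false e e)) e)) (u 4 15 (k v (k (c 12 4099 r r) (k (c 12 4099 r r) (k (c 12 4099 r r) (k (c 6 4099 v r) (k (c 12 4096 r r) (k (c 12 4097 r r) r))))))))
 N160 N161)

set_option maxRecDepth 100000 in
def T209 : NT :=
(.s 0x1dcbfb8015114475c20 4080 (n false (n false (n true (z 46) e) (n false (n false (n false e e) (n false e e)) (n false (n false e e) (n false e e)))) (n true (n false (n false (n true (n false e e) e) (n false e e)) e) e)) (u 8 17 (k v (k v (k (u 16 1 (k v (k v r))) (k (u 16 26 (k v (k v r))) (k (c 24 4097 r (u 16 1 (k v (k v r)))) (k (c 16 4095 r (u 24 1 (k v (k v r)))) r)))))))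
 N162 N163)

set_option maxRecDepth 100000 in
def T104 : NT :=
(.s 0x1d75445110e7df60088 4088 (n false (n false (n false (n true (z 91) e) (n true (n false (n false (n false (n false e e) (n false e e)) (n false (n false e e) (n false e e))) (n false e e)) e)) (n false e e)) (n false e e)) (u 16 1 (k v (k v (k v (k (u 32 0 (k v (k v r))) (k (c 32 4097 r (u 48 0 (k v (k v r)))) (k (c 32 4095 r (u 48 0 (k v (k v r)))) r)))))))
 T208 T209)

set_option maxRecDepth 100000 in
def T210 : NT :=
(.s 0x1dd3fbe0023ea88a220 4082 (n false (n false (n true (n false (z 55) e) e) (n false e e)) (n true (n true (n false (n false (n false (n false e e) (n false e e)) (n false (n false e e) (n false e e))) (n false e e)) e) e)) (u 16 4 (k (t 48 1 (u 32 6 (k v (k v (k (c 3 4097 v r) (k (c 3 4097 v r) r)))))) (k (c 8 4091 (t 6 2 r) v) r)))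
 N164 N165)

set_option maxRecDepth 100000 in
def T211 : NT :=
(.s 0x1ddcbfa800754451108 4071 (n false (n false (n true (n false (n true (z 14) e) e) e) (n true (n false (n false (n false (n false e e) (n false e e)) (n false (n false e e) (n false e e))) (n false e e)) e)) (n false e e)) (c 10 4099 v (u 32 0 (k v (k v r))))
 N166 N167)

set_option maxRecDepth 100000 in
def T105 : NT :=
(.s 0x1dd51144427d5601708 4084 (n false (n false (z 67) (n true (n false (n false (n false (n false e e) (n false e e)) (n false (n false e e) (n false e e))) (n false e e)) e)) (n false (n true (n false e e) e) (n false e e))) (u 4 79 (k v (k v (k v (k (c 12 4099 r (u 8 2 (k v (k v r)))) (k (c 8 4101 r (u 12 0 (k v (k v r)))) (k (c 12 4099 r r) (k (u 8 20 (k v (k v (k v (k v r))))) (k (c 12 4099 r (u 8 0 (k (u 16 0 (k v (k v r))) r))) (k (c 12 4101 r (u 8 1 (k v (k v r)))) (k (c 12 4099 r (u 8 38 (k v (k v (k v (k v r)))))) (k (c 12 4102 r (u 8 1 (k v (k v r)))) (k (c 12 4100 r r) (k (c 8 4101 r (u 12 1 (k v (k v r))))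 (k (c 12 4099 r (u 8 2 (k v (k (c 24 4099 r (u 16 1 (k v (k v r)))) (k (c 16 4095 r (u 24 0 (k v (k v r)))) r))))) (k (c 8 4101 r (u 12 1 (k v (k v r)))) r))))))))))))))))
 T210 T211)

set_option maxRecDepth 100000 in
def T52 : NT :=
(.s 0x1dcfeec01cbfa801708 4070 (n false (n false (n true (z 87) e) (n true (z 14) e)) (n false (n true (n false e e) e) (n false e e))) (u 10 0 (k (u 8 0 (k v (k v r))) (k (u 8 0 (k v (k v r))) r)))
 T104 T105)

set_option maxRecDepth 100000 in
def T212 : NT :=
(.s 0x1df573aff00420fb840 4063 (n false (n false (n true (n true (n false (n false (n false (n true (z 121) e) (n false e e)) e) (n false e e)) e) e) (n true (n true (n false (n true (n false e e) e) (n false e e)) e) e)) e) (u 256 2 (k v (k v (k (c 768 4099 r (u 512 1 (k v (k v r)))) (k (c 512 4095 r (u 768 0 (k v (k v r)))) (k (c 512 4095 r (u 768 0 (k v (k v r)))) r))))))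
 N168 N169)

set_option maxRecDepth 100000 in
def T213 : NT :=
(.s 0x1f75445110a775c0050 4084 (n false (n true (n false (n false (z 37) e) (n true (n false (n false (n false (n false e e) (n false e e)) (n false (n false e e) (n false e e))) (n false e e)) e)) e) (n false (n false e e) e)) (u 16 59 (k v (k v (k (u 32 17 (k v (k v (k v r)))) (k (c 16 4095 r v) r)))))
 N170 N171)

set_option maxRecDepth 100000 in
def T106 : NT :=
(.s 0x1f54fab800e0e7d5600 4091 (n false (n true (n false (n false (n false (z 35) e) e) (n true (n false e e) e)) e) (n true (z 67) e)) (u 32 0 (k (u 5 0 (k v (k v r))) (k (c 16 4094 v (u 5 0 (k v (k v r)))) (k (t 96 1 (u 64 0 (k (t 128 3 (t 192 1 (u 5 0 (k v (k v r))))) r))) r))))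
 T212 T213)

set_option maxRecDepth 100000 in
def T214 : NT :=
(.s 0xe9ddd804eeec02a2288 4091 (n false (n false (z 85) (z 85)) (n false (n false (n false e e) (n false e e)) (n false (n false e e) (n false e e)))) (u 4 63 (k (t 6 1 v) (k r (k (u 6 64 (k v (k v (k v (k (c 10 4099 r r) r))))) (k (c 8 4099 r (u 6 63 (k (c 12 4097 r v) (k r (k r (k (c 10 4099 r (u 12 194 (k r (k (u 14 159 (k v (k v (k v r)))) (k r (k (c 6 4096 r v) r)))))) r)))))) r)))))
 N172 N173)

set_option maxRecDepth 100000 in
def T215 : NT :=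
(.s 0xeba577c010ea88a2210 4080 (n false (n false (n false (n true (n false (z 52) (n false e e)) e) (n true (n false (n false (n false (n false e e) (n false e e)) (n false (n false e e) (n false e e))) (n false e e)) e)) (n false e e)) e) (u 32 53 (k v (k v (k v (k (t 96 1 (u 64 0 (k v (k v r)))) (k (c 8 4088 (t 12 2 (u 8 0 (k r r))) v) r))))))
 N174 N175)

set_option maxRecDepth 100000 in
def T107 : NT :=
(.s 0xeaa228889d7f8077d00 4085 (n false (n false (z 121) (n false (n false (n false (n false e e) (n false e e)) (n false (n false e e) (n false e e))) (n false e e))) (n true (n false (n true (n true (n false (n false e e) e) e) e) e) e)) (u 4 9 (k v (k v (k v (k (c 12 4099 r (u 8 1 (k v (k v r)))) r)))))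
 T214 T215)

set_option maxRecDepth 100000 in
def T53 : NT :=
(.s 0x1ff2bfa8003ea88a220 4095 (n false (n true (n true (n true (z 156) e) e) e) (n true (n true (n false (n false (n false (n false e e) (n false e e)) (n false (n false e e) (n false e e))) (n false e e)) e) e)) (u 16 1 (k v (k (c 48 4099 r (u 32 1 (k v (k v r)))) (k (c 32 4098 r (u 48 1 (k v (k v r)))) (k (c 32 4097 r (u 48 1 (k v (k v r)))) (k (c 32 4099 r (u 48 1 (k v (k v r)))) (k (c 32 4095 r (u 48 0 (k v (k v r)))) r)))))))
 T106 T107)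

set_option maxRecDepth 100000 in
def T26 : NT :=
(.s 0x1df3eae0023ea88a220 4084 (n false (n false (n true (n true (z 35) e) e) (n false e e)) (n true (n true (n false (n false (n false (n false e e) (n false e e)) (n false (n false e e) (n false e e))) (n false e e)) e) e)) (u 16 1 (k v (k v (k v (k (t 48 1 (u 32 0 (k (t 64 3 (t 96 1 v)) r))) r)))))
 T52 T53)

set_option maxRecDepth 100000 in
def T216 : NT :=
(.s 0xeea7f7c0095df002288 4083 (n false (n false (n true (n false (z 52) (n false (z 55) e)) e) (n false e e)) (n false (n false e e) (n false e e))) (u 40 4 (k (t 104 1 (u 72 28 (k (c 16 4097 r v) (k (u 16 26 (k v (k v (k v r)))) (k (u 16 136 (k v (k v (k v (k v r))))) (k (t 16 1 r) (k (u 136 6 (k (u 16 26 (k v (k v (k v r)))) (k (c 136 4094 v (c 16 4097 r v)) r))) r))))))) (k (c 24 4091 (t 6 2 r) (c 2 4093 r v)) r)))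
 N176 N177)

set_option maxRecDepth 100000 in
def T217 : NT :=
(.s 0xefaa75fe012aaa00410 4074 (n false (n false (n true (n true (n false (n false (n false (z 121) (z 0)) e) (n false e e)) e) e) (n false e e)) e) (t 192 1 (u 128 1 (k v (k (c 384 4099 r (u 256 1 (k v (k v r)))) (k (c 256 4097 r (u 384 1 (k v (k v r)))) (k (c 256 4095 r (u 384 0 (k v (k v r)))) (k (c 256 4095 r (u 384 0 (k v (k v r)))) r)))))))
 N178 N179)

set_option maxRecDepth 100000 in
def T108 : NT :=
(.s 0xeeae95df004210ee108 4058 (n false (n false (n true (n false (n false (n false (n true (n false (z 52) (n false e e)) e) (n false e e)) e) (n false e e)) e) (n true (n false (n true (n false e e) e) (n false e e)) e)) (n false e e)) (u 256 6 (k v (k v (k (t 768 1 (u 512 0 (k v (k v r)))) r))))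
 T216 T217)

set_option maxRecDepth 100000 in
def T218 : NT :=
(.s 0xfbe9557000e0e775c00 4087 (n false (n true (n false (n true (n true (n false (z 32) e) e) e) (n true (n false e e) e)) e) (n true (z 37) e)) (u 5 1 (k (c 16 4094 (c 4 4096 r v) v) (k (u 64 0 (k (t 128 3 (t 192 1 v)) r)) r)))
 N180 N181)

set_option maxRecDepth 100000 in
def T219 : NT :=
(.s 0x74eea8025ddc013fab00 4094 (n false (n false (z 42) (z 5)) (z 71)) (t 6 1 (u 3 6 (k (t 7 1 (u 4 39 (k (c 10 4101 v r) (k r (k (c 7 4099 v (c 6 4099 v (u 5 1 (k v (k v r))))) (k r (k r (k r r)))))))) (k r (k (c 6 4099 v (u 4 1 (k r (k r r)))) (k (t 5 1 r) (k (t 5 1 r) (k (t 5 1 r) r))))))))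
 N182 N183)

set_option maxRecDepth 100000 in
def T109 : NT :=
(.s 0x74afea004afa802ee108 4081 (n false (n false (z 156) (z 12)) (n false (n true (n false (n true (n false e e) e) (n false e e)) e) (n false e e))) (t 6 3 (u 4 1 (k v (k (c 12 4099 r (u 8 1 (k v (k v r)))) (k (c 8 4098 r (u 12 1 (k v (k v r)))) (k (c 8 4097 r (u 12 1 (k v (k v r)))) (k (c 8 4099 r (u 12 1 (k v (k v r)))) (k (c 8 4095 r (u 12 0 (k v (k v r)))) r))))))))
 T218 T219)

set_option maxRecDepth 100000 in
def T54 : NT :=
(.s 0xfa9f55804afa8021d10 4082 (n false (n true (n false (n false (z 67) (z 12)) (n false e e)) e) (n true (n false (n false e e) (n false e e)) e)) (t 24 3 (u 16 159 (k v (k v (k v (k (c 48 4099 r (u 32 2 (k v (k v r)))) (k (c 48 4099 r (u 32 0 (k (u 64 23 (k v (k v r))) r))) (k (c 48 4101 r r) (k (c 48 4099 r (u 32 41 (k v (k v (k v (k v r)))))) (k (c 48 4102 r r) (k (c 32 4101 r r) (k (c 48 4099 r (u 32 4 (k v (k (c 96 4099 r (u 64 9 (k v (k v (k v r))))) r)))) (k (c 32 4101 r r) r)))))))))))))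
 T108 T109)

set_option maxRecDepth 100000 in
def T220 : NT :=
(.s 0x755114444afea0077d00 4085 (n false (n true (n false (n true (n true (n false (n false e e) e) e) e) e) e) (n false (z 156) (n false (n false (n false (n false e e) (n false e e)) (n false (n false e e) (n false e e))) (n false e e)))) (u 5 2 (k v (k (c 13 4099 r (u 9 1 (k v (k v r)))) (k (c 9 4095 r (u 13 0 (k v (k v r)))) r))))
 N184 N185)

set_option maxRecDepth 100000 in
def T221 : NT :=
(.s 0x773fbb004bfb802a2288 4086 (n false (n false (z 46) (n true (z 87) e)) (n false (n false (n false e e) (n false e e)) (n false (n false e e) (n false e e)))) (u 4 17 (k (u 10 1 (k v (k v r))) (k (u 10 1 (k v (k v r))) (k r (k (u 8 1 (k (u 10 1 (k v (k v r))) (k (u 10 1 (k v (k v r))) r))) (k (c 12 4097 r r) (k (c 8 4095 r r) r)))))))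
 N186 N187)

set_option maxRecDepth 100000 in
def T110 : NT :=
(.s 0x75d511444397f5002288 4084 (n false (n false (n false (n true (z 14) e) (n true (n false (n false (n false (n false e e) (n false e e)) (n false (n false e e) (n false e e))) (n false e e)) e)) (n false e e)) (n false (n false e e) (n false e e))) (c 2 4083 (u 8 0 (k v (k v r))) v)
 T220 T221)

set_option maxRecDepth 100000 in
def T222 : NT :=
(.s 0x7dcfeec013fbb0075c20 4078 (n false (n true (n false (z 87) (n true (z 87) e)) e) (n true (n false (n false (n true (n false e e) e) (n false e e)) e) e)) (u 20 1 (k (u 8 1 (k v (k v r))) (k (u 8 1 (k v (k v r))) r)))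
 N188 N189)

set_option maxRecDepth 100000 in
def T223 : NT :=
(.s 0x3a5fdc012aae0095fd400 4095 (n false (n false (z 46) (z 32)) (z 156)) (u 6 0 (k (t 10 3 (t 14 1 (u 4 10 (k (c 14 4101 v r) (k (c 12 4099 r (u 3 9 (k (u 8 0 (k v (k v r))) (k (c 18 4099 v r) (k (c 7 4099 r (u 8 0 (k (u 5 1 (k v (k v r))) (k (u 5 1 (k v (k v r))) r)))) r))))) (k (u 3 4 (k (u 8 1 (k v (k v r))) (k (c 7 4099 r r) r))) r)))))) r))
 N190 N191)

set_option maxRecDepth 100000 in
def T111 : NT :=
(.s 0x7f5d511444220e7f7e00 4092 (n false (n true (z 119) e) (n true (n true (n false (n false (n true (n false (n false (n false (n false e e) (n false e e)) (n false (n false e e) (n false e e))) (n false e e)) e) (n false e e)) (n false e e)) e) e)) (u 4 17 (k v (k (c 12 4101 r r) (k (c 12 4099 r r) (k (t 8 2 (c 65 4099 v (c 2 4090 (u 6 0 (k (t 10 3 (t 14 1 v)) r)) v))) (k (c 8 4101 r r) (k (c 8 4101 r r) (k (c 8 4099 r r) (k (c 8 4101 r r) (k (c 8 4101 r r) r))))))))))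
 T222 T223)

set_option maxRecDepth 100000 in
def T55 : NT :=
(.s 0x77d5d2bbe0084208ee10 4057 (n false (n false (n true (n true (n false (n false (n false (n true (n false (z 52) (n false e e)) e) (n false e e)) e) (n false e e)) e) e) (n false e e)) (n true (n false (n true (n false e e) e) (n false e e)) e)) (u 512 6 (k v (k v (k (t 1536 1 (u 1024 0 (k v (k v r)))) r))))
 T110 T111)

set_option maxRecDepth 100000 in
def T27 : NT :=
(.s 0x74faac02a2288e775c00 4096 (n false (n false (z 67) (n false (n false (n false e e) (n false e e)) (n false (n false e e) (n false e e)))) (n true (z 37) e)) (u 5 0 (k r (k (c 4 4103 r (u 9 0 (k (t 17 3 (t 25 1 v)) r))) (k r (k (c 4 4103 r r) (k (u 9 22 (k (u 4 0 (k v (k v r))) (k r (k r r)))) (k (c 5 4095 r r) r)))))))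
 T54 T55)

set_option maxRecDepth 100000 in
def T13 : NT :=
(.s 0xee5fdc00ee10aa22888 4078 (n false (n false (n true (z 46) e) (n true (n false (n true (n false e e) e) (n false e e)) e)) (n false (n false (n false (n false e e) (n false e e)) (n false (n false e e) (n false e e))) (n false e e))) (u 8 2 (k v (k (c 24 4099 r (u 16 0 (k v (k v r)))) (k (u 16 1 (k v (k v r))) (k (u 16 26 (k v (k v r))) (k (c 24 4097 r (u 16 1 (k v (k v r)))) (k (c 16 4095 r (u 24 1 (k v (k v r)))) r)))))))
 T26 T27)

set_option maxRecDepth 100000 in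
def T6 : NT :=
(.s 0x1d4abe802295df003a0 4086 (n false (n false (n false (z 52) e) (n false (z 24) (n false e e))) (n true (n false (n false e e) e) e)) (u 8 409 (k (u 10 0 (k (t 18 3 (t 26 1 v)) r)) (k r (k (c 6 4096 (c 2 4098 r v) v) (k (c 6 4096 (c 2 4098 r v) v) (k (t 24 1 (u 16 0 (k (u 10 0 (k (t 18 3 (t 26 1 v)) r)) (k (u 10 0 (k (t 18 3 (t 26 1 v)) r)) r)))) r))))))
 T12 T13)

set_option maxRecDepth 100000 in
def T224 : NT :=
(.s 0x3a957d004aaa8012eef00 4094 (n false (z 106) (n false (n false (z 24) (z 0)) e)) (t 13 1 (u 9 0 (k (t 17 3 (t 25 1 (u 2 5 (k v (k (t 6 2 r) (k (t 6 2 (c 5 4096 v r)) (k (t 6 1 r) (k (t 6 1 (u 4 15 (k v (k (c 12 4099 r r) (k (c 12 4096 r (c 5 4096 v r)) (k (c 12 4100 r (u 8 0 (k (u 16 0 (k v (k v r))) r))) (k (c 8 4099 r r) (k (c 12 4100 r r) (k (c 12 4097 r r) (k (c 12 4099 r r) (k (c 8 4099 r r) (k (c 12 4097 r r) r)))))))))))) (k (t 4 1 r) (k (t 6 3 r) (k (t 6 1 r) (k (t 6 3 r) r)))))))))))) r)))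
 N192 N193)

set_option maxRecDepth 100000 in
def T225 : NT :=
(.s 0x3b9fdd80397f5002a2288 4083 (n false (n false (n true (z 87) e) (n true (z 14) e)) (n false (n false (n false e e) (n false e e)) (n false (n false e e) (n false e e)))) (u 10 0 (k (u 8 1 (k v (k v r))) (k (u 8 1 (k v (k v r))) r)))
 N194 N195)

set_option maxRecDepth 100000 in
def T112 : NT :=
(.s 0x3ab9fdf00387544511088 4083 (n false (n false (n false (n false (n true (z 55) e) (n true (n false e e) e)) (n true (n false (n false (n false (n false e e) (n false e e)) (n false (n false e e) (n false e e))) (n false e e)) e)) (n false e e)) (n false e e)) (c 8 4086 (c 3 4094 v r) v)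
 T224 T225)

set_option maxRecDepth 100000 in
def T226 : NT :=
(.s 0x3e9dd5004ebfc013eab00 4096 (n false (n true (n false (z 121) (z 5)) e) (z 67)) (t 12 1 (u 8 1 (k r (k (c 24 4099 r (u 16 1 (k r (k r r)))) (k (c 16 4097 r r) (k (c 16 4095 r (u 24 0 (k r (k r r)))) (k (c 16 4095 r (u 24 0 (k r (k r r)))) r)))))))
 N196 N197)

set_option maxRecDepth 100000 in
def T227 : NT :=
(.s 0x1d2bfa8013ebe00aa22888 4093 (n false (n false (z 156) (z 51)) (n false (n false (n false (n false e e) (n false e e)) (n false (n false e e) (n false e e))) (n false e e))) (t 6 1 (u 4 1 (k v (k (c 12 4099 r (u 8 1 (k v (k v r)))) (k (c 8 4098 r (u 12 1 (k v (k v r)))) (k (c 8 4097 r (u 12 1 (k v (k v r)))) (k (c 8 4099 r (u 12 1 (k v (k v r)))) (k (c 8 4095 r (u 12 0 (k v (k v r)))) r))))))))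
 N198 N199)

set_option maxRecDepth 100000 in
def T113 : NT :=
(.s 0x3efaa22888383e57f5000 4091 (n false (n true (n false (n true (n true (n false (n false (n false (n false e e) (n false e e)) (n false (n false e e) (n false e e))) (n false e e)) e) e) (n true (n false e e) e)) e) (n true (n true (z 156) e) e)) (u 9 14 (k v (k v (k (c 25 4099 r (u 17 1 (k v (k v r)))) (k (c 17 4099 r (u 25 1 (k v (k v r)))) (k (c 17 4095 r (u 25 0 (k v (k v r)))) r))))))
 T226 T227)

set_option maxRecDepth 100000 in
def T56 : NT :=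
(.s 0x3bea88a220e1f4aef8020 4084 (n false (n true (n true (n false (z 52) (n false e e)) e) e) (n false (n true (n true (n false (n false (n false (n false e e) (n false e e)) (n false (n false e e) (n false e e))) (n false e e)) e) e) (n true (n false e e) e))) (u 16 59 (k v (k v (k (t 48 1 (u 32 0 (k v (k v r)))) (k (c 8 4089 (t 6 2 (u 4 0 (k r r))) v) r)))))
 T112 T113)

set_option maxRecDepth 100000 in
def T228 : NT :=
(.s 0x1d54451113eee00e577c00 4093 (n false (n true (z 52) e) (n false (z 43) (n false (n false (n false (n false e e) (n false e e)) (n false (n false e e) (n false e e))) (n false e e)))) (u 4 12 (k r (k r (k (t 5 2 v) (k (c 3 4099 r v) (k r (k (c 5 4100 r v) (k r r))))))))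
 N200 N201)

set_option maxRecDepth 100000 in
def T229 : NT :=
(.s 0x1dcfeec015114453bee008 4089 (n false (n false (n true (z 87) e) (n false (n false (n false e e) (n false e e)) (n false (n false e e) (n false e e)))) (n false (z 45) (n false e e))) (u 8 1 (k (u 5 7 (k v (k v r))) (k (u 5 7 (k v (k v r))) r)))
 N202 N203)

set_option maxRecDepth 100000 in
def T114 : NT :=
(.s 0x1d75445110e1c3b9f7d800 4080 (n false (n true (n false (n true (z 91) e) e) e) (n false (n false (n true (n false (n false (n false (n false e e) (n false e e)) (n false (n false e e) (n false e e))) (n false e e)) e) (n true (n false e e) e)) (n true (n false e e) e))) (c 17 4099 v (c 7 4094 v r))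
 T228 T229)

set_option maxRecDepth 100000 in
def T230 : NT :=
(.s 0x1f7d5114441d3fab001708 4069 (n false (n true (n false (n true (n false (z 71) e) e) (n true (n true (n false (n false (n false (n false e e) (n false e e)) (n false (n false e e) (n false e e))) (n false e e)) e) e)) e) (n false (n true (n false e e) e) (n false e e))) (u 32 1 (k v (k (c 96 4099 r (u 64 1 (k v (k v r)))) (k (u 64 0 (k v (k v r))) (k (c 64 4099 r (u 96 1 (k v (k v r)))) (k (c 64 4099 r (u 96 1 (k v (k v r)))) (k (c 64 4099 r (u 96 1 (k v (k v r)))) r)))))))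
 N204 N205)

set_option maxRecDepth 100000 in
def T231 : NT :=
(.s 0xeaa22888a5f7400aa22888 4086 (n false (n false (n false (z 22) e) (n false (n false (n false (n false e e) (n false e e)) (n false (n false e e) (n false e e))) (n false e e))) (n false (n false (n false (n false e e) (n false e e)) (n false (n false e e) (n false e e))) (n false e e))) (c 10 4101 v (u 8 1 (k v (k v r))))
 N206 N207)

set_option maxRecDepth 100000 in
def T115 : NT :=
(.s 0xe9f55804eeb80295fd4008 4094 (n false (n false (z 67) (z 37)) (n false (z 156) (n false e e))) (u 6 1 (k (c 3 4099 (c 2 4101 r v) r) (k (u 5 0 (k (t 4 1 v) (k (c 13 4099 r (u 9 0 (k r (k (t 4 1 v) r)))) r))) r)))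
 T230 T231)

set_option maxRecDepth 100000 in
def T57 : NT :=
(.s 0x1df54fbfc02555400823a0 4065 (n false (n false (n true (n true (n false (n false (n false (z 123) (z 0)) e) (n false e e)) e) e) (n false e e)) (n true (n false (n false e e) e) e)) (t 192 1 (u 128 4 (k v (k (c 384 4099 r (u 256 2 (k v (k v (k v (k (t 768 2 r) r)))))) (k r (k (u 256 22 (k v (k v (k (c 768 4101 r r) (k (c 768 4099 r r) (k (c 768 4096 r (u 512 0 (k (u 1024 23 (k v (k v r))) r))) (k (c 512 4098 r r) (k (c 512 4101 r r) (k (c 512 4099 r r) (k (c 512 4101 r r) r)))))))))) (k (c 256 4096 r (u 384 1 (k v (k v r)))) (k (c 384 4097 r r) r))))))))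
 T114 T115)

set_option maxRecDepth 100000 in
def T28 : NT :=
(.s 0x1d3eab00a88a229dd70070 4085 (n false (n false (z 67) (n false (n false (n false e e) (n false e e)) (n false (n false e e) (n false e e)))) (n false (z 37) (n true (n false e e) e))) (u 5 1 (k r (k (u 4 150 (k v (k v (k (c 8 4096 r (c 9 4099 v (u 12 0 (k (u 20 0 (k v (k v r))) r)))) (k (c 8 4101 r (c 9 4099 v r)) (k (u 8 19 (k v (k v (k v (k (c 24 4099 r (u 16 1 (k v (k v r)))) r))))) (k (c 8 4099 r (c 9 4099 v r)) (k (c 12 4101 r (c 9 4099 v r)) (k (c 12 4102 r (c 9 4099 v r)) (k (c 12 4100 r r) (k (c 8 4101 r (c 9 4099 v r)) (k (c 8 4101 r (c 9 4099 v r)) r)))))))))))) r)))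
 T56 T57)

set_option maxRecDepth 100000 in
def T232 : NT :=
(.s 0xee775c00aa22888a5ddc00 4096 (n false (n false (n true (z 37) e) (n false (n false (n false (n false e e) (n false e e)) (n false (n false e e) (n false e e))) (n false e e))) (n false (z 42) e)) (u 8 1 (k (c 4 4094 v (u 5 1 (k v (k v r)))) (k (u 5 1 (k v (k v r))) r)))
 N208 N209)

set_option maxRecDepth 100000 in
def T233 : NT :=
(.s 0xfa57f5002775400eb84740 4080 (n false (n true (n false (z 156) (z 5)) e) (n true (n false (n true (n false (n false e e) e) e) (n false (n true (n false e e) e) (n false e e))) e)) (t 12 1 (u 8 2 (k v (k (c 24 4099 r (u 16 1 (k v (k v r)))) (k (c 16 4095 r (u 24 0 (k v (k v r)))) r)))))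
 N210 N211)

set_option maxRecDepth 100000 in
def T116 : NT :=
(.s 0xeea88a221511447cfaf800 4093 (n false (n true (n true (z 51) e) e) (n false (n true (n false (n false (n false (n false e e) (n false e e)) (n false (n false e e) (n false e e))) (n false e e)) e) (n false (n false (n false e e) (n false e e)) (n false (n false e e) (n false e e))))) (u 8 0 (k (t 24 1 (u 16 0 (k (t 32 3 (t 48 3 v)) r))) r))
 T232 T233)

set_option maxRecDepth 100000 in
def T234 : NT :=
(.s 0x75511444551144453eef008 4091 (n false (n false (z 107) (n false e e)) (n false (n false (n false (n false (n false e e) (n false e e)) (n false (n false e e) (n false e e))) (n false e e)) (n false (n false (n false (n false e e) (n false e e)) (n false (n false e e) (n false e e))) (n false e e)))) (u 4 5 (k v (k (c 12 4099 r r) (k (c 12 4100 r (u 8 0 (k (u 16 0 (k v (k v r))) r))) r))))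
 N212 N213)

set_option maxRecDepth 100000 in
def T235 : NT :=
(.s 0x772eee0055114447d708e80 4081 (n false (n true (n true (n false (n true (n false (n false e e) e) e) (n false (n true (n false e e) e) (n false e e))) e) e) (n false (n true (z 42) e) (n false (n false (n false (n false e e) (n false e e)) (n false (n false e e) (n false e e))) (n false e e)))) (c 2 4086 v (c 11 4101 v r))
 N214 N215)

set_option maxRecDepth 100000 in
def T117 : NT :=
(.s 0x757544511088ee10e577c00 4078 (n false (n false (n true (n false (n true (n false e e) e) (n false e e)) e) (n false (n false (n true (n false (n false (n false (n false e e) (n false e e)) (n false (n false e e) (n false e e))) (n false e e)) e) (n false e e)) (n false e e))) (n true (z 52) e)) (u 5 12 (k v (k v (k v (k v (k v (k v (k (t 13 1 (u 9 0 (k v (k v r)))) r))))))))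
 T234 T235)

set_option maxRecDepth 100000 in
def T58 : NT :=
(.s 0x74eea8025ddc01d2eee00e0 4091 (n false (n false (z 42) (z 5)) (n true (n false (z 42) (n true (n false e e) e)) e)) (t 6 2 (u 4 16 (k r (k (c 13 4094 v (c 6 4094 v (u 9 1 (k v (k v r))))) (k r (k (c 6 4094 v (c 2 4087 r (c 13 4094 v r))) (k r (k r r))))))))
 T116 T117)

set_option maxRecDepth 100000 in
def T236 : NT :=
(.s 0x7d2bbe00ee10775445110a0 4080 (n false (n true (n false (z 52) (n true (n false (n true (n false e e) e) (n false e e)) e)) e) (n true (n false (n true (n false (n false (n false (n false e e) (n false e e)) (n false (n false e e) (n false e e))) (n false e e)) e) (n false (n false e e) e)) e)) (u 8 328 (k v (k v (k v (k v (k v r))))))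
 N216 N217)

set_option maxRecDepth 100000 in
def T237 : NT :=
(.s 0x3aa88a222a88a222e5df6008 4085 (n false (n false (n true (z 90) e) (n false e e)) (n false (n false (n false (n false (n false e e) (n false e e)) (n false (n false e e) (n false e e))) (n false e e)) (n false (n false (n false (n false e e) (n false e e)) (n false (n false e e) (n false e e))) (n false e e)))) (u 8 5 (k v (k (u 16 43 (k v (k v (k v r)))) (k (c 24 4097 r (u 16 1 (k v (k (c 48 4097 r (u 32 0 (k v (k v r)))) r)))) (k (c 5 4099 v r) (k (c 24 4096 r r) (k (c 24 4097 r (c 5 4099 v r)) (k (c 5 4099 v r) (k (c 24 4095 r (c 5 4099 v r)) (k (c 16 4095 r (c 5 4099 v r)) r))))))))))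
 N218 N219)

set_option maxRecDepth 100000 in
def T118 : NT :=
(.s 0x7df3fbe002a88a2213eab00 4094 (n false (n true (n false (n true (n true (z 55) e) e) (n false (n false (n false (n false e e) (n false e e)) (n false (n false e e) (n false e e))) (n false e e))) e) (z 67)) (c 8 4088 r (u 3 0 (k v (k v r))))
 T236 T237)

set_option maxRecDepth 100000 in
def T238 : NT :=
(.s 0x3b95df002a88a223b97f7000 4090 (n false (n true (n false (n true (z 46) e) e) e) (n false (n true (z 52) e) (n false (n false (n false (n false e e) (n false e e)) (n false (n false e e) (n false e e))) (n false e e)))) (u 16 6 (k r (k (c 9 4097 r v) (k (u 32 1 (k r (k r r))) (k (c 48 4099 r (u 32 0 (k r (k r r)))) (k (u 32 1 (k r (k r r))) (k (c 48 4097 r (u 32 1 (k r (k r r)))) r)))))))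
 N220 N221)

set_option maxRecDepth 100000 in
def T239 : NT :=
(.s 0x3eaa22888aa228885cebfc00 4092 (n false (n false (n true (z 121) e) e) (n true (n false (n false (n false (n false (n false e e) (n false e e)) (n false (n false e e) (n false e e))) (n false e e)) (n false (n false (n false (n false e e) (n false e e)) (n false (n false e e) (n false e e))) (n false e e))) e)) (u 8 1 (k v (k (c 24 4099 r (u 16 1 (k v (k v r)))) (k (c 16 4097 r (u 24 1 (k v (k v r)))) (k (c 16 4095 r (u 24 0 (k v (k v r)))) (k (c 16 4095 r (u 24 0 (k v (k v r)))) r))))))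
 N222 N223)

set_option maxRecDepth 100000 in
def T119 : NT :=
(.s 0x3baa5ffe008aa2288847dc20 4065 (n false (n false (n true (n false (n false (n false (z 126) e) (n false e e)) (n false (n false (n false (n false e e) (n false e e)) (n false (n false e e) (n false e e))) (n false e e))) e) (n false e e)) (n true (n true (n false (n true (n false e e) e) (n false e e)) e) e)) (c 24 4099 v (u 64 1 (k v (k (t 192 1 (u 128 1 (k v (k (c 384 4099 r (u 256 1 (k v (k v r)))) (k (c 256 4097 r (u 384 1 (k v (k v r)))) (k (c 256 4095 r (u 384 23 (k v (k v r)))) (k (c 256 4095 r (u 384 23 (k v (k v r)))) r))))))) (k (t 192 1 (u 128 59 (k v (k v (k (c 384 4099 r (u 256 37 (k v (k v (k v r))))) (k (u 256 63 (k v (k v (k v (k v (k (c 768 4101 r r) (k (c 512 4101 r r) (k (c 512 4101 r r) r)))))))) r)))))) r)))))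
 T238 T239)

set_option maxRecDepth 100000 in
def T59 : NT :=
(.s 0x3aaea88a22114442e775c008 4083 (n false (n false (n true (z 37) e) (n false e e)) (n false (n false (n false (n false (n true (n false (n false (n false (n false e e) (n false e e)) (n false (n false e e) (n false e e))) (n false e e)) e) (n false e e)) (n false (n false e e) (n false e e))) (n false e e)) e)) (u 8 0 (k v (k (u 16 0 (k (t 32 3 (t 48 1 v)) r)) (k (u 16 0 (k (t 32 3 (t 48 1 v)) r)) (k (u 16 0 (k v (k v (k (t 48 1 (u 32 0 (k (t 64 3 (t 96 1 v)) r))) r)))) (k (u 16 2 (k v (k v (k v (k (t 48 1 (u 32 0 (k (t 64 3 (t 96 1 v)) r))) r))))) (k (u 16 6 (k v (k (t 48 1 (u 32 10 (k v (k v r)))) r))) r)))))))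
 T118 T119)

set_option maxRecDepth 100000 in
def T29 : NT :=
(.s 0x775445110e7d5600e5ddc00 4089 (n false (n false (n true (z 67) e) (n true (n false (n false (n false (n false e e) (n false e e)) (n false (n false e e) (n false e e))) (n false e e)) e)) (n true (z 42) e)) (c 5 4100 r (c 10 4099 v r))
 T58 T59)

set_option maxRecDepth 100000 in
def T14 : NT :=
(.s 0xeae5fdc00aa22888e1c3a0 4078 (n false (n false (n false (n false (n true (z 46) e) (n false (n false (n false (n false e e) (n false e e)) (n false (n false e e) (n false e e))) (n false e e))) (n true (n false e e) e)) (n true (n false e e) e)) (n true (n false (n false e e) e) e)) (c 24 4099 v (c 6 4094 v (u 32 2 (k v (k (c 96 4099 r (u 64 0 (k v (k v r)))) (k (u 64 1 (k v (k v r))) (k (u 64 0 (k v (k v r))) (k (c 96 4097 r (u 64 1 (k v (k v r)))) (k (c 64 4095 r (u 96 1 (k v (k v r)))) r)))))))))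
 T28 T29)

set_option maxRecDepth 100000 in
def T240 : NT :=
(.s 0x1d4eeb802775400ae7f760070 4086 (n false (n false (n false (n true (z 87) e) e) (n true (n false e e) e)) (n false (n false (z 37) (z 5)) e)) (t 13 1 (u 9 51 (k (c 21 4101 v (c 16 4099 r v)) (k (c 21 4101 v (u 16 1 (k v (k v r)))) (k (u 16 1 (k v (k v r))) (k (u 17 8 (k (c 8 4098 (u 2 0 (k v (k v r))) v) (k (t 49 1 (u 33 0 (k (t 65 3 (t 97 1 (u 16 1 (k v (k v r))))) r))) r))) (k (c 9 4095 r r) r)))))))
 N224 N225)

set_option maxRecDepth 100000 in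
def T241 : NT :=
(.s 0x1dcafea002a88a223a77dc010 4093 (n false (n false (n true (z 156) e) (n false (n false (n false (n false e e) (n false e e)) (n false (n false e e) (n false e e))) (n false e e))) (n true (n false (z 45) (n false e e)) e)) (u 8 8 (k (u 9 0 (k v (k v r))) (k (c 3 4096 (t 4 1 v) v) (k (c 24 4099 r r) (k (c 16 4098 r r) (k (c 16 4097 r r) (k (c 16 4099 r r) r)))))))
 N226 N227)

set_option maxRecDepth 100000 in
def T120 : NT :=
(.s 0x1d5754451108a22172bfa8008 4083 (n false (n false (n true (z 156) e) (n false e e)) (n false (n false (n false (n false (n true (n false (n false (n false (n false e e) (n false e e)) (n false (n false e e) (n false e e))) (n false e e)) e) (n false e e)) (n false (n false e e) (n false e e))) (n false e e)) e)) (u 8 8 (k v (k v (k (c 24 4099 r (u 16 1 (k v (k v r)))) (k (c 16 4098 r (u 24 1 (k v (k v r)))) (k (c 16 4097 r (u 24 1 (k v (k v r)))) (k (c 16 4099 r (u 24 1 (k v (k v r)))) r)))))))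
 T240 T241)

set_option maxRecDepth 100000 in
def T242 : NT :=
(.s 0x1fdd5114442a22882e75fe008 4082 (n false (n false (n true (z 121) e) (n false e e)) (n true (n true (n false (n true (n false (n false (n false (n false e e) (n false e e)) (n false (n false e e) (n false e e))) (n false e e)) e) (n false (n false (n false e e) (n false e e)) (n false (n false e e) (n false e e)))) e) e)) (u 8 3 (k v (k v (k (c 24 4099 r (u 16 1 (k v (k v r)))) (k (c 16 4097 r r) r)))))
 N228 N229)

set_option maxRecDepth 100000 in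
def T243 : NT :=
(.s 0xebaa22888544511caef801708 4073 (n false (n false (n true (z 52) e) (n false (n true (n false (n false (n false (n false e e) (n false e e)) (n false (n false e e) (n false e e))) (n false e e)) e) (n false (n false (n false e e) (n false e e)) (n false (n false e e) (n false e e))))) (n false (n true (n false e e) e) (n false e e))) (c 18 4099 v (c 14 4101 v r))
 N230 N231)

set_option maxRecDepth 100000 in
def T121 : NT :=
(.s 0xeaa88a222a88a2225fdc01d10 4082 (n false (n false (z 46) (n false (n false (n false (n false (n false e e) (n false e e)) (n false (n false e e) (n false e e))) (n false e e)) (n false (n false (n false (n false e e) (n false e e)) (n false (n false e e) (n false e e))) (n false e e)))) (n true (n false (n false e e) (n false e e)) e)) (u 4 17 (k v (k v (k (u 8 1 (k v (k v r))) (k (u 8 1 (k v (k v r))) (k (c 12 4097 r (u 8 1 (k v (k v r)))) (k (c 8 4095 r (u 12 1 (k v (k v r)))) r)))))))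
 T242 T243)

set_option maxRecDepth 100000 in
def T60 : NT :=
(.s 0x1f551144455114442e75fe008 4080 (n false (n false (n true (z 121) e) (n false e e)) (n true (n false (n false (n false (n false (n false e e) (n false e e)) (n false (n false e e) (n false e e))) (n false e e)) (n false (n false (n false (n false e e) (n false e e)) (n false (n false e e) (n false e e))) (n false e e))) e)) (u 8 1 (k v (k (c 24 4099 r (u 16 1 (k v (k v r)))) (k (c 16 4097 r (u 24 1 (k v (k v r)))) (k (c 16 4095 r (u 24 0 (k v (k v r)))) (k (c 16 4095 r (u 24 0 (k v (k v r)))) r))))))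
 T120 T121)

set_option maxRecDepth 100000 in
def T244 : NT :=
(.s 0xfbaa22888544510be75fe0070 4089 (n false (n false (n true (n true (z 121) e) e) (n true (n false e e) e)) (n true (n false (n true (n false (n false (n false (n false e e) (n false e e)) (n false (n false e e) (n false e e))) (n false e e)) e) (n false (n false (n false e e) (n false e e)) (n false (n false e e) (n false e e)))) e)) (u 16 1 (k v (k (c 48 4099 r (u 32 1 (k v (k v r)))) (k (c 32 4097 r (u 48 1 (k v (k v r)))) (k (c 32 4095 r (u 48 0 (k v (k v r)))) (k (c 32 4095 r (u 48 0 (k v (k v r)))) r))))))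
 N232 N233)

set_option maxRecDepth 100000 in
def T245 : NT :=
(.s 0x7575445110a88a21cfef801708 4073 (n false (n false (n true (z 55) e) (n false (n false (n true (n false (n false (n false (n false e e) (n false e e)) (n false (n false e e) (n false e e))) (n false e e)) e) (n false (n false (n false e e) (n false e e)) (n false (n false e e) (n false e e)))) e)) (n false (n true (n false e e) e) (n false e e))) (c 10 4096 v (u 8 4 (k r (k r r))))
 N234 N235)

set_option maxRecDepth 100000 in
def T122 : NT :=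
(.s 0x75511444551144452bbe00ae10 4084 (n false (n false (z 52) (n false (n false (n true (n false e e) e) (n false e e)) e)) (n false (n false (n false (n false (n false e e) (n false e e)) (n false (n false e e) (n false e e))) (n false e e)) (n false (n false (n false (n false e e) (n false e e)) (n false (n false e e) (n false e e))) (n false e e)))) (u 4 170 (k v (k v (k v (k v (k v (k (t 12 1 (u 8 0 (k v (k v r)))) r)))))))
 T244 T245)

set_option maxRecDepth 100000 in
def T246 : NT :=
(.s 0x7d3baa009d7f802aa22888ee10 4083 (n false (n true (n false (z 121) (z 5)) e) (n false (n true (n false (n true (n false e e) e) (n false e e)) e) (n false (n false (n false (n false e e) (n false e e)) (n false (n false e e) (n false e e))) (n false e e)))) (t 12 1 (u 8 1 (k v (k (c 24 4099 r (u 16 1 (k v (k v r)))) (k (c 16 4097 r (u 24 1 (k v (k v r)))) (k (c 16 4095 r (u 24 0 (k v (k v r)))) (k (c 16 4095 r (u 24 0 (k v (k v r)))) r)))))))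
 N236 N237)

set_option maxRecDepth 100000 in
def T247 : NT :=
(.s 0x3abaa2288872eba00470aa22888 4089 (n false (n false (n false (n false (n true (z 18) e) (n true (n false (n false (n false (n false e e) (n false e e)) (n false (n false e e) (n false e e))) (n false e e)) e)) (n false e e)) (n true (n false e e) e)) (n false (n false (n false (n false e e) (n false e e)) (n false (n false e e) (n false e e))) (n false e e))) (c 3 4099 v (c 6 4094 v (u 32 0 (k (u 64 0 (k v (k v r))) r))))
 N238 N239)

set_option maxRecDepth 100000 in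
def T123 : NT :=
(.s 0x7d75445110ea88a2210e7d7c00 4090 (n false (n true (n false (n false (n true (n false (n false (n false (n false e e) (n false e e)) (n false (n false e e) (n false e e))) (n false e e)) e) (n true (n false (n false (n false (n false e e) (n false e e)) (n false (n false e e) (n false e e))) (n false e e)) e)) (n false e e)) e) (n true (z 51) e)) (u 5 0 (k (t 13 1 (u 9 0 (k (t 17 3 (t 25 3 v)) r))) r))
 T246 T247)

set_option maxRecDepth 100000 in
def T61 : NT :=
(.s 0x773aff00544511d5445111dc20 4083 (n false (n false (n true (z 121) e) (n false (n false (n false e e) (n false e e)) (n false (n false e e) (n false e e)))) (n true (n false (n true (n false (n true (n false e e) e) (n false e e)) e) (n false (n false (n false (n false e e) (n false e e)) (n false (n false e e) (n false e e))) (n false e e))) e)) (u 8 2 (k v (k v (k (c 24 4099 r (u 16 1 (k v (k v r)))) (k (c 16 4095 r (u 24 0 (k v (k v r)))) (k (c 16 4095 r (u 24 0 (k v (k v r)))) r))))))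
 T122 T123)

set_option maxRecDepth 100000 in
def T30 : NT :=
(.s 0xfa77dc012aaa0052fee00a888 4087 (n false (n false (z 46) (n false (n false (n false e e) (n false e e)) (n false e e))) (n true (n false (z 45) (z 0)) e)) (t 13 1 (u 9 0 (k r (k (u 4 2 (k v (k (c 12 4099 r (u 8 0 (k v (k v r)))) (k (u 8 1 (k v (k v r))) (k (u 8 0 (k v (k v r))) (k (c 12 4097 r (u 8 1 (k v (k v r)))) (k (c 8 4095 r (u 12 1 (k v (k v r)))) r))))))) r))))
 T60 T61)

set_option maxRecDepth 100000 in
def T248 : NT :=
(.s 0x1d2bfa8013baa00fb9fdd802a220 4089 (n false (n false (z 156) (z 5)) (n true (n true (n false (n true (z 87) e) (n false (n false (n false e e) (n false e e)) (n false e e))) e) e)) (t 6 1 (u 4 20 (k (c 10 4101 v r) (k (u 33 1 (k v (k v r))) (k (u 33 1 (k v (k v r))) (k (c 12 4099 r r) (k (c 8 4099 r r) r)))))))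
 N240 N241)

set_option maxRecDepth 100000 in
def T249 : NT :=
(.s 0x1f5d5114442a222a88a2213eab00 4090 (n false (n true (n false (n false (n false (n false (n false e e) (n false e e)) (n false e e)) (n true (n false (n false (n false (n false e e) (n false e e)) (n false (n false e e) (n false e e))) (n false e e)) e)) (n false (n false (n false (n false e e) (n false e e)) (n false (n false e e) (n false e e))) (n false e e))) e) (z 67)) (u 3 143 (k v (k v (k v (k v (k v (k (t 7 1 (u 5 1 (k v (k v r)))) (k (c 5 4101 r (u 7 0 (k v (k v r)))) (k r (k (c 20 4101 v (c 2 4088 v r)) (k (t 7 2 (c 20 4101 v (c 2 4088 v (u 5 0 (k r r))))) (k (c 7 4101 r (u 5 1 (k v (k v r)))) (k (t 7 1 (u 5 9 (k v (k v (k v (k (c 13 4099 r (u 9 1 (k v (k v r)))) r)))))) (k (c 7 4102 r (u 5 1 (k v (k v r)))) (k (c 5 4101 r (u 7 1 (k v (k v r)))) (k (t 7 1 (u 5 3 (k v (k v (k (c 13 4099 r (u 9 1 (k v (k v r)))) r))))) (k (c 5 4101 r (u 7 1 (k v (k v r)))) r)))))))))))))))))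
 N242 N243)

set_option maxRecDepth 100000 in
def T124 : NT :=
(.s 0x1dcfeec015445111d74aef8021c0 4085 (n false (n true (n false (n false (n true (n false (z 52) (n false e e)) e) (n true (n false e e) e)) e) e) (n false (n true (z 87) e) (n false (n false (n false (n false e e) (n false e e)) (n false (n false e e) (n false e e))) (n false e e)))) (u 64 435 (k r (k (u 9 1 (k v (k v r))) (k (u 9 1 (k v (k v r))) (k (c 24 4094 v (u 9 1 (k v (k v r)))) r)))))
 T248 T249)

set_option maxRecDepth 100000 in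
def T250 : NT :=
(.s 0xee577c00aa22888eaa22888fb840 4082 (n false (n false (n true (z 52) e) (n false (n false (n false (n false e e) (n false e e)) (n false (n false e e) (n false e e))) (n false e e))) (n true (n false (n true (n true (n false (n true (n false e e) e) (n false e e)) e) e) (n false (n false (n false (n false e e) (n false e e)) (n false (n false e e) (n false e e))) (n false e e))) e)) (u 8 369 (k v (k v (k v (k v (k v r))))))
 N244 N245)

set_option maxRecDepth 100000 in
def T251 : NT :=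
(.s 0x755d5114442288852bfa8013eae00 4095 (n false (n false (z 156) (z 35)) (n false (n false (n false (n false (n true (n false (n false (n false (n false e e) (n false e e)) (n false (n false e e) (n false e e))) (n false e e)) e) (n false e e)) (n false (n false e e) (n false e e))) (n false e e)) e)) (u 6 0 (k r (k (t 4 1 v) (k (t 14 1 (u 4 3 (k r (k (c 2 4069 (u 5 0 (k (t 9 3 (t 13 1 v)) r)) v) (k (c 12 4099 r r) r))))) r))))
 N246 N247)

set_option maxRecDepth 100000 in
def T125 : NT :=
(.s 0x752afa009555004bfb803a77dc010 4093 (n false (n false (z 46) (n false (z 24) (z 0))) (n true (n false (z 45) (n false e e)) e)) (t 14 1 (u 10 0 (k (t 18 3 (t 26 1 (u 4 2 (k (u 9 0 (k v (k v r))) (k (c 12 4099 r (u 8 0 (k (u 9 0 (k v (k v r))) (k (u 9 0 (k v (k v r))) r)))) (k r (k (c 3 4096 (t 4 1 v) (c 10 4098 v r)) (k (c 12 4097 r r) (k (c 8 4095 r r) r))))))))) r)))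
 T250 T251)

set_option maxRecDepth 100000 in
def T62 : NT :=
(.s 0xeaa22888aa22888a7d5c012fee00 4095 (n false (n false (z 46) (z 35)) (n false (n false (n false (n false (n false e e) (n false e e)) (n false (n false e e) (n false e e))) (n false e e)) (n false (n false (n false (n false e e) (n false e e)) (n false (n false e e) (n false e e))) (n false e e)))) (u 4 1 (k r (k (u 8 1 (k r (k r r))) (k (c 12 4099 r (u 8 0 (k r (k r r)))) (k (u 8 1 (k r (k (u 6 0 (k v (k v (k (t 14 1 (u 10 0 (k (t 18 3 (t 26 1 v)) r))) r)))) r))) (k (c 12 4097 r (u 8 1 (k r (k r r)))) (k (c 8 4095 r (u 12 1 (k r (k r r)))) r)))))))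
 T124 T125)

set_option maxRecDepth 100000 in
def T252 : NT :=
(.s 0x3aea88a2215114472eee0075445110 4091 (n false (n false (n true (z 42) e) (n false (n true (n false (n false (n false (n false e e) (n false e e)) (n false (n false e e) (n false e e))) (n false e e)) e) (n false (n false (n false e e) (n false e e)) (n false (n false e e) (n false e e))))) (n true (n false (n false (n false (n false e e) (n false e e)) (n false (n false e e) (n false e e))) (n false e e)) e)) (u 8 16 (k v (k v (k (u 16 2 (k v (k v r))) (k (c 4 4087 r v) (k r (k r r)))))))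
 N248 N249)

set_option maxRecDepth 100000 in
def T253 : NT :=
(.s 0x1dd5445111544511074eea8025fdc00 4093 (n false (n true (n false (z 46) (z 5)) e) (n false (n true (n false (n false (n false (n false (n false e e) (n false e e)) (n false (n false e e) (n false e e))) (n false e e)) (n false (n false (n false (n false e e) (n false e e)) (n false (n false e e) (n false e e))) (n false e e))) e) e)) (t 12 1 (u 8 2 (k v (k (c 24 4099 r (u 16 0 (k v (k v r)))) (k r (k (c 2 4088 (c 10 4101 v r) v) (k (c 24 4097 r r) (k (c 16 4095 r r) r))))))))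
 N250 N251)

set_option maxRecDepth 100000 in
def T126 : NT :=
(.s 0x1d4fba8025ddc01544511153bee0088 4093 (n false (n false (n false (z 42) (z 11)) (n false (n false (n false (n false e e) (n false e e)) (n false (n false e e) (n false e e))) (n false e e))) (n false (n false (z 45) (n false e e)) (n false e e))) (t 12 2 (c 6 4099 v (u 8 11 (k (u 9 0 (k v (k v r))) (k (u 9 0 (k v (k v r))) (k (c 2 4085 (t 12 1 (u 8 0 (k r r))) (u 9 3 (k v (k v r)))) r))))))
 T252 T253)

set_option maxRecDepth 100000 in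
def T254 : NT :=
(.s 0x7f55114445511444172bfa800aa22888 4095 (n false (n true (n true (n false (n false (n false (n false (n false e e) (n false e e)) (n false (n false e e) (n false e e))) (n false e e)) (n false (n false (n false (n false e e) (n false e e)) (n false (n false e e) (n false e e))) (n false e e))) e) e) (n false (n true (z 156) e) (n false (n false (n false (n false e e) (n false e e)) (n false (n false e e) (n false e e))) (n false e e)))) (u 9 8 (k v (k v (k (c 25 4099 r (u 17 1 (k v (k v r)))) (k (c 17 4098 r (u 25 1 (k v (k v r)))) (k (c 17 4097 r (u 25 1 (k v (k v r)))) (k (c 17 4099 r (u 25 1 (k v (k v r)))) r)))))))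
 N252 N253)

set_option maxRecDepth 100000 in
def T255 : NT :=
(.s 0xfaea88a221c2a88a22152afa008e7f7600 4088 (n false (n false (n true (z 87) e) (n false (z 24) (n false e e))) (n true (n false (n false (n true (n false (n false (n false (n false e e) (n false e e)) (n false (n false e e) (n false e e))) (n false e e)) e) (n true (n false e e) e)) (n false (n false (n false (n false e e) (n false e e)) (n false (n false e e) (n false e e))) (n false e e))) e)) (u 8 1 (k (u 10 0 (k (t 18 3 (t 26 1 v)) r)) (k (u 10 0 (k (t 18 3 (t 26 1 v)) r)) r)))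
 N254 N255)

set_option maxRecDepth 100000 in
def T127 : NT :=
(.s 0x1d5d5114443aa2288842e577c00aa22888 4091 (n false (n false (n true (z 52) e) (n false (n false (n false (n false e e) (n false e e)) (n false (n false e e) (n false e e))) (n false e e))) (n false (n false (n false (n true (n false (n false (n false (n false e e) (n false e e)) (n false (n false e e) (n false e e))) (n false e e)) e) (n true (n false (n false (n false (n false e e) (n false e e)) (n false (n false e e) (n false e e))) (n false e e)) e)) (n false e e)) e)) (u 8 150 (k v (k v (k v (k v (k v (k (t 24 1 (u 16 0 (k v (k v r)))) r)))))))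
 T254 T255)

set_option maxRecDepth 100000 in
def T63 : NT :=
(.s 0x755d51144422888ae10a7754012bbe00 4084 (n false (n false (n false (n false (n false (n true (n false (n false (n false (n false e e) (n false e e)) (n false (n false e e) (n false e e))) (n false e e)) e) (n false e e)) (n false (n false e e) (n false e e))) (n false e e)) (n false (n false (n true (n false e e) e) (n false e e)) e)) (n false (z 52) (z 5))) (t 7 1 (u 5 431 (k v (k v (k v (k (t 13 1 (c 7 4099 v (u 9 0 (k v (k v r))))) r))))))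
 T126 T127)

set_option maxRecDepth 100000 in
def T31 : NT :=
(.s 0x7d75445110a88a20b9fdd802a2288 4091 (n false (n false (n true (z 87) e) (n false (n false (n false e e) (n false e e)) (n false (n false e e) (n false e e)))) (n true (n false (n false (n true (n false (n false (n false (n false e e) (n false e e)) (n false (n false e e) (n false e e))) (n false e e)) e) (n false (n false (n false e e) (n false e e)) (n false (n false e e) (n false e e)))) e) e)) (u 8 13 (k v (k v (k v (k v r)))))
 T62 T63)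

set_option maxRecDepth 100000 in
def T15 : NT :=
(.s 0x3e95ff804aef8015d5114443870 4086 (n false (n true (n false (z 124) (z 52)) e) (n false (n false (n true (n false (n false (n false (n false e e) (n false e e)) (n false (n false e e) (n false e e))) (n false e e)) e) (n true (n false e e) e)) (n true (n false e e) e))) (u 8 21 (k r (k r (k (c 4 4083 r v) (k (c 24 4097 r r) (k (c 24 4096 r r) (k (c 24 4097 r r) (k (c 24 4097 r r) (k (c 16 4097 r r) r)))))))))
 T30 T31)

set_option maxRecDepth 100000 in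
def T7 : NT :=
(.s 0x3fab97f7002a88a22380ee10 4077 (n false (n true (n true (n false (n false (n false (n true (z 46) e) (n false (n false (n false (n false e e) (n false e e)) (n false (n false e e) (n false e e))) (n false e e))) (n true (n false e e) e)) e) e) e) (n true (n false (n true (n false e e) e) (n false e e)) e)) (c 96 4099 v (u 128 2 (k v (k (c 384 4099 r (u 256 0 (k v (k v r)))) (k (u 256 1 (k v (k v r))) (k (u 256 15 (k v (k v (k v r)))) (k (c 384 4097 r (u 256 1 (k v (k v r)))) (k (c 256 4095 r (u 384 1 (k v (k v r)))) r))))))))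
 T14 T15)

set_option maxRecDepth 100000 in
def T3 : NT :=
(.s 0x3a775c013baa00e5f7e00 4093 (n false (n true (z 118) e) (n false (z 37) (z 5))) (t 7 1 (u 4 3 (k (c 7 4099 v r) (k (t 12 1 (u 8 7 (k (u 5 1 (k v (k v r))) (k (c 7 4099 v r) (k (c 16 4101 r (c 5 4101 r r)) (k (c 24 4103 r (c 5 4101 r r)) (k (c 24 4100 r (c 5 4101 r r)) (k (c 24 4100 r (c 5 4101 r r)) r)))))))) (k (c 5 4101 r (t 12 1 r)) r)))))
 T6 T7)

set_option maxRecDepth 100000 in
def T1 : NT :=
(.s 0xef9dd7000a5ddc00 4093 (n false (n false (z 42) e) (n false (n true (n true (z 37) e) e) e)) (u 17 23 (k (c 2 4099 (u 2 0 (k v (k v r))) v) (k (u 4 1 (k v (k v r))) (k (c 2 4099 (u 2 0 (k v (k v r))) (u 33 0 (k (t 65 3 (t 97 1 v)) r))) (k (c 2 4099 (u 2 0 (k v (k v r))) r) (k (c 2 4099 (u 2 0 (k v (k v r))) r) r))))))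
 T2 T3)

def NN : NT := T1

end Pool.Agent.Helper91.ND1
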