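import Pool.Agent.Helper91.ND1.LA
import Pool.Agent.Helper91.ND1.LT
import Pool.Agent.Helper66.ND.Asm

/-! part of the certificate for the constant 25/48 (generated) -/

namespace Pool.Agent.Helper91.ND1

open Pool.Agent.Helper66.IL
open Pool.Agent.Helper66.ML
open Pool.Agent.Helper66.ND

theorem okA0 : eok A NN 23 0 = true := by decide +kernel

theorem okA1 : eok A NN 23 1 = true := by decide +kernel

theorem okA2 : eok A NN 23 2 = true := by decide +kernel

theorem okA3 : eok A NN 23 3 = true := by decide +kernel

theorem okA4 : eok A NN 23 4 = true := by decide +kernel

theorem okA5 : eok A NN 23 5 = true := by decide +kernel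

theorem okA6 : eok A NN 23 6 = true := by decide +kernel

theorem okA7 : eok A NN 23 7 = true := by decide +kernel

theorem okA8 : eok A NN 23 8 = true := by decide +kernel

theorem okA9 : eok A NN 23 9 = true := by decide +kernel

theorem okA10 : eok A NN 23 10 = true := by decide +kernel

theorem okA11 : eok A NN 23 11 = true := by decide +kernel

theorem okA12 : eok A NN 23 12 = true := by decide +kernel

theorem okA13 : eok A NN 23 13 = true := by decide +kernel

theorem okA14 : eok A NN 23 14 = true := by decide +kernel

end Pool.Agent.Helper91.ND1
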