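import Pool.Agent.Helper91.ND1.LA
import Pool.Agent.Helper91.ND1.LT
import Pool.Agent.Helper66.ND.Asm

/-! part of the certificate for the constant 25/48 (generated) -/

namespace Pool.Agent.Helper91.ND1

open Pool.Agent.Helper66.IL
open Pool.Agent.Helper66.ML
open Pool.Agent.Helper66.ND

theorem okA15 : eok A NN 23 15 = true := by decide +kernel

theorem okA16 : eok A NN 23 16 = true := by decide +kernel

theorem okA17 : eok A NN 23 17 = true := by decide +kernel

theorem okA18 : eok A NN 23 18 = true := by decide +kernel

theorem okA19 : eok A NN 23 19 = true := by decide +kernel

theorem okA20 : eok A NN 23 20 = true := by decide +kernel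

theorem okA21 : eok A NN 23 21 = true := by decide +kernel

theorem okA22 : eok A NN 23 22 = true := by decide +kernel

theorem okA23 : eok A NN 23 23 = true := by decide +kernel

theorem okA24 : eok A NN 23 24 = true := by decide +kernel

theorem okA25 : eok A NN 23 25 = true := by decide +kernel

theorem okA26 : eok A NN 23 26 = true := by decide +kernel

theorem okA27 : eok A NN 23 27 = true := by decide +kernel

theorem okA28 : eok A NN 23 28 = true := by decide +kernel

theorem okA29 : eok A NN 23 29 = true := by decide +kernel

end Pool.Agent.Helper91.ND1
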