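import Pool.Agent.Helper91.ND1.LA
import Pool.Agent.Helper91.ND1.LT
import Pool.Agent.Helper66.ND.Asm

/-! part of the certificate for the constant 25/48 (generated) -/

namespace Pool.Agent.Helper91.ND1

open Pool.Agent.Helper66.IL
open Pool.Agent.Helper66.ML
open Pool.Agent.Helper66.ND

theorem okA150 : eok A NN 23 150 = true := by decide +kernel

theorem okA151 : eok A NN 23 151 = true := by decide +kernel

theorem okA152 : eok A NN 23 152 = true := by decide +kernel

theorem okA153 : eok A NN 23 153 = true := by decide +kernel

theorem okA154 : eok A NN 23 154 = true := by decide +kernel

theorem okA155 : eok A NN 23 155 = true := by decide +kernel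

theorem okA156 : eok A NN 23 156 = true := by decide +kernel

theorem okA157 : eok A NN 23 157 = true := by decide +kernel

theorem okA158 : eok A NN 23 158 = true := by decide +kernel

theorem okA159 : eok A NN 23 159 = true := by decide +kernel

theorem okA160 : eok A NN 23 160 = true := by decide +kernel

theorem okA161 : eok A NN 23 161 = true := by decide +kernel

theorem okA162 : eok A NN 23 162 = true := by decide +kernel

theorem okA163 : eok A NN 23 163 = true := by decide +kernel

theorem okA164 : eok A NN 23 164 = true := by decide +kernel

end Pool.Agent.Helper91.ND1
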