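import Pool.Agent.Helper91.ND1.LA
import Pool.Agent.Helper91.ND1.LT
import Pool.Agent.Helper66.ND.Asm

/-! part of the certificate for the constant 25/48 (generated) -/

namespace Pool.Agent.Helper91.ND1

open Pool.Agent.Helper66.IL
open Pool.Agent.Helper66.ML
open Pool.Agent.Helper66.ND

theorem okA165 : eok A NN 23 165 = true := by decide +kernel

theorem okA166 : eok A NN 23 166 = true := by decide +kernel

end Pool.Agent.Helper91.ND1
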