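import Pool.Agent.Helper91.ND1.LA
import Pool.Agent.Helper91.ND1.LT
import Pool.Agent.Helper66.ND.Asm

/-! part of the certificate for the constant 25/48 (generated) -/

namespace Pool.Agent.Helper91.ND1

open Pool.Agent.Helper66.IL
open Pool.Agent.Helper66.ML
open Pool.Agent.Helper66.ND

theorem okA30 : eok A NN 23 30 = true := by decide +kernel

theorem okA31 : eok A NN 23 31 = true := by decide +kernel

theorem okA32 : eok A NN 23 32 = true := by decide +kernel

theorem okA33 : eok A NN 23 33 = true := by decide +kernel

theorem okA34 : eok A NN 23 34 = true := by decide +kernel

theorem okA35 : eok A NN 23 35 = true := by decide +kernel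

theorem okA36 : eok A NN 23 36 = true := by decide +kernel

theorem okA37 : eok A NN 23 37 = true := by decide +kernel

theorem okA38 : eok A NN 23 38 = true := by decide +kernel

theorem okA39 : eok A NN 23 39 = true := by decide +kernel

theorem okA40 : eok A NN 23 40 = true := by decide +kernel

theorem okA41 : eok A NN 23 41 = true := by decide +kernel

theorem okA42 : eok A NN 23 42 = true := by decide +kernel

theorem okA43 : eok A NN 23 43 = true := by decide +kernel

theorem okA44 : eok A NN 23 44 = true := by decide +kernel

end Pool.Agent.Helper91.ND1
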