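import Pool.Agent.Helper91.ND1.LA
import Pool.Agent.Helper91.ND1.LT
import Pool.Agent.Helper66.ND.Asm

/-! part of the certificate for the constant 25/48 (generated) -/

namespace Pool.Agent.Helper91.ND1

open Pool.Agent.Helper66.IL
open Pool.Agent.Helper66.ML
open Pool.Agent.Helper66.ND

theorem okA45 : eok A NN 23 45 = true := by decide +kernel

theorem okA46 : eok A NN 23 46 = true := by decide +kernel

theorem okA47 : eok A NN 23 47 = true := by decide +kernel

theorem okA48 : eok A NN 23 48 = true := by decide +kernel

theorem okA49 : eok A NN 23 49 = true := by decide +kernel

theorem okA50 : eok A NN 23 50 = true := by decide +kernel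

theorem okA51 : eok A NN 23 51 = true := by decide +kernel

theorem okA52 : eok A NN 23 52 = true := by decide +kernel

theorem okA53 : eok A NN 23 53 = true := by decide +kernel

theorem okA54 : eok A NN 23 54 = true := by decide +kernel

theorem okA55 : eok A NN 23 55 = true := by decide +kernel

theorem okA56 : eok A NN 23 56 = true := by decide +kernel

theorem okA57 : eok A NN 23 57 = true := by decide +kernel

theorem okA58 : eok A NN 23 58 = true := by decide +kernel

theorem okA59 : eok A NN 23 59 = true := by decide +kernel

end Pool.Agent.Helper91.ND1
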