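import Pool.Agent.Helper91.ND1.LA
import Pool.Agent.Helper91.ND1.LT
import Pool.Agent.Helper66.ND.Asm

/-! part of the certificate for the constant 25/48 (generated) -/

namespace Pool.Agent.Helper91.ND1

open Pool.Agent.Helper66.IL
open Pool.Agent.Helper66.ML
open Pool.Agent.Helper66.ND

theorem okA60 : eok A NN 23 60 = true := by decide +kernel

theorem okA61 : eok A NN 23 61 = true := by decide +kernel

theorem okA62 : eok A NN 23 62 = true := by decide +kernel

theorem okA63 : eok A NN 23 63 = true := by decide +kernel

theorem okA64 : eok A NN 23 64 = true := by decide +kernel

theorem okA65 : eok A NN 23 65 = true := by decide +kernel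

theorem okA66 : eok A NN 23 66 = true := by decide +kernel

theorem okA67 : eok A NN 23 67 = true := by decide +kernel

theorem okA68 : eok A NN 23 68 = true := by decide +kernel

theorem okA69 : eok A NN 23 69 = true := by decide +kernel

theorem okA70 : eok A NN 23 70 = true := by decide +kernel

theorem okA71 : eok A NN 23 71 = true := by decide +kernel

theorem okA72 : eok A NN 23 72 = true := by decide +kernel

theorem okA73 : eok A NN 23 73 = true := by decide +kernel

theorem okA74 : eok A NN 23 74 = true := by decide +kernel

end Pool.Agent.Helper91.ND1
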