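import Pool.Agent.Helper91.ND1.LA
import Pool.Agent.Helper91.ND1.LT
import Pool.Agent.Helper66.ND.Asm

/-! part of the certificate for the constant 25/48 (generated) -/

namespace Pool.Agent.Helper91.ND1

open Pool.Agent.Helper66.IL
open Pool.Agent.Helper66.ML
open Pool.Agent.Helper66.ND

theorem okA75 : eok A NN 23 75 = true := by decide +kernel

theorem okA76 : eok A NN 23 76 = true := by decide +kernel

theorem okA77 : eok A NN 23 77 = true := by decide +kernel

theorem okA78 : eok A NN 23 78 = true := by decide +kernel

theorem okA79 : eok A NN 23 79 = true := by decide +kernel

theorem okA80 : eok A NN 23 80 = true := by decide +kernel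

theorem okA81 : eok A NN 23 81 = true := by decide +kernel

theorem okA82 : eok A NN 23 82 = true := by decide +kernel

theorem okA83 : eok A NN 23 83 = true := by decide +kernel

theorem okA84 : eok A NN 23 84 = true := by decide +kernel

theorem okA85 : eok A NN 23 85 = true := by decide +kernel

theorem okA86 : eok A NN 23 86 = true := by decide +kernel

theorem okA87 : eok A NN 23 87 = true := by decide +kernel

theorem okA88 : eok A NN 23 88 = true := by decide +kernel

theorem okA89 : eok A NN 23 89 = true := by decide +kernel

end Pool.Agent.Helper91.ND1
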