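import Pool.Agent.Helper91.ND1.LA
import Pool.Agent.Helper91.ND1.LT
import Pool.Agent.Helper66.ND.Asm

/-! part of the certificate for the constant 25/48 (generated) -/

namespace Pool.Agent.Helper91.ND1

open Pool.Agent.Helper66.IL
open Pool.Agent.Helper66.ML
open Pool.Agent.Helper66.ND

theorem okA90 : eok A NN 23 90 = true := by decide +kernel

theorem okA91 : eok A NN 23 91 = true := by decide +kernel

theorem okA92 : eok A NN 23 92 = true := by decide +kernel

theorem okA93 : eok A NN 23 93 = true := by decide +kernel

theorem okA94 : eok A NN 23 94 = true := by decide +kernel

theorem okA95 : eok A NN 23 95 = true := by decide +kernel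

theorem okA96 : eok A NN 23 96 = true := by decide +kernel

theorem okA97 : eok A NN 23 97 = true := by decide +kernel

theorem okA98 : eok A NN 23 98 = true := by decide +kernel

theorem okA99 : eok A NN 23 99 = true := by decide +kernel

theorem okA100 : eok A NN 23 100 = true := by decide +kernel

theorem okA101 : eok A NN 23 101 = true := by decide +kernel

theorem okA102 : eok A NN 23 102 = true := by decide +kernel

theorem okA103 : eok A NN 23 103 = true := by decide +kernel

theorem okA104 : eok A NN 23 104 = true := by decide +kernel

end Pool.Agent.Helper91.ND1
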