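import Pool.Agent.Helper91.ND1.LA
import Pool.Agent.Helper91.ND1.LT
import Pool.Agent.Helper66.ND.Asm

/-! part of the certificate for the constant 25/48 (generated) -/

namespace Pool.Agent.Helper91.ND1

open Pool.Agent.Helper66.IL
open Pool.Agent.Helper66.ML
open Pool.Agent.Helper66.ND

theorem okA105 : eok A NN 23 105 = true := by decide +kernel

theorem okA106 : eok A NN 23 106 = true := by decide +kernel

theorem okA107 : eok A NN 23 107 = true := by decide +kernel

theorem okA108 : eok A NN 23 108 = true := by decide +kernel

theorem okA109 : eok A NN 23 109 = true := by decide +kernel

theorem okA110 : eok A NN 23 110 = true := by decide +kernel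

theorem okA111 : eok A NN 23 111 = true := by decide +kernel

theorem okA112 : eok A NN 23 112 = true := by decide +kernel

theorem okA113 : eok A NN 23 113 = true := by decide +kernel

theorem okA114 : eok A NN 23 114 = true := by decide +kernel

theorem okA115 : eok A NN 23 115 = true := by decide +kernel

theorem okA116 : eok A NN 23 116 = true := by decide +kernel

theorem okA117 : eok A NN 23 117 = true := by decide +kernel

theorem okA118 : eok A NN 23 118 = true := by decide +kernel

theorem okA119 : eok A NN 23 119 = true := by decide +kernel

end Pool.Agent.Helper91.ND1
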