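import Pool.Agent.Helper91.ND1.LA
import Pool.Agent.Helper91.ND1.LT
import Pool.Agent.Helper66.ND.Asm

/-! part of the certificate for the constant 25/48 (generated) -/

namespace Pool.Agent.Helper91.ND1

open Pool.Agent.Helper66.IL
open Pool.Agent.Helper66.ML
open Pool.Agent.Helper66.ND

theorem okA120 : eok A NN 23 120 = true := by decide +kernel

theorem okA121 : eok A NN 23 121 = true := by decide +kernel

theorem okA122 : eok A NN 23 122 = true := by decide +kernel

theorem okA123 : eok A NN 23 123 = true := by decide +kernel

theorem okA124 : eok A NN 23 124 = true := by decide +kernel

theorem okA125 : eok A NN 23 125 = true := by decide +kernel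

theorem okA126 : eok A NN 23 126 = true := by decide +kernel

theorem okA127 : eok A NN 23 127 = true := by decide +kernel

theorem okA128 : eok A NN 23 128 = true := by decide +kernel

theorem okA129 : eok A NN 23 129 = true := by decide +kernel

theorem okA130 : eok A NN 23 130 = true := by decide +kernel

theorem okA131 : eok A NN 23 131 = true := by decide +kernel

theorem okA132 : eok A NN 23 132 = true := by decide +kernel

theorem okA133 : eok A NN 23 133 = true := by decide +kernel

theorem okA134 : eok A NN 23 134 = true := by decide +kernel

end Pool.Agent.Helper91.ND1
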