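import Pool.Agent.Helper91.ND1.LA
import Pool.Agent.Helper91.ND1.LT
import Pool.Agent.Helper66.ND.Asm

/-! part of the certificate for the constant 25/48 (generated) -/

namespace Pool.Agent.Helper91.ND1

open Pool.Agent.Helper66.IL
open Pool.Agent.Helper66.ML
open Pool.Agent.Helper66.ND

theorem okA135 : eok A NN 23 135 = true := by decide +kernel

theorem okA136 : eok A NN 23 136 = true := by decide +kernel

theorem okA137 : eok A NN 23 137 = true := by decide +kernel

theorem okA138 : eok A NN 23 138 = true := by decide +kernel

theorem okA139 : eok A NN 23 139 = true := by decide +kernel

theorem okA140 : eok A NN 23 140 = true := by decide +kernel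

theorem okA141 : eok A NN 23 141 = true := by decide +kernel

theorem okA142 : eok A NN 23 142 = true := by decide +kernel

theorem okA143 : eok A NN 23 143 = true := by decide +kernel

theorem okA144 : eok A NN 23 144 = true := by decide +kernel

theorem okA145 : eok A NN 23 145 = true := by decide +kernel

theorem okA146 : eok A NN 23 146 = true := by decide +kernel

theorem okA147 : eok A NN 23 147 = true := by decide +kernel

theorem okA148 : eok A NN 23 148 = true := by decide +kernel

theorem okA149 : eok A NN 23 149 = true := by decide +kernel

end Pool.Agent.Helper91.ND1
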