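import Pool.Agent.Helper66.ND.Defs

/-! part of the certificate for the constant 25/48 (generated) -/

namespace Pool.Agent.Helper91.ND1

open Pool.Agent.Helper66.IL
open Pool.Agent.Helper66.IL.MB
open Pool.Agent.Helper66.ND

set_option maxRecDepth 100000 in
def A46 : AE :=
 (.s 4096 4099 (.s 16 7 (.s 43 1 (.s 43 0 (.s 44 1 (.s 44 0 (.s 44 17 (.s 161 44 .z)))))))
 (.s 0x8 4100 (n false e e) .z .z)
 (.s (.s (n true (n false (n true (n false e e) e) (n false e e)) e) 16390 .z) (.s 44 1 (.s 44 0 (.s 16 7 (.s 44 17 (.s 161 44 .z)))))
  (.s (.s (n true (n false (n true (n false e e) e) (n false e e)) e) 16390 .z) (.s 44 1 (.s 16 7 (.s 44 0 (.s 44 17 (.s 161 44 .z)))))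
  (.s (.s (n true (n false (n true (n false e e) e) (n false e e)) e) 16390 .z) (.s 16 7 (.s 44 1 (.s 44 0 (.s 44 17 (.s 161 44 .z)))))
  (.s (.s (n false e e) 16386 (.s (n true (n false (n false (n false (n false e e) (n false e e)) (n false (n false e e) (n false e e))) (n false e e)) e) 16385 .z)) (.s 44 0 (.s 44 17 (.s 161 44 .z)))
  (.s (.s (n false (n true (n false e e) e) (n false e e)) 16402 (.s (n true (n false (n true (n false e e) e) (n false e e)) e) 16390 .z)) (.s 16 7 (.s 44 1 (.s 44 0 .z)))
  (.s (.s (n false e e) 16386 (.s (n false (n true (n false e e) e) (n false e e)) 16399 (.s (n true (n false (n false (n false (n false e e) (n false e e)) (n false (n false e e) (n false e e))) (n false e e)) e) 16385 .z))) (.s 44 0 (.s 44 17 .z))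
  (.s (.s (n true (n false (n true (n false e e) e) (n false e e)) e) 16390 (.s (n true (n true (n false (n true (n false e e) e) (n false e e)) e) e) 16401 .z)) (.s 44 1 (.s 16 7 (.s 44 0 (.s 44 17 .z))))
  (.s (.s (n false e e) 16384 (.s (n false (n false (n true (n false e e) e) (n false e e)) e) 16390 (.s (n true (n true (n false (n true (n false e e) e) (n false e e)) e) e) 16401 .z))) (.s 16 7 (.s 44 1 (.s 44 0 (.s 44 17 .z))))
  (.s (.s (n true (n false (n true (n false e e) e) (n false e e)) e) 16390 .z) (.s 44 0 (.s 16 7 (.s 44 1 (.s 44 17 (.s 161 44 .z)))))
  (.s (.s (n false e e) 16387 (.s (n true (n false (n false (n false (n false e e) (n false e e)) (n false (n false e e) (n false e e))) (n false e e)) e) 16385 .z)) (.s 44 0 .z)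
  (.s (.s (n false e e) 16387 .z) (.s 16 7 (.s 44 0 .z))
  (.s (.s (n true (n false (n true (n false e e) e) (n false e e)) e) 16390 (.s (n false e e) 16387 .z)) (.s 16 7 (.s 44 0 .z))
  (.s (.s (n true (n false (n true (n false e e) e) (n false e e)) e) 16390 (.s (n true (n true (n false (n true (n false e e) e) (n false e e)) e) e) 16401 (.s (n true (n false (n false (n false (n false e e) (n false e e)) (n false (n false e e) (n false e e))) (n false e e)) e) 16385 .z))) (.s 44 1 (.s 44 0 (.s 44 17 .z)))
  (.s (.s (n true (n false (n true (n false e e) e) (n false e e)) e) 16390 (.s (n true (n false (n false (n false (n false e e) (n false e e)) (n false (n false e e) (n false e e))) (n false e e)) e) 16385 (.s (n true (n true (n false (n true (n false e e) e) (n false e e)) e) e) 16401 .z))) (.s 44 1 (.s 44 0 (.s 44 17 .z)))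
  (.s (.s (n true (n false e e) e) 16397 (.s (n true (n false (n false (n false (n false e e) (n false e e)) (n false (n false e e) (n false e e))) (n false e e)) e) 16385 (.s (n true (n true (n false (n false (n false (n false e e) (n false e e)) (n false (n false e e) (n false e e))) (n false e e)) e) e) 16396 .z))) (.s 44 1 (.s 44 0 (.s 44 17 .z)))
  (.s (.s (n true (n false (n true (n false e e) e) (n false e e)) e) 16390 (.s (n false (n true (n false e e) e) (n false e e)) 16399 (.s (n true (n false (n false (n false (n false e e) (n false e e)) (n false (n false e e) (n false e e))) (n false e e)) e) 16385 .z))) (.s 44 1 (.s 44 0 (.s 44 17 .z)))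
  (.s (.s (n false (n true (n false e e) e) (n false e e)) 16402 (.s (n true (n false (n true (n false e e) e) (n false e e)) e) 16390 .z)) (.s 44 0 (.s 16 7 (.s 44 1 .z)))
  (.s (.s (n true (n false (n true (n false e e) e) (n false e e)) e) 16390 (.s (n true (n false (n false (n false (n false e e) (n false e e)) (n false (n false e e) (n false e e))) (n false e e)) e) 16385 .z)) (.s 44 1 (.s 44 0 (.s 44 17 (.s 161 44 .z))))
  (.s (.s (n true (n false (n true (n false e e) e) (n false e e)) e) 16390 (.s (n true (n true (n false (n true (n false e e) e) (n false e e)) e) e) 16401 .z)) (.s 16 7 (.s 44 1 (.s 44 0 (.s 44 17 .z))))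
  (.s (.s (n false e e) 16386 .z) (.s 16 7 (.s 44 0 (.s 44 17 (.s 161 44 .z))))
  (.s (.s (n false (n true (n false e e) e) (n false e e)) 16402 (.s (n false e e) 16384 (.s (n false (n false e e) e) 16399 .z))) (.s 16 7 (.s 44 1 (.s 44 0 .z)))
  (.s (.s (n true (n false (n true (n false e e) e) (n false e e)) e) 16390 (.s (n false (n true (n false e e) e) (n false e e)) 16399 .z)) (.s 16 7 (.s 44 1 (.s 44 0 (.s 44 17 .z))))
  (.s (.s (n true (n false (n true (n false e e) e) (n false e e)) e) 16390 (.s (n true (n true (n false (n true (n false e e) e) (n false e e)) e) e) 16401 .z)) (.s 44 1 (.s 44 0 (.s 16 7 (.s 44 17 .z))))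
  (.s (.s (n true (n false (n false (n false (n false e e) (n false e e)) (n false (n false e e) (n false e e))) (n false e e)) e) 16385 (.s (n true (n false (n true (n false e e) e) (n false e e)) e) 16390 .z)) (.s 44 1 (.s 44 0 (.s 44 17 (.s 161 44 .z))))
  (.s (.s (n false e e) 16386 (.s (n true (n false e e) e) 16397 (.s (n true (n false (n false (n false (n false e e) (n false e e)) (n false (n false e e) (n false e e))) (n false e e)) e) 16385 .z))) (.s 44 0 (.s 44 17 .z))
  (.s (.s (n true (n false e e) e) 16397 (.s (n true (n false (n true (n false e e) e) (n false e e)) e) 16390 (.s (n true (n false (n false (n false (n false e e) (n false e e)) (n false (n false e e) (n false e e))) (n false e e)) e) 16385 .z))) (.s 44 1 (.s 44 0 (.s 44 17 .z)))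
  (.s (.s (n false (n false e e) e) 16399 (.s (n false (n true (n false e e) e) (n false e e)) 16402 (.s (n true (n false (n true (n false e e) e) (n false e e)) e) 16388 .z))) (.s 16 7 (.s 44 1 (.s 44 0 .z)))
  (.s (.s (n false (n false (n true (n false e e) e) (n false e e)) e) 16390 (.s (n true (n false (n false (n false (n false e e) (n false e e)) (n false (n false e e) (n false e e))) (n false e e)) e) 16385 (.s (n true (n false (n true (n false e e) e) (n false e e)) e) 16388 .z))) (.s 44 1 (.s 44 0 (.s 44 17 (.s 161 44 .z))))
  (.s (.s (n true (n false e e) e) 16400 (.s (n false e e) 16386 (.s (n true (n false (n false (n false (n false e e) (n false e e)) (n false (n false e e) (n false e e))) (n false e e)) e) 16385 .z))) (.s 44 0 .z)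
  (.s (.s (n false e e) 16386 (.s (n true (n true (n false (n true (n false e e) e) (n false e e)) e) e) 16401 (.s (n true (n false (n false (n false (n false e e) (n false e e)) (n false (n false e e) (n false e e))) (n false e e)) e) 16385 .z))) (.s 44 0 (.s 44 17 .z))
  (.s (.s (n true (n false (n false (n false (n false e e) (n false e e)) (n false (n false e e) (n false e e))) (n false e e)) e) 16385 (.s (n true (n false (n true (n false e e) e) (n false e e)) e) 16390 (.s (n true (n true (n false (n true (n false e e) e) (n false e e)) e) e) 16401 .z))) (.s 44 1 (.s 44 0 (.s 44 17 .z)))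
  (.s (.s (n false (n true (n false e e) e) (n false e e)) 16399 (.s (n true (n false (n false (n false (n false e e) (n false e e)) (n false (n false e e) (n false e e))) (n false e e)) e) 16385 (.s (n false e e) 16387 .z))) (.s 44 0 .z)
  (.s (.s (n false e e) 16384 (.s (n false (n false (n true (n false e e) e) (n false e e)) e) 16390 (.s (n true (n false (n false (n false (n false e e) (n false e e)) (n false (n false e e) (n false e e))) (n false e e)) e) 16385 (.s (n true (n true (n false (n true (n false e e) e) (n false e e)) e) e) 16401 .z)))) (.s 44 1 (.s 44 0 (.s 44 17 .z)))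
  (.s (.s (n false e e) 16387 (.s (n true (n false (n false (n false (n false e e) (n false e e)) (n false (n false e e) (n false e e))) (n false e e)) e) 16385 .z)) (.s 44 1 (.s 44 0 .z))
  (.s (.s (n false e e) 16386 (.s (n true (n false (n false (n false (n false e e) (n false e e)) (n false (n false e e) (n false e e))) (n false e e)) e) 16385 (.s (n true (n false e e) e) 16400 .z))) (.s 44 0 .z)
  (.s (.s (n true (n false (n false (n false (n false e e) (n false e e)) (n false (n false e e) (n false e e))) (n false e e)) e) 16385 (.s (n false e e) 16386 (.s (n true (n false e e) e) 16397 .z))) (.s 44 0 (.s 44 17 .z))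
  (.s (.s (n true (n false (n true (n false e e) e) (n false e e)) e) 16390 (.s (n false (n true (n false e e) e) (n false e e)) 16399 .z)) (.s 44 1 (.s 16 7 (.s 44 0 (.s 44 17 .z))))
  (.s (.s (n true (n false (n true (n false e e) e) (n false e e)) e) 16390 (.s (n false (n true (n false e e) e) (n false e e)) 16402 .z)) (.s 16 7 (.s 44 1 (.s 44 0 .z)))
  (.s (.s (n false e e) 16386 (.s (n true (n true (n false (n true (n false e e) e) (n false e e)) e) e) 16401 .z)) (.s 16 7 (.s 44 0 (.s 44 17 .z)))
  .z))))))))))))))))))))))))))))))))))))))))

set_option maxRecDepth 100000 in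
def A47 : AE :=
 (.s 4094 4098 (.s 18 7 .z)
 (.s 0x1d10 4102 (n true (n false (n false e e) (n false e e)) e) (.s 0x8 4111 (n false e e) .z .z) (.s 0xeea88a2210 4099 (n true (n false (n true (n false (n false (n false (n false e e) (n false e e)) (n false (n false e e) (n false e e))) (n false e e)) e) (n false e e)) e) .z .z))
 .z)

set_option maxRecDepth 100000 in
def A48 : AE :=
 (.s 4096 4098 (.s 19 7 (.s 46 0 (.s 47 1 (.s 47 0 (.s 55 0 (.s 128 0 .z))))))
 (.s 0x1d10 4102 (n true (n false (n false e e) (n false e e)) e) (.s 0x8 4111 (n false e e) .z .z) .z)
 (.s (.s (n false e e) 16387 .z) (.s 19 7 (.s 46 0 (.s 47 1 (.s 47 0 .z))))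
  (.s (.s (n true (n false (n false e e) (n false e e)) e) 16388 .z) (.s 19 7 (.s 47 0 (.s 128 0 .z)))
  (.s (.s (n false e e) 16391 .z) (.s 19 7 (.s 47 0 .z))
  (.s (.s (n false (n false (n true (n false (n false (n false (n false e e) (n false e e)) (n false (n false e e) (n false e e))) (n false e e)) e) (n false e e)) e) 16385 .z) (.s 55 0 (.s 128 0 (.s 19 7 (.s 47 1 (.s 47 0 .z)))))
  (.s (.s (n false (n false (n true (n false (n false (n false (n false e e) (n false e e)) (n false (n false e e) (n false e e))) (n false e e)) e) (n false e e)) e) 16385 (.s (n false (n false (n false (n false (n false e e) (n false e e)) (n false (n false e e) (n false e e))) (n false e e)) (n false (n false e e) (n false e e))) 16387 .z)) (.s 47 1 (.s 47 0 (.s 55 0 (.s 128 0 .z))))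
  (.s (.s (n false (n false (n false (n false (n false e e) (n false e e)) (n false (n false e e) (n false e e))) (n false e e)) (n false (n false e e) (n false e e))) 16387 (.s (n false (n false (n true (n false (n false (n false (n false e e) (n false e e)) (n false (n false e e) (n false e e))) (n false e e)) e) (n false e e)) e) 16385 .z)) (.s 55 0 (.s 128 0 (.s 47 1 (.s 47 0 .z))))
  (.s (.s (n true (n false (n false e e) (n false e e)) e) 16388 (.s (n false (n false (n false (n false (n false e e) (n false e e)) (n false (n false e e) (n false e e))) (n false e e)) (n false (n false e e) (n false e e))) 16387 .z)) (.s 47 0 (.s 128 0 .z))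
  (.s (.s (n false (n false (n true (n false (n false (n false (n false e e) (n false e e)) (n false (n false e e) (n false e e))) (n false e e)) e) (n false e e)) e) 16385 .z) (.s 47 1 (.s 55 0 (.s 128 0 (.s 19 7 (.s 47 0 .z)))))
  (.s (.s (n false (n false (n true (n false (n false (n false (n false e e) (n false e e)) (n false (n false e e) (n false e e))) (n false e e)) e) (n false e e)) e) 16385 (.s (n false (n false (n false (n false (n false e e) (n false e e)) (n false (n false e e) (n false e e))) (n false e e)) (n false (n false e e) (n false e e))) 16387 .z)) (.s 55 0 (.s 128 0 (.s 47 1 (.s 47 0 .z))))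
  (.s (.s (n false (n false (n false e e) (n false e e)) e) 16388 (.s (n true (n false (n false e e) (n false e e)) e) 16388 (.s (n false (n false (n false (n false (n false e e) (n false e e)) (n false (n false e e) (n false e e))) (n false e e)) (n false (n false e e) (n false e e))) 16387 .z))) (.s 47 0 (.s 128 0 .z))
  (.s (.s (n false e e) 16393 (.s (n false (n false (n false (n false (n false e e) (n false e e)) (n false (n false e e) (n false e e))) (n false e e)) (n false (n false e e) (n false e e))) 16387 .z)) .z
  (.s (.s (n false (n false (n false (n false (n false e e) (n false e e)) (n false (n false e e) (n false e e))) (n false e e)) (n false (n false e e) (n false e e))) 16387 (.s (n false (n false (n true (n false (n false (n false (n false e e) (n false e e)) (n false (n false e e) (n false e e))) (n false e e)) e) (n false e e)) e) 16385 .z)) (.s 128 0 (.s 47 1 (.s 47 0 (.s 55 0 .z))))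
  (.s (.s (n false (n false (n false e e) (n false e e)) e) 16388 (.s (n true (n false (n false e e) (n false e e)) e) 16388 .z)) (.s 19 7 (.s 47 0 (.s 128 0 .z)))
  (.s (.s (n true (n false (n false e e) (n false e e)) e) 16388 (.s (n false e e) 16387 (.s (n false (n false (n false (n false (n false e e) (n false e e)) (n false (n false e e) (n false e e))) (n false e e)) (n false (n false e e) (n false e e))) 16387 .z))) (.s 47 0 .z)
  (.s (.s (n false (n false (n true (n false (n false (n false (n false e e) (n false e e)) (n false (n false e e) (n false e e))) (n false e e)) e) (n false e e)) e) 16385 .z) (.s 19 7 (.s 47 1 (.s 47 0 (.s 55 0 (.s 128 0 .z)))))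
  (.s (.s (n false (n false (n true (n false (n false (n false (n false e e) (n false e e)) (n false (n false e e) (n false e e))) (n false e e)) e) (n false e e)) e) 16385 .z) (.s 47 1 (.s 19 7 (.s 47 0 (.s 55 0 (.s 128 0 .z)))))
  (.s (.s (n false e e) 16391 (.s (n false (n false (n false (n false (n false e e) (n false e e)) (n false (n false e e) (n false e e))) (n false e e)) (n false (n false e e) (n false e e))) 16387 .z)) (.s 47 0 .z)
  (.s (.s (n false e e) 16391 .z) (.s 47 0 (.s 19 7 .z))
  (.s (.s (n false (n false (n false (n false (n false e e) (n false e e)) (n false (n false e e) (n false e e))) (n false e e)) (n false (n false e e) (n false e e))) 16387 (.s (n false (n false (n true (n false (n false (n false (n false e e) (n false e e)) (n false (n false e e) (n false e e))) (n false e e)) e) (n false e e)) e) 16385 .z)) (.s 47 1 (.s 47 0 (.s 55 0 (.s 128 0 .z))))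
  (.s (.s (n false (n true (n false e e) e) e) 16389 (.s (n false (n false (n true (n false (n false (n false (n false e e) (n false e e)) (n false (n false e e) (n false e e))) (n false e e)) e) (n false e e)) e) 16385 (.s (n false e e) 16391 (.s (n false (n false (n false (n false (n false e e) (n false e e)) (n false (n false e e) (n false e e))) (n false e e)) (n false (n false e e) (n false e e))) 16387 .z)))) (.s 47 0 .z)
  (.s (.s (n false (n false (n false e e) (n false e e)) e) 16388 (.s (n true (n false (n false e e) (n false e e)) e) 16388 (.s (n false (n false (n false (n false (n false e e) (n false e e)) (n false (n false e e) (n false e e))) (n false e e)) (n false (n false e e) (n false e e))) 16387 .z))) (.s 128 0 (.s 47 0 .z))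
  (.s (.s (n false e e) 16387 (.s (n false (n false (n false (n false (n false e e) (n false e e)) (n false (n false e e) (n false e e))) (n false e e)) (n false (n false e e) (n false e e))) 16387 (.s (n false (n false (n true (n false (n false (n false (n false e e) (n false e e)) (n false (n false e e) (n false e e))) (n false e e)) e) (n false e e)) e) 16385 .z))) (.s 47 1 (.s 47 0 .z))
  (.s (.s (n false (n false (n true (n false (n false (n false (n false e e) (n false e e)) (n false (n false e e) (n false e e))) (n false e e)) e) (n false e e)) e) 16385 (.s (n true (n false (n false e e) (n false e e)) e) 16388 .z)) (.s 19 7 (.s 47 0 (.s 128 0 .z)))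
  (.s (.s (n false (n true (n false e e) e) e) 16389 (.s (n false (n false (n true (n false (n false (n false (n false e e) (n false e e)) (n false (n false e e) (n false e e))) (n false e e)) e) (n false e e)) e) 16385 (.s (n true (n false (n false e e) (n false e e)) e) 16388 (.s (n false (n false (n false (n false (n false e e) (n false e e)) (n false (n false e e) (n false e e))) (n false e e)) (n false (n false e e) (n false e e))) 16387 .z)))) (.s 47 0 .z)
  (.s (.s (n true (n false (n false e e) (n false e e)) e) 16388 (.s (n false (n false (n false (n false (n false e e) (n false e e)) (n false (n false e e) (n false e e))) (n false e e)) (n false (n false e e) (n false e e))) 16387 .z)) (.s 128 0 (.s 47 0 .z))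
  (.s (.s (n false (n false (n false (n false (n false e e) (n false e e)) (n false (n false e e) (n false e e))) (n false e e)) (n false (n false e e) (n false e e))) 16387 (.s (n false (n false (n true (n false (n false (n false (n false e e) (n false e e)) (n false (n false e e) (n false e e))) (n false e e)) e) (n false e e)) e) 16385 (.s (n false e e) 16387 .z))) (.s 47 1 (.s 47 0 .z))
  (.s (.s (n false (n false (n true (n false (n false (n false (n false e e) (n false e e)) (n false (n false e e) (n false e e))) (n false e e)) e) (n false e e)) e) 16385 (.s (n false e e) 16385 .z)) (.s 19 7 (.s 47 1 (.s 47 0 (.s 128 0 .z))))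
  (.s (.s (n false e e) 16385 (.s (n false (n false (n true (n false (n false (n false (n false e e) (n false e e)) (n false (n false e e) (n false e e))) (n false e e)) e) (n false e e)) e) 16385 .z)) (.s 19 7 (.s 47 1 (.s 47 0 (.s 128 0 .z))))
  (.s (.s (n false e e) 16387 (.s (n false (n false (n true (n false (n false (n false (n false e e) (n false e e)) (n false (n false e e) (n false e e))) (n false e e)) e) (n false e e)) e) 16385 (.s (n false (n false (n false (n false (n false e e) (n false e e)) (n false (n false e e) (n false e e))) (n false e e)) (n false (n false e e) (n false e e))) 16387 .z))) (.s 47 1 (.s 47 0 .z))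
  (.s (.s (n false (n true (n false e e) e) e) 16389 (.s (n false (n false (n true (n false (n false (n false (n false e e) (n false e e)) (n false (n false e e) (n false e e))) (n false e e)) e) (n false e e)) e) 16385 (.s (n false (n false (n false (n false (n false e e) (n false e e)) (n false (n false e e) (n false e e))) (n false e e)) (n false (n false e e) (n false e e))) 16387 .z))) (.s 47 1 (.s 47 0 .z))
  (.s .z (.s 19 7 (.s 46 0 (.s 47 1 (.s 47 0 (.s 55 0 (.s 128 0 .z))))))
  (.s (.s (n false e e) 16387 (.s (n false (n false (n true (n false (n false (n false (n false e e) (n false e e)) (n false (n false e e) (n false e e))) (n false e e)) e) (n false e e)) e) 16385 .z)) (.s 19 7 (.s 47 1 (.s 47 0 .z)))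
  (.s (.s (n false (n false (n true (n false (n false (n false (n false e e) (n false e e)) (n false (n false e e) (n false e e))) (n false e e)) e) (n false e e)) e) 16385 .z) (.s 47 1 (.s 55 0 (.s 19 7 (.s 47 0 (.s 128 0 .z)))))
  (.s (.s (n false (n false (n true (n false (n false (n false (n false e e) (n false e e)) (n false (n false e e) (n false e e))) (n false e e)) e) (n false e e)) e) 16385 (.s (n false e e) 16385 (.s (n false (n false (n false (n false (n false e e) (n false e e)) (n false (n false e e) (n false e e))) (n false e e)) (n false (n false e e) (n false e e))) 16387 .z))) (.s 47 1 (.s 47 0 (.s 128 0 .z)))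
  (.s (.s (n false (n true (n false e e) e) e) 16389 (.s (n false (n false (n true (n false (n false (n false (n false e e) (n false e e)) (n false (n false e e) (n false e e))) (n false e e)) e) (n false e e)) e) 16385 .z)) (.s 47 1 (.s 19 7 (.s 47 0 .z)))
  (.s (.s (n false e e) 16385 (.s (n false (n false (n true (n false (n false (n false (n false e e) (n false e e)) (n false (n false e e) (n false e e))) (n false e e)) e) (n false e e)) e) 16385 .z)) (.s 128 0 (.s 19 7 (.s 47 1 (.s 47 0 .z))))
  (.s (.s (n false (n false (n true (n false (n false (n false (n false e e) (n false e e)) (n false (n false e e) (n false e e))) (n false e e)) e) (n false e e)) e) 16385 (.s (n false (n false (n false (n false (n false e e) (n false e e)) (n false (n false e e) (n false e e))) (n false e e)) (n false (n false e e) (n false e e))) 16387 .z)) (.s 128 0 (.s 47 1 (.s 47 0 (.s 55 0 .z))))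
  (.s (.s (n false (n false (n false (n false (n false e e) (n false e e)) (n false (n false e e) (n false e e))) (n false e e)) (n false (n false e e) (n false e e))) 16387 (.s (n false (n false (n true (n false (n false (n false (n false e e) (n false e e)) (n false (n false e e) (n false e e))) (n false e e)) e) (n false e e)) e) 16385 (.s (n false e e) 16391 .z))) (.s 47 0 .z)
  (.s (.s (n true (n true (n false e e) e) e) 16387 (.s (n false (n false (n true (n false (n false (n false (n false e e) (n false e e)) (n false (n false e e) (n false e e))) (n false e e)) e) (n false e e)) e) 16385 .z)) (.s 19 7 (.s 47 1 (.s 47 0 (.s 128 0 .z))))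
  (.s (.s (n false (n true (n false e e) e) e) 16387 (.s (n false (n false (n true (n false (n false (n false (n false e e) (n false e e)) (n false (n false e e) (n false e e))) (n false e e)) e) (n false e e)) e) 16385 .z)) (.s 128 0 (.s 19 7 (.s 47 1 (.s 47 0 .z))))
  (.s (.s (n false e e) 16393 .z) (.s 19 7 .z)
  (.s (.s (n false (n false (n true (n false (n false (n false (n false e e) (n false e e)) (n false (n false e e) (n false e e))) (n false e e)) e) (n false e e)) e) 16385 .z) (.s 128 0 (.s 19 7 (.s 47 1 (.s 47 0 (.s 55 0 .z)))))
  (.s (.s (n false (n true (n false e e) e) e) 16389 (.s (n false (n false (n true (n false (n false (n false (n false e e) (n false e e)) (n false (n false e e) (n false e e))) (n false e e)) e) (n false e e)) e) 16385 (.s (n true (n false (n false e e) (n false e e)) e) 16388 .z))) (.s 19 7 (.s 47 0 .z))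
  (.s (.s (n false (n false (n true (n false (n false (n false (n false e e) (n false e e)) (n false (n false e e) (n false e e))) (n false e e)) e) (n false e e)) e) 16385 .z) (.s 47 0 (.s 19 7 (.s 47 1 (.s 55 0 (.s 128 0 .z)))))
  .z)))))))))))))))))))))))))))))))))))))))))))))

set_option maxRecDepth 100000 in
def A49 : AE :=
 (.s 4096 4098 (.s 44 2 (.s 45 2 .z))
 (.s 0x1708 4102 (n false (n true (n false e e) e) (n false e e)) (.s 0x70 4100 (n true (n false e e) e) .z .z) .z)
 (.s .z (.s 44 2 (.s 45 2 .z))
  (.s (.s (n false (n false e e) (n false e e)) 16387 .z) (.s 44 2 .z)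
  .z)))

set_option maxRecDepth 100000 in
def A50 : AE :=
 (.s 4096 4097 (.s 16 16 (.s 74 1 .z))
 (.s 0x8 4098 (n false e e) .z .z)
 (.s (.s (n true (n false e e) e) 16387 .z) (.s 16 16 .z)
  (.s (.s (n true (n false (n true (n false e e) e) (n false e e)) e) 16390 .z) (.s 16 16 .z)
  (.s (.s (n false e e) 16383 .z) (.s 16 16 .z)
  .z))))

set_option maxRecDepth 100000 in
def A51 : AE :=
 (.s 4094 4097 (.s 46 2 .z)
 (.s 0xa888 4102 (n false (n false (n false e e) (n false e e)) (n false e e)) (.s 0x1708 4113 (n false (n true (n false e e) e) (n false e e)) (.s 0x70 4105 (n true (n false e e) e) .z .z) .z) (.s 0x57544511088 4099 (n false (n false (n true (n false (n false (n false (n false e e) (n false e e)) (n false (n false e e) (n false e e))) (n false e e)) e) (n false e e)) (n false e e)) .z .z))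
 (.s .z (.s 46 2 .z)
  .z))

end Pool.Agent.Helper91.ND1
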