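import Pool.Agent.Helper66.ND.Defs

/-! part of the certificate for the constant 25/48 (generated) -/

namespace Pool.Agent.Helper91.ND1

open Pool.Agent.Helper66.IL
open Pool.Agent.Helper66.IL.MB
open Pool.Agent.Helper66.ND

set_option maxRecDepth 100000 in
def A52 : AE :=
 (.s 4096 4097 (.s 47 2 (.s 20 16 (.s 51 2 (.s 52 0 (.s 56 2 (.s 28 5 (.s 32 14 (.s 34 14 (.s 37 14 (.s 38 14 (.s 66 2 (.s 43 13 (.s 51 13 (.s 78 2 (.s 61 14 (.s 130 34 .z))))))))))))))))
 (.s 0x70 4105 (n true (n false e e) e) .z .z)
 (.s (.s (n true (n false e e) e) 16387 (.s (n false (n false (n false e e) (n false e e)) (n false e e)) 16390 (.s (n false (n true (n false (n false (n false (n false e e) (n false e e)) (n false (n false e e) (n false e e))) (n false e e)) e) (n true (n false (n false (n false e e) (n false e e)) (n false (n false e e) (n false e e))) e)) 16385 .z))) (.s 28 5 (.s 38 14 .z))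
  (.s (.s (n false (n true (n false e e) e) (n false e e)) 16389 (.s (n false (n false e e) (n false e e)) 16388 (.s (n false e e) 16385 (.s (n false (n true (n false (n false (n false e e) (n false e e)) (n false (n false e e) (n false e e))) e) (n false e e)) 16390 (.s (n false (n false (n false e e) (n false e e)) (n false e e)) 16390 (.s (n false (n true (n false (n false (n false (n false e e) (n false e e)) (n false (n false e e) (n false e e))) e) e) (n false e e)) 16390 (.s (n false (n true (n true (n false (n false (n false (n false e e) (n false e e)) (n false (n false e e) (n false e e))) (n false e e)) e) e) (n false e e)) 16392 .z))))))) .z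
  (.s (.s (n false (n false e e) (n false e e)) 16388 (.s (n true (n false e e) e) 16389 (.s (n false (n false (n false e e) (n false e e)) (n false e e)) 16390 .z))) .z
  (.s (.s (n false (n true (n false e e) e) (n false e e)) 16389 (.s (n false (n true (n false (n false (n false (n false e e) (n false e e)) (n false (n false e e) (n false e e))) (n false e e)) e) (n true (n false e e) e)) 16392 (.s (n false (n false e e) e) 16386 (.s (n false (n false (n false e e) (n false e e)) (n false e e)) 16390 (.s (n true (n true (n false (n false (n false e e) (n false e e)) (n false (n false e e) (n false e e))) e) e) 16383 (.s (n false (n false (n true (n false (n false e e) (n false e e)) e) e) (n false e e)) 16390 (.s (n false (n true (n false (n false (n false (n false e e) (n false e e)) (n false (n false e e) (n false e e))) (n false e e)) e) (n true (n false (n false (n false e e) (n false e e)) (n false (n false e e) (n false e e))) e)) 16385 (.s (n true (n false (n true (n false (n false (n false (n false e e) (n false e e)) (n false (n false e e) (n false e e))) (n false e e)) e) (n false (n false (n false e e) (n false e e)) (n false (n false e e) (n false e e)))) e) 16385 .z)))))))) (.s 66 2 .z)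
  (.s (.s (n false (n false e e) (n false e e)) 16395 (.s (n false (n true (n false e e) e) (n false e e)) 16389 (.s (n false (n true (n true (n false (n false (n false (n false e e) (n false e e)) (n false (n false e e) (n false e e))) (n false e e)) e) e) (n false e e)) 16392 (.s (n false (n false e e) e) 16386 .z)))) (.s 47 2 .z)
  (.s (.s (n false (n true (n false e e) e) (n false e e)) 16399 (.s (n false e e) 16387 (.s (n false (n false (n false e e) (n false e e)) (n false e e)) 16390 (.s (n false (n true (n false (n false (n false (n false e e) (n false e e)) (n false (n false e e) (n false e e))) (n false e e)) e) (n true (n false e e) e)) 16397 .z)))) .z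
  (.s (.s (n true (n false e e) e) 16389 (.s (n false (n false e e) (n false e e)) 16388 .z)) (.s 47 2 .z)
  (.s (.s (n false (n true (n false e e) e) (n false e e)) 16389 (.s (n false e e) 16387 (.s (n false (n false (n false e e) (n false e e)) (n false e e)) 16390 (.s (n false (n true (n false (n false (n false e e) (n false e e)) (n false (n false e e) (n false e e))) e) (n false e e)) 16388 (.s (n false (n false (n true (n false (n false e e) (n false e e)) e) e) (n false e e)) 16390 (.s (n false (n true (n false (n false (n false (n false e e) (n false e e)) (n false (n false e e) (n false e e))) e) e) (n false e e)) 16390 (.s (n false (n false (n true (n false (n false (n false (n false e e) (n false e e)) (n false (n false e e) (n false e e))) (n false e e)) e) (n false (n false (n false e e) (n false e e)) (n false (n false e e) (n false e e)))) (n false e e)) 16387 .z))))))) (.s 38 14 (.s 66 2 .z))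
  (.s (.s (n false (n true (n false e e) e) (n false e e)) 16389 (.s (n false (n false e e) (n false e e)) 16394 (.s (n false (n true (n true (n false (n false (n false (n false e e) (n false e e)) (n false (n false e e) (n false e e))) (n false e e)) e) e) (n false e e)) 16392 (.s (n false (n false e e) e) 16386 (.s (n false (n true (n false (n false (n false e e) (n false e e)) (n false (n false e e) (n false e e))) e) (n false e e)) 16390 .z))))) (.s 47 2 .z)
  (.s (.s (n false (n true (n false e e) e) (n false e e)) 16389 (.s (n false (n false (n true (n false (n false (n false (n false e e) (n false e e)) (n false (n false e e) (n false e e))) (n false e e)) e) (n false (n false (n false e e) (n false e e)) (n false (n false e e) (n false e e)))) (n false e e)) 16387 (.s (n false (n false e e) e) 16386 (.s (n false (n false (n false e e) (n false e e)) (n false e e)) 16390 (.s (n false (n true (n false (n false (n false (n false e e) (n false e e)) (n false (n false e e) (n false e e))) e) e) (n false e e)) 16390 (.s (n false (n false (n true (n false (n false e e) (n false e e)) e) e) (n false e e)) 16390 (.s (n true (n true (n false (n false (n false e e) (n false e e)) (n false (n false e e) (n false e e))) e) e) 16383 (.s (n false (n true (n false (n false (n false (n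 false e e) (n false e e)) (n false (n false e e) (n false e e))) (n false e e)) e) (n true (n false (n false (n false e e) (n false e e)) (n false (n false e e) (n false e e))) e)) 16385 .z)))))))) (.s 38 14 (.s 66 2 .z))
  (.s (.s (n false (n true (n false e e) e) (n false e e)) 16389 (.s (n false (n false e e) (n false e e)) 16394 (.s (n false (n true (n true (n false (n false (n false (n false e e) (n false e e)) (n false (n false e e) (n false e e))) (n false e e)) e) e) (n false e e)) 16392 (.s (n false (n false e e) e) 16386 (.s (n true (n true (n false (n false (n false e e) (n false e e)) (n false (n false e e) (n false e e))) e) e) 16383 .z))))) (.s 47 2 .z)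
  (.s (.s (n false (n true (n false e e) e) (n false e e)) 16389 (.s (n false (n false (n true (n false (n false (n false (n false e e) (n false e e)) (n false (n false e e) (n false e e))) (n false e e)) e) (n false (n false (n false e e) (n false e e)) (n false (n false e e) (n false e e)))) (n false e e)) 16387 (.s (n false (n false e e) e) 16386 (.s (n false (n false (n false e e) (n false e e)) (n false e e)) 16390 (.s (n false (n false (n true (n false (n false e e) (n false e e)) e) e) (n false e e)) 16390 (.s (n false (n true (n false (n false (n false (n false e e) (n false e e)) (n false (n false e e) (n false e e))) e) e) (n false e e)) 16390 (.s (n false (n true (n false (n false (n false (n false e e) (n false e e)) (n false (n false e e) (n false e e))) (n false e e)) e) (n true (n false (n false (n false e e) (n false e e)) (n false (n false e e) (n false e e))) e)) 16385 (.s (n true (n true (n false (n false (n false e e) (n false e e)) (n false (n false e e) (n false e e))) e) e) 16383 .z)))))))) (.s 38 14 (.s 66 2 .z))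
  (.s (.s (n false (n true (n false e e) e) (n false e e)) 16389 (.s (n false (n false e e) e) 16386 (.s (n false (n false e e) (n false e e)) 16388 (.s (n false (n true (n false (n false (n false e e) (n false e e)) (n false (n false e e) (n false e e))) e) (n false e e)) 16390 (.s (n false (n true (n true (n false (n false (n false (n false e e) (n false e e)) (n false (n false e e) (n false e e))) (n false e e)) e) e) (n false e e)) 16392 (.s (n false (n true (n false (n false (n false (n false e e) (n false e e)) (n false (n false e e) (n false e e))) e) e) (n false e e)) 16390 .z)))))) (.s 47 2 .z)
  (.s (.s (n false (n true (n false e e) e) (n false e e)) 16389 (.s (n false (n true (n false (n false (n false (n false e e) (n false e e)) (n false (n false e e) (n false e e))) (n false e e)) e) (n true (n false e e) e)) 16392 (.s (n false (n false e e) e) 16386 (.s (n false (n false (n false e e) (n false e e)) (n false e e)) 16390 (.s (n false (n false (n true (n false (n false e e) (n false e e)) e) e) (n false e e)) 16390 (.s (n true (n true (n false (n false (n false e e) (n false e e)) (n false (n false e e) (n false e e))) e) e) 16383 (.s (n false (n true (n false (n false (n false (n false e e) (n false e e)) (n false (n false e e) (n false e e))) (n false e e)) e) (n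 true (n false (n false (n false e e) (n false e e)) (n false (n false e e) (n false e e))) e)) 16385 (.s (n true (n false (n true (n false (n false (n false (n false e e) (n false e e)) (n false (n false e e) (n false e e))) (n false e e)) e) (n false (n false (n false e e) (n false e e)) (n false (n false e e) (n false e e)))) e) 16385 .z)))))))) (.s 66 2 .z)
  (.s (.s (n false (n true (n false e e) e) (n false e e)) 16389 (.s (n false (n false e e) (n false e e)) 16388 (.s (n false (n true (n true (n false (n false (n false (n false e e) (n false e e)) (n false (n false e e) (n false e e))) (n false e e)) e) e) (n false e e)) 16392 (.s (n false (n false e e) e) 16386 (.s (n false (n true (n false (n false (n false e e) (n false e e)) (n false (n false e e) (n false e e))) e) (n false e e)) 16390 (.s (n false (n true (n false (n false (n false (n false e e) (n false e e)) (n false (n false e e) (n false e e))) e) e) (n false e e)) 16390 .z)))))) (.s 47 2 .z)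
  (.s (.s (n false (n true (n false e e) e) (n false e e)) 16389 (.s (n false (n false e e) e) 16386 (.s (n false (n false (n false e e) (n false e e)) (n false e e)) 16390 (.s (n false (n true (n false (n false (n false (n false e e) (n false e e)) (n false (n false e e) (n false e e))) e) e) (n false e e)) 16390 (.s (n false (n false (n true (n false (n false (n false (n false e e) (n false e e)) (n false (n false e e) (n false e e))) (n false e e)) e) (n false (n false (n false e e) (n false e e)) (n false (n false e e) (n false e e)))) (n false e e)) 16387 (.s (n false (n false (n true (n false (n false e e) (n false e e)) e) e) (n false e e)) 16390 (.s (n true (n true (n false (n false (n false e e) (n false e e)) (n false (n false e e) (n false e e))) e) e) 16383 (.s (n false (n true (n false (n false (n false (n false e e) (n false e e)) (n false (n false e e) (n false e e))) (n false e e)) e) (n true (n false (n false (n false e e) (n false e e)) (n false (n false e e) (n false e e))) e)) 16385 .z)))))))) (.s 38 14 (.s 66 2 .z))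
  (.s (.s (n false (n true (n false e e) e) (n false e e)) 16395 (.s (n false (n false e e) e) 16386 (.s (n false (n false (n false e e) (n false e e)) (n false e e)) 16390 (.s (n false (n true (n false (n false (n false e e) (n false e e)) (n false (n false e e) (n false e e))) e) (n false e e)) 16390 (.s (n false (n false (n true (n false (n false e e) (n false e e)) e) e) (n false e e)) 16390 .z))))) .z
  (.s (.s (n false (n true (n false e e) e) (n false e e)) 16389 (.s (n false (n false e e) (n false e e)) 16393 (.s (n false e e) 16385 (.s (n false (n true (n false (n false (n false (n false e e) (n false e e)) (n false (n false e e) (n false e e))) e) e) (n false e e)) 16390 (.s (n false (n true (n true (n false (n false (n false (n false e e) (n false e e)) (n false (n false e e) (n false e e))) (n false e e)) e) e) (n false e e)) 16392 (.s (n true (n true (n false (n false (n false e e) (n false e e)) (n false (n false e e) (n false e e))) e) e) 16383 .z)))))) (.s 47 2 .z)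
  (.s (.s (n false (n true (n false e e) e) (n false e e)) 16389 (.s (n false (n false (n true (n false (n false (n false (n false e e) (n false e e)) (n false (n false e e) (n false e e))) (n false e e)) e) (n false (n false (n false e e) (n false e e)) (n false (n false e e) (n false e e)))) (n false e e)) 16387 (.s (n false (n false e e) e) 16386 (.s (n false (n false (n false e e) (n false e e)) (n false e e)) 16390 (.s (n false (n false (n true (n false (n false e e) (n false e e)) e) e) (n false e e)) 16390 (.s (n false (n true (n false (n false (n false (n false e e) (n false e e)) (n false (n false e e) (n false e e))) e) e) (n false e e)) 16390 (.s (n false (n true (n false (n false (n false (n false e e) (n false e e)) (n false (n false e e) (n false e e))) (n false e e)) e) (n true (n false (n false (n false e e) (n false e e)) (n false (n false e e) (n false e e))) e)) 16385 .z))))))) (.s 28 5 (.s 38 14 (.s 66 2 .z)))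
  (.s (.s (n false (n true (n false e e) e) (n false e e)) 16389 (.s (n false (n false e e) (n false e e)) 16388 (.s (n false (n false e e) e) 16386 (.s (n false (n true (n true (n false (n false (n false e e) (n false e e)) (n false (n false e e) (n false e e))) e) e) (n false e e)) 16390 (.s (n false (n true (n false (n false (n false e e) (n false e e)) (n false (n false e e) (n false e e))) e) (n false e e)) 16390 (.s (n false (n false (n true (n false (n false (n false (n false e e) (n false e e)) (n false (n false e e) (n false e e))) (n false e e)) e) (n false (n false (n false e e) (n false e e)) (n false (n false e e) (n false e e)))) (n false e e)) 16387 .z)))))) (.s 47 2 .z)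
  (.s (.s (n false (n true (n false e e) e) (n false e e)) 16389 (.s (n false (n false (n true (n false (n false (n false (n false e e) (n false e e)) (n false (n false e e) (n false e e))) (n false e e)) e) (n false (n false (n false e e) (n false e e)) (n false (n false e e) (n false e e)))) (n false e e)) 16387 (.s (n false (n false e e) e) 16386 (.s (n false (n false (n false e e) (n false e e)) (n false e e)) 16390 (.s (n false (n true (n false (n false (n false (n false e e) (n false e e)) (n false (n false e e) (n false e e))) e) e) (n false e e)) 16390 (.s (n false (n false (n true (n false (n false e e) (n false e e)) e) e) (n false e e)) 16390 (.s (n false (n true (n false (n false (n false (n false e e) (n false e e)) (n false (n false e e) (n false e e))) (n false e e)) e) (n true (n false (n false (n false e e) (n false e e)) (n false (n false e e) (n false e e))) e)) 16385 .z))))))) (.s 28 5 (.s 38 14 (.s 66 2 .z)))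
  (.s (.s (n false (n true (n false e e) e) (n false e e)) 16389 (.s (n false e e) 16385 (.s (n false (n false (n false e e) (n false e e)) (n false e e)) 16390 (.s (n false (n true (n true (n false (n false (n false e e) (n false e e)) (n false (n false e e) (n false e e))) e) e) (n false e e)) 16390 (.s (n false (n true (n false (n false (n false e e) (n false e e)) (n false (n false e e) (n false e e))) e) (n false e e)) 16390 (.s (n false (n false (n true (n false (n false e e) (n false e e)) e) e) (n false e e)) 16390 (.s (n false (n false (n true (n false (n false (n false (n false e e) (n false e e)) (n false (n false e e) (n false e e))) (n false e e)) e) (n false (n false (n false e e) (n false e e)) (n false (n false e e) (n false e e)))) (n false e e)) 16387 .z))))))) (.s 38 14 (.s 66 2 .z))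
  (.s (.s (n false (n true (n false e e) e) (n false e e)) 16389 (.s (n false (n false e e) e) 16386 (.s (n false (n false (n false e e) (n false e e)) (n false e e)) 16390 (.s (n false (n true (n true (n false (n false (n false e e) (n false e e)) (n false (n false e e) (n false e e))) e) e) (n false e e)) 16390 (.s (n false (n true (n false (n false (n false e e) (n false e e)) (n false (n false e e) (n false e e))) e) (n false e e)) 16390 (.s (n false (n false (n true (n false (n false (n false (n false e e) (n false e e)) (n false (n false e e) (n false e e))) (n false e e)) e) (n false (n false (n false e e) (n false e e)) (n false (n false e e) (n false e e)))) (n false e e)) 16387 (.s (n false (n false (n true (n false (n false e e) (n false e e)) e) e) (n false e e)) 16390 .z))))))) (.s 38 14 (.s 66 2 .z))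
  (.s (.s (n false (n true (n false e e) e) (n false e e)) 16389 (.s (n false (n true (n false (n false (n false e e) (n false e e)) (n false (n false e e) (n false e e))) e) (n false e e)) 16390 (.s (n false (n false e e) e) 16386 (.s (n false (n false (n false e e) (n false e e)) (n false e e)) 16390 (.s (n false (n true (n false (n false (n false (n false e e) (n false e e)) (n false (n false e e) (n false e e))) e) e) (n false e e)) 16390 (.s (n false (n false (n true (n false (n false (n false (n false e e) (n false e e)) (n false (n false e e) (n false e e))) (n false e e)) e) (n false (n false (n false e e) (n false e e)) (n false (n false e e) (n false e e)))) (n false e e)) 16387 (.s (n false (n false (n true (n false (n false e e) (n false e e)) e) e) (n false e e)) 16390 .z))))))) (.s 38 14 (.s 66 2 .z))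
  (.s (.s (n true (n false e e) e) 16387 (.s (n false (n false e e) (n false e e)) 16388 (.s (n false (n true (n false (n false (n false e e) (n false e e)) (n false (n false e e) (n false e e))) e) (n false e e)) 16390 .z))) (.s 47 2 .z)
  (.s (.s (n true (n false e e) e) 16387 (.s (n true (n true (n false (n false (n false (n false e e) (n false e e)) (n false (n false e e) (n false e e))) (n false e e)) e) e) 16390 (.s (n false e e) 16387 .z))) (.s 47 2 .z)
  (.s (.s (n true (n false e e) e) 16389 (.s (n false (n false e e) (n false e e)) 16388 (.s (n false (n false (n false e e) (n false e e)) (n false e e)) 16390 .z))) .z
  (.s (.s (n false (n true (n false e e) e) (n false e e)) 16389 (.s (n false (n false e e) e) 16386 (.s (n false (n false (n false e e) (n false e e)) (n false e e)) 16390 (.s (n false (n true (n false (n false (n false e e) (n false e e)) (n false (n false e e) (n false e e))) e) (n false e e)) 16388 (.s (n false (n true (n true (n false (n false (n false e e) (n false e e)) (n false (n false e e) (n false e e))) e) e) (n false e e)) 16390 (.s (n false (n false (n true (n false (n false (n false (n false e e) (n false e e)) (n false (n false e e) (n false e e))) (n false e e)) e) (n false (n false (n false e e) (n false e e)) (n false (n false e e) (n false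 e e)))) (n false e e)) 16387 (.s (n false (n false (n true (n false (n false e e) (n false e e)) e) e) (n false e e)) 16390 .z))))))) (.s 28 5 (.s 38 14 (.s 66 2 .z)))
  (.s (.s (n false (n true (n false e e) e) (n false e e)) 16389 (.s (n false e e) 16387 (.s (n false (n false (n false e e) (n false e e)) (n false e e)) 16390 (.s (n false (n true (n false (n false (n false (n false e e) (n false e e)) (n false (n false e e) (n false e e))) (n false e e)) e) (n false e e)) 16385 (.s (n false (n false e e) (n false e e)) 16386 (.s (n false (n true (n false (n false (n false e e) (n false e e)) (n false (n false e e) (n false e e))) e) (n false e e)) 16388 (.s (n false (n true (n false (n false (n false (n false e e) (n false e e)) (n false (n false e e) (n false e e))) e) e) (n false e e)) 16390 (.s (n false (n false (n true (n false (n false (n false (n false e e) (n false e e)) (n false (n false e e) (n false e e))) (n false e e)) e) (n false (n false (n false e e) (n false e e)) (n false (n false e e) (n false e e)))) (n false e e)) 16387 .z)))))))) .z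
  (.s (.s (n true (n false e e) e) 16388 (.s (n false (n false e e) (n false e e)) 16388 (.s (n false (n true (n false (n false (n false e e) (n false e e)) (n false (n false e e) (n false e e))) e) (n false e e)) 16388 .z))) (.s 47 2 .z)
  (.s (.s (n false (n true (n false e e) e) (n false e e)) 16389 (.s (n false (n false e e) e) 16386 (.s (n false (n false (n false e e) (n false e e)) (n false e e)) 16390 (.s (n false (n true (n false (n false (n false e e) (n false e e)) (n false (n false e e) (n false e e))) e) (n false e e)) 16390 (.s (n false (n false (n true (n false (n false (n false (n false e e) (n false e e)) (n false (n false e e) (n false e e))) (n false e e)) e) (n false (n false (n false e e) (n false e e)) (n false (n false e e) (n false e e)))) (n false e e)) 16387 (.s (n false (n false (n true (n false (n false e e) (n false e e)) e) e) (n false e e)) 16390 (.s (n false (n true (n false (n false (n false (n false e e) (n false e e)) (n false (n false e e) (n false e e))) e) e) (n false e e)) 16390 .z))))))) (.s 38 14 (.s 66 2 .z))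
  (.s (.s (n false (n true (n false e e) e) (n false e e)) 16389 (.s (n false (n false e e) e) 16386 (.s (n false (n false (n false e e) (n false e e)) (n false e e)) 16390 (.s (n false (n true (n true (n false (n false (n false e e) (n false e e)) (n false (n false e e) (n false e e))) e) e) (n false e e)) 16390 (.s (n false (n false (n true (n false (n false (n false (n false e e) (n false e e)) (n false (n false e e) (n false e e))) (n false e e)) e) (n false (n false (n false e e) (n false e e)) (n false (n false e e) (n false e e)))) (n false e e)) 16387 (.s (n false (n false (n true (n false (n false e e) (n false e e)) e) e) (n false e e)) 16390 (.s (n false (n true (n false (n false (n false e e) (n false e e)) (n false (n false e e) (n false e e))) e) (n false e e)) 16388 .z))))))) (.s 28 5 (.s 38 14 (.s 66 2 .z)))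
  (.s (.s (n false (n true (n false e e) e) (n false e e)) 16389 (.s (n false (n false e e) e) 16386 (.s (n false (n false (n false e e) (n false e e)) (n false e e)) 16390 (.s (n false (n true (n false (n false (n false e e) (n false e e)) (n false (n false e e) (n false e e))) e) (n false e e)) 16388 (.s (n false (n true (n false (n false (n false (n false e e) (n false e e)) (n false (n false e e) (n false e e))) e) e) (n false e e)) 16390 (.s (n false (n false (n true (n false (n false (n false (n false e e) (n false e e)) (n false (n false e e) (n false e e))) (n false e e)) e) (n false (n false (n false e e) (n false e e)) (n false (n false e e) (n false e e)))) (n false e e)) 16387 (.s (n false (n false (n true (n false (n false e e) (n false e e)) e) e) (n false e e)) 16390 .z))))))) (.s 28 5 (.s 38 14 (.s 66 2 .z)))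
  (.s (.s (n false (n true (n false e e) e) (n false e e)) 16389 (.s (n false e e) 16387 (.s (n false (n false (n false e e) (n false e e)) (n false e e)) 16390 (.s (n false (n true (n false (n false (n false e e) (n false e e)) (n false (n false e e) (n false e e))) e) (n false e e)) 16388 (.s (n false (n true (n true (n false (n false (n false e e) (n false e e)) (n false (n false e e) (n false e e))) e) e) (n false e e)) 16390 (.s (n false (n false (n true (n false (n false e e) (n false e e)) e) e) (n false e e)) 16390 (.s (n false (n false (n true (n false (n false (n false (n false e e) (n false e e)) (n false (n false e e) (n false e e))) (n false e e)) e) (n false (n false (n false e e) (n false e e)) (n false (n false e e) (n false e e)))) (n false e e)) 16387 .z))))))) (.s 38 14 (.s 66 2 .z))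
  (.s (.s (n true (n false e e) e) 16387 (.s (n true (n true (n false (n false (n false (n false e e) (n false e e)) (n false (n false e e) (n false e e))) (n false e e)) e) e) 16390 (.s (n true (n true (n false (n false (n false e e) (n false e e)) (n false (n false e e) (n false e e))) e) e) 16383 .z))) (.s 47 2 .z)
  (.s (.s (n false (n true (n false e e) e) (n false e e)) 16389 (.s (n false (n false e e) e) 16386 (.s (n false (n false (n false e e) (n false e e)) (n false e e)) 16390 (.s (n false (n true (n false (n false (n false (n false e e) (n false e e)) (n false (n false e e) (n false e e))) e) e) (n false e e)) 16390 (.s (n false (n false (n true (n false (n false (n false (n false e e) (n false e e)) (n false (n false e e) (n false e e))) (n false e e)) e) (n false (n false (n false e e) (n false e e)) (n false (n false e e) (n false e e)))) (n false e e)) 16387 (.s (n false (n false (n true (n false (n false e e) (n false e e)) e) e) (n false e e)) 16390 (.s (n false (n true (n false (n false (n false (n false e e) (n false e e)) (n false (n false e e) (n false e e))) (n false e e)) e) (n true (n false (n false (n false e e) (n false e e)) (n false (n false e e) (n false e e))) e)) 16385 .z))))))) (.s 28 5 (.s 38 14 (.s 66 2 .z)))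
  (.s (.s (n true (n false e e) e) 16388 (.s (n true (n true (n false (n false (n false (n false e e) (n false e e)) (n false (n false e e) (n false e e))) (n false e e)) e) e) 16390 .z)) (.s 47 2 .z)
  (.s (.s (n false (n true (n false e e) e) (n false e e)) 16389 (.s (n false (n false e e) e) 16386 (.s (n false (n true (n false (n false (n false e e) (n false e e)) (n false (n false e e) (n false e e))) e) (n false e e)) 16388 (.s (n false (n true (n false (n false (n false (n false e e) (n false e e)) (n false (n false e e) (n false e e))) e) e) (n false e e)) 16390 (.s (n false (n false (n true (n false (n false (n false (n false e e) (n false e e)) (n false (n false e e) (n false e e))) (n false e e)) e) (n false (n false (n false e e) (n false e e)) (n false (n false e e) (n false e e)))) (n false e e)) 16387 (.s (n false (n false (n true (n false (n false e e) (n false e e)) e) e) (n false e e)) 16390 .z)))))) (.s 47 2 (.s 28 5 (.s 38 14 (.s 66 2 .z))))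
  (.s (.s (n false (n true (n false e e) e) (n false e e)) 16389 (.s (n false (n false (n true (n false (n false (n false (n false e e) (n false e e)) (n false (n false e e) (n false e e))) (n false e e)) e) (n false (n false (n false e e) (n false e e)) (n false (n false e e) (n false e e)))) (n false e e)) 16387 (.s (n false (n false e e) e) 16386 (.s (n false (n false (n false e e) (n false e e)) (n false e e)) 16390 (.s (n false (n true (n false (n false (n false e e) (n false e e)) (n false (n false e e) (n false e e))) e) (n false e e)) 16388 (.s (n false (n true (n true (n false (n false (n false e e) (n false e e)) (n false (n false e e) (n false e e))) e) e) (n false e e)) 16390 (.s (n false (n false (n true (n false (n false e e) (n false e e)) e) e) (n false e e)) 16390 .z))))))) (.s 28 5 (.s 38 14 (.s 66 2 .z)))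
  (.s (.s (n false (n true (n false e e) e) (n false e e)) 16395 (.s (n false (n false e e) e) 16386 (.s (n false (n true (n false (n false (n false e e) (n false e e)) (n false (n false e e) (n false e e))) e) (n false e e)) 16390 (.s (n false (n false (n true (n false (n false e e) (n false e e)) e) e) (n false e e)) 16390 .z)))) (.s 47 2 .z)
  (.s (.s (n true (n false e e) e) 16387 (.s (n false (n false e e) (n false e e)) 16388 (.s (n true (n true (n false (n false (n false e e) (n false e e)) (n false (n false e e) (n false e e))) e) e) 16383 (.s (n false (n true (n false (n false (n false e e) (n false e e)) (n false (n false e e) (n false e e))) e) (n false e e)) 16388 .z)))) (.s 47 2 .z)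
  (.s (.s (n true (n false e e) e) 16389 (.s (n true (n true (n false (n false (n false (n false e e) (n false e e)) (n false (n false e e) (n false e e))) (n false e e)) e) e) 16390 .z)) (.s 47 2 .z)
  (.s (.s (n true (n false e e) e) 16388 (.s (n false (n false e e) (n false e e)) 16388 (.s (n true (n true (n false (n false (n false (n false e e) (n false e e)) (n false (n false e e) (n false e e))) (n false e e)) e) e) 16386 .z))) (.s 47 2 .z)
  (.s (.s (n true (n false e e) e) 16387 (.s (n false (n false e e) (n false e e)) 16388 (.s (n true (n true (n false (n false (n false e e) (n false e e)) (n false (n false e e) (n false e e))) e) e) 16383 (.s (n true (n true (n false (n false (n false (n false e e) (n false e e)) (n false (n false e e) (n false e e))) (n false e e)) e) e) 16386 .z)))) (.s 47 2 .z)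
  (.s (.s (n false (n true (n false (n false (n false (n false e e) (n false e e)) (n false (n false e e) (n false e e))) (n false e e)) e) (n true (n false e e) e)) 16397 (.s (n false (n true (n false e e) e) (n false e e)) 16389 (.s (n false (n false e e) e) 16386 (.s (n false (n true (n false (n false (n false e e) (n false e e)) (n false (n false e e) (n false e e))) e) (n false e e)) 16390 (.s (n false (n true (n false (n false (n false (n false e e) (n false e e)) (n false (n false e e) (n false e e))) (n false e e)) e) (n false e e)) 16385 (.s (n false (n false (n true (n false (n false e e) (n false e e)) e) e) (n false e e)) 16390 (.s (n false (n false (n true (n false (n false (n false (n false e e) (n false e e)) (n false (n false e e) (n false e e))) (n false e e)) e) (n false (n false (n false e e) (n false e e)) (n false (n false e e) (n false e e)))) (n false e e)) 16386 .z))))))) (.s 47 2 .z)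
  (.s (.s (n true (n false e e) e) 16387 (.s (n false (n false (n false e e) (n false e e)) (n false e e)) 16390 (.s (n false (n true (n false (n false (n false e e) (n false e e)) (n false (n false e e) (n false e e))) e) (n false e e)) 16390 (.s (n false (n false e e) (n false e e)) 16388 .z)))) .z
  (.s (.s (n true (n false e e) e) 16389 (.s (n false (n true (n false (n false (n false (n false e e) (n false e e)) (n false (n false e e) (n false e e))) (n false e e)) e) (n false e e)) 16385 .z)) (.s 47 2 .z)
  (.s (.s (n true (n false e e) e) 16387 (.s (n false (n false e e) (n false e e)) 16388 (.s (n true (n true (n false (n false (n false e e) (n false e e)) (n false (n false e e) (n false e e))) e) e) 16383 (.s (n true (n true (n false (n false (n false (n false e e) (n false e e)) (n false (n false e e) (n false e e))) (n false e e)) e) e) 16386 (.s (n false (n false (n false e e) (n false e e)) (n false e e)) 16390 .z))))) .z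
  (.s (.s (n false (n true (n false e e) e) (n false e e)) 16389 (.s (n false e e) 16387 (.s (n true (n true (n false (n false (n false (n false e e) (n false e e)) (n false (n false e e) (n false e e))) (n false e e)) e) e) 16390 (.s (n false (n false e e) (n false e e)) 16388 .z)))) (.s 47 2 .z)
  (.s (.s (n false (n true (n false e e) e) (n false e e)) 16389 (.s (n false (n false e e) (n false e e)) 16394 (.s (n false e e) 16385 (.s (n true (n true (n false (n false (n false e e) (n false e e)) (n false (n false e e) (n false e e))) e) e) 16383 (.s (n true (n true (n false (n false (n false (n false e e) (n false e e)) (n false (n false e e) (n false e e))) (n false e e)) e) e) 16384 .z))))) (.s 47 2 .z)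
  (.s (.s (n false (n true (n false e e) e) (n false e e)) 16389 (.s (n false e e) 16387 (.s (n false (n true (n false (n false (n false (n false e e) (n false e e)) (n false (n false e e) (n false e e))) (n false e e)) e) (n true (n false e e) e)) 16392 (.s (n false (n false e e) (n false e e)) 16388 (.s (n false (n true (n false (n false (n false e e) (n false e e)) (n false (n false e e) (n false e e))) e) (n false e e)) 16388 .z))))) (.s 47 2 .z)
  (.s (.s (n false (n true (n false e e) e) (n false e e)) 16389 (.s (n false e e) 16385 (.s (n false (n false e e) (n false e e)) 16394 (.s (n true (n true (n false (n false (n false e e) (n false e e)) (n false (n false e e) (n false e e))) e) e) 16383 (.s (n true (n true (n false (n false (n false (n false e e) (n false e e)) (n false (n false e e) (n false e e))) (n false e e)) e) e) 16384 .z))))) (.s 47 2 .z)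
  (.s (.s (n false (n true (n false e e) e) (n false e e)) 16389 (.s (n false (n false e e) e) 16386 (.s (n false (n true (n false (n false (n false e e) (n false e e)) (n false (n false e e) (n false e e))) e) (n false e e)) 16388 (.s (n false (n true (n true (n false (n false (n false e e) (n false e e)) (n false (n false e e) (n false e e))) e) e) (n false e e)) 16390 (.s (n false (n false (n true (n false (n false (n false (n false e e) (n false e e)) (n false (n false e e) (n false e e))) (n false e e)) e) (n false (n false (n false e e) (n false e e)) (n false (n false e e) (n false e e)))) (n false e e)) 16387 (.s (n false (n false (n true (n false (n false e e) (n false e e)) e) e) (n false e e)) 16390 .z)))))) (.s 47 2 (.s 28 5 (.s 38 14 (.s 66 2 .z))))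
  (.s (.s (n true (n false e e) e) 16387 (.s (n true (n true (n false (n false (n false (n false e e) (n false e e)) (n false (n false e e) (n false e e))) (n false e e)) e) e) 16386 (.s (n true (n true (n false (n false (n false e e) (n false e e)) (n false (n false e e) (n false e e))) e) e) 16383 .z))) (.s 47 2 (.s 38 14 .z))
  (.s (.s (n false (n true (n false e e) e) (n false e e)) 16389 (.s (n false (n true (n false (n false (n false e e) (n false e e)) (n false (n false e e) (n false e e))) e) (n false e e)) 16390 (.s (n false (n false e e) e) 16386 (.s (n false (n false (n false e e) (n false e e)) (n false e e)) 16390 (.s (n false (n true (n true (n false (n false (n false e e) (n false e e)) (n false (n false e e) (n false e e))) e) e) (n false e e)) 16390 (.s (n false (n false (n true (n false (n false (n false (n false e e) (n false e e)) (n false (n false e e) (n false e e))) (n false e e)) e) (n false (n false (n false e e) (n false e e)) (n false (n false e e) (n false e e)))) (n false e e)) 16387 (.s (n false (n false (n true (n false (n false e e) (n false e e)) e) e) (n false e e)) 16390 .z))))))) (.s 38 14 (.s 66 2 .z))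
  (.s (.s (n false (n true (n false e e) e) (n false e e)) 16389 (.s (n false (n false (n true (n false (n false (n false (n false e e) (n false e e)) (n false (n false e e) (n false e e))) (n false e e)) e) (n false (n false (n false e e) (n false e e)) (n false (n false e e) (n false e e)))) (n false e e)) 16387 (.s (n false (n false e e) e) 16386 (.s (n false (n false (n false e e) (n false e e)) (n false e e)) 16390 (.s (n false (n true (n false (n false (n false (n false e e) (n false e e)) (n false (n false e e) (n false e e))) e) e) (n false e e)) 16390 (.s (n false (n true (n false (n false (n false (n false e e) (n false e e)) (n false (n false e e) (n false e e))) (n false e e)) e) (n true (n false (n false (n false e e) (n false e e)) (n false (n false e e) (n false e e))) e)) 16385 (.s (n false (n false (n true (n false (n false e e) (n false e e)) e) e) (n false e e)) 16390 .z))))))) (.s 28 5 (.s 38 14 (.s 66 2 .z)))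
  (.s (.s (n false (n true (n false e e) e) (n false e e)) 16389 (.s (n false (n false e e) e) 16386 (.s (n false (n true (n false (n false (n false e e) (n false e e)) (n false (n false e e) (n false e e))) e) (n false e e)) 16390 (.s (n false (n true (n false (n false (n false (n false e e) (n false e e)) (n false (n false e e) (n false e e))) (n false e e)) e) (n false e e)) 16385 (.s (n false (n false (n true (n false (n false (n false (n false e e) (n false e e)) (n false (n false e e) (n false e e))) (n false e e)) e) (n false (n false (n false e e) (n false e e)) (n false (n false e e) (n false e e)))) (n false e e)) 16387 (.s (n false (n false e e) (n false e e)) 16386 (.s (n false (n true (n false (n false (n false (n false e e) (n false e e)) (n false (n false e e) (n false e e))) e) e) (n false e e)) 16390 .z))))))) (.s 47 2 .z)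
  (.s (.s (n false (n true (n false e e) e) (n false e e)) 16389 (.s (n false (n false e e) (n false e e)) 16388 (.s (n false (n true (n true (n false (n false (n false (n false e e) (n false e e)) (n false (n false e e) (n false e e))) (n false e e)) e) e) (n false e e)) 16392 (.s (n false (n false e e) e) 16386 (.s (n false (n false (n false e e) (n false e e)) (n false e e)) 16390 (.s (n false (n true (n false (n false (n false e e) (n false e e)) (n false (n false e e) (n false e e))) e) (n false e e)) 16390 (.s (n false (n true (n false (n false (n false (n false e e) (n false e e)) (n false (n false e e) (n false e e))) e) e) (n false e e)) 16390 .z))))))) .z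
  (.s (.s (n false (n true (n false e e) e) (n false e e)) 16389 (.s (n false (n false e e) (n false e e)) 16388 (.s (n false (n false e e) e) 16386 (.s (n false (n true (n false (n false (n false e e) (n false e e)) (n false (n false e e) (n false e e))) e) (n false e e)) 16390 (.s (n false (n false (n true (n false (n false (n false (n false e e) (n false e e)) (n false (n false e e) (n false e e))) (n false e e)) e) (n false (n false (n false e e) (n false e e)) (n false (n false e e) (n false e e)))) (n false e e)) 16387 (.s (n false (n true (n false (n false (n false (n false e e) (n false e e)) (n false (n false e e) (n false e e))) e) e) (n false e e)) 16390 .z)))))) (.s 47 2 .z)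
  (.s (.s (n true (n false e e) e) 16387 (.s (n false (n true (n false (n false (n false e e) (n false e e)) (n false (n false e e) (n false e e))) e) (n false e e)) 16390 .z)) (.s 47 2 (.s 38 14 .z))
  (.s (.s (n false (n true (n false e e) e) (n false e e)) 16389 (.s (n false (n false e e) (n false e e)) 16388 (.s (n false (n false e e) e) 16386 (.s (n false (n true (n false (n false (n false e e) (n false e e)) (n false (n false e e) (n false e e))) e) (n false e e)) 16390 (.s (n false (n false (n true (n false (n false (n false (n false e e) (n false e e)) (n false (n false e e) (n false e e))) (n false e e)) e) (n false (n false (n false e e) (n false e e)) (n false (n false e e) (n false e e)))) (n false e e)) 16387 (.s (n false (n false (n false e e) (n false e e)) (n false e e)) 16390 (.s (n false (n true (n false (n false (n false (n false e e) (n false e e)) (n false (n false e e) (n false e e))) e) e) (n false e e)) 16390 .z))))))) .z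
  (.s (.s (n false (n true (n false e e) e) (n false e e)) 16389 (.s (n false (n false e e) e) 16386 (.s (n false (n true (n false (n false (n false (n false e e) (n false e e)) (n false (n false e e) (n false e e))) e) e) (n false e e)) 16390 (.s (n false (n true (n false (n false (n false e e) (n false e e)) (n false (n false e e) (n false e e))) e) (n false e e)) 16390 (.s (n false (n true (n false (n false (n false (n false e e) (n false e e)) (n false (n false e e) (n false e e))) (n false e e)) e) (n false e e)) 16385 (.s (n false (n false (n true (n false (n false (n false (n false e e) (n false e e)) (n false (n false e e) (n false e e))) (n false e e)) e) (n false (n false (n false e e) (n false e e)) (n false (n false e e) (n false e e)))) (n false e e)) 16387 (.s (n false (n false (n true (n false (n false e e) (n false e e)) e) e) (n false e e)) 16390 .z))))))) (.s 47 2 .z)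
  (.s (.s (n false (n true (n false e e) e) (n false e e)) 16389 (.s (n false (n true (n false (n false (n false (n false e e) (n false e e)) (n false (n false e e) (n false e e))) (n false e e)) e) (n true (n false e e) e)) 16392 (.s (n false (n true (n false (n false (n false e e) (n false e e)) (n false (n false e e) (n false e e))) e) (n false e e)) 16390 (.s (n false (n false e e) e) 16386 (.s (n false (n false (n false e e) (n false e e)) (n false e e)) 16390 (.s (n false (n false (n true (n false (n false e e) (n false e e)) e) e) (n false e e)) 16390 (.s (n false (n false (n true (n false (n false (n false (n false e e) (n false e e)) (n false (n false e e) (n false e e))) (n false e e)) e) (n false (n false (n false e e) (n false e e)) (n false (n false e e) (n false e e)))) (n false e e)) 16386 .z))))))) (.s 66 2 .z)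
  (.s (.s (n false (n true (n false e e) e) (n false e e)) 16395 (.s (n false (n false e e) e) 16386 (.s (n false (n false (n false e e) (n false e e)) (n false e e)) 16390 (.s (n false (n true (n false (n false (n false e e) (n false e e)) (n false (n false e e) (n false e e))) e) (n false e e)) 16390 (.s (n false (n false e e) (n false e e)) 16386 .z))))) .z
  (.s (.s (n false e e) 16387 (.s (n true (n false e e) e) 16389 (.s (n false (n false e e) (n false e e)) 16388 (.s (n false (n false (n false e e) (n false e e)) (n false e e)) 16390 .z)))) .z
  (.s (.s (n false (n true (n false e e) e) (n false e e)) 16389 (.s (n false (n false e e) e) 16386 (.s (n false (n false (n false e e) (n false e e)) (n false e e)) 16390 (.s (n false (n true (n false (n false (n false (n false e e) (n false e e)) (n false (n false e e) (n false e e))) e) e) (n false e e)) 16390 (.s (n false (n true (n false (n false (n false e e) (n false e e)) (n false (n false e e) (n false e e))) e) (n false e e)) 16390 (.s (n false (n true (n false (n false (n false (n false e e) (n false e e)) (n false (n false e e) (n false e e))) (n false e e)) e) (n false e e)) 16385 (.s (n false (n false (n true (n false (n false (n false (n false e e) (n false e e)) (n false (n false e e) (n false e e))) (n false e e))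 e) (n false (n false (n false e e) (n false e e)) (n false (n false e e) (n false e e)))) (n false e e)) 16387 (.s (n false (n false (n true (n false (n false e e) (n false e e)) e) e) (n false e e)) 16390 .z)))))))) .z
  (.s (.s (n false (n true (n false e e) e) (n false e e)) 16395 (.s (n false (n false e e) e) 16386 (.s (n false (n false e e) (n false e e)) 16393 (.s (n false (n false (n false e e) (n false e e)) (n false e e)) 16390 (.s (n true (n true (n false (n false (n false e e) (n false e e)) (n false (n false e e) (n false e e))) e) e) 16383 .z))))) .z
  (.s (.s (n false (n true (n false e e) e) (n false e e)) 16395 (.s (n false (n false e e) e) 16386 (.s (n false (n false (n false e e) (n false e e)) (n false e e)) 16390 (.s (n false (n false e e) (n false e e)) 16393 (.s (n true (n true (n false (n false (n false e e) (n false e e)) (n false (n false e e) (n false e e))) e) e) 16383 .z))))) .z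
  (.s (.s (n false (n true (n false e e) e) (n false e e)) 16389 (.s (n false (n false e e) e) 16386 (.s (n false (n false (n false e e) (n false e e)) (n false e e)) 16390 (.s (n false (n true (n false (n false (n false e e) (n false e e)) (n false (n false e e) (n false e e))) e) (n false e e)) 16388 (.s (n false (n true (n false (n false (n false (n false e e) (n false e e)) (n false (n false e e) (n false e e))) e) e) (n false e e)) 16390 (.s (n false (n false (n true (n false (n false (n false (n false e e) (n false e e)) (n false (n false e e) (n false e e))) (n false e e)) e) (n false (n false (n false e e) (n false e e)) (n false (n false e e) (n false e e)))) (n false e e)) 16387 (.s (n false (n false (n true (n false (n false e e) (n false e e)) e) e) (n false e e)) 16390 (.s (n true (n true (n false (n false (n false e e) (n false e e)) (n false (n false e e) (n false e e))) e) e) 16383 .z)))))))) (.s 38 14 (.s 66 2 .z))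
  (.s (.s (n false (n true (n false e e) e) (n false e e)) 16389 (.s (n false (n false e e) e) 16386 (.s (n false (n false (n false e e) (n false e e)) (n false e e)) 16390 (.s (n false (n true (n false (n false (n false e e) (n false e e)) (n false (n false e e) (n false e e))) e) (n false e e)) 16390 (.s (n false (n true (n false (n false (n false (n false e e) (n false e e)) (n false (n false e e) (n false e e))) (n false e e)) e) (n false e e)) 16385 (.s (n false (n true (n true (n false (n false (n false (n false e e) (n false e e)) (n false (n false e e) (n false e e))) (n false e e)) e) e) (n false e e)) 16392 (.s (n false (n false (n true (n false (n false e e) (n false e e)) e) e) (n false e e)) 16390 (.s (n false (n true (n false (n false (n false (n false e e) (n false e e)) (n false (n false e e) (n false e e))) e) e) (n false e e)) 16390 .z)))))))) .z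
  (.s (.s (n false (n false (n false e e) (n false e e)) (n false e e)) 16390 (.s (n false (n true (n true (n false (n false (n false e e) (n false e e)) (n false (n false e e) (n false e e))) e) e) (n false e e)) 16390 (.s (n false (n true (n false e e) e) (n false e e)) 16389 (.s (n false (n true (n false (n false (n false e e) (n false e e)) (n false (n false e e) (n false e e))) e) (n false e e)) 16390 (.s (n false (n false (n true (n false (n false (n false (n false e e) (n false e e)) (n false (n false e e) (n false e e))) (n false e e)) e) (n false (n false (n false e e) (n false e e)) (n false (n false e e) (n false e e)))) (n false e e)) 16387 (.s (n false (n false e e) e) 16386 (.s (n false (n false (n true (n false (n false e e) (n false e e)) e) e) (n false e e)) 16390 .z))))))) (.s 38 14 (.s 66 2 .z))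
  (.s (.s (n true (n false e e) e) 16389 (.s (n true (n true (n false (n false (n false (n false e e) (n false e e)) (n false (n false e e) (n false e e))) (n false e e)) e) e) 16390 (.s (n false (n false (n false e e) (n false e e)) (n false e e)) 16390 .z))) .z
  (.s (.s (n true (n false e e) e) 16387 (.s (n false (n true (n false (n false (n false e e) (n false e e)) (n false (n false e e) (n false e e))) e) (n false e e)) 16390 (.s (n true (n true (n false (n false (n false (n false e e) (n false e e)) (n false (n false e e) (n false e e))) (n false e e)) e) e) 16390 .z))) (.s 47 2 .z)
  (.s (.s (n true (n false e e) e) 16388 (.s (n false (n true (n false (n false (n false e e) (n false e e)) (n false (n false e e) (n false e e))) e) (n false e e)) 16388 .z)) (.s 47 2 (.s 38 14 .z))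
  (.s (.s (n true (n false e e) e) 16387 (.s (n false (n true (n false (n false (n false e e) (n false e e)) (n false (n false e e) (n false e e))) e) (n false e e)) 16390 (.s (n false (n false e e) (n false e e)) 16388 (.s (n false (n false (n false e e) (n false e e)) (n false e e)) 16390 .z)))) .z
  (.s (.s (n false (n true (n false e e) e) (n false e e)) 16389 (.s (n false (n false e e) (n false e e)) 16388 (.s (n false (n true (n true (n false (n false (n false (n false e e) (n false e e)) (n false (n false e e) (n false e e))) (n false e e)) e) e) (n false e e)) 16392 (.s (n false (n false e e) e) 16386 (.s (n false (n true (n false (n false (n false (n false e e) (n false e e)) (n false (n false e e) (n false e e))) e) e) (n false e e)) 16390 (.s (n false (n true (n false (n false (n false e e) (n false e e)) (n false (n false e e) (n false e e))) e) (n false e e)) 16390 .z)))))) (.s 47 2 .z)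
  (.s (.s (n true (n false e e) e) 16387 (.s (n false (n true (n false (n false (n false e e) (n false e e)) (n false (n false e e) (n false e e))) e) (n false e e)) 16390 (.s (n false (n false e e) (n false e e)) 16388 .z))) (.s 47 2 .z)
  (.s (.s (n false (n true (n false e e) e) (n false e e)) 16389 (.s (n false (n false e e) (n false e e)) 16388 (.s (n false (n true (n false (n false (n false e e) (n false e e)) (n false (n false e e) (n false e e))) e) (n false e e)) 16390 (.s (n false (n false e e) e) 16386 (.s (n false (n false (n false e e) (n false e e)) (n false e e)) 16390 (.s (n false (n true (n false (n false (n false (n false e e) (n false e e)) (n false (n false e e) (n false e e))) e) e) (n false e e)) 16390 (.s (n false (n false (n true (n false (n false (n false (n false e e) (n false e e)) (n false (n false e e) (n false e e))) (n false e e)) e) (n false (n false (n false e e) (n false e e)) (n false (n false e e) (n false e e)))) (n false e e)) 16387 .z))))))) .z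
  (.s (.s (n false (n true (n false e e) e) (n false e e)) 16389 (.s (n false (n false (n false e e) (n false e e)) (n false e e)) 16390 (.s (n false (n true (n true (n false (n false (n false e e) (n false e e)) (n false (n false e e) (n false e e))) e) e) (n false e e)) 16390 (.s (n false (n false e e) e) 16386 (.s (n false (n false (n true (n false (n false (n false (n false e e) (n false e e)) (n false (n false e e) (n false e e))) (n false e e)) e) (n false (n false (n false e e) (n false e e)) (n false (n false e e) (n false e e)))) (n false e e)) 16387 (.s (n false (n false (n true (n false (n false e e) (n false e e)) e) e) (n false e e)) 16390 (.s (n true (n true (n false (n false (n false e e) (n false e e)) (n false (n false e e) (n false e e))) e) e) 16383 (.s (n false (n true (n false (n false (n false (n false e e) (n false e e)) (n false (n false e e) (n false e e))) (n false e e)) e) (n true (n false (n false (n false e e) (n false e e)) (n false (n false e e) (n false e e))) e)) 16385 .z)))))))) (.s 38 14 (.s 66 2 .z))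
  (.s (.s (n false (n true (n false e e) e) (n false e e)) 16389 (.s (n false (n false e e) (n false e e)) 16388 (.s (n false (n true (n false (n false (n false e e) (n false e e)) (n false (n false e e) (n false e e))) e) (n false e e)) 16390 (.s (n false (n false e e) e) 16386 (.s (n false (n false (n false e e) (n false e e)) (n false e e)) 16390 (.s (n false (n true (n false (n false (n false (n false e e) (n false e e)) (n false (n false e e) (n false e e))) e) e) (n false e e)) 16390 (.s (n false (n true (n true (n false (n false (n false (n false e e) (n false e e)) (n false (n false e e) (n false e e))) (n false e e)) e) e) (n false e e)) 16391 (.s (n false (n false (n true (n false (n false (n false (n false e e) (n false e e)) (n false (n false e e) (n false e e))) (n false e e)) e) (n false (n false (n false e e) (n false e e)) (n false (n false e e) (n false e e)))) (n false e e)) 16387 .z)))))))) .z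
  (.s (.s (n false (n true (n false e e) e) (n false e e)) 16389 (.s (n false e e) 16387 (.s (n false (n false e e) (n false e e)) 16388 (.s (n false (n false (n false e e) (n false e e)) (n false e e)) 16390 (.s (n false (n true (n true (n false (n false (n false (n false e e) (n false e e)) (n false (n false e e) (n false e e))) (n false e e)) e) e) (n false e e)) 16392 (.s (n false (n true (n false (n false (n false e e) (n false e e)) (n false (n false e e) (n false e e))) e) (n false e e)) 16388 (.s (n false (n true (n false (n false (n false (n false e e) (n false e e)) (n false (n false e e) (n false e e))) e) e) (n false e e)) 16390 .z))))))) .z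
  (.s (.s (n false (n true (n false e e) e) (n false e e)) 16394 (.s (n false (n false e e) (n false e e)) 16393 (.s (n false (n false e e) e) 16386 (.s (n false (n false (n false e e) (n false e e)) (n false e e)) 16390 (.s (n false (n true (n true (n false (n false (n false (n false e e) (n false e e)) (n false (n false e e) (n false e e))) (n false e e)) e) e) (n false e e)) 16392 (.s (n false (n true (n false (n false (n false e e) (n false e e)) (n false (n false e e) (n false e e))) e) (n false e e)) 16390 (.s (n false (n true (n false (n false (n false (n false e e) (n false e e)) (n false (n false e e) (n false e e))) e) e) (n false e e)) 16390 .z))))))) .z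
  (.s (.s (n false (n true (n false e e) e) (n false e e)) 16389 (.s (n false (n false e e) e) 16386 (.s (n false (n false (n false e e) (n false e e)) (n false e e)) 16390 (.s (n false (n false (n true (n false (n false e e) (n false e e)) e) e) (n false e e)) 16390 (.s (n false (n true (n false (n false (n false (n false e e) (n false e e)) (n false (n false e e) (n false e e))) e) e) (n false e e)) 16390 (.s (n false (n false (n true (n false (n false (n false (n false e e) (n false e e)) (n false (n false e e) (n false e e))) (n false e e)) e) (n false (n false (n false e e) (n false e e)) (n false (n false e e) (n false e e)))) (n false e e)) 16387 (.s (n false (n true (n false (n false (n false (n false e e) (n false e e)) (n false (n false e e) (n false e e))) (n false e e)) e) (n true (n false (n false (n false e e) (n false e e)) (n false (n false e e) (n false e e))) e)) 16385 .z))))))) (.s 28 5 (.s 38 14 (.s 66 2 .z)))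
  (.s (.s (n false (n true (n false e e) e) (n false e e)) 16389 (.s (n false e e) 16387 (.s (n false (n true (n false (n false (n false (n false e e) (n false e e)) (n false (n false e e) (n false e e))) (n false e e)) e) (n true (n false e e) e)) 16392 (.s (n false (n false e e) (n false e e)) 16386 (.s (n false (n false (n false e e) (n false e e)) (n false e e)) 16390 (.s (n false (n true (n false (n false (n false e e) (n false e e)) (n false (n false e e) (n false e e))) e) (n false e e)) 16388 (.s (n false (n true (n false (n false (n false (n false e e) (n false e e)) (n false (n false e e) (n false e e))) (n false e e)) e) (n false e e)) 16385 .z))))))) .z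
  (.s (.s (n true (n false e e) e) 16387 (.s (n false (n false e e) (n false e e)) 16388 (.s (n true (n true (n false (n false (n false (n false e e) (n false e e)) (n false (n false e e) (n false e e))) (n false e e)) e) e) 16386 (.s (n true (n true (n false (n false (n false e e) (n false e e)) (n false (n false e e) (n false e e))) e) e) 16383 .z)))) (.s 47 2 .z)
  (.s (.s (n false (n true (n false e e) e) (n false e e)) 16389 (.s (n false (n true (n false (n false (n false e e) (n false e e)) (n false (n false e e) (n false e e))) e) (n false e e)) 16400 (.s (n false (n false e e) e) 16386 (.s (n false (n false e e) (n false e e)) 16394 (.s (n false (n true (n true (n false (n false (n false (n false e e) (n false e e)) (n false (n false e e) (n false e e))) (n false e e)) e) e) (n false e e)) 16392 .z))))) (.s 47 2 .z)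
  (.s (.s (n false (n false e e) (n false e e)) 16400 (.s (n false (n true (n false e e) e) (n false e e)) 16389 (.s (n false (n false e e) e) 16386 (.s (n false (n false (n false e e) (n false e e)) (n false e e)) 16390 (.s (n false (n true (n false (n false (n false e e) (n false e e)) (n false (n false e e) (n false e e))) e) (n false e e)) 16401 .z))))) .z
  (.s (.s (n false (n true (n false e e) e) (n false e e)) 16400 (.s (n false (n false e e) e) 16386 (.s (n false (n false (n false e e) (n false e e)) (n false e e)) 16390 (.s (n true (n true (n false (n false (n false e e) (n false e e)) (n false (n false e e) (n false e e))) e) e) 16383 .z)))) .z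
  (.s (.s (n false (n false e e) (n false e e)) 16400 (.s (n false (n true (n false e e) e) (n false e e)) 16389 (.s (n false (n true (n false (n false (n false e e) (n false e e)) (n false (n false e e) (n false e e))) e) (n false e e)) 16401 (.s (n false (n false e e) e) 16386 (.s (n false (n false (n false e e) (n false e e)) (n false e e)) 16390 .z))))) .z
  (.s (.s (n false (n true (n false e e) e) (n false e e)) 16389 (.s (n false (n false e e) (n false e e)) 16388 (.s (n false (n false e e) e) 16386 (.s (n false (n false (n false e e) (n false e e)) (n false e e)) 16390 (.s (n false (n true (n false (n false (n false e e) (n false e e)) (n false (n false e e) (n false e e))) e) (n false e e)) 16390 (.s (n false (n true (n true (n false (n false (n false (n false e e) (n false e e)) (n false (n false e e) (n false e e))) (n false e e)) e) e) (n false e e)) 16392 (.s (n false (n true (n false (n false (n false (n false e e) (n false e e)) (n false (n false e e) (n false e e))) e) e) (n false e e)) 16390 .z))))))) .z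
  (.s (.s (n false (n true (n false e e) e) (n false e e)) 16389 (.s (n false (n false e e) (n false e e)) 16388 (.s (n false (n false e e) e) 16386 (.s (n false (n false (n false e e) (n false e e)) (n false e e)) 16390 (.s (n false (n true (n false (n false (n false e e) (n false e e)) (n false (n false e e) (n false e e))) e) (n false e e)) 16390 (.s (n false (n false (n true (n false (n false (n false (n false e e) (n false e e)) (n false (n false e e) (n false e e))) (n false e e)) e) (n false (n false (n false e e) (n false e e)) (n false (n false e e) (n false e e)))) (n false e e)) 16387 (.s (n false (n true (n false (n false (n false (n false e e) (n false e e)) (n false (n false e e) (n false e e))) e) e) (n false e e)) 16390 .z))))))) .z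
  (.s (.s (n false (n true (n false e e) e) (n false e e)) 16389 (.s (n false e e) 16387 (.s (n true (n true (n false (n false (n false (n false e e) (n false e e)) (n false (n false e e) (n false e e))) (n false e e)) e) e) 16386 (.s (n false (n false e e) (n false e e)) 16388 (.s (n false (n false (n false e e) (n false e e)) (n false e e)) 16390 .z))))) .z
  (.s (.s (n false (n true (n false e e) e) (n false e e)) 16389 (.s (n false e e) 16387 (.s (n false (n false (n false e e) (n false e e)) (n false e e)) 16390 (.s (n false (n true (n true (n false (n false (n false (n false e e) (n false e e)) (n false (n false e e) (n false e e))) (n false e e)) e) e) (n false e e)) 16392 (.s (n false (n false (n true (n false (n false e e) (n false e e)) e) e) (n false e e)) 16390 (.s (n false (n true (n false (n false (n false e e) (n false e e)) (n false (n false e e) (n false e e))) e) (n false e e)) 16388 (.s (n false (n true (n false (n false (n false (n false e e) (n false e e)) (n false (n false e e) (n false e e))) e) e) (n false e e)) 16390 .z))))))) (.s 38 14 (.s 66 2 .z))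
  (.s (.s (n false (n true (n false e e) e) (n false e e)) 16389 (.s (n false (n false e e) e) 16386 (.s (n false (n true (n true (n false (n false (n false e e) (n false e e)) (n false (n false e e) (n false e e))) e) e) (n false e e)) 16390 (.s (n false (n true (n false (n false (n false e e) (n false e e)) (n false (n false e e) (n false e e))) e) (n false e e)) 16390 (.s (n false (n false (n true (n false (n false (n false (n false e e) (n false e e)) (n false (n false e e) (n false e e))) (n false e e)) e) (n false (n false (n false e e) (n false e e)) (n false (n false e e) (n false e e)))) (n false e e)) 16387 (.s (n false (n false (n true (n false (n false e e) (n false e e)) e) e) (n false e e)) 16390 .z)))))) (.s 47 2 (.s 38 14 (.s 66 2 .z)))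
  (.s (.s (n false (n true (n false e e) e) (n false e e)) 16394 (.s (n false (n true (n false (n false (n false e e) (n false e e)) (n false (n false e e) (n false e e))) e) (n false e e)) 16390 (.s (n false (n false e e) e) 16386 (.s (n false (n true (n true (n false (n false (n false e e) (n false e e)) (n false (n false e e) (n false e e))) e) e) (n false e e)) 16390 (.s (n false (n false (n true (n false (n false e e) (n false e e)) e) e) (n false e e)) 16390 (.s (n false (n false (n true (n false (n false (n false (n false e e) (n false e e)) (n false (n false e e) (n false e e))) (n false e e)) e) (n false (n false (n false e e) (n false e e)) (n false (n false e e) (n false e e)))) (n false e e)) 16387 .z)))))) (.s 47 2 (.s 38 14 (.s 66 2 .z)))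
  (.s (.s (n false (n true (n false e e) e) (n false e e)) 16400 (.s (n false e e) 16385 (.s (n false (n false (n false e e) (n false e e)) (n false e e)) 16390 (.s (n true (n true (n false (n false (n false e e) (n false e e)) (n false (n false e e) (n false e e))) e) e) 16383 .z)))) .z
  (.s (.s (n false (n true (n false e e) e) (n false e e)) 16389 (.s (n true (n true (n false (n false (n false (n false e e) (n false e e)) (n false (n false e e) (n false e e))) (n false e e)) e) e) 16384 (.s (n false (n false e e) e) 16386 (.s (n false (n false (n false e e) (n false e e)) (n false e e)) 16390 (.s (n false (n false (n true (n false (n false e e) (n false e e)) e) e) (n false e e)) 16390 (.s (n true (n true (n false (n false (n false e e) (n false e e)) (n false (n false e e) (n false e e))) e) e) 16383 (.s (n false (n true (n false (n false (n false e e) (n false e e)) (n false (n false e e) (n false e e))) e) (n false e e)) 16388 (.s (n false (n true (n false (n false (n false (n false e e) (n false e e)) (n false (n false e e) (n false e e))) (n false e e)) e) (n true (n false e e) e)) 16392 (.s (n true (n false (n true (n false (n false (n false (n false e e) (n false e e)) (n false (n false e e) (n false e e))) (n false e e)) e) (n false (n false (n false e e) (n false e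 e)) (n false (n false e e) (n false e e)))) e) 16385 .z))))))))) (.s 66 2 .z)
  (.s (.s (n false (n true (n false e e) e) (n false e e)) 16389 (.s (n false (n false e e) (n false e e)) 16394 (.s (n false (n false e e) e) 16386 (.s (n false (n true (n false (n false (n false e e) (n false e e)) (n false (n false e e) (n false e e))) e) (n false e e)) 16390 (.s (n false (n true (n true (n false (n false (n false (n false e e) (n false e e)) (n false (n false e e) (n false e e))) (n false e e)) e) e) (n false e e)) 16392 .z))))) (.s 47 2 .z)
  (.s (.s (n false (n true (n false (n false (n false (n false e e) (n false e e)) (n false (n false e e) (n false e e))) (n false e e)) e) (n true (n false e e) e)) 16397 (.s (n false (n true (n false e e) e) (n false e e)) 16389 (.s (n false (n false e e) e) 16386 (.s (n false (n false e e) (n false e e)) 16386 (.s (n false (n true (n false (n false (n false e e) (n false e e)) (n false (n false e e) (n false e e))) e) (n false e e)) 16390 (.s (n false (n true (n false (n false (n false (n false e e) (n false e e)) (n false (n false e e) (n false e e))) (n false e e)) e) (n false e e)) 16385 (.s (n false (n true (n true (n false (n false (n false (n false e e) (n false e e)) (n false (n false e e) (n false e e))) (n false e e)) e) e) (n false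 e e)) 16391 .z))))))) (.s 47 2 .z)
  (.s (.s (n false (n true (n false e e) e) (n false e e)) 16401 (.s (n false (n false e e) e) 16386 (.s (n false (n true (n false (n false (n false e e) (n false e e)) (n false (n false e e) (n false e e))) e) (n false e e)) 16390 .z))) .z
  (.s (.s (n false (n true (n false e e) e) (n false e e)) 16394 (.s (n false (n true (n false (n false (n false (n false e e) (n false e e)) (n false (n false e e) (n false e e))) (n false e e)) e) (n true (n false e e) e)) 16397 (.s (n false e e) 16387 (.s (n false (n false e e) (n false e e)) 16386 (.s (n false (n false (n false e e) (n false e e)) (n false e e)) 16390 (.s (n false (n true (n false (n false (n false (n false e e) (n false e e)) (n false (n false e e) (n false e e))) (n false e e)) e) (n false e e)) 16385 .z)))))) .z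
  (.s (.s (n true (n false e e) e) 16387 (.s (n false (n false (n false e e) (n false e e)) (n false e e)) 16390 (.s (n true (n true (n false (n false (n false (n false e e) (n false e e)) (n false (n false e e) (n false e e))) (n false e e)) e) e) 16386 (.s (n false (n false e e) (n false e e)) 16388 (.s (n true (n true (n false (n false (n false e e) (n false e e)) (n false (n false e e) (n false e e))) e) e) 16383 .z))))) .z
  (.s (.s (n false (n true (n false e e) e) (n false e e)) 16389 (.s (n false (n true (n false (n false (n false e e) (n false e e)) (n false (n false e e) (n false e e))) e) (n false e e)) 16390 (.s (n false (n false e e) e) 16386 (.s (n false (n true (n true (n false (n false (n false e e) (n false e e)) (n false (n false e e) (n false e e))) e) e) (n false e e)) 16390 (.s (n false (n false (n true (n false (n false (n false (n false e e) (n false e e)) (n false (n false e e) (n false e e))) (n false e e)) e) (n false (n false (n false e e) (n false e e)) (n false (n false e e) (n false e e)))) (n false e e)) 16387 (.s (n false (n false (n true (n false (n false e e) (n false e e)) e) e) (n false e e)) 16390 .z)))))) (.s 47 2 (.s 38 14 (.s 66 2 .z)))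
  (.s (.s (n false (n true (n false e e) e) (n false e e)) 16389 (.s (n false (n false e e) e) 16386 (.s (n false (n false e e) (n false e e)) 16395 (.s (n false (n true (n true (n false (n false (n false (n false e e) (n false e e)) (n false (n false e e) (n false e e))) (n false e e)) e) e) (n false e e)) 16392 .z)))) (.s 47 2 .z)
  (.s (.s (n false (n true (n false e e) e) (n false e e)) 16389 (.s (n false (n true (n false (n false (n false (n false e e) (n false e e)) (n false (n false e e) (n false e e))) (n false e e)) e) (n true (n false e e) e)) 16392 (.s (n false (n false e e) e) 16386 (.s (n false (n true (n false (n false (n false e e) (n false e e)) (n false (n false e e) (n false e e))) e) (n false e e)) 16390 (.s (n false (n false (n true (n false (n false e e) (n false e e)) e) e) (n false e e)) 16390 (.s (n false (n false (n true (n false (n false (n false (n false e e) (n false e e)) (n false (n false e e) (n false e e))) (n false e e)) e) (n false (n false (n false e e) (n false e e)) (n false (n false e e) (n false e e)))) (n false e e)) 16386 .z)))))) (.s 47 2 (.s 66 2 .z))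
  (.s (.s (n false (n true (n false e e) e) (n false e e)) 16389 (.s (n false (n false e e) e) 16386 (.s (n false (n false (n false e e) (n false e e)) (n false e e)) 16390 (.s (n false (n false (n true (n false (n false (n false (n false e e) (n false e e)) (n false (n false e e) (n false e e))) (n false e e)) e) (n false (n false (n false e e) (n false e e)) (n false (n false e e) (n false e e)))) (n false e e)) 16387 (.s (n false (n false (n true (n false (n false e e) (n false e e)) e) e) (n false e e)) 16390 (.s (n true (n true (n false (n false (n false e e) (n false e e)) (n false (n false e e) (n false e e))) e) e) 16383 (.s (n false (n true (n false (n false (n false (n false e e) (n false e e)) (n false (n false e e) (n false e e))) e) e) (n false e e)) 16390 (.s (n false (n true (n false (n false (n false (n false e e) (n false e e)) (n false (n false e e) (n false e e))) (n false e e)) e) (n true (n false (n false (n false e e) (n false e e)) (n false (n false e e) (n false e e))) e)) 16385 .z)))))))) (.s 38 14 (.s 66 2 .z))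
  (.s (.s (n false (n true (n false e e) e) (n false e e)) 16389 (.s (n false (n false (n true (n false (n false (n false (n false e e) (n false e e)) (n false (n false e e) (n false e e))) (n false e e)) e) (n false (n false (n false e e) (n false e e)) (n false (n false e e) (n false e e)))) (n false e e)) 16387 (.s (n false (n false e e) e) 16386 (.s (n false (n false (n false e e) (n false e e)) (n false e e)) 16390 (.s (n false (n true (n false (n false (n false (n false e e) (n false e e)) (n false (n false e e) (n false e e))) e) e) (n false e e)) 16390 (.s (n false (n true (n false (n false (n false (n false e e) (n false e e)) (n false (n false e e) (n false e e))) (n false e e)) e) (n true (n false (n false (n false e e) (n false e e)) (n false (n false e e) (n false e e))) e)) 16385 (.s (n false (n false (n true (n false (n false e e) (n false e e)) e) e) (n false e e)) 16390 (.s (n true (n true (n false (n false (n false e e) (n false e e)) (n false (n false e e) (n false e e))) e) e) 16383 .z)))))))) (.s 38 14 (.s 66 2 .z))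
  (.s (.s (n false (n true (n false e e) e) (n false e e)) 16394 (.s (n false (n true (n false (n false (n false (n false e e) (n false e e)) (n false (n false e e) (n false e e))) (n false e e)) e) (n false e e)) 16391 (.s (n false e e) 16387 (.s (n false (n false (n false e e) (n false e e)) (n false e e)) 16390 (.s (n false (n false e e) (n false e e)) 16386 (.s (n false (n true (n false (n false (n false (n false e e) (n false e e)) (n false (n false e e) (n false e e))) (n false e e)) e) (n true (n false e e) e)) 16392 .z)))))) .z
  (.s (.s (n false (n true (n false e e) e) (n false e e)) 16395 (.s (n false e e) 16385 (.s (n false (n false e e) (n false e e)) 16393 (.s (n false (n false (n false e e) (n false e e)) (n false e e)) 16390 (.s (n true (n true (n false (n false (n false e e) (n false e e)) (n false (n false e e) (n false e e))) e) e) 16383 .z))))) .z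
  (.s (.s (n false (n true (n false e e) e) (n false e e)) 16389 (.s (n false (n false e e) e) 16386 (.s (n false (n false (n false e e) (n false e e)) (n false e e)) 16390 (.s (n false (n true (n true (n false (n false (n false e e) (n false e e)) (n false (n false e e) (n false e e))) e) e) (n false e e)) 16390 (.s (n false (n true (n false (n false (n false e e) (n false e e)) (n false (n false e e) (n false e e))) e) (n false e e)) 16390 (.s (n false (n false (n true (n false (n false (n false (n false e e) (n false e e)) (n false (n false e e) (n false e e))) (n false e e)) e) (n false (n false (n false e e) (n false e e)) (n false (n false e e) (n false e e)))) (n false e e)) 16387 (.s (n false (n false e e) (n false e e)) 16386 .z))))))) (.s 38 14 (.s 66 2 .z))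
  (.s (.s (n false (n true (n false e e) e) (n false e e)) 16395 (.s (n false (n false e e) e) 16386 (.s (n false (n false e e) (n false e e)) 16386 (.s (n false (n false (n false e e) (n false e e)) (n false e e)) 16390 (.s (n false (n true (n false (n false (n false e e) (n false e e)) (n false (n false e e) (n false e e))) e) (n false e e)) 16390 .z))))) .z
  (.s (.s (n false (n true (n false e e) e) (n false e e)) 16389 (.s (n false (n false e e) e) 16386 (.s (n false (n false (n false e e) (n false e e)) (n false e e)) 16390 (.s (n false (n false e e) (n false e e)) 16388 (.s (n false (n true (n false (n false (n false e e) (n false e e)) (n false (n false e e) (n false e e))) e) (n false e e)) 16390 (.s (n false (n true (n true (n false (n false (n false (n false e e) (n false e e)) (n false (n false e e) (n false e e))) (n false e e)) e) e) (n false e e)) 16392 (.s (n false (n true (n false (n false (n false (n false e e) (n false e e)) (n false (n false e e) (n false e e))) e) e) (n false e e)) 16390 .z))))))) .z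
  (.s (.s (n false (n true (n false e e) e) (n false e e)) 16389 (.s (n false (n true (n false (n false (n false (n false e e) (n false e e)) (n false (n false e e) (n false e e))) (n false e e)) e) (n true (n false e e) e)) 16392 (.s (n false (n false e e) e) 16386 (.s (n false (n false (n false e e) (n false e e)) (n false e e)) 16390 (.s (n false (n false (n true (n false (n false e e) (n false e e)) e) e) (n false e e)) 16390 (.s (n true (n true (n false (n false (n false e e) (n false e e)) (n false (n false e e) (n false e e))) e) e) 16383 (.s (n false (n true (n false (n false (n false e e) (n false e e)) (n false (n false e e) (n false e e))) e) (n false e e)) 16388 (.s (n true (n false (n true (n false (n false (n false (n false e e) (n false e e)) (n false (n false e e) (n false e e))) (n false e e)) e) (n false (n false (n false e e) (n false e e)) (n false (n false e e) (n false e e)))) e) 16385 .z)))))))) (.s 66 2 .z)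
  (.s (.s (n false (n true (n false e e) e) (n false e e)) 16389 (.s (n false e e) 16387 (.s (n false (n false e e) (n false e e)) 16388 (.s (n false (n true (n false (n false (n false (n false e e) (n false e e)) (n false (n false e e) (n false e e))) (n false e e)) e) (n true (n false (n false (n false e e) (n false e e)) (n false (n false e e) (n false e e))) e)) 16398 (.s (n false (n true (n false (n false (n false (n false e e) (n false e e)) (n false (n false e e) (n false e e))) e) e) (n false e e)) 16390 (.s (n false (n false (n false e e) (n false e e)) (n false e e)) 16390 .z)))))) .z
  (.s (.s (n false (n true (n false e e) e) (n false e e)) 16399 (.s (n false e e) 16387 (.s (n false (n false (n false e e) (n false e e)) (n false e e)) 16390 (.s (n false (n true (n false (n false (n false e e) (n false e e)) (n false (n false e e) (n false e e))) e) (n false e e)) 16388 .z)))) .z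
  (.s (.s (n false (n true (n false e e) e) (n false e e)) 16394 (.s (n true (n true (n false (n false (n false (n false e e) (n false e e)) (n false (n false e e) (n false e e))) (n false e e)) e) e) 16386 (.s (n false (n false e e) e) 16386 (.s (n false (n false e e) (n false e e)) 16395 .z)))) (.s 47 2 .z)
  (.s (.s (n false (n true (n false e e) e) (n false e e)) 16389 (.s (n false e e) 16387 (.s (n false (n false e e) (n false e e)) 16386 (.s (n false (n false (n false e e) (n false e e)) (n false e e)) 16390 (.s (n false (n true (n false (n false (n false (n false e e) (n false e e)) (n false (n false e e) (n false e e))) (n false e e)) e) (n false e e)) 16385 (.s (n false (n true (n false (n false (n false e e) (n false e e)) (n false (n false e e) (n false e e))) e) (n false e e)) 16388 (.s (n false (n true (n false (n false (n false (n false e e) (n false e e)) (n false (n false e e) (n false e e))) e) e) (n false e e)) 16390 (.s (n false (n false (n true (n false (n false (n false (n false e e) (n false e e)) (n false (n false e e) (n false e e))) (n false e e)) e) (n false (n false (n false e e) (n false e e)) (n false (n false e e) (n false e e)))) (n false e e)) 16387 .z)))))))) .z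
  (.s (.s (n false (n true (n false e e) e) (n false e e)) 16394 (.s (n false e e) 16387 (.s (n false (n false e e) (n false e e)) 16393 (.s (n false (n false (n false e e) (n false e e)) (n false e e)) 16390 (.s (n false (n true (n false (n false (n false (n false e e) (n false e e)) (n false (n false e e) (n false e e))) e) e) (n false e e)) 16390 (.s (n false (n true (n true (n false (n false (n false (n false e e) (n false e e)) (n false (n false e e) (n false e e))) (n false e e)) e) e) (n false e e)) 16392 .z)))))) .z
  (.s (.s (n false (n true (n false e e) e) (n false e e)) 16389 (.s (n false (n false e e) e) 16386 (.s (n false (n false (n false e e) (n false e e)) (n false e e)) 16390 (.s (n false (n true (n false (n false (n false (n false e e) (n false e e)) (n false (n false e e) (n false e e))) e) e) (n false e e)) 16390 (.s (n false (n true (n false (n false (n false (n false e e) (n false e e)) (n false (n false e e) (n false e e))) (n false e e)) e) (n true (n false (n false (n false e e) (n false e e)) (n false (n false e e) (n false e e))) e)) 16385 (.s (n false (n false (n true (n false (n false (n false (n false e e) (n false e e)) (n false (n false e e) (n false e e))) (n false e e)) e) (n false (n false (n false e e) (n false e e)) (n false (n false e e) (n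 false e e)))) (n false e e)) 16387 (.s (n false (n false (n true (n false (n false e e) (n false e e)) e) e) (n false e e)) 16390 (.s (n true (n true (n false (n false (n false e e) (n false e e)) (n false (n false e e) (n false e e))) e) e) 16383 .z)))))))) (.s 38 14 (.s 66 2 .z))
  (.s (.s (n false (n true (n false e e) e) (n false e e)) 16389 (.s (n false (n false (n true (n false (n false (n false (n false e e) (n false e e)) (n false (n false e e) (n false e e))) (n false e e)) e) (n false (n false (n false e e) (n false e e)) (n false (n false e e) (n false e e)))) (n false e e)) 16387 (.s (n false (n false e e) e) 16386 (.s (n false (n false (n false e e) (n false e e)) (n false e e)) 16390 (.s (n false (n true (n false (n false (n false (n false e e) (n false e e)) (n false (n false e e) (n false e e))) e) e) (n false e e)) 16390 (.s (n false (n true (n false (n false (n false (n false e e) (n false e e)) (n false (n false e e) (n false e e))) (n false e e)) e) (n false e e)) 16390 (.s (n false e e) 16387 (.s (n false (n false e e) (n false e e)) 16386 .z)))))))) .z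
  (.s (.s (n false (n true (n false e e) e) (n false e e)) 16389 (.s (n false (n false (n true (n false (n false (n false (n false e e) (n false e e)) (n false (n false e e) (n false e e))) (n false e e)) e) (n false (n false (n false e e) (n false e e)) (n false (n false e e) (n false e e)))) (n false e e)) 16387 (.s (n false (n false e e) e) 16386 (.s (n false (n false (n false e e) (n false e e)) (n false e e)) 16390 (.s (n false (n true (n false (n false (n false (n false e e) (n false e e)) (n false (n false e e) (n false e e))) (n false e e)) e) (n true (n false (n false (n false e e) (n false e e)) (n false (n false e e) (n false e e))) e)) 16385 (.s (n false (n true (n false (n false (n false (n false e e) (n false e e)) (n false (n false e e) (n false e e))) (n false e e)) e) (n false e e)) 16385 (.s (n false (n false (n true (n false (n false e e) (n false e e)) e) e) (n false e e)) 16390 (.s (n true (n true (n false (n false (n false e e) (n false e e)) (n false (n false e e) (n false e e))) e) e) 16383 (.s (n false (n true (n false (n false (n false (n false e e) (n false e e)) (n false (n false e e) (n false e e))) e) e) (n false e e)) 16390 .z))))))))) .z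
  (.s (.s (n false (n true (n false e e) e) (n false e e)) 16394 (.s (n false (n true (n false (n false (n false (n false e e) (n false e e)) (n false (n false e e) (n false e e))) (n false e e)) e) (n true (n false e e) e)) 16397 (.s (n false (n false e e) e) 16386 (.s (n false (n true (n false (n false (n false (n false e e) (n false e e)) (n false (n false e e) (n false e e))) (n false e e)) e) (n false e e)) 16385 (.s (n false (n false e e) (n false e e)) 16386 (.s (n true (n true (n false (n false (n false e e) (n false e e)) (n false (n false e e) (n false e e))) e) e) 16383 .z)))))) (.s 47 2 .z)
  (.s (.s (n false (n true (n false e e) e) (n false e e)) 16389 (.s (n false (n false (n true (n false (n false (n false (n false e e) (n false e e)) (n false (n false e e) (n false e e))) (n false e e)) e) (n false (n false (n false e e) (n false e e)) (n false (n false e e) (n false e e)))) (n false e e)) 16387 (.s (n false (n false e e) e) 16386 (.s (n false (n false (n true (n false (n false e e) (n false e e)) e) e) (n false e e)) 16390 (.s (n false (n true (n false (n false (n false e e) (n false e e)) (n false (n false e e) (n false e e))) e) (n false e e)) 16388 (.s (n false (n true (n false (n false (n false (n false e e) (n false e e)) (n false (n false e e) (n false e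 e))) e) e) (n false e e)) 16390 .z)))))) (.s 28 5 (.s 38 14 (.s 66 2 (.s 47 2 .z))))
  (.s (.s (n false (n true (n false e e) e) (n false e e)) 16389 (.s (n false (n false e e) e) 16386 (.s (n false (n true (n false (n false (n false e e) (n false e e)) (n false (n false e e) (n false e e))) e) (n false e e)) 16390 (.s (n false (n false (n true (n false (n false (n false (n false e e) (n false e e)) (n false (n false e e) (n false e e))) (n false e e)) e) (n false (n false (n false e e) (n false e e)) (n false (n false e e) (n false e e)))) (n false e e)) 16387 (.s (n false (n false (n true (n false (n false e e) (n false e e)) e) e) (n false e e)) 16390 (.s (n false (n true (n false (n false (n false (n false e e) (n false e e)) (n false (n false e e) (n false e e))) e) e) (n false e e)) 16390 .z)))))) (.s 47 2 (.s 38 14 (.s 66 2 .z)))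
  (.s (.s (n false (n true (n false e e) e) (n false e e)) 16389 (.s (n false (n true (n false (n false (n false e e) (n false e e)) (n false (n false e e) (n false e e))) e) (n false e e)) 16390 (.s (n false (n true (n false (n false (n false (n false e e) (n false e e)) (n false (n false e e) (n false e e))) (n false e e)) e) (n false e e)) 16385 (.s (n false (n false e e) e) 16386 (.s (n false (n false e e) (n false e e)) 16386 (.s (n false (n false (n false e e) (n false e e)) (n false e e)) 16390 (.s (n false (n false (n true (n false (n false (n false (n false e e) (n false e e)) (n false (n false e e) (n false e e))) (n false e e)) e) (n false (n false (n false e e) (n false e e)) (n false (n false e e) (n false e e)))) (n false e e)) 16387 (.s (n false (n true (n false (n false (n false (n false e e) (n false e e)) (n false (n false e e) (n false e e))) e) e) (n false e e)) 16390 .z)))))))) .z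
  (.s (.s (n false (n true (n false e e) e) (n false e e)) 16389 (.s (n false (n false e e) e) 16386 (.s (n false (n false (n false e e) (n false e e)) (n false e e)) 16390 (.s (n false (n true (n false (n false (n false (n false e e) (n false e e)) (n false (n false e e) (n false e e))) (n false e e)) e) (n true (n false e e) e)) 16392 (.s (n false (n true (n false (n false (n false e e) (n false e e)) (n false (n false e e) (n false e e))) e) (n false e e)) 16390 (.s (n false (n false (n true (n false (n false e e) (n false e e)) e) e) (n false e e)) 16390 (.s (n false (n true (n false (n false (n false (n false e e) (n false e e)) (n false (n false e e) (n false e e))) (n false e e)) e) (n false e e)) 16385 (.s (n false (n false (n true (n false (n false (n false (n false e e) (n false e e)) (n false (n false e e) (n false e e))) (n false e e)) e) (n false (n false (n false e e) (n false e e)) (n false (n false e e) (n false e e)))) (n false e e)) 16386 .z)))))))) .z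
  (.s (.s (n false (n true (n false e e) e) (n false e e)) 16389 (.s (n false (n false e e) (n false e e)) 16388 (.s (n false (n true (n false (n false (n false e e) (n false e e)) (n false (n false e e) (n false e e))) e) (n false e e)) 16390 (.s (n false (n false e e) e) 16386 (.s (n false (n false (n false e e) (n false e e)) (n false e e)) 16390 (.s (n false (n true (n true (n false (n false (n false (n false e e) (n false e e)) (n false (n false e e) (n false e e))) (n false e e)) e) e) (n false e e)) 16392 (.s (n false (n true (n false (n false (n false (n false e e) (n false e e)) (n false (n false e e) (n false e e))) e) e) (n false e e)) 16390 .z))))))) .z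
  (.s (.s (n false (n true (n false e e) e) (n false e e)) 16389 (.s (n false (n true (n false (n false (n false (n false e e) (n false e e)) (n false (n false e e) (n false e e))) (n false e e)) e) (n false e e)) 16391 (.s (n false e e) 16387 (.s (n false (n false (n false e e) (n false e e)) (n false e e)) 16390 (.s (n false (n true (n false (n false (n false (n false e e) (n false e e)) (n false (n false e e) (n false e e))) (n false e e)) e) (n true (n false e e) e)) 16392 (.s (n false (n false (n true (n false (n false e e) (n false e e)) e) e) (n false e e)) 16390 .z)))))) .z
  (.s (.s (n false (n true (n false e e) e) (n false e e)) 16389 (.s (n false (n false e e) (n false e e)) 16393 (.s (n true (n false e e) e) 16386 (.s (n false (n false (n false e e) (n false e e)) (n false e e)) 16390 (.s (n true (n true (n false (n false (n false e e) (n false e e)) (n false (n false e e) (n false e e))) e) e) 16383 (.s (n false (n true (n false (n false (n false (n false e e) (n false e e)) (n false (n false e e) (n false e e))) e) e) (n false e e)) 16390 (.s (n false (n true (n true (n false (n false (n false (n false e e) (n false e e)) (n false (n false e e) (n false e e))) (n false e e)) e) e) (n false e e)) 16392 .z))))))) .z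
  (.s (.s (n false (n true (n false e e) e) (n false e e)) 16389 (.s (n false (n false e e) e) 16386 (.s (n false (n false (n false e e) (n false e e)) (n false e e)) 16390 (.s (n false (n false e e) (n false e e)) 16395 (.s (n false (n true (n true (n false (n false (n false (n false e e) (n false e e)) (n false (n false e e) (n false e e))) (n false e e)) e) e) (n false e e)) 16392 .z))))) .z
  (.s (.s (n false (n true (n false e e) e) (n false e e)) 16389 (.s (n false (n true (n true (n false (n false (n false (n false e e) (n false e e)) (n false (n false e e) (n false e e))) (n false e e)) e) e) (n false e e)) 16392 (.s (n false (n false e e) e) 16386 (.s (n false (n true (n true (n false (n false (n false e e) (n false e e)) (n false (n false e e) (n false e e))) e) e) (n false e e)) 16390 (.s (n false (n false e e) (n false e e)) 16388 (.s (n false (n true (n false (n false (n false e e) (n false e e)) (n false (n false e e) (n false e e))) e) (n false e e)) 16390 .z)))))) (.s 47 2 .z)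
  (.s (.s (n false (n true (n false e e) e) (n false e e)) 16389 (.s (n false (n false e e) (n false e e)) 16394 (.s (n false (n true (n true (n false (n false (n false (n false e e) (n false e e)) (n false (n false e e) (n false e e))) (n false e e)) e) e) (n false e e)) 16392 (.s (n false e e) 16385 (.s (n true (n true (n false (n false (n false e e) (n false e e)) (n false (n false e e) (n false e e))) e) e) 16383 .z))))) (.s 47 2 .z)
  (.s (.s (n false (n true (n false e e) e) (n false e e)) 16389 (.s (n false (n false e e) (n false e e)) 16394 (.s (n false e e) 16385 (.s (n true (n true (n false (n false (n false e e) (n false e e)) (n false (n false e e) (n false e e))) e) e) 16383 (.s (n false (n true (n true (n false (n false (n false (n false e e) (n false e e)) (n false (n false e e) (n false e e))) (n false e e)) e) e) (n false e e)) 16392 .z))))) (.s 47 2 .z)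
  (.s (.s (n false (n true (n false e e) e) (n false e e)) 16394 (.s (n false (n false e e) (n false e e)) 16393 (.s (n false (n false e e) e) 16386 (.s (n false (n false (n false e e) (n false e e)) (n false e e)) 16390 (.s (n false (n true (n false (n false (n false e e) (n false e e)) (n false (n false e e) (n false e e))) e) (n false e e)) 16390 (.s (n false (n true (n false (n false (n false (n false e e) (n false e e)) (n false (n false e e) (n false e e))) e) e) (n false e e)) 16390 (.s (n false (n true (n true (n false (n false (n false (n false e e) (n false e e)) (n false (n false e e) (n false e e))) (n false e e)) e) e) (n false e e)) 16392 .z))))))) .z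
  (.s (.s (n true (n false e e) e) 16389 .z) (.s 47 2 (.s 38 14 .z))
  (.s (.s (n false (n true (n false (n false (n false (n false e e) (n false e e)) (n false (n false e e) (n false e e))) (n false e e)) e) (n true (n false e e) e)) 16397 (.s (n false (n true (n false e e) e) (n false e e)) 16389 (.s (n false (n false e e) e) 16386 (.s (n false (n true (n false (n false (n false e e) (n false e e)) (n false (n false e e) (n false e e))) e) (n false e e)) 16390 (.s (n false (n false (n true (n false (n false e e) (n false e e)) e) e) (n false e e)) 16390 (.s (n false (n false (n true (n false (n false (n false (n false e e) (n false e e)) (n false (n false e e) (n false e e))) (n false e e)) e) (n false (n false (n false e e) (n false e e)) (n false (n false e e) (n false e e)))) (n false e e)) 16386 .z)))))) (.s 66 2 (.s 47 2 .z))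
  (.s (.s (n true (n false e e) e) 16388 (.s (n false (n false e e) (n false e e)) 16388 (.s (n false (n false (n false e e) (n false e e)) (n false e e)) 16390 (.s (n false (n true (n false (n false (n false e e) (n false e e)) (n false (n false e e) (n false e e))) e) (n false e e)) 16388 .z)))) .z
  (.s (.s (n true (n false e e) e) 16387 (.s (n true (n true (n false (n false (n false (n false e e) (n false e e)) (n false (n false e e) (n false e e))) (n false e e)) e) e) 16386 (.s (n false (n false e e) (n false e e)) 16388 (.s (n false (n false (n false e e) (n false e e)) (n false e e)) 16390 (.s (n true (n true (n false (n false (n false e e) (n false e e)) (n false (n false e e) (n false e e))) e) e) 16383 .z))))) .z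
  (.s (.s (n true (n false e e) e) 16389 (.s (n false (n false (n false e e) (n false e e)) (n false e e)) 16390 (.s (n false (n false e e) (n false e e)) 16388 .z))) .z
  (.s (.s (n true (n false e e) e) 16388 (.s (n false (n false e e) (n false e e)) 16388 (.s (n false (n false (n false e e) (n false e e)) (n false e e)) 16390 (.s (n true (n true (n false (n false (n false (n false e e) (n false e e)) (n false (n false e e) (n false e e))) (n false e e)) e) e) 16386 .z)))) .z
  (.s (.s (n true (n false e e) e) 16387 (.s (n false (n false e e) (n false e e)) 16388 (.s (n false (n false (n false e e) (n false e e)) (n false e e)) 16390 (.s (n true (n true (n false (n false (n false e e) (n false e e)) (n false (n false e e) (n false e e))) e) e) 16383 (.s (n true (n true (n false (n false (n false (n false e e) (n false e e)) (n false (n false e e) (n false e e))) (n false e e)) e) e) 16386 .z))))) .z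
  (.s (.s (n false (n true (n false e e) e) (n false e e)) 16389 (.s (n false (n true (n false (n false (n false e e) (n false e e)) (n false (n false e e) (n false e e))) e) (n false e e)) 16390 (.s (n false (n false e e) e) 16386 (.s (n false (n false (n false e e) (n false e e)) (n false e e)) 16390 (.s (n false (n true (n true (n false (n false (n false e e) (n false e e)) (n false (n false e e) (n false e e))) e) e) (n false e e)) 16390 (.s (n false (n true (n true (n false (n false (n false (n false e e) (n false e e)) (n false (n false e e) (n false e e))) (n false e e)) e) e) (n false e e)) 16392 (.s (n false (n false (n true (n false (n false e e) (n false e e)) e) e) (n false e e)) 16390 .z))))))) (.s 38 14 (.s 66 2 .z))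
  (.s (.s (n false (n true (n false e e) e) (n false e e)) 16389 (.s (n false (n true (n false (n false (n false (n false e e) (n false e e)) (n false (n false e e) (n false e e))) (n false e e)) e) (n true (n false e e) e)) 16392 (.s (n false (n false e e) e) 16386 (.s (n false (n false (n false e e) (n false e e)) (n false e e)) 16390 (.s (n false (n false (n true (n false (n false e e) (n false e e)) e) e) (n false e e)) 16390 (.s (n true (n true (n false (n false (n false e e) (n false e e)) (n false (n false e e) (n false e e))) e) e) 16383 (.s (n false (n true (n false (n false (n false (n false e e) (n false e e)) (n false (n false e e) (n false e e))) (n false e e)) e) (n true (n false (n false (n false e e) (n false e e)) (n false (n false e e) (n false e e))) e)) 16385 (.s (n false (n false (n true (n false (n false (n false (n false e e) (n false e e)) (n false (n false e e) (n false e e))) (n false e e)) e) (n false (n false (n false e e) (n false e e)) (n false (n false e e) (n false e e)))) (n false e e)) 16386 .z)))))))) (.s 66 2 .z)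
  (.s (.s (n false (n true (n false e e) e) (n false e e)) 16389 (.s (n false (n true (n false (n false (n false (n false e e) (n false e e)) (n false (n false e e) (n false e e))) (n false e e)) e) (n true (n false e e) e)) 16392 (.s (n false (n false e e) e) 16386 (.s (n false (n false (n false e e) (n false e e)) (n false e e)) 16390 (.s (n false (n false (n true (n false (n false e e) (n false e e)) e) e) (n false e e)) 16390 (.s (n false (n true (n false (n false (n false (n false e e) (n false e e)) (n false (n false e e) (n false e e))) (n false e e)) e) (n true (n false (n false (n false e e) (n false e e)) (n false (n false e e) (n false e e))) e)) 16385 (.s (n false (n false (n true (n false (n false (n false (n false e e) (n false e e)) (n false (n false e e) (n false e e))) (n false e e)) e) (n false (n false (n false e e) (n false e e)) (n false (n false e e) (n false e e)))) (n false e e)) 16386 .z))))))) (.s 28 5 (.s 66 2 .z))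
  (.s (.s (n false e e) 16385 (.s (n false (n true (n false (n false (n false (n false e e) (n false e e)) (n false (n false e e) (n false e e))) (n false e e)) e) (n true (n false e e) e)) 16386 (.s (n false (n false e e) (n false e e)) 16394 (.s (n false (n true (n false e e) e) (n false e e)) 16389 (.s (n true (n true (n false (n false (n false e e) (n false e e)) (n false (n false e e) (n false e e))) e) e) 16383 (.s (n false (n true (n true (n false (n false (n false (n false e e) (n false e e)) (n false (n false e e) (n false e e))) (n false e e)) e) e) (n false e e)) 16392 .z)))))) (.s 47 2 .z)
  (.s (.s (n false (n true (n false e e) e) (n false e e)) 16389 (.s (n false (n false e e) (n false e e)) 16395 (.s (n false e e) 16385 (.s (n false (n true (n true (n false (n false (n false (n false e e) (n false e e)) (n false (n false e e) (n false e e))) (n false e e)) e) e) (n false e e)) 16392 .z)))) (.s 47 2 .z)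
  (.s (.s (n false (n true (n false e e) e) (n false e e)) 16389 (.s (n false e e) 16387 (.s (n true (n false (n true (n false e e) e) (n false e e)) e) 16408 (.s (n false (n false e e) (n false e e)) 16393 (.s (n false (n true (n true (n false (n false (n false (n false e e) (n false e e)) (n false (n false e e) (n false e e))) (n false e e)) e) e) (n false e e)) 16392 .z))))) (.s 47 2 .z)
  (.s (.s (n false (n true (n false e e) e) (n false e e)) 16389 (.s (n false (n false (n true (n false (n false (n false (n false e e) (n false e e)) (n false (n false e e) (n false e e))) (n false e e)) e) (n false (n false (n false e e) (n false e e)) (n false (n false e e) (n false e e)))) (n false e e)) 16387 (.s (n false (n false e e) e) 16386 (.s (n false (n true (n false (n false (n false e e) (n false e e)) (n false (n false e e) (n false e e))) e) (n false e e)) 16388 (.s (n false (n true (n true (n false (n false (n false e e) (n false e e)) (n false (n false e e) (n false e e))) e) e) (n false e e)) 16390 (.s (n false (n false (n true (n false (n false e e) (n false e e)) e) e) (n false e e)) 16390 .z)))))) (.s 47 2 (.s 28 5 (.s 38 14 (.s 66 2 .z))))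
  (.s (.s (n false (n true (n false e e) e) (n false e e)) 16389 (.s (n false (n false e e) (n false e e)) 16394 (.s (n false (n true (n true (n false (n false (n false (n false e e) (n false e e)) (n false (n false e e) (n false e e))) (n false e e)) e) e) (n false e e)) 16392 (.s (n false (n false e e) e) 16386 (.s (n false (n false (n false e e) (n false e e)) (n false e e)) 16390 (.s (n false (n true (n false (n false (n false e e) (n false e e)) (n false (n false e e) (n false e e))) e) (n false e e)) 16390 .z)))))) .z
  (.s (.s (n false (n true (n false e e) e) (n false e e)) 16389 (.s (n false (n false (n true (n false (n false (n false (n false e e) (n false e e)) (n false (n false e e) (n false e e))) (n false e e)) e) (n false (n false (n false e e) (n false e e)) (n false (n false e e) (n false e e)))) (n false e e)) 16387 (.s (n false (n false e e) e) 16386 (.s (n false (n true (n true (n false (n false (n false e e) (n false e e)) (n false (n false e e) (n false e e))) e) e) (n false e e)) 16390 (.s (n false (n true (n false (n false (n false e e) (n false e e)) (n false (n false e e) (n false e e))) e) (n false e e)) 16390 (.s (n false (n false (n true (n false (n false e e) (n false e e)) e) e) (n false e e)) 16390 .z)))))) (.s 47 2 (.s 38 14 (.s 66 2 .z)))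
  (.s (.s (n false (n true (n false e e) e) (n false e e)) 16389 (.s (n false (n false e e) e) 16386 (.s (n false (n false e e) (n false e e)) 16394 (.s (n false (n true (n true (n false (n false (n false (n false e e) (n false e e)) (n false (n false e e) (n false e e))) (n false e e)) e) e) (n false e e)) 16392 (.s (n true (n true (n false (n false (n false e e) (n false e e)) (n false (n false e e) (n false e e))) e) e) 16383 .z))))) (.s 47 2 .z)
  (.s (.s (n false (n true (n false e e) e) (n false e e)) 16389 (.s (n false e e) 16387 (.s (n false (n true (n false (n false (n false (n false e e) (n false e e)) (n false (n false e e) (n false e e))) (n false e e)) e) (n false e e)) 16390 (.s (n false (n true (n false (n false (n false (n false e e) (n false e e)) (n false (n false e e) (n false e e))) (n false e e)) e) (n true (n false e e) e)) 16392 (.s (n false (n false (n false e e) (n false e e)) (n false e e)) 16390 (.s (n false (n false (n true (n false (n false e e) (n false e e)) e) e) (n false e e)) 16390 .z)))))) .z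
  (.s (.s (n false (n true (n false e e) e) (n false e e)) 16395 (.s (n false (n true (n false (n false (n false e e) (n false e e)) (n false (n false e e) (n false e e))) e) (n false e e)) 16390 (.s (n false (n false e e) e) 16386 (.s (n false (n false (n true (n false (n false e e) (n false e e)) e) e) (n false e e)) 16390 .z)))) (.s 47 2 .z)
  (.s (.s (n false (n true (n false e e) e) (n false e e)) 16400 (.s (n false (n false e e) e) 16386 (.s (n false (n true (n false (n false (n false e e) (n false e e)) (n false (n false e e) (n false e e))) e) (n false e e)) 16390 .z))) (.s 47 2 .z)
  (.s (.s (n false (n true (n false e e) e) (n false e e)) 16394 (.s (n false (n true (n false (n false (n false (n false e e) (n false e e)) (n false (n false e e) (n false e e))) (n false e e)) e) (n false e e)) 16391 (.s (n false e e) 16387 (.s (n false (n true (n false (n false (n false (n false e e) (n false e e)) (n false (n false e e) (n false e e))) (n false e e)) e) (n true (n false e e) e)) 16392 (.s (n false (n false e e) (n false e e)) 16386 (.s (n false (n false (n false e e) (n false e e)) (n false e e)) 16390 .z)))))) .z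
  (.s (.s (n false (n true (n false e e) e) (n false e e)) 16389 (.s (n false (n false e e) e) 16386 (.s (n false (n false (n false e e) (n false e e)) (n false e e)) 16390 (.s (n false (n true (n true (n false (n false (n false e e) (n false e e)) (n false (n false e e) (n false e e))) e) e) (n false e e)) 16390 (.s (n false (n false (n true (n false (n false (n false (n false e e) (n false e e)) (n false (n false e e) (n false e e))) (n false e e)) e) (n false (n false (n false e e) (n false e e)) (n false (n false e e) (n false e e)))) (n false e e)) 16387 (.s (n false (n false (n true (n false (n false e e) (n false e e)) e) e) (n false e e)) 16390 (.s (n false (n true (n false (n false (n false (n false e e) (n false e e)) (n false (n false e e) (n false e e))) (n false e e)) e) (n true (n false (n false (n false e e) (n false e e)) (n false (n false e e) (n false e e))) e)) 16385 .z))))))) (.s 28 5 (.s 38 14 (.s 66 2 .z)))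
  (.s (.s (n false (n true (n false e e) e) (n false e e)) 16389 (.s (n false (n true (n true (n false (n false (n false (n false e e) (n false e e)) (n false (n false e e) (n false e e))) (n false e e)) e) e) (n false e e)) 16392 (.s (n false (n false e e) e) 16386 (.s (n false (n false e e) (n false e e)) 16395 .z)))) (.s 47 2 .z)
  (.s (.s (n false (n true (n false e e) e) (n false e e)) 16389 (.s (n false (n true (n true (n false (n false (n false (n false e e) (n false e e)) (n false (n false e e) (n false e e))) (n false e e)) e) e) (n false e e)) 16392 (.s (n false (n false e e) e) 16386 (.s (n false (n false e e) (n false e e)) 16394 (.s (n true (n true (n false (n false (n false e e) (n false e e)) (n false (n false e e) (n false e e))) e) e) 16383 .z))))) (.s 47 2 .z)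
  (.s (.s (n false (n true (n false e e) e) (n false e e)) 16389 (.s (n false (n false e e) (n false e e)) 16394 (.s (n false (n false e e) e) 16386 (.s (n false (n true (n true (n false (n false (n false (n false e e) (n false e e)) (n false (n false e e) (n false e e))) (n false e e)) e) e) (n false e e)) 16392 (.s (n true (n true (n false (n false (n false e e) (n false e e)) (n false (n false e e) (n false e e))) e) e) 16383 .z))))) (.s 47 2 .z)
  (.s (.s (n false (n true (n false e e) e) (n false e e)) 16401 (.s (n false (n false e e) e) 16386 (.s (n true (n true (n false (n false (n false e e) (n false e e)) (n false (n false e e) (n false e e))) e) e) 16383 .z))) .z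
  (.s (.s (n false (n true (n false e e) e) (n false e e)) 16395 (.s (n false (n false e e) e) 16386 (.s (n false (n false e e) (n false e e)) 16393 (.s (n true (n true (n false (n false (n false e e) (n false e e)) (n false (n false e e) (n false e e))) e) e) 16383 .z)))) (.s 47 2 .z)
  (.s (.s (n false (n true (n false e e) e) (n false e e)) 16389 (.s (n false (n false e e) e) 16386 (.s (n false (n false e e) (n false e e)) 16388 (.s (n false e e) 16387 (.s (n true (n true (n false (n false (n false (n false e e) (n false e e)) (n false (n false e e) (n false e e))) (n false e e)) e) e) 16384 (.s (n false (n true (n false (n false (n false e e) (n false e e)) (n false (n false e e) (n false e e))) e) (n false e e)) 16388 .z)))))) (.s 47 2 .z)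
  (.s (.s (n true (n false e e) e) 16387 (.s (n false e e) 16387 (.s (n false (n false e e) (n false e e)) 16388 (.s (n true (n true (n false (n false (n false (n false e e) (n false e e)) (n false (n false e e) (n false e e))) (n false e e)) e) e) 16386 .z)))) (.s 47 2 .z)
  (.s (.s (n false (n true (n false e e) e) (n false e e)) 16389 (.s (n false (n false e e) (n false e e)) 16388 (.s (n false (n true (n false (n false (n false e e) (n false e e)) (n false (n false e e) (n false e e))) e) (n false e e)) 16390 (.s (n false (n false (n true (n false (n false (n false (n false e e) (n false e e)) (n false (n false e e) (n false e e))) (n false e e)) e) (n false (n false (n false e e) (n false e e)) (n false (n false e e) (n false e e)))) (n false e e)) 16387 (.s (n false (n false e e) e) 16386 (.s (n false (n false (n false e e) (n false e e)) (n false e e)) 16390 (.s (n false (n true (n false (n false (n false (n false e e) (n false e e)) (n false (n false e e) (n false e e))) e) e) (n false e e)) 16390 .z))))))) .z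
  (.s (.s (n false (n true (n false e e) e) (n false e e)) 16389 (.s (n false (n false e e) (n false e e)) 16393 (.s (n true (n false e e) e) 16386 (.s (n false (n false (n false e e) (n false e e)) (n false e e)) 16390 (.s (n true (n true (n false (n false (n false e e) (n false e e)) (n false (n false e e) (n false e e))) e) e) 16383 (.s (n false (n true (n false (n false (n false (n false e e) (n false e e)) (n false (n false e e) (n false e e))) e) e) (n false e e)) 16390 (.s (n false (n false (n true (n false (n false (n false (n false e e) (n false e e)) (n false (n false e e) (n false e e))) (n false e e)) e) (n false (n false (n false e e) (n false e e)) (n false (n false e e) (n false e e)))) (n false e e)) 16387 .z))))))) .z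
  (.s (.s (n false (n true (n false e e) e) (n false e e)) 16389 (.s (n false e e) 16385 (.s (n false (n true (n false (n false (n false e e) (n false e e)) (n false (n false e e) (n false e e))) e) (n false e e)) 16390 (.s (n false (n false (n false e e) (n false e e)) (n false e e)) 16390 (.s (n false (n true (n true (n false (n false (n false e e) (n false e e)) (n false (n false e e) (n false e e))) e) e) (n false e e)) 16390 (.s (n false (n false (n true (n false (n false e e) (n false e e)) e) e) (n false e e)) 16390 (.s (n false (n false (n true (n false (n false (n false (n false e e) (n false e e)) (n false (n false e e) (n false e e))) (n false e e)) e) (n false (n false (n false e e) (n false e e)) (n false (n false e e) (n false e e)))) (n false e e)) 16387 .z))))))) (.s 38 14 (.s 66 2 .z))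
  (.s (.s (n false (n true (n false e e) e) (n false e e)) 16395 (.s (n false e e) 16387 (.s (n false (n false e e) (n false e e)) 16386 (.s (n false (n true (n false (n false (n false e e) (n false e e)) (n false (n false e e) (n false e e))) e) (n false e e)) 16388 .z)))) (.s 47 2 .z)
  (.s (.s (n false (n true (n false e e) e) (n false e e)) 16389 (.s (n false (n true (n false (n false (n false e e) (n false e e)) (n false (n false e e) (n false e e))) e) (n false e e)) 16390 (.s (n true (n true (n false (n false (n false (n false e e) (n false e e)) (n false (n false e e) (n false e e))) (n false e e)) e) e) 16384 (.s (n false (n true (n false (n false (n false (n false e e) (n false e e)) (n false (n false e e) (n false e e))) (n false e e)) e) (n false e e)) 16385 (.s (n false (n false e e) e) 16386 (.s (n true (n false e e) e) 16385 (.s (n false (n false (n false e e) (n false e e)) (n false e e)) 16390 (.s (n false (n false (n true (n false (n false (n false (n false e e) (n false e e)) (n false (n false e e) (n false e e))) (n false e e)) e) (n false (n false (n false e e) (n false e e)) (n false (n false e e) (n false e e)))) (n false e e)) 16386 .z)))))))) .z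
  (.s (.s (n false (n true (n false e e) e) (n false e e)) 16395 (.s (n false (n false e e) e) 16386 (.s (n false (n true (n false (n false (n false e e) (n false e e)) (n false (n false e e) (n false e e))) e) (n false e e)) 16390 (.s (n false (n false e e) (n false e e)) 16386 .z)))) (.s 47 2 .z)
  (.s (.s (n false (n true (n false e e) e) (n false e e)) 16395 (.s (n false e e) 16387 (.s (n false (n false e e) (n false e e)) 16393 .z))) (.s 47 2 .z)
  (.s (.s (n false (n true (n false e e) e) (n false e e)) 16389 (.s (n false e e) 16387 (.s (n false (n false e e) (n false e e)) 16388 (.s (n true (n true (n false (n false (n false (n false e e) (n false e e)) (n false (n false e e) (n false e e))) (n false e e)) e) e) 16384 (.s (n false (n true (n false (n false (n false e e) (n false e e)) (n false (n false e e) (n false e e))) e) (n false e e)) 16388 .z))))) (.s 47 2 .z)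
  (.s (.s (n false (n true (n false e e) e) (n false e e)) 16394 (.s (n false e e) 16387 (.s (n false (n false e e) (n false e e)) 16388 (.s (n true (n true (n false (n false (n false (n false e e) (n false e e)) (n false (n false e e) (n false e e))) (n false e e)) e) e) 16386 .z)))) (.s 47 2 .z)
  (.s (.s (n false (n true (n false e e) e) (n false e e)) 16394 (.s (n false (n false e e) (n false e e)) 16388 (.s (n false e e) 16387 (.s (n true (n true (n false (n false (n false (n false e e) (n false e e)) (n false (n false e e) (n false e e))) (n false e e)) e) e) 16386 .z)))) (.s 47 2 .z)
  (.s (.s (n false (n false e e) (n false e e)) 16395 (.s (n false (n true (n false e e) e) (n false e e)) 16389 (.s (n false (n true (n true (n false (n false (n false (n false e e) (n false e e)) (n false (n false e e) (n false e e))) (n false e e)) e) e) (n false e e)) 16392 (.s (n false (n false e e) e) 16386 (.s (n false (n false (n false e e) (n false e e)) (n false e e)) 16390 .z))))) .z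
  (.s (.s (n false (n true (n false e e) e) (n false e e)) 16389 (.s (n false (n false e e) e) 16386 (.s (n false (n true (n false (n false (n false (n false e e) (n false e e)) (n false (n false e e) (n false e e))) e) e) (n false e e)) 16390 (.s (n false (n true (n false (n false (n false e e) (n false e e)) (n false (n false e e) (n false e e))) e) (n false e e)) 16390 (.s (n false (n false (n true (n false (n false (n false (n false e e) (n false e e)) (n false (n false e e) (n false e e))) (n false e e)) e) (n false (n false (n false e e) (n false e e)) (n false (n false e e) (n false e e)))) (n false e e)) 16387 (.s (n false (n false (n true (n false (n false e e) (n false e e)) e) e) (n false e e)) 16390 .z)))))) (.s 47 2 (.s 38 14 (.s 66 2 .z)))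
  (.s (.s (n false (n true (n false e e) e) (n false e e)) 16389 (.s (n false (n false e e) e) 16386 (.s (n false (n false e e) (n false e e)) 16386 (.s (n false (n true (n false (n false (n false (n false e e) (n false e e)) (n false (n false e e) (n false e e))) e) e) (n false e e)) 16390 (.s (n false (n true (n true (n false (n false (n false (n false e e) (n false e e)) (n false (n false e e) (n false e e))) (n false e e)) e) e) (n false e e)) 16391 (.s (n false (n true (n false (n false (n false e e) (n false e e)) (n false (n false e e) (n false e e))) e) (n false e e)) 16390 (.s (n false (n false (n true (n false (n false (n false (n false e e) (n false e e)) (n false (n false e e) (n false e e))) (n false e e)) e) (n false (n false (n false e e) (n false e e)) (n false (n false e e) (n false e e)))) (n false e e)) 16387 .z))))))) (.s 47 2 (.s 38 14 (.s 66 2 .z)))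
  (.s (.s (n false (n true (n false e e) e) (n false e e)) 16389 (.s (n false (n false e e) (n false e e)) 16388 (.s (n false (n true (n false (n false (n false e e) (n false e e)) (n false (n false e e) (n false e e))) e) (n false e e)) 16390 (.s (n false (n true (n true (n false (n false (n false (n false e e) (n false e e)) (n false (n false e e) (n false e e))) (n false e e)) e) e) (n false e e)) 16392 (.s (n false (n false e e) e) 16386 (.s (n false (n true (n false (n false (n false (n false e e) (n false e e)) (n false (n false e e) (n false e e))) e) e) (n false e e)) 16390 .z)))))) (.s 47 2 .z)
  (.s (.s (n false (n true (n false e e) e) (n false e e)) 16389 (.s (n false (n false e e) e) 16386 (.s (n false (n false (n false e e) (n false e e)) (n false e e)) 16390 (.s (n false (n false e e) (n false e e)) 16388 (.s (n false (n true (n false (n false (n false e e) (n false e e)) (n false (n false e e) (n false e e))) e) (n false e e)) 16390 (.s (n true (n true (n false (n false (n false (n false e e) (n false e e)) (n false (n false e e) (n false e e))) (n false e e)) e) e) 16384 (.s (n false (n true (n true (n false (n false (n false (n false e e) (n false e e)) (n false (n false e e) (n false e e))) (n false e e)) e) e) (n false e e)) 16391 .z))))))) .z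
  (.s (.s (n false (n true (n false e e) e) (n false e e)) 16395 (.s (n false (n false e e) e) 16386 (.s (n false (n false (n true (n false (n false e e) (n false e e)) e) e) (n false e e)) 16390 (.s (n false (n true (n false (n false (n false e e) (n false e e)) (n false (n false e e) (n false e e))) e) (n false e e)) 16388 .z)))) (.s 47 2 (.s 28 5 .z))
  (.s (.s (n false (n true (n false e e) e) (n false e e)) 16395 (.s (n false (n false e e) e) 16386 (.s (n false (n false (n false e e) (n false e e)) (n false e e)) 16390 (.s (n false (n false (n true (n false (n false e e) (n false e e)) e) e) (n false e e)) 16390 (.s (n true (n true (n false (n false (n false e e) (n false e e)) (n false (n false e e) (n false e e))) e) e) 16383 (.s (n false (n true (n false (n false (n false e e) (n false e e)) (n false (n false e e) (n false e e))) e) (n false e e)) 16388 .z)))))) .z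
  (.s (.s (n false (n true (n false e e) e) (n false e e)) 16389 (.s (n true (n true (n false (n false (n false (n false e e) (n false e e)) (n false (n false e e) (n false e e))) (n false e e)) e) e) 16384 (.s (n false (n false e e) e) 16386 (.s (n true (n false (n false (n false (n false e e) (n false e e)) (n false (n false e e) (n false e e))) (n false e e)) e) 16388 (.s (n false (n false e e) (n false e e)) 16388 (.s (n false (n true (n false (n false (n false e e) (n false e e)) (n false (n false e e) (n false e e))) e) (n false e e)) 16390 (.s (n false (n false (n false e e) (n false e e)) (n false e e)) 16390 .z))))))) .z
  (.s (.s (n false (n true (n false e e) e) (n false e e)) 16394 (.s (n false (n false e e) (n false e e)) 16393 (.s (n false (n false e e) e) 16386 (.s (n false (n false (n false e e) (n false e e)) (n false e e)) 16390 (.s (n true (n true (n false (n false (n false e e) (n false e e)) (n false (n false e e) (n false e e))) e) e) 16383 (.s (n false (n true (n false (n false (n false (n false e e) (n false e e)) (n false (n false e e) (n false e e))) e) e) (n false e e)) 16390 (.s (n false (n true (n true (n false (n false (n false (n false e e) (n false e e)) (n false (n false e e) (n false e e))) (n false e e)) e) e) (n false e e)) 16392 .z))))))) .z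
  (.s (.s (n false (n true (n false e e) e) (n false e e)) 16389 (.s (n true (n true (n false (n false (n false (n false e e) (n false e e)) (n false (n false e e) (n false e e))) (n false e e)) e) e) 16384 (.s (n false (n false e e) e) 16386 (.s (n false (n false (n false e e) (n false e e)) (n false e e)) 16390 (.s (n false (n false e e) (n false e e)) 16388 (.s (n false (n true (n false (n false (n false e e) (n false e e)) (n false (n false e e) (n false e e))) e) (n false e e)) 16390 (.s (n false (n true (n true (n false (n false (n false (n false e e) (n false e e)) (n false (n false e e) (n false e e))) (n false e e)) e) e) (n false e e)) 16391 .z))))))) .z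
  (.s (.s (n false (n true (n false e e) e) (n false e e)) 16389 (.s (n false e e) 16385 (.s (n false (n false (n false e e) (n false e e)) (n false e e)) 16390 (.s (n false (n false e e) (n false e e)) 16388 (.s (n false (n true (n false (n false (n false e e) (n false e e)) (n false (n false e e) (n false e e))) e) (n false e e)) 16390 (.s (n false (n true (n false (n false (n false (n false e e) (n false e e)) (n false (n false e e) (n false e e))) e) e) (n false e e)) 16390 (.s (n false (n true (n true (n false (n false (n false (n false e e) (n false e e)) (n false (n false e e) (n false e e))) (n false e e)) e) e) (n false e e)) 16392 .z))))))) .z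
  (.s (.s (n false (n true (n false e e) e) (n false e e)) 16394 (.s (n false (n false e e) e) 16386 (.s (n false (n false (n false e e) (n false e e)) (n false e e)) 16390 (.s (n false (n true (n false (n false (n false (n false e e) (n false e e)) (n false (n false e e) (n false e e))) (n false e e)) e) (n true (n false e e) e)) 16397 (.s (n true (n false e e) e) 16385 (.s (n true (n true (n false (n false (n false e e) (n false e e)) (n false (n false e e) (n false e e))) e) e) 16383 .z)))))) (.s 66 2 .z)
  (.s (.s (n false (n true (n false e e) e) (n false e e)) 16389 (.s (n false (n false e e) e) 16386 (.s (n false (n false (n false e e) (n false e e)) (n false e e)) 16390 (.s (n false (n false e e) (n false e e)) 16388 (.s (n false (n true (n false (n false (n false e e) (n false e e)) (n false (n false e e) (n false e e))) e) (n false e e)) 16390 (.s (n true (n true (n false (n false (n false (n false e e) (n false e e)) (n false (n false e e) (n false e e))) (n false e e)) e) e) 16384 (.s (n false (n false (n true (n false (n false (n false (n false e e) (n false e e)) (n false (n false e e) (n false e e))) (n false e e)) e) (n false (n false (n false e e) (n false e e)) (n false (n false e e) (n false e e)))) (n false e e)) 16386 .z))))))) .z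
  (.s (.s (n false (n true (n false e e) e) (n false e e)) 16389 (.s (n false (n false e e) e) 16386 (.s (n false (n false (n false e e) (n false e e)) (n false e e)) 16390 (.s (n false (n true (n false (n false (n false e e) (n false e e)) (n false (n false e e) (n false e e))) e) (n false e e)) 16390 (.s (n true (n true (n false (n false (n false (n false e e) (n false e e)) (n false (n false e e) (n false e e))) (n false e e)) e) e) 16384 (.s (n false (n true (n false (n false (n false (n false e e) (n false e e)) (n false (n false e e) (n false e e))) (n false e e)) e) (n false e e)) 16385 (.s (n true (n false e e) e) 16385 (.s (n false (n false (n true (n false (n false (n false (n false e e) (n false e e)) (n false (n false e e) (n false e e))) (n false e e)) e) (n false (n false (n false e e) (n false e e)) (n false (n false e e) (n false e e)))) (n false e e)) 16386 .z)))))))) .z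
  (.s (.s (n false (n true (n false e e) e) (n false e e)) 16389 (.s (n false (n false e e) e) 16386 (.s (n false (n true (n true (n false (n false (n false e e) (n false e e)) (n false (n false e e) (n false e e))) e) e) (n false e e)) 16390 (.s (n false (n true (n false (n false (n false e e) (n false e e)) (n false (n false e e) (n false e e))) e) (n false e e)) 16390 (.s (n false (n true (n false (n false (n false (n false e e) (n false e e)) (n false (n false e e) (n false e e))) (n false e e)) e) (n true (n false e e) e)) 16392 (.s (n false (n false (n true (n false (n false e e) (n false e e)) e) e) (n false e e)) 16390 (.s (n false (n false (n true (n false (n false (n false (n false e e) (n false e e)) (n false (n false e e) (n false e e))) (n false e e)) e) (n false (n false (n false e e) (n false e e)) (n false (n false e e) (n false e e)))) (n false e e)) 16386 .z))))))) (.s 47 2 (.s 66 2 .z))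
  (.s (.s (n false (n true (n false e e) e) (n false e e)) 16389 (.s (n false (n false e e) e) 16386 (.s (n false (n true (n false (n false (n false (n false e e) (n false e e)) (n false (n false e e) (n false e e))) (n false e e)) e) (n true (n false e e) e)) 16392 (.s (n false (n true (n false (n false (n false e e) (n false e e)) (n false (n false e e) (n false e e))) e) (n false e e)) 16390 (.s (n false (n false (n true (n false (n false e e) (n false e e)) e) e) (n false e e)) 16390 (.s (n false (n false (n true (n false (n false (n false (n false e e) (n false e e)) (n false (n false e e) (n false e e))) (n false e e)) e) (n false (n false (n false e e) (n false e e)) (n false (n false e e) (n false e e)))) (n false e e)) 16386 .z)))))) (.s 47 2 (.s 66 2 .z))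
  (.s (.s (n false (n true (n false e e) e) (n false e e)) 16389 (.s (n false e e) 16387 (.s (n true (n true (n false (n false (n false (n false e e) (n false e e)) (n false (n false e e) (n false e e))) (n false e e)) e) e) 16390 (.s (n false (n false e e) (n false e e)) 16388 (.s (n false (n false (n false e e) (n false e e)) (n false e e)) 16390 .z))))) .z
  (.s (.s (n false (n true (n false e e) e) (n false e e)) 16389 (.s (n false e e) 16387 (.s (n false (n false e e) (n false e e)) 16388 (.s (n false (n true (n false (n false (n false e e) (n false e e)) (n false (n false e e) (n false e e))) e) (n false e e)) 16388 (.s (n false (n true (n false (n false (n false (n false e e) (n false e e)) (n false (n false e e) (n false e e))) e) e) (n false e e)) 16390 (.s (n false (n true (n true (n false (n false (n false (n false e e) (n false e e)) (n false (n false e e) (n false e e))) (n false e e)) e) e) (n false e e)) 16392 .z)))))) (.s 47 2 .z)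
  (.s (.s (n false (n true (n false e e) e) (n false e e)) 16389 (.s (n false e e) 16387 (.s (n false (n false e e) (n false e e)) 16394 (.s (n false (n false (n false e e) (n false e e)) (n false e e)) 16390 (.s (n true (n false (n false (n false (n false e e) (n false e e)) (n false (n false e e) (n false e e))) (n false e e)) e) 16401 .z))))) .z
  (.s (.s (n false (n true (n false e e) e) (n false e e)) 16394 (.s (n false (n true (n false (n false (n false (n false e e) (n false e e)) (n false (n false e e) (n false e e))) (n false e e)) e) (n false e e)) 16391 (.s (n false e e) 16387 (.s (n false (n false e e) (n false e e)) 16386 (.s (n false (n true (n false (n false (n false (n false e e) (n false e e)) (n false (n false e e) (n false e e))) (n false e e)) e) (n true (n false e e) e)) 16392 (.s (n false (n false (n false e e) (n false e e)) (n false e e)) 16390 .z)))))) .z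
  (.s (.s (n false (n true (n false e e) e) (n false e e)) 16389 (.s (n false (n false e e) e) 16386 (.s (n false (n true (n false (n false (n false e e) (n false e e)) (n false (n false e e) (n false e e))) e) (n false e e)) 16390 (.s (n false (n false (n true (n false (n false (n false (n false e e) (n false e e)) (n false (n false e e) (n false e e))) (n false e e)) e) (n false (n false (n false e e) (n false e e)) (n false (n false e e) (n false e e)))) (n false e e)) 16387 (.s (n false (n false (n false e e) (n false e e)) (n false e e)) 16390 (.s (n false (n false (n true (n false (n false e e) (n false e e)) e) e) (n false e e)) 16390 (.s (n false (n true (n false (n false (n false (n false e e) (n false e e)) (n false (n false e e) (n false e e))) e) e) (n false e e)) 16390 .z))))))) (.s 38 14 (.s 66 2 .z))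
  (.s (.s (n false (n true (n false e e) e) (n false e e)) 16399 (.s (n false (n false e e) e) 16386 (.s (n false (n false (n false e e) (n false e e)) (n false e e)) 16390 (.s (n false (n true (n false (n false (n false e e) (n false e e)) (n false (n false e e) (n false e e))) e) (n false e e)) 16390 .z)))) .z
  (.s (.s (n false (n true (n false e e) e) (n false e e)) 16389 (.s (n false (n false e e) (n false e e)) 16394 (.s (n false (n false e e) e) 16386 (.s (n false (n false (n false e e) (n false e e)) (n false e e)) 16390 (.s (n false (n true (n true (n false (n false (n false (n false e e) (n false e e)) (n false (n false e e) (n false e e))) (n false e e)) e) e) (n false e e)) 16392 (.s (n true (n true (n false (n false (n false e e) (n false e e)) (n false (n false e e) (n false e e))) e) e) 16383 .z)))))) .z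
  (.s (.s (n false (n true (n false e e) e) (n false e e)) 16400 (.s (n false e e) 16385 (.s (n false (n false e e) (n false e e)) 16395 (.s (n false (n false (n false e e) (n false e e)) (n false e e)) 16390 .z)))) .z
  (.s (.s (n false (n false e e) (n false e e)) 16395 (.s (n false (n true (n false e e) e) (n false e e)) 16389 (.s (n false (n false e e) e) 16386 (.s (n true (n false (n false (n false (n false e e) (n false e e)) (n false (n false e e) (n false e e))) (n false e e)) e) 16388 (.s (n false (n true (n true (n false (n false (n false (n false e e) (n false e e)) (n false (n false e e) (n false e e))) (n false e e)) e) e) (n true (n false (n false (n false (n false e e) (n false e e)) (n false (n false e e) (n false e e))) (n false e e)) e)) 16389 (.s (n false (n false (n false e e) (n false e e)) (n false e e)) 16390 .z)))))) .z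
  (.s (.s (n false (n true (n false e e) e) (n false e e)) 16394 (.s (n false (n true (n false (n false (n false (n false e e) (n false e e)) (n false (n false e e) (n false e e))) (n false e e)) e) (n false e e)) 16385 (.s (n false (n false e e) e) 16386 (.s (n false (n false e e) (n false e e)) 16386 (.s (n false (n false (n false e e) (n false e e)) (n false e e)) 16390 (.s (n false (n true (n false (n false (n false e e) (n false e e)) (n false (n false e e) (n false e e))) e) (n false e e)) 16390 (.s (n false (n true (n false (n false (n false (n false e e) (n false e e)) (n false (n false e e) (n false e e))) e) e) (n false e e)) 16390 (.s (n false (n false (n true (n false (n false (n false (n false e e) (n false e e)) (n false (n false e e) (n false e e))) (n false e e)) e) (n false (n false (n false e e) (n false e e)) (n false (n false e e) (n false e e)))) (n false e e)) 16387 .z)))))))) .z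
  (.s (.s (n false (n true (n false e e) e) (n false e e)) 16389 (.s (n false (n false e e) (n false e e)) 16393 (.s (n false e e) 16387 (.s (n true (n true (n false (n false (n false (n false e e) (n false e e)) (n false (n false e e) (n false e e))) (n false e e)) e) e) 16384 .z)))) (.s 47 2 .z)
  (.s (.s (n false (n true (n false e e) e) (n false e e)) 16394 (.s (n false (n false e e) (n false e e)) 16393 (.s (n false e e) 16387 (.s (n false (n false (n false e e) (n false e e)) (n false e e)) 16390 (.s (n false (n true (n false (n false (n false (n false e e) (n false e e)) (n false (n false e e) (n false e e))) e) e) (n false e e)) 16390 (.s (n false (n true (n true (n false (n false (n false (n false e e) (n false e e)) (n false (n false e e) (n false e e))) (n false e e)) e) e) (n false e e)) 16392 .z)))))) .z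
  (.s (.s (n false (n false e e) (n false e e)) 16395 (.s (n false (n true (n false e e) e) (n false e e)) 16389 (.s (n false e e) 16385 (.s (n false (n true (n true (n false (n false (n false (n false e e) (n false e e)) (n false (n false e e) (n false e e))) (n false e e)) e) e) (n false e e)) 16392 .z)))) (.s 47 2 .z)
  (.s (.s (n false (n true (n false e e) e) (n false e e)) 16395 (.s (n false (n false e e) (n false e e)) 16393 (.s (n false (n false e e) e) 16386 (.s (n true (n true (n false (n false (n false e e) (n false e e)) (n false (n false e e) (n false e e))) e) e) 16383 .z)))) (.s 47 2 .z)
  (.s (.s (n false (n true (n false (n false (n false (n false e e) (n false e e)) (n false (n false e e) (n false e e))) (n false e e)) e) (n true (n false e e) e)) 16397 (.s (n false (n true (n false e e) e) (n false e e)) 16389 (.s (n false (n false e e) e) 16386 (.s (n false (n false (n true (n false (n false e e) (n false e e)) e) e) (n false e e)) 16390 (.s (n false (n true (n false (n false (n false e e) (n false e e)) (n false (n false e e) (n false e e))) e) (n false e e)) 16390 (.s (n false (n true (n false (n false (n false (n false e e) (n false e e)) (n false (n false e e) (n false e e))) (n false e e)) e) (n false e e)) 16385 (.s (n false (n false (n true (n false (n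 false (n false (n false e e) (n false e e)) (n false (n false e e) (n false e e))) (n false e e)) e) (n false (n false (n false e e) (n false e e)) (n false (n false e e) (n false e e)))) (n false e e)) 16386 .z))))))) (.s 47 2 .z)
  (.s (.s (n true (n false e e) e) 16387 (.s (n false (n false e e) (n false e e)) 16388 (.s (n false (n false (n false e e) (n false e e)) (n false e e)) 16390 (.s (n true (n true (n false (n false (n false (n false e e) (n false e e)) (n false (n false e e) (n false e e))) (n false e e)) e) e) 16386 (.s (n true (n true (n false (n false (n false e e) (n false e e)) (n false (n false e e) (n false e e))) e) e) 16383 .z))))) .z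
  (.s (.s (n false (n true (n false e e) e) (n false e e)) 16389 (.s (n false e e) 16387 (.s (n false (n true (n false (n false (n false (n false e e) (n false e e)) (n false (n false e e) (n false e e))) (n false e e)) e) (n true (n false e e) e)) 16397 (.s (n false (n false (n false e e) (n false e e)) (n false e e)) 16390 (.s (n false (n false (n true (n false (n false e e) (n false e e)) e) e) (n false e e)) 16390 .z))))) (.s 66 2 .z)
  (.s (.s (n false (n true (n false e e) e) (n false e e)) 16389 (.s (n false e e) 16387 (.s (n true (n true (n false (n false (n false (n false e e) (n false e e)) (n false (n false e e) (n false e e))) (n false e e)) e) e) 16386 (.s (n true (n false e e) e) 16385 (.s (n false (n false (n false e e) (n false e e)) (n false e e)) 16390 (.s (n false (n true (n false (n false (n false (n false e e) (n false e e)) (n false (n false e e) (n false e e))) (n false e e)) e) (n true (n false e e) e)) 16392 .z)))))) (.s 66 2 .z)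
  (.s (.s (n false (n true (n false e e) e) (n false e e)) 16389 (.s (n false (n false e e) (n false e e)) 16388 (.s (n false (n false e e) e) 16386 (.s (n false (n true (n false (n false (n false e e) (n false e e)) (n false (n false e e) (n false e e))) e) (n false e e)) 16390 (.s (n false (n true (n true (n false (n false (n false (n false e e) (n false e e)) (n false (n false e e) (n false e e))) (n false e e)) e) e) (n false e e)) 16392 (.s (n false (n true (n false (n false (n false (n false e e) (n false e e)) (n false (n false e e) (n false e e))) e) e) (n false e e)) 16390 .z)))))) (.s 47 2 .z)
  (.s (.s (n true (n true (n false (n false (n false (n false e e) (n false e e)) (n false (n false e e) (n false e e))) (n false e e)) e) e) 16386 (.s (n false e e) 16387 (.s (n false (n false e e) (n false e e)) 16388 (.s (n false (n true (n false e e) e) (n false e e)) 16389 (.s (n false (n false (n false e e) (n false e e)) (n false e e)) 16390 .z))))) .z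
  (.s (.s (n false (n true (n false e e) e) (n false e e)) 16394 (.s (n true (n true (n false (n false (n false (n false e e) (n false e e)) (n false (n false e e) (n false e e))) (n false e e)) e) e) 16386 (.s (n false e e) 16387 (.s (n false (n false e e) (n false e e)) 16388 .z)))) (.s 47 2 .z)
  (.s (.s (n false (n true (n false e e) e) (n false e e)) 16395 (.s (n false e e) 16387 (.s (n true (n false e e) e) 16385 (.s (n false (n false (n false e e) (n false e e)) (n false e e)) 16390 (.s (n false (n true (n false (n false (n false e e) (n false e e)) (n false (n false e e) (n false e e))) e) (n false e e)) 16388 .z))))) .z
  (.s (.s (n false (n true (n false e e) e) (n false e e)) 16394 (.s (n true (n true (n false (n false (n false (n false e e) (n false e e)) (n false (n false e e) (n false e e))) (n false e e)) e) e) 16390 (.s (n false e e) 16387 (.s (n false (n false e e) (n false e e)) 16388 .z)))) (.s 47 2 .z)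
  (.s (.s (n false (n false e e) (n false e e)) 16395 (.s (n false (n true (n false e e) e) (n false e e)) 16389 (.s (n false e e) 16385 (.s (n true (n true (n false (n false (n false (n false e e) (n false e e)) (n false (n false e e) (n false e e))) (n false e e)) e) e) 16384 .z)))) (.s 47 2 .z)
  (.s (.s (n false (n true (n false e e) e) (n false e e)) 16389 (.s (n false (n false e e) (n false e e)) 16395 (.s (n false e e) 16385 (.s (n true (n true (n false (n false (n false (n false e e) (n false e e)) (n false (n false e e) (n false e e))) (n false e e)) e) e) 16384 .z)))) (.s 47 2 .z)
  (.s (.s (n false (n true (n false e e) e) (n false e e)) 16389 (.s (n false (n false e e) (n false e e)) 16395 (.s (n false e e) 16385 (.s (n false (n false (n false e e) (n false e e)) (n false e e)) 16390 .z)))) (.s 34 14 .z)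
  (.s (.s (n false (n true (n false e e) e) (n false e e)) 16395 (.s (n false (n false e e) (n false e e)) 16395 (.s (n false e e) 16385 (.s (n false (n false (n false e e) (n false e e)) (n false e e)) 16390 .z)))) .z
  (.s (.s (n false (n true (n false e e) e) (n false e e)) 16389 (.s (n false e e) 16387 (.s (n false (n false e e) (n false e e)) 16394 (.s (n true (n true (n false (n false (n false (n false e e) (n false e e)) (n false (n false e e) (n false e e))) (n false e e)) e) e) 16384 .z)))) (.s 47 2 .z)
  (.s (.s (n false (n true (n false e e) e) (n false e e)) 16394 (.s (n false (n false e e) e) 16386 (.s (n false (n false e e) (n false e e)) 16395 (.s (n true (n true (n false (n false (n false (n false e e) (n false e e)) (n false (n false e e) (n false e e))) (n false e e)) e) e) 16384 .z)))) (.s 47 2 .z)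
  (.s (.s (n false (n true (n false e e) e) (n false e e)) 16389 (.s (n false e e) 16385 (.s (n false (n false e e) (n false e e)) 16388 (.s (n true (n true (n false (n false (n false (n false e e) (n false e e)) (n false (n false e e) (n false e e))) (n false e e)) e) e) 16386 (.s (n true (n true (n false (n false (n false e e) (n false e e)) (n false (n false e e) (n false e e))) e) e) 16383 .z))))) (.s 47 2 .z)
  (.s (.s (n false (n true (n false e e) e) (n false e e)) 16389 (.s (n false (n false e e) e) 16386 (.s (n false (n true (n false (n false (n false e e) (n false e e)) (n false (n false e e) (n false e e))) e) (n false e e)) 16390 (.s (n false (n false (n true (n false (n false (n false (n false e e) (n false e e)) (n false (n false e e) (n false e e))) (n false e e)) e) (n false (n false (n false e e) (n false e e)) (n false (n false e e) (n false e e)))) (n false e e)) 16387 (.s (n false (n false e e) (n false e e)) 16386 (.s (n false (n true (n false (n false (n false (n false e e) (n false e e)) (n false (n false e e) (n false e e))) e) e) (n false e e)) 16390 .z)))))) (.s 47 2 (.s 38 14 (.s 66 2 .z)))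
  (.s (.s (n false (n true (n false e e) e) (n false e e)) 16389 (.s (n false e e) 16387 (.s (n true (n true (n false (n false (n false (n false e e) (n false e e)) (n false (n false e e) (n false e e))) (n false e e)) e) e) 16386 (.s (n false (n false e e) (n false e e)) 16386 (.s (n false (n true (n false (n false (n false (n false e e) (n false e e)) (n false (n false e e) (n false e e))) (n false e e)) e) (n true (n false e e) e)) 16392 .z))))) (.s 47 2 (.s 66 2 .z))
  (.s (.s (n false (n true (n false e e) e) (n false e e)) 16389 (.s (n true (n true (n false (n false (n false (n false e e) (n false e e)) (n false (n false e e) (n false e e))) (n false e e)) e) e) 16390 (.s (n false e e) 16387 (.s (n false (n false e e) (n false e e)) 16388 .z)))) (.s 47 2 .z)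
  (.s (.s (n false (n true (n false e e) e) (n false e e)) 16389 (.s (n false e e) 16385 (.s (n false (n false e e) (n false e e)) 16388 (.s (n false (n true (n false (n false (n false e e) (n false e e)) (n false (n false e e) (n false e e))) e) (n false e e)) 16390 (.s (n true (n true (n false (n false (n false (n false e e) (n false e e)) (n false (n false e e) (n false e e))) (n false e e)) e) e) 16384 .z))))) (.s 47 2 .z)
  (.s (.s (n false (n true (n false e e) e) (n false e e)) 16389 (.s (n false (n false e e) e) 16386 (.s (n true (n false (n false (n false (n false e e) (n false e e)) (n false (n false e e) (n false e e))) (n false e e)) e) 16388 (.s (n false (n false e e) (n false e e)) 16388 (.s (n false (n true (n false (n false (n false e e) (n false e e)) (n false (n false e e) (n false e e))) e) (n false e e)) 16390 (.s (n true (n true (n false (n false (n false (n false e e) (n false e e)) (n false (n false e e) (n false e e))) (n false e e)) e) e) 16384 .z)))))) (.s 47 2 .z)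
  (.s (.s (n false (n true (n false e e) e) (n false e e)) 16389 (.s (n false (n false (n false e e) (n false e e)) (n false e e)) 16390 (.s (n false (n false e e) (n false e e)) 16388 (.s (n false (n true (n false (n false (n false e e) (n false e e)) (n false (n false e e) (n false e e))) e) (n false e e)) 16390 (.s (n false (n false (n true (n false (n false (n false (n false e e) (n false e e)) (n false (n false e e) (n false e e))) (n false e e)) e) (n false (n false (n false e e) (n false e e)) (n false (n false e e) (n false e e)))) (n false e e)) 16387 (.s (n false (n false e e) e) 16386 (.s (n false (n true (n false (n false (n false (n false e e) (n false e e)) (n false (n false e e) (n false e e))) e) e) (n false e e)) 16390 .z))))))) .z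
  (.s (.s (n false (n true (n false e e) e) (n false e e)) 16389 (.s (n false e e) 16387 (.s (n false (n false e e) (n false e e)) 16388 (.s (n false (n false (n false e e) (n false e e)) (n false e e)) 16390 (.s (n false (n true (n false (n false (n false e e) (n false e e)) (n false (n false e e) (n false e e))) e) (n false e e)) 16388 (.s (n false (n true (n false (n false (n false (n false e e) (n false e e)) (n false (n false e e) (n false e e))) e) e) (n false e e)) 16390 (.s (n false (n true (n true (n false (n false (n false (n false e e) (n false e e)) (n false (n false e e) (n false e e))) (n false e e)) e) e) (n false e e)) 16392 .z))))))) .z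
  (.s (.s (n false (n true (n false e e) e) (n false e e)) 16389 (.s (n false (n false e e) e) 16386 (.s (n false (n false e e) (n false e e)) 16388 (.s (n false (n true (n false (n false (n false e e) (n false e e)) (n false (n false e e) (n false e e))) e) (n false e e)) 16390 (.s (n false (n true (n true (n false (n false (n false (n false e e) (n false e e)) (n false (n false e e) (n false e e))) (n false e e)) e) e) (n false e e)) 16392 (.s (n false (n false (n false e e) (n false e e)) (n false e e)) 16390 (.s (n false (n true (n false (n false (n false (n false e e) (n false e e)) (n false (n false e e) (n false e e))) e) e) (n false e e)) 16390 .z))))))) .z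
  (.s (.s (n false (n true (n false e e) e) (n false e e)) 16394 (.s (n false (n false e e) e) 16386 (.s (n false (n true (n false (n false (n false e e) (n false e e)) (n false (n false e e) (n false e e))) e) (n false e e)) 16390 (.s (n false (n false (n false e e) (n false e e)) (n false e e)) 16390 (.s (n false (n false (n true (n false (n false e e) (n false e e)) e) e) (n false e e)) 16390 (.s (n false (n true (n false (n false (n false (n false e e) (n false e e)) (n false (n false e e) (n false e e))) e) e) (n false e e)) 16390 (.s (n false (n true (n true (n false (n false (n false (n false e e) (n false e e)) (n false (n false e e) (n false e e))) (n false e e)) e) e) (n false e e)) 16392 .z))))))) (.s 38 14 (.s 66 2 .z))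
  (.s (.s (n false (n true (n false e e) e) (n false e e)) 16389 (.s (n false (n true (n false (n false (n false (n false e e) (n false e e)) (n false (n false e e) (n false e e))) (n false e e)) e) (n true (n false e e) e)) 16397 (.s (n false e e) 16385 (.s (n false (n false (n false e e) (n false e e)) (n false e e)) 16390 (.s (n false (n false (n true (n false (n false e e) (n false e e)) e) e) (n false e e)) 16390 (.s (n true (n true (n false (n false (n false e e) (n false e e)) (n false (n false e e) (n false e e))) e) e) 16383 .z)))))) (.s 66 2 .z)
  (.s (.s (n false (n true (n false (n false (n false (n false e e) (n false e e)) (n false (n false e e) (n false e e))) (n false e e)) e) (n true (n false e e) e)) 16397 (.s (n false (n true (n false e e) e) (n false e e)) 16389 (.s (n false (n false e e) e) 16386 (.s (n false (n true (n false (n false (n false (n false e e) (n false e e)) (n false (n false e e) (n false e e))) (n false e e)) e) (n false e e)) 16385 (.s (n false (n true (n true (n false (n false (n false (n false e e) (n false e e)) (n false (n false e e) (n false e e))) (n false e e)) e) e) (n false e e)) 16391 (.s (n false (n false (n true (n false (n false e e) (n false e e)) e) e) (n false e e)) 16390 (.s (n true (n true (n false (n false (n false e e) (n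 false e e)) (n false (n false e e) (n false e e))) e) e) 16383 .z))))))) (.s 47 2 .z)
  (.s (.s (n false (n true (n false e e) e) (n false e e)) 16401 (.s (n false (n false e e) e) 16386 (.s (n false (n false e e) (n false e e)) 16395 .z))) .z
  (.s (.s (n false (n true (n false e e) e) (n false e e)) 16389 (.s (n false (n true (n false (n false (n false e e) (n false e e)) (n false (n false e e) (n false e e))) e) (n false e e)) 16390 (.s (n false (n false e e) e) 16386 (.s (n false (n true (n false (n false (n false (n false e e) (n false e e)) (n false (n false e e) (n false e e))) e) e) (n false e e)) 16390 (.s (n false (n false (n true (n false (n false (n false (n false e e) (n false e e)) (n false (n false e e) (n false e e))) (n false e e)) e) (n false (n false (n false e e) (n false e e)) (n false (n false e e) (n false e e)))) (n false e e)) 16387 (.s (n false (n false (n true (n false (n false e e) (n false e e)) e) e) (n false e e)) 16390 .z)))))) (.s 47 2 (.s 38 14 (.s 66 2 .z)))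
  (.s (.s (n false (n true (n false e e) e) (n false e e)) 16389 (.s (n false (n true (n false (n false (n false (n false e e) (n false e e)) (n false (n false e e) (n false e e))) (n false e e)) e) (n true (n false e e) e)) 16392 (.s (n false (n false e e) e) 16386 (.s (n false (n true (n true (n false (n false (n false (n false e e) (n false e e)) (n false (n false e e) (n false e e))) (n false e e)) e) e) (n false e e)) 16391 (.s (n false (n true (n false (n false (n false e e) (n false e e)) (n false (n false e e) (n false e e))) e) (n false e e)) 16390 (.s (n false (n false (n true (n false (n false e e) (n false e e)) e) e) (n false e e)) 16390 .z)))))) (.s 47 2 (.s 66 2 .z))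
  (.s (.s (n false (n true (n false e e) e) (n false e e)) 16394 (.s (n false (n false e e) (n false e e)) 16388 (.s (n false (n false e e) e) 16386 (.s (n false (n true (n false (n false (n false e e) (n false e e)) (n false (n false e e) (n false e e))) e) (n false e e)) 16390 (.s (n false (n true (n false (n false (n false (n false e e) (n false e e)) (n false (n false e e) (n false e e))) e) e) (n false e e)) 16390 (.s (n false (n true (n true (n false (n false (n false (n false e e) (n false e e)) (n false (n false e e) (n false e e))) (n false e e)) e) e) (n false e e)) 16392 .z)))))) (.s 47 2 .z)
  (.s (.s (n false (n true (n false e e) e) (n false e e)) 16389 (.s (n false (n false e e) (n false e e)) 16388 (.s (n false (n true (n false (n false (n false e e) (n false e e)) (n false (n false e e) (n false e e))) e) (n false e e)) 16390 (.s (n false (n true (n true (n false (n false (n false (n false e e) (n false e e)) (n false (n false e e) (n false e e))) (n false e e)) e) e) (n false e e)) 16392 (.s (n false (n false e e) e) 16386 (.s (n false (n false (n false e e) (n false e e)) (n false e e)) 16390 (.s (n false (n true (n false (n false (n false (n false e e) (n false e e)) (n false (n false e e) (n false e e))) e) e) (n false e e)) 16390 .z))))))) .z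
  (.s (.s (n false (n true (n false e e) e) (n false e e)) 16394 (.s (n false (n false e e) e) 16386 (.s (n false (n false e e) (n false e e)) 16393 (.s (n false (n false (n false e e) (n false e e)) (n false e e)) 16390 (.s (n false (n true (n false (n false (n false e e) (n false e e)) (n false (n false e e) (n false e e))) e) (n false e e)) 16390 (.s (n false (n true (n false (n false (n false (n false e e) (n false e e)) (n false (n false e e) (n false e e))) e) e) (n false e e)) 16390 (.s (n false (n true (n true (n false (n false (n false (n false e e) (n false e e)) (n false (n false e e) (n false e e))) (n false e e)) e) e) (n false e e)) 16392 .z))))))) .z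
  (.s (.s (n false (n true (n false e e) e) (n false e e)) 16394 (.s (n false (n true (n false (n false (n false (n false e e) (n false e e)) (n false (n false e e) (n false e e))) (n false e e)) e) (n false e e)) 16385 (.s (n false (n false e e) e) 16386 (.s (n false (n false (n false e e) (n false e e)) (n false e e)) 16390 (.s (n false (n true (n false (n false (n false e e) (n false e e)) (n false (n false e e) (n false e e))) e) (n false e e)) 16390 (.s (n false (n false e e) (n false e e)) 16386 (.s (n false (n true (n false (n false (n false (n false e e) (n false e e)) (n false (n false e e) (n false e e))) e) e) (n false e e)) 16390 (.s (n false (n true (n true (n false (n false (n false (n false e e) (n false e e)) (n false (n false e e) (n false e e))) (n false e e)) e) e) (n false e e)) 16392 .z)))))))) .z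
  (.s (.s (n false (n true (n false e e) e) (n false e e)) 16389 (.s (n false (n false e e) e) 16386 (.s (n false (n false (n false e e) (n false e e)) (n false e e)) 16390 (.s (n false (n false e e) (n false e e)) 16388 (.s (n false (n true (n false (n false (n false e e) (n false e e)) (n false (n false e e) (n false e e))) e) (n false e e)) 16390 (.s (n false (n false (n true (n false (n false (n false (n false e e) (n false e e)) (n false (n false e e) (n false e e))) (n false e e)) e) (n false (n false (n false e e) (n false e e)) (n false (n false e e) (n false e e)))) (n false e e)) 16387 (.s (n false (n true (n false (n false (n false (n false e e) (n false e e)) (n false (n false e e) (n false e e))) e) e) (n false e e)) 16390 .z))))))) .z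
  (.s (.s (n false (n false (n false e e) (n false e e)) (n false e e)) 16390 (.s (n false (n true (n false e e) e) (n false e e)) 16389 (.s (n false (n false e e) (n false e e)) 16388 (.s (n false (n true (n false (n false (n false e e) (n false e e)) (n false (n false e e) (n false e e))) e) (n false e e)) 16390 (.s (n false (n false (n true (n false (n false (n false (n false e e) (n false e e)) (n false (n false e e) (n false e e))) (n false e e)) e) (n false (n false (n false e e) (n false e e)) (n false (n false e e) (n false e e)))) (n false e e)) 16387 (.s (n false (n false e e) e) 16386 (.s (n false (n true (n false (n false (n false (n false e e) (n false e e)) (n false (n false e e) (n false e e))) e) e) (n false e e)) 16390 .z))))))) .z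
  (.s (.s (n false (n true (n false e e) e) (n false e e)) 16389 (.s (n false (n false e e) e) 16386 (.s (n false (n false (n false e e) (n false e e)) (n false e e)) 16390 (.s (n false (n true (n true (n false (n false (n false e e) (n false e e)) (n false (n false e e) (n false e e))) e) e) (n false e e)) 16390 (.s (n false (n true (n false (n false (n false (n false e e) (n false e e)) (n false (n false e e) (n false e e))) (n false e e)) e) (n true (n false e e) e)) 16392 (.s (n false (n false (n true (n false (n false e e) (n false e e)) e) e) (n false e e)) 16390 (.s (n true (n true (n false (n false (n false e e) (n false e e)) (n false (n false e e) (n false e e))) e) e) 16383 (.s (n false (n true (n false (n false (n false (n false e e) (n false e e)) (n false (n false e e) (n false e e))) (n false e e)) e) (n true (n false (n false (n false e e) (n false e e)) (n false (n false e e) (n false e e))) e)) 16385 (.s (n false (n false (n true (n false (n false (n false (n false e e) (n false e e)) (n false (n false e e) (n false e e))) (n false e e)) e) (n false (n false (n false e e) (n false e e)) (n false (n false e e) (n false e e)))) (n false e e)) 16386 .z))))))))) (.s 66 2 .z)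
  (.s (.s (n false (n true (n false e e) e) (n false e e)) 16389 (.s (n false (n false e e) e) 16386 (.s (n false (n true (n false (n false (n false (n false e e) (n false e e)) (n false (n false e e) (n false e e))) (n false e e)) e) (n true (n false e e) e)) 16392 (.s (n false (n true (n false (n false (n false e e) (n false e e)) (n false (n false e e) (n false e e))) e) (n false e e)) 16390 (.s (n false (n false (n false e e) (n false e e)) (n false e e)) 16390 (.s (n false (n false (n true (n false (n false e e) (n false e e)) e) e) (n false e e)) 16390 (.s (n true (n false (n true (n false (n false (n false (n false e e) (n false e e)) (n false (n false e e) (n false e e))) (n false e e)) e) (n false (n false (n false e e) (n false e e)) (n false (n false e e) (n false e e)))) e) 16385 .z))))))) (.s 66 2 .z)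
  (.s (.s (n false (n true (n false e e) e) (n false e e)) 16389 (.s (n false (n false e e) e) 16386 (.s (n true (n true (n false (n false (n false (n false e e) (n false e e)) (n false (n false e e) (n false e e))) (n false e e)) e) e) 16386 (.s (n false (n false (n false e e) (n false e e)) (n false e e)) 16390 (.s (n false (n false (n true (n false (n false e e) (n false e e)) e) e) (n false e e)) 16390 (.s (n true (n true (n false (n false (n false e e) (n false e e)) (n false (n false e e) (n false e e))) e) e) 16383 (.s (n false (n true (n false (n false (n false (n false e e) (n false e e)) (n false (n false e e) (n false e e))) (n false e e)) e) (n true (n false e e) e)) 16392 (.s (n true (n false (n true (n false (n false (n false (n false e e) (n false e e)) (n false (n false e e) (n false e e))) (n false e e)) e) (n false (n false (n false e e) (n false e e)) (n false (n false e e) (n false e e)))) e) 16385 .z)))))))) (.s 66 2 .z)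
  (.s (.s (n false (n true (n false e e) e) (n false e e)) 16389 (.s (n false (n false e e) e) 16386 (.s (n false (n false (n false e e) (n false e e)) (n false e e)) 16390 (.s (n false (n true (n false (n false (n false (n false e e) (n false e e)) (n false (n false e e) (n false e e))) (n false e e)) e) (n true (n false e e) e)) 16392 (.s (n false (n false (n true (n false (n false e e) (n false e e)) e) e) (n false e e)) 16390 (.s (n true (n true (n false (n false (n false e e) (n false e e)) (n false (n false e e) (n false e e))) e) e) 16383 (.s (n false (n true (n false (n false (n false (n false e e) (n false e e)) (n false (n false e e) (n false e e))) (n false e e)) e) (n true (n false (n false (n false e e) (n false e e)) (n false (n false e e) (n false e e))) e)) 16385 (.s (n true (n false (n true (n false (n false (n false (n false e e) (n false e e)) (n false (n false e e) (n false e e))) (n false e e)) e) (n false (n false (n false e e) (n false e e)) (n false (n false e e) (n false e e)))) e) 16385 .z)))))))) (.s 66 2 .z)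
  (.s (.s (n false (n false e e) (n false e e)) 16388 (.s (n false (n true (n false e e) e) (n false e e)) 16389 (.s (n false (n true (n false (n false (n false e e) (n false e e)) (n false (n false e e) (n false e e))) e) (n false e e)) 16390 (.s (n false (n true (n true (n false (n false (n false (n false e e) (n false e e)) (n false (n false e e) (n false e e))) (n false e e)) e) e) (n false e e)) 16392 (.s (n false (n false e e) e) 16386 (.s (n false (n true (n false (n false (n false (n false e e) (n false e e)) (n false (n false e e) (n false e e))) e) e) (n false e e)) 16390 .z)))))) (.s 47 2 .z)
  (.s (.s (n false (n true (n false e e) e) (n false e e)) 16389 (.s (n false (n true (n false (n false (n false e e) (n false e e)) (n false (n false e e) (n false e e))) e) (n false e e)) 16390 (.s (n false (n false (n true (n false (n false (n false (n false e e) (n false e e)) (n false (n false e e) (n false e e))) (n false e e)) e) (n false (n false (n false e e) (n false e e)) (n false (n false e e) (n false e e)))) (n false e e)) 16387 (.s (n false (n false e e) e) 16386 (.s (n false (n true (n false (n false (n false (n false e e) (n false e e)) (n false (n false e e) (n false e e))) e) e) (n false e e)) 16390 (.s (n false (n false (n true (n false (n false e e) (n false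 e e)) e) e) (n false e e)) 16390 .z)))))) (.s 47 2 (.s 38 14 (.s 66 2 .z)))
  (.s (.s (n false (n true (n false e e) e) (n false e e)) 16395 (.s (n false (n false (n false e e) (n false e e)) (n false e e)) 16390 (.s (n false (n true (n false (n false (n false e e) (n false e e)) (n false (n false e e) (n false e e))) e) (n false e e)) 16390 (.s (n false (n false e e) e) 16386 (.s (n false (n false (n true (n false (n false e e) (n false e e)) e) e) (n false e e)) 16390 .z))))) .z
  (.s (.s (n false (n false (n false e e) (n false e e)) (n false e e)) 16390 (.s (n false (n false (n false (n false (n false (n false e e) (n false e e)) (n false (n false e e) (n false e e))) (n false e e)) (n true (n false (n false (n false e e) (n false e e)) (n false (n false e e) (n false e e))) e)) (n false e e)) 16387 (.s (n false (n true (n false e e) e) (n false e e)) 16389 (.s (n false (n true (n false (n false (n false (n false e e) (n false e e)) (n false (n false e e) (n false e e))) (n false e e)) e) (n true (n false e e) e)) 16392 (.s (n false (n false e e) e) 16386 (.s (n false (n false (n true (n false (n false e e) (n false e e)) e) e) (n false e e)) 16390 (.s (n true (n true (n false (n false (n false e e) (n false e e)) (n false (n false e e) (n false e e))) e) e) 16383 (.s (n false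 (n true (n false (n false (n false (n false e e) (n false e e)) (n false (n false e e) (n false e e))) (n false e e)) e) (n true (n false (n false (n false e e) (n false e e)) (n false (n false e e) (n false e e))) e)) 16385 (.s (n false (n false (n true (n false (n false (n false (n false e e) (n false e e)) (n false (n false e e) (n false e e))) (n false e e)) e) (n false (n false (n false e e) (n false e e)) (n false (n false e e) (n false e e)))) (n false e e)) 16386 .z))))))))) (.s 66 2 .z)
  (.s (.s (n false e e) 16387 (.s (n false (n false (n false e e) (n false e e)) (n false e e)) 16390 (.s (n false (n true (n false e e) e) (n false e e)) 16389 (.s (n false (n true (n false (n false (n false (n false e e) (n false e e)) (n false (n false e e) (n false e e))) (n false e e)) e) (n false e e)) 16385 (.s (n false (n false e e) (n false e e)) 16386 (.s (n false (n true (n false (n false (n false e e) (n false e e)) (n false (n false e e) (n false e e))) e) (n false e e)) 16388 (.s (n false (n true (n false (n false (n false (n false e e) (n false e e)) (n false (n false e e) (n false e e))) e) e) (n false e e)) 16390 (.s (n false (n true (n true (n false (n false (n false (n false e e) (n false e e)) (n false (n false e e) (n false e e))) (n false e e)) e) e) (n false e e))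 16392 .z)))))))) .z
  (.s (.s (n false (n true (n false e e) e) (n false e e)) 16389 (.s (n false (n false (n true (n false (n false (n false (n false e e) (n false e e)) (n false (n false e e) (n false e e))) (n false e e)) e) (n false (n false (n false e e) (n false e e)) (n false (n false e e) (n false e e)))) (n false e e)) 16387 (.s (n false (n false e e) e) 16386 (.s (n false (n false (n false e e) (n false e e)) (n false e e)) 16390 (.s (n false (n true (n false (n false (n false e e) (n false e e)) (n false (n false e e) (n false e e))) e) (n false e e)) 16390 (.s (n false (n false (n true (n false (n false e e) (n false e e)) e) e) (n false e e)) 16390 (.s (n false (n true (n false (n false (n false (n false e e) (n false e e)) (n false (n false e e) (n false e e))) e) e) (n false e e)) 16390 .z))))))) (.s 38 14 (.s 66 2 .z))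
  (.s (.s (n true (n false e e) e) 16387 (.s (n false (n false e e) (n false e e)) 16388 (.s (n true (n true (n false (n false (n false (n false e e) (n false e e)) (n false (n false e e) (n false e e))) (n false e e)) e) e) 16386 (.s (n false (n false (n false e e) (n false e e)) (n false e e)) 16390 (.s (n true (n true (n false (n false (n false e e) (n false e e)) (n false (n false e e) (n false e e))) e) e) 16383 .z))))) .z
  (.s (.s (n false (n true (n false e e) e) (n false e e)) 16399 (.s (n false (n true (n false (n false (n false e e) (n false e e)) (n false (n false e e) (n false e e))) e) (n false e e)) 16390 (.s (n false (n false e e) e) 16386 .z))) (.s 47 2 .z)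
  (.s (.s (n false (n true (n false e e) e) (n false e e)) 16395 (.s (n false (n false e e) (n false e e)) 16395 (.s (n false e e) 16385 .z))) (.s 47 2 .z)
  (.s (.s (n false (n true (n false e e) e) (n false e e)) 16395 (.s (n false e e) 16385 (.s (n false (n false e e) (n false e e)) 16395 .z))) (.s 47 2 .z)
  (.s (.s (n false (n true (n false e e) e) (n false e e)) 16395 (.s (n false (n false e e) (n false e e)) 16395 (.s (n false (n false e e) e) 16386 .z))) (.s 47 2 .z)
  (.s (.s (n false (n true (n false e e) e) (n false e e)) 16395 (.s (n false (n false e e) e) 16386 (.s (n false (n false e e) (n false e e)) 16395 .z))) (.s 47 2 .z)
  (.s (.s (n false (n true (n false e e) e) (n false e e)) 16394 (.s (n false (n false e e) (n false e e)) 16388 (.s (n true (n true (n false (n false (n false (n false e e) (n false e e)) (n false (n false e e) (n false e e))) (n false e e)) e) e) 16386 (.s (n false e e) 16387 .z)))) (.s 47 2 .z)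
  (.s (.s (n false (n false e e) (n false e e)) 16395 (.s (n false (n true (n false e e) e) (n false e e)) 16389 (.s (n false (n false e e) e) 16386 (.s (n false (n false (n true (n false (n false (n false (n false e e) (n false e e)) (n false (n false e e) (n false e e))) (n false e e)) e) (n false (n false (n false e e) (n false e e)) (n false (n false e e) (n false e e)))) (n false e e)) 16387 .z)))) (.s 47 2 .z)
  (.s (.s (n false (n true (n false e e) e) (n false e e)) 16395 (.s (n false e e) 16387 (.s (n false (n false e e) (n false e e)) 16386 (.s (n false (n false (n false e e) (n false e e)) (n false e e)) 16390 (.s (n false (n true (n false (n false (n false e e) (n false e e)) (n false (n false e e) (n false e e))) e) (n false e e)) 16388 .z))))) .z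
  (.s (.s (n false (n true (n false e e) e) (n false e e)) 16389 (.s (n false (n false e e) e) 16386 (.s (n false (n false (n false e e) (n false e e)) (n false e e)) 16390 (.s (n false (n true (n false (n false (n false e e) (n false e e)) (n false (n false e e) (n false e e))) e) (n false e e)) 16388 (.s (n false (n false (n true (n false (n false (n false (n false e e) (n false e e)) (n false (n false e e) (n false e e))) (n false e e)) e) (n false (n false (n false e e) (n false e e)) (n false (n false e e) (n false e e)))) (n false e e)) 16387 (.s (n false (n false (n true (n false (n false e e) (n false e e)) e) e) (n false e e)) 16390 (.s (n false (n true (n false (n false (n false (n false e e) (n false e e)) (n false (n false e e) (n false e e))) e) e) (n false e e)) 16390 .z))))))) (.s 28 5 (.s 38 14 (.s 66 2 .z)))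
  (.s (.s (n false (n true (n false e e) e) (n false e e)) 16395 (.s (n false e e) 16387 (.s (n true (n false e e) e) 16385 (.s (n false (n true (n false (n false (n false e e) (n false e e)) (n false (n false e e) (n false e e))) e) (n false e e)) 16388 .z)))) (.s 47 2 .z)
  (.s (.s (n false (n true (n false e e) e) (n false e e)) 16395 (.s (n true (n false e e) e) 16386 (.s (n false (n true (n false (n false (n false e e) (n false e e)) (n false (n false e e) (n false e e))) e) (n false e e)) 16390 (.s (n false (n false (n false e e) (n false e e)) (n false e e)) 16390 .z)))) .z
  (.s (.s (n false (n true (n false e e) e) (n false e e)) 16394 (.s (n false (n false e e) (n false e e)) 16388 (.s (n false (n true (n false (n false (n false e e) (n false e e)) (n false (n false e e) (n false e e))) e) (n false e e)) 16390 (.s (n false (n true (n false (n false (n false (n false e e) (n false e e)) (n false (n false e e) (n false e e))) (n false e e)) e) (n true (n false e e) e)) 16392 (.s (n false (n false e e) e) 16386 .z))))) (.s 47 2 .z)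
  (.s (.s (n false (n true (n false e e) e) (n false e e)) 16389 (.s (n false (n false e e) (n false e e)) 16388 (.s (n false (n true (n false (n false (n false e e) (n false e e)) (n false (n false e e) (n false e e))) e) (n false e e)) 16390 (.s (n false (n false e e) e) 16386 (.s (n false (n true (n true (n false (n false (n false (n false e e) (n false e e)) (n false (n false e e) (n false e e))) (n false e e)) e) e) (n false e e)) 16392 (.s (n false (n true (n false (n false (n false (n false e e) (n false e e)) (n false (n false e e) (n false e e))) e) e) (n false e e)) 16390 .z)))))) (.s 47 2 .z)
  (.s (.s (n false (n false e e) (n false e e)) 16395 (.s (n false (n true (n false e e) e) (n false e e)) 16389 (.s (n false (n false e e) e) 16386 (.s (n false (n true (n true (n false (n false (n false (n false e e) (n false e e)) (n false (n false e e) (n false e e))) (n false e e)) e) e) (n false e e)) 16392 .z)))) (.s 47 2 .z)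
  (.s (.s (n false (n true (n false e e) e) (n false e e)) 16394 (.s (n false (n false e e) (n false e e)) 16395 (.s (n false e e) 16385 (.s (n false (n false (n false e e) (n false e e)) (n false e e)) 16390 (.s (n true (n true (n false (n false (n false (n false e e) (n false e e)) (n false (n false e e) (n false e e))) (n false e e)) e) e) 16384 .z))))) .z
  (.s (.s (n false (n true (n false e e) e) (n false e e)) 16394 (.s (n false (n false e e) (n false e e)) 16393 (.s (n false (n false e e) e) 16386 (.s (n true (n true (n false (n false (n false e e) (n false e e)) (n false (n false e e) (n false e e))) e) e) 16383 (.s (n false (n true (n false (n false (n false (n false e e) (n false e e)) (n false (n false e e) (n false e e))) e) e) (n false e e)) 16390 (.s (n false (n true (n true (n false (n false (n false (n false e e) (n false e e)) (n false (n false e e) (n false e e))) (n false e e)) e) e) (n false e e)) 16392 .z)))))) (.s 47 2 .z)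
  (.s (.s (n false (n true (n false e e) e) (n false e e)) 16394 (.s (n false (n false e e) e) 16386 (.s (n false (n false e e) (n false e e)) 16393 (.s (n true (n true (n false (n false (n false e e) (n false e e)) (n false (n false e e) (n false e e))) e) e) 16383 (.s (n false (n true (n false (n false (n false (n false e e) (n false e e)) (n false (n false e e) (n false e e))) e) e) (n false e e)) 16390 (.s (n false (n true (n true (n false (n false (n false (n false e e) (n false e e)) (n false (n false e e) (n false e e))) (n false e e)) e) e) (n false e e)) 16392 .z)))))) (.s 47 2 .z)
  (.s (.s (n false (n true (n false e e) e) (n false e e)) 16389 (.s (n false (n false e e) (n false e e)) 16388 (.s (n false (n true (n false (n false (n false (n false e e) (n false e e)) (n false (n false e e) (n false e e))) (n false e e)) e) (n true (n false e e) e)) 16392 (.s (n false (n false e e) e) 16386 (.s (n false (n true (n false (n false (n false e e) (n false e e)) (n false (n false e e) (n false e e))) e) (n false e e)) 16390 (.s (n false (n true (n true (n false (n false (n false (n false e e) (n false e e)) (n false (n false e e) (n false e e))) (n false e e)) e) e) (n false e e)) 16391 .z)))))) (.s 47 2 .z)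
  (.s (.s (n true (n false e e) e) 16387 (.s (n false (n false e e) (n false e e)) 16388 (.s (n false (n false (n false e e) (n false e e)) (n false e e)) 16390 (.s (n false (n true (n false (n false (n false e e) (n false e e)) (n false (n false e e) (n false e e))) e) (n false e e)) 16390 .z)))) .z
  (.s (.s (n true (n false e e) e) 16389 (.s (n false (n false (n false e e) (n false e e)) (n false e e)) 16390 (.s (n true (n true (n false (n false (n false (n false e e) (n false e e)) (n false (n false e e) (n false e e))) (n false e e)) e) e) 16390 .z))) .z
  (.s (.s (n false (n true (n false e e) e) (n false e e)) 16394 (.s (n false (n true (n false (n false (n false (n false e e) (n false e e)) (n false (n false e e) (n false e e))) (n false e e)) e) (n false e e)) 16385 (.s (n false e e) 16385 (.s (n false (n false (n false e e) (n false e e)) (n false e e)) 16390 (.s (n false (n true (n false (n false (n false e e) (n false e e)) (n false (n false e e) (n false e e))) e) (n false e e)) 16390 (.s (n false (n false e e) (n false e e)) 16386 (.s (n false (n true (n false (n false (n false (n false e e) (n false e e)) (n false (n false e e) (n false e e))) e) e) (n false e e)) 16390 (.s (n false (n true (n true (n false (n false (n false (n false e e) (n false e e)) (n false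 (n false e e) (n false e e))) (n false e e)) e) e) (n false e e)) 16392 .z)))))))) .z
  (.s (.s (n true (n false e e) e) 16388 (.s (n false (n false (n false e e) (n false e e)) (n false e e)) 16390 (.s (n true (n true (n false (n false (n false (n false e e) (n false e e)) (n false (n false e e) (n false e e))) (n false e e)) e) e) 16390 .z))) .z
  (.s (.s (n false (n true (n false e e) e) (n false e e)) 16389 (.s (n false (n false e e) e) 16386 (.s (n false (n false (n true (n false (n false (n false (n false e e) (n false e e)) (n false (n false e e) (n false e e))) (n false e e)) e) (n false (n false (n false e e) (n false e e)) (n false (n false e e) (n false e e)))) (n false e e)) 16387 (.s (n false (n false (n false e e) (n false e e)) (n false e e)) 16390 (.s (n false (n false (n true (n false (n false e e) (n false e e)) e) e) (n false e e)) 16390 (.s (n true (n true (n false (n false (n false e e) (n false e e)) (n false (n false e e) (n false e e))) e) e) 16383 (.s (n false (n true (n false (n false (n false (n false e e) (n false e e)) (n false (n false e e) (n false e e))) e) e) (n false e e)) 16390 (.s (n false (n true (n false (n false (n false (n false e e) (n false e e)) (n false (n false e e) (n false e e))) (n false e e)) e) (n true (n false (n false (n false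 e e) (n false e e)) (n false (n false e e) (n false e e))) e)) 16385 .z)))))))) (.s 38 14 (.s 66 2 .z))
  (.s (.s (n false (n true (n false e e) e) (n false e e)) 16395 (.s (n false (n true (n false (n false (n false e e) (n false e e)) (n false (n false e e) (n false e e))) e) (n false e e)) 16390 (.s (n false (n false (n false e e) (n false e e)) (n false e e)) 16390 (.s (n false (n false e e) e) 16386 (.s (n false (n false e e) (n false e e)) 16386 .z))))) .z
  (.s (.s (n false (n true (n false e e) e) (n false e e)) 16395 (.s (n false (n false e e) e) 16386 (.s (n false (n true (n false (n false (n false (n false e e) (n false e e)) (n false (n false e e) (n false e e))) (n false e e)) e) (n true (n false e e) e)) 16397 (.s (n false (n false e e) (n false e e)) 16386 (.s (n true (n true (n false (n false (n false e e) (n false e e)) (n false (n false e e) (n false e e))) e) e) 16383 .z))))) (.s 47 2 .z)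
  (.s (.s (n false (n true (n false e e) e) (n false e e)) 16394 (.s (n false (n false e e) (n false e e)) 16395 (.s (n false e e) 16385 (.s (n true (n true (n false (n false (n false (n false e e) (n false e e)) (n false (n false e e) (n false e e))) (n false e e)) e) e) 16384 .z)))) (.s 47 2 .z)
  (.s (.s (n false e e) 16404 (.s (n false (n true (n false e e) e) (n false e e)) 16389 (.s (n false (n false e e) (n false e e)) 16388 .z))) (.s 47 2 .z)
  (.s (.s (n false (n true (n false e e) e) (n false e e)) 16389 (.s (n false (n true (n false (n false (n false e e) (n false e e)) (n false (n false e e) (n false e e))) e) (n false e e)) 16390 (.s (n false (n true (n true (n false (n false (n false (n false e e) (n false e e)) (n false (n false e e) (n false e e))) (n false e e)) e) e) (n false e e)) 16392 (.s (n false (n false e e) e) 16386 (.s (n false (n false (n false e e) (n false e e)) (n false e e)) 16390 (.s (n false (n true (n false (n false (n false (n false e e) (n false e e)) (n false (n false e e) (n false e e))) e) e) (n false e e)) 16390 (.s (n false (n true (n false (n false (n false (n false e e) (n false e e)) (n false (n false e e) (n false e e))) (n false e e)) e) (n false e e)) 16385 (.s (n false (n false (n true (n false (n false e e) (n false e e)) e) e) (n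 false e e)) 16390 .z)))))))) .z
  (.s (.s (n false (n true (n false e e) e) (n false e e)) 16389 (.s (n false (n false (n false e e) (n false e e)) (n false e e)) 16390 (.s (n false (n true (n false (n false (n false e e) (n false e e)) (n false (n false e e) (n false e e))) e) (n false e e)) 16390 (.s (n true (n true (n false (n false (n false (n false e e) (n false e e)) (n false (n false e e) (n false e e))) (n false e e)) e) e) 16384 (.s (n false (n true (n false (n false (n false (n false e e) (n false e e)) (n false (n false e e) (n false e e))) (n false e e)) e) (n false e e)) 16385 (.s (n false (n false e e) e) 16386 (.s (n false (n false (n true (n false (n false e e) (n false e e)) e) e) (n false e e)) 16390 (.s (n false (n false (n true (n false (n false (n false (n false e e) (n false e e)) (n false (n false e e) (n false e e))) (n false e e)) e) (n false (n false (n false e e) (n false e e)) (n false (n false e e) (n false e e)))) (n false e e)) 16386 .z)))))))) .z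
  (.s (.s (n false (n true (n false e e) e) (n false e e)) 16389 (.s (n false (n false (n false e e) (n false e e)) (n false e e)) 16390 (.s (n false (n true (n false (n false (n false e e) (n false e e)) (n false (n false e e) (n false e e))) e) (n false e e)) 16390 (.s (n false (n false (n true (n false (n false (n false (n false e e) (n false e e)) (n false (n false e e) (n false e e))) (n false e e)) e) (n false (n false (n false e e) (n false e e)) (n false (n false e e) (n false e e)))) (n false e e)) 16387 (.s (n false (n false e e) e) 16386 (.s (n false (n false (n true (n false (n false e e) (n false e e)) e) e) (n false e e)) 16390 (.s (n false (n true (n false (n false (n false (n false e e) (n false e e)) (n false (n false e e) (n false e e))) e) e) (n false e e)) 16390 .z))))))) (.s 38 14 (.s 66 2 .z))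
  (.s (.s (n false (n false e e) e) 16386 (.s (n false (n true (n false e e) e) (n false e e)) 16389 (.s (n false (n false e e) (n false e e)) 16393 (.s (n false (n true (n true (n false (n false (n false (n false e e) (n false e e)) (n false (n false e e) (n false e e))) (n false e e)) e) e) (n false e e)) 16392 (.s (n true (n true (n false (n false (n false e e) (n false e e)) (n false (n false e e) (n false e e))) e) e) 16383 (.s (n false (n true (n false (n false (n false (n false e e) (n false e e)) (n false (n false e e) (n false e e))) e) e) (n false e e)) 16390 .z)))))) (.s 47 2 .z)
  (.s (.s (n false (n true (n false e e) e) (n false e e)) 16389 (.s (n false e e) 16387 (.s (n true (n true (n false (n false (n false (n false e e) (n false e e)) (n false (n false e e) (n false e e))) (n false e e)) e) e) 16386 (.s (n false (n true (n false (n false (n false (n false e e) (n false e e)) (n false (n false e e) (n false e e))) (n false e e)) e) (n false e e)) 16385 (.s (n false (n false (n false e e) (n false e e)) (n false e e)) 16390 (.s (n false (n false (n true (n false (n false e e) (n false e e)) e) e) (n false e e)) 16390 .z)))))) .z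
  (.s (.s (n false (n true (n false e e) e) (n false e e)) 16389 (.s (n false (n false e e) (n false e e)) 16395 (.s (n false (n true (n true (n false (n false (n false (n false e e) (n false e e)) (n false (n false e e) (n false e e))) (n false e e)) e) e) (n false e e)) 16392 (.s (n false (n false e e) e) 16386 .z)))) (.s 47 2 .z)
  (.s (.s (n false (n true (n false e e) e) (n false e e)) 16389 (.s (n false (n false e e) e) 16386 (.s (n false (n true (n false (n false (n false e e) (n false e e)) (n false (n false e e) (n false e e))) e) (n false e e)) 16390 (.s (n false (n true (n false (n false (n false (n false e e) (n false e e)) (n false (n false e e) (n false e e))) (n false e e)) e) (n false e e)) 16385 (.s (n false (n false (n true (n false (n false (n false (n false e e) (n false e e)) (n false (n false e e) (n false e e))) (n false e e)) e) (n false (n false (n false e e) (n false e e)) (n false (n false e e) (n false e e)))) (n false e e)) 16387 (.s (n false (n false (n true (n false (n false e e) (n false e e)) e) e) (n false e e)) 16390 (.s (n false (n true (n false (n false (n false (n false e e) (n false e e)) (n false (n false e e) (n false e e))) e) e) (n false e e)) 16390 .z))))))) (.s 47 2 .z)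
  (.s (.s (n true (n false e e) e) 16387 (.s (n false e e) 16387 (.s (n true (n true (n false (n false (n false (n false e e) (n false e e)) (n false (n false e e) (n false e e))) (n false e e)) e) e) 16390 .z))) (.s 47 2 .z)
  (.s (.s (n false (n true (n false e e) e) (n false e e)) 16395 (.s (n false e e) 16387 (.s (n false (n false (n false e e) (n false e e)) (n false e e)) 16390 (.s (n false (n false e e) (n false e e)) 16386 (.s (n false (n true (n false (n false (n false e e) (n false e e)) (n false (n false e e) (n false e e))) e) (n false e e)) 16388 .z))))) .z
  (.s (.s (n false (n false e e) (n false e e)) 16395 (.s (n false (n true (n false e e) e) (n false e e)) 16389 (.s (n false (n false e e) e) 16386 (.s (n false (n false (n false e e) (n false e e)) (n false e e)) 16390 (.s (n false (n true (n true (n false (n false (n false (n false e e) (n false e e)) (n false (n false e e) (n false e e))) (n false e e)) e) e) (n false e e)) 16392 .z))))) .z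
  (.s (.s (n false (n true (n false e e) e) (n false e e)) 16395 (.s (n false e e) 16387 (.s (n false (n false (n false e e) (n false e e)) (n false e e)) 16390 (.s (n false (n true (n false (n false (n false (n false e e) (n false e e)) (n false (n false e e) (n false e e))) (n false e e)) e) (n false e e)) 16390 (.s (n false (n false e e) (n false e e)) 16386 .z))))) .z
  (.s (.s (n false (n true (n false e e) e) (n false e e)) 16389 (.s (n true (n true (n false (n false (n false (n false e e) (n false e e)) (n false (n false e e) (n false e e))) (n false e e)) e) e) 16384 (.s (n false (n false e e) e) 16386 (.s (n false (n false e e) (n false e e)) 16388 (.s (n false (n true (n false (n false (n false e e) (n false e e)) (n false (n false e e) (n false e e))) e) (n false e e)) 16390 (.s (n false (n false (n false e e) (n false e e)) (n false e e)) 16390 (.s (n false (n true (n true (n false (n false (n false (n false e e) (n false e e)) (n false (n false e e) (n false e e))) (n false e e)) e) e) (n false e e)) 16391 .z))))))) .z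
  (.s (.s (n false (n false (n false e e) (n false e e)) (n false e e)) 16390 (.s (n true (n false e e) e) 16385 (.s (n false (n true (n false e e) e) (n false e e)) 16389 (.s (n false (n true (n false (n false (n false e e) (n false e e)) (n false (n false e e) (n false e e))) e) (n false e e)) 16390 (.s (n true (n true (n false (n false (n false (n false e e) (n false e e)) (n false (n false e e) (n false e e))) (n false e e)) e) e) 16384 (.s (n false (n true (n false (n false (n false (n false e e) (n false e e)) (n false (n false e e) (n false e e))) (n false e e)) e) (n false e e)) 16385 (.s (n false (n false e e) e) 16386 (.s (n false (n true (n true (n false (n false (n false (n false e e) (n false e e)) (n false (n false e e) (n false e e))) (n false e e)) e) e) (n false e e)) 16391 .z)))))))) .z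
  (.s (.s (n false (n true (n false e e) e) (n false e e)) 16389 (.s (n false (n false e e) e) 16386 (.s (n false (n true (n false (n false (n false (n false e e) (n false e e)) (n false (n false e e) (n false e e))) e) e) (n false e e)) 16390 (.s (n false (n false e e) (n false e e)) 16388 (.s (n false (n true (n false (n false (n false e e) (n false e e)) (n false (n false e e) (n false e e))) e) (n false e e)) 16390 (.s (n false (n false (n true (n false (n false (n false (n false e e) (n false e e)) (n false (n false e e) (n false e e))) (n false e e)) e) (n false (n false (n false e e) (n false e e)) (n false (n false e e) (n false e e)))) (n false e e)) 16387 .z)))))) (.s 47 2 .z)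
  (.s (.s (n false (n true (n false e e) e) (n false e e)) 16389 (.s (n false (n false e e) (n false e e)) 16388 (.s (n false (n false e e) e) 16386 (.s (n false (n true (n false (n false (n false (n false e e) (n false e e)) (n false (n false e e) (n false e e))) e) e) (n false e e)) 16390 (.s (n false (n true (n false (n false (n false e e) (n false e e)) (n false (n false e e) (n false e e))) e) (n false e e)) 16390 (.s (n false (n false (n true (n false (n false (n false (n false e e) (n false e e)) (n false (n false e e) (n false e e))) (n false e e)) e) (n false (n false (n false e e) (n false e e)) (n false (n false e e) (n false e e)))) (n false e e)) 16387 .z)))))) (.s 47 2 .z)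
  (.s (.s (n false (n true (n false e e) e) (n false e e)) 16389 (.s (n true (n true (n false (n false (n false (n false e e) (n false e e)) (n false (n false e e) (n false e e))) (n false e e)) e) e) 16386 (.s (n false (n false e e) e) 16386 (.s (n false (n false (n false e e) (n false e e)) (n false e e)) 16390 (.s (n false (n false (n true (n false (n false e e) (n false e e)) e) e) (n false e e)) 16390 (.s (n true (n true (n false (n false (n false e e) (n false e e)) (n false (n false e e) (n false e e))) e) e) 16383 (.s (n false (n true (n false (n false (n false (n false e e) (n false e e)) (n false (n false e e) (n false e e))) (n false e e)) e) (n true (n false e e) e)) 16392 (.s (n true (n false (n true (n false (n false (n false (n false e e) (n false e e)) (n false (n false e e) (n false e e))) (n false e e)) e) (n false (n false (n false e e) (n false e e)) (n false (n false e e) (n false e e)))) e) 16385 .z)))))))) (.s 66 2 .z)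
  (.s (.s (n false (n true (n false e e) e) (n false e e)) 16389 (.s (n false (n false e e) e) 16386 (.s (n false (n false e e) (n false e e)) 16386 (.s (n false (n false (n false e e) (n false e e)) (n false e e)) 16390 (.s (n false (n true (n false (n false (n false e e) (n false e e)) (n false (n false e e) (n false e e))) e) (n false e e)) 16390 (.s (n false (n true (n false (n false (n false (n false e e) (n false e e)) (n false (n false e e) (n false e e))) (n false e e)) e) (n false e e)) 16385 (.s (n false (n false (n true (n false (n false (n false (n false e e) (n false e e)) (n false (n false e e) (n false e e))) (n false e e)) e) (n false (n false (n false e e) (n false e e)) (n false (n false e e) (n false e e)))) (n false e e)) 16387 (.s (n false (n true (n false (n false (n false (n false e e) (n false e e)) (n false (n false e e) (n false e e))) e) e) (n false e e)) 16390 .z)))))))) .z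
  (.s (.s (n false (n true (n false e e) e) (n false e e)) 16389 (.s (n false (n false e e) e) 16386 (.s (n false (n false e e) (n false e e)) 16388 (.s (n false (n true (n false (n false (n false e e) (n false e e)) (n false (n false e e) (n false e e))) e) (n false e e)) 16390 (.s (n true (n true (n false (n false (n false (n false e e) (n false e e)) (n false (n false e e) (n false e e))) (n false e e)) e) e) 16384 (.s (n false (n true (n true (n false (n false (n false (n false e e) (n false e e)) (n false (n false e e) (n false e e))) (n false e e)) e) e) (n false e e)) 16391 .z)))))) (.s 47 2 .z)
  (.s (.s (n false (n true (n false e e) e) (n false e e)) 16389 (.s (n false e e) 16387 (.s (n false (n true (n false (n false (n false (n false e e) (n false e e)) (n false (n false e e) (n false e e))) (n false e e)) e) (n true (n false e e) e)) 16392 (.s (n false (n false (n false e e) (n false e e)) (n false e e)) 16390 (.s (n false (n true (n false (n false (n false e e) (n false e e)) (n false (n false e e) (n false e e))) e) (n false e e)) 16388 (.s (n false (n true (n false (n false (n false (n false e e) (n false e e)) (n false (n false e e) (n false e e))) (n false e e)) e) (n false e e)) 16385 (.s (n false (n false (n true (n false (n false e e) (n false e e)) e) e) (n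 false e e)) 16390 .z))))))) .z
  (.s (.s (n false (n true (n false e e) e) (n false e e)) 16389 (.s (n false (n false e e) (n false e e)) 16388 (.s (n false (n true (n false (n false (n false e e) (n false e e)) (n false (n false e e) (n false e e))) e) (n false e e)) 16390 (.s (n false (n false e e) e) 16386 (.s (n false (n true (n true (n false (n false (n false (n false e e) (n false e e)) (n false (n false e e) (n false e e))) (n false e e)) e) e) (n false e e)) 16392 (.s (n false (n false (n false e e) (n false e e)) (n false e e)) 16390 (.s (n false (n true (n false (n false (n false (n false e e) (n false e e)) (n false (n false e e) (n false e e))) e) e) (n false e e)) 16390 .z))))))) .z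
  (.s (.s (n false (n true (n false e e) e) (n false e e)) 16389 (.s (n false (n true (n true (n false (n false (n false (n false e e) (n false e e)) (n false (n false e e) (n false e e))) (n false e e)) e) e) (n false e e)) 16392 (.s (n false (n false e e) e) 16386 (.s (n false (n false e e) (n false e e)) 16388 (.s (n false (n true (n false (n false (n false e e) (n false e e)) (n false (n false e e) (n false e e))) e) (n false e e)) 16390 (.s (n false (n true (n false (n false (n false (n false e e) (n false e e)) (n false (n false e e) (n false e e))) e) e) (n false e e)) 16390 .z)))))) (.s 47 2 .z)
  (.s (.s (n false (n true (n false e e) e) (n false e e)) 16389 (.s (n false (n false e e) e) 16386 (.s (n false (n false e e) (n false e e)) 16388 (.s (n false (n true (n false (n false (n false e e) (n false e e)) (n false (n false e e) (n false e e))) e) (n false e e)) 16390 (.s (n true (n true (n false (n false (n false (n false e e) (n false e e)) (n false (n false e e) (n false e e))) (n false e e)) e) e) 16384 (.s (n false (n false (n false e e) (n false e e)) (n false e e)) 16390 (.s (n false (n true (n true (n false (n false (n false (n false e e) (n false e e)) (n false (n false e e) (n false e e))) (n false e e)) e) e) (n false e e)) 16391 .z))))))) .z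
  (.s (.s (n false (n true (n false e e) e) (n false e e)) 16389 (.s (n false (n false (n true (n false (n false (n false (n false e e) (n false e e)) (n false (n false e e) (n false e e))) (n false e e)) e) (n false (n false (n false e e) (n false e e)) (n false (n false e e) (n false e e)))) (n false e e)) 16387 (.s (n false (n false e e) e) 16386 (.s (n false (n false (n false e e) (n false e e)) (n false e e)) 16390 (.s (n false (n false (n true (n false (n false e e) (n false e e)) e) e) (n false e e)) 16390 (.s (n true (n true (n false (n false (n false e e) (n false e e)) (n false (n false e e) (n false e e))) e) e) 16383 (.s (n false (n true (n false (n false (n false (n false e e) (n false e e)) (n false (n false e e) (n false e e))) e) e) (n false e e)) 16390 (.s (n false (n true (n false (n false (n false (n false e e) (n false e e)) (n false (n false e e) (n false e e))) (n false e e)) e) (n true (n false (n false (n false e e) (n false e e)) (n false (n false e e) (n false e e))) e)) 16385 .z)))))))) (.s 38 14 (.s 66 2 .z))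
  (.s (.s (n false (n true (n false e e) e) (n false e e)) 16394 (.s (n false (n true (n false (n false (n false (n false e e) (n false e e)) (n false (n false e e) (n false e e))) (n false e e)) e) (n false e e)) 16391 (.s (n false (n false e e) e) 16386 (.s (n false e e) 16387 (.s (n false (n false e e) (n false e e)) 16386 (.s (n false (n false (n false e e) (n false e e)) (n false e e)) 16390 (.s (n false (n true (n false (n false (n false (n false e e) (n false e e)) (n false (n false e e) (n false e e))) (n false e e)) e) (n true (n false e e) e)) 16392 .z))))))) .z
  (.s (.s (n true (n false e e) e) 16388 (.s (n true (n true (n false (n false (n false (n false e e) (n false e e)) (n false (n false e e) (n false e e))) (n false e e)) e) e) 16390 (.s (n false (n false (n false e e) (n false e e)) (n false e e)) 16390 .z))) .z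
  (.s (.s (n false (n true (n false e e) e) (n false e e)) 16389 (.s (n false (n true (n false (n false (n false (n false e e) (n false e e)) (n false (n false e e) (n false e e))) (n false e e)) e) (n true (n false e e) e)) 16392 (.s (n false (n false e e) e) 16386 (.s (n false (n false (n false e e) (n false e e)) (n false e e)) 16390 (.s (n false (n false e e) (n false e e)) 16388 (.s (n false (n true (n false (n false (n false e e) (n false e e)) (n false (n false e e) (n false e e))) e) (n false e e)) 16390 (.s (n false (n true (n true (n false (n false (n false (n false e e) (n false e e)) (n false (n false e e) (n false e e))) (n false e e)) e) e) (n false e e)) 16391 .z))))))) .z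
  (.s (.s (n true (n true (n false (n false (n false (n false e e) (n false e e)) (n false (n false e e) (n false e e))) (n false e e)) e) e) 16384 (.s (n false (n false (n false e e) (n false e e)) (n false e e)) 16390 (.s (n false (n false e e) (n false e e)) 16388 (.s (n false (n true (n false e e) e) (n false e e)) 16388 (.s (n false (n true (n false (n false (n false e e) (n false e e)) (n false (n false e e) (n false e e))) e) (n false e e)) 16390 (.s (n false (n false e e) e) 16386 (.s (n false (n true (n true (n false (n false (n false (n false e e) (n false e e)) (n false (n false e e) (n false e e))) (n false e e)) e) e) (n false e e)) 16391 .z))))))) .z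
  (.s (.s (n false (n true (n false e e) e) (n false e e)) 16400 (.s (n false (n false e e) e) 16386 (.s (n true (n true (n false (n false (n false e e) (n false e e)) (n false (n false e e) (n false e e))) e) e) 16383 .z))) (.s 47 2 .z)
  (.s (.s (n false (n false (n false e e) (n false e e)) (n false e e)) 16390 (.s (n false (n true (n false e e) e) (n false e e)) 16400 (.s (n false (n false e e) e) 16386 (.s (n true (n true (n false (n false (n false e e) (n false e e)) (n false (n false e e) (n false e e))) e) e) 16383 .z)))) .z
  (.s (.s (n true (n false e e) e) 16386 (.s (n false (n false (n false e e) (n false e e)) (n false e e)) 16390 (.s (n false (n true (n false e e) e) (n false e e)) 16400 (.s (n true (n true (n false (n false (n false e e) (n false e e)) (n false (n false e e) (n false e e))) e) e) 16383 .z)))) .z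
  (.s (.s (n true (n true (n false (n false (n false (n false e e) (n false e e)) (n false (n false e e) (n false e e))) (n false e e)) e) e) 16386 (.s (n false e e) 16387 (.s (n false (n false (n false e e) (n false e e)) (n false e e)) 16390 (.s (n false (n true (n false (n false (n false (n false e e) (n false e e)) (n false (n false e e) (n false e e))) (n false e e)) e) (n false e e)) 16385 (.s (n true (n false e e) e) 16386 .z))))) .z
  (.s (.s (n false (n true (n false e e) e) (n false e e)) 16394 (.s (n false (n false e e) e) 16386 (.s (n true (n true (n false (n false (n false (n false e e) (n false e e)) (n false (n false e e) (n false e e))) (n false e e)) e) e) 16386 (.s (n false (n true (n false (n false (n false (n false e e) (n false e e)) (n false (n false e e) (n false e e))) (n false e e)) e) (n false e e)) 16385 (.s (n true (n false e e) e) 16385 (.s (n false (n false (n false e e) (n false e e)) (n false e e)) 16390 (.s (n true (n true (n false (n false (n false e e) (n false e e)) (n false (n false e e) (n false e e))) e) e) 16383 .z))))))) .z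
  (.s (.s (n false e e) 16387 (.s (n false (n true (n false e e) e) (n false e e)) 16389 (.s (n true (n true (n false (n false (n false (n false e e) (n false e e)) (n false (n false e e) (n false e e))) (n false e e)) e) e) 16386 (.s (n false (n true (n false (n false (n false (n false e e) (n false e e)) (n false (n false e e) (n false e e))) (n false e e)) e) (n false e e)) 16385 (.s (n true (n false e e) e) 16385 (.s (n false (n false (n false e e) (n false e e)) (n false e e)) 16390 .z)))))) .z
  (.s (.s (n false e e) 16385 (.s (n false (n true (n true (n false (n false (n false e e) (n false e e)) (n false (n false e e) (n false e e))) e) e) (n false e e)) 16390 (.s (n false (n true (n false e e) e) (n false e e)) 16389 (.s (n false (n true (n false (n false (n false e e) (n false e e)) (n false (n false e e) (n false e e))) e) (n false e e)) 16390 (.s (n false (n false (n false e e) (n false e e)) (n false e e)) 16390 (.s (n false (n false (n true (n false (n false e e) (n false e e)) e) e) (n false e e)) 16390 (.s (n false (n false (n true (n false (n false (n false (n false e e) (n false e e)) (n false (n false e e) (n false e e))) (n false e e)) e) (n false (n false (n false e e) (n false e e)) (n false (n false e e) (n false e e)))) (n false e e)) 16387 .z))))))) (.s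 38 14 (.s 66 2 .z))
  (.s (.s (n false (n true (n false e e) e) (n false e e)) 16389 (.s (n false (n false e e) e) 16386 (.s (n false (n true (n true (n false (n false (n false e e) (n false e e)) (n false (n false e e) (n false e e))) e) e) (n false e e)) 16390 (.s (n false (n true (n false (n false (n false e e) (n false e e)) (n false (n false e e) (n false e e))) e) (n false e e)) 16390 (.s (n false (n false (n true (n false (n false (n false (n false e e) (n false e e)) (n false (n false e e) (n false e e))) (n false e e)) e) (n false (n false (n false e e) (n false e e)) (n false (n false e e) (n false e e)))) (n false e e)) 16387 (.s (n false (n false (n false e e) (n false e e)) (n false e e)) 16390 (.s (n false (n false (n true (n false (n false e e) (n false e e)) e) e) (n false e e)) 16390 .z))))))) (.s 38 14 (.s 66 2 .z))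
  (.s (.s (n false (n true (n false e e) e) (n false e e)) 16389 (.s (n false e e) 16387 (.s (n false (n true (n false (n false (n false (n false e e) (n false e e)) (n false (n false e e) (n false e e))) (n false e e)) e) (n true (n false e e) e)) 16392 (.s (n false (n false (n false e e) (n false e e)) (n false e e)) 16390 (.s (n false (n false (n true (n false (n false e e) (n false e e)) e) e) (n false e e)) 16390 (.s (n false (n true (n false (n false (n false e e) (n false e e)) (n false (n false e e) (n false e e))) e) (n false e e)) 16388 (.s (n false (n true (n false (n false (n false (n false e e) (n false e e)) (n false (n false e e) (n false e e))) (n false e e)) e) (n false e e)) 16385 .z))))))) .z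
  (.s (.s (n false (n true (n false e e) e) (n false e e)) 16394 (.s (n false (n false e e) (n false e e)) 16395 (.s (n false e e) 16385 (.s (n false (n false (n true (n false (n false (n false (n false e e) (n false e e)) (n false (n false e e) (n false e e))) (n false e e)) e) (n false (n false (n false e e) (n false e e)) (n false (n false e e) (n false e e)))) (n false e e)) 16387 .z)))) (.s 47 2 .z)
  (.s (.s (n false (n true (n false e e) e) (n false e e)) 16394 (.s (n false (n false e e) e) 16386 (.s (n false (n false e e) (n false e e)) 16395 (.s (n false (n false (n true (n false (n false (n false (n false e e) (n false e e)) (n false (n false e e) (n false e e))) (n false e e)) e) (n false (n false (n false e e) (n false e e)) (n false (n false e e) (n false e e)))) (n false e e)) 16387 .z)))) (.s 47 2 .z)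
  (.s (.s (n false (n true (n false e e) e) (n false e e)) 16389 (.s (n false (n true (n false (n false (n false (n false e e) (n false e e)) (n false (n false e e) (n false e e))) (n false e e)) e) (n false e e)) 16391 (.s (n false e e) 16387 (.s (n false (n false e e) (n false e e)) 16386 (.s (n false (n true (n false (n false (n false (n false e e) (n false e e)) (n false (n false e e) (n false e e))) (n false e e)) e) (n true (n false e e) e)) 16392 (.s (n false (n false (n false e e) (n false e e)) (n false e e)) 16390 .z)))))) .z
  (.s (.s (n false (n true (n false e e) e) (n false e e)) 16389 (.s (n false (n true (n false (n false (n false e e) (n false e e)) (n false (n false e e) (n false e e))) e) (n false e e)) 16390 (.s (n false (n false e e) e) 16386 (.s (n false (n false (n false e e) (n false e e)) (n false e e)) 16390 (.s (n false (n true (n false (n false (n false (n false e e) (n false e e)) (n false (n false e e) (n false e e))) e) e) (n false e e)) 16390 (.s (n false (n true (n false (n false (n false (n false e e) (n false e e)) (n false (n false e e) (n false e e))) (n false e e)) e) (n false e e)) 16385 (.s (n false (n true (n true (n false (n false (n false (n false e e) (n false e e)) (n false (n false e e) (n false e e))) (n false e e)) e) e) (n false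 e e)) 16392 (.s (n false (n false (n true (n false (n false e e) (n false e e)) e) e) (n false e e)) 16390 .z)))))))) .z
  (.s (.s (n false (n true (n false e e) e) (n false e e)) 16389 (.s (n false (n false e e) e) 16386 (.s (n false (n false (n false e e) (n false e e)) (n false e e)) 16390 (.s (n false (n false e e) (n false e e)) 16394 (.s (n false (n true (n true (n false (n false (n false (n false e e) (n false e e)) (n false (n false e e) (n false e e))) (n false e e)) e) e) (n false e e)) 16392 (.s (n true (n true (n false (n false (n false e e) (n false e e)) (n false (n false e e) (n false e e))) e) e) 16383 .z)))))) .z
  (.s (.s (n false (n true (n false e e) e) (n false e e)) 16389 (.s (n false (n false e e) e) 16386 (.s (n false (n false e e) (n false e e)) 16388 (.s (n false (n true (n false (n false (n false e e) (n false e e)) (n false (n false e e) (n false e e))) e) (n false e e)) 16390 (.s (n false (n false (n true (n false (n false (n false (n false e e) (n false e e)) (n false (n false e e) (n false e e))) (n false e e)) e) (n false (n false (n false e e) (n false e e)) (n false (n false e e) (n false e e)))) (n false e e)) 16387 (.s (n false (n true (n false (n false (n false (n false e e) (n false e e)) (n false (n false e e) (n false e e))) e) e) (n false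 e e)) 16390 .z)))))) (.s 47 2 .z)
  (.s (.s (n false (n true (n false e e) e) (n false e e)) 16389 (.s (n false (n false e e) (n false e e)) 16393 (.s (n false (n true (n true (n false (n false (n false (n false e e) (n false e e)) (n false (n false e e) (n false e e))) (n false e e)) e) e) (n false e e)) 16392 (.s (n false (n false e e) e) 16386 (.s (n true (n true (n false (n false (n false e e) (n false e e)) (n false (n false e e) (n false e e))) e) e) 16383 (.s (n false (n true (n false (n false (n false (n false e e) (n false e e)) (n false (n false e e) (n false e e))) e) e) (n false e e)) 16390 .z)))))) (.s 47 2 .z)
  (.s (.s (n false (n false (n false e e) (n false e e)) (n false e e)) 16390 (.s (n false (n false e e) (n false e e)) 16395 (.s (n false (n true (n false e e) e) (n false e e)) 16389 (.s (n false (n true (n true (n false (n false (n false (n false e e) (n false e e)) (n false (n false e e) (n false e e))) (n false e e)) e) e) (n false e e)) 16392 (.s (n false (n false e e) e) 16386 .z))))) .z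
  (.s (.s (n true (n true (n false (n false (n false (n false e e) (n false e e)) (n false (n false e e) (n false e e))) (n false e e)) e) e) 16390 (.s (n false e e) 16387 (.s (n false (n false e e) (n false e e)) 16388 (.s (n false (n true (n false e e) e) (n false e e)) 16389 (.s (n false (n false (n false e e) (n false e e)) (n false e e)) 16390 .z))))) .z
  (.s (.s (n false (n true (n false e e) e) (n false e e)) 16389 (.s (n false (n false e e) (n false e e)) 16394 (.s (n false (n false (n false e e) (n false e e)) (n false e e)) 16390 (.s (n false e e) 16387 (.s (n true (n true (n false (n false (n false (n false e e) (n false e e)) (n false (n false e e) (n false e e))) (n false e e)) e) e) 16384 .z))))) .z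
  (.s (.s (n false (n true (n false e e) e) (n false e e)) 16395 (.s (n false e e) 16387 (.s (n false (n false e e) (n false e e)) 16393 (.s (n false (n false (n false e e) (n false e e)) (n false e e)) 16390 .z)))) .z
  (.s (.s (n false (n true (n false e e) e) (n false e e)) 16389 (.s (n false e e) 16387 (.s (n false (n false (n false e e) (n false e e)) (n false e e)) 16390 (.s (n false (n false e e) (n false e e)) 16394 (.s (n true (n true (n false (n false (n false (n false e e) (n false e e)) (n false (n false e e) (n false e e))) (n false e e)) e) e) 16384 .z))))) .z
  (.s (.s (n false (n true (n false e e) e) (n false e e)) 16389 (.s (n false (n true (n false (n false (n false (n false e e) (n false e e)) (n false (n false e e) (n false e e))) (n false e e)) e) (n true (n false e e) e)) 16392 (.s (n false (n false e e) e) 16386 (.s (n false (n false (n true (n false (n false e e) (n false e e)) e) e) (n false e e)) 16390 (.s (n true (n true (n false (n false (n false e e) (n false e e)) (n false (n false e e) (n false e e))) e) e) 16383 (.s (n false (n true (n false (n false (n false e e) (n false e e)) (n false (n false e e) (n false e e))) e) (n false e e)) 16388 (.s (n true (n false (n true (n false (n false (n false (n false e e) (n false e e)) (n false (n false e e)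 (n false e e))) (n false e e)) e) (n false (n false (n false e e) (n false e e)) (n false (n false e e) (n false e e)))) e) 16385 .z))))))) (.s 47 2 (.s 66 2 .z))
  (.s (.s (n true (n true (n false (n false (n false (n false e e) (n false e e)) (n false (n false e e) (n false e e))) (n false e e)) e) e) 16384 (.s (n false e e) 16387 (.s (n false (n false (n false e e) (n false e e)) (n false e e)) 16390 (.s (n false (n false e e) (n false e e)) 16393 (.s (n false (n true (n false e e) e) (n false e e)) 16388 .z))))) .z
  (.s (.s (n false (n true (n false e e) e) (n false e e)) 16389 (.s (n false (n false (n false e e) (n false e e)) (n false e e)) 16390 (.s (n false (n false e e) (n false e e)) 16395 (.s (n false (n true (n false (n false (n false e e) (n false e e)) (n false (n false e e) (n false e e))) e) (n false e e)) 16401 (.s (n false (n false e e) e) 16386 .z))))) .z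
  (.s (.s (n false (n false (n false e e) (n false e e)) (n false e e)) 16390 (.s (n false (n false e e) (n false e e)) 16395 (.s (n false (n true (n false e e) e) (n false e e)) 16394 (.s (n false e e) 16385 (.s (n true (n true (n false (n false (n false (n false e e) (n false e e)) (n false (n false e e) (n false e e))) (n false e e)) e) e) 16384 .z))))) .z
  (.s (.s (n false (n true (n false e e) e) (n false e e)) 16389 (.s (n false (n false e e) (n false e e)) 16394 (.s (n false (n false (n false e e) (n false e e)) (n false e e)) 16390 (.s (n false (n true (n true (n false (n false (n false (n false e e) (n false e e)) (n false (n false e e) (n false e e))) (n false e e)) e) e) (n false e e)) 16392 (.s (n false (n false e e) e) 16386 (.s (n true (n true (n false (n false (n false e e) (n false e e)) (n false (n false e e) (n false e e))) e) e) 16383 .z)))))) .z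
  (.s (.s (n false (n true (n false e e) e) (n false e e)) 16394 (.s (n false (n true (n false (n false (n false (n false e e) (n false e e)) (n false (n false e e) (n false e e))) (n false e e)) e) (n true (n false e e) e)) 16392 (.s (n false e e) 16385 (.s (n false (n false (n false e e) (n false e e)) (n false e e)) 16390 (.s (n false (n false e e) (n false e e)) 16388 (.s (n false (n true (n false (n false (n false e e) (n false e e)) (n false (n false e e) (n false e e))) e) (n false e e)) 16390 .z)))))) .z
  (.s (.s (n false (n true (n false e e) e) (n false e e)) 16389 (.s (n false (n false e e) (n false e e)) 16388 (.s (n false (n true (n false (n false (n false e e) (n false e e)) (n false (n false e e) (n false e e))) e) (n false e e)) 16390 (.s (n true (n true (n false (n false (n false (n false e e) (n false e e)) (n false (n false e e) (n false e e))) (n false e e)) e) e) 16384 (.s (n false (n false e e) e) 16386 (.s (n false (n false (n false e e) (n false e e)) (n false e e)) 16390 (.s (n false (n true (n true (n false (n false (n false (n false e e) (n false e e)) (n false (n false e e) (n false e e))) (n false e e)) e) e) (n false e e)) 16391 .z))))))) .z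
  (.s (.s (n false (n true (n false e e) e) (n false e e)) 16394 (.s (n false (n false e e) (n false e e)) 16393 (.s (n true (n true (n false (n false (n false (n false e e) (n false e e)) (n false (n false e e) (n false e e))) (n false e e)) e) e) 16384 (.s (n false (n false e e) e) 16386 (.s (n false (n false (n false e e) (n false e e)) (n false e e)) 16390 (.s (n true (n true (n false (n false (n false e e) (n false e e)) (n false (n false e e) (n false e e))) e) e) 16383 .z)))))) .z
  (.s (.s (n false (n true (n false e e) e) (n false e e)) 16394 (.s (n false e e) 16387 (.s (n false (n false e e) (n false e e)) 16394 (.s (n false (n false (n false e e) (n false e e)) (n false e e)) 16390 (.s (n true (n true (n false (n false (n false (n false e e) (n false e e)) (n false (n false e e) (n false e e))) (n false e e)) e) e) 16384 .z))))) .z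
  (.s (.s (n false (n true (n false e e) e) (n false e e)) 16389 (.s (n false e e) 16387 (.s (n true (n true (n false (n false (n false (n false e e) (n false e e)) (n false (n false e e) (n false e e))) (n false e e)) e) e) 16384 (.s (n false (n false e e) (n false e e)) 16393 (.s (n false (n false (n false e e) (n false e e)) (n false e e)) 16390 .z))))) .z
  (.s (.s (n false (n true (n false e e) e) (n false e e)) 16389 (.s (n false (n false e e) (n false e e)) 16394 (.s (n false (n false e e) e) 16386 (.s (n false (n true (n true (n false (n false (n false (n false e e) (n false e e)) (n false (n false e e) (n false e e))) (n false e e)) e) e) (n false e e)) 16392 (.s (n false (n false (n false e e) (n false e e)) (n false e e)) 16390 (.s (n true (n true (n false (n false (n false e e) (n false e e)) (n false (n false e e) (n false e e))) e) e) 16383 .z)))))) .z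
  (.s (.s (n false (n false (n false e e) (n false e e)) (n false e e)) 16390 (.s (n false (n false e e) (n false e e)) 16394 (.s (n false (n true (n false e e) e) (n false e e)) 16389 (.s (n false (n true (n true (n false (n false (n false (n false e e) (n false e e)) (n false (n false e e) (n false e e))) (n false e e)) e) e) (n false e e)) 16392 (.s (n false (n false e e) e) 16386 (.s (n true (n true (n false (n false (n false e e) (n false e e)) (n false (n false e e) (n false e e))) e) e) 16383 .z)))))) .z
  (.s (.s (n false (n false e e) (n false e e)) 16395 (.s (n false (n true (n false e e) e) (n false e e)) 16389 (.s (n false (n false (n false e e) (n false e e)) (n false e e)) 16390 (.s (n false (n true (n false (n false (n false e e) (n false e e)) (n false (n false e e) (n false e e))) e) (n false e e)) 16401 (.s (n false (n false e e) e) 16386 .z))))) .z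
  (.s (.s (n false (n true (n false e e) e) (n false e e)) 16394 (.s (n false e e) 16387 (.s (n false (n false (n false e e) (n false e e)) (n false e e)) 16390 (.s (n false (n false e e) (n false e e)) 16394 (.s (n true (n true (n false (n false (n false (n false e e) (n false e e)) (n false (n false e e) (n false e e))) (n false e e)) e) e) 16384 .z))))) .z
  (.s (.s (n false e e) 16387 (.s (n false (n false e e) (n false e e)) 16394 (.s (n false (n true (n false e e) e) (n false e e)) 16389 (.s (n false (n false (n false e e) (n false e e)) (n false e e)) 16390 (.s (n true (n true (n false (n false (n false (n false e e) (n false e e)) (n false (n false e e) (n false e e))) (n false e e)) e) e) 16384 .z))))) .z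
  (.s (.s (n false (n false e e) (n false e e)) 16394 (.s (n false (n true (n false e e) e) (n false e e)) 16389 (.s (n false (n true (n true (n false (n false (n false (n false e e) (n false e e)) (n false (n false e e) (n false e e))) (n false e e)) e) e) (n false e e)) 16392 (.s (n false (n false e e) e) 16386 (.s (n false (n false (n false e e) (n false e e)) (n false e e)) 16390 (.s (n true (n true (n false (n false (n false e e) (n false e e)) (n false (n false e e) (n false e e))) e) e) 16383 .z)))))) .z
  (.s (.s (n false (n true (n false e e) e) (n false e e)) 16395 (.s (n false (n true (n false (n false (n false e e) (n false e e)) (n false (n false e e) (n false e e))) e) (n false e e)) 16390 (.s (n false (n false e e) e) 16386 (.s (n false (n false e e) (n false e e)) 16386 .z)))) (.s 47 2 .z)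
  (.s (.s (n false (n true (n false e e) e) (n false e e)) 16394 (.s (n false (n false e e) (n false e e)) 16395 (.s (n false (n false e e) e) 16386 (.s (n false (n true (n true (n false (n false (n false (n false e e) (n false e e)) (n false (n false e e) (n false e e))) (n false e e)) e) e) (n false e e)) 16392 .z)))) (.s 47 2 .z)
  (.s (.s (n false (n true (n false e e) e) (n false e e)) 16394 (.s (n false (n false e e) (n false e e)) 16394 (.s (n false (n false e e) e) 16386 (.s (n true (n true (n false (n false (n false e e) (n false e e)) (n false (n false e e) (n false e e))) e) e) 16383 (.s (n false (n true (n true (n false (n false (n false (n false e e) (n false e e)) (n false (n false e e) (n false e e))) (n false e e)) e) e) (n false e e)) 16392 .z))))) (.s 47 2 .z)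
  (.s (.s (n false (n false e e) e) 16386 (.s (n false (n true (n false e e) e) (n false e e)) 16389 (.s (n false (n false e e) (n false e e)) 16388 (.s (n false (n true (n false (n false (n false e e) (n false e e)) (n false (n false e e) (n false e e))) e) (n false e e)) 16390 (.s (n false (n true (n true (n false (n false (n false (n false e e) (n false e e)) (n false (n false e e) (n false e e))) (n false e e)) e) e) (n false e e)) 16392 (.s (n false (n true (n false (n false (n false (n false e e) (n false e e)) (n false (n false e e) (n false e e))) e) e) (n false e e)) 16390 .z)))))) (.s 47 2 .z)
  (.s (.s (n false (n true (n false e e) e) (n false e e)) 16389 (.s (n false e e) 16387 (.s (n false (n false e e) (n false e e)) 16388 (.s (n true (n true (n false (n false (n false (n false e e) (n false e e)) (n false (n false e e) (n false e e))) (n false e e)) e) e) 16386 .z)))) (.s 47 2 .z)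
  (.s (.s (n false (n true (n false e e) e) (n false e e)) 16389 (.s (n false (n false e e) e) 16386 (.s (n false (n false (n false e e) (n false e e)) (n false e e)) 16390 (.s (n false (n true (n false (n false (n false e e) (n false e e)) (n false (n false e e) (n false e e))) e) (n false e e)) 16390 (.s (n false (n true (n false (n false (n false (n false e e) (n false e e)) (n false (n false e e) (n false e e))) (n false e e)) e) (n false e e)) 16385 (.s (n false (n false (n true (n false (n false (n false (n false e e) (n false e e)) (n false (n false e e) (n false e e))) (n false e e)) e) (n false (n false (n false e e) (n false e e)) (n false (n false e e) (n false e e)))) (n false e e)) 16387 (.s (n false (n false (n true (n false (n false e e) (n false e e)) e) e) (n false e e)) 16390 (.s (n false (n true (n false (n false (n false (n false e e) (n false e e)) (n false (n false e e) (n false e e))) e) e) (n false e e)) 16390 .z)))))))) .z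
  (.s (.s (n false (n true (n false e e) e) (n false e e)) 16389 (.s (n false (n true (n false (n false (n false (n false e e) (n false e e)) (n false (n false e e) (n false e e))) (n false e e)) e) (n false e e)) 16385 (.s (n false (n false e e) e) 16386 (.s (n false (n false (n false e e) (n false e e)) (n false e e)) 16390 (.s (n false (n true (n false (n false (n false e e) (n false e e)) (n false (n false e e) (n false e e))) e) (n false e e)) 16390 (.s (n true (n true (n false (n false (n false (n false e e) (n false e e)) (n false (n false e e) (n false e e))) (n false e e)) e) e) 16384 (.s (n true (n false e e) e) 16385 (.s (n false (n true (n true (n false (n false (n false (n false e e) (n false e e)) (n false (n false e e) (n false e e))) (n false e e)) e) e) (n false e e)) 16391 .z)))))))) .z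
  (.s (.s (n false (n true (n false e e) e) (n false e e)) 16389 (.s (n true (n true (n false (n false (n false (n false e e) (n false e e)) (n false (n false e e) (n false e e))) (n false e e)) e) e) 16384 (.s (n false e e) 16385 (.s (n false (n true (n false (n false (n false e e) (n false e e)) (n false (n false e e) (n false e e))) e) (n false e e)) 16390 (.s (n false (n false e e) (n false e e)) 16386 (.s (n false (n false (n false e e) (n false e e)) (n false e e)) 16390 (.s (n false (n true (n false (n false (n false (n false e e) (n false e e)) (n false (n false e e) (n false e e))) (n false e e)) e) (n true (n false e e) e)) 16392 .z))))))) (.s 66 2 .z)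
  (.s (.s (n false (n true (n false e e) e) (n false e e)) 16394 (.s (n false (n true (n true (n false (n false (n false (n false e e) (n false e e)) (n false (n false e e) (n false e e))) (n false e e)) e) e) (n false e e)) 16392 (.s (n false (n false e e) (n false e e)) 16395 (.s (n false e e) 16385 .z)))) (.s 47 2 .z)
  (.s (.s (n false (n true (n false e e) e) (n false e e)) 16389 (.s (n false (n true (n true (n false (n false (n false (n false e e) (n false e e)) (n false (n false e e) (n false e e))) (n false e e)) e) e) (n false e e)) 16392 (.s (n false (n false e e) (n false e e)) 16395 (.s (n false e e) 16385 .z)))) (.s 47 2 .z)
  (.s (.s (n false (n true (n false e e) e) (n false e e)) 16389 (.s (n false (n false e e) (n false e e)) 16388 (.s (n false e e) 16385 (.s (n false (n false (n false e e) (n false e e)) (n false e e)) 16390 (.s (n false (n true (n false (n false (n false (n false e e) (n false e e)) (n false (n false e e) (n false e e))) e) e) (n false e e)) 16390 (.s (n false (n true (n true (n false (n false (n false (n false e e) (n false e e)) (n false (n false e e) (n false e e))) (n false e e)) e) e) (n false e e)) 16392 (.s (n false (n true (n false (n false (n false e e) (n false e e)) (n false (n false e e) (n false e e))) e) (n false e e)) 16390 .z)))))))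 .z
  (.s (.s (n false (n true (n false e e) e) (n false e e)) 16389 (.s (n false e e) 16387 (.s (n false (n false e e) (n false e e)) 16388 (.s (n false (n false (n false e e) (n false e e)) (n false e e)) 16390 (.s (n false (n true (n false (n false (n false (n false e e) (n false e e)) (n false (n false e e) (n false e e))) (n false e e)) e) (n false e e)) 16391 (.s (n false (n true (n true (n false (n false (n false (n false e e) (n false e e)) (n false (n false e e) (n false e e))) (n false e e)) e) e) (n false e e)) 16392 .z)))))) .z
  (.s (.s (n false (n true (n false e e) e) (n false e e)) 16394 (.s (n false e e) 16387 (.s (n false (n false (n false e e) (n false e e)) (n false e e)) 16390 (.s (n false (n false e e) (n false e e)) 16393 (.s (n false (n true (n false (n false (n false (n false e e) (n false e e)) (n false (n false e e) (n false e e))) e) e) (n false e e)) 16390 (.s (n false (n true (n true (n false (n false (n false (n false e e) (n false e e)) (n false (n false e e) (n false e e))) (n false e e)) e) e) (n false e e)) 16392 .z)))))) .z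
  (.s (.s (n false (n true (n false e e) e) (n false e e)) 16389 (.s (n false e e) 16387 (.s (n false (n false e e) (n false e e)) 16388 (.s (n false (n true (n false (n false (n false (n false e e) (n false e e)) (n false (n false e e) (n false e e))) (n false e e)) e) (n true (n false e e) e)) 16392 (.s (n false (n false (n false e e) (n false e e)) (n false e e)) 16390 (.s (n false (n true (n false (n false (n false e e) (n false e e)) (n false (n false e e) (n false e e))) e) (n false e e)) 16388 .z)))))) .z
  (.s (.s (n false (n true (n false e e) e) (n false e e)) 16389 (.s (n false e e) 16385 (.s (n false (n false (n false e e) (n false e e)) (n false e e)) 16390 (.s (n false (n false e e) (n false e e)) 16388 (.s (n false (n true (n false (n false (n false e e) (n false e e)) (n false (n false e e) (n false e e))) e) (n false e e)) 16390 (.s (n true (n true (n false (n false (n false (n false e e) (n false e e)) (n false (n false e e) (n false e e))) (n false e e)) e) e) 16384 .z)))))) .z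
  (.s (.s (n false (n true (n false e e) e) (n false e e)) 16389 (.s (n false (n false e e) (n false e e)) 16393 (.s (n false (n false e e) e) 16386 (.s (n false (n false (n false e e) (n false e e)) (n false e e)) 16390 (.s (n false (n true (n false (n false (n false e e) (n false e e)) (n false (n false e e) (n false e e))) e) (n false e e)) 16390 (.s (n false (n false (n true (n false (n false (n false (n false e e) (n false e e)) (n false (n false e e) (n false e e))) (n false e e)) e) (n false (n false (n false e e) (n false e e)) (n false (n false e e) (n false e e)))) (n false e e)) 16387 (.s (n false (n true (n false (n false (n false (n false e e) (n false e e)) (n false (n false e e) (n false e e))) e) e) (n false e e)) 16390 .z))))))) .z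
  (.s (.s (n false (n false e e) (n false e e)) 16395 (.s (n false e e) 16385 (.s (n false (n false (n false e e) (n false e e)) (n false e e)) 16390 (.s (n false (n true (n false e e) e) (n false e e)) 16395 .z)))) .z
  (.s (.s (n false (n true (n false e e) e) (n false e e)) 16394 (.s (n true (n false e e) e) 16386 (.s (n false (n false (n false e e) (n false e e)) (n false e e)) 16390 (.s (n false (n false e e) (n false e e)) 16393 (.s (n true (n true (n false (n false (n false (n false e e) (n false e e)) (n false (n false e e) (n false e e))) (n false e e)) e) e) 16384 (.s (n true (n true (n false (n false (n false e e) (n false e e)) (n false (n false e e) (n false e e))) e) e) 16383 .z)))))) .z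
  (.s (.s (n false (n true (n false e e) e) (n false e e)) 16400 (.s (n false e e) 16385 (.s (n false (n false e e) (n false e e)) 16395 .z))) (.s 47 2 .z)
  (.s (.s (n false (n true (n false e e) e) (n false e e)) 16394 (.s (n true (n true (n false (n false (n false (n false e e) (n false e e)) (n false (n false e e) (n false e e))) (n false e e)) e) e) 16386 (.s (n false e e) 16387 (.s (n false (n true (n false (n false (n false (n false e e) (n false e e)) (n false (n false e e) (n false e e))) (n false e e)) e) (n false e e)) 16385 (.s (n false (n false e e) (n false e e)) 16386 (.s (n false (n false (n false e e) (n false e e)) (n false e e)) 16390 .z)))))) .z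
  (.s (.s (n false (n true (n false e e) e) (n false e e)) 16400 (.s (n false e e) 16387 (.s (n false (n false (n false e e) (n false e e)) (n false e e)) 16390 .z))) .z
  (.s (.s (n true (n false e e) e) 16388 (.s (n false (n false (n false e e) (n false e e)) (n false e e)) 16390 (.s (n false (n false e e) (n false e e)) 16388 (.s (n false (n true (n false (n false (n false e e) (n false e e)) (n false (n false e e) (n false e e))) e) (n false e e)) 16388 .z)))) .z
  (.s (.s (n false (n true (n false e e) e) (n false e e)) 16389 (.s (n false (n true (n true (n false (n false (n false (n false e e) (n false e e)) (n false (n false e e) (n false e e))) (n false e e)) e) e) (n false e e)) 16392 (.s (n false (n false e e) e) 16386 (.s (n false (n false e e) (n false e e)) 16388 (.s (n false (n true (n false (n false (n false e e) (n false e e)) (n false (n false e e) (n false e e))) e) (n false e e)) 16390 (.s (n true (n true (n false (n false (n false (n false e e) (n false e e)) (n false (n false e e) (n false e e))) (n false e e)) e) e) 16384 .z)))))) (.s 47 2 .z)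
  (.s (.s (n false (n true (n false e e) e) (n false e e)) 16389 (.s (n false e e) 16387 (.s (n true (n true (n false (n false (n false (n false e e) (n false e e)) (n false (n false e e) (n false e e))) (n false e e)) e) e) 16390 (.s (n false (n false (n false e e) (n false e e)) (n false e e)) 16390 (.s (n false (n false (n true (n false (n false e e) (n false e e)) e) e) (n false e e)) 16390 (.s (n false (n true (n false (n false (n false (n false e e) (n false e e)) (n false (n false e e) (n false e e))) (n false e e)) e) (n false e e)) 16385 .z)))))) .z
  (.s (.s (n false (n true (n false e e) e) (n false e e)) 16389 (.s (n false e e) 16387 (.s (n false (n false e e) (n false e e)) 16388 (.s (n true (n true (n false (n false (n false (n false e e) (n false e e)) (n false (n false e e) (n false e e))) (n false e e)) e) e) 16386 (.s (n false (n false (n false e e) (n false e e)) (n false e e)) 16390 .z))))) .z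
  (.s (.s (n false (n false (n false e e) (n false e e)) (n false e e)) 16390 (.s (n true (n true (n false (n false (n false (n false e e) (n false e e)) (n false (n false e e) (n false e e))) (n false e e)) e) e) 16386 (.s (n false e e) 16387 (.s (n false (n false e e) (n false e e)) 16388 (.s (n false (n true (n false e e) e) (n false e e)) 16388 .z))))) .z
  (.s (.s (n false (n true (n false e e) e) (n false e e)) 16389 (.s (n false (n false e e) e) 16386 (.s (n false (n false e e) (n false e e)) 16394 (.s (n false (n true (n true (n false (n false (n false (n false e e) (n false e e)) (n false (n false e e) (n false e e))) (n false e e)) e) e) (n false e e)) 16392 (.s (n false (n false (n false e e) (n false e e)) (n false e e)) 16390 (.s (n true (n true (n false (n false (n false e e) (n false e e)) (n false (n false e e) (n false e e))) e) e) 16383 .z)))))) .z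
  (.s (.s (n false (n true (n false e e) e) (n false e e)) 16389 (.s (n false (n false e e) e) 16386 (.s (n false (n false (n false e e) (n false e e)) (n false e e)) 16390 (.s (n false (n false e e) (n false e e)) 16395 (.s (n true (n false e e) e) 16386 (.s (n true (n true (n false (n false (n false (n false e e) (n false e e)) (n false (n false e e) (n false e e))) (n false e e)) e) e) 16384 .z)))))) .z
  (.s (.s (n true (n false e e) e) 16386 (.s (n false (n false (n false e e) (n false e e)) (n false e e)) 16390 (.s (n true (n true (n false (n false (n false (n false e e) (n false e e)) (n false (n false e e) (n false e e))) (n false e e)) e) e) 16386 (.s (n false (n false e e) (n false e e)) 16388 (.s (n true (n true (n false (n false (n false e e) (n false e e)) (n false (n false e e) (n false e e))) e) e) 16383 .z))))) .z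
  (.s (.s (n false e e) 16387 (.s (n false (n true (n false e e) e) (n false e e)) 16399 (.s (n false (n false (n false e e) (n false e e)) (n false e e)) 16390 (.s (n false (n true (n false (n false (n false e e) (n false e e)) (n false (n false e e) (n false e e))) e) (n false e e)) 16388 .z)))) .z
  (.s (.s (n false (n true (n false e e) e) (n false e e)) 16399 (.s (n false (n false e e) e) 16386 (.s (n false (n true (n false (n false (n false e e) (n false e e)) (n false (n false e e) (n false e e))) e) (n false e e)) 16390 (.s (n false (n false (n false e e) (n false e e)) (n false e e)) 16390 .z)))) .z
  (.s (.s (n false (n true (n false e e) e) (n false e e)) 16389 (.s (n false (n false (n false e e) (n false e e)) (n false e e)) 16390 (.s (n false (n false e e) (n false e e)) 16395 (.s (n true (n false e e) e) 16386 (.s (n false (n true (n true (n false (n false (n false (n false e e) (n false e e)) (n false (n false e e) (n false e e))) (n false e e)) e) e) (n false e e)) 16392 .z))))) .z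
  (.s (.s (n false (n true (n false e e) e) (n false e e)) 16389 (.s (n false (n false e e) e) 16386 (.s (n false (n false e e) (n false e e)) 16393 (.s (n false (n true (n true (n false (n false (n false (n false e e) (n false e e)) (n false (n false e e) (n false e e))) (n false e e)) e) e) (n false e e)) 16392 (.s (n true (n true (n false (n false (n false e e) (n false e e)) (n false (n false e e) (n false e e))) e) e) 16383 (.s (n false (n true (n false (n false (n false (n false e e) (n false e e)) (n false (n false e e) (n false e e))) e) e) (n false e e)) 16390 .z)))))) (.s 47 2 .z)
  (.s (.s (n false (n true (n false e e) e) (n false e e)) 16395 (.s (n false (n false e e) e) 16386 (.s (n false (n false e e) (n false e e)) 16386 (.s (n false (n true (n false (n false (n false e e) (n false e e)) (n false (n false e e) (n false e e))) e) (n false e e)) 16390 (.s (n false (n false (n false e e) (n false e e)) (n false e e)) 16390 .z))))) .z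
  (.s (.s (n false e e) 16387 (.s (n false (n true (n false e e) e) (n false e e)) 16395 (.s (n false (n false e e) (n false e e)) 16393 (.s (n false (n false (n false e e) (n false e e)) (n false e e)) 16390 .z)))) .z
  (.s (.s (n false (n true (n false e e) e) (n false e e)) 16394 (.s (n false (n false e e) e) 16386 (.s (n false (n false e e) (n false e e)) 16393 (.s (n false (n false (n false e e) (n false e e)) (n false e e)) 16390 (.s (n true (n true (n false (n false (n false e e) (n false e e)) (n false (n false e e) (n false e e))) e) e) 16383 (.s (n false (n true (n false (n false (n false (n false e e) (n false e e)) (n false (n false e e) (n false e e))) e) e) (n false e e)) 16390 (.s (n false (n true (n true (n false (n false (n false (n false e e) (n false e e)) (n false (n false e e) (n false e e))) (n false e e)) e) e) (n false e e)) 16392 .z))))))) .z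
  (.s (.s (n false (n true (n false e e) e) (n false e e)) 16394 (.s (n false (n false e e) e) 16386 (.s (n false (n false (n false e e) (n false e e)) (n false e e)) 16390 (.s (n false (n true (n false (n false (n false e e) (n false e e)) (n false (n false e e) (n false e e))) e) (n false e e)) 16390 (.s (n false (n false (n true (n false (n false e e) (n false e e)) e) e) (n false e e)) 16390 (.s (n false (n true (n false (n false (n false (n false e e) (n false e e)) (n false (n false e e) (n false e e))) e) e) (n false e e)) 16390 (.s (n false (n false (n true (n false (n false (n false (n false e e) (n false e e)) (n false (n false e e) (n false e e))) (n false e e)) e) (n false (n false (n false e e) (n false e e)) (n false (n false e e) (n false e e)))) (n false e e)) 16387 .z))))))) (.s 38 14 (.s 66 2 .z))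
  (.s (.s (n false (n true (n false e e) e) (n false e e)) 16394 (.s (n false e e) 16387 (.s (n true (n true (n false (n false (n false (n false e e) (n false e e)) (n false (n false e e) (n false e e))) (n false e e)) e) e) 16386 (.s (n false (n false e e) (n false e e)) 16386 (.s (n false (n true (n false (n false (n false (n false e e) (n false e e)) (n false (n false e e) (n false e e))) (n false e e)) e) (n true (n false e e) e)) 16392 .z))))) (.s 47 2 (.s 66 2 .z))
  (.s (.s (n false (n true (n false e e) e) (n false e e)) 16394 (.s (n false (n false e e) e) 16386 (.s (n false (n false e e) (n false e e)) 16388 (.s (n false (n true (n false (n false (n false e e) (n false e e)) (n false (n false e e) (n false e e))) e) (n false e e)) 16390 (.s (n false (n true (n false (n false (n false (n false e e) (n false e e)) (n false (n false e e) (n false e e))) (n false e e)) e) (n true (n false e e) e)) 16392 .z))))) (.s 47 2 .z)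
  (.s (.s (n false (n true (n false e e) e) (n false e e)) 16399 (.s (n false (n false e e) e) 16386 (.s (n false (n true (n false (n false (n false (n false e e) (n false e e)) (n false (n false e e) (n false e e))) (n false e e)) e) (n false e e)) 16390 (.s (n false (n false (n false e e) (n false e e)) (n false e e)) 16390 (.s (n true (n true (n false (n false (n false e e) (n false e e)) (n false (n false e e) (n false e e))) e) e) 16383 .z))))) .z
  (.s (.s (n false (n true (n false e e) e) (n false e e)) 16401 (.s (n false e e) 16385 (.s (n false (n false e e) (n false e e)) 16395 .z))) .z
  (.s (.s (n false (n true (n false e e) e) (n false e e)) 16389 (.s (n false e e) 16387 (.s (n false (n false e e) (n false e e)) 16388 (.s (n false (n false (n false e e) (n false e e)) (n false e e)) 16390 (.s (n false (n true (n false (n false (n false (n false e e) (n false e e)) (n false (n false e e) (n false e e))) e) e) (n false e e)) 16390 (.s (n false (n true (n false (n false (n false e e) (n false e e)) (n false (n false e e) (n false e e))) e) (n false e e)) 16388 (.s (n false (n true (n true (n false (n false (n false (n false e e) (n false e e)) (n false (n false e e) (n false e e))) (n false e e)) e) e) (n false e e)) 16392 .z))))))) .z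
  (.s (.s (n false (n true (n false e e) e) (n false e e)) 16389 (.s (n true (n false e e) e) 16386 (.s (n false (n false (n false e e) (n false e e)) (n false e e)) 16390 (.s (n false (n false e e) (n false e e)) 16393 (.s (n true (n true (n false (n false (n false e e) (n false e e)) (n false (n false e e) (n false e e))) e) e) 16383 (.s (n false (n true (n false (n false (n false (n false e e) (n false e e)) (n false (n false e e) (n false e e))) e) e) (n false e e)) 16390 (.s (n false (n true (n true (n false (n false (n false (n false e e) (n false e e)) (n false (n false e e) (n false e e))) (n false e e)) e) e) (n false e e)) 16392 .z))))))) .z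
  (.s (.s (n false (n true (n false e e) e) (n false e e)) 16394 (.s (n false (n false e e) (n false e e)) 16395 (.s (n false e e) 16385 (.s (n false (n false (n false e e) (n false e e)) (n false e e)) 16390 (.s (n false (n true (n true (n false (n false (n false (n false e e) (n false e e)) (n false (n false e e) (n false e e))) (n false e e)) e) e) (n false e e)) 16392 .z))))) .z
  (.s (.s (n false (n true (n false e e) e) (n false e e)) 16394 (.s (n false (n false e e) e) 16386 (.s (n false (n true (n false (n false (n false e e) (n false e e)) (n false (n false e e) (n false e e))) e) (n false e e)) 16390 (.s (n false (n true (n false (n false (n false (n false e e) (n false e e)) (n false (n false e e) (n false e e))) (n false e e)) e) (n false e e)) 16385 (.s (n false (n false e e) (n false e e)) 16386 (.s (n false (n false (n false e e) (n false e e)) (n false e e)) 16390 (.s (n false (n true (n false (n false (n false (n false e e) (n false e e)) (n false (n false e e) (n false e e))) e) e) (n false e e)) 16390 (.s (n false (n false (n true (n false (n false (n false (n false e e) (n false e e)) (n false (n false e e) (n false e e))) (n false e e)) e) (n false (n false (n false e e) (n false e e)) (n false (n false e e) (n false e e)))) (n false e e)) 16387 .z))))))))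 .z
  (.s (.s (n false (n true (n false e e) e) (n false e e)) 16400 (.s (n false (n false e e) e) 16386 (.s (n false (n false e e) (n false e e)) 16395 .z))) (.s 47 2 .z)
  (.s (.s (n false (n true (n false e e) e) (n false e e)) 16394 (.s (n false (n false e e) e) 16386 (.s (n false (n false e e) (n false e e)) 16386 (.s (n false (n false (n false e e) (n false e e)) (n false e e)) 16390 (.s (n false (n true (n false (n false (n false e e) (n false e e)) (n false (n false e e) (n false e e))) e) (n false e e)) 16390 (.s (n false (n true (n false (n false (n false (n false e e) (n false e e)) (n false (n false e e) (n false e e))) (n false e e)) e) (n false e e)) 16385 (.s (n false (n true (n false (n false (n false (n false e e) (n false e e)) (n false (n false e e) (n false e e))) e) e) (n false e e)) 16390 (.s (n false (n false (n true (n false (n false (n false (n false e e) (n false e e)) (n false (n false e e) (n false e e))) (n false e e)) e) (n false (n false (n false e e) (n false e e)) (n false (n false e e) (n false e e)))) (n false e e)) 16387 .z)))))))) .z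
  (.s (.s (n false (n true (n false e e) e) (n false e e)) 16389 (.s (n false (n false e e) e) 16386 (.s (n false (n false e e) (n false e e)) 16388 (.s (n false (n true (n false (n false (n false e e) (n false e e)) (n false (n false e e) (n false e e))) e) (n false e e)) 16390 (.s (n true (n true (n false (n false (n false (n false e e) (n false e e)) (n false (n false e e) (n false e e))) (n false e e)) e) e) 16384 (.s (n false (n false (n true (n false (n false (n false (n false e e) (n false e e)) (n false (n false e e) (n false e e))) (n false e e)) e) (n false (n false (n false e e) (n false e e)) (n false (n false e e) (n false e e)))) (n false e e)) 16386 .z)))))) (.s 47 2 .z)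
  (.s (.s (n false (n true (n false e e) e) (n false e e)) 16394 (.s (n false (n false e e) e) 16386 (.s (n false (n false (n false e e) (n false e e)) (n false e e)) 16390 (.s (n false (n true (n true (n false (n false (n false e e) (n false e e)) (n false (n false e e) (n false e e))) e) e) (n false e e)) 16390 (.s (n false (n true (n false (n false (n false e e) (n false e e)) (n false (n false e e) (n false e e))) e) (n false e e)) 16390 (.s (n false (n false (n true (n false (n false e e) (n false e e)) e) e) (n false e e)) 16390 (.s (n false (n false (n true (n false (n false (n false (n false e e) (n false e e)) (n false (n false e e) (n false e e))) (n false e e)) e) (n false (n false (n false e e) (n false e e)) (n false (n false e e) (n false e e)))) (n false e e)) 16387 .z))))))) (.s 38 14 (.s 66 2 .z))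
  (.s (.s (n false (n true (n false e e) e) (n false e e)) 16389 (.s (n false e e) 16387 (.s (n false (n false (n false e e) (n false e e)) (n false e e)) 16390 (.s (n false (n true (n false (n false (n false (n false e e) (n false e e)) (n false (n false e e) (n false e e))) (n false e e)) e) (n false e e)) 16391 (.s (n false (n false e e) (n false e e)) 16386 (.s (n false (n true (n true (n false (n false (n false (n false e e) (n false e e)) (n false (n false e e) (n false e e))) (n false e e)) e) e) (n false e e)) 16392 .z)))))) .z
  (.s (.s (n false (n false (n false e e) (n false e e)) (n false e e)) 16390 (.s (n false (n true (n false e e) e) (n false e e)) 16395 (.s (n false (n true (n false (n false (n false e e) (n false e e)) (n false (n false e e) (n false e e))) e) (n false e e)) 16390 (.s (n false (n false e e) e) 16386 (.s (n false (n false e e) (n false e e)) 16386 .z))))) .z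
  (.s (.s (n true (n true (n false (n false (n false (n false e e) (n false e e)) (n false (n false e e) (n false e e))) (n false e e)) e) e) 16386 (.s (n true (n false e e) e) 16386 (.s (n false (n false (n false e e) (n false e e)) (n false e e)) 16390 (.s (n false (n false e e) (n false e e)) 16388 (.s (n true (n true (n false (n false (n false e e) (n false e e)) (n false (n false e e) (n false e e))) e) e) 16383 .z))))) .z
  (.s (.s (n false (n true (n false e e) e) (n false e e)) 16389 (.s (n false (n false (n false e e) (n false e e)) (n false e e)) 16390 (.s (n false (n true (n false (n false (n false (n false e e) (n false e e)) (n false (n false e e) (n false e e))) (n false e e)) e) (n true (n false e e) e)) 16392 (.s (n false (n false e e) e) 16386 (.s (n false (n false (n true (n false (n false e e) (n false e e)) e) e) (n false e e)) 16390 (.s (n true (n true (n false (n false (n false e e) (n false e e)) (n false (n false e e) (n false e e))) e) e) 16383 (.s (n false (n true (n false (n false (n false (n false e e) (n false e e)) (n false (n false e e) (n false e e))) (n false e e)) e) (n true (n false (n false (n false e e) (n false e e)) (n false (n false e e) (n false e e))) e)) 16385 (.s (n true (n false (n true (n false (n false (n false (n false e e) (n false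 e e)) (n false (n false e e) (n false e e))) (n false e e)) e) (n false (n false (n false e e) (n false e e)) (n false (n false e e) (n false e e)))) e) 16385 .z)))))))) (.s 66 2 .z)
  (.s (.s (n false (n true (n false e e) e) (n false e e)) 16389 (.s (n false (n false e e) e) 16386 (.s (n false (n false (n false e e) (n false e e)) (n false e e)) 16390 (.s (n true (n true (n false (n false (n false (n false e e) (n false e e)) (n false (n false e e) (n false e e))) (n false e e)) e) e) 16386 (.s (n false (n false (n true (n false (n false e e) (n false e e)) e) e) (n false e e)) 16390 (.s (n true (n true (n false (n false (n false e e) (n false e e)) (n false (n false e e) (n false e e))) e) e) 16383 (.s (n false (n true (n false (n false (n false (n false e e) (n false e e)) (n false (n false e e) (n false e e))) (n false e e)) e) (n true (n false e e) e)) 16392 (.s (n true (n false (n true (n false (n false (n false (n false e e) (n false e e)) (n false (n false e e) (n false e e))) (n false e e)) e) (n false (n false (n false e e) (n false e e)) (n false (n false e e) (n false e e)))) e) 16385 .z)))))))) (.s 66 2 .z)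
  (.s (.s (n true (n false e e) e) 16389 (.s (n false (n true (n false (n false (n false (n false e e) (n false e e)) (n false (n false e e) (n false e e))) (n false e e)) e) (n false e e)) 16385 (.s (n false (n false (n false e e) (n false e e)) (n false e e)) 16390 .z))) .z
  (.s (.s (n false (n true (n false e e) e) (n false e e)) 16394 (.s (n false (n false e e) e) 16386 (.s (n false (n false e e) (n false e e)) 16395 (.s (n false (n false (n false e e) (n false e e)) (n false e e)) 16390 (.s (n false (n true (n false (n false (n false e e) (n false e e)) (n false (n false e e) (n false e e))) e) (n false e e)) 16401 .z))))) .z
  (.s (.s (n true (n true (n false (n false (n false (n false e e) (n false e e)) (n false (n false e e) (n false e e))) (n false e e)) e) e) 16390 (.s (n false e e) 16387 (.s (n false (n false e e) (n false e e)) 16388 (.s (n false (n true (n false e e) e) (n false e e)) 16389 .z)))) (.s 47 2 .z)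
  (.s (.s (n false (n true (n false e e) e) (n false e e)) 16394 (.s (n true (n false e e) e) 16386 (.s (n true (n true (n false (n false (n false (n false e e) (n false e e)) (n false (n false e e) (n false e e))) (n false e e)) e) e) 16386 (.s (n false (n true (n false (n false (n false (n false e e) (n false e e)) (n false (n false e e) (n false e e))) (n false e e)) e) (n false e e)) 16385 (.s (n false (n false (n false e e) (n false e e)) (n false e e)) 16390 (.s (n true (n true (n false (n false (n false e e) (n false e e)) (n false (n false e e) (n false e e))) e) e) 16383 .z)))))) .z
  (.s (.s (n false (n true (n false e e) e) (n false e e)) 16389 (.s (n false e e) 16387 (.s (n false (n false (n false e e) (n false e e)) (n false e e)) 16390 (.s (n false (n false (n true (n false (n false e e) (n false e e)) e) e) (n false e e)) 16390 (.s (n false (n true (n false (n false (n false e e) (n false e e)) (n false (n false e e) (n false e e))) e) (n false e e)) 16388 (.s (n false (n true (n false (n false (n false (n false e e) (n false e e)) (n false (n false e e) (n false e e))) e) e) (n false e e)) 16390 (.s (n false (n false (n true (n false (n false (n false (n false e e) (n false e e)) (n false (n false e e) (n false e e))) (n false e e)) e) (n false (n false (n false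 e e) (n false e e)) (n false (n false e e) (n false e e)))) (n false e e)) 16387 .z))))))) (.s 38 14 (.s 66 2 .z))
  (.s (.s (n false e e) 16387 (.s (n false (n false e e) (n false e e)) 16394 (.s (n false (n true (n false e e) e) (n false e e)) 16389 (.s (n false (n false (n false e e) (n false e e)) (n false e e)) 16390 (.s (n false (n true (n true (n false (n false (n false (n false e e) (n false e e)) (n false (n false e e) (n false e e))) (n false e e)) e) e) (n false e e)) 16392 .z))))) .z
  (.s (.s (n false (n true (n false e e) e) (n false e e)) 16389 (.s (n false (n false e e) e) 16386 (.s (n false (n false e e) (n false e e)) 16388 (.s (n false (n true (n false (n false (n false e e) (n false e e)) (n false (n false e e) (n false e e))) e) (n false e e)) 16390 (.s (n false (n true (n false (n false (n false (n false e e) (n false e e)) (n false (n false e e) (n false e e))) (n false e e)) e) (n true (n false e e) e)) 16392 (.s (n false (n true (n true (n false (n false (n false (n false e e) (n false e e)) (n false (n false e e) (n false e e))) (n false e e)) e) e) (n false e e)) 16391 .z)))))) (.s 47 2 .z)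
  (.s (.s (n true (n false e e) e) 16387 (.s (n true (n true (n false (n false (n false e e) (n false e e)) (n false (n false e e) (n false e e))) e) e) 16383 (.s (n false (n true (n false (n false (n false e e) (n false e e)) (n false (n false e e) (n false e e))) e) (n false e e)) 16388 .z))) (.s 47 2 (.s 38 14 .z))
  (.s (.s (n false (n true (n false e e) e) (n false e e)) 16389 (.s (n false (n false e e) e) 16386 (.s (n false (n false e e) (n false e e)) 16393 (.s (n false (n false (n true (n false (n false (n false (n false e e) (n false e e)) (n false (n false e e) (n false e e))) (n false e e)) e) (n false (n false (n false e e) (n false e e)) (n false (n false e e) (n false e e)))) (n false e e)) 16387 (.s (n false (n false (n false e e) (n false e e)) (n false e e)) 16390 (.s (n true (n true (n false (n false (n false e e) (n false e e)) (n false (n false e e) (n false e e))) e) e) 16383 (.s (n false (n true (n false (n false (n false (n false e e) (n false e e)) (n false (n false e e) (n false e e))) e) e) (n false e e)) 16390 .z))))))) .z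
  (.s (.s (n false (n true (n false e e) e) (n false e e)) 16394 (.s (n false (n false e e) (n false e e)) 16393 (.s (n false (n false e e) e) 16386 (.s (n false (n true (n false (n false (n false (n false e e) (n false e e)) (n false (n false e e) (n false e e))) (n false e e)) e) (n true (n false e e) e)) 16392 (.s (n true (n true (n false (n false (n false e e) (n false e e)) (n false (n false e e) (n false e e))) e) e) 16383 .z))))) (.s 47 2 .z)
  (.s (.s (n false (n true (n false e e) e) (n false e e)) 16394 (.s (n false (n false e e) e) 16386 (.s (n false (n false e e) (n false e e)) 16393 (.s (n false (n true (n false (n false (n false (n false e e) (n false e e)) (n false (n false e e) (n false e e))) (n false e e)) e) (n true (n false e e) e)) 16392 (.s (n true (n true (n false (n false (n false e e) (n false e e)) (n false (n false e e) (n false e e))) e) e) 16383 .z))))) (.s 47 2 .z)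
  (.s (.s (n false (n true (n false e e) e) (n false e e)) 16389 (.s (n false (n false e e) (n false e e)) 16394 (.s (n false (n true (n true (n false (n false (n false (n false e e) (n false e e)) (n false (n false e e) (n false e e))) (n false e e)) e) e) (n false e e)) 16392 (.s (n false (n false e e) e) 16386 (.s (n false (n false (n false e e) (n false e e)) (n false e e)) 16390 (.s (n true (n true (n false (n false (n false e e) (n false e e)) (n false (n false e e) (n false e e))) e) e) 16383 .z)))))) .z
  (.s (.s (n false e e) 16387 (.s (n false (n false e e) (n false e e)) 16388 (.s (n true (n false e e) e) 16389 (.s (n false (n false (n false e e) (n false e e)) (n false e e)) 16390 .z)))) .z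
  (.s (.s (n false (n false e e) (n false e e)) 16388 (.s (n false (n false (n false e e) (n false e e)) (n false e e)) 16390 (.s (n true (n false e e) e) 16389 .z))) .z
  (.s (.s (n false (n true (n false e e) e) (n false e e)) 16389 (.s (n false e e) 16385 (.s (n false (n false e e) (n false e e)) 16395 (.s (n true (n true (n false (n false (n false (n false e e) (n false e e)) (n false (n false e e) (n false e e))) (n false e e)) e) e) 16384 .z)))) (.s 47 2 .z)
  (.s (.s (n false (n true (n false e e) e) (n false e e)) 16395 (.s (n false e e) 16385 (.s (n false (n true (n false (n false (n false e e) (n false e e)) (n false (n false e e) (n false e e))) e) (n false e e)) 16390 (.s (n false (n false e e) (n false e e)) 16386 .z)))) (.s 47 2 .z)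
  (.s (.s (n true (n false e e) e) 16389 (.s (n false (n false (n false e e) (n false e e)) (n false e e)) 16390 (.s (n false (n true (n false (n false (n false (n false e e) (n false e e)) (n false (n false e e) (n false e e))) (n false e e)) e) (n false e e)) 16385 .z))) .z
  (.s (.s (n false (n true (n false e e) e) (n false e e)) 16389 (.s (n false (n false e e) e) 16386 (.s (n false (n false (n false e e) (n false e e)) (n false e e)) 16390 (.s (n false (n true (n true (n false (n false (n false e e) (n false e e)) (n false (n false e e) (n false e e))) e) e) (n false e e)) 16390 (.s (n false (n false (n true (n false (n false (n false (n false e e) (n false e e)) (n false (n false e e) (n false e e))) (n false e e)) e) (n false (n false (n false e e) (n false e e)) (n false (n false e e) (n false e e)))) (n false e e)) 16387 (.s (n false (n false (n true (n false (n false e e) (n false e e)) e) e) (n false e e)) 16390 (.s (n true (n true (n false (n false (n false e e) (n false e e)) (n false (n false e e) (n false e e))) e) e) 16383 (.s (n false (n true (n false (n false (n false (n false e e) (n false e e)) (n false (n false e e) (n false e e))) (n false e e)) e) (n true (n false (n false (n false e e) (n false e e)) (n false (n false e e) (n false e e))) e)) 16385 .z))))))))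 (.s 38 14 (.s 66 2 .z))
  (.s (.s (n false (n true (n false e e) e) (n false e e)) 16389 (.s (n true (n true (n false (n false (n false (n false e e) (n false e e)) (n false (n false e e) (n false e e))) (n false e e)) e) e) 16386 (.s (n false e e) 16385 (.s (n false (n false (n false e e) (n false e e)) (n false e e)) 16390 (.s (n false (n false (n true (n false (n false e e) (n false e e)) e) e) (n false e e)) 16390 (.s (n true (n true (n false (n false (n false e e) (n false e e)) (n false (n false e e) (n false e e))) e) e) 16383 (.s (n false (n true (n false (n false (n false (n false e e) (n false e e)) (n false (n false e e) (n false e e))) (n false e e)) e) (n true (n false e e) e)) 16392 .z))))))) (.s 66 2 .z)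
  (.s (.s (n false (n true (n false e e) e) (n false e e)) 16394 (.s (n false (n false e e) e) 16386 (.s (n false (n false e e) (n false e e)) 16395 (.s (n false (n false (n false e e) (n false e e)) (n false e e)) 16390 (.s (n true (n true (n false (n false (n false (n false e e) (n false e e)) (n false (n false e e) (n false e e))) (n false e e)) e) e) 16384 .z))))) .z
  (.s (.s (n false (n true (n false e e) e) (n false e e)) 16389 (.s (n false (n true (n false (n false (n false (n false e e) (n false e e)) (n false (n false e e) (n false e e))) (n false e e)) e) (n false e e)) 16385 (.s (n false (n false e e) e) 16386 (.s (n false (n true (n false (n false (n false e e) (n false e e)) (n false (n false e e) (n false e e))) e) (n false e e)) 16390 (.s (n true (n true (n false (n false (n false (n false e e) (n false e e)) (n false (n false e e) (n false e e))) (n false e e)) e) e) 16384 (.s (n true (n false e e) e) 16385 (.s (n false (n false (n false e e) (n false e e)) (n false e e)) 16390 (.s (n false (n true (n true (n false (n false (n false (n false e e) (n false e e)) (n false (n false e e) (n false e e))) (n false e e)) e) e) (n false e e)) 16391 .z)))))))) .z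
  (.s (.s (n false (n true (n false e e) e) (n false e e)) 16389 (.s (n false (n false e e) e) 16386 (.s (n false (n true (n false (n false (n false e e) (n false e e)) (n false (n false e e) (n false e e))) e) (n false e e)) 16390 (.s (n false (n true (n false (n false (n false (n false e e) (n false e e)) (n false (n false e e) (n false e e))) (n false e e)) e) (n false e e)) 16385 (.s (n false (n false (n true (n false (n false (n false (n false e e) (n false e e)) (n false (n false e e) (n false e e))) (n false e e)) e) (n false (n false (n false e e) (n false e e)) (n false (n false e e) (n false e e)))) (n false e e)) 16387 (.s (n false (n false (n false e e) (n false e e)) (n false e e)) 16390 (.s (n false (n false (n true (n false (n false e e) (n false e e)) e) e) (n false e e)) 16390 (.s (n false (n true (n false (n false (n false (n false e e) (n false e e)) (n false (n false e e) (n false e e))) e) e) (n false e e)) 16390 .z)))))))) .z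
  (.s (.s (n false (n true (n false e e) e) (n false e e)) 16394 (.s (n false (n false e e) e) 16386 (.s (n false (n false e e) (n false e e)) 16386 (.s (n false (n true (n false (n false (n false e e) (n false e e)) (n false (n false e e) (n false e e))) e) (n false e e)) 16390 (.s (n false (n false (n false e e) (n false e e)) (n false e e)) 16390 (.s (n false (n true (n false (n false (n false (n false e e) (n false e e)) (n false (n false e e) (n false e e))) e) e) (n false e e)) 16390 (.s (n false (n true (n true (n false (n false (n false (n false e e) (n false e e)) (n false (n false e e) (n false e e))) (n false e e)) e) e) (n false e e)) 16392 .z))))))) (.s 38 14 (.s 66 2 .z))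
  (.s (.s (n false (n true (n false e e) e) (n false e e)) 16389 (.s (n false e e) 16400 (.s (n false (n false e e) (n false e e)) 16388 .z))) (.s 47 2 .z)
  (.s (.s (n false (n false e e) (n false e e)) 16395 (.s (n false (n true (n false e e) e) (n false e e)) 16389 (.s (n false e e) 16385 (.s (n true (n false (n false (n false (n false e e) (n false e e)) (n false (n false e e) (n false e e))) (n false e e)) e) 16401 .z)))) (.s 47 2 .z)
  (.s (.s (n false (n false e e) (n false e e)) 16393 (.s (n false (n true (n false e e) e) (n false e e)) 16389 (.s (n false (n false (n true (n false (n false (n false (n false e e) (n false e e)) (n false (n false e e) (n false e e))) (n false e e)) e) (n false (n false (n false e e) (n false e e)) (n false (n false e e) (n false e e)))) (n false e e)) 16387 (.s (n false (n false e e) e) 16386 (.s (n false (n true (n false (n false (n false e e) (n false e e)) (n false (n false e e) (n false e e))) e) (n false e e)) 16390 (.s (n false (n true (n false (n false (n false (n false e e) (n false e e)) (n false (n false e e) (n false e e))) e) e) (n false e e)) 16390 .z)))))) (.s 47 2 .z)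
  (.s (.s (n false (n true (n false e e) e) (n false e e)) 16389 (.s (n false (n false e e) (n false e e)) 16394 (.s (n false (n false e e) e) 16386 (.s (n false (n false (n true (n false (n false (n false (n false e e) (n false e e)) (n false (n false e e) (n false e e))) (n false e e)) e) (n false (n false (n false e e) (n false e e)) (n false (n false e e) (n false e e)))) (n false e e)) 16387 (.s (n false (n true (n false (n false (n false e e) (n false e e)) (n false (n false e e) (n false e e))) e) (n false e e)) 16390 .z))))) (.s 47 2 .z)
  (.s (.s (n false (n true (n false e e) e) (n false e e)) 16394 (.s (n false e e) 16387 (.s (n false (n false (n false e e) (n false e e)) (n false e e)) 16390 (.s (n false (n false (n true (n false (n false e e) (n false e e)) e) e) (n false e e)) 16390 (.s (n false (n true (n false (n false (n false e e) (n false e e)) (n false (n false e e) (n false e e))) e) (n false e e)) 16388 (.s (n false (n true (n false (n false (n false (n false e e) (n false e e)) (n false (n false e e) (n false e e))) e) e) (n false e e)) 16390 (.s (n false (n true (n true (n false (n false (n false (n false e e) (n false e e)) (n false (n false e e) (n false e e))) (n false e e)) e) e) (n false e e)) 16392 .z))))))) (.s 38 14 (.s 66 2 .z))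
  (.s (.s (n true (n false e e) e) 16389 (.s (n false (n true (n false (n false (n false (n false e e) (n false e e)) (n false (n false e e) (n false e e))) (n false e e)) e) (n true (n false e e) e)) 16392 .z)) (.s 47 2 .z)
  (.s (.s (n false (n true (n false e e) e) (n false e e)) 16389 (.s (n false (n false e e) e) 16386 (.s (n false (n false e e) (n false e e)) 16393 (.s (n true (n true (n false (n false (n false (n false e e) (n false e e)) (n false (n false e e) (n false e e))) (n false e e)) e) e) 16384 (.s (n true (n true (n false (n false (n false e e) (n false e e)) (n false (n false e e) (n false e e))) e) e) 16383 (.s (n false (n true (n true (n false (n false (n false (n false e e) (n false e e)) (n false (n false e e) (n false e e))) (n false e e)) e) e) (n false e e)) 16391 .z)))))) (.s 47 2 .z)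
  (.s (.s (n false (n true (n false e e) e) (n false e e)) 16389 (.s (n false (n false e e) e) 16386 (.s (n false (n false e e) (n false e e)) 16393 (.s (n false (n true (n false (n false (n false e e) (n false e e)) (n false (n false e e) (n false e e))) e) (n false e e)) 16400 (.s (n false (n true (n false (n false (n false (n false e e) (n false e e)) (n false (n false e e) (n false e e))) e) e) (n false e e)) 16390 (.s (n false (n true (n true (n false (n false (n false (n false e e) (n false e e)) (n false (n false e e) (n false e e))) (n false e e)) e) e) (n false e e)) 16392 .z)))))) (.s 47 2 .z)
  (.s (.s (n false (n true (n false e e) e) (n false e e)) 16389 (.s (n false (n false e e) (n false e e)) 16388 (.s (n true (n true (n false (n false (n false (n false e e) (n false e e)) (n false (n false e e) (n false e e))) (n false e e)) e) e) 16386 (.s (n false (n false e e) e) 16386 (.s (n false (n false (n false e e) (n false e e)) (n false e e)) 16390 (.s (n true (n true (n false (n false (n false e e) (n false e e)) (n false (n false e e) (n false e e))) e) e) 16383 (.s (n false (n true (n true (n false (n false (n false (n false e e) (n false e e)) (n false (n false e e) (n false e e))) (n false e e)) e) e) (n false e e)) 16391 .z))))))) .z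
  (.s (.s (n false (n true (n false e e) e) (n false e e)) 16395 (.s (n false (n false (n false e e) (n false e e)) (n false e e)) 16390 (.s (n false (n false e e) (n false e e)) 16393 (.s (n false (n false e e) e) 16386 (.s (n true (n true (n false (n false (n false e e) (n false e e)) (n false (n false e e) (n false e e))) e) e) 16383 .z))))) .z
  (.s (.s (n false (n true (n false e e) e) (n false e e)) 16389 (.s (n false (n false e e) (n false e e)) 16393 (.s (n true (n false e e) e) 16386 (.s (n true (n true (n false (n false (n false (n false e e) (n false e e)) (n false (n false e e) (n false e e))) (n false e e)) e) e) 16384 (.s (n false (n false (n false e e) (n false e e)) (n false e e)) 16390 (.s (n true (n true (n false (n false (n false e e) (n false e e)) (n false (n false e e) (n false e e))) e) e) 16383 .z)))))) .z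
  (.s (.s (n false (n true (n false e e) e) (n false e e)) 16394 (.s (n true (n false e e) e) 16386 (.s (n false (n false (n false e e) (n false e e)) (n false e e)) 16390 (.s (n true (n true (n false (n false (n false (n false e e) (n false e e)) (n false (n false e e) (n false e e))) (n false e e)) e) e) 16386 (.s (n false (n true (n false (n false (n false (n false e e) (n false e e)) (n false (n false e e) (n false e e))) (n false e e)) e) (n false e e)) 16385 (.s (n true (n true (n false (n false (n false e e) (n false e e)) (n false (n false e e) (n false e e))) e) e) 16383 .z)))))) .z
  (.s (.s (n false (n true (n false e e) e) (n false e e)) 16389 (.s (n false (n false e e) e) 16386 (.s (n false (n false e e) (n false e e)) 16386 (.s (n false (n false (n false e e) (n false e e)) (n false e e)) 16390 (.s (n false (n true (n false (n false (n false e e) (n false e e)) (n false (n false e e) (n false e e))) e) (n false e e)) 16390 (.s (n false (n false (n true (n false (n false (n false (n false e e) (n false e e)) (n false (n false e e) (n false e e))) (n false e e)) e) (n false (n false (n false e e) (n false e e)) (n false (n false e e) (n false e e)))) (n false e e)) 16387 (.s (n false (n true (n false (n false (n false (n false e e) (n false e e)) (n false (n false e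 e) (n false e e))) e) e) (n false e e)) 16390 .z))))))) (.s 38 14 (.s 66 2 .z))
  (.s (.s (n false e e) 16400 (.s (n false (n false e e) (n false e e)) 16388 (.s (n false (n true (n false e e) e) (n false e e)) 16389 .z))) (.s 47 2 .z)
  (.s (.s (n false (n true (n false e e) e) (n false e e)) 16389 (.s (n false (n false e e) e) 16386 (.s (n false (n true (n false (n false (n false (n false e e) (n false e e)) (n false (n false e e) (n false e e))) (n false e e)) e) (n true (n false e e) e)) 16392 (.s (n false (n false (n false e e) (n false e e)) (n false e e)) 16390 (.s (n false (n false (n true (n false (n false e e) (n false e e)) e) e) (n false e e)) 16390 (.s (n true (n true (n false (n false (n false e e) (n false e e)) (n false (n false e e) (n false e e))) e) e) 16383 (.s (n false (n true (n false (n false (n false e e) (n false e e)) (n false (n false e e) (n false e e))) e) (n false e e)) 16388 (.s (n true (n false (n true (n false (n false (n false (n false e e) (n false e e)) (n false (n false e e) (n false e e))) (n false e e)) e) (n false (n false (n false e e) (n false e e)) (n false (n false e e) (n false e e)))) e) 16385 .z)))))))) (.s 66 2 .z)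
  (.s (.s (n false (n true (n false e e) e) (n false e e)) 16389 (.s (n false (n true (n false (n false (n false e e) (n false e e)) (n false (n false e e) (n false e e))) e) (n false e e)) 16390 (.s (n false (n true (n false (n false (n false (n false e e) (n false e e)) (n false (n false e e) (n false e e))) (n false e e)) e) (n false e e)) 16385 (.s (n false (n true (n true (n false (n false (n false (n false e e) (n false e e)) (n false (n false e e) (n false e e))) (n false e e)) e) e) (n false e e)) 16392 (.s (n false (n false e e) e) 16386 (.s (n false (n false e e) (n false e e)) 16386 (.s (n false (n false (n false e e) (n false e e)) (n false e e)) 16390 (.s (n false (n true (n false (n false (n false (n false e e) (n false e e)) (n false (n false e e) (n false e e))) e) e) (n false e e)) 16390 .z)))))))) .z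
  (.s (.s (n false (n true (n false e e) e) (n false e e)) 16389 (.s (n false (n false e e) (n false e e)) 16388 (.s (n false (n false e e) e) 16386 (.s (n false (n true (n false (n false (n false e e) (n false e e)) (n false (n false e e) (n false e e))) e) (n false e e)) 16390 (.s (n false (n true (n false (n false (n false (n false e e) (n false e e)) (n false (n false e e) (n false e e))) (n false e e)) e) (n true (n false e e) e)) 16392 (.s (n false (n true (n true (n false (n false (n false (n false e e) (n false e e)) (n false (n false e e) (n false e e))) (n false e e)) e) e) (n false e e)) 16391 .z)))))) (.s 47 2 .z)
  (.s (.s (n false e e) 16387 (.s (n false (n false e e) (n false e e)) 16388 (.s (n false (n false (n false e e) (n false e e)) (n false e e)) 16390 (.s (n true (n false e e) e) 16389 .z)))) .z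
  (.s (.s (n false (n true (n false e e) e) (n false e e)) 16394 (.s (n false (n false (n false e e) (n false e e)) (n false e e)) 16390 (.s (n false (n false e e) (n false e e)) 16395 (.s (n false e e) 16385 (.s (n true (n true (n false (n false (n false (n false e e) (n false e e)) (n false (n false e e) (n false e e))) (n false e e)) e) e) 16384 .z))))) .z
  (.s (.s (n false (n true (n false e e) e) (n false e e)) 16394 (.s (n false (n false e e) (n false e e)) 16395 (.s (n false (n false e e) e) 16386 (.s (n false (n false (n false e e) (n false e e)) (n false e e)) 16390 (.s (n true (n true (n false (n false (n false (n false e e) (n false e e)) (n false (n false e e) (n false e e))) (n false e e)) e) e) 16384 .z))))) .z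
  (.s (.s (n false (n true (n false e e) e) (n false e e)) 16389 (.s (n false (n false e e) e) 16386 (.s (n false (n false e e) (n false e e)) 16395 (.s (n false (n false (n true (n false (n false (n false (n false e e) (n false e e)) (n false (n false e e) (n false e e))) (n false e e)) e) (n false (n false (n false e e) (n false e e)) (n false (n false e e) (n false e e)))) (n false e e)) 16387 .z)))) (.s 47 2 .z)
  (.s (.s (n false (n true (n false e e) e) (n false e e)) 16395 (.s (n false (n false e e) (n false e e)) 16393 (.s (n false (n false e e) e) 16386 (.s (n false (n false (n false e e) (n false e e)) (n false e e)) 16390 (.s (n false (n true (n false (n false (n false e e) (n false e e)) (n false (n false e e) (n false e e))) e) (n false e e)) 16390 .z))))) .z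
  (.s (.s (n false (n true (n false e e) e) (n false e e)) 16399 (.s (n false e e) 16387 (.s (n false (n false e e) (n false e e)) 16393 (.s (n false (n false (n false e e) (n false e e)) (n false e e)) 16390 .z)))) .z
  (.s (.s (n false (n true (n false e e) e) (n false e e)) 16401 (.s (n false (n false e e) e) 16386 .z)) (.s 28 5 .z)
  (.s (.s (n false (n true (n false e e) e) (n false e e)) 16395 (.s (n false (n false e e) (n false e e)) 16395 (.s (n false (n false e e) e) 16386 (.s (n false (n false (n false e e) (n false e e)) (n false e e)) 16390 .z)))) .z
  (.s (.s (n false (n true (n false e e) e) (n false e e)) 16389 (.s (n false (n false e e) (n false e e)) 16388 (.s (n false (n false e e) e) 16386 (.s (n true (n true (n false (n false (n false e e) (n false e e)) (n false (n false e e) (n false e e))) e) e) 16383 (.s (n false (n true (n true (n false (n false (n false (n false e e) (n false e e)) (n false (n false e e) (n false e e))) (n false e e)) e) e) (n false e e)) 16392 (.s (n false (n true (n false (n false (n false e e) (n false e e)) (n false (n false e e) (n false e e))) e) (n false e e)) 16388 (.s (n false (n true (n false (n false (n false (n false e e) (n false e e)) (n false (n false e e) (n false e e))) e) e) (n false e e)) 16390 .z))))))) (.s 47 2 .z)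
  (.s (.s (n false (n true (n false e e) e) (n false e e)) 16395 (.s (n false (n false e e) e) 16386 (.s (n true (n true (n false (n false (n false (n false e e) (n false e e)) (n false (n false e e) (n false e e))) (n false e e)) e) e) 16386 (.s (n false (n false (n false e e) (n false e e)) (n false e e)) 16390 (.s (n false (n false (n true (n false (n false e e) (n false e e)) e) e) (n false e e)) 16390 (.s (n true (n true (n false (n false (n false e e) (n false e e)) (n false (n false e e) (n false e e))) e) e) 16383 .z)))))) .z
  (.s (.s (n false (n true (n false e e) e) (n false e e)) 16389 (.s (n false (n false e e) (n false e e)) 16394 (.s (n false (n false e e) e) 16386 (.s (n true (n true (n false (n false (n false e e) (n false e e)) (n false (n false e e) (n false e e))) e) e) 16383 (.s (n false (n true (n true (n false (n false (n false (n false e e) (n false e e)) (n false (n false e e) (n false e e))) (n false e e)) e) e) (n false e e)) 16392 .z))))) (.s 47 2 .z)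
  (.s (.s (n false (n true (n false e e) e) (n false e e)) 16389 (.s (n false (n false e e) e) 16386 (.s (n true (n false e e) e) 16385 (.s (n false (n false (n false e e) (n false e e)) (n false e e)) 16390 (.s (n false (n false e e) (n false e e)) 16388 (.s (n false (n true (n false (n false (n false e e) (n false e e)) (n false (n false e e) (n false e e))) e) (n false e e)) 16390 (.s (n false (n true (n true (n false (n false (n false (n false e e) (n false e e)) (n false (n false e e) (n false e e))) (n false e e)) e) e) (n false e e)) 16392 (.s (n false (n true (n false (n false (n false (n false e e) (n false e e)) (n false (n false e e) (n false e e))) e) e) (n false e e)) 16390 .z)))))))) .z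
  (.s (.s (n false (n true (n false e e) e) (n false e e)) 16389 (.s (n false (n true (n false (n false (n false e e) (n false e e)) (n false (n false e e) (n false e e))) e) (n false e e)) 16401 (.s (n false (n false e e) e) 16386 (.s (n true (n true (n false (n false (n false (n false e e) (n false e e)) (n false (n false e e) (n false e e))) (n false e e)) e) e) 16384 (.s (n false (n false e e) (n false e e)) 16388 .z))))) (.s 47 2 .z)
  (.s (.s (n false (n true (n false e e) e) (n false e e)) 16395 (.s (n false (n false e e) e) 16386 (.s (n false (n false e e) (n false e e)) 16386 (.s (n false (n true (n false (n false (n false (n false e e) (n false e e)) (n false (n false e e) (n false e e))) (n false e e)) e) (n false e e)) 16390 (.s (n true (n true (n false (n false (n false e e) (n false e e)) (n false (n false e e) (n false e e))) e) e) 16383 .z))))) (.s 47 2 .z)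
  (.s (.s (n false (n true (n false e e) e) (n false e e)) 16394 (.s (n false (n false e e) (n false e e)) 16393 (.s (n false e e) 16385 (.s (n true (n true (n false (n false (n false e e) (n false e e)) (n false (n false e e) (n false e e))) e) e) 16383 (.s (n false (n true (n false (n false (n false (n false e e) (n false e e)) (n false (n false e e) (n false e e))) (n false e e)) e) (n true (n false e e) e)) 16392 .z))))) (.s 47 2 .z)
  (.s (.s (n false (n true (n false e e) e) (n false e e)) 16389 (.s (n false e e) 16387 (.s (n false (n false e e) (n false e e)) 16388 (.s (n false (n true (n false (n false (n false (n false e e) (n false e e)) (n false (n false e e) (n false e e))) (n false e e)) e) (n true (n false e e) e)) 16392 (.s (n false (n true (n false (n false (n false e e) (n false e e)) (n false (n false e e) (n false e e))) e) (n false e e)) 16388 .z))))) (.s 47 2 .z)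
  (.s (.s (n false (n true (n false e e) e) (n false e e)) 16400 (.s (n false (n false e e) e) 16386 (.s (n false (n true (n false e e) e) (n false e e)) 16401 (.s (n true (n true (n false (n false (n false e e) (n false e e)) (n false (n false e e) (n false e e))) e) e) 16383 .z)))) .z
  (.s (.s (n false (n true (n false e e) e) (n false e e)) 16389 (.s (n false (n false e e) (n false e e)) 16388 (.s (n false (n false e e) e) 16386 (.s (n false (n false (n false e e) (n false e e)) (n false e e)) 16390 (.s (n false e e) 16387 (.s (n false (n true (n false (n false (n false e e) (n false e e)) (n false (n false e e) (n false e e))) e) (n false e e)) 16388 (.s (n false (n true (n false (n false (n false (n false e e) (n false e e)) (n false (n false e e) (n false e e))) e) e) (n false e e)) 16390 (.s (n false (n true (n true (n false (n false (n false (n false e e) (n false e e)) (n false (n false e e) (n false e e))) (n false e e)) e) e) (n false e e)) 16392 .z)))))))) .z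
  (.s (.s (n false e e) 16398 (.s (n false (n true (n false e e) e) (n false e e)) 16389 (.s (n false (n false e e) (n false e e)) 16393 (.s (n false (n false (n false e e) (n false e e)) (n false e e)) 16390 .z)))) .z
  (.s (.s (n false (n true (n false e e) e) (n false e e)) 16395 (.s (n false e e) 16387 (.s (n false (n false e e) (n false e e)) 16386 (.s (n false (n true (n false e e) e) (n false e e)) 16401 .z)))) .z
  (.s (.s (n false (n false (n false e e) (n false e e)) (n false e e)) 16390 (.s (n true (n false e e) e) 16389 (.s (n false (n false e e) (n false e e)) 16388 .z))) .z
  .z)))))))))))))))))))))))))))))))))))))))))))))))))))))))))))))))))))))))))))))))))))))))))))))))))))))))))))))))))))))))))))))))))))))))))))))))))))))))))))))))))))))))))))))))))))))))))))))))))))))))))))))))))))))))))))))))))))))))))))))))))))))))))))))))))))))))))))))))))))))))))))))))))))))))))))))))))))))))))))))))))))))))))))))))))))))))))))))))))))))))))))))))))))))))))))))))))))))))))))))))))))))))))))))))))))))))))))))))))))))))))))))))))))))))))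

end Pool.Agent.Helper91.ND1
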