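import Pool.Agent.Helper66.ND.Defs

/-! part of the certificate for the constant 25/48 (generated) -/

namespace Pool.Agent.Helper91.ND1

open Pool.Agent.Helper66.IL
open Pool.Agent.Helper66.IL.MB
open Pool.Agent.Helper66.ND

set_option maxRecDepth 100000 in
def A53 : AE :=
 (.s 4096 4097 (.s 48 2 (.s 87 2 .z))
 (.s 0x288 4100 (n false (n false e e) (n false e e)) (.s 0x70 4099 (n true (n false e e) e) .z .z) .z)
 (.s .z (.s 48 2 (.s 87 2 .z))
  .z))

set_option maxRecDepth 100000 in
def A54 : AE :=
 (.s 4096 4097 (.s 50 0 .z)
 (.s 0x70 4111 (n true (n false e e) e) (.s 0x50 4111 (n false (n false e e) e) (.s 0x8 4098 (n false e e) .z .z) .z) (.s 0xba20 4102 (n false (n true (n false (n false e e) (n false e e)) e) e) .z .z))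
 (.s .z (.s 50 0 .z)
  .z))

set_option maxRecDepth 100000 in
def A55 : AE :=
 (.s 4096 4096 (.s 50 2 (.s 28 13 .z))
 (.s 0x70 4098 (n true (n false e e) e) (.s 0x8 4121 (n false e e) .z .z) (.s 0x288 4111 (n false (n false e e) (n false e e)) .z .z))
 (.s .z (.s 28 13 (.s 50 2 .z))
  (.s (.s (n true (n true (n false (n false (n false (n false e e) (n false e e)) (n false (n false e e) (n false e e))) (n false e e)) e) e) 16383 .z) (.s 50 2 .z)
  (.s (.s (n false (n true (n false (n false e e) (n false e e)) e) (n false e e)) 16390 .z) (.s 28 13 .z)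
  (.s (.s (n false (n true (n false (n false e e) (n false e e)) e) (n false e e)) 16390 (.s (n true (n true (n false (n false (n false (n false e e) (n false e e)) (n false (n false e e) (n false e e))) (n false e e)) e) e) 16383 .z)) .z
  (.s .z (.s 50 2 (.s 28 13 .z))
  (.s (.s (n false (n true (n false (n false e e) (n false e e)) e) (n false e e)) 16390 (.s (n false (n true (n false (n false (n false (n false e e) (n false e e)) (n false (n false e e) (n false e e))) (n false e e)) e) (n false e e)) 16390 .z)) .z
  (.s (.s (n false (n false e e) (n false e e)) 16393 .z) (.s 50 2 .z)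
  (.s (.s (n true (n true (n false (n false (n false (n false e e) (n false e e)) (n false (n false e e) (n false e e))) (n false e e)) e) e) 16383 (.s (n false (n true (n false (n false e e) (n false e e)) e) (n false e e)) 16390 .z)) .z
  (.s (.s (n false (n true (n false (n false (n false (n false e e) (n false e e)) (n false (n false e e) (n false e e))) (n false e e)) e) (n false e e)) 16390 (.s (n false (n true (n false (n false e e) (n false e e)) e) (n false e e)) 16390 .z)) .z
  (.s (.s (n false (n false e e) (n false e e)) 16393 (.s (n false (n true (n false (n false e e) (n false e e)) e) (n false e e)) 16390 .z)) .z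
  (.s (.s (n false (n true (n false (n false (n false (n false e e) (n false e e)) (n false (n false e e) (n false e e))) (n false e e)) e) (n false e e)) 16390 .z) (.s 50 2 .z)
  (.s (.s (n false e e) 16397 .z) (.s 50 2 .z)
  (.s (.s (n false (n true (n false (n false e e) (n false e e)) e) (n false e e)) 16390 (.s (n false (n false e e) (n false e e)) 16393 .z)) .z
  .z))))))))))))))

set_option maxRecDepth 100000 in
def A56 : AE :=
 (.s 4096 4096 (.s 54 0 (.s 37 16 (.s 89 1 (.s 54 37 .z))))
 (.s 0x8 4097 (n false e e) .z .z)
 (.s .z (.s 54 0 (.s 37 16 (.s 89 1 (.s 54 37 .z))))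
  (.s .z (.s 89 1 (.s 54 0 (.s 37 16 (.s 54 37 .z))))
  (.s .z (.s 54 0 (.s 89 1 (.s 37 16 (.s 54 37 .z))))
  .z))))

set_option maxRecDepth 100000 in
def A57 : AE :=
 (.s 4096 4095 (.s 19 19 (.s 47 3 (.s 37 19 .z)))
 (.s 0x1d10 4111 (n true (n false (n false e e) (n false e e)) e) .z .z)
 (.s (.s (n true (n false (n false e e) (n false e e)) e) 16387 .z) (.s 19 19 (.s 47 3 .z))
  (.s (.s (n true (n false (n false e e) (n false e e)) e) 16393 .z) (.s 19 19 .z)
  .z)))

set_option maxRecDepth 100000 in
def A58 : AE :=
 (.s 4096 4095 (.s 26 6 .z)
 (.s 0xea88a20 4098 (n true (n false (n false (n false (n false e e) (n false e e)) (n false (n false e e) (n false e e))) e) e) (.s 0xfa20 4112 (n true (n true (n false (n false e e) (n false e e)) e) e) (.s 0x8 4102 (n false e e) .z .z) .z) (.s 0x15511442a2288 4099 (n false (n false (n false (n false (n false e e) (n false e e)) (n false (n false e e) (n false e e))) e) (n false (n false (n false e e) (n false e e)) (n false (n false e e) (n false e e)))) (.s 0xaa88a21d10 4108 (n false (n false (n false (n false (n false e e) (n false e e)) (n false (n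 false e e) (n false e e))) e) (n true (n false (n false e e) (n false e e)) e)) .z .z) .z))
 (.s .z (.s 26 6 .z)
  .z))

set_option maxRecDepth 100000 in
def A59 : AE :=
 (.s 4096 4098 (.s 28 4 .z)
 (.s 0x70 4109 (n true (n false e e) e) (.s 0x8 4102 (n false e e) .z .z) (.s 0x1d44510 4097 (n true (n false (n false (n false e e) (n false e e)) (n false (n false e e) (n false e e))) e) .z .z))
 (.s .z (.s 28 4 .z)
  .z))

set_option maxRecDepth 100000 in
def A60 : AE :=
 (.s 4096 4095 (.s 31 4 .z)
 (.s 0xaa2288ba20 4108 (n false (n false (n false (n false e e) (n false e e)) (n false (n false e e) (n false e e))) (n false (n true (n false (n false e e) (n false e e)) e) e)) (.s 0x1d44510 4097 (n true (n false (n false (n false e e) (n false e e)) (n false (n false e e) (n false e e))) e) (.s 0x8 4102 (n false e e) .z .z) .z) (.s 0x15511442a2288 4099 (n false (n false (n false (n false (n false e e) (n false e e)) (n false (n false e e) (n false e e))) e) (n false (n false (n false e e) (n false e e)) (n false (n false e e) (n false e e)))) .z .z))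
 (.s .z (.s 31 4 .z)
  .z))

set_option maxRecDepth 100000 in
def A61 : AE :=
 (.s 4096 4095 (.s 52 2 .z)
 (.s 0x288 4098 (n false (n false e e) (n false e e)) (.s 0x70 4097 (n true (n false e e) e) .z .z) .z)
 (.s .z (.s 52 2 .z)
  .z))

set_option maxRecDepth 100000 in
def A62 : AE :=
 (.s 4096 4095 (.s 54 2 (.s 55 2 (.s 58 0 (.s 32 13 (.s 37 13 .z)))))
 (.s 0x70 4097 (n true (n false e e) e) .z .z)
 (.s (.s (n true (n true (n false (n false (n false (n false e e) (n false e e)) (n false (n false e e) (n false e e))) (n false e e)) e) e) 16382 (.s (n false (n false (n false e e) (n false e e)) (n false e e)) 16388 (.s (n false (n false e e) e) 16385 .z))) (.s 54 2 .z)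
  (.s (.s (n false (n true (n false e e) e) (n false e e)) 16387 (.s (n false (n false e e) e) 16385 (.s (n false (n true (n false (n false (n false (n false e e) (n false e e)) (n false (n false e e) (n false e e))) e) e) (n false e e)) 16388 .z))) (.s 54 2 .z)
  (.s (.s (n false (n true (n false e e) e) (n false e e)) 16387 (.s (n false (n false e e) e) 16385 (.s (n true (n true (n false (n false (n false (n false e e) (n false e e)) (n false (n false e e) (n false e e))) (n false e e)) e) e) 16382 .z))) (.s 54 2 .z)
  (.s (.s (n false (n true (n false e e) e) (n false e e)) 16387 (.s (n false e e) 16384 (.s (n false (n true (n false (n false (n false (n false e e) (n false e e)) (n false (n false e e) (n false e e))) e) e) (n false e e)) 16388 .z))) (.s 54 2 .z)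
  (.s (.s (n false (n true (n false e e) e) (n false e e)) 16387 (.s (n false (n false e e) e) 16385 (.s (n false (n false e e) (n false e e)) 16392 .z))) (.s 54 2 .z)
  (.s (.s (n false (n true (n false e e) e) (n false e e)) 16393 (.s (n false (n false e e) e) 16385 .z)) .z
  (.s (.s (n false (n true (n false e e) e) (n false e e)) 16387 (.s (n false e e) 16384 (.s (n false (n true (n false (n false (n false (n false e e) (n false e e)) (n false (n false e e) (n false e e))) (n false e e)) e) (n true (n false e e) e)) 16390 .z))) (.s 54 2 .z)
  (.s (.s (n false (n true (n false e e) e) (n false e e)) 16387 (.s (n false (n false e e) e) 16385 (.s (n false (n true (n false (n false (n false (n false e e) (n false e e)) (n false (n false e e) (n false e e))) (n false e e)) e) (n true (n false e e) e)) 16390 .z))) (.s 54 2 .z)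
  (.s (.s (n false (n false (n false e e) (n false e e)) (n false e e)) 16388 (.s (n false (n false e e) e) 16385 (.s (n false (n true (n false e e) e) (n false e e)) 16387 (.s (n false (n true (n false (n false (n false (n false e e) (n false e e)) (n false (n false e e) (n false e e))) e) e) (n false e e)) 16388 .z)))) (.s 54 2 .z)
  (.s (.s (n false (n true (n false e e) e) (n false e e)) 16387 (.s (n false e e) 16384 (.s (n false (n true (n false (n false (n false (n false e e) (n false e e)) (n false (n false e e) (n false e e))) (n false e e)) e) (n false e e)) 16389 .z))) (.s 54 2 .z)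
  (.s (.s (n false (n true (n false e e) e) (n false e e)) 16393 (.s (n false e e) 16384 .z)) .z
  (.s (.s (n false (n true (n false e e) e) (n false e e)) 16387 (.s (n false e e) 16384 (.s (n true (n true (n false (n false (n false (n false e e) (n false e e)) (n false (n false e e) (n false e e))) (n false e e)) e) e) 16382 .z))) (.s 54 2 .z)
  (.s (.s (n false (n true (n false e e) e) (n false e e)) 16387 (.s (n false (n false e e) (n false e e)) 16392 (.s (n false (n false e e) e) 16385 .z))) (.s 54 2 .z)
  (.s (.s (n false (n false (n false e e) (n false e e)) (n false e e)) 16388 (.s (n false (n false e e) e) 16385 (.s (n false (n false e e) (n false e e)) 16392 (.s (n false (n true (n false e e) e) (n false e e)) 16387 .z)))) (.s 54 2 .z)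
  .z)))))))))))))))

set_option maxRecDepth 100000 in
def A63 : AE :=
 (.s 4096 4096 (.s 24 14 .z)
 .z
 (.s .z (.s 24 14 .z)
  .z))

set_option maxRecDepth 100000 in
def A64 : AE :=
 (.s 4096 4099 (.s 28 7 .z)
 (.s 0x3e0 4102 (n true (n true (n false e e) e) e) (.s 0x70 4107 (n true (n false e e) e) (.s 0x8 4100 (n false e e) .z .z) .z) (.s 0x75445110 4097 (n true (n false (n false (n false (n false e e) (n false e e)) (n false (n false e e) (n false e e))) (n false e e)) e) (.s 0x1708 4109 (n false (n true (n false e e) e) (n false e e)) .z .z) .z))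
 (.s .z (.s 28 7 .z)
  .z))

set_option maxRecDepth 100000 in
def A65 : AE :=
 (.s 4096 4096 (.s 61 2 .z)
 (.s 0x288 4102 (n false (n false e e) (n false e e)) (.s 0x70 4098 (n true (n false e e) e) .z .z) (.s 0x5d445108 4097 (n false (n true (n false (n false (n false e e) (n false e e)) (n false (n false e e) (n false e e))) e) (n false e e)) .z .z))
 .z)

set_option maxRecDepth 100000 in
def A66 : AE :=
 (.s 4096 4098 (.s 28 14 .z)
 (.s 0x3ea88a220 4097 (n true (n true (n false (n false (n false (n false e e) (n false e e)) (n false (n false e e) (n false e e))) (n false e e)) e) e) (.s 0x288 4107 (n false (n false e e) (n false e e)) (.s 0x70 4100 (n true (n false e e) e) .z .z) .z) (.s 0x1754451108 4104 (n false (n true (n false (n false (n false (n false e e) (n false e e)) (n false (n false e e) (n false e e))) (n false e e)) e) (n false e e)) .z .z))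
 (.s .z (.s 28 14 .z)
  .z))

set_option maxRecDepth 100000 in
def A67 : AE :=
 (.s 4096 4103 (.s 39 7 (.s 34 20 (.s 37 20 (.s 39 16 (.s 48 7 (.s 73 0 (.s 48 16 (.s 52 7 (.s 43 39 (.s 72 7 (.s 75 7 (.s 89 39 (.s 123 7 (.s 89 75 (.s 121 45 (.s 123 43 (.s 123 89 (.s 158 7 (.s 158 43 (.s 158 89 .z))))))))))))))))))))
 (.s 0x70 4105 (n true (n false e e) e) (.s 0x8 4104 (n false e e) .z .z) .z)
 (.s (.s (n false (n true (n false e e) e) (n false e e)) 16395 (.s (n false (n false e e) e) 16391 .z)) .z
  (.s (.s (n true (n false (n true (n false e e) e) (n false e e)) e) 16395 (.s (n true (n true (n false (n true (n false e e) e) (n false e e)) e) e) 16396 .z)) (.s 73 0 (.s 39 7 (.s 34 20 (.s 37 20 (.s 39 16 (.s 48 7 (.s 48 16 (.s 52 7 (.s 75 7 (.s 89 39 (.s 123 7 (.s 89 75 (.s 121 45 (.s 123 89 (.s 158 7 (.s 158 89 .z))))))))))))))))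
  (.s (.s (n true (n false (n true (n false e e) e) (n false e e)) e) 16395 (.s (n false (n true (n false e e) e) (n false e e)) 16387 (.s (n true (n true (n false (n true (n false e e) e) (n false e e)) e) e) 16396 .z))) (.s 39 7 (.s 34 20 (.s 39 16 (.s 48 7 (.s 73 0 (.s 48 16 (.s 52 7 (.s 75 7 (.s 89 39 (.s 123 7 (.s 89 75 (.s 121 45 (.s 123 89 (.s 158 7 (.s 158 89 .z)))))))))))))))
  (.s (.s (n false (n true (n false (n true (n false e e) e) (n false e e)) e) (n true (n false e e) e)) 16398 .z) (.s 39 7 (.s 34 20 (.s 37 20 (.s 39 16 (.s 48 7 (.s 73 0 (.s 48 16 (.s 52 7 (.s 43 39 (.s 75 7 (.s 89 39 (.s 123 7 (.s 89 75 (.s 121 45 (.s 123 43 (.s 123 89 (.s 158 7 (.s 158 43 (.s 158 89 .z)))))))))))))))))))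
  (.s (.s (n true (n false (n false (n false (n false e e) (n false e e)) (n false (n false e e) (n false e e))) (n false e e)) e) 16389 (.s (n true (n false (n true (n false e e) e) (n false e e)) e) 16401 .z)) (.s 37 20 (.s 39 16 (.s 73 0 (.s 48 16 (.s 89 39 (.s 89 75 (.s 123 89 (.s 158 89 .z))))))))
  (.s (.s (n false (n true (n true (n false (n false (n false (n false e e) (n false e e)) (n false (n false e e) (n false e e))) (n false e e)) e) e) (n false e e)) 16391 (.s (n false e e) 16384 (.s (n false (n false e e) (n false e e)) 16393 (.s (n true (n false (n false (n false (n false e e) (n false e e)) (n false (n false e e) (n false e e))) (n false e e)) e) 16385 (.s (n false (n false (n false (n false (n false e e) (n false e e)) (n false (n false e e) (n false e e))) (n false e e)) (n true (n false (n true (n false e e) e) (n false e e)) e)) 16393 .z))))) (.s 73 0 (.s 48 16 (.s 89 39 (.s 89 75 (.s 123 89 (.s 158 89 (.s 39 7 (.s 39 16 (.s 48 7 (.s 75 7 (.s 123 7 (.s 158 7 .z))))))))))))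
  (.s (.s (n false (n true (n false (n true (n false e e) e) (n false e e)) e) (n true (n false e e) e)) 16398 .z) (.s 73 0 (.s 39 7 (.s 34 20 (.s 37 20 (.s 39 16 (.s 48 7 (.s 48 16 (.s 52 7 (.s 43 39 (.s 75 7 (.s 89 39 (.s 123 7 (.s 89 75 (.s 121 45 (.s 123 43 (.s 123 89 (.s 158 7 (.s 158 43 (.s 158 89 .z)))))))))))))))))))
  (.s (.s (n true (n false e e) e) 16392 (.s (n true (n false (n false (n false (n false e e) (n false e e)) (n false (n false e e) (n false e e))) (n false e e)) e) 16389 .z)) (.s 89 39 (.s 123 89 (.s 158 89 .z)))
  (.s (.s (n true (n false (n false (n false (n false e e) (n false e e)) (n false (n false e e) (n false e e))) (n false e e)) e) 16389 (.s (n true (n false (n true (n false e e) e) (n false e e)) e) 16395 (.s (n false e e) 16388 (.s (n false (n false e e) (n false e e)) 16393 .z)))) (.s 39 16 (.s 73 0 (.s 89 39 (.s 89 75 (.s 123 89 (.s 158 89 .z))))))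
  (.s (.s (n true (n false (n true (n false e e) e) (n false e e)) e) 16395 (.s (n false e e) 16384 (.s (n true (n false (n false (n false (n false e e) (n false e e)) (n false (n false e e) (n false e e))) (n false e e)) e) 16385 (.s (n false (n false e e) (n false e e)) 16393 (.s (n false (n false (n false (n false (n false e e) (n false e e)) (n false (n false e e) (n false e e))) (n false e e)) (n true (n false (n true (n false e e) e) (n false e e)) e)) 16393 .z))))) (.s 39 7 (.s 39 16 (.s 48 7 (.s 73 0 (.s 48 16 (.s 75 7 (.s 89 39 (.s 123 7 (.s 89 75 (.s 123 89 (.s 158 7 (.s 158 89 .z))))))))))))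
  (.s (.s (n true (n false (n true (n false e e) e) (n false e e)) e) 16395 (.s (n true (n true (n false (n true (n false e e) e) (n false e e)) e) e) 16396 .z)) (.s 39 7 (.s 34 20 (.s 37 20 (.s 39 16 (.s 48 7 (.s 73 0 (.s 48 16 (.s 52 7 (.s 75 7 (.s 89 39 (.s 123 7 (.s 89 75 (.s 121 45 (.s 123 89 (.s 158 7 (.s 158 89 .z))))))))))))))))
  (.s (.s (n false (n true (n true (n false (n false (n false (n false e e) (n false e e)) (n false (n false e e) (n false e e))) (n false e e)) e) e) (n false e e)) 16391 (.s (n false e e) 16384 (.s (n false (n false e e) (n false e e)) 16393 (.s (n true (n false (n false (n false (n false e e) (n false e e)) (n false (n false e e) (n false e e))) (n false e e)) e) 16385 (.s (n false (n false (n false (n false (n false e e) (n false e e)) (n false (n false e e) (n false e e))) (n false e e)) (n true (n false (n true (n false e e) e) (n false e e)) e)) 16393 .z))))) (.s 48 16 (.s 89 39 (.s 89 75 (.s 123 89 (.s 158 89 (.s 39 7 (.s 39 16 (.s 48 7 (.s 73 0 (.s 75 7 (.s 123 7 (.s 158 7 .z))))))))))))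
  (.s (.s (n false e e) 16384 (.s (n false (n true (n false (n true (n false e e) e) (n false e e)) e) (n true (n false e e) e)) 16398 .z)) (.s 39 7 (.s 39 16 (.s 48 7 (.s 73 0 (.s 48 16 (.s 52 7 (.s 43 39 (.s 75 7 (.s 89 39 (.s 123 7 (.s 89 75 (.s 121 45 (.s 123 43 (.s 123 89 (.s 158 7 (.s 158 43 (.s 158 89 .z)))))))))))))))))
  (.s (.s (n false (n true (n true (n false (n false (n false (n false e e) (n false e e)) (n false (n false e e) (n false e e))) (n false e e)) e) e) (n false e e)) 16391 (.s (n false e e) 16384 (.s (n false (n false e e) (n false e e)) 16393 (.s (n true (n false (n false (n false (n false e e) (n false e e)) (n false (n false e e) (n false e e))) (n false e e)) e) 16385 (.s (n false (n false (n false (n false (n false e e) (n false e e)) (n false (n false e e) (n false e e))) (n false e e)) (n true (n false (n true (n false e e) e) (n false e e)) e)) 16393 .z))))) (.s 89 75 (.s 123 89 (.s 158 89 (.s 39 7 (.s 39 16 (.s 48 7 (.s 73 0 (.s 48 16 (.s 75 7 (.s 89 39 (.s 123 7 (.s 158 7 .z))))))))))))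
  (.s (.s (n false (n true (n false e e) e) (n false e e)) 16393 (.s (n true (n false (n true (n false e e) e) (n false e e)) e) 16395 (.s (n false (n false e e) e) 16391 (.s (n false (n false e e) (n false e e)) 16393 (.s (n false (n false (n false (n false (n false e e) (n false e e)) (n false (n false e e) (n false e e))) (n false e e)) (n true (n false (n true (n false e e) e) (n false e e)) e)) 16393 .z))))) (.s 39 7 (.s 75 7 (.s 89 39 (.s 123 7 (.s 89 75 (.s 123 89 (.s 158 7 (.s 158 89 .z))))))))
  (.s (.s (n true (n false (n true (n false e e) e) (n false e e)) e) 16395 (.s (n false (n false e e) (n false e e)) 16393 (.s (n true (n true (n false e e) e) e) 16386 (.s (n true (n false (n false (n false (n false e e) (n false e e)) (n false (n false e e) (n false e e))) (n false e e)) e) 16385 (.s (n false (n false (n false (n false (n false e e) (n false e e)) (n false (n false e e) (n false e e))) (n false e e)) (n true (n false (n true (n false e e) e) (n false e e)) e)) 16393 (.s (n false e e) 16384 .z)))))) (.s 39 7 (.s 39 16 (.s 48 7 (.s 73 0 (.s 48 16 (.s 75 7 (.s 89 39 (.s 123 7 (.s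 89 75 (.s 123 89 (.s 158 7 (.s 158 89 .z))))))))))))
  (.s (.s (n false (n true (n true (n false (n false (n false (n false e e) (n false e e)) (n false (n false e e) (n false e e))) (n false e e)) e) e) (n false e e)) 16391 (.s (n false e e) 16384 (.s (n false (n false e e) (n false e e)) 16393 (.s (n true (n false (n false (n false (n false e e) (n false e e)) (n false (n false e e) (n false e e))) (n false e e)) e) 16385 (.s (n false (n false (n false (n false (n false e e) (n false e e)) (n false (n false e e) (n false e e))) (n false e e)) (n true (n false (n true (n false e e) e) (n false e e)) e)) 16393 .z))))) (.s 48 16 (.s 89 75 (.s 123 89 (.s 158 89 (.s 39 7 (.s 39 16 (.s 48 7 (.s 73 0 (.s 75 7 (.s 89 39 (.s 123 7 (.s 158 7 .z))))))))))))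
  (.s (.s (n false (n true (n true (n false (n false (n false (n false e e) (n false e e)) (n false (n false e e) (n false e e))) (n false e e)) e) e) (n false e e)) 16391 (.s (n false (n false e e) (n false e e)) 16393 (.s (n false (n true (n false e e) e) (n false e e)) 16387 (.s (n false (n false (n false (n false (n false e e) (n false e e)) (n false (n false e e) (n false e e))) (n false e e)) (n true (n false (n true (n false e e) e) (n false e e)) e)) 16393 .z)))) (.s 39 7 (.s 39 16 (.s 48 7 (.s 73 0 (.s 48 16 (.s 52 7 (.s 75 7 (.s 89 39 (.s 123 7 (.s 89 75 (.s 123 89 (.s 158 7 (.s 158 89 .z)))))))))))))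
  (.s (.s (n true (n false e e) e) 16389 (.s (n false (n true (n true (n false (n false (n false (n false e e) (n false e e)) (n false (n false e e) (n false e e))) (n false e e)) e) e) (n false e e)) 16391 (.s (n false (n false e e) (n false e e)) 16393 (.s (n false (n false (n false (n false (n false e e) (n false e e)) (n false (n false e e) (n false e e))) (n false e e)) (n true (n false (n true (n false e e) e) (n false e e)) e)) 16393 .z)))) (.s 39 7 (.s 39 16 (.s 48 7 (.s 73 0 (.s 75 7 (.s 89 39 (.s 123 7 (.s 89 75 (.s 123 89 (.s 158 7 (.s 158 89 .z)))))))))))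
  (.s (.s (n true (n false (n true (n false e e) e) (n false e e)) e) 16395 (.s (n false (n true (n false e e) e) (n false e e)) 16394 (.s (n false (n false e e) e) 16391 .z))) (.s 39 7 (.s 89 39 (.s 123 7 (.s 123 89 (.s 158 7 (.s 158 89 .z))))))
  (.s (.s (n false (n true (n true (n false (n false (n false (n false e e) (n false e e)) (n false (n false e e) (n false e e))) (n false e e)) e) e) (n false e e)) 16391 (.s (n false e e) 16384 (.s (n false (n false e e) (n false e e)) 16393 (.s (n true (n false (n false (n false (n false e e) (n false e e)) (n false (n false e e) (n false e e))) (n false e e)) e) 16385 (.s (n false (n false (n false (n false (n false e e) (n false e e)) (n false (n false e e) (n false e e))) (n false e e)) (n true (n false (n true (n false e e) e) (n false e e)) e)) 16393 .z))))) (.s 39 7 (.s 39 16 (.s 48 7 (.s 73 0 (.s 48 16 (.s 75 7 (.s 89 39 (.s 123 7 (.s 89 75 (.s 123 89 (.s 158 7 (.s 158 89 .z))))))))))))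
  (.s (.s (n false (n true (n true (n false (n false (n false (n false e e) (n false e e)) (n false (n false e e) (n false e e))) (n false e e)) e) e) (n false e e)) 16391 (.s (n false e e) 16384 (.s (n false (n false e e) (n false e e)) 16393 (.s (n true (n false (n false (n false (n false e e) (n false e e)) (n false (n false e e) (n false e e))) (n false e e)) e) 16385 (.s (n false (n false (n false (n false (n false e e) (n false e e)) (n false (n false e e) (n false e e))) (n false e e)) (n true (n false (n true (n false e e) e) (n false e e)) e)) 16393 .z))))) (.s 48 16 (.s 123 89 (.s 158 89 (.s 39 7 (.s 39 16 (.s 48 7 (.s 73 0 (.s 75 7 (.s 89 39 (.s 123 7 (.s 89 75 (.s 158 7 .z))))))))))))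
  (.s (.s (n true (n false (n true (n false e e) e) (n false e e)) e) 16395 (.s (n true (n false e e) e) 16389 (.s (n false (n false (n false (n false (n false e e) (n false e e)) (n false (n false e e) (n false e e))) (n false e e)) (n true (n false (n true (n false e e) e) (n false e e)) e)) 16393 .z))) (.s 39 7 (.s 39 16 (.s 48 7 (.s 73 0 (.s 75 7 (.s 89 39 (.s 123 7 (.s 89 75 (.s 121 45 (.s 123 89 (.s 158 7 (.s 158 89 .z))))))))))))
  (.s (.s (n false (n true (n false e e) e) (n false e e)) 16395 (.s (n false e e) 16390 .z)) .z
  (.s (.s (n true (n false (n false (n false (n false e e) (n false e e)) (n false (n false e e) (n false e e))) (n false e e)) e) 16388 (.s (n true (n false (n true (n false e e) e) (n false e e)) e) 16395 (.s (n false (n false e e) (n false e e)) 16393 (.s (n false e e) 16388 .z)))) (.s 39 7 (.s 39 16 (.s 73 0 (.s 89 39 (.s 123 7 (.s 89 75 (.s 123 89 (.s 158 7 (.s 158 89 .z)))))))))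
  (.s (.s (n false e e) 16388 (.s (n false (n false e e) (n false e e)) 16393 (.s (n true (n false (n false (n false (n false e e) (n false e e)) (n false (n false e e) (n false e e))) (n false e e)) e) 16389 (.s (n true (n false (n true (n false e e) e) (n false e e)) e) 16395 .z)))) (.s 39 16 (.s 73 0 (.s 89 39 (.s 89 75 (.s 123 89 (.s 158 89 .z))))))
  (.s (.s (n true (n false (n true (n false e e) e) (n false e e)) e) 16395 (.s (n true (n false (n false (n false (n false e e) (n false e e)) (n false (n false e e) (n false e e))) (n false e e)) e) 16387 (.s (n false e e) 16384 (.s (n false (n false (n false (n false (n false e e) (n false e e)) (n false (n false e e) (n false e e))) (n false e e)) (n true (n false (n true (n false e e) e) (n false e e)) e)) 16393 (.s (n false (n false e e) (n false e e)) 16393 .z))))) (.s 39 7 (.s 39 16 (.s 73 0 (.s 48 16 (.s 75 7 (.s 89 39 (.s 123 7 (.s 89 75 (.s 123 89 (.s 158 7 (.s 158 89 .z)))))))))))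
  (.s (.s (n true (n false (n true (n false e e) e) (n false e e)) e) 16401 (.s (n true (n false e e) e) 16385 (.s (n false (n false (n false (n false (n false e e) (n false e e)) (n false (n false e e) (n false e e))) (n false e e)) (n true (n false (n true (n false e e) e) (n false e e)) e)) 16393 .z))) (.s 39 7 (.s 39 16 (.s 48 7 (.s 73 0 (.s 48 16 (.s 52 7 (.s 75 7 (.s 89 39 (.s 123 7 (.s 89 75 (.s 123 89 (.s 158 7 (.s 158 89 .z)))))))))))))
  (.s (.s (n false (n true (n false e e) e) (n false e e)) 16394 (.s (n false (n false e e) e) 16391 .z)) (.s 39 7 (.s 89 39 (.s 123 7 (.s 123 89 (.s 158 7 (.s 158 89 .z))))))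
  (.s (.s (n true (n false (n true (n false e e) e) (n false e e)) e) 16401 (.s (n false (n true (n false e e) e) (n false e e)) 16395 (.s (n false (n false e e) e) 16391 .z))) .z
  (.s (.s (n false e e) 16388 (.s (n true (n false (n true (n false e e) e) (n false e e)) e) 16395 (.s (n false (n false e e) (n false e e)) 16393 (.s (n false (n false (n false (n false (n false e e) (n false e e)) (n false (n false e e) (n false e e))) (n false e e)) (n true (n false (n true (n false e e) e) (n false e e)) e)) 16393 .z)))) (.s 39 7 (.s 39 16 (.s 48 7 (.s 73 0 (.s 75 7 (.s 89 39 (.s 123 7 (.s 89 75 (.s 123 89 (.s 158 7 (.s 158 89 .z)))))))))))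
  (.s (.s (n false (n true (n true (n false (n false (n false (n false e e) (n false e e)) (n false (n false e e) (n false e e))) (n false e e)) e) e) (n false e e)) 16391 (.s (n false (n false (n false (n false (n false e e) (n false e e)) (n false (n false e e) (n false e e))) (n false e e)) (n true (n false (n true (n false e e) e) (n false e e)) e)) 16393 (.s (n false (n false e e) (n false e e)) 16393 (.s (n false (n true (n false e e) e) (n false e e)) 16387 .z)))) (.s 39 7 (.s 39 16 (.s 48 7 (.s 73 0 (.s 48 16 (.s 52 7 (.s 75 7 (.s 89 39 (.s 123 7 (.s 89 75 (.s 123 89 (.s 158 7 (.s 158 89 .z)))))))))))))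
  (.s (.s (n true (n false (n true (n false e e) e) (n false e e)) e) 16401 (.s (n false (n true (n false e e) e) (n false e e)) 16391 (.s (n false (n true (n true (n false (n false (n false (n false e e) (n false e e)) (n false (n false e e) (n false e e))) (n false e e)) e) e) (n false e e)) 16390 (.s (n false (n false (n false (n false (n false e e) (n false e e)) (n false (n false e e) (n false e e))) (n false e e)) (n true (n false (n true (n false e e) e) (n false e e)) e)) 16393 .z)))) (.s 39 7 (.s 39 16 (.s 48 7 (.s 73 0 (.s 75 7 (.s 89 39 (.s 123 7 (.s 89 75 (.s 123 89 (.s 158 7 (.s 158 89 .z)))))))))))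
  (.s (.s (n false (n true (n true (n false (n false (n false (n false e e) (n false e e)) (n false (n false e e) (n false e e))) (n false e e)) e) e) (n false e e)) 16391 (.s (n false (n true (n false e e) e) (n false e e)) 16387 (.s (n false (n false (n false (n false (n false e e) (n false e e)) (n false (n false e e) (n false e e))) (n false e e)) (n true (n false (n true (n false e e) e) (n false e e)) e)) 16393 (.s (n false (n false e e) (n false e e)) 16393 .z)))) (.s 39 7 (.s 39 16 (.s 48 7 (.s 73 0 (.s 48 16 (.s 52 7 (.s 75 7 (.s 89 39 (.s 123 7 (.s 89 75 (.s 123 89 (.s 158 7 (.s 158 89 .z)))))))))))))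
  (.s (.s (n true (n false (n true (n false (n false (n false (n false e e) (n false e e)) (n false (n false e e) (n false e e))) (n false e e)) e) (n true (n false e e) e)) e) 16392 (.s (n false e e) 16384 (.s (n false (n false e e) (n false e e)) 16393 (.s (n true (n true (n false (n true (n false e e) e) (n false e e)) e) e) 16396 .z)))) (.s 39 7 (.s 39 16 (.s 48 7 (.s 73 0 (.s 48 16 (.s 52 7 (.s 75 7 (.s 89 39 (.s 123 7 (.s 89 75 (.s 123 89 (.s 158 7 (.s 158 89 .z)))))))))))))
  (.s (.s (n true (n true (n false (n true (n false e e) e) (n false e e)) e) e) 16396 .z) (.s 73 0 (.s 39 7 (.s 34 20 (.s 37 20 (.s 39 16 (.s 48 7 (.s 48 16 (.s 52 7 (.s 43 39 (.s 75 7 (.s 89 39 (.s 123 7 (.s 89 75 (.s 121 45 (.s 123 43 (.s 123 89 (.s 158 7 (.s 158 43 (.s 158 89 .z)))))))))))))))))))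
  (.s (.s (n true (n false (n true (n false (n false (n false (n false e e) (n false e e)) (n false (n false e e) (n false e e))) (n false e e)) e) (n true (n false e e) e)) e) 16392 (.s (n false e e) 16384 (.s (n true (n true (n false (n true (n false e e) e) (n false e e)) e) e) 16396 .z))) (.s 39 7 (.s 39 16 (.s 48 7 (.s 73 0 (.s 48 16 (.s 52 7 (.s 75 7 (.s 89 39 (.s 123 7 (.s 89 75 (.s 121 45 (.s 123 89 (.s 158 7 (.s 158 89 .z))))))))))))))
  (.s (.s (n false (n true (n false e e) e) (n false e e)) 16394 (.s (n false (n false e e) e) 16391 (.s (n false (n true (n false e e) e) (n false e e)) 16395 .z))) .z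
  (.s (.s (n true (n false (n true (n false e e) e) (n false e e)) e) 16395 (.s (n false (n false (n false (n false (n false e e) (n false e e)) (n false (n false e e) (n false e e))) (n false e e)) (n true (n false (n true (n false e e) e) (n false e e)) e)) 16393 .z)) (.s 39 7 (.s 34 20 (.s 37 20 (.s 39 16 (.s 48 7 (.s 73 0 (.s 48 16 (.s 52 7 (.s 75 7 (.s 89 39 (.s 123 7 (.s 89 75 (.s 121 45 (.s 123 89 (.s 158 7 (.s 158 89 .z))))))))))))))))
  (.s (.s (n false (n true (n false e e) e) (n false e e)) 16387 (.s (n false (n true (n false (n true (n false e e) e) (n false e e)) e) (n true (n false e e) e)) 16398 .z)) (.s 39 7 (.s 34 20 (.s 39 16 (.s 48 7 (.s 73 0 (.s 48 16 (.s 52 7 (.s 43 39 (.s 75 7 (.s 89 39 (.s 123 7 (.s 89 75 (.s 121 45 (.s 123 43 (.s 123 89 (.s 158 7 (.s 158 43 (.s 158 89 .z))))))))))))))))))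
  (.s (.s (n true (n false (n true (n false e e) e) (n false e e)) e) 16395 (.s (n true (n false (n false (n false (n false e e) (n false e e)) (n false (n false e e) (n false e e))) (n false e e)) e) 16387 (.s (n false e e) 16384 (.s (n true (n true (n false (n true (n false e e) e) (n false e e)) e) e) 16396 .z)))) (.s 39 7 (.s 39 16 (.s 73 0 (.s 48 16 (.s 75 7 (.s 89 39 (.s 123 7 (.s 89 75 (.s 121 45 (.s 123 89 (.s 158 7 (.s 158 89 .z))))))))))))
  (.s (.s (n true (n false (n true (n false e e) e) (n false e e)) e) 16395 (.s (n false e e) 16384 (.s (n true (n true (n false (n true (n false e e) e) (n false e e)) e) e) 16396 (.s (n true (n false (n false (n false (n false e e) (n false e e)) (n false (n false e e) (n false e e))) (n false e e)) e) 16385 .z)))) (.s 39 7 (.s 39 16 (.s 48 7 (.s 73 0 (.s 48 16 (.s 75 7 (.s 89 39 (.s 123 7 (.s 89 75 (.s 121 45 (.s 123 89 (.s 158 7 (.s 158 89 .z)))))))))))))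
  (.s (.s (n true (n false (n false (n false (n false e e) (n false e e)) (n false (n false e e) (n false e e))) (n false e e)) e) 16389 (.s (n false e e) 16390 (.s (n true (n false (n true (n false e e) e) (n false e e)) e) 16395 .z))) (.s 89 39 (.s 89 75 (.s 121 45 (.s 123 89 (.s 158 89 .z)))))
  (.s (.s (n true (n false e e) e) 16385 (.s (n true (n true (n false (n true (n false e e) e) (n false e e)) e) e) 16396 .z)) (.s 39 7 (.s 39 16 (.s 48 7 (.s 73 0 (.s 48 16 (.s 52 7 (.s 43 39 (.s 75 7 (.s 89 39 (.s 123 7 (.s 89 75 (.s 121 45 (.s 123 43 (.s 123 89 (.s 158 7 (.s 158 43 (.s 158 89 .z)))))))))))))))))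
  (.s (.s (n true (n false (n true (n false (n false (n false (n false e e) (n false e e)) (n false (n false e e) (n false e e))) (n false e e)) e) (n true (n false e e) e)) e) 16392 (.s (n false e e) 16384 (.s (n true (n true (n false (n true (n false e e) e) (n false e e)) e) e) 16396 .z))) (.s 73 0 (.s 39 7 (.s 39 16 (.s 48 7 (.s 48 16 (.s 52 7 (.s 75 7 (.s 89 39 (.s 123 7 (.s 89 75 (.s 121 45 (.s 123 89 (.s 158 7 (.s 158 89 .z))))))))))))))
  (.s (.s (n true (n false (n true (n false e e) e) (n false e e)) e) 16395 (.s (n true (n false e e) e) 16385 (.s (n true (n true (n false (n true (n false e e) e) (n false e e)) e) e) 16396 .z))) (.s 39 7 (.s 39 16 (.s 48 7 (.s 73 0 (.s 48 16 (.s 52 7 (.s 75 7 (.s 89 39 (.s 123 7 (.s 89 75 (.s 121 45 (.s 123 89 (.s 158 7 (.s 158 89 .z))))))))))))))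
  (.s (.s (n false e e) 16388 (.s (n true (n true (n true (n false (n false (n false (n false e e) (n false e e)) (n false (n false e e) (n false e e))) (n false e e)) e) e) e) 16390 (.s (n true (n true (n false (n true (n false e e) e) (n false e e)) e) e) 16396 .z))) (.s 39 7 (.s 39 16 (.s 48 7 (.s 73 0 (.s 75 7 (.s 89 39 (.s 123 7 (.s 89 75 (.s 121 45 (.s 123 89 (.s 158 7 (.s 158 89 .z))))))))))))
  (.s (.s (n true (n false (n true (n false e e) e) (n false e e)) e) 16401 (.s (n true (n false e e) e) 16385 (.s (n false (n false (n false (n false (n false e e) (n false e e)) (n false (n false e e) (n false e e))) (n false e e)) (n true (n false (n true (n false e e) e) (n false e e)) e)) 16393 .z))) (.s 73 0 (.s 39 7 (.s 39 16 (.s 48 7 (.s 48 16 (.s 52 7 (.s 75 7 (.s 89 39 (.s 123 7 (.s 89 75 (.s 123 89 (.s 158 7 (.s 158 89 .z)))))))))))))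
  (.s (.s (n true (n false (n true (n false e e) e) (n false e e)) e) 16401 (.s (n true (n false (n false (n false (n false e e) (n false e e)) (n false (n false e e) (n false e e))) (n false e e)) e) 16389 (.s (n false e e) 16384 .z))) (.s 39 16 (.s 73 0 (.s 48 16 (.s 89 39 (.s 89 75 (.s 123 89 (.s 158 89 .z)))))))
  (.s (.s (n true (n false (n false (n false (n false e e) (n false e e)) (n false (n false e e) (n false e e))) (n false e e)) e) 16389 (.s (n false (n true (n true (n false (n false (n false (n false e e) (n false e e)) (n false (n false e e) (n false e e))) (n false e e)) e) e) (n false e e)) 16391 (.s (n true (n false (n true (n false e e) e) (n false e e)) e) 16401 .z))) (.s 37 20 (.s 39 16 (.s 73 0 (.s 48 16 (.s 89 39 (.s 89 75 (.s 123 89 (.s 158 89 .z))))))))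
  (.s (.s (n true (n false (n false (n false (n false e e) (n false e e)) (n false (n false e e) (n false e e))) (n false e e)) e) 16389 (.s (n true (n false (n true (n false e e) e) (n false e e)) e) 16401 (.s (n false e e) 16384 .z))) (.s 39 16 (.s 73 0 (.s 48 16 (.s 89 39 (.s 89 75 (.s 123 89 (.s 158 89 .z)))))))
  (.s (.s (n false (n true (n true (n false (n false (n false (n false e e) (n false e e)) (n false (n false e e) (n false e e))) (n false e e)) e) e) (n false e e)) 16391 (.s (n false (n true (n false e e) e) (n false e e)) 16391 (.s (n false (n false e e) (n false e e)) 16393 (.s (n false (n false (n false (n false (n false e e) (n false e e)) (n false (n false e e) (n false e e))) (n false e e)) (n true (n false (n true (n false e e) e) (n false e e)) e)) 16393 .z)))) (.s 39 7 (.s 39 16 (.s 48 7 (.s 73 0 (.s 75 7 (.s 89 39 (.s 123 7 (.s 89 75 (.s 123 89 (.s 158 7 (.s 158 89 .z)))))))))))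
  (.s (.s (n false (n false e e) (n false e e)) 16393 (.s (n false (n true (n false e e) e) (n false e e)) 16387 (.s (n false (n false (n false (n false (n false e e) (n false e e)) (n false (n false e e) (n false e e))) (n false e e)) (n true (n false (n true (n false e e) e) (n false e e)) e)) 16393 (.s (n false (n true (n true (n false (n false (n false (n false e e) (n false e e)) (n false (n false e e) (n false e e))) (n false e e)) e) e) (n false e e)) 16391 .z)))) (.s 39 7 (.s 39 16 (.s 48 7 (.s 73 0 (.s 48 16 (.s 52 7 (.s 75 7 (.s 89 39 (.s 123 7 (.s 89 75 (.s 123 89 (.s 158 7 (.s 158 89 .z)))))))))))))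
  (.s (.s (n true (n false (n true (n false (n false (n false (n false e e) (n false e e)) (n false (n false e e) (n false e e))) (n false e e)) e) (n true (n false e e) e)) e) 16392 (.s (n true (n true (n false (n true (n false e e) e) (n false e e)) e) e) 16396 .z)) (.s 39 7 (.s 34 20 (.s 37 20 (.s 39 16 (.s 48 7 (.s 73 0 (.s 48 16 (.s 52 7 (.s 75 7 (.s 89 39 (.s 123 7 (.s 89 75 (.s 121 45 (.s 123 89 (.s 158 7 (.s 158 89 .z))))))))))))))))
  (.s (.s (n false e e) 16388 (.s (n true (n true (n true (n false (n false (n false (n false e e) (n false e e)) (n false (n false e e) (n false e e))) (n false e e)) e) e) e) 16390 (.s (n false (n false e e) (n false e e)) 16393 (.s (n true (n true (n false (n true (n false e e) e) (n false e e)) e) e) 16396 .z)))) (.s 39 7 (.s 39 16 (.s 48 7 (.s 73 0 (.s 75 7 (.s 89 39 (.s 123 7 (.s 89 75 (.s 123 89 (.s 158 7 (.s 158 89 .z)))))))))))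
  (.s (.s (n false e e) 16388 (.s (n true (n true (n true (n false (n false (n false (n false e e) (n false e e)) (n false (n false e e) (n false e e))) (n false e e)) e) e) e) 16390 (.s (n true (n true (n false (n true (n false e e) e) (n false e e)) e) e) 16396 (.s (n false (n false e e) (n false e e)) 16393 .z)))) (.s 39 7 (.s 39 16 (.s 48 7 (.s 73 0 (.s 75 7 (.s 89 39 (.s 123 7 (.s 89 75 (.s 123 89 (.s 158 7 (.s 158 89 .z)))))))))))
  (.s (.s (n false e e) 16388 (.s (n true (n false (n true (n false e e) e) (n false e e)) e) 16395 (.s (n false (n false e e) (n false e e)) 16393 (.s (n true (n false (n false (n false (n false e e) (n false e e)) (n false (n false e e) (n false e e))) (n false e e)) e) 16389 .z)))) (.s 39 16 (.s 73 0 (.s 89 39 (.s 89 75 (.s 123 89 (.s 158 89 .z))))))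
  (.s (.s (n false e e) 16391 .z) (.s 39 7 (.s 89 39 (.s 123 7 (.s 123 89 (.s 158 7 (.s 158 89 .z))))))
  (.s (.s (n false e e) 16390 (.s (n true (n true (n false (n true (n false e e) e) (n false e e)) e) e) 16396 (.s (n true (n true (n true (n false (n false (n false (n false e e) (n false e e)) (n false (n false e e) (n false e e))) (n false e e)) e) e) e) 16390 (.s (n false (n false e e) (n false e e)) 16393 .z)))) (.s 39 7 (.s 75 7 (.s 89 39 (.s 123 7 (.s 89 75 (.s 123 89 (.s 158 7 (.s 158 89 .z))))))))
  (.s (.s (n true (n true (n false (n true (n false e e) e) (n false e e)) e) e) 16396 (.s (n true (n false (n true (n false (n false (n false (n false e e) (n false e e)) (n false (n false e e) (n false e e))) (n false e e)) e) (n true (n false e e) e)) e) 16392 .z)) (.s 39 7 (.s 34 20 (.s 37 20 (.s 39 16 (.s 48 7 (.s 73 0 (.s 48 16 (.s 52 7 (.s 75 7 (.s 89 39 (.s 123 7 (.s 89 75 (.s 121 45 (.s 123 89 (.s 158 7 (.s 158 89 .z))))))))))))))))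
  (.s (.s (n true (n false e e) e) 16389 (.s (n true (n false (n true (n false e e) e) (n false e e)) e) 16395 (.s (n false (n true (n false (n true (n false e e) e) (n false e e)) e) (n true (n false e e) e)) 16398 .z))) (.s 39 7 (.s 39 16 (.s 48 7 (.s 73 0 (.s 75 7 (.s 89 39 (.s 123 7 (.s 89 75 (.s 121 45 (.s 123 89 (.s 158 7 (.s 158 89 .z))))))))))))
  (.s (.s (n false (n true (n false e e) e) (n false e e)) 16393 (.s (n true (n false (n true (n false e e) e) (n false e e)) e) 16395 (.s (n false (n false e e) e) 16391 (.s (n false (n false (n false (n false (n false e e) (n false e e)) (n false (n false e e) (n false e e))) (n false e e)) (n true (n false (n true (n false e e) e) (n false e e)) e)) 16393 .z)))) (.s 39 7 (.s 75 7 (.s 89 39 (.s 123 7 (.s 89 75 (.s 121 45 (.s 123 89 (.s 158 7 (.s 158 89 .z)))))))))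
  (.s (.s (n false (n true (n false e e) e) (n false e e)) 16393 (.s (n true (n true (n false (n true (n false e e) e) (n false e e)) e) e) 16396 (.s (n false (n true (n true (n false (n false (n false (n false e e) (n false e e)) (n false (n false e e) (n false e e))) (n false e e)) e) e) (n false e e)) 16391 (.s (n false e e) 16390 .z)))) (.s 39 7 (.s 75 7 (.s 89 39 (.s 123 7 (.s 89 75 (.s 121 45 (.s 123 89 (.s 158 7 (.s 158 89 .z)))))))))
  (.s (.s (n false (n true (n false e e) e) (n false e e)) 16391 (.s (n false (n true (n false (n true (n false e e) e) (n false e e)) e) (n true (n false e e) e)) 16398 (.s (n false (n true (n true (n false (n false (n false (n false e e) (n false e e)) (n false (n false e e) (n false e e))) (n false e e)) e) e) (n false e e)) 16391 .z))) (.s 39 7 (.s 39 16 (.s 48 7 (.s 73 0 (.s 75 7 (.s 89 39 (.s 123 7 (.s 89 75 (.s 121 45 (.s 123 89 (.s 158 7 (.s 158 89 .z))))))))))))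
  (.s (.s (n false (n true (n false e e) e) (n false e e)) 16394 (.s (n true (n false (n false (n false (n false e e) (n false e e)) (n false (n false e e) (n false e e))) (n false e e)) e) 16389 (.s (n false (n false e e) e) 16391 .z))) (.s 89 39 (.s 123 89 (.s 158 89 .z)))
  (.s (.s (n false (n true (n false e e) e) (n false e e)) 16394 (.s (n false (n true (n false e e) e) (n false e e)) 16395 (.s (n false (n false e e) e) 16391 .z))) .z
  (.s (.s (n false e e) 16388 (.s (n false (n false e e) (n false e e)) 16393 (.s (n true (n true (n false (n true (n false e e) e) (n false e e)) e) e) 16396 (.s (n true (n true (n true (n false (n false (n false (n false e e) (n false e e)) (n false (n false e e) (n false e e))) (n false e e)) e) e) e) 16390 .z)))) (.s 39 7 (.s 39 16 (.s 48 7 (.s 73 0 (.s 75 7 (.s 89 39 (.s 123 7 (.s 89 75 (.s 123 89 (.s 158 7 (.s 158 89 .z)))))))))))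
  (.s (.s (n true (n false (n true (n false e e) e) (n false e e)) e) 16401 (.s (n true (n false (n false (n false (n false e e) (n false e e)) (n false (n false e e) (n false e e))) (n false e e)) e) 16387 (.s (n false e e) 16384 (.s (n true (n false (n false (n false (n false e e) (n false e e)) (n false (n false e e) (n false e e))) (n false e e)) e) 16389 .z)))) (.s 39 16 (.s 73 0 (.s 48 16 (.s 89 39 (.s 89 75 (.s 123 89 (.s 158 89 .z)))))))
  (.s (.s (n true (n false (n true (n false e e) e) (n false e e)) e) 16395 (.s (n false e e) 16384 (.s (n true (n false (n false (n false (n false e e) (n false e e)) (n false (n false e e) (n false e e))) (n false e e)) e) 16385 (.s (n false (n false (n false (n false (n false e e) (n false e e)) (n false (n false e e) (n false e e))) (n false e e)) (n true (n false (n true (n false e e) e) (n false e e)) e)) 16393 (.s (n false (n false e e) (n false e e)) 16393 .z))))) (.s 39 7 (.s 39 16 (.s 48 7 (.s 73 0 (.s 48 16 (.s 75 7 (.s 89 39 (.s 123 7 (.s 89 75 (.s 123 89 (.s 158 7 (.s 158 89 .z))))))))))))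
  (.s (.s (n true (n false (n true (n false e e) e) (n false e e)) e) 16401 (.s (n false e e) 16384 (.s (n false (n false (n false (n false (n false e e) (n false e e)) (n false (n false e e) (n false e e))) (n false e e)) (n true (n false (n true (n false e e) e) (n false e e)) e)) 16393 .z))) (.s 39 7 (.s 39 16 (.s 48 7 (.s 73 0 (.s 48 16 (.s 52 7 (.s 75 7 (.s 89 39 (.s 123 7 (.s 89 75 (.s 123 89 (.s 158 7 (.s 158 89 .z)))))))))))))
  (.s (.s (n false (n false e e) (n false e e)) 16393 (.s (n false (n true (n false e e) e) (n false e e)) 16395 (.s (n false (n false e e) e) 16391 .z))) .z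
  (.s (.s (n false e e) 16391 (.s (n true (n false (n false (n false (n false e e) (n false e e)) (n false (n false e e) (n false e e))) (n false e e)) e) 16389 .z)) (.s 89 39 (.s 123 89 (.s 158 89 .z)))
  (.s (.s (n true (n false e e) e) 16389 (.s (n true (n false (n true (n false e e) e) (n false e e)) e) 16401 (.s (n false (n false (n false (n false (n false e e) (n false e e)) (n false (n false e e) (n false e e))) (n false e e)) (n true (n false (n true (n false e e) e) (n false e e)) e)) 16393 .z))) (.s 39 7 (.s 39 16 (.s 48 7 (.s 73 0 (.s 75 7 (.s 89 39 (.s 123 7 (.s 89 75 (.s 123 89 (.s 158 7 (.s 158 89 .z)))))))))))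
  (.s (.s (n true (n false (n true (n false e e) e) (n false e e)) e) 16407 (.s (n false (n true (n false e e) e) (n false e e)) 16395 (.s (n false (n false e e) e) 16391 .z))) .z
  (.s (.s (n true (n false (n true (n false e e) e) (n false e e)) e) 16395 (.s (n true (n true (n true (n false e e) e) e) e) 16387 (.s (n true (n true (n false (n true (n false e e) e) (n false e e)) e) e) 16396 (.s (n true (n false (n false (n false (n false e e) (n false e e)) (n false (n false e e) (n false e e))) (n false e e)) e) 16385 .z)))) (.s 73 0 (.s 39 7 (.s 39 16 (.s 48 7 (.s 48 16 (.s 75 7 (.s 89 39 (.s 123 7 (.s 89 75 (.s 121 45 (.s 123 89 (.s 158 7 (.s 158 89 .z)))))))))))))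
  (.s (.s (n false e e) 16388 (.s (n false (n true (n false e e) e) (n false e e)) 16395 (.s (n false (n false e e) e) 16391 .z))) .z
  (.s (.s (n true (n false e e) e) 16385 (.s (n true (n true (n false (n true (n false e e) e) (n false e e)) e) e) 16396 (.s (n false (n true (n true (n false (n false (n false (n false e e) (n false e e)) (n false (n false e e) (n false e e))) (n false e e)) e) e) (n false e e)) 16391 (.s (n false (n false e e) (n false e e)) 16393 .z)))) (.s 39 7 (.s 39 16 (.s 48 7 (.s 73 0 (.s 48 16 (.s 52 7 (.s 75 7 (.s 89 39 (.s 123 7 (.s 89 75 (.s 123 89 (.s 158 7 (.s 158 89 .z)))))))))))))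
  (.s (.s (n true (n false e e) e) 16391 (.s (n true (n false (n true (n false e e) e) (n false e e)) e) 16395 (.s (n true (n true (n false (n true (n false e e) e) (n false e e)) e) e) 16396 (.s (n false (n false e e) (n false e e)) 16393 .z)))) (.s 39 7 (.s 75 7 (.s 89 39 (.s 123 7 (.s 89 75 (.s 123 89 (.s 158 7 (.s 158 89 .z))))))))
  (.s (.s (n true (n false e e) e) 16389 (.s (n true (n false (n true (n false e e) e) (n false e e)) e) 16395 (.s (n true (n true (n false (n true (n false e e) e) (n false e e)) e) e) 16396 (.s (n false (n false e e) (n false e e)) 16393 .z)))) (.s 39 7 (.s 39 16 (.s 48 7 (.s 73 0 (.s 75 7 (.s 89 39 (.s 123 7 (.s 89 75 (.s 123 89 (.s 158 7 (.s 158 89 .z)))))))))))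
  (.s (.s (n true (n false e e) e) 16389 (.s (n true (n false (n true (n false e e) e) (n false e e)) e) 16395 (.s (n true (n true (n false (n true (n false e e) e) (n false e e)) e) e) 16396 .z))) (.s 39 7 (.s 39 16 (.s 48 7 (.s 73 0 (.s 75 7 (.s 89 39 (.s 123 7 (.s 89 75 (.s 121 45 (.s 123 89 (.s 158 7 (.s 158 89 .z))))))))))))
  (.s (.s (n true (n false e e) e) 16385 (.s (n true (n true (n false (n true (n false e e) e) (n false e e)) e) e) 16396 (.s (n true (n false (n true (n false e e) e) (n false e e)) e) 16395 .z))) (.s 39 7 (.s 39 16 (.s 48 7 (.s 73 0 (.s 48 16 (.s 52 7 (.s 75 7 (.s 89 39 (.s 123 7 (.s 89 75 (.s 121 45 (.s 123 89 (.s 158 7 (.s 158 89 .z))))))))))))))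
  (.s (.s (n true (n false (n false (n false (n false e e) (n false e e)) (n false (n false e e) (n false e e))) (n false e e)) e) 16388 (.s (n true (n false (n true (n false e e) e) (n false e e)) e) 16401 (.s (n false e e) 16384 .z))) (.s 39 7 (.s 39 16 (.s 73 0 (.s 48 16 (.s 89 39 (.s 123 7 (.s 89 75 (.s 123 89 (.s 158 7 (.s 158 89 .z))))))))))
  (.s (.s (n false e e) 16390 (.s (n true (n true (n true (n false (n false (n false (n false e e) (n false e e)) (n false (n false e e) (n false e e))) (n false e e)) e) e) e) 16390 (.s (n true (n true (n false (n true (n false e e) e) (n false e e)) e) e) 16396 .z))) (.s 39 7 (.s 75 7 (.s 89 39 (.s 123 7 (.s 89 75 (.s 121 45 (.s 123 89 (.s 158 7 (.s 158 89 .z)))))))))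
  (.s (.s (n true (n true (n false e e) e) e) 16392 (.s (n true (n false (n true (n false e e) e) (n false e e)) e) 16401 (.s (n true (n true (n false (n true (n false e e) e) (n false e e)) e) e) 16396 (.s (n false e e) 16390 .z)))) (.s 39 7 (.s 75 7 (.s 89 39 (.s 123 7 (.s 89 75 (.s 123 89 (.s 158 7 (.s 158 89 .z))))))))
  (.s (.s (n false (n true (n true (n false (n false (n false (n false e e) (n false e e)) (n false (n false e e) (n false e e))) (n false e e)) e) e) (n false e e)) 16391 (.s (n false (n true (n false e e) e) (n false e e)) 16387 (.s (n false (n false (n false (n false (n false e e) (n false e e)) (n false (n false e e) (n false e e))) (n false e e)) (n true (n false (n true (n false e e) e) (n false e e)) e)) 16393 .z))) (.s 39 7 (.s 39 16 (.s 48 7 (.s 73 0 (.s 48 16 (.s 52 7 (.s 75 7 (.s 89 39 (.s 123 7 (.s 89 75 (.s 121 45 (.s 123 89 (.s 158 7 (.s 158 89 .z))))))))))))))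
  (.s (.s (n false (n true (n false e e) e) (n false e e)) 16387 (.s (n false (n true (n true (n false (n false (n false (n false e e) (n false e e)) (n false (n false e e) (n false e e))) (n false e e)) e) e) (n false e e)) 16391 (.s (n false (n false e e) (n false e e)) 16393 (.s (n false (n false (n false (n false (n false e e) (n false e e)) (n false (n false e e) (n false e e))) (n false e e)) (n true (n false (n true (n false e e) e) (n false e e)) e)) 16393 .z)))) (.s 39 7 (.s 39 16 (.s 48 7 (.s 73 0 (.s 48 16 (.s 52 7 (.s 75 7 (.s 89 39 (.s 123 7 (.s 89 75 (.s 123 89 (.s 158 7 (.s 158 89 .z)))))))))))))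
  (.s (.s (n false (n true (n true (n false (n false (n false (n false e e) (n false e e)) (n false (n false e e) (n false e e))) (n false e e)) e) e) (n false e e)) 16391 (.s (n false (n false e e) (n false e e)) 16393 (.s (n false (n false (n false (n false (n false e e) (n false e e)) (n false (n false e e) (n false e e))) (n false e e)) (n false e e)) 16386 (.s (n false (n false (n false (n false (n false e e) (n false e e)) (n false (n false e e) (n false e e))) (n false e e)) (n true (n false (n true (n false e e) e) (n false e e)) e)) 16393 (.s (n false (n true (n false e e) e) (n false e e)) 16391 .z))))) (.s 39 7 (.s 39 16 (.s 48 7 (.s 73 0 (.s 75 7 (.s 89 39 (.s 123 7 (.s 89 75 (.s 123 89 (.s 158 7 (.s 158 89 .z)))))))))))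
  (.s (.s (n false (n true (n true (n false (n false (n false (n false e e) (n false e e)) (n false (n false e e) (n false e e))) (n false e e)) e) e) (n false e e)) 16390 (.s (n false (n false (n false (n false (n false e e) (n false e e)) (n false (n false e e) (n false e e))) (n false e e)) (n true (n false (n true (n false e e) e) (n false e e)) e)) 16393 .z)) (.s 39 7 (.s 37 20 (.s 39 16 (.s 48 7 (.s 73 0 (.s 48 16 (.s 52 7 (.s 43 39 (.s 75 7 (.s 89 39 (.s 123 7 (.s 89 75 (.s 121 45 (.s 123 43 (.s 123 89 (.s 158 7 (.s 158 43 (.s 158 89 .z))))))))))))))))))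
  (.s (.s (n false (n true (n true (n false (n false (n false (n false e e) (n false e e)) (n false (n false e e) (n false e e))) (n false e e)) e) e) (n false e e)) 16391 (.s (n true (n false (n false (n false (n false e e) (n false e e)) (n false (n false e e) (n false e e))) (n false e e)) e) 16387 (.s (n false e e) 16384 (.s (n false (n false e e) (n false e e)) 16393 (.s (n false (n false (n false (n false (n false e e) (n false e e)) (n false (n false e e) (n false e e))) (n false e e)) (n true (n false (n true (n false e e) e) (n false e e)) e)) 16393 .z))))) (.s 39 7 (.s 39 16 (.s 73 0 (.s 48 16 (.s 75 7 (.s 89 39 (.s 123 7 (.s 89 75 (.s 123 89 (.s 158 7 (.s 158 89 .z)))))))))))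
  (.s (.s (n false e e) 16384 (.s (n true (n true (n false (n true (n false e e) e) (n false e e)) e) e) 16396 (.s (n true (n true (n true (n false (n false (n false (n false e e) (n false e e)) (n false (n false e e) (n false e e))) (n false e e)) e) e) e) 16390 .z))) (.s 39 7 (.s 39 16 (.s 48 7 (.s 73 0 (.s 48 16 (.s 52 7 (.s 75 7 (.s 89 39 (.s 123 7 (.s 89 75 (.s 121 45 (.s 123 89 (.s 158 7 (.s 158 89 .z))))))))))))))
  (.s (.s (n true (n true (n true (n false (n false (n false (n false e e) (n false e e)) (n false (n false e e) (n false e e))) (n false e e)) e) e) e) 16390 (.s (n false e e) 16384 (.s (n true (n true (n false (n true (n false e e) e) (n false e e)) e) e) 16396 .z))) (.s 39 7 (.s 39 16 (.s 48 7 (.s 73 0 (.s 48 16 (.s 52 7 (.s 75 7 (.s 89 39 (.s 123 7 (.s 89 75 (.s 121 45 (.s 123 89 (.s 158 7 (.s 158 89 .z))))))))))))))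
  (.s (.s (n false e e) 16384 (.s (n true (n true (n false (n true (n false e e) e) (n false e e)) e) e) 16396 .z)) (.s 39 7 (.s 39 16 (.s 48 7 (.s 73 0 (.s 48 16 (.s 52 7 (.s 43 39 (.s 75 7 (.s 89 39 (.s 123 7 (.s 89 75 (.s 121 45 (.s 123 43 (.s 123 89 (.s 158 7 (.s 158 43 (.s 158 89 .z)))))))))))))))))
  (.s (.s (n false e e) 16388 (.s (n true (n false (n true (n false (n false (n false (n false e e) (n false e e)) (n false (n false e e) (n false e e))) (n false e e)) e) (n true (n false e e) e)) e) 16392 (.s (n true (n true (n false (n true (n false e e) e) (n false e e)) e) e) 16396 (.s (n false (n false e e) (n false e e)) 16393 .z)))) (.s 39 7 (.s 39 16 (.s 48 7 (.s 73 0 (.s 75 7 (.s 89 39 (.s 123 7 (.s 89 75 (.s 123 89 (.s 158 7 (.s 158 89 .z)))))))))))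
  (.s (.s (n true (n false (n true (n false e e) e) (n false e e)) e) 16401 (.s (n true (n false e e) e) 16385 (.s (n true (n true (n false (n true (n false e e) e) (n false e e)) e) e) 16396 (.s (n true (n false (n false (n false (n false e e) (n false e e)) (n false (n false e e) (n false e e))) (n false e e)) e) 16385 .z)))) (.s 39 7 (.s 39 16 (.s 48 7 (.s 73 0 (.s 48 16 (.s 75 7 (.s 89 39 (.s 123 7 (.s 89 75 (.s 123 89 (.s 158 7 (.s 158 89 .z))))))))))))
  (.s (.s (n true (n false (n false (n false (n false e e) (n false e e)) (n false (n false e e) (n false e e))) (n false e e)) e) 16388 (.s (n false (n true (n false e e) e) (n false e e)) 16387 (.s (n true (n false (n true (n false e e) e) (n false e e)) e) 16395 (.s (n false (n false e e) (n false e e)) 16393 .z)))) (.s 39 7 (.s 39 16 (.s 73 0 (.s 48 16 (.s 89 39 (.s 123 7 (.s 89 75 (.s 123 89 (.s 158 7 (.s 158 89 .z))))))))))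
  (.s (.s (n true (n false (n true (n false e e) e) (n false e e)) e) 16407 (.s (n true (n false (n false (n false (n false e e) (n false e e)) (n false (n false e e) (n false e e))) (n false e e)) e) 16388 (.s (n false (n true (n false e e) e) (n false e e)) 16387 .z))) (.s 39 7 (.s 39 16 (.s 73 0 (.s 48 16 (.s 89 39 (.s 123 7 (.s 89 75 (.s 123 89 (.s 158 7 (.s 158 89 .z))))))))))
  (.s (.s (n false (n true (n false e e) e) (n false e e)) 16387 (.s (n false (n false (n false (n false (n false e e) (n false e e)) (n false (n false e e) (n false e e))) (n false e e)) (n true (n false e e) e)) 16390 (.s (n false (n false (n false (n false (n false e e) (n false e e)) (n false (n false e e) (n false e e))) (n false e e)) (n true (n false (n true (n false e e) e) (n false e e)) e)) 16393 (.s (n true (n false (n true (n false e e) e) (n false e e)) e) 16395 (.s (n true (n false (n false (n false (n false e e) (n false e e)) (n false (n false e e) (n false e e))) (n false e e)) e) 16387 (.s (n false (n false e e) (n false e e)) 16393 .z)))))) (.s 39 7 (.s 39 16 (.s 73 0 (.s 48 16 (.s 89 39 (.s 123 7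 (.s 89 75 (.s 123 89 (.s 158 7 (.s 158 89 .z))))))))))
  (.s (.s (n false (n true (n true (n false (n false (n false (n false e e) (n false e e)) (n false (n false e e) (n false e e))) (n false e e)) e) e) (n false e e)) 16391 (.s (n false e e) 16384 (.s (n false (n true (n false (n true (n false e e) e) (n false e e)) e) (n true (n false e e) e)) 16398 .z))) (.s 39 7 (.s 39 16 (.s 48 7 (.s 73 0 (.s 48 16 (.s 52 7 (.s 75 7 (.s 89 39 (.s 123 7 (.s 89 75 (.s 121 45 (.s 123 89 (.s 158 7 (.s 158 89 .z))))))))))))))
  (.s (.s (n false (n true (n true (n false (n false (n false (n false e e) (n false e e)) (n false (n false e e) (n false e e))) (n false e e)) e) e) (n false e e)) 16391 (.s (n false (n false (n false (n false (n false e e) (n false e e)) (n false (n false e e) (n false e e))) (n false e e)) (n false e e)) 16388 (.s (n false (n false (n false (n false (n false e e) (n false e e)) (n false (n false e e) (n false e e))) (n false e e)) (n true (n false (n true (n false e e) e) (n false e e)) e)) 16393 (.s (n false (n true (n false e e) e) (n false e e)) 16393 (.s (n false (n false e e) e)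 16391 (.s (n false (n false e e) (n false e e)) 16393 .z)))))) (.s 39 7 (.s 75 7 (.s 89 39 (.s 123 7 (.s 89 75 (.s 123 89 (.s 158 7 (.s 158 89 .z))))))))
  (.s (.s (n true (n false (n true (n false e e) e) (n false e e)) e) 16395 (.s (n false (n true (n false e e) e) (n false e e)) 16387 (.s (n false (n false e e) (n false e e)) 16393 (.s (n false (n true (n true (n false (n false (n false (n false e e) (n false e e)) (n false (n false e e) (n false e e))) (n false e e)) e) e) (n false e e)) 16390 (.s (n false (n false (n false (n false (n false e e) (n false e e)) (n false (n false e e) (n false e e))) (n false e e)) (n true (n false (n true (n false e e) e) (n false e e)) e)) 16393 .z))))) (.s 39 7 (.s 39 16 (.s 48 7 (.s 73 0 (.s 48 16 (.s 52 7 (.s 75 7 (.s 89 39 (.s 123 7 (.s 89 75 (.s 123 89 (.s 158 7 (.s 158 89 .z)))))))))))))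
  (.s (.s (n true (n false (n true (n false e e) e) (n false e e)) e) 16395 (.s (n false (n false (n false (n false (n false e e) (n false e e)) (n false (n false e e) (n false e e))) (n false e e)) (n true (n false (n true (n false e e) e) (n false e e)) e)) 16393 (.s (n false (n false e e) (n false e e)) 16393 (.s (n false (n true (n false e e) e) (n false e e)) 16387 (.s (n false (n true (n true (n false (n false (n false (n false e e) (n false e e)) (n false (n false e e) (n false e e))) (n false e e)) e) e) (n false e e)) 16390 .z))))) (.s 39 7 (.s 39 16 (.s 48 7 (.s 73 0 (.s 48 16 (.s 52 7 (.s 75 7 (.s 89 39 (.s 123 7 (.s 89 75 (.s 123 89 (.s 158 7 (.s 158 89 .z)))))))))))))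
  (.s (.s (n false (n true (n true (n false (n false (n false (n false e e) (n false e e)) (n false (n false e e) (n false e e))) (n false e e)) e) e) (n false e e)) 16391 (.s (n false (n false (n false (n false (n false e e) (n false e e)) (n false (n false e e) (n false e e))) (n false e e)) (n true (n false (n true (n false e e) e) (n false e e)) e)) 16393 .z)) (.s 39 7 (.s 37 20 (.s 39 16 (.s 48 7 (.s 73 0 (.s 48 16 (.s 52 7 (.s 75 7 (.s 89 39 (.s 123 7 (.s 89 75 (.s 121 45 (.s 123 89 (.s 158 7 (.s 158 89 .z)))))))))))))))
  (.s (.s (n true (n false (n true (n false e e) e) (n false e e)) e) 16395 (.s (n false (n false e e) (n false e e)) 16393 (.s (n false (n true (n false e e) e) (n false e e)) 16387 (.s (n false (n false (n false (n false (n false e e) (n false e e)) (n false (n false e e) (n false e e))) (n false e e)) (n true (n false (n true (n false e e) e) (n false e e)) e)) 16393 (.s (n false (n true (n false (n false (n false e e) (n false e e)) (n false (n false e e) (n false e e))) e) (n false e e)) 16399 .z))))) (.s 39 7 (.s 39 16 (.s 48 7 (.s 73 0 (.s 48 16 (.s 52 7 (.s 75 7 (.s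 89 39 (.s 123 7 (.s 89 75 (.s 123 89 (.s 158 7 (.s 158 89 .z)))))))))))))
  (.s (.s (n false (n true (n false e e) e) (n false e e)) 16393 (.s (n true (n false (n true (n false e e) e) (n false e e)) e) 16395 (.s (n false (n false (n false (n false (n false e e) (n false e e)) (n false (n false e e) (n false e e))) (n false e e)) (n true (n false (n true (n false e e) e) (n false e e)) e)) 16393 (.s (n false (n false e e) e) 16391 (.s (n false (n false e e) (n false e e)) 16393 .z))))) (.s 39 7 (.s 75 7 (.s 89 39 (.s 123 7 (.s 89 75 (.s 123 89 (.s 158 7 (.s 158 89 .z))))))))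
  (.s (.s (n true (n false e e) e) 16385 (.s (n true (n true (n false (n true (n false e e) e) (n false e e)) e) e) 16396 (.s (n true (n false (n true (n false e e) e) (n false e e)) e) 16401 .z))) (.s 39 7 (.s 39 16 (.s 48 7 (.s 73 0 (.s 48 16 (.s 52 7 (.s 75 7 (.s 89 39 (.s 123 7 (.s 89 75 (.s 123 89 (.s 158 7 (.s 158 89 .z)))))))))))))
  (.s (.s (n true (n false (n false (n false (n false e e) (n false e e)) (n false (n false e e) (n false e e))) (n false e e)) e) 16389 (.s (n true (n false (n true (n false e e) e) (n false e e)) e) 16401 (.s (n false (n true (n false e e) e) (n false e e)) 16391 .z))) (.s 39 16 (.s 73 0 (.s 89 39 (.s 89 75 (.s 123 89 (.s 158 89 .z))))))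
  (.s (.s (n false e e) 16388 (.s (n false (n true (n true (n false (n false (n false (n false e e) (n false e e)) (n false (n false e e) (n false e e))) (n false e e)) e) e) (n false e e)) 16391 (.s (n true (n true (n false (n true (n false e e) e) (n false e e)) e) e) 16396 .z))) (.s 39 7 (.s 39 16 (.s 48 7 (.s 73 0 (.s 75 7 (.s 89 39 (.s 123 7 (.s 89 75 (.s 121 45 (.s 123 89 (.s 158 7 (.s 158 89 .z))))))))))))
  (.s (.s (n true (n false (n false (n false (n false e e) (n false e e)) (n false (n false e e) (n false e e))) (n false e e)) e) 16389 (.s (n false (n false e e) (n false e e)) 16393 (.s (n true (n false (n true (n false e e) e) (n false e e)) e) 16395 (.s (n false e e) 16388 .z)))) (.s 39 16 (.s 73 0 (.s 89 39 (.s 89 75 (.s 123 89 (.s 158 89 .z))))))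
  (.s (.s (n false e e) 16388 (.s (n true (n true (n false (n true (n false e e) e) (n false e e)) e) e) 16396 (.s (n true (n true (n true (n false (n false (n false (n false e e) (n false e e)) (n false (n false e e) (n false e e))) (n false e e)) e) e) e) 16390 (.s (n false (n false e e) (n false e e)) 16393 .z)))) (.s 39 7 (.s 39 16 (.s 48 7 (.s 73 0 (.s 75 7 (.s 89 39 (.s 123 7 (.s 89 75 (.s 123 89 (.s 158 7 (.s 158 89 .z)))))))))))
  (.s (.s (n true (n false (n false (n false (n false e e) (n false e e)) (n false (n false e e) (n false e e))) (n false e e)) e) 16389 (.s (n false (n true (n true (n false (n false (n false (n false e e) (n false e e)) (n false (n false e e) (n false e e))) (n false e e)) e) e) (n false e e)) 16391 (.s (n false (n false e e) (n false e e)) 16393 (.s (n false e e) 16388 .z)))) (.s 39 16 (.s 73 0 (.s 89 39 (.s 89 75 (.s 123 89 (.s 158 89 .z))))))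
  (.s (.s (n true (n false (n true (n false e e) e) (n false e e)) e) 16395 (.s (n true (n false (n false (n false (n false e e) (n false e e)) (n false (n false e e) (n false e e))) (n false e e)) e) 16387 (.s (n true (n true (n false e e) e) e) 16386 (.s (n false (n false e e) (n false e e)) 16393 (.s (n false (n false (n false (n false (n false e e) (n false e e)) (n false (n false e e) (n false e e))) (n false e e)) (n true (n false (n true (n false e e) e) (n false e e)) e)) 16393 .z))))) (.s 39 7 (.s 39 16 (.s 73 0 (.s 48 16 (.s 75 7 (.s 89 39 (.s 123 7 (.s 89 75 (.s 123 89 (.s 158 7 (.s 158 89 .z)))))))))))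
  (.s (.s (n true (n false (n false (n false (n false e e) (n false e e)) (n false (n false e e) (n false e e))) (n false e e)) e) 16389 (.s (n true (n false (n true (n false e e) e) (n false e e)) e) 16395 (.s (n false (n false e e) (n false e e)) 16393 (.s (n false e e) 16388 .z)))) (.s 39 16 (.s 73 0 (.s 89 39 (.s 89 75 (.s 123 89 (.s 158 89 .z))))))
  (.s (.s (n true (n false (n true (n false e e) e) (n false e e)) e) 16395 (.s (n false (n false e e) (n false e e)) 16393 (.s (n true (n false (n false (n false (n false e e) (n false e e)) (n false (n false e e) (n false e e))) (n false e e)) e) 16389 (.s (n false e e) 16388 .z)))) (.s 39 16 (.s 73 0 (.s 89 39 (.s 89 75 (.s 123 89 (.s 158 89 .z))))))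
  (.s (.s (n false e e) 16384 (.s (n true (n true (n true (n false (n false (n false (n false e e) (n false e e)) (n false (n false e e) (n false e e))) (n false e e)) e) e) e) 16390 (.s (n true (n true (n false (n true (n false e e) e) (n false e e)) e) e) 16396 .z))) (.s 39 7 (.s 39 16 (.s 48 7 (.s 73 0 (.s 48 16 (.s 52 7 (.s 75 7 (.s 89 39 (.s 123 7 (.s 89 75 (.s 121 45 (.s 123 89 (.s 158 7 (.s 158 89 .z))))))))))))))
  (.s (.s (n true (n false e e) e) 16392 .z) (.s 39 7 (.s 89 39 (.s 123 7 (.s 123 89 (.s 158 7 (.s 158 89 .z))))))
  (.s (.s (n true (n true (n false (n true (n false e e) e) (n false e e)) e) e) 16396 .z) (.s 39 7 (.s 34 20 (.s 37 20 (.s 39 16 (.s 48 7 (.s 73 0 (.s 48 16 (.s 52 7 (.s 43 39 (.s 75 7 (.s 89 39 (.s 123 7 (.s 89 75 (.s 121 45 (.s 123 43 (.s 123 89 (.s 158 7 (.s 158 43 (.s 158 89 .z)))))))))))))))))))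
  (.s (.s (n false e e) 16384 (.s (n false (n true (n false e e) e) (n false e e)) 16395 (.s (n false (n false e e) e) 16391 .z))) .z
  (.s (.s (n false (n true (n false e e) e) (n false e e)) 16391 (.s (n false (n true (n false (n true (n false e e) e) (n false e e)) e) (n true (n false e e) e)) 16398 (.s (n true (n false (n true (n false e e) e) (n false e e)) e) 16395 (.s (n true (n false e e) e) 16385 .z)))) (.s 39 7 (.s 39 16 (.s 48 7 (.s 73 0 (.s 75 7 (.s 89 39 (.s 123 7 (.s 89 75 (.s 121 45 (.s 123 89 (.s 158 7 (.s 158 89 .z))))))))))))
  (.s (.s (n true (n false e e) e) 16385 (.s (n false (n true (n false e e) e) (n false e e)) 16394 (.s (n false (n false e e) e) 16391 .z))) (.s 39 7 (.s 89 39 (.s 123 7 (.s 123 89 (.s 158 7 (.s 158 89 .z))))))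
  (.s (.s (n true (n false (n false (n false (n false e e) (n false e e)) (n false (n false e e) (n false e e))) (n false e e)) e) 16389 (.s (n true (n false (n true (n false e e) e) (n false e e)) e) 16395 .z)) (.s 37 20 (.s 39 16 (.s 73 0 (.s 48 16 (.s 89 39 (.s 89 75 (.s 121 45 (.s 123 89 (.s 158 89 .z)))))))))
  (.s (.s (n false (n true (n false (n false (n false (n false e e) (n false e e)) (n false (n false e e) (n false e e))) (n false e e)) e) (n true (n false e e) e)) 16391 .z) (.s 39 7 (.s 34 20 (.s 37 20 (.s 39 16 (.s 48 7 (.s 73 0 (.s 48 16 (.s 52 7 (.s 43 39 (.s 75 7 (.s 89 39 (.s 123 7 (.s 89 75 (.s 121 45 (.s 123 43 (.s 123 89 (.s 158 7 (.s 158 43 (.s 158 89 .z)))))))))))))))))))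
  (.s (.s (n true (n false e e) e) 16385 (.s (n true (n true (n false (n true (n false e e) e) (n false e e)) e) e) 16396 (.s (n false (n true (n true (n false (n false (n false (n false e e) (n false e e)) (n false (n false e e) (n false e e))) (n false e e)) e) e) (n false e e)) 16391 (.s (n false (n true (n false e e) e) (n false e e)) 16391 (.s (n false (n false e e) (n false e e)) 16393 .z))))) (.s 39 7 (.s 39 16 (.s 48 7 (.s 73 0 (.s 75 7 (.s 89 39 (.s 123 7 (.s 89 75 (.s 123 89 (.s 158 7 (.s 158 89 .z)))))))))))
  (.s (.s (n false (n true (n true (n false (n false (n false (n false e e) (n false e e)) (n false (n false e e) (n false e e))) (n false e e)) e) e) (n false e e)) 16391 (.s (n false (n false (n false (n false (n false e e) (n false e e)) (n false (n false e e) (n false e e))) (n false e e)) (n false e e)) 16386 (.s (n false (n false (n false (n false (n false e e) (n false e e)) (n false (n false e e) (n false e e))) (n false e e)) (n true (n false (n true (n false e e) e) (n false e e)) e)) 16393 (.s (n false e e) 16388 (.s (n false (n false e e) (n false e e)) 16393 .z)))))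 (.s 39 7 (.s 39 16 (.s 48 7 (.s 73 0 (.s 75 7 (.s 89 39 (.s 123 7 (.s 89 75 (.s 123 89 (.s 158 7 (.s 158 89 .z)))))))))))
  (.s (.s (n true (n false e e) e) 16385 (.s (n false (n true (n false e e) e) (n false e e)) 16395 (.s (n false (n false e e) e) 16391 .z))) .z
  (.s (.s (n true (n false e e) e) 16391 (.s (n true (n true (n false (n true (n false e e) e) (n false e e)) e) e) 16396 (.s (n false (n true (n true (n false (n false (n false (n false e e) (n false e e)) (n false (n false e e) (n false e e))) (n false e e)) e) e) (n false e e)) 16391 (.s (n false (n false e e) (n false e e)) 16393 .z)))) (.s 39 7 (.s 75 7 (.s 89 39 (.s 123 7 (.s 89 75 (.s 123 89 (.s 158 7 (.s 158 89 .z))))))))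
  (.s (.s (n false e e) 16390 (.s (n false (n true (n false e e) e) (n false e e)) 16395 .z)) .z
  (.s (.s (n true (n false (n false (n false (n false e e) (n false e e)) (n false (n false e e) (n false e e))) (n false e e)) e) 16389 (.s (n false (n true (n false e e) e) (n false e e)) 16395 (.s (n false e e) 16390 .z))) .z
  (.s (.s (n false (n true (n true (n false (n false (n false (n false e e) (n false e e)) (n false (n false e e) (n false e e))) (n false e e)) e) e) (n false e e)) 16391 (.s (n false (n true (n false e e) e) (n false e e)) 16391 (.s (n false (n false (n false (n false (n false e e) (n false e e)) (n false (n false e e) (n false e e))) (n false e e)) (n true (n false (n true (n false e e) e) (n false e e)) e)) 16393 (.s (n false (n false e e) (n false e e)) 16393 .z)))) (.s 39 7 (.s 39 16 (.s 48 7 (.s 73 0 (.s 75 7 (.s 89 39 (.s 123 7 (.s 89 75 (.s 123 89 (.s 158 7 (.s 158 89 .z)))))))))))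
  (.s (.s (n true (n true (n false (n true (n false e e) e) (n false e e)) e) e) 16396 (.s (n false (n true (n false e e) e) (n false e e)) 16395 (.s (n false (n false e e) e) 16391 .z))) .z
  (.s (.s (n false (n false (n false (n false (n false e e) (n false e e)) (n false (n false e e) (n false e e))) (n false e e)) (n false e e)) 16389 (.s (n false (n false e e) e) 16391 (.s (n false (n true (n false e e) e) (n false e e)) 16394 .z))) (.s 39 7 (.s 89 39 (.s 123 7 (.s 123 89 (.s 158 7 (.s 158 89 .z))))))
  (.s (.s (n true (n false (n true (n false e e) e) (n false e e)) e) 16395 (.s (n false (n false (n false (n false (n false e e) (n false e e)) (n false (n false e e) (n false e e))) (n false e e)) (n false e e)) 16386 (.s (n false (n false (n false (n false (n false e e) (n false e e)) (n false (n false e e) (n false e e))) (n false e e)) (n true (n false (n true (n false e e) e) (n false e e)) e)) 16393 (.s (n false (n true (n false e e) e) (n false e e)) 16391 (.s (n false (n false e e) (n false e e)) 16393 (.s (n false (n true (n false (n false (n false e e) (n false e e)) (n false (n false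 e e) (n false e e))) e) (n false e e)) 16399 .z)))))) (.s 39 7 (.s 39 16 (.s 48 7 (.s 73 0 (.s 75 7 (.s 89 39 (.s 123 7 (.s 89 75 (.s 123 89 (.s 158 7 (.s 158 89 .z)))))))))))
  (.s (.s (n true (n false (n true (n false e e) e) (n false e e)) e) 16401 (.s (n true (n false (n false (n false (n false e e) (n false e e)) (n false (n false e e) (n false e e))) (n false e e)) e) 16385 (.s (n false (n false (n false (n false (n false e e) (n false e e)) (n false (n false e e) (n false e e))) (n false e e)) (n true (n false (n true (n false e e) e) (n false e e)) e)) 16393 (.s (n false (n true (n false e e) e) (n false e e)) 16391 (.s (n false (n true (n false (n false (n false e e) (n false e e)) (n false (n false e e) (n false e e))) e) (n false e e)) 16399 .z))))) (.s 39 7 (.s 39 16 (.s 48 7 (.s 73 0 (.s 75 7 (.s 89 39 (.s 123 7 (.s 89 75 (.s 123 89 (.s 158 7 (.s 158 89 .z)))))))))))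
  (.s (.s (n false (n false (n false (n false (n false e e) (n false e e)) (n false (n false e e) (n false e e))) (n false e e)) (n false e e)) 16389 (.s (n true (n false (n true (n false e e) e) (n false e e)) e) 16401 (.s (n false (n true (n false e e) e) (n false e e)) 16394 (.s (n false (n false e e) e) 16391 .z)))) (.s 39 7 (.s 89 39 (.s 123 7 (.s 123 89 (.s 158 7 (.s 158 89 .z))))))
  (.s (.s (n true (n false (n true (n false e e) e) (n false e e)) e) 16401 (.s (n false (n true (n false e e) e) (n false e e)) 16391 (.s (n false (n false (n false (n false (n false e e) (n false e e)) (n false (n false e e) (n false e e))) (n false e e)) (n true (n false (n true (n false e e) e) (n false e e)) e)) 16393 (.s (n false (n true (n false (n false (n false e e) (n false e e)) (n false (n false e e) (n false e e))) e) (n false e e)) 16399 .z)))) (.s 39 7 (.s 39 16 (.s 48 7 (.s 73 0 (.s 75 7 (.s 89 39 (.s 123 7 (.s 89 75 (.s 123 89 (.s 158 7 (.s 158 89 .z)))))))))))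
  (.s (.s (n false (n false (n false (n false (n false e e) (n false e e)) (n false (n false e e) (n false e e))) (n false e e)) (n true (n false (n true (n false e e) e) (n false e e)) e)) 16393 (.s (n false (n true (n true (n false (n false (n false (n false e e) (n false e e)) (n false (n false e e) (n false e e))) (n false e e)) e) e) (n false e e)) 16391 (.s (n false (n false e e) (n false e e)) 16393 (.s (n false (n true (n false e e) e) (n false e e)) 16387 .z)))) (.s 39 7 (.s 39 16 (.s 48 7 (.s 73 0 (.s 48 16 (.s 52 7 (.s 75 7 (.s 89 39 (.s 123 7 (.s 89 75 (.s 123 89 (.s 158 7 (.s 158 89 .z)))))))))))))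
  (.s (.s (n false (n true (n false e e) e) (n false e e)) 16391 (.s (n false (n false (n false (n false (n false e e) (n false e e)) (n false (n false e e) (n false e e))) (n false e e)) (n true (n false (n true (n false e e) e) (n false e e)) e)) 16393 (.s (n false (n true (n true (n false (n false (n false (n false e e) (n false e e)) (n false (n false e e) (n false e e))) (n false e e)) e) e) (n false e e)) 16391 .z))) (.s 39 7 (.s 39 16 (.s 48 7 (.s 73 0 (.s 75 7 (.s 89 39 (.s 123 7 (.s 89 75 (.s 121 45 (.s 123 89 (.s 158 7 (.s 158 89 .z))))))))))))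
  (.s (.s (n false (n true (n false e e) e) (n false e e)) 16391 (.s (n false (n false (n false (n false (n false e e) (n false e e)) (n false (n false e e) (n false e e))) (n false e e)) (n true (n false (n true (n false e e) e) (n false e e)) e)) 16393 (.s (n false (n true (n true (n false (n false (n false (n false e e) (n false e e)) (n false (n false e e) (n false e e))) (n false e e)) e) e) (n false e e)) 16391 (.s (n false (n false e e) (n false e e)) 16393 .z)))) (.s 39 7 (.s 39 16 (.s 48 7 (.s 73 0 (.s 75 7 (.s 89 39 (.s 123 7 (.s 89 75 (.s 123 89 (.s 158 7 (.s 158 89 .z)))))))))))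
  (.s (.s (n false (n true (n false e e) e) (n false e e)) 16387 (.s (n false (n false (n false (n false (n false e e) (n false e e)) (n false (n false e e) (n false e e))) (n false e e)) (n true (n false (n true (n false e e) e) (n false e e)) e)) 16393 (.s (n false (n true (n true (n false (n false (n false (n false e e) (n false e e)) (n false (n false e e) (n false e e))) (n false e e)) e) e) (n false e e)) 16391 (.s (n false (n false e e) (n false e e)) 16393 .z)))) (.s 39 7 (.s 39 16 (.s 48 7 (.s 73 0 (.s 48 16 (.s 52 7 (.s 75 7 (.s 89 39 (.s 123 7 (.s 89 75 (.s 123 89 (.s 158 7 (.s 158 89 .z)))))))))))))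
  (.s (.s (n true (n false (n true (n false e e) e) (n false e e)) e) 16395 (.s (n false (n false (n false (n false (n false e e) (n false e e)) (n false (n false e e) (n false e e))) (n false e e)) (n false e e)) 16386 (.s (n false (n false (n false (n false (n false e e) (n false e e)) (n false (n false e e) (n false e e))) (n false e e)) (n true (n false (n true (n false e e) e) (n false e e)) e)) 16393 (.s (n false e e) 16388 (.s (n false (n false e e) (n false e e)) 16393 .z))))) (.s 39 7 (.s 39 16 (.s 48 7 (.s 73 0 (.s 75 7 (.s 89 39 (.s 123 7 (.s 89 75 (.s 123 89 (.s 158 7 (.s 158 89 .z)))))))))))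
  (.s (.s (n false e e) 16388 (.s (n true (n false (n true (n false e e) e) (n false e e)) e) 16395 (.s (n true (n true (n false (n true (n false e e) e) (n false e e)) e) e) 16396 (.s (n false (n false e e) (n false e e)) 16393 .z)))) (.s 39 7 (.s 39 16 (.s 48 7 (.s 73 0 (.s 75 7 (.s 89 39 (.s 123 7 (.s 89 75 (.s 123 89 (.s 158 7 (.s 158 89 .z)))))))))))
  (.s (.s (n false (n true (n false (n false (n false (n false e e) (n false e e)) (n false (n false e e) (n false e e))) (n false e e)) e) (n true (n false e e) e)) 16391 (.s (n false (n false (n true (n false (n false (n false (n false e e) (n false e e)) (n false (n false e e) (n false e e))) (n false e e)) e) (n true (n false e e) e)) (n false e e)) 16393 .z)) (.s 39 7 (.s 34 20 (.s 37 20 (.s 39 16 (.s 48 7 (.s 73 0 (.s 48 16 (.s 52 7 (.s 75 7 (.s 89 39 (.s 123 7 (.s 89 75 (.s 121 45 (.s 123 89 (.s 158 7 (.s 158 89 .z))))))))))))))))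
  (.s (.s (n true (n false (n true (n false e e) e) (n false e e)) e) 16395 (.s (n false (n true (n false e e) e) (n false e e)) 16395 (.s (n false e e) 16390 .z))) .z
  (.s (.s (n false (n true (n false e e) e) (n false e e)) 16395 (.s (n true (n false e e) e) 16391 .z)) .z
  (.s (.s (n false (n true (n false e e) e) (n false e e)) 16391 (.s (n true (n false (n true (n false e e) e) (n false e e)) e) 16395 (.s (n false (n false e e) (n false e e)) 16393 (.s (n false (n true (n false (n false (n false e e) (n false e e)) (n false (n false e e) (n false e e))) e) (n false e e)) 16399 (.s (n false (n false (n false (n false (n false e e) (n false e e)) (n false (n false e e) (n false e e))) (n false e e)) (n true (n false (n true (n false e e) e) (n false e e)) e)) 16393 .z))))) (.s 39 7 (.s 39 16 (.s 48 7 (.s 73 0 (.s 75 7 (.s 89 39 (.s 123 7 (.s 89 75 (.s 123 89 (.s 158 7 (.s 158 89 .z)))))))))))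
  (.s (.s (n true (n false (n true (n false e e) e) (n false e e)) e) 16395 (.s (n false e e) 16388 (.s (n false (n false e e) (n false e e)) 16393 (.s (n false (n false (n false (n false (n false e e) (n false e e)) (n false (n false e e) (n false e e))) (n false e e)) (n true (n false (n true (n false e e) e) (n false e e)) e)) 16393 .z)))) (.s 39 7 (.s 39 16 (.s 48 7 (.s 73 0 (.s 75 7 (.s 89 39 (.s 123 7 (.s 89 75 (.s 123 89 (.s 158 7 (.s 158 89 .z)))))))))))
  (.s (.s (n false (n true (n false e e) e) (n false e e)) 16391 (.s (n false (n false (n false (n false (n false e e) (n false e e)) (n false (n false e e) (n false e e))) (n false e e)) (n true (n false (n true (n false e e) e) (n false e e)) e)) 16393 (.s (n false (n true (n true (n false (n false (n false (n false e e) (n false e e)) (n false (n false e e) (n false e e))) (n false e e)) e) e) (n false e e)) 16391 (.s (n false (n false e e) (n false e e)) 16393 .z)))) (.s 89 39 (.s 39 7 (.s 39 16 (.s 48 7 (.s 73 0 (.s 75 7 (.s 123 7 (.s 89 75 (.s 123 89 (.s 158 7 (.s 158 89 .z)))))))))))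
  (.s (.s (n true (n false (n false (n false (n false e e) (n false e e)) (n false (n false e e) (n false e e))) (n false e e)) e) 16389 (.s (n true (n false (n true (n false e e) e) (n false e e)) e) 16401 (.s (n false (n true (n false e e) e) (n false e e)) 16395 (.s (n false (n false e e) e) 16391 .z)))) .z
  (.s (.s (n false (n true (n false e e) e) (n false e e)) 16393 (.s (n false (n true (n true (n false (n false (n false (n false e e) (n false e e)) (n false (n false e e) (n false e e))) (n false e e)) e) e) (n false e e)) 16391 (.s (n false (n false e e) e) 16391 (.s (n false (n false e e) (n false e e)) 16393 (.s (n false (n false (n false (n false (n false e e) (n false e e)) (n false (n false e e) (n false e e))) (n false e e)) (n true (n false (n true (n false e e) e) (n false e e)) e)) 16393 .z))))) (.s 39 7 (.s 75 7 (.s 89 39 (.s 123 7 (.s 89 75 (.s 123 89 (.s 158 7 (.s 158 89 .z))))))))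
  (.s (.s (n true (n false (n true (n false e e) e) (n false e e)) e) 16401 (.s (n false (n false (n false (n false (n false e e) (n false e e)) (n false (n false e e) (n false e e))) (n false e e)) (n false e e)) 16386 (.s (n false (n false (n false (n false (n false e e) (n false e e)) (n false (n false e e) (n false e e))) (n false e e)) (n true (n false (n true (n false e e) e) (n false e e)) e)) 16393 (.s (n false (n true (n false e e) e) (n false e e)) 16391 (.s (n false (n true (n false (n false (n false e e) (n false e e)) (n false (n false e e) (n false e e))) e) (n false e e)) 16399 .z))))) (.s 39 7 (.s 39 16 (.s 48 7 (.s 73 0 (.s 75 7 (.s 89 39 (.s 123 7 (.s 89 75 (.s 123 89 (.s 158 7 (.s 158 89 .z)))))))))))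
  (.s (.s (n false (n true (n true (n false (n false (n false (n false e e) (n false e e)) (n false (n false e e) (n false e e))) (n false e e)) e) e) (n false e e)) 16391 (.s (n false (n false (n false (n false (n false e e) (n false e e)) (n false (n false e e) (n false e e))) (n false e e)) (n false e e)) 16386 (.s (n false (n false (n false (n false (n false e e) (n false e e)) (n false (n false e e) (n false e e))) (n false e e)) (n true (n false (n true (n false e e) e) (n false e e)) e)) 16393 (.s (n false (n true (n false e e) e) (n false e e)) 16391 .z)))) (.s 39 7 (.s 39 16 (.s 48 7 (.s 73 0 (.s 75 7 (.s 89 39 (.s 123 7 (.s 89 75 (.s 121 45 (.s 123 89 (.s 158 7 (.s 158 89 .z))))))))))))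
  (.s (.s (n true (n false (n true (n false e e) e) (n false e e)) e) 16395 (.s (n true (n false (n false (n false (n false e e) (n false e e)) (n false (n false e e) (n false e e))) (n false e e)) e) 16389 .z)) (.s 37 20 (.s 39 16 (.s 73 0 (.s 48 16 (.s 89 39 (.s 89 75 (.s 121 45 (.s 123 89 (.s 158 89 .z)))))))))
  (.s (.s (n true (n false (n false (n false (n false e e) (n false e e)) (n false (n false e e) (n false e e))) (n false e e)) e) 16385 (.s (n false (n true (n false e e) e) (n false e e)) 16395 (.s (n false (n false e e) e) 16391 .z))) .z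
  (.s (.s (n true (n false (n true (n false e e) e) (n false e e)) e) 16401 (.s (n false e e) 16384 (.s (n false (n true (n false (n true (n false e e) e) (n false e e)) e) (n true (n false e e) e)) 16398 .z))) (.s 39 7 (.s 39 16 (.s 48 7 (.s 73 0 (.s 48 16 (.s 52 7 (.s 75 7 (.s 89 39 (.s 123 7 (.s 89 75 (.s 123 89 (.s 158 7 (.s 158 89 .z)))))))))))))
  (.s (.s (n false (n false e e) (n false e e)) 16393 (.s (n false (n true (n false e e) e) (n false e e)) 16387 (.s (n false (n true (n false (n true (n false e e) e) (n false e e)) e) (n true (n false e e) e)) 16398 .z))) (.s 39 7 (.s 34 20 (.s 39 16 (.s 48 7 (.s 73 0 (.s 48 16 (.s 52 7 (.s 43 39 (.s 75 7 (.s 89 39 (.s 123 7 (.s 89 75 (.s 123 43 (.s 123 89 (.s 158 7 (.s 158 43 (.s 158 89 .z)))))))))))))))))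
  (.s (.s (n true (n false (n true (n false e e) e) (n false e e)) e) 16395 (.s (n false (n true (n false (n true (n false e e) e) (n false e e)) e) (n true (n false e e) e)) 16398 .z)) (.s 39 7 (.s 34 20 (.s 37 20 (.s 39 16 (.s 48 7 (.s 73 0 (.s 48 16 (.s 52 7 (.s 75 7 (.s 89 39 (.s 123 7 (.s 89 75 (.s 121 45 (.s 123 89 (.s 158 7 (.s 158 89 .z))))))))))))))))
  (.s (.s (n true (n false e e) e) 16391 (.s (n true (n false (n true (n false e e) e) (n false e e)) e) 16395 (.s (n false (n false (n false (n false (n false e e) (n false e e)) (n false (n false e e) (n false e e))) (n false e e)) (n true (n false (n true (n false e e) e) (n false e e)) e)) 16393 .z))) (.s 39 7 (.s 75 7 (.s 89 39 (.s 123 7 (.s 89 75 (.s 121 45 (.s 123 89 (.s 158 7 (.s 158 89 .z)))))))))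
  (.s (.s (n true (n false (n false (n false (n false e e) (n false e e)) (n false (n false e e) (n false e e))) (n false e e)) e) 16389 (.s (n true (n false e e) e) 16391 (.s (n true (n false (n true (n false e e) e) (n false e e)) e) 16401 .z))) (.s 89 39 (.s 89 75 (.s 123 89 (.s 158 89 .z))))
  (.s (.s (n true (n false (n false (n false (n false e e) (n false e e)) (n false (n false e e) (n false e e))) (n false e e)) e) 16389 (.s (n false e e) 16388 (.s (n true (n false (n true (n false e e) e) (n false e e)) e) 16401 .z))) (.s 39 16 (.s 73 0 (.s 89 39 (.s 89 75 (.s 123 89 (.s 158 89 .z))))))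
  (.s (.s (n true (n false (n false (n false (n false e e) (n false e e)) (n false (n false e e) (n false e e))) (n false e e)) e) 16389 (.s (n true (n false (n true (n false e e) e) (n false e e)) e) 16401 (.s (n false e e) 16388 .z))) (.s 39 16 (.s 73 0 (.s 89 39 (.s 89 75 (.s 123 89 (.s 158 89 .z))))))
  (.s (.s (n false e e) 16390 (.s (n true (n false (n true (n false e e) e) (n false e e)) e) 16401 (.s (n true (n true (n false (n true (n false e e) e) (n false e e)) e) e) 16396 .z))) (.s 39 7 (.s 75 7 (.s 89 39 (.s 123 7 (.s 89 75 (.s 123 89 (.s 158 7 (.s 158 89 .z))))))))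
  (.s (.s (n false e e) 16390 (.s (n true (n false e e) e) 16392 (.s (n true (n false (n false (n false (n false e e) (n false e e)) (n false (n false e e) (n false e e))) (n false e e)) e) 16389 .z))) (.s 89 39 (.s 123 89 (.s 158 89 .z)))
  (.s (.s (n true (n false e e) e) 16389 (.s (n true (n false (n true (n false e e) e) (n false e e)) e) 16395 (.s (n true (n true (n false (n true (n false e e) e) (n false e e)) e) e) 16396 (.s (n false (n true (n false e e) e) (n false e e)) 16394 (.s (n false (n false e e) e) 16391 .z))))) (.s 39 7 (.s 89 39 (.s 123 7 (.s 123 89 (.s 158 7 (.s 158 89 .z))))))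
  (.s (.s (n true (n false (n true (n false e e) e) (n false e e)) e) 16395 (.s (n true (n false e e) e) 16385 (.s (n true (n true (n false (n true (n false e e) e) (n false e e)) e) e) 16396 (.s (n false (n true (n false e e) e) (n false e e)) 16394 (.s (n false (n false e e) e) 16391 .z))))) (.s 39 7 (.s 89 39 (.s 123 7 (.s 123 89 (.s 158 7 (.s 158 89 .z))))))
  (.s (.s (n false (n false e e) e) 16391 (.s (n false (n true (n false e e) e) (n false e e)) 16395 .z)) .z
  (.s (.s (n true (n false (n true (n false e e) e) (n false e e)) e) 16395 (.s (n true (n false (n false (n false (n false e e) (n false e e)) (n false (n false e e) (n false e e))) (n false e e)) e) 16389 (.s (n false e e) 16388 (.s (n false (n false e e) (n false e e)) 16393 .z)))) (.s 39 16 (.s 73 0 (.s 89 39 (.s 89 75 (.s 123 89 (.s 158 89 .z))))))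
  (.s (.s (n false e e) 16384 (.s (n true (n false e e) e) 16392 (.s (n true (n false (n false (n false (n false e e) (n false e e)) (n false (n false e e) (n false e e))) (n false e e)) e) 16389 .z))) (.s 89 39 (.s 123 89 (.s 158 89 .z)))
  (.s (.s (n true (n false (n false (n false (n false e e) (n false e e)) (n false (n false e e) (n false e e))) (n false e e)) e) 16387 (.s (n false e e) 16384 (.s (n false (n true (n false e e) e) (n false e e)) 16395 (.s (n false (n false e e) e) 16391 .z)))) .z
  (.s (.s (n true (n false (n false (n false (n false e e) (n false e e)) (n false (n false e e) (n false e e))) (n false e e)) e) 16389 (.s (n false e e) 16390 (.s (n false (n true (n false e e) e) (n false e e)) 16395 .z))) .z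
  (.s (.s (n false (n true (n false e e) e) (n false e e)) 16394 (.s (n false e e) 16390 (.s (n false (n true (n false e e) e) (n false e e)) 16395 .z))) .z
  (.s (.s (n false (n true (n false e e) e) (n false e e)) 16391 (.s (n false (n true (n false e e) e) (n false e e)) 16395 (.s (n false (n false e e) e) 16391 .z))) .z
  (.s (.s (n true (n false (n false (n false (n false e e) (n false e e)) (n false (n false e e) (n false e e))) (n false e e)) e) 16389 (.s (n false e e) 16384 (.s (n true (n false (n true (n false e e) e) (n false e e)) e) 16401 .z))) (.s 39 16 (.s 73 0 (.s 48 16 (.s 89 39 (.s 89 75 (.s 123 89 (.s 158 89 .z)))))))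
  (.s (.s (n false e e) 16391 (.s (n false (n true (n false e e) e) (n false e e)) 16395 .z)) .z
  .z)))))))))))))))))))))))))))))))))))))))))))))))))))))))))))))))))))))))))))))))))))))))))))))))))))))))))))))))))))))))))))))))))))))))))))))))))))))))))))))))))))))))))))))

set_option maxRecDepth 100000 in
def A68 : AE :=
 (.s 4094 4099 (.s 39 13 .z)
 (.s 0x3ea88a220 4101 (n true (n true (n false (n false (n false (n false e e) (n false e e)) (n false (n false e e) (n false e e))) (n false e e)) e) e) (.s 0x288 4105 (n false (n false e e) (n false e e)) .z .z) (.s 0x1754451108 4102 (n false (n true (n false (n false (n false (n false e e) (n false e e)) (n false (n false e e) (n false e e))) (n false e e)) e) (n false e e)) .z .z))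
 (.s .z (.s 39 13 .z)
  .z))

set_option maxRecDepth 100000 in
def A69 : AE :=
 (.s 4096 4099 (.s 39 14 (.s 48 13 (.s 72 14 (.s 73 13 .z))))
 (.s 0x3ea88a220 4101 (n true (n true (n false (n false (n false (n false e e) (n false e e)) (n false (n false e e) (n false e e))) (n false e e)) e) e) (.s 0x288 4105 (n false (n false e e) (n false e e)) .z .z) (.s 0x1754451108 4102 (n false (n true (n false (n false (n false (n false e e) (n false e e)) (n false (n false e e) (n false e e))) (n false e e)) e) (n false e e)) .z .z))
 (.s (.s (n true (n false e e) e) 16388 (.s (n false (n true (n false (n false (n false (n false e e) (n false e e)) (n false (n false e e) (n false e e))) (n false e e)) e) (n true (n false (n true (n false e e) e) (n false e e)) e)) 16393 .z)) (.s 39 14 (.s 73 13 .z))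
  (.s (.s (n false (n true (n true (n true (n false (n false (n false (n false e e) (n false e e)) (n false (n false e e) (n false e e))) (n false e e)) e) e) e) (n false e e)) 16391 .z) (.s 73 13 (.s 39 14 (.s 48 13 .z)))
  (.s (.s (n false (n true (n false (n true (n false (n false (n false (n false e e) (n false e e)) (n false (n false e e) (n false e e))) (n false e e)) e) (n true (n false e e) e)) e) (n false e e)) 16393 .z) (.s 39 14 (.s 48 13 (.s 73 13 .z)))
  (.s (.s (n true (n true (n false (n false (n false (n false e e) (n false e e)) (n false (n false e e) (n false e e))) (n false e e)) e) e) 16385 (.s (n false (n true (n false (n false (n false (n false e e) (n false e e)) (n false (n false e e) (n false e e))) (n false e e)) e) (n true (n false (n true (n false e e) e) (n false e e)) e)) 16393 .z)) (.s 39 14 (.s 73 13 .z))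
  (.s (.s (n false (n false (n false (n true (n false (n false (n false (n false e e) (n false e e)) (n false (n false e e) (n false e e))) (n false e e)) e) (n true (n false e e) e)) (n false (n false (n false (n false e e) (n false e e)) (n false (n false e e) (n false e e))) (n false e e))) (n false e e)) 16390 .z) (.s 39 14 (.s 48 13 (.s 73 13 .z)))
  (.s (.s (n false (n true (n false (n false (n false (n false e e) (n false e e)) (n false (n false e e) (n false e e))) (n false e e)) e) (n true (n false (n true (n false e e) e) (n false e e)) e)) 16393 .z) (.s 39 14 (.s 48 13 (.s 73 13 .z)))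
  (.s (.s (n false (n true (n false (n true (n false e e) e) (n false e e)) e) (n false e e)) 16396 (.s (n true (n true (n false (n false (n false (n false e e) (n false e e)) (n false (n false e e) (n false e e))) (n false e e)) e) e) 16385 .z)) (.s 39 14 (.s 73 13 .z))
  (.s (.s (n false (n true (n false (n false (n false (n false e e) (n false e e)) (n false (n false e e) (n false e e))) (n false e e)) e) (n false e e)) 16389 .z) (.s 39 14 .z)
  (.s (.s (n true (n true (n false (n false (n false (n false e e) (n false e e)) (n false (n false e e) (n false e e))) (n false e e)) e) e) 16385 (.s (n false (n true (n true (n true (n false (n false (n false (n false e e) (n false e e)) (n false (n false e e) (n false e e))) (n false e e)) e) e) e) (n false e e)) 16391 .z)) (.s 39 14 (.s 73 13 .z))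
  (.s (.s (n false (n true (n false (n false (n false (n false e e) (n false e e)) (n false (n false e e) (n false e e))) (n false e e)) e) (n false e e)) 16386 (.s (n false (n true (n false (n false (n false (n false e e) (n false e e)) (n false (n false e e) (n false e e))) (n false e e)) e) (n true (n false (n false (n false (n false e e) (n false e e)) (n false (n false e e) (n false e e))) (n false e e)) e)) 16386 .z)) (.s 39 14 (.s 73 13 .z))
  (.s (.s (n false (n true (n false (n true (n false e e) e) (n false e e)) e) (n false e e)) 16396 .z) (.s 39 14 (.s 48 13 (.s 73 13 .z)))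
  (.s (.s (n false (n false e e) (n false e e)) 16392 .z) (.s 39 14 .z)
  (.s (.s (n false (n false e e) (n false e e)) 16389 (.s (n false (n true (n false (n true (n false e e) e) (n false e e)) e) (n false e e)) 16396 .z)) (.s 39 14 (.s 73 13 .z))
  (.s (.s (n false (n true (n false (n true (n false e e) e) (n false e e)) e) (n false e e)) 16396 (.s (n false (n true (n false (n false (n false (n false e e) (n false e e)) (n false (n false e e) (n false e e))) (n false e e)) e) (n false e e)) 16386 .z)) (.s 39 14 (.s 73 13 .z))
  .z)))))))))))))))

set_option maxRecDepth 100000 in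
def A70 : AE :=
 (.s 4094 4102 (.s 43 7 .z)
 (.s 0x775445110e0 4104 (n true (n false (n true (n false (n false (n false (n false e e) (n false e e)) (n false (n false e e) (n false e e))) (n false e e)) e) (n true (n false e e) e)) e) (.s 0xee10 4107 (n true (n false (n true (n false e e) e) (n false e e)) e) (.s 0x1708 4118 (n false (n true (n false e e) e) (n false e e)) (.s 0x8 4103 (n false e e) .z .z) .z) (.s 0x1fd5114440 4102 (n true (n true (n true (n false (n false (n false (n false e e) (n false e e)) (n false (n false e e) (n false e e))) (n false e e)) e) e) e) (.s 0x75445110 4100 (n true (n false (n false (n false (n false e e) (n false e e)) (n false (n false e e) (n false e e))) (n false e e)) e) .z .z) .z)) (.s 0x2baa2288870aa22888 4101 (n false (n false (n true (n false (n false (n false (n false e e) (n false e e)) (n false (n false e e) (n false e e))) (n false e e)) e) (n true (n false e e) e)) (n false (n false (n false (n false e e) (n false e e)) (n false (n false e e) (n false e e))) (n false e e))) (.s 0x2baa22888551144470 4101 (n false (n false (n true (n false (n false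 (n false (n false e e) (n false e e)) (n false (n false e e) (n false e e))) (n false e e)) e) (n false (n false (n false (n false e e) (n false e e)) (n false (n false e e) (n false e e))) (n false e e))) (n true (n false e e) e)) (.s 0xbea88a220aa22888 4099 (n false (n true (n true (n false (n false (n false (n false e e) (n false e e)) (n false (n false e e) (n false e e))) (n false e e)) e) e) (n false (n false (n false (n false e e) (n false e e)) (n false (n false e e) (n false e e))) (n false e e))) .z .z) .z) (.s 0x575445110aa22888aa22888 4096 (n false (n false (n true (n false (n false (n false (n false e e) (n false e e)) (n false (n false e e) (n false e e))) (n false e e)) e) (n false (n false (n false (n false e e) (n false e e)) (n false (n false e e) (n false e e))) (n false e e))) (n false (n false (n false (n false e e) (n false e e)) (n false (n false e e) (n false e e))) (n false e e))) .z .z)))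
 .z)

set_option maxRecDepth 100000 in
def A71 : AE :=
 (.s 4096 4102 (.s 44 7 (.s 69 0 (.s 105 1 (.s 48 44 (.s 87 44 (.s 126 44 .z))))))
 (.s 0x8 4103 (n false e e) .z .z)
 (.s (.s (n true (n false e e) e) 16392 .z) (.s 44 7 .z)
  (.s (.s (n true (n false (n true (n false e e) e) (n false e e)) e) 16394 .z) (.s 44 7 (.s 69 0 (.s 48 44 (.s 87 44 (.s 126 44 .z)))))
  (.s .z (.s 69 0 (.s 105 1 (.s 44 7 (.s 48 44 (.s 87 44 (.s 126 44 .z))))))
  (.s (.s (n true (n false (n true (n false e e) e) (n false e e)) e) 16394 (.s (n true (n false (n false (n false (n false e e) (n false e e)) (n false (n false e e) (n false e e))) (n false e e)) e) 16388 .z)) (.s 69 0 (.s 48 44 (.s 87 44 (.s 126 44 .z))))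
  (.s (.s (n false (n true (n false e e) e) (n false e e)) 16394 (.s (n false (n false e e) e) 16392 (.s (n true (n false (n false (n false (n false e e) (n false e e)) (n false (n false e e) (n false e e))) (n false e e)) e) 16388 (.s (n true (n false (n true (n false e e) e) (n false e e)) e) 16394 .z)))) .z
  (.s (.s (n true (n false (n true (n false e e) e) (n false e e)) e) 16394 .z) (.s 69 0 (.s 44 7 (.s 48 44 (.s 87 44 (.s 126 44 .z)))))
  (.s .z (.s 44 7 (.s 69 0 (.s 105 1 (.s 48 44 (.s 87 44 (.s 126 44 .z))))))
  (.s (.s (n false (n true (n false e e) e) (n false e e)) 16394 (.s (n false (n false e e) e) 16392 (.s (n true (n false (n true (n false e e) e) (n false e e)) e) 16394 .z))) (.s 44 7 .z)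
  (.s .z (.s 69 0 (.s 44 7 (.s 105 1 (.s 48 44 (.s 87 44 (.s 126 44 .z))))))
  (.s (.s (n false (n true (n false e e) e) (n false e e)) 16394 (.s (n false (n false e e) e) 16392 .z)) (.s 44 7 (.s 105 1 .z))
  (.s (.s (n false (n false e e) e) 16392 (.s (n false (n true (n false e e) e) (n false e e)) 16394 (.s (n false e e) 16390 .z))) (.s 44 7 .z)
  (.s (.s (n false (n true (n false e e) e) (n false e e)) 16394 (.s (n true (n false (n true (n false e e) e) (n false e e)) e) 16394 (.s (n false (n false e e) e) 16392 .z))) (.s 44 7 .z)
  (.s .z (.s 105 1 (.s 44 7 (.s 69 0 (.s 48 44 (.s 87 44 (.s 126 44 .z))))))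
  (.s (.s (n false (n true (n false e e) e) (n false e e)) 16394 (.s (n false e e) 16390 (.s (n false (n false e e) e) 16392 .z))) (.s 44 7 .z)
  (.s (.s (n false (n true (n false e e) e) (n false e e)) 16394 (.s (n false (n false e e) e) 16392 (.s (n true (n false (n true (n false e e) e) (n false e e)) e) 16394 (.s (n true (n false (n false (n false (n false e e) (n false e e)) (n false (n false e e) (n false e e))) (n false e e)) e) 16388 .z)))) .z
  (.s (.s (n false e e) 16390 (.s (n true (n false (n false (n false (n false e e) (n false e e)) (n false (n false e e) (n false e e))) (n false e e)) e) 16388 .z)) (.s 69 0 (.s 48 44 (.s 87 44 (.s 126 44 .z))))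
  (.s (.s (n false e e) 16390 .z) (.s 44 7 (.s 69 0 (.s 48 44 (.s 87 44 (.s 126 44 .z)))))
  (.s .z (.s 69 0 (.s 48 44 (.s 126 44 (.s 44 7 (.s 105 1 (.s 87 44 .z))))))
  (.s (.s (n false (n true (n false e e) e) (n false e e)) 16394 (.s (n false (n false e e) e) 16392 (.s (n true (n false e e) e) 16391 .z))) (.s 44 7 .z)
  (.s (.s (n true (n false (n true (n false e e) e) (n false e e)) e) 16394 (.s (n false (n true (n false e e) e) (n false e e)) 16394 (.s (n false (n false e e) e) 16392 .z))) (.s 44 7 .z)
  (.s (.s (n false (n true (n false e e) e) (n false e e)) 16394 (.s (n false e e) 16390 (.s (n false (n false e e) e) 16392 (.s (n true (n false (n false (n false (n false e e) (n false e e)) (n false (n false e e) (n false e e))) (n false e e)) e) 16388 .z)))) .z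
  (.s (.s (n true (n false e e) e) 16391 .z) (.s 44 7 (.s 69 0 (.s 48 44 (.s 87 44 (.s 126 44 .z)))))
  (.s (.s (n false (n true (n false e e) e) (n false e e)) 16394 (.s (n false (n false e e) e) 16392 (.s (n false e e) 16390 (.s (n true (n false (n false (n false (n false e e) (n false e e)) (n false (n false e e) (n false e e))) (n false e e)) e) 16388 .z)))) .z
  (.s (.s (n true (n false e e) e) 16392 (.s (n true (n false (n false (n false (n false e e) (n false e e)) (n false (n false e e) (n false e e))) (n false e e)) e) 16388 .z)) .z
  (.s (.s (n true (n false (n true (n false e e) e) (n false e e)) e) 16394 (.s (n false (n true (n false e e) e) (n false e e)) 16394 (.s (n false (n false e e) e) 16392 (.s (n true (n false (n false (n false (n false e e) (n false e e)) (n false (n false e e) (n false e e))) (n false e e)) e) 16388 .z)))) .z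
  (.s (.s (n false e e) 16390 .z) (.s 69 0 (.s 44 7 (.s 48 44 (.s 87 44 (.s 126 44 .z)))))
  (.s (.s (n false (n true (n false e e) e) (n false e e)) 16394 (.s (n false (n false e e) e) 16392 (.s (n false e e) 16390 .z))) (.s 44 7 .z)
  (.s (.s (n false (n true (n false e e) e) (n false e e)) 16394 (.s (n true (n false (n false (n false (n false e e) (n false e e)) (n false (n false e e) (n false e e))) (n false e e)) e) 16388 (.s (n true (n false (n true (n false e e) e) (n false e e)) e) 16394 .z))) (.s 69 0 .z)
  (.s (.s (n true (n false (n false (n false (n false e e) (n false e e)) (n false (n false e e) (n false e e))) (n false e e)) e) 16388 (.s (n false (n true (n false e e) e) (n false e e)) 16394 (.s (n false (n false e e) e) 16392 (.s (n true (n false (n true (n false e e) e) (n false e e)) e) 16394 .z)))) .z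
  (.s (.s (n false (n false e e) e) 16392 (.s (n true (n false (n true (n false e e) e) (n false e e)) e) 16394 (.s (n false (n true (n false e e) e) (n false e e)) 16394 .z))) (.s 44 7 .z)
  (.s (.s (n false (n true (n false e e) e) (n false e e)) 16394 (.s (n true (n false e e) e) 16391 .z)) (.s 44 7 (.s 69 0 .z))
  (.s .z (.s 48 44 (.s 126 44 (.s 44 7 (.s 69 0 (.s 105 1 (.s 87 44 .z))))))
  (.s (.s (n false (n true (n false e e) e) (n false e e)) 16394 (.s (n true (n false (n true (n false e e) e) (n false e e)) e) 16394 .z)) (.s 44 7 (.s 69 0 .z))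
  .z))))))))))))))))))))))))))))))))))

set_option maxRecDepth 100000 in
def A72 : AE :=
 (.s 4094 4099 (.s 45 7 .z)
 (.s 0x1708 4106 (n false (n true (n false e e) e) (n false e e)) (.s 0x70 4104 (n true (n false e e) e) (.s 0x8 4103 (n false e e) .z .z) .z) (.s 0x75445110 4100 (n true (n false (n false (n false (n false e e) (n false e e)) (n false (n false e e) (n false e e))) (n false e e)) e) .z .z))
 (.s .z (.s 45 7 .z)
  .z))

set_option maxRecDepth 100000 in
def A73 : AE :=
 (.s 4094 4102 (.s 69 1 .z)
 (.s 0x70 4104 (n true (n false e e) e) (.s 0x8 4103 (n false e e) .z .z) (.s 0x3e0 4105 (n true (n true (n false e e) e) e) .z .z))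
 (.s .z (.s 69 1 .z)
  .z))

set_option maxRecDepth 100000 in
def A74 : AE :=
 (.s 4094 4101 (.s 39 17 (.s 72 0 (.s 48 17 .z)))
 (.s 0x70 4103 (n true (n false e e) e) (.s 0x8 4102 (n false e e) .z .z) .z)
 (.s (.s (n false (n true (n false (n true (n false (n false (n false (n false e e) (n false e e)) (n false (n false e e) (n false e e))) (n false e e)) e) (n true (n false e e) e)) e) e) 16390 .z) (.s 48 17 (.s 39 17 .z))
  (.s (.s (n false (n true (n false (n true (n false e e) e) (n false e e)) e) e) 16393 .z) (.s 39 17 (.s 48 17 .z))
  (.s (.s (n false e e) 16386 (.s (n false (n true (n false (n true (n false e e) e) (n false e e)) e) e) 16393 .z)) (.s 39 17 .z)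
  (.s (.s (n false (n true (n false (n true (n false (n false (n false (n false e e) (n false e e)) (n false (n false e e) (n false e e))) (n false e e)) e) (n true (n false e e) e)) e) e) 16390 .z) (.s 39 17 (.s 48 17 .z))
  (.s (.s (n false (n true (n false e e) e) (n false e e)) 16391 (.s (n false (n false e e) e) 16389 .z)) .z
  (.s (.s (n false (n true (n false e e) e) (n false e e)) 16389 (.s (n false (n true (n false (n true (n false (n false (n false (n false e e) (n false e e)) (n false (n false e e) (n false e e))) (n false e e)) e) (n true (n false e e) e)) e) e) 16390 .z)) (.s 39 17 .z)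
  .z)))))))

end Pool.Agent.Helper91.ND1
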