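import Pool.Agent.Helper66.ND.Defs

/-! part of the certificate for the constant 25/48 (generated) -/

namespace Pool.Agent.Helper91.ND1

open Pool.Agent.Helper66.IL
open Pool.Agent.Helper66.IL.MB
open Pool.Agent.Helper66.ND

set_option maxRecDepth 100000 in
def A75 : AE :=
 (.s 4096 4101 (.s 44 14 (.s 45 13 (.s 75 0 .z)))
 (.s 0x70 4103 (n true (n false e e) e) (.s 0x8 4114 (n false e e) .z .z) .z)
 (.s .z (.s 75 0 (.s 44 14 (.s 45 13 .z)))
  (.s (.s (n false (n false e e) (n false e e)) 16388 .z) (.s 44 14 (.s 75 0 .z))
  (.s (.s (n true (n false e e) e) 16387 .z) (.s 44 14 (.s 75 0 .z))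
  (.s (.s (n false (n true (n false (n false (n false (n false e e) (n false e e)) (n false (n false e e) (n false e e))) (n false e e)) e) (n true (n false e e) e)) 16390 (.s (n false (n false e e) e) 16389 .z)) .z
  (.s (.s (n false (n true (n false e e) e) (n false e e)) 16393 (.s (n false (n false e e) e) 16389 .z)) .z
  (.s (.s (n true (n true (n false (n false (n false (n false e e) (n false e e)) (n false (n false e e) (n false e e))) (n false e e)) e) e) 16388 .z) (.s 75 0 .z)
  (.s (.s (n false (n false e e) e) 16389 (.s (n false (n false e e) (n false e e)) 16388 .z)) (.s 44 14 .z)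
  (.s (.s (n false (n true (n false (n false (n false (n false e e) (n false e e)) (n false (n false e e) (n false e e))) (n false e e)) e) (n true (n false e e) e)) 16386 .z) (.s 75 0 (.s 44 14 .z))
  (.s (.s (n true (n true (n false (n false (n false (n false e e) (n false e e)) (n false (n false e e) (n false e e))) (n false e e)) e) e) 16384 .z) (.s 44 14 (.s 75 0 .z))
  (.s (.s (n false e e) 16388 .z) (.s 44 14 (.s 45 13 .z))
  (.s (.s (n false (n false e e) e) 16389 (.s (n false (n true (n false e e) e) (n false e e)) 16389 .z)) (.s 44 14 .z)
  (.s (.s (n false e e) 16388 (.s (n true (n true (n false (n false (n false (n false e e) (n false e e)) (n false (n false e e) (n false e e))) (n false e e)) e) e) 16388 .z)) .z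
  (.s (.s (n true (n false e e) e) 16389 (.s (n true (n true (n false (n false (n false (n false e e) (n false e e)) (n false (n false e e) (n false e e))) (n false e e)) e) e) 16388 .z)) .z
  (.s (.s (n false (n true (n false (n false (n false (n false e e) (n false e e)) (n false (n false e e) (n false e e))) (n false e e)) e) (n false e e)) 16385 .z) (.s 44 14 (.s 75 0 .z))
  (.s (.s (n false (n true (n false (n false (n false (n false e e) (n false e e)) (n false (n false e e) (n false e e))) (n false e e)) e) (n true (n false e e) e)) 16390 .z) (.s 75 0 .z)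
  (.s (.s (n false (n true (n false (n false (n false (n false e e) (n false e e)) (n false (n false e e) (n false e e))) (n false e e)) e) (n true (n false e e) e)) 16390 (.s (n false e e) 16388 .z)) .z
  (.s (.s (n false (n true (n false (n false (n false (n false e e) (n false e e)) (n false (n false e e) (n false e e))) (n false e e)) e) (n true (n false e e) e)) 16386 .z) (.s 44 14 (.s 75 0 .z))
  (.s (.s (n false (n true (n false e e) e) (n false e e)) 16389 .z) (.s 44 14 (.s 75 0 .z))
  (.s (.s (n false e e) 16388 (.s (n false (n true (n false (n false (n false (n false e e) (n false e e)) (n false (n false e e) (n false e e))) (n false e e)) e) (n true (n false e e) e)) 16390 .z)) .z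
  (.s .z (.s 44 14 (.s 45 13 (.s 75 0 .z)))
  (.s (.s (n false (n true (n false e e) e) (n false e e)) 16389 (.s (n false (n true (n false (n false (n false (n false e e) (n false e e)) (n false (n false e e) (n false e e))) (n false e e)) e) (n true (n false e e) e)) 16390 .z)) (.s 75 0 .z)
  (.s (.s (n false e e) 16388 (.s (n false (n true (n false (n false (n false (n false e e) (n false e e)) (n false (n false e e) (n false e e))) (n false e e)) e) (n true (n false e e) e)) 16386 .z)) (.s 44 14 .z)
  (.s (.s (n false e e) 16398 (.s (n false (n true (n false e e) e) (n false e e)) 16393 .z)) .z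
  (.s (.s (n true (n true (n false (n false (n false (n false e e) (n false e e)) (n false (n false e e) (n false e e))) (n false e e)) e) e) 16388 (.s (n false e e) 16388 .z)) .z
  (.s (.s (n false e e) 16388 (.s (n false (n true (n false (n false (n false (n false e e) (n false e e)) (n false (n false e e) (n false e e))) (n false e e)) e) (n false e e)) 16385 .z)) (.s 44 14 .z)
  (.s (.s (n false (n true (n false e e) e) (n false e e)) 16393 (.s (n false e e) 16388 .z)) .z
  (.s (.s (n false e e) 16388 (.s (n false (n false e e) (n false e e)) 16388 .z)) (.s 44 14 .z)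
  (.s (.s (n false (n true (n false e e) e) (n false e e)) 16393 .z) (.s 75 0 .z)
  (.s (.s (n false e e) 16388 (.s (n false (n false e e) (n false e e)) 16388 (.s (n false (n true (n false e e) e) (n false e e)) 16393 .z))) .z
  .z))))))))))))))))))))))))))))))

set_option maxRecDepth 100000 in
def A76 : AE :=
 (.s 4094 4101 (.s 45 14 .z)
 (.s 0x288 4104 (n false (n false e e) (n false e e)) (.s 0x70 4103 (n true (n false e e) e) (.s 0x8 4114 (n false e e) .z .z) .z) (.s 0x1708 4105 (n false (n true (n false e e) e) (n false e e)) .z .z))
 (.s .z (.s 45 14 .z)
  .z))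

set_option maxRecDepth 100000 in
def A77 : AE :=
 (.s 4096 4095 (.s 47 7 (.s 71 0 (.s 128 7 (.s 150 0 .z))))
 (.s 0x1d10 4105 (n true (n false (n false e e) (n false e e)) e) (.s 0x8 4108 (n false e e) .z .z) .z)
 (.s .z (.s 47 7 (.s 71 0 (.s 128 7 (.s 150 0 .z))))
  (.s .z (.s 150 0 (.s 47 7 (.s 71 0 (.s 128 7 .z))))
  (.s (.s (n true (n false (n true (n false (n false (n false (n false e e) (n false e e)) (n false (n false e e) (n false e e))) (n false e e)) e) (n false e e)) e) 16390 .z) (.s 47 7 (.s 128 7 (.s 150 0 .z)))
  (.s (.s (n true (n false (n false (n false (n false e e) (n false e e)) (n false (n false e e) (n false e e))) (n false e e)) e) 16387 (.s (n true (n false (n true (n false (n false (n false (n false e e) (n false e e)) (n false (n false e e) (n false e e))) (n false e e)) e) (n false e e)) e) 16390 .z)) (.s 47 7 (.s 150 0 .z))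
  (.s (.s (n false e e) 16390 .z) (.s 47 7 .z)
  (.s (.s (n false e e) 16387 (.s (n true (n false (n false (n false (n false e e) (n false e e)) (n false (n false e e) (n false e e))) (n false e e)) e) 16387 (.s (n false (n false (n false (n false (n false e e) (n false e e)) (n false (n false e e) (n false e e))) (n false e e)) (n false (n false e e) (n false e e))) 16390 .z))) .z
  .z)))))))

set_option maxRecDepth 100000 in
def A78 : AE :=
 (.s 4096 4101 (.s 69 2 (.s 74 2 (.s 45 20 (.s 76 2 (.s 74 14 (.s 76 14 (.s 106 2 (.s 110 2 (.s 101 14 (.s 102 14 (.s 87 45 (.s 151 2 (.s 102 45 (.s 151 13 (.s 126 45 (.s 123 92 (.s 158 92 .z)))))))))))))))))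
 (.s 0x288 4104 (n false (n false e e) (n false e e)) (.s 0x70 4103 (n true (n false e e) e) .z .z) (.s 0x1708 4105 (n false (n true (n false e e) e) (n false e e)) .z .z))
 (.s .z (.s 69 2 (.s 74 2 (.s 45 20 (.s 76 2 (.s 74 14 (.s 76 14 (.s 106 2 (.s 110 2 (.s 101 14 (.s 102 14 (.s 87 45 (.s 151 2 (.s 102 45 (.s 151 13 (.s 126 45 (.s 123 92 (.s 158 92 .z)))))))))))))))))
  (.s (.s (n false (n false e e) (n false e e)) 16389 .z) (.s 69 2 (.s 74 14 (.s 76 14 (.s 106 2 (.s 101 14 (.s 102 14 (.s 87 45 (.s 151 2 (.s 102 45 (.s 151 13 (.s 126 45 (.s 123 92 (.s 158 92 .z)))))))))))))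
  .z)))

set_option maxRecDepth 100000 in
def A79 : AE :=
 (.s 4094 4101 (.s 73 1 (.s 43 20 (.s 44 20 .z)))
 (.s 0x70 4103 (n true (n false e e) e) (.s 0x8 4102 (n false e e) .z .z) .z)
 (.s (.s (n false (n true (n false e e) e) (n false e e)) 16391 .z) (.s 73 1 .z)
  (.s (.s (n true (n false (n true (n false e e) e) (n false e e)) e) 16390 .z) (.s 73 1 (.s 44 20 .z))
  (.s (.s (n false (n true (n true (n false (n false (n false (n false e e) (n false e e)) (n false (n false e e) (n false e e))) (n false e e)) e) e) (n false e e)) 16386 .z) (.s 73 1 (.s 44 20 .z))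
  (.s (.s (n true (n false e e) e) 16387 .z) (.s 73 1 (.s 44 20 .z))
  (.s (.s (n true (n false (n true (n false (n false (n false (n false e e) (n false e e)) (n false (n false e e) (n false e e))) (n false e e)) e) (n true (n false e e) e)) e) 16387 .z) (.s 73 1 (.s 44 20 .z))
  (.s (.s (n false e e) 16386 .z) (.s 73 1 (.s 44 20 .z))
  (.s .z (.s 73 1 (.s 43 20 (.s 44 20 .z)))
  (.s (.s (n false (n true (n false e e) e) (n false e e)) 16389 .z) (.s 73 1 (.s 44 20 .z))
  (.s (.s (n true (n true (n true (n false (n false (n false (n false e e) (n false e e)) (n false (n false e e) (n false e e))) (n false e e)) e) e) e) 16385 .z) (.s 73 1 (.s 44 20 .z))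
  (.s (.s (n false e e) 16386 (.s (n false (n true (n false e e) e) (n false e e)) 16391 .z)) (.s 73 1 .z)
  .z)))))))))))

set_option maxRecDepth 100000 in
def A80 : AE :=
 (.s 4094 4101 (.s 74 0 .z)
 (.s 0xae10 4106 (n false (n false (n true (n false e e) e) (n false e e)) e) (.s 0x50 4103 (n false (n false e e) e) (.s 0x8 4099 (n false e e) .z .z) (.s 0x70 4103 (n true (n false e e) e) .z .z)) (.s 0x2ea88a220 4100 (n false (n true (n false (n false (n false (n false e e) (n false e e)) (n false (n false e e) (n false e e))) (n false e e)) e) e) (.s 0xee10 4106 (n true (n false (n true (n false e e) e) (n false e e)) e) .z .z) .z))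
 (.s .z (.s 74 0 .z)
  .z))

set_option maxRecDepth 100000 in
def A81 : AE :=
 (.s 4096 4097 (.s 48 14 .z)
 (.s 0x3ea88a220 4099 (n true (n true (n false (n false (n false (n false e e) (n false e e)) (n false (n false e e) (n false e e))) (n false e e)) e) e) (.s 0x288 4103 (n false (n false e e) (n false e e)) .z .z) (.s 0x1754451108 4100 (n false (n true (n false (n false (n false (n false e e) (n false e e)) (n false (n false e e) (n false e e))) (n false e e)) e) (n false e e)) .z .z))
 (.s .z (.s 48 14 .z)
  .z))

set_option maxRecDepth 100000 in
def A82 : AE :=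
 (.s 4094 4100 (.s 72 2 (.s 160 96 .z))
 (.s 0x288 4103 (n false (n false e e) (n false e e)) (.s 0x70 4102 (n true (n false e e) e) .z .z) .z)
 (.s (.s (n false (n true (n true (n true (n false (n false (n false (n false e e) (n false e e)) (n false (n false e e) (n false e e))) (n false e e)) e) e) e) (n false e e)) 16388 (.s (n false (n false (n true (n false (n false e e) (n false e e)) e) e) (n false e e)) 16392 .z)) .z
  (.s (.s (n false (n true (n true (n true (n false (n false (n false (n false e e) (n false e e)) (n false (n false e e) (n false e e))) (n false e e)) e) e) e) (n false e e)) 16388 (.s (n false (n false (n true (n false (n false e e) (n false e e)) e) e) (n false (n false (n false e e) (n false e e)) e)) 16395 .z)) .z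
  (.s (.s (n false (n false (n true (n false (n false e e) (n false e e)) e) e) (n false e e)) 16392 (.s (n false (n true (n false (n true (n false (n false (n false (n false e e) (n false e e)) (n false (n false e e) (n false e e))) (n false e e)) e) (n true (n false e e) e)) e) (n false e e)) 16390 .z)) .z
  (.s (.s (n false (n true (n false (n false e e) (n false e e)) e) (n false e e)) 16391 (.s (n false (n true (n false (n true (n false e e) e) (n false e e)) e) (n false e e)) 16393 .z)) .z
  (.s (.s (n true (n false (n false (n false e e) (n false e e)) e) e) 16390 (.s (n false (n true (n false (n true (n false e e) e) (n false e e)) e) (n false e e)) 16393 .z)) .z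
  (.s (.s (n false (n false (n true (n false (n false e e) (n false e e)) e) e) (n false e e)) 16392 (.s (n false (n true (n false (n true (n false e e) e) (n false e e)) e) (n false e e)) 16393 .z)) .z
  .z)))))))

set_option maxRecDepth 100000 in
def A83 : AE :=
 (.s 4096 4100 (.s 73 2 (.s 75 2 (.s 72 13 .z)))
 (.s 0x288 4103 (n false (n false e e) (n false e e)) (.s 0x70 4102 (n true (n false e e) e) .z .z) .z)
 (.s (.s (n false (n true (n true (n true (n false (n false (n false (n false e e) (n false e e)) (n false (n false e e) (n false e e))) (n false e e)) e) e) e) (n false e e)) 16389 .z) (.s 73 2 (.s 75 2 .z))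
  (.s (.s (n false (n true (n false (n true (n false (n false (n false (n false e e) (n false e e)) (n false (n false e e) (n false e e))) (n false e e)) e) (n true (n false e e) e)) e) (n false e e)) 16391 .z) (.s 73 2 (.s 75 2 .z))
  (.s (.s (n false (n true (n false (n false (n false (n false e e) (n false e e)) (n false (n false e e) (n false e e))) (n false e e)) e) (n true (n false (n true (n false e e) e) (n false e e)) e)) 16391 .z) (.s 73 2 (.s 75 2 .z))
  (.s (.s (n false (n true (n false (n true (n false e e) e) (n false e e)) e) (n false e e)) 16394 .z) (.s 73 2 (.s 75 2 .z))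
  (.s (.s (n false (n true (n false e e) e) (n false e e)) 16390 (.s (n false (n true (n false (n true (n false (n false (n false (n false e e) (n false e e)) (n false (n false e e) (n false e e))) (n false e e)) e) (n true (n false e e) e)) e) (n false e e)) 16391 .z)) (.s 73 2 .z)
  (.s (.s (n false (n false e e) (n false e e)) 16390 .z) (.s 73 2 .z)
  (.s (.s (n false (n true (n false e e) e) (n false e e)) 16390 (.s (n true (n false e e) e) 16389 .z)) (.s 73 2 .z)
  (.s (.s (n false (n true (n false e e) e) (n false e e)) 16390 (.s (n false (n true (n false (n false (n false (n false e e) (n false e e)) (n false (n false e e) (n false e e))) (n false e e)) e) (n false e e)) 16387 .z)) (.s 73 2 .z)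
  (.s (.s (n true (n false e e) e) 16388 (.s (n false (n true (n false (n true (n false e e) e) (n false e e)) e) (n false e e)) 16394 .z)) (.s 73 2 .z)
  .z))))))))))

set_option maxRecDepth 100000 in
def A84 : AE :=
 (.s 4092 4100 (.s 81 1 .z)
 (.s 0x70 4102 (n true (n false e e) e) (.s 0x8 4101 (n false e e) .z .z) .z)
 (.s .z (.s 81 1 .z)
  .z))

set_option maxRecDepth 100000 in
def A85 : AE :=
 (.s 4096 4099 (.s 54 7 (.s 57 7 (.s 64 7 (.s 91 0 (.s 53 39 (.s 57 37 (.s 87 54 .z)))))))
 (.s 0x8 4100 (n false e e) .z .z)
 (.s (.s (n false e e) 16386 (.s (n true (n false (n false (n false (n false e e) (n false e e)) (n false (n false e e) (n false e e))) (n false e e)) e) 16385 (.s (n true (n false (n false (n true (n false (n false (n false (n false e e) (n false e e)) (n false (n false e e) (n false e e))) (n false e e)) e) (n false e e)) (n false e e)) e) 16390 .z))) (.s 87 54 .z)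
  (.s (.s (n true (n false e e) e) 16389 .z) (.s 91 0 (.s 54 7 (.s 57 7 (.s 64 7 (.s 57 37 .z)))))
  (.s (.s (n true (n false (n false (n false e e) (n false e e)) (n false e e)) e) 16393 .z) (.s 91 0 (.s 54 7 (.s 57 7 (.s 64 7 (.s 57 37 (.s 87 54 .z))))))
  (.s (.s (n true (n false e e) e) 16389 (.s (n false e e) 16384 .z)) (.s 54 7 (.s 57 7 (.s 64 7 (.s 91 0 .z))))
  (.s (.s (n true (n false (n false (n false e e) (n false e e)) (n false e e)) e) 16393 .z) (.s 54 7 (.s 57 7 (.s 64 7 (.s 91 0 (.s 57 37 (.s 87 54 .z))))))
  (.s (.s (n false e e) 16387 (.s (n true (n false (n false (n false e e) (n false e e)) (n false e e)) e) 16393 .z)) (.s 54 7 (.s 87 54 .z))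
  (.s (.s (n false e e) 16386 (.s (n true (n false e e) e) 16389 (.s (n true (n false (n false (n false (n false e e) (n false e e)) (n false (n false e e) (n false e e))) (n false e e)) e) 16385 .z))) .z
  (.s .z (.s 91 0 (.s 54 7 (.s 57 7 (.s 64 7 (.s 53 39 (.s 57 37 (.s 87 54 .z)))))))
  (.s (.s (n true (n false (n false (n false (n false e e) (n false e e)) (n false (n false e e) (n false e e))) (n false e e)) e) 16384 (.s (n true (n true (n false e e) e) e) 16386 .z)) (.s 91 0 (.s 54 7 (.s 53 39 (.s 87 54 .z))))
  (.s (.s (n true (n false (n false (n false (n false e e) (n false e e)) (n false (n false e e) (n false e e))) (n false e e)) e) 16384 (.s (n false e e) 16384 .z)) (.s 54 7 (.s 91 0 (.s 53 39 (.s 87 54 .z))))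
  (.s .z (.s 54 7 (.s 57 7 (.s 64 7 (.s 91 0 (.s 53 39 (.s 57 37 (.s 87 54 .z)))))))
  (.s (.s (n false e e) 16384 .z) (.s 91 0 (.s 54 7 (.s 57 7 (.s 64 7 (.s 53 39 (.s 87 54 .z))))))
  (.s (.s (n true (n false (n false (n false e e) (n false e e)) (n false e e)) e) 16393 (.s (n true (n false (n false (n false (n false e e) (n false e e)) (n false (n false e e) (n false e e))) (n false e e)) e) 16383 .z)) (.s 54 7 (.s 57 7 (.s 91 0 (.s 57 37 (.s 87 54 .z)))))
  (.s (.s (n true (n false (n false (n false (n false e e) (n false e e)) (n false (n false e e) (n false e e))) (n false e e)) e) 16385 (.s (n false e e) 16384 (.s (n true (n false (n false (n false e e) (n false e e)) (n false e e)) e) 16393 .z))) (.s 91 0 (.s 87 54 .z))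
  (.s (.s (n false (n true (n false e e) e) (n false e e)) 16397 (.s (n false (n false e e) e) 16399 .z)) (.s 54 7 (.s 57 7 (.s 64 7 (.s 57 37 .z))))
  (.s (.s (n false (n false (n false (n true (n false (n false (n false (n false e e) (n false e e)) (n false (n false e e) (n false e e))) (n false e e)) e) (n false e e)) (n false e e)) (n false e e)) 16391 .z) (.s 54 7 (.s 57 7 (.s 64 7 (.s 91 0 (.s 57 37 (.s 87 54 .z))))))
  (.s (.s (n false e e) 16384 (.s (n true (n false (n false (n false (n false e e) (n false e e)) (n false (n false e e) (n false e e))) (n false e e)) e) 16385 (.s (n true (n false (n false (n true (n false (n false (n false (n false e e) (n false e e)) (n false (n false e e) (n false e e))) (n false e e)) e) (n false e e)) (n false e e)) e) 16390 .z))) (.s 91 0 (.s 87 54 .z))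
  (.s (.s (n true (n false (n false (n false (n false e e) (n false e e)) (n false (n false e e) (n false e e))) (n false e e)) e) 16385 (.s (n true (n false (n false (n false e e) (n false e e)) (n false e e)) e) 16393 .z)) (.s 91 0 (.s 57 37 (.s 87 54 .z)))
  (.s (.s (n true (n false (n false (n false (n false e e) (n false e e)) (n false (n false e e) (n false e e))) (n false e e)) e) 16385 (.s (n false e e) 16384 (.s (n true (n false (n false (n true (n false (n false (n false (n false e e) (n false e e)) (n false (n false e e) (n false e e))) (n false e e)) e) (n false e e)) (n false e e)) e) 16390 .z))) (.s 91 0 (.s 87 54 .z))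
  (.s (.s (n false (n true (n false e e) e) (n false e e)) 16397 (.s (n false e e) 16384 (.s (n true (n false (n false (n false (n false e e) (n false e e)) (n false (n false e e) (n false e e))) (n false e e)) e) 16383 .z))) (.s 54 7 (.s 57 7 (.s 91 0 .z)))
  (.s (.s (n true (n false (n false (n false (n false e e) (n false e e)) (n false (n false e e) (n false e e))) (n false e e)) e) 16383 (.s (n true (n false (n false (n true (n false (n false (n false (n false e e) (n false e e)) (n false (n false e e) (n false e e))) (n false e e)) e) (n false e e)) (n false e e)) e) 16390 .z)) (.s 54 7 (.s 57 7 (.s 91 0 (.s 57 37 (.s 87 54 .z)))))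
  (.s (.s (n true (n false (n false (n false (n false e e) (n false e e)) (n false (n false e e) (n false e e))) (n false e e)) e) 16385 (.s (n false (n true (n false e e) e) (n false e e)) 16397 .z)) (.s 91 0 (.s 57 37 .z))
  (.s (.s (n false e e) 16386 (.s (n true (n false (n false (n false (n false e e) (n false e e)) (n false (n false e e) (n false e e))) (n false e e)) e) 16385 (.s (n true (n false e e) e) 16389 .z))) .z
  (.s (.s (n true (n false (n false (n false (n false e e) (n false e e)) (n false (n false e e) (n false e e))) (n false e e)) e) 16385 (.s (n true (n false e e) e) 16389 (.s (n false e e) 16384 .z))) (.s 91 0 .z)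
  (.s (.s (n true (n false e e) e) 16389 .z) (.s 54 7 (.s 57 7 (.s 64 7 (.s 91 0 (.s 57 37 .z)))))
  (.s (.s (n false e e) 16384 (.s (n true (n false (n false (n false e e) (n false e e)) (n false e e)) e) 16393 .z)) (.s 54 7 (.s 57 7 (.s 64 7 (.s 91 0 (.s 87 54 .z)))))
  (.s (.s (n true (n false (n false (n false (n false e e) (n false e e)) (n false (n false e e) (n false e e))) (n false e e)) e) 16385 (.s (n false e e) 16386 (.s (n true (n false (n false (n false e e) (n false e e)) (n false e e)) e) 16393 .z))) (.s 87 54 .z)
  (.s (.s (n true (n false (n false (n false (n false e e) (n false e e)) (n false (n false e e) (n false e e))) (n false e e)) e) 16385 (.s (n true (n false (n true (n false e e) e) (n false e e)) e) 16404 .z)) (.s 91 0 (.s 57 37 (.s 87 54 .z)))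
  (.s (.s (n true (n false (n false (n false (n false e e) (n false e e)) (n false (n false e e) (n false e e))) (n false e e)) e) 16384 .z) (.s 91 0 (.s 54 7 (.s 53 39 (.s 57 37 (.s 87 54 .z)))))
  (.s (.s (n true (n false (n false (n false (n false e e) (n false e e)) (n false (n false e e) (n false e e))) (n false e e)) e) 16383 .z) (.s 54 7 (.s 57 7 (.s 91 0 (.s 53 39 (.s 57 37 (.s 87 54 .z))))))
  (.s (.s (n true (n false e e) e) 16389 (.s (n true (n false (n false (n false (n false e e) (n false e e)) (n false (n false e e) (n false e e))) (n false e e)) e) 16384 .z)) (.s 54 7 (.s 91 0 (.s 57 37 .z)))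
  (.s (.s (n false e e) 16386 (.s (n false (n true (n false e e) e) (n false e e)) 16397 .z)) (.s 54 7 (.s 57 7 .z))
  (.s (.s (n true (n false (n false (n false (n false e e) (n false e e)) (n false (n false e e) (n false e e))) (n false e e)) e) 16384 (.s (n true (n false (n false (n false e e) (n false e e)) (n false e e)) e) 16393 .z)) (.s 54 7 (.s 91 0 (.s 57 37 (.s 87 54 .z))))
  (.s (.s (n true (n false (n false (n false (n false e e) (n false e e)) (n false (n false e e) (n false e e))) (n false e e)) e) 16384 (.s (n false e e) 16384 (.s (n true (n false (n false (n false e e) (n false e e)) (n false e e)) e) 16393 .z))) (.s 54 7 (.s 91 0 (.s 87 54 .z)))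
  (.s (.s (n false e e) 16386 (.s (n true (n false (n false (n false e e) (n false e e)) (n false e e)) e) 16393 .z)) (.s 54 7 (.s 57 7 (.s 87 54 .z)))
  (.s (.s (n false e e) 16387 (.s (n false (n true (n false e e) e) (n false e e)) 16397 .z)) (.s 54 7 .z)
  (.s (.s (n false e e) 16387 (.s (n true (n false e e) e) 16389 (.s (n true (n false (n false (n false (n false e e) (n false e e)) (n false (n false e e) (n false e e))) (n false e e)) e) 16385 .z))) .z
  (.s (.s (n false e e) 16387 (.s (n false (n true (n false e e) e) (n false e e)) 16397 (.s (n true (n false (n false (n false (n false e e) (n false e e)) (n false (n false e e) (n false e e))) (n false e e)) e) 16385 .z))) .z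
  (.s (.s (n true (n false (n false (n false (n false e e) (n false e e)) (n false (n false e e) (n false e e))) (n false e e)) e) 16384 (.s (n true (n false (n false (n true (n false (n false (n false (n false e e) (n false e e)) (n false (n false e e) (n false e e))) (n false e e)) e) (n false e e)) (n false e e)) e) 16390 .z)) (.s 54 7 (.s 91 0 (.s 57 37 (.s 87 54 .z))))
  (.s (.s (n true (n false (n false (n false (n false e e) (n false e e)) (n false (n false e e) (n false e e))) (n false e e)) e) 16384 .z) (.s 54 7 (.s 91 0 (.s 53 39 (.s 57 37 (.s 87 54 .z)))))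
  (.s (.s (n true (n false (n false (n false (n false e e) (n false e e)) (n false (n false e e) (n false e e))) (n false e e)) e) 16385 (.s (n true (n false (n false e e) (n false e e)) e) 16399 (.s (n true (n false (n true (n false e e) e) (n false e e)) e) 16404 .z))) (.s 91 0 (.s 87 54 .z))
  (.s (.s (n true (n false (n false (n false (n false e e) (n false e e)) (n false (n false e e) (n false e e))) (n false e e)) e) 16385 (.s (n true (n false (n false (n true (n false (n false (n false (n false e e) (n false e e)) (n false (n false e e) (n false e e))) (n false e e)) e) (n false e e)) (n false e e)) e) 16390 .z)) (.s 91 0 (.s 57 37 (.s 87 54 .z)))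
  (.s (.s (n true (n false (n false (n false e e) (n false e e)) (n false e e)) e) 16393 (.s (n true (n false (n false (n false (n false e e) (n false e e)) (n false (n false e e) (n false e e))) (n false e e)) e) 16385 .z)) (.s 91 0 (.s 57 37 (.s 87 54 .z)))
  (.s (.s (n false e e) 16386 (.s (n false (n true (n false e e) e) (n false e e)) 16397 (.s (n true (n false (n false (n false (n false e e) (n false e e)) (n false (n false e e) (n false e e))) (n false e e)) e) 16385 .z))) .z
  (.s (.s (n true (n false (n false (n false e e) (n false e e)) (n false e e)) e) 16393 (.s (n false e e) 16384 .z)) (.s 54 7 (.s 57 7 (.s 64 7 (.s 91 0 (.s 87 54 .z)))))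
  (.s (.s (n true (n false (n false (n false (n false e e) (n false e e)) (n false (n false e e) (n false e e))) (n false e e)) e) 16384 (.s (n true (n false (n false e e) (n false e e)) e) 16399 (.s (n true (n false (n false (n false e e) (n false e e)) (n false e e)) e) 16393 .z))) (.s 54 7 (.s 91 0 (.s 87 54 .z)))
  (.s (.s (n false e e) 16387 (.s (n true (n false e e) e) 16389 .z)) (.s 54 7 .z)
  (.s (.s (n false e e) 16387 (.s (n true (n false (n false (n false (n false e e) (n false e e)) (n false (n false e e) (n false e e))) (n false e e)) e) 16385 (.s (n true (n false e e) e) 16389 .z))) .z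
  (.s (.s (n true (n false (n true (n false e e) e) (n false e e)) e) 16404 (.s (n true (n false (n false (n false (n false e e) (n false e e)) (n false (n false e e) (n false e e))) (n false e e)) e) 16385 .z)) (.s 91 0 (.s 57 37 (.s 87 54 .z)))
  (.s (.s (n true (n false e e) e) 16389 (.s (n true (n false (n false (n false (n false e e) (n false e e)) (n false (n false e e) (n false e e))) (n false e e)) e) 16383 .z)) (.s 54 7 (.s 57 7 (.s 91 0 (.s 57 37 .z))))
  (.s (.s (n true (n false (n false (n false e e) (n false e e)) (n false e e)) e) 16393 (.s (n true (n false (n false (n false (n false e e) (n false e e)) (n false (n false e e) (n false e e))) (n false e e)) e) 16384 .z)) (.s 54 7 (.s 91 0 (.s 57 37 (.s 87 54 .z))))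
  (.s (.s (n true (n false (n false e e) (n false e e)) e) 16399 (.s (n true (n false (n false (n true (n false (n false (n false (n false e e) (n false e e)) (n false (n false e e) (n false e e))) (n false e e)) e) (n false e e)) (n false e e)) e) 16390 (.s (n true (n false (n false (n false (n false e e) (n false e e)) (n false (n false e e) (n false e e))) (n false e e)) e) 16384 .z))) (.s 54 7 (.s 91 0 (.s 87 54 .z)))
  (.s (.s (n true (n false (n false (n true (n false (n false (n false (n false e e) (n false e e)) (n false (n false e e) (n false e e))) (n false e e)) e) (n false e e)) (n false e e)) e) 16390 (.s (n true (n false (n false (n false (n false e e) (n false e e)) (n false (n false e e) (n false e e))) (n false e e)) e) 16383 .z)) (.s 54 7 (.s 57 7 (.s 91 0 (.s 57 37 (.s 87 54 .z)))))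
  (.s (.s (n true (n false (n false (n true (n false (n false (n false (n false e e) (n false e e)) (n false (n false e e) (n false e e))) (n false e e)) e) (n false e e)) (n false e e)) e) 16390 .z) (.s 54 7 (.s 57 7 (.s 64 7 (.s 91 0 (.s 57 37 (.s 87 54 .z))))))
  (.s (.s (n true (n false (n false (n false (n false e e) (n false e e)) (n false (n false e e) (n false e e))) (n false e e)) e) 16385 (.s (n false (n true (n false e e) e) (n false e e)) 16397 (.s (n false e e) 16384 .z))) (.s 91 0 .z)
  (.s (.s (n true (n false (n false (n false (n false e e) (n false e e)) (n false (n false e e) (n false e e))) (n false e e)) e) 16384 (.s (n true (n false (n false e e) (n false e e)) e) 16399 (.s (n true (n false (n false (n true (n false (n false (n false (n false e e) (n false e e)) (n false (n false e e) (n false e e))) (n false e e)) e) (n false e e)) (n false e e)) e) 16390 .z))) (.s 54 7 (.s 91 0 (.s 87 54 .z)))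
  (.s (.s (n true (n false (n false (n false (n false e e) (n false e e)) (n false (n false e e) (n false e e))) (n false e e)) e) 16385 (.s (n true (n false e e) e) 16389 .z)) (.s 91 0 (.s 57 37 .z))
  (.s (.s (n false (n true (n false e e) e) (n false e e)) 16397 .z) (.s 54 7 (.s 57 7 (.s 64 7 (.s 91 0 (.s 57 37 .z)))))
  (.s (.s (n true (n false (n false (n false (n false e e) (n false e e)) (n false (n false e e) (n false e e))) (n false e e)) e) 16385 (.s (n false e e) 16386 (.s (n true (n false (n false (n true (n false (n false (n false (n false e e) (n false e e)) (n false (n false e e) (n false e e))) (n false e e)) e) (n false e e)) (n false e e)) e) 16390 .z))) (.s 87 54 .z)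
  (.s (.s (n false e e) 16387 .z) (.s 54 7 (.s 53 39 (.s 87 54 .z)))
  (.s (.s (n false e e) 16387 (.s (n true (n false (n false (n false (n false e e) (n false e e)) (n false (n false e e) (n false e e))) (n false e e)) e) 16385 (.s (n true (n false (n false (n true (n false (n false (n false (n false e e) (n false e e)) (n false (n false e e) (n false e e))) (n false e e)) e) (n false e e)) (n false e e)) e) 16390 .z))) (.s 87 54 .z)
  (.s (.s (n true (n false e e) e) 16399 (.s (n true (n false (n false (n false (n false e e) (n false e e)) (n false (n false e e) (n false e e))) (n false e e)) e) 16385 (.s (n false e e) 16384 .z))) .z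
  (.s (.s (n false e e) 16386 (.s (n true (n false (n false (n false (n false e e) (n false e e)) (n false (n false e e) (n false e e))) (n false e e)) e) 16385 (.s (n true (n false (n true (n false e e) e) (n false e e)) e) 16404 .z))) (.s 87 54 .z)
  (.s (.s (n false e e) 16386 (.s (n true (n false (n false (n false (n false e e) (n false e e)) (n false (n false e e) (n false e e))) (n false e e)) e) 16385 (.s (n true (n false (n false (n false e e) (n false e e)) (n false e e)) e) 16393 .z))) (.s 87 54 .z)
  (.s (.s (n true (n true (n false e e) e) e) 16388 (.s (n true (n false (n false (n false (n false e e) (n false e e)) (n false (n false e e) (n false e e))) (n false e e)) e) 16385 (.s (n true (n false (n false (n false e e) (n false e e)) (n false e e)) e) 16393 .z))) (.s 87 54 .z)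
  (.s (.s (n false e e) 16387 (.s (n true (n false (n false (n false e e) (n false e e)) (n false e e)) e) 16393 (.s (n true (n false (n false (n false (n false e e) (n false e e)) (n false (n false e e) (n false e e))) (n false e e)) e) 16385 .z))) (.s 87 54 .z)
  (.s (.s (n false e e) 16386 (.s (n false (n false (n false (n true (n false (n false (n false (n false e e) (n false e e)) (n false (n false e e) (n false e e))) (n false e e)) e) (n false e e)) (n false e e)) (n false e e)) 16391 .z)) (.s 54 7 (.s 57 7 (.s 87 54 .z)))
  (.s (.s (n true (n true (n false e e) e) e) 16389 (.s (n true (n false (n false (n false e e) (n false e e)) (n false e e)) e) 16393 (.s (n true (n false (n false (n false (n false e e) (n false e e)) (n false (n false e e) (n false e e))) (n false e e)) e) 16385 .z))) (.s 87 54 .z)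
  (.s (.s (n true (n true (n false e e) e) e) 16386 .z) (.s 54 7 (.s 57 7 (.s 64 7 (.s 91 0 (.s 53 39 (.s 87 54 .z))))))
  (.s (.s (n false (n true (n false e e) e) (n false e e)) 16397 (.s (n true (n false (n false (n false (n false e e) (n false e e)) (n false (n false e e) (n false e e))) (n false e e)) e) 16383 .z)) (.s 54 7 (.s 57 7 (.s 91 0 (.s 57 37 .z))))
  (.s (.s (n true (n false (n false (n false e e) (n false e e)) (n false e e)) e) 16393 (.s (n false e e) 16386 .z)) (.s 54 7 (.s 57 7 (.s 87 54 .z)))
  (.s (.s (n false e e) 16384 (.s (n true (n false (n false (n true (n false (n false (n false (n false e e) (n false e e)) (n false (n false e e) (n false e e))) (n false e e)) e) (n false e e)) (n false e e)) e) 16390 (.s (n true (n false (n false (n false (n false e e) (n false e e)) (n false (n false e e) (n false e e))) (n false e e)) e) 16385 .z))) (.s 91 0 (.s 87 54 .z))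
  (.s (.s (n false (n true (n false e e) e) (n false e e)) 16397 (.s (n false e e) 16384 (.s (n true (n false (n false (n false (n false e e) (n false e e)) (n false (n false e e) (n false e e))) (n false e e)) e) 16385 .z))) (.s 91 0 .z)
  (.s (.s (n false e e) 16387 (.s (n true (n false (n false (n true (n false (n false (n false (n false e e) (n false e e)) (n false (n false e e) (n false e e))) (n false e e)) e) (n false e e)) (n false e e)) e) 16390 (.s (n true (n false (n false (n false (n false e e) (n false e e)) (n false (n false e e) (n false e e))) (n false e e)) e) 16385 .z))) (.s 87 54 .z)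
  (.s (.s (n true (n false (n false e e) (n false e e)) e) 16399 (.s (n true (n false (n false (n false (n false e e) (n false e e)) (n false (n false e e) (n false e e))) (n false e e)) e) 16383 .z)) (.s 54 7 (.s 57 7 (.s 91 0 (.s 53 39 (.s 87 54 .z)))))
  (.s (.s (n true (n false (n false (n false (n false e e) (n false e e)) (n false (n false e e) (n false e e))) (n false e e)) e) 16385 (.s (n false (n true (n false e e) e) (n false e e)) 16397 (.s (n false e e) 16386 .z))) .z
  (.s (.s (n true (n true (n false e e) e) e) 16389 (.s (n true (n false (n false (n false e e) (n false e e)) (n false e e)) e) 16393 .z)) (.s 54 7 (.s 87 54 .z))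
  (.s (.s (n false (n true (n false e e) e) (n false e e)) 16397 (.s (n false e e) 16384 .z)) (.s 54 7 (.s 57 7 (.s 64 7 (.s 91 0 .z))))
  (.s (.s (n true (n false (n false e e) (n false e e)) e) 16399 (.s (n true (n false (n false (n true (n false (n false (n false (n false e e) (n false e e)) (n false (n false e e) (n false e e))) (n false e e)) e) (n false e e)) (n false e e)) e) 16390 .z)) (.s 54 7 (.s 57 7 (.s 64 7 (.s 91 0 (.s 87 54 .z)))))
  (.s (.s (n false e e) 16387 (.s (n true (n false (n true (n false e e) e) (n false e e)) e) 16404 (.s (n true (n false (n false (n false (n false e e) (n false e e)) (n false (n false e e) (n false e e))) (n false e e)) e) 16385 .z))) (.s 87 54 .z)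
  (.s (.s (n false (n false (n false (n false e e) (n false e e)) (n false e e)) (n false e e)) 16394 .z) (.s 54 7 (.s 57 7 (.s 64 7 (.s 91 0 (.s 57 37 (.s 87 54 .z))))))
  (.s (.s (n true (n false (n false (n false (n false e e) (n false e e)) (n false (n false e e) (n false e e))) (n false e e)) e) 16385 (.s (n true (n false (n false e e) (n false e e)) e) 16399 (.s (n true (n false (n false (n false e e) (n false e e)) (n false e e)) e) 16393 .z))) (.s 91 0 (.s 87 54 .z))
  (.s (.s (n true (n false (n false (n false e e) (n false e e)) (n false e e)) e) 16393 (.s (n true (n false (n false (n false (n false e e) (n false e e)) (n false (n false e e) (n false e e))) (n false e e)) e) 16385 (.s (n false e e) 16384 .z))) (.s 91 0 (.s 87 54 .z))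
  (.s (.s (n false (n true (n false e e) e) (n false e e)) 16397 (.s (n false e e) 16386 (.s (n true (n false (n false (n false (n false e e) (n false e e)) (n false (n false e e) (n false e e))) (n false e e)) e) 16385 .z))) .z
  (.s (.s (n true (n false (n false (n false (n false e e) (n false e e)) (n false (n false e e) (n false e e))) (n false e e)) e) 16385 (.s (n false e e) 16386 (.s (n true (n false (n true (n false e e) e) (n false e e)) e) 16404 .z))) (.s 87 54 .z)
  (.s (.s (n true (n false (n false e e) (n false e e)) e) 16399 (.s (n false (n false (n false (n false e e) (n false e e)) (n false e e)) (n false e e)) 16394 .z)) (.s 54 7 (.s 57 7 (.s 64 7 (.s 91 0 (.s 87 54 .z)))))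
  (.s (.s (n false e e) 16384 .z) (.s 54 7 (.s 57 7 (.s 64 7 (.s 91 0 (.s 53 39 (.s 87 54 .z))))))
  (.s (.s (n false (n true (n false e e) e) (n false e e)) 16397 (.s (n true (n false (n false (n false (n false e e) (n false e e)) (n false (n false e e) (n false e e))) (n false e e)) e) 16384 (.s (n false e e) 16384 .z))) (.s 54 7 (.s 91 0 .z))
  (.s (.s (n false (n true (n false e e) e) (n false e e)) 16397 (.s (n true (n false (n false (n false (n false e e) (n false e e)) (n false (n false e e) (n false e e))) (n false e e)) e) 16384 (.s (n false (n false e e) e) 16399 (.s (n true (n false (n false (n false (n false e e) (n false e e)) (n false (n false e e) (n false e e))) (n false e e)) e) 16385 .z)))) (.s 57 37 .z)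
  (.s (.s (n false (n true (n false e e) e) (n false e e)) 16397 (.s (n true (n false (n false (n false (n false e e) (n false e e)) (n false (n false e e) (n false e e))) (n false e e)) e) 16384 (.s (n false e e) 16384 (.s (n false (n false e e) e) 16399 .z)))) (.s 54 7 .z)
  .z)))))))))))))))))))))))))))))))))))))))))))))))))))))))))))))))))))))))))))))))))))))))))))

set_option maxRecDepth 100000 in
def A86 : AE :=
 (.s 4096 4099 (.s 77 2 .z)
 (.s 0x288 4114 (n false (n false e e) (n false e e)) (.s 0x70 4101 (n true (n false e e) e) .z .z) (.s 0x1708 4103 (n false (n true (n false e e) e) (n false e e)) .z .z))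
 (.s .z (.s 77 2 .z)
  .z))

set_option maxRecDepth 100000 in
def A87 : AE :=
 (.s 4096 4099 (.s 80 2 (.s 81 2 (.s 82 2 (.s 86 0 (.s 87 0 (.s 88 2 (.s 89 2 (.s 92 0 (.s 93 0 (.s 64 14 (.s 91 2 (.s 101 0 (.s 102 0 (.s 101 2 (.s 102 2 (.s 86 7 (.s 112 2 (.s 115 2 (.s 92 7 (.s 91 14 (.s 121 2 (.s 122 2 (.s 125 0 (.s 126 0 (.s 129 0 (.s 128 2 (.s 100 14 (.s 130 0 (.s 132 2 (.s 81 37 (.s 87 37 (.s 141 2 (.s 93 37 (.s 123 17 (.s 129 7 (.s 100 39 (.s 126 16 (.s 126 17 (.s 130 7 (.s 100 48 (.s 145 14 (.s 126 37 (.s 130 37 (.s 92 87 (.s 100 75 (.s 130 45 (.s 123 64 (.s 100 87 (.s 126 64 (.s 159 2 (.s 160 0 (.s 158 17 (.s 123 100 (.s 130 92 (.s 126 100 (.s 158 64 (.s 158 100 (.s 167 0 (.s 160 132 (.s 168 2 .z))))))))))))))))))))))))))))))))))))))))))))))))))))))))))))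
 (.s 0x70 4101 (n true (n false e e) e) .z .z)
 (.s (.s (n false (n true (n false e e) e) (n false e e)) 16391 (.s (n false e e) 16388 .z)) .z
  (.s (.s (n false (n true (n false e e) e) (n false e e)) 16391 (.s (n false (n false e e) e) 16389 .z)) .z
  (.s (.s (n false (n false e e) (n false e e)) 16393 (.s (n false (n true (n false e e) e) (n false e e)) 16391 (.s (n false (n false e e) e) 16389 .z))) .z
  (.s (.s (n false e e) 16388 (.s (n false (n false e e) (n false e e)) 16390 (.s (n false (n true (n false e e) e) (n false e e)) 16391 .z))) .z
  (.s (.s (n false e e) 16387 (.s (n false (n false e e) e) 16389 (.s (n false (n true (n false e e) e) (n false e e)) 16391 .z))) .z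
  (.s (.s (n false (n false e e) e) 16389 (.s (n true (n true (n false (n false (n false (n false e e) (n false e e)) (n false (n false e e) (n false e e))) (n false e e)) e) e) 16386 (.s (n false (n true (n false e e) e) (n false e e)) 16391 .z))) .z
  (.s (.s (n false (n true (n false e e) e) (n false e e)) 16391 (.s (n false e e) 16387 (.s (n false (n false e e) e) 16389 .z))) .z
  (.s (.s (n false (n true (n false e e) e) (n false e e)) 16391 (.s (n true (n false e e) e) 16388 (.s (n false (n false e e) e) 16389 .z))) .z
  (.s (.s (n false e e) 16388 (.s (n false (n true (n false e e) e) (n false e e)) 16391 .z)) .z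
  (.s (.s (n false (n true (n false e e) e) (n false e e)) 16391 (.s (n false e e) 16386 (.s (n false (n false e e) e) 16389 .z))) .z
  (.s (.s (n false (n true (n false e e) e) (n false e e)) 16391 (.s (n false e e) 16385 (.s (n false (n false e e) e) 16389 .z))) .z
  (.s (.s (n false (n false e e) e) 16389 (.s (n false (n true (n false e e) e) (n false e e)) 16391 .z)) .z
  (.s (.s (n false (n true (n false e e) e) (n false e e)) 16391 (.s (n false (n false e e) e) 16388 .z)) (.s 101 0 (.s 102 0 (.s 125 0 .z)))
  (.s (.s (n false (n true (n false e e) e) (n false e e)) 16391 (.s (n false e e) 16386 (.s (n true (n false (n true (n false e e) e) (n false e e)) e) 16392 (.s (n false (n false e e) e) 16389 .z)))) .z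
  (.s (.s (n false (n true (n false e e) e) (n false e e)) 16391 (.s (n false (n false e e) e) 16387 (.s (n false e e) 16388 .z))) .z
  (.s (.s (n false (n false (n false e e) (n false e e)) (n false e e)) 16388 (.s (n false (n true (n false e e) e) (n false e e)) 16391 (.s (n false e e) 16388 .z))) .z
  (.s (.s (n false (n false e e) (n false e e)) 16390 (.s (n false e e) 16388 (.s (n false (n true (n false e e) e) (n false e e)) 16391 .z))) .z
  (.s (.s (n false e e) 16397 (.s (n false (n true (n false e e) e) (n false e e)) 16391 .z)) .z
  (.s (.s (n false (n true (n false e e) e) (n false e e)) 16391 (.s (n false e e) 16387 (.s (n true (n false (n true (n false e e) e) (n false e e)) e) 16392 (.s (n false (n false e e) e) 16389 .z)))) .z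
  (.s (.s (n true (n false (n false e e) (n false e e)) e) 16390 (.s (n false (n true (n false e e) e) (n false e e)) 16391 (.s (n false (n false e e) e) 16389 .z))) .z
  (.s (.s (n false (n true (n false e e) e) (n false e e)) 16391 (.s (n true (n false (n true (n false e e) e) (n false e e)) e) 16398 (.s (n false (n false e e) e) 16389 .z))) .z
  (.s (.s (n false e e) 16400 (.s (n false (n false e e) (n false e e)) 16385 (.s (n false (n true (n false e e) e) (n false e e)) 16391 .z))) .z
  (.s (.s (n false e e) 16400 (.s (n false (n true (n false e e) e) (n false e e)) 16391 .z)) .z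
  (.s (.s (n false (n true (n false e e) e) (n false e e)) 16391 (.s (n true (n false e e) e) 16386 (.s (n false (n false e e) e) 16389 .z))) .z
  (.s (.s (n false e e) 16388 (.s (n true (n false e e) e) 16386 (.s (n false (n true (n false e e) e) (n false e e)) 16391 .z))) .z
  (.s (.s (n false (n true (n false e e) e) (n false e e)) 16391 (.s (n false e e) 16386 (.s (n false (n false (n true (n false e e) e) (n false e e)) e) 16392 (.s (n false (n false e e) e) 16389 .z)))) .z
  (.s (.s (n false (n true (n false e e) e) (n false e e)) 16391 (.s (n false e e) 16387 .z)) (.s 101 0 (.s 102 0 (.s 125 0 .z)))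
  (.s (.s (n false (n true (n false e e) e) (n false e e)) 16391 (.s (n false e e) 16387 (.s (n true (n false (n true (n false e e) e) (n false e e)) e) 16398 (.s (n false (n false e e) e) 16389 .z)))) .z
  (.s (.s (n false e e) 16388 (.s (n false (n false e e) (n false e e)) 16388 (.s (n false (n true (n false e e) e) (n false e e)) 16391 .z))) .z
  (.s (.s (n false (n true (n false e e) e) (n false e e)) 16391 (.s (n false e e) 16386 (.s (n true (n false (n true (n false e e) e) (n false e e)) e) 16392 (.s (n true (n true (n false (n false e e) (n false e e)) e) e) 16391 (.s (n false (n false e e) e) 16389 .z))))) .z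
  (.s (.s (n false e e) 16397 (.s (n false (n false e e) (n false e e)) 16390 (.s (n false (n true (n false e e) e) (n false e e)) 16391 .z))) .z
  (.s (.s (n false (n true (n false e e) e) (n false e e)) 16389 (.s (n false (n false e e) (n false e e)) 16390 (.s (n false (n false e e) e) 16387 (.s (n false (n true (n false e e) e) (n false e e)) 16391 .z)))) (.s 87 0 (.s 101 0 (.s 102 0 (.s 125 0 (.s 126 0 (.s 167 0 .z))))))
  (.s (.s (n false (n true (n false e e) e) (n false e e)) 16391 (.s (n true (n true (n false (n false e e) (n false e e)) e) e) 16391 (.s (n true (n false (n true (n false e e) e) (n false e e)) e) 16392 (.s (n false (n false e e) e) 16389 .z)))) .z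
  (.s (.s (n false (n false e e) e) 16389 (.s (n true (n true (n false (n false (n false (n false e e) (n false e e)) (n false (n false e e) (n false e e))) (n false e e)) e) e) 16386 (.s (n true (n true (n false (n false e e) (n false e e)) e) e) 16391 (.s (n false (n true (n false e e) e) (n false e e)) 16391 .z)))) .z
  (.s (.s (n false (n true (n false e e) e) (n false e e)) 16391 (.s (n true (n false (n true (n false e e) e) (n false e e)) e) 16392 (.s (n false (n false e e) e) 16389 .z))) .z
  (.s (.s (n false (n true (n false e e) e) (n false e e)) 16391 (.s (n false (n true (n false (n false e e) (n false e e)) e) e) 16391 (.s (n true (n false (n true (n false e e) e) (n false e e)) e) 16392 (.s (n false (n false e e) e) 16389 .z)))) .z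
  (.s (.s (n false e e) 16388 (.s (n false (n false e e) (n false e e)) 16385 (.s (n false (n true (n false e e) e) (n false e e)) 16391 .z))) .z
  (.s (.s (n false e e) 16388 (.s (n false (n false e e) (n false e e)) 16388 (.s (n false (n true (n false e e) e) (n false e e)) 16387 (.s (n false (n true (n false e e) e) (n false e e)) 16391 .z)))) .z
  (.s (.s (n false e e) 16388 (.s (n false (n true (n false e e) e) (n false e e)) 16390 (.s (n false (n false e e) (n false e e)) 16393 (.s (n false (n true (n false e e) e) (n false e e)) 16391 .z)))) .z
  .z))))))))))))))))))))))))))))))))))))))))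

set_option maxRecDepth 100000 in
def A88 : AE :=
 (.s 4096 4095 (.s 52 14 .z)
 (.s 0x288 4101 (n false (n false e e) (n false e e)) .z .z)
 (.s .z (.s 52 14 .z)
  .z))

set_option maxRecDepth 100000 in
def A89 : AE :=
 (.s 4096 4098 (.s 54 14 (.s 58 7 (.s 66 13 (.s 82 7 (.s 110 0 (.s 76 13 (.s 81 13 (.s 89 13 (.s 87 17 (.s 91 13 (.s 92 14 (.s 129 14 .z))))))))))))
 (.s 0x70 4100 (n true (n false e e) e) (.s 0x8 4111 (n false e e) .z .z) .z)
 (.s (.s (n false (n true (n false e e) e) (n false e e)) 16390 (.s (n false (n false e e) e) 16388 (.s (n false (n false e e) (n false e e)) 16389 .z))) (.s 54 14 .z)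
  (.s (.s (n true (n true (n false (n false (n false (n false e e) (n false e e)) (n false (n false e e) (n false e e))) (n false e e)) e) e) 16385 (.s (n true (n false (n false e e) e) e) 16392 (.s (n true (n false (n false (n false (n false e e) (n false e e)) (n false (n false e e) (n false e e))) (n false e e)) e) 16384 .z))) (.s 87 17 .z)
  (.s (.s (n false (n true (n false e e) e) (n false e e)) 16390 (.s (n false (n false e e) e) 16388 (.s (n false (n true (n false (n false (n false (n false e e) (n false e e)) (n false (n false e e) (n false e e))) (n false e e)) e) (n true (n false (n false (n false (n false e e) (n false e e)) (n false (n false e e) (n false e e))) (n false e e)) e)) 16383 .z))) (.s 54 14 .z)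
  (.s (.s (n false (n true (n false e e) e) (n false e e)) 16396 (.s (n false e e) 16390 .z)) .z
  (.s (.s (n false (n true (n false e e) e) (n false e e)) 16390 (.s (n false (n false e e) e) 16388 (.s (n true (n true (n false (n false (n false (n false e e) (n false e e)) (n false (n false e e) (n false e e))) (n false e e)) e) e) 16385 .z))) .z
  (.s (.s (n false (n true (n false e e) e) (n false e e)) 16390 (.s (n false (n false e e) e) 16388 (.s (n false (n true (n false (n false (n false (n false e e) (n false e e)) (n false (n false e e) (n false e e))) (n false e e)) e) (n false e e)) 16386 .z))) (.s 54 14 .z)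
  (.s (.s (n false (n true (n false e e) e) (n false e e)) 16390 (.s (n true (n true (n false (n false (n false (n false e e) (n false e e)) (n false (n false e e) (n false e e))) (n false e e)) e) e) 16385 .z)) .z
  (.s (.s (n false (n false e e) (n false e e)) 16389 (.s (n true (n false (n false (n false (n false e e) (n false e e)) (n false (n false e e) (n false e e))) (n false e e)) e) 16387 (.s (n false (n false (n true (n false e e) e) (n false e e)) e) 16394 .z))) (.s 54 14 (.s 89 13 (.s 87 17 (.s 91 13 .z))))
  (.s (.s (n false (n true (n false e e) e) (n false e e)) 16390 (.s (n false (n true (n false (n false (n false (n false e e) (n false e e)) (n false (n false e e) (n false e e))) (n false e e)) e) (n true (n false e e) e)) 16393 (.s (n false (n false e e) e) 16388 .z))) .z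
  (.s (.s (n false (n true (n false (n false (n false (n false e e) (n false e e)) (n false (n false e e) (n false e e))) (n false e e)) e) (n true (n false e e) e)) 16387 (.s (n false (n false (n true (n false e e) e) (n false e e)) e) 16394 (.s (n false (n true (n false e e) e) (n false (n false e e) e)) 16394 .z))) (.s 54 14 (.s 58 7 (.s 66 13 (.s 87 17 .z))))
  (.s (.s (n false (n true (n false e e) e) (n false e e)) 16390 (.s (n false e e) 16390 (.s (n false (n true (n false (n false (n false (n false e e) (n false e e)) (n false (n false e e) (n false e e))) (n false e e)) e) (n true (n false (n false (n false (n false e e) (n false e e)) (n false (n false e e) (n false e e))) (n false e e)) e)) 16383 .z))) (.s 54 14 .z)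
  (.s (.s (n false (n false e e) (n false e e)) 16389 .z) (.s 54 14 (.s 58 7 (.s 82 7 (.s 110 0 (.s 89 13 (.s 87 17 (.s 91 13 .z)))))))
  (.s (.s (n false (n true (n false e e) e) (n false e e)) 16396 (.s (n false (n false e e) e) 16388 .z)) .z
  (.s (.s (n false (n true (n false (n false (n false (n false e e) (n false e e)) (n false (n false e e) (n false e e))) (n false e e)) e) (n true (n false e e) e)) 16387 (.s (n false (n true (n false (n true (n false e e) e) (n false e e)) e) e) 16395 (.s (n false (n false (n false (n true (n false e e) e) (n false e e)) e) (n true (n false e e) e)) 16397 (.s (n false (n true (n false (n false (n false (n false e e) (n false e e)) (n false (n false e e) (n false e e))) (n false e e)) e) (n true (n false (n false (n false (n false e e) (n false e e)) (n false (n false e e) (n false e e))) (n false e e)) e)) 16383 .z)))) (.s 54 14 (.s 58 7 (.s 87 17 .z)))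
  (.s (.s (n false (n false e e) (n false e e)) 16389 .z) (.s 110 0 (.s 54 14 (.s 58 7 (.s 82 7 (.s 89 13 (.s 87 17 (.s 91 13 .z)))))))
  (.s (.s (n true (n true (n false (n false (n false (n false e e) (n false e e)) (n false (n false e e) (n false e e))) (n false e e)) e) e) 16385 (.s (n true (n false (n false (n true (n false e e) e) (n false e e)) e) e) 16395 .z)) (.s 58 7 (.s 87 17 .z))
  (.s (.s (n false (n true (n false e e) e) (n false e e)) 16396 (.s (n true (n false (n true (n false e e) e) (n false e e)) e) 16394 .z)) .z
  (.s (.s (n false (n false e e) (n false e e)) 16389 (.s (n false e e) 16387 (.s (n true (n true (n false (n true (n false e e) e) (n false e e)) e) e) 16395 (.s (n true (n true (n false (n false (n false (n false e e) (n false e e)) (n false (n false e e) (n false e e))) (n false e e)) e) e) 16385 .z)))) .z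
  (.s (.s (n false (n false e e) (n false e e)) 16389 (.s (n true (n false (n false e e) e) e) 16392 (.s (n false (n false (n true (n false e e) e) (n false e e)) e) 16394 (.s (n true (n false (n false (n false (n false e e) (n false e e)) (n false (n false e e) (n false e e))) (n false e e)) e) 16384 .z)))) (.s 54 14 (.s 89 13 (.s 87 17 (.s 91 13 .z))))
  (.s (.s (n true (n true (n false (n false (n false (n false e e) (n false e e)) (n false (n false e e) (n false e e))) (n false e e)) e) e) 16385 (.s (n false e e) 16387 (.s (n true (n false (n false (n true (n false e e) e) (n false e e)) e) e) 16395 .z))) .z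
  (.s (.s (n false (n true (n false (n false (n false (n false e e) (n false e e)) (n false (n false e e) (n false e e))) (n false e e)) e) (n true (n false e e) e)) 16387 (.s (n false (n false e e) (n false e e)) 16389 (.s (n false (n true (n false (n true (n false e e) e) (n false e e)) e) e) 16395 (.s (n false (n false (n false (n true (n false e e) e) (n false e e)) e) (n true (n false e e) e)) 16397 .z)))) (.s 54 14 (.s 58 7 (.s 87 17 .z)))
  (.s (.s (n false (n true (n false (n false (n false (n false e e) (n false e e)) (n false (n false e e) (n false e e))) (n false e e)) e) (n true (n false e e) e)) 16387 (.s (n false (n false e e) (n false e e)) 16389 (.s (n true (n false (n false e e) e) e) 16392 (.s (n false (n false (n true (n false e e) e) (n false e e)) e) 16394 .z)))) (.s 54 14 (.s 58 7 (.s 87 17 .z)))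
  (.s (.s (n false (n true (n false e e) e) (n false e e)) 16390 (.s (n false e e) 16390 (.s (n false (n true (n false (n false (n false (n false e e) (n false e e)) (n false (n false e e) (n false e e))) (n false e e)) e) (n true (n false e e) e)) 16393 .z))) .z
  (.s (.s (n false (n false e e) (n false e e)) 16389 (.s (n false (n true (n false e e) e) (n false e e)) 16389 (.s (n true (n false (n false (n false (n false e e) (n false e e)) (n false (n false e e) (n false e e))) (n false e e)) e) 16384 (.s (n true (n false (n false e e) e) e) 16392 (.s (n false (n false (n true (n false e e) e) (n false e e)) e) 16394 .z))))) (.s 54 14 (.s 89 13 .z))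
  (.s (.s (n false (n true (n false e e) e) (n false e e)) 16390 (.s (n false e e) 16390 (.s (n false (n false e e) (n false e e)) 16389 .z))) (.s 54 14 .z)
  (.s (.s (n false (n true (n false e e) e) (n false e e)) 16390 (.s (n false (n true (n false (n false (n false (n false e e) (n false e e)) (n false (n false e e) (n false e e))) (n false e e)) e) (n false e e)) 16386 (.s (n false (n false e e) e) 16388 (.s (n false (n true (n false (n false (n false (n false e e) (n false e e)) (n false (n false e e) (n false e e))) (n false e e)) e) (n true (n false e e) e)) 16393 .z)))) .z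
  (.s (.s (n false (n true (n false e e) e) (n false e e)) 16390 (.s (n false (n true (n false (n false (n false (n false e e) (n false e e)) (n false (n false e e) (n false e e))) (n false e e)) e) (n true (n false e e) e)) 16393 (.s (n false e e) 16390 .z))) .z
  (.s (.s (n true (n true (n false (n false (n false (n false e e) (n false e e)) (n false (n false e e) (n false e e))) (n false e e)) e) e) 16385 (.s (n false e e) 16390 .z)) .z
  (.s (.s (n false (n true (n false (n false (n false (n false e e) (n false e e)) (n false (n false e e) (n false e e))) (n false e e)) e) (n true (n false e e) e)) 16387 (.s (n false (n false e e) (n false e e)) 16389 (.s (n true (n true (n false (n true (n false e e) e) (n false e e)) e) e) 16395 .z))) (.s 54 14 (.s 58 7 (.s 87 17 .z)))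
  (.s (.s (n false (n true (n false (n false (n false (n false e e) (n false e e)) (n false (n false e e) (n false e e))) (n false e e)) e) (n true (n false e e) e)) 16387 (.s (n false (n true (n false (n true (n false e e) e) (n false e e)) e) e) 16395 (.s (n false (n false (n false (n true (n false e e) e) (n false e e)) e) (n true (n false e e) e)) 16397 (.s (n false (n true (n false (n false (n false (n false e e) (n false e e)) (n false (n false e e) (n false e e))) (n false e e)) e) (n false e e)) 16386 .z)))) (.s 54 14 (.s 58 7 (.s 87 17 .z)))
  (.s (.s (n false (n true (n false (n false (n false (n false e e) (n false e e)) (n false (n false e e) (n false e e))) (n false e e)) e) (n true (n false e e) e)) 16387 (.s (n true (n false (n false e e) e) e) 16392 (.s (n false (n false (n true (n false e e) e) (n false e e)) e) 16394 .z))) (.s 54 14 (.s 58 7 (.s 66 13 (.s 87 17 .z))))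
  (.s (.s (n false (n true (n true (n false e e) e) e) (n false e e)) 16391 .z) (.s 54 14 (.s 58 7 (.s 82 7 (.s 110 0 (.s 89 13 (.s 87 17 (.s 91 13 .z)))))))
  (.s (.s (n false (n true (n false (n false (n false (n false e e) (n false e e)) (n false (n false e e) (n false e e))) (n false e e)) e) (n true (n false e e) e)) 16387 (.s (n true (n true (n false (n true (n false e e) e) (n false e e)) e) e) 16395 .z)) (.s 54 14 (.s 58 7 (.s 66 13 (.s 87 17 .z))))
  (.s (.s (n false (n true (n false (n false (n false (n false e e) (n false e e)) (n false (n false e e) (n false e e))) (n false e e)) e) (n false e e)) 16386 (.s (n true (n false (n false e e) e) e) 16392 (.s (n false (n false (n true (n false e e) e) (n false e e)) e) 16394 (.s (n true (n false (n false (n false (n false e e) (n false e e)) (n false (n false e e) (n false e e))) (n false e e)) e) 16384 .z)))) (.s 54 14 (.s 89 13 (.s 87 17 (.s 91 13 .z))))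
  (.s (.s (n false (n true (n false (n false (n false (n false e e) (n false e e)) (n false (n false e e) (n false e e))) (n false e e)) e) (n false e e)) 16386 (.s (n false e e) 16387 (.s (n true (n false (n false e e) e) e) 16392 (.s (n false (n false (n true (n false e e) e) (n false e e)) e) 16394 .z)))) (.s 54 14 (.s 89 13 (.s 91 13 .z)))
  (.s (.s (n false (n true (n false (n false (n false (n false e e) (n false e e)) (n false (n false e e) (n false e e))) (n false e e)) e) (n true (n false e e) e)) 16387 (.s (n false (n true (n false (n false (n false (n false e e) (n false e e)) (n false (n false e e) (n false e e))) (n false e e)) e) e) 16385 (.s (n false (n false (n false (n true (n false e e) e) (n false e e)) e) (n true (n false e e) e)) 16397 .z))) (.s 54 14 (.s 58 7 (.s 66 13 (.s 87 17 .z))))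
  (.s (.s (n true (n true (n false (n false (n false (n false e e) (n false e e)) (n false (n false e e) (n false e e))) (n false e e)) e) e) 16385 (.s (n false e e) 16387 (.s (n true (n false (n false e e) e) e) 16392 .z))) .z
  (.s (.s (n false (n true (n false e e) e) (n false e e)) 16390 (.s (n false (n false e e) e) 16388 (.s (n false (n true (n false (n false (n false (n false e e) (n false e e)) (n false (n false e e) (n false e e))) (n false e e)) e) (n true (n false e e) e)) 16393 .z))) .z
  (.s (.s (n false (n true (n false (n false (n false (n false e e) (n false e e)) (n false (n false e e) (n false e e))) (n false e e)) e) (n true (n false e e) e)) 16387 (.s (n true (n true (n false (n true (n false e e) e) (n false e e)) e) e) 16395 (.s (n false (n false e e) (n false e e)) 16389 .z))) (.s 54 14 (.s 58 7 (.s 87 17 .z)))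
  (.s (.s (n false (n true (n false (n false (n false (n false e e) (n false e e)) (n false (n false e e) (n false e e))) (n false e e)) e) (n true (n false e e) e)) 16387 (.s (n true (n true (n false (n true (n false e e) e) (n false e e)) e) e) 16395 (.s (n false e e) 16386 (.s (n false (n false e e) (n false e e)) 16389 .z)))) (.s 54 14 (.s 58 7 .z))
  (.s (.s (n false e e) 16390 (.s (n true (n true (n false (n false (n false (n false e e) (n false e e)) (n false (n false e e) (n false e e))) (n false e e)) e) e) 16385 .z)) .z
  (.s (.s (n false (n true (n false (n false (n false (n false e e) (n false e e)) (n false (n false e e) (n false e e))) (n false e e)) e) (n true (n false e e) e)) 16387 (.s (n false e e) 16387 (.s (n false (n false e e) (n false e e)) 16389 (.s (n true (n true (n false (n true (n false e e) e) (n false e e)) e) e) 16395 .z)))) (.s 54 14 .z)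
  (.s (.s (n false (n true (n false (n false (n false (n false e e) (n false e e)) (n false (n false e e) (n false e e))) (n false e e)) e) (n true (n false e e) e)) 16387 (.s (n false (n false e e) (n false e e)) 16389 (.s (n true (n true (n false (n true (n false e e) e) (n false e e)) e) e) 16395 (.s (n false e e) 16386 .z)))) (.s 54 14 (.s 58 7 .z))
  (.s (.s (n true (n true (n false (n false (n false (n false e e) (n false e e)) (n false (n false e e) (n false e e))) (n false e e)) e) e) 16385 (.s (n false e e) 16387 (.s (n true (n true (n false (n true (n false e e) e) (n false e e)) e) e) 16395 .z))) .z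
  (.s (.s (n false (n true (n false e e) e) (n false e e)) 16390 (.s (n false (n false e e) e) 16388 .z)) (.s 54 14 (.s 66 13 .z))
  (.s (.s (n true (n false (n false e e) e) e) 16392 (.s (n false (n false (n true (n false e e) e) (n false e e)) e) 16394 (.s (n true (n false (n false (n false (n false e e) (n false e e)) (n false (n false e e) (n false e e))) (n false e e)) e) 16384 (.s (n false (n false e e) (n false e e)) 16389 .z)))) (.s 54 14 (.s 89 13 (.s 87 17 (.s 91 13 .z))))
  (.s (.s (n false (n true (n false e e) e) (n false e e)) 16390 (.s (n false e e) 16390 (.s (n false (n true (n false (n false (n false (n false e e) (n false e e)) (n false (n false e e) (n false e e))) (n false e e)) e) (n false e e)) 16386 .z))) (.s 54 14 .z)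
  (.s (.s (n true (n true (n false (n false (n false (n false e e) (n false e e)) (n false (n false e e) (n false e e))) (n false e e)) e) e) 16385 (.s (n false e e) 16386 (.s (n true (n false (n false (n false (n false e e) (n false e e)) (n false (n false e e) (n false e e))) (n false e e)) e) 16384 (.s (n true (n false (n false e e) e) e) 16392 .z)))) .z
  (.s (.s (n true (n true (n false (n false (n false (n false e e) (n false e e)) (n false (n false e e) (n false e e))) (n false e e)) e) e) 16385 (.s (n true (n false e e) e) 16387 (.s (n true (n false (n false e e) e) e) 16392 .z))) (.s 58 7 .z)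
  (.s (.s (n true (n false e e) e) 16387 (.s (n true (n true (n false (n false (n false (n false e e) (n false e e)) (n false (n false e e) (n false e e))) (n false e e)) e) e) 16385 (.s (n true (n false (n false e e) e) e) 16392 .z))) (.s 58 7 .z)
  (.s (.s (n false (n true (n false (n false (n false (n false e e) (n false e e)) (n false (n false e e) (n false e e))) (n false e e)) e) (n true (n false e e) e)) 16387 (.s (n false (n true (n false e e) e) (n false e e)) 16389 (.s (n false (n true (n false (n true (n false e e) e) (n false e e)) e) e) 16395 (.s (n false (n false (n false (n true (n false e e) e) (n false e e)) e) (n true (n false e e) e)) 16397 .z)))) (.s 54 14 (.s 58 7 (.s 66 13 .z)))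
  (.s (.s (n false e e) 16386 (.s (n false (n false e e) e) 16388 (.s (n true (n false (n false e e) e) e) 16392 (.s (n true (n false (n false (n false (n false e e) (n false e e)) (n false (n false e e) (n false e e))) (n false e e)) e) 16384 (.s (n false (n true (n false e e) e) (n false e e)) 16390 (.s (n false (n true (n false (n false (n false (n false e e) (n false e e)) (n false (n false e e) (n false e e))) (n false e e)) e) (n false e e)) 16386 .z)))))) (.s 54 14 .z)
  (.s (.s (n false (n true (n false (n false (n false (n false e e) (n false e e)) (n false (n false e e) (n false e e))) (n false e e)) e) (n false e e)) 16386 (.s (n true (n false (n false e e) e) e) 16392 (.s (n false (n false (n true (n false e e) e) (n false e e)) e) 16394 .z))) (.s 54 14 (.s 58 7 (.s 89 13 (.s 87 17 (.s 91 13 .z)))))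
  (.s (.s (n false e e) 16390 (.s (n false (n true (n false e e) e) (n false e e)) 16390 (.s (n true (n true (n false (n false (n false (n false e e) (n false e e)) (n false (n false e e) (n false e e))) (n false e e)) e) e) 16385 .z))) .z
  (.s (.s (n false (n true (n false e e) e) (n false e e)) 16390 (.s (n false e e) 16390 (.s (n true (n true (n false (n false (n false (n false e e) (n false e e)) (n false (n false e e) (n false e e))) (n false e e)) e) e) 16385 .z))) .z
  (.s (.s (n false (n true (n false (n false (n false (n false e e) (n false e e)) (n false (n false e e) (n false e e))) (n false e e)) e) (n true (n false e e) e)) 16387 (.s (n false (n false e e) (n false e e)) 16389 (.s (n true (n false (n false e e) e) e) 16392 (.s (n true (n false (n true (n false e e) e) (n false e e)) e) 16394 .z)))) (.s 54 14 (.s 58 7 (.s 87 17 .z)))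
  (.s (.s (n false (n true (n false (n false (n false (n false e e) (n false e e)) (n false (n false e e) (n false e e))) (n false e e)) e) (n true (n false e e) e)) 16387 (.s (n false e e) 16387 (.s (n true (n true (n false (n true (n false e e) e) (n false e e)) e) e) 16395 (.s (n false (n true (n false (n false (n false (n false e e) (n false e e)) (n false (n false e e) (n false e e))) (n false e e)) e) (n false e e)) 16386 .z)))) (.s 54 14 .z)
  (.s (.s (n false e e) 16387 (.s (n true (n true (n false (n false (n false (n false e e) (n false e e)) (n false (n false e e) (n false e e))) (n false e e)) e) e) 16385 (.s (n true (n false (n false (n true (n false e e) e) (n false e e)) e) e) 16395 .z))) .z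
  (.s (.s (n false (n true (n false e e) e) (n false e e)) 16390 (.s (n true (n false (n true (n false e e) e) (n false e e)) e) 16394 (.s (n true (n true (n false (n false (n false (n false e e) (n false e e)) (n false (n false e e) (n false e e))) (n false e e)) e) e) 16385 .z))) .z
  (.s (.s (n false (n true (n false (n false (n false (n false e e) (n false e e)) (n false (n false e e) (n false e e))) (n false e e)) e) (n false e e)) 16386 (.s (n true (n false (n true (n false e e) e) (n false e e)) e) 16394 (.s (n true (n false (n false (n false (n false e e) (n false e e)) (n false (n false e e) (n false e e))) (n false e e)) e) 16384 (.s (n true (n false (n false e e) e) e) 16392 .z)))) (.s 54 14 (.s 89 13 (.s 87 17 (.s 91 13 .z))))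
  (.s (.s (n true (n false (n false (n false (n false e e) (n false e e)) (n false (n false e e) (n false e e))) (n false e e)) e) 16384 (.s (n false (n false e e) (n false e e)) 16389 (.s (n false (n true (n false e e) e) (n false e e)) 16389 (.s (n true (n false (n false e e) e) e) 16392 (.s (n false (n false (n true (n false e e) e) (n false e e)) e) 16394 .z))))) (.s 54 14 (.s 89 13 .z))
  (.s (.s (n false (n true (n false (n false (n false (n false e e) (n false e e)) (n false (n false e e) (n false e e))) (n false e e)) e) (n true (n false e e) e)) 16393 (.s (n false e e) 16390 .z)) .z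
  (.s (.s (n true (n true (n false (n false (n false (n false e e) (n false e e)) (n false (n false e e) (n false e e))) (n false e e)) e) e) 16385 (.s (n false e e) 16386 (.s (n true (n false (n false (n true (n false e e) e) (n false e e)) e) e) 16395 .z))) (.s 58 7 .z)
  (.s (.s (n false (n true (n false (n false (n false (n false e e) (n false e e)) (n false (n false e e) (n false e e))) (n false e e)) e) (n true (n false e e) e)) 16387 (.s (n false e e) 16390 (.s (n false (n false e e) (n false e e)) 16389 .z))) (.s 54 14 .z)
  (.s (.s (n false (n true (n false (n false (n false (n false e e) (n false e e)) (n false (n false e e) (n false e e))) (n false e e)) e) (n true (n false e e) e)) 16387 (.s (n false (n false e e) (n false e e)) 16389 (.s (n true (n true (n false (n true (n false e e) e) (n false e e)) e) e) 16395 (.s (n false (n true (n false e e) e) (n false e e)) 16389 .z)))) (.s 54 14 (.s 58 7 .z))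
  (.s (.s (n false e e) 16387 (.s (n true (n true (n false (n false (n false (n false e e) (n false e e)) (n false (n false e e) (n false e e))) (n false e e)) e) e) 16385 (.s (n false (n true (n false e e) e) (n false e e)) 16390 .z))) .z
  (.s (.s (n true (n true (n false (n false (n false (n false e e) (n false e e)) (n false (n false e e) (n false e e))) (n false e e)) e) e) 16385 (.s (n true (n false (n false e e) e) e) 16392 .z)) (.s 58 7 (.s 87 17 .z))
  (.s (.s (n false (n true (n false (n false (n false (n false e e) (n false e e)) (n false (n false e e) (n false e e))) (n false e e)) e) (n false e e)) 16386 (.s (n false (n false (n false (n false (n false e e) (n false e e)) (n false (n false e e) (n false e e))) (n false e e)) (n false (n false (n true (n false e e) e) (n false e e)) e)) 16392 .z)) (.s 54 14 (.s 58 7 (.s 110 0 (.s 89 13 (.s 87 17 (.s 91 13 .z))))))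
  (.s (.s (n false (n false e e) (n false e e)) 16389 (.s (n false e e) 16390 (.s (n false (n true (n false e e) e) (n false e e)) 16396 .z))) .z
  (.s (.s (n true (n true (n false (n false (n false (n false e e) (n false e e)) (n false (n false e e) (n false e e))) (n false e e)) e) e) 16385 (.s (n true (n false e e) e) 16387 (.s (n true (n false (n false e e) e) e) 16392 (.s (n true (n false (n false (n false (n false e e) (n false e e)) (n false (n false e e) (n false e e))) (n false e e)) e) 16384 .z)))) .z
  (.s (.s (n false (n true (n false (n false (n false (n false e e) (n false e e)) (n false (n false e e) (n false e e))) (n false e e)) e) (n true (n false e e) e)) 16387 (.s (n false e e) 16387 (.s (n true (n true (n false (n true (n false e e) e) (n false e e)) e) e) 16395 (.s (n false (n false e e) (n false e e)) 16389 .z)))) (.s 54 14 .z)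
  (.s (.s (n false e e) 16390 (.s (n false (n false e e) (n false e e)) 16389 .z)) (.s 54 14 (.s 89 13 (.s 91 13 .z)))
  (.s (.s (n false e e) 16386 (.s (n false (n true (n false e e) e) (n false e e)) 16390 (.s (n false (n false e e) e) 16388 (.s (n false (n true (n false (n false (n false (n false e e) (n false e e)) (n false (n false e e) (n false e e))) (n false e e)) e) (n false e e)) 16386 .z)))) (.s 54 14 .z)
  (.s (.s (n false (n true (n false e e) e) (n false e e)) 16390 (.s (n false (n false e e) e) 16388 (.s (n false (n false e e) (n false e e)) 16389 (.s (n true (n true (n false (n false (n false (n false e e) (n false e e)) (n false (n false e e) (n false e e))) (n false e e)) e) e) 16385 .z)))) .z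
  (.s (.s (n false (n true (n false e e) e) (n false e e)) 16389 (.s (n false (n true (n false (n false (n false (n false e e) (n false e e)) (n false (n false e e) (n false e e))) (n false e e)) e) (n true (n false e e) e)) 16387 (.s (n true (n true (n false (n true (n false e e) e) (n false e e)) e) e) 16395 .z))) (.s 54 14 (.s 58 7 (.s 66 13 .z)))
  (.s (.s (n false (n true (n false (n false (n false (n false e e) (n false e e)) (n false (n false e e) (n false e e))) (n false e e)) e) (n true (n false e e) e)) 16393 (.s (n false (n true (n false e e) e) (n false e e)) 16389 (.s (n false (n true (n false (n true (n false e e) e) (n false e e)) e) e) 16395 (.s (n false (n false (n false (n true (n false e e) e) (n false e e)) e) (n true (n false e e) e)) 16397 .z)))) (.s 58 7 .z)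
  (.s (.s (n false (n true (n false (n false (n false (n false e e) (n false e e)) (n false (n false e e) (n false e e))) (n false e e)) e) (n true (n false e e) e)) 16387 (.s (n false (n true (n false e e) e) (n false e e)) 16389 (.s (n true (n false (n true (n false e e) e) (n false e e)) e) 16394 (.s (n true (n false (n false e e) e) e) 16392 .z)))) (.s 54 14 (.s 58 7 (.s 66 13 .z)))
  (.s (.s (n false (n true (n false (n false (n false (n false e e) (n false e e)) (n false (n false e e) (n false e e))) (n false e e)) e) (n false e e)) 16386 (.s (n false (n true (n false (n true (n false e e) e) (n false e e)) e) e) 16395 (.s (n false (n false (n false (n true (n false e e) e) (n false e e)) e) (n true (n false e e) e)) 16397 .z))) (.s 54 14 (.s 58 7 (.s 89 13 (.s 87 17 (.s 91 13 .z)))))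
  (.s (.s (n false e e) 16398 (.s (n false (n true (n false e e) e) (n false e e)) 16396 .z)) .z
  (.s (.s (n false (n true (n false (n false (n false (n false e e) (n false e e)) (n false (n false e e) (n false e e))) (n false e e)) e) (n true (n false e e) e)) 16393 (.s (n false (n true (n false (n true (n false e e) e) (n false e e)) e) e) 16395 (.s (n false (n false (n false (n true (n false e e) e) (n false e e)) e) (n true (n false e e) e)) 16397 .z))) (.s 58 7 (.s 87 17 .z))
  (.s (.s (n false (n false e e) (n false e e)) 16389 (.s (n false (n false (n true (n false e e) e) (n false e e)) e) 16394 (.s (n true (n false (n false (n false (n false e e) (n false e e)) (n false (n false e e) (n false e e))) (n false e e)) e) 16384 (.s (n true (n false (n false e e) e) e) 16392 .z)))) (.s 54 14 (.s 89 13 (.s 87 17 (.s 91 13 .z))))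
  (.s (.s (n false (n false e e) (n false e e)) 16389 (.s (n false (n true (n false e e) e) (n false e e)) 16389 (.s (n false (n false (n false (n false (n false e e) (n false e e)) (n false (n false e e) (n false e e))) (n false e e)) (n false (n false (n true (n false e e) e) (n false e e)) e)) 16392 .z))) (.s 54 14 (.s 58 7 (.s 110 0 (.s 89 13 .z))))
  (.s (.s (n false (n false e e) (n false e e)) 16389 (.s (n false e e) 16390 .z)) (.s 54 14 (.s 89 13 (.s 91 13 .z)))
  (.s (.s (n false (n false e e) (n false e e)) 16389 (.s (n false e e) 16387 (.s (n true (n false (n false e e) e) e) 16392 (.s (n false (n true (n false e e) e) (n false e e)) 16389 (.s (n true (n false (n true (n false e e) e) (n false e e)) e) 16394 .z))))) (.s 54 14 (.s 89 13 .z))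
  (.s (.s (n false (n true (n false e e) e) (n false e e)) 16390 (.s (n true (n false (n true (n false e e) e) (n false e e)) e) 16394 (.s (n false (n false e e) (n false e e)) 16389 .z))) (.s 54 14 .z)
  (.s (.s (n false (n true (n false e e) e) (n false e e)) 16390 (.s (n false e e) 16390 (.s (n false (n false e e) (n false e e)) 16389 (.s (n false (n true (n false e e) e) (n false e e)) 16396 .z)))) .z
  .z)))))))))))))))))))))))))))))))))))))))))))))))))))))))))))))))))))))))))))))))))))))))

set_option maxRecDepth 100000 in
def A90 : AE :=
 (.s 4094 4098 (.s 87 1 (.s 52 17 (.s 93 1 (.s 54 20 (.s 93 17 (.s 126 1 (.s 93 64 (.s 96 94 (.s 100 93 .z)))))))))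
 (.s 0x70 4100 (n true (n false e e) e) (.s 0x8 4099 (n false e e) .z .z) .z)
 (.s (.s (n false (n true (n false e e) e) (n false e e)) 16388 (.s (n false (n false (n true (n false (n false e e) (n false e e)) e) e) (n true (n false (n false e e) (n false e e)) e)) 16394 .z)) (.s 87 1 (.s 93 1 (.s 54 20 (.s 126 1 .z))))
  (.s (.s (n true (n false (n true (n false (n false e e) (n false e e)) e) e) e) 16390 .z) (.s 87 1 (.s 52 17 (.s 93 1 (.s 54 20 (.s 93 17 (.s 126 1 (.s 93 64 (.s 100 93 .z))))))))
  (.s (.s (n false (n false (n true (n false (n false e e) (n false e e)) e) e) (n true (n false (n false e e) (n false e e)) e)) 16394 .z) (.s 87 1 (.s 52 17 (.s 93 1 (.s 54 20 (.s 93 17 (.s 126 1 (.s 93 64 (.s 100 93 .z))))))))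
  (.s (.s (n true (n true (n false (n false e e) (n false e e)) e) e) 16389 .z) (.s 87 1 (.s 93 1 (.s 126 1 (.s 52 17 (.s 54 20 (.s 93 17 (.s 93 64 (.s 100 93 .z))))))))
  (.s (.s (n false (n true (n false e e) e) (n false e e)) 16388 (.s (n true (n true (n false (n false e e) (n false e e)) e) e) 16389 .z)) (.s 87 1 (.s 93 1 (.s 126 1 (.s 54 20 .z))))
  (.s (.s (n true (n true (n false (n false e e) (n false e e)) e) e) 16389 .z) (.s 87 1 (.s 52 17 (.s 93 1 (.s 54 20 (.s 93 17 (.s 126 1 (.s 93 64 (.s 100 93 .z))))))))
  (.s (.s (n false (n false (n true (n false (n false e e) (n false e e)) e) e) (n true (n false (n false e e) (n false e e)) e)) 16394 .z) (.s 87 1 (.s 93 1 (.s 126 1 (.s 52 17 (.s 54 20 (.s 93 17 (.s 93 64 (.s 100 93 .z))))))))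
  (.s (.s (n true (n true (n false (n false e e) (n false e e)) e) e) 16389 .z) (.s 93 1 (.s 126 1 (.s 87 1 (.s 52 17 (.s 54 20 (.s 93 17 (.s 93 64 (.s 100 93 .z))))))))
  (.s (.s (n false (n true (n false e e) e) (n false e e)) 16388 (.s (n true (n false e e) e) 16385 (.s (n true (n true (n false (n false e e) (n false e e)) e) e) 16389 .z))) (.s 87 1 (.s 54 20 (.s 126 1 .z)))
  (.s (.s (n false (n true (n false e e) e) (n false e e)) 16394 (.s (n false e e) 16384 (.s (n false (n true (n false (n false e e) (n false e e)) e) (n false e e)) 16390 .z))) (.s 126 1 (.s 87 1 .z))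
  (.s (.s (n false (n true (n false e e) e) (n false e e)) 16388 (.s (n true (n true (n false (n false e e) (n false e e)) e) e) 16389 .z)) (.s 87 1 (.s 93 1 (.s 54 20 (.s 126 1 .z))))
  (.s (.s (n false (n true (n false e e) e) (n false e e)) 16388 (.s (n true (n true (n false (n false e e) (n false e e)) e) e) 16389 .z)) (.s 126 1 (.s 87 1 (.s 93 1 (.s 54 20 .z))))
  (.s (.s (n false (n true (n false e e) e) (n false e e)) 16388 (.s (n true (n true (n false (n false e e) (n false e e)) e) e) 16389 .z)) (.s 93 1 (.s 126 1 (.s 87 1 (.s 54 20 .z))))
  (.s (.s (n false (n true (n false e e) e) (n false e e)) 16388 (.s (n false e e) 16384 (.s (n true (n true (n false (n false e e) (n false e e)) e) e) 16389 .z))) (.s 87 1 (.s 54 20 (.s 126 1 .z)))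
  (.s (.s (n false e e) 16384 (.s (n true (n true (n false (n false e e) (n false e e)) e) e) 16389 .z)) (.s 87 1 (.s 54 20 (.s 93 17 (.s 126 1 (.s 93 64 (.s 100 93 .z))))))
  (.s (.s (n true (n true (n true (n false (n false e e) (n false e e)) e) e) e) 16390 .z) (.s 93 1 (.s 126 1 (.s 87 1 (.s 52 17 (.s 54 20 (.s 93 17 (.s 93 64 (.s 100 93 .z))))))))
  (.s (.s (n false (n true (n false e e) e) (n false e e)) 16394 (.s (n true (n true (n false (n false e e) (n false e e)) e) e) 16389 .z)) (.s 87 1 (.s 93 1 (.s 126 1 .z)))
  (.s (.s (n false e e) 16384 (.s (n true (n true (n false (n false e e) (n false e e)) e) e) 16389 .z)) (.s 126 1 (.s 87 1 (.s 54 20 (.s 93 17 (.s 93 64 (.s 100 93 .z))))))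
  (.s (.s (n true (n true (n false (n false e e) (n false e e)) e) e) 16389 .z) (.s 93 1 (.s 87 1 (.s 52 17 (.s 54 20 (.s 93 17 (.s 126 1 (.s 93 64 (.s 100 93 .z))))))))
  (.s (.s (n false (n true (n false e e) e) (n false e e)) 16394 (.s (n true (n true (n false (n false e e) (n false e e)) e) e) 16389 (.s (n true (n false e e) e) 16385 .z))) (.s 87 1 (.s 126 1 .z))
  (.s (.s (n true (n false e e) e) 16385 (.s (n true (n true (n false (n false e e) (n false e e)) e) e) 16389 .z)) (.s 87 1 (.s 54 20 (.s 93 17 (.s 126 1 (.s 93 64 (.s 100 93 .z))))))
  .z))))))))))))))))))))))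

set_option maxRecDepth 100000 in
def A91 : AE :=
 (.s 4096 4098 (.s 89 0 (.s 52 16 (.s 53 16 (.s 54 16 (.s 58 16 (.s 64 16 (.s 102 1 .z)))))))
 (.s 0x3e0 4101 (n true (n true (n false e e) e) e) (.s 0x8 4099 (n false e e) .z .z) .z)
 (.s (.s (n true (n false e e) e) 16387 (.s (n true (n false (n false (n false e e) (n false e e)) (n false e e)) e) 16389 .z)) (.s 89 0 (.s 54 16 (.s 64 16 .z)))
  (.s (.s (n false (n true (n false e e) e) (n false e e)) 16389 (.s (n true (n false (n true (n false e e) e) (n false e e)) e) 16390 (.s (n true (n false (n false (n false e e) (n false e e)) (n false e e)) e) 16389 .z))) (.s 89 0 (.s 54 16 (.s 64 16 .z)))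
  (.s (.s (n true (n false (n true (n false e e) e) (n false e e)) e) 16390 (.s (n true (n false (n false (n false e e) (n false e e)) (n false e e)) e) 16389 .z)) (.s 89 0 (.s 52 16 (.s 54 16 (.s 58 16 (.s 64 16 .z)))))
  (.s (.s (n false e e) 16384 (.s (n true (n false (n true (n false e e) e) (n false e e)) e) 16390 .z)) (.s 89 0 (.s 52 16 (.s 54 16 (.s 58 16 .z))))
  (.s (.s (n true (n false (n true (n false e e) e) (n false e e)) e) 16390 (.s (n true (n false (n false (n true (n false (n false (n false (n false e e) (n false e e)) (n false (n false e e) (n false e e))) (n false e e)) e) (n false e e)) (n false e e)) e) 16386 .z)) (.s 89 0 (.s 52 16 (.s 54 16 (.s 58 16 (.s 64 16 .z)))))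
  (.s (.s (n true (n false (n true (n false e e) e) (n false e e)) e) 16390 .z) (.s 89 0 (.s 52 16 (.s 53 16 (.s 54 16 (.s 58 16 (.s 64 16 .z))))))
  (.s (.s (n false e e) 16385 (.s (n true (n false (n true (n false e e) e) (n false e e)) e) 16390 .z)) (.s 89 0 (.s 52 16 (.s 54 16 .z)))
  (.s (.s (n false e e) 16386 .z) (.s 89 0 .z)
  (.s (.s (n false e e) 16385 (.s (n false (n true (n false e e) e) (n false e e)) 16389 (.s (n true (n false (n true (n false e e) e) (n false e e)) e) 16390 .z))) (.s 89 0 (.s 54 16 .z))
  (.s (.s (n false (n true (n false e e) e) (n false e e)) 16388 (.s (n true (n false (n true (n false e e) e) (n false e e)) e) 16390 (.s (n true (n false (n false (n false e e) (n false e e)) (n false e e)) e) 16389 .z))) (.s 89 0 (.s 52 16 (.s 54 16 (.s 64 16 .z))))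
  (.s (.s (n false e e) 16385 (.s (n true (n false e e) e) 16387 .z)) (.s 89 0 (.s 54 16 .z))
  (.s (.s (n true (n false (n true (n false e e) e) (n false e e)) e) 16400 .z) (.s 89 0 (.s 52 16 (.s 54 16 (.s 58 16 (.s 64 16 .z)))))
  (.s (.s (n true (n false (n true (n false e e) e) (n false e e)) e) 16390 (.s (n false (n true (n false e e) e) (n false e e)) 16389 (.s (n true (n false (n false (n true (n false (n false (n false (n false e e) (n false e e)) (n false (n false e e) (n false e e))) (n false e e)) e) (n false e e)) (n false e e)) e) 16386 .z))) (.s 89 0 (.s 54 16 (.s 64 16 .z)))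
  (.s (.s (n true (n false e e) e) 16387 (.s (n true (n false (n true (n false e e) e) (n false e e)) e) 16400 .z)) (.s 89 0 (.s 54 16 (.s 64 16 .z)))
  (.s (.s (n true (n false (n true (n false e e) e) (n false e e)) e) 16390 (.s (n false (n true (n false e e) e) (n false e e)) 16388 (.s (n true (n false (n false (n true (n false (n false (n false (n false e e) (n false e e)) (n false (n false e e) (n false e e))) (n false e e)) e) (n false e e)) (n false e e)) e) 16386 .z))) (.s 89 0 (.s 52 16 (.s 54 16 (.s 64 16 .z))))
  (.s (.s (n true (n false e e) e) 16387 (.s (n true (n false (n false (n true (n false (n false (n false (n false e e) (n false e e)) (n false (n false e e) (n false e e))) (n false e e)) e) (n false e e)) (n false e e)) e) 16386 .z)) (.s 89 0 (.s 54 16 (.s 64 16 .z)))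
  (.s (.s (n true (n false e e) e) 16386 (.s (n true (n false (n true (n false e e) e) (n false e e)) e) 16390 (.s (n true (n false (n false (n true (n false (n false (n false (n false e e) (n false e e)) (n false (n false e e) (n false e e))) (n false e e)) e) (n false e e)) (n false e e)) e) 16386 .z))) (.s 89 0 (.s 52 16 (.s 54 16 (.s 64 16 .z))))
  (.s (.s (n false (n true (n false e e) e) (n false e e)) 16389 (.s (n true (n false (n true (n false e e) e) (n false e e)) e) 16390 (.s (n true (n false (n false (n true (n false (n false (n false (n false e e) (n false e e)) (n false (n false e e) (n false e e))) (n false e e)) e) (n false e e)) (n false e e)) e) 16386 .z))) (.s 89 0 (.s 54 16 (.s 64 16 .z)))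
  (.s (.s (n true (n false (n true (n false e e) e) (n false e e)) e) 16390 (.s (n true (n false e e) e) 16387 (.s (n true (n false (n false (n false e e) (n false e e)) (n false e e)) e) 16389 .z))) (.s 89 0 (.s 54 16 (.s 64 16 .z)))
  (.s (.s (n false e e) 16384 (.s (n false (n true (n false e e) e) (n false e e)) 16389 (.s (n true (n false (n true (n false e e) e) (n false e e)) e) 16390 .z))) (.s 89 0 (.s 54 16 .z))
  (.s (.s (n true (n true (n false e e) e) e) 16386 (.s (n true (n false (n true (n false e e) e) (n false e e)) e) 16390 .z)) (.s 89 0 (.s 52 16 (.s 54 16 (.s 58 16 .z))))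
  (.s (.s (n true (n false e e) e) 16387 (.s (n false e e) 16384 .z)) (.s 89 0 (.s 54 16 .z))
  (.s (.s (n false (n true (n false e e) e) (n false e e)) 16389 (.s (n false e e) 16386 .z)) (.s 89 0 .z)
  (.s (.s (n true (n false e e) e) 16386 (.s (n true (n false (n true (n false e e) e) (n false e e)) e) 16390 (.s (n true (n false (n false (n false e e) (n false e e)) (n false e e)) e) 16389 .z))) (.s 89 0 (.s 52 16 (.s 54 16 (.s 64 16 .z))))
  (.s (.s (n true (n false (n true (n false e e) e) (n false e e)) e) 16390 (.s (n true (n false (n false (n true (n false (n false (n false (n false e e) (n false e e)) (n false (n false e e) (n false e e))) (n false e e)) e) (n false e e)) (n false e e)) e) 16386 (.s (n true (n false e e) e) 16387 .z))) (.s 89 0 (.s 54 16 (.s 64 16 .z)))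
  (.s (.s (n true (n false e e) e) 16387 (.s (n true (n false (n true (n false e e) e) (n false e e)) e) 16400 (.s (n false e e) 16386 .z))) (.s 89 0 .z)
  (.s (.s (n true (n false (n true (n false e e) e) (n false e e)) e) 16390 (.s (n false (n true (n false e e) e) (n false e e)) 16389 (.s (n true (n false (n false (n false e e) (n false e e)) (n false e e)) e) 16389 .z))) (.s 89 0 (.s 54 16 (.s 64 16 .z)))
  (.s (.s (n true (n false (n true (n false e e) e) (n false e e)) e) 16390 (.s (n true (n false e e) e) 16386 (.s (n true (n false (n false (n false e e) (n false e e)) (n false e e)) e) 16389 .z))) (.s 89 0 (.s 52 16 (.s 54 16 (.s 64 16 .z))))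
  (.s (.s (n false e e) 16385 (.s (n true (n false (n true (n false e e) e) (n false e e)) e) 16390 (.s (n false e e) 16386 .z))) (.s 89 0 .z)
  (.s (.s (n false (n true (n false e e) e) (n false e e)) 16389 (.s (n true (n false (n true (n false e e) e) (n false e e)) e) 16390 .z)) (.s 89 0 (.s 53 16 (.s 54 16 (.s 64 16 .z))))
  .z)))))))))))))))))))))))))))))))

set_option maxRecDepth 100000 in
def A92 : AE :=
 (.s 4096 4097 (.s 80 3 (.s 88 3 (.s 89 3 (.s 95 0 (.s 128 1 (.s 132 0 (.s 128 3 (.s 94 63 (.s 132 21 (.s 159 1 (.s 95 94 (.s 132 59 (.s 159 3 (.s 132 94 (.s 159 21 (.s 159 59 (.s 160 63 .z)))))))))))))))))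
 (.s 0x1d10 4101 (n true (n false (n false e e) (n false e e)) e) .z .z)
 .z)

set_option maxRecDepth 100000 in
def A93 : AE :=
 (.s 4096 4096 (.s 93 2 .z)
 (.s 0x288 4099 (n false (n false e e) (n false e e)) (.s 0x70 4098 (n true (n false e e) e) .z .z) .z)
 (.s .z (.s 93 2 .z)
  .z))

set_option maxRecDepth 100000 in
def A94 : AE :=
 (.s 4096 4096 (.s 94 0 .z)
 (.s 0xba20 4101 (n false (n true (n false (n false e e) (n false e e)) e) e) (.s 0x8 4097 (n false e e) .z .z) (.s 0xfa20 4101 (n true (n true (n false (n false e e) (n false e e)) e) e) .z .z))
 .z)

set_option maxRecDepth 100000 in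
def A95 : AE :=
 (.s 4096 4095 (.s 39 28 (.s 123 28 (.s 158 28 .z)))
 (.s 0x8 4102 (n false e e) .z .z)
 (.s .z (.s 39 28 (.s 123 28 (.s 158 28 .z)))
  .z))

set_option maxRecDepth 100000 in
def A96 : AE :=
 (.s 4096 4095 (.s 66 7 .z)
 (.s 0xee10 4112 (n true (n false (n true (n false e e) e) (n false e e)) e) (.s 0x1708 4105 (n false (n true (n false e e) e) (n false e e)) (.s 0x8 4102 (n false e e) .z .z) .z) (.s 0xbaa2288870 4102 (n false (n true (n false (n false (n false (n false e e) (n false e e)) (n false (n false e e) (n false e e))) (n false e e)) e) (n true (n false e e) e)) (.s 0x75445110 4099 (n true (n false (n false (n false (n false e e) (n false e e)) (n false (n false e e) (n false e e))) (n false e e)) e) .z .z) .z))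
 (.s .z (.s 66 7 .z)
  .z))

set_option maxRecDepth 100000 in
def A97 : AE :=
 (.s 4096 4095 (.s 69 4 .z)
 (.s 0x1d44510 4103 (n true (n false (n false (n false e e) (n false e e)) (n false (n false e e) (n false e e))) e) (.s 0x70 4109 (n true (n false e e) e) (.s 0x8 4108 (n false e e) .z .z) .z) (.s 0x55114470 4105 (n false (n false (n false (n false e e) (n false e e)) (n false (n false e e) (n false e e))) (n true (n false e e) e)) .z .z))
 (.s .z (.s 69 4 .z)
  .z))

set_option maxRecDepth 100000 in
def A98 : AE :=
 (.s 4096 4095 (.s 94 2 (.s 96 0 (.s 114 2 (.s 92 13 (.s 131 2 (.s 130 17 (.s 130 64 (.s 130 100 .z))))))))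
 (.s 0x70 4097 (n true (n false e e) e) .z .z)
 (.s (.s (n false (n true (n false e e) e) (n false e e)) 16387 (.s (n false (n false e e) e) 16385 (.s (n false (n true (n false (n false e e) (n false e e)) e) (n false e e)) 16389 .z))) (.s 114 2 (.s 131 2 .z))
  (.s (.s (n false (n true (n false e e) e) (n false e e)) 16393 (.s (n false (n false e e) e) 16385 (.s (n false (n true (n false (n false e e) (n false e e)) e) (n false e e)) 16389 .z))) (.s 114 2 .z)
  (.s (.s (n false (n true (n false e e) e) (n false e e)) 16387 (.s (n false (n false e e) (n false e e)) 16392 (.s (n false (n false e e) e) 16385 (.s (n false (n true (n false (n false e e) (n false e e)) e) (n false e e)) 16389 .z)))) .z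
  (.s (.s (n false (n true (n false e e) e) (n false e e)) 16405 (.s (n false (n false e e) e) 16385 (.s (n false (n true (n false (n false e e) (n false e e)) e) (n false e e)) 16389 .z))) .z
  (.s (.s (n false (n true (n false e e) e) (n false e e)) 16393 (.s (n false (n false e e) e) 16385 (.s (n false (n false e e) (n false e e)) 16392 (.s (n false (n true (n false (n false e e) (n false e e)) e) (n false e e)) 16389 .z)))) .z
  (.s (.s (n false e e) 16396 (.s (n false (n false e e) (n false e e)) 16392 (.s (n false (n true (n false (n false e e) (n false e e)) e) (n false e e)) 16389 .z))) .z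
  (.s (.s (n false (n true (n false e e) e) (n false e e)) 16393 (.s (n false (n false e e) e) 16385 (.s (n false (n true (n false (n false e e) (n false e e)) e) (n false e e)) 16389 (.s (n false (n false e e) (n false e e)) 16392 .z)))) .z
  (.s (.s (n false (n false e e) (n false e e)) 16386 (.s (n false e e) 16384 (.s (n false (n true (n false (n false e e) (n false e e)) e) (n false e e)) 16389 .z))) (.s 114 2 (.s 131 2 .z))
  (.s (.s (n false e e) 16384 (.s (n false (n false e e) (n false e e)) 16386 (.s (n false (n true (n false (n false e e) (n false e e)) e) (n false e e)) 16389 .z))) (.s 114 2 (.s 131 2 .z))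
  .z))))))))))

set_option maxRecDepth 100000 in
def A99 : AE :=
 (.s 4096 4100 (.s 39 34 (.s 48 34 (.s 52 34 (.s 123 34 (.s 158 34 .z)))))
 (.s 0x1708 4110 (n false (n true (n false e e) e) (n false e e)) (.s 0x70 4102 (n true (n false e e) e) (.s 0x8 4101 (n false e e) .z .z) (.s 0x288 4121 (n false (n false e e) (n false e e)) .z .z)) (.s 0x75445110 4104 (n true (n false (n false (n false (n false e e) (n false e e)) (n false (n false e e) (n false e e))) (n false e e)) e) (.s 0x5d445108 4116 (n false (n true (n false (n false (n false e e) (n false e e)) (n false (n false e e) (n false e e))) e) (n false e e)) .z .z) .z))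
 (.s .z (.s 39 34 (.s 48 34 (.s 52 34 (.s 123 34 (.s 158 34 .z)))))
  (.s (.s (n false e e) 16387 .z) (.s 39 34 (.s 123 34 (.s 158 34 .z)))
  (.s .z (.s 123 34 (.s 39 34 (.s 48 34 (.s 52 34 (.s 158 34 .z)))))
  (.s (.s (n false e e) 16385 .z) (.s 39 34 (.s 48 34 (.s 123 34 (.s 158 34 .z))))
  (.s (.s (n true (n false e e) e) 16386 .z) (.s 39 34 (.s 48 34 (.s 123 34 (.s 158 34 .z))))
  (.s (.s (n false e e) 16385 .z) (.s 48 34 (.s 39 34 (.s 123 34 (.s 158 34 .z))))
  (.s (.s (n false (n true (n false e e) e) (n false e e)) 16394 .z) (.s 39 34 (.s 48 34 (.s 123 34 (.s 158 34 .z))))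
  (.s (.s (n false (n true (n false e e) e) (n false e e)) 16396 .z) (.s 39 34 (.s 123 34 (.s 158 34 .z)))
  (.s (.s (n false (n true (n false (n false (n false e e) (n false e e)) (n false (n false e e) (n false e e))) e) (n false e e)) 16400 .z) (.s 39 34 (.s 48 34 (.s 123 34 (.s 158 34 .z))))
  .z))))))))))

set_option maxRecDepth 100000 in
def A100 : AE :=
 (.s 4096 4100 (.s 39 37 (.s 48 37 (.s 52 37 (.s 73 17 (.s 123 37 (.s 158 37 .z))))))
 (.s 0x70 4102 (n true (n false e e) e) (.s 0x8 4101 (n false e e) .z .z) (.s 0x1708 4104 (n false (n true (n false e e) e) (n false e e)) .z .z))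
 (.s .z (.s 39 37 (.s 48 37 (.s 52 37 (.s 73 17 (.s 123 37 (.s 158 37 .z))))))
  (.s (.s (n true (n false e e) e) 16388 .z) (.s 39 37 (.s 73 17 (.s 123 37 (.s 158 37 .z))))
  (.s (.s (n true (n false e e) e) 16386 .z) (.s 39 37 (.s 48 37 (.s 73 17 (.s 123 37 (.s 158 37 .z)))))
  (.s (.s (n false e e) 16387 .z) (.s 39 37 (.s 73 17 (.s 123 37 (.s 158 37 .z))))
  (.s (.s (n false (n true (n false e e) e) (n false e e)) 16390 .z) (.s 39 37 (.s 73 17 (.s 123 37 (.s 158 37 .z))))
  .z))))))

set_option maxRecDepth 100000 in
def A101 : AE :=
 (.s 4096 4097 (.s 66 14 .z)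
 (.s 0x3ea88a220 4099 (n true (n true (n false (n false (n false (n false e e) (n false e e)) (n false (n false e e) (n false e e))) (n false e e)) e) e) (.s 0x1708 4110 (n false (n true (n false e e) e) (n false e e)) (.s 0x288 4103 (n false (n false e e) (n false e e)) .z .z) .z) (.s 0x1754451108 4100 (n false (n true (n false (n false (n false (n false e e) (n false e e)) (n false (n false e e) (n false e e))) (n false e e)) e) (n false e e)) .z .z))
 (.s .z (.s 66 14 .z)
  .z))

set_option maxRecDepth 100000 in
def A102 : AE :=
 (.s 4096 4099 (.s 39 39 (.s 48 39 (.s 72 39 (.s 123 39 (.s 126 73 (.s 123 123 (.s 158 39 (.s 158 72 .z))))))))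
 (.s 0x288 4108 (n false (n false e e) (n false e e)) (.s 0x8 4106 (n false e e) .z .z) .z)
 (.s .z (.s 39 39 (.s 48 39 (.s 72 39 (.s 123 39 (.s 126 73 (.s 123 123 (.s 158 39 (.s 158 72 .z))))))))
  (.s .z (.s 126 73 (.s 39 39 (.s 48 39 (.s 72 39 (.s 123 39 (.s 123 123 (.s 158 39 (.s 158 72 .z))))))))
  (.s (.s (n true (n true (n false (n true (n false e e) e) (n false e e)) e) e) 16398 .z) (.s 39 39 (.s 48 39 (.s 123 39 (.s 126 73 (.s 123 123 (.s 158 39 .z))))))
  (.s (.s (n false (n true (n false (n true (n false (n false (n false (n false e e) (n false e e)) (n false (n false e e) (n false e e))) (n false e e)) e) (n true (n false e e) e)) e) (n false e e)) 16396 .z) (.s 39 39 (.s 48 39 (.s 123 39 (.s 126 73 (.s 123 123 (.s 158 39 .z))))))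
  .z)))))

set_option maxRecDepth 100000 in
def A103 : AE :=
 (.s 4096 4104 (.s 44 39 (.s 48 43 (.s 123 44 (.s 158 44 .z))))
 (.s 0x70 4106 (n true (n false e e) e) (.s 0x8 4105 (n false e e) .z .z) (.s 0x1708 4108 (n false (n true (n false e e) e) (n false e e)) .z .z))
 (.s (.s (n true (n false (n true (n false e e) e) (n false e e)) e) 16393 .z) (.s 44 39 (.s 123 44 (.s 158 44 .z)))
  (.s (.s (n false (n true (n true (n false (n false (n false (n false e e) (n false e e)) (n false (n false e e) (n false e e))) (n false e e)) e) e) (n false e e)) 16389 .z) (.s 44 39 (.s 123 44 (.s 158 44 .z)))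
  (.s (.s (n false (n true (n true (n false (n false (n false (n false e e) (n false e e)) (n false (n false e e) (n false e e))) (n false e e)) e) e) (n false e e)) 16389 .z) (.s 123 44 (.s 44 39 (.s 158 44 .z)))
  (.s .z (.s 44 39 (.s 48 43 (.s 123 44 (.s 158 44 .z))))
  (.s (.s (n true (n false (n true (n false (n false (n false (n false e e) (n false e e)) (n false (n false e e) (n false e e))) (n false e e)) e) (n true (n false e e) e)) e) 16390 .z) (.s 44 39 (.s 123 44 (.s 158 44 .z)))
  (.s (.s (n false e e) 16389 .z) (.s 44 39 (.s 123 44 (.s 158 44 .z)))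
  (.s (.s (n false (n true (n false e e) e) (n false e e)) 16392 .z) (.s 44 39 (.s 123 44 (.s 158 44 .z)))
  (.s (.s (n false (n true (n false e e) e) (n false e e)) 16392 .z) (.s 123 44 (.s 44 39 (.s 158 44 .z)))
  (.s .z (.s 44 39 (.s 123 44 (.s 158 44 (.s 48 43 .z))))
  (.s (.s (n true (n false e e) e) 16390 .z) (.s 44 39 (.s 123 44 (.s 158 44 .z)))
  (.s (.s (n false (n false (n true (n false (n false (n false (n false e e) (n false e e)) (n false (n false e e) (n false e e))) (n false e e)) e) (n true (n false e e) e)) (n false e e)) 16391 .z) (.s 44 39 (.s 123 44 (.s 158 44 .z)))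
  (.s (.s (n false (n true (n true (n false (n false (n false (n false e e) (n false e e)) (n false (n false e e) (n false e e))) (n false e e)) e) e) (n false e e)) 16389 .z) (.s 123 44 (.s 158 44 (.s 44 39 .z)))
  .z)))))))))))))

set_option maxRecDepth 100000 in
def A104 : AE :=
 (.s 4094 4104 (.s 45 39 (.s 48 45 (.s 93 45 (.s 123 45 (.s 158 45 (.s 130 121 .z))))))
 (.s 0x288 4107 (n false (n false e e) (n false e e)) (.s 0x70 4106 (n true (n false e e) e) (.s 0x8 4105 (n false e e) .z .z) .z) (.s 0x1708 4108 (n false (n true (n false e e) e) (n false e e)) .z .z))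
 (.s .z (.s 45 39 (.s 48 45 (.s 93 45 (.s 123 45 (.s 158 45 (.s 130 121 .z))))))
  (.s (.s (n false e e) 16390 .z) (.s 45 39 (.s 123 45 (.s 158 45 .z)))
  (.s (.s (n false (n false e e) (n false e e)) 16390 .z) (.s 45 39 (.s 48 45 (.s 123 45 (.s 158 45 (.s 130 121 .z)))))
  (.s (.s (n false (n false e e) (n false e e)) 16392 .z) (.s 45 39 (.s 123 45 (.s 158 45 .z)))
  .z)))))

set_option maxRecDepth 100000 in
def A105 : AE :=
 (.s 4094 4104 (.s 69 13 (.s 121 14 (.s 122 14 .z)))
 (.s 0x1708 4108 (n false (n true (n false e e) e) (n false e e)) (.s 0x288 4107 (n false (n false e e) (n false e e)) (.s 0x70 4106 (n true (n false e e) e) .z .z) .z) (.s 0xbaa2288870 4105 (n false (n true (n false (n false (n false (n false e e) (n false e e)) (n false (n false e e) (n false e e))) (n false e e)) e) (n true (n false e e) e)) (.s 0x3ea88a220 4103 (n true (n true (n false (n false (n false (n false e e) (n false e e)) (n false (n false e e) (n false e e))) (n false e e)) e) e) .z .z) .z))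
 (.s .z (.s 69 13 (.s 121 14 (.s 122 14 .z)))
  .z))

set_option maxRecDepth 100000 in
def A106 : AE :=
 (.s 4096 4104 (.s 69 14 (.s 75 14 (.s 69 20 (.s 109 13 (.s 110 14 (.s 123 74 (.s 122 87 (.s 130 69 (.s 123 102 (.s 158 74 (.s 158 102 .z)))))))))))
 (.s 0x288 4107 (n false (n false e e) (n false e e)) (.s 0x70 4106 (n true (n false e e) e) (.s 0x8 4117 (n false e e) .z .z) .z) (.s 0x1708 4108 (n false (n true (n false e e) e) (n false e e)) .z .z))
 (.s (.s (n true (n true (n false (n false (n false (n false e e) (n false e e)) (n false (n false e e) (n false e e))) (n false e e)) e) e) 16388 (.s (n false (n true (n false (n false (n false (n false e e) (n false e e)) (n false (n false e e) (n false e e))) (n false e e)) e) (n true (n false (n true (n false e e) e) (n false e e)) e)) 16395 .z)) (.s 69 14 (.s 69 20 (.s 109 13 (.s 123 74 (.s 122 87 (.s 130 69 (.s 123 102 (.s 158 74 (.s 158 102 .z)))))))))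
  (.s .z (.s 69 14 (.s 75 14 (.s 69 20 (.s 109 13 (.s 110 14 (.s 123 74 (.s 122 87 (.s 130 69 (.s 123 102 (.s 158 74 (.s 158 102 .z)))))))))))
  (.s (.s (n false (n true (n false (n false (n false (n false e e) (n false e e)) (n false (n false e e) (n false e e))) (n false e e)) e) (n true (n false (n true (n false e e) e) (n false e e)) e)) 16395 .z) (.s 69 14 (.s 75 14 (.s 69 20 (.s 109 13 (.s 123 74 (.s 122 87 (.s 130 69 (.s 123 102 (.s 158 74 (.s 158 102 .z))))))))))
  (.s (.s (n false (n true (n false (n false (n false (n false e e) (n false e e)) (n false (n false e e) (n false e e))) (n false e e)) e) (n true (n false e e) e)) 16390 (.s (n false (n true (n false (n false (n false (n false e e) (n false e e)) (n false (n false e e) (n false e e))) (n false e e)) e) (n true (n false (n true (n false e e) e) (n false e e)) e)) 16395 .z)) (.s 69 20 (.s 123 74 (.s 130 69 (.s 123 102 (.s 158 74 (.s 158 102 (.s 69 14 (.s 109 13 (.s 122 87 .z)))))))))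
  (.s (.s (n true (n false (n true (n false e e) e) (n false e e)) e) 16397 (.s (n false (n true (n false (n false (n false (n false e e) (n false e e)) (n false (n false e e) (n false e e))) (n false e e)) e) (n true (n false e e) e)) 16393 .z)) (.s 69 20 (.s 130 69 .z))
  (.s (.s (n false (n false e e) (n false e e)) 16393 .z) (.s 69 14 (.s 109 13 (.s 123 74 (.s 122 87 (.s 130 69 (.s 123 102 (.s 158 74 (.s 158 102 .z))))))))
  (.s (.s (n true (n false e e) e) 16393 (.s (n true (n false (n true (n false e e) e) (n false e e)) e) 16397 (.s (n true (n true (n false (n false (n false (n false e e) (n false e e)) (n false (n false e e) (n false e e))) (n false e e)) e) e) 16391 .z))) .z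
  (.s (.s (n true (n true (n false (n false (n false (n false e e) (n false e e)) (n false (n false e e) (n false e e))) (n false e e)) e) e) 16391 (.s (n false e e) 16391 .z)) (.s 122 87 (.s 130 69 (.s 123 102 (.s 158 102 .z))))
  (.s (.s (n true (n true (n false (n false (n false (n false e e) (n false e e)) (n false (n false e e) (n false e e))) (n false e e)) e) e) 16391 .z) (.s 69 20 (.s 122 87 (.s 130 69 (.s 123 102 (.s 158 102 .z)))))
  (.s (.s (n true (n false e e) e) 16392 (.s (n false (n false e e) (n false e e)) 16391 .z)) (.s 69 14 (.s 109 13 (.s 122 87 (.s 130 69 (.s 123 102 (.s 158 102 .z))))))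
  (.s (.s (n true (n false e e) e) 16393 .z) (.s 69 14 (.s 123 102 (.s 158 102 .z)))
  (.s (.s (n true (n false (n true (n false e e) e) (n false e e)) e) 16408 (.s (n true (n true (n false (n false (n false (n false e e) (n false e e)) (n false (n false e e) (n false e e))) (n false e e)) e) e) 16391 (.s (n false e e) 16392 .z))) .z
  (.s (.s (n false e e) 16392 (.s (n true (n false (n true (n false e e) e) (n false e e)) e) 16397 (.s (n true (n true (n false (n false (n false (n false e e) (n false e e)) (n false (n false e e) (n false e e))) (n false e e)) e) e) 16391 .z))) .z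
  (.s (.s (n true (n true (n false (n false (n false (n false e e) (n false e e)) (n false (n false e e) (n false e e))) (n false e e)) e) e) 16391 (.s (n true (n false (n true (n false e e) e) (n false e e)) e) 16397 .z)) (.s 69 20 (.s 130 69 .z))
  (.s (.s (n true (n false (n true (n false e e) e) (n false e e)) e) 16396 (.s (n false (n true (n false (n false (n false (n false e e) (n false e e)) (n false (n false e e) (n false e e))) (n false e e)) e) (n true (n false (n true (n false e e) e) (n false e e)) e)) 16395 .z)) (.s 69 14 (.s 75 14 (.s 69 20 (.s 109 13 (.s 123 74 (.s 130 69 (.s 123 102 (.s 158 74 (.s 158 102 .z)))))))))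
  (.s (.s (n false e e) 16393 (.s (n true (n true (n false (n false (n false (n false e e) (n false e e)) (n false (n false e e) (n false e e))) (n false e e)) e) e) 16391 .z)) .z
  (.s (.s (n true (n true (n false (n false (n false (n false e e) (n false e e)) (n false (n false e e) (n false e e))) (n false e e)) e) e) 16391 (.s (n false e e) 16392 .z)) (.s 123 102 (.s 158 102 .z))
  (.s (.s (n false e e) 16392 (.s (n true (n true (n false (n false (n false (n false e e) (n false e e)) (n false (n false e e) (n false e e))) (n false e e)) e) e) 16390 (.s (n false (n true (n false (n false (n false (n false e e) (n false e e)) (n false (n false e e) (n false e e))) (n false e e)) e) (n true (n false e e) e)) 16393 .z))) (.s 123 102 (.s 158 102 .z))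
  (.s (.s (n false e e) 16391 (.s (n false (n true (n false (n false (n false (n false e e) (n false e e)) (n false (n false e e) (n false e e))) (n false e e)) e) (n true (n false e e) e)) 16393 .z)) (.s 122 87 (.s 130 69 (.s 123 102 (.s 158 102 .z))))
  (.s (.s (n true (n false e e) e) 16393 (.s (n true (n true (n false (n false (n false (n false e e) (n false e e)) (n false (n false e e) (n false e e))) (n false e e)) e) e) 16391 .z)) (.s 123 102 (.s 158 102 .z))
  (.s (.s (n true (n true (n false (n false (n false (n false e e) (n false e e)) (n false (n false e e) (n false e e))) (n false e e)) e) e) 16391 (.s (n false e e) 16392 (.s (n true (n false (n true (n false e e) e) (n false e e)) e) 16397 .z))) .z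
  (.s (.s (n true (n false (n true (n false e e) e) (n false e e)) e) 16397 (.s (n true (n false e e) e) 16393 .z)) (.s 69 14 .z)
  (.s (.s (n false (n false e e) (n false e e)) 16394 .z) (.s 69 14 (.s 123 74 (.s 123 102 (.s 158 74 (.s 158 102 .z)))))
  (.s (.s (n false (n false e e) (n false e e)) 16392 .z) (.s 69 14 (.s 69 20 (.s 109 13 (.s 123 74 (.s 122 87 (.s 130 69 (.s 123 102 (.s 158 74 (.s 158 102 .z)))))))))
  (.s (.s (n false (n true (n false (n false (n false (n false e e) (n false e e)) (n false (n false e e) (n false e e))) (n false e e)) e) (n false e e)) 16392 (.s (n false e e) 16392 (.s (n true (n false (n true (n false e e) e) (n false e e)) e) 16397 .z))) .z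
  (.s (.s (n true (n false (n true (n false e e) e) (n false e e)) e) 16397 (.s (n false (n true (n false (n false (n false (n false e e) (n false e e)) (n false (n false e e) (n false e e))) (n false e e)) e) (n true (n false e e) e)) 16393 (.s (n false (n true (n false e e) e) (n false e e)) 16394 .z))) (.s 130 69 .z)
  (.s (.s (n false (n true (n false (n false (n false (n false e e) (n false e e)) (n false (n false e e) (n false e e))) (n false e e)) e) (n true (n false e e) e)) 16393 .z) (.s 69 20 (.s 123 74 (.s 122 87 (.s 130 69 (.s 123 102 (.s 158 74 (.s 158 102 .z)))))))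
  (.s (.s (n false e e) 16393 (.s (n true (n true (n false (n false (n false (n false e e) (n false e e)) (n false (n false e e) (n false e e))) (n false e e)) e) e) 16390 (.s (n true (n true (n false (n false (n false (n false e e) (n false e e)) (n false (n false e e) (n false e e))) (n false e e)) e) e) 16391 .z))) .z
  (.s (.s (n false e e) 16390 (.s (n true (n true (n false (n false (n false (n false e e) (n false e e)) (n false (n false e e) (n false e e))) (n false e e)) e) e) 16391 (.s (n false e e) 16392 .z))) (.s 123 102 (.s 158 102 .z))
  (.s (.s (n false e e) 16391 (.s (n true (n true (n false (n false (n false (n false e e) (n false e e)) (n false (n false e e) (n false e e))) (n false e e)) e) e) 16391 .z)) (.s 122 87 (.s 130 69 (.s 123 102 (.s 158 102 .z))))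
  .z)))))))))))))))))))))))))))))))

end Pool.Agent.Helper91.ND1
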