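import Pool.Agent.Helper66.ND.Defs

/-! part of the certificate for the constant 25/48 (generated) -/

namespace Pool.Agent.Helper91.ND1

open Pool.Agent.Helper66.IL
open Pool.Agent.Helper66.IL.MB
open Pool.Agent.Helper66.ND

set_option maxRecDepth 100000 in
def A107 : AE :=
 (.s 4096 4104 (.s 73 7 (.s 72 17 (.s 114 0 (.s 75 44 .z))))
 (.s 0x70 4106 (n true (n false e e) e) (.s 0x8 4105 (n false e e) .z .z) .z)
 (.s (.s (n true (n false e e) e) 16388 .z) (.s 73 7 (.s 114 0 (.s 75 44 .z)))
  (.s (.s (n true (n true (n false (n true (n false e e) e) (n false e e)) e) e) 16392 .z) (.s 114 0 (.s 73 7 (.s 75 44 .z)))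
  (.s (.s (n false (n true (n false (n true (n false (n false (n false (n false e e) (n false e e)) (n false (n false e e) (n false e e))) (n false e e)) e) (n true (n false e e) e)) e) (n true (n false e e) e)) 16391 .z) (.s 114 0 (.s 73 7 (.s 75 44 .z)))
  (.s (.s (n false (n true (n false (n true (n false e e) e) (n false e e)) e) (n true (n false e e) e)) 16394 .z) (.s 73 7 (.s 114 0 (.s 75 44 .z)))
  (.s (.s (n true (n false (n false (n true (n false (n false (n false (n false e e) (n false e e)) (n false (n false e e) (n false e e))) (n false e e)) e) (n false (n false (n false (n false e e) (n false e e)) (n false (n false e e) (n false e e))) (n false e e))) (n false (n false (n false (n false e e) (n false e e)) (n false (n false e e) (n false e e))) (n false e e))) e) 16381 .z) (.s 73 7 (.s 114 0 (.s 75 44 .z)))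
  (.s (.s (n false e e) 16387 .z) (.s 73 7 (.s 75 44 .z))
  (.s (.s (n false (n true (n false (n true (n false e e) e) (n false e e)) e) (n true (n false e e) e)) 16394 .z) (.s 114 0 (.s 73 7 (.s 75 44 .z)))
  (.s (.s (n false e e) 16385 (.s (n true (n true (n false (n true (n false e e) e) (n false e e)) e) e) 16392 .z)) (.s 73 7 (.s 75 44 .z))
  (.s (.s (n true (n false e e) e) 16393 .z) (.s 73 7 .z)
  (.s (.s (n true (n false (n false (n true (n false (n false (n false (n false e e) (n false e e)) (n false (n false e e) (n false e e))) (n false e e)) e) (n true (n false e e) e)) (n false (n false (n false (n false e e) (n false e e)) (n false (n false e e) (n false e e))) (n false e e))) e) 16386 .z) (.s 73 7 (.s 114 0 (.s 75 44 .z)))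
  (.s (.s (n true (n false e e) e) 16392 .z) (.s 73 7 (.s 75 44 .z))
  (.s (.s (n false e e) 16387 (.s (n true (n false e e) e) 16393 .z)) (.s 73 7 .z)
  (.s (.s (n true (n true (n false (n true (n false e e) e) (n false e e)) e) e) 16392 .z) (.s 73 7 (.s 114 0 (.s 75 44 .z)))
  (.s (.s (n true (n true (n false (n true (n false e e) e) (n false e e)) e) e) 16392 (.s (n true (n false e e) e) 16393 .z)) (.s 73 7 .z)
  (.s (.s (n false (n false e e) e) 16392 (.s (n false (n true (n false e e) e) (n false e e)) 16390 .z)) (.s 73 7 (.s 75 44 .z))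
  (.s (.s (n false (n true (n false e e) e) (n false e e)) 16395 (.s (n false (n false e e) e) 16392 .z)) (.s 73 7 .z)
  (.s (.s (n false (n true (n false e e) e) (n false e e)) 16396 (.s (n false (n false e e) e) 16392 .z)) .z
  (.s (.s (n false (n true (n false (n true (n false (n false (n false (n false e e) (n false e e)) (n false (n false e e) (n false e e))) (n false e e)) e) (n true (n false e e) e)) e) (n true (n false e e) e)) 16391 .z) (.s 73 7 (.s 114 0 (.s 75 44 .z)))
  (.s (.s (n false e e) 16392 .z) (.s 73 7 .z)
  .z))))))))))))))))))))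

set_option maxRecDepth 100000 in
def A108 : AE :=
 (.s 4094 4104 (.s 74 7 .z)
 (.s 0xee10 4109 (n true (n false (n true (n false e e) e) (n false e e)) e) (.s 0x70 4106 (n true (n false e e) e) (.s 0x8 4102 (n false e e) .z .z) (.s 0x1708 4108 (n false (n true (n false e e) e) (n false e e)) .z .z)) (.s 0x3ea88a220 4103 (n true (n true (n false (n false (n false (n false e e) (n false e e)) (n false (n false e e) (n false e e))) (n false e e)) e) e) (.s 0x75445110 4099 (n true (n false (n false (n false (n false e e) (n false e e)) (n false (n false e e) (n false e e))) (n false e e)) e) .z .z) (.s 0xbaa2288870 4105 (n false (n true (n false (n false (n false (n false e e) (n false e e)) (n false (n false e e) (n false e e))) (n false e e)) e) (n true (n false e e) e)) .z .z)))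
 (.s .z (.s 74 7 .z)
  .z))

set_option maxRecDepth 100000 in
def A109 : AE :=
 (.s 4094 4097 (.s 45 44 .z)
 (.s 0x1708 4107 (n false (n true (n false e e) e) (n false e e)) .z .z)
 (.s .z (.s 45 44 .z)
  .z))

set_option maxRecDepth 100000 in
def A110 : AE :=
 (.s 4094 4100 (.s 69 17 .z)
 (.s 0x70 4105 (n true (n false e e) e) (.s 0x8 4104 (n false e e) .z .z) (.s 0x1708 4107 (n false (n true (n false e e) e) (n false e e)) .z .z))
 (.s .z (.s 69 17 .z)
  .z))

set_option maxRecDepth 100000 in
def A111 : AE :=
 (.s 4096 4100 (.s 73 14 (.s 75 13 (.s 48 48 (.s 52 39 (.s 73 20 .z)))))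
 (.s 0x288 4106 (n false (n false e e) (n false e e)) .z .z)
 (.s (.s (n true (n false e e) e) 16389 .z) (.s 73 14 (.s 48 48 (.s 52 39 (.s 73 20 .z))))
  (.s .z (.s 73 14 (.s 75 13 (.s 48 48 (.s 52 39 (.s 73 20 .z)))))
  .z)))

set_option maxRecDepth 100000 in
def A112 : AE :=
 (.s 4096 4097 (.s 77 7 (.s 105 0 .z))
 (.s 0x70 4117 (n true (n false e e) e) (.s 0x8 4104 (n false e e) .z .z) .z)
 (.s .z (.s 105 0 (.s 77 7 .z))
  (.s .z (.s 77 7 (.s 105 0 .z))
  (.s (.s (n false (n false e e) e) 16393 .z) (.s 77 7 .z)
  (.s (.s (n false (n false (n true (n false e e) e) (n false e e)) e) 16396 .z) (.s 77 7 .z)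
  (.s (.s (n true (n false e e) e) 16393 (.s (n true (n false (n false (n false (n false e e) (n false e e)) (n false (n false e e) (n false e e))) (n false e e)) e) 16389 .z)) .z
  (.s (.s (n false (n false e e) e) 16393 (.s (n true (n false (n false (n false (n false e e) (n false e e)) (n false (n false e e) (n false e e))) (n false e e)) e) 16389 .z)) .z
  (.s (.s (n true (n false e e) e) 16393 .z) (.s 77 7 .z)
  (.s (.s (n true (n false (n true (n false e e) e) (n false e e)) e) 16396 .z) (.s 77 7 .z)
  .z)))))))))

set_option maxRecDepth 100000 in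
def A113 : AE :=
 (.s 4094 4100 (.s 81 7 (.s 75 17 (.s 89 81 .z)))
 (.s 0x70 4105 (n true (n false e e) e) (.s 0x8 4104 (n false e e) .z .z) (.s 0x1708 4107 (n false (n true (n false e e) e) (n false e e)) .z .z))
 (.s (.s (n true (n false e e) e) 16388 .z) (.s 81 7 (.s 89 81 .z))
  (.s .z (.s 81 7 (.s 75 17 (.s 89 81 .z)))
  .z)))

set_option maxRecDepth 100000 in
def A114 : AE :=
 (.s 4096 4096 (.s 77 14 .z)
 (.s 0x1708 4106 (n false (n true (n false e e) e) (n false e e)) .z .z)
 (.s .z (.s 77 14 .z)
  .z))

set_option maxRecDepth 100000 in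
def A115 : AE :=
 (.s 4096 4096 (.s 79 14 .z)
 (.s 0x288 4111 (n false (n false e e) (n false e e)) (.s 0x70 4098 (n true (n false e e) e) (.s 0x8 4109 (n false e e) .z .z) .z) (.s 0x5d108 4108 (n false (n true (n false (n false e e) (n false e e)) e) (n false e e)) .z .z))
 (.s .z (.s 79 14 .z)
  .z))

set_option maxRecDepth 100000 in
def A116 : AE :=
 (.s 4096 4102 (.s 105 2 .z)
 (.s 0x288 4105 (n false (n false e e) (n false e e)) (.s 0x70 4104 (n true (n false e e) e) .z .z) (.s 0x1708 4106 (n false (n true (n false e e) e) (n false e e)) .z .z))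
 (.s .z (.s 105 2 .z)
  .z))

set_option maxRecDepth 100000 in
def A117 : AE :=
 (.s 4094 4102 (.s 107 2 .z)
 (.s 0xbea88a2208 4103 (n false (n true (n true (n false (n false (n false (n false e e) (n false e e)) (n false (n false e e) (n false e e))) (n false e e)) e) e) (n false e e)) (.s 0x1708 4106 (n false (n true (n false e e) e) (n false e e)) (.s 0x70 4104 (n true (n false e e) e) .z .z) .z) (.s 0x2baa22888708 4105 (n false (n false (n true (n false (n false (n false (n false e e) (n false e e)) (n false (n false e e) (n false e e))) (n false e e)) e) (n true (n false e e) e)) (n false e e)) .z .z))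
 (.s .z (.s 107 2 .z)
  .z))

set_option maxRecDepth 100000 in
def A118 : AE :=
 (.s 4096 4102 (.s 108 2 (.s 109 2 (.s 110 13 .z)))
 (.s 0x288 4117 (n false (n false e e) (n false e e)) (.s 0x70 4104 (n true (n false e e) e) .z .z) (.s 0x1708 4106 (n false (n true (n false e e) e) (n false e e)) .z .z))
 (.s .z (.s 109 2 (.s 108 2 (.s 110 13 .z)))
  (.s (.s (n false (n true (n false (n false (n false (n false e e) (n false e e)) (n false (n false e e) (n false e e))) (n false e e)) e) (n true (n false (n true (n false e e) e) (n false e e)) e)) 16393 .z) (.s 108 2 (.s 109 2 .z))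
  (.s (.s (n false (n true (n false e e) e) (n false e e)) 16393 .z) (.s 108 2 (.s 109 2 .z))
  (.s (.s (n false (n false e e) (n false e e)) 16389 .z) (.s 108 2 (.s 109 2 .z))
  (.s (.s (n false (n true (n false (n true (n false e e) e) (n false e e)) e) (n false e e)) 16396 .z) (.s 108 2 (.s 109 2 .z))
  (.s (.s (n false (n false e e) (n false e e)) 16393 .z) (.s 108 2 .z)
  (.s (.s (n false (n true (n false (n false (n false (n false e e) (n false e e)) (n false (n false e e) (n false e e))) (n false e e)) e) (n true (n false (n true (n false e e) e) (n false e e)) e)) 16393 .z) (.s 109 2 (.s 108 2 .z))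
  (.s (.s (n false (n true (n false (n false (n false (n false e e) (n false e e)) (n false (n false e e) (n false e e))) (n false e e)) e) (n true (n false (n false (n false (n false e e) (n false e e)) (n false (n false e e) (n false e e))) (n false e e)) e)) 16383 .z) (.s 108 2 (.s 109 2 .z))
  (.s (.s (n false (n true (n true (n false (n false (n false (n false e e) (n false e e)) (n false (n false e e) (n false e e))) (n false e e)) e) e) (n false e e)) 16390 .z) (.s 108 2 (.s 109 2 .z))
  (.s (.s (n true (n false (n true (n false (n false (n false (n false e e) (n false e e)) (n false (n false e e) (n false e e))) (n false e e)) e) (n true (n false e e) e)) e) 16403 .z) (.s 108 2 (.s 109 2 .z))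
  .z)))))))))))

set_option maxRecDepth 100000 in
def A119 : AE :=
 (.s 4096 4101 (.s 54 39 (.s 58 34 (.s 58 37 (.s 53 48 (.s 54 48 (.s 54 52 (.s 75 34 (.s 93 54 (.s 123 53 (.s 123 54 (.s 126 54 (.s 158 53 (.s 158 54 .z)))))))))))))
 (.s 0x70 4103 (n true (n false e e) e) (.s 0x8 4102 (n false e e) .z .z) (.s 0x1708 4111 (n false (n true (n false e e) e) (n false e e)) .z .z))
 (.s (.s (n true (n false (n false (n false e e) (n false e e)) (n false e e)) e) 16393 .z) (.s 54 39 (.s 58 34 (.s 58 37 (.s 54 48 (.s 54 52 (.s 75 34 (.s 93 54 (.s 123 54 (.s 126 54 (.s 158 54 .z))))))))))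
  (.s .z (.s 54 39 (.s 58 34 (.s 58 37 (.s 53 48 (.s 54 48 (.s 54 52 (.s 75 34 (.s 93 54 (.s 123 53 (.s 123 54 (.s 126 54 (.s 158 53 (.s 158 54 .z)))))))))))))
  (.s (.s (n true (n false (n true (n false e e) e) (n false e e)) e) 16402 .z) (.s 54 39 (.s 58 34 (.s 58 37 (.s 54 48 (.s 54 52 (.s 75 34 (.s 93 54 (.s 123 53 (.s 123 54 (.s 126 54 (.s 158 53 (.s 158 54 .z))))))))))))
  (.s (.s (n false (n false (n false (n false e e) (n false e e)) (n false e e)) (n false e e)) 16394 (.s (n true (n false e e) e) 16385 (.s (n false (n true (n false (n false (n false e e) (n false e e)) (n false (n false e e) (n false e e))) e) (n false e e)) 16403 .z))) (.s 54 39 (.s 54 48 (.s 54 52 (.s 93 54 (.s 123 54 (.s 126 54 (.s 158 54 .z)))))))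
  (.s (.s (n false e e) 16384 (.s (n false (n false (n false (n false e e) (n false e e)) (n false e e)) (n false e e)) 16392 .z)) (.s 54 39 (.s 54 48 (.s 54 52 (.s 75 34 (.s 93 54 (.s 123 53 (.s 123 54 (.s 126 54 (.s 158 53 (.s 158 54 .z))))))))))
  (.s .z (.s 53 48 (.s 54 48 (.s 75 34 (.s 93 54 (.s 123 53 (.s 158 53 (.s 54 39 (.s 58 34 (.s 58 37 (.s 54 52 (.s 123 54 (.s 126 54 (.s 158 54 .z)))))))))))))
  (.s (.s (n false (n true (n false e e) e) (n false e e)) 16396 (.s (n false (n false (n false (n false e e) (n false e e)) (n false e e)) (n false e e)) 16394 (.s (n false (n true (n false (n false (n false e e) (n false e e)) (n false (n false e e) (n false e e))) e) (n false e e)) 16403 .z))) (.s 54 39 (.s 54 48 (.s 123 54 (.s 126 54 (.s 158 54 .z)))))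
  (.s (.s (n true (n false e e) e) 16387 (.s (n false (n false (n false (n false e e) (n false e e)) (n false e e)) (n false e e)) 16394 (.s (n false (n true (n false (n false (n false e e) (n false e e)) (n false (n false e e) (n false e e))) e) (n false e e)) 16403 .z))) (.s 54 39 (.s 54 48 (.s 93 54 (.s 123 54 (.s 126 54 (.s 158 54 .z))))))
  (.s (.s (n false (n true (n false e e) e) (n false e e)) 16387 (.s (n true (n false (n false (n false e e) (n false e e)) (n false e e)) e) 16391 (.s (n false (n true (n false (n false (n false e e) (n false e e)) (n false (n false e e) (n false e e))) e) (n false e e)) 16399 .z))) (.s 54 39 (.s 54 48 (.s 54 52 (.s 75 34 (.s 93 54 (.s 123 53 (.s 123 54 (.s 126 54 (.s 158 53 (.s 158 54 .z))))))))))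
  (.s (.s (n false e e) 16386 (.s (n false (n false (n false (n false e e) (n false e e)) (n false e e)) (n false e e)) 16394 (.s (n false (n true (n false (n false (n false e e) (n false e e)) (n false (n false e e) (n false e e))) e) (n false e e)) 16403 .z))) (.s 54 39 (.s 54 48 (.s 93 54 (.s 123 54 (.s 126 54 (.s 158 54 .z))))))
  (.s (.s (n false e e) 16388 .z) (.s 54 39 (.s 123 54 (.s 158 54 .z)))
  (.s (.s (n false (n true (n false e e) e) (n false e e)) 16395 (.s (n true (n false (n false (n false e e) (n false e e)) (n false e e)) e) 16393 .z)) (.s 54 39 (.s 54 48 (.s 75 34 (.s 93 54 (.s 123 54 (.s 126 54 (.s 158 54 .z)))))))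
  (.s (.s (n false (n true (n false e e) e) (n false e e)) 16396 (.s (n true (n false (n false (n false e e) (n false e e)) (n false e e)) e) 16393 .z)) (.s 54 39 (.s 54 48 (.s 75 34 (.s 123 54 (.s 126 54 (.s 158 54 .z))))))
  (.s (.s (n true (n false e e) e) 16387 (.s (n false (n true (n false (n false (n false e e) (n false e e)) (n false (n false e e) (n false e e))) e) (n false e e)) 16403 (.s (n false (n false (n false (n false e e) (n false e e)) (n false e e)) (n false e e)) 16394 .z))) (.s 54 39 (.s 54 48 (.s 93 54 (.s 123 54 (.s 126 54 (.s 158 54 .z))))))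
  (.s (.s (n false (n true (n false e e) e) (n false e e)) 16393 (.s (n false (n false (n false (n false e e) (n false e e)) (n false e e)) (n false e e)) 16392 .z)) (.s 54 39 (.s 54 48 (.s 54 52 (.s 75 34 (.s 93 54 (.s 123 53 (.s 123 54 (.s 126 54 (.s 158 53 (.s 158 54 .z))))))))))
  (.s (.s (n true (n false (n false (n true (n false (n false (n false (n false e e) (n false e e)) (n false (n false e e) (n false e e))) (n false e e)) e) (n false e e)) (n false e e)) e) 16390 (.s (n false e e) 16384 .z)) (.s 54 39 (.s 54 48 (.s 54 52 (.s 75 34 (.s 93 54 (.s 123 54 (.s 126 54 (.s 158 54 .z))))))))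
  (.s (.s (n true (n false e e) e) 16387 .z) (.s 54 39 (.s 54 48 (.s 75 34 (.s 93 54 (.s 123 53 (.s 123 54 (.s 126 54 (.s 158 53 (.s 158 54 .z)))))))))
  (.s (.s (n false e e) 16387 .z) (.s 54 39 (.s 54 48 (.s 75 34 (.s 123 53 (.s 123 54 (.s 126 54 (.s 158 53 (.s 158 54 .z))))))))
  (.s (.s (n true (n false (n false (n false e e) (n false e e)) (n false e e)) e) 16393 (.s (n false (n true (n false e e) e) (n false e e)) 16393 .z)) (.s 54 39 (.s 54 48 (.s 54 52 (.s 75 34 (.s 93 54 (.s 123 54 (.s 126 54 (.s 158 54 .z))))))))
  (.s (.s (n true (n false (n true (n false e e) e) (n false e e)) e) 16404 .z) (.s 54 39 (.s 58 34 (.s 58 37 (.s 54 48 (.s 54 52 (.s 75 34 (.s 93 54 (.s 123 54 (.s 126 54 (.s 158 54 .z))))))))))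
  (.s (.s (n true (n false e e) e) 16385 .z) (.s 54 39 (.s 53 48 (.s 54 48 (.s 54 52 (.s 75 34 (.s 93 54 (.s 123 53 (.s 123 54 (.s 126 54 (.s 158 53 (.s 158 54 .z)))))))))))
  (.s (.s (n true (n false e e) e) 16389 .z) (.s 54 39 (.s 123 54 (.s 158 54 .z)))
  (.s (.s (n false e e) 16386 (.s (n true (n false (n false (n false e e) (n false e e)) (n false e e)) e) 16393 .z)) (.s 54 39 (.s 54 48 (.s 75 34 (.s 93 54 (.s 123 54 (.s 126 54 (.s 158 54 .z)))))))
  (.s (.s (n true (n false (n false (n false e e) (n false e e)) (n false e e)) e) 16393 (.s (n false e e) 16384 .z)) (.s 54 39 (.s 54 48 (.s 54 52 (.s 75 34 (.s 93 54 (.s 123 54 (.s 126 54 (.s 158 54 .z))))))))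
  (.s (.s (n true (n false e e) e) 16388 .z) (.s 54 39 (.s 54 48 (.s 75 34 (.s 123 53 (.s 123 54 (.s 126 54 (.s 158 53 (.s 158 54 .z))))))))
  (.s (.s (n true (n false e e) e) 16388 (.s (n true (n false (n false (n false e e) (n false e e)) (n false e e)) e) 16393 .z)) (.s 54 39 (.s 54 48 (.s 75 34 (.s 123 54 (.s 126 54 (.s 158 54 .z))))))
  (.s (.s (n false (n true (n false e e) e) (n false e e)) 16397 .z) (.s 54 39 (.s 123 54 (.s 158 54 .z)))
  (.s (.s (n false e e) 16384 (.s (n true (n false (n false (n false e e) (n false e e)) (n false e e)) e) 16393 .z)) (.s 54 39 (.s 54 48 (.s 54 52 (.s 75 34 (.s 93 54 (.s 123 54 (.s 126 54 (.s 158 54 .z))))))))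
  (.s .z (.s 123 54 (.s 158 54 (.s 54 39 (.s 58 34 (.s 58 37 (.s 53 48 (.s 54 48 (.s 54 52 (.s 75 34 (.s 93 54 (.s 123 53 (.s 126 54 (.s 158 53 .z)))))))))))))
  (.s (.s (n true (n false (n true (n false e e) e) (n false e e)) e) 16404 (.s (n true (n false (n false (n false (n false e e) (n false e e)) (n false (n false e e) (n false e e))) (n false e e)) e) 16387 .z)) (.s 54 39 (.s 58 37 (.s 54 48 (.s 54 52 (.s 75 34 (.s 93 54 (.s 123 54 (.s 126 54 (.s 158 54 .z)))))))))
  (.s (.s (n true (n false e e) e) 16385 (.s (n false (n true (n false (n false (n false e e) (n false e e)) (n false (n false e e) (n false e e))) e) (n false e e)) 16403 (.s (n false (n false (n false (n false e e) (n false e e)) (n false e e)) (n false e e)) 16394 .z))) (.s 54 39 (.s 54 48 (.s 54 52 (.s 93 54 (.s 123 54 (.s 126 54 (.s 158 54 .z)))))))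
  (.s (.s (n true (n false e e) e) 16385 (.s (n false (n false (n false (n false e e) (n false e e)) (n false e e)) (n false e e)) 16392 .z)) (.s 54 39 (.s 54 48 (.s 54 52 (.s 75 34 (.s 93 54 (.s 123 53 (.s 123 54 (.s 126 54 (.s 158 53 (.s 158 54 .z))))))))))
  (.s (.s (n false (n true (n false e e) e) (n false e e)) 16396 (.s (n false (n true (n false (n false (n false e e) (n false e e)) (n false (n false e e) (n false e e))) e) (n false e e)) 16403 (.s (n false (n false (n false (n false e e) (n false e e)) (n false e e)) (n false e e)) 16394 .z))) (.s 54 39 (.s 54 48 (.s 123 54 (.s 126 54 (.s 158 54 .z)))))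
  (.s (.s (n false e e) 16387 (.s (n true (n false (n false (n false e e) (n false e e)) (n false e e)) e) 16393 .z)) (.s 54 39 (.s 54 48 (.s 75 34 (.s 123 54 (.s 126 54 (.s 158 54 .z))))))
  (.s (.s (n false e e) 16384 .z) (.s 54 39 (.s 53 48 (.s 54 48 (.s 54 52 (.s 75 34 (.s 93 54 (.s 123 53 (.s 123 54 (.s 126 54 (.s 158 53 (.s 158 54 .z)))))))))))
  (.s (.s (n true (n false (n true (n false e e) e) (n false e e)) e) 16404 (.s (n false e e) 16384 .z)) (.s 54 39 (.s 54 48 (.s 54 52 (.s 75 34 (.s 93 54 (.s 123 54 (.s 126 54 (.s 158 54 .z))))))))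
  (.s (.s (n true (n false (n false (n false e e) (n false e e)) (n false e e)) e) 16391 .z) (.s 54 39 (.s 58 34 (.s 58 37 (.s 54 48 (.s 54 52 (.s 75 34 (.s 93 54 (.s 123 53 (.s 123 54 (.s 126 54 (.s 158 53 (.s 158 54 .z))))))))))))
  (.s (.s (n true (n false (n false (n true (n false (n false (n false (n false e e) (n false e e)) (n false (n false e e) (n false e e))) (n false e e)) e) (n false e e)) (n false e e)) e) 16388 .z) (.s 54 39 (.s 58 34 (.s 58 37 (.s 54 48 (.s 54 52 (.s 75 34 (.s 93 54 (.s 123 53 (.s 123 54 (.s 126 54 (.s 158 53 (.s 158 54 .z))))))))))))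
  (.s (.s (n false e e) 16384 (.s (n true (n false (n false (n true (n false (n false (n false (n false e e) (n false e e)) (n false (n false e e) (n false e e))) (n false e e)) e) (n false e e)) (n false e e)) e) 16388 .z)) (.s 54 39 (.s 54 48 (.s 54 52 (.s 75 34 (.s 93 54 (.s 123 53 (.s 123 54 (.s 126 54 (.s 158 53 (.s 158 54 .z))))))))))
  (.s (.s (n true (n false e e) e) 16385 (.s (n true (n false (n false (n true (n false (n false (n false (n false e e) (n false e e)) (n false (n false e e) (n false e e))) (n false e e)) e) (n false e e)) (n false e e)) e) 16388 .z)) (.s 54 39 (.s 54 48 (.s 54 52 (.s 75 34 (.s 93 54 (.s 123 53 (.s 123 54 (.s 126 54 (.s 158 53 (.s 158 54 .z))))))))))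
  (.s (.s (n false (n true (n false e e) e) (n false e e)) 16395 (.s (n false (n false (n false (n false e e) (n false e e)) (n false e e)) (n false e e)) 16394 (.s (n false (n true (n false (n false (n false e e) (n false e e)) (n false (n false e e) (n false e e))) e) (n false e e)) 16403 .z))) (.s 54 39 (.s 54 48 (.s 93 54 (.s 123 54 (.s 126 54 (.s 158 54 .z))))))
  (.s (.s (n true (n false e e) e) 16385 (.s (n false (n false (n false (n false e e) (n false e e)) (n false e e)) (n false e e)) 16394 (.s (n false (n true (n false (n false (n false e e) (n false e e)) (n false (n false e e) (n false e e))) e) (n false e e)) 16403 .z))) (.s 54 39 (.s 54 48 (.s 54 52 (.s 93 54 (.s 123 54 (.s 126 54 (.s 158 54 .z)))))))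
  (.s (.s (n false e e) 16387 (.s (n false (n true (n false (n false (n false e e) (n false e e)) (n false (n false e e) (n false e e))) e) (n false e e)) 16403 (.s (n false (n false (n false (n false e e) (n false e e)) (n false e e)) (n false e e)) 16394 .z))) (.s 54 39 (.s 54 48 (.s 123 54 (.s 126 54 (.s 158 54 .z)))))
  (.s (.s (n true (n false e e) e) 16388 (.s (n false (n false (n false (n false e e) (n false e e)) (n false e e)) (n false e e)) 16394 (.s (n false (n true (n false (n false (n false e e) (n false e e)) (n false (n false e e) (n false e e))) e) (n false e e)) 16403 .z))) (.s 54 39 (.s 54 48 (.s 123 54 (.s 126 54 (.s 158 54 .z)))))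
  (.s .z (.s 75 34 (.s 54 39 (.s 58 34 (.s 58 37 (.s 53 48 (.s 54 48 (.s 54 52 (.s 93 54 (.s 123 53 (.s 123 54 (.s 126 54 (.s 158 53 (.s 158 54 .z)))))))))))))
  (.s (.s (n false e e) 16386 (.s (n true (n false (n false (n true (n false (n false (n false (n false e e) (n false e e)) (n false (n false e e) (n false e e))) (n false e e)) e) (n false e e)) (n false e e)) e) 16390 .z)) (.s 54 39 (.s 54 48 (.s 75 34 (.s 93 54 (.s 123 54 (.s 126 54 (.s 158 54 .z)))))))
  (.s (.s (n true (n false (n true (n false e e) e) (n false e e)) e) 16404 (.s (n true (n false (n false (n false (n false e e) (n false e e)) (n false (n false e e) (n false e e))) (n false e e)) e) 16387 (.s (n false e e) 16384 .z))) (.s 54 39 (.s 54 48 (.s 54 52 (.s 75 34 (.s 93 54 (.s 123 54 (.s 126 54 (.s 158 54 .z))))))))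
  (.s (.s (n false (n true (n false e e) e) (n false e e)) 16395 (.s (n true (n true (n false e e) e) e) 16390 (.s (n false e e) 16388 .z))) (.s 54 39 (.s 123 54 (.s 158 54 .z)))
  (.s (.s (n false e e) 16387 (.s (n true (n false (n true (n false e e) e) (n false e e)) e) 16404 (.s (n true (n false (n false (n false (n false e e) (n false e e)) (n false (n false e e) (n false e e))) (n false e e)) e) 16391 .z))) (.s 54 39 (.s 54 48 (.s 123 54 (.s 126 54 (.s 158 54 .z)))))
  (.s (.s (n false e e) 16386 (.s (n true (n false (n true (n false e e) e) (n false e e)) e) 16404 (.s (n true (n false (n false (n false (n false e e) (n false e e)) (n false (n false e e) (n false e e))) (n false e e)) e) 16391 .z))) (.s 54 39 (.s 54 48 (.s 93 54 (.s 123 54 (.s 126 54 (.s 158 54 .z))))))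
  (.s (.s (n true (n false (n false (n false e e) (n false e e)) (n false e e)) e) 16393 (.s (n false (n true (n false e e) e) (n false e e)) 16387 .z)) (.s 54 39 (.s 58 34 (.s 54 48 (.s 54 52 (.s 75 34 (.s 93 54 (.s 123 54 (.s 126 54 (.s 158 54 .z)))))))))
  (.s (.s (n false (n true (n false e e) e) (n false e e)) 16387 (.s (n false (n true (n false (n false (n false e e) (n false e e)) (n false (n false e e) (n false e e))) e) (n false e e)) 16399 .z)) (.s 54 39 (.s 53 48 (.s 54 48 (.s 54 52 (.s 75 34 (.s 93 54 (.s 123 53 (.s 123 54 (.s 126 54 (.s 158 53 (.s 158 54 .z)))))))))))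
  (.s (.s (n true (n false (n false (n false e e) (n false e e)) (n false e e)) e) 16391 (.s (n false (n true (n false e e) e) (n false e e)) 16387 (.s (n false (n true (n false (n false (n false e e) (n false e e)) (n false (n false e e) (n false e e))) e) (n false e e)) 16399 .z))) (.s 54 39 (.s 54 48 (.s 54 52 (.s 75 34 (.s 93 54 (.s 123 53 (.s 123 54 (.s 126 54 (.s 158 53 (.s 158 54 .z))))))))))
  (.s (.s (n true (n false (n false (n true (n false (n false (n false (n false e e) (n false e e)) (n false (n false e e) (n false e e))) (n false e e)) e) (n false e e)) (n false e e)) e) 16390 (.s (n true (n false (n false (n false (n false e e) (n false e e)) (n false (n false e e) (n false e e))) (n false e e)) e) 16387 .z)) (.s 54 39 (.s 58 37 (.s 54 48 (.s 54 52 (.s 75 34 (.s 93 54 (.s 123 54 (.s 126 54 (.s 158 54 .z)))))))))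
  (.s (.s (n true (n false e e) e) 16388 .z) (.s 123 54 (.s 54 39 (.s 54 48 (.s 75 34 (.s 123 53 (.s 126 54 (.s 158 53 (.s 158 54 .z))))))))
  (.s (.s (n false e e) 16386 (.s (n true (n false (n false (n true (n false (n false (n false (n false e e) (n false e e)) (n false (n false e e) (n false e e))) (n false e e)) e) (n false e e)) (n false e e)) e) 16390 .z)) (.s 93 54 (.s 126 54 (.s 54 39 (.s 54 48 (.s 75 34 (.s 123 54 (.s 158 54 .z)))))))
  (.s (.s (n false e e) 16384 (.s (n true (n false (n false (n true (n false (n false (n false (n false e e) (n false e e)) (n false (n false e e) (n false e e))) (n false e e)) e) (n false e e)) (n false e e)) e) 16390 .z)) (.s 54 39 (.s 54 48 (.s 54 52 (.s 75 34 (.s 93 54 (.s 123 54 (.s 126 54 (.s 158 54 .z))))))))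
  (.s (.s (n false (n true (n false e e) e) (n false e e)) 16387 (.s (n true (n false (n false (n false e e) (n false e e)) (n false e e)) e) 16391 .z)) (.s 54 39 (.s 58 34 (.s 54 48 (.s 54 52 (.s 75 34 (.s 93 54 (.s 123 53 (.s 123 54 (.s 126 54 (.s 158 53 (.s 158 54 .z)))))))))))
  (.s (.s (n false (n true (n false e e) e) (n false e e)) 16393 (.s (n true (n false (n false (n true (n false (n false (n false (n false e e) (n false e e)) (n false (n false e e) (n false e e))) (n false e e)) e) (n false e e)) (n false e e)) e) 16390 .z)) (.s 54 39 (.s 54 48 (.s 54 52 (.s 75 34 (.s 93 54 (.s 123 54 (.s 126 54 (.s 158 54 .z))))))))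
  (.s (.s (n true (n false (n false (n false e e) (n false e e)) (n false e e)) e) 16393 (.s (n false (n true (n false e e) e) (n false e e)) 16387 (.s (n false (n true (n false (n false (n false e e) (n false e e)) (n false (n false e e) (n false e e))) e) (n false e e)) 16399 .z))) (.s 54 39 (.s 54 48 (.s 54 52 (.s 75 34 (.s 93 54 (.s 123 54 (.s 126 54 (.s 158 54 .z))))))))
  (.s (.s (n true (n false e e) e) 16387 (.s (n false (n false (n false (n false e e) (n false e e)) (n false e e)) (n false e e)) 16394 .z)) (.s 54 39 (.s 54 48 (.s 75 34 (.s 93 54 (.s 123 54 (.s 126 54 (.s 158 54 .z)))))))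
  (.s (.s (n true (n false (n false (n false e e) (n false e e)) (n false e e)) e) 16393 (.s (n true (n false e e) e) 16385 .z)) (.s 54 39 (.s 54 48 (.s 54 52 (.s 75 34 (.s 93 54 (.s 123 54 (.s 126 54 (.s 158 54 .z))))))))
  (.s (.s (n false (n true (n false e e) e) (n false e e)) 16387 (.s (n true (n false (n false (n false e e) (n false e e)) (n false e e)) e) 16393 (.s (n true (n false e e) e) 16385 .z))) (.s 54 39 (.s 54 48 (.s 54 52 (.s 75 34 (.s 93 54 (.s 123 54 (.s 126 54 (.s 158 54 .z))))))))
  (.s (.s (n true (n false (n false (n false e e) (n false e e)) (n false e e)) e) 16393 (.s (n true (n true (n false e e) e) e) 16390 (.s (n true (n true (n true (n false (n false (n false (n false e e) (n false e e)) (n false (n false e e) (n false e e))) (n false e e)) e) e) e) 16389 (.s (n false e e) 16388 .z)))) (.s 54 39 (.s 123 54 (.s 158 54 .z)))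
  (.s (.s (n false (n true (n false e e) e) (n false e e)) 16395 (.s (n false e e) 16388 .z)) (.s 54 39 (.s 123 54 (.s 158 54 .z)))
  (.s (.s (n false e e) 16387 (.s (n false (n false (n false (n false e e) (n false e e)) (n false e e)) (n false e e)) 16394 (.s (n false (n true (n false (n false (n false e e) (n false e e)) (n false (n false e e) (n false e e))) e) (n false e e)) 16403 .z))) (.s 54 39 (.s 54 48 (.s 123 54 (.s 126 54 (.s 158 54 .z)))))
  (.s (.s (n false (n true (n false e e) e) (n false e e)) 16393 (.s (n false (n true (n false (n false (n false e e) (n false e e)) (n false (n false e e) (n false e e))) e) (n false e e)) 16403 (.s (n false (n false (n false (n false e e) (n false e e)) (n false e e)) (n false e e)) 16394 .z))) (.s 54 39 (.s 54 48 (.s 54 52 (.s 93 54 (.s 123 54 (.s 126 54 (.s 158 54 .z)))))))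
  (.s (.s (n true (n false (n false (n false e e) (n false e e)) (n false e e)) e) 16393 (.s (n true (n true (n false e e) e) e) 16390 (.s (n false e e) 16388 .z))) (.s 54 39 (.s 123 54 (.s 158 54 .z)))
  (.s (.s (n false (n true (n false e e) e) (n false e e)) 16387 (.s (n true (n false (n false (n false e e) (n false e e)) (n false e e)) e) 16393 .z)) (.s 54 39 (.s 58 34 (.s 54 48 (.s 54 52 (.s 75 34 (.s 93 54 (.s 123 54 (.s 126 54 (.s 158 54 .z)))))))))
  (.s (.s (n false (n true (n false e e) e) (n false e e)) 16395 .z) (.s 54 39 (.s 54 48 (.s 75 34 (.s 93 54 (.s 123 53 (.s 123 54 (.s 126 54 (.s 158 53 (.s 158 54 .z)))))))))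
  .z)))))))))))))))))))))))))))))))))))))))))))))))))))))))))))))))))))))))

set_option maxRecDepth 100000 in
def A120 : AE :=
 (.s 4096 4101 (.s 87 7 (.s 52 45 (.s 93 7 (.s 58 45 (.s 64 39 (.s 87 16 (.s 53 52 (.s 73 37 (.s 75 37 (.s 75 45 (.s 92 39 (.s 89 48 (.s 93 44 (.s 123 16 (.s 126 7 (.s 100 52 (.s 89 87 (.s 158 16 .z))))))))))))))))))
 (.s 0x70 4103 (n true (n false e e) e) (.s 0x8 4102 (n false e e) .z .z) (.s 0x1708 4105 (n false (n true (n false e e) e) (n false e e)) .z .z))
 (.s (.s (n true (n false (n false (n false e e) (n false e e)) (n false e e)) e) 16389 .z) (.s 87 7 (.s 52 45 (.s 93 7 (.s 58 45 (.s 64 39 (.s 87 16 (.s 73 37 (.s 75 37 (.s 75 45 (.s 92 39 (.s 89 48 (.s 93 44 (.s 123 16 (.s 126 7 (.s 100 52 (.s 89 87 (.s 158 16 .z)))))))))))))))))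
  (.s (.s (n false e e) 16388 (.s (n true (n false (n false (n false (n false e e) (n false e e)) (n false (n false e e) (n false e e))) (n false e e)) e) 16387 (.s (n false (n false e e) (n false e e)) 16392 .z))) (.s 73 37 (.s 89 48 (.s 93 44 (.s 123 16 (.s 89 87 (.s 158 16 .z))))))
  (.s (.s (n false (n false e e) (n false e e)) 16392 (.s (n false e e) 16384 .z)) (.s 87 7 (.s 93 7 (.s 64 39 (.s 87 16 (.s 73 37 (.s 75 37 (.s 89 48 (.s 93 44 (.s 123 16 (.s 126 7 (.s 89 87 (.s 158 16 .z))))))))))))
  (.s (.s (n false (n false e e) (n false e e)) 16392 (.s (n false e e) 16384 .z)) (.s 123 16 (.s 87 7 (.s 93 7 (.s 64 39 (.s 87 16 (.s 73 37 (.s 75 37 (.s 89 48 (.s 93 44 (.s 126 7 (.s 89 87 (.s 158 16 .z))))))))))))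
  (.s .z (.s 87 7 (.s 52 45 (.s 93 7 (.s 58 45 (.s 64 39 (.s 87 16 (.s 53 52 (.s 73 37 (.s 75 37 (.s 75 45 (.s 92 39 (.s 89 48 (.s 93 44 (.s 123 16 (.s 126 7 (.s 100 52 (.s 89 87 (.s 158 16 .z))))))))))))))))))
  (.s (.s (n false e e) 16384 .z) (.s 87 7 (.s 52 45 (.s 93 7 (.s 58 45 (.s 64 39 (.s 87 16 (.s 73 37 (.s 75 37 (.s 75 45 (.s 92 39 (.s 89 48 (.s 93 44 (.s 123 16 (.s 126 7 (.s 89 87 (.s 158 16 .z))))))))))))))))
  (.s (.s (n false e e) 16387 (.s (n false (n false e e) (n false e e)) 16392 .z)) (.s 87 7 (.s 93 7 (.s 64 39 (.s 87 16 (.s 73 37 (.s 75 37 (.s 89 48 (.s 93 44 (.s 123 16 (.s 126 7 (.s 89 87 (.s 158 16 .z))))))))))))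
  (.s (.s (n false (n false e e) (n false e e)) 16392 (.s (n true (n false (n false (n false (n false e e) (n false e e)) (n false (n false e e) (n false e e))) (n false e e)) e) 16387 (.s (n false (n true (n false e e) e) (n false e e)) 16387 (.s (n true (n false (n true (n false e e) e) (n false e e)) e) 16400 .z)))) (.s 64 39 (.s 87 16 (.s 73 37 (.s 75 37 (.s 89 48 (.s 93 44 (.s 123 16 (.s 89 87 (.s 158 16 .z)))))))))
  (.s (.s (n false (n false e e) (n false e e)) 16391 .z) (.s 87 7 (.s 93 7 (.s 64 39 (.s 87 16 (.s 53 52 (.s 73 37 (.s 75 37 (.s 75 45 (.s 89 48 (.s 93 44 (.s 123 16 (.s 126 7 (.s 100 52 (.s 89 87 (.s 158 16 .z)))))))))))))))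
  (.s (.s (n false e e) 16386 .z) (.s 87 7 (.s 52 45 (.s 93 7 (.s 64 39 (.s 87 16 (.s 73 37 (.s 75 37 (.s 75 45 (.s 92 39 (.s 89 48 (.s 93 44 (.s 123 16 (.s 126 7 (.s 89 87 (.s 158 16 .z)))))))))))))))
  (.s (.s (n false (n false e e) (n false e e)) 16392 (.s (n true (n false (n false (n false (n false e e) (n false e e)) (n false (n false e e) (n false e e))) (n false e e)) e) 16387 (.s (n true (n false (n true (n false e e) e) (n false e e)) e) 16400 .z))) (.s 64 39 (.s 87 16 (.s 73 37 (.s 75 37 (.s 89 48 (.s 93 44 (.s 123 16 (.s 100 52 (.s 89 87 (.s 158 16 .z))))))))))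
  (.s (.s (n true (n false (n false (n false (n false e e) (n false e e)) (n false (n false e e) (n false e e))) (n false e e)) e) 16387 (.s (n true (n false (n true (n false e e) e) (n false e e)) e) 16400 (.s (n false (n false e e) (n false e e)) 16392 .z))) (.s 64 39 (.s 87 16 (.s 73 37 (.s 75 37 (.s 89 48 (.s 93 44 (.s 123 16 (.s 100 52 (.s 89 87 (.s 158 16 .z))))))))))
  (.s (.s (n true (n false e e) e) 16389 .z) (.s 87 7 (.s 93 7 (.s 73 37 (.s 75 45 (.s 92 39 (.s 89 48 (.s 93 44 (.s 123 16 (.s 126 7 (.s 89 87 (.s 158 16 .z)))))))))))
  (.s (.s (n true (n false e e) e) 16388 .z) (.s 87 7 (.s 93 7 (.s 64 39 (.s 87 16 (.s 73 37 (.s 75 37 (.s 75 45 (.s 92 39 (.s 89 48 (.s 93 44 (.s 123 16 (.s 126 7 (.s 89 87 (.s 158 16 .z))))))))))))))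
  (.s (.s (n false e e) 16387 (.s (n true (n false (n false (n false (n false e e) (n false e e)) (n false (n false e e) (n false e e))) (n false e e)) e) 16387 .z)) (.s 64 39 (.s 87 16 (.s 73 37 (.s 75 37 (.s 75 45 (.s 92 39 (.s 89 48 (.s 93 44 (.s 123 16 (.s 89 87 (.s 158 16 .z)))))))))))
  (.s (.s (n false e e) 16389 .z) (.s 87 7 (.s 73 37 (.s 75 45 (.s 89 48 (.s 93 44 (.s 123 16 (.s 126 7 (.s 89 87 (.s 158 16 .z)))))))))
  (.s (.s (n false e e) 16387 .z) (.s 87 7 (.s 93 7 (.s 64 39 (.s 87 16 (.s 73 37 (.s 75 37 (.s 75 45 (.s 92 39 (.s 89 48 (.s 93 44 (.s 123 16 (.s 126 7 (.s 89 87 (.s 158 16 .z))))))))))))))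
  (.s (.s (n false e e) 16384 (.s (n false (n false e e) (n false e e)) 16392 (.s (n true (n false (n false (n false (n false e e) (n false e e)) (n false (n false e e) (n false e e))) (n false e e)) e) 16387 .z))) (.s 64 39 (.s 87 16 (.s 73 37 (.s 75 37 (.s 89 48 (.s 93 44 (.s 123 16 (.s 89 87 (.s 158 16 .z)))))))))
  (.s (.s (n false e e) 16388 (.s (n false (n false e e) (n false e e)) 16392 .z)) (.s 87 7 (.s 93 7 (.s 73 37 (.s 89 48 (.s 93 44 (.s 123 16 (.s 126 7 (.s 89 87 (.s 158 16 .z)))))))))
  (.s (.s (n false e e) 16389 (.s (n false (n false e e) (n false e e)) 16392 .z)) (.s 87 7 (.s 73 37 (.s 89 48 (.s 93 44 (.s 123 16 (.s 126 7 (.s 89 87 (.s 158 16 .z))))))))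
  (.s (.s (n false (n false e e) (n false e e)) 16392 (.s (n false (n true (n false e e) e) (n false e e)) 16387 .z)) (.s 87 7 (.s 93 7 (.s 64 39 (.s 87 16 (.s 53 52 (.s 73 37 (.s 75 37 (.s 89 48 (.s 93 44 (.s 123 16 (.s 126 7 (.s 89 87 (.s 158 16 .z)))))))))))))
  (.s (.s (n false e e) 16384 (.s (n false (n false e e) (n false e e)) 16392 .z)) (.s 87 7 (.s 93 7 (.s 64 39 (.s 87 16 (.s 73 37 (.s 75 37 (.s 89 48 (.s 93 44 (.s 123 16 (.s 126 7 (.s 89 87 (.s 158 16 .z))))))))))))
  (.s (.s (n false (n true (n false e e) e) (n false e e)) 16391 (.s (n false (n false e e) (n false e e)) 16392 (.s (n true (n false (n false (n false e e) (n false e e)) (n false e e)) e) 16389 .z))) (.s 87 7 (.s 93 7 (.s 73 37 (.s 89 48 (.s 93 44 (.s 123 16 (.s 126 7 (.s 89 87 (.s 158 16 .z)))))))))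
  (.s (.s (n false (n false e e) (n false e e)) 16391 (.s (n true (n true (n false e e) e) e) 16386 (.s (n false (n true (n true (n false e e) e) e) (n false e e)) 16394 (.s (n true (n false (n false (n true (n false (n false (n false (n false e e) (n false e e)) (n false (n false e e) (n false e e))) (n false e e)) e) (n false e e)) (n false e e)) e) 16386 .z)))) (.s 87 7 (.s 93 7 (.s 64 39 (.s 87 16 (.s 73 37 (.s 75 37 (.s 89 48 (.s 93 44 (.s 123 16 (.s 126 7 (.s 89 87 (.s 158 16 .z))))))))))))
  (.s (.s (n false (n false e e) (n false e e)) 16389 .z) (.s 87 7 (.s 93 7 (.s 64 39 (.s 87 16 (.s 53 52 (.s 73 37 (.s 75 37 (.s 75 45 (.s 92 39 (.s 89 48 (.s 93 44 (.s 123 16 (.s 126 7 (.s 100 52 (.s 89 87 (.s 158 16 .z))))))))))))))))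
  (.s (.s (n false e e) 16388 .z) (.s 87 7 (.s 93 7 (.s 73 37 (.s 75 45 (.s 92 39 (.s 89 48 (.s 93 44 (.s 123 16 (.s 126 7 (.s 89 87 (.s 158 16 .z)))))))))))
  (.s (.s (n true (n false e e) e) 16390 .z) (.s 87 7 (.s 73 37 (.s 75 45 (.s 89 48 (.s 93 44 (.s 123 16 (.s 126 7 (.s 89 87 (.s 158 16 .z)))))))))
  (.s (.s (n true (n false (n false (n false (n false e e) (n false e e)) (n false (n false e e) (n false e e))) (n false e e)) e) 16387 (.s (n true (n false (n false (n true (n false (n false (n false (n false e e) (n false e e)) (n false (n false e e) (n false e e))) (n false e e)) e) (n false e e)) (n false e e)) e) 16386 .z)) (.s 52 45 (.s 58 45 (.s 64 39 (.s 87 16 (.s 73 37 (.s 75 37 (.s 75 45 (.s 92 39 (.s 89 48 (.s 93 44 (.s 123 16 (.s 100 52 (.s 89 87 (.s 158 16 .z))))))))))))))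
  (.s (.s (n false (n true (n false e e) e) (n false e e)) 16390 (.s (n true (n false (n true (n false e e) e) (n false e e)) e) 16400 (.s (n false (n false e e) (n false e e)) 16392 .z))) (.s 87 7 (.s 93 7 (.s 64 39 (.s 87 16 (.s 73 37 (.s 75 37 (.s 89 48 (.s 93 44 (.s 123 16 (.s 126 7 (.s 89 87 (.s 158 16 .z))))))))))))
  (.s (.s (n false (n false e e) (n false e e)) 16392 (.s (n false (n true (n false e e) e) (n false e e)) 16387 (.s (n true (n false (n false (n false e e) (n false e e)) (n false e e)) e) 16389 .z))) (.s 87 7 (.s 93 7 (.s 64 39 (.s 87 16 (.s 73 37 (.s 75 37 (.s 89 48 (.s 93 44 (.s 123 16 (.s 126 7 (.s 89 87 (.s 158 16 .z))))))))))))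
  (.s (.s (n false (n false e e) (n false e e)) 16392 (.s (n true (n false (n false (n false (n false e e) (n false e e)) (n false (n false e e) (n false e e))) (n false e e)) e) 16387 (.s (n false e e) 16384 .z))) (.s 64 39 (.s 87 16 (.s 73 37 (.s 75 37 (.s 89 48 (.s 93 44 (.s 123 16 (.s 89 87 (.s 158 16 .z)))))))))
  (.s (.s (n false (n true (n false e e) e) (n false e e)) 16392 (.s (n true (n false (n false (n false (n false e e) (n false e e)) (n false (n false e e) (n false e e))) (n false e e)) e) 16387 (.s (n false (n false e e) (n false e e)) 16392 (.s (n true (n false (n true (n false e e) e) (n false e e)) e) 16400 .z)))) (.s 73 37 (.s 89 48 (.s 93 44 (.s 123 16 (.s 89 87 (.s 158 16 .z))))))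
  (.s (.s (n false (n true (n false e e) e) (n false e e)) 16392 (.s (n true (n false (n true (n false e e) e) (n false e e)) e) 16400 (.s (n false (n false e e) (n false e e)) 16392 .z))) (.s 87 7 (.s 73 37 (.s 89 48 (.s 93 44 (.s 123 16 (.s 126 7 (.s 89 87 (.s 158 16 .z))))))))
  (.s (.s (n false (n false (n false (n false (n false e e) (n false e e)) (n false (n false e e) (n false e e))) (n false e e)) (n true (n true (n false e e) e) e)) 16389 (.s (n false (n true (n false e e) e) (n false e e)) 16392 (.s (n false (n false e e) (n false e e)) 16392 (.s (n true (n false (n false (n false e e) (n false e e)) (n false e e)) e) 16389 .z)))) (.s 87 7 (.s 73 37 (.s 89 48 (.s 93 44 (.s 123 16 (.s 126 7 (.s 89 87 (.s 158 16 .z))))))))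
  (.s (.s (n false (n true (n false e e) e) (n false e e)) 16392 (.s (n false (n false e e) (n false e e)) 16392 (.s (n true (n false (n false (n false e e) (n false e e)) (n false e e)) e) 16389 .z))) (.s 87 7 (.s 73 37 (.s 89 48 (.s 93 44 (.s 123 16 (.s 126 7 (.s 89 87 (.s 158 16 .z))))))))
  (.s (.s (n false (n true (n false e e) e) (n false e e)) 16392 (.s (n false (n false e e) (n false e e)) 16392 (.s (n true (n false (n true (n false e e) e) (n false e e)) e) 16400 .z))) (.s 87 7 (.s 73 37 (.s 89 48 (.s 93 44 (.s 123 16 (.s 126 7 (.s 89 87 (.s 158 16 .z))))))))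
  (.s (.s (n true (n false e e) e) 16390 (.s (n false (n false e e) (n false e e)) 16392 .z)) (.s 87 7 (.s 73 37 (.s 89 48 (.s 93 44 (.s 123 16 (.s 126 7 (.s 89 87 (.s 158 16 .z))))))))
  (.s (.s (n false e e) 16389 (.s (n true (n false (n false (n false (n false e e) (n false e e)) (n false (n false e e) (n false e e))) (n false e e)) e) 16387 (.s (n false (n false e e) (n false e e)) 16392 .z))) (.s 73 37 (.s 89 48 (.s 93 44 (.s 123 16 (.s 89 87 (.s 158 16 .z))))))
  (.s (.s (n false e e) 16386 (.s (n false (n false e e) (n false e e)) 16392 .z)) (.s 87 7 (.s 93 7 (.s 64 39 (.s 87 16 (.s 73 37 (.s 75 37 (.s 89 48 (.s 93 44 (.s 123 16 (.s 126 7 (.s 89 87 (.s 158 16 .z))))))))))))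
  (.s (.s (n false e e) 16389 (.s (n true (n false (n false (n false (n false e e) (n false e e)) (n false (n false e e) (n false e e))) (n false e e)) e) 16387 .z)) (.s 73 37 (.s 75 45 (.s 89 48 (.s 93 44 (.s 123 16 (.s 89 87 (.s 158 16 .z)))))))
  (.s (.s (n false (n true (n false e e) e) (n false e e)) 16392 (.s (n true (n false (n false (n false e e) (n false e e)) (n false e e)) e) 16389 .z)) (.s 87 7 (.s 73 37 (.s 75 45 (.s 89 48 (.s 93 44 (.s 123 16 (.s 126 7 (.s 89 87 (.s 158 16 .z)))))))))
  (.s (.s (n true (n false e e) e) 16389 (.s (n false (n false e e) (n false e e)) 16392 .z)) (.s 87 7 (.s 93 7 (.s 73 37 (.s 89 48 (.s 93 44 (.s 123 16 (.s 126 7 (.s 89 87 (.s 158 16 .z)))))))))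
  .z)))))))))))))))))))))))))))))))))))))))))))

set_option maxRecDepth 100000 in
def A121 : AE :=
 (.s 4096 4101 (.s 89 7 (.s 120 0 (.s 52 43 (.s 52 44 (.s 122 1 (.s 79 69 (.s 122 28 (.s 126 43 (.s 89 88 (.s 163 69 .z))))))))))
 (.s 0x3e0 4104 (n true (n true (n false e e) e) e) (.s 0x8 4102 (n false e e) .z .z) .z)
 (.s (.s (n true (n false e e) e) 16391 (.s (n true (n false (n true (n false e e) e) (n false e e)) e) 16394 .z)) (.s 89 7 .z)
  (.s (.s (n true (n false (n true (n false e e) e) (n false e e)) e) 16394 .z) (.s 89 7 (.s 52 44 (.s 79 69 (.s 163 69 .z))))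
  (.s (.s (n true (n false (n true (n false e e) e) (n false e e)) e) 16394 (.s (n false (n true (n false e e) e) (n false e e)) 16392 .z)) (.s 89 7 (.s 79 69 (.s 163 69 .z)))
  (.s (.s (n true (n false (n true (n false e e) e) (n false e e)) e) 16394 (.s (n false (n true (n false (n false e e) (n false e e)) e) (n true (n false e e) e)) 16402 .z)) (.s 89 7 (.s 52 44 .z))
  (.s (.s (n true (n false (n true (n false e e) e) (n false e e)) e) 16394 (.s (n true (n true (n false (n false e e) (n false e e)) e) e) 16400 .z)) (.s 89 7 (.s 52 44 .z))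
  (.s (.s (n true (n false (n true (n false e e) e) (n false e e)) e) 16394 (.s (n false (n false e e) (n false e e)) 16398 (.s (n true (n true (n false (n false e e) (n false e e)) e) e) 16400 .z))) (.s 89 7 (.s 52 44 .z))
  (.s (.s (n false e e) 16389 (.s (n true (n false (n false (n false (n false e e) (n false e e)) (n false (n false e e) (n false e e))) (n false e e)) e) 16387 (.s (n true (n false (n true (n false e e) e) (n false e e)) e) 16394 .z))) (.s 79 69 (.s 163 69 .z))
  (.s (.s (n false (n true (n false e e) e) (n false e e)) 16405 (.s (n true (n false (n true (n false e e) e) (n false e e)) e) 16394 .z)) (.s 89 7 .z)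
  (.s (.s (n true (n false (n true (n false e e) e) (n false e e)) e) 16394 (.s (n true (n true (n false (n false e e) (n false e e)) e) e) 16400 (.s (n false (n true (n false e e) e) (n false e e)) 16392 .z))) (.s 89 7 .z)
  (.s (.s (n true (n false (n true (n false e e) e) (n false e e)) e) 16394 (.s (n false (n true (n false e e) e) (n false e e)) 16392 (.s (n true (n true (n false (n false e e) (n false e e)) e) e) 16400 .z))) (.s 89 7 .z)
  (.s (.s (n true (n false (n true (n false e e) e) (n false e e)) e) 16394 (.s (n false (n true (n false e e) e) (n false e e)) 16399 (.s (n true (n true (n false (n false e e) (n false e e)) e) e) 16400 .z))) (.s 89 7 .z)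
  (.s (.s (n true (n false (n true (n false e e) e) (n false e e)) e) 16394 (.s (n false e e) 16389 .z)) (.s 89 7 (.s 79 69 (.s 163 69 .z)))
  (.s (.s (n false (n true (n false e e) e) (n false e e)) 16392 (.s (n true (n false (n true (n false e e) e) (n false e e)) e) 16394 (.s (n true (n true (n false (n false e e) (n false e e)) e) e) 16400 .z))) (.s 89 7 .z)
  (.s (.s (n true (n false (n true (n false e e) e) (n false e e)) e) 16394 (.s (n false (n true (n false e e) e) (n false e e)) 16399 (.s (n true (n true (n false (n false e e) (n false e e)) e) e) 16400 (.s (n true (n false (n false (n false (n false e e) (n false e e)) (n false (n false e e) (n false e e))) (n false e e)) e) 16387 .z)))) .z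
  (.s (.s (n false (n true (n false e e) e) (n false e e)) 16392 (.s (n false e e) 16387 (.s (n true (n false (n true (n false e e) e) (n false e e)) e) 16394 (.s (n true (n true (n false (n false e e) (n false e e)) e) e) 16400 .z)))) (.s 89 7 .z)
  (.s (.s (n true (n false (n true (n false e e) e) (n false e e)) e) 16394 (.s (n true (n true (n false (n false e e) (n false e e)) e) e) 16400 (.s (n false e e) 16389 .z))) (.s 89 7 .z)
  (.s (.s (n true (n false (n true (n false e e) e) (n false e e)) e) 16394 (.s (n false (n true (n false e e) e) (n false e e)) 16392 (.s (n false (n true (n false (n false e e) (n false e e)) e) (n true (n false e e) e)) 16402 .z))) (.s 89 7 .z)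
  (.s (.s (n false (n true (n false e e) e) (n false e e)) 16399 (.s (n true (n false (n true (n false e e) e) (n false e e)) e) 16394 (.s (n true (n true (n false (n false e e) (n false e e)) e) e) 16400 .z))) (.s 89 7 .z)
  (.s (.s (n false (n false (n true (n false e e) e) (n false e e)) e) 16394 (.s (n true (n false (n true (n false e e) e) (n false e e)) e) 16394 .z)) (.s 89 7 (.s 52 44 (.s 79 69 (.s 163 69 .z))))
  (.s (.s (n true (n false (n true (n false e e) e) (n false e e)) e) 16394 (.s (n true (n false (n false (n false (n false e e) (n false e e)) (n false (n false e e) (n false e e))) (n false e e)) e) 16387 .z)) (.s 52 44 (.s 79 69 (.s 163 69 .z)))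
  (.s (.s (n true (n false e e) e) 16391 (.s (n true (n false (n false (n false (n false e e) (n false e e)) (n false (n false e e) (n false e e))) (n false e e)) e) 16387 .z)) (.s 120 0 (.s 89 88 .z))
  (.s (.s (n true (n false (n true (n false e e) e) (n false e e)) e) 16394 (.s (n true (n false (n false (n false (n false e e) (n false e e)) (n false (n false e e) (n false e e))) (n false e e)) e) 16387 (.s (n true (n true (n false (n false e e) (n false e e)) e) e) 16400 .z))) (.s 52 44 .z)
  (.s (.s (n true (n false (n true (n false e e) e) (n false e e)) e) 16394 (.s (n false e e) 16389 (.s (n true (n false (n false (n false (n false e e) (n false e e)) (n false (n false e e) (n false e e))) (n false e e)) e) 16387 (.s (n false (n true (n false (n false e e) (n false e e)) e) (n true (n false e e) e)) 16402 .z)))) .z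
  (.s (.s (n false (n true (n false e e) e) (n false e e)) 16392 (.s (n false (n false (n true (n false e e) e) (n false e e)) e) 16394 (.s (n true (n false (n true (n false e e) e) (n false e e)) e) 16394 .z))) (.s 89 7 (.s 79 69 (.s 163 69 .z)))
  (.s (.s (n false (n false e e) (n false e e)) 16398 (.s (n true (n false (n true (n false e e) e) (n false e e)) e) 16394 (.s (n true (n true (n false (n false e e) (n false e e)) e) e) 16400 .z))) (.s 89 7 (.s 52 44 .z))
  (.s (.s (n true (n false (n true (n false e e) e) (n false e e)) e) 16394 (.s (n true (n false (n false (n false (n false e e) (n false e e)) (n false (n false e e) (n false e e))) (n false e e)) e) 16387 (.s (n false (n true (n false (n false e e) (n false e e)) e) (n true (n false e e) e)) 16402 .z))) (.s 52 44 .z)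
  (.s (.s (n true (n false (n true (n false e e) e) (n false e e)) e) 16394 (.s (n true (n false e e) e) 16390 (.s (n true (n true (n false (n false e e) (n false e e)) e) e) 16400 .z))) (.s 89 7 .z)
  (.s (.s (n true (n false (n true (n false e e) e) (n false e e)) e) 16394 (.s (n false (n false e e) (n false e e)) 16398 (.s (n false (n true (n false e e) e) (n false e e)) 16392 (.s (n true (n true (n false (n false e e) (n false e e)) e) e) 16400 .z)))) (.s 89 7 .z)
  (.s (.s (n true (n false (n true (n false e e) e) (n false e e)) e) 16394 (.s (n true (n false e e) e) 16390 .z)) (.s 89 7 (.s 79 69 (.s 163 69 .z)))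
  (.s (.s (n true (n false (n true (n false e e) e) (n false e e)) e) 16394 (.s (n false e e) 16389 (.s (n true (n true (n false (n false e e) (n false e e)) e) e) 16400 .z))) (.s 89 7 .z)
  (.s (.s (n true (n false (n true (n false e e) e) (n false e e)) e) 16394 (.s (n true (n true (n false (n false e e) (n false e e)) e) e) 16400 (.s (n true (n false (n false (n false (n false e e) (n false e e)) (n false (n false e e) (n false e e))) (n false e e)) e) 16387 .z))) (.s 52 44 .z)
  (.s (.s (n true (n false (n true (n false e e) e) (n false e e)) e) 16391 (.s (n true (n false (n false (n false (n false e e) (n false e e)) (n false (n false e e) (n false e e))) (n false e e)) e) 16387 (.s (n true (n false (n true (n false e e) e) (n false e e)) e) 16394 .z))) (.s 52 44 (.s 79 69 (.s 163 69 .z)))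
  (.s (.s (n true (n false (n true (n false e e) e) (n false e e)) e) 16394 (.s (n false e e) 16389 (.s (n true (n false (n false (n false (n false e e) (n false e e)) (n false (n false e e) (n false e e))) (n false e e)) e) 16387 .z))) (.s 79 69 (.s 163 69 .z))
  (.s (.s (n true (n false e e) e) 16391 (.s (n true (n false (n false (n false (n false e e) (n false e e)) (n false (n false e e) (n false e e))) (n false e e)) e) 16387 (.s (n true (n false (n true (n false e e) e) (n false e e)) e) 16394 .z))) .z
  (.s (.s (n true (n false (n true (n false e e) e) (n false e e)) e) 16394 (.s (n false e e) 16389 (.s (n true (n false (n false (n false (n false e e) (n false e e)) (n false (n false e e) (n false e e))) (n false e e)) e) 16387 (.s (n true (n true (n false (n false e e) (n false e e)) e) e) 16400 .z)))) .z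
  (.s (.s (n true (n false (n true (n false e e) e) (n false e e)) e) 16394 (.s (n false (n true (n false e e) e) (n false e e)) 16392 (.s (n true (n false (n false (n false (n false e e) (n false e e)) (n false (n false e e) (n false e e))) (n false e e)) e) 16387 .z))) (.s 79 69 (.s 163 69 .z))
  (.s (.s (n false (n true (n false e e) e) (n false e e)) 16390 (.s (n true (n false (n true (n false e e) e) (n false e e)) e) 16394 .z)) (.s 89 7 (.s 52 44 (.s 79 69 (.s 163 69 .z))))
  (.s (.s (n true (n false e e) e) 16391 (.s (n true (n false (n true (n false e e) e) (n false e e)) e) 16394 (.s (n true (n false (n false (n false (n false e e) (n false e e)) (n false (n false e e) (n false e e))) (n false e e)) e) 16387 .z))) .z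
  (.s (.s (n true (n false (n true (n false e e) e) (n false e e)) e) 16394 (.s (n false (n true (n false e e) e) (n false e e)) 16392 (.s (n true (n false (n false (n false (n false e e) (n false e e)) (n false (n false e e) (n false e e))) (n false e e)) e) 16387 (.s (n false (n true (n false (n false e e) (n false e e)) e) (n true (n false e e) e)) 16402 .z)))) .z
  (.s (.s (n true (n false (n true (n false e e) e) (n false e e)) e) 16394 (.s (n false (n true (n false e e) e) (n false e e)) 16399 .z)) (.s 89 7 (.s 79 69 .z))
  (.s (.s (n true (n false (n true (n false e e) e) (n false e e)) e) 16393 (.s (n true (n false (n false (n false (n false e e) (n false e e)) (n false (n false e e) (n false e e))) (n false e e)) e) 16387 (.s (n true (n false e e) e) 16391 (.s (n true (n false (n true (n false e e) e) (n false e e)) e) 16394 .z)))) .z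
  (.s (.s (n true (n false (n true (n false e e) e) (n false e e)) e) 16394 (.s (n false (n true (n false e e) e) (n false e e)) 16399 (.s (n true (n false (n false (n false (n false e e) (n false e e)) (n false (n false e e) (n false e e))) (n false e e)) e) 16387 (.s (n true (n true (n false (n false e e) (n false e e)) e) e) 16400 .z)))) .z
  (.s (.s (n false e e) 16387 (.s (n true (n false (n true (n false e e) e) (n false e e)) e) 16394 .z)) (.s 89 7 (.s 52 44 (.s 79 69 (.s 163 69 .z))))
  (.s (.s (n true (n false (n true (n false e e) e) (n false e e)) e) 16394 (.s (n true (n false e e) e) 16390 (.s (n false (n true (n false (n false e e) (n false e e)) e) (n true (n false e e) e)) 16402 .z))) (.s 89 7 .z)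
  (.s (.s (n false (n true (n false e e) e) (n false e e)) 16392 (.s (n false e e) 16387 (.s (n true (n false (n false (n false (n false e e) (n false e e)) (n false (n false e e) (n false e e))) (n false e e)) e) 16387 (.s (n true (n false (n true (n false e e) e) (n false e e)) e) 16394 (.s (n true (n true (n false (n false e e) (n false e e)) e) e) 16400 .z))))) .z
  (.s (.s (n false e e) 16389 (.s (n true (n false (n false (n false (n false e e) (n false e e)) (n false (n false e e) (n false e e))) (n false e e)) e) 16387 (.s (n true (n false (n true (n false e e) e) (n false e e)) e) 16394 (.s (n true (n true (n false (n false e e) (n false e e)) e) e) 16400 .z)))) .z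
  (.s (.s (n true (n false e e) e) 16388 (.s (n false (n false (n true (n false e e) e) (n false e e)) e) 16394 (.s (n true (n false (n true (n false e e) e) (n false e e)) e) 16394 .z))) (.s 89 7 (.s 52 44 (.s 79 69 (.s 163 69 .z))))
  (.s (.s (n true (n false (n true (n false e e) e) (n false e e)) e) 16394 (.s (n false e e) 16389 (.s (n false (n false e e) (n false e e)) 16398 (.s (n false (n true (n false (n false e e) (n false e e)) e) (n true (n false e e) e)) 16402 .z)))) (.s 89 7 .z)
  (.s (.s (n true (n false (n false (n false (n false e e) (n false e e)) (n false (n false e e) (n false e e))) (n false e e)) e) 16387 (.s (n true (n false (n true (n false e e) e) (n false e e)) e) 16394 .z)) (.s 52 44 (.s 79 69 (.s 163 69 .z)))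
  (.s (.s (n true (n false (n true (n false e e) e) (n false e e)) e) 16394 (.s (n true (n false e e) e) 16390 (.s (n true (n false (n false (n false (n false e e) (n false e e)) (n false (n false e e) (n false e e))) (n false e e)) e) 16387 (.s (n false (n true (n false (n false e e) (n false e e)) e) (n true (n false e e) e)) 16402 .z)))) .z
  (.s (.s (n true (n false (n true (n false e e) e) (n false e e)) e) 16394 (.s (n true (n true (n false (n false e e) (n false e e)) e) e) 16400 (.s (n true (n false e e) e) 16390 .z))) (.s 89 7 .z)
  (.s (.s (n true (n false (n true (n false e e) e) (n false e e)) e) 16394 (.s (n false (n false e e) (n false e e)) 16398 (.s (n false (n true (n false e e) e) (n false e e)) 16392 (.s (n true (n false (n false (n false (n false e e) (n false e e)) (n false (n false e e) (n false e e))) (n false e e)) e) 16387 (.s (n true (n true (n false (n false e e) (n false e e)) e) e) 16400 .z))))) .z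
  (.s (.s (n true (n false (n true (n false e e) e) (n false e e)) e) 16394 (.s (n false (n true (n false e e) e) (n false e e)) 16392 (.s (n true (n false (n false (n false (n false e e) (n false e e)) (n false (n false e e) (n false e e))) (n false e e)) e) 16387 (.s (n true (n true (n false (n false e e) (n false e e)) e) e) 16400 .z)))) .z
  (.s (.s (n false (n false (n true (n false e e) e) (n false e e)) e) 16394 (.s (n true (n false (n true (n false e e) e) (n false e e)) e) 16394 (.s (n false (n true (n false e e) e) (n false e e)) 16392 .z))) (.s 89 7 (.s 79 69 (.s 163 69 .z)))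
  (.s (.s (n true (n false e e) e) 16391 .z) (.s 89 7 (.s 120 0 (.s 89 88 .z)))
  (.s (.s (n true (n false e e) e) 16388 (.s (n true (n false (n true (n false e e) e) (n false e e)) e) 16394 .z)) (.s 89 7 (.s 52 44 (.s 79 69 (.s 163 69 .z))))
  (.s (.s (n false (n true (n false e e) e) (n false e e)) 16392 (.s (n true (n false (n true (n false e e) e) (n false e e)) e) 16394 .z)) (.s 89 7 (.s 79 69 (.s 163 69 .z)))
  (.s (.s (n true (n false e e) e) 16390 .z) (.s 89 7 (.s 120 0 (.s 79 69 (.s 122 28 (.s 89 88 (.s 163 69 .z))))))
  (.s (.s (n true (n false (n true (n false e e) e) (n false e e)) e) 16394 (.s (n false (n false e e) (n false e e)) 16398 (.s (n true (n false (n false (n false (n false e e) (n false e e)) (n false (n false e e) (n false e e))) (n false e e)) e) 16387 (.s (n true (n true (n false (n false e e) (n false e e)) e) e) 16400 .z)))) (.s 52 44 .z)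
  (.s (.s (n true (n false (n true (n false e e) e) (n false e e)) e) 16394 (.s (n false (n false e e) (n false e e)) 16398 (.s (n false (n true (n false e e) e) (n false e e)) 16392 .z))) (.s 89 7 (.s 79 69 .z))
  (.s (.s (n true (n false (n true (n false e e) e) (n false e e)) e) 16394 (.s (n false e e) 16389 (.s (n false (n false e e) (n false e e)) 16398 (.s (n true (n true (n false (n false e e) (n false e e)) e) e) 16400 (.s (n true (n false (n false (n false (n false e e) (n false e e)) (n false (n false e e) (n false e e))) (n false e e)) e) 16387 .z))))) .z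
  (.s (.s (n true (n false (n true (n false e e) e) (n false e e)) e) 16394 (.s (n false (n false e e) (n false e e)) 16404 (.s (n false (n true (n false e e) e) (n false e e)) 16392 .z))) (.s 89 7 .z)
  (.s (.s (n false (n true (n false e e) e) (n false e e)) 16390 (.s (n false (n false (n true (n false e e) e) (n false e e)) e) 16394 (.s (n true (n false (n true (n false e e) e) (n false e e)) e) 16394 .z))) (.s 89 7 (.s 52 44 (.s 79 69 (.s 163 69 .z))))
  (.s (.s (n true (n false e e) e) 16390 (.s (n true (n false (n true (n false e e) e) (n false e e)) e) 16394 .z)) (.s 89 7 (.s 79 69 (.s 163 69 .z)))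
  (.s (.s (n true (n false (n true (n false e e) e) (n false e e)) e) 16391 (.s (n false (n false (n true (n false e e) e) (n false e e)) e) 16394 (.s (n true (n false (n true (n false e e) e) (n false e e)) e) 16394 .z))) (.s 89 7 (.s 52 44 (.s 79 69 (.s 163 69 .z))))
  (.s (.s (n true (n false (n true (n false e e) e) (n false e e)) e) 16394 (.s (n true (n false (n false (n false (n false e e) (n false e e)) (n false (n false e e) (n false e e))) (n false e e)) e) 16387 (.s (n true (n true (n false (n false e e) (n false e e)) e) e) 16400 (.s (n false e e) 16389 .z)))) .z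
  (.s (.s (n false (n false e e) (n false e e)) 16401 (.s (n true (n false (n false (n false (n false e e) (n false e e)) (n false (n false e e) (n false e e))) (n false e e)) e) 16387 (.s (n true (n false (n true (n false e e) e) (n false e e)) e) 16394 (.s (n true (n true (n false (n false e e) (n false e e)) e) e) 16400 .z)))) (.s 52 44 .z)
  (.s (.s (n true (n false (n true (n false e e) e) (n false e e)) e) 16394 (.s (n false e e) 16389 (.s (n false (n false e e) (n false e e)) 16398 (.s (n true (n true (n false (n false e e) (n false e e)) e) e) 16400 .z)))) (.s 89 7 .z)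
  (.s (.s (n true (n false (n false (n false (n false e e) (n false e e)) (n false (n false e e) (n false e e))) (n false e e)) e) 16387 (.s (n true (n false (n true (n false e e) e) (n false e e)) e) 16394 (.s (n true (n true (n false (n false e e) (n false e e)) e) e) 16400 (.s (n false e e) 16389 .z)))) .z
  (.s (.s (n true (n false (n true (n false e e) e) (n false e e)) e) 16394 (.s (n false (n true (n false e e) e) (n false e e)) 16399 (.s (n false (n true (n false (n false e e) (n false e e)) e) (n true (n false e e) e)) 16402 .z))) (.s 89 7 .z)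
  (.s (.s (n true (n false (n true (n false e e) e) (n false e e)) e) 16394 (.s (n false (n true (n false e e) e) (n false e e)) 16399 (.s (n true (n false (n false (n false (n false e e) (n false e e)) (n false (n false e e) (n false e e))) (n false e e)) e) 16387 .z))) (.s 79 69 .z)
  (.s (.s (n false (n true (n false e e) e) (n false e e)) 16392 (.s (n false (n false e e) (n false e e)) 16398 (.s (n true (n false (n false (n false (n false e e) (n false e e)) (n false (n false e e) (n false e e))) (n false e e)) e) 16387 (.s (n true (n false (n true (n false e e) e) (n false e e)) e) 16394 (.s (n true (n true (n false (n false e e) (n false e e)) e) e) 16400 .z))))) .z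
  (.s (.s (n true (n false (n true (n false e e) e) (n false e e)) e) 16394 (.s (n false (n true (n false (n false e e) (n false e e)) e) (n true (n false e e) e)) 16402 (.s (n true (n false e e) e) 16390 (.s (n true (n false (n false (n false (n false e e) (n false e e)) (n false (n false e e) (n false e e))) (n false e e)) e) 16387 .z)))) .z
  (.s (.s (n true (n false e e) e) 16390 (.s (n true (n false (n true (n false e e) e) (n false e e)) e) 16394 (.s (n true (n true (n false (n false e e) (n false e e)) e) e) 16400 (.s (n true (n false (n false (n false (n false e e) (n false e e)) (n false (n false e e) (n false e e))) (n false e e)) e) 16387 .z)))) .z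
  (.s (.s (n false (n false e e) (n false e e)) 16404 (.s (n true (n false (n false e e) (n false e e)) e) 16405 (.s (n true (n false e e) e) 16388 (.s (n false (n true (n false e e) e) (n false e e)) 16392 (.s (n true (n false (n false (n false (n false e e) (n false e e)) (n false (n false e e) (n false e e))) (n false e e)) e) 16387 .z))))) .z
  (.s (.s (n true (n false (n true (n false e e) e) (n false e e)) e) 16394 (.s (n false (n false e e) (n false e e)) 16398 (.s (n true (n false (n false (n false (n false e e) (n false e e)) (n false (n false e e) (n false e e))) (n false e e)) e) 16387 .z))) (.s 52 44 (.s 79 69 .z))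
  (.s (.s (n true (n false (n true (n false e e) e) (n false e e)) e) 16394 (.s (n false (n false e e) (n false e e)) 16398 (.s (n false (n true (n false e e) e) (n false e e)) 16392 (.s (n false (n true (n false (n false e e) (n false e e)) e) (n true (n false e e) e)) 16402 .z)))) (.s 89 7 .z)
  (.s (.s (n true (n false (n true (n false e e) e) (n false e e)) e) 16394 (.s (n true (n false e e) e) 16390 (.s (n true (n false (n false (n false (n false e e) (n false e e)) (n false (n false e e) (n false e e))) (n false e e)) e) 16387 .z))) (.s 79 69 (.s 163 69 .z))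
  (.s (.s (n false (n true (n false e e) e) (n false e e)) 16392 (.s (n true (n false (n true (n false e e) e) (n false e e)) e) 16391 (.s (n true (n false (n true (n false e e) e) (n false e e)) e) 16394 (.s (n true (n true (n false (n false e e) (n false e e)) e) e) 16400 .z)))) (.s 89 7 .z)
  (.s (.s (n false (n true (n false e e) e) (n false e e)) 16399 (.s (n true (n false (n true (n false e e) e) (n false e e)) e) 16391 (.s (n true (n false (n true (n false e e) e) (n false e e)) e) 16394 .z))) (.s 89 7 (.s 79 69 .z))
  (.s (.s (n false e e) 16387 (.s (n true (n false (n false (n false (n false e e) (n false e e)) (n false (n false e e) (n false e e))) (n false e e)) e) 16387 (.s (n true (n false (n true (n false e e) e) (n false e e)) e) 16394 (.s (n false (n true (n false (n false e e) (n false e e)) e) (n true (n false e e) e)) 16402 .z)))) (.s 52 44 .z)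
  (.s (.s (n true (n false (n true (n false e e) e) (n false e e)) e) 16394 (.s (n false (n true (n false e e) e) (n false e e)) 16399 (.s (n true (n false (n false (n false (n false e e) (n false e e)) (n false (n false e e) (n false e e))) (n false e e)) e) 16387 (.s (n false (n true (n false (n false e e) (n false e e)) e) (n true (n false e e) e)) 16402 .z)))) .z
  (.s (.s (n true (n false (n true (n false e e) e) (n false e e)) e) 16394 (.s (n false (n true (n false (n false e e) (n false e e)) e) (n true (n false e e) e)) 16402 (.s (n true (n false e e) e) 16390 .z))) (.s 89 7 .z)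
  .z))))))))))))))))))))))))))))))))))))))))))))))))))))))))))))))))))))))))))))))))))))

set_option maxRecDepth 100000 in
def A122 : AE :=
 (.s 4096 4097 (.s 87 14 (.s 123 13 .z))
 (.s 0x3ea88a220 4099 (n true (n true (n false (n false (n false (n false e e) (n false e e)) (n false (n false e e) (n false e e))) (n false e e)) e) e) (.s 0x288 4103 (n false (n false e e) (n false e e)) .z .z) (.s 0x1754451108 4100 (n false (n true (n false (n false (n false (n false e e) (n false e e)) (n false (n false e e) (n false e e))) (n false e e)) e) (n false e e)) .z .z))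
 (.s .z (.s 87 14 (.s 123 13 .z))
  .z))

set_option maxRecDepth 100000 in
def A123 : AE :=
 (.s 4096 4100 (.s 91 7 (.s 121 1 (.s 121 0 (.s 122 0 (.s 58 43 (.s 58 44 (.s 141 0 (.s 87 43 (.s 121 17 .z)))))))))
 (.s 0x70 4114 (n true (n false e e) e) (.s 0x8 4101 (n false e e) .z .z) .z)
 (.s (.s (n true (n false e e) e) 16390 (.s (n false (n false (n true (n false e e) e) (n false e e)) e) 16393 .z)) (.s 91 7 .z)
  (.s (.s (n true (n true (n true (n false (n false (n false (n false e e) (n false e e)) (n false (n false e e) (n false e e))) (n false e e)) e) e) e) 16388 (.s (n false (n true (n false (n true (n false e e) e) (n false e e)) e) e) 16397 .z)) (.s 91 7 (.s 121 1 (.s 121 0 (.s 122 0 (.s 58 44 (.s 121 17 .z))))))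
  (.s (.s (n true (n false (n true (n false e e) e) (n false e e)) e) 16398 .z) (.s 91 7 (.s 121 0 (.s 58 44 .z)))
  (.s (.s (n true (n false (n true (n false (n false (n false (n false e e) (n false e e)) (n false (n false e e) (n false e e))) (n false e e)) e) (n true (n false e e) e)) e) 16390 (.s (n true (n true (n false (n true (n false e e) e) (n false e e)) e) e) 16397 .z)) (.s 91 7 (.s 121 1 (.s 121 0 (.s 122 0 (.s 58 44 (.s 121 17 .z))))))
  (.s (.s (n true (n false (n true (n false e e) e) (n false e e)) e) 16393 .z) (.s 91 7 (.s 121 1 (.s 121 0 (.s 58 44 (.s 121 17 .z)))))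
  (.s (.s (n true (n false (n true (n false e e) e) (n false e e)) e) 16393 .z) (.s 121 0 (.s 91 7 (.s 121 1 (.s 58 44 (.s 121 17 .z)))))
  (.s (.s (n false (n true (n false e e) e) (n false e e)) 16392 (.s (n false (n false e e) e) 16390 (.s (n false (n false (n true (n false e e) e) (n false e e)) e) 16393 .z))) (.s 91 7 (.s 121 1 .z))
  (.s (.s (n true (n false (n true (n false e e) e) (n false e e)) e) 16393 (.s (n true (n false e e) e) 16388 .z)) (.s 91 7 (.s 121 0 (.s 58 44 (.s 121 17 .z))))
  (.s (.s (n false (n true (n false e e) e) (n false e e)) 16392 (.s (n false (n false e e) e) 16390 (.s (n false (n false (n true (n false e e) e) (n false e e)) e) 16393 (.s (n true (n false (n false (n false (n false e e) (n false e e)) (n false (n false e e) (n false e e))) (n false e e)) e) 16386 (.s (n false e e) 16387 .z))))) .z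
  (.s (.s (n false (n true (n false e e) e) (n false e e)) 16391 (.s (n false (n true (n true (n false (n false (n false (n false e e) (n false e e)) (n false (n false e e) (n false e e))) (n false e e)) e) e) (n false e e)) 16389 (.s (n false (n true (n false (n true (n false (n false (n false (n false e e) (n false e e)) (n false (n false e e) (n false e e))) (n false e e)) e) (n true (n false e e) e)) e) e) 16394 .z))) (.s 91 7 (.s 121 1 (.s 121 0 (.s 122 0 .z))))
  (.s (.s (n false (n true (n true (n false (n false (n false (n false e e) (n false e e)) (n false (n false e e) (n false e e))) (n false e e)) e) e) (n false e e)) 16389 (.s (n false (n true (n false (n true (n false e e) e) (n false e e)) e) e) 16397 .z)) (.s 91 7 (.s 121 1 (.s 121 0 (.s 122 0 (.s 58 44 (.s 121 17 .z))))))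
  (.s (.s (n false (n true (n false (n true (n false e e) e) (n false e e)) e) e) 16397 .z) (.s 121 0 (.s 122 0 (.s 91 7 (.s 121 1 (.s 58 43 (.s 58 44 (.s 87 43 (.s 121 17 .z))))))))
  (.s (.s (n true (n false (n true (n false e e) e) (n false e e)) e) 16393 .z) (.s 121 1 (.s 91 7 (.s 121 0 (.s 58 44 (.s 121 17 .z)))))
  (.s (.s (n false (n true (n true (n false (n false (n false (n false e e) (n false e e)) (n false (n false e e) (n false e e))) (n false e e)) e) e) (n false e e)) 16389 (.s (n false (n true (n false (n true (n false (n false (n false (n false e e) (n false e e)) (n false (n false e e) (n false e e))) (n false e e)) e) (n true (n false e e) e)) e) e) 16394 .z)) (.s 91 7 (.s 121 1 (.s 121 0 (.s 122 0 (.s 58 44 (.s 121 17 .z))))))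
  (.s (.s (n true (n false (n true (n false (n false (n false (n false e e) (n false e e)) (n false (n false e e) (n false e e))) (n false e e)) e) (n true (n false e e) e)) e) 16390 .z) (.s 91 7 (.s 121 1 (.s 121 0 (.s 122 0 (.s 58 44 (.s 141 0 (.s 121 17 .z)))))))
  (.s (.s (n true (n false e e) e) 16393 (.s (n true (n false (n false (n false (n false e e) (n false e e)) (n false (n false e e) (n false e e))) (n false e e)) e) 16386 .z)) .z
  (.s (.s (n true (n false (n true (n false e e) e) (n false e e)) e) 16399 (.s (n false e e) 16388 (.s (n true (n false (n false (n false (n false e e) (n false e e)) (n false (n false e e) (n false e e))) (n false e e)) e) 16386 .z))) .z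
  (.s (.s (n true (n false (n true (n false e e) e) (n false e e)) e) 16399 (.s (n true (n false (n false (n false (n false e e) (n false e e)) (n false (n false e e) (n false e e))) (n false e e)) e) 16386 .z)) (.s 58 44 .z)
  (.s (.s (n true (n false e e) e) 16393 .z) (.s 91 7 .z)
  (.s (.s (n true (n false (n true (n false e e) e) (n false e e)) e) 16399 .z) (.s 91 7 (.s 58 44 .z))
  (.s (.s (n true (n false (n true (n false e e) e) (n false e e)) e) 16397 .z) (.s 121 0 (.s 91 7 (.s 58 44 (.s 121 17 .z))))
  (.s (.s (n true (n false (n true (n false e e) e) (n false e e)) e) 16398 (.s (n true (n false (n false (n false (n false e e) (n false e e)) (n false (n false e e) (n false e e))) (n false e e)) e) 16386 .z)) (.s 121 0 (.s 58 44 .z))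
  (.s (.s (n true (n false e e) e) 16390 (.s (n true (n false (n true (n false e e) e) (n false e e)) e) 16393 (.s (n true (n false (n false (n false (n false e e) (n false e e)) (n false (n false e e) (n false e e))) (n false e e)) e) 16386 .z))) .z
  (.s (.s (n false (n true (n false e e) e) (n false e e)) 16392 (.s (n false (n false e e) e) 16393 .z)) (.s 91 7 (.s 121 1 .z))
  (.s (.s (n false (n true (n false e e) e) (n false e e)) 16392 (.s (n false (n false e e) e) 16393 (.s (n true (n false (n true (n false e e) e) (n false e e)) e) 16397 .z))) (.s 91 7 .z)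
  (.s (.s (n true (n false (n true (n false (n false (n false (n false e e) (n false e e)) (n false (n false e e) (n false e e))) (n false e e)) e) (n true (n false e e) e)) e) 16390 .z) (.s 122 0 (.s 91 7 (.s 121 1 (.s 121 0 (.s 58 44 (.s 141 0 (.s 121 17 .z)))))))
  (.s (.s (n true (n false (n true (n false (n false (n false (n false e e) (n false e e)) (n false (n false e e) (n false e e))) (n false e e)) e) (n true (n false e e) e)) e) 16390 .z) (.s 121 1 (.s 122 0 (.s 91 7 (.s 121 0 (.s 58 44 (.s 141 0 (.s 121 17 .z)))))))
  (.s (.s (n true (n false (n true (n false e e) e) (n false e e)) e) 16397 .z) (.s 91 7 (.s 121 0 (.s 58 44 (.s 121 17 .z))))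
  (.s (.s (n false (n true (n false (n true (n false e e) e) (n false e e)) e) e) 16397 .z) (.s 122 0 (.s 91 7 (.s 121 1 (.s 121 0 (.s 58 43 (.s 58 44 (.s 87 43 (.s 121 17 .z))))))))
  (.s (.s (n true (n false (n true (n false e e) e) (n false e e)) e) 16398 (.s (n false (n false e e) e) 16390 (.s (n false (n true (n false e e) e) (n false e e)) 16391 .z))) (.s 91 7 .z)
  (.s (.s (n false e e) 16386 (.s (n true (n true (n true (n false (n false (n false (n false e e) (n false e e)) (n false (n false e e) (n false e e))) (n false e e)) e) e) e) 16388 .z)) (.s 121 1 (.s 91 7 (.s 121 0 (.s 122 0 (.s 58 44 (.s 121 17 .z))))))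
  (.s (.s (n true (n false e e) e) 16390 (.s (n false (n false (n true (n false e e) e) (n false e e)) e) 16393 (.s (n true (n false (n false (n false (n false e e) (n false e e)) (n false (n false e e) (n false e e))) (n false e e)) e) 16386 .z))) .z
  (.s (.s (n false (n true (n false e e) e) (n false e e)) 16391 (.s (n false (n true (n true (n false (n false (n false (n false e e) (n false e e)) (n false (n false e e) (n false e e))) (n false e e)) e) e) (n false e e)) 16389 (.s (n false (n true (n false (n true (n false (n false (n false (n false e e) (n false e e)) (n false (n false e e) (n false e e))) (n false e e)) e) (n true (n false e e) e)) e) e) 16394 .z))) (.s 121 0 (.s 122 0 (.s 91 7 (.s 121 1 .z))))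
  (.s (.s (n true (n false (n true (n false (n false (n false (n false e e) (n false e e)) (n false (n false e e) (n false e e))) (n false e e)) e) (n true (n false e e) e)) e) 16390 (.s (n true (n true (n false (n true (n false e e) e) (n false e e)) e) e) 16397 .z)) (.s 121 1 (.s 121 0 (.s 91 7 (.s 122 0 (.s 58 44 (.s 121 17 .z))))))
  (.s (.s (n true (n false e e) e) 16390 (.s (n false (n true (n false (n true (n false e e) e) (n false e e)) e) e) 16397 .z)) (.s 91 7 .z)
  (.s (.s (n true (n true (n false (n true (n false e e) e) (n false e e)) e) e) 16397 (.s (n true (n false (n false (n false (n false e e) (n false e e)) (n false (n false e e) (n false e e))) (n false e e)) e) 16386 (.s (n true (n false e e) e) 16390 .z))) .z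
  (.s (.s (n false e e) 16388 (.s (n false (n false e e) e) 16390 (.s (n false (n true (n false e e) e) (n false e e)) 16392 .z))) (.s 91 7 .z)
  (.s (.s (n true (n false (n true (n false e e) e) (n false e e)) e) 16393 (.s (n false (n true (n false e e) e) (n false e e)) 16391 (.s (n false (n false e e) e) 16390 .z))) (.s 91 7 (.s 121 1 .z))
  (.s (.s (n false (n true (n true (n false (n false (n false (n false e e) (n false e e)) (n false (n false e e) (n false e e))) (n false e e)) e) e) (n false e e)) 16389 (.s (n false (n true (n false (n true (n false (n false (n false (n false e e) (n false e e)) (n false (n false e e) (n false e e))) (n false e e)) e) (n true (n false e e) e)) e) e) 16394 .z)) (.s 121 0 (.s 122 0 (.s 91 7 (.s 121 1 (.s 58 44 (.s 121 17 .z))))))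
  (.s (.s (n true (n false (n true (n false e e) e) (n false e e)) e) 16397 (.s (n true (n false (n false (n false (n false e e) (n false e e)) (n false (n false e e) (n false e e))) (n false e e)) e) 16386 .z)) (.s 121 0 (.s 58 44 (.s 121 17 .z)))
  (.s (.s (n true (n false (n true (n false e e) e) (n false e e)) e) 16399 (.s (n false (n true (n false e e) e) (n false e e)) 16391 (.s (n true (n false (n false (n false (n false e e) (n false e e)) (n false (n false e e) (n false e e))) (n false e e)) e) 16386 .z))) .z
  (.s (.s (n false (n true (n true (n false (n false (n false (n false e e) (n false e e)) (n false (n false e e) (n false e e))) (n false e e)) e) e) (n false e e)) 16389 (.s (n false (n true (n false (n true (n false (n false (n false (n false e e) (n false e e)) (n false (n false e e) (n false e e))) (n false e e)) e) (n true (n false e e) e)) e) e) 16394 .z)) (.s 122 0 (.s 91 7 (.s 121 1 (.s 121 0 (.s 58 44 (.s 121 17 .z))))))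
  (.s (.s (n false (n true (n false (n true (n false e e) e) (n false e e)) e) e) 16397 .z) (.s 91 7 (.s 121 1 (.s 121 0 (.s 122 0 (.s 58 43 (.s 58 44 (.s 87 43 (.s 121 17 .z))))))))
  (.s (.s (n true (n false (n true (n false e e) e) (n false e e)) e) 16393 (.s (n true (n false (n false (n false (n false e e) (n false e e)) (n false (n false e e) (n false e e))) (n false e e)) e) 16386 .z)) (.s 121 1 (.s 121 0 (.s 58 44 (.s 121 17 .z))))
  (.s (.s (n true (n false (n true (n false e e) e) (n false e e)) e) 16397 (.s (n false (n true (n false e e) e) (n false e e)) 16391 (.s (n false (n false e e) e) 16390 .z))) (.s 91 7 .z)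
  (.s (.s (n true (n false (n true (n false e e) e) (n false e e)) e) 16398 (.s (n true (n false e e) e) 16389 (.s (n true (n false (n false (n false (n false e e) (n false e e)) (n false (n false e e) (n false e e))) (n false e e)) e) 16386 .z))) (.s 121 0 .z)
  (.s (.s (n true (n false e e) e) 16389 (.s (n false (n true (n false (n true (n false e e) e) (n false e e)) e) e) 16397 (.s (n true (n true (n true (n false (n false (n false (n false e e) (n false e e)) (n false (n false e e) (n false e e))) (n false e e)) e) e) e) 16388 .z))) (.s 91 7 (.s 121 0 (.s 122 0 .z)))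
  (.s (.s (n true (n false e e) e) 16389 (.s (n false (n false (n true (n false e e) e) (n false e e)) e) 16393 (.s (n true (n false (n true (n false e e) e) (n false e e)) e) 16393 .z))) (.s 91 7 (.s 121 0 .z))
  (.s (.s (n false (n true (n false e e) e) (n false e e)) 16392 (.s (n false (n false e e) e) 16390 (.s (n false (n true (n false (n true (n false (n false (n false (n false e e) (n false e e)) (n false (n false e e) (n false e e))) (n false e e)) e) (n true (n false e e) e)) e) e) 16394 .z))) (.s 91 7 (.s 121 1 .z))
  (.s (.s (n true (n false (n true (n false e e) e) (n false e e)) e) 16390 (.s (n false (n true (n false (n true (n false e e) e) (n false e e)) e) e) 16397 .z)) (.s 91 7 (.s 121 1 (.s 121 0 (.s 122 0 (.s 58 44 (.s 87 43 (.s 121 17 .z)))))))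
  (.s (.s (n false (n true (n false e e) e) (n false e e)) 16392 (.s (n false (n false e e) e) 16390 (.s (n false e e) 16386 (.s (n true (n false (n false (n false (n false e e) (n false e e)) (n false (n false e e) (n false e e))) (n false e e)) e) 16386 .z)))) (.s 121 1 .z)
  (.s (.s (n true (n false e e) e) 16390 (.s (n true (n false (n false (n false (n false e e) (n false e e)) (n false (n false e e) (n false e e))) (n false e e)) e) 16386 (.s (n false (n false (n true (n false e e) e) (n false e e)) e) 16393 .z))) .z
  (.s (.s (n true (n true (n true (n false (n false (n false (n false e e) (n false e e)) (n false (n false e e) (n false e e))) (n false e e)) e) e) e) 16388 (.s (n false (n true (n false (n true (n false e e) e) (n false e e)) e) e) 16397 .z)) (.s 121 1 (.s 91 7 (.s 121 0 (.s 122 0 (.s 58 44 (.s 121 17 .z))))))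
  (.s (.s (n false (n true (n true (n false (n false (n false (n false e e) (n false e e)) (n false (n false e e) (n false e e))) (n false e e)) e) e) (n false e e)) 16389 .z) (.s 121 0 (.s 141 0 (.s 91 7 (.s 121 1 (.s 122 0 (.s 58 44 (.s 121 17 .z)))))))
  (.s (.s (n true (n false (n true (n false e e) e) (n false e e)) e) 16397 (.s (n false (n true (n false e e) e) (n false e e)) 16391 (.s (n false (n false e e) e) 16390 (.s (n true (n false (n false (n false (n false e e) (n false e e)) (n false (n false e e) (n false e e))) (n false e e)) e) 16386 .z)))) .z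
  (.s (.s (n true (n false (n true (n false e e) e) (n false e e)) e) 16398 (.s (n false e e) 16388 (.s (n true (n false (n false (n false (n false e e) (n false e e)) (n false (n false e e) (n false e e))) (n false e e)) e) 16386 .z))) (.s 121 0 .z)
  (.s (.s (n true (n false (n true (n false e e) e) (n false e e)) e) 16393 (.s (n false (n true (n false e e) e) (n false e e)) 16391 .z)) (.s 91 7 (.s 121 1 (.s 121 0 .z)))
  (.s (.s (n false e e) 16388 (.s (n true (n true (n true (n false (n false (n false (n false e e) (n false e e)) (n false (n false e e) (n false e e))) (n false e e)) e) e) e) 16388 .z)) (.s 91 7 (.s 121 0 (.s 122 0 .z)))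
  (.s (.s (n true (n false (n true (n false e e) e) (n false e e)) e) 16390 (.s (n false (n true (n false (n true (n false e e) e) (n false e e)) e) e) 16397 (.s (n true (n false (n true (n false (n false (n false (n false e e) (n false e e)) (n false (n false e e) (n false e e))) (n false e e)) e) (n true (n false e e) e)) e) 16390 .z))) (.s 91 7 (.s 121 1 (.s 121 0 (.s 122 0 (.s 58 44 (.s 121 17 .z))))))
  (.s (.s (n true (n false (n true (n false e e) e) (n false e e)) e) 16398 (.s (n true (n false e e) e) 16389 .z)) (.s 91 7 (.s 121 0 .z))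
  (.s (.s (n true (n false e e) e) 16389 (.s (n true (n false (n true (n false e e) e) (n false e e)) e) 16393 .z)) (.s 91 7 (.s 121 0 .z))
  (.s (.s (n true (n false (n true (n false e e) e) (n false e e)) e) 16393 (.s (n true (n false (n false (n false (n false e e) (n false e e)) (n false (n false e e) (n false e e))) (n false e e)) e) 16386 (.s (n false e e) 16387 .z))) (.s 121 0 (.s 58 44 (.s 121 17 .z)))
  (.s (.s (n true (n false (n true (n false e e) e) (n false e e)) e) 16399 (.s (n true (n false e e) e) 16389 (.s (n true (n false (n false (n false (n false e e) (n false e e)) (n false (n false e e) (n false e e))) (n false e e)) e) 16386 .z))) .z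
  (.s (.s (n false e e) 16388 (.s (n false (n false e e) e) 16390 (.s (n false (n true (n false e e) e) (n false e e)) 16404 .z))) .z
  (.s (.s (n false (n true (n false e e) e) (n false e e)) 16392 (.s (n false (n false e e) e) 16393 (.s (n false e e) 16387 .z))) (.s 91 7 .z)
  (.s (.s (n false (n true (n false (n true (n false e e) e) (n false e e)) e) e) 16397 (.s (n false (n true (n true (n false (n false (n false (n false e e) (n false e e)) (n false (n false e e) (n false e e))) (n false e e)) e) e) (n false e e)) 16389 .z)) (.s 91 7 (.s 121 1 (.s 121 0 (.s 122 0 (.s 58 44 (.s 121 17 .z))))))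
  (.s (.s (n false (n true (n false e e) e) (n false e e)) 16392 (.s (n false (n false e e) e) 16390 (.s (n false (n true (n false (n true (n false e e) e) (n false e e)) e) e) 16397 .z))) (.s 91 7 (.s 121 1 .z))
  (.s (.s (n true (n false (n true (n false (n false (n false (n false e e) (n false e e)) (n false (n false e e) (n false e e))) (n false e e)) e) (n true (n false e e) e)) e) 16390 .z) (.s 121 1 (.s 91 7 (.s 121 0 (.s 122 0 (.s 58 44 (.s 141 0 (.s 121 17 .z)))))))
  (.s (.s (n false (n true (n false e e) e) (n false e e)) 16392 (.s (n false (n false e e) e) 16393 (.s (n true (n false e e) e) 16388 (.s (n true (n false (n false (n false (n false e e) (n false e e)) (n false (n false e e) (n false e e))) (n false e e)) e) 16386 .z)))) .z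
  (.s (.s (n false (n true (n true (n false (n false (n false (n false e e) (n false e e)) (n false (n false e e) (n false e e))) (n false e e)) e) e) (n false e e)) 16389 (.s (n false (n true (n false (n true (n false e e) e) (n false e e)) e) e) 16397 .z)) (.s 122 0 (.s 91 7 (.s 121 1 (.s 121 0 (.s 58 44 (.s 121 17 .z))))))
  (.s (.s (n false (n true (n false e e) e) (n false e e)) 16392 (.s (n false (n false e e) e) 16393 (.s (n true (n false e e) e) 16388 .z))) (.s 91 7 .z)
  (.s (.s (n false (n true (n false e e) e) (n false e e)) 16392 (.s (n false (n false e e) e) 16390 (.s (n true (n false (n true (n false e e) e) (n false e e)) e) 16397 .z))) (.s 91 7 .z)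
  (.s (.s (n false e e) 16388 (.s (n false (n true (n false e e) e) (n false e e)) 16392 (.s (n false (n false e e) e) 16390 (.s (n true (n false (n false (n false (n false e e) (n false e e)) (n false (n false e e) (n false e e))) (n false e e)) e) 16386 .z)))) .z
  (.s (.s (n false (n true (n false e e) e) (n false e e)) 16392 (.s (n false (n false e e) e) 16390 (.s (n true (n false (n true (n false e e) e) (n false e e)) e) 16393 .z))) (.s 91 7 (.s 121 1 .z))
  (.s (.s (n true (n false (n true (n false e e) e) (n false e e)) e) 16393 (.s (n false e e) 16388 (.s (n false (n false e e) e) 16390 .z))) (.s 91 7 .z)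
  (.s (.s (n true (n false (n true (n false e e) e) (n false e e)) e) 16397 (.s (n true (n false e e) e) 16389 (.s (n false (n false e e) e) 16390 .z))) (.s 91 7 .z)
  (.s (.s (n false (n true (n false e e) e) (n false e e)) 16392 (.s (n false (n false e e) e) 16390 (.s (n true (n false (n true (n false e e) e) (n false e e)) e) 16393 (.s (n true (n false e e) e) 16388 .z)))) (.s 91 7 .z)
  (.s (.s (n true (n false (n true (n false e e) e) (n false e e)) e) 16399 (.s (n true (n false e e) e) 16389 .z)) (.s 91 7 .z)
  (.s (.s (n false (n true (n false e e) e) (n false e e)) 16404 (.s (n false (n false e e) e) 16393 (.s (n true (n false (n true (n false e e) e) (n false e e)) e) 16397 .z))) .z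
  (.s (.s (n false (n true (n false e e) e) (n false e e)) 16392 (.s (n false (n false e e) e) 16393 (.s (n true (n false (n false (n false (n false e e) (n false e e)) (n false (n false e e) (n false e e))) (n false e e)) e) 16386 .z))) (.s 121 1 .z)
  (.s (.s (n false (n true (n false e e) e) (n false e e)) 16392 (.s (n false (n false e e) e) 16393 (.s (n true (n false (n false (n false (n false e e) (n false e e)) (n false (n false e e) (n false e e))) (n false e e)) e) 16386 (.s (n true (n false e e) e) 16388 .z)))) .z
  (.s (.s (n true (n false (n true (n false e e) e) (n false e e)) e) 16399 (.s (n false (n true (n false e e) e) (n false e e)) 16391 .z)) (.s 91 7 .z)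
  (.s (.s (n false (n true (n false e e) e) (n false e e)) 16392 (.s (n false e e) 16387 (.s (n false (n false e e) e) 16390 (.s (n true (n false (n false (n false (n false e e) (n false e e)) (n false (n false e e) (n false e e))) (n false e e)) e) 16386 .z)))) .z
  .z))))))))))))))))))))))))))))))))))))))))))))))))))))))))))))))))))))))))))))))))))))

set_option maxRecDepth 100000 in
def A124 : AE :=
 (.s 4096 4099 (.s 89 16 (.s 89 20 (.s 93 16 (.s 74 37 (.s 102 17 (.s 141 1 (.s 89 37 (.s 93 43 (.s 122 17 (.s 89 52 (.s 89 54 (.s 89 58 (.s 89 74 (.s 130 89 .z))))))))))))))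
 (.s 0x8 4100 (n false e e) .z .z)
 (.s (.s (n true (n false e e) e) 16389 (.s (n true (n false (n true (n false e e) e) (n false e e)) e) 16391 .z)) (.s 89 16 (.s 89 37 (.s 89 54 (.s 89 74 .z))))
  (.s (.s (n true (n false (n true (n false e e) e) (n false e e)) e) 16392 .z) (.s 89 16 (.s 89 20 (.s 93 16 (.s 89 37 (.s 89 52 (.s 89 54 (.s 89 58 (.s 89 74 (.s 130 89 .z)))))))))
  (.s (.s (n false (n true (n false e e) e) (n false e e)) 16391 (.s (n true (n false (n true (n false e e) e) (n false e e)) e) 16391 .z)) (.s 89 16 (.s 89 37 (.s 89 54 (.s 89 74 .z))))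
  (.s (.s (n false (n true (n false e e) e) (n false e e)) 16394 (.s (n true (n false (n true (n false e e) e) (n false e e)) e) 16391 .z)) (.s 89 16 (.s 89 37 (.s 89 54 .z)))
  (.s (.s (n true (n false (n true (n false e e) e) (n false e e)) e) 16392 (.s (n false (n true (n false (n false (n false (n false e e) (n false e e)) (n false (n false e e) (n false e e))) (n false e e)) e) (n true (n false e e) e)) 16391 .z)) (.s 89 16 (.s 89 20 (.s 93 16 (.s 89 37 (.s 89 52 (.s 89 54 (.s 89 58 (.s 130 89 .z))))))))
  (.s (.s (n true (n false (n true (n false e e) e) (n false e e)) e) 16395 .z) (.s 89 16 (.s 89 20 (.s 93 16 (.s 89 37 (.s 89 52 (.s 89 54 (.s 89 58 (.s 130 89 .z))))))))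
  (.s (.s (n false (n true (n false e e) e) (n false e e)) 16394 (.s (n false e e) 16384 .z)) (.s 89 16 (.s 89 37 (.s 89 54 .z)))
  (.s (.s (n true (n false (n true (n false e e) e) (n false e e)) e) 16395 (.s (n false (n true (n false e e) e) (n false e e)) 16391 .z)) (.s 89 16 (.s 89 37 (.s 89 54 .z)))
  (.s (.s (n false e e) 16387 (.s (n true (n false (n true (n false e e) e) (n false e e)) e) 16395 .z)) (.s 89 16 (.s 89 52 (.s 89 54 (.s 130 89 .z))))
  (.s (.s (n false e e) 16387 (.s (n true (n false (n true (n false e e) e) (n false e e)) e) 16392 .z)) (.s 89 16 (.s 89 52 (.s 89 54 (.s 89 74 (.s 130 89 .z)))))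
  (.s (.s (n false (n true (n false e e) e) (n false e e)) 16394 (.s (n false e e) 16387 .z)) (.s 89 16 (.s 89 54 .z))
  (.s (.s (n false (n true (n false e e) e) (n false e e)) 16390 (.s (n true (n false (n true (n false e e) e) (n false e e)) e) 16392 .z)) (.s 89 16 (.s 89 37 (.s 89 52 (.s 89 54 (.s 89 74 (.s 130 89 .z))))))
  (.s (.s (n true (n false (n true (n false e e) e) (n false e e)) e) 16392 (.s (n true (n false e e) e) 16388 .z)) (.s 89 16 (.s 89 37 (.s 89 52 (.s 89 54 (.s 89 74 (.s 130 89 .z))))))
  (.s (.s (n true (n false (n true (n false e e) e) (n false e e)) e) 16391 (.s (n true (n false (n true (n false e e) e) (n false e e)) e) 16392 .z)) (.s 89 16 (.s 89 20 (.s 93 16 (.s 89 37 (.s 89 52 (.s 89 54 (.s 89 58 (.s 89 74 (.s 130 89 .z)))))))))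
  (.s (.s (n true (n false e e) e) 16391 .z) (.s 89 16 (.s 89 37 (.s 89 54 (.s 89 74 .z))))
  (.s (.s (n true (n false (n true (n false e e) e) (n false e e)) e) 16392 (.s (n true (n false e e) e) 16388 (.s (n false (n true (n false (n false (n false (n false e e) (n false e e)) (n false (n false e e) (n false e e))) (n false e e)) e) (n true (n false e e) e)) 16391 .z))) (.s 89 16 (.s 89 37 (.s 89 52 (.s 89 54 (.s 130 89 .z)))))
  (.s (.s (n true (n false e e) e) 16392 .z) (.s 89 16 (.s 89 37 (.s 89 54 .z)))
  (.s (.s (n true (n false (n true (n false e e) e) (n false e e)) e) 16395 (.s (n true (n false e e) e) 16388 .z)) (.s 89 16 (.s 89 37 (.s 89 52 (.s 89 54 (.s 130 89 .z)))))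
  (.s (.s (n true (n false (n true (n false e e) e) (n false e e)) e) 16392 (.s (n false (n true (n false e e) e) (n false e e)) 16391 .z)) (.s 89 16 (.s 89 37 (.s 89 54 (.s 89 74 .z))))
  (.s (.s (n true (n false (n true (n false e e) e) (n false e e)) e) 16392 (.s (n false (n true (n false e e) e) (n false e e)) 16390 .z)) (.s 89 16 (.s 89 37 (.s 89 52 (.s 89 54 (.s 89 74 (.s 130 89 .z))))))
  (.s (.s (n true (n false (n true (n false e e) e) (n false e e)) e) 16395 (.s (n false (n true (n false e e) e) (n false e e)) 16390 .z)) (.s 89 16 (.s 89 37 (.s 89 52 (.s 89 54 (.s 130 89 .z)))))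
  (.s (.s (n true (n false (n true (n false e e) e) (n false e e)) e) 16392 (.s (n false (n true (n false e e) e) (n false e e)) 16390 (.s (n false (n true (n false (n false (n false (n false e e) (n false e e)) (n false (n false e e) (n false e e))) (n false e e)) e) (n true (n false e e) e)) 16391 .z))) (.s 89 16 (.s 89 37 (.s 89 52 (.s 89 54 (.s 130 89 .z)))))
  (.s (.s (n false (n true (n false e e) e) (n false e e)) 16391 (.s (n false e e) 16384 .z)) (.s 89 16 (.s 89 37 (.s 89 54 (.s 89 74 .z))))
  (.s (.s (n false e e) 16387 (.s (n true (n false (n true (n false e e) e) (n false e e)) e) 16392 (.s (n false (n true (n false (n false (n false (n false e e) (n false e e)) (n false (n false e e) (n false e e))) (n false e e)) e) (n true (n false e e) e)) 16391 .z))) (.s 89 16 (.s 89 52 (.s 89 54 (.s 130 89 .z))))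
  (.s (.s (n false (n true (n false e e) e) (n false e e)) 16391 (.s (n false e e) 16387 (.s (n false (n true (n false (n false (n false (n false e e) (n false e e)) (n false (n false e e) (n false e e))) (n false e e)) e) (n true (n false e e) e)) 16391 .z))) (.s 89 16 (.s 89 54 .z))
  (.s (.s (n false (n true (n false e e) e) (n false e e)) 16391 (.s (n true (n false (n true (n false e e) e) (n false e e)) e) 16395 .z)) (.s 89 16 (.s 89 37 (.s 89 54 .z)))
  (.s (.s (n true (n false (n true (n false e e) e) (n false e e)) e) 16395 (.s (n false e e) 16387 .z)) (.s 89 16 (.s 89 52 (.s 89 54 (.s 130 89 .z))))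
  (.s (.s (n false e e) 16385 (.s (n true (n false (n true (n false e e) e) (n false e e)) e) 16395 .z)) (.s 89 16 (.s 89 20 (.s 93 16 (.s 89 37 (.s 89 52 (.s 89 54 (.s 89 58 (.s 130 89 .z))))))))
  (.s (.s (n false (n true (n false (n false (n false (n false e e) (n false e e)) (n false (n false e e) (n false e e))) (n false e e)) e) (n true (n false e e) e)) 16391 (.s (n true (n false (n true (n false e e) e) (n false e e)) e) 16392 .z)) (.s 89 16 (.s 89 20 (.s 93 16 (.s 89 37 (.s 89 52 (.s 89 54 (.s 89 58 (.s 130 89 .z))))))))
  (.s (.s (n true (n false e e) e) 16392 (.s (n false e e) 16387 .z)) (.s 89 16 (.s 89 54 .z))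
  .z)))))))))))))))))))))))))))))))

set_option maxRecDepth 100000 in
def A125 : AE :=
 (.s 4096 4096 (.s 93 14 (.s 126 13 .z))
 (.s 0x3ea88a220 4098 (n true (n true (n false (n false (n false (n false e e) (n false e e)) (n false (n false e e) (n false e e))) (n false e e)) e) e) (.s 0x288 4102 (n false (n false e e) (n false e e)) .z .z) (.s 0x1754451108 4099 (n false (n true (n false (n false (n false (n false e e) (n false e e)) (n false (n false e e) (n false e e))) (n false e e)) e) (n false e e)) .z .z))
 (.s .z (.s 93 14 (.s 126 13 .z))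
  .z))

set_option maxRecDepth 100000 in
def A126 : AE :=
 (.s 4096 4099 (.s 123 2 (.s 125 2 (.s 101 13 (.s 102 13 .z))))
 (.s 0x288 4102 (n false (n false e e) (n false e e)) (.s 0x70 4101 (n true (n false e e) e) .z .z) .z)
 (.s .z (.s 123 2 (.s 125 2 (.s 101 13 (.s 102 13 .z))))
  (.s (.s (n false (n true (n false (n false (n false (n false e e) (n false e e)) (n false (n false e e) (n false e e))) (n false e e)) e) (n true (n false e e) e)) 16388 .z) (.s 123 2 (.s 125 2 .z))
  (.s (.s (n false (n true (n false (n false (n false (n false e e) (n false e e)) (n false (n false e e) (n false e e))) (n false e e)) e) (n false e e)) 16387 .z) (.s 123 2 (.s 125 2 .z))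
  (.s (.s (n false (n true (n false e e) e) (n false e e)) 16391 .z) (.s 123 2 (.s 125 2 .z))
  (.s (.s (n true (n true (n false (n false (n false (n false e e) (n false e e)) (n false (n false e e) (n false e e))) (n false e e)) e) e) 16386 .z) (.s 123 2 (.s 125 2 .z))
  (.s (.s (n false (n true (n false e e) e) (n false e e)) 16391 (.s (n false (n false e e) (n false e e)) 16389 .z)) (.s 123 2 .z)
  (.s (.s (n false (n false e e) (n false e e)) 16389 .z) (.s 123 2 (.s 101 13 (.s 102 13 .z)))
  (.s (.s (n true (n true (n false (n false (n false (n false e e) (n false e e)) (n false (n false e e) (n false e e))) (n false e e)) e) e) 16386 (.s (n true (n false e e) e) 16388 .z)) (.s 123 2 .z)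
  (.s (.s (n false (n true (n false e e) e) (n false e e)) 16402 .z) (.s 123 2 .z)
  (.s (.s (n false (n true (n false e e) e) (n false e e)) 16391 (.s (n true (n false e e) e) 16388 .z)) (.s 123 2 .z)
  .z)))))))))))

set_option maxRecDepth 100000 in
def A127 : AE :=
 (.s 4094 4099 (.s 125 1 .z)
 (.s 0x70 4101 (n true (n false e e) e) (.s 0x8 4100 (n false e e) .z .z) .z)
 (.s .z (.s 125 1 .z)
  .z))

end Pool.Agent.Helper91.ND1
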