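import Pool.Agent.Helper66.ND.Defs

/-! part of the certificate for the constant 25/48 (generated) -/

namespace Pool.Agent.Helper91.ND1

open Pool.Agent.Helper66.IL
open Pool.Agent.Helper66.IL.MB
open Pool.Agent.Helper66.ND

set_option maxRecDepth 100000 in
def A128 : AE :=
 (.s 4096 4097 (.s 54 54 (.s 64 48 (.s 92 20 (.s 98 7 (.s 58 54 (.s 64 52 (.s 64 54 (.s 100 16 (.s 87 53 (.s 89 53 (.s 93 53 (.s 87 64 (.s 89 64 (.s 130 16 (.s 100 54 (.s 126 53 (.s 100 89 (.s 130 54 .z))))))))))))))))))
 (.s 0x8 4098 (n false e e) .z .z)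
 (.s (.s (n true (n false e e) e) 16387 (.s (n true (n false (n false (n false e e) (n false e e)) (n false e e)) e) 16391 .z)) (.s 54 54 (.s 98 7 (.s 64 54 (.s 100 16 (.s 89 64 (.s 100 54 (.s 100 89 .z)))))))
  (.s (.s (n false (n false e e) (n false e e)) 16386 .z) (.s 54 54 (.s 64 48 (.s 98 7 (.s 58 54 (.s 64 52 (.s 64 54 (.s 100 16 (.s 87 53 (.s 89 53 (.s 93 53 (.s 87 64 (.s 89 64 (.s 130 16 (.s 100 54 (.s 126 53 (.s 100 89 (.s 130 54 .z)))))))))))))))))
  (.s (.s (n true (n false (n false (n false e e) (n false e e)) (n false e e)) e) 16391 (.s (n true (n false (n true (n false (n false (n false (n false e e) (n false e e)) (n false (n false e e) (n false e e))) (n false e e)) e) (n true (n false e e) e)) e) 16393 .z)) (.s 54 54 (.s 64 48 (.s 92 20 (.s 58 54 (.s 64 52 (.s 64 54 (.s 100 16 (.s 87 64 (.s 89 64 (.s 130 16 (.s 100 54 (.s 100 89 (.s 130 54 .z)))))))))))))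
  (.s (.s (n false (n true (n false e e) e) (n false e e)) 16389 (.s (n true (n false (n false (n false e e) (n false e e)) (n false e e)) e) 16391 .z)) (.s 54 54 (.s 98 7 (.s 58 54 (.s 64 54 (.s 100 16 (.s 89 64 (.s 100 54 (.s 100 89 (.s 130 54 .z)))))))))
  (.s (.s (n true (n false (n false (n false e e) (n false e e)) (n false e e)) e) 16391 .z) (.s 54 54 (.s 64 48 (.s 92 20 (.s 98 7 (.s 58 54 (.s 64 52 (.s 64 54 (.s 100 16 (.s 87 64 (.s 89 64 (.s 130 16 (.s 100 54 (.s 100 89 (.s 130 54 .z))))))))))))))
  (.s (.s (n true (n false (n true (n false e e) e) (n false e e)) e) 16396 .z) (.s 54 54 (.s 64 48 (.s 92 20 (.s 58 54 (.s 64 52 (.s 64 54 (.s 100 16 (.s 87 53 (.s 89 53 (.s 93 53 (.s 87 64 (.s 89 64 (.s 130 16 (.s 100 54 (.s 126 53 (.s 100 89 (.s 130 54 .z)))))))))))))))))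
  (.s (.s (n true (n false (n false (n false e e) (n false e e)) (n false e e)) e) 16391 (.s (n false (n true (n false (n true (n false e e) e) (n false e e)) e) (n true (n false e e) e)) 16405 .z)) (.s 54 54 (.s 64 48 (.s 92 20 (.s 58 54 (.s 64 52 (.s 64 54 (.s 100 16 (.s 87 64 (.s 89 64 (.s 130 16 (.s 100 54 (.s 100 89 (.s 130 54 .z)))))))))))))
  (.s (.s (n false (n true (n false e e) e) (n false e e)) 16387 .z) (.s 54 54 (.s 64 48 (.s 98 7 (.s 58 54 (.s 64 54 (.s 100 16 (.s 87 53 (.s 89 53 (.s 93 53 (.s 87 64 (.s 89 64 (.s 130 16 (.s 100 54 (.s 126 53 (.s 100 89 (.s 130 54 .z))))))))))))))))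
  (.s (.s (n true (n false (n true (n false e e) e) (n false e e)) e) 16401 (.s (n false (n false e e) (n false e e)) 16386 (.s (n false (n false (n true (n false e e) e) (n false e e)) (n true (n false e e) e)) 16404 .z))) (.s 54 54 (.s 64 48 (.s 58 54 (.s 64 52 (.s 64 54 (.s 100 16 (.s 87 53 (.s 87 64 (.s 89 64 (.s 130 16 (.s 100 54 (.s 126 53 (.s 100 89 (.s 130 54 .z))))))))))))))
  (.s (.s (n false (n true (n false e e) e) (n false e e)) 16394 (.s (n true (n false (n false (n false e e) (n false e e)) (n false e e)) e) 16391 .z)) (.s 54 54 (.s 98 7 (.s 64 54 (.s 100 16 (.s 89 64 (.s 100 54 (.s 100 89 (.s 130 54 .z))))))))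
  (.s (.s (n false (n false e e) (n false e e)) 16386 (.s (n true (n false (n true (n false (n false (n false (n false e e) (n false e e)) (n false (n false e e) (n false e e))) (n false e e)) e) (n true (n false e e) e)) e) 16393 .z)) (.s 54 54 (.s 64 48 (.s 58 54 (.s 64 52 (.s 64 54 (.s 100 16 (.s 87 53 (.s 89 53 (.s 93 53 (.s 87 64 (.s 89 64 (.s 130 16 (.s 100 54 (.s 126 53 (.s 100 89 (.s 130 54 .z))))))))))))))))
  (.s (.s (n true (n false e e) e) 16387 (.s (n true (n false (n false (n false e e) (n false e e)) (n false e e)) e) 16391 (.s (n true (n false (n true (n false (n false (n false (n false e e) (n false e e)) (n false (n false e e) (n false e e))) (n false e e)) e) (n true (n false e e) e)) e) 16393 .z))) (.s 54 54 (.s 64 54 (.s 100 16 (.s 89 64 (.s 100 54 (.s 100 89 .z))))))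
  (.s (.s (n true (n false (n true (n false e e) e) (n false e e)) e) 16402 (.s (n false (n false e e) (n false e e)) 16386 .z)) (.s 54 54 (.s 64 48 (.s 58 54 (.s 64 52 (.s 64 54 (.s 100 16 (.s 87 64 (.s 89 64 (.s 130 16 (.s 100 54 (.s 100 89 (.s 130 54 .z))))))))))))
  (.s (.s (n true (n false (n true (n false (n false (n false (n false e e) (n false e e)) (n false (n false e e) (n false e e))) (n false e e)) e) (n true (n false e e) e)) e) 16393 .z) (.s 54 54 (.s 64 48 (.s 92 20 (.s 58 54 (.s 64 52 (.s 64 54 (.s 100 16 (.s 87 53 (.s 89 53 (.s 93 53 (.s 87 64 (.s 89 64 (.s 130 16 (.s 100 54 (.s 126 53 (.s 100 89 (.s 130 54 .z)))))))))))))))))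
  (.s (.s (n false (n true (n false e e) e) (n false e e)) 16395 (.s (n true (n false (n false (n true (n false (n false (n false (n false e e) (n false e e)) (n false (n false e e) (n false e e))) (n false e e)) e) (n false e e)) (n false e e)) e) 16388 .z)) (.s 54 54 (.s 64 54 (.s 100 16 (.s 89 64 (.s 100 54 (.s 100 89 .z))))))
  (.s (.s (n false (n true (n false e e) e) (n false e e)) 16395 .z) (.s 54 54 (.s 64 54 (.s 100 16 (.s 89 53 (.s 89 64 (.s 100 54 (.s 100 89 .z)))))))
  (.s (.s (n true (n false e e) e) 16393 (.s (n false e e) 16384 (.s (n true (n false (n false (n false e e) (n false e e)) (n false e e)) e) 16391 .z))) (.s 54 54 (.s 89 64 (.s 100 89 .z)))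
  (.s (.s (n false e e) 16384 (.s (n true (n false (n false (n false e e) (n false e e)) (n false e e)) e) 16391 (.s (n true (n false (n true (n false e e) e) (n false e e)) e) 16396 .z))) (.s 54 54 (.s 64 48 (.s 58 54 (.s 87 64 (.s 89 64 (.s 130 16 (.s 100 89 (.s 130 54 .z))))))))
  (.s (.s (n false (n true (n false e e) e) (n false e e)) 16389 (.s (n true (n false (n false (n false (n false e e) (n false e e)) (n false (n false e e) (n false e e))) (n false e e)) e) 16383 .z)) (.s 54 54 (.s 58 54 (.s 64 54 (.s 100 16 (.s 87 53 (.s 89 53 (.s 93 53 (.s 89 64 (.s 100 54 (.s 126 53 (.s 100 89 (.s 130 54 .z))))))))))))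
  (.s (.s (n false e e) 16385 (.s (n true (n false (n false (n false e e) (n false e e)) (n false e e)) e) 16391 (.s (n false (n true (n false (n true (n false e e) e) (n false e e)) e) (n true (n false e e) e)) 16405 .z))) (.s 54 54 (.s 64 48 (.s 87 64 (.s 89 64 (.s 130 16 (.s 100 89 (.s 130 54 .z)))))))
  (.s (.s (n false e e) 16385 .z) (.s 54 54 (.s 64 48 (.s 98 7 (.s 87 53 (.s 89 53 (.s 87 64 (.s 89 64 (.s 130 16 (.s 126 53 (.s 100 89 (.s 130 54 .z)))))))))))
  (.s (.s (n true (n false e e) e) 16385 (.s (n true (n false (n true (n false e e) e) (n false e e)) e) 16396 (.s (n true (n false (n false (n true (n false (n false (n false (n false e e) (n false e e)) (n false (n false e e) (n false e e))) (n false e e)) e) (n false e e)) (n false e e)) e) 16388 .z))) (.s 54 54 (.s 64 48 (.s 58 54 (.s 64 54 (.s 100 16 (.s 87 64 (.s 89 64 (.s 130 16 (.s 100 54 (.s 100 89 (.s 130 54 .z)))))))))))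
  (.s (.s (n true (n false (n true (n false e e) e) (n false e e)) e) 16396 (.s (n true (n false (n false (n true (n false (n false (n false (n false e e) (n false e e)) (n false (n false e e) (n false e e))) (n false e e)) e) (n false e e)) (n false e e)) e) 16388 (.s (n true (n false e e) e) 16385 .z))) (.s 54 54 (.s 64 48 (.s 58 54 (.s 64 54 (.s 100 16 (.s 87 64 (.s 89 64 (.s 130 16 (.s 100 54 (.s 100 89 (.s 130 54 .z)))))))))))
  (.s (.s (n false (n true (n false e e) e) (n false e e)) 16395 (.s (n false e e) 16384 (.s (n true (n false (n false (n false e e) (n false e e)) (n false e e)) e) 16391 .z))) (.s 54 54 (.s 89 64 (.s 100 89 .z)))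
  (.s (.s (n false e e) 16384 (.s (n true (n false (n true (n false e e) e) (n false e e)) e) 16402 .z)) (.s 54 54 (.s 64 48 (.s 58 54 (.s 87 64 (.s 89 64 (.s 130 16 (.s 100 89 (.s 130 54 .z))))))))
  (.s (.s (n true (n false (n false (n true (n false (n false (n false (n false e e) (n false e e)) (n false (n false e e) (n false e e))) (n false e e)) e) (n false e e)) (n false e e)) e) 16388 (.s (n false (n false e e) (n false e e)) 16386 (.s (n true (n false (n false (n false (n false e e) (n false e e)) (n false (n false e e) (n false e e))) (n false e e)) e) 16383 .z))) (.s 54 54 (.s 64 48 (.s 58 54 (.s 64 52 (.s 64 54 (.s 100 16 (.s 87 64 (.s 89 64 (.s 130 16 (.s 100 54 (.s 100 89 (.s 130 54 .z))))))))))))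
  (.s (.s (n true (n false e e) e) 16386 .z) (.s 54 54 (.s 64 48 (.s 98 7 (.s 64 54 (.s 100 16 (.s 87 53 (.s 89 53 (.s 87 64 (.s 89 64 (.s 130 16 (.s 100 54 (.s 126 53 (.s 100 89 (.s 130 54 .z))))))))))))))
  (.s (.s (n true (n false (n false (n false e e) (n false e e)) (n false e e)) e) 16391 (.s (n true (n false (n true (n false e e) e) (n false e e)) e) 16396 .z)) (.s 54 54 (.s 64 48 (.s 92 20 (.s 58 54 (.s 64 52 (.s 64 54 (.s 100 16 (.s 87 64 (.s 89 64 (.s 130 16 (.s 100 54 (.s 100 89 (.s 130 54 .z)))))))))))))
  (.s (.s (n true (n false (n false (n false e e) (n false e e)) (n false e e)) e) 16391 (.s (n true (n false e e) e) 16385 (.s (n true (n false (n true (n false e e) e) (n false e e)) e) 16396 .z))) (.s 54 54 (.s 64 48 (.s 58 54 (.s 64 54 (.s 100 16 (.s 87 64 (.s 89 64 (.s 130 16 (.s 100 54 (.s 100 89 (.s 130 54 .z)))))))))))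
  (.s (.s (n true (n false (n true (n false e e) e) (n false e e)) e) 16396 (.s (n true (n false (n false (n false e e) (n false e e)) (n false e e)) e) 16391 (.s (n true (n false e e) e) 16385 .z))) (.s 54 54 (.s 64 48 (.s 58 54 (.s 64 54 (.s 100 16 (.s 87 64 (.s 89 64 (.s 130 16 (.s 100 54 (.s 100 89 (.s 130 54 .z)))))))))))
  (.s (.s (n true (n false (n false (n true (n false (n false (n false (n false e e) (n false e e)) (n false (n false e e) (n false e e))) (n false e e)) e) (n false e e)) (n false e e)) e) 16388 (.s (n true (n false (n true (n false e e) e) (n false e e)) e) 16396 (.s (n false (n false e e) (n false e e)) 16386 .z))) (.s 54 54 (.s 64 48 (.s 58 54 (.s 64 52 (.s 64 54 (.s 100 16 (.s 87 64 (.s 89 64 (.s 130 16 (.s 100 54 (.s 100 89 (.s 130 54 .z))))))))))))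
  (.s (.s (n false (n true (n false e e) e) (n false e e)) 16395 (.s (n true (n false (n false (n false e e) (n false e e)) (n false e e)) e) 16391 .z)) (.s 54 54 (.s 64 54 (.s 100 16 (.s 89 64 (.s 100 54 (.s 100 89 .z))))))
  (.s (.s (n true (n false e e) e) 16387 (.s (n true (n false (n false (n false (n false e e) (n false e e)) (n false (n false e e) (n false e e))) (n false e e)) e) 16383 (.s (n true (n false (n false (n false e e) (n false e e)) (n false e e)) e) 16391 .z))) (.s 54 54 (.s 64 54 (.s 100 16 (.s 89 64 (.s 100 54 (.s 100 89 .z))))))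
  (.s (.s (n false e e) 16384 (.s (n true (n false (n false (n true (n false (n false (n false (n false e e) (n false e e)) (n false (n false e e) (n false e e))) (n false e e)) e) (n false e e)) (n false e e)) e) 16388 (.s (n true (n false (n false (n false (n false e e) (n false e e)) (n false (n false e e) (n false e e))) (n false e e)) e) 16383 .z))) (.s 54 54 (.s 64 48 (.s 58 54 (.s 87 64 (.s 89 64 (.s 130 16 (.s 100 89 (.s 130 54 .z))))))))
  (.s (.s (n false (n true (n false e e) e) (n false e e)) 16389 (.s (n true (n false (n false (n false e e) (n false e e)) (n false e e)) e) 16391 (.s (n false (n false (n true (n false (n false (n false (n false e e) (n false e e)) (n false (n false e e) (n false e e))) (n false e e)) e) (n true (n false e e) e)) (n true (n false e e) e)) 16395 .z))) (.s 54 54 (.s 58 54 (.s 64 54 (.s 100 16 (.s 89 64 (.s 100 54 (.s 100 89 (.s 130 54 .z))))))))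
  (.s (.s (n false (n true (n false e e) e) (n false e e)) 16395 (.s (n false e e) 16384 (.s (n true (n false (n false (n true (n false (n false (n false (n false e e) (n false e e)) (n false (n false e e) (n false e e))) (n false e e)) e) (n false e e)) (n false e e)) e) 16388 .z))) (.s 54 54 (.s 89 64 (.s 100 89 .z)))
  (.s (.s (n false e e) 16385 (.s (n false (n true (n false e e) e) (n false e e)) 16389 (.s (n false (n true (n false (n false (n false (n false e e) (n false e e)) (n false (n false e e) (n false e e))) (n false e e)) e) (n true (n false e e) e)) 16392 .z))) (.s 54 54 (.s 87 53 (.s 89 53 (.s 89 64 (.s 126 53 (.s 100 89 (.s 130 54 .z)))))))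
  (.s (.s (n false (n true (n false e e) e) (n false e e)) 16389 (.s (n true (n false (n false (n false e e) (n false e e)) (n false e e)) e) 16391 (.s (n true (n false (n true (n false e e) e) (n false e e)) e) 16396 .z))) (.s 54 54 (.s 58 54 (.s 64 54 (.s 100 16 (.s 89 64 (.s 100 54 (.s 100 89 (.s 130 54 .z))))))))
  .z)))))))))))))))))))))))))))))))))))))))

set_option maxRecDepth 100000 in
def A129 : AE :=
 (.s 4096 4097 (.s 69 28 .z)
 (.s 0x70 4105 (n true (n false e e) e) (.s 0x8 4104 (n false e e) .z .z) (.s 0x1708 4113 (n false (n true (n false e e) e) (n false e e)) .z .z))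
 (.s .z (.s 69 28 .z)
  .z))

set_option maxRecDepth 100000 in
def A130 : AE :=
 (.s 4096 4097 (.s 126 2 (.s 129 2 (.s 130 2 (.s 145 2 .z))))
 (.s 0x288 4100 (n false (n false e e) (n false e e)) (.s 0x70 4099 (n true (n false e e) e) .z .z) .z)
 (.s .z (.s 126 2 (.s 129 2 (.s 130 2 (.s 145 2 .z))))
  (.s (.s (n false (n true (n false e e) e) (n false e e)) 16388 .z) (.s 126 2 (.s 130 2 .z))
  (.s (.s (n false (n false e e) (n false e e)) 16386 .z) (.s 126 2 (.s 145 2 .z))
  (.s (.s (n true (n false e e) e) 16386 .z) (.s 126 2 .z)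
  (.s (.s (n false (n false e e) (n false e e)) 16387 .z) (.s 126 2 .z)
  (.s (.s (n false (n false e e) (n false e e)) 16386 (.s (n false (n true (n false e e) e) (n false e e)) 16388 .z)) (.s 126 2 .z)
  (.s (.s (n false (n true (n false e e) e) (n false e e)) 16388 (.s (n true (n false e e) e) 16385 .z)) (.s 126 2 .z)
  .z))))))))

set_option maxRecDepth 100000 in
def A131 : AE :=
 (.s 4096 4096 (.s 73 28 .z)
 .z
 (.s .z (.s 73 28 .z)
  .z))

set_option maxRecDepth 100000 in
def A132 : AE :=
 (.s 4096 4096 (.s 99 14 .z)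
 (.s 0x1708 4112 (n false (n true (n false e e) e) (n false e e)) (.s 0x70 4098 (n true (n false e e) e) .z .z) (.s 0x5d445108 4106 (n false (n true (n false (n false (n false e e) (n false e e)) (n false (n false e e) (n false e e))) e) (n false e e)) .z .z))
 (.s .z (.s 99 14 .z)
  .z))

set_option maxRecDepth 100000 in
def A133 : AE :=
 (.s 4096 4101 (.s 69 39 (.s 69 48 (.s 69 52 (.s 69 58 (.s 93 69 (.s 122 48 (.s 123 69 (.s 158 69 .z))))))))
 (.s 0x288 4110 (n false (n false e e) (n false e e)) (.s 0x8 4108 (n false e e) .z .z) (.s 0x1708 4111 (n false (n true (n false e e) e) (n false e e)) .z .z))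
 (.s .z (.s 69 39 (.s 69 48 (.s 69 52 (.s 69 58 (.s 93 69 (.s 122 48 (.s 123 69 (.s 158 69 .z))))))))
  (.s .z (.s 69 48 (.s 69 52 (.s 93 69 (.s 122 48 (.s 69 39 (.s 69 58 (.s 123 69 (.s 158 69 .z))))))))
  (.s .z (.s 69 48 (.s 69 52 (.s 93 69 (.s 69 39 (.s 69 58 (.s 122 48 (.s 123 69 (.s 158 69 .z))))))))
  (.s (.s (n true (n false (n true (n false e e) e) (n false e e)) e) 16396 .z) (.s 69 39 (.s 69 48 (.s 69 52 (.s 69 58 (.s 93 69 (.s 123 69 (.s 158 69 .z)))))))
  (.s (.s (n false (n true (n false e e) e) (n false e e)) 16394 .z) (.s 69 39 (.s 69 48 (.s 69 52 (.s 93 69 (.s 122 48 (.s 123 69 (.s 158 69 .z)))))))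
  (.s (.s (n false (n true (n false e e) e) (n false e e)) 16396 .z) (.s 69 39 (.s 69 48 (.s 123 69 (.s 158 69 .z))))
  (.s (.s (n false (n false e e) (n false e e)) 16395 .z) (.s 69 39 (.s 69 48 (.s 123 69 (.s 158 69 .z))))
  (.s (.s (n false (n false e e) (n false e e)) 16394 .z) (.s 69 39 (.s 69 48 (.s 93 69 (.s 123 69 (.s 158 69 .z)))))
  (.s (.s (n false (n false e e) (n false e e)) 16396 .z) (.s 69 39 (.s 123 69 (.s 158 69 .z)))
  (.s (.s (n false (n false e e) (n false e e)) 16393 .z) (.s 69 39 (.s 69 48 (.s 69 52 (.s 93 69 (.s 122 48 (.s 123 69 (.s 158 69 .z)))))))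
  (.s (.s (n false (n true (n false e e) e) (n false e e)) 16396 (.s (n false e e) 16394 .z)) (.s 69 39 (.s 123 69 (.s 158 69 .z)))
  (.s (.s (n false e e) 16394 .z) (.s 69 39 (.s 123 69 (.s 158 69 .z)))
  .z)))))))))))))

set_option maxRecDepth 100000 in
def A134 : AE :=
 (.s 4096 4095 (.s 73 34 .z)
 (.s 0x1708 4111 (n false (n true (n false e e) e) (n false e e)) .z .z)
 (.s .z (.s 73 34 .z)
  .z))

set_option maxRecDepth 100000 in
def A135 : AE :=
 (.s 4094 4100 (.s 69 45 (.s 92 69 (.s 122 45 .z)))
 (.s 0x288 4109 (n false (n false e e) (n false e e)) (.s 0x70 4108 (n true (n false e e) e) (.s 0x8 4107 (n false e e) .z .z) .z) (.s 0x1708 4110 (n false (n true (n false e e) e) (n false e e)) .z .z))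
 (.s .z (.s 69 45 (.s 92 69 (.s 122 45 .z)))
  (.s (.s (n true (n false (n true (n false e e) e) (n false e e)) e) 16395 .z) (.s 69 45 (.s 92 69 .z))
  (.s (.s (n false (n false e e) (n false e e)) 16393 .z) (.s 69 45 .z)
  (.s (.s (n false (n true (n false e e) e) (n false e e)) 16394 .z) (.s 69 45 .z)
  .z)))))

set_option maxRecDepth 100000 in
def A136 : AE :=
 (.s 4096 4100 (.s 73 39 (.s 75 39 (.s 72 48 (.s 73 48 (.s 87 73 (.s 125 48 (.s 123 73 (.s 125 123 .z))))))))
 (.s 0x288 4109 (n false (n false e e) (n false e e)) (.s 0x8 4107 (n false e e) .z .z) .z)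
 (.s .z (.s 73 39 (.s 75 39 (.s 72 48 (.s 73 48 (.s 87 73 (.s 125 48 (.s 123 73 (.s 125 123 .z))))))))
  (.s .z (.s 73 48 (.s 87 73 (.s 125 48 (.s 73 39 (.s 75 39 (.s 72 48 (.s 123 73 (.s 125 123 .z))))))))
  (.s .z (.s 73 39 (.s 123 73 (.s 125 123 (.s 75 39 (.s 72 48 (.s 73 48 (.s 87 73 (.s 125 48 .z))))))))
  (.s .z (.s 123 73 (.s 73 39 (.s 75 39 (.s 72 48 (.s 73 48 (.s 87 73 (.s 125 48 (.s 125 123 .z))))))))
  (.s (.s (n false (n true (n true (n true (n false (n false (n false (n false e e) (n false e e)) (n false (n false e e) (n false e e))) (n false e e)) e) e) e) (n false e e)) 16392 .z) (.s 73 39 (.s 75 39 (.s 73 48 (.s 87 73 (.s 125 48 (.s 123 73 (.s 125 123 .z)))))))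
  (.s (.s (n true (n true (n false (n true (n false e e) e) (n false e e)) e) e) 16396 .z) (.s 73 39 (.s 75 39 (.s 73 48 (.s 87 73 (.s 125 48 (.s 123 73 (.s 125 123 .z)))))))
  (.s (.s (n false (n true (n false (n true (n false (n false (n false (n false e e) (n false e e)) (n false (n false e e) (n false e e))) (n false e e)) e) (n true (n false e e) e)) e) (n false e e)) 16394 .z) (.s 73 39 (.s 75 39 (.s 73 48 (.s 87 73 (.s 125 48 (.s 123 73 (.s 125 123 .z)))))))
  (.s (.s (n false (n true (n false e e) e) (n false e e)) 16396 (.s (n true (n true (n false (n true (n false e e) e) (n false e e)) e) e) 16396 .z)) (.s 73 39 (.s 73 48 (.s 87 73 (.s 125 48 (.s 123 73 (.s 125 123 .z))))))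
  (.s (.s (n false (n true (n false e e) e) (n false e e)) 16396 (.s (n false (n true (n false (n false (n false (n false e e) (n false e e)) (n false (n false e e) (n false e e))) (n false e e)) e) (n false e e)) 16390 .z)) (.s 73 39 (.s 73 48 (.s 87 73 (.s 125 48 (.s 123 73 (.s 125 123 .z))))))
  .z))))))))))

set_option maxRecDepth 100000 in
def A137 : AE :=
 (.s 4094 4097 (.s 74 39 .z)
 (.s 0x1708 4110 (n false (n true (n false e e) e) (n false e e)) (.s 0x288 4109 (n false (n false e e) (n false e e)) .z .z) .z)
 (.s .z (.s 74 39 .z)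
  .z))

set_option maxRecDepth 100000 in
def A138 : AE :=
 (.s 4094 4097 (.s 81 34 .z)
 (.s 0x1708 4110 (n false (n true (n false e e) e) (n false e e)) .z .z)
 (.s .z (.s 81 34 .z)
  .z))

set_option maxRecDepth 100000 in
def A139 : AE :=
 (.s 4094 4100 (.s 110 7 (.s 75 43 .z))
 (.s 0xee10 4111 (n true (n false (n true (n false e e) e) (n false e e)) e) (.s 0x70 4105 (n true (n false e e) e) (.s 0x8 4107 (n false e e) .z .z) (.s 0x1708 4107 (n false (n true (n false e e) e) (n false e e)) .z .z)) (.s 0x15d5114443870 4110 (n false (n false (n true (n false (n false (n false (n false e e) (n false e e)) (n false (n false e e) (n false e e))) (n false e e)) e) (n true (n false e e) e)) (n true (n false e e) e)) (.s 0x775445110e0 4108 (n true (n false (n true (n false (n false (n false (n false e e) (n false e e)) (n false (n false e e) (n false e e))) (n false e e)) e) (n true (n false e e) e)) e) .z .z) .z))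
 (.s .z (.s 110 7 (.s 75 43 .z))
  (.s (.s (n false (n true (n false (n true (n false e e) e) (n false e e)) e) (n true (n false e e) e)) 16400 .z) (.s 75 43 .z)
  (.s (.s (n false (n true (n false (n true (n false e e) e) (n false e e)) e) (n true (n false e e) e)) 16400 (.s (n false (n true (n true (n false (n false (n false (n false e e) (n false e e)) (n false (n false e e) (n false e e))) (n false e e)) e) e) (n false e e)) 16390 .z)) .z
  (.s (.s (n false (n true (n true (n false (n false (n false (n false e e) (n false e e)) (n false (n false e e) (n false e e))) (n false e e)) e) e) (n false e e)) 16390 .z) (.s 110 7 .z)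
  (.s (.s (n false (n true (n false (n false (n false (n false e e) (n false e e)) (n false (n false e e) (n false e e))) (n false e e)) e) (n true (n false e e) e)) 16390 (.s (n false (n true (n true (n false (n false (n false (n false e e) (n false e e)) (n false (n false e e) (n false e e))) (n false e e)) e) e) (n false e e)) 16390 .z)) .z
  (.s (.s (n true (n false (n true (n false e e) e) (n false e e)) e) 16394 .z) (.s 110 7 .z)
  (.s (.s (n false (n true (n true (n false (n false (n false (n false e e) (n false e e)) (n false (n false e e) (n false e e))) (n false e e)) e) e) (n false e e)) 16390 (.s (n false (n false (n false (n false (n false e e) (n false e e)) (n false (n false e e) (n false e e))) (n false e e)) (n true (n false (n true (n false e e) e) (n false e e)) e)) 16395 .z)) .z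
  .z))))))))

set_option maxRecDepth 100000 in
def A140 : AE :=
 (.s 4096 4096 (.s 105 14 .z)
 (.s 0x1708 4109 (n false (n true (n false e e) e) (n false e e)) (.s 0x288 4108 (n false (n false e e) (n false e e)) .z .z) .z)
 (.s .z (.s 105 14 .z)
  .z))

set_option maxRecDepth 100000 in
def A141 : AE :=
 (.s 4096 4099 (.s 109 14 (.s 75 48 (.s 112 14 (.s 137 2 .z))))
 (.s 0x1708 4109 (n false (n true (n false e e) e) (n false e e)) (.s 0x288 4108 (n false (n false e e) (n false e e)) .z .z) .z)
 (.s (.s (n true (n false e e) e) 16389 .z) (.s 109 14 (.s 75 48 .z))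
  (.s (.s (n true (n false e e) e) 16386 .z) (.s 75 48 (.s 109 14 (.s 112 14 .z)))
  (.s (.s (n true (n false e e) e) 16386 (.s (n true (n true (n false (n false (n false (n false e e) (n false e e)) (n false (n false e e) (n false e e))) (n false e e)) e) e) 16386 .z)) (.s 109 14 (.s 75 48 .z))
  (.s .z (.s 109 14 (.s 75 48 (.s 112 14 (.s 137 2 .z))))
  (.s (.s (n false (n true (n false (n false (n false (n false e e) (n false e e)) (n false (n false e e) (n false e e))) (n false e e)) e) (n true (n false e e) e)) 16391 .z) (.s 109 14 (.s 75 48 (.s 137 2 .z)))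
  (.s .z (.s 75 48 (.s 109 14 (.s 112 14 (.s 137 2 .z))))
  (.s (.s (n false (n true (n false e e) e) (n false e e)) 16394 .z) (.s 109 14 .z)
  (.s (.s (n false (n false e e) (n false e e)) 16393 .z) (.s 109 14 .z)
  (.s (.s (n false (n true (n false e e) e) (n false e e)) 16394 (.s (n false (n true (n false (n false (n false (n false e e) (n false e e)) (n false (n false e e) (n false e e))) (n false e e)) e) (n true (n false e e) e)) 16394 .z)) .z
  (.s (.s (n false (n true (n false (n false (n false (n false e e) (n false e e)) (n false (n false e e) (n false e e))) (n false e e)) e) (n true (n false e e) e)) 16394 .z) (.s 75 48 (.s 137 2 .z))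
  .z)))))))))))

set_option maxRecDepth 100000 in
def A142 : AE :=
 (.s 4094 4098 (.s 81 44 .z)
 (.s 0x1708 4108 (n false (n true (n false e e) e) (n false e e)) .z .z)
 (.s .z (.s 81 44 .z)
  .z))

set_option maxRecDepth 100000 in
def A143 : AE :=
 (.s 4096 4098 (.s 87 34 (.s 93 34 (.s 92 48 (.s 125 17 (.s 126 34 (.s 93 92 .z))))))
 (.s 0x70 4100 (n true (n false e e) e) (.s 0x8 4099 (n false e e) .z .z) (.s 0x1708 4108 (n false (n true (n false e e) e) (n false e e)) .z .z))
 (.s (.s (n false (n true (n true (n false (n false (n false (n false e e) (n false e e)) (n false (n false e e) (n false e e))) (n false e e)) e) e) (n false e e)) 16393 (.s (n false (n false e e) (n false e e)) 16389 .z)) (.s 125 17 .z)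
  (.s .z (.s 87 34 (.s 93 34 (.s 92 48 (.s 125 17 (.s 126 34 (.s 93 92 .z))))))
  (.s .z (.s 125 17 (.s 87 34 (.s 93 34 (.s 92 48 (.s 126 34 (.s 93 92 .z))))))
  (.s (.s (n false (n true (n false e e) e) (n false e e)) 16390 .z) (.s 87 34 (.s 93 34 (.s 126 34 .z)))
  (.s (.s (n false (n false e e) (n false e e)) 16389 .z) (.s 87 34 (.s 93 34 (.s 125 17 (.s 126 34 .z))))
  (.s (.s (n false e e) 16386 .z) (.s 87 34 (.s 92 48 (.s 125 17 (.s 126 34 .z))))
  (.s (.s (n true (n false (n false (n false (n false e e) (n false e e)) (n false (n false e e) (n false e e))) (n false e e)) e) 16390 (.s (n false e e) 16386 (.s (n false (n false e e) (n false e e)) 16389 .z))) (.s 125 17 .z)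
  (.s (.s (n false (n true (n false e e) e) (n false e e)) 16390 (.s (n false (n true (n true (n false (n false (n false (n false e e) (n false e e)) (n false (n false e e) (n false e e))) (n false e e)) e) e) (n false e e)) 16393 .z)) .z
  (.s (.s (n false (n true (n false e e) e) (n false e e)) 16395 (.s (n false (n true (n true (n false (n false (n false (n false e e) (n false e e)) (n false (n false e e) (n false e e))) (n false e e)) e) e) (n false e e)) 16393 .z)) .z
  (.s (.s (n false (n true (n true (n false (n false (n false (n false e e) (n false e e)) (n false (n false e e) (n false e e))) (n false e e)) e) e) (n false e e)) 16392 (.s (n false (n false e e) (n false e e)) 16389 .z)) (.s 87 34 (.s 125 17 (.s 126 34 .z)))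
  .z)))))))))))

set_option maxRecDepth 100000 in
def A144 : AE :=
 (.s 4096 4095 (.s 114 14 .z)
 (.s 0x1754451108 4104 (n false (n true (n false (n false (n false (n false e e) (n false e e)) (n false (n false e e) (n false e e))) (n false e e)) e) (n false e e)) (.s 0x288 4107 (n false (n false e e) (n false e e)) .z .z) .z)
 (.s .z (.s 114 14 .z)
  .z))

set_option maxRecDepth 100000 in
def A145 : AE :=
 (.s 4096 4097 (.s 87 39 (.s 73 52 (.s 93 39 (.s 75 75 (.s 93 73 (.s 123 48 (.s 126 39 (.s 123 52 (.s 126 48 (.s 126 72 (.s 123 87 (.s 123 93 (.s 130 73 (.s 126 123 (.s 158 48 .z)))))))))))))))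
 (.s 0x288 4106 (n false (n false e e) (n false e e)) .z .z)
 (.s .z (.s 87 39 (.s 73 52 (.s 93 39 (.s 75 75 (.s 93 73 (.s 123 48 (.s 126 39 (.s 123 52 (.s 126 48 (.s 126 72 (.s 123 87 (.s 123 93 (.s 130 73 (.s 126 123 (.s 158 48 .z)))))))))))))))
  (.s (.s (n false (n true (n false (n true (n false (n false (n false (n false e e) (n false e e)) (n false (n false e e) (n false e e))) (n false e e)) e) (n true (n false e e) e)) e) (n false e e)) 16394 .z) (.s 87 39 (.s 73 52 (.s 93 39 (.s 75 75 (.s 93 73 (.s 123 48 (.s 126 39 (.s 123 52 (.s 126 48 (.s 123 87 (.s 123 93 (.s 130 73 (.s 126 123 (.s 158 48 .z))))))))))))))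
  (.s (.s (n true (n true (n false (n true (n false e e) e) (n false e e)) e) e) 16396 .z) (.s 87 39 (.s 73 52 (.s 93 39 (.s 75 75 (.s 93 73 (.s 123 48 (.s 126 39 (.s 123 52 (.s 126 48 (.s 123 87 (.s 123 93 (.s 130 73 (.s 126 123 (.s 158 48 .z))))))))))))))
  (.s (.s (n false (n false e e) (n false e e)) 16392 (.s (n false (n true (n true (n true (n false (n false (n false (n false e e) (n false e e)) (n false (n false e e) (n false e e))) (n false e e)) e) e) e) (n false e e)) 16392 .z)) (.s 87 39 (.s 73 52 (.s 93 39 (.s 75 75 (.s 93 73 (.s 123 48 (.s 126 39 (.s 123 87 (.s 123 93 (.s 130 73 (.s 126 123 (.s 158 48 .z))))))))))))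
  (.s (.s (n false (n false e e) (n false e e)) 16393 .z) (.s 87 39 (.s 75 75 (.s 93 73 (.s 123 48 (.s 126 39 (.s 123 87 (.s 126 123 (.s 158 48 .z))))))))
  .z))))))

set_option maxRecDepth 100000 in
def A146 : AE :=
 (.s 4096 4096 (.s 91 39 (.s 123 91 (.s 158 91 .z)))
 (.s 0x288 4117 (n false (n false e e) (n false e e)) (.s 0x8 4103 (n false e e) .z .z) (.s 0x1708 4106 (n false (n true (n false e e) e) (n false e e)) .z .z))
 (.s .z (.s 91 39 (.s 123 91 (.s 158 91 .z)))
  .z))

set_option maxRecDepth 100000 in
def A147 : AE :=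
 (.s 4096 4093 (.s 120 16 .z)
 (.s 0xee10 4107 (n true (n false (n true (n false e e) e) (n false e e)) e) .z .z)
 (.s .z (.s 120 16 .z)
  .z))

set_option maxRecDepth 100000 in
def A148 : AE :=
 (.s 4096 4099 (.s 123 14 (.s 73 58 (.s 87 48 (.s 125 13 (.s 125 14 (.s 87 72 (.s 93 72 (.s 87 87 (.s 130 39 .z)))))))))
 (.s 0x288 4105 (n false (n false e e) (n false e e)) .z .z)
 (.s (.s (n true (n false e e) e) 16389 .z) (.s 123 14 (.s 73 58 (.s 87 48 (.s 125 14 (.s 87 72 (.s 93 72 (.s 87 87 (.s 130 39 .z))))))))
  (.s (.s (n false (n true (n true (n true (n false (n false (n false (n false e e) (n false e e)) (n false (n false e e) (n false e e))) (n false e e)) e) e) e) (n false e e)) 16392 .z) (.s 73 58 (.s 87 48 (.s 87 87 (.s 123 14 (.s 125 13 (.s 125 14 (.s 130 39 .z)))))))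
  (.s (.s (n true (n true (n false (n false (n false (n false e e) (n false e e)) (n false (n false e e) (n false e e))) (n false e e)) e) e) 16388 (.s (n true (n true (n false (n true (n false e e) e) (n false e e)) e) e) 16396 .z)) (.s 123 14 (.s 73 58 (.s 87 48 (.s 87 87 (.s 130 39 .z)))))
  (.s (.s (n false (n false e e) (n false e e)) 16392 (.s (n false (n true (n true (n true (n false (n false (n false (n false e e) (n false e e)) (n false (n false e e) (n false e e))) (n false e e)) e) e) e) (n false e e)) 16392 .z)) (.s 123 14 .z)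
  (.s (.s (n false (n true (n false (n true (n false e e) e) (n false e e)) e) (n false e e)) 16397 .z) (.s 123 14 (.s 73 58 (.s 87 48 (.s 125 13 (.s 125 14 (.s 87 87 (.s 130 39 .z)))))))
  (.s (.s (n false (n true (n false (n true (n false e e) e) (n false e e)) e) (n false e e)) 16396 .z) (.s 123 14 (.s 73 58 (.s 87 48 (.s 125 13 (.s 125 14 (.s 87 72 (.s 87 87 (.s 130 39 .z))))))))
  (.s (.s (n true (n true (n false (n true (n false e e) e) (n false e e)) e) e) 16396 (.s (n true (n true (n false (n false (n false (n false e e) (n false e e)) (n false (n false e e) (n false e e))) (n false e e)) e) e) 16386 .z)) (.s 123 14 (.s 73 58 (.s 87 48 (.s 125 14 (.s 87 87 (.s 130 39 .z))))))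
  (.s (.s (n false (n true (n false (n true (n false (n false (n false (n false e e) (n false e e)) (n false (n false e e) (n false e e))) (n false e e)) e) (n true (n false e e) e)) e) (n false e e)) 16394 .z) (.s 123 14 (.s 73 58 (.s 87 48 (.s 125 13 (.s 125 14 (.s 87 87 (.s 130 39 .z)))))))
  (.s (.s (n true (n true (n false (n true (n false e e) e) (n false e e)) e) e) 16396 .z) (.s 123 14 (.s 73 58 (.s 87 48 (.s 125 13 (.s 125 14 (.s 87 87 (.s 130 39 .z)))))))
  (.s .z (.s 123 14 (.s 73 58 (.s 87 48 (.s 125 13 (.s 125 14 (.s 87 72 (.s 93 72 (.s 87 87 (.s 130 39 .z)))))))))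
  (.s (.s (n false (n true (n true (n true (n false (n false (n false (n false e e) (n false e e)) (n false (n false e e) (n false e e))) (n false e e)) e) e) e) (n false e e)) 16392 (.s (n false (n false e e) (n false e e)) 16390 .z)) (.s 123 14 (.s 73 58 (.s 87 48 (.s 125 14 (.s 87 87 (.s 130 39 .z))))))
  (.s (.s (n false (n true (n false (n true (n false e e) e) (n false e e)) e) (n false e e)) 16396 (.s (n false (n true (n false (n true (n false (n false (n false (n false e e) (n false e e)) (n false (n false e e) (n false e e))) (n false e e)) e) (n true (n false e e) e)) e) (n false e e)) 16394 .z)) (.s 123 14 (.s 73 58 (.s 87 48 (.s 125 13 (.s 125 14 (.s 87 87 (.s 130 39 .z)))))))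
  (.s (.s (n false (n false (n false (n true (n false (n false (n false (n false e e) (n false e e)) (n false (n false e e) (n false e e))) (n false e e)) e) (n true (n false e e) e)) (n false (n false (n false (n false e e) (n false e e)) (n false (n false e e) (n false e e))) (n false e e))) (n false e e)) 16391 .z) (.s 123 14 (.s 73 58 (.s 87 48 (.s 125 13 (.s 125 14 (.s 87 87 (.s 130 39 .z)))))))
  (.s (.s (n false e e) 16390 (.s (n true (n true (n false (n false (n false (n false e e) (n false e e)) (n false (n false e e) (n false e e))) (n false e e)) e) e) 16388 (.s (n true (n true (n false (n true (n false e e) e) (n false e e)) e) e) 16396 (.s (n false (n true (n false (n false (n false (n false e e) (n false e e)) (n false (n false e e) (n false e e))) (n false e e)) e) (n false e e)) 16390 .z)))) .z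
  (.s (.s (n false (n true (n true (n true (n false (n false (n false (n false e e) (n false e e)) (n false (n false e e) (n false e e))) (n false e e)) e) e) e) (n false e e)) 16392 .z) (.s 123 14 (.s 73 58 (.s 87 48 (.s 125 13 (.s 125 14 (.s 87 87 (.s 130 39 .z)))))))
  (.s (.s (n false (n true (n false (n true (n false e e) e) (n false e e)) e) (n false e e)) 16397 (.s (n false (n true (n false (n false (n false (n false e e) (n false e e)) (n false (n false e e) (n false e e))) (n false e e)) e) (n false e e)) 16387 .z)) (.s 123 14 (.s 73 58 (.s 87 48 (.s 125 14 (.s 87 87 (.s 130 39 .z))))))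
  (.s (.s (n false e e) 16390 (.s (n false (n true (n false (n false (n false (n false e e) (n false e e)) (n false (n false e e) (n false e e))) (n false e e)) e) (n false e e)) 16390 .z)) .z
  .z))))))))))))))))))

set_option maxRecDepth 100000 in
def A149 : AE :=
 (.s 4096 4102 (.s 125 7 (.s 148 0 (.s 92 52 (.s 92 58 (.s 87 75 (.s 93 75 (.s 126 75 (.s 122 93 .z))))))))
 (.s 0x70 4104 (n true (n false e e) e) (.s 0x8 4103 (n false e e) .z .z) .z)
 (.s (.s (n false (n false e e) (n false e e)) 16393 .z) (.s 125 7 (.s 148 0 .z))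
  (.s .z (.s 125 7 (.s 148 0 (.s 92 52 (.s 92 58 (.s 87 75 (.s 93 75 (.s 126 75 (.s 122 93 .z))))))))
  (.s .z (.s 148 0 (.s 125 7 (.s 92 52 (.s 92 58 (.s 87 75 (.s 93 75 (.s 126 75 (.s 122 93 .z))))))))
  (.s (.s (n true (n false (n true (n false e e) e) (n false e e)) e) 16395 .z) (.s 125 7 (.s 92 52 (.s 92 58 (.s 87 75 (.s 93 75 (.s 126 75 .z))))))
  (.s (.s (n false e e) 16385 .z) (.s 125 7 (.s 87 75 (.s 93 75 (.s 126 75 (.s 122 93 .z)))))
  (.s (.s (n true (n false e e) e) 16386 (.s (n true (n false (n true (n false e e) e) (n false e e)) e) 16395 .z)) (.s 125 7 (.s 87 75 (.s 93 75 (.s 126 75 .z))))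
  (.s (.s (n false (n true (n false e e) e) (n false e e)) 16394 (.s (n false (n false e e) e) 16391 .z)) .z
  (.s (.s (n false e e) 16390 .z) (.s 125 7 (.s 87 75 (.s 126 75 (.s 122 93 .z))))
  (.s (.s (n false (n true (n false e e) e) (n false e e)) 16394 (.s (n true (n false (n true (n false e e) e) (n false e e)) e) 16394 .z)) .z
  (.s (.s (n true (n false e e) e) 16386 (.s (n true (n false (n true (n false e e) e) (n false e e)) e) 16395 (.s (n false (n false e e) (n false e e)) 16393 .z))) (.s 125 7 .z)
  (.s (.s (n false (n false e e) (n false e e)) 16392 .z) (.s 125 7 (.s 148 0 (.s 87 75 (.s 126 75 (.s 122 93 .z)))))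
  .z))))))))))))

set_option maxRecDepth 100000 in
def A150 : AE :=
 (.s 4096 4097 (.s 126 14 (.s 129 13 (.s 130 14 (.s 158 13 .z))))
 (.s 0x3ea88a220 4099 (n true (n true (n false (n false (n false (n false e e) (n false e e)) (n false (n false e e) (n false e e))) (n false e e)) e) e) (.s 0x288 4103 (n false (n false e e) (n false e e)) .z .z) (.s 0x1754451108 4100 (n false (n true (n false (n false (n false (n false e e) (n false e e)) (n false (n false e e) (n false e e))) (n false e e)) e) (n false e e)) .z .z))
 (.s (.s (n true (n false e e) e) 16386 .z) (.s 126 14 (.s 130 14 (.s 158 13 .z)))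
  (.s .z (.s 126 14 (.s 129 13 (.s 130 14 (.s 158 13 .z))))
  (.s (.s (n false (n true (n false (n false (n false (n false e e) (n false e e)) (n false (n false e e) (n false e e))) (n false e e)) e) (n true (n false e e) e)) 16385 .z) (.s 126 14 (.s 130 14 (.s 158 13 .z)))
  (.s (.s (n true (n true (n false (n false (n false (n false e e) (n false e e)) (n false (n false e e) (n false e e))) (n false e e)) e) e) 16385 .z) (.s 126 14 (.s 158 13 .z))
  (.s (.s (n false (n false e e) (n false e e)) 16389 .z) (.s 126 14 (.s 158 13 .z))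
  .z))))))

set_option maxRecDepth 100000 in
def A151 : AE :=
 (.s 4096 4096 (.s 99 39 .z)
 (.s 0x1708 4115 (n false (n true (n false e e) e) (n false e e)) (.s 0x288 4114 (n false (n false e e) (n false e e)) (.s 0x8 4100 (n false e e) .z .z) .z) (.s 0x5d445108 4109 (n false (n true (n false (n false (n false e e) (n false e e)) (n false (n false e e) (n false e e))) e) (n false e e)) .z .z))
 (.s .z (.s 99 39 .z)
  .z))

set_option maxRecDepth 100000 in
def A152 : AE :=
 (.s 4096 4095 (.s 101 39 (.s 102 39 (.s 123 101 (.s 158 101 .z))))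
 (.s 0x1708 4108 (n false (n true (n false e e) e) (n false e e)) (.s 0x288 4107 (n false (n false e e) (n false e e)) .z .z) .z)
 (.s .z (.s 101 39 (.s 102 39 (.s 123 101 (.s 158 101 .z))))
  .z))

set_option maxRecDepth 100000 in
def A153 : AE :=
 (.s 4096 4099 (.s 87 69 (.s 122 39 (.s 126 69 (.s 123 122 (.s 126 122 (.s 158 122 .z))))))
 (.s 0x288 4108 (n false (n false e e) (n false e e)) (.s 0x8 4106 (n false e e) .z .z) (.s 0x1708 4109 (n false (n true (n false e e) e) (n false e e)) .z .z))
 (.s .z (.s 87 69 (.s 122 39 (.s 126 69 (.s 123 122 (.s 126 122 (.s 158 122 .z))))))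
  (.s (.s (n true (n false (n true (n false e e) e) (n false e e)) e) 16398 .z) (.s 87 69 (.s 126 69 .z))
  (.s .z (.s 126 122 (.s 87 69 (.s 122 39 (.s 126 69 (.s 123 122 (.s 158 122 .z))))))
  (.s (.s (n true (n false (n true (n false e e) e) (n false e e)) e) 16396 .z) (.s 87 69 (.s 122 39 (.s 126 69 (.s 123 122 (.s 158 122 .z)))))
  (.s (.s (n false (n true (n false e e) e) (n false e e)) 16395 .z) (.s 87 69 (.s 122 39 (.s 126 69 (.s 123 122 (.s 158 122 .z)))))
  (.s (.s (n false (n false e e) (n false e e)) 16394 .z) (.s 87 69 (.s 122 39 (.s 126 69 (.s 123 122 (.s 158 122 .z)))))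
  .z)))))))

set_option maxRecDepth 100000 in
def A154 : AE :=
 (.s 4096 4098 (.s 125 39 (.s 123 72 (.s 123 75 (.s 125 87 .z))))
 (.s 0x288 4107 (n false (n false e e) (n false e e)) .z .z)
 (.s .z (.s 125 39 (.s 123 72 (.s 123 75 (.s 125 87 .z))))
  (.s (.s (n true (n true (n false (n true (n false e e) e) (n false e e)) e) e) 16398 .z) (.s 125 39 (.s 123 75 (.s 125 87 .z)))
  (.s (.s (n false (n false e e) (n false e e)) 16393 (.s (n false (n true (n true (n true (n false (n false (n false (n false e e) (n false e e)) (n false (n false e e) (n false e e))) (n false e e)) e) e) e) (n false e e)) 16394 .z)) (.s 125 39 (.s 123 75 .z))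
  .z))))

set_option maxRecDepth 100000 in
def A155 : AE :=
 (.s 4096 4097 (.s 151 14 .z)
 (.s 0x1708 4107 (n false (n true (n false e e) e) (n false e e)) (.s 0x288 4106 (n false (n false e e) (n false e e)) .z .z) .z)
 (.s .z (.s 151 14 .z)
  .z))

set_option maxRecDepth 100000 in
def A156 : AE :=
 (.s 4096 4101 (.s 89 89 (.s 122 52 (.s 93 89 (.s 100 74 (.s 130 43 (.s 130 44 (.s 126 89 (.s 130 122 (.s 161 69 .z)))))))))
 (.s 0x8 4102 (n false e e) .z .z)
 (.s (.s (n true (n false e e) e) 16391 .z) (.s 89 89 .z)
  (.s (.s (n true (n false (n true (n false e e) e) (n false e e)) e) 16394 .z) (.s 89 89 (.s 93 89 (.s 130 44 (.s 126 89 (.s 161 69 .z)))))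
  (.s (.s (n false (n true (n false e e) e) (n false e e)) 16393 .z) (.s 89 89 (.s 161 69 .z))
  (.s (.s (n false (n true (n false e e) e) (n false e e)) 16393 (.s (n false (n true (n false (n true (n false e e) e) (n false e e)) e) (n true (n false e e) e)) 16406 .z)) (.s 89 89 .z)
  (.s (.s (n false (n true (n false e e) e) (n false e e)) 16402 .z) (.s 89 89 .z)
  (.s (.s (n true (n false (n true (n false e e) e) (n false e e)) e) 16394 (.s (n true (n true (n false (n true (n false e e) e) (n false e e)) e) e) 16404 .z)) (.s 89 89 (.s 93 89 (.s 130 44 (.s 126 89 .z))))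
  (.s (.s (n false (n false e e) (n false e e)) 16392 (.s (n false (n true (n false e e) e) (n false e e)) 16390 (.s (n false (n true (n false (n true (n false e e) e) (n false e e)) e) (n true (n false e e) e)) 16406 .z))) (.s 89 89 (.s 93 89 (.s 130 44 (.s 126 89 .z))))
  (.s (.s (n false e e) 16384 (.s (n true (n false (n true (n false e e) e) (n false e e)) e) 16394 .z)) (.s 89 89 (.s 93 89 (.s 130 44 (.s 126 89 (.s 161 69 .z)))))
  (.s (.s (n true (n false (n true (n false e e) e) (n false e e)) e) 16394 (.s (n false (n true (n false (n true (n false e e) e) (n false e e)) e) (n true (n false e e) e)) 16406 .z)) (.s 89 89 (.s 93 89 (.s 130 44 (.s 126 89 .z))))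
  (.s (.s (n true (n false (n true (n false e e) e) (n false e e)) e) 16394 (.s (n false (n true (n false e e) e) (n false e e)) 16402 .z)) (.s 89 89 .z)
  (.s (.s (n false e e) 16384 (.s (n false (n true (n false e e) e) (n false e e)) 16393 (.s (n false (n true (n false (n true (n false e e) e) (n false e e)) e) (n true (n false e e) e)) 16406 .z))) (.s 89 89 .z)
  (.s (.s (n false (n false e e) (n false e e)) 16401 (.s (n false e e) 16384 .z)) (.s 89 89 (.s 93 89 (.s 130 44 (.s 126 89 .z))))
  (.s (.s (n true (n false e e) e) 16388 (.s (n false (n false e e) (n false e e)) 16392 .z)) (.s 89 89 (.s 93 89 (.s 130 44 (.s 126 89 (.s 161 69 .z)))))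
  (.s (.s (n false e e) 16387 (.s (n true (n false (n true (n false e e) e) (n false e e)) e) 16394 .z)) (.s 89 89 (.s 93 89 (.s 130 44 (.s 126 89 (.s 161 69 .z)))))
  (.s (.s (n false (n true (n false e e) e) (n false e e)) 16392 (.s (n true (n false (n true (n false e e) e) (n false e e)) e) 16394 .z)) (.s 89 89 (.s 126 89 (.s 161 69 .z)))
  (.s (.s (n false e e) 16389 (.s (n true (n false (n true (n false e e) e) (n false e e)) e) 16394 (.s (n false (n true (n false e e) e) (n false e e)) 16393 .z))) (.s 89 89 (.s 161 69 .z))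
  (.s (.s (n true (n false e e) e) 16390 (.s (n true (n false (n true (n false e e) e) (n false e e)) e) 16394 (.s (n false (n true (n false (n true (n false e e) e) (n false e e)) e) (n true (n false e e) e)) 16406 .z))) (.s 89 89 (.s 126 89 .z))
  (.s (.s (n true (n false (n true (n false e e) e) (n false e e)) e) 16394 (.s (n false (n true (n false e e) e) (n false e e)) 16393 (.s (n false (n true (n false (n true (n false e e) e) (n false e e)) e) (n true (n false e e) e)) 16406 .z))) (.s 89 89 .z)
  (.s (.s (n false e e) 16389 (.s (n true (n false (n true (n false e e) e) (n false e e)) e) 16394 (.s (n false (n true (n false e e) e) (n false e e)) 16393 (.s (n false (n true (n false (n true (n false e e) e) (n false e e)) e) (n true (n false e e) e)) 16406 .z)))) (.s 89 89 .z)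
  (.s (.s (n false e e) 16389 (.s (n true (n false (n true (n false e e) e) (n false e e)) e) 16394 .z)) (.s 89 89 (.s 126 89 (.s 161 69 .z)))
  (.s (.s (n false e e) 16389 (.s (n true (n false (n true (n false e e) e) (n false e e)) e) 16394 (.s (n false (n true (n false (n true (n false e e) e) (n false e e)) e) (n true (n false e e) e)) 16406 .z))) (.s 89 89 (.s 126 89 .z))
  (.s (.s (n true (n false (n true (n false e e) e) (n false e e)) e) 16394 (.s (n false (n true (n false e e) e) (n false e e)) 16393 .z)) (.s 89 89 (.s 161 69 .z))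
  (.s (.s (n false e e) 16387 (.s (n false (n true (n false e e) e) (n false e e)) 16393 (.s (n false (n true (n false (n true (n false e e) e) (n false e e)) e) (n true (n false e e) e)) 16406 .z))) (.s 89 89 .z)
  (.s (.s (n false e e) 16389 (.s (n false (n false e e) (n false e e)) 16392 (.s (n false (n true (n false (n true (n false e e) e) (n false e e)) e) (n true (n false e e) e)) 16406 .z))) (.s 89 89 (.s 126 89 .z))
  (.s (.s (n false e e) 16389 (.s (n false (n false e e) (n false e e)) 16401 .z)) (.s 89 89 (.s 126 89 .z))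
  (.s (.s (n true (n false e e) e) 16390 (.s (n true (n false (n true (n false e e) e) (n false e e)) e) 16394 (.s (n true (n true (n false (n true (n false e e) e) (n false e e)) e) e) 16404 .z))) (.s 89 89 (.s 126 89 .z))
  (.s (.s (n false e e) 16387 (.s (n false (n true (n false e e) e) (n false e e)) 16393 .z)) (.s 89 89 (.s 161 69 .z))
  (.s (.s (n true (n false (n true (n false e e) e) (n false e e)) e) 16394 (.s (n false (n true (n false e e) e) (n false e e)) 16393 (.s (n false (n true (n false (n true (n false e e) e) (n false e e)) e) (n false e e)) 16405 .z))) (.s 89 89 .z)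
  (.s (.s (n true (n false (n true (n false e e) e) (n false e e)) e) 16394 (.s (n false (n true (n false (n true (n false e e) e) (n false e e)) e) (n true (n false e e) e)) 16406 (.s (n false (n true (n false e e) e) (n false e e)) 16392 .z))) (.s 89 89 (.s 126 89 .z))
  (.s (.s (n false e e) 16389 (.s (n true (n false (n true (n false e e) e) (n false e e)) e) 16394 (.s (n false (n false e e) (n false e e)) 16401 .z))) (.s 89 89 (.s 126 89 .z))
  (.s (.s (n true (n false e e) e) 16390 (.s (n true (n false (n true (n false e e) e) (n false e e)) e) 16394 .z)) (.s 89 89 (.s 126 89 (.s 161 69 .z)))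
  (.s (.s (n false (n true (n false e e) e) (n false e e)) 16392 (.s (n false (n false e e) (n false e e)) 16392 .z)) (.s 89 89 (.s 126 89 (.s 161 69 .z)))
  (.s (.s (n false (n true (n false e e) e) (n false e e)) 16392 (.s (n true (n false (n true (n false e e) e) (n false e e)) e) 16394 (.s (n false (n true (n false (n true (n false e e) e) (n false e e)) e) (n true (n false e e) e)) 16406 .z))) (.s 89 89 (.s 126 89 .z))
  (.s (.s (n true (n false e e) e) 16390 (.s (n true (n false (n true (n false e e) e) (n false e e)) e) 16394 (.s (n false (n true (n false e e) e) (n false e e)) 16393 (.s (n false (n true (n false (n true (n false e e) e) (n false e e)) e) (n true (n false e e) e)) 16406 .z)))) (.s 89 89 .z)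
  (.s (.s (n true (n false (n true (n false e e) e) (n false e e)) e) 16394 (.s (n false (n false e e) (n false e e)) 16401 .z)) (.s 89 89 (.s 93 89 (.s 130 44 (.s 126 89 .z))))
  (.s (.s (n false e e) 16387 (.s (n true (n false (n true (n false e e) e) (n false e e)) e) 16394 (.s (n false (n true (n false (n true (n false e e) e) (n false e e)) e) (n true (n false e e) e)) 16406 .z))) (.s 89 89 (.s 93 89 (.s 130 44 (.s 126 89 .z))))
  (.s (.s (n false e e) 16389 (.s (n true (n false (n true (n false e e) e) (n false e e)) e) 16394 (.s (n true (n true (n false (n true (n false e e) e) (n false e e)) e) e) 16404 .z))) (.s 89 89 (.s 126 89 .z))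
  (.s (.s (n true (n false (n true (n false e e) e) (n false e e)) e) 16394 (.s (n false (n true (n false e e) e) (n false e e)) 16392 (.s (n false (n true (n false (n true (n false e e) e) (n false e e)) e) (n true (n false e e) e)) 16406 .z))) (.s 89 89 (.s 126 89 .z))
  (.s (.s (n false (n false e e) (n false e e)) 16401 (.s (n true (n false (n true (n false e e) e) (n false e e)) e) 16391 .z)) (.s 89 89 (.s 93 89 (.s 130 44 (.s 126 89 .z))))
  (.s (.s (n true (n false (n true (n false e e) e) (n false e e)) e) 16394 (.s (n true (n false e e) e) 16390 (.s (n false (n true (n false (n true (n false e e) e) (n false e e)) e) (n true (n false e e) e)) 16406 .z))) (.s 89 89 (.s 126 89 .z))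
  (.s (.s (n false (n true (n false e e) e) (n false e e)) 16393 (.s (n false (n false e e) (n false e e)) 16401 .z)) (.s 89 89 .z)
  (.s (.s (n false (n true (n false e e) e) (n false e e)) 16393 (.s (n false (n true (n false (n true (n false e e) e) (n false e e)) e) (n false e e)) 16405 .z)) (.s 89 89 .z)
  (.s (.s (n false e e) 16387 (.s (n true (n false e e) e) 16391 .z)) (.s 89 89 .z)
  (.s (.s (n true (n false (n true (n false e e) e) (n false e e)) e) 16391 (.s (n true (n false e e) e) 16391 .z)) (.s 89 89 .z)
  (.s (.s (n true (n false e e) e) 16390 (.s (n false (n false e e) (n false e e)) 16392 (.s (n false (n true (n false (n true (n false e e) e) (n false e e)) e) (n true (n false e e) e)) 16406 .z))) (.s 89 89 (.s 126 89 .z))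
  (.s (.s (n true (n false (n true (n false e e) e) (n false e e)) e) 16394 (.s (n true (n false e e) e) 16390 .z)) (.s 89 89 (.s 126 89 (.s 161 69 .z)))
  (.s (.s (n true (n false (n true (n false e e) e) (n false e e)) e) 16391 (.s (n false (n false e e) (n false e e)) 16392 (.s (n false (n true (n false (n true (n false e e) e) (n false e e)) e) (n true (n false e e) e)) 16406 .z))) (.s 89 89 (.s 93 89 (.s 130 44 (.s 126 89 .z))))
  (.s (.s (n false (n true (n false (n false (n false (n false e e) (n false e e)) (n false (n false e e) (n false e e))) (n false e e)) e) (n true (n false e e) e)) 16387 (.s (n false (n true (n false e e) e) (n false e e)) 16393 .z)) (.s 89 89 (.s 161 69 .z))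
  (.s (.s (n false (n true (n false e e) e) (n false e e)) 16392 (.s (n false (n false e e) (n false e e)) 16392 (.s (n false (n true (n false (n true (n false e e) e) (n false e e)) e) (n true (n false e e) e)) 16406 .z))) (.s 89 89 (.s 126 89 .z))
  .z))))))))))))))))))))))))))))))))))))))))))))))))))

set_option maxRecDepth 100000 in
def A157 : AE :=
 (.s 4096 4099 (.s 158 2 (.s 160 2 (.s 126 92 (.s 167 2 .z))))
 (.s 0x288 4102 (n false (n false e e) (n false e e)) (.s 0x70 4101 (n true (n false e e) e) .z .z) .z)
 (.s (.s (n false (n true (n true (n false (n false e e) (n false e e)) e) e) (n false e e)) 16392 .z) (.s 158 2 (.s 160 2 (.s 126 92 .z)))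
  (.s (.s (n false (n true (n false (n false e e) (n false e e)) e) (n false e e)) 16391 (.s (n false (n true (n false e e) e) (n false e e)) 16390 .z)) (.s 158 2 .z)
  (.s (.s (n false (n true (n false e e) e) (n false e e)) 16390 (.s (n false (n true (n false (n false e e) (n false e e)) e) (n false e e)) 16390 (.s (n false (n true (n true (n false (n false e e) (n false e e)) e) e) (n false e e)) 16392 .z))) (.s 158 2 .z)
  (.s .z (.s 158 2 (.s 160 2 (.s 126 92 (.s 167 2 .z))))
  (.s (.s (n false (n true (n false e e) e) (n false e e)) 16390 (.s (n false (n true (n true (n false (n false e e) (n false e e)) e) e) (n false e e)) 16392 .z)) (.s 158 2 (.s 160 2 .z))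
  (.s (.s (n false (n true (n false e e) e) (n false e e)) 16390 (.s (n true (n false e e) e) 16386 (.s (n false (n true (n true (n false (n false e e) (n false e e)) e) e) (n false e e)) 16392 .z))) (.s 158 2 .z)
  (.s (.s (n false (n false e e) (n false e e)) 16389 .z) (.s 158 2 .z)
  (.s (.s (n true (n false e e) e) 16387 (.s (n false (n true (n false e e) e) (n false e e)) 16390 .z)) (.s 158 2 .z)
  (.s (.s (n false e e) 16387 (.s (n false (n true (n false (n false e e) (n false e e)) e) (n false e e)) 16391 .z)) (.s 158 2 .z)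
  (.s (.s (n true (n false e e) e) 16388 .z) (.s 158 2 .z)
  (.s (.s (n false (n true (n false e e) e) (n false e e)) 16390 (.s (n false (n true (n false (n false e e) (n false e e)) e) (n false e e)) 16391 .z)) (.s 158 2 .z)
  (.s (.s (n false e e) 16387 (.s (n false (n false e e) (n false e e)) 16388 .z)) (.s 158 2 .z)
  (.s (.s (n false (n true (n false e e) e) (n false e e)) 16390 (.s (n true (n false e e) e) 16387 .z)) (.s 158 2 .z)
  (.s (.s (n false (n true (n false (n false e e) (n false e e)) e) (n false e e)) 16391 (.s (n false e e) 16387 .z)) (.s 158 2 .z)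
  (.s (.s (n false (n false e e) (n false e e)) 16388 (.s (n false e e) 16387 .z)) (.s 158 2 .z)
  (.s (.s (n false (n true (n false e e) e) (n false e e)) 16390 (.s (n false (n false e e) (n false e e)) 16388 .z)) (.s 158 2 .z)
  (.s (.s (n false (n false e e) (n false e e)) 16388 (.s (n false (n true (n false e e) e) (n false e e)) 16390 .z)) (.s 158 2 .z)
  (.s (.s (n true (n false e e) e) 16386 (.s (n false (n true (n false e e) e) (n false e e)) 16390 (.s (n false (n true (n true (n false (n false e e) (n false e e)) e) e) (n false e e)) 16392 .z))) (.s 158 2 .z)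
  .z)))))))))))))))))))

set_option maxRecDepth 100000 in
def A158 : AE :=
 (.s 4096 4098 (.s 159 0 .z)
 (.s 0x1510 4102 (n false (n false (n false e e) (n false e e)) e) (.s 0x8 4099 (n false e e) .z .z) (.s 0x1d10 4102 (n true (n false (n false e e) (n false e e)) e) .z .z))
 (.s .z (.s 159 0 .z)
  .z))

set_option maxRecDepth 100000 in
def A159 : AE :=
 (.s 4096 4095 (.s 120 89 .z)
 (.s 0xee10 4109 (n true (n false (n true (n false e e) e) (n false e e)) e) (.s 0x8 4105 (n false e e) .z .z) .z)
 (.s .z (.s 120 89 .z)
  .z))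

set_option maxRecDepth 100000 in
def A160 : AE :=
 (.s 4096 4099 (.s 158 14 (.s 125 93 (.s 126 87 (.s 126 125 (.s 163 14 (.s 126 126 (.s 130 123 (.s 158 52 (.s 145 123 .z)))))))))
 (.s 0x288 4105 (n false (n false e e) (n false e e)) .z .z)
 (.s (.s (n true (n false e e) e) 16386 .z) (.s 158 14 (.s 125 93 (.s 126 87 (.s 126 125 (.s 126 126 (.s 130 123 (.s 158 52 (.s 145 123 .z))))))))
  (.s .z (.s 126 87 (.s 126 126 (.s 130 123 (.s 158 52 (.s 158 14 (.s 125 93 (.s 126 125 (.s 163 14 (.s 145 123 .z)))))))))
  (.s .z (.s 158 14 (.s 125 93 (.s 126 87 (.s 126 125 (.s 163 14 (.s 126 126 (.s 130 123 (.s 158 52 (.s 145 123 .z)))))))))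
  (.s (.s (n true (n true (n false (n false (n false (n false e e) (n false e e)) (n false (n false e e) (n false e e))) (n false e e)) e) e) 16383 .z) (.s 158 14 (.s 125 93 (.s 126 87 (.s 126 125 (.s 126 126 (.s 130 123 (.s 158 52 (.s 145 123 .z))))))))
  (.s (.s (n false (n true (n false e e) e) (n false e e)) 16394 (.s (n true (n true (n false (n false (n false (n false e e) (n false e e)) (n false (n false e e) (n false e e))) (n false e e)) e) e) 16383 .z)) (.s 158 14 (.s 125 93 (.s 126 87 (.s 126 125 (.s 126 126 (.s 130 123 (.s 158 52 .z)))))))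
  (.s (.s (n false (n false e e) (n false e e)) 16392 .z) (.s 158 14 (.s 126 125 (.s 163 14 (.s 145 123 .z))))
  (.s (.s (n false e e) 16390 (.s (n false (n true (n false (n false (n false (n false e e) (n false e e)) (n false (n false e e) (n false e e))) (n false e e)) e) (n false e e)) 16390 (.s (n false (n true (n false e e) e) (n false e e)) 16394 .z))) (.s 126 125 .z)
  (.s .z (.s 126 125 (.s 158 14 (.s 125 93 (.s 126 87 (.s 163 14 (.s 126 126 (.s 130 123 (.s 158 52 (.s 145 123 .z)))))))))
  (.s (.s (n false e e) 16390 .z) (.s 158 14 (.s 126 125 (.s 163 14 (.s 145 123 .z))))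
  (.s (.s (n false e e) 16390 (.s (n false (n true (n false e e) e) (n false e e)) 16394 (.s (n true (n true (n false (n false (n false (n false e e) (n false e e)) (n false (n false e e) (n false e e))) (n false e e)) e) e) 16383 .z))) (.s 158 14 (.s 126 125 .z))
  .z)))))))))))

set_option maxRecDepth 100000 in
def A161 : AE :=
 (.s 4096 4095 (.s 159 7 (.s 162 0 .z))
 (.s 0x1d10 4105 (n true (n false (n false e e) (n false e e)) e) (.s 0x8 4102 (n false e e) .z .z) .z)
 (.s .z (.s 162 0 (.s 159 7 .z))
  (.s .z (.s 159 7 (.s 162 0 .z))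
  (.s (.s (n false e e) 16387 .z) (.s 159 7 .z)
  .z))))

set_option maxRecDepth 100000 in
def A162 : AE :=
 (.s 4096 4096 (.s 123 99 .z)
 (.s 0x1708 4115 (n false (n true (n false e e) e) (n false e e)) (.s 0x8 4100 (n false e e) .z .z) (.s 0x5d445108 4109 (n false (n true (n false (n false (n false e e) (n false e e)) (n false (n false e e) (n false e e))) e) (n false e e)) .z .z))
 (.s .z (.s 123 99 .z)
  .z))

set_option maxRecDepth 100000 in
def A163 : AE :=
 (.s 4096 4100 (.s 158 73 (.s 158 75 (.s 158 87 (.s 158 93 (.s 158 123 (.s 158 125 (.s 158 126 (.s 158 130 (.s 158 158 .z)))))))))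
 (.s 0x288 4109 (n false (n false e e) (n false e e)) (.s 0x8 4107 (n false e e) .z .z) .z)
 (.s .z (.s 158 73 (.s 158 75 (.s 158 87 (.s 158 93 (.s 158 123 (.s 158 125 (.s 158 126 (.s 158 130 (.s 158 158 .z)))))))))
  (.s .z (.s 158 87 (.s 158 93 (.s 158 126 (.s 158 130 (.s 158 73 (.s 158 75 (.s 158 123 (.s 158 125 (.s 158 158 .z)))))))))
  (.s (.s (n false (n false e e) (n false e e)) 16393 .z) (.s 158 73 (.s 158 75 (.s 158 87 (.s 158 123 (.s 158 125 (.s 158 126 (.s 158 158 .z)))))))
  .z))))

set_option maxRecDepth 100000 in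
def A164 : AE :=
 (.s 4096 4096 (.s 158 99 .z)
 (.s 0x1708 4115 (n false (n true (n false e e) e) (n false e e)) (.s 0x8 4100 (n false e e) .z .z) (.s 0x5d445108 4109 (n false (n true (n false (n false (n false e e) (n false e e)) (n false (n false e e) (n false e e))) e) (n false e e)) .z .z))
 (.s .z (.s 158 99 .z)
  .z))

set_option maxRecDepth 100000 in
def A165 : AE :=
 (.s 4096 4099 (.s 159 94 (.s 160 95 .z))
 (.s 0xfa20 4104 (n true (n true (n false (n false e e) (n false e e)) e) e) (.s 0x1d10 4103 (n true (n false (n false e e) (n false e e)) e) (.s 0x8 4100 (n false e e) .z .z) .z) (.s 0x1744288 4107 (n false (n true (n false (n false e e) (n false e e)) e) (n false (n false e e) (n false e e))) (.s 0x2e8870 4106 (n false (n true (n false (n false e e) (n false e e)) e) (n true (n false e e) e)) .z .z) .z))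
 (.s .z (.s 159 94 (.s 160 95 .z))
  .z))

set_option maxRecDepth 100000 in
def A166 : AE :=
 (.s 4096 4100 (.s 160 159 .z)
 (.s 0x1d10 4104 (n true (n false (n false e e) (n false e e)) e) (.s 0x70 4102 (n true (n false e e) e) (.s 0x8 4101 (n false e e) .z .z) (.s 0x1708 4104 (n false (n true (n false e e) e) (n false e e)) .z .z)) (.s 0x1544288 4108 (n false (n false (n false (n false e e) (n false e e)) e) (n false (n false e e) (n false e e))) (.s 0x2a8870 4107 (n false (n false (n false (n false e e) (n false e e)) e) (n true (n false e e) e)) .z .z) .z))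
 (.s .z (.s 160 159 .z)
  .z))

end Pool.Agent.Helper91.ND1
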