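import Pool.Agent.Helper91.ND1.LA0
import Pool.Agent.Helper91.ND1.LA1
import Pool.Agent.Helper91.ND1.LA2
import Pool.Agent.Helper91.ND1.LA3
import Pool.Agent.Helper91.ND1.LA4
import Pool.Agent.Helper91.ND1.LA5
import Pool.Agent.Helper91.ND1.LA6

/-! part of the certificate for the constant 25/48 (generated) -/

namespace Pool.Agent.Helper91.ND1

open Pool.Agent.Helper66.IL
open Pool.Agent.Helper66.IL.MB
open Pool.Agent.Helper66.ND

set_option maxRecDepth 100000 in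
def A : AT :=
 (.s A0 (.s A1 (.s A3 (.s A7 (.s A15 (.s A31 (.s A63 (.s A127 .z .z) .z) (.s A95 (.s A159 .z .z) .z)) (.s A47 (.s A79 (.s A143 .z .z) .z) (.s A111 .z .z))) (.s A23 (.s A39 (.s A71 (.s A135 .z .z) .z) (.s A103 .z .z)) (.s A55 (.s A87 (.s A151 .z .z) .z) (.s A119 .z .z)))) (.s A11 (.s A19 (.s A35 (.s A67 (.s A131 .z .z) .z) (.s A99 (.s A163 .z .z) .z)) (.s A51 (.s A83 (.s A147 .z .z) .z) (.s A115 .z .z))) (.s A27 (.s A43 (.s A75 (.s A139 .z .z) .z) (.s A107 .z .z)) (.s A59 (.s A91 (.s A155 .z .z) .z) (.s A123 .z .z))))) (.s A5 (.s A9 (.s A17 (.s A33 (.s A65 (.s A129 .z .z) .z) (.s A97 (.s A161 .z .z) .z)) (.s A49 (.s A81 (.s A145 .z .z) .z) (.s A113 .z .z))) (.s A25 (.s A41 (.s A73 (.s A137 .z .z) .z) (.s A105 .z .z)) (.s A57 (.s A89 (.s A153 .z .z) .z) (.s A121 .z .z)))) (.s A13 (.s A21 (.s A37 (.s A69 (.s A133 .z .z) .z) (.s A101 (.s A165 .z .z)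 .z)) (.s A53 (.s A85 (.s A149 .z .z) .z) (.s A117 .z .z))) (.s A29 (.s A45 (.s A77 (.s A141 .z .z) .z) (.s A109 .z .z)) (.s A61 (.s A93 (.s A157 .z .z) .z) (.s A125 .z .z)))))) (.s A2 (.s A4 (.s A8 (.s A16 (.s A32 (.s A64 (.s A128 .z .z) .z) (.s A96 (.s A160 .z .z) .z)) (.s A48 (.s A80 (.s A144 .z .z) .z) (.s A112 .z .z))) (.s A24 (.s A40 (.s A72 (.s A136 .z .z) .z) (.s A104 .z .z)) (.s A56 (.s A88 (.s A152 .z .z) .z) (.s A120 .z .z)))) (.s A12 (.s A20 (.s A36 (.s A68 (.s A132 .z .z) .z) (.s A100 (.s A164 .z .z) .z)) (.s A52 (.s A84 (.s A148 .z .z) .z) (.s A116 .z .z))) (.s A28 (.s A44 (.s A76 (.s A140 .z .z) .z) (.s A108 .z .z)) (.s A60 (.s A92 (.s A156 .z .z) .z) (.s A124 .z .z))))) (.s A6 (.s A10 (.s A18 (.s A34 (.s A66 (.s A130 .z .z) .z) (.s A98 (.s A162 .z .z) .z)) (.s A50 (.s A82 (.s A146 .z .z) .z) (.s A114 .z .z))) (.s A26 (.s A42 (.s A74 (.s A138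 .z .z) .z) (.s A106 .z .z)) (.s A58 (.s A90 (.s A154 .z .z) .z) (.s A122 .z .z)))) (.s A14 (.s A22 (.s A38 (.s A70 (.s A134 .z .z) .z) (.s A102 (.s A166 .z .z) .z)) (.s A54 (.s A86 (.s A150 .z .z) .z) (.s A118 .z .z))) (.s A30 (.s A46 (.s A78 (.s A142 .z .z) .z) (.s A110 .z .z)) (.s A62 (.s A94 (.s A158 .z .z) .z) (.s A126 .z .z)))))))

end Pool.Agent.Helper91.ND1
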