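import Pool.Agent.Helper91.VD1.DT
import Pool.Agent.Helper91.ND1.LA
import Pool.Agent.Helper91.ND1.LT
import Pool.Agent.Helper91.NF.Fast

/-! part of the certificate for the constant 25/48 (generated) -/

namespace Pool.Agent.Helper91.ND1

open Pool.Agent.Helper66.IL
open Pool.Agent.Helper66.ML
open Pool.Agent.Helper66.ND
open Pool.Agent.Helper91.NF
open Pool.Agent.Helper91.VZ
open Pool.Agent.Helper91.VD1 (DT)

theorem okN0 : NTf A NN (vx DT) N0 = true := by decide +kernel

theorem okN1 : NTf A NN (vx DT) N1 = true := by decide +kernel

theorem okN2 : NTf A NN (vx DT) N2 = true := by decide +kernel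

theorem okN3 : NTf A NN (vx DT) N3 = true := by decide +kernel

theorem okN4 : NTf A NN (vx DT) N4 = true := by decide +kernel

theorem okN5 : NTf A NN (vx DT) N5 = true := by decide +kernel

theorem okN6 : NTf A NN (vx DT) N6 = true := by decide +kernel

theorem okN7 : NTf A NN (vx DT) N7 = true := by decide +kernel

theorem okN8 : NTf A NN (vx DT) N8 = true := by decide +kernel

theorem okN9 : NTf A NN (vx DT) N9 = true := by decide +kernel

theorem okN10 : NTf A NN (vx DT) N10 = true := by decide +kernel

theorem okN11 : NTf A NN (vx DT) N11 = true := by decide +kernel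

theorem okN12 : NTf A NN (vx DT) N12 = true := by decide +kernel

theorem okN13 : NTf A NN (vx DT) N13 = true := by decide +kernel

theorem okN14 : NTf A NN (vx DT) N14 = true := by decide +kernel

theorem okN15 : NTf A NN (vx DT) N15 = true := by decide +kernel

theorem okN16 : NTf A NN (vx DT) N16 = true := by decide +kernel

theorem okN17 : NTf A NN (vx DT) N17 = true := by decide +kernel

end Pool.Agent.Helper91.ND1
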