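import Pool.Agent.Helper91.VD1.DT
import Pool.Agent.Helper91.ND1.LA
import Pool.Agent.Helper91.ND1.LT
import Pool.Agent.Helper91.NF.Fast

/-! part of the certificate for the constant 25/48 (generated) -/

namespace Pool.Agent.Helper91.ND1

open Pool.Agent.Helper66.IL
open Pool.Agent.Helper66.ML
open Pool.Agent.Helper66.ND
open Pool.Agent.Helper91.NF
open Pool.Agent.Helper91.VZ
open Pool.Agent.Helper91.VD1 (DT)

theorem okN18 : NTf A NN (vx DT) N18 = true := by decide +kernel

theorem okN19 : NTf A NN (vx DT) N19 = true := by decide +kernel

theorem okN20 : NTf A NN (vx DT) N20 = true := by decide +kernel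

theorem okN21 : NTf A NN (vx DT) N21 = true := by decide +kernel

theorem okN22 : NTf A NN (vx DT) N22 = true := by decide +kernel

theorem okN23 : NTf A NN (vx DT) N23 = true := by decide +kernel

theorem okN24 : NTf A NN (vx DT) N24 = true := by decide +kernel

theorem okN25 : NTf A NN (vx DT) N25 = true := by decide +kernel

theorem okN26 : NTf A NN (vx DT) N26 = true := by decide +kernel

theorem okN27 : NTf A NN (vx DT) N27 = true := by decide +kernel

theorem okN28 : NTf A NN (vx DT) N28 = true := by decide +kernel

theorem okN29 : NTf A NN (vx DT) N29 = true := by decide +kernel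

end Pool.Agent.Helper91.ND1
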