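import Pool.Agent.Helper91.VD1.DT
import Pool.Agent.Helper91.ND1.LA
import Pool.Agent.Helper91.ND1.LT
import Pool.Agent.Helper91.NF.Fast

/-! part of the certificate for the constant 25/48 (generated) -/

namespace Pool.Agent.Helper91.ND1

open Pool.Agent.Helper66.IL
open Pool.Agent.Helper66.ML
open Pool.Agent.Helper66.ND
open Pool.Agent.Helper91.NF
open Pool.Agent.Helper91.VZ
open Pool.Agent.Helper91.VD1 (DT)

theorem okN116 : NTf A NN (vx DT) N116 = true := by decide +kernel

theorem okN117 : NTf A NN (vx DT) N117 = true := by decide +kernel

theorem okN118 : NTf A NN (vx DT) N118 = true := by decide +kernel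

theorem okN119 : NTf A NN (vx DT) N119 = true := by decide +kernel

theorem okN120 : NTf A NN (vx DT) N120 = true := by decide +kernel

theorem okN121 : NTf A NN (vx DT) N121 = true := by decide +kernel

theorem okN122 : NTf A NN (vx DT) N122 = true := by decide +kernel

theorem okN123 : NTf A NN (vx DT) N123 = true := by decide +kernel

theorem okN124 : NTf A NN (vx DT) N124 = true := by decide +kernel

theorem okN125 : NTf A NN (vx DT) N125 = true := by decide +kernel

theorem okN126 : NTf A NN (vx DT) N126 = true := by decide +kernel

end Pool.Agent.Helper91.ND1
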