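import Pool.Agent.Helper91.VD1.DT
import Pool.Agent.Helper91.ND1.LA
import Pool.Agent.Helper91.ND1.LT
import Pool.Agent.Helper91.NF.Fast

/-! part of the certificate for the constant 25/48 (generated) -/

namespace Pool.Agent.Helper91.ND1

open Pool.Agent.Helper66.IL
open Pool.Agent.Helper66.ML
open Pool.Agent.Helper66.ND
open Pool.Agent.Helper91.NF
open Pool.Agent.Helper91.VZ
open Pool.Agent.Helper91.VD1 (DT)

theorem okN127 : NTf A NN (vx DT) N127 = true := by decide +kernel

theorem okN128 : NTf A NN (vx DT) N128 = true := by decide +kernel

theorem okN129 : NTf A NN (vx DT) N129 = true := by decide +kernel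

theorem okN130 : NTf A NN (vx DT) N130 = true := by decide +kernel

theorem okN131 : NTf A NN (vx DT) N131 = true := by decide +kernel

theorem okN132 : NTf A NN (vx DT) N132 = true := by decide +kernel

theorem okN133 : NTf A NN (vx DT) N133 = true := by decide +kernel

theorem okN134 : NTf A NN (vx DT) N134 = true := by decide +kernel

theorem okN135 : NTf A NN (vx DT) N135 = true := by decide +kernel

theorem okN136 : NTf A NN (vx DT) N136 = true := by decide +kernel

end Pool.Agent.Helper91.ND1
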