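import Pool.Agent.Helper91.VD1.DT
import Pool.Agent.Helper91.ND1.LA
import Pool.Agent.Helper91.ND1.LT
import Pool.Agent.Helper91.NF.Fast

/-! part of the certificate for the constant 25/48 (generated) -/

namespace Pool.Agent.Helper91.ND1

open Pool.Agent.Helper66.IL
open Pool.Agent.Helper66.ML
open Pool.Agent.Helper66.ND
open Pool.Agent.Helper91.NF
open Pool.Agent.Helper91.VZ
open Pool.Agent.Helper91.VD1 (DT)

theorem okN137 : NTf A NN (vx DT) N137 = true := by decide +kernel

theorem okN138 : NTf A NN (vx DT) N138 = true := by decide +kernel

theorem okN139 : NTf A NN (vx DT) N139 = true := by decide +kernel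

theorem okN140 : NTf A NN (vx DT) N140 = true := by decide +kernel

theorem okN141 : NTf A NN (vx DT) N141 = true := by decide +kernel

theorem okN142 : NTf A NN (vx DT) N142 = true := by decide +kernel

theorem okN143 : NTf A NN (vx DT) N143 = true := by decide +kernel

theorem okN144 : NTf A NN (vx DT) N144 = true := by decide +kernel

theorem okN145 : NTf A NN (vx DT) N145 = true := by decide +kernel

theorem okN146 : NTf A NN (vx DT) N146 = true := by decide +kernel

end Pool.Agent.Helper91.ND1
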