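import Pool.Agent.Helper91.VD1.DT
import Pool.Agent.Helper91.ND1.LA
import Pool.Agent.Helper91.ND1.LT
import Pool.Agent.Helper91.NF.Fast

/-! part of the certificate for the constant 25/48 (generated) -/

namespace Pool.Agent.Helper91.ND1

open Pool.Agent.Helper66.IL
open Pool.Agent.Helper66.ML
open Pool.Agent.Helper66.ND
open Pool.Agent.Helper91.NF
open Pool.Agent.Helper91.VZ
open Pool.Agent.Helper91.VD1 (DT)

theorem okN166 : NTf A NN (vx DT) N166 = true := by decide +kernel

theorem okN167 : NTf A NN (vx DT) N167 = true := by decide +kernel

theorem okN168 : NTf A NN (vx DT) N168 = true := by decide +kernel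

theorem okN169 : NTf A NN (vx DT) N169 = true := by decide +kernel

theorem okN170 : NTf A NN (vx DT) N170 = true := by decide +kernel

theorem okN171 : NTf A NN (vx DT) N171 = true := by decide +kernel

theorem okN172 : NTf A NN (vx DT) N172 = true := by decide +kernel

theorem okN173 : NTf A NN (vx DT) N173 = true := by decide +kernel

theorem okN174 : NTf A NN (vx DT) N174 = true := by decide +kernel

end Pool.Agent.Helper91.ND1
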