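import Pool.Agent.Helper91.VD1.DT
import Pool.Agent.Helper91.ND1.LA
import Pool.Agent.Helper91.ND1.LT
import Pool.Agent.Helper91.NF.Fast

/-! part of the certificate for the constant 25/48 (generated) -/

namespace Pool.Agent.Helper91.ND1

open Pool.Agent.Helper66.IL
open Pool.Agent.Helper66.ML
open Pool.Agent.Helper66.ND
open Pool.Agent.Helper91.NF
open Pool.Agent.Helper91.VZ
open Pool.Agent.Helper91.VD1 (DT)

theorem okN175 : NTf A NN (vx DT) N175 = true := by decide +kernel

theorem okN176 : NTf A NN (vx DT) N176 = true := by decide +kernel

theorem okN177 : NTf A NN (vx DT) N177 = true := by decide +kernel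

theorem okN178 : NTf A NN (vx DT) N178 = true := by decide +kernel

theorem okN179 : NTf A NN (vx DT) N179 = true := by decide +kernel

theorem okN180 : NTf A NN (vx DT) N180 = true := by decide +kernel

theorem okN181 : NTf A NN (vx DT) N181 = true := by decide +kernel

theorem okN182 : NTf A NN (vx DT) N182 = true := by decide +kernel

theorem okN183 : NTf A NN (vx DT) N183 = true := by decide +kernel

theorem okN184 : NTf A NN (vx DT) N184 = true := by decide +kernel

end Pool.Agent.Helper91.ND1
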