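import Pool.Agent.Helper91.VD1.DT
import Pool.Agent.Helper91.ND1.LA
import Pool.Agent.Helper91.ND1.LT
import Pool.Agent.Helper91.NF.Fast

/-! part of the certificate for the constant 25/48 (generated) -/

namespace Pool.Agent.Helper91.ND1

open Pool.Agent.Helper66.IL
open Pool.Agent.Helper66.ML
open Pool.Agent.Helper66.ND
open Pool.Agent.Helper91.NF
open Pool.Agent.Helper91.VZ
open Pool.Agent.Helper91.VD1 (DT)

theorem okN185 : NTf A NN (vx DT) N185 = true := by decide +kernel

theorem okN186 : NTf A NN (vx DT) N186 = true := by decide +kernel

theorem okN187 : NTf A NN (vx DT) N187 = true := by decide +kernel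

theorem okN188 : NTf A NN (vx DT) N188 = true := by decide +kernel

theorem okN189 : NTf A NN (vx DT) N189 = true := by decide +kernel

theorem okN190 : NTf A NN (vx DT) N190 = true := by decide +kernel

theorem okN191 : NTf A NN (vx DT) N191 = true := by decide +kernel

theorem okN192 : NTf A NN (vx DT) N192 = true := by decide +kernel

theorem okN193 : NTf A NN (vx DT) N193 = true := by decide +kernel

end Pool.Agent.Helper91.ND1
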