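import Pool.Agent.Helper91.VD1.DT
import Pool.Agent.Helper91.ND1.LA
import Pool.Agent.Helper91.ND1.LT
import Pool.Agent.Helper91.NF.Fast

/-! part of the certificate for the constant 25/48 (generated) -/

namespace Pool.Agent.Helper91.ND1

open Pool.Agent.Helper66.IL
open Pool.Agent.Helper66.ML
open Pool.Agent.Helper66.ND
open Pool.Agent.Helper91.NF
open Pool.Agent.Helper91.VZ
open Pool.Agent.Helper91.VD1 (DT)

theorem okN30 : NTf A NN (vx DT) N30 = true := by decide +kernel

theorem okN31 : NTf A NN (vx DT) N31 = true := by decide +kernel

theorem okN32 : NTf A NN (vx DT) N32 = true := by decide +kernel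

theorem okN33 : NTf A NN (vx DT) N33 = true := by decide +kernel

theorem okN34 : NTf A NN (vx DT) N34 = true := by decide +kernel

theorem okN35 : NTf A NN (vx DT) N35 = true := by decide +kernel

theorem okN36 : NTf A NN (vx DT) N36 = true := by decide +kernel

theorem okN37 : NTf A NN (vx DT) N37 = true := by decide +kernel

theorem okN38 : NTf A NN (vx DT) N38 = true := by decide +kernel

theorem okN39 : NTf A NN (vx DT) N39 = true := by decide +kernel

theorem okN40 : NTf A NN (vx DT) N40 = true := by decide +kernel

end Pool.Agent.Helper91.ND1
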