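import Pool.Agent.Helper91.VD1.DT
import Pool.Agent.Helper91.ND1.LA
import Pool.Agent.Helper91.ND1.LT
import Pool.Agent.Helper91.NF.Fast

/-! part of the certificate for the constant 25/48 (generated) -/

namespace Pool.Agent.Helper91.ND1

open Pool.Agent.Helper66.IL
open Pool.Agent.Helper66.ML
open Pool.Agent.Helper66.ND
open Pool.Agent.Helper91.NF
open Pool.Agent.Helper91.VZ
open Pool.Agent.Helper91.VD1 (DT)

theorem okN220 : NTf A NN (vx DT) N220 = true := by decide +kernel

theorem okN221 : NTf A NN (vx DT) N221 = true := by decide +kernel

theorem okN222 : NTf A NN (vx DT) N222 = true := by decide +kernel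

theorem okN223 : NTf A NN (vx DT) N223 = true := by decide +kernel

theorem okN224 : NTf A NN (vx DT) N224 = true := by decide +kernel

theorem okN225 : NTf A NN (vx DT) N225 = true := by decide +kernel

theorem okN226 : NTf A NN (vx DT) N226 = true := by decide +kernel

theorem okN227 : NTf A NN (vx DT) N227 = true := by decide +kernel

end Pool.Agent.Helper91.ND1
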