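import Pool.Agent.Helper91.VD1.DT
import Pool.Agent.Helper91.ND1.LA
import Pool.Agent.Helper91.ND1.LT
import Pool.Agent.Helper91.NF.Fast

/-! part of the certificate for the constant 25/48 (generated) -/

namespace Pool.Agent.Helper91.ND1

open Pool.Agent.Helper66.IL
open Pool.Agent.Helper66.ML
open Pool.Agent.Helper66.ND
open Pool.Agent.Helper91.NF
open Pool.Agent.Helper91.VZ
open Pool.Agent.Helper91.VD1 (DT)

theorem okN235 : NTf A NN (vx DT) N235 = true := by decide +kernel

theorem okN236 : NTf A NN (vx DT) N236 = true := by decide +kernel

theorem okN237 : NTf A NN (vx DT) N237 = true := by decide +kernel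

theorem okN238 : NTf A NN (vx DT) N238 = true := by decide +kernel

theorem okN239 : NTf A NN (vx DT) N239 = true := by decide +kernel

theorem okN240 : NTf A NN (vx DT) N240 = true := by decide +kernel

theorem okN241 : NTf A NN (vx DT) N241 = true := by decide +kernel

end Pool.Agent.Helper91.ND1
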