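import Pool.Agent.Helper91.VD1.DT
import Pool.Agent.Helper91.ND1.LA
import Pool.Agent.Helper91.ND1.LT
import Pool.Agent.Helper91.NF.Fast

/-! part of the certificate for the constant 25/48 (generated) -/

namespace Pool.Agent.Helper91.ND1

open Pool.Agent.Helper66.IL
open Pool.Agent.Helper66.ML
open Pool.Agent.Helper66.ND
open Pool.Agent.Helper91.NF
open Pool.Agent.Helper91.VZ
open Pool.Agent.Helper91.VD1 (DT)

theorem okN41 : NTf A NN (vx DT) N41 = true := by decide +kernel

theorem okN42 : NTf A NN (vx DT) N42 = true := by decide +kernel

theorem okN43 : NTf A NN (vx DT) N43 = true := by decide +kernel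

theorem okN44 : NTf A NN (vx DT) N44 = true := by decide +kernel

theorem okN45 : NTf A NN (vx DT) N45 = true := by decide +kernel

theorem okN46 : NTf A NN (vx DT) N46 = true := by decide +kernel

theorem okN47 : NTf A NN (vx DT) N47 = true := by decide +kernel

theorem okN48 : NTf A NN (vx DT) N48 = true := by decide +kernel

theorem okN49 : NTf A NN (vx DT) N49 = true := by decide +kernel

theorem okN50 : NTf A NN (vx DT) N50 = true := by decide +kernel

theorem okN51 : NTf A NN (vx DT) N51 = true := by decide +kernel

end Pool.Agent.Helper91.ND1
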