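import Pool.Agent.Helper91.VD1.DT
import Pool.Agent.Helper91.ND1.LA
import Pool.Agent.Helper91.ND1.LT
import Pool.Agent.Helper91.NF.Fast

/-! part of the certificate for the constant 25/48 (generated) -/

namespace Pool.Agent.Helper91.ND1

open Pool.Agent.Helper66.IL
open Pool.Agent.Helper66.ML
open Pool.Agent.Helper66.ND
open Pool.Agent.Helper91.NF
open Pool.Agent.Helper91.VZ
open Pool.Agent.Helper91.VD1 (DT)

theorem okN52 : NTf A NN (vx DT) N52 = true := by decide +kernel

theorem okN53 : NTf A NN (vx DT) N53 = true := by decide +kernel

theorem okN54 : NTf A NN (vx DT) N54 = true := by decide +kernel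

theorem okN55 : NTf A NN (vx DT) N55 = true := by decide +kernel

theorem okN56 : NTf A NN (vx DT) N56 = true := by decide +kernel

theorem okN57 : NTf A NN (vx DT) N57 = true := by decide +kernel

theorem okN58 : NTf A NN (vx DT) N58 = true := by decide +kernel

theorem okN59 : NTf A NN (vx DT) N59 = true := by decide +kernel

theorem okN60 : NTf A NN (vx DT) N60 = true := by decide +kernel

theorem okN61 : NTf A NN (vx DT) N61 = true := by decide +kernel

theorem okN62 : NTf A NN (vx DT) N62 = true := by decide +kernel

end Pool.Agent.Helper91.ND1
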