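import Pool.Agent.Helper91.VD1.DT
import Pool.Agent.Helper91.ND1.LA
import Pool.Agent.Helper91.ND1.LT
import Pool.Agent.Helper91.NF.Fast

/-! part of the certificate for the constant 25/48 (generated) -/

namespace Pool.Agent.Helper91.ND1

open Pool.Agent.Helper66.IL
open Pool.Agent.Helper66.ML
open Pool.Agent.Helper66.ND
open Pool.Agent.Helper91.NF
open Pool.Agent.Helper91.VZ
open Pool.Agent.Helper91.VD1 (DT)

theorem okN63 : NTf A NN (vx DT) N63 = true := by decide +kernel

theorem okN64 : NTf A NN (vx DT) N64 = true := by decide +kernel

theorem okN65 : NTf A NN (vx DT) N65 = true := by decide +kernel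

theorem okN66 : NTf A NN (vx DT) N66 = true := by decide +kernel

theorem okN67 : NTf A NN (vx DT) N67 = true := by decide +kernel

theorem okN68 : NTf A NN (vx DT) N68 = true := by decide +kernel

theorem okN69 : NTf A NN (vx DT) N69 = true := by decide +kernel

theorem okN70 : NTf A NN (vx DT) N70 = true := by decide +kernel

theorem okN71 : NTf A NN (vx DT) N71 = true := by decide +kernel

theorem okN72 : NTf A NN (vx DT) N72 = true := by decide +kernel

end Pool.Agent.Helper91.ND1
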