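import Pool.Agent.Helper91.VD1.DT
import Pool.Agent.Helper91.ND1.LA
import Pool.Agent.Helper91.ND1.LT
import Pool.Agent.Helper91.NF.Fast

/-! part of the certificate for the constant 25/48 (generated) -/

namespace Pool.Agent.Helper91.ND1

open Pool.Agent.Helper66.IL
open Pool.Agent.Helper66.ML
open Pool.Agent.Helper66.ND
open Pool.Agent.Helper91.NF
open Pool.Agent.Helper91.VZ
open Pool.Agent.Helper91.VD1 (DT)

theorem okN73 : NTf A NN (vx DT) N73 = true := by decide +kernel

theorem okN74 : NTf A NN (vx DT) N74 = true := by decide +kernel

theorem okN75 : NTf A NN (vx DT) N75 = true := by decide +kernel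

theorem okN76 : NTf A NN (vx DT) N76 = true := by decide +kernel

theorem okN77 : NTf A NN (vx DT) N77 = true := by decide +kernel

theorem okN78 : NTf A NN (vx DT) N78 = true := by decide +kernel

theorem okN79 : NTf A NN (vx DT) N79 = true := by decide +kernel

theorem okN80 : NTf A NN (vx DT) N80 = true := by decide +kernel

theorem okN81 : NTf A NN (vx DT) N81 = true := by decide +kernel

theorem okN82 : NTf A NN (vx DT) N82 = true := by decide +kernel

theorem okN83 : NTf A NN (vx DT) N83 = true := by decide +kernel

end Pool.Agent.Helper91.ND1
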