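import Pool.Agent.Helper91.VD1.DT
import Pool.Agent.Helper91.ND1.LA
import Pool.Agent.Helper91.ND1.LT
import Pool.Agent.Helper91.NF.Fast

/-! part of the certificate for the constant 25/48 (generated) -/

namespace Pool.Agent.Helper91.ND1

open Pool.Agent.Helper66.IL
open Pool.Agent.Helper66.ML
open Pool.Agent.Helper66.ND
open Pool.Agent.Helper91.NF
open Pool.Agent.Helper91.VZ
open Pool.Agent.Helper91.VD1 (DT)

theorem okN84 : NTf A NN (vx DT) N84 = true := by decide +kernel

theorem okN85 : NTf A NN (vx DT) N85 = true := by decide +kernel

theorem okN86 : NTf A NN (vx DT) N86 = true := by decide +kernel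

theorem okN87 : NTf A NN (vx DT) N87 = true := by decide +kernel

theorem okN88 : NTf A NN (vx DT) N88 = true := by decide +kernel

theorem okN89 : NTf A NN (vx DT) N89 = true := by decide +kernel

theorem okN90 : NTf A NN (vx DT) N90 = true := by decide +kernel

theorem okN91 : NTf A NN (vx DT) N91 = true := by decide +kernel

theorem okN92 : NTf A NN (vx DT) N92 = true := by decide +kernel

theorem okN93 : NTf A NN (vx DT) N93 = true := by decide +kernel

theorem okN94 : NTf A NN (vx DT) N94 = true := by decide +kernel

end Pool.Agent.Helper91.ND1
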