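import Pool.Agent.Helper91.VD1.DT
import Pool.Agent.Helper91.ND1.LA
import Pool.Agent.Helper91.ND1.LT
import Pool.Agent.Helper91.NF.Fast

/-! part of the certificate for the constant 25/48 (generated) -/

namespace Pool.Agent.Helper91.ND1

open Pool.Agent.Helper66.IL
open Pool.Agent.Helper66.ML
open Pool.Agent.Helper66.ND
open Pool.Agent.Helper91.NF
open Pool.Agent.Helper91.VZ
open Pool.Agent.Helper91.VD1 (DT)

theorem okN95 : NTf A NN (vx DT) N95 = true := by decide +kernel

theorem okN96 : NTf A NN (vx DT) N96 = true := by decide +kernel

theorem okN97 : NTf A NN (vx DT) N97 = true := by decide +kernel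

theorem okN98 : NTf A NN (vx DT) N98 = true := by decide +kernel

theorem okN99 : NTf A NN (vx DT) N99 = true := by decide +kernel

theorem okN100 : NTf A NN (vx DT) N100 = true := by decide +kernel

theorem okN101 : NTf A NN (vx DT) N101 = true := by decide +kernel

theorem okN102 : NTf A NN (vx DT) N102 = true := by decide +kernel

theorem okN103 : NTf A NN (vx DT) N103 = true := by decide +kernel

theorem okN104 : NTf A NN (vx DT) N104 = true := by decide +kernel

theorem okN105 : NTf A NN (vx DT) N105 = true := by decide +kernel

end Pool.Agent.Helper91.ND1
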