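import Pool.Agent.Helper66.ND.Defs

/-! part of the certificate for the constant 25/48 (generated) -/

namespace Pool.Agent.Helper91.ND1

open Pool.Agent.Helper66.IL
open Pool.Agent.Helper66.ND
open Pool.Agent.Helper66.ND.LT
open Pool.Agent.Helper66.ND.Ct

set_option maxRecDepth 100000 in
def R0 : PR :=
 (.t 0 .z)

set_option maxRecDepth 100000 in
def R1 : PR :=
 (.t 0 (.t 0 .z))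

set_option maxRecDepth 100000 in
def R2 : PR :=
 (.c (t 2 1 v)
 (.c (t 2 1 v)
 (.t 1 .z)))

set_option maxRecDepth 100000 in
def R3 : PR :=
 (.c (t 2 1 v)
 (.c (t 2 1 v)
 (.c (t 2 1 (t 3 1 v))
 (.t 2 .z))))

set_option maxRecDepth 100000 in
def R4 : PR :=
 (.t 4 (.t 3 (.t 5 (.c (t 3 1 (t 2 1 v))
 (.t 20 .z)))))

set_option maxRecDepth 100000 in
def R5 : PR :=
 (.t 6 (.t 0 (.t 9 (.c (c 2 4100 r (t 3 1 v))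
 (.t 21 (.c (t 2 3 (t 3 3 v))
 .z))))))

set_option maxRecDepth 100000 in
def R6 : PR :=
 (.t 8 (.t 7 (.t 10 (.c (t 3 1 (t 2 2 v))
 (.t 22 (.t 25 (.c (t 2 1 (t 3 1 v))
 .z)))))))

set_option maxRecDepth 100000 in
def R7 : PR :=
 (.t 12 (.t 11 (.t 14 (.t 19 (.t 26 (.c (t 2 1 (t 3 3 v))
 (.t 30 (.t 37 .z))))))))

set_option maxRecDepth 100000 in
def R8 : PR :=
 (.c (t 2 3 v)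
 (.c (t 2 3 v)
 (.t 14 (.c (c 2 4099 r (t 3 1 v))
 (.c (c 3 4101 r (t 2 3 v))
 (.c (c 3 4100 r (t 2 3 v))
 (.c (c 3 4100 r (t 2 3 v))
 (.c (c 3 4099 r (t 2 3 v))
 (.c (c 3 4099 r (t 2 3 v))
 .z)))))))))

set_option maxRecDepth 100000 in
def R9 : PR :=
 (.t 13 (.c (t 2 4 v)
 (.t 14 (.c (c 2 4099 r (t 3 1 v))
 (.t 26 (.t 10 (.t 31 (.c (t 2 3 (t 3 1 v))
 (.c (c 2 4099 r (t 3 3 v))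
 (.c (t 2 3 (t 3 3 v))
 .z))))))))))

set_option maxRecDepth 100000 in
def R10 : PR :=
 (.c (t 2 3 v)
 (.c (t 2 3 v)
 (.t 14 (.c (t 3 1 (t 2 3 v))
 (.c (c 3 4101 r (t 2 3 v))
 (.c (c 3 4100 r (t 2 3 v))
 (.c (c 3 4100 r (t 2 3 v))
 (.c (c 3 4099 r (t 2 3 v))
 (.c (c 2 4099 r (t 3 3 v))
 (.c (c 3 4099 r (t 2 3 v))
 (.c (c 3 4099 r (t 2 3 v))
 .z)))))))))))

set_option maxRecDepth 100000 in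
def R11 : PR :=
 (.c (t 2 1 v)
 (.c (t 2 1 v)
 (.c (c 2 4098 r (t 3 1 v))
 (.c (c 2 4098 r (t 3 1 v))
 (.c (c 3 4101 r (t 2 1 v))
 (.c (c 3 4100 r (t 2 1 v))
 (.c (c 3 4100 r (t 2 1 v))
 (.c (c 3 4099 r (t 2 1 v))
 (.c (c 2 4098 r (t 3 3 v))
 (.c (c 3 4099 r (t 2 1 v))
 (.c (c 2 4098 r (t 3 3 v))
 (.c (c 3 4098 r (t 2 1 v))
 .z))))))))))))

set_option maxRecDepth 100000 in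
def R12 : PR :=
 (.c (t 2 1 v)
 (.c (t 2 1 v)
 (.c (t 2 1 (t 3 1 v))
 (.c (c 2 4098 r (t 3 1 v))
 (.c (c 3 4101 r (t 2 1 v))
 (.c (c 3 4100 r (t 2 1 v))
 (.c (c 3 4100 r (t 2 1 v))
 (.c (c 3 4099 r (t 2 1 v))
 (.c (c 2 4098 r (t 3 3 v))
 (.c (c 3 4099 r (t 2 1 v))
 (.c (c 2 4098 r (t 3 3 v))
 (.c (c 2 4098 r (t 3 1 v))
 (.c (c 3 4098 r (t 2 1 v))
 .z)))))))))))))

set_option maxRecDepth 100000 in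
def R13 : PR :=
 (.t 14 (.c (t 2 2 v)
 (.t 16 (.c (t 2 2 (t 3 1 v))
 (.c (t 2 3 (t 3 1 v))
 (.c (t 2 3 (t 3 3 v))
 (.c (t 2 3 (t 3 1 v))
 (.t 41 (.c (t 2 3 (t 3 3 v))
 (.c (t 2 3 (t 3 3 v))
 (.c (t 2 3 (t 3 3 v))
 (.c (t 2 2 (t 3 1 v))
 (.c (t 2 2 (t 3 1 v))
 (.t 17 .z))))))))))))))

set_option maxRecDepth 100000 in
def R14 : PR :=
 (.t 14 (.t 15 (.t 17 (.c (t 2 2 (t 3 1 v))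
 (.t 32 (.c (t 2 3 (t 3 3 v))
 (.t 38 (.t 42 (.c (t 2 3 (t 3 3 v))
 (.c (t 2 3 (t 3 3 v))
 (.c (t 2 3 (t 3 3 v))
 (.c (t 2 2 (t 3 1 v))
 (.c (t 2 2 (t 3 1 v))
 (.t 44 (.t 45 .z)))))))))))))))

set_option maxRecDepth 100000 in
def R15 : PR :=
 (.c (t 2 1 v)
 (.c (t 2 1 v)
 (.c (c 2 4098 r (t 3 1 v))
 (.c (c 2 4098 r (t 3 1 v))
 (.c (c 3 4101 r (t 2 1 v))
 (.c (c 3 4100 r (t 2 1 v))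
 (.c (c 3 4100 r (t 2 1 v))
 (.c (c 3 4099 r (t 2 1 v))
 (.c (c 2 4098 r (t 3 3 v))
 (.c (c 3 4099 r (t 2 1 v))
 (.c (c 2 4098 r (t 3 3 v))
 (.c (c 2 4098 r (t 3 1 v))
 (.c (c 3 4098 r (t 2 1 v))
 (.c (t 2 1 (t 3 3 v))
 (.c (t 2 1 (t 3 3 v))
 (.c (c 3 4098 r (t 2 1 v))
 .z))))))))))))))))

set_option maxRecDepth 100000 in
def R16 : PR :=
 (.t 18 (.c (u 2 0 (k v (k v r)))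
 (.t 14 (.c (c 2 4097 r (t 3 1 v))
 (.c (t 3 1 (u 2 0 (k v (k v r))))
 (.c (t 3 3 (u 2 0 (k v (k v r))))
 (.c (t 3 1 (u 2 0 (k v (k v r))))
 (.t 46 (.c (c 2 4097 r (t 3 3 v))
 (.c (t 3 3 (u 2 0 (k v (k v r))))
 (.c (c 2 4097 r (t 3 3 v))
 (.c (c 2 4097 r (t 3 1 v))
 (.c (c 2 4097 r (t 3 1 v))
 (.t 42 (.t 42 (.c (c 2 4097 r (t 3 1 v))
 (.t 50 .z)))))))))))))))))

set_option maxRecDepth 100000 in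
def R17 : PR :=
 (.t 0 (.t 0 (.c (c 2 4097 r (t 3 1 v))
 (.c (c 2 4097 r (t 3 1 v))
 (.c (t 3 1 (u 2 1 (k v (k v r))))
 (.c (t 3 3 (u 2 4 (k v (k v (k v r)))))
 (.c (t 3 1 (u 2 1 (k v (k v r))))
 (.t 12 (.c (c 2 4097 r (t 3 3 v))
 (.c (t 3 3 (u 2 1 (k v (k v r))))
 (.c (c 2 4097 r (t 3 3 v))
 (.c (c 2 4097 r (t 3 1 v))
 (.c (c 2 4097 r (t 3 1 v))
 (.c (c 2 4097 r (t 3 2 v))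
 (.t 35 (.c (c 2 4097 r (t 3 1 v))
 (.c (u 3 0 (k r (k r r)))
 (.t 0 .z))))))))))))))))))

set_option maxRecDepth 100000 in
def R18 : PR :=
 (.c (t 2 1 v)
 (.c (t 2 1 v)
 (.c (t 2 1 (t 3 1 v))
 (.t 23 (.c (t 2 1 (t 3 1 v))
 (.c (t 2 1 (t 3 3 v))
 (.c (t 2 1 (t 3 2 v))
 (.t 47 (.c (c 3 4099 r (t 2 1 v))
 (.c (c 3 4099 r (t 2 1 v))
 (.c (t 2 1 (t 3 3 v))
 (.c (c 3 4098 r (t 2 1 v))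
 (.c (t 2 1 (t 3 1 v))
 (.c (t 2 1 (t 3 3 v))
 (.c (t 2 1 (t 3 3 v))
 (.c (c 3 4098 r (t 2 1 v))
 (.c (c 3 4097 r (t 2 1 v))
 (.c (c 3 4097 r (t 2 1 v))
 (.c (t 2 3 (t 3 3 v))
 .z)))))))))))))))))))

set_option maxRecDepth 100000 in
def R19 : PR :=
 (.t 19 (.c (t 2 1 v)
 (.c (t 2 1 (t 3 1 v))
 (.t 24 (.c (t 2 1 (t 3 1 v))
 (.c (t 2 1 (t 3 3 v))
 (.c (t 2 1 (t 3 2 v))
 (.t 48 (.c (t 2 1 (t 3 3 v))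
 (.c (t 2 1 (t 3 3 v))
 (.c (t 2 1 (t 3 3 v))
 (.c (t 3 1 (t 2 1 v))
 (.c (t 2 1 (t 3 1 v))
 (.c (t 2 1 (t 3 3 v))
 (.c (t 2 1 (t 3 3 v))
 (.c (t 3 2 (t 2 3 v))
 (.c (t 2 3 (u 3 0 (k v (k v r))))
 (.c (c 3 4097 r (t 2 1 v))
 (.c (t 2 3 (t 3 3 v))
 (.t 57 .z))))))))))))))))))))

set_option maxRecDepth 100000 in
def R20 : PR :=
 (.t 15 (.c (t 2 2 v)
 (.c (c 2 4096 r (t 3 1 v))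
 (.c (c 2 4096 r (t 3 1 v))
 (.c (t 3 1 (u 2 0 (k (u 4 3 (k v (k v (k v r)))) r)))
 (.c (t 3 3 (u 2 0 (k (u 4 0 (k v (k v r))) r)))
 (.c (t 3 1 (u 2 0 (k (u 4 3 (k v (k v (k v r)))) r)))
 (.t 43 (.c (c 2 4096 r (t 3 3 v))
 (.c (t 3 3 (u 2 0 (k (u 4 6 (k v (k v (k v r)))) r)))
 (.c (c 2 4096 r (t 3 3 v))
 (.c (c 2 4096 r (t 3 1 v))
 (.c (c 2 4096 r (t 3 1 v))
 (.c (t 3 3 (u 2 0 (k (u 4 0 (k v (k v r))) r)))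
 (.c (t 3 3 (u 2 0 (k (u 4 0 (k v (k v r))) r)))
 (.c (c 2 4096 r (t 3 1 v))
 (.t 52 (.c (c 3 4097 r (t 2 2 v))
 (.c (c 2 4096 r (t 3 1 v))
 (.c (t 3 1 (u 2 0 (k (u 4 0 (k v (k v r))) r)))
 (.c (u 2 0 (k (u 4 0 (k (u 3 0 (k (u 5 0 (k v (k v r))) r)) (k (u 3 0 (k (u 5 0 (k v (k v r))) r)) r))) r))
 .z)))))))))))))))))))))

set_option maxRecDepth 100000 in
def R21 : PR :=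
 (.c (t 2 1 v)
 (.c (t 2 1 v)
 (.c (c 2 4095 r (t 3 1 v))
 (.c (c 2 4095 r (t 3 1 v))
 (.c (t 2 1 (t 3 1 v))
 (.c (t 2 1 (t 3 3 v))
 (.c (t 2 1 (t 3 1 v))
 (.c (t 2 1 (t 3 1 v))
 (.c (c 2 4095 r (t 3 3 v))
 (.c (t 2 1 (t 3 3 v))
 (.c (c 2 4095 r (t 3 3 v))
 (.c (c 3 4098 r (t 2 1 v))
 (.c (c 2 4095 r (t 3 1 v))
 (.c (c 2 4095 r (t 3 2 v))
 (.c (t 2 1 (t 3 3 v))
 (.c (c 2 4095 r (t 3 1 v))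
 (.c (t 2 1 (u 3 0 (k v (k v r))))
 (.c (c 3 4097 r (t 2 1 v))
 (.c (c 2 4095 r (t 3 1 v))
 (.c (c 2 4095 r (t 3 1 v))
 (.c (c 2 4095 r (t 3 2 v))
 (.c (c 3 4095 r (t 2 1 v))
 .z))))))))))))))))))))))

set_option maxRecDepth 100000 in
def R22 : PR :=
 (.t 22 (.t 22 (.c (t 3 1 (t 2 3 v))
 (.c (t 2 1 (t 3 1 v))
 (.c (t 2 3 (t 3 1 v))
 (.c (t 3 2 (t 2 3 v))
 (.c (t 3 4 (t 2 3 v))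
 (.c (t 2 3 (t 3 1 v))
 (.c (c 2 4099 r (t 3 3 v))
 (.c (t 3 4 (t 2 3 v))
 (.c (c 2 4099 r (t 3 3 v))
 (.c (c 2 4099 r (t 3 1 v))
 (.c (c 2 4099 r (t 3 1 v))
 (.c (t 3 2 (t 2 3 v))
 (.c (t 3 2 (t 2 3 v))
 (.c (c 2 4099 r (t 3 1 v))
 (.c (t 2 1 (u 3 0 (k v (k v r))))
 (.c (t 3 2 (t 2 3 v))
 (.c (t 3 1 (t 2 3 v))
 (.c (t 3 1 (t 2 3 v))
 (.c (t 3 2 (t 2 3 v))
 (.c (t 3 1 (t 2 3 v))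
 (.c (t 2 2 (t 3 3 v))
 .z)))))))))))))))))))))))

set_option maxRecDepth 100000 in
def R23 : PR :=
 (.t 27 (.c (t 2 3 v)
 (.t 33 (.c (t 2 1 (t 3 1 v))
 (.c (t 2 3 (t 3 1 v))
 (.c (t 3 3 (t 2 3 v))
 (.c (t 2 3 (t 3 1 v))
 (.c (t 2 3 (t 3 1 v))
 (.c (c 2 4104 r (t 3 3 v))
 (.c (t 3 1 (t 2 3 v))
 (.c (c 2 4104 r (t 3 3 v))
 (.c (c 2 4104 r (t 3 1 v))
 (.c (c 2 4104 r (t 3 1 v))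
 (.c (t 2 3 (t 3 3 v))
 (.c (t 2 3 (t 3 3 v))
 (.c (c 2 4104 r (t 3 1 v))
 (.c (t 2 1 (u 3 0 (k v (k v r))))
 (.c (c 3 4097 r (t 2 3 v))
 (.c (t 2 1 (t 3 1 v))
 (.c (t 3 1 (t 2 3 v))
 (.c (t 2 1 (u 3 0 (k (u 5 0 (k v (k v r))) r)))
 (.c (c 3 4095 r (t 2 3 v))
 (.c (t 2 4 (t 3 3 v))
 (.c (t 2 1 (t 3 3 v))
 .z))))))))))))))))))))))))

set_option maxRecDepth 100000 in
def R24 : PR :=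
 (.t 26 (.t 28 (.t 34 (.c (t 3 1 (u 2 3 (k v (k v r))))
 (.c (t 3 1 (u 2 3 (k v (k v r))))
 (.c (t 3 3 (u 2 1 (k v (k v r))))
 (.c (t 3 1 (u 2 1 (k v (k v r))))
 (.c (t 3 1 (u 2 1 (k v (k v r))))
 (.c (c 2 4104 r (t 3 3 v))
 (.c (t 3 3 (u 2 9 (k v (k v (k v r)))))
 (.c (c 2 4104 r (t 3 3 v))
 (.c (c 2 4104 r (t 3 1 v))
 (.c (c 2 4104 r (t 3 1 v))
 (.c (t 3 3 (u 2 1 (k v (k v r))))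
 (.t 63 (.c (c 2 4104 r (t 3 1 v))
 (.c (u 3 0 (k (u 2 3 (k v (k v r))) (k (u 2 3 (k v (k v r))) r)))
 (.c (u 3 1 (k (u 2 3 (k v (k v r))) (k (u 2 3 (k v (k v r))) r)))
 (.c (t 3 1 (u 2 3 (k v (k v r))))
 (.c (t 3 1 (u 2 3 (k v (k v r))))
 (.c (u 2 2 (k (c 3 4096 r v) (k (u 3 0 (k (u 5 0 (k v (k v r))) r)) r)))
 (.c (t 3 1 (u 2 3 (k v (k v r))))
 (.c (t 2 2 (t 3 3 v))
 (.c (t 3 1 (u 2 1 (k v (k v r))))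
 (.c (u 2 2 (k (c 3 4104 r v) (k (u 3 1 (k v (k v r))) r)))
 .z)))))))))))))))))))))))))

set_option maxRecDepth 100000 in
def R25 : PR :=
 (.t 0 (.c (t 2 3 v)
 (.c (c 2 4098 r (t 3 1 v))
 (.c (c 2 4098 r (t 3 1 v))
 (.c (t 2 2 (t 3 1 v))
 (.c (t 2 2 (t 3 3 v))
 (.c (t 2 2 (t 3 1 v))
 (.c (t 2 3 (t 3 1 v))
 (.c (c 2 4098 r (t 3 3 v))
 (.c (t 2 2 (t 3 3 v))
 (.c (c 2 4098 r (t 3 3 v))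
 (.c (c 2 4098 r (t 3 1 v))
 (.c (c 2 4098 r (t 3 1 v))
 (.c (t 2 3 (t 3 3 v))
 (.c (t 2 3 (t 3 3 v))
 (.c (c 2 4098 r (t 3 1 v))
 (.c (t 2 2 (u 3 0 (k v (k v r))))
 (.c (c 3 4097 r (t 2 3 v))
 (.c (c 2 4098 r (t 3 1 v))
 (.c (t 3 1 (t 2 1 v))
 (.c (t 2 2 (u 3 0 (k (u 5 0 (k v (k v r))) r)))
 (.c (c 2 4098 r (t 3 1 v))
 (.c (t 2 2 (t 3 3 v))
 (.c (t 2 2 (t 3 3 v))
 (.c (t 2 2 (u 3 3 (k v (k v r))))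
 (.c (t 2 2 (t 3 3 v))
 .z))))))))))))))))))))))))))

set_option maxRecDepth 100000 in
def R26 : PR :=
 (.t 29 (.t 0 (.t 35 (.c (c 2 4098 r (t 3 1 v))
 (.c (t 3 1 (u 2 0 (k (t 4 3 (t 6 1 v)) r)))
 (.c (t 2 2 (t 3 3 v))
 (.t 58 (.c (t 3 1 (u 2 0 (k (t 4 3 (t 6 1 v)) r)))
 (.c (c 2 4098 r (t 3 3 v))
 (.c (t 2 2 (t 3 3 v))
 (.c (c 2 4098 r (t 3 3 v))
 (.c (c 2 4098 r (t 3 1 v))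
 (.c (c 2 4098 r (t 3 1 v))
 (.c (t 3 3 (u 2 0 (k (t 4 3 (t 6 1 v)) r)))
 (.c (t 3 3 (u 2 0 (k (t 4 3 (t 6 1 v)) r)))
 (.c (c 2 4098 r (t 3 1 v))
 (.c (t 2 2 (u 3 0 (k v (k v r))))
 (.c (u 3 1 (k (u 2 0 (k (t 4 3 (t 6 1 v)) r)) (k (u 2 0 (k (t 4 3 (t 6 1 v)) r)) r)))
 (.c (t 3 1 (t 2 1 v))
 (.c (t 3 1 (t 2 1 v))
 (.c (t 2 2 (u 3 0 (k (u 5 0 (k v (k v r))) r)))
 (.c (t 3 1 (u 2 0 (k (t 6 1 (t 4 3 v)) r)))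
 (.c (t 2 2 (t 3 3 v))
 (.c (t 2 2 (t 3 3 v))
 (.c (t 2 2 (u 3 3 (k v (k v r))))
 (.c (t 3 2 (u 2 0 (k (t 6 1 (t 4 3 v)) r)))
 (.c (u 2 0 (k (t 4 3 (t 6 1 (u 3 0 (k (t 5 3 (t 7 1 v)) r)))) r))
 .z)))))))))))))))))))))))))))

set_option maxRecDepth 100000 in
def R27 : PR :=
 (.c (t 2 3 v)
 (.c (t 2 3 v)
 (.c (c 2 4097 r (t 3 1 v))
 (.c (c 2 4097 r (t 3 1 v))
 (.c (c 3 4101 r (t 2 3 v))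
 (.c (c 3 4100 r (t 2 3 v))
 (.c (c 3 4100 r (t 2 3 v))
 (.c (c 3 4099 r (t 2 3 v))
 (.c (c 2 4097 r (t 3 3 v))
 (.c (c 3 4099 r (t 2 3 v))
 (.c (c 2 4097 r (t 3 3 v))
 (.c (c 2 4097 r (t 3 1 v))
 (.c (c 2 4097 r (t 3 1 v))
 (.c (c 2 4097 r (t 3 2 v))
 (.c (t 2 1 (t 3 2 v))
 (.c (c 2 4097 r (t 3 1 v))
 (.c (c 3 4097 r (t 2 3 v))
 (.c (c 3 4097 r (t 2 3 v))
 (.c (c 2 4097 r (t 3 1 v))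
 (.c (c 2 4097 r (t 3 1 v))
 (.c (c 2 4097 r (t 3 2 v))
 (.c (c 2 4097 r (t 3 1 v))
 (.c (c 3 4099 r (t 2 3 v))
 (.c (c 3 4104 r (t 2 3 v))
 (.c (c 3 4104 r (t 2 3 v))
 (.c (c 3 4098 r (t 2 3 v))
 (.c (c 3 4098 r (t 2 3 v))
 (.c (c 3 4097 r (t 2 3 v))
 .z))))))))))))))))))))))))))))

set_option maxRecDepth 100000 in
def R28 : PR :=
 (.t 36 (.t 0 (.t 39 (.c (c 2 4097 r (t 3 1 v))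
 (.t 59 (.t 52 (.c (t 3 1 r)
 (.t 64 (.c (c 2 4097 r (t 3 3 v))
 (.c (t 3 3 (u 2 17 (k v (k v (k v r)))))
 (.c (c 2 4097 r (t 3 3 v))
 (.c (c 2 4097 r (t 3 1 v))
 (.c (c 2 4097 r (t 3 1 v))
 (.t 55 (.t 66 (.c (c 2 4097 r (t 3 1 v))
 (.c (u 3 0 (k r (k r r)))
 (.t 0 (.c (c 2 4097 r (t 3 1 v))
 (.c (t 3 1 r)
 (.c (u 2 2 (k (u 3 0 (k (u 5 0 (k v (k v r))) r)) (k (c 3 4096 r (u 4 1 (k v (k v r)))) r)))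
 (.c (t 3 1 r)
 (.c (t 2 1 (t 3 3 v))
 (.c (t 3 3 r)
 (.c (u 2 6 (k (u 3 1 (k v (k v r))) (k (u 3 3 (k v (k v r))) r)))
 (.c (t 3 2 r)
 (.c (u 2 17 (k (u 3 0 (k (t 5 3 (t 7 1 v)) r)) (k (u 3 0 (k (t 5 3 (t 7 1 v)) r)) (k (t 3 1 v) r))))
 (.c (c 2 4097 r (t 3 3 v))
 (.c (u 2 4 (k r (k (c 3 4097 r (u 4 1 (k v (k v r)))) r)))
 .z)))))))))))))))))))))))))))))

set_option maxRecDepth 100000 in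
def R29 : PR :=
 (.c (t 2 1 v)
 (.c (t 2 1 v)
 (.c (c 2 4097 r (t 3 1 v))
 (.c (c 2 4097 r (t 3 1 v))
 (.c (c 3 4101 r (t 2 1 v))
 (.c (c 3 4100 r (t 2 1 v))
 (.c (c 3 4100 r (t 2 1 v))
 (.c (c 3 4099 r (t 2 1 v))
 (.c (c 2 4097 r (t 3 3 v))
 (.c (c 3 4099 r (t 2 1 v))
 (.c (c 2 4097 r (t 3 3 v))
 (.c (c 3 4098 r (t 2 1 v))
 (.c (c 3 4098 r (t 2 1 v))
 (.c (c 2 4097 r (t 3 2 v))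
 (.c (t 2 1 (t 3 3 v))
 (.c (c 2 4097 r (t 3 1 v))
 (.c (c 3 4097 r (t 2 1 v))
 (.c (c 3 4097 r (t 2 1 v))
 (.c (c 2 4097 r (t 3 1 v))
 (.c (c 2 4097 r (t 3 1 v))
 (.c (c 2 4097 r (t 3 2 v))
 (.c (c 2 4097 r (t 3 1 v))
 (.c (c 3 4099 r (t 2 1 v))
 (.c (c 3 4104 r (t 2 1 v))
 (.c (c 3 4104 r (t 2 1 v))
 (.c (c 3 4098 r (t 2 1 v))
 (.c (c 3 4098 r (t 2 1 v))
 (.c (c 3 4097 r (t 2 1 v))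
 (.c (c 3 4097 r (t 2 1 v))
 (.c (c 3 4097 r (t 2 1 v))
 .z))))))))))))))))))))))))))))))

set_option maxRecDepth 100000 in
def R30 : PR :=
 (.t 0 (.t 0 (.c (c 2 4097 r (t 3 1 v))
 (.c (c 2 4097 r (t 3 1 v))
 (.c (t 3 1 (u 2 0 (k (u 4 9 (k v (k v (k v r)))) r)))
 (.c (t 3 1 (u 2 0 (k (u 4 1 (k v (k v r))) r)))
 (.c (t 3 1 (u 2 0 (k (u 4 9 (k v (k v (k v r)))) r)))
 (.c (t 3 1 (u 2 0 (k (u 4 1 (k v (k v r))) r)))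
 (.c (c 2 4097 r (t 3 3 v))
 (.c (t 3 1 (u 2 0 (k (u 4 1 (k v (k v r))) r)))
 (.c (c 2 4097 r (t 3 3 v))
 (.c (c 2 4097 r (t 3 1 v))
 (.c (c 2 4097 r (t 3 1 v))
 (.c (c 2 4097 r (t 3 2 v))
 (.c (t 3 3 (u 2 0 (k (u 4 3 (k v (k v r))) r)))
 (.c (c 2 4097 r (t 3 1 v))
 (.c (u 3 0 (k (u 2 0 (k (u 4 1 (k v (k v r))) r)) (k (u 2 0 (k (u 4 1 (k v (k v r))) r)) r)))
 (.c (u 3 2 (k (u 2 0 (k (u 4 1 (k v (k v r))) r)) (k (c 2 4097 r v) r)))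
 (.c (c 2 4097 r (t 3 1 v))
 (.c (c 2 4097 r (t 3 1 v))
 (.c (c 2 4097 r (t 3 2 v))
 (.c (c 2 4097 r (t 3 1 v))
 (.c (t 2 1 (t 3 3 v))
 (.c (c 2 4097 r (t 3 3 v))
 (.c (u 2 0 (k (u 3 10 (k r (k (u 4 1 (k v (k v r))) (k (u 4 1 (k v (k v r))) r)))) r))
 (.c (c 2 4097 r (t 3 3 v))
 (.c (t 3 2 (u 2 0 (k (u 4 1 (k v (k v r))) r)))
 (.c (c 2 4097 r (t 3 3 v))
 (.c (u 3 6 (k (u 2 0 (k (u 4 1 (k v (k v r))) r)) (k (u 2 0 (k (u 4 1 (k v (k v r))) r)) r)))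
 (.c (c 2 4097 r (t 3 1 v))
 (.c (u 2 0 (k (u 3 0 (k (u 4 11 (k (u 5 3 (k v (k v r))) (k (u 5 3 (k v (k v r))) (k (c 3 4097 (u 2 0 (k v (k v r))) v) r)))) r)) r))
 .z)))))))))))))))))))))))))))))))

set_option maxRecDepth 100000 in
def R31 : PR :=
 (.t 35 (.c (t 2 4 v)
 (.t 40 (.c (c 2 4097 r (t 3 1 v))
 (.t 60 (.c (t 2 2 (t 3 3 v))
 (.c (t 3 2 (t 2 2 v))
 (.c (t 3 1 (u 2 0 (k (u 4 0 (k (t 8 3 (t 12 1 v)) r)) r)))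
 (.c (c 2 4097 r (t 3 3 v))
 (.c (t 2 2 (t 3 3 v))
 (.c (c 2 4097 r (t 3 3 v))
 (.c (c 2 4097 r (t 3 1 v))
 (.c (c 2 4097 r (t 3 1 v))
 (.c (t 3 3 r)
 (.c (t 3 3 r)
 (.c (c 2 4097 r (t 3 1 v))
 (.c (t 2 2 (u 3 0 (k v (k v r))))
 (.c (u 3 4 (k r (k r (k (u 2 0 (k (u 4 0 (k (t 8 3 (t 12 1 v)) r)) r)) r))))
 (.c (c 2 4097 r (t 3 1 v))
 (.c (t 2 2 (t 3 1 v))
 (.c (t 2 2 (u 3 0 (k (u 5 0 (k v (k v r))) r)))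
 (.c (t 3 1 (t 2 3 v))
 (.c (t 2 4 (t 3 3 v))
 (.c (t 2 2 (t 3 3 v))
 (.c (t 2 2 (u 3 3 (k v (k v r))))
 (.c (t 3 3 r)
 (.c (u 3 0 (k (t 5 3 (t 7 1 r)) r))
 (.c (c 2 4097 r (t 3 3 v))
 (.c (t 2 3 r)
 (.c (c 2 4097 r (t 3 1 v))
 (.c (t 2 1 (u 3 0 (k (u 5 1 (k v (k v r))) r)))
 (.c (t 2 2 (t 3 2 v))
 .z))))))))))))))))))))))))))))))))

set_option maxRecDepth 100000 in
def R32 : PR :=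
 (.c (t 2 5 v)
 (.c (t 2 5 v)
 (.c (c 2 4096 r (t 3 1 v))
 (.c (c 2 4096 r (t 3 1 v))
 (.c (c 3 4101 r (t 2 5 v))
 (.c (c 3 4100 r (t 2 5 v))
 (.c (c 3 4100 r (t 2 5 v))
 (.c (c 3 4099 r (t 2 5 v))
 (.c (c 2 4096 r (t 3 3 v))
 (.c (c 3 4099 r (t 2 5 v))
 (.c (c 2 4096 r (t 3 3 v))
 (.c (c 2 4096 r (t 3 1 v))
 (.c (c 2 4096 r (t 3 1 v))
 (.t 62 (.t 52 (.c (c 2 4096 r (t 3 1 v))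
 (.c (c 3 4097 r (t 2 5 v))
 (.c (c 3 4097 r (t 2 5 v))
 (.c (c 2 4096 r (t 3 1 v))
 (.c (t 3 1 (t 2 6 v))
 (.c (c 3 4096 r (t 2 5 v))
 (.c (c 2 4096 r (t 3 1 v))
 (.c (c 3 4099 r (t 2 5 v))
 (.c (t 2 2 (t 3 3 v))
 (.c (t 2 2 (u 3 3 (k v (k v r))))
 (.c (c 3 4098 r (t 2 5 v))
 (.c (c 3 4098 r (t 2 5 v))
 (.c (c 2 4096 r (t 3 3 v))
 (.c (c 3 4097 r (t 2 5 v))
 (.c (c 2 4096 r (t 3 1 v))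
 (.c (c 3 4097 r (t 2 5 v))
 (.c (c 3 4097 r (t 2 5 v))
 (.c (c 3 4096 r (t 2 5 v))
 .z)))))))))))))))))))))))))))))))))

set_option maxRecDepth 100000 in
def R33 : PR :=
 (.c (t 2 3 v)
 (.c (t 2 3 v)
 (.c (t 2 5 (t 3 1 v))
 (.c (t 3 1 (t 2 1 v))
 (.c (c 3 4101 r (t 2 3 v))
 (.c (c 3 4100 r (t 2 3 v))
 (.c (c 3 4100 r (t 2 3 v))
 (.c (c 3 4099 r (t 2 3 v))
 (.c (c 2 4102 r (t 3 3 v))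
 (.c (c 3 4099 r (t 2 3 v))
 (.c (c 2 4102 r (t 3 3 v))
 (.c (c 2 4102 r (t 3 1 v))
 (.c (c 3 4098 r (t 2 3 v))
 (.c (t 2 2 (t 3 3 v))
 (.c (t 2 5 (t 3 2 v))
 (.c (c 2 4102 r (t 3 1 v))
 (.c (c 3 4097 r (t 2 3 v))
 (.c (c 3 4097 r (t 2 3 v))
 (.c (t 2 6 (t 3 3 v))
 (.c (t 2 6 (t 3 3 v))
 (.c (c 3 4096 r (t 2 3 v))
 (.c (c 3 4095 r (t 2 3 v))
 (.c (c 3 4099 r (t 2 3 v))
 (.c (c 3 4104 r (t 2 3 v))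
 (.c (c 3 4104 r (t 2 3 v))
 (.c (c 3 4098 r (t 2 3 v))
 (.c (c 3 4098 r (t 2 3 v))
 (.c (c 3 4097 r (t 2 3 v))
 (.c (c 3 4097 r (t 2 3 v))
 (.c (c 2 4102 r (t 3 1 v))
 (.c (c 3 4097 r (t 2 3 v))
 (.c (t 2 2 (t 3 2 v))
 (.c (c 3 4096 r (t 2 3 v))
 (.c (c 3 4102 r (t 2 3 v))
 .z))))))))))))))))))))))))))))))))))

set_option maxRecDepth 100000 in
def R34 : PR :=
 (.t 37 (.t 37 (.c (c 2 4096 r (t 3 1 v))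
 (.c (c 2 4096 r (t 3 1 v))
 (.c (t 3 1 (u 2 0 (k (t 4 3 (t 6 1 v)) r)))
 (.c (t 3 3 (u 2 0 (k (t 4 3 (t 6 1 v)) r)))
 (.c (t 3 1 (u 2 0 (k (t 4 3 (t 6 1 v)) r)))
 (.t 12 (.c (c 2 4096 r (t 3 3 v))
 (.c (t 3 3 (u 2 0 (k (t 4 3 (t 6 1 v)) r)))
 (.c (c 2 4096 r (t 3 3 v))
 (.c (c 2 4096 r (t 3 1 v))
 (.c (c 2 4096 r (t 3 1 v))
 (.t 15 (.t 52 (.c (c 2 4096 r (t 3 1 v))
 (.c (u 3 0 (k (u 2 0 (k (t 4 3 (t 6 1 v)) r)) (k (u 2 0 (k (t 4 3 (t 6 1 v)) r)) r)))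
 (.t 0 (.c (c 2 4096 r (t 3 1 v))
 (.c (t 3 1 (u 2 0 (k (t 4 3 (t 6 1 v)) r)))
 (.t 67 (.c (c 2 4096 r (t 3 1 v))
 (.c (t 3 3 (u 2 0 (k (t 4 3 (t 6 1 v)) r)))
 (.c (t 3 3 (u 2 0 (k (t 4 3 (t 6 1 v)) r)))
 (.c (u 3 1 (k (c 2 4096 r v) (k (u 2 0 (k (t 4 3 (t 6 1 v)) r)) r)))
 (.c (t 3 3 (u 2 0 (k (t 4 3 (t 6 1 v)) r)))
 (.c (u 3 0 (k (t 5 3 (t 7 1 (u 2 0 (k (t 4 3 (t 6 1 v)) r)))) r))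
 (.c (c 2 4096 r (t 3 3 v))
 (.c (u 2 0 (k (t 4 3 (t 6 1 (u 3 4 (k v (k (c 2 4096 v (u 5 1 (k v (k v r)))) r))))) r))
 (.c (c 2 4096 r (t 3 1 v))
 (.c (u 3 0 (k (u 5 4 (k (u 2 0 (k (t 4 3 (t 6 1 v)) r)) (k (c 3 4079 v (u 2 0 (k (t 4 3 (t 6 1 v)) r))) r))) r))
 (.c (t 3 3 (u 2 0 (k (t 4 3 (t 6 1 v)) r)))
 (.c (c 2 4096 r (t 3 5 v))
 (.c (c 2 4096 r (t 3 3 v))
 (.t 0 .z)))))))))))))))))))))))))))))))))))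

set_option maxRecDepth 100000 in
def R35 : PR :=
 (.c (t 2 3 v)
 (.c (t 2 3 v)
 (.c (t 2 5 (t 3 1 v))
 (.c (t 2 5 (t 3 1 v))
 (.c (c 3 4101 r (t 2 3 v))
 (.c (c 3 4100 r (t 2 3 v))
 (.c (c 3 4100 r (t 2 3 v))
 (.c (c 3 4099 r (t 2 3 v))
 (.c (c 2 4102 r (t 3 3 v))
 (.c (c 3 4099 r (t 2 3 v))
 (.c (c 2 4102 r (t 3 3 v))
 (.c (c 3 4098 r (t 2 3 v))
 (.c (c 3 4098 r (t 2 3 v))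
 (.c (t 2 2 (t 3 3 v))
 (.c (t 2 5 (t 3 2 v))
 (.c (c 3 4098 r (t 2 3 v))
 (.c (c 3 4097 r (t 2 3 v))
 (.c (c 3 4097 r (t 2 3 v))
 (.c (t 2 1 (t 3 3 v))
 (.c (t 2 1 (t 3 3 v))
 (.c (c 3 4096 r (t 2 3 v))
 (.c (c 3 4095 r (t 2 3 v))
 (.c (c 3 4099 r (t 2 3 v))
 (.c (c 3 4104 r (t 2 3 v))
 (.c (c 3 4104 r (t 2 3 v))
 (.c (c 3 4098 r (t 2 3 v))
 (.c (c 3 4098 r (t 2 3 v))
 (.c (c 3 4097 r (t 2 3 v))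
 (.c (c 3 4097 r (t 2 3 v))
 (.c (c 2 4102 r (t 3 1 v))
 (.c (c 3 4097 r (t 2 3 v))
 (.c (c 3 4097 r (t 2 3 v))
 (.c (c 3 4096 r (t 2 3 v))
 (.c (c 3 4102 r (t 2 3 v))
 (.c (c 3 4096 r (t 2 3 v))
 (.c (c 3 4102 r (t 2 3 v))
 .z))))))))))))))))))))))))))))))))))))

set_option maxRecDepth 100000 in
def R36 : PR :=
 (.c r
 (.c r
 (.c (t 3 1 r)
 (.c (t 3 1 r)
 (.c (c 3 4101 r r)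
 (.c (c 3 4100 r r)
 (.c (c 3 4100 r r)
 (.c (c 3 4099 r r)
 (.c (c 2 4102 r (t 3 3 v))
 (.c (c 3 4099 r r)
 (.c (c 2 4102 r (t 3 3 v))
 (.c (c 3 4098 r r)
 (.c (c 3 4098 r r)
 (.c (t 3 2 r)
 (.c (t 3 2 r)
 (.c (c 3 4098 r r)
 (.c (c 3 4097 r r)
 (.c (c 3 4097 r r)
 (.c (t 2 1 (t 3 3 v))
 (.c (t 3 1 r)
 (.c (c 3 4096 r r)
 (.c (c 3 4095 r r)
 (.c (c 3 4099 r r)
 (.c (c 3 4104 r r)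
 (.c (c 3 4104 r r)
 (.c (c 3 4098 r r)
 (.c (c 3 4098 r r)
 (.c (c 3 4097 r r)
 (.c (c 3 4097 r r)
 (.c (c 2 4102 r (t 3 1 v))
 (.c (c 3 4097 r r)
 (.c (c 3 4097 r r)
 (.c (c 3 4096 r r)
 (.c (c 3 4102 r r)
 (.c (c 3 4096 r r)
 (.c (c 3 4102 r r)
 (.c (c 3 4102 r r)
 .z)))))))))))))))))))))))))))))))))))))

set_option maxRecDepth 100000 in
def R37 : PR :=
 (.t 37 (.t 37 (.c (c 2 4096 r (t 3 1 v))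
 (.c (c 2 4096 r (t 3 1 v))
 (.c (t 3 1 (u 2 2 (k v (k v (k v (k (t 6 1 (u 4 0 (k (t 8 3 (t 12 1 v)) r))) r))))))
 (.c (t 3 3 (u 2 3 (k v (k v (k (t 6 1 (u 4 0 (k (t 8 3 (t 12 1 v)) r))) r)))))
 (.c (t 3 1 r)
 (.t 12 (.c (c 2 4096 r (t 3 3 v))
 (.c (t 3 3 (u 2 2 (k v (k v (k v (k (t 6 1 (u 4 0 (k (t 8 3 (t 12 1 v)) r))) r))))))
 (.c (c 2 4096 r (t 3 3 v))
 (.c (c 2 4096 r (t 3 1 v))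
 (.c (c 2 4096 r (t 3 1 v))
 (.t 62 (.t 52 (.c (c 2 4096 r (t 3 1 v))
 (.t 56 (.t 0 (.c (c 2 4096 r (t 3 1 v))
 (.t 57 (.t 67 (.c (c 2 4096 r (t 3 1 v))
 (.c (t 3 3 (u 2 8 (k v (k (t 6 1 (u 4 0 (k (t 8 3 (t 12 1 v)) r))) r))))
 (.c (t 3 3 (u 2 2 (k v (k v (k v (k (t 6 1 (u 4 0 (k (t 8 3 (t 12 1 v)) r))) r))))))
 (.c (u 3 1 (k (c 2 4096 r v) (k (u 2 41 (k v (k v (k v (k (t 6 1 (u 4 0 (k (t 8 3 (t 12 1 v)) r))) r))))) r)))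
 (.c (t 3 3 r)
 (.c (u 3 0 (k (t 5 3 (t 7 1 r)) r))
 (.c (c 2 4096 r (t 3 3 v))
 (.c (u 3 4 (k (u 2 42 (k v (k v (k v (k v (k (t 6 1 (u 4 0 (k (t 8 3 (t 12 1 v)) r))) (k (t 6 2 (c 7 4094 v r)) r))))))) (k (c 2 4096 r (u 5 1 (k v (k v r)))) r)))
 (.c (c 2 4096 r (t 3 1 v))
 (.c (u 3 0 (k (u 2 0 (k (u 5 1 (k v (k v r))) (k r (k (t 6 1 (u 5 2 (k (c 2 4096 (c 2 4098 r v) v) (k (u 4 0 (k (t 8 3 (t 12 1 v)) r)) r)))) r)))) r))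
 (.c (t 3 3 r)
 (.c (c 2 4096 r (t 3 5 v))
 (.c (c 2 4096 r (t 3 3 v))
 (.t 0 (.c (c 2 4096 r (t 3 3 v))
 (.c (c 2 4096 r r)
 (.t 0 .z))))))))))))))))))))))))))))))))))))))

set_option maxRecDepth 100000 in
def R38 : PR :=
 (.c (u 2 0 (k r r))
 (.c (u 2 0 (k r r))
 (.t 42 (.c (t 2 2 (t 3 1 v))
 (.c (c 3 4101 r (u 2 0 (k r r)))
 (.c (c 3 4100 r (u 2 0 (k r r)))
 (.c (c 3 4100 r (u 2 0 (k r r)))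
 (.c (c 3 4099 r (u 2 0 (k r r)))
 (.c (c 3 4099 r (u 2 0 (k r r)))
 (.c (c 3 4099 r (u 2 0 (k r r)))
 (.c (c 3 4099 r (u 2 0 (k r r)))
 (.c (c 3 4098 r (u 2 0 (k r r)))
 (.c (c 3 4098 r (u 2 0 (k r r)))
 (.t 17 (.t 52 (.c (c 3 4098 r (u 2 0 (k r r)))
 (.c (c 3 4097 r (u 2 0 (k r r)))
 (.c (c 3 4097 r (u 2 0 (k r r)))
 (.c (t 2 2 (t 3 1 v))
 (.c (t 3 1 r)
 (.c (c 3 4096 r (u 2 0 (k r r)))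
 (.c (c 3 4095 r (u 2 0 (k r r)))
 (.c (c 3 4099 r (u 2 0 (k r r)))
 (.c (t 3 1 (u 2 0 (k (u 4 2 (k v (k (c 2 4084 (u 4 1 (k v (k v r))) v) r))) r)))
 (.c (t 2 1 (u 3 3 (k v (k v r))))
 (.c (c 3 4098 r (u 2 0 (k r r)))
 (.c (c 3 4098 r (u 2 0 (k r r)))
 (.c (c 3 4097 r (u 2 0 (k r r)))
 (.c (c 3 4097 r (u 2 0 (k r r)))
 (.c (c 3 4097 r (u 2 0 (k r r)))
 (.c (c 3 4097 r (u 2 0 (k r r)))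
 (.c (c 3 4097 r (u 2 0 (k r r)))
 (.c (c 3 4096 r (u 2 0 (k r r)))
 (.c (c 3 4102 r (u 2 0 (k r r)))
 (.c (c 3 4096 r (u 2 0 (k r r)))
 (.c (c 3 4102 r (u 2 0 (k r r)))
 (.c (c 2 4102 r r)
 (.c (c 3 4096 r (u 2 0 (k r r)))
 (.c (u 2 0 (k (u 4 2 (k (u 3 0 (k (u 5 2 (k v (k (c 3 4084 (u 4 1 (k v (k v r))) v) r))) r)) (k (c 2 4084 (u 4 1 (k v (k v r))) (u 3 0 (k r r))) r))) r))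
 .z)))))))))))))))))))))))))))))))))))))))

set_option maxRecDepth 100000 in
def R39 : PR :=
 (.t 42 (.t 43 (.t 45 (.c (t 3 1 r)
 (.c (t 3 1 (u 2 0 (k v (k (u 4 0 (k (t 8 3 (t 12 1 v)) r)) (k (u 4 0 (k (t 8 3 (t 12 1 v)) r)) (k (u 4 3 (k v (k v (k (t 12 1 (u 8 0 (k (t 16 3 (t 24 1 v)) r))) r)))) (k (u 4 0 (k v (k v (k (t 12 1 (u 8 0 (k (t 16 3 (t 24 1 v)) r))) r)))) (k (c 3 4101 v r) r))))))))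
 (.c (t 3 3 r)
 (.c (t 3 1 (u 2 0 (k v (k (u 4 0 (k (t 8 3 (t 12 1 v)) r)) (k (u 4 0 (k (t 8 3 (t 12 1 v)) r)) (k (u 4 2 (k v (k v (k v (k (t 12 1 (u 8 0 (k (t 16 3 (t 24 1 v)) r))) r))))) (k (u 4 0 (k v (k v (k (t 12 1 (u 8 0 (k (t 16 3 (t 24 1 v)) r))) r)))) (k (c 3 4100 v r) r))))))))
 (.t 67 (.c (c 2 4101 r (t 3 3 v))
 (.c (t 3 3 r)
 (.c (c 2 4101 r (t 3 3 v))
 (.c (c 2 4101 r (t 3 1 v))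
 (.c (c 2 4101 r (t 3 1 v))
 (.t 68 (.t 69 (.c (c 2 4101 r (t 3 1 v))
 (.t 67 (.t 74 (.c (t 3 1 r)
 (.c (t 3 1 r)
 (.c (u 3 0 (k (u 2 1 (k r (k (u 5 0 (k v (k v r))) r))) r))
 (.c (t 3 1 r)
 (.c (t 2 1 (t 3 3 v))
 (.c (t 3 1 r)
 (.c (u 3 1 (k (c 2 4101 r v) (k (u 2 43 (k v (k v (k (c 5 4100 v (u 4 0 (k (t 8 3 (t 12 1 v)) r))) (k (u 4 0 (k (t 8 3 (t 12 1 v)) r)) (k (c 5 4100 v r) (k (u 4 43 (k v (k v (k v (k (t 12 1 (u 8 0 (k (t 16 3 (t 24 1 v)) r))) r))))) r))))))) r)))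
 (.c (t 3 2 r)
 (.c (u 3 0 (k (t 5 3 (t 7 1 (u 2 23 (k v (k v (k (u 4 0 (k (t 8 3 (t 12 1 v)) r)) (k (u 4 0 (k v (k v (k (t 12 1 (u 8 0 (k (t 16 3 (t 24 1 v)) r))) r)))) (k (c 3 4098 v r) r)))))))) r))
 (.c (c 2 4101 r (t 3 3 v))
 (.t 95 (.c (c 2 4101 r (t 3 1 v))
 (.c (u 2 2 (k (c 3 4097 r v) (k (u 3 0 (k (u 5 3 (k v (k v r))) r)) r)))
 (.c (u 3 0 (k (u 5 0 (k (t 9 3 (t 13 1 (u 2 10 (k v (k v (k v (k (u 4 0 (k (t 8 3 (t 12 1 v)) r)) (k (u 4 22 (k v (k v (k (t 12 1 (u 8 0 (k (t 16 3 (t 24 1 v)) r))) r)))) (k (c 3 4097 v r) r))))))))) r)) r))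
 (.c (c 2 4101 r (t 3 5 v))
 (.c (c 2 4101 r (t 3 3 v))
 (.t 99 (.c (c 2 4101 r (t 3 3 v))
 (.c (c 2 4101 r r)
 (.t 100 (.c (c 2 4101 r (u 3 0 (k r r)))
 (.t 102 .z))))))))))))))))))))))))))))))))))))))))

set_option maxRecDepth 100000 in
def R40 : PR :=
 (.c (t 2 1 v)
 (.c (t 2 1 v)
 (.c (c 2 4095 r (t 3 1 v))
 (.c (c 2 4095 r (t 3 1 v))
 (.c (c 3 4101 r (t 2 1 v))
 (.c (c 3 4100 r (t 2 1 v))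
 (.c (c 3 4100 r (t 2 1 v))
 (.c (c 3 4099 r (t 2 1 v))
 (.c (c 2 4095 r (t 3 3 v))
 (.c (c 3 4099 r (t 2 1 v))
 (.c (c 2 4095 r (t 3 3 v))
 (.c (c 2 4095 r (t 3 1 v))
 (.c (c 2 4095 r (t 3 1 v))
 (.c (c 2 4095 r (t 3 2 v))
 (.c (t 2 1 (t 3 2 v))
 (.c (c 2 4095 r (t 3 1 v))
 (.c (c 3 4097 r (t 2 1 v))
 (.c (c 3 4097 r (t 2 1 v))
 (.c (c 2 4095 r (t 3 1 v))
 (.c (c 2 4095 r (t 3 1 v))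
 (.c (c 2 4095 r (t 3 2 v))
 (.c (c 2 4095 r (t 3 1 v))
 (.c (c 3 4099 r (t 2 1 v))
 (.c (c 3 4104 r (t 2 1 v))
 (.c (t 2 2 (u 3 3 (k v (k v r))))
 (.c (c 3 4098 r (t 2 1 v))
 (.c (c 3 4098 r (t 2 1 v))
 (.c (c 2 4095 r (t 3 3 v))
 (.c (c 3 4097 r (t 2 1 v))
 (.c (c 2 4095 r (t 3 1 v))
 (.c (c 3 4097 r (t 2 1 v))
 (.c (c 3 4097 r (t 2 1 v))
 (.c (c 3 4096 r (t 2 1 v))
 (.c (c 2 4095 r (t 3 3 v))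
 (.c (c 3 4096 r (t 2 1 v))
 (.c (c 2 4095 r (t 3 3 v))
 (.c (c 2 4095 r r)
 (.c (c 3 4096 r (t 2 1 v))
 (.c (c 2 4095 r (u 3 0 (k r r)))
 (.c (c 3 4101 r (t 2 1 v))
 (.c (c 3 4095 r (t 2 1 v))
 .z)))))))))))))))))))))))))))))))))))))))))

set_option maxRecDepth 100000 in
def R41 : PR :=
 (.c (u 2 0 (k (t 6 1 r) r))
 (.c (u 2 0 (k (t 6 1 r) r))
 (.c (c 2 4095 r (t 3 1 v))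
 (.c (c 2 4095 r (t 3 1 v))
 (.c (c 3 4101 r (u 2 0 (k (t 6 1 r) r)))
 (.c (c 3 4100 r (u 2 0 (k (t 6 1 r) r)))
 (.c (c 3 4100 r (u 2 0 (k (t 6 1 r) r)))
 (.c (c 3 4099 r (u 2 0 (k (t 6 1 r) r)))
 (.c (c 2 4095 r (t 3 3 v))
 (.c (c 3 4099 r (u 2 0 (k (t 6 1 r) r)))
 (.c (c 2 4095 r (t 3 3 v))
 (.c (c 2 4095 r (t 3 1 v))
 (.c (c 2 4095 r (t 3 1 v))
 (.c (c 2 4095 r (t 3 2 v))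
 (.c (t 3 2 (u 2 0 (k (t 6 1 r) r)))
 (.c (c 2 4095 r (t 3 1 v))
 (.c (c 3 4097 r (u 2 0 (k (t 6 1 r) r)))
 (.c (c 3 4097 r (u 2 0 (k (t 6 1 r) r)))
 (.c (c 2 4095 r (t 3 1 v))
 (.c (c 2 4095 r (t 3 1 v))
 (.c (c 2 4095 r (t 3 2 v))
 (.c (c 2 4095 r (t 3 1 v))
 (.c (c 3 4099 r (u 2 0 (k (t 6 1 r) r)))
 (.c (c 3 4104 r (u 2 0 (k (t 6 1 r) r)))
 (.c (t 2 1 (u 3 3 (k v (k v r))))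
 (.c (c 3 4098 r (u 2 0 (k (t 6 1 r) r)))
 (.c (c 3 4098 r (u 2 0 (k (t 6 1 r) r)))
 (.c (c 3 4097 r (u 2 0 (k (t 6 1 r) r)))
 (.c (c 3 4097 r (u 2 0 (k (t 6 1 r) r)))
 (.c (c 2 4095 r (t 3 1 v))
 (.c (c 3 4097 r (u 2 0 (k (t 6 1 r) r)))
 (.c (c 3 4097 r (u 2 0 (k (t 6 1 r) r)))
 (.c (c 3 4096 r (u 2 0 (k (t 6 1 r) r)))
 (.c (c 2 4095 r (t 3 3 v))
 (.c (c 3 4096 r (u 2 0 (k (t 6 1 r) r)))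
 (.c (c 2 4095 r (t 3 3 v))
 (.c (c 2 4095 r r)
 (.c (c 3 4096 r (u 2 0 (k (t 6 1 r) r)))
 (.c (c 2 4095 r (u 3 0 (k r r)))
 (.c (c 3 4101 r (u 2 0 (k (t 6 1 r) r)))
 (.c (c 3 4095 r (u 2 0 (k (t 6 1 r) r)))
 (.c (c 3 4095 r (u 2 0 (k (t 6 1 r) r)))
 .z))))))))))))))))))))))))))))))))))))))))))

set_option maxRecDepth 100000 in
def R42 : PR :=
 (.c (t 2 3 v)
 (.c (t 2 3 v)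
 (.c (c 2 4095 r (t 3 1 v))
 (.c (c 2 4095 r (t 3 1 v))
 (.c (c 3 4101 r (t 2 3 v))
 (.c (c 3 4100 r (t 2 3 v))
 (.c (c 3 4100 r (t 2 3 v))
 (.c (c 3 4099 r (t 2 3 v))
 (.c (c 2 4095 r (t 3 3 v))
 (.c (c 3 4099 r (t 2 3 v))
 (.c (c 3 4099 r (t 2 3 v))
 (.c (c 2 4095 r (t 3 1 v))
 (.c (c 2 4095 r (t 3 1 v))
 (.c (c 2 4095 r (t 3 2 v))
 (.c (t 2 2 (t 3 3 v))
 (.c (c 2 4095 r (t 3 1 v))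
 (.c (c 3 4097 r (t 2 3 v))
 (.c (c 3 4097 r (t 2 3 v))
 (.c (c 2 4095 r (t 3 1 v))
 (.c (c 2 4095 r (t 3 1 v))
 (.c (c 2 4095 r (t 3 2 v))
 (.c (c 2 4095 r (t 3 1 v))
 (.c (c 3 4099 r (t 2 3 v))
 (.c (c 3 4104 r (t 2 3 v))
 (.c (t 2 2 (u 3 3 (k v (k v r))))
 (.c (c 3 4098 r (t 2 3 v))
 (.c (c 3 4098 r (t 2 3 v))
 (.c (c 2 4095 r (t 3 3 v))
 (.c (c 3 4097 r (t 2 3 v))
 (.c (c 2 4095 r (t 3 1 v))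
 (.c (c 3 4097 r (t 2 3 v))
 (.c (c 3 4097 r (t 2 3 v))
 (.c (c 3 4096 r (t 2 3 v))
 (.c (c 2 4095 r (t 3 3 v))
 (.c (c 3 4096 r (t 2 3 v))
 (.c (c 2 4095 r (t 3 3 v))
 (.c (c 2 4095 r r)
 (.c (c 3 4096 r (t 2 3 v))
 (.c (c 2 4095 r (u 3 0 (k r r)))
 (.c (c 3 4101 r (t 2 3 v))
 (.c (c 3 4095 r (t 2 3 v))
 (.c (c 2 4095 r (u 3 0 (k (t 7 1 r) r)))
 (.c (c 3 4095 r (t 2 3 v))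
 .z)))))))))))))))))))))))))))))))))))))))))))

set_option maxRecDepth 100000 in
def R43 : PR :=
 (.t 46 (.t 46 (.t 14 (.c (c 2 4100 r (t 3 1 v))
 (.c (t 2 6 (t 3 1 v))
 (.c (t 2 6 (t 3 3 v))
 (.c (t 2 6 (t 3 1 v))
 (.t 70 (.c (c 2 4100 r (t 3 3 v))
 (.c (t 2 6 (t 3 3 v))
 (.c (c 2 4100 r (t 3 3 v))
 (.c (c 2 4100 r (t 3 1 v))
 (.c (c 2 4100 r (t 3 1 v))
 (.t 52 (.t 42 (.c (c 2 4100 r (t 3 1 v))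
 (.c (t 2 3 (u 3 0 (k v (k v r))))
 (.c (t 2 6 r)
 (.c (t 2 6 (t 3 3 v))
 (.c (t 2 6 (t 3 3 v))
 (.t 79 (.c (t 3 1 (t 2 6 v))
 (.c (t 2 4 (t 3 3 v))
 (.c (t 2 6 (t 3 3 v))
 (.c (t 2 6 (u 3 3 (k v (k v r))))
 (.c (t 2 6 (t 3 3 v))
 (.c (t 3 2 (t 2 6 v))
 (.c (c 2 4100 r (t 3 3 v))
 (.c (t 2 6 r)
 (.c (c 2 4100 r (t 3 1 v))
 (.c (t 2 6 (u 3 0 (k (u 5 1 (k v (k v r))) r)))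
 (.c (t 2 6 r)
 (.c (c 2 4100 r (t 3 5 v))
 (.c (c 2 4100 r (t 3 3 v))
 (.c (t 2 6 (u 3 0 (k (t 5 3 (t 7 1 v)) r)))
 (.c (c 2 4100 r (t 3 3 v))
 (.c (c 2 4100 r r)
 (.c (t 2 3 r)
 (.c (c 2 4100 r (u 3 0 (k r r)))
 (.t 67 (.c (c 2 4100 r (t 3 1 v))
 (.c (c 2 4100 r (u 3 0 (k (t 7 1 r) r)))
 (.c (c 2 4100 r (t 3 3 v))
 (.c (t 2 6 (t 3 3 v))
 .z))))))))))))))))))))))))))))))))))))))))))))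

set_option maxRecDepth 100000 in
def R44 : PR :=
 (.t 46 (.t 46 (.t 49 (.c (t 3 1 r)
 (.c (t 3 1 (u 2 1 (k v (k v r))))
 (.c (t 3 3 (u 2 1 (k v (k v r))))
 (.c (t 3 1 (u 2 1 (k v (k v r))))
 (.t 71 (.c (c 2 4100 r (t 3 3 v))
 (.c (t 3 3 (u 2 1 (k v (k v r))))
 (.c (c 2 4100 r (t 3 3 v))
 (.c (c 2 4100 r (t 3 1 v))
 (.c (c 2 4100 r (t 3 1 v))
 (.t 42 (.t 75 (.c (c 2 4100 r (t 3 1 v))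
 (.c (u 3 0 (k r (k r r)))
 (.t 46 (.c (t 3 1 r)
 (.c (t 3 1 r)
 (.t 79 (.c (t 3 1 (u 2 1 (k v (k v r))))
 (.c (t 3 3 (u 2 0 (k v (k v r))))
 (.c (t 3 1 (u 2 1 (k v (k v r))))
 (.c (u 2 1 (k (u 3 3 (k v (k v r))) (k (u 3 3 (k v (k v r))) r)))
 (.c (t 3 2 (u 2 1 (k v (k v r))))
 (.c (u 2 1 (k (u 3 0 (k (t 5 3 (t 7 1 v)) r)) (k (u 3 0 (k (t 5 3 (t 7 1 v)) r)) r)))
 (.c (c 2 4100 r (t 3 3 v))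
 (.c (u 2 1 (k r (k r r)))
 (.c (c 2 4100 r (t 3 1 v))
 (.c (u 2 1 (k (u 3 0 (k (u 5 1 (k v (k v r))) r)) (k (u 3 0 (k (u 5 1 (k v (k v r))) r)) r)))
 (.c (t 3 2 (u 2 1 (k v (k v r))))
 (.c (c 2 4100 r (t 3 5 v))
 (.c (c 2 4100 r (t 3 3 v))
 (.c (u 2 1 (k (u 3 0 (k (t 5 3 (t 7 1 v)) r)) (k (u 3 0 (k (t 5 3 (t 7 1 v)) r)) r)))
 (.c (c 2 4100 r (t 3 3 v))
 (.c (c 2 4100 r r)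
 (.c (u 3 2 (k r (k r (k (u 2 1 (k v (k v r))) (k (t 7 1 (u 2 16 (k (u 5 0 (k (t 9 3 (t 13 1 v)) r)) (k r (k (t 5 1 r) (k (c 3 4096 (c 2 4098 r v) r) (k (t 5 2 r) (k (t 5 2 r) r)))))))) r)))))
 (.c (c 2 4100 r (u 3 0 (k r r)))
 (.t 103 (.c (c 2 4100 r (t 3 1 v))
 (.c (c 2 4100 r (u 3 0 (k (t 7 1 r) r)))
 (.c (c 2 4100 r (t 3 3 v))
 (.c (t 3 6 r)
 (.c (u 2 1 (k r (k r r)))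
 .z)))))))))))))))))))))))))))))))))))))))))))))

set_option maxRecDepth 100000 in
def R45 : PR :=
 (.t 14 (.t 0 (.t 49 (.c (c 2 4100 r (t 3 1 v))
 (.c (t 3 1 (u 2 3 (k v (k v (k v (k r (k r (k (u 4 0 (k (u 8 0 (k v (k v r))) r)) (k r (k r r))))))))))
 (.c (t 3 3 r)
 (.c (t 3 1 (u 2 3 (k v (k v (k v (k (u 4 10 (k v (k v (k v (k (u 8 0 (k (t 16 3 (t 24 1 v)) r)) (k (u 8 0 (k v (k v (k (t 24 1 (u 16 0 (k (t 32 3 (t 48 1 v)) r))) r)))) (k (c 2 4088 r v) r))))))) (k r (k (u 4 0 (k (u 8 0 (k v (k v r))) r)) (k r (k r r))))))))))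
 (.t 72 (.c (c 2 4100 r (t 3 3 v))
 (.c (t 3 3 r)
 (.c (c 2 4100 r (t 3 3 v))
 (.c (c 2 4100 r (t 3 1 v))
 (.c (c 2 4100 r (t 3 1 v))
 (.t 75 (.t 76 (.c (c 2 4100 r (t 3 1 v))
 (.c (u 3 0 (k r (k r r)))
 (.c (u 3 1 (k r (k r r)))
 (.c (t 3 1 r)
 (.c (t 3 1 r)
 (.t 78 (.c (t 3 1 r)
 (.c (t 2 2 (t 3 3 v))
 (.c (t 3 1 r)
 (.c (u 3 4 (k r (k (c 2 4100 r v) r)))
 (.c (t 3 2 r)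
 (.c (t 3 2 r)
 (.c (c 2 4100 r (t 3 3 v))
 (.c (u 3 2 (k r (k (c 2 4100 r (u 5 1 (k v (k v r)))) r)))
 (.c (c 2 4100 r (t 3 1 v))
 (.c (u 2 18 (k (c 3 4097 r v) (k (u 3 0 (k (u 5 1 (k v (k v r))) r)) (k (u 3 0 (k (u 5 1 (k v (k v r))) r)) (k (u 3 0 (k (u 5 4 (k v (k v r))) r)) (k r (k r (k r (k r r)))))))))
 (.c (t 3 2 r)
 (.c (c 2 4100 r (t 3 5 v))
 (.c (c 2 4100 r (t 3 3 v))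
 (.c (u 3 0 (k (t 5 3 (t 7 1 (u 2 3 (k v (k v (k v (k r (k r (k (u 4 0 (k (u 8 0 (k v (k v r))) r)) (k r (k r r))))))))))) r))
 (.c (c 2 4100 r (t 3 3 v))
 (.c (c 2 4100 r r)
 (.c (u 3 26 (k r (k r (k r (k (t 7 1 (u 5 0 (k (t 9 3 (t 13 1 (u 2 0 (k v (k r (k (c 6 4099 r (u 4 0 (k (u 8 0 (k v (k v r))) r))) (k r (k (c 9 4108 v r) (k (u 4 0 (k (u 8 0 (k v (k v r))) r)) (k r (k r r))))))))))) r))) r)))))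
 (.c (c 2 4100 r (u 3 0 (k r r)))
 (.t 104 (.c (c 2 4100 r (t 3 1 v))
 (.c (c 2 4100 r (u 3 0 (k (t 7 1 r) r)))
 (.c (c 2 4100 r (t 3 3 v))
 (.c (t 3 6 r)
 (.t 109 (.c (u 2 27 (k r (k r (k r (k r (k r (k (u 4 0 (k (u 8 0 (k r (k r r))) r)) (k r (k r r)))))))))
 .z))))))))))))))))))))))))))))))))))))))))))))))

set_option maxRecDepth 100000 in
def R46 : PR :=
 (.t 48 (.c (t 2 2 v)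
 (.t 51 (.c (t 3 1 (u 2 0 (k (t 4 3 (t 6 3 v)) r)))
 (.c (t 2 2 (t 3 1 v))
 (.c (t 2 2 (t 3 3 v))
 (.c (t 2 2 (t 3 2 v))
 (.c (t 3 1 (u 2 0 (k (t 4 3 (t 6 3 v)) r)))
 (.c (c 2 4105 r (t 3 3 v))
 (.c (t 2 2 (t 3 3 v))
 (.c (c 2 4105 r (t 3 3 v))
 (.c (c 2 4105 r (t 3 1 v))
 (.c (c 2 4105 r (t 3 1 v))
 (.c (t 2 2 (t 3 3 v))
 (.c (t 2 2 (t 3 3 v))
 (.c (c 2 4105 r (t 3 1 v))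
 (.c (t 2 3 (u 3 0 (k v (k v r))))
 (.c (t 2 2 r)
 (.c (t 2 3 (t 3 3 v))
 (.c (t 3 3 (u 2 0 (k (t 4 3 (t 6 3 v)) r)))
 (.c (t 2 2 (u 3 0 (k (u 5 0 (k v (k v r))) r)))
 (.c (t 3 1 (t 2 3 v))
 (.c (t 2 2 (t 3 3 v))
 (.c (t 3 1 (t 2 2 v))
 (.c (t 2 2 (u 3 3 (k v (k v r))))
 (.c (t 2 2 (t 3 1 v))
 (.c (t 2 2 (t 3 1 v))
 (.c (c 2 4105 r (t 3 3 v))
 (.c (t 2 2 r)
 (.c (c 2 4105 r (t 3 1 v))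
 (.c (t 2 2 (u 3 0 (k (u 5 1 (k v (k v r))) r)))
 (.c (t 2 2 (t 3 2 v))
 (.c (t 3 2 (u 2 0 (k (t 4 3 (t 6 3 v)) r)))
 (.c (c 2 4105 r (t 3 3 v))
 (.c (t 2 2 (u 3 0 (k (t 5 3 (t 7 1 v)) r)))
 (.c (c 2 4105 r (t 3 3 v))
 (.c (t 2 2 r)
 (.c (u 2 0 (k (t 4 3 (t 6 3 (u 3 3 (k v (k v (k (t 7 1 (u 5 0 (k (t 9 3 (t 13 1 v)) r))) r)))))) r))
 (.c (t 2 2 r)
 (.c (t 2 2 r)
 (.c (t 2 2 (u 3 0 (k (t 5 3 (t 7 1 v)) r)))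
 (.c (t 2 2 r)
 (.c (t 2 3 (t 3 1 v))
 (.c (t 3 6 (u 2 0 (k (t 4 3 (t 6 3 v)) r)))
 (.c (t 2 2 r)
 (.c (t 2 2 r)
 (.c (t 2 3 (u 3 0 (k (t 5 3 (t 7 3 v)) r)))
 .z)))))))))))))))))))))))))))))))))))))))))))))))

set_option maxRecDepth 100000 in
def R47 : PR :=
 (.t 48 (.t 48 (.t 52 (.t 57 (.c (t 2 1 (t 3 1 v))
 (.c (t 2 1 (t 3 3 v))
 (.c (t 2 1 (t 3 2 v))
 (.t 77 (.c (c 2 4105 r (t 3 3 v))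
 (.c (t 2 1 (t 3 3 v))
 (.c (t 2 1 (t 3 3 v))
 (.c (c 2 4105 r (t 3 1 v))
 (.c (c 2 4105 r (t 3 1 v))
 (.c (t 2 1 (t 3 3 v))
 (.c (t 2 1 (t 3 3 v))
 (.c (c 2 4105 r (t 3 1 v))
 (.c (u 3 0 (k r (k r r)))
 (.c (t 2 1 r)
 (.c (t 3 3 r)
 (.c (t 3 3 r)
 (.c (t 2 1 (u 3 0 (k (u 5 0 (k v (k v r))) r)))
 (.c (t 3 1 (u 2 4 (k v (k (t 6 1 r) r))))
 (.c (t 2 1 (t 3 3 v))
 (.c (t 2 1 (t 3 3 v))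
 (.c (t 2 1 (u 3 3 (k v (k v r))))
 (.c (t 2 1 (t 3 1 v))
 (.c (t 2 1 (t 3 1 v))
 (.c (t 3 2 (t 2 1 v))
 (.c (t 2 1 r)
 (.c (t 2 1 (t 3 2 v))
 (.c (t 2 1 (u 3 0 (k (u 5 1 (k v (k v r))) r)))
 (.c (t 2 1 (t 3 2 v))
 (.c (t 3 2 r)
 (.c (t 2 1 (t 3 1 v))
 (.c (u 3 0 (k (t 5 3 (t 7 1 (u 2 12 (k v (k v (k (t 6 1 (u 4 1 (k v (k v r)))) r)))))) r))
 (.c (c 2 4105 r (t 3 3 v))
 (.c (t 3 1 r)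
 (.c (u 3 2 (k r (k r (k (t 2 1 v) (k (t 7 1 (u 2 1 (k (u 5 0 (k (t 9 3 (t 13 1 v)) r)) (k (t 6 1 (u 4 1 (k r (k (u 5 0 (k (t 9 3 (t 13 1 v)) r)) r)))) (k (t 6 2 r) r))))) r)))))
 (.c (t 2 1 r)
 (.c (t 2 1 r)
 (.c (t 2 1 (u 3 0 (k (t 5 3 (t 7 1 v)) r)))
 (.c (t 2 1 r)
 (.c (t 3 1 r)
 (.c (t 3 6 r)
 (.c (u 3 31 (k r (k r (k r r))))
 (.c (t 2 1 r)
 (.c (t 3 3 r)
 (.c (u 2 5 (k (t 3 1 v) (k (u 3 8 (k v (k v (k (t 7 1 r) r)))) (k (t 6 1 (u 3 8 (k r (k r (k (t 7 1 (u 4 10 (k r (k (c 3 4099 (c 2 4101 r v) v) (k r (k (c 3 4099 (c 2 4101 r v) (u 8 0 (k (t 16 3 (t 24 1 v)) r))) (k r (k (u 5 4 (k r (k (c 4 4095 r v) r))) r)))))))) r))))) r))))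
 .z))))))))))))))))))))))))))))))))))))))))))))))))

set_option maxRecDepth 100000 in
def R48 : PR :=
 (.t 43 (.t 43 (.t 53 (.c (t 3 1 r)
 (.c (t 3 1 (u 2 1 (k v (k (u 4 1 (k v (k v r))) (k (c 6 4099 r (u 4 0 (k v (k v r)))) (k (u 4 0 (k v (k v r))) (k (c 6 4097 r (u 4 1 (k v (k v r)))) (k (c 4 4095 r (u 6 1 (k v (k v r)))) r))))))))
 (.c (t 3 3 r)
 (.c (t 3 1 (u 2 1 (k v (k (u 4 1 (k v (k v r))) (k (c 6 4099 r (u 4 0 (k v (k v r)))) (k (u 4 0 (k v (k v r))) (k (c 6 4097 r (u 4 1 (k v (k v r)))) (k (c 4 4095 r (u 6 1 (k v (k v r)))) r))))))))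
 (.t 67 (.c (c 2 4099 r (t 3 3 v))
 (.c (t 3 3 r)
 (.c (c 2 4099 r (t 3 3 v))
 (.c (c 2 4099 r (t 3 1 v))
 (.c (c 2 4099 r (t 3 1 v))
 (.t 69 (.t 81 (.c (c 2 4099 r (t 3 1 v))
 (.t 67 (.t 74 (.c (t 3 1 r)
 (.c (t 3 1 r)
 (.c (u 2 1 (k (u 3 0 (k (u 5 0 (k v (k v r))) r)) (k (u 3 0 (k r r)) (k (c 6 4099 r r) (k (u 4 1 (k (u 3 0 (k (u 5 0 (k v (k v r))) r)) (k (u 3 0 (k (u 5 0 (k v (k v r))) r)) r))) (k (c 6 4097 r (u 3 0 (k r r))) (k (c 4 4095 r (u 3 0 (k r r))) r)))))))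
 (.c (t 3 1 r)
 (.c (t 2 1 (t 3 3 v))
 (.c (t 3 1 r)
 (.c (u 3 4 (k r (k (c 2 4099 r v) r)))
 (.c (t 3 2 r)
 (.c (t 3 2 r)
 (.c (c 2 4099 r (t 3 3 v))
 (.c (u 3 2 (k r (k (c 2 4099 r (u 5 1 (k v (k v r)))) r)))
 (.c (c 2 4099 r (t 3 1 v))
 (.c (u 3 0 (k (u 2 17 (k (u 5 1 (k v (k v r))) (k (u 5 3 (k v (k v r))) (k r (k (u 5 2 (k (c 3 4079 v (c 4 4100 r v)) (k (u 4 0 (k v (k v r))) r))) (k (c 6 4097 r r) (k (c 4 4095 r r) r))))))) r))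
 (.c (t 3 2 r)
 (.c (c 2 4099 r (t 3 5 v))
 (.c (c 2 4099 r (t 3 3 v))
 (.t 99 (.c (c 2 4099 r (t 3 3 v))
 (.c (c 2 4099 r r)
 (.t 100 (.c (c 2 4099 r (u 3 0 (k r r)))
 (.t 102 (.c (c 2 4099 r (t 3 1 v))
 (.c (c 2 4099 r (u 3 0 (k (t 7 1 r) r)))
 (.c (c 2 4099 r (t 3 3 v))
 (.t 103 (.t 71 (.t 104 (.c (t 3 2 r)
 (.c (t 3 1 r)
 (.t 111 .z)))))))))))))))))))))))))))))))))))))))))))))))))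

set_option maxRecDepth 100000 in
def R49 : PR :=
 (.t 0 (.c (t 2 1 v)
 (.c (c 2 4098 r (t 3 1 v))
 (.c (c 2 4098 r (t 3 1 v))
 (.c (t 2 1 (t 3 1 v))
 (.c (t 2 1 (t 3 3 v))
 (.c (t 2 1 (t 3 1 v))
 (.c (t 2 1 (t 3 1 v))
 (.c (c 2 4098 r (t 3 3 v))
 (.c (t 2 1 (t 3 3 v))
 (.c (c 2 4098 r (t 3 3 v))
 (.c (c 2 4098 r (t 3 1 v))
 (.c (c 2 4098 r (t 3 1 v))
 (.c (t 2 1 (t 3 3 v))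
 (.c (t 2 1 (t 3 3 v))
 (.c (c 2 4098 r (t 3 1 v))
 (.c (t 2 1 (u 3 0 (k v (k v r))))
 (.c (c 3 4097 r (t 2 1 v))
 (.c (c 2 4098 r (t 3 1 v))
 (.c (t 2 1 (t 3 3 v))
 (.c (t 2 1 (u 3 0 (k (u 5 0 (k v (k v r))) r)))
 (.c (c 3 4095 r (t 2 1 v))
 (.c (t 2 2 (t 3 3 v))
 (.c (t 2 1 (t 3 3 v))
 (.c (t 2 1 (u 3 3 (k v (k v r))))
 (.c (t 2 1 (t 3 3 v))
 (.c (t 2 1 (u 3 0 (k (t 7 1 (t 5 3 v)) r)))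
 (.c (c 3 4097 r (t 2 1 v))
 (.c (t 2 1 r)
 (.c (c 3 4097 r (t 2 1 v))
 (.c (c 3 4097 r (t 2 1 v))
 (.c (t 2 1 (t 3 3 v))
 (.c (c 2 4098 r (t 3 5 v))
 (.c (c 2 4098 r (t 3 3 v))
 (.c (t 2 1 (u 3 0 (k (t 5 3 (t 7 1 v)) r)))
 (.c (c 2 4098 r (t 3 3 v))
 (.c (c 2 4098 r r)
 (.c (t 2 1 r)
 (.c (c 2 4098 r (u 3 0 (k r r)))
 (.c (t 2 1 r)
 (.c (c 3 4095 r (t 2 1 v))
 (.c (c 3 4095 r (t 2 1 v))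
 (.c (c 3 4095 r (t 2 1 v))
 (.c (t 3 6 (t 2 1 v))
 (.c (t 2 1 (u 3 1 (k v (k v r))))
 (.c (t 2 1 r)
 (.c (t 2 1 (t 3 3 v))
 (.c (t 2 1 (u 3 4 (k v (k (t 7 1 r) r))))
 (.c (t 2 1 r)
 (.c (t 2 1 (t 3 1 v))
 .z))))))))))))))))))))))))))))))))))))))))))))))))))

set_option maxRecDepth 100000 in
def R50 : PR :=
 (.t 54 (.t 0 (.t 55 (.c (c 2 4098 r (t 3 1 v))
 (.c (t 2 1 (t 3 1 v))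
 (.c (t 2 1 (t 3 3 v))
 (.c (t 2 1 (t 3 1 v))
 (.c (t 2 1 (t 3 1 v))
 (.c (c 2 4098 r (t 3 3 v))
 (.c (t 2 1 (t 3 3 v))
 (.c (c 2 4098 r (t 3 3 v))
 (.c (c 2 4098 r (t 3 1 v))
 (.c (c 2 4098 r (t 3 1 v))
 (.c (t 2 1 (t 3 3 v))
 (.c (t 2 1 (t 3 3 v))
 (.c (c 2 4098 r (t 3 1 v))
 (.c (t 2 1 (u 3 0 (k v (k v r))))
 (.c (t 2 1 (u 3 1 (k v (k v r))))
 (.c (t 3 1 r)
 (.c (t 3 1 r)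
 (.c (t 2 1 (u 3 0 (k (u 5 0 (k v (k v r))) r)))
 (.c (t 2 1 (t 3 1 v))
 (.c (t 2 2 (t 3 3 v))
 (.c (t 3 1 (t 2 1 v))
 (.c (t 2 1 (u 3 3 (k v (k v r))))
 (.c (t 2 1 (t 3 3 v))
 (.c (t 2 1 (u 3 0 (k (t 7 1 (t 5 3 v)) r)))
 (.c (c 2 4098 r (t 3 3 v))
 (.c (t 2 1 r)
 (.c (c 2 4098 r (t 3 1 v))
 (.c (t 2 1 (u 3 0 (k (u 5 1 (k v (k v r))) r)))
 (.c (t 2 1 (t 3 3 v))
 (.c (c 2 4098 r (t 3 5 v))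
 (.c (c 2 4098 r (t 3 3 v))
 (.c (t 2 1 (u 3 0 (k (t 5 3 (t 7 1 v)) r)))
 (.c (t 3 1 (t 2 1 v))
 (.c (c 2 4098 r r)
 (.c (t 2 1 r)
 (.c (c 2 4098 r (u 3 0 (k r r)))
 (.c (t 2 1 r)
 (.c (c 2 4098 r (t 3 1 v))
 (.c (c 2 4098 r (u 3 0 (k (t 7 1 r) r)))
 (.c (c 2 4098 r (t 3 3 v))
 (.c (t 3 6 (t 2 1 v))
 (.c (t 2 1 (u 3 1 (k v (k v r))))
 (.c (t 2 1 r)
 (.c (t 3 2 r)
 (.c (t 3 1 r)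
 (.c (t 2 1 r)
 (.c (t 3 1 r)
 (.c (t 2 1 r)
 .z)))))))))))))))))))))))))))))))))))))))))))))))))))

set_option maxRecDepth 100000 in
def R51 : PR :=
 (.c r
 (.c r
 (.t 52 (.c (c 2 4098 r (t 3 1 v))
 (.c (t 2 1 (t 3 1 v))
 (.c (c 3 4100 r r)
 (.c (t 2 1 (t 3 1 v))
 (.c (c 3 4099 r r)
 (.c (c 2 4098 r (t 3 3 v))
 (.c (c 3 4099 r r)
 (.c (c 2 4098 r (t 3 3 v))
 (.c (c 2 4098 r (t 3 1 v))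
 (.c (c 2 4098 r (t 3 1 v))
 (.t 52 (.t 42 (.c (c 2 4098 r (t 3 1 v))
 (.c (c 3 4097 r r)
 (.c (c 3 4097 r r)
 (.c (t 2 1 (t 3 3 v))
 (.c (t 2 1 (t 3 3 v))
 (.c (c 3 4096 r r)
 (.c (c 3 4095 r r)
 (.c (c 3 4099 r r)
 (.c (t 2 1 (t 3 3 v))
 (.c (t 2 1 (u 3 3 (k v (k v r))))
 (.c (c 3 4098 r r)
 (.c (c 3 4098 r r)
 (.c (c 2 4098 r (t 3 3 v))
 (.c (c 3 4097 r r)
 (.c (c 2 4098 r (t 3 1 v))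
 (.c (c 3 4097 r r)
 (.c (c 3 4097 r r)
 (.c (c 2 4098 r (t 3 5 v))
 (.c (c 2 4098 r (t 3 3 v))
 (.c (c 3 4096 r r)
 (.c (c 2 4098 r (t 3 3 v))
 (.c (c 2 4098 r r)
 (.c (c 3 4096 r r)
 (.c (c 2 4098 r (u 3 0 (k r r)))
 (.c (u 2 1 (k r (k (t 6 1 r) r)))
 (.c (c 2 4098 r (t 3 1 v))
 (.c (c 2 4098 r (u 3 0 (k (t 7 1 r) r)))
 (.c (c 2 4098 r (t 3 3 v))
 (.c (c 3 4100 r r)
 (.c (t 2 1 r)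
 (.c (c 3 4100 r r)
 (.c (t 2 1 (u 3 0 (k (t 5 3 (t 7 3 v)) r)))
 (.c (t 2 1 r)
 (.c (c 3 4099 r r)
 (.c (c 3 4098 r r)
 (.c (c 3 4098 r r)
 (.c (c 3 4098 r r)
 .z))))))))))))))))))))))))))))))))))))))))))))))))))))

set_option maxRecDepth 100000 in
def R52 : PR :=
 (.t 52 (.c (t 2 1 v)
 (.t 61 (.c (c 2 4097 r (t 3 1 v))
 (.c (t 3 1 (u 2 1 (k v (k (c 6 4097 r (u 4 0 (k v (k v r)))) r))))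
 (.c (t 3 3 r)
 (.c (t 3 1 (u 2 1 (k v (k (c 6 4097 r (u 4 0 (k v (k v r)))) r))))
 (.t 67 (.c (c 2 4097 r (t 3 3 v))
 (.c (t 3 3 r)
 (.c (c 2 4097 r (t 3 3 v))
 (.c (c 2 4097 r (t 3 1 v))
 (.c (c 2 4097 r (t 3 1 v))
 (.c (t 3 3 r)
 (.t 88 (.c (c 2 4097 r (t 3 1 v))
 (.t 91 (.t 90 (.c (c 2 4097 r (t 3 1 v))
 (.c (t 3 1 r)
 (.c (u 2 1 (k (u 3 0 (k (u 5 0 (k v (k v r))) r)) (k (c 6 4097 r r) r)))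
 (.c (t 3 1 r)
 (.c (t 2 1 (t 3 3 v))
 (.c (t 3 1 r)
 (.c (u 2 1 (k (u 3 3 (k v (k v r))) (k (c 6 4097 r (u 4 0 (k (u 3 3 (k v (k v r))) (k (u 3 3 (k v (k v r))) r)))) r)))
 (.c (t 3 2 r)
 (.c (t 3 2 r)
 (.c (c 2 4097 r (t 3 3 v))
 (.c (u 3 2 (k r (k (c 2 4097 r (u 5 1 (k v (k v r)))) r)))
 (.c (c 2 4097 r (t 3 1 v))
 (.c (u 3 0 (k (u 2 2 (k r (k (c 6 4097 r (u 4 0 (k (u 5 1 (k v (k v r))) (k (u 5 3 (k v (k v r))) r)))) r))) r))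
 (.c (t 3 2 r)
 (.c (c 2 4097 r (t 3 5 v))
 (.c (c 2 4097 r (t 3 3 v))
 (.t 99 (.c (c 2 4097 r (t 3 3 v))
 (.c (c 2 4097 r r)
 (.t 100 (.c (c 2 4097 r (u 3 0 (k r r)))
 (.t 111 (.c (c 2 4097 r (t 3 1 v))
 (.c (c 2 4097 r (u 3 0 (k (t 7 1 r) r)))
 (.c (c 2 4097 r (t 3 3 v))
 (.t 121 (.t 121 (.t 120 (.c (t 3 2 r)
 (.c (t 3 1 r)
 (.c (u 2 1 (k r (k (c 6 4097 r (u 4 0 (k r (k r r)))) r)))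
 (.c (t 3 1 r)
 (.c (t 3 1 r)
 (.c (c 2 4097 r r)
 (.c (u 2 1 (k r (k (c 6 4097 r (u 3 2 (k r (k (c 7 4097 r r) r)))) r)))
 .z)))))))))))))))))))))))))))))))))))))))))))))))))))))

set_option maxRecDepth 100000 in
def R53 : PR :=
 (.c (t 2 1 v)
 (.c (t 2 1 v)
 (.c (c 2 4097 r (t 3 1 v))
 (.c (c 2 4097 r (t 3 1 v))
 (.c (t 2 1 (t 3 1 v))
 (.c (t 3 3 (t 2 1 v))
 (.c (t 2 1 (t 3 1 v))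
 (.t 12 (.c (c 2 4097 r (t 3 3 v))
 (.c (t 2 1 (t 3 3 v))
 (.c (c 2 4097 r (t 3 3 v))
 (.c (c 3 4098 r (t 2 1 v))
 (.c (c 2 4097 r (t 3 1 v))
 (.c (c 2 4097 r (t 3 2 v))
 (.t 35 (.c (c 2 4097 r (t 3 1 v))
 (.t 91 (.c (c 3 4097 r (t 2 1 v))
 (.c (c 2 4097 r (t 3 1 v))
 (.c (c 2 4097 r (t 3 1 v))
 (.c (c 2 4097 r (t 3 2 v))
 (.c (c 2 4097 r (t 3 1 v))
 (.c (t 3 1 (t 2 1 v))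
 (.c (c 2 4097 r (t 3 3 v))
 (.c (t 2 1 (u 3 4 (k v (k v r))))
 (.c (c 3 4098 r (t 2 1 v))
 (.c (t 3 2 (t 2 1 v))
 (.c (c 3 4097 r (t 2 1 v))
 (.c (t 2 1 r)
 (.c (c 3 4097 r (t 2 1 v))
 (.c (c 3 4097 r (t 2 1 v))
 (.c (t 3 2 (t 2 1 v))
 (.c (c 3 4096 r (t 2 1 v))
 (.c (c 2 4097 r (t 3 3 v))
 (.c (c 3 4096 r (t 2 1 v))
 (.c (c 2 4097 r (t 3 3 v))
 (.c (c 2 4097 r r)
 (.c (c 3 4096 r (t 2 1 v))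
 (.c (c 2 4097 r (u 3 0 (k r r)))
 (.t 85 (.c (c 3 4095 r (t 2 1 v))
 (.c (c 3 4095 r (t 2 1 v))
 (.c (c 3 4095 r (t 2 1 v))
 (.c (t 3 5 (u 2 0 (k (t 6 1 (u 4 0 (k (t 8 3 (t 12 3 v)) r))) r)))
 (.c (u 2 0 (k (t 6 1 (u 4 0 (k (t 8 3 (t 12 3 r)) r))) r))
 (.c (u 2 0 (k (t 4 1 (t 6 1 r)) r))
 (.c (t 2 1 (t 3 3 v))
 (.c (t 2 1 (u 3 4 (k v (k (t 7 1 (u 5 9 (k v (k (u 9 7 (k v (k v r))) (k (c 2 4091 v (u 9 0 (k (t 17 3 (t 25 1 v)) r))) (k (c 2 4091 v (u 9 0 (k (t 17 3 (t 25 1 v)) r))) (k (u 9 2 (k v (k v (k v (k (t 25 1 (u 17 0 (k (t 33 3 (t 49 1 v)) r))) r))))) (k (u 9 2 (k v (k v (k v (k (t 25 1 (u 17 0 (k (t 33 3 (t 49 1 v)) r))) r))))) r)))))))) r))))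
 (.t 119 (.c (c 2 4097 r (t 3 1 v))
 (.c (t 3 1 (t 2 1 v))
 (.c (c 2 4097 r r)
 (.t 120 (.c (c 3 4097 r (t 2 1 v))
 .z))))))))))))))))))))))))))))))))))))))))))))))))))))))

end Pool.Agent.Helper91.ND1
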