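import Pool.Agent.Helper91.VD1.DT
import Pool.Agent.Helper91.ND1.LA
import Pool.Agent.Helper91.ND1.LT
import Pool.Agent.Helper91.NF.Fast
import Pool.Agent.Helper91.ND1.LR0

/-! part of the certificate for the constant 25/48 (generated) -/

namespace Pool.Agent.Helper91.ND1

open Pool.Agent.Helper66.IL
open Pool.Agent.Helper66.ML
open Pool.Agent.Helper66.ND
open Pool.Agent.Helper91.NF
open Pool.Agent.Helper91.VZ
open Pool.Agent.Helper91.VD1 (DT)

theorem okR0 : rof A NN (vx DT) 167 0 R0 0 = true := by decide +kernel

theorem okR1 : rof A NN (vx DT) 167 1 R1 0 = true := by decide +kernel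

theorem okR2 : rof A NN (vx DT) 167 2 R2 0 = true := by decide +kernel

theorem okR3 : rof A NN (vx DT) 167 3 R3 0 = true := by decide +kernel

theorem okR4 : rof A NN (vx DT) 167 4 R4 0 = true := by decide +kernel

theorem okR5 : rof A NN (vx DT) 167 5 R5 0 = true := by decide +kernel

theorem okR6 : rof A NN (vx DT) 167 6 R6 0 = true := by decide +kernel

theorem okR7 : rof A NN (vx DT) 167 7 R7 0 = true := by decide +kernel

theorem okR8 : rof A NN (vx DT) 167 8 R8 0 = true := by decide +kernel

theorem okR9 : rof A NN (vx DT) 167 9 R9 0 = true := by decide +kernel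

theorem okR10 : rof A NN (vx DT) 167 10 R10 0 = true := by decide +kernel

theorem okR11 : rof A NN (vx DT) 167 11 R11 0 = true := by decide +kernel

theorem okR12 : rof A NN (vx DT) 167 12 R12 0 = true := by decide +kernel

theorem okR13 : rof A NN (vx DT) 167 13 R13 0 = true := by decide +kernel

theorem okR14 : rof A NN (vx DT) 167 14 R14 0 = true := by decide +kernel

theorem okR15 : rof A NN (vx DT) 167 15 R15 0 = true := by decide +kernel

theorem okR16 : rof A NN (vx DT) 167 16 R16 0 = true := by decide +kernel

theorem okR17 : rof A NN (vx DT) 167 17 R17 0 = true := by decide +kernel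

theorem okR18 : rof A NN (vx DT) 167 18 R18 0 = true := by decide +kernel

theorem okR19 : rof A NN (vx DT) 167 19 R19 0 = true := by decide +kernel

theorem okR20 : rof A NN (vx DT) 167 20 R20 0 = true := by decide +kernel

theorem okR21 : rof A NN (vx DT) 167 21 R21 0 = true := by decide +kernel

theorem okR22 : rof A NN (vx DT) 167 22 R22 0 = true := by decide +kernel

theorem okR23 : rof A NN (vx DT) 167 23 R23 0 = true := by decide +kernel

theorem okR24 : rof A NN (vx DT) 167 24 R24 0 = true := by decide +kernel

theorem okR25 : rof A NN (vx DT) 167 25 R25 0 = true := by decide +kernel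

theorem okR26 : rof A NN (vx DT) 167 26 R26 0 = true := by decide +kernel

theorem okR27 : rof A NN (vx DT) 167 27 R27 0 = true := by decide +kernel

theorem okR28 : rof A NN (vx DT) 167 28 R28 0 = true := by decide +kernel

theorem okR29 : rof A NN (vx DT) 167 29 R29 0 = true := by decide +kernel

theorem okR30 : rof A NN (vx DT) 167 30 R30 0 = true := by decide +kernel

theorem okR31 : rof A NN (vx DT) 167 31 R31 0 = true := by decide +kernel

theorem okR32 : rof A NN (vx DT) 167 32 R32 0 = true := by decide +kernel

theorem okR33 : rof A NN (vx DT) 167 33 R33 0 = true := by decide +kernel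

theorem okR34 : rof A NN (vx DT) 167 34 R34 0 = true := by decide +kernel

theorem okR35 : rof A NN (vx DT) 167 35 R35 0 = true := by decide +kernel

theorem okR36 : rof A NN (vx DT) 167 36 R36 0 = true := by decide +kernel

theorem okR37 : rof A NN (vx DT) 167 37 R37 0 = true := by decide +kernel

theorem okR38 : rof A NN (vx DT) 167 38 R38 0 = true := by decide +kernel

theorem okR39 : rof A NN (vx DT) 167 39 R39 0 = true := by decide +kernel

theorem okR40 : rof A NN (vx DT) 167 40 R40 0 = true := by decide +kernel

theorem okR41 : rof A NN (vx DT) 167 41 R41 0 = true := by decide +kernel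

theorem okR42 : rof A NN (vx DT) 167 42 R42 0 = true := by decide +kernel

theorem okR43 : rof A NN (vx DT) 167 43 R43 0 = true := by decide +kernel

theorem okR44 : rof A NN (vx DT) 167 44 R44 0 = true := by decide +kernel

theorem okR45 : rof A NN (vx DT) 167 45 R45 0 = true := by decide +kernel

theorem okR46 : rof A NN (vx DT) 167 46 R46 0 = true := by decide +kernel

theorem okR47 : rof A NN (vx DT) 167 47 R47 0 = true := by decide +kernel

theorem okR48 : rof A NN (vx DT) 167 48 R48 0 = true := by decide +kernel

theorem okR49 : rof A NN (vx DT) 167 49 R49 0 = true := by decide +kernel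

theorem okR50 : rof A NN (vx DT) 167 50 R50 0 = true := by decide +kernel

theorem okR51 : rof A NN (vx DT) 167 51 R51 0 = true := by decide +kernel

theorem okR52 : rof A NN (vx DT) 167 52 R52 0 = true := by decide +kernel

theorem okR53 : rof A NN (vx DT) 167 53 R53 0 = true := by decide +kernel

end Pool.Agent.Helper91.ND1
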