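import Pool.Agent.Helper66.ND.Defs

/-! part of the certificate for the constant 25/48 (generated) -/

namespace Pool.Agent.Helper91.ND1

open Pool.Agent.Helper66.IL
open Pool.Agent.Helper66.ND
open Pool.Agent.Helper66.ND.LT
open Pool.Agent.Helper66.ND.Ct

set_option maxRecDepth 100000 in
def R54 : PR :=
 (.t 56 (.c r
 (.t 62 (.c (c 2 4097 r (t 3 1 v))
 (.c (t 3 1 (u 2 133 (k v (k v (k v (k v (k v (k v (k v r)))))))))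
 (.c (t 3 3 r)
 (.c (t 3 1 (u 2 439 (k v (k v (k v (k v (k v r)))))))
 (.t 85 (.c (c 2 4097 r (t 3 3 v))
 (.c (t 3 3 r)
 (.c (c 2 4097 r (t 3 3 v))
 (.c (c 2 4097 r (t 3 1 v))
 (.c (c 2 4097 r (t 3 1 v))
 (.t 35 (.t 89 (.c (c 2 4097 r (t 3 1 v))
 (.t 91 (.c (u 3 0 (k r (k (u 2 441 (k (u 5 0 (k (u 9 0 (k v (k v r))) r)) (k (u 5 0 (k (u 9 0 (k v (k v r))) r)) (k (c 3 4095 (t 2 2 v) r) r)))) r)))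
 (.c (c 2 4097 r (t 3 1 v))
 (.c (t 3 3 r)
 (.t 90 (.c (t 3 1 r)
 (.c (t 3 1 r)
 (.c (t 3 1 r)
 (.c (u 2 442 (k (u 3 3 (k v (k v r))) (k (u 3 3 (k v (k v r))) (k (u 3 3 (k v (k v r))) (k (u 3 4 (k v (k v r))) r)))))
 (.c (t 3 2 r)
 (.c (t 3 2 r)
 (.c (c 2 4097 r (t 3 3 v))
 (.c (u 3 2 (k r (k (c 2 4097 r (u 5 1 (k v (k v r)))) r)))
 (.c (c 2 4097 r (t 3 1 v))
 (.c (u 2 215 (k (u 3 0 (k (u 5 1 (k v (k v r))) r)) (k (u 3 0 (k (u 5 1 (k v (k v r))) r)) (k (c 3 4097 r v) (k (u 3 0 (k (u 5 8 (k v (k v (k v r)))) r)) r)))))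
 (.c (t 3 2 r)
 (.c (c 2 4097 r (t 3 5 v))
 (.c (c 2 4097 r (t 3 3 v))
 (.c (u 2 443 (k (u 3 0 (k (t 5 3 (t 7 1 v)) r)) (k (u 3 0 (k (t 5 3 (t 7 1 v)) r)) (k (u 3 0 (k (t 5 3 (t 7 1 v)) r)) (k (u 3 0 (k (t 5 3 (t 7 1 v)) r)) (k (u 3 0 (k (t 5 3 (t 7 1 v)) r)) (k (c 3 4096 r v) (k (c 3 4096 r v) (k (t 6 1 (u 4 2 (k (u 3 0 (k (t 5 3 (t 7 1 v)) r)) (k (u 3 0 (k (t 5 3 (t 7 1 v)) r)) r)))) r)))))))))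
 (.c (c 2 4097 r (t 3 3 v))
 (.c (c 2 4097 r r)
 (.t 56 (.c (c 2 4097 r (u 3 0 (k r r)))
 (.t 119 (.c (c 2 4097 r (t 3 1 v))
 (.c (c 2 4097 r (u 3 0 (k (t 7 1 r) r)))
 (.c (c 2 4097 r (t 3 3 v))
 (.c (t 3 3 r)
 (.c (u 2 341 (k r (k r (k r (k r (k (t 6 1 (u 4 0 (k r (k r r)))) r))))))
 (.c (u 3 0 (k r (k r (k (c 7 4099 r (u 5 0 (k (u 9 4 (k r (k r r))) r))) (k r (k (u 2 99 (k r (k r (k r r)))) (k (u 5 0 (k (u 9 0 (k r (k r r))) r)) (k r (k r r)))))))))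
 (.c (t 3 3 r)
 (.c (u 3 4 (k r (k (t 7 1 r) r)))
 (.t 119 (.c (t 3 1 r)
 (.c (t 3 1 r)
 (.c (c 2 4097 r r)
 (.t 119 (.t 0 (.t 128 .z)))))))))))))))))))))))))))))))))))))))))))))))))))))))

set_option maxRecDepth 100000 in
def R55 : PR :=
 (.t 48 (.c (t 2 1 v)
 (.t 62 (.c (c 2 4097 r (t 3 1 v))
 (.c (t 2 1 (t 3 1 v))
 (.c (t 2 1 (t 3 3 v))
 (.c (t 2 1 (t 3 2 v))
 (.c (t 3 1 (u 2 0 (k (t 6 1 r) (k (t 6 1 r) r))))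
 (.c (c 2 4097 r (t 3 3 v))
 (.c (t 2 1 (t 3 3 v))
 (.c (c 2 4097 r (t 3 3 v))
 (.c (c 2 4097 r (t 3 1 v))
 (.c (c 2 4097 r (t 3 1 v))
 (.c (t 2 1 (t 3 3 v))
 (.c (t 2 1 (t 3 3 v))
 (.c (c 2 4097 r (t 3 1 v))
 (.c (u 3 0 (k r (k r r)))
 (.c (t 2 1 r)
 (.c (c 2 4097 r (t 3 1 v))
 (.c (t 3 3 r)
 (.c (t 2 1 (u 3 0 (k (u 5 0 (k v (k v r))) r)))
 (.c (t 3 1 r)
 (.c (t 2 1 (t 3 3 v))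
 (.c (t 2 1 (t 3 3 v))
 (.c (t 2 1 (u 3 3 (k v (k v r))))
 (.c (t 2 1 (t 3 1 v))
 (.c (t 2 1 (t 3 1 v))
 (.c (c 2 4097 r (t 3 3 v))
 (.c (t 2 1 r)
 (.c (c 2 4097 r (t 3 1 v))
 (.c (t 2 1 (u 3 0 (k (u 5 1 (k v (k v r))) r)))
 (.c (t 3 2 (t 2 1 v))
 (.c (c 2 4097 r (t 3 5 v))
 (.c (c 2 4097 r (t 3 3 v))
 (.c (t 2 1 (u 3 0 (k (t 5 3 (t 7 1 v)) r)))
 (.c (c 2 4097 r (t 3 3 v))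
 (.c (c 2 4097 r r)
 (.c (u 3 2 (k r (k r (k (t 2 1 v) (k (t 7 1 (u 2 0 (k (t 6 1 r) (k (t 6 1 r) r)))) r)))))
 (.c (c 2 4097 r (u 3 0 (k r r)))
 (.c (t 2 1 r)
 (.c (c 2 4097 r (t 3 1 v))
 (.c (c 2 4097 r (u 3 0 (k (t 7 1 r) r)))
 (.c (c 2 4097 r (t 3 3 v))
 (.c (t 3 6 r)
 (.c (t 2 1 r)
 (.c (t 2 1 r)
 (.c (t 3 3 r)
 (.c (u 3 4 (k r (k (t 7 1 (u 5 2 (k (c 2 4097 r v) (k r r)))) r)))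
 (.c (t 2 1 r)
 (.c (t 2 1 (t 3 3 v))
 (.c (t 2 1 r)
 (.c (c 2 4097 r r)
 (.c (t 2 1 r)
 (.c (t 3 1 (u 2 0 (k r (k r r))))
 (.c (u 3 444 (k r (k r (k (t 2 1 v) (k (u 2 0 (k r (k r r))) (k (t 2 1 v) (k (t 2 1 v) r)))))))
 (.c (u 2 0 (k (t 6 1 (u 4 25 (k r (k r (k r (k (c 3 4097 r r) (k (c 3 4097 r r) (k (c 12 4097 r (c 3 4097 r r)) r)))))))) (k (t 6 1 (u 4 23 (k r (k r (k (c 3 4097 r v) (k (c 3 4097 r r) r)))))) r)))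
 .z))))))))))))))))))))))))))))))))))))))))))))))))))))))))

set_option maxRecDepth 100000 in
def R56 : PR :=
 (.c r
 (.c r
 (.t 52 (.c (c 2 4097 r (t 3 1 v))
 (.c (t 2 3 (t 3 1 v))
 (.c (c 3 4100 r r)
 (.c (c 3 4100 r r)
 (.c (c 3 4099 r r)
 (.c (c 2 4097 r (t 3 3 v))
 (.c (c 3 4099 r r)
 (.c (c 2 4097 r (t 3 3 v))
 (.c (c 2 4097 r (t 3 1 v))
 (.c (c 2 4097 r (t 3 1 v))
 (.c (t 2 3 (t 3 3 v))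
 (.c (t 2 3 (t 3 3 v))
 (.c (c 2 4097 r (t 3 1 v))
 (.c (c 3 4097 r r)
 (.c (c 3 4097 r r)
 (.c (c 2 4097 r (t 3 1 v))
 (.c (t 2 3 (t 3 1 v))
 (.c (t 2 3 (u 3 0 (k (u 5 0 (k v (k v r))) r)))
 (.c (c 3 4095 r r)
 (.c (c 3 4099 r r)
 (.c (t 2 3 (t 3 3 v))
 (.c (t 2 3 (u 3 3 (k v (k v r))))
 (.c (c 3 4098 r r)
 (.c (c 3 4098 r r)
 (.c (c 2 4097 r (t 3 3 v))
 (.c (c 3 4097 r r)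
 (.c (c 2 4097 r (t 3 1 v))
 (.c (c 3 4097 r r)
 (.c (c 3 4097 r r)
 (.c (c 2 4097 r (t 3 5 v))
 (.c (c 2 4097 r (t 3 3 v))
 (.c (c 3 4096 r r)
 (.c (c 3 4102 r r)
 (.c (c 2 4097 r r)
 (.c (c 3 4096 r r)
 (.c (c 2 4097 r (u 3 0 (k r r)))
 (.c (t 2 3 r)
 (.c (c 2 4097 r (t 3 1 v))
 (.c (c 2 4097 r (u 3 0 (k (t 7 1 r) r)))
 (.c (c 2 4097 r (t 3 3 v))
 (.c (c 3 4100 r r)
 (.c (c 3 4100 r r)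
 (.c (c 3 4100 r r)
 (.c (t 3 2 (t 2 3 v))
 (.c (t 3 1 (t 2 3 v))
 (.c (c 3 4099 r r)
 (.c (c 3 4098 r r)
 (.c (c 3 4098 r r)
 (.c (c 3 4098 r r)
 (.c (t 2 3 r)
 (.c (c 3 4097 r r)
 (.c (c 3 4097 r r)
 (.c (c 3 4097 r r)
 (.c (c 2 4097 r r)
 .z)))))))))))))))))))))))))))))))))))))))))))))))))))))))))

set_option maxRecDepth 100000 in
def R57 : PR :=
 (.t 37 (.c r
 (.c (c 2 4096 r (t 3 1 v))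
 (.c (c 2 4096 r (t 3 1 v))
 (.c (t 3 1 (u 2 9 (k v (k v r))))
 (.c (t 3 2 r)
 (.c (t 3 4 r)
 (.t 85 (.c (c 2 4096 r (t 3 3 v))
 (.c (t 3 4 r)
 (.c (c 2 4096 r (t 3 3 v))
 (.c (c 2 4096 r (t 3 1 v))
 (.c (c 2 4096 r (t 3 1 v))
 (.c (t 3 2 r)
 (.c (t 3 2 r)
 (.c (c 2 4096 r (t 3 1 v))
 (.c (u 2 1 (k (u 3 0 (k v (k v r))) (k (t 6 1 (u 3 0 (k r (k r r)))) r)))
 (.c (c 3 4097 r r)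
 (.c (c 2 4096 r (t 3 1 v))
 (.c (t 3 1 r)
 (.c (t 3 2 r)
 (.c (c 2 4096 r (t 3 1 v))
 (.c (t 2 3 (t 3 3 v))
 (.c (t 3 3 (u 2 9 (k v (k v r))))
 (.c (u 3 0 (k r (k (u 2 9 (k v (k v r))) r)))
 (.c (t 3 2 r)
 (.c (t 3 2 r)
 (.c (c 2 4096 r (t 3 3 v))
 (.c (u 2 9 (k r (k r r)))
 (.c (c 2 4096 r (t 3 1 v))
 (.c (c 3 4097 r r)
 (.c (t 3 4 r)
 (.c (c 2 4096 r (t 3 5 v))
 (.c (c 2 4096 r (t 3 3 v))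
 (.c (u 2 4 (k (t 6 1 (u 4 28 (k (u 3 0 (k (t 5 3 (t 7 1 v)) r)) (k (u 3 0 (k (t 5 3 (t 7 1 v)) r)) (k (u 3 0 (k (t 5 3 (t 7 1 v)) r)) (k (c 3 4096 r (u 8 0 (k v (k v r)))) (k (u 8 2 (k (c 8 4094 v (u 3 0 (k (t 5 3 (t 7 1 v)) r))) (k (u 3 0 (k (t 5 3 (t 7 1 v)) r)) r))) r))))))) (k (c 3 4096 r (t 6 2 r)) r)))
 (.c (c 2 4096 r (t 3 3 v))
 (.c (c 2 4096 r r)
 (.t 85 (.c (c 2 4096 r (u 3 0 (k r r)))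
 (.c (t 3 1 r)
 (.c (c 2 4096 r (t 3 1 v))
 (.c (c 2 4096 r (u 3 0 (k (t 7 1 r) r)))
 (.c (c 2 4096 r (t 3 3 v))
 (.c (t 3 6 r)
 (.c (u 3 0 (k r (k r r)))
 (.c (t 3 2 r)
 (.c (t 3 2 r)
 (.c (u 2 3 (k r (k (t 3 1 v) r)))
 (.c (t 3 1 r)
 (.c (t 3 1 r)
 (.c (t 3 1 r)
 (.c (c 2 4096 r r)
 (.c (t 3 1 r)
 (.c (c 2 4096 r (t 3 1 v))
 (.c (u 2 1 (k r (k (t 6 1 r) r)))
 (.c (t 3 1 r)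
 (.c (c 2 4096 r r)
 (.c (u 2 2 (k (u 3 4 (k (t 7 1 (u 5 1 (k v (k (c 13 4099 r (t 9 3 v)) (k (u 9 13 (k v (k v (k (t 25 1 (u 17 2 (k v (k v r)))) r)))) (k (u 9 9 (k v (k v (k (t 25 1 (u 17 37 (k v (k v (k v r))))) r)))) r)))))) (k (c 2 4090 v (t 7 2 r)) r))) (k (c 3 4096 r (t 6 2 r)) r)))
 .z))))))))))))))))))))))))))))))))))))))))))))))))))))))))))

set_option maxRecDepth 100000 in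
def R58 : PR :=
 (.t 62 (.c (t 2 1 v)
 (.c (c 2 4096 r (t 3 1 v))
 (.c (c 2 4096 r (t 3 1 v))
 (.c (t 3 1 (u 2 1 (k (u 4 1 (k v (k v r))) (k (u 4 323 (k v (k v (k v (k v r))))) (k (c 4 4096 r (u 6 0 (k v (k v r)))) (k (c 6 4096 r r) r))))))
 (.c (t 3 3 r)
 (.c (t 3 1 (u 2 1 (k (u 4 1 (k v (k v r))) (k (u 4 215 (k v (k v (k v (k v r))))) (k (c 4 4096 r (u 6 0 (k v (k v r)))) (k (c 6 4096 r r) r))))))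
 (.t 89 (.c (c 2 4096 r (t 3 3 v))
 (.c (t 3 3 (u 2 1 (k (u 4 1 (k v (k v r))) (k (u 4 440 (k v (k v (k v (k v r))))) (k (c 4 4096 r (u 6 0 (k v (k v r)))) (k (c 6 4096 r r) r))))))
 (.c (c 2 4096 r (t 3 3 v))
 (.c (c 2 4096 r (t 3 1 v))
 (.c (c 2 4096 r (t 3 1 v))
 (.c (t 3 3 r)
 (.c (t 3 3 r)
 (.c (c 2 4096 r (t 3 1 v))
 (.t 91 (.c (c 3 4097 r (t 2 1 v))
 (.c (c 2 4096 r (t 3 1 v))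
 (.c (t 3 1 r)
 (.c (u 3 0 (k (u 5 0 (k r (k r r))) r))
 (.c (c 3 4095 r (t 2 1 v))
 (.c (t 2 1 (t 3 3 v))
 (.c (t 3 1 r)
 (.c (u 3 4 (k r (k (c 2 4096 r v) r)))
 (.c (t 3 2 r)
 (.c (t 3 2 r)
 (.c (c 3 4097 r (t 2 1 v))
 (.c (u 3 2 (k r (k (c 2 4096 r (u 5 1 (k v (k v r)))) r)))
 (.c (c 3 4097 r (t 2 1 v))
 (.c (c 3 4097 r (t 2 1 v))
 (.c (t 3 2 r)
 (.c (c 2 4096 r (t 3 5 v))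
 (.c (c 2 4096 r (t 3 3 v))
 (.t 119 (.c (c 2 4096 r (t 3 3 v))
 (.c (c 2 4096 r r)
 (.t 119 (.c (c 2 4096 r (u 3 0 (k r r)))
 (.c (u 2 0 (k (u 3 1 (k (c 2 4096 r v) (k (u 4 10 (k v (k v (k v (k v (k v (k (t 12 1 (u 8 0 (k v (k v r)))) r))))))) r))) (k (c 4 4096 r r) (k r (k (c 6 4096 r (u 3 1 (k (c 2 4096 r v) (k r r)))) r)))))
 (.c (c 3 4095 r (t 2 1 v))
 (.c (c 3 4095 r (t 2 1 v))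
 (.c (c 3 4095 r (t 2 1 v))
 (.t 123 (.t 123 (.t 120 (.c (t 3 2 r)
 (.c (t 3 1 r)
 (.c (u 3 1 (k r (k (u 5 1 (k r (k r r))) (k (c 7 4099 r (u 5 0 (k r (k r r)))) (k (u 5 93 (k r (k r (k r r)))) (k (c 7 4097 r (u 5 1 (k r (k r r)))) (k (c 5 4095 r (u 7 1 (k r (k r r)))) r)))))))
 (.c (t 3 1 r)
 (.c (t 3 1 r)
 (.c (c 2 4096 r r)
 (.c (u 3 2 (k (c 2 4096 r v) (k (c 7 4097 r (u 5 0 (k r (k r r)))) r)))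
 (.c (c 3 4097 r (t 2 1 v))
 (.t 128 (.c (t 3 1 r)
 (.c (c 2 4096 r r)
 (.c (t 2 1 r)
 (.c (u 2 1 (k r (k (u 3 1 (k (u 5 1 (k r (k r r))) (k r (k (c 5 4096 r (u 7 0 (k r (k r r)))) (k (c 7 4096 r r) r))))) (k (c 4 4096 r (u 6 0 (k r (k r r)))) (k (c 6 4096 r (u 3 0 (k r (k (c 5 4096 r (u 7 0 (k r (k r r)))) (k (u 5 1 (k r (k r r))) (k (c 7 4096 r r) r)))))) r)))))
 .z)))))))))))))))))))))))))))))))))))))))))))))))))))))))))))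

set_option maxRecDepth 100000 in
def R59 : PR :=
 (.c r
 (.c r
 (.c (c 2 4095 r (t 3 1 v))
 (.c (c 2 4095 r (t 3 1 v))
 (.c (t 3 1 r)
 (.c (t 3 3 r)
 (.c (t 3 1 r)
 (.c (t 3 1 (u 2 0 (k v (k (t 4 3 (t 6 3 v)) (k (t 6 1 (u 4 0 (k v (k v r)))) r)))))
 (.c (c 2 4095 r (t 3 3 v))
 (.c (t 3 3 (u 2 1 (k v (k (t 4 1 (t 6 3 v)) r))))
 (.c (c 2 4095 r (t 3 3 v))
 (.c (c 2 4095 r (t 3 1 v))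
 (.c (c 2 4095 r (t 3 1 v))
 (.c (c 2 4095 r (t 3 2 v))
 (.c (t 3 3 r)
 (.c (c 2 4095 r (t 3 1 v))
 (.c (u 3 0 (k r (k r r)))
 (.c (c 3 4097 r r)
 (.c (c 2 4095 r (t 3 1 v))
 (.c (c 2 4095 r (t 3 1 v))
 (.c (c 2 4095 r (t 3 2 v))
 (.c (c 2 4095 r (t 3 1 v))
 (.c (t 2 1 (t 3 3 v))
 (.c (c 2 4095 r (t 3 3 v))
 (.c (t 2 1 (u 3 3 (k v (k v r))))
 (.c (c 2 4095 r (t 3 3 v))
 (.c (t 3 1 r)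
 (.c (c 2 4095 r (t 3 3 v))
 (.c (u 3 6 (k r (k r r)))
 (.c (c 2 4095 r (t 3 1 v))
 (.c (c 3 4097 r r)
 (.c (t 3 3 r)
 (.c (c 2 4095 r (t 3 5 v))
 (.c (c 2 4095 r (t 3 3 v))
 (.c (c 3 4096 r r)
 (.c (c 2 4095 r (t 3 3 v))
 (.c (c 2 4095 r r)
 (.c (c 3 4096 r r)
 (.c (c 2 4095 r (u 3 0 (k r r)))
 (.c (u 3 69 (k r (k (c 2 4095 r v) (k r r))))
 (.c (c 2 4095 r (t 3 1 v))
 (.c (c 2 4095 r (u 3 0 (k (t 7 1 r) r)))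
 (.c (c 2 4095 r (t 3 3 v))
 (.c (t 3 6 r)
 (.c (u 3 1 (k r (k r r)))
 (.c (u 2 1 (k r (k (t 4 1 (t 6 3 (u 3 3 (k v (k v (k v (k r (k r (k (u 5 0 (k (u 9 0 (k v (k v r))) r)) (k r (k r r))))))))))) r)))
 (.c (t 3 3 r)
 (.c (u 3 4 (k r (k (t 7 1 (u 5 2 (k (c 2 4095 r v) (k r r)))) r)))
 (.c (u 3 15 (k r (k r (k r (k (u 5 1 (k r (k r r))) (k (u 5 0 (k r (k r r))) (k (c 7 4097 r (u 5 1 (k r (k r r)))) r)))))))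
 (.c (c 2 4095 r (t 3 1 v))
 (.c (t 3 1 r)
 (.c (c 2 4095 r r)
 (.c (u 3 1 (k r (k (c 7 4097 r (u 5 0 (k r (k r r)))) r)))
 (.c (c 2 4095 r (t 3 1 v))
 (.c (u 3 374 (k r (k r (k (c 2 4095 r v) (k (c 2 4095 r v) (k (u 2 1 (k v (k (t 4 1 (t 6 3 v)) r))) r))))))
 (.c (u 3 0 (k (t 7 1 (u 5 28 (k r (k (c 2 4095 r v) (k r (k (c 2 4095 r r) r)))))) (k (t 7 1 (u 5 6 (k (c 2 4095 r v) (k r (k r r))))) r)))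
 (.c (c 2 4095 r r)
 (.c (c 2 4095 r r)
 (.c (c 2 4095 r (t 3 1 v))
 (.c (c 3 4095 r r)
 .z))))))))))))))))))))))))))))))))))))))))))))))))))))))))))))

set_option maxRecDepth 100000 in
def R60 : PR :=
 (.c r
 (.c r
 (.c (c 2 4095 r (t 3 1 v))
 (.c (c 2 4095 r (t 3 1 v))
 (.c (t 2 3 (t 3 1 v))
 (.c (t 3 3 (t 2 3 v))
 (.c (t 2 5 (t 3 1 v))
 (.c (t 3 1 (u 2 0 (k (t 6 1 (u 4 0 (k (t 8 3 (t 12 1 v)) r))) r)))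
 (.c (c 2 4095 r (t 3 3 v))
 (.c (t 2 3 (t 3 3 v))
 (.c (c 2 4095 r (t 3 3 v))
 (.c (c 2 4095 r (t 3 1 v))
 (.c (c 2 4095 r (t 3 1 v))
 (.c (c 2 4095 r (t 3 2 v))
 (.c (t 3 3 (u 2 0 (k (t 6 1 (u 4 0 (k (t 8 3 (t 12 1 v)) r))) r)))
 (.c (c 2 4095 r (t 3 1 v))
 (.c (t 2 1 (u 3 0 (k v (k v r))))
 (.c (c 3 4097 r r)
 (.c (c 2 4095 r (t 3 1 v))
 (.c (c 2 4095 r (t 3 1 v))
 (.c (c 2 4095 r (t 3 2 v))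
 (.c (c 2 4095 r (t 3 1 v))
 (.c (t 2 4 (t 3 3 v))
 (.c (c 2 4095 r (t 3 3 v))
 (.c (t 2 2 (u 3 3 (k v (k v r))))
 (.c (c 2 4095 r (t 3 3 v))
 (.c (t 2 3 (t 3 2 v))
 (.c (c 2 4095 r (t 3 3 v))
 (.c (t 2 5 (u 3 4 (k v (k (c 2 4083 v (u 5 1 (k v (k v r)))) r))))
 (.c (c 2 4095 r (t 3 1 v))
 (.c (c 3 4097 r r)
 (.c (t 2 5 (t 3 3 v))
 (.c (c 2 4095 r (t 3 5 v))
 (.c (c 2 4095 r (t 3 3 v))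
 (.c (c 3 4096 r r)
 (.c (c 2 4095 r (t 3 3 v))
 (.c (c 2 4095 r r)
 (.c (c 3 4096 r r)
 (.c (c 2 4095 r (u 3 0 (k r r)))
 (.c (t 2 1 r)
 (.c (c 2 4095 r (t 3 1 v))
 (.c (c 2 4095 r (u 3 0 (k (t 7 1 r) r)))
 (.c (c 2 4095 r (t 3 3 v))
 (.c (t 3 6 r)
 (.c (t 2 1 (u 3 1 (k v (k v r))))
 (.c (t 2 1 r)
 (.c (t 3 2 (t 2 5 v))
 (.c (t 2 1 (t 3 1 v))
 (.c (t 2 1 r)
 (.c (c 2 4095 r (t 3 1 v))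
 (.c (t 3 1 (t 2 1 v))
 (.c (c 2 4095 r r)
 (.c (t 2 1 r)
 (.c (c 2 4095 r (t 3 1 v))
 (.c (t 2 1 r)
 (.c (t 3 1 (t 2 5 v))
 (.c (c 2 4095 r r)
 (.c (c 2 4095 r r)
 (.c (c 2 4095 r (t 3 1 v))
 (.c (c 2 4095 r r)
 (.c (c 3 4095 r r)
 .z)))))))))))))))))))))))))))))))))))))))))))))))))))))))))))))

set_option maxRecDepth 100000 in
def R61 : PR :=
 (.c r
 (.c r
 (.t 65 (.c (c 2 4098 r (t 3 1 v))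
 (.c (t 3 1 (u 2 0 (k (t 6 1 (u 4 6 (k v (k v r)))) r)))
 (.c (t 3 3 r)
 (.c (t 3 1 (u 2 0 (k (t 6 1 (u 4 8 (k v (k v r)))) r)))
 (.c (t 3 1 (u 2 0 (k (t 6 1 (u 4 0 (k v (k v (k (u 8 1 (k v (k v r))) r))))) r)))
 (.c (c 2 4098 r (t 3 3 v))
 (.c (t 3 3 (u 2 0 (k (t 6 1 (u 4 6 (k v (k v r)))) r)))
 (.c (c 2 4098 r (t 3 3 v))
 (.c (c 2 4098 r (t 3 1 v))
 (.c (c 2 4098 r (t 3 1 v))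
 (.c (t 2 3 (t 3 3 v))
 (.t 52 (.c (c 2 4098 r (t 3 1 v))
 (.c (t 2 3 (u 3 0 (k v (k v r))))
 (.c (c 3 4097 r r)
 (.c (t 2 3 (t 3 1 v))
 (.c (t 3 1 (t 2 3 v))
 (.c (c 3 4096 r r)
 (.c (c 3 4095 r r)
 (.c (t 2 2 (t 3 3 v))
 (.c (t 2 3 (t 3 3 v))
 (.c (t 2 3 (u 3 1 (k v (k v r))))
 (.c (c 3 4098 r r)
 (.c (t 3 2 r)
 (.c (c 2 4098 r (t 3 3 v))
 (.c (u 2 0 (k (t 6 1 (u 4 8 (k r (k r r)))) r))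
 (.c (c 2 4098 r (t 3 1 v))
 (.c (c 3 4097 r r)
 (.c (t 3 2 (u 2 0 (k (t 6 1 (u 4 2 (k v (k (c 2 4083 (u 4 1 (k v (k v r))) v) r)))) r)))
 (.c (c 2 4098 r (t 3 5 v))
 (.c (c 2 4098 r (t 3 3 v))
 (.c (c 3 4096 r r)
 (.c (c 2 4098 r (t 3 3 v))
 (.c (c 2 4098 r r)
 (.c (c 3 4096 r r)
 (.c (c 2 4098 r (u 3 0 (k r r)))
 (.c (t 2 3 r)
 (.c (c 2 4098 r (t 3 1 v))
 (.c (c 2 4098 r (u 3 0 (k (t 7 1 r) r)))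
 (.c (c 2 4098 r (t 3 3 v))
 (.c (t 2 3 (t 3 6 v))
 (.c (t 2 3 (u 3 1 (k v (k v r))))
 (.c (t 2 3 r)
 (.c (t 2 3 (t 3 2 v))
 (.c (t 3 1 (t 2 3 v))
 (.c (t 2 3 r)
 (.c (c 3 4098 r r)
 (.c (t 2 3 (t 3 1 v))
 (.c (c 2 4098 r r)
 (.c (t 2 3 r)
 (.c (c 3 4097 r r)
 (.c (t 2 3 r)
 (.c (t 3 1 (t 2 3 v))
 (.c (c 2 4098 r r)
 (.c (c 3 4096 r r)
 (.c (c 3 4096 r r)
 (.c (c 3 4095 r r)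
 (.c (c 3 4095 r r)
 (.c (t 2 3 r)
 .z))))))))))))))))))))))))))))))))))))))))))))))))))))))))))))))

set_option maxRecDepth 100000 in
def R62 : PR :=
 (.c r
 (.c r
 (.c (c 2 4095 r (t 3 1 v))
 (.c (c 2 4095 r (t 3 1 v))
 (.c (t 2 3 (t 3 1 v))
 (.c (t 2 1 (t 3 3 v))
 (.c (t 2 1 (t 3 1 v))
 (.c (t 3 1 (u 2 0 (k (t 6 1 (u 4 0 (k (u 8 0 (k (t 16 3 (t 24 1 v)) r)) r))) r)))
 (.c (c 2 4095 r (t 3 3 v))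
 (.c (t 2 3 (t 3 3 v))
 (.c (c 2 4095 r (t 3 3 v))
 (.c (c 2 4095 r (t 3 1 v))
 (.c (c 2 4095 r (t 3 1 v))
 (.c (c 2 4095 r (t 3 2 v))
 (.c (t 2 1 (t 3 3 v))
 (.c (c 2 4095 r (t 3 1 v))
 (.c (t 2 2 (u 3 0 (k v (k v r))))
 (.c (c 3 4097 r r)
 (.c (c 2 4095 r (t 3 1 v))
 (.c (c 2 4095 r (t 3 1 v))
 (.c (c 2 4095 r (t 3 2 v))
 (.c (c 2 4095 r (t 3 1 v))
 (.c (t 2 4 (t 3 3 v))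
 (.c (c 2 4095 r (t 3 3 v))
 (.c (t 2 2 (u 3 1 (k v (k v r))))
 (.c (c 2 4095 r (t 3 3 v))
 (.c (t 2 3 (t 3 2 v))
 (.c (c 2 4095 r (t 3 3 v))
 (.c (t 2 1 (u 3 4 (k v (k (c 2 4083 v (u 5 1 (k v (k v r)))) r))))
 (.c (c 2 4095 r (t 3 1 v))
 (.c (c 3 4097 r r)
 (.c (t 3 2 (t 2 3 v))
 (.c (c 2 4095 r (t 3 5 v))
 (.c (c 2 4095 r (t 3 3 v))
 (.c (c 3 4096 r r)
 (.c (c 2 4095 r (t 3 3 v))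
 (.c (c 2 4095 r r)
 (.c (c 3 4096 r r)
 (.c (c 2 4095 r (u 3 0 (k r r)))
 (.c (t 2 2 r)
 (.c (c 2 4095 r (t 3 1 v))
 (.c (c 2 4095 r (u 3 0 (k (t 7 1 r) r)))
 (.c (c 2 4095 r (t 3 3 v))
 (.c (t 2 2 (t 3 6 v))
 (.c (t 2 2 (u 3 1 (k v (k v r))))
 (.c (t 2 2 r)
 (.c (t 3 2 (t 2 2 v))
 (.c (t 3 1 (t 2 2 v))
 (.c (t 2 2 r)
 (.c (c 2 4095 r (t 3 1 v))
 (.c (t 2 2 (t 3 1 v))
 (.c (c 2 4095 r r)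
 (.c (t 2 2 r)
 (.c (c 2 4095 r (t 3 1 v))
 (.c (t 2 2 r)
 (.c (t 3 1 (t 2 2 v))
 (.c (c 2 4095 r r)
 (.c (c 2 4095 r r)
 (.c (c 2 4095 r (t 3 1 v))
 (.c (c 2 4095 r r)
 (.c (c 2 4095 r r)
 (.c (c 2 4095 r r)
 (.c (c 2 4095 r r)
 .z)))))))))))))))))))))))))))))))))))))))))))))))))))))))))))))))

set_option maxRecDepth 100000 in
def R63 : PR :=
 (.c (t 2 1 v)
 (.c (t 2 1 v)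
 (.c (c 2 4095 r (t 3 1 v))
 (.c (c 2 4095 r (t 3 1 v))
 (.c (t 2 1 (t 3 1 v))
 (.c (t 2 1 (t 3 3 v))
 (.c (t 2 1 (t 3 2 v))
 (.c (t 3 1 (u 2 0 (k (t 6 1 r) r)))
 (.c (c 2 4095 r (t 3 3 v))
 (.c (t 2 1 (t 3 3 v))
 (.c (c 2 4095 r (t 3 3 v))
 (.c (c 3 4098 r (t 2 1 v))
 (.c (c 2 4095 r (t 3 1 v))
 (.c (c 2 4095 r (t 3 2 v))
 (.c (t 2 1 (t 3 3 v))
 (.c (c 2 4095 r (t 3 1 v))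
 (.c (u 3 0 (k (u 2 0 (k (t 6 1 r) r)) (k (u 2 0 (k (t 6 1 r) r)) r)))
 (.c (c 3 4097 r (t 2 1 v))
 (.c (c 2 4095 r (t 3 1 v))
 (.c (c 2 4095 r (t 3 1 v))
 (.c (c 2 4095 r (t 3 2 v))
 (.c (c 3 4095 r (t 2 1 v))
 (.c (t 2 1 (t 3 3 v))
 (.c (c 2 4095 r (t 3 3 v))
 (.c (t 2 1 (u 3 3 (k v (k v r))))
 (.c (c 3 4098 r (t 2 1 v))
 (.c (t 2 1 (t 3 1 v))
 (.c (c 3 4097 r (t 2 1 v))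
 (.c (t 2 1 r)
 (.c (c 3 4097 r (t 2 1 v))
 (.c (c 3 4097 r (t 2 1 v))
 (.c (t 2 1 (t 3 2 v))
 (.c (c 3 4096 r (t 2 1 v))
 (.c (c 2 4095 r (t 3 3 v))
 (.c (c 3 4096 r (t 2 1 v))
 (.c (c 2 4095 r (t 3 3 v))
 (.c (c 2 4095 r r)
 (.c (c 3 4096 r (t 2 1 v))
 (.c (c 2 4095 r (u 3 0 (k r r)))
 (.c (t 2 1 r)
 (.c (c 3 4095 r (t 2 1 v))
 (.c (c 3 4095 r (t 2 1 v))
 (.c (c 3 4095 r (t 2 1 v))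
 (.c (t 3 6 (u 2 0 (k (t 6 1 r) r)))
 (.c (t 2 1 r)
 (.c (t 2 1 r)
 (.c (t 3 3 r)
 (.c (u 3 4 (k r (k (t 7 1 (u 5 2 (k (c 2 4095 r v) (k r r)))) r)))
 (.c (t 2 1 r)
 (.c (c 3 4098 r (t 2 1 v))
 (.c (t 2 1 r)
 (.c (c 2 4095 r r)
 (.c (t 2 1 r)
 (.c (c 3 4097 r (t 2 1 v))
 (.c (u 2 0 (k (t 6 1 (u 4 1 (k r (k (c 12 4097 r (u 8 0 (k r (k r r)))) r)))) r))
 (.c (u 3 0 (k (t 7 1 (u 5 34 (k (c 2 4095 r v) (k r (k (u 2 0 (k (t 6 1 r) r)) (k (c 2 4095 r r) r)))))) (k (t 7 1 (u 5 6 (k (c 2 4095 r v) (k (u 2 0 (k (t 6 1 r) r)) (k r r))))) r)))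
 (.c (c 2 4095 r r)
 (.c (c 3 4096 r (t 2 1 v))
 (.c (c 2 4095 r (t 3 1 v))
 (.c (c 3 4095 r (t 2 1 v))
 (.c (c 3 4095 r (t 2 1 v))
 (.c (c 2 4095 r r)
 (.c (c 3 4095 r (t 2 1 v))
 (.c (c 3 4095 r (t 2 1 v))
 .z))))))))))))))))))))))))))))))))))))))))))))))))))))))))))))))))

set_option maxRecDepth 100000 in
def R64 : PR :=
 (.c r
 (.c r
 (.c (c 2 4095 r (t 3 1 v))
 (.c (c 2 4095 r (t 3 1 v))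
 (.c (t 3 1 r)
 (.c (t 3 3 r)
 (.c (t 3 1 (u 2 5 (k v (k v r))))
 (.t 85 (.c (c 2 4095 r (t 3 3 v))
 (.c (t 3 3 (u 2 5 (k v (k v r))))
 (.c (c 2 4095 r (t 3 3 v))
 (.c (c 2 4095 r (t 3 1 v))
 (.c (c 2 4095 r (t 3 1 v))
 (.c (c 2 4095 r (t 3 2 v))
 (.t 87 (.c (c 2 4095 r (t 3 1 v))
 (.t 91 (.c (c 3 4097 r r)
 (.c (c 2 4095 r (t 3 1 v))
 (.c (c 2 4095 r (t 3 1 v))
 (.c (c 2 4095 r (t 3 2 v))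
 (.c (c 2 4095 r (t 3 1 v))
 (.c (t 3 1 r)
 (.c (c 2 4095 r (t 3 3 v))
 (.c (u 2 5 (k (u 3 3 (k v (k v r))) (k (u 3 3 (k v (k v r))) r)))
 (.c (c 2 4095 r (t 3 3 v))
 (.c (t 3 1 r)
 (.c (c 2 4095 r (t 3 3 v))
 (.c (u 3 2 (k r (k (c 2 4095 r (u 5 1 (k v (k v r)))) r)))
 (.c (c 2 4095 r (t 3 1 v))
 (.c (c 3 4097 r r)
 (.c (t 3 2 (u 2 4 (k v (k v (k v (k (t 6 1 (u 4 6 (k v (k v (k (t 12 1 (u 8 2 (k v (k v r)))) r))))) r))))))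
 (.c (c 2 4095 r (t 3 5 v))
 (.c (c 2 4095 r (t 3 3 v))
 (.c (c 3 4096 r r)
 (.c (c 2 4095 r (t 3 3 v))
 (.c (c 2 4095 r r)
 (.c (c 3 4096 r r)
 (.c (c 2 4095 r (u 3 0 (k r r)))
 (.t 120 (.c (c 2 4095 r (t 3 1 v))
 (.c (c 2 4095 r (u 3 0 (k (t 7 1 r) r)))
 (.c (c 2 4095 r (t 3 3 v))
 (.c (t 3 3 r)
 (.c (u 2 5 (k r (k r r)))
 (.c (u 2 4 (k r (k r (k r (k (t 6 1 r) r)))))
 (.c (t 3 3 (u 2 2 (k v (k v (k v (k (t 6 1 (u 4 26 (k v (k v (k v r))))) r))))))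
 (.c (u 2 5 (k r (k r r)))
 (.t 128 (.c (c 2 4095 r (t 3 1 v))
 (.c (t 3 1 (u 2 5 (k v (k v r))))
 (.c (c 2 4095 r r)
 (.t 128 (.c (c 2 4095 r (t 3 1 v))
 (.t 128 (.c (u 2 5 (k r (k r r)))
 (.c (c 2 4095 r r)
 (.c (c 2 4095 r r)
 (.c (c 2 4095 r (t 3 1 v))
 (.c (c 3 4095 r r)
 (.c (c 3 4095 r r)
 (.c (c 2 4095 r r)
 (.c (c 3 4095 r r)
 (.c (c 2 4095 r (t 3 1 v))
 (.c (c 2 4095 r r)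
 .z)))))))))))))))))))))))))))))))))))))))))))))))))))))))))))))))))

set_option maxRecDepth 100000 in
def R65 : PR :=
 (.c r
 (.c r
 (.c (c 2 4096 r (t 3 1 v))
 (.c (c 2 4096 r (t 3 1 v))
 (.c (c 3 4101 r r)
 (.c (c 3 4100 r r)
 (.c (c 3 4100 r r)
 (.c (c 3 4099 r r)
 (.c (c 2 4096 r (t 3 3 v))
 (.c (c 3 4099 r r)
 (.c (c 2 4096 r (t 3 3 v))
 (.c (c 2 4096 r (t 3 1 v))
 (.c (c 2 4096 r (t 3 1 v))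
 (.c (t 3 2 r)
 (.c (t 3 2 r)
 (.c (c 2 4096 r (t 3 1 v))
 (.c (c 3 4097 r r)
 (.c (c 3 4097 r r)
 (.c (c 2 4096 r (t 3 1 v))
 (.c (t 3 1 r)
 (.c (c 3 4096 r r)
 (.c (c 2 4096 r (t 3 1 v))
 (.c (c 3 4099 r r)
 (.c (c 3 4104 r r)
 (.c (c 3 4104 r r)
 (.c (c 3 4098 r r)
 (.c (c 3 4098 r r)
 (.c (c 2 4096 r (t 3 3 v))
 (.c (c 3 4097 r r)
 (.c (c 2 4096 r (t 3 1 v))
 (.c (c 3 4097 r r)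
 (.c (c 3 4097 r r)
 (.c (c 3 4096 r r)
 (.c (c 2 4096 r (t 3 3 v))
 (.c (c 3 4096 r r)
 (.c (c 2 4096 r (t 3 3 v))
 (.c (c 2 4096 r r)
 (.c (c 3 4096 r r)
 (.c (c 2 4096 r (u 3 0 (k r r)))
 (.c (c 3 4101 r r)
 (.c (c 2 4096 r (t 3 1 v))
 (.c (c 2 4096 r (u 3 0 (k (t 7 1 r) r)))
 (.c (c 2 4096 r (t 3 3 v))
 (.c (c 3 4100 r r)
 (.c (c 3 4100 r r)
 (.c (c 3 4100 r r)
 (.c (c 3 4105 r r)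
 (.c (t 3 1 r)
 (.c (c 3 4099 r r)
 (.c (c 3 4098 r r)
 (.c (c 3 4098 r r)
 (.c (c 3 4098 r r)
 (.c (c 3 4097 r r)
 (.c (c 2 4096 r (t 3 1 v))
 (.c (c 3 4097 r r)
 (.c (c 3 4097 r r)
 (.c (c 3 4097 r r)
 (.c (c 3 4096 r r)
 (.c (c 3 4096 r r)
 (.c (c 3 4095 r r)
 (.c (c 3 4095 r r)
 (.c (c 3 4098 r r)
 (.c (c 3 4095 r r)
 (.c (c 2 4096 r (t 3 1 v))
 (.c (c 3 4095 r r)
 (.c (c 3 4096 r r)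
 .z))))))))))))))))))))))))))))))))))))))))))))))))))))))))))))))))))

set_option maxRecDepth 100000 in
def R66 : PR :=
 (.c (u 2 0 (k (t 6 2 r) r))
 (.c (u 2 0 (k (t 6 2 r) r))
 (.t 52 (.c (t 3 1 r)
 (.c (t 3 1 (u 2 0 (k (t 6 2 (u 4 2 (k v (k (c 2 4082 r v) r)))) r)))
 (.c (c 3 4100 r (u 2 0 (k (t 6 2 r) r)))
 (.c (t 3 1 (u 2 0 (k (t 6 2 (u 4 7 (k v (k v (k (c 2 4082 r v) r))))) r)))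
 (.t 96 (.c (c 2 4099 r (t 3 3 v))
 (.c (c 3 4099 r (u 2 0 (k (t 6 2 r) r)))
 (.c (c 2 4099 r (t 3 3 v))
 (.c (c 2 4099 r (t 3 1 v))
 (.c (c 2 4099 r (t 3 1 v))
 (.t 89 (.t 101 (.c (c 2 4099 r (t 3 1 v))
 (.c (c 3 4097 r (u 2 0 (k (t 6 2 r) r)))
 (.c (c 3 4097 r (u 2 0 (k (t 6 2 r) r)))
 (.c (t 3 1 r)
 (.c (t 3 1 r)
 (.c (c 3 4096 r (u 2 0 (k (t 6 2 r) r)))
 (.c (c 3 4095 r (u 2 0 (k (t 6 2 r) r)))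
 (.c (t 2 4 (t 3 3 v))
 (.c (t 2 5 (t 3 3 v))
 (.c (t 2 5 (u 3 3 (k v (k v r))))
 (.c (c 3 4098 r (u 2 0 (k (t 6 2 r) r)))
 (.c (c 3 4098 r (u 2 0 (k (t 6 2 r) r)))
 (.c (c 2 4099 r (t 3 3 v))
 (.c (c 3 4097 r (u 2 0 (k (t 6 2 r) r)))
 (.c (c 2 4099 r (t 3 1 v))
 (.c (c 3 4097 r (u 2 0 (k (t 6 2 r) r)))
 (.c (c 3 4097 r (u 2 0 (k (t 6 2 r) r)))
 (.c (c 3 4096 r (u 2 0 (k (t 6 2 r) r)))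
 (.c (c 2 4099 r (t 3 3 v))
 (.c (c 3 4096 r (u 2 0 (k (t 6 2 r) r)))
 (.c (c 2 4099 r (t 3 3 v))
 (.c (c 2 4099 r r)
 (.c (c 3 4096 r (u 2 0 (k (t 6 2 r) r)))
 (.c (c 2 4099 r (u 3 0 (k r r)))
 (.c (u 2 0 (k (t 6 1 (u 4 0 (k (u 3 46 (k v (k v (k (u 5 0 (k (t 9 3 (t 13 1 v)) r)) (k (u 5 0 (k (t 9 3 (t 13 1 v)) r)) (k (u 5 0 (k v (k v (k (t 13 1 (u 9 0 (k (t 17 3 (t 25 1 v)) r))) r)))) (k (u 5 0 (k v (k v (k (t 13 1 (u 9 0 (k (t 17 3 (t 25 1 v)) r))) r)))) r))))))) (k (c 3 4101 r v) (k (c 6 4099 v (t 3 1 r)) r))))) r))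
 (.c (c 2 4099 r (t 3 1 v))
 (.c (c 2 4099 r (u 3 0 (k (t 7 1 r) r)))
 (.c (c 2 4099 r (t 3 3 v))
 (.c (c 3 4100 r (u 2 0 (k (t 6 2 r) r)))
 (.c (u 3 1 (k (u 2 0 (k (t 6 2 r) r)) (k (u 2 0 (k (t 6 2 r) r)) r)))
 (.c (c 3 4100 r (u 2 0 (k (t 6 2 r) r)))
 (.c (t 3 2 r)
 (.c (t 3 1 r)
 (.c (u 3 2 (k r (k (c 7 4099 r (u 5 0 (k r (k r r)))) (k r (k (u 2 0 (k (t 6 1 (u 4 9 (k (c 3 4099 (u 2 0 (k v (k v r))) v) (k (u 5 0 (k v (k v r))) (k (c 2 4087 r (c 5 4100 r v)) r))))) r)) (k (c 7 4097 r r) (k (c 5 4095 r r) r)))))))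
 (.c (c 3 4098 r (u 2 0 (k (t 6 2 r) r)))
 (.c (c 3 4098 r (u 2 0 (k (t 6 2 r) r)))
 (.c (c 3 4098 r (u 2 0 (k (t 6 2 r) r)))
 (.c (c 3 4097 r (u 2 0 (k (t 6 2 r) r)))
 (.c (c 3 4097 r (u 2 0 (k (t 6 2 r) r)))
 (.c (c 3 4097 r (u 2 0 (k (t 6 2 r) r)))
 (.c (c 3 4097 r (u 2 0 (k (t 6 2 r) r)))
 (.c (c 3 4097 r (u 2 0 (k (t 6 2 r) r)))
 (.c (c 3 4096 r (u 2 0 (k (t 6 2 r) r)))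
 (.c (c 3 4096 r (u 2 0 (k (t 6 2 r) r)))
 (.c (c 3 4095 r (u 2 0 (k (t 6 2 r) r)))
 (.c (c 3 4095 r (u 2 0 (k (t 6 2 r) r)))
 (.c (c 3 4098 r (u 2 0 (k (t 6 2 r) r)))
 (.c (c 3 4095 r (u 2 0 (k (t 6 2 r) r)))
 (.c (c 3 4095 r (u 2 0 (k (t 6 2 r) r)))
 (.c (c 3 4095 r (u 2 0 (k (t 6 2 r) r)))
 (.c (c 3 4096 r (u 2 0 (k (t 6 2 r) r)))
 (.c (u 2 0 (k (t 6 2 (u 3 0 (k (t 7 2 (u 4 16 (k r (k r (k (c 2 4082 r r) r))))) r))) r))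
 .z)))))))))))))))))))))))))))))))))))))))))))))))))))))))))))))))))))

set_option maxRecDepth 100000 in
def R67 : PR :=
 (.c (t 2 3 v)
 (.c (t 2 3 v)
 (.c (c 2 4096 r (t 3 1 v))
 (.c (c 2 4096 r (t 3 1 v))
 (.c (c 3 4101 r (t 2 3 v))
 (.c (c 3 4100 r (t 2 3 v))
 (.c (c 3 4100 r (t 2 3 v))
 (.c (c 3 4099 r (t 2 3 v))
 (.c (c 2 4096 r (t 3 3 v))
 (.c (c 3 4099 r (t 2 3 v))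
 (.c (c 2 4096 r (t 3 3 v))
 (.c (c 2 4096 r (t 3 1 v))
 (.c (c 2 4096 r (t 3 1 v))
 (.c (t 2 1 (t 3 3 v))
 (.c (t 2 1 (t 3 3 v))
 (.c (c 2 4096 r (t 3 1 v))
 (.c (c 3 4097 r (t 2 3 v))
 (.c (c 3 4097 r (t 2 3 v))
 (.c (c 2 4096 r (t 3 1 v))
 (.c (t 2 3 (t 3 1 v))
 (.c (c 3 4096 r (t 2 3 v))
 (.c (c 2 4096 r (t 3 1 v))
 (.c (c 3 4099 r (t 2 3 v))
 (.c (c 3 4104 r (t 2 3 v))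
 (.c (c 3 4104 r (t 2 3 v))
 (.c (c 3 4098 r (t 2 3 v))
 (.c (c 3 4098 r (t 2 3 v))
 (.c (c 3 4097 r (t 2 3 v))
 (.c (c 3 4097 r (t 2 3 v))
 (.c (c 2 4096 r (t 3 1 v))
 (.c (c 3 4097 r (t 2 3 v))
 (.c (c 3 4097 r (t 2 3 v))
 (.c (c 3 4096 r (t 2 3 v))
 (.c (c 2 4096 r (t 3 3 v))
 (.c (c 3 4096 r (t 2 3 v))
 (.c (c 2 4096 r (t 3 3 v))
 (.c (c 2 4096 r r)
 (.c (c 3 4096 r (t 2 3 v))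
 (.c (c 2 4096 r (u 3 0 (k r r)))
 (.c (c 3 4101 r (t 2 3 v))
 (.c (c 3 4095 r (t 2 3 v))
 (.c (c 3 4095 r (t 2 3 v))
 (.c (c 3 4095 r (t 2 3 v))
 (.c (c 3 4100 r (t 2 3 v))
 (.c (c 3 4100 r (t 2 3 v))
 (.c (c 3 4100 r (t 2 3 v))
 (.c (c 3 4105 r (t 2 3 v))
 (.c (t 2 3 (u 3 2 (k v (k v r))))
 (.c (c 3 4099 r (t 2 3 v))
 (.c (c 3 4098 r (t 2 3 v))
 (.c (c 3 4098 r (t 2 3 v))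
 (.c (c 3 4098 r (t 2 3 v))
 (.c (c 3 4097 r (t 2 3 v))
 (.c (c 2 4096 r (t 3 1 v))
 (.c (c 3 4097 r (t 2 3 v))
 (.c (c 3 4097 r (t 2 3 v))
 (.c (c 3 4097 r (t 2 3 v))
 (.c (c 3 4096 r (t 2 3 v))
 (.c (c 3 4096 r (t 2 3 v))
 (.c (c 3 4095 r (t 2 3 v))
 (.c (c 3 4095 r (t 2 3 v))
 (.c (c 3 4098 r (t 2 3 v))
 (.c (c 3 4095 r (t 2 3 v))
 (.c (c 2 4096 r (t 3 1 v))
 (.c (c 3 4095 r (t 2 3 v))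
 (.c (c 3 4096 r (t 2 3 v))
 (.c (c 3 4099 r (t 2 3 v))
 (.c (c 3 4096 r (t 2 3 v))
 .z))))))))))))))))))))))))))))))))))))))))))))))))))))))))))))))))))))

set_option maxRecDepth 100000 in
def R68 : PR :=
 (.c (u 2 0 (k (t 6 2 r) r))
 (.c (u 2 0 (k (t 6 2 r) r))
 (.c (t 3 1 (u 2 0 (k (t 6 2 r) r)))
 (.c (c 2 4098 r (t 3 1 v))
 (.c (t 3 1 (u 2 0 (k (t 6 2 r) r)))
 (.c (c 3 4100 r (u 2 0 (k (t 6 2 r) r)))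
 (.c (t 3 2 (u 2 0 (k (t 6 2 r) r)))
 (.c (c 3 4099 r (u 2 0 (k (t 6 2 r) r)))
 (.c (c 2 4098 r (t 3 3 v))
 (.c (c 3 4099 r (u 2 0 (k (t 6 2 r) r)))
 (.c (c 2 4098 r (t 3 3 v))
 (.c (c 2 4098 r (t 3 1 v))
 (.c (c 2 4098 r (t 3 1 v))
 (.c (t 3 2 (u 2 0 (k (t 6 2 r) r)))
 (.c (t 3 2 (u 2 0 (k (t 6 2 r) r)))
 (.c (c 2 4098 r (t 3 1 v))
 (.c (c 3 4097 r (u 2 0 (k (t 6 2 r) r)))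
 (.c (c 3 4097 r (u 2 0 (k (t 6 2 r) r)))
 (.c (t 2 1 (t 3 1 v))
 (.c (t 2 1 (t 3 1 v))
 (.c (c 3 4096 r (u 2 0 (k (t 6 2 r) r)))
 (.c (c 3 4095 r (u 2 0 (k (t 6 2 r) r)))
 (.c (c 3 4099 r (u 2 0 (k (t 6 2 r) r)))
 (.c (t 2 2 (t 3 3 v))
 (.c (t 2 2 (u 3 3 (k v (k v r))))
 (.c (c 3 4098 r (u 2 0 (k (t 6 2 r) r)))
 (.c (c 3 4098 r (u 2 0 (k (t 6 2 r) r)))
 (.c (c 3 4097 r (u 2 0 (k (t 6 2 r) r)))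
 (.c (c 3 4097 r (u 2 0 (k (t 6 2 r) r)))
 (.c (c 2 4098 r (t 3 1 v))
 (.c (c 3 4097 r (u 2 0 (k (t 6 2 r) r)))
 (.c (c 3 4097 r (u 2 0 (k (t 6 2 r) r)))
 (.c (c 3 4096 r (u 2 0 (k (t 6 2 r) r)))
 (.c (c 2 4098 r (t 3 3 v))
 (.c (c 3 4096 r (u 2 0 (k (t 6 2 r) r)))
 (.c (c 2 4098 r (t 3 3 v))
 (.c (c 2 4098 r r)
 (.c (c 3 4096 r (u 2 0 (k (t 6 2 r) r)))
 (.c (c 2 4098 r (u 3 0 (k r r)))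
 (.c (u 2 0 (k (t 6 2 r) r))
 (.c (c 3 4095 r (u 2 0 (k (t 6 2 r) r)))
 (.c (c 3 4095 r (u 2 0 (k (t 6 2 r) r)))
 (.c (c 3 4095 r (u 2 0 (k (t 6 2 r) r)))
 (.c (c 3 4100 r (u 2 0 (k (t 6 2 r) r)))
 (.c (u 2 0 (k (t 6 2 r) r))
 (.c (c 3 4100 r (u 2 0 (k (t 6 2 r) r)))
 (.c (t 2 1 (t 3 2 v))
 (.c (t 2 1 (t 3 1 v))
 (.c (c 3 4099 r (u 2 0 (k (t 6 2 r) r)))
 (.c (c 3 4098 r (u 2 0 (k (t 6 2 r) r)))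
 (.c (c 3 4098 r (u 2 0 (k (t 6 2 r) r)))
 (.c (c 3 4098 r (u 2 0 (k (t 6 2 r) r)))
 (.c (c 3 4097 r (u 2 0 (k (t 6 2 r) r)))
 (.c (c 3 4097 r (u 2 0 (k (t 6 2 r) r)))
 (.c (c 3 4097 r (u 2 0 (k (t 6 2 r) r)))
 (.c (c 3 4097 r (u 2 0 (k (t 6 2 r) r)))
 (.c (c 3 4097 r (u 2 0 (k (t 6 2 r) r)))
 (.c (c 3 4096 r (u 2 0 (k (t 6 2 r) r)))
 (.c (c 3 4096 r (u 2 0 (k (t 6 2 r) r)))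
 (.c (c 3 4095 r (u 2 0 (k (t 6 2 r) r)))
 (.c (c 3 4095 r (u 2 0 (k (t 6 2 r) r)))
 (.c (c 3 4098 r (u 2 0 (k (t 6 2 r) r)))
 (.c (c 3 4095 r (u 2 0 (k (t 6 2 r) r)))
 (.c (c 3 4095 r (u 2 0 (k (t 6 2 r) r)))
 (.c (c 3 4095 r (u 2 0 (k (t 6 2 r) r)))
 (.c (c 3 4096 r (u 2 0 (k (t 6 2 r) r)))
 (.c (c 3 4099 r (u 2 0 (k (t 6 2 r) r)))
 (.c (c 2 4098 r (t 3 3 v))
 (.c (c 3 4098 r (u 2 0 (k (t 6 2 r) r)))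
 .z)))))))))))))))))))))))))))))))))))))))))))))))))))))))))))))))))))))

set_option maxRecDepth 100000 in
def R69 : PR :=
 (.t 71 (.t 73 (.t 78 (.c (t 3 1 r)
 (.t 97 (.c (t 3 3 (u 2 0 (k v (k v r))))
 (.c (t 3 1 (u 2 0 (k v (k v r))))
 (.c (t 3 1 r)
 (.c (c 2 4103 r (t 3 3 v))
 (.c (t 3 3 (u 2 0 (k v (k v r))))
 (.c (c 2 4103 r (t 3 3 v))
 (.c (c 2 4103 r (t 3 1 v))
 (.c (c 2 4103 r (t 3 1 v))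
 (.t 105 (.t 106 (.c (c 2 4103 r (t 3 1 v))
 (.c (u 3 0 (k r (k r r)))
 (.t 110 (.c (t 3 1 r)
 (.c (t 3 1 r)
 (.t 106 (.c (t 3 1 (u 2 0 (k v (k v r))))
 (.c (t 2 2 (t 3 3 v))
 (.c (t 3 3 (u 2 0 (k v (k v r))))
 (.c (u 2 0 (k (u 3 3 (k v (k v r))) (k (u 3 3 (k v (k v r))) r)))
 (.c (t 3 3 (u 2 0 (k v (k v r))))
 (.c (u 2 0 (k (u 3 0 (k (t 5 3 (t 7 1 v)) r)) (k (u 3 0 (k (t 5 3 (t 7 1 v)) r)) r)))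
 (.c (c 2 4103 r (t 3 3 v))
 (.t 129 (.c (c 2 4103 r (t 3 1 v))
 (.c (u 2 0 (k (u 3 0 (k (u 5 1 (k v (k v r))) r)) (k (u 3 0 (k (u 5 1 (k v (k v r))) r)) r)))
 (.c (u 2 0 (k r (k r r)))
 (.c (t 3 2 r)
 (.c (c 2 4103 r (t 3 3 v))
 (.c (u 3 0 (k (t 5 3 (t 7 1 r)) r))
 (.c (c 2 4103 r (t 3 3 v))
 (.c (c 2 4103 r r)
 (.c (u 3 2 (k r (k r (k (u 2 0 (k v (k v r))) (k (t 7 1 (u 5 0 (k (t 9 3 (t 13 1 r)) r))) r)))))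
 (.c (t 3 1 r)
 (.t 133 (.c (t 3 1 (u 2 71 (k v (k v (k (c 6 4101 r (u 4 1 (k v (k v r)))) (k (c 4 4101 r (u 6 1 (k v (k v r)))) (k (c 4 4101 r (u 6 1 (k v (k v r)))) r)))))))
 (.c (u 3 0 (k (t 7 1 (u 5 8 (k r (k r r)))) r))
 (.c (t 3 2 r)
 (.c (t 3 6 r)
 (.c (u 2 0 (k r (k r r)))
 (.t 135 (.c (t 3 2 r)
 (.c (t 3 1 r)
 (.t 133 (.c (t 3 1 (u 2 0 (k v (k v r))))
 (.c (t 3 1 (u 2 0 (k v (k v r))))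
 (.c (t 3 1 r)
 (.t 133 (.c (t 3 2 r)
 (.c (u 3 99 (k r (k r (k r r))))
 (.c (t 3 1 r)
 (.c (t 3 3 (u 2 0 (k v (k v r))))
 (.c (u 3 5 (k r (k r r)))
 (.t 133 (.c (u 2 0 (k r (k r r)))
 (.c (u 2 0 (k r (k (t 3 1 v) r)))
 (.c (u 3 0 (k (t 7 1 (u 5 19 (k (u 2 0 (k v (k v r))) (k r (k (c 3 4083 (u 4 1 (k v (k v r))) (t 2 2 v)) r))))) r))
 (.c (t 3 1 (u 2 28 (k v (k v (k (t 6 2 (u 4 2 (k v (k v r)))) (k (t 4 1 (u 6 2 (k v (k v r)))) (k (t 6 2 r) (k (t 6 1 r) (k (t 6 2 r) (k (t 6 1 r) r))))))))))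
 (.c (t 3 1 r)
 (.c (u 3 5 (k r (k r r)))
 (.c (c 2 4103 r r)
 (.c (t 3 5 r)
 (.c (c 2 4103 r (t 3 3 v))
 (.c (u 3 0 (k (t 7 2 (u 5 8 (k r (k r r)))) r))
 (.c (u 2 0 (k r (k r r)))
 .z))))))))))))))))))))))))))))))))))))))))))))))))))))))))))))))))))))))

set_option maxRecDepth 100000 in
def R70 : PR :=
 (.c r
 (.c r
 (.c (t 3 1 (u 2 0 (k (t 6 3 r) r)))
 (.c (c 2 4099 r (t 3 1 v))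
 (.c (t 2 2 (t 3 1 v))
 (.c (t 2 2 (t 3 3 v))
 (.c (t 2 2 (t 3 2 v))
 (.c (t 3 1 (u 2 0 (k (t 6 3 r) r)))
 (.c (c 2 4099 r (t 3 3 v))
 (.c (c 3 4099 r r)
 (.c (c 2 4099 r (t 3 3 v))
 (.c (c 2 4099 r (t 3 1 v))
 (.c (c 2 4099 r (t 3 1 v))
 (.c (t 3 2 (u 2 0 (k (t 6 3 r) r)))
 (.c (t 3 2 (u 2 0 (k (t 6 3 r) r)))
 (.c (c 2 4099 r (t 3 1 v))
 (.c (c 3 4097 r r)
 (.c (c 3 4097 r r)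
 (.c (c 2 4099 r (t 3 1 v))
 (.c (t 2 1 (t 3 1 v))
 (.c (c 3 4096 r r)
 (.c (c 3 4095 r r)
 (.c (t 2 2 (t 3 3 v))
 (.c (t 2 2 (t 3 3 v))
 (.c (t 2 2 (u 3 3 (k v (k v r))))
 (.c (t 3 2 (u 2 0 (k (t 6 3 r) r)))
 (.c (t 3 2 (u 2 0 (k (t 6 3 r) r)))
 (.c (c 2 4099 r (t 3 3 v))
 (.c (c 3 4097 r r)
 (.c (c 2 4099 r (t 3 1 v))
 (.c (c 3 4097 r r)
 (.c (c 3 4097 r r)
 (.c (c 2 4099 r (t 3 5 v))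
 (.c (c 2 4099 r (t 3 3 v))
 (.c (c 3 4096 r r)
 (.c (c 2 4099 r (t 3 3 v))
 (.c (c 2 4099 r r)
 (.c (c 3 4096 r r)
 (.c (c 2 4099 r (u 3 0 (k r r)))
 (.c (t 3 1 (u 2 0 (k (t 6 3 r) r)))
 (.c (c 2 4099 r (t 3 1 v))
 (.c (c 2 4099 r (u 3 0 (k (t 7 1 r) r)))
 (.c (c 2 4099 r (t 3 3 v))
 (.c (t 3 6 (u 2 0 (k (t 6 3 r) r)))
 (.c (t 2 3 r)
 (.c (t 2 2 r)
 (.c (t 2 1 (t 3 2 v))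
 (.c (t 3 1 (u 2 0 (k (t 6 3 r) r)))
 (.c (t 2 2 r)
 (.c (c 3 4098 r r)
 (.c (t 3 1 (u 2 0 (k (t 6 3 r) r)))
 (.c (c 2 4099 r r)
 (.c (c 3 4097 r r)
 (.c (c 3 4097 r r)
 (.c (c 3 4097 r r)
 (.c (c 3 4097 r r)
 (.c (c 2 4099 r r)
 (.c (c 3 4096 r r)
 (.c (c 3 4096 r r)
 (.c (c 3 4095 r r)
 (.c (c 3 4095 r r)
 (.c (t 2 2 (t 3 3 v))
 (.c (c 3 4095 r r)
 (.c (c 3 4095 r r)
 (.c (c 3 4095 r r)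
 (.c (c 2 4099 r r)
 (.c (c 2 4099 r (u 3 0 (k (t 7 2 r) r)))
 (.c (c 2 4099 r (t 3 3 v))
 (.c (c 2 4099 r (u 3 0 (k (t 7 2 r) r)))
 (.c (t 2 3 r)
 (.c (c 3 4099 r r)
 .z)))))))))))))))))))))))))))))))))))))))))))))))))))))))))))))))))))))))

set_option maxRecDepth 100000 in
def R71 : PR :=
 (.t 77 (.c r
 (.c (t 3 1 r)
 (.c (t 2 1 (t 3 1 v))
 (.c (t 2 2 (t 3 1 v))
 (.c (t 2 2 (t 3 3 v))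
 (.c (t 2 2 (t 3 2 v))
 (.c (t 3 1 (u 2 2 (k v (k (t 6 3 r) (k (t 6 2 r) (k (t 6 2 r) r))))))
 (.c (c 2 4099 r (t 3 3 v))
 (.c (t 2 2 (t 3 3 v))
 (.c (c 2 4099 r (t 3 3 v))
 (.c (c 2 4099 r (t 3 1 v))
 (.c (c 2 4099 r (t 3 1 v))
 (.c (t 3 2 r)
 (.c (t 3 2 r)
 (.c (c 2 4099 r (t 3 1 v))
 (.c (u 3 3 (k r (k r (k (u 2 10 (k v (k (t 6 3 (u 4 23 (k v (k v (k (u 8 0 (k (t 16 3 (t 24 1 v)) r)) (k (u 8 0 (k v (k v (k (t 24 1 (u 16 0 (k (t 32 3 (t 48 1 v)) r))) r)))) (k (u 8 8 (k v (k v r))) r))))))) (k (t 6 2 r) (k (t 6 2 r) r))))) r))))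
 (.c (c 3 4097 r r)
 (.c (t 2 1 (t 3 1 v))
 (.c (t 3 1 r)
 (.c (t 2 2 (u 3 0 (k (u 5 0 (k v (k v r))) r)))
 (.c (c 3 4095 r r)
 (.c (t 2 2 (t 3 3 v))
 (.c (t 2 2 (t 3 3 v))
 (.c (t 2 2 (u 3 3 (k v (k v r))))
 (.c (t 3 2 r)
 (.c (t 3 2 r)
 (.c (c 2 4099 r (t 3 3 v))
 (.c (t 2 2 r)
 (.c (c 2 4099 r (t 3 1 v))
 (.c (c 3 4097 r r)
 (.c (t 2 2 (t 3 2 v))
 (.c (c 2 4099 r (t 3 5 v))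
 (.c (c 2 4099 r (t 3 3 v))
 (.c (u 3 0 (k (t 5 3 (t 7 1 (u 2 12 (k v (k v (k (t 6 2 (u 4 1 (k v (k v r)))) (k (c 3 4096 v (t 6 2 r)) r))))))) r))
 (.c (c 2 4099 r (t 3 3 v))
 (.c (c 2 4099 r r)
 (.c (u 3 0 (k r (k r (k (t 7 1 (u 2 10 (k (u 5 0 (k (t 9 3 (t 13 1 v)) r)) (k r (k (t 6 2 r) (k (c 3 4096 (c 2 4098 r v) (t 6 2 r)) r)))))) r))))
 (.c (c 2 4099 r (u 3 0 (k r r)))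
 (.c (t 3 1 r)
 (.c (c 2 4099 r (t 3 1 v))
 (.c (c 2 4099 r (u 3 0 (k (t 7 1 r) r)))
 (.c (c 2 4099 r (t 3 3 v))
 (.c (t 3 6 r)
 (.c (u 3 0 (k r (k r r)))
 (.c (t 2 2 r)
 (.c (t 3 2 r)
 (.c (t 3 1 r)
 (.c (t 3 1 r)
 (.c (t 3 1 r)
 (.c (t 3 1 r)
 (.c (c 2 4099 r r)
 (.c (t 2 2 r)
 (.c (c 3 4097 r r)
 (.c (u 2 13 (k r (k r (k (t 6 2 r) (k (t 6 2 r) r)))))
 (.c (t 3 1 r)
 (.c (c 2 4099 r r)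
 (.c (u 3 5 (k (u 2 13 (k v (k v (k (t 6 3 (u 4 1 (k v (k v r)))) (k (c 3 4090 v (t 6 2 r)) r))))) (k r r)))
 (.c (t 2 2 r)
 (.c (c 3 4095 r r)
 (.c (c 3 4095 r r)
 (.c (t 3 2 r)
 (.c (c 3 4095 r r)
 (.c (c 3 4095 r r)
 (.c (c 3 4095 r r)
 (.c (c 2 4099 r r)
 (.c (t 3 4 r)
 (.c (c 2 4099 r (t 3 3 v))
 (.c (c 2 4099 r (u 3 0 (k (t 7 2 r) r)))
 (.c (t 2 3 r)
 (.c (t 3 3 r)
 (.c (t 2 3 r)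
 .z))))))))))))))))))))))))))))))))))))))))))))))))))))))))))))))))))))))))

set_option maxRecDepth 100000 in
def R72 : PR :=
 (.t 74 (.t 43 (.t 82 (.c (t 2 2 (t 3 1 v))
 (.c (t 2 2 (t 3 1 v))
 (.c (t 2 2 (t 3 3 v))
 (.c (t 2 2 (t 3 1 v))
 (.t 67 (.c (c 2 4102 r (t 3 3 v))
 (.c (t 2 2 (t 3 3 v))
 (.c (c 2 4102 r (t 3 3 v))
 (.c (c 2 4102 r (t 3 1 v))
 (.c (c 2 4102 r (t 3 1 v))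
 (.t 83 (.t 69 (.c (c 2 4102 r (t 3 1 v))
 (.c (t 2 7 (u 3 0 (k v (k v r))))
 (.t 107 (.c (t 3 1 (t 2 2 v))
 (.c (t 2 2 (t 3 1 v))
 (.c (t 2 2 (u 3 0 (k (u 5 0 (k v (k v r))) r)))
 (.c (t 3 1 (t 2 2 v))
 (.c (t 2 8 (t 3 3 v))
 (.c (t 3 1 (t 2 2 v))
 (.c (t 2 2 (u 3 3 (k v (k v r))))
 (.c (t 3 2 (t 2 2 v))
 (.c (t 2 2 (u 3 0 (k (t 5 3 (t 7 1 v)) r)))
 (.c (c 2 4102 r (t 3 3 v))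
 (.c (t 2 2 (u 3 2 (k v (k (c 2 4091 v (u 5 1 (k v (k v r)))) r))))
 (.c (c 2 4102 r (t 3 1 v))
 (.c (t 2 2 (u 3 0 (k (u 5 1 (k v (k v r))) r)))
 (.c (t 3 2 (t 2 2 v))
 (.c (c 2 4102 r (t 3 5 v))
 (.c (c 2 4102 r (t 3 3 v))
 (.c (t 2 7 (u 3 0 (k (t 5 3 (t 7 1 v)) r)))
 (.c (c 2 4102 r (t 3 3 v))
 (.c (c 2 4102 r r)
 (.c (t 2 7 (u 3 2 (k v (k v (k v (k (t 7 1 (u 5 0 (k (t 9 3 (t 13 1 v)) r))) r))))))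
 (.c (c 2 4102 r (u 3 0 (k r r)))
 (.t 102 (.c (c 2 4102 r (t 3 1 v))
 (.c (c 2 4102 r (u 3 0 (k (t 7 1 r) r)))
 (.c (c 2 4102 r (t 3 3 v))
 (.c (t 3 6 (t 2 7 v))
 (.c (t 2 7 (u 3 1 (k v (k v r))))
 (.c (t 2 3 r)
 (.c (t 2 2 (t 3 2 v))
 (.c (t 2 2 (t 3 1 v))
 (.t 136 (.c (t 3 1 (t 2 2 v))
 (.c (t 3 1 (t 2 2 v))
 (.c (t 3 1 (t 2 7 v))
 (.c (t 2 2 r)
 (.c (t 3 3 (t 2 7 v))
 (.c (t 2 7 r)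
 (.c (t 3 1 (t 2 2 v))
 (.c (c 2 4102 r r)
 (.c (t 2 8 r)
 (.c (t 2 2 r)
 (.c (t 2 2 r)
 (.c (t 2 2 r)
 (.c (t 3 3 (t 2 2 v))
 (.c (t 3 2 (t 2 2 v))
 (.c (t 3 1 (t 2 2 v))
 (.c (t 2 7 (u 3 5 (k v (k v r))))
 (.c (c 2 4102 r r)
 (.c (t 2 2 r)
 (.c (c 2 4102 r (t 3 3 v))
 (.c (t 2 2 (u 3 0 (k (t 7 2 r) r)))
 (.c (t 2 4 r)
 (.c (t 3 2 (t 2 2 v))
 (.c (t 2 8 r)
 (.c (t 2 9 (t 3 7 v))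
 .z)))))))))))))))))))))))))))))))))))))))))))))))))))))))))))))))))))))))))

set_option maxRecDepth 100000 in
def R73 : PR :=
 (.t 67 (.t 79 (.t 83 (.c (t 3 1 r)
 (.c (t 3 1 (u 2 7 (k v (k v (k v (k (c 6 4099 r (u 4 1 (k v (k v r)))) r))))))
 (.c (t 3 3 r)
 (.c (t 3 1 (u 2 7 (k v (k v (k v (k (c 6 4099 r (u 4 1 (k v (k v r)))) r))))))
 (.t 107 (.c (c 2 4102 r (t 3 3 v))
 (.c (t 3 3 r)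
 (.c (c 2 4102 r (t 3 3 v))
 (.c (c 2 4102 r (t 3 1 v))
 (.c (c 2 4102 r (t 3 1 v))
 (.t 69 (.t 111 (.c (c 2 4102 r (t 3 1 v))
 (.c (u 3 0 (k r (k r r)))
 (.t 100 (.c (t 3 1 r)
 (.c (t 3 1 r)
 (.t 111 (.c (t 3 1 r)
 (.c (t 2 1 (t 3 3 v))
 (.c (t 3 3 (u 2 7 (k v (k v (k v (k (c 6 4099 r (u 4 1 (k v (k v r)))) r))))))
 (.c (u 2 7 (k (u 3 3 (k v (k v r))) (k (u 3 3 (k v (k v r))) (k (u 3 3 (k v (k v r))) (k (c 6 4099 r (u 4 1 (k (u 3 3 (k v (k v r))) (k (u 3 3 (k v (k v r))) r)))) r)))))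
 (.c (t 3 3 r)
 (.c (u 3 0 (k (t 5 3 (t 7 1 r)) r))
 (.c (c 2 4102 r (t 3 3 v))
 (.t 131 (.c (c 2 4102 r (t 3 1 v))
 (.c (u 2 11 (k (u 3 0 (k (u 5 1 (k v (k v r))) r)) (k (u 3 0 (k (u 5 1 (k v (k v r))) r)) (k (u 3 0 (k (u 5 1 (k v (k v r))) r)) (k (c 6 4099 r (u 4 31 (k (u 3 0 (k (u 5 1 (k v (k v r))) r)) (k (u 3 0 (k (u 5 3 (k v (k v r))) r)) (k (u 3 0 (k (u 5 3 (k v (k v r))) r)) r))))) r)))))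
 (.c (u 2 11 (k r (k r (k r (k (c 6 4099 r (u 4 31 (k r (k r (k r r))))) r)))))
 (.c (t 3 5 (u 2 21 (k v (k r (k (u 4 71 (k v (k v (k (c 12 4101 r r) (k (c 8 4101 r r) (k (c 8 4101 r r) r)))))) (k (c 6 4100 r (u 4 10 (k v (k (c 12 4099 r (u 8 0 (k v (k v r)))) (k (u 8 1 (k v (k v r))) r))))) (k (t 6 1 (c 9 4101 v r)) (k (c 6 4100 r r) r))))))))
 (.c (c 2 4102 r (t 3 3 v))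
 (.t 134 (.c (c 2 4102 r (t 3 3 v))
 (.c (c 2 4102 r r)
 (.t 120 (.c (u 3 0 (k (u 2 30 (k r (k (c 2 4094 v r) (k r (k r r))))) r))
 (.t 136 (.c (c 2 4102 r (t 3 1 v))
 (.c (c 2 4102 r (u 3 0 (k (t 7 1 r) r)))
 (.c (c 2 4102 r (t 3 3 v))
 (.c (t 3 6 r)
 (.c (u 3 1 (k r (k r r)))
 (.c (u 2 6 (k r (k r (k (u 4 0 (k r (k (t 12 1 r) (k (t 8 2 r) (k (t 8 1 r) r))))) (k (t 4 1 r) (k (t 4 1 r) (k (t 4 1 r) r)))))))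
 (.c (t 3 2 r)
 (.c (t 3 1 r)
 (.t 136 (.c (t 3 1 r)
 (.c (t 3 1 r)
 (.c (t 3 1 r)
 (.t 145 (.c (t 3 3 (u 2 6 (k r (k r (k (c 2 4097 r v) (k (c 3 4094 v (t 4 1 r)) (k (c 3 4094 v (t 4 1 r)) (k (c 3 4094 v (t 4 1 r)) r))))))))
 (.c (u 2 6 (k r (k r (k (u 4 0 (k r (k (t 12 1 r) (k (t 8 2 r) (k (t 8 1 r) r))))) (k r (k (t 6 1 (u 3 159 (k r (k r (k (t 4 1 v) r))))) (k r r)))))))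
 (.c (t 3 1 r)
 (.c (t 3 3 r)
 (.c (u 3 4 (k (t 7 1 (u 2 16 (k r (k r (k r (k (t 5 1 (t 6 1 r)) (k (t 5 1 (t 6 1 r)) (k (t 5 1 (t 6 1 r)) r)))))))) (k (t 7 2 r) r)))
 (.t 148 (.c (u 2 7 (k r (k r (k r (k (c 6 4099 r (u 4 1 (k r (k r r)))) r)))))
 (.c (t 3 1 r)
 (.c (t 3 3 r)
 (.c (t 3 2 r)
 (.c (t 3 1 r)
 (.c (u 3 5 (k r (k r r)))
 (.c (c 2 4102 r r)
 (.c (u 3 0 (k (t 7 2 (u 2 9 (k r (k r (k (t 6 2 (u 4 77 (k r (k (c 6 4094 v r) (k r (k (c 2 4089 v r) (k (t 8 3 (t 12 1 (u 5 0 (k v (k v (k (c 3 4082 r v) r)))))) (k r (k (c 2 4092 (t 6 2 (c 3 4094 v r)) r) (k (t 12 3 (u 8 0 (k r (k r r)))) r)))))))))) (k (c 2 4097 r r) r)))))) r))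
 (.c (c 2 4102 r (t 3 3 v))
 (.c (u 3 0 (k (t 7 2 r) r))
 (.c (u 2 9 (k r (k r (k (t 6 2 (u 4 96 (k r (k r (k (c 6 4094 v (u 3 0 (k v (k v r)))) r))))) (k (u 4 1 (k r (k (t 12 1 r) (k (t 8 2 r) (k (t 8 1 r) r))))) r)))))
 (.c (t 3 2 r)
 (.c (u 3 11 (k r (k (t 7 3 (u 5 1 (k (c 11 4099 v r) (k (u 2 20 (k v (k v (k v (k v r))))) r)))) r)))
 (.c (t 3 7 (u 2 9 (k v (k v (k (t 6 1 (c 21 4101 v r)) (k (c 17 4099 v (c 7 4099 v (c 21 4101 v r))) r))))))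
 (.c (u 2 6 (k r (k r (k (u 3 7 (k r (k r (k r (k (c 7 4099 r (u 5 1 (k r (k r r)))) r))))) (k (t 4 1 r) (k (t 4 1 r) (k (t 4 1 r) r)))))))
 .z))))))))))))))))))))))))))))))))))))))))))))))))))))))))))))))))))))))))))

set_option maxRecDepth 100000 in
def R74 : PR :=
 (.t 80 (.t 50 (.t 78 (.c (c 2 4099 r (t 3 1 v))
 (.c (t 2 1 (t 3 1 v))
 (.c (t 2 1 (t 3 3 v))
 (.c (t 2 1 (t 3 1 v))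
 (.t 108 (.c (c 2 4099 r (t 3 3 v))
 (.c (t 2 1 (t 3 3 v))
 (.c (c 2 4099 r (t 3 3 v))
 (.c (c 2 4099 r (t 3 1 v))
 (.c (c 2 4099 r (t 3 1 v))
 (.c (t 3 3 (u 2 0 (k (t 6 1 r) r)))
 (.t 78 (.c (c 2 4099 r (t 3 1 v))
 (.c (u 2 0 (k r r))
 (.c (u 3 0 (k (u 2 0 (k (t 6 2 r) r)) (k (t 2 1 (u 5 0 (k (u 9 0 (k v (k v r))) r))) r)))
 (.c (c 2 4099 r (t 3 1 v))
 (.c (t 2 1 (t 3 3 v))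
 (.c (u 3 0 (k (u 2 0 (k (t 6 1 r) r)) r))
 (.c (t 2 1 (t 3 1 v))
 (.c (t 2 4 (t 3 3 v))
 (.c (t 2 1 (t 3 3 v))
 (.c (t 2 1 (u 3 3 (k v (k v r))))
 (.c (t 2 1 (t 3 3 v))
 (.c (t 2 1 (u 3 0 (k (t 5 3 (t 7 1 v)) r)))
 (.c (c 2 4099 r (t 3 3 v))
 (.c (t 2 1 r)
 (.c (c 2 4099 r (t 3 1 v))
 (.c (t 2 1 (u 3 0 (k (u 5 1 (k v (k v r))) r)))
 (.c (t 2 1 r)
 (.c (c 2 4099 r (t 3 5 v))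
 (.c (c 2 4099 r (t 3 3 v))
 (.c (t 2 1 (u 3 0 (k (t 5 3 (t 7 1 v)) r)))
 (.c (c 2 4099 r (t 3 3 v))
 (.c (c 2 4099 r r)
 (.t 124 (.c (c 2 4099 r (u 3 0 (k r r)))
 (.t 137 (.c (c 2 4099 r (t 3 1 v))
 (.c (c 2 4099 r (u 3 0 (k (t 7 1 r) r)))
 (.c (c 2 4099 r (t 3 3 v))
 (.c (t 2 1 (t 3 3 v))
 (.c (t 2 1 r)
 (.c (u 3 0 (k (u 2 0 (k (t 6 2 r) r)) (k (u 2 0 (k r r)) (k (c 7 4099 r r) (k (t 2 1 r) (k (t 2 1 r) (k (t 2 1 (u 5 0 (k (u 9 0 (k v (k v r))) r))) (k (u 5 56 (k (u 2 0 (k (t 6 1 r) r)) (k (u 2 0 (k (t 6 2 r) r)) (k (c 13 4099 r r) (k (c 9 4095 r r) (k (c 9 4095 r r) r)))))) (k (u 5 2 (k (u 2 0 (k (t 6 1 r) r)) (k (c 13 4099 r r) (k (c 9 4095 r r) r)))) r)))))))))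
 (.c (t 2 1 (u 3 0 (k (t 5 3 (t 7 3 v)) r)))
 (.c (t 2 1 r)
 (.c (u 3 2 (k (u 2 0 (k (t 6 1 r) r)) (k (c 7 4099 r r) (k r (k (u 2 0 (k (t 6 1 (u 4 26 (k (u 5 1 (k v (k v r))) (k (c 10 4101 v r) (k r (k (c 6 4099 v (u 5 1 (k r (k r r)))) (k (c 2 4088 r (c 5 4100 r v)) (k (u 8 0 (k r r)) (k (u 8 1 (k (u 5 1 (k v (k v r))) (k (c 24 4099 r r) (k (c 16 4097 r r) (k (c 16 4095 r r) (k (c 16 4095 r r) r)))))) (k r r)))))))))) r)) (k (c 7 4097 r r) (k (c 5 4095 r r) r)))))))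
 (.c (t 3 1 (t 2 1 v))
 (.c (t 2 1 (t 3 1 v))
 (.c (c 2 4099 r r)
 (.c (u 3 1 (k (u 2 0 (k (t 6 1 r) r)) (k (c 7 4097 r r) r)))
 (.c (u 3 0 (k (t 7 1 (u 5 0 (k (t 9 3 (t 13 3 (u 2 0 (k (t 6 1 (u 4 10 (k v (k v (k (u 8 13 (k v (k v r))) (k (c 2 4097 r v) (k (c 2 4088 r v) (k (c 2 4100 (u 4 0 (k (u 8 0 (k v (k v r))) r)) v) (k (u 8 7 (k v (k v (k (c 24 4099 r (u 16 1 (k v (k v r)))) r)))) (k (u 8 4 (k v (k (c 24 4099 r (u 16 1 (k v (k v r)))) r))) r)))))))))) r)))) r))) r))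
 (.c (u 2 0 (k (t 6 1 (u 4 10 (k (c 10 4101 v r) (k (c 10 4101 v r) (k r (k r (k (c 2 4088 r r) (k (u 8 0 (k (u 16 0 (k r (k r r))) r)) (k (u 8 7 (k (c 10 4101 v r) (k r (k (c 24 4099 r (u 16 1 (k r (k r r)))) r)))) (k (u 8 4 (k (c 10 4101 v r) (k (c 24 4099 r (u 16 1 (k r (k r r)))) r))) r)))))))))) r))
 (.c (t 2 1 r)
 (.c (c 2 4099 r r)
 (.c (t 2 4 r)
 (.c (u 3 1 (k r (k (u 2 0 (k (c 6 4099 r (u 4 3 (k r (k r (k r (k r (k r (k (u 8 0 (k (u 16 0 (k r (k r r))) r)) (k r (k r r)))))))))) r)) (k (c 5 4096 r r) (k (c 7 4096 r (u 2 0 (k (t 6 1 r) r))) r)))))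
 (.c (t 2 1 r)
 (.c (t 2 1 r)
 (.c (t 2 1 (t 3 3 v))
 (.c (t 2 1 (t 3 2 v))
 (.c (t 2 1 (u 3 0 (k (t 7 1 r) r)))
 (.c (u 2 0 (k (t 6 1 (u 4 10 (k r (k (c 10 4101 v r) (k r (k (c 2 4097 r r) (k (c 2 4088 r r) (k (c 2 4100 (u 4 0 (k (u 8 0 (k v (k v r))) r)) r) (k r (k r r)))))))))) r))
 (.c (c 2 4099 r r)
 (.c (c 2 4099 r (u 3 0 (k (t 7 2 r) r)))
 (.c (c 2 4099 r (t 3 3 v))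
 (.c (c 2 4099 r (u 3 0 (k (t 7 2 r) r)))
 (.c (t 2 1 r)
 (.c (t 2 1 (u 3 0 (k (t 7 3 r) r)))
 (.c (t 2 4 r)
 (.c (t 2 1 (t 3 7 v))
 (.c (t 2 1 r)
 (.c (u 2 0 (k (c 6 4099 r (u 3 0 (k (t 7 1 (u 4 3 (k r (k r (k r (k r (k r (k (u 8 0 (k (u 16 0 (k r (k r r))) r)) (k r (k r r)))))))))) r))) r))
 .z)))))))))))))))))))))))))))))))))))))))))))))))))))))))))))))))))))))))))))

set_option maxRecDepth 100000 in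
def R75 : PR :=
 (.t 75 (.t 43 (.t 83 (.c (t 3 1 (u 2 0 (k (u 4 0 (k v (k v r))) r)))
 (.c (t 3 1 (u 2 0 (k (u 4 0 (k v (k v r))) r)))
 (.c (t 3 3 (u 2 0 (k (u 4 0 (k v (k v r))) r)))
 (.c (t 3 1 (u 2 0 (k (u 4 0 (k v (k v r))) r)))
 (.t 67 (.c (c 2 4102 r (t 3 3 v))
 (.c (t 3 3 (u 2 0 (k (u 4 0 (k v (k v r))) r)))
 (.c (c 2 4102 r (t 3 3 v))
 (.c (c 2 4102 r (t 3 1 v))
 (.c (c 2 4102 r (t 3 1 v))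
 (.t 111 (.t 106 (.c (c 2 4102 r (t 3 1 v))
 (.c (u 2 0 (k (u 3 0 (k r (k r r))) r))
 (.t 113 (.c (t 3 1 (u 2 0 (k (u 4 0 (k v (k v r))) r)))
 (.c (t 3 1 (u 2 0 (k (u 4 0 (k v (k v r))) r)))
 (.c (u 2 0 (k r r))
 (.c (t 3 1 (u 2 0 (k (u 4 0 (k v (k v r))) r)))
 (.c (t 2 2 (t 3 3 v))
 (.c (t 3 1 (u 2 0 (k (u 4 0 (k v (k v r))) r)))
 (.c (u 2 0 (k (u 4 0 (k (u 3 3 (k v (k v r))) (k (u 3 3 (k v (k v r))) r))) r))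
 (.c (t 3 2 (u 2 0 (k (u 4 0 (k v (k v r))) r)))
 (.c (u 2 0 (k (u 4 0 (k (u 3 0 (k (t 5 3 (t 7 1 v)) r)) (k (t 3 2 v) r))) r))
 (.c (c 2 4102 r (t 3 3 v))
 (.c (u 3 18 (k (u 2 0 (k (u 4 0 (k v (k v r))) r)) (k (u 2 0 (k (u 4 0 (k v (k v r))) r)) (k (c 2 4102 r (u 5 1 (k v (k v r)))) r))))
 (.c (c 2 4102 r (t 3 1 v))
 (.c (u 2 0 (k (u 4 0 (k (u 3 0 (k (u 5 1 (k v (k v r))) r)) (k (u 3 0 (k (u 5 3 (k v (k v r))) r)) r))) r))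
 (.c (t 3 2 (u 2 0 (k (u 4 0 (k v (k v r))) r)))
 (.c (c 2 4102 r (t 3 5 v))
 (.c (c 2 4102 r (t 3 3 v))
 (.t 119 (.c (c 2 4102 r (t 3 3 v))
 (.c (c 2 4102 r r)
 (.t 120 (.c (c 2 4102 r (u 3 0 (k r r)))
 (.t 136 (.c (c 2 4102 r (t 3 1 v))
 (.c (c 2 4102 r (u 3 0 (k (t 7 1 r) r)))
 (.c (c 2 4102 r (t 3 3 v))
 (.t 139 (.t 107 (.t 120 (.c (t 3 2 (u 2 0 (k (u 4 0 (k v (k v r))) r)))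
 (.c (t 3 1 (u 2 0 (k (u 4 0 (k v (k v r))) r)))
 (.t 141 (.c (t 3 1 (u 2 0 (k (u 4 0 (k v (k v r))) r)))
 (.c (t 3 1 (u 2 0 (k (u 4 0 (k v (k v r))) r)))
 (.c (u 3 1 (k (u 2 0 (k (u 4 0 (k v (k v r))) r)) (k (t 7 1 (u 2 0 (k (u 4 0 (k r (k r r))) r))) r)))
 (.c (u 2 0 (k (u 3 1 (k (u 4 0 (k v (k v r))) (k (c 7 4097 r r) r))) r))
 (.c (u 3 0 (k (t 7 1 (u 2 0 (k (u 5 0 (k (t 9 3 (t 13 3 r)) r)) r))) r))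
 (.c (u 2 0 (k (u 3 445 (k r (k (u 4 0 (k v (k v r))) (k r (k (u 4 0 (k v (k v r))) (k r (k (t 7 1 (u 5 0 (k r (k r r)))) r))))))) r))
 (.c (t 3 1 (u 2 0 (k (u 4 0 (k v (k v r))) r)))
 (.c (c 2 4102 r r)
 (.c (t 2 2 r)
 (.c (u 2 0 (k (u 4 0 (k r (k r r))) r))
 (.c (u 2 0 (k (u 4 0 (k r (k r r))) r))
 (.c (t 3 1 (u 2 0 (k (u 4 0 (k v (k v r))) r)))
 (.c (t 3 3 (u 2 0 (k (u 4 0 (k v (k v r))) r)))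
 (.c (t 3 2 (u 2 0 (k (u 4 0 (k v (k v r))) r)))
 (.c (t 3 1 (u 2 0 (k (u 4 0 (k v (k v r))) r)))
 (.c (u 2 0 (k (u 3 4 (k r (k r (k (u 4 0 (k v (k v r))) (k (t 7 1 (u 5 41 (k r (k r (k r r))))) r))))) r))
 (.c (c 2 4102 r r)
 (.c (u 2 0 (k (u 4 0 (k r (k r r))) r))
 (.c (c 2 4102 r (t 3 3 v))
 (.c (u 2 0 (k (u 4 23 (k (u 3 0 (k (t 7 2 r) r)) (k (c 2 4094 v (u 3 0 (k (t 7 2 r) r))) r))) r))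
 (.c (u 2 0 (k r r))
 (.c (t 2 2 (u 3 0 (k (t 7 3 r) r)))
 (.c (t 3 2 (u 2 0 (k (u 4 0 (k v (k v r))) r)))
 (.c (t 3 3 (u 2 0 (k r r)))
 (.c (u 2 0 (k r r))
 (.c (u 2 0 (k (u 4 0 (k (u 3 0 (k (t 7 1 r) r)) (k (u 3 0 (k (t 7 1 r) r)) r))) r))
 (.t 145 .z))))))))))))))))))))))))))))))))))))))))))))))))))))))))))))))))))))))))))))

set_option maxRecDepth 100000 in
def R76 : PR :=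
 (.c r
 (.c r
 (.t 78 (.c (t 3 1 (u 2 1 (k v (k (c 6 4097 r r) (k (c 6 4097 r r) r)))))
 (.c (t 3 1 (u 2 4 (k v (k v r))))
 (.c (c 3 4100 r r)
 (.c (t 3 1 (u 2 4 (k v (k v r))))
 (.c (t 3 1 (u 2 1 (k v (k (t 6 1 r) (k (c 3 4099 v (t 4 1 r)) r)))))
 (.c (c 2 4101 r (t 3 3 v))
 (.c (c 3 4099 r r)
 (.c (c 2 4101 r (t 3 3 v))
 (.c (c 2 4101 r (t 3 1 v))
 (.c (c 2 4101 r (t 3 1 v))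
 (.t 89 (.t 78 (.c (c 2 4101 r (t 3 1 v))
 (.c (c 3 4097 r r)
 (.c (c 3 4097 r r)
 (.c (t 3 1 (u 2 1 (k v (k (c 6 4097 r r) (k (c 6 4097 r r) r)))))
 (.c (t 3 1 (u 2 1 (k v (k (c 6 4097 r r) (k (c 6 4097 r r) r)))))
 (.c (c 3 4096 r r)
 (.c (c 3 4095 r r)
 (.c (t 2 2 (t 3 3 v))
 (.c (t 3 1 (u 2 4 (k v (k v r))))
 (.c (u 2 4 (k (u 3 3 (k v (k v r))) (k (u 3 3 (k v (k v r))) r)))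
 (.c (c 3 4098 r r)
 (.c (c 3 4098 r r)
 (.c (c 2 4101 r (t 3 3 v))
 (.c (c 3 4097 r r)
 (.c (c 2 4101 r (t 3 1 v))
 (.c (c 3 4097 r r)
 (.c (c 3 4097 r r)
 (.c (c 2 4101 r (t 3 5 v))
 (.c (c 2 4101 r (t 3 3 v))
 (.c (c 3 4096 r r)
 (.c (c 2 4101 r (t 3 3 v))
 (.c (c 2 4101 r r)
 (.c (c 3 4096 r r)
 (.c (c 2 4101 r (u 3 0 (k r r)))
 (.c (u 2 3 (k (c 3 4101 r v) (k (t 4 1 (u 6 2 (k r (k r r)))) (k (t 4 1 (u 6 2 (k r (k r r)))) r))))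
 (.c (c 2 4101 r (t 3 1 v))
 (.c (c 2 4101 r (u 3 0 (k (t 7 1 r) r)))
 (.c (c 2 4101 r (t 3 3 v))
 (.c (c 3 4100 r r)
 (.c (u 3 1 (k r (k r r)))
 (.c (c 3 4100 r r)
 (.c (t 3 2 (u 2 1 (k v (k (c 6 4097 r r) (k (c 6 4097 r r) r)))))
 (.c (t 3 1 (u 2 1 (k v (k (c 6 4097 r r) (k (c 6 4097 r r) r)))))
 (.c (u 2 3 (k (c 3 4099 r v) (k (t 4 1 (u 6 2 (k r (k r r)))) (k (c 3 4099 r (t 4 1 r)) r))))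
 (.c (c 3 4098 r r)
 (.c (c 3 4098 r r)
 (.c (c 3 4098 r r)
 (.c (c 3 4097 r r)
 (.c (c 3 4097 r r)
 (.c (c 3 4097 r r)
 (.c (c 3 4097 r r)
 (.c (c 2 4101 r r)
 (.c (c 3 4096 r r)
 (.c (c 3 4096 r r)
 (.c (c 3 4095 r r)
 (.c (c 3 4095 r r)
 (.c (c 3 4098 r r)
 (.c (c 3 4095 r r)
 (.c (c 3 4095 r r)
 (.c (c 3 4095 r r)
 (.c (c 3 4096 r r)
 (.c (t 3 5 r)
 (.c (c 2 4101 r (t 3 3 v))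
 (.c (c 2 4101 r (u 3 0 (k (t 7 2 r) r)))
 (.c (u 2 4 (k r (k r r)))
 (.c (c 3 4099 r r)
 (.c (t 2 2 r)
 (.c (t 3 2 r)
 (.c (u 2 4 (k r (k r r)))
 (.c (c 3 4099 r r)
 (.c (u 3 0 (k (u 5 0 (k r (k r r))) r))
 (.c (u 2 4 (k r (k r r)))
 .z)))))))))))))))))))))))))))))))))))))))))))))))))))))))))))))))))))))))))))))

set_option maxRecDepth 100000 in
def R77 : PR :=
 (.c r
 (.c r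
 (.t 86 (.c (t 3 1 r)
 (.c (t 3 1 (u 2 4 (k v (k v r))))
 (.c (t 3 3 r)
 (.c (t 3 1 (u 2 4 (k v (k v r))))
 (.t 112 (.c (c 2 4101 r (t 3 3 v))
 (.c (t 3 3 (u 2 4 (k v (k v r))))
 (.c (c 2 4101 r (t 3 3 v))
 (.c (c 2 4101 r (t 3 1 v))
 (.c (c 2 4101 r (t 3 1 v))
 (.c (t 3 3 r)
 (.t 114 (.c (c 2 4101 r (t 3 1 v))
 (.c (u 3 0 (k r (k r r)))
 (.c (c 3 4097 r r)
 (.c (t 3 1 r)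
 (.c (t 3 1 r)
 (.c (c 3 4096 r r)
 (.c (c 3 4095 r r)
 (.c (t 3 3 (u 2 22 (k v (k v r))))
 (.c (t 3 1 r)
 (.c (u 2 4 (k (u 3 3 (k v (k v r))) (k (u 3 3 (k v (k v r))) r)))
 (.c (c 3 4098 r r)
 (.c (t 3 2 r)
 (.c (c 2 4101 r (t 3 3 v))
 (.c (u 2 6 (k r (k r (k (t 6 2 r) r))))
 (.c (c 2 4101 r (t 3 1 v))
 (.c (c 3 4097 r r)
 (.c (t 3 2 r)
 (.c (c 2 4101 r (t 3 5 v))
 (.c (c 2 4101 r (t 3 3 v))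
 (.c (c 3 4096 r r)
 (.c (c 2 4101 r (t 3 3 v))
 (.c (c 2 4101 r r)
 (.c (c 3 4096 r r)
 (.c (c 2 4101 r (u 3 0 (k r r)))
 (.c (u 2 1 (k r (k (t 6 2 r) (k (c 3 4101 r (u 4 0 (k r r))) r))))
 (.c (c 2 4101 r (t 3 1 v))
 (.c (c 2 4101 r (u 3 0 (k (t 7 1 r) r)))
 (.c (c 2 4101 r (t 3 3 v))
 (.c (t 3 6 r)
 (.c (u 3 31 (k r (k r (k r r))))
 (.c (u 2 6 (k r (k r (k (t 6 2 r) r))))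
 (.c (t 3 3 r)
 (.c (u 2 4 (k r (k r r)))
 (.c (u 2 1 (k r (k (t 6 2 r) (k (c 3 4099 r (u 4 0 (k r r))) r))))
 (.c (c 3 4098 r r)
 (.c (t 3 1 r)
 (.c (t 3 1 r)
 (.c (u 3 1 (k r (k (c 7 4097 r (u 5 0 (k r (k r r)))) r)))
 (.c (c 3 4097 r r)
 (.c (u 2 14 (k r (k (c 3 4097 r (u 4 0 (k r r))) r)))
 (.c (u 2 4 (k r (k r r)))
 (.c (t 3 3 r)
 (.c (c 3 4096 r r)
 (.c (c 3 4096 r r)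
 (.c (c 3 4095 r r)
 (.c (c 3 4095 r r)
 (.c (t 3 3 r)
 (.c (c 3 4095 r r)
 (.c (c 3 4095 r r)
 (.c (c 3 4095 r r)
 (.c (c 3 4096 r r)
 (.c (u 2 4 (k (u 3 0 (k (t 7 2 r) r)) (k (u 3 0 (k (t 7 2 r) r)) r)))
 (.c (c 2 4101 r (t 3 3 v))
 (.c (u 2 25 (k (u 3 0 (k (t 7 3 r) r)) (k (u 3 0 (k (t 7 2 r) r)) r)))
 (.c (u 2 4 (k r (k r r)))
 (.c (t 3 3 r)
 (.c (u 2 25 (k r (k r r)))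
 (.c (t 3 2 r)
 (.c (u 2 4 (k r (k r r)))
 (.c (t 3 1 r)
 (.c (u 3 0 (k (u 5 0 (k r (k r r))) r))
 (.c (u 3 4 (k r (k r r)))
 (.c (u 2 4 (k r (k r r)))
 .z))))))))))))))))))))))))))))))))))))))))))))))))))))))))))))))))))))))))))))))

end Pool.Agent.Helper91.ND1
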