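import Pool.Agent.Helper91.VD1.DT
import Pool.Agent.Helper91.ND1.LA
import Pool.Agent.Helper91.ND1.LT
import Pool.Agent.Helper91.NF.Fast
import Pool.Agent.Helper91.ND1.LR1

/-! part of the certificate for the constant 25/48 (generated) -/

namespace Pool.Agent.Helper91.ND1

open Pool.Agent.Helper66.IL
open Pool.Agent.Helper66.ML
open Pool.Agent.Helper66.ND
open Pool.Agent.Helper91.NF
open Pool.Agent.Helper91.VZ
open Pool.Agent.Helper91.VD1 (DT)

theorem okR54 : rof A NN (vx DT) 167 54 R54 0 = true := by decide +kernel

theorem okR55 : rof A NN (vx DT) 167 55 R55 0 = true := by decide +kernel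

theorem okR56 : rof A NN (vx DT) 167 56 R56 0 = true := by decide +kernel

theorem okR57 : rof A NN (vx DT) 167 57 R57 0 = true := by decide +kernel

theorem okR58 : rof A NN (vx DT) 167 58 R58 0 = true := by decide +kernel

theorem okR59 : rof A NN (vx DT) 167 59 R59 0 = true := by decide +kernel

theorem okR60 : rof A NN (vx DT) 167 60 R60 0 = true := by decide +kernel

theorem okR61 : rof A NN (vx DT) 167 61 R61 0 = true := by decide +kernel

theorem okR62 : rof A NN (vx DT) 167 62 R62 0 = true := by decide +kernel

theorem okR63 : rof A NN (vx DT) 167 63 R63 0 = true := by decide +kernel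

theorem okR64 : rof A NN (vx DT) 167 64 R64 0 = true := by decide +kernel

theorem okR65 : rof A NN (vx DT) 167 65 R65 0 = true := by decide +kernel

theorem okR66 : rof A NN (vx DT) 167 66 R66 0 = true := by decide +kernel

theorem okR67 : rof A NN (vx DT) 167 67 R67 0 = true := by decide +kernel

theorem okR68 : rof A NN (vx DT) 167 68 R68 0 = true := by decide +kernel

theorem okR69 : rof A NN (vx DT) 167 69 R69 0 = true := by decide +kernel

theorem okR70 : rof A NN (vx DT) 167 70 R70 0 = true := by decide +kernel

theorem okR71 : rof A NN (vx DT) 167 71 R71 0 = true := by decide +kernel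

theorem okR72 : rof A NN (vx DT) 167 72 R72 0 = true := by decide +kernel

theorem okR73 : rof A NN (vx DT) 167 73 R73 0 = true := by decide +kernel

theorem okR74 : rof A NN (vx DT) 167 74 R74 0 = true := by decide +kernel

theorem okR75 : rof A NN (vx DT) 167 75 R75 0 = true := by decide +kernel

theorem okR76 : rof A NN (vx DT) 167 76 R76 0 = true := by decide +kernel

theorem okR77 : rof A NN (vx DT) 167 77 R77 0 = true := by decide +kernel

end Pool.Agent.Helper91.ND1
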