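import Pool.Agent.Helper66.ND.Defs

/-! part of the certificate for the constant 25/48 (generated) -/

namespace Pool.Agent.Helper91.ND1

open Pool.Agent.Helper66.IL
open Pool.Agent.Helper66.ND
open Pool.Agent.Helper66.ND.LT
open Pool.Agent.Helper66.ND.Ct

set_option maxRecDepth 100000 in
def R165 : PR :=
 (.c (u 2 1 (k r (k r (k r (k r (k (u 4 0 (k r (k (c 12 4099 r (u 8 0 (k r (k r r)))) r))) (k (t 4 1 (u 6 0 (k r r))) (k r (k (u 4 0 (k r (k (c 12 4099 r (u 8 0 (k r (k r r)))) r))) (k r r))))))))))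
 (.c (u 2 1 (k r (k r (k r (k r (k (u 4 0 (k r (k (c 12 4099 r (u 8 0 (k r (k r r)))) r))) (k (t 4 1 (u 6 0 (k r r))) (k r (k (u 4 0 (k r (k (c 12 4099 r (u 8 0 (k r (k r r)))) r))) (k r r))))))))))
 (.c (t 3 1 r)
 (.c (t 3 1 r)
 (.c (t 3 1 (u 2 2 (k v (k (t 4 1 r) (k (t 4 1 (u 6 0 (k r r))) (k r (k r (k (t 4 1 r) (k r (k r r))))))))))
 (.c (t 3 2 r)
 (.c (t 3 4 r)
 (.c (t 3 1 (u 2 0 (k r (k (t 4 1 (c 3 4099 v (u 6 0 (k r r)))) (k (c 3 4099 v r) (k (c 3 4099 v r) (k (u 6 28 (k r (k r (k (c 14 4099 r r) (k (c 10 4095 r r) (k (c 10 4095 r r) r)))))) (k (u 6 22 (k r (k r (k r r)))) (k (c 3 4099 v r) (k (c 3 4099 v r) (k (u 4 30 (k r (k r (k (c 12 4099 r r) (k (c 8 4099 r r) (k (c 8 4095 r r) r)))))) r)))))))))))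
 (.c (c 2 4100 r (t 3 3 v))
 (.c (c 3 4099 r (u 2 1 (k r (k r (k r (k r (k (u 4 0 (k r (k (c 12 4099 r (u 8 0 (k r (k r r)))) r))) (k (t 4 1 (u 6 0 (k r r))) (k r (k (u 4 0 (k r (k (c 12 4099 r (u 8 0 (k r (k r r)))) r))) (k r r)))))))))))
 (.c (c 2 4100 r (t 3 3 v))
 (.c (c 2 4100 r (t 3 1 v))
 (.c (c 2 4100 r (t 3 1 v))
 (.c (t 3 2 r)
 (.c (t 3 2 r)
 (.c (c 2 4100 r (t 3 1 v))
 (.c (c 3 4097 r (u 2 1 (k r (k r (k r (k r (k (u 4 0 (k r (k (c 12 4099 r (u 8 0 (k r (k r r)))) r))) (k (t 4 1 (u 6 0 (k r r))) (k r (k (u 4 0 (k r (k (c 12 4099 r (u 8 0 (k r (k r r)))) r))) (k r r)))))))))))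
 (.c (c 3 4097 r (u 2 1 (k r (k r (k r (k r (k (u 4 0 (k r (k (c 12 4099 r (u 8 0 (k r (k r r)))) r))) (k (t 4 1 (u 6 0 (k r r))) (k r (k (u 4 0 (k r (k (c 12 4099 r (u 8 0 (k r (k r r)))) r))) (k r r)))))))))))
 (.c (t 3 1 r)
 (.c (t 3 1 r)
 (.c (c 3 4096 r (u 2 1 (k r (k r (k r (k r (k (u 4 0 (k r (k (c 12 4099 r (u 8 0 (k r (k r r)))) r))) (k (t 4 1 (u 6 0 (k r r))) (k r (k (u 4 0 (k r (k (c 12 4099 r (u 8 0 (k r (k r r)))) r))) (k r r)))))))))))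
 (.c (c 3 4095 r (u 2 1 (k r (k r (k r (k r (k (u 4 0 (k r (k (c 12 4099 r (u 8 0 (k r (k r r)))) r))) (k (t 4 1 (u 6 0 (k r r))) (k r (k (u 4 0 (k r (k (c 12 4099 r (u 8 0 (k r (k r r)))) r))) (k r r)))))))))))
 (.c (t 2 2 (t 3 3 v))
 (.c (t 2 1 (t 3 3 v))
 (.c (t 3 2 r)
 (.c (c 3 4098 r (u 2 1 (k r (k r (k r (k r (k (u 4 0 (k r (k (c 12 4099 r (u 8 0 (k r (k r r)))) r))) (k (t 4 1 (u 6 0 (k r r))) (k r (k (u 4 0 (k r (k (c 12 4099 r (u 8 0 (k r (k r r)))) r))) (k r r)))))))))))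
 (.c (t 3 2 r)
 (.c (c 2 4100 r (t 3 3 v))
 (.c (c 3 4097 r (u 2 1 (k r (k r (k r (k r (k (u 4 0 (k r (k (c 12 4099 r (u 8 0 (k r (k r r)))) r))) (k (t 4 1 (u 6 0 (k r r))) (k r (k (u 4 0 (k r (k (c 12 4099 r (u 8 0 (k r (k r r)))) r))) (k r r)))))))))))
 (.c (c 2 4100 r (t 3 1 v))
 (.c (c 3 4097 r (u 2 1 (k r (k r (k r (k r (k (u 4 0 (k r (k (c 12 4099 r (u 8 0 (k r (k r r)))) r))) (k (t 4 1 (u 6 0 (k r r))) (k r (k (u 4 0 (k r (k (c 12 4099 r (u 8 0 (k r (k r r)))) r))) (k r r)))))))))))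
 (.c (c 3 4097 r (u 2 1 (k r (k r (k r (k r (k (u 4 0 (k r (k (c 12 4099 r (u 8 0 (k r (k r r)))) r))) (k (t 4 1 (u 6 0 (k r r))) (k r (k (u 4 0 (k r (k (c 12 4099 r (u 8 0 (k r (k r r)))) r))) (k r r)))))))))))
 (.c (c 2 4100 r (t 3 5 v))
 (.c (c 2 4100 r (t 3 3 v))
 (.c (c 3 4096 r (u 2 1 (k r (k r (k r (k r (k (u 4 0 (k r (k (c 12 4099 r (u 8 0 (k r (k r r)))) r))) (k (t 4 1 (u 6 0 (k r r))) (k r (k (u 4 0 (k r (k (c 12 4099 r (u 8 0 (k r (k r r)))) r))) (k r r)))))))))))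
 (.c (c 2 4100 r (t 3 3 v))
 (.c (c 2 4100 r r)
 (.c (c 3 4096 r (u 2 1 (k r (k r (k r (k r (k (u 4 0 (k r (k (c 12 4099 r (u 8 0 (k r (k r r)))) r))) (k (t 4 1 (u 6 0 (k r r))) (k r (k (u 4 0 (k r (k (c 12 4099 r (u 8 0 (k r (k r r)))) r))) (k r r)))))))))))
 (.c (c 2 4100 r (u 3 0 (k r r)))
 (.c (t 3 1 r)
 (.c (c 2 4100 r (t 3 1 v))
 (.c (c 2 4100 r (u 3 0 (k (t 7 1 r) r)))
 (.c (c 2 4100 r (t 3 3 v))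
 (.c (t 3 6 r)
 (.c (u 3 0 (k r (k r r)))
 (.c (t 3 2 r)
 (.c (t 3 2 r)
 (.c (t 3 1 r)
 (.c (t 3 1 r)
 (.c (c 3 4098 r (u 2 1 (k r (k r (k r (k r (k (u 4 0 (k r (k (c 12 4099 r (u 8 0 (k r (k r r)))) r))) (k (t 4 1 (u 6 0 (k r r))) (k r (k (u 4 0 (k r (k (c 12 4099 r (u 8 0 (k r (k r r)))) r))) (k r r)))))))))))
 (.c (t 3 1 r)
 (.c (t 3 1 r)
 (.c (c 3 4097 r (u 2 1 (k r (k r (k r (k r (k (u 4 0 (k r (k (c 12 4099 r (u 8 0 (k r (k r r)))) r))) (k (t 4 1 (u 6 0 (k r r))) (k r (k (u 4 0 (k r (k (c 12 4099 r (u 8 0 (k r (k r r)))) r))) (k r r)))))))))))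
 (.c (c 3 4097 r (u 2 1 (k r (k r (k r (k r (k (u 4 0 (k r (k (c 12 4099 r (u 8 0 (k r (k r r)))) r))) (k (t 4 1 (u 6 0 (k r r))) (k r (k (u 4 0 (k r (k (c 12 4099 r (u 8 0 (k r (k r r)))) r))) (k r r)))))))))))
 (.c (c 3 4097 r (u 2 1 (k r (k r (k r (k r (k (u 4 0 (k r (k (c 12 4099 r (u 8 0 (k r (k r r)))) r))) (k (t 4 1 (u 6 0 (k r r))) (k r (k (u 4 0 (k r (k (c 12 4099 r (u 8 0 (k r (k r r)))) r))) (k r r)))))))))))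
 (.c (c 3 4097 r (u 2 1 (k r (k r (k r (k r (k (u 4 0 (k r (k (c 12 4099 r (u 8 0 (k r (k r r)))) r))) (k (t 4 1 (u 6 0 (k r r))) (k r (k (u 4 0 (k r (k (c 12 4099 r (u 8 0 (k r (k r r)))) r))) (k r r)))))))))))
 (.c (c 2 4100 r r)
 (.c (c 3 4096 r (u 2 1 (k r (k r (k r (k r (k (u 4 0 (k r (k (c 12 4099 r (u 8 0 (k r (k r r)))) r))) (k (t 4 1 (u 6 0 (k r r))) (k r (k (u 4 0 (k r (k (c 12 4099 r (u 8 0 (k r (k r r)))) r))) (k r r)))))))))))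
 (.c (c 3 4096 r (u 2 1 (k r (k r (k r (k r (k (u 4 0 (k r (k (c 12 4099 r (u 8 0 (k r (k r r)))) r))) (k (t 4 1 (u 6 0 (k r r))) (k r (k (u 4 0 (k r (k (c 12 4099 r (u 8 0 (k r (k r r)))) r))) (k r r)))))))))))
 (.c (c 3 4095 r (u 2 1 (k r (k r (k r (k r (k (u 4 0 (k r (k (c 12 4099 r (u 8 0 (k r (k r r)))) r))) (k (t 4 1 (u 6 0 (k r r))) (k r (k (u 4 0 (k r (k (c 12 4099 r (u 8 0 (k r (k r r)))) r))) (k r r)))))))))))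
 (.c (c 3 4095 r (u 2 1 (k r (k r (k r (k r (k (u 4 0 (k r (k (c 12 4099 r (u 8 0 (k r (k r r)))) r))) (k (t 4 1 (u 6 0 (k r r))) (k r (k (u 4 0 (k r (k (c 12 4099 r (u 8 0 (k r (k r r)))) r))) (k r r)))))))))))
 (.c (t 3 2 r)
 (.c (c 3 4095 r (u 2 1 (k r (k r (k r (k r (k (u 4 0 (k r (k (c 12 4099 r (u 8 0 (k r (k r r)))) r))) (k (t 4 1 (u 6 0 (k r r))) (k r (k (u 4 0 (k r (k (c 12 4099 r (u 8 0 (k r (k r r)))) r))) (k r r)))))))))))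
 (.c (c 3 4095 r (u 2 1 (k r (k r (k r (k r (k (u 4 0 (k r (k (c 12 4099 r (u 8 0 (k r (k r r)))) r))) (k (t 4 1 (u 6 0 (k r r))) (k r (k (u 4 0 (k r (k (c 12 4099 r (u 8 0 (k r (k r r)))) r))) (k r r)))))))))))
 (.c (c 3 4095 r (u 2 1 (k r (k r (k r (k r (k (u 4 0 (k r (k (c 12 4099 r (u 8 0 (k r (k r r)))) r))) (k (t 4 1 (u 6 0 (k r r))) (k r (k (u 4 0 (k r (k (c 12 4099 r (u 8 0 (k r (k r r)))) r))) (k r r)))))))))))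
 (.c (c 2 4100 r r)
 (.c (t 3 4 r)
 (.c (c 2 4100 r (t 3 3 v))
 (.c (t 3 2 r)
 (.c (t 3 2 r)
 (.c (c 3 4099 r (u 2 1 (k r (k r (k r (k r (k (u 4 0 (k r (k (c 12 4099 r (u 8 0 (k r (k r r)))) r))) (k (t 4 1 (u 6 0 (k r r))) (k r (k (u 4 0 (k r (k (c 12 4099 r (u 8 0 (k r (k r r)))) r))) (k r r)))))))))))
 (.c (t 3 2 r)
 (.c (t 3 8 r)
 (.c (t 3 1 r)
 (.c (c 3 4099 r (u 2 1 (k r (k r (k r (k r (k (u 4 0 (k r (k (c 12 4099 r (u 8 0 (k r (k r r)))) r))) (k (t 4 1 (u 6 0 (k r r))) (k r (k (u 4 0 (k r (k (c 12 4099 r (u 8 0 (k r (k r r)))) r))) (k r r)))))))))))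
 (.c (t 3 2 r)
 (.c (t 3 2 r)
 (.c (u 3 25 (k r (k r r)))
 (.c (c 2 4100 r (u 3 0 (k (t 7 2 r) r)))
 (.c (c 3 4095 r (u 2 1 (k r (k r (k r (k r (k (u 4 0 (k r (k (c 12 4099 r (u 8 0 (k r (k r r)))) r))) (k (t 4 1 (u 6 0 (k r r))) (k r (k (u 4 0 (k r (k (c 12 4099 r (u 8 0 (k r (k r r)))) r))) (k r r)))))))))))
 (.c (c 2 4100 r r)
 (.c (t 3 2 r)
 (.c (t 3 4 r)
 (.c (c 3 4097 r (u 2 1 (k r (k r (k r (k r (k (u 4 0 (k r (k (c 12 4099 r (u 8 0 (k r (k r r)))) r))) (k (t 4 1 (u 6 0 (k r r))) (k r (k (u 4 0 (k r (k (c 12 4099 r (u 8 0 (k r (k r r)))) r))) (k r r)))))))))))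
 (.c (t 3 1 r)
 (.c (t 3 1 r)
 (.c (c 3 4100 r (u 2 1 (k r (k r (k r (k r (k (u 4 0 (k r (k (c 12 4099 r (u 8 0 (k r (k r r)))) r))) (k (t 4 1 (u 6 0 (k r r))) (k r (k (u 4 0 (k r (k (c 12 4099 r (u 8 0 (k r (k r r)))) r))) (k r r)))))))))))
 (.c (t 3 1 r)
 (.c (t 3 3 r)
 (.c (u 3 0 (k r (k r r)))
 (.c (c 3 4095 r (u 2 1 (k r (k r (k r (k r (k (u 4 0 (k r (k (c 12 4099 r (u 8 0 (k r (k r r)))) r))) (k (t 4 1 (u 6 0 (k r r))) (k r (k (u 4 0 (k r (k (c 12 4099 r (u 8 0 (k r (k r r)))) r))) (k r r)))))))))))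
 (.c (u 3 3 (k r (k r r)))
 (.c (c 3 4098 r (u 2 1 (k r (k r (k r (k r (k (u 4 0 (k r (k (c 12 4099 r (u 8 0 (k r (k r r)))) r))) (k (t 4 1 (u 6 0 (k r r))) (k r (k (u 4 0 (k r (k (c 12 4099 r (u 8 0 (k r (k r r)))) r))) (k r r)))))))))))
 (.c (t 3 2 r)
 (.c (c 3 4097 r (u 2 1 (k r (k r (k r (k r (k (u 4 0 (k r (k (c 12 4099 r (u 8 0 (k r (k r r)))) r))) (k (t 4 1 (u 6 0 (k r r))) (k r (k (u 4 0 (k r (k (c 12 4099 r (u 8 0 (k r (k r r)))) r))) (k r r)))))))))))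
 (.c (c 3 4096 r (u 2 1 (k r (k r (k r (k r (k (u 4 0 (k r (k (c 12 4099 r (u 8 0 (k r (k r r)))) r))) (k (t 4 1 (u 6 0 (k r r))) (k r (k (u 4 0 (k r (k (c 12 4099 r (u 8 0 (k r (k r r)))) r))) (k r r)))))))))))
 (.c (c 3 4096 r (u 2 1 (k r (k r (k r (k r (k (u 4 0 (k r (k (c 12 4099 r (u 8 0 (k r (k r r)))) r))) (k (t 4 1 (u 6 0 (k r r))) (k r (k (u 4 0 (k r (k (c 12 4099 r (u 8 0 (k r (k r r)))) r))) (k r r)))))))))))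
 (.c (c 3 4095 r (u 2 1 (k r (k r (k r (k r (k (u 4 0 (k r (k (c 12 4099 r (u 8 0 (k r (k r r)))) r))) (k (t 4 1 (u 6 0 (k r r))) (k r (k (u 4 0 (k r (k (c 12 4099 r (u 8 0 (k r (k r r)))) r))) (k r r)))))))))))
 (.c (c 3 4095 r (u 2 1 (k r (k r (k r (k r (k (u 4 0 (k r (k (c 12 4099 r (u 8 0 (k r (k r r)))) r))) (k (t 4 1 (u 6 0 (k r r))) (k r (k (u 4 0 (k r (k (c 12 4099 r (u 8 0 (k r (k r r)))) r))) (k r r)))))))))))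
 (.c (c 3 4095 r (u 2 1 (k r (k r (k r (k r (k (u 4 0 (k r (k (c 12 4099 r (u 8 0 (k r (k r r)))) r))) (k (t 4 1 (u 6 0 (k r r))) (k r (k (u 4 0 (k r (k (c 12 4099 r (u 8 0 (k r (k r r)))) r))) (k r r)))))))))))
 (.c (c 3 4095 r (u 2 1 (k r (k r (k r (k r (k (u 4 0 (k r (k (c 12 4099 r (u 8 0 (k r (k r r)))) r))) (k (t 4 1 (u 6 0 (k r r))) (k r (k (u 4 0 (k r (k (c 12 4099 r (u 8 0 (k r (k r r)))) r))) (k r r)))))))))))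
 (.c (t 3 4 r)
 (.c (t 3 2 r)
 (.c (c 3 4097 r (u 2 1 (k r (k r (k r (k r (k (u 4 0 (k r (k (c 12 4099 r (u 8 0 (k r (k r r)))) r))) (k (t 4 1 (u 6 0 (k r r))) (k r (k (u 4 0 (k r (k (c 12 4099 r (u 8 0 (k r (k r r)))) r))) (k r r)))))))))))
 (.c (t 3 2 r)
 (.c (t 3 2 r)
 (.c (c 2 4100 r r)
 (.c (c 2 4100 r r)
 (.c (t 3 1 r)
 (.c (t 3 2 r)
 (.c (t 3 4 r)
 (.c (c 3 4097 r (u 2 1 (k r (k r (k r (k r (k (u 4 0 (k r (k (c 12 4099 r (u 8 0 (k r (k r r)))) r))) (k (t 4 1 (u 6 0 (k r r))) (k r (k (u 4 0 (k r (k (c 12 4099 r (u 8 0 (k r (k r r)))) r))) (k r r)))))))))))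
 (.c (c 2 4100 r r)
 (.c (c 2 4100 r r)
 (.c (c 3 4097 r (u 2 1 (k r (k r (k r (k r (k (u 4 0 (k r (k (c 12 4099 r (u 8 0 (k r (k r r)))) r))) (k (t 4 1 (u 6 0 (k r r))) (k r (k (u 4 0 (k r (k (c 12 4099 r (u 8 0 (k r (k r r)))) r))) (k r r)))))))))))
 (.c (c 2 4100 r r)
 (.c (c 3 4096 r (u 2 1 (k r (k r (k r (k r (k (u 4 0 (k r (k (c 12 4099 r (u 8 0 (k r (k r r)))) r))) (k (t 4 1 (u 6 0 (k r r))) (k r (k (u 4 0 (k r (k (c 12 4099 r (u 8 0 (k r (k r r)))) r))) (k r r)))))))))))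
 (.c (c 3 4096 r (u 2 1 (k r (k r (k r (k r (k (u 4 0 (k r (k (c 12 4099 r (u 8 0 (k r (k r r)))) r))) (k (t 4 1 (u 6 0 (k r r))) (k r (k (u 4 0 (k r (k (c 12 4099 r (u 8 0 (k r (k r r)))) r))) (k r r)))))))))))
 (.c (c 2 4100 r (u 3 0 (k (t 7 1 r) r)))
 (.c (t 3 2 r)
 (.c (t 3 3 r)
 (.c (t 3 2 r)
 (.c (t 3 2 r)
 (.c (t 3 2 r)
 (.c (c 3 4097 r (u 2 1 (k r (k r (k r (k r (k (u 4 0 (k r (k (c 12 4099 r (u 8 0 (k r (k r r)))) r))) (k (t 4 1 (u 6 0 (k r r))) (k r (k (u 4 0 (k r (k (c 12 4099 r (u 8 0 (k r (k r r)))) r))) (k r r)))))))))))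
 (.c (t 3 2 r)
 (.c (t 3 1 r)
 (.c (c 3 4096 r (u 2 1 (k r (k r (k r (k r (k (u 4 0 (k r (k (c 12 4099 r (u 8 0 (k r (k r r)))) r))) (k (t 4 1 (u 6 0 (k r r))) (k r (k (u 4 0 (k r (k (c 12 4099 r (u 8 0 (k r (k r r)))) r))) (k r r)))))))))))
 (.c (t 3 1 r)
 (.c (c 3 4099 r (u 2 1 (k r (k r (k r (k r (k (u 4 0 (k r (k (c 12 4099 r (u 8 0 (k r (k r r)))) r))) (k (t 4 1 (u 6 0 (k r r))) (k r (k (u 4 0 (k r (k (c 12 4099 r (u 8 0 (k r (k r r)))) r))) (k r r)))))))))))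
 (.c (c 3 4097 r (u 2 1 (k r (k r (k r (k r (k (u 4 0 (k r (k (c 12 4099 r (u 8 0 (k r (k r r)))) r))) (k (t 4 1 (u 6 0 (k r r))) (k r (k (u 4 0 (k r (k (c 12 4099 r (u 8 0 (k r (k r r)))) r))) (k r r)))))))))))
 (.c (c 3 4097 r (u 2 1 (k r (k r (k r (k r (k (u 4 0 (k r (k (c 12 4099 r (u 8 0 (k r (k r r)))) r))) (k (t 4 1 (u 6 0 (k r r))) (k r (k (u 4 0 (k r (k (c 12 4099 r (u 8 0 (k r (k r r)))) r))) (k r r)))))))))))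
 (.c (c 3 4097 r (u 2 1 (k r (k r (k r (k r (k (u 4 0 (k r (k (c 12 4099 r (u 8 0 (k r (k r r)))) r))) (k (t 4 1 (u 6 0 (k r r))) (k r (k (u 4 0 (k r (k (c 12 4099 r (u 8 0 (k r (k r r)))) r))) (k r r)))))))))))
 (.c (c 3 4096 r (u 2 1 (k r (k r (k r (k r (k (u 4 0 (k r (k (c 12 4099 r (u 8 0 (k r (k r r)))) r))) (k (t 4 1 (u 6 0 (k r r))) (k r (k (u 4 0 (k r (k (c 12 4099 r (u 8 0 (k r (k r r)))) r))) (k r r)))))))))))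
 (.c (c 3 4096 r (u 2 1 (k r (k r (k r (k r (k (u 4 0 (k r (k (c 12 4099 r (u 8 0 (k r (k r r)))) r))) (k (t 4 1 (u 6 0 (k r r))) (k r (k (u 4 0 (k r (k (c 12 4099 r (u 8 0 (k r (k r r)))) r))) (k r r)))))))))))
 (.c (t 3 3 r)
 (.c (c 3 4095 r (u 2 1 (k r (k r (k r (k r (k (u 4 0 (k r (k (c 12 4099 r (u 8 0 (k r (k r r)))) r))) (k (t 4 1 (u 6 0 (k r r))) (k r (k (u 4 0 (k r (k (c 12 4099 r (u 8 0 (k r (k r r)))) r))) (k r r)))))))))))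
 (.c (t 3 4 r)
 (.c (t 3 2 r)
 (.c (c 3 4097 r (u 2 1 (k r (k r (k r (k r (k (u 4 0 (k r (k (c 12 4099 r (u 8 0 (k r (k r r)))) r))) (k (t 4 1 (u 6 0 (k r r))) (k r (k (u 4 0 (k r (k (c 12 4099 r (u 8 0 (k r (k r r)))) r))) (k r r)))))))))))
 (.c (c 3 4097 r (u 2 1 (k r (k r (k r (k r (k (u 4 0 (k r (k (c 12 4099 r (u 8 0 (k r (k r r)))) r))) (k (t 4 1 (u 6 0 (k r r))) (k r (k (u 4 0 (k r (k (c 12 4099 r (u 8 0 (k r (k r r)))) r))) (k r r)))))))))))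
 (.c (t 3 4 r)
 (.c (c 3 4096 r (u 2 1 (k r (k r (k r (k r (k (u 4 0 (k r (k (c 12 4099 r (u 8 0 (k r (k r r)))) r))) (k (t 4 1 (u 6 0 (k r r))) (k r (k (u 4 0 (k r (k (c 12 4099 r (u 8 0 (k r (k r r)))) r))) (k r r)))))))))))
 (.c (t 3 2 r)
 (.c (c 3 4098 r (u 2 1 (k r (k r (k r (k r (k (u 4 0 (k r (k (c 12 4099 r (u 8 0 (k r (k r r)))) r))) (k (t 4 1 (u 6 0 (k r r))) (k r (k (u 4 0 (k r (k (c 12 4099 r (u 8 0 (k r (k r r)))) r))) (k r r)))))))))))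
 (.c (t 3 2 r)
 (.c (c 3 4095 r (u 2 1 (k r (k r (k r (k r (k (u 4 0 (k r (k (c 12 4099 r (u 8 0 (k r (k r r)))) r))) (k (t 4 1 (u 6 0 (k r r))) (k r (k (u 4 0 (k r (k (c 12 4099 r (u 8 0 (k r (k r r)))) r))) (k r r)))))))))))
 (.c (c 3 4097 r (u 2 1 (k r (k r (k r (k r (k (u 4 0 (k r (k (c 12 4099 r (u 8 0 (k r (k r r)))) r))) (k (t 4 1 (u 6 0 (k r r))) (k r (k (u 4 0 (k r (k (c 12 4099 r (u 8 0 (k r (k r r)))) r))) (k r r)))))))))))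
 (.c (c 3 4096 r (u 2 1 (k r (k r (k r (k r (k (u 4 0 (k r (k (c 12 4099 r (u 8 0 (k r (k r r)))) r))) (k (t 4 1 (u 6 0 (k r r))) (k r (k (u 4 0 (k r (k (c 12 4099 r (u 8 0 (k r (k r r)))) r))) (k r r)))))))))))
 (.c (c 3 4093 r (u 2 1 (k r (k r (k r (k r (k (u 4 0 (k r (k (c 12 4099 r (u 8 0 (k r (k r r)))) r))) (k (t 4 1 (u 6 0 (k r r))) (k r (k (u 4 0 (k r (k (c 12 4099 r (u 8 0 (k r (k r r)))) r))) (k r r)))))))))))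
 (.c (t 3 1 r)
 (.c (c 2 4100 r r)
 (.c (c 3 4097 r (u 2 1 (k r (k r (k r (k r (k (u 4 0 (k r (k (c 12 4099 r (u 8 0 (k r (k r r)))) r))) (k (t 4 1 (u 6 0 (k r r))) (k r (k (u 4 0 (k r (k (c 12 4099 r (u 8 0 (k r (k r r)))) r))) (k r r)))))))))))
 (.c (c 3 4096 r (u 2 1 (k r (k r (k r (k r (k (u 4 0 (k r (k (c 12 4099 r (u 8 0 (k r (k r r)))) r))) (k (t 4 1 (u 6 0 (k r r))) (k r (k (u 4 0 (k r (k (c 12 4099 r (u 8 0 (k r (k r r)))) r))) (k r r)))))))))))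
 (.c (c 3 4095 r (u 2 1 (k r (k r (k r (k r (k (u 4 0 (k r (k (c 12 4099 r (u 8 0 (k r (k r r)))) r))) (k (t 4 1 (u 6 0 (k r r))) (k r (k (u 4 0 (k r (k (c 12 4099 r (u 8 0 (k r (k r r)))) r))) (k r r)))))))))))
 (.c (t 3 2 r)
 (.c (c 2 4100 r r)
 (.c (c 3 4097 r (u 2 1 (k r (k r (k r (k r (k (u 4 0 (k r (k (c 12 4099 r (u 8 0 (k r (k r r)))) r))) (k (t 4 1 (u 6 0 (k r r))) (k r (k (u 4 0 (k r (k (c 12 4099 r (u 8 0 (k r (k r r)))) r))) (k r r)))))))))))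
 (.c (t 3 1 r)
 (.c (t 3 1 r)
 (.c (t 3 2 r)
 (.c (c 3 4095 r (u 2 1 (k r (k r (k r (k r (k (u 4 0 (k r (k (c 12 4099 r (u 8 0 (k r (k r r)))) r))) (k (t 4 1 (u 6 0 (k r r))) (k r (k (u 4 0 (k r (k (c 12 4099 r (u 8 0 (k r (k r r)))) r))) (k r r)))))))))))
 (.c (t 3 1 r)
 (.c (c 3 4095 r (u 2 1 (k r (k r (k r (k r (k (u 4 0 (k r (k (c 12 4099 r (u 8 0 (k r (k r r)))) r))) (k (t 4 1 (u 6 0 (k r r))) (k r (k (u 4 0 (k r (k (c 12 4099 r (u 8 0 (k r (k r r)))) r))) (k r r)))))))))))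
 (.c (c 3 4096 r (u 2 1 (k r (k r (k r (k r (k (u 4 0 (k r (k (c 12 4099 r (u 8 0 (k r (k r r)))) r))) (k (t 4 1 (u 6 0 (k r r))) (k r (k (u 4 0 (k r (k (c 12 4099 r (u 8 0 (k r (k r r)))) r))) (k r r)))))))))))
 (.c (t 2 2 r)
 .z))))))))))))))))))))))))))))))))))))))))))))))))))))))))))))))))))))))))))))))))))))))))))))))))))))))))))))))))))))))))))))))))))))))))))))))))))))))))))))))))))))))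

set_option maxRecDepth 100000 in
def R166 : PR :=
 (.c r
 (.c r
 (.c (c 2 4096 r (t 3 1 v))
 (.c (c 2 4096 r (t 3 1 v))
 (.c (t 2 3 (t 3 1 v))
 (.c (c 3 4100 r r)
 (.c (t 3 4 (u 2 0 (k (t 4 1 (u 6 0 (k (c 14 4101 r r) r))) r)))
 (.c (t 3 1 (u 2 0 (k (t 4 1 (u 6 0 (k (t 14 1 r) r))) r)))
 (.c (c 3 4099 r r)
 (.c (c 3 4099 r r)
 (.c (c 2 4096 r (t 3 3 v))
 (.c (c 2 4096 r (t 3 1 v))
 (.c (c 2 4096 r (t 3 1 v))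
 (.c (t 3 2 (u 2 0 (k (t 4 1 (u 6 0 (k (c 14 4101 r r) r))) r)))
 (.c (t 3 2 (u 2 0 (k (t 4 1 (u 6 0 (k (c 14 4101 r r) r))) r)))
 (.c (c 2 4096 r (t 3 1 v))
 (.c (c 3 4097 r r)
 (.c (c 3 4097 r r)
 (.c (c 2 4096 r (t 3 1 v))
 (.c (t 3 1 (u 2 0 (k (c 6 4095 r r) r)))
 (.c (c 3 4096 r r)
 (.c (c 2 4096 r (t 3 1 v))
 (.c (t 2 2 (t 3 3 v))
 (.c (t 3 4 (u 2 0 (k (t 4 1 (u 6 0 (k (c 14 4101 r r) r))) r)))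
 (.c (t 2 3 (u 3 4 (k v (k v r))))
 (.c (c 3 4098 r r)
 (.c (c 3 4098 r r)
 (.c (c 2 4096 r (t 3 3 v))
 (.c (c 3 4097 r r)
 (.c (c 2 4096 r (t 3 1 v))
 (.c (c 3 4097 r r)
 (.c (c 3 4097 r r)
 (.c (c 2 4096 r (t 3 5 v))
 (.c (c 2 4096 r (t 3 3 v))
 (.c (c 3 4096 r r)
 (.c (c 2 4096 r (t 3 3 v))
 (.c (c 2 4096 r r)
 (.c (c 3 4096 r r)
 (.c (c 2 4096 r (u 3 0 (k r r)))
 (.c (t 3 1 (u 2 0 (k (t 4 1 (u 6 0 (k (c 14 4101 r r) r))) r)))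
 (.c (c 2 4096 r (t 3 1 v))
 (.c (c 2 4096 r (u 3 0 (k (t 7 1 r) r)))
 (.c (c 2 4096 r (t 3 3 v))
 (.c (c 3 4100 r r)
 (.c (u 3 0 (k (u 2 0 (k (t 6 2 r) r)) (k (u 2 0 (k (t 4 1 (u 6 0 (k (c 14 4101 r r) r))) r)) r)))
 (.c (c 3 4100 r r)
 (.c (t 3 2 (u 2 0 (k (c 6 4095 r r) r)))
 (.c (t 3 1 (u 2 0 (k (c 6 4095 r r) r)))
 (.c (t 3 1 (u 2 0 (k (t 4 1 (u 6 0 (k (c 14 4101 r r) r))) r)))
 (.c (c 3 4098 r r)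
 (.c (c 3 4098 r r)
 (.c (c 3 4098 r r)
 (.c (c 3 4097 r r)
 (.c (c 2 4096 r (t 3 1 v))
 (.c (c 3 4097 r r)
 (.c (t 3 1 (u 2 0 (k (c 6 4095 r r) r)))
 (.c (c 3 4097 r r)
 (.c (c 3 4096 r r)
 (.c (c 3 4096 r r)
 (.c (c 3 4095 r r)
 (.c (c 3 4095 r r)
 (.c (c 3 4098 r r)
 (.c (c 3 4095 r r)
 (.c (c 2 4096 r (t 3 1 v))
 (.c (c 3 4095 r r)
 (.c (c 2 4096 r r)
 (.c (c 2 4096 r (u 3 0 (k (t 7 2 r) r)))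
 (.c (c 2 4096 r (t 3 3 v))
 (.c (c 2 4096 r (u 3 0 (k (t 7 2 r) r)))
 (.c (t 3 2 (u 2 0 (k (t 4 1 (u 6 0 (k (c 14 4101 r r) r))) r)))
 (.c (c 3 4099 r r)
 (.c (t 3 2 (u 2 0 (k (c 6 4095 r r) r)))
 (.c (t 3 8 (u 2 0 (k (t 4 1 (u 6 0 (k (c 14 4101 r r) r))) r)))
 (.c (t 3 1 (u 2 0 (k (t 4 1 (u 6 0 (k (c 14 4101 r r) r))) r)))
 (.c (c 3 4099 r r)
 (.c (t 3 2 (u 2 0 (k (t 4 1 (u 6 0 (k (c 14 4101 r r) r))) r)))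
 (.c (c 2 4096 r r)
 (.c (c 2 4096 r r)
 (.c (c 2 4096 r (u 3 0 (k (t 7 2 r) r)))
 (.c (c 3 4095 r r)
 (.c (t 3 1 (u 2 0 (k (c 6 4095 r r) r)))
 (.c (t 3 2 (u 2 0 (k (t 4 1 (u 6 0 (k (c 14 4101 r r) r))) r)))
 (.c (c 2 4096 r r)
 (.c (c 3 4097 r r)
 (.c (c 3 4100 r r)
 (.c (c 2 4096 r r)
 (.c (c 3 4100 r r)
 (.c (t 3 1 (u 2 0 (k (t 4 1 (u 6 0 (k (c 14 4101 r r) r))) r)))
 (.c (c 2 4096 r r)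
 (.c (u 3 38 (k (u 2 0 (k (t 4 1 (u 6 0 (k (c 14 4101 r r) r))) r)) (k (u 2 0 (k (t 6 2 r) r)) (k (u 2 0 (k (c 6 4095 r r) r)) (k (u 2 0 (k (t 6 2 r) r)) r)))))
 (.c (c 3 4095 r r)
 (.c (c 3 4098 r r)
 (.c (c 3 4098 r r)
 (.c (c 3 4098 r r)
 (.c (c 3 4097 r r)
 (.c (c 3 4096 r r)
 (.c (c 3 4096 r r)
 (.c (c 2 4096 r (u 3 0 (k r (k r (k r r)))))
 (.c (c 2 4096 r (u 3 0 (k (t 7 2 (u 5 0 (k (c 13 4099 r r) r))) r)))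
 (.c (c 3 4095 r r)
 (.c (c 3 4095 r r)
 (.c (t 3 4 (u 2 0 (k (t 4 1 (u 6 0 (k (c 14 4101 r r) r))) r)))
 (.c (t 3 2 (u 2 0 (k (t 4 1 (u 6 0 (k (c 14 4101 r r) r))) r)))
 (.c (c 2 4096 r (u 3 0 (k (t 7 2 r) r)))
 (.c (c 2 4096 r r)
 (.c (t 2 1 r)
 (.c (c 2 4096 r r)
 (.c (t 3 2 (u 2 0 (k (c 6 4095 r r) r)))
 (.c (c 2 4096 r r)
 (.c (c 2 4096 r r)
 (.c (t 3 4 (u 2 0 (k (t 4 1 (u 6 0 (k (c 14 4101 r r) r))) r)))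
 (.c (c 2 4096 r r)
 (.c (c 2 4096 r r)
 (.c (c 2 4096 r r)
 (.c (c 3 4097 r r)
 (.c (c 3 4100 r r)
 (.c (c 3 4096 r r)
 (.c (c 3 4096 r r)
 (.c (c 2 4096 r (u 3 0 (k (t 7 1 r) r)))
 (.c (c 2 4096 r r)
 (.c (c 2 4096 r r)
 (.c (t 2 1 r)
 (.c (t 3 2 (u 2 0 (k (t 4 1 (u 6 0 (k (c 14 4101 r r) r))) r)))
 (.c (t 3 2 (u 2 0 (k (t 4 1 (u 6 0 (k (c 14 4101 r r) r))) r)))
 (.c (c 3 4097 r r)
 (.c (t 3 2 (u 2 0 (k (t 4 1 (u 6 0 (k (c 14 4101 r r) r))) r)))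
 (.c (t 3 1 (u 2 0 (k (t 4 1 (u 6 0 (k (c 14 4101 r r) r))) r)))
 (.c (c 3 4096 r r)
 (.c (t 3 1 (u 2 0 (k (c 6 4095 r r) r)))
 (.c (c 3 4099 r r)
 (.c (c 3 4097 r r)
 (.c (c 3 4097 r r)
 (.c (c 3 4097 r r)
 (.c (c 3 4096 r r)
 (.c (c 3 4096 r r)
 (.c (c 2 4096 r r)
 (.c (c 3 4095 r r)
 (.c (c 2 4096 r r)
 (.c (c 2 4096 r r)
 (.c (c 2 4096 r (u 3 0 (k (t 7 1 r) r)))
 (.c (c 2 4096 r (u 3 0 (k (u 7 0 (k (c 15 4101 r (t 11 3 r)) r)) r)))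
 (.c (c 3 4100 r r)
 (.c (c 2 4096 r (u 3 0 (k (t 7 2 r) r)))
 (.c (c 2 4096 r (u 3 5 (k (t 7 1 (u 5 0 (k r r))) (k (t 7 2 r) (k (t 7 2 (u 5 0 (k (c 13 4097 r r) r))) (k (t 7 1 (u 5 0 (k (c 13 4100 r r) (k (c 13 4103 r r) (k (c 13 4100 r r) r))))) r))))))
 (.c (c 2 4096 r (u 3 0 (k (u 7 11 (k r (k r (k (c 5 4101 r (t 15 1 r)) r)))) r)))
 (.c (c 2 4096 r r)
 (.c (c 3 4095 r r)
 (.c (c 3 4097 r r)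
 (.c (c 3 4096 r r)
 (.c (c 3 4093 r r)
 (.c (t 3 1 (u 2 0 (k (c 6 4095 r r) r)))
 (.c (c 2 4096 r r)
 (.c (c 3 4097 r r)
 (.c (c 3 4096 r r)
 (.c (c 2 4096 r (u 3 0 (k (t 7 1 r) (k (t 7 1 r) (k (t 5 2 r) (k (t 5 1 r) r))))))
 (.c (c 2 4096 r (u 3 2 (k (t 5 1 r) (k (t 5 1 r) (k (t 7 1 r) (k (t 5 1 r) (k (t 5 2 r) (k (t 5 1 r) r))))))))
 (.c (c 3 4098 r r)
 (.c (c 3 4097 r r)
 (.c (t 3 1 (u 2 0 (k (t 4 1 (u 6 0 (k (c 14 4101 r r) r))) r)))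
 (.c (t 3 1 (u 2 0 (k (c 6 4095 r r) r)))
 (.c (c 3 4098 r r)
 (.c (c 3 4095 r r)
 (.c (t 3 1 (u 2 0 (k (c 6 4095 r r) r)))
 (.c (c 3 4095 r r)
 (.c (c 3 4096 r r)
 (.c (c 2 4096 r (u 3 1 (k r (k r (k r (k r (k (u 5 0 (k r (k (c 13 4099 r (u 9 0 (k r (k r r)))) r))) (k (t 5 1 (u 7 0 (k r r))) (k r (k (u 5 0 (k r (k (c 13 4099 r (u 9 0 (k r (k r r)))) r))) (k r r)))))))))))
 (.c (c 3 4096 r r)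
 .z)))))))))))))))))))))))))))))))))))))))))))))))))))))))))))))))))))))))))))))))))))))))))))))))))))))))))))))))))))))))))))))))))))))))))))))))))))))))))))))))))))))))

set_option maxRecDepth 100000 in
def R167 : PR :=
 (.t 87 (.t 35 (.t 157 (.c (t 3 1 (t 2 5 v))
 (.c (t 2 2 (t 3 1 v))
 (.c (t 2 2 (t 3 3 v))
 (.c (t 2 2 (t 3 1 v))
 (.c (t 2 3 (t 3 1 v))
 (.c (c 2 4099 r (t 3 3 v))
 (.c (t 2 2 (t 3 3 v))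
 (.c (c 2 4099 r (t 3 3 v))
 (.c (c 2 4099 r (t 3 1 v))
 (.c (c 2 4099 r (t 3 1 v))
 (.c (t 2 2 (t 3 3 v))
 (.c (t 2 2 (t 3 3 v))
 (.c (c 2 4099 r (t 3 1 v))
 (.c (t 2 2 (u 3 0 (k v (k v r))))
 (.c (t 2 2 (u 3 1 (k v (k v r))))
 (.c (t 3 1 (t 2 5 v))
 (.c (t 3 1 (t 2 5 v))
 (.c (t 2 2 (u 3 0 (k (u 5 0 (k v (k v r))) r)))
 (.c (t 3 1 (t 2 3 v))
 (.c (t 2 4 (t 3 3 v))
 (.c (t 3 1 (t 2 2 v))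
 (.c (t 2 2 (u 3 3 (k v (k v r))))
 (.c (t 3 1 (t 2 2 v))
 (.c (t 3 1 (t 2 2 v))
 (.c (c 2 4099 r (t 3 3 v))
 (.c (t 2 2 r)
 (.c (c 2 4099 r (t 3 1 v))
 (.c (t 2 2 (u 3 0 (k (u 5 1 (k v (k v r))) r)))
 (.c (t 2 2 (t 3 3 v))
 (.c (c 2 4099 r (t 3 5 v))
 (.c (c 2 4099 r (t 3 3 v))
 (.c (t 2 2 (u 3 0 (k (t 5 3 (t 7 1 v)) r)))
 (.c (c 2 4099 r (t 3 3 v))
 (.c (c 2 4099 r r)
 (.c (t 2 2 r)
 (.c (c 2 4099 r (u 3 0 (k r r)))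
 (.c (t 2 2 r)
 (.c (c 2 4099 r (t 3 1 v))
 (.c (c 2 4099 r (u 3 0 (k (t 7 1 r) r)))
 (.c (c 2 4099 r (t 3 3 v))
 (.c (t 3 6 (t 2 2 v))
 (.c (t 2 2 (u 3 1 (k v (k v r))))
 (.c (t 2 2 r)
 (.c (t 3 2 (t 2 5 v))
 (.c (t 3 1 (t 2 5 v))
 (.c (t 2 2 r)
 (.c (t 3 1 (t 2 3 v))
 (.c (t 2 2 r)
 (.c (c 2 4099 r r)
 (.c (t 2 2 r)
 (.c (t 2 2 (t 3 1 v))
 (.c (t 2 2 r)
 (.c (t 3 1 (t 2 5 v))
 (.c (c 2 4099 r r)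
 (.c (t 3 3 (t 2 5 v))
 (.c (t 2 2 r)
 (.c (t 2 2 r)
 (.c (t 2 2 (t 3 1 v))
 (.c (t 3 3 (t 2 2 v))
 (.c (t 3 2 (t 2 2 v))
 (.c (t 3 1 (t 2 5 v))
 (.c (t 2 2 (u 3 5 (k v (k v r))))
 (.c (c 2 4099 r r)
 (.c (t 2 2 (u 3 0 (k (t 7 2 r) r)))
 (.c (c 2 4099 r (t 3 3 v))
 (.c (c 2 4099 r (u 3 0 (k (t 7 2 r) r)))
 (.c (t 2 2 (u 3 0 (k v (k v r))))
 (.c (t 2 4 (u 3 0 (k (t 7 3 r) r)))
 (.c (t 2 4 r)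
 (.c (t 2 2 (t 3 2 v))
 (.c (t 2 2 r)
 (.c (t 3 1 (t 2 2 v))
 (.c (t 2 2 (u 3 0 (k (u 5 0 (k v (k v r))) r)))
 (.c (t 2 2 (u 3 4 (k v (k v r))))
 (.c (t 2 2 r)
 (.c (c 2 4099 r (u 3 0 (k (t 7 2 r) r)))
 (.c (t 3 1 (t 2 3 v))
 (.c (c 2 4099 r r)
 (.c (t 2 2 (u 3 0 (k v (k r r))))
 (.c (t 2 2 (u 3 0 (k r r)))
 (.c (t 3 2 (t 2 5 v))
 (.c (c 2 4099 r (u 3 1 (k v (k v r))))
 (.c (t 3 1 (t 2 5 v))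
 (.c (t 2 2 (u 3 0 (k (u 5 0 (k v (k r r))) r)))
 (.c (t 2 2 r)
 (.c (t 3 1 (t 2 5 v))
 (.c (t 2 2 (u 3 1 (k v (k v r))))
 (.c (c 2 4099 r r)
 (.c (t 2 2 r)
 (.c (t 2 2 r)
 (.c (t 2 2 r)
 (.c (t 3 1 (t 2 3 v))
 (.c (t 3 1 (t 2 5 v))
 (.c (t 2 1 (t 3 1 v))
 (.c (c 2 4099 r (u 3 0 (k r (k r (k r r)))))
 (.c (t 3 2 (t 2 2 v))
 (.c (t 2 2 r)
 (.c (t 2 2 r)
 (.c (t 2 2 r)
 (.c (t 2 2 (t 3 3 v))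
 (.c (c 2 4099 r (u 3 0 (k (t 7 2 r) r)))
 (.c (t 2 2 r)
 (.c (t 3 3 (t 2 2 v))
 (.c (c 2 4099 r r)
 (.c (c 2 4099 r r)
 (.c (c 2 4099 r r)
 (.c (c 2 4099 r r)
 (.c (t 3 6 (t 2 2 v))
 (.c (t 3 1 (t 2 2 v))
 (.c (c 2 4099 r r)
 (.c (c 2 4099 r r)
 (.c (t 2 2 r)
 (.c (c 2 4099 r r)
 (.c (t 3 1 (t 2 2 v))
 (.c (t 3 1 (t 2 5 v))
 (.c (c 2 4099 r (u 3 0 (k (t 7 1 r) r)))
 (.c (c 2 4099 r r)
 (.c (t 3 3 (t 2 2 v))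
 (.c (t 2 2 r)
 (.c (t 2 2 (t 3 3 v))
 (.c (t 2 2 r)
 (.c (t 3 2 (t 2 5 v))
 (.c (t 2 2 r)
 (.c (t 2 2 r)
 (.c (t 3 2 (t 2 5 v))
 (.c (t 3 1 (t 2 5 v))
 (.c (t 2 2 (u 3 0 (k r r)))
 (.c (t 2 2 r)
 (.c (c 2 4099 r r)
 (.c (t 3 1 (t 2 5 v))
 (.c (c 2 4099 r r)
 (.c (c 2 4099 r r)
 (.c (t 3 1 (t 2 5 v))
 (.c (c 2 4099 r r)
 (.c (c 2 4099 r r)
 (.c (t 3 1 (t 2 5 v))
 (.c (c 2 4099 r (u 3 0 (k (t 7 1 r) r)))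
 (.c (c 2 4099 r (u 3 0 (k (u 7 0 (k (c 15 4101 r (t 11 3 r)) r)) r)))
 (.c (t 3 6 (t 2 2 v))
 (.c (t 3 2 (t 2 5 v))
 (.c (t 3 2 (t 2 5 v))
 (.c (c 2 4099 r (u 3 0 (k (u 7 11 (k r (k r (k (c 5 4101 r (t 15 1 r)) r)))) r)))
 (.c (t 3 3 (t 2 2 v))
 (.c (c 2 4099 r r)
 (.c (c 2 4099 r (u 3 0 (k (u 7 0 (k r (k r (k r (k r (k r (k r r))))))) (k r (k r (k (t 5 2 (u 7 0 (k r r))) (k r (k r (k r (k (u 7 1 (k r (k (c 15 4097 r (u 11 0 (k r (k r r)))) r))) (k r (k (t 7 2 r) (k r (k r (k r (k r (k r r)))))))))))))))))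
 (.c (t 2 2 r)
 (.c (c 2 4099 r (u 3 0 (k (c 7 4097 r r) r)))
 (.c (t 3 1 (t 2 5 v))
 (.c (c 2 4099 r r)
 (.c (t 3 2 (t 2 5 v))
 (.c (t 3 2 (t 2 5 v))
 (.c (c 2 4099 r (u 3 0 (k (t 7 1 r) (k (t 7 1 r) (k (t 5 2 r) (k (t 5 1 r) r))))))
 (.c (t 3 1 (t 2 5 v))
 (.c (c 2 4099 r r)
 (.c (c 2 4099 r (u 3 0 (k (t 7 2 r) r)))
 (.c (t 2 2 r)
 (.c (t 3 1 (t 2 5 v))
 (.c (t 3 3 (t 2 3 v))
 (.c (t 2 2 r)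
 (.c (t 3 1 (t 2 5 v))
 (.c (t 3 1 (t 2 3 v))
 (.c (t 2 4 (u 3 0 (k (t 5 2 (u 7 0 (k (c 15 4101 r r) r))) r)))
 (.c (t 2 4 r)
 (.c (t 2 4 (u 3 0 (k (t 5 1 (u 7 0 (k (c 15 4101 r r) r))) r)))
 (.c (t 2 2 (t 3 3 v))
 .z))))))))))))))))))))))))))))))))))))))))))))))))))))))))))))))))))))))))))))))))))))))))))))))))))))))))))))))))))))))))))))))))))))))))))))))))))))))))))))))))))))))))

set_option maxRecDepth 100000 in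
def R168 : PR :=
 (.c r
 (.c r
 (.t 87 (.c (t 3 1 (t 2 5 v))
 (.c (c 3 4101 r r)
 (.c (c 3 4100 r r)
 (.c (c 3 4100 r r)
 (.c (c 3 4099 r r)
 (.c (c 3 4099 r r)
 (.c (c 3 4099 r r)
 (.c (c 3 4099 r r)
 (.c (c 2 4100 r (t 3 1 v))
 (.c (c 2 4100 r (t 3 1 v))
 (.c (t 2 1 (t 3 3 v))
 (.c (t 2 3 (t 3 3 v))
 (.c (c 2 4100 r (t 3 1 v))
 (.c (c 3 4097 r r)
 (.c (c 3 4097 r r)
 (.c (t 3 1 (t 2 5 v))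
 (.c (t 3 1 (t 2 5 v))
 (.c (c 3 4096 r r)
 (.c (c 3 4095 r r)
 (.c (c 3 4099 r r)
 (.c (c 3 4104 r r)
 (.c (t 2 6 (u 3 3 (k v (k v r))))
 (.c (c 3 4098 r r)
 (.c (c 3 4098 r r)
 (.c (c 2 4100 r (t 3 3 v))
 (.c (c 3 4097 r r)
 (.c (c 2 4100 r (t 3 1 v))
 (.c (c 3 4097 r r)
 (.c (c 3 4097 r r)
 (.c (c 2 4100 r (t 3 5 v))
 (.c (t 3 6 (t 2 3 v))
 (.c (c 3 4096 r r)
 (.c (c 3 4102 r r)
 (.c (c 3 4102 r r)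
 (.c (c 3 4096 r r)
 (.c (c 2 4100 r (u 3 0 (k r r)))
 (.c (c 3 4101 r r)
 (.c (c 2 4100 r (t 3 1 v))
 (.c (c 2 4100 r (u 3 0 (k (t 7 1 r) r)))
 (.c (c 2 4100 r (t 3 3 v))
 (.c (c 3 4100 r r)
 (.c (c 3 4100 r r)
 (.c (c 3 4100 r r)
 (.c (t 3 2 (t 2 5 v))
 (.c (t 3 1 (t 2 5 v))
 (.c (c 3 4099 r r)
 (.c (c 3 4098 r r)
 (.c (c 3 4098 r r)
 (.c (t 3 1 (t 2 3 v))
 (.c (c 3 4097 r r)
 (.c (c 3 4097 r r)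
 (.c (c 3 4097 r r)
 (.c (c 3 4097 r r)
 (.c (c 3 4097 r r)
 (.c (c 3 4096 r r)
 (.c (c 3 4096 r r)
 (.c (c 3 4095 r r)
 (.c (c 3 4095 r r)
 (.c (c 3 4098 r r)
 (.c (c 3 4095 r r)
 (.c (c 3 4095 r r)
 (.c (c 3 4095 r r)
 (.c (c 3 4096 r r)
 (.c (c 3 4099 r r)
 (.c (c 2 4100 r (t 3 3 v))
 (.c (c 3 4098 r r)
 (.c (t 2 6 r)
 (.c (c 3 4099 r r)
 (.c (c 3 4099 r r)
 (.c (c 3 4102 r r)
 (.c (c 3 4102 r r)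
 (.c (c 3 4099 r r)
 (.c (t 2 1 (u 3 0 (k (u 5 0 (k v (k v r))) r)))
 (.c (c 3 4101 r r)
 (.c (c 3 4101 r r)
 (.c (c 3 4101 r r)
 (.c (c 3 4095 r r)
 (.c (c 3 4101 r r)
 (.c (c 3 4101 r r)
 (.c (c 3 4101 r r)
 (.c (c 3 4097 r r)
 (.c (c 3 4100 r r)
 (.c (t 2 6 r)
 (.c (c 3 4100 r r)
 (.c (c 3 4099 r r)
 (.c (c 3 4099 r r)
 (.c (c 3 4099 r r)
 (.c (c 3 4095 r r)
 (.c (c 3 4098 r r)
 (.c (c 3 4098 r r)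
 (.c (c 3 4098 r r)
 (.c (c 3 4097 r r)
 (.c (c 3 4096 r r)
 (.c (c 3 4096 r r)
 (.c (c 3 4095 r r)
 (.c (c 3 4095 r r)
 (.c (c 3 4095 r r)
 (.c (c 3 4095 r r)
 (.c (c 3 4100 r r)
 (.c (c 3 4100 r r)
 (.c (c 3 4097 r r)
 (.c (c 3 4099 r r)
 (.c (t 3 3 (t 2 3 v))
 (.c (c 3 4104 r r)
 (.c (c 3 4104 r r)
 (.c (t 3 1 (t 2 5 v))
 (.c (t 2 6 r)
 (.c (c 3 4104 r r)
 (.c (c 3 4097 r r)
 (.c (c 3 4100 r r)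
 (.c (c 3 4100 r r)
 (.c (c 3 4097 r r)
 (.c (c 3 4100 r r)
 (.c (c 3 4096 r r)
 (.c (c 3 4096 r r)
 (.c (c 3 4102 r r)
 (.c (c 3 4102 r r)
 (.c (c 3 4102 r r)
 (.c (c 3 4101 r r)
 (.c (c 3 4101 r r)
 (.c (c 3 4101 r r)
 (.c (c 3 4097 r r)
 (.c (c 3 4100 r r)
 (.c (c 3 4099 r r)
 (.c (c 3 4096 r r)
 (.c (c 3 4099 r r)
 (.c (c 3 4099 r r)
 (.c (c 3 4097 r r)
 (.c (c 3 4097 r r)
 (.c (c 3 4097 r r)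
 (.c (c 3 4096 r r)
 (.c (c 3 4096 r r)
 (.c (c 3 4101 r r)
 (.c (c 3 4095 r r)
 (.c (c 3 4100 r r)
 (.c (c 3 4100 r r)
 (.c (c 3 4097 r r)
 (.c (c 3 4097 r r)
 (.c (c 3 4100 r r)
 (.c (c 3 4096 r r)
 (.c (c 3 4099 r r)
 (.c (c 3 4098 r r)
 (.c (t 2 1 r)
 (.c (c 3 4095 r r)
 (.c (c 3 4097 r r)
 (.c (c 3 4096 r r)
 (.c (c 3 4093 r r)
 (.c (c 3 4099 r r)
 (.c (c 2 4100 r r)
 (.c (c 3 4097 r r)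
 (.c (c 3 4096 r r)
 (.c (c 3 4095 r r)
 (.c (c 3 4099 r r)
 (.c (c 3 4098 r r)
 (.c (c 3 4097 r r)
 (.c (c 3 4101 r r)
 (.c (c 3 4099 r r)
 (.c (c 3 4098 r r)
 (.c (c 3 4095 r r)
 (.c (c 3 4099 r r)
 (.c (c 3 4095 r r)
 (.c (c 3 4096 r r)
 (.c (c 3 4100 r r)
 (.c (c 3 4096 r r)
 (.c (c 3 4099 r r)
 (.c (c 2 4100 r r)
 .z)))))))))))))))))))))))))))))))))))))))))))))))))))))))))))))))))))))))))))))))))))))))))))))))))))))))))))))))))))))))))))))))))))))))))))))))))))))))))))))))))))))))))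

end Pool.Agent.Helper91.ND1
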