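import Pool.Agent.Helper66.ND.Defs

/-! part of the certificate for the constant 25/48 (generated) -/

namespace Pool.Agent.Helper91.ND1

open Pool.Agent.Helper66.IL
open Pool.Agent.Helper66.ND
open Pool.Agent.Helper66.ND.LT
open Pool.Agent.Helper66.ND.Ct

set_option maxRecDepth 100000 in
def R78 : PR :=
 (.c (u 2 0 (k (t 6 2 r) r))
 (.c (u 2 0 (k (t 6 2 r) r))
 (.t 52 (.c (t 3 1 (u 2 0 (k (c 4 4100 r (t 6 3 v)) r)))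
 (.c (c 3 4101 r (u 2 0 (k (t 6 2 r) r)))
 (.c (c 3 4100 r (u 2 0 (k (t 6 2 r) r)))
 (.c (c 3 4100 r (u 2 0 (k (t 6 2 r) r)))
 (.c (c 3 4099 r (u 2 0 (k (t 6 2 r) r)))
 (.c (c 2 4101 r (t 3 3 v))
 (.c (c 3 4099 r (u 2 0 (k (t 6 2 r) r)))
 (.c (c 2 4101 r (t 3 3 v))
 (.c (c 2 4101 r (t 3 1 v))
 (.c (c 2 4101 r (t 3 1 v))
 (.c (t 2 1 (t 3 3 v))
 (.c (t 2 1 (t 3 3 v))
 (.c (c 2 4101 r (t 3 1 v))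
 (.c (c 3 4097 r (u 2 0 (k (t 6 2 r) r)))
 (.c (c 3 4097 r (u 2 0 (k (t 6 2 r) r)))
 (.c (t 2 3 (t 3 3 v))
 (.c (t 2 3 (t 3 3 v))
 (.c (c 3 4096 r (u 2 0 (k (t 6 2 r) r)))
 (.c (c 3 4095 r (u 2 0 (k (t 6 2 r) r)))
 (.c (c 3 4099 r (u 2 0 (k (t 6 2 r) r)))
 (.c (c 3 4104 r (u 2 0 (k (t 6 2 r) r)))
 (.c (c 3 4104 r (u 2 0 (k (t 6 2 r) r)))
 (.c (c 3 4098 r (u 2 0 (k (t 6 2 r) r)))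
 (.c (c 3 4098 r (u 2 0 (k (t 6 2 r) r)))
 (.c (c 2 4101 r (t 3 3 v))
 (.c (c 3 4097 r (u 2 0 (k (t 6 2 r) r)))
 (.c (c 2 4101 r (t 3 1 v))
 (.c (c 3 4097 r (u 2 0 (k (t 6 2 r) r)))
 (.c (c 3 4097 r (u 2 0 (k (t 6 2 r) r)))
 (.c (c 2 4101 r (t 3 5 v))
 (.c (c 2 4101 r (t 3 3 v))
 (.c (c 3 4096 r (u 2 0 (k (t 6 2 r) r)))
 (.c (c 2 4101 r (t 3 3 v))
 (.c (c 2 4101 r r)
 (.c (c 3 4096 r (u 2 0 (k (t 6 2 r) r)))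
 (.c (c 2 4101 r (u 3 0 (k r r)))
 (.c (c 3 4101 r (u 2 0 (k (t 6 2 r) r)))
 (.c (c 2 4101 r (t 3 1 v))
 (.c (c 2 4101 r (u 3 0 (k (t 7 1 r) r)))
 (.c (c 2 4101 r (t 3 3 v))
 (.c (c 3 4100 r (u 2 0 (k (t 6 2 r) r)))
 (.c (c 3 4100 r (u 2 0 (k (t 6 2 r) r)))
 (.c (c 3 4100 r (u 2 0 (k (t 6 2 r) r)))
 (.c (c 3 4105 r (u 2 0 (k (t 6 2 r) r)))
 (.c (t 2 3 r)
 (.c (c 3 4099 r (u 2 0 (k (t 6 2 r) r)))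
 (.c (c 3 4098 r (u 2 0 (k (t 6 2 r) r)))
 (.c (c 3 4098 r (u 2 0 (k (t 6 2 r) r)))
 (.c (c 2 4101 r r)
 (.c (c 3 4097 r (u 2 0 (k (t 6 2 r) r)))
 (.c (c 3 4097 r (u 2 0 (k (t 6 2 r) r)))
 (.c (c 3 4097 r (u 2 0 (k (t 6 2 r) r)))
 (.c (t 2 3 r)
 (.c (c 2 4101 r r)
 (.c (c 3 4096 r (u 2 0 (k (t 6 2 r) r)))
 (.c (c 3 4096 r (u 2 0 (k (t 6 2 r) r)))
 (.c (c 3 4095 r (u 2 0 (k (t 6 2 r) r)))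
 (.c (c 3 4095 r (u 2 0 (k (t 6 2 r) r)))
 (.c (c 3 4098 r (u 2 0 (k (t 6 2 r) r)))
 (.c (c 3 4095 r (u 2 0 (k (t 6 2 r) r)))
 (.c (c 3 4095 r (u 2 0 (k (t 6 2 r) r)))
 (.c (c 3 4095 r (u 2 0 (k (t 6 2 r) r)))
 (.c (c 3 4096 r (u 2 0 (k (t 6 2 r) r)))
 (.c (c 3 4099 r (u 2 0 (k (t 6 2 r) r)))
 (.c (c 2 4101 r (t 3 3 v))
 (.c (c 2 4101 r (u 3 0 (k (t 7 2 r) r)))
 (.c (c 3 4103 r (u 2 0 (k (t 6 2 r) r)))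
 (.c (c 3 4099 r (u 2 0 (k (t 6 2 r) r)))
 (.c (c 3 4099 r (u 2 0 (k (t 6 2 r) r)))
 (.c (c 3 4102 r (u 2 0 (k (t 6 2 r) r)))
 (.c (c 3 4102 r (u 2 0 (k (t 6 2 r) r)))
 (.c (c 3 4099 r (u 2 0 (k (t 6 2 r) r)))
 (.c (c 3 4102 r (u 2 0 (k (t 6 2 r) r)))
 (.c (c 3 4101 r (u 2 0 (k (t 6 2 r) r)))
 (.c (c 3 4101 r (u 2 0 (k (t 6 2 r) r)))
 (.c (c 2 4101 r (u 3 0 (k (t 7 2 r) r)))
 .z)))))))))))))))))))))))))))))))))))))))))))))))))))))))))))))))))))))))))))))))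

set_option maxRecDepth 100000 in
def R79 : PR :=
 (.t 0 (.t 0 (.c (c 2 4095 r (t 3 1 v))
 (.c (c 2 4095 r (t 3 1 v))
 (.c (t 2 1 (t 3 1 v))
 (.c (t 2 1 (t 3 3 v))
 (.c (t 2 1 (t 3 1 v))
 (.t 12 (.c (c 2 4095 r (t 3 3 v))
 (.c (t 2 1 (t 3 3 v))
 (.c (c 2 4095 r (t 3 3 v))
 (.c (c 2 4095 r (t 3 1 v))
 (.c (c 2 4095 r (t 3 1 v))
 (.c (c 2 4095 r (t 3 2 v))
 (.t 115 (.c (c 2 4095 r (t 3 1 v))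
 (.c (t 2 1 (u 3 0 (k v (k v r))))
 (.c (t 2 1 (u 3 1 (k v (k v r))))
 (.c (c 2 4095 r (t 3 1 v))
 (.c (c 2 4095 r (t 3 1 v))
 (.c (c 2 4095 r (t 3 2 v))
 (.c (c 2 4095 r (t 3 1 v))
 (.c (t 2 2 (t 3 3 v))
 (.c (c 2 4095 r (t 3 3 v))
 (.c (t 2 1 (u 3 3 (k v (k v r))))
 (.c (c 2 4095 r (t 3 3 v))
 (.c (t 2 1 (u 3 0 (k (t 7 1 (t 5 3 v)) r)))
 (.c (c 2 4095 r (t 3 3 v))
 (.c (t 2 1 r)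
 (.c (c 2 4095 r (t 3 1 v))
 (.c (t 2 1 (u 3 0 (k (u 5 1 (k v (k v r))) r)))
 (.c (t 3 3 (u 2 0 (k (t 6 1 (u 4 12 (k v (k v (k (t 12 1 (u 8 1 (k v (k v r)))) r))))) (k (u 4 11 (k v (k (t 12 3 (u 8 1 (k v (k v r)))) r))) (k r (k r r))))))
 (.c (c 2 4095 r (t 3 5 v))
 (.c (c 2 4095 r (t 3 3 v))
 (.c (t 2 1 (u 3 0 (k (t 5 3 (t 7 1 v)) r)))
 (.c (c 2 4095 r (t 3 3 v))
 (.c (c 2 4095 r r)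
 (.c (t 2 1 r)
 (.c (c 2 4095 r (u 3 0 (k r r)))
 (.c (t 2 1 r)
 (.c (c 2 4095 r (t 3 1 v))
 (.c (c 2 4095 r (u 3 0 (k (t 7 1 r) r)))
 (.c (c 2 4095 r (t 3 3 v))
 (.c (t 2 1 (t 3 6 v))
 (.c (t 2 1 (u 3 1 (k v (k v r))))
 (.c (t 2 1 r)
 (.c (t 3 2 r)
 (.c (t 3 1 r)
 (.c (t 2 1 r)
 (.c (c 2 4095 r (t 3 1 v))
 (.c (t 2 1 r)
 (.c (c 2 4095 r r)
 (.c (t 2 1 r)
 (.c (c 2 4095 r (t 3 1 v))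
 (.c (t 2 1 r)
 (.c (t 3 1 r)
 (.c (c 2 4095 r r)
 (.c (c 2 4095 r r)
 (.c (c 2 4095 r (t 3 1 v))
 (.c (c 2 4095 r r)
 (.c (c 2 4095 r r)
 (.c (c 2 4095 r r)
 (.c (c 2 4095 r r)
 (.c (c 2 4095 r (t 3 1 v))
 (.c (c 2 4095 r r)
 (.c (c 2 4095 r r)
 (.c (c 2 4095 r (u 3 0 (k (t 7 2 r) r)))
 (.c (c 2 4095 r (t 3 3 v))
 (.c (c 2 4095 r (u 3 0 (k (t 7 2 r) r)))
 (.t 121 (.c (c 2 4095 r r)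
 (.c (c 2 4095 r r)
 (.c (t 2 1 (t 3 2 v))
 (.c (t 2 1 r)
 (.c (t 2 1 (t 3 1 v))
 (.c (t 2 1 (u 3 0 (k (u 5 0 (k v (k v r))) r)))
 (.c (c 2 4095 r r)
 (.c (c 2 4095 r r)
 (.c (c 2 4095 r (u 3 0 (k (t 7 2 r) r)))
 (.c (t 2 1 r)
 .z))))))))))))))))))))))))))))))))))))))))))))))))))))))))))))))))))))))))))))))))

set_option maxRecDepth 100000 in
def R80 : PR :=
 (.c r
 (.c r
 (.t 87 (.t 92 (.c (c 3 4101 r r)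
 (.c (c 3 4100 r r)
 (.c (c 3 4100 r r)
 (.c (c 3 4099 r r)
 (.c (c 2 4101 r (t 3 3 v))
 (.c (c 3 4099 r r)
 (.c (c 2 4101 r (t 3 3 v))
 (.c (c 2 4101 r (t 3 1 v))
 (.c (c 2 4101 r (t 3 1 v))
 (.c (t 2 1 (t 3 3 v))
 (.c (t 3 3 r)
 (.c (c 2 4101 r (t 3 1 v))
 (.c (c 3 4097 r r)
 (.c (c 3 4097 r r)
 (.c (t 2 3 (t 3 3 v))
 (.c (t 2 3 (t 3 3 v))
 (.c (c 3 4096 r r)
 (.c (c 3 4095 r r)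
 (.c (c 3 4099 r r)
 (.c (c 3 4104 r r)
 (.c (t 2 1 (u 3 3 (k v (k v r))))
 (.c (t 2 3 (t 3 3 v))
 (.c (c 3 4098 r r)
 (.c (c 2 4101 r (t 3 3 v))
 (.c (c 3 4097 r r)
 (.c (c 2 4101 r (t 3 1 v))
 (.c (c 3 4097 r r)
 (.c (c 3 4097 r r)
 (.c (c 2 4101 r (t 3 5 v))
 (.c (c 2 4101 r (t 3 3 v))
 (.c (c 3 4096 r r)
 (.c (c 2 4101 r (t 3 3 v))
 (.c (c 2 4101 r r)
 (.c (c 3 4096 r r)
 (.c (c 2 4101 r (u 3 0 (k r r)))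
 (.c (c 3 4101 r r)
 (.c (c 2 4101 r (t 3 1 v))
 (.c (c 2 4101 r (u 3 0 (k (t 7 1 r) r)))
 (.c (c 2 4101 r (t 3 3 v))
 (.c (c 3 4100 r r)
 (.c (c 3 4100 r r)
 (.c (c 3 4100 r r)
 (.c (t 2 3 (u 3 0 (k (t 5 3 (t 7 3 v)) r)))
 (.c (t 2 3 r)
 (.c (c 3 4099 r r)
 (.c (c 3 4098 r r)
 (.c (c 3 4098 r r)
 (.c (c 3 4098 r r)
 (.c (c 3 4097 r r)
 (.c (c 3 4097 r r)
 (.c (c 3 4097 r r)
 (.c (c 3 4097 r r)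
 (.c (c 3 4097 r r)
 (.c (c 3 4096 r r)
 (.c (c 3 4096 r r)
 (.c (c 3 4095 r r)
 (.c (c 3 4095 r r)
 (.c (c 3 4098 r r)
 (.c (c 3 4095 r r)
 (.c (c 3 4095 r r)
 (.c (c 3 4095 r r)
 (.c (c 3 4096 r r)
 (.c (c 3 4099 r r)
 (.c (c 2 4101 r (t 3 3 v))
 (.c (c 3 4098 r r)
 (.c (t 2 3 r)
 (.c (c 3 4099 r r)
 (.c (c 3 4099 r r)
 (.c (c 3 4102 r r)
 (.c (c 3 4102 r r)
 (.c (c 3 4099 r r)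
 (.c (c 3 4102 r r)
 (.c (c 3 4101 r r)
 (.c (c 3 4101 r r)
 (.c (c 2 4101 r (u 3 0 (k (t 7 2 r) r)))
 (.c (c 3 4095 r r)
 (.c (c 3 4101 r r)
 .z)))))))))))))))))))))))))))))))))))))))))))))))))))))))))))))))))))))))))))))))))

set_option maxRecDepth 100000 in
def R81 : PR :=
 (.t 42 (.t 84 (.t 87 (.c (t 3 1 r)
 (.c (t 3 1 (u 2 0 (k v (k (u 4 7 (k v (k v (k v (k (c 12 4099 r (u 8 1 (k v (k v r)))) r))))) r))))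
 (.c (t 3 3 r)
 (.c (t 3 1 (u 2 0 (k v (k (u 4 7 (k v (k v (k v (k (c 12 4099 r (u 8 1 (k v (k v r)))) r))))) r))))
 (.t 113 (.c (c 2 4101 r (t 3 3 v))
 (.c (t 3 3 r)
 (.c (c 2 4101 r (t 3 3 v))
 (.c (c 2 4101 r (t 3 1 v))
 (.c (c 2 4101 r (t 3 1 v))
 (.t 89 (.t 42 (.c (c 2 4101 r (t 3 1 v))
 (.c (u 3 0 (k r (k r r)))
 (.c (u 3 5 (k r (k (u 2 0 (k v (k (u 4 1 (k v (k (c 12 4099 r (u 8 1 (k v (k v r)))) (k (u 8 0 (k v (k v r))) (k (c 8 4099 r (u 12 1 (k v (k v r)))) (k (c 8 4099 r (u 12 1 (k v (k v r)))) (k (c 8 4099 r (u 12 1 (k v (k v r)))) r))))))) r))) r)))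
 (.c (t 3 1 r)
 (.c (t 3 1 r)
 (.c (u 3 0 (k (u 2 1 (k (u 5 0 (k v (k v r))) (k (u 4 9 (k (u 5 0 (k v (k v r))) (k (u 5 0 (k v (k v r))) (k (t 12 2 (u 8 25 (k (u 5 0 (k v (k v r))) (k (u 5 0 (k v (k v r))) (k (c 2 4089 v (c 5 4097 r v)) r))))) (k (c 4 4097 r r) r))))) (k (c 6 4096 r r) r)))) r))
 (.c (t 3 1 (u 2 0 (k v (k r r))))
 (.c (t 2 2 (t 3 3 v))
 (.c (t 3 1 r)
 (.c (u 2 0 (k (u 3 3 (k v (k v r))) (k r r)))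
 (.c (t 3 2 (u 2 0 (k v (k r r))))
 (.c (t 3 2 (u 2 0 (k v (k r r))))
 (.c (c 2 4101 r (t 3 3 v))
 (.c (u 3 2 (k r (k (c 2 4101 r (u 5 1 (k v (k v r)))) r)))
 (.c (c 2 4101 r (t 3 1 v))
 (.c (u 2 0 (k (u 3 0 (k (u 5 1 (k v (k v r))) r)) (k (u 3 0 (k (u 4 14 (k (u 5 1 (k v (k v r))) (k (u 5 3 (k v (k v r))) (k (u 5 4 (k v (k v r))) (k (u 5 1 (k v (k v r))) r))))) r)) r)))
 (.c (t 3 2 r)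
 (.c (c 2 4101 r (t 3 5 v))
 (.c (c 2 4101 r (t 3 3 v))
 (.t 138 (.c (c 2 4101 r (t 3 3 v))
 (.c (c 2 4101 r r)
 (.t 87 (.c (c 2 4101 r (u 3 0 (k r r)))
 (.c (u 2 2 (k r (k r (k (t 6 2 r) r))))
 (.c (c 2 4101 r (t 3 1 v))
 (.c (c 2 4101 r (u 3 0 (k (t 7 1 r) r)))
 (.c (c 2 4101 r (t 3 3 v))
 (.c (t 3 6 r)
 (.t 142 (.c (u 2 0 (k r (k (u 4 1 (k r (k (c 12 4099 r r) (k (u 8 0 (k r (k r r))) (k (c 8 4099 r r) (k (c 8 4099 r r) (k (c 8 4099 r r) r))))))) r)))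
 (.c (t 3 2 r)
 (.c (t 3 1 r)
 (.c (u 2 1 (k r (k r (k (t 6 2 r) r))))
 (.c (t 3 1 (u 2 0 (k v (k r r))))
 (.c (t 3 1 (u 2 0 (k v (k r r))))
 (.c (c 2 4101 r r)
 (.c (u 3 1 (k r (k (c 7 4097 r (u 2 1 (k (u 5 0 (k v (k v r))) (k (u 5 0 (k r (k r r))) (k (c 6 4096 r r) r))))) r)))
 (.c (t 3 3 (u 2 2 (k v (k (u 4 1 (k v (k (c 12 4099 r (u 8 1 (k v (k v r)))) (k (u 8 0 (k v (k v r))) (k (c 8 4099 r (u 12 1 (k v (k v r)))) (k (c 8 4099 r (u 12 1 (k v (k v r)))) (k (c 8 4099 r (u 12 1 (k v (k v r)))) r))))))) (k (c 4 4100 r (u 6 0 (k (u 10 0 (k v (k v r))) r))) r)))))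
 (.c (u 2 2 (k (c 3 4097 r v) (k (u 4 1 (k r (k (c 12 4099 r (u 8 1 (k r (k r r)))) (k (u 8 0 (k r (k r r))) (k (c 8 4099 r (u 12 1 (k r (k r r)))) (k (c 8 4099 r (u 12 1 (k r (k r r)))) (k (c 8 4099 r (u 12 1 (k r (k r r)))) r))))))) (k (c 4 4100 r (u 6 0 (k (u 10 4 (k r (k r r))) r))) r))))
 (.c (t 3 1 r)
 (.c (c 2 4101 r r)
 (.c (t 2 2 r)
 (.c (u 2 2 (k r (k (u 4 9 (k r (k r (k r (k (c 4 4097 r (c 3 4096 r v)) r))))) (k (c 6 4096 r (u 4 1 (k r (k r r)))) r))))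
 (.c (u 2 0 (k r (k (u 3 1 (k r (k (t 5 1 (t 7 3 (u 4 7 (k v (k v (k v (k (c 12 4099 r (u 8 1 (k v (k v r)))) r))))))) r))) r)))
 (.c (t 3 1 r)
 (.c (t 3 3 r)
 (.c (t 3 2 r)
 (.c (t 3 1 r)
 (.c (u 3 4 (k r (k r (k r (k (t 7 1 (u 2 2 (k (c 3 4095 (c 2 4097 r v) v) (k (u 4 3 (k r (k r (k (u 5 71 (k (u 8 0 (k v (k v r))) (k (u 8 0 (k v (k v r))) (k (u 8 0 (k v (k v r))) r)))) (k (c 8 4099 r (u 12 1 (k r (k r r)))) (k (c 8 4099 r (u 12 1 (k r (k r r)))) (k (c 8 4099 r (u 12 1 (k r (k r r)))) r))))))) (k (c 4 4100 r r) r))))) r)))))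
 (.c (c 2 4101 r r)
 (.c (u 3 0 (k (t 7 2 (u 2 0 (k r (k (u 5 2 (k (u 4 1 (k v (k (c 12 4099 r (u 8 1 (k v (k v r)))) (k (u 8 23 (k v (k v r))) (k (c 8 4099 r (u 12 1 (k v (k v r)))) (k (c 8 4099 r (u 12 1 (k v (k v r)))) (k (c 8 4099 r (u 12 1 (k v (k v r)))) r))))))) (k (c 3 4082 r (c 4 4102 r v)) r))) r)))) r))
 (.c (c 2 4101 r (t 3 3 v))
 (.c (c 2 4101 r (u 3 0 (k (t 7 2 r) r)))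
 (.c (u 2 0 (k r (k (u 4 6 (k r (k r (k (u 3 0 (k r (k r r))) (k (t 8 1 r) (k (t 8 1 r) (k (t 8 1 r) r))))))) r)))
 (.c (t 3 2 r)
 (.c (t 2 2 r)
 (.c (t 3 2 r)
 (.c (u 2 0 (k r (k (u 4 6 (k r (k r (k (u 3 7 (k r (k r (k r (k (t 8 3 (t 7 1 r)) r))))) (k (t 8 1 r) (k (t 8 1 r) (k (t 8 1 r) r))))))) r)))
 (.c (u 2 1 (k (u 3 0 (k (t 7 1 r) r)) (k (u 4 7 (k (u 3 0 (k (t 7 1 r) r)) (k (u 3 0 (k (t 7 1 r) r)) (k (u 3 0 (k (t 7 2 r) r)) (k (c 12 4099 r (u 8 97 (k (u 3 0 (k (t 7 2 r) r)) (k (u 3 0 (k (t 7 2 r) r)) (k (u 3 0 (k (t 7 2 r) r)) r))))) r))))) (k (c 4 4100 r r) r))))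
 (.c (u 3 0 (k (u 5 0 (k r (k r r))) r))
 (.c (u 3 5 (k r (k (c 2 4101 r v) (k (t 5 1 (u 7 2 (k r (k r r)))) r))))
 (.c (u 3 1 (k r (k (t 7 2 r) (k (c 2 4101 r (u 5 0 (k r r))) r))))
 (.c (c 2 4101 r (u 3 0 (k (t 7 2 r) r)))
 (.c (t 3 1 (u 2 0 (k v (k r r))))
 (.c (c 2 4101 r r)
 (.c (u 2 7 (k r (k r (k (c 6 4096 r (u 4 1 (k r (k r r)))) r))))
 .z))))))))))))))))))))))))))))))))))))))))))))))))))))))))))))))))))))))))))))))))))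

set_option maxRecDepth 100000 in
def R82 : PR :=
 (.c r
 (.c r
 (.t 87 (.c (t 2 4 (t 3 1 v))
 (.c (t 2 5 (t 3 1 v))
 (.c (c 3 4100 r r)
 (.c (t 2 5 (t 3 1 v))
 (.t 89 (.c (c 2 4101 r (t 3 3 v))
 (.c (c 3 4099 r r)
 (.c (c 2 4101 r (t 3 3 v))
 (.c (c 2 4101 r (t 3 1 v))
 (.c (c 2 4101 r (t 3 1 v))
 (.c (t 3 3 r)
 (.c (t 3 3 r)
 (.c (c 2 4101 r (t 3 1 v))
 (.c (c 3 4097 r r)
 (.c (c 3 4097 r r)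
 (.c (t 2 4 (t 3 1 v))
 (.c (t 2 5 (t 3 1 v))
 (.c (c 3 4096 r r)
 (.c (c 3 4095 r r)
 (.c (t 2 4 (t 3 3 v))
 (.c (t 2 2 (t 3 1 v))
 (.c (t 2 2 (u 3 3 (k v (k v r))))
 (.c (c 3 4098 r r)
 (.c (t 2 2 (u 3 0 (k (t 5 3 (t 7 1 v)) r)))
 (.c (c 3 4097 r r)
 (.c (c 3 4097 r r)
 (.c (c 3 4097 r r)
 (.c (c 3 4097 r r)
 (.c (c 3 4097 r r)
 (.c (c 2 4101 r (t 3 5 v))
 (.c (c 2 4101 r (t 3 3 v))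
 (.c (c 3 4096 r r)
 (.c (c 2 4101 r (t 3 3 v))
 (.c (c 2 4101 r r)
 (.c (c 3 4096 r r)
 (.c (c 2 4101 r (u 3 0 (k r r)))
 (.c (u 2 0 (k (u 3 46 (k r (k r (k (t 4 1 (u 5 0 (k (t 9 3 (t 13 1 v)) r))) (k (t 4 1 (u 5 0 (k (t 9 3 (t 13 1 v)) r))) (k (t 4 1 r) (k r r))))))) r))
 (.c (c 3 4095 r r)
 (.c (c 3 4095 r r)
 (.c (c 3 4095 r r)
 (.c (c 3 4100 r r)
 (.c (t 2 2 r)
 (.c (c 3 4100 r r)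
 (.c (t 2 5 (t 3 2 v))
 (.c (t 2 2 r)
 (.c (u 2 0 (k (u 4 0 (k (c 12 4099 r (u 3 2 (k r (k (c 7 4099 r (u 5 0 (k r (k r r)))) (k (u 5 1 (k r (k r r))) (k r (k (c 7 4097 r (u 5 1 (k r (k r r)))) (k (c 5 4095 r (u 7 1 (k r (k r r)))) r)))))))) r)) r))
 (.c (c 3 4098 r r)
 (.c (c 3 4098 r r)
 (.c (c 2 4101 r r)
 (.c (c 3 4097 r r)
 (.c (c 3 4097 r r)
 (.c (c 3 4097 r r)
 (.c (c 3 4097 r r)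
 (.c (c 2 4101 r r)
 (.c (c 3 4096 r r)
 (.c (c 3 4096 r r)
 (.c (c 3 4095 r r)
 (.c (c 3 4095 r r)
 (.c (c 3 4098 r r)
 (.c (c 3 4095 r r)
 (.c (c 3 4095 r r)
 (.c (c 3 4095 r r)
 (.c (c 3 4096 r r)
 (.c (t 2 2 (u 3 0 (k (t 7 2 r) r)))
 (.c (c 2 4101 r (t 3 3 v))
 (.c (c 2 4101 r (u 3 0 (k (t 7 2 r) r)))
 (.c (t 2 2 r)
 (.c (c 3 4099 r r)
 (.c (t 3 2 (t 2 1 v))
 (.c (t 3 2 (u 2 0 (k (u 4 0 (k (c 12 4099 r r) r)) r)))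
 (.c (t 2 2 r)
 (.c (c 3 4099 r r)
 (.c (u 3 0 (k (u 5 23 (k (u 2 0 (k (u 4 0 (k (c 12 4099 r r) r)) r)) (k (c 3 4094 v r) r))) r))
 (.c (t 2 2 r)
 (.c (t 2 2 r)
 (.c (c 2 4101 r (u 3 0 (k (t 7 2 r) r)))
 (.c (c 3 4095 r r)
 (.c (c 2 4101 r r)
 (.c (t 2 5 r)
 (.c (t 2 5 (u 3 0 (k (u 5 0 (k (c 13 4099 r r) r)) r)))
 .z)))))))))))))))))))))))))))))))))))))))))))))))))))))))))))))))))))))))))))))))))))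

set_option maxRecDepth 100000 in
def R83 : PR :=
 (.c (u 2 0 (k (t 6 3 r) r))
 (.c (u 2 0 (k (t 6 3 r) r))
 (.c (t 3 1 (u 2 0 (k (t 6 3 r) r)))
 (.c (c 2 4097 r (t 3 1 v))
 (.c (t 2 2 (t 3 1 v))
 (.c (t 2 2 (t 3 3 v))
 (.c (t 2 2 (t 3 2 v))
 (.c (t 3 1 (u 2 0 (k (t 6 3 r) r)))
 (.c (c 2 4097 r (t 3 3 v))
 (.c (c 3 4099 r (u 2 0 (k (t 6 3 r) r)))
 (.c (c 2 4097 r (t 3 3 v))
 (.c (c 2 4097 r (t 3 1 v))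
 (.c (c 2 4097 r (t 3 1 v))
 (.c (t 2 2 (t 3 3 v))
 (.c (t 3 2 (u 2 0 (k (t 6 3 r) r)))
 (.c (c 2 4097 r (t 3 1 v))
 (.c (c 3 4097 r (u 2 0 (k (t 6 3 r) r)))
 (.c (c 3 4097 r (u 2 0 (k (t 6 3 r) r)))
 (.c (c 2 4097 r (t 3 1 v))
 (.c (t 2 1 (t 3 1 v))
 (.c (c 3 4096 r (u 2 0 (k (t 6 3 r) r)))
 (.c (c 3 4095 r (u 2 0 (k (t 6 3 r) r)))
 (.c (t 2 2 (t 3 3 v))
 (.c (t 2 2 (t 3 3 v))
 (.c (t 2 2 (u 3 3 (k v (k v r))))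
 (.c (c 3 4098 r (u 2 0 (k (t 6 3 r) r)))
 (.c (t 3 1 (u 2 0 (k (t 6 3 r) r)))
 (.c (c 2 4097 r (t 3 3 v))
 (.c (c 3 4097 r (u 2 0 (k (t 6 3 r) r)))
 (.c (c 2 4097 r (t 3 1 v))
 (.c (c 3 4097 r (u 2 0 (k (t 6 3 r) r)))
 (.c (c 3 4097 r (u 2 0 (k (t 6 3 r) r)))
 (.c (c 2 4097 r (t 3 5 v))
 (.c (c 2 4097 r (t 3 3 v))
 (.c (c 3 4096 r (u 2 0 (k (t 6 3 r) r)))
 (.c (c 2 4097 r (t 3 3 v))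
 (.c (c 2 4097 r r)
 (.c (c 3 4096 r (u 2 0 (k (t 6 3 r) r)))
 (.c (c 2 4097 r (u 3 0 (k r r)))
 (.c (t 2 2 r)
 (.c (c 2 4097 r (t 3 1 v))
 (.c (c 2 4097 r (u 3 0 (k (t 7 1 r) r)))
 (.c (c 2 4097 r (t 3 3 v))
 (.c (t 3 6 (u 2 0 (k (t 6 3 r) r)))
 (.c (t 2 3 r)
 (.c (t 2 2 r)
 (.c (t 2 1 (t 3 2 v))
 (.c (t 3 1 (u 2 0 (k (t 6 3 r) r)))
 (.c (t 2 2 r)
 (.c (c 3 4098 r (u 2 0 (k (t 6 3 r) r)))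
 (.c (t 3 1 (u 2 0 (k (t 6 3 r) r)))
 (.c (c 2 4097 r r)
 (.c (c 3 4097 r (u 2 0 (k (t 6 3 r) r)))
 (.c (c 3 4097 r (u 2 0 (k (t 6 3 r) r)))
 (.c (c 3 4097 r (u 2 0 (k (t 6 3 r) r)))
 (.c (c 3 4097 r (u 2 0 (k (t 6 3 r) r)))
 (.c (t 2 2 (t 3 3 v))
 (.c (c 3 4096 r (u 2 0 (k (t 6 3 r) r)))
 (.c (c 3 4096 r (u 2 0 (k (t 6 3 r) r)))
 (.c (c 3 4095 r (u 2 0 (k (t 6 3 r) r)))
 (.c (c 3 4095 r (u 2 0 (k (t 6 3 r) r)))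
 (.c (t 2 2 (t 3 3 v))
 (.c (c 3 4095 r (u 2 0 (k (t 6 3 r) r)))
 (.c (c 3 4095 r (u 2 0 (k (t 6 3 r) r)))
 (.c (c 3 4095 r (u 2 0 (k (t 6 3 r) r)))
 (.c (c 2 4097 r r)
 (.c (c 2 4097 r (u 3 0 (k (t 7 2 r) r)))
 (.c (c 2 4097 r (t 3 3 v))
 (.c (c 2 4097 r (u 3 0 (k (t 7 2 r) r)))
 (.c (t 2 3 r)
 (.c (c 3 4099 r (u 2 0 (k (t 6 3 r) r)))
 (.c (t 3 2 (u 2 0 (k (t 6 3 r) r)))
 (.c (t 3 8 (u 2 0 (k (t 6 3 r) r)))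
 (.c (t 2 2 r)
 (.c (c 3 4099 r (u 2 0 (k (t 6 3 r) r)))
 (.c (t 3 2 (u 2 0 (k (t 6 3 r) r)))
 (.c (c 2 4097 r r)
 (.c (t 2 3 r)
 (.c (c 2 4097 r (u 3 0 (k (t 7 2 r) r)))
 (.c (c 3 4095 r (u 2 0 (k (t 6 3 r) r)))
 (.c (t 3 3 (u 2 0 (k (t 6 3 r) r)))
 (.c (t 2 2 r)
 (.c (c 2 4097 r r)
 (.c (c 2 4097 r (u 3 0 (k (t 7 3 r) r)))
 .z))))))))))))))))))))))))))))))))))))))))))))))))))))))))))))))))))))))))))))))))))))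

set_option maxRecDepth 100000 in
def R84 : PR :=
 (.c (u 2 1 (k v (k v r)))
 (.c (u 2 1 (k v (k v r)))
 (.c (t 3 1 (u 2 2 (k v (k v r))))
 (.c (c 2 4100 r (t 3 1 v))
 (.c (t 2 1 (t 3 1 v))
 (.c (c 3 4100 r (u 2 1 (k v (k v r))))
 (.c (t 2 1 (t 3 2 v))
 (.c (c 3 4099 r (u 2 1 (k v (k v r))))
 (.c (c 2 4100 r (t 3 3 v))
 (.c (c 3 4099 r (u 2 1 (k v (k v r))))
 (.c (c 2 4100 r (t 3 3 v))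
 (.c (c 2 4100 r (t 3 1 v))
 (.c (c 2 4100 r (t 3 1 v))
 (.c (t 2 1 (t 3 3 v))
 (.c (t 2 1 (t 3 3 v))
 (.c (c 2 4100 r (t 3 1 v))
 (.c (c 3 4097 r (u 2 1 (k v (k v r))))
 (.c (c 3 4097 r (u 2 1 (k v (k v r))))
 (.c (t 3 3 (u 2 3 (k v (k v r))))
 (.c (t 3 3 (u 2 3 (k v (k v r))))
 (.c (c 3 4096 r (u 2 1 (k v (k v r))))
 (.c (c 3 4095 r (u 2 1 (k v (k v r))))
 (.c (c 3 4099 r (u 2 1 (k v (k v r))))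
 (.c (t 2 1 (t 3 3 v))
 (.c (t 2 1 (u 3 3 (k v (k v r))))
 (.c (c 3 4098 r (u 2 1 (k v (k v r))))
 (.c (c 3 4098 r (u 2 1 (k v (k v r))))
 (.c (c 2 4100 r (t 3 3 v))
 (.c (c 3 4097 r (u 2 1 (k v (k v r))))
 (.c (c 2 4100 r (t 3 1 v))
 (.c (c 3 4097 r (u 2 1 (k v (k v r))))
 (.c (c 3 4097 r (u 2 1 (k v (k v r))))
 (.c (c 2 4100 r (t 3 5 v))
 (.c (c 2 4100 r (t 3 3 v))
 (.c (c 3 4096 r (u 2 1 (k v (k v r))))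
 (.c (c 2 4100 r (t 3 3 v))
 (.c (c 2 4100 r r)
 (.c (c 3 4096 r (u 2 1 (k v (k v r))))
 (.c (c 2 4100 r (u 3 0 (k r r)))
 (.c (t 2 1 r)
 (.c (c 2 4100 r (t 3 1 v))
 (.c (c 2 4100 r (u 3 0 (k (t 7 1 r) r)))
 (.c (c 2 4100 r (t 3 3 v))
 (.c (c 3 4100 r (u 2 1 (k v (k v r))))
 (.c (u 3 0 (k (u 2 4 (k v (k v r))) (k (u 2 2 (k v (k v r))) r)))
 (.c (c 3 4100 r (u 2 1 (k v (k v r))))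
 (.c (t 3 3 (u 2 3 (k v (k v r))))
 (.c (u 2 5 (k r (k r r)))
 (.c (c 3 4099 r (u 2 1 (k v (k v r))))
 (.c (c 3 4098 r (u 2 1 (k v (k v r))))
 (.c (c 3 4098 r (u 2 1 (k v (k v r))))
 (.c (c 2 4100 r r)
 (.c (c 3 4097 r (u 2 1 (k v (k v r))))
 (.c (c 3 4097 r (u 2 1 (k v (k v r))))
 (.c (c 3 4097 r (u 2 1 (k v (k v r))))
 (.c (c 3 4097 r (u 2 1 (k v (k v r))))
 (.c (c 2 4100 r r)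
 (.c (c 3 4096 r (u 2 1 (k v (k v r))))
 (.c (c 3 4096 r (u 2 1 (k v (k v r))))
 (.c (c 3 4095 r (u 2 1 (k v (k v r))))
 (.c (c 3 4095 r (u 2 1 (k v (k v r))))
 (.c (c 3 4098 r (u 2 1 (k v (k v r))))
 (.c (c 3 4095 r (u 2 1 (k v (k v r))))
 (.c (c 3 4095 r (u 2 1 (k v (k v r))))
 (.c (c 3 4095 r (u 2 1 (k v (k v r))))
 (.c (c 2 4100 r r)
 (.c (c 2 4100 r (u 3 0 (k (t 7 2 r) r)))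
 (.c (c 2 4100 r (t 3 3 v))
 (.c (c 2 4100 r (u 3 0 (k (t 7 2 r) r)))
 (.c (t 2 1 r)
 (.c (c 3 4099 r (u 2 1 (k v (k v r))))
 (.c (c 3 4099 r (u 2 1 (k v (k v r))))
 (.c (t 3 8 (u 2 2 (k v (k v r))))
 (.c (t 2 1 r)
 (.c (c 3 4099 r (u 2 1 (k v (k v r))))
 (.c (t 2 1 (u 3 0 (k (u 5 0 (k v (k v r))) r)))
 (.c (c 3 4101 r (u 2 1 (k v (k v r))))
 (.c (u 3 25 (k (u 2 4 (k v (k v r))) (k (u 2 2 (k v (k v r))) r)))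
 (.c (c 2 4100 r (u 3 0 (k (t 7 2 r) r)))
 (.c (c 3 4095 r (u 2 1 (k v (k v r))))
 (.c (c 2 4100 r r)
 (.c (c 3 4101 r (u 2 1 (k v (k v r))))
 (.c (c 2 4100 r r)
 (.c (c 3 4097 r (u 2 1 (k v (k v r))))
 (.c (c 3 4100 r (u 2 1 (k v (k v r))))
 .z)))))))))))))))))))))))))))))))))))))))))))))))))))))))))))))))))))))))))))))))))))))

set_option maxRecDepth 100000 in
def R85 : PR :=
 (.c r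
 (.c r
 (.c (t 3 1 r)
 (.c (t 3 1 r)
 (.c (t 2 1 (t 3 1 v))
 (.c (t 2 1 (t 3 3 v))
 (.c (t 2 1 (t 3 2 v))
 (.c (t 3 1 (u 2 1 (k v (k (t 6 1 r) (k (t 6 1 (c 3 4099 v (u 4 0 (k r r)))) r)))))
 (.c (c 2 4100 r (t 3 3 v))
 (.c (c 3 4099 r r)
 (.c (c 2 4100 r (t 3 3 v))
 (.c (c 2 4100 r (t 3 1 v))
 (.c (c 2 4100 r (t 3 1 v))
 (.c (t 2 1 (t 3 3 v))
 (.c (t 3 2 r)
 (.c (c 2 4100 r (t 3 1 v))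
 (.c (c 3 4097 r r)
 (.c (c 3 4097 r r)
 (.c (t 3 1 r)
 (.c (t 3 1 r)
 (.c (c 3 4096 r r)
 (.c (c 3 4095 r r)
 (.c (t 2 1 (t 3 3 v))
 (.c (t 2 1 (t 3 3 v))
 (.c (t 2 1 (u 3 3 (k v (k v r))))
 (.c (c 3 4098 r r)
 (.c (t 3 2 r)
 (.c (c 2 4100 r (t 3 3 v))
 (.c (c 3 4097 r r)
 (.c (c 2 4100 r (t 3 1 v))
 (.c (c 3 4097 r r)
 (.c (c 3 4097 r r)
 (.c (c 2 4100 r (t 3 5 v))
 (.c (c 2 4100 r (t 3 3 v))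
 (.c (c 3 4096 r r)
 (.c (c 2 4100 r (t 3 3 v))
 (.c (c 2 4100 r r)
 (.c (c 3 4096 r r)
 (.c (c 2 4100 r (u 3 0 (k r r)))
 (.c (t 2 1 r)
 (.c (c 2 4100 r (t 3 1 v))
 (.c (c 2 4100 r (u 3 0 (k (t 7 1 r) r)))
 (.c (c 2 4100 r (t 3 3 v))
 (.c (t 3 6 r)
 (.c (u 3 0 (k r (k r r)))
 (.c (t 2 1 r)
 (.c (t 3 2 r)
 (.c (t 3 1 r)
 (.c (t 2 1 r)
 (.c (c 3 4098 r r)
 (.c (t 3 1 r)
 (.c (t 3 1 r)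
 (.c (c 3 4097 r r)
 (.c (c 3 4097 r r)
 (.c (c 3 4097 r r)
 (.c (c 3 4097 r r)
 (.c (c 2 4100 r r)
 (.c (c 3 4096 r r)
 (.c (c 3 4096 r r)
 (.c (c 3 4095 r r)
 (.c (c 3 4095 r r)
 (.c (t 2 1 (t 3 3 v))
 (.c (c 3 4095 r r)
 (.c (c 3 4095 r r)
 (.c (c 3 4095 r r)
 (.c (c 3 4096 r r)
 (.c (t 2 1 r)
 (.c (c 2 4100 r (t 3 3 v))
 (.c (t 3 1 r)
 (.c (u 3 168 (k r (k r (k r r))))
 (.c (c 3 4099 r r)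
 (.c (t 3 1 r)
 (.c (t 2 1 (t 3 2 v))
 (.c (t 2 1 r)
 (.c (c 3 4099 r r)
 (.c (t 2 1 (u 3 0 (k (u 5 0 (k v (k v r))) r)))
 (.c (t 3 2 r)
 (.c (u 3 25 (k r (k r r)))
 (.c (c 2 4100 r (u 3 0 (k (t 7 2 r) r)))
 (.c (c 3 4095 r r)
 (.c (c 2 4100 r r)
 (.c (t 2 1 r)
 (.c (t 2 1 (t 3 1 v))
 (.c (c 3 4097 r r)
 (.c (t 3 1 r)
 (.c (u 2 5 (k r (k (t 6 1 (u 3 5 (k r (k (t 7 1 (u 4 23 (k r (k r r)))) r)))) r)))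
 .z))))))))))))))))))))))))))))))))))))))))))))))))))))))))))))))))))))))))))))))))))))))

set_option maxRecDepth 100000 in
def R86 : PR :=
 (.t 87 (.c (t 2 2 v)
 (.c (c 2 4100 r (t 3 1 v))
 (.c (c 2 4100 r (t 3 1 v))
 (.c (t 3 1 (u 2 0 (k r r)))
 (.c (t 3 3 r)
 (.c (t 3 1 (u 2 0 (k r r)))
 (.t 87 (.c (c 2 4100 r (t 3 3 v))
 (.c (t 3 3 (u 2 0 (k (u 4 0 (k v (k (u 8 7 (k v (k v (k v (k (c 24 4099 r (u 16 1 (k v (k v r)))) r))))) r))) r)))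
 (.c (c 2 4100 r (t 3 3 v))
 (.c (c 2 4100 r (t 3 1 v))
 (.c (c 2 4100 r (t 3 1 v))
 (.c (t 3 3 (u 2 0 (k (u 4 0 (k v (k r r))) r)))
 (.c (t 3 3 (u 2 0 (k (u 4 0 (k v (k r r))) r)))
 (.c (c 2 4100 r (t 3 1 v))
 (.c (u 3 0 (k (u 2 0 (k r r)) (k (u 2 0 (k r r)) r)))
 (.c (c 3 4097 r (t 2 2 v))
 (.c (c 2 4100 r (t 3 1 v))
 (.c (t 3 1 (u 2 0 (k (u 4 0 (k v (k r r))) r)))
 (.c (u 3 0 (k (u 2 0 (k (u 5 3 (k (u 4 0 (k v (k r r))) (k r (k (u 4 0 (k v (k (u 8 1 (k v (k (c 24 4099 r (u 16 1 (k v (k v r)))) (k (u 16 0 (k v (k v r))) (k (c 16 4099 r (u 24 1 (k v (k v r)))) (k (c 16 4099 r (u 24 1 (k v (k v r)))) (k (c 16 4099 r (u 24 1 (k v (k v r)))) r))))))) r))) r)))) r)) r))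
 (.c (c 3 4095 r (t 2 2 v))
 (.c (t 2 2 (t 3 3 v))
 (.c (t 3 1 r)
 (.c (u 3 2 (k (c 2 4100 r v) (k r r)))
 (.c (t 3 2 (u 2 0 (k (u 4 0 (k v (k r r))) r)))
 (.c (t 3 2 (u 2 0 (k (u 4 0 (k v (k r r))) r)))
 (.c (c 3 4097 r (t 2 2 v))
 (.c (u 3 2 (k r (k (c 2 4100 r (u 5 1 (k v (k v r)))) r)))
 (.c (c 3 4097 r (t 2 2 v))
 (.c (c 3 4097 r (t 2 2 v))
 (.c (t 3 2 r)
 (.c (c 2 4100 r (t 3 5 v))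
 (.c (c 2 4100 r (t 3 3 v))
 (.c (u 3 0 (k (t 5 3 (t 7 1 (u 2 0 (k (u 4 3 (k v (k (u 8 13 (k v (k v (k v (k (t 24 1 (u 16 8 (k v (k v (k v r))))) r))))) (k (c 12 4096 r (u 8 1 (k v (k v r)))) r)))) r)))) r))
 (.c (c 2 4100 r (t 3 3 v))
 (.c (c 2 4100 r r)
 (.c (u 3 2 (k (u 2 0 (k r r)) (k (u 2 0 (k r r)) (k (u 2 0 (k r r)) (k (t 7 1 (u 2 0 (k (u 5 0 (k (t 9 3 (t 13 1 (u 4 3 (k v (k (u 8 13 (k v (k v (k v (k (t 24 1 (u 16 8 (k v (k v (k v r))))) r))))) (k (c 12 4096 r (u 8 1 (k v (k v r)))) r)))))) r)) r))) r)))))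
 (.c (c 2 4100 r (u 3 0 (k r r)))
 (.c (u 2 0 (k (u 4 0 (k (u 3 1 (k v (k v r))) (k (u 3 1 (k r (k (u 8 1 (k v (k (c 24 4099 r (u 16 1 (k v (k v r)))) (k (u 16 0 (k v (k v r))) (k (c 16 4099 r (u 24 1 (k v (k v r)))) (k (c 16 4099 r (u 24 1 (k v (k v r)))) (k (c 16 4099 r (u 24 1 (k v (k v r)))) r))))))) r))) r))) r))
 (.c (c 3 4095 r (t 2 2 v))
 (.c (c 3 4095 r (t 2 2 v))
 (.c (c 3 4095 r (t 2 2 v))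
 (.c (t 3 6 (u 2 0 (k r r)))
 (.c (u 3 1 (k (u 2 0 (k r r)) (k (u 2 0 (k r r)) r)))
 (.c (u 2 0 (k (u 4 1 (k r (k r (k (c 12 4096 r r) r)))) r))
 (.c (t 3 2 (u 2 0 (k (u 4 0 (k v (k r r))) r)))
 (.c (t 3 1 (u 2 0 (k (u 4 0 (k v (k r r))) r)))
 (.c (u 2 0 (k (u 3 2 (k (u 4 0 (k v (k r r))) (k (c 7 4099 r r) (k r (k (u 5 0 (k (u 4 0 (k v (k r r))) (k r r))) (k (c 7 4097 r r) (k (c 5 4095 r r) r))))))) r))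
 (.c (t 3 1 (u 2 0 (k (u 4 0 (k v (k r r))) r)))
 (.c (t 3 1 (u 2 0 (k (u 4 0 (k v (k r r))) r)))
 (.c (c 2 4100 r r)
 (.c (u 3 1 (k (u 2 0 (k (u 4 0 (k v (k r r))) r)) (k (c 7 4097 r (u 2 0 (k r r))) r)))
 (.c (c 3 4097 r (t 2 2 v))
 (.c (u 2 0 (k (u 4 5 (k (c 2 4094 v r) (k (u 8 9 (k r (k r (k (t 24 2 (u 16 25 (k r (k (u 3 446 (k v (k v (k v (k v (k v (k v (k v (k v r))))))))) (k (c 4 4089 v (c 3 4097 r v)) r))))) (k (c 8 4097 r (c 2 4094 v r)) r))))) (k (c 12 4096 r (u 8 1 (k r (k r r)))) r)))) r))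
 (.c (t 3 1 (u 2 0 (k (u 4 0 (k v (k r r))) r)))
 (.c (c 2 4100 r r)
 (.c (t 2 2 r)
 (.c (u 2 0 (k (u 4 0 (k r (k (u 3 0 (k (u 8 1 (k r (k (c 24 4099 r (u 16 1 (k r (k r r)))) (k (u 16 0 (k r (k r r))) (k (c 16 4099 r (u 24 1 (k r (k r r)))) (k (c 16 4099 r (u 24 1 (k r (k r r)))) (k (c 16 4099 r (u 24 1 (k r (k r r)))) r))))))) (k (c 5 4096 r (u 7 0 (k r (k r r)))) (k (u 5 1 (k r (k r r))) (k (c 7 4096 r r) r))))) r))) r))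
 (.c (c 3 4095 r (t 2 2 v))
 (.c (c 3 4095 r (t 2 2 v))
 (.c (c 2 4100 r r)
 (.c (c 3 4095 r (t 2 2 v))
 (.c (c 3 4095 r (t 2 2 v))
 (.c (c 3 4095 r (t 2 2 v))
 (.c (c 2 4100 r r)
 (.c (c 2 4100 r (u 3 0 (k (t 7 2 r) r)))
 (.c (c 2 4100 r (t 3 3 v))
 (.c (c 2 4100 r (u 3 0 (k (t 7 2 r) r)))
 (.c (u 3 65 (k (u 2 0 (k r r)) (k (u 2 0 (k r r)) (k (u 2 0 (k r r)) r))))
 (.c (c 2 4100 r r)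
 (.c (t 2 2 r)
 (.c (t 3 2 (u 2 0 (k (u 4 0 (k v (k r r))) r)))
 (.c (u 2 0 (k (u 3 7 (k r (k r (k (u 4 0 (k v (k r r))) (k (t 7 1 (u 4 1 (k r (k (u 5 20 (k (c 11 4101 v r) (k (u 8 7 (k v (k v (k v (k (t 24 2 (u 16 20 (k v (k v (k v r))))) r))))) (k (c 7 4099 v r) r)))) (k (c 12 4096 r (u 8 1 (k r (k r r)))) r))))) r))))) r))
 (.c (t 3 1 (u 2 0 (k r r)))
 (.c (u 3 0 (k r r))
 (.c (c 2 4100 r r)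
 (.c (c 2 4100 r r)
 (.c (c 2 4100 r (u 3 0 (k (t 7 2 r) r)))
 (.c (c 3 4095 r (t 2 2 v))
 (.c (c 2 4100 r r)
 (.c (u 3 0 (k (u 2 0 (k r r)) (k (u 2 0 (k (u 5 7 (k (u 4 0 (k v (k r r))) (k (u 4 0 (k v (k r r))) (k r (k (c 13 4099 r (u 9 18 (k r (k r (k r r))))) r))))) r)) r)))
 (.c (c 2 4100 r r)
 (.c (c 2 4100 r (u 3 0 (k (t 7 3 r) r)))
 (.c (c 2 4100 r (u 3 1 (k v (k v r))))
 (.c (c 2 4100 r r)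
 (.c (u 2 0 (k (u 3 0 (k (u 4 0 (k (u 5 0 (k v (k r r))) (k (u 5 0 (k r (k (u 8 1 (k r (k (c 24 4099 r r) (k (u 16 125 (k r (k (u 9 1 (k v (k (c 25 4099 r (u 17 1 (k v (k v r)))) (k (u 17 0 (k v (k v r))) (k (c 17 4099 r (u 25 1 (k v (k v r)))) (k (c 17 4099 r (u 25 1 (k v (k v r)))) (k (c 17 4099 r (u 25 1 (k v (k v r)))) r))))))) r))) (k (c 16 4099 r r) (k (c 16 4099 r r) (k (c 16 4099 r r) r))))))) r))) r))) r)) r))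
 .z)))))))))))))))))))))))))))))))))))))))))))))))))))))))))))))))))))))))))))))))))))))))

set_option maxRecDepth 100000 in
def R87 : PR :=
 (.t 87 (.t 90 (.t 53 (.c (t 3 1 r)
 (.c (t 3 1 (u 2 4 (k v (k (c 6 4099 r r) (k (c 6 4099 r r) (k (c 6 4099 r (u 4 1 (k v (k v (k v (k (t 12 1 r) r)))))) (k (u 4 24 (k v (k v (k v (k (t 12 2 (u 8 6 (k v (k v (k (t 24 1 (u 16 2 (k v (k v r)))) r))))) r))))) (k (c 6 4096 r r) (k (c 4 4099 r r) r)))))))))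
 (.c (t 3 3 r)
 (.c (t 3 1 (u 2 12 (k v (k v (k (c 6 4099 r r) (k (t 6 1 (u 4 2 (k v (k (t 12 2 (c 6 4099 v (u 8 7 (k v (k v (k (c 2 4082 (u 8 1 (k v (k v r))) v) r)))))) r)))) (k (u 4 3 (k v (k v r))) (k (c 6 4096 r (c 3 4100 v r)) (k (c 4 4099 r r) r)))))))))
 (.t 120 (.c (c 2 4099 r (t 3 3 v))
 (.c (t 3 3 r)
 (.c (c 2 4099 r (t 3 3 v))
 (.c (c 2 4099 r (t 3 1 v))
 (.c (c 2 4099 r (t 3 1 v))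
 (.t 45 (.t 122 (.c (c 2 4099 r (t 3 1 v))
 (.t 120 (.t 89 (.c (t 3 1 r)
 (.c (t 3 1 r)
 (.c (u 3 0 (k (u 5 0 (k r (k r r))) r))
 (.c (t 3 1 r)
 (.c (t 2 1 (t 3 3 v))
 (.c (t 3 1 r)
 (.c (u 3 2 (k (c 2 4099 r v) (k r r)))
 (.c (t 3 2 r)
 (.c (t 3 2 r)
 (.c (c 2 4099 r (t 3 3 v))
 (.c (u 3 2 (k r (k (c 2 4099 r (u 5 1 (k v (k v r)))) r)))
 (.c (c 2 4099 r (t 3 1 v))
 (.c (u 3 0 (k (u 2 54 (k (u 5 3 (k v (k v r))) (k (u 5 1 (k v (k v r))) (k r (k (u 5 1 (k (c 3 4079 v (c 4 4098 r v)) (k (u 4 78 (k v (k v r))) r))) r))))) r))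
 (.c (t 3 2 r)
 (.c (c 2 4099 r (t 3 5 v))
 (.c (c 2 4099 r (t 3 3 v))
 (.t 143 (.c (c 2 4099 r (t 3 3 v))
 (.c (c 2 4099 r r)
 (.t 87 (.c (c 2 4099 r (u 3 0 (k r r)))
 (.t 145 (.c (c 2 4099 r (t 3 1 v))
 (.c (c 2 4099 r (u 3 0 (k (t 7 1 r) r)))
 (.c (c 2 4099 r (t 3 3 v))
 (.t 123 (.t 71 (.t 78 (.c (t 3 2 r)
 (.c (t 3 1 r)
 (.t 148 (.c (t 3 1 r)
 (.c (t 3 1 r)
 (.c (c 2 4099 r r)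
 (.c (u 3 1 (k r (k (c 7 4097 r (u 5 0 (k r (k r r)))) r)))
 (.t 128 (.t 85 (.c (t 3 1 r)
 (.c (t 3 3 r)
 (.c (t 2 1 r)
 (.c (u 3 0 (k (u 2 9 (k r (k (c 3 4096 r v) (k (c 6 4099 r r) (k (u 4 6 (k r (k r r))) (k (c 6 4101 r r) (k (c 4 4099 r r) r))))))) (k (c 5 4096 r (u 7 0 (k r (k r r)))) (k (u 5 1 (k r (k r r))) (k (c 7 4096 r r) r)))))
 (.c (u 2 54 (k r (k r (k (c 3 4095 r v) (k (u 4 3 (k r (k r r))) r)))))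
 (.c (t 3 1 r)
 (.c (t 3 3 r)
 (.c (t 3 2 r)
 (.c (t 3 1 r)
 (.t 128 (.c (c 2 4099 r r)
 (.c (u 3 0 (k (t 7 1 (u 5 9 (k (c 2 4099 r v) (k (u 2 85 (k v (k v (k (c 6 4099 r r) (k (c 6 4099 r (c 2 4095 r v)) (k (c 6 4099 r (c 2 4094 r v)) (k (c 2 4097 r v) (k (c 4 4099 r r) r)))))))) (k (c 3 4087 r (t 2 1 v)) r))))) r))
 (.c (c 2 4099 r (t 3 3 v))
 (.c (c 2 4099 r (u 3 0 (k (t 7 2 r) r)))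
 (.t 153 (.c (t 2 1 (u 3 0 (k (t 7 3 r) r)))
 (.c (t 3 2 r)
 (.t 148 (.t 136 (.c (u 2 29 (k (u 3 0 (k (t 7 1 r) r)) (k (c 6 4099 r (u 3 0 (k (t 7 1 r) r))) (k (c 6 4099 r (c 3 4099 r r)) (k (t 3 1 r) (k (c 4 4097 r (u 3 0 (k r r))) (k (c 6 4096 r (c 3 4099 r r)) (k (c 4 4099 r (u 3 0 (k (t 7 1 r) r))) r))))))))
 (.t 149 (.c (u 3 3 (k (c 2 4099 r v) (k (t 5 1 (u 7 2 (k r (k r r)))) (k (c 2 4099 r (t 5 1 r)) r))))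
 (.c (u 3 1 (k r (k (t 7 2 r) (k (c 2 4099 r (u 5 0 (k r r))) r))))
 (.c (c 2 4099 r (u 3 0 (k (t 7 2 r) r)))
 (.c (t 3 1 r)
 (.c (c 2 4099 r r)
 (.c (u 3 1 (k r (k (u 5 6 (k r (k r (k (c 5 4097 r (c 2 4099 r v)) (k (t 9 1 r) (k (t 9 1 r) (k (t 9 1 r) r))))))) (k (t 7 2 r) r))))
 (.c (u 2 55 (k r (k (u 3 0 (k r r)) (k r (k r (k (c 2 4097 r r) (k (c 6 4097 r r) r)))))))
 (.c (t 3 2 r)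
 (.c (c 2 4099 r (u 3 1 (k v (k v r))))
 (.c (t 3 1 r)
 (.c (u 3 0 (k (u 5 0 (k r (k (u 2 9 (k r (k r (k (c 6 4099 r r) (k (u 4 54 (k r (k r (k (u 9 7 (k v (k v (k v (k (c 25 4099 r (u 17 1 (k v (k v r)))) r))))) r)))) (k (c 6 4101 r r) (k (c 4 4099 r r) r))))))) r))) r))
 (.t 148 .z))))))))))))))))))))))))))))))))))))))))))))))))))))))))))))))))))))))))))))))))))))))))

set_option maxRecDepth 100000 in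
def R88 : PR :=
 (.c r
 (.c r
 (.t 87 (.t 92 (.c (t 2 3 (t 3 1 v))
 (.c (c 3 4100 r r)
 (.c (t 2 3 (t 3 1 v))
 (.c (t 3 1 (u 2 0 (k (t 6 1 (u 4 8 (k v (k r (k (c 3 4099 v (u 8 0 (k (u 16 0 (k v (k v r))) r))) r))))) r)))
 (.c (c 2 4099 r (t 3 3 v))
 (.c (c 3 4099 r r)
 (.c (c 2 4099 r (t 3 3 v))
 (.c (c 2 4099 r (t 3 1 v))
 (.c (c 2 4099 r (t 3 1 v))
 (.c (t 3 3 r)
 (.c (t 3 3 r)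
 (.c (c 2 4099 r (t 3 1 v))
 (.c (c 3 4097 r r)
 (.c (c 3 4097 r r)
 (.c (t 2 3 (t 3 3 v))
 (.c (t 2 3 (t 3 3 v))
 (.c (c 3 4096 r r)
 (.c (c 3 4095 r r)
 (.c (t 2 3 (t 3 3 v))
 (.c (t 2 3 (t 3 3 v))
 (.c (t 2 3 (u 3 3 (k v (k v r))))
 (.c (c 3 4098 r r)
 (.c (c 3 4098 r r)
 (.c (c 2 4099 r (t 3 3 v))
 (.c (c 3 4097 r r)
 (.c (c 2 4099 r (t 3 1 v))
 (.c (c 3 4097 r r)
 (.c (t 2 1 (t 3 2 v))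
 (.c (c 2 4099 r (t 3 5 v))
 (.c (c 2 4099 r (t 3 3 v))
 (.c (c 3 4096 r r)
 (.c (c 2 4099 r (t 3 3 v))
 (.c (c 2 4099 r r)
 (.c (c 3 4096 r r)
 (.c (c 2 4099 r (u 3 0 (k r r)))
 (.c (u 2 0 (k (t 6 1 (u 4 11 (k r (k r r)))) r))
 (.c (c 2 4099 r (t 3 1 v))
 (.c (c 2 4099 r (u 3 0 (k (t 7 1 r) r)))
 (.c (c 2 4099 r (t 3 3 v))
 (.c (c 3 4100 r r)
 (.c (t 2 3 r)
 (.c (c 3 4100 r r)
 (.c (t 2 3 (u 3 0 (k (t 5 3 (t 7 3 v)) r)))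
 (.c (t 2 3 r)
 (.c (u 2 0 (k (t 6 1 (u 4 23 (k r (k r r)))) r))
 (.c (c 3 4098 r r)
 (.c (c 3 4098 r r)
 (.c (c 3 4098 r r)
 (.c (c 3 4097 r r)
 (.c (c 3 4097 r r)
 (.c (c 3 4097 r r)
 (.c (c 3 4097 r r)
 (.c (c 2 4099 r r)
 (.c (c 3 4096 r r)
 (.c (c 3 4096 r r)
 (.c (c 3 4095 r r)
 (.c (c 3 4095 r r)
 (.c (t 2 3 (t 3 3 v))
 (.c (t 2 3 (t 3 2 v))
 (.c (c 3 4095 r r)
 (.c (c 3 4095 r r)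
 (.c (c 3 4096 r r)
 (.c (t 2 3 (u 3 0 (k (t 7 2 r) r)))
 (.c (c 2 4099 r (t 3 3 v))
 (.c (c 2 4099 r (u 3 0 (k (t 7 2 r) r)))
 (.c (t 2 3 r)
 (.c (c 3 4099 r r)
 (.c (t 2 3 r)
 (.c (t 2 3 (t 3 7 v))
 (.c (t 2 3 r)
 (.c (c 3 4099 r r)
 (.c (u 2 0 (k (t 6 1 (u 4 23 (k (u 3 0 (k r r)) (k (u 3 0 (k (u 5 0 (k v (k v r))) r)) r)))) r))
 (.c (t 2 3 r)
 (.c (t 2 3 r)
 (.c (c 2 4099 r (u 3 0 (k (t 7 2 r) r)))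
 (.c (c 3 4095 r r)
 (.c (c 2 4099 r r)
 (.c (u 2 0 (k (t 6 1 (u 4 23 (k r (k r r)))) r))
 (.c (t 2 3 (t 3 3 v))
 (.c (c 3 4097 r r)
 (.c (c 2 4099 r (u 3 1 (k v (k v r))))
 (.c (t 2 3 r)
 (.c (c 3 4100 r r)
 (.c (u 2 0 (k (t 6 1 (u 4 23 (k r (k r r)))) r))
 (.c (u 2 0 (k (t 6 1 (u 4 3 (k r (k (c 2 4092 v r) r)))) r))
 .z)))))))))))))))))))))))))))))))))))))))))))))))))))))))))))))))))))))))))))))))))))))))))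

set_option maxRecDepth 100000 in
def R89 : PR :=
 (.t 91 (.t 56 (.t 87 (.t 92 (.c (t 3 1 (u 2 1 (k v (k v r))))
 (.c (t 3 3 (u 2 1 (k v (k v r))))
 (.c (t 3 1 (u 2 1 (k v (k v r))))
 (.t 121 (.c (c 2 4099 r (t 3 3 v))
 (.c (t 3 3 (u 2 1 (k v (k v r))))
 (.c (c 2 4099 r (t 3 3 v))
 (.c (c 2 4099 r (t 3 1 v))
 (.c (c 2 4099 r (t 3 1 v))
 (.t 89 (.t 42 (.c (c 2 4099 r (t 3 1 v))
 (.t 124 (.c (u 2 1 (k r (k r r)))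
 (.c (t 3 3 (u 2 1 (k v (k v r))))
 (.c (t 3 3 (u 2 1 (k v (k v r))))
 (.t 124 (.c (t 3 1 (u 2 1 (k v (k v r))))
 (.c (t 3 3 (u 2 0 (k v (k v r))))
 (.c (t 3 1 (u 2 1 (k v (k v r))))
 (.c (u 2 1 (k (u 3 3 (k v (k v r))) (k (u 3 3 (k v (k v r))) r)))
 (.c (t 3 2 (u 2 1 (k v (k v r))))
 (.c (t 3 2 (u 2 1 (k v (k v r))))
 (.c (c 2 4099 r (t 3 3 v))
 (.c (u 2 1 (k r (k r r)))
 (.c (c 2 4099 r (t 3 1 v))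
 (.c (u 2 32 (k (u 3 0 (k (u 5 1 (k v (k v r))) r)) (k (u 3 0 (k (u 5 1 (k v (k v r))) r)) (k (u 3 0 (k (u 5 1 (k v (k v r))) r)) (k (u 3 0 (k (u 5 1 (k v (k v r))) r)) r)))))
 (.c (t 3 2 (u 2 1 (k v (k v r))))
 (.c (c 2 4099 r (t 3 5 v))
 (.c (c 2 4099 r (t 3 3 v))
 (.c (u 2 1 (k (u 3 0 (k (t 5 3 (t 7 1 v)) r)) (k (u 3 0 (k (t 5 3 (t 7 1 v)) r)) r)))
 (.c (c 2 4099 r (t 3 3 v))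
 (.c (c 2 4099 r r)
 (.t 124 (.c (c 2 4099 r (u 3 0 (k r r)))
 (.t 67 (.c (c 2 4099 r (t 3 1 v))
 (.c (c 2 4099 r (u 3 0 (k (t 7 1 r) r)))
 (.c (c 2 4099 r (t 3 3 v))
 (.c (t 3 3 (u 2 1 (k v (k v r))))
 (.c (u 2 1 (k r (k r r)))
 (.c (u 2 1 (k r (k r r)))
 (.c (t 3 3 (u 2 1 (k v (k v r))))
 (.c (u 2 1 (k r (k r r)))
 (.t 120 (.c (t 3 1 (u 2 1 (k v (k v r))))
 (.c (t 3 1 (u 2 1 (k v (k v r))))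
 (.c (c 2 4099 r r)
 (.t 124 (.t 128 (.t 124 (.c (u 2 1 (k r (k r r)))
 (.c (c 2 4099 r r)
 (.c (u 2 0 (k r (k r r)))
 (.t 124 (.c (u 2 1 (k r (k r r)))
 (.c (t 3 1 (u 2 1 (k v (k v r))))
 (.c (t 3 3 (u 2 1 (k v (k v r))))
 (.c (t 3 2 (u 2 1 (k v (k v r))))
 (.c (u 3 0 (k (t 7 1 (u 2 1 (k r (k r r)))) r))
 (.t 128 (.c (c 2 4099 r r)
 (.c (u 2 34 (k (u 3 0 (k (t 7 2 r) r)) (k r (k (u 3 0 (k (t 7 2 r) r)) r))))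
 (.c (c 2 4099 r (t 3 3 v))
 (.c (c 2 4099 r (u 3 0 (k (t 7 2 r) r)))
 (.c (u 2 1 (k r (k r r)))
 (.c (u 2 0 (k (u 3 0 (k (t 7 3 r) r)) (k (u 3 0 (k (t 7 3 r) r)) r)))
 (.c (u 2 0 (k r (k r r)))
 (.c (t 3 7 (u 2 1 (k v (k v r))))
 (.c (u 2 1 (k r (k r r)))
 (.t 124 (.t 67 (.c (u 2 1 (k r (k r r)))
 (.c (u 3 14 (k (u 2 1 (k v (k v r))) (k (c 2 4099 r (u 5 0 (k r r))) r)))
 (.c (c 2 4099 r (u 3 0 (k (t 7 2 r) r)))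
 (.c (t 3 1 (u 2 1 (k v (k v r))))
 (.c (c 2 4099 r r)
 (.t 113 (.c (t 3 3 (u 2 1 (k v (k v r))))
 (.c (u 2 0 (k (u 3 0 (k (t 7 3 r) r)) (k (u 3 0 (k (t 7 3 r) r)) r)))
 (.c (c 2 4099 r (u 3 1 (k v (k v r))))
 (.c (u 2 0 (k r (k r r)))
 (.c (u 2 1 (k (u 3 0 (k r r)) (k (u 3 0 (k r r)) r)))
 (.t 120 (.t 121 (.t 156 .z))))))))))))))))))))))))))))))))))))))))))))))))))))))))))))))))))))))))))))))))))))))))))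

set_option maxRecDepth 100000 in
def R90 : PR :=
 (.c r
 (.c r
 (.c (c 2 4095 r (t 3 1 v))
 (.c (c 2 4095 r (t 3 1 v))
 (.c (t 2 1 (t 3 1 v))
 (.c (c 3 4100 r r)
 (.c (t 2 1 (t 3 2 v))
 (.c (c 3 4099 r r)
 (.c (c 2 4095 r (t 3 3 v))
 (.c (c 3 4099 r r)
 (.c (c 2 4095 r (t 3 3 v))
 (.c (c 2 4095 r (t 3 1 v))
 (.c (c 2 4095 r (t 3 1 v))
 (.c (c 2 4095 r (t 3 2 v))
 (.c (t 2 1 (t 3 3 v))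
 (.c (c 2 4095 r (t 3 1 v))
 (.c (c 3 4097 r r)
 (.c (c 3 4097 r r)
 (.c (c 2 4095 r (t 3 1 v))
 (.c (c 2 4095 r (t 3 1 v))
 (.c (c 2 4095 r (t 3 2 v))
 (.c (c 2 4095 r (t 3 1 v))
 (.c (c 3 4099 r r)
 (.c (c 2 4095 r (t 3 3 v))
 (.c (t 2 1 (u 3 3 (k v (k v r))))
 (.c (c 2 4095 r (t 3 3 v))
 (.c (c 3 4098 r r)
 (.c (c 2 4095 r (t 3 3 v))
 (.c (c 3 4097 r r)
 (.c (c 2 4095 r (t 3 1 v))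
 (.c (c 3 4097 r r)
 (.c (c 3 4097 r r)
 (.c (c 2 4095 r (t 3 5 v))
 (.c (c 2 4095 r (t 3 3 v))
 (.c (c 3 4096 r r)
 (.c (c 2 4095 r (t 3 3 v))
 (.c (c 2 4095 r r)
 (.c (c 3 4096 r r)
 (.c (c 2 4095 r (u 3 0 (k r r)))
 (.c (t 2 1 r)
 (.c (c 2 4095 r (t 3 1 v))
 (.c (c 2 4095 r (u 3 0 (k (t 7 1 r) r)))
 (.c (c 2 4095 r (t 3 3 v))
 (.c (c 3 4100 r r)
 (.c (u 3 0 (k (u 2 0 (k (t 6 3 r) r)) (k r r)))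
 (.c (c 3 4100 r r)
 (.c (t 3 2 (u 2 0 (k (c 4 4097 r (t 6 3 v)) r)))
 (.c (t 3 1 (u 2 0 (k (c 4 4097 r (t 6 3 v)) r)))
 (.c (c 3 4099 r r)
 (.c (c 2 4095 r (t 3 1 v))
 (.c (c 3 4098 r r)
 (.c (c 2 4095 r r)
 (.c (c 3 4097 r r)
 (.c (c 2 4095 r (t 3 1 v))
 (.c (c 3 4097 r r)
 (.c (c 3 4097 r r)
 (.c (c 2 4095 r r)
 (.c (c 2 4095 r r)
 (.c (c 2 4095 r (t 3 1 v))
 (.c (c 3 4095 r r)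
 (.c (c 3 4095 r r)
 (.c (c 2 4095 r r)
 (.c (c 2 4095 r r)
 (.c (c 2 4095 r (t 3 1 v))
 (.c (c 2 4095 r r)
 (.c (c 2 4095 r r)
 (.c (c 2 4095 r (u 3 0 (k (t 7 2 r) r)))
 (.c (c 2 4095 r (t 3 3 v))
 (.c (c 2 4095 r (u 3 0 (k (t 7 2 r) r)))
 (.c (t 2 1 r)
 (.c (c 3 4099 r r)
 (.c (c 3 4099 r r)
 (.c (t 2 1 (t 3 2 v))
 (.c (t 2 1 r)
 (.c (c 3 4099 r r)
 (.c (t 2 1 (u 3 0 (k (u 5 0 (k v (k v r))) r)))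
 (.c (c 2 4095 r r)
 (.c (c 2 4095 r r)
 (.c (c 2 4095 r (u 3 0 (k (t 7 2 r) r)))
 (.c (c 3 4095 r r)
 (.c (c 2 4095 r r)
 (.c (c 3 4101 r r)
 (.c (c 2 4095 r r)
 (.c (c 3 4097 r r)
 (.c (c 2 4095 r (u 3 1 (k v (k v r))))
 (.c (c 2 4095 r r)
 (.c (c 2 4095 r (t 3 2 v))
 (.c (c 3 4099 r r)
 (.c (t 3 3 (u 2 0 (k (t 6 3 r) r)))
 (.c (c 3 4099 r r)
 (.c (c 2 4095 r r)
 .z)))))))))))))))))))))))))))))))))))))))))))))))))))))))))))))))))))))))))))))))))))))))))))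

set_option maxRecDepth 100000 in
def R91 : PR :=
 (.t 85 (.t 0 (.t 87 (.c (c 2 4098 r (t 3 1 v))
 (.c (t 3 1 (u 2 0 (k v (k v (k v (k (t 6 2 r) r))))))
 (.c (t 3 3 r)
 (.c (t 3 1 (u 2 0 (k v (k v (k v (k (t 6 2 r) r))))))
 (.t 123 (.c (c 2 4098 r (t 3 3 v))
 (.c (t 3 3 r)
 (.c (c 2 4098 r (t 3 3 v))
 (.c (c 2 4098 r (t 3 1 v))
 (.c (c 2 4098 r (t 3 1 v))
 (.t 89 (.t 87 (.c (c 2 4098 r (t 3 1 v))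
 (.c (u 3 0 (k r (k r r)))
 (.c (u 3 1 (k r (k r r)))
 (.c (t 3 1 r)
 (.c (t 3 1 r)
 (.c (u 3 0 (k (u 2 18 (k (u 5 0 (k v (k v r))) (k (u 5 0 (k v (k v r))) (k (u 5 0 (k v (k v r))) (k (u 5 0 (k v (k v r))) (k r (k (t 6 3 (u 4 0 (k (u 5 3 (k v (k v (k v r)))) (k r r)))) (k (c 4 4099 r (u 5 0 (k (u 6 1 (k v (k v r))) (k (u 6 1 (k v (k v r))) r)))) (k (c 3 4096 (u 2 0 (k v (k v r))) (t 6 2 r)) r))))))))) r))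
 (.c (t 3 1 r)
 (.c (t 2 2 (t 3 3 v))
 (.c (t 3 1 r)
 (.c (u 2 12 (k (u 3 3 (k v (k v r))) (k (u 3 3 (k v (k v r))) r)))
 (.c (t 3 2 r)
 (.c (t 3 2 r)
 (.c (c 2 4098 r (t 3 3 v))
 (.c (u 3 6 (k r (k r r)))
 (.c (c 2 4098 r (t 3 1 v))
 (.c (u 2 12 (k (u 3 0 (k (u 5 1 (k v (k v r))) r)) (k (u 3 0 (k (u 5 1 (k v (k v r))) r)) r)))
 (.c (t 3 1 r)
 (.c (c 2 4098 r (t 3 5 v))
 (.c (c 2 4098 r (t 3 3 v))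
 (.c (u 3 0 (k (t 5 3 (t 7 1 (u 2 0 (k v (k v (k v (k (t 6 2 (u 4 41 (k v (k v (k (t 12 1 (u 8 2 (k v (k v r)))) r))))) r))))))) r))
 (.c (c 2 4098 r (t 3 3 v))
 (.c (c 2 4098 r r)
 (.c (u 3 3 (k r (k r (k (t 7 1 (u 5 0 (k (t 9 3 (t 13 1 (u 2 13 (k v (k v (k v (k v (k (t 6 3 (u 4 26 (k v (k v (k v r))))) (k (t 6 2 (c 9 4108 v r)) (k (c 3 4096 v (t 4 1 r)) r)))))))))) r))) r))))
 (.c (c 2 4098 r (u 3 0 (k r r)))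
 (.t 146 (.c (c 2 4098 r (t 3 1 v))
 (.c (c 2 4098 r (u 3 0 (k (t 7 1 r) r)))
 (.c (c 2 4098 r (t 3 3 v))
 (.c (t 3 6 r)
 (.c (u 2 8 (k r (k r (k r r))))
 (.c (u 3 3 (k r (k r (k r (k (u 5 49 (k r (k (c 3 4094 v r) (k (u 2 0 (k v (k v (k v (k (t 6 2 (u 4 36 (k v (k v (k (t 12 1 (u 8 0 (k v (k v r)))) r))))) r))))) r)))) (k (u 2 6 (k r (k r r))) (k (u 5 0 (k r r)) (k (u 5 4 (k r (k r (k (c 13 4099 r r) (k (c 9 4097 r r) r))))) (k (u 5 2 (k r (k (c 13 4099 r r) (k (c 9 4095 r r) r)))) r)))))))))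
 (.c (t 3 2 r)
 (.c (t 3 1 r)
 (.c (u 3 2 (k r (k (c 7 4099 r (u 5 0 (k r (k r r)))) (k (u 5 1 (k r (k r r))) (k (u 5 74 (k r (k r (k r r)))) (k (c 7 4097 r (u 5 1 (k r (k r r)))) (k (c 5 4095 r (u 7 1 (k r (k r r)))) r)))))))
 (.c (t 3 1 r)
 (.c (t 3 1 r)
 (.c (c 2 4098 r r)
 (.c (u 3 1 (k r (k (c 7 4097 r (u 5 0 (k r (k r r)))) r)))
 (.c (u 3 0 (k (t 7 1 (u 5 0 (k (t 9 3 (t 13 3 (u 2 15 (k v (k v (k (c 6 4099 r (u 4 1 (k (u 8 1 (k v (k v r))) (k (u 8 447 (k v (k v (k v (k v (k v (k (t 24 1 (u 16 7 (k v (k v r)))) r))))))) (k (c 8 4096 r (u 12 0 (k v (k v r)))) (k (c 12 4096 r (c 9 4110 v r)) r)))))) (k (c 6 4097 r r) r))))))) r))) r))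
 (.c (u 3 448 (k r (k r (k r (k r (k (u 2 12 (k v (k v r))) (k (t 7 1 (u 2 79 (k (u 5 0 (k v (k v r))) (k (u 5 0 (k v (k v r))) (k (t 5 2 v) (k (t 6 2 (t 5 2 r)) (k (c 6 4097 r (u 5 0 (k r (k r r)))) r))))))) r)))))))
 (.c (t 3 1 r)
 (.c (c 2 4098 r r)
 (.c (u 3 5 (k r (k r r)))
 (.c (u 3 1 (k (u 5 1 (k r (k r r))) (k (u 2 80 (k r (k r (k r (k r (k r (k (t 6 3 (u 4 0 (k r (k (c 10 4099 v r) r)))) (k (c 4 4099 r (u 6 1 (k r (k r r)))) (k (c 3 4096 r (t 6 2 r)) r))))))))) (k (c 5 4096 r (u 7 0 (k r (k r r)))) (k (c 7 4096 r r) r)))))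
 (.c (u 2 12 (k r (k r r)))
 (.c (t 3 1 r)
 (.c (t 3 3 r)
 (.c (t 3 2 r)
 (.c (t 3 1 r)
 (.c (u 3 5 (k r (k r r)))
 (.c (c 2 4098 r r)
 (.c (c 2 4098 r (u 3 0 (k (t 7 2 r) r)))
 (.c (c 2 4098 r (t 3 3 v))
 (.c (c 2 4098 r (u 3 0 (k (t 7 2 r) r)))
 (.c (u 2 12 (k r (k r r)))
 (.c (t 3 3 r)
 (.c (t 3 3 r)
 (.c (t 3 7 (u 2 0 (k v (k v (k v (k (t 6 2 (u 4 41 (k v (k v (k (t 12 1 (u 8 2 (k v (k v r)))) r))))) r))))))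
 (.c (u 3 9 (k r (k r (k (t 7 1 (u 2 0 (k r (k r (k (c 7 4099 v (u 5 1 (k v (k v r)))) (k (t 6 2 (u 4 41 (k r (k r (k (t 12 1 r) r))))) r)))))) (k (u 5 6 (k r (k (t 13 1 (u 9 15 (k r (k r (k r r))))) (k (t 9 2 (u 13 15 (k r (k r (k r r))))) (k (t 9 1 (u 13 15 (k r (k r (k r r))))) r))))) r)))))
 (.c (t 3 1 r)
 (.c (u 3 0 (k (u 2 81 (k (u 5 0 (k v (k v r))) (k r (k r (k r (k r (k (u 5 0 (k r (k r r))) (k (t 6 3 (u 4 0 (k r (k r r)))) r)))))))) r))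
 (.c (c 2 4098 r r)
 (.c (u 2 12 (k r (k r r)))
 (.c (c 2 4098 r (u 3 0 (k (t 7 2 r) r)))
 (.c (t 3 1 r)
 (.c (c 2 4098 r r)
 (.c (u 3 0 (k r (k (u 5 7 (k r (k r (k r (k (c 13 4099 r r) r))))) r)))
 (.c (t 3 2 r)
 (.c (t 3 3 r)
 (.c (c 2 4098 r (u 3 1 (k v (k v r))))
 (.c (u 2 6 (k r (k r r)))
 (.c (u 3 0 (k (u 5 0 (k r (k (u 2 0 (k r (k r (k r (k (t 6 2 (u 9 9 (k r (k r (k (t 25 2 (u 17 25 (k r (k (u 4 26 (k v (k v (k v r)))) (k (c 5 4089 v r) r))))) (k (c 9 4097 r (c 3 4094 v r)) r)))))) r))))) r))) r))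
 (.c (u 3 57 (k r (k (c 7 4099 r r) (k (c 7 4099 r (c 2 4098 r r)) (k (c 7 4099 r r) (k (u 2 12 (k r (k r r))) (k (c 7 4096 r (c 2 4098 r r)) r)))))))
 (.c (c 2 4098 r r)
 (.c (u 3 1 (k r (k r r)))
 (.c (c 2 4098 r r)
 (.c (u 2 12 (k r (k r r)))
 .z))))))))))))))))))))))))))))))))))))))))))))))))))))))))))))))))))))))))))))))))))))))))))))

set_option maxRecDepth 100000 in
def R92 : PR :=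
 (.t 87 (.c (t 2 2 v)
 (.c (c 2 4098 r (t 3 1 v))
 (.c (c 2 4098 r (t 3 1 v))
 (.c (t 3 1 (u 2 16 (k v (k v (k (u 4 21 (k v (k v (k (u 8 3 (k v (k v r))) (k (c 12 4096 r (c 2 4088 r v)) r))))) (k (u 4 1 (k v (k v (k v (k (u 8 0 (k v (k v r))) (k (c 8 4097 r (u 12 0 (k v (k v r)))) (k (c 8 4095 r (u 12 0 (k v (k v r)))) r))))))) (k (u 4 3 (k v (k v (k (c 12 4097 r (u 8 1 (k v (k v r)))) (k (c 12 4096 r (u 8 1 (k v (k v r)))) (k (c 12 4097 r (u 8 1 (k v (k v r)))) r)))))) r)))))))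
 (.c (t 3 3 r)
 (.c (t 3 1 (u 2 16 (k v (k v (k (u 4 21 (k v (k v (k (u 8 3 (k v (k v r))) (k (c 12 4096 r (c 2 4088 r v)) r))))) (k (u 4 1 (k v (k v (k v (k (u 8 0 (k v (k v r))) (k (c 8 4097 r (u 12 0 (k v (k v r)))) (k (c 8 4095 r (u 12 0 (k v (k v r)))) r))))))) (k (u 4 3 (k v (k v (k (c 12 4097 r (u 8 1 (k v (k v r)))) (k (c 12 4096 r (u 8 1 (k v (k v r)))) (k (c 12 4097 r (u 8 1 (k v (k v r)))) r)))))) r)))))))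
 (.t 87 (.c (c 2 4098 r (t 3 3 v))
 (.c (t 3 3 (u 2 16 (k v (k v (k (u 4 43 (k v (k v (k v r)))) (k (u 4 7 (k v (k (u 8 0 (k v (k v r))) r))) (k (u 4 6 (k v (k v (k (c 12 4097 r (u 8 1 (k v (k v r)))) (k (c 12 4096 r (u 8 1 (k v (k v r)))) (k (c 12 4097 r (u 8 1 (k v (k v r)))) r)))))) r)))))))
 (.c (c 2 4098 r (t 3 3 v))
 (.c (c 2 4098 r (t 3 1 v))
 (.c (c 2 4098 r (t 3 1 v))
 (.t 98 (.t 89 (.c (c 2 4098 r (t 3 1 v))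
 (.c (u 3 0 (k r (k r r)))
 (.c (c 3 4097 r (t 2 2 v))
 (.c (c 2 4098 r (t 3 1 v))
 (.c (t 3 1 r)
 (.t 128 (.c (c 3 4095 r (t 2 2 v))
 (.c (t 2 2 (t 3 3 v))
 (.c (t 3 1 r)
 (.c (u 3 4 (k r (k (c 2 4098 r v) r)))
 (.c (t 3 2 r)
 (.c (t 3 2 r)
 (.c (c 3 4097 r (t 2 2 v))
 (.c (u 3 2 (k r (k (c 2 4098 r (u 5 1 (k v (k v r)))) r)))
 (.c (c 3 4097 r (t 2 2 v))
 (.c (c 3 4097 r (t 2 2 v))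
 (.c (t 3 2 r)
 (.c (c 2 4098 r (t 3 5 v))
 (.c (c 2 4098 r (t 3 3 v))
 (.c (u 3 0 (k (t 5 3 (t 7 1 (u 2 13 (k v (k v (k v (k r (k (c 4 4097 r (u 6 0 (k (u 10 0 (k v (k v r))) r))) (k r r))))))))) r))
 (.c (c 2 4098 r (t 3 3 v))
 (.c (c 2 4098 r r)
 (.c (u 3 26 (k r (k r (k r (k (t 7 1 (u 5 0 (k (t 9 3 (t 13 1 (u 2 17 (k v (k v (k r (k (u 4 10 (k (c 12 4099 r r) (k (c 12 4099 r (c 2 4088 r v)) (k (c 12 4099 r (c 4 4094 r v)) (k (c 4 4097 r v) (k (c 12 4101 r r) (k (c 12 4096 r (c 2 4088 r v)) (k (c 8 4099 r r) r)))))))) (k (c 4 4097 r (u 6 0 (k (u 10 0 (k v (k v r))) r))) (k (c 6 4097 r r) (k (c 6 4095 r r) (k (c 4 4095 r r) r))))))))))) r))) r)))))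
 (.c (c 2 4098 r (u 3 0 (k r r)))
 (.t 120 (.c (c 3 4095 r (t 2 2 v))
 (.c (c 3 4095 r (t 2 2 v))
 (.c (c 3 4095 r (t 2 2 v))
 (.c (t 3 6 r)
 (.c (u 3 1 (k r (k r r)))
 (.c (u 3 3 (k r (k r (k r (k (u 5 2 (k (c 3 4094 v (t 2 2 v)) (k r r))) (k r (k (u 5 0 (k (u 9 0 (k r (k r r))) r)) (k (u 5 75 (k r (k r (k r (k (c 9 4097 r r) (k (c 9 4095 r (u 13 0 (k r (k r r)))) r)))))) (k r r)))))))))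
 (.c (t 3 2 r)
 (.c (t 3 1 r)
 (.t 143 (.c (t 3 1 r)
 (.c (t 3 1 r)
 (.c (c 2 4098 r r)
 (.t 149 (.c (c 3 4097 r (t 2 2 v))
 (.c (u 2 18 (k r (k r (k r (k (c 6 4097 r (u 4 1 (k r (k (c 12 4097 r (u 8 0 (k r (k r r)))) r)))) (k (c 4 4097 r (u 6 0 (k (u 10 4 (k r (k r r))) r))) (k (c 6 4097 r r) (k r (k (c 6 4095 r r) (k (c 4 4095 r r) r))))))))))
 (.c (t 3 1 r)
 (.c (c 2 4098 r r)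
 (.c (t 2 2 r)
 (.t 149 (.c (c 3 4095 r (t 2 2 v))
 (.c (c 3 4095 r (t 2 2 v))
 (.c (c 2 4098 r r)
 (.c (c 3 4095 r (t 2 2 v))
 (.c (c 3 4095 r (t 2 2 v))
 (.c (c 3 4095 r (t 2 2 v))
 (.c (c 2 4098 r r)
 (.c (c 2 4098 r (u 3 0 (k (t 7 2 r) r)))
 (.c (c 2 4098 r (t 3 3 v))
 (.c (c 2 4098 r (u 3 0 (k (t 7 2 r) r)))
 (.t 135 (.c (c 2 4098 r r)
 (.c (t 3 2 r)
 (.c (t 3 3 r)
 (.c (u 3 6 (k r (k r (k (c 3 4097 r (t 2 2 v)) (k (t 5 1 r) (k (t 5 1 r) (k (t 5 1 r) r)))))))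
 (.c (t 3 1 r)
 (.c (u 3 0 (k (u 2 10 (k r (k (u 5 0 (k v (k v r))) (k r (k r (k (c 4 4097 r r) (k r r))))))) r))
 (.c (c 2 4098 r r)
 (.c (c 2 4098 r r)
 (.c (c 2 4098 r (u 3 0 (k (t 7 2 r) r)))
 (.c (c 3 4095 r (t 2 2 v))
 (.c (c 2 4098 r r)
 (.c (u 3 0 (k r (k (u 5 1 (k r (k (c 13 4099 r r) (k (u 9 169 (k r (k r (k r r)))) (k (c 9 4099 r r) (k (c 9 4099 r r) (k (c 9 4099 r r) r))))))) r)))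
 (.c (c 2 4098 r r)
 (.c (c 2 4098 r (u 3 0 (k (t 7 3 r) r)))
 (.c (c 2 4098 r (u 3 1 (k v (k v r))))
 (.c (c 2 4098 r r)
 (.c (u 2 19 (k (u 3 0 (k r r)) (k (u 3 0 (k r r)) (k (c 2 4094 v (t 3 2 v)) (k r (k r r))))))
 (.t 87 (.c (c 2 4098 r r)
 (.c (u 3 1 (k r (k r r)))
 (.c (c 3 4095 r (t 2 2 v))
 (.c (u 3 73 (k r (k r (k r (k r r)))))
 (.c (u 2 13 (k r (k (c 3 4098 r v) (k r (k r (k (c 4 4097 r (u 6 0 (k (u 10 0 (k r (k r r))) r))) (k r r)))))))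
 .z)))))))))))))))))))))))))))))))))))))))))))))))))))))))))))))))))))))))))))))))))))))))))))))

set_option maxRecDepth 100000 in
def R93 : PR :=
 (.t 87 (.t 90 (.t 93 (.c (c 2 4098 r (t 3 1 v))
 (.c (t 3 1 (u 2 1 (k v (k v (k v (k (u 4 0 (k v (k v r))) (k (c 4 4097 r (u 6 0 (k v (k v r)))) (k (c 4 4095 r (u 6 0 (k v (k v r)))) r))))))))
 (.c (t 3 3 r)
 (.c (t 3 1 (u 2 1 (k v (k v (k v (k (u 4 0 (k v (k v r))) (k (c 4 4097 r (u 6 0 (k v (k v r)))) (k (c 4 4095 r (u 6 0 (k v (k v r)))) r))))))))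
 (.t 120 (.c (c 2 4098 r (t 3 3 v))
 (.c (t 3 3 r)
 (.c (c 2 4098 r (t 3 3 v))
 (.c (c 2 4098 r (t 3 1 v))
 (.c (c 2 4098 r (t 3 1 v))
 (.c (t 3 3 r)
 (.t 125 (.c (c 2 4098 r (t 3 1 v))
 (.t 124 (.t 90 (.c (t 3 1 r)
 (.c (t 3 1 r)
 (.c (u 3 0 (k (u 5 0 (k r (k r r))) r))
 (.c (t 3 1 r)
 (.c (t 2 2 (t 3 3 v))
 (.c (t 3 1 r)
 (.c (u 3 2 (k (c 2 4098 r v) (k r r)))
 (.c (t 3 2 r)
 (.c (t 3 2 r)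
 (.c (c 2 4098 r (t 3 3 v))
 (.c (u 3 2 (k r (k (c 2 4098 r (u 5 1 (k v (k v r)))) r)))
 (.c (c 2 4098 r (t 3 1 v))
 (.c (u 3 0 (k (u 5 2 (k (c 3 4079 v (t 2 2 v)) (k (u 2 1 (k v (k v (k v (k (u 4 0 (k v (k v r))) (k (c 4 4097 r (u 6 0 (k v (k v r)))) (k (c 4 4095 r (u 6 0 (k v (k v r)))) r))))))) r))) r))
 (.c (t 3 2 r)
 (.c (c 2 4098 r (t 3 5 v))
 (.c (c 2 4098 r (t 3 3 v))
 (.t 143 (.c (c 2 4098 r (t 3 3 v))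
 (.c (c 2 4098 r r)
 (.t 87 (.c (c 2 4098 r (u 3 0 (k r r)))
 (.t 145 (.c (c 2 4098 r (t 3 1 v))
 (.c (c 2 4098 r (u 3 0 (k (t 7 1 r) r)))
 (.c (c 2 4098 r (t 3 3 v))
 (.t 124 (.t 120 (.t 104 (.c (t 3 2 r)
 (.c (t 3 1 r)
 (.c (u 3 1 (k r (k (u 5 1 (k r (k r r))) (k (c 7 4099 r (u 5 0 (k r (k r r)))) (k (u 5 1 (k r (k r r))) (k (c 7 4097 r (u 5 1 (k r (k r r)))) (k (c 5 4095 r (u 7 1 (k r (k r r)))) r)))))))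
 (.c (t 3 1 r)
 (.c (t 3 1 r)
 (.c (c 2 4098 r r)
 (.c (u 3 1 (k r (k (c 7 4097 r (u 5 0 (k r (k r r)))) r)))
 (.t 128 (.t 119 (.c (t 3 1 r)
 (.c (c 2 4098 r r)
 (.c (t 2 2 r)
 (.c (u 3 1 (k (u 5 1 (k r (k r r))) (k r (k (c 5 4096 r (u 7 0 (k r (k r r)))) (k (c 7 4096 r r) r)))))
 (.c (u 2 19 (k (c 3 4095 r v) (k r (k r (k (u 4 0 (k r (k r r))) (k (c 4 4097 r (u 6 0 (k r (k r r)))) r))))))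
 (.c (t 3 1 r)
 (.c (t 3 3 r)
 (.c (t 3 2 r)
 (.c (t 3 1 r)
 (.t 90 (.c (c 2 4098 r r)
 (.c (c 2 4098 r (u 3 0 (k (t 7 2 r) r)))
 (.c (c 2 4098 r (t 3 3 v))
 (.c (c 2 4098 r (u 3 0 (k (t 7 2 r) r)))
 (.t 133 (.c (t 3 2 r)
 (.c (t 3 2 r)
 (.t 148 (.t 145 (.c (u 3 0 (k (t 7 1 (u 5 0 (k r (k r (k (c 13 4099 r r) (k r (k (c 3 4088 r (t 2 2 v)) (k (c 7 4099 v (u 9 0 (k (u 17 163 (k r (k r r))) r))) (k (u 9 2 (k r (k r (k (c 25 4099 r r) (k (c 17 4095 r r) (k (c 17 4095 r r) r)))))) (k (u 9 37 (k r (k r (k (c 2 4098 r v) (k (c 25 4099 r r) (k (c 17 4099 r r) r)))))) r)))))))))) r))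
 (.t 149 (.c (c 2 4098 r r)
 (.c (u 3 1 (k r (k (t 7 2 r) (k (c 2 4098 r (u 5 0 (k r r))) r))))
 (.c (c 2 4098 r (u 3 0 (k (t 7 2 r) r)))
 (.c (t 3 1 r)
 (.c (c 2 4098 r r)
 (.c (u 3 1 (k r (k (u 2 1 (k r (k r (k r (k (u 4 0 (k r (k r r))) (k (c 4 4097 r (u 6 0 (k r (k r r)))) (k (c 4 4095 r (u 6 0 (k r (k r r)))) r))))))) (k (c 7 4096 r (u 5 1 (k r (k r r)))) r))))
 (.c (c 2 4098 r r)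
 (.c (t 2 2 (u 3 0 (k (t 7 3 r) r)))
 (.c (t 3 1 r)
 (.c (t 2 2 r)
 (.c (u 3 0 (k (u 5 0 (k r (k (u 2 17 (k r (k r (k r (k (u 4 0 (k r (k r r))) (k (c 4 4097 r (u 6 0 (k r (k r r)))) (k (c 4 4095 r (u 6 0 (k r (k r r)))) r))))))) r))) r))
 (.c (u 2 4 (k r (k r (k (u 3 10 (k (c 7 4099 r (u 4 1 (k r (k r r)))) (k (c 7 4099 r r) (k (c 7 4099 r (u 4 1 (k r (k r r)))) (k (u 4 0 (k r (k r r))) (k (c 7 4101 r (u 4 1 (k r (k r r)))) (k (c 7 4096 r r) (k (c 5 4099 r (u 4 1 (k r (k r r)))) r)))))))) (k (c 4 4097 r (u 6 0 (k r (k r r)))) (k (c 4 4097 r (u 6 0 (k r (k r r)))) (k (c 4 4096 r (u 6 0 (k r (k r r)))) (k (c 4 4095 r (u 6 0 (k r (k r r)))) r))))))))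
 (.c (c 2 4098 r r)
 (.t 156 (.c (c 2 4098 r r)
 (.c (u 2 1 (k r (k r (k r (k (u 4 0 (k r (k r r))) (k (c 4 4097 r (u 6 0 (k r (k r r)))) (k (c 4 4095 r (u 6 0 (k r (k r r)))) r)))))))
 (.t 143 (.c (u 2 4 (k r (k (u 3 6 (k v (k v (k (u 5 1 (k v (k v r))) (k (c 5 4097 r (u 7 0 (k v (k v r)))) (k (c 5 4097 r (u 7 0 (k v (k v r)))) r)))))) (k (u 4 1 (k r (k r r))) (k (c 4 4097 r (u 6 0 (k r (k r r)))) (k (c 4 4097 r (u 6 0 (k r (k r r)))) (k (c 4 4096 r (u 6 0 (k r (k r r)))) (k (c 4 4095 r (u 6 0 (k r (k r r)))) r))))))))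
 .z))))))))))))))))))))))))))))))))))))))))))))))))))))))))))))))))))))))))))))))))))))))))))))))

set_option maxRecDepth 100000 in
def R94 : PR :=
 (.t 94 (.c (t 2 1 v)
 (.t 98 (.c (c 2 4097 r (t 3 1 v))
 (.c (t 2 1 (t 3 1 v))
 (.c (t 2 1 (t 3 3 v))
 (.c (t 2 1 (t 3 1 v))
 (.c (t 2 1 (t 3 1 v))
 (.c (c 2 4097 r (t 3 3 v))
 (.c (t 2 1 (t 3 3 v))
 (.c (c 2 4097 r (t 3 3 v))
 (.c (c 2 4097 r (t 3 1 v))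
 (.c (c 2 4097 r (t 3 1 v))
 (.c (t 2 1 (t 3 3 v))
 (.c (t 2 1 (t 3 3 v))
 (.c (c 2 4097 r (t 3 1 v))
 (.c (t 2 1 (u 3 0 (k v (k v r))))
 (.c (t 2 1 (u 3 1 (k v (k v r))))
 (.c (c 2 4097 r (t 3 1 v))
 (.c (t 2 1 (t 3 3 v))
 (.c (t 2 1 (u 3 0 (k (u 5 0 (k v (k v r))) r)))
 (.c (t 2 1 (t 3 1 v))
 (.c (t 2 1 (t 3 3 v))
 (.c (t 2 1 (t 3 3 v))
 (.c (t 2 1 (u 3 3 (k v (k v r))))
 (.c (t 2 1 (t 3 3 v))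
 (.c (t 2 1 (u 3 0 (k (t 7 1 (t 5 3 v)) r)))
 (.c (c 2 4097 r (t 3 3 v))
 (.c (t 2 1 r)
 (.c (c 2 4097 r (t 3 1 v))
 (.c (t 2 1 (u 3 0 (k (u 5 1 (k v (k v r))) r)))
 (.c (t 2 1 (t 3 3 v))
 (.c (c 2 4097 r (t 3 5 v))
 (.c (c 2 4097 r (t 3 3 v))
 (.c (t 2 1 (u 3 0 (k (t 5 3 (t 7 1 v)) r)))
 (.c (c 2 4097 r (t 3 3 v))
 (.c (c 2 4097 r r)
 (.c (t 2 1 r)
 (.c (c 2 4097 r (u 3 0 (k r r)))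
 (.c (t 2 1 r)
 (.c (c 2 4097 r (t 3 1 v))
 (.c (c 2 4097 r (u 3 0 (k (t 7 1 r) r)))
 (.c (c 2 4097 r (t 3 3 v))
 (.c (t 2 1 (t 3 6 v))
 (.c (t 2 1 (u 3 1 (k v (k v r))))
 (.c (t 2 1 r)
 (.c (t 2 1 (t 3 3 v))
 (.c (t 2 1 (u 3 4 (k v (k (t 7 1 r) r))))
 (.c (t 2 1 r)
 (.c (t 2 1 (t 3 1 v))
 (.c (t 2 1 r)
 (.c (c 2 4097 r r)
 (.c (t 2 1 r)
 (.c (t 2 1 (t 3 1 v))
 (.c (t 2 1 r)
 (.c (t 2 1 r)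
 (.c (c 2 4097 r r)
 (.c (t 2 1 r)
 (.c (t 2 1 r)
 (.c (t 2 1 r)
 (.c (t 2 1 (t 3 1 v))
 (.c (t 2 1 r)
 (.c (t 2 1 (t 3 2 v))
 (.t 92 (.c (t 2 1 (u 3 5 (k v (k v r))))
 (.c (c 2 4097 r r)
 (.c (c 2 4097 r (u 3 0 (k (t 7 2 r) r)))
 (.c (c 2 4097 r (t 3 3 v))
 (.c (c 2 4097 r (u 3 0 (k (t 7 2 r) r)))
 (.c (t 2 1 (u 3 0 (k v (k v r))))
 (.c (c 2 4097 r r)
 (.c (t 2 1 r)
 (.c (t 2 1 (t 3 2 v))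
 (.c (t 2 1 r)
 (.c (t 2 1 (t 3 1 v))
 (.c (t 2 1 (u 3 0 (k (u 5 0 (k v (k v r))) r)))
 (.c (c 2 4097 r r)
 (.c (t 2 1 r)
 (.c (c 2 4097 r (u 3 0 (k (t 7 2 r) r)))
 (.c (t 2 1 r)
 (.c (c 2 4097 r r)
 (.c (t 2 1 (u 3 0 (k v (k r r))))
 (.c (c 2 4097 r r)
 (.c (c 2 4097 r (u 3 0 (k (t 7 3 r) r)))
 (.c (c 2 4097 r (u 3 1 (k v (k v r))))
 (.c (c 2 4097 r r)
 (.c (t 2 1 (u 3 0 (k (u 5 0 (k v (k r r))) r)))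
 (.c (t 2 1 r)
 (.c (c 2 4097 r r)
 (.c (t 2 1 (u 3 1 (k v (k v r))))
 (.c (c 2 4097 r r)
 (.c (t 2 1 r)
 (.c (t 2 1 r)
 (.c (t 2 1 r)
 (.c (t 2 1 (t 3 1 v))
 .z)))))))))))))))))))))))))))))))))))))))))))))))))))))))))))))))))))))))))))))))))))))))))))))))

end Pool.Agent.Helper91.ND1
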