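import Pool.Agent.Helper91.VD1.DT
import Pool.Agent.Helper91.ND1.LA
import Pool.Agent.Helper91.ND1.LT
import Pool.Agent.Helper91.NF.Fast
import Pool.Agent.Helper91.ND1.LR2

/-! part of the certificate for the constant 25/48 (generated) -/

namespace Pool.Agent.Helper91.ND1

open Pool.Agent.Helper66.IL
open Pool.Agent.Helper66.ML
open Pool.Agent.Helper66.ND
open Pool.Agent.Helper91.NF
open Pool.Agent.Helper91.VZ
open Pool.Agent.Helper91.VD1 (DT)

theorem okR78 : rof A NN (vx DT) 167 78 R78 0 = true := by decide +kernel

theorem okR79 : rof A NN (vx DT) 167 79 R79 0 = true := by decide +kernel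

theorem okR80 : rof A NN (vx DT) 167 80 R80 0 = true := by decide +kernel

theorem okR81 : rof A NN (vx DT) 167 81 R81 0 = true := by decide +kernel

theorem okR82 : rof A NN (vx DT) 167 82 R82 0 = true := by decide +kernel

theorem okR83 : rof A NN (vx DT) 167 83 R83 0 = true := by decide +kernel

theorem okR84 : rof A NN (vx DT) 167 84 R84 0 = true := by decide +kernel

theorem okR85 : rof A NN (vx DT) 167 85 R85 0 = true := by decide +kernel

theorem okR86 : rof A NN (vx DT) 167 86 R86 0 = true := by decide +kernel

theorem okR87 : rof A NN (vx DT) 167 87 R87 0 = true := by decide +kernel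

theorem okR88 : rof A NN (vx DT) 167 88 R88 0 = true := by decide +kernel

theorem okR89 : rof A NN (vx DT) 167 89 R89 0 = true := by decide +kernel

theorem okR90 : rof A NN (vx DT) 167 90 R90 0 = true := by decide +kernel

theorem okR91 : rof A NN (vx DT) 167 91 R91 0 = true := by decide +kernel

theorem okR92 : rof A NN (vx DT) 167 92 R92 0 = true := by decide +kernel

theorem okR93 : rof A NN (vx DT) 167 93 R93 0 = true := by decide +kernel

theorem okR94 : rof A NN (vx DT) 167 94 R94 0 = true := by decide +kernel

end Pool.Agent.Helper91.ND1
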