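import Pool.Agent.Helper66.ND.Defs

/-! part of the certificate for the constant 25/48 (generated) -/

namespace Pool.Agent.Helper91.ND1

open Pool.Agent.Helper66.IL
open Pool.Agent.Helper66.ND
open Pool.Agent.Helper66.ND.LT
open Pool.Agent.Helper66.ND.Ct

set_option maxRecDepth 100000 in
def R95 : PR :=
 (.t 92 (.c (t 2 1 v)
 (.c (c 2 4096 r (t 3 1 v))
 (.c (c 2 4096 r (t 3 1 v))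
 (.c (t 2 1 (t 3 1 v))
 (.c (t 2 1 (t 3 3 v))
 (.c (t 2 1 (t 3 2 v))
 (.c (t 3 1 (u 2 0 (k (t 6 1 r) r)))
 (.c (c 2 4096 r (t 3 3 v))
 (.c (t 2 1 (t 3 3 v))
 (.c (c 2 4096 r (t 3 3 v))
 (.c (c 2 4096 r (t 3 1 v))
 (.c (c 2 4096 r (t 3 1 v))
 (.c (t 2 1 (t 3 3 v))
 (.c (t 2 1 (t 3 3 v))
 (.c (c 2 4096 r (t 3 1 v))
 (.c (u 2 0 (k (t 6 1 (u 3 0 (k r (k r r)))) r))
 (.c (c 3 4097 r (t 2 1 v))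
 (.c (c 2 4096 r (t 3 1 v))
 (.c (t 3 3 r)
 (.c (t 2 1 (u 3 0 (k (u 5 0 (k v (k v r))) r)))
 (.c (c 3 4095 r (t 2 1 v))
 (.c (t 2 1 (t 3 3 v))
 (.c (t 2 1 (t 3 3 v))
 (.c (t 2 1 (u 3 3 (k v (k v r))))
 (.c (t 2 1 (t 3 1 v))
 (.c (t 2 1 (t 3 1 v))
 (.c (c 3 4097 r (t 2 1 v))
 (.c (t 2 1 r)
 (.c (c 3 4097 r (t 2 1 v))
 (.c (c 3 4097 r (t 2 1 v))
 (.c (t 2 1 (t 3 2 v))
 (.c (c 2 4096 r (t 3 5 v))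
 (.c (c 2 4096 r (t 3 3 v))
 (.c (t 2 1 (u 3 0 (k (t 5 3 (t 7 1 v)) r)))
 (.c (c 2 4096 r (t 3 3 v))
 (.c (c 2 4096 r r)
 (.c (u 2 0 (k (t 6 1 (u 3 2 (k r (k r (k (t 4 2 v) (k (t 7 1 (u 4 28 (k r (k (u 5 0 (k (t 9 3 (t 13 1 v)) r)) (k r (k (u 8 33 (k (u 5 0 (k (t 9 3 (t 13 1 v)) r)) (k r (k r (k (u 5 0 (k (t 9 3 (t 13 1 v)) r)) r))))) r)))))) r)))))) r))
 (.c (c 2 4096 r (u 3 0 (k r r)))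
 (.c (t 2 1 r)
 (.c (c 3 4095 r (t 2 1 v))
 (.c (c 3 4095 r (t 2 1 v))
 (.c (c 3 4095 r (t 2 1 v))
 (.c (t 3 6 (u 2 0 (k (t 6 1 r) r)))
 (.c (t 2 1 r)
 (.c (t 2 1 r)
 (.c (t 3 3 r)
 (.c (u 3 4 (k r (k (t 7 1 (u 5 2 (k (c 2 4096 r v) (k r r)))) r)))
 (.c (t 2 1 r)
 (.c (t 2 1 (t 3 3 v))
 (.c (t 2 1 r)
 (.c (c 2 4096 r r)
 (.c (t 2 1 r)
 (.c (c 3 4097 r (t 2 1 v))
 (.c (u 2 0 (k (t 6 1 r) r))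
 (.c (u 3 0 (k (t 7 1 (u 5 35 (k r (k (c 2 4096 r v) (k (u 2 0 (k (t 6 1 r) r)) (k (c 2 4096 r r) (k (c 13 4097 r (c 2 4096 r r)) r))))))) (k (t 7 1 (u 5 6 (k (c 2 4096 r v) (k (u 2 0 (k (t 6 1 r) r)) (k r r))))) r)))
 (.c (c 2 4096 r r)
 (.c (t 2 1 r)
 (.c (t 2 1 r)
 (.c (c 3 4095 r (t 2 1 v))
 (.c (c 3 4095 r (t 2 1 v))
 (.c (c 2 4096 r r)
 (.c (c 3 4095 r (t 2 1 v))
 (.c (c 3 4095 r (t 2 1 v))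
 (.c (c 3 4095 r (t 2 1 v))
 (.c (c 2 4096 r r)
 (.c (c 2 4096 r (u 3 0 (k (t 7 2 r) r)))
 (.c (c 2 4096 r (t 3 3 v))
 (.c (c 2 4096 r (u 3 0 (k (t 7 2 r) r)))
 (.c (t 2 1 r)
 (.c (c 2 4096 r r)
 (.c (t 2 1 r)
 (.c (t 2 1 (t 3 2 v))
 (.c (t 2 1 r)
 (.c (t 3 1 (u 2 0 (k (t 6 1 r) r)))
 (.c (t 2 1 (u 3 0 (k (u 5 0 (k v (k v r))) r)))
 (.c (c 2 4096 r r)
 (.c (c 2 4096 r r)
 (.c (c 2 4096 r (u 3 0 (k (t 7 2 r) r)))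
 (.c (c 3 4095 r (t 2 1 v))
 (.c (c 2 4096 r r)
 (.c (t 2 1 r)
 (.c (c 2 4096 r r)
 (.c (c 2 4096 r (u 3 0 (k (t 7 3 r) r)))
 (.c (c 2 4096 r (u 3 1 (k v (k v r))))
 (.c (c 2 4096 r r)
 (.c (t 2 1 (u 3 0 (k (u 5 0 (k v (k r r))) r)))
 (.c (t 2 1 r)
 (.c (c 2 4096 r r)
 (.c (u 2 0 (k (t 6 1 (u 3 1 (k r (k r r)))) r))
 (.c (c 3 4095 r (t 2 1 v))
 (.c (t 2 1 r)
 (.c (t 2 1 r)
 (.c (t 2 1 r)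
 (.t 92 (.c (u 2 0 (k (t 6 1 (u 4 7 (k (c 3 4096 r v) (k (u 3 0 (k (t 7 1 (u 5 25 (k (u 8 1 (k v (k v r))) (k (u 8 0 (k v (k v r))) (k (c 4 4098 (u 2 0 (k v (k v r))) v) (k (u 8 0 (k (u 9 17 (k v (k v r))) (k (u 9 1 (k v (k v r))) r))) r)))))) r)) r)))) r))
 .z))))))))))))))))))))))))))))))))))))))))))))))))))))))))))))))))))))))))))))))))))))))))))))))))

set_option maxRecDepth 100000 in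
def R96 : PR :=
 (.t 98 (.c (t 2 2 v)
 (.c (c 2 4096 r (t 3 1 v))
 (.c (c 2 4096 r (t 3 1 v))
 (.c (t 2 1 (t 3 1 v))
 (.c (t 2 1 (t 3 3 v))
 (.c (t 3 2 (t 2 1 v))
 (.c (t 2 1 (t 3 1 v))
 (.c (c 2 4096 r (t 3 3 v))
 (.c (t 2 1 (t 3 3 v))
 (.c (c 2 4096 r (t 3 3 v))
 (.c (c 2 4096 r (t 3 1 v))
 (.c (c 2 4096 r (t 3 1 v))
 (.c (t 2 1 (t 3 3 v))
 (.c (t 2 1 (t 3 3 v))
 (.c (c 2 4096 r (t 3 1 v))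
 (.c (t 2 1 (u 3 0 (k v (k v r))))
 (.c (c 3 4097 r (t 2 2 v))
 (.c (c 2 4096 r (t 3 1 v))
 (.c (t 3 1 (t 2 1 v))
 (.c (t 2 1 (u 3 0 (k (u 5 0 (k v (k v r))) r)))
 (.c (c 3 4095 r (t 2 2 v))
 (.c (t 2 2 (t 3 3 v))
 (.c (t 2 1 (t 3 3 v))
 (.c (t 2 1 (u 3 3 (k v (k v r))))
 (.c (t 2 1 (t 3 1 v))
 (.c (t 2 1 (t 3 1 v))
 (.c (c 3 4097 r (t 2 2 v))
 (.c (t 2 1 (u 3 6 (k v (k v r))))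
 (.c (c 3 4097 r (t 2 2 v))
 (.c (c 3 4097 r (t 2 2 v))
 (.c (t 2 1 (t 3 2 v))
 (.c (c 2 4096 r (t 3 5 v))
 (.c (c 2 4096 r (t 3 3 v))
 (.c (t 2 1 (u 3 0 (k (t 5 3 (t 7 1 v)) r)))
 (.c (c 2 4096 r (t 3 3 v))
 (.c (c 2 4096 r r)
 (.c (t 2 1 (u 3 2 (k v (k v (k v (k (t 7 1 (u 5 0 (k (t 9 3 (t 13 1 v)) r))) r))))))
 (.c (c 2 4096 r (u 3 0 (k r r)))
 (.c (t 2 1 r)
 (.c (c 3 4095 r (t 2 2 v))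
 (.c (c 3 4095 r (t 2 2 v))
 (.c (c 3 4095 r (t 2 2 v))
 (.c (t 3 6 (t 2 1 v))
 (.c (t 2 1 (u 3 1 (k v (k v r))))
 (.c (t 2 1 r)
 (.c (t 3 2 (t 2 1 v))
 (.c (t 2 3 (t 3 1 v))
 (.c (t 2 1 r)
 (.c (t 2 1 (t 3 3 v))
 (.c (t 2 1 (u 3 14 (k v (k (c 7 4099 r (t 5 3 v)) (k (u 5 4 (k v (k (t 13 1 (u 9 4 (k v (k v r)))) r))) (k (u 5 4 (k v (k (t 13 1 (u 9 2 (k v (k v r)))) r))) (k r (k r r))))))))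
 (.c (c 2 4096 r r)
 (.c (t 2 1 r)
 (.c (c 3 4097 r (t 2 2 v))
 (.c (t 2 1 r)
 (.c (t 2 1 (t 3 1 v))
 (.c (c 2 4096 r r)
 (.c (t 3 3 (t 2 1 v))
 (.c (t 2 1 r)
 (.c (c 3 4095 r (t 2 2 v))
 (.c (c 3 4095 r (t 2 2 v))
 (.c (c 2 4096 r r)
 (.c (c 3 4095 r (t 2 2 v))
 (.c (c 3 4095 r (t 2 2 v))
 (.c (c 3 4095 r (t 2 2 v))
 (.c (c 2 4096 r r)
 (.c (c 2 4096 r (u 3 0 (k (t 7 2 r) r)))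
 (.c (c 2 4096 r (t 3 3 v))
 (.c (c 2 4096 r (u 3 0 (k (t 7 2 r) r)))
 (.c (t 2 1 (u 3 0 (k v (k v r))))
 (.c (c 2 4096 r r)
 (.c (t 2 2 r)
 (.c (t 2 1 (t 3 2 v))
 (.c (t 2 1 r)
 (.c (t 3 1 (t 2 1 v))
 (.c (t 2 1 (u 3 0 (k (u 5 0 (k v (k v r))) r)))
 (.c (c 2 4096 r r)
 (.c (c 2 4096 r r)
 (.c (c 2 4096 r (u 3 0 (k (t 7 2 r) r)))
 (.c (c 3 4095 r (t 2 2 v))
 (.c (c 2 4096 r r)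
 (.c (t 2 1 r)
 (.c (c 2 4096 r r)
 (.c (c 2 4096 r (u 3 0 (k (t 7 3 r) r)))
 (.c (c 2 4096 r (u 3 1 (k v (k v r))))
 (.c (c 2 4096 r r)
 (.c (t 2 1 r)
 (.c (t 2 1 r)
 (.c (c 2 4096 r r)
 (.c (t 2 1 (u 3 1 (k v (k v r))))
 (.c (c 3 4095 r (t 2 2 v))
 (.c (t 2 3 r)
 (.c (t 2 1 r)
 (.c (t 2 1 r)
 (.t 90 (.c (t 3 1 (t 2 1 v))
 (.c (t 2 1 (t 3 1 v))
 .z)))))))))))))))))))))))))))))))))))))))))))))))))))))))))))))))))))))))))))))))))))))))))))))))))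

set_option maxRecDepth 100000 in
def R97 : PR :=
 (.c (u 2 0 (k r (k r (k r r))))
 (.c (u 2 0 (k r (k r (k r r))))
 (.c (c 2 4095 r (t 3 1 v))
 (.c (c 2 4095 r (t 3 1 v))
 (.c (t 3 1 (u 2 0 (k (t 4 1 r) (k (t 4 2 r) (k (t 4 1 r) r)))))
 (.c (c 3 4100 r (u 2 0 (k r (k r (k r r)))))
 (.c (t 3 2 (u 2 0 (k (t 4 1 r) (k (t 4 2 r) (k (t 4 1 r) r)))))
 (.c (c 3 4099 r (u 2 0 (k r (k r (k r r)))))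
 (.c (c 2 4095 r (t 3 3 v))
 (.c (c 3 4099 r (u 2 0 (k r (k r (k r r)))))
 (.c (c 2 4095 r (t 3 3 v))
 (.c (c 2 4095 r (t 3 1 v))
 (.c (c 2 4095 r (t 3 1 v))
 (.c (c 2 4095 r (t 3 2 v))
 (.c (t 3 3 (u 2 0 (k (t 4 1 r) (k (t 4 2 r) (k (t 4 1 r) r)))))
 (.c (c 2 4095 r (t 3 1 v))
 (.c (c 3 4097 r (u 2 0 (k r (k r (k r r)))))
 (.c (c 3 4097 r (u 2 0 (k r (k r (k r r)))))
 (.c (c 2 4095 r (t 3 1 v))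
 (.c (c 2 4095 r (t 3 1 v))
 (.c (c 2 4095 r (t 3 2 v))
 (.c (c 2 4095 r (t 3 1 v))
 (.c (t 2 1 (t 3 3 v))
 (.c (c 2 4095 r (t 3 3 v))
 (.c (u 3 2 (k (c 2 4095 r v) (k (u 2 0 (k (t 4 1 r) (k (t 4 2 r) (k (t 4 1 r) r)))) r)))
 (.c (c 3 4098 r (u 2 0 (k r (k r (k r r)))))
 (.c (c 3 4098 r (u 2 0 (k r (k r (k r r)))))
 (.c (c 2 4095 r (t 3 3 v))
 (.c (c 3 4097 r (u 2 0 (k r (k r (k r r)))))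
 (.c (c 2 4095 r (t 3 1 v))
 (.c (c 3 4097 r (u 2 0 (k r (k r (k r r)))))
 (.c (c 3 4097 r (u 2 0 (k r (k r (k r r)))))
 (.c (c 3 4096 r (u 2 0 (k r (k r (k r r)))))
 (.c (c 2 4095 r (t 3 3 v))
 (.c (c 3 4096 r (u 2 0 (k r (k r (k r r)))))
 (.c (c 2 4095 r (t 3 3 v))
 (.c (c 2 4095 r r)
 (.c (c 3 4096 r (u 2 0 (k r (k r (k r r)))))
 (.c (c 2 4095 r (u 3 0 (k r r)))
 (.c (u 2 0 (k (t 4 1 r) (k (t 4 2 r) (k (t 4 1 r) r))))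
 (.c (c 2 4095 r (t 3 1 v))
 (.c (c 2 4095 r (u 3 0 (k (t 7 1 r) r)))
 (.c (c 2 4095 r (t 3 3 v))
 (.c (c 3 4100 r (u 2 0 (k r (k r (k r r)))))
 (.c (u 2 0 (k (t 4 1 r) (k (t 4 2 r) (k (t 4 1 r) r))))
 (.c (c 3 4100 r (u 2 0 (k r (k r (k r r)))))
 (.c (t 3 2 (u 2 0 (k (c 6 4097 r r) (k (c 6 4097 r r) (k (c 6 4097 r r) r)))))
 (.c (t 3 1 (u 2 0 (k (c 6 4097 r r) (k (c 6 4097 r r) (k (c 6 4097 r r) r)))))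
 (.c (c 3 4099 r (u 2 0 (k r (k r (k r r)))))
 (.c (c 2 4095 r (t 3 1 v))
 (.c (c 3 4098 r (u 2 0 (k r (k r (k r r)))))
 (.c (c 2 4095 r r)
 (.c (c 3 4097 r (u 2 0 (k r (k r (k r r)))))
 (.c (c 2 4095 r (t 3 1 v))
 (.c (c 3 4097 r (u 2 0 (k r (k r (k r r)))))
 (.c (c 3 4097 r (u 2 0 (k r (k r (k r r)))))
 (.c (c 2 4095 r r)
 (.c (c 3 4096 r (u 2 0 (k r (k r (k r r)))))
 (.c (c 2 4095 r (t 3 1 v))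
 (.c (c 3 4095 r (u 2 0 (k r (k r (k r r)))))
 (.c (c 3 4095 r (u 2 0 (k r (k r (k r r)))))
 (.c (c 3 4098 r (u 2 0 (k r (k r (k r r)))))
 (.c (c 3 4095 r (u 2 0 (k r (k r (k r r)))))
 (.c (c 2 4095 r (t 3 1 v))
 (.c (c 3 4095 r (u 2 0 (k r (k r (k r r)))))
 (.c (c 2 4095 r r)
 (.c (c 2 4095 r (u 3 0 (k (t 7 2 r) r)))
 (.c (c 2 4095 r (t 3 3 v))
 (.c (c 2 4095 r (u 3 0 (k (t 7 2 r) r)))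
 (.c (u 2 0 (k (t 4 1 (u 6 8 (k r (k r r)))) (k (t 4 2 (u 6 8 (k r (k r r)))) (k (t 4 1 (u 6 8 (k r (k r r)))) r))))
 (.c (c 2 4095 r r)
 (.c (c 2 4095 r r)
 (.c (t 3 2 r)
 (.c (u 2 0 (k (t 4 1 r) (k (t 4 2 r) (k (t 4 1 r) r))))
 (.c (c 3 4099 r (u 2 0 (k r (k r (k r r)))))
 (.c (u 3 0 (k (u 5 0 (k r (k (c 3 4093 v (u 2 0 (k r (k r (k r r))))) r))) r))
 (.c (c 2 4095 r r)
 (.c (c 2 4095 r r)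
 (.c (c 2 4095 r (u 3 0 (k (t 7 2 r) r)))
 (.c (c 3 4095 r (u 2 0 (k r (k r (k r r)))))
 (.c (c 2 4095 r r)
 (.c (c 3 4101 r (u 2 0 (k r (k r (k r r)))))
 (.c (c 2 4095 r r)
 (.c (c 2 4095 r (u 3 0 (k (t 7 3 r) r)))
 (.c (c 2 4095 r (u 3 1 (k v (k v r))))
 (.c (c 2 4095 r r)
 (.c (c 2 4095 r (t 3 2 v))
 (.c (c 3 4099 r (u 2 0 (k r (k r (k r r)))))
 (.c (c 2 4095 r r)
 (.c (c 3 4099 r (u 2 0 (k r (k r (k r r)))))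
 (.c (c 3 4095 r (u 2 0 (k r (k r (k r r)))))
 (.c (c 3 4098 r (u 2 0 (k r (k r (k r r)))))
 (.c (c 2 4095 r (t 3 2 v))
 (.c (c 3 4098 r (u 2 0 (k r (k r (k r r)))))
 (.c (c 3 4097 r (u 2 0 (k r (k r (k r r)))))
 (.c (c 2 4095 r (t 3 1 v))
 (.c (c 2 4095 r (t 3 2 v))
 (.c (c 3 4095 r (u 2 0 (k r (k r (k r r)))))
 .z))))))))))))))))))))))))))))))))))))))))))))))))))))))))))))))))))))))))))))))))))))))))))))))))))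

set_option maxRecDepth 100000 in
def R98 : PR :=
 (.c (u 2 0 (k (t 6 2 (u 4 0 (k (c 12 4099 r r) r))) r))
 (.c (u 2 0 (k (t 6 2 (u 4 0 (k (c 12 4099 r r) r))) r))
 (.c (c 2 4095 r (t 3 1 v))
 (.c (c 2 4095 r (t 3 1 v))
 (.c (t 2 2 (t 3 1 v))
 (.c (t 2 2 (t 3 3 v))
 (.c (t 2 2 (t 3 1 v))
 (.t 128 (.c (c 2 4095 r (t 3 3 v))
 (.c (t 2 2 (t 3 3 v))
 (.c (c 2 4095 r (t 3 3 v))
 (.c (c 2 4095 r (t 3 1 v))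
 (.c (c 2 4095 r (t 3 1 v))
 (.c (c 2 4095 r (t 3 2 v))
 (.c (t 3 3 r)
 (.c (c 2 4095 r (t 3 1 v))
 (.c (t 2 3 (u 3 0 (k v (k v r))))
 (.c (c 3 4097 r (u 2 0 (k (t 6 2 (u 4 0 (k (c 12 4099 r r) r))) r)))
 (.c (c 2 4095 r (t 3 1 v))
 (.c (c 2 4095 r (t 3 1 v))
 (.c (c 2 4095 r (t 3 2 v))
 (.c (c 2 4095 r (t 3 1 v))
 (.c (t 2 4 (t 3 3 v))
 (.c (c 2 4095 r (t 3 3 v))
 (.c (t 2 2 (u 3 3 (k v (k v r))))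
 (.c (c 3 4098 r (u 2 0 (k (t 6 2 (u 4 0 (k (c 12 4099 r r) r))) r)))
 (.c (t 3 2 r)
 (.c (c 2 4095 r (t 3 3 v))
 (.c (u 3 2 (k (u 2 0 (k (t 6 2 (u 4 0 (k (t 12 2 (u 8 2 (k v (k (c 6 4094 v (u 16 2 (k v (k v r)))) r)))) r))) r)) (k (c 2 4095 r (u 5 1 (k v (k v r)))) r)))
 (.c (c 2 4095 r (t 3 1 v))
 (.c (c 3 4097 r (u 2 0 (k (t 6 2 (u 4 0 (k (c 12 4099 r r) r))) r)))
 (.c (t 2 2 r)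
 (.c (c 2 4095 r (t 3 5 v))
 (.c (c 2 4095 r (t 3 3 v))
 (.c (c 3 4096 r (u 2 0 (k (t 6 2 (u 4 0 (k (c 12 4099 r r) r))) r)))
 (.c (c 2 4095 r (t 3 3 v))
 (.c (c 2 4095 r r)
 (.c (c 3 4096 r (u 2 0 (k (t 6 2 (u 4 0 (k (c 12 4099 r r) r))) r)))
 (.c (c 2 4095 r (u 3 0 (k r r)))
 (.c (u 2 0 (k (t 6 1 (u 4 0 (k (t 12 1 (u 3 1 (k r (k (u 8 9 (k v (k v (k (c 2 4086 r v) r)))) r)))) r))) r))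
 (.c (c 2 4095 r (t 3 1 v))
 (.c (c 2 4095 r (u 3 0 (k (t 7 1 r) r)))
 (.c (c 2 4095 r (t 3 3 v))
 (.c (t 3 6 (t 2 3 v))
 (.c (t 2 2 r)
 (.c (u 2 0 (k (t 6 2 (u 4 0 (k (c 12 4099 r (u 3 28 (k r (k (c 3 4094 v r) (k r (k (c 7 4099 r r) (k (c 8 4097 r r) (k (u 5 0 (k (u 9 0 (k r (k r r))) r)) (k r (k r r)))))))))) r))) r))
 (.c (t 3 2 r)
 (.c (t 3 1 r)
 (.c (u 2 0 (k (c 6 4099 r (u 4 0 (k (t 12 2 (u 8 2 (k (u 3 2 (k v (k (c 7 4099 r (u 5 0 (k v (k v r)))) (k (u 5 1 (k v (k v r))) (k (u 5 1 (k v (k v r))) (k (c 7 4097 r (u 5 1 (k v (k v r)))) (k (c 5 4095 r (u 7 1 (k v (k v r)))) r))))))) (k (c 4 4082 r (c 3 4099 r v)) r)))) r))) r))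
 (.c (c 2 4095 r (t 3 1 v))
 (.c (t 3 1 r)
 (.c (c 2 4095 r r)
 (.c (u 3 2 (k (c 2 4095 r v) (k (c 5 4097 r (u 2 0 (k (c 6 4099 r (u 7 0 (k r (k r r)))) r))) r)))
 (.c (c 2 4095 r (t 3 1 v))
 (.c (t 2 3 r)
 (.c (t 3 1 r)
 (.c (c 2 4095 r r)
 (.c (c 3 4096 r (u 2 0 (k (t 6 2 (u 4 0 (k (c 12 4099 r r) r))) r)))
 (.c (c 2 4095 r (t 3 1 v))
 (.c (c 3 4095 r (u 2 0 (k (t 6 2 (u 4 0 (k (c 12 4099 r r) r))) r)))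
 (.c (c 3 4095 r (u 2 0 (k (t 6 2 (u 4 0 (k (c 12 4099 r r) r))) r)))
 (.c (c 2 4095 r r)
 (.c (c 3 4095 r (u 2 0 (k (t 6 2 (u 4 0 (k (c 12 4099 r r) r))) r)))
 (.c (c 2 4095 r (t 3 1 v))
 (.c (c 3 4095 r (u 2 0 (k (t 6 2 (u 4 0 (k (c 12 4099 r r) r))) r)))
 (.c (c 2 4095 r r)
 (.c (c 2 4095 r (u 3 0 (k (t 7 2 r) r)))
 (.c (c 2 4095 r (t 3 3 v))
 (.c (c 2 4095 r (u 3 0 (k (t 7 2 r) r)))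
 (.c (t 2 2 r)
 (.c (c 2 4095 r r)
 (.c (c 2 4095 r r)
 (.c (t 2 2 (t 3 7 v))
 (.c (t 2 2 r)
 (.c (t 2 3 (t 3 1 v))
 (.c (u 2 0 (k (t 6 1 (u 3 0 (k (u 4 0 (k (t 12 1 (u 8 9 (k (c 6 4099 v (c 20 4101 v (u 5 0 (k v (k v r))))) (k (u 5 0 (k v (k v r))) (k (c 2 4086 r (c 5 4103 r v)) r))))) r)) r))) r))
 (.c (c 2 4095 r r)
 (.c (c 2 4095 r r)
 (.c (c 2 4095 r (u 3 0 (k (t 7 2 r) r)))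
 (.c (c 3 4095 r (u 2 0 (k (t 6 2 (u 4 0 (k (c 12 4099 r r) r))) r)))
 (.c (c 2 4095 r r)
 (.c (u 3 0 (k (t 2 3 v) (k (u 2 0 (k (t 6 2 (u 5 1 (k (u 4 0 (k (c 12 4099 r r) r)) (k (c 13 4099 r (u 4 0 (k (c 12 4099 r (u 9 1 (k r (k r r)))) r))) (k (t 9 2 (c 6 4094 v r)) (k (c 9 4099 r (u 4 0 (k (c 12 4099 r (u 13 1 (k r (k r r)))) r))) (k (c 9 4099 r (u 4 0 (k (c 12 4099 r (u 13 1 (k r (k r r)))) r))) (k (c 9 4099 r (u 4 0 (k (c 12 4099 r (u 13 1 (k r (k r r)))) r))) r)))))))) r)) r)))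
 (.c (c 2 4095 r r)
 (.c (c 2 4095 r (u 3 0 (k (t 7 3 r) r)))
 (.c (c 2 4095 r (u 3 1 (k v (k v r))))
 (.c (c 2 4095 r r)
 (.c (c 2 4095 r (t 3 2 v))
 (.c (u 3 9 (k r (k (c 2 4095 r v) (k (c 7 4099 r r) (k (t 2 2 r) (k (c 7 4101 r (u 5 0 (k (t 13 1 (u 9 0 (k (t 17 3 (t 25 3 r)) r))) r))) (k (c 5 4099 r r) r)))))))
 (.c (c 2 4095 r r)
 (.c (t 2 3 (u 3 1 (k v (k v r))))
 (.c (c 3 4095 r (u 2 0 (k (t 6 2 (u 4 0 (k (c 12 4099 r r) r))) r)))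
 (.c (t 2 2 r)
 (.c (c 2 4095 r (t 3 2 v))
 (.c (u 2 0 (k (c 6 4099 r (u 4 0 (k (t 12 2 (u 8 2 (k (u 3 6 (k v (k v (k (u 5 1 (k v (k v r))) (k (c 5 4097 r (u 7 0 (k v (k v r)))) (k (c 5 4097 r (u 7 0 (k v (k v r)))) r)))))) (k (c 2 4084 (u 8 3 (k v (k v r))) (t 3 2 v)) r)))) r))) r))
 (.c (t 3 1 r)
 (.c (c 2 4095 r (t 3 1 v))
 (.c (c 2 4095 r (t 3 2 v))
 (.c (c 2 4095 r (u 3 0 (k r (k r (k r r)))))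
 (.c (c 3 4095 r (u 2 0 (k (t 6 2 (u 4 0 (k (c 12 4099 r r) r))) r)))
 .z)))))))))))))))))))))))))))))))))))))))))))))))))))))))))))))))))))))))))))))))))))))))))))))))))))

set_option maxRecDepth 100000 in
def R99 : PR :=
 (.t 0 (.t 0 (.c (c 2 4095 r (t 3 1 v))
 (.c (c 2 4095 r (t 3 1 v))
 (.c (t 3 1 (u 2 0 (k (t 6 1 (u 4 163 (k v (k v r)))) r)))
 (.c (t 3 3 (u 2 0 (k (t 6 1 (u 4 166 (k v (k v (k v (k v r)))))) r)))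
 (.c (t 3 1 (t 2 3 v))
 (.t 12 (.c (c 2 4095 r (t 3 3 v))
 (.c (t 3 3 (u 2 0 (k (t 6 1 (u 4 163 (k v (k v r)))) r)))
 (.c (c 2 4095 r (t 3 3 v))
 (.c (c 2 4095 r (t 3 1 v))
 (.c (c 2 4095 r (t 3 1 v))
 (.c (c 2 4095 r (t 3 2 v))
 (.t 132 (.c (c 2 4095 r (t 3 1 v))
 (.c (u 3 0 (k (u 2 0 (k (t 6 1 r) r)) (k (u 2 0 (k (t 6 1 r) r)) r)))
 (.t 0 (.c (c 2 4095 r (t 3 1 v))
 (.c (c 2 4095 r (t 3 1 v))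
 (.c (c 2 4095 r (t 3 2 v))
 (.c (c 2 4095 r (t 3 1 v))
 (.c (t 2 4 (t 3 3 v))
 (.c (c 2 4095 r (t 3 3 v))
 (.c (t 2 3 (u 3 1 (k v (k v r))))
 (.c (c 2 4095 r (t 3 3 v))
 (.c (u 2 0 (k (t 6 1 (u 4 116 (k (u 3 0 (k (t 5 3 (t 7 1 v)) r)) (k (u 3 0 (k (t 5 3 (t 7 1 v)) r)) (k (c 2 4086 v (u 3 0 (k (t 5 3 (t 7 1 v)) r))) r))))) r))
 (.c (c 2 4095 r (t 3 3 v))
 (.c (t 2 3 r)
 (.c (c 2 4095 r (t 3 1 v))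
 (.c (t 2 1 (u 3 0 (k (u 5 1 (k v (k v r))) r)))
 (.c (t 3 3 (t 2 3 v))
 (.c (c 2 4095 r (t 3 5 v))
 (.c (c 2 4095 r (t 3 3 v))
 (.c (u 3 0 (k (t 5 3 (t 7 1 (u 2 0 (k (t 6 1 r) r)))) r))
 (.c (c 2 4095 r (t 3 3 v))
 (.c (c 2 4095 r r)
 (.c (u 2 0 (k (t 6 1 (u 3 0 (k r (k r (k (t 7 1 (u 5 0 (k (t 9 3 (t 13 1 r)) r))) r))))) r))
 (.c (c 2 4095 r (u 3 0 (k r r)))
 (.t 151 (.c (c 2 4095 r (t 3 1 v))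
 (.c (c 2 4095 r (u 3 0 (k (t 7 1 r) r)))
 (.c (c 2 4095 r (t 3 3 v))
 (.c (t 3 6 (u 2 0 (k (t 6 1 r) r)))
 (.c (u 3 31 (k (u 2 0 (k (t 6 1 r) r)) (k (u 2 0 (k (t 6 1 r) r)) (k (u 2 0 (k (t 6 1 r) r)) r))))
 (.c (u 2 0 (k (t 6 1 (u 3 18 (k r (k r (k r (k r (k r (k (u 5 0 (k (u 9 23 (k r (k r r))) r)) (k r (k r r)))))))))) r))
 (.c (t 3 2 r)
 (.c (t 3 1 r)
 (.c (u 2 0 (k (t 6 1 (u 3 2 (k (u 4 0 (k v (k v r))) (k (c 7 4099 r r) (k r (k (u 5 0 (k (u 4 0 (k v (k v r))) (k r r))) (k (c 7 4097 r r) (k (c 5 4095 r r) r)))))))) r))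
 (.c (c 2 4095 r (t 3 1 v))
 (.c (t 3 1 r)
 (.c (c 2 4095 r r)
 (.c (u 2 0 (k (t 6 1 (u 3 2 (k r (k (c 7 4097 r r) r)))) r))
 (.c (c 2 4095 r (t 3 1 v))
 (.c (u 2 0 (k (t 6 1 (u 3 449 (k r (k (u 4 0 (k v (k v r))) (k r (k (u 4 0 (k v (k v r))) (k r (k (t 7 1 (u 4 114 (k (t 5 1 v) (k r (k (c 12 4101 r r) (k r (k (c 8 4101 r r) (k r (k (c 8 4101 r r) r))))))))) r)))))))) r))
 (.c (t 3 1 r)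
 (.c (c 2 4095 r r)
 (.c (c 2 4095 r r)
 (.c (c 2 4095 r (t 3 1 v))
 (.c (c 2 4095 r r)
 (.c (c 2 4095 r r)
 (.c (c 2 4095 r r)
 (.c (c 2 4095 r r)
 (.c (c 2 4095 r (t 3 1 v))
 (.c (c 2 4095 r r)
 (.c (c 2 4095 r r)
 (.c (c 2 4095 r (u 3 0 (k (t 7 2 r) r)))
 (.c (c 2 4095 r (t 3 3 v))
 (.c (c 2 4095 r (u 3 0 (k (t 7 2 r) r)))
 (.c (u 2 0 (k (t 6 1 (u 4 170 (k r (k r (k (u 3 0 (k v (k v r))) (k (c 8 4101 r r) (k (c 2 4087 r (t 3 2 v)) (k (c 8 4099 r r) (k (c 12 4101 r r) (k (c 12 4102 r r) (k (c 8 4101 r r) (k (c 8 4101 r r) r)))))))))))) r))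
 (.c (c 2 4095 r r)
 (.c (c 2 4095 r r)
 (.c (t 3 7 (u 2 0 (k (t 6 1 (c 11 4101 v r)) r)))
 (.c (u 2 0 (k (t 6 1 (u 3 9 (k r (k r (k r (k r r)))))) r))
 (.c (t 3 1 (u 2 0 (k (t 6 1 r) r)))
 (.c (u 2 0 (k (t 6 1 (u 3 0 (k r r))) r))
 (.c (c 2 4095 r r)
 (.c (c 2 4095 r r)
 (.c (c 2 4095 r (u 3 0 (k (t 7 2 r) r)))
 (.c (t 3 1 r)
 (.c (c 2 4095 r r)
 (.c (u 3 0 (k (u 2 0 (k (t 6 1 r) r)) (k (u 2 0 (k (t 6 1 (u 5 7 (k (u 4 0 (k v (k v r))) (k (u 4 0 (k v (k v r))) (k r (k (c 13 4099 r (u 9 1 (k r (k r r)))) r)))))) r)) r)))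
 (.c (c 2 4095 r r)
 (.c (c 2 4095 r (u 3 0 (k (t 7 3 r) r)))
 (.c (c 2 4095 r (u 3 1 (k v (k v r))))
 (.c (c 2 4095 r r)
 (.c (c 2 4095 r (t 3 2 v))
 (.c (u 2 0 (k (t 6 1 (u 3 86 (k r (k (c 7 4099 r r) (k (c 7 4099 r (c 2 4095 (u 2 0 (k v (k v r))) r)) (k (c 7 4099 r r) (k r (k (c 7 4101 r r) (k (c 5 4099 r r) r))))))))) r))
 (.c (c 2 4095 r r)
 (.c (u 3 1 (k (u 2 0 (k (t 6 1 r) r)) (k (u 2 0 (k (t 6 1 r) r)) r)))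
 (.c (c 2 4095 r r)
 (.c (u 3 0 (k (u 2 0 (k (t 6 1 r) r)) (k (u 2 0 (k (t 6 1 r) r)) (k r (k (t 7 3 (u 2 0 (k (t 6 1 (u 5 6 (k r (k (c 4 4103 r v) (k (t 13 1 (u 4 0 (k (u 9 0 (k v (k v r))) (k (c 2 4086 v (c 11 4099 v (u 9 3 (k v (k v r))))) r)))) r))))) r))) r)))))
 (.c (c 2 4095 r (t 3 2 v))
 (.c (u 2 0 (k (t 6 1 (u 3 6 (k r (k (u 4 0 (k v (k v r))) (k (u 5 0 (k (u 4 0 (k v (k v r))) (k r r))) (k (c 5 4097 r r) (k (c 5 4097 r r) r))))))) r))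
 (.c (t 3 1 r)
 (.c (c 2 4095 r (t 3 1 v))
 (.c (c 2 4095 r (t 3 2 v))
 (.c (c 2 4095 r (u 3 0 (k r (k r (k r r)))))
 (.c (c 2 4095 r (u 3 0 (k (t 7 2 (u 5 0 (k (c 13 4099 r r) r))) r)))
 (.c (t 2 3 (t 3 3 v))
 .z))))))))))))))))))))))))))))))))))))))))))))))))))))))))))))))))))))))))))))))))))))))))))))))))))))

set_option maxRecDepth 100000 in
def R100 : PR :=
 (.t 0 (.t 0 (.c (c 2 4095 r (t 3 1 v))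
 (.c (c 2 4095 r (t 3 1 v))
 (.c (t 3 1 (u 2 4 (k v (k v (k v (k v r))))))
 (.c (t 3 3 (u 2 4 (k v (k v (k v (k v r))))))
 (.c (t 3 1 r)
 (.t 12 (.c (c 2 4095 r (t 3 3 v))
 (.c (t 3 3 (u 2 4 (k v (k v (k v (k v r))))))
 (.c (c 2 4095 r (t 3 3 v))
 (.c (c 2 4095 r (t 3 1 v))
 (.c (c 2 4095 r (t 3 1 v))
 (.c (c 2 4095 r (t 3 2 v))
 (.t 87 (.c (c 2 4095 r (t 3 1 v))
 (.t 128 (.t 0 (.c (c 2 4095 r (t 3 1 v))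
 (.c (c 2 4095 r (t 3 1 v))
 (.c (c 2 4095 r (t 3 2 v))
 (.c (c 2 4095 r (t 3 1 v))
 (.c (t 3 3 (u 2 5 (k v (k v (k v r)))))
 (.c (c 2 4095 r (t 3 3 v))
 (.c (u 3 1 (k (c 2 4095 r v) (k (u 2 4 (k v (k v (k v (k v r))))) r)))
 (.c (c 2 4095 r (t 3 3 v))
 (.c (u 2 1 (k (u 3 0 (k (t 5 3 (t 7 1 v)) r)) (k (u 3 0 (k (t 5 3 (t 7 1 v)) r)) (k (u 3 0 (k (t 5 3 (t 7 1 v)) r)) (k (t 3 1 (t 6 1 r)) r)))))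
 (.c (c 2 4095 r (t 3 3 v))
 (.c (u 2 2 (k r (k r (k r (k r r)))))
 (.c (c 2 4095 r (t 3 1 v))
 (.c (u 3 0 (k (u 5 2 (k (c 2 4095 r v) (k (u 2 4 (k v (k v (k v (k v r))))) r))) r))
 (.c (t 3 3 r)
 (.c (c 2 4095 r (t 3 5 v))
 (.c (c 2 4095 r (t 3 3 v))
 (.t 0 (.c (c 2 4095 r (t 3 3 v))
 (.c (c 2 4095 r r)
 (.t 0 (.c (c 2 4095 r (u 3 0 (k r r)))
 (.t 87 (.c (c 2 4095 r (t 3 1 v))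
 (.c (c 2 4095 r (u 3 0 (k (t 7 1 r) r)))
 (.c (c 2 4095 r (t 3 3 v))
 (.c (t 3 3 r)
 (.c (u 2 1 (k r (k r (k (u 3 95 (k v (k v (k r (k r (k (u 5 2 (k v (k v r))) (k (c 2 4090 v r) r))))))) (k (t 6 1 (u 4 4 (k r (k r r)))) r)))))
 (.c (u 2 2 (k r (k r (k r (k (u 3 29 (k v (k v (k r (k (u 5 0 (k (u 9 0 (k v (k v r))) r)) (k r (k (c 7 4099 r (u 5 0 (k (u 9 0 (k v (k v r))) r))) (k r (k r r))))))))) r)))))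
 (.c (t 3 3 r)
 (.c (u 3 4 (k r (k (t 7 1 (u 5 2 (k (c 2 4095 r v) (k r r)))) r)))
 (.t 87 (.c (c 2 4095 r (t 3 1 v))
 (.c (t 3 1 r)
 (.c (c 2 4095 r r)
 (.t 120 (.c (c 2 4095 r (t 3 1 v))
 (.t 128 (.c (u 2 1 (k r (k r (k r (k (t 6 1 (u 4 6 (k r (k (c 12 4099 r (u 8 25 (k r (k r r)))) r)))) r)))))
 (.c (c 2 4095 r r)
 (.c (c 2 4095 r r)
 (.c (c 2 4095 r (t 3 1 v))
 (.c (c 2 4095 r r)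
 (.c (c 2 4095 r r)
 (.c (c 2 4095 r r)
 (.c (c 2 4095 r r)
 (.c (c 2 4095 r (t 3 1 v))
 (.c (c 2 4095 r r)
 (.c (c 2 4095 r r)
 (.c (c 2 4095 r (u 3 0 (k (t 7 2 r) r)))
 (.c (c 2 4095 r (t 3 3 v))
 (.c (c 2 4095 r (u 3 0 (k (t 7 2 r) r)))
 (.c (u 2 1 (k r (k r (k r (k (t 6 1 (u 4 4 (k r (k r r)))) r)))))
 (.c (c 2 4095 r r)
 (.c (c 2 4095 r r)
 (.c (t 3 7 (u 2 6 (k v (k v (k v (k v r))))))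
 (.c (u 2 4 (k r (k r (k r (k (u 3 31 (k (t 7 1 r) (k (t 7 1 r) (k (t 7 1 r) (k r (k r (k (t 7 1 r) r))))))) r)))))
 (.t 156 (.t 87 (.c (c 2 4095 r r)
 (.c (c 2 4095 r r)
 (.c (c 2 4095 r (u 3 0 (k (t 7 2 r) r)))
 (.c (t 3 1 r)
 (.c (c 2 4095 r r)
 (.c (u 2 2 (k r (k r (k r (k (u 3 2 (k v (k (u 5 1 (k v (k (c 13 4099 r (u 9 1 (k v (k v r)))) (k (u 9 0 (k v (k v r))) (k (c 9 4099 r (u 13 1 (k v (k v r)))) (k (c 9 4099 r (u 13 1 (k v (k v r)))) (k (c 9 4099 r (u 13 1 (k v (k v r)))) r))))))) (k (c 5 4100 r (u 7 0 (k (u 11 0 (k v (k v r))) r))) r)))) r)))))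
 (.c (c 2 4095 r r)
 (.c (c 2 4095 r (u 3 0 (k (t 7 3 r) r)))
 (.c (c 2 4095 r (u 3 1 (k v (k v r))))
 (.c (c 2 4095 r r)
 (.c (c 2 4095 r (t 3 2 v))
 (.t 87 (.c (c 2 4095 r r)
 (.t 128 (.c (c 2 4095 r r)
 (.c (u 2 1 (k r (k r (k r (k (t 6 1 (u 4 4 (k r (k r r)))) r)))))
 (.c (c 2 4095 r (t 3 2 v))
 (.t 90 (.c (t 3 1 r)
 (.c (c 2 4095 r (t 3 1 v))
 (.c (c 2 4095 r (t 3 2 v))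
 (.c (c 2 4095 r (u 3 0 (k r (k r (k r r)))))
 (.c (c 2 4095 r (u 3 0 (k (t 7 2 (u 5 0 (k (c 13 4099 r r) r))) r)))
 (.c (t 3 3 (u 2 0 (k v (k v (k v (k (t 6 1 (c 7 4094 v (u 4 1 (k (c 12 4099 r (u 8 14 (k v (k (c 2 4079 (c 2 4076 (u 4 0 (k r r)) v) v) r)))) (k (u 8 0 (k v (k (c 24 4101 r (u 16 1 (k v (k v r)))) (k (c 16 4101 r (u 24 1 (k v (k v r)))) (k (c 16 4101 r (u 24 1 (k v (k v r)))) r))))) r))))) (k (t 6 1 (c 7 4094 v (u 4 0 (k (c 12 4097 r (c 5 4101 v r)) r)))) r)))))))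
 (.c (u 2 7 (k (c 3 4095 r v) (k (c 3 4095 r v) (k (u 3 8 (k v (k v (k v (k (t 7 1 (u 5 3 (k v (k (c 13 4099 r (u 9 4 (k v (k v r)))) r)))) (k (t 7 1 (u 5 0 (k (c 13 4097 r (c 2 4090 v r)) r))) r)))))) (k (t 6 1 (c 3 4095 r (u 4 0 (k r (k (c 12 4099 r (u 8 5 (k v (k (u 16 0 (k (u 32 0 (k v (k v r))) r)) r)))) r))))) (k (t 6 1 (c 3 4095 r (u 4 0 (k (c 12 4097 r r) r)))) r))))))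
 .z)))))))))))))))))))))))))))))))))))))))))))))))))))))))))))))))))))))))))))))))))))))))))))))))))))))

set_option maxRecDepth 100000 in
def R101 : PR :=
 (.t 87 (.c (u 2 5 (k v (k r (k (t 4 1 (u 6 0 (k (t 10 3 (t 14 1 v)) r))) (k (t 4 2 (u 6 0 (k (t 10 3 (t 14 1 v)) r))) (k (t 4 1 (u 6 0 (k (t 10 3 (t 14 1 v)) r))) r))))))
 (.t 87 (.c (t 3 1 r)
 (.c (t 3 1 (u 2 6 (k v (k (c 6 4096 r r) (k (c 6 4096 r r) (k (c 6 4096 r r) (k (c 6 4096 r r) r)))))))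
 (.c (t 3 3 r)
 (.c (t 3 1 (u 2 6 (k v (k (t 4 1 (u 6 0 (k (c 14 4101 r (t 10 3 v)) r))) (k (c 6 4096 r r) (k (c 6 4096 r r) (k (c 6 4096 r r) r)))))))
 (.c (t 3 1 (u 2 0 (k r (k (t 6 2 r) (k (t 6 2 r) (k r (k r r)))))))
 (.c (c 2 4100 r (t 3 3 v))
 (.c (t 2 1 (t 3 3 v))
 (.c (c 2 4100 r (t 3 3 v))
 (.c (c 2 4100 r (t 3 1 v))
 (.c (c 2 4100 r (t 3 1 v))
 (.t 126 (.t 78 (.c (c 2 4100 r (t 3 1 v))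
 (.c (u 3 0 (k r (k r r)))
 (.c (u 3 4 (k r (k r (k (u 2 3 (k v (k (t 4 1 (u 6 0 (k (t 10 3 (t 14 1 v)) r))) (k (c 6 4096 r r) (k (t 4 2 (u 6 0 (k (t 10 3 (t 14 1 v)) r))) (k (t 4 1 (u 6 0 (k (t 10 3 (t 14 1 v)) r))) r)))))) r))))
 (.c (t 3 1 r)
 (.c (t 3 1 r)
 (.c (u 2 0 (k (t 4 1 r) (k (c 3 4096 r r) (k (t 4 1 r) (k (t 4 2 r) (k (t 4 1 r) r))))))
 (.c (t 2 1 (t 3 1 v))
 (.c (t 2 4 (t 3 3 v))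
 (.c (t 2 1 (t 3 3 v))
 (.c (u 3 1 (k (c 2 4100 r v) (k (u 2 7 (k v (k (t 6 2 (u 4 2 (k v (k v r)))) (k (c 6 4096 r (u 4 27 (k v (k v (k v (k v (k (c 12 4099 r (u 8 1 (k v (k v r)))) r))))))) (k (c 6 4096 r (u 4 2 (k v (k (c 12 4099 r (u 8 1 (k v (k v r)))) (k (c 8 4095 r (u 12 0 (k v (k v r)))) r))))) r))))) r)))
 (.c (t 3 2 r)
 (.c (u 3 0 (k (t 7 1 (t 5 3 (u 2 6 (k v (k (c 6 4096 r r) (k (c 6 4096 r r) (k (c 6 4096 r r) (k (c 6 4096 r r) r)))))))) r))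
 (.c (c 2 4100 r (t 3 3 v))
 (.c (u 3 2 (k r (k (c 2 4100 r (u 5 1 (k v (k v r)))) r)))
 (.c (c 2 4100 r (t 3 1 v))
 (.c (t 2 1 (u 3 0 (k (u 5 1 (k v (k v r))) r)))
 (.c (t 3 2 (t 2 5 v))
 (.c (c 2 4100 r (t 3 5 v))
 (.c (c 2 4100 r (t 3 3 v))
 (.c (u 3 0 (k (t 5 3 (t 7 1 (u 2 0 (k (t 4 1 (u 6 0 (k (t 10 3 (t 14 1 v)) r))) (k (c 6 4096 r r) (k (c 6 4096 r (u 4 1 (k v (k (c 12 4097 r (u 8 0 (k v (k v r)))) r)))) (k (t 6 2 r) (k (t 4 1 (u 6 0 (k (t 10 3 (t 14 1 v)) r))) r)))))))) r))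
 (.c (c 2 4100 r (t 3 3 v))
 (.c (c 2 4100 r r)
 (.c (u 2 0 (k (t 6 2 r) (k (c 3 4096 r r) (k r (k r (k r r))))))
 (.c (c 2 4100 r (u 3 0 (k r r)))
 (.t 152 (.c (c 2 4100 r (t 3 1 v))
 (.c (c 2 4100 r (u 3 0 (k (t 7 1 r) r)))
 (.c (c 2 4100 r (t 3 3 v))
 (.c (t 3 6 r)
 (.c (u 3 31 (k r (k r (k r r))))
 (.c (u 2 8 (k (u 3 5 (k v (k r (k r (k (c 7 4099 r (u 5 0 (k (u 9 0 (k v (k v r))) r))) (k r (k (u 5 0 (k (u 9 0 (k v (k v r))) r)) (k r (k r r))))))))) (k (t 4 1 (u 6 0 (k (c 14 4101 r (t 10 3 r)) r))) (k (c 6 4096 r r) (k (t 4 2 (u 6 0 (k (c 14 4101 r (t 10 3 r)) r))) (k (t 4 1 (u 6 0 (k (c 14 4101 r (t 10 3 r)) r))) r))))))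
 (.c (t 3 2 r)
 (.c (t 3 1 r)
 (.c (u 2 0 (k r (k (t 4 1 (u 6 0 (k (c 14 4101 r (t 10 3 r)) r))) (k (t 4 1 (u 6 0 (k (c 14 4101 r (t 10 3 r)) r))) (k r (k r r))))))
 (.c (t 3 1 r)
 (.c (t 3 1 r)
 (.c (t 3 1 r)
 (.c (u 2 0 (k (t 4 1 r) (k (t 4 1 r) (k (t 4 1 r) (k (t 4 2 r) (k (t 4 1 r) r))))))
 (.c (t 3 2 r)
 (.c (u 3 99 (k r (k r (k r r))))
 (.c (t 3 1 r)
 (.c (c 2 4100 r r)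
 (.c (t 2 4 r)
 (.c (u 2 0 (k (t 4 1 (u 6 0 (k (c 14 4101 r (t 10 3 r)) r))) (k (c 3 4096 r r) (k (t 4 1 (u 6 0 (k (c 14 4101 r (t 10 3 r)) r))) (k (t 4 2 (u 6 0 (k (c 14 4101 r (t 10 3 r)) r))) (k (t 4 1 (u 6 0 (k (c 14 4101 r (t 10 3 r)) r))) r))))))
 (.c (t 2 1 r)
 (.c (t 3 1 (u 2 6 (k v (k (c 6 4096 r r) (k (c 6 4096 r r) (k (c 6 4096 r r) (k (c 6 4096 r r) r)))))))
 (.c (t 3 3 r)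
 (.c (t 3 2 r)
 (.c (t 3 1 r)
 (.c (u 3 5 (k r (k r r)))
 (.c (c 2 4100 r r)
 (.c (t 3 5 r)
 (.c (c 2 4100 r (t 3 3 v))
 (.c (t 2 1 (u 3 0 (k (t 7 3 r) r)))
 (.c (t 2 1 r)
 (.c (t 2 4 (u 3 0 (k (t 7 3 r) r)))
 (.c (t 2 4 r)
 (.c (t 3 3 (u 2 0 (k (c 6 4096 r r) (k (c 6 4096 r r) (k (c 6 4096 r r) (k (c 6 4096 r r) (k (c 6 4096 r r) r)))))))
 (.c (u 2 0 (k (t 4 1 r) (k (c 6 4096 r r) (k (c 6 4096 r r) (k (t 4 2 r) (k (t 4 1 r) r))))))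
 (.c (t 3 1 r)
 (.c (u 3 0 (k (u 2 0 (k (t 4 1 (u 6 0 (k (c 14 4101 r (t 10 3 r)) r))) (k (t 4 1 (u 6 0 (k (c 14 4101 r (t 10 3 r)) r))) (k (c 6 4096 r r) (k (t 4 2 (u 6 0 (k (c 14 4101 r (t 10 3 r)) r))) (k (t 4 1 (u 6 0 (k (c 14 4101 r (t 10 3 r)) r))) r)))))) r))
 (.c (t 2 1 r)
 (.c (u 3 4 (k r (k r r)))
 (.c (c 2 4100 r (u 3 0 (k (t 7 2 r) r)))
 (.c (t 3 1 r)
 (.c (c 2 4100 r r)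
 (.c (u 3 0 (k r (k (u 2 0 (k (t 4 1 (u 6 0 (k (c 14 4101 r (t 10 3 r)) r))) (k (c 6 4096 r r) (k (c 6 4096 r r) (k (t 4 2 (u 6 0 (k (c 14 4101 r (t 10 3 r)) r))) (k (t 4 1 (u 6 0 (k (c 14 4101 r (t 10 3 r)) r))) r)))))) r)))
 (.c (t 3 2 r)
 (.c (t 2 4 (u 3 0 (k (t 7 3 r) r)))
 (.c (t 2 4 (u 3 2 (k v (k v r))))
 (.c (t 2 4 r)
 (.c (u 2 6 (k (u 3 0 (k r r)) (k (t 4 1 r) (k (c 3 4100 r r) (k (t 4 2 r) (k (t 4 1 r) r))))))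
 (.c (u 2 0 (k r (k (t 4 1 (u 6 0 (k (c 14 4101 r (t 10 3 r)) r))) (k (t 4 1 (u 6 0 (k (c 14 4101 r (t 10 3 r)) r))) (k r (k r r))))))
 (.c (t 3 3 r)
 (.c (u 3 1 (k r (k r r)))
 (.c (t 2 4 r)
 (.c (u 3 12 (k r (k r r)))
 (.c (u 2 0 (k (t 4 1 (u 6 0 (k (c 14 4101 r (t 10 3 r)) r))) (k (c 3 4098 r r) (k (t 4 1 (u 6 0 (k (c 14 4101 r (t 10 3 r)) r))) (k (t 4 2 (u 6 0 (k (c 14 4101 r (t 10 3 r)) r))) (k (t 4 1 (u 6 0 (k (c 14 4101 r (t 10 3 r)) r))) r))))))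
 (.c (u 2 0 (k r (k (t 4 1 (u 6 0 (k (c 14 4101 r (t 10 3 r)) r))) (k (t 4 1 (u 6 0 (k (c 14 4101 r (t 10 3 r)) r))) (k r (k r r))))))
 (.c (t 3 1 r)
 (.c (t 3 1 r)
 (.c (t 2 6 (t 3 1 v))
 (.c (u 3 0 (k (t 5 1 (u 7 8 (k r (k r r)))) (k (t 5 2 (u 7 8 (k r (k r r)))) (k (t 5 1 (u 7 8 (k r (k r r)))) r))))
 (.c (t 3 2 r)
 (.c (u 2 0 (k (t 6 2 (u 3 0 (k (t 7 1 r) r))) (k (c 3 4095 r r) (k (c 3 4095 r (t 4 1 (u 6 0 (k (t 10 3 (t 14 1 v)) r)))) (k (t 6 2 (u 3 0 (k (t 7 1 r) r))) (k (t 6 2 (u 3 0 (k (t 7 1 r) r))) r))))))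
 (.c (u 3 4 (k r (k r (k r (k (u 2 3 (k v (k (t 6 2 r) (k (c 6 4096 r (u 4 1 (k v (k (u 8 1 (k v (k v r))) (k (c 12 4099 r (u 8 0 (k v (k v r)))) (k (u 8 1 (k v (k v r))) (k (c 12 4097 r (u 8 1 (k v (k v r)))) (k (c 8 4095 r (u 12 1 (k v (k v r)))) r)))))))) (k r (k (t 6 2 r) r)))))) r)))))
 (.c (t 2 1 r)
 .z))))))))))))))))))))))))))))))))))))))))))))))))))))))))))))))))))))))))))))))))))))))))))))))))))))))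

set_option maxRecDepth 100000 in
def R102 : PR :=
 (.t 87 (.t 91 (.t 87 (.c (t 3 1 r)
 (.c (t 2 3 (t 3 1 v))
 (.c (t 2 3 (t 3 3 v))
 (.c (t 2 3 (t 3 1 v))
 (.c (t 3 1 (u 2 0 (k (t 6 1 r) (k (t 6 1 r) (k (t 6 1 r) (k (c 3 4099 v (t 6 1 r)) (k (t 6 1 r) (k (t 6 1 r) r))))))))
 (.c (c 2 4100 r (t 3 3 v))
 (.c (t 2 3 (t 3 3 v))
 (.c (c 2 4100 r (t 3 3 v))
 (.c (c 2 4100 r (t 3 1 v))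
 (.c (c 2 4100 r (t 3 1 v))
 (.t 126 (.t 78 (.c (c 2 4100 r (t 3 1 v))
 (.c (u 3 0 (k r (k r r)))
 (.t 124 (.c (t 3 1 r)
 (.c (t 2 3 (t 3 3 v))
 (.c (u 3 0 (k (u 5 7 (k r (k r r))) r))
 (.c (t 2 3 (t 3 1 v))
 (.c (t 2 2 (t 3 3 v))
 (.c (t 2 3 (t 3 3 v))
 (.c (t 2 3 (u 3 3 (k v (k v r))))
 (.c (t 2 3 (t 3 3 v))
 (.c (t 2 3 (u 3 0 (k (t 5 3 (t 7 1 v)) r)))
 (.c (c 2 4100 r (t 3 3 v))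
 (.c (t 2 3 r)
 (.c (c 2 4100 r (t 3 1 v))
 (.c (t 2 3 (u 3 0 (k (u 5 1 (k v (k v r))) r)))
 (.c (t 2 3 r)
 (.c (c 2 4100 r (t 3 5 v))
 (.c (c 2 4100 r (t 3 3 v))
 (.c (t 2 3 (u 3 0 (k (t 5 3 (t 7 1 v)) r)))
 (.c (c 2 4100 r (t 3 3 v))
 (.c (c 2 4100 r r)
 (.c (u 3 6 (k r (k r (k r (k (t 2 3 v) r)))))
 (.c (c 2 4100 r (u 3 0 (k r r)))
 (.t 152 (.c (c 2 4100 r (t 3 1 v))
 (.c (c 2 4100 r (u 3 0 (k (t 7 1 r) r)))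
 (.c (c 2 4100 r (t 3 3 v))
 (.c (t 2 3 (t 3 3 v))
 (.c (t 2 3 r)
 (.t 78 (.c (t 3 2 r)
 (.c (t 3 1 r)
 (.c (u 3 4 (k r (k r (k (c 7 4099 r (u 5 0 (k r (k r r)))) (k (u 5 1 (k r (k r r))) (k (u 5 13 (k r (k (t 2 3 v) r))) r))))))
 (.c (t 3 1 (t 2 3 v))
 (.c (t 3 1 (t 2 3 v))
 (.c (t 3 1 r)
 (.c (u 3 1 (k r (k (c 7 4097 r (u 5 0 (k r (k r r)))) r)))
 (.c (t 3 2 r)
 (.c (u 3 159 (k r (k r (k (t 2 3 v) r))))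
 (.c (t 2 3 r)
 (.c (c 2 4100 r r)
 (.c (t 2 2 r)
 (.c (u 3 0 (k (u 5 431 (k r (k (t 2 3 v) (k r (k (t 13 1 (u 2 0 (k r (k (c 4 4099 r r) (k (c 4 4097 r r) (k (c 6 4097 r r) (k r (k r r)))))))) r))))) (k (c 5 4096 r (u 7 0 (k r (k r r)))) (k (u 5 1 (k r (k r r))) (k (c 7 4096 r r) r)))))
 (.c (t 2 3 r)
 (.c (t 2 3 r)
 (.c (t 2 3 (t 3 3 v))
 (.c (t 2 3 (t 3 2 v))
 (.c (t 2 3 (u 3 0 (k (t 7 1 r) r)))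
 (.c (u 3 5 (k r (k r r)))
 (.c (c 2 4100 r r)
 (.c (t 3 5 r)
 (.c (c 2 4100 r (t 3 3 v))
 (.c (t 2 3 (u 3 0 (k (t 7 3 r) r)))
 (.c (t 2 3 r)
 (.c (t 2 2 (u 3 0 (k (t 7 3 r) r)))
 (.c (t 2 2 r)
 (.c (t 2 3 (t 3 7 v))
 (.c (t 2 3 r)
 (.c (t 3 1 r)
 (.c (u 3 0 (k (u 5 0 (k r (k r r))) r))
 (.c (t 2 3 r)
 (.c (t 2 3 r)
 (.c (c 2 4100 r (u 3 0 (k (t 7 2 r) r)))
 (.c (t 3 1 (t 2 3 v))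
 (.c (c 2 4100 r r)
 (.c (u 3 0 (k r (k (u 5 9 (k r (k r (k (t 13 1 (u 9 8 (k (u 2 4 (k v (k r (k (c 3 4096 v (t 6 1 r)) (k r (k r r)))))) (k (c 21 4101 v r) (k (c 13 4099 v (t 2 3 v)) r))))) (k (t 2 3 r) r))))) r)))
 (.c (t 2 3 (t 3 3 v))
 (.c (t 2 2 (u 3 0 (k (t 7 3 r) r)))
 (.c (t 3 1 r)
 (.c (t 2 2 r)
 (.c (t 2 3 (u 3 0 (k r r)))
 (.c (u 2 0 (k r (k (u 6 0 (k r (k (t 4 1 r) (k r r)))) (k r (k (c 3 4099 r (t 6 1 r)) (k r (k r r)))))))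
 (.c (t 3 3 r)
 (.c (u 3 1 (k r (k r r)))
 (.c (t 3 1 r)
 (.c (t 2 3 r)
 (.c (t 2 3 r)
 (.c (u 3 29 (k r (k r (k (u 5 0 (k r (k r r))) (k (c 5 4097 r (u 7 0 (k r (k r r)))) (k (c 5 4097 r (u 7 0 (k r (k r r)))) (k (c 5 4095 r (u 7 0 (k r (k r r)))) r)))))))
 (.c (t 3 1 (t 2 3 v))
 (.c (t 3 1 r)
 (.c (t 2 3 (t 3 1 v))
 (.c (t 2 3 r)
 (.c (t 2 3 (t 3 3 v))
 (.c (t 2 3 (u 3 0 (k (t 7 1 r) r)))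
 (.c (u 3 1 (k r (k r (k r (k (t 2 3 (t 7 1 r)) r)))))
 (.c (t 3 1 r)
 (.c (t 2 3 r)
 .z)))))))))))))))))))))))))))))))))))))))))))))))))))))))))))))))))))))))))))))))))))))))))))))))))))))))

set_option maxRecDepth 100000 in
def R103 : PR :=
 (.c (u 2 0 (k (t 6 2 r) r))
 (.c (u 2 0 (k (t 6 2 r) r))
 (.c (t 3 1 (u 2 0 (k (t 6 2 (u 4 0 (k (c 12 4099 r (u 8 2 (k v (k (c 2 4085 r v) r)))) r))) r)))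
 (.c (c 2 4097 r (t 3 1 v))
 (.c (t 2 4 (t 3 1 v))
 (.c (t 2 4 (t 3 3 v))
 (.c (c 3 4100 r (u 2 0 (k (t 6 2 r) r)))
 (.c (c 3 4099 r (u 2 0 (k (t 6 2 r) r)))
 (.c (c 2 4097 r (t 3 3 v))
 (.c (c 3 4099 r (u 2 0 (k (t 6 2 r) r)))
 (.c (c 2 4097 r (t 3 3 v))
 (.c (c 2 4097 r (t 3 1 v))
 (.c (c 2 4097 r (t 3 1 v))
 (.c (t 2 4 (t 3 3 v))
 (.c (t 3 3 (u 2 0 (k (t 6 2 r) r)))
 (.c (c 2 4097 r (t 3 1 v))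
 (.c (c 3 4097 r (u 2 0 (k (t 6 2 r) r)))
 (.c (c 3 4097 r (u 2 0 (k (t 6 2 r) r)))
 (.c (c 2 4097 r (t 3 1 v))
 (.c (t 2 1 (t 3 1 v))
 (.c (c 3 4096 r (u 2 0 (k (t 6 2 r) r)))
 (.c (c 3 4095 r (u 2 0 (k (t 6 2 r) r)))
 (.c (c 3 4099 r (u 2 0 (k (t 6 2 r) r)))
 (.c (t 2 4 (t 3 3 v))
 (.c (t 2 4 (u 3 3 (k v (k v r))))
 (.c (c 3 4098 r (u 2 0 (k (t 6 2 r) r)))
 (.c (c 3 4098 r (u 2 0 (k (t 6 2 r) r)))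
 (.c (c 2 4097 r (t 3 3 v))
 (.c (c 3 4097 r (u 2 0 (k (t 6 2 r) r)))
 (.c (c 2 4097 r (t 3 1 v))
 (.c (c 3 4097 r (u 2 0 (k (t 6 2 r) r)))
 (.c (c 3 4097 r (u 2 0 (k (t 6 2 r) r)))
 (.c (c 2 4097 r (t 3 5 v))
 (.c (c 2 4097 r (t 3 3 v))
 (.c (c 3 4096 r (u 2 0 (k (t 6 2 r) r)))
 (.c (c 2 4097 r (t 3 3 v))
 (.c (c 2 4097 r r)
 (.c (c 3 4096 r (u 2 0 (k (t 6 2 r) r)))
 (.c (c 2 4097 r (u 3 0 (k r r)))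
 (.c (t 2 4 r)
 (.c (c 2 4097 r (t 3 1 v))
 (.c (c 2 4097 r (u 3 0 (k (t 7 1 r) r)))
 (.c (c 2 4097 r (t 3 3 v))
 (.c (c 3 4100 r (u 2 0 (k (t 6 2 r) r)))
 (.c (c 3 4100 r (u 2 0 (k (t 6 2 r) r)))
 (.c (c 3 4100 r (u 2 0 (k (t 6 2 r) r)))
 (.c (t 3 2 r)
 (.c (t 3 1 r)
 (.c (c 3 4099 r (u 2 0 (k (t 6 2 r) r)))
 (.c (c 3 4098 r (u 2 0 (k (t 6 2 r) r)))
 (.c (c 3 4098 r (u 2 0 (k (t 6 2 r) r)))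
 (.c (c 2 4097 r r)
 (.c (c 3 4097 r (u 2 0 (k (t 6 2 r) r)))
 (.c (c 3 4097 r (u 2 0 (k (t 6 2 r) r)))
 (.c (c 3 4097 r (u 2 0 (k (t 6 2 r) r)))
 (.c (c 3 4097 r (u 2 0 (k (t 6 2 r) r)))
 (.c (c 3 4097 r (u 2 0 (k (t 6 2 r) r)))
 (.c (c 3 4096 r (u 2 0 (k (t 6 2 r) r)))
 (.c (c 3 4096 r (u 2 0 (k (t 6 2 r) r)))
 (.c (c 3 4095 r (u 2 0 (k (t 6 2 r) r)))
 (.c (c 3 4095 r (u 2 0 (k (t 6 2 r) r)))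
 (.c (c 3 4098 r (u 2 0 (k (t 6 2 r) r)))
 (.c (c 3 4095 r (u 2 0 (k (t 6 2 r) r)))
 (.c (c 3 4095 r (u 2 0 (k (t 6 2 r) r)))
 (.c (c 3 4095 r (u 2 0 (k (t 6 2 r) r)))
 (.c (c 2 4097 r r)
 (.c (c 2 4097 r (u 3 0 (k (t 7 2 r) r)))
 (.c (c 2 4097 r (t 3 3 v))
 (.c (c 2 4097 r (u 3 0 (k (t 7 2 r) r)))
 (.c (t 2 2 r)
 (.c (c 3 4099 r (u 2 0 (k (t 6 2 r) r)))
 (.c (c 3 4099 r (u 2 0 (k (t 6 2 r) r)))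
 (.c (c 3 4102 r (u 2 0 (k (t 6 2 r) r)))
 (.c (t 2 4 r)
 (.c (c 3 4099 r (u 2 0 (k (t 6 2 r) r)))
 (.c (c 3 4102 r (u 2 0 (k (t 6 2 r) r)))
 (.c (c 2 4097 r r)
 (.c (t 2 3 r)
 (.c (c 2 4097 r (u 3 0 (k (t 7 2 r) r)))
 (.c (c 3 4095 r (u 2 0 (k (t 6 2 r) r)))
 (.c (c 2 4097 r r)
 (.c (c 3 4101 r (u 2 0 (k (t 6 2 r) r)))
 (.c (c 2 4097 r r)
 (.c (c 3 4097 r (u 2 0 (k (t 6 2 r) r)))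
 (.c (c 2 4097 r (u 3 1 (k v (k v r))))
 (.c (c 2 4097 r r)
 (.c (c 3 4100 r (u 2 0 (k (t 6 2 r) r)))
 (.c (c 3 4099 r (u 2 0 (k (t 6 2 r) r)))
 (.c (c 2 4097 r r)
 (.c (c 3 4099 r (u 2 0 (k (t 6 2 r) r)))
 (.c (c 3 4095 r (u 2 0 (k (t 6 2 r) r)))
 (.c (c 3 4098 r (u 2 0 (k (t 6 2 r) r)))
 (.c (c 3 4098 r (u 2 0 (k (t 6 2 r) r)))
 (.c (c 3 4098 r (u 2 0 (k (t 6 2 r) r)))
 (.c (c 3 4097 r (u 2 0 (k (t 6 2 r) r)))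
 (.c (c 3 4096 r (u 2 0 (k (t 6 2 r) r)))
 (.c (c 3 4096 r (u 2 0 (k (t 6 2 r) r)))
 (.c (c 3 4095 r (u 2 0 (k (t 6 2 r) r)))
 (.c (c 3 4095 r (u 2 0 (k (t 6 2 r) r)))
 (.c (c 3 4095 r (u 2 0 (k (t 6 2 r) r)))
 (.c (c 3 4095 r (u 2 0 (k (t 6 2 r) r)))
 (.c (c 3 4100 r (u 2 0 (k (t 6 2 r) r)))
 (.c (c 3 4100 r (u 2 0 (k (t 6 2 r) r)))
 (.c (c 3 4097 r (u 2 0 (k (t 6 2 r) r)))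
 .z))))))))))))))))))))))))))))))))))))))))))))))))))))))))))))))))))))))))))))))))))))))))))))))))))))))))

set_option maxRecDepth 100000 in
def R104 : PR :=
 (.c r
 (.c r
 (.c (t 3 1 r)
 (.c (t 3 1 r)
 (.c (t 3 1 (u 2 3 (k v (k r (k r (k r (k r (k r (k r r)))))))))
 (.c (t 3 2 r)
 (.c (t 3 4 r)
 (.c (t 3 1 (u 2 3 (k v (k r (k (u 6 2 (k r (k r r))) (k r (k (c 3 4099 v r) (k r (k (u 4 30 (k r (k r (k (c 12 4099 r r) (k (c 8 4099 r r) (k (c 8 4095 r (u 12 23 (k r (k r r)))) r)))))) r)))))))))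
 (.c (c 2 4099 r (t 3 3 v))
 (.c (c 3 4099 r r)
 (.c (c 2 4099 r (t 3 3 v))
 (.c (c 2 4099 r (t 3 1 v))
 (.c (c 2 4099 r (t 3 1 v))
 (.c (t 3 2 r)
 (.c (t 3 2 r)
 (.c (c 2 4099 r (t 3 1 v))
 (.c (c 3 4097 r r)
 (.c (c 3 4097 r r)
 (.c (t 3 1 r)
 (.c (t 3 1 r)
 (.c (c 3 4096 r r)
 (.c (c 3 4095 r r)
 (.c (t 2 2 (t 3 3 v))
 (.c (t 3 4 r)
 (.c (t 2 1 (u 3 3 (k v (k v r))))
 (.c (c 3 4098 r r)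
 (.c (t 3 2 r)
 (.c (c 2 4099 r (t 3 3 v))
 (.c (c 3 4097 r r)
 (.c (c 2 4099 r (t 3 1 v))
 (.c (c 3 4097 r r)
 (.c (c 3 4097 r r)
 (.c (c 2 4099 r (t 3 5 v))
 (.c (c 2 4099 r (t 3 3 v))
 (.c (c 3 4096 r r)
 (.c (c 2 4099 r (t 3 3 v))
 (.c (c 2 4099 r r)
 (.c (c 3 4096 r r)
 (.c (c 2 4099 r (u 3 0 (k r r)))
 (.c (t 3 1 r)
 (.c (c 2 4099 r (t 3 1 v))
 (.c (c 2 4099 r (u 3 0 (k (t 7 1 r) r)))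
 (.c (c 2 4099 r (t 3 3 v))
 (.c (t 3 6 r)
 (.c (u 3 0 (k r (k r r)))
 (.c (t 3 2 r)
 (.c (t 3 2 r)
 (.c (t 3 1 r)
 (.c (t 3 1 r)
 (.c (c 3 4098 r r)
 (.c (t 3 1 r)
 (.c (c 2 4099 r r)
 (.c (c 3 4097 r r)
 (.c (c 3 4097 r r)
 (.c (c 3 4097 r r)
 (.c (c 3 4097 r r)
 (.c (c 2 4099 r r)
 (.c (c 3 4096 r r)
 (.c (c 3 4096 r r)
 (.c (c 3 4095 r r)
 (.c (c 3 4095 r r)
 (.c (t 3 2 r)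
 (.c (c 3 4095 r r)
 (.c (c 3 4095 r r)
 (.c (c 3 4095 r r)
 (.c (c 2 4099 r r)
 (.c (t 3 4 r)
 (.c (c 2 4099 r (t 3 3 v))
 (.c (c 2 4099 r (u 3 0 (k (t 7 2 r) r)))
 (.c (u 3 23 (k r (k r r)))
 (.c (c 3 4099 r r)
 (.c (t 3 2 r)
 (.c (t 3 8 r)
 (.c (t 3 1 r)
 (.c (c 3 4099 r r)
 (.c (t 3 2 r)
 (.c (t 3 2 r)
 (.c (u 3 25 (k r (k r r)))
 (.c (c 2 4099 r (u 3 0 (k (t 7 2 r) r)))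
 (.c (c 3 4095 r r)
 (.c (c 2 4099 r r)
 (.c (t 3 2 r)
 (.c (t 3 4 r)
 (.c (c 3 4097 r r)
 (.c (c 2 4099 r (u 3 1 (k v (k v r))))
 (.c (t 3 1 r)
 (.c (c 3 4100 r r)
 (.c (t 3 1 r)
 (.c (t 3 3 r)
 (.c (u 3 0 (k r (k r r)))
 (.c (c 2 4099 r r)
 (.c (u 3 3 (k r (k r r)))
 (.c (c 3 4098 r r)
 (.c (t 3 2 r)
 (.c (c 3 4097 r r)
 (.c (c 3 4096 r r)
 (.c (c 3 4096 r r)
 (.c (c 2 4099 r (u 3 0 (k r (k r (k r r)))))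
 (.c (c 3 4095 r r)
 (.c (c 3 4095 r r)
 (.c (c 3 4095 r r)
 (.c (t 3 4 r)
 (.c (t 3 2 r)
 (.c (c 2 4099 r (u 3 0 (k (t 7 2 r) r)))
 (.c (t 2 1 r)
 .z)))))))))))))))))))))))))))))))))))))))))))))))))))))))))))))))))))))))))))))))))))))))))))))))))))))))))

set_option maxRecDepth 100000 in
def R105 : PR :=
 (.t 112 (.t 71 (.t 116 (.c (t 3 1 r)
 (.c (t 3 1 (u 2 6 (k v (k (t 6 1 r) (k (t 4 2 r) (k (t 4 1 r) r))))))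
 (.c (t 2 3 (t 3 3 v))
 (.c (t 3 1 (u 2 6 (k v (k (t 6 1 r) (k (t 4 2 r) (k (t 4 1 r) r))))))
 (.c (t 3 1 (u 2 3 (k (t 4 1 r) (k (t 6 2 r) (k (t 6 1 r) (k (t 6 1 r) r))))))
 (.c (c 2 4104 r (t 3 3 v))
 (.c (t 2 3 (t 3 3 v))
 (.c (c 2 4104 r (t 3 3 v))
 (.c (c 2 4104 r (t 3 1 v))
 (.c (c 2 4104 r (t 3 1 v))
 (.c (t 3 3 r)
 (.t 140 (.c (c 2 4104 r (t 3 1 v))
 (.c (u 3 0 (k r (k r r)))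
 (.c (u 3 1 (k r (k r r)))
 (.c (t 3 1 r)
 (.c (t 3 1 r)
 (.c (u 3 0 (k (u 2 0 (k (u 5 0 (k v (k v r))) (k (t 6 1 (u 5 0 (k r (k r r)))) (k (t 4 2 (u 5 0 (k r (k r r)))) (k (t 4 1 (u 5 0 (k r (k r r)))) r))))) r))
 (.c (t 3 1 r)
 (.c (t 2 2 (t 3 3 v))
 (.c (t 2 3 (t 3 3 v))
 (.c (t 2 3 (u 3 3 (k v (k v r))))
 (.c (t 2 3 (t 3 3 v))
 (.c (t 2 3 (u 3 0 (k (t 5 3 (t 7 1 v)) r)))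
 (.c (c 2 4104 r (t 3 3 v))
 (.c (u 2 6 (k r (k (t 6 1 r) (k (t 4 2 r) (k (t 4 1 r) r)))))
 (.c (c 2 4104 r (t 3 1 v))
 (.c (t 2 3 (u 3 0 (k (u 5 1 (k v (k v r))) r)))
 (.c (t 2 3 r)
 (.c (t 3 2 r)
 (.c (c 2 4104 r (t 3 3 v))
 (.c (u 3 0 (k (t 5 3 (t 7 1 (u 2 6 (k v (k (t 4 1 r) (k (t 6 1 r) (k (t 6 1 r) r))))))) r))
 (.c (c 2 4104 r (t 3 3 v))
 (.c (c 2 4104 r r)
 (.c (u 2 1 (k (c 3 4096 r v) (k (t 4 1 r) (k (u 3 6 (k (t 6 1 r) (k (t 6 1 r) (k r (k (c 4 4101 r (u 6 1 (k v (k v r)))) r))))) (k (u 3 44 (k (t 6 1 r) (k (t 6 1 r) (k (c 6 4100 r r) (k r r))))) r)))))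
 (.c (t 3 1 r)
 (.c (u 2 1 (k r (k (u 6 1 (k r (k r r))) (k (u 3 0 (k (u 4 1 (k (u 6 1 (k v (k v r))) (k (c 12 4099 r r) (k (c 8 4097 r r) (k (c 8 4095 r r) (k (c 8 4095 r r) r)))))) (k (t 4 2 r) (k r (k (t 4 2 r) (k r (k (t 4 2 (u 5 6 (k r (k (t 13 1 r) r)))) r))))))) (k (u 3 0 (k r (k (t 4 1 r) (k r (k (t 4 1 r) (k r (k (t 4 1 (u 5 6 (k r (k (t 13 1 r) r)))) r))))))) r)))))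
 (.c (t 3 1 (u 2 5 (k v (k (c 6 4101 r (u 4 1 (k v (k v r)))) (k (c 4 4101 r (u 6 1 (k v (k v r)))) (k (c 4 4101 r (u 6 1 (k v (k v r)))) r))))))
 (.c (u 3 0 (k (t 7 1 (u 5 8 (k r (k r r)))) r))
 (.c (t 3 2 r)
 (.c (t 2 3 (t 3 3 v))
 (.c (u 3 1 (k r (k r r)))
 (.c (u 2 1 (k r (k (t 6 1 r) (k (t 4 2 r) (k (t 4 1 r) r)))))
 (.c (t 3 2 r)
 (.c (t 3 1 r)
 (.c (u 2 1 (k r (k (t 6 1 r) (k (t 4 2 r) (k (t 4 1 r) r)))))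
 (.c (t 2 3 (t 3 1 v))
 (.c (t 3 1 r)
 (.c (t 3 1 r)
 (.c (u 3 1 (k r (k (c 7 4097 r (u 5 0 (k r (k r r)))) r)))
 (.c (t 3 2 r)
 (.c (u 3 99 (k r (k r (k r r))))
 (.c (t 2 3 r)
 (.c (t 2 3 (t 3 3 v))
 (.c (u 3 3 (k r (k r r)))
 (.c (u 2 0 (k r (k (t 6 1 r) (k (t 4 2 r) (k (t 4 1 r) r)))))
 (.c (t 2 3 r)
 (.c (t 3 1 (u 2 6 (k v (k (t 6 1 r) (k (t 4 2 r) (k (t 4 1 r) r))))))
 (.c (t 3 3 r)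
 (.c (t 3 2 r)
 (.c (t 3 1 r)
 (.c (u 3 5 (k r (k r r)))
 (.c (c 2 4104 r r)
 (.c (t 2 3 (u 3 0 (k (t 7 2 r) r)))
 (.c (c 2 4104 r (t 3 3 v))
 (.c (t 3 3 r)
 (.c (t 2 3 r)
 (.c (t 2 3 (u 3 0 (k (t 7 3 r) r)))
 (.c (t 2 3 r)
 (.c (t 3 2 r)
 (.c (u 2 6 (k r (k r (k r (k r r)))))
 (.c (t 3 1 r)
 (.c (u 3 0 (k (u 5 0 (k r (k r r))) r))
 (.c (t 2 3 r)
 (.c (t 2 3 r)
 (.c (c 2 4104 r (u 3 0 (k (t 7 2 r) r)))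
 (.c (t 3 1 r)
 (.c (t 3 3 r)
 (.c (u 2 0 (k r (k (t 6 1 r) (k (t 4 2 r) (k (t 4 1 r) r)))))
 (.c (t 2 3 (t 3 3 v))
 (.c (t 2 3 (u 3 0 (k (t 7 3 r) r)))
 (.c (t 2 2 (u 3 2 (k v (k v r))))
 (.c (u 3 5 (k r (k (t 7 1 (u 5 23 (k r (k r r)))) r)))
 (.c (u 3 0 (k (u 5 0 (k r (k (u 9 19 (k r (k (u 2 1 (k v (k (t 6 1 r) (k (t 4 2 r) (k (t 4 1 r) r))))) (k (u 2 1 (k v (k (t 6 1 r) (k (t 4 2 r) (k (t 4 1 r) r))))) (k (c 25 4099 r (u 17 1 (k r (k (u 2 1 (k v (k (t 6 1 r) (k (t 4 2 r) (k (t 4 1 r) r))))) r)))) r))))) r))) r))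
 (.c (u 2 1 (k r (k (t 6 1 r) (k (t 4 2 r) (k (t 4 1 r) r)))))
 (.c (t 3 3 r)
 (.c (u 3 1 (k r (k r r)))
 (.c (t 3 1 r)
 (.c (t 2 3 r)
 (.c (u 2 1 (k r (k (t 6 1 r) (k (t 4 2 r) (k (t 4 1 r) r)))))
 (.c (u 2 1 (k r (k (t 6 1 r) (k (t 4 2 r) (k (t 4 1 r) r)))))
 (.c (t 2 3 (t 3 1 v))
 (.c (t 3 1 r)
 (.c (t 2 3 (t 3 1 v))
 (.c (u 3 0 (k (t 5 1 (u 7 8 (k r (k r r)))) (k (t 5 2 (u 7 8 (k r (k r r)))) (k (t 5 1 (u 7 8 (k r (k r r)))) r))))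
 (.c (t 3 2 r)
 (.c (u 2 6 (k (u 3 0 (k (t 7 1 r) r)) (k (t 4 1 (u 3 0 (k (t 7 1 r) r))) (k (t 6 1 (u 3 0 (k (t 7 1 r) r))) (k (t 6 1 (u 3 0 (k (t 7 1 r) r))) r)))))
 (.c (u 3 1 (k r (k r (k r (k (t 7 1 (u 5 4 (k r (k r r)))) r)))))
 (.c (t 2 3 r)
 (.c (t 2 3 r)
 (.c (t 3 2 r)
 (.c (t 2 3 r)
 (.c (t 2 3 r)
 .z))))))))))))))))))))))))))))))))))))))))))))))))))))))))))))))))))))))))))))))))))))))))))))))))))))))))))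

set_option maxRecDepth 100000 in
def R106 : PR :=
 (.c r
 (.c r
 (.t 78 (.c (t 3 1 r)
 (.c (c 3 4101 r r)
 (.c (t 2 1 (t 3 3 v))
 (.c (c 3 4100 r r)
 (.c (c 3 4099 r r)
 (.c (c 2 4104 r (t 3 3 v))
 (.c (c 3 4099 r r)
 (.c (c 2 4104 r (t 3 3 v))
 (.c (c 2 4104 r (t 3 1 v))
 (.c (c 2 4104 r (t 3 1 v))
 (.c (t 3 3 r)
 (.c (t 3 3 r)
 (.c (c 2 4104 r (t 3 1 v))
 (.c (c 3 4097 r r)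
 (.c (c 3 4097 r r)
 (.c (t 2 3 (t 3 3 v))
 (.c (t 3 1 r)
 (.c (c 3 4096 r r)
 (.c (c 3 4095 r r)
 (.c (c 3 4099 r r)
 (.c (t 2 1 (t 3 3 v))
 (.c (t 2 1 (u 3 3 (k v (k v r))))
 (.c (c 3 4098 r r)
 (.c (c 3 4098 r r)
 (.c (c 2 4104 r (t 3 3 v))
 (.c (t 2 1 r)
 (.c (c 2 4104 r (t 3 1 v))
 (.c (c 3 4097 r r)
 (.c (c 3 4097 r r)
 (.c (c 3 4096 r r)
 (.c (c 2 4104 r (t 3 3 v))
 (.c (c 3 4096 r r)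
 (.c (c 2 4104 r (t 3 3 v))
 (.c (c 2 4104 r r)
 (.c (c 3 4096 r r)
 (.c (t 2 1 r)
 (.c (c 3 4101 r r)
 (.c (c 2 4104 r (t 3 1 v))
 (.c (c 2 4104 r (u 3 0 (k (t 7 1 r) r)))
 (.c (c 2 4104 r (t 3 3 v))
 (.c (t 2 3 (t 3 3 v))
 (.c (c 3 4100 r r)
 (.c (c 3 4100 r r)
 (.c (t 2 3 (u 3 0 (k (t 5 3 (t 7 3 v)) r)))
 (.c (t 2 3 r)
 (.c (c 3 4099 r r)
 (.c (c 3 4098 r r)
 (.c (c 3 4098 r r)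
 (.c (c 3 4098 r r)
 (.c (c 3 4097 r r)
 (.c (c 3 4097 r r)
 (.c (c 3 4097 r r)
 (.c (c 3 4097 r r)
 (.c (c 3 4097 r r)
 (.c (c 3 4096 r r)
 (.c (c 3 4096 r r)
 (.c (c 3 4095 r r)
 (.c (c 3 4095 r r)
 (.c (c 3 4098 r r)
 (.c (c 3 4095 r r)
 (.c (c 3 4095 r r)
 (.c (c 3 4095 r r)
 (.c (c 2 4104 r r)
 (.c (c 3 4099 r r)
 (.c (c 2 4104 r (t 3 3 v))
 (.c (c 3 4098 r r)
 (.c (t 2 3 r)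
 (.c (c 3 4099 r r)
 (.c (c 3 4099 r r)
 (.c (c 3 4102 r r)
 (.c (u 2 3 (k r (k (t 6 1 r) (k (t 4 2 r) (k (t 4 1 r) r)))))
 (.c (c 3 4099 r r)
 (.c (c 3 4102 r r)
 (.c (c 3 4101 r r)
 (.c (c 3 4101 r r)
 (.c (c 2 4104 r (u 3 0 (k (t 7 2 r) r)))
 (.c (c 3 4095 r r)
 (.c (c 3 4101 r r)
 (.c (c 3 4101 r r)
 (.c (c 3 4101 r r)
 (.c (c 3 4097 r r)
 (.c (c 3 4100 r r)
 (.c (c 3 4100 r r)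
 (.c (c 3 4100 r r)
 (.c (c 3 4099 r r)
 (.c (c 3 4099 r r)
 (.c (c 3 4099 r r)
 (.c (c 3 4095 r r)
 (.c (c 3 4098 r r)
 (.c (t 2 1 r)
 (.c (c 3 4098 r r)
 (.c (c 3 4097 r r)
 (.c (c 3 4096 r r)
 (.c (c 3 4096 r r)
 (.c (c 3 4095 r r)
 (.c (c 3 4095 r r)
 (.c (c 3 4095 r r)
 (.c (c 3 4095 r r)
 (.c (c 3 4100 r r)
 (.c (c 3 4100 r r)
 (.c (c 3 4097 r r)
 (.c (c 3 4099 r r)
 (.c (t 3 3 r)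
 (.c (t 2 3 r)
 .z)))))))))))))))))))))))))))))))))))))))))))))))))))))))))))))))))))))))))))))))))))))))))))))))))))))))))))

set_option maxRecDepth 100000 in
def R107 : PR :=
 (.c r
 (.c r
 (.t 117 (.c (t 2 5 (t 3 1 v))
 (.c (c 3 4101 r r)
 (.c (c 3 4100 r r)
 (.c (c 3 4100 r r)
 (.c (c 3 4099 r r)
 (.c (c 2 4104 r (t 3 3 v))
 (.c (c 3 4099 r r)
 (.c (c 2 4104 r (t 3 3 v))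
 (.c (c 2 4104 r (t 3 1 v))
 (.c (c 2 4104 r (t 3 1 v))
 (.c (t 3 3 r)
 (.c (t 3 3 r)
 (.c (c 2 4104 r (t 3 1 v))
 (.c (c 3 4097 r r)
 (.c (c 3 4097 r r)
 (.c (t 2 1 (t 3 3 v))
 (.c (t 2 3 (t 3 3 v))
 (.c (c 3 4096 r r)
 (.c (t 2 1 (t 3 1 v))
 (.c (c 3 4099 r r)
 (.c (t 2 2 (t 3 3 v))
 (.c (t 2 2 (u 3 3 (k v (k v r))))
 (.c (c 3 4098 r r)
 (.c (c 3 4098 r r)
 (.c (c 2 4104 r (t 3 3 v))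
 (.c (c 3 4097 r r)
 (.c (c 2 4104 r (t 3 1 v))
 (.c (c 3 4097 r r)
 (.c (c 3 4097 r r)
 (.c (c 3 4096 r r)
 (.c (c 2 4104 r (t 3 3 v))
 (.c (c 3 4096 r r)
 (.c (c 2 4104 r (t 3 3 v))
 (.c (c 2 4104 r r)
 (.c (c 3 4096 r r)
 (.c (t 2 2 r)
 (.c (c 3 4101 r r)
 (.c (c 2 4104 r (t 3 1 v))
 (.c (c 2 4104 r (u 3 0 (k (t 7 1 r) r)))
 (.c (c 2 4104 r (t 3 3 v))
 (.c (c 3 4100 r r)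
 (.c (c 3 4100 r r)
 (.c (c 3 4100 r r)
 (.c (t 2 1 (u 3 0 (k (t 5 3 (t 7 3 v)) r)))
 (.c (t 2 1 r)
 (.c (c 3 4099 r r)
 (.c (c 3 4098 r r)
 (.c (c 3 4098 r r)
 (.c (c 3 4098 r r)
 (.c (c 3 4097 r r)
 (.c (c 3 4097 r r)
 (.c (c 3 4097 r r)
 (.c (c 3 4097 r r)
 (.c (c 3 4097 r r)
 (.c (c 3 4096 r r)
 (.c (c 3 4096 r r)
 (.c (c 3 4095 r r)
 (.c (c 3 4095 r r)
 (.c (c 3 4098 r r)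
 (.c (c 3 4095 r r)
 (.c (c 3 4095 r r)
 (.c (c 3 4095 r r)
 (.c (c 2 4104 r r)
 (.c (c 3 4099 r r)
 (.c (c 2 4104 r (t 3 3 v))
 (.c (c 3 4098 r r)
 (.c (t 2 1 r)
 (.c (c 3 4099 r r)
 (.c (c 3 4099 r r)
 (.c (c 3 4102 r r)
 (.c (u 2 0 (k (t 6 2 r) (k (t 6 2 (u 4 10 (k r (k (c 8 4097 r (u 12 2 (k r (k r r)))) (k (c 12 4097 r r) (k (c 12 4097 r r) r)))))) (k (t 6 2 r) r))))
 (.c (c 3 4099 r r)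
 (.c (c 3 4102 r r)
 (.c (c 3 4101 r r)
 (.c (c 3 4101 r r)
 (.c (c 2 4104 r (u 3 0 (k (t 7 2 r) r)))
 (.c (c 3 4095 r r)
 (.c (c 2 4104 r r)
 (.c (c 3 4101 r r)
 (.c (c 3 4101 r r)
 (.c (c 3 4097 r r)
 (.c (c 3 4100 r r)
 (.c (c 3 4100 r r)
 (.c (c 3 4100 r r)
 (.c (c 3 4099 r r)
 (.c (c 3 4099 r r)
 (.c (c 3 4099 r r)
 (.c (c 3 4095 r r)
 (.c (c 3 4098 r r)
 (.c (c 3 4098 r r)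
 (.c (c 3 4098 r r)
 (.c (c 3 4097 r r)
 (.c (c 3 4096 r r)
 (.c (c 3 4096 r r)
 (.c (c 3 4095 r r)
 (.c (c 3 4095 r r)
 (.c (c 3 4095 r r)
 (.c (c 3 4095 r r)
 (.c (c 3 4100 r r)
 (.c (c 3 4100 r r)
 (.c (c 3 4097 r r)
 (.c (c 3 4099 r r)
 (.c (t 2 1 r)
 (.c (t 2 1 r)
 (.c (t 2 3 (t 3 3 v))
 .z))))))))))))))))))))))))))))))))))))))))))))))))))))))))))))))))))))))))))))))))))))))))))))))))))))))))))))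

set_option maxRecDepth 100000 in
def R108 : PR :=
 (.c r
 (.c r
 (.t 118 (.c (t 3 1 (u 2 13 (k v (k v (k (c 6 4096 r (u 4 0 (k v (k v r)))) (k (c 4 4097 r (u 6 0 (k v (k v r)))) r))))))
 (.c (t 3 1 (u 2 5 (k v (k (t 6 2 r) (k (t 6 2 r) (k (c 6 4099 r r) (k (t 6 1 r) (k (t 4 1 r) (k (t 4 2 r) (k (c 6 4099 r r) (k (t 4 1 r) r)))))))))))
 (.c (c 3 4100 r r)
 (.c (t 3 1 (u 2 22 (k v (k (t 6 2 r) (k (c 6 4099 r r) (k (t 4 2 r) (k (c 6 4099 r r) (k (t 4 1 r) r))))))))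
 (.c (c 3 4099 r r)
 (.c (c 2 4104 r (t 3 3 v))
 (.c (t 2 1 (t 3 3 v))
 (.c (c 2 4104 r (t 3 3 v))
 (.c (c 2 4104 r (t 3 1 v))
 (.c (c 2 4104 r (t 3 1 v))
 (.c (t 3 3 r)
 (.c (t 3 3 r)
 (.c (c 2 4104 r (t 3 1 v))
 (.c (c 3 4097 r r)
 (.c (c 3 4097 r r)
 (.c (t 3 3 r)
 (.c (t 3 3 r)
 (.c (c 3 4096 r r)
 (.c (c 3 4095 r r)
 (.c (c 3 4099 r r)
 (.c (t 2 1 (t 3 3 v))
 (.c (t 2 1 (u 3 3 (k v (k v r))))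
 (.c (c 3 4098 r r)
 (.c (c 3 4098 r r)
 (.c (c 2 4104 r (t 3 3 v))
 (.c (c 3 4097 r r)
 (.c (c 2 4104 r (t 3 1 v))
 (.c (t 2 1 (u 3 0 (k (u 5 1 (k v (k v r))) r)))
 (.c (t 2 1 (t 3 2 v))
 (.c (c 3 4096 r r)
 (.c (c 2 4104 r (t 3 3 v))
 (.c (c 3 4096 r r)
 (.c (c 2 4104 r (t 3 3 v))
 (.c (c 2 4104 r r)
 (.c (c 3 4096 r r)
 (.c (t 2 1 r)
 (.c (u 3 70 (k r (k r (k r (k (c 3 4101 r r) (k (u 5 22 (k (c 3 4094 v r) (k r (k r r)))) (k (c 3 4095 r r) r)))))))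
 (.c (c 3 4095 r r)
 (.c (c 3 4095 r r)
 (.c (c 3 4095 r r)
 (.c (c 3 4100 r r)
 (.c (u 3 63 (k r (k (c 3 4094 v r) (k (t 2 3 r) (k (t 2 3 r) (k (t 2 3 r) r))))))
 (.c (c 3 4100 r r)
 (.c (t 2 3 (u 3 0 (k (t 5 3 (t 7 3 v)) r)))
 (.c (t 2 3 r)
 (.c (c 3 4099 r r)
 (.c (c 3 4098 r r)
 (.c (c 3 4098 r r)
 (.c (c 3 4098 r r)
 (.c (t 2 1 r)
 (.c (c 3 4097 r r)
 (.c (c 3 4097 r r)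
 (.c (c 3 4097 r r)
 (.c (c 3 4097 r r)
 (.c (c 3 4096 r r)
 (.c (c 3 4096 r r)
 (.c (c 3 4095 r r)
 (.c (c 3 4095 r r)
 (.c (c 3 4098 r r)
 (.c (c 3 4095 r r)
 (.c (c 3 4095 r r)
 (.c (c 3 4095 r r)
 (.c (c 2 4104 r r)
 (.c (c 3 4099 r r)
 (.c (c 2 4104 r (t 3 3 v))
 (.c (c 3 4098 r r)
 (.c (t 2 3 r)
 (.c (c 3 4099 r r)
 (.c (c 3 4099 r r)
 (.c (t 3 2 r)
 (.c (u 2 23 (k r (k (t 6 2 r) (k (t 6 2 r) (k (t 6 2 r) (k (t 6 1 r) (k (t 6 1 r) (k (t 4 1 r) (k (t 6 3 r) (k (t 6 1 r) (k (t 6 3 r) r)))))))))))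
 (.c (c 3 4099 r r)
 (.c (u 3 0 (k (u 5 23 (k r (k (c 3 4094 v r) r))) r))
 (.c (c 3 4101 r r)
 (.c (t 2 3 r)
 (.c (c 2 4104 r (u 3 0 (k (t 7 2 r) r)))
 (.c (c 3 4095 r r)
 (.c (t 3 3 r)
 (.c (c 3 4101 r r)
 (.c (c 3 4101 r r)
 (.c (c 3 4097 r r)
 (.c (c 3 4100 r r)
 (.c (u 3 6 (k r (k (c 3 4094 v r) (k (t 7 1 (u 5 0 (k r (k (t 13 1 (u 9 53 (k (u 2 24 (k v (k v (k v r)))) (k (c 3 4095 v r) (k (c 5 4095 v (c 3 4094 v r)) (k (c 5 4090 r (c 3 4094 v r)) (k (c 3 4089 (c 2 4090 r v) r) (k (c 5 4090 r (c 3 4094 v r)) r)))))))) r)))) r))))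
 (.c (c 3 4100 r r)
 (.c (c 3 4099 r r)
 (.c (c 3 4099 r r)
 (.c (c 3 4099 r r)
 (.c (c 3 4095 r r)
 (.c (c 3 4098 r r)
 (.c (c 3 4098 r r)
 (.c (c 3 4098 r r)
 (.c (c 3 4097 r r)
 (.c (c 3 4096 r r)
 (.c (c 3 4096 r r)
 (.c (c 3 4095 r r)
 (.c (c 3 4095 r r)
 (.c (c 3 4095 r r)
 (.c (c 3 4095 r r)
 (.c (t 2 3 r)
 (.c (t 2 3 r)
 (.c (c 3 4097 r r)
 (.c (c 3 4099 r r)
 (.c (t 2 3 r)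
 (.c (t 2 3 r)
 (.c (t 3 1 r)
 (.c (u 2 25 (k r (k (u 3 26 (k v (k (c 8 4099 v r) (k (c 8 4099 v (t 7 2 r)) (k (t 5 1 (c 8 4099 v r)) (k (c 8 4099 v (t 7 1 r)) (k (c 8 4099 v (t 7 1 r)) (k (c 8 4099 v (t 7 2 r)) (k (c 8 4099 v (t 7 1 r)) r))))))))) (k r (k (t 3 3 (t 6 1 r)) r)))))
 .z)))))))))))))))))))))))))))))))))))))))))))))))))))))))))))))))))))))))))))))))))))))))))))))))))))))))))))))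

set_option maxRecDepth 100000 in
def R109 : PR :=
 (.c r
 (.c r
 (.t 118 (.c (t 3 1 r)
 (.c (t 3 1 (u 2 14 (k v (k v (k (t 6 2 (u 4 6 (k (c 12 4099 r r) (k (c 3 4101 v r) (k (c 3 4101 v r) (k (c 8 4099 r r) (k (c 8 4099 r r) (k (c 8 4099 r r) r)))))))) (k (t 4 2 r) r))))))
 (.c (c 3 4100 r r)
 (.c (t 3 1 (u 2 15 (k v (k v (k (t 6 2 (u 4 16 (k v (k (c 12 4099 r r) (k (c 3 4100 v r) (k (c 8 4099 r r) (k (c 8 4099 r r) (k (c 8 4099 r r) r)))))))) r)))))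
 (.c (c 3 4099 r r)
 (.c (c 2 4104 r (t 3 3 v))
 (.c (c 3 4099 r r)
 (.c (c 2 4104 r (t 3 3 v))
 (.c (c 2 4104 r (t 3 1 v))
 (.c (c 2 4104 r (t 3 1 v))
 (.t 106 (.t 141 (.c (c 2 4104 r (t 3 1 v))
 (.c (c 3 4097 r r)
 (.c (c 3 4097 r r)
 (.c (t 3 1 r)
 (.c (t 3 1 r)
 (.c (c 3 4096 r r)
 (.c (c 3 4095 r r)
 (.c (c 3 4099 r r)
 (.c (t 3 3 (u 2 16 (k v (k v r))))
 (.c (u 2 16 (k (u 3 3 (k v (k v r))) (k (u 3 3 (k v (k v r))) r)))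
 (.c (c 3 4098 r r)
 (.c (c 3 4098 r r)
 (.c (c 2 4104 r (t 3 3 v))
 (.c (c 3 4097 r r)
 (.c (c 2 4104 r (t 3 1 v))
 (.c (c 3 4097 r r)
 (.c (c 3 4097 r r)
 (.c (c 3 4096 r r)
 (.c (c 2 4104 r (t 3 3 v))
 (.c (c 3 4096 r r)
 (.c (c 2 4104 r (t 3 3 v))
 (.c (t 3 1 r)
 (.c (c 3 4096 r r)
 (.c (t 3 1 r)
 (.c (u 2 17 (k (c 3 4101 r v) (k (t 6 1 (u 4 6 (k (c 12 4099 r r) (k (c 3 4101 r (c 10 4101 v r)) (k (c 3 4101 r (c 10 4101 v r)) (k (c 8 4099 r r) (k (c 8 4099 r r) (k (c 8 4099 r r) r)))))))) (k (c 3 4101 r r) (k (t 6 1 (c 3 4101 r (u 4 0 (k r r)))) r)))))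
 (.c (c 3 4095 r r)
 (.c (c 3 4095 r r)
 (.c (c 3 4095 r r)
 (.c (c 3 4100 r r)
 (.c (u 3 1 (k r (k r r)))
 (.c (c 3 4100 r r)
 (.c (t 3 2 r)
 (.c (t 3 1 r)
 (.c (c 3 4099 r r)
 (.c (c 3 4098 r r)
 (.c (c 3 4098 r r)
 (.c (c 3 4098 r r)
 (.c (c 3 4097 r r)
 (.c (c 3 4097 r r)
 (.c (c 3 4097 r r)
 (.c (c 3 4097 r r)
 (.c (c 3 4097 r r)
 (.c (c 3 4096 r r)
 (.c (c 3 4096 r r)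
 (.c (c 3 4095 r r)
 (.c (c 3 4095 r r)
 (.c (c 3 4098 r r)
 (.c (c 3 4095 r r)
 (.c (c 3 4095 r r)
 (.c (c 3 4095 r r)
 (.c (c 3 4096 r r)
 (.c (c 3 4099 r r)
 (.c (c 2 4104 r (t 3 3 v))
 (.c (c 3 4098 r r)
 (.c (u 2 16 (k r (k r r)))
 (.c (c 3 4099 r r)
 (.c (c 3 4099 r r)
 (.c (t 3 2 r)
 (.c (u 3 7 (k r (k r (k r (k (c 7 4099 r (u 5 1 (k r (k r r)))) r)))))
 (.c (c 3 4099 r r)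
 (.c (u 3 0 (k (u 5 0 (k r (k r r))) r))
 (.c (c 3 4101 r r)
 (.c (u 3 4 (k r (k r r)))
 (.c (c 2 4104 r (u 3 0 (k (t 7 2 r) r)))
 (.c (c 3 4095 r r)
 (.c (t 3 3 r)
 (.c (c 3 4101 r r)
 (.c (c 3 4101 r r)
 (.c (c 3 4097 r r)
 (.c (c 3 4100 r r)
 (.c (u 3 5 (k r (k (t 7 1 (u 2 18 (k r (k (t 6 2 (u 5 23 (k r (k (u 4 1 (k v (k (c 12 4099 r (u 8 1 (k v (k v r)))) (k (u 8 23 (k v (k v r))) (k (c 8 4099 r (u 12 1 (k v (k v r)))) (k (c 8 4099 r (u 12 1 (k v (k v r)))) (k (c 8 4099 r (u 12 1 (k v (k v r)))) r))))))) r)))) r)))) r)))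
 (.c (c 3 4100 r r)
 (.c (c 3 4099 r r)
 (.c (c 3 4099 r r)
 (.c (c 3 4099 r r)
 (.c (c 3 4095 r r)
 (.c (c 3 4098 r r)
 (.c (c 3 4098 r r)
 (.c (c 3 4098 r r)
 (.c (c 3 4097 r r)
 (.c (c 3 4096 r r)
 (.c (c 3 4096 r r)
 (.c (c 3 4095 r r)
 (.c (c 3 4095 r r)
 (.c (c 3 4095 r r)
 (.c (c 3 4095 r r)
 (.c (t 3 1 r)
 (.c (t 3 3 r)
 (.c (c 3 4097 r r)
 (.c (c 3 4099 r r)
 (.c (t 3 3 r)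
 (.c (t 3 3 r)
 (.c (t 3 1 r)
 (.c (t 3 3 r)
 (.c (u 2 16 (k r (k r r)))
 .z))))))))))))))))))))))))))))))))))))))))))))))))))))))))))))))))))))))))))))))))))))))))))))))))))))))))))))))

end Pool.Agent.Helper91.ND1
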