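import Pool.Agent.Helper91.VD1.DT
import Pool.Agent.Helper91.ND1.LA
import Pool.Agent.Helper91.ND1.LT
import Pool.Agent.Helper91.NF.Fast
import Pool.Agent.Helper91.ND1.LR3

/-! part of the certificate for the constant 25/48 (generated) -/

namespace Pool.Agent.Helper91.ND1

open Pool.Agent.Helper66.IL
open Pool.Agent.Helper66.ML
open Pool.Agent.Helper66.ND
open Pool.Agent.Helper91.NF
open Pool.Agent.Helper91.VZ
open Pool.Agent.Helper91.VD1 (DT)

theorem okR95 : rof A NN (vx DT) 167 95 R95 0 = true := by decide +kernel

theorem okR96 : rof A NN (vx DT) 167 96 R96 0 = true := by decide +kernel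

theorem okR97 : rof A NN (vx DT) 167 97 R97 0 = true := by decide +kernel

theorem okR98 : rof A NN (vx DT) 167 98 R98 0 = true := by decide +kernel

theorem okR99 : rof A NN (vx DT) 167 99 R99 0 = true := by decide +kernel

theorem okR100 : rof A NN (vx DT) 167 100 R100 0 = true := by decide +kernel

theorem okR101 : rof A NN (vx DT) 167 101 R101 0 = true := by decide +kernel

theorem okR102 : rof A NN (vx DT) 167 102 R102 0 = true := by decide +kernel

theorem okR103 : rof A NN (vx DT) 167 103 R103 0 = true := by decide +kernel

theorem okR104 : rof A NN (vx DT) 167 104 R104 0 = true := by decide +kernel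

theorem okR105 : rof A NN (vx DT) 167 105 R105 0 = true := by decide +kernel

theorem okR106 : rof A NN (vx DT) 167 106 R106 0 = true := by decide +kernel

theorem okR107 : rof A NN (vx DT) 167 107 R107 0 = true := by decide +kernel

theorem okR108 : rof A NN (vx DT) 167 108 R108 0 = true := by decide +kernel

theorem okR109 : rof A NN (vx DT) 167 109 R109 0 = true := by decide +kernel

end Pool.Agent.Helper91.ND1
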