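import Pool.Agent.Helper66.ND.Defs

/-! part of the certificate for the constant 25/48 (generated) -/

namespace Pool.Agent.Helper91.ND1

open Pool.Agent.Helper66.IL
open Pool.Agent.Helper66.ND
open Pool.Agent.Helper66.ND.LT
open Pool.Agent.Helper66.ND.Ct

set_option maxRecDepth 100000 in
def R110 : PR :=
 (.t 89 (.c r
 (.t 78 (.c (t 2 1 (t 3 1 v))
 (.c (t 2 6 (t 3 1 v))
 (.c (t 2 6 (t 3 3 v))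
 (.c (t 2 6 (t 3 1 v))
 (.t 139 (.c (c 2 4104 r (t 3 3 v))
 (.c (t 2 6 (t 3 3 v))
 (.c (c 2 4104 r (t 3 3 v))
 (.c (c 2 4104 r (t 3 1 v))
 (.c (c 2 4104 r (t 3 1 v))
 (.t 118 (.t 106 (.c (c 2 4104 r (t 3 1 v))
 (.c (t 2 7 (u 3 0 (k v (k v r))))
 (.c (c 3 4097 r r)
 (.c (t 2 6 (t 3 3 v))
 (.c (t 2 1 (t 3 1 v))
 (.c (u 3 0 (k (u 5 0 (k (u 2 0 (k (t 6 2 (u 4 0 (k (c 12 4099 r r) r))) r)) (k r r))) r))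
 (.c (t 2 6 (t 3 1 v))
 (.c (t 2 4 (t 3 3 v))
 (.c (t 2 6 (t 3 3 v))
 (.c (t 2 6 (u 3 3 (k v (k v r))))
 (.c (t 2 6 (t 3 3 v))
 (.c (t 2 6 (u 3 0 (k (t 5 3 (t 7 1 v)) r)))
 (.c (c 2 4104 r (t 3 3 v))
 (.c (u 3 2 (k (u 2 0 (k (t 6 2 (u 4 0 (k (c 12 4099 r (u 8 25 (k v (k v (k (u 16 1 (k v (k v r))) (k (c 24 4099 r (u 16 0 (k (u 32 0 (k v (k v r))) r))) (k (c 3 4100 v r) (k (u 16 0 (k (u 32 0 (k v (k v r))) r)) (k r (k r r)))))))))) r))) r)) (k (c 2 4104 r (u 5 1 (k v (k v r)))) r)))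
 (.c (c 2 4104 r (t 3 1 v))
 (.c (c 3 4097 r r)
 (.c (t 2 6 r)
 (.c (t 2 7 (t 3 5 v))
 (.c (c 2 4104 r (t 3 3 v))
 (.c (u 3 0 (k (t 5 3 (t 7 1 (u 2 0 (k (t 6 2 (u 4 0 (k (c 12 4099 r (u 8 30 (k v (k v (k v (k (u 16 1 (k v (k v r))) (k (u 16 29 (k v (k v (k v (k (c 48 4099 r (u 32 1 (k v (k v r)))) r))))) (k (u 16 19 (k v (k v (k (c 48 4099 r (u 32 1 (k v (k v r)))) (k (c 32 4099 r (u 48 1 (k v (k v r)))) (k (c 32 4095 r (u 48 0 (k v (k v r)))) r)))))) r)))))))) r))) r)))) r))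
 (.c (c 2 4104 r (t 3 3 v))
 (.c (c 2 4104 r r)
 (.c (u 2 0 (k (t 6 2 (u 3 26 (k (u 4 0 (k (c 12 4099 r r) r)) (k (t 4 3 v) (k (t 4 4 v) (k (t 7 1 (u 4 0 (k (t 12 1 (u 8 31 (k r (k (c 12 4099 v (u 5 0 (k (t 9 3 (t 13 1 v)) r))) (k (c 12 4099 v (u 5 0 (k (t 9 3 (t 13 1 v)) r))) (k (u 16 1 (k r (k (u 5 0 (k (t 9 3 (t 13 1 v)) r)) r))) (k r (k r r)))))))) r))) r)))))) r))
 (.c (t 2 7 (u 3 0 (k (c 8 4099 v r) r)))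
 (.c (u 2 0 (k (t 6 2 (u 4 0 (k (c 12 4099 r (u 3 0 (k r (k r (k r (k r (k r (k (c 3 4095 r r) r)))))))) r))) r))
 (.c (c 2 4104 r (t 3 1 v))
 (.c (c 2 4104 r (u 3 0 (k (t 7 1 r) r)))
 (.c (c 2 4104 r (t 3 3 v))
 (.c (t 2 6 (t 3 3 v))
 (.c (t 2 6 r)
 (.c (u 2 0 (k (t 6 2 (u 4 0 (k (c 12 4099 r (u 3 0 (k r (k r (k (c 7 4099 r r) (k (u 5 9 (k (c 3 4094 v r) (k r (k (u 9 0 (k r (k r r))) r)))) (k (c 8 4100 r r) (k (u 5 0 (k (u 9 0 (k r (k r r))) r)) (k r (k (u 5 2 (k r (k (c 13 4099 r (u 9 1 (k r (k r r)))) (k (c 9 4095 r (u 13 0 (k r (k r r)))) r)))) r)))))))))) r))) r))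
 (.c (t 3 2 (t 2 1 v))
 (.c (t 3 1 (t 2 1 v))
 (.c (u 3 1 (k (u 2 0 (k (t 6 2 (u 4 0 (k (c 12 4099 r r) r))) r)) (k r (k (c 7 4099 r r) (k (t 2 7 r) (k (c 7 4097 r r) (k (c 5 4095 r r) r)))))))
 (.c (t 2 6 (t 3 1 v))
 (.c (t 2 6 (t 3 1 v))
 (.c (t 3 1 (t 2 7 v))
 (.c (u 3 1 (k (u 2 0 (k (t 6 2 (u 4 0 (k (c 12 4099 r r) r))) r)) (k (c 7 4097 r r) r)))
 (.c (c 3 4097 r r)
 (.c (t 2 7 r)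
 (.c (t 3 1 (t 2 1 v))
 (.c (t 2 6 (t 3 3 v))
 (.c (t 2 4 r)
 (.c (u 2 0 (k (t 6 2 (u 4 0 (k (c 12 4099 r (u 8 0 (k r (k r (k (c 24 4099 r r) (k (c 3 4096 r r) (k (c 3 4096 r r) (k (c 3 4096 r (u 16 0 (k (u 32 0 (k v (k v r))) r))) (k r (k r r)))))))))) r))) r))
 (.c (c 3 4095 r r)
 (.c (c 3 4095 r r)
 (.c (t 2 6 (t 3 3 v))
 (.c (c 3 4095 r r)
 (.c (c 3 4095 r r)
 (.c (c 3 4095 r r)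
 (.c (c 2 4104 r r)
 (.c (t 2 6 (u 3 0 (k (t 7 2 r) r)))
 (.c (c 2 4104 r (t 3 3 v))
 (.c (t 2 4 (u 3 0 (k (t 7 2 r) r)))
 (.c (t 2 6 r)
 (.c (t 2 6 (u 3 0 (k (t 7 3 r) r)))
 (.c (t 2 4 r)
 (.c (t 3 2 (u 2 0 (k (t 6 2 (u 4 0 (k (c 12 4099 r r) r))) r)))
 (.c (u 3 1 (k (u 2 0 (k (t 6 2 (u 4 0 (k (c 12 4099 r r) r))) r)) (k (c 7 4099 r r) (k (u 5 0 (k (u 2 0 (k (t 6 2 (u 4 0 (k (c 12 4099 r r) r))) r)) (k r r))) (k (c 5 4099 r r) (k (c 5 4099 r r) (k (c 5 4099 r r) r)))))))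
 (.c (t 2 7 (t 3 1 v))
 (.c (u 3 0 (k r r))
 (.c (t 2 6 r)
 (.c (t 2 6 r)
 (.c (c 2 4104 r (u 3 0 (k (t 7 2 r) r)))
 (.c (c 3 4095 r r)
 (.c (c 2 4104 r r)
 (.c (u 2 0 (k (t 6 2 (u 4 0 (k (c 12 4099 r (u 3 1 (k r (k (u 5 7 (k r (k r (k r (k (c 13 4099 r (u 9 1 (k r (k r r)))) r))))) (k (c 7 4096 r (u 5 1 (k r (k r r)))) r))))) r))) r))
 (.c (t 2 6 (t 3 3 v))
 (.c (t 2 4 (u 3 0 (k (t 7 3 r) r)))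
 (.c (t 3 1 (t 2 1 v))
 (.c (t 2 4 r)
 (.c (t 2 6 (u 3 0 (k r r)))
 (.c (u 2 0 (k (t 6 2 (u 4 0 (k (c 12 4099 r (u 3 10 (k (c 7 4099 r r) (k (c 7 4099 r r) (k (c 7 4099 r (u 5 5 (k r (k r r)))) (k (c 8 4100 r r) (k (c 5 4097 r r) (k (c 7 4096 r r) (k (c 5 4099 r r) r))))))))) r))) r))
 (.c (t 3 3 (t 2 7 v))
 (.c (t 2 7 (u 3 1 (k v (k v r))))
 (.c (c 3 4095 r r)
 (.c (t 2 6 r)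
 (.c (u 2 0 (k (t 6 2 (u 4 0 (k (c 12 4099 r (u 3 20 (k (c 3 4094 v r) (k (c 8 4100 r v) (k (u 5 37 (k (c 3 4094 v r) (k r (k r r)))) (k (c 5 4097 r r) (k (c 7 4097 r r) (k (u 5 10 (k r (k (c 3 4094 v r) (k (c 13 4097 r (u 9 1 (k r (k r r)))) (k (c 13 4097 r (u 9 1 (k r (k r r)))) r))))) (k (c 7 4095 r r) (k (c 5 4095 r r) r)))))))))) r))) r))
 (.c (u 3 1 (k (t 2 7 v) (k (u 2 0 (k (t 6 2 (u 4 0 (k (c 12 4099 r r) r))) r)) (k (c 3 4090 v r) (k (u 5 1 (k (u 2 0 (k (t 6 2 (u 4 0 (k (c 12 4099 r r) r))) r)) (k r r))) (k (c 5 4097 r r) (k (c 5 4095 r r) r)))))))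
 (.c (t 2 6 (t 3 1 v))
 (.c (t 3 1 (t 2 1 v))
 (.c (t 2 6 (t 3 1 v))
 (.c (c 3 4095 r r)
 (.c (c 3 4095 r r)
 (.c (c 3 4095 r r)
 (.c (c 3 4095 r r)
 (.c (t 2 6 r)
 (.c (t 3 3 (t 2 7 v))
 (.c (t 3 4 (t 2 1 v))
 (.c (t 2 4 r)
 (.c (t 2 6 r)
 (.c (t 2 6 r)
 (.c (t 2 7 (t 3 3 v))
 (.c (t 2 6 r)
 (.c (t 2 6 r)
 (.c (t 2 1 (u 3 0 (k (t 7 2 (u 5 0 (k (c 13 4099 r r) r))) r)))
 .z)))))))))))))))))))))))))))))))))))))))))))))))))))))))))))))))))))))))))))))))))))))))))))))))))))))))))))))))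

set_option maxRecDepth 100000 in
def R111 : PR :=
 (.c r
 (.c r
 (.c (c 2 4097 r (t 3 1 v))
 (.c (c 2 4097 r (t 3 1 v))
 (.c (t 2 1 (t 3 1 v))
 (.c (c 3 4100 r r)
 (.c (c 3 4100 r r)
 (.c (c 3 4099 r r)
 (.c (c 2 4097 r (t 3 3 v))
 (.c (c 3 4099 r r)
 (.c (c 2 4097 r (t 3 3 v))
 (.c (c 2 4097 r (t 3 1 v))
 (.c (c 2 4097 r (t 3 1 v))
 (.c (c 2 4097 r (t 3 2 v))
 (.c (t 3 3 (u 2 0 (k (u 6 26 (k r (k (u 4 0 (k v (k (u 8 6 (k v (k v (k v r)))) (k (c 12 4099 r (u 8 0 (k (u 16 0 (k v (k v r))) r))) (k (c 2 4087 r v) (k (c 2 4069 r v) (k (u 8 0 (k (u 16 0 (k v (k v r))) r)) (k r (k r r))))))))) r))) r)))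
 (.c (c 2 4097 r (t 3 1 v))
 (.c (c 3 4097 r r)
 (.c (c 3 4097 r r)
 (.c (c 2 4097 r (t 3 1 v))
 (.c (c 2 4097 r (t 3 1 v))
 (.c (c 2 4097 r (t 3 2 v))
 (.c (c 2 4097 r (t 3 1 v))
 (.c (c 3 4099 r r)
 (.c (c 2 4097 r (t 3 3 v))
 (.c (t 2 1 (u 3 3 (k v (k v r))))
 (.c (c 2 4097 r (t 3 3 v))
 (.c (c 3 4098 r r)
 (.c (c 2 4097 r (t 3 3 v))
 (.c (c 3 4097 r r)
 (.c (c 2 4097 r (t 3 1 v))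
 (.c (c 3 4097 r r)
 (.c (c 3 4097 r r)
 (.c (c 2 4097 r (t 3 5 v))
 (.c (c 2 4097 r (t 3 3 v))
 (.c (c 3 4096 r r)
 (.c (c 2 4097 r (t 3 3 v))
 (.c (c 2 4097 r r)
 (.c (c 3 4096 r r)
 (.c (c 2 4097 r (u 3 0 (k r r)))
 (.c (u 2 0 (k (t 4 2 r) r))
 (.c (c 2 4097 r (t 3 1 v))
 (.c (c 2 4097 r (u 3 0 (k (t 7 1 r) r)))
 (.c (c 2 4097 r (t 3 3 v))
 (.c (c 3 4100 r r)
 (.c (c 3 4100 r r)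
 (.c (c 3 4100 r r)
 (.c (t 2 1 (u 3 0 (k (t 5 3 (t 7 3 v)) r)))
 (.c (t 2 1 r)
 (.c (c 3 4099 r r)
 (.c (c 2 4097 r (t 3 1 v))
 (.c (c 3 4098 r r)
 (.c (c 2 4097 r r)
 (.c (c 3 4097 r r)
 (.c (c 2 4097 r (t 3 1 v))
 (.c (c 3 4097 r r)
 (.c (c 3 4097 r r)
 (.c (c 2 4097 r r)
 (.c (c 3 4096 r r)
 (.c (c 2 4097 r (t 3 1 v))
 (.c (c 3 4095 r r)
 (.c (c 3 4095 r r)
 (.c (c 2 4097 r r)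
 (.c (c 2 4097 r r)
 (.c (c 2 4097 r (t 3 1 v))
 (.c (c 3 4095 r r)
 (.c (c 2 4097 r r)
 (.c (c 2 4097 r (u 3 0 (k (t 7 2 r) r)))
 (.c (c 2 4097 r (t 3 3 v))
 (.c (c 2 4097 r (u 3 0 (k (t 7 2 r) r)))
 (.c (t 2 1 r)
 (.c (c 2 4097 r r)
 (.c (c 2 4097 r r)
 (.c (c 3 4102 r r)
 (.c (t 2 1 r)
 (.c (c 3 4099 r r)
 (.c (c 3 4102 r r)
 (.c (c 2 4097 r r)
 (.c (c 2 4097 r r)
 (.c (c 2 4097 r (u 3 0 (k (t 7 2 r) r)))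
 (.c (c 3 4095 r r)
 (.c (c 2 4097 r r)
 (.c (c 3 4101 r r)
 (.c (c 2 4097 r r)
 (.c (c 3 4097 r r)
 (.c (c 3 4100 r r)
 (.c (c 2 4097 r r)
 (.c (c 2 4097 r (t 3 2 v))
 (.c (c 3 4099 r r)
 (.c (c 2 4097 r r)
 (.c (c 3 4099 r r)
 (.c (c 3 4095 r r)
 (.c (c 3 4098 r r)
 (.c (c 2 4097 r (t 3 2 v))
 (.c (c 3 4098 r r)
 (.c (t 2 1 (t 3 1 v))
 (.c (c 2 4097 r (t 3 1 v))
 (.c (c 2 4097 r (t 3 2 v))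
 (.c (c 2 4097 r (u 3 0 (k r (k r (k r r)))))
 (.c (c 2 4097 r (u 3 0 (k (t 7 2 (u 5 0 (k (c 13 4099 r r) r))) r)))
 (.c (c 3 4095 r r)
 (.c (c 3 4095 r r)
 (.c (c 3 4100 r r)
 (.c (c 3 4100 r r)
 (.c (c 2 4097 r (u 3 0 (k (t 7 2 r) r)))
 (.c (c 3 4099 r r)
 (.c (t 2 1 r)
 (.c (c 2 4097 r r)
 (.c (c 2 4097 r r)
 (.c (c 2 4097 r r)
 (.c (c 2 4097 r r)
 (.c (c 2 4097 r r)
 (.c (c 3 4097 r r)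
 .z))))))))))))))))))))))))))))))))))))))))))))))))))))))))))))))))))))))))))))))))))))))))))))))))))))))))))))))))

set_option maxRecDepth 100000 in
def R112 : PR :=
 (.c r
 (.c r
 (.t 87 (.c (c 2 4100 r (t 3 1 v))
 (.c (c 3 4101 r r)
 (.c (c 3 4100 r r)
 (.c (c 3 4100 r r)
 (.c (c 3 4099 r r)
 (.c (c 2 4100 r (t 3 3 v))
 (.c (c 3 4099 r r)
 (.c (c 2 4100 r (t 3 3 v))
 (.c (c 2 4100 r (t 3 1 v))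
 (.c (c 2 4100 r (t 3 1 v))
 (.c (t 3 3 (u 2 0 (k (u 6 3 (k r (k (u 4 0 (k v (k v r))) r))) r)))
 (.t 141 (.c (c 2 4100 r (t 3 1 v))
 (.c (c 3 4097 r r)
 (.c (c 3 4097 r r)
 (.c (t 2 3 (t 3 3 v))
 (.c (t 2 3 (t 3 3 v))
 (.c (c 3 4096 r r)
 (.c (c 3 4095 r r)
 (.c (c 3 4099 r r)
 (.c (c 3 4104 r r)
 (.c (t 2 3 (u 3 3 (k v (k v r))))
 (.c (c 3 4098 r r)
 (.c (c 3 4098 r r)
 (.c (c 2 4100 r (t 3 3 v))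
 (.c (c 3 4097 r r)
 (.c (c 2 4100 r (t 3 1 v))
 (.c (c 3 4097 r r)
 (.c (c 3 4097 r r)
 (.c (c 2 4100 r (t 3 5 v))
 (.c (c 2 4100 r (t 3 3 v))
 (.c (c 3 4096 r r)
 (.c (c 2 4100 r (t 3 3 v))
 (.c (c 2 4100 r r)
 (.c (c 3 4096 r r)
 (.c (c 2 4100 r (u 3 0 (k r r)))
 (.c (c 3 4101 r r)
 (.c (c 2 4100 r (t 3 1 v))
 (.c (c 2 4100 r (u 3 0 (k (t 7 1 r) r)))
 (.c (c 2 4100 r (t 3 3 v))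
 (.c (c 3 4100 r r)
 (.c (c 3 4100 r r)
 (.c (c 3 4100 r r)
 (.c (t 2 3 (u 3 0 (k (t 5 3 (t 7 3 v)) r)))
 (.c (t 2 3 r)
 (.c (c 3 4099 r r)
 (.c (c 3 4098 r r)
 (.c (c 3 4098 r r)
 (.c (c 2 4100 r r)
 (.c (c 3 4097 r r)
 (.c (c 3 4097 r r)
 (.c (c 3 4097 r r)
 (.c (c 3 4097 r r)
 (.c (c 2 4100 r r)
 (.c (c 3 4096 r r)
 (.c (c 3 4096 r r)
 (.c (c 3 4095 r r)
 (.c (c 3 4095 r r)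
 (.c (c 3 4098 r r)
 (.c (c 3 4095 r r)
 (.c (c 3 4095 r r)
 (.c (c 3 4095 r r)
 (.c (c 2 4100 r r)
 (.c (c 2 4100 r (u 3 0 (k (t 7 2 r) r)))
 (.c (c 2 4100 r (t 3 3 v))
 (.c (c 2 4100 r (u 3 0 (k (t 7 2 r) r)))
 (.c (t 2 3 r)
 (.c (t 2 3 (u 3 0 (k (t 7 3 r) r)))
 (.c (c 3 4099 r r)
 (.c (c 3 4102 r r)
 (.c (c 3 4102 r r)
 (.c (c 3 4099 r r)
 (.c (c 3 4102 r r)
 (.c (c 2 4100 r r)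
 (.c (c 3 4101 r r)
 (.c (c 2 4100 r (u 3 0 (k (t 7 2 r) r)))
 (.c (c 3 4095 r r)
 (.c (c 2 4100 r r)
 (.c (c 3 4101 r r)
 (.c (c 2 4100 r r)
 (.c (c 3 4097 r r)
 (.c (c 2 4100 r (u 3 1 (k v (k v r))))
 (.c (c 3 4100 r r)
 (.c (c 3 4100 r r)
 (.c (c 3 4099 r r)
 (.c (c 2 4100 r r)
 (.c (c 3 4099 r r)
 (.c (c 3 4095 r r)
 (.c (c 3 4098 r r)
 (.c (c 3 4098 r r)
 (.c (c 3 4098 r r)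
 (.c (c 3 4097 r r)
 (.c (c 3 4096 r r)
 (.c (c 3 4096 r r)
 (.c (c 3 4095 r r)
 (.c (c 3 4095 r r)
 (.c (c 3 4095 r r)
 (.c (c 3 4095 r r)
 (.c (c 3 4100 r r)
 (.c (t 2 3 r)
 (.c (c 2 4100 r (u 3 0 (k (t 7 2 r) r)))
 (.c (c 3 4099 r r)
 (.c (t 2 3 r)
 (.c (c 2 4100 r r)
 (.c (c 2 4100 r r)
 (.c (c 2 4100 r r)
 (.c (t 2 3 r)
 (.c (c 3 4104 r r)
 (.c (c 3 4097 r r)
 (.c (c 2 4100 r r)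
 .z)))))))))))))))))))))))))))))))))))))))))))))))))))))))))))))))))))))))))))))))))))))))))))))))))))))))))))))))))

set_option maxRecDepth 100000 in
def R113 : PR :=
 (.c r
 (.c r
 (.c (t 3 1 r)
 (.c (t 3 1 r)
 (.c (t 3 1 (u 2 1 (k (t 6 2 r) (k (t 6 2 (u 4 0 (k r r))) (k r (k r (k (t 6 2 r) r)))))))
 (.c (c 3 4100 r r)
 (.c (c 3 4100 r r)
 (.c (c 3 4099 r r)
 (.c (c 2 4100 r (t 3 3 v))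
 (.c (c 3 4099 r r)
 (.c (c 2 4100 r (t 3 3 v))
 (.c (c 2 4100 r (t 3 1 v))
 (.c (c 2 4100 r (t 3 1 v))
 (.c (t 3 2 r)
 (.c (t 3 2 r)
 (.c (c 2 4100 r (t 3 1 v))
 (.c (c 3 4097 r r)
 (.c (c 3 4097 r r)
 (.c (t 3 1 r)
 (.c (t 3 1 r)
 (.c (c 3 4096 r r)
 (.c (c 3 4095 r r)
 (.c (c 3 4099 r r)
 (.c (t 2 1 (t 3 3 v))
 (.c (t 2 1 (u 3 3 (k v (k v r))))
 (.c (c 3 4098 r r)
 (.c (c 3 4098 r r)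
 (.c (c 2 4100 r (t 3 3 v))
 (.c (c 3 4097 r r)
 (.c (c 2 4100 r (t 3 1 v))
 (.c (c 3 4097 r r)
 (.c (c 3 4097 r r)
 (.c (c 2 4100 r (t 3 5 v))
 (.c (c 2 4100 r (t 3 3 v))
 (.c (c 3 4096 r r)
 (.c (c 2 4100 r (t 3 3 v))
 (.c (c 2 4100 r r)
 (.c (c 3 4096 r r)
 (.c (c 2 4100 r (u 3 0 (k r r)))
 (.c (t 3 1 r)
 (.c (c 2 4100 r (t 3 1 v))
 (.c (c 2 4100 r (u 3 0 (k (t 7 1 r) r)))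
 (.c (c 2 4100 r (t 3 3 v))
 (.c (c 3 4100 r r)
 (.c (c 3 4100 r r)
 (.c (c 3 4100 r r)
 (.c (t 3 2 r)
 (.c (t 3 1 r)
 (.c (c 3 4099 r r)
 (.c (c 3 4098 r r)
 (.c (c 3 4098 r r)
 (.c (c 3 4098 r r)
 (.c (c 3 4097 r r)
 (.c (c 3 4097 r r)
 (.c (c 3 4097 r r)
 (.c (c 3 4097 r r)
 (.c (c 2 4100 r r)
 (.c (c 3 4096 r r)
 (.c (c 3 4096 r r)
 (.c (c 3 4095 r r)
 (.c (c 3 4095 r r)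
 (.c (c 3 4098 r r)
 (.c (c 3 4095 r r)
 (.c (c 3 4095 r r)
 (.c (c 3 4095 r r)
 (.c (c 2 4100 r r)
 (.c (c 3 4099 r r)
 (.c (c 2 4100 r (t 3 3 v))
 (.c (c 3 4098 r r)
 (.c (t 3 2 r)
 (.c (c 3 4099 r r)
 (.c (c 3 4099 r r)
 (.c (c 3 4102 r r)
 (.c (t 3 1 r)
 (.c (t 3 1 r)
 (.c (c 3 4102 r r)
 (.c (c 3 4101 r r)
 (.c (u 3 25 (k r (k r r)))
 (.c (c 2 4100 r (u 3 0 (k (t 7 2 r) r)))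
 (.c (c 3 4095 r r)
 (.c (c 2 4100 r r)
 (.c (c 3 4101 r r)
 (.c (c 3 4101 r r)
 (.c (c 3 4097 r r)
 (.c (c 3 4100 r r)
 (.c (c 3 4100 r r)
 (.c (c 3 4100 r r)
 (.c (c 3 4099 r r)
 (.c (c 3 4099 r r)
 (.c (c 3 4099 r r)
 (.c (c 3 4095 r r)
 (.c (c 3 4098 r r)
 (.c (c 3 4098 r r)
 (.c (c 3 4098 r r)
 (.c (c 3 4097 r r)
 (.c (c 3 4096 r r)
 (.c (c 3 4096 r r)
 (.c (c 3 4095 r r)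
 (.c (c 3 4095 r r)
 (.c (c 3 4095 r r)
 (.c (c 3 4095 r r)
 (.c (c 3 4100 r r)
 (.c (c 3 4100 r r)
 (.c (c 2 4100 r (u 3 0 (k (t 7 2 r) r)))
 (.c (c 3 4099 r r)
 (.c (t 3 2 r)
 (.c (c 2 4100 r r)
 (.c (c 2 4100 r r)
 (.c (t 3 3 r)
 (.c (t 3 2 r)
 (.c (t 3 4 r)
 (.c (c 2 4100 r r)
 (.c (c 2 4100 r r)
 (.c (c 3 4100 r r)
 .z))))))))))))))))))))))))))))))))))))))))))))))))))))))))))))))))))))))))))))))))))))))))))))))))))))))))))))))))))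

set_option maxRecDepth 100000 in
def R114 : PR :=
 (.t 107 (.t 0 (.t 98 (.c (c 2 4097 r (t 3 1 v))
 (.c (t 3 1 (u 2 1 (k r (k r r))))
 (.c (t 3 3 r)
 (.c (t 3 1 (u 2 2 (k v (k (c 6 4099 r (u 4 4 (k v (k v r)))) r))))
 (.c (t 3 1 (u 2 1 (k (t 6 2 (u 4 19 (k (t 12 3 (u 8 16 (k v (k v (k r (k r (k (c 12 4110 v (c 3 4099 v r)) (k (c 12 4110 v (c 3 4099 v r)) r)))))))) (k (t 12 2 (c 6 4094 v r)) (k (c 2 4074 (c 3 4094 v (u 4 0 (k r r))) v) r))))) (k (c 3 4099 v r) r))))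
 (.c (c 2 4097 r (t 3 3 v))
 (.c (t 3 3 r)
 (.c (c 2 4097 r (t 3 3 v))
 (.c (c 2 4097 r (t 3 1 v))
 (.c (c 2 4097 r (t 3 1 v))
 (.c (t 3 3 r)
 (.t 144 (.c (c 2 4097 r (t 3 1 v))
 (.c (u 3 0 (k (u 2 1 (k r (k r r))) (k r r)))
 (.c (u 2 1 (k (t 6 1 r) (k (c 3 4097 r r) r)))
 (.c (c 2 4097 r (t 3 1 v))
 (.c (t 3 1 r)
 (.c (u 2 1 (k (c 6 4099 r (u 4 6 (k (u 3 0 (k (u 5 0 (k v (k v r))) r)) (k (u 3 0 (k (u 5 0 (k v (k v r))) r)) (k (t 12 2 (u 8 94 (k (u 3 0 (k (u 5 0 (k v (k v r))) r)) (k (u 3 0 (k (u 5 0 (k v (k v r))) r)) (k (u 3 0 (k (u 5 0 (k v (k v r))) r)) (k (c 2 4085 (t 12 1 (u 8 0 (k r r))) (t 3 2 v)) r)))))) r))))) (k (c 3 4096 r r) r)))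
 (.c (t 3 1 r)
 (.c (t 2 2 (t 3 3 v))
 (.c (t 3 1 r)
 (.c (u 2 2 (k (u 3 3 (k v (k v r))) (k (c 6 4099 r (u 4 4 (k (u 3 3 (k v (k v r))) (k (u 3 3 (k v (k v r))) r)))) r)))
 (.c (t 3 3 r)
 (.c (u 3 0 (k (t 5 3 (t 7 1 r)) r))
 (.c (c 2 4097 r (t 3 3 v))
 (.c (u 3 2 (k r (k (c 2 4097 r (u 5 1 (k v (k v r)))) r)))
 (.c (c 2 4097 r (t 3 1 v))
 (.c (u 2 7 (k (u 3 0 (k (u 5 1 (k v (k v r))) r)) (k (c 6 4099 r (u 4 4 (k (u 3 0 (k (u 5 1 (k v (k v r))) r)) (k (u 3 0 (k (u 5 3 (k v (k v r))) r)) r)))) r)))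
 (.c (t 3 2 r)
 (.c (c 2 4097 r (t 3 5 v))
 (.c (c 2 4097 r (t 3 3 v))
 (.c (u 2 1 (k (t 6 2 (u 3 0 (k (t 5 3 (t 7 1 (u 4 24 (k v (k v (k (t 12 3 (u 8 45 (k v (k v (k v (k (c 3 4096 v (c 12 4110 v r)) (k (c 3 4096 v (c 12 4110 v r)) (k (c 3 4096 v (c 12 4110 v r)) r)))))))) r)))))) r))) (k (c 3 4096 r r) r)))
 (.c (c 2 4097 r (t 3 3 v))
 (.c (c 2 4097 r r)
 (.c (u 3 2 (k (u 2 1 (k r (k r r))) (k r (k (u 2 2 (k v (k (c 6 4099 r (u 4 4 (k v (k v r)))) r))) (k r r)))))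
 (.c (c 2 4097 r (u 3 0 (k r r)))
 (.c (u 3 23 (k (c 2 4097 r v) (k r (k r (k (u 5 0 (k r (k r (k r r)))) (k (c 2 4097 r r) r))))))
 (.c (c 2 4097 r (t 3 1 v))
 (.c (c 2 4097 r (u 3 0 (k (t 7 1 r) r)))
 (.c (c 2 4097 r (t 3 3 v))
 (.c (t 3 6 (u 2 1 (k r (k r r))))
 (.c (u 3 1 (k (u 2 1 (k r (k r r))) (k r r)))
 (.c (u 2 1 (k (c 6 4099 r (u 4 1 (k r (k (t 12 2 r) (k (c 2 4076 (u 4 0 (k r r)) (t 3 2 v)) r))))) (k (c 3 4100 r r) r)))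
 (.c (t 3 2 r)
 (.c (t 3 1 r)
 (.c (u 3 36 (k r (k (u 2 1 (k r (k r r))) (k (u 5 1 (k r (k r r))) (k (c 7 4099 r (u 5 0 (k r (k r r)))) (k (u 5 0 (k r (k r r))) (k (c 7 4097 r (u 5 1 (k r (k r r)))) r)))))))
 (.c (t 3 1 r)
 (.c (t 3 1 r)
 (.c (c 2 4097 r r)
 (.c (u 3 2 (k (c 2 4097 r v) (k (c 7 4097 r (u 5 0 (k r (k r r)))) r)))
 (.c (t 3 2 (u 2 1 (k r (k r r))))
 (.c (u 2 1 (k (c 6 4099 r (u 4 1 (k r (k (t 12 2 r) (k (c 2 4076 (u 4 0 (k r r)) r) r))))) (k (c 3 4097 r r) r)))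
 (.c (t 3 1 r)
 (.c (c 2 4097 r r)
 (.c (u 2 1 (k (c 6 4099 r (u 4 1 (k r (k (t 12 2 (u 3 6 (k r (k (t 7 1 (u 8 35 (k r (k (u 5 10 (k v (k v r))) (k (c 2 4085 (t 12 1 (u 8 0 (k r r))) r) r))))) r)))) (k (c 2 4076 (u 4 0 (k r r)) r) r))))) (k (c 3 4096 r r) r)))
 (.c (u 2 1 (k (c 6 4099 r (u 4 1 (k r (k (t 12 2 (u 8 94 (k r (k r (k (u 3 2 (k r (k (u 5 1 (k v (k v r))) (k (c 5 4096 r (u 7 0 (k v (k v r)))) (k (c 7 4096 r r) r))))) (k (c 2 4085 (t 12 1 (u 8 0 (k r r))) (t 3 1 v)) r)))))) (k (c 2 4076 (u 4 0 (k r r)) (t 3 1 v)) r))))) (k (c 3 4096 r r) r)))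
 (.c (u 2 2 (k r (k (c 6 4099 r (u 4 4 (k r (k r r)))) r)))
 (.c (t 3 1 r)
 (.c (t 3 3 r)
 (.c (t 3 2 r)
 (.c (t 3 1 r)
 (.c (u 3 5 (k (u 2 1 (k r (k r r))) (k r r)))
 (.c (c 2 4097 r r)
 (.c (c 2 4097 r (u 3 0 (k (t 7 2 r) r)))
 (.c (c 2 4097 r (t 3 3 v))
 (.c (c 2 4097 r (u 3 0 (k (t 7 2 r) r)))
 (.c (u 3 0 (k (u 2 1 (k r (k r r))) (k r r)))
 (.c (c 2 4097 r r)
 (.c (t 3 2 r)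
 (.c (t 3 2 r)
 (.c (u 3 32 (k (u 2 1 (k r (k r r))) (k r (k (c 7 4099 r (u 5 1 (k r (k r r)))) (k (u 5 171 (k r (k r r))) r)))))
 (.c (t 3 1 (u 2 1 (k r (k r r))))
 (.c (u 3 0 (k (u 5 0 (k r (k r r))) r))
 (.c (c 2 4097 r r)
 (.c (u 3 4 (k (u 2 1 (k r (k r r))) (k r r)))
 (.c (c 2 4097 r (u 3 0 (k (t 7 2 r) r)))
 (.c (t 3 1 r)
 (.c (c 2 4097 r r)
 (.c (u 2 1 (k (c 6 4099 r (u 4 6 (k r (k (u 3 0 (k v (k r r))) (k (t 12 2 (u 3 0 (k r (k (u 5 7 (k r (k r (k (u 8 11 (k v (k v (k (c 2 4085 (t 12 1 (u 8 0 (k r r))) v) r)))) (k (c 13 4099 r r) r))))) r)))) r))))) (k (c 3 4101 r r) r)))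
 (.c (c 2 4097 r r)
 (.c (c 2 4097 r (u 3 0 (k (t 7 3 r) r)))
 (.c (c 2 4097 r (u 3 1 (k v (k v r))))
 (.c (c 2 4097 r r)
 (.c (u 3 0 (k (u 5 0 (k r (k (u 2 1 (k (c 6 4099 r (u 4 6 (k r (k r (k (t 12 2 (u 8 94 (k r (k r (k r (k (c 4 4086 (t 6 1 (u 4 0 (k r r))) r) r)))))) r))))) (k (c 3 4100 (c 4 4102 r v) r) r))) r))) r))
 (.c (u 2 1 (k (c 6 4099 r (u 4 1 (k r (k (t 12 2 r) (k (c 2 4076 (u 4 0 (k r r)) (t 3 1 v)) r))))) (k (c 3 4099 r r) r)))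
 (.c (c 2 4097 r r)
 (.c (u 3 1 (k (u 2 1 (k r (k r r))) (k r r)))
 (.c (c 2 4097 r r)
 (.c (u 3 12 (k (u 2 1 (k r (k r r))) (k r r)))
 (.c (u 2 1 (k (c 6 4099 r (u 4 1 (k r (k (t 12 2 (u 8 35 (k r (k (u 3 10 (k v (k v (k r (k r (k (c 7 4096 r r) (k r r))))))) (k (c 2 4085 (t 12 1 (u 8 0 (k r r))) (t 3 2 v)) r))))) (k (c 2 4076 (u 4 0 (k r r)) (t 3 2 v)) r))))) (k (c 3 4098 r r) r)))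
 (.c (u 3 1 (k (u 2 1 (k r (k r r))) (k r (k r (k (u 5 0 (k r (k r r))) (k (c 5 4097 r (u 7 0 (k r (k r r)))) (k (c 5 4095 r (u 7 0 (k r (k r r)))) r)))))))
 (.c (t 3 1 r)
 (.c (t 3 1 r)
 (.c (t 3 1 r)
 (.c (c 2 4097 r (u 3 0 (k r (k r (k r r)))))
 (.c (t 3 2 (u 2 1 (k r (k r r))))
 (.c (u 2 1 (k (t 6 2 (u 3 0 (k (t 7 1 (u 4 26 (k r (k r (k (t 12 3 r) r))))) r))) (k (c 3 4095 r r) r)))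
 (.c (u 3 4 (k (u 2 1 (k r (k r r))) (k r (k r (k (u 2 1 (k (t 6 2 (u 4 13 (k v (k (t 12 3 (u 8 53 (k v (k v (k v (k (c 3 4090 v (c 12 4110 v r)) (k (c 3 4090 v (c 12 4110 v r)) (k (c 3 4090 v (c 12 4110 v r)) r)))))))) (k (c 2 4074 (c 3 4094 v (u 4 0 (k r r))) v) r))))) (k (c 3 4090 v r) r))) r)))))
 (.c (t 3 1 (u 2 1 (k r (k r r))))
 (.c (t 3 3 (u 2 1 (k r (k r r))))
 (.c (c 2 4097 r (u 3 0 (k (t 7 2 r) r)))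
 (.c (c 2 4097 r r)
 (.c (t 3 3 (u 2 1 (k r (k r r))))
 (.c (c 2 4097 r r)
 (.c (c 2 4097 r r)
 (.c (c 2 4097 r r)
 (.c (c 2 4097 r r)
 (.c (t 3 6 (u 2 1 (k r (k r r))))
 (.c (c 2 4097 r r)
 (.c (c 2 4097 r r)
 (.c (c 2 4097 r r)
 (.c (u 2 7 (k r (k (c 6 4099 r (u 4 4 (k r (k r r)))) r)))
 .z)))))))))))))))))))))))))))))))))))))))))))))))))))))))))))))))))))))))))))))))))))))))))))))))))))))))))))))))))))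

set_option maxRecDepth 100000 in
def R115 : PR :=
 (.c r
 (.c r
 (.t 87 (.c (c 2 4100 r (t 3 1 v))
 (.c (c 3 4101 r r)
 (.c (c 3 4100 r r)
 (.c (c 3 4100 r r)
 (.c (c 3 4099 r r)
 (.c (c 2 4100 r (t 3 3 v))
 (.c (c 3 4099 r r)
 (.c (c 2 4100 r (t 3 3 v))
 (.c (c 2 4100 r (t 3 1 v))
 (.c (c 2 4100 r (t 3 1 v))
 (.c (t 3 3 r)
 (.c (t 3 3 r)
 (.c (c 2 4100 r (t 3 1 v))
 (.c (c 3 4097 r r)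
 (.c (c 3 4097 r r)
 (.c (t 3 1 r)
 (.c (t 3 1 r)
 (.c (c 3 4096 r r)
 (.c (c 3 4095 r r)
 (.c (c 3 4099 r r)
 (.c (t 2 3 (t 3 3 v))
 (.c (t 2 3 (u 3 3 (k v (k v r))))
 (.c (c 3 4098 r r)
 (.c (c 3 4098 r r)
 (.c (c 2 4100 r (t 3 3 v))
 (.c (c 3 4097 r r)
 (.c (c 2 4100 r (t 3 1 v))
 (.c (c 3 4097 r r)
 (.c (c 3 4097 r r)
 (.c (c 2 4100 r (t 3 5 v))
 (.c (c 2 4100 r (t 3 3 v))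
 (.c (c 3 4096 r r)
 (.c (c 2 4100 r (t 3 3 v))
 (.c (c 2 4100 r r)
 (.c (c 3 4096 r r)
 (.c (c 2 4100 r (u 3 0 (k r r)))
 (.c (c 3 4101 r r)
 (.c (c 2 4100 r (t 3 1 v))
 (.c (c 2 4100 r (u 3 0 (k (t 7 1 r) r)))
 (.c (c 2 4100 r (t 3 3 v))
 (.c (c 3 4100 r r)
 (.c (c 3 4100 r r)
 (.c (c 3 4100 r r)
 (.c (t 2 3 (u 3 0 (k (t 5 3 (t 7 3 v)) r)))
 (.c (t 3 1 r)
 (.c (c 3 4099 r r)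
 (.c (c 3 4098 r r)
 (.c (t 2 3 (t 3 1 v))
 (.c (c 2 4100 r r)
 (.c (c 3 4097 r r)
 (.c (c 3 4097 r r)
 (.c (c 3 4097 r r)
 (.c (c 3 4097 r r)
 (.c (c 2 4100 r r)
 (.c (c 3 4096 r r)
 (.c (c 3 4096 r r)
 (.c (c 3 4095 r r)
 (.c (c 3 4095 r r)
 (.c (c 3 4098 r r)
 (.c (c 3 4095 r r)
 (.c (c 3 4095 r r)
 (.c (c 3 4095 r r)
 (.c (c 2 4100 r r)
 (.c (c 2 4100 r (u 3 0 (k (t 7 2 r) r)))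
 (.c (c 2 4100 r (t 3 3 v))
 (.c (c 2 4100 r (u 3 0 (k (t 7 2 r) r)))
 (.c (t 2 3 r)
 (.c (c 3 4099 r r)
 (.c (t 2 3 r)
 (.c (c 3 4102 r r)
 (.c (t 2 3 r)
 (.c (c 3 4099 r r)
 (.c (c 3 4102 r r)
 (.c (c 2 4100 r r)
 (.c (c 3 4101 r r)
 (.c (c 2 4100 r (u 3 0 (k (t 7 2 r) r)))
 (.c (c 3 4095 r r)
 (.c (c 3 4101 r r)
 (.c (c 3 4101 r r)
 (.c (c 2 4100 r r)
 (.c (c 3 4097 r r)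
 (.c (c 3 4100 r r)
 (.c (c 3 4100 r r)
 (.c (c 3 4100 r r)
 (.c (c 3 4099 r r)
 (.c (c 2 4100 r r)
 (.c (c 3 4099 r r)
 (.c (c 2 4100 r r)
 (.c (c 3 4098 r r)
 (.c (c 3 4098 r r)
 (.c (c 3 4098 r r)
 (.c (c 3 4097 r r)
 (.c (c 3 4096 r r)
 (.c (c 3 4096 r r)
 (.c (c 2 4100 r (u 3 0 (k r (k r (k r r)))))
 (.c (c 3 4095 r r)
 (.c (c 3 4095 r r)
 (.c (c 3 4095 r r)
 (.c (t 2 3 r)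
 (.c (c 3 4100 r r)
 (.c (c 2 4100 r (u 3 0 (k (t 7 2 r) r)))
 (.c (c 3 4099 r r)
 (.c (t 2 3 r)
 (.c (c 2 4100 r r)
 (.c (c 2 4100 r r)
 (.c (c 2 4100 r r)
 (.c (c 2 4100 r r)
 (.c (t 2 3 (t 3 7 v))
 (.c (c 2 4100 r r)
 (.c (c 3 4100 r r)
 (.c (c 2 4100 r r)
 (.c (c 3 4097 r r)
 (.c (c 2 4100 r r)
 .z))))))))))))))))))))))))))))))))))))))))))))))))))))))))))))))))))))))))))))))))))))))))))))))))))))))))))))))))))))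

set_option maxRecDepth 100000 in
def R116 : PR :=
 (.c r
 (.c r
 (.c (c 2 4096 r (t 3 1 v))
 (.c (c 2 4096 r (t 3 1 v))
 (.c (t 2 1 (t 3 1 v))
 (.c (t 2 1 (t 3 3 v))
 (.c (t 2 1 (t 3 1 v))
 (.t 12 (.c (c 2 4096 r (t 3 3 v))
 (.c (c 3 4099 r r)
 (.c (c 2 4096 r (t 3 3 v))
 (.c (c 2 4096 r (t 3 1 v))
 (.c (c 2 4096 r (t 3 1 v))
 (.c (t 3 2 r)
 (.c (t 3 2 r)
 (.c (c 2 4096 r (t 3 1 v))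
 (.c (c 3 4097 r r)
 (.c (c 3 4097 r r)
 (.c (c 2 4096 r (t 3 1 v))
 (.c (t 3 3 (u 2 0 (k (t 4 1 (t 6 3 v)) r)))
 (.c (c 3 4096 r r)
 (.c (c 2 4096 r (t 3 1 v))
 (.c (t 2 1 (t 3 3 v))
 (.c (t 2 1 (t 3 3 v))
 (.c (t 2 1 (u 3 3 (k v (k v r))))
 (.c (c 3 4098 r r)
 (.c (t 2 1 (u 3 0 (k (t 5 3 (t 7 1 v)) r)))
 (.c (c 2 4096 r (t 3 3 v))
 (.c (c 3 4097 r r)
 (.c (c 2 4096 r (t 3 1 v))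
 (.c (c 3 4097 r r)
 (.c (c 3 4097 r r)
 (.c (c 2 4096 r (t 3 5 v))
 (.c (c 2 4096 r (t 3 3 v))
 (.c (c 3 4096 r r)
 (.c (c 2 4096 r (t 3 3 v))
 (.c (c 2 4096 r r)
 (.c (c 3 4096 r r)
 (.c (c 2 4096 r (u 3 0 (k r r)))
 (.c (u 2 0 (k (t 6 2 (u 4 11 (k r (k r r)))) r))
 (.c (c 2 4096 r (t 3 1 v))
 (.c (c 2 4096 r (u 3 0 (k (t 7 1 r) r)))
 (.c (c 2 4096 r (t 3 3 v))
 (.c (t 2 1 (t 3 3 v))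
 (.c (t 2 1 r)
 (.c (t 3 2 r)
 (.c (t 2 1 (u 3 0 (k (t 5 3 (t 7 3 v)) r)))
 (.c (t 2 1 r)
 (.c (u 2 0 (k (t 6 2 (u 4 23 (k r (k r r)))) r))
 (.c (c 3 4098 r r)
 (.c (t 2 1 (t 3 1 v))
 (.c (c 2 4096 r r)
 (.c (c 3 4097 r r)
 (.c (c 2 4096 r (t 3 1 v))
 (.c (c 3 4097 r r)
 (.c (c 3 4097 r r)
 (.c (c 2 4096 r r)
 (.c (c 3 4096 r r)
 (.c (c 3 4096 r r)
 (.c (c 3 4095 r r)
 (.c (c 3 4095 r r)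
 (.c (c 2 4096 r r)
 (.c (c 3 4095 r r)
 (.c (c 2 4096 r (t 3 1 v))
 (.c (c 3 4095 r r)
 (.c (c 2 4096 r r)
 (.c (c 2 4096 r (u 3 0 (k (t 7 2 r) r)))
 (.c (c 2 4096 r (t 3 3 v))
 (.c (c 2 4096 r (u 3 0 (k (t 7 2 r) r)))
 (.c (t 2 1 r)
 (.c (c 2 4096 r r)
 (.c (t 2 1 r)
 (.c (t 3 2 r)
 (.c (u 3 7 (k r (k r (k r (k (c 7 4099 r (u 5 1 (k r (k r r)))) r)))))
 (.c (c 3 4099 r r)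
 (.c (u 3 0 (k (u 5 0 (k r (k r r))) r))
 (.c (c 2 4096 r r)
 (.c (c 2 4096 r r)
 (.c (c 2 4096 r (u 3 0 (k (t 7 2 r) r)))
 (.c (c 3 4095 r r)
 (.c (c 2 4096 r r)
 (.c (u 2 0 (k (t 6 2 (u 4 23 (k r (k r r)))) r))
 (.c (c 2 4096 r r)
 (.c (c 2 4096 r (u 3 0 (k (t 7 3 r) r)))
 (.c (c 2 4096 r (u 3 1 (k v (k v r))))
 (.c (c 2 4096 r r)
 (.c (c 3 4100 r r)
 (.c (u 2 0 (k (t 6 2 (u 4 23 (k r (k r r)))) r))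
 (.c (c 2 4096 r r)
 (.c (u 3 1 (k r (k r r)))
 (.c (c 3 4095 r r)
 (.c (t 2 1 r)
 (.c (c 3 4098 r r)
 (.c (t 3 2 r)
 (.c (c 3 4097 r r)
 (.c (t 2 1 (u 3 0 (k (t 7 1 r) r)))
 (.c (c 3 4096 r r)
 (.c (c 2 4096 r (u 3 0 (k r (k r (k r r)))))
 (.c (c 2 4096 r (u 3 0 (k (t 7 2 (u 5 0 (k (c 13 4099 r r) r))) r)))
 (.c (c 3 4095 r r)
 (.c (c 3 4095 r r)
 (.c (t 2 1 r)
 (.c (t 2 1 r)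
 (.c (c 2 4096 r (u 3 0 (k (t 7 2 r) r)))
 (.c (c 2 4096 r r)
 (.c (t 2 1 r)
 (.c (c 2 4096 r r)
 (.c (c 2 4096 r r)
 (.c (c 2 4096 r r)
 (.c (c 2 4096 r r)
 (.c (t 3 6 r)
 (.c (c 3 4097 r r)
 (.c (c 2 4096 r r)
 (.c (c 2 4096 r r)
 (.c (c 3 4097 r r)
 (.c (c 2 4096 r r)
 (.c (c 2 4096 r r)
 .z)))))))))))))))))))))))))))))))))))))))))))))))))))))))))))))))))))))))))))))))))))))))))))))))))))))))))))))))))))))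

set_option maxRecDepth 100000 in
def R117 : PR :=
 (.t 0 (.c r
 (.c (c 2 4096 r (t 3 1 v))
 (.c (c 2 4096 r (t 3 1 v))
 (.c (t 3 1 (u 2 0 (k (c 4 4095 r (t 6 3 v)) r)))
 (.c (t 3 2 (u 2 0 (k (t 6 3 r) r)))
 (.c (t 3 4 (u 2 0 (k (t 6 3 r) r)))
 (.c (t 3 1 (u 2 0 (k (t 6 3 (u 4 0 (k (c 12 4099 r (u 8 1 (k v (k r (k r r))))) (k r (k (c 12 4099 r r) (k r r)))))) r)))
 (.c (c 2 4096 r (t 3 3 v))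
 (.c (t 3 4 (u 2 0 (k (t 6 3 r) r)))
 (.c (c 2 4096 r (t 3 3 v))
 (.c (c 2 4096 r (t 3 1 v))
 (.c (c 2 4096 r (t 3 1 v))
 (.c (t 3 2 (u 2 0 (k (t 6 3 r) r)))
 (.c (t 3 2 (u 2 0 (k (t 6 3 r) r)))
 (.c (c 2 4096 r (t 3 1 v))
 (.c (u 2 0 (k (c 4 4095 r (t 6 3 (u 3 0 (k v (k v r))))) r))
 (.c (c 3 4097 r r)
 (.c (c 2 4096 r (t 3 1 v))
 (.c (t 3 1 (u 2 0 (k (c 4 4095 r (t 6 3 v)) r)))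
 (.c (t 3 2 (u 2 0 (k (t 6 3 r) r)))
 (.c (c 2 4096 r (t 3 1 v))
 (.c (t 2 4 (t 3 3 v))
 (.c (t 3 4 (u 2 0 (k (t 6 3 r) r)))
 (.c (u 2 0 (k (c 4 4095 r (t 6 3 (u 3 3 (k v (k v r))))) r))
 (.c (t 3 3 (u 2 0 (k (c 4 4095 r (t 6 3 v)) r)))
 (.c (u 2 0 (k (c 4 4095 r (t 6 3 (u 3 0 (k (t 5 3 (t 7 1 v)) r)))) r))
 (.c (c 2 4096 r (t 3 3 v))
 (.c (u 2 0 (k (t 4 1 (t 6 3 (u 3 4 (k v (k (c 2 4087 v (u 5 1 (k v (k v r)))) r))))) r))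
 (.c (c 2 4096 r (t 3 1 v))
 (.c (c 3 4097 r r)
 (.c (t 2 1 (t 3 2 v))
 (.c (c 2 4096 r (t 3 5 v))
 (.c (c 2 4096 r (t 3 3 v))
 (.c (u 3 0 (k (t 5 3 (t 7 1 (u 2 0 (k (t 6 3 (u 4 3 (k v (k v (k (c 12 4099 r (u 8 4 (k v (k (t 24 1 (u 16 4 (k v (k v r)))) r)))) (k (c 3 4096 v r) r)))))) r)))) r))
 (.c (c 2 4096 r (t 3 3 v))
 (.c (c 2 4096 r r)
 (.c (u 2 0 (k (t 6 3 (u 3 22 (k r (k r (k (t 7 1 (u 5 0 (k (t 9 3 (t 13 1 (u 4 2 (k v (k (c 12 4099 r (u 8 14 (k v (k v (k (t 24 1 (u 16 2 (k v (k v r)))) r))))) (k (c 12 4099 r (u 8 5 (k v (k v (k (t 24 1 (u 16 37 (k v (k v (k v r))))) r))))) (k (c 3 4096 v r) r))))))) r))) r))))) r))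
 (.c (c 2 4096 r (u 3 0 (k r r)))
 (.c (t 3 1 (u 2 0 (k (t 6 3 r) r)))
 (.c (c 2 4096 r (t 3 1 v))
 (.c (c 2 4096 r (u 3 0 (k (t 7 1 r) r)))
 (.c (c 2 4096 r (t 3 3 v))
 (.c (t 3 6 (u 2 0 (k (t 6 3 r) r)))
 (.c (u 3 0 (k (u 2 0 (k (t 6 3 r) r)) (k (u 2 0 (k (t 6 3 r) r)) r)))
 (.c (t 3 2 (u 2 0 (k (t 6 3 r) r)))
 (.c (t 3 2 (u 2 0 (k (c 4 4095 r (t 6 3 v)) r)))
 (.c (t 3 1 (u 2 0 (k (c 4 4095 r (t 6 3 v)) r)))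
 (.c (t 3 1 (u 2 0 (k (t 6 3 r) r)))
 (.c (t 3 1 (u 2 0 (k (c 4 4095 r (t 6 3 v)) r)))
 (.c (t 3 1 (u 2 0 (k (c 4 4095 r (t 6 3 v)) r)))
 (.c (c 2 4096 r r)
 (.c (t 3 1 (u 2 0 (k (t 6 3 r) r)))
 (.c (c 2 4096 r (t 3 1 v))
 (.c (u 3 450 (k (u 2 0 (k (t 6 3 r) r)) (k (u 2 0 (k (t 6 3 r) r)) (k (u 2 0 (k (c 4 4095 r (t 6 3 v)) r)) (k (u 2 0 (k (t 4 1 (t 6 3 v)) r)) (k (c 2 4096 r v) (k (t 7 1 (u 2 0 (k (c 4 4095 r (t 6 3 (u 5 0 (k v (k v r))))) r))) r)))))))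
 (.c (t 3 1 (u 2 0 (k (c 4 4095 r (t 6 3 v)) r)))
 (.c (c 2 4096 r r)
 (.c (u 3 2 (k (u 2 0 (k (t 6 3 (u 4 2 (k v (k (c 12 4099 r (u 8 14 (k v (k v (k (t 24 1 (u 16 2 (k v (k v r)))) r))))) (k (c 12 4099 r (u 8 5 (k v (k v (k (t 24 1 (u 16 37 (k v (k v (k v r))))) r))))) (k (c 3 4090 v r) r)))))) r)) (k (c 2 4096 r (t 7 2 r)) r)))
 (.c (t 3 1 (u 2 0 (k (t 6 3 r) r)))
 (.c (c 2 4096 r r)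
 (.c (c 2 4096 r r)
 (.c (c 2 4096 r r)
 (.c (c 2 4096 r r)
 (.c (c 2 4096 r (t 3 1 v))
 (.c (c 2 4096 r r)
 (.c (c 2 4096 r r)
 (.c (c 2 4096 r (u 3 0 (k (t 7 2 r) r)))
 (.c (c 2 4096 r (t 3 3 v))
 (.c (c 2 4096 r (u 3 0 (k (t 7 2 r) r)))
 (.c (u 2 0 (k (t 6 3 (u 4 4 (k r (k (c 12 4099 r (u 3 171 (k r (k r r)))) r)))) r))
 (.c (c 2 4096 r r)
 (.c (u 2 0 (k (t 4 1 (t 6 3 (u 3 11 (k v (k (t 7 3 (u 5 2 (k v (k v r)))) r))))) r))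
 (.c (t 3 8 (u 2 0 (k (t 6 3 r) r)))
 (.c (t 3 1 (u 2 0 (k (t 6 3 r) r)))
 (.c (t 3 4 (u 2 0 (k (t 6 3 r) r)))
 (.c (t 3 2 (u 2 0 (k (t 6 3 r) r)))
 (.c (c 2 4096 r r)
 (.c (c 2 4096 r r)
 (.c (c 2 4096 r (u 3 0 (k (t 7 2 r) r)))
 (.c (c 3 4095 r r)
 (.c (c 2 4096 r r)
 (.c (t 3 2 (u 2 0 (k (t 6 3 r) r)))
 (.c (c 2 4096 r r)
 (.c (c 2 4096 r (u 3 0 (k (t 7 3 r) r)))
 (.c (c 2 4096 r (u 3 1 (k v (k v r))))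
 (.c (c 2 4096 r r)
 (.c (t 3 2 (u 2 0 (k (t 6 3 r) r)))
 (.c (t 3 1 (u 2 0 (k (t 6 3 r) r)))
 (.c (c 2 4096 r r)
 (.c (u 3 0 (k (u 2 0 (k (t 6 3 r) r)) (k (u 2 0 (k (t 6 3 r) r)) r)))
 (.c (c 2 4096 r r)
 (.c (u 2 0 (k (t 6 3 (c 4 4095 r r)) r))
 (.c (t 3 2 (u 2 0 (k (t 6 3 r) r)))
 (.c (t 3 2 (u 2 0 (k (t 6 3 r) r)))
 (.c (t 3 1 (u 2 0 (k (c 4 4095 r (t 6 3 v)) r)))
 (.c (t 3 1 (u 2 0 (k (c 4 4095 r (t 6 3 v)) r)))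
 (.c (t 3 2 (u 2 0 (k (t 6 3 r) r)))
 (.c (c 2 4096 r (u 3 0 (k r (k r (k r r)))))
 (.c (c 2 4096 r (u 3 0 (k (t 7 2 (u 5 0 (k (c 13 4099 r r) r))) r)))
 (.c (c 3 4095 r r)
 (.c (c 3 4095 r r)
 (.c (t 3 4 (u 2 0 (k (t 6 3 r) r)))
 (.c (t 2 3 r)
 (.c (c 2 4096 r (u 3 0 (k (t 7 2 r) r)))
 (.c (c 2 4096 r r)
 (.c (u 2 0 (k (c 4 4095 r (t 6 3 r)) r))
 (.c (c 2 4096 r r)
 (.c (c 2 4096 r r)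
 (.c (c 2 4096 r r)
 (.c (c 2 4096 r r)
 (.c (t 3 4 (u 2 0 (k (t 6 3 r) r)))
 (.c (c 2 4096 r r)
 (.c (c 2 4096 r r)
 (.c (c 2 4096 r r)
 (.c (u 2 0 (k (t 4 1 (t 6 3 (u 3 1 (k (t 7 2 (u 5 24 (k v (k v (k (t 13 3 (u 9 39 (k v (k v (k v (k (c 2 4087 v (c 13 4110 v r)) (k (c 2 4087 v (c 13 4110 v r)) (k (c 2 4087 v (c 13 4110 v r)) r)))))))) r))))) (k (c 2 4087 v r) r))))) r))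
 (.c (c 2 4096 r r)
 (.c (c 2 4096 r r)
 (.c (u 2 0 (k (t 4 1 (t 6 3 (u 3 0 (k (t 7 3 (u 5 5 (k v (k v (k v r))))) r)))) r))
 .z))))))))))))))))))))))))))))))))))))))))))))))))))))))))))))))))))))))))))))))))))))))))))))))))))))))))))))))))))))))

set_option maxRecDepth 100000 in
def R118 : PR :=
 (.c (u 2 0 (k (t 6 1 r) r))
 (.c (u 2 0 (k (t 6 1 r) r))
 (.c (t 3 1 r)
 (.c (t 3 1 (u 2 0 (k (t 6 1 (u 4 9 (k v (k (c 12 4101 r r) (k (c 8 4101 r r) (k (c 8 4101 r r) r)))))) r)))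
 (.c (c 3 4101 r (u 2 0 (k (t 6 1 r) r)))
 (.c (c 3 4100 r (u 2 0 (k (t 6 1 r) r)))
 (.c (c 3 4100 r (u 2 0 (k (t 6 1 r) r)))
 (.c (c 3 4099 r (u 2 0 (k (t 6 1 r) r)))
 (.c (c 2 4102 r (t 3 3 v))
 (.c (c 3 4099 r (u 2 0 (k (t 6 1 r) r)))
 (.c (c 2 4102 r (t 3 3 v))
 (.c (c 2 4102 r (t 3 1 v))
 (.c (c 2 4102 r (t 3 1 v))
 (.c (t 3 2 r)
 (.c (t 3 2 r)
 (.c (c 2 4102 r (t 3 1 v))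
 (.c (c 3 4097 r (u 2 0 (k (t 6 1 r) r)))
 (.c (c 3 4097 r (u 2 0 (k (t 6 1 r) r)))
 (.c (t 2 3 (t 3 3 v))
 (.c (t 3 3 (u 2 0 (k (t 6 1 (u 4 9 (k v (k (c 12 4101 r r) (k (c 8 4101 r r) (k (c 8 4101 r r) r)))))) r)))
 (.c (c 3 4096 r (u 2 0 (k (t 6 1 r) r)))
 (.c (c 3 4095 r (u 2 0 (k (t 6 1 r) r)))
 (.c (c 3 4099 r (u 2 0 (k (t 6 1 r) r)))
 (.c (t 2 1 (t 3 3 v))
 (.c (t 2 1 (u 3 3 (k v (k v r))))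
 (.c (c 3 4098 r (u 2 0 (k (t 6 1 r) r)))
 (.c (c 3 4098 r (u 2 0 (k (t 6 1 r) r)))
 (.c (c 2 4102 r (t 3 3 v))
 (.c (c 3 4097 r (u 2 0 (k (t 6 1 r) r)))
 (.c (c 2 4102 r (t 3 1 v))
 (.c (c 3 4097 r (u 2 0 (k (t 6 1 r) r)))
 (.c (c 3 4097 r (u 2 0 (k (t 6 1 r) r)))
 (.c (c 3 4096 r (u 2 0 (k (t 6 1 r) r)))
 (.c (c 2 4102 r (t 3 3 v))
 (.c (c 3 4096 r (u 2 0 (k (t 6 1 r) r)))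
 (.c (c 2 4102 r (t 3 3 v))
 (.c (c 2 4102 r r)
 (.c (c 3 4096 r (u 2 0 (k (t 6 1 r) r)))
 (.c (t 2 1 r)
 (.c (c 3 4101 r (u 2 0 (k (t 6 1 r) r)))
 (.c (c 2 4102 r (t 3 1 v))
 (.c (c 2 4102 r (u 3 0 (k (t 7 1 r) r)))
 (.c (c 2 4102 r (t 3 3 v))
 (.c (c 3 4100 r (u 2 0 (k (t 6 1 r) r)))
 (.c (c 3 4100 r (u 2 0 (k (t 6 1 r) r)))
 (.c (c 3 4100 r (u 2 0 (k (t 6 1 r) r)))
 (.c (t 2 3 (u 3 0 (k (t 5 3 (t 7 3 v)) r)))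
 (.c (t 2 3 r)
 (.c (c 3 4099 r (u 2 0 (k (t 6 1 r) r)))
 (.c (c 3 4098 r (u 2 0 (k (t 6 1 r) r)))
 (.c (c 3 4098 r (u 2 0 (k (t 6 1 r) r)))
 (.c (c 3 4098 r (u 2 0 (k (t 6 1 r) r)))
 (.c (c 3 4097 r (u 2 0 (k (t 6 1 r) r)))
 (.c (c 3 4097 r (u 2 0 (k (t 6 1 r) r)))
 (.c (c 3 4097 r (u 2 0 (k (t 6 1 r) r)))
 (.c (c 3 4097 r (u 2 0 (k (t 6 1 r) r)))
 (.c (c 3 4097 r (u 2 0 (k (t 6 1 r) r)))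
 (.c (c 3 4096 r (u 2 0 (k (t 6 1 r) r)))
 (.c (c 3 4096 r (u 2 0 (k (t 6 1 r) r)))
 (.c (c 3 4095 r (u 2 0 (k (t 6 1 r) r)))
 (.c (c 3 4095 r (u 2 0 (k (t 6 1 r) r)))
 (.c (c 3 4098 r (u 2 0 (k (t 6 1 r) r)))
 (.c (c 3 4095 r (u 2 0 (k (t 6 1 r) r)))
 (.c (c 3 4095 r (u 2 0 (k (t 6 1 r) r)))
 (.c (c 3 4095 r (u 2 0 (k (t 6 1 r) r)))
 (.c (c 2 4102 r r)
 (.c (c 3 4099 r (u 2 0 (k (t 6 1 r) r)))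
 (.c (c 2 4102 r (t 3 3 v))
 (.c (c 3 4098 r (u 2 0 (k (t 6 1 r) r)))
 (.c (t 2 3 r)
 (.c (c 3 4099 r (u 2 0 (k (t 6 1 r) r)))
 (.c (c 3 4099 r (u 2 0 (k (t 6 1 r) r)))
 (.c (c 3 4102 r (u 2 0 (k (t 6 1 r) r)))
 (.c (u 2 0 (k (t 6 1 (u 4 5 (k r (k (c 8 4100 r (u 12 2 (k r (k r r)))) (k (c 12 4100 r r) (k (c 12 4100 r r) r)))))) r))
 (.c (c 3 4099 r (u 2 0 (k (t 6 1 r) r)))
 (.c (c 3 4102 r (u 2 0 (k (t 6 1 r) r)))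
 (.c (c 3 4101 r (u 2 0 (k (t 6 1 r) r)))
 (.c (c 3 4101 r (u 2 0 (k (t 6 1 r) r)))
 (.c (c 2 4102 r (u 3 0 (k (t 7 2 r) r)))
 (.c (c 3 4095 r (u 2 0 (k (t 6 1 r) r)))
 (.c (c 2 4102 r r)
 (.c (c 3 4101 r (u 2 0 (k (t 6 1 r) r)))
 (.c (c 3 4101 r (u 2 0 (k (t 6 1 r) r)))
 (.c (c 3 4097 r (u 2 0 (k (t 6 1 r) r)))
 (.c (c 3 4100 r (u 2 0 (k (t 6 1 r) r)))
 (.c (c 3 4100 r (u 2 0 (k (t 6 1 r) r)))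
 (.c (c 3 4100 r (u 2 0 (k (t 6 1 r) r)))
 (.c (c 3 4099 r (u 2 0 (k (t 6 1 r) r)))
 (.c (c 3 4099 r (u 2 0 (k (t 6 1 r) r)))
 (.c (c 3 4099 r (u 2 0 (k (t 6 1 r) r)))
 (.c (c 3 4095 r (u 2 0 (k (t 6 1 r) r)))
 (.c (t 2 3 r)
 (.c (c 3 4098 r (u 2 0 (k (t 6 1 r) r)))
 (.c (c 3 4098 r (u 2 0 (k (t 6 1 r) r)))
 (.c (c 3 4097 r (u 2 0 (k (t 6 1 r) r)))
 (.c (c 3 4096 r (u 2 0 (k (t 6 1 r) r)))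
 (.c (c 3 4096 r (u 2 0 (k (t 6 1 r) r)))
 (.c (c 3 4095 r (u 2 0 (k (t 6 1 r) r)))
 (.c (c 3 4095 r (u 2 0 (k (t 6 1 r) r)))
 (.c (c 3 4095 r (u 2 0 (k (t 6 1 r) r)))
 (.c (c 3 4095 r (u 2 0 (k (t 6 1 r) r)))
 (.c (c 3 4100 r (u 2 0 (k (t 6 1 r) r)))
 (.c (c 3 4100 r (u 2 0 (k (t 6 1 r) r)))
 (.c (c 3 4097 r (u 2 0 (k (t 6 1 r) r)))
 (.c (c 3 4099 r (u 2 0 (k (t 6 1 r) r)))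
 (.c (t 2 3 r)
 (.c (t 2 3 r)
 (.c (t 3 3 (u 2 0 (k (t 6 1 (u 4 9 (k v (k (c 8 4100 r (c 7 4094 v r)) (k (c 12 4100 r (c 7 4094 v r)) (k (c 12 4100 r (c 7 4094 v r)) r)))))) r)))
 (.c (t 2 3 r)
 (.c (t 2 3 r)
 (.c (t 3 4 r)
 (.c (c 3 4097 r (u 2 0 (k (t 6 1 r) r)))
 (.c (c 2 4102 r r)
 (.c (c 3 4100 r (u 2 0 (k (t 6 1 r) r)))
 (.c (c 3 4097 r (u 2 0 (k (t 6 1 r) r)))
 (.c (c 3 4100 r (u 2 0 (k (t 6 1 r) r)))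
 (.c (c 3 4096 r (u 2 0 (k (t 6 1 r) r)))
 (.c (c 3 4096 r (u 2 0 (k (t 6 1 r) r)))
 (.c (u 2 0 (k (t 6 1 (u 3 0 (k (t 7 1 (u 4 9 (k (c 2 4092 v r) (k (c 12 4101 r r) (k (c 8 4101 r r) (k (c 8 4101 r r) r)))))) r))) r))
 .z)))))))))))))))))))))))))))))))))))))))))))))))))))))))))))))))))))))))))))))))))))))))))))))))))))))))))))))))))))))))

set_option maxRecDepth 100000 in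
def R119 : PR :=
 (.c r
 (.c r
 (.c (t 3 1 (u 2 0 (k (t 6 1 r) r)))
 (.c (t 3 1 (u 2 0 (k (t 6 1 (u 4 0 (k (t 12 3 r) (k (t 12 3 (c 4 4096 r v)) (k (t 12 3 (u 8 41 (k v (k v (k r (k (c 24 4099 r (u 16 7 (k v (k (u 32 0 (k v (k v r))) r)))) (k (c 24 4096 r (u 16 7 (k v (k v (k v (k (c 48 4099 r (u 32 1 (k v (k v r)))) r)))))) (k (c 24 4099 r r) (k (c 16 4098 r (c 2 4077 r v)) (k (c 16 4101 r r) (k (c 24 4099 r r) (k (c 24 4099 r r) (k (c 16 4101 r r) r))))))))))))) r))))) r)))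
 (.c (t 2 2 (t 3 1 v))
 (.c (c 3 4100 r r)
 (.c (t 2 2 (t 3 1 v))
 (.c (c 3 4099 r r)
 (.c (c 2 4102 r (t 3 3 v))
 (.c (c 3 4099 r r)
 (.c (c 2 4102 r (t 3 3 v))
 (.c (c 2 4102 r (t 3 1 v))
 (.c (c 2 4102 r (t 3 1 v))
 (.c (t 3 2 (u 2 0 (k (t 6 1 r) r)))
 (.c (t 3 2 (u 2 0 (k (t 6 1 r) r)))
 (.c (c 2 4102 r (t 3 1 v))
 (.c (c 3 4097 r r)
 (.c (c 3 4097 r r)
 (.c (t 2 2 (t 3 3 v))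
 (.c (t 2 2 (t 3 3 v))
 (.c (c 3 4096 r r)
 (.c (c 3 4095 r r)
 (.c (c 3 4099 r r)
 (.c (t 2 2 (t 3 3 v))
 (.c (t 2 2 (u 3 3 (k v (k v r))))
 (.c (c 3 4098 r r)
 (.c (c 3 4098 r r)
 (.c (c 2 4102 r (t 3 3 v))
 (.c (c 3 4097 r r)
 (.c (c 2 4102 r (t 3 1 v))
 (.c (c 3 4097 r r)
 (.c (c 3 4097 r r)
 (.c (c 2 4102 r (t 3 5 v))
 (.c (c 2 4102 r (t 3 3 v))
 (.c (c 3 4096 r r)
 (.c (c 2 4102 r (t 3 3 v))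
 (.c (c 2 4102 r r)
 (.c (c 3 4096 r r)
 (.c (c 2 4102 r (u 3 0 (k r r)))
 (.c (t 2 1 r)
 (.c (c 2 4102 r (t 3 1 v))
 (.c (c 2 4102 r (u 3 0 (k (t 7 1 r) r)))
 (.c (c 2 4102 r (t 3 3 v))
 (.c (c 3 4100 r r)
 (.c (t 2 2 r)
 (.c (t 2 1 r)
 (.c (t 2 2 (u 3 0 (k (t 5 3 (t 7 3 v)) r)))
 (.c (t 2 2 r)
 (.c (c 3 4099 r r)
 (.c (c 3 4098 r r)
 (.c (c 3 4098 r r)
 (.c (c 3 4098 r r)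
 (.c (c 3 4097 r r)
 (.c (c 3 4097 r r)
 (.c (c 3 4097 r r)
 (.c (c 3 4097 r r)
 (.c (c 2 4102 r r)
 (.c (c 3 4096 r r)
 (.c (c 3 4096 r r)
 (.c (c 3 4095 r r)
 (.c (c 3 4095 r r)
 (.c (c 3 4098 r r)
 (.c (c 3 4095 r r)
 (.c (c 3 4095 r r)
 (.c (c 3 4095 r r)
 (.c (c 3 4096 r r)
 (.c (c 3 4099 r r)
 (.c (c 2 4102 r (t 3 3 v))
 (.c (c 3 4098 r r)
 (.c (t 2 2 r)
 (.c (c 3 4099 r r)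
 (.c (c 3 4099 r r)
 (.c (t 2 2 (t 3 7 v))
 (.c (t 2 2 r)
 (.c (c 3 4099 r r)
 (.c (t 2 1 (u 3 0 (k r r)))
 (.c (c 3 4101 r r)
 (.c (t 2 2 r)
 (.c (c 2 4102 r (u 3 0 (k (t 7 2 r) r)))
 (.c (c 3 4095 r r)
 (.c (c 2 4102 r r)
 (.c (c 3 4101 r r)
 (.c (c 3 4101 r r)
 (.c (c 3 4097 r r)
 (.c (c 3 4100 r r)
 (.c (t 2 2 r)
 (.c (c 3 4100 r r)
 (.c (c 3 4099 r r)
 (.c (t 2 3 r)
 (.c (c 3 4099 r r)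
 (.c (c 3 4095 r r)
 (.c (c 3 4098 r r)
 (.c (c 3 4098 r r)
 (.c (c 3 4098 r r)
 (.c (c 3 4097 r r)
 (.c (c 3 4096 r r)
 (.c (c 3 4096 r r)
 (.c (c 3 4095 r r)
 (.c (c 3 4095 r r)
 (.c (c 3 4095 r r)
 (.c (c 3 4095 r r)
 (.c (t 2 2 r)
 (.c (t 2 2 r)
 (.c (c 3 4097 r r)
 (.c (c 3 4099 r r)
 (.c (t 2 2 r)
 (.c (c 2 4102 r r)
 (.c (c 2 4102 r r)
 (.c (t 2 2 r)
 (.c (t 2 2 r)
 (.c (t 2 2 (t 3 7 v))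
 (.c (c 3 4097 r r)
 (.c (c 2 4102 r r)
 (.c (c 2 4102 r r)
 (.c (c 3 4097 r r)
 (.c (c 3 4100 r r)
 (.c (c 3 4096 r r)
 (.c (c 3 4096 r r)
 (.c (c 2 4102 r (u 3 0 (k (t 7 1 r) r)))
 (.c (t 2 3 (t 3 3 v))
 .z))))))))))))))))))))))))))))))))))))))))))))))))))))))))))))))))))))))))))))))))))))))))))))))))))))))))))))))))))))))))

set_option maxRecDepth 100000 in
def R120 : PR :=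
 (.t 121 (.c r
 (.c (t 3 1 r)
 (.c (t 3 1 r)
 (.c (t 2 3 (t 3 1 v))
 (.c (c 3 4100 r r)
 (.c (t 2 3 (t 3 1 v))
 (.c (t 3 1 (u 2 1 (k v (k (t 6 1 (u 4 2 (k v (k (t 12 3 r) (k (t 12 2 (c 2 4076 (u 4 0 (k r r)) v)) (k (c 8 4103 r r) (k (t 12 3 (c 3 4099 v r)) (k (c 12 4099 r (c 3 4099 v r)) (k (c 8 4101 r (c 3 4099 v r)) (k (c 12 4103 r (c 3 4099 v r)) (k (c 12 4100 r (c 3 4099 v r)) (k (c 12 4099 r (c 3 4099 v r)) (k (c 12 4100 r (c 3 4099 v r)) r))))))))))))) (k (c 3 4099 v (t 6 1 r)) r)))))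
 (.c (c 2 4102 r (t 3 3 v))
 (.c (c 3 4099 r r)
 (.c (c 2 4102 r (t 3 3 v))
 (.c (c 2 4102 r (t 3 1 v))
 (.c (c 2 4102 r (t 3 1 v))
 (.c (t 3 2 r)
 (.c (t 3 2 r)
 (.c (c 2 4102 r (t 3 1 v))
 (.t 147 (.c (c 3 4097 r r)
 (.c (t 2 3 (t 3 3 v))
 (.c (t 3 1 r)
 (.c (c 3 4096 r r)
 (.c (c 3 4095 r r)
 (.c (t 2 3 (t 3 3 v))
 (.c (t 2 3 (t 3 3 v))
 (.c (t 2 3 (u 3 3 (k v (k v r))))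
 (.c (c 3 4098 r r)
 (.c (c 3 4098 r r)
 (.c (c 2 4102 r (t 3 3 v))
 (.c (c 3 4097 r r)
 (.c (c 2 4102 r (t 3 1 v))
 (.c (c 3 4097 r r)
 (.c (c 3 4097 r r)
 (.c (c 3 4096 r r)
 (.c (c 2 4102 r (t 3 3 v))
 (.c (c 3 4096 r r)
 (.c (c 2 4102 r (t 3 3 v))
 (.c (c 2 4102 r r)
 (.c (c 3 4096 r r)
 (.c (t 3 2 r)
 (.c (t 3 1 r)
 (.c (c 2 4102 r (t 3 1 v))
 (.c (c 2 4102 r (u 3 0 (k (t 7 1 r) r)))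
 (.c (c 2 4102 r (t 3 3 v))
 (.c (c 3 4100 r r)
 (.c (t 2 3 r)
 (.c (c 3 4100 r r)
 (.c (t 2 3 (u 3 0 (k (t 5 3 (t 7 3 v)) r)))
 (.c (t 2 3 r)
 (.c (t 3 1 r)
 (.c (c 3 4098 r r)
 (.c (c 3 4098 r r)
 (.c (c 3 4098 r r)
 (.c (c 3 4097 r r)
 (.c (c 3 4097 r r)
 (.c (c 3 4097 r r)
 (.c (c 3 4097 r r)
 (.c (c 3 4097 r r)
 (.c (c 3 4096 r r)
 (.c (c 3 4096 r r)
 (.c (c 3 4095 r r)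
 (.c (c 3 4095 r r)
 (.c (c 3 4098 r r)
 (.c (c 3 4095 r r)
 (.c (c 3 4095 r r)
 (.c (c 3 4095 r r)
 (.c (c 2 4102 r r)
 (.c (t 2 3 (u 3 0 (k (t 7 2 r) r)))
 (.c (c 2 4102 r (t 3 3 v))
 (.c (c 3 4098 r r)
 (.c (t 2 3 r)
 (.c (c 3 4099 r r)
 (.c (t 2 3 r)
 (.c (t 3 8 r)
 (.c (u 2 3 (k r (k (t 6 1 (u 4 19 (k r (k r (k (c 12 4100 r r) (k (c 12 4100 r r) r)))))) (k (t 6 1 r) r))))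
 (.c (c 3 4099 r r)
 (.c (t 3 2 r)
 (.c (t 3 2 r)
 (.c (t 2 3 r)
 (.c (c 2 4102 r (u 3 0 (k (t 7 2 r) r)))
 (.c (c 3 4095 r r)
 (.c (c 2 4102 r r)
 (.c (t 3 2 r)
 (.c (t 2 3 (t 3 3 v))
 (.c (c 3 4097 r r)
 (.c (c 3 4100 r r)
 (.c (t 2 3 r)
 (.c (c 3 4100 r r)
 (.c (t 3 1 r)
 (.c (u 3 0 (k (t 7 1 (u 5 23 (k r (k r r)))) r))
 (.t 159 (.c (c 3 4095 r r)
 (.c (c 3 4098 r r)
 (.c (c 3 4098 r r)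
 (.c (c 3 4098 r r)
 (.c (c 3 4097 r r)
 (.c (c 3 4096 r r)
 (.c (c 3 4096 r r)
 (.c (c 3 4095 r r)
 (.c (c 3 4095 r r)
 (.c (c 3 4095 r r)
 (.c (c 3 4095 r r)
 (.c (t 2 3 r)
 (.c (t 2 3 r)
 (.c (c 3 4097 r r)
 (.c (t 2 3 r)
 (.c (t 2 3 r)
 (.c (t 2 3 r)
 (.c (t 3 3 (u 2 2 (k v (k (t 6 1 (u 4 19 (k v (k v (k (c 12 4100 r (c 7 4094 v r)) (k (c 12 4100 r (c 7 4094 v r)) r)))))) (k (t 6 1 (u 4 8 (k v (k (c 12 4099 r (c 7 4094 v r)) r)))) r)))))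
 (.c (t 2 3 r)
 (.c (t 2 3 r)
 (.c (t 3 4 r)
 (.c (c 3 4097 r r)
 (.c (c 3 4100 r r)
 (.c (t 2 3 r)
 (.c (c 3 4097 r r)
 (.c (c 3 4100 r r)
 (.c (c 3 4096 r r)
 (.c (c 3 4096 r r)
 (.c (u 3 0 (k (t 7 1 (u 2 2 (k (c 2 4092 v r) (k (t 6 1 (u 5 0 (k r (k (c 13 4101 r r) (k (c 9 4101 r r) (k (c 9 4101 r r) r)))))) (k (t 6 1 (u 4 8 (k (c 2 4092 v r) (k (c 12 4099 r (u 5 9 (k (c 3 4092 v r) (k (c 13 4101 r (u 9 1 (k r (k r r)))) (k (c 9 4101 r (u 13 1 (k r (k r r)))) (k (c 9 4101 r (u 13 1 (k r (k r r)))) r)))))) r)))) r))))) r))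
 (.c (t 3 1 r)
 (.c (u 2 3 (k r (k r (k r r))))
 .z)))))))))))))))))))))))))))))))))))))))))))))))))))))))))))))))))))))))))))))))))))))))))))))))))))))))))))))))))))))))))

set_option maxRecDepth 100000 in
def R121 : PR :=
 (.t 123 (.t 123 (.t 87 (.c (t 3 1 r)
 (.c (t 3 1 (u 2 18 (k v (k v (k (c 4 4097 r r) (k (c 6 4099 r r) (k (c 6 4097 r r) (k (c 6 4096 r (u 4 0 (k (u 8 0 (k v (k v r))) r))) (k (c 4 4098 r r) (k (c 4 4101 r r) (k (c 4 4099 r r) (k (c 4 4101 r r) r))))))))))))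
 (.c (t 3 3 r)
 (.c (t 3 1 (u 2 11 (k v (k v (k (c 6 4101 r r) (k (c 6 4099 r r) (k (c 6 4096 r (u 4 0 (k (u 8 0 (k v (k v r))) r))) (k (c 4 4098 r r) (k (c 4 4101 r r) (k (c 4 4099 r r) (k (c 4 4101 r r) r)))))))))))
 (.c (t 3 1 r)
 (.c (c 2 4101 r (t 3 3 v))
 (.c (t 3 3 r)
 (.c (c 2 4101 r (t 3 3 v))
 (.c (c 2 4101 r (t 3 1 v))
 (.c (c 2 4101 r (t 3 1 v))
 (.c (t 3 3 r)
 (.t 105 (.c (c 2 4101 r (t 3 1 v))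
 (.c (u 3 0 (k r (k r r)))
 (.t 123 (.c (t 3 1 r)
 (.c (t 3 1 r)
 (.c (u 3 0 (k (u 5 5 (k r (k r (k r r)))) r))
 (.c (t 3 1 r)
 (.c (t 2 2 (t 3 3 v))
 (.c (t 3 1 r)
 (.c (u 2 26 (k (u 3 3 (k v (k v r))) (k (c 6 4101 r r) (k (c 4 4101 r r) (k (c 4 4101 r r) r)))))
 (.c (t 3 2 r)
 (.c (u 2 26 (k (u 3 0 (k (t 5 3 (t 7 1 v)) r)) (k (c 6 4101 r (u 3 0 (k (t 7 1 r) r))) (k (c 4 4101 r (u 3 0 (k (t 7 1 r) r))) (k (c 4 4101 r (u 3 0 (k (t 7 1 r) r))) r)))))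
 (.c (c 2 4101 r (t 3 3 v))
 (.c (u 3 20 (k r (k r (k (u 2 68 (k v (k v (k r (k (c 6 4096 r r) (k (c 6 4099 r (c 5 4099 v r)) (k (c 6 4097 r (c 5 4099 v r)) (k (c 6 4096 r (c 5 4099 v (u 4 0 (k (u 8 0 (k v (k v r))) r)))) (k (c 4 4098 r (c 5 4099 v r)) (k r (k (c 4 4099 r (c 5 4099 v r)) (k r r)))))))))))) r))))
 (.c (c 2 4101 r (t 3 1 v))
 (.c (t 2 3 (u 3 0 (k (u 5 1 (k v (k v r))) r)))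
 (.c (u 2 26 (k r (k (c 6 4101 r r) (k (c 4 4101 r r) (k (c 4 4101 r r) r)))))
 (.c (c 2 4101 r (t 3 5 v))
 (.c (c 2 4101 r (t 3 3 v))
 (.c (t 3 1 r)
 (.c (c 2 4101 r (t 3 3 v))
 (.c (c 2 4101 r r)
 (.c (u 3 4 (k r (k r (k r (k r r)))))
 (.c (c 2 4101 r (u 3 0 (k r r)))
 (.c (u 3 18 (k r (k r (k (u 5 0 (k r r)) (k r (k (u 5 8 (k r (k r r))) (k (c 2 4101 r r) r)))))))
 (.c (c 2 4101 r (t 3 1 v))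
 (.c (c 2 4101 r (u 3 0 (k (t 7 1 r) r)))
 (.c (c 2 4101 r (t 3 3 v))
 (.c (t 3 6 r)
 (.c (u 3 1 (k r (k r r)))
 (.t 67 (.c (t 3 2 r)
 (.c (t 3 1 r)
 (.c (u 3 37 (k r (k r (k (c 7 4099 r (u 5 0 (k r (k r r)))) (k (u 5 1 (k r (k r r))) (k (u 5 13 (k r (k r r))) r))))))
 (.c (t 2 3 (t 3 1 v))
 (.c (t 3 1 r)
 (.c (t 3 1 r)
 (.c (u 3 1 (k r (k (c 7 4097 r (u 5 0 (k r (k r r)))) r)))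
 (.c (t 3 2 r)
 (.c (u 3 99 (k r (k r (k r r))))
 (.c (t 3 1 r)
 (.c (t 3 2 r)
 (.c (t 2 2 r)
 (.c (u 3 1 (k (u 5 1 (k r (k r r))) (k r (k (c 5 4096 r (u 7 0 (k r (k r r)))) (k (c 7 4096 r r) r)))))
 (.c (t 2 3 r)
 (.c (t 3 1 r)
 (.c (t 3 3 r)
 (.c (t 3 2 r)
 (.c (t 3 1 r)
 (.c (u 3 5 (k r (k r r)))
 (.c (c 2 4101 r r)
 (.c (t 3 5 r)
 (.c (c 2 4101 r (t 3 3 v))
 (.c (t 2 3 (u 3 0 (k (t 7 3 r) r)))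
 (.c (t 2 3 r)
 (.c (t 2 2 (u 3 0 (k (t 7 3 r) r)))
 (.c (t 3 2 r)
 (.c (t 3 4 r)
 (.c (u 3 7 (k r (k r (k r (k (t 7 2 (u 5 13 (k r (k (c 7 4094 v r) r)))) r)))))
 (.c (t 3 1 r)
 (.c (u 3 0 (k (u 5 0 (k r (k r r))) r))
 (.c (u 3 4 (k r (k r r)))
 (.c (u 3 4 (k r (k r r)))
 (.c (c 2 4101 r (u 3 0 (k (t 7 2 r) r)))
 (.c (t 3 1 r)
 (.c (c 2 4101 r r)
 (.c (u 3 0 (k r (k (u 5 9 (k r (k r (k (t 13 1 (u 9 16 (k r (k (c 13 4099 v r) (k (c 5 4090 r (c 2 4101 r v)) (k (c 5 4090 (c 3 4099 v r) (c 2 4101 r v)) (k (c 2 4101 r (c 5 4090 r v)) (k (c 5 4090 r (c 2 4101 r v)) r)))))))) (k (t 2 3 r) r))))) r)))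
 (.c (t 3 2 r)
 (.c (t 3 2 r)
 (.c (t 2 2 (u 3 2 (k v (k v r))))
 (.c (t 3 1 r)
 (.c (u 3 0 (k (u 5 0 (k r (k (u 2 69 (k r (k (c 6 4101 r r) (k (c 6 4099 r r) (k (c 3 4100 (c 4 4102 r v) (t 6 2 (u 4 0 (k r r)))) (k (c 4 4098 r r) (k (c 4 4101 r r) (k (c 4 4101 r r) (k (c 4 4099 r r) (k (c 4 4101 r r) (k (c 4 4101 r r) r))))))))))) r))) r))
 (.c (u 3 14 (k r (k r (k (c 7 4099 r r) (k (c 7 4099 r r) (k (c 7 4099 r (u 5 5 (k r (k r r)))) (k (c 7 4096 r r) r)))))))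
 (.c (t 3 3 r)
 (.c (u 3 1 (k r (k r r)))
 (.c (t 3 1 r)
 (.c (u 3 12 (k r (k r r)))
 (.c (u 3 16 (k r (k r (k r (k r (k r r))))))
 (.c (u 3 17 (k r (k r (k r (k (u 5 0 (k r (k r r))) (k (c 5 4097 r (u 7 0 (k r (k r r)))) (k (c 5 4095 r (u 7 0 (k r (k r r)))) r)))))))
 (.c (t 3 1 r)
 (.c (t 3 1 r)
 (.c (t 2 3 (t 3 1 v))
 (.c (u 3 0 (k (t 5 1 (u 7 8 (k r (k r r)))) (k (t 5 2 (u 7 8 (k r (k r r)))) (k (t 5 1 (u 7 8 (k r (k r r)))) r))))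
 (.c (t 3 2 r)
 (.c (u 3 0 (k (t 7 1 (u 2 34 (k r (k (t 4 1 r) (k (c 6 4099 r r) (k (c 6 4099 r r) (k (c 6 4097 r r) (k (c 3 4095 (u 2 0 (k v (k v r))) (t 6 2 (u 4 0 (k r r)))) (k (c 4 4098 r r) (k (c 4 4101 r r) (k (t 6 1 r) (k (c 4 4099 r r) (k (c 4 4101 r r) (k (t 6 1 r) r)))))))))))))) r))
 (.c (u 3 3 (k r (k r (k r r))))
 (.c (t 2 3 r)
 (.c (t 3 3 r)
 (.c (t 3 4 r)
 (.c (t 2 2 r)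
 (.c (t 3 3 r)
 (.c (c 2 4101 r r)
 (.c (c 2 4101 r r)
 (.c (t 3 3 r)
 (.c (t 2 3 r)
 (.c (t 3 6 r)
 (.c (t 3 1 r)
 (.c (t 3 3 r)
 (.c (t 2 2 r)
 (.c (t 2 3 (u 3 1 (k r (k r r))))
 (.c (t 3 3 r)
 (.c (t 3 1 r)
 (.c (t 2 2 (u 3 0 (k (t 7 3 r) r)))
 (.c (c 2 4101 r (u 3 0 (k (t 7 1 r) r)))
 (.c (t 3 2 r)
 (.c (t 2 2 r)
 (.c (t 2 3 r)
 .z))))))))))))))))))))))))))))))))))))))))))))))))))))))))))))))))))))))))))))))))))))))))))))))))))))))))))))))))))))))))))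

set_option maxRecDepth 100000 in
def R122 : PR :=
 (.t 123 (.t 121 (.t 87 (.c (t 3 1 r)
 (.c (t 2 3 (t 3 1 v))
 (.c (t 2 3 (t 3 3 v))
 (.c (t 2 3 (t 3 1 v))
 (.c (t 3 1 r)
 (.c (c 2 4101 r (t 3 3 v))
 (.c (t 2 3 (t 3 3 v))
 (.c (c 2 4101 r (t 3 3 v))
 (.c (c 2 4101 r (t 3 1 v))
 (.c (c 2 4101 r (t 3 1 v))
 (.t 42 (.t 105 (.c (c 2 4101 r (t 3 1 v))
 (.c (u 3 0 (k r (k r r)))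
 (.t 124 (.c (t 3 1 r)
 (.c (t 3 1 r)
 (.c (u 3 0 (k (u 5 7 (k r (k r r))) r))
 (.c (t 2 3 (t 3 1 v))
 (.c (t 2 2 (t 3 3 v))
 (.c (t 2 3 (t 3 3 v))
 (.c (t 2 3 (u 3 3 (k v (k v r))))
 (.c (t 2 3 (t 3 3 v))
 (.c (t 2 3 (u 3 0 (k (t 5 3 (t 7 1 v)) r)))
 (.c (c 2 4101 r (t 3 3 v))
 (.t 121 (.c (c 2 4101 r (t 3 1 v))
 (.c (t 2 3 (u 3 0 (k (u 5 1 (k v (k v r))) r)))
 (.c (t 2 3 r)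
 (.c (c 2 4101 r (t 3 5 v))
 (.c (c 2 4101 r (t 3 3 v))
 (.c (t 2 3 (u 3 0 (k (t 5 3 (t 7 1 v)) r)))
 (.c (c 2 4101 r (t 3 3 v))
 (.c (c 2 4101 r r)
 (.c (u 3 2 (k r (k r (k (t 2 3 v) (k (t 7 1 (u 5 0 (k (t 9 3 (t 13 1 r)) r))) r)))))
 (.c (c 2 4101 r (u 3 0 (k r r)))
 (.t 153 (.c (c 2 4101 r (t 3 1 v))
 (.c (c 2 4101 r (u 3 0 (k (t 7 1 r) r)))
 (.c (c 2 4101 r (t 3 3 v))
 (.c (t 3 6 r)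
 (.c (t 2 3 r)
 (.t 135 (.c (t 2 3 (u 3 0 (k (t 5 3 (t 7 3 v)) r)))
 (.c (t 3 1 r)
 (.t 133 (.c (t 3 1 (t 2 3 v))
 (.c (t 2 3 (t 3 1 v))
 (.c (t 3 1 r)
 (.t 156 (.c (t 3 2 r)
 (.c (u 3 451 (k r (k r (k r (k (t 2 3 v) r)))))
 (.c (t 3 1 r)
 (.c (t 2 3 (t 3 3 v))
 (.c (t 2 2 r)
 (.c (u 3 0 (k r (k (c 5 4096 r (u 7 0 (k r (k r r)))) (k (u 5 1 (k r (k r r))) (k (c 7 4096 r r) r)))))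
 (.c (t 2 3 r)
 (.c (t 2 3 r)
 (.c (t 2 3 (t 3 3 v))
 (.c (t 2 3 (t 3 2 v))
 (.c (t 2 3 (u 3 0 (k (t 7 1 r) r)))
 (.c (u 3 5 (k r (k r r)))
 (.c (c 2 4101 r r)
 (.c (t 2 3 (u 3 0 (k (t 7 2 r) r)))
 (.c (c 2 4101 r (t 3 3 v))
 (.c (t 2 3 (u 3 0 (k (t 7 3 r) r)))
 (.c (t 2 3 r)
 (.c (t 3 2 r)
 (.c (t 2 2 r)
 (.c (t 2 3 (t 3 7 v))
 (.c (t 2 3 r)
 (.c (t 3 1 r)
 (.c (u 3 0 (k r r))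
 (.c (t 2 3 r)
 (.c (t 2 3 r)
 (.c (c 2 4101 r (u 3 0 (k (t 7 2 r) r)))
 (.c (t 2 3 (t 3 1 v))
 (.c (c 2 4101 r r)
 (.c (u 3 0 (k r (k (u 5 6 (k r (k r (k (t 2 3 r) (k (t 9 1 (t 2 3 r)) (k (t 9 1 (t 2 3 r)) (k (t 9 1 (t 2 3 r)) r))))))) r)))
 (.c (t 2 3 (t 3 3 v))
 (.c (t 3 2 r)
 (.c (t 3 1 r)
 (.c (t 3 1 r)
 (.c (t 2 3 (u 3 0 (k r r)))
 (.t 106 (.c (t 3 3 r)
 (.c (u 3 1 (k r (k r r)))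
 (.c (t 3 1 r)
 (.c (t 2 3 r)
 (.c (t 2 3 r)
 (.t 149 (.c (t 2 3 (t 3 1 v))
 (.c (t 3 1 r)
 (.c (t 2 3 (t 3 1 v))
 (.c (t 2 3 r)
 (.c (t 2 3 (t 3 3 v))
 (.c (t 2 3 (u 3 0 (k (t 7 1 r) r)))
 (.c (u 3 4 (k r (k r (k r (k r r)))))
 (.c (t 2 3 r)
 (.c (t 3 3 r)
 (.c (t 3 4 r)
 (.c (t 2 2 r)
 (.c (t 2 3 r)
 (.c (c 2 4101 r r)
 (.c (c 2 4101 r r)
 (.c (t 2 3 r)
 (.c (t 2 3 r)
 (.c (t 2 3 (t 3 7 v))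
 (.c (t 3 1 r)
 (.c (c 2 4101 r r)
 (.c (t 2 2 r)
 (.c (t 2 3 (u 3 1 (k r (k r r))))
 (.c (c 2 4101 r r)
 (.c (t 3 1 r)
 (.c (t 2 2 (u 3 0 (k (t 7 3 r) r)))
 (.c (c 2 4101 r (u 3 0 (k (t 7 1 r) r)))
 (.c (t 3 2 r)
 (.c (t 3 3 r)
 (.c (t 3 3 r)
 (.c (t 2 3 r)
 .z)))))))))))))))))))))))))))))))))))))))))))))))))))))))))))))))))))))))))))))))))))))))))))))))))))))))))))))))))))))))))))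

end Pool.Agent.Helper91.ND1
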