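import Pool.Agent.Helper91.VD1.DT
import Pool.Agent.Helper91.ND1.LA
import Pool.Agent.Helper91.ND1.LT
import Pool.Agent.Helper91.NF.Fast
import Pool.Agent.Helper91.ND1.LR4

/-! part of the certificate for the constant 25/48 (generated) -/

namespace Pool.Agent.Helper91.ND1

open Pool.Agent.Helper66.IL
open Pool.Agent.Helper66.ML
open Pool.Agent.Helper66.ND
open Pool.Agent.Helper91.NF
open Pool.Agent.Helper91.VZ
open Pool.Agent.Helper91.VD1 (DT)

theorem okR110 : rof A NN (vx DT) 167 110 R110 0 = true := by decide +kernel

theorem okR111 : rof A NN (vx DT) 167 111 R111 0 = true := by decide +kernel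

theorem okR112 : rof A NN (vx DT) 167 112 R112 0 = true := by decide +kernel

theorem okR113 : rof A NN (vx DT) 167 113 R113 0 = true := by decide +kernel

theorem okR114 : rof A NN (vx DT) 167 114 R114 0 = true := by decide +kernel

theorem okR115 : rof A NN (vx DT) 167 115 R115 0 = true := by decide +kernel

theorem okR116 : rof A NN (vx DT) 167 116 R116 0 = true := by decide +kernel

theorem okR117 : rof A NN (vx DT) 167 117 R117 0 = true := by decide +kernel

theorem okR118 : rof A NN (vx DT) 167 118 R118 0 = true := by decide +kernel

theorem okR119 : rof A NN (vx DT) 167 119 R119 0 = true := by decide +kernel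

theorem okR120 : rof A NN (vx DT) 167 120 R120 0 = true := by decide +kernel

theorem okR121 : rof A NN (vx DT) 167 121 R121 0 = true := by decide +kernel

theorem okR122 : rof A NN (vx DT) 167 122 R122 0 = true := by decide +kernel

end Pool.Agent.Helper91.ND1
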