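import Pool.Agent.Helper66.ND.Defs

/-! part of the certificate for the constant 25/48 (generated) -/

namespace Pool.Agent.Helper91.ND1

open Pool.Agent.Helper66.IL
open Pool.Agent.Helper66.ND
open Pool.Agent.Helper66.ND.LT
open Pool.Agent.Helper66.ND.Ct

set_option maxRecDepth 100000 in
def R123 : PR :=
 (.t 42 (.t 43 (.t 126 (.c (t 3 1 r)
 (.c (t 3 1 (u 2 2 (k v (k v (k (c 6 4099 r (u 4 1 (k v (k v r)))) (k (c 4 4095 r (u 6 0 (k v (k v r)))) (k (c 4 4095 r (u 6 0 (k v (k v r)))) r)))))))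
 (.c (t 3 3 r)
 (.c (t 3 1 (u 2 2 (k v (k v (k (c 6 4099 r (u 4 1 (k v (k v r)))) (k (c 4 4095 r (u 6 0 (k v (k v r)))) (k (c 4 4095 r (u 6 0 (k v (k v r)))) r)))))))
 (.t 67 (.c (c 2 4101 r (t 3 3 v))
 (.c (t 3 3 r)
 (.c (c 2 4101 r (t 3 3 v))
 (.c (c 2 4101 r (t 3 1 v))
 (.c (c 2 4101 r (t 3 1 v))
 (.t 122 (.t 148 (.c (c 2 4101 r (t 3 1 v))
 (.t 120 (.t 87 (.c (t 3 1 r)
 (.c (t 3 1 r)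
 (.c (u 3 0 (k (u 5 0 (k r (k r r))) r))
 (.c (t 3 1 r)
 (.c (t 2 2 (t 3 3 v))
 (.c (t 3 1 r)
 (.c (u 2 8 (k (u 3 3 (k v (k v r))) (k (u 3 3 (k v (k v r))) (k (u 3 3 (k v (k v r))) (k (c 6 4099 r r) r)))))
 (.c (t 3 2 r)
 (.c (u 3 0 (k (t 5 3 (t 7 1 (u 2 2 (k v (k v (k (c 6 4099 r (u 4 1 (k v (k v r)))) (k (c 4 4095 r (u 6 0 (k v (k v r)))) (k (c 4 4095 r (u 6 0 (k v (k v r)))) r)))))))) r))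
 (.c (c 2 4101 r (t 3 3 v))
 (.t 95 (.c (c 2 4101 r (t 3 1 v))
 (.c (u 2 8 (k (u 3 0 (k (u 5 1 (k v (k v r))) r)) (k (u 3 0 (k (u 5 1 (k v (k v r))) r)) (k (u 3 0 (k (u 5 1 (k v (k v r))) r)) (k (c 6 4099 r r) r)))))
 (.c (u 2 76 (k r (k (t 3 2 v) (k r (k (t 3 2 v) (k (c 6 4099 r (u 4 1 (k r (k r r)))) r))))))
 (.c (c 2 4101 r (t 3 5 v))
 (.c (c 2 4101 r (t 3 3 v))
 (.t 99 (.c (c 2 4101 r (t 3 3 v))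
 (.c (c 2 4101 r r)
 (.t 100 (.c (c 2 4101 r (u 3 0 (k r r)))
 (.t 102 (.c (c 2 4101 r (t 3 1 v))
 (.c (c 2 4101 r (u 3 0 (k (t 7 1 r) r)))
 (.c (c 2 4101 r (t 3 3 v))
 (.t 67 (.t 103 (.t 104 (.c (t 3 2 r)
 (.c (t 3 1 r)
 (.t 145 (.c (t 3 1 r)
 (.c (t 3 1 r)
 (.c (u 3 1 (k r (k (t 7 1 r) r)))
 (.t 145 (.t 119 (.t 119 (.c (t 3 1 r)
 (.c (t 3 3 r)
 (.c (t 2 2 r)
 (.c (u 3 0 (k (u 5 10 (k r (k r (k r (k r (k (c 2 4101 r v) (k (t 13 1 (u 2 4 (k (u 9 0 (k v (k v r))) (k (t 9 1 v) (k (c 6 4099 r r) (k (c 4 4097 r r) r)))))) r))))))) (k (c 5 4096 r r) (k (u 5 1 (k r (k r r))) (k (c 7 4096 r r) r)))))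
 (.c (u 2 35 (k r (k r (k r (k (c 4 4095 r (u 6 0 (k r (k r r)))) (k (c 4 4095 r (u 6 0 (k r (k r r)))) r))))))
 (.c (t 3 1 r)
 (.c (t 3 3 r)
 (.c (t 3 2 r)
 (.c (t 3 1 r)
 (.t 87 (.c (c 2 4101 r r)
 (.c (u 3 0 (k (t 7 1 (u 5 0 (k (u 2 8 (k v (k v (k v (k (c 6 4099 r (u 4 1 (k v (k v r)))) r))))) (k (c 2 4101 r v) (k (c 3 4087 r (t 2 2 v)) r))))) r))
 (.c (c 2 4101 r (t 3 3 v))
 (.c (u 3 0 (k (t 7 2 r) r))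
 (.t 133 (.c (t 3 2 r)
 (.c (t 3 2 r)
 (.t 154 (.t 136 (.t 106 (.t 154 (.c (u 3 3 (k (c 2 4101 r v) (k (t 5 1 (u 7 2 (k r (k r r)))) (k (t 5 1 (u 7 2 (k r (k r r)))) r))))
 (.c (u 3 1 (k r (k (t 7 2 r) (k (c 2 4101 r (u 5 0 (k r r))) r))))
 (.c (c 2 4101 r (u 3 0 (k (t 7 2 r) r)))
 (.c (t 3 1 r)
 (.c (c 2 4101 r r)
 (.c (u 2 1 (k r (k (c 6 4099 r (u 4 1 (k r (k r r)))) (k (c 4 4097 r (u 6 1 (k r (k r r)))) (k (c 4 4095 r (u 6 0 (k r (k r r)))) (k (c 4 4095 r (u 6 0 (k r (k r r)))) r))))))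
 (.c (u 3 0 (k (u 2 4 (k (u 5 0 (k (c 13 4099 r r) r)) (k (u 5 0 (k (c 13 4099 r (u 9 0 (k v (k (u 17 1 (k v (k v r))) (k (c 25 4099 r (u 17 0 (k (u 33 0 (k v (k v r))) r))) (k (u 17 10 (k v (k (c 49 4099 r (u 33 0 (k v (k v r)))) (k (u 33 1 (k v (k v r))) r)))) (k (c 2 4091 v r) (k (u 17 0 (k (u 33 0 (k v (k v r))) r)) (k r (k r r)))))))))) r)) (k (c 6 4099 r r) (k (c 4 4097 r (u 5 0 (k (c 13 4099 r (u 6 1 (k r (k r r)))) r))) r))))) r))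
 (.c (t 2 2 (u 3 0 (k (t 7 3 r) r)))
 (.c (t 3 1 r)
 (.c (t 3 1 r)
 (.c (u 2 78 (k (u 3 0 (k r r)) (k (u 3 0 (k (u 5 0 (k v (k r r))) r)) (k (u 3 0 (k (u 5 0 (k v (k r r))) r)) (k (u 3 0 (k r r)) (k (c 6 4099 r r) r))))))
 (.t 145 (.c (u 3 0 (k (t 7 1 (u 5 23 (k r (k r r)))) r))
 (.t 67 (.c (t 2 2 r)
 (.t 146 (.t 78 (.t 145 (.c (t 3 1 r)
 (.c (t 3 1 r)
 (.c (t 3 1 r)
 (.c (u 3 0 (k (t 5 1 r) (k (t 5 2 r) (k (t 5 1 r) r))))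
 (.c (u 3 0 (k (t 7 1 (u 5 0 (k (t 13 1 (u 9 9 (k (c 7 4099 v (c 21 4101 v (u 2 1 (k v (k (c 6 4099 r (u 4 1 (k v (k v r)))) (k (c 4 4097 r (u 6 1 (k v (k v r)))) (k (c 4 4095 r (u 6 0 (k v (k v r)))) (k (c 4 4095 r (u 6 0 (k v (k v r)))) r)))))))) (k (u 2 8 (k v (k v (k v (k (c 6 4099 r (u 4 1 (k v (k v r)))) r))))) (k (c 3 4086 r (t 2 2 v)) r))))) r))) r))
 (.t 162 (.t 87 (.t 152 (.t 106 (.c (t 3 4 r)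
 (.c (t 2 2 r)
 (.c (u 2 79 (k r (k r (k r (k (c 6 4099 r (u 4 1 (k r (k r r)))) (k (c 4 4095 r (u 6 0 (k r (k r r)))) r))))))
 (.c (c 2 4101 r r)
 (.c (c 2 4101 r r)
 (.c (u 2 16 (k r (k r (k (t 3 1 v) (k (c 6 4099 r (u 4 1 (k r (k r r)))) r)))))
 (.c (u 2 39 (k r (k r (k (c 6 4099 r (u 4 1 (k r (k r r)))) (k (c 4 4095 r (u 6 0 (k r (k r r)))) r)))))
 (.c (u 2 2 (k (u 3 0 (k (t 7 2 (u 5 0 (k (c 13 4099 r r) r))) r)) (k (t 3 7 v) (k (c 6 4099 r r) (k (c 4 4095 r r) (k (c 4 4095 r r) r))))))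
 (.c (u 3 0 (k (t 5 2 r) r))
 (.c (c 2 4101 r r)
 (.c (t 2 2 r)
 (.c (u 2 39 (k r (k (u 3 1 (k r (k r r))) (k (c 6 4099 r (u 4 1 (k r (k r r)))) (k (c 4 4095 r (u 6 0 (k r (k r r)))) r)))))
 (.c (c 2 4101 r r)
 (.c (u 3 0 (k (t 7 2 (u 5 23 (k r (k r r)))) r))
 (.c (t 2 2 (u 3 0 (k (t 7 3 r) r)))
 (.c (t 3 1 r)
 (.c (t 3 1 r)
 (.c (t 2 2 r)
 (.c (u 2 7 (k r (k r (k (c 6 4099 r (u 4 1 (k r (k r r)))) r))))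
 (.t 153 (.t 102 .z))))))))))))))))))))))))))))))))))))))))))))))))))))))))))))))))))))))))))))))))))))))))))))))))))))))))))))))))))))))))))))

set_option maxRecDepth 100000 in
def R124 : PR :=
 (.c r
 (.c r
 (.c (t 3 1 r)
 (.c (c 2 4097 r (t 3 1 v))
 (.c (t 2 2 (t 3 1 v))
 (.c (t 2 2 (t 3 3 v))
 (.c (t 2 2 (t 3 2 v))
 (.c (t 3 1 (u 2 0 (k (t 6 3 (u 4 12 (k v (k v (k (c 12 4099 r r) (k (t 12 1 (u 8 2 (k v (k (t 24 2 (c 12 4099 v (u 16 5 (k v (k v (k (u 32 5 (k v (k v r))) r)))))) r)))) (k (c 10 4099 v (c 3 4099 v r)) (k (c 12 4096 r (c 10 4099 v r)) (k (c 8 4099 r r) r))))))))) (k (t 6 3 r) r))))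
 (.c (c 2 4097 r (t 3 3 v))
 (.c (c 3 4099 r r)
 (.c (c 2 4097 r (t 3 3 v))
 (.c (c 2 4097 r (t 3 1 v))
 (.c (c 2 4097 r (t 3 1 v))
 (.c (t 2 2 (t 3 3 v))
 (.c (t 3 2 r)
 (.c (c 2 4097 r (t 3 1 v))
 (.c (c 3 4097 r r)
 (.c (c 3 4097 r r)
 (.c (c 2 4097 r (t 3 1 v))
 (.c (t 2 1 (t 3 1 v))
 (.c (c 3 4096 r r)
 (.c (c 3 4095 r r)
 (.c (t 2 2 (t 3 3 v))
 (.c (t 2 2 (t 3 3 v))
 (.c (t 2 2 (u 3 3 (k v (k v r))))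
 (.c (c 3 4098 r r)
 (.c (t 3 1 (u 2 0 (k (t 6 3 r) (k (t 6 3 r) r))))
 (.c (c 2 4097 r (t 3 3 v))
 (.c (c 3 4097 r r)
 (.c (c 2 4097 r (t 3 1 v))
 (.c (c 3 4097 r r)
 (.c (c 3 4097 r r)
 (.c (c 2 4097 r (t 3 5 v))
 (.c (c 2 4097 r (t 3 3 v))
 (.c (c 3 4096 r r)
 (.c (c 2 4097 r (t 3 3 v))
 (.c (c 2 4097 r r)
 (.c (c 3 4096 r r)
 (.c (c 2 4097 r (u 3 0 (k r r)))
 (.c (t 2 2 r)
 (.c (c 2 4097 r (t 3 1 v))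
 (.c (c 2 4097 r (u 3 0 (k (t 7 1 r) r)))
 (.c (c 2 4097 r (t 3 3 v))
 (.c (t 3 6 r)
 (.c (t 2 3 r)
 (.c (t 2 2 r)
 (.c (t 2 1 (t 3 2 v))
 (.c (t 3 1 r)
 (.c (t 2 2 r)
 (.c (c 3 4098 r r)
 (.c (t 3 1 r)
 (.c (c 2 4097 r r)
 (.c (c 3 4097 r r)
 (.c (c 3 4097 r r)
 (.c (c 3 4097 r r)
 (.c (c 3 4097 r r)
 (.c (c 2 4097 r r)
 (.c (c 3 4096 r r)
 (.c (c 3 4096 r r)
 (.c (c 3 4095 r r)
 (.c (c 3 4095 r r)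
 (.c (t 2 2 (t 3 3 v))
 (.c (c 3 4095 r r)
 (.c (c 3 4095 r r)
 (.c (c 3 4095 r r)
 (.c (c 2 4097 r r)
 (.c (c 2 4097 r (u 3 0 (k (t 7 2 r) r)))
 (.c (c 2 4097 r (t 3 3 v))
 (.c (c 2 4097 r (u 3 0 (k (t 7 2 r) r)))
 (.c (t 2 3 r)
 (.c (c 3 4099 r r)
 (.c (t 2 3 r)
 (.c (t 2 2 (t 3 2 v))
 (.c (t 2 2 r)
 (.c (c 3 4099 r r)
 (.c (t 2 2 (u 3 0 (k (u 5 0 (k v (k v r))) r)))
 (.c (c 2 4097 r r)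
 (.c (t 2 3 r)
 (.c (c 2 4097 r (u 3 0 (k (t 7 2 r) r)))
 (.c (c 3 4095 r r)
 (.c (c 2 4097 r r)
 (.c (t 2 2 r)
 (.c (c 2 4097 r r)
 (.c (c 2 4097 r (u 3 0 (k (t 7 3 r) r)))
 (.c (c 2 4097 r (u 3 1 (k v (k v r))))
 (.c (c 2 4097 r r)
 (.c (c 3 4100 r r)
 (.c (t 2 2 r)
 (.c (c 2 4097 r r)
 (.c (u 3 6 (k r (k r (k (u 2 0 (k (t 6 2 r) (k (t 6 2 r) r))) r))))
 (.c (c 2 4097 r r)
 (.c (t 2 3 r)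
 (.c (c 3 4098 r r)
 (.c (t 3 2 r)
 (.c (c 3 4097 r r)
 (.c (c 3 4096 r r)
 (.c (c 3 4096 r r)
 (.c (c 3 4095 r r)
 (.c (c 3 4095 r r)
 (.c (c 3 4095 r r)
 (.c (c 3 4095 r r)
 (.c (t 2 2 r)
 (.c (t 3 3 r)
 (.c (c 2 4097 r (u 3 0 (k (t 7 2 r) r)))
 (.c (c 2 4097 r r)
 (.c (t 3 3 r)
 (.c (c 2 4097 r r)
 (.c (c 2 4097 r r)
 (.c (c 2 4097 r r)
 (.c (c 2 4097 r r)
 (.c (t 2 2 (t 3 1 v))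
 (.c (c 2 4097 r r)
 (.c (c 2 4097 r r)
 (.c (c 2 4097 r r)
 (.c (t 2 2 r)
 (.c (c 2 4097 r r)
 (.c (c 3 4096 r r)
 (.c (c 3 4096 r r)
 (.c (c 2 4097 r (u 3 0 (k (t 7 1 r) r)))
 (.c (c 2 4097 r r)
 (.c (c 2 4097 r r)
 (.c (t 2 2 r)
 (.c (t 2 2 r)
 (.c (t 2 2 r)
 (.c (c 2 4097 r r)
 .z)))))))))))))))))))))))))))))))))))))))))))))))))))))))))))))))))))))))))))))))))))))))))))))))))))))))))))))))))))))))))))))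

set_option maxRecDepth 100000 in
def R125 : PR :=
 (.t 87 (.t 127 (.t 126 (.c (t 3 1 r)
 (.c (t 3 1 (u 2 6 (k v (k v (k v (k (c 6 4099 r (u 4 0 (k v (k v (k v (k (t 12 2 r) r)))))) (k (u 4 26 (k v (k (c 12 4101 r r) (k (c 8 4101 r r) (k (c 8 4101 r r) r))))) r)))))))
 (.c (t 3 3 r)
 (.c (t 3 1 (u 2 23 (k v (k v (k (c 6 4099 r (u 4 0 (k v (k v (k v (k (t 12 2 (u 8 6 (k v (k v (k (t 24 1 (u 16 2 (k v (k v r)))) r))))) r)))))) (k (u 4 26 (k v (k (c 12 4101 r r) (k (c 8 4101 r r) (k (c 8 4101 r r) r))))) r))))))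
 (.t 149 (.c (c 2 4100 r (t 3 3 v))
 (.c (t 3 3 (u 2 40 (k v (k v (k v r)))))
 (.c (c 2 4100 r (t 3 3 v))
 (.c (c 2 4100 r (t 3 1 v))
 (.c (c 2 4100 r (t 3 1 v))
 (.t 148 (.t 148 (.c (c 2 4100 r (t 3 1 v))
 (.c (u 3 0 (k r (k r r)))
 (.t 143 (.c (t 3 1 r)
 (.c (t 3 1 r)
 (.c (u 3 0 (k (u 5 3 (k r (k r (k (u 2 4 (k v (k (c 6 4099 r (u 4 0 (k v (k v (k v (k (t 12 2 r) r)))))) (k r (k r (k (c 4 4096 r (u 6 1 (k v (k v r)))) (k (c 3 4093 v (t 4 2 r)) r))))))) r)))) r))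
 (.c (t 3 1 r)
 (.c (t 2 2 (t 3 3 v))
 (.c (t 3 1 r)
 (.c (u 3 1 (k (c 2 4100 r v) (k (u 2 29 (k v (k v (k v (k (c 6 4099 r (u 4 0 (k v (k v (k v (k (t 12 2 (u 8 6 (k v (k v (k (t 24 1 (u 16 2 (k v (k v r)))) r))))) r)))))) r))))) r)))
 (.c (t 3 2 r)
 (.c (u 3 0 (k (t 5 3 (t 7 1 (u 2 29 (k v (k v (k v (k (c 6 4099 r (u 4 0 (k v (k v (k v (k (t 12 2 (u 8 6 (k v (k v (k (t 24 1 (u 16 2 (k v (k v r)))) r))))) r)))))) r))))))) r))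
 (.c (c 2 4100 r (t 3 3 v))
 (.c (u 3 6 (k r (k r r)))
 (.c (c 2 4100 r (t 3 1 v))
 (.c (u 2 54 (k (u 3 0 (k (u 5 1 (k v (k v r))) r)) (k (u 3 0 (k (u 5 1 (k v (k v r))) r)) (k (u 3 0 (k (u 5 1 (k v (k v r))) r)) (k (u 3 0 (k (u 5 3 (k v (k v r))) r)) r)))))
 (.c (u 2 40 (k r (k r (k r r))))
 (.c (c 2 4100 r (t 3 5 v))
 (.c (c 2 4100 r (t 3 3 v))
 (.c (u 3 0 (k (t 5 3 (t 7 1 (u 2 66 (k v (k v (k v (k r (k r r)))))))) r))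
 (.c (c 2 4100 r (t 3 3 v))
 (.c (c 2 4100 r r)
 (.c (u 3 2 (k r (k r (k r (k (t 7 1 (u 5 0 (k (t 9 3 (t 13 1 (u 2 65 (k v (k v (k r (k r (k r (k r (k (c 3 4096 v (t 4 1 r)) (k (c 3 4096 v (t 4 2 r)) r))))))))))) r))) r)))))
 (.c (c 2 4100 r (u 3 0 (k r r)))
 (.t 154 (.c (c 2 4100 r (t 3 1 v))
 (.c (c 2 4100 r (u 3 0 (k (t 7 1 r) r)))
 (.c (c 2 4100 r (t 3 3 v))
 (.c (t 3 6 r)
 (.c (u 3 1 (k r (k r r)))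
 (.c (u 3 3 (k r (k r (k r (k r (k r (k (u 5 0 (k (u 9 0 (k r (k r r))) r)) (k r (k r r)))))))))
 (.c (t 3 2 r)
 (.c (t 3 1 r)
 (.t 136 (.c (t 3 1 r)
 (.c (t 3 1 r)
 (.c (t 3 1 r)
 (.c (u 3 1 (k r (k (c 7 4097 r (u 5 0 (k r (k r r)))) r)))
 (.c (t 3 3 (u 2 69 (k v (k v (k r (k (t 6 1 (c 17 4099 v r)) (k (u 4 10 (k v (k (c 12 4101 r r) (k (c 8 4101 r r) (k (c 8 4101 r r) r))))) (k (c 9 4110 v r) (k (c 3 4094 v (t 4 1 r)) (k (c 3 4094 v (t 4 2 r)) r))))))))))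
 (.c (u 2 10 (k (c 3 4097 r v) (k r (k r (k r (k r (k r (k (c 3 4097 r (t 4 1 r)) (k (c 3 4097 r (t 4 2 r)) r)))))))))
 (.c (t 3 1 r)
 (.c (c 2 4100 r r)
 (.c (t 2 2 r)
 (.c (u 3 0 (k r (k (c 5 4096 r (u 7 0 (k r (k r r)))) (k (u 5 1 (k r (k r r))) (k (c 7 4096 r r) r)))))
 (.c (u 2 54 (k r (k r (k r (k r r)))))
 (.c (u 2 71 (k r (k (t 3 1 v) (k r (k (c 6 4099 r (t 3 1 (u 4 0 (k v (k v (k v (k (t 12 2 r) r))))))) r)))))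
 (.c (t 3 3 r)
 (.c (t 3 2 r)
 (.c (t 3 1 r)
 (.c (u 3 5 (k r (k r r)))
 (.c (c 2 4100 r r)
 (.c (u 3 0 (k (t 7 2 (u 2 70 (k r (k r (k (c 2 4094 v r) (k r r)))))) r))
 (.c (c 2 4100 r (t 3 3 v))
 (.c (u 3 0 (k (t 7 2 r) r))
 (.c (u 3 0 (k r (k r r)))
 (.c (t 2 2 (u 3 0 (k (t 7 3 r) r)))
 (.c (t 2 2 r)
 (.c (t 3 5 r)
 (.c (u 3 9 (k r (k r (k (t 7 2 (u 5 100 (k r (k (c 7 4094 v r) (k r (k (t 9 3 (t 13 1 r)) (k (t 13 3 r) (k (t 13 3 r) (k (t 13 2 (c 7 4094 v r)) (k (t 13 3 (u 9 0 (k r (k r r)))) r)))))))))) (k (u 5 6 (k r (k (t 13 1 r) (k (t 9 2 r) (k (t 9 1 r) r))))) r)))))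
 (.c (t 3 1 r)
 (.c (u 3 0 (k r r))
 (.c (u 3 4 (k r (k r r)))
 (.c (u 3 4 (k r (k r r)))
 (.c (c 2 4100 r (u 3 0 (k (t 7 2 r) r)))
 (.c (t 3 1 r)
 (.c (c 2 4100 r r)
 (.c (u 3 0 (k r (k (u 5 1 (k r (k (c 13 4099 r r) (k (u 9 23 (k r (k r r))) (k (c 9 4099 r r) (k (c 9 4099 r r) (k (c 9 4099 r r) r))))))) r)))
 (.c (t 3 2 r)
 (.c (t 2 2 (u 3 0 (k (t 7 3 r) r)))
 (.c (t 3 1 r)
 (.c (t 2 2 r)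
 (.c (u 3 0 (k (u 5 0 (k r (k (u 2 6 (k r (k r (k r (k (t 6 2 (u 4 40 (k r (k (u 9 9 (k v (k v (k (t 25 2 (u 17 20 (k v (k v (k v r))))) (k (c 9 4097 r v) r))))) r)))) (k (u 9 7 (k r (k r (k r (k (c 25 4099 r (u 17 1 (k r (k r r)))) r))))) r)))))) r))) r))
 (.t 154 (.c (t 3 3 r)
 (.c (u 3 1 (k r (k r r)))
 (.c (t 2 2 r)
 (.c (u 2 23 (k r (k r (k (t 6 2 (u 4 82 (k (c 6 4094 v r) (k r (k r (k r (k (c 2 4090 (t 6 2 (c 3 4094 v r)) r) r))))))) (k (u 3 0 (k r (k r (k r (k (t 7 2 r) r))))) r)))))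
 (.c (u 2 48 (k r (k r (k (c 3 4098 r v) (k r (k r r))))))
 (.t 160 (.c (t 3 1 r)
 (.c (t 3 1 r)
 (.c (t 3 3 r)
 (.c (u 3 0 (k (t 5 1 r) (k (t 5 2 r) (k (t 5 1 r) r))))
 (.c (t 3 2 r)
 (.c (u 3 0 (k (t 7 1 (u 2 66 (k r (k r (k (u 5 170 (k v (k v (k v (k (c 9 4101 r r) (k (c 8 4092 v (c 3 4087 r v)) (k (c 9 4099 r r) (k (c 13 4101 r r) (k (c 13 4102 r r) (k (c 9 4101 r r) (k (c 9 4101 r r) r))))))))))) (k (t 6 2 (u 4 83 (k r (k r (k r (k r (k r (k r (k (t 12 3 r) r))))))))) (k (u 4 21 (k r (k (c 12 4101 r r) (k (c 8 4101 r r) (k (c 8 4101 r r) r))))) r))))))) r))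
 (.c (u 3 4 (k r (k r (k r (k (u 2 10 (k v (k v (k r (k r (k r (k r (k (c 3 4090 v (t 4 1 r)) (k (c 3 4090 v (t 4 2 r)) r))))))))) r)))))
 (.c (u 3 6 (k r (k (t 5 1 (u 7 0 (k (c 15 4101 r (t 11 3 r)) r))) (k (t 5 1 (u 7 0 (k (c 15 4101 r (t 11 3 r)) r))) (k (t 5 2 (u 7 0 (k (c 15 4101 r (t 11 3 r)) r))) (k (t 5 1 (u 7 0 (k (c 15 4101 r (t 11 3 r)) r))) r))))))
 (.c (t 3 3 r)
 (.c (c 2 4100 r (u 3 0 (k (t 7 2 r) r)))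
 (.c (t 2 2 r)
 (.c (u 3 6 (k r (k (t 7 1 r) (k (t 5 2 r) (k (t 5 1 r) r)))))
 (.c (c 2 4100 r r)
 (.c (c 2 4100 r r)
 (.c (u 2 77 (k r (k (c 2 4094 v r) (k (c 6 4099 r (u 4 12 (k r (k r r)))) r))))
 (.c (u 2 76 (k r (k r (k r (k (c 2 4094 v r) (k (t 6 2 (u 3 15 (k r (k r (k (t 7 2 (u 5 16 (k r (k (c 13 4099 r r) (k (c 2 4096 (c 3 4094 v r) r) (k (c 9 4099 r r) (k (c 9 4099 r r) (k (c 9 4099 r r) r)))))))) r))))) r))))))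
 (.c (t 3 6 r)
 (.c (c 2 4100 r r)
 (.c (c 2 4100 r r)
 (.c (c 2 4100 r r)
 (.c (u 3 2 (k r (k (c 7 4099 r (u 5 1 (k r (k (t 13 2 r) (k (c 3 4076 (u 4 0 (k r r)) (t 2 2 v)) r))))) r)))
 (.c (c 2 4100 r r)
 (.c (t 3 1 r)
 (.c (t 2 2 (u 3 0 (k (t 7 3 r) r)))
 (.c (c 2 4100 r (u 3 0 (k (t 7 1 r) r)))
 (.c (t 3 2 r)
 (.c (t 3 3 r)
 (.c (u 2 78 (k r (k r (k r r))))
 (.c (t 3 3 r)
 (.t 136 (.c (t 3 2 r)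
 (.c (u 2 23 (k r (k r (k r (k r r)))))
 .z))))))))))))))))))))))))))))))))))))))))))))))))))))))))))))))))))))))))))))))))))))))))))))))))))))))))))))))))))))))))))))))

set_option maxRecDepth 100000 in
def R126 : PR :=
 (.t 87 (.t 90 (.t 130 (.c (t 3 1 r)
 (.c (t 3 1 (u 2 3 (k v (k v (k (c 6 4097 r (u 4 1 (k v (k v r)))) (k (c 6 4096 r (u 4 1 (k v (k v r)))) (k (c 6 4097 r (u 4 1 (k v (k v r)))) r)))))))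
 (.c (t 3 3 r)
 (.c (t 3 1 (u 2 3 (k v (k v (k (c 6 4097 r (u 4 1 (k v (k v r)))) (k (c 6 4096 r (u 4 1 (k v (k v r)))) (k (c 6 4097 r (u 4 1 (k v (k v r)))) r)))))))
 (.t 120 (.c (c 2 4099 r (t 3 3 v))
 (.c (t 3 3 r)
 (.c (c 2 4099 r (t 3 3 v))
 (.c (c 2 4099 r (t 3 1 v))
 (.c (c 2 4099 r (t 3 1 v))
 (.t 125 (.t 150 (.c (c 2 4099 r (t 3 1 v))
 (.t 87 (.t 87 (.c (t 3 1 r)
 (.c (t 3 1 r)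
 (.c (u 2 1 (k (u 3 0 (k (u 5 0 (k v (k v r))) r)) (k (c 6 4097 r r) (k (c 6 4096 r r) (k (c 4 4098 r r) (k (c 6 4096 r r) (k (c 6 4097 r r) (k (c 6 4097 r r) (k (c 6 4096 r r) (k (c 6 4099 r r) (k (c 4 4097 r r) r)))))))))))
 (.c (t 3 1 r)
 (.c (t 2 1 (t 3 3 v))
 (.c (t 3 1 r)
 (.c (u 2 3 (k (u 3 3 (k v (k v r))) (k (u 3 3 (k v (k v r))) (k (c 6 4097 r r) (k (c 6 4096 r r) (k (c 6 4097 r r) r))))))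
 (.c (t 3 2 r)
 (.c (t 3 2 r)
 (.c (c 2 4099 r (t 3 3 v))
 (.c (u 3 2 (k r (k (c 2 4099 r (u 5 1 (k v (k v r)))) r)))
 (.c (c 2 4099 r (t 3 1 v))
 (.c (u 2 6 (k (u 3 0 (k (u 5 1 (k v (k v r))) r)) (k (c 3 4097 r v) (k (c 6 4097 r r) (k (c 6 4096 r r) (k (c 6 4097 r r) r))))))
 (.c (t 3 2 r)
 (.c (c 2 4099 r (t 3 5 v))
 (.c (c 2 4099 r (t 3 3 v))
 (.t 143 (.c (c 2 4099 r (t 3 3 v))
 (.c (c 2 4099 r r)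
 (.t 87 (.c (c 2 4099 r (u 3 0 (k r r)))
 (.t 145 (.c (c 2 4099 r (t 3 1 v))
 (.c (c 2 4099 r (u 3 0 (k (t 7 1 r) r)))
 (.c (c 2 4099 r (t 3 3 v))
 (.t 121 (.t 71 (.t 78 (.c (t 3 2 r)
 (.c (t 3 1 r)
 (.t 145 (.c (t 3 1 r)
 (.c (t 3 1 r)
 (.c (c 2 4099 r r)
 (.c (u 3 1 (k r (k (c 7 4097 r r) r)))
 (.t 128 (.t 119 (.c (t 3 1 r)
 (.c (c 2 4099 r r)
 (.c (t 2 1 r)
 (.c (u 2 1 (k r (k (c 6 4097 r r) (k (c 6 4096 r r) (k (c 4 4098 r (u 6 0 (k r (k r r)))) (k (c 6 4096 r r) (k (c 6 4097 r r) (k (c 6 4097 r r) (k (c 6 4096 r r) (k (c 6 4099 r r) (k (c 4 4097 r r) r)))))))))))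
 (.c (u 2 6 (k r (k (c 3 4095 r v) (k (c 6 4097 r (u 4 1 (k r (k r r)))) (k (c 6 4096 r (u 4 1 (k r (k r r)))) (k (c 6 4097 r (u 4 1 (k r (k r r)))) r))))))
 (.c (t 3 1 r)
 (.c (t 3 3 r)
 (.c (t 3 2 r)
 (.c (t 3 1 r)
 (.t 87 (.c (c 2 4099 r r)
 (.c (u 2 3 (k (u 3 0 (k (t 7 2 r) r)) (k r (k (c 6 4097 r (u 4 1 (k r (k r r)))) (k (c 6 4096 r (u 4 1 (k r (k r r)))) (k (c 6 4097 r (u 4 1 (k r (k r r)))) r))))))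
 (.c (c 2 4099 r (t 3 3 v))
 (.c (c 2 4099 r (u 3 0 (k (t 7 2 r) r)))
 (.t 153 (.c (t 2 1 (u 3 0 (k (t 7 3 r) r)))
 (.c (t 3 2 r)
 (.t 145 (.t 102 (.c (u 2 28 (k (t 3 1 v) (k (u 3 0 (k (t 7 1 r) r)) (k (c 6 4097 r r) (k (c 6 4096 r r) (k (c 4 4098 r r) (k (c 6 4096 r r) (k (c 6 4097 r r) (k (c 6 4097 r r) (k (c 6 4096 r r) (k (c 4 4097 r r) r)))))))))))
 (.t 149 (.c (u 2 3 (k r (k r (k (c 6 4097 r (u 4 1 (k r (k r r)))) (k (c 6 4096 r (u 4 1 (k r (k r r)))) (k (c 6 4097 r (u 4 1 (k r (k r r)))) r))))))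
 (.c (u 2 3 (k r (k r (k (c 6 4097 r (u 4 1 (k r (k r r)))) (k (c 6 4096 r (u 4 1 (k r (k r r)))) (k (c 6 4097 r (u 4 1 (k r (k r r)))) r))))))
 (.c (c 2 4099 r (u 3 0 (k (t 7 2 r) r)))
 (.c (t 3 1 r)
 (.c (c 2 4099 r r)
 (.c (u 2 19 (k r (k r (k (c 6 4097 r (u 4 1 (k r (k r r)))) (k (c 6 4096 r (u 4 1 (k r (k r r)))) (k (c 6 4097 r (u 4 1 (k r (k r r)))) (k (c 6 4097 r (u 4 1 (k r (k r r)))) (k (c 6 4099 r (u 4 1 (k r (k r r)))) (k (c 4 4097 r (u 6 1 (k r (k r r)))) r)))))))))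
 (.c (u 2 3 (k (t 3 3 v) (k (u 3 0 (k (u 5 0 (k (c 13 4099 r r) r)) r)) (k (c 6 4097 r (u 3 0 (k r r))) (k (c 6 4096 r (u 3 0 (k r r))) (k (c 6 4097 r (u 3 0 (k r r))) r))))))
 (.c (t 3 2 r)
 (.c (c 2 4099 r (u 3 1 (k v (k v r))))
 (.c (t 2 1 r)
 (.c (u 2 3 (k (u 3 0 (k r r)) (k (u 3 0 (k (u 5 0 (k v (k r r))) r)) (k (c 6 4097 r r) (k (c 6 4096 r r) (k (c 6 4097 r r) r))))))
 (.t 160 (.c (u 3 0 (k (t 7 1 (u 5 23 (k r (k r r)))) r))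
 (.t 156 (.c (c 2 4099 r r)
 (.c (u 2 3 (k r (k r (k (c 4 4099 r (u 6 0 (k r (k r r)))) (k (c 6 4096 r (u 4 1 (k r (k r r)))) (k (c 6 4097 r (u 4 1 (k r (k r r)))) r))))))
 (.t 157 (.c (u 2 1 (k r (k (c 6 4097 r (u 4 1 (k r (k r r)))) (k (c 6 4096 r (u 4 1 (k r (k r r)))) (k (c 4 4098 r (u 6 0 (k r (k r r)))) (k (c 6 4096 r (u 4 1 (k r (k r r)))) (k (c 6 4097 r (u 4 1 (k r (k r r)))) (k (c 6 4097 r (u 4 1 (k r (k r r)))) (k (c 6 4096 r (u 4 1 (k r (k r r)))) (k (c 6 4099 r (u 4 1 (k r (k r r)))) (k (c 4 4097 r (u 6 1 (k r (k r r)))) r)))))))))))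
 (.c (t 3 1 r)
 (.c (t 3 1 r)
 (.c (t 3 1 r)
 (.c (c 2 4099 r (u 3 0 (k r (k r (k r r)))))
 (.c (u 2 6 (k (t 3 3 v) (k (c 3 4095 r v) (k (c 6 4097 r r) (k (c 6 4096 r r) (k (c 6 4097 r r) r))))))
 (.c (u 3 0 (k (t 7 1 (u 2 1 (k (u 5 0 (k v (k v r))) (k (c 6 4097 r r) (k (c 6 4096 r r) (k (c 4 4098 r r) (k (c 6 4096 r r) (k (c 6 4097 r r) (k (c 6 4097 r r) (k (c 6 4096 r r) (k (c 6 4099 r r) (k (c 4 4097 r r) r)))))))))))) r))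
 (.t 87 (.c (u 3 0 (k r (k (t 5 1 (u 7 0 (k (c 15 4101 r (t 11 3 r)) r))) (k (t 5 1 (u 7 0 (k (c 15 4101 r (t 11 3 r)) r))) (k r (k r r))))))
 (.c (u 2 3 (k r (k r (k (c 4 4099 r (u 6 0 (k r (k r r)))) (k (c 6 4096 r (u 4 1 (k r (k r r)))) (k (c 6 4097 r (u 4 1 (k r (k r r)))) r))))))
 (.c (c 2 4099 r (u 3 0 (k (t 7 2 r) r)))
 (.c (t 2 1 r)
 (.c (u 2 3 (k r (k r (k (c 6 4097 r (u 4 1 (k r (k r r)))) (k (c 6 4096 r (u 4 1 (k r (k r r)))) (k (c 6 4097 r (u 4 1 (k r (k r r)))) r))))))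
 (.c (c 2 4099 r r)
 (.c (c 2 4099 r r)
 (.c (c 2 4099 r r)
 (.c (c 2 4099 r r)
 (.c (u 2 25 (k (t 3 7 v) (k (u 3 0 (k (t 7 2 (u 5 0 (k (c 13 4099 r r) r))) r)) (k (c 6 4097 r r) (k (c 6 4096 r r) (k (c 6 4097 r r) r))))))
 (.c (c 2 4099 r r)
 (.c (c 2 4099 r r)
 (.c (c 2 4099 r r)
 (.c (u 2 3 (k (u 3 1 (k r (k r r))) (k r (k (c 6 4097 r (u 4 1 (k r (k r r)))) (k (c 6 4096 r (u 4 1 (k r (k r r)))) (k (c 6 4097 r (u 4 1 (k r (k r r)))) r))))))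
 (.c (c 2 4099 r r)
 (.c (u 3 0 (k (t 7 2 (u 5 23 (k r (k r r)))) r))
 (.c (t 2 1 (u 3 0 (k (t 7 3 r) r)))
 (.c (c 2 4099 r (u 3 0 (k (t 7 1 r) r)))
 (.c (c 2 4099 r r)
 (.c (t 2 1 r)
 (.c (u 2 3 (k r (k r (k (c 6 4097 r (u 4 1 (k r (k r r)))) (k (c 6 4096 r (u 4 1 (k r (k r r)))) (k (c 6 4097 r (u 4 1 (k r (k r r)))) r))))))
 (.t 153 (.t 145 (.c (t 3 2 r)
 (.t 160 (.t 160 .z)))))))))))))))))))))))))))))))))))))))))))))))))))))))))))))))))))))))))))))))))))))))))))))))))))))))))))))))))))))))))))))))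

set_option maxRecDepth 100000 in
def R127 : PR :=
 (.c r
 (.c r
 (.c (c 2 4096 r (t 3 1 v))
 (.c (c 2 4096 r (t 3 1 v))
 (.c (t 2 2 (t 3 1 v))
 (.c (c 3 4100 r r)
 (.c (t 2 2 (t 3 2 v))
 (.c (t 3 1 (u 2 0 (k (t 6 3 (u 4 2 (k v (k v (k (u 8 1 (k v (k v r))) (k (c 8 4097 r (u 12 0 (k v (k v r)))) (k (c 8 4097 r (u 12 0 (k v (k v r)))) (k (c 8 4096 r (u 12 0 (k v (k v r)))) (k (c 8 4095 r (u 12 0 (k v (k v r)))) r))))))))) (k (t 6 2 r) r))))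
 (.c (c 2 4096 r (t 3 3 v))
 (.c (c 3 4099 r r)
 (.c (c 2 4096 r (t 3 3 v))
 (.c (c 2 4096 r (t 3 1 v))
 (.c (c 2 4096 r (t 3 1 v))
 (.c (t 2 2 (t 3 3 v))
 (.c (t 2 2 (t 3 3 v))
 (.c (c 2 4096 r (t 3 1 v))
 (.c (c 3 4097 r r)
 (.c (c 3 4097 r r)
 (.c (c 2 4096 r (t 3 1 v))
 (.c (t 2 1 (t 3 1 v))
 (.c (t 2 2 (u 3 0 (k (u 5 0 (k v (k v r))) r)))
 (.c (c 2 4096 r (t 3 1 v))
 (.c (t 2 2 (t 3 3 v))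
 (.c (t 2 2 (t 3 3 v))
 (.c (t 2 2 (u 3 3 (k v (k v r))))
 (.c (c 3 4098 r r)
 (.c (c 3 4098 r r)
 (.c (c 2 4096 r (t 3 3 v))
 (.c (c 3 4097 r r)
 (.c (c 2 4096 r (t 3 1 v))
 (.c (c 3 4097 r r)
 (.c (c 3 4097 r r)
 (.c (c 2 4096 r (t 3 5 v))
 (.c (c 2 4096 r (t 3 3 v))
 (.c (c 3 4096 r r)
 (.c (c 2 4096 r (t 3 3 v))
 (.c (c 2 4096 r r)
 (.c (c 3 4096 r r)
 (.c (c 2 4096 r (u 3 0 (k r r)))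
 (.c (t 2 2 r)
 (.c (c 2 4096 r (t 3 1 v))
 (.c (c 2 4096 r (u 3 0 (k (t 7 1 r) r)))
 (.c (c 2 4096 r (t 3 3 v))
 (.c (c 3 4100 r r)
 (.c (t 2 3 r)
 (.c (c 3 4100 r r)
 (.c (t 2 1 (t 3 2 v))
 (.c (t 3 1 r)
 (.c (t 2 2 r)
 (.c (c 3 4098 r r)
 (.c (c 3 4098 r r)
 (.c (c 2 4096 r r)
 (.c (c 3 4097 r r)
 (.c (c 2 4096 r (t 3 1 v))
 (.c (c 3 4097 r r)
 (.c (c 3 4097 r r)
 (.c (c 2 4096 r r)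
 (.c (c 3 4096 r r)
 (.c (c 3 4096 r r)
 (.c (c 3 4095 r r)
 (.c (c 3 4095 r r)
 (.c (c 2 4096 r r)
 (.c (c 2 4096 r r)
 (.c (c 2 4096 r (t 3 1 v))
 (.c (c 2 4096 r r)
 (.c (c 2 4096 r r)
 (.c (c 2 4096 r (u 3 0 (k (t 7 2 r) r)))
 (.c (c 2 4096 r (t 3 3 v))
 (.c (c 2 4096 r (u 3 0 (k (t 7 2 r) r)))
 (.c (t 2 2 r)
 (.c (c 3 4099 r r)
 (.c (t 3 2 r)
 (.c (t 3 8 r)
 (.c (t 2 2 r)
 (.c (c 3 4099 r r)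
 (.c (t 2 2 (u 3 0 (k (u 5 0 (k v (k v r))) r)))
 (.c (c 2 4096 r r)
 (.c (c 2 4096 r r)
 (.c (c 2 4096 r (u 3 0 (k (t 7 2 r) r)))
 (.c (c 3 4095 r r)
 (.c (c 2 4096 r r)
 (.c (t 2 2 r)
 (.c (c 2 4096 r r)
 (.c (c 2 4096 r (u 3 0 (k (t 7 3 r) r)))
 (.c (c 2 4096 r (u 3 1 (k v (k v r))))
 (.c (c 2 4096 r r)
 (.c (c 3 4100 r r)
 (.c (t 2 2 r)
 (.c (c 2 4096 r r)
 (.c (u 3 0 (k r (k r r)))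
 (.c (c 2 4096 r r)
 (.c (c 3 4098 r r)
 (.c (c 3 4098 r r)
 (.c (c 3 4098 r r)
 (.c (c 3 4097 r r)
 (.c (c 3 4096 r r)
 (.c (c 3 4096 r r)
 (.c (c 2 4096 r (u 3 0 (k r (k r (k r r)))))
 (.c (c 2 4096 r (u 3 0 (k (t 7 2 (u 5 0 (k (c 13 4099 r r) r))) r)))
 (.c (c 3 4095 r r)
 (.c (c 3 4095 r r)
 (.c (t 3 4 r)
 (.c (t 2 2 r)
 (.c (c 2 4096 r (u 3 0 (k (t 7 2 r) r)))
 (.c (c 2 4096 r r)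
 (.c (t 3 3 r)
 (.c (t 3 3 r)
 (.c (c 2 4096 r r)
 (.c (c 2 4096 r r)
 (.c (c 2 4096 r r)
 (.c (t 3 6 r)
 (.c (c 2 4096 r r)
 (.c (c 3 4100 r r)
 (.c (c 2 4096 r r)
 (.c (c 3 4097 r r)
 (.c (c 2 4096 r r)
 (.c (c 3 4096 r r)
 (.c (c 3 4096 r r)
 (.c (c 2 4096 r (u 3 0 (k (t 7 1 r) r)))
 (.c (c 2 4096 r r)
 (.c (c 2 4096 r r)
 (.c (t 2 2 r)
 (.c (t 3 2 r)
 (.c (t 2 2 r)
 (.c (c 3 4097 r r)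
 (.c (t 3 2 r)
 (.c (t 2 2 r)
 (.c (c 2 4096 r r)
 .z))))))))))))))))))))))))))))))))))))))))))))))))))))))))))))))))))))))))))))))))))))))))))))))))))))))))))))))))))))))))))))))))

set_option maxRecDepth 100000 in
def R128 : PR :=
 (.t 48 (.t 92 (.t 87 (.t 92 (.c (t 2 1 (t 3 1 v))
 (.c (t 2 1 (t 3 3 v))
 (.c (t 2 1 (t 3 2 v))
 (.t 77 (.c (c 2 4099 r (t 3 3 v))
 (.c (t 2 1 (t 3 3 v))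
 (.c (c 2 4099 r (t 3 3 v))
 (.c (c 2 4099 r (t 3 1 v))
 (.c (c 2 4099 r (t 3 1 v))
 (.c (t 2 1 (t 3 3 v))
 (.c (t 2 1 (t 3 3 v))
 (.c (c 2 4099 r (t 3 1 v))
 (.c (u 3 0 (k r (k r r)))
 (.c (t 2 1 r)
 (.c (t 3 3 r)
 (.c (t 3 3 r)
 (.c (t 2 1 (u 3 0 (k (u 5 0 (k v (k v r))) r)))
 (.c (t 3 1 r)
 (.c (t 2 1 (t 3 3 v))
 (.c (t 2 1 (t 3 3 v))
 (.c (t 2 1 (u 3 3 (k v (k v r))))
 (.c (t 2 1 (t 3 1 v))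
 (.c (t 2 1 (t 3 1 v))
 (.c (c 2 4099 r (t 3 3 v))
 (.c (t 2 1 r)
 (.c (c 2 4099 r (t 3 1 v))
 (.c (t 2 1 (u 3 0 (k (u 5 1 (k v (k v r))) r)))
 (.c (t 2 1 (t 3 2 v))
 (.c (c 2 4099 r (t 3 5 v))
 (.c (c 2 4099 r (t 3 3 v))
 (.c (u 3 0 (k (t 5 3 (t 7 1 (u 2 5 (k v (k v (k (t 6 1 (u 4 0 (k v (k v (k (c 12 4099 r (u 8 0 (k v (k v r)))) r))))) r)))))) r))
 (.c (c 2 4099 r (t 3 3 v))
 (.c (c 2 4099 r r)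
 (.c (u 2 1 (k r (k (t 6 1 (u 3 2 (k r (k r (k (t 4 2 v) (k (t 7 1 (u 5 0 (k (t 9 3 (t 13 1 (u 4 1 (k v (k (c 12 4099 r (u 8 1 (k v (k v r)))) (k (c 8 4097 r (c 3 4096 v r)) (k (c 8 4095 r (c 3 4096 v r)) (k (c 8 4095 r (c 3 4096 v r)) r)))))))) r))) r)))))) (k (c 3 4096 r (t 6 1 r)) r))))
 (.c (c 2 4099 r (u 3 0 (k r r)))
 (.c (t 2 1 r)
 (.c (c 2 4099 r (t 3 1 v))
 (.c (c 2 4099 r (u 3 0 (k (t 7 1 r) r)))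
 (.c (c 2 4099 r (t 3 3 v))
 (.c (t 3 6 r)
 (.c (u 3 1 (k r (k r r)))
 (.c (t 2 1 r)
 (.c (t 3 3 r)
 (.c (u 2 3 (k r (k (t 6 1 (u 4 0 (k r (k r (k (c 12 4099 r (u 8 0 (k r (k r r)))) r))))) (k (t 6 1 (u 4 15 (k r (k r r)))) r))))
 (.c (t 2 1 r)
 (.c (t 2 1 (t 3 3 v))
 (.c (t 2 1 r)
 (.c (c 2 4099 r r)
 (.c (t 2 1 r)
 (.c (t 3 1 (u 2 2 (k v (k (t 6 1 (u 4 1 (k v (k (c 12 4099 r (u 8 1 (k v (k v r)))) (k (c 8 4097 r (u 12 1 (k v (k v r)))) (k (c 8 4095 r (c 3 4091 v r)) (k (c 8 4095 r (c 3 4091 v r)) r))))))) (k (c 3 4091 v (t 6 1 r)) r)))))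
 (.c (u 2 2 (k r (k (t 6 1 r) (k (t 6 1 r) r))))
 (.c (u 2 3 (k r (k (t 6 1 (u 4 37 (k r (k r (k r r))))) (k (c 3 4097 r (t 6 1 r)) r))))
 (.c (c 2 4099 r r)
 (.c (u 3 7 (k (t 2 1 v) (k r r)))
 (.c (t 2 1 r)
 (.c (u 3 0 (k r (k r (k r r))))
 (.c (t 2 1 (t 3 5 v))
 (.c (t 2 1 (t 3 3 v))
 (.c (t 2 1 (t 3 2 v))
 (.c (u 3 0 (k (t 7 1 (u 5 0 (k r (k (c 13 4097 r (u 2 3 (k (u 9 0 (k v (k v r))) (k (t 6 1 (u 4 37 (k (u 9 0 (k v (k v r))) (k (u 9 0 (k v (k v r))) (k (u 9 3 (k v (k v (k v r)))) r))))) (k (c 3 4094 r (t 6 1 r)) r))))) r)))) r))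
 (.c (u 3 5 (k r (k r r)))
 (.c (c 2 4099 r r)
 (.c (t 2 1 r)
 (.c (c 2 4099 r (t 3 3 v))
 (.c (c 2 4099 r (u 3 0 (k (t 7 2 r) r)))
 (.c (t 2 1 r)
 (.c (t 2 1 (u 3 0 (k (t 7 3 r) r)))
 (.c (t 2 1 r)
 (.c (t 2 1 (t 3 2 v))
 (.c (t 2 1 r)
 (.c (t 3 1 r)
 (.c (t 2 1 (u 3 0 (k (u 5 0 (k v (k v r))) r)))
 (.c (t 2 1 (u 3 1 (k v (k (c 7 4097 r r) (k (c 7 4097 r r) r)))))
 (.c (u 3 4 (k r (k r r)))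
 (.c (c 2 4099 r (u 3 0 (k (t 7 2 r) r)))
 (.c (t 2 1 r)
 (.c (c 2 4099 r r)
 (.c (t 2 1 r)
 (.c (t 2 1 (t 3 1 v))
 (.c (t 2 1 (u 3 0 (k (t 7 3 r) r)))
 (.c (c 2 4099 r (u 3 1 (k v (k v r))))
 (.c (t 2 1 r)
 (.c (t 2 1 (u 3 0 (k (u 5 0 (k v (k r r))) r)))
 (.c (t 2 1 r)
 (.c (t 3 3 r)
 (.c (u 3 1 (k r (k r r)))
 (.c (c 2 4099 r r)
 (.c (t 2 1 r)
 (.c (t 2 1 r)
 (.c (t 2 1 r)
 (.c (t 3 1 r)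
 (.c (u 2 3 (k (u 3 0 (k (t 7 1 r) r)) (k (t 6 1 (u 4 33 (k (u 3 0 (k (t 7 1 r) r)) (k r (k (u 3 0 (k (t 7 1 r) r)) r))))) (k (c 3 4096 r (t 6 1 r)) r))))
 (.c (t 2 1 (t 3 1 v))
 (.c (c 2 4099 r (u 3 0 (k r (k r (k r r)))))
 (.c (t 2 1 r)
 (.c (t 2 1 r)
 (.c (u 3 1 (k r (k r (k r (k (t 7 1 (u 5 6 (k r (k (c 13 4099 r (u 9 28 (k r (k r (k r r))))) r)))) r)))))
 (.c (t 2 1 r)
 (.c (t 2 1 r)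
 (.c (c 2 4099 r (u 3 0 (k (t 7 2 r) r)))
 (.c (t 2 1 r)
 (.c (t 2 1 r)
 (.c (t 3 3 r)
 (.c (c 2 4099 r r)
 (.c (c 2 4099 r r)
 (.c (c 2 4099 r r)
 (.c (t 2 1 (t 3 1 v))
 (.c (c 2 4099 r r)
 (.c (c 2 4099 r r)
 (.c (c 2 4099 r r)
 (.c (t 2 1 r)
 (.c (c 2 4099 r r)
 (.c (t 3 1 r)
 (.c (t 2 1 (u 3 0 (k (c 5 4095 r (t 7 3 v)) r)))
 (.c (c 2 4099 r (u 3 0 (k (t 7 1 r) r)))
 (.c (c 2 4099 r r)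
 (.c (t 3 3 r)
 (.c (t 2 1 r)
 (.c (t 2 1 r)
 (.c (t 2 1 r)
 (.c (t 2 1 r)
 (.c (t 2 1 r)
 (.c (t 2 1 r)
 (.c (t 2 1 r)
 (.c (u 2 3 (k r (k (t 6 1 (u 4 0 (k r (k r (k (c 12 4099 r (u 8 0 (k r (k r r)))) r))))) (k (c 3 4099 r (t 6 1 r)) r))))
 .z)))))))))))))))))))))))))))))))))))))))))))))))))))))))))))))))))))))))))))))))))))))))))))))))))))))))))))))))))))))))))))))))))

set_option maxRecDepth 100000 in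
def R129 : PR :=
 (.t 87 (.c (t 2 2 v)
 (.t 130 (.c (c 2 4099 r (t 3 1 v))
 (.c (t 3 1 (u 2 0 (k (u 4 44 (k v (k v (k v (k (c 12 4099 r (u 8 0 (k v (k v (k v (k (t 24 2 (u 16 6 (k v (k v (k (t 48 1 (u 32 2 (k v (k v r)))) r))))) r)))))) r))))) r)))
 (.c (t 3 3 r)
 (.c (t 3 1 (u 2 0 (k (u 4 40 (k v (k v (k v r)))) r)))
 (.t 87 (.c (c 2 4099 r (t 3 3 v))
 (.c (t 3 3 r)
 (.c (c 2 4099 r (t 3 3 v))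
 (.c (c 2 4099 r (t 3 1 v))
 (.c (c 2 4099 r (t 3 1 v))
 (.t 150 (.t 89 (.c (c 2 4099 r (t 3 1 v))
 (.c (u 3 0 (k (u 2 0 (k r r)) (k (u 2 0 (k r r)) r)))
 (.c (u 3 5 (k (u 2 0 (k r r)) (k (u 2 0 (k r r)) r)))
 (.c (c 2 4099 r (t 3 1 v))
 (.c (t 3 1 (u 2 0 (k r r)))
 (.c (u 2 0 (k (u 4 64 (k (u 3 0 (k (u 5 0 (k v (k v r))) r)) (k (u 3 0 (k (u 5 0 (k v (k v r))) r)) (k (c 2 4094 v (t 3 2 v)) (k (t 12 2 (u 3 0 (k (u 8 27 (k (u 5 0 (k v (k v r))) (k (u 5 0 (k v (k v r))) r))) r))) r))))) r))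
 (.c (t 3 1 (u 2 0 (k r r)))
 (.c (t 2 2 (t 3 3 v))
 (.c (t 3 1 r)
 (.c (u 2 0 (k (u 3 1 (k (c 2 4099 (t 2 2 v) v) (k (u 4 40 (k v (k v (k v r)))) r))) r))
 (.c (t 3 2 (u 2 0 (k r r)))
 (.c (t 3 2 (u 2 0 (k r r)))
 (.c (c 2 4099 r (t 3 3 v))
 (.c (u 3 18 (k r (k r (k (c 2 4099 r (u 5 1 (k v (k v r)))) r))))
 (.c (c 2 4099 r (t 3 1 v))
 (.c (u 2 0 (k (u 4 68 (k (u 3 0 (k (u 5 1 (k v (k v r))) r)) (k (u 3 0 (k (u 5 3 (k v (k v r))) r)) (k (c 3 4097 r v) (k (u 3 0 (k (u 5 1 (k v (k v r))) r)) r))))) r))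
 (.c (t 3 2 r)
 (.c (c 2 4099 r (t 3 5 v))
 (.c (c 2 4099 r (t 3 3 v))
 (.c (u 3 0 (k (t 5 3 (t 7 1 (u 2 0 (k (u 4 7 (k v (k v (k (c 12 4099 r r) (k r (k (c 8 4096 r (u 12 1 (k v (k v r)))) (k (t 8 2 (u 12 2 (k v (k v r)))) r))))))) r)))) r))
 (.c (c 2 4099 r (t 3 3 v))
 (.c (c 2 4099 r r)
 (.c (u 2 0 (k (u 3 25 (k r (k r (k r (k (u 4 40 (k v (k v (k v r)))) (k (t 7 1 (u 5 0 (k (t 9 3 (t 13 1 (u 4 7 (k v (k v (k (c 12 4099 r r) (k r (k (c 8 4096 r (u 12 1 (k v (k v r)))) (k (t 8 2 (u 12 2 (k v (k v r)))) r))))))))) r))) r)))))) r))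
 (.c (c 2 4099 r (u 3 0 (k r r)))
 (.c (u 2 0 (k (u 3 23 (k (c 2 4099 (t 2 2 v) v) (k r (k r (k r (k (c 2 4099 (t 2 2 v) r) r)))))) r))
 (.c (c 2 4099 r (t 3 1 v))
 (.c (c 2 4099 r (u 3 0 (k (t 7 1 r) r)))
 (.c (c 2 4099 r (t 3 3 v))
 (.c (t 3 6 (u 2 0 (k r r)))
 (.c (u 3 1 (k (u 2 0 (k r r)) (k (u 2 0 (k r r)) r)))
 (.c (u 2 0 (k (u 3 27 (k r (k r (k r (k (u 5 1 (k (c 4 4100 r v) (k r r))) (k r (k (u 5 0 (k (u 9 0 (k r (k r r))) r)) (k r (k (u 5 2 (k r (k (c 13 4099 r (u 9 1 (k r (k r r)))) (k (c 9 4095 r (u 13 0 (k r (k r r)))) r)))) r))))))))) r))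
 (.c (t 3 2 (u 2 0 (k r r)))
 (.c (t 3 1 (u 2 0 (k r r)))
 (.c (u 2 0 (k (u 3 1 (k r (k (u 5 31 (k r (k r (k r r)))) (k (c 7 4099 r (u 5 0 (k r (k r r)))) (k (u 5 0 (k r (k r r))) (k (c 7 4097 r (u 5 31 (k r (k r (k r r))))) (k (c 5 4095 r (u 7 31 (k r (k r (k r r))))) r))))))) r))
 (.c (t 3 1 (u 2 0 (k r r)))
 (.c (t 3 1 (u 2 0 (k r r)))
 (.c (c 2 4099 r r)
 (.c (u 2 0 (k (u 3 2 (k (c 2 4099 (t 2 2 v) v) (k (c 7 4097 r (u 5 0 (k r (k r r)))) r))) r))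
 (.c (u 3 0 (k (t 7 1 (u 5 0 (k (t 9 3 (t 13 3 (u 2 0 (k r r)))) r))) r))
 (.c (u 2 0 (k (u 3 4 (k r (k r (k r (k r (k (t 7 1 (u 5 0 (k r (k r r)))) r)))))) r))
 (.c (t 3 1 (u 2 0 (k r r)))
 (.c (c 2 4099 r r)
 (.c (t 2 2 r)
 (.c (u 2 0 (k (u 3 1 (k (u 5 1 (k r (k r r))) (k (u 4 70 (k r (k r (k (c 3 4096 r v) (k (t 12 2 (u 8 40 (k r (k (u 5 452 (k v (k v (k v (k v (k v (k v (k v (k v r))))))))) r)))) r))))) (k (c 5 4096 r (u 7 0 (k r (k r r)))) (k (c 7 4096 r r) r))))) r))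
 (.c (u 2 0 (k (u 3 1 (k r (k (t 5 3 (t 7 3 (u 4 72 (k v (k v (k v (k v r))))))) r))) r))
 (.c (t 3 1 r)
 (.c (t 3 3 r)
 (.c (t 3 2 r)
 (.c (t 3 1 (u 2 0 (k r r)))
 (.c (u 2 0 (k (u 3 4 (k r (k r (k r (k r r))))) r))
 (.c (c 2 4099 r r)
 (.c (c 2 4099 r (u 3 0 (k (t 7 2 r) r)))
 (.c (c 2 4099 r (t 3 3 v))
 (.c (c 2 4099 r (u 3 0 (k (t 7 2 r) r)))
 (.c (u 2 0 (k (u 4 13 (k r (k (c 2 4080 v (t 3 2 v)) (k r (k r (k r (k r (k (t 8 1 r) (k (t 8 2 (u 12 2 (k r (k (u 3 0 (k v (k v r))) r)))) r))))))))) r))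
 (.c (c 2 4099 r r)
 (.c (t 2 2 r)
 (.c (t 3 2 (u 2 0 (k r r)))
 (.c (u 2 0 (k (u 3 1 (k r (k (c 7 4099 r (u 5 31 (k r (k r (k r r))))) (k (u 5 23 (k r (k r r))) (k (c 5 4099 r (u 7 31 (k r (k r (k r r))))) (k (c 5 4099 r (u 7 31 (k r (k r (k r r))))) (k (c 5 4099 r (u 7 31 (k r (k r (k r r))))) r))))))) r))
 (.c (t 3 1 (u 2 0 (k r r)))
 (.c (u 3 0 (k r r))
 (.c (c 2 4099 r r)
 (.c (u 2 0 (k (u 3 6 (k r (k r (k (t 7 2 r) r)))) r))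
 (.c (c 2 4099 r (u 3 0 (k (t 7 2 r) r)))
 (.c (t 3 1 (u 2 0 (k r r)))
 (.c (c 2 4099 r r)
 (.c (u 2 0 (k (u 3 0 (k r (k (u 5 7 (k r (k r (k r (k (c 13 4099 r r) r))))) r))) r))
 (.c (c 2 4099 r r)
 (.c (c 2 4099 r (u 3 0 (k (t 7 3 r) r)))
 (.c (c 2 4099 r (u 3 1 (k v (k v r))))
 (.c (c 2 4099 r r)
 (.c (u 2 0 (k (u 3 0 (k (u 4 64 (k (u 5 0 (k v (k r r))) (k (u 5 0 (k v (k r r))) (k (c 5 4101 r v) (k (t 12 2 (u 8 40 (k (u 5 0 (k v (k r r))) (k (u 5 0 (k v (k (u 9 7 (k v (k v (k v (k (c 25 4099 r (u 17 1 (k v (k v r)))) r))))) r))) r)))) r))))) r)) r))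
 (.c (u 2 0 (k (u 3 4 (k r (k (c 7 4099 r r) (k (c 7 4099 r (c 2 4099 (t 2 2 v) r)) (k (c 7 4099 r (u 5 5 (k r (k r r)))) (k (u 5 54 (k r (k r (k r r)))) (k (c 7 4096 r (c 2 4099 (t 2 2 v) r)) (k (c 5 4099 r r) r)))))))) r))
 (.c (c 2 4099 r r)
 (.c (u 3 35 (k (u 2 0 (k r r)) (k r (k (u 2 0 (k r r)) (k (u 2 0 (k r r)) r)))))
 (.c (c 2 4099 r r)
 (.c (u 2 0 (k (u 4 73 (k r (k r (k r (k r (k (u 3 6 (k r (k r r))) r)))))) r))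
 (.c (u 3 10 (k (u 2 0 (k r r)) (k (u 2 0 (k (u 4 40 (k v (k v (k v r)))) r)) (k (u 2 0 (k (u 5 43 (k (c 4 4100 r v) (k r (k r r)))) r)) (k (u 2 0 (k (u 5 7 (k (c 4 4100 r v) (k (u 9 8 (k r (k r r))) r))) r)) (k (c 5 4097 r r) (k r r)))))))
 (.c (u 2 0 (k (u 3 1 (k r (k r (k r (k (u 5 0 (k r (k r r))) (k (c 5 4097 r (u 7 0 (k r (k r r)))) (k (c 5 4095 r (u 7 0 (k r (k r r)))) r))))))) r))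
 (.c (t 3 1 (u 2 0 (k r r)))
 (.c (t 3 1 (u 2 0 (k r r)))
 (.c (t 3 1 r)
 (.c (c 2 4099 r (u 3 0 (k r (k r (k r r)))))
 (.c (u 2 0 (k (u 3 0 (k (t 7 2 (u 4 74 (k (u 5 0 (k (c 13 4099 r r) r)) (k (c 2 4094 v (u 5 0 (k (c 13 4099 r r) r))) (k (c 7 4094 v r) (k (t 12 2 (u 8 6 (k (c 12 4094 v (u 5 0 (k (c 13 4099 r r) r))) (k (u 5 0 (k (t 13 2 (u 9 2 (k v (k (c 5 4082 r v) r)))) r)) r)))) r)))))) r)) r))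
 (.c (u 3 0 (k (t 7 1 (u 2 0 (k (u 4 75 (k r (k r (k (u 5 0 (k v (k v r))) (k (t 12 1 (u 8 84 (k (c 12 4099 v r) (k r (k (c 12 4099 v (u 5 123 (k v (k v (k v r))))) (k (t 24 3 (u 16 26 (k (c 40 4099 v (c 12 4099 v r)) (k (c 5 4103 r v) (k (u 5 0 (k v (k v r))) r))))) r)))))) r))))) r))) r))
 (.c (u 2 0 (k (u 3 2 (k r (k r (k r (k (u 4 60 (k v (k v (k (c 12 4099 r r) (k r r))))) r))))) r))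
 (.c (u 2 0 (k (u 3 0 (k (t 5 1 r) (k (t 5 1 r) (k (c 7 4096 r (u 5 1 (k r (k (c 13 4097 r (u 9 0 (k r (k r r)))) r)))) (k (t 5 2 r) (k (t 5 1 r) r)))))) r))
 (.c (t 3 3 (u 2 0 (k r r)))
 (.c (c 2 4099 r (u 3 0 (k (t 7 2 r) r)))
 (.c (c 2 4099 r r)
 (.c (u 2 0 (k (u 3 6 (k r (k (t 7 1 r) (k (t 5 2 r) (k (t 5 1 r) r))))) r))
 (.c (c 2 4099 r r)
 (.c (c 2 4099 r r)
 (.c (c 2 4099 r r)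
 (.c (c 2 4099 r r)
 (.c (t 3 1 (u 2 0 (k r r)))
 (.c (c 2 4099 r r)
 (.c (c 2 4099 r r)
 (.c (c 2 4099 r r)
 (.c (u 2 0 (k (u 3 7 (k r (k (c 7 4099 r (u 5 4 (k r (k r r)))) r))) r))
 (.c (c 2 4099 r r)
 (.c (c 2 4099 r r)
 (.c (t 2 2 (u 3 0 (k (t 7 3 r) r)))
 (.c (c 2 4099 r (u 3 0 (k (t 7 1 r) r)))
 (.c (c 2 4099 r r)
 (.c (c 2 4099 r r)
 (.c (u 2 0 (k (u 4 23 (k r (k r (k r (k r r))))) r))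
 (.c (u 2 0 (k (u 4 9 (k r (k r (k (c 2 4080 v (t 3 2 v)) (k r (k (t 3 3 r) (k (u 8 10 (k r (k (c 16 4097 r r) (k (c 24 4097 r r) (k (c 24 4097 r r) r))))) (k r r)))))))) r))
 (.c (u 3 2 (k (u 2 0 (k r r)) (k (u 2 0 (k r r)) (k (c 7 4099 r (u 2 0 (k (u 5 1 (k r (k r r))) r))) (k (c 5 4095 r r) (k (c 5 4095 r r) r))))))
 (.c (c 2 4099 r r)
 (.c (u 2 0 (k (u 4 6 (k r (k r (k r (k (t 12 2 (u 3 4 (k (u 8 19 (k v (k v (k v r)))) (k r (k r (k (c 12 4094 v (u 8 12 (k r (k r r)))) (k (c 5 4096 r r) (k (c 2 4094 (c 4 4098 r v) (t 5 2 r)) r)))))))) (k (u 3 44 (k r (k r (k r (k (t 7 1 (u 8 26 (k r (k r (k (c 24 4097 r r) (k (c 24 4097 r r) r)))))) r))))) r)))))) r))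
 (.c (u 3 25 (k (u 2 0 (k r r)) (k (u 2 0 (k r r)) (k (c 7 4097 r (u 2 0 (k (u 5 1 (k r (k r r))) r))) (k (c 7 4096 r (u 2 0 (k (u 5 1 (k r (k r r))) r))) (k (c 7 4097 r (u 2 0 (k (u 5 1 (k r (k r r))) r))) r))))))
 (.c (c 2 4099 r r)
 (.c (t 3 1 (u 2 0 (k r r)))
 (.c (u 2 0 (k (u 3 0 (k (u 4 79 (k r (k r (k r (k (u 5 80 (k r (k r (k r (k (c 8 4101 r v) r))))) r))))) r)) r))
 .z))))))))))))))))))))))))))))))))))))))))))))))))))))))))))))))))))))))))))))))))))))))))))))))))))))))))))))))))))))))))))))))))))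

set_option maxRecDepth 100000 in
def R130 : PR :=
 (.t 87 (.c (t 2 1 v)
 (.t 130 (.c (c 2 4097 r (t 3 1 v))
 (.c (t 3 1 (u 2 9 (k v (k v (k (c 6 4097 r r) (k (t 6 2 (u 4 0 (k (t 12 2 (u 8 0 (k (c 24 4099 r (u 16 2 (k v (k (c 8 4084 (u 4 1 (k v (k v r))) v) r)))) r))) r))) (k (c 4 4095 r r) (k (c 4 4095 r (u 6 0 (k v (k v r)))) (k (c 6 4095 r (u 4 1 (k v (k v r)))) (k (c 4 4095 r r) (k (c 4 4095 r (u 6 1 (k v (k v r)))) (k (c 4 4097 r r) r))))))))))))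
 (.c (t 3 3 r)
 (.c (t 3 1 (u 2 31 (k v (k v (k (c 6 4097 r r) (k (c 4 4095 r r) (k (c 4 4095 r (u 6 0 (k v (k v r)))) (k (c 6 4095 r (u 4 1 (k v (k v r)))) (k (c 4 4095 r r) (k (c 4 4095 r (u 6 1 (k v (k v r)))) r))))))))))
 (.t 87 (.c (c 2 4097 r (t 3 3 v))
 (.c (t 3 3 r)
 (.c (c 2 4097 r (t 3 3 v))
 (.c (c 2 4097 r (t 3 1 v))
 (.c (c 2 4097 r (t 3 1 v))
 (.c (t 3 3 r)
 (.t 150 (.c (c 2 4097 r (t 3 1 v))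
 (.t 128 (.t 98 (.c (c 2 4097 r (t 3 1 v))
 (.c (t 3 1 r)
 (.c (u 3 0 (k (u 5 0 (k r (k r r))) r))
 (.c (t 3 1 r)
 (.c (t 2 1 (t 3 3 v))
 (.c (t 3 1 r)
 (.c (u 3 4 (k r (k (c 2 4097 r v) r)))
 (.c (t 3 2 r)
 (.c (t 3 2 r)
 (.c (c 2 4097 r (t 3 3 v))
 (.c (u 3 2 (k r (k (c 2 4097 r (u 5 1 (k v (k v r)))) r)))
 (.c (c 2 4097 r (t 3 1 v))
 (.c (u 2 23 (k (u 3 0 (k (u 5 1 (k v (k v r))) r)) (k (c 3 4097 r v) (k (u 3 0 (k (u 5 4 (k v (k v r))) r)) (k (c 6 4097 r (u 3 0 (k (u 4 442 (k (u 5 1 (k v (k v r))) (k (u 5 1 (k v (k v r))) (k (u 5 3 (k v (k v r))) (k (u 5 4 (k v (k v r))) r))))) r))) (k (c 6 4095 r r) (k (c 4 4095 r r) r)))))))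
 (.c (t 3 2 r)
 (.c (c 2 4097 r (t 3 5 v))
 (.c (c 2 4097 r (t 3 3 v))
 (.t 52 (.c (c 2 4097 r (t 3 3 v))
 (.c (c 2 4097 r r)
 (.t 87 (.c (c 2 4097 r (u 3 0 (k r r)))
 (.t 148 (.c (c 2 4097 r (t 3 1 v))
 (.c (c 2 4097 r (u 3 0 (k (t 7 1 r) r)))
 (.c (c 2 4097 r (t 3 3 v))
 (.t 156 (.t 156 (.t 87 (.c (t 3 2 r)
 (.c (t 3 1 r)
 (.c (u 3 1 (k r (k (u 5 1 (k r (k r r))) (k (c 7 4099 r (u 5 0 (k r (k r r)))) (k (u 5 1 (k r (k r r))) (k (c 7 4097 r (u 5 1 (k r (k r r)))) (k (c 5 4095 r (u 7 1 (k r (k r r)))) r)))))))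
 (.c (t 3 1 r)
 (.c (t 3 1 r)
 (.c (c 2 4097 r r)
 (.c (u 3 2 (k (c 2 4097 r v) (k (c 7 4097 r (u 5 0 (k r (k r r)))) r)))
 (.t 0 (.t 128 (.c (t 3 1 r)
 (.c (c 2 4097 r r)
 (.c (t 2 1 r)
 (.c (u 3 1 (k (u 5 1 (k r (k r r))) (k (u 2 33 (k (c 3 4096 r v) (k r (k r (k (c 4 4097 r r) (k r (k (c 4 4096 r r) (k r (k (c 6 4095 r (u 4 1 (k r (k r r)))) (k (c 4 4097 r (u 6 0 (k r (k r r)))) (k (c 4 4095 r (u 6 1 (k r (k r r)))) (k (c 4 4097 r r) r)))))))))))) (k (c 5 4096 r (u 7 0 (k r (k r r)))) (k (c 7 4096 r r) r)))))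
 (.c (u 2 23 (k r (k (c 3 4095 r v) (k (u 3 1 (k v (k (t 5 1 (t 7 3 v)) r))) (k (c 6 4097 r (u 3 1 (k r (k (t 5 1 r) r)))) (k (c 6 4095 r (u 4 1 (k r (k r r)))) (k (c 4 4095 r (u 6 1 (k r (k r r)))) r)))))))
 (.c (t 3 1 r)
 (.c (t 3 3 r)
 (.c (t 3 2 r)
 (.c (t 3 1 r)
 (.t 98 (.c (c 2 4097 r r)
 (.c (c 2 4097 r (u 3 0 (k (t 7 2 r) r)))
 (.c (c 2 4097 r (t 3 3 v))
 (.c (c 2 4097 r (u 3 0 (k (t 7 2 r) r)))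
 (.t 106 (.c (c 2 4097 r r)
 (.c (t 3 2 r)
 (.c (t 3 2 r)
 (.t 145 (.c (u 3 0 (k (t 7 1 r) r))
 (.c (u 3 0 (k (u 5 0 (k r (k r r))) r))
 (.c (c 2 4097 r r)
 (.c (u 3 1 (k r (k (t 7 2 r) (k (c 2 4097 r (u 5 0 (k r r))) r))))
 (.c (c 2 4097 r (u 3 0 (k (t 7 2 r) r)))
 (.c (t 3 1 r)
 (.c (c 2 4097 r r)
 (.c (u 3 1 (k r (k (u 2 34 (k r (k r (k r (k (c 4 4097 r r) (k (c 4 4096 r r) (k (c 4 4095 r r) (k (c 4 4095 r (u 6 0 (k r (k r r)))) (k (c 6 4095 r (u 4 1 (k r (k r r)))) (k (c 4 4095 r r) (k (c 4 4095 r (u 6 1 (k r (k r r)))) (k (c 4 4097 r r) r)))))))))))) (k (c 7 4096 r (u 5 1 (k r (k r r)))) r))))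
 (.c (c 2 4097 r r)
 (.c (c 2 4097 r (u 3 0 (k (t 7 3 r) r)))
 (.c (c 2 4097 r (u 3 1 (k v (k v r))))
 (.c (c 2 4097 r r)
 (.c (u 3 0 (k (u 5 0 (k r (k (u 2 35 (k r (k r (k r (k (c 6 4097 r r) (k (c 6 4095 r (u 4 1 (k r (k r r)))) (k (c 4 4095 r (u 6 1 (k r (k r r)))) r))))))) r))) r))
 (.c (u 3 29 (k r (k (c 7 4099 r r) (k (c 7 4099 r (c 2 4097 r r)) (k (u 2 15 (k r (k (c 6 4097 r r) (k (c 4 4095 r r) (k (c 4 4095 r (u 6 0 (k r (k r r)))) (k (c 6 4097 r (u 4 1 (k r (k r r)))) (k (c 6 4095 r (u 4 1 (k r (k r r)))) (k (c 4 4095 r r) (k (c 4 4095 r (u 6 1 (k r (k r r)))) r))))))))) (k (c 7 4101 r (u 5 0 (k (t 13 1 (u 9 0 (k (t 17 3 (t 25 3 r)) r))) r))) (k (c 7 4096 r (c 2 4097 r r)) (k (c 5 4099 r r) r))))))))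
 (.c (c 2 4097 r r)
 (.t 124 (.c (c 2 4097 r r)
 (.c (u 2 15 (k r (k (c 6 4097 r r) (k (c 4 4095 r r) (k (c 4 4095 r (u 6 0 (k r (k r r)))) (k (c 6 4097 r (u 4 1 (k r (k r r)))) (k (c 6 4095 r (u 4 1 (k r (k r r)))) (k (c 4 4095 r r) (k (c 4 4095 r (u 6 1 (k r (k r r)))) r)))))))))
 (.t 87 (.c (u 3 4 (k r (k r (k (u 5 1 (k r (k r r))) (k (c 5 4097 r (u 7 0 (k r (k r r)))) (k (c 5 4097 r (u 7 0 (k r (k r r)))) (k (c 5 4096 r (u 7 0 (k r (k r r)))) (k (c 5 4095 r (u 7 0 (k r (k r r)))) r))))))))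
 (.c (t 3 1 r)
 (.c (t 3 1 r)
 (.c (t 3 1 r)
 (.c (c 2 4097 r (u 3 0 (k r (k r (k r r)))))
 (.c (u 3 0 (k (c 7 4099 r (u 5 0 (k (t 13 2 (u 9 2 (k r (k (c 3 4084 (u 8 3 (k v (k v r))) (t 2 1 v)) r)))) r))) r))
 (.c (u 3 0 (k (t 7 1 (u 2 36 (k r (k r (k r (k (c 4 4097 r r) (k (c 4 4099 r r) (k (c 6 4097 r r) (k (c 6 4095 r r) (k (c 4 4099 r r) (k (c 4 4095 r r) (k (c 4 4097 r r) r)))))))))))) r))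
 (.t 98 (.c (u 3 0 (k (t 5 1 (u 7 0 (k (c 15 4101 r (t 11 3 r)) r))) (k (t 5 1 (u 7 0 (k (c 15 4101 r (t 11 3 r)) r))) (k (t 5 1 (u 7 0 (k (c 15 4101 r (t 11 3 r)) r))) (k (t 5 2 (u 7 0 (k (c 15 4101 r (t 11 3 r)) r))) (k (t 5 1 (u 7 0 (k (c 15 4101 r (t 11 3 r)) r))) r))))))
 (.c (u 2 15 (k r (k (c 6 4097 r r) (k (c 4 4095 r r) (k (c 4 4095 r (u 6 0 (k r (k r r)))) (k (c 6 4097 r (u 4 1 (k r (k r r)))) (k (c 6 4095 r (u 4 1 (k r (k r r)))) (k (c 4 4095 r r) (k (c 4 4095 r (u 6 1 (k r (k r r)))) r)))))))))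
 (.c (c 2 4097 r (u 3 0 (k (t 7 2 r) r)))
 (.c (c 2 4097 r r)
 (.c (u 3 0 (k r (k (t 7 1 r) (k (t 5 2 r) (k (t 5 1 r) r)))))
 (.c (c 2 4097 r r)
 (.c (c 2 4097 r r)
 (.c (t 3 1 r)
 (.c (c 2 4097 r r)
 (.c (u 3 0 (k (t 7 2 (u 5 0 (k (c 13 4099 r (u 9 0 (k r (k r (k (c 25 4099 r r) (k (c 2 4097 r r) (k (c 2 4097 r r) (k (u 17 0 (k (u 33 0 (k r (k r r))) r)) (k r (k r r)))))))))) r))) r))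
 (.c (c 2 4097 r r)
 (.c (c 2 4097 r r)
 (.c (c 2 4097 r r)
 (.c (u 2 31 (k (u 3 1 (k r (k r r))) (k r (k (c 6 4097 r r) (k (c 4 4095 r r) (k (c 4 4095 r (u 6 0 (k r (k r r)))) (k (c 6 4095 r (u 4 1 (k r (k r r)))) (k (c 4 4095 r r) (k (c 4 4095 r (u 6 1 (k r (k r r)))) r)))))))))
 (.c (c 2 4097 r r)
 (.c (c 2 4097 r r)
 (.c (t 2 1 (u 3 0 (k (t 7 3 r) r)))
 (.c (c 2 4097 r (u 3 0 (k (t 7 1 r) r)))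
 (.c (c 2 4097 r r)
 (.c (c 2 4097 r r)
 (.t 104 (.t 156 (.t 160 (.c (c 2 4097 r r)
 (.c (u 2 15 (k r (k (c 4 4097 r r) (k (c 4 4095 r r) (k (c 4 4095 r (u 6 0 (k r (k r r)))) (k (c 6 4097 r (u 4 1 (k r (k r r)))) (k (c 6 4095 r (u 4 1 (k r (k r r)))) (k (c 4 4095 r r) (k (c 4 4095 r (u 6 1 (k r (k r r)))) r)))))))))
 (.c (u 3 1 (k r (k (c 7 4097 r (u 5 1 (k r (k r r)))) (k (c 7 4096 r (u 5 1 (k r (k r r)))) (k (c 5 4098 r (u 7 0 (k r (k r r)))) (k (c 7 4096 r (u 5 1 (k r (k r r)))) (k (c 7 4097 r (u 5 1 (k r (k r r)))) (k (c 7 4097 r (u 5 1 (k r (k r r)))) (k (c 7 4096 r (u 5 1 (k r (k r r)))) (k (c 7 4099 r (u 5 1 (k r (k r r)))) (k (c 5 4097 r (u 7 1 (k r (k r r)))) r)))))))))))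
 (.c (c 2 4097 r r)
 (.c (t 3 1 r)
 (.c (u 3 0 (k (u 2 37 (k r (k r (k r (k (c 6 4097 r r) (k (c 4 4096 r r) (k (c 4 4095 r r) (k (c 4 4095 r (u 6 0 (k r (k r r)))) (k (c 6 4095 r (u 4 1 (k r (k r r)))) (k (c 4 4095 r r) (k (c 4 4095 r (u 6 1 (k r (k r r)))) (k (c 4 4097 r r) r)))))))))))) r))
 (.c (u 2 25 (k r (k r (k r (k (c 4 4097 r r) (k (c 6 4099 r r) (k (c 4 4096 r r) (k (c 6 4097 r r) (k (c 6 4097 r r) (k (c 4 4095 r (u 6 0 (k r (k r r)))) (k (c 4 4099 r r) (k (c 6 4095 r (u 4 1 (k r (k r r)))) (k (c 4 4097 r (u 6 0 (k r (k r r)))) (k (c 6 4097 r r) (k (c 4 4095 r (u 6 1 (k r (k r r)))) (k (c 4 4097 r r) r))))))))))))))))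
 .z)))))))))))))))))))))))))))))))))))))))))))))))))))))))))))))))))))))))))))))))))))))))))))))))))))))))))))))))))))))))))))))))))))

set_option maxRecDepth 100000 in
def R131 : PR :=
 (.c r
 (.c r
 (.t 98 (.c (c 2 4097 r (t 3 1 v))
 (.c (t 3 1 (u 2 0 (k (t 4 2 r) r)))
 (.c (c 3 4100 r r)
 (.c (c 3 4100 r r)
 (.c (c 3 4099 r r)
 (.c (c 2 4097 r (t 3 3 v))
 (.c (c 3 4099 r r)
 (.c (c 2 4097 r (t 3 3 v))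
 (.c (c 2 4097 r (t 3 1 v))
 (.c (c 2 4097 r (t 3 1 v))
 (.c (t 3 3 r)
 (.c (t 3 3 r)
 (.c (c 2 4097 r (t 3 1 v))
 (.c (c 3 4097 r r)
 (.c (c 3 4097 r r)
 (.c (c 2 4097 r (t 3 1 v))
 (.c (t 3 1 (u 2 0 (k (c 6 4097 r (u 4 0 (k v (k v r)))) r)))
 (.c (c 3 4096 r r)
 (.c (c 3 4095 r r)
 (.c (c 3 4099 r r)
 (.c (t 3 1 (u 2 0 (k (t 4 2 r) r)))
 (.c (u 3 4 (k (u 2 0 (k (t 4 2 r) r)) (k (c 2 4097 r v) r)))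
 (.c (c 3 4098 r r)
 (.c (c 3 4098 r r)
 (.c (c 2 4097 r (t 3 3 v))
 (.c (c 3 4097 r r)
 (.c (c 2 4097 r (t 3 1 v))
 (.c (c 3 4097 r r)
 (.c (c 3 4097 r r)
 (.c (c 2 4097 r (t 3 5 v))
 (.c (c 2 4097 r (t 3 3 v))
 (.c (c 3 4096 r r)
 (.c (c 2 4097 r (t 3 3 v))
 (.c (c 2 4097 r r)
 (.c (c 3 4096 r r)
 (.c (c 2 4097 r (u 3 0 (k r r)))
 (.c (u 2 0 (k (t 6 1 r) r))
 (.c (c 2 4097 r (t 3 1 v))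
 (.c (c 2 4097 r (u 3 0 (k (t 7 1 r) r)))
 (.c (c 2 4097 r (t 3 3 v))
 (.c (c 3 4100 r r)
 (.c (c 3 4100 r r)
 (.c (c 3 4100 r r)
 (.c (t 3 2 (u 2 0 (k (c 6 4097 r (u 4 0 (k v (k v r)))) r)))
 (.c (t 3 1 (u 2 0 (k (c 6 4097 r (u 4 0 (k v (k v r)))) r)))
 (.c (c 3 4099 r r)
 (.c (c 3 4098 r r)
 (.c (c 3 4098 r r)
 (.c (c 2 4097 r r)
 (.c (c 3 4097 r r)
 (.c (c 3 4097 r r)
 (.c (c 3 4097 r r)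
 (.c (c 3 4097 r r)
 (.c (c 2 4097 r r)
 (.c (c 3 4096 r r)
 (.c (c 3 4096 r r)
 (.c (c 3 4095 r r)
 (.c (c 3 4095 r r)
 (.c (c 3 4098 r r)
 (.c (c 3 4095 r r)
 (.c (t 3 1 (u 2 0 (k (c 6 4097 r (u 4 0 (k v (k v r)))) r)))
 (.c (c 3 4095 r r)
 (.c (c 2 4097 r r)
 (.c (c 2 4097 r (u 3 0 (k (t 7 2 r) r)))
 (.c (c 2 4097 r (t 3 3 v))
 (.c (c 2 4097 r (u 3 0 (k (t 7 2 r) r)))
 (.c (t 2 3 r)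
 (.c (c 3 4099 r r)
 (.c (c 3 4099 r r)
 (.c (c 3 4102 r r)
 (.c (u 2 0 (k (t 6 1 r) r))
 (.c (c 3 4099 r r)
 (.c (c 3 4102 r r)
 (.c (c 2 4097 r r)
 (.c (u 3 27 (k r (k (c 2 4097 r (u 5 0 (k r r))) r)))
 (.c (c 2 4097 r (u 3 0 (k (t 7 2 r) r)))
 (.c (c 3 4095 r r)
 (.c (c 2 4097 r r)
 (.c (c 3 4101 r r)
 (.c (c 2 4097 r r)
 (.c (c 3 4097 r r)
 (.c (c 3 4100 r r)
 (.c (c 2 4097 r r)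
 (.c (c 3 4100 r r)
 (.c (c 3 4099 r r)
 (.c (c 2 4097 r r)
 (.c (c 3 4099 r r)
 (.c (c 3 4095 r r)
 (.c (c 3 4098 r r)
 (.c (c 3 4098 r r)
 (.c (c 3 4098 r r)
 (.c (c 3 4097 r r)
 (.c (c 3 4096 r r)
 (.c (c 3 4096 r r)
 (.c (c 3 4095 r r)
 (.c (c 3 4095 r r)
 (.c (c 3 4095 r r)
 (.c (c 3 4095 r r)
 (.c (c 3 4100 r r)
 (.c (c 3 4100 r r)
 (.c (c 2 4097 r (u 3 0 (k (t 7 2 r) r)))
 (.c (c 3 4099 r r)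
 (.c (t 2 3 r)
 (.c (c 2 4097 r r)
 (.c (c 2 4097 r r)
 (.c (c 2 4097 r r)
 (.c (c 2 4097 r r)
 (.c (t 3 6 r)
 (.c (c 3 4097 r r)
 (.c (c 3 4100 r r)
 (.c (c 3 4100 r r)
 (.c (c 3 4097 r r)
 (.c (c 3 4100 r r)
 (.c (c 3 4096 r r)
 (.c (c 3 4096 r r)
 (.c (c 2 4097 r (u 3 0 (k (t 7 1 r) r)))
 (.c (c 2 4097 r r)
 (.c (c 2 4097 r r)
 (.c (t 2 3 r)
 (.c (t 3 3 r)
 (.c (u 2 0 (k (t 6 1 r) r))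
 (.c (c 3 4097 r r)
 (.c (c 3 4100 r r)
 (.c (c 3 4099 r r)
 (.c (c 3 4096 r r)
 (.c (t 3 1 (u 2 0 (k (c 6 4097 r (u 4 0 (k v (k v r)))) r)))
 (.c (c 3 4099 r r)
 (.c (c 3 4097 r r)
 (.c (c 3 4097 r r)
 .z))))))))))))))))))))))))))))))))))))))))))))))))))))))))))))))))))))))))))))))))))))))))))))))))))))))))))))))))))))))))))))))))))))

set_option maxRecDepth 100000 in
def R132 : PR :=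
 (.t 92 (.c (t 2 1 v)
 (.t 87 (.c (c 2 4097 r (t 3 1 v))
 (.c (t 2 1 (t 3 1 v))
 (.c (t 2 1 (t 3 3 v))
 (.c (t 2 1 (t 3 2 v))
 (.c (t 3 1 (u 2 0 (k (t 6 1 r) (k (c 3 4099 v (t 6 1 (u 4 0 (k r r)))) (k (t 6 1 r) (k (c 3 4099 v (t 6 1 r)) r))))))
 (.c (c 2 4097 r (t 3 3 v))
 (.c (t 2 1 (t 3 3 v))
 (.c (c 2 4097 r (t 3 3 v))
 (.c (c 2 4097 r (t 3 1 v))
 (.c (c 2 4097 r (t 3 1 v))
 (.c (t 2 1 (t 3 3 v))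
 (.c (t 2 1 (t 3 3 v))
 (.c (c 2 4097 r (t 3 1 v))
 (.c (u 3 0 (k r (k r r)))
 (.c (t 2 1 r)
 (.c (c 2 4097 r (t 3 1 v))
 (.c (t 3 3 r)
 (.c (t 2 1 (u 3 0 (k (u 5 0 (k v (k v r))) r)))
 (.t 92 (.c (t 2 1 (t 3 3 v))
 (.c (t 2 1 (t 3 3 v))
 (.c (t 2 1 (u 3 3 (k v (k v r))))
 (.c (t 2 1 (t 3 1 v))
 (.c (t 2 1 (t 3 1 v))
 (.c (c 2 4097 r (t 3 3 v))
 (.c (t 2 1 r)
 (.c (c 2 4097 r (t 3 1 v))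
 (.c (t 2 1 (u 3 0 (k (u 5 1 (k v (k v r))) r)))
 (.c (t 2 1 (t 3 2 v))
 (.c (c 2 4097 r (t 3 5 v))
 (.c (c 2 4097 r (t 3 3 v))
 (.c (t 2 1 (u 3 0 (k (t 5 3 (t 7 1 v)) r)))
 (.c (c 2 4097 r (t 3 3 v))
 (.c (c 2 4097 r r)
 (.c (u 3 2 (k r (k r (k (t 2 1 v) (k (t 7 1 (u 2 2 (k r (k (t 6 1 (u 4 5 (k (u 5 0 (k (t 9 3 (t 13 1 v)) r)) (k (c 12 4097 r r) (k (c 12 4096 r r) (k (c 8 4098 r r) (k (c 12 4096 r r) (k (c 12 4097 r r) (k (c 12 4097 r r) (k (c 12 4096 r r) (k (c 8 4097 r r) r))))))))))) (k (c 3 4096 (c 2 4098 r v) (t 6 1 r)) r))))) r)))))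
 (.c (c 2 4097 r (u 3 0 (k r r)))
 (.c (t 2 1 r)
 (.c (c 2 4097 r (t 3 1 v))
 (.c (c 2 4097 r (u 3 0 (k (t 7 1 r) r)))
 (.c (c 2 4097 r (t 3 3 v))
 (.c (t 3 6 r)
 (.c (t 2 1 r)
 (.c (t 2 1 r)
 (.c (t 3 3 r)
 (.c (u 3 4 (k r (k (t 7 1 (u 5 2 (k (c 2 4097 r v) (k r r)))) r)))
 (.c (t 2 1 r)
 (.c (t 2 1 (t 3 3 v))
 (.c (t 2 1 r)
 (.c (c 2 4097 r r)
 (.c (t 2 1 r)
 (.c (t 3 1 (u 2 3 (k v (k (t 6 1 r) r))))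
 (.c (u 2 0 (k (t 6 1 r) (k (c 3 4097 r (t 6 1 (u 4 0 (k r r)))) (k (t 6 1 r) (k (c 3 4097 r (t 6 1 r)) r)))))
 (.c (u 3 0 (k (t 7 1 (u 5 25 (k r (k r (k r (k (c 2 4097 r r) (k (c 2 4097 r r) (k (c 13 4097 r (c 2 4097 r r)) r)))))))) (k (t 7 1 (u 5 23 (k r (k r (k (c 2 4097 r v) (k (c 2 4097 r r) r)))))) r)))
 (.c (c 2 4097 r r)
 (.c (t 2 1 r)
 (.c (t 2 1 r)
 (.t 92 (.c (t 2 1 (t 3 5 v))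
 (.c (t 2 1 (t 3 3 v))
 (.c (t 2 1 (t 3 2 v))
 (.c (u 3 0 (k (t 7 1 (u 5 2 (k (c 2 4097 r v) (k (c 13 4097 r (u 2 4 (k (c 3 4094 r v) (k (t 6 1 (u 4 0 (k (u 9 0 (k v (k v r))) (k (u 9 0 (k v (k v r))) (k (c 12 4097 r r) (k (c 12 4096 r r) (k (c 12 4097 r r) (k (c 12 4099 r r) r)))))))) r)))) r)))) r))
 (.c (u 3 5 (k r (k r r)))
 (.c (c 2 4097 r r)
 (.c (c 2 4097 r (u 3 0 (k (t 7 2 r) r)))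
 (.c (c 2 4097 r (t 3 3 v))
 (.c (c 2 4097 r (u 3 0 (k (t 7 2 r) r)))
 (.c (t 2 1 r)
 (.c (c 2 4097 r r)
 (.c (t 2 1 r)
 (.c (t 2 1 (t 3 2 v))
 (.c (t 2 1 r)
 (.c (t 3 1 r)
 (.c (t 2 1 (u 3 0 (k (u 5 0 (k v (k v r))) r)))
 (.c (c 2 4097 r r)
 (.c (u 3 4 (k r (k r r)))
 (.c (c 2 4097 r (u 3 0 (k (t 7 2 r) r)))
 (.c (t 2 1 r)
 (.c (c 2 4097 r r)
 (.c (t 2 1 r)
 (.c (c 2 4097 r r)
 (.c (c 2 4097 r (u 3 0 (k (t 7 3 r) r)))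
 (.c (c 2 4097 r (u 3 1 (k v (k v r))))
 (.c (c 2 4097 r r)
 (.c (t 2 1 (u 3 0 (k (u 5 0 (k v (k r r))) r)))
 (.c (t 2 1 r)
 (.c (c 2 4097 r r)
 (.c (u 3 1 (k r (k r r)))
 (.c (c 2 4097 r r)
 (.c (t 2 1 r)
 (.c (t 2 1 r)
 (.c (t 2 1 r)
 (.t 92 (.c (u 2 5 (k (c 3 4096 r v) (k (u 3 0 (k (t 7 1 r) r)) (k (t 6 1 (u 4 16 (k (u 3 0 (k (t 7 1 r) r)) (k (c 12 4097 r r) (k (c 12 4096 r r) (k (c 12 4097 r r) r)))))) r))))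
 (.c (t 2 1 (t 3 1 v))
 (.c (c 2 4097 r (u 3 0 (k r (k r (k r r)))))
 (.c (t 2 1 r)
 (.c (t 2 1 r)
 (.c (u 2 4 (k (c 3 4095 r v) (k (t 6 1 (u 3 1 (k r (k r (k r (k (t 7 1 (u 5 6 (k r (k (c 13 4099 r (u 9 25 (k r (k r r)))) r)))) r)))))) r)))
 (.c (t 2 1 r)
 (.c (t 2 1 r)
 (.c (c 2 4097 r (u 3 0 (k (t 7 2 r) r)))
 (.c (c 2 4097 r r)
 (.c (t 2 1 r)
 (.c (c 2 4097 r r)
 (.c (c 2 4097 r r)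
 (.c (c 2 4097 r r)
 (.c (c 2 4097 r r)
 (.c (t 3 6 r)
 (.c (c 2 4097 r r)
 (.c (c 2 4097 r r)
 (.c (c 2 4097 r r)
 (.c (t 2 1 r)
 (.c (c 2 4097 r r)
 (.c (c 2 4097 r r)
 (.c (t 2 1 (u 3 0 (k (c 5 4095 r (t 7 3 v)) r)))
 (.c (c 2 4097 r (u 3 0 (k (t 7 1 r) r)))
 (.c (c 2 4097 r r)
 (.c (c 2 4097 r r)
 (.c (t 2 1 r)
 (.c (t 2 1 r)
 (.c (t 2 1 r)
 (.c (c 2 4097 r r)
 (.c (t 2 1 r)
 (.c (t 2 1 r)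
 (.c (c 2 4097 r r)
 (.c (u 3 3 (k r (k (t 7 1 (u 5 33 (k r (k r (k r r))))) (k (c 2 4097 r (t 7 1 r)) r))))
 (.c (t 2 1 (u 3 0 (k r r)))
 (.c (t 2 1 r)
 (.c (c 2 4097 r r)
 (.c (u 2 1 (k r (k (t 6 1 (u 4 16 (k r (k (c 12 4097 r (u 8 0 (k r (k r r)))) (k (c 12 4096 r (u 8 0 (k r (k r r)))) (k (c 12 4097 r (u 8 0 (k r (k r r)))) r)))))) (k (t 6 1 (u 3 6 (k r (k (c 3 4094 v (t 4 1 v)) (k (t 7 1 (u 5 16 (k r (k (c 13 4097 r (u 9 36 (k r (k r (k r r))))) (k (c 13 4096 r (u 9 36 (k r (k r (k r r))))) (k (c 13 4097 r (u 9 36 (k r (k r (k r r))))) r)))))) r))))) r))))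
 .z)))))))))))))))))))))))))))))))))))))))))))))))))))))))))))))))))))))))))))))))))))))))))))))))))))))))))))))))))))))))))))))))))))))

set_option maxRecDepth 100000 in
def R133 : PR :=
 (.c r
 (.c r
 (.c (c 2 4096 r (t 3 1 v))
 (.c (c 2 4096 r (t 3 1 v))
 (.c (c 3 4101 r r)
 (.c (c 3 4100 r r)
 (.c (c 3 4100 r r)
 (.c (c 3 4099 r r)
 (.c (c 2 4096 r (t 3 3 v))
 (.c (c 3 4099 r r)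
 (.c (c 2 4096 r (t 3 3 v))
 (.c (c 2 4096 r (t 3 1 v))
 (.c (c 2 4096 r (t 3 1 v))
 (.c (t 3 2 r)
 (.c (t 3 2 r)
 (.c (c 2 4096 r (t 3 1 v))
 (.c (c 3 4097 r r)
 (.c (c 3 4097 r r)
 (.c (c 2 4096 r (t 3 1 v))
 (.c (t 3 1 (u 2 0 (k (c 6 4097 r r) r)))
 (.c (c 3 4096 r r)
 (.c (c 2 4096 r (t 3 1 v))
 (.c (c 3 4099 r r)
 (.c (c 3 4104 r r)
 (.c (u 2 0 (k (c 6 4097 r r) r))
 (.c (c 3 4098 r r)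
 (.c (c 3 4098 r r)
 (.c (c 2 4096 r (t 3 3 v))
 (.c (c 3 4097 r r)
 (.c (c 2 4096 r (t 3 1 v))
 (.c (c 3 4097 r r)
 (.c (c 3 4097 r r)
 (.c (c 2 4096 r (t 3 5 v))
 (.c (c 2 4096 r (t 3 3 v))
 (.c (c 3 4096 r r)
 (.c (c 2 4096 r (t 3 3 v))
 (.c (c 2 4096 r r)
 (.c (c 3 4096 r r)
 (.c (c 2 4096 r (u 3 0 (k r r)))
 (.c (c 3 4101 r r)
 (.c (c 2 4096 r (t 3 1 v))
 (.c (c 2 4096 r (u 3 0 (k (t 7 1 r) r)))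
 (.c (c 2 4096 r (t 3 3 v))
 (.c (c 3 4100 r r)
 (.c (c 3 4100 r r)
 (.c (c 3 4100 r r)
 (.c (t 3 2 (u 2 0 (k (c 6 4097 r r) r)))
 (.c (t 3 1 (u 2 0 (k (c 6 4097 r r) r)))
 (.c (c 3 4099 r r)
 (.c (c 3 4098 r r)
 (.c (c 3 4098 r r)
 (.c (c 2 4096 r r)
 (.c (c 3 4097 r r)
 (.c (c 2 4096 r (t 3 1 v))
 (.c (c 3 4097 r r)
 (.c (c 3 4097 r r)
 (.c (c 2 4096 r r)
 (.c (c 3 4096 r r)
 (.c (c 3 4096 r r)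
 (.c (c 3 4095 r r)
 (.c (c 3 4095 r r)
 (.c (c 3 4098 r r)
 (.c (c 2 4096 r r)
 (.c (c 2 4096 r (t 3 1 v))
 (.c (c 3 4095 r r)
 (.c (c 2 4096 r r)
 (.c (c 2 4096 r (u 3 0 (k (t 7 2 r) r)))
 (.c (c 2 4096 r (t 3 3 v))
 (.c (c 2 4096 r (u 3 0 (k (t 7 2 r) r)))
 (.c (u 3 0 (k r (k (c 3 4094 v r) r)))
 (.c (c 3 4099 r r)
 (.c (c 3 4099 r r)
 (.c (c 3 4102 r r)
 (.c (c 3 4102 r r)
 (.c (c 3 4099 r r)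
 (.c (c 3 4102 r r)
 (.c (c 2 4096 r r)
 (.c (c 2 4096 r r)
 (.c (c 2 4096 r (u 3 0 (k (t 7 2 r) r)))
 (.c (t 3 1 (c 3 4092 v r))
 (.c (c 2 4096 r r)
 (.c (c 3 4101 r r)
 (.c (c 2 4096 r r)
 (.c (c 3 4097 r r)
 (.c (c 3 4100 r r)
 (.c (c 3 4100 r r)
 (.c (c 3 4100 r r)
 (.c (c 3 4099 r r)
 (.c (c 2 4096 r r)
 (.c (c 3 4099 r r)
 (.c (c 2 4096 r r)
 (.c (c 3 4098 r r)
 (.c (c 3 4098 r r)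
 (.c (c 3 4098 r r)
 (.c (c 3 4097 r r)
 (.c (c 3 4096 r r)
 (.c (c 3 4096 r r)
 (.c (c 2 4096 r (u 3 0 (k r (k r (k r r)))))
 (.c (c 2 4096 r (u 3 0 (k (t 7 2 (u 5 0 (k (c 13 4099 r r) r))) r)))
 (.c (c 3 4095 r r)
 (.c (c 3 4095 r r)
 (.c (c 3 4100 r r)
 (.c (c 3 4100 r r)
 (.c (c 2 4096 r (u 3 0 (k (t 7 2 r) r)))
 (.c (c 3 4099 r r)
 (.c (t 3 3 r)
 (.c (c 2 4096 r r)
 (.c (c 2 4096 r r)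
 (.c (c 2 4096 r r)
 (.c (c 2 4096 r r)
 (.c (c 3 4104 r r)
 (.c (c 2 4096 r r)
 (.c (c 2 4096 r r)
 (.c (c 3 4100 r r)
 (.c (c 3 4097 r r)
 (.c (c 3 4100 r r)
 (.c (c 3 4096 r r)
 (.c (c 3 4096 r r)
 (.c (c 3 4102 r r)
 (.c (c 2 4096 r r)
 (.c (c 3 4102 r r)
 (.c (c 3 4101 r r)
 (.c (c 3 4101 r r)
 (.c (c 3 4101 r r)
 (.c (c 2 4096 r r)
 (.c (c 3 4100 r r)
 (.c (c 3 4099 r r)
 (.c (c 3 4096 r r)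
 (.c (c 3 4099 r r)
 (.c (c 3 4099 r r)
 (.c (c 3 4097 r r)
 (.c (c 2 4096 r r)
 (.c (t 3 1 (u 2 0 (k (c 6 4097 r r) r)))
 (.c (c 2 4096 r r)
 .z))))))))))))))))))))))))))))))))))))))))))))))))))))))))))))))))))))))))))))))))))))))))))))))))))))))))))))))))))))))))))))))))))))))

end Pool.Agent.Helper91.ND1
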