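import Pool.Agent.Helper91.VD1.DT
import Pool.Agent.Helper91.ND1.LA
import Pool.Agent.Helper91.ND1.LT
import Pool.Agent.Helper91.NF.Fast
import Pool.Agent.Helper91.ND1.LR5

/-! part of the certificate for the constant 25/48 (generated) -/

namespace Pool.Agent.Helper91.ND1

open Pool.Agent.Helper66.IL
open Pool.Agent.Helper66.ML
open Pool.Agent.Helper66.ND
open Pool.Agent.Helper91.NF
open Pool.Agent.Helper91.VZ
open Pool.Agent.Helper91.VD1 (DT)

theorem okR123 : rof A NN (vx DT) 167 123 R123 0 = true := by decide +kernel

theorem okR124 : rof A NN (vx DT) 167 124 R124 0 = true := by decide +kernel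

theorem okR125 : rof A NN (vx DT) 167 125 R125 0 = true := by decide +kernel

theorem okR126 : rof A NN (vx DT) 167 126 R126 0 = true := by decide +kernel

theorem okR127 : rof A NN (vx DT) 167 127 R127 0 = true := by decide +kernel

theorem okR128 : rof A NN (vx DT) 167 128 R128 0 = true := by decide +kernel

theorem okR129 : rof A NN (vx DT) 167 129 R129 0 = true := by decide +kernel

theorem okR130 : rof A NN (vx DT) 167 130 R130 0 = true := by decide +kernel

theorem okR131 : rof A NN (vx DT) 167 131 R131 0 = true := by decide +kernel

theorem okR132 : rof A NN (vx DT) 167 132 R132 0 = true := by decide +kernel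

theorem okR133 : rof A NN (vx DT) 167 133 R133 0 = true := by decide +kernel

end Pool.Agent.Helper91.ND1
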