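import Pool.Agent.Helper66.ND.Defs

/-! part of the certificate for the constant 25/48 (generated) -/

namespace Pool.Agent.Helper91.ND1

open Pool.Agent.Helper66.IL
open Pool.Agent.Helper66.ND
open Pool.Agent.Helper66.ND.LT
open Pool.Agent.Helper66.ND.Ct

set_option maxRecDepth 100000 in
def R134 : PR :=
 (.c r
 (.c r
 (.c (c 2 4096 r (t 3 1 v))
 (.c (c 2 4096 r (t 3 1 v))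
 (.c (t 2 3 (t 3 1 v))
 (.c (c 3 4100 r r)
 (.c (t 3 4 (u 2 0 (k (t 6 2 (u 4 0 (k (c 12 4101 r r) r))) r)))
 (.c (c 3 4099 r r)
 (.c (c 2 4096 r (t 3 3 v))
 (.c (c 3 4099 r r)
 (.c (c 2 4096 r (t 3 3 v))
 (.c (c 2 4096 r (t 3 1 v))
 (.c (c 2 4096 r (t 3 1 v))
 (.c (t 3 2 (u 2 0 (k (t 6 2 (u 4 0 (k (c 12 4101 r r) r))) r)))
 (.c (t 3 2 (u 2 0 (k (t 6 2 (u 4 0 (k (c 12 4101 r r) r))) r)))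
 (.c (c 2 4096 r (t 3 1 v))
 (.c (c 3 4097 r r)
 (.c (c 3 4097 r r)
 (.c (c 2 4096 r (t 3 1 v))
 (.c (t 3 1 (u 2 0 (k (c 4 4095 r (t 6 3 v)) r)))
 (.c (c 3 4096 r r)
 (.c (c 2 4096 r (t 3 1 v))
 (.c (c 3 4099 r r)
 (.c (t 2 3 (t 3 1 v))
 (.c (t 2 3 (u 3 4 (k v (k v r))))
 (.c (c 3 4098 r r)
 (.c (c 3 4098 r r)
 (.c (c 2 4096 r (t 3 3 v))
 (.c (c 3 4097 r r)
 (.c (c 2 4096 r (t 3 1 v))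
 (.c (c 3 4097 r r)
 (.c (c 3 4097 r r)
 (.c (c 2 4096 r (t 3 5 v))
 (.c (c 2 4096 r (t 3 3 v))
 (.c (c 3 4096 r r)
 (.c (c 2 4096 r (t 3 3 v))
 (.c (c 2 4096 r r)
 (.c (c 3 4096 r r)
 (.c (c 2 4096 r (u 3 0 (k r r)))
 (.c (t 3 1 (u 2 0 (k (t 6 2 (u 4 0 (k (c 12 4101 r r) r))) r)))
 (.c (c 2 4096 r (t 3 1 v))
 (.c (c 2 4096 r (u 3 0 (k (t 7 1 r) r)))
 (.c (c 2 4096 r (t 3 3 v))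
 (.c (c 3 4100 r r)
 (.c (t 2 3 r)
 (.c (c 3 4100 r r)
 (.c (t 3 2 (u 2 0 (k (c 4 4095 r (t 6 3 v)) r)))
 (.c (t 3 1 (u 2 0 (k (c 4 4095 r (t 6 3 v)) r)))
 (.c (c 3 4099 r r)
 (.c (c 3 4098 r r)
 (.c (c 3 4098 r r)
 (.c (c 2 4096 r r)
 (.c (c 3 4097 r r)
 (.c (c 2 4096 r (t 3 1 v))
 (.c (c 3 4097 r r)
 (.c (c 3 4097 r r)
 (.c (c 2 4096 r r)
 (.c (c 3 4096 r r)
 (.c (c 3 4096 r r)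
 (.c (c 3 4095 r r)
 (.c (c 3 4095 r r)
 (.c (c 2 4096 r r)
 (.c (c 3 4095 r r)
 (.c (c 2 4096 r (t 3 1 v))
 (.c (c 3 4095 r r)
 (.c (c 2 4096 r r)
 (.c (c 2 4096 r (u 3 0 (k (t 7 2 r) r)))
 (.c (c 2 4096 r (t 3 3 v))
 (.c (c 2 4096 r (u 3 0 (k (t 7 2 r) r)))
 (.c (t 2 1 r)
 (.c (c 3 4099 r r)
 (.c (c 3 4099 r r)
 (.c (t 3 8 (u 2 0 (k (t 6 2 (u 4 0 (k (c 12 4101 r r) r))) r)))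
 (.c (t 3 1 (u 2 0 (k (t 6 2 (u 4 0 (k (c 12 4101 r r) r))) r)))
 (.c (c 3 4099 r r)
 (.c (t 3 2 (u 2 0 (k (t 6 2 (u 4 0 (k (c 12 4101 r r) r))) r)))
 (.c (c 2 4096 r r)
 (.c (c 2 4096 r r)
 (.c (c 2 4096 r (u 3 0 (k (t 7 2 r) r)))
 (.c (c 3 4095 r r)
 (.c (c 2 4096 r r)
 (.c (c 3 4101 r r)
 (.c (c 2 4096 r r)
 (.c (c 2 4096 r (u 3 0 (k (t 7 3 r) r)))
 (.c (c 2 4096 r (u 3 1 (k v (k v r))))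
 (.c (c 2 4096 r r)
 (.c (c 3 4100 r r)
 (.c (c 3 4099 r r)
 (.c (c 2 4096 r r)
 (.c (c 3 4099 r r)
 (.c (c 3 4095 r r)
 (.c (c 3 4098 r r)
 (.c (c 3 4098 r r)
 (.c (c 3 4098 r r)
 (.c (c 3 4097 r r)
 (.c (c 3 4096 r r)
 (.c (c 3 4096 r r)
 (.c (c 2 4096 r (u 3 0 (k r (k r (k r r)))))
 (.c (c 2 4096 r (u 3 0 (k (t 7 2 (u 5 0 (k (c 13 4099 r r) r))) r)))
 (.c (c 3 4095 r r)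
 (.c (c 3 4095 r r)
 (.c (t 3 4 (u 2 0 (k (t 6 2 (u 4 0 (k (c 12 4101 r r) r))) r)))
 (.c (t 3 2 (u 2 0 (k (t 6 2 (u 4 0 (k (c 12 4101 r r) r))) r)))
 (.c (c 2 4096 r (u 3 0 (k (t 7 2 r) r)))
 (.c (c 3 4099 r r)
 (.c (t 2 1 r)
 (.c (c 2 4096 r r)
 (.c (c 2 4096 r r)
 (.c (c 2 4096 r r)
 (.c (c 2 4096 r r)
 (.c (t 3 4 (u 2 0 (k (t 6 2 (u 4 0 (k (c 12 4101 r r) r))) r)))
 (.c (c 2 4096 r r)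
 (.c (c 2 4096 r r)
 (.c (c 2 4096 r r)
 (.c (c 3 4097 r r)
 (.c (c 3 4100 r r)
 (.c (c 3 4096 r r)
 (.c (c 3 4096 r r)
 (.c (c 2 4096 r (u 3 0 (k (t 7 1 r) r)))
 (.c (c 2 4096 r r)
 (.c (c 2 4096 r r)
 (.c (t 3 2 (u 2 0 (k (t 6 2 (u 4 0 (k (c 12 4101 r r) r))) r)))
 (.c (t 3 2 (u 2 0 (k (t 6 2 (u 4 0 (k (c 12 4101 r r) r))) r)))
 (.c (t 3 2 (u 2 0 (k (t 6 2 (u 4 0 (k (c 12 4101 r r) r))) r)))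
 (.c (c 2 4096 r r)
 (.c (t 3 2 (u 2 0 (k (t 6 2 (u 4 0 (k (c 12 4101 r r) r))) r)))
 (.c (c 3 4099 r r)
 (.c (c 2 4096 r r)
 (.c (c 3 4099 r r)
 (.c (c 3 4099 r r)
 (.c (c 3 4097 r r)
 (.c (c 2 4096 r r)
 (.c (c 3 4097 r r)
 (.c (c 3 4096 r r)
 (.c (c 3 4096 r r)
 .z)))))))))))))))))))))))))))))))))))))))))))))))))))))))))))))))))))))))))))))))))))))))))))))))))))))))))))))))))))))))))))))))))))))))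

set_option maxRecDepth 100000 in
def R135 : PR :=
 (.c r
 (.c r
 (.c (t 3 1 r)
 (.c (t 3 1 r)
 (.c (t 3 1 r)
 (.c (t 3 3 r)
 (.c (t 3 1 (u 2 7 (k v (k (t 6 1 r) (k (t 6 1 r) (k (t 4 2 r) (k (t 4 2 r) (k (t 4 1 r) r))))))))
 (.c (t 3 1 (u 2 0 (k (u 6 1 (k (c 3 4099 v r) (k r r))) (k r (k (t 6 1 (c 3 4099 v r)) (k (t 6 1 (c 3 4099 v r)) (k (t 6 1 r) (k (c 3 4099 v (t 6 1 r)) (k r (k r r))))))))))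
 (.c (c 2 4101 r (t 3 3 v))
 (.c (t 3 3 (u 2 8 (k v (k (t 6 1 r) (k (t 4 2 r) (k (t 4 1 r) r))))))
 (.c (c 2 4101 r (t 3 3 v))
 (.c (c 2 4101 r (t 3 1 v))
 (.c (c 2 4101 r (t 3 1 v))
 (.c (t 3 2 r)
 (.c (t 3 3 r)
 (.c (c 2 4101 r (t 3 1 v))
 (.c (u 3 0 (k r (k r r)))
 (.c (c 3 4097 r r)
 (.c (t 3 1 r)
 (.c (t 3 1 r)
 (.c (c 3 4096 r r)
 (.c (c 3 4095 r r)
 (.c (t 2 2 (t 3 3 v))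
 (.c (t 2 1 (t 3 3 v))
 (.c (u 3 8 (k r (k r (k (c 2 4101 r v) r))))
 (.c (c 3 4098 r r)
 (.c (t 3 1 r)
 (.c (c 2 4101 r (t 3 3 v))
 (.c (u 3 2 (k r (k (c 2 4101 r (u 5 1 (k v (k v r)))) r)))
 (.c (c 2 4101 r (t 3 1 v))
 (.c (c 3 4097 r r)
 (.c (t 2 1 (t 3 2 v))
 (.c (c 2 4101 r (t 3 5 v))
 (.c (c 2 4101 r (t 3 3 v))
 (.c (c 3 4096 r r)
 (.c (c 2 4101 r (t 3 3 v))
 (.c (c 2 4101 r r)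
 (.c (c 3 4096 r r)
 (.c (c 2 4101 r (u 3 0 (k r r)))
 (.c (u 3 1 (k r (k (u 2 9 (k v (k (t 6 1 r) (k (t 6 1 r) (k (t 6 1 r) (k (t 4 2 r) (k (t 6 1 r) (k (t 4 2 r) (k (t 4 1 r) r))))))))) r)))
 (.c (c 2 4101 r (t 3 1 v))
 (.c (c 2 4101 r (u 3 0 (k (t 7 1 r) r)))
 (.c (c 2 4101 r (t 3 3 v))
 (.c (t 3 6 r)
 (.c (u 3 1 (k r (k r r)))
 (.c (u 3 18 (k r (k r (k r (k r (k (u 5 2 (k (c 3 4094 v r) (k r r))) (k (u 5 0 (k (u 9 0 (k r (k r r))) r)) (k (u 5 70 (k r (k r (k r (k (c 9 4095 r (u 13 0 (k r (k r r)))) r))))) (k (u 5 4 (k r (k (c 13 4099 r (u 9 1 (k r (k r r)))) r))) r)))))))))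
 (.c (t 3 3 r)
 (.c (u 3 4 (k r (k (t 7 1 (u 5 2 (k r (k r r)))) r)))
 (.c (u 3 6 (k r (k r (k (u 5 31 (k r (k r (k r r)))) (k (c 7 4099 r (u 5 0 (k r (k r r)))) (k (u 5 0 (k r (k r r))) (k (c 7 4097 r (u 5 31 (k r (k r (k r r))))) r)))))))
 (.c (c 3 4098 r r)
 (.c (t 3 1 r)
 (.c (t 3 1 r)
 (.c (u 3 2 (k r (k (c 7 4097 r (u 5 0 (k r (k r r)))) r)))
 (.c (c 3 4097 r r)
 (.c (u 2 0 (k r (k (c 3 4097 r (t 6 1 r)) (k (c 3 4097 r (t 6 1 r)) (k (t 4 2 r) (k (c 3 4097 r (t 4 2 r)) (k (c 3 4097 r (t 6 1 r)) (k r (k r r)))))))))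
 (.c (u 3 0 (k (t 7 1 (u 5 9 (k r (k r (k (u 2 3 (k r (k (c 6 4101 r r) (k (c 6 4099 r r) (k (c 6 4097 r r) (k (c 6 4096 r r) (k (c 4 4098 r r) (k (c 4 4101 r r) (k (c 4 4101 r r) r))))))))) r))))) (k (t 7 1 (u 5 36 (k r (k r (k r r))))) r)))
 (.c (t 2 1 (t 3 3 v))
 (.c (c 3 4096 r r)
 (.c (c 3 4096 r r)
 (.c (c 3 4095 r r)
 (.c (c 3 4095 r r)
 (.c (t 3 3 r)
 (.c (c 3 4095 r r)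
 (.c (c 3 4095 r r)
 (.c (c 3 4095 r r)
 (.c (c 2 4101 r r)
 (.c (t 3 5 r)
 (.c (c 2 4101 r (t 3 3 v))
 (.c (t 2 3 (u 3 0 (k (t 7 3 r) r)))
 (.c (t 2 3 r)
 (.c (t 2 3 (u 3 0 (k (t 7 3 r) r)))
 (.c (t 2 3 r)
 (.c (t 3 2 r)
 (.c (u 3 7 (k r (k r (k r (k (c 7 4099 r (u 5 31 (k r (k r (k r r))))) r)))))
 (.c (t 3 1 r)
 (.c (u 3 0 (k (u 5 0 (k r (k r r))) r))
 (.c (u 3 4 (k r (k r r)))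
 (.c (u 3 4 (k r (k r r)))
 (.c (c 2 4101 r (u 3 0 (k (t 7 2 r) r)))
 (.c (c 3 4095 r r)
 (.c (c 2 4101 r r)
 (.c (u 3 0 (k r (k (u 5 7 (k r (k r (k r (k (c 13 4099 r (u 9 1 (k r (k r r)))) r))))) r)))
 (.c (t 3 4 r)
 (.c (t 2 3 (u 3 0 (k (t 7 3 r) r)))
 (.c (u 2 10 (k (u 3 4 (k v (k v r))) (k (u 3 2 (k v (k v r))) (k (c 6 4101 r r) (k (c 4 4101 r r) (k (c 4 4101 r r) r))))))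
 (.c (u 3 7 (k r (k r (k (t 7 1 (u 5 23 (k r (k r r)))) r))))
 (.c (c 3 4100 r r)
 (.c (u 3 87 (k r (k r (k r (k (c 7 4099 r r) (k (u 5 85 (k r (k r (k r (k r r))))) r))))))
 (.c (t 3 3 r)
 (.c (u 3 1 (k r (k r r)))
 (.c (c 3 4095 r r)
 (.c (u 3 12 (k r (k r r)))
 (.c (c 3 4098 r r)
 (.c (u 3 29 (k r (k r (k (u 5 0 (k r (k r r))) (k (c 5 4097 r (u 7 0 (k r (k r r)))) (k (c 5 4097 r (u 7 0 (k r (k r r)))) (k (c 5 4095 r (u 7 0 (k r (k r r)))) r)))))))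
 (.c (t 3 1 r)
 (.c (c 3 4096 r r)
 (.c (c 3 4096 r r)
 (.c (c 3 4095 r r)
 (.c (c 3 4095 r r)
 (.c (c 3 4095 r r)
 (.c (c 3 4095 r r)
 (.c (t 2 3 r)
 (.c (t 2 3 r)
 (.c (t 3 2 r)
 (.c (u 2 8 (k r (k (t 6 1 r) (k (t 4 2 r) (k (t 4 1 r) r)))))
 (.c (t 2 3 r)
 (.c (c 2 4101 r r)
 (.c (c 2 4101 r r)
 (.c (t 3 3 r)
 (.c (t 2 3 r)
 (.c (t 3 6 r)
 (.c (c 3 4097 r r)
 (.c (c 2 4101 r r)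
 (.c (t 2 2 r)
 (.c (t 2 3 (u 3 1 (k r (k r r))))
 (.c (c 2 4101 r r)
 (.c (c 3 4096 r r)
 (.c (c 3 4096 r r)
 (.c (c 2 4101 r (u 3 0 (k (t 7 1 r) r)))
 (.c (t 3 2 r)
 (.c (t 3 3 r)
 (.c (t 2 3 r)
 (.c (t 3 3 r)
 (.c (u 3 16 (k r (k r (k (t 2 1 v) (k (c 7 4099 r (u 5 1 (k r (k r r)))) r)))))
 (.c (t 2 3 r)
 (.c (u 3 81 (k r (k r (k (c 7 4099 r (u 5 12 (k r (k r r)))) r))))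
 (.c (u 3 6 (k r (k r (k (c 7 4097 r (u 5 1 (k r (k r r)))) (k (c 7 4096 r (u 5 1 (k r (k r r)))) (k (c 7 4097 r (u 5 1 (k r (k r r)))) r))))))
 (.c (c 3 4096 r r)
 (.c (u 3 3 (k r (k (t 7 1 (u 5 37 (k r (k r (k r r))))) (k (t 7 1 (u 5 15 (k r (k r r)))) r))))
 (.c (u 3 0 (k (u 5 40 (k r (k r (k r r)))) r))
 (.c (u 3 23 (k r (k r (k r (k (c 7 4097 r r) (k (c 7 4095 r (u 5 1 (k r (k r r)))) (k (c 5 4095 r (u 7 1 (k r (k r r)))) r)))))))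
 (.c (u 3 0 (k (c 7 4097 r (u 5 0 (k r (k r r)))) r))
 (.c (u 3 3 (k (c 3 4094 v r) (k (t 7 1 (u 5 29 (k r (k r (k (c 13 4097 r (u 9 17 (k r (k r r)))) (k (c 13 4097 r (u 9 17 (k r (k r r)))) r)))))) r)))
 (.c (c 3 4096 r r)
 (.c (c 3 4096 r r)
 (.c (t 2 3 r)
 .z))))))))))))))))))))))))))))))))))))))))))))))))))))))))))))))))))))))))))))))))))))))))))))))))))))))))))))))))))))))))))))))))))))))))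

set_option maxRecDepth 100000 in
def R136 : PR :=
 (.c r
 (.c r
 (.c (c 2 4095 r (t 3 1 v))
 (.c (c 2 4095 r (t 3 1 v))
 (.c (c 3 4101 r r)
 (.c (c 3 4100 r r)
 (.c (c 3 4100 r r)
 (.c (c 3 4099 r r)
 (.c (c 2 4095 r (t 3 3 v))
 (.c (c 3 4099 r r)
 (.c (c 2 4095 r (t 3 3 v))
 (.c (c 2 4095 r (t 3 1 v))
 (.c (c 2 4095 r (t 3 1 v))
 (.c (c 2 4095 r (t 3 2 v))
 (.c (t 3 3 (u 2 0 (k (u 6 0 (k (t 10 3 (t 14 1 (u 4 6 (k (c 12 4099 r r) (k r (k r (k (c 8 4099 r r) (k (c 8 4099 r r) (k (c 8 4099 r r) r))))))))) r)) r)))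
 (.c (c 2 4095 r (t 3 1 v))
 (.c (c 3 4097 r r)
 (.c (c 3 4097 r r)
 (.c (c 2 4095 r (t 3 1 v))
 (.c (c 2 4095 r (t 3 1 v))
 (.c (c 2 4095 r (t 3 2 v))
 (.c (c 2 4095 r (t 3 1 v))
 (.c (c 3 4099 r r)
 (.c (c 2 4095 r (t 3 3 v))
 (.c (u 2 0 (k (c 6 4096 r r) r))
 (.c (c 2 4095 r (t 3 3 v))
 (.c (c 3 4098 r r)
 (.c (c 2 4095 r (t 3 3 v))
 (.c (c 3 4097 r r)
 (.c (c 2 4095 r (t 3 1 v))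
 (.c (c 3 4097 r r)
 (.c (c 3 4097 r r)
 (.c (c 2 4095 r (t 3 5 v))
 (.c (c 2 4095 r (t 3 3 v))
 (.c (c 3 4096 r r)
 (.c (c 2 4095 r (t 3 3 v))
 (.c (c 2 4095 r r)
 (.c (c 3 4096 r r)
 (.c (c 2 4095 r (u 3 0 (k r r)))
 (.c (c 3 4101 r r)
 (.c (c 2 4095 r (t 3 1 v))
 (.c (c 2 4095 r (u 3 0 (k (t 7 1 r) r)))
 (.c (c 2 4095 r (t 3 3 v))
 (.c (c 3 4100 r r)
 (.c (c 3 4100 r r)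
 (.c (c 3 4100 r r)
 (.c (t 3 2 (u 2 0 (k (c 6 4096 r r) r)))
 (.c (t 3 1 (u 2 0 (k (c 6 4096 r r) r)))
 (.c (c 3 4099 r r)
 (.c (c 2 4095 r (t 3 1 v))
 (.c (c 3 4098 r r)
 (.c (c 2 4095 r r)
 (.c (c 3 4097 r r)
 (.c (c 2 4095 r (t 3 1 v))
 (.c (c 3 4097 r r)
 (.c (c 3 4097 r r)
 (.c (c 2 4095 r r)
 (.c (c 2 4095 r r)
 (.c (c 2 4095 r (t 3 1 v))
 (.c (c 2 4095 r r)
 (.c (c 2 4095 r r)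
 (.c (c 2 4095 r r)
 (.c (c 3 4095 r r)
 (.c (c 2 4095 r (t 3 1 v))
 (.c (c 2 4095 r r)
 (.c (c 2 4095 r r)
 (.c (c 2 4095 r (u 3 0 (k (t 7 2 r) r)))
 (.c (c 2 4095 r (t 3 3 v))
 (.c (c 2 4095 r (u 3 0 (k (t 7 2 r) r)))
 (.c (t 2 1 r)
 (.c (c 3 4099 r r)
 (.c (c 3 4099 r r)
 (.c (c 3 4102 r r)
 (.c (c 3 4102 r r)
 (.c (c 3 4099 r r)
 (.c (c 3 4102 r r)
 (.c (c 2 4095 r r)
 (.c (c 2 4095 r r)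
 (.c (c 2 4095 r (u 3 0 (k (t 7 2 r) r)))
 (.c (c 3 4095 r r)
 (.c (c 2 4095 r r)
 (.c (c 3 4101 r r)
 (.c (c 2 4095 r r)
 (.c (c 3 4097 r r)
 (.c (c 2 4095 r (u 3 1 (k v (k v r))))
 (.c (c 2 4095 r r)
 (.c (c 2 4095 r (t 3 2 v))
 (.c (c 3 4099 r r)
 (.c (c 2 4095 r r)
 (.c (c 3 4099 r r)
 (.c (c 3 4095 r r)
 (.c (c 3 4098 r r)
 (.c (c 2 4095 r (t 3 2 v))
 (.c (c 3 4098 r r)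
 (.c (c 3 4097 r r)
 (.c (c 2 4095 r (t 3 1 v))
 (.c (c 2 4095 r (t 3 2 v))
 (.c (c 2 4095 r (u 3 0 (k r (k r (k r r)))))
 (.c (c 2 4095 r (u 3 0 (k (t 7 2 (u 5 0 (k (c 13 4099 r r) r))) r)))
 (.c (c 3 4095 r r)
 (.c (c 3 4095 r r)
 (.c (c 3 4100 r r)
 (.c (t 3 3 (u 2 0 (k (t 6 2 r) r)))
 (.c (c 2 4095 r (u 3 0 (k (t 7 2 r) r)))
 (.c (c 3 4099 r r)
 (.c (t 3 3 (u 2 0 (k (t 6 2 r) r)))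
 (.c (c 2 4095 r r)
 (.c (c 2 4095 r r)
 (.c (c 2 4095 r r)
 (.c (c 2 4095 r r)
 (.c (c 2 4095 r r)
 (.c (c 2 4095 r r)
 (.c (c 2 4095 r r)
 (.c (c 3 4100 r r)
 (.c (c 3 4097 r r)
 (.c (c 3 4100 r r)
 (.c (c 2 4095 r r)
 (.c (c 3 4096 r r)
 (.c (c 2 4095 r (u 3 0 (k (t 7 1 r) r)))
 (.c (c 2 4095 r r)
 (.c (c 2 4095 r r)
 (.c (c 3 4101 r r)
 (.c (c 3 4101 r r)
 (.c (c 3 4101 r r)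
 (.c (c 3 4097 r r)
 (.c (c 3 4100 r r)
 (.c (c 3 4099 r r)
 (.c (c 3 4096 r r)
 (.c (c 3 4099 r r)
 (.c (c 3 4099 r r)
 (.c (c 3 4097 r r)
 (.c (c 2 4095 r r)
 (.c (c 3 4097 r r)
 (.c (c 2 4095 r r)
 (.c (c 2 4095 r r)
 (.c (c 2 4095 r r)
 (.c (c 3 4095 r r)
 .z)))))))))))))))))))))))))))))))))))))))))))))))))))))))))))))))))))))))))))))))))))))))))))))))))))))))))))))))))))))))))))))))))))))))))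

set_option maxRecDepth 100000 in
def R137 : PR :=
 (.c r
 (.c r
 (.t 141 (.c (c 2 4100 r (t 3 1 v))
 (.c (t 3 1 (u 2 2 (k v (k (t 6 2 r) r))))
 (.c (c 3 4100 r r)
 (.c (t 3 1 (u 2 2 (k v (k (t 6 2 r) r))))
 (.c (c 3 4099 r r)
 (.c (c 2 4100 r (t 3 3 v))
 (.c (c 3 4099 r r)
 (.c (c 2 4100 r (t 3 3 v))
 (.c (c 2 4100 r (t 3 1 v))
 (.c (c 2 4100 r (t 3 1 v))
 (.c (t 3 3 r)
 (.c (t 3 3 r)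
 (.c (c 2 4100 r (t 3 1 v))
 (.c (c 3 4097 r r)
 (.c (c 3 4097 r r)
 (.c (t 3 1 r)
 (.c (t 3 1 r)
 (.c (c 3 4096 r r)
 (.c (c 3 4095 r r)
 (.c (c 3 4099 r r)
 (.c (t 2 1 (t 3 3 v))
 (.c (t 2 1 (u 3 3 (k v (k v r))))
 (.c (c 3 4098 r r)
 (.c (c 3 4098 r r)
 (.c (c 2 4100 r (t 3 3 v))
 (.c (c 3 4097 r r)
 (.c (c 2 4100 r (t 3 1 v))
 (.c (c 3 4097 r r)
 (.c (c 3 4097 r r)
 (.c (c 2 4100 r (t 3 5 v))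
 (.c (c 2 4100 r (t 3 3 v))
 (.c (c 3 4096 r r)
 (.c (c 2 4100 r (t 3 3 v))
 (.c (c 2 4100 r r)
 (.c (c 3 4096 r r)
 (.c (c 2 4100 r (u 3 0 (k r r)))
 (.c (u 2 2 (k r (k (t 6 2 r) r)))
 (.c (c 2 4100 r (t 3 1 v))
 (.c (c 2 4100 r (u 3 0 (k (t 7 1 r) r)))
 (.c (c 2 4100 r (t 3 3 v))
 (.c (c 3 4100 r r)
 (.c (u 2 3 (k r (k (t 4 2 (u 3 85 (k r (k (c 3 4094 v r) (k (t 7 1 (c 2 4098 (c 3 4100 r v) r)) (k (t 6 1 r) (k (t 6 1 r) (k (t 6 1 r) r)))))))) r)))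
 (.c (c 3 4100 r r)
 (.c (t 3 2 r)
 (.c (t 2 3 r)
 (.c (c 3 4099 r r)
 (.c (t 2 3 (t 3 1 v))
 (.c (c 3 4098 r r)
 (.c (c 2 4100 r r)
 (.c (c 3 4097 r r)
 (.c (c 3 4097 r r)
 (.c (c 3 4097 r r)
 (.c (c 3 4097 r r)
 (.c (c 2 4100 r r)
 (.c (c 3 4096 r r)
 (.c (c 3 4096 r r)
 (.c (c 3 4095 r r)
 (.c (c 3 4095 r r)
 (.c (c 3 4098 r r)
 (.c (c 3 4095 r r)
 (.c (c 3 4095 r r)
 (.c (c 3 4095 r r)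
 (.c (c 2 4100 r r)
 (.c (c 2 4100 r (u 3 0 (k (t 7 2 r) r)))
 (.c (c 2 4100 r (t 3 3 v))
 (.c (c 2 4100 r (u 3 0 (k (t 7 2 r) r)))
 (.c (t 2 3 r)
 (.c (c 3 4099 r r)
 (.c (c 3 4099 r r)
 (.c (t 3 2 r)
 (.c (u 2 0 (k (t 6 2 r) (k (t 4 2 r) (k (t 6 2 r) r))))
 (.c (c 3 4099 r r)
 (.c (u 3 0 (k (u 2 2 (k (u 5 0 (k v (k v r))) (k (t 6 2 (u 5 0 (k r (k r r)))) r))) r))
 (.c (c 2 4100 r r)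
 (.c (t 2 3 r)
 (.c (c 2 4100 r (u 3 0 (k (t 7 2 r) r)))
 (.c (c 3 4095 r r)
 (.c (c 2 4100 r r)
 (.c (c 3 4101 r r)
 (.c (c 2 4100 r r)
 (.c (c 3 4097 r r)
 (.c (c 2 4100 r (u 3 1 (k v (k v r))))
 (.c (t 3 1 r)
 (.c (c 3 4100 r r)
 (.c (c 3 4099 r r)
 (.c (c 2 4100 r r)
 (.c (c 3 4099 r r)
 (.c (c 2 4100 r r)
 (.c (c 3 4098 r r)
 (.c (c 3 4098 r r)
 (.c (c 3 4098 r r)
 (.c (c 3 4097 r r)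
 (.c (c 3 4096 r r)
 (.c (c 3 4096 r r)
 (.c (c 3 4095 r r)
 (.c (c 3 4095 r r)
 (.c (c 3 4095 r r)
 (.c (c 3 4095 r r)
 (.c (t 2 3 r)
 (.c (t 2 3 r)
 (.c (c 2 4100 r (u 3 0 (k (t 7 2 r) r)))
 (.c (c 3 4099 r r)
 (.c (t 2 3 r)
 (.c (c 2 4100 r r)
 (.c (c 2 4100 r r)
 (.c (c 2 4100 r r)
 (.c (c 2 4100 r r)
 (.c (t 3 1 r)
 (.c (c 3 4097 r r)
 (.c (c 3 4100 r r)
 (.c (c 2 4100 r r)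
 (.c (c 3 4097 r r)
 (.c (c 3 4100 r r)
 (.c (c 3 4096 r r)
 (.c (c 3 4096 r r)
 (.c (c 2 4100 r (u 3 0 (k (t 7 1 r) r)))
 (.c (c 2 4100 r r)
 (.c (c 2 4100 r r)
 (.c (t 2 3 r)
 (.c (t 2 3 r)
 (.c (u 2 2 (k r (k (t 6 2 r) r)))
 (.c (c 3 4097 r r)
 (.c (u 2 3 (k r (k (t 6 2 (u 3 19 (k r (k (c 7 4099 r (u 5 12 (k r (k r r)))) (k (c 5 4096 r (u 7 1 (k r (k r r)))) r))))) r)))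
 (.c (c 3 4099 r r)
 (.c (c 2 4100 r r)
 (.c (c 3 4099 r r)
 (.c (c 3 4099 r r)
 (.c (c 3 4097 r r)
 (.c (c 3 4097 r r)
 (.c (c 3 4097 r r)
 (.c (c 3 4096 r r)
 (.c (c 2 4100 r r)
 (.c (t 2 3 r)
 (.c (c 3 4095 r r)
 (.c (c 3 4100 r r)
 .z))))))))))))))))))))))))))))))))))))))))))))))))))))))))))))))))))))))))))))))))))))))))))))))))))))))))))))))))))))))))))))))))))))))))))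

set_option maxRecDepth 100000 in
def R138 : PR :=
 (.c r
 (.c r
 (.c (t 3 1 r)
 (.c (t 3 1 r)
 (.c (t 3 1 r)
 (.c (t 3 2 r)
 (.c (t 3 4 r)
 (.c (t 3 1 (u 2 6 (k v (k r (k (t 4 1 r) (k (c 3 4099 v r) (k (c 3 4099 v r) (k (u 4 51 (k r (k r (k (c 3 4099 v r) r)))) (k r (k r r))))))))))
 (.c (c 2 4100 r (t 3 3 v))
 (.c (c 3 4099 r r)
 (.c (c 2 4100 r (t 3 3 v))
 (.c (c 2 4100 r (t 3 1 v))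
 (.c (c 2 4100 r (t 3 1 v))
 (.c (t 3 2 r)
 (.c (t 3 2 r)
 (.c (c 2 4100 r (t 3 1 v))
 (.c (c 3 4097 r r)
 (.c (c 3 4097 r r)
 (.c (t 3 1 r)
 (.c (t 3 1 r)
 (.c (c 3 4096 r r)
 (.c (c 3 4095 r r)
 (.c (t 2 2 (t 3 3 v))
 (.c (t 2 1 (t 3 3 v))
 (.c (t 3 2 r)
 (.c (c 3 4098 r r)
 (.c (t 3 1 r)
 (.c (c 2 4100 r (t 3 3 v))
 (.c (c 3 4097 r r)
 (.c (c 2 4100 r (t 3 1 v))
 (.c (c 3 4097 r r)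
 (.c (c 3 4097 r r)
 (.c (c 2 4100 r (t 3 5 v))
 (.c (c 2 4100 r (t 3 3 v))
 (.c (c 3 4096 r r)
 (.c (c 2 4100 r (t 3 3 v))
 (.c (c 2 4100 r r)
 (.c (c 3 4096 r r)
 (.c (c 2 4100 r (u 3 0 (k r r)))
 (.c (t 3 1 r)
 (.c (c 2 4100 r (t 3 1 v))
 (.c (c 2 4100 r (u 3 0 (k (t 7 1 r) r)))
 (.c (c 2 4100 r (t 3 3 v))
 (.c (t 3 6 r)
 (.c (u 3 0 (k r (k r r)))
 (.c (t 3 2 r)
 (.c (t 3 2 r)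
 (.c (t 3 1 r)
 (.c (t 3 1 r)
 (.c (c 3 4098 r r)
 (.c (t 3 1 (u 2 7 (k v (k v (k (t 6 1 r) (k (c 6 4099 r r) (k (c 4 4099 r r) (k (c 4 4100 r r) (k (t 4 2 r) (k (c 4 4100 r r) r))))))))))
 (.c (t 3 1 r)
 (.c (c 3 4097 r r)
 (.c (c 3 4097 r r)
 (.c (c 3 4097 r r)
 (.c (c 3 4097 r r)
 (.c (c 2 4100 r r)
 (.c (c 3 4096 r r)
 (.c (c 3 4096 r r)
 (.c (c 3 4095 r r)
 (.c (c 3 4095 r r)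
 (.c (t 3 2 r)
 (.c (c 3 4095 r r)
 (.c (c 3 4095 r r)
 (.c (c 3 4095 r r)
 (.c (c 2 4100 r r)
 (.c (t 3 4 r)
 (.c (c 2 4100 r (t 3 3 v))
 (.c (t 3 2 r)
 (.c (t 3 2 r)
 (.c (c 3 4099 r r)
 (.c (t 3 2 r)
 (.c (t 3 8 r)
 (.c (t 3 1 r)
 (.c (c 3 4099 r r)
 (.c (t 3 2 r)
 (.c (t 3 2 r)
 (.c (u 3 25 (k r (k r r)))
 (.c (c 2 4100 r (u 3 0 (k (t 7 2 r) r)))
 (.c (c 3 4095 r r)
 (.c (c 2 4100 r r)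
 (.c (t 3 2 r)
 (.c (t 3 4 r)
 (.c (c 3 4097 r r)
 (.c (t 3 1 r)
 (.c (t 3 1 r)
 (.c (c 3 4100 r r)
 (.c (t 3 1 r)
 (.c (t 3 3 r)
 (.c (u 3 0 (k r (k r r)))
 (.c (c 3 4095 r r)
 (.c (u 2 8 (k r (k r (k (u 3 3 (k r (k r r))) (k (c 3 4098 r r) (k (c 3 4098 r r) (k (c 3 4098 r r) (k (u 3 3 (k r (k r r))) (k (u 3 3 (k (u 4 15 (k r (k r r))) (k r r))) r)))))))))
 (.c (c 3 4098 r r)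
 (.c (t 3 2 r)
 (.c (c 3 4097 r r)
 (.c (c 3 4096 r r)
 (.c (c 3 4096 r r)
 (.c (c 3 4095 r r)
 (.c (c 3 4095 r r)
 (.c (c 3 4095 r r)
 (.c (c 3 4095 r r)
 (.c (t 3 4 r)
 (.c (t 3 2 r)
 (.c (c 2 4100 r (u 3 0 (k (t 7 2 r) r)))
 (.c (t 3 2 r)
 (.c (t 3 2 r)
 (.c (c 2 4100 r r)
 (.c (c 2 4100 r r)
 (.c (t 3 1 r)
 (.c (t 3 2 r)
 (.c (t 3 4 r)
 (.c (c 2 4100 r r)
 (.c (c 2 4100 r r)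
 (.c (c 2 4100 r r)
 (.c (c 3 4097 r r)
 (.c (c 2 4100 r r)
 (.c (c 3 4096 r r)
 (.c (c 3 4096 r r)
 (.c (c 2 4100 r (u 3 0 (k (t 7 1 r) r)))
 (.c (t 3 2 r)
 (.c (t 3 3 r)
 (.c (t 3 2 r)
 (.c (t 3 2 r)
 (.c (t 3 2 r)
 (.c (c 3 4097 r r)
 (.c (t 3 2 r)
 (.c (t 3 1 r)
 (.c (c 3 4096 r r)
 (.c (t 3 1 r)
 (.c (c 3 4099 r r)
 (.c (c 3 4097 r r)
 (.c (c 2 4100 r r)
 (.c (c 3 4097 r r)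
 (.c (c 2 4100 r r)
 (.c (c 3 4096 r r)
 (.c (t 3 2 r)
 (.c (c 2 4100 r r)
 (.c (t 3 4 r)
 (.c (t 2 2 r)
 .z)))))))))))))))))))))))))))))))))))))))))))))))))))))))))))))))))))))))))))))))))))))))))))))))))))))))))))))))))))))))))))))))))))))))))))

set_option maxRecDepth 100000 in
def R139 : PR :=
 (.c (u 2 0 (k (t 6 1 r) r))
 (.c (u 2 0 (k (t 6 1 r) r))
 (.c (c 2 4097 r (t 3 1 v))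
 (.c (c 2 4097 r (t 3 1 v))
 (.c (t 3 1 (u 2 0 (k (c 4 4099 r r) r)))
 (.c (c 3 4100 r (u 2 0 (k (t 6 1 r) r)))
 (.c (t 3 1 (u 2 0 (k (t 6 1 (u 4 0 (k (c 12 4099 r (u 8 32 (k v (k v (k (u 16 2 (k v (k v r))) (k (c 5 4101 v r) (k (u 16 32 (k v (k v (k v (k (c 32 4095 r (u 48 23 (k v (k v r)))) (k (c 32 4095 r (u 48 23 (k v (k v r)))) r)))))) (k (u 16 2 (k v (k (c 48 4099 r (u 32 6 (k v (k v (k v r))))) (k (c 32 4095 r (u 48 23 (k v (k v r)))) r)))) r)))))))) r))) r)))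
 (.c (c 3 4099 r (u 2 0 (k (t 6 1 r) r)))
 (.c (c 2 4097 r (t 3 3 v))
 (.c (c 3 4099 r (u 2 0 (k (t 6 1 r) r)))
 (.c (c 2 4097 r (t 3 3 v))
 (.c (c 2 4097 r (t 3 1 v))
 (.c (c 2 4097 r (t 3 1 v))
 (.c (c 2 4097 r (t 3 2 v))
 (.c (t 3 2 (u 2 0 (k (t 4 3 r) r)))
 (.c (c 2 4097 r (t 3 1 v))
 (.c (c 3 4097 r (u 2 0 (k (t 6 1 r) r)))
 (.c (c 3 4097 r (u 2 0 (k (t 6 1 r) r)))
 (.c (c 2 4097 r (t 3 1 v))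
 (.c (c 2 4097 r (t 3 1 v))
 (.c (c 2 4097 r (t 3 2 v))
 (.c (c 2 4097 r (t 3 1 v))
 (.c (c 3 4099 r (u 2 0 (k (t 6 1 r) r)))
 (.c (c 2 4097 r (t 3 3 v))
 (.c (t 2 2 (u 3 3 (k v (k v r))))
 (.c (c 2 4097 r (t 3 3 v))
 (.c (c 3 4098 r (u 2 0 (k (t 6 1 r) r)))
 (.c (c 2 4097 r (t 3 3 v))
 (.c (c 3 4097 r (u 2 0 (k (t 6 1 r) r)))
 (.c (c 2 4097 r (t 3 1 v))
 (.c (c 3 4097 r (u 2 0 (k (t 6 1 r) r)))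
 (.c (c 3 4097 r (u 2 0 (k (t 6 1 r) r)))
 (.c (c 2 4097 r (t 3 5 v))
 (.c (c 2 4097 r (t 3 3 v))
 (.c (c 3 4096 r (u 2 0 (k (t 6 1 r) r)))
 (.c (c 2 4097 r (t 3 3 v))
 (.c (c 2 4097 r r)
 (.c (c 3 4096 r (u 2 0 (k (t 6 1 r) r)))
 (.c (c 2 4097 r (u 3 0 (k r r)))
 (.c (u 3 2 (k (u 2 0 (k (t 4 3 r) r)) (k (u 2 0 (k (t 4 3 r) r)) r)))
 (.c (c 2 4097 r (t 3 1 v))
 (.c (c 2 4097 r (u 3 0 (k (t 7 1 r) r)))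
 (.c (c 2 4097 r (t 3 3 v))
 (.c (c 3 4100 r (u 2 0 (k (t 6 1 r) r)))
 (.c (u 3 1 (k (u 2 0 (k (t 4 2 r) r)) (k (u 2 0 (k (t 4 2 r) r)) r)))
 (.c (c 3 4100 r (u 2 0 (k (t 6 1 r) r)))
 (.c (t 2 1 (u 3 0 (k (t 5 3 (t 7 3 v)) r)))
 (.c (t 2 1 r)
 (.c (c 3 4099 r (u 2 0 (k (t 6 1 r) r)))
 (.c (c 2 4097 r (t 3 1 v))
 (.c (c 3 4098 r (u 2 0 (k (t 6 1 r) r)))
 (.c (c 2 4097 r r)
 (.c (c 3 4097 r (u 2 0 (k (t 6 1 r) r)))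
 (.c (c 2 4097 r (t 3 1 v))
 (.c (c 3 4097 r (u 2 0 (k (t 6 1 r) r)))
 (.c (c 3 4097 r (u 2 0 (k (t 6 1 r) r)))
 (.c (c 2 4097 r r)
 (.c (c 3 4096 r (u 2 0 (k (t 6 1 r) r)))
 (.c (c 2 4097 r (t 3 1 v))
 (.c (c 3 4095 r (u 2 0 (k (t 6 1 r) r)))
 (.c (c 3 4095 r (u 2 0 (k (t 6 1 r) r)))
 (.c (c 3 4098 r (u 2 0 (k (t 6 1 r) r)))
 (.c (c 3 4095 r (u 2 0 (k (t 6 1 r) r)))
 (.c (c 2 4097 r (t 3 1 v))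
 (.c (c 3 4095 r (u 2 0 (k (t 6 1 r) r)))
 (.c (c 2 4097 r r)
 (.c (c 2 4097 r (u 3 0 (k (t 7 2 r) r)))
 (.c (c 2 4097 r (t 3 3 v))
 (.c (c 2 4097 r (u 3 0 (k (t 7 2 r) r)))
 (.c (t 2 1 r)
 (.c (c 3 4099 r (u 2 0 (k (t 6 1 r) r)))
 (.c (c 3 4099 r (u 2 0 (k (t 6 1 r) r)))
 (.c (t 3 10 (u 2 0 (k (t 4 3 r) r)))
 (.c (u 3 19 (k (u 2 0 (k (t 4 1 r) r)) (k (u 2 0 (k (t 4 2 r) r)) (k (u 2 0 (k (t 4 2 r) r)) (k (c 7 4099 r r) r)))))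
 (.c (c 3 4099 r (u 2 0 (k (t 6 1 r) r)))
 (.c (u 3 0 (k (u 5 0 (k (u 2 0 (k (t 4 1 r) r)) (k (u 2 0 (k (t 4 1 r) r)) r))) r))
 (.c (c 2 4097 r r)
 (.c (c 2 4097 r r)
 (.c (c 2 4097 r (u 3 0 (k (t 7 2 r) r)))
 (.c (c 3 4095 r (u 2 0 (k (t 6 1 r) r)))
 (.c (c 2 4097 r r)
 (.c (c 3 4101 r (u 2 0 (k (t 6 1 r) r)))
 (.c (c 2 4097 r r)
 (.c (c 2 4097 r (u 3 0 (k (t 7 3 r) r)))
 (.c (c 2 4097 r (u 3 1 (k v (k v r))))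
 (.c (c 2 4097 r r)
 (.c (c 2 4097 r (t 3 2 v))
 (.c (c 3 4099 r (u 2 0 (k (t 6 1 r) r)))
 (.c (c 2 4097 r r)
 (.c (c 3 4099 r (u 2 0 (k (t 6 1 r) r)))
 (.c (c 2 4097 r r)
 (.c (c 3 4098 r (u 2 0 (k (t 6 1 r) r)))
 (.c (c 2 4097 r (t 3 2 v))
 (.c (c 3 4098 r (u 2 0 (k (t 6 1 r) r)))
 (.c (c 3 4097 r (u 2 0 (k (t 6 1 r) r)))
 (.c (c 2 4097 r (t 3 1 v))
 (.c (c 2 4097 r (t 3 2 v))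
 (.c (c 2 4097 r (u 3 0 (k r (k r (k r r)))))
 (.c (c 2 4097 r (u 3 0 (k (t 7 2 (u 5 0 (k (c 13 4099 r r) r))) r)))
 (.c (c 3 4095 r (u 2 0 (k (t 6 1 r) r)))
 (.c (c 3 4095 r (u 2 0 (k (t 6 1 r) r)))
 (.c (t 2 1 r)
 (.c (t 2 1 r)
 (.c (c 2 4097 r (u 3 0 (k (t 7 2 r) r)))
 (.c (c 3 4099 r (u 2 0 (k (t 6 1 r) r)))
 (.c (t 2 1 r)
 (.c (c 2 4097 r r)
 (.c (c 2 4097 r r)
 (.c (c 2 4097 r r)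
 (.c (c 2 4097 r r)
 (.c (c 2 4097 r r)
 (.c (c 2 4097 r r)
 (.c (c 2 4097 r r)
 (.c (c 2 4097 r r)
 (.c (c 3 4097 r (u 2 0 (k (t 6 1 r) r)))
 (.c (c 3 4100 r (u 2 0 (k (t 6 1 r) r)))
 (.c (c 2 4097 r r)
 (.c (c 3 4096 r (u 2 0 (k (t 6 1 r) r)))
 (.c (c 2 4097 r (u 3 0 (k (t 7 1 r) r)))
 (.c (c 2 4097 r r)
 (.c (c 2 4097 r r)
 (.c (t 2 1 r)
 (.c (t 2 1 r)
 (.c (u 3 80 (k (u 2 0 (k (t 4 3 r) r)) (k (u 2 0 (k (t 4 3 r) r)) (k (u 2 0 (k (t 4 1 r) r)) (k (t 2 2 v) (k (c 5 4097 r r) r))))))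
 (.c (c 2 4097 r r)
 (.c (u 3 82 (k (u 2 0 (k (t 4 2 r) r)) (k (u 2 0 (k (t 4 3 r) r)) (k (u 2 0 (k (t 4 2 r) r)) (k (u 2 0 (k (t 4 3 r) r)) r)))))
 (.c (c 3 4099 r (u 2 0 (k (t 6 1 r) r)))
 (.c (c 2 4097 r r)
 (.c (c 3 4099 r (u 2 0 (k (t 6 1 r) r)))
 (.c (c 3 4099 r (u 2 0 (k (t 6 1 r) r)))
 (.c (c 3 4097 r (u 2 0 (k (t 6 1 r) r)))
 (.c (c 2 4097 r r)
 (.c (c 3 4097 r (u 2 0 (k (t 6 1 r) r)))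
 (.c (c 2 4097 r r)
 (.c (c 2 4097 r r)
 (.c (c 2 4097 r r)
 (.c (c 3 4095 r (u 2 0 (k (t 6 1 r) r)))
 (.c (c 2 4097 r r)
 (.c (c 2 4097 r r)
 (.c (c 3 4097 r (u 2 0 (k (t 6 1 r) r)))
 .z))))))))))))))))))))))))))))))))))))))))))))))))))))))))))))))))))))))))))))))))))))))))))))))))))))))))))))))))))))))))))))))))))))))))))))

set_option maxRecDepth 100000 in
def R140 : PR :=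
 (.c (u 2 0 (k (u 6 0 (k (c 14 4101 r (t 10 3 r)) r)) r))
 (.c (u 2 0 (k (u 6 0 (k (c 14 4101 r (t 10 3 r)) r)) r))
 (.c (c 2 4097 r (t 3 1 v))
 (.c (c 2 4097 r (t 3 1 v))
 (.c (t 3 1 (u 2 0 (k (c 6 4096 r r) r)))
 (.c (c 3 4100 r (u 2 0 (k (u 6 0 (k (c 14 4101 r (t 10 3 r)) r)) r)))
 (.c (t 3 1 (u 2 0 (k (c 6 4096 r r) r)))
 (.c (c 3 4099 r (u 2 0 (k (u 6 0 (k (c 14 4101 r (t 10 3 r)) r)) r)))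
 (.c (c 2 4097 r (t 3 3 v))
 (.c (c 3 4099 r (u 2 0 (k (u 6 0 (k (c 14 4101 r (t 10 3 r)) r)) r)))
 (.c (c 2 4097 r (t 3 3 v))
 (.c (c 2 4097 r (t 3 1 v))
 (.c (c 2 4097 r (t 3 1 v))
 (.c (c 2 4097 r (t 3 2 v))
 (.c (t 3 3 (u 2 0 (k (u 4 9 (k (u 6 0 (k (t 10 3 (t 14 1 v)) r)) (k (c 2 4085 (u 3 0 (k (t 5 3 (t 7 1 v)) r)) v) (k (u 6 0 (k (t 10 3 (t 14 1 (u 8 1 (k v (k (c 24 4099 r (u 16 9 (k v (k v (k v r))))) (k (u 16 167 (k v (k v (k v r)))) (k (c 16 4099 r (u 24 9 (k v (k v (k v r))))) (k (c 16 4099 r (u 24 9 (k v (k v (k v r))))) (k (c 16 4099 r (u 24 9 (k v (k v (k v r))))) r))))))))) r)) r)))) r)))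
 (.c (c 2 4097 r (t 3 1 v))
 (.c (c 3 4097 r (u 2 0 (k (u 6 0 (k (c 14 4101 r (t 10 3 r)) r)) r)))
 (.c (c 3 4097 r (u 2 0 (k (u 6 0 (k (c 14 4101 r (t 10 3 r)) r)) r)))
 (.c (c 2 4097 r (t 3 1 v))
 (.c (c 2 4097 r (t 3 1 v))
 (.c (c 2 4097 r (t 3 2 v))
 (.c (c 2 4097 r (t 3 1 v))
 (.c (c 3 4099 r (u 2 0 (k (u 6 0 (k (c 14 4101 r (t 10 3 r)) r)) r)))
 (.c (c 2 4097 r (t 3 3 v))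
 (.c (t 2 1 (u 3 3 (k v (k v r))))
 (.c (c 2 4097 r (t 3 3 v))
 (.c (c 3 4098 r (u 2 0 (k (u 6 0 (k (c 14 4101 r (t 10 3 r)) r)) r)))
 (.c (c 2 4097 r (t 3 3 v))
 (.c (c 3 4097 r (u 2 0 (k (u 6 0 (k (c 14 4101 r (t 10 3 r)) r)) r)))
 (.c (c 2 4097 r (t 3 1 v))
 (.c (c 3 4097 r (u 2 0 (k (u 6 0 (k (c 14 4101 r (t 10 3 r)) r)) r)))
 (.c (c 3 4097 r (u 2 0 (k (u 6 0 (k (c 14 4101 r (t 10 3 r)) r)) r)))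
 (.c (c 2 4097 r (t 3 5 v))
 (.c (c 2 4097 r (t 3 3 v))
 (.c (c 3 4096 r (u 2 0 (k (u 6 0 (k (c 14 4101 r (t 10 3 r)) r)) r)))
 (.c (c 2 4097 r (t 3 3 v))
 (.c (c 2 4097 r r)
 (.c (c 3 4096 r (u 2 0 (k (u 6 0 (k (c 14 4101 r (t 10 3 r)) r)) r)))
 (.c (c 2 4097 r (u 3 0 (k r r)))
 (.c (u 3 1 (k (c 2 4097 r v) (k (u 2 0 (k (t 6 6 (u 4 8 (k v (k (u 8 1 (k v (k (c 24 4099 r (u 16 1 (k v (k v r)))) (k (u 16 0 (k v (k v r))) (k (c 16 4099 r (u 24 1 (k v (k v r)))) (k (c 16 4099 r (u 24 1 (k v (k v r)))) (k (c 16 4099 r (u 24 1 (k v (k v r)))) r))))))) (k (c 8 4100 r (u 12 0 (k (u 20 0 (k v (k v r))) r))) r))))) r)) r)))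
 (.c (c 2 4097 r (t 3 1 v))
 (.c (c 2 4097 r (u 3 0 (k (t 7 1 r) r)))
 (.c (c 2 4097 r (t 3 3 v))
 (.c (c 3 4100 r (u 2 0 (k (u 6 0 (k (c 14 4101 r (t 10 3 r)) r)) r)))
 (.c (u 3 98 (k (u 2 0 (k (c 6 4096 r r) r)) (k r (k (u 2 0 (k (c 6 4096 r r) r)) r))))
 (.c (c 3 4100 r (u 2 0 (k (u 6 0 (k (c 14 4101 r (t 10 3 r)) r)) r)))
 (.c (t 2 1 (u 3 0 (k (t 5 3 (t 7 3 v)) r)))
 (.c (t 2 1 r)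
 (.c (c 3 4099 r (u 2 0 (k (u 6 0 (k (c 14 4101 r (t 10 3 r)) r)) r)))
 (.c (c 2 4097 r (t 3 1 v))
 (.c (c 3 4098 r (u 2 0 (k (u 6 0 (k (c 14 4101 r (t 10 3 r)) r)) r)))
 (.c (c 2 4097 r r)
 (.c (c 3 4097 r (u 2 0 (k (u 6 0 (k (c 14 4101 r (t 10 3 r)) r)) r)))
 (.c (c 2 4097 r (t 3 1 v))
 (.c (c 3 4097 r (u 2 0 (k (u 6 0 (k (c 14 4101 r (t 10 3 r)) r)) r)))
 (.c (c 3 4097 r (u 2 0 (k (u 6 0 (k (c 14 4101 r (t 10 3 r)) r)) r)))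
 (.c (c 2 4097 r r)
 (.c (c 3 4096 r (u 2 0 (k (u 6 0 (k (c 14 4101 r (t 10 3 r)) r)) r)))
 (.c (c 2 4097 r (t 3 1 v))
 (.c (c 3 4095 r (u 2 0 (k (u 6 0 (k (c 14 4101 r (t 10 3 r)) r)) r)))
 (.c (c 2 4097 r r)
 (.c (c 2 4097 r r)
 (.c (c 2 4097 r r)
 (.c (c 2 4097 r (t 3 1 v))
 (.c (c 3 4095 r (u 2 0 (k (u 6 0 (k (c 14 4101 r (t 10 3 r)) r)) r)))
 (.c (c 2 4097 r r)
 (.c (c 2 4097 r (u 3 0 (k (t 7 2 r) r)))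
 (.c (c 2 4097 r (t 3 3 v))
 (.c (c 2 4097 r (u 3 0 (k (t 7 2 r) r)))
 (.c (t 2 1 r)
 (.c (c 3 4099 r (u 2 0 (k (u 6 0 (k (c 14 4101 r (t 10 3 r)) r)) r)))
 (.c (c 3 4099 r (u 2 0 (k (u 6 0 (k (c 14 4101 r (t 10 3 r)) r)) r)))
 (.c (t 3 2 r)
 (.c (u 2 0 (k (t 4 2 r) r))
 (.c (c 3 4099 r (u 2 0 (k (u 6 0 (k (c 14 4101 r (t 10 3 r)) r)) r)))
 (.c (u 3 0 (k (u 5 23 (k r (k r r))) r))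
 (.c (c 2 4097 r r)
 (.c (c 2 4097 r r)
 (.c (c 2 4097 r (u 3 0 (k (t 7 2 r) r)))
 (.c (c 3 4095 r (u 2 0 (k (u 6 0 (k (c 14 4101 r (t 10 3 r)) r)) r)))
 (.c (c 2 4097 r r)
 (.c (c 3 4101 r (u 2 0 (k (u 6 0 (k (c 14 4101 r (t 10 3 r)) r)) r)))
 (.c (c 2 4097 r r)
 (.c (c 2 4097 r (u 3 0 (k (t 7 3 r) r)))
 (.c (c 2 4097 r (u 3 1 (k v (k v r))))
 (.c (c 2 4097 r r)
 (.c (c 2 4097 r (t 3 2 v))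
 (.c (c 3 4099 r (u 2 0 (k (u 6 0 (k (c 14 4101 r (t 10 3 r)) r)) r)))
 (.c (c 2 4097 r r)
 (.c (c 3 4099 r (u 2 0 (k (u 6 0 (k (c 14 4101 r (t 10 3 r)) r)) r)))
 (.c (c 2 4097 r r)
 (.c (c 3 4098 r (u 2 0 (k (u 6 0 (k (c 14 4101 r (t 10 3 r)) r)) r)))
 (.c (c 2 4097 r (t 3 2 v))
 (.c (c 3 4098 r (u 2 0 (k (u 6 0 (k (c 14 4101 r (t 10 3 r)) r)) r)))
 (.c (c 3 4097 r (u 2 0 (k (u 6 0 (k (c 14 4101 r (t 10 3 r)) r)) r)))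
 (.c (c 2 4097 r (t 3 1 v))
 (.c (c 2 4097 r (t 3 2 v))
 (.c (c 2 4097 r (u 3 0 (k r (k r (k r r)))))
 (.c (c 2 4097 r (u 3 0 (k (t 7 2 (u 5 0 (k (c 13 4099 r r) r))) r)))
 (.c (c 3 4095 r (u 2 0 (k (u 6 0 (k (c 14 4101 r (t 10 3 r)) r)) r)))
 (.c (c 3 4095 r (u 2 0 (k (u 6 0 (k (c 14 4101 r (t 10 3 r)) r)) r)))
 (.c (t 2 1 r)
 (.c (t 2 1 r)
 (.c (c 2 4097 r (u 3 0 (k (t 7 2 r) r)))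
 (.c (c 3 4099 r (u 2 0 (k (u 6 0 (k (c 14 4101 r (t 10 3 r)) r)) r)))
 (.c (t 2 1 r)
 (.c (c 2 4097 r r)
 (.c (c 2 4097 r r)
 (.c (c 2 4097 r r)
 (.c (c 2 4097 r r)
 (.c (c 2 4097 r r)
 (.c (c 2 4097 r r)
 (.c (c 2 4097 r r)
 (.c (c 2 4097 r r)
 (.c (c 3 4097 r (u 2 0 (k (u 6 0 (k (c 14 4101 r (t 10 3 r)) r)) r)))
 (.c (c 3 4100 r (u 2 0 (k (u 6 0 (k (c 14 4101 r (t 10 3 r)) r)) r)))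
 (.c (c 2 4097 r r)
 (.c (c 3 4096 r (u 2 0 (k (u 6 0 (k (c 14 4101 r (t 10 3 r)) r)) r)))
 (.c (c 2 4097 r (u 3 0 (k (t 7 1 r) r)))
 (.c (c 2 4097 r r)
 (.c (c 2 4097 r r)
 (.c (t 2 1 r)
 (.c (t 2 1 r)
 (.c (u 3 2 (k r (k (u 2 0 (k (c 6 4096 r r) r)) (k (c 7 4099 r r) (k (c 5 4095 r (u 7 23 (k r (k r r)))) (k (c 5 4095 r (u 7 23 (k r (k r r)))) r))))))
 (.c (c 3 4097 r (u 2 0 (k (u 6 0 (k (c 14 4101 r (t 10 3 r)) r)) r)))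
 (.c (u 2 0 (k (t 4 2 (u 6 0 (k (c 14 4101 r (t 10 3 r)) r))) r))
 (.c (c 3 4099 r (u 2 0 (k (u 6 0 (k (c 14 4101 r (t 10 3 r)) r)) r)))
 (.c (c 2 4097 r r)
 (.c (c 3 4099 r (u 2 0 (k (u 6 0 (k (c 14 4101 r (t 10 3 r)) r)) r)))
 (.c (c 3 4099 r (u 2 0 (k (u 6 0 (k (c 14 4101 r (t 10 3 r)) r)) r)))
 (.c (c 3 4097 r (u 2 0 (k (u 6 0 (k (c 14 4101 r (t 10 3 r)) r)) r)))
 (.c (c 2 4097 r r)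
 (.c (t 3 1 (u 2 0 (k (c 6 4096 r (u 4 0 (k v (k r r)))) r)))
 (.c (c 2 4097 r r)
 (.c (c 2 4097 r r)
 (.c (c 2 4097 r r)
 (.c (c 3 4095 r (u 2 0 (k (u 6 0 (k (c 14 4101 r (t 10 3 r)) r)) r)))
 (.c (c 3 4100 r (u 2 0 (k (u 6 0 (k (c 14 4101 r (t 10 3 r)) r)) r)))
 (.c (c 2 4097 r r)
 (.c (c 3 4097 r (u 2 0 (k (u 6 0 (k (c 14 4101 r (t 10 3 r)) r)) r)))
 (.c (c 2 4097 r (u 3 0 (k (u 7 0 (k (c 15 4101 r (t 11 3 r)) r)) r)))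
 .z)))))))))))))))))))))))))))))))))))))))))))))))))))))))))))))))))))))))))))))))))))))))))))))))))))))))))))))))))))))))))))))))))))))))))))))

set_option maxRecDepth 100000 in
def R141 : PR :=
 (.t 123 (.t 124 (.t 87 (.c (c 2 4100 r (t 3 1 v))
 (.c (t 2 6 (t 3 1 v))
 (.c (t 2 6 (t 3 3 v))
 (.c (t 2 6 (t 3 1 v))
 (.c (t 3 1 (u 2 1 (k v (k (t 6 2 (c 3 4099 v (u 4 0 (k r r)))) r))))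
 (.c (c 2 4100 r (t 3 3 v))
 (.c (t 2 6 (t 3 3 v))
 (.c (c 2 4100 r (t 3 3 v))
 (.c (c 2 4100 r (t 3 1 v))
 (.c (c 2 4100 r (t 3 1 v))
 (.c (t 3 3 r)
 (.c (t 3 3 r)
 (.c (c 2 4100 r (t 3 1 v))
 (.c (u 3 0 (k r (k r r)))
 (.c (u 3 4 (k r (k r (k (u 2 3 (k v (k r r))) r))))
 (.c (t 2 6 (t 3 3 v))
 (.c (t 2 6 (t 3 3 v))
 (.c (u 3 0 (k (u 5 7 (k r (k r r))) r))
 (.c (t 3 1 (t 2 6 v))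
 (.c (t 2 4 (t 3 3 v))
 (.c (t 2 6 (t 3 3 v))
 (.c (t 2 6 (u 3 3 (k v (k v r))))
 (.c (t 3 2 (t 2 6 v))
 (.c (t 2 6 (u 3 0 (k (t 5 3 (t 7 1 v)) r)))
 (.c (c 2 4100 r (t 3 3 v))
 (.c (u 3 21 (k r (k r r)))
 (.c (c 2 4100 r (t 3 1 v))
 (.c (t 2 6 (u 3 0 (k (u 5 1 (k v (k v r))) r)))
 (.c (t 2 6 r)
 (.c (c 2 4100 r (t 3 5 v))
 (.c (c 2 4100 r (t 3 3 v))
 (.c (t 2 6 (u 3 0 (k (t 5 3 (t 7 1 v)) r)))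
 (.c (c 2 4100 r (t 3 3 v))
 (.c (c 2 4100 r r)
 (.c (u 2 2 (k r (k (c 3 4096 r v) r)))
 (.c (c 2 4100 r (u 3 0 (k r r)))
 (.c (u 2 3 (k r (k (t 6 2 (u 4 0 (k (t 12 2 (u 8 0 (k (t 24 1 (u 3 51 (k (c 24 4099 v (c 2 4087 (c 3 4094 v r) v)) (k r (k r (k r (k (c 24 4099 v (c 2 4087 (c 3 4094 v r) r)) r))))))) r))) r))) r)))
 (.c (c 2 4100 r (t 3 1 v))
 (.c (c 2 4100 r (u 3 0 (k (t 7 1 r) r)))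
 (.c (c 2 4100 r (t 3 3 v))
 (.c (t 2 6 (t 3 3 v))
 (.c (t 2 6 r)
 (.c (u 2 3 (k r (k (c 6 4099 r (u 4 0 (k (t 12 2 (u 8 0 (k (c 24 4099 r (u 16 0 (k r (k r (k (c 48 4099 r (u 32 0 (k (u 64 0 (k r (k r r))) r))) (k r (k (c 2 4069 r (t 3 2 v)) (k (u 32 0 (k (u 64 0 (k r (k r r))) r)) (k r (k r r)))))))))) r))) r))) r)))
 (.c (t 2 6 (u 3 0 (k (t 5 3 (t 7 3 v)) r)))
 (.c (t 2 6 r)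
 (.c (u 3 15 (k (u 2 3 (k v (k (t 6 2 r) r))) (k r (k r (k r (k (u 2 4 (k r (k (u 5 1 (k v (k v r))) r))) (k (c 7 4097 r r) r)))))))
 (.c (t 3 1 (t 2 6 v))
 (.c (t 2 6 (t 3 1 v))
 (.c (c 2 4100 r r)
 (.c (u 3 1 (k (u 2 3 (k v (k (t 6 2 r) r))) (k (c 7 4097 r r) r)))
 (.c (t 3 2 r)
 (.c (u 3 159 (k r (k r (k (t 2 6 v) r))))
 (.c (t 2 6 r)
 (.c (c 2 4100 r r)
 (.c (t 2 6 r)
 (.c (u 3 1 (k r (k (u 5 453 (k r (k r (k (t 2 6 v) (k (u 2 3 (k v (k (c 6 4099 r (u 4 0 (k (t 12 2 (u 8 0 (k (c 24 4099 r (u 16 0 (k v (k r (k (c 48 4099 r (u 32 0 (k (u 64 0 (k v (k v r))) r))) (k r (k (c 5 4091 v (c 2 4069 r v)) (k (u 32 0 (k (u 64 0 (k v (k v r))) r)) (k r (k r r)))))))))) r))) r))) r))) r))))) (k (c 5 4096 r r) (k (c 7 4096 r r) r)))))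
 (.c (t 2 6 r)
 (.c (t 2 6 r)
 (.c (t 2 6 (t 3 3 v))
 (.c (t 2 6 (t 3 2 v))
 (.c (t 2 6 (u 3 0 (k (t 7 1 r) r)))
 (.c (u 3 5 (k r (k r r)))
 (.c (c 2 4100 r r)
 (.c (c 2 4100 r (u 3 0 (k (t 7 2 r) r)))
 (.c (c 2 4100 r (t 3 3 v))
 (.c (c 2 4100 r (u 3 0 (k (t 7 2 r) r)))
 (.c (t 2 6 r)
 (.c (t 2 6 (u 3 0 (k (t 7 3 r) r)))
 (.c (t 2 6 r)
 (.c (t 2 6 (t 3 7 v))
 (.c (t 2 6 r)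
 (.c (t 3 1 r)
 (.c (u 3 0 (k (u 2 6 (k r (k r r))) r))
 (.c (c 2 4100 r r)
 (.c (t 2 6 r)
 (.c (c 2 4100 r (u 3 0 (k (t 7 2 r) r)))
 (.c (t 2 6 (t 3 1 v))
 (.c (c 2 4100 r r)
 (.c (t 2 3 (u 3 2 (k v (k r (k (t 5 1 (c 8 4110 v (c 12 4094 v (u 7 0 (k (u 11 0 (k v (k v r))) r))))) r)))))
 (.c (c 2 4100 r r)
 (.c (t 2 6 (u 3 0 (k (t 7 3 r) r)))
 (.c (c 2 4100 r (u 3 1 (k v (k v r))))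
 (.c (t 2 6 r)
 (.c (t 2 6 (u 3 0 (k r r)))
 (.c (u 3 88 (k r (k r (k r (k r (k (c 7 4096 r (c 2 4100 r r)) r))))))
 (.c (c 2 4100 r r)
 (.c (u 3 1 (k r (k r r)))
 (.c (c 2 4100 r r)
 (.c (t 2 6 r)
 (.c (t 2 6 r)
 (.c (u 3 1 (k r (k (u 2 3 (k v (k (t 6 2 r) r))) (k r (k (u 5 0 (k r (k r r))) (k (c 5 4097 r r) (k (c 5 4095 r r) r)))))))
 (.c (t 3 1 (t 2 6 v))
 (.c (t 2 6 (u 3 0 (k (t 7 1 r) r)))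
 (.c (t 2 6 (t 3 1 v))
 (.c (c 2 4100 r (u 3 0 (k r (k r (k r r)))))
 (.c (t 2 6 (t 3 3 v))
 (.c (t 2 6 (u 3 0 (k (t 7 1 r) r)))
 (.c (u 2 4 (k r (k (c 3 4095 r v) r)))
 (.c (t 2 6 r)
 (.c (t 2 6 r)
 (.c (c 2 4100 r (u 3 0 (k (t 7 2 r) r)))
 (.c (t 2 6 r)
 (.c (t 3 3 r)
 (.c (c 2 4100 r r)
 (.c (c 2 4100 r r)
 (.c (c 2 4100 r r)
 (.c (c 2 4100 r r)
 (.c (t 3 6 r)
 (.c (c 2 4100 r r)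
 (.c (c 2 4100 r r)
 (.c (c 2 4100 r r)
 (.c (t 2 6 (u 3 1 (k r (k r r))))
 (.c (c 2 4100 r r)
 (.c (t 2 6 r)
 (.c (t 2 6 (u 3 0 (k (t 7 3 r) r)))
 (.c (c 2 4100 r (u 3 0 (k (t 7 1 r) r)))
 (.c (c 2 4100 r r)
 (.c (c 2 4100 r r)
 (.c (t 3 3 r)
 (.c (t 2 6 r)
 (.c (u 2 3 (k r (k (t 6 2 (u 3 39 (k r (k (t 4 1 v) (k (t 7 1 (u 4 0 (k (t 12 2 (c 7 4099 v (u 5 1 (k (u 8 0 (k (t 24 1 r) r)) (k (u 8 0 (k (t 24 1 r) r)) r))))) r))) (k (c 5 4095 r (u 4 0 (k (t 12 2 (u 8 0 (k (t 24 1 (u 7 0 (k r (k r r)))) r))) r))) r)))))) r)))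
 (.c (t 2 6 r)
 (.c (t 2 6 r)
 (.c (u 3 3 (k r (k (u 2 3 (k v (k (t 6 2 r) r))) (k (c 7 4097 r r) (k (c 7 4096 r r) (k (c 7 4097 r r) r))))))
 (.c (c 2 4100 r r)
 (.c (t 2 6 r)
 (.c (t 2 3 (u 3 0 (k r r)))
 (.c (u 3 15 (k r (k (u 5 428 (k (c 7 4097 r (u 2 3 (k v (k (t 6 2 r) r)))) (k (c 7 4097 r (t 2 6 v)) (k (c 5 4094 v r) (k (u 7 455 (k (c 5 4097 v r) (k (c 9 4110 v r) (k (c 5 4097 v (t 2 6 v)) r)))) (k (c 7 4097 r r) (k (c 2 4100 r (t 7 1 v)) r))))))) (k (c 5 4095 r r) (k (c 5 4095 r r) (k (c 7 4097 r r) (k (c 7 4095 r r) (k (c 5 4095 r r) (k (c 5 4095 r r) r)))))))))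
 (.c (c 2 4100 r r)
 (.c (t 2 6 r)
 (.c (c 2 4100 r r)
 (.c (c 2 4100 r r)
 (.c (t 3 3 r)
 (.c (c 2 4100 r r)
 (.c (c 2 4100 r r)
 (.c (t 2 4 r)
 (.c (c 2 4100 r (u 3 0 (k (t 7 1 r) r)))
 (.c (c 2 4100 r (u 3 0 (k (u 7 0 (k (c 15 4101 r (t 11 3 r)) r)) r)))
 (.c (t 2 6 r)
 .z))))))))))))))))))))))))))))))))))))))))))))))))))))))))))))))))))))))))))))))))))))))))))))))))))))))))))))))))))))))))))))))))))))))))))))))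

set_option maxRecDepth 100000 in
def R142 : PR :=
 (.c (u 2 0 (k (t 6 2 r) r))
 (.c (u 2 0 (k (t 6 2 r) r))
 (.c (c 2 4096 r (t 3 1 v))
 (.c (c 2 4096 r (t 3 1 v))
 (.c (t 3 1 (u 2 0 (k (t 6 3 (u 4 5 (k v (k (c 12 4101 r (u 8 1 (k v (k v r)))) (k (c 8 4101 r (u 12 1 (k v (k v r)))) (k (c 8 4101 r (u 12 1 (k v (k v r)))) r)))))) r)))
 (.c (c 3 4100 r (u 2 0 (k (t 6 2 r) r)))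
 (.c (t 3 4 r)
 (.c (t 3 1 (u 2 0 (k (t 6 3 (u 4 0 (k v (k (c 12 4101 r r) (k (c 8 4101 r r) (k (c 8 4101 r r) r)))))) r)))
 (.c (c 2 4096 r (t 3 3 v))
 (.c (c 3 4099 r (u 2 0 (k (t 6 2 r) r)))
 (.c (c 2 4096 r (t 3 3 v))
 (.c (c 2 4096 r (t 3 1 v))
 (.c (c 2 4096 r (t 3 1 v))
 (.c (t 3 2 r)
 (.c (t 3 2 r)
 (.c (c 2 4096 r (t 3 1 v))
 (.c (c 3 4097 r (u 2 0 (k (t 6 2 r) r)))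
 (.c (c 3 4097 r (u 2 0 (k (t 6 2 r) r)))
 (.c (c 2 4096 r (t 3 1 v))
 (.c (t 3 1 r)
 (.c (c 3 4096 r (u 2 0 (k (t 6 2 r) r)))
 (.c (c 2 4096 r (t 3 1 v))
 (.c (t 2 2 (t 3 3 v))
 (.c (t 2 2 (t 3 3 v))
 (.c (t 2 2 (u 3 3 (k v (k v r))))
 (.c (c 3 4098 r (u 2 0 (k (t 6 2 r) r)))
 (.c (c 3 4098 r (u 2 0 (k (t 6 2 r) r)))
 (.c (c 2 4096 r (t 3 3 v))
 (.c (c 3 4097 r (u 2 0 (k (t 6 2 r) r)))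
 (.c (c 2 4096 r (t 3 1 v))
 (.c (c 3 4097 r (u 2 0 (k (t 6 2 r) r)))
 (.c (c 3 4097 r (u 2 0 (k (t 6 2 r) r)))
 (.c (c 2 4096 r (t 3 5 v))
 (.c (c 2 4096 r (t 3 3 v))
 (.c (c 3 4096 r (u 2 0 (k (t 6 2 r) r)))
 (.c (c 2 4096 r (t 3 3 v))
 (.c (c 2 4096 r r)
 (.c (c 3 4096 r (u 2 0 (k (t 6 2 r) r)))
 (.c (c 2 4096 r (u 3 0 (k r r)))
 (.c (t 3 1 r)
 (.c (c 2 4096 r (t 3 1 v))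
 (.c (c 2 4096 r (u 3 0 (k (t 7 1 r) r)))
 (.c (c 2 4096 r (t 3 3 v))
 (.c (c 3 4100 r (u 2 0 (k (t 6 2 r) r)))
 (.c (u 3 0 (k r (k r r)))
 (.c (c 3 4100 r (u 2 0 (k (t 6 2 r) r)))
 (.c (t 3 2 r)
 (.c (t 3 1 r)
 (.c (t 3 1 r)
 (.c (c 3 4098 r (u 2 0 (k (t 6 2 r) r)))
 (.c (c 3 4098 r (u 2 0 (k (t 6 2 r) r)))
 (.c (c 2 4096 r r)
 (.c (c 3 4097 r (u 2 0 (k (t 6 2 r) r)))
 (.c (c 2 4096 r (t 3 1 v))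
 (.c (c 3 4097 r (u 2 0 (k (t 6 2 r) r)))
 (.c (c 3 4097 r (u 2 0 (k (t 6 2 r) r)))
 (.c (c 2 4096 r r)
 (.c (c 3 4096 r (u 2 0 (k (t 6 2 r) r)))
 (.c (c 3 4096 r (u 2 0 (k (t 6 2 r) r)))
 (.c (c 3 4095 r (u 2 0 (k (t 6 2 r) r)))
 (.c (c 3 4095 r (u 2 0 (k (t 6 2 r) r)))
 (.c (c 3 4098 r (u 2 0 (k (t 6 2 r) r)))
 (.c (c 3 4095 r (u 2 0 (k (t 6 2 r) r)))
 (.c (c 2 4096 r (t 3 1 v))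
 (.c (c 3 4095 r (u 2 0 (k (t 6 2 r) r)))
 (.c (c 2 4096 r r)
 (.c (c 2 4096 r (u 3 0 (k (t 7 2 r) r)))
 (.c (c 2 4096 r (t 3 3 v))
 (.c (c 2 4096 r (u 3 0 (k (t 7 2 r) r)))
 (.c (t 2 1 r)
 (.c (c 3 4099 r (u 2 0 (k (t 6 2 r) r)))
 (.c (t 2 1 r)
 (.c (t 3 8 r)
 (.c (u 2 0 (k (t 6 3 (u 4 5 (k (c 10 4099 v r) (k (c 12 4101 r (t 3 1 r)) (k (c 8 4101 r (t 3 1 r)) (k (c 8 4101 r (t 3 1 r)) r)))))) r))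
 (.c (c 3 4099 r (u 2 0 (k (t 6 2 r) r)))
 (.c (t 3 2 r)
 (.c (c 2 4096 r r)
 (.c (c 2 4096 r r)
 (.c (c 2 4096 r (u 3 0 (k (t 7 2 r) r)))
 (.c (c 3 4095 r (u 2 0 (k (t 6 2 r) r)))
 (.c (c 2 4096 r r)
 (.c (t 3 2 r)
 (.c (c 2 4096 r r)
 (.c (c 2 4096 r (u 3 0 (k (t 7 3 r) r)))
 (.c (c 2 4096 r (u 3 1 (k v (k v r))))
 (.c (c 2 4096 r r)
 (.c (c 3 4100 r (u 2 0 (k (t 6 2 r) r)))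
 (.c (t 3 1 r)
 (.c (c 2 4096 r r)
 (.c (u 3 0 (k r (k r r)))
 (.c (c 2 4096 r r)
 (.c (c 3 4098 r (u 2 0 (k (t 6 2 r) r)))
 (.c (c 3 4098 r (u 2 0 (k (t 6 2 r) r)))
 (.c (c 3 4098 r (u 2 0 (k (t 6 2 r) r)))
 (.c (c 3 4097 r (u 2 0 (k (t 6 2 r) r)))
 (.c (t 3 1 r)
 (.c (c 3 4096 r (u 2 0 (k (t 6 2 r) r)))
 (.c (c 2 4096 r (u 3 0 (k r (k r (k r r)))))
 (.c (c 2 4096 r (u 3 0 (k (t 7 2 (u 5 0 (k (c 13 4099 r r) r))) r)))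
 (.c (c 3 4095 r (u 2 0 (k (t 6 2 r) r)))
 (.c (c 3 4095 r (u 2 0 (k (t 6 2 r) r)))
 (.c (t 2 1 r)
 (.c (t 2 1 r)
 (.c (c 2 4096 r (u 3 0 (k (t 7 2 r) r)))
 (.c (c 2 4096 r r)
 (.c (t 3 3 r)
 (.c (c 2 4096 r r)
 (.c (c 2 4096 r r)
 (.c (c 2 4096 r r)
 (.c (c 2 4096 r r)
 (.c (t 3 4 r)
 (.c (c 2 4096 r r)
 (.c (c 2 4096 r r)
 (.c (c 2 4096 r r)
 (.c (c 3 4097 r (u 2 0 (k (t 6 2 r) r)))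
 (.c (c 3 4100 r (u 2 0 (k (t 6 2 r) r)))
 (.c (c 3 4096 r (u 2 0 (k (t 6 2 r) r)))
 (.c (c 3 4096 r (u 2 0 (k (t 6 2 r) r)))
 (.c (c 2 4096 r (u 3 0 (k (t 7 1 r) r)))
 (.c (c 2 4096 r r)
 (.c (c 2 4096 r r)
 (.c (t 2 1 r)
 (.c (t 3 2 r)
 (.c (t 3 2 r)
 (.c (c 2 4096 r r)
 (.c (t 3 2 r)
 (.c (t 3 1 r)
 (.c (c 2 4096 r r)
 (.c (t 3 1 r)
 (.c (c 3 4099 r (u 2 0 (k (t 6 2 r) r)))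
 (.c (c 3 4097 r (u 2 0 (k (t 6 2 r) r)))
 (.c (c 2 4096 r r)
 (.c (c 3 4097 r (u 2 0 (k (t 6 2 r) r)))
 (.c (c 3 4096 r (u 2 0 (k (t 6 2 r) r)))
 (.c (c 2 4096 r r)
 (.c (c 2 4096 r r)
 (.c (c 3 4095 r (u 2 0 (k (t 6 2 r) r)))
 (.c (c 2 4096 r r)
 (.c (c 2 4096 r r)
 (.c (c 3 4097 r (u 2 0 (k (t 6 2 r) r)))
 (.c (c 2 4096 r (u 3 0 (k (u 7 0 (k (c 15 4101 r (t 11 3 r)) r)) r)))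
 (.c (c 3 4100 r (u 2 0 (k (t 6 2 r) r)))
 (.c (c 3 4096 r (u 2 0 (k (t 6 2 r) r)))
 .z)))))))))))))))))))))))))))))))))))))))))))))))))))))))))))))))))))))))))))))))))))))))))))))))))))))))))))))))))))))))))))))))))))))))))))))))

end Pool.Agent.Helper91.ND1
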