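import Pool.Agent.Helper91.VD1.DT
import Pool.Agent.Helper91.ND1.LA
import Pool.Agent.Helper91.ND1.LT
import Pool.Agent.Helper91.NF.Fast
import Pool.Agent.Helper91.ND1.LR6

/-! part of the certificate for the constant 25/48 (generated) -/

namespace Pool.Agent.Helper91.ND1

open Pool.Agent.Helper66.IL
open Pool.Agent.Helper66.ML
open Pool.Agent.Helper66.ND
open Pool.Agent.Helper91.NF
open Pool.Agent.Helper91.VZ
open Pool.Agent.Helper91.VD1 (DT)

theorem okR134 : rof A NN (vx DT) 167 134 R134 0 = true := by decide +kernel

theorem okR135 : rof A NN (vx DT) 167 135 R135 0 = true := by decide +kernel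

theorem okR136 : rof A NN (vx DT) 167 136 R136 0 = true := by decide +kernel

theorem okR137 : rof A NN (vx DT) 167 137 R137 0 = true := by decide +kernel

theorem okR138 : rof A NN (vx DT) 167 138 R138 0 = true := by decide +kernel

theorem okR139 : rof A NN (vx DT) 167 139 R139 0 = true := by decide +kernel

theorem okR140 : rof A NN (vx DT) 167 140 R140 0 = true := by decide +kernel

theorem okR141 : rof A NN (vx DT) 167 141 R141 0 = true := by decide +kernel

theorem okR142 : rof A NN (vx DT) 167 142 R142 0 = true := by decide +kernel

end Pool.Agent.Helper91.ND1
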