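import Pool.Agent.Helper91.VD1.DT
import Pool.Agent.Helper91.ND1.LA
import Pool.Agent.Helper91.ND1.LT
import Pool.Agent.Helper91.NF.Fast
import Pool.Agent.Helper91.ND1.LR7

/-! part of the certificate for the constant 25/48 (generated) -/

namespace Pool.Agent.Helper91.ND1

open Pool.Agent.Helper66.IL
open Pool.Agent.Helper66.ML
open Pool.Agent.Helper66.ND
open Pool.Agent.Helper91.NF
open Pool.Agent.Helper91.VZ
open Pool.Agent.Helper91.VD1 (DT)

theorem okR143 : rof A NN (vx DT) 167 143 R143 0 = true := by decide +kernel

theorem okR144 : rof A NN (vx DT) 167 144 R144 0 = true := by decide +kernel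

theorem okR145 : rof A NN (vx DT) 167 145 R145 0 = true := by decide +kernel

theorem okR146 : rof A NN (vx DT) 167 146 R146 0 = true := by decide +kernel

theorem okR147 : rof A NN (vx DT) 167 147 R147 0 = true := by decide +kernel

end Pool.Agent.Helper91.ND1
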