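import Pool.Agent.Helper66.ND.Defs

/-! part of the certificate for the constant 25/48 (generated) -/

namespace Pool.Agent.Helper91.ND1

open Pool.Agent.Helper66.IL
open Pool.Agent.Helper66.ND
open Pool.Agent.Helper66.ND.LT
open Pool.Agent.Helper66.ND.Ct

set_option maxRecDepth 100000 in
def R148 : PR :=
 (.t 149 (.c (u 2 0 (k (t 6 1 r) (k (t 4 2 r) (k (t 4 1 r) r))))
 (.c (c 2 4096 r (t 3 1 v))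
 (.c (c 2 4096 r (t 3 1 v))
 (.c (t 2 3 (t 3 1 v))
 (.c (t 2 3 (t 3 3 v))
 (.c (t 2 3 (t 3 1 v))
 (.c (t 3 1 (u 2 0 (k (t 4 1 r) (k (t 6 1 r) (k (t 6 1 r) r)))))
 (.c (c 2 4096 r (t 3 3 v))
 (.c (t 2 3 (t 3 3 v))
 (.c (c 2 4096 r (t 3 3 v))
 (.c (c 2 4096 r (t 3 1 v))
 (.c (c 2 4096 r (t 3 1 v))
 (.c (t 3 2 (u 2 0 (k r (k r (k r r)))))
 (.c (t 3 2 (u 2 0 (k r (k r (k r r)))))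
 (.c (c 2 4096 r (t 3 1 v))
 (.c (u 3 0 (k r (k r r)))
 (.c (c 3 4097 r (u 2 0 (k (t 6 1 r) (k (t 4 2 r) (k (t 4 1 r) r)))))
 (.c (c 2 4096 r (t 3 1 v))
 (.c (t 3 1 r)
 (.c (t 3 2 (u 2 0 (k r (k r (k r r)))))
 (.c (c 2 4096 r (t 3 1 v))
 (.c (t 2 2 (t 3 3 v))
 (.c (t 2 3 (t 3 3 v))
 (.c (t 2 3 (u 3 3 (k v (k v r))))
 (.c (t 3 2 r)
 (.c (t 3 2 r)
 (.c (c 2 4096 r (t 3 3 v))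
 (.c (u 2 0 (k (t 6 1 r) (k (t 4 2 r) (k (t 4 1 r) r))))
 (.c (c 2 4096 r (t 3 1 v))
 (.c (c 3 4097 r (u 2 0 (k (t 6 1 r) (k (t 4 2 r) (k (t 4 1 r) r)))))
 (.c (t 2 3 r)
 (.c (c 2 4096 r (t 3 5 v))
 (.c (c 2 4096 r (t 3 3 v))
 (.c (u 3 0 (k (t 5 3 (t 7 1 (u 2 0 (k (t 4 1 r) (k (t 6 1 r) (k (t 6 1 r) r)))))) r))
 (.c (c 2 4096 r (t 3 3 v))
 (.c (c 2 4096 r r)
 (.c (u 3 17 (k r (k (u 2 0 (k r (k r (k r r)))) (k (u 2 0 (k r (k r (k r r)))) r))))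
 (.c (c 2 4096 r (u 3 0 (k r r)))
 (.c (u 2 0 (k (t 6 1 r) (k (t 4 2 r) (k (t 4 1 r) r))))
 (.c (c 2 4096 r (t 3 1 v))
 (.c (c 2 4096 r (u 3 0 (k (t 7 1 r) r)))
 (.c (c 2 4096 r (t 3 3 v))
 (.c (t 2 3 (t 3 3 v))
 (.c (t 2 3 r)
 (.c (t 3 2 (u 2 0 (k r (k r (k r r)))))
 (.c (t 2 3 (u 3 0 (k (t 5 3 (t 7 3 v)) r)))
 (.c (t 3 1 r)
 (.c (u 2 0 (k (t 6 1 r) (k (t 4 2 r) (k (t 4 1 r) r))))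
 (.c (t 2 3 (t 3 1 v))
 (.c (t 3 1 r)
 (.c (c 2 4096 r r)
 (.c (t 3 1 (u 2 0 (k r (k r (k r r)))))
 (.c (c 2 4096 r (t 3 1 v))
 (.c (u 3 454 (k r (k (u 2 0 (k r (k r (k r r)))) (k r (k r r)))))
 (.c (t 2 3 r)
 (.c (c 2 4096 r r)
 (.c (u 3 3 (k (u 2 0 (k r (k r (k r r)))) (k (u 2 0 (k (t 6 1 r) (k (t 4 2 r) (k (t 4 1 r) r)))) r)))
 (.c (t 3 1 (u 2 0 (k r (k r (k r r)))))
 (.c (c 3 4095 r (u 2 0 (k (t 6 1 r) (k (t 4 2 r) (k (t 4 1 r) r)))))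
 (.c (c 3 4095 r (u 2 0 (k (t 6 1 r) (k (t 4 2 r) (k (t 4 1 r) r)))))
 (.c (c 2 4096 r r)
 (.c (c 3 4095 r (u 2 0 (k (t 6 1 r) (k (t 4 2 r) (k (t 4 1 r) r)))))
 (.c (c 2 4096 r (t 3 1 v))
 (.c (c 3 4095 r (u 2 0 (k (t 6 1 r) (k (t 4 2 r) (k (t 4 1 r) r)))))
 (.c (c 2 4096 r r)
 (.c (c 2 4096 r (u 3 0 (k (t 7 2 r) r)))
 (.c (c 2 4096 r (t 3 3 v))
 (.c (c 2 4096 r (u 3 0 (k (t 7 2 r) r)))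
 (.c (t 2 3 r)
 (.c (c 2 4096 r r)
 (.c (t 2 3 r)
 (.c (t 3 2 r)
 (.c (u 2 0 (k (t 6 1 r) (k (t 4 2 r) (k (t 4 1 r) r))))
 (.c (t 3 1 r)
 (.c (u 3 0 (k (u 5 0 (k r (k (c 5 4094 v (u 2 0 (k r (k r (k r r))))) r))) r))
 (.c (c 2 4096 r r)
 (.c (c 2 4096 r r)
 (.c (c 2 4096 r (u 3 0 (k (t 7 2 r) r)))
 (.c (c 3 4095 r (u 2 0 (k (t 6 1 r) (k (t 4 2 r) (k (t 4 1 r) r)))))
 (.c (c 2 4096 r r)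
 (.c (u 2 0 (k (t 6 1 r) (k (t 4 2 r) (k (t 4 1 r) r))))
 (.c (c 2 4096 r r)
 (.c (c 2 4096 r (u 3 0 (k (t 7 3 r) r)))
 (.c (c 2 4096 r (u 3 1 (k v (k v r))))
 (.c (c 2 4096 r r)
 (.c (t 2 3 (u 3 0 (k r r)))
 (.c (u 2 0 (k (t 6 1 r) (k (t 4 2 r) (k (t 4 1 r) r))))
 (.c (c 2 4096 r r)
 (.c (u 3 1 (k r (k r r)))
 (.c (c 3 4095 r (u 2 0 (k (t 6 1 r) (k (t 4 2 r) (k (t 4 1 r) r)))))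
 (.c (t 2 3 r)
 (.c (t 3 2 (u 2 0 (k r (k r (k r r)))))
 (.c (t 3 2 (u 2 0 (k r (k r (k r r)))))
 (.c (t 2 3 (t 3 1 v))
 (.c (t 2 3 (u 3 0 (k (t 7 1 r) r)))
 (.c (t 2 1 (t 3 1 v))
 (.c (c 2 4096 r (u 3 0 (k r (k r (k r r)))))
 (.c (c 2 4096 r (u 3 0 (k (t 7 2 (u 5 0 (k (c 13 4099 r r) r))) r)))
 (.c (c 3 4095 r (u 2 0 (k (t 6 1 r) (k (t 4 2 r) (k (t 4 1 r) r)))))
 (.c (c 3 4095 r (u 2 0 (k (t 6 1 r) (k (t 4 2 r) (k (t 4 1 r) r)))))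
 (.c (t 2 3 r)
 (.c (t 2 3 r)
 (.c (c 2 4096 r (u 3 0 (k (t 7 2 r) r)))
 (.c (c 2 4096 r r)
 (.c (t 2 3 r)
 (.c (c 2 4096 r r)
 (.c (c 2 4096 r r)
 (.c (c 2 4096 r r)
 (.c (c 2 4096 r r)
 (.c (t 3 6 r)
 (.c (c 3 4097 r (u 2 0 (k (t 6 1 r) (k (t 4 2 r) (k (t 4 1 r) r)))))
 (.c (c 2 4096 r r)
 (.c (c 2 4096 r r)
 (.c (t 2 3 (u 3 1 (k r (k r r))))
 (.c (c 2 4096 r r)
 (.c (c 2 4096 r r)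
 (.c (t 2 2 (u 3 0 (k (t 7 3 r) r)))
 (.c (c 2 4096 r (u 3 0 (k (t 7 1 r) r)))
 (.c (c 2 4096 r r)
 (.c (c 2 4096 r r)
 (.c (t 2 3 r)
 (.c (t 3 3 r)
 (.c (u 2 0 (k (t 6 1 r) (k (t 4 2 r) (k (t 4 1 r) r))))
 (.c (c 2 4096 r r)
 (.c (t 2 3 r)
 (.c (u 3 10 (k r (k (u 2 0 (k r (k r (k r r)))) (k (c 7 4097 r r) (k (c 7 4097 r r) r)))))
 (.c (c 2 4096 r r)
 (.c (t 3 1 r)
 (.c (t 3 2 (u 2 0 (k r (k r (k r r)))))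
 (.c (t 3 1 (u 2 0 (k r (k r (k r r)))))
 (.c (c 2 4096 r r)
 (.c (t 3 1 r)
 (.c (c 2 4096 r r)
 (.c (c 2 4096 r r)
 (.c (c 2 4096 r r)
 (.c (c 3 4095 r (u 2 0 (k (t 6 1 r) (k (t 4 2 r) (k (t 4 1 r) r)))))
 (.c (c 2 4096 r r)
 (.c (c 2 4096 r r)
 (.c (c 3 4097 r (u 2 0 (k (t 6 1 r) (k (t 4 2 r) (k (t 4 1 r) r)))))
 (.c (c 3 4097 r (u 2 0 (k (t 6 1 r) (k (t 4 2 r) (k (t 4 1 r) r)))))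
 (.c (t 3 6 r)
 (.c (c 2 4096 r (u 3 0 (k (t 7 2 r) r)))
 (.c (c 2 4096 r (u 3 5 (k (t 7 1 (u 5 0 (k r r))) (k (t 7 2 r) (k (t 7 2 (u 5 0 (k (c 13 4097 r r) r))) (k (t 7 1 (u 5 0 (k (c 13 4100 r r) (k (c 13 4103 r r) (k (c 13 4100 r r) r))))) r))))))
 (.c (c 2 4096 r (u 3 0 (k (u 7 11 (k r (k r (k (c 5 4101 r (t 15 1 r)) r)))) r)))
 (.c (c 2 4096 r r)
 (.c (c 3 4095 r (u 2 0 (k (t 6 1 r) (k (t 4 2 r) (k (t 4 1 r) r)))))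
 (.c (c 2 4096 r (u 3 0 (k (u 7 0 (k r (k r (k r (k r (k r (k r r))))))) (k r (k r (k (t 5 2 (u 7 0 (k r r))) (k r (k r (k r (k (u 7 1 (k r (k (c 15 4097 r (u 11 0 (k r (k r r)))) r))) (k r (k (t 7 2 r) (k r (k r (k r (k r (k r r)))))))))))))))))
 (.c (t 2 3 r)
 .z)))))))))))))))))))))))))))))))))))))))))))))))))))))))))))))))))))))))))))))))))))))))))))))))))))))))))))))))))))))))))))))))))))))))))))))))))))))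

set_option maxRecDepth 100000 in
def R149 : PR :=
 (.c (u 2 0 (k (c 6 4097 r r) r))
 (.c (u 2 0 (k (c 6 4097 r r) r))
 (.c (c 2 4093 r (t 3 1 v))
 (.c (c 2 4093 r (t 3 1 v))
 (.c (t 2 1 (t 3 1 v))
 (.c (c 2 4093 r (t 3 2 v))
 (.c (t 2 1 (t 3 1 v))
 (.c (c 3 4099 r (u 2 0 (k (c 6 4097 r r) r)))
 (.c (c 2 4093 r (t 3 3 v))
 (.c (c 2 4093 r (t 3 4 v))
 (.c (c 2 4093 r (t 3 3 v))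
 (.c (c 2 4093 r (t 3 1 v))
 (.c (c 2 4093 r (t 3 1 v))
 (.c (c 2 4093 r (t 3 2 v))
 (.c (c 2 4093 r (t 3 2 v))
 (.c (c 2 4093 r (t 3 1 v))
 (.c (c 2 4093 r (u 3 0 (k v (k v r))))
 (.c (c 3 4097 r (u 2 0 (k (c 6 4097 r r) r)))
 (.c (c 2 4093 r (t 3 1 v))
 (.c (c 2 4093 r (t 3 1 v))
 (.c (c 2 4093 r (t 3 2 v))
 (.c (c 2 4093 r (t 3 1 v))
 (.c (c 3 4099 r (u 2 0 (k (c 6 4097 r r) r)))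
 (.c (c 2 4093 r (t 3 3 v))
 (.c (c 2 4093 r (u 3 0 (k v (k v r))))
 (.c (c 2 4093 r (t 3 3 v))
 (.c (c 2 4093 r (u 3 0 (k (t 5 3 (t 7 1 v)) r)))
 (.c (c 2 4093 r (t 3 3 v))
 (.c (c 3 4097 r (u 2 0 (k (c 6 4097 r r) r)))
 (.c (c 2 4093 r (t 3 1 v))
 (.c (c 3 4097 r (u 2 0 (k (c 6 4097 r r) r)))
 (.c (c 2 4093 r (t 3 4 v))
 (.c (c 2 4093 r (t 3 5 v))
 (.c (c 2 4093 r (t 3 3 v))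
 (.c (c 3 4096 r (u 2 0 (k (c 6 4097 r r) r)))
 (.c (c 2 4093 r (t 3 3 v))
 (.c (c 2 4093 r r)
 (.c (c 3 4096 r (u 2 0 (k (c 6 4097 r r) r)))
 (.c (c 2 4093 r (u 3 0 (k r r)))
 (.c (u 2 0 (k (c 6 4097 r r) r))
 (.c (c 2 4093 r (t 3 1 v))
 (.c (c 2 4093 r (u 3 0 (k (t 7 1 r) r)))
 (.c (c 2 4093 r (t 3 3 v))
 (.c (c 2 4093 r (t 3 6 v))
 (.c (u 3 1 (k (u 2 0 (k (c 6 4097 r r) r)) (k (u 2 0 (k (c 6 4097 r r) r)) r)))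
 (.c (c 2 4093 r (t 3 2 v))
 (.c (c 2 4093 r (t 3 2 v))
 (.c (t 2 1 (t 3 1 v))
 (.c (c 3 4099 r (u 2 0 (k (c 6 4097 r r) r)))
 (.c (c 2 4093 r (t 3 1 v))
 (.c (c 2 4093 r (t 3 1 v))
 (.c (c 2 4093 r r)
 (.c (c 2 4093 r (t 3 1 v))
 (.c (c 2 4093 r (t 3 1 v))
 (.c (c 2 4093 r r)
 (.c (c 2 4093 r (t 3 1 v))
 (.c (c 2 4093 r r)
 (.c (c 2 4093 r r)
 (.c (c 2 4093 r (t 3 1 v))
 (.c (c 2 4093 r r)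
 (.c (c 2 4093 r r)
 (.c (c 3 4098 r (u 2 0 (k (c 6 4097 r r) r)))
 (.c (c 2 4093 r r)
 (.c (c 2 4093 r (t 3 1 v))
 (.c (c 3 4095 r (u 2 0 (k (c 6 4097 r r) r)))
 (.c (c 2 4093 r r)
 (.c (c 2 4093 r (u 3 0 (k (t 7 2 r) r)))
 (.c (c 2 4093 r (t 3 3 v))
 (.c (c 2 4093 r (u 3 0 (k (t 7 2 r) r)))
 (.c (u 2 0 (k (c 6 4097 r (u 3 14 (k r (k r (k r (k r (k r (k r (k (c 2 4092 r (t 7 2 (u 5 0 (k r r)))) (k (c 7 4101 r (u 5 1 (k r (k r r)))) (k r (k (c 7 4102 r (u 5 1 (k r (k r r)))) (k (c 5 4101 r (u 7 1 (k r (k r r)))) (k r (k (c 5 4101 r (u 7 1 (k r (k r r)))) r))))))))))))))) r))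
 (.c (c 2 4093 r r)
 (.c (c 2 4093 r r)
 (.c (t 3 2 (u 2 0 (k (c 6 4097 r r) r)))
 (.c (u 2 0 (k (c 6 4097 r r) r))
 (.c (c 3 4099 r (u 2 0 (k (c 6 4097 r r) r)))
 (.c (u 3 0 (k (u 2 0 (k (c 6 4097 r (u 5 0 (k r (k r r)))) r)) r))
 (.c (c 2 4093 r r)
 (.c (c 2 4093 r r)
 (.c (c 2 4093 r (u 3 0 (k (t 7 2 r) r)))
 (.c (c 3 4095 r (u 2 0 (k (c 6 4097 r r) r)))
 (.c (c 2 4093 r r)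
 (.c (c 3 4101 r (u 2 0 (k (c 6 4097 r r) r)))
 (.c (c 2 4093 r r)
 (.c (c 2 4093 r (u 3 0 (k (t 7 3 r) r)))
 (.c (c 2 4093 r (u 3 1 (k v (k v r))))
 (.c (c 2 4093 r r)
 (.c (c 2 4093 r (t 3 2 v))
 (.c (c 3 4099 r (u 2 0 (k (c 6 4097 r r) r)))
 (.c (c 2 4093 r r)
 (.c (c 3 4099 r (u 2 0 (k (c 6 4097 r r) r)))
 (.c (c 2 4093 r r)
 (.c (c 2 4093 r r)
 (.c (c 2 4093 r (t 3 2 v))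
 (.c (c 2 4093 r (t 3 2 v))
 (.c (c 2 4093 r (t 3 1 v))
 (.c (c 2 4093 r (t 3 1 v))
 (.c (c 2 4093 r (t 3 2 v))
 (.c (c 2 4093 r (u 3 0 (k r (k r (k r r)))))
 (.c (c 2 4093 r (u 3 0 (k (t 7 2 (u 5 0 (k (c 13 4099 r r) r))) r)))
 (.c (c 3 4095 r (u 2 0 (k (c 6 4097 r r) r)))
 (.c (c 3 4095 r (u 2 0 (k (c 6 4097 r r) r)))
 (.c (c 2 4093 r (u 3 5 (k v (k r (k (t 5 1 (u 7 0 (k (t 11 3 (t 15 1 v)) r))) (k (t 5 2 (u 7 0 (k (t 11 3 (t 15 1 v)) r))) (k (t 5 1 (u 7 0 (k (t 11 3 (t 15 1 v)) r))) r)))))))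
 (.c (t 3 3 (u 2 0 (k (c 6 4097 r r) r)))
 (.c (c 2 4093 r (u 3 0 (k (t 7 2 r) r)))
 (.c (c 3 4099 r (u 2 0 (k (c 6 4097 r r) r)))
 (.c (c 2 4093 r r)
 (.c (c 2 4093 r r)
 (.c (c 2 4093 r r)
 (.c (c 2 4093 r r)
 (.c (c 2 4093 r r)
 (.c (c 2 4093 r r)
 (.c (c 2 4093 r r)
 (.c (c 2 4093 r r)
 (.c (c 2 4093 r r)
 (.c (c 3 4097 r (u 2 0 (k (c 6 4097 r r) r)))
 (.c (c 2 4093 r r)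
 (.c (c 2 4093 r r)
 (.c (c 2 4093 r r)
 (.c (c 2 4093 r (u 3 0 (k (t 7 1 r) r)))
 (.c (c 2 4093 r r)
 (.c (c 2 4093 r r)
 (.c (t 2 1 r)
 (.c (t 3 3 (u 2 0 (k (c 6 4097 r r) r)))
 (.c (u 2 0 (k (c 6 4097 r r) r))
 (.c (c 2 4093 r r)
 (.c (u 2 0 (k (c 6 4097 r r) r))
 (.c (c 3 4099 r (u 2 0 (k (c 6 4097 r r) r)))
 (.c (c 2 4093 r r)
 (.c (c 3 4099 r (u 2 0 (k (c 6 4097 r r) r)))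
 (.c (c 2 4093 r (t 3 2 v))
 (.c (c 2 4093 r (t 3 1 v))
 (.c (c 2 4093 r r)
 (.c (c 2 4093 r (t 3 1 v))
 (.c (c 2 4093 r r)
 (.c (c 2 4093 r r)
 (.c (c 2 4093 r r)
 (.c (c 2 4093 r r)
 (.c (c 2 4093 r r)
 (.c (c 2 4093 r r)
 (.c (c 2 4093 r (u 3 0 (k (t 7 1 r) r)))
 (.c (c 2 4093 r (u 3 0 (k (u 7 0 (k (c 15 4101 r (t 11 3 r)) r)) r)))
 (.c (c 3 4100 r (u 2 0 (k (c 6 4097 r r) r)))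
 (.c (c 2 4093 r (u 3 0 (k (t 7 2 r) r)))
 (.c (c 2 4093 r (u 3 5 (k (t 7 1 (u 5 0 (k r r))) (k (t 7 2 r) (k (t 7 2 (u 5 0 (k (c 13 4097 r r) r))) (k (t 7 1 (u 5 0 (k (c 13 4100 r r) (k (c 13 4103 r r) (k (c 13 4100 r r) r))))) r))))))
 (.c (c 2 4093 r (u 3 0 (k (u 7 11 (k r (k r (k (c 5 4101 r (t 15 1 r)) r)))) r)))
 (.c (c 2 4093 r r)
 (.c (c 2 4093 r r)
 (.c (c 2 4093 r (u 3 0 (k (u 7 0 (k r (k r (k r (k r (k r (k r r))))))) (k r (k r (k (t 5 2 (u 7 0 (k r r))) (k r (k r (k r (k (u 7 1 (k r (k (c 15 4097 r (u 11 0 (k r (k r r)))) r))) (k r (k (t 7 2 r) (k r (k r (k r (k r (k r r)))))))))))))))))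
 (.c (c 2 4093 r (u 3 0 (k (t 7 1 r) (k (t 5 2 r) (k (t 5 1 r) r)))))
 (.c (c 2 4093 r (u 3 0 (k (c 7 4097 r r) r)))
 .z))))))))))))))))))))))))))))))))))))))))))))))))))))))))))))))))))))))))))))))))))))))))))))))))))))))))))))))))))))))))))))))))))))))))))))))))))))))

set_option maxRecDepth 100000 in
def R150 : PR :=
 (.t 77 (.c r
 (.c (t 3 1 r)
 (.c (t 3 1 r)
 (.c (t 2 1 (t 3 1 v))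
 (.c (t 2 1 (t 3 3 v))
 (.c (t 2 1 (t 3 2 v))
 (.c (t 3 1 (u 2 7 (k v (k (t 6 3 r) (k (c 3 4099 v r) (k (c 3 4099 v r) (k (t 6 2 r) (k (t 6 2 r) (k (c 3 4099 v r) (k (u 4 32 (k r (k r (k (u 6 2 (k v (k v r))) (k (c 12 4097 r (u 6 2 (k r (k r r)))) (k (c 8 4095 r (u 6 2 (k r (k r r)))) (k (c 8 4095 r (c 3 4099 v (u 12 0 (k r (k r r))))) (k (c 12 4095 r r) (k (c 8 4095 r (u 6 2 (k r (k r r)))) (k (c 8 4095 r r) r)))))))))) r))))))))))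
 (.c (c 2 4099 r (t 3 3 v))
 (.c (t 2 1 (t 3 3 v))
 (.c (c 2 4099 r (t 3 3 v))
 (.c (c 2 4099 r (t 3 1 v))
 (.c (c 2 4099 r (t 3 1 v))
 (.c (t 3 2 r)
 (.c (t 3 2 r)
 (.c (c 2 4099 r (t 3 1 v))
 (.c (u 3 0 (k r (k r r)))
 (.c (c 3 4097 r r)
 (.c (t 3 1 r)
 (.c (t 3 1 r)
 (.c (t 2 1 (u 3 0 (k (u 5 0 (k v (k v r))) r)))
 (.c (c 3 4095 r r)
 (.c (t 2 1 (t 3 3 v))
 (.c (t 2 1 (t 3 3 v))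
 (.c (t 2 1 (u 3 3 (k v (k v r))))
 (.c (t 3 1 r)
 (.c (t 3 1 r)
 (.c (c 2 4099 r (t 3 3 v))
 (.c (t 2 1 r)
 (.c (c 2 4099 r (t 3 1 v))
 (.c (c 3 4097 r r)
 (.c (t 2 1 (t 3 2 v))
 (.c (c 2 4099 r (t 3 5 v))
 (.c (c 2 4099 r (t 3 3 v))
 (.c (u 3 0 (k (t 5 3 (t 7 1 (u 2 14 (k v (k (t 6 3 (u 4 77 (k v (k v (k v (k (c 8 4095 r (c 3 4096 v r)) (k (c 8 4095 r (c 3 4096 v r)) r))))))) (k (c 3 4096 v r) (k (c 3 4096 v r) (k (t 6 2 r) (k (t 6 2 r) (k (c 3 4096 v r) (k (t 4 1 (u 6 1 (k v (k v r)))) r))))))))))) r))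
 (.c (c 2 4099 r (t 3 3 v))
 (.c (c 2 4099 r r)
 (.c (u 3 0 (k r (k r (k r r))))
 (.c (c 2 4099 r (u 3 0 (k r r)))
 (.c (t 3 1 r)
 (.c (c 2 4099 r (t 3 1 v))
 (.c (c 2 4099 r (u 3 0 (k (t 7 1 r) r)))
 (.c (c 2 4099 r (t 3 3 v))
 (.c (t 3 6 r)
 (.c (u 3 0 (k r (k r r)))
 (.c (t 2 1 r)
 (.c (t 3 2 r)
 (.c (t 3 1 r)
 (.c (t 2 1 r)
 (.c (t 3 1 r)
 (.c (t 3 1 r)
 (.c (c 2 4099 r r)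
 (.c (t 3 1 r)
 (.c (c 3 4097 r r)
 (.c (u 2 15 (k r (k r (k (t 6 2 r) (k (t 6 1 r) (k (c 3 4097 r r) (k (t 6 2 r) (k (c 3 4097 r r) (k (t 6 1 r) r)))))))))
 (.c (t 3 1 r)
 (.c (c 2 4099 r r)
 (.c (u 3 7 (k r (k (u 2 7 (k v (k (t 6 3 (u 4 1 (k v (k (c 12 4099 r (u 8 1 (k v (k v r)))) (k (c 8 4097 r (c 3 4090 v r)) (k (c 8 4095 r (c 3 4090 v r)) (k (c 8 4095 r (c 3 4090 v r)) r))))))) (k (c 3 4090 v r) (k (t 4 1 r) (k (t 6 2 (c 3 4090 v r)) (k (t 6 2 (c 3 4090 v r)) (k (c 3 4090 v r) (k (t 6 1 r) r))))))))) r)))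
 (.c (t 2 1 r)
 (.c (c 3 4095 r r)
 (.c (c 3 4095 r r)
 (.c (t 2 1 (t 3 3 v))
 (.c (c 3 4095 r r)
 (.c (c 3 4095 r r)
 (.c (c 3 4095 r r)
 (.c (c 2 4099 r r)
 (.c (t 3 4 r)
 (.c (c 2 4099 r (t 3 3 v))
 (.c (c 2 4099 r (u 3 0 (k (t 7 2 r) r)))
 (.c (u 3 23 (k r (k r r)))
 (.c (t 2 1 (u 3 0 (k (t 7 3 r) r)))
 (.c (t 3 3 r)
 (.c (t 3 8 r)
 (.c (u 3 13 (k r (k r (k r (k (c 7 4099 r (u 2 3 (k (u 5 1 (k v (k v r))) (k (u 5 1 (k v (k v r))) (k (t 6 3 (u 4 1 (k (u 5 1 (k v (k v r))) (k (c 12 4099 r r) (k (c 8 4097 r (c 5 4100 r r)) (k (c 8 4095 r r) (k (c 8 4095 r r) r))))))) r))))) r)))))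
 (.c (t 3 4 r)
 (.c (t 3 2 r)
 (.c (t 3 2 r)
 (.c (u 3 25 (k r (k r r)))
 (.c (c 2 4099 r (u 3 0 (k (t 7 2 r) r)))
 (.c (c 3 4095 r r)
 (.c (c 2 4099 r r)
 (.c (t 2 1 r)
 (.c (t 2 1 (t 3 1 v))
 (.c (t 2 1 (u 3 0 (k (t 7 3 r) r)))
 (.c (c 2 4099 r (u 3 1 (k v (k v r))))
 (.c (t 3 1 r)
 (.c (t 2 1 (u 3 0 (k (u 5 0 (k v (k r r))) r)))
 (.c (t 2 1 r)
 (.c (t 3 3 r)
 (.c (u 3 0 (k r (k r r)))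
 (.c (c 2 4099 r r)
 (.c (u 3 3 (k r (k r r)))
 (.c (t 2 1 r)
 (.c (t 2 1 r)
 (.c (t 3 1 r)
 (.c (t 3 1 r)
 (.c (t 2 1 (t 3 1 v))
 (.c (c 3 4095 r r)
 (.c (c 3 4095 r r)
 (.c (c 3 4095 r r)
 (.c (c 3 4095 r r)
 (.c (t 3 4 r)
 (.c (t 3 2 r)
 (.c (c 2 4099 r (u 3 0 (k (t 7 2 r) r)))
 (.c (t 2 1 r)
 (.c (t 3 3 r)
 (.c (c 2 4099 r r)
 (.c (c 2 4099 r r)
 (.c (c 2 4099 r r)
 (.c (c 2 4099 r r)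
 (.c (t 3 4 r)
 (.c (c 3 4097 r r)
 (.c (c 2 4099 r r)
 (.c (c 2 4099 r r)
 (.c (t 2 1 r)
 (.c (c 2 4099 r r)
 (.c (t 3 1 r)
 (.c (u 3 0 (k (c 5 4095 r (t 7 3 r)) r))
 (.c (c 2 4099 r (u 3 0 (k (t 7 1 r) r)))
 (.c (c 2 4099 r r)
 (.c (t 3 3 r)
 (.c (t 2 1 r)
 (.c (t 3 2 r)
 (.c (t 2 1 r)
 (.c (t 3 2 r)
 (.c (t 3 2 r)
 (.c (t 2 1 r)
 (.c (t 3 2 r)
 (.c (t 3 1 r)
 (.c (t 3 2 r)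
 (.c (t 2 1 r)
 (.c (c 2 4099 r r)
 (.c (t 3 1 r)
 (.c (c 2 4099 r r)
 (.c (c 2 4099 r r)
 (.c (t 3 3 r)
 (.c (c 3 4095 r r)
 (.c (c 2 4099 r r)
 (.c (t 2 1 r)
 (.c (c 3 4097 r r)
 (.c (c 3 4097 r r)
 (.c (t 3 6 r)
 (.c (t 3 1 r)
 (.c (t 3 1 r)
 (.c (c 2 4099 r (u 3 0 (k (u 7 11 (k r (k r (k (c 5 4101 r (t 15 1 r)) r)))) r)))
 (.c (t 3 2 r)
 (.c (c 3 4095 r r)
 (.c (c 2 4099 r (u 3 0 (k (u 7 0 (k r (k r (k r (k r (k r (k r r))))))) (k r (k r (k (t 5 2 (u 7 0 (k r r))) (k r (k r (k r (k (u 7 1 (k r (k (c 15 4097 r (u 11 0 (k r (k r r)))) r))) (k r (k (t 7 2 r) (k r (k r (k r (k r (k r r)))))))))))))))))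
 (.c (t 3 3 r)
 (.c (c 3 4093 r r)
 (.c (u 2 16 (k r (k r r)))
 .z)))))))))))))))))))))))))))))))))))))))))))))))))))))))))))))))))))))))))))))))))))))))))))))))))))))))))))))))))))))))))))))))))))))))))))))))))))))))

set_option maxRecDepth 100000 in
def R151 : PR :=
 (.c r
 (.c r
 (.t 78 (.c (t 3 1 r)
 (.c (c 3 4101 r r)
 (.c (c 3 4100 r r)
 (.c (c 3 4100 r r)
 (.c (c 3 4099 r r)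
 (.c (c 2 4102 r (t 3 3 v))
 (.c (c 3 4099 r r)
 (.c (c 2 4102 r (t 3 3 v))
 (.c (c 2 4102 r (t 3 1 v))
 (.c (c 2 4102 r (t 3 1 v))
 (.t 78 (.t 155 (.c (c 2 4102 r (t 3 1 v))
 (.c (c 3 4097 r r)
 (.c (c 3 4097 r r)
 (.c (t 3 1 r)
 (.c (t 3 1 r)
 (.c (c 3 4096 r r)
 (.c (c 3 4095 r r)
 (.c (c 3 4099 r r)
 (.c (t 3 3 (u 2 6 (k v (k v r))))
 (.c (u 2 6 (k (u 3 3 (k v (k v r))) (k (u 3 3 (k v (k v r))) r)))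
 (.c (c 3 4098 r r)
 (.c (c 3 4098 r r)
 (.c (c 2 4102 r (t 3 3 v))
 (.c (c 3 4097 r r)
 (.c (c 2 4102 r (t 3 1 v))
 (.c (c 3 4097 r r)
 (.c (c 3 4097 r r)
 (.c (c 3 4096 r r)
 (.c (c 2 4102 r (t 3 3 v))
 (.c (c 3 4096 r r)
 (.c (c 2 4102 r (t 3 3 v))
 (.c (c 2 4102 r r)
 (.c (c 3 4096 r r)
 (.c (t 3 1 r)
 (.c (c 3 4101 r r)
 (.c (c 2 4102 r (t 3 1 v))
 (.c (c 2 4102 r (u 3 0 (k (t 7 1 r) r)))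
 (.c (c 2 4102 r (t 3 3 v))
 (.c (c 3 4100 r r)
 (.c (c 3 4100 r r)
 (.c (c 3 4100 r r)
 (.c (t 3 2 r)
 (.c (u 2 8 (k r (k (t 3 1 v) r)))
 (.c (c 3 4099 r r)
 (.c (c 3 4098 r r)
 (.c (c 3 4098 r r)
 (.c (c 3 4098 r r)
 (.c (c 3 4097 r r)
 (.c (c 3 4097 r r)
 (.c (c 3 4097 r r)
 (.c (c 3 4097 r r)
 (.c (c 3 4097 r r)
 (.c (c 3 4096 r r)
 (.c (c 3 4096 r r)
 (.c (c 3 4095 r r)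
 (.c (c 3 4095 r r)
 (.c (c 3 4098 r r)
 (.c (c 3 4095 r r)
 (.c (c 3 4095 r r)
 (.c (c 3 4095 r r)
 (.c (c 2 4102 r r)
 (.c (c 3 4099 r r)
 (.c (c 2 4102 r (t 3 3 v))
 (.c (c 3 4098 r r)
 (.c (u 3 0 (k r (k r r)))
 (.c (c 3 4099 r r)
 (.c (c 3 4099 r r)
 (.c (c 3 4102 r r)
 (.c (u 3 18 (k r (k r (k (c 3 4094 v r) (k (t 7 2 (u 5 20 (k r (k (u 2 10 (k v (k r (k (c 3 4092 v (u 4 0 (k (c 12 4101 r r) (k (c 8 4101 r r) (k (c 8 4101 r r) r))))) (k (c 17 4099 v (t 4 1 r)) (k (t 4 1 (c 17 4099 v r)) (k (t 6 2 (c 17 4099 v (c 7 4094 v r))) r))))))) (k (c 3 4090 v r) r))))) r)))))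
 (.c (c 3 4099 r r)
 (.c (c 3 4102 r r)
 (.c (c 3 4101 r r)
 (.c (c 3 4101 r r)
 (.c (c 2 4102 r (u 3 0 (k (t 7 2 r) r)))
 (.c (c 3 4095 r r)
 (.c (c 2 4102 r r)
 (.c (c 3 4101 r r)
 (.c (c 3 4101 r r)
 (.c (c 3 4097 r r)
 (.c (c 3 4100 r r)
 (.c (c 3 4100 r r)
 (.c (c 3 4100 r r)
 (.c (c 3 4099 r r)
 (.c (c 3 4099 r r)
 (.c (c 3 4099 r r)
 (.c (c 3 4095 r r)
 (.c (c 3 4098 r r)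
 (.c (c 3 4098 r r)
 (.c (c 3 4098 r r)
 (.c (c 3 4097 r r)
 (.c (c 3 4096 r r)
 (.c (c 3 4096 r r)
 (.c (c 3 4095 r r)
 (.c (c 3 4095 r r)
 (.c (c 3 4095 r r)
 (.c (c 3 4095 r r)
 (.c (c 3 4100 r r)
 (.c (c 3 4100 r r)
 (.c (c 3 4097 r r)
 (.c (c 3 4099 r r)
 (.c (t 3 3 r)
 (.c (t 3 3 r)
 (.c (t 3 1 r)
 (.c (t 3 3 r)
 (.c (u 3 16 (k r (k r r)))
 (.c (t 3 6 r)
 (.c (c 3 4097 r r)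
 (.c (c 3 4100 r r)
 (.c (c 3 4100 r r)
 (.c (c 3 4097 r r)
 (.c (c 3 4100 r r)
 (.c (c 3 4096 r r)
 (.c (c 3 4096 r r)
 (.c (t 3 3 r)
 (.c (c 3 4102 r r)
 (.c (t 3 3 r)
 (.c (c 3 4101 r r)
 (.c (c 3 4101 r r)
 (.c (c 3 4101 r r)
 (.c (c 3 4097 r r)
 (.c (c 3 4100 r r)
 (.c (c 3 4099 r r)
 (.c (c 3 4096 r r)
 (.c (c 3 4099 r r)
 (.c (c 3 4099 r r)
 (.c (c 3 4097 r r)
 (.c (c 3 4097 r r)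
 (.c (c 3 4097 r r)
 (.c (c 2 4102 r r)
 (.c (c 3 4096 r r)
 (.c (c 3 4101 r r)
 (.c (c 3 4095 r r)
 (.c (c 3 4100 r r)
 (.c (c 3 4100 r r)
 (.c (c 3 4097 r r)
 (.c (c 3 4097 r r)
 (.c (c 3 4100 r r)
 (.c (c 3 4096 r r)
 (.c (c 3 4099 r r)
 (.c (c 3 4098 r r)
 (.c (c 3 4098 r r)
 (.c (c 3 4095 r r)
 (.c (c 3 4097 r r)
 (.c (c 3 4096 r r)
 (.c (c 3 4093 r r)
 (.c (c 3 4099 r r)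
 (.c (u 2 6 (k r (k r r)))
 .z))))))))))))))))))))))))))))))))))))))))))))))))))))))))))))))))))))))))))))))))))))))))))))))))))))))))))))))))))))))))))))))))))))))))))))))))))))))))

set_option maxRecDepth 100000 in
def R152 : PR :=
 (.c r
 (.c r
 (.c (t 3 1 r)
 (.c (c 2 4097 r (t 3 1 v))
 (.c (t 2 2 (t 3 1 v))
 (.c (t 2 2 (t 3 3 v))
 (.c (t 2 2 (t 3 2 v))
 (.c (t 3 1 (u 2 1 (k (t 6 3 r) (k (t 6 2 (c 3 4099 v (u 4 0 (k r r)))) (k (t 6 2 r) (k (t 6 3 r) r))))))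
 (.c (c 2 4097 r (t 3 3 v))
 (.c (c 3 4099 r r)
 (.c (c 2 4097 r (t 3 3 v))
 (.c (c 2 4097 r (t 3 1 v))
 (.c (c 2 4097 r (t 3 1 v))
 (.c (t 2 2 (t 3 3 v))
 (.c (t 3 2 r)
 (.c (c 2 4097 r (t 3 1 v))
 (.c (c 3 4097 r r)
 (.c (c 3 4097 r r)
 (.c (c 2 4097 r (t 3 1 v))
 (.c (t 2 1 (t 3 1 v))
 (.c (c 3 4096 r r)
 (.c (c 3 4095 r r)
 (.c (t 2 2 (t 3 3 v))
 (.c (t 2 2 (t 3 3 v))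
 (.c (t 2 2 (u 3 3 (k v (k v r))))
 (.c (c 3 4098 r r)
 (.c (t 3 1 (u 2 4 (k v (k (t 6 3 r) (k (t 6 3 r) r)))))
 (.c (c 2 4097 r (t 3 3 v))
 (.c (c 3 4097 r r)
 (.c (c 2 4097 r (t 3 1 v))
 (.c (c 3 4097 r r)
 (.c (c 3 4097 r r)
 (.c (c 2 4097 r (t 3 5 v))
 (.c (c 2 4097 r (t 3 3 v))
 (.c (c 3 4096 r r)
 (.c (c 2 4097 r (t 3 3 v))
 (.c (c 2 4097 r r)
 (.c (c 3 4096 r r)
 (.c (c 2 4097 r (u 3 0 (k r r)))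
 (.c (t 2 2 r)
 (.c (c 2 4097 r (t 3 1 v))
 (.c (c 2 4097 r (u 3 0 (k (t 7 1 r) r)))
 (.c (c 2 4097 r (t 3 3 v))
 (.c (t 3 6 r)
 (.c (t 2 3 r)
 (.c (t 3 2 r)
 (.c (t 3 2 r)
 (.c (t 3 1 r)
 (.c (t 2 2 r)
 (.c (c 3 4098 r r)
 (.c (t 3 1 (u 2 3 (k v (k (t 6 3 (u 4 29 (k v (k v (k (c 12 4097 r (u 8 0 (k v (k v r)))) (k (c 12 4097 r (u 8 0 (k v (k v r)))) r)))))) (k (t 6 3 r) r)))))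
 (.c (c 2 4097 r r)
 (.c (c 3 4097 r r)
 (.c (c 3 4097 r r)
 (.c (c 3 4097 r r)
 (.c (c 3 4097 r r)
 (.c (c 2 4097 r r)
 (.c (c 3 4096 r r)
 (.c (c 3 4096 r r)
 (.c (c 3 4095 r r)
 (.c (c 3 4095 r r)
 (.c (t 2 2 (t 3 3 v))
 (.c (c 3 4095 r r)
 (.c (c 3 4095 r r)
 (.c (c 3 4095 r r)
 (.c (c 2 4097 r r)
 (.c (c 2 4097 r (u 3 0 (k (t 7 2 r) r)))
 (.c (c 2 4097 r (t 3 3 v))
 (.c (c 2 4097 r (u 3 0 (k (t 7 2 r) r)))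
 (.c (t 2 3 r)
 (.c (c 3 4099 r r)
 (.c (t 2 3 r)
 (.c (t 2 2 (t 3 2 v))
 (.c (t 2 2 r)
 (.c (c 3 4099 r r)
 (.c (t 2 2 (u 3 0 (k (u 5 0 (k v (k v r))) r)))
 (.c (c 2 4097 r r)
 (.c (t 2 3 r)
 (.c (c 2 4097 r (u 3 0 (k (t 7 2 r) r)))
 (.c (c 3 4095 r r)
 (.c (c 2 4097 r r)
 (.c (t 2 2 r)
 (.c (c 2 4097 r r)
 (.c (c 2 4097 r (u 3 0 (k (t 7 3 r) r)))
 (.c (c 2 4097 r (u 3 1 (k v (k v r))))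
 (.c (c 2 4097 r r)
 (.c (c 3 4100 r r)
 (.c (t 2 2 r)
 (.c (c 2 4097 r r)
 (.c (u 3 0 (k r (k r r)))
 (.c (c 3 4095 r r)
 (.c (t 2 3 r)
 (.c (c 3 4098 r r)
 (.c (t 2 2 r)
 (.c (c 3 4097 r r)
 (.c (c 3 4096 r r)
 (.c (c 3 4096 r r)
 (.c (c 3 4095 r r)
 (.c (c 3 4095 r r)
 (.c (c 3 4095 r r)
 (.c (c 3 4095 r r)
 (.c (t 2 2 r)
 (.c (t 3 2 r)
 (.c (c 2 4097 r (u 3 0 (k (t 7 2 r) r)))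
 (.c (c 2 4097 r r)
 (.c (t 2 3 r)
 (.c (c 2 4097 r r)
 (.c (c 2 4097 r r)
 (.c (c 2 4097 r r)
 (.c (c 2 4097 r r)
 (.c (t 2 2 (t 3 1 v))
 (.c (c 2 4097 r r)
 (.c (c 2 4097 r r)
 (.c (c 2 4097 r r)
 (.c (c 3 4097 r r)
 (.c (c 2 4097 r r)
 (.c (c 3 4096 r r)
 (.c (c 3 4096 r r)
 (.c (c 2 4097 r (u 3 0 (k (t 7 1 r) r)))
 (.c (c 2 4097 r r)
 (.c (c 2 4097 r r)
 (.c (t 2 2 r)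
 (.c (t 2 2 r)
 (.c (t 3 2 r)
 (.c (c 2 4097 r r)
 (.c (t 2 2 r)
 (.c (t 2 2 r)
 (.c (c 2 4097 r r)
 (.c (t 3 1 r)
 (.c (c 3 4099 r r)
 (.c (c 3 4097 r r)
 (.c (c 2 4097 r r)
 (.c (c 3 4097 r r)
 (.c (t 2 2 (u 3 0 (k (c 7 4097 r r) r)))
 (.c (c 3 4096 r r)
 (.c (t 2 3 r)
 (.c (c 2 4097 r r)
 (.c (c 2 4097 r r)
 (.c (c 2 4097 r r)
 (.c (c 3 4097 r r)
 (.c (c 2 4097 r (u 3 0 (k (u 7 0 (k (c 15 4101 r (t 11 3 r)) r)) r)))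
 (.c (t 3 6 r)
 (.c (c 3 4096 r r)
 (.c (c 2 4097 r (u 3 5 (k (t 7 1 (u 5 0 (k r r))) (k (t 7 2 r) (k (t 7 2 (u 5 0 (k (c 13 4097 r r) r))) (k (t 7 1 (u 5 0 (k (c 13 4100 r r) (k (c 13 4103 r r) (k (c 13 4100 r r) r))))) r))))))
 (.c (c 3 4098 r r)
 (.c (t 3 2 r)
 (.c (c 3 4095 r r)
 (.c (c 3 4097 r r)
 (.c (c 3 4096 r r)
 (.c (c 3 4093 r r)
 (.c (t 2 2 r)
 (.c (c 2 4097 r r)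
 (.c (c 2 4097 r r)
 .z)))))))))))))))))))))))))))))))))))))))))))))))))))))))))))))))))))))))))))))))))))))))))))))))))))))))))))))))))))))))))))))))))))))))))))))))))))))))))

set_option maxRecDepth 100000 in
def R153 : PR :=
 (.c r
 (.c r
 (.c (c 2 4096 r (t 3 1 v))
 (.c (c 2 4096 r (t 3 1 v))
 (.c (t 2 3 (t 3 1 v))
 (.c (c 3 4100 r r)
 (.c (t 3 4 (u 2 0 (k (t 6 1 (u 4 0 (k (c 12 4101 r r) r))) r)))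
 (.c (t 3 1 (u 2 0 (k (t 6 1 (u 4 0 (k (t 12 1 r) r))) r)))
 (.c (c 2 4096 r (t 3 3 v))
 (.c (c 3 4099 r r)
 (.c (c 2 4096 r (t 3 3 v))
 (.c (c 2 4096 r (t 3 1 v))
 (.c (c 2 4096 r (t 3 1 v))
 (.c (t 3 2 (u 2 0 (k (t 6 1 (u 4 0 (k (c 12 4101 r r) r))) r)))
 (.c (t 3 2 (u 2 0 (k (t 6 1 (u 4 0 (k (c 12 4101 r r) r))) r)))
 (.c (c 2 4096 r (t 3 1 v))
 (.c (c 3 4097 r r)
 (.c (c 3 4097 r r)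
 (.c (c 2 4096 r (t 3 1 v))
 (.c (t 3 1 (u 2 0 (k (c 4 4095 r r) r)))
 (.c (c 3 4096 r r)
 (.c (c 2 4096 r (t 3 1 v))
 (.c (t 2 4 (t 3 3 v))
 (.c (t 2 3 (t 3 1 v))
 (.c (t 2 3 (u 3 4 (k v (k v r))))
 (.c (c 3 4098 r r)
 (.c (c 3 4098 r r)
 (.c (c 2 4096 r (t 3 3 v))
 (.c (c 3 4097 r r)
 (.c (c 2 4096 r (t 3 1 v))
 (.c (c 3 4097 r r)
 (.c (c 3 4097 r r)
 (.c (c 2 4096 r (t 3 5 v))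
 (.c (c 2 4096 r (t 3 3 v))
 (.c (c 3 4096 r r)
 (.c (c 2 4096 r (t 3 3 v))
 (.c (c 2 4096 r r)
 (.c (c 3 4096 r r)
 (.c (c 2 4096 r (u 3 0 (k r r)))
 (.c (t 3 1 (u 2 0 (k (t 6 1 (u 4 0 (k (c 12 4101 r r) r))) r)))
 (.c (c 2 4096 r (t 3 1 v))
 (.c (c 2 4096 r (u 3 0 (k (t 7 1 r) r)))
 (.c (c 2 4096 r (t 3 3 v))
 (.c (t 3 6 (u 2 0 (k (t 4 2 r) r)))
 (.c (u 3 0 (k (u 2 0 (k (t 4 2 r) r)) (k (u 2 0 (k (t 6 1 (u 4 0 (k (c 12 4101 r r) r))) r)) r)))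
 (.c (c 3 4100 r r)
 (.c (t 3 2 (u 2 0 (k (c 4 4095 r r) r)))
 (.c (t 3 1 (u 2 0 (k (c 4 4095 r r) r)))
 (.c (t 3 1 (u 2 0 (k (t 6 1 (u 4 0 (k (c 12 4101 r r) r))) r)))
 (.c (c 3 4098 r r)
 (.c (c 3 4098 r r)
 (.c (c 2 4096 r r)
 (.c (c 3 4097 r r)
 (.c (c 2 4096 r (t 3 1 v))
 (.c (c 3 4097 r r)
 (.c (c 3 4097 r r)
 (.c (c 2 4096 r r)
 (.c (c 3 4096 r r)
 (.c (c 3 4096 r r)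
 (.c (c 3 4095 r r)
 (.c (c 3 4095 r r)
 (.c (c 2 4096 r r)
 (.c (c 3 4095 r r)
 (.c (c 2 4096 r (t 3 1 v))
 (.c (c 3 4095 r r)
 (.c (c 2 4096 r r)
 (.c (c 2 4096 r (u 3 0 (k (t 7 2 r) r)))
 (.c (c 2 4096 r (t 3 3 v))
 (.c (c 2 4096 r (u 3 0 (k (t 7 2 r) r)))
 (.c (t 2 1 r)
 (.c (c 2 4096 r r)
 (.c (t 2 4 r)
 (.c (t 3 8 (u 2 0 (k (t 6 1 (u 4 0 (k (c 12 4101 r r) r))) r)))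
 (.c (t 3 1 (u 2 0 (k (t 6 1 (u 4 0 (k (c 12 4101 r r) r))) r)))
 (.c (c 3 4099 r r)
 (.c (t 3 2 (u 2 0 (k (t 6 1 (u 4 0 (k (c 12 4101 r r) r))) r)))
 (.c (c 2 4096 r r)
 (.c (c 2 4096 r r)
 (.c (c 2 4096 r (u 3 0 (k (t 7 2 r) r)))
 (.c (c 3 4095 r r)
 (.c (c 2 4096 r r)
 (.c (t 3 2 (u 2 0 (k (t 6 1 (u 4 0 (k (c 12 4101 r r) r))) r)))
 (.c (c 2 4096 r r)
 (.c (c 2 4096 r (u 3 0 (k (t 7 3 r) r)))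
 (.c (c 2 4096 r (u 3 1 (k v (k v r))))
 (.c (c 2 4096 r r)
 (.c (c 3 4100 r r)
 (.c (t 3 1 (u 2 0 (k (t 6 1 (u 4 0 (k (c 12 4101 r r) r))) r)))
 (.c (c 2 4096 r r)
 (.c (u 3 0 (k (u 2 0 (k (t 4 2 r) r)) (k (u 2 0 (k (t 6 1 (u 4 0 (k (c 12 4101 r r) r))) r)) r)))
 (.c (c 2 4096 r r)
 (.c (c 3 4098 r r)
 (.c (c 3 4098 r r)
 (.c (c 3 4098 r r)
 (.c (c 3 4097 r r)
 (.c (t 3 1 (u 2 0 (k (c 4 4095 r r) r)))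
 (.c (c 3 4096 r r)
 (.c (c 2 4096 r (u 3 0 (k r (k r (k r r)))))
 (.c (c 2 4096 r (u 3 0 (k (t 7 2 (u 5 0 (k (c 13 4099 r r) r))) r)))
 (.c (c 3 4095 r r)
 (.c (c 3 4095 r r)
 (.c (t 3 4 (u 2 0 (k (t 6 1 (u 4 0 (k (c 12 4101 r r) r))) r)))
 (.c (t 3 2 (u 2 0 (k (t 6 1 (u 4 0 (k (c 12 4101 r r) r))) r)))
 (.c (c 2 4096 r (u 3 0 (k (t 7 2 r) r)))
 (.c (c 2 4096 r r)
 (.c (t 3 3 (u 2 0 (k (t 4 2 r) r)))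
 (.c (c 2 4096 r r)
 (.c (c 2 4096 r r)
 (.c (c 2 4096 r r)
 (.c (c 2 4096 r r)
 (.c (t 3 4 (u 2 0 (k (t 6 1 (u 4 0 (k (c 12 4101 r r) r))) r)))
 (.c (c 2 4096 r r)
 (.c (c 2 4096 r r)
 (.c (c 2 4096 r r)
 (.c (c 3 4097 r r)
 (.c (c 2 4096 r r)
 (.c (c 3 4096 r r)
 (.c (c 3 4096 r r)
 (.c (c 2 4096 r (u 3 0 (k (t 7 1 r) r)))
 (.c (c 2 4096 r r)
 (.c (c 2 4096 r r)
 (.c (t 2 1 r)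
 (.c (t 3 2 (u 2 0 (k (t 6 1 (u 4 0 (k (c 12 4101 r r) r))) r)))
 (.c (t 3 2 (u 2 0 (k (t 6 1 (u 4 0 (k (c 12 4101 r r) r))) r)))
 (.c (c 2 4096 r r)
 (.c (t 3 2 (u 2 0 (k (t 6 1 (u 4 0 (k (c 12 4101 r r) r))) r)))
 (.c (t 3 1 (u 2 0 (k (t 6 1 (u 4 0 (k (c 12 4101 r r) r))) r)))
 (.c (c 2 4096 r r)
 (.c (t 3 1 (u 2 0 (k (c 4 4095 r r) r)))
 (.c (c 3 4099 r r)
 (.c (c 3 4097 r r)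
 (.c (c 2 4096 r r)
 (.c (c 3 4097 r r)
 (.c (c 2 4096 r r)
 (.c (c 2 4096 r r)
 (.c (c 2 4096 r r)
 (.c (c 3 4095 r r)
 (.c (c 2 4096 r r)
 (.c (c 2 4096 r r)
 (.c (c 3 4097 r r)
 (.c (c 2 4096 r (u 3 0 (k (u 7 0 (k (c 15 4101 r (t 11 3 r)) r)) r)))
 (.c (c 3 4100 r r)
 (.c (c 2 4096 r (u 3 0 (k (t 7 2 r) r)))
 (.c (c 2 4096 r (u 3 5 (k (t 7 1 (u 5 0 (k r r))) (k (t 7 2 r) (k (t 7 2 (u 5 0 (k (c 13 4097 r r) r))) (k (t 7 1 (u 5 0 (k (c 13 4100 r r) (k (c 13 4103 r r) (k (c 13 4100 r r) r))))) r))))))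
 (.c (c 2 4096 r (u 3 0 (k (u 7 11 (k r (k r (k (c 5 4101 r (t 15 1 r)) r)))) r)))
 (.c (c 2 4096 r r)
 (.c (c 3 4095 r r)
 (.c (c 2 4096 r (u 3 0 (k (u 7 0 (k r (k r (k r (k r (k r (k r r))))))) (k r (k r (k (t 5 2 (u 7 0 (k r r))) (k r (k r (k r (k (u 7 1 (k r (k (c 15 4097 r (u 11 0 (k r (k r r)))) r))) (k r (k (t 7 2 r) (k r (k r (k r (k r (k r r)))))))))))))))))
 (.c (c 3 4096 r r)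
 (.c (c 3 4093 r r)
 (.c (t 3 1 (u 2 0 (k (c 4 4095 r r) r)))
 (.c (c 2 4096 r r)
 (.c (c 2 4096 r r)
 (.c (c 3 4096 r r)
 .z))))))))))))))))))))))))))))))))))))))))))))))))))))))))))))))))))))))))))))))))))))))))))))))))))))))))))))))))))))))))))))))))))))))))))))))))))))))))))

set_option maxRecDepth 100000 in
def R154 : PR :=
 (.c (u 2 0 (k (t 6 1 r) (k (t 6 1 r) (k (t 4 2 r) (k (t 4 1 r) r)))))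
 (.c (u 2 0 (k (t 6 1 r) (k (t 6 1 r) (k (t 4 2 r) (k (t 4 1 r) r)))))
 (.c (c 2 4095 r (t 3 1 v))
 (.c (c 2 4095 r (t 3 1 v))
 (.c (t 3 1 (u 2 0 (k (t 4 3 r) (k (t 6 1 r) (k (t 4 2 r) (k (t 4 1 r) r))))))
 (.c (c 3 4100 r (u 2 0 (k (t 6 1 r) (k (t 6 1 r) (k (t 4 2 r) (k (t 4 1 r) r))))))
 (.c (t 3 1 (u 2 0 (k (t 6 1 r) (k (t 6 1 r) (k (t 4 2 r) (k (t 4 1 r) r))))))
 (.c (c 3 4099 r (u 2 0 (k (t 6 1 r) (k (t 6 1 r) (k (t 4 2 r) (k (t 4 1 r) r))))))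
 (.c (c 2 4095 r (t 3 3 v))
 (.c (c 3 4099 r (u 2 0 (k (t 6 1 r) (k (t 6 1 r) (k (t 4 2 r) (k (t 4 1 r) r))))))
 (.c (c 2 4095 r (t 3 3 v))
 (.c (c 2 4095 r (t 3 1 v))
 (.c (c 2 4095 r (t 3 1 v))
 (.c (c 2 4095 r (t 3 2 v))
 (.c (t 3 3 r)
 (.c (c 2 4095 r (t 3 1 v))
 (.c (c 3 4097 r (u 2 0 (k (t 6 1 r) (k (t 6 1 r) (k (t 4 2 r) (k (t 4 1 r) r))))))
 (.c (c 3 4097 r (u 2 0 (k (t 6 1 r) (k (t 6 1 r) (k (t 4 2 r) (k (t 4 1 r) r))))))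
 (.c (c 2 4095 r (t 3 1 v))
 (.c (c 2 4095 r (t 3 1 v))
 (.c (c 2 4095 r (t 3 2 v))
 (.c (c 2 4095 r (t 3 1 v))
 (.c (c 3 4099 r (u 2 0 (k (t 6 1 r) (k (t 6 1 r) (k (t 4 2 r) (k (t 4 1 r) r))))))
 (.c (c 2 4095 r (t 3 3 v))
 (.c (t 2 2 (u 3 3 (k v (k v r))))
 (.c (c 2 4095 r (t 3 3 v))
 (.c (c 3 4098 r (u 2 0 (k (t 6 1 r) (k (t 6 1 r) (k (t 4 2 r) (k (t 4 1 r) r))))))
 (.c (c 2 4095 r (t 3 3 v))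
 (.c (c 3 4097 r (u 2 0 (k (t 6 1 r) (k (t 6 1 r) (k (t 4 2 r) (k (t 4 1 r) r))))))
 (.c (c 2 4095 r (t 3 1 v))
 (.c (c 3 4097 r (u 2 0 (k (t 6 1 r) (k (t 6 1 r) (k (t 4 2 r) (k (t 4 1 r) r))))))
 (.c (c 3 4097 r (u 2 0 (k (t 6 1 r) (k (t 6 1 r) (k (t 4 2 r) (k (t 4 1 r) r))))))
 (.c (c 2 4095 r (t 3 5 v))
 (.c (c 2 4095 r (t 3 3 v))
 (.c (c 3 4096 r (u 2 0 (k (t 6 1 r) (k (t 6 1 r) (k (t 4 2 r) (k (t 4 1 r) r))))))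
 (.c (c 2 4095 r (t 3 3 v))
 (.c (c 2 4095 r r)
 (.c (c 3 4096 r (u 2 0 (k (t 6 1 r) (k (t 6 1 r) (k (t 4 2 r) (k (t 4 1 r) r))))))
 (.c (c 2 4095 r (u 3 0 (k r r)))
 (.c (u 3 10 (k r (k (c 2 4095 r v) (k (u 2 0 (k (t 6 1 r) (k (t 4 3 r) (k (t 4 2 r) (k (t 4 1 r) r))))) (k (c 2 4095 r (c 5 4096 r v)) (k (c 2 4095 r (c 5 4096 r v)) (k (c 2 4095 r r) r)))))))
 (.c (c 2 4095 r (t 3 1 v))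
 (.c (c 2 4095 r (u 3 0 (k (t 7 1 r) r)))
 (.c (c 2 4095 r (t 3 3 v))
 (.c (c 3 4100 r (u 2 0 (k (t 6 1 r) (k (t 6 1 r) (k (t 4 2 r) (k (t 4 1 r) r))))))
 (.c (u 3 1 (k r (k r r)))
 (.c (c 3 4100 r (u 2 0 (k (t 6 1 r) (k (t 6 1 r) (k (t 4 2 r) (k (t 4 1 r) r))))))
 (.c (t 2 1 (u 3 0 (k (t 5 3 (t 7 3 v)) r)))
 (.c (t 2 1 r)
 (.c (c 3 4099 r (u 2 0 (k (t 6 1 r) (k (t 6 1 r) (k (t 4 2 r) (k (t 4 1 r) r))))))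
 (.c (c 2 4095 r (t 3 1 v))
 (.c (c 3 4098 r (u 2 0 (k (t 6 1 r) (k (t 6 1 r) (k (t 4 2 r) (k (t 4 1 r) r))))))
 (.c (c 2 4095 r r)
 (.c (c 3 4097 r (u 2 0 (k (t 6 1 r) (k (t 6 1 r) (k (t 4 2 r) (k (t 4 1 r) r))))))
 (.c (c 2 4095 r (t 3 1 v))
 (.c (c 3 4097 r (u 2 0 (k (t 6 1 r) (k (t 6 1 r) (k (t 4 2 r) (k (t 4 1 r) r))))))
 (.c (c 3 4097 r (u 2 0 (k (t 6 1 r) (k (t 6 1 r) (k (t 4 2 r) (k (t 4 1 r) r))))))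
 (.c (c 2 4095 r r)
 (.c (c 3 4096 r (u 2 0 (k (t 6 1 r) (k (t 6 1 r) (k (t 4 2 r) (k (t 4 1 r) r))))))
 (.c (c 2 4095 r (t 3 1 v))
 (.c (c 3 4095 r (u 2 0 (k (t 6 1 r) (k (t 6 1 r) (k (t 4 2 r) (k (t 4 1 r) r))))))
 (.c (c 3 4095 r (u 2 0 (k (t 6 1 r) (k (t 6 1 r) (k (t 4 2 r) (k (t 4 1 r) r))))))
 (.c (c 3 4098 r (u 2 0 (k (t 6 1 r) (k (t 6 1 r) (k (t 4 2 r) (k (t 4 1 r) r))))))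
 (.c (c 3 4095 r (u 2 0 (k (t 6 1 r) (k (t 6 1 r) (k (t 4 2 r) (k (t 4 1 r) r))))))
 (.c (c 2 4095 r (t 3 1 v))
 (.c (c 3 4095 r (u 2 0 (k (t 6 1 r) (k (t 6 1 r) (k (t 4 2 r) (k (t 4 1 r) r))))))
 (.c (c 2 4095 r r)
 (.c (c 2 4095 r (u 3 0 (k (t 7 2 r) r)))
 (.c (c 2 4095 r (t 3 3 v))
 (.c (c 2 4095 r (u 3 0 (k (t 7 2 r) r)))
 (.c (t 2 1 r)
 (.c (c 3 4099 r (u 2 0 (k (t 6 1 r) (k (t 6 1 r) (k (t 4 2 r) (k (t 4 1 r) r))))))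
 (.c (c 3 4099 r (u 2 0 (k (t 6 1 r) (k (t 6 1 r) (k (t 4 2 r) (k (t 4 1 r) r))))))
 (.c (t 3 2 r)
 (.c (u 3 11 (k r (k r (k r (k (c 7 4099 r (u 5 1 (k r (k r r)))) r)))))
 (.c (c 3 4099 r (u 2 0 (k (t 6 1 r) (k (t 6 1 r) (k (t 4 2 r) (k (t 4 1 r) r))))))
 (.c (u 3 0 (k (u 5 0 (k r (k r r))) r))
 (.c (c 2 4095 r r)
 (.c (c 2 4095 r r)
 (.c (c 2 4095 r (u 3 0 (k (t 7 2 r) r)))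
 (.c (c 3 4095 r (u 2 0 (k (t 6 1 r) (k (t 6 1 r) (k (t 4 2 r) (k (t 4 1 r) r))))))
 (.c (c 2 4095 r r)
 (.c (c 3 4101 r (u 2 0 (k (t 6 1 r) (k (t 6 1 r) (k (t 4 2 r) (k (t 4 1 r) r))))))
 (.c (c 2 4095 r r)
 (.c (c 2 4095 r (u 3 0 (k (t 7 3 r) r)))
 (.c (c 2 4095 r (u 3 1 (k v (k v r))))
 (.c (c 2 4095 r r)
 (.c (c 2 4095 r (t 3 2 v))
 (.c (c 3 4099 r (u 2 0 (k (t 6 1 r) (k (t 6 1 r) (k (t 4 2 r) (k (t 4 1 r) r))))))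
 (.c (c 2 4095 r r)
 (.c (c 3 4099 r (u 2 0 (k (t 6 1 r) (k (t 6 1 r) (k (t 4 2 r) (k (t 4 1 r) r))))))
 (.c (c 2 4095 r r)
 (.c (c 3 4098 r (u 2 0 (k (t 6 1 r) (k (t 6 1 r) (k (t 4 2 r) (k (t 4 1 r) r))))))
 (.c (c 2 4095 r (t 3 2 v))
 (.c (c 3 4098 r (u 2 0 (k (t 6 1 r) (k (t 6 1 r) (k (t 4 2 r) (k (t 4 1 r) r))))))
 (.c (c 3 4097 r (u 2 0 (k (t 6 1 r) (k (t 6 1 r) (k (t 4 2 r) (k (t 4 1 r) r))))))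
 (.c (c 2 4095 r (t 3 1 v))
 (.c (c 2 4095 r (t 3 2 v))
 (.c (c 2 4095 r (u 3 0 (k r (k r (k r r)))))
 (.c (c 2 4095 r (u 3 0 (k (t 7 2 (u 5 0 (k (c 13 4099 r r) r))) r)))
 (.c (c 3 4095 r (u 2 0 (k (t 6 1 r) (k (t 6 1 r) (k (t 4 2 r) (k (t 4 1 r) r))))))
 (.c (c 3 4095 r (u 2 0 (k (t 6 1 r) (k (t 6 1 r) (k (t 4 2 r) (k (t 4 1 r) r))))))
 (.c (t 2 1 r)
 (.c (t 2 1 r)
 (.c (c 2 4095 r (u 3 0 (k (t 7 2 r) r)))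
 (.c (c 3 4099 r (u 2 0 (k (t 6 1 r) (k (t 6 1 r) (k (t 4 2 r) (k (t 4 1 r) r))))))
 (.c (t 2 1 r)
 (.c (c 2 4095 r r)
 (.c (c 2 4095 r r)
 (.c (c 2 4095 r r)
 (.c (c 2 4095 r r)
 (.c (c 2 4095 r r)
 (.c (c 2 4095 r r)
 (.c (c 2 4095 r r)
 (.c (c 2 4095 r r)
 (.c (c 3 4097 r (u 2 0 (k (t 6 1 r) (k (t 6 1 r) (k (t 4 2 r) (k (t 4 1 r) r))))))
 (.c (c 3 4100 r (u 2 0 (k (t 6 1 r) (k (t 6 1 r) (k (t 4 2 r) (k (t 4 1 r) r))))))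
 (.c (c 2 4095 r r)
 (.c (c 3 4096 r (u 2 0 (k (t 6 1 r) (k (t 6 1 r) (k (t 4 2 r) (k (t 4 1 r) r))))))
 (.c (c 2 4095 r (u 3 0 (k (t 7 1 r) r)))
 (.c (c 2 4095 r r)
 (.c (c 2 4095 r r)
 (.c (t 2 1 r)
 (.c (t 2 1 r)
 (.c (u 3 16 (k r (k r (k (t 2 2 v) (k (c 7 4099 r (u 5 1 (k r (k r r)))) r)))))
 (.c (c 2 4095 r r)
 (.c (u 3 81 (k r (k r (k (c 7 4099 r (u 5 12 (k r (k r r)))) r))))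
 (.c (c 3 4099 r (u 2 0 (k (t 6 1 r) (k (t 6 1 r) (k (t 4 2 r) (k (t 4 1 r) r))))))
 (.c (c 2 4095 r r)
 (.c (c 3 4099 r (u 2 0 (k (t 6 1 r) (k (t 6 1 r) (k (t 4 2 r) (k (t 4 1 r) r))))))
 (.c (c 3 4099 r (u 2 0 (k (t 6 1 r) (k (t 6 1 r) (k (t 4 2 r) (k (t 4 1 r) r))))))
 (.c (c 3 4097 r (u 2 0 (k (t 6 1 r) (k (t 6 1 r) (k (t 4 2 r) (k (t 4 1 r) r))))))
 (.c (c 2 4095 r r)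
 (.c (c 3 4097 r (u 2 0 (k (t 6 1 r) (k (t 6 1 r) (k (t 4 2 r) (k (t 4 1 r) r))))))
 (.c (c 2 4095 r r)
 (.c (c 2 4095 r r)
 (.c (c 2 4095 r r)
 (.c (c 3 4095 r (u 2 0 (k (t 6 1 r) (k (t 6 1 r) (k (t 4 2 r) (k (t 4 1 r) r))))))
 (.c (c 2 4095 r r)
 (.c (c 2 4095 r r)
 (.c (c 3 4097 r (u 2 0 (k (t 6 1 r) (k (t 6 1 r) (k (t 4 2 r) (k (t 4 1 r) r))))))
 (.c (c 2 4095 r (u 3 0 (k (u 7 0 (k (c 15 4101 r (t 11 3 r)) r)) r)))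
 (.c (c 3 4100 r (u 2 0 (k (t 6 1 r) (k (t 6 1 r) (k (t 4 2 r) (k (t 4 1 r) r))))))
 (.c (c 3 4096 r (u 2 0 (k (t 6 1 r) (k (t 6 1 r) (k (t 4 2 r) (k (t 4 1 r) r))))))
 (.c (c 2 4095 r (u 3 5 (k (t 7 1 (u 5 0 (k r r))) (k (t 7 2 r) (k (t 7 2 (u 5 0 (k (c 13 4097 r r) r))) (k (t 7 1 (u 5 0 (k (c 13 4100 r r) (k (c 13 4103 r r) (k (c 13 4100 r r) r))))) r))))))
 (.c (c 2 4095 r (u 3 0 (k (u 7 11 (k r (k r (k (c 5 4101 r (t 15 1 r)) r)))) r)))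
 (.c (c 2 4095 r r)
 (.c (c 3 4095 r (u 2 0 (k (t 6 1 r) (k (t 6 1 r) (k (t 4 2 r) (k (t 4 1 r) r))))))
 (.c (c 3 4097 r (u 2 0 (k (t 6 1 r) (k (t 6 1 r) (k (t 4 2 r) (k (t 4 1 r) r))))))
 (.c (c 2 4095 r (u 3 0 (k (t 7 1 r) (k (t 5 2 r) (k (t 5 1 r) r)))))
 (.c (c 3 4093 r (u 2 0 (k (t 6 1 r) (k (t 6 1 r) (k (t 4 2 r) (k (t 4 1 r) r))))))
 (.c (c 2 4095 r r)
 (.c (c 2 4095 r r)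
 (.c (c 2 4095 r r)
 (.c (c 2 4095 r r)
 (.c (c 3 4095 r (u 2 0 (k (t 6 1 r) (k (t 6 1 r) (k (t 4 2 r) (k (t 4 1 r) r))))))
 .z)))))))))))))))))))))))))))))))))))))))))))))))))))))))))))))))))))))))))))))))))))))))))))))))))))))))))))))))))))))))))))))))))))))))))))))))))))))))))))

set_option maxRecDepth 100000 in
def R155 : PR :=
 (.c (u 2 2 (k (t 4 1 r) (k (t 4 1 r) (k (t 6 1 r) (k (t 4 1 r) (k (t 4 2 r) (k (t 4 1 r) r)))))))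
 (.c (u 2 2 (k (t 4 1 r) (k (t 4 1 r) (k (t 6 1 r) (k (t 4 1 r) (k (t 4 2 r) (k (t 4 1 r) r)))))))
 (.c (t 3 1 r)
 (.c (t 3 1 r)
 (.c (t 3 1 (u 2 0 (k (t 4 1 r) (k (t 6 1 r) (k (t 4 1 r) (k (t 4 2 r) (k (t 4 1 r) (k (t 4 1 r) r))))))))
 (.c (c 3 4100 r (u 2 2 (k (t 4 1 r) (k (t 4 1 r) (k (t 6 1 r) (k (t 4 1 r) (k (t 4 2 r) (k (t 4 1 r) r))))))))
 (.c (t 3 1 (u 2 5 (k v (k (t 4 1 r) (k (t 6 1 r) (k (t 4 1 r) (k (t 4 2 r) (k (t 4 1 r) r))))))))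
 (.c (t 3 1 (u 2 0 (k (u 4 5 (k (c 3 4099 v r) (k r (k (c 12 4099 r r) (k (c 8 4099 r r) r))))) (k (u 6 1 (k (c 3 4099 v r) (k r r))) (k r (k r (k (c 3 4099 v (t 4 1 r)) (k r r))))))))
 (.c (c 2 4099 r (t 3 3 v))
 (.c (c 3 4099 r (u 2 2 (k (t 4 1 r) (k (t 4 1 r) (k (t 6 1 r) (k (t 4 1 r) (k (t 4 2 r) (k (t 4 1 r) r))))))))
 (.c (c 2 4099 r (t 3 3 v))
 (.c (c 2 4099 r (t 3 1 v))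
 (.c (c 2 4099 r (t 3 1 v))
 (.c (t 3 3 r)
 (.c (t 3 3 r)
 (.c (c 2 4099 r (t 3 1 v))
 (.c (c 3 4097 r (u 2 2 (k (t 4 1 r) (k (t 4 1 r) (k (t 6 1 r) (k (t 4 1 r) (k (t 4 2 r) (k (t 4 1 r) r))))))))
 (.c (c 3 4097 r (u 2 2 (k (t 4 1 r) (k (t 4 1 r) (k (t 6 1 r) (k (t 4 1 r) (k (t 4 2 r) (k (t 4 1 r) r))))))))
 (.c (t 3 1 r)
 (.c (t 3 1 r)
 (.c (c 3 4096 r (u 2 2 (k (t 4 1 r) (k (t 4 1 r) (k (t 6 1 r) (k (t 4 1 r) (k (t 4 2 r) (k (t 4 1 r) r))))))))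
 (.c (c 3 4095 r (u 2 2 (k (t 4 1 r) (k (t 4 1 r) (k (t 6 1 r) (k (t 4 1 r) (k (t 4 2 r) (k (t 4 1 r) r))))))))
 (.c (t 2 2 (t 3 3 v))
 (.c (t 2 1 (t 3 3 v))
 (.c (t 2 1 (u 3 3 (k v (k v r))))
 (.c (c 3 4098 r (u 2 2 (k (t 4 1 r) (k (t 4 1 r) (k (t 6 1 r) (k (t 4 1 r) (k (t 4 2 r) (k (t 4 1 r) r))))))))
 (.c (c 3 4098 r (u 2 2 (k (t 4 1 r) (k (t 4 1 r) (k (t 6 1 r) (k (t 4 1 r) (k (t 4 2 r) (k (t 4 1 r) r))))))))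
 (.c (c 2 4099 r (t 3 3 v))
 (.c (c 3 4097 r (u 2 2 (k (t 4 1 r) (k (t 4 1 r) (k (t 6 1 r) (k (t 4 1 r) (k (t 4 2 r) (k (t 4 1 r) r))))))))
 (.c (c 2 4099 r (t 3 1 v))
 (.c (c 3 4097 r (u 2 2 (k (t 4 1 r) (k (t 4 1 r) (k (t 6 1 r) (k (t 4 1 r) (k (t 4 2 r) (k (t 4 1 r) r))))))))
 (.c (c 3 4097 r (u 2 2 (k (t 4 1 r) (k (t 4 1 r) (k (t 6 1 r) (k (t 4 1 r) (k (t 4 2 r) (k (t 4 1 r) r))))))))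
 (.c (c 2 4099 r (t 3 5 v))
 (.c (c 2 4099 r (t 3 3 v))
 (.c (c 3 4096 r (u 2 2 (k (t 4 1 r) (k (t 4 1 r) (k (t 6 1 r) (k (t 4 1 r) (k (t 4 2 r) (k (t 4 1 r) r))))))))
 (.c (c 2 4099 r (t 3 3 v))
 (.c (c 2 4099 r r)
 (.c (c 3 4096 r (u 2 2 (k (t 4 1 r) (k (t 4 1 r) (k (t 6 1 r) (k (t 4 1 r) (k (t 4 2 r) (k (t 4 1 r) r))))))))
 (.c (c 2 4099 r (u 3 0 (k r r)))
 (.c (u 3 1 (k r (k (u 2 0 (k (t 4 1 r) (k (t 6 1 r) (k (t 4 1 r) (k (t 4 2 r) (k (t 4 1 r) (k (t 4 1 r) r))))))) r)))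
 (.c (c 2 4099 r (t 3 1 v))
 (.c (c 2 4099 r (u 3 0 (k (t 7 1 r) r)))
 (.c (c 2 4099 r (t 3 3 v))
 (.c (c 3 4100 r (u 2 2 (k (t 4 1 r) (k (t 4 1 r) (k (t 6 1 r) (k (t 4 1 r) (k (t 4 2 r) (k (t 4 1 r) r))))))))
 (.c (u 3 31 (k r (k r (k r r))))
 (.c (c 3 4100 r (u 2 2 (k (t 4 1 r) (k (t 4 1 r) (k (t 6 1 r) (k (t 4 1 r) (k (t 4 2 r) (k (t 4 1 r) r))))))))
 (.c (t 3 2 r)
 (.c (u 3 4 (k r (k (t 7 1 (u 5 2 (k r (k r r)))) r)))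
 (.c (u 3 36 (k r (k r (k (u 5 1 (k r (k r r))) (k (c 7 4099 r (u 5 0 (k r (k r r)))) (k (u 5 0 (k (u 2 0 (k (t 4 1 r) (k (t 6 1 r) (k (t 4 1 r) (k (t 4 2 r) (k (t 4 1 r) (k (t 4 1 r) r))))))) (k r r))) (k (c 7 4097 r (u 5 1 (k r (k r r)))) r)))))))
 (.c (c 3 4098 r (u 2 2 (k (t 4 1 r) (k (t 4 1 r) (k (t 6 1 r) (k (t 4 1 r) (k (t 4 2 r) (k (t 4 1 r) r))))))))
 (.c (c 3 4098 r (u 2 2 (k (t 4 1 r) (k (t 4 1 r) (k (t 6 1 r) (k (t 4 1 r) (k (t 4 2 r) (k (t 4 1 r) r))))))))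
 (.c (c 2 4099 r r)
 (.c (c 3 4097 r (u 2 2 (k (t 4 1 r) (k (t 4 1 r) (k (t 6 1 r) (k (t 4 1 r) (k (t 4 2 r) (k (t 4 1 r) r))))))))
 (.c (c 3 4097 r (u 2 2 (k (t 4 1 r) (k (t 4 1 r) (k (t 6 1 r) (k (t 4 1 r) (k (t 4 2 r) (k (t 4 1 r) r))))))))
 (.c (c 3 4097 r (u 2 2 (k (t 4 1 r) (k (t 4 1 r) (k (t 6 1 r) (k (t 4 1 r) (k (t 4 2 r) (k (t 4 1 r) r))))))))
 (.c (c 3 4097 r (u 2 2 (k (t 4 1 r) (k (t 4 1 r) (k (t 6 1 r) (k (t 4 1 r) (k (t 4 2 r) (k (t 4 1 r) r))))))))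
 (.c (c 2 4099 r r)
 (.c (c 3 4096 r (u 2 2 (k (t 4 1 r) (k (t 4 1 r) (k (t 6 1 r) (k (t 4 1 r) (k (t 4 2 r) (k (t 4 1 r) r))))))))
 (.c (c 3 4096 r (u 2 2 (k (t 4 1 r) (k (t 4 1 r) (k (t 6 1 r) (k (t 4 1 r) (k (t 4 2 r) (k (t 4 1 r) r))))))))
 (.c (c 3 4095 r (u 2 2 (k (t 4 1 r) (k (t 4 1 r) (k (t 6 1 r) (k (t 4 1 r) (k (t 4 2 r) (k (t 4 1 r) r))))))))
 (.c (c 3 4095 r (u 2 2 (k (t 4 1 r) (k (t 4 1 r) (k (t 6 1 r) (k (t 4 1 r) (k (t 4 2 r) (k (t 4 1 r) r))))))))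
 (.c (c 3 4098 r (u 2 2 (k (t 4 1 r) (k (t 4 1 r) (k (t 6 1 r) (k (t 4 1 r) (k (t 4 2 r) (k (t 4 1 r) r))))))))
 (.c (c 3 4095 r (u 2 2 (k (t 4 1 r) (k (t 4 1 r) (k (t 6 1 r) (k (t 4 1 r) (k (t 4 2 r) (k (t 4 1 r) r))))))))
 (.c (c 3 4095 r (u 2 2 (k (t 4 1 r) (k (t 4 1 r) (k (t 6 1 r) (k (t 4 1 r) (k (t 4 2 r) (k (t 4 1 r) r))))))))
 (.c (c 3 4095 r (u 2 2 (k (t 4 1 r) (k (t 4 1 r) (k (t 6 1 r) (k (t 4 1 r) (k (t 4 2 r) (k (t 4 1 r) r))))))))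
 (.c (c 2 4099 r r)
 (.c (t 3 5 r)
 (.c (c 2 4099 r (t 3 3 v))
 (.c (c 2 4099 r (u 3 0 (k (t 7 2 r) r)))
 (.c (t 2 3 r)
 (.c (c 3 4099 r (u 2 2 (k (t 4 1 r) (k (t 4 1 r) (k (t 6 1 r) (k (t 4 1 r) (k (t 4 2 r) (k (t 4 1 r) r))))))))
 (.c (t 2 3 r)
 (.c (t 3 2 r)
 (.c (u 3 1 (k r (k (c 7 4099 r (u 5 1 (k r (k r r)))) (k (t 5 2 r) (k (c 5 4099 r (u 7 1 (k r (k r r)))) (k (c 5 4099 r (u 7 1 (k r (k r r)))) (k (c 5 4099 r (u 7 1 (k r (k r r)))) r)))))))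
 (.c (c 3 4099 r (u 2 2 (k (t 4 1 r) (k (t 4 1 r) (k (t 6 1 r) (k (t 4 1 r) (k (t 4 2 r) (k (t 4 1 r) r))))))))
 (.c (u 3 0 (k (u 5 0 (k r (k r r))) r))
 (.c (t 2 3 r)
 (.c (u 3 4 (k r (k r r)))
 (.c (c 2 4099 r (u 3 0 (k (t 7 2 r) r)))
 (.c (c 3 4095 r (u 2 2 (k (t 4 1 r) (k (t 4 1 r) (k (t 6 1 r) (k (t 4 1 r) (k (t 4 2 r) (k (t 4 1 r) r))))))))
 (.c (c 2 4099 r r)
 (.c (u 3 7 (k r (k (u 5 20 (k r (k r (k r (k (u 2 0 (k (t 4 1 r) (k (t 6 1 r) (k (t 4 1 r) (k (t 4 2 r) (k (c 3 4097 v (t 4 1 r)) (k (t 4 1 r) r))))))) r))))) (k (c 7 4096 r (u 5 1 (k r (k r r)))) r))))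
 (.c (t 3 2 r)
 (.c (c 3 4097 r (u 2 2 (k (t 4 1 r) (k (t 4 1 r) (k (t 6 1 r) (k (t 4 1 r) (k (t 4 2 r) (k (t 4 1 r) r))))))))
 (.c (c 2 4099 r (u 3 1 (k v (k v r))))
 (.c (u 3 8 (k r (k r (k (t 7 1 (u 5 23 (k r (k r r)))) r))))
 (.c (c 3 4100 r (u 2 2 (k (t 4 1 r) (k (t 4 1 r) (k (t 6 1 r) (k (t 4 1 r) (k (t 4 2 r) (k (t 4 1 r) r))))))))
 (.c (u 3 89 (k r (k r (k r (k r (k (c 7 4099 r (u 2 5 (k r (k (t 4 1 r) (k (t 6 1 r) (k (t 4 1 r) (k (t 4 2 r) (k (t 4 1 r) r)))))))) r))))))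
 (.c (t 3 3 r)
 (.c (u 3 1 (k r (k r r)))
 (.c (c 2 4099 r r)
 (.c (c 3 4098 r (u 2 2 (k (t 4 1 r) (k (t 4 1 r) (k (t 6 1 r) (k (t 4 1 r) (k (t 4 2 r) (k (t 4 1 r) r))))))))
 (.c (c 3 4098 r (u 2 2 (k (t 4 1 r) (k (t 4 1 r) (k (t 6 1 r) (k (t 4 1 r) (k (t 4 2 r) (k (t 4 1 r) r))))))))
 (.c (c 3 4098 r (u 2 2 (k (t 4 1 r) (k (t 4 1 r) (k (t 6 1 r) (k (t 4 1 r) (k (t 4 2 r) (k (t 4 1 r) r))))))))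
 (.c (c 3 4097 r (u 2 2 (k (t 4 1 r) (k (t 4 1 r) (k (t 6 1 r) (k (t 4 1 r) (k (t 4 2 r) (k (t 4 1 r) r))))))))
 (.c (c 3 4096 r (u 2 2 (k (t 4 1 r) (k (t 4 1 r) (k (t 6 1 r) (k (t 4 1 r) (k (t 4 2 r) (k (t 4 1 r) r))))))))
 (.c (c 3 4096 r (u 2 2 (k (t 4 1 r) (k (t 4 1 r) (k (t 6 1 r) (k (t 4 1 r) (k (t 4 2 r) (k (t 4 1 r) r))))))))
 (.c (c 3 4095 r (u 2 2 (k (t 4 1 r) (k (t 4 1 r) (k (t 6 1 r) (k (t 4 1 r) (k (t 4 2 r) (k (t 4 1 r) r))))))))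
 (.c (c 3 4095 r (u 2 2 (k (t 4 1 r) (k (t 4 1 r) (k (t 6 1 r) (k (t 4 1 r) (k (t 4 2 r) (k (t 4 1 r) r))))))))
 (.c (c 3 4095 r (u 2 2 (k (t 4 1 r) (k (t 4 1 r) (k (t 6 1 r) (k (t 4 1 r) (k (t 4 2 r) (k (t 4 1 r) r))))))))
 (.c (c 3 4095 r (u 2 2 (k (t 4 1 r) (k (t 4 1 r) (k (t 6 1 r) (k (t 4 1 r) (k (t 4 2 r) (k (t 4 1 r) r))))))))
 (.c (t 2 3 r)
 (.c (t 2 3 r)
 (.c (c 2 4099 r (u 3 0 (k (t 7 2 r) r)))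
 (.c (t 2 1 r)
 (.c (t 2 3 r)
 (.c (c 2 4099 r r)
 (.c (c 2 4099 r r)
 (.c (c 2 4099 r r)
 (.c (c 2 4099 r r)
 (.c (t 3 6 r)
 (.c (c 3 4097 r (u 2 2 (k (t 4 1 r) (k (t 4 1 r) (k (t 6 1 r) (k (t 4 1 r) (k (t 4 2 r) (k (t 4 1 r) r))))))))
 (.c (c 3 4100 r (u 2 2 (k (t 4 1 r) (k (t 4 1 r) (k (t 6 1 r) (k (t 4 1 r) (k (t 4 2 r) (k (t 4 1 r) r))))))))
 (.c (c 2 4099 r r)
 (.c (c 3 4097 r (u 2 2 (k (t 4 1 r) (k (t 4 1 r) (k (t 6 1 r) (k (t 4 1 r) (k (t 4 2 r) (k (t 4 1 r) r))))))))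
 (.c (c 3 4100 r (u 2 2 (k (t 4 1 r) (k (t 4 1 r) (k (t 6 1 r) (k (t 4 1 r) (k (t 4 2 r) (k (t 4 1 r) r))))))))
 (.c (c 3 4096 r (u 2 2 (k (t 4 1 r) (k (t 4 1 r) (k (t 6 1 r) (k (t 4 1 r) (k (t 4 2 r) (k (t 4 1 r) r))))))))
 (.c (c 3 4096 r (u 2 2 (k (t 4 1 r) (k (t 4 1 r) (k (t 6 1 r) (k (t 4 1 r) (k (t 4 2 r) (k (t 4 1 r) r))))))))
 (.c (c 2 4099 r (u 3 0 (k (t 7 1 r) r)))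
 (.c (c 2 4099 r r)
 (.c (t 3 3 r)
 (.c (t 3 3 r)
 (.c (t 2 3 r)
 (.c (u 3 39 (k r (k r (k (c 7 4099 r (u 5 1 (k r (k r r)))) (k (c 5 4095 r (u 7 0 (k r (k r r)))) r)))))
 (.c (c 3 4097 r (u 2 2 (k (t 4 1 r) (k (t 4 1 r) (k (t 6 1 r) (k (t 4 1 r) (k (t 4 2 r) (k (t 4 1 r) r))))))))
 (.c (u 3 81 (k r (k r (k (c 7 4099 r (u 5 12 (k r (k r r)))) r))))
 (.c (u 3 6 (k r (k r (k (c 5 4099 r (u 7 0 (k r (k r r)))) (k (c 7 4096 r (u 5 1 (k r (k r r)))) (k (c 7 4097 r (u 5 1 (k r (k r r)))) r))))))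
 (.c (c 3 4096 r (u 2 2 (k (t 4 1 r) (k (t 4 1 r) (k (t 6 1 r) (k (t 4 1 r) (k (t 4 2 r) (k (t 4 1 r) r))))))))
 (.c (u 3 9 (k r (k r (k (t 7 1 (u 5 37 (k r (k r (k r r))))) r))))
 (.c (c 3 4099 r (u 2 2 (k (t 4 1 r) (k (t 4 1 r) (k (t 6 1 r) (k (t 4 1 r) (k (t 4 2 r) (k (t 4 1 r) r))))))))
 (.c (c 3 4097 r (u 2 2 (k (t 4 1 r) (k (t 4 1 r) (k (t 6 1 r) (k (t 4 1 r) (k (t 4 2 r) (k (t 4 1 r) r))))))))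
 (.c (c 3 4097 r (u 2 2 (k (t 4 1 r) (k (t 4 1 r) (k (t 6 1 r) (k (t 4 1 r) (k (t 4 2 r) (k (t 4 1 r) r))))))))
 (.c (c 3 4097 r (u 2 2 (k (t 4 1 r) (k (t 4 1 r) (k (t 6 1 r) (k (t 4 1 r) (k (t 4 2 r) (k (t 4 1 r) r))))))))
 (.c (c 3 4096 r (u 2 2 (k (t 4 1 r) (k (t 4 1 r) (k (t 6 1 r) (k (t 4 1 r) (k (t 4 2 r) (k (t 4 1 r) r))))))))
 (.c (c 3 4096 r (u 2 2 (k (t 4 1 r) (k (t 4 1 r) (k (t 6 1 r) (k (t 4 1 r) (k (t 4 2 r) (k (t 4 1 r) r))))))))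
 (.c (t 3 3 r)
 (.c (c 3 4095 r (u 2 2 (k (t 4 1 r) (k (t 4 1 r) (k (t 6 1 r) (k (t 4 1 r) (k (t 4 2 r) (k (t 4 1 r) r))))))))
 (.c (c 3 4100 r (u 2 2 (k (t 4 1 r) (k (t 4 1 r) (k (t 6 1 r) (k (t 4 1 r) (k (t 4 2 r) (k (t 4 1 r) r))))))))
 (.c (t 2 2 r)
 (.c (c 3 4097 r (u 2 2 (k (t 4 1 r) (k (t 4 1 r) (k (t 6 1 r) (k (t 4 1 r) (k (t 4 2 r) (k (t 4 1 r) r))))))))
 (.c (c 2 4099 r (u 3 0 (k (u 7 0 (k (c 15 4101 r (t 11 3 r)) r)) r)))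
 (.c (c 3 4100 r (u 2 2 (k (t 4 1 r) (k (t 4 1 r) (k (t 6 1 r) (k (t 4 1 r) (k (t 4 2 r) (k (t 4 1 r) r))))))))
 (.c (c 3 4096 r (u 2 2 (k (t 4 1 r) (k (t 4 1 r) (k (t 6 1 r) (k (t 4 1 r) (k (t 4 2 r) (k (t 4 1 r) r))))))))
 (.c (t 3 1 r)
 (.c (c 2 4099 r (u 3 0 (k (u 7 11 (k r (k r (k (c 5 4101 r (t 15 1 r)) r)))) r)))
 (.c (c 3 4098 r (u 2 2 (k (t 4 1 r) (k (t 4 1 r) (k (t 6 1 r) (k (t 4 1 r) (k (t 4 2 r) (k (t 4 1 r) r))))))))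
 (.c (c 3 4095 r (u 2 2 (k (t 4 1 r) (k (t 4 1 r) (k (t 6 1 r) (k (t 4 1 r) (k (t 4 2 r) (k (t 4 1 r) r))))))))
 (.c (c 3 4097 r (u 2 2 (k (t 4 1 r) (k (t 4 1 r) (k (t 6 1 r) (k (t 4 1 r) (k (t 4 2 r) (k (t 4 1 r) r))))))))
 (.c (c 3 4096 r (u 2 2 (k (t 4 1 r) (k (t 4 1 r) (k (t 6 1 r) (k (t 4 1 r) (k (t 4 2 r) (k (t 4 1 r) r))))))))
 (.c (c 3 4093 r (u 2 2 (k (t 4 1 r) (k (t 4 1 r) (k (t 6 1 r) (k (t 4 1 r) (k (t 4 2 r) (k (t 4 1 r) r))))))))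
 (.c (t 2 3 r)
 (.c (c 2 4099 r r)
 (.c (c 3 4097 r (u 2 2 (k (t 4 1 r) (k (t 4 1 r) (k (t 6 1 r) (k (t 4 1 r) (k (t 4 2 r) (k (t 4 1 r) r))))))))
 (.c (c 3 4096 r (u 2 2 (k (t 4 1 r) (k (t 4 1 r) (k (t 6 1 r) (k (t 4 1 r) (k (t 4 2 r) (k (t 4 1 r) r))))))))
 (.c (c 3 4095 r (u 2 2 (k (t 4 1 r) (k (t 4 1 r) (k (t 6 1 r) (k (t 4 1 r) (k (t 4 2 r) (k (t 4 1 r) r))))))))
 (.c (t 2 3 r)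
 .z))))))))))))))))))))))))))))))))))))))))))))))))))))))))))))))))))))))))))))))))))))))))))))))))))))))))))))))))))))))))))))))))))))))))))))))))))))))))))))

set_option maxRecDepth 100000 in
def R156 : PR :=
 (.c r
 (.c r
 (.c (t 3 1 r)
 (.c (c 2 4098 r (t 3 1 v))
 (.c (t 3 1 (u 2 2 (k v (k v (k (t 6 1 r) (k (t 4 2 (u 6 0 (k r r))) r))))))
 (.c (c 3 4100 r r)
 (.c (c 3 4100 r r)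
 (.c (c 3 4099 r r)
 (.c (c 2 4098 r (t 3 3 v))
 (.c (c 3 4099 r r)
 (.c (c 2 4098 r (t 3 3 v))
 (.c (c 2 4098 r (t 3 1 v))
 (.c (c 2 4098 r (t 3 1 v))
 (.c (t 3 2 r)
 (.c (t 3 2 r)
 (.c (c 2 4098 r (t 3 1 v))
 (.c (c 3 4097 r r)
 (.c (c 3 4097 r r)
 (.c (t 3 1 r)
 (.c (t 3 1 r)
 (.c (c 3 4096 r r)
 (.c (c 3 4095 r r)
 (.c (c 3 4099 r r)
 (.c (t 2 1 (t 3 3 v))
 (.c (t 2 1 (u 3 3 (k v (k v r))))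
 (.c (c 3 4098 r r)
 (.c (c 3 4098 r r)
 (.c (c 2 4098 r (t 3 3 v))
 (.c (c 3 4097 r r)
 (.c (c 2 4098 r (t 3 1 v))
 (.c (c 3 4097 r r)
 (.c (c 3 4097 r r)
 (.c (c 2 4098 r (t 3 5 v))
 (.c (c 2 4098 r (t 3 3 v))
 (.c (c 3 4096 r r)
 (.c (c 2 4098 r (t 3 3 v))
 (.c (c 2 4098 r r)
 (.c (c 3 4096 r r)
 (.c (c 2 4098 r (u 3 0 (k r r)))
 (.c (t 3 1 r)
 (.c (c 2 4098 r (t 3 1 v))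
 (.c (c 2 4098 r (u 3 0 (k (t 7 1 r) r)))
 (.c (c 2 4098 r (t 3 3 v))
 (.c (c 3 4100 r r)
 (.c (c 3 4100 r r)
 (.c (t 3 2 r)
 (.c (t 3 2 r)
 (.c (t 3 1 r)
 (.c (c 3 4099 r r)
 (.c (c 3 4098 r r)
 (.c (c 3 4098 r r)
 (.c (c 2 4098 r r)
 (.c (c 3 4097 r r)
 (.c (c 3 4097 r r)
 (.c (c 3 4097 r r)
 (.c (c 3 4097 r r)
 (.c (c 2 4098 r r)
 (.c (c 3 4096 r r)
 (.c (c 3 4096 r r)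
 (.c (c 3 4095 r r)
 (.c (c 3 4095 r r)
 (.c (c 3 4098 r r)
 (.c (c 3 4095 r r)
 (.c (c 3 4095 r r)
 (.c (c 3 4095 r r)
 (.c (c 2 4098 r r)
 (.c (c 2 4098 r (u 3 0 (k (t 7 2 r) r)))
 (.c (c 2 4098 r (t 3 3 v))
 (.c (c 2 4098 r (u 3 0 (k (t 7 2 r) r)))
 (.c (u 3 23 (k r (k r r)))
 (.c (c 3 4099 r r)
 (.c (c 3 4099 r r)
 (.c (c 3 4102 r r)
 (.c (t 3 1 r)
 (.c (c 3 4099 r r)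
 (.c (c 3 4102 r r)
 (.c (c 2 4098 r r)
 (.c (u 3 28 (k r (k r (k r r))))
 (.c (c 2 4098 r (u 3 0 (k (t 7 2 r) r)))
 (.c (c 3 4095 r r)
 (.c (c 2 4098 r r)
 (.c (c 3 4101 r r)
 (.c (c 2 4098 r r)
 (.c (c 3 4097 r r)
 (.c (c 2 4098 r (u 3 1 (k v (k v r))))
 (.c (c 3 4100 r r)
 (.c (c 3 4100 r r)
 (.c (c 3 4099 r r)
 (.c (c 2 4098 r r)
 (.c (c 3 4099 r r)
 (.c (c 2 4098 r r)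
 (.c (c 3 4098 r r)
 (.c (c 3 4098 r r)
 (.c (t 3 2 r)
 (.c (c 3 4097 r r)
 (.c (c 3 4096 r r)
 (.c (c 3 4096 r r)
 (.c (c 3 4095 r r)
 (.c (c 3 4095 r r)
 (.c (c 3 4095 r r)
 (.c (c 3 4095 r r)
 (.c (c 3 4100 r r)
 (.c (c 3 4100 r r)
 (.c (c 2 4098 r (u 3 0 (k (t 7 2 r) r)))
 (.c (c 3 4099 r r)
 (.c (t 3 3 r)
 (.c (c 2 4098 r r)
 (.c (c 2 4098 r r)
 (.c (c 2 4098 r r)
 (.c (c 2 4098 r r)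
 (.c (t 3 4 r)
 (.c (c 3 4097 r r)
 (.c (c 2 4098 r r)
 (.c (c 2 4098 r r)
 (.c (c 3 4097 r r)
 (.c (c 2 4098 r r)
 (.c (c 3 4096 r r)
 (.c (c 3 4096 r r)
 (.c (c 2 4098 r (u 3 0 (k (t 7 1 r) r)))
 (.c (c 2 4098 r r)
 (.c (c 2 4098 r r)
 (.c (t 3 2 r)
 (.c (t 3 2 r)
 (.c (t 3 2 r)
 (.c (c 3 4097 r r)
 (.c (c 3 4100 r r)
 (.c (c 3 4099 r r)
 (.c (c 2 4098 r r)
 (.c (c 3 4099 r r)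
 (.c (c 3 4099 r r)
 (.c (c 3 4097 r r)
 (.c (c 2 4098 r r)
 (.c (c 3 4097 r r)
 (.c (c 2 4098 r r)
 (.c (c 2 4098 r r)
 (.c (t 3 3 r)
 (.c (c 2 4098 r r)
 (.c (c 2 4098 r r)
 (.c (c 3 4100 r r)
 (.c (c 2 4098 r (u 3 0 (k (t 7 1 r) r)))
 (.c (c 2 4098 r (u 3 0 (k (u 7 0 (k (c 15 4101 r (t 11 3 r)) r)) r)))
 (.c (c 3 4100 r r)
 (.c (c 2 4098 r (u 3 0 (k (t 7 2 r) r)))
 (.c (c 2 4098 r (u 3 5 (k (t 7 1 (u 5 0 (k r r))) (k (t 7 2 r) (k (t 7 2 (u 5 0 (k (c 13 4097 r r) r))) (k (t 7 1 (u 5 0 (k (c 13 4100 r r) (k (c 13 4103 r r) (k (c 13 4100 r r) r))))) r))))))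
 (.c (c 2 4098 r (u 3 0 (k (u 7 11 (k r (k r (k (c 5 4101 r (t 15 1 r)) r)))) r)))
 (.c (c 3 4098 r r)
 (.c (c 2 4098 r r)
 (.c (c 2 4098 r (u 3 0 (k (u 7 0 (k r (k r (k r (k r (k r (k r r))))))) (k r (k r (k (t 5 2 (u 7 0 (k r r))) (k r (k r (k r (k (u 7 1 (k r (k (c 15 4097 r (u 11 0 (k r (k r r)))) r))) (k r (k (t 7 2 r) (k r (k r (k r (k r (k r r)))))))))))))))))
 (.c (c 3 4096 r r)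
 (.c (c 3 4093 r r)
 (.c (c 3 4099 r r)
 (.c (c 2 4098 r r)
 (.c (c 3 4097 r r)
 (.c (c 3 4096 r r)
 (.c (c 2 4098 r (u 3 0 (k (t 7 1 r) (k (t 7 1 r) (k (t 5 2 r) (k (t 5 1 r) r))))))
 (.c (c 2 4098 r (u 3 2 (k (t 5 1 r) (k (t 5 1 r) (k (t 7 1 r) (k (t 5 1 r) (k (t 5 2 r) (k (t 5 1 r) r))))))))
 (.c (c 3 4098 r r)
 .z)))))))))))))))))))))))))))))))))))))))))))))))))))))))))))))))))))))))))))))))))))))))))))))))))))))))))))))))))))))))))))))))))))))))))))))))))))))))))))))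

end Pool.Agent.Helper91.ND1
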