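import Pool.Agent.Helper91.VD1.DT
import Pool.Agent.Helper91.ND1.LA
import Pool.Agent.Helper91.ND1.LT
import Pool.Agent.Helper91.NF.Fast
import Pool.Agent.Helper91.ND1.LR8

/-! part of the certificate for the constant 25/48 (generated) -/

namespace Pool.Agent.Helper91.ND1

open Pool.Agent.Helper66.IL
open Pool.Agent.Helper66.ML
open Pool.Agent.Helper66.ND
open Pool.Agent.Helper91.NF
open Pool.Agent.Helper91.VZ
open Pool.Agent.Helper91.VD1 (DT)

theorem okR148 : rof A NN (vx DT) 167 148 R148 0 = true := by decide +kernel

theorem okR149 : rof A NN (vx DT) 167 149 R149 0 = true := by decide +kernel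

theorem okR150 : rof A NN (vx DT) 167 150 R150 0 = true := by decide +kernel

theorem okR151 : rof A NN (vx DT) 167 151 R151 0 = true := by decide +kernel

theorem okR152 : rof A NN (vx DT) 167 152 R152 0 = true := by decide +kernel

theorem okR153 : rof A NN (vx DT) 167 153 R153 0 = true := by decide +kernel

theorem okR154 : rof A NN (vx DT) 167 154 R154 0 = true := by decide +kernel

theorem okR155 : rof A NN (vx DT) 167 155 R155 0 = true := by decide +kernel

theorem okR156 : rof A NN (vx DT) 167 156 R156 0 = true := by decide +kernel

end Pool.Agent.Helper91.ND1
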