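import Pool.Agent.Helper66.ND.Defs

/-! part of the certificate for the constant 25/48 (generated) -/

namespace Pool.Agent.Helper91.ND1

open Pool.Agent.Helper66.IL
open Pool.Agent.Helper66.ND
open Pool.Agent.Helper66.ND.LT
open Pool.Agent.Helper66.ND.Ct

set_option maxRecDepth 100000 in
def R157 : PR :=
 (.c (u 2 0 (k (t 6 2 r) r))
 (.c (u 2 0 (k (t 6 2 r) r))
 (.c (t 3 1 (u 2 0 (k (t 6 2 r) r)))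
 (.c (c 2 4097 r (t 3 1 v))
 (.c (t 3 1 (u 2 0 (k (t 6 2 (u 4 7 (k v (k (c 12 4099 r r) (k (c 8 4099 r (u 12 0 (k (u 20 0 (k v (k v r))) r))) (k (c 12 4102 r r) (k (c 8 4101 r r) r))))))) r)))
 (.c (c 3 4100 r (u 2 0 (k (t 6 2 r) r)))
 (.c (c 3 4100 r (u 2 0 (k (t 6 2 r) r)))
 (.c (c 3 4099 r (u 2 0 (k (t 6 2 r) r)))
 (.c (c 2 4097 r (t 3 3 v))
 (.c (c 3 4099 r (u 2 0 (k (t 6 2 r) r)))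
 (.c (c 2 4097 r (t 3 3 v))
 (.c (c 2 4097 r (t 3 1 v))
 (.c (c 2 4097 r (t 3 1 v))
 (.c (t 3 2 (u 2 0 (k (t 6 2 r) r)))
 (.c (t 3 2 (u 2 0 (k (t 6 2 r) r)))
 (.c (c 2 4097 r (t 3 1 v))
 (.c (c 3 4097 r (u 2 0 (k (t 6 2 r) r)))
 (.c (c 3 4097 r (u 2 0 (k (t 6 2 r) r)))
 (.c (c 2 4097 r (t 3 1 v))
 (.c (t 3 1 (u 2 0 (k (t 6 3 (u 4 9 (k v (k v (k v (k (c 12 4099 r (u 8 64 (k v (k v (k v (k (t 24 2 (u 16 40 (k v (k v r)))) r)))))) r)))))) r)))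
 (.c (c 3 4096 r (u 2 0 (k (t 6 2 r) r)))
 (.c (c 3 4095 r (u 2 0 (k (t 6 2 r) r)))
 (.c (c 3 4099 r (u 2 0 (k (t 6 2 r) r)))
 (.c (t 2 2 (t 3 3 v))
 (.c (t 2 2 (u 3 3 (k v (k v r))))
 (.c (c 3 4098 r (u 2 0 (k (t 6 2 r) r)))
 (.c (c 3 4098 r (u 2 0 (k (t 6 2 r) r)))
 (.c (c 2 4097 r (t 3 3 v))
 (.c (c 3 4097 r (u 2 0 (k (t 6 2 r) r)))
 (.c (c 2 4097 r (t 3 1 v))
 (.c (c 3 4097 r (u 2 0 (k (t 6 2 r) r)))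
 (.c (c 3 4097 r (u 2 0 (k (t 6 2 r) r)))
 (.c (c 2 4097 r (t 3 5 v))
 (.c (c 2 4097 r (t 3 3 v))
 (.c (c 3 4096 r (u 2 0 (k (t 6 2 r) r)))
 (.c (c 2 4097 r (t 3 3 v))
 (.c (c 2 4097 r r)
 (.c (c 3 4096 r (u 2 0 (k (t 6 2 r) r)))
 (.c (c 2 4097 r (u 3 0 (k r r)))
 (.c (u 2 0 (k (t 6 2 (u 3 1 (k r (k (u 4 7 (k v (k (c 12 4099 r (u 8 77 (k v (k v (k (c 24 4099 r (u 16 12 (k v (k v r)))) r))))) (k (c 8 4099 r (u 12 0 (k (u 20 0 (k v (k v r))) r))) (k (c 12 4102 r r) (k (c 8 4101 r r) r)))))) r)))) r))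
 (.c (c 2 4097 r (t 3 1 v))
 (.c (c 2 4097 r (u 3 0 (k (t 7 1 r) r)))
 (.c (c 2 4097 r (t 3 3 v))
 (.c (c 3 4100 r (u 2 0 (k (t 6 2 r) r)))
 (.c (c 3 4100 r (u 2 0 (k (t 6 2 r) r)))
 (.c (c 3 4100 r (u 2 0 (k (t 6 2 r) r)))
 (.c (t 2 1 (u 3 0 (k (t 5 3 (t 7 3 v)) r)))
 (.c (t 2 1 r)
 (.c (c 3 4099 r (u 2 0 (k (t 6 2 r) r)))
 (.c (c 3 4098 r (u 2 0 (k (t 6 2 r) r)))
 (.c (c 3 4098 r (u 2 0 (k (t 6 2 r) r)))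
 (.c (c 2 4097 r r)
 (.c (c 3 4097 r (u 2 0 (k (t 6 2 r) r)))
 (.c (c 3 4097 r (u 2 0 (k (t 6 2 r) r)))
 (.c (c 3 4097 r (u 2 0 (k (t 6 2 r) r)))
 (.c (c 3 4097 r (u 2 0 (k (t 6 2 r) r)))
 (.c (c 2 4097 r r)
 (.c (c 3 4096 r (u 2 0 (k (t 6 2 r) r)))
 (.c (c 3 4096 r (u 2 0 (k (t 6 2 r) r)))
 (.c (c 3 4095 r (u 2 0 (k (t 6 2 r) r)))
 (.c (c 3 4095 r (u 2 0 (k (t 6 2 r) r)))
 (.c (c 3 4098 r (u 2 0 (k (t 6 2 r) r)))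
 (.c (c 3 4095 r (u 2 0 (k (t 6 2 r) r)))
 (.c (c 3 4095 r (u 2 0 (k (t 6 2 r) r)))
 (.c (c 3 4095 r (u 2 0 (k (t 6 2 r) r)))
 (.c (c 2 4097 r r)
 (.c (c 2 4097 r (u 3 0 (k (t 7 2 r) r)))
 (.c (c 2 4097 r (t 3 3 v))
 (.c (c 2 4097 r (u 3 0 (k (t 7 2 r) r)))
 (.c (t 2 1 r)
 (.c (c 3 4099 r (u 2 0 (k (t 6 2 r) r)))
 (.c (c 3 4099 r (u 2 0 (k (t 6 2 r) r)))
 (.c (c 3 4102 r (u 2 0 (k (t 6 2 r) r)))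
 (.c (u 2 0 (k (t 6 2 (u 3 1 (k r (k (c 7 4099 r (u 5 1 (k r (k r r)))) (k (u 5 0 (k (u 4 4 (k v (k (c 12 4099 r (u 8 19 (k v (k (c 24 4099 r (u 16 12 (k v (k v r)))) (k (c 16 4096 r (u 24 1 (k v (k v r)))) r))))) (k (c 8 4099 r (u 12 0 (k (u 20 0 (k v (k v r))) r))) (k (c 12 4102 r r) (k (c 12 4102 r r) (k (c 8 4101 r r) r))))))) (k (c 3 4093 v r) r))) (k (c 5 4099 r (u 7 1 (k r (k r r)))) (k (c 5 4099 r (u 7 1 (k r (k r r)))) (k (c 5 4099 r (u 7 1 (k r (k r r)))) r)))))))) r))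
 (.c (c 3 4099 r (u 2 0 (k (t 6 2 r) r)))
 (.c (c 3 4102 r (u 2 0 (k (t 6 2 r) r)))
 (.c (c 2 4097 r r)
 (.c (t 2 1 r)
 (.c (c 2 4097 r (u 3 0 (k (t 7 2 r) r)))
 (.c (c 3 4095 r (u 2 0 (k (t 6 2 r) r)))
 (.c (c 2 4097 r r)
 (.c (c 3 4101 r (u 2 0 (k (t 6 2 r) r)))
 (.c (c 2 4097 r r)
 (.c (c 2 4097 r (u 3 0 (k (t 7 3 r) r)))
 (.c (c 2 4097 r (u 3 1 (k v (k v r))))
 (.c (c 2 4097 r r)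
 (.c (c 3 4100 r (u 2 0 (k (t 6 2 r) r)))
 (.c (c 3 4099 r (u 2 0 (k (t 6 2 r) r)))
 (.c (c 2 4097 r r)
 (.c (c 3 4099 r (u 2 0 (k (t 6 2 r) r)))
 (.c (c 2 4097 r r)
 (.c (c 3 4098 r (u 2 0 (k (t 6 2 r) r)))
 (.c (c 3 4098 r (u 2 0 (k (t 6 2 r) r)))
 (.c (c 3 4098 r (u 2 0 (k (t 6 2 r) r)))
 (.c (c 3 4097 r (u 2 0 (k (t 6 2 r) r)))
 (.c (c 3 4096 r (u 2 0 (k (t 6 2 r) r)))
 (.c (c 3 4096 r (u 2 0 (k (t 6 2 r) r)))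
 (.c (c 3 4095 r (u 2 0 (k (t 6 2 r) r)))
 (.c (c 3 4095 r (u 2 0 (k (t 6 2 r) r)))
 (.c (c 3 4095 r (u 2 0 (k (t 6 2 r) r)))
 (.c (c 3 4095 r (u 2 0 (k (t 6 2 r) r)))
 (.c (c 3 4100 r (u 2 0 (k (t 6 2 r) r)))
 (.c (c 3 4100 r (u 2 0 (k (t 6 2 r) r)))
 (.c (c 2 4097 r (u 3 0 (k (t 7 2 r) r)))
 (.c (c 3 4099 r (u 2 0 (k (t 6 2 r) r)))
 (.c (t 2 1 r)
 (.c (c 2 4097 r r)
 (.c (c 2 4097 r r)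
 (.c (c 2 4097 r r)
 (.c (c 2 4097 r r)
 (.c (t 3 4 (u 2 0 (k (t 6 2 r) r)))
 (.c (c 3 4097 r (u 2 0 (k (t 6 2 r) r)))
 (.c (c 3 4100 r (u 2 0 (k (t 6 2 r) r)))
 (.c (c 2 4097 r r)
 (.c (c 3 4097 r (u 2 0 (k (t 6 2 r) r)))
 (.c (c 3 4100 r (u 2 0 (k (t 6 2 r) r)))
 (.c (c 3 4096 r (u 2 0 (k (t 6 2 r) r)))
 (.c (c 3 4096 r (u 2 0 (k (t 6 2 r) r)))
 (.c (c 2 4097 r (u 3 0 (k (t 7 1 r) r)))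
 (.c (c 2 4097 r r)
 (.c (t 3 3 (u 2 0 (k (t 6 3 r) r)))
 (.c (t 2 1 r)
 (.c (t 3 3 (u 2 0 (k (t 6 3 r) r)))
 (.c (u 2 0 (k (t 6 2 (u 3 82 (k r (k (t 4 2 v) (k (c 3 4094 v r) (k (c 7 4099 r (u 5 1 (k r (k r r)))) r)))))) r))
 (.c (c 2 4097 r r)
 (.c (c 3 4100 r (u 2 0 (k (t 6 2 r) r)))
 (.c (c 3 4099 r (u 2 0 (k (t 6 2 r) r)))
 (.c (c 2 4097 r r)
 (.c (c 3 4099 r (u 2 0 (k (t 6 2 r) r)))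
 (.c (c 3 4099 r (u 2 0 (k (t 6 2 r) r)))
 (.c (c 3 4097 r (u 2 0 (k (t 6 2 r) r)))
 (.c (c 2 4097 r r)
 (.c (c 3 4097 r (u 2 0 (k (t 6 2 r) r)))
 (.c (c 2 4097 r r)
 (.c (c 2 4097 r r)
 (.c (t 2 1 r)
 (.c (c 2 4097 r r)
 (.c (c 2 4097 r r)
 (.c (c 2 4097 r r)
 (.c (c 2 4097 r (u 3 0 (k (t 7 1 r) r)))
 (.c (c 2 4097 r (u 3 0 (k (u 7 0 (k (c 15 4101 r (t 11 3 r)) r)) r)))
 (.c (c 3 4100 r (u 2 0 (k (t 6 2 r) r)))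
 (.c (c 2 4097 r (u 3 0 (k (t 7 2 r) r)))
 (.c (c 2 4097 r (u 3 5 (k (t 7 1 (u 5 0 (k r r))) (k (t 7 2 r) (k (t 7 2 (u 5 0 (k (c 13 4097 r r) r))) (k (t 7 1 (u 5 0 (k (c 13 4100 r r) (k (c 13 4103 r r) (k (c 13 4100 r r) r))))) r))))))
 (.c (c 2 4097 r (u 3 0 (k (u 7 11 (k r (k r (k (c 5 4101 r (t 15 1 r)) r)))) r)))
 (.c (c 3 4098 r (u 2 0 (k (t 6 2 r) r)))
 (.c (c 2 4097 r r)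
 (.c (c 2 4097 r (u 3 0 (k (u 7 0 (k r (k r (k r (k r (k r (k r r))))))) (k r (k r (k (t 5 2 (u 7 0 (k r r))) (k r (k r (k r (k (u 7 1 (k r (k (c 15 4097 r (u 11 0 (k r (k r r)))) r))) (k r (k (t 7 2 r) (k r (k r (k r (k r (k r r)))))))))))))))))
 (.c (c 3 4096 r (u 2 0 (k (t 6 2 r) r)))
 (.c (c 3 4093 r (u 2 0 (k (t 6 2 r) r)))
 (.c (c 3 4099 r (u 2 0 (k (t 6 2 r) r)))
 (.c (c 2 4097 r r)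
 (.c (c 2 4097 r r)
 (.c (c 3 4096 r (u 2 0 (k (t 6 2 r) r)))
 (.c (c 2 4097 r (u 3 0 (k (t 7 1 r) (k (t 7 1 r) (k (t 5 2 r) (k (t 5 1 r) r))))))
 (.c (c 2 4097 r (u 3 2 (k (t 5 1 r) (k (t 5 1 r) (k (t 7 1 r) (k (t 5 1 r) (k (t 5 2 r) (k (t 5 1 r) r))))))))
 (.c (c 3 4098 r (u 2 0 (k (t 6 2 r) r)))
 (.c (c 3 4097 r (u 2 0 (k (t 6 2 r) r)))
 .z))))))))))))))))))))))))))))))))))))))))))))))))))))))))))))))))))))))))))))))))))))))))))))))))))))))))))))))))))))))))))))))))))))))))))))))))))))))))))))))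

set_option maxRecDepth 100000 in
def R158 : PR :=
 (.t 42 (.t 43 (.t 157 (.c (t 3 1 r)
 (.c (t 3 1 (u 2 2 (k v (k (c 6 4099 r (u 4 1 (k v (k v r)))) (k (c 4 4095 r (u 6 0 (k v (k v r)))) r)))))
 (.c (t 3 3 r)
 (.c (t 3 1 (u 2 2 (k v (k (c 6 4099 r (u 4 1 (k v (k v r)))) (k (c 4 4095 r (u 6 0 (k v (k v r)))) r)))))
 (.t 67 (.c (c 2 4101 r (t 3 3 v))
 (.c (t 3 3 r)
 (.c (c 2 4101 r (t 3 3 v))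
 (.c (c 2 4101 r (t 3 1 v))
 (.c (c 2 4101 r (t 3 1 v))
 (.t 150 (.t 160 (.c (c 2 4101 r (t 3 1 v))
 (.t 120 (.t 87 (.c (t 3 1 r)
 (.c (t 3 1 r)
 (.c (u 2 1 (k (u 3 0 (k (u 5 0 (k v (k v r))) r)) (k (c 6 4099 r r) (k (c 4 4098 r r) (k (c 4 4097 r (u 3 0 (k r r))) (k (c 4 4099 r r) (k (c 4 4095 r r) r)))))))
 (.c (t 3 1 r)
 (.c (t 2 1 (t 3 3 v))
 (.c (t 3 1 r)
 (.c (u 3 1 (k (c 2 4101 r v) (k (u 2 3 (k v (k v (k (c 6 4099 r (u 4 1 (k v (k v r)))) r)))) r)))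
 (.c (t 3 2 r)
 (.c (u 3 0 (k (t 7 1 (t 5 3 (u 2 2 (k v (k (c 6 4099 r (u 4 1 (k v (k v r)))) (k (c 4 4095 r (u 6 0 (k v (k v r)))) r)))))) r))
 (.c (c 2 4101 r (t 3 3 v))
 (.t 95 (.c (c 2 4101 r (t 3 1 v))
 (.c (u 2 40 (k (u 3 0 (k (u 5 1 (k v (k v r))) r)) (k (u 3 0 (k (u 5 1 (k v (k v r))) r)) (k (c 6 4099 r r) r))))
 (.c (u 2 40 (k r (k (t 3 2 v) (k (c 4 4099 r (u 6 1 (k r (k r r)))) r))))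
 (.c (c 2 4101 r (t 3 5 v))
 (.c (c 2 4101 r (t 3 3 v))
 (.t 99 (.c (c 2 4101 r (t 3 3 v))
 (.c (c 2 4101 r r)
 (.t 100 (.c (c 2 4101 r (u 3 0 (k r r)))
 (.t 102 (.c (c 2 4101 r (t 3 1 v))
 (.c (c 2 4101 r (u 3 0 (k (t 7 1 r) r)))
 (.c (c 2 4101 r (t 3 3 v))
 (.t 67 (.t 103 (.t 104 (.c (t 3 2 r)
 (.c (t 3 1 r)
 (.t 145 (.c (t 3 1 r)
 (.c (t 3 1 r)
 (.c (u 3 1 (k r (k (t 7 1 r) r)))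
 (.t 160 (.t 119 (.t 119 (.c (t 3 1 r)
 (.c (t 3 3 r)
 (.c (t 2 1 r)
 (.c (u 2 1 (k r (k (c 6 4099 r r) (k (c 4 4098 r r) (k (c 4 4097 r (u 6 1 (k r (k r r)))) (k (c 4 4099 r r) (k (c 4 4095 r (u 6 0 (k r (k r r)))) r)))))))
 (.c (u 2 2 (k r (k (c 6 4099 r (u 4 1 (k r (k r r)))) (k (c 4 4095 r (u 6 0 (k r (k r r)))) r))))
 (.c (t 3 1 r)
 (.c (t 3 3 r)
 (.c (t 3 2 r)
 (.c (t 3 1 r)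
 (.t 87 (.c (c 2 4101 r r)
 (.c (u 2 3 (k (u 3 0 (k (t 7 2 r) r)) (k (t 3 5 v) (k (c 6 4099 r (u 4 1 (k r (k r r)))) r))))
 (.c (c 2 4101 r (t 3 3 v))
 (.c (u 3 0 (k (t 7 2 r) r))
 (.t 133 (.c (t 2 1 (u 3 0 (k (t 7 3 r) r)))
 (.c (t 2 1 r)
 (.t 102 (.t 163 (.t 106 (.t 163 (.c (u 3 3 (k (c 2 4101 r v) (k (t 5 1 (u 7 2 (k r (k r r)))) (k (t 5 1 (u 7 2 (k r (k r r)))) r))))
 (.c (u 3 1 (k r (k (t 7 2 r) (k (c 2 4101 r (u 5 0 (k r r))) r))))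
 (.c (c 2 4101 r (u 3 0 (k (t 7 2 r) r)))
 (.c (t 3 1 r)
 (.c (c 2 4101 r r)
 (.c (u 2 1 (k r (k (c 6 4099 r (u 4 1 (k r (k r r)))) (k (c 4 4098 r (u 6 1 (k r (k r r)))) (k (c 4 4097 r (u 6 1 (k r (k r r)))) (k (c 4 4099 r (u 6 1 (k r (k r r)))) (k (c 4 4095 r (u 6 0 (k r (k r r)))) r)))))))
 (.c (u 2 3 (k (t 3 3 v) (k (t 3 2 v) (k (c 4 4099 r (u 3 0 (k r r))) r))))
 (.c (t 2 1 (u 3 0 (k (t 7 3 r) r)))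
 (.c (t 3 1 r)
 (.c (t 2 1 r)
 (.c (u 2 2 (k (u 3 0 (k r r)) (k (c 6 4099 r r) (k (c 4 4095 r r) r))))
 (.t 163 (.c (u 3 0 (k (t 7 1 (u 5 23 (k r (k r r)))) r))
 (.t 67 (.c (t 3 1 r)
 (.t 146 (.t 78 (.t 163 (.c (t 3 1 r)
 (.c (t 3 1 r)
 (.c (t 3 1 r)
 (.c (u 3 0 (k (t 5 1 r) (k (t 5 2 r) (k (t 5 1 r) r))))
 (.c (u 3 0 (k (t 7 1 (u 5 0 (k (t 13 1 (u 2 10 (k r (k (c 9 4097 r v) (k (c 9 4097 r v) (k (c 4 4099 r (u 9 14 (k (u 6 1 (k v (k v r))) (k (c 7 4099 v (c 21 4101 v (u 6 1 (k v (k v r))))) (k (c 3 4086 r (c 6 4099 r v)) r))))) r)))))) r))) r))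
 (.t 164 (.t 87 (.t 152 (.t 106 (.c (t 3 4 r)
 (.c (t 2 1 r)
 (.c (u 2 4 (k r (k (c 6 4099 r (u 4 1 (k r (k r r)))) r)))
 (.c (c 2 4101 r r)
 (.c (c 2 4101 r r)
 (.c (u 3 5 (k r (k (t 7 2 r) (k (t 7 2 r) (k (t 5 2 r) (k (t 7 1 r) (k (t 5 1 r) (k (t 5 2 r) (k (t 5 1 r) (k (t 5 1 r) r))))))))))
 (.c (u 2 4 (k r (k (c 6 4099 r (u 4 1 (k r (k r r)))) r)))
 (.c (u 2 3 (k (t 3 7 v) (k (t 3 6 v) (k (c 6 4099 r r) r))))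
 (.c (u 3 0 (k (t 5 2 r) r))
 (.c (c 2 4101 r r)
 (.c (t 2 1 r)
 (.c (u 2 2 (k (u 3 1 (k r (k r r))) (k (c 6 4099 r (u 4 1 (k r (k r r)))) (k (c 4 4095 r (u 6 0 (k r (k r r)))) r))))
 (.c (c 2 4101 r r)
 (.c (u 3 0 (k (t 7 2 (u 5 23 (k r (k r r)))) r))
 (.c (t 2 1 (u 3 0 (k (t 7 3 r) r)))
 (.c (c 2 4101 r (u 3 0 (k (t 7 1 r) r)))
 (.c (t 3 1 r)
 (.c (t 2 1 r)
 (.c (u 2 4 (k r (k (c 6 4099 r (u 4 1 (k r (k r r)))) r)))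
 (.t 153 (.t 163 (.c (t 3 2 r)
 (.t 163 (.t 163 (.c (t 3 2 r)
 (.c (t 3 1 r)
 (.c (u 2 31 (k (u 3 0 (k r r)) (k (u 3 0 (k r r)) (k (c 6 4099 r (u 3 0 (k (u 4 1 (k r (k r r))) r))) (k (c 4 4099 r (u 3 0 (k (u 6 1 (k r (k r r))) r))) (k (c 4 4095 r r) r))))))
 (.t 163 (.c (u 3 0 (k (t 7 1 r) r))
 (.c (t 3 1 r)
 (.c (c 2 4101 r r)
 (.c (t 3 3 r)
 (.c (u 2 2 (k r (k (c 6 4099 r (u 4 1 (k r (k r r)))) (k (c 4 4095 r (u 6 0 (k r (k r r)))) r))))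
 (.c (c 2 4101 r r)
 (.c (u 3 2 (k r (k (t 7 2 r) r)))
 (.c (t 2 1 r)
 (.c (u 3 0 (k (t 7 1 r) r))
 (.c (u 2 48 (k (u 3 0 (k (c 7 4096 r r) r)) (k (u 3 0 (k (c 7 4096 r (u 5 0 (k v (k r r)))) r)) (k (t 3 1 v) (k (c 6 4099 r r) (k (c 4 4099 r r) r))))))
 (.c (u 2 4 (k r (k (c 6 4099 r r) r)))
 (.c (t 2 1 r)
 (.c (u 3 7 (k r (k (t 7 2 r) r)))
 (.c (c 2 4101 r (u 3 0 (k (u 7 11 (k r (k r (k (c 5 4101 r (t 15 1 r)) r)))) r)))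
 (.c (u 3 4 (k r (k r (k r (k (c 2 4101 r (t 7 1 r)) (k r r))))))
 (.c (t 2 1 r)
 (.c (u 2 4 (k r (k (c 6 4099 r (u 4 1 (k r (k r r)))) r)))
 (.c (u 2 3 (k r (k (t 3 3 v) (k (c 6 4099 r r) r))))
 (.c (u 3 0 (k (c 7 4097 r r) r))
 (.c (t 3 1 r)
 (.c (c 2 4101 r r)
 (.c (t 2 1 r)
 (.c (t 2 1 (u 3 0 (k (t 7 1 (u 5 0 (k (c 13 4101 r r) r))) r)))
 (.c (u 2 2 (k r (k (c 6 4099 r (u 4 1 (k r (k r r)))) (k (c 4 4095 r (u 6 0 (k r (k r r)))) r))))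
 (.c (u 3 0 (k (t 5 1 r) (k (t 7 1 r) (k (t 5 1 r) (k (t 5 2 r) (k (t 5 1 r) (k (t 5 1 r) r)))))))
 (.c (t 2 1 r)
 (.c (u 3 0 (k (t 7 2 (u 2 16 (k (c 2 4094 v r) (k r (k (t 5 1 v) (k (c 6 4099 r (u 4 1 (k r (k r r)))) (k (c 4 4099 r (u 6 1 (k r (k r r)))) r))))))) r))
 (.t 163 .z)))))))))))))))))))))))))))))))))))))))))))))))))))))))))))))))))))))))))))))))))))))))))))))))))))))))))))))))))))))))))))))))))))))))))))))))))))))))))))))))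

set_option maxRecDepth 100000 in
def R159 : PR :=
 (.t 158 (.t 92 (.t 87 (.t 92 (.c (t 2 1 (t 3 1 v))
 (.c (t 2 1 (t 3 3 v))
 (.c (t 2 1 (t 3 2 v))
 (.t 161 (.c (c 2 4099 r (t 3 3 v))
 (.c (t 2 1 (t 3 3 v))
 (.c (c 2 4099 r (t 3 3 v))
 (.c (c 2 4099 r (t 3 1 v))
 (.c (c 2 4099 r (t 3 1 v))
 (.c (t 2 1 (t 3 3 v))
 (.c (t 2 1 (t 3 3 v))
 (.c (c 2 4099 r (t 3 1 v))
 (.c (u 3 0 (k r (k r r)))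
 (.c (t 2 1 r)
 (.c (t 3 3 r)
 (.c (t 3 3 r)
 (.c (t 2 1 (u 3 0 (k (u 5 0 (k v (k v r))) r)))
 (.t 92 (.c (t 2 1 (t 3 3 v))
 (.c (t 2 1 (t 3 3 v))
 (.c (t 2 1 (u 3 3 (k v (k v r))))
 (.c (t 2 1 (t 3 1 v))
 (.c (t 2 1 (t 3 1 v))
 (.c (c 2 4099 r (t 3 3 v))
 (.c (t 2 1 r)
 (.c (c 2 4099 r (t 3 1 v))
 (.c (t 2 1 (u 3 0 (k (u 5 1 (k v (k v r))) r)))
 (.c (t 2 1 (t 3 2 v))
 (.c (c 2 4099 r (t 3 5 v))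
 (.c (c 2 4099 r (t 3 3 v))
 (.c (u 3 0 (k (t 5 3 (t 7 1 (u 2 6 (k v (k (t 6 1 (u 4 0 (k v (k (c 12 4099 r (u 8 0 (k v (k v r)))) r)))) r))))) r))
 (.c (c 2 4099 r (t 3 3 v))
 (.c (c 2 4099 r r)
 (.c (u 3 2 (k r (k r (k (t 2 1 v) (k r r)))))
 (.c (c 2 4099 r (u 3 0 (k r r)))
 (.c (t 2 1 r)
 (.c (c 2 4099 r (t 3 1 v))
 (.c (c 2 4099 r (u 3 0 (k (t 7 1 r) r)))
 (.c (c 2 4099 r (t 3 3 v))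
 (.c (t 3 6 r)
 (.c (u 2 16 (k r (k r (k (t 6 1 (u 3 1 (k r (k r r)))) r))))
 (.c (t 2 1 r)
 (.c (t 3 3 r)
 (.c (u 2 10 (k r (k r (k (t 6 1 (u 4 0 (k r (k (c 12 4099 r (u 8 0 (k r (k r r)))) r)))) r))))
 (.c (t 2 1 r)
 (.c (t 2 1 (t 3 3 v))
 (.c (t 2 1 r)
 (.c (c 2 4099 r r)
 (.c (t 2 1 r)
 (.c (t 3 1 r)
 (.c (u 3 16 (k r (k r (k r (k (c 2 4099 r v) (k (t 2 1 v) r))))))
 (.c (u 2 10 (k r (k r (k (t 6 1 (u 4 0 (k r (k (c 12 4099 r (u 8 0 (k r (k r r)))) r)))) r))))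
 (.c (c 2 4099 r r)
 (.c (u 3 7 (k (t 2 1 v) (k r r)))
 (.c (t 2 1 r)
 (.t 92 (.c (t 2 1 (t 3 5 v))
 (.c (t 2 1 (t 3 3 v))
 (.c (t 2 1 (t 3 2 v))
 (.c (u 3 0 (k (t 7 1 (u 5 0 (k r (k (c 13 4097 r (u 2 1 (k (u 9 0 (k v (k v r))) (k (u 9 0 (k v (k v r))) (k (t 6 1 (u 4 0 (k (u 9 0 (k v (k v r))) (k (c 12 4099 r r) r)))) r))))) r)))) r))
 (.c (u 3 5 (k r (k r r)))
 (.c (c 2 4099 r r)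
 (.c (t 2 1 r)
 (.c (c 2 4099 r (t 3 3 v))
 (.c (c 2 4099 r (u 3 0 (k (t 7 2 r) r)))
 (.c (t 2 1 r)
 (.c (t 2 1 (u 3 0 (k (t 7 3 r) r)))
 (.c (t 2 1 r)
 (.c (t 2 1 (t 3 2 v))
 (.c (t 2 1 r)
 (.c (t 3 1 r)
 (.c (t 2 1 (u 3 0 (k (u 5 0 (k v (k v r))) r)))
 (.c (t 2 1 (u 3 1 (k v (k (c 7 4097 r r) (k (c 7 4097 r r) r)))))
 (.c (u 3 4 (k r (k r r)))
 (.c (c 2 4099 r (u 3 0 (k (t 7 2 r) r)))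
 (.c (t 2 1 r)
 (.c (c 2 4099 r r)
 (.c (t 2 1 r)
 (.c (t 2 1 (t 3 1 v))
 (.c (t 2 1 (u 3 0 (k (t 7 3 r) r)))
 (.c (c 2 4099 r (u 3 1 (k v (k v r))))
 (.c (t 2 1 r)
 (.c (t 2 1 (u 3 0 (k (u 5 0 (k v (k r r))) r)))
 (.c (t 2 1 r)
 (.c (t 3 3 r)
 (.c (u 3 1 (k r (k r r)))
 (.c (c 2 4099 r r)
 (.c (t 2 1 r)
 (.c (t 2 1 r)
 (.c (t 2 1 r)
 (.t 165 (.c (u 3 0 (k (t 7 1 (u 2 1 (k r (k r (k (t 6 1 (u 4 0 (k r (k (c 12 4099 r (u 8 37 (k r (k r (k r (k r r)))))) r)))) r))))) r))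
 (.c (t 3 3 (t 2 1 v))
 (.c (c 2 4099 r (u 3 0 (k r (k r (k r r)))))
 (.c (t 2 1 r)
 (.c (t 2 1 r)
 (.c (u 3 1 (k r (k r (k r (k (t 7 1 (u 5 6 (k r (k (c 13 4099 r (u 9 25 (k r (k r r)))) r)))) r)))))
 (.c (t 2 1 r)
 (.c (t 2 1 r)
 (.c (c 2 4099 r (u 3 0 (k (t 7 2 r) r)))
 (.c (t 2 1 r)
 (.c (t 2 1 r)
 (.c (c 2 4099 r r)
 (.c (c 2 4099 r r)
 (.c (c 2 4099 r r)
 (.c (t 2 1 r)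
 (.c (t 2 1 (t 3 1 v))
 (.c (c 2 4099 r r)
 (.c (c 2 4099 r r)
 (.c (c 2 4099 r r)
 (.c (t 2 1 r)
 (.c (c 2 4099 r r)
 (.c (t 3 1 r)
 (.c (t 2 1 (u 3 0 (k (c 5 4095 r (t 7 3 v)) r)))
 (.c (c 2 4099 r (u 3 0 (k (t 7 1 r) r)))
 (.c (c 2 4099 r r)
 (.c (t 3 3 r)
 (.c (t 2 1 r)
 (.c (t 2 1 r)
 (.c (t 2 1 r)
 (.c (t 2 1 r)
 (.c (t 2 1 r)
 (.c (t 2 1 r)
 (.c (t 2 1 r)
 (.c (u 2 1 (k r (k r (k (t 6 1 (u 4 0 (k r (k (c 12 4099 r (u 8 0 (k r (k r r)))) r)))) r))))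
 (.c (t 2 1 (u 3 0 (k r r)))
 (.c (t 2 1 r)
 (.c (c 2 4099 r r)
 (.c (u 3 1 (k r (k (t 7 1 (u 5 16 (k r (k (c 13 4097 r (u 9 0 (k r (k r r)))) (k (c 13 4096 r (u 9 0 (k r (k r r)))) (k (c 13 4097 r (u 9 0 (k r (k r r)))) r)))))) (k (t 7 1 (u 2 1 (k r (k r (k (t 6 1 (u 4 0 (k r (k (c 12 4099 r (u 8 36 (k r (k r (k r r))))) r)))) r))))) r))))
 (.c (c 2 4099 r r)
 (.c (c 2 4099 r r)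
 (.c (u 2 17 (k (c 2 4094 v r) (k r (k (u 3 11 (k v (k (c 7 4101 r (u 5 0 (k v (k v r)))) (k (c 5 4101 r (u 7 0 (k v (k v r)))) (k (c 5 4101 r (u 7 0 (k v (k v r)))) r))))) (k (t 6 1 (u 3 5 (k r (k r (k r (k r (k (u 5 2 (k (t 4 1 (c 3 4074 r v)) (k (c 13 4099 r r) (k (c 9 4095 r r) r)))) r))))))) r)))))
 (.c (c 2 4099 r r)
 (.c (c 2 4099 r r)
 (.c (t 2 1 r)
 (.c (c 2 4099 r (u 3 0 (k (t 7 1 r) r)))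
 (.c (c 2 4099 r (u 3 0 (k (u 7 0 (k (c 15 4101 r (t 11 3 r)) r)) r)))
 (.c (t 3 6 r)
 (.c (t 2 1 r)
 (.c (u 2 9 (k r (k (t 6 1 (u 4 0 (k r (k (c 12 4099 r (u 8 0 (k r (k r r)))) r)))) r)))
 (.c (c 2 4099 r (u 3 0 (k (u 7 11 (k r (k r (k (c 5 4101 r (t 15 1 r)) r)))) r)))
 (.c (t 2 1 r)
 (.c (c 2 4099 r r)
 (.c (c 2 4099 r (u 3 0 (k (u 7 0 (k r (k r (k r (k r (k r (k r r))))))) (k r (k r (k (t 5 2 (u 7 0 (k r r))) (k r (k r (k r (k (u 7 1 (k r (k (c 15 4097 r (u 11 0 (k r (k r r)))) r))) (k r (k (t 7 2 r) (k r (k r (k r (k r (k r r)))))))))))))))))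
 (.c (t 3 3 r)
 (.c (c 2 4099 r (u 3 0 (k (c 7 4097 r r) r)))
 (.c (t 2 1 r)
 (.c (c 2 4099 r r)
 (.c (t 2 1 r)
 (.c (t 2 1 (u 3 0 (k (c 5 4095 r r) r)))
 (.c (c 2 4099 r (u 3 0 (k (t 7 1 r) (k (t 7 1 r) (k (t 5 2 r) (k (t 5 1 r) r))))))
 (.c (u 2 9 (k r (k (t 6 1 (u 4 0 (k r (k (c 8 4099 r (u 12 0 (k r (k r r)))) r)))) r)))
 (.c (c 2 4099 r r)
 (.c (c 2 4099 r (u 3 0 (k (t 7 2 r) r)))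
 (.c (t 2 1 r)
 (.c (u 2 1 (k r (k r (k (t 6 1 (u 4 0 (k r (k (c 12 4099 r (u 8 0 (k r (k r r)))) r)))) r))))
 .z))))))))))))))))))))))))))))))))))))))))))))))))))))))))))))))))))))))))))))))))))))))))))))))))))))))))))))))))))))))))))))))))))))))))))))))))))))))))))))))))

set_option maxRecDepth 100000 in
def R160 : PR :=
 (.t 87 (.t 0 (.t 157 (.c (c 2 4098 r (t 3 1 v))
 (.c (t 2 3 (t 3 1 v))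
 (.c (t 2 3 (t 3 3 v))
 (.c (t 2 3 (t 3 1 v))
 (.c (t 2 3 (t 3 1 v))
 (.c (c 2 4098 r (t 3 3 v))
 (.c (t 2 3 (t 3 3 v))
 (.c (c 2 4098 r (t 3 3 v))
 (.c (c 2 4098 r (t 3 1 v))
 (.c (c 2 4098 r (t 3 1 v))
 (.c (t 2 3 (t 3 3 v))
 (.c (t 2 3 (t 3 3 v))
 (.c (c 2 4098 r (t 3 1 v))
 (.c (t 2 3 (u 3 0 (k v (k v r))))
 (.c (t 2 3 (u 3 1 (k v (k v r))))
 (.c (t 2 1 (t 3 3 v))
 (.c (t 2 1 (t 3 3 v))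
 (.c (t 2 3 (u 3 0 (k (u 5 0 (k v (k v r))) r)))
 (.c (t 2 3 (t 3 1 v))
 (.c (t 2 2 (t 3 3 v))
 (.c (t 2 3 (t 3 3 v))
 (.c (t 2 3 (u 3 3 (k v (k v r))))
 (.c (t 2 3 (t 3 3 v))
 (.c (t 2 3 (u 3 0 (k (t 7 1 (t 5 3 v)) r)))
 (.c (c 2 4098 r (t 3 3 v))
 (.c (t 2 3 r)
 (.c (c 2 4098 r (t 3 1 v))
 (.c (t 2 3 (u 3 0 (k (u 5 1 (k v (k v r))) r)))
 (.c (t 2 3 (t 3 3 v))
 (.c (c 2 4098 r (t 3 5 v))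
 (.c (c 2 4098 r (t 3 3 v))
 (.c (t 2 3 (u 3 0 (k (t 5 3 (t 7 1 v)) r)))
 (.c (c 2 4098 r (t 3 3 v))
 (.c (c 2 4098 r r)
 (.c (t 2 3 r)
 (.c (c 2 4098 r (u 3 0 (k r r)))
 (.c (t 2 3 r)
 (.c (c 2 4098 r (t 3 1 v))
 (.c (c 2 4098 r (u 3 0 (k (t 7 1 r) r)))
 (.c (c 2 4098 r (t 3 3 v))
 (.c (t 2 3 (t 3 6 v))
 (.c (t 2 3 (u 3 1 (k v (k v r))))
 (.c (t 2 3 r)
 (.c (t 2 1 (t 3 3 v))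
 (.c (t 2 1 (u 3 4 (k v (k (t 7 1 (u 5 2 (k v (k v r)))) r))))
 (.c (t 2 3 r)
 (.c (t 3 1 (t 2 1 v))
 (.c (t 2 3 r)
 (.c (c 2 4098 r r)
 (.c (t 2 3 r)
 (.c (t 2 3 (t 3 1 v))
 (.c (t 2 3 r)
 (.c (t 2 1 (u 3 0 (k (t 7 1 (u 5 14 (k v (k v (k v (k (u 9 101 (k v (k v (k v r)))) (k (c 2 4092 v r) (k (c 13 4097 r (u 9 101 (k v (k v (k v r))))) r)))))))) (k (t 7 1 (u 5 23 (k v (k v (k v (k (c 2 4092 v r) r)))))) r))))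
 (.c (c 2 4098 r r)
 (.c (t 2 2 r)
 (.c (t 2 3 r)
 (.c (t 2 3 r)
 (.c (t 2 3 (t 3 1 v))
 (.c (t 2 3 r)
 (.c (t 2 3 (t 3 2 v))
 (.t 92 (.c (t 2 3 (u 3 5 (k v (k v r))))
 (.c (c 2 4098 r r)
 (.c (c 2 4098 r (u 3 0 (k (t 7 2 r) r)))
 (.c (c 2 4098 r (t 3 3 v))
 (.c (c 2 4098 r (u 3 0 (k (t 7 2 r) r)))
 (.c (t 2 1 (u 3 0 (k v (k v r))))
 (.c (t 2 2 (u 3 0 (k (t 7 3 r) r)))
 (.c (t 2 2 r)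
 (.c (t 2 3 (t 3 2 v))
 (.c (t 2 3 r)
 (.c (t 2 3 (t 3 1 v))
 (.c (t 2 3 (u 3 0 (k (u 5 0 (k v (k v r))) r)))
 (.c (c 2 4098 r r)
 (.c (t 2 3 r)
 (.c (c 2 4098 r (u 3 0 (k (t 7 2 r) r)))
 (.c (t 2 3 r)
 (.c (c 2 4098 r r)
 (.c (t 2 3 (u 3 0 (k v (k r r))))
 (.c (c 2 4098 r r)
 (.c (t 2 2 (u 3 0 (k (t 7 3 r) r)))
 (.c (c 2 4098 r (u 3 1 (k v (k v r))))
 (.c (t 2 2 r)
 (.c (t 2 3 (u 3 0 (k (u 5 0 (k v (k r r))) r)))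
 (.c (t 2 3 r)
 (.c (c 2 4098 r r)
 (.c (t 2 3 (u 3 1 (k v (k v r))))
 (.c (c 2 4098 r r)
 (.c (t 2 3 r)
 (.c (t 2 3 r)
 (.c (t 2 3 r)
 (.c (t 3 1 (t 2 1 v))
 (.t 165 (.t 82 (.c (c 2 4098 r (u 3 0 (k r (k r (k r r)))))
 (.c (t 2 3 r)
 (.c (t 2 3 r)
 (.c (t 2 3 r)
 (.c (t 2 3 r)
 (.c (t 2 1 (t 3 3 v))
 (.c (c 2 4098 r (u 3 0 (k (t 7 2 r) r)))
 (.c (t 2 2 r)
 (.c (t 2 3 r)
 (.c (c 2 4098 r r)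
 (.c (c 2 4098 r r)
 (.c (c 2 4098 r r)
 (.c (c 2 4098 r r)
 (.c (t 3 6 (t 2 1 v))
 (.c (c 2 4098 r r)
 (.c (c 2 4098 r r)
 (.c (c 2 4098 r r)
 (.c (t 2 3 r)
 (.c (c 2 4098 r r)
 (.c (t 3 1 (t 2 1 v))
 (.c (t 2 2 (u 3 0 (k (t 7 3 r) r)))
 (.c (c 2 4098 r (u 3 0 (k (t 7 1 r) r)))
 (.c (c 2 4098 r r)
 (.c (c 2 4098 r r)
 (.c (t 2 1 r)
 (.c (t 2 1 (t 3 3 v))
 (.c (t 2 1 r)
 (.c (t 2 3 r)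
 (.c (t 2 1 r)
 (.c (t 2 3 r)
 (.c (c 2 4098 r r)
 (.c (t 2 1 (u 3 3 (k v (k (t 7 1 (u 5 20 (k v (k v (k (c 5 4092 r v) (k (c 9 4099 r (c 5 4092 r v)) r)))))) (k (c 2 4092 v (t 7 1 r)) r)))))
 (.c (t 2 3 (u 3 0 (k r r)))
 (.c (t 2 1 r)
 (.c (c 2 4098 r r)
 (.t 87 (.c (c 2 4098 r r)
 (.c (c 2 4098 r r)
 (.c (t 2 1 r)
 (.c (c 2 4098 r r)
 (.c (c 2 4098 r r)
 (.c (t 2 2 r)
 (.c (c 2 4098 r (u 3 0 (k (t 7 1 r) r)))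
 (.c (c 2 4098 r (u 3 0 (k (u 7 0 (k (c 15 4101 r (t 11 3 r)) r)) r)))
 (.c (t 2 3 (t 3 6 v))
 (.c (c 2 4098 r (u 3 0 (k (t 7 2 r) r)))
 (.c (c 2 4098 r (u 3 5 (k (t 7 1 (u 5 0 (k r r))) (k (t 7 2 r) (k (t 7 2 (u 5 0 (k (c 13 4097 r r) r))) (k (t 7 1 (u 5 0 (k (c 13 4100 r r) (k (c 13 4103 r r) (k (c 13 4100 r r) r))))) r))))))
 (.c (c 2 4098 r (u 3 0 (k (u 7 11 (k r (k r (k (c 5 4101 r (t 15 1 r)) r)))) r)))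
 (.c (t 2 3 r)
 (.c (c 2 4098 r r)
 (.c (c 2 4098 r (u 3 0 (k (u 7 0 (k r (k r (k r (k r (k r (k r r))))))) (k r (k r (k (t 5 2 (u 7 0 (k r r))) (k r (k r (k r (k (u 7 1 (k r (k (c 15 4097 r (u 11 0 (k r (k r r)))) r))) (k r (k (t 7 2 r) (k r (k r (k r (k r (k r r)))))))))))))))))
 (.c (t 2 2 (u 3 0 (k r (k r (k r r)))))
 (.c (c 3 4093 r (t 2 2 v))
 (.c (t 2 2 r)
 (.c (c 2 4098 r r)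
 (.c (t 2 2 r)
 (.c (c 2 4098 r r)
 (.c (c 2 4098 r (u 3 0 (k (t 7 1 r) (k (t 7 1 r) (k (t 5 2 r) (k (t 5 1 r) r))))))
 (.c (c 2 4098 r (u 3 2 (k (t 5 1 r) (k (t 5 1 r) (k (t 7 1 r) (k (t 5 1 r) (k (t 5 2 r) (k (t 5 1 r) r))))))))
 (.c (c 2 4098 r r)
 (.c (c 2 4098 r (u 3 0 (k (t 7 2 r) r)))
 (.c (t 2 3 r)
 (.t 166 (.c (t 2 1 (t 3 1 v))
 .z)))))))))))))))))))))))))))))))))))))))))))))))))))))))))))))))))))))))))))))))))))))))))))))))))))))))))))))))))))))))))))))))))))))))))))))))))))))))))))))))))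

set_option maxRecDepth 100000 in
def R161 : PR :=
 (.c (u 2 0 (k (c 6 4099 r r) r))
 (.c (u 2 0 (k (c 6 4099 r r) r))
 (.c (c 2 4095 r (t 3 1 v))
 (.c (c 2 4095 r (t 3 1 v))
 (.c (t 3 1 (u 2 0 (k (c 6 4099 r (u 4 3 (k v (k r (k r r))))) r)))
 (.c (t 2 1 (t 3 3 v))
 (.c (t 3 1 (u 2 0 (k (c 6 4099 r (u 4 3 (k v (k (t 12 1 (u 8 19 (k v (k v (k (c 24 4100 r r) (k (c 24 4100 r r) r)))))) (k (t 12 1 (u 8 18 (k v (k (c 24 4099 r r) r)))) r))))) r)))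
 (.c (t 3 1 (u 2 0 (k (t 6 1 (u 4 9 (k v (k r (k r r))))) r)))
 (.c (c 2 4095 r (t 3 3 v))
 (.c (c 3 4099 r (u 2 0 (k (c 6 4099 r r) r)))
 (.c (c 2 4095 r (t 3 3 v))
 (.c (c 2 4095 r (t 3 1 v))
 (.c (c 2 4095 r (t 3 1 v))
 (.c (c 2 4095 r (t 3 2 v))
 (.c (t 3 3 (u 2 0 (k (c 6 4099 r r) r)))
 (.c (c 2 4095 r (t 3 1 v))
 (.c (c 3 4097 r (u 2 0 (k (c 6 4099 r r) r)))
 (.c (c 3 4097 r (u 2 0 (k (c 6 4099 r r) r)))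
 (.c (c 2 4095 r (t 3 1 v))
 (.c (c 2 4095 r (t 3 1 v))
 (.c (c 2 4095 r (t 3 2 v))
 (.c (c 2 4095 r (t 3 1 v))
 (.c (t 2 2 (t 3 3 v))
 (.c (c 2 4095 r (t 3 3 v))
 (.c (t 2 1 (u 3 3 (k v (k v r))))
 (.c (c 2 4095 r (t 3 3 v))
 (.c (t 2 1 (u 3 0 (k (t 5 3 (t 7 1 v)) r)))
 (.c (c 2 4095 r (t 3 3 v))
 (.c (c 3 4097 r (u 2 0 (k (c 6 4099 r r) r)))
 (.c (c 2 4095 r (t 3 1 v))
 (.c (c 3 4097 r (u 2 0 (k (c 6 4099 r r) r)))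
 (.c (c 3 4097 r (u 2 0 (k (c 6 4099 r r) r)))
 (.c (c 2 4095 r (t 3 5 v))
 (.c (c 2 4095 r (t 3 3 v))
 (.c (c 3 4096 r (u 2 0 (k (c 6 4099 r r) r)))
 (.c (c 2 4095 r (t 3 3 v))
 (.c (c 2 4095 r r)
 (.c (c 3 4096 r (u 2 0 (k (c 6 4099 r r) r)))
 (.c (c 2 4095 r (u 3 0 (k r r)))
 (.c (u 2 0 (k (c 6 4099 r r) r))
 (.c (c 2 4095 r (t 3 1 v))
 (.c (c 2 4095 r (u 3 0 (k (t 7 1 r) r)))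
 (.c (c 2 4095 r (t 3 3 v))
 (.c (t 3 6 (u 2 0 (k (c 6 4099 r r) r)))
 (.t 46 (.c (u 2 0 (k (c 6 4099 r (u 4 5 (k r (k (t 12 1 (u 8 15 (k r (k r r)))) r)))) r))
 (.c (t 3 2 (t 2 1 v))
 (.c (t 3 1 (t 2 1 v))
 (.c (u 2 0 (k (c 6 4099 r (u 4 5 (k r (k (t 12 1 (u 8 15 (k r (k r r)))) r)))) r))
 (.c (c 2 4095 r (t 3 1 v))
 (.c (t 3 1 r)
 (.c (c 2 4095 r r)
 (.c (c 3 4097 r (u 2 0 (k (c 6 4099 r r) r)))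
 (.c (c 2 4095 r (t 3 1 v))
 (.c (c 3 4097 r (u 2 0 (k (c 6 4099 r r) r)))
 (.c (c 3 4097 r (u 2 0 (k (c 6 4099 r r) r)))
 (.c (c 2 4095 r r)
 (.c (c 2 4095 r r)
 (.c (c 2 4095 r (t 3 1 v))
 (.c (c 2 4095 r r)
 (.c (c 3 4095 r (u 2 0 (k (c 6 4099 r r) r)))
 (.c (c 2 4095 r r)
 (.c (c 2 4095 r r)
 (.c (c 2 4095 r (t 3 1 v))
 (.c (c 2 4095 r r)
 (.c (c 2 4095 r r)
 (.c (c 2 4095 r (u 3 0 (k (t 7 2 r) r)))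
 (.c (c 2 4095 r (t 3 3 v))
 (.c (c 2 4095 r (u 3 0 (k (t 7 2 r) r)))
 (.t 156 (.c (c 2 4095 r r)
 (.c (c 2 4095 r r)
 (.c (t 3 2 (u 2 0 (k (c 6 4099 r r) r)))
 (.c (u 2 0 (k (c 6 4099 r r) r))
 (.c (c 3 4099 r (u 2 0 (k (c 6 4099 r r) r)))
 (.c (u 3 0 (k (u 2 0 (k (c 6 4099 r (u 5 0 (k r (k r r)))) r)) r))
 (.c (c 2 4095 r r)
 (.c (c 2 4095 r r)
 (.c (c 2 4095 r (u 3 0 (k (t 7 2 r) r)))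
 (.c (c 3 4095 r (u 2 0 (k (c 6 4099 r r) r)))
 (.c (c 2 4095 r r)
 (.c (u 2 0 (k (c 6 4099 r (u 4 5 (k (u 3 0 (k v (k r r))) (k (t 12 1 (u 8 27 (k (u 3 0 (k v (k r r))) (k (u 3 0 (k v (k r r))) (k (u 3 0 (k v (k r r))) r))))) r)))) r))
 (.c (c 2 4095 r r)
 (.c (c 2 4095 r (u 3 0 (k (t 7 3 r) r)))
 (.c (c 2 4095 r (u 3 1 (k v (k v r))))
 (.c (c 2 4095 r r)
 (.c (c 2 4095 r (t 3 2 v))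
 (.c (u 2 0 (k (c 6 4099 r (u 3 33 (k r (k (c 2 4092 r v) (k (u 4 5 (k v (k (t 12 1 (u 8 15 (k v (k v r)))) r))) (k (c 7 4099 r r) (k (c 3 4097 r r) (k (c 5 4099 r r) r)))))))) r))
 (.c (c 2 4095 r r)
 (.c (u 3 34 (k (u 2 0 (k (c 6 4099 r r) r)) (k (u 2 0 (k (c 6 4099 r r) r)) (k (u 2 0 (k (c 6 4099 r r) r)) r))))
 (.c (c 2 4095 r r)
 (.c (u 2 0 (k (c 6 4099 r (u 4 5 (k r (k (t 12 1 (u 8 15 (k r (k r r)))) r)))) r))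
 (.c (c 2 4095 r (t 3 2 v))
 (.c (u 2 0 (k (c 6 4099 r (u 4 5 (k r (k (t 12 1 (u 8 15 (k r (k (u 3 1 (k v (k v (k v (k (u 5 1 (k v (k v r))) (k (c 5 4097 r (u 7 0 (k v (k v r)))) (k (c 5 4095 r (u 7 0 (k v (k v r)))) r))))))) r)))) r)))) r))
 (.c (c 3 4097 r (u 2 0 (k (c 6 4099 r r) r)))
 (.c (c 2 4095 r (t 3 1 v))
 (.c (c 2 4095 r (t 3 2 v))
 (.c (c 2 4095 r (u 3 0 (k r (k r (k r r)))))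
 (.c (c 2 4095 r (u 3 0 (k (t 7 2 (u 5 0 (k (c 13 4099 r r) r))) r)))
 (.c (c 3 4095 r (u 2 0 (k (c 6 4099 r r) r)))
 (.c (c 3 4095 r (u 2 0 (k (c 6 4099 r r) r)))
 (.c (u 2 0 (k (c 6 4099 r (u 4 3 (k r (k (t 12 1 (u 3 0 (k (t 5 1 r) (k (c 7 4096 r (u 8 15 (k r (k r r)))) (k (c 7 4096 r (c 3 4096 (t 2 1 v) r)) (k (t 5 2 r) (k (t 5 1 r) r))))))) (k (c 2 4089 (t 6 1 r) (u 3 5 (k v (k r (k (t 5 1 (u 7 0 (k (t 11 3 (t 15 1 v)) r))) (k (t 5 2 (u 7 0 (k (t 11 3 (t 15 1 v)) r))) (k (t 5 1 (u 7 0 (k (t 11 3 (t 15 1 v)) r))) r))))))) r))))) r))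
 (.c (u 2 0 (k (c 6 4099 r (u 4 3 (k (t 3 3 v) (k (t 12 1 (u 8 28 (k (t 3 3 v) (k r (k (t 3 3 v) (k (c 24 4100 r (t 3 3 r)) (k (c 24 4100 r (t 3 3 r)) r))))))) (k (t 3 3 (t 12 1 r)) r))))) r))
 (.c (c 2 4095 r (u 3 0 (k (t 7 2 r) r)))
 (.c (c 2 4095 r r)
 (.c (u 2 0 (k (c 6 4099 r (u 4 3 (k r (k (t 12 1 (u 3 0 (k r (k (t 7 1 r) (k (t 5 2 r) (k (t 5 1 r) r)))))) (k (c 2 4089 (t 6 1 r) r) r))))) r))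
 (.c (c 2 4095 r r)
 (.c (c 2 4095 r r)
 (.c (c 2 4095 r r)
 (.c (c 2 4095 r r)
 (.c (c 2 4095 r r)
 (.c (c 2 4095 r r)
 (.c (c 2 4095 r r)
 (.c (c 2 4095 r r)
 (.c (c 3 4097 r (u 2 0 (k (c 6 4099 r r) r)))
 (.c (c 2 4095 r r)
 (.c (c 2 4095 r r)
 (.c (c 2 4095 r r)
 (.c (c 2 4095 r (u 3 0 (k (t 7 1 r) r)))
 (.c (c 2 4095 r r)
 (.c (c 2 4095 r r)
 (.c (t 2 1 r)
 (.c (u 2 0 (k (c 6 4099 r (u 4 3 (k (t 3 3 v) (k (t 12 1 (u 8 29 (k (t 3 3 v) (k r (k (c 16 4101 r (t 3 3 r)) (k (c 24 4103 r (t 3 3 r)) (k (c 24 4100 r (t 3 3 r)) (k (c 24 4100 r (t 3 3 r)) r)))))))) (k (t 3 3 (t 12 1 r)) r))))) r))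
 (.c (u 2 0 (k (c 6 4099 r r) r))
 (.c (c 2 4095 r r)
 (.c (u 2 0 (k (c 6 4099 r r) r))
 (.c (u 3 25 (k (u 2 0 (k (c 6 4099 r r) r)) (k (u 2 0 (k (c 6 4099 r r) r)) (k (c 7 4097 r (u 2 0 (k (c 6 4099 r (u 5 1 (k r (k r r)))) r))) (k (c 7 4096 r (u 2 0 (k (c 6 4099 r (u 5 1 (k r (k r r)))) r))) (k (c 7 4097 r (u 2 0 (k (c 6 4099 r (u 5 1 (k r (k r r)))) r))) r))))))
 (.c (c 2 4095 r r)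
 (.c (t 3 1 (t 2 1 v))
 (.c (c 3 4099 r (u 2 0 (k (c 6 4099 r r) r)))
 (.c (c 3 4097 r (u 2 0 (k (c 6 4099 r r) r)))
 (.c (c 2 4095 r r)
 (.c (c 3 4097 r (u 2 0 (k (c 6 4099 r r) r)))
 (.c (c 2 4095 r r)
 (.c (c 2 4095 r r)
 (.c (c 2 4095 r r)
 (.c (c 2 4095 r r)
 (.c (c 2 4095 r r)
 (.c (c 2 4095 r r)
 (.c (c 2 4095 r (u 3 0 (k (t 7 1 r) r)))
 (.c (c 2 4095 r (u 3 0 (k (u 7 0 (k (c 15 4101 r (t 11 3 r)) r)) r)))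
 (.c (u 2 0 (k (c 6 4099 r (u 4 3 (k (t 3 6 v) (k (t 12 1 (u 8 7 (k r (k (t 3 6 v) (k (c 16 4101 r (t 3 6 r)) (k (c 24 4103 r (t 3 6 r)) (k (c 24 4100 r (t 3 6 r)) (k (c 24 4100 r (t 3 6 r)) r)))))))) (k (t 3 6 (t 12 1 r)) r))))) r))
 (.c (c 2 4095 r (u 3 0 (k (t 7 2 r) r)))
 (.c (c 2 4095 r (u 3 5 (k (t 7 1 (u 5 0 (k r r))) (k (t 7 2 r) (k (t 7 2 (u 5 0 (k (c 13 4097 r r) r))) (k (t 7 1 (u 5 0 (k (c 13 4100 r r) (k (c 13 4103 r r) (k (c 13 4100 r r) r))))) r))))))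
 (.c (c 2 4095 r (u 3 0 (k (u 7 11 (k r (k r (k (c 5 4101 r (t 15 1 r)) r)))) r)))
 (.c (c 2 4095 r r)
 (.c (c 2 4095 r r)
 (.c (c 2 4095 r (u 3 0 (k (u 7 0 (k r (k r (k r (k r (k r (k r r))))))) (k r (k r (k (t 5 2 (u 7 0 (k r r))) (k r (k r (k r (k (u 7 1 (k r (k (c 15 4097 r (u 11 0 (k r (k r r)))) r))) (k r (k (t 7 2 r) (k r (k r (k r (k r (k r r)))))))))))))))))
 (.c (c 2 4095 r (u 3 0 (k (t 7 1 r) (k (t 5 2 r) (k (t 5 1 r) r)))))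
 (.c (c 3 4093 r (u 2 0 (k (c 6 4099 r r) r)))
 (.c (c 2 4095 r r)
 (.c (c 2 4095 r r)
 (.c (c 2 4095 r r)
 (.c (c 2 4095 r r)
 (.c (c 2 4095 r (u 3 0 (k (t 7 1 r) (k (t 7 1 r) (k (t 5 2 r) (k (t 5 1 r) r))))))
 (.c (c 2 4095 r (u 3 2 (k (t 5 1 r) (k (t 5 1 r) (k (t 7 1 r) (k (t 5 1 r) (k (t 5 2 r) (k (t 5 1 r) r))))))))
 (.c (c 2 4095 r r)
 (.c (c 2 4095 r (u 3 0 (k (t 7 2 r) r)))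
 (.c (u 2 0 (k (c 6 4099 r r) r))
 (.c (t 3 1 (t 2 1 v))
 (.c (t 3 3 r)
 (.c (c 2 4095 r (u 3 0 (k (c 7 4099 r r) r)))
 .z))))))))))))))))))))))))))))))))))))))))))))))))))))))))))))))))))))))))))))))))))))))))))))))))))))))))))))))))))))))))))))))))))))))))))))))))))))))))))))))))))

set_option maxRecDepth 100000 in
def R162 : PR :=
 (.t 161 (.c r
 (.c (t 3 1 r)
 (.c (t 3 1 r)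
 (.c (t 2 1 (t 3 1 v))
 (.c (t 2 1 (t 3 3 v))
 (.c (t 2 1 (t 3 2 v))
 (.c (t 3 1 (u 2 2 (k (t 6 3 r) (k (t 6 2 r) (k (c 3 4099 v r) (k r (k r (k (c 3 4099 v r) (k (c 3 4099 v r) (k (c 3 4099 v r) (k (t 4 1 r) r)))))))))))
 (.c (c 2 4099 r (t 3 3 v))
 (.c (t 2 1 (t 3 3 v))
 (.c (c 2 4099 r (t 3 3 v))
 (.c (c 2 4099 r (t 3 1 v))
 (.c (c 2 4099 r (t 3 1 v))
 (.c (t 3 2 r)
 (.c (t 3 2 r)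
 (.c (c 2 4099 r (t 3 1 v))
 (.c (u 3 0 (k r (k r r)))
 (.c (c 3 4097 r r)
 (.c (t 3 1 r)
 (.c (t 3 1 r)
 (.c (t 2 1 (u 3 0 (k (u 5 0 (k v (k v r))) r)))
 (.c (c 3 4095 r r)
 (.c (t 2 1 (t 3 3 v))
 (.c (t 2 1 (t 3 3 v))
 (.c (t 2 1 (u 3 3 (k v (k v r))))
 (.c (t 3 1 r)
 (.c (t 3 1 r)
 (.c (c 2 4099 r (t 3 3 v))
 (.c (t 2 1 r)
 (.c (c 2 4099 r (t 3 1 v))
 (.c (c 3 4097 r r)
 (.c (t 2 1 (t 3 2 v))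
 (.c (c 2 4099 r (t 3 5 v))
 (.c (c 2 4099 r (t 3 3 v))
 (.c (u 3 0 (k (t 5 3 (t 7 1 (u 2 2 (k r (k (t 6 2 r) (k (c 3 4096 v r) (k (t 4 1 r) (k r (k (c 3 4096 v r) (k (c 3 4096 v r) (k (c 3 4096 v r) (k (t 4 1 r) r)))))))))))) r))
 (.c (c 2 4099 r (t 3 3 v))
 (.c (c 2 4099 r r)
 (.c (u 3 0 (k r (k r (k (t 7 1 (u 5 0 (k (t 9 3 (t 13 1 (u 2 2 (k r (k (t 6 2 (c 3 4096 v r)) (k (c 3 4096 v r) (k (c 9 4108 v r) (k r (k (c 3 4096 v r) (k (c 3 4096 v r) (k (c 3 4096 v r) (k (t 4 1 r) r)))))))))))) r))) r))))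
 (.c (c 2 4099 r (u 3 0 (k r r)))
 (.c (t 2 1 r)
 (.c (c 2 4099 r (t 3 1 v))
 (.c (c 2 4099 r (u 3 0 (k (t 7 1 r) r)))
 (.c (c 2 4099 r (t 3 3 v))
 (.c (t 3 6 r)
 (.c (u 3 0 (k r (k r r)))
 (.c (t 3 2 r)
 (.c (t 3 2 r)
 (.c (t 3 1 r)
 (.c (t 3 1 r)
 (.c (t 3 1 r)
 (.c (t 3 1 r)
 (.c (c 2 4099 r r)
 (.c (t 2 1 r)
 (.c (c 3 4097 r r)
 (.c (u 2 3 (k r (k (t 6 2 (u 4 1 (k r (k (c 12 4099 r (u 8 1 (k r (k r r)))) (k (c 8 4098 r (u 12 1 (k r (k r r)))) (k (c 8 4097 r (u 12 1 (k r (k r r)))) (k (c 8 4099 r (u 12 1 (k r (k r r)))) (k (c 8 4095 r (c 3 4097 r r)) r)))))))) (k (t 4 2 r) (k (c 3 4097 r r) (k (t 6 2 r) (k (c 3 4097 r r) (k (c 3 4097 r r) (k (c 3 4097 r r) (k (t 4 2 r) r))))))))))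
 (.c (t 3 1 r)
 (.c (c 2 4099 r r)
 (.c (u 3 3 (k (u 2 7 (k r (k r (k (t 6 2 (c 3 4090 v r)) (k (c 3 4090 v r) (k r (k (c 3 4090 v r) (k (c 3 4090 v r) (k (c 3 4090 v r) (k (t 4 1 r) r)))))))))) (k r r)))
 (.c (t 2 1 r)
 (.c (c 3 4095 r r)
 (.c (c 3 4095 r r)
 (.c (t 3 2 r)
 (.c (t 2 1 (t 3 2 v))
 (.c (c 3 4095 r r)
 (.c (c 3 4095 r r)
 (.c (c 2 4099 r r)
 (.c (t 3 4 r)
 (.c (c 2 4099 r (t 3 3 v))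
 (.c (c 2 4099 r (u 3 0 (k (t 7 2 r) r)))
 (.c (u 3 23 (k r (k r r)))
 (.c (t 3 2 r)
 (.c (u 2 6 (k r (k r (k r (k (c 6 4100 r (u 3 11 (k r (k (t 7 3 (u 5 1 (k (c 11 4099 v r) (k (u 4 3 (k v (k v (k (c 12 4097 r (u 8 1 (k v (k v r)))) (k (c 12 4096 r (u 8 1 (k v (k v r)))) (k (c 12 4097 r (u 8 1 (k v (k v r)))) r)))))) r)))) r)))) r)))))
 (.c (t 2 1 (t 3 2 v))
 (.c (u 3 13 (k r (k r (k r (k (c 7 4099 r (u 2 5 (k (u 5 1 (k v (k v r))) (k r (k r (k r (k r r))))))) r)))))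
 (.c (t 3 1 r)
 (.c (t 2 1 (u 3 0 (k (u 5 0 (k v (k v r))) r)))
 (.c (t 3 2 r)
 (.c (u 3 25 (k r (k r r)))
 (.c (c 2 4099 r (u 3 0 (k (t 7 2 r) r)))
 (.c (c 3 4095 r r)
 (.c (c 2 4099 r r)
 (.c (t 3 2 r)
 (.c (t 3 4 r)
 (.c (t 2 1 (u 3 0 (k (t 7 3 r) r)))
 (.c (c 2 4099 r (u 3 1 (k v (k v r))))
 (.c (t 3 1 r)
 (.c (t 2 1 (u 3 0 (k (u 5 0 (k v (k r r))) r)))
 (.c (t 2 1 r)
 (.c (t 3 3 r)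
 (.c (u 3 0 (k r (k r r)))
 (.c (c 3 4095 r r)
 (.c (u 3 3 (k r (k r r)))
 (.c (t 2 1 r)
 (.c (t 2 1 r)
 (.c (t 3 1 r)
 (.c (t 3 1 r)
 (.c (t 3 2 r)
 (.c (c 3 4095 r r)
 (.c (c 3 4095 r r)
 (.c (c 3 4095 r r)
 (.c (c 3 4095 r r)
 (.c (t 3 4 r)
 (.c (t 3 2 r)
 (.c (t 3 4 r)
 (.c (t 2 1 r)
 (.c (t 3 3 r)
 (.c (c 2 4099 r r)
 (.c (c 2 4099 r r)
 (.c (c 2 4099 r r)
 (.c (c 2 4099 r r)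
 (.c (t 3 4 r)
 (.c (c 2 4099 r r)
 (.c (c 2 4099 r r)
 (.c (c 2 4099 r r)
 (.c (t 2 1 r)
 (.c (c 2 4099 r r)
 (.c (t 3 1 r)
 (.c (u 3 0 (k (c 5 4095 r (t 7 3 r)) r))
 (.c (c 2 4099 r (u 3 0 (k (t 7 1 r) r)))
 (.c (c 2 4099 r r)
 (.c (t 3 3 r)
 (.c (t 2 1 r)
 (.c (t 2 1 r)
 (.c (t 2 1 r)
 (.c (t 3 2 r)
 (.c (t 3 2 r)
 (.c (t 2 1 r)
 (.c (t 3 2 r)
 (.c (t 3 1 r)
 (.c (t 3 2 r)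
 (.c (t 2 1 r)
 (.c (c 2 4099 r r)
 (.c (t 3 1 r)
 (.c (c 2 4099 r r)
 (.c (c 2 4099 r r)
 (.c (t 3 3 r)
 (.c (c 3 4095 r r)
 (.c (c 2 4099 r r)
 (.c (t 2 1 r)
 (.c (c 3 4097 r r)
 (.c (c 3 4097 r r)
 (.c (t 3 6 r)
 (.c (t 3 1 r)
 (.c (t 3 1 r)
 (.c (c 2 4099 r (u 3 0 (k (u 7 11 (k r (k r (k (c 5 4101 r (t 15 1 r)) r)))) r)))
 (.c (t 3 2 r)
 (.c (c 3 4095 r r)
 (.c (c 2 4099 r (u 3 0 (k (u 7 0 (k r (k r (k r (k r (k r (k r r))))))) (k r (k r (k (t 5 2 (u 7 0 (k r r))) (k r (k r (k r (k (u 7 1 (k r (k (c 15 4097 r (u 11 0 (k r (k r r)))) r))) (k r (k (t 7 2 r) (k r (k r (k r (k r (k r r)))))))))))))))))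
 (.c (t 3 3 r)
 (.c (c 3 4093 r r)
 (.c (u 2 6 (k r (k r (k r (k (c 6 4100 r (u 3 3 (k r (k (u 4 2 (k v (k v (k (c 12 4097 r (u 8 1 (k v (k v r)))) (k (c 12 4096 r (u 8 1 (k v (k v r)))) (k (c 12 4097 r (u 8 1 (k v (k v r)))) (k (c 12 4099 r (u 8 1 (k v (k v r)))) r))))))) (k (t 7 3 (u 5 1 (k r (k (c 13 4099 r r) (k (c 9 4097 r (c 4 4099 r r)) (k (c 9 4095 r r) (k (c 9 4095 r r) r))))))) r))))) r)))))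
 (.c (c 2 4099 r r)
 (.c (t 3 2 r)
 (.c (t 2 1 (u 3 0 (k (c 5 4095 r r) r)))
 (.c (c 3 4095 r r)
 (.c (t 3 3 r)
 (.c (c 2 4099 r r)
 (.c (c 2 4099 r (u 3 0 (k (t 7 2 r) r)))
 (.c (t 2 1 r)
 (.c (t 3 1 r)
 (.c (t 3 2 r)
 (.c (c 3 4095 r r)
 (.c (u 2 9 (k r (k r (k r (k r (k (c 6 4100 r r) r))))))
 .z)))))))))))))))))))))))))))))))))))))))))))))))))))))))))))))))))))))))))))))))))))))))))))))))))))))))))))))))))))))))))))))))))))))))))))))))))))))))))))))))))))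

set_option maxRecDepth 100000 in
def R163 : PR :=
 (.t 0 (.t 0 (.c (c 2 4095 r (t 3 1 v))
 (.c (c 2 4095 r (t 3 1 v))
 (.c (t 2 1 (t 3 1 v))
 (.c (t 2 1 (t 3 3 v))
 (.c (t 2 1 (t 3 1 v))
 (.t 12 (.c (c 2 4095 r (t 3 3 v))
 (.c (t 2 1 (t 3 3 v))
 (.c (c 2 4095 r (t 3 3 v))
 (.c (c 2 4095 r (t 3 1 v))
 (.c (c 2 4095 r (t 3 1 v))
 (.c (c 2 4095 r (t 3 2 v))
 (.t 160 (.c (c 2 4095 r (t 3 1 v))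
 (.c (t 2 1 (u 3 0 (k v (k v r))))
 (.c (t 2 1 (u 3 1 (k v (k v r))))
 (.c (c 2 4095 r (t 3 1 v))
 (.c (c 2 4095 r (t 3 1 v))
 (.c (c 2 4095 r (t 3 2 v))
 (.c (c 2 4095 r (t 3 1 v))
 (.c (t 2 2 (t 3 3 v))
 (.c (c 2 4095 r (t 3 3 v))
 (.c (t 2 1 (u 3 3 (k v (k v r))))
 (.c (c 2 4095 r (t 3 3 v))
 (.c (t 2 1 (u 3 0 (k (t 7 1 (t 5 3 v)) r)))
 (.c (c 2 4095 r (t 3 3 v))
 (.c (t 2 1 r)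
 (.c (c 2 4095 r (t 3 1 v))
 (.c (t 2 1 (u 3 0 (k (u 5 1 (k v (k v r))) r)))
 (.c (t 3 3 (u 2 1 (k (t 6 1 (u 4 6 (k v (k (t 12 1 (u 8 19 (k v (k v (k (c 24 4099 r (u 16 6 (k v (k v (k v r))))) (k (c 16 4099 r (u 24 6 (k v (k v (k v r))))) (k (c 16 4095 r (u 24 23 (k v (k v r)))) r))))))) r)))) (k (u 4 8 (k v (k r (k (c 3 4100 v (u 12 19 (k r (k (c 28 4099 r r) (k (c 20 4096 r r) r))))) (k r (k r r)))))) r))))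
 (.c (c 2 4095 r (t 3 5 v))
 (.c (c 2 4095 r (t 3 3 v))
 (.c (t 2 1 (u 3 0 (k (t 5 3 (t 7 1 v)) r)))
 (.c (c 2 4095 r (t 3 3 v))
 (.c (c 2 4095 r r)
 (.c (t 2 1 r)
 (.c (c 2 4095 r (u 3 0 (k r r)))
 (.c (t 2 1 r)
 (.c (c 2 4095 r (t 3 1 v))
 (.c (c 2 4095 r (u 3 0 (k (t 7 1 r) r)))
 (.c (c 2 4095 r (t 3 3 v))
 (.c (t 2 1 (t 3 6 v))
 (.c (t 2 1 (u 3 1 (k v (k v r))))
 (.c (t 2 1 r)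
 (.c (t 3 2 (u 2 1 (k r (k r r))))
 (.c (t 3 1 (u 2 1 (k r (k r r))))
 (.c (t 2 1 r)
 (.c (c 2 4095 r (t 3 1 v))
 (.c (t 2 1 r)
 (.c (c 2 4095 r r)
 (.c (t 2 1 r)
 (.c (c 2 4095 r (t 3 1 v))
 (.c (t 2 1 r)
 (.c (t 3 1 (u 2 1 (k r (k r r))))
 (.c (c 2 4095 r r)
 (.c (c 2 4095 r r)
 (.c (c 2 4095 r (t 3 1 v))
 (.c (c 2 4095 r r)
 (.c (c 2 4095 r r)
 (.c (c 2 4095 r r)
 (.c (c 2 4095 r r)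
 (.c (c 2 4095 r (t 3 1 v))
 (.c (c 2 4095 r r)
 (.c (c 2 4095 r r)
 (.c (c 2 4095 r (u 3 0 (k (t 7 2 r) r)))
 (.c (c 2 4095 r (t 3 3 v))
 (.c (c 2 4095 r (u 3 0 (k (t 7 2 r) r)))
 (.t 121 (.c (c 2 4095 r r)
 (.c (c 2 4095 r r)
 (.c (t 2 1 (t 3 2 v))
 (.c (t 2 1 r)
 (.c (t 2 1 (t 3 1 v))
 (.c (t 2 1 (u 3 0 (k (u 5 0 (k v (k v r))) r)))
 (.c (c 2 4095 r r)
 (.c (c 2 4095 r r)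
 (.c (c 2 4095 r (u 3 0 (k (t 7 2 r) r)))
 (.c (t 2 1 r)
 (.c (c 2 4095 r r)
 (.c (t 2 1 (u 3 0 (k v (k r r))))
 (.c (c 2 4095 r r)
 (.c (c 2 4095 r (u 3 0 (k (t 7 3 r) r)))
 (.c (c 2 4095 r (u 3 1 (k v (k v r))))
 (.c (c 2 4095 r r)
 (.c (c 2 4095 r (t 3 2 v))
 (.c (t 2 1 r)
 (.c (c 2 4095 r r)
 (.c (t 2 1 (u 3 1 (k v (k v r))))
 (.c (c 2 4095 r r)
 (.c (t 2 1 r)
 (.c (c 2 4095 r (t 3 2 v))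
 (.c (t 2 1 r)
 (.c (t 3 1 r)
 (.c (c 2 4095 r (t 3 1 v))
 (.c (c 2 4095 r (t 3 2 v))
 (.c (c 2 4095 r (u 3 0 (k r (k r (k r r)))))
 (.c (c 2 4095 r (u 3 0 (k (t 7 2 (u 5 0 (k (c 13 4099 r r) r))) r)))
 (.c (t 2 1 r)
 (.c (t 2 1 r)
 (.c (t 2 1 r)
 (.c (t 2 1 (t 3 3 v))
 (.c (c 2 4095 r (u 3 0 (k (t 7 2 r) r)))
 (.c (t 2 1 r)
 (.c (t 2 1 r)
 (.c (c 2 4095 r r)
 (.c (c 2 4095 r r)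
 (.c (c 2 4095 r r)
 (.c (c 2 4095 r r)
 (.c (c 2 4095 r r)
 (.c (c 2 4095 r r)
 (.c (c 2 4095 r r)
 (.c (c 2 4095 r r)
 (.c (t 2 1 r)
 (.c (c 2 4095 r r)
 (.c (c 2 4095 r r)
 (.c (c 2 4095 r r)
 (.c (c 2 4095 r (u 3 0 (k (t 7 1 r) r)))
 (.c (c 2 4095 r r)
 (.c (c 2 4095 r r)
 (.c (t 2 1 r)
 (.c (t 2 1 (t 3 3 v))
 (.c (t 2 1 r)
 (.c (c 2 4095 r r)
 (.c (t 2 1 r)
 (.c (t 2 1 r)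
 (.c (c 2 4095 r r)
 (.c (t 3 1 (u 2 1 (k r (k r r))))
 (.c (t 2 1 (u 3 0 (k r r)))
 (.c (t 2 1 r)
 (.c (c 2 4095 r r)
 (.c (t 3 1 (u 2 1 (k r (k r r))))
 (.c (t 2 1 (c 2 4092 v r))
 (.c (c 2 4095 r r)
 (.c (c 2 4095 r r)
 (.c (c 2 4095 r r)
 (.c (c 2 4095 r r)
 (.c (c 2 4095 r r)
 (.c (c 2 4095 r (u 3 0 (k (t 7 1 r) r)))
 (.c (c 2 4095 r (u 3 0 (k (u 7 0 (k (c 15 4101 r (t 11 3 r)) r)) r)))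
 (.c (t 2 1 (t 3 6 v))
 (.c (c 2 4095 r (u 3 0 (k (t 7 2 r) r)))
 (.c (c 2 4095 r (u 3 5 (k (t 7 1 (u 5 0 (k r r))) (k (t 7 2 r) (k (t 7 2 (u 5 0 (k (c 13 4097 r r) r))) (k (t 7 1 (u 5 0 (k (c 13 4100 r r) (k (c 13 4103 r r) (k (c 13 4100 r r) r))))) r))))))
 (.c (c 2 4095 r (u 3 0 (k (u 7 11 (k r (k r (k (c 5 4101 r (t 15 1 r)) r)))) r)))
 (.c (c 2 4095 r r)
 (.c (c 2 4095 r r)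
 (.c (c 2 4095 r (u 3 0 (k (u 7 0 (k r (k r (k r (k r (k r (k r r))))))) (k r (k r (k (t 5 2 (u 7 0 (k r r))) (k r (k r (k r (k (u 7 1 (k r (k (c 15 4097 r (u 11 0 (k r (k r r)))) r))) (k r (k (t 7 2 r) (k r (k r (k r (k r (k r r)))))))))))))))))
 (.c (c 2 4095 r (u 3 0 (k (t 7 1 r) (k (t 5 2 r) (k (t 5 1 r) r)))))
 (.c (c 2 4095 r (u 3 0 (k (c 7 4097 r r) r)))
 (.c (c 2 4095 r r)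
 (.c (c 2 4095 r r)
 (.c (c 2 4095 r r)
 (.c (c 2 4095 r r)
 (.c (c 2 4095 r (u 3 0 (k (t 7 1 r) (k (t 7 1 r) (k (t 5 2 r) (k (t 5 1 r) r))))))
 (.c (c 2 4095 r (u 3 2 (k (t 5 1 r) (k (t 5 1 r) (k (t 7 1 r) (k (t 5 1 r) (k (t 5 2 r) (k (t 5 1 r) r))))))))
 (.c (c 2 4095 r r)
 (.c (c 2 4095 r (u 3 0 (k (t 7 2 r) r)))
 (.c (t 2 1 r)
 (.c (t 3 1 (u 2 1 (k r (k r r))))
 (.c (t 3 3 r)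
 (.c (c 2 4095 r (u 3 0 (k (c 7 4099 r r) r)))
 (.c (c 2 4095 r r)
 (.c (u 2 1 (k r (k (c 3 4095 r r) r)))
 .z))))))))))))))))))))))))))))))))))))))))))))))))))))))))))))))))))))))))))))))))))))))))))))))))))))))))))))))))))))))))))))))))))))))))))))))))))))))))))))))))))))

set_option maxRecDepth 100000 in
def R164 : PR :=
 (.c r
 (.c r
 (.c (c 2 4096 r (t 3 1 v))
 (.c (c 2 4096 r (t 3 1 v))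
 (.c (t 2 3 (t 3 1 v))
 (.c (c 3 4100 r r)
 (.c (t 3 4 (u 2 0 (k (t 4 2 (u 6 0 (k (c 14 4101 r r) r))) r)))
 (.c (t 3 1 (u 2 0 (k (t 4 2 (u 6 0 (k (t 14 1 r) r))) r)))
 (.c (c 2 4096 r (t 3 3 v))
 (.c (c 3 4099 r r)
 (.c (c 2 4096 r (t 3 3 v))
 (.c (c 2 4096 r (t 3 1 v))
 (.c (c 2 4096 r (t 3 1 v))
 (.c (t 3 2 (u 2 0 (k (t 4 2 (u 6 0 (k (c 14 4101 r r) r))) r)))
 (.c (t 3 2 (u 2 0 (k (t 4 2 (u 6 0 (k (c 14 4101 r r) r))) r)))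
 (.c (c 2 4096 r (t 3 1 v))
 (.c (c 3 4097 r r)
 (.c (c 3 4097 r r)
 (.c (c 2 4096 r (t 3 1 v))
 (.c (t 3 1 (u 2 0 (k (c 6 4095 r r) r)))
 (.c (c 3 4096 r r)
 (.c (c 2 4096 r (t 3 1 v))
 (.c (t 2 2 (t 3 3 v))
 (.c (t 2 3 (t 3 1 v))
 (.c (t 2 3 (u 3 4 (k v (k v r))))
 (.c (c 3 4098 r r)
 (.c (c 3 4098 r r)
 (.c (c 2 4096 r (t 3 3 v))
 (.c (c 3 4097 r r)
 (.c (c 2 4096 r (t 3 1 v))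
 (.c (c 3 4097 r r)
 (.c (c 3 4097 r r)
 (.c (c 2 4096 r (t 3 5 v))
 (.c (c 2 4096 r (t 3 3 v))
 (.c (c 3 4096 r r)
 (.c (c 2 4096 r (t 3 3 v))
 (.c (c 2 4096 r r)
 (.c (c 3 4096 r r)
 (.c (c 2 4096 r (u 3 0 (k r r)))
 (.c (t 3 1 (u 2 0 (k (t 4 2 (u 6 0 (k (c 14 4101 r r) r))) r)))
 (.c (c 2 4096 r (t 3 1 v))
 (.c (c 2 4096 r (u 3 0 (k (t 7 1 r) r)))
 (.c (c 2 4096 r (t 3 3 v))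
 (.c (c 3 4100 r r)
 (.c (u 3 0 (k (u 2 0 (k (t 6 2 r) r)) (k (u 2 0 (k (t 4 2 (u 6 0 (k (c 14 4101 r r) r))) r)) r)))
 (.c (c 3 4100 r r)
 (.c (t 3 2 (u 2 0 (k (c 6 4095 r r) r)))
 (.c (t 3 1 (u 2 0 (k (c 6 4095 r r) r)))
 (.c (t 3 1 (u 2 0 (k (t 4 2 (u 6 0 (k (c 14 4101 r r) r))) r)))
 (.c (c 3 4098 r r)
 (.c (c 3 4098 r r)
 (.c (c 3 4098 r r)
 (.c (c 3 4097 r r)
 (.c (c 2 4096 r (t 3 1 v))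
 (.c (c 3 4097 r r)
 (.c (c 3 4097 r r)
 (.c (c 2 4096 r r)
 (.c (c 3 4096 r r)
 (.c (c 3 4096 r r)
 (.c (c 2 4096 r r)
 (.c (c 2 4096 r r)
 (.c (c 2 4096 r r)
 (.c (c 2 4096 r r)
 (.c (c 2 4096 r (t 3 1 v))
 (.c (c 2 4096 r r)
 (.c (c 2 4096 r r)
 (.c (c 2 4096 r (u 3 0 (k (t 7 2 r) r)))
 (.c (c 2 4096 r (t 3 3 v))
 (.c (c 2 4096 r (u 3 0 (k (t 7 2 r) r)))
 (.c (t 2 1 r)
 (.c (c 3 4099 r r)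
 (.c (t 3 2 (u 2 0 (k (c 6 4095 r r) r)))
 (.c (t 3 8 (u 2 0 (k (t 4 2 (u 6 0 (k (c 14 4101 r r) r))) r)))
 (.c (t 3 1 (u 2 0 (k (t 4 2 (u 6 0 (k (c 14 4101 r r) r))) r)))
 (.c (c 3 4099 r r)
 (.c (t 3 2 (u 2 0 (k (t 4 2 (u 6 0 (k (c 14 4101 r r) r))) r)))
 (.c (c 2 4096 r r)
 (.c (c 2 4096 r r)
 (.c (c 2 4096 r (u 3 0 (k (t 7 2 r) r)))
 (.c (c 3 4095 r r)
 (.c (c 2 4096 r r)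
 (.c (t 3 2 (u 2 0 (k (t 4 2 (u 6 0 (k (c 14 4101 r r) r))) r)))
 (.c (c 2 4096 r r)
 (.c (c 2 4096 r (u 3 0 (k (t 7 3 r) r)))
 (.c (c 2 4096 r (u 3 1 (k v (k v r))))
 (.c (c 2 4096 r r)
 (.c (c 3 4100 r r)
 (.c (t 3 1 (u 2 0 (k (t 4 2 (u 6 0 (k (c 14 4101 r r) r))) r)))
 (.c (c 2 4096 r r)
 (.c (u 3 0 (k (u 2 0 (k (t 6 2 r) r)) (k (u 2 0 (k (t 4 2 (u 6 0 (k (c 14 4101 r r) r))) r)) r)))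
 (.c (c 3 4095 r r)
 (.c (c 3 4098 r r)
 (.c (c 3 4098 r r)
 (.c (c 3 4098 r r)
 (.c (c 3 4097 r r)
 (.c (c 3 4096 r r)
 (.c (c 3 4096 r r)
 (.c (c 2 4096 r (u 3 0 (k r (k r (k r r)))))
 (.c (c 2 4096 r (u 3 0 (k (t 7 2 (u 5 0 (k (c 13 4099 r r) r))) r)))
 (.c (c 3 4095 r r)
 (.c (c 3 4095 r r)
 (.c (t 3 4 (u 2 0 (k (t 4 2 (u 6 0 (k (c 14 4101 r r) r))) r)))
 (.c (t 3 2 (u 2 0 (k (t 4 2 (u 6 0 (k (c 14 4101 r r) r))) r)))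
 (.c (c 2 4096 r (u 3 0 (k (t 7 2 r) r)))
 (.c (c 2 4096 r r)
 (.c (t 2 1 r)
 (.c (c 2 4096 r r)
 (.c (c 2 4096 r r)
 (.c (c 2 4096 r r)
 (.c (c 2 4096 r r)
 (.c (t 3 4 (u 2 0 (k (t 4 2 (u 6 0 (k (c 14 4101 r r) r))) r)))
 (.c (c 2 4096 r r)
 (.c (c 2 4096 r r)
 (.c (c 2 4096 r r)
 (.c (c 3 4097 r r)
 (.c (c 3 4100 r r)
 (.c (c 3 4096 r r)
 (.c (c 3 4096 r r)
 (.c (c 2 4096 r (u 3 0 (k (t 7 1 r) r)))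
 (.c (c 2 4096 r r)
 (.c (c 2 4096 r r)
 (.c (t 2 1 r)
 (.c (t 3 2 (u 2 0 (k (t 4 2 (u 6 0 (k (c 14 4101 r r) r))) r)))
 (.c (t 3 2 (u 2 0 (k (t 4 2 (u 6 0 (k (c 14 4101 r r) r))) r)))
 (.c (c 3 4097 r r)
 (.c (t 3 2 (u 2 0 (k (t 4 2 (u 6 0 (k (c 14 4101 r r) r))) r)))
 (.c (t 3 1 (u 2 0 (k (t 4 2 (u 6 0 (k (c 14 4101 r r) r))) r)))
 (.c (c 3 4096 r r)
 (.c (t 3 1 (u 2 0 (k (c 6 4095 r r) r)))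
 (.c (c 3 4099 r r)
 (.c (c 3 4097 r r)
 (.c (c 2 4096 r r)
 (.c (c 3 4097 r r)
 (.c (c 2 4096 r r)
 (.c (c 2 4096 r r)
 (.c (c 2 4096 r r)
 (.c (c 3 4095 r r)
 (.c (c 2 4096 r r)
 (.c (c 2 4096 r r)
 (.c (c 2 4096 r (u 3 0 (k (t 7 1 r) r)))
 (.c (c 2 4096 r (u 3 0 (k (u 7 0 (k (c 15 4101 r (t 11 3 r)) r)) r)))
 (.c (c 3 4100 r r)
 (.c (c 2 4096 r (u 3 0 (k (t 7 2 r) r)))
 (.c (c 2 4096 r (u 3 5 (k (t 7 1 (u 5 0 (k r r))) (k (t 7 2 r) (k (t 7 2 (u 5 0 (k (c 13 4097 r r) r))) (k (t 7 1 (u 5 0 (k (c 13 4100 r r) (k (c 13 4103 r r) (k (c 13 4100 r r) r))))) r))))))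
 (.c (c 2 4096 r (u 3 0 (k (u 7 11 (k r (k r (k (c 5 4101 r (t 15 1 r)) r)))) r)))
 (.c (c 2 4096 r r)
 (.c (c 2 4096 r r)
 (.c (c 3 4097 r r)
 (.c (c 3 4096 r r)
 (.c (c 3 4093 r r)
 (.c (t 2 2 r)
 (.c (c 2 4096 r r)
 (.c (c 3 4097 r r)
 (.c (c 3 4096 r r)
 (.c (c 2 4096 r (u 3 0 (k (t 7 1 r) (k (t 7 1 r) (k (t 5 2 r) (k (t 5 1 r) r))))))
 (.c (c 2 4096 r (u 3 2 (k (t 5 1 r) (k (t 5 1 r) (k (t 7 1 r) (k (t 5 1 r) (k (t 5 2 r) (k (t 5 1 r) r))))))))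
 (.c (c 3 4098 r r)
 (.c (c 3 4097 r r)
 (.c (t 3 1 (u 2 0 (k (t 4 2 (u 6 0 (k (c 14 4101 r r) r))) r)))
 (.c (t 3 1 (u 2 0 (k (c 6 4095 r r) r)))
 (.c (c 3 4098 r r)
 (.c (c 3 4095 r r)
 (.c (t 2 2 r)
 (.c (c 3 4095 r r)
 (.c (c 3 4096 r r)
 .z)))))))))))))))))))))))))))))))))))))))))))))))))))))))))))))))))))))))))))))))))))))))))))))))))))))))))))))))))))))))))))))))))))))))))))))))))))))))))))))))))))))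

end Pool.Agent.Helper91.ND1
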