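import Pool.Agent.Helper91.VD1.DT
import Pool.Agent.Helper91.ND1.LA
import Pool.Agent.Helper91.ND1.LT
import Pool.Agent.Helper91.NF.Fast
import Pool.Agent.Helper91.ND1.LR9

/-! part of the certificate for the constant 25/48 (generated) -/

namespace Pool.Agent.Helper91.ND1

open Pool.Agent.Helper66.IL
open Pool.Agent.Helper66.ML
open Pool.Agent.Helper66.ND
open Pool.Agent.Helper91.NF
open Pool.Agent.Helper91.VZ
open Pool.Agent.Helper91.VD1 (DT)

theorem okR157 : rof A NN (vx DT) 167 157 R157 0 = true := by decide +kernel

theorem okR158 : rof A NN (vx DT) 167 158 R158 0 = true := by decide +kernel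

theorem okR159 : rof A NN (vx DT) 167 159 R159 0 = true := by decide +kernel

theorem okR160 : rof A NN (vx DT) 167 160 R160 0 = true := by decide +kernel

theorem okR161 : rof A NN (vx DT) 167 161 R161 0 = true := by decide +kernel

theorem okR162 : rof A NN (vx DT) 167 162 R162 0 = true := by decide +kernel

theorem okR163 : rof A NN (vx DT) 167 163 R163 0 = true := by decide +kernel

theorem okR164 : rof A NN (vx DT) 167 164 R164 0 = true := by decide +kernel

end Pool.Agent.Helper91.ND1
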