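import Pool.Agent.Helper91.ND1.CN0
import Pool.Agent.Helper91.ND1.CN1
import Pool.Agent.Helper91.ND1.CN2
import Pool.Agent.Helper91.ND1.CN3
import Pool.Agent.Helper91.ND1.CN4
import Pool.Agent.Helper91.ND1.CN5
import Pool.Agent.Helper91.ND1.CN6
import Pool.Agent.Helper91.ND1.CN7
import Pool.Agent.Helper91.ND1.CN8
import Pool.Agent.Helper91.ND1.CN9
import Pool.Agent.Helper91.ND1.CN10
import Pool.Agent.Helper91.ND1.CN11
import Pool.Agent.Helper91.ND1.CN12
import Pool.Agent.Helper91.ND1.CN13
import Pool.Agent.Helper91.ND1.CN14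
import Pool.Agent.Helper91.ND1.CN15
import Pool.Agent.Helper91.ND1.CN16
import Pool.Agent.Helper91.ND1.CN17
import Pool.Agent.Helper91.ND1.CN18
import Pool.Agent.Helper91.ND1.CN19
import Pool.Agent.Helper91.ND1.CN20
import Pool.Agent.Helper91.ND1.CN21
import Pool.Agent.Helper91.ND1.CN22
import Pool.Agent.Helper91.ND1.CN23
import Pool.Agent.Helper91.ND1.CN24
import Pool.Agent.Helper91.ND1.CN25
import Pool.Agent.Helper91.ND1.CN26

/-! part of the certificate for the constant 25/48 (generated) -/

namespace Pool.Agent.Helper91.ND1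

open Pool.Agent.Helper66.IL
open Pool.Agent.Helper66.ML
open Pool.Agent.Helper66.ND
open Pool.Agent.Helper91.NF
open Pool.Agent.Helper91.VZ
open Pool.Agent.Helper91.VD1 (DT)

theorem okT255 : NT.ok A NN (vx DT) T255 :=
  nt_node (by decide +kernel) (nt_ok okN254) (nt_ok okN255)

theorem okT254 : NT.ok A NN (vx DT) T254 :=
  nt_node (by decide +kernel) (nt_ok okN252) (nt_ok okN253)

theorem okT253 : NT.ok A NN (vx DT) T253 :=
  nt_node (by decide +kernel) (nt_ok okN250) (nt_ok okN251)

theorem okT252 : NT.ok A NN (vx DT) T252 :=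
  nt_node (by decide +kernel) (nt_ok okN248) (nt_ok okN249)

theorem okT251 : NT.ok A NN (vx DT) T251 :=
  nt_node (by decide +kernel) (nt_ok okN246) (nt_ok okN247)

theorem okT250 : NT.ok A NN (vx DT) T250 :=
  nt_node (by decide +kernel) (nt_ok okN244) (nt_ok okN245)

theorem okT249 : NT.ok A NN (vx DT) T249 :=
  nt_node (by decide +kernel) (nt_ok okN242) (nt_ok okN243)

theorem okT248 : NT.ok A NN (vx DT) T248 :=
  nt_node (by decide +kernel) (nt_ok okN240) (nt_ok okN241)

theorem okT247 : NT.ok A NN (vx DT) T247 :=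
  nt_node (by decide +kernel) (nt_ok okN238) (nt_ok okN239)

theorem okT246 : NT.ok A NN (vx DT) T246 :=
  nt_node (by decide +kernel) (nt_ok okN236) (nt_ok okN237)

theorem okT245 : NT.ok A NN (vx DT) T245 :=
  nt_node (by decide +kernel) (nt_ok okN234) (nt_ok okN235)

theorem okT244 : NT.ok A NN (vx DT) T244 :=
  nt_node (by decide +kernel) (nt_ok okN232) (nt_ok okN233)

theorem okT243 : NT.ok A NN (vx DT) T243 :=
  nt_node (by decide +kernel) (nt_ok okN230) (nt_ok okN231)

theorem okT242 : NT.ok A NN (vx DT) T242 :=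
  nt_node (by decide +kernel) (nt_ok okN228) (nt_ok okN229)

theorem okT241 : NT.ok A NN (vx DT) T241 :=
  nt_node (by decide +kernel) (nt_ok okN226) (nt_ok okN227)

theorem okT240 : NT.ok A NN (vx DT) T240 :=
  nt_node (by decide +kernel) (nt_ok okN224) (nt_ok okN225)

theorem okT239 : NT.ok A NN (vx DT) T239 :=
  nt_node (by decide +kernel) (nt_ok okN222) (nt_ok okN223)

theorem okT238 : NT.ok A NN (vx DT) T238 :=
  nt_node (by decide +kernel) (nt_ok okN220) (nt_ok okN221)

theorem okT237 : NT.ok A NN (vx DT) T237 :=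
  nt_node (by decide +kernel) (nt_ok okN218) (nt_ok okN219)

theorem okT236 : NT.ok A NN (vx DT) T236 :=
  nt_node (by decide +kernel) (nt_ok okN216) (nt_ok okN217)

theorem okT235 : NT.ok A NN (vx DT) T235 :=
  nt_node (by decide +kernel) (nt_ok okN214) (nt_ok okN215)

theorem okT234 : NT.ok A NN (vx DT) T234 :=
  nt_node (by decide +kernel) (nt_ok okN212) (nt_ok okN213)

theorem okT233 : NT.ok A NN (vx DT) T233 :=
  nt_node (by decide +kernel) (nt_ok okN210) (nt_ok okN211)

theorem okT232 : NT.ok A NN (vx DT) T232 :=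
  nt_node (by decide +kernel) (nt_ok okN208) (nt_ok okN209)

theorem okT231 : NT.ok A NN (vx DT) T231 :=
  nt_node (by decide +kernel) (nt_ok okN206) (nt_ok okN207)

theorem okT230 : NT.ok A NN (vx DT) T230 :=
  nt_node (by decide +kernel) (nt_ok okN204) (nt_ok okN205)

theorem okT229 : NT.ok A NN (vx DT) T229 :=
  nt_node (by decide +kernel) (nt_ok okN202) (nt_ok okN203)

theorem okT228 : NT.ok A NN (vx DT) T228 :=
  nt_node (by decide +kernel) (nt_ok okN200) (nt_ok okN201)

theorem okT227 : NT.ok A NN (vx DT) T227 :=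
  nt_node (by decide +kernel) (nt_ok okN198) (nt_ok okN199)

theorem okT226 : NT.ok A NN (vx DT) T226 :=
  nt_node (by decide +kernel) (nt_ok okN196) (nt_ok okN197)

theorem okT225 : NT.ok A NN (vx DT) T225 :=
  nt_node (by decide +kernel) (nt_ok okN194) (nt_ok okN195)

theorem okT224 : NT.ok A NN (vx DT) T224 :=
  nt_node (by decide +kernel) (nt_ok okN192) (nt_ok okN193)

theorem okT223 : NT.ok A NN (vx DT) T223 :=
  nt_node (by decide +kernel) (nt_ok okN190) (nt_ok okN191)

theorem okT222 : NT.ok A NN (vx DT) T222 :=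
  nt_node (by decide +kernel) (nt_ok okN188) (nt_ok okN189)

theorem okT221 : NT.ok A NN (vx DT) T221 :=
  nt_node (by decide +kernel) (nt_ok okN186) (nt_ok okN187)

theorem okT220 : NT.ok A NN (vx DT) T220 :=
  nt_node (by decide +kernel) (nt_ok okN184) (nt_ok okN185)

theorem okT219 : NT.ok A NN (vx DT) T219 :=
  nt_node (by decide +kernel) (nt_ok okN182) (nt_ok okN183)

theorem okT218 : NT.ok A NN (vx DT) T218 :=
  nt_node (by decide +kernel) (nt_ok okN180) (nt_ok okN181)

theorem okT217 : NT.ok A NN (vx DT) T217 :=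
  nt_node (by decide +kernel) (nt_ok okN178) (nt_ok okN179)

theorem okT216 : NT.ok A NN (vx DT) T216 :=
  nt_node (by decide +kernel) (nt_ok okN176) (nt_ok okN177)

theorem okT215 : NT.ok A NN (vx DT) T215 :=
  nt_node (by decide +kernel) (nt_ok okN174) (nt_ok okN175)

theorem okT214 : NT.ok A NN (vx DT) T214 :=
  nt_node (by decide +kernel) (nt_ok okN172) (nt_ok okN173)

theorem okT213 : NT.ok A NN (vx DT) T213 :=
  nt_node (by decide +kernel) (nt_ok okN170) (nt_ok okN171)

theorem okT212 : NT.ok A NN (vx DT) T212 :=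
  nt_node (by decide +kernel) (nt_ok okN168) (nt_ok okN169)

theorem okT211 : NT.ok A NN (vx DT) T211 :=
  nt_node (by decide +kernel) (nt_ok okN166) (nt_ok okN167)

theorem okT210 : NT.ok A NN (vx DT) T210 :=
  nt_node (by decide +kernel) (nt_ok okN164) (nt_ok okN165)

theorem okT209 : NT.ok A NN (vx DT) T209 :=
  nt_node (by decide +kernel) (nt_ok okN162) (nt_ok okN163)

theorem okT208 : NT.ok A NN (vx DT) T208 :=
  nt_node (by decide +kernel) (nt_ok okN160) (nt_ok okN161)

theorem okT207 : NT.ok A NN (vx DT) T207 :=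
  nt_node (by decide +kernel) (nt_ok okN158) (nt_ok okN159)

theorem okT206 : NT.ok A NN (vx DT) T206 :=
  nt_node (by decide +kernel) (nt_ok okN156) (nt_ok okN157)

theorem okT205 : NT.ok A NN (vx DT) T205 :=
  nt_node (by decide +kernel) (nt_ok okN154) (nt_ok okN155)

theorem okT204 : NT.ok A NN (vx DT) T204 :=
  nt_node (by decide +kernel) (nt_ok okN152) (nt_ok okN153)

theorem okT203 : NT.ok A NN (vx DT) T203 :=
  nt_node (by decide +kernel) (nt_ok okN150) (nt_ok okN151)

theorem okT202 : NT.ok A NN (vx DT) T202 :=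
  nt_node (by decide +kernel) (nt_ok okN148) (nt_ok okN149)

theorem okT201 : NT.ok A NN (vx DT) T201 :=
  nt_node (by decide +kernel) (nt_ok okN146) (nt_ok okN147)

theorem okT200 : NT.ok A NN (vx DT) T200 :=
  nt_node (by decide +kernel) (nt_ok okN144) (nt_ok okN145)

theorem okT199 : NT.ok A NN (vx DT) T199 :=
  nt_node (by decide +kernel) (nt_ok okN142) (nt_ok okN143)

theorem okT198 : NT.ok A NN (vx DT) T198 :=
  nt_node (by decide +kernel) (nt_ok okN140) (nt_ok okN141)

theorem okT197 : NT.ok A NN (vx DT) T197 :=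
  nt_node (by decide +kernel) (nt_ok okN138) (nt_ok okN139)

theorem okT196 : NT.ok A NN (vx DT) T196 :=
  nt_node (by decide +kernel) (nt_ok okN136) (nt_ok okN137)

theorem okT195 : NT.ok A NN (vx DT) T195 :=
  nt_node (by decide +kernel) (nt_ok okN134) (nt_ok okN135)

theorem okT194 : NT.ok A NN (vx DT) T194 :=
  nt_node (by decide +kernel) (nt_ok okN132) (nt_ok okN133)

theorem okT193 : NT.ok A NN (vx DT) T193 :=
  nt_node (by decide +kernel) (nt_ok okN130) (nt_ok okN131)

theorem okT192 : NT.ok A NN (vx DT) T192 :=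
  nt_node (by decide +kernel) (nt_ok okN128) (nt_ok okN129)

theorem okT191 : NT.ok A NN (vx DT) T191 :=
  nt_node (by decide +kernel) (nt_ok okN126) (nt_ok okN127)

theorem okT190 : NT.ok A NN (vx DT) T190 :=
  nt_node (by decide +kernel) (nt_ok okN124) (nt_ok okN125)

theorem okT189 : NT.ok A NN (vx DT) T189 :=
  nt_node (by decide +kernel) (nt_ok okN122) (nt_ok okN123)

theorem okT188 : NT.ok A NN (vx DT) T188 :=
  nt_node (by decide +kernel) (nt_ok okN120) (nt_ok okN121)

theorem okT187 : NT.ok A NN (vx DT) T187 :=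
  nt_node (by decide +kernel) (nt_ok okN118) (nt_ok okN119)

theorem okT186 : NT.ok A NN (vx DT) T186 :=
  nt_node (by decide +kernel) (nt_ok okN116) (nt_ok okN117)

theorem okT185 : NT.ok A NN (vx DT) T185 :=
  nt_node (by decide +kernel) (nt_ok okN114) (nt_ok okN115)

theorem okT184 : NT.ok A NN (vx DT) T184 :=
  nt_node (by decide +kernel) (nt_ok okN112) (nt_ok okN113)

theorem okT183 : NT.ok A NN (vx DT) T183 :=
  nt_node (by decide +kernel) (nt_ok okN110) (nt_ok okN111)

theorem okT182 : NT.ok A NN (vx DT) T182 :=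
  nt_node (by decide +kernel) (nt_ok okN108) (nt_ok okN109)

theorem okT181 : NT.ok A NN (vx DT) T181 :=
  nt_node (by decide +kernel) (nt_ok okN106) (nt_ok okN107)

theorem okT180 : NT.ok A NN (vx DT) T180 :=
  nt_node (by decide +kernel) (nt_ok okN104) (nt_ok okN105)

theorem okT179 : NT.ok A NN (vx DT) T179 :=
  nt_node (by decide +kernel) (nt_ok okN102) (nt_ok okN103)

theorem okT178 : NT.ok A NN (vx DT) T178 :=
  nt_node (by decide +kernel) (nt_ok okN100) (nt_ok okN101)

theorem okT177 : NT.ok A NN (vx DT) T177 :=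
  nt_node (by decide +kernel) (nt_ok okN98) (nt_ok okN99)

theorem okT176 : NT.ok A NN (vx DT) T176 :=
  nt_node (by decide +kernel) (nt_ok okN96) (nt_ok okN97)

theorem okT175 : NT.ok A NN (vx DT) T175 :=
  nt_node (by decide +kernel) (nt_ok okN94) (nt_ok okN95)

theorem okT174 : NT.ok A NN (vx DT) T174 :=
  nt_node (by decide +kernel) (nt_ok okN92) (nt_ok okN93)

theorem okT173 : NT.ok A NN (vx DT) T173 :=
  nt_node (by decide +kernel) (nt_ok okN90) (nt_ok okN91)

theorem okT172 : NT.ok A NN (vx DT) T172 :=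
  nt_node (by decide +kernel) (nt_ok okN88) (nt_ok okN89)

theorem okT171 : NT.ok A NN (vx DT) T171 :=
  nt_node (by decide +kernel) (nt_ok okN86) (nt_ok okN87)

theorem okT170 : NT.ok A NN (vx DT) T170 :=
  nt_node (by decide +kernel) (nt_ok okN84) (nt_ok okN85)

theorem okT169 : NT.ok A NN (vx DT) T169 :=
  nt_node (by decide +kernel) (nt_ok okN82) (nt_ok okN83)

theorem okT168 : NT.ok A NN (vx DT) T168 :=
  nt_node (by decide +kernel) (nt_ok okN80) (nt_ok okN81)

theorem okT167 : NT.ok A NN (vx DT) T167 :=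
  nt_node (by decide +kernel) (nt_ok okN78) (nt_ok okN79)

theorem okT166 : NT.ok A NN (vx DT) T166 :=
  nt_node (by decide +kernel) (nt_ok okN76) (nt_ok okN77)

theorem okT165 : NT.ok A NN (vx DT) T165 :=
  nt_node (by decide +kernel) (nt_ok okN74) (nt_ok okN75)

theorem okT164 : NT.ok A NN (vx DT) T164 :=
  nt_node (by decide +kernel) (nt_ok okN72) (nt_ok okN73)

theorem okT163 : NT.ok A NN (vx DT) T163 :=
  nt_node (by decide +kernel) (nt_ok okN70) (nt_ok okN71)

theorem okT162 : NT.ok A NN (vx DT) T162 :=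
  nt_node (by decide +kernel) (nt_ok okN68) (nt_ok okN69)

theorem okT161 : NT.ok A NN (vx DT) T161 :=
  nt_node (by decide +kernel) (nt_ok okN66) (nt_ok okN67)

theorem okT160 : NT.ok A NN (vx DT) T160 :=
  nt_node (by decide +kernel) (nt_ok okN64) (nt_ok okN65)

theorem okT159 : NT.ok A NN (vx DT) T159 :=
  nt_node (by decide +kernel) (nt_ok okN62) (nt_ok okN63)

theorem okT158 : NT.ok A NN (vx DT) T158 :=
  nt_node (by decide +kernel) (nt_ok okN60) (nt_ok okN61)

theorem okT157 : NT.ok A NN (vx DT) T157 :=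
  nt_node (by decide +kernel) (nt_ok okN58) (nt_ok okN59)

theorem okT156 : NT.ok A NN (vx DT) T156 :=
  nt_node (by decide +kernel) (nt_ok okN56) (nt_ok okN57)

theorem okT155 : NT.ok A NN (vx DT) T155 :=
  nt_node (by decide +kernel) (nt_ok okN54) (nt_ok okN55)

theorem okT154 : NT.ok A NN (vx DT) T154 :=
  nt_node (by decide +kernel) (nt_ok okN52) (nt_ok okN53)

theorem okT153 : NT.ok A NN (vx DT) T153 :=
  nt_node (by decide +kernel) (nt_ok okN50) (nt_ok okN51)

theorem okT152 : NT.ok A NN (vx DT) T152 :=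
  nt_node (by decide +kernel) (nt_ok okN48) (nt_ok okN49)

theorem okT151 : NT.ok A NN (vx DT) T151 :=
  nt_node (by decide +kernel) (nt_ok okN46) (nt_ok okN47)

theorem okT150 : NT.ok A NN (vx DT) T150 :=
  nt_node (by decide +kernel) (nt_ok okN44) (nt_ok okN45)

theorem okT149 : NT.ok A NN (vx DT) T149 :=
  nt_node (by decide +kernel) (nt_ok okN42) (nt_ok okN43)

theorem okT148 : NT.ok A NN (vx DT) T148 :=
  nt_node (by decide +kernel) (nt_ok okN40) (nt_ok okN41)

theorem okT147 : NT.ok A NN (vx DT) T147 :=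
  nt_node (by decide +kernel) (nt_ok okN38) (nt_ok okN39)

theorem okT146 : NT.ok A NN (vx DT) T146 :=
  nt_node (by decide +kernel) (nt_ok okN36) (nt_ok okN37)

theorem okT145 : NT.ok A NN (vx DT) T145 :=
  nt_node (by decide +kernel) (nt_ok okN34) (nt_ok okN35)

theorem okT144 : NT.ok A NN (vx DT) T144 :=
  nt_node (by decide +kernel) (nt_ok okN32) (nt_ok okN33)

theorem okT143 : NT.ok A NN (vx DT) T143 :=
  nt_node (by decide +kernel) (nt_ok okN30) (nt_ok okN31)

theorem okT142 : NT.ok A NN (vx DT) T142 :=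
  nt_node (by decide +kernel) (nt_ok okN28) (nt_ok okN29)

theorem okT141 : NT.ok A NN (vx DT) T141 :=
  nt_node (by decide +kernel) (nt_ok okN26) (nt_ok okN27)

theorem okT140 : NT.ok A NN (vx DT) T140 :=
  nt_node (by decide +kernel) (nt_ok okN24) (nt_ok okN25)

theorem okT139 : NT.ok A NN (vx DT) T139 :=
  nt_node (by decide +kernel) (nt_ok okN22) (nt_ok okN23)

theorem okT138 : NT.ok A NN (vx DT) T138 :=
  nt_node (by decide +kernel) (nt_ok okN20) (nt_ok okN21)

theorem okT137 : NT.ok A NN (vx DT) T137 :=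
  nt_node (by decide +kernel) (nt_ok okN18) (nt_ok okN19)

theorem okT136 : NT.ok A NN (vx DT) T136 :=
  nt_node (by decide +kernel) (nt_ok okN16) (nt_ok okN17)

theorem okT135 : NT.ok A NN (vx DT) T135 :=
  nt_node (by decide +kernel) (nt_ok okN14) (nt_ok okN15)

theorem okT134 : NT.ok A NN (vx DT) T134 :=
  nt_node (by decide +kernel) (nt_ok okN12) (nt_ok okN13)

theorem okT133 : NT.ok A NN (vx DT) T133 :=
  nt_node (by decide +kernel) (nt_ok okN10) (nt_ok okN11)

theorem okT132 : NT.ok A NN (vx DT) T132 :=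
  nt_node (by decide +kernel) (nt_ok okN8) (nt_ok okN9)

theorem okT131 : NT.ok A NN (vx DT) T131 :=
  nt_node (by decide +kernel) (nt_ok okN6) (nt_ok okN7)

theorem okT130 : NT.ok A NN (vx DT) T130 :=
  nt_node (by decide +kernel) (nt_ok okN4) (nt_ok okN5)

theorem okT129 : NT.ok A NN (vx DT) T129 :=
  nt_node (by decide +kernel) (nt_ok okN2) (nt_ok okN3)

theorem okT128 : NT.ok A NN (vx DT) T128 :=
  nt_node (by decide +kernel) (nt_ok okN0) (nt_ok okN1)

theorem okT127 : NT.ok A NN (vx DT) T127 :=
  nt_node (by decide +kernel) okT254 okT255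

theorem okT126 : NT.ok A NN (vx DT) T126 :=
  nt_node (by decide +kernel) okT252 okT253

theorem okT125 : NT.ok A NN (vx DT) T125 :=
  nt_node (by decide +kernel) okT250 okT251

theorem okT124 : NT.ok A NN (vx DT) T124 :=
  nt_node (by decide +kernel) okT248 okT249

theorem okT123 : NT.ok A NN (vx DT) T123 :=
  nt_node (by decide +kernel) okT246 okT247

theorem okT122 : NT.ok A NN (vx DT) T122 :=
  nt_node (by decide +kernel) okT244 okT245

theorem okT121 : NT.ok A NN (vx DT) T121 :=
  nt_node (by decide +kernel) okT242 okT243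

theorem okT120 : NT.ok A NN (vx DT) T120 :=
  nt_node (by decide +kernel) okT240 okT241

theorem okT119 : NT.ok A NN (vx DT) T119 :=
  nt_node (by decide +kernel) okT238 okT239

theorem okT118 : NT.ok A NN (vx DT) T118 :=
  nt_node (by decide +kernel) okT236 okT237

theorem okT117 : NT.ok A NN (vx DT) T117 :=
  nt_node (by decide +kernel) okT234 okT235

theorem okT116 : NT.ok A NN (vx DT) T116 :=
  nt_node (by decide +kernel) okT232 okT233

theorem okT115 : NT.ok A NN (vx DT) T115 :=
  nt_node (by decide +kernel) okT230 okT231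

theorem okT114 : NT.ok A NN (vx DT) T114 :=
  nt_node (by decide +kernel) okT228 okT229

theorem okT113 : NT.ok A NN (vx DT) T113 :=
  nt_node (by decide +kernel) okT226 okT227

theorem okT112 : NT.ok A NN (vx DT) T112 :=
  nt_node (by decide +kernel) okT224 okT225

theorem okT111 : NT.ok A NN (vx DT) T111 :=
  nt_node (by decide +kernel) okT222 okT223

theorem okT110 : NT.ok A NN (vx DT) T110 :=
  nt_node (by decide +kernel) okT220 okT221

theorem okT109 : NT.ok A NN (vx DT) T109 :=
  nt_node (by decide +kernel) okT218 okT219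

theorem okT108 : NT.ok A NN (vx DT) T108 :=
  nt_node (by decide +kernel) okT216 okT217

theorem okT107 : NT.ok A NN (vx DT) T107 :=
  nt_node (by decide +kernel) okT214 okT215

theorem okT106 : NT.ok A NN (vx DT) T106 :=
  nt_node (by decide +kernel) okT212 okT213

theorem okT105 : NT.ok A NN (vx DT) T105 :=
  nt_node (by decide +kernel) okT210 okT211

theorem okT104 : NT.ok A NN (vx DT) T104 :=
  nt_node (by decide +kernel) okT208 okT209

theorem okT103 : NT.ok A NN (vx DT) T103 :=
  nt_node (by decide +kernel) okT206 okT207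

theorem okT102 : NT.ok A NN (vx DT) T102 :=
  nt_node (by decide +kernel) okT204 okT205

theorem okT101 : NT.ok A NN (vx DT) T101 :=
  nt_node (by decide +kernel) okT202 okT203

theorem okT100 : NT.ok A NN (vx DT) T100 :=
  nt_node (by decide +kernel) okT200 okT201

theorem okT99 : NT.ok A NN (vx DT) T99 :=
  nt_node (by decide +kernel) okT198 okT199

theorem okT98 : NT.ok A NN (vx DT) T98 :=
  nt_node (by decide +kernel) okT196 okT197

theorem okT97 : NT.ok A NN (vx DT) T97 :=
  nt_node (by decide +kernel) okT194 okT195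

theorem okT96 : NT.ok A NN (vx DT) T96 :=
  nt_node (by decide +kernel) okT192 okT193

theorem okT95 : NT.ok A NN (vx DT) T95 :=
  nt_node (by decide +kernel) okT190 okT191

theorem okT94 : NT.ok A NN (vx DT) T94 :=
  nt_node (by decide +kernel) okT188 okT189

theorem okT93 : NT.ok A NN (vx DT) T93 :=
  nt_node (by decide +kernel) okT186 okT187

theorem okT92 : NT.ok A NN (vx DT) T92 :=
  nt_node (by decide +kernel) okT184 okT185

theorem okT91 : NT.ok A NN (vx DT) T91 :=
  nt_node (by decide +kernel) okT182 okT183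

theorem okT90 : NT.ok A NN (vx DT) T90 :=
  nt_node (by decide +kernel) okT180 okT181

theorem okT89 : NT.ok A NN (vx DT) T89 :=
  nt_node (by decide +kernel) okT178 okT179

theorem okT88 : NT.ok A NN (vx DT) T88 :=
  nt_node (by decide +kernel) okT176 okT177

theorem okT87 : NT.ok A NN (vx DT) T87 :=
  nt_node (by decide +kernel) okT174 okT175

theorem okT86 : NT.ok A NN (vx DT) T86 :=
  nt_node (by decide +kernel) okT172 okT173

theorem okT85 : NT.ok A NN (vx DT) T85 :=
  nt_node (by decide +kernel) okT170 okT171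

theorem okT84 : NT.ok A NN (vx DT) T84 :=
  nt_node (by decide +kernel) okT168 okT169

theorem okT83 : NT.ok A NN (vx DT) T83 :=
  nt_node (by decide +kernel) okT166 okT167

theorem okT82 : NT.ok A NN (vx DT) T82 :=
  nt_node (by decide +kernel) okT164 okT165

theorem okT81 : NT.ok A NN (vx DT) T81 :=
  nt_node (by decide +kernel) okT162 okT163

theorem okT80 : NT.ok A NN (vx DT) T80 :=
  nt_node (by decide +kernel) okT160 okT161

theorem okT79 : NT.ok A NN (vx DT) T79 :=
  nt_node (by decide +kernel) okT158 okT159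

theorem okT78 : NT.ok A NN (vx DT) T78 :=
  nt_node (by decide +kernel) okT156 okT157

theorem okT77 : NT.ok A NN (vx DT) T77 :=
  nt_node (by decide +kernel) okT154 okT155

theorem okT76 : NT.ok A NN (vx DT) T76 :=
  nt_node (by decide +kernel) okT152 okT153

theorem okT75 : NT.ok A NN (vx DT) T75 :=
  nt_node (by decide +kernel) okT150 okT151

theorem okT74 : NT.ok A NN (vx DT) T74 :=
  nt_node (by decide +kernel) okT148 okT149

theorem okT73 : NT.ok A NN (vx DT) T73 :=
  nt_node (by decide +kernel) okT146 okT147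

theorem okT72 : NT.ok A NN (vx DT) T72 :=
  nt_node (by decide +kernel) okT144 okT145

theorem okT71 : NT.ok A NN (vx DT) T71 :=
  nt_node (by decide +kernel) okT142 okT143

theorem okT70 : NT.ok A NN (vx DT) T70 :=
  nt_node (by decide +kernel) okT140 okT141

theorem okT69 : NT.ok A NN (vx DT) T69 :=
  nt_node (by decide +kernel) okT138 okT139

theorem okT68 : NT.ok A NN (vx DT) T68 :=
  nt_node (by decide +kernel) okT136 okT137

theorem okT67 : NT.ok A NN (vx DT) T67 :=
  nt_node (by decide +kernel) okT134 okT135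

theorem okT66 : NT.ok A NN (vx DT) T66 :=
  nt_node (by decide +kernel) okT132 okT133

theorem okT65 : NT.ok A NN (vx DT) T65 :=
  nt_node (by decide +kernel) okT130 okT131

theorem okT64 : NT.ok A NN (vx DT) T64 :=
  nt_node (by decide +kernel) okT128 okT129

theorem okT63 : NT.ok A NN (vx DT) T63 :=
  nt_node (by decide +kernel) okT126 okT127

theorem okT62 : NT.ok A NN (vx DT) T62 :=
  nt_node (by decide +kernel) okT124 okT125

theorem okT61 : NT.ok A NN (vx DT) T61 :=
  nt_node (by decide +kernel) okT122 okT123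

theorem okT60 : NT.ok A NN (vx DT) T60 :=
  nt_node (by decide +kernel) okT120 okT121

theorem okT59 : NT.ok A NN (vx DT) T59 :=
  nt_node (by decide +kernel) okT118 okT119

theorem okT58 : NT.ok A NN (vx DT) T58 :=
  nt_node (by decide +kernel) okT116 okT117

theorem okT57 : NT.ok A NN (vx DT) T57 :=
  nt_node (by decide +kernel) okT114 okT115

theorem okT56 : NT.ok A NN (vx DT) T56 :=
  nt_node (by decide +kernel) okT112 okT113

theorem okT55 : NT.ok A NN (vx DT) T55 :=
  nt_node (by decide +kernel) okT110 okT111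

theorem okT54 : NT.ok A NN (vx DT) T54 :=
  nt_node (by decide +kernel) okT108 okT109

theorem okT53 : NT.ok A NN (vx DT) T53 :=
  nt_node (by decide +kernel) okT106 okT107

theorem okT52 : NT.ok A NN (vx DT) T52 :=
  nt_node (by decide +kernel) okT104 okT105

theorem okT51 : NT.ok A NN (vx DT) T51 :=
  nt_node (by decide +kernel) okT102 okT103

theorem okT50 : NT.ok A NN (vx DT) T50 :=
  nt_node (by decide +kernel) okT100 okT101

theorem okT49 : NT.ok A NN (vx DT) T49 :=
  nt_node (by decide +kernel) okT98 okT99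

theorem okT48 : NT.ok A NN (vx DT) T48 :=
  nt_node (by decide +kernel) okT96 okT97

theorem okT47 : NT.ok A NN (vx DT) T47 :=
  nt_node (by decide +kernel) okT94 okT95

theorem okT46 : NT.ok A NN (vx DT) T46 :=
  nt_node (by decide +kernel) okT92 okT93

theorem okT45 : NT.ok A NN (vx DT) T45 :=
  nt_node (by decide +kernel) okT90 okT91

theorem okT44 : NT.ok A NN (vx DT) T44 :=
  nt_node (by decide +kernel) okT88 okT89

theorem okT43 : NT.ok A NN (vx DT) T43 :=
  nt_node (by decide +kernel) okT86 okT87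

theorem okT42 : NT.ok A NN (vx DT) T42 :=
  nt_node (by decide +kernel) okT84 okT85

theorem okT41 : NT.ok A NN (vx DT) T41 :=
  nt_node (by decide +kernel) okT82 okT83

theorem okT40 : NT.ok A NN (vx DT) T40 :=
  nt_node (by decide +kernel) okT80 okT81

theorem okT39 : NT.ok A NN (vx DT) T39 :=
  nt_node (by decide +kernel) okT78 okT79

theorem okT38 : NT.ok A NN (vx DT) T38 :=
  nt_node (by decide +kernel) okT76 okT77

theorem okT37 : NT.ok A NN (vx DT) T37 :=
  nt_node (by decide +kernel) okT74 okT75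

theorem okT36 : NT.ok A NN (vx DT) T36 :=
  nt_node (by decide +kernel) okT72 okT73

theorem okT35 : NT.ok A NN (vx DT) T35 :=
  nt_node (by decide +kernel) okT70 okT71

theorem okT34 : NT.ok A NN (vx DT) T34 :=
  nt_node (by decide +kernel) okT68 okT69

theorem okT33 : NT.ok A NN (vx DT) T33 :=
  nt_node (by decide +kernel) okT66 okT67

theorem okT32 : NT.ok A NN (vx DT) T32 :=
  nt_node (by decide +kernel) okT64 okT65

theorem okT31 : NT.ok A NN (vx DT) T31 :=
  nt_node (by decide +kernel) okT62 okT63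

theorem okT30 : NT.ok A NN (vx DT) T30 :=
  nt_node (by decide +kernel) okT60 okT61

theorem okT29 : NT.ok A NN (vx DT) T29 :=
  nt_node (by decide +kernel) okT58 okT59

theorem okT28 : NT.ok A NN (vx DT) T28 :=
  nt_node (by decide +kernel) okT56 okT57

theorem okT27 : NT.ok A NN (vx DT) T27 :=
  nt_node (by decide +kernel) okT54 okT55

theorem okT26 : NT.ok A NN (vx DT) T26 :=
  nt_node (by decide +kernel) okT52 okT53

theorem okT25 : NT.ok A NN (vx DT) T25 :=
  nt_node (by decide +kernel) okT50 okT51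

theorem okT24 : NT.ok A NN (vx DT) T24 :=
  nt_node (by decide +kernel) okT48 okT49

theorem okT23 : NT.ok A NN (vx DT) T23 :=
  nt_node (by decide +kernel) okT46 okT47

theorem okT22 : NT.ok A NN (vx DT) T22 :=
  nt_node (by decide +kernel) okT44 okT45

theorem okT21 : NT.ok A NN (vx DT) T21 :=
  nt_node (by decide +kernel) okT42 okT43

theorem okT20 : NT.ok A NN (vx DT) T20 :=
  nt_node (by decide +kernel) okT40 okT41

theorem okT19 : NT.ok A NN (vx DT) T19 :=
  nt_node (by decide +kernel) okT38 okT39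

theorem okT18 : NT.ok A NN (vx DT) T18 :=
  nt_node (by decide +kernel) okT36 okT37

theorem okT17 : NT.ok A NN (vx DT) T17 :=
  nt_node (by decide +kernel) okT34 okT35

theorem okT16 : NT.ok A NN (vx DT) T16 :=
  nt_node (by decide +kernel) okT32 okT33

theorem okT15 : NT.ok A NN (vx DT) T15 :=
  nt_node (by decide +kernel) okT30 okT31

theorem okT14 : NT.ok A NN (vx DT) T14 :=
  nt_node (by decide +kernel) okT28 okT29

theorem okT13 : NT.ok A NN (vx DT) T13 :=
  nt_node (by decide +kernel) okT26 okT27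

theorem okT12 : NT.ok A NN (vx DT) T12 :=
  nt_node (by decide +kernel) okT24 okT25

theorem okT11 : NT.ok A NN (vx DT) T11 :=
  nt_node (by decide +kernel) okT22 okT23

theorem okT10 : NT.ok A NN (vx DT) T10 :=
  nt_node (by decide +kernel) okT20 okT21

theorem okT9 : NT.ok A NN (vx DT) T9 :=
  nt_node (by decide +kernel) okT18 okT19

theorem okT8 : NT.ok A NN (vx DT) T8 :=
  nt_node (by decide +kernel) okT16 okT17

theorem okT7 : NT.ok A NN (vx DT) T7 :=
  nt_node (by decide +kernel) okT14 okT15

theorem okT6 : NT.ok A NN (vx DT) T6 :=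
  nt_node (by decide +kernel) okT12 okT13

theorem okT5 : NT.ok A NN (vx DT) T5 :=
  nt_node (by decide +kernel) okT10 okT11

theorem okT4 : NT.ok A NN (vx DT) T4 :=
  nt_node (by decide +kernel) okT8 okT9

theorem okT3 : NT.ok A NN (vx DT) T3 :=
  nt_node (by decide +kernel) okT6 okT7

theorem okT2 : NT.ok A NN (vx DT) T2 :=
  nt_node (by decide +kernel) okT4 okT5

theorem okT1 : NT.ok A NN (vx DT) T1 :=
  nt_node (by decide +kernel) okT2 okT3


end Pool.Agent.Helper91.ND1
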