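import Pool.Agent.Helper66.ND.Defs

/-! part of the certificate for the constant 25/48 (generated) -/

namespace Pool.Agent.Helper91.ND1

open Pool.Agent.Helper66.IL
open Pool.Agent.Helper66.IL.MB
open Pool.Agent.Helper66.ND

set_option maxRecDepth 100000 in
def A0 : AE :=
 (.s 4096 4119 (.s 0 0 (.s 1 1 (.s 1 0 (.s 5 1 (.s 17 1 (.s 17 0 (.s 25 0 (.s 26 1 (.s 28 1 (.s 30 1 (.s 30 0 (.s 45 1 (.s 17 17 (.s 49 0 (.s 50 1 (.s 28 17 (.s 34 17 (.s 37 17 (.s 79 1 (.s 79 0 (.s 91 1 (.s 34 34 (.s 37 34 (.s 37 37 (.s 99 1 (.s 99 0 (.s 100 1 (.s 100 0 (.s 114 1 (.s 117 0 (.s 54 53 (.s 99 17 (.s 100 17 (.s 100 34 (.s 100 37 (.s 130 53 (.s 160 1 (.s 163 1 (.s 163 0 .z)))))))))))))))))))))))))))))))))))))))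
 (.s 0x8 4096 (n false e e) .z .z)
 .z)

set_option maxRecDepth 100000 in
def A1 : AE :=
 (.s 4096 4117 (.s 2 2 .z)
 (.s 0x288 4096 (n false (n false e e) (n false e e)) (.s 0x70 4119 (n true (n false e e) e) .z .z) .z)
 .z)

set_option maxRecDepth 100000 in
def A2 : AE :=
 (.s 4096 4101 (.s 3 3 .z)
 (.s 0x2a2288 4096 (n false (n false (n false e e) (n false e e)) (n false (n false e e) (n false e e))) (.s 0x1d10 4117 (n true (n false (n false e e) (n false e e)) e) .z .z) .z)
 .z)

set_option maxRecDepth 100000 in
def A3 : AE :=
 (.s 4094 4100 (.s 4 1 .z)
 (.s 0xfa20 4117 (n true (n true (n false (n false e e) (n false e e)) e) e) (.s 0x8 4101 (n false e e) .z .z) (.s 0x1d44510 4096 (n true (n false (n false (n false e e) (n false e e)) (n false (n false e e) (n false e e))) e) .z .z))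
 .z)

set_option maxRecDepth 100000 in
def A4 : AE :=
 (.s 4096 4100 (.s 4 0 .z)
 (.s 0x1544510 4096 (n false (n false (n false (n false e e) (n false e e)) (n false (n false e e) (n false e e))) e) (.s 0xba20 4117 (n false (n true (n false (n false e e) (n false e e)) e) e) (.s 0x8 4101 (n false e e) .z .z) .z) (.s 0x1d44510 4096 (n true (n false (n false (n false e e) (n false e e)) (n false (n false e e) (n false e e))) e) .z .z))
 .z)

set_option maxRecDepth 100000 in
def A5 : AE :=
 (.s 4096 4099 (.s 4 2 .z)
 (.s 0xaa22888 4096 (n false (n false (n false (n false e e) (n false e e)) (n false (n false e e) (n false e e))) (n false e e)) (.s 0x70 4101 (n true (n false e e) e) .z .z) .z)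
 .z)

set_option maxRecDepth 100000 in
def A6 : AE :=
 (.s 4094 4099 (.s 5 0 .z)
 (.s 0x70 4101 (n true (n false e e) e) (.s 0x50 4101 (n false (n false e e) e) (.s 0x8 4100 (n false e e) .z .z) .z) (.s 0xba88a20 4096 (n false (n true (n false (n false (n false e e) (n false e e)) (n false (n false e e) (n false e e))) e) e) .z .z))
 .z)

set_option maxRecDepth 100000 in
def A7 : AE :=
 (.s 4094 4099 (.s 6 1 .z)
 (.s 0x77440 4117 (n true (n false (n true (n false (n false e e) (n false e e)) e) e) e) (.s 0x70 4101 (n true (n false e e) e) (.s 0x8 4100 (n false e e) .z .z) .z) (.s 0xea88a20 4096 (n true (n false (n false (n false (n false e e) (n false e e)) (n false (n false e e) (n false e e))) e) e) .z .z))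
 .z)

set_option maxRecDepth 100000 in
def A8 : AE :=
 (.s 4096 4099 (.s 6 0 .z)
 (.s 0x70 4101 (n true (n false e e) e) (.s 0x50 4101 (n false (n false e e) e) (.s 0x8 4100 (n false e e) .z .z) .z) (.s 0xaa88a20 4096 (n false (n false (n false (n false (n false e e) (n false e e)) (n false (n false e e) (n false e e))) e) e) .z .z))
 .z)

set_option maxRecDepth 100000 in
def A9 : AE :=
 (.s 4094 4098 (.s 5 2 .z)
 (.s 0x5d445108 4096 (n false (n true (n false (n false (n false e e) (n false e e)) (n false (n false e e) (n false e e))) e) (n false e e)) (.s 0x70 4100 (n true (n false e e) e) .z .z) .z)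
 .z)

set_option maxRecDepth 100000 in
def A10 : AE :=
 (.s 4096 4098 (.s 6 2 (.s 9 5 .z))
 (.s 0x5d445108 4096 (n false (n true (n false (n false (n false e e) (n false e e)) (n false (n false e e) (n false e e))) e) (n false e e)) (.s 0x70 4100 (n true (n false e e) e) .z .z) .z)
 .z)

set_option maxRecDepth 100000 in
def A11 : AE :=
 (.s 4094 4110 (.s 7 1 .z)
 (.s 0x3e0 4101 (n true (n true (n false e e) e) e) (.s 0x8 4099 (n false e e) .z .z) (.s 0x75445110 4096 (n true (n false (n false (n false (n false e e) (n false e e)) (n false (n false e e) (n false e e))) (n false e e)) e) .z .z))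
 .z)

set_option maxRecDepth 100000 in
def A12 : AE :=
 (.s 4096 4110 (.s 7 0 (.s 17 7 (.s 34 7 (.s 37 7 (.s 53 7 (.s 79 7 (.s 99 7 (.s 100 7 (.s 116 7 (.s 163 7 .z))))))))))
 (.s 0x3e0 4101 (n true (n true (n false e e) e) e) (.s 0x8 4099 (n false e e) .z .z) (.s 0x75445110 4096 (n true (n false (n false (n false (n false e e) (n false e e)) (n false (n false e e) (n false e e))) (n false e e)) e) .z .z))
 .z)

set_option maxRecDepth 100000 in
def A13 : AE :=
 (.s 4094 4098 (.s 9 0 .z)
 (.s 0x5d511440 4096 (n false (n true (n false (n false (n false (n false e e) (n false e e)) (n false (n false e e) (n false e e))) e) e) e) (.s 0x50 4100 (n false (n false e e) e) .z .z) .z)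
 .z)

set_option maxRecDepth 100000 in
def A14 : AE :=
 (.s 4096 4097 (.s 7 2 (.s 8 2 (.s 9 2 (.s 10 2 (.s 13 0 (.s 14 0 (.s 16 2 (.s 45 0 (.s 43 2 .z)))))))))
 (.s 0x70 4099 (n true (n false e e) e) .z .z)
 (.s (.s (n false (n true (n false e e) e) (n false e e)) 16389 (.s (n false (n false e e) e) 16387 .z)) .z
  (.s (.s (n false (n false e e) (n false e e)) 16388 (.s (n false (n false e e) e) 16387 (.s (n false (n true (n false e e) e) (n false e e)) 16389 .z))) .z
  (.s (.s (n false e e) 16386 (.s (n false (n true (n false e e) e) (n false e e)) 16389 (.s (n false (n false e e) e) 16387 .z))) .z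
  (.s (.s (n false (n true (n false e e) e) (n false e e)) 16389 (.s (n false e e) 16386 (.s (n false (n false e e) e) 16387 .z))) .z
  (.s (.s (n false (n false e e) e) 16387 (.s (n false (n true (n false e e) e) (n false e e)) 16389 .z)) .z
  (.s (.s (n false e e) 16398 (.s (n false (n false e e) (n false e e)) 16388 (.s (n false (n true (n false e e) e) (n false e e)) 16389 .z))) .z
  (.s (.s (n false (n true (n false e e) e) (n false e e)) 16389 (.s (n false e e) 16396 (.s (n false (n false e e) e) 16387 .z))) .z
  (.s (.s (n false (n true (n false e e) e) (n false e e)) 16389 (.s (n false e e) 16398 .z)) .z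
  .z)))))))))

set_option maxRecDepth 100000 in
def A15 : AE :=
 (.s 4094 4097 (.s 14 1 (.s 20 0 (.s 34 13 .z)))
 (.s 0x70 4099 (n true (n false e e) e) (.s 0x8 4110 (n false e e) .z .z) .z)
 (.s (.s (n true (n true (n false (n false (n false (n false e e) (n false e e)) (n false (n false e e) (n false e e))) (n false e e)) e) e) 16382 .z) (.s 20 0 .z)
  (.s (.s (n true (n true (n false (n false (n false (n false e e) (n false e e)) (n false (n false e e) (n false e e))) (n false e e)) e) e) 16382 (.s (n false (n false e e) e) 16385 .z)) .z
  (.s (.s (n true (n true (n false (n false (n false (n false e e) (n false e e)) (n false (n false e e) (n false e e))) (n false e e)) e) e) 16382 (.s (n false e e) 16384 .z)) .z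
  (.s (.s (n false e e) 16384 (.s (n true (n true (n false (n false (n false (n false e e) (n false e e)) (n false (n false e e) (n false e e))) (n false e e)) e) e) 16382 .z)) .z
  (.s (.s (n false (n false e e) e) 16385 (.s (n false (n true (n false e e) e) (n false e e)) 16393 (.s (n true (n true (n false (n false (n false (n false e e) (n false e e)) (n false (n false e e) (n false e e))) (n false e e)) e) e) 16382 .z))) .z
  (.s (.s (n false (n false e e) e) 16385 (.s (n true (n true (n false (n false (n false (n false e e) (n false e e)) (n false (n false e e) (n false e e))) (n false e e)) e) e) 16382 .z)) .z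
  .z)))))))

set_option maxRecDepth 100000 in
def A16 : AE :=
 (.s 4094 4108 (.s 13 2 .z)
 (.s 0x288 4099 (n false (n false e e) (n false e e)) (.s 0x70 4110 (n true (n false e e) e) .z .z) (.s 0x1754451108 4096 (n false (n true (n false (n false (n false (n false e e) (n false e e)) (n false (n false e e) (n false e e))) (n false e e)) e) (n false e e)) .z .z))
 .z)

set_option maxRecDepth 100000 in
def A17 : AE :=
 (.s 4096 4108 (.s 14 2 (.s 13 13 (.s 38 13 .z)))
 (.s 0x288 4099 (n false (n false e e) (n false e e)) (.s 0x70 4110 (n true (n false e e) e) .z .z) (.s 0x1754451108 4096 (n false (n true (n false (n false (n false (n false e e) (n false e e)) (n false (n false e e) (n false e e))) (n false e e)) e) (n false e e)) .z .z))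
 .z)

set_option maxRecDepth 100000 in
def A18 : AE :=
 (.s 4096 4096 (.s 16 0 .z)
 (.s 0x3e0 4099 (n true (n true (n false e e) e) e) (.s 0x8 4097 (n false e e) .z .z) .z)
 (.s .z (.s 16 0 .z)
  .z))

set_option maxRecDepth 100000 in
def A19 : AE :=
 (.s 4096 4095 (.s 7 3 (.s 19 0 .z))
 (.s 0x1d10 4099 (n true (n false (n false e e) (n false e e)) e) .z .z)
 .z)

set_option maxRecDepth 100000 in
def A20 : AE :=
 (.s 4096 4099 (.s 4 4 .z)
 (.s 0x1d44510 4101 (n true (n false (n false (n false e e) (n false e e)) (n false (n false e e) (n false e e))) e) (.s 0x8 4106 (n false e e) .z .z) (.s 0x2a88a22a2288 4096 (n false (n false (n false (n false e e) (n false e e)) (n false (n false e e) (n false e e))) (n false (n false (n false e e) (n false e e)) (n false (n false e e) (n false e e)))) .z .z))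
 .z)

set_option maxRecDepth 100000 in
def A21 : AE :=
 (.s 4094 4104 (.s 5 4 .z)
 (.s 0x1d44510 4100 (n true (n false (n false (n false e e) (n false e e)) (n false (n false e e) (n false e e))) e) (.s 0x70 4106 (n true (n false e e) e) (.s 0x8 4105 (n false e e) .z .z) .z) (.s 0x17511442a2288 4096 (n false (n true (n false (n false (n false e e) (n false e e)) (n false (n false e e) (n false e e))) e) (n false (n false (n false e e) (n false e e)) (n false (n false e e) (n false e e)))) .z .z))
 .z)

set_option maxRecDepth 100000 in
def A22 : AE :=
 (.s 4096 4104 (.s 6 4 (.s 22 1 (.s 22 0 .z)))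
 (.s 0x70 4106 (n true (n false e e) e) (.s 0x8 4105 (n false e e) .z .z) .z)
 (.s (.s (n false e e) 16387 (.s (n false (n false (n false (n false (n false e e) (n false e e)) (n false (n false e e) (n false e e))) e) (n false (n false (n false e e) (n false e e)) (n false (n false e e) (n false e e)))) 16384 .z)) .z
  (.s (.s (n true (n false (n false (n false (n false e e) (n false e e)) (n false (n false e e) (n false e e))) (n false (n false (n false e e) (n false e e)) (n false (n false e e) (n false e e)))) e) 16384 (.s (n false (n false (n false (n false (n false e e) (n false e e)) (n false (n false e e) (n false e e))) e) (n false (n false (n false e e) (n false e e)) (n false (n false e e) (n false e e)))) 16384 .z)) .z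
  (.s (.s (n true (n false (n false (n false (n false e e) (n false e e)) (n false (n false e e) (n false e e))) (n false (n false (n false e e) (n false e e)) (n false (n false e e) (n false e e)))) e) 16384 (.s (n true (n false (n false (n false e e) (n false e e)) (n false (n false e e) (n false e e))) e) 16388 .z)) .z
  (.s (.s (n false (n false (n false (n false (n false e e) (n false e e)) (n false (n false e e) (n false e e))) e) (n false (n false (n false e e) (n false e e)) (n false (n false e e) (n false e e)))) 16384 (.s (n true (n false (n false (n false (n false e e) (n false e e)) (n false (n false e e) (n false e e))) (n false (n false (n false e e) (n false e e)) (n false (n false e e) (n false e e)))) e) 16384 .z)) .z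
  (.s (.s (n true (n false (n false (n false e e) (n false e e)) (n false (n false e e) (n false e e))) e) 16388 (.s (n true (n false (n false (n false (n false e e) (n false e e)) (n false (n false e e) (n false e e))) (n false (n false (n false e e) (n false e e)) (n false (n false e e) (n false e e)))) e) 16384 .z)) .z
  (.s (.s (n false e e) 16387 (.s (n true (n false (n false (n false e e) (n false e e)) (n false (n false e e) (n false e e))) e) 16388 .z)) .z
  (.s (.s (n true (n false (n false (n false e e) (n false e e)) (n false (n false e e) (n false e e))) e) 16388 (.s (n false e e) 16387 .z)) .z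
  (.s (.s (n true (n false (n false (n false (n false e e) (n false e e)) (n false (n false e e) (n false e e))) (n false (n false (n false e e) (n false e e)) (n false (n false e e) (n false e e)))) e) 16384 (.s (n true (n false (n false (n false (n false e e) (n false e e)) (n false (n false e e) (n false e e))) e) e) 16389 .z)) .z
  (.s (.s (n false e e) 16385 (.s (n true (n false (n false (n false e e) (n false e e)) (n false (n false e e) (n false e e))) e) 16388 (.s (n true (n false (n false (n false (n false e e) (n false e e)) (n false (n false e e) (n false e e))) (n false (n false (n false e e) (n false e e)) (n false (n false e e) (n false e e)))) e) 16384 .z))) .z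
  (.s (.s (n false (n false e e) e) 16394 (.s (n false (n false (n false (n false (n false e e) (n false e e)) (n false (n false e e) (n false e e))) e) (n false (n false (n false e e) (n false e e)) (n false (n false e e) (n false e e)))) 16384 (.s (n true (n false (n false (n false (n false e e) (n false e e)) (n false (n false e e) (n false e e))) (n false (n false (n false e e) (n false e e)) (n false (n false e e) (n false e e)))) e) 16382 .z))) .z
  (.s (.s (n false e e) 16385 (.s (n false (n false e e) e) 16394 (.s (n true (n false (n false (n false e e) (n false e e)) (n false (n false e e) (n false e e))) e) 16388 .z))) .z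
  (.s (.s (n false (n false e e) e) 16394 (.s (n false (n false (n false (n false e e) (n false e e)) (n false (n false e e) (n false e e))) (n false e e)) 16389 (.s (n true (n false (n false (n false (n false e e) (n false e e)) (n false (n false e e) (n false e e))) (n false (n false (n false e e) (n false e e)) (n false (n false e e) (n false e e)))) e) 16382 .z))) .z
  .z)))))))))))))

set_option maxRecDepth 100000 in
def A23 : AE :=
 (.s 4094 4098 (.s 18 3 .z)
 (.s 0x2a2288 4099 (n false (n false (n false e e) (n false e e)) (n false (n false e e) (n false e e))) (.s 0x1d10 4108 (n true (n false (n false e e) (n false e e)) e) .z .z) (.s 0x15d5114442288 4096 (n false (n false (n true (n false (n false (n false (n false e e) (n false e e)) (n false (n false e e) (n false e e))) (n false e e)) e) (n false e e)) (n false (n false e e) (n false e e))) .z .z))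
 .z)

set_option maxRecDepth 100000 in
def A24 : AE :=
 (.s 4096 4098 (.s 19 3 .z)
 (.s 0x2a2288 4099 (n false (n false (n false e e) (n false e e)) (n false (n false e e) (n false e e))) (.s 0x1d10 4108 (n true (n false (n false e e) (n false e e)) e) .z .z) .z)
 (.s .z (.s 19 3 .z)
  .z))

set_option maxRecDepth 100000 in
def A25 : AE :=
 (.s 4094 4097 (.s 6 5 .z)
 (.s 0x5d445108 4101 (n false (n true (n false (n false (n false e e) (n false e e)) (n false (n false e e) (n false e e))) e) (n false e e)) (.s 0xea88a20 4100 (n true (n false (n false (n false (n false e e) (n false e e)) (n false (n false e e) (n false e e))) e) e) .z .z) (.s 0xba88a21544510 4096 (n false (n true (n false (n false (n false e e) (n false e e)) (n false (n false e e) (n false e e))) e) (n false (n false (n false (n false e e) (n false e e)) (n false (n false e e) (n false e e))) e)) .z .z))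
 .z)

set_option maxRecDepth 100000 in
def A26 : AE :=
 (.s 4096 4097 (.s 7 4 (.s 9 4 (.s 24 0 .z)))
 (.s 0x8 4104 (n false e e) .z .z)
 (.s (.s (n false (n false (n false (n false (n false e e) (n false e e)) (n false (n false e e) (n false e e))) (n false e e)) (n false (n false (n false e e) (n false e e)) (n false (n false e e) (n false e e)))) 16384 (.s (n false (n true (n false (n false (n false (n false e e) (n false e e)) (n false (n false e e) (n false e e))) e) e) (n false (n false (n false e e) (n false e e)) (n false (n false e e) (n false e e)))) 16382 .z)) (.s 24 0 .z)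
  (.s (.s (n false (n false e e) e) 16393 (.s (n true (n false (n false (n false e e) (n false e e)) (n false (n false e e) (n false e e))) e) 16385 (.s (n false (n false (n false (n false (n false e e) (n false e e)) (n false (n false e e) (n false e e))) (n false e e)) (n false (n false (n false e e) (n false e e)) (n false (n false e e) (n false e e)))) 16384 .z))) .z
  (.s (.s (n true (n false (n false (n false e e) (n false e e)) (n false (n false e e) (n false e e))) e) 16387 .z) (.s 24 0 .z)
  (.s (.s (n false (n false e e) e) 16393 (.s (n false (n true (n false (n false (n false (n false e e) (n false e e)) (n false (n false e e) (n false e e))) e) e) (n false (n false (n false e e) (n false e e)) (n false (n false e e) (n false e e)))) 16382 (.s (n false (n false (n false (n false (n false e e) (n false e e)) (n false (n false e e) (n false e e))) (n false e e)) (n false (n false (n false e e) (n false e e)) (n false (n false e e) (n false e e)))) 16384 .z))) .z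
  (.s (.s (n false (n false (n false (n false e e) (n false e e)) (n false (n false e e) (n false e e))) (n true (n false e e) e)) 16389 .z) (.s 24 0 .z)
  (.s (.s (n true (n false e e) e) 16391 (.s (n false (n false (n false (n false (n false e e) (n false e e)) (n false (n false e e) (n false e e))) (n false e e)) (n false (n false (n false e e) (n false e e)) (n false (n false e e) (n false e e)))) 16384 .z)) (.s 24 0 .z)
  (.s (.s (n true (n false (n false (n false e e) (n false e e)) (n false (n false e e) (n false e e))) e) 16387 (.s (n false (n false e e) e) 16393 .z)) .z
  (.s (.s (n false e e) 16390 (.s (n true (n false (n false (n false e e) (n false e e)) (n false (n false e e) (n false e e))) e) 16387 .z)) (.s 24 0 .z)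
  (.s (.s (n true (n false e e) e) 16393 (.s (n true (n false (n false (n false e e) (n false e e)) (n false (n false e e) (n false e e))) e) 16387 .z)) .z
  (.s (.s (n true (n false (n false (n false e e) (n false e e)) (n false (n false e e) (n false e e))) e) 16385 (.s (n false (n false (n false (n false (n false e e) (n false e e)) (n false (n false e e) (n false e e))) (n false e e)) (n false (n false (n false e e) (n false e e)) (n false (n false e e) (n false e e)))) 16384 .z)) (.s 24 0 .z)
  (.s (.s (n true (n false (n false (n false e e) (n false e e)) (n false (n false e e) (n false e e))) e) 16385 (.s (n false (n false (n false (n false e e) (n false e e)) (n false (n false e e) (n false e e))) (n true (n false e e) e)) 16389 .z)) (.s 24 0 .z)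
  (.s (.s (n true (n false (n false (n false (n false e e) (n false e e)) (n false (n false e e) (n false e e))) (n false e e)) e) 16389 (.s (n false (n true (n false (n false (n false (n false e e) (n false e e)) (n false (n false e e) (n false e e))) e) e) (n false (n false (n false e e) (n false e e)) (n false (n false e e) (n false e e)))) 16382 .z)) (.s 24 0 .z)
  (.s (.s (n false e e) 16390 (.s (n false (n false e e) e) 16393 (.s (n true (n false (n false (n false e e) (n false e e)) (n false (n false e e) (n false e e))) e) 16387 .z))) .z
  (.s (.s (n true (n false e e) e) 16393 (.s (n true (n false (n false (n false (n false e e) (n false e e)) (n false (n false e e) (n false e e))) (n false e e)) e) 16389 .z)) .z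
  (.s (.s (n false (n false (n false (n false (n false e e) (n false e e)) (n false (n false e e) (n false e e))) (n false e e)) (n false (n false (n false e e) (n false e e)) (n false (n false e e) (n false e e)))) 16384 (.s (n true (n false (n false (n false e e) (n false e e)) (n false (n false e e) (n false e e))) e) 16385 .z)) (.s 24 0 .z)
  (.s (.s (n true (n false (n false (n false (n false e e) (n false e e)) (n false (n false e e) (n false e e))) (n false e e)) e) 16389 (.s (n true (n false (n false (n false e e) (n false e e)) (n false (n false e e) (n false e e))) e) 16385 .z)) (.s 24 0 .z)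
  (.s (.s (n false e e) 16390 (.s (n true (n false (n false (n false (n false e e) (n false e e)) (n false (n false e e) (n false e e))) (n false e e)) e) 16389 .z)) (.s 24 0 .z)
  (.s (.s (n false (n false e e) e) 16393 (.s (n false (n false (n false (n false (n false e e) (n false e e)) (n false (n false e e) (n false e e))) (n false e e)) (n false (n false (n false e e) (n false e e)) (n false (n false e e) (n false e e)))) 16384 (.s (n false (n true (n false (n false (n false (n false e e) (n false e e)) (n false (n false e e) (n false e e))) e) e) (n false (n false (n false e e) (n false e e)) (n false (n false e e) (n false e e)))) 16382 .z))) .z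
  (.s (.s (n true (n false (n false (n false e e) (n false e e)) (n false (n false e e) (n false e e))) e) 16385 (.s (n true (n false (n false (n false e e) (n false e e)) (n false (n false e e) (n false e e))) e) 16387 .z)) (.s 24 0 .z)
  (.s (.s (n true (n false (n false (n false e e) (n false e e)) (n false (n false e e) (n false e e))) e) 16385 (.s (n true (n false (n false (n false (n false e e) (n false e e)) (n false (n false e e) (n false e e))) (n false e e)) e) 16389 .z)) (.s 24 0 .z)
  (.s (.s (n true (n false (n false (n false e e) (n false e e)) (n false (n false e e) (n false e e))) e) 16385 (.s (n false (n false e e) e) 16393 (.s (n false (n false (n false (n false (n false e e) (n false e e)) (n false (n false e e) (n false e e))) (n false e e)) (n false (n false (n false e e) (n false e e)) (n false (n false e e) (n false e e)))) 16384 .z))) .z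
  (.s (.s (n false (n false e e) e) 16393 (.s (n true (n false (n false (n false e e) (n false e e)) (n false (n false e e) (n false e e))) e) 16387 .z)) .z
  .z)))))))))))))))))))))))

set_option maxRecDepth 100000 in
def A27 : AE :=
 (.s 4094 4097 (.s 23 0 .z)
 (.s 0xaea2288544510 4096 (n false (n false (n true (n false (n false (n false e e) (n false e e)) (n false (n false e e) (n false e e))) e) (n false (n false (n false e e) (n false e e)) (n false (n false e e) (n false e e)))) e) (.s 0xba88a20 4100 (n false (n true (n false (n false (n false e e) (n false e e)) (n false (n false e e) (n false e e))) e) e) .z .z) .z)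
 .z)

set_option maxRecDepth 100000 in
def A28 : AE :=
 (.s 4094 4097 (.s 24 1 .z)
 (.s 0x8 4104 (n false e e) .z .z)
 (.s .z (.s 24 1 .z)
  .z))

set_option maxRecDepth 100000 in
def A29 : AE :=
 (.s 4096 4097 (.s 26 0 .z)
 (.s 0xfa20 4108 (n true (n true (n false (n false e e) (n false e e)) e) e) (.s 0xba20 4108 (n false (n true (n false (n false e e) (n false e e)) e) e) (.s 0x8 4098 (n false e e) .z .z) .z) (.s 0x1544510 4099 (n false (n false (n false (n false e e) (n false e e)) (n false (n false e e) (n false e e))) e) .z .z))
 (.s .z (.s 26 0 .z)
  .z))

set_option maxRecDepth 100000 in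
def A30 : AE :=
 (.s 4096 4096 (.s 7 6 .z)
 (.s 0xfa88a20 4099 (n true (n true (n false (n false (n false e e) (n false e e)) (n false (n false e e) (n false e e))) e) e) (.s 0x1708 4106 (n false (n true (n false e e) e) (n false e e)) (.s 0x70 4104 (n true (n false e e) e) (.s 0x8 4103 (n false e e) .z .z) .z) (.s 0xea88a20 4099 (n true (n false (n false (n false (n false e e) (n false e e)) (n false (n false e e) (n false e e))) e) e) .z .z)) (.s 0x55445111544510 4096 (n false (n false (n false (n false (n false e e) (n false e e)) (n false (n false e e) (n false e e))) (n false e e)) (n false (n false (n false (n false e e) (n false e e)) (n false (n false e e) (n false e e))) e)) (.s 0x2aa228870 4101 (n false (n false (n false (n false (n false e e) (n false e e)) (n false (n false e e) (n false e e))) e) (n true (n false e e) e)) .z .z) (.s 0x55445111d44510 4096 (n false (n false (n false (n false (n false e e) (n false e e)) (n false (n false e e) (n false e e))) (n false e e)) (n true (n false (n false (n false e e) (n false e e)) (n false (n false e e) (n false e e))) e)) .z .z)))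
 .z)

set_option maxRecDepth 100000 in
def A31 : AE :=
 (.s 4094 4102 (.s 9 6 .z)
 (.s 0xea88a20 4099 (n true (n false (n false (n false (n false e e) (n false e e)) (n false (n false e e) (n false e e))) e) e) (.s 0x288 4105 (n false (n false e e) (n false e e)) (.s 0x70 4104 (n true (n false e e) e) .z .z) (.s 0x1708 4106 (n false (n true (n false e e) e) (n false e e)) .z .z)) (.s 0x5d511441544510 4096 (n false (n true (n false (n false (n false (n false e e) (n false e e)) (n false (n false e e) (n false e e))) e) e) (n false (n false (n false (n false e e) (n false e e)) (n false (n false e e) (n false e e))) e)) (.s 0x55445108 4100 (n false (n false (n false (n false (n false e e) (n false e e)) (n false (n false e e) (n false e e))) e) (n false e e)) .z .z) .z))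
 .z)

set_option maxRecDepth 100000 in
def A32 : AE :=
 (.s 4096 4096 (.s 14 4 .z)
 (.s 0xaa22888 4099 (n false (n false (n false (n false e e) (n false e e)) (n false (n false e e) (n false e e))) (n false e e)) (.s 0x70 4104 (n true (n false e e) e) (.s 0x8 4115 (n false e e) .z .z) (.s 0x1d44510 4110 (n true (n false (n false (n false e e) (n false e e)) (n false (n false e e) (n false e e))) e) .z .z)) (.s 0x5d5114442a2288 4096 (n false (n true (n false (n false (n false (n false e e) (n false e e)) (n false (n false e e) (n false e e))) (n false e e)) e) (n false (n false (n false e e) (n false e e)) (n false (n false e e) (n false e e)))) (.s 0x3ea88a220 4101 (n true (n true (n false (n false (n false (n false e e) (n false e e)) (n false (n false e e) (n false e e))) (n false e e)) e) e) .z .z) .z))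
 (.s .z (.s 14 4 .z)
  .z))

set_option maxRecDepth 100000 in
def A33 : AE :=
 (.s 4094 4102 (.s 23 2 .z)
 (.s 0x1708 4106 (n false (n true (n false e e) e) (n false e e)) (.s 0x288 4105 (n false (n false e e) (n false e e)) (.s 0x70 4104 (n true (n false e e) e) .z .z) .z) (.s 0x57511442a22888 4096 (n false (n false (n true (n false (n false (n false e e) (n false e e)) (n false (n false e e) (n false e e))) e) (n false (n false (n false e e) (n false e e)) (n false (n false e e) (n false e e)))) (n false e e)) (.s 0x5d445108 4100 (n false (n true (n false (n false (n false e e) (n false e e)) (n false (n false e e) (n false e e))) e) (n false e e)) .z .z) .z))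
 .z)

set_option maxRecDepth 100000 in
def A34 : AE :=
 (.s 4096 4102 (.s 24 2 .z)
 (.s 0x1708 4106 (n false (n true (n false e e) e) (n false e e)) (.s 0x70 4104 (n true (n false e e) e) .z .z) .z)
 (.s .z (.s 24 2 .z)
  .z))

set_option maxRecDepth 100000 in
def A35 : AE :=
 (.s 4096 4096 (.s 26 2 (.s 31 0 (.s 17 14 (.s 53 14 (.s 54 13 (.s 167 1 .z))))))
 (.s 0x70 4098 (n true (n false e e) e) (.s 0x8 4121 (n false e e) .z .z) .z)
 (.s (.s (n false (n true (n false e e) e) (n false e e)) 16394 (.s (n false e e) 16385 .z)) (.s 26 2 .z)
  (.s (.s (n false (n true (n false e e) e) (n false e e)) 16394 (.s (n false (n false e e) e) 16386 (.s (n true (n true (n true (n false (n false e e) (n false e e)) e) e) e) 16390 .z))) (.s 26 2 .z)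
  (.s (.s (n false (n true (n false e e) e) (n false e e)) 16394 (.s (n false (n false e e) e) 16386 (.s (n true (n true (n false (n false e e) (n false e e)) e) e) 16389 .z))) (.s 26 2 .z)
  (.s (.s (n false (n true (n false e e) e) (n false e e)) 16394 (.s (n true (n true (n true (n false (n false e e) (n false e e)) e) e) e) 16396 .z)) (.s 26 2 .z)
  (.s (.s (n false (n true (n false e e) e) (n false e e)) 16394 (.s (n false (n false e e) e) 16386 (.s (n true (n true (n false (n false e e) (n false e e)) e) e) 16389 (.s (n false (n true (n false (n false e e) (n false e e)) e) (n false e e)) 16396 .z)))) .z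
  (.s (.s (n false (n true (n false e e) e) (n false e e)) 16394 (.s (n false (n false e e) e) 16386 (.s (n true (n false (n true (n false (n false e e) (n false e e)) e) (n false (n false e e) (n false e e))) e) 16393 .z))) (.s 26 2 .z)
  (.s (.s (n false (n true (n false e e) e) (n false e e)) 16394 (.s (n false (n false e e) e) 16386 (.s (n false (n true (n false (n false e e) (n false e e)) e) (n false e e)) 16396 (.s (n true (n true (n false (n false e e) (n false e e)) e) e) 16389 .z)))) .z
  (.s (.s (n false (n true (n false e e) e) (n false e e)) 16394 (.s (n false (n false e e) e) 16386 (.s (n false (n false (n false (n false e e) (n false e e)) (n false (n false e e) (n false e e))) (n false e e)) 16387 (.s (n true (n true (n false (n false e e) (n false e e)) e) e) 16389 .z)))) .z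
  (.s (.s (n false e e) 16397 .z) (.s 26 2 .z)
  (.s (.s (n true (n true (n false (n false (n false (n false e e) (n false e e)) (n false (n false e e) (n false e e))) (n false e e)) e) e) 16383 (.s (n false e e) 16385 .z)) (.s 26 2 .z)
  (.s (.s (n false (n true (n false e e) e) (n false e e)) 16394 (.s (n false (n false e e) e) 16386 (.s (n false e e) 16385 .z))) (.s 26 2 .z)
  (.s (.s (n true (n true (n false (n false (n false (n false e e) (n false e e)) (n false (n false e e) (n false e e))) (n false e e)) e) e) 16383 (.s (n true (n true (n true (n false (n false e e) (n false e e)) e) e) e) 16396 .z)) (.s 26 2 .z)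
  (.s (.s (n true (n true (n true (n false (n false e e) (n false e e)) e) e) e) 16396 (.s (n false (n true (n false e e) e) (n false e e)) 16388 (.s (n false (n false (n false (n false e e) (n false e e)) (n false e e)) (n false e e)) 16391 (.s (n true (n true (n false (n false (n false (n false e e) (n false e e)) (n false (n false e e) (n false e e))) (n false e e)) e) e) 16383 .z)))) (.s 26 2 .z)
  (.s (.s (n false (n false e e) e) 16386 (.s (n false (n true (n false e e) e) (n false e e)) 16388 (.s (n true (n true (n false (n false e e) (n false e e)) e) e) 16389 (.s (n false (n false (n false (n true (n false (n false (n false (n false e e) (n false e e)) (n false (n false e e) (n false e e))) (n false e e)) e) (n false e e)) (n false e e)) (n false e e)) 16388 .z)))) (.s 26 2 (.s 54 13 .z))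
  (.s (.s (n false e e) 16385 (.s (n true (n true (n false (n false (n false (n false e e) (n false e e)) (n false (n false e e) (n false e e))) (n false e e)) e) e) 16383 .z)) (.s 26 2 .z)
  (.s (.s (n false e e) 16385 (.s (n false (n true (n false e e) e) (n false e e)) 16388 (.s (n false (n true (n false (n false (n false (n false e e) (n false e e)) (n false (n false e e) (n false e e))) (n false e e)) e) (n false (n false (n false e e) (n false e e)) (n false e e))) 16388 .z))) (.s 26 2 (.s 54 13 .z))
  (.s (.s (n true (n true (n false (n false (n false (n false e e) (n false e e)) (n false (n false e e) (n false e e))) (n false e e)) e) e) 16383 (.s (n false (n true (n false (n false e e) (n false e e)) e) (n false e e)) 16396 (.s (n false e e) 16385 .z))) .z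
  (.s (.s (n false (n true (n false e e) e) (n false e e)) 16394 (.s (n false e e) 16385 (.s (n false (n true (n false (n false e e) (n false e e)) e) (n false e e)) 16396 .z))) .z
  (.s (.s (n false (n true (n false e e) e) (n false e e)) 16394 (.s (n false (n false e e) e) 16386 (.s (n false (n true (n false (n false e e) (n false e e)) e) (n false e e)) 16396 (.s (n false e e) 16385 .z)))) .z
  (.s (.s (n false e e) 16385 (.s (n false (n true (n false e e) e) (n false e e)) 16394 (.s (n false (n true (n false (n false e e) (n false e e)) e) (n false e e)) 16396 .z))) .z
  (.s (.s (n false e e) 16385 (.s (n false (n false (n false (n false e e) (n false e e)) (n false (n false e e) (n false e e))) (n false e e)) 16387 (.s (n false (n true (n false e e) e) (n false e e)) 16394 .z))) .z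
  (.s (.s (n false e e) 16385 (.s (n false (n true (n false e e) e) (n false e e)) 16388 (.s (n true (n true (n false (n false (n false (n false e e) (n false e e)) (n false (n false e e) (n false e e))) (n false e e)) e) e) 16383 .z))) (.s 26 2 .z)
  (.s (.s (n false e e) 16385 (.s (n false (n true (n false e e) e) (n false e e)) 16394 .z)) (.s 26 2 .z)
  (.s (.s (n false (n false e e) (n false e e)) 16399 (.s (n false e e) 16385 (.s (n false (n true (n false e e) e) (n false e e)) 16394 .z))) (.s 26 2 .z)
  (.s (.s (n false (n true (n false e e) e) (n false e e)) 16394 (.s (n false e e) 16385 (.s (n false (n false (n false (n false e e) (n false e e)) (n false (n false e e) (n false e e))) (n false e e)) 16387 .z))) .z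
  (.s (.s (n false (n false e e) e) 16386 (.s (n false (n true (n false e e) e) (n false e e)) 16388 (.s (n true (n true (n false (n false (n false (n false e e) (n false e e)) (n false (n false e e) (n false e e))) (n false e e)) e) e) 16383 (.s (n true (n true (n false (n false e e) (n false e e)) e) e) 16389 .z)))) (.s 26 2 .z)
  (.s (.s (n true (n true (n false (n false (n false (n false e e) (n false e e)) (n false (n false e e) (n false e e))) (n false e e)) e) e) 16383 (.s (n false (n false e e) e) 16386 (.s (n true (n true (n false (n false e e) (n false e e)) e) e) 16389 .z))) (.s 26 2 .z)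
  (.s (.s (n false e e) 16385 (.s (n true (n false (n false (n false e e) (n false e e)) (n false e e)) e) 16402 (.s (n true (n true (n false (n false (n false (n false e e) (n false e e)) (n false (n false e e) (n false e e))) (n false e e)) e) e) 16383 .z))) (.s 26 2 .z)
  (.s (.s (n false (n false (n false (n false e e) (n false e e)) (n false (n false e e) (n false e e))) (n false e e)) 16387 (.s (n false (n true (n false e e) e) (n false e e)) 16394 (.s (n false e e) 16385 .z))) .z
  (.s (.s (n false (n true (n false e e) e) (n false e e)) 16394 (.s (n false (n false e e) e) 16386 (.s (n true (n true (n false (n false e e) (n false e e)) e) e) 16389 (.s (n false (n false (n false (n false e e) (n false e e)) (n false (n false e e) (n false e e))) (n false e e)) 16387 .z)))) .z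
  (.s (.s (n false (n true (n false e e) e) (n false e e)) 16394 (.s (n false (n false e e) e) 16386 (.s (n false e e) 16385 (.s (n false (n true (n false (n false e e) (n false e e)) e) (n false e e)) 16396 .z)))) .z
  (.s (.s (n false (n false e e) (n false e e)) 16399 (.s (n false e e) 16385 (.s (n false (n true (n false e e) e) (n false e e)) 16394 (.s (n false (n false (n false (n false e e) (n false e e)) (n false (n false e e) (n false e e))) (n false e e)) 16387 .z)))) .z
  (.s (.s (n false (n false e e) (n false e e)) 16399 (.s (n false (n false (n false (n false e e) (n false e e)) (n false (n false e e) (n false e e))) (n false e e)) 16387 (.s (n false e e) 16385 (.s (n false (n true (n false e e) e) (n false e e)) 16394 .z)))) .z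
  (.s (.s (n false (n false e e) (n false e e)) 16399 (.s (n false e e) 16385 (.s (n false (n true (n false e e) e) (n false e e)) 16394 (.s (n false (n true (n false (n false e e) (n false e e)) e) (n false e e)) 16396 .z)))) .z
  (.s (.s (n false (n true (n false (n false e e) (n false e e)) e) (n false e e)) 16396 (.s (n false (n true (n false e e) e) (n false e e)) 16394 (.s (n false (n false e e) e) 16386 (.s (n true (n true (n false (n false e e) (n false e e)) e) e) 16389 .z)))) .z
  (.s (.s (n false (n false (n false (n false e e) (n false e e)) (n false (n false e e) (n false e e))) (n false e e)) 16387 (.s (n false (n true (n false e e) e) (n false e e)) 16394 (.s (n false (n false e e) e) 16386 (.s (n true (n true (n false (n false e e) (n false e e)) e) e) 16389 .z)))) .z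
  (.s (.s (n false (n false e e) e) 16386 (.s (n false (n true (n false e e) e) (n false e e)) 16388 (.s (n false (n false (n false (n true (n false (n false (n false (n false e e) (n false e e)) (n false (n false e e) (n false e e))) (n false e e)) e) (n false e e)) (n false e e)) (n false e e)) 16388 (.s (n true (n true (n false (n false e e) (n false e e)) e) e) 16389 .z)))) (.s 26 2 (.s 54 13 .z))
  (.s (.s (n false (n true (n false e e) e) (n false e e)) 16394 (.s (n false (n true (n false (n false e e) (n false e e)) e) (n false e e)) 16396 (.s (n false e e) 16385 .z))) .z
  (.s (.s (n false (n true (n false e e) e) (n false e e)) 16394 (.s (n true (n true (n true (n false (n false e e) (n false e e)) e) e) e) 16396 (.s (n false (n true (n false (n false e e) (n false e e)) e) (n false e e)) 16396 .z))) .z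
  (.s (.s (n false e e) 16397 (.s (n false (n true (n false (n false e e) (n false e e)) e) (n false e e)) 16396 .z)) .z
  (.s (.s (n false (n false e e) e) 16386 (.s (n true (n true (n false (n false (n false (n false e e) (n false e e)) (n false (n false e e) (n false e e))) (n false e e)) e) e) 16383 (.s (n true (n true (n false (n false e e) (n false e e)) e) e) 16389 .z))) (.s 26 2 .z)
  (.s (.s (n false (n false e e) e) 16386 (.s (n false (n true (n false e e) e) (n false e e)) 16394 (.s (n true (n true (n false (n false e e) (n false e e)) e) e) 16389 .z))) (.s 26 2 .z)
  (.s (.s (n false (n false e e) e) 16386 (.s (n false (n true (n false e e) e) (n false e e)) 16388 (.s (n true (n true (n false (n false e e) (n false e e)) e) e) 16389 (.s (n false (n true (n false (n false (n false (n false e e) (n false e e)) (n false (n false e e) (n false e e))) (n false e e)) e) (n false (n false (n false e e) (n false e e)) (n false e e))) 16388 .z)))) (.s 26 2 (.s 54 13 .z))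
  (.s (.s (n false e e) 16385 (.s (n false (n false e e) (n false e e)) 16399 (.s (n false (n true (n false e e) e) (n false e e)) 16394 .z))) (.s 26 2 .z)
  (.s (.s (n false (n false e e) e) 16386 (.s (n false (n true (n false e e) e) (n false e e)) 16394 (.s (n true (n true (n false (n false e e) (n false e e)) e) e) 16389 (.s (n false (n true (n false (n false e e) (n false e e)) e) (n false e e)) 16396 .z)))) .z
  .z))))))))))))))))))))))))))))))))))))))))))))))

set_option maxRecDepth 100000 in
def A36 : AE :=
 (.s 4096 4102 (.s 28 0 .z)
 (.s 0x50 4104 (n false (n false e e) e) (.s 0x8 4097 (n false e e) .z .z) (.s 0x70 4104 (n true (n false e e) e) .z .z))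
 (.s .z (.s 28 0 .z)
  .z))

set_option maxRecDepth 100000 in
def A37 : AE :=
 (.s 4096 4101 (.s 7 7 (.s 34 1 (.s 34 0 (.s 37 1 (.s 37 0 (.s 57 0 .z))))))
 (.s 0x8 4102 (n false e e) .z .z)
 (.s (.s (n false (n false (n false (n false (n false e e) (n false e e)) (n false (n false e e) (n false e e))) (n false e e)) (n false (n false (n false (n false e e) (n false e e)) (n false (n false e e) (n false e e))) (n false e e))) 16384 .z) (.s 34 1 (.s 34 0 (.s 37 1 (.s 37 0 (.s 57 0 .z)))))
  (.s (.s (n false e e) 16384 (.s (n false (n false (n false (n false (n false e e) (n false e e)) (n false (n false e e) (n false e e))) (n false e e)) (n false (n false (n false (n false e e) (n false e e)) (n false (n false e e) (n false e e))) (n false e e))) 16384 .z)) .z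
  (.s (.s (n false e e) 16384 (.s (n true (n false (n false (n false (n false e e) (n false e e)) (n false (n false e e) (n false e e))) (n false e e)) e) 16387 .z)) .z
  (.s (.s (n true (n false (n false (n false (n false e e) (n false e e)) (n false (n false e e) (n false e e))) (n false e e)) e) 16387 (.s (n true (n false (n false e e) (n false e e)) e) 16399 (.s (n false e e) 16384 .z))) .z
  (.s (.s (n true (n false (n false (n false (n false e e) (n false e e)) (n false (n false e e) (n false e e))) (n false e e)) e) 16387 (.s (n false e e) 16384 .z)) .z
  (.s (.s (n false (n false (n false (n false (n false e e) (n false e e)) (n false (n false e e) (n false e e))) (n false e e)) (n false (n false (n false (n false e e) (n false e e)) (n false (n false e e) (n false e e))) (n false e e))) 16384 .z) (.s 34 1 (.s 37 1 (.s 34 0 (.s 37 0 (.s 57 0 .z)))))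
  (.s (.s (n true (n false (n false (n false (n false e e) (n false e e)) (n false (n false e e) (n false e e))) (n false e e)) e) 16385 (.s (n false e e) 16384 (.s (n false (n false (n false (n false (n false e e) (n false e e)) (n false (n false e e) (n false e e))) (n false e e)) (n false (n false (n false (n false e e) (n false e e)) (n false (n false e e) (n false e e))) (n false e e))) 16384 .z))) .z
  (.s (.s (n true (n false (n false (n false (n false e e) (n false e e)) (n false (n false e e) (n false e e))) (n false e e)) e) 16387 .z) (.s 37 1 (.s 37 0 (.s 57 0 .z)))
  (.s (.s (n false (n false (n false (n false (n false e e) (n false e e)) (n false (n false e e) (n false e e))) (n false e e)) (n false (n false (n false (n false e e) (n false e e)) (n false (n false e e) (n false e e))) (n false e e))) 16384 .z) (.s 34 0 (.s 34 1 (.s 37 1 (.s 37 0 (.s 57 0 .z)))))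
  (.s (.s (n false (n false (n false (n false (n false e e) (n false e e)) (n false (n false e e) (n false e e))) (n false e e)) (n false (n false (n false (n false e e) (n false e e)) (n false (n false e e) (n false e e))) (n false e e))) 16384 .z) (.s 57 0 (.s 34 1 (.s 34 0 (.s 37 1 (.s 37 0 .z)))))
  (.s (.s (n true (n false (n false (n false (n false e e) (n false e e)) (n false (n false e e) (n false e e))) (n false e e)) e) 16385 (.s (n false e e) 16382 (.s (n false (n false (n false (n false (n false e e) (n false e e)) (n false (n false e e) (n false e e))) (n false e e)) (n false (n false (n false (n false e e) (n false e e)) (n false (n false e e) (n false e e))) (n false e e))) 16384 .z))) (.s 34 0 (.s 37 0 (.s 57 0 .z)))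
  (.s (.s (n true (n false (n false (n false (n false e e) (n false e e)) (n false (n false e e) (n false e e))) (n false e e)) e) 16387 .z) (.s 37 0 (.s 57 0 (.s 37 1 .z)))
  (.s (.s (n false (n false (n false e e) (n false e e)) e) 16399 (.s (n false e e) 16384 (.s (n false (n false (n false (n false (n false e e) (n false e e)) (n false (n false e e) (n false e e))) (n false e e)) (n false (n false (n false (n false e e) (n false e e)) (n false (n false e e) (n false e e))) (n false e e))) 16384 .z))) .z
  (.s (.s (n false (n false (n false (n false (n false e e) (n false e e)) (n false (n false e e) (n false e e))) (n false e e)) (n false (n false (n false (n false e e) (n false e e)) (n false (n false e e) (n false e e))) (n false e e))) 16384 (.s (n false e e) 16384 .z)) .z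
  (.s (.s (n false e e) 16384 (.s (n false (n false (n false (n false (n false e e) (n false e e)) (n false (n false e e) (n false e e))) (n false e e)) (n true (n false e e) e)) 16389 .z)) .z
  (.s (.s (n false e e) 16384 (.s (n true (n false (n false (n false (n false e e) (n false e e)) (n false (n false e e) (n false e e))) (n false e e)) e) 16387 .z)) (.s 37 0 .z)
  (.s (.s (n true (n true (n false e e) e) e) 16386 (.s (n true (n false (n false (n false (n false e e) (n false e e)) (n false (n false e e) (n false e e))) (n false e e)) e) 16387 .z)) .z
  (.s (.s (n true (n false (n false (n false (n false e e) (n false e e)) (n false (n false e e) (n false e e))) (n false e e)) e) 16387 (.s (n false e e) 16384 .z)) (.s 37 1 .z)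
  (.s (.s (n false (n false e e) e) 16403 (.s (n false (n false (n false (n false (n false e e) (n false e e)) (n false (n false e e) (n false e e))) (n false e e)) (n false (n false (n false (n false e e) (n false e e)) (n false (n false e e) (n false e e))) (n false e e))) 16384 .z)) (.s 34 1 (.s 37 1 (.s 37 0 (.s 57 0 .z))))
  (.s (.s (n false e e) 16382 (.s (n false (n false e e) e) 16403 (.s (n false (n false (n false (n false (n false e e) (n false e e)) (n false (n false e e) (n false e e))) (n false e e)) (n false (n false (n false (n false e e) (n false e e)) (n false (n false e e) (n false e e))) (n false e e))) 16384 .z))) (.s 37 0 (.s 57 0 .z))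
  (.s (.s (n false (n false (n false (n false (n false e e) (n false e e)) (n false (n false e e) (n false e e))) (n false e e)) (n false (n false (n false (n false e e) (n false e e)) (n false (n false e e) (n false e e))) (n false e e))) 16384 .z) (.s 34 1 (.s 37 1 (.s 57 0 (.s 34 0 (.s 37 0 .z)))))
  (.s (.s (n false (n false (n false (n false (n false e e) (n false e e)) (n false (n false e e) (n false e e))) (n false e e)) (n false (n false (n false (n false e e) (n false e e)) (n false (n false e e) (n false e e))) (n false e e))) 16384 .z) (.s 37 0 (.s 34 1 (.s 34 0 (.s 37 1 (.s 57 0 .z)))))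
  (.s (.s (n false (n false (n false (n false (n false e e) (n false e e)) (n false (n false e e) (n false e e))) (n false e e)) (n false (n false (n false (n false e e) (n false e e)) (n false (n false e e) (n false e e))) (n false e e))) 16384 .z) (.s 34 0 (.s 37 0 (.s 57 0 (.s 34 1 (.s 37 1 .z)))))
  (.s (.s (n false e e) 16382 (.s (n false (n false (n false (n false (n false e e) (n false e e)) (n false (n false e e) (n false e e))) (n false e e)) (n false (n false (n false (n false e e) (n false e e)) (n false (n false e e) (n false e e))) (n false e e))) 16384 .z)) (.s 34 0 (.s 37 0 (.s 57 0 .z)))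
  (.s (.s (n false (n false (n false (n false (n false e e) (n false e e)) (n false (n false e e) (n false e e))) (n false e e)) (n false (n false (n false (n false e e) (n false e e)) (n false (n false e e) (n false e e))) (n false e e))) 16384 .z) (.s 34 0 (.s 37 0 (.s 34 1 (.s 37 1 (.s 57 0 .z)))))
  (.s (.s (n true (n false (n false (n false (n false e e) (n false e e)) (n false (n false e e) (n false e e))) (n false e e)) e) 16387 (.s (n false e e) 16384 .z)) (.s 57 0 .z)
  (.s (.s (n true (n false (n false (n false (n false e e) (n false e e)) (n false (n false e e) (n false e e))) (n false e e)) e) 16387 .z) (.s 37 0 (.s 37 1 (.s 57 0 .z)))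
  (.s (.s (n false (n false (n false (n false (n false e e) (n false e e)) (n false (n false e e) (n false e e))) (n false e e)) (n false (n false (n false (n false e e) (n false e e)) (n false (n false e e) (n false e e))) (n false e e))) 16384 (.s (n false e e) 16384 .z)) (.s 37 0 .z)
  (.s (.s (n true (n false (n false (n false (n false e e) (n false e e)) (n false (n false e e) (n false e e))) (n false e e)) e) 16385 (.s (n false (n false (n false (n false (n false e e) (n false e e)) (n false (n false e e) (n false e e))) (n false e e)) (n false (n false (n false (n false e e) (n false e e)) (n false (n false e e) (n false e e))) (n false e e))) 16384 (.s (n false e e) 16384 .z))) .z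
  (.s (.s (n false (n false (n false (n false (n false e e) (n false e e)) (n false (n false e e) (n false e e))) (n false e e)) (n false (n false (n false (n false e e) (n false e e)) (n false (n false e e) (n false e e))) (n false e e))) 16384 .z) (.s 37 0 (.s 57 0 (.s 34 1 (.s 34 0 (.s 37 1 .z)))))
  (.s (.s (n false (n false (n false (n false (n false e e) (n false e e)) (n false (n false e e) (n false e e))) (n false e e)) (n false (n false (n false (n false e e) (n false e e)) (n false (n false e e) (n false e e))) (n false e e))) 16384 .z) (.s 37 1 (.s 37 0 (.s 34 1 (.s 34 0 (.s 57 0 .z)))))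
  (.s (.s (n false (n false (n false (n false (n false e e) (n false e e)) (n false (n false e e) (n false e e))) (n false e e)) (n false (n false (n false (n false e e) (n false e e)) (n false (n false e e) (n false e e))) (n false e e))) 16384 .z) (.s 34 1 (.s 37 0 (.s 57 0 (.s 34 0 (.s 37 1 .z)))))
  (.s (.s (n false (n false (n false (n false (n false e e) (n false e e)) (n false (n false e e) (n false e e))) (n false e e)) (n false (n false (n false (n false e e) (n false e e)) (n false (n false e e) (n false e e))) (n false e e))) 16384 .z) (.s 34 1 (.s 37 1 (.s 37 0 (.s 34 0 (.s 57 0 .z)))))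
  (.s (.s (n false (n false (n false (n false (n false e e) (n false e e)) (n false (n false e e) (n false e e))) (n false e e)) (n false (n false (n false (n false e e) (n false e e)) (n false (n false e e) (n false e e))) (n false e e))) 16384 .z) (.s 37 1 (.s 37 0 (.s 57 0 (.s 34 1 (.s 34 0 .z)))))
  (.s (.s (n true (n false (n false (n false (n false e e) (n false e e)) (n false (n false e e) (n false e e))) (n false e e)) e) 16385 (.s (n false (n false (n false (n false (n false e e) (n false e e)) (n false (n false e e) (n false e e))) (n false e e)) (n false (n false (n false (n false e e) (n false e e)) (n false (n false e e) (n false e e))) (n false e e))) 16384 .z)) (.s 37 0 (.s 57 0 (.s 34 0 (.s 37 1 .z))))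
  (.s (.s (n false (n false e e) e) 16409 (.s (n false (n false (n false (n false (n false e e) (n false e e)) (n false (n false e e) (n false e e))) (n false e e)) (n false (n false (n false (n false e e) (n false e e)) (n false (n false e e) (n false e e))) (n false e e))) 16384 (.s (n false e e) 16382 .z))) .z
  (.s (.s (n true (n false (n false (n false (n false e e) (n false e e)) (n false (n false e e) (n false e e))) (n false e e)) e) 16387 (.s (n false e e) 16382 .z)) (.s 37 0 (.s 57 0 .z))
  (.s (.s (n true (n true (n false (n false (n false e e) (n false e e)) (n false (n false e e) (n false e e))) e) e) 16396 (.s (n false e e) 16382 (.s (n false (n false (n false (n false (n false e e) (n false e e)) (n false (n false e e) (n false e e))) (n false e e)) (n false (n false (n false (n false e e) (n false e e)) (n false (n false e e) (n false e e))) (n false e e))) 16384 .z))) (.s 37 0 (.s 34 0 (.s 57 0 .z)))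
  (.s (.s (n false (n false (n false e e) (n false e e)) e) 16399 (.s (n false (n false (n false (n false (n false e e) (n false e e)) (n false (n false e e) (n false e e))) (n false e e)) (n false (n false (n false (n false e e) (n false e e)) (n false (n false e e) (n false e e))) (n false e e))) 16384 (.s (n false e e) 16384 .z))) .z
  (.s (.s (n true (n false (n false (n false (n false e e) (n false e e)) (n false (n false e e) (n false e e))) (n false e e)) e) 16387 (.s (n false e e) 16382 (.s (n true (n false (n false e e) (n false e e)) e) 16399 .z))) (.s 37 0 .z)
  (.s (.s (n true (n false (n false (n false (n false e e) (n false e e)) (n false (n false e e) (n false e e))) (n false e e)) e) 16387 (.s (n false e e) 16382 (.s (n false (n false (n false e e) (n false e e)) e) 16399 .z))) (.s 37 0 .z)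
  (.s (.s (n false e e) 16382 (.s (n false (n false (n false (n false (n false e e) (n false e e)) (n false (n false e e) (n false e e))) (n false e e)) (n false (n false (n false (n false e e) (n false e e)) (n false (n false e e) (n false e e))) (n false e e))) 16384 .z)) (.s 37 0 (.s 57 0 (.s 34 0 .z)))
  (.s (.s (n false (n false (n false (n false (n false e e) (n false e e)) (n false (n false e e) (n false e e))) (n false e e)) (n false (n false (n false (n false e e) (n false e e)) (n false (n false e e) (n false e e))) (n false e e))) 16384 (.s (n false e e) 16382 .z)) (.s 34 0 (.s 37 0 (.s 57 0 .z)))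
  (.s (.s (n false (n false (n false e e) (n false e e)) e) 16399 (.s (n false (n false (n false (n false (n false e e) (n false e e)) (n false (n false e e) (n false e e))) (n false e e)) (n false (n false (n false (n false e e) (n false e e)) (n false (n false e e) (n false e e))) (n false e e))) 16384 .z)) (.s 34 1 (.s 34 0 (.s 37 1 (.s 37 0 .z))))
  (.s (.s (n false (n false (n false e e) (n false e e)) e) 16399 (.s (n false e e) 16382 (.s (n false (n false (n false (n false (n false e e) (n false e e)) (n false (n false e e) (n false e e))) (n false e e)) (n false (n false (n false (n false e e) (n false e e)) (n false (n false e e) (n false e e))) (n false e e))) 16384 .z))) (.s 34 0 (.s 37 0 .z))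
  (.s (.s (n true (n false (n false (n false (n false e e) (n false e e)) (n false (n false e e) (n false e e))) (n false e e)) e) 16387 (.s (n false (n false (n false e e) (n false e e)) e) 16399 .z)) (.s 37 1 (.s 37 0 .z))
  (.s (.s (n true (n false (n false e e) (n false e e)) e) 16399 (.s (n false (n false (n false (n false (n false e e) (n false e e)) (n false (n false e e) (n false e e))) (n false e e)) (n false (n false (n false (n false e e) (n false e e)) (n false (n false e e) (n false e e))) (n false e e))) 16384 .z)) (.s 34 1 (.s 34 0 (.s 37 1 (.s 37 0 .z))))
  (.s (.s (n false e e) 16382 (.s (n false (n false (n false e e) (n false e e)) e) 16399 (.s (n false (n false (n false (n false (n false e e) (n false e e)) (n false (n false e e) (n false e e))) (n false e e)) (n false (n false (n false (n false e e) (n false e e)) (n false (n false e e) (n false e e))) (n false e e))) 16384 .z))) (.s 34 0 (.s 37 0 .z))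
  (.s (.s (n false (n false (n false e e) (n false e e)) e) 16399 (.s (n false (n false (n false (n false (n false e e) (n false e e)) (n false (n false e e) (n false e e))) (n false e e)) (n false (n false (n false (n false e e) (n false e e)) (n false (n false e e) (n false e e))) (n false e e))) 16384 (.s (n false e e) 16384 .z))) (.s 34 1 .z)
  (.s (.s (n true (n false (n false e e) (n false e e)) e) 16399 (.s (n false e e) 16384 (.s (n false (n false (n false (n false (n false e e) (n false e e)) (n false (n false e e) (n false e e))) (n false e e)) (n false (n false (n false (n false e e) (n false e e)) (n false (n false e e) (n false e e))) (n false e e))) 16384 .z))) .z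
  (.s (.s (n false (n false (n false (n false (n false e e) (n false e e)) (n false (n false e e) (n false e e))) (n false e e)) e) 16387 (.s (n false e e) 16382 (.s (n true (n false (n false (n false (n false e e) (n false e e)) (n false (n false e e) (n false e e))) (n false e e)) e) 16387 .z))) (.s 37 0 (.s 57 0 .z))
  (.s (.s (n false e e) 16382 (.s (n false (n true (n false (n false (n false e e) (n false e e)) (n false (n false e e) (n false e e))) e) e) 16398 (.s (n false (n false (n false (n false (n false e e) (n false e e)) (n false (n false e e) (n false e e))) (n false e e)) (n false (n false (n false (n false e e) (n false e e)) (n false (n false e e) (n false e e))) (n false e e))) 16384 .z))) (.s 37 0 (.s 57 0 .z))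
  (.s (.s (n true (n false (n false (n false (n false e e) (n false e e)) (n false (n false e e) (n false e e))) (n false e e)) e) 16387 (.s (n true (n false (n false e e) (n false e e)) e) 16399 (.s (n false e e) 16382 .z))) (.s 37 0 .z)
  (.s (.s (n false (n false (n false e e) (n false e e)) e) 16399 (.s (n false (n false (n false (n false (n false e e) (n false e e)) (n false (n false e e) (n false e e))) (n false e e)) e) 16387 (.s (n false e e) 16382 (.s (n true (n false (n false (n false (n false e e) (n false e e)) (n false (n false e e) (n false e e))) (n false e e)) e) 16387 .z)))) (.s 37 0 .z)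
  (.s (.s (n true (n false (n false (n false (n false e e) (n false e e)) (n false (n false e e) (n false e e))) (n false e e)) e) 16387 (.s (n true (n false (n false e e) (n false e e)) e) 16399 .z)) (.s 37 1 (.s 37 0 .z))
  (.s (.s (n true (n false (n false (n false (n false e e) (n false e e)) (n false (n false e e) (n false e e))) (n false e e)) e) 16385 (.s (n false (n false (n false (n false (n false e e) (n false e e)) (n false (n false e e) (n false e e))) (n false e e)) (n false (n false (n false (n false e e) (n false e e)) (n false (n false e e) (n false e e))) (n false e e))) 16384 .z)) (.s 37 1 (.s 34 0 (.s 37 0 (.s 57 0 .z))))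
  (.s (.s (n false (n false (n false e e) (n false e e)) e) 16399 (.s (n false (n false (n false (n false (n false e e) (n false e e)) (n false (n false e e) (n false e e))) (n false e e)) (n false (n false (n false (n false e e) (n false e e)) (n false (n false e e) (n false e e))) (n false e e))) 16384 .z)) (.s 34 0 (.s 34 1 (.s 37 1 (.s 37 0 .z))))
  (.s (.s (n false (n false (n false (n false (n false e e) (n false e e)) (n false (n false e e) (n false e e))) (n false e e)) (n false (n false (n false (n false e e) (n false e e)) (n false (n false e e) (n false e e))) (n false e e))) 16384 .z) (.s 34 0 (.s 57 0 (.s 34 1 (.s 37 1 (.s 37 0 .z)))))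
  (.s (.s (n true (n false (n false (n false (n false e e) (n false e e)) (n false (n false e e) (n false e e))) (n false e e)) e) 16387 (.s (n false (n false (n false e e) (n false e e)) e) 16399 (.s (n false e e) 16382 .z))) (.s 37 0 .z)
  (.s (.s (n false e e) 16382 (.s (n true (n false (n false (n false (n false e e) (n false e e)) (n false (n false e e) (n false e e))) (n false e e)) e) 16387 .z)) (.s 37 0 (.s 57 0 .z))
  (.s (.s (n true (n false (n false e e) (n false e e)) e) 16399 (.s (n false (n false (n false (n false (n false e e) (n false e e)) (n false (n false e e) (n false e e))) (n false e e)) (n false (n false (n false (n false e e) (n false e e)) (n false (n false e e) (n false e e))) (n false e e))) 16384 (.s (n false e e) 16382 .z))) (.s 34 0 (.s 37 0 .z))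
  (.s (.s (n true (n true (n false e e) e) e) 16384 (.s (n true (n false (n false (n false (n false e e) (n false e e)) (n false (n false e e) (n false e e))) (n false e e)) e) 16385 (.s (n false (n false (n false (n false (n false e e) (n false e e)) (n false (n false e e) (n false e e))) (n false e e)) (n false (n false (n false (n false e e) (n false e e)) (n false (n false e e) (n false e e))) (n false e e))) 16384 .z))) (.s 34 0 (.s 37 0 (.s 57 0 .z)))
  (.s (.s (n false e e) 16382 (.s (n true (n false (n false (n false (n false e e) (n false e e)) (n false (n false e e) (n false e e))) (n false e e)) e) 16387 (.s (n false (n false (n false e e) (n false e e)) e) 16399 .z))) (.s 37 0 .z)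
  (.s (.s (n false (n false (n false (n false (n false e e) (n false e e)) (n false (n false e e) (n false e e))) (n false e e)) (n false (n false (n false (n false e e) (n false e e)) (n false (n false e e) (n false e e))) (n false e e))) 16384 (.s (n false e e) 16382 (.s (n false (n false (n false e e) (n false e e)) e) 16399 .z))) (.s 34 0 (.s 37 0 .z))
  (.s (.s (n false (n false (n false e e) (n false e e)) e) 16399 (.s (n true (n false (n false (n false (n false e e) (n false e e)) (n false (n false e e) (n false e e))) (n false e e)) e) 16385 (.s (n false (n false (n false (n false (n false e e) (n false e e)) (n false (n false e e) (n false e e))) (n false e e)) (n false (n false (n false (n false e e) (n false e e)) (n false (n false e e) (n false e e))) (n false e e))) 16384 (.s (n false e e) 16382 .z)))) (.s 34 0 (.s 37 0 .z))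
  (.s (.s (n false (n false (n false (n false (n false e e) (n false e e)) (n false (n false e e) (n false e e))) (n false e e)) (n false (n false (n false (n false e e) (n false e e)) (n false (n false e e) (n false e e))) (n false e e))) 16384 (.s (n false e e) 16382 (.s (n false (n true (n false (n false (n false e e) (n false e e)) (n false (n false e e) (n false e e))) e) e) 16398 .z))) (.s 37 0 (.s 57 0 .z))
  (.s (.s (n true (n false (n false (n false (n false e e) (n false e e)) (n false (n false e e) (n false e e))) (n false e e)) e) 16385 (.s (n false e e) 16382 (.s (n false (n false (n false e e) (n false e e)) e) 16399 (.s (n false (n false (n false (n false (n false e e) (n false e e)) (n false (n false e e) (n false e e))) (n false e e)) (n false (n false (n false (n false e e) (n false e e)) (n false (n false e e) (n false e e))) (n false e e))) 16384 .z)))) (.s 34 0 (.s 37 0 .z))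
  (.s (.s (n false (n true (n false (n false (n false e e) (n false e e)) (n false (n false e e) (n false e e))) e) e) 16398 (.s (n false (n false (n false (n false (n false e e) (n false e e)) (n false (n false e e) (n false e e))) (n false e e)) (n false (n false (n false (n false e e) (n false e e)) (n false (n false e e) (n false e e))) (n false e e))) 16384 .z)) (.s 34 1 (.s 37 1 (.s 37 0 (.s 57 0 .z))))
  (.s (.s (n false e e) 16382 (.s (n false (n false e e) e) 16403 (.s (n false (n false (n false e e) (n false e e)) e) 16399 (.s (n false (n false (n false (n false (n false e e) (n false e e)) (n false (n false e e) (n false e e))) (n false e e)) (n false (n false (n false (n false e e) (n false e e)) (n false (n false e e) (n false e e))) (n false e e))) 16384 .z)))) (.s 37 0 .z)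
  (.s (.s (n true (n false (n false (n false (n false e e) (n false e e)) (n false (n false e e) (n false e e))) (n false e e)) e) 16385 (.s (n false e e) 16384 (.s (n true (n false (n false (n false (n false e e) (n false e e)) (n false (n false e e) (n false e e))) (n false e e)) e) 16387 .z))) .z
  (.s (.s (n true (n false (n false (n false (n false e e) (n false e e)) (n false (n false e e) (n false e e))) (n false e e)) e) 16385 (.s (n false (n false (n false (n false (n false e e) (n false e e)) (n false (n false e e) (n false e e))) (n false e e)) (n false (n false (n false (n false e e) (n false e e)) (n false (n false e e) (n false e e))) (n false e e))) 16384 .z)) (.s 34 0 (.s 37 1 (.s 37 0 (.s 57 0 .z))))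
  (.s (.s (n false (n false e e) e) 16403 (.s (n false e e) 16382 (.s (n false (n false (n false (n false (n false e e) (n false e e)) (n false (n false e e) (n false e e))) (n false e e)) (n false (n false (n false (n false e e) (n false e e)) (n false (n false e e) (n false e e))) (n false e e))) 16384 .z))) (.s 37 0 (.s 57 0 .z))
  .z)))))))))))))))))))))))))))))))))))))))))))))))))))))))))))))))))))))))))

set_option maxRecDepth 100000 in
def A38 : AE :=
 (.s 4096 4095 (.s 14 6 .z)
 (.s 0x55445108 4099 (n false (n false (n false (n false (n false e e) (n false e e)) (n false (n false e e) (n false e e))) e) (n false e e)) (.s 0x288 4104 (n false (n false e e) (n false e e)) .z .z) .z)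
 (.s .z (.s 14 6 .z)
  .z))

set_option maxRecDepth 100000 in
def A39 : AE :=
 (.s 4096 4095 (.s 28 2 .z)
 (.s 0x288 4104 (n false (n false e e) (n false e e)) (.s 0x70 4097 (n true (n false e e) e) .z .z) .z)
 (.s .z (.s 28 2 .z)
  .z))

set_option maxRecDepth 100000 in
def A40 : AE :=
 (.s 4096 4095 (.s 31 2 .z)
 (.s 0x2ba208 4108 (n false (n false (n true (n false (n false e e) (n false e e)) e) e) (n false e e)) (.s 0x288 4098 (n false (n false e e) (n false e e)) (.s 0x70 4097 (n true (n false e e) e) .z .z) .z) (.s 0x55445108 4099 (n false (n false (n false (n false (n false e e) (n false e e)) (n false (n false e e) (n false e e))) e) (n false e e)) .z .z))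
 .z)

set_option maxRecDepth 100000 in
def A41 : AE :=
 (.s 4094 4100 (.s 13 7 .z)
 (.s 0x75445110 4110 (n true (n false (n false (n false (n false e e) (n false e e)) (n false (n false e e) (n false e e))) (n false e e)) e) (.s 0x70 4102 (n true (n false e e) e) (.s 0x8 4113 (n false e e) .z .z) (.s 0x1708 4104 (n false (n true (n false e e) e) (n false e e)) .z .z)) (.s 0xbaa2288870 4101 (n false (n true (n false (n false (n false (n false e e) (n false e e)) (n false (n false e e) (n false e e))) (n false e e)) e) (n true (n false e e) e)) (.s 0x3ea88a220 4099 (n true (n true (n false (n false (n false (n false e e) (n false e e)) (n false (n false e e) (n false e e))) (n false e e)) e) e) .z .z) (.s 0x175445110aa22888 4096 (n false (n true (n false (n false (n false (n false e e) (n false e e)) (n false (n false e e) (n false e e))) (n false e e)) e) (n false (n false (n false (n false e e) (n false e e)) (n false (n false e e) (n false e e))) (n false e e))) .z .z)))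
 .z)

set_option maxRecDepth 100000 in
def A42 : AE :=
 (.s 4096 4100 (.s 14 7 (.s 38 2 (.s 39 0 (.s 16 13 (.s 16 14 (.s 43 14 (.s 44 13 (.s 81 0 (.s 51 14 (.s 81 14 (.s 89 14 (.s 123 0 (.s 122 13 (.s 158 0 .z))))))))))))))
 (.s 0x70 4102 (n true (n false e e) e) .z .z)
 (.s (.s (n false (n true (n false e e) e) (n false e e)) 16392 (.s (n false e e) 16389 .z)) .z
  (.s (.s (n false (n true (n false e e) e) (n false e e)) 16392 (.s (n false (n false e e) e) 16390 .z)) .z
  (.s (.s (n false (n true (n false (n false (n false (n false e e) (n false e e)) (n false (n false e e) (n false e e))) (n false e e)) e) (n true (n false e e) e)) 16389 .z) (.s 38 2 (.s 39 0 (.s 81 0 (.s 123 0 (.s 158 0 .z)))))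
  (.s (.s (n true (n true (n false (n false (n false (n false e e) (n false e e)) (n false (n false e e) (n false e e))) (n false e e)) e) e) 16387 .z) (.s 38 2 (.s 39 0 (.s 81 0 (.s 123 0 (.s 158 0 .z)))))
  (.s (.s (n false (n false e e) e) 16390 (.s (n false (n true (n false e e) e) (n false e e)) 16392 .z)) .z
  (.s (.s (n false (n true (n false (n false (n false (n false e e) (n false e e)) (n false (n false e e) (n false e e))) (n false e e)) e) (n true (n false e e) e)) 16389 .z) (.s 123 0 (.s 158 0 (.s 38 2 (.s 39 0 (.s 81 0 .z)))))
  (.s (.s (n false (n true (n false (n false (n false (n false e e) (n false e e)) (n false (n false e e) (n false e e))) (n false e e)) e) (n true (n false e e) e)) 16389 .z) (.s 39 0 (.s 123 0 (.s 158 0 (.s 38 2 (.s 81 0 .z)))))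
  (.s (.s (n true (n true (n false (n false (n false (n false e e) (n false e e)) (n false (n false e e) (n false e e))) (n false e e)) e) e) 16387 (.s (n false (n false e e) (n false e e)) 16385 .z)) (.s 81 0 (.s 123 0 (.s 158 0 (.s 39 0 .z))))
  (.s (.s (n false (n true (n false (n false (n false (n false e e) (n false e e)) (n false (n false e e) (n false e e))) (n false e e)) e) (n true (n false e e) e)) 16389 (.s (n false e e) 16389 (.s (n false (n false e e) (n false e e)) 16385 .z))) .z
  (.s (.s (n false (n true (n false e e) e) (n false e e)) 16392 (.s (n false e e) 16387 (.s (n false (n false e e) e) 16390 .z))) .z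
  (.s (.s (n false (n false e e) (n false e e)) 16391 (.s (n true (n false (n true (n false e e) e) (n false e e)) e) 16404 .z)) (.s 14 7 (.s 39 0 (.s 16 13 (.s 16 14 (.s 44 13 (.s 81 0 (.s 89 14 (.s 123 0 (.s 158 0 .z)))))))))
  (.s (.s (n true (n true (n false (n false (n false (n false e e) (n false e e)) (n false (n false e e) (n false e e))) (n false e e)) e) e) 16387 (.s (n false e e) 16389 .z)) (.s 38 2 .z)
  (.s (.s (n true (n true (n false (n false (n false (n false e e) (n false e e)) (n false (n false e e) (n false e e))) (n false e e)) e) e) 16387 .z) (.s 81 0 (.s 123 0 (.s 158 0 (.s 38 2 (.s 39 0 .z)))))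
  (.s (.s (n false e e) 16401 (.s (n false (n false e e) (n false e e)) 16385 .z)) .z
  (.s (.s (n false (n false e e) (n false e e)) 16385 (.s (n false (n true (n true (n false (n false (n false (n false e e) (n false e e)) (n false (n false e e) (n false e e))) (n false e e)) e) e) (n false e e)) 16388 (.s (n false (n true (n false (n false (n false (n false e e) (n false e e)) (n false (n false e e) (n false e e))) (n false e e)) e) (n true (n false e e) e)) 16389 .z))) (.s 39 0 (.s 81 0 (.s 123 0 (.s 158 0 .z))))
  (.s (.s (n true (n true (n false (n false (n false (n false e e) (n false e e)) (n false (n false e e) (n false e e))) (n false e e)) e) e) 16387 (.s (n false e e) 16389 (.s (n false (n false e e) (n false e e)) 16385 .z))) .z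
  (.s (.s (n false (n true (n false (n false (n false (n false e e) (n false e e)) (n false (n false e e) (n false e e))) (n false e e)) e) (n true (n false e e) e)) 16389 (.s (n false (n false e e) (n false e e)) 16385 .z)) (.s 39 0 (.s 81 0 (.s 123 0 (.s 158 0 .z))))
  (.s (.s (n false e e) 16389 (.s (n false (n false e e) (n false e e)) 16391 (.s (n true (n false (n true (n false e e) e) (n false e e)) e) 16404 (.s (n true (n true (n false (n false (n false (n false e e) (n false e e)) (n false (n false e e) (n false e e))) (n false e e)) e) e) 16383 .z)))) (.s 14 7 (.s 16 14 (.s 44 13 (.s 89 14 .z))))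
  (.s (.s (n false (n false e e) (n false e e)) 16391 (.s (n false (n true (n false e e) e) (n false e e)) 16392 (.s (n false (n false e e) e) 16390 .z))) .z
  (.s (.s (n false e e) 16387 (.s (n false (n true (n false e e) e) (n false e e)) 16392 (.s (n false (n false e e) e) 16390 .z))) .z
  (.s (.s (n false e e) 16389 (.s (n false (n true (n false (n false (n false (n false e e) (n false e e)) (n false (n false e e) (n false e e))) (n false e e)) e) (n true (n false e e) e)) 16389 (.s (n false (n false e e) (n false e e)) 16385 .z))) .z
  (.s (.s (n false (n false e e) (n false e e)) 16391 (.s (n true (n false (n true (n false e e) e) (n false e e)) e) 16404 (.s (n false (n true (n false e e) e) (n false e e)) 16388 (.s (n false (n true (n false (n false (n false (n false e e) (n false e e)) (n false (n false e e) (n false e e))) (n false e e)) e) (n true (n false e e) e)) 16389 .z)))) (.s 39 0 (.s 81 0 (.s 123 0 (.s 158 0 .z))))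
  (.s (.s (n true (n true (n false (n false (n false (n false e e) (n false e e)) (n false (n false e e) (n false e e))) (n false e e)) e) e) 16387 .z) (.s 39 0 (.s 123 0 (.s 158 0 (.s 38 2 (.s 81 0 .z)))))
  (.s (.s (n true (n true (n false (n false (n false (n false e e) (n false e e)) (n false (n false e e) (n false e e))) (n false e e)) e) e) 16387 .z) (.s 123 0 (.s 158 0 (.s 38 2 (.s 39 0 (.s 81 0 .z)))))
  (.s (.s (n false e e) 16389 (.s (n true (n false (n false (n false (n false e e) (n false e e)) (n false (n false e e) (n false e e))) (n false e e)) e) 16398 (.s (n false (n false e e) (n false e e)) 16391 (.s (n true (n false (n true (n false e e) e) (n false e e)) e) 16404 .z)))) (.s 16 13 (.s 16 14 (.s 44 13 (.s 89 14 .z))))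
  (.s (.s (n false e e) 16389 (.s (n true (n true (n false (n false (n false (n false e e) (n false e e)) (n false (n false e e) (n false e e))) (n false e e)) e) e) 16387 (.s (n false (n false e e) (n false e e)) 16385 .z))) .z
  (.s (.s (n false e e) 16389 (.s (n false (n true (n false e e) e) (n false e e)) 16392 .z)) .z
  (.s (.s (n false (n true (n false (n false (n false (n false e e) (n false e e)) (n false (n false e e) (n false e e))) (n false e e)) e) (n true (n false e e) e)) 16389 .z) (.s 81 0 (.s 123 0 (.s 158 0 (.s 38 2 (.s 39 0 .z)))))
  (.s (.s (n false e e) 16389 (.s (n false (n true (n false (n false (n false (n false e e) (n false e e)) (n false (n false e e) (n false e e))) (n false e e)) e) (n false e e)) 16388 (.s (n false (n false e e) (n false e e)) 16385 (.s (n true (n true (n false (n false (n false (n false e e) (n false e e)) (n false (n false e e) (n false e e))) (n false e e)) e) e) 16383 (.s (n false (n true (n false (n false (n false (n false e e) (n false e e)) (n false (n false e e) (n false e e))) (n false e e)) e) (n true (n false e e) e)) 16389 .z))))) .z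
  (.s (.s (n false (n true (n false (n false (n false (n false e e) (n false e e)) (n false (n false e e) (n false e e))) (n false e e)) e) (n true (n false e e) e)) 16389 (.s (n false (n false e e) e) 16388 .z)) (.s 38 2 (.s 39 0 (.s 123 0 (.s 158 0 .z))))
  (.s (.s (n true (n true (n false (n false (n false (n false e e) (n false e e)) (n false (n false e e) (n false e e))) (n false e e)) e) e) 16387 (.s (n false (n false e e) e) 16388 (.s (n false (n false e e) (n false e e)) 16385 .z))) (.s 39 0 (.s 123 0 (.s 158 0 .z)))
  (.s (.s (n false (n true (n false e e) e) (n false e e)) 16392 (.s (n false (n false e e) e) 16388 (.s (n false (n false e e) e) 16390 .z))) .z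
  (.s (.s (n false (n false e e) e) 16390 (.s (n false (n false e e) (n false e e)) 16391 (.s (n false (n true (n false e e) e) (n false e e)) 16392 .z))) .z
  (.s (.s (n false (n true (n false e e) e) (n false e e)) 16391 (.s (n false (n false e e) (n false e e)) 16385 (.s (n false (n false e e) e) 16390 (.s (n false (n true (n false e e) e) (n false e e)) 16392 .z)))) .z
  (.s (.s (n false (n true (n false (n false (n false (n false e e) (n false e e)) (n false (n false e e) (n false e e))) (n false e e)) e) (n false e e)) 16388 (.s (n false (n false e e) (n false e e)) 16385 (.s (n false (n true (n false e e) e) (n false e e)) 16392 (.s (n false (n false e e) e) 16390 .z)))) .z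
  (.s (.s (n false e e) 16389 (.s (n true (n true (n false (n false (n false (n false e e) (n false e e)) (n false (n false e e) (n false e e))) (n false e e)) e) e) 16387 .z)) (.s 38 2 .z)
  (.s (.s (n true (n true (n false (n false (n false (n false e e) (n false e e)) (n false (n false e e) (n false e e))) (n false e e)) e) e) 16387 (.s (n false (n false e e) (n false e e)) 16385 .z)) (.s 39 0 (.s 81 0 (.s 123 0 (.s 158 0 .z))))
  (.s (.s (n false (n true (n false e e) e) (n false e e)) 16390 (.s (n false (n false e e) e) 16388 (.s (n false (n true (n false (n false (n false (n false e e) (n false e e)) (n false (n false e e) (n false e e))) (n false e e)) e) (n false (n true (n false e e) e) (n false e e))) 16391 .z))) (.s 14 7 (.s 38 2 (.s 39 0 (.s 44 13 (.s 81 14 (.s 89 14 (.s 123 0 (.s 158 0 .z))))))))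
  (.s (.s (n true (n false e e) e) 16389 (.s (n false (n true (n false (n false (n false (n false e e) (n false e e)) (n false (n false e e) (n false e e))) (n false e e)) e) (n false (n true (n false e e) e) (n false e e))) 16391 .z)) (.s 14 7 (.s 38 2 (.s 39 0 (.s 81 14 (.s 89 14 (.s 123 0 (.s 158 0 .z)))))))
  (.s (.s (n false e e) 16387 (.s (n false (n true (n false (n false (n false (n false e e) (n false e e)) (n false (n false e e) (n false e e))) (n false e e)) e) (n true (n false e e) e)) 16389 (.s (n false (n false e e) (n false e e)) 16385 .z))) (.s 39 0 (.s 123 0 (.s 158 0 .z)))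
  (.s (.s (n false e e) 16397 (.s (n false (n true (n false (n false (n false (n false e e) (n false e e)) (n false (n false e e) (n false e e))) (n false e e)) e) (n true (n false e e) e)) 16389 (.s (n false (n false e e) (n false e e)) 16385 .z))) .z
  (.s (.s (n true (n false e e) e) 16388 (.s (n false (n true (n false (n false (n false (n false e e) (n false e e)) (n false (n false e e) (n false e e))) (n false e e)) e) (n true (n false e e) e)) 16389 (.s (n false (n false e e) (n false e e)) 16385 .z))) (.s 39 0 (.s 123 0 (.s 158 0 .z)))
  (.s (.s (n false (n true (n false (n false (n false (n false e e) (n false e e)) (n false (n false e e) (n false e e))) (n false e e)) e) (n true (n false e e) e)) 16389 (.s (n false e e) 16387 .z)) (.s 39 0 (.s 123 0 (.s 158 0 (.s 38 2 .z))))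
  (.s (.s (n false (n true (n false e e) e) (n false e e)) 16392 (.s (n false e e) 16387 .z)) (.s 39 0 (.s 123 0 (.s 158 0 .z)))
  (.s (.s (n false (n true (n false (n false (n false (n false e e) (n false e e)) (n false (n false e e) (n false e e))) (n false e e)) e) (n true (n false e e) e)) 16389 (.s (n false (n false e e) (n false e e)) 16385 (.s (n false e e) 16387 .z))) (.s 39 0 (.s 123 0 (.s 158 0 .z)))
  (.s (.s (n true (n true (n false (n false (n false (n false e e) (n false e e)) (n false (n false e e) (n false e e))) (n false e e)) e) e) 16387 (.s (n false e e) 16387 (.s (n false (n false e e) (n false e e)) 16385 .z))) (.s 39 0 (.s 123 0 (.s 158 0 .z)))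
  (.s (.s (n true (n false e e) e) 16389 (.s (n false (n true (n false (n false (n false (n false e e) (n false e e)) (n false (n false e e) (n false e e))) (n false e e)) e) (n true (n false e e) e)) 16389 (.s (n false (n false e e) (n false e e)) 16385 .z))) (.s 39 0 (.s 123 0 (.s 158 0 .z)))
  (.s (.s (n false e e) 16397 (.s (n false (n false e e) (n false e e)) 16385 (.s (n true (n true (n false (n false (n false (n false e e) (n false e e)) (n false (n false e e) (n false e e))) (n false e e)) e) e) 16387 .z))) .z
  (.s (.s (n false (n true (n false e e) e) (n false e e)) 16391 (.s (n false (n false e e) (n false e e)) 16391 (.s (n false e e) 16387 .z))) (.s 14 7 (.s 39 0 (.s 89 14 (.s 123 0 (.s 158 0 .z)))))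
  (.s (.s (n false e e) 16400 (.s (n true (n true (n false (n false (n false (n false e e) (n false e e)) (n false (n false e e) (n false e e))) (n false e e)) e) e) 16387 (.s (n false (n false e e) (n false e e)) 16385 .z))) .z
  (.s (.s (n true (n false e e) e) 16389 (.s (n false (n false e e) (n false e e)) 16385 (.s (n true (n true (n false (n false (n false (n false e e) (n false e e)) (n false (n false e e) (n false e e))) (n false e e)) e) e) 16387 .z))) (.s 39 0 (.s 123 0 (.s 158 0 .z)))
  (.s (.s (n false (n true (n false (n false (n false (n false e e) (n false e e)) (n false (n false e e) (n false e e))) (n false e e)) e) (n true (n false e e) e)) 16387 (.s (n false (n true (n false (n false (n false (n false e e) (n false e e)) (n false (n false e e) (n false e e))) (n false e e)) e) (n true (n false e e) e)) 16389 (.s (n false (n false e e) (n false e e)) 16385 .z))) (.s 39 0 (.s 81 0 (.s 123 0 (.s 158 0 .z))))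
  (.s (.s (n true (n true (n false (n false (n false (n false e e) (n false e e)) (n false (n false e e) (n false e e))) (n false e e)) e) e) 16387 (.s (n false e e) 16387 .z)) (.s 38 2 (.s 39 0 (.s 123 0 (.s 158 0 .z))))
  (.s (.s (n false (n true (n false (n false (n false (n false e e) (n false e e)) (n false (n false e e) (n false e e))) (n false e e)) e) (n true (n false e e) e)) 16389 (.s (n false e e) 16387 (.s (n false (n false e e) (n false e e)) 16385 .z))) (.s 39 0 (.s 123 0 (.s 158 0 .z)))
  (.s (.s (n false e e) 16389 (.s (n true (n true (n false (n false (n false (n false e e) (n false e e)) (n false (n false e e) (n false e e))) (n false e e)) e) e) 16385 (.s (n true (n true (n false (n false (n false (n false e e) (n false e e)) (n false (n false e e) (n false e e))) (n false e e)) e) e) 16387 (.s (n false (n false e e) (n false e e)) 16385 .z)))) .z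
  (.s (.s (n true (n true (n false (n false (n false (n false e e) (n false e e)) (n false (n false e e) (n false e e))) (n false e e)) e) e) 16387 .z) (.s 39 0 (.s 38 2 (.s 81 0 (.s 123 0 (.s 158 0 .z)))))
  (.s (.s (n false (n true (n false (n false (n false (n false e e) (n false e e)) (n false (n false e e) (n false e e))) (n false e e)) e) (n false (n true (n false e e) e) (n false e e))) 16391 (.s (n false (n true (n false e e) e) (n false e e)) 16390 (.s (n false (n false e e) e) 16388 (.s (n false (n false e e) (n false e e)) 16385 .z)))) (.s 14 7 (.s 39 0 (.s 44 13 (.s 81 14 (.s 89 14 (.s 123 0 (.s 158 0 .z)))))))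
  (.s (.s (n false (n true (n false e e) e) (n false e e)) 16391 (.s (n false (n false e e) e) 16388 (.s (n false (n true (n false e e) e) (n false e e)) 16392 (.s (n false (n false e e) e) 16390 .z)))) .z
  (.s (.s (n false (n false e e) (n false e e)) 16391 (.s (n false (n true (n false (n false (n false (n false e e) (n false e e)) (n false (n false e e) (n false e e))) (n false e e)) e) (n false (n true (n false e e) e) (n false e e))) 16390 .z)) (.s 14 7 (.s 39 0 (.s 16 13 (.s 16 14 (.s 44 13 (.s 81 0 (.s 89 14 (.s 123 0 (.s 158 0 .z)))))))))
  (.s (.s (n false (n false e e) (n false e e)) 16391 (.s (n true (n false (n true (n false e e) e) (n false e e)) e) 16404 (.s (n false (n true (n false (n false (n false (n false e e) (n false e e)) (n false (n false e e) (n false e e))) (n false e e)) e) (n true (n false e e) e)) 16387 .z))) (.s 14 7 (.s 39 0 (.s 44 13 (.s 81 0 (.s 89 14 (.s 123 0 (.s 158 0 .z)))))))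
  (.s (.s (n false (n false e e) (n false e e)) 16391 (.s (n false (n true (n false (n false (n false (n false e e) (n false e e)) (n false (n false e e) (n false e e))) (n false e e)) e) (n true (n false e e) e)) 16387 (.s (n false (n true (n false (n false (n false (n false e e) (n false e e)) (n false (n false e e) (n false e e))) (n false e e)) e) (n false (n true (n false e e) e) (n false e e))) 16390 .z))) (.s 14 7 (.s 39 0 (.s 44 13 (.s 81 0 (.s 89 14 (.s 123 0 (.s 158 0 .z)))))))
  (.s (.s (n false e e) 16397 (.s (n true (n true (n false (n false (n false (n false e e) (n false e e)) (n false (n false e e) (n false e e))) (n false e e)) e) e) 16387 (.s (n false (n false e e) (n false e e)) 16385 .z))) .z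
  (.s (.s (n false (n false e e) (n false e e)) 16385 (.s (n false (n true (n false (n false (n false (n false e e) (n false e e)) (n false (n false e e) (n false e e))) (n false e e)) e) (n true (n false e e) e)) 16389 .z)) (.s 39 0 (.s 81 0 (.s 123 0 (.s 158 0 .z))))
  (.s (.s (n false (n true (n false e e) e) (n false e e)) 16392 (.s (n false (n false e e) e) 16388 .z)) (.s 39 0 (.s 123 0 (.s 158 0 .z)))
  (.s (.s (n false e e) 16387 (.s (n true (n false e e) e) 16386 (.s (n true (n true (n false (n false (n false (n false e e) (n false e e)) (n false (n false e e) (n false e e))) (n false e e)) e) e) 16387 (.s (n false (n false e e) (n false e e)) 16385 .z)))) (.s 39 0 (.s 123 0 (.s 158 0 .z)))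
  (.s (.s (n false (n false e e) (n false e e)) 16391 (.s (n false e e) 16387 (.s (n false (n true (n false e e) e) (n false e e)) 16392 (.s (n false (n false e e) e) 16390 .z)))) .z
  (.s (.s (n true (n false e e) e) 16389 (.s (n true (n true (n false (n false (n false (n false e e) (n false e e)) (n false (n false e e) (n false e e))) (n false e e)) e) e) 16387 .z)) (.s 38 2 (.s 39 0 (.s 123 0 (.s 158 0 .z))))
  (.s (.s (n false (n true (n false (n false (n false (n false e e) (n false e e)) (n false (n false e e) (n false e e))) (n false e e)) e) (n true (n false e e) e)) 16389 (.s (n false (n false e e) e) 16388 (.s (n false (n false e e) (n false e e)) 16385 .z))) (.s 39 0 (.s 123 0 (.s 158 0 .z)))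
  (.s (.s (n false e e) 16401 (.s (n false (n true (n false e e) e) (n false e e)) 16392 .z)) .z
  (.s (.s (n false (n true (n false e e) e) (n false e e)) 16391 (.s (n false e e) 16387 (.s (n false (n false e e) (n false e e)) 16385 (.s (n false (n true (n false (n false (n false (n false e e) (n false e e)) (n false (n false e e) (n false e e))) (n false e e)) e) (n false (n true (n false e e) e) (n false e e))) 16391 .z)))) (.s 14 7 (.s 39 0 (.s 81 14 (.s 89 14 (.s 123 0 (.s 158 0 .z))))))
  (.s (.s (n false (n true (n false e e) e) (n false e e)) 16391 (.s (n false (n false e e) (n false e e)) 16391 (.s (n false (n false e e) e) 16388 .z))) (.s 14 7 (.s 39 0 (.s 89 14 (.s 123 0 (.s 158 0 .z)))))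
  (.s (.s (n false (n true (n false (n false (n false (n false e e) (n false e e)) (n false (n false e e) (n false e e))) (n false e e)) e) (n false (n true (n false e e) e) (n false e e))) 16391 (.s (n false (n false e e) (n false e e)) 16385 .z)) (.s 14 7 (.s 39 0 (.s 16 13 (.s 16 14 (.s 44 13 (.s 81 0 (.s 81 14 (.s 89 14 (.s 123 0 (.s 158 0 .z))))))))))
  (.s (.s (n false (n true (n false (n false (n false (n false e e) (n false e e)) (n false (n false e e) (n false e e))) (n false e e)) e) (n true (n false e e) e)) 16385 (.s (n false (n false e e) (n false e e)) 16391 (.s (n false (n true (n false (n false (n false (n false e e) (n false e e)) (n false (n false e e) (n false e e))) (n false e e)) e) (n false (n true (n false e e) e) (n false e e))) 16390 .z))) (.s 14 7 (.s 39 0 (.s 16 14 (.s 44 13 (.s 81 0 (.s 89 14 (.s 123 0 (.s 158 0 .z))))))))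
  (.s (.s (n true (n false e e) e) 16386 (.s (n true (n true (n false (n false (n false (n false e e) (n false e e)) (n false (n false e e) (n false e e))) (n false e e)) e) e) 16387 (.s (n false e e) 16387 .z))) (.s 38 2 (.s 39 0 (.s 123 0 (.s 158 0 .z))))
  (.s (.s (n false (n true (n false e e) e) (n false e e)) 16391 (.s (n false e e) 16389 (.s (n false (n true (n false e e) e) (n false e e)) 16392 .z))) .z
  (.s (.s (n true (n false (n true (n false e e) e) (n false e e)) e) 16405 (.s (n false (n true (n false e e) e) (n false e e)) 16392 (.s (n false e e) 16389 .z))) .z
  (.s (.s (n false (n true (n false e e) e) (n false e e)) 16391 (.s (n false (n false e e) (n false e e)) 16391 (.s (n false (n false e e) e) 16388 (.s (n false (n false e e) e) 16390 (.s (n false (n true (n false e e) e) (n false e e)) 16392 .z))))) .z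
  (.s (.s (n false e e) 16389 (.s (n false (n false e e) (n false e e)) 16391 (.s (n false (n true (n false (n false (n false (n false e e) (n false e e)) (n false (n false e e) (n false e e))) (n false e e)) e) (n false (n true (n false e e) e) (n false e e))) 16390 (.s (n false (n true (n false e e) e) (n false e e)) 16388 .z)))) (.s 14 7 (.s 16 14 (.s 44 13 (.s 89 14 .z))))
  (.s (.s (n false e e) 16397 (.s (n false (n true (n false e e) e) (n false e e)) 16392 .z)) .z
  (.s (.s (n false (n true (n false e e) e) (n false e e)) 16391 (.s (n false (n false e e) (n false e e)) 16391 (.s (n false (n false e e) e) 16390 (.s (n false (n true (n false e e) e) (n false e e)) 16392 .z)))) .z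
  (.s (.s (n true (n true (n false (n false (n false (n false e e) (n false e e)) (n false (n false e e) (n false e e))) (n false e e)) e) e) 16383 (.s (n false (n true (n false (n false (n false (n false e e) (n false e e)) (n false (n false e e) (n false e e))) (n false e e)) e) (n true (n false e e) e)) 16389 (.s (n false (n false e e) (n false e e)) 16385 .z))) (.s 39 0 (.s 81 0 (.s 123 0 (.s 158 0 .z))))
  (.s (.s (n true (n true (n false (n false (n false (n false e e) (n false e e)) (n false (n false e e) (n false e e))) (n false e e)) e) e) 16387 (.s (n false e e) 16387 .z)) (.s 39 0 (.s 38 2 (.s 123 0 (.s 158 0 .z))))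
  (.s (.s (n false (n true (n false e e) e) (n false e e)) 16391 (.s (n true (n true (n false (n false (n false (n false e e) (n false e e)) (n false (n false e e) (n false e e))) (n false e e)) e) e) 16387 (.s (n false e e) 16387 (.s (n false (n false e e) (n false e e)) 16385 .z)))) (.s 39 0 (.s 123 0 (.s 158 0 .z)))
  (.s (.s (n true (n false e e) e) 16389 (.s (n false (n false e e) (n false e e)) 16391 .z)) (.s 14 7 (.s 39 0 (.s 89 14 (.s 123 0 (.s 158 0 .z)))))
  (.s (.s (n false e e) 16389 (.s (n true (n false (n true (n false e e) e) (n false e e)) e) 16405 (.s (n true (n false (n false (n false (n false e e) (n false e e)) (n false (n false e e) (n false e e))) (n false e e)) e) 16398 (.s (n false (n false e e) (n false e e)) 16391 .z)))) (.s 16 13 (.s 16 14 (.s 44 13 (.s 89 14 .z))))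
  (.s (.s (n true (n true (n false (n false (n false (n false e e) (n false e e)) (n false (n false e e) (n false e e))) (n false e e)) e) e) 16387 (.s (n false (n false e e) e) 16388 .z)) (.s 38 2 (.s 39 0 (.s 123 0 (.s 158 0 .z))))
  (.s (.s (n true (n true (n false (n false (n false (n false e e) (n false e e)) (n false (n false e e) (n false e e))) (n false e e)) e) e) 16387 (.s (n true (n false e e) e) 16388 .z)) (.s 38 2 (.s 39 0 (.s 123 0 (.s 158 0 .z))))
  (.s (.s (n true (n false e e) e) 16389 (.s (n true (n false (n true (n false e e) e) (n false e e)) e) 16405 (.s (n false (n true (n false e e) e) (n false e e)) 16392 (.s (n false (n false e e) e) 16390 .z)))) .z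
  (.s (.s (n true (n false e e) e) 16389 (.s (n true (n true (n false (n false (n false (n false e e) (n false e e)) (n false (n false e e) (n false e e))) (n false e e)) e) e) 16387 (.s (n false (n false e e) (n false e e)) 16385 .z))) (.s 39 0 (.s 123 0 (.s 158 0 .z)))
  (.s (.s (n true (n false e e) e) 16389 (.s (n false (n true (n false (n false (n false (n false e e) (n false e e)) (n false (n false e e) (n false e e))) (n false e e)) e) (n true (n false e e) e)) 16389 .z)) (.s 38 2 (.s 39 0 (.s 123 0 (.s 158 0 .z))))
  (.s (.s (n false e e) 16387 (.s (n false (n true (n false (n false (n false (n false e e) (n false e e)) (n false (n false e e) (n false e e))) (n false e e)) e) (n true (n false e e) e)) 16389 .z)) (.s 38 2 (.s 39 0 (.s 123 0 (.s 158 0 .z))))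
  (.s (.s (n false e e) 16387 (.s (n true (n false e e) e) 16386 (.s (n true (n true (n false (n false (n false (n false e e) (n false e e)) (n false (n false e e) (n false e e))) (n false e e)) e) e) 16387 .z))) (.s 38 2 (.s 39 0 (.s 123 0 (.s 158 0 .z))))
  (.s (.s (n false e e) 16389 (.s (n false (n true (n false e e) e) (n false e e)) 16391 (.s (n false (n false e e) (n false e e)) 16391 .z))) (.s 14 7 (.s 89 14 .z))
  (.s (.s (n false (n true (n false e e) e) (n false e e)) 16390 (.s (n false (n true (n false e e) e) (n false e e)) 16392 (.s (n false (n false e e) e) 16390 .z))) .z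
  (.s (.s (n false e e) 16389 (.s (n true (n false e e) e) 16388 (.s (n true (n true (n false (n false (n false (n false e e) (n false e e)) (n false (n false e e) (n false e e))) (n false e e)) e) e) 16387 .z))) (.s 38 2 .z)
  (.s (.s (n false (n true (n false (n false (n false (n false e e) (n false e e)) (n false (n false e e) (n false e e))) (n false e e)) e) (n true (n false e e) e)) 16389 (.s (n false (n false e e) (n false e e)) 16385 .z)) (.s 123 0 (.s 158 0 (.s 39 0 (.s 81 0 .z))))
  (.s (.s (n false e e) 16399 (.s (n false (n true (n false (n false (n false (n false e e) (n false e e)) (n false (n false e e) (n false e e))) (n false e e)) e) (n true (n false e e) e)) 16389 (.s (n false (n false e e) (n false e e)) 16385 .z))) .z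
  (.s (.s (n false (n true (n false e e) e) (n false e e)) 16391 (.s (n false (n true (n false e e) e) (n false e e)) 16392 (.s (n false (n false e e) e) 16390 .z))) .z
  (.s (.s (n false (n true (n false e e) e) (n false e e)) 16392 (.s (n true (n false e e) e) 16388 (.s (n false (n false e e) e) 16390 .z))) .z
  (.s (.s (n false e e) 16389 (.s (n false (n false e e) (n false e e)) 16385 (.s (n false (n true (n false e e) e) (n false e e)) 16392 .z))) .z
  (.s (.s (n false e e) 16389 (.s (n false (n false e e) (n false e e)) 16391 (.s (n false (n true (n false (n false (n false (n false e e) (n false e e)) (n false (n false e e) (n false e e))) (n false e e)) e) (n false (n true (n false e e) e) (n false e e))) 16390 .z))) (.s 14 7 (.s 16 13 (.s 16 14 (.s 44 13 (.s 89 14 .z)))))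
  (.s (.s (n false e e) 16389 (.s (n false (n false e e) (n false e e)) 16385 (.s (n true (n true (n false (n false (n false (n false e e) (n false e e)) (n false (n false e e) (n false e e))) (n false e e)) e) e) 16387 .z))) .z
  .z)))))))))))))))))))))))))))))))))))))))))))))))))))))))))))))))))))))))))))))))))))))))))))))))))))))))

set_option maxRecDepth 100000 in
def A43 : AE :=
 (.s 4094 4100 (.s 39 1 (.s 20 7 (.s 48 1 (.s 48 0 (.s 72 1 (.s 75 1 (.s 123 1 (.s 158 1 .z))))))))
 (.s 0x70 4102 (n true (n false e e) e) (.s 0x8 4101 (n false e e) .z .z) .z)
 (.s (.s (n true (n true (n false (n true (n false e e) e) (n false e e)) e) e) 16391 .z) (.s 39 1 (.s 20 7 (.s 48 1 (.s 48 0 (.s 75 1 (.s 123 1 (.s 158 1 .z)))))))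
  (.s (.s (n true (n true (n false (n true (n false e e) e) (n false e e)) e) e) 16391 .z) (.s 48 1 (.s 48 0 (.s 39 1 (.s 20 7 (.s 75 1 (.s 123 1 (.s 158 1 .z)))))))
  (.s (.s (n true (n true (n false (n false (n false (n false e e) (n false e e)) (n false (n false e e) (n false e e))) (n false e e)) e) e) 16384 .z) (.s 39 1 (.s 20 7 (.s 48 1 (.s 48 0 (.s 75 1 (.s 123 1 (.s 158 1 .z)))))))
  (.s (.s (n false (n false e e) e) 16388 (.s (n false (n true (n false e e) e) (n false e e)) 16390 (.s (n true (n true (n false (n true (n false e e) e) (n false e e)) e) e) 16391 .z))) (.s 39 1 (.s 48 1 (.s 75 1 (.s 123 1 (.s 158 1 .z)))))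
  (.s (.s (n false (n false e e) e) 16388 (.s (n false (n true (n false e e) e) (n false e e)) 16390 (.s (n true (n true (n false (n true (n false e e) e) (n false e e)) e) e) 16391 .z))) (.s 48 1 (.s 39 1 (.s 75 1 (.s 123 1 (.s 158 1 .z)))))
  (.s (.s (n true (n true (n false (n true (n false e e) e) (n false e e)) e) e) 16391 .z) (.s 48 1 (.s 39 1 (.s 20 7 (.s 48 0 (.s 75 1 (.s 123 1 (.s 158 1 .z)))))))
  (.s (.s (n true (n true (n false (n true (n false e e) e) (n false e e)) e) e) 16391 .z) (.s 48 1 (.s 75 1 (.s 39 1 (.s 20 7 (.s 48 0 (.s 123 1 (.s 158 1 .z)))))))
  (.s (.s (n false (n false e e) e) 16388 (.s (n false (n true (n false e e) e) (n false e e)) 16390 (.s (n true (n true (n false (n true (n false e e) e) (n false e e)) e) e) 16391 .z))) (.s 39 1 (.s 75 1 (.s 123 1 (.s 158 1 (.s 48 1 .z)))))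
  (.s (.s (n true (n true (n false (n true (n false e e) e) (n false e e)) e) e) 16391 .z) (.s 39 1 (.s 48 1 (.s 75 1 (.s 123 1 (.s 158 1 (.s 20 7 (.s 48 0 .z)))))))
  (.s (.s (n true (n true (n false (n true (n false e e) e) (n false e e)) e) e) 16391 .z) (.s 75 1 (.s 39 1 (.s 20 7 (.s 48 1 (.s 48 0 (.s 123 1 (.s 158 1 .z)))))))
  (.s (.s (n true (n false (n true (n false e e) e) (n false e e)) e) 16402 (.s (n true (n false (n false (n false (n false e e) (n false e e)) (n false (n false e e) (n false e e))) (n false e e)) e) 16384 .z)) (.s 39 1 (.s 48 1 (.s 48 0 (.s 75 1 (.s 123 1 (.s 158 1 .z))))))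
  (.s (.s (n false e e) 16386 .z) (.s 39 1 (.s 20 7 (.s 48 0 (.s 123 1 (.s 158 1 .z)))))
  (.s (.s (n true (n false e e) e) 16386 (.s (n true (n true (n false (n false (n false (n false e e) (n false e e)) (n false (n false e e) (n false e e))) (n false e e)) e) e) 16384 (.s (n false (n false e e) e) 16388 (.s (n false (n true (n false e e) e) (n false e e)) 16390 .z)))) (.s 39 1 (.s 75 1 (.s 123 1 (.s 158 1 .z))))
  (.s (.s (n false e e) 16385 (.s (n true (n true (n false (n true (n false e e) e) (n false e e)) e) e) 16391 .z)) (.s 39 1 (.s 20 7 (.s 48 0 (.s 75 1 (.s 123 1 (.s 158 1 .z))))))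
  (.s (.s (n true (n true (n false (n true (n false e e) e) (n false e e)) e) e) 16391 (.s (n false (n false e e) e) 16388 (.s (n false (n true (n false e e) e) (n false e e)) 16390 .z))) (.s 39 1 (.s 48 1 (.s 75 1 (.s 123 1 (.s 158 1 .z)))))
  (.s (.s (n true (n true (n false (n true (n false e e) e) (n false e e)) e) e) 16391 (.s (n false (n false e e) e) 16388 (.s (n false (n true (n false e e) e) (n false e e)) 16390 .z))) (.s 123 1 (.s 39 1 (.s 48 1 (.s 75 1 (.s 158 1 .z)))))
  (.s (.s (n true (n true (n false (n true (n false e e) e) (n false e e)) e) e) 16391 (.s (n true (n false e e) e) 16387 .z)) (.s 39 1 (.s 20 7 (.s 48 0 (.s 123 1 (.s 158 1 .z)))))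
  (.s (.s (n false (n false e e) e) 16388 (.s (n true (n true (n false (n true (n false e e) e) (n false e e)) e) e) 16391 (.s (n false (n true (n false e e) e) (n false e e)) 16390 .z))) (.s 39 1 (.s 48 1 (.s 75 1 (.s 123 1 (.s 158 1 .z)))))
  (.s (.s (n false e e) 16385 (.s (n false (n false e e) e) 16388 (.s (n false (n true (n false e e) e) (n false e e)) 16390 (.s (n true (n true (n false (n true (n false e e) e) (n false e e)) e) e) 16391 .z)))) (.s 39 1 (.s 75 1 (.s 123 1 (.s 158 1 .z))))
  (.s (.s (n false (n false e e) e) 16388 (.s (n false (n true (n false e e) e) (n false e e)) 16390 (.s (n true (n true (n false (n true (n false e e) e) (n false e e)) e) e) 16391 (.s (n false e e) 16385 .z)))) (.s 39 1 (.s 75 1 (.s 123 1 (.s 158 1 .z))))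
  (.s (.s (n false e e) 16386 .z) (.s 39 1 (.s 123 1 (.s 158 1 (.s 20 7 (.s 48 0 .z)))))
  (.s (.s (n false e e) 16385 (.s (n true (n true (n false (n false (n false (n false e e) (n false e e)) (n false (n false e e) (n false e e))) (n false e e)) e) e) 16384 .z)) (.s 39 1 (.s 20 7 (.s 48 0 (.s 75 1 (.s 123 1 (.s 158 1 .z))))))
  (.s (.s (n true (n true (n false (n true (n false e e) e) (n false e e)) e) e) 16391 .z) (.s 75 1 (.s 123 1 (.s 158 1 (.s 39 1 (.s 20 7 (.s 48 1 (.s 48 0 .z)))))))
  (.s (.s (n true (n false e e) e) 16387 .z) (.s 39 1 (.s 20 7 (.s 48 0 (.s 123 1 (.s 158 1 .z)))))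
  (.s (.s (n true (n false (n true (n false e e) e) (n false e e)) e) 16402 .z) (.s 39 1 (.s 20 7 (.s 48 1 (.s 48 0 (.s 75 1 (.s 123 1 (.s 158 1 .z)))))))
  (.s (.s (n true (n false e e) e) 16386 (.s (n true (n true (n false (n true (n false e e) e) (n false e e)) e) e) 16391 .z)) (.s 39 1 (.s 20 7 (.s 48 0 (.s 75 1 (.s 123 1 (.s 158 1 .z))))))
  (.s (.s (n true (n true (n false (n true (n false e e) e) (n false e e)) e) e) 16391 (.s (n true (n false (n false (n false (n false e e) (n false e e)) (n false (n false e e) (n false e e))) (n false e e)) e) 16384 .z)) (.s 39 1 (.s 48 1 (.s 48 0 (.s 75 1 (.s 123 1 (.s 158 1 .z))))))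
  (.s (.s (n false (n true (n false e e) e) (n false e e)) 16390 (.s (n false (n false e e) e) 16388 (.s (n true (n true (n false (n true (n false e e) e) (n false e e)) e) e) 16391 .z))) (.s 39 1 (.s 48 1 (.s 75 1 (.s 123 1 (.s 158 1 .z)))))
  (.s (.s (n true (n true (n false (n true (n false e e) e) (n false e e)) e) e) 16391 (.s (n true (n false e e) e) 16386 .z)) (.s 39 1 (.s 20 7 (.s 48 0 (.s 75 1 (.s 123 1 (.s 158 1 .z))))))
  (.s (.s (n false e e) 16385 (.s (n true (n true (n false (n true (n false e e) e) (n false e e)) e) e) 16391 .z)) (.s 48 0 (.s 75 1 (.s 39 1 (.s 20 7 (.s 123 1 (.s 158 1 .z))))))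
  (.s (.s (n false (n false e e) e) 16388 (.s (n false (n true (n false e e) e) (n false e e)) 16390 (.s (n true (n false e e) e) 16387 .z))) (.s 39 1 (.s 123 1 (.s 158 1 .z)))
  (.s (.s (n true (n false e e) e) 16387 (.s (n false (n false e e) e) 16388 (.s (n false (n true (n false e e) e) (n false e e)) 16390 .z))) (.s 39 1 (.s 123 1 (.s 158 1 .z)))
  (.s (.s (n false e e) 16386 (.s (n true (n false (n false (n false (n false e e) (n false e e)) (n false (n false e e) (n false e e))) (n false e e)) e) 16384 .z)) (.s 39 1 (.s 48 0 (.s 123 1 (.s 158 1 .z))))
  .z))))))))))))))))))))))))))))))))))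

set_option maxRecDepth 100000 in
def A44 : AE :=
 (.s 4094 4105 (.s 14 13 .z)
 (.s 0x3ea88a220 4110 (n true (n true (n false (n false (n false (n false e e) (n false e e)) (n false (n false e e) (n false e e))) (n false e e)) e) e) (.s 0x288 4102 (n false (n false e e) (n false e e)) (.s 0x70 4113 (n true (n false e e) e) .z .z) .z) (.s 0x1754451108 4099 (n false (n true (n false (n false (n false (n false e e) (n false e e)) (n false (n false e e) (n false e e))) (n false e e)) e) (n false e e)) .z .z))
 (.s .z (.s 14 13 .z)
  .z))

set_option maxRecDepth 100000 in
def A45 : AE :=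
 (.s 4096 4105 (.s 14 14 (.s 39 2 (.s 87 13 .z)))
 (.s 0x288 4102 (n false (n false e e) (n false e e)) (.s 0x70 4113 (n true (n false e e) e) .z .z) .z)
 (.s (.s (n true (n false e e) e) 16389 (.s (n false (n true (n false (n false (n false (n false e e) (n false e e)) (n false (n false e e) (n false e e))) (n false e e)) e) (n true (n false (n false (n false (n false e e) (n false e e)) (n false (n false e e) (n false e e))) (n false e e)) e)) 16384 .z)) .z
  (.s (.s (n false (n true (n false (n false (n false (n false e e) (n false e e)) (n false (n false e e) (n false e e))) (n false e e)) e) (n true (n false (n false (n false (n false e e) (n false e e)) (n false (n false e e) (n false e e))) (n false e e)) e)) 16384 .z) (.s 39 2 (.s 87 13 .z))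
  (.s (.s (n true (n false e e) e) 16389 (.s (n false (n true (n false (n false (n false (n false e e) (n false e e)) (n false (n false e e) (n false e e))) (n false e e)) e) (n false e e)) 16387 .z)) .z
  (.s (.s (n false (n true (n false (n false (n false (n false e e) (n false e e)) (n false (n false e e) (n false e e))) (n false e e)) e) (n true (n false (n false (n false (n false e e) (n false e e)) (n false (n false e e) (n false e e))) (n false e e)) e)) 16384 (.s (n true (n false e e) e) 16389 .z)) .z
  (.s (.s (n false (n true (n false (n false (n false (n false e e) (n false e e)) (n false (n false e e) (n false e e))) (n false e e)) e) (n false e e)) 16387 .z) (.s 39 2 .z)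
  (.s (.s (n true (n true (n false (n false (n false (n false e e) (n false e e)) (n false (n false e e) (n false e e))) (n false e e)) e) e) 16385 (.s (n false (n true (n false (n false (n false (n false e e) (n false e e)) (n false (n false e e) (n false e e))) (n false e e)) e) (n true (n false (n false (n false (n false e e) (n false e e)) (n false (n false e e) (n false e e))) (n false e e)) e)) 16384 .z)) (.s 39 2 .z)
  (.s (.s (n false (n true (n false (n false (n false (n false e e) (n false e e)) (n false (n false e e) (n false e e))) (n false e e)) e) (n false e e)) 16387 (.s (n true (n false e e) e) 16389 .z)) .z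
  (.s (.s (n true (n false e e) e) 16389 (.s (n true (n true (n false (n false (n false (n false e e) (n false e e)) (n false (n false e e) (n false e e))) (n false e e)) e) e) 16398 .z)) .z
  (.s (.s (n false (n true (n false (n false (n false (n false e e) (n false e e)) (n false (n false e e) (n false e e))) (n false e e)) e) (n false e e)) 16386 (.s (n false (n true (n false (n false (n false (n false e e) (n false e e)) (n false (n false e e) (n false e e))) (n false e e)) e) (n true (n false (n false (n false (n false e e) (n false e e)) (n false (n false e e) (n false e e))) (n false e e)) e)) 16384 .z)) (.s 39 2 .z)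
  (.s (.s (n true (n false e e) e) 16388 (.s (n false (n true (n false (n false (n false (n false e e) (n false e e)) (n false (n false e e) (n false e e))) (n false e e)) e) (n true (n false (n false (n false (n false e e) (n false e e)) (n false (n false e e) (n false e e))) (n false e e)) e)) 16384 .z)) (.s 39 2 .z)
  (.s (.s (n false (n true (n false (n false (n false (n false e e) (n false e e)) (n false (n false e e) (n false e e))) (n false e e)) e) (n false e e)) 16386 (.s (n true (n false e e) e) 16389 (.s (n false (n true (n false (n false (n false (n false e e) (n false e e)) (n false (n false e e) (n false e e))) (n false e e)) e) (n true (n false (n false (n false (n false e e) (n false e e)) (n false (n false e e) (n false e e))) (n false e e)) e)) 16384 .z))) .z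
  (.s (.s (n false (n false e e) (n false e e)) 16389 (.s (n true (n false e e) e) 16389 (.s (n false (n true (n false (n false (n false (n false e e) (n false e e)) (n false (n false e e) (n false e e))) (n false e e)) e) (n true (n false (n false (n false (n false e e) (n false e e)) (n false (n false e e) (n false e e))) (n false e e)) e)) 16384 .z))) .z
  (.s (.s (n false (n false e e) (n false e e)) 16389 (.s (n false (n true (n false (n false (n false (n false e e) (n false e e)) (n false (n false e e) (n false e e))) (n false e e)) e) (n true (n false (n false (n false (n false e e) (n false e e)) (n false (n false e e) (n false e e))) (n false e e)) e)) 16384 .z)) (.s 39 2 .z)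
  (.s (.s (n true (n false e e) e) 16388 (.s (n false (n true (n false (n false (n false (n false e e) (n false e e)) (n false (n false e e) (n false e e))) (n false e e)) e) (n false e e)) 16387 .z)) (.s 39 2 .z)
  (.s (.s (n false (n false e e) (n false e e)) 16389 (.s (n false (n true (n false (n false (n false (n false e e) (n false e e)) (n false (n false e e) (n false e e))) (n false e e)) e) (n false e e)) 16387 .z)) (.s 39 2 .z)
  .z))))))))))))))))

end Pool.Agent.Helper91.ND1
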