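import Pool.Agent.Helper66.ND.Defs

/-! part of the certificate for the constant 25/48 (generated) -/

namespace Pool.Agent.Helper91.ND1

open Pool.Agent.Helper66.IL
open Pool.Agent.Helper66.ND
open Pool.Agent.Helper66.ND.LT
open Pool.Agent.Helper66.ND.Ct

set_option maxRecDepth 100000 in
def N0 : NT :=
(.s 0x12afe00 4096 (z 56) (u 1 0 (k r (k (c 2 4096 r (u 3 0 (k v (k v r)))) (k (u 2 0 (k v (k v r))) (k (c 3 4096 r r) r)))))
 (.s 0x12abf00 4097 (z 112) (u 1 0 (k r (k (c 3 4099 r r) r)))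
 (.s 0x12aaf00 4095 (z 96) (u 1 0 (k (c 3 4099 r (u 2 0 (k (t 6 2 r) r))) r))
 (.s 0x12aab00 4099 (z 64) (u 1 0 (k (t 3 1 (u 2 2 (k v (k r r)))) r))
 (.s 0x12aaa00 4119 (z 0) (t 1 1 v)
 .z .z) (.s 0x12aae00 4096 (z 32) (u 1 0 (k (t 2 3 (t 3 1 v)) r))
 .z .z)) (.s 0x12abb00 4101 (z 80) (t 1 2 v)
 (.s 0x12aba00 4108 (z 16) (t 1 2 v)
 .z .z) (.s 0x12abe00 4098 (z 48) (t 1 1 v)
 .z .z))) (.s 0x12aef00 4104 (z 104) (t 1 2 v)
 (.s 0x12aeb00 4099 (z 72) (u 1 0 (k (t 3 1 r) r))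
 (.s 0x12aea00 4099 (z 8) (t 1 2 v)
 .z .z) (.s 0x12aee00 4095 (z 40) (t 1 4 v)
 .z .z)) (.s 0x12afb00 4095 (z 88) (u 1 0 (k (t 3 3 r) r))
 (.s 0x12afa00 4098 (z 24) (u 1 0 (k (t 2 3 (t 3 1 v)) r))
 .z .z) .z))) (.s 0x12bbb00 4100 (z 84) (t 1 1 v)
 (.s 0x12bae00 4102 (z 36) (t 1 1 v)
 (.s 0x12baa00 4100 (z 4) (t 1 1 v)
 (.s 0x12aff00 4101 (z 120) (t 1 1 v)
 .z .z) (.s 0x12bab00 4099 (z 68) (u 1 0 (k (t 3 3 r) r))
 .z .z)) (.s 0x12bba00 4099 (z 20) (t 1 3 v)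
 (.s 0x12baf00 4100 (z 100) (t 1 1 v)
 .z .z) .z)) (.s 0x12beb00 4101 (z 76) (t 1 2 v)
 (.s 0x12bbf00 4102 (z 116) (t 1 2 v)
 (.s 0x12bbe00 4097 (z 52) (u 1 0 (k v (k v (k v (k (t 3 3 (u 2 1 (k v (k v (k v r))))) (k (t 3 3 (u 2 0 (k (u 4 2 (k v (k (c 2 4084 (u 4 1 (k v (k v r))) v) r))) r))) r))))))
 .z .z) (.s 0x12bea00 4110 (z 12) (t 1 3 v)
 .z .z)) (.s 0x12bef00 4104 (z 108) (t 1 2 v)
 (.s 0x12bee00 4105 (z 44) (u 1 0 (k (t 2 3 (t 3 3 v)) r))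
 .z .z) .z))))

set_option maxRecDepth 100000 in
def N1 : NT :=
(.s 0x12eef00 4104 (z 106) (t 1 2 v)
 (.s 0x12eba00 4096 (z 18) (u 1 0 (k (u 2 0 (k v (k v r))) r))
 (.s 0x12eaa00 4101 (z 2) (t 1 1 v)
 (.s 0x12bfe00 4095 (z 60) (t 1 1 v)
 (.s 0x12bfb00 4097 (z 92) (t 1 1 v)
 .z .z) (.s 0x12bff00 4099 (z 124) (u 1 0 (k v (k v (k (c 3 4097 r (u 2 0 (k v (k v r)))) (k (c 3 4096 r (u 2 0 (k v (k v r)))) (k (c 3 4097 r (u 2 0 (k v (k v r)))) (k (c 3 4099 r (u 2 0 (k v (k v r)))) r)))))))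
 .z .z)) (.s 0x12eae00 4102 (z 34) (t 1 2 v)
 (.s 0x12eab00 4098 (z 66) (t 1 4 v)
 .z .z) (.s 0x12eaf00 4095 (z 98) (t 1 1 v)
 .z .z))) (.s 0x12eea00 4098 (z 10) (t 1 2 v)
 (.s 0x12ebe00 4097 (z 50) (u 1 0 (k v (k (c 3 4097 r (u 2 0 (k v (k v r)))) r)))
 (.s 0x12ebb00 4100 (z 82) (t 1 2 v)
 .z .z) (.s 0x12ebf00 4096 (z 114) (u 1 0 (k (t 3 3 r) r))
 .z .z)) (.s 0x12eee00 4100 (z 42) (t 1 1 v)
 (.s 0x12eeb00 4101 (z 74) (t 1 1 v)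
 .z .z) .z))) (.s 0x12fae00 4095 (z 38) (u 1 0 (k (t 2 3 (t 3 1 v)) r))
 (.s 0x12eff00 4097 (z 122) (u 1 0 (k (t 3 3 r) (k (t 3 3 r) r)))
 (.s 0x12efb00 4098 (z 90) (t 1 1 v)
 (.s 0x12efa00 4097 (z 26) (u 1 0 (k v (k v (k (u 2 0 (k v (k v r))) r))))
 .z .z) (.s 0x12efe00 4095 (z 58) (t 1 5 v)
 .z .z)) (.s 0x12fab00 4102 (z 70) (t 1 2 v)
 (.s 0x12faa00 4099 (z 6) (t 1 2 v)
 .z .z) .z)) (.s 0x12fbe00 4097 (z 54) (t 1 3 v)
 (.s 0x12fba00 4104 (z 22) (t 1 1 v)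
 (.s 0x12faf00 4099 (z 102) (u 1 0 (k (u 2 1 (k (c 3 4101 r v) (k (u 3 1 (k v (k v r))) r))) (k r (k (t 2 2 (u 3 1 (k v (k v r)))) (k r (k r (k r (k r (k (t 3 2 r) r)))))))))
 .z .z) (.s 0x12fbb00 4099 (z 86) (t 1 2 v)
 .z .z)) (.s 0x12fea00 4097 (z 14) (t 1 1 v)
 (.s 0x12fbf00 4102 (z 118) (t 1 2 v)
 .z .z) .z))))

set_option maxRecDepth 100000 in
def N2 : NT :=
(.s 0x13aea00 4098 (z 9) (t 1 2 v)
 (.s 0x13aab00 4096 (z 65) (t 1 2 v)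
 (.s 0x12ffb00 4096 (z 94) (t 1 1 v)
 (.s 0x12fef00 4100 (z 110) (u 1 0 (k (u 3 1 (k (u 2 0 (k v (k v r))) (k r r))) r))
 (.s 0x12fee00 4099 (z 46) (u 1 0 (k v (k (u 2 0 (k v (k v r))) (k (u 2 0 (k v (k v r))) (k (c 3 4099 r (u 2 0 (k v (k v r)))) (k (c 3 4097 r (u 2 0 (k v (k v r)))) (k (c 2 4095 r (u 3 0 (k v (k v r)))) r)))))))
 .z .z) (.s 0x12ffa00 4096 (z 30) (t 1 3 v)
 .z .z)) (.s 0x12fff00 4099 (z 126) (t 1 2 v)
 (.s 0x12ffe00 4095 (z 62) (t 1 1 v)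
 .z .z) (.s 0x13aaa00 4117 (z 1) (t 1 2 v)
 .z .z))) (.s 0x13abb00 4097 (z 81) (u 1 0 (k (t 3 3 r) r))
 (.s 0x13aaf00 4095 (z 97) (u 1 0 (k (t 3 1 (u 2 0 (k v (k v r)))) r))
 (.s 0x13aae00 4102 (z 33) (t 1 4 v)
 .z .z) (.s 0x13aba00 4108 (z 17) (t 1 2 v)
 .z .z)) (.s 0x13abf00 4100 (z 113) (u 1 0 (k v (k (t 3 1 (u 2 2 (k v (k (u 4 1 (k v (k (c 12 4099 r (u 8 1 (k v (k v r)))) (k (u 8 0 (k v (k v r))) (k (c 8 4099 r (u 12 1 (k v (k v r)))) (k (c 8 4099 r (u 12 1 (k v (k v r)))) (k (c 8 4099 r (u 12 1 (k v (k v r)))) r))))))) (k (c 4 4100 r (u 6 0 (k (u 10 0 (k v (k v r))) r))) r))))) (k (u 2 1 (k r (k r r))) r))))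
 (.s 0x13abe00 4098 (z 49) (t 1 2 v)
 .z .z) .z))) (.s 0x13aff00 4101 (z 121) (u 1 0 (k v (k v (k (c 3 4099 r (u 2 0 (k v (k v r)))) r))))
 (.s 0x13afa00 4097 (z 25) (t 1 3 v)
 (.s 0x13aee00 4100 (z 41) (t 1 2 v)
 (.s 0x13aeb00 4102 (z 73) (t 1 1 v)
 .z .z) (.s 0x13aef00 4104 (z 105) (t 1 4 v)
 .z .z)) (.s 0x13afe00 4095 (z 57) (u 1 0 (k v (k (t 2 3 (t 3 3 v)) (k (t 3 1 (u 2 0 (k v (k v r)))) r))))
 (.s 0x13afb00 4098 (z 89) (t 1 1 v)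
 .z .z) .z)) (.s 0x13baf00 4097 (z 101) (u 1 0 (k (t 3 3 (u 2 0 (k (t 6 1 (u 4 0 (k v (k v (k (c 2 4087 r v) r))))) r))) r))
 (.s 0x13bab00 4099 (z 69) (u 1 0 (k v (k v (k (t 3 3 r) (k (t 3 3 r) r)))))
 (.s 0x13baa00 4099 (z 5) (t 1 2 v)
 .z .z) (.s 0x13bae00 4101 (z 37) (u 1 0 (k v (k (u 2 0 (k (t 4 3 (t 6 1 v)) r)) (k (u 2 0 (k (t 4 3 (t 6 1 v)) r)) (k r (k r (k r r)))))))
 .z .z)) (.s 0x13bbb00 4099 (z 85) (u 1 1 (k v (k r (k (c 3 4099 r r) (k (c 3 4099 r r) (k (c 3 4099 r r) (k (c 3 4096 r r) r)))))))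
 (.s 0x13bba00 4104 (z 21) (t 1 2 v)
 .z .z) .z))))

set_option maxRecDepth 100000 in
def N3 : NT :=
(.s 0x13ebb00 4100 (z 83) (t 1 2 v)
 (.s 0x13bfe00 4095 (z 61) (t 1 2 v)
 (.s 0x13bee00 4105 (z 45) (u 1 0 (k v (k v r)))
 (.s 0x13bea00 4098 (z 13) (t 1 2 v)
 (.s 0x13bbf00 4102 (z 117) (t 1 4 v)
 .z .z) (.s 0x13beb00 4095 (z 77) (u 1 0 (k (t 3 1 (u 2 1 (k v (k (t 6 1 (u 4 1 (k v (k v r)))) (k (t 6 2 r) r))))) (k r (k (t 3 1 (u 2 0 (k (t 6 1 (u 4 1 (k v (k (c 12 4099 r (u 8 1 (k v (k v r)))) (k (c 8 4097 r r) (k (c 8 4095 r (c 3 4099 v r)) (k (c 8 4095 r (c 3 4099 v r)) r))))))) (k (c 3 4099 v (t 6 1 r)) (k (t 6 2 (c 3 4099 v r)) (k (t 6 2 (c 3 4099 v r)) r)))))) (k r r)))))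
 .z .z)) (.s 0x13bfa00 4097 (z 29) (u 1 0 (k (u 2 0 (k (t 4 3 (t 6 1 v)) r)) r))
 (.s 0x13bef00 4097 (z 109) (u 1 0 (k (u 3 1 (k r (k r r))) r))
 .z .z) (.s 0x13bfb00 4096 (z 93) (t 1 2 v)
 .z .z))) (.s 0x13eae00 4096 (z 35) (t 1 1 v)
 (.s 0x13eaa00 4100 (z 3) (t 1 3 v)
 (.s 0x13bff00 4096 (z 125) (u 1 0 (k (t 3 3 r) (k (t 3 3 r) r)))
 .z .z) (.s 0x13eab00 4103 (z 67) (t 1 1 v)
 .z .z)) (.s 0x13eba00 4095 (z 19) (t 1 1 v)
 (.s 0x13eaf00 4100 (z 99) (t 1 2 v)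
 .z .z) .z))) (.s 0x13efa00 4097 (z 27) (t 1 1 v)
 (.s 0x13eeb00 4101 (z 75) (t 1 1 v)
 (.s 0x13ebf00 4096 (z 115) (t 1 2 v)
 (.s 0x13ebe00 4097 (z 51) (t 1 1 v)
 .z .z) (.s 0x13eea00 4110 (z 11) (t 1 3 v)
 .z .z)) (.s 0x13eef00 4104 (z 107) (t 1 1 v)
 (.s 0x13eee00 4100 (z 43) (t 1 1 v)
 .z .z) .z)) (.s 0x13faa00 4099 (z 7) (t 1 2 v)
 (.s 0x13efe00 4098 (z 59) (u 1 0 (k (t 3 1 (u 2 3 (k v (k v (k v r))))) r))
 (.s 0x13efb00 4098 (z 91) (u 1 0 (k v (k v (k (u 2 0 (k v (k v r))) (k (c 2 4097 r (u 3 0 (k v (k v r)))) (k (c 2 4095 r (u 3 0 (k v (k v r)))) r))))))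
 .z .z) (.s 0x13eff00 4100 (z 123) (u 1 0 (k v (k v (k (c 3 4099 r r) r))))
 .z .z)) (.s 0x13fae00 4095 (z 39) (t 1 2 v)
 (.s 0x13fab00 4102 (z 71) (u 1 0 (k v (k (c 3 4099 r (u 2 0 (k v (k v r)))) r)))
 .z .z) .z))))

set_option maxRecDepth 100000 in
def N4 : NT :=
(.s 0x955d400 4095 (z 144) (u 1 0 (k (t 3 3 r) r))
 (.s 0x13fef00 4100 (z 111) (u 1 0 (k v (k (t 3 3 r) (k r (k (u 2 1 (k (u 3 1 (k v (k v r))) (k (c 6 4097 r r) r))) (k r r))))))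
 (.s 0x13fbf00 4101 (z 119) (t 1 1 v)
 (.s 0x13fbb00 4099 (z 87) (t 1 1 v)
 (.s 0x13fba00 4098 (z 23) (t 1 3 v)
 .z .z) (.s 0x13fbe00 4096 (z 55) (t 1 1 v)
 .z .z)) (.s 0x13feb00 4101 (z 79) (t 1 1 v)
 (.s 0x13fea00 4097 (z 15) (t 1 1 v)
 .z .z) (.s 0x13fee00 4098 (z 47) (t 1 1 v)
 .z .z))) (.s 0x13fff00 4099 (z 127) (t 1 1 v)
 (.s 0x13ffb00 4095 (z 95) (u 1 0 (k (u 3 2 (k r (k (c 2 4101 r (u 5 1 (k v (k v r)))) r))) (k (u 3 2 (k r (k (c 2 4101 r (u 5 1 (k v (k v r)))) r))) (k (u 3 2 (k r (k (c 2 4101 r (u 5 1 (k v (k v r)))) r))) r))))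
 (.s 0x13ffa00 4102 (z 31) (t 1 4 v)
 .z .z) (.s 0x13ffe00 4096 (z 63) (u 1 0 (k (t 3 3 (u 2 1 (k v (k v r)))) r))
 .z .z)) (.s 0x9557400 4099 (z 160) (u 1 0 (k v (k (t 3 3 r) (k r (k r (k r (k r (k r (k (u 3 1 (k r (k (c 7 4097 r r) r))) (k (u 2 0 (k r (k r (k (c 3 4101 r (t 6 1 r)) r)))) r))))))))))
 (.s 0x9555400 4097 (z 128) (u 1 0 (k v (k v (k (c 3 4097 r r) (k (c 3 4099 r (u 2 0 (k (t 6 2 (u 4 0 (k (c 12 4099 r r) r))) r))) (k (c 2 4095 r r) (k (c 2 4095 r (u 3 0 (k v (k v r)))) (k (c 3 4095 r (u 2 0 (k v (k v r)))) (k (c 2 4095 r r) (k (c 2 4095 r (u 3 0 (k v (k v r)))) r))))))))))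
 .z .z) .z))) (.s 0x95fd400 4101 (z 156) (u 1 0 (k v (k (c 3 4099 r (u 2 0 (k v (k v r)))) r)))
 (.s 0x95d7400 4096 (z 164) (u 1 0 (k (u 3 0 (k (t 7 1 (u 2 1 (k (u 5 0 (k v (k v r))) (k (c 6 4099 r r) (k (c 4 4098 r r) (k (c 4 4097 r r) (k (c 4 4099 r r) (k (c 4 4095 r r) r)))))))) r)) r))
 (.s 0x957d400 4095 (z 152) (u 1 0 (k r (k r (k r (k r r)))))
 (.s 0x9575400 4100 (z 136) (u 1 0 (k r (k r (k (t 2 2 r) (k r (k r (k r (k r (k (u 3 10 (k r (k r (k r (k (c 7 4099 r (u 5 1 (k r (k r r)))) r))))) r)))))))))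
 .z .z) (.s 0x95d5400 4096 (z 132) (t 1 2 v)
 .z .z)) (.s 0x95f5400 4096 (z 140) (u 1 0 (k (t 3 3 r) r))
 (.s 0x95dd400 4099 (z 148) (u 1 0 (k v (k (t 3 3 r) (k r (k r (k (t 3 3 r) (k (t 3 2 r) (k (t 3 2 r) (k (u 2 0 (k (c 3 4099 r v) (k r (k r (k (c 4 4099 r r) r))))) (k (u 3 1 (k (c 2 4097 r v) (k r r))) r))))))))))
 .z .z) .z)) (.s 0x9775400 4097 (z 138) (u 1 0 (k (u 3 0 (k (t 5 3 (t 7 1 (u 2 0 (k v (k (u 4 1 (k v (k (c 12 4099 r (u 8 1 (k v (k v r)))) (k (u 8 0 (k v (k v r))) (k (c 8 4099 r (u 12 1 (k v (k v r)))) (k (c 8 4099 r (u 12 1 (k v (k v r)))) (k (c 8 4099 r (u 12 1 (k v (k v r)))) r))))))) r))))) r)) r))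
 (.s 0x9757400 4096 (z 162) (u 1 0 (k (u 3 0 (k (t 7 1 (u 2 2 (k (u 5 0 (k v (k v r))) (k r (k (c 6 4099 r r) (k (c 4 4095 r r) (k (c 4 4095 r r) r))))))) r)) r))
 (.s 0x9755400 4097 (z 130) (t 1 2 v)
 .z .z) (.s 0x975d400 4096 (z 146) (u 1 0 (k (u 3 1 (k (c 2 4098 r v) (k (u 2 11 (k v (k r (k r (k (c 6 4099 r r) (k r (k (t 6 3 (u 4 0 (k v (k v r)))) (k (c 3 4101 v (t 4 1 r)) (k (c 3 4101 v (t 6 2 r)) r))))))))) r))) (k (u 2 10 (k r (k r (k r (k (c 6 4099 r (u 4 1 (k r (k r r)))) r))))) (k (u 2 3 (k r (k (u 3 12 (k v (k v r))) (k (c 6 4099 r (u 4 1 (k r (k r r)))) r)))) r))))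
 .z .z)) (.s 0x97d5400 4095 (z 134) (u 1 0 (k (u 3 0 (k (t 5 3 (t 7 1 (u 2 9 (k v (k v (k r (k r r))))))) r)) r))
 (.s 0x977d400 4098 (z 154) (u 1 0 (k r (k (t 3 2 r) (k (u 3 0 (k (u 5 0 (k r (k r r))) r)) (k r r)))))
 .z .z) .z))))

set_option maxRecDepth 100000 in
def N5 : NT :=
(.s 0x9f57400 4100 (z 163) (u 1 0 (k (u 2 2 (k r (k (c 6 4099 r (u 4 1 (k r (k r r)))) (k (c 4 4095 r r) r)))) (k (u 3 0 (k (u 2 2 (k r (k (c 6 4099 r r) (k (c 4 4095 r r) r)))) r)) (k r (k r (k r (k (u 2 2 (k r (k (c 6 4099 r (u 4 1 (k r (k r r)))) (k (c 4 4095 r r) r)))) (k r (k r (k r r))))))))))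
 (.s 0x9d7d400 4099 (z 153) (u 1 0 (k r (k r (k r (k (u 2 7 (k r (k r (k (c 6 4099 r (u 4 1 (k r (k r r)))) r)))) (k r (k (u 2 4 (k r (k (c 6 4099 r (u 4 1 (k r (k r r)))) r))) r)))))))
 (.s 0x9d55400 4097 (z 129) (u 1 0 (k (u 3 6 (k (u 2 0 (k v (k v r))) (k r r))) r))
 (.s 0x97f5400 4098 (z 142) (u 1 0 (k (u 3 1 (k r (k r r))) r))
 (.s 0x97dd400 4097 (z 150) (u 1 0 (k v (k (t 3 3 r) (k (t 3 3 r) (k (t 3 3 r) r)))))
 .z .z) (.s 0x97fd400 4098 (z 158) (t 1 1 v)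
 .z .z)) (.s 0x9d5d400 4097 (z 145) (u 1 0 (k r (k (u 3 1 (k r (k (c 7 4097 r (u 5 0 (k r (k r r)))) r))) (k r (k (u 2 0 (k (u 3 0 (k r r)) r)) (k r (k r (k r (k (u 3 1 (k r (k (c 7 4097 r r) r))) (k r (k (t 3 2 r) (k r (k r (k r (k r (k r r))))))))))))))))
 (.s 0x9d57400 4095 (z 161) (u 1 0 (k r (k (t 3 1 (u 2 0 (k v (k (t 6 1 r) (k (t 6 1 (u 4 0 (k (u 8 1 (k v (k v (k (t 24 1 (u 16 0 (k v (k (c 48 4099 r (u 32 3 (k v (k v (k v r))))) r)))) r)))) r))) (k (t 6 2 r) r)))))) r)))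
 .z .z) (.s 0x9d75400 4097 (z 137) (u 1 0 (k (u 3 1 (k (c 2 4099 r v) (k (u 2 0 (k (t 6 1 (u 4 0 (k v (k (u 8 1 (k v (k v r))) (k (c 12 4099 r (u 8 0 (k (u 16 0 (k v (k v r))) r))) (k r (k (c 2 4088 r v) (k (u 8 0 (k (u 16 0 (k v (k v r))) r)) (k r (k r r)))))))))) r)) r))) r))
 .z .z))) (.s 0x9df5400 4099 (z 141) (u 1 0 (k v (k (t 3 3 (u 2 0 (k v (k (t 6 1 (u 4 6 (k (c 12 4099 r r) (k (c 6 4099 v r) (k r (k (c 12 4100 r r) (k (c 8 4099 r r) (k (c 12 4100 r r) r)))))))) (k (u 4 1 (k (c 12 4099 r (u 8 2 (k v (k (t 24 3 (u 16 15 (k v (k v (k v r))))) (k (c 4 4076 (u 4 0 (k r r)) v) r))))) (k (c 2 4090 r v) r))) (k (c 5 4099 v (u 4 0 (k r r))) r)))))) (k (u 2 0 (k (u 4 0 (k r (k r r))) r)) r))))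
 (.s 0x9dd7400 4099 (z 165) (t 1 2 v)
 (.s 0x9dd5400 4101 (z 133) (u 1 0 (k (u 3 1 (k (c 2 4103 r v) (k r r))) (k r (k (u 3 2 (k (c 2 4103 r v) (k (c 7 4097 r (u 5 0 (k r (k r r)))) r))) (k r (k r (k r (k (u 2 7 (k r (k r (k (c 6 4099 r (u 4 1 (k r (k r r)))) r)))) (k (u 2 4 (k r (k (c 6 4099 r (u 4 1 (k r (k r r)))) r))) r)))))))))
 .z .z) (.s 0x9ddd400 4102 (z 149) (t 1 1 v)
 .z .z)) (.s 0x9f55400 4096 (z 131) (u 1 0 (k (u 3 6 (k r (k r r))) r))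
 (.s 0x9dfd400 4099 (z 157) (t 1 2 v)
 .z .z) .z))) (.s 0x9ffd400 4095 (z 159) (u 1 0 (k (c 3 4099 r r) r))
 (.s 0x9fd5400 4100 (z 135) (u 1 0 (k (u 2 0 (k r (k r r))) (k (u 3 0 (k r (k r r))) (k (t 2 3 r) r))))
 (.s 0x9f75400 4100 (z 139) (u 1 0 (k (c 3 4099 r r) (k (t 3 6 (u 2 0 (k r r))) r)))
 (.s 0x9f5d400 4093 (z 147) (u 1 0 (k (c 3 4097 r r) r))
 .z .z) (.s 0x9f7d400 4097 (z 155) (u 1 0 (k (t 3 3 (u 2 0 (k v (k (t 6 1 (u 4 10 (k v (k v (k (c 12 4099 r r) (k r (k r (k r (k (c 8 4096 r r) (k (t 8 2 (c 2 4091 (c 3 4099 v r) v)) r)))))))))) (k (c 2 4095 (u 2 0 (k (t 6 1 r) (k (t 4 2 r) (k (t 4 1 r) r)))) v) r))))) r))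
 .z .z)) (.s 0x9ff5400 4098 (z 143) (t 1 1 v)
 (.s 0x9fdd400 4096 (z 151) (u 1 0 (k (u 2 0 (k (t 6 1 (u 3 1 (k r (k (u 4 0 (k v (k v r))) r)))) r)) r))
 .z .z) .z)) (.s 0xe575600 4095 (n false (z 68) e) (u 2 0 (k (t 6 3 (u 4 1 (k v (k v r)))) r))
 (.s 0xe55de00 4091 (n false (z 104) e) (u 2 0 (k (t 6 1 r) (k (t 4 1 r) (k (t 4 2 r) (k (t 4 2 r) (k (t 4 1 r) (k (t 4 1 r) r)))))))
 (.s 0xe557600 4094 (n false (z 80) e) (u 2 0 (k (u 4 0 (k (c 12 4099 r (u 8 1 (k v (k r (k r (k (u 16 1 (k v (k v r))) (k (c 24 4099 r (u 16 0 (k (u 32 0 (k v (k v r))) r))) (k (u 16 0 (k (u 32 0 (k v (k v r))) r)) (k r (k r r)))))))))) r)) r))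
 .z .z) (.s 0xe55f600 4091 (n false (z 88) e) (u 2 0 (k (t 6 3 (u 4 1 (k v (k (c 12 4097 r (u 8 0 (k v (k v r)))) r)))) r))
 .z .z)) (.s 0xe57de00 4097 (n false (z 108) e) (u 2 0 (k (t 6 2 (u 4 0 (k (c 12 4099 r r) r))) r))
 (.s 0xe577c00 4096 (n false (z 52) e) (u 2 1 (k v (k v (k v (k v (k v (k v (k v r))))))))
 .z .z) .z))))

set_option maxRecDepth 100000 in
def N6 : NT :=
(.s 0xe757e00 4091 (n false (z 113) e) (u 2 1 (k (t 6 2 (u 4 4 (k v (k r (k (c 12 4096 r r) r))))) (k (t 6 1 (u 4 0 (k r r))) (k (t 4 1 (u 6 4 (k v (k r (k (c 14 4096 r r) r))))) r))))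
 (.s 0xe5f7600 4092 (n false (z 86) e) (u 2 0 (k (t 6 1 (u 4 5 (k v (k (u 8 0 (k (u 16 0 (k v (k v r))) r)) r)))) r))
 (.s 0xe5dde00 4091 (n false (z 106) e) (u 2 1 (k (t 6 2 r) (k (t 6 2 (u 4 0 (k r r))) (k (t 6 2 r) (k (t 6 2 r) (k (t 6 2 r) (k (t 4 2 r) (k (t 6 1 r) (k (t 4 1 r) (k (t 4 2 r) (k (t 4 1 r) (k (t 4 1 r) r))))))))))))
 (.s 0xe5d7e00 4093 (n false (z 114) e) (u 2 0 (k (t 6 3 (u 4 8 (k v (k r (k (c 10 4099 v (u 8 0 (k (u 16 0 (k v (k v r))) r))) r))))) r))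
 (.s 0xe5d5c00 4086 (n false (z 34) e) (u 2 0 (k (t 6 1 (u 4 1 (k v (k v r)))) r))
 .z .z) (.s 0xe5dd600 4094 (n false (z 74) e) (u 2 0 (k v (k (t 4 1 r) (k (t 4 1 r) r))))
 .z .z)) (.s 0xe5dfe00 4093 (n false (z 122) e) (u 2 0 (k (t 6 3 (u 4 4 (k v (k (c 12 4099 r r) (k (c 12 4099 r r) (k (c 12 4099 r r) (k (c 10 4099 v r) (k (c 12 4096 r r) (k (c 8 4099 r r) r))))))))) (k (t 6 3 r) r)))
 (.s 0xe5dfc00 4094 (n false (z 58) e) (u 2 0 (k (t 6 1 (u 4 0 (k (t 8 3 (t 12 1 v)) r))) r))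
 .z .z) (.s 0xe5f5e00 4093 (n false (z 102) e) (u 2 1 (k r (k r (k r (k (t 4 2 r) (k r (k r (k r (k (t 6 2 r) r)))))))))
 .z .z))) (.s 0xe5fde00 4090 (n false (z 110) e) (u 2 0 (k (u 6 3 (k r (k (u 4 36 (k v (k v (k v (k (c 12 4099 r r) (k (c 12 4097 r r) (k (c 12 4099 r r) (k r (k (c 12 4097 r r) (k (c 12 4099 r (u 8 1 (k v (k (c 24 4097 r (u 16 0 (k v (k v r)))) r)))) (k (c 12 4099 r (u 8 0 (k (u 16 0 (k v (k v r))) r))) (k (c 8 4099 r r) (k (c 12 4099 r r) (k (c 8 4099 r (u 12 0 (k (u 20 0 (k v (k v r))) r))) (k (c 12 4100 r (c 18 4099 v r)) (k (c 12 4099 r r) (k (c 12 4099 r r) (k (c 12 4099 r r) r)))))))))))))))))) r))) r))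
 (.s 0xe5f7e00 4092 (n false (z 118) e) (u 2 0 (k (t 6 1 r) (k (t 6 1 r) (k (t 6 2 r) r))))
 (.s 0xe5f7c00 4090 (n false (z 54) e) (u 2 0 (k (u 4 14 (k v (k (c 12 4099 r (t 8 3 v)) (k (u 8 4 (k v (k (t 24 1 (u 16 2 (k v (k v r)))) r))) (k (u 8 4 (k v (k (t 24 1 (u 16 2 (k v (k v r)))) r))) (k (u 8 0 (k r (k r r))) (k (u 8 2 (k v (k (t 24 1 (u 16 19 (k v (k v (k (c 32 4097 r (c 4 4090 r v)) (k (c 32 4095 r (c 4 4089 r v)) (k (c 32 4095 r (c 4 4089 r v)) r))))))) (k (c 4 4091 (t 6 1 r) v) r)))) r))))))) r))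
 .z .z) (.s 0xe5fd600 4088 (n false (z 78) e) (u 2 0 (k (t 6 1 r) (k (t 6 1 r) (k (t 6 2 r) (k (t 6 1 (u 4 1 (k v (k (c 12 4097 r r) (k (c 12 4097 r r) r))))) (k (t 6 2 r) (k (t 6 2 (u 4 1 (k v (k (c 12 4097 r r) (k (c 12 4097 r r) r))))) (k (t 6 1 (u 4 0 (k (c 8 4100 r r) (k (c 12 4100 r r) (k (c 12 4100 r r) (k (c 12 4100 r r) (k (c 12 4100 r r) (k (c 12 4101 r r) r)))))))) (k (t 6 1 r) (k (t 6 2 r) (k (t 6 2 r) (k (t 4 1 r) (k (t 6 1 r) (k (t 4 2 r) (k (t 6 2 r) (k (t 4 1 r) (k (t 4 2 r) (k (t 4 1 r) r))))))))))))))))))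
 .z .z)) (.s 0xe757c00 4091 (n false (z 49) e) (u 2 0 (k (t 6 1 r) (k (t 6 1 r) r)))
 (.s 0xe5ffc00 4094 (n false (z 62) e) (u 2 3 (k v (k v (k v (k (t 6 1 r) r)))))
 .z .z) .z))) (.s 0xe77fe00 4092 (n false (z 125) e) (u 2 0 (k (t 6 3 (u 4 2 (k v (k v (k (u 8 5 (k v (k v (k v r)))) (k (c 8 4097 r (u 12 0 (k v (k v r)))) (k (c 8 4097 r (u 12 0 (k v (k v r)))) (k (c 8 4096 r (u 12 0 (k v (k v r)))) (k (c 8 4095 r (u 12 0 (k v (k v r)))) r))))))))) (k (t 6 3 r) r)))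
 (.s 0xe775600 4095 (n false (z 69) e) (u 2 1 (k v (k (t 6 2 r) (k (t 6 3 (u 4 1 (k v (k v r)))) (k (t 6 3 r) r)))))
 (.s 0xe75f600 4097 (n false (z 89) e) (u 2 0 (k v (k v (k v (k (t 6 2 r) r)))))
 (.s 0xe75de00 4091 (n false (z 105) e) (u 2 0 (k (t 6 2 r) (k (t 6 2 r) (k (t 6 2 r) r))))
 .z .z) (.s 0xe75fc00 4094 (n false (z 57) e) (u 2 0 (k v (k (t 4 3 (t 6 3 v)) (k (t 6 1 (u 4 0 (k v (k v r)))) r))))
 .z .z)) (.s 0xe77de00 4092 (n false (z 109) e) (u 2 0 (k (u 6 35 (k r (k (u 4 9 (k v (k (u 8 0 (k (u 16 0 (k v (k v r))) r)) (k r (k (c 12 4099 r (u 8 0 (k (u 16 0 (k v (k v r))) r))) (k r (k (u 8 1 (k v (k (u 16 1 (k v (k v r))) (k (c 24 4099 r (u 16 0 (k v (k v r)))) (k (u 16 1 (k v (k v r))) (k (c 24 4097 r (u 16 1 (k v (k v r)))) (k (c 16 4095 r (u 24 1 (k v (k v r)))) r))))))) (k r (k r r))))))))) (k (c 4 4100 r (t 14 1 r)) r)))) r))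
 (.s 0xe777e00 4093 (n false (z 117) e) (u 2 0 (k (t 6 1 (u 4 0 (k (t 12 3 r) (k r (k r r))))) r))
 .z .z) .z)) (.s 0xe7dd600 4094 (n false (z 75) e) (u 2 0 (k (u 4 0 (k r r)) (k (t 6 2 r) (k (t 6 2 r) r))))
 (.s 0xe7d7600 4093 (n false (z 83) e) (u 2 0 (k v (k (t 6 1 r) (k (t 6 1 (u 4 0 (k r r))) r))))
 (.s 0xe7d5c00 4101 (n false (z 35) e) (u 2 0 (k v (k v (k (t 6 1 (u 4 0 (k (t 8 3 (t 12 1 v)) r))) r))))
 .z .z) (.s 0xe7d7e00 4095 (n false (z 115) e) (u 2 0 (k (t 6 3 (u 4 1 (k r (k (c 12 4099 r r) (k (t 8 1 v) (k (c 12 4099 r r) r)))))) r))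
 .z .z)) (.s 0xe7dfc00 4094 (n false (z 59) e) (u 2 0 (k (t 6 1 (u 4 0 (k v (k v (k (u 8 1 (k v (k v r))) r))))) r))
 (.s 0xe7dde00 4091 (n false (z 107) e) (u 2 2 (k v (k r (k (t 6 2 r) (k (t 6 1 (u 4 0 (k r r))) r)))))
 .z .z) .z))))

set_option maxRecDepth 100000 in
def N7 : NT :=
(.s 0x72efa800 4090 (n false (z 154) e) (u 2 0 (k (u 6 23 (k r (k r (k r (k r (k r r)))))) (k (t 6 3 (u 4 57 (k v (k (t 12 1 (u 8 1 (k v (k v r)))) (k r (k (t 8 1 r) (k (c 12 4097 r r) (k (c 8 4099 r (u 12 0 (k (t 28 1 (u 20 12 (k v (k v r)))) r))) (k (t 8 1 r) r))))))))) (k (u 6 0 (k r r)) (k (u 6 49 (k r (k r (k r (k (c 14 4099 r r) (k r (k (c 14 4096 r r) r))))))) r)))))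
 (.s 0x72baa800 4091 (n false (z 132) e) (u 2 0 (k (t 6 2 (u 4 0 (k (t 12 1 r) r))) r))
 (.s 0x72aae800 4095 (n false (z 160) e) (u 2 1 (k r (k r (k r (k r (k (t 6 3 r) (k (t 6 2 r) (k (t 4 1 r) (k (t 6 3 (u 4 1 (k (c 12 4099 r (u 8 2 (k v (k v (k v (k (t 24 1 (u 16 0 (k v (k (c 48 4099 r (u 32 0 (k v (k v r)))) r)))) r)))))) (k (c 10 4099 v r) r)))) (k (t 6 2 r) r))))))))))
 (.s 0xe7fde00 4090 (n false (z 111) e) (u 2 1 (k (t 6 3 r) (k (t 6 2 (u 4 0 (k r r))) (k (u 4 1 (k r (k (u 8 1 (k r (k r r))) (k (c 12 4099 r (u 8 0 (k r (k r r)))) (k (u 8 1 (k r (k r r))) (k (c 12 4097 r (u 8 1 (k r (k r r)))) (k (c 8 4095 r (u 12 1 (k r (k r r)))) r))))))) (k (u 4 1 (k r (k (c 12 4097 r (u 8 0 (k r (k r r)))) r))) (k (u 6 0 (k (u 4 1 (k (u 10 0 (k v (k v r))) (k (c 12 4099 r r) (k (c 10 4097 r r) (k (c 8 4099 r r) (k (c 8 4099 r r) (k (c 8 4099 r r) r)))))))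 r)) r))))))
 (.s 0xe7f7c00 4095 (n false (z 55) e) (u 2 0 (k (t 6 2 r) (k (t 6 1 r) r)))
 .z .z) (.s 0xe7ffc00 4086 (n false (z 63) e) (u 2 0 (k (t 6 2 (u 4 1 (k v (k v r)))) r))
 .z .z)) (.s 0x72aea800 4093 (n false (z 136) e) (u 2 1 (k r (k r (k r (k (u 6 2 (k r (k r r))) (k (t 6 1 (u 4 0 (k r r))) (k (t 4 2 r) (k (u 4 33 (k r (k r (k r r)))) (k (u 6 0 (k r (k r (k (c 14 4099 r (u 10 0 (k r (k r r)))) r)))) r)))))))))
 (.s 0x72aba800 4091 (n false (z 144) e) (u 2 0 (k (t 6 3 (u 4 1 (k (c 12 4099 r (u 8 14 (k v (k (c 10 4099 v (u 16 0 (k (u 32 0 (k v (k v r))) r))) r)))) (k (c 10 4099 v r) r)))) r))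
 .z .z) (.s 0x72afb008 4088 (n false (z 88) (n false e e)) (u 2 0 (k (t 6 3 (u 4 1 (k v (k (c 12 4097 r (u 8 0 (k v (k v r)))) r)))) r))
 .z .z))) (.s 0x72eae008 4090 (n false (z 34) (n false e e)) (u 2 0 (k (t 6 1 (u 4 2 (k v (k v r)))) r))
 (.s 0x72bba800 4095 (n false (z 148) e) (u 2 1 (k v (k r (k r (k r (k (t 6 3 r) (k (t 6 2 r) (k (t 6 2 r) (k (u 6 2 (k (t 4 1 v) (k r r))) r)))))))))
 (.s 0x72bae800 4092 (n false (z 164) e) (u 2 0 (k (t 4 1 (u 6 0 (k (t 14 1 r) r))) r))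
 .z .z) (.s 0x72bbf008 4088 (n false (z 116) (n false e e)) (u 2 0 (k (t 6 1 (u 4 4 (k v (k (c 12 4101 r r) (k (c 8 4101 r r) (k (c 8 4101 r r) r)))))) r))
 .z .z)) (.s 0x72ebf008 4091 (n false (z 114) (n false e e)) (u 2 0 (k (t 6 3 (u 4 1 (k v (k (c 12 4110 r r) (k (c 6 4110 v (c 2 4076 (u 4 0 (k r r)) v)) r))))) r))
 (.s 0x72eae800 4092 (n false (z 162) e) (u 2 0 (k (t 4 2 (u 6 0 (k (t 14 1 r) r))) r))
 .z .z) .z))) (.s 0x73aaa800 4090 (n false (z 129) e) (u 2 0 (k (u 6 2 (k (u 4 36 (k v (k v (k v (k (c 12 4099 r (u 8 1 (k v (k v r)))) (k (c 12 4097 r (u 8 1 (k v (k v r)))) (k (c 12 4099 r r) (k r (k (c 12 4097 r r) (k (c 12 4099 r (u 8 2 (k v (k (c 24 4097 r (u 16 0 (k v (k v r)))) r)))) (k (c 12 4099 r (u 8 0 (k (u 16 0 (k v (k v r))) r))) (k (c 8 4099 r (u 12 1 (k v (k v r)))) (k (c 12 4099 r r) (k (c 8 4099 r (u 12 0 (k (u 20 0 (k v (k v r)))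 r))) (k (c 12 4100 r r) (k (c 12 4099 r r) (k (c 12 4099 r r) (k (c 12 4099 r r) r)))))))))))))))))) (k (t 4 2 (u 10 1 (k v (k v r)))) r))) r))
 (.s 0x72faf008 4087 (n false (z 102) (n false e e)) (u 2 0 (k r (k r (k (t 4 2 r) (k r (k r (k (u 4 1 (k r (k (c 12 4099 r r) (k (c 8 4097 r r) (k (c 8 4095 r (t 6 2 r)) (k (c 8 4095 r (t 6 2 r)) r)))))) (k r (k (t 6 2 r) r)))))))))
 (.s 0x72faa800 4088 (n false (z 134) e) (u 2 0 (k (u 6 0 (k (t 10 3 (t 14 1 (u 4 6 (k (c 12 4099 r r) (k r (k (u 8 3 (k r (k (c 24 4100 r r) (k r (k r r))))) (k (c 8 4099 r r) (k (c 8 4099 r r) (k (c 8 4099 r r) r))))))))) r)) r))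
 (.s 0x72eff008 4091 (n false (z 122) (n false e e)) (u 2 0 (k (t 6 3 r) (k (t 6 3 r) r)))
 .z .z) (.s 0x72fae800 4088 (n false (z 166) e) (u 2 0 (k (t 6 2 (u 4 0 (k (u 8 3 (k r (k r (k (t 24 1 r) (k r r))))) r))) r))
 .z .z)) (.s 0x72fbf008 4088 (n false (z 118) (n false e e)) (u 2 1 (k v (k (t 6 1 (u 4 2 (k v (k (c 12 4110 r r) (k (t 12 2 (c 2 4076 (u 4 0 (k r r)) v)) (k (c 12 4096 r r) (k (c 12 4110 r (u 8 3 (k v (k (t 24 2 r) (k (u 16 3 (k v (k (c 48 4099 r (u 32 4 (k v (k v r)))) r))) (k (t 24 1 (u 16 0 (k (u 32 0 (k v (k v r))) r))) r)))))) (k (t 12 3 (c 2 4088 r v)) (k (c 12 4099 r r) (k (c 8 4097 r r) (k (c 8 4101 r r) (k (t 12 3 (c 2 4088 r v)) (k (c 8 4101 r r) r))))))))))))) (k (t 6 1 r) r))))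
 (.s 0x72fba800 4093 (n false (z 150) e) (u 2 1 (k (t 6 3 r) (k (t 6 2 (u 4 0 (k r r))) (k (t 6 3 r) (k (t 6 3 r) r)))))
 .z .z) .z)) (.s 0x73bff008 4088 (n false (z 125) (n false e e)) (u 2 0 (k (t 6 3 (u 4 5 (k v (k (u 8 1 (k v (k v r))) (k (c 8 4097 r (u 12 0 (k v (k v r)))) (k (c 8 4097 r (u 12 0 (k v (k v r)))) (k (c 8 4097 r (u 12 0 (k v (k v r)))) (k (c 8 4096 r (u 12 0 (k v (k v r)))) (k (c 8 4095 r (u 12 0 (k v (k v r)))) r))))))))) (k (t 6 3 r) r)))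
 (.s 0x73bab008 4088 (n false (z 69) (n false e e)) (u 2 2 (k v (k (t 6 3 r) (k (t 6 3 r) (k (t 6 2 r) r)))))
 (.s 0x73baa800 4094 (n false (z 133) e) (u 2 1 (k (t 6 1 r) (k (t 6 1 r) (k (t 4 2 r) (k (t 6 1 r) (k (t 6 1 r) (k (t 6 1 r) (k (t 4 2 r) (k (t 4 1 r) r)))))))))
 .z .z) (.s 0x73bba800 4089 (n false (z 149) e) (u 2 2 (k (u 4 0 (k (c 12 4101 r r) (k (c 8 4101 r r) (k (c 8 4101 r r) r)))) (k (t 6 2 r) (k (t 6 1 r) (k (t 6 1 r) (k (t 4 1 (u 6 0 (k r r))) (k (u 6 0 (k (t 4 2 r) r)) (k (t 4 1 (u 6 0 (k r r))) (k (t 6 2 r) r)))))))))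
 .z .z)) (.s 0x73ebb008 4088 (n false (z 83) (n false e e)) (u 2 1 (k v (k (t 6 1 r) (k (t 6 1 (u 4 0 (k r r))) r))))
 (.s 0x73eaa800 4088 (n false (z 131) e) (u 2 0 (k (u 6 2 (k (u 4 6 (k (c 12 4099 r r) (k r (k r (k (c 8 4099 r r) (k (c 8 4099 r r) (k (c 8 4099 r r) r))))))) (k (u 10 1 (k (c 6 4079 v (c 4 4102 r v)) (k (u 4 16 (k v (k (c 12 4099 r (u 8 19 (k v (k v (k v r))))) (k (u 8 23 (k v (k v r))) (k (c 8 4099 r (u 12 19 (k v (k v (k v r))))) (k (c 8 4099 r (u 12 19 (k v (k v (k v r))))) (k (c 8 4099 r (u 12 19 (k v (k v (k v r))))) r))))))) r))) r))) r))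
 .z .z) .z))))

set_option maxRecDepth 100000 in
def N8 : NT :=
(.s 0x3955d4008 4085 (n false (z 144) (n false e e)) (u 2 0 (k (t 6 3 (u 4 1 (k (c 12 4099 r (u 8 14 (k v (k (c 4 4076 (u 4 0 (k r r)) v) r)))) (k (c 10 4099 v r) r)))) r))
 (.s 0x74feac00 4088 (n false (n false (z 71) e) e) (u 4 6 (k (c 12 4099 r r) (k r (k r (k (c 8 4099 r r) (k (c 8 4099 r r) (k (c 8 4099 r r) r)))))))
 (.s 0x73fef008 4082 (n false (z 111) (n false e e)) (u 2 1 (k (t 6 3 r) (k (t 6 2 (u 4 0 (k r r))) (k r (k (u 4 1 (k r (k (c 12 4097 r (u 8 0 (k r (k r r)))) r))) (k r r))))))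
 (.s 0x73fbe008 4088 (n false (z 55) (n false e e)) (u 2 4 (k (t 6 1 r) (k (t 6 2 r) r)))
 (.s 0x73fba800 4092 (n false (z 151) e) (u 2 0 (k (t 6 1 (u 4 0 (k (t 12 1 r) r))) r))
 .z .z) (.s 0x73fea800 4094 (n false (z 143) e) (u 2 2 (k (t 6 1 r) (k (t 4 1 (u 6 0 (k (t 10 3 (t 14 1 v)) r))) (k (t 4 2 (u 6 0 (k (t 10 3 (t 14 1 v)) r))) (k (t 6 1 r) (k (t 4 1 (u 6 0 (k (t 10 3 (t 14 1 v)) r))) (k (t 4 2 r) r)))))))
 .z .z)) (.s 0x74aafc00 4088 (n false (n false (z 112) e) e) (u 4 1 (k (c 12 4099 r (u 8 7 (k v (k (c 4 4076 (u 4 0 (k r r)) v) (k (t 24 3 (u 16 30 (k v (k v (k v (k (u 32 2 (k v (k v r))) (k (u 32 22 (k v (k v (k v (k v r))))) (k (u 32 15 (k v (k v (k v (k (c 96 4099 r (u 64 1 (k v (k v r)))) (k (c 64 4095 r (u 96 0 (k v (k v r)))) r)))))) r)))))))) r))))) (k (u 8 3 (k (t 16 1 r) (k (t 24 2 r) (k (t 24 1 r) (k (t 24 1 r) r))))) r)))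
 (.s 0x73ffe008 4091 (n false (z 63) (n false e e)) (u 2 0 (k (t 6 2 (u 4 2 (k v (k v r)))) r))
 .z .z) (.s 0x74bbe800 4089 (n false (n false (z 26) e) e) (u 4 2 (k v (k (u 8 2 (k v (k v r))) r)))
 .z .z))) (.s 0x7cbefc00 4090 (n false (n true (z 118) e) e) (u 4 1 (k v (k (t 12 1 r) (k (t 12 1 (u 8 4 (k v (k (c 24 4099 r r) (k r (k (c 16 4102 r r) r)))))) r))))
 (.s 0x74fef800 4088 (n false (n false (z 55) e) e) (u 4 4 (k (t 12 1 r) (k (t 12 2 (u 8 2 (k v (k (u 16 2 (k v (k v r))) r)))) r)))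
 (.s 0x74febc00 4090 (n false (n false (z 103) e) e) (u 4 4 (k v (k (c 12 4101 r r) (k (c 8 4101 r r) (k (c 8 4101 r r) r)))))
 .z .z) (.s 0x74ffac00 4087 (n false (n false (z 79) e) e) (u 4 4 (k v (k r (k (c 12 4096 r r) r))))
 .z .z)) (.s 0x395574008 4088 (n false (z 160) (n false e e)) (u 2 2 (k (t 6 3 r) (k (t 6 2 r) (k r (k (u 6 17 (k r (k r (k (c 10 4096 r (u 14 1 (k r (k r r)))) r)))) (k r (k r (k r (k r (k r r))))))))))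
 (.s 0x7cfef800 4088 (n false (n true (z 55) e) e) (u 4 4 (k (t 12 1 r) (k (t 12 2 (u 8 2 (k v (k (u 16 1 (k v (k v r))) r)))) r)))
 .z .z) .z))) (.s 0x3975f8050 4086 (n false (z 114) (n false (n false e e) e)) (u 2 0 (k (t 6 3 (u 4 12 (k v (k v r)))) r))
 (.s 0x395d78050 4076 (n false (z 100) (n false (n false e e) e)) (u 2 0 (k (t 6 1 r) (k (t 6 1 r) (k (t 6 1 r) (k (t 6 1 r) (k (t 6 1 r) (k (t 6 1 r) r)))))))
 (.s 0x395754008 4082 (n false (z 136) (n false e e)) (u 2 2 (k r (k r (k r (k (t 6 1 (u 4 0 (k r r))) (k (t 4 2 r) (k (u 4 1 (k r (k (c 12 4099 r r) (k (t 6 1 r) (k (c 8 4099 r r) (k (c 8 4099 r r) (k (c 8 4099 r r) r))))))) (k (u 6 1 (k r (k (c 14 4099 r r) (k (t 4 1 r) (k (c 10 4099 r r) (k (c 10 4099 r r) (k (c 10 4099 r r) r))))))) (k (u 4 19 (k r (k (c 12 4099 r (u 8 12 (k r (k r r)))) (k (c 8 4096 r r) r)))) r)))))))))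
 (.s 0x3955f8050 4087 (n false (z 112) (n false (n false e e) e)) (u 2 1 (k (c 6 4099 r r) (k (u 4 0 (k v (k (c 12 4101 r (u 8 1 (k v (k v r)))) (k (c 8 4101 r (u 12 1 (k v (k v r)))) (k (c 8 4101 r (u 12 1 (k v (k v r)))) r))))) r)))
 .z .z) (.s 0x3957f8050 4074 (n false (z 120) (n false (n false e e) e)) (u 2 4 (k (t 6 2 r) (k (t 6 1 r) (k (t 6 2 r) (k (t 6 1 r) (k (t 4 1 r) (k (t 6 1 r) (k (t 4 4 r) (k (t 6 1 r) (k (t 6 1 (u 4 0 (k (u 8 0 (k v (k v r))) r))) (k (t 6 1 (u 4 0 (k (u 8 0 (k v (k v r))) r))) (k (t 4 1 r) (k (t 4 1 r) (k (t 6 1 r) (k (t 6 1 r) (k (t 6 2 r) (k (t 4 1 r) (k (t 4 1 r) (k (t 6 1 r) r)))))))))))))))))))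
 .z .z)) (.s 0x395f54008 4088 (n false (z 140) (n false e e)) (u 2 0 (k (t 6 3 (u 4 0 (k v (k (c 12 4101 r r) (k (c 8 4101 r r) (k (c 8 4101 r r) r)))))) r))
 (.s 0x395dd4008 4088 (n false (z 148) (n false e e)) (u 2 7 (k v (k (t 6 3 r) (k (t 6 1 r) (k r (k (t 6 2 r) (k (t 6 2 r) (k r (k r r)))))))))
 .z .z) .z)) (.s 0x3977d4008 4087 (n false (z 154) (n false e e)) (u 2 0 (k (u 4 19 (k r (k (c 12 4099 r (u 8 12 (k r (k r r)))) (k (c 8 4096 r (u 12 1 (k r (k r r)))) r)))) (k (t 6 2 r) (k (t 4 2 (u 6 0 (k r r))) (k (u 4 19 (k r (k (c 12 4099 r (u 8 12 (k r (k r r)))) (k (c 8 4096 r r) r)))) r)))))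
 (.s 0x397770050 4085 (n false (z 42) (n false (n false e e) e)) (u 2 6 (k v (k r (k r (k r (k (c 3 4094 v (t 6 1 r)) (k (c 3 4094 v r) r)))))))
 (.s 0x397758050 4090 (n false (z 74) (n false (n false e e) e)) (u 2 1 (k v (k (t 6 1 r) (k (c 6 4097 r r) r))))
 .z .z) (.s 0x3977d0050 4088 (n false (z 26) (n false (n false e e) e)) (u 2 2 (k v (k (c 3 4094 v (u 4 1 (k v (k v r)))) r)))
 .z .z)) (.s 0x397dd4008 4088 (n false (z 150) (n false e e)) (u 2 1 (k (t 6 3 r) (k (t 6 2 (u 4 0 (k r r))) (k (t 6 3 r) (k (t 6 3 r) r)))))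
 (.s 0x3977d8050 4090 (n false (z 90) (n false (n false e e) e)) (u 2 5 (k v (k r (k (c 6 4097 r r) (k r (k (c 4 4097 r (u 6 0 (k (u 10 0 (k v (k v r))) r))) (k (c 6 4097 r r) (k r (k (c 6 4095 r r) (k (c 4 4095 r r) r))))))))))
 .z .z) .z))))

set_option maxRecDepth 100000 in
def N9 : NT :=
(.s 0x39f770050 4091 (n false (z 43) (n false (n false e e) e)) (u 2 1 (k v (k r (k r (k (u 4 1 (k v (k v r))) (k (c 6 4099 r (u 4 0 (k (u 8 0 (k v (k v r))) r))) (k (u 4 0 (k (u 8 0 (k v (k v r))) r)) (k r (k (u 4 1 (k v (k (c 12 4099 r (u 8 1 (k v (k v r)))) (k (c 8 4098 r (u 12 1 (k v (k v r)))) (k (c 8 4097 r (u 12 1 (k v (k v r)))) (k (c 8 4099 r (u 12 1 (k v (k v r)))) (k (c 8 4095 r (u 12 0 (k v (k v r)))) r))))))) r)))))))))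
 (.s 0x39df70050 4088 (n false (z 45) (n false (n false e e) e)) (u 2 1 (k v (k (t 6 1 r) (k (t 6 2 r) r))))
 (.s 0x39d7f0050 4085 (n false (z 57) (n false (n false e e) e)) (u 2 0 (k v (k (t 4 3 (t 6 3 v)) (k (t 6 1 (u 4 0 (k v (k v r)))) r))))
 (.s 0x39d7d4008 4094 (n false (z 153) (n false e e)) (u 2 0 (k r (k r (k r (k r (k r (k r r)))))))
 (.s 0x39d5d4008 4091 (n false (z 145) (n false e e)) (u 2 1 (k v (k (u 4 27 (k r (k r (k (t 6 1 r) (k (c 12 4096 r (c 6 4101 r (c 2 4088 r v))) (k (c 8 4099 r r) r)))))) (k r (k r (k (t 4 2 (u 6 0 (k r r))) (k r (k r (k r (k (u 6 1 (k r (k (c 14 4097 r r) r))) (k r (k r (k r (k r (k r (k r r))))))))))))))))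
 .z .z) (.s 0x39d7d8050 4083 (n false (z 89) (n false (n false e e) e)) (u 2 13 (k v (k v (k v (k v (k (t 6 3 (u 4 101 (k v (k v (k v (k v (k v r))))))) (k (t 6 2 r) (k (t 6 1 r) r))))))))
 .z .z)) (.s 0x39ddf0050 4089 (n false (z 53) (n false (n false e e) e)) (u 2 0 (k (t 6 1 r) (k (t 6 1 r) r)))
 (.s 0x39dd54008 4093 (n false (z 133) (n false e e)) (u 2 2 (k r (k r (k r (k r (k r (k r (k r (k r r)))))))))
 .z .z) (.s 0x39df54008 4094 (n false (z 141) (n false e e)) (u 2 1 (k v (k (t 6 1 (u 4 0 (k r r))) (k (t 6 2 r) (k r r)))))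
 .z .z))) (.s 0x39f574008 4083 (n false (z 163) (n false e e)) (u 2 0 (k r (k (t 4 1 (u 6 0 (k r r))) (k r (k (u 4 1 (k r (k (c 12 4099 r r) (k (c 8 4098 r r) (k (c 8 4097 r r) (k (c 8 4099 r r) (k (c 8 4095 r (t 6 2 r)) r))))))) (k (u 6 1 (k r (k (c 14 4099 r r) (k (c 10 4097 r r) (k (c 10 4095 r (t 4 1 r)) (k (c 10 4095 r (t 4 1 r)) r)))))) (k (u 4 1 (k r (k (c 12 4099 r r) (k (c 8 4098 r r) (k (c 8 4097 r r) (k (c 8 4099 r r) (k (c 8 4095 r (t 6 2 r)) r))))))) (k r (k r (k (u 4 1 (k r (k (c 12 4099 r r) (k (c 8 4098 r r) (k (c 8 4097 r r) (k (c 8 4099 r r) (k (c 8 4095 r (t 6 1 r)) r))))))) r))))))))))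
 (.s 0x39f554008 4091 (n false (z 131) (n false e e)) (u 2 0 (k (u 6 11 (k r (k (t 4 1 v) (k (c 4 4102 r r) r)))) r))
 (.s 0x39dfd0050 4086 (n false (z 29) (n false (n false e e) e)) (u 2 0 (k (u 4 0 (k (t 8 3 (t 12 1 v)) r)) r))
 .z .z) (.s 0x39f558050 4084 (n false (z 67) (n false (n false e e) e)) (u 2 3 (k v (k (t 6 2 r) (k (t 4 2 (u 6 0 (k (u 10 0 (k v (k v r))) r))) (k (t 4 1 (u 6 0 (k (u 10 0 (k v (k v r))) r))) (k (t 6 1 r) (k (t 6 2 r) (k r (k (t 6 1 r) (k (t 6 2 r) (k (t 4 2 r) (k (t 6 2 (u 4 0 (k (u 8 0 (k v (k v r))) r))) (k (t 4 1 r) (k (t 6 2 r) (k (t 4 1 (u 6 0 (k (u 10 0 (k v (k v r))) r))) (k (t 6 1 r) (k (t 6 2 r) (k (t 6 1 r) (k (t 6 2 r) (k (t 6 2 r) (k (t 6 1 r) r)))))))))))))))))))))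
 .z .z)) (.s 0x39f758050 4088 (n false (z 75) (n false (n false e e) e)) (u 2 14 (k v (k (c 3 4094 v (u 4 0 (k r r))) r)))
 (.s 0x39f578050 4088 (n false (z 99) (n false (n false e e) e)) (u 2 0 (k (t 6 2 r) (k (t 6 2 r) (k (c 6 4096 r r) (k (t 6 2 r) (k (t 6 2 r) r))))))
 .z .z) .z))) (.s 0x39ff58050 4092 (n false (z 79) (n false (n false e e) e)) (u 2 2 (k v (k r (k (c 4 4100 r (u 6 0 (k (u 10 0 (k v (k v r))) r))) r))))
 (.s 0x39fd78050 4086 (n false (z 103) (n false (n false e e) e)) (u 2 8 (k (t 4 1 r) (k (t 6 1 r) (k (t 6 1 r) (k (t 6 2 r) r)))))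
 (.s 0x39f7f8050 4085 (n false (z 123) (n false (n false e e) e)) (u 2 28 (k v (k r (k (t 6 2 r) (k r (k r (k (t 6 2 r) (k (t 6 1 r) (k (t 6 2 r) (k (t 6 1 r) r))))))))))
 (.s 0x39f778050 4086 (n false (z 107) (n false (n false e e) e)) (u 2 3 (k v (k (t 6 2 r) (k (c 3 4094 v r) (k (t 6 1 (u 4 0 (k (u 8 0 (k v (k v r))) r))) r)))))
 .z .z) (.s 0x39fd58050 4087 (n false (z 71) (n false (n false e e) e)) (u 2 8 (k r (k (t 6 1 r) (k r (k (t 6 1 r) (k (t 6 1 r) (k (t 6 1 r) r)))))))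
 .z .z)) (.s 0x39ff50050 4091 (n false (z 15) (n false (n false e e) e)) (u 2 0 (k v (k (u 4 0 (k (u 8 0 (k v (k v r))) r)) r)))
 (.s 0x39fdf8050 4075 (n false (z 119) (n false (n false e e) e)) (u 2 1 (k r (k (t 6 2 r) (k (t 6 1 r) (k r (k r (k (u 6 1 (k r (k (c 14 4097 r r) r))) (k (u 6 0 (k (t 10 3 (t 14 1 (u 4 0 (k (u 8 0 (k v (k v r))) r)))) r)) (k r (k r (k (u 4 1 (k r (k (c 12 4099 r r) (k (c 8 4097 r r) (k (c 8 4095 r r) (k (c 8 4095 r r) r)))))) (k r (k r (k (u 4 1 (k r (k (c 12 4099 r r) (k (c 8 4098 r r) (k (c 8 4097 r r) (k (c 8 4099 r r) (k (c 8 4095 r r) r))))))) r))))))))))))))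
 .z .z) .z)) (.s 0x3a55d6010 4087 (n false (n false (z 72) (n false e e)) e) (u 4 0 (k (c 12 4099 r (u 8 5 (k v (k r (k r (k (c 24 4099 r (u 16 0 (k (u 32 0 (k v (k v r))) r))) (k (u 16 2 (k v (k (c 48 4099 r (u 32 0 (k v (k v r)))) (k (u 32 1 (k v (k v r))) (k (u 32 26 (k v (k v r))) (k (c 48 4097 r (u 32 1 (k v (k v r)))) (k (c 32 4095 r (u 48 1 (k v (k v r)))) r))))))) (k (u 16 0 (k (u 32 0 (k v (k v r))) r)) (k r (k r r)))))))))) r))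
 (.s 0x3a555d000 4091 (n false (n false (z 160) e) e) (u 4 7 (k (u 12 19 (k r (k (c 28 4099 r r) (k (c 20 4096 r r) r)))) (k r (k (t 12 2 r) (k r (k r (k r (k (u 12 19 (k r (k r (k (c 20 4097 r (t 8 1 r)) (k (c 20 4095 r r) (k (c 20 4095 r r) r)))))) (k r (k r r))))))))))
 (.s 0x3a5556010 4087 (n false (n false (z 64) (n false e e)) e) (u 4 0 (k (c 12 4099 r (u 8 0 (k v (k v (k (u 16 1 (k v (k v r))) r))))) r))
 .z .z) (.s 0x3a557c010 4095 (n false (n false (z 48) (n false e e)) e) (u 4 0 (k v (k (t 8 3 (t 12 1 v)) (k (u 8 0 (k (t 16 3 (t 24 3 v)) r)) (k (u 8 0 (k v (k v r))) (k (u 8 0 (k v (k v r))) r))))))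
 .z .z)) (.s 0x3a575c010 4084 (n false (n false (z 36) (n false e e)) e) (u 4 0 (k (u 8 0 (k v (k v (k (u 16 1 (k v (k v r))) r)))) r))
 (.s 0x3a55fe010 4086 (n false (n false (z 120) (n false e e)) e) (u 4 4 (k (c 12 4099 r r) (k (c 12 4100 r r) (k (c 12 4099 r r) (k (c 12 4100 r r) (k (c 8 4095 r r) (k (c 12 4097 r r) (k (c 8 4097 r r) (k (c 12 4096 r r) (k (c 12 4096 r (u 8 0 (k (u 16 0 (k v (k v r))) r))) (k (c 12 4100 r (u 8 0 (k (u 16 0 (k v (k v r))) r))) (k (c 12 4101 r r) (k (c 8 4099 r r) (k (c 12 4100 r r) (k (c 12 4097 r r) (k (c 12 4099 r r) (k (c 8 4095 r r) (k (c 8 4099 r r) (k (c 12 4097 r r) r)))))))))))))))))))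
 .z .z) .z))))

set_option maxRecDepth 100000 in
def N10 : NT :=
(.s 0x3a7f5e010 4089 (n false (n false (z 103) (n false e e)) e) (u 4 3 (k (c 8 4100 r r) (k (c 12 4100 r r) (k (c 12 4100 r r) (k (c 12 4100 r r) r)))))
 (.s 0x3a75f6010 4089 (n false (n false (z 89) (n false e e)) e) (u 4 15 (k v (k v (k (c 12 4099 r r) (k (c 12 4097 r r) r)))))
 (.s 0x3a5dde010 4092 (n false (n false (z 106) (n false e e)) e) (u 4 0 (k v (k v (k (t 12 3 r) (k (c 8 4103 r (u 12 0 (k (u 20 0 (k v (k v r))) r))) (k (t 12 3 r) (k (c 12 4099 r r) (k (c 8 4101 r r) (k (c 12 4103 r r) (k (c 12 4100 r r) (k (c 12 4099 r r) (k (c 12 4100 r r) r))))))))))))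
 (.s 0x3a57de010 4090 (n false (n false (z 108) (n false e e)) e) (u 4 0 (k (c 12 4099 r (u 8 0 (k (c 24 4099 r (u 16 3 (k v (k v (k v (k r (k r (k (u 32 0 (k (u 64 0 (k v (k v r))) r)) (k r (k (u 32 2 (k v (k (c 96 4099 r (u 64 1 (k v (k v r)))) (k (c 64 4095 r (u 96 0 (k v (k v r)))) r)))) r)))))))))) r))) r))
 (.s 0x3a577c010 4094 (n false (n false (z 52) (n false e e)) e) (u 4 34 (k v (k v (k v (k (t 12 1 (u 8 3 (k v (k v r)))) r)))))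
 .z .z) (.s 0x3a5ddc010 4091 (n false (n false (z 42) (n false e e)) e) (u 4 7 (k v (k v (k r (k r (k r (k (u 8 2 (k v (k v r))) r)))))))
 .z .z)) (.s 0x3a5df6010 4083 (n false (n false (z 90) (n false e e)) e) (u 4 1 (k v (k r (k (c 12 4097 r r) (k r (k (c 8 4097 r (u 12 0 (k (u 20 0 (k v (k v r))) r))) (k (c 12 4097 r r) (k r (k (c 12 4095 r r) (k (c 8 4095 r r) r))))))))))
 (.s 0x3a5df4010 4088 (n false (n false (z 26) (n false e e)) e) (u 4 2 (k v (k (u 8 1 (k v (k v r))) r)))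
 .z .z) (.s 0x3a5fd4008 4094 (n false (n false (z 14) e) (n false e e)) (c 2 4096 (u 2 0 (k v (k v r))) v)
 .z .z))) (.s 0x3a7dde010 4089 (n false (n false (z 107) (n false e e)) e) (u 4 1 (k v (k r (k (c 12 4099 r r) (k (c 12 4100 r (u 8 0 (k (u 16 0 (k v (k v r))) r))) r)))))
 (.s 0x3a7d5e010 4085 (n false (n false (z 99) (n false e e)) e) (u 4 0 (k (c 12 4096 r r) (k (c 12 4096 r r) (k (c 12 4096 r r) (k (c 12 4096 r r) (k (c 12 4096 r r) r))))))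
 (.s 0x3a7d56010 4088 (n false (n false (z 67) (n false e e)) e) (u 4 35 (k v (k r (k (c 12 4099 r r) (k (c 8 4096 r (u 12 0 (k (u 20 0 (k v (k v r))) r))) (k (c 8 4096 r (u 12 0 (k (u 20 0 (k v (k v r))) r))) (k (c 12 4097 r r) (k (c 12 4099 r r) (k (c 12 4097 r r) (k (c 12 4099 r r) (k (c 8 4100 r r) (k (c 12 4099 r (u 8 0 (k (u 16 0 (k v (k v r))) r))) (k (c 8 4099 r r) (k (c 12 4099 r r) (k (c 8 4099 r (u 12 0 (k (u 20 0 (k v (k v r))) r))) (k (c 12 4100 r r) (k (c 12 4100 r r) (k (c 12 4099 r r) (k (c 12 4099 r r) (k (c 12 4100 r r) (k (c 12 4099 r r) r)))))))))))))))))))))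
 .z .z) (.s 0x3a7ddc010 4085 (n false (n false (z 43) (n false e e)) e) (u 4 0 (k v (k r (k (c 12 4099 r (u 8 0 (k (u 16 0 (k v (k v r))) r))) (k r (k (u 8 1 (k v (k (u 16 1 (k v (k v r))) (k (c 24 4099 r (u 16 0 (k v (k v r)))) (k (u 16 1 (k v (k v r))) (k (c 24 4097 r (u 16 1 (k v (k v r)))) (k (c 16 4095 r (u 24 1 (k v (k v r)))) r))))))) (k (u 8 0 (k (u 16 0 (k v (k v r))) r)) (k r (k r r)))))))))
 .z .z)) (.s 0x3a7f56010 4093 (n false (n false (z 71) (n false e e)) e) (u 4 2 (k r (k r (k (c 12 4099 r r) (k (c 12 4100 r r) (k (c 12 4100 r r) (k (c 12 4100 r r) r)))))))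
 (.s 0x3a7dfe010 4091 (n false (n false (z 123) (n false e e)) e) (u 4 1 (k v (k v (k (c 12 4099 r (u 8 1 (k v (k v (k v (k (c 24 4097 r r) r)))))) (k r (k r (k r (k (c 12 4100 r r) (k (c 12 4097 r r) r)))))))))
 .z .z) .z))) (.s 0x3b9d75800 4096 (n false (n false (n true (z 73) e) e) e) (u 8 0 (k (u 16 8 (k v (k v (k v (k v (k (c 32 4101 r (u 48 0 (k v (k v r)))) (k (c 8 4088 r v) (k (c 48 4101 r (u 32 1 (k v (k v r)))) (k (c 48 4102 r (u 32 1 (k v (k v r)))) (k (c 32 4101 r (u 48 1 (k v (k v r)))) (k (c 32 4101 r (u 48 1 (k v (k v r)))) r))))))))))) r))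
 (.s 0x3a9f55800 4082 (n false (n false (n false (z 67) e) e) e) (u 8 3 (k v (k (t 24 2 r) (k (t 16 2 (u 24 0 (k (u 40 0 (k v (k v r))) r))) (k (t 16 1 (u 24 0 (k (u 40 0 (k v (k v r))) r))) (k (t 24 1 r) (k (t 24 2 r) (k r (k (t 24 1 r) (k (t 24 2 (u 16 1 (k v (k (c 48 4097 r (u 32 0 (k v (k v r)))) r)))) (k (t 16 2 r) (k (t 24 2 (u 16 0 (k (u 32 0 (k v (k v r))) r))) (k (t 16 1 r) (k (t 24 2 r) (k (t 16 1 (u 24 0 (k (u 40 0 (k v (k v r))) r))) (k r (k (t 24 2 r) (k (t 24 1 r) (k (t 24 2 r) (k (t 24 2 r) (k (t 24 1 r) r)))))))))))))))))))))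
 (.s 0x3a7fd4010 4088 (n false (n false (z 15) (n false e e)) e) (u 4 0 (k v (k (u 8 0 (k (u 16 0 (k v (k v r))) r)) r)))
 (.s 0x3a7f7e010 4086 (n false (n false (z 119) (n false e e)) e) (u 4 1 (k (c 8 4097 r r) (k (c 12 4096 r r) (k (c 12 4096 r r) (k (c 8 4097 r r) (k (c 8 4097 r r) (k (c 8 4097 r r) (k (c 12 4096 r (u 8 0 (k (u 16 0 (k v (k v r))) r))) (k (c 12 4097 r r) (k (c 12 4097 r r) (k (c 12 4097 r r) (k (c 12 4097 r r) (k (c 12 4097 r r) (k (c 12 4097 r r) r))))))))))))))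
 .z .z) (.s 0x3a7fd6010 4086 (n false (n false (z 79) (n false e e)) e) (u 4 6 (k r (k (c 8 4100 r (u 12 0 (k (u 20 0 (k v (k v r))) r))) (k (c 8 4100 r (u 12 0 (k (u 20 0 (k v (k v r))) r))) r))))
 .z .z)) (.s 0x3b9777000 4085 (n false (n false (n true (z 42) e) e) e) (u 8 5 (k v (k r (k r (k (c 4 4087 (t 6 1 r) v) (k (u 16 11 (k v (k r (k (u 32 5 (k v (k v r))) (k r r))))) (k (c 4 4087 r v) r)))))))
 (.s 0x3a9fdf000 4087 (n false (n false (n false (z 55) e) e) e) (u 8 4 (k (t 24 1 (u 16 3 (k v (k r (k r (k (c 48 4099 r (t 32 3 v)) (k (u 32 4 (k v (k (t 96 1 (u 64 4 (k v (k v r)))) r))) (k (u 32 4 (k v (k (t 96 1 (u 64 4 (k v (k v r)))) r))) r)))))))) (k (c 4 4091 (t 6 2 r) v) r)))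
 .z .z) .z)) (.s 0x3b9fd7800 4077 (n false (n false (n true (z 103) e) e) e) (u 8 3 (k (t 16 1 r) (k (t 24 2 r) (k (t 24 1 r) (k (t 24 1 r) r)))))
 (.s 0x3b9f55800 4076 (n false (n false (n true (z 67) e) e) e) (u 8 3 (k v (k (t 24 2 r) (k (t 16 2 (u 24 0 (k (u 40 0 (k v (k v r))) r))) (k (t 16 1 (u 24 0 (k (u 40 0 (k v (k v r))) r))) (k (t 24 1 r) (k (t 24 2 r) (k r (k (t 24 1 r) (k (t 24 2 r) (k (t 16 2 r) (k (t 24 2 (u 16 0 (k (u 32 0 (k v (k v r))) r))) (k (t 16 1 r) (k (t 24 2 r) (k (t 16 1 (u 24 0 (k (u 40 0 (k v (k v r))) r))) (k (t 24 1 r) (k (t 24 2 r) (k (t 24 1 r) (k (t 24 2 r) (k (t 24 2 r) (k (t 24 1 r) r)))))))))))))))))))))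
 (.s 0x3b9d7d800 4083 (n false (n false (n true (z 89) e) e) e) (u 8 13 (k v (k v (k v (k v (k (t 24 3 (u 16 249 (k v (k v (k v (k v (k v r))))))) (k (t 24 2 r) (k (t 24 1 r) r))))))))
 .z .z) (.s 0x3b9fd5800 4087 (n false (n false (n true (z 71) e) e) e) (u 8 6 (k r (k r (k (u 16 1 (k v (k (t 48 1 r) (k (t 32 2 r) (k (t 32 1 r) r))))) (k (t 24 1 r) (k (t 24 1 r) (k (t 24 1 r) r)))))))
 .z .z)) (.s 0x3e5f74008 4095 (n false (n true (z 22) e) (n false e e)) (c 2 4097 (u 2 0 (k v (k v r))) v)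
 (.s 0x3b9fdf800 4084 (n false (n false (n true (z 119) e) e) e) (u 8 28 (k r (k r (k (t 16 1 r) (k (t 24 2 r) (k (t 24 1 r) (k (t 16 4 r) (k (t 16 1 r) (k (t 16 1 r) (k (c 4 4088 (t 6 2 (u 4 0 (k r r))) v) (k (t 24 1 r) (k (t 24 4 r) (k (t 24 1 r) (k (t 24 4 r) r))))))))))))))
 .z .z) .z))))

set_option maxRecDepth 100000 in
def N11 : NT :=
(.s 0x1cabfc03a0 4091 (n false (z 120) (n true (n false (n false e e) e) e)) (u 2 2 (k v (k v (k (t 6 1 r) (k r (k (c 6 4101 r r) (k (c 4 4099 r (u 6 0 (k v (k v r)))) (k (c 6 4096 r r) (k (c 3 4093 v (t 6 1 (u 4 0 (k r r)))) (k (c 6 4099 r (u 4 1 (k v (k v r)))) (k (c 4 4098 r (u 6 1 (k v (k v r)))) (k (c 4 4101 r (u 6 0 (k v (k v r)))) (k r (k (c 6 4099 r (u 4 1 (k v (k v r)))) (k (c 4 4101 r (u 6 0 (k v (k v r)))) r)))))))))))))))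
 (.s 0x1caafc03a0 4085 (n false (z 112) (n true (n false (n false e e) e) e)) (u 2 1 (k (c 6 4099 r (u 4 1 (k v (k (t 12 2 r) (k (c 2 4076 (u 4 0 (k r r)) v) r))))) (k (u 4 1 (k v (k (t 12 1 r) (k (t 8 2 r) (k (t 8 1 r) r))))) r)))
 (.s 0x1caaba0050 4086 (n false (z 160) (n false (n false e e) e)) (u 2 2 (k r (k (t 4 2 r) (k (t 6 1 r) (k (u 6 15 (k r (k r r))) (k r (k (t 4 1 r) (k (t 4 1 r) (k (t 4 1 r) (k (t 4 1 r) r))))))))))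
 (.s 0x1caaac0288 4086 (n false (z 64) (n false (n false e e) (n false e e))) (u 2 0 (k (c 6 4099 r (u 4 0 (k v (k v (k (c 2 4084 (u 4 1 (k v (k v r))) v) r))))) r))
 (.s 0x3f9777000 4097 (n false (n true (n true (z 42) e) e) e) (c 4 4099 (u 2 0 (k v (k v r))) v)
 .z .z) (.s 0x1caaac03a0 4086 (n false (n true (n false (n false e e) e) e) (z 64)) (u 3 0 (k (t 7 1 (u 5 0 (k v (k v (k (c 3 4087 r v) r))))) r))
 .z .z)) (.s 0x1caaf80288 4088 (n false (z 48) (n false (n false e e) (n false e e))) (u 2 15 (k v (k r (k (c 6 4099 r (t 4 3 v)) (k (u 4 4 (k v (k (t 12 1 (u 8 2 (k v (k v r)))) r))) (k r (k r r)))))))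
 (.s 0x1caabc0288 4088 (n false (z 96) (n false (n false e e) (n false e e))) (u 2 0 (k (c 6 4099 r (u 4 0 (k (t 12 2 (u 8 2 (k v (k (c 2 4084 (u 8 3 (k v (k v r))) v) r)))) r))) r))
 .z .z) (.s 0x1caafc0288 4085 (n false (z 112) (n false (n false e e) (n false e e))) (u 2 1 (k (c 6 4099 r (u 4 10 (k v (k v (k (t 12 2 r) r))))) (k (u 4 6 (k v (k (t 12 1 r) (k (t 8 2 r) (k (t 8 1 r) r))))) r)))
 .z .z))) (.s 0x1cabf802a0 4088 (n false (z 56) (n false (n false (n false e e) e) e)) (u 2 2 (k r (k (u 4 1 (k v (k v r))) (k (c 4 4096 r (u 6 0 (k v (k v r)))) (k (c 6 4096 r r) r)))))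
 (.s 0x1cabea0050 4086 (n false (z 152) (n false (n false e e) e)) (u 2 0 (k (t 4 2 r) (k (t 4 1 r) (k (t 6 2 r) (k (t 6 2 r) r)))))
 (.s 0x1cabbc0288 4090 (n false (z 104) (n false (n false e e) (n false e e))) (u 2 0 (k (c 4 4100 r r) (k (c 6 4100 r r) (k (c 6 4100 r r) (k (c 6 4100 r r) (k (c 6 4100 r r) (k (c 6 4101 r r) r)))))))
 .z .z) (.s 0x1cabf80288 4080 (n false (z 56) (n false (n false e e) (n false e e))) (u 2 0 (k r (k (c 4 4096 r (u 6 0 (k v (k v r)))) (k (u 4 1 (k v (k v r))) (k (c 6 4096 r r) r)))))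
 .z .z)) (.s 0x1cabfc0288 4085 (n false (z 120) (n false (n false e e) (n false e e))) (u 2 0 (k v (k (c 6 4099 r r) (k (c 6 4100 r r) (k (c 6 4099 r r) (k (c 6 4100 r r) (k (c 4 4095 r r) (k (c 4 4099 r (u 6 0 (k v (k v r)))) (k (c 6 4096 r r) (k (c 6 4096 r (u 4 0 (k (u 8 0 (k v (k v r))) r))) (k (c 6 4100 r (u 4 0 (k (u 8 0 (k v (k v r))) r))) (k (c 6 4101 r (u 4 0 (k v (k v (k r (k r (k (c 12 4096 r r) (k r r)))))))) (k (c 6 4099 r (u 4 1 (k v (k v r)))) (k (c 4 4098 r (u 6 1 (k v (k v r)))) (k (c 4 4101 r (u 6 0 (k v (k v r)))) (k (c 6 4099 r r) (k (c 4 4095 r r) (k (c 6 4099 r (u 4 1 (k v (k v r)))) (k (c 4 4101 r (u 6 0 (k v (k v r)))) r)))))))))))))))))))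
 (.s 0x1cabf803a0 4087 (n false (n true (n false (n false e e) e) e) (z 56)) (u 3 0 (k r (k (c 5 4096 r (u 7 0 (k v (k v r)))) (k (u 5 1 (k v (k v r))) (k (c 7 4096 r r) r)))))
 .z .z) .z))) (.s 0x1cbaaa0050 4089 (n false (z 130) (n false (n false e e) e)) (u 2 0 (k (t 6 1 r) (k (c 3 4094 v (t 6 1 (u 4 0 (k r r)))) (k r (k (c 3 4094 v (t 6 1 r)) r)))))
 (.s 0x1caeea0050 4085 (n false (z 148) (n false (n false e e) e)) (u 2 9 (k (t 6 3 r) (k r (k (u 4 36 (k r (k r (k r r)))) (k (t 6 3 r) (k (t 6 3 r) (k (t 6 10 r) (k (t 6 2 r) (k (u 4 36 (k r (k r (k r r)))) (k r r))))))))))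
 (.s 0x1caebc0288 4088 (n false (z 100) (n false (n false e e) (n false e e))) (u 2 0 (k (c 6 4096 r r) (k (c 6 4096 r r) (k (c 6 4096 r r) (k (c 6 4097 r r) (k (c 6 4096 r r) (k (c 6 4096 r r) r)))))))
 (.s 0x1caeb80288 4083 (n false (z 36) (n false (n false e e) (n false e e))) (u 2 0 (k (u 4 0 (k v (k v (k (c 2 4084 (u 4 1 (k v (k v r))) v) r)))) r))
 .z .z) (.s 0x1caebc03a0 4088 (n false (z 100) (n true (n false (n false e e) e) e)) (u 2 0 (k r (k r (k r (k (c 6 4097 r r) (k r (k r r)))))))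
 .z .z)) (.s 0x1caffc0288 4083 (n false (z 124) (n false (n false e e) (n false e e))) (u 2 1 (k v (k (c 6 4097 r (u 4 1 (k v (k v r)))) (k (c 6 4096 r (u 4 1 (k v (k v r)))) (k (c 4 4098 r (u 6 0 (k v (k v r)))) (k (c 6 4096 r (u 4 1 (k v (k v r)))) (k (c 6 4097 r (u 4 1 (k v (k v r)))) (k (c 6 4097 r (u 4 1 (k v (k v r)))) (k (c 6 4096 r (u 4 1 (k v (k v r)))) (k (c 6 4099 r (u 4 1 (k v (k v r)))) (k (c 4 4097 r (u 6 1 (k v (k v r)))) r)))))))))))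
 (.s 0x1cafbc02a0 4089 (n false (z 108) (n false (n false (n false e e) e) e)) (u 2 0 (k (t 6 2 (u 4 0 (k (c 12 4099 r (u 8 0 (k v (k r (k (c 24 4099 r (u 16 0 (k (u 32 0 (k v (k v r))) r))) (k r (k (c 3 4093 v r) (k (u 16 0 (k (u 32 0 (k v (k v r))) r)) (k r (k r r)))))))))) r))) r))
 .z .z) .z)) (.s 0x1cbafc03a0 4085 (n false (z 114) (n true (n false (n false e e) e) e)) (u 2 0 (k (t 6 3 (u 4 15 (k v (k v r)))) r))
 (.s 0x1cbaea0050 4085 (n false (z 146) (n false (n false e e) e)) (u 2 0 (k (t 4 1 r) (k (t 6 1 r) (k (t 6 1 r) r))))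
 (.s 0x1cbab80288 4088 (n false (z 34) (n false (n false e e) (n false e e))) (u 2 0 (k (t 6 1 (u 4 7 (k v (k v r)))) r))
 .z .z) (.s 0x1cbaf80288 4083 (n false (z 50) (n false (n false e e) (n false e e))) (u 2 1 (k v (k (c 6 4097 r (u 4 0 (k v (k v r)))) r)))
 .z .z)) (.s 0x1cbbac03a0 4090 (n false (z 74) (n true (n false (n false e e) e) e)) (u 2 3 (k v (k (t 4 1 (u 6 2 (k v (k v r)))) (k (c 3 4093 v (t 4 1 r)) r))))
 (.s 0x1cbbaa0070 4091 (n false (z 138) (n true (n false e e) e)) (c 3 4094 v (u 2 0 (k (u 6 0 (k (c 14 4101 r (t 10 3 r)) r)) r)))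
 .z .z) .z))))

set_option maxRecDepth 100000 in
def N12 : NT :=
(.s 0x1cebec0288 4088 (n false (z 89) (n false (n false e e) (n false e e))) (u 2 1 (k v (k v (k v (k (c 6 4097 r r) r)))))
 (.s 0x1cbfb802a0 4089 (n false (z 46) (n false (n false (n false e e) e) e)) (u 2 1 (k v (k (u 4 1 (k v (k v r))) (k (c 6 4099 r (u 4 0 (k v (k v r)))) (k (u 4 1 (k v (k v r))) (k (c 6 4097 r (u 4 1 (k v (k v r)))) (k (c 4 4095 r (u 6 1 (k v (k v r)))) r)))))))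
 (.s 0x1cbbfc0288 4088 (n false (z 122) (n false (n false e e) (n false e e))) (u 2 0 (k (t 6 3 (u 4 53 (k v (k (c 12 4099 r r) (k (t 12 1 (u 8 2 (k v (k (c 4 4094 (c 3 4099 v (t 6 2 r)) v) r)))) (k (c 12 4099 r (c 4 4094 r v)) (k (c 4 4097 r v) (k (c 12 4096 r (c 4 4095 r v)) (k (c 8 4099 r r) r))))))))) (k (t 6 3 r) r)))
 (.s 0x1cbbe80288 4085 (n false (z 26) (n false (n false e e) (n false e e))) (u 2 9 (k v (k v (k (u 4 1 (k v (k v r))) r))))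
 (.s 0x1cbbbc03a0 4086 (n false (z 106) (n true (n false (n false e e) e) e)) (u 2 5 (k v (k (t 6 2 r) (k (t 6 2 r) (k (t 6 1 r) (k (t 6 1 r) (k (t 4 1 r) (k (t 6 3 r) (k (t 6 1 r) (k (t 6 3 r) r))))))))))
 .z .z) (.s 0x1cbbec0288 4084 (n false (z 90) (n false (n false e e) (n false e e))) (u 2 6 (k v (k r (k r (k r (k (c 6 4097 r r) (k (c 6 4096 r r) (k (c 6 4097 r r) (k (c 6 4095 r r) (k (c 4 4095 r r) r))))))))))
 .z .z)) (.s 0x1cbefc0288 4089 (n false (z 118) (n false (n false e e) (n false e e))) (u 2 1 (k v (k (t 6 1 r) (k (t 6 1 r) r))))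
 (.s 0x1cbebc0288 4082 (n false (z 102) (n false (n false e e) (n false e e))) (u 2 0 (k (u 4 0 (k r (k r (k r (k r (k r (k r r))))))) (k r (k (t 4 2 r) (k r (k r (k r (k r (k (t 6 2 r) r)))))))))
 .z .z) (.s 0x1cbfb80288 4083 (n false (z 46) (n false (n false e e) (n false e e))) (u 2 0 (k v (k (u 4 1 (k v (k v r))) (k (u 4 1 (k v (k v r))) (k (c 6 4099 r (u 4 0 (k v (k v r)))) (k (c 6 4097 r (u 4 1 (k v (k v r)))) (k (c 4 4095 r (u 6 1 (k v (k v r)))) r)))))))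
 .z .z))) (.s 0x1ceafc0288 4087 (n false (z 113) (n false (n false e e) (n false e e))) (u 2 1 (k (c 6 4099 r (u 4 0 (k v (k r r)))) (k (c 6 4097 r (u 4 0 (k (u 8 0 (k v (k v r))) r))) (k (c 6 4101 r (u 4 1 (k v (k v r)))) r))))
 (.s 0x1ceabc0288 4088 (n false (z 97) (n false (n false e e) (n false e e))) (u 2 0 (k (t 6 1 (u 4 0 (k v (k v r)))) r))
 (.s 0x1cbfb803a0 4089 (n false (z 46) (n true (n false (n false e e) e) e)) (u 2 1 (k v (k (u 4 1 (k v (k v r))) (k (c 6 4099 r (u 4 0 (k v (k v r)))) (k (u 4 1 (k v (k v r))) (k (c 6 4097 r (u 4 1 (k v (k v r)))) (k (c 4 4095 r (u 6 1 (k v (k v r)))) r)))))))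
 .z .z) (.s 0x1ceaea0050 4086 (n false (z 145) (n false (n false e e) e)) (u 2 0 (k (u 6 2 (k r (k r r))) (k (u 4 23 (k r (k (u 6 1 (k v (k (c 14 4097 r (u 10 0 (k v (k v r)))) r))) r))) (k (u 6 2 (k r (k r r))) (k (t 4 1 (u 6 0 (k (u 10 0 (k v (k v r))) r))) (k (u 6 23 (k r (k r r))) (k (u 4 37 (k r (k r (k r r)))) (k (u 6 2 (k r (k r r))) (k (t 6 1 r) (k (t 4 1 r) (k (t 6 2 r) (k (u 6 61 (k r (k r (k r r)))) (k (u 4 37 (k r (k r (k r r)))) (k r (k (u 6 37 (k r (k r (k r r)))) (k (u 4 0 (k r (k (c 12 4099 r (u 8 0 (k r (k r r)))) r))) r))))))))))))))))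
 .z .z)) (.s 0x1cebea0070 4090 (n false (z 153) (n true (n false e e) e)) (c 3 4094 v (u 2 2 (k (t 4 1 r) (k (t 4 1 r) (k (t 6 1 r) (k (t 4 1 r) (k (t 4 2 r) (k (t 4 1 r) r))))))))
 (.s 0x1cebea0050 4079 (n false (z 153) (n false (n false e e) e)) (u 2 0 (k (t 6 1 r) (k (t 4 1 r) (k (t 6 1 r) (k (t 6 1 r) (k (t 6 1 r) (k (t 6 1 r) r)))))))
 .z .z) .z))) (.s 0x1ceeac0288 4088 (n false (z 69) (n false (n false e e) (n false e e))) (u 2 3 (k v (k v (k (t 6 3 r) (k (t 6 3 r) r)))))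
 (.s 0x1cebfc02a0 4091 (n false (z 121) (n false (n false (n false e e) e) e)) (u 2 5 (k v (k v (k v (k (c 6 4099 r (u 4 1 (k v (k v r)))) (k (c 4 4097 r (u 6 1 (k v (k v r)))) r))))))
 (.s 0x1cebf803a0 4085 (n false (z 57) (n true (n false (n false e e) e) e)) (u 2 1 (k v (k (t 4 1 (t 6 3 v)) r)))
 (.s 0x1cebec03a0 4088 (n false (z 89) (n true (n false (n false e e) e) e)) (u 2 11 (k v (k r (k r (k (c 6 4099 r r) (k r (k (t 6 3 (u 4 0 (k v (k v r)))) (k (c 3 4093 v (t 4 1 r)) (k (c 3 4093 v (t 6 2 r)) r)))))))))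
 .z .z) (.s 0x1cebfc0288 4085 (n false (z 121) (n false (n false e e) (n false e e))) (u 2 3 (k v (k v (k (c 6 4099 r (u 4 1 (k v (k v r)))) (k (c 4 4097 r (u 6 1 (k v (k v r)))) r)))))
 .z .z)) (.s 0x1ceeaa0050 4086 (n false (z 133) (n false (n false e e) e)) (u 2 0 (k (t 4 1 r) (k (t 4 1 r) (k (t 4 1 r) (k (t 4 1 r) (k (t 6 1 r) (k (t 4 1 r) (k (t 6 1 r) (k (t 6 1 r) r)))))))))
 (.s 0x1cebfc03a0 4091 (n false (z 121) (n true (n false (n false e e) e) e)) (u 2 4 (k v (k v (k (c 6 4099 r (u 4 1 (k v (k v r)))) (k (c 4 4097 r (u 6 1 (k v (k v r)))) r)))))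
 .z .z) .z)) (.s 0x1ceeec0288 4083 (n false (z 85) (n false (n false e e) (n false e e))) (u 2 4 (k v (k (c 6 4099 r r) (k (c 6 4099 r r) (k (c 6 4099 r (u 4 1 (k v (k v (k v (k (t 12 1 r) r)))))) (k (u 4 2 (k v (k v (k v (k (t 12 2 (u 8 6 (k v (k v (k (t 24 1 (u 16 3 (k v (k v r)))) r))))) r))))) (k (c 6 4096 r r) (k (c 4 4099 r r) r))))))))
 (.s 0x1ceebc0288 4088 (n false (z 101) (n false (n false e e) (n false e e))) (u 2 0 (k (t 6 3 (u 4 0 (k (c 12 4099 r (u 8 4 (k v (k (c 4 4084 (u 4 1 (k v (k v r))) v) r)))) r))) r))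
 (.s 0x1ceeb80288 4085 (n false (z 37) (n false (n false e e) (n false e e))) (u 2 0 (k v (k (u 4 0 (k (t 8 3 (t 12 1 v)) r)) (k (u 4 0 (k (t 8 3 (t 12 1 v)) r)) (k r (k r (k (u 4 3 (k v (k v r))) r)))))))
 .z .z) (.s 0x1ceeea0050 4086 (n false (z 149) (n false (n false e e) e)) (u 2 1 (k (t 6 2 r) (k (c 3 4094 v (u 4 0 (k (c 12 4101 r r) (k (c 8 4101 r r) (k (c 8 4101 r r) r))))) (k (t 4 2 r) (k (t 4 1 r) (k (t 6 1 r) (k (t 6 2 r) (k (t 6 1 r) (k (t 4 1 r) r)))))))))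
 .z .z)) (.s 0x1ceeec03a0 4089 (n false (z 85) (n true (n false (n false e e) e) e)) (u 2 10 (k (c 6 4099 r r) (k (c 6 4099 r r) (k (c 6 4099 r r) (k r (k (c 6 4101 r r) (k (c 6 4096 r r) (k (c 4 4099 r r) r))))))))
 (.s 0x1ceeec02a0 4091 (n false (z 85) (n false (n false (n false e e) e) e)) (u 2 9 (k v (k v (k (c 6 4099 r r) (k (u 4 6 (k v (k v r))) (k (c 6 4101 r r) (k (c 4 4099 r r) r)))))))
 .z .z) .z))))

set_option maxRecDepth 100000 in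
def N13 : NT :=
(.s 0x1cfbbc03a0 4085 (n false (z 107) (n true (n false (n false e e) e) e)) (u 2 9 (k v (k (t 6 1 (u 4 6 (k (c 12 4099 r r) (k (c 6 4099 v r) (k (u 8 1 (k v (k (c 16 4100 r (c 10 4101 v r)) (k (c 24 4100 r (c 10 4101 v r)) (k (c 24 4100 r (c 10 4101 v r)) r))))) (k (c 8 4099 r r) (k (c 8 4099 r r) (k (c 8 4099 r r) r)))))))) (k (c 3 4093 v r) (k (u 4 0 (k r r)) r)))))
 (.s 0x1cfabc0288 4085 (n false (z 99) (n false (n false e e) (n false e e))) (u 2 0 (k (c 6 4096 r r) (k (c 6 4096 r r) (k (c 6 4096 r r) (k (c 6 4096 r r) (k (c 6 4096 r r) r))))))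
 (.s 0x1cefea0050 4089 (n false (z 157) (n false (n false e e) e)) (u 2 3 (k (t 6 1 r) (k (t 6 1 (u 4 0 (k (u 8 1 (k v (k v (k (t 24 1 (u 16 0 (k v (k (c 48 4099 r (u 32 0 (k v (k v r)))) r)))) r)))) r))) (k (c 6 4098 r r) (k (t 6 1 (u 4 0 (k (c 12 4097 r (u 8 1 (k v (k v (k (t 24 1 (u 16 0 (k v (k (c 48 4099 r (u 32 0 (k v (k v r)))) r)))) r))))) (k (c 8 4098 r (u 12 0 (k (t 28 1 (u 20 21 (k v (k v (k (u 36 0 (k v (k v r))) (k (c 36 4097 r (u 52 6 (k v (k v (k v r))))) r)))))) r))) r)))) r)))))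
 (.s 0x1cefac0288 4088 (n false (z 77) (n false (n false e e) (n false e e))) (u 2 0 (k (c 6 4099 r r) (k r (k r (k r r)))))
 (.s 0x1cefaa0070 4090 (n false (z 141) (n true (n false e e) e)) (c 3 4094 v (u 2 5 (k (t 6 1 (u 4 0 (k r r))) (k (t 6 2 r) (k (t 6 2 (u 4 0 (k (c 12 4097 r r) r))) (k (t 6 1 (u 4 0 (k (c 12 4100 r r) (k (c 12 4103 r r) (k (c 12 4100 r r) r))))) r))))))
 .z .z) (.s 0x1cefe803a0 4085 (n false (n true (n false (n false e e) e) e) (z 29)) (u 3 0 (k (u 5 0 (k (t 9 3 (t 13 1 v)) r)) r))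
 .z .z)) (.s 0x1cfaac0288 4088 (n false (z 67) (n false (n false e e) (n false e e))) (u 2 10 (k v (k v (k (c 6 4099 r r) (k (c 4 4096 r (u 6 0 (k (u 10 0 (k v (k v r))) r))) (k (c 4 4096 r (u 6 0 (k (u 10 0 (k v (k v r))) r))) (k (c 4 4101 r (u 6 0 (k v (k v r)))) (k (c 6 4099 r r) (k r (k (c 4 4099 r (u 6 0 (k v (k v r)))) (k (c 6 4099 r r) (k (c 6 4099 r (u 4 0 (k (u 8 0 (k v (k v r))) r))) (k (c 6 4101 r (u 4 1 (k v (k v r)))) (k (c 6 4099 r r) (k (c 6 4102 r (u 4 1 (k v (k v r)))) (k (c 6 4100 r r) (k (c 4 4101 r (u 6 1 (k v (k v r)))) (k (c 6 4099 r r) (k (c 4 4101 r (u 6 1 (k v (k v r)))) r)))))))))))))))))))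
 (.s 0x1ceffc0288 4085 (n false (z 125) (n false (n false e e) (n false e e))) (u 2 0 (k (t 6 3 (u 4 4 (k v (k v (k (u 8 1 (k v (k v r))) (k (c 8 4097 r (u 12 0 (k v (k v r)))) (k (c 8 4097 r (u 12 0 (k v (k v r)))) (k (c 8 4096 r (u 12 0 (k v (k v r)))) (k (c 8 4095 r (u 12 0 (k v (k v r)))) r))))))))) (k (t 6 3 r) r)))
 .z .z) (.s 0x1cfaac03a0 4093 (n false (n true (n false (n false e e) e) e) (z 67)) (u 3 13 (k v (k v (k v (k v (k v (k (c 2 4093 v (t 5 1 (u 7 0 (k r r)))) (k (u 7 0 (k r (k (t 5 2 v) r))) (k (u 7 0 (k r (k (t 5 1 v) r))) (k (t 7 1 (u 5 12 (k v (k v (k v r))))) (k (c 5 4101 r (u 7 0 (k v (k v r)))) (k r (k (c 2 4093 v r) (k (c 5 4099 r (u 7 0 (k v (k v r)))) (k (c 2 4093 v (t 7 2 (u 5 0 (k r r)))) (k (c 7 4101 r (u 5 1 (k v (k v r)))) (k (t 7 1 (u 5 9 (k v (k v (k v (k (c 13 4099 r (u 9 1 (k v (k v r)))) r)))))) (k (t 7 1 (u 5 3 (k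 v (k v (k (c 13 4099 r (u 9 1 (k v (k v r)))) r))))) r))))))))))))))))))
 .z .z))) (.s 0x1cfbac03a0 4086 (n false (z 75) (n true (n false (n false e e) e) e)) (u 2 1 (k v (k (t 6 2 r) (k (c 3 4093 v (u 4 0 (k r r))) r))))
 (.s 0x1cfbaa0050 4081 (n false (z 139) (n false (n false e e) e)) (u 2 1 (k v (k (t 6 2 (u 4 0 (k (u 8 0 (k v (k v r))) r))) r)))
 (.s 0x1cfaec0288 4088 (n false (z 83) (n false (n false e e) (n false e e))) (u 2 2 (k v (k (t 6 1 r) (k (t 6 1 (u 4 0 (k r r))) r))))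
 .z .z) (.s 0x1cfbac0288 4091 (n false (z 75) (n false (n false e e) (n false e e))) (u 2 5 (k v (k (u 4 0 (k (u 8 0 (k v (k v r))) r)) r)))
 .z .z)) (.s 0x1cfbbc0288 4088 (n false (z 107) (n false (n false e e) (n false e e))) (u 2 1 (k v (k (u 4 2 (k v (k (c 12 4099 r (u 8 4 (k v (k v r)))) r))) (k (c 6 4099 r r) (k (c 4 4102 r (u 6 1 (k v (k v r)))) r)))))
 (.s 0x1cfbb80288 4085 (n false (z 43) (n false (n false e e) (n false e e))) (u 2 6 (k v (k r (k (u 4 0 (k (u 8 0 (k v (k v r))) r)) (k r (k (c 6 4099 r (u 4 0 (k (u 8 0 (k v (k v r))) r))) (k (u 4 1 (k v (k (u 8 1 (k v (k v r))) (k (c 12 4099 r (u 8 0 (k v (k v r)))) (k (u 8 0 (k v (k v r))) (k (c 12 4097 r (u 8 1 (k v (k v r)))) (k (c 8 4095 r (u 12 1 (k v (k v r)))) r))))))) (k r (k r r)))))))))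
 .z .z) .z))) (.s 0x1cfeac03a0 4092 (n false (n true (n false (n false e e) e) e) (z 71)) (u 3 5 (k v (k (u 5 0 (k v (k v r))) (k (c 7 4099 r (u 5 1 (k v (k v r)))) (k (c 5 4099 r (u 7 1 (k v (k v r)))) (k (c 5 4099 r (u 7 1 (k v (k v r)))) (k (c 5 4099 r (u 7 1 (k v (k v r)))) r)))))))
 (.s 0x1cfbfc0288 4086 (n false (z 123) (n false (n false e e) (n false e e))) (u 2 12 (k v (k r (k (c 6 4099 r (u 4 2 (k v (k v (k v (k (t 12 2 r) r)))))) (k (u 4 11 (k v (k v (k (c 12 4101 r r) (k (c 12 4099 r r) (k (c 12 4096 r (u 8 0 (k (u 16 0 (k v (k v r))) r))) (k (c 8 4098 r r) (k (c 8 4101 r r) (k (c 8 4099 r r) (k (c 8 4101 r r) r)))))))))) (k (c 4 4096 r (u 6 1 (k v (k v r)))) (k (c 6 4097 r r) r)))))))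
 (.s 0x1cfbec02a0 4088 (n false (z 91) (n false (n false (n false e e) e) e)) (u 2 4 (k v (k v (k (u 4 1 (k v (k v r))) (k (c 4 4097 r (u 6 0 (k v (k v r)))) (k (c 4 4097 r (u 6 0 (k v (k v r)))) (k (c 4 4096 r (u 6 0 (k v (k v r)))) (k (c 4 4095 r (u 6 0 (k v (k v r)))) r))))))))
 (.s 0x1cfbec0288 4083 (n false (z 91) (n false (n false e e) (n false e e))) (u 2 2 (k v (k v (k (u 4 1 (k v (k v r))) (k (c 4 4097 r (u 6 0 (k v (k v r)))) (k (c 4 4097 r (u 6 0 (k v (k v r)))) (k (c 4 4096 r (u 6 0 (k v (k v r)))) (k (c 4 4095 r (u 6 0 (k v (k v r)))) r))))))))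
 .z .z) (.s 0x1cfbec03a0 4088 (n false (z 91) (n true (n false (n false e e) e) e)) (u 2 4 (k v (k v (k (u 4 1 (k v (k v r))) (k (c 4 4097 r (u 6 0 (k v (k v r)))) (k (c 4 4097 r (u 6 0 (k v (k v r)))) (k (c 4 4096 r (u 6 0 (k v (k v r)))) (k (c 4 4095 r (u 6 0 (k v (k v r)))) r))))))))
 .z .z)) (.s 0x1cfeac0288 4086 (n false (z 71) (n false (n false e e) (n false e e))) (u 2 1 (k v (k (c 6 4099 r (u 4 1 (k v (k v r)))) (k (u 4 0 (k v (k v r))) (k (c 4 4099 r (u 6 1 (k v (k v r)))) (k (c 4 4099 r (u 6 1 (k v (k v r)))) (k (c 4 4099 r (u 6 1 (k v (k v r)))) r)))))))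
 (.s 0x1cfbfc03a0 4090 (n false (z 123) (n true (n false (n false e e) e) e)) (u 2 4 (k v (k (t 6 1 (u 4 6 (k v (k v r)))) (k r (k (u 4 4 (k v (k v (k (t 12 1 r) (k (c 8 4097 r r) (k (c 8 4097 r (u 12 2 (k v (k (c 28 4097 r (u 20 0 (k v (k v r)))) r)))) (k (c 12 4096 r (u 8 0 (k (u 16 0 (k v (k v r))) r))) (k (c 12 4097 r r) (k (c 12 4097 r r) (k (c 12 4097 r r) (k (c 12 4097 r r) (k (c 12 4097 r r) (k (c 12 4097 r r) r))))))))))))) (k (c 4 4096 r (u 6 1 (k v (k v r)))) (k (t 4 2 (u 6 2 (k v (k v r)))) r)))))))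
 .z .z) .z)) (.s 0x1cfef80288 4090 (n false (z 55) (n false (n false e e) (n false e e))) (u 2 1 (k v (k (t 6 1 (u 4 1 (k v (k (c 12 4099 r (t 8 3 v)) (k (u 8 4 (k v (k (t 24 1 (u 16 4 (k v (k v r)))) r))) (k (u 8 1 (k v (k (t 24 1 (u 16 1 (k v (k (c 48 4099 r (u 32 1 (k v (k v r)))) (k (c 32 4097 r (c 4 4090 r v)) (k (c 32 4095 r (c 4 4087 r v)) (k (c 32 4095 r (c 4 4087 r v)) r))))))) (k (c 4 4091 (t 6 1 r) v) r)))) r)))))) r)))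
 (.s 0x1cfebc0288 4088 (n false (z 103) (n false (n false e e) (n false e e))) (u 2 0 (k v (k (c 6 4101 r (u 4 1 (k v (k v r)))) (k (c 4 4101 r (u 6 1 (k v (k v r)))) (k (c 4 4101 r (u 6 1 (k v (k v r)))) r)))))
 (.s 0x1cfeb80288 4088 (n false (z 39) (n false (n false e e) (n false e e))) (u 2 0 (k (t 6 1 (u 4 0 (k v (k v (k (u 8 1 (k v (k v r))) r))))) r))
 .z .z) (.s 0x1cfebc03a0 4086 (n false (z 103) (n true (n false (n false e e) e) e)) (u 2 2 (k v (k r (k (u 6 1 (k r (k (u 4 1 (k v (k v r))) r))) (k (u 4 8 (k (u 6 1 (k v (k v r))) (k (c 2 4067 (u 3 1 (k v (k v r))) v) (k (c 12 4099 r r) (k (c 8 4098 r r) (k (c 8 4097 r r) (k (c 8 4099 r r) r))))))) r)))))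
 .z .z)) (.s 0x1cfefc03a0 4086 (n false (z 119) (n true (n false (n false e e) e) e)) (u 2 1 (k r (k (t 4 1 (u 6 0 (k (c 14 4101 r (t 10 3 v)) r))) (k r (k r (k r (k (u 6 1 (k r (k (c 14 4097 r (u 10 0 (k r (k r r)))) r))) (k (c 3 4093 v (t 6 2 (u 4 0 (k r r)))) (k r (k r (k r (k r (k (t 6 3 r) (k r r))))))))))))))
 (.s 0x1cfefc0288 4085 (n false (z 119) (n false (n false e e) (n false e e))) (u 2 0 (k v (k (c 6 4101 r r) (k (c 6 4096 r r) (k (c 6 4096 r r) (k (c 6 4099 r r) (k (c 6 4097 r r) (k (c 6 4096 r (u 4 0 (k (u 8 0 (k v (k v r))) r))) (k (c 4 4098 r r) (k (c 4 4101 r r) (k (c 4 4099 r r) (k (c 4 4101 r r) r))))))))))))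
 .z .z) .z))))

set_option maxRecDepth 100000 in
def N14 : NT :=
(.s 0x1d3afb0050 4090 (n false (n false (z 89) e) (n false (n false e e) e)) (u 4 7 (k v (k v (k v (k (c 12 4110 r r) (k (c 12 4110 r (u 8 1 (k v (k v r)))) (k (c 8 4099 r (c 3 4094 v (u 12 0 (k v (k (u 20 0 (k (u 36 0 (k v (k v r))) r)) r))))) (k (c 2 4093 (t 6 2 r) v) r))))))))
 (.s 0x1d2aff0050 4085 (n false (n false (z 120) e) (n false (n false e e) e)) (u 4 10 (k v (k v (k v (k (c 12 4101 r (u 8 5 (k v (k v r)))) (k (c 8 4099 r (u 12 0 (k v (k v r)))) (k (c 12 4096 r (c 3 4094 v r)) (k (c 2 4088 (t 6 1 (u 4 0 (k r r))) v) (k (c 12 4099 r (u 8 1 (k v (k v r)))) (k (c 8 4098 r (u 12 1 (k v (k v r)))) (k (c 8 4101 r (u 12 0 (k v (k v r)))) (k (c 12 4097 r (u 8 3 (k v (k v (k v r))))) (k (c 12 4099 r (u 8 1 (k v (k v r)))) (k (c 8 4101 r (u 12 0 (k v (k v r)))) r))))))))))))))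
 (.s 0x1cffbc0288 4087 (n false (z 111) (n false (n false e e) (n false e e))) (u 2 1 (k (t 6 3 r) (k (t 6 3 (u 4 0 (k (u 8 0 (k v (k v r))) r))) (k (c 6 4099 r r) (k (c 6 4101 r r) (k (c 4 4102 r (u 6 0 (k (u 10 0 (k v (k v r))) r))) r))))))
 (.s 0x1cffac0288 4085 (n false (z 79) (n false (n false e e) (n false e e))) (u 2 1 (k v (k r (k (c 6 4096 r (u 4 1 (k v (k v r)))) r))))
 (.s 0x1cffaa0050 4075 (n false (z 143) (n false (n false e e) e)) (u 2 1 (k r (k r (k (t 4 1 r) (k (t 6 1 r) (k r (k (t 6 1 r) r)))))))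
 .z .z) (.s 0x1cffac03a0 4088 (n false (z 79) (n true (n false (n false e e) e) e)) (u 2 2 (k v (k r (k (t 6 2 r) r))))
 .z .z)) (.s 0x1d2abe0088 4088 (n false (n false (z 48) (n false e e)) (n false e e)) (u 4 14 (k v (k (c 12 4099 r (t 8 3 v)) (k (u 8 4 (k v (k (t 24 1 (u 16 2 (k v (k v r)))) r))) (k (u 8 4 (k v (k (t 24 1 (u 16 4 (k v (k v r)))) r))) (k r (k r r)))))))
 (.s 0x1cfff80288 4088 (n false (z 63) (n false (n false e e) (n false e e))) (u 2 0 (k (t 6 3 (u 4 7 (k v (k v r)))) r))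
 .z .z) (.s 0x1d2afa0088 4094 (n false (n false (z 24) (n false e e)) (n false e e)) (c 2 4096 (c 2 4098 r v) v)
 .z .z))) (.s 0x1d2fba0070 4082 (n false (n false (z 22) e) (n true (n false e e) e)) (c 3 4094 v (u 4 1 (k v (k v r))))
 (.s 0x1d2efa0088 4087 (n false (n false (z 26) (n false e e)) (n false e e)) (u 4 2 (k v (k (u 8 1 (k v (k v r))) r)))
 (.s 0x1d2bbe0088 4093 (n false (n false (z 52) (n false e e)) (n false e e)) (c 2 4095 (c 2 4097 r v) v)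
 .z .z) (.s 0x1d2efa00e0 4087 (n false (n false (z 26) (n true (n false e e) e)) e) (u 4 2 (k v (k (u 8 3 (k v (k v r))) r)))
 .z .z)) (.s 0x1d3aef0088 4093 (n false (n false (z 105) (n false e e)) (n false e e)) (u 4 0 (k (c 12 4110 r r) (k (c 12 4110 r r) (k (t 12 3 (u 8 8 (k v (k r (k (c 24 4099 r r) (k (c 24 4101 r (c 2 4084 r v)) (k (c 16 4099 r r) (k (c 16 4097 r r) (k (t 24 1 (c 12 4110 v r)) (k (c 24 4096 r (u 16 0 (k (u 32 0 (k v (k v r))) r))) (k (t 24 1 (c 12 4110 v (u 16 0 (k (u 32 0 (k v (k v r))) r)))) (k (c 24 4099 r r) (k (c 16 4098 r (c 2 4077 r v)) (k (c 16 4101 r r) (k (t 24 2 (c 12 4110 v r)) (k (c 16 4095 r r) (k (c 24 4099 r r) (k (c 16 4101 r r) r)))))))))))))))))) r))))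
 (.s 0x1d2fee0050 4071 (n false (n false (z 46) e) (n false (n false e e) e)) (u 4 1 (k v (k (u 8 1 (k v (k v r))) (k (c 12 4099 r (u 8 0 (k v (k v r)))) (k (u 8 1 (k v (k v r))) (k (c 12 4097 r (u 8 1 (k v (k v r)))) (k (c 8 4095 r (u 12 1 (k v (k v r)))) r)))))))
 .z .z) .z))) (.s 0x1d3eff00e0 4084 (n false (n false (z 123) (n true (n false e e) e)) e) (u 4 25 (k v (k r (k (c 12 4099 r r) (k r (k r (k (c 8 4096 r r) (k (u 8 1 (k v (k (t 24 2 (u 16 0 (k (u 32 0 (k v (k v r))) r))) r))) (k (c 12 4097 r r) r)))))))))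
 (.s 0x1d3eab0050 4087 (n false (n false (z 67) e) (n false (n false e e) e)) (u 4 4 (k v (k v (k (c 12 4096 r r) (k (c 8 4101 r (u 12 0 (k v (k v r)))) (k (c 2 4088 r v) (k (c 8 4099 r (u 12 0 (k v (k v r)))) (k (c 12 4101 r (u 8 1 (k v (k v r)))) (k (c 12 4102 r (u 8 1 (k v (k v r)))) (k (c 8 4101 r (u 12 1 (k v (k v r)))) (k (c 8 4101 r (u 12 1 (k v (k v r)))) r)))))))))))
 (.s 0x1d3bae0050 4085 (n false (n false (z 37) e) (n false (n false e e) e)) (u 4 7 (k v (k r (k (u 8 4 (k v (k v (k v (k v r))))) (k (c 2 4088 r v) r)))))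
 (.s 0x1d3aff0050 4073 (n false (n false (z 121) e) (n false (n false e e) e)) (u 4 1 (k v (k (c 12 4099 r (u 8 1 (k v (k v r)))) (k (c 8 4097 r (u 12 1 (k v (k v r)))) (k (c 8 4095 r (c 3 4094 v r)) (k (c 8 4095 r (c 3 4094 v r)) r))))))
 .z .z) (.s 0x1d3bba8010 4087 (n false (n false (z 149) (n false e e)) e) (u 4 1 (k (c 12 4099 r r) (k (u 8 0 (k (c 16 4098 r r) (k (c 24 4098 r r) (k (c 24 4098 r r) r)))) (k (c 8 4098 r r) (k (c 8 4098 r r) (k (c 8 4099 r (u 12 0 (k (u 20 0 (k v (k v r))) r))) (k (c 12 4102 r r) (k (c 12 4102 r r) (k (c 8 4101 r r) r)))))))))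
 .z .z)) (.s 0x1d3eff0088 4085 (n false (n false (z 123) (n false e e)) (n false e e)) (u 4 26 (k v (k r (k r (k (c 12 4099 r r) (k r (k (c 8 4096 r r) (k (u 8 1 (k v (k (t 24 2 (u 16 0 (k (u 32 0 (k v (k v r))) r))) r))) (k (c 12 4097 r r) r)))))))))
 (.s 0x1d3eef0088 4088 (n false (n false (z 107) (n false e e)) (n false e e)) (u 4 4 (k v (k (c 12 4099 r r) (k (u 8 1 (k (c 24 4099 r (u 16 1 (k v (k (t 48 2 (u 32 11 (k v (k v (k (c 8 4085 (t 12 1 (u 8 0 (k r r))) v) r))))) (k (c 8 4076 (u 4 0 (k r r)) v) r))))) (k (c 4 4090 r v) r))) (k (c 8 4102 r r) r)))))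
 .z .z) .z)) (.s 0x1d3fbf0050 4085 (n false (n false (z 119) e) (n false (n false e e) e)) (u 4 29 (k v (k v (k (c 12 4101 r r) (k (c 8 4096 r r) (k (c 12 4099 r r) (k (c 12 4097 r r) (k (c 8 4102 r (u 12 0 (k (t 20 3 (t 28 1 v)) r))) (k (c 8 4098 r r) (k (c 8 4101 r r) (k (c 8 4099 r r) (k (c 8 4101 r r) r))))))))))))
 (.s 0x1d3fab0088 4086 (n false (n false (z 71) (n false e e)) (n false e e)) (u 4 6 (k (c 12 4099 r r) (k r (k r (k (c 8 4099 r r) (k (c 8 4099 r r) (k (c 8 4099 r r) r)))))))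
 (.s 0x1d3fab0050 4074 (n false (n false (z 71) e) (n false (n false e e) e)) (u 4 1 (k v (k (c 12 4099 r (u 8 1 (k v (k v r)))) (k (u 8 0 (k v (k v r))) (k (c 8 4099 r (u 12 1 (k v (k v r)))) (k (c 8 4099 r (u 12 1 (k v (k v r)))) (k (c 8 4099 r (u 12 1 (k v (k v r)))) r)))))))
 .z .z) (.s 0x1d3fab00e0 4086 (n false (n false (z 71) (n true (n false e e) e)) e) (u 4 2 (k r (k r (k (c 12 4099 r r) (k (c 8 4099 r r) (k (c 8 4099 r r) (k (c 8 4099 r r) r)))))))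
 .z .z)) (.s 0x1d4aaf8020 4088 (n false (n false (n false (z 48) (n false e e)) e) e) (u 8 7 (k v (k r (k (u 16 0 (k r (k r r))) (k r (k (c 24 4099 r (t 16 3 v)) (k (u 16 4 (k v (k (t 48 1 (u 32 16 (k v (k v r)))) r))) r)))))))
 (.s 0x1d3fea8010 4085 (n false (n false (z 143) (n false e e)) e) (u 4 1 (k (c 12 4096 r r) (k (c 12 4096 r r) (k (c 8 4098 r r) (k (c 12 4097 r r) (k (c 12 4096 r r) (k (c 12 4098 r r) r)))))))
 .z .z) .z))))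

set_option maxRecDepth 100000 in
def N15 : NT :=
(.s 0x1dcabfc010 4087 (n false (n false (n true (z 120) e) (n false e e)) e) (u 8 0 (k v (k (c 24 4099 r r) (k (c 24 4100 r r) (k (c 24 4099 r r) (k (c 24 4100 r r) (k (c 16 4095 r r) (k (c 16 4099 r (u 24 0 (k v (k v r)))) (k (c 24 4096 r (u 16 7 (k v (k v (k v (k (c 48 4099 r (u 32 1 (k v (k v r)))) r)))))) (k (c 24 4096 r (u 16 0 (k (u 32 0 (k v (k v r))) r))) (k (c 24 4100 r (u 16 0 (k (u 32 0 (k v (k v r))) r))) (k (c 24 4101 r r) (k (c 24 4099 r (u 16 1 (k v (k v r)))) (k (c 16 4098 r (u 24 1 (k v (k v r)))) (k (c 16 4101 r (u 24 0 (k v (k v r)))) (k (c 24 4099 r r) (k (c 16 4095 r r) (k (c 24 4099 r (u 16 1 (k v (k v r)))) (k (c 16 4101 r (u 24 0 (k v (k v r)))) r)))))))))))))))))))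
 (.s 0x1d4feac010 4086 (n false (n false (n false (z 71) e) (n false e e)) e) (u 8 1 (k v (k (c 24 4099 r (u 16 1 (k v (k v r)))) (k (u 16 0 (k v (k v r))) (k (c 16 4099 r (u 24 1 (k v (k v r)))) (k (c 16 4099 r (u 24 1 (k v (k v r)))) (k (c 16 4099 r (u 24 1 (k v (k v r)))) r)))))))
 (.s 0x1d4ebec010 4088 (n false (n false (n false (z 89) e) (n false e e)) e) (u 8 1 (k v (k v (k v (k (c 24 4097 r r) r)))))
 (.s 0x1d4bbb8010 4090 (n false (n false (n false (z 42) e) (n false e e)) e) (u 8 3 (k v (k (t 24 1 (u 16 0 (k (u 32 4 (k v (k (c 8 4088 r v) r))) r))) (k (u 16 2 (k v (k v r))) (k (u 16 0 (k v (k (u 32 4 (k v (k v (k v (k v r))))) r))) (k (u 16 2 (k v (k v (k (c 48 4099 r (u 32 1 (k v (k v r)))) (k (c 32 4095 r (u 48 0 (k v (k v r)))) (k (c 32 4095 r (u 48 0 (k v (k v r)))) r)))))) (k (u 16 2 (k v (k (c 48 4099 r (u 32 1 (k v (k v r)))) (k (c 32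 4095 r (u 48 0 (k v (k v r)))) r)))) r)))))))
 (.s 0x1d4abfc010 4085 (n false (n false (n false (z 120) e) (n false e e)) e) (u 8 0 (k v (k (c 24 4099 r r) (k (c 24 4100 r r) (k (c 24 4099 r r) (k (c 24 4100 r r) (k (c 16 4095 r r) (k (c 16 4099 r (u 24 0 (k v (k v r)))) (k (c 24 4096 r r) (k (c 24 4096 r (u 16 0 (k (u 32 0 (k v (k v r))) r))) (k (c 24 4100 r (u 16 0 (k (u 32 0 (k v (k v r))) r))) (k (c 24 4101 r (u 16 0 (k v (k v (k r (k r (k (c 48 4096 r r) (k r r)))))))) (k (c 24 4099 r (u 16 1 (k v (k v r)))) (k (c 16 4098 r (u 24 1 (k v (k v r)))) (k (c 16 4101 r (u 24 0 (k v (k v r)))) (k (c 24 4099 r r) (k (c 16 4095 r r) (k (c 24 4099 r (u 16 1 (k v (k v r)))) (k (c 16 4101 r (u 24 0 (k v (k v r)))) r)))))))))))))))))))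
 .z .z) (.s 0x1d4bee8008 4088 (n false (n false (n false (z 22) e) e) (n false e e)) (c 2 4084 (u 4 1 (k v (k v r))) v)
 .z .z)) (.s 0x1d4faac010 4087 (n false (n false (n false (z 67) e) (n false e e)) e) (u 8 1 (k v (k v (k r (k (c 24 4099 r r) (k (c 16 4096 r (u 24 0 (k (u 40 0 (k v (k v r))) r))) (k (c 16 4096 r (u 24 0 (k (u 40 0 (k v (k v r))) r))) (k (c 16 4101 r (u 24 0 (k v (k v r)))) (k (c 24 4099 r r) (k (c 16 4099 r (u 24 0 (k v (k v r)))) (k (c 24 4099 r r) (k (c 24 4099 r (u 16 0 (k (u 32 0 (k v (k v r))) r))) (k (c 24 4101 r (u 16 1 (k v (k v r)))) (k (c 24 4099 r r) (k (c 24 4102 r (u 16 1 (k v (k v r)))) (k (c 24 4100 r r) (k (c 16 4101 r (u 24 1 (k v (k v r)))) (k (c 24 4099 r r) (k (c 16 4101 r (u 24 1 (k v (k v r)))) r)))))))))))))))))))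
 (.s 0x1d4ebfc010 4085 (n false (n false (n false (z 121) e) (n false e e)) e) (u 8 3 (k v (k v (k (c 24 4099 r (u 16 1 (k v (k v r)))) (k (c 16 4097 r (u 24 1 (k v (k v r)))) r)))))
 .z .z) (.s 0x1d4fbfc020 4086 (n false (n false (n false (z 123) (n false e e)) e) e) (u 8 14 (k v (k (c 24 4099 r r) (k r (k (u 16 1 (k r (k r (k r (k (c 32 4097 r r) (k (t 32 1 r) (k (c 32 4097 r r) (k (c 8 4088 (t 6 2 (u 4 0 (k r r))) v) (k (t 48 1 r) (k (t 48 4 r) (k (t 48 1 r) (k (t 48 1 r) (k (t 48 4 r) (k (t 48 1 r) r)))))))))))))) (k r (k (c 16 4096 r r) (k (u 16 1 (k v (k (t 48 2 (u 32 0 (k (u 64 0 (k v (k v r))) r))) r))) (k (c 24 4097 r r) r)))))))))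
 .z .z))) (.s 0x1d4ffac010 4085 (n false (n false (n false (z 79) e) (n false e e)) e) (u 8 1 (k v (k r (k (c 24 4096 r (u 16 1 (k v (k v r)))) r))))
 (.s 0x1d4febc010 4088 (n false (n false (n false (z 103) e) (n false e e)) e) (u 8 0 (k v (k (c 16 4100 r r) (k (c 16 4101 r (u 24 1 (k v (k v r)))) (k (c 16 4101 r (u 24 1 (k v (k v r)))) r)))))
 (.s 0x1d4feac020 4088 (n false (n false (n false (z 71) (n false e e)) e) e) (u 8 6 (k (c 24 4099 r r) (k r (k (u 16 1 (k v (k (t 32 1 (u 48 26 (k v (k (u 80 6 (k v (k v (k v (k v r))))) (k (u 80 7 (k v (k v (k v (k v r))))) (k (c 16 4086 (c 2 4094 v r) v) r)))))) (k (t 48 1 r) (k (t 48 1 r) r))))) (k (c 16 4099 r r) (k (c 16 4099 r r) (k (c 16 4099 r r) r)))))))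
 .z .z) (.s 0x1d4fefc010 4085 (n false (n false (n false (z 119) e) (n false e e)) e) (u 8 0 (k v (k (c 24 4101 r r) (k (c 24 4096 r r) (k (c 24 4096 r r) (k (c 24 4099 r r) (k (c 24 4097 r r) (k (c 24 4096 r (u 16 0 (k (u 32 0 (k v (k v r))) r))) (k (c 16 4098 r r) (k (c 16 4101 r r) (k (c 16 4099 r r) (k (c 16 4101 r r) r))))))))))))
 .z .z)) (.s 0x1dcabf8010 4080 (n false (n false (n true (z 56) e) (n false e e)) e) (u 8 0 (k (u 16 27 (k v (k v (k v (k v (k v (k v (k v (k (c 8 4081 r v) (k (t 48 2 (u 32 0 (k (u 64 2 (k v (k (c 8 4078 (u 16 1 (k v (k v r))) v) r))) r))) (k (t 48 1 (u 32 0 (k (c 96 4099 r (u 64 2 (k v (k (c 8 4078 (u 16 1 (k v (k v r))) v) r)))) r))) r))))))))))) (k (c 16 4096 r (u 24 0 (k v (k v r)))) (k (u 16 1 (k v (k v r))) (k (c 24 4096 r r) r)))))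
 (.s 0x1d53fab000 4074 (n false (n false (n false (n false (z 71) e) e) e) e) (u 16 1 (k v (k (c 48 4099 r (u 32 1 (k v (k v r)))) (k (u 32 0 (k v (k v r))) (k (c 32 4099 r (u 48 1 (k v (k v r)))) (k (c 32 4099 r (u 48 1 (k v (k v r)))) (k (c 32 4099 r (u 48 1 (k v (k v r)))) r)))))))
 .z .z) .z))) (.s 0x1dceeb8010 4085 (n false (n false (n true (z 37) e) (n false e e)) e) (u 8 0 (k v (k (u 16 0 (k (t 32 3 (t 48 1 v)) r)) (k (u 16 0 (k (t 32 3 (t 48 1 v)) r)) (k r (k (u 16 1 (k v (k v (k v (k (t 48 1 (u 32 0 (k (t 64 3 (t 96 1 v)) r))) r))))) (k r r)))))))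
 (.s 0x1dcbbec010 4082 (n false (n false (n true (z 90) e) (n false e e)) e) (u 8 2 (k v (k r (k (c 24 4097 r r) (k r (k (c 24 4096 r r) (k (c 24 4097 r r) (k r (k (c 24 4095 r r) (k (c 16 4095 r r) r))))))))))
 (.s 0x1dcbaf8010 4081 (n false (n false (n true (z 50) e) (n false e e)) e) (u 8 1 (k v (k (c 24 4097 r (u 16 0 (k v (k v r)))) r)))
 (.s 0x1dcaffc010 4083 (n false (n false (n true (z 124) e) (n false e e)) e) (u 8 1 (k v (k (c 24 4097 r (u 16 1 (k v (k v r)))) (k (c 24 4096 r (u 16 1 (k v (k v r)))) (k (c 16 4098 r (u 24 0 (k v (k v r)))) (k (c 24 4096 r (u 16 1 (k v (k v r)))) (k (c 24 4097 r (u 16 1 (k v (k v r)))) (k (c 24 4097 r (u 16 1 (k v (k v r)))) (k (c 24 4096 r (u 16 1 (k v (k v r)))) (k (c 24 4099 r (u 16 1 (k v (k v r)))) (k (c 16 4097 r (u 24 1 (k v (k v r)))) r)))))))))))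
 .z .z) (.s 0x1dcbbb8010 4090 (n false (n false (n true (z 42) e) (n false e e)) e) (u 8 3 (k v (k (t 24 1 r) (k (u 16 3 (k v (k v (k v r)))) (k r (k r (k r r)))))))
 .z .z)) (.s 0x1dcebfc010 4085 (n false (n false (n true (z 121) e) (n false e e)) e) (u 8 3 (k v (k v (k (c 24 4099 r (u 16 1 (k v (k v r)))) (k (c 16 4097 r (u 24 1 (k v (k v r)))) r)))))
 (.s 0x1dcbfb8010 4083 (n false (n false (n true (z 46) e) (n false e e)) e) (u 8 1 (k v (k (u 16 1 (k v (k v r))) (k (c 24 4099 r (u 16 0 (k v (k v r)))) (k (u 16 1 (k v (k v r))) (k (c 24 4097 r (u 16 1 (k v (k v r)))) (k (c 16 4095 r (u 24 1 (k v (k v r)))) r)))))))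
 .z .z) .z)) (.s 0x1dcfbfc010 4084 (n false (n false (n true (z 123) e) (n false e e)) e) (u 8 12 (k v (k r (k (c 24 4099 r (u 16 2 (k v (k v (k v (k (t 48 2 r) r)))))) (k (u 16 18 (k v (k v (k (c 48 4101 r r) (k (c 48 4099 r r) (k (c 48 4097 r r) (k (c 48 4096 r (u 32 0 (k (u 64 0 (k v (k v r))) r))) (k (c 32 4098 r r) (k (c 32 4101 r r) (k (c 32 4099 r r) (k (c 32 4101 r r) r))))))))))) (k (c 16 4096 r (u 24 1 (k v (k v r)))) (k (c 24 4097 r r) r)))))))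
 (.s 0x1dcfaac010 4087 (n false (n false (n true (z 67) e) (n false e e)) e) (u 8 1 (k v (k v (k r (k (c 24 4099 r r) (k (c 16 4096 r (u 24 0 (k (u 40 0 (k v (k v r))) r))) (k (c 16 4096 r (u 24 0 (k (u 40 0 (k v (k v r))) r))) (k (c 16 4101 r (u 24 0 (k v (k v r)))) (k (c 24 4099 r r) (k (c 16 4099 r (u 24 0 (k v (k v r)))) (k (c 24 4099 r r) (k (c 24 4099 r (u 16 0 (k (u 32 0 (k v (k v r))) r))) (k (c 24 4101 r (u 16 1 (k v (k v r)))) (k (c 24 4099 r r) (k (c 24 4102 r (u 16 1 (k v (k v r)))) (k (c 24 4100 r r) (k (c 16 4101 r (u 24 1 (k v (k v r)))) (k (c 24 4099 r r) (k (c 16 4101 r (u 24 1 (k v (k v r)))) r)))))))))))))))))))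
 (.s 0x1dceeec010 4083 (n false (n false (n true (z 85) e) (n false e e)) e) (u 8 4 (k v (k (c 24 4099 r r) (k (c 24 4099 r r) (k (c 24 4099 r r) (k (u 16 2 (k v (k v (k v (k (t 48 2 (u 32 6 (k v (k v (k (t 96 1 (u 64 0 (k v (k v r)))) r))))) r))))) (k (c 24 4096 r r) (k (c 16 4099 r r) r))))))))
 .z .z) (.s 0x1dcfbec010 4082 (n false (n false (n true (z 91) e) (n false e e)) e) (u 8 2 (k v (k v (k (u 16 1 (k v (k v r))) (k (c 16 4097 r (u 24 0 (k v (k v r)))) (k (c 16 4097 r (u 24 0 (k v (k v r)))) (k (c 16 4096 r (u 24 0 (k v (k v r)))) (k (c 16 4095 r (u 24 0 (k v (k v r)))) r))))))))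
 .z .z)) (.s 0x1dcfebc010 4089 (n false (n false (n true (z 103) e) (n false e e)) e) (u 8 0 (k v (k (c 24 4101 r (u 16 1 (k v (k v r)))) (k (c 16 4101 r (u 24 1 (k v (k v r)))) (k (c 16 4101 r (u 24 1 (k v (k v r)))) r)))))
 (.s 0x1dcfeac010 4086 (n false (n false (n true (z 71) e) (n false e e)) e) (u 8 5 (k v (k (u 16 0 (k v (k v r))) (k (c 24 4099 r (u 16 1 (k v (k v r)))) (k (c 16 4099 r (u 24 1 (k v (k v r)))) (k (c 16 4099 r (u 24 1 (k v (k v r)))) (k (c 16 4099 r (u 24 1 (k v (k v r)))) r)))))))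
 .z .z) .z))))

set_option maxRecDepth 100000 in
def N16 : NT :=
(.s 0x1f3eab0050 4093 (n false (n true (z 67) e) (n false (n false e e) e)) (u 4 16 (k v (k v (k v (k v (k v (k r (k r (k r (k r (k (t 12 1 (u 8 1 (k v (k v r)))) (k (c 8 4101 r (u 12 0 (k v (k v r)))) (k r (k (c 2 4088 r v) (k (c 2 4091 (t 6 2 (u 4 0 (k r r))) v) (k (c 12 4101 r (u 8 1 (k v (k v r)))) (k (t 12 1 (u 8 9 (k v (k v (k v (k (c 24 4099 r (u 16 1 (k v (k v r)))) r)))))) (k (t 12 1 (u 8 3 (k v (k v (k (c 24 4099 r (u 16 1 (k v (k v r)))) r))))) r))))))))))))))))))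
 (.s 0x1df3aff000 4091 (n false (n false (n true (n true (z 121) e) e) e) e) (u 16 4 (k v (k v (k (c 48 4099 r (u 32 1 (k v (k v r)))) (k (c 32 4097 r (u 48 1 (k v (k v r)))) r)))))
 (.s 0x1dd3aff000 4073 (n false (n false (n true (n false (z 121) e) e) e) e) (u 16 1 (k v (k (c 48 4099 r (u 32 1 (k v (k v r)))) (k (c 32 4097 r (u 48 1 (k v (k v r)))) (k (c 32 4095 r (c 4 4076 r v)) (k (c 32 4095 r (c 4 4076 r v)) r))))))
 (.s 0x1dd2fee000 4071 (n false (n false (n true (n false (z 46) e) e) e) e) (u 16 2 (k v (k (c 48 4099 r (u 32 0 (k v (k v r)))) (k (u 32 1 (k v (k v r))) (k (u 32 1 (k v (k v r))) (k (c 48 4097 r (u 32 1 (k v (k v r)))) (k (c 32 4095 r (u 48 1 (k v (k v r)))) r)))))))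
 (.s 0x1dcfefc010 4085 (n false (n false (n true (z 119) e) (n false e e)) e) (u 8 0 (k v (k (c 24 4101 r r) (k (c 24 4096 r r) (k (c 24 4096 r r) (k (c 24 4099 r r) (k (c 24 4097 r r) (k (c 24 4096 r (u 16 0 (k (u 32 0 (k v (k v r))) r))) (k (c 16 4098 r r) (k (c 16 4101 r r) (k (c 16 4099 r r) (k (c 16 4101 r r) r))))))))))))
 .z .z) (.s 0x1dd3afb000 4082 (n false (n false (n true (n false (z 89) e) e) e) e) (u 16 18 (k v (k v (k v (k v (k (t 48 3 (u 32 228 (k v (k v (k v (k v (k v (k v (k (t 96 1 (c 16 4086 r v)) r))))))))) (k (c 48 4110 r (u 32 1 (k v (k v r)))) (k (t 32 1 (u 48 2 (k v (k v r)))) (k (t 48 2 (u 32 19 (k v (k v (k v r))))) r)))))))))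
 .z .z)) (.s 0x1dd3fab000 4074 (n false (n false (n true (n false (z 71) e) e) e) e) (u 16 1 (k v (k (c 48 4099 r (u 32 1 (k v (k v r)))) (k (u 32 0 (k v (k v r))) (k (c 32 4099 r (u 48 1 (k v (k v r)))) (k (c 32 4099 r (u 48 1 (k v (k v r)))) (k (c 32 4099 r (u 48 1 (k v (k v r)))) r)))))))
 (.s 0x1dd3eab000 4087 (n false (n false (n true (n false (z 67) e) e) e) e) (u 16 4 (k v (k v (k (c 48 4096 r r) (k (c 32 4101 r (u 48 0 (k v (k v r)))) (k (c 8 4088 r v) (k (c 32 4099 r (u 48 0 (k v (k v r)))) (k (c 48 4101 r (u 32 1 (k v (k v r)))) (k (c 48 4102 r (u 32 1 (k v (k v r)))) (k (c 32 4101 r (u 48 1 (k v (k v r)))) (k (c 32 4101 r (u 48 1 (k v (k v r)))) r)))))))))))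
 .z .z) (.s 0x1df2fee000 4089 (n false (n false (n true (n true (z 46) e) e) e) e) (u 16 1 (k v (k (u 32 1 (k v (k v r))) (k (c 48 4099 r (u 32 0 (k v (k v r)))) (k (u 32 1 (k v (k v r))) (k (c 48 4097 r (u 32 1 (k v (k v r)))) (k (c 32 4095 r (u 48 1 (k v (k v r)))) r)))))))
 .z .z))) (.s 0x1f2fee0050 4089 (n false (n true (z 46) e) (n false (n false e e) e)) (u 4 1 (k v (k (u 8 1 (k v (k v r))) (k (c 12 4099 r (u 8 0 (k v (k v r)))) (k (u 8 1 (k v (k v r))) (k (c 12 4097 r (u 8 1 (k v (k v r)))) (k (c 8 4095 r (u 12 1 (k v (k v r)))) r)))))))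
 (.s 0x1f2ebe0050 4087 (n false (n true (z 50) e) (n false (n false e e) e)) (u 4 1 (k v (k (c 12 4097 r (u 8 0 (k v (k v r)))) r)))
 (.s 0x1f2bff0050 4089 (n false (n true (z 124) e) (n false (n false e e) e)) (u 4 1 (k v (k (c 12 4097 r (u 8 1 (k v (k v r)))) (k (c 12 4096 r (u 8 1 (k v (k v r)))) (k (c 8 4098 r (u 12 0 (k v (k v r)))) (k (c 12 4096 r (u 8 1 (k v (k v r)))) (k (c 12 4097 r (u 8 1 (k v (k v r)))) (k (c 12 4097 r (u 8 1 (k v (k v r)))) (k (c 12 4096 r (u 8 1 (k v (k v r)))) (k (c 12 4099 r (u 8 1 (k v (k v r)))) (k (c 8 4097 r (u 12 1 (k v (k v r)))) r)))))))))))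
 .z .z) (.s 0x1f2fbf0050 4086 (n false (n true (z 118) e) (n false (n false e e) e)) (u 4 5 (k v (k (t 12 1 (u 8 15 (k v (k v r)))) r)))
 .z .z)) (.s 0x1f3bbb0050 4090 (n false (n true (z 85) e) (n false (n false e e) e)) (u 4 29 (k v (k (c 12 4099 r r) (k (c 12 4099 r (c 2 4088 r v)) (k (u 8 6 (k v (k v r))) (k (c 12 4101 r r) (k (c 12 4096 r (c 2 4088 r v)) (k (c 8 4099 r r) r))))))))
 (.s 0x1f3aff0050 4091 (n false (n true (z 121) e) (n false (n false e e) e)) (u 4 4 (k v (k v (k (c 12 4099 r (u 8 1 (k v (k v r)))) (k (c 8 4097 r (u 12 1 (k v (k v r)))) r)))))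
 .z .z) .z))) (.s 0x1f3feb0050 4090 (n false (n true (z 79) e) (n false (n false e e) e)) (u 4 1 (k v (k r (k (t 12 2 r) r))))
 (.s 0x1f3fab0050 4092 (n false (n true (z 71) e) (n false (n false e e) e)) (u 4 5 (k v (k (u 8 0 (k v (k v r))) (k (c 12 4099 r (u 8 1 (k v (k v r)))) (k (c 8 4099 r (u 12 1 (k v (k v r)))) (k (c 8 4099 r (u 12 1 (k v (k v r)))) (k (c 8 4099 r (u 12 1 (k v (k v r)))) r)))))))
 (.s 0x1f3efb0050 4088 (n false (n true (z 91) e) (n false (n false e e) e)) (u 4 4 (k v (k v (k (u 8 1 (k v (k v r))) (k (c 8 4097 r (u 12 0 (k v (k v r)))) (k (c 8 4097 r (u 12 0 (k v (k v r)))) (k (c 8 4096 r (u 12 0 (k v (k v r)))) (k (c 8 4095 r (u 12 0 (k v (k v r)))) r))))))))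
 (.s 0x1f3eeb0050 4084 (n false (n true (z 75) e) (n false (n false e e) e)) (u 4 1 (k v (k (t 12 3 r) (k (c 2 4076 (u 4 0 (k r r)) v) r))))
 .z .z) (.s 0x1f3eff0050 4090 (n false (n true (z 123) e) (n false (n false e e) e)) (u 4 4 (k v (k (t 12 1 (u 8 6 (k v (k v r)))) (k r (k (u 8 4 (k v (k v (k (c 16 4097 r (u 24 1 (k v (k v r)))) (k (c 16 4097 r r) (k (c 16 4097 r (u 24 2 (k v (k (c 56 4097 r (u 40 0 (k v (k v r)))) r)))) (k (c 24 4096 r (u 16 0 (k (u 32 0 (k v (k v r))) r))) (k (c 24 4097 r r) (k (c 24 4097 r r) (k (c 24 4097 r r) (k (c 24 4097 r r) (k (c 24 4097 r r) (k (c 24 4097 r r) r))))))))))))) (k (c 8 4096 r (u 12 1 (k v (k v r)))) (k (t 8 2 (u 12 2 (k v (k v r)))) r)))))))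
 .z .z)) (.s 0x1f3fbf0050 4087 (n false (n true (z 119) e) (n false (n false e e) e)) (u 4 1 (k r (k (t 8 1 (u 12 0 (k (c 28 4101 r (t 20 3 v)) r))) (k (u 8 0 (k r (k (c 16 4096 r (u 24 0 (k r (k r r)))) (k r (k (c 24 4096 r r) r))))) (k (c 12 4099 r r) (k r (k (c 12 4097 r r) (k (c 2 4088 (t 6 2 (u 4 0 (k r r))) v) (k r (k r (k r (k r (k r (k r r))))))))))))))
 (.s 0x1f3faf0050 4088 (n false (n true (z 103) e) (n false (n false e e) e)) (u 4 2 (k v (k (u 8 6 (k r (k r (k (u 12 9 (k v (k v (k v r)))) (k (c 16 4095 r (t 12 1 (c 2 4080 r v))) (k (c 16 4095 r (t 12 1 (c 2 4080 r v))) r)))))) (k (t 12 1 r) (k (t 8 1 r) r)))))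
 .z .z) .z)) (.s 0x1f4bbbc020 4090 (n false (n true (n false (z 106) (n false e e)) e) e) (u 8 2 (k v (k (c 24 4110 r r) (k (t 24 3 (c 4 4089 (u 4 0 (k (c 10 4099 v r) r)) v)) (k (c 24 4096 r r) (k (c 24 4110 r r) (k (t 24 3 (c 4 4088 r v)) (k (c 24 4099 r r) (k (c 16 4097 r r) (k (c 16 4101 r r) (k (t 24 3 (c 4 4088 r v)) (k (c 16 4101 r r) r))))))))))))
 (.s 0x1f4aeb8020 4086 (n false (n true (n false (z 36) (n false e e)) e) e) (u 8 0 (k (u 16 2 (k v (k (c 4 4088 r v) r))) r))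
 (.s 0x1f4aaf8020 4088 (n false (n true (n false (z 48) (n false e e)) e) e) (u 8 7 (k v (k r (k (u 16 0 (k r (k r r))) (k r (k (c 24 4099 r (t 16 3 v)) (k (u 16 4 (k v (k (t 48 1 (u 32 16 (k v (k v r)))) r))) r)))))))
 .z .z) (.s 0x1f4aef8020 4093 (n false (n true (n false (z 52) (n false e e)) e) e) (c 4 4095 (c 2 4097 r v) v)
 .z .z)) (.s 0x1fcaef8008 4093 (n false (n true (n true (z 52) e) e) (n false e e)) (c 2 4095 (c 4 4097 r v) v)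
 (.s 0x1f4bee8008 4085 (n false (n true (n false (z 22) e) e) (n false e e)) (c 2 4084 (u 4 1 (k v (k v r))) v)
 .z .z) .z))))

set_option maxRecDepth 100000 in
def N17 : NT :=
(.s 0xe577500288 4087 (n false (z 148) (n false (n false e e) (n false e e))) (u 2 8 (k v (k (t 6 3 r) (k (c 6 4096 r r) (k (c 4 4099 r r) (k (t 6 3 r) (k (t 6 3 r) (k (c 6 4099 r r) (k (c 6 4101 r r) r)))))))))
 (.s 0xe557e01d10 4085 (n false (z 112) (n true (n false (n false e e) (n false e e)) e)) (u 2 1 (k (t 6 2 r) (k (u 4 5 (k v (k (c 12 4101 r r) (k (c 8 4101 r r) (k (c 8 4101 r r) r))))) r)))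
 (.s 0xe5555003a0 4087 (n false (z 128) (n true (n false (n false e e) e) e)) (u 2 1 (k v (k (c 6 4097 r r) (k (c 6 4099 r r) (k (c 6 4099 r r) (k (c 4 4096 r r) (k (c 6 4097 r r) (k (c 4 4095 r r) (k (c 4 4095 r (u 6 0 (k v (k v r)))) (k (c 4 4099 r r) (k (c 6 4097 r (u 4 1 (k v (k v r)))) (k (c 4 4098 r r) (k (c 4 4099 r r) (k (c 6 4095 r (u 4 1 (k v (k v r)))) (k (c 4 4097 r (u 6 0 (k v (k v r)))) (k (c 4 4095 r r) (k (c 4 4099 r r) (k (c 4 4095 r (u 6 1 (k v (k v r)))) (k (c 4 4097 r r) r)))))))))))))))))))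
 (.s 0xe555500288 4081 (n false (z 128) (n false (n false e e) (n false e e))) (u 2 4 (k v (k (c 6 4097 r r) (k (c 4 4095 r r) (k (c 4 4098 r (u 6 0 (k (u 10 0 (k v (k v r))) r))) (k (c 6 4099 r (u 4 0 (k (t 12 2 (u 8 0 (k (t 24 2 (u 16 2 (k v (k (c 12 4094 v (u 32 2 (k v (k v r)))) r)))) r))) r))) (k (c 4 4096 r r) (k (c 4 4095 r r) (k (c 4 4095 r r) (k (c 4 4095 r (u 6 0 (k v (k v r)))) (k (c 6 4095 r r) (k (c 6 4095 r (u 4 1 (k v (k v r)))) (k (c 4 4097 r (u 6 0 (k v (k v r)))) (k (c 4 4095 r r) (k (c 4 4095 r (u 6 1 (k v (k v r)))) (k (c 4 4097 r r) r))))))))))))))))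
 (.s 0x1fcfeac008 4098 (n false (n true (n true (z 71) e) e) (n false e e)) (c 2 4100 (c 4 4102 r v) v)
 .z .z) (.s 0xe5555002a0 4088 (n false (z 128) (n false (n false (n false e e) e) e)) (u 2 1 (k v (k (c 4 4097 r r) (k (c 6 4099 r r) (k (c 6 4099 r r) (k (c 4 4096 r r) (k (c 6 4097 r r) (k (c 6 4097 r r) (k (c 4 4095 r (u 6 0 (k v (k v r)))) (k (c 4 4099 r r) (k (c 6 4097 r (u 4 1 (k v (k v r)))) (k (c 4 4098 r r) (k (c 4 4099 r r) (k (c 6 4095 r (u 4 1 (k v (k v r)))) (k (c 4 4097 r (u 6 0 (k v (k v r)))) (k (c 6 4097 r r) (k (c 4 4099 r r) (k (c 4 4095 r (u 6 1 (k v (k v r)))) (k (c 4 4097 r r) r)))))))))))))))))))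
 .z .z)) (.s 0xe555e01d10 4082 (n false (z 96) (n true (n false (n false e e) (n false e e)) e)) (u 2 0 (k (t 6 2 (u 4 0 (k (t 12 2 (u 8 2 (k v (k (c 6 4094 v (u 16 2 (k v (k v r)))) r)))) r))) r))
 (.s 0xe555d00288 4087 (n false (z 160) (n false (n false e e) (n false e e))) (u 2 3 (k v (k (t 6 3 r) (k (c 4 4100 r r) (k (c 6 4099 r r) (k (c 6 4100 r r) (k (c 6 4099 r r) (k (c 4 4097 r r) (k (c 6 4097 r r) (k (c 4 4098 r r) r))))))))))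
 .z .z) (.s 0xe557c01d10 4085 (n false (z 48) (n true (n false (n false e e) (n false e e)) e)) (u 2 1 (k v (k (c 6 4099 r (t 4 3 v)) (k (u 4 4 (k v (k (t 12 1 (u 8 2 (k v (k v r)))) r))) (k (u 4 3 (k v (k (t 12 1 (u 8 20 (k v (k v (k (c 8 4092 r v) (k (c 16 4099 r (u 24 0 (k (t 56 1 (u 40 11 (k v (k v r)))) r))) r)))))) (k (t 12 1 (c 3 4092 v r)) r)))) r)))))
 .z .z))) (.s 0xe55fc01d10 4079 (n false (z 56) (n true (n false (n false e e) (n false e e)) e)) (u 2 0 (k r (k (c 4 4096 r (u 6 0 (k v (k v r)))) (k (u 4 1 (k v (k v r))) (k (c 6 4096 r r) r)))))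
 (.s 0xe55de01708 4084 (n false (z 104) (n false (n true (n false e e) e) (n false e e))) (u 2 0 (k (t 4 1 r) (k (t 6 1 r) (k (t 6 2 r) (k (t 6 1 r) (k (t 6 1 r) (k (t 6 1 r) r)))))))
 (.s 0xe55d500288 4083 (n false (z 136) (n false (n false e e) (n false e e))) (u 2 3 (k r (k r (k (u 4 0 (k (u 8 0 (k r (k r r))) r)) (k (t 4 2 r) (k r (k (u 6 1 (k r (k (c 14 4099 r r) (k r (k (c 10 4099 r r) (k (c 10 4099 r r) (k (c 10 4099 r r) r))))))) (k r (k r r)))))))))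
 .z .z) (.s 0xe55f5003a0 4085 (n false (z 152) (n true (n false (n false e e) e) e)) (u 2 0 (k (t 6 1 r) (k (t 4 3 r) (k (t 4 2 r) (k (t 4 1 r) r)))))
 .z .z)) (.s 0xe575e01708 4076 (n false (z 100) (n false (n true (n false e e) e) (n false e e))) (u 2 0 (k (t 6 1 r) (k (t 6 1 r) (k (t 6 1 r) (k (t 6 1 r) (k (t 6 1 r) (k (t 6 1 r) r)))))))
 (.s 0xe55fe01708 4077 (n false (z 120) (n false (n true (n false e e) e) (n false e e))) (u 2 4 (k (t 6 2 r) (k (t 6 1 r) (k (t 6 2 r) (k (t 6 1 r) (k (t 4 1 r) (k (t 6 1 r) (k (t 4 4 r) (k (t 6 1 r) (k (t 6 1 (u 4 0 (k (u 8 0 (k v (k v r))) r))) (k (t 6 1 (u 4 0 (k (u 8 0 (k v (k v r))) r))) (k (t 4 1 r) (k (t 4 1 r) (k (t 6 1 r) (k (t 6 1 r) (k (t 6 2 r) (k (t 4 1 r) (k (t 4 1 r) (k (t 6 1 r) r)))))))))))))))))))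
 .z .z) .z))) (.s 0xe5d5e01d10 4084 (n false (z 98) (n true (n false (n false e e) (n false e e)) e)) (u 2 1 (k v (k v (k v (k (t 6 1 (u 4 2 (k v (k (c 12 4099 r (u 8 15 (k v (k v r)))) r)))) r)))))
 (.s 0xe57d500288 4088 (n false (z 140) (n false (n false e e) (n false e e))) (u 2 0 (k (t 6 3 (u 4 0 (k v (k (c 12 4101 r r) (k (c 8 4101 r r) (k (c 8 4101 r r) r)))))) r))
 (.s 0xe577c01d40 4086 (n false (n true (n false (n false (n false e e) e) e) e) (z 52)) (u 3 8 (k v (k v (k v (k v (k v (k (t 7 1 (u 5 0 (k v (k v r)))) r)))))))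
 (.s 0xe577c01d10 4080 (n false (z 52) (n true (n false (n false e e) (n false e e)) e)) (u 2 38 (k v (k v (k v (k v (k v (k v (k v (k (c 3 4092 v r) (k (t 6 2 (u 4 0 (k (u 8 2 (k v (k (c 3 4092 v (u 16 1 (k v (k v r)))) r))) r))) (k (t 6 1 (u 4 0 (k (c 12 4099 r (u 8 2 (k v (k (c 3 4092 v (u 16 1 (k v (k v r)))) r)))) r))) r)))))))))))
 .z .z) (.s 0xe577c01f40 4086 (n false (n true (n true (n false (n false e e) e) e) e) (z 52)) (u 3 10 (k v (k v (k v (k v (k v (k (t 7 1 (u 5 0 (k v (k v r)))) r)))))))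
 .z .z)) (.s 0xe57fe01d10 4082 (n false (z 124) (n true (n false (n false e e) (n false e e)) e)) (u 2 2 (k v (k v (k (c 6 4097 r (u 4 1 (k v (k v r)))) (k (c 6 4096 r (u 4 1 (k v (k v r)))) (k (c 6 4097 r (u 4 1 (k v (k v r)))) (k (c 6 4099 r (u 4 1 (k v (k v r)))) r)))))))
 (.s 0xe57f500288 4085 (n false (z 156) (n false (n false e e) (n false e e))) (u 2 1 (k v (k (c 6 4099 r (u 4 1 (k v (k v r)))) (k (c 4 4098 r (u 6 1 (k v (k v r)))) (k (c 4 4097 r (u 6 1 (k v (k v r)))) (k (c 4 4099 r (u 6 1 (k v (k v r)))) (k (c 4 4095 r (u 6 0 (k v (k v r)))) r)))))))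
 .z .z) .z)) (.s 0xe5dd601708 4082 (n false (z 74) (n false (n true (n false e e) e) (n false e e))) (u 2 1 (k v (k (t 6 1 r) (k (t 6 1 r) r))))
 (.s 0xe5d7c01d10 4082 (n false (z 50) (n true (n false (n false e e) (n false e e)) e)) (u 2 1 (k v (k (c 6 4097 r (u 4 0 (k v (k v r)))) r)))
 (.s 0xe5d7500288 4088 (n false (z 146) (n false (n false e e) (n false e e))) (u 2 0 (k (c 4 4098 r r) (k (c 6 4098 r r) (k (c 6 4098 r r) r))))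
 .z .z) (.s 0xe5d7e01708 4084 (n false (z 114) (n false (n true (n false e e) e) (n false e e))) (u 2 0 (k (t 6 3 (u 4 12 (k v (k v r)))) r))
 .z .z)) (.s 0xe5dde01708 4084 (n false (z 106) (n false (n true (n false e e) e) (n false e e))) (u 2 3 (k v (k v (k r (k (t 6 2 r) (k (t 6 1 r) (k (t 6 1 r) (k (t 6 2 r) (k (t 6 1 r) (k (t 6 3 r) (k (t 6 3 r) (k (t 4 1 r) r))))))))))))
 (.s 0xe5ddc01708 4083 (n false (z 42) (n false (n true (n false e e) e) (n false e e))) (u 2 6 (k v (k r (k r (k r (k (c 3 4092 v (t 6 1 r)) (k (u 4 1 (k v (k (c 3 4092 v r) (k (c 12 4096 r (u 8 1 (k v (k v r)))) r)))) r)))))))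
 .z .z) .z))))

end Pool.Agent.Helper91.ND1
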