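import Pool.Agent.Helper66.ND.Defs

/-! part of the certificate for the constant 25/48 (generated) -/

namespace Pool.Agent.Helper91.ND1

open Pool.Agent.Helper66.IL
open Pool.Agent.Helper66.ND
open Pool.Agent.Helper66.ND.LT
open Pool.Agent.Helper66.ND.Ct

set_option maxRecDepth 100000 in
def N157 : NT :=
(.s 0x3fa77dc0107cfeec00 4089 (n false (n true (n true (n false (z 45) (n false e e)) e) e) (n true (n true (z 87) e) e)) (u 9 1 (k (u 16 0 (k v (k v r))) (k (u 16 0 (k v (k v r))) r)))
 (.s 0x3efaa22888213eab00 4086 (n false (n true (n false (n true (n true (n false (n false (n false (n false e e) (n false e e)) (n false (n false e e) (n false e e))) (n false e e)) e) e) (n false e e)) e) (z 67)) (u 3 14 (k v (k v (k v (k v (k v (k (t 7 1 (u 5 1 (k v (k v r)))) (k (c 2 4088 v (t 7 2 (u 5 0 (k r r)))) (k (c 7 4101 r (u 5 1 (k v (k v r)))) (k (t 7 1 r) (k (c 7 4102 r (u 5 1 (k v (k v r)))) (k (c 5 4101 r (u 7 1 (k v (k v r)))) (k (t 7 1 r) (k (c 5 4101 r (u 7 1 (k v (k v r)))) r))))))))))))))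
 (.s 0x3efaa22888212fee00 4084 (n false (n true (n false (n true (n true (n false (n false (n false (n false e e) (n false e e)) (n false (n false e e) (n false e e))) (n false e e)) e) e) (n false e e)) e) (z 46)) (u 3 1 (k v (k (u 5 1 (k v (k v r))) (k (c 7 4099 r (u 5 0 (k v (k v r)))) (k (u 5 0 (k v (k v r))) (k (c 7 4097 r (u 5 1 (k v (k v r)))) (k (c 5 4095 r (u 7 1 (k v (k v r)))) r)))))))
 (.s 0x3efaa22888212aff00 4084 (n false (z 120) (n true (n false (n true (n true (n false (n false (n false (n false e e) (n false e e)) (n false (n false e e) (n false e e))) (n false e e)) e) e) (n false e e)) e)) (u 2 22 (k v (k v (k v (k r (k (t 6 1 (u 4 7 (k v (k (u 8 1 (k v (k v r))) r)))) (k (c 3 4088 v (t 6 1 r)) (k (c 6 4099 r (u 4 1 (k v (k v r)))) (k (c 4 4098 r (u 6 1 (k v (k v r)))) (k (c 4 4101 r (u 6 0 (k v (k v r)))) (k r (k (c 6 4099 r (u 4 1 (k v (k v r)))) (k (c 4 4101 r (u 6 0 (k v (k v r)))) r)))))))))))))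
 (.s 0x3ef9fdf0010aa22888 4083 (n false (n true (n false (n true (n true (z 55) e) e) (n false e e)) e) (n false (n false (n false (n false e e) (n false e e)) (n false (n false e e) (n false e e))) (n false e e))) (u 32 4 (k (t 96 1 (u 64 2 (k v (k (c 192 4099 r (t 128 3 v)) (k (u 128 2 (k v (k v r))) r))))) (k (c 16 4091 (t 6 2 r) v) r)))
 .z .z) (.s 0x3efaa22888212baf00 4084 (n false (z 100) (n true (n false (n true (n true (n false (n false (n false (n false e e) (n false e e)) (n false (n false e e) (n false e e))) (n false e e)) e) e) (n false e e)) e)) (u 2 4 (k v (k (u 6 9 (k (t 4 1 v) (k (t 4 1 v) (k (t 14 1 (u 4 1 (k (c 10 4098 r v) (k (u 10 0 (k (t 18 3 (t 26 1 v)) r)) r)))) r)))) (k (c 3 4088 v (t 6 1 r)) (k (u 4 9 (k r (k (c 6 4096 r v) (k (t 6 1 v) (k (c 12 4099 r (u 8 1 (k r (k r r)))) r))))) (k (u 4 2 (k (c 6 4096 r v) (k (c 12 4099 r (u 8 1 (k r (k r r)))) (k (c 8 4095 r (u 12 0 (k r (k r r)))) r)))) r))))))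
 .z .z)) (.s 0x3efaa22888213bbb00 4085 (n false (n true (n false (n true (n true (n false (n false (n false (n false e e) (n false e e)) (n false (n false e e) (n false e e))) (n false e e)) e) e) (n false e e)) e) (z 85)) (u 3 12 (k v (k v (k (c 7 4099 r r) (k (c 7 4099 r r) (k (u 5 3 (k v (k v r))) (k (c 7 4096 r r) (k (c 5 4099 r r) r))))))))
 (.s 0x3efaa22888213afb00 4083 (n false (z 89) (n true (n false (n true (n true (n false (n false (n false (n false e e) (n false e e)) (n false (n false e e) (n false e e))) (n false e e)) e) e) (n false e e)) e)) (u 2 0 (k v (k v (k v (k (t 6 2 r) r)))))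
 .z .z) .z)) (.s 0x3fa577c01072bfa800 4092 (n false (n true (n true (n false (z 52) (n false e e)) e) e) (n true (z 156) e)) (u 5 1 (k r (k (c 13 4099 r (u 9 1 (k r (k r r)))) (k (c 9 4098 r (u 13 1 (k r (k r r)))) (k (c 9 4097 r (u 13 1 (k r (k r r)))) (k (c 9 4099 r (u 13 1 (k r (k r r)))) (k (c 9 4095 r (u 13 0 (k r (k r r)))) r)))))))
 (.s 0x3efaa22888213eff00 4085 (n false (z 123) (n true (n false (n true (n true (n false (n false (n false (n false e e) (n false e e)) (n false (n false e e) (n false e e))) (n false e e)) e) e) (n false e e)) e)) (u 2 6 (k v (k v (k v (k (c 6 4099 r (u 4 0 (k v (k v (k v (k (t 12 2 r) r)))))) (k r r))))))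
 (.s 0x3efaa22888213eee00 4086 (n false (n true (n false (n true (n true (n false (n false (n false (n false e e) (n false e e)) (n false (n false e e) (n false e e))) (n false e e)) e) e) (n false e e)) e) (z 43)) (u 3 4 (k v (k v (k v (k r (k r (k (u 5 0 (k (u 9 0 (k v (k v r))) r)) (k r (k (u 5 2 (k v (k (c 13 4099 r (u 9 1 (k v (k v r)))) (k (c 9 4095 r (u 13 0 (k v (k v r)))) r)))) r)))))))))
 .z .z) (.s 0x3fa577c0105d445108 4073 (n false (n true (n true (n false (z 52) (n false e e)) e) e) (n false (n true (n false (n false (n false e e) (n false e e)) (n false (n false e e) (n false e e))) e) (n false e e))) (u 16 59 (k v (k v (k (t 48 1 (u 32 0 (k v (k v r)))) (k (t 48 2 (u 32 0 (k (u 64 2 (k v (k (c 32 4084 (u 4 1 (k v (k v r))) v) r))) r))) r)))))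
 .z .z)) (.s 0x3fa77dc0107cbfa800 4090 (n false (n true (n true (n false (z 45) (n false e e)) e) e) (n true (n true (z 14) e) e)) (u 9 0 (k (u 16 0 (k v (k v r))) (k (u 16 0 (k v (k v r))) r)))
 (.s 0x3fa577c01dc2075110 4079 (n false (n true (n true (n false (z 52) (n true (n false (n true (n false e e) e) (n false e e)) e)) e) e) (n true (n false (n false (n false e e) (n false e e)) (n false e e)) e)) (u 16 350 (k v (k v (k v (k v (k (t 48 1 (u 32 7 (k v (k v r)))) r))))))
 .z .z) .z))) (.s 0x3faa228882e55fc008 4078 (n false (n false (n true (z 56) e) (n false e e)) (n true (n true (n false (n false (n false (n false e e) (n false e e)) (n false (n false e e) (n false e e))) (n false e e)) e) e)) (u 8 1 (k (u 16 1 (k v (k v r))) (k (u 16 30 (k v (k v (k v (k v (k v (k v (k v (k (c 8 4087 (t 6 2 r) v) (k (c 8 4087 (t 6 1 r) v) r)))))))))) (k (c 16 4096 r (u 24 0 (k v (k v r)))) (k (c 24 4096 r r) r)))))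
 (.s 0x3faa228882a7d56008 4087 (n false (n false (n false (z 67) e) (n false e e)) (n true (n true (n false (n false (n false (n false e e) (n false e e)) (n false (n false e e) (n false e e))) (n false e e)) e) e)) (u 8 93 (k v (k v (k v (k v (k (c 24 4099 r r) (k (c 16 4101 r (u 24 0 (k v (k v r)))) (k (c 24 4099 r (c 3 4097 v r)) (k (c 3 4097 v r) (k (c 16 4099 r (u 24 0 (k v (k v r)))) (k (c 24 4099 r (c 3 4097 v (u 16 0 (k (u 32 0 (k v (k v r))) r)))) (k (c 24 4101 r (u 16 1 (k v (k v r)))) (k (c 24 4099 r r) (k (c 24 4102 r (u 16 1 (k v (k v r)))) (k (c 16 4101 r (u 24 1 (k v (k v r)))) (k (c 24 4099 r (u 16 2 (k v (k (c 48 4099 r (u 32 1 (k v (k v r)))) (k (c 32 4095 r (u 48 0 (k v (k v r)))) r))))) (k (c 16 4101 r (u 24 1 (k v (k v r)))) r)))))))))))))))))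
 (.s 0x3faa2288829f770070 4093 (n false (n false (z 43) (n true (n false e e) e)) (n true (n true (n false (n false (n false (n false e e) (n false e e)) (n false (n false e e) (n false e e))) (n false e e)) e) e)) (u 4 11 (k v (k (u 8 1 (k v (k v r))) (k (c 12 4099 r (u 8 0 (k (u 16 0 (k v (k v r))) r))) (k (u 8 2 (k v (k (c 24 4099 r (u 16 0 (k v (k v r)))) (k r (k (u 16 1 (k v (k v r))) (k (c 24 4097 r r) (k (c 16 4095 r r) r))))))) (k (u 8 26 (k v (k v (k v (k (c 24 4099 r (u 16 4 (k v (k v (k v r))))) r))))) (k (u 8 16 (k v (k v (k v (k (c 24 4099 r (u 16 4 (k v (k v (k v r))))) (k (c 16 4099 r (u 24 4 (k v (k v (k v r))))) r)))))) r)))))))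
 (.s 0x3fa9777002e1075110 4079 (n false (n true (n true (n false (n false (z 42) e) (n false (n true (n false e e) e) (n false e e))) e) e) (n true (n false (n false (n false e e) (n false e e)) (n false e e)) e)) (c 4 4081 (c 10 4094 v r) v)
 .z .z) (.s 0x3faa228882a75fe008 4083 (n false (n false (n false (z 121) e) (n false e e)) (n true (n true (n false (n false (n false (n false e e) (n false e e)) (n false (n false e e) (n false e e))) (n false e e)) e) e)) (u 8 3 (k v (k v (k (c 24 4099 r (u 16 1 (k v (k v r)))) (k (c 16 4097 r (u 24 1 (k v (k v r)))) r)))))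
 .z .z)) (.s 0x3faa228882a7fd6008 4085 (n false (n false (n false (z 79) e) (n false e e)) (n true (n true (n false (n false (n false (n false e e) (n false e e)) (n false (n false e e) (n false e e))) (n false e e)) e) e)) (u 8 1 (k v (k (u 16 7 (k v (k v (k v (k (c 48 4099 r (u 32 1 (k v (k v r)))) r))))) (k (c 24 4096 r (u 16 1 (k v (k v r)))) r))))
 (.s 0x3faa228882a7f56008 4085 (n false (n false (n false (z 71) e) (n false e e)) (n true (n true (n false (n false (n false (n false e e) (n false e e)) (n false (n false e e) (n false e e))) (n false e e)) e) e)) (u 8 1 (k v (k (c 24 4099 r (u 16 1 (k v (k v r)))) (k (u 16 0 (k v (k v r))) (k (c 16 4099 r (u 24 1 (k v (k v r)))) (k (c 16 4099 r (u 24 1 (k v (k v r)))) (k (c 16 4099 r (u 24 1 (k v (k v r)))) r)))))))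
 .z .z) .z)) (.s 0x3faa228882e5d7c008 4077 (n false (n false (n true (z 50) e) (n false e e)) (n true (n true (n false (n false (n false (n false e e) (n false e e)) (n false (n false e e) (n false e e))) (n false e e)) e) e)) (u 8 1 (k v (k (c 24 4097 r (u 16 0 (k v (k v r)))) r)))
 (.s 0x3faa228882e57f5000 4093 (n false (n false (n true (z 156) e) e) (n true (n true (n false (n false (n false (n false e e) (n false e e)) (n false (n false e e) (n false e e))) (n false e e)) e) e)) (u 8 8 (k v (k v (k (c 24 4099 r (u 16 10 (k v (k v (k v r))))) (k (c 16 4098 r (u 24 10 (k v (k v (k v r))))) (k (c 16 4097 r (u 24 1 (k v (k v r)))) (k (c 16 4099 r (u 24 10 (k v (k v (k v r))))) r)))))))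
 (.s 0x3faa228882e55fe008 4084 (n false (n false (n true (z 120) e) (n false e e)) (n true (n true (n false (n false (n false (n false e e) (n false e e)) (n false (n false e e) (n false e e))) (n false e e)) e) e)) (u 8 0 (k v (k (c 24 4099 r r) (k (c 24 4100 r r) (k (c 24 4099 r r) (k (c 24 4100 r r) (k (c 16 4095 r r) (k (c 16 4099 r (u 24 0 (k v (k v r)))) (k (c 24 4096 r (u 16 7 (k v (k v (k v (k (c 48 4099 r (u 32 1 (k v (k v r)))) r)))))) (k (c 24 4096 r (u 16 0 (k (u 32 0 (k v (k v r))) r))) (k (c 24 4100 r (u 16 0 (k (u 32 0 (k v (k v r))) r))) (k (c 24 4101 r r) (k (c 24 4099 r (u 16 1 (k v (k v r)))) (k (c 16 4098 r (u 24 1 (k v (k v r)))) (k (c 16 4101 r (u 24 0 (k v (k v r)))) (k (c 24 4099 r r) (k (c 16 4095 r r) (k (c 24 4099 r (u 16 1 (k v (k v r)))) (k (c 16 4101 r (u 24 0 (k v (k v r)))) r)))))))))))))))))))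
 .z .z) (.s 0x3faa228882e57fe008 4079 (n false (n false (n true (z 124) e) (n false e e)) (n true (n true (n false (n false (n false (n false e e) (n false e e)) (n false (n false e e) (n false e e))) (n false e e)) e) e)) (u 8 1 (k v (k (c 24 4097 r (u 16 1 (k v (k v r)))) (k (c 24 4096 r (u 16 1 (k v (k v r)))) (k (c 16 4098 r (u 24 0 (k v (k v r)))) (k (c 24 4096 r (u 16 1 (k v (k v r)))) (k (c 24 4097 r (u 16 1 (k v (k v r)))) (k (c 24 4097 r (u 16 1 (k v (k v r)))) (k (c 24 4096 r (u 16 1 (k v (k v r)))) (k (c 24 4099 r (u 16 1 (k v (k v r)))) (k (c 16 4097 r (u 24 1 (k v (k v r)))) r)))))))))))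
 .z .z)) (.s 0x3faa228882e5fdc008 4079 (n false (n false (n true (z 46) e) (n false e e)) (n true (n true (n false (n false (n false (n false e e) (n false e e)) (n false (n false e e) (n false e e))) (n false e e)) e) e)) (u 8 1 (k v (k (u 16 1 (k v (k v r))) (k (c 24 4099 r (u 16 0 (k v (k v r)))) (k (u 16 1 (k v (k v r))) (k (c 24 4097 r (u 16 1 (k v (k v r)))) (k (c 16 4095 r (u 24 1 (k v (k v r)))) r)))))))
 (.s 0x3faa228882e5df6008 4077 (n false (n false (n true (z 90) e) (n false e e)) (n true (n true (n false (n false (n false (n false e e) (n false e e)) (n false (n false e e) (n false e e))) (n false e e)) e) e)) (u 8 2 (k v (k r (k (c 24 4097 r r) (k r (k (c 24 4096 r r) (k (c 24 4097 r r) (k r (k (c 24 4095 r r) (k (c 16 4095 r r) r))))))))))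
 .z .z) .z))))

set_option maxRecDepth 100000 in
def N158 : NT :=
(.s 0x1d2aff00ee10aa22888 4084 (n false (n false (z 120) (n true (n false (n true (n false e e) e) (n false e e)) e)) (n false (n false (n false (n false e e) (n false e e)) (n false (n false e e) (n false e e))) (n false e e))) (u 4 26 (k v (k (c 12 4099 r (u 8 65 (k v (k v (k v (k (c 16 4099 r r) r)))))) (k (c 12 4096 r (u 8 20 (k v (k v (k v (k v r)))))) (k (c 12 4100 r (u 8 0 (k (u 16 0 (k v (k v r))) r))) (k (c 12 4099 r (u 8 1 (k v (k v r)))) (k (c 8 4098 r (u 12 1 (k v (k v r)))) (k (c 8 4101 r (u 12 0 (k v (k v r)))) (k (c 12 4099 r (u 8 10 (k v (k v (k (c 24 4097 r (u 16 1 (k v (k v r)))) (k (c 24 4097 r (u 16 1 (k v (k v r)))) r)))))) (k (c 12 4099 r (u 8 1 (k v (k v r)))) (k (c 8 4101 r (u 12 0 (k v (k v r)))) r)))))))))))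
 (.s 0x3faa228882f9d7f800 4090 (n false (n false (n true (n true (z 121) e) e) e) (n true (n true (n false (n false (n false (n false e e) (n false e e)) (n false (n false e e) (n false e e))) (n false e e)) e) e)) (u 16 1 (k v (k (c 48 4099 r (u 32 1 (k v (k v r)))) (k (c 32 4097 r (u 48 1 (k v (k v r)))) (k (c 32 4095 r (u 48 0 (k v (k v r)))) (k (c 32 4095 r (u 48 0 (k v (k v r)))) r))))))
 (.s 0x3faa228882e7df6008 4082 (n false (n false (n true (z 91) e) (n false e e)) (n true (n true (n false (n false (n false (n false e e) (n false e e)) (n false (n false e e) (n false e e))) (n false e e)) e) e)) (u 8 2 (k v (k v (k (u 16 1 (k v (k v r))) (k (c 16 4097 r (u 24 0 (k v (k v r)))) (k (c 16 4097 r (u 24 0 (k v (k v r)))) (k (c 16 4096 r (u 24 0 (k v (k v r)))) (k (c 16 4095 r (u 24 0 (k v (k v r)))) r))))))))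
 (.s 0x3faa228882e7776008 4079 (n false (n false (n true (z 85) e) (n false e e)) (n true (n true (n false (n false (n false (n false e e) (n false e e)) (n false (n false e e) (n false e e))) (n false e e)) e) e)) (u 8 4 (k v (k (c 24 4099 r r) (k r (k (c 24 4099 r r) (k r (k (c 24 4096 r r) (k (c 16 4099 r r) r))))))))
 (.s 0x3faa228882e775c008 4082 (n false (n false (n true (z 37) e) (n false e e)) (n true (n true (n false (n false (n false (n false e e) (n false e e)) (n false (n false e e) (n false e e))) (n false e e)) e) e)) (u 8 0 (k v (k (u 16 0 (k (t 32 3 (t 48 1 v)) r)) (k (u 16 0 (k (t 32 3 (t 48 1 v)) r)) (k r (k r (k r r)))))))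
 .z .z) (.s 0x3faa228882e7d56008 4084 (n false (n false (n true (z 67) e) (n false e e)) (n true (n true (n false (n false (n false (n false e e) (n false e e)) (n false (n false e e) (n false e e))) (n false e e)) e) e)) (u 8 10 (k v (k v (k (c 24 4099 r r) (k (c 16 4096 r r) (k (c 16 4096 r r) (k (c 16 4101 r (u 24 0 (k v (k v r)))) (k (c 24 4099 r r) (k (u 16 7 (k v (k v (k v (k (c 48 4099 r (u 32 1 (k v (k v r)))) r))))) (k (c 16 4099 r (u 24 0 (k v (k v r)))) (k (c 24 4099 r r) (k (c 24 4099 r (u 16 0 (k (u 32 0 (k v (k v r))) r))) (k (c 24 4101 r (u 16 1 (k v (k v r)))) (k (c 24 4099 r r) (k (c 24 4102 r (u 16 1 (k v (k v r)))) (k (c 24 4100 r r) (k (c 16 4101 r (u 24 1 (k v (k v r)))) (k (c 24 4099 r (u 16 2 (k v (k (c 48 4099 r (u 32 1 (k v (k v r)))) (k (c 32 4095 r (u 48 0 (k v (k v r)))) r))))) (k (c 16 4101 r (u 24 1 (k v (k v r)))) r)))))))))))))))))))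
 .z .z)) (.s 0x3faa228882e7f7e008 4083 (n false (n false (n true (z 119) e) (n false e e)) (n true (n true (n false (n false (n false (n false e e) (n false e e)) (n false (n false e e) (n false e e))) (n false e e)) e) e)) (u 8 0 (k v (k (c 24 4101 r r) (k (c 24 4096 r r) (k (c 24 4096 r r) (k (c 24 4099 r r) (k (c 24 4097 r r) (k (c 24 4096 r (u 16 0 (k (u 32 0 (k v (k v r))) r))) (k (c 16 4098 r r) (k (c 16 4101 r r) (k (c 16 4099 r r) (k (c 16 4101 r r) r))))))))))))
 (.s 0x3faa228882e7f56008 4081 (n false (n false (n true (z 71) e) (n false e e)) (n true (n true (n false (n false (n false (n false e e) (n false e e)) (n false (n false e e) (n false e e))) (n false e e)) e) e)) (u 8 1 (k v (k (c 24 4099 r (u 16 1 (k v (k v r)))) (k (u 16 0 (k v (k v r))) (k (c 16 4099 r (u 24 1 (k v (k v r)))) (k (c 16 4099 r (u 24 1 (k v (k v r)))) (k (c 16 4099 r (u 24 1 (k v (k v r)))) r)))))))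
 .z .z) .z)) (.s 0x3fe57fe003ea88a220 4095 (n false (n true (n true (n true (z 124) e) e) e) (n true (n true (n false (n false (n false (n false e e) (n false e e)) (n false (n false e e) (n false e e))) (n false e e)) e) e)) (u 16 12 (k v (k v (k (c 48 4097 r (u 32 1 (k v (k v r)))) (k (c 48 4096 r (u 32 1 (k v (k v r)))) (k (c 48 4097 r (u 32 1 (k v (k v r)))) (k (c 48 4097 r (u 32 1 (k v (k v r)))) (k (c 48 4099 r (u 32 1 (k v (k v r)))) (k (c 32 4097 r (u 48 1 (k v (k v r)))) r)))))))))
 (.s 0x3faa228883b97f7000 4094 (n false (n true (n false (n true (z 46) e) e) e) (n true (n true (n false (n false (n false (n false e e) (n false e e)) (n false (n false e e) (n false e e))) (n false e e)) e) e)) (u 16 1 (k v (k (u 32 1 (k v (k v r))) (k (c 48 4099 r (u 32 0 (k v (k v r)))) (k (u 32 1 (k v (k v r))) (k (c 48 4097 r (u 32 1 (k v (k v r)))) (k (c 32 4095 r (u 48 1 (k v (k v r)))) r)))))))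
 (.s 0x3faa228883b95ff800 4094 (n false (n true (n false (n true (z 124) e) e) e) (n true (n true (n false (n false (n false (n false e e) (n false e e)) (n false (n false e e) (n false e e))) (n false e e)) e) e)) (u 16 1 (k v (k (c 48 4097 r (u 32 1 (k v (k v r)))) (k (c 48 4096 r (u 32 1 (k v (k v r)))) (k (c 32 4098 r (u 48 0 (k v (k v r)))) (k (c 48 4096 r (u 32 1 (k v (k v r)))) (k (c 48 4097 r (u 32 1 (k v (k v r)))) (k (c 48 4097 r (u 32 1 (k v (k v r)))) (k (c 48 4096 r (u 32 1 (k v (k v r)))) (k (c 48 4099 r (u 32 1 (k v (k v r)))) (k (c 32 4097 r (u 48 1 (k v (k v r)))) r)))))))))))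
 .z .z) (.s 0x3faa228883b9d7f800 4095 (n false (n true (n false (n true (z 121) e) e) e) (n true (n true (n false (n false (n false (n false e e) (n false e e)) (n false (n false e e) (n false e e))) (n false e e)) e) e)) (u 16 1 (k v (k (c 48 4099 r (u 32 1 (k v (k v r)))) (k (c 32 4097 r (u 48 1 (k v (k v r)))) (k (c 32 4095 r (u 48 0 (k v (k v r)))) (k (c 32 4095 r (u 48 0 (k v (k v r)))) r))))))
 .z .z)) (.s 0x3fe75fe003ea88a220 4095 (n false (n true (n true (n true (z 121) e) e) e) (n true (n true (n false (n false (n false (n false e e) (n false e e)) (n false (n false e e) (n false e e))) (n false e e)) e) e)) (u 16 1 (k v (k (c 48 4099 r (u 32 1 (k v (k v r)))) (k (c 32 4097 r (u 48 1 (k v (k v r)))) (k (c 32 4095 r (u 48 0 (k v (k v r)))) (k (c 32 4095 r (u 48 0 (k v (k v r)))) r))))))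
 (.s 0x3fe5fdc003ea88a220 4095 (n false (n true (n true (n true (z 46) e) e) e) (n true (n true (n false (n false (n false (n false e e) (n false e e)) (n false (n false e e) (n false e e))) (n false e e)) e) e)) (u 16 1 (k v (k (u 32 1 (k v (k v r))) (k (c 48 4099 r (u 32 0 (k v (k v r)))) (k (u 32 1 (k v (k v r))) (k (c 48 4097 r (u 32 1 (k v (k v r)))) (k (c 32 4095 r (u 48 1 (k v (k v r)))) r)))))))
 .z .z) .z))) (.s 0x1d2bfa8012aaa801d10 4082 (n false (n false (z 128) (z 156)) (n true (n false (n false e e) (n false e e)) e)) (u 4 29 (k r (k r (k (c 4 4094 v r) (k (c 8 4097 r r) (k (c 8 4095 r (t 6 1 r)) (k (c 8 4096 r r) (k (c 8 4095 r r) (k (c 8 4095 r (u 12 0 (k r (k r r)))) (k (c 12 4095 r (t 6 1 r)) (k (c 12 4095 r (u 8 1 (k r (k r r)))) (k (c 8 4097 r (u 12 0 (k r (k r r)))) (k (c 8 4095 r r) (k (c 8 4095 r (u 12 1 (k r (k r r)))) (k (c 8 4097 r r) r)))))))))))))))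
 (.s 0x1d2bbe00ee10e577c00 4081 (n false (n false (z 52) (n true (n false (n true (n false e e) e) (n false e e)) e)) (n true (z 52) e)) (u 4 166 (k r (k (c 10 4092 v r) (k (c 5 4097 r v) (k (c 2 4074 v (c 5 4097 r v)) (k (t 12 1 (u 8 2 (k r (k r r)))) r))))))
 (.s 0x1d2bbe00ae10e577c00 4081 (n false (n false (z 52) (n false (n false (n true (n false e e) e) (n false e e)) e)) (n true (z 52) e)) (u 4 166 (k r (k (c 10 4092 v r) (k (c 5 4097 r v) (k (c 2 4074 v (c 5 4097 r v)) (k (t 12 1 (u 5 168 (k (u 8 0 (k v (k v r))) (k (u 8 2 (k v (k v r))) (k (c 6 4091 v (u 8 0 (k v (k v r)))) (k (c 4 4097 (t 2 1 v) v) (k (t 13 1 (u 9 0 (k (u 8 0 (k v (k v r))) (k (u 8 2 (k v (k v r))) r)))) r))))))) r))))))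
 (.s 0x1d2bbe00ae10aa22888 4081 (n false (n false (z 52) (n false (n false (n true (n false e e) e) (n false e e)) e)) (n false (n false (n false (n false e e) (n false e e)) (n false (n false e e) (n false e e))) (n false e e))) (u 4 45 (k v (k v (k v (k v r)))))
 .z .z) (.s 0x1d2bbe00ee10aa22888 4081 (n false (n false (z 52) (n true (n false (n true (n false e e) e) (n false e e)) e)) (n false (n false (n false (n false e e) (n false e e)) (n false (n false e e) (n false e e))) (n false e e))) (u 4 140 (k v (k v (k v (k v (k v r))))))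
 .z .z)) (.s 0x1d2bfa8012aaa00a888 4088 (n false (n false (z 156) (z 0)) (n false (n false (n false e e) (n false e e)) (n false e e))) (t 6 1 (u 4 1 (k v (k (c 12 4099 r (u 8 1 (k v (k v r)))) (k (c 8 4098 r (u 12 1 (k v (k v r)))) (k (c 8 4097 r (u 12 1 (k v (k v r)))) (k (c 8 4099 r (u 12 1 (k v (k v r)))) (k (c 8 4095 r (c 3 4091 v r)) r))))))))
 (.s 0x1d2bea0095df0075110 4089 (n false (n false (z 52) (z 12)) (n true (n false (n false (n false e e) (n false e e)) (n false e e)) e)) (t 6 3 (u 4 48 (k v (k v (k v (k v (k (t 12 1 (u 8 0 (k v (k v r)))) r)))))))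
 .z .z) .z)) (.s 0x1d2bfa8012eee00ee10 4084 (n false (n false (z 156) (z 42)) (n true (n false (n true (n false e e) e) (n false e e)) e)) (u 4 8 (k (u 6 1 (k v (k v r))) (k (c 2 4067 (u 3 1 (k v (k v r))) v) (k (c 12 4099 r r) (k (c 8 4098 r r) (k (c 8 4097 r r) (k (c 8 4099 r r) r)))))))
 (.s 0x1d2bfa8012bbe00ee10 4081 (n false (n false (z 156) (z 52)) (n true (n false (n true (n false e e) e) (n false e e)) e)) (u 4 8 (k r (k (c 2 4064 r v) (k (c 12 4099 r (u 8 1 (k r (k r r)))) (k (c 8 4098 r (u 12 1 (k r (k r r)))) (k (c 8 4097 r (u 12 1 (k r (k r r)))) (k (c 8 4099 r (u 12 1 (k r (k r r)))) r)))))))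
 (.s 0x1d2bfa8012bbe00ae10 4087 (n false (n false (z 52) (z 156)) (n false (n false (n true (n false e e) e) (n false e e)) e)) (u 4 166 (k r (k (t 6 1 v) (k (c 2 4085 r v) (k (c 2 4084 r v) (k (t 12 1 (u 6 8 (k (u 8 2 (k v (k v r))) (k (c 2 4064 (u 4 0 (k v (k v r))) v) (k (c 14 4099 r r) (k (c 10 4098 r r) (k (c 10 4097 r r) (k (c 10 4099 r r) r)))))))) r))))))
 .z .z) (.s 0x1d2bfa8012bfa801d10 4082 (n false (n false (z 156) (z 156)) (n true (n false (n false e e) (n false e e)) e)) (u 4 1 (k r (k (c 12 4099 r (u 8 1 (k r (k r r)))) (k (c 8 4098 r (u 12 1 (k r (k r r)))) (k (c 8 4097 r (u 12 1 (k r (k r r)))) (k (c 8 4099 r (u 12 1 (k r (k r r)))) (k (c 8 4095 r (u 12 0 (k r (k r r)))) r)))))))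
 .z .z)) (.s 0x1d2bfa8013eae00ee10 4085 (n false (n false (z 156) (z 35)) (n true (n false (n true (n false e e) e) (n false e e)) e)) (u 4 8 (k r (k (c 2 4069 r v) (k (c 12 4099 r (u 8 1 (k r (k r r)))) (k (c 8 4098 r (u 12 1 (k r (k r r)))) (k (c 8 4097 r (u 12 1 (k r (k r r)))) (k (c 8 4099 r (u 12 1 (k r (k r r)))) r)))))))
 (.s 0x1d2bfa8013eae00ae10 4087 (n false (n false (z 156) (z 35)) (n false (n false (n true (n false e e) e) (n false e e)) e)) (u 4 37 (k r (k (c 6 4096 r v) (k (c 2 4069 r v) (k (c 12 4099 r (u 8 1 (k r (k r r)))) (k (c 8 4099 r (u 12 1 (k r (k r r)))) r))))))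
 .z .z) .z))))

set_option maxRecDepth 100000 in
def N159 : NT :=
(.s 0x1d3baa009d7d805d108 4089 (n false (n false (z 89) (z 5)) (n false (n true (n false (n false e e) (n false e e)) e) (n false e e))) (t 6 2 (u 4 33 (k v (k v (k v (k v (k (t 12 3 (u 8 354 (k v (k v (k v (k v (k v (k v r)))))))) (k (t 12 3 (u 8 0 (k v (k v r)))) (k (c 8 4099 r (c 3 4090 v (u 12 0 (k v (k (u 20 0 (k (u 36 0 (k v (k v r))) r)) r))))) (k (t 12 2 (c 6 4094 v (u 8 27 (k v (k v r))))) r))))))))))
 (.s 0x1d3aff0095df005d108 4082 (n false (n false (z 52) (z 121)) (n false (n true (n false (n false e e) (n false e e)) e) (n false e e))) (u 6 1 (k r (k (c 14 4099 r (u 10 1 (k r (k r r)))) (k (c 10 4097 r (u 14 1 (k r (k r r)))) (k (c 10 4095 r (u 14 0 (k r (k r r)))) (k (c 10 4095 r (u 14 0 (k r (k r r)))) r))))))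
 (.s 0x1d2fee0095df005d108 4082 (n false (n false (z 46) (z 52)) (n false (n true (n false (n false e e) (n false e e)) e) (n false e e))) (u 4 1 (k r (k (u 8 1 (k r (k r r))) (k (c 12 4099 r (u 8 0 (k r (k r r)))) (k (u 8 1 (k r (k (u 6 26 (k v (k v (k v r)))) r))) (k (c 12 4097 r (u 8 1 (k r (k r r)))) (k (c 8 4095 r (u 12 1 (k r (k r r)))) r)))))))
 (.s 0x1d2bff0095df005d108 4082 (n false (n false (z 52) (z 124)) (n false (n true (n false (n false e e) (n false e e)) e) (n false e e))) (u 6 1 (k r (k (c 14 4097 r (u 10 1 (k r (k r r)))) (k (c 14 4096 r (u 10 1 (k r (k r r)))) (k (c 10 4098 r (u 14 0 (k r (k r r)))) (k (c 14 4096 r (u 10 1 (k r (k r r)))) (k (c 14 4097 r (u 10 1 (k r (k r r)))) (k (c 14 4097 r (u 10 1 (k r (k r r)))) (k (c 14 4096 r (u 10 1 (k r (k r r)))) (k (c 14 4099 r (u 10 1 (k r (k r r)))) (k (c 10 4097 r (u 14 1 (k r (k r r)))) r)))))))))))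
 (.s 0x1d2bfa8013fbb00ee10 4083 (n false (n false (z 156) (z 87)) (n true (n false (n true (n false e e) e) (n false e e)) e)) (u 4 8 (k (u 6 1 (k v (k v r))) (k (c 2 4066 (u 3 1 (k v (k v r))) v) (k (c 12 4099 r r) (k (c 8 4098 r r) (k (c 8 4097 r r) (k (c 8 4099 r r) r)))))))
 .z .z) (.s 0x1d2eee00957f0075c20 4085 (n false (n false (z 56) (z 42)) (n true (n false (n false (n true (n false e e) e) (n false e e)) e) e)) (t 4 1 (u 6 22 (k v (k r (k (u 10 25 (k v (k v (k v (k (c 18 4097 r (u 26 1 (k v (k v r)))) r))))) (k r (k (t 14 1 (u 10 0 (k r r))) (k (u 10 3 (k v (k (u 18 14 (k v (k v (k v (k v r))))) (k (c 26 4096 r (u 18 1 (k v (k v r)))) r)))) r))))))))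
 .z .z)) (.s 0x1d3aff009557005d108 4082 (n false (n false (z 121) (z 32)) (n false (n true (n false (n false e e) (n false e e)) e) (n false e e))) (u 6 0 (k (t 10 3 (t 14 1 (u 4 1 (k v (k (c 12 4099 r (u 8 1 (k v (k v r)))) (k (c 8 4097 r (c 3 4090 v r)) (k (c 8 4095 r (u 12 0 (k v (k v r)))) (k (c 8 4095 r (u 12 0 (k v (k v r)))) r)))))))) r))
 (.s 0x1d2ffa8012aaa00a888 4088 (n false (n false (z 158) (z 0)) (n false (n false (n false e e) (n false e e)) (n false e e))) (t 6 1 (u 4 0 (k (u 8 1 (k v (k v (k (t 24 1 (u 16 0 (k v (k (c 48 4099 r (u 32 0 (k v (k v r)))) r)))) r)))) r)))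
 .z .z) .z)) (.s 0x1d3baa00957f0075110 4089 (n false (n false (z 56) (z 5)) (n true (n false (n false (n false e e) (n false e e)) (n false e e)) e)) (t 6 1 (u 4 0 (k (u 8 282 (k v (k v (k v (k v (k (t 24 1 (u 16 0 (k v (k v r)))) r)))))) (k (c 8 4096 r (u 12 0 (k v (k v r)))) (k (u 8 1 (k v (k v r))) (k (c 12 4096 r (u 8 4 (k v (k v (k v (k v (k (t 24 1 (u 16 0 (k v (k v r)))) r))))))) r))))))
 (.s 0x1d3aff009d7d805d108 4082 (n false (n false (z 89) (z 121)) (n false (n true (n false (n false e e) (n false e e)) e) (n false e e))) (u 6 1 (k r (k (c 14 4099 r r) (k (c 10 4097 r (t 4 1 (c 3 4090 v r))) (k (c 10 4095 r (t 4 1 (c 3 4090 v r))) (k (c 10 4095 r (t 4 1 (c 3 4090 v r))) r))))))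
 (.s 0x1d3aff009777005d108 4082 (n false (n false (z 121) (z 42)) (n false (n true (n false (n false e e) (n false e e)) e) (n false e e))) (u 4 1 (k r (k (c 12 4099 r (u 8 1 (k r (k r r)))) (k (c 8 4097 r (u 12 1 (k r (k r r)))) (k (c 8 4095 r (t 6 1 (c 3 4090 v r))) (k (c 8 4095 r (t 6 1 (c 3 4090 v r))) r))))))
 .z .z) (.s 0x1d3aff00ee10aa22888 4084 (n false (n false (z 121) (n true (n false (n true (n false e e) e) (n false e e)) e)) (n false (n false (n false (n false e e) (n false e e)) (n false (n false e e) (n false e e))) (n false e e))) (u 4 28 (k v (k v (k (c 12 4099 r (u 8 1 (k v (k v r)))) (k (c 8 4095 r (u 12 0 (k v (k v r)))) (k (c 8 4095 r (u 12 0 (k v (k v r)))) r))))))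
 .z .z)) (.s 0x1d3baa0097f70077d00 4085 (n false (n true (n false (n true (n true (n false (n false e e) e) e) e) e) e) (n false (z 46) (z 5))) (t 7 1 (u 5 2 (k v (k (c 13 4099 r (u 9 0 (k v (k v r)))) (k r (k (c 2 4090 v (c 11 4101 v r)) (k (c 13 4097 r r) (k (c 9 4095 r r) r))))))))
 (.s 0x1d3baa0097f70077500 4087 (n false (n false (z 46) (z 5)) (n true (n false (n true (n false (n false (n false e e) e) e) e) e) e)) (t 6 1 (u 4 10 (k v (k (c 12 4099 r (u 8 0 (k v (k v r)))) (k (c 3 4090 v (c 10 4101 v r)) r)))))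
 .z .z) .z))) (.s 0x1d3eab00ee10aa22888 4081 (n false (n false (z 67) (n true (n false (n true (n false e e) e) (n false e e)) e)) (n false (n false (n false (n false e e) (n false e e)) (n false (n false e e) (n false e e))) (n false e e))) (u 4 80 (k v (k v (k v (k (c 12 4099 r (u 8 1 (k v (k v r)))) (k (c 8 4101 r (u 12 0 (k v (k v r)))) (k (c 12 4099 r r) (k (u 8 11 (k v (k v (k v (k (c 24 4099 r (u 16 1 (k v (k v r)))) r))))) (k (c 8 4099 r (u 12 0 (k v (k v r)))) (k (c 12 4099 r (u 8 2 (k v (k (c 24 4097 r (u 16 0 (k v (k v r)))) r)))) (k (c 12 4099 r (u 8 0 (k (u 16 0 (k v (k v r))) r))) (k (c 12 4101 r (u 8 1 (k v (k v r)))) (k (c 12 4099 r (u 8 16 (k v (k v (k v (k (c 24 4099 r (u 16 1 (k v (k v r)))) r)))))) (k (c 12 4102 r (u 8 1 (k v (k v r)))) (k (c 12 4100 r r) (k (c 8 4101 r (u 12 1 (k v (k v r)))) (k (c 12 4099 r r) (k (c 8 4101 r (u 12 1 (k v (k v r)))) r))))))))))))))))))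
 (.s 0x1d3bae8012aaa00a888 4088 (n false (n false (z 165) (z 0)) (n false (n false (n false e e) (n false e e)) (n false e e))) (t 6 1 (u 4 0 (k (c 12 4097 r (u 8 1 (k v (k v (k (t 24 1 (u 16 0 (k v (k (c 48 4099 r (u 32 28 (k v (k v (k v r))))) r)))) r))))) (k (c 8 4098 r (u 12 0 (k (t 28 1 (u 20 25 (k v (k v (k v (k (u 36 0 (k v (k v r))) r)))))) r))) r))))
 (.s 0x1d3bae009d7d805d108 4082 (n false (n false (z 89) (z 37)) (n false (n true (n false (n false e e) (n false e e)) e) (n false e e))) (u 6 23 (k (c 3 4090 v r) (k r (k (t 4 1 (u 10 0 (k (t 18 3 (t 26 1 v)) r))) (k r (k (t 4 1 r) r))))))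
 (.s 0x1d3bae0095df005d108 4082 (n false (n false (z 52) (z 37)) (n false (n true (n false (n false e e) (n false e e)) e) (n false e e))) (u 6 0 (k (u 4 137 (k v (k v (k v (k v (k v r)))))) (k (c 3 4090 v r) (k (c 3 4090 v r) (k r (k r (k r r)))))))
 .z .z) (.s 0x1d3bae00ee10aa22888 4084 (n false (n false (n true (n false (n true (n false e e) e) (n false e e)) e) (z 37)) (n false (n false (n false (n false e e) (n false e e)) (n false (n false e e) (n false e e))) (n false e e))) (u 6 23 (k v (k v (k (u 10 0 (k (t 18 3 (t 26 1 v)) r)) (k (u 10 0 (k v (k v (k (t 26 1 (u 18 0 (k (t 34 3 (t 50 1 v)) r))) r)))) (k (u 10 3 (k v (k v r))) r))))))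
 .z .z)) (.s 0x1d3eab00a88a23ea220 4085 (n false (n false (z 67) (n false (n false (n false e e) (n false e e)) (n false (n false e e) (n false e e)))) (n true (n true (n false (n false (n false e e) (n false e e)) (n false e e)) e) e)) (u 4 124 (k v (k v (k v (k v (k (c 12 4099 r (u 8 1 (k v (k v r)))) (k (c 12 4099 r (u 8 0 (k (u 16 0 (k v (k v r))) r))) (k (c 8 4099 r (u 12 1 (k v (k v r)))) (k (c 12 4099 r r) (k (c 8 4099 r (u 12 0 (k (u 20 0 (k v (k v r))) r))) (k (c 12 4099 r r) (k (c 12 4099 r r) (k (c 12 4099 r r) r)))))))))))))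
 (.s 0x1d3eab00a88a22b8470 4084 (n false (n false (z 67) (n false (n false (n false e e) (n false e e)) (n false (n false e e) (n false e e)))) (n false (n false (n true (n false e e) e) (n false e e)) (n true (n false e e) e))) (c 7 4094 v (u 4 0 (k v (k v r))))
 .z .z) .z)) (.s 0x1d3eff0095ff805d108 4082 (n false (n false (z 124) (z 123)) (n false (n true (n false (n false e e) (n false e e)) e) (n false e e))) (u 4 1 (k r (k (c 8 4099 r r) (k (c 12 4096 r r) (k (c 8 4098 r r) (k (c 12 4096 r r) (k (c 12 4097 r r) (k (c 12 4097 r r) (k (c 12 4096 r r) (k (c 12 4099 r r) (k (c 8 4097 r r) r)))))))))))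
 (.s 0x1d3ebe009d7f805d108 4084 (n false (n false (z 51) (z 121)) (n false (n true (n false (n false e e) (n false e e)) e) (n false e e))) (t 4 1 (u 6 1 (k v (k (c 14 4099 r (u 10 1 (k v (k v r)))) (k (c 10 4097 r (u 14 1 (k v (k v r)))) (k (c 10 4095 r (u 14 0 (k v (k v r)))) (k (c 10 4095 r (u 14 0 (k v (k v r)))) r)))))))
 (.s 0x1d3ebe0097f7005d108 4084 (n false (n false (z 51) (z 46)) (n false (n true (n false (n false e e) (n false e e)) e) (n false e e))) (t 4 1 (u 6 1 (k v (k (u 10 1 (k v (k v r))) (k (c 14 4099 r (u 10 0 (k v (k v r)))) (k (u 10 1 (k v (k v r))) (k (c 14 4097 r (u 10 1 (k v (k v r)))) (k (c 10 4095 r (u 14 1 (k v (k v r)))) r))))))))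
 .z .z) (.s 0x1d3efb0095df005d108 4082 (n false (n false (z 91) (z 52)) (n false (n true (n false (n false e e) (n false e e)) e) (n false e e))) (u 6 26 (k r (k (u 4 2 (k v (k v (k (u 8 1 (k v (k v r))) (k (c 8 4097 r (u 12 0 (k v (k v r)))) (k (c 8 4097 r (u 12 0 (k v (k v r)))) (k (c 8 4096 r (u 12 0 (k v (k v r)))) (k (c 8 4095 r (u 12 0 (k v (k v r)))) r)))))))) (k (u 4 4 (k v (k v (k (u 8 1 (k v (k v r))) (k (c 8 4097 r (u 12 0 (k v (k v r)))) (k (c 8 4097 r (u 12 0 (k v (k v r)))) (k (c 8 4096 r (u 12 0 (k v (k v r)))) (k (c 8 4095 r (u 12 0 (k v (k v r)))) r)))))))) r))))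
 .z .z)) (.s 0x1d4aab801708e7f7c00 4081 (n false (n false (n false (z 32) e) (n false (n true (n false e e) e) (n false e e))) (n true (z 55) e)) (c 10 4094 v (u 8 0 (k (t 16 3 (t 24 1 (u 5 6 (k v (k (t 13 1 (u 9 40 (k v (k (t 17 3 (t 25 1 v)) r)))) r))))) r)))
 (.s 0x1d4aab8012bbe00ee10 4081 (n false (n false (z 52) (n false (z 32) e)) (n true (n false (n true (n false e e) e) (n false e e)) e)) (u 4 218 (k (u 10 0 (k (t 18 3 (t 26 1 v)) r)) (k (c 10 4096 r v) (k (u 10 0 (k (t 18 3 (t 26 1 v)) r)) (k (c 10 4096 r v) (k (c 10 4096 r v) (k (t 12 1 (u 8 0 (k (u 10 0 (k (t 18 3 (t 26 1 v)) r)) (k (u 10 0 (k (t 18 3 (t 26 1 v)) r)) r)))) r)))))))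
 .z .z) .z))))

set_option maxRecDepth 100000 in
def N160 : NT :=
(.s 0x1d52bff0095df002288 4082 (n false (n false (n false (n false (z 124) (z 52)) e) (n false e e)) (n false (n false e e) (n false e e))) (u 16 1 (k r (k (c 48 4097 r r) (k (c 48 4096 r r) (k (c 32 4098 r (u 48 0 (k r (k r r)))) (k (c 48 4096 r r) (k (c 48 4097 r r) (k (c 48 4097 r r) (k (c 48 4096 r r) (k (c 48 4099 r r) (k (c 32 4097 r r) r)))))))))))
 (.s 0x1d4fab8012bfa801d10 4082 (n false (n false (z 156) (n false (z 35) e)) (n true (n false (n false e e) (n false e e)) e)) (u 4 0 (k (c 10 4096 r v) (k (c 12 4099 r (u 8 0 (k r (k (c 10 4096 r v) r)))) r)))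
 (.s 0x1d4abe80239fdd803a0 4085 (n false (n false (n true (z 87) e) (n false (z 24) (n false e e))) (n true (n false (n false e e) e) e)) (u 8 1 (k (u 10 0 (k (t 18 3 (t 26 1 v)) r)) (k (u 10 0 (k (t 18 3 (t 26 1 v)) r)) r)))
 (.s 0x1d4abe802397f5003a0 4085 (n false (n false (n true (z 14) e) (n false (z 24) (n false e e))) (n true (n false (n false e e) e) e)) (u 8 0 (k (u 10 0 (k (t 18 3 (t 26 1 v)) r)) (k (u 10 0 (k (t 18 3 (t 26 1 v)) r)) r)))
 (.s 0x1d4abe802395df003a0 4086 (n false (n false (n true (z 52) e) (n false (z 24) (n false e e))) (n true (n false (n false e e) e) e)) (u 8 103 (k (u 10 0 (k (t 18 3 (t 26 1 v)) r)) (k (u 10 0 (k (t 18 3 (t 26 1 v)) r)) (k (c 6 4096 (c 2 4098 r v) v) (k (c 6 4096 (c 2 4098 r v) v) (k (t 24 1 (u 10 0 (k (t 18 3 (t 26 1 (u 16 0 (k v (k v r))))) r))) r))))))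
 .z .z) (.s 0x1d4abe80239f55803a0 4089 (n false (n false (n true (z 67) e) (n false (z 24) (n false e e))) (n true (n false (n false e e) e) e)) (u 8 0 (k (u 10 0 (k (t 18 3 (t 26 1 v)) r)) (k (u 10 0 (k (t 18 3 (t 26 1 v)) r)) r)))
 .z .z)) (.s 0x1d4faac012aaa801708 4076 (n false (n false (z 128) (n false (z 67) e)) (n false (n true (n false e e) e) (n false e e))) (u 4 0 (k (u 10 0 (k v (k v r))) (k (u 10 0 (k v (k v r))) (k (c 12 4097 r r) (k (c 12 4099 r (u 8 0 (k (t 24 2 (u 16 0 (k (c 48 4099 r (u 32 2 (k (u 10 0 (k v (k v r))) (k (c 16 4090 (u 4 1 (k v (k v r))) (c 24 4094 v (u 10 0 (k v (k v r))))) r)))) r))) r))) (k (c 8 4095 r r) (k (c 8 4095 r (t 10 2 (u 12 0 (k v (k v r))))) (k (c 12 4095 r (t 10 2 (u 8 1 (k v (k v r))))) (k (c 8 4095 r r) (k (c 8 4095 r (t 10 2 (u 12 1 (k v (k v r))))) r))))))))))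
 (.s 0x1d4afea0023ea88a220 4083 (n false (n false (n false (z 156) e) (n false e e)) (n true (n true (n false (n false (n false (n false e e) (n false e e)) (n false (n false e e) (n false e e))) (n false e e)) e) e)) (u 8 1 (k v (k (c 24 4099 r (u 16 1 (k v (k v r)))) (k (c 16 4098 r (u 24 1 (k v (k v r)))) (k (c 16 4097 r (u 24 1 (k v (k v r)))) (k (c 16 4099 r (u 24 1 (k v (k v r)))) (k (c 16 4095 r (u 24 0 (k v (k v r)))) r)))))))
 .z .z) .z)) (.s 0x1d52afa0084aef803a0 4088 (n false (n false (z 52) (n false (n false (z 24) (n false e e)) e)) (n true (n false (n false e e) e) e)) (u 4 257 (k (u 18 0 (k (t 34 3 (t 50 1 v)) r)) (k (c 10 4096 (c 2 4098 r v) v) (k (c 2 4085 (u 9 0 (k (t 17 3 (t 25 1 v)) r)) v) (k (u 18 0 (k (t 34 3 (t 50 1 v)) r)) (k (c 6 4101 (u 4 0 (k (t 8 3 (t 12 1 v)) r)) v) r))))))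
 (.s 0x1d4fef8012bbe00ee10 4081 (n false (n false (n false (z 55) e) (z 52)) (n true (n false (n true (n false e e) e) (n false e e)) e)) (u 6 218 (k r (k (c 8 4096 r v) (k (c 4 4095 r v) (k (c 8 4096 r v) (k (c 4 4095 r v) (k (t 14 1 (u 10 0 (k r (k (u 8 6 (k v (k (t 24 1 (u 16 10 (k v (k v r)))) r))) r)))) r)))))))
 (.s 0x1d4fbb8027d56011708 4086 (n false (n false (n false (z 67) (z 43)) (n false e e)) (n false (n true (n false e e) e) (n false e e))) (u 8 0 (k (u 12 23 (k v (k (u 20 1 (k v (k v r))) (k (c 28 4099 r (u 20 0 (k (u 36 0 (k v (k v r))) r))) (k (c 4 4069 r v) (k (u 20 11 (k v (k v (k (c 52 4099 r (u 36 1 (k v (k v r)))) (k (c 36 4095 r (u 52 0 (k v (k v r)))) (k (c 36 4095 r (u 52 0 (k v (k v r)))) r)))))) (k (u 20 19 (k v (k v (k (c 52 4099 r (u 36 1 (k v (k v r)))) (k (c 36 4099 r (u 52 1 (k v (k v r)))) (k (c 36 4095 r (u 52 0 (k v (k v r)))) r)))))) r))))))) (k (c 12 4100 r v) r)))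
 .z .z) (.s 0x1d4fef8014ebec01708 4076 (n false (n false (n false (z 55) e) (n false (z 89) e)) (n false (n true (n false e e) e) (n false e e))) (u 10 5 (k (u 8 9 (k v (k v r))) (k (u 8 9 (k v (k v r))) (k (u 8 9 (k v (k v r))) (k (t 26 2 (u 18 26 (k (u 8 9 (k v (k v r))) (k (u 8 3 (k v (k v r))) (k (u 8 3 (k v (k v r))) r))))) r)))))
 .z .z)) (.s 0x1d52bfa800875445110 4085 (n false (n false (n false (n false (z 156) e) (n false e e)) e) (n true (n false (n false (n false (n false e e) (n false e e)) (n false (n false e e) (n false e e))) (n false e e)) e)) (u 16 1 (k v (k (c 48 4099 r (u 32 1 (k v (k v r)))) (k (c 32 4098 r (u 48 1 (k v (k v r)))) (k (c 32 4097 r (u 48 1 (k v (k v r)))) (k (c 32 4099 r (u 48 1 (k v (k v r)))) (k (c 32 4095 r (u 48 0 (k v (k v r)))) r)))))))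
 (.s 0x1d52bae0095550043a0 4079 (n false (n false (n false (n false (z 36) (z 0)) (n false e e)) e) (n true (n false (n false e e) e) e)) (t 24 1 (u 16 0 (k (u 32 2 (k v (k (c 16 4084 (u 4 1 (k v (k v r))) v) r))) r)))
 .z .z) .z))) (.s 0x1d53efb0095df002288 4082 (n false (n false (n false (n false (z 91) (z 52)) e) (n false e e)) (n false (n false e e) (n false e e))) (u 24 26 (k r (k (u 16 2 (k v (k v (k (u 32 1 (k v (k v r))) (k (c 32 4097 r (u 48 0 (k v (k v r)))) (k (c 32 4097 r (u 48 0 (k v (k v r)))) (k (c 32 4096 r (u 48 0 (k v (k v r)))) (k (c 32 4095 r (u 48 0 (k v (k v r)))) r)))))))) (k (u 16 4 (k v (k v (k (u 32 1 (k v (k v r))) (k (c 32 4097 r (u 48 0 (k v (k v r)))) (k (c 32 4097 r (u 48 0 (k v (k v r)))) (k (c 32 4096 r (u 48 0 (k v (k v r)))) (k (c 32 4095 r (u 48 0 (k v (k v r)))) r)))))))) r))))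
 (.s 0x1d53ebe0097f7002288 4084 (n false (n false (n false (n false (z 46) (z 51)) e) (n false e e)) (n false (n false e e) (n false e e))) (t 24 1 (u 16 1 (k v (k (u 32 1 (k v (k v r))) (k (c 48 4099 r (u 32 0 (k v (k v r)))) (k (u 32 1 (k v (k v r))) (k (c 48 4097 r (u 32 1 (k v (k v r)))) (k (c 32 4095 r (u 48 1 (k v (k v r)))) r))))))))
 (.s 0x1d53aff0095df002288 4082 (n false (n false (n false (n false (z 121) (z 52)) e) (n false e e)) (n false (n false e e) (n false e e))) (u 16 18 (k r (k r (k (c 48 4099 r r) (k (c 32 4097 r (u 48 1 (k r (k r r)))) (k (c 32 4095 r (u 48 0 (k r (k r r)))) (k (c 32 4095 r (u 48 0 (k r (k r r)))) r)))))))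
 (.s 0x1d52fee0095df002288 4082 (n false (n false (n false (n false (z 46) (z 52)) e) (n false e e)) (n false (n false e e) (n false e e))) (u 16 1 (k r (k (u 32 1 (k r (k r r))) (k (c 48 4099 r (u 32 0 (k r (k r r)))) (k (u 32 1 (k r (k (u 24 26 (k v (k v (k v r)))) r))) (k (c 48 4097 r (u 32 1 (k r (k r r)))) (k (c 32 4095 r (u 48 1 (k r (k r r)))) r)))))))
 .z .z) (.s 0x1d53bae0095df002288 4082 (n false (n false (n false (n false (z 52) (z 37)) e) (n false e e)) (n false (n false e e) (n false e e))) (u 24 0 (k (u 16 74 (k v (k v (k v (k v r))))) (k (c 4 4088 r v) (k (c 4 4088 r v) (k r (k r (k r r)))))))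
 .z .z)) (.s 0x1d53eea00977d003850 4068 (n false (n false (n false (n false (z 26) (z 11)) e) (n true (n false e e) e)) (n false (n false e e) e)) (t 24 2 (u 16 2 (k v (k (u 32 6 (k v (k v r))) r))))
 (.s 0x1d53ebe009d7f802288 4084 (n false (n false (n false (n false (z 51) (z 121)) e) (n false e e)) (n false (n false e e) (n false e e))) (t 16 1 (u 24 1 (k v (k (c 56 4099 r (u 40 1 (k v (k v r)))) (k (c 40 4097 r (u 56 1 (k v (k v r)))) (k (c 40 4095 r (u 56 0 (k v (k v r)))) (k (c 40 4095 r (u 56 0 (k v (k v r)))) r)))))))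
 .z .z) .z)) (.s 0x1d54451113afb00a888 4088 (n false (n false (z 89) (n false (n false (n false (n false e e) (n false e e)) (n false (n false e e) (n false e e))) (n false e e))) (n false (n false (n false e e) (n false e e)) (n false e e))) (u 4 77 (k v (k v (k v (k (t 12 3 (u 8 48 (k v (k v (k v (k v (k (t 24 1 (u 16 0 (k v (k v r)))) r))))))) (k (t 12 2 (c 2 4083 r v)) (k (t 12 3 (u 8 0 (k v (k v r)))) (k (c 2 4095 (t 4 1 (c 3 4099 v r)) v) (k (c 2 4095 (c 5 4101 v (t 6 2 (c 3 4094 v r))) v) r)))))))))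
 (.s 0x1d54451112bff00ae10 4089 (n false (n false (z 124) (n false (n false (n false (n false e e) (n false e e)) (n false (n false e e) (n false e e))) (n false e e))) (n false (n false (n true (n false e e) e) (n false e e)) e)) (u 4 2 (k v (k v (k (c 12 4097 r (u 8 1 (k v (k v r)))) (k (c 12 4096 r (u 8 1 (k v (k v r)))) (k (c 12 4097 r (u 8 1 (k v (k v r)))) (k (c 12 4099 r (u 8 1 (k v (k v r)))) r)))))))
 (.s 0x1d54451112afe00ee10 4086 (n false (n false (z 56) (n false (n false (n false (n false e e) (n false e e)) (n false (n false e e) (n false e e))) (n false e e))) (n true (n false (n true (n false e e) e) (n false e e)) e)) (u 4 0 (k (u 8 51 (k v (k v (k v (k v (k v (k (t 24 1 (u 16 0 (k v (k v r)))) r))))))) (k (c 8 4096 r (u 12 0 (k v (k v r)))) (k (u 8 1 (k v (k v r))) (k (c 12 4096 r r) r)))))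
 .z .z) (.s 0x1d54451112ebe00ee10 4088 (n false (n false (z 50) (n false (n false (n false (n false e e) (n false e e)) (n false (n false e e) (n false e e))) (n false e e))) (n true (n false (n true (n false e e) e) (n false e e)) e)) (u 4 1 (k v (k (c 12 4097 r (u 8 0 (k v (k v r)))) r)))
 .z .z)) (.s 0x1d54451113bbb00ae10 4089 (n false (n false (z 85) (n false (n false (n false (n false e e) (n false e e)) (n false (n false e e) (n false e e))) (n false e e))) (n false (n false (n true (n false e e) e) (n false e e)) e)) (u 4 15 (k v (k (c 12 4099 r r) (k (c 12 4099 r r) (k (c 12 4099 r r) (k (c 3 4091 v (c 10 4101 v r)) (k (c 12 4096 r r) (k (c 12 4097 r r) r))))))))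
 (.s 0x1d54451113aff00ee10 4091 (n false (n false (z 121) (n false (n false (n false (n false e e) (n false e e)) (n false (n false e e) (n false e e))) (n false e e))) (n true (n false (n true (n false e e) e) (n false e e)) e)) (u 4 9 (k v (k v (k v (k (c 12 4099 r (u 8 1 (k v (k v r)))) r)))))
 .z .z) .z))))

set_option maxRecDepth 100000 in
def N161 : NT :=
(.s 0x1d73aff0023ea88a220 4084 (n false (n false (n false (n true (z 121) e) e) (n false e e)) (n true (n true (n false (n false (n false (n false e e) (n false e e)) (n false (n false e e) (n false e e))) (n false e e)) e) e)) (u 16 2 (k v (k v (k (c 48 4099 r (u 32 1 (k v (k v r)))) (k (c 32 4095 r (u 48 0 (k v (k v r)))) (k (c 32 4095 r (u 48 0 (k v (k v r)))) r))))))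
 (.s 0x1d5572bbe00210e1708 4058 (n false (n false (n false (n false (n false (n false (n false (n true (z 52) e) e) (n false e e)) e) (n false e e)) e) (n true (n false e e) e)) (n false (n true (n false e e) e) (n false e e))) (u 256 238 (k v (k v (k v (k v (k v (k v (k v r))))))))
 (.s 0x1d5445111dc212ffe00 4076 (n false (n false (n true (n false (n true (n false e e) e) (n false e e)) e) (n false (n false (n false (n false e e) (n false e e)) (n false (n false e e) (n false e e))) (n false e e))) (z 62)) (c 10 4101 v (u 3 5 (k v (k v r))))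
 (.s 0x1d54451113eee00fe80 4087 (n false (n true (n true (n true (n false (n false e e) e) e) e) e) (n false (z 43) (n false (n false (n false (n false e e) (n false e e)) (n false (n false e e) (n false e e))) (n false e e)))) (u 5 0 (k v (k (u 9 1 (k v (k v r))) (k (c 13 4099 r (u 9 0 (k (u 17 0 (k v (k v r))) r))) (k r (k (c 3 4088 r v) (k (u 9 0 (k (u 17 0 (k v (k v r))) r)) (k r (k r r)))))))))
 (.s 0x1d54451113eee00ee10 4087 (n false (n false (z 43) (n false (n false (n false (n false e e) (n false e e)) (n false (n false e e) (n false e e))) (n false e e))) (n true (n false (n true (n false e e) e) (n false e e)) e)) (u 4 0 (k v (k (u 8 1 (k v (k v r))) (k (c 12 4099 r (u 8 0 (k (u 16 0 (k v (k v r))) r))) (k r (k (c 2 4088 r v) (k (u 8 0 (k (u 16 0 (k v (k v r))) r)) (k r (k r r)))))))))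
 .z .z) (.s 0x1d5445111d074faac00 4090 (n false (n true (n false (z 67) e) e) (n false (n true (n false (n false e e) e) e) (n false (n false (n false (n false e e) (n false e e)) (n false (n false e e) (n false e e))) (n false e e)))) (u 8 55 (k v (k v (k v (k v (k (c 24 4099 r r) (k (c 24 4097 r r) (k (c 24 4099 r r) (k (c 7 4099 v (c 4 4088 r v)) (k (c 24 4099 r (u 16 0 (k (u 32 0 (k v (k v r))) r))) (k (c 16 4099 r r) (k (c 24 4099 r r) (k (c 16 4099 r (u 24 0 (k (u 40 0 (k v (k v r))) r))) (k (c 24 4099 r r) (k (c 24 4099 r r) (k (c 24 4099 r r) r))))))))))))))))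
 .z .z)) (.s 0x1d552efb0095ff80210 4088 (n false (n false (n false (n false (n false (n false (z 90) (z 124)) e) (n false e e)) e) (n false e e)) e) (t 64 2 (u 96 1 (k v (k (c 224 4097 r (u 160 1 (k v (k v r)))) (k (c 224 4096 r (u 160 1 (k v (k v r)))) (k (c 160 4098 r (u 224 0 (k v (k v r)))) (k (c 224 4096 r (u 160 1 (k v (k v r)))) (k (c 224 4097 r (u 160 1 (k v (k v r)))) (k (c 224 4097 r (u 160 1 (k v (k v r)))) (k (c 224 4096 r (u 160 1 (k v (k v r)))) (k (c 224 4099 r (u 160 1 (k v (k v r)))) (k (c 160 4097 r (u 224 1 (k v (k v r)))) r))))))))))))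
 (.s 0x1d5445111dc213efb00 4088 (n false (z 91) (n false (n true (n false (n true (n false e e) e) (n false e e)) e) (n false (n false (n false (n false e e) (n false e e)) (n false (n false e e) (n false e e))) (n false e e)))) (u 2 1 (k v (k v (k v (k (u 4 0 (k v (k v r))) (k (c 4 4097 r (u 6 0 (k v (k v r)))) (k (c 4 4095 r (u 6 0 (k v (k v r)))) r)))))))
 .z .z) .z)) (.s 0x1d72bfa800475445110 4083 (n false (n false (n false (n true (z 156) e) e) (n false e e)) (n true (n false (n false (n false (n false e e) (n false e e)) (n false (n false e e) (n false e e))) (n false e e)) e)) (u 16 1 (k v (k (c 48 4099 r (u 32 1 (k v (k v r)))) (k (c 32 4098 r (u 48 1 (k v (k v r)))) (k (c 32 4097 r (u 48 1 (k v (k v r)))) (k (c 32 4099 r (u 48 1 (k v (k v r)))) (k (c 32 4095 r (u 48 0 (k v (k v r)))) r)))))))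
 (.s 0x1d55f2bbe00210e1708 4059 (n false (n false (n false (n false (n false (n false (n true (n true (z 52) e) e) (n false e e)) e) (n false e e)) e) (n true (n false e e) e)) (n false (n true (n false e e) e) (n false e e))) (u 256 237 (k v (k v (k v (k v (k v (k v (k v r))))))))
 (.s 0x1d55cafea00210e1708 4062 (n false (n false (n false (n false (n false (n false (n true (z 156) e) (n false e e)) e) (n false e e)) e) (n true (n false e e) e)) (n false (n true (n false e e) e) (n false e e))) (u 128 2 (k v (k (c 384 4099 r (u 256 1 (k v (k v r)))) (k (c 256 4095 r (u 384 0 (k v (k v r)))) r))))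
 .z .z) (.s 0x1d5d5114442112bbe00 4091 (n false (z 52) (n false (n false (n false (n true (n false (n false (n false (n false e e) (n false e e)) (n false (n false e e) (n false e e))) (n false e e)) e) (n false e e)) e) (n false e e))) (u 2 113 (k v (k v (k v (k v (k v (k v r)))))))
 .z .z)) (.s 0x1d72eee00387cbbb800 4087 (n false (n true (n true (z 42) e) e) (n false (n false (n true (z 42) e) e) (n true (n false e e) e))) (u 17 1 (k (u 8 1 (k v (k v r))) (k (u 8 1 (k v (k v r))) r)))
 (.s 0x1d72eee003874bfa800 4086 (n false (n true (n false (z 14) e) e) (n false (n false (n true (z 42) e) e) (n true (n false e e) e))) (u 8 0 (k (u 17 1 (k v (k v r))) (k (u 17 1 (k v (k v r))) r)))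
 .z .z) .z))) (.s 0x1d73fbb00387cbbb800 4085 (n false (n true (n true (z 42) e) e) (n false (n false (n true (z 87) e) e) (n true (n false e e) e))) (u 8 1 (k (u 17 1 (k v (k v r))) (k (u 17 1 (k v (k v r))) r)))
 (.s 0x1d73eab00387cbbb800 4089 (n false (n false (n false (n true (z 67) e) e) (n true (n false e e) e)) (n true (n true (z 42) e) e)) (u 16 0 (k (u 9 1 (k v (k v r))) (k (u 9 1 (k v (k v r))) r)))
 (.s 0x1d73bbb00470aa22888 4084 (n false (n false (n false (n true (z 85) e) (n false e e)) (n true (n false e e) e)) (n false (n false (n false (n false e e) (n false e e)) (n false (n false e e) (n false e e))) (n false e e))) (c 6 4094 v (u 16 4 (k v (k (c 48 4099 r r) (k (c 48 4099 r r) (k (c 48 4099 r (u 32 4 (k v (k v (k v (k (t 96 1 (u 64 6 (k v (k v (k (t 192 1 (u 128 2 (k v (k v r)))) r))))) r)))))) (k (u 32 0 (k v (k v (k v (k (t 96 2 (u 64 6 (k v (k v (k (t 192 1 (u 128 2 (k v (k v r)))) r))))) r))))) (k (c 48 4096 r r) (k (c 32 4099 r r) r)))))))))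
 (.s 0x1d73bae0023ea88a220 4084 (n false (n false (n false (n true (z 37) e) e) (n false e e)) (n true (n true (n false (n false (n false (n false e e) (n false e e)) (n false (n false e e) (n false e e))) (n false e e)) e) e)) (u 16 23 (k v (k v (k (u 32 0 (k (t 64 3 (t 96 1 v)) r)) (k (u 32 22 (k v (k v (k (t 96 1 (u 64 0 (k (t 128 3 (t 192 1 v)) r))) r)))) (k (c 8 4088 r v) r))))))
 .z .z) (.s 0x1d73eab002a88a223a0 4086 (n false (n false (n false (n true (z 67) e) e) (n false (n false (n false (n false e e) (n false e e)) (n false (n false e e) (n false e e))) (n false e e))) (n true (n false (n false e e) e) e)) (c 2 4079 (c 3 4099 v r) v)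
 .z .z)) (.s 0x1d73fbb00385cfeec00 4081 (n false (n false (n false (n true (z 87) e) e) (n true (n false e e) e)) (n false (n true (z 87) e) e)) (c 8 4098 (u 2 0 (k v (k v r))) (u 9 1 (k v (k v r))))
 (.s 0x1d73fbb00385cbfa800 4081 (n false (n false (n false (n true (z 87) e) e) (n true (n false e e) e)) (n false (n true (z 14) e) e)) (c 8 4098 (u 2 0 (k v (k v r))) (u 9 0 (k v (k v r))))
 .z .z) .z)) (.s 0x1d75445110e112fbb00 4087 (n false (z 86) (n false (n false (n true (n false (n false (n false (n false e e) (n false e e)) (n false (n false e e) (n false e e))) (n false e e)) e) (n true (n false e e) e)) (n false e e))) (u 2 0 (k (t 6 1 (u 4 3 (k v (k v r)))) r))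
 (.s 0x1d7544511088a7d5600 4093 (n false (n false (z 67) e) (n false (n false (n true (n false (n false (n false (n false e e) (n false e e)) (n false (n false e e) (n false e e))) (n false e e)) e) (n false e e)) (n false e e))) (u 4 69 (k v (k v (k v (k (t 12 1 (u 8 49 (k v (k v (k v r))))) (k (c 8 4101 r r) (k r (k (c 2 4088 r v) (k (c 8 4099 r r) (k (t 12 1 (c 17 4099 v (u 8 1 (k v (k (c 24 4097 r (u 16 0 (k v (k v r)))) r))))) (k (c 2 4091 (t 6 2 (u 4 0 (k r r))) v) (k (c 12 4101 r r) (k (t 12 1 (u 8 10 (k v (k v (k v (k (c 24 4099 r (u 16 1 (k v (k v r)))) r)))))) (k (c 12 4102 r r) (k (c 8 4101 r r) (k (t 12 1 (u 8 3 (k v (k v (k (c 24 4099 r (u 16 1 (k v (k v r)))) r))))) (k (c 8 4101 r r) r)))))))))))))))))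
 (.s 0x1d7544511088a55fe00 4091 (n false (n false (z 120) e) (n false (n false (n true (n false (n false (n false (n false e e) (n false e e)) (n false (n false e e) (n false e e))) (n false e e)) e) (n false e e)) (n false e e))) (u 4 21 (k v (k v (k r (k r (k (c 12 4101 r (c 9 4110 v (u 8 5 (k v (k v r))))) (k (c 8 4099 r r) (k (c 12 4096 r (c 3 4094 v r)) (k (c 2 4088 (t 6 1 (u 4 0 (k r r))) v) (k (c 12 4099 r r) (k (c 8 4098 r (c 3 4094 v r)) (k (c 8 4101 r r) (k r (k (c 12 4099 r r) (k (c 8 4101 r r) r)))))))))))))))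
 .z .z) (.s 0x1d754451108e13eff00 4085 (n false (z 123) (n false (n false (n true (n false (n false (n false (n false e e) (n false e e)) (n false (n false e e) (n false e e))) (n false e e)) e) (n false e e)) (n true (n false e e) e))) (c 17 4099 v (c 7 4094 v r))
 .z .z)) (.s 0x1d75445110e5fd40088 4086 (n false (n false (n false (n true (z 14) e) (n true (n false (n false (n false (n false e e) (n false e e)) (n false (n false e e) (n false e e))) (n false e e)) e)) (n false e e)) (n false e e)) (c 2 4083 (u 8 0 (k v (k v r))) v)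
 (.s 0x1d75445110e5d7c0088 4092 (n false (n false (n false (n true (z 50) e) (n true (n false (n false (n false (n false e e) (n false e e)) (n false (n false e e) (n false e e))) (n false e e)) e)) (n false e e)) (n false e e)) (u 16 1 (k v (k (c 48 4097 r (u 32 0 (k v (k v r)))) r)))
 .z .z) .z))))

set_option maxRecDepth 100000 in
def N162 : NT :=
(.s 0x1dcafea002a88a223a0 4089 (n false (n false (n true (z 156) e) (n false (n false (n false (n false e e) (n false e e)) (n false (n false e e) (n false e e))) (n false e e))) (n true (n false (n false e e) e) e)) (u 8 8 (k v (k v (k (c 24 4099 r (u 16 1 (k v (k v r)))) (k (c 16 4098 r (u 24 1 (k v (k v r)))) (k (c 16 4097 r (u 24 1 (k v (k v r)))) (k (c 16 4099 r (u 24 1 (k v (k v r)))) r)))))))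
 (.s 0x1dcabf8015445111f40 4083 (n false (n false (n true (z 56) e) (n false (n false (n false (n false e e) (n false e e)) (n false (n false e e) (n false e e))) (n false e e))) (n true (n true (n false (n false e e) e) e) e)) (c 10 4101 v (u 8 0 (k (u 16 202 (k v (k v (k v (k v (k (t 48 1 (u 32 7 (k v (k v r)))) r)))))) (k (c 16 4096 r (u 24 0 (k v (k v r)))) (k (u 16 1 (k v (k v r))) (k (c 24 4096 r (u 16 202 (k v (k v (k v (k v (k (t 48 1 (u 32 7 (k v (k v r)))) r))))))) r))))))
 (.s 0x1d757caef800843b840 4062 (n false (n false (n false (n true (n false (n false (n false (n true (n true (z 52) e) e) (n false e e)) e) (n false e e)) e) (n true (n false (n true (n false e e) e) (n false e e)) e)) e) e) (u 512 235 (k v (k v (k v (k v (k v (k v (k v r))))))))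
 (.s 0x1d755caef800843b840 4061 (n false (n false (n false (n true (n false (n false (n false (n false (n true (z 52) e) e) (n false e e)) e) (n false e e)) e) (n true (n false (n true (n false e e) e) (n false e e)) e)) e) e) (u 512 234 (k v (k v (k v (k v (k v (k v (k v r))))))))
 (.s 0x1d75445110e7f760088 4088 (n false (n false (n false (n true (z 87) e) (n true (n false (n false (n false (n false e e) (n false e e)) (n false (n false e e) (n false e e))) (n false e e)) e)) (n false e e)) (n false e e)) (c 2 4085 (u 8 1 (k v (k v r))) v)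
 .z .z) (.s 0x1d7572bfa800843b840 4065 (n false (n false (n false (n true (n false (n false (n false (n true (z 156) e) (n false e e)) e) (n false e e)) e) (n true (n false (n true (n false e e) e) (n false e e)) e)) e) e) (u 256 2 (k v (k (c 768 4099 r (u 512 1 (k v (k v r)))) (k (c 512 4095 r (u 768 0 (k v (k v r)))) r))))
 .z .z)) (.s 0x1d7d5caef8010821708 4062 (n false (n false (n false (n true (n true (n false (n false (n false (n true (z 52) e) (n false e e)) e) (n false e e)) e) e) (n false e e)) e) (n false (n true (n false e e) e) (n false e e))) (u 512 330 (k v (k v (k v (k v (k v (k v r)))))))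
 (.s 0x1d7cafea001c1d51110 4079 (n false (n false (n false (n true (n true (z 156) e) e) (n true (n false e e) e)) e) (n true (n false (n false (n false (n false e e) (n false e e)) (n false e e)) (n false e e)) e)) (u 32 14 (k v (k v (k (c 96 4099 r (u 64 1 (k v (k v r)))) (k (c 64 4099 r (u 96 1 (k v (k v r)))) (k (c 64 4095 r (u 96 0 (k v (k v r)))) r))))))
 .z .z) .z)) (.s 0x1dcaef801d4442a2288 4079 (n false (n false (n true (z 52) e) (n true (n false (n false (n false e e) (n false e e)) (n false e e)) e)) (n false (n false (n false e e) (n false e e)) (n false (n false e e) (n false e e)))) (u 8 289 (k v (k v (k v (k v (k v (k v (k v (k v r)))))))))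
 (.s 0x1dcaef8014faac01708 4075 (n false (n false (n false (z 67) e) (n true (z 52) e)) (n false (n true (n false e e) e) (n false e e))) (u 8 0 (k r (k (u 10 353 (k v (k v (k v (k v (k v (k v r))))))) r)))
 (.s 0x1dcaef8012bfa801d10 4081 (n false (n false (z 156) (n true (z 52) e)) (n true (n false (n false e e) (n false e e)) e)) (u 10 194 (k r (k r (k r (k (c 6 4085 v r) r)))))
 .z .z) (.s 0x1dcaef8014fef801708 4073 (n false (n false (n true (z 52) e) (n false (z 55) e)) (n false (n true (n false e e) e) (n false e e))) (u 8 399 (k (u 10 9 (k v (k v r))) (k r (k (u 10 3 (k v (k v r))) (k (c 10 4096 r v) (k (c 6 4095 r v) (k (t 10 3 v) (k (u 10 9 (k v (k v r))) (k (t 10 3 (t 24 2 (u 16 0 (k (u 32 2 (k v (k (u 64 2 (k v (k v r))) r))) r)))) (k (t 10 3 (t 24 1 (u 16 0 (k (c 48 4099 r (u 32 2 (k v (k (u 64 2 (k v (k v r))) r)))) r)))) r))))))))))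
 .z .z)) (.s 0x1dcafea0023ea88a220 4081 (n false (n false (n true (z 156) e) (n false e e)) (n true (n true (n false (n false (n false (n false e e) (n false e e)) (n false (n false e e) (n false e e))) (n false e e)) e) e)) (u 8 1 (k v (k (c 24 4099 r (u 16 1 (k v (k v r)))) (k (c 16 4098 r (u 24 1 (k v (k v r)))) (k (c 16 4097 r (u 24 1 (k v (k v r)))) (k (c 16 4099 r (u 24 1 (k v (k v r)))) (k (c 16 4095 r (u 24 0 (k v (k v r)))) r)))))))
 (.s 0x1dcafea0022a557c010 4083 (n false (n false (n true (z 156) e) (n false e e)) (n false (n false (z 48) (n false e e)) e)) (u 8 8 (k r (k (c 5 4096 (c 2 4098 r v) v) (k (c 24 4099 r r) (k (c 16 4098 r r) (k (c 16 4097 r r) (k (c 16 4099 r r) r)))))))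
 .z .z) .z))) (.s 0x1dcbbb801c29d7d8070 4081 (n false (n false (z 89) (n true (n false e e) e)) (n false (n true (z 42) e) (n true (n false e e) e))) (u 9 29 (k (u 4 61 (k v (k v r))) (k (c 9 4094 v r) (k (t 4 2 (t 25 1 r)) (k (c 2 4096 (c 3 4094 v r) r) (k (c 2 4096 (c 3 4094 v r) r) (k (c 2 4096 (c 3 4094 v r) r) r)))))))
 (.s 0x1dcbbb8013fbb00ea10 4086 (n false (n false (n true (z 42) e) (z 87)) (n true (n false (n false (n false e e) e) (n false e e)) e)) (u 8 1 (k (u 6 0 (k v (k v r))) (k (u 6 0 (k v (k v r))) r)))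
 (.s 0x1dcbbb8012eee00ee10 4081 (n false (n false (n true (z 42) e) (z 42)) (n true (n false (n true (n false e e) e) (n false e e)) e)) (u 6 0 (k (u 8 1 (k v (k v r))) (k r r)))
 (.s 0x1dcbbb8012aaa801708 4073 (n false (n false (z 128) (n true (z 42) e)) (n false (n true (n false e e) e) (n false e e))) (u 10 1 (k r (k (u 4 0 (k v (k v (k (c 12 4097 r r) (k (c 12 4099 r (u 8 0 (k (c 24 4099 r (u 16 0 (k (t 48 1 (u 32 2 (k v (k (c 16 4087 r v) r)))) r))) r))) (k (c 8 4095 r r) (k (c 8 4095 r (u 12 3 (k v (k v (k v r))))) (k (c 12 4095 r (u 8 0 (k v (k v r)))) (k (c 8 4095 r r) (k (c 8 4095 r (u 12 0 (k v (k v r)))) r)))))))))) r)))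
 .z .z) (.s 0x1dcbbb8012fea00ee10 4084 (n false (n false (z 14) (n true (z 42) e)) (n true (n false (n true (n false e e) e) (n false e e)) e)) (u 10 1 (k (u 4 0 (k v (k v r))) (k (u 4 0 (k v (k v r))) r)))
 .z .z)) (.s 0x1dcbbb8014fab801d10 4083 (n false (n false (n true (z 42) e) (n false (z 35) e)) (n true (n false (n false e e) (n false e e)) e)) (u 8 0 (k r (k (c 10 4096 r v) r)))
 (.s 0x1dcbbb8013fbb00ee10 4082 (n false (n false (z 87) (n true (z 42) e)) (n true (n false (n true (n false e e) e) (n false e e)) e)) (u 4 0 (k (u 10 1 (k v (k v r))) (k r r)))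
 .z .z) .z)) (.s 0x1dcbfa8015445111708 4070 (n false (n false (n true (z 14) e) (n false (n false (n false (n false e e) (n false e e)) (n false (n false e e) (n false e e))) (n false e e))) (n false (n true (n false e e) e) (n false e e))) (c 10 4101 v (u 8 0 (k v (k v r))))
 (.s 0x1dcbfa801511445d070 4072 (n false (n false (n true (z 14) e) (n false (n false (n false e e) (n false e e)) (n false (n false e e) (n false e e)))) (n false (n true (n false (n false e e) e) e) (n true (n false e e) e))) (c 9 4094 v (u 8 0 (k v (k v r))))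
 (.s 0x1dcbfa8014fef801708 4075 (n false (n false (n false (z 55) e) (n true (z 14) e)) (n false (n true (n false e e) e) (n false e e))) (u 10 3 (k (u 8 9 (k v (k v r))) (k r (k (u 8 9 (k v (k v r))) r))))
 .z .z) (.s 0x1dcbfa801511445dc20 4076 (n false (n false (n true (z 14) e) (n false (n false (n false e e) (n false e e)) (n false (n false e e) (n false e e)))) (n false (n true (n false (n true (n false e e) e) (n false e e)) e) e)) (c 9 4092 v (u 8 0 (k v (k v r))))
 .z .z)) (.s 0x1dcbfa801dc21d44510 4075 (n false (n false (n true (z 14) e) (n true (n false (n true (n false e e) e) (n false e e)) e)) (n true (n false (n false (n false e e) (n false e e)) (n false (n false e e) (n false e e))) e)) (c 5 4101 v (u 8 0 (k v (k v r))))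
 (.s 0x1dcbfa801d075445110 4081 (n false (n false (n true (n false (n false e e) e) e) (n true (z 14) e)) (n true (n false (n false (n false (n false e e) (n false e e)) (n false (n false e e) (n false e e))) (n false e e)) e)) (c 5 4099 v (u 10 0 (k v (k v r))))
 .z .z) .z))))

set_option maxRecDepth 100000 in
def N163 : NT :=
(.s 0x1dcfab801708e5ffc00 4083 (n false (n false (n true (z 35) e) (n false (n true (n false e e) e) (n false e e))) (n true (z 62) e)) (u 5 4 (k r (k r (k (c 8 4096 r v) (k (t 13 1 (u 9 41 (k r (k (c 8 4096 r v) (k (t 25 1 (u 17 0 (k (c 17 4094 v r) (k (u 8 10 (k v (k v (k v (k (t 24 1 (u 16 0 (k (t 32 3 (t 48 1 v)) r))) r))))) r)))) r))))) r)))))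
 (.s 0x1dcebfc01511447dc20 4080 (n false (n false (n true (z 121) e) (n false (n false (n false e e) (n false e e)) (n false (n false e e) (n false e e)))) (n true (n true (n false (n true (n false e e) e) (n false e e)) e) e)) (u 8 1 (k v (k (c 24 4099 r (u 16 1 (k v (k v r)))) (k (c 16 4097 r (u 24 1 (k v (k v r)))) (k (c 16 4095 r (u 24 0 (k v (k v r)))) (k (c 16 4095 r (u 24 0 (k v (k v r)))) r))))))
 (.s 0x1dcebec014fab801708 4076 (n false (n false (n true (z 89) e) (n false (z 35) e)) (n false (n true (n false e e) e) (n false e e))) (u 10 0 (k (u 8 24 (k v (k v (k v (k (t 24 2 (u 16 26 (k v (k v (k v r))))) r))))) (k (u 8 12 (k v (k v r))) (k (t 26 1 (u 18 0 (k (t 34 3 (t 50 1 (u 8 24 (k v (k v (k v (k (t 24 2 (u 16 26 (k v (k v (k v r))))) r))))))) r))) r))))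
 (.s 0x1dcbff8014fef801708 4073 (n false (n false (n true (z 62) e) (n false (z 55) e)) (n false (n true (n false e e) e) (n false e e))) (u 10 3 (k (u 8 1 (k v (k v (k v (k (t 24 1 (u 16 26 (k v (k v (k v r))))) r))))) (k (u 8 1 (k v (k v (k v (k (t 24 1 (u 16 26 (k v (k v (k v r))))) r))))) r)))
 (.s 0x1dcbfb801511447dc20 4080 (n false (n false (n true (z 46) e) (n false (n false (n false e e) (n false e e)) (n false (n false e e) (n false e e)))) (n true (n true (n false (n true (n false e e) e) (n false e e)) e) e)) (u 8 17 (k v (k v (k (u 16 1 (k v (k v r))) (k (u 16 0 (k v (k v r))) (k (c 24 4097 r (u 16 1 (k v (k v r)))) (k (c 16 4095 r (u 24 1 (k v (k v r)))) r)))))))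
 .z .z) (.s 0x1dcebec014aab801708 4076 (n false (n false (n true (z 89) e) (n false (z 32) e)) (n false (n true (n false e e) e) (n false e e))) (u 8 24 (k (u 10 0 (k (t 18 3 (t 26 1 v)) r)) (k (u 10 0 (k (t 18 3 (t 26 1 v)) r)) (k (u 10 0 (k (t 18 3 (t 26 1 v)) r)) (k (t 24 2 (u 10 0 (k (t 18 3 (t 26 1 (u 16 26 (k v (k v (k v r)))))) r))) r)))))
 .z .z)) (.s 0x1dcebfc015114475c20 4080 (n false (n false (n true (z 121) e) (n false (n false (n false e e) (n false e e)) (n false (n false e e) (n false e e)))) (n true (n false (n false (n true (n false e e) e) (n false e e)) e) e)) (u 8 1 (k v (k (c 24 4099 r (u 16 1 (k v (k v r)))) (k (c 16 4097 r (u 24 1 (k v (k v r)))) (k (c 16 4095 r (u 24 0 (k v (k v r)))) (k (c 16 4095 r (u 24 0 (k v (k v r)))) r))))))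
 (.s 0x1dcebec014fef801708 4076 (n false (n false (n false (z 55) e) (n true (z 89) e)) (n false (n true (n false e e) e) (n false e e))) (u 10 46 (k (u 8 9 (k v (k v r))) (k r (k (u 8 9 (k v (k v r))) (k (t 26 2 (u 8 3 (k (u 18 26 (k v (k v (k v r)))) (k (u 18 26 (k v (k v (k v r)))) r)))) r)))))
 .z .z) .z)) (.s 0x1dcfab8012bbe00ee10 4083 (n false (n false (z 52) (n true (z 35) e)) (n true (n false (n true (n false e e) e) (n false e e)) e)) (u 10 10 (k r (k r (k (c 6 4094 v r) (k (t 26 1 (u 18 0 (k (t 34 3 (t 50 1 r)) r))) r)))))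
 (.s 0x1dcfaac013fbb00ea10 4088 (n false (n false (n true (z 67) e) (z 87)) (n true (n false (n false (n false e e) e) (n false e e)) e)) (u 8 0 (k (u 6 0 (k v (k v r))) (k (u 6 0 (k v (k v r))) r)))
 (.s 0x1dcebfc015445111708 4091 (n false (n false (n true (z 121) e) (n false (n false (n false (n false e e) (n false e e)) (n false (n false e e) (n false e e))) (n false e e))) (n false (n true (n false e e) e) (n false e e))) (u 8 7 (k v (k v (k (c 24 4099 r (u 16 1 (k v (k v r)))) r))))
 .z .z) (.s 0x1dcfaac01cbbb801d10 4080 (n false (n false (n true (z 67) e) (n true (z 42) e)) (n true (n false (n false e e) (n false e e)) e)) (u 10 1 (k (u 8 0 (k v (k v r))) (k (u 8 0 (k v (k v r))) r)))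
 .z .z)) (.s 0x1dcfab801708e577c00 4083 (n false (n false (n true (z 35) e) (n false (n true (n false e e) e) (n false e e))) (n true (z 52) e)) (u 5 10 (k r (k (c 8 4096 r v) (k (c 8 4096 r v) (k r (k (c 8 4096 r v) (k (t 13 1 (u 8 10 (k (u 9 0 (k v (k v r))) (k (u 9 0 (k v (k v r))) (k (c 4 4094 v (u 9 0 (k v (k v r)))) (k (t 24 1 (u 16 0 (k (t 32 3 (t 48 1 (u 9 0 (k v (k v r))))) r))) r)))))) r)))))))
 (.s 0x1dcfab8012bfa801d10 4084 (n false (n false (z 156) (n true (z 35) e)) (n true (n false (n false e e) (n false e e)) e)) (u 10 0 (k r (k (c 6 4094 v r) (k (t 26 1 (u 4 0 (k r (k (c 8 4099 r (u 12 0 (k (u 18 0 (k (t 34 3 (t 50 1 v)) r)) (k r r)))) r)))) r))))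
 .z .z) .z))) (.s 0x1dcfeec013fbb00ee10 4080 (n false (n false (n true (z 87) e) (z 87)) (n true (n false (n true (n false e e) e) (n false e e)) e)) (u 6 1 (k (u 8 1 (k v (k v r))) (k (u 8 1 (k v (k v r))) r)))
 (.s 0x1dcfeec012bfa801708 4076 (n false (n false (n true (z 87) e) (z 156)) (n false (n true (n false e e) e) (n false e e))) (u 6 0 (k (u 8 1 (k v (k v r))) (k (c 14 4099 r r) r)))
 (.s 0x1dcfab801cbbb801d10 4085 (n false (n false (n true (z 35) e) (n true (z 42) e)) (n true (n false (n false e e) (n false e e)) e)) (c 8 4096 r (u 10 15 (k v (k v (k v r)))))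
 (.s 0x1dcfab801708e7f7c00 4083 (n false (n false (n true (z 35) e) (n false (n true (n false e e) e) (n false e e))) (n true (z 55) e)) (c 8 4096 r (c 2 4090 v r))
 .z .z) (.s 0x1dcfbb801c3ea88a220 4087 (n false (n false (n true (z 43) e) (n true (n false e e) e)) (n true (n true (n false (n false (n false (n false e e) (n false e e)) (n false (n false e e) (n false e e))) (n false e e)) e) e)) (u 8 0 (k v (k (u 16 1 (k v (k v r))) (k (c 24 4099 r (u 16 0 (k (u 32 0 (k v (k v r))) r))) (k r (k (c 3 4097 v r) (k (u 16 0 (k (u 32 0 (k v (k v r))) r)) (k r (k r r)))))))))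
 .z .z)) (.s 0x1dcfeec013fbb00ea10 4084 (n false (n false (n true (z 87) e) (z 87)) (n true (n false (n false (n false e e) e) (n false e e)) e)) (u 8 1 (k (u 6 0 (k v (k v r))) (k (u 6 0 (k v (k v r))) r)))
 (.s 0x1dcfeec012eee00ee10 4080 (n false (n false (n true (z 87) e) (z 42)) (n true (n false (n true (n false e e) e) (n false e e)) e)) (u 6 1 (k (u 8 1 (k v (k v r))) (k (u 8 1 (k v (k v r))) r)))
 .z .z) .z)) (.s 0x1dcfeec01511445d070 4072 (n false (n false (n true (z 87) e) (n false (n false (n false e e) (n false e e)) (n false (n false e e) (n false e e)))) (n false (n true (n false (n false e e) e) e) (n true (n false e e) e))) (c 9 4094 v (u 8 1 (k v (k v r))))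
 (.s 0x1dcfeec014faac01d10 4079 (n false (n false (n false (z 67) e) (n true (z 87) e)) (n true (n false (n false e e) (n false e e)) e)) (u 8 0 (k (u 10 1 (k v (k v r))) (k (u 10 1 (k v (k v r))) r)))
 (.s 0x1dcfeec014475445110 4083 (n false (n false (n true (z 87) e) (n false (n false e e) (n false e e))) (n true (n false (n false (n false (n false e e) (n false e e)) (n false (n false e e) (n false e e))) (n false e e)) e)) (c 2 4082 (u 4 1 (k v (k v r))) v)
 .z .z) (.s 0x1dcfeec014feec01d10 4079 (n false (n false (n false (z 87) e) (n true (z 87) e)) (n true (n false (n false e e) (n false e e)) e)) (u 8 1 (k (u 10 1 (k v (k v r))) (k (u 10 1 (k v (k v r))) r)))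
 .z .z)) (.s 0x1dcfeec01cbbb801d10 4076 (n false (n false (n true (z 42) e) (n true (z 87) e)) (n true (n false (n false e e) (n false e e)) e)) (u 8 1 (k (u 10 1 (k v (k v r))) (k (u 10 1 (k v (k v r))) r)))
 (.s 0x1dcfeec01511445dc20 4076 (n false (n false (n true (z 87) e) (n false (n false (n false e e) (n false e e)) (n false (n false e e) (n false e e)))) (n false (n true (n false (n true (n false e e) e) (n false e e)) e) e)) (c 9 4092 v (u 8 1 (k v (k v r))))
 .z .z) .z))))

set_option maxRecDepth 100000 in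
def N164 : NT :=
(.s 0x1dd3aff0095df002288 4083 (n false (n false (n true (n false (z 121) (z 52)) e) (n false e e)) (n false (n false e e) (n false e e))) (u 16 1 (k r (k (c 48 4099 r r) (k (c 32 4097 r (t 24 1 r)) (k (c 32 4095 r (t 24 1 (c 4 4080 r v))) (k (c 32 4095 r (t 24 1 (c 4 4080 r v))) r))))))
 (.s 0x1dd2aae003874bfa800 4087 (n false (n true (n false (z 14) e) e) (n false (n true (n false (z 32) e) e) (n true (n false e e) e))) (c 7 4094 v (u 8 0 (k (u 17 0 (k (t 33 3 (t 49 1 v)) r)) (k (u 17 0 (k (t 33 3 (t 49 1 v)) r)) r))))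
 (.s 0x1dcffa8015445111f40 4085 (n false (n false (n true (z 15) e) (n false (n false (n false (n false e e) (n false e e)) (n false (n false e e) (n false e e))) (n false e e))) (n true (n true (n false (n false e e) e) e) e)) (c 10 4101 v (u 8 0 (k v (k (c 3 4092 v (u 16 0 (k (u 32 0 (k v (k v r))) r))) r))))
 (.s 0x1dcfeec01d075445110 4079 (n false (n false (n true (z 87) e) (n true (n false (n false e e) e) e)) (n true (n false (n false (n false (n false e e) (n false e e)) (n false (n false e e) (n false e e))) (n false e e)) e)) (c 5 4099 v (u 8 1 (k v (k v r))))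
 (.s 0x1dcfeec01cfeec01708 4072 (n false (n false (n true (z 87) e) (n true (z 87) e)) (n false (n true (n false e e) e) (n false e e))) (u 8 0 (k (u 10 0 (k v (k v r))) (k (u 10 1 (k v (k v r))) r)))
 .z .z) (.s 0x1dcfef8014fef801708 4073 (n false (n false (n true (z 55) e) (n false (z 55) e)) (n false (n true (n false e e) e) (n false e e))) (c 10 4096 r (u 8 4 (k r (k r r))))
 .z .z)) (.s 0x1dd2aae0022a557c010 4083 (n false (n false (n true (n false (z 32) e) e) (n false e e)) (n false (n false (z 48) (n false e e)) e)) (u 9 10 (k (u 16 0 (k (t 32 3 (t 48 1 v)) r)) (k (u 16 0 (k (t 32 3 (t 48 1 v)) r)) r)))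
 (.s 0x1dd2aab008754451108 4080 (n false (n false (n true (n false (z 64) (n false e e)) e) (n true (n false (n false (n false (n false e e) (n false e e)) (n false (n false e e) (n false e e))) (n false e e)) e)) (n false e e)) (u 16 0 (k (c 48 4099 r (u 32 2 (k v (k (c 4 4078 (u 16 1 (k v (k v r))) v) r)))) r))
 .z .z) .z)) (.s 0x1dd2fee0095df002288 4083 (n false (n false (n true (n false (z 46) (z 52)) e) (n false e e)) (n false (n false e e) (n false e e))) (u 16 2 (k r (k (c 48 4099 r r) (k (t 24 1 r) (k (u 32 1 (k r (k (u 24 138 (k v (k v (k v r)))) r))) (k (c 48 4097 r (t 24 1 r)) (k (c 32 4095 r (t 24 1 r)) r)))))))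
 (.s 0x1dd2bff0095df002288 4083 (n false (n false (n true (n false (z 52) (z 124)) e) (n false e e)) (n false (n false e e) (n false e e))) (u 24 5 (k r (k (c 56 4097 r r) (k (c 56 4096 r r) (k (c 40 4098 r r) (k (c 56 4096 r r) (k (c 56 4097 r r) (k (c 56 4097 r r) (k (c 56 4096 r r) (k (c 40 4097 r r) r))))))))))
 (.s 0x1dd2bfa801c14befc00 4087 (n false (n false (n true (n false (z 156) (n true (n false e e) e)) e) (n false (z 118) e)) e) (u 10 2 (k (t 16 1 v) (k r (k r r))))
 .z .z) (.s 0x1dd2bff00e08aa22888 4077 (n false (n false (n true (n false (z 124) (n true (n false e e) e)) e) (n false e e)) (n false (n false (n false (n false e e) (n false e e)) (n false (n false e e) (n false e e))) (n false e e))) (u 16 1 (k v (k (c 48 4097 r (u 32 1 (k v (k v r)))) (k (c 48 4096 r (u 32 1 (k v (k v r)))) (k (c 32 4098 r (u 48 0 (k v (k v r)))) (k (c 48 4096 r (u 32 1 (k v (k v r)))) (k (c 48 4097 r (u 32 1 (k v (k v r)))) (k (c 48 4097 r (u 32 1 (k v (k v r)))) (k (c 48 4096 r (u 32 1 (k v (k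 v r)))) (k (c 48 4099 r (u 32 1 (k v (k v r)))) (k (c 32 4097 r (u 48 1 (k v (k v r)))) r)))))))))))
 .z .z)) (.s 0x1dd3afb0023ea88a220 4079 (n false (n false (n true (n false (z 89) e) e) (n false e e)) (n true (n true (n false (n false (n false (n false e e) (n false e e)) (n false (n false e e) (n false e e))) (n false e e)) e) e)) (u 16 2 (k v (k v (k v (k (t 48 2 (u 32 6 (k v (k v (k (t 96 1 (u 64 0 (k v (k v r)))) r))))) r)))))
 (.s 0x1dd2fee00e08aa22888 4077 (n false (n false (n true (n false (z 46) (n true (n false e e) e)) e) (n false e e)) (n false (n false (n false (n false e e) (n false e e)) (n false (n false e e) (n false e e))) (n false e e))) (u 16 1 (k v (k (u 32 1 (k v (k v r))) (k (c 48 4099 r (u 32 0 (k v (k v r)))) (k (u 32 1 (k v (k v r))) (k (c 48 4097 r (u 32 1 (k v (k v r)))) (k (c 32 4095 r (u 48 1 (k v (k v r)))) r)))))))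
 .z .z) .z))) (.s 0x1dd3eae0022a557c010 4083 (n false (n false (n true (n false (z 35) e) e) (n false e e)) (n false (n false (z 48) (n false e e)) e)) (u 16 0 (k (u 9 16 (k v (k v (k (c 8 4091 v r) r)))) (k (c 8 4094 v r) (k (t 48 1 (u 9 10 (k (u 32 0 (k (t 64 3 (t 96 1 v)) r)) (k (u 32 0 (k (t 64 3 (t 96 1 v)) r)) r)))) r))))
 (.s 0x1dd3bae00e08aa22888 4080 (n false (n false (n true (n false (z 37) (n true (n false e e) e)) e) (n false e e)) (n false (n false (n false (n false e e) (n false e e)) (n false (n false e e) (n false e e))) (n false e e))) (u 16 43 (k v (k v (k (u 32 0 (k (t 64 3 (t 96 1 v)) r)) (k (u 32 0 (k (t 64 3 (t 96 1 v)) r)) (k (u 32 2 (k v (k v (k v (k (t 96 1 (u 64 0 (k (t 128 3 (t 192 1 v)) r))) r))))) (k (u 32 0 (k v (k v (k (t 96 1 (u 64 0 (k (t 128 3 (t 192 1 v)) r))) r)))) r)))))))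
 (.s 0x1dd3baa0095ff802288 4086 (n false (n false (n true (n false (z 124) (z 5)) e) (n false e e)) (n false (n false e e) (n false e e))) (t 24 2 (u 16 5 (k v (k (c 48 4097 r (u 32 1 (k v (k v r)))) (k (c 48 4096 r (u 32 1 (k v (k v r)))) (k (c 32 4098 r (u 48 0 (k v (k v r)))) (k (c 48 4096 r (u 32 1 (k v (k v r)))) (k (c 48 4097 r (u 32 1 (k v (k v r)))) (k (c 48 4097 r (u 32 1 (k v (k v r)))) (k (c 48 4096 r (u 32 1 (k v (k v r)))) (k (c 32 4097 r (u 48 1 (k v (k v r)))) r)))))))))))
 (.s 0x1dd3aff00e0ea88a220 4084 (n false (n false (n true (n false (z 121) (n true (n false e e) e)) e) (n true (n false (n false (n false (n false e e) (n false e e)) (n false (n false e e) (n false e e))) (n false e e)) e)) e) (u 16 2 (k v (k v (k (c 48 4099 r (u 32 1 (k v (k v r)))) (k (c 32 4095 r (u 48 0 (k v (k v r)))) (k (c 32 4095 r (u 48 0 (k v (k v r)))) r))))))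
 .z .z) (.s 0x1dd3bae0095df002288 4083 (n false (n false (n true (n false (z 52) (z 37)) e) (n false e e)) (n false (n false e e) (n false e e))) (u 24 0 (k (u 16 136 (k v (k v (k v (k v r))))) (k (c 4 4088 r v) (k (c 4 4088 r v) (k r (k r (k r r)))))))
 .z .z)) (.s 0x1dd3bbb00e08aa22888 4077 (n false (n false (n true (n false (z 85) (n true (n false e e) e)) e) (n false e e)) (n false (n false (n false (n false e e) (n false e e)) (n false (n false e e) (n false e e))) (n false e e))) (u 16 10 (k (c 48 4099 r r) (k (c 48 4099 r r) (k (c 48 4099 r (u 32 4 (k v (k v (k v (k (t 96 1 (u 64 423 (k v (k v (k (t 192 1 (u 128 0 (k v (k v r)))) r))))) r)))))) (k (u 32 0 (k v (k v (k v (k (t 96 2 (u 64 423 (k v (k v (k (t 192 1 (u 128 0 (k v (k v r)))) r))))) r))))) (k (c 48 4101 r (u 32 0 (k (t 96 1 (u 64 0 (k (t 128 3 (t 192 3 v)) r))) r))) (k (c 48 4096 r r) (k (c 32 4099 r r) r))))))))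
 (.s 0x1dd3bae00e0ea88a220 4084 (n false (n false (n true (n false (z 37) (n true (n false e e) e)) e) (n true (n false (n false (n false (n false e e) (n false e e)) (n false (n false e e) (n false e e))) (n false e e)) e)) e) (u 16 47 (k v (k v (k v (k (u 32 0 (k (t 64 3 (t 96 1 v)) r)) (k (u 32 0 (k v (k v (k (t 96 1 (u 64 0 (k (t 128 3 (t 192 1 v)) r))) r)))) r))))))
 .z .z) .z)) (.s 0x1dd3ebe009d7f802288 4085 (n false (n false (n true (n false (z 51) (z 121)) e) (n false e e)) (n false (n false e e) (n false e e))) (t 16 1 (u 24 1 (k v (k (c 56 4099 r (u 40 1 (k v (k v r)))) (k (c 40 4097 r (u 56 1 (k v (k v r)))) (k (c 40 4095 r (u 56 0 (k v (k v r)))) (k (c 40 4095 r (u 56 0 (k v (k v r)))) r)))))))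
 (.s 0x1dd3eae003874bfa800 4087 (n false (n true (n false (z 14) e) e) (n false (n true (n false (z 35) e) e) (n true (n false e e) e))) (u 17 0 (k (u 8 0 (k v (k v r))) (k (c 9 4094 v (u 8 0 (k v (k v r)))) (k (t 49 1 (u 33 0 (k (t 65 3 (t 97 1 (u 8 2 (k v (k v (k v r)))))) r))) r))))
 (.s 0x1dd3eae0023ea88a220 4082 (n false (n false (n true (n false (z 35) e) e) (n false e e)) (n true (n true (n false (n false (n false (n false e e) (n false e e)) (n false (n false e e) (n false e e))) (n false e e)) e) e)) (u 16 1 (k v (k v (k v (k (t 48 1 (u 32 0 (k (t 64 3 (t 96 1 v)) r))) r)))))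
 .z .z) (.s 0x1dd3ebe0097f7002288 4085 (n false (n false (n true (n false (z 51) (z 46)) e) (n false e e)) (n false (n false e e) (n false e e))) (t 16 1 (u 24 2 (k v (k (c 56 4099 r (u 40 0 (k v (k v r)))) (k (u 40 1 (k v (k v r))) (k (u 40 1 (k v (k v r))) (k (c 56 4097 r (u 40 1 (k v (k v r)))) (k (c 40 4095 r (u 56 1 (k v (k v r)))) r))))))))
 .z .z)) (.s 0x1dd3efb00e08aa22888 4076 (n false (n false (n true (n false (z 91) (n true (n false e e) e)) e) (n false e e)) (n false (n false (n false (n false e e) (n false e e)) (n false (n false e e) (n false e e))) (n false e e))) (u 16 5 (k v (k (u 32 1 (k v (k v r))) (k (c 32 4097 r (u 48 0 (k v (k v r)))) (k (c 32 4097 r (u 48 0 (k v (k v r)))) (k (c 32 4097 r (u 48 0 (k v (k v r)))) (k (c 32 4096 r (u 48 0 (k v (k v r)))) (k (c 32 4095 r (u 48 0 (k v (k v r)))) r))))))))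
 (.s 0x1dd3efb0095df002288 4083 (n false (n false (n true (n false (z 91) (z 52)) e) (n false e e)) (n false (n false e e) (n false e e))) (u 16 4 (k r (k (u 24 301 (k v (k v (k v r)))) (k (u 32 1 (k r (k (u 24 138 (k v (k v (k v r)))) r))) (k (c 32 4097 r r) (k (c 32 4097 r r) (k (c 32 4096 r r) (k (c 32 4095 r r) r))))))))
 .z .z) .z))))

set_option maxRecDepth 100000 in
def N165 : NT :=
(.s 0x1dd51144422e5ddc008 4084 (n false (n false (n true (z 42) e) (n false e e)) (n false (n true (n false (n false (n false (n false e e) (n false e e)) (n false (n false e e) (n false e e))) (n false e e)) e) (n false e e))) (u 8 5 (k v (k r (k r (k (c 4 4087 (t 6 1 r) v) (k (c 9 4099 v r) (k (c 4 4087 r v) r)))))))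
 (.s 0x1dd511444229dd70070 4080 (n false (n false (z 37) (n true (n false e e) e)) (n false (n true (n false (n false (n false (n false e e) (n false e e)) (n false (n false e e) (n false e e))) (n false e e)) e) (n false e e))) (u 4 46 (k v (k v (k (u 8 0 (k (t 16 3 (t 24 1 v)) r)) (k (u 8 0 (k (t 16 3 (t 24 1 v)) r)) (k (u 8 2 (k v (k v (k v (k (t 24 1 (u 16 0 (k (t 32 3 (t 48 1 v)) r))) r))))) (k (u 8 10 (k v (k v (k v (k (t 24 1 (u 16 0 (k (t 32 3 (t 48 1 v)) r))) r))))) r)))))))
 (.s 0x1dd4eef8010ea88a220 4084 (n false (n false (n true (n false (n false (z 53) e) (n false e e)) e) (n true (n false (n false (n false (n false e e) (n false e e)) (n false (n false e e) (n false e e))) (n false e e)) e)) e) (u 32 0 (k (t 96 1 (u 64 18 (k v (k v (k (c 192 4099 r (u 128 0 (k v (k v r)))) (k (u 128 1 (k v (k v r))) (k (u 128 1 (k v (k v r))) (k (c 192 4097 r (u 128 1 (k v (k v r)))) r)))))))) (k (t 96 1 (u 64 4 (k v (k (c 192 4099 r r) (k (t 192 1 (u 128 3 (k v (k v r)))) (k (c 192 4099 r (u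 128 5 (k v (k v r)))) (k (u 128 12 (k v (k v r))) (k (c 192 4096 r (c 10 4099 v r)) (k (c 128 4099 r r) r))))))))) r)))
 (.s 0x1dd4afea002a88a2210 4085 (n false (n false (n true (n false (n false (z 156) e) (n false (n false (n false (n false e e) (n false e e)) (n false (n false e e) (n false e e))) (n false e e))) e) (n false e e)) e) (u 32 24 (k v (k v (k (c 96 4099 r (u 64 1 (k v (k v r)))) (k (c 64 4099 r (u 96 1 (k v (k v r)))) r)))))
 (.s 0x1dd3fbe009dd50023a0 4068 (n false (n false (n true (n false (z 55) (z 5)) e) (n false e e)) (n true (n false (n false e e) e) e)) (t 24 1 (u 16 4 (k (t 48 1 (u 32 4 (k v (k v (k (u 64 4 (k v (k (t 192 1 (u 128 4 (k v (k v r)))) r))) (k (u 64 4 (k v (k (t 192 1 (u 128 4 (k v (k v r)))) r))) (k r (k (c 24 4099 v r) r)))))))) (k (t 48 2 (c 24 4099 v r)) r))))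
 .z .z) (.s 0x1dd4bffc010ea88a220 4084 (n false (n false (n true (n false (n false (z 126) e) (n false e e)) e) (n true (n false (n false (n false (n false e e) (n false e e)) (n false (n false e e) (n false e e))) (n false e e)) e)) e) (u 32 1 (k v (k (t 96 1 (u 64 1 (k v (k (c 192 4099 r (u 128 1 (k v (k v r)))) (k (c 128 4097 r (u 192 1 (k v (k v r)))) (k (c 128 4095 r r) (k (c 128 4095 r r) r))))))) (k (t 96 1 (u 64 2 (k v (k (c 192 4099 r (u 128 8 (k v (k v (k v r))))) (k (c 16 4085 r v) (k (c 128 4096 r (u 192 1 (k v (k v r)))) r)))))) r))))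
 .z .z)) (.s 0x1dd511444229d7f8070 4079 (n false (n false (z 121) (n true (n false e e) e)) (n false (n true (n false (n false (n false (n false e e) (n false e e)) (n false (n false e e) (n false e e))) (n false e e)) e) (n false e e))) (u 4 1 (k v (k (c 12 4099 r (u 8 1 (k v (k v r)))) (k (c 8 4097 r (u 12 1 (k v (k v r)))) (k (c 8 4095 r (u 12 0 (k v (k v r)))) (k (c 8 4095 r (u 12 0 (k v (k v r)))) r))))))
 (.s 0x1dd5114442297f70070 4081 (n false (n false (z 46) (n true (n false e e) e)) (n false (n true (n false (n false (n false (n false e e) (n false e e)) (n false (n false e e) (n false e e))) (n false e e)) e) (n false e e))) (u 4 1 (k v (k (u 8 1 (k v (k v r))) (k (c 12 4099 r (u 8 0 (k v (k v r)))) (k (u 8 1 (k v (k v r))) (k (c 12 4097 r (u 8 1 (k v (k v r)))) (k (c 8 4095 r (u 12 1 (k v (k v r)))) r)))))))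
 .z .z) .z)) (.s 0x1dd51144422a7f5e008 4091 (n false (n false (n false (z 103) e) (n false e e)) (n false (n true (n false (n false (n false (n false e e) (n false e e)) (n false (n false e e) (n false e e))) (n false e e)) e) (n false e e))) (u 8 5 (k v (k (t 16 1 (u 24 2 (k v (k v r)))) (k (c 24 4100 r (u 16 1 (k v (k (c 48 4099 r (u 32 1 (k v (k v r)))) (k (c 32 4097 r (u 48 1 (k v (k v r)))) (k (c 32 4095 r (u 48 0 (k v (k v r)))) (k (c 32 4095 r (u 48 0 (k v (k v r)))) r))))))) (k (c 24 4100 r (u 16 1 (k v (k (c 48 4099 r (u 32 1 (k v (k v r)))) (k (c 32 4098 r (u 48 1 (k v (k v r)))) (k (c 32 4097 r (u 48 1 (k v (k v r)))) (k (c 32 4099 r (u 48 1 (k v (k v r)))) (k (c 32 4095 r (u 48 0 (k v (k v r)))) r)))))))) r)))))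
 (.s 0x1dd51144422a7d56008 4087 (n false (n false (n false (z 67) e) (n false e e)) (n false (n true (n false (n false (n false (n false e e) (n false e e)) (n false (n false e e) (n false e e))) (n false e e)) e) (n false e e))) (u 8 97 (k v (k v (k v (k (t 24 2 (u 16 2 (k v (k v r)))) (k (t 24 1 (u 16 2 (k v (k v r)))) (k (t 24 2 (c 9 4099 v r)) (k (c 4 4088 r v) (k (c 24 4097 r r) (k (c 24 4099 r r) (k (c 4 4091 (t 6 2 (u 4 0 (k r r))) v) (k (t 16 1 (u 24 2 (k v (k v r)))) (k (t 24 2 (c 9 4099 v r)) (k (c 4 4091 (t 4 1 (u 6 0 (k r r))) v) (k (t 16 2 (c 4 4085 r v)) (k (t 24 1 (c 9 4099 v r)) (k (t 24 2 (c 9 4099 v r)) (k (t 24 1 (c 9 4099 v r)) r))))))))))))))))))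
 (.s 0x1dd51144422a55fe008 4085 (n false (n false (n false (z 120) e) (n false e e)) (n false (n true (n false (n false (n false (n false e e) (n false e e)) (n false (n false e e) (n false e e))) (n false e e)) e) (n false e e))) (u 8 5 (k v (k (t 24 2 r) (k (c 24 4100 r r) (k (t 24 2 (c 9 4099 v r)) (k (t 16 1 (c 4 4085 r v)) (k (t 16 1 (u 24 2 (k v (k v r)))) (k (t 24 1 r) (k (c 4 4088 (t 6 1 r) v) (k (c 4 4088 (t 6 1 (u 4 0 (k r r))) v) (k (t 16 2 (c 4 4085 r v)) (k (t 16 1 (u 24 2 (k v (k v r)))) (k (t 16 1 (c 9 4099 v r)) (k (t 24 1 (c 9 4099 v r)) (k (t 24 1 (c 9 4099 v r)) (k r (k (t 16 1 r) (k (t 24 1 (c 9 4099 v r)) r))))))))))))))))))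
 .z .z) (.s 0x1dd51144422a7d5c008 4092 (n false (n false (n false (z 35) e) (n false e e)) (n false (n true (n false (n false (n false (n false e e) (n false e e)) (n false (n false e e) (n false e e))) (n false e e)) e) (n false e e))) (u 8 0 (k v (k v (k (t 24 1 (u 16 0 (k (t 32 3 (t 48 1 v)) r))) r))))
 .z .z)) (.s 0x1dd51144422e577c008 4088 (n false (n false (n true (z 52) e) (n false e e)) (n false (n true (n false (n false (n false (n false e e) (n false e e)) (n false (n false e e) (n false e e))) (n false e e)) e) (n false e e))) (u 8 83 (k v (k v (k v (k v (k v (k v (k v r))))))))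
 (.s 0x1dd51144422a7f7c008 4091 (n false (n false (n false (z 55) e) (n false e e)) (n false (n true (n false (n false (n false (n false e e) (n false e e)) (n false (n false e e) (n false e e))) (n false e e)) e) (n false e e))) (u 8 2 (k v (k (c 4 4091 (t 6 2 r) v) r)))
 .z .z) .z))) (.s 0x1dd51144425fdc01708 4077 (n false (n false (z 46) (n true (n false (n false (n false (n false e e) (n false e e)) (n false (n false e e) (n false e e))) (n false e e)) e)) (n false (n true (n false e e) e) (n false e e))) (u 4 2 (k v (k (c 12 4099 r (u 8 0 (k v (k v r)))) (k (u 8 1 (k v (k v r))) (k (u 8 1 (k v (k v r))) (k (c 12 4097 r (u 8 1 (k v (k v r)))) (k (c 8 4095 r (u 12 1 (k v (k v r)))) r)))))))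
 (.s 0x1dd511444257fe01708 4077 (n false (n false (z 124) (n true (n false (n false (n false (n false e e) (n false e e)) (n false (n false e e) (n false e e))) (n false e e)) e)) (n false (n true (n false e e) e) (n false e e))) (u 4 1 (k v (k (c 12 4097 r (u 8 1 (k v (k v r)))) (k (c 12 4096 r (u 8 1 (k v (k v r)))) (k (c 8 4098 r (u 12 0 (k v (k v r)))) (k (c 12 4096 r (u 8 1 (k v (k v r)))) (k (c 12 4097 r (u 8 1 (k v (k v r)))) (k (c 12 4097 r (u 8 1 (k v (k v r)))) (k (c 12 4096 r (u 8 1 (k v (k v r)))) (k (c 12 4099 r (u 8 1 (k v (k v r)))) (k (c 8 4097 r (u 12 1 (k v (k v r)))) r)))))))))))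
 (.s 0x1dd51144422e7f7c008 4088 (n false (n false (n true (z 55) e) (n false e e)) (n false (n true (n false (n false (n false (n false e e) (n false e e)) (n false (n false e e) (n false e e))) (n false e e)) e) (n false e e))) (u 8 4 (k (t 24 1 (u 16 12 (k v (k v (k (c 48 4099 r (t 32 3 v)) (k (u 32 4 (k v (k (t 96 1 (u 64 2 (k v (k v r)))) r))) (k (c 9 4099 v (u 32 3 (k v (k (t 96 1 (u 64 0 (k v (k v (k (c 192 4099 r (u 128 0 (k v (k v r)))) r))))) (k (t 96 1 (u 64 15 (k v (k v r)))) r))))) r))))))) (k (c 4 4091 (t 6 2 r) v) r)))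
 (.s 0x1dd51144422e7d56008 4089 (n false (n false (n true (z 67) e) (n false e e)) (n false (n true (n false (n false (n false (n false e e) (n false e e)) (n false (n false e e) (n false e e))) (n false e e)) e) (n false e e))) (u 8 106 (k v (k v (k v (k (t 24 2 (c 9 4099 v r)) (k (t 24 1 (c 9 4099 v r)) (k (c 24 4099 r r) (k (c 2 4086 (c 2 4088 r v) v) (k (c 24 4099 r (u 16 0 (k (u 32 0 (k v (k v r))) r))) (k (t 16 1 (c 9 4099 v r)) (k (t 24 2 (c 9 4099 v r)) (k (c 16 4099 r (u 24 0 (k (u 40 0 (k v (k v r))) r))) (k (t 24 2 (c 4 4086 r v)) (k (t 24 1 (c 9 4099 v r)) (k (t 24 2 (c 9 4099 v r)) (k (t 24 1 (c 9 4099 v r)) r))))))))))))))))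
 .z .z) (.s 0x1dd511444257f500288 4087 (n false (n false (z 156) (n true (n false (n false (n false (n false e e) (n false e e)) (n false (n false e e) (n false e e))) (n false e e)) e)) (n false (n false e e) (n false e e))) (u 4 1 (k v (k (c 12 4099 r (u 8 1 (k v (k v r)))) (k (c 8 4098 r (u 12 1 (k v (k v r)))) (k (c 8 4097 r r) (k (c 8 4099 r (u 12 1 (k v (k v r)))) (k (c 8 4095 r (u 12 0 (k v (k v r)))) r)))))))
 .z .z)) (.s 0x1dd51144425df401708 4079 (n false (n false (z 26) (n true (n false (n false (n false (n false e e) (n false e e)) (n false (n false e e) (n false e e))) (n false e e)) e)) (n false (n true (n false e e) e) (n false e e))) (u 4 2 (k v (k (c 10 4099 v (u 8 1 (k v (k v r)))) r)))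
 (.s 0x1dd51144425d7c01708 4078 (n false (n false (z 50) (n true (n false (n false (n false (n false e e) (n false e e)) (n false (n false e e) (n false e e))) (n false e e)) e)) (n false (n true (n false e e) e) (n false e e))) (u 4 1 (k v (k (c 12 4097 r (u 8 0 (k v (k v r)))) r)))
 .z .z) .z)) (.s 0x1dd5114442775c01d10 4079 (n false (n false (z 37) (n true (n false (n false (n false (n false e e) (n false e e)) (n false (n false e e) (n false e e))) (n false e e)) e)) (n true (n false (n false e e) (n false e e)) e)) (u 4 24 (k v (k (u 8 0 (k (t 16 3 (t 24 1 v)) r)) (k r (k (u 8 0 (k (t 16 3 (t 24 1 v)) r)) (k r (k (u 8 1 (k v (k (t 24 1 (u 16 21 (k v (k v (k v (k (c 10 4099 v (u 32 4 (k v (k (t 96 1 (u 64 2 (k v (k v r)))) r)))) (k (c 10 4099 v (u 32 4 (k v (k (t 96 1 (u 64 2 (k v (k v r)))) r)))) r))))))) r))) r)))))))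
 (.s 0x1dd511444275fe01708 4079 (n false (n false (z 121) (n true (n false (n false (n false (n false e e) (n false e e)) (n false (n false e e) (n false e e))) (n false e e)) e)) (n false (n true (n false e e) e) (n false e e))) (u 4 1 (k v (k (c 12 4099 r (u 8 1 (k v (k v r)))) (k (c 8 4097 r (u 12 1 (k v (k v r)))) (k (c 8 4095 r (u 12 0 (k v (k v r)))) (k (c 8 4095 r (u 12 0 (k v (k v r)))) r))))))
 (.s 0x1dd51144425fdc01d10 4083 (n false (n false (z 46) (n true (n false (n false (n false (n false e e) (n false e e)) (n false (n false e e) (n false e e))) (n false e e)) e)) (n true (n false (n false e e) (n false e e)) e)) (u 4 17 (k v (k v (k (c 3 4092 v r) (k (c 10 4099 v r) (k (c 12 4097 r (c 3 4092 v r)) (k (c 8 4095 r (c 3 4092 v r)) r)))))))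
 .z .z) (.s 0x1dd5114442775c01708 4079 (n false (n false (z 37) (n true (n false (n false (n false (n false e e) (n false e e)) (n false (n false e e) (n false e e))) (n false e e)) e)) (n false (n true (n false e e) e) (n false e e))) (u 4 0 (k v (k (u 8 0 (k (t 16 3 (t 24 1 v)) r)) (k (u 8 0 (k (t 16 3 (t 24 1 v)) r)) (k (u 8 0 (k v (k v (k (t 24 1 (u 16 0 (k (t 32 3 (t 48 1 v)) r))) r)))) (k (u 8 0 (k v (k v (k (t 24 1 (u 16 0 (k (t 32 3 (t 48 1 v)) r))) r)))) (k (u 8 7 (k v (k v r))) r)))))))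
 .z .z)) (.s 0x1dd511444277d601708 4084 (n false (n false (z 77) (n true (n false (n false (n false (n false e e) (n false e e)) (n false (n false e e) (n false e e))) (n false e e)) e)) (n false (n true (n false e e) e) (n false e e))) (u 4 2 (k v (k (c 12 4099 r r) (k (c 12 4099 r (u 8 5 (k v (k v (k (t 24 1 (u 16 37 (k v (k v (k v r))))) r))))) (k (u 8 13 (k v (k v (k v (k v r))))) r)))))
 (.s 0x1dd5114442777601708 4077 (n false (n false (z 85) (n true (n false (n false (n false (n false e e) (n false e e)) (n false (n false e e) (n false e e))) (n false e e)) e)) (n false (n true (n false e e) e) (n false e e))) (u 4 4 (k v (k (c 12 4099 r r) (k (c 12 4099 r r) (k (c 12 4099 r (u 8 1 (k v (k v (k v (k (t 24 1 r) r)))))) (k (u 8 2 (k v (k v (k v (k (t 24 2 (u 16 6 (k v (k v (k (t 48 1 (u 32 0 (k v (k v r)))) r))))) r))))) (k (c 12 4096 r r) (k (c 8 4099 r r) r))))))))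
 .z .z) .z))))

end Pool.Agent.Helper91.ND1
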