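import Pool.Agent.Helper91.VD1.All
import Pool.Agent.Helper91.ND1.CT
import Pool.Agent.Helper91.ND1.CA0
import Pool.Agent.Helper91.ND1.CA1
import Pool.Agent.Helper91.ND1.CA2
import Pool.Agent.Helper91.ND1.CA3
import Pool.Agent.Helper91.ND1.CA4
import Pool.Agent.Helper91.ND1.CA5
import Pool.Agent.Helper91.ND1.CA6
import Pool.Agent.Helper91.ND1.CA7
import Pool.Agent.Helper91.ND1.CA8
import Pool.Agent.Helper91.ND1.CA9
import Pool.Agent.Helper91.ND1.CA10
import Pool.Agent.Helper91.ND1.CA11
import Pool.Agent.Helper91.ND1.CR0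
import Pool.Agent.Helper91.ND1.CR1
import Pool.Agent.Helper91.ND1.CR2
import Pool.Agent.Helper91.ND1.CR3
import Pool.Agent.Helper91.ND1.CR4
import Pool.Agent.Helper91.ND1.CR5
import Pool.Agent.Helper91.ND1.CR6
import Pool.Agent.Helper91.ND1.CR7
import Pool.Agent.Helper91.ND1.CR8
import Pool.Agent.Helper91.ND1.CR9
import Pool.Agent.Helper91.ND1.CR10

/-! part of the certificate for the constant 25/48 (generated) -/

namespace Pool.Agent.Helper91.ND1

open Pool.Agent.Helper66.IL
open Pool.Agent.Helper66.ML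
open Pool.Agent.Helper66.ND
open Pool.Agent.Helper91.NF
open Pool.Agent.Helper91.VZ
open Pool.Agent.Helper91.VD1 (DT)
open Pool.Agent.Helper60.Idg (SubcubicTree Idim Iswell cdim cswell)

set_option maxRecDepth 100000 in
def rows : RS :=
  (.s R0 (.s R1 (.s R2 (.s R3 (.s R4 (.s R5 (.s R6 (.s R7 (.s R8 (.s R9 (.s R10 (.s R11 (.s R12 (.s R13 (.s R14 (.s R15 (.s R16 (.s R17 (.s R18 (.s R19 (.s R20 (.s R21 (.s R22 (.s R23 (.s R24 (.s R25 (.s R26 (.s R27 (.s R28 (.s R29 (.s R30 (.s R31 (.s R32 (.s R33 (.s R34 (.s R35 (.s R36 (.s R37 (.s R38 (.s R39 (.s R40 (.s R41 (.s R42 (.s R43 (.s R44 (.s R45 (.s R46 (.s R47 (.s R48 (.s R49 (.s R50 (.s R51 (.s R52 (.s R53 (.s R54 (.s R55 (.s R56 (.s R57 (.s R58 (.s R59 (.s R60 (.s R61 (.s R62 (.s R63 (.s R64 (.s R65 (.s R66 (.s R67 (.s R68 (.s R69 (.s R70 (.s R71 (.s R72 (.s R73 (.s R74 (.s R75 (.s R76 (.s R77 (.s R78 (.s R79 (.s R80 (.s R81 (.s R82 (.s R83 (.s R84 (.s R85 (.s R86 (.s R87 (.s R88 (.s R89 (.s R90 (.s R91 (.s R92 (.s R93 (.s R94 (.s R95 (.s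 R96 (.s R97 (.s R98 (.s R99 (.s R100 (.s R101 (.s R102 (.s R103 (.s R104 (.s R105 (.s R106 (.s R107 (.s R108 (.s R109 (.s R110 (.s R111 (.s R112 (.s R113 (.s R114 (.s R115 (.s R116 (.s R117 (.s R118 (.s R119 (.s R120 (.s R121 (.s R122 (.s R123 (.s R124 (.s R125 (.s R126 (.s R127 (.s R128 (.s R129 (.s R130 (.s R131 (.s R132 (.s R133 (.s R134 (.s R135 (.s R136 (.s R137 (.s R138 (.s R139 (.s R140 (.s R141 (.s R142 (.s R143 (.s R144 (.s R145 (.s R146 (.s R147 (.s R148 (.s R149 (.s R150 (.s R151 (.s R152 (.s R153 (.s R154 (.s R155 (.s R156 (.s R157 (.s R158 (.s R159 (.s R160 (.s R161 (.s R162 (.s R163 (.s R164 (.s R165 (.s R166 (.s R167 (.s R168 .z)))))))))))))))))))))))))))))))))))))))))))))))))))))))))))))))))))))))))))))))))))))))))))))))))))))))))))))))))))))))))))))))))))))))))))))))))))))))))))))))))))))))))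

set_option maxRecDepth 100000 in
theorem okRows : RS.okb A NN (vx DT) 167 rows 0 = true :=
  (row_cons okR0
  (row_cons okR1
  (row_cons okR2
  (row_cons okR3
  (row_cons okR4
  (row_cons okR5
  (row_cons okR6
  (row_cons okR7
  (row_cons okR8
  (row_cons okR9
  (row_cons okR10
  (row_cons okR11
  (row_cons okR12
  (row_cons okR13
  (row_cons okR14
  (row_cons okR15
  (row_cons okR16
  (row_cons okR17
  (row_cons okR18
  (row_cons okR19
  (row_cons okR20
  (row_cons okR21
  (row_cons okR22
  (row_cons okR23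
  (row_cons okR24
  (row_cons okR25
  (row_cons okR26
  (row_cons okR27
  (row_cons okR28
  (row_cons okR29
  (row_cons okR30
  (row_cons okR31
  (row_cons okR32
  (row_cons okR33
  (row_cons okR34
  (row_cons okR35
  (row_cons okR36
  (row_cons okR37
  (row_cons okR38
  (row_cons okR39
  (row_cons okR40
  (row_cons okR41
  (row_cons okR42
  (row_cons okR43
  (row_cons okR44
  (row_cons okR45
  (row_cons okR46
  (row_cons okR47
  (row_cons okR48
  (row_cons okR49
  (row_cons okR50
  (row_cons okR51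
  (row_cons okR52
  (row_cons okR53
  (row_cons okR54
  (row_cons okR55
  (row_cons okR56
  (row_cons okR57
  (row_cons okR58
  (row_cons okR59
  (row_cons okR60
  (row_cons okR61
  (row_cons okR62
  (row_cons okR63
  (row_cons okR64
  (row_cons okR65
  (row_cons okR66
  (row_cons okR67
  (row_cons okR68
  (row_cons okR69
  (row_cons okR70
  (row_cons okR71
  (row_cons okR72
  (row_cons okR73
  (row_cons okR74
  (row_cons okR75
  (row_cons okR76
  (row_cons okR77
  (row_cons okR78
  (row_cons okR79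
  (row_cons okR80
  (row_cons okR81
  (row_cons okR82
  (row_cons okR83
  (row_cons okR84
  (row_cons okR85
  (row_cons okR86
  (row_cons okR87
  (row_cons okR88
  (row_cons okR89
  (row_cons okR90
  (row_cons okR91
  (row_cons okR92
  (row_cons okR93
  (row_cons okR94
  (row_cons okR95
  (row_cons okR96
  (row_cons okR97
  (row_cons okR98
  (row_cons okR99
  (row_cons okR100
  (row_cons okR101
  (row_cons okR102
  (row_cons okR103
  (row_cons okR104
  (row_cons okR105
  (row_cons okR106
  (row_cons okR107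
  (row_cons okR108
  (row_cons okR109
  (row_cons okR110
  (row_cons okR111
  (row_cons okR112
  (row_cons okR113
  (row_cons okR114
  (row_cons okR115
  (row_cons okR116
  (row_cons okR117
  (row_cons okR118
  (row_cons okR119
  (row_cons okR120
  (row_cons okR121
  (row_cons okR122
  (row_cons okR123
  (row_cons okR124
  (row_cons okR125
  (row_cons okR126
  (row_cons okR127
  (row_cons okR128
  (row_cons okR129
  (row_cons okR130
  (row_cons okR131
  (row_cons okR132
  (row_cons okR133
  (row_cons okR134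
  (row_cons okR135
  (row_cons okR136
  (row_cons okR137
  (row_cons okR138
  (row_cons okR139
  (row_cons okR140
  (row_cons okR141
  (row_cons okR142
  (row_cons okR143
  (row_cons okR144
  (row_cons okR145
  (row_cons okR146
  (row_cons okR147
  (row_cons okR148
  (row_cons okR149
  (row_cons okR150
  (row_cons okR151
  (row_cons okR152
  (row_cons okR153
  (row_cons okR154
  (row_cons okR155
  (row_cons okR156
  (row_cons okR157
  (row_cons okR158
  (row_cons okR159
  (row_cons okR160
  (row_cons okR161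
  (row_cons okR162
  (row_cons okR163
  (row_cons okR164
  (row_cons okR165
  (row_cons okR166
  (row_cons okR167
  (row_cons okR168
  rs_nil)))))))))))))))))))))))))))))))))))))))))))))))))))))))))))))))))))))))))))))))))))))))))))))))))))))))))))))))))))))))))))))))))))))))))))))))))))))))))))))))))))))))))

set_option maxRecDepth 100000 in
theorem okA : aok A NN 23 167 = true :=
  (aok_cons okA166 (aok_cons okA165 (aok_cons okA164 (aok_cons okA163 (aok_cons okA162 (aok_cons okA161 (aok_cons okA160 (aok_cons okA159 (aok_cons okA158 (aok_cons okA157 (aok_cons okA156 (aok_cons okA155 (aok_cons okA154 (aok_cons okA153 (aok_cons okA152 (aok_cons okA151 (aok_cons okA150 (aok_cons okA149 (aok_cons okA148 (aok_cons okA147 (aok_cons okA146 (aok_cons okA145 (aok_cons okA144 (aok_cons okA143 (aok_cons okA142 (aok_cons okA141 (aok_cons okA140 (aok_cons okA139 (aok_cons okA138 (aok_cons okA137 (aok_cons okA136 (aok_cons okA135 (aok_cons okA134 (aok_cons okA133 (aok_cons okA132 (aok_cons okA131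 (aok_cons okA130 (aok_cons okA129 (aok_cons okA128 (aok_cons okA127 (aok_cons okA126 (aok_cons okA125 (aok_cons okA124 (aok_cons okA123 (aok_cons okA122 (aok_cons okA121 (aok_cons okA120 (aok_cons okA119 (aok_cons okA118 (aok_cons okA117 (aok_cons okA116 (aok_cons okA115 (aok_cons okA114 (aok_cons okA113 (aok_cons okA112 (aok_cons okA111 (aok_cons okA110 (aok_cons okA109 (aok_cons okA108 (aok_cons okA107 (aok_cons okA106 (aok_cons okA105 (aok_cons okA104 (aok_cons okA103 (aok_cons okA102 (aok_cons okA101 (aok_cons okA100 (aok_cons okA99 (aok_cons okA98 (aok_cons okA97 (aok_cons okA96 (aok_cons okA95 (aok_cons okA94 (aok_cons okA93 (aok_cons okA92 (aok_cons okA91 (aok_cons okA90 (aok_cons okA89 (aok_cons okA88 (aok_cons okA87 (aok_cons okA86 (aok_cons okA85 (aok_cons okA84 (aok_cons okA83 (aok_cons okA82 (aok_cons okA81 (aok_cons okA80 (aok_cons okA79 (aok_cons okA78 (aok_cons okA77 (aok_cons okA76 (aok_cons okA75 (aok_cons okA74 (aok_cons okA73 (aok_cons okA72 (aok_cons okA71 (aok_cons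 okA70 (aok_cons okA69 (aok_cons okA68 (aok_cons okA67 (aok_cons okA66 (aok_cons okA65 (aok_cons okA64 (aok_cons okA63 (aok_cons okA62 (aok_cons okA61 (aok_cons okA60 (aok_cons okA59 (aok_cons okA58 (aok_cons okA57 (aok_cons okA56 (aok_cons okA55 (aok_cons okA54 (aok_cons okA53 (aok_cons okA52 (aok_cons okA51 (aok_cons okA50 (aok_cons okA49 (aok_cons okA48 (aok_cons okA47 (aok_cons okA46 (aok_cons okA45 (aok_cons okA44 (aok_cons okA43 (aok_cons okA42 (aok_cons okA41 (aok_cons okA40 (aok_cons okA39 (aok_cons okA38 (aok_cons okA37 (aok_cons okA36 (aok_cons okA35 (aok_cons okA34 (aok_cons okA33 (aok_cons okA32 (aok_cons okA31 (aok_cons okA30 (aok_cons okA29 (aok_cons okA28 (aok_cons okA27 (aok_cons okA26 (aok_cons okA25 (aok_cons okA24 (aok_cons okA23 (aok_cons okA22 (aok_cons okA21 (aok_cons okA20 (aok_cons okA19 (aok_cons okA18 (aok_cons okA17 (aok_cons okA16 (aok_cons okA15 (aok_cons okA14 (aok_cons okA13 (aok_cons okA12 (aok_cons okA11 (aok_cons okA10 (aok_cons okA9 (aok_cons okA8 (aok_cons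 okA7 (aok_cons okA6 (aok_cons okA5 (aok_cons okA4 (aok_cons okA3 (aok_cons okA2 (aok_cons okA1 (aok_cons okA0 rfl)))))))))))))))))))))))))))))))))))))))))))))))))))))))))))))))))))))))))))))))))))))))))))))))))))))))))))))))))))))))))))))))))))))))))))))))))))))))))))))))))))))))

theorem upper :
    (∀ (V : Type) [Fintype V] (T : SimpleGraph V), SubcubicTree T →
      (Idim T : ℝ) ≤ 25 / 48 * (Fintype.card V : ℝ) + 23 / 48 ∧
      (Iswell T : ℝ) ≤ 25 / 48 * (Fintype.card V : ℝ) + 95 / 48) ∧
    cdim ≤ 25 / 48 ∧ cswell ≤ 25 / 48 := by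
  have h := upper3 (C := 23) (n := 167) (fun b h => vx_ok Pool.Agent.Helper91.VD1.all b h) okA okT1 okRows (by decide +kernel)
  refine ⟨fun V _ T hT => ?_, h.2⟩
  obtain ⟨ha, hb⟩ := h.1 V T hT
  exact ⟨le_of_le_of_eq ha (by norm_num), le_of_le_of_eq hb (by norm_num)⟩

end Pool.Agent.Helper91.ND1
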